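import Pool.Agent.Work.MP_bf01b2_co.MR.K4T

/-!
# Three and four roots in `Q_5`: certificates of the entries 13200 to 15154
-/

set_option autoImplicit false
set_option maxRecDepth 100000

namespace Pool.Agent.Work.MP_bf01b2_co.MR

namespace K4

open JT

/-- certificates of the entries 13200 to 15154 -/
def c6 : List Rc :=
  [.two (nat_lit 2349859173) (nat_lit 10376708457) (.two (nat_lit 4613734466) (nat_lit 165532402984) (.two (nat_lit 3464495119) (nat_lit 19128125965) (.two (nat_lit 11484004365) (nat_lit 20652756873) (.two (nat_lit 176160773) (nat_lit 158177696359) (.two (nat_lit 2097153) (nat_lit 1057817) (.two (nat_lit 1048576) (nat_lit 2108519) (.one (nat_lit 1061123) .nil))))))),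
   .two (nat_lit 1846542693) (nat_lit 166130090348) (.two (nat_lit 174753579075) (nat_lit 156548203363) (.two (nat_lit 1846542351) (nat_lit 2100699) (.two (nat_lit 2961178632) (nat_lit 174701155335) (.two (nat_lit 176160772) (nat_lit 2104835) (.two (nat_lit 16777217) (nat_lit 2107306) (.two (nat_lit 1048576) (nat_lit 8399977) (.one (nat_lit 1061125) .nil))))))),
   .two (nat_lit 1947205827) (nat_lit 10909385065) (.two (nat_lit 20644364355) (nat_lit 1212155203) (.two (nat_lit 4194319) (nat_lit 184423550866) (.two (nat_lit 605028357) (nat_lit 2961185433) (.two (nat_lit 41943041) (nat_lit 183848937948) (.one (nat_lit 1060609) .nil))))),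
   .two (nat_lit 184993972419) (nat_lit 4598006381) (.two (nat_lit 184993972290) (nat_lit 1276118334) (.two (nat_lit 713031695) (nat_lit 166129043991) (.two (nat_lit 739246088) (nat_lit 3003125651) (.two (nat_lit 16777220) (nat_lit 10913587354) (.two (nat_lit 1048576) (nat_lit 16789214) .nil))))),
   .two (nat_lit 4601151683) (nat_lit 847250274) (.two (nat_lit 276824079) (nat_lit 46978304529) (.two (nat_lit 276824072) (nat_lit 1279266696) (.two (nat_lit 8388612) (nat_lit 28690094673) (.two (nat_lit 8388609) (nat_lit 3557827690) (.two (nat_lit 1048576) (nat_lit 4205675) (.one (nat_lit 4206854) .nil)))))),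
   .two (nat_lit 13195280579) (nat_lit 1212154722) (.two (nat_lit 4605345807) (nat_lit 19599984157) (.two (nat_lit 41943048) (nat_lit 158179793497) (.two (nat_lit 8388609) (nat_lit 46980408382) (.two (nat_lit 4194304) (nat_lit 8399424) (.one (nat_lit 310390397) .nil))))),
   .two (nat_lit 28693234022) (nat_lit 10955522409) (.two (nat_lit 318767170) (nat_lit 28693234982) (.two (nat_lit 157038936079) (nat_lit 2101600) (.two (nat_lit 46407876616) (nat_lit 16783194) (.two (nat_lit 34603013) (nat_lit 4201989) (.two (nat_lit 2097153) (nat_lit 4203633) (.two (nat_lit 1048576) (nat_lit 2108524) (.one (nat_lit 2109703) .nil))))))),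
   .two (nat_lit 50331843) (nat_lit 1178600034) (.two (nat_lit 16777280) (nat_lit 9906947407) (.two (nat_lit 16777231) (nat_lit 343936449) (.two (nat_lit 713031688) (nat_lit 19026418316) (.two (nat_lit 612368385) (nat_lit 2990549509) (.one (nat_lit 1061128) .nil))))),
   .two (nat_lit 4601151683) (nat_lit 1753219938) (.two (nat_lit 4601151503) (nat_lit 209717774) (.two (nat_lit 4194312) (nat_lit 10376714826) (.two (nat_lit 8388609) (nat_lit 13224649833) (.two (nat_lit 1048576) (nat_lit 813706283) (.one (nat_lit 1061129) .nil))))),
   .two (nat_lit 37313577155) (nat_lit 645924165) (.two (nat_lit 184549391) (nat_lit 11551117202) (.two (nat_lit 8388612) (nat_lit 4598012498) (.two (nat_lit 8388609) (nat_lit 184431943817) (.two (nat_lit 1048576) (nat_lit 20745037485) (.one (nat_lit 1060610) .nil))))),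
   .two (nat_lit 10007609539) (nat_lit 159217878338) (.two (nat_lit 159224168463) (nat_lit 3022000018) (.two (nat_lit 176160772) (nat_lit 3022002781) (.two (nat_lit 2097153) (nat_lit 2994741407) (.two (nat_lit 1048576) (nat_lit 3464507051) .nil)))),
   .two (nat_lit 156372041923) (nat_lit 3460301666) (.two (nat_lit 1795162127) (nat_lit 2987395589) (.two (nat_lit 1291845640) (nat_lit 174759874449) (.two (nat_lit 8388612) (nat_lit 104865262) (.two (nat_lit 4194305) (nat_lit 705700824) (.two (nat_lit 16777216) (nat_lit 184419363892) (.one (nat_lit 8401162) .nil)))))),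
   .two (nat_lit 46409974117) (nat_lit 8389267) (.two (nat_lit 184549441) (nat_lit 679478591) (.two (nat_lit 41943055) (nat_lit 158143089168) (.two (nat_lit 41943048) (nat_lit 21223183352) (.two (nat_lit 713031685) (nat_lit 1346378342) (.two (nat_lit 4194305) (nat_lit 8398764) (.two (nat_lit 4194304) (nat_lit 8399981) (.one (nat_lit 8401163) .nil))))))),
   .two (nat_lit 16777411) (nat_lit 20711473788) (.two (nat_lit 306184257) (nat_lit 1216349026) (.two (nat_lit 1350565903) (nat_lit 20719864335) (.two (nat_lit 713031688) (nat_lit 166245440120) (.two (nat_lit 156372041729) (nat_lit 4204461) (.two (nat_lit 8388608) (nat_lit 16788590) (.one (nat_lit 8401164) .nil)))))),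
   .two (nat_lit 4647289027) (nat_lit 166132187752) (.two (nat_lit 11559501888) (nat_lit 156465366314) (.two (nat_lit 754974735) (nat_lit 183848932314) (.two (nat_lit 605028357) (nat_lit 9781122358) (.two (nat_lit 4194305) (nat_lit 47563415699) (.two (nat_lit 16777216) (nat_lit 159253539389) (.one (nat_lit 10537152614) .nil)))))),
   .two (nat_lit 46477082819) (nat_lit 28758245571) (.two (nat_lit 1847590977) (nat_lit 843056505) (.two (nat_lit 158176641064) (nat_lit 20705183261) (.two (nat_lit 158176641037) (nat_lit 20740838387) (.two (nat_lit 739246085) (nat_lit 843061879) (.two (nat_lit 34603009) (nat_lit 2106482) (.two (nat_lit 1048576) (nat_lit 2107969) (.one (nat_lit 1061133) .nil))))))),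
   .two (nat_lit 46477082819) (nat_lit 46407877668) (.two (nat_lit 1178599540) (nat_lit 2936013668) (.two (nat_lit 47563407401) (nat_lit 9969863193) (.two (nat_lit 185002360840) (nat_lit 1346375564) (.two (nat_lit 159216828421) (nat_lit 28705823316) (.two (nat_lit 16777217) (nat_lit 46409982111) (.two (nat_lit 1048576) (nat_lit 4205679) (.one (nat_lit 4206862) .nil))))))),
   .two (nat_lit 9948889283) (nat_lit 11584668988) (.two (nat_lit 176160783) (nat_lit 13203671567) (.two (nat_lit 176160776) (nat_lit 156380435411) (.two (nat_lit 184549381) (nat_lit 343941281) (.two (nat_lit 8388608) (nat_lit 20652763687) (.one (nat_lit 9974066881) .nil))))),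
   .two (nat_lit 47596961987) (nat_lit 9768534655) (.two (nat_lit 135266371) (nat_lit 10372515129) (.two (nat_lit 285212687) (nat_lit 9802091006) (.two (nat_lit 9781116941) (nat_lit 4027585553) (.two (nat_lit 822083589) (nat_lit 202382843) (.two (nat_lit 37748737) (nat_lit 1057907) (.two (nat_lit 1048576) (nat_lit 4205122) (.one (nat_lit 4206863) .nil))))))),
   .two (nat_lit 185035915459) (nat_lit 1049197) (.two (nat_lit 3003121730) (nat_lit 9799992696) (.two (nat_lit 21777874959) (nat_lit 156984412682) (.two (nat_lit 705691656) (nat_lit 3472887689) (.two (nat_lit 13187940357) (nat_lit 159219980921) (.two (nat_lit 2097153) (nat_lit 4203636) (.two (nat_lit 1048576) (nat_lit 2108528) (.one (nat_lit 2109712) .nil))))))),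
   .two (nat_lit 843055712) (nat_lit 12163481964) (.two (nat_lit 822083651) (nat_lit 28693234985) (.two (nat_lit 11492392975) (nat_lit 1212156418) (.two (nat_lit 183848927240) (nat_lit 1761611670) (.two (nat_lit 809500677) (nat_lit 11559507255) (.two (nat_lit 37748737) (nat_lit 46422563695) (.two (nat_lit 8388608) (nat_lit 272641756) .nil)))))),
   .two (nat_lit 772800869) (nat_lit 8389268) (.two (nat_lit 772800577) (nat_lit 11014244896) (.two (nat_lit 16777228) (nat_lit 303043545) (.two (nat_lit 176160772) (nat_lit 156532480596) (.two (nat_lit 34603009) (nat_lit 12062827630) (.two (nat_lit 16777216) (nat_lit 1059395) (.one (nat_lit 1061138) .nil)))))),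
   .two (nat_lit 159224168643) (nat_lit 3524264578) (.two (nat_lit 184986632259) (nat_lit 47555020318) (.two (nat_lit 20644364296) (nat_lit 34607002) (.two (nat_lit 165532401669) (nat_lit 806361691) (.two (nat_lit 9781116929) (nat_lit 12617523355) (.two (nat_lit 1048576) (nat_lit 1426074140) (.one (nat_lit 1061139) .nil)))))),
   .two (nat_lit 183853122143) (nat_lit 156984410471) (.two (nat_lit 1426063427) (nat_lit 18933089575) (.two (nat_lit 4605345807) (nat_lit 608176649) (.two (nat_lit 41943048) (nat_lit 19612570939) (.two (nat_lit 8388609) (nat_lit 19130229788) (.two (nat_lit 4194304) (nat_lit 19142815455) .nil))))),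
   .two (nat_lit 183853122147) (nat_lit 158662132074) (.two (nat_lit 16777281) (nat_lit 158653744467) (.two (nat_lit 16777231) (nat_lit 612372373) (.two (nat_lit 8388612) (nat_lit 156581762360) (.two (nat_lit 8388609) (nat_lit 16785571) (.two (nat_lit 8388608) (nat_lit 16788036) (.one (nat_lit 8400644) .nil)))))),
   .two (nat_lit 13195280741) (nat_lit 156367847782) (.two (nat_lit 46409973827) (nat_lit 13195281250) (.two (nat_lit 4601151503) (nat_lit 46481279502) (.two (nat_lit 20637024264) (nat_lit 209722019) (.two (nat_lit 4194305) (nat_lit 8397942) (.two (nat_lit 1048576) (nat_lit 4205682) (.one (nat_lit 4206868) .nil)))))),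
   .two (nat_lit 156535619779) (nat_lit 20738736735) (.two (nat_lit 876609644) (nat_lit 1417676071) (.two (nat_lit 37748751) (nat_lit 11584670246) (.two (nat_lit 813694984) (nat_lit 10506735492) (.two (nat_lit 2954887173) (nat_lit 10510932603) (.two (nat_lit 8388609) (nat_lit 4599063530) (.two (nat_lit 2097152) (nat_lit 4205684) (.one (nat_lit 2109718) .nil))))))),
   .two (nat_lit 620757187) (nat_lit 13195280579) (.two (nat_lit 16777280) (nat_lit 18933089566) (.two (nat_lit 50331663) (nat_lit 3028290074) (.two (nat_lit 41943048) (nat_lit 318773868) (.two (nat_lit 50331649) (nat_lit 1350575097) (.two (nat_lit 8388608) (nat_lit 16788597) (.one (nat_lit 75509433) .nil)))))),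
   .two (nat_lit 1384120515) (nat_lit 184550242) (.two (nat_lit 184549391) (nat_lit 1753220637) (.two (nat_lit 620757000) (nat_lit 3565162376) (.two (nat_lit 713031684) (nat_lit 2969572663) (.two (nat_lit 16777217) (nat_lit 339747774) (.two (nat_lit 4194304) (nat_lit 713043666) .nil))))),
   .two (nat_lit 654311619) (nat_lit 4195367) (.two (nat_lit 46980399169) (nat_lit 9781119517) (.two (nat_lit 19599982600) (nat_lit 638586768) (.two (nat_lit 2889875461) (nat_lit 185020193408) (.two (nat_lit 4194305) (nat_lit 638592086) (.two (nat_lit 2097152) (nat_lit 1059958) (.one (nat_lit 159253540547) .nil)))))),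
   .two (nat_lit 9781117541) (nat_lit 174755676520) (.two (nat_lit 47555018816) (nat_lit 166232851781) (.two (nat_lit 721420303) (nat_lit 47555020318) (.two (nat_lit 3464495112) (nat_lit 1962939354) (.two (nat_lit 721420292) (nat_lit 171974135) (.two (nat_lit 50331649) (nat_lit 71312435) (.two (nat_lit 4194304) (nat_lit 8399991) (.one (nat_lit 4206872) .nil))))))),
   .two (nat_lit 272629955) (nat_lit 136315241) (.two (nat_lit 4194369) (nat_lit 880804706) (.two (nat_lit 4194319) (nat_lit 880805405) (.two (nat_lit 4194312) (nat_lit 47548732388) (.two (nat_lit 176160772) (nat_lit 183845788306) (.two (nat_lit 606076929) (nat_lit 1954554815) (.two (nat_lit 2097152) (nat_lit 19096676882) (.one (nat_lit 2109189) .nil))))))),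
   .two (nat_lit 11476664677) (nat_lit 11593056903) (.two (nat_lit 3539992641) (nat_lit 4028631578) (.two (nat_lit 218103816) (nat_lit 9806289529) (.two (nat_lit 8388609) (nat_lit 1058735) (.two (nat_lit 1048576) (nat_lit 8399992) (.one (nat_lit 1061146) .nil))))),
   .two (nat_lit 50332005) (nat_lit 1049237) (.two (nat_lit 4605345859) (nat_lit 12047090531) (.two (nat_lit 739246095) (nat_lit 10385099290) (.two (nat_lit 46414168072) (nat_lit 13237228543) (.two (nat_lit 2969567237) (nat_lit 1309678245) (.two (nat_lit 8388609) (nat_lit 1057912) (.two (nat_lit 1048576) (nat_lit 16788601) (.one (nat_lit 1061147) .nil))))))),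
   .two (nat_lit 47596961987) (nat_lit 1178599781) (.two (nat_lit 9768534083) (nat_lit 9814672701) (.two (nat_lit 11479810063) (nat_lit 336596881) (.two (nat_lit 176160773) (nat_lit 158158822899) (.two (nat_lit 41943041) (nat_lit 1929390590) (.one (nat_lit 1061148) .nil))))),
   .two (nat_lit 4647289027) (nat_lit 184419353442) (.two (nat_lit 285212687) (nat_lit 10372516358) (.two (nat_lit 4613734408) (nat_lit 20640175078) (.two (nat_lit 13191086085) (nat_lit 165540795705) (.two (nat_lit 16777217) (nat_lit 2990548069) (.two (nat_lit 1048576) (nat_lit 47550836353) .nil))))),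
   .two (nat_lit 9948889283) (nat_lit 1049238) (.two (nat_lit 47548727362) (nat_lit 721421691) (.two (nat_lit 169869327) (nat_lit 2969568797) (.two (nat_lit 169869320) (nat_lit 2432700313) (.two (nat_lit 2097157) (nat_lit 10519321210) (.two (nat_lit 2097153) (nat_lit 1057913) (.two (nat_lit 1048576) (nat_lit 16788602) (.one (nat_lit 1061149) .nil))))))),
   .two (nat_lit 679477606) (nat_lit 69206375) (.two (nat_lit 157036838979) (nat_lit 352322404) (.two (nat_lit 159224168463) (nat_lit 11511269906) (.two (nat_lit 2961178632) (nat_lit 10336867305) (.two (nat_lit 41943045) (nat_lit 11476671099) (.two (nat_lit 156364701697) (nat_lit 11511276663) (.two (nat_lit 2097152) (nat_lit 159257733590) (.one (nat_lit 1060614) .nil))))))),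
   .two (nat_lit 11584667843) (nat_lit 156380430998) (.two (nat_lit 4613734465) (nat_lit 1753220637) (.two (nat_lit 11551113224) (nat_lit 1191186307) (.two (nat_lit 713031684) (nat_lit 185020193443) (.two (nat_lit 34603009) (nat_lit 159217886897) (.one (nat_lit 2109191) .nil))))),
   .two (nat_lit 11559502019) (nat_lit 185023333220) (.two (nat_lit 721420303) (nat_lit 641733631) (.two (nat_lit 272629765) (nat_lit 28806485304) (.two (nat_lit 4194305) (nat_lit 9781127692) (.one (nat_lit 28760354463) .nil)))),
   .two (nat_lit 9948889283) (nat_lit 2097514) (.two (nat_lit 2969567296) (nat_lit 11477714258) (.two (nat_lit 1291845647) (nat_lit 11578379689) (.two (nat_lit 10370416648) (nat_lit 1761612789) (.two (nat_lit 1277165572) (nat_lit 1276123771) (.two (nat_lit 606076929) (nat_lit 806365741) (.one (nat_lit 1061150) .nil)))))),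
   .two (nat_lit 50331843) (nat_lit 174692762969) (.two (nat_lit 16777231) (nat_lit 4605348370) (.two (nat_lit 184549384) (nat_lit 35655562) (.two (nat_lit 41943045) (nat_lit 11022637658) (.two (nat_lit 16777217) (nat_lit 10544490162) (.one (nat_lit 47582293675) .nil))))),
   .two (nat_lit 4647289027) (nat_lit 1212154465) (.two (nat_lit 318767212) (nat_lit 2889876847) (.two (nat_lit 3460300815) (nat_lit 251660811) (.two (nat_lit 3460300808) (nat_lit 174768263054) (.two (nat_lit 171966469) (nat_lit 50337078) (.two (nat_lit 4194305) (nat_lit 165540798612) (.two (nat_lit 1048576) (nat_lit 16788038) (.one (nat_lit 1060616) .nil))))))),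
   .two (nat_lit 158192370022) (nat_lit 135267170) (.two (nat_lit 165532401679) (nat_lit 9982446097) (.two (nat_lit 12047089672) (nat_lit 46422560655) (.two (nat_lit 1753219077) (nat_lit 1410341528) (.two (nat_lit 34603009) (nat_lit 1224743792) (.two (nat_lit 1048576) (nat_lit 16787129) (.one (nat_lit 16789257) .nil)))))),
   .two (nat_lit 9948889283) (nat_lit 11477713517) (.two (nat_lit 2969567296) (nat_lit 174686471463) (.two (nat_lit 1291845647) (nat_lit 1947210766) (.two (nat_lit 270532613) (nat_lit 889197880) (.two (nat_lit 34603009) (nat_lit 156984418448) (.two (nat_lit 2097152) (nat_lit 10000279216) (.one (nat_lit 873475753) .nil)))))),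
   .two (nat_lit 10552869059) (nat_lit 183947494018) (.two (nat_lit 236978241) (nat_lit 19612566837) (.two (nat_lit 1358954511) (nat_lit 10369370655) (.two (nat_lit 28772925448) (nat_lit 47581237139) (.two (nat_lit 270532613) (nat_lit 19612570937) (.two (nat_lit 41943041) (nat_lit 158176650928) (.one (nat_lit 1060618) .nil)))))),
   .two (nat_lit 1916797123) (nat_lit 285213538) (.two (nat_lit 16777231) (nat_lit 171970440) (.two (nat_lit 16777220) (nat_lit 2956989754) (.two (nat_lit 16777217) (nat_lit 9768544787) (.one (nat_lit 183916048017) .nil)))),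
   .two (nat_lit 2969567427) (nat_lit 1310720595) (.two (nat_lit 2969567296) (nat_lit 1310721309) (.two (nat_lit 1291845647) (nat_lit 174685424142) (.two (nat_lit 2887778312) (nat_lit 10385102681) (.two (nat_lit 639631365) (nat_lit 19093527161) (.two (nat_lit 34603009) (nat_lit 9766446172) (.two (nat_lit 1048576) (nat_lit 2108541) (.one (nat_lit 1061152) .nil))))))),
   .two (nat_lit 2969567427) (nat_lit 19530776940) (.two (nat_lit 2969567296) (nat_lit 1847591779) (.two (nat_lit 10343153679) (nat_lit 10001321418) (.two (nat_lit 16777224) (nat_lit 10544484234) (.two (nat_lit 713031685) (nat_lit 9781122358) (.two (nat_lit 8388609) (nat_lit 2954896401) (.two (nat_lit 2097152) (nat_lit 28697438675) (.one (nat_lit 47582293734) .nil))))))),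
   .two (nat_lit 21785215171) (nat_lit 156984410754) (.two (nat_lit 16777281) (nat_lit 21785215842) (.two (nat_lit 16777231) (nat_lit 21785216541) (.two (nat_lit 50331656) (nat_lit 2894073736) (.two (nat_lit 721420293) (nat_lit 46514838099) (.two (nat_lit 16777217) (nat_lit 159217887730) (.one (nat_lit 337653380) .nil)))))),
   .two (nat_lit 880804456) (nat_lit 1849688423) (.two (nat_lit 4194369) (nat_lit 880804707) (.two (nat_lit 4194319) (nat_lit 880805406) (.two (nat_lit 205520904) (nat_lit 37320920979) (.two (nat_lit 34603013) (nat_lit 306191000) (.two (nat_lit 2097153) (nat_lit 1058737) (.two (nat_lit 8388608) (nat_lit 1309682149) (.one (nat_lit 2109195) .nil))))))),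
   .two (nat_lit 184993972419) (nat_lit 3457155734) (.two (nat_lit 880803953) (nat_lit 1049444) (.two (nat_lit 713031695) (nat_lit 638587868) (.two (nat_lit 41943045) (nat_lit 101718612) (.two (nat_lit 605028353) (nat_lit 156380441140) (.one (nat_lit 12062830699) .nil))))),
   .two (nat_lit 2416968289) (nat_lit 156976021867) (.two (nat_lit 184993972291) (nat_lit 2349859682) (.two (nat_lit 12054429711) (nat_lit 638586778) (.two (nat_lit 176160773) (nat_lit 158158822019) (.two (nat_lit 34603009) (nat_lit 11593065424) (.two (nat_lit 16777216) (nat_lit 1786784197) (.one (nat_lit 1061154) .nil)))))),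
   .two (nat_lit 13195280579) (nat_lit 158179787369) (.two (nat_lit 310378562) (nat_lit 20707280210) (.two (nat_lit 4601151503) (nat_lit 166203492869) (.two (nat_lit 606076936) (nat_lit 46414173210) (.two (nat_lit 169869316) (nat_lit 1916803730) (.two (nat_lit 2097153) (nat_lit 11010057221) (.two (nat_lit 2097152) (nat_lit 4205695) (.one (nat_lit 2109731) .nil))))))),
   .two (nat_lit 11513364838) (nat_lit 46523220608) (.two (nat_lit 306184259) (nat_lit 16778577) (.two (nat_lit 285212687) (nat_lit 185023334955) (.two (nat_lit 4613734408) (nat_lit 158146236300) (.two (nat_lit 4601151493) (nat_lit 2332038460) (.two (nat_lit 4194305) (nat_lit 1191190684) (.two (nat_lit 1048576) (nat_lit 11580483249) (.one (nat_lit 1060620) .nil))))))),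
   .two (nat_lit 16777411) (nat_lit 46514832228) (.two (nat_lit 16777231) (nat_lit 156472707608) (.two (nat_lit 75497480) (nat_lit 156984415545) (.two (nat_lit 41943041) (nat_lit 10519325226) (.one (nat_lit 2109732) .nil)))),
   .two (nat_lit 822083779) (nat_lit 3565159792) (.two (nat_lit 11559501839) (nat_lit 18925750798) (.two (nat_lit 50331656) (nat_lit 165532405635) (.two (nat_lit 16777220) (nat_lit 276829501) (.two (nat_lit 8388609) (nat_lit 117449698) (.two (nat_lit 1048576) (nat_lit 176172761) .nil))))),
   .two (nat_lit 8388803) (nat_lit 754975333) (.two (nat_lit 285212783) (nat_lit 4605347146) (.two (nat_lit 41943055) (nat_lit 889195947) (.two (nat_lit 16777224) (nat_lit 166136386873) (.two (nat_lit 16777217) (nat_lit 310386847) (.two (nat_lit 1048576) (nat_lit 8400000) (.one (nat_lit 1061157) .nil)))))),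
   .two (nat_lit 2969567427) (nat_lit 166232851300) (.two (nat_lit 2902458383) (nat_lit 1279268153) (.two (nat_lit 4194305) (nat_lit 654319774) (.two (nat_lit 16777216) (nat_lit 46507503280) .nil))),
   .two (nat_lit 21811429571) (nat_lit 1384120515) (.two (nat_lit 185020186690) (nat_lit 157043131704) (.two (nat_lit 276824079) (nat_lit 11010051989) (.two (nat_lit 46409973765) (nat_lit 9966721638) (.two (nat_lit 4194305) (nat_lit 174752539657) (.two (nat_lit 1048576) (nat_lit 339749391) (.one (nat_lit 708849329) .nil)))))),
   .two (nat_lit 159266111683) (nat_lit 1847591778) (.two (nat_lit 9948889103) (nat_lit 874514947) (.two (nat_lit 156367847432) (nat_lit 20652759650) (.two (nat_lit 4194305) (nat_lit 46407885944) (.two (nat_lit 2097152) (nat_lit 16788040) (.one (nat_lit 16789798) .nil))))),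
   .two (nat_lit 1191182694) (nat_lit 8389273) (.two (nat_lit 318767170) (nat_lit 20644365608) (.two (nat_lit 612368399) (nat_lit 1795165626) (.two (nat_lit 4613734408) (nat_lit 166237049863) (.two (nat_lit 156364701701) (nat_lit 158077033033) (.two (nat_lit 34603009) (nat_lit 183846839330) (.two (nat_lit 1048576) (nat_lit 2108545) (.one (nat_lit 1061159) .nil))))))),
   .two (nat_lit 21777875139) (nat_lit 1847591269) (.two (nat_lit 3558867009) (nat_lit 1782580549) (.two (nat_lit 203423759) (nat_lit 46510639629) (.two (nat_lit 639631368) (nat_lit 11010053119) (.two (nat_lit 4601151493) (nat_lit 28757203567) (.two (nat_lit 4194305) (nat_lit 21207458897) (.two (nat_lit 4194304) (nat_lit 13221506727) .nil)))))),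
   .two (nat_lit 272629955) (nat_lit 2357199209) (.two (nat_lit 4194369) (nat_lit 880804706) (.two (nat_lit 4194319) (nat_lit 19033755531) (.two (nat_lit 2097157) (nat_lit 10338966088) (.two (nat_lit 2097153) (nat_lit 28760353216) (.one (nat_lit 69218048) .nil))))),
   .two (nat_lit 2923430245) (nat_lit 1753219676) (.two (nat_lit 2923429953) (nat_lit 159224169761) (.two (nat_lit 8388623) (nat_lit 166232852999) (.two (nat_lit 8388616) (nat_lit 158146236300) (.two (nat_lit 8388612) (nat_lit 19029562680) (.two (nat_lit 4194305) (nat_lit 19604186159) (.two (nat_lit 8388608) (nat_lit 2923440708) (.one (nat_lit 4206350) .nil))))))),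
   .two (nat_lit 156569174211) (nat_lit 183946445157) (.two (nat_lit 705691713) (nat_lit 11618222947) (.two (nat_lit 4194319) (nat_lit 11618223646) (.two (nat_lit 169869320) (nat_lit 10544485388) (.two (nat_lit 9933160453) (nat_lit 166237051515) (.two (nat_lit 4194305) (nat_lit 9906955217) (.two (nat_lit 1048576) (nat_lit 2107977) (.one (nat_lit 174692773510) .nil))))))),
   .two (nat_lit 880804198) (nat_lit 2969567842) (.two (nat_lit 2902458433) (nat_lit 10007610210) (.two (nat_lit 176160783) (nat_lit 20753421624) (.two (nat_lit 8388609) (nat_lit 352332307) (.one (nat_lit 19134426757) .nil)))),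
   .two (nat_lit 21208498782) (nat_lit 839909736) (.two (nat_lit 21208498241) (nat_lit 158646403938) (.two (nat_lit 218103823) (nat_lit 4599056903) (.two (nat_lit 218103816) (nat_lit 183913942931) (.two (nat_lit 2902458372) (nat_lit 13188995673) (.two (nat_lit 9781116929) (nat_lit 19529738744) (.one (nat_lit 16789802) .nil)))))),
   .two (nat_lit 9948889283) (nat_lit 46474986338) (.two (nat_lit 2969567247) (nat_lit 69208597) (.two (nat_lit 203423752) (nat_lit 150998937) (.two (nat_lit 83886085) (nat_lit 156969736856) (.two (nat_lit 2097153) (nat_lit 16786554) (.two (nat_lit 2097152) (nat_lit 16788611) (.one (nat_lit 16789803) .nil)))))),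
   .two (nat_lit 10538188995) (nat_lit 12620662089) (.two (nat_lit 203423759) (nat_lit 157038938623) (.two (nat_lit 2954887176) (nat_lit 12620664725) (.two (nat_lit 2887778308) (nat_lit 4634711350) (.two (nat_lit 4194305) (nat_lit 304097790) (.one (nat_lit 2350919310) .nil))))),
   .two (nat_lit 46477082819) (nat_lit 2887779641) (.two (nat_lit 166132187151) (nat_lit 20638076328) (.two (nat_lit 205520904) (nat_lit 10940848776) (.two (nat_lit 605028353) (nat_lit 35662369) (.one (nat_lit 1176514244) .nil)))),
   .two (nat_lit 41943235) (nat_lit 1325400721) (.two (nat_lit 117440629) (nat_lit 1175454562) (.two (nat_lit 10913579032) (nat_lit 183947495963) (.two (nat_lit 2887778312) (nat_lit 46514835358) (.two (nat_lit 270532613) (nat_lit 1920996668) (.two (nat_lit 16777217) (nat_lit 1310729904) (.one (nat_lit 2109740) .nil)))))),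
   .two (nat_lit 11559502019) (nat_lit 9974055276) (.two (nat_lit 11559501888) (nat_lit 176162847) (.two (nat_lit 176160783) (nat_lit 11559503389) (.two (nat_lit 721420296) (nat_lit 19134420284) (.two (nat_lit 50331649) (nat_lit 310387723) (.two (nat_lit 1048576) (nat_lit 1786784251) (.one (nat_lit 8401197) .nil)))))),
   .two (nat_lit 13195280579) (nat_lit 12150900086) (.two (nat_lit 156367847439) (nat_lit 1283459589) (.two (nat_lit 41943048) (nat_lit 2953845321) (.two (nat_lit 4194305) (nat_lit 101721059) (.two (nat_lit 4194304) (nat_lit 8400004) (.one (nat_lit 1061166) .nil))))),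
   .two (nat_lit 679477443) (nat_lit 2097820) (.two (nat_lit 10370416707) (nat_lit 1913652583) (.two (nat_lit 203423759) (nat_lit 11484006917) (.two (nat_lit 203423752) (nat_lit 1052561) (.two (nat_lit 2954887173) (nat_lit 19127081618) (.two (nat_lit 2097153) (nat_lit 235938844) (.two (nat_lit 2097152) (nat_lit 8400005) (.one (nat_lit 1061167) .nil))))))),
   .two (nat_lit 2994733251) (nat_lit 183846830742) (.two (nat_lit 318767170) (nat_lit 20644365854) (.two (nat_lit 2961178632) (nat_lit 10370423380) (.two (nat_lit 2097153) (nat_lit 4613743652) (.two (nat_lit 2097152) (nat_lit 4613745199) (.one (nat_lit 1309683986) .nil))))),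
   .two (nat_lit 16777411) (nat_lit 21785216295) (.two (nat_lit 16777231) (nat_lit 20644366849) (.two (nat_lit 183853121544) (nat_lit 156481097608) (.two (nat_lit 41943045) (nat_lit 620762422) (.two (nat_lit 41943041) (nat_lit 9948899843) (.one (nat_lit 75509418) .nil))))),
   .two (nat_lit 880804035) (nat_lit 174755676521) (.two (nat_lit 4601151554) (nat_lit 1417676062) (.two (nat_lit 4194319) (nat_lit 156372044310) (.two (nat_lit 276824072) (nat_lit 156367852569) (.two (nat_lit 2894069765) (nat_lit 2889882244) (.two (nat_lit 8388609) (nat_lit 174685432309) (.one (nat_lit 1061168) .nil)))))),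
   .two (nat_lit 18933088864) (nat_lit 158146232680) (.two (nat_lit 46414168129) (nat_lit 1212154722) (.two (nat_lit 46414168079) (nat_lit 742395807) (.two (nat_lit 8388613) (nat_lit 4201134) (.two (nat_lit 156372041729) (nat_lit 158179796032) (.two (nat_lit 4194304) (nat_lit 8400006) (.one (nat_lit 4206897) .nil)))))),
   .two (nat_lit 11007951205) (nat_lit 12050236016) (.two (nat_lit 46474985539) (nat_lit 9802089315) (.two (nat_lit 11492392975) (nat_lit 158146234905) (.two (nat_lit 46409973768) (nat_lit 69209999) (.two (nat_lit 9948889093) (nat_lit 706746961) (.two (nat_lit 9781116929) (nat_lit 156466422778) (.two (nat_lit 2097152) (nat_lit 1782591126) .nil)))))),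
   .two (nat_lit 18933088864) (nat_lit 21223178601) (.two (nat_lit 352321602) (nat_lit 156372042595) (.two (nat_lit 16777231) (nat_lit 1384122910) (.two (nat_lit 176160776) (nat_lit 37329311035) (.two (nat_lit 8388609) (nat_lit 20719870102) (.two (nat_lit 1048576) (nat_lit 16788615) (.one (nat_lit 16789810) .nil)))))),
   .two (nat_lit 13237223619) (nat_lit 166237045399) (.two (nat_lit 20644364355) (nat_lit 2098489) (.two (nat_lit 16777231) (nat_lit 156372044286) (.two (nat_lit 176160776) (nat_lit 2954893935) (.two (nat_lit 8388609) (nat_lit 35662333) (.one (nat_lit 3022007940) .nil))))),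
   .two (nat_lit 157038936259) (nat_lit 21812478820) (.two (nat_lit 813694991) (nat_lit 11546922888) (.two (nat_lit 2954887173) (nat_lit 847256168) (.two (nat_lit 9766436865) (nat_lit 138422810) (.one (nat_lit 8401203) .nil)))),
   .two (nat_lit 183853121894) (nat_lit 157051519337) (.two (nat_lit 4605345858) (nat_lit 10370418052) (.two (nat_lit 721420303) (nat_lit 183853123102) (.two (nat_lit 10385096712) (nat_lit 337646550) (.two (nat_lit 8388612) (nat_lit 28806486655) (.two (nat_lit 37748737) (nat_lit 156481104343) (.one (nat_lit 16789812) .nil)))))),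
   .two (nat_lit 306184549) (nat_lit 310379149) (.two (nat_lit 306184258) (nat_lit 18933089577) (.two (nat_lit 4601151503) (nat_lit 880806402) (.two (nat_lit 183853121544) (nat_lit 1749031555) (.two (nat_lit 156372041729) (nat_lit 158146241482) (.two (nat_lit 4194304) (nat_lit 156364713622) .nil))))),
   .two (nat_lit 9781117123) (nat_lit 46477084013) (.two (nat_lit 2902458383) (nat_lit 166132190648) (.two (nat_lit 4194312) (nat_lit 285218103) (.two (nat_lit 4194305) (nat_lit 13237233324) (.one (nat_lit 101723895) .nil)))),
   .two (nat_lit 4647289027) (nat_lit 171967332) (.two (nat_lit 2902458383) (nat_lit 158079126043) (.two (nat_lit 2902458376) (nat_lit 20740837267) (.two (nat_lit 184989777925) (nat_lit 285218103) (.two (nat_lit 37748737) (nat_lit 16784238) (.two (nat_lit 1048576) (nat_lit 3558876848) (.one (nat_lit 16789263) .nil)))))),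
   .two (nat_lit 174686470759) (nat_lit 9873391977) (.two (nat_lit 47555018819) (nat_lit 156969731448) (.two (nat_lit 3464495119) (nat_lit 2100702) (.two (nat_lit 673185804) (nat_lit 109055885) (.two (nat_lit 174753579013) (nat_lit 12624861796) (.two (nat_lit 156364701697) (nat_lit 606087724) (.one (nat_lit 2109750) .nil)))))),
   .two (nat_lit 117440870) (nat_lit 28764537193) (.two (nat_lit 276824130) (nat_lit 117441830) (.two (nat_lit 11559501839) (nat_lit 9765390887) (.two (nat_lit 1291845645) (nat_lit 20637028243) (.two (nat_lit 83886085) (nat_lit 166203497038) (.two (nat_lit 41943041) (nat_lit 739255379) (.two (nat_lit 1048576) (nat_lit 8400009) (.one (nat_lit 1061175) .nil))))))),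
   .two (nat_lit 21827158211) (nat_lit 9765388648) (.two (nat_lit 9881780290) (nat_lit 174752531834) (.two (nat_lit 9948889103) (nat_lit 1310721566) (.two (nat_lit 169869320) (nat_lit 83890051) (.two (nat_lit 2097157) (nat_lit 10519319869) (.two (nat_lit 37748737) (nat_lit 1176512178) (.one (nat_lit 1060624) .nil)))))),
   .two (nat_lit 10015998147) (nat_lit 880804506) (.two (nat_lit 157043130485) (nat_lit 1782580616) (.two (nat_lit 713031703) (nat_lit 184553347) (.two (nat_lit 713031684) (nat_lit 12633249086) (.two (nat_lit 41943041) (nat_lit 21223187496) (.two (nat_lit 2097152) (nat_lit 8399844) (.one (nat_lit 4632621256) .nil)))))),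
   .two (nat_lit 1947206241) (nat_lit 10909385065) (.two (nat_lit 183916036162) (nat_lit 166196151138) (.two (nat_lit 276824079) (nat_lit 166132189696) (.two (nat_lit 3024093197) (nat_lit 713037112) (.two (nat_lit 4194305) (nat_lit 10947141769) (.two (nat_lit 1048576) (nat_lit 3464505800) (.one (nat_lit 4206906) .nil)))))),
   .two (nat_lit 9948889283) (nat_lit 174686471465) (.two (nat_lit 2969567247) (nat_lit 10940844545) (.two (nat_lit 203423752) (nat_lit 3472889146) (.two (nat_lit 2097153) (nat_lit 2969575576) (.two (nat_lit 2097152) (nat_lit 16788620) (.one (nat_lit 2109201) .nil))))),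
   .two (nat_lit 10504634725) (nat_lit 157038936422) (.two (nat_lit 3525312578) (nat_lit 12620662141) (.two (nat_lit 3525312527) (nat_lit 3024096730) (.two (nat_lit 2889875464) (nat_lit 2103131) (.two (nat_lit 272629765) (nat_lit 2954893942) (.two (nat_lit 2097153) (nat_lit 3024103326) (.two (nat_lit 2097152) (nat_lit 4205709) (.one (nat_lit 3022008504) .nil))))))),
   .two (nat_lit 272629955) (nat_lit 166203490664) (.two (nat_lit 4634705986) (nat_lit 1350567214) (.two (nat_lit 46414168079) (nat_lit 21210597893) (.two (nat_lit 156372041736) (nat_lit 839914453) (.two (nat_lit 46414168068) (nat_lit 1056266) (.two (nat_lit 34603009) (nat_lit 19096675419) (.two (nat_lit 1048576) (nat_lit 4205710) (.one (nat_lit 8401211) .nil))))))),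
   .two (nat_lit 10437525861) (nat_lit 10503586449) (.two (nat_lit 10370416707) (nat_lit 654312785) (.two (nat_lit 713031695) (nat_lit 12633246247) (.two (nat_lit 3539992584) (nat_lit 166230757254) (.two (nat_lit 2902458372) (nat_lit 11611936060) (.two (nat_lit 612368385) (nat_lit 202385964) (.one (nat_lit 2109756) .nil)))))),
   .two (nat_lit 889192643) (nat_lit 156372042594) (.two (nat_lit 16777231) (nat_lit 20745030151) (.two (nat_lit 50331656) (nat_lit 28764540812) (.two (nat_lit 16777221) (nat_lit 166237051499) (.two (nat_lit 8388609) (nat_lit 10016007859) (.one (nat_lit 11484016259) .nil))))),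
   .two (nat_lit 9967763651) (nat_lit 16777887) (.two (nat_lit 2969567297) (nat_lit 9799993873) (.two (nat_lit 169869320) (nat_lit 19042144136) (.two (nat_lit 16777221) (nat_lit 2887785089) (.two (nat_lit 16777217) (nat_lit 166129052197) (.one (nat_lit 158647463642) .nil))))),
   .two (nat_lit 2988441958) (nat_lit 13203669656) (.two (nat_lit 9967763523) (nat_lit 166144771407) (.two (nat_lit 2902458383) (nat_lit 840960521) (.two (nat_lit 2902458376) (nat_lit 874516364) (.two (nat_lit 1191182341) (nat_lit 4632615582) (.two (nat_lit 16777217) (nat_lit 11511276546) (.two (nat_lit 1048576) (nat_lit 1411395298) .nil)))))),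
   .two (nat_lit 13195280990) (nat_lit 171966827) (.two (nat_lit 4605345857) (nat_lit 843055970) (.two (nat_lit 4601151503) (nat_lit 13195282946) (.two (nat_lit 46409973773) (nat_lit 158150430622) (.two (nat_lit 4194308) (nat_lit 8396301) (.two (nat_lit 37748737) (nat_lit 37313586145) (.two (nat_lit 1048576) (nat_lit 239086072) (.one (nat_lit 1061183) .nil))))))),
   .two (nat_lit 9781117123) (nat_lit 3024093852) (.two (nat_lit 2923429953) (nat_lit 37329306924) (.two (nat_lit 46409973775) (nat_lit 28101839365) (.two (nat_lit 46409973768) (nat_lit 3003125650) (.two (nat_lit 272629765) (nat_lit 3003130003) (.two (nat_lit 1048576) (nat_lit 16788044) (.one (nat_lit 638594728) .nil)))))),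
   .two (nat_lit 9781117123) (nat_lit 4631560831) (.two (nat_lit 4613734466) (nat_lit 46414168930) (.two (nat_lit 654311439) (nat_lit 4598009285) (.two (nat_lit 11476664328) (nat_lit 9915338632) (.two (nat_lit 16777220) (nat_lit 21214796419) (.two (nat_lit 2097153) (nat_lit 68166590) (.two (nat_lit 8388608) (nat_lit 11544832562) (.one (nat_lit 1060626) .nil))))))),
   .two (nat_lit 156372041923) (nat_lit 156984410471) (.two (nat_lit 4605345856) (nat_lit 620757858) (.two (nat_lit 184549391) (nat_lit 156372043293) (.two (nat_lit 184549384) (nat_lit 20745031560) (.two (nat_lit 8388612) (nat_lit 10921974640) (.two (nat_lit 4194304) (nat_lit 20745037485) (.one (nat_lit 16789267) .nil)))))),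
   .two (nat_lit 41943235) (nat_lit 9814672731) (.two (nat_lit 176160783) (nat_lit 251661786) (.two (nat_lit 16777224) (nat_lit 1853887803) (.two (nat_lit 16777217) (nat_lit 69215917) (.one (nat_lit 158144147150) .nil)))),
   .two (nat_lit 11618222438) (nat_lit 889193104) (.two (nat_lit 176160834) (nat_lit 721421608) (.two (nat_lit 16777231) (nat_lit 679482377) (.two (nat_lit 10335813637) (nat_lit 10443823755) (.two (nat_lit 8388609) (nat_lit 1058742) (.two (nat_lit 16777216) (nat_lit 303049703) (.one (nat_lit 8401217) .nil)))))),
   .two (nat_lit 843055299) (nat_lit 46414168716) (.two (nat_lit 4601151552) (nat_lit 1753219939) (.two (nat_lit 4601151503) (nat_lit 75500049) (.two (nat_lit 809500680) (nat_lit 47588577171) (.two (nat_lit 4194308) (nat_lit 10510932562) (.two (nat_lit 41943041) (nat_lit 4043318205) (.two (nat_lit 4194304) (nat_lit 8400018) (.one (nat_lit 4206914) .nil))))))),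
   .two (nat_lit 47555018947) (nat_lit 21208498534) (.two (nat_lit 47555018816) (nat_lit 158144136481) (.two (nat_lit 101711887) (nat_lit 21785218474) (.two (nat_lit 12114198536) (nat_lit 13222550180) (.two (nat_lit 34603009) (nat_lit 9900663836) (.two (nat_lit 1048576) (nat_lit 2108566) (.one (nat_lit 1061188) .nil)))))),
   .two (nat_lit 4647289027) (nat_lit 184419352933) (.two (nat_lit 12117344323) (nat_lit 1051153) (.two (nat_lit 3539992584) (nat_lit 10372517779) (.two (nat_lit 1291845636) (nat_lit 158143093359) (.two (nat_lit 156367847425) (nat_lit 168831516) (.one (nat_lit 1276128900) .nil))))),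
   .two (nat_lit 2994733251) (nat_lit 10538189157) (.two (nat_lit 3558867009) (nat_lit 1786774846) (.two (nat_lit 739246095) (nat_lit 645925381) (.two (nat_lit 2887778312) (nat_lit 8394589) (.two (nat_lit 270532613) (nat_lit 11517566445) (.two (nat_lit 156365750273) (nat_lit 2920294064) (.one (nat_lit 1060628) .nil)))))),
   .two (nat_lit 46474985667) (nat_lit 12062818946) (.two (nat_lit 47596961858) (nat_lit 12148802865) (.two (nat_lit 9948889103) (nat_lit 28791802383) (.two (nat_lit 1358954504) (nat_lit 2350914121) (.two (nat_lit 2097153) (nat_lit 16787383) (.two (nat_lit 2097152) (nat_lit 16788632) (.one (nat_lit 218116120) .nil)))))),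
   .two (nat_lit 47596961987) (nat_lit 19027460711) (.two (nat_lit 156533522547) (nat_lit 2902459722) (.two (nat_lit 156533522472) (nat_lit 9948890653) (.two (nat_lit 3539992584) (nat_lit 46978307070) (.two (nat_lit 10504634373) (nat_lit 166245438776) (.two (nat_lit 9781116929) (nat_lit 46978311135) (.two (nat_lit 1048576) (nat_lit 3022006828) (.one (nat_lit 2109205) .nil))))))),
   .two (nat_lit 822083779) (nat_lit 243271010) (.two (nat_lit 50331663) (nat_lit 184993976196) (.two (nat_lit 176160773) (nat_lit 3003128413) (.two (nat_lit 156364701697) (nat_lit 46422567487) (.one (nat_lit 11610893937) .nil)))),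
   .two (nat_lit 9781117123) (nat_lit 158079124075) (.two (nat_lit 46980399169) (nat_lit 20638075419) (.two (nat_lit 37748744) (nat_lit 11593061693) (.two (nat_lit 2097153) (nat_lit 742401116) (.two (nat_lit 2097152) (nat_lit 4205133) (.one (nat_lit 2988453521) .nil))))),
   .two (nat_lit 1947205827) (nat_lit 1210057065) (.two (nat_lit 183853121603) (nat_lit 136316291) (.two (nat_lit 169869327) (nat_lit 880806398) (.two (nat_lit 159217877000) (nat_lit 11484009451) (.two (nat_lit 3464495109) (nat_lit 9966721709) (.two (nat_lit 2097153) (nat_lit 1057919) (.two (nat_lit 1048576) (nat_lit 8400026) (.one (nat_lit 209727565) .nil))))))),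
   .two (nat_lit 21827158211) (nat_lit 19093521036) (.two (nat_lit 2988441667) (nat_lit 3472884580) (.two (nat_lit 10385096719) (nat_lit 102763012) (.two (nat_lit 158158815240) (nat_lit 12148805523) (.two (nat_lit 4599054341) (nat_lit 1761613116) (.two (nat_lit 2097153) (nat_lit 10351550608) (.two (nat_lit 4194304) (nat_lit 168832754) .nil)))))),
   .two (nat_lit 183912890563) (nat_lit 9781117599) (.two (nat_lit 185035915331) (nat_lit 3020948780) (.two (nat_lit 276824079) (nat_lit 174768263054) (.two (nat_lit 8388612) (nat_lit 68164200) (.two (nat_lit 41943041) (nat_lit 159266120639) (.two (nat_lit 1048576) (nat_lit 8399438) (.one (nat_lit 3472895758) .nil)))))),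
   .two (nat_lit 156372041923) (nat_lit 9802089766) (.two (nat_lit 4601151503) (nat_lit 156372045699) (.two (nat_lit 4194308) (nat_lit 11551118653) (.two (nat_lit 37748737) (nat_lit 8397952) (.two (nat_lit 4194304) (nat_lit 184993983519) (.one (nat_lit 4206917) .nil))))),
   .two (nat_lit 184993972419) (nat_lit 166211879576) (.two (nat_lit 183853121601) (nat_lit 184419353443) (.two (nat_lit 713031695) (nat_lit 21223180835) (.two (nat_lit 2969567240) (nat_lit 159219980876) (.two (nat_lit 16777217) (nat_lit 11014251581) (.two (nat_lit 4194304) (nat_lit 8399439) (.one (nat_lit 8401222) .nil)))))),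
   .two (nat_lit 41943235) (nat_lit 1795162722) (.two (nat_lit 1291845743) (nat_lit 183846830948) (.two (nat_lit 639631375) (nat_lit 12163484187) (.two (nat_lit 721420296) (nat_lit 10007613315) (.two (nat_lit 3525312517) (nat_lit 12129933979) (.two (nat_lit 2097153) (nat_lit 310386842) (.two (nat_lit 2097152) (nat_lit 16788635) (.one (nat_lit 16789831) .nil))))))),
   .two (nat_lit 50331843) (nat_lit 9933161061) (.two (nat_lit 813695087) (nat_lit 13203670346) (.two (nat_lit 16777231) (nat_lit 1947209131) (.two (nat_lit 41943048) (nat_lit 772805944) (.two (nat_lit 8388609) (nat_lit 11510227103) (.two (nat_lit 8388608) (nat_lit 1059996) (.one (nat_lit 16789832) .nil)))))),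
   .two (nat_lit 156372041923) (nat_lit 4194976) (.two (nat_lit 11513364596) (nat_lit 1283458348) (.two (nat_lit 4194319) (nat_lit 20745031560) (.two (nat_lit 4194308) (nat_lit 158150433357) (.two (nat_lit 37748737) (nat_lit 2987402291) (.two (nat_lit 4194304) (nat_lit 1059998) (.one (nat_lit 1061193) .nil)))))),
   .two (nat_lit 13237223781) (nat_lit 19532874340) (.two (nat_lit 47596961858) (nat_lit 174686471460) (.two (nat_lit 37748751) (nat_lit 183861512739) (.two (nat_lit 37748744) (nat_lit 1862276107) (.two (nat_lit 4194308) (nat_lit 16784048) (.two (nat_lit 2097153) (nat_lit 16787384) (.two (nat_lit 16777216) (nat_lit 2108575) (.one (nat_lit 9869209815) .nil))))))),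
   .two (nat_lit 10015998147) (nat_lit 37314626154) (.two (nat_lit 4601151554) (nat_lit 19604177763) (.two (nat_lit 813694991) (nat_lit 20740837256) (.two (nat_lit 8388612) (nat_lit 1176507707) (.two (nat_lit 8388609) (nat_lit 2923440570) (.one (nat_lit 679489642) .nil))))),
   .two (nat_lit 13191086275) (nat_lit 10913579640) (.two (nat_lit 4601151554) (nat_lit 1929380707) (.two (nat_lit 813694991) (nat_lit 47596964360) (.two (nat_lit 8388616) (nat_lit 47584385629) (.two (nat_lit 8388609) (nat_lit 10338968681) (.two (nat_lit 8388608) (nat_lit 4205728) (.one (nat_lit 16789834) .nil)))))),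
   .two (nat_lit 50331843) (nat_lit 156472706393) (.two (nat_lit 176160783) (nat_lit 3036677662) (.two (nat_lit 822083592) (nat_lit 8394590) (.two (nat_lit 176160772) (nat_lit 16784910) (.two (nat_lit 612368385) (nat_lit 37316731875) (.two (nat_lit 4194304) (nat_lit 16788641) (.one (nat_lit 4206923) .nil)))))),
   .two (nat_lit 2994733251) (nat_lit 11513365346) (.two (nat_lit 612368399) (nat_lit 28793899527) (.two (nat_lit 2961178632) (nat_lit 71307159) (.two (nat_lit 11543773189) (nat_lit 10003420475) (.two (nat_lit 8388609) (nat_lit 171973487) (.two (nat_lit 1048576) (nat_lit 9802100499) .nil))))),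
   .two (nat_lit 20704133315) (nat_lit 9915336046) (.two (nat_lit 754974735) (nat_lit 303042446) (.two (nat_lit 46414168068) (nat_lit 28790758058) (.two (nat_lit 9781116929) (nat_lit 1846551636) (.two (nat_lit 8388608) (nat_lit 1175464458) (.one (nat_lit 16789836) .nil))))),
   .two (nat_lit 41943235) (nat_lit 183848928798) (.two (nat_lit 8388616) (nat_lit 9969867376) (.two (nat_lit 50331649) (nat_lit 9766447570) (.one (nat_lit 2109773) .nil))),
   .two (nat_lit 4605345987) (nat_lit 3527410325) (.two (nat_lit 310378562) (nat_lit 185023333744) (.two (nat_lit 37748751) (nat_lit 156372047158) (.two (nat_lit 2097153) (nat_lit 9940508819) (.two (nat_lit 8388608) (nat_lit 28087168702) .nil)))),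
   .two (nat_lit 847249603) (nat_lit 4194977) (.two (nat_lit 156465365057) (nat_lit 158653744456) (.two (nat_lit 28693233679) (nat_lit 21811431972) (.two (nat_lit 46477082637) (nat_lit 12054434792) (.two (nat_lit 47550824453) (nat_lit 780147368) (.two (nat_lit 4194305) (nat_lit 8397953) (.two (nat_lit 2097152) (nat_lit 1059408) (.one (nat_lit 4206926) .nil))))))),
   .two (nat_lit 679477443) (nat_lit 10540286616) (.two (nat_lit 10385096771) (nat_lit 13187941715) (.two (nat_lit 1350565903) (nat_lit 2365592543) (.two (nat_lit 4194308) (nat_lit 605035110) (.two (nat_lit 9765388289) (nat_lit 3531613278) (.two (nat_lit 1048576) (nat_lit 8400035) (.one (nat_lit 1061199) .nil)))))),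
   .two (nat_lit 156465365602) (nat_lit 2936013159) (.two (nat_lit 772800577) (nat_lit 156380432899) (.two (nat_lit 9881780232) (nat_lit 1175457695) (.two (nat_lit 11543773189) (nat_lit 183861517167) (.two (nat_lit 1048576) (nat_lit 151004847) (.one (nat_lit 16789270) .nil))))),
   .two (nat_lit 184986632387) (nat_lit 1962934467) (.two (nat_lit 184986632258) (nat_lit 37247517538) (.two (nat_lit 169869327) (nat_lit 687868421) (.two (nat_lit 184986632200) (nat_lit 203427719) (.two (nat_lit 705691652) (nat_lit 11544828522) (.two (nat_lit 41943041) (nat_lit 1344282759) (.two (nat_lit 8388608) (nat_lit 1376790970) (.one (nat_lit 1061200) .nil))))))),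
   .two (nat_lit 158192370022) (nat_lit 135266910) (.two (nat_lit 18933088369) (nat_lit 12047090531) (.two (nat_lit 28093448207) (nat_lit 16781665) (.two (nat_lit 166129041416) (nat_lit 174701154183) (.two (nat_lit 209715205) (nat_lit 16784049) (.two (nat_lit 8388609) (nat_lit 16786562) (.two (nat_lit 8388608) (nat_lit 1060004) (.one (nat_lit 1061201) .nil))))))),
   .two (nat_lit 1384120515) (nat_lit 156380430966) (.two (nat_lit 4613734508) (nat_lit 209716524) (.two (nat_lit 2969567247) (nat_lit 11584669214) (.two (nat_lit 16777224) (nat_lit 809504664) (.two (nat_lit 183845781508) (nat_lit 171971899) (.two (nat_lit 34603009) (nat_lit 708845703) (.two (nat_lit 1048576) (nat_lit 4205137) (.one (nat_lit 4206930) .nil))))))),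
   .two (nat_lit 1343226051) (nat_lit 1753219267) (.two (nat_lit 46510637121) (nat_lit 28790752616) (.two (nat_lit 12054429711) (nat_lit 157038938651) (.two (nat_lit 184986632200) (nat_lit 9772733429) (.two (nat_lit 28760342533) (nat_lit 166196157939) (.two (nat_lit 34603009) (nat_lit 184989787120) (.two (nat_lit 1048576) (nat_lit 11614038573) (.one (nat_lit 1061203) .nil))))))),
   .two (nat_lit 306184387) (nat_lit 1920991853) (.two (nat_lit 12163481666) (nat_lit 12620662131) (.two (nat_lit 272629775) (nat_lit 158653745687) (.two (nat_lit 183853121544) (nat_lit 1916803751) (.two (nat_lit 50331649) (nat_lit 174692770794) (.two (nat_lit 4194304) (nat_lit 16788645) (.one (nat_lit 4206932) .nil)))))),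
   .two (nat_lit 343933541) (nat_lit 183928619370) (.two (nat_lit 1916796995) (nat_lit 9948890435) (.two (nat_lit 620757007) (nat_lit 1317014955) (.two (nat_lit 75497485) (nat_lit 28101841898) (.two (nat_lit 75497477) (nat_lit 19109255779) (.two (nat_lit 8388609) (nat_lit 16786563) (.two (nat_lit 4194304) (nat_lit 8400038) (.one (nat_lit 8401237) .nil))))))),
   .two (nat_lit 4605345987) (nat_lit 721420937) (.two (nat_lit 4605345856) (nat_lit 12129929238) (.two (nat_lit 8388623) (nat_lit 117442077) (.two (nat_lit 721420296) (nat_lit 46414172037) (.two (nat_lit 8388612) (nat_lit 20652759648) (.two (nat_lit 37748737) (nat_lit 11551121543) (.two (nat_lit 4194304) (nat_lit 8399442) (.one (nat_lit 8400663) .nil))))))),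
   .two (nat_lit 4647289027) (nat_lit 47550824807) (.two (nat_lit 3539992642) (nat_lit 809502030) (.two (nat_lit 285212687) (nat_lit 20707281426) (.two (nat_lit 1350565896) (nat_lit 10000273299) (.two (nat_lit 16777220) (nat_lit 4634712697) (.two (nat_lit 37748737) (nat_lit 4598016498) (.one (nat_lit 8401238) .nil)))))),
   .two (nat_lit 1753219267) (nat_lit 337642855) (.two (nat_lit 47548727311) (nat_lit 21785216542) (.two (nat_lit 183853121544) (nat_lit 13222547335) (.two (nat_lit 10343153669) (nat_lit 2103986) (.two (nat_lit 612368385) (nat_lit 203433044) (.two (nat_lit 8388608) (nat_lit 157036850193) (.one (nat_lit 2109783) .nil)))))),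
   .two (nat_lit 2969567427) (nat_lit 185021236571) (.two (nat_lit 2902458383) (nat_lit 3525316013) (.two (nat_lit 184549384) (nat_lit 21812484768) (.two (nat_lit 606076929) (nat_lit 9881790137) (.one (nat_lit 16789272) .nil)))),
   .two (nat_lit 156581757123) (nat_lit 11513366046) (.two (nat_lit 4601151496) (nat_lit 251663678) (.two (nat_lit 4194305) (nat_lit 37329313940) (.two (nat_lit 8388608) (nat_lit 156535631502) .nil))),
   .two (nat_lit 183962173797) (nat_lit 10338960019) (.two (nat_lit 166132187246) (nat_lit 1209008994) (.two (nat_lit 157036838927) (nat_lit 1782581792) (.two (nat_lit 28693233672) (nat_lit 20704137100) (.two (nat_lit 34603013) (nat_lit 1346378324) (.two (nat_lit 2097153) (nat_lit 16787385) (.two (nat_lit 2097152) (nat_lit 4205735) (.one (nat_lit 1061208) .nil))))))),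
   .two (nat_lit 843055299) (nat_lit 3565159036) (.two (nat_lit 158083317825) (nat_lit 20637025122) (.two (nat_lit 21777874959) (nat_lit 10376710664) (.two (nat_lit 156372041736) (nat_lit 156566035018) (.two (nat_lit 8388609) (nat_lit 1057924) (.two (nat_lit 1048576) (nat_lit 16788648) (.one (nat_lit 612380309) .nil)))))),
   .two (nat_lit 16777573) (nat_lit 37253808765) (.two (nat_lit 11626610755) (nat_lit 18933089123) (.two (nat_lit 50331663) (nat_lit 9974057502) (.two (nat_lit 713031688) (nat_lit 285216645) (.two (nat_lit 41943045) (nat_lit 19142808888) (.two (nat_lit 37748737) (nat_lit 75506738) (.two (nat_lit 4194304) (nat_lit 28798102054) (.one (nat_lit 16789849) .nil))))))),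
   .two (nat_lit 4647289027) (nat_lit 20640171387) (.two (nat_lit 4194319) (nat_lit 50335619) (.two (nat_lit 4194308) (nat_lit 21223183678) (.two (nat_lit 4194305) (nat_lit 158143096497) (.one (nat_lit 1060633) .nil)))),
   .two (nat_lit 612368579) (nat_lit 9781117123) (.two (nat_lit 285212736) (nat_lit 28697429302) (.two (nat_lit 166132187151) (nat_lit 10921971592) (.two (nat_lit 10506731525) (nat_lit 9915341392) (.two (nat_lit 156367847425) (nat_lit 10921977518) (.one (nat_lit 4206362) .nil))))),
   .two (nat_lit 10007609539) (nat_lit 20738736794) (.two (nat_lit 183949590593) (nat_lit 9900655920) (.two (nat_lit 157036838927) (nat_lit 12155095568) (.two (nat_lit 606076936) (nat_lit 1853886350) (.two (nat_lit 1283457029) (nat_lit 28087162173) (.two (nat_lit 8388609) (nat_lit 3458211994) (.two (nat_lit 4194304) (nat_lit 3458214440) (.one (nat_lit 2109786) .nil))))))),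
   .two (nat_lit 2416967875) (nat_lit 19100861032) (.two (nat_lit 174686470252) (nat_lit 18933089615) (.two (nat_lit 10343153679) (nat_lit 10906241550) (.two (nat_lit 41943048) (nat_lit 3524270718) (.two (nat_lit 2097153) (nat_lit 1057925) (.two (nat_lit 1048576) (nat_lit 159257734180) (.one (nat_lit 11006914271) .nil)))))),
   .two (nat_lit 9974055107) (nat_lit 2350908052) (.two (nat_lit 4638900289) (nat_lit 3024094577) (.two (nat_lit 12050235407) (nat_lit 157043135461) (.two (nat_lit 4599054341) (nat_lit 8396303) (.two (nat_lit 34603009) (nat_lit 2106502) (.two (nat_lit 1048576) (nat_lit 2108585) (.one (nat_lit 1061211) .nil)))))),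
   .two (nat_lit 847249603) (nat_lit 46980400670) (.two (nat_lit 156367847432) (nat_lit 46414172035) (.two (nat_lit 18928893957) (nat_lit 185027532093) (.two (nat_lit 9766436865) (nat_lit 2424316989) (.two (nat_lit 2097152) (nat_lit 2424319009) (.one (nat_lit 4206940) .nil))))),
   .two (nat_lit 9967763651) (nat_lit 235930922) (.two (nat_lit 20737687576) (nat_lit 21793606167) (.two (nat_lit 2902458376) (nat_lit 2103135) (.two (nat_lit 1779433477) (nat_lit 10504641186) (.two (nat_lit 606076929) (nat_lit 739255395) (.two (nat_lit 1048576) (nat_lit 2988453021) (.one (nat_lit 1061213) .nil)))))),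
   .two (nat_lit 843055299) (nat_lit 8389282) (.two (nat_lit 46409973827) (nat_lit 3531605327) (.two (nat_lit 809500687) (nat_lit 185027530643) (.two (nat_lit 4194308) (nat_lit 41949800) (.two (nat_lit 4194305) (nat_lit 16787386) (.two (nat_lit 8388608) (nat_lit 4205738) (.one (nat_lit 16789854) .nil)))))),
   .two (nat_lit 13191086275) (nat_lit 19134415511) (.two (nat_lit 13191086147) (nat_lit 10007611424) (.two (nat_lit 13195280399) (nat_lit 19128125961) (.two (nat_lit 41943048) (nat_lit 37247520657) (.two (nat_lit 176160772) (nat_lit 156533530071) (.two (nat_lit 2097153) (nat_lit 142615557) (.two (nat_lit 2097152) (nat_lit 8400043) (.one (nat_lit 8401247) .nil))))))),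
   .two (nat_lit 880804035) (nat_lit 2923431292) (.two (nat_lit 8388623) (nat_lit 3560966671) (.two (nat_lit 13195280392) (nat_lit 2420120232) (.two (nat_lit 8388609) (nat_lit 4634716701) (.one (nat_lit 46514843377) .nil)))),
   .two (nat_lit 9948889283) (nat_lit 3525312707) (.two (nat_lit 3525312576) (nat_lit 37262198064) (.two (nat_lit 1291845647) (nat_lit 159250385411) (.two (nat_lit 2887778312) (nat_lit 620762138) (.two (nat_lit 2887778308) (nat_lit 46422563503) (.two (nat_lit 34603009) (nat_lit 1795171394) (.two (nat_lit 1048576) (nat_lit 9867110964) (.one (nat_lit 1060636) .nil))))))),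
   .two (nat_lit 673185987) (nat_lit 21207451004) (.two (nat_lit 218103823) (nat_lit 101714459) (.two (nat_lit 754974728) (nat_lit 9899609987) (.two (nat_lit 9781116933) (nat_lit 1914706535) (.two (nat_lit 606076929) (nat_lit 1175462026) (.two (nat_lit 2097152) (nat_lit 1060012) (.one (nat_lit 20652764880) .nil)))))),
   .two (nat_lit 184549989) (nat_lit 2921333098) (.two (nat_lit 9934209091) (nat_lit 285213991) (.two (nat_lit 218103823) (nat_lit 21812480547) (.two (nat_lit 20638072840) (nat_lit 721426259) (.two (nat_lit 2902458372) (nat_lit 9799998051) (.two (nat_lit 16777217) (nat_lit 159251440771) (.two (nat_lit 8388608) (nat_lit 10552880225) (.one (nat_lit 2109792) .nil))))))),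
   .two (nat_lit 47596961987) (nat_lit 169869673) (.two (nat_lit 19027460162) (nat_lit 889193799) (.two (nat_lit 1847590927) (nat_lit 184416209435) (.two (nat_lit 47563407368) (nat_lit 9867105299) (.two (nat_lit 184549380) (nat_lit 2104848) (.two (nat_lit 9765388289) (nat_lit 1780492877) (.one (nat_lit 2109213) .nil)))))),
   .two (nat_lit 142606531) (nat_lit 3557819747) (.two (nat_lit 19596836879) (nat_lit 28764539402) (.two (nat_lit 11551113224) (nat_lit 183928624150) (.two (nat_lit 806354949) (nat_lit 156573375061) (.two (nat_lit 2097153) (nat_lit 4613743732) (.two (nat_lit 16777216) (nat_lit 11578387002) (.one (nat_lit 10336874597) .nil)))))),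
   .two (nat_lit 21827158211) (nat_lit 46507491970) (.two (nat_lit 772800577) (nat_lit 157051520309) (.two (nat_lit 1291845647) (nat_lit 606079505) (.two (nat_lit 46407876616) (nat_lit 28705820570) (.two (nat_lit 806354949) (nat_lit 28705822010) (.two (nat_lit 2097153) (nat_lit 9781125276) (.two (nat_lit 4194304) (nat_lit 35663626) .nil)))))),
   .two (nat_lit 21827158211) (nat_lit 156465366311) (.two (nat_lit 101711887) (nat_lit 117444484) (.two (nat_lit 11476664324) (nat_lit 16784051) (.two (nat_lit 9765388289) (nat_lit 16786567) (.two (nat_lit 4194304) (nat_lit 185020198560) .nil)))),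
   .two (nat_lit 20704133315) (nat_lit 158158815891) (.two (nat_lit 2994733122) (nat_lit 806356332) (.two (nat_lit 2961178639) (nat_lit 1291848191) (.two (nat_lit 721420296) (nat_lit 28086113261) (.two (nat_lit 50331653) (nat_lit 8395444) (.two (nat_lit 8388609) (nat_lit 1057928) (.two (nat_lit 8388608) (nat_lit 1060013) (.one (nat_lit 8401249) .nil))))))),
   .two (nat_lit 166196150467) (nat_lit 165528207721) (.two (nat_lit 12117344321) (nat_lit 705693011) (.two (nat_lit 10370416655) (nat_lit 9768536596) (.two (nat_lit 10370416648) (nat_lit 11476669464) (.two (nat_lit 708837381) (nat_lit 2920290925) (.two (nat_lit 9766436865) (nat_lit 37249624633) (.one (nat_lit 4206946) .nil)))))),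
   .two (nat_lit 847249603) (nat_lit 158079124118) (.two (nat_lit 310378562) (nat_lit 10540287350) (.two (nat_lit 813694991) (nat_lit 1782584284) (.two (nat_lit 8388612) (nat_lit 71309998) (.two (nat_lit 8388609) (nat_lit 19532883017) (.two (nat_lit 4194304) (nat_lit 813705775) (.one (nat_lit 8401251) .nil)))))),
   .two (nat_lit 13224640707) (nat_lit 2894070123) (.two (nat_lit 4605345857) (nat_lit 19130221862) (.two (nat_lit 4605345807) (nat_lit 19130222110) (.two (nat_lit 4194312) (nat_lit 75502904) (.two (nat_lit 41943041) (nat_lit 873474588) (.one (nat_lit 46406839940) .nil))))),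
   .two (nat_lit 10552869059) (nat_lit 11007951715) (.two (nat_lit 2969567247) (nat_lit 20705184286) (.two (nat_lit 2954887176) (nat_lit 1761613115) (.two (nat_lit 2097153) (nat_lit 1291853976) (.two (nat_lit 8388608) (nat_lit 1344286481) .nil)))),
   .two (nat_lit 4634706115) (nat_lit 12054430357) (.two (nat_lit 3464495169) (nat_lit 873465223) (.two (nat_lit 4194319) (nat_lit 184423552317) (.two (nat_lit 4194305) (nat_lit 2424316042) (.two (nat_lit 4194304) (nat_lit 235939501) (.one (nat_lit 708849330) .nil))))),
   .two (nat_lit 16777411) (nat_lit 18933089577) (.two (nat_lit 16777231) (nat_lit 156372043294) (.two (nat_lit 8388616) (nat_lit 1426068792) (.two (nat_lit 8388609) (nat_lit 620765336) (.two (nat_lit 8388608) (nat_lit 620767723) (.one (nat_lit 276836071) .nil))))),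
   .two (nat_lit 41943235) (nat_lit 1795162725) (.two (nat_lit 1795162227) (nat_lit 183846830948) (.two (nat_lit 13203669007) (nat_lit 10007613315) (.two (nat_lit 16777220) (nat_lit 8395445) (.two (nat_lit 50331649) (nat_lit 2927633486) (.two (nat_lit 2097152) (nat_lit 16788654) (.one (nat_lit 2109796) .nil)))))),
   .two (nat_lit 9948889283) (nat_lit 20745027947) (.two (nat_lit 3028287553) (nat_lit 9948889954) (.two (nat_lit 176160783) (nat_lit 12062822281) (.two (nat_lit 176160772) (nat_lit 11525954131) (.two (nat_lit 8388609) (nat_lit 4634716715) (.one (nat_lit 876621564) .nil))))),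
   .two (nat_lit 159224168643) (nat_lit 12129927823) (.two (nat_lit 10007609457) (nat_lit 12129928522) (.two (nat_lit 4613734415) (nat_lit 47555022724) (.two (nat_lit 713031684) (nat_lit 1056273) (.two (nat_lit 9765388289) (nat_lit 19109258331) (.two (nat_lit 1048576) (nat_lit 16788655) (.one (nat_lit 1061221) .nil)))))),
   .two (nat_lit 2969567427) (nat_lit 3525313165) (.two (nat_lit 2969567296) (nat_lit 10437526844) (.two (nat_lit 1291845647) (nat_lit 159217880521) (.two (nat_lit 2887778312) (nat_lit 9781120899) (.two (nat_lit 270532613) (nat_lit 21793609021) (.two (nat_lit 34603009) (nat_lit 1780492877) (.one (nat_lit 2109214) .nil)))))),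
   .two (nat_lit 159224168643) (nat_lit 4647289196) (.two (nat_lit 16777281) (nat_lit 165532402982) (.two (nat_lit 16777231) (nat_lit 165532403230) (.two (nat_lit 612368392) (nat_lit 2332038460) (.two (nat_lit 8388609) (nat_lit 822091931) (.two (nat_lit 2097152) (nat_lit 8399444) (.one (nat_lit 2109798) .nil)))))),
   .two (nat_lit 156581757123) (nat_lit 183916037485) (.two (nat_lit 2902458383) (nat_lit 706743749) (.two (nat_lit 37748744) (nat_lit 174768264505) (.two (nat_lit 4194305) (nat_lit 1325408392) (.two (nat_lit 4194304) (nat_lit 740304562) (.one (nat_lit 2109215) .nil))))),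
   .two (nat_lit 13195280579) (nat_lit 166132188458) (.two (nat_lit 809500687) (nat_lit 156372043293) (.two (nat_lit 809500680) (nat_lit 28764540812) (.two (nat_lit 4194308) (nat_lit 2927629624) (.two (nat_lit 4194305) (nat_lit 11618230434) (.two (nat_lit 4194304) (nat_lit 8400048) (.one (nat_lit 8401255) .nil)))))),
   .two (nat_lit 21811429571) (nat_lit 19096666978) (.two (nat_lit 4194319) (nat_lit 156372044310) (.two (nat_lit 13195280392) (nat_lit 10372518891) (.two (nat_lit 46409973765) (nat_lit 11510225571) (.two (nat_lit 4194305) (nat_lit 3020956767) (.two (nat_lit 1048576) (nat_lit 876620354) (.one (nat_lit 1060640) .nil)))))),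
   .two (nat_lit 47582281923) (nat_lit 679477443) (.two (nat_lit 47555018816) (nat_lit 47582283042) (.two (nat_lit 3458203663) (nat_lit 19604180430) (.two (nat_lit 156365750280) (nat_lit 28697433043) (.two (nat_lit 9781116933) (nat_lit 184417262157) (.two (nat_lit 50331649) (nat_lit 2988450743) (.two (nat_lit 16777216) (nat_lit 2108593) (.one (nat_lit 2969579785) .nil))))))),
   .two (nat_lit 2887778661) (nat_lit 11492393570) (.two (nat_lit 19026411585) (nat_lit 166230754600) (.two (nat_lit 11543773199) (nat_lit 773852606) (.two (nat_lit 705691656) (nat_lit 9982447507) (.two (nat_lit 20637024260) (nat_lit 310386150) (.two (nat_lit 156365750273) (nat_lit 10016007170) (.two (nat_lit 8388608) (nat_lit 2108594) (.one (nat_lit 2109801) .nil))))))),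
   .two (nat_lit 185035915622) (nat_lit 135266662) (.two (nat_lit 21827158083) (nat_lit 166129042771) (.two (nat_lit 4194319) (nat_lit 183861512710) (.two (nat_lit 4194312) (nat_lit 166144776795) (.two (nat_lit 4194305) (nat_lit 16786569) (.two (nat_lit 1048576) (nat_lit 4205747) (.one (nat_lit 16789866) .nil)))))),
   .two (nat_lit 13195280579) (nat_lit 157038936930) (.two (nat_lit 4605345807) (nat_lit 608178055) (.two (nat_lit 13195280389) (nat_lit 1950358118) (.two (nat_lit 4194305) (nat_lit 8397962) (.two (nat_lit 4194304) (nat_lit 159224179803) (.one (nat_lit 8401259) .nil))))),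
   .two (nat_lit 843055299) (nat_lit 235929961) (.two (nat_lit 276824129) (nat_lit 1178600777) (.two (nat_lit 276824079) (nat_lit 339741212) (.two (nat_lit 713031688) (nat_lit 183913942929) (.two (nat_lit 209715205) (nat_lit 4202002) (.two (nat_lit 2097153) (nat_lit 1058747) (.two (nat_lit 1048576) (nat_lit 8400052) (.one (nat_lit 1061228) .nil))))))),
   .two (nat_lit 16777411) (nat_lit 12054430309) (.two (nat_lit 16777280) (nat_lit 156372043046) (.two (nat_lit 16777231) (nat_lit 1283459619) (.two (nat_lit 8388616) (nat_lit 165540797296) (.two (nat_lit 8388608) (nat_lit 19142813367) (.one (nat_lit 151006876) .nil))))),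
   .two (nat_lit 2994733251) (nat_lit 673187112) (.two (nat_lit 20638072847) (nat_lit 746591550) (.two (nat_lit 606076929) (nat_lit 8397964) (.two (nat_lit 1048576) (nat_lit 2108599) (.one (nat_lit 2109805) .nil)))),
   .two (nat_lit 2994733251) (nat_lit 11511267687) (.two (nat_lit 9934209091) (nat_lit 12624856372) (.two (nat_lit 1277165583) (nat_lit 28089256479) (.two (nat_lit 166129041416) (nat_lit 807408625) (.two (nat_lit 21777874949) (nat_lit 4028635730) (.two (nat_lit 9766436865) (nat_lit 19100869638) (.two (nat_lit 2097152) (nat_lit 1059371) (.one (nat_lit 1061230) .nil))))))),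
   .two (nat_lit 343933286) (nat_lit 10552869524) (.two (nat_lit 11618222145) (nat_lit 2902459688) (.two (nat_lit 184549391) (nat_lit 37253811661) (.two (nat_lit 9948889096) (nat_lit 174753584986) (.two (nat_lit 184549380) (nat_lit 158077033989) (.two (nat_lit 612368385) (nat_lit 102770590) (.two (nat_lit 8388608) (nat_lit 28791811213) (.one (nat_lit 2109807) .nil))))))),
   .two (nat_lit 183853122142) (nat_lit 4043309417) (.two (nat_lit 183853121601) (nat_lit 158079124803) (.two (nat_lit 721420303) (nat_lit 9974057502) (.two (nat_lit 713031688) (nat_lit 687871292) (.two (nat_lit 612368385) (nat_lit 19130229784) (.two (nat_lit 4194304) (nat_lit 8399445) (.one (nat_lit 4206960) .nil)))))),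
   .two (nat_lit 306184550) (nat_lit 159266112151) (.two (nat_lit 166196150339) (nat_lit 9802089863) (.two (nat_lit 21793603599) (nat_lit 1052127) (.two (nat_lit 166196150284) (nat_lit 3560968081) (.two (nat_lit 11492392964) (nat_lit 1056276) (.two (nat_lit 37748737) (nat_lit 1057933) (.two (nat_lit 1048576) (nat_lit 4205753) (.one (nat_lit 4206961) .nil))))))),
   .two (nat_lit 9802088643) (nat_lit 2316305021) (.two (nat_lit 236978243) (nat_lit 28793898297) (.two (nat_lit 184416206872) (nat_lit 12117346842) (.two (nat_lit 19599982600) (nat_lit 1053726) (.two (nat_lit 19596836869) (nat_lit 2104853) (.two (nat_lit 606076929) (nat_lit 2420122740) (.two (nat_lit 2097152) (nat_lit 1060026) (.one (nat_lit 4206962) .nil))))))),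
   .two (nat_lit 156372041923) (nat_lit 10370417302) (.two (nat_lit 20638072948) (nat_lit 183853122846) (.two (nat_lit 156372041743) (nat_lit 11007953430) (.two (nat_lit 46984593416) (nat_lit 2103136) (.two (nat_lit 806354949) (nat_lit 2961186274) (.two (nat_lit 34603009) (nat_lit 8398780) (.two (nat_lit 1048576) (nat_lit 2108603) (.one (nat_lit 2109811) .nil))))))),
   .two (nat_lit 1384120515) (nat_lit 19093520579) (.two (nat_lit 12617515073) (nat_lit 183953786159) (.two (nat_lit 9768534031) (nat_lit 168824712) (.two (nat_lit 2889875460) (nat_lit 47555025527) (.two (nat_lit 4194305) (nat_lit 20637035060) (.one (nat_lit 775958298) .nil))))),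
   .two (nat_lit 184993972581) (nat_lit 12115247466) (.two (nat_lit 159250382963) (nat_lit 10538190110) (.two (nat_lit 13195280399) (nat_lit 1209011629) (.two (nat_lit 1849688072) (nat_lit 19026416669) (.two (nat_lit 20644364293) (nat_lit 183845788306) (.two (nat_lit 8388609) (nat_lit 183912899657) (.two (nat_lit 1048576) (nat_lit 8400060) (.one (nat_lit 1061236) .nil))))))),
   .two (nat_lit 19029557605) (nat_lit 166230753886) (.two (nat_lit 158144135278) (nat_lit 3024094521) (.two (nat_lit 184423546895) (nat_lit 156569176576) (.two (nat_lit 184989777933) (nat_lit 1417678723) (.two (nat_lit 13191086085) (nat_lit 3531609406) (.two (nat_lit 606076929) (nat_lit 47550833716) (.two (nat_lit 2097152) (nat_lit 4205757) (.one (nat_lit 2109813) .nil))))))),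
   .two (nat_lit 157036839107) (nat_lit 1916797123) (.two (nat_lit 754974787) (nat_lit 9766438225) (.two (nat_lit 3525312527) (nat_lit 156380432903) (.two (nat_lit 9768534024) (nat_lit 16783201) (.two (nat_lit 2889875460) (nat_lit 184556153) (.two (nat_lit 2097153) (nat_lit 20652762185) (.two (nat_lit 16777216) (nat_lit 171977281) (.one (nat_lit 16789878) .nil))))))),
   .two (nat_lit 2923430498) (nat_lit 1948254569) (.two (nat_lit 4028629057) (nat_lit 158649550143) (.two (nat_lit 159232557071) (nat_lit 174686472704) (.two (nat_lit 46980399112) (nat_lit 2103138) (.two (nat_lit 708837381) (nat_lit 47563414164) (.two (nat_lit 2097153) (nat_lit 4203662) (.two (nat_lit 2097152) (nat_lit 4205759) (.one (nat_lit 2109815) .nil))))))),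
   .two (nat_lit 352321731) (nat_lit 18933089122) (.two (nat_lit 16777231) (nat_lit 1786776073) (.two (nat_lit 4613734408) (nat_lit 28798098009) (.two (nat_lit 41943041) (nat_lit 16784238) (.two (nat_lit 1048576) (nat_lit 1962946167) .nil)))),
   .two (nat_lit 822083779) (nat_lit 75498113) (.two (nat_lit 2416967747) (nat_lit 1962936348) (.two (nat_lit 8388623) (nat_lit 21827162005) (.two (nat_lit 721420293) (nat_lit 21818774845) (.two (nat_lit 16777217) (nat_lit 158183989388) (.two (nat_lit 1048576) (nat_lit 156984422094) .nil))))),
   .two (nat_lit 285213285) (nat_lit 2994733420) (.two (nat_lit 3028287553) (nat_lit 2332034367) (.two (nat_lit 184549391) (nat_lit 1417678726) (.two (nat_lit 184549380) (nat_lit 159224175276) (.two (nat_lit 8388609) (nat_lit 1346382360) (.one (nat_lit 8401273) .nil))))),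
   .two (nat_lit 2988441958) (nat_lit 2432696680) (.two (nat_lit 2969567299) (nat_lit 2887779667) (.two (nat_lit 2902458383) (nat_lit 11578381280) (.two (nat_lit 285212677) (nat_lit 9934215827) (.two (nat_lit 16777217) (nat_lit 9934218263) (.two (nat_lit 16777216) (nat_lit 10370428688) .nil))))),
   .two (nat_lit 185035915459) (nat_lit 47547679080) (.two (nat_lit 156465365057) (nat_lit 2936014124) (.two (nat_lit 28086108175) (nat_lit 4028631579) (.two (nat_lit 28086108168) (nat_lit 2103139) (.two (nat_lit 101711877) (nat_lit 16784918) (.two (nat_lit 605028353) (nat_lit 2954896436) (.two (nat_lit 2097152) (nat_lit 34613808) (.one (nat_lit 1060642) .nil))))))),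
   .two (nat_lit 159224168643) (nat_lit 157036839107) (.two (nat_lit 1291845698) (nat_lit 21778924854) (.two (nat_lit 1291845647) (nat_lit 2954889744) (.two (nat_lit 612368392) (nat_lit 352326622) (.two (nat_lit 620756997) (nat_lit 10336868937) (.two (nat_lit 2097153) (nat_lit 46422565872) (.two (nat_lit 16777216) (nat_lit 10001328692) (.one (nat_lit 2109818) .nil))))))),
   .two (nat_lit 20705181891) (nat_lit 2969568098) (.two (nat_lit 285212687) (nat_lit 156569176620) (.two (nat_lit 9948889096) (nat_lit 337645448) (.two (nat_lit 708837381) (nat_lit 18941483888) (.two (nat_lit 16777216) (nat_lit 9766448926) .nil)))),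
   .two (nat_lit 2969567427) (nat_lit 2098217) (.two (nat_lit 184549488) (nat_lit 156569175375) (.two (nat_lit 184549391) (nat_lit 1346375105) (.two (nat_lit 606076936) (nat_lit 13237227413) (.two (nat_lit 169869316) (nat_lit 4202007) (.two (nat_lit 2097153) (nat_lit 4204478) (.two (nat_lit 2097152) (nat_lit 16788674) (.one (nat_lit 16789883) .nil))))))),
   .two (nat_lit 1847591270) (nat_lit 10913579365) (.two (nat_lit 158144135235) (nat_lit 2894071097) (.two (nat_lit 822083599) (nat_lit 8393059) (.two (nat_lit 13203669000) (nat_lit 8394596) (.two (nat_lit 20638072836) (nat_lit 16784920) (.two (nat_lit 16777217) (nat_lit 2106512) (.two (nat_lit 2097152) (nat_lit 8400067) (.one (nat_lit 9934221450) .nil))))))),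
   .two (nat_lit 21785215171) (nat_lit 620757641) (.two (nat_lit 11618222194) (nat_lit 150996326) (.two (nat_lit 75497487) (nat_lit 10385100675) (.two (nat_lit 184549381) (nat_lit 209720634) (.two (nat_lit 156364701697) (nat_lit 3565166729) (.two (nat_lit 1048576) (nat_lit 880815794) .nil))))),
   .two (nat_lit 16777827) (nat_lit 46477082988) (.two (nat_lit 4634705987) (nat_lit 10385098022) (.two (nat_lit 2889875471) (nat_lit 9948891650) (.two (nat_lit 9768534024) (nat_lit 184431939486) (.two (nat_lit 721420293) (nat_lit 11614033210) (.two (nat_lit 16777217) (nat_lit 1312824176) (.two (nat_lit 8388608) (nat_lit 11492404950) .nil)))))),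
   .two (nat_lit 21811429571) (nat_lit 12150899045) (.two (nat_lit 46508539969) (nat_lit 19599983956) (.two (nat_lit 276824079) (nat_lit 28793899536) (.two (nat_lit 4601151496) (nat_lit 773853073) (.two (nat_lit 21778923525) (nat_lit 243276468) (.two (nat_lit 156364701697) (nat_lit 840966294) (.two (nat_lit 1048576) (nat_lit 2107990) (.one (nat_lit 11014254234) .nil))))))),
   .two (nat_lit 12054430054) (nat_lit 2097828) (.two (nat_lit 46474985539) (nat_lit 276825413) (.two (nat_lit 10336862223) (nat_lit 2927627701) (.two (nat_lit 654311432) (nat_lit 35655574) (.two (nat_lit 1291845637) (nat_lit 11544828566) (.two (nat_lit 2097153) (nat_lit 209725106) (.one (nat_lit 2109821) .nil)))))),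
   .two (nat_lit 166230753638) (nat_lit 8389285) (.two (nat_lit 203423811) (nat_lit 3531605318) (.two (nat_lit 9934209039) (nat_lit 2927626790) (.two (nat_lit 606076936) (nat_lit 1417678726) (.two (nat_lit 169869316) (nat_lit 8395446) (.two (nat_lit 37748737) (nat_lit 10510935031) (.two (nat_lit 2097152) (nat_lit 4205766) (.one (nat_lit 8401278) .nil))))))),
   .two (nat_lit 184993972419) (nat_lit 1049642) (.two (nat_lit 37246468213) (nat_lit 19033752881) (.two (nat_lit 184993972239) (nat_lit 1052128) (.two (nat_lit 21811429388) (nat_lit 158150430616) (.two (nat_lit 21777874949) (nat_lit 209722223) (.two (nat_lit 1048576) (nat_lit 156372051638) (.one (nat_lit 8401279) .nil)))))),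
   .two (nat_lit 47596961987) (nat_lit 10907288162) (.two (nat_lit 1310720116) (nat_lit 1224738123) (.two (nat_lit 169869327) (nat_lit 1291849603) (.two (nat_lit 203423749) (nat_lit 19142811802) (.two (nat_lit 1048576) (nat_lit 2108615) (.one (nat_lit 1376792209) .nil))))),
   .two (nat_lit 822083779) (nat_lit 2097802) (.two (nat_lit 185002360898) (nat_lit 165525064207) (.two (nat_lit 606076936) (nat_lit 1276120967) (.two (nat_lit 184989777925) (nat_lit 37313583735) (.two (nat_lit 620756993) (nat_lit 102769773) (.two (nat_lit 1048576) (nat_lit 11477724245) (.one (nat_lit 606089445) .nil)))))),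
   .two (nat_lit 620757187) (nat_lit 47581234557) (.two (nat_lit 721420303) (nat_lit 1052129) (.two (nat_lit 21208498184) (nat_lit 4647293975) (.two (nat_lit 11476664324) (nat_lit 13237231104) (.two (nat_lit 9765388289) (nat_lit 159251440566) (.two (nat_lit 2097152) (nat_lit 11525958775) (.one (nat_lit 168833109) .nil)))))),
   .two (nat_lit 4601151683) (nat_lit 156372042594) (.two (nat_lit 4601151503) (nat_lit 20745030151) (.two (nat_lit 4194312) (nat_lit 28764540812) (.two (nat_lit 3531603973) (nat_lit 10372520531) (.two (nat_lit 8388609) (nat_lit 11580484113) (.one (nat_lit 1061248) .nil))))),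
   .two (nat_lit 8388803) (nat_lit 1291846242) (.two (nat_lit 218103918) (nat_lit 2424309044) (.two (nat_lit 9881780239) (nat_lit 20745030160) (.two (nat_lit 2902458376) (nat_lit 46481280913) (.two (nat_lit 16777221) (nat_lit 12121543998) (.two (nat_lit 34603009) (nat_lit 310386842) (.two (nat_lit 1048576) (nat_lit 16788680) (.one (nat_lit 1060644) .nil))))))),
   .two (nat_lit 285213282) (nat_lit 19033751911) (.two (nat_lit 41943107) (nat_lit 721421608) (.two (nat_lit 16777231) (nat_lit 10544484238) (.two (nat_lit 184549381) (nat_lit 3565165142) (.two (nat_lit 612368385) (nat_lit 46489674894) (.two (nat_lit 2097152) (nat_lit 8400073) (.one (nat_lit 2109825) .nil)))))),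
   .two (nat_lit 165526110565) (nat_lit 11014242928) (.two (nat_lit 156365750380) (nat_lit 679478594) (.two (nat_lit 612368399) (nat_lit 1344277007) (.two (nat_lit 612368392) (nat_lit 28790755212) (.two (nat_lit 176160772) (nat_lit 1411390071) (.two (nat_lit 8388609) (nat_lit 2106514) (.two (nat_lit 1048576) (nat_lit 16788682) (.one (nat_lit 16789890) .nil))))))),
   .two (nat_lit 1291846244) (nat_lit 20637024618) (.two (nat_lit 1779433539) (nat_lit 620758557) (.two (nat_lit 11476664328) (nat_lit 19545463384) (.two (nat_lit 2097153) (nat_lit 1058751) (.two (nat_lit 2097152) (nat_lit 174685433493) .nil)))),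
   .two (nat_lit 306184387) (nat_lit 10906239335) (.two (nat_lit 276824129) (nat_lit 9802089852) (.two (nat_lit 8388623) (nat_lit 1913655191) (.two (nat_lit 41943045) (nat_lit 708844167) (.two (nat_lit 34603009) (nat_lit 343942067) (.two (nat_lit 1048576) (nat_lit 2108619) (.one (nat_lit 1060645) .nil)))))),
   .two (nat_lit 159224168643) (nat_lit 21811429740) (.two (nat_lit 169869377) (nat_lit 159224170013) (.two (nat_lit 1277165576) (nat_lit 1379930001) (.two (nat_lit 69206021) (nat_lit 183946451611) (.two (nat_lit 2097153) (nat_lit 13187949502) (.two (nat_lit 2097152) (nat_lit 339749423) (.one (nat_lit 839921268) .nil)))))),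
   .two (nat_lit 10343153859) (nat_lit 20737687911) (.two (nat_lit 46407876673) (nat_lit 3464496670) (.two (nat_lit 169869320) (nat_lit 11593060243) (.two (nat_lit 2097157) (nat_lit 8396313) (.two (nat_lit 50331649) (nat_lit 8397971) (.two (nat_lit 1048576) (nat_lit 16788684) (.one (nat_lit 16789891) .nil)))))),
   .two (nat_lit 50331843) (nat_lit 1178600034) (.two (nat_lit 11551113330) (nat_lit 19545457995) (.two (nat_lit 713031695) (nat_lit 1779437463) (.two (nat_lit 13195280389) (nat_lit 218110642) (.two (nat_lit 605028353) (nat_lit 8398784) (.two (nat_lit 1048576) (nat_lit 8400077) (.one (nat_lit 34615560) .nil)))))),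
   .two (nat_lit 21827158211) (nat_lit 35652246) (.two (nat_lit 9881780289) (nat_lit 19529729398) (.two (nat_lit 4194319) (nat_lit 11559503389) (.two (nat_lit 4194312) (nat_lit 4613738395) (.two (nat_lit 34603013) (nat_lit 47584385639) (.two (nat_lit 2097153) (nat_lit 235938783) (.two (nat_lit 1048576) (nat_lit 2107991) (.one (nat_lit 20637036259) .nil))))))),
   .two (nat_lit 19096666307) (nat_lit 185020187229) (.two (nat_lit 75497539) (nat_lit 46477083983) (.two (nat_lit 1745879055) (nat_lit 11546921488) (.two (nat_lit 1175453704) (nat_lit 12117348228) (.two (nat_lit 183845781508) (nat_lit 1920998053) (.two (nat_lit 8388609) (nat_lit 11006911466) (.two (nat_lit 1048576) (nat_lit 8400078) (.one (nat_lit 8401284) .nil))))))),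
   .two (nat_lit 41943235) (nat_lit 4601151845) (.two (nat_lit 8388672) (nat_lit 3021996899) (.two (nat_lit 813694991) (nat_lit 1178602013) (.two (nat_lit 1175453704) (nat_lit 2921337885) (.two (nat_lit 2887778308) (nat_lit 156539820696) (.two (nat_lit 2097153) (nat_lit 9873400954) (.two (nat_lit 2097152) (nat_lit 9873402427) (.one (nat_lit 2109222) .nil))))))),
   .two (nat_lit 4601151683) (nat_lit 16777894) (.two (nat_lit 183848927348) (nat_lit 13237224792) (.two (nat_lit 19529728024) (nat_lit 12050237980) (.two (nat_lit 4194312) (nat_lit 19612570606) (.two (nat_lit 4194308) (nat_lit 16784922) (.two (nat_lit 9765388289) (nat_lit 4613745206) (.one (nat_lit 4206981) .nil)))))),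
   .two (nat_lit 28758245571) (nat_lit 11580474013) (.two (nat_lit 20737687617) (nat_lit 1411384623) (.two (nat_lit 1779433487) (nat_lit 9969863179) (.two (nat_lit 174753579020) (nat_lit 13187944336) (.two (nat_lit 13187940357) (nat_lit 4202011) (.two (nat_lit 4194305) (nat_lit 2107329) (.two (nat_lit 8388608) (nat_lit 4205776) (.one (nat_lit 4206983) .nil))))))),
   .two (nat_lit 343933123) (nat_lit 183947493737) (.two (nat_lit 185002360897) (nat_lit 880805405) (.two (nat_lit 176160776) (nat_lit 9936310161) (.two (nat_lit 176160772) (nat_lit 1312823982) (.two (nat_lit 16777217) (nat_lit 840967174) (.two (nat_lit 2097152) (nat_lit 4205777) (.one (nat_lit 1312829745) .nil)))))),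
   .two (nat_lit 185035915459) (nat_lit 303038824) (.two (nat_lit 158646403137) (nat_lit 4043310379) (.two (nat_lit 46407876623) (nat_lit 1224740315) (.two (nat_lit 157036838920) (nat_lit 68161437) (.two (nat_lit 2097157) (nat_lit 46523226792) (.two (nat_lit 2097153) (nat_lit 3557829195) (.one (nat_lit 2109223) .nil)))))),
   .two (nat_lit 21785215171) (nat_lit 16778082) (.two (nat_lit 16777231) (nat_lit 1753220637) (.two (nat_lit 50331656) (nat_lit 46514835336) (.two (nat_lit 612368389) (nat_lit 21223185263) (.two (nat_lit 8388608) (nat_lit 47563419379) .nil)))),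
   .two (nat_lit 822083779) (nat_lit 37749408) (.two (nat_lit 285212736) (nat_lit 1212155174) (.two (nat_lit 11492392975) (nat_lit 171969059) (.two (nat_lit 37748744) (nat_lit 19142808888) (.two (nat_lit 4194305) (nat_lit 166230762524) (.two (nat_lit 4194304) (nat_lit 740304562) (.one (nat_lit 16789898) .nil)))))),
   .two (nat_lit 9967763813) (nat_lit 46523220624) (.two (nat_lit 184549441) (nat_lit 1948256807) (.two (nat_lit 184549384) (nat_lit 18926801878) (.two (nat_lit 169869316) (nat_lit 19545463435) (.two (nat_lit 620756993) (nat_lit 166230761627) (.two (nat_lit 8388608) (nat_lit 185021247132) .nil))))),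
   .two (nat_lit 306184549) (nat_lit 612369044) (.two (nat_lit 306184257) (nat_lit 37320919584) (.two (nat_lit 13191086088) (nat_lit 156976025480) (.two (nat_lit 4605345797) (nat_lit 166199302752) (.two (nat_lit 9781116929) (nat_lit 12624865803) (.one (nat_lit 4206376) .nil))))),
   .two (nat_lit 159266111846) (nat_lit 11007951714) (.two (nat_lit 754974735) (nat_lit 158646405655) (.two (nat_lit 46407876616) (nat_lit 159266115484) (.two (nat_lit 34603013) (nat_lit 19545463664) (.two (nat_lit 1048576) (nat_lit 1392518836) (.one (nat_lit 16789289) .nil))))),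
   .two (nat_lit 185020186819) (nat_lit 1384120515) (.two (nat_lit 11543773250) (nat_lit 13228836152) (.two (nat_lit 4194319) (nat_lit 46984596942) (.two (nat_lit 184986632200) (nat_lit 47588578277) (.two (nat_lit 183853121540) (nat_lit 157035797080) (.two (nat_lit 156367847425) (nat_lit 1410345503) (.one (nat_lit 1061259) .nil)))))),
   .two (nat_lit 142606531) (nat_lit 183912891234) (.two (nat_lit 184993972239) (nat_lit 28757199402) (.two (nat_lit 174759870472) (nat_lit 47547685479) (.two (nat_lit 34603009) (nat_lit 46414177365) (.two (nat_lit 1048576) (nat_lit 159224179272) (.one (nat_lit 1060650) .nil))))),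
   .two (nat_lit 13195280579) (nat_lit 1745879397) (.two (nat_lit 12617515074) (nat_lit 159266112880) (.two (nat_lit 16777231) (nat_lit 11610884622) (.two (nat_lit 739246088) (nat_lit 10376713245) (.two (nat_lit 620756997) (nat_lit 28093454982) (.two (nat_lit 34603009) (nat_lit 8397972) (.two (nat_lit 1048576) (nat_lit 16788694) (.one (nat_lit 1061260) .nil))))))),
   .two (nat_lit 10336862565) (nat_lit 3464495710) (.two (nat_lit 3458203714) (nat_lit 8390701) (.two (nat_lit 813694991) (nat_lit 16780770) (.two (nat_lit 8388616) (nat_lit 21208503310) (.two (nat_lit 8388612) (nat_lit 2104862) (.two (nat_lit 2097153) (nat_lit 8398788) (.two (nat_lit 2097152) (nat_lit 46481288335) (.one (nat_lit 2109837) .nil))))))),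
   .two (nat_lit 4634706115) (nat_lit 37320918390) (.two (nat_lit 4194319) (nat_lit 880805405) (.two (nat_lit 169869320) (nat_lit 11614032860) (.two (nat_lit 4194308) (nat_lit 20637030988) (.two (nat_lit 4194305) (nat_lit 1745888206) (.two (nat_lit 2097152) (nat_lit 1059328) (.one (nat_lit 18926808778) .nil)))))),
   .two (nat_lit 159224168643) (nat_lit 3472884369) (.two (nat_lit 11492393025) (nat_lit 2889876812) (.two (nat_lit 11492392975) (nat_lit 19532875294) (.two (nat_lit 612368392) (nat_lit 10351547708) (.two (nat_lit 8388609) (nat_lit 46523230777) (.one (nat_lit 4634717877) .nil))))),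
   .two (nat_lit 12117344451) (nat_lit 183845782148) (.two (nat_lit 2969567297) (nat_lit 47584379748) (.two (nat_lit 11479810063) (nat_lit 1191184940) (.two (nat_lit 104857608) (nat_lit 318771103) (.two (nat_lit 75497477) (nat_lit 4601158269) (.two (nat_lit 8388609) (nat_lit 641736839) (.two (nat_lit 1048576) (nat_lit 4205144) (.one (nat_lit 16789903) .nil))))))),
   .two (nat_lit 9948889283) (nat_lit 9866052451) (.two (nat_lit 2969567247) (nat_lit 46414170637) (.two (nat_lit 620757000) (nat_lit 839913363) (.two (nat_lit 8388613) (nat_lit 46523227648) (.two (nat_lit 8388609) (nat_lit 9798951907) (.two (nat_lit 1048576) (nat_lit 8400088) (.one (nat_lit 156968693366) .nil)))))),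
   .two (nat_lit 9948889283) (nat_lit 11618222437) (.two (nat_lit 2969567296) (nat_lit 19537069430) (.two (nat_lit 75497487) (nat_lit 16779802) (.two (nat_lit 47563407368) (nat_lit 11584674436) (.two (nat_lit 156364701697) (nat_lit 352330701) (.two (nat_lit 1048576) (nat_lit 176172778) .nil))))),
   .two (nat_lit 4605345987) (nat_lit 21223178601) (.two (nat_lit 184549443) (nat_lit 41944384) (.two (nat_lit 276824079) (nat_lit 285215230) (.two (nat_lit 101711880) (nat_lit 21827163099) (.two (nat_lit 176160772) (nat_lit 19093527165) (.two (nat_lit 50331649) (nat_lit 1745889839) (.one (nat_lit 1060651) .nil)))))),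
   .two (nat_lit 285212867) (nat_lit 10007609701) (.two (nat_lit 8388675) (nat_lit 9781119486) (.two (nat_lit 16777224) (nat_lit 41948185) (.two (nat_lit 16777220) (nat_lit 41950701) (.two (nat_lit 16777217) (nat_lit 183853130800) (.two (nat_lit 8388608) (nat_lit 16788697) (.one (nat_lit 16789292) .nil)))))),
   .two (nat_lit 11513364838) (nat_lit 19530776933) (.two (nat_lit 157036838979) (nat_lit 1950352723) (.two (nat_lit 159232557071) (nat_lit 21778927508) (.two (nat_lit 4601151493) (nat_lit 3525319293) (.two (nat_lit 4194305) (nat_lit 158144144399) (.two (nat_lit 2097152) (nat_lit 10372523698) (.one (nat_lit 2109842) .nil)))))),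
   .two (nat_lit 11559502019) (nat_lit 269484653) (.two (nat_lit 11559501888) (nat_lit 1049917) (.two (nat_lit 721420303) (nat_lit 10443820497) (.two (nat_lit 739246088) (nat_lit 251663678) (.two (nat_lit 8388609) (nat_lit 166245441690) (.two (nat_lit 1048576) (nat_lit 10544492167) .nil))))),
   .two (nat_lit 50331843) (nat_lit 2994733251) (.two (nat_lit 16777282) (nat_lit 10544481637) (.two (nat_lit 721420303) (nat_lit 873466371) (.two (nat_lit 2961178632) (nat_lit 16782646) (.two (nat_lit 8388609) (nat_lit 788537484) (.two (nat_lit 8388608) (nat_lit 9915346589) .nil))))),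
   .two (nat_lit 10015998147) (nat_lit 28764537192) (.two (nat_lit 183853121601) (nat_lit 117441915) (.two (nat_lit 183853121551) (nat_lit 183928621583) (.two (nat_lit 19532873736) (nat_lit 11551117213) (.two (nat_lit 41943045) (nat_lit 159266118312) (.two (nat_lit 9768534017) (nat_lit 9772737631) (.two (nat_lit 4194304) (nat_lit 47588585252) .nil)))))),
   .two (nat_lit 352321731) (nat_lit 159224168643) (.two (nat_lit 16777280) (nat_lit 156573369665) (.two (nat_lit 16777231) (nat_lit 11580475928) (.two (nat_lit 2961178632) (nat_lit 165540795422) (.two (nat_lit 713031684) (nat_lit 183912897145) (.two (nat_lit 50331649) (nat_lit 158075986963) (.two (nat_lit 1048576) (nat_lit 159257733638) (.one (nat_lit 1061268) .nil))))))),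
   .two (nat_lit 343933123) (nat_lit 236979572) (.two (nat_lit 203423759) (nat_lit 276826637) (.two (nat_lit 156367847432) (nat_lit 773853064) (.two (nat_lit 46409973764) (nat_lit 1310726790) (.two (nat_lit 8388609) (nat_lit 3525321876) (.two (nat_lit 2097152) (nat_lit 8400090) (.one (nat_lit 2109845) .nil)))))),
   .two (nat_lit 185020186819) (nat_lit 847250276) (.two (nat_lit 101711887) (nat_lit 157043132942) (.two (nat_lit 46414168072) (nat_lit 11006906259) (.two (nat_lit 4605345797) (nat_lit 1055416) (.two (nat_lit 34603009) (nat_lit 156468520844) (.two (nat_lit 8388608) (nat_lit 1060059) (.one (nat_lit 21207461527) .nil)))))),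
   .two (nat_lit 9948889682) (nat_lit 158649549159) (.two (nat_lit 2889875523) (nat_lit 620758301) (.two (nat_lit 158143086607) (nat_lit 306187713) (.two (nat_lit 822083592) (nat_lit 4199455) (.two (nat_lit 11492392964) (nat_lit 1056287) (.two (nat_lit 37748737) (nat_lit 1058757) (.two (nat_lit 1048576) (nat_lit 4205788) (.one (nat_lit 1061271) .nil))))))),
   .two (nat_lit 1358954853) (nat_lit 1049257) (.two (nat_lit 3573547075) (nat_lit 69206884) (.two (nat_lit 11559501839) (nat_lit 10436479511) (.two (nat_lit 46407876616) (nat_lit 10552872860) (.two (nat_lit 806354949) (nat_lit 165540797296) (.two (nat_lit 16777216) (nat_lit 156566039752) (.one (nat_lit 16789913) .nil)))))),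
   .two (nat_lit 11007951456) (nat_lit 165528207723) (.two (nat_lit 46980399169) (nat_lit 19027460962) (.two (nat_lit 46980399119) (nat_lit 1411387294) (.two (nat_lit 19532873733) (nat_lit 2350915085) (.two (nat_lit 4194305) (nat_lit 184558561) (.two (nat_lit 4194304) (nat_lit 16788702) (.one (nat_lit 2109851) .nil)))))),
   .two (nat_lit 185035915459) (nat_lit 47547679080) (.two (nat_lit 1310720065) (nat_lit 68158789) (.two (nat_lit 28690087951) (nat_lit 236980763) (.two (nat_lit 9967763468) (nat_lit 1745884137) (.two (nat_lit 9934209029) (nat_lit 739252809) (.two (nat_lit 9765388289) (nat_lit 2106352) (.two (nat_lit 1048576) (nat_lit 2107996) (.one (nat_lit 2109852) .nil))))))),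
   .two (nat_lit 2969567427) (nat_lit 158144135363) (.two (nat_lit 2969567298) (nat_lit 166230754645) (.two (nat_lit 2969567247) (nat_lit 9766439439) (.two (nat_lit 1277165576) (nat_lit 1761612789) (.two (nat_lit 9934209029) (nat_lit 185002367596) (.two (nat_lit 620756993) (nat_lit 169878521) (.two (nat_lit 1048576) (nat_lit 2954899129) .nil)))))),
   .two (nat_lit 13195280579) (nat_lit 46477082819) (.two (nat_lit 4605345858) (nat_lit 11513365866) (.two (nat_lit 1350565903) (nat_lit 1410338266) (.two (nat_lit 3460300808) (nat_lit 880808964) (.two (nat_lit 46409973765) (nat_lit 209722031) (.two (nat_lit 37748737) (nat_lit 156364712540) (.one (nat_lit 1060653) .nil)))))),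
   .two (nat_lit 11559502019) (nat_lit 10544480877) (.two (nat_lit 1916796995) (nat_lit 713032548) (.two (nat_lit 75497487) (nat_lit 159232560590) (.two (nat_lit 50331656) (nat_lit 184993976196) (.two (nat_lit 176160773) (nat_lit 11614034534) (.two (nat_lit 8388609) (nat_lit 104866839) (.two (nat_lit 4194304) (nat_lit 1350576655) (.one (nat_lit 4207006) .nil))))))),
   .two (nat_lit 185035915459) (nat_lit 3028288354) (.two (nat_lit 176160783) (nat_lit 117442077) (.two (nat_lit 612368392) (nat_lit 251662216) (.two (nat_lit 721420293) (nat_lit 11484011375) (.two (nat_lit 2097152) (nat_lit 159257734894) .nil)))),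
   .two (nat_lit 13195280579) (nat_lit 1279263362) (.two (nat_lit 4605345857) (nat_lit 843055970) (.two (nat_lit 4601151503) (nat_lit 3028291488) (.two (nat_lit 9933160453) (nat_lit 166203497049) (.two (nat_lit 41943041) (nat_lit 4598015870) (.two (nat_lit 1048576) (nat_lit 239086072) (.one (nat_lit 11006914944) .nil)))))),
   .two (nat_lit 47555018947) (nat_lit 16777865) (.two (nat_lit 47555018818) (nat_lit 1224738115) (.two (nat_lit 16777231) (nat_lit 3464499077) (.two (nat_lit 16777220) (nat_lit 11484009786) (.two (nat_lit 50331649) (nat_lit 183953793976) (.two (nat_lit 2097152) (nat_lit 183953794733) (.one (nat_lit 8400686) .nil)))))),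
   .two (nat_lit 3525312707) (nat_lit 9948889954) (.two (nat_lit 2969567247) (nat_lit 11007952413) (.two (nat_lit 2969567240) (nat_lit 1411387272) (.two (nat_lit 270532613) (nat_lit 165540797296) (.two (nat_lit 1048576) (nat_lit 218115859) .nil)))),
   .two (nat_lit 10907287909) (nat_lit 19529728656) (.two (nat_lit 159217877059) (nat_lit 47547679588) (.two (nat_lit 158075977743) (nat_lit 1411385859) (.two (nat_lit 276824072) (nat_lit 1344280405) (.two (nat_lit 9934209029) (nat_lit 8396320) (.two (nat_lit 605028353) (nat_lit 8397975) (.two (nat_lit 1048576) (nat_lit 8400096) (.one (nat_lit 8401313) .nil))))))),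
   .two (nat_lit 183916036454) (nat_lit 158646403430) (.two (nat_lit 19096666179) (nat_lit 11610883411) (.two (nat_lit 21785214991) (nat_lit 1052131) (.two (nat_lit 1350565896) (nat_lit 46507498093) (.two (nat_lit 41943041) (nat_lit 11476673539) (.two (nat_lit 4194304) (nat_lit 28690098651) (.one (nat_lit 1061282) .nil)))))),
   .two (nat_lit 156533522627) (nat_lit 9969861229) (.two (nat_lit 10015998019) (nat_lit 158647453026) (.two (nat_lit 639631375) (nat_lit 184431939034) (.two (nat_lit 46980399112) (nat_lit 46474989444) (.two (nat_lit 2889875461) (nat_lit 20753423856) (.two (nat_lit 4194305) (nat_lit 21208507527) (.two (nat_lit 16777216) (nat_lit 19532885664) .nil)))))),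
   .two (nat_lit 11559502019) (nat_lit 4634706786) (.two (nat_lit 272629775) (nat_lit 1358956061) (.two (nat_lit 721420296) (nat_lit 1178603420) (.two (nat_lit 822083589) (nat_lit 10003422064) (.two (nat_lit 16777216) (nat_lit 9936318106) .nil)))),
   .two (nat_lit 185020186819) (nat_lit 174692761961) (.two (nat_lit 11584667714) (nat_lit 28790752541) (.two (nat_lit 4194319) (nat_lit 10007611902) (.two (nat_lit 184986632200) (nat_lit 21818774559) (.two (nat_lit 1745879045) (nat_lit 4634712701) (.two (nat_lit 41943041) (nat_lit 183848936594) (.two (nat_lit 4194304) (nat_lit 8400097) (.one (nat_lit 1061283) .nil))))))),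
   .two (nat_lit 285213029) (nat_lit 2889876109) (.two (nat_lit 285212738) (nat_lit 10506732386) (.two (nat_lit 16777231) (nat_lit 12117346839) (.two (nat_lit 1178599432) (nat_lit 150998934) (.two (nat_lit 2902458373) (nat_lit 2889883149) (.two (nat_lit 37748737) (nat_lit 1057944) (.two (nat_lit 4194304) (nat_lit 1060066) (.one (nat_lit 1061285) .nil))))))),
   .two (nat_lit 9948889283) (nat_lit 47581234020) (.two (nat_lit 2887778319) (nat_lit 9781122074) (.two (nat_lit 721420292) (nat_lit 1056289) (.two (nat_lit 9766436865) (nat_lit 21811438657) (.two (nat_lit 1048576) (nat_lit 2107998) (.one (nat_lit 1061287) .nil))))),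
   .two (nat_lit 352321731) (nat_lit 746586744) (.two (nat_lit 28093448308) (nat_lit 28772926815) (.two (nat_lit 183853121551) (nat_lit 620758557) (.two (nat_lit 4613734408) (nat_lit 1413484435) (.two (nat_lit 41943045) (nat_lit 19545462073) (.two (nat_lit 41943041) (nat_lit 157051527311) (.two (nat_lit 1048576) (nat_lit 184419364552) .nil)))))),
   .two (nat_lit 11010048195) (nat_lit 807404586) (.two (nat_lit 28758245491) (nat_lit 19142804324) (.two (nat_lit 16777231) (nat_lit 9969863193) (.two (nat_lit 50331656) (nat_lit 1346375564) (.two (nat_lit 16777220) (nat_lit 46477088056) (.two (nat_lit 9766436865) (nat_lit 19612576308) (.one (nat_lit 4207016) .nil)))))),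
   .two (nat_lit 3527409859) (nat_lit 2097788) (.two (nat_lit 2887778369) (nat_lit 10506732907) (.two (nat_lit 28693233679) (nat_lit 37320920547) (.two (nat_lit 2954887176) (nat_lit 156976025488) (.two (nat_lit 184986632197) (nat_lit 10437532320) (.two (nat_lit 41943041) (nat_lit 37247525880) (.two (nat_lit 1048576) (nat_lit 2108644) (.one (nat_lit 2109866) .nil))))))),
   .two (nat_lit 343933123) (nat_lit 9902752365) (.two (nat_lit 159251431491) (nat_lit 37316724066) (.two (nat_lit 4605345807) (nat_lit 4634709892) (.two (nat_lit 8388612) (nat_lit 19599989427) (.two (nat_lit 9766436865) (nat_lit 19537078847) (.one (nat_lit 18926809502) .nil))))),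
   .two (nat_lit 2416967875) (nat_lit 184417256063) (.two (nat_lit 276824130) (nat_lit 9781118246) (.two (nat_lit 2969567247) (nat_lit 2349863897) (.two (nat_lit 184549380) (nat_lit 2987399756) (.two (nat_lit 8388609) (nat_lit 166129050743) (.two (nat_lit 1048576) (nat_lit 2108646) (.one (nat_lit 2109867) .nil)))))),
   .two (nat_lit 10007609950) (nat_lit 174701150567) (.two (nat_lit 721420353) (nat_lit 10007610210) (.two (nat_lit 176160783) (nat_lit 12129931167) (.two (nat_lit 822083589) (nat_lit 13228841646) (.two (nat_lit 2097153) (nat_lit 8397977) (.two (nat_lit 2097152) (nat_lit 8400103) (.one (nat_lit 2994745730) .nil)))))),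
   .two (nat_lit 159224168643) (nat_lit 3525312707) (.two (nat_lit 2994733122) (nat_lit 203425101) (.two (nat_lit 2961178639) (nat_lit 158647454218) (.two (nat_lit 158083317768) (nat_lit 184987684744) (.two (nat_lit 158143086597) (nat_lit 11611937366) (.two (nat_lit 605028353) (nat_lit 2107918) (.one (nat_lit 2109868) .nil)))))),
   .two (nat_lit 3527409859) (nat_lit 47548728685) (.two (nat_lit 203423759) (nat_lit 20640172554) (.two (nat_lit 2887778312) (nat_lit 185023339091) (.two (nat_lit 9766436865) (nat_lit 1950362206) (.one (nat_lit 1913663776) .nil)))),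
   .two (nat_lit 11610882405) (nat_lit 3028288104) (.two (nat_lit 339738690) (nat_lit 8390703) (.two (nat_lit 1350565903) (nat_lit 159216830989) (.two (nat_lit 28691136520) (nat_lit 3560969215) (.two (nat_lit 605028357) (nat_lit 2104867) (.two (nat_lit 4194305) (nat_lit 3531613256) (.two (nat_lit 8388608) (nat_lit 4205689) (.one (nat_lit 4207021) .nil))))))),
   .two (nat_lit 9802088643) (nat_lit 13195281250) (.two (nat_lit 4605345807) (nat_lit 3560969533) (.two (nat_lit 8388609) (nat_lit 11010057196) (.two (nat_lit 8388608) (nat_lit 2923441149) (.one (nat_lit 46481288893) .nil)))),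
   .two (nat_lit 16777411) (nat_lit 46414169383) (.two (nat_lit 8388623) (nat_lit 16782646) (.two (nat_lit 16777217) (nat_lit 11551123977) (.one (nat_lit 343944828) .nil))),
   .two (nat_lit 654311782) (nat_lit 47588573843) (.two (nat_lit 4605345857) (nat_lit 46409975116) (.two (nat_lit 8388623) (nat_lit 2969570728) (.two (nat_lit 184549384) (nat_lit 10443822396) (.two (nat_lit 16777217) (nat_lit 10003424266) (.two (nat_lit 8388608) (nat_lit 16788715) (.one (nat_lit 4207022) .nil)))))),
   .two (nat_lit 2988442211) (nat_lit 71303527) (.two (nat_lit 11010048067) (nat_lit 1310721321) (.two (nat_lit 13203669007) (nat_lit 708841374) (.two (nat_lit 69206021) (nat_lit 12062825138) (.two (nat_lit 2097153) (nat_lit 4203674) (.two (nat_lit 2097152) (nat_lit 4205152) (.one (nat_lit 4207023) .nil)))))),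
   .two (nat_lit 11559502019) (nat_lit 235930279) (.two (nat_lit 11559501888) (nat_lit 9899607333) (.two (nat_lit 117440527) (nat_lit 10942941709) (.two (nat_lit 1276117000) (nat_lit 83890051) (.two (nat_lit 11476664324) (nat_lit 608180859) (.two (nat_lit 9765388289) (nat_lit 10372523060) (.two (nat_lit 4194304) (nat_lit 1060076) (.one (nat_lit 4207024) .nil))))))),
   .two (nat_lit 183962173797) (nat_lit 166237045388) (.two (nat_lit 20704133185) (nat_lit 1847592268) (.two (nat_lit 157036838927) (nat_lit 806358924) (.two (nat_lit 270532613) (nat_lit 8396325) (.two (nat_lit 2097153) (nat_lit 28705825835) (.two (nat_lit 2097152) (nat_lit 16788719) (.one (nat_lit 16789937) .nil)))))),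
   .two (nat_lit 166132187493) (nat_lit 8389291) (.two (nat_lit 166132187202) (nat_lit 159232558429) (.two (nat_lit 639631384) (nat_lit 11010050599) (.two (nat_lit 46978301960) (nat_lit 2936016787) (.two (nat_lit 156367847429) (nat_lit 10921974374) (.two (nat_lit 156367847425) (nat_lit 47563416719) (.two (nat_lit 2097152) (nat_lit 4205808) (.one (nat_lit 4207026) .nil))))))),
   .two (nat_lit 156367847619) (nat_lit 13195281250) (.two (nat_lit 4605345807) (nat_lit 46510641056) (.two (nat_lit 46409973764) (nat_lit 10376714841) (.two (nat_lit 620756993) (nat_lit 239086072) (.one (nat_lit 8401331) .nil)))),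
   .two (nat_lit 343933123) (nat_lit 11611930982) (.two (nat_lit 183946444865) (nat_lit 183949591842) (.two (nat_lit 276824079) (nat_lit 4196892) (.two (nat_lit 4605345800) (nat_lit 156566033405) (.two (nat_lit 184989777925) (nat_lit 109058697) (.two (nat_lit 156364701697) (nat_lit 840966294) (.two (nat_lit 1048576) (nat_lit 2108001) (.one (nat_lit 9867112233) .nil))))))),
   .two (nat_lit 159266111683) (nat_lit 673186658) (.two (nat_lit 2969567247) (nat_lit 19128125959) (.two (nat_lit 3458203656) (nat_lit 1224742203) (.two (nat_lit 2097153) (nat_lit 16784238) (.two (nat_lit 2097152) (nat_lit 151004847) (.one (nat_lit 16789295) .nil))))),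
   .two (nat_lit 8388803) (nat_lit 159217877349) (.two (nat_lit 8388672) (nat_lit 1410335587) (.two (nat_lit 176160783) (nat_lit 174688570835) (.two (nat_lit 3525312520) (nat_lit 156968685447) (.two (nat_lit 1913651205) (nat_lit 166136388254) (.two (nat_lit 156364701697) (nat_lit 9799999631) (.two (nat_lit 2097152) (nat_lit 13228845598) (.one (nat_lit 46507503311) .nil))))))),
   .two (nat_lit 2316304741) (nat_lit 28087157395) (.two (nat_lit 157036838979) (nat_lit 1312819722) (.two (nat_lit 4194312) (nat_lit 740298631) (.two (nat_lit 9934209029) (nat_lit 11577334456) (.two (nat_lit 4194305) (nat_lit 2106523) (.two (nat_lit 1048576) (nat_lit 2108658) (.one (nat_lit 2109876) .nil)))))),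
   .two (nat_lit 2988441795) (nat_lit 9936306858) (.two (nat_lit 9899606082) (nat_lit 9768535408) (.two (nat_lit 742391823) (nat_lit 28690090506) (.two (nat_lit 9768534024) (nat_lit 156566032268) (.two (nat_lit 1916796933) (nat_lit 10940848774) (.two (nat_lit 605028353) (nat_lit 4204490) (.two (nat_lit 1048576) (nat_lit 4205811) (.one (nat_lit 1061301) .nil))))))),
   .two (nat_lit 352321731) (nat_lit 18933089576) (.two (nat_lit 83886095) (nat_lit 11476668773) (.two (nat_lit 46414168072) (nat_lit 1929386626) (.two (nat_lit 612368385) (nat_lit 159250392752) (.one (nat_lit 9765400244) .nil)))),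
   .two (nat_lit 239075685) (nat_lit 2097836) (.two (nat_lit 1309671489) (nat_lit 46508541292) (.two (nat_lit 2969567255) (nat_lit 10940845964) (.two (nat_lit 16777221) (nat_lit 158177696403) (.two (nat_lit 16777217) (nat_lit 1057948) (.two (nat_lit 2097152) (nat_lit 16788724) (.one (nat_lit 16789942) .nil)))))),
   .two (nat_lit 8388803) (nat_lit 2902459235) (.two (nat_lit 28772925455) (nat_lit 168824714) (.two (nat_lit 16777221) (nat_lit 343938358) (.two (nat_lit 16777217) (nat_lit 20644372640) (.two (nat_lit 1048576) (nat_lit 3036688042) .nil)))),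
   .two (nat_lit 4605346397) (nat_lit 2936013163) (.two (nat_lit 184549443) (nat_lit 183853122853) (.two (nat_lit 16777231) (nat_lit 1753222626) (.two (nat_lit 612368392) (nat_lit 37329311035) (.two (nat_lit 50331649) (nat_lit 156968692171) (.one (nat_lit 1410346692) .nil))))),
   .two (nat_lit 1358954691) (nat_lit 235930217) (.two (nat_lit 185035915331) (nat_lit 10537141617) (.two (nat_lit 4194319) (nat_lit 10955527154) (.two (nat_lit 739246085) (nat_lit 28760350215) (.two (nat_lit 34603009) (nat_lit 28760352688) (.two (nat_lit 1048576) (nat_lit 4205813) (.one (nat_lit 1061303) .nil)))))),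
   .two (nat_lit 822083779) (nat_lit 156976022124) (.two (nat_lit 4647288898) (nat_lit 9806284147) (.two (nat_lit 13203669007) (nat_lit 276829501) (.two (nat_lit 2097153) (nat_lit 713042464) (.one (nat_lit 2109163) .nil)))),
   .two (nat_lit 1913651558) (nat_lit 20740833640) (.two (nat_lit 183848927299) (nat_lit 46473938301) (.two (nat_lit 4194319) (nat_lit 1277169069) (.two (nat_lit 272629768) (nat_lit 166229709783) (.two (nat_lit 1344274437) (nat_lit 1056294) (.two (nat_lit 4194305) (nat_lit 1057949) (.two (nat_lit 1048576) (nat_lit 2108662) (.one (nat_lit 1061304) .nil))))))),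
   .two (nat_lit 2969567427) (nat_lit 174686470746) (.two (nat_lit 2969567296) (nat_lit 11007952161) (.two (nat_lit 47548727311) (nat_lit 50334230) (.two (nat_lit 606076936) (nat_lit 21223184224) (.two (nat_lit 69206021) (nat_lit 1291853316) (.two (nat_lit 2097153) (nat_lit 4204491) (.two (nat_lit 2097152) (nat_lit 4205815) (.one (nat_lit 4206849) .nil))))))),
   .two (nat_lit 2969567427) (nat_lit 19128124761) (.two (nat_lit 654311439) (nat_lit 46978304529) (.two (nat_lit 184549384) (nat_lit 9967769438) (.two (nat_lit 4194308) (nat_lit 620762422) (.two (nat_lit 4194305) (nat_lit 639640593) (.two (nat_lit 2097152) (nat_lit 10003425721) (.one (nat_lit 9766448816) .nil)))))),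
   .two (nat_lit 159224168643) (nat_lit 19530777217) (.two (nat_lit 47555018817) (nat_lit 35652927) (.two (nat_lit 20644364303) (nat_lit 1209011646) (.two (nat_lit 11551113224) (nat_lit 165525066746) (.two (nat_lit 28758245381) (nat_lit 12155099734) (.two (nat_lit 34603009) (nat_lit 337650798) (.two (nat_lit 1048576) (nat_lit 1377840311) (.one (nat_lit 184986644912) .nil))))))),
   .two (nat_lit 1358954691) (nat_lit 11618222755) (.two (nat_lit 1291845697) (nat_lit 8390704) (.two (nat_lit 612368399) (nat_lit 1358956061) (.two (nat_lit 75497480) (nat_lit 855642002) (.two (nat_lit 620756997) (nat_lit 4638905661) (.two (nat_lit 41943041) (nat_lit 46523229241) (.two (nat_lit 1048576) (nat_lit 41955029) .nil)))))),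
   .two (nat_lit 889192643) (nat_lit 10343154530) (.two (nat_lit 16777231) (nat_lit 19134417433) (.two (nat_lit 50331656) (nat_lit 1954549642) (.two (nat_lit 184549381) (nat_lit 19134421611) (.two (nat_lit 8388609) (nat_lit 889202355) (.one (nat_lit 1283468931) .nil))))),
   .two (nat_lit 47582281923) (nat_lit 166237045355) (.two (nat_lit 165532401776) (nat_lit 136316214) (.two (nat_lit 19529728024) (nat_lit 142608923) (.two (nat_lit 169869320) (nat_lit 21785218948) (.two (nat_lit 184986632197) (nat_lit 3028294311) (.two (nat_lit 606076929) (nat_lit 1057951) (.two (nat_lit 1048576) (nat_lit 2108667) (.one (nat_lit 4028640992) .nil))))))),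
   .two (nat_lit 47582281923) (nat_lit 9936306815) (.two (nat_lit 3021996097) (nat_lit 1417675618) (.two (nat_lit 21785214991) (nat_lit 11577331161) (.two (nat_lit 4194312) (nat_lit 11611935713) (.two (nat_lit 10504634373) (nat_lit 28690094676) (.two (nat_lit 41943041) (nat_lit 1175463031) (.two (nat_lit 1048576) (nat_lit 46481288966) .nil)))))),
   .two (nat_lit 10007609539) (nat_lit 11610882405) (.two (nat_lit 20737687617) (nat_lit 47582283042) (.two (nat_lit 9940500495) (nat_lit 1411385872) (.two (nat_lit 1276117000) (nat_lit 75502720) (.two (nat_lit 2889875460) (nat_lit 209722119) (.two (nat_lit 4194305) (nat_lit 3028296921) (.two (nat_lit 8388608) (nat_lit 9765399137) (.one (nat_lit 4206402) .nil))))))),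
   .two (nat_lit 47548727491) (nat_lit 218105217) (.two (nat_lit 169869327) (nat_lit 620760963) (.two (nat_lit 2097157) (nat_lit 1929385277) (.two (nat_lit 2097153) (nat_lit 12114208433) (.one (nat_lit 168832793) .nil)))),
   .two (nat_lit 8388803) (nat_lit 13191086275) (.two (nat_lit 8388672) (nat_lit 1410335586) (.two (nat_lit 612368399) (nat_lit 159216832142) (.two (nat_lit 176160776) (nat_lit 4631566439) (.two (nat_lit 176160772) (nat_lit 4631568345) (.two (nat_lit 2097153) (nat_lit 303047659) (.two (nat_lit 2097152) (nat_lit 10510936618) (.one (nat_lit 1060675) .nil))))))),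
   .two (nat_lit 159266111683) (nat_lit 3525312707) (.two (nat_lit 3525312578) (nat_lit 10906239842) (.two (nat_lit 2887778319) (nat_lit 2432698885) (.two (nat_lit 3525312520) (nat_lit 11543777159) (.two (nat_lit 605028357) (nat_lit 21812484715) (.two (nat_lit 4194305) (nat_lit 638591111) (.two (nat_lit 4194304) (nat_lit 156533533114) (.one (nat_lit 2109917) .nil))))))),
   .two (nat_lit 9768534211) (nat_lit 620757350) (.two (nat_lit 16777281) (nat_lit 171969071) (.two (nat_lit 16777224) (nat_lit 1279267891) (.two (nat_lit 16777220) (nat_lit 46477089434) (.two (nat_lit 16777217) (nat_lit 13224650209) (.two (nat_lit 4194304) (nat_lit 37253819533) (.one (nat_lit 2889888186) .nil)))))),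
   .two (nat_lit 10007609539) (nat_lit 303039817) (.two (nat_lit 8388623) (nat_lit 46407880334) (.two (nat_lit 176160776) (nat_lit 20705188249) (.two (nat_lit 11484004357) (nat_lit 183946452527) (.two (nat_lit 41943041) (nat_lit 183946454215) (.two (nat_lit 2097152) (nat_lit 11517569553) (.one (nat_lit 109064654) .nil)))))),
   .two (nat_lit 41943235) (nat_lit 9781117540) (.two (nat_lit 8388675) (nat_lit 166211881244) (.two (nat_lit 612368399) (nat_lit 9766440496) (.two (nat_lit 612368392) (nat_lit 183947499484) (.two (nat_lit 721420292) (nat_lit 276832422) (.two (nat_lit 2097152) (nat_lit 1216359036) (.one (nat_lit 10336874213) .nil)))))),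
   .two (nat_lit 4634706115) (nat_lit 19033752173) (.two (nat_lit 272629824) (nat_lit 183920231750) (.two (nat_lit 272629775) (nat_lit 11517561382) (.two (nat_lit 4194312) (nat_lit 183953790266) (.two (nat_lit 4194305) (nat_lit 37253816460) (.two (nat_lit 1048576) (nat_lit 183848939223) .nil))))),
   .two (nat_lit 843055299) (nat_lit 4027581055) (.two (nat_lit 4601151552) (nat_lit 165525063842) (.two (nat_lit 809500687) (nat_lit 10537142797) (.two (nat_lit 184419352584) (nat_lit 185020191920) (.two (nat_lit 638582789) (nat_lit 10540294155) (.two (nat_lit 8388609) (nat_lit 185002370287) (.two (nat_lit 8388608) (nat_lit 4043321030) .nil)))))),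
   .two (nat_lit 183853121894) (nat_lit 9802089056) (.two (nat_lit 46414168129) (nat_lit 11513365346) (.two (nat_lit 11479810063) (nat_lit 41948339) (.two (nat_lit 8388613) (nat_lit 158146239057) (.two (nat_lit 8388609) (nat_lit 10942949906) (.one (nat_lit 12050247286) .nil))))),
   .two (nat_lit 50331843) (nat_lit 20705182060) (.two (nat_lit 843055171) (nat_lit 19604177763) (.two (nat_lit 184549391) (nat_lit 37314628125) (.two (nat_lit 13203669000) (nat_lit 11010053969) (.two (nat_lit 184989777925) (nat_lit 2936020981) (.two (nat_lit 37748737) (nat_lit 46489675311) (.two (nat_lit 2097152) (nat_lit 1849699702) (.one (nat_lit 4207070) .nil))))))),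
   .two (nat_lit 50331843) (nat_lit 840958313) (.two (nat_lit 83886147) (nat_lit 1916798284) (.two (nat_lit 16777231) (nat_lit 9867103980) (.two (nat_lit 184549384) (nat_lit 3460304781) (.two (nat_lit 2969567237) (nat_lit 156573375211) (.two (nat_lit 16777217) (nat_lit 2323653876) (.two (nat_lit 2097152) (nat_lit 4206137) (.one (nat_lit 4207071) .nil))))))),
   .two (nat_lit 10007609702) (nat_lit 3458204313) (.two (nat_lit 3028287555) (nat_lit 159266113575) (.two (nat_lit 20638072847) (nat_lit 158653746939) (.two (nat_lit 21208498184) (nat_lit 37313582167) (.two (nat_lit 2902458373) (nat_lit 174685428296) (.two (nat_lit 16777217) (nat_lit 20637035211) (.one (nat_lit 16789984) .nil)))))),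
   .two (nat_lit 843055299) (nat_lit 1913652325) (.two (nat_lit 47582281793) (nat_lit 183916038218) (.two (nat_lit 2954887183) (nat_lit 1052084) (.two (nat_lit 3539992584) (nat_lit 3460306965) (.two (nat_lit 2902458372) (nat_lit 47547686659) (.two (nat_lit 34603009) (nat_lit 2107489) (.two (nat_lit 4194304) (nat_lit 1060410) (.one (nat_lit 1060934) .nil))))))),
   .two (nat_lit 10504634563) (nat_lit 11479811125) (.two (nat_lit 47563407471) (nat_lit 166237046085) (.two (nat_lit 46409973775) (nat_lit 2921336307) (.two (nat_lit 9766436872) (nat_lit 9768539231) (.two (nat_lit 2887778308) (nat_lit 272637871) (.two (nat_lit 4194305) (nat_lit 612379160) (.one (nat_lit 16789985) .nil)))))),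
   .two (nat_lit 117440870) (nat_lit 772801239) (.two (nat_lit 11559501889) (nat_lit 166129042771) (.two (nat_lit 11559501839) (nat_lit 1276120978) (.two (nat_lit 705691652) (nat_lit 18941483888) (.two (nat_lit 16777216) (nat_lit 158176652994) .nil)))),
   .two (nat_lit 1947205827) (nat_lit 339739268) (.two (nat_lit 2961178690) (nat_lit 3525313903) (.two (nat_lit 2961178639) (nat_lit 174686472749) (.two (nat_lit 705691656) (nat_lit 159257727999) (.two (nat_lit 8388613) (nat_lit 11513372289) (.two (nat_lit 8388609) (nat_lit 638592583) (.two (nat_lit 2097152) (nat_lit 156573379287) (.one (nat_lit 1176514926) .nil))))))),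
   .two (nat_lit 159251431619) (nat_lit 243270272) (.two (nat_lit 11551113282) (nat_lit 183845782892) (.two (nat_lit 203423759) (nat_lit 37253811672) (.two (nat_lit 169869320) (nat_lit 1417679962) (.two (nat_lit 2954887173) (nat_lit 2990546864) (.two (nat_lit 2097153) (nat_lit 158146241544) (.two (nat_lit 1048576) (nat_lit 708848184) (.one (nat_lit 708849405) .nil))))))),
   .two (nat_lit 4647289027) (nat_lit 2894070417) (.two (nat_lit 318767170) (nat_lit 20644366849) (.two (nat_lit 2887778312) (nat_lit 158091713110) (.two (nat_lit 2097153) (nat_lit 813704148) (.two (nat_lit 1048576) (nat_lit 2988453557) .nil)))),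
   .two (nat_lit 620757187) (nat_lit 203424397) (.two (nat_lit 16777280) (nat_lit 773851241) (.two (nat_lit 10370416655) (nat_lit 10955524613) (.two (nat_lit 9948889096) (nat_lit 158144139140) (.two (nat_lit 183845781508) (nat_lit 156581763819) (.two (nat_lit 156364701697) (nat_lit 19545465808) (.two (nat_lit 1048576) (nat_lit 46489676764) (.one (nat_lit 16789986) .nil))))))),
   .two (nat_lit 11479810405) (nat_lit 117441378) (.two (nat_lit 11479810063) (nat_lit 21793606161) (.two (nat_lit 606076936) (nat_lit 46992988754) (.two (nat_lit 37748737) (nat_lit 285222384) (.two (nat_lit 4194304) (nat_lit 10351554180) .nil)))),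
   .two (nat_lit 1384120515) (nat_lit 9899607338) (.two (nat_lit 184993972239) (nat_lit 68160959) (.two (nat_lit 1745879048) (nat_lit 21785218948) (.two (nat_lit 183845781508) (nat_lit 4605352627) (.two (nat_lit 612368385) (nat_lit 47547688136) (.two (nat_lit 4194304) (nat_lit 3457167038) .nil))))),
   .two (nat_lit 8388803) (nat_lit 37316723049) (.two (nat_lit 276824129) (nat_lit 13224641378) (.two (nat_lit 276824079) (nat_lit 13224642077) (.two (nat_lit 41943048) (nat_lit 740300725) (.two (nat_lit 2097157) (nat_lit 157038941506) (.two (nat_lit 2097155) (nat_lit 174688574057) (.two (nat_lit 2097153) (nat_lit 1413489599) (.two (nat_lit 1048576) (nat_lit 12115257860) (.one (nat_lit 12114210634) .nil)))))))),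
   .two (nat_lit 47555018947) (nat_lit 156367848144) (.two (nat_lit 9768534083) (nat_lit 1795162978) (.two (nat_lit 11479810063) (nat_lit 20745030151) (.two (nat_lit 11479810056) (nat_lit 11484008335) (.two (nat_lit 13191086085) (nat_lit 47555024183) (.two (nat_lit 37748737) (nat_lit 11484011375) (.two (nat_lit 4194304) (nat_lit 19134424751) (.one (nat_lit 8400722) .nil))))))),
   .two (nat_lit 47548727491) (nat_lit 156481093993) (.two (nat_lit 1291845699) (nat_lit 11610882914) (.two (nat_lit 4194319) (nat_lit 620758557) (.two (nat_lit 4194312) (nat_lit 46992987172) (.two (nat_lit 4194308) (nat_lit 34608562) (.two (nat_lit 4194308) (nat_lit 34608562) (.two (nat_lit 4194305) (nat_lit 19142812607) (.two (nat_lit 1048576) (nat_lit 46978312782) (.one (nat_lit 1343236884) .nil)))))))),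
   .two (nat_lit 608174438) (nat_lit 12129927206) (.two (nat_lit 20652753508) (nat_lit 166196150368) (.two (nat_lit 9766436972) (nat_lit 21811429599) (.two (nat_lit 3531604006) (nat_lit 184987682081) (.two (nat_lit 276824079) (nat_lit 21778924024) (.two (nat_lit 276824079) (nat_lit 1948255885) (.two (nat_lit 8388616) (nat_lit 9765389965) (.two (nat_lit 8388616) (nat_lit 184986636414) (.two (nat_lit 8388612) (nat_lit 184986636414) (.two (nat_lit 8388612) (nat_lit 184986636414) (.two (nat_lit 8388609) (nat_lit 184986636414) (.two (nat_lit 4194304) (nat_lit 2108142) (.one (nat_lit 2109267) .nil)))))))))))),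
   .two (nat_lit 12117344451) (nat_lit 4605346149) (.two (nat_lit 4605345857) (nat_lit 4634707232) (.two (nat_lit 272629775) (nat_lit 1384124054) (.two (nat_lit 4605345800) (nat_lit 13191087112) (.two (nat_lit 13191086088) (nat_lit 9772731076) (.two (nat_lit 4194308) (nat_lit 10343160507) (.two (nat_lit 4194305) (nat_lit 679486702) (.two (nat_lit 8388608) (nat_lit 4205295) (.one (nat_lit 1216360170) .nil)))))))),
   .two (nat_lit 2954887363) (nat_lit 675283690) (.two (nat_lit 272629824) (nat_lit 772800735) (.two (nat_lit 4638900289) (nat_lit 12117344715) (.two (nat_lit 4601151503) (nat_lit 2316306969) (.two (nat_lit 46414168072) (nat_lit 174685425549) (.two (nat_lit 2097157) (nat_lit 166136384293) (.two (nat_lit 3531603973) (nat_lit 3558869798) (.two (nat_lit 156372041729) (nat_lit 1913659545) (.two (nat_lit 2097152) (nat_lit 3557829997) (.one (nat_lit 806363451) .nil))))))))),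
   .two (nat_lit 101712067) (nat_lit 1277165771) (.two (nat_lit 276824129) (nat_lit 174688568655) (.two (nat_lit 8388623) (nat_lit 184986634750) (.two (nat_lit 8388616) (nat_lit 337645446) (.two (nat_lit 8388612) (nat_lit 705698458) (.two (nat_lit 8388609) (nat_lit 1962943479) (.two (nat_lit 1048576) (nat_lit 2108144) (.one (nat_lit 8401364) .nil))))))),
   .two (nat_lit 101712067) (nat_lit 157036839785) (.two (nat_lit 276824129) (nat_lit 174688568655) (.two (nat_lit 8388623) (nat_lit 184986634750) (.two (nat_lit 8388616) (nat_lit 337645446) (.two (nat_lit 8388612) (nat_lit 705698458) (.two (nat_lit 8388609) (nat_lit 1962943479) (.two (nat_lit 8388608) (nat_lit 13222551876) (.one (nat_lit 8401364) .nil))))))),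
   .two (nat_lit 101712067) (nat_lit 83886175) (.two (nat_lit 185020186690) (nat_lit 183861511513) (.two (nat_lit 11543773199) (nat_lit 645926317) (.two (nat_lit 1358954504) (nat_lit 157035794313) (.two (nat_lit 721420292) (nat_lit 235936341) (.two (nat_lit 50331649) (nat_lit 158150435948) (.two (nat_lit 8388608) (nat_lit 1055712) (.one (nat_lit 1060693) .nil))))))),
   .two (nat_lit 3525312707) (nat_lit 10942939234) (.two (nat_lit 3525312578) (nat_lit 1346372953) (.two (nat_lit 3460300815) (nat_lit 20705184266) (.two (nat_lit 157038936072) (nat_lit 2953842568) (.two (nat_lit 9933160453) (nat_lit 639638089) (.two (nat_lit 4194305) (nat_lit 2349867958) (.two (nat_lit 2097152) (nat_lit 101721838) (.one (nat_lit 1059614) .nil))))))),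
   .two (nat_lit 12114198723) (nat_lit 11614028142) (.two (nat_lit 4028629057) (nat_lit 4601152847) (.two (nat_lit 12050235407) (nat_lit 2987396764) (.two (nat_lit 19599982600) (nat_lit 1411387276) (.two (nat_lit 171966469) (nat_lit 639638089) (.two (nat_lit 4194305) (nat_lit 68166690) (.two (nat_lit 1048576) (nat_lit 807411970) (.one (nat_lit 169881718) .nil))))))),
   .two (nat_lit 13203669349) (nat_lit 46514831559) (.two (nat_lit 16777236) (nat_lit 156539816334) (.two (nat_lit 4613734466) (nat_lit 9806283216) (.two (nat_lit 4613734466) (nat_lit 10343153889) (.two (nat_lit 11551113231) (nat_lit 1392512444) (.two (nat_lit 11551113224) (nat_lit 285215523) (.two (nat_lit 11551113224) (nat_lit 654313107) (.two (nat_lit 270532613) (nat_lit 13195287166) (.two (nat_lit 34603009) (nat_lit 1277175238) (.two (nat_lit 1048576) (nat_lit 1176510722) (.one (nat_lit 2109940) .nil)))))))))),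
   .two (nat_lit 16777411) (nat_lit 2887778399) (.two (nat_lit 16777280) (nat_lit 11517560143) (.two (nat_lit 8388623) (nat_lit 10336863773) (.two (nat_lit 8388616) (nat_lit 12148805512) (.two (nat_lit 8388612) (nat_lit 874516533) (.two (nat_lit 8388612) (nat_lit 2954890023) (.two (nat_lit 41943041) (nat_lit 47582290870) (.two (nat_lit 8388608) (nat_lit 840967951) (.one (nat_lit 2109271) .nil)))))))),
   .two (nat_lit 306184387) (nat_lit 11578376391) (.two (nat_lit 306184257) (nat_lit 713033039) (.two (nat_lit 813694991) (nat_lit 13224644160) (.two (nat_lit 4605345800) (nat_lit 183913942920) (.two (nat_lit 8388612) (nat_lit 156969734194) (.two (nat_lit 8388612) (nat_lit 13188993077) (.two (nat_lit 41943041) (nat_lit 4028638134) (.two (nat_lit 8388608) (nat_lit 304099159) (.one (nat_lit 2109272) .nil)))))))),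
   .two (nat_lit 11543773379) (nat_lit 343933684) (.two (nat_lit 46414168130) (nat_lit 10000270727) (.two (nat_lit 169869327) (nat_lit 4605347357) (.two (nat_lit 169869320) (nat_lit 28798095246) (.two (nat_lit 169869316) (nat_lit 158653747324) (.two (nat_lit 2097157) (nat_lit 4638903072) (.two (nat_lit 9781116929) (nat_lit 605038002) (.two (nat_lit 1048576) (nat_lit 28697438676) (.one (nat_lit 8401398) .nil)))))))),
   .two (nat_lit 2954887363) (nat_lit 13224641136) (.two (nat_lit 159232557164) (nat_lit 739246946) (.two (nat_lit 159232557071) (nat_lit 46977255943) (.two (nat_lit 16777224) (nat_lit 156532477842) (.two (nat_lit 16777220) (nat_lit 2920287013) (.two (nat_lit 16777220) (nat_lit 11577330464) (.two (nat_lit 16777217) (nat_lit 28760349554) (.two (nat_lit 4194304) (nat_lit 10000280268) (.one (nat_lit 1410347581) .nil)))))))),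
   .two (nat_lit 41943235) (nat_lit 1745879235) (.two (nat_lit 8388672) (nat_lit 705692115) (.two (nat_lit 12047089679) (nat_lit 1417678613) (.two (nat_lit 75497480) (nat_lit 11577332790) (.two (nat_lit 713031684) (nat_lit 10436483755) (.two (nat_lit 612368385) (nat_lit 184416216103) (.two (nat_lit 2097152) (nat_lit 184423557846) (.one (nat_lit 1060698) .nil))))))),
   .two (nat_lit 612368579) (nat_lit 19545457000) (.two (nat_lit 16777283) (nat_lit 1178600290) (.two (nat_lit 8388623) (nat_lit 156367847928) (.two (nat_lit 184549391) (nat_lit 4634706890) (.two (nat_lit 183848927240) (nat_lit 21214794793) (.two (nat_lit 176160773) (nat_lit 11580478893) (.two (nat_lit 16777219) (nat_lit 156539821835) (.two (nat_lit 8388609) (nat_lit 183962183433) (.two (nat_lit 16777216) (nat_lit 171977453) (.one (nat_lit 4206427) .nil))))))))),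
   .two (nat_lit 843055299) (nat_lit 9798943387) (.two (nat_lit 343933042) (nat_lit 20637025122) (.two (nat_lit 4605345807) (nat_lit 183912892935) (.two (nat_lit 41943048) (nat_lit 159216833662) (.two (nat_lit 8388612) (nat_lit 9814676974) (.two (nat_lit 8388611) (nat_lit 2987399804) (.two (nat_lit 41943041) (nat_lit 4201364) (.two (nat_lit 16777216) (nat_lit 158176652617) (.one (nat_lit 1060700) .nil)))))))),
   .two (nat_lit 620757187) (nat_lit 34603675) (.two (nat_lit 47555018866) (nat_lit 18925749090) (.two (nat_lit 176160783) (nat_lit 158176643591) (.two (nat_lit 176160776) (nat_lit 1053663) (.two (nat_lit 20644364293) (nat_lit 3003128724) (.two (nat_lit 8388613) (nat_lit 19093525826) (.two (nat_lit 156365750273) (nat_lit 1055637) (.two (nat_lit 2097152) (nat_lit 2349870409) (.one (nat_lit 1061369) .nil)))))))),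
   .two (nat_lit 37748831) (nat_lit 2894070123) (.two (nat_lit 1384120677) (nat_lit 159216828615) (.two (nat_lit 310378562) (nat_lit 843056465) (.two (nat_lit 4194319) (nat_lit 183853124096) (.two (nat_lit 4194312) (nat_lit 183853125510) (.two (nat_lit 4194308) (nat_lit 19033756988) (.two (nat_lit 4194305) (nat_lit 1376789528) (.two (nat_lit 8388608) (nat_lit 4202770) (.one (nat_lit 4207098) .nil)))))))),
   .two (nat_lit 37320917349) (nat_lit 46407876706) (.two (nat_lit 158158815297) (nat_lit 2350907856) (.two (nat_lit 158158815297) (nat_lit 174686470369) (.two (nat_lit 47548727311) (nat_lit 20707282435) (.two (nat_lit 37748744) (nat_lit 1291847315) (.two (nat_lit 169869316) (nat_lit 1279269449) (.two (nat_lit 612368385) (nat_lit 10001327705) (.two (nat_lit 2097152) (nat_lit 9802096959) (.one (nat_lit 16789342) .nil)))))))),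
   .two (nat_lit 156567076959) (nat_lit 1916797123) (.two (nat_lit 1916797123) (nat_lit 47547678919) (.two (nat_lit 12117344321) (nat_lit 11543774543) (.two (nat_lit 2887778319) (nat_lit 183949594176) (.two (nat_lit 1913651208) (nat_lit 13188992904) (.two (nat_lit 4194306) (nat_lit 184417263657) (.two (nat_lit 739246085) (nat_lit 156971830054) (.two (nat_lit 34603009) (nat_lit 19027469238) (.two (nat_lit 1048576) (nat_lit 2109023) (.one (nat_lit 28691149301) .nil))))))))),
   .two (nat_lit 754974818) (nat_lit 20637026067) (.two (nat_lit 673185902) (nat_lit 10369368528) (.two (nat_lit 673185902) (nat_lit 28757197025) (.two (nat_lit 47548727311) (nat_lit 19545459227) (.two (nat_lit 169869320) (nat_lit 1761611655) (.two (nat_lit 169869316) (nat_lit 158075984539) (.two (nat_lit 606076929) (nat_lit 157035799740) (.two (nat_lit 16777216) (nat_lit 2416977661) (.one (nat_lit 1061372) .nil)))))))),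
   .two (nat_lit 13191086275) (nat_lit 46514831557) (.two (nat_lit 4601151554) (nat_lit 183920231792) (.two (nat_lit 4601151503) (nat_lit 185027530311) (.two (nat_lit 184423546888) (nat_lit 13191090089) (.two (nat_lit 11484004357) (nat_lit 20740840122) (.two (nat_lit 4194305) (nat_lit 156372051127) (.two (nat_lit 4194304) (nat_lit 2107079) (.one (nat_lit 8401366) .nil))))))),
   .two (nat_lit 339738719) (nat_lit 157043130996) (.two (nat_lit 13191086275) (nat_lit 183953785029) (.two (nat_lit 4601151554) (nat_lit 2894070628) (.two (nat_lit 4601151503) (nat_lit 28697430555) (.two (nat_lit 4601151496) (nat_lit 166237048723) (.two (nat_lit 4194308) (nat_lit 21785221816) (.two (nat_lit 4194305) (nat_lit 20644373743) (.two (nat_lit 8388608) (nat_lit 2105622) (.one (nat_lit 8401367) .nil)))))))),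
   .two (nat_lit 339738721) (nat_lit 21818770032) (.two (nat_lit 4601151554) (nat_lit 2894070628) (.two (nat_lit 4601151503) (nat_lit 28697430555) (.two (nat_lit 4601151496) (nat_lit 166237048723) (.two (nat_lit 4194308) (nat_lit 21785221816) (.two (nat_lit 4194305) (nat_lit 20644373743) (.two (nat_lit 8388608) (nat_lit 3527421525) (.one (nat_lit 8401367) .nil))))))),
   .two (nat_lit 41943235) (nat_lit 9869197510) (.two (nat_lit 8388672) (nat_lit 159217877858) (.two (nat_lit 8388623) (nat_lit 184987683346) (.two (nat_lit 8388616) (nat_lit 19094572941) (.two (nat_lit 8388612) (nat_lit 4632615638) (.two (nat_lit 156372041729) (nat_lit 11578385438) (.two (nat_lit 2097152) (nat_lit 4202775) (.one (nat_lit 2109912) .nil))))))),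
   .two (nat_lit 4638900319) (nat_lit 47596963831) (.two (nat_lit 171966482) (nat_lit 28691137378) (.two (nat_lit 285212709) (nat_lit 1948256283) (.two (nat_lit 310378562) (nat_lit 21223178465) (.two (nat_lit 37748751) (nat_lit 156372045479) (.two (nat_lit 272629768) (nat_lit 9967768679) (.two (nat_lit 4194308) (nat_lit 20638079560) (.two (nat_lit 2097153) (nat_lit 11626620107) (.two (nat_lit 8388608) (nat_lit 157036851039) (.one (nat_lit 8401405) .nil))))))))),
   .two (nat_lit 880804035) (nat_lit 156367847619) (.two (nat_lit 8388672) (nat_lit 46523220836) (.two (nat_lit 8388623) (nat_lit 1795164699) (.two (nat_lit 8388616) (nat_lit 19042144147) (.two (nat_lit 8388612) (nat_lit 1761614520) (.two (nat_lit 8388609) (nat_lit 165540799727) (.two (nat_lit 16777216) (nat_lit 209727061) (.one (nat_lit 318779863) .nil))))))),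
   .two (nat_lit 8388803) (nat_lit 10552869481) (.two (nat_lit 318767169) (nat_lit 310380064) (.two (nat_lit 8388672) (nat_lit 158176641487) (.two (nat_lit 8388672) (nat_lit 158176641485) (.two (nat_lit 8388623) (nat_lit 156365753973) (.two (nat_lit 50331656) (nat_lit 37313582050) (.two (nat_lit 183845781508) (nat_lit 2921339470) (.two (nat_lit 156364701697) (nat_lit 3472892874) (.two (nat_lit 1048576) (nat_lit 2107081) (.one (nat_lit 2109283) .nil))))))))),
   .two (nat_lit 184986632550) (nat_lit 2323644620) (.two (nat_lit 21777875011) (nat_lit 2323645735) (.two (nat_lit 1350565903) (nat_lit 3557820935) (.two (nat_lit 1350565896) (nat_lit 10369372039) (.two (nat_lit 713031684) (nat_lit 10503592529) (.two (nat_lit 612368385) (nat_lit 166132196553) (.two (nat_lit 1048576) (nat_lit 16787146) (.one (nat_lit 1061337) .nil))))))),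
   .two (nat_lit 4605345987) (nat_lit 156367847619) (.two (nat_lit 4601151552) (nat_lit 10376709420) (.two (nat_lit 8388623) (nat_lit 184989781495) (.two (nat_lit 13191086088) (nat_lit 9915338643) (.two (nat_lit 183848927236) (nat_lit 16785450) (.two (nat_lit 16777217) (nat_lit 4204166) (.two (nat_lit 4194304) (nat_lit 16787147) (.one (nat_lit 16790014) .nil))))))),
   .two (nat_lit 41943235) (nat_lit 876609634) (.two (nat_lit 4632608786) (nat_lit 4634707238) (.two (nat_lit 343932995) (nat_lit 46477082859) (.two (nat_lit 813694991) (nat_lit 28760347034) (.two (nat_lit 12117344264) (nat_lit 28764540819) (.two (nat_lit 47548727301) (nat_lit 46409980500) (.two (nat_lit 2097153) (nat_lit 608183430) (.two (nat_lit 4194304) (nat_lit 2105624) (.one (nat_lit 2109284) .nil)))))))),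
   .two (nat_lit 11577327711) (nat_lit 9869197933) (.two (nat_lit 2889875476) (nat_lit 2921334124) (.two (nat_lit 13191086115) (nat_lit 19026412890) (.two (nat_lit 12147753025) (nat_lit 19532873950) (.two (nat_lit 159217877007) (nat_lit 2349862400) (.two (nat_lit 1913651208) (nat_lit 28089257865) (.two (nat_lit 34603013) (nat_lit 156468518920) (.two (nat_lit 2097153) (nat_lit 47547687944) (.two (nat_lit 2097152) (nat_lit 19529736447) (.one (nat_lit 1344286879) .nil))))))))),
   .two (nat_lit 3028287583) (nat_lit 158144135772) (.two (nat_lit 13187940555) (nat_lit 20644364654) (.two (nat_lit 4605345827) (nat_lit 9900655962) (.two (nat_lit 156465365108) (nat_lit 8389080) (.two (nat_lit 47555018767) (nat_lit 166230754846) (.two (nat_lit 159217877000) (nat_lit 19537072009) (.two (nat_lit 270532613) (nat_lit 1317019656) (.two (nat_lit 34603009) (nat_lit 12115256328) (.two (nat_lit 1048576) (nat_lit 8398540) (.one (nat_lit 638595231) .nil))))))))),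
   .two (nat_lit 13228834911) (nat_lit 156465365616) (.two (nat_lit 2894069778) (nat_lit 166129042832) (.two (nat_lit 9802088556) (nat_lit 46977253834) (.two (nat_lit 46409973874) (nat_lit 13228835040) (.two (nat_lit 13195280399) (nat_lit 156566031992) (.two (nat_lit 157038936072) (nat_lit 11006907722) (.two (nat_lit 9940500488) (nat_lit 19093524619) (.two (nat_lit 183845781506) (nat_lit 4203393) (.two (nat_lit 46409973764) (nat_lit 11006907722) (.two (nat_lit 9765388289) (nat_lit 8398471) (.two (nat_lit 4194304) (nat_lit 1059574) (.one (nat_lit 1060709) .nil))))))))))),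
   .two (nat_lit 1048784) (nat_lit 11551113412) (.two (nat_lit 159266111509) (nat_lit 19529730124) (.two (nat_lit 157051519013) (nat_lit 158176641249) (.two (nat_lit 1417674773) (nat_lit 3524267500) (.two (nat_lit 10519314447) (nat_lit 156532474089) (.two (nat_lit 218103816) (nat_lit 310382719) (.two (nat_lit 2902458372) (nat_lit 13221501524) (.two (nat_lit 41943041) (nat_lit 174685430711) (.two (nat_lit 16777216) (nat_lit 1057049) (.one (nat_lit 1060710) .nil))))))))),
   .two (nat_lit 1350565983) (nat_lit 156364702324) (.two (nat_lit 176160787) (nat_lit 269485381) (.two (nat_lit 21777875060) (nat_lit 1384120784) (.two (nat_lit 176160878) (nat_lit 184431935949) (.two (nat_lit 75497487) (nat_lit 28757200411) (.two (nat_lit 8388614) (nat_lit 10436483198) (.two (nat_lit 75497480) (nat_lit 156465366675) (.two (nat_lit 2902458372) (nat_lit 13221501524) (.two (nat_lit 8388609) (nat_lit 28086117494) (.two (nat_lit 16777216) (nat_lit 166129052454) (.one (nat_lit 8398593) .nil)))))))))),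
   .two (nat_lit 11543773379) (nat_lit 142606531) (.two (nat_lit 11543773248) (nat_lit 156466414434) (.two (nat_lit 2961178639) (nat_lit 10538192501) (.two (nat_lit 11543773192) (nat_lit 3458207623) (.two (nat_lit 705691652) (nat_lit 47548734039) (.two (nat_lit 50331649) (nat_lit 183846839402) (.two (nat_lit 2097152) (nat_lit 8399607) (.one (nat_lit 1061338) .nil))))))),
   .two (nat_lit 4601151683) (nat_lit 117440607) (.two (nat_lit 46523220078) (nat_lit 46980399563) (.two (nat_lit 306184258) (nat_lit 50331870) (.two (nat_lit 9781116943) (nat_lit 13224641480) (.two (nat_lit 809500687) (nat_lit 21827158248) (.two (nat_lit 218103816) (nat_lit 156468513576) (.two (nat_lit 20637024258) (nat_lit 4203394) (.two (nat_lit 2969567237) (nat_lit 156468513576) (.two (nat_lit 156364701697) (nat_lit 16784279) (.two (nat_lit 1048576) (nat_lit 16784361) (.one (nat_lit 16789351) .nil)))))))))),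
   .two (nat_lit 839909474) (nat_lit 2353005191) (.two (nat_lit 806354962) (nat_lit 2921334160) (.two (nat_lit 19093520492) (nat_lit 156969730512) (.two (nat_lit 68157548) (nat_lit 37314625761) (.two (nat_lit 19599982607) (nat_lit 156466417200) (.two (nat_lit 101711880) (nat_lit 2921338187) (.two (nat_lit 2887778312) (nat_lit 37752890) (.two (nat_lit 166130089986) (nat_lit 839918465) (.two (nat_lit 11476664324) (nat_lit 2921338187) (.two (nat_lit 37748737) (nat_lit 20638082695) (.two (nat_lit 1048576) (nat_lit 20640180982) (.one (nat_lit 20640182117) .nil))))))))))),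
   .two (nat_lit 12147753318) (nat_lit 47584378919) (.two (nat_lit 4605345905) (nat_lit 239075795) (.two (nat_lit 46414168079) (nat_lit 2420117234) (.two (nat_lit 10369368072) (nat_lit 9869197824) (.two (nat_lit 3464495112) (nat_lit 166232853285) (.two (nat_lit 47555018757) (nat_lit 166232853285) (.two (nat_lit 156372041729) (nat_lit 184986637818) (.two (nat_lit 2097152) (nat_lit 1060449) (.one (nat_lit 1058565) .nil)))))))),
   .two (nat_lit 11543773379) (nat_lit 239076656) (.two (nat_lit 169869377) (nat_lit 174692764167) (.two (nat_lit 169869327) (nat_lit 20640173959) (.two (nat_lit 169869320) (nat_lit 13191092842) (.two (nat_lit 2894069765) (nat_lit 675291274) (.two (nat_lit 2097153) (nat_lit 672147900) (.two (nat_lit 1048576) (nat_lit 2894081714) (.one (nat_lit 174692774400) .nil))))))),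
   .two (nat_lit 21811429571) (nat_lit 174759871834) (.two (nat_lit 4605345856) (nat_lit 13221497358) (.two (nat_lit 203423759) (nat_lit 47547683807) (.two (nat_lit 705691656) (nat_lit 185027532093) (.two (nat_lit 12121538565) (nat_lit 2920292491) (.two (nat_lit 2097153) (nat_lit 21818780168) (.two (nat_lit 2097152) (nat_lit 4598017676) (.one (nat_lit 638595588) .nil))))))),
   .two (nat_lit 9768534211) (nat_lit 9881781090) (.two (nat_lit 11479810115) (nat_lit 12129929745) (.two (nat_lit 75497487) (nat_lit 19545460615) (.two (nat_lit 75497480) (nat_lit 158179793493) (.two (nat_lit 612368389) (nat_lit 1782587528) (.two (nat_lit 41943041) (nat_lit 174688577195) (.two (nat_lit 4194304) (nat_lit 687877761) (.one (nat_lit 37761537) .nil))))))),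
   .two (nat_lit 9948889283) (nat_lit 11618222946) (.two (nat_lit 2969567297) (nat_lit 19033754153) (.two (nat_lit 713031695) (nat_lit 13203674429) (.two (nat_lit 184549381) (nat_lit 2894076783) (.two (nat_lit 50331649) (nat_lit 2961188532) (.two (nat_lit 16777216) (nat_lit 645934726) (.one (nat_lit 156573381120) .nil)))))),
   .two (nat_lit 1376780483) (nat_lit 185035916660) (.two (nat_lit 1191182444) (nat_lit 1376781853) (.two (nat_lit 9781116943) (nat_lit 1913656287) (.two (nat_lit 1343225864) (nat_lit 16782646) (.two (nat_lit 11559501829) (nat_lit 46507499659) (.two (nat_lit 605028353) (nat_lit 1291856405) (.two (nat_lit 1048576) (nat_lit 2902470267) (.one (nat_lit 168833538) .nil))))))),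
   .two (nat_lit 285212867) (nat_lit 19599983459) (.two (nat_lit 285212736) (nat_lit 9802090013) (.two (nat_lit 285212687) (nat_lit 9869201294) (.two (nat_lit 809500680) (nat_lit 16784238) (.two (nat_lit 50331649) (nat_lit 71313851) (.two (nat_lit 4194304) (nat_lit 159266123385) (.one (nat_lit 16790026) .nil)))))),
   .two (nat_lit 654311619) (nat_lit 876610906) (.two (nat_lit 4601151552) (nat_lit 46414170642) (.two (nat_lit 9781116943) (nat_lit 1212157827) (.two (nat_lit 809500680) (nat_lit 18941482299) (.two (nat_lit 272629765) (nat_lit 218112158) (.two (nat_lit 612368385) (nat_lit 318777843) (.two (nat_lit 8388608) (nat_lit 9814683276) (.one (nat_lit 285225480) .nil))))))),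
   .two (nat_lit 2969567427) (nat_lit 28089255278) (.two (nat_lit 12620660802) (nat_lit 156465367570) (.two (nat_lit 285212687) (nat_lit 9869201294) (.two (nat_lit 4194312) (nat_lit 11626616120) (.two (nat_lit 171966469) (nat_lit 654319768) (.two (nat_lit 37748737) (nat_lit 9881791001) (.two (nat_lit 1048576) (nat_lit 4206299) (.one (nat_lit 16790027) .nil))))))),
   .two (nat_lit 809500867) (nat_lit 1283458417) (.two (nat_lit 606077036) (nat_lit 20644365854) (.two (nat_lit 37748751) (nat_lit 10007614774) (.two (nat_lit 4194308) (nat_lit 184423555219) (.two (nat_lit 2097153) (nat_lit 608184761) (.two (nat_lit 4194304) (nat_lit 3022008018) (.one (nat_lit 18928906754) .nil)))))),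
   .two (nat_lit 880804035) (nat_lit 50332970) (.two (nat_lit 184549484) (nat_lit 880805405) (.two (nat_lit 176160783) (nat_lit 9814676458) (.two (nat_lit 176160776) (nat_lit 21793610339) (.two (nat_lit 16777221) (nat_lit 47555022974) (.two (nat_lit 184549380) (nat_lit 1417680299) (.two (nat_lit 620756993) (nat_lit 8394226) (.two (nat_lit 8388608) (nat_lit 16789301) (.one (nat_lit 8401452) .nil)))))))),
   .two (nat_lit 117440579) (nat_lit 46510637288) (.two (nat_lit 2889875461) (nat_lit 2961186954) (.one (nat_lit 183853133678) .nil)),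
   .two (nat_lit 183853121893) (nat_lit 104857823) (.two (nat_lit 183853121602) (nat_lit 11580475915) (.two (nat_lit 183853121551) (nat_lit 20707282839) (.two (nat_lit 3527409672) (nat_lit 9772735057) (.two (nat_lit 272629765) (nat_lit 13195283274) (.two (nat_lit 4194305) (nat_lit 11584677548) (.two (nat_lit 8388608) (nat_lit 156367859472) (.one (nat_lit 8398604) .nil))))))),
   .two (nat_lit 2921332832) (nat_lit 19134416197) (.two (nat_lit 2921332774) (nat_lit 19134416197) (.two (nat_lit 4028629059) (nat_lit 156971829778) (.two (nat_lit 183853121551) (nat_lit 4199437) (.two (nat_lit 641728520) (nat_lit 12618570321) (.two (nat_lit 2889875460) (nat_lit 10907293165) (.two (nat_lit 2889875460) (nat_lit 1317017011) (.two (nat_lit 2097153) (nat_lit 13191096960) (.two (nat_lit 2097152) (nat_lit 2319462170) (.one (nat_lit 8401455) .nil))))))))),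
   .two (nat_lit 1753219267) (nat_lit 185020187490) (.two (nat_lit 185020186690) (nat_lit 1753220637) (.two (nat_lit 11543773199) (nat_lit 3565162376) (.two (nat_lit 11543773192) (nat_lit 780145976) (.two (nat_lit 705691652) (nat_lit 184993976446) (.two (nat_lit 705691652) (nat_lit 11484008571) (.two (nat_lit 34603009) (nat_lit 1384130220) (.two (nat_lit 1048576) (nat_lit 8398582) (.one (nat_lit 8401456) .nil)))))))),
   .two (nat_lit 2097357) (nat_lit 171967333) (.two (nat_lit 11546919110) (nat_lit 136316278) (.two (nat_lit 46980399171) (nat_lit 183846832649) (.two (nat_lit 3527409679) (nat_lit 184417259404) (.two (nat_lit 203423752) (nat_lit 2923436815) (.two (nat_lit 2954887173) (nat_lit 641734056) (.two (nat_lit 2887778308) (nat_lit 641734055) (.two (nat_lit 2097153) (nat_lit 4205276) (.two (nat_lit 2097152) (nat_lit 156367859472) (.one (nat_lit 4207153) .nil))))))))),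
   .two (nat_lit 10538189666) (nat_lit 2424307914) (.two (nat_lit 3558867010) (nat_lit 243271199) (.two (nat_lit 20644364324) (nat_lit 1377831430) (.two (nat_lit 20644364303) (nat_lit 46978307184) (.two (nat_lit 10504634376) (nat_lit 156372048655) (.two (nat_lit 2887778308) (nat_lit 158653748647) (.two (nat_lit 169869315) (nat_lit 28798098288) (.two (nat_lit 2097153) (nat_lit 1384130220) (.two (nat_lit 8388608) (nat_lit 28087168877) (.one (nat_lit 28087168877) .nil))))))))),
   .two (nat_lit 1392508966) (nat_lit 156539815237) (.two (nat_lit 9948889155) (nat_lit 28093449874) (.two (nat_lit 75497487) (nat_lit 9881784197) (.two (nat_lit 75497480) (nat_lit 156380435769) (.two (nat_lit 28758245381) (nat_lit 13203673212) (.two (nat_lit 9766436865) (nat_lit 3531613873) (.two (nat_lit 2097152) (nat_lit 8400695) (.one (nat_lit 8398605) .nil))))))),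
   .two (nat_lit 11593056456) (nat_lit 4194774) (.two (nat_lit 1392508966) (nat_lit 3464495562) (.two (nat_lit 16777253) (nat_lit 184993973790) (.two (nat_lit 166132187170) (nat_lit 8391224) (.two (nat_lit 75497487) (nat_lit 9881784197) (.two (nat_lit 75497480) (nat_lit 9814676795) (.two (nat_lit 612368389) (nat_lit 318771324) (.two (nat_lit 9781116933) (nat_lit 339745650) (.two (nat_lit 41943041) (nat_lit 47550834353) (.two (nat_lit 4194304) (nat_lit 8400695) (.one (nat_lit 8401458) .nil)))))))))),
   .two (nat_lit 11559502019) (nat_lit 37253808591) (.two (nat_lit 50332245) (nat_lit 10007609569) (.two (nat_lit 50331715) (nat_lit 21785216541) (.two (nat_lit 713031695) (nat_lit 11559505797) (.two (nat_lit 713031688) (nat_lit 28806485304) (.two (nat_lit 41943045) (nat_lit 166144774267) (.two (nat_lit 41943045) (nat_lit 117446053) (.two (nat_lit 41943041) (nat_lit 158158826002) (.two (nat_lit 8388608) (nat_lit 16788246) (.one (nat_lit 8401460) .nil))))))))),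
   .two (nat_lit 16777583) (nat_lit 880804065) (.two (nat_lit 9781116995) (nat_lit 142607903) (.two (nat_lit 50331761) (nat_lit 11584667880) (.two (nat_lit 713031695) (nat_lit 754978693) (.two (nat_lit 713031688) (nat_lit 10351547705) (.two (nat_lit 166132187138) (nat_lit 8395660) (.two (nat_lit 41943043) (nat_lit 788537495) (.two (nat_lit 9768534017) (nat_lit 46481286833) (.two (nat_lit 4194304) (nat_lit 176172855) (.one (nat_lit 8401461) .nil))))))))),
   .two (nat_lit 2954887363) (nat_lit 2889876812) (.two (nat_lit 339738690) (nat_lit 10007610909) (.two (nat_lit 4194319) (nat_lit 37253812104) (.two (nat_lit 4194312) (nat_lit 2357205581) (.two (nat_lit 8388612) (nat_lit 809509036) (.two (nat_lit 2097153) (nat_lit 3457164977) (.two (nat_lit 1048576) (nat_lit 46481288959) (.one (nat_lit 4207160) .nil))))))),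
   .two (nat_lit 19599982787) (nat_lit 46414168930) (.two (nat_lit 4605345859) (nat_lit 19599984157) (.two (nat_lit 176160783) (nat_lit 3024098258) (.two (nat_lit 176160776) (nat_lit 183949597455) (.two (nat_lit 9768534021) (nat_lit 157043135911) (.two (nat_lit 8388611) (nat_lit 47584388024) (.two (nat_lit 37748737) (nat_lit 185027537360) (.two (nat_lit 8388608) (nat_lit 3024105088) (.one (nat_lit 1216360976) .nil)))))))),
   .two (nat_lit 209715238) (nat_lit 10540287322) (.two (nat_lit 2097267) (nat_lit 1753220637) (.two (nat_lit 2887778319) (nat_lit 156372042761) (.two (nat_lit 2887778312) (nat_lit 13195287292) (.two (nat_lit 2097157) (nat_lit 1350574227) (.two (nat_lit 2097153) (nat_lit 12047099570) (.two (nat_lit 1048576) (nat_lit 337653416) (.one (nat_lit 8399672) .nil))))))),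
   .two (nat_lit 9802088643) (nat_lit 705691871) (.two (nat_lit 4601151552) (nat_lit 156465365496) (.two (nat_lit 4601151503) (nat_lit 47581233664) (.two (nat_lit 19599982600) (nat_lit 185020190846) (.two (nat_lit 183848927237) (nat_lit 185020189514) (.two (nat_lit 8388609) (nat_lit 183916041713) (.two (nat_lit 8388608) (nat_lit 1745889036) (.one (nat_lit 1745889036) .nil))))))),
   .two (nat_lit 10940842184) (nat_lit 9802089314) (.two (nat_lit 10942939174) (nat_lit 2098587) (.two (nat_lit 19530776692) (nat_lit 9802090013) (.two (nat_lit 184986632207) (nat_lit 2889880545) (.two (nat_lit 46407876616) (nat_lit 272636625) (.two (nat_lit 2097157) (nat_lit 9936313298) (.two (nat_lit 2097157) (nat_lit 809506227) (.two (nat_lit 34603009) (nat_lit 28793907867) (.two (nat_lit 1048576) (nat_lit 2109240) (.one (nat_lit 2109304) .nil))))))))),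
   .two (nat_lit 4601151683) (nat_lit 2097614) (.two (nat_lit 19530776692) (nat_lit 9802090013) (.two (nat_lit 184986632207) (nat_lit 2889880545) (.two (nat_lit 46407876616) (nat_lit 272636625) (.two (nat_lit 2097157) (nat_lit 2956991347) (.two (nat_lit 156365750275) (nat_lit 339747767) (.two (nat_lit 34603009) (nat_lit 28793907867) (.two (nat_lit 1048576) (nat_lit 2109240) (.one (nat_lit 2110012) .nil)))))))),
   .two (nat_lit 47548727360) (nat_lit 158179789329) (.two (nat_lit 11546918917) (nat_lit 21811432269) (.one (nat_lit 4202825) .nil)),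
   .two (nat_lit 50331843) (nat_lit 2990540078) (.two (nat_lit 185027526764) (nat_lit 3036677662) (.two (nat_lit 11551113231) (nat_lit 183949594532) (.two (nat_lit 11551113224) (nat_lit 28793903701) (.two (nat_lit 713031684) (nat_lit 740302984) (.two (nat_lit 2097153) (nat_lit 11580484300) (.two (nat_lit 8388608) (nat_lit 2108184) (.one (nat_lit 2107154) .nil))))))),
   .two (nat_lit 843055299) (nat_lit 880804064) (.two (nat_lit 4601151552) (nat_lit 185027528337) (.two (nat_lit 306184258) (nat_lit 159257723113) (.two (nat_lit 1929379855) (nat_lit 166199299976) (.two (nat_lit 41943048) (nat_lit 16781444) (.two (nat_lit 4605345797) (nat_lit 4201433) (.two (nat_lit 8388612) (nat_lit 16781444) (.two (nat_lit 8388609) (nat_lit 4201433) (.two (nat_lit 4194304) (nat_lit 2969577205) (.one (nat_lit 16789369) .nil))))))))),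
   .two (nat_lit 159217877350) (nat_lit 46514831583) (.two (nat_lit 721420353) (nat_lit 270533112) (.two (nat_lit 721420303) (nat_lit 13221495296) (.two (nat_lit 721420296) (nat_lit 185020192183) (.two (nat_lit 50331653) (nat_lit 185020192183) (.two (nat_lit 2097153) (nat_lit 41951492) (.two (nat_lit 1048576) (nat_lit 35663733) (.one (nat_lit 35663733) .nil))))))),
   .two (nat_lit 9781117123) (nat_lit 159216828639) (.two (nat_lit 285212736) (nat_lit 156364702209) (.two (nat_lit 285212687) (nat_lit 156364702209) (.two (nat_lit 3525312519) (nat_lit 47581241134) (.two (nat_lit 1745879045) (nat_lit 185035920813) (.two (nat_lit 605028353) (nat_lit 46422566665) (.two (nat_lit 1048576) (nat_lit 46422566665) (.one (nat_lit 46422566665) .nil))))))),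
   .two (nat_lit 11559501919) (nat_lit 46414168930) (.two (nat_lit 721420308) (nat_lit 1954548227) (.two (nat_lit 11559501890) (nat_lit 746586345) (.two (nat_lit 50331663) (nat_lit 9772732311) (.two (nat_lit 11559501832) (nat_lit 10913585923) (.two (nat_lit 16777220) (nat_lit 157043135911) (.two (nat_lit 176160771) (nat_lit 9881788568) (.two (nat_lit 16777217) (nat_lit 1350576667) (.two (nat_lit 8388608) (nat_lit 16789305) (.one (nat_lit 16790080) .nil))))))))),
   .two (nat_lit 4634706115) (nat_lit 1948254431) (.two (nat_lit 285212737) (nat_lit 9934209528) (.two (nat_lit 272629775) (nat_lit 21778924032) (.two (nat_lit 16777224) (nat_lit 21210598181) (.two (nat_lit 606076931) (nat_lit 4201361) (.two (nat_lit 620756993) (nat_lit 4201436) (.two (nat_lit 2097152) (nat_lit 4205337) (.one (nat_lit 11477725059) .nil))))))),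
   .two (nat_lit 47555018790) (nat_lit 156581758333) (.two (nat_lit 11476664385) (nat_lit 50332152) (.two (nat_lit 83886095) (nat_lit 4599055368) (.two (nat_lit 10369368072) (nat_lit 69208869) (.two (nat_lit 8388612) (nat_lit 304092590) (.two (nat_lit 50331649) (nat_lit 336600026) (.two (nat_lit 16777216) (nat_lit 1059610) (.one (nat_lit 174701163083) .nil))))))),
   .two (nat_lit 3527409859) (nat_lit 4599055694) (.two (nat_lit 19530776643) (nat_lit 3527411229) (.two (nat_lit 11492392975) (nat_lit 158649552805) (.two (nat_lit 46978301960) (nat_lit 4647295572) (.two (nat_lit 46980399109) (nat_lit 156481099181) (.two (nat_lit 9781116929) (nat_lit 4202759) (.two (nat_lit 2097152) (nat_lit 16787192) (.one (nat_lit 9766447927) .nil))))))),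
   .two (nat_lit 1962934467) (nat_lit 9798944079) (.two (nat_lit 1795162150) (nat_lit 673187357) (.two (nat_lit 46407876623) (nat_lit 10385102031) (.two (nat_lit 169869320) (nat_lit 10351547707) (.two (nat_lit 169869316) (nat_lit 16785586) (.two (nat_lit 34603009) (nat_lit 1948264112) (.two (nat_lit 8388608) (nat_lit 20704145025) (.one (nat_lit 16789372) .nil))))))),
   .two (nat_lit 101712067) (nat_lit 19128123615) (.two (nat_lit 11543773248) (nat_lit 166197199352) (.two (nat_lit 176160783) (nat_lit 35652620) (.two (nat_lit 83886088) (nat_lit 1410340334) (.two (nat_lit 620756997) (nat_lit 1410340334) (.two (nat_lit 8388609) (nat_lit 174752538884) (.two (nat_lit 16777216) (nat_lit 2109264) (.one (nat_lit 1059642) .nil))))))),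
   .two (nat_lit 822083679) (nat_lit 813696337) (.two (nat_lit 285212690) (nat_lit 641732238) (.two (nat_lit 75497582) (nat_lit 352321770) (.two (nat_lit 2902458379) (nat_lit 4195987) (.two (nat_lit 171966470) (nat_lit 8391463) (.two (nat_lit 2889875458) (nat_lit 8395666) (.two (nat_lit 4194307) (nat_lit 176170772) (.two (nat_lit 4194305) (nat_lit 176170772) (.two (nat_lit 4194304) (nat_lit 176170772) (.one (nat_lit 41955873) .nil))))))))),
   .two (nat_lit 272630626) (nat_lit 18933088480) (.two (nat_lit 272629955) (nat_lit 4605346026) (.two (nat_lit 12054429762) (nat_lit 2990540433) (.two (nat_lit 4194319) (nat_lit 4605347537) (.two (nat_lit 4194312) (nat_lit 4638903115) (.two (nat_lit 4194308) (nat_lit 2424316214) (.two (nat_lit 4194305) (nat_lit 11014249469) (.two (nat_lit 1048576) (nat_lit 1753229062) (.one (nat_lit 8401480) .nil)))))))),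
   .two (nat_lit 3558866982) (nat_lit 3527410168) (.two (nat_lit 3527409731) (nat_lit 706740736) (.two (nat_lit 46407876616) (nat_lit 10452211117) (.two (nat_lit 11492392964) (nat_lit 37246473709) (.two (nat_lit 1048576) (nat_lit 9766447927) (.one (nat_lit 12047101823) .nil))))),
   .two (nat_lit 343933123) (nat_lit 1746928120) (.two (nat_lit 8388672) (nat_lit 156533522945) (.two (nat_lit 16777223) (nat_lit 8394167) (.two (nat_lit 50331651) (nat_lit 4201435) (.two (nat_lit 4194304) (nat_lit 8400758) (.one (nat_lit 4206467) .nil))))),
   .two (nat_lit 721420645) (nat_lit 9974055947) (.two (nat_lit 46414168072) (nat_lit 4647294446) (.two (nat_lit 8388608) (nat_lit 285222680) .nil)),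
   .two (nat_lit 28093448230) (nat_lit 2098188) (.two (nat_lit 3531603975) (nat_lit 16782831) (.two (nat_lit 1048576) (nat_lit 16787225) .nil)),
   .two (nat_lit 11492393317) (nat_lit 11614028812) (.two (nat_lit 11492392968) (nat_lit 183848932846) (.two (nat_lit 4194304) (nat_lit 285222680) .nil)),
   .two (nat_lit 2357198886) (nat_lit 12620661771) (.two (nat_lit 11010048013) (nat_lit 243275246) (.two (nat_lit 16777216) (nat_lit 9936317246) .nil)),
   .two (nat_lit 10336862403) (nat_lit 183845782540) (.two (nat_lit 176160776) (nat_lit 20640175597) (.two (nat_lit 16777216) (nat_lit 2108224) .nil)),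
   .two (nat_lit 13195280741) (nat_lit 1279263232) (.two (nat_lit 3460300808) (nat_lit 679482862) (.two (nat_lit 16777216) (nat_lit 1059650) .nil)),
   .two (nat_lit 183949590566) (nat_lit 46414172038) (.two (nat_lit 10942939144) (nat_lit 20644369901) (.two (nat_lit 16777216) (nat_lit 8398618) .nil)),
   .two (nat_lit 10007609411) (nat_lit 47563408021) (.two (nat_lit 21793603599) (nat_lit 679478653) (.two (nat_lit 721420296) (nat_lit 19134419935) (.two (nat_lit 50331649) (nat_lit 166232858503) (.two (nat_lit 8388608) (nat_lit 174701159450) (.one (nat_lit 16789494) .nil))))),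
   .two (nat_lit 16777235) (nat_lit 10370417289) (.two (nat_lit 16777280) (nat_lit 2921332935) (.two (nat_lit 16777280) (nat_lit 9766436959) (.two (nat_lit 16777231) (nat_lit 9799992645) (.two (nat_lit 16777224) (nat_lit 185021237812) (.two (nat_lit 16777224) (nat_lit 2887779987) (.two (nat_lit 16777220) (nat_lit 11477718232) (.two (nat_lit 16777219) (nat_lit 20738744639) (.two (nat_lit 16777217) (nat_lit 2107252) (.two (nat_lit 16777216) (nat_lit 4202704) (.one (nat_lit 4206589) .nil)))))))))),
   .two (nat_lit 9781116963) (nat_lit 4601151683) (.two (nat_lit 4601151554) (nat_lit 19545457112) (.two (nat_lit 4194319) (nat_lit 184550693) (.two (nat_lit 171966470) (nat_lit 83888659) (.two (nat_lit 4194312) (nat_lit 16778188) (.two (nat_lit 11492392964) (nat_lit 1175457683) (.two (nat_lit 34603009) (nat_lit 4201033) (.two (nat_lit 1048576) (nat_lit 205529271) (.one (nat_lit 159253539567) .nil)))))))),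
   .two (nat_lit 706740261) (nat_lit 20644364645) (.two (nat_lit 3464495138) (nat_lit 2097361) (.two (nat_lit 169869327) (nat_lit 159224169314) (.two (nat_lit 169869320) (nat_lit 159224170013) (.two (nat_lit 2097157) (nat_lit 2357202840) (.two (nat_lit 2097153) (nat_lit 4598012514) (.two (nat_lit 2097152) (nat_lit 1054122) (.one (nat_lit 270544468) .nil))))))),
   .two (nat_lit 16777235) (nat_lit 166199296674) (.two (nat_lit 16777280) (nat_lit 272629969) (.two (nat_lit 16777280) (nat_lit 205520991) (.two (nat_lit 9940500495) (nat_lit 12633244975) (.two (nat_lit 47555018760) (nat_lit 156367848989) (.two (nat_lit 176160773) (nat_lit 104861575) (.two (nat_lit 8388609) (nat_lit 742395954) (.two (nat_lit 4194304) (nat_lit 16788430) (.one (nat_lit 3460311801) .nil)))))))),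
   .two (nat_lit 8388643) (nat_lit 159217877187) (.two (nat_lit 47548727330) (nat_lit 4194673) (.two (nat_lit 8388623) (nat_lit 20638074142) (.two (nat_lit 8388616) (nat_lit 12050237954) (.two (nat_lit 176160772) (nat_lit 19029561223) (.two (nat_lit 16777217) (nat_lit 2353011278) (.two (nat_lit 16777216) (nat_lit 1786783344) (.one (nat_lit 8399618) .nil))))))),
   .two (nat_lit 8388627) (nat_lit 843055299) (.two (nat_lit 41943075) (nat_lit 156367847619) (.two (nat_lit 4601151554) (nat_lit 184993972319) (.two (nat_lit 41943055) (nat_lit 9869198635) (.two (nat_lit 83886088) (nat_lit 158179789364) (.two (nat_lit 41943048) (nat_lit 157038937032) (.two (nat_lit 8388612) (nat_lit 306186949) (.two (nat_lit 4194308) (nat_lit 46523225419) (.two (nat_lit 50331649) (nat_lit 156573375060) (.two (nat_lit 16777216) (nat_lit 4202708) (.one (nat_lit 4207188) .nil)))))))))),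
   .two (nat_lit 83886147) (nat_lit 10336862872) (.two (nat_lit 2887778319) (nat_lit 47563409523) (.two (nat_lit 2887778312) (nat_lit 1312821661) (.two (nat_lit 285212677) (nat_lit 46507498471) (.two (nat_lit 4194307) (nat_lit 158158822468) (.two (nat_lit 9766436865) (nat_lit 16785451) (.two (nat_lit 16777216) (nat_lit 2108343) (.one (nat_lit 1060866) .nil))))))),
   .two (nat_lit 3028287553) (nat_lit 3560964457) (.two (nat_lit 11479810063) (nat_lit 806357080) (.two (nat_lit 176160776) (nat_lit 157038940869) (.two (nat_lit 4605345797) (nat_lit 10540289938) (.two (nat_lit 8388609) (nat_lit 339745474) (.two (nat_lit 2097152) (nat_lit 174692772052) (.one (nat_lit 4207189) .nil)))))),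
   .two (nat_lit 184986632256) (nat_lit 166197199449) (.two (nat_lit 184986632207) (nat_lit 166197199715) (.two (nat_lit 183845781512) (nat_lit 2420116936) (.two (nat_lit 12114198533) (nat_lit 18928900360) (.two (nat_lit 16777217) (nat_lit 19094576669) (.two (nat_lit 16777216) (nat_lit 2109317) (.one (nat_lit 2109443) .nil)))))),
   .two (nat_lit 176160787) (nat_lit 20637024613) (.two (nat_lit 272629824) (nat_lit 1410335089) (.two (nat_lit 272629824) (nat_lit 1947206097) (.two (nat_lit 612368399) (nat_lit 20637025122) (.two (nat_lit 612368392) (nat_lit 183946447364) (.two (nat_lit 176160773) (nat_lit 28690091911) (.two (nat_lit 8388609) (nat_lit 1913657943) (.two (nat_lit 4194304) (nat_lit 9765398236) (.one (nat_lit 8398557) .nil)))))))),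
   .two (nat_lit 8388627) (nat_lit 285213800) (.two (nat_lit 16777251) (nat_lit 41943235) (.two (nat_lit 8388672) (nat_lit 1780482244) (.two (nat_lit 16777231) (nat_lit 1853883692) (.two (nat_lit 9948889096) (nat_lit 13222544330) (.two (nat_lit 8388616) (nat_lit 169874880) (.two (nat_lit 169869314) (nat_lit 8395286) (.two (nat_lit 203423749) (nat_lit 11517564235) (.two (nat_lit 606076929) (nat_lit 16785483) (.two (nat_lit 2097152) (nat_lit 8399269) (.one (nat_lit 2109024) .nil)))))))))),
   .two (nat_lit 8388627) (nat_lit 306185266) (.two (nat_lit 9768534051) (nat_lit 183946445157) (.two (nat_lit 2887778369) (nat_lit 1916797026) (.two (nat_lit 10370416655) (nat_lit 1413482546) (.two (nat_lit 4599054342) (nat_lit 183845784068) (.two (nat_lit 205520904) (nat_lit 9906950279) (.two (nat_lit 3458203653) (nat_lit 1279267998) (.two (nat_lit 156364701697) (nat_lit 2106279) (.two (nat_lit 4194304) (nat_lit 1058442) (.one (nat_lit 8400491) .nil))))))))),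
   .two (nat_lit 8388672) (nat_lit 1392509642) (.two (nat_lit 11559501839) (nat_lit 183846830948) (.two (nat_lit 16777224) (nat_lit 12155095568) (.two (nat_lit 8388610) (nat_lit 2102489) (.two (nat_lit 16777219) (nat_lit 9936312713) (.two (nat_lit 16777217) (nat_lit 2994740821) (.two (nat_lit 4194304) (nat_lit 2105558) (.one (nat_lit 2110038) .nil))))))),
   .two (nat_lit 272629824) (nat_lit 156548203248) (.two (nat_lit 1277165583) (nat_lit 109054072) (.two (nat_lit 218103816) (nat_lit 2921335302) (.two (nat_lit 2969567237) (nat_lit 184417259407) (.two (nat_lit 16777217) (nat_lit 272636629) (.two (nat_lit 2097152) (nat_lit 13191095582) (.one (nat_lit 8401495) .nil)))))),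
   .two (nat_lit 9768534083) (nat_lit 620757586) (.two (nat_lit 176160783) (nat_lit 28087157603) (.two (nat_lit 176160776) (nat_lit 158177692173) (.two (nat_lit 20638072834) (nat_lit 4198330) (.two (nat_lit 8388611) (nat_lit 47582288032) (.two (nat_lit 156365750273) (nat_lit 16785487) (.two (nat_lit 2097152) (nat_lit 16787880) (.one (nat_lit 2110040) .nil))))))),
   .two (nat_lit 8388672) (nat_lit 1862271335) (.two (nat_lit 16777231) (nat_lit 156472706348) (.two (nat_lit 16777224) (nat_lit 1853884933) (.two (nat_lit 176160772) (nat_lit 11593061399) (.two (nat_lit 16777217) (nat_lit 174692769273) (.two (nat_lit 4194304) (nat_lit 156364711985) (.one (nat_lit 1060869) .nil)))))),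
   .two (nat_lit 46474985537) (nat_lit 158143086949) (.two (nat_lit 742391823) (nat_lit 47547680082) (.two (nat_lit 203423752) (nat_lit 19529731651) (.two (nat_lit 12047089669) (nat_lit 2103832) (.two (nat_lit 620756995) (nat_lit 806360116) (.two (nat_lit 620756993) (nat_lit 1176510267) (.two (nat_lit 1048576) (nat_lit 2107762) (.one (nat_lit 4207193) .nil))))))),
   .two (nat_lit 4647289027) (nat_lit 3024094052) (.two (nat_lit 285212687) (nat_lit 47550827022) (.two (nat_lit 205520904) (nat_lit 1325404040) (.two (nat_lit 171966469) (nat_lit 855647159) (.two (nat_lit 1048576) (nat_lit 4205620) (.one (nat_lit 1061047) .nil))))),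
   .two (nat_lit 4601151683) (nat_lit 9873392940) (.two (nat_lit 4194319) (nat_lit 10007611926) (.two (nat_lit 169869320) (nat_lit 8394577) (.two (nat_lit 169869316) (nat_lit 1056236) (.two (nat_lit 4194305) (nat_lit 1059656) (.two (nat_lit 4194304) (nat_lit 1059893) (.one (nat_lit 1061530) .nil)))))),
   .two (nat_lit 3525312707) (nat_lit 11614029109) (.two (nat_lit 46407876623) (nat_lit 183916038666) (.two (nat_lit 3525312520) (nat_lit 2920289267) (.two (nat_lit 2887778308) (nat_lit 21814581843) (.two (nat_lit 9766436865) (nat_lit 1178610193) (.one (nat_lit 2110107) .nil))))),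
   .two (nat_lit 183846830438) (nat_lit 243271028) (.two (nat_lit 612368399) (nat_lit 1175457197) (.two (nat_lit 612368392) (nat_lit 1053723) (.two (nat_lit 34603013) (nat_lit 8396285) (.two (nat_lit 2097153) (nat_lit 3557829625) (.one (nat_lit 8401564) .nil))))),
   .two (nat_lit 754975077) (nat_lit 4194959) (.two (nat_lit 754974786) (nat_lit 28793899534) (.two (nat_lit 2889875464) (nat_lit 174701154198) (.two (nat_lit 822083589) (nat_lit 4201982) (.two (nat_lit 4194305) (nat_lit 158158824467) (.two (nat_lit 4194304) (nat_lit 16788574) (.one (nat_lit 4207261) .nil)))))),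
   .two (nat_lit 41943235) (nat_lit 37262198115) (.two (nat_lit 2887778319) (nat_lit 28764539419) (.two (nat_lit 620757000) (nat_lit 772807331) (.two (nat_lit 2097153) (nat_lit 4027589601) (.two (nat_lit 2097152) (nat_lit 1059386) (.one (nat_lit 873476727) .nil))))),
   .two (nat_lit 306184387) (nat_lit 3565158761) (.two (nat_lit 183853121601) (nat_lit 166199297324) (.two (nat_lit 183853121551) (nat_lit 675286438) (.two (nat_lit 272629768) (nat_lit 8394582) (.two (nat_lit 41943045) (nat_lit 4201984) (.two (nat_lit 41943041) (nat_lit 4204456) (.two (nat_lit 8388608) (nat_lit 16789398) (.one (nat_lit 8401566) .nil))))))),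
   .two (nat_lit 10015998147) (nat_lit 46414168421) (.two (nat_lit 4605345859) (nat_lit 18928894818) (.two (nat_lit 46414168079) (nat_lit 272634890) (.two (nat_lit 4605345797) (nat_lit 11580482567) (.two (nat_lit 4194304) (nat_lit 8399877) (.one (nat_lit 4207202) .nil))))),
   .two (nat_lit 47596961987) (nat_lit 28758246737) (.two (nat_lit 639631375) (nat_lit 2969568797) (.two (nat_lit 9867100168) (nat_lit 1913657981) (.two (nat_lit 34603009) (nat_lit 2106478) (.two (nat_lit 4194304) (nat_lit 1059936) (.one (nat_lit 4206840) .nil))))),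
   .two (nat_lit 11010048195) (nat_lit 2098214) (.two (nat_lit 11610882165) (nat_lit 171967802) (.two (nat_lit 159217877007) (nat_lit 739248674) (.two (nat_lit 9934209032) (nat_lit 183928622989) (.two (nat_lit 156364701701) (nat_lit 19130227371) (.two (nat_lit 16777217) (nat_lit 166130099890) (.one (nat_lit 2109689) .nil)))))),
   .two (nat_lit 4634706115) (nat_lit 174768259690) (.two (nat_lit 83886188) (nat_lit 239076659) (.two (nat_lit 83886095) (nat_lit 608176662) (.two (nat_lit 117440520) (nat_lit 19134419932) (.two (nat_lit 46414168068) (nat_lit 156984416852) (.two (nat_lit 4194305) (nat_lit 8399689) (.two (nat_lit 4194304) (nat_lit 16789399) (.one (nat_lit 4207263) .nil))))))),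
   .two (nat_lit 3527410022) (nat_lit 11517559651) (.two (nat_lit 713031695) (nat_lit 16780721) (.two (nat_lit 10015997965) (nat_lit 176165913) (.two (nat_lit 50331653) (nat_lit 8396290) (.two (nat_lit 50331649) (nat_lit 3460312058) (.one (nat_lit 4207264) .nil))))),
   .two (nat_lit 184419352933) (nat_lit 9781117576) (.two (nat_lit 4647289069) (nat_lit 11513365790) (.two (nat_lit 9781116943) (nat_lit 158146234885) (.two (nat_lit 4194312) (nat_lit 16783191) (.two (nat_lit 705691652) (nat_lit 157038942866) (.two (nat_lit 34603009) (nat_lit 166232859654) (.two (nat_lit 1048576) (nat_lit 16789400) (.one (nat_lit 1061537) .nil))))))),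
   .two (nat_lit 306184806) (nat_lit 16777874) (.two (nat_lit 21827158131) (nat_lit 9899607582) (.two (nat_lit 2902458376) (nat_lit 47550829569) (.two (nat_lit 1358954501) (nat_lit 1379932795) (.two (nat_lit 34603009) (nat_lit 156581766194) (.two (nat_lit 1048576) (nat_lit 4205668) (.one (nat_lit 1061120) .nil)))))),
   .two (nat_lit 117440707) (nat_lit 270533263) (.two (nat_lit 1291845698) (nat_lit 47582283080) (.two (nat_lit 169869327) (nat_lit 1358957054) (.two (nat_lit 1191182344) (nat_lit 9934214143) (.two (nat_lit 184416206853) (nat_lit 169876072) (.two (nat_lit 2097153) (nat_lit 16788298) (.two (nat_lit 1048576) (nat_lit 16788581) (.one (nat_lit 16790178) .nil))))))),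
   .two (nat_lit 13195280984) (nat_lit 28705817218) (.two (nat_lit 721420355) (nat_lit 12054431061) (.two (nat_lit 8388623) (nat_lit 822086142) (.two (nat_lit 1753219080) (nat_lit 1392514902) (.two (nat_lit 176160773) (nat_lit 16785825) (.two (nat_lit 8388609) (nat_lit 16787369) (.two (nat_lit 8388608) (nat_lit 16788584) (.one (nat_lit 8401156) .nil))))))),
   .two (nat_lit 19127075173) (nat_lit 1212154458) (.two (nat_lit 47588573249) (nat_lit 673187105) (.two (nat_lit 46414168079) (nat_lit 1343229401) (.two (nat_lit 205520904) (nat_lit 8394584) (.two (nat_lit 159224168453) (nat_lit 4202914) (.two (nat_lit 156372041729) (nat_lit 1916808172) (.one (nat_lit 4207267) .nil)))))),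
   .two (nat_lit 1310720357) (nat_lit 21223178877) (.two (nat_lit 159217877059) (nat_lit 4647290210) (.two (nat_lit 654311439) (nat_lit 4632611339) (.two (nat_lit 19529728008) (nat_lit 1780487190) (.two (nat_lit 16777221) (nat_lit 37314633195) (.two (nat_lit 605028353) (nat_lit 203432977) (.two (nat_lit 1048576) (nat_lit 2107967) (.one (nat_lit 2110116) .nil))))))),
   .two (nat_lit 19532874328) (nat_lit 11492393600) (.two (nat_lit 16777280) (nat_lit 156569176092) (.two (nat_lit 822083599) (nat_lit 157038938622) (.two (nat_lit 2889875464) (nat_lit 16783193) (.two (nat_lit 272629765) (nat_lit 16784900) (.two (nat_lit 4194305) (nat_lit 16787371) (.two (nat_lit 16777216) (nat_lit 4206489) (.one (nat_lit 46422569137) .nil))))))),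
   .two (nat_lit 4634706115) (nat_lit 251658601) (.two (nat_lit 11492393025) (nat_lit 156569175582) (.two (nat_lit 4601151496) (nat_lit 109057031) (.two (nat_lit 50331653) (nat_lit 876616265) (.two (nat_lit 50331649) (nat_lit 343942159) (.two (nat_lit 16777216) (nat_lit 8399978) (.one (nat_lit 8401573) .nil)))))),
   .two (nat_lit 11511267944) (nat_lit 19532874377) (.two (nat_lit 21785215043) (nat_lit 620758339) (.two (nat_lit 13203669007) (nat_lit 2994738185) (.two (nat_lit 184549380) (nat_lit 21214796401) (.two (nat_lit 2097153) (nat_lit 4203637) (.two (nat_lit 2097152) (nat_lit 4205681) (.one (nat_lit 2109713) .nil)))))),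
   .two (nat_lit 12117344451) (nat_lit 12047090308) (.two (nat_lit 9768534083) (nat_lit 183962174784) (.two (nat_lit 3539992591) (nat_lit 272632330) (.two (nat_lit 28690087944) (nat_lit 159219978121) (.two (nat_lit 28757196805) (nat_lit 157051525715) (.two (nat_lit 37748737) (nat_lit 16787374) (.two (nat_lit 1048576) (nat_lit 4205604) (.one (nat_lit 4207270) .nil))))))),
   .two (nat_lit 11559502181) (nat_lit 9768534374) (.two (nat_lit 2889875523) (nat_lit 19545459224) (.two (nat_lit 4194312) (nat_lit 157051524092) (.two (nat_lit 1291845637) (nat_lit 4601160822) (.two (nat_lit 1048576) (nat_lit 4205125) (.one (nat_lit 1061543) .nil))))),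
   .two (nat_lit 10007609539) (nat_lit 1050323) (.two (nat_lit 12147753025) (nat_lit 156466414434) (.two (nat_lit 117440527) (nat_lit 158143089160) (.two (nat_lit 739246088) (nat_lit 35655569) (.two (nat_lit 184549381) (nat_lit 9966721638) (.two (nat_lit 16777217) (nat_lit 1057911) (.two (nat_lit 1048576) (nat_lit 8399987) (.one (nat_lit 16790184) .nil))))))),
   .two (nat_lit 19027460454) (nat_lit 2902459019) (.two (nat_lit 19530776643) (nat_lit 1862272366) (.two (nat_lit 184416206863) (nat_lit 2894072323) (.two (nat_lit 183845781512) (nat_lit 847254499) (.two (nat_lit 21785214981) (nat_lit 606084613) (.two (nat_lit 2097153) (nat_lit 159232566319) (.two (nat_lit 1048576) (nat_lit 2954897905) (.one (nat_lit 8401173) .nil))))))),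
   .two (nat_lit 142606531) (nat_lit 9966715938) (.two (nat_lit 156372041836) (nat_lit 19128124260) (.two (nat_lit 156372041743) (nat_lit 4632611342) (.two (nat_lit 169869320) (nat_lit 184993976196) (.two (nat_lit 270532613) (nat_lit 4638906979) (.two (nat_lit 34603009) (nat_lit 2350916653) (.two (nat_lit 16777216) (nat_lit 9966725676) (.one (nat_lit 1061143) .nil))))))),
   .two (nat_lit 310378691) (nat_lit 28705816935) (.two (nat_lit 4605345857) (nat_lit 13221496158) (.two (nat_lit 158075977743) (nat_lit 183920232976) (.two (nat_lit 276824072) (nat_lit 2969574039) (.two (nat_lit 605028353) (nat_lit 2961187830) (.two (nat_lit 16777216) (nat_lit 9933171693) (.one (nat_lit 1061145) .nil)))))),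
   .two (nat_lit 165532402272) (nat_lit 12115247463) (.two (nat_lit 13191086147) (nat_lit 159224169766) (.two (nat_lit 8388623) (nat_lit 28793899527) (.two (nat_lit 8388616) (nat_lit 156533528394) (.two (nat_lit 12121538565) (nat_lit 11546925659) (.two (nat_lit 156367847425) (nat_lit 47548736595) (.two (nat_lit 2097152) (nat_lit 4205691) (.one (nat_lit 2110121) .nil))))))),
   .two (nat_lit 306184387) (nat_lit 9934209645) (.two (nat_lit 158646403137) (nat_lit 47582283041) (.two (nat_lit 12050235407) (nat_lit 156465368497) (.two (nat_lit 184419352584) (nat_lit 47548732439) (.two (nat_lit 4599054341) (nat_lit 4202915) (.two (nat_lit 156364701697) (nat_lit 166199305222) (.two (nat_lit 1048576) (nat_lit 2108540) (.one (nat_lit 1061546) .nil))))))),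
   .two (nat_lit 272629955) (nat_lit 11559502182) (.two (nat_lit 1358954563) (nat_lit 183845784070) (.two (nat_lit 1291845640) (nat_lit 839914490) (.two (nat_lit 9948889093) (nat_lit 11006909035) (.two (nat_lit 9765388289) (nat_lit 46422568614) .nil)))),
   .two (nat_lit 12147753576) (nat_lit 8389271) (.two (nat_lit 47588573292) (nat_lit 3558868262) (.two (nat_lit 166130089999) (nat_lit 3557821889) (.two (nat_lit 1780482056) (nat_lit 1055789) (.two (nat_lit 159217876997) (nat_lit 1056262) (.two (nat_lit 156365750273) (nat_lit 4598015062) (.two (nat_lit 1048576) (nat_lit 2107975) (.one (nat_lit 1061547) .nil))))))),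
   .two (nat_lit 1753219429) (nat_lit 46406828648) (.two (nat_lit 12054429762) (nat_lit 739247496) (.two (nat_lit 4613734415) (nat_lit 8393695) (.two (nat_lit 184986632197) (nat_lit 21785221757) (.two (nat_lit 34603009) (nat_lit 28697438736) (.one (nat_lit 645934709) .nil))))),
   .two (nat_lit 4605345987) (nat_lit 20740833922) (.two (nat_lit 4605345856) (nat_lit 9802089315) (.two (nat_lit 46409973775) (nat_lit 1913654723) (.two (nat_lit 8388616) (nat_lit 638589551) (.two (nat_lit 156367847425) (nat_lit 12155103790) (.one (nat_lit 1061151) .nil))))),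
   .two (nat_lit 158083318117) (nat_lit 3524264593) (.two (nat_lit 158083317826) (nat_lit 21207451687) (.two (nat_lit 654311439) (nat_lit 11477715480) (.two (nat_lit 9781116936) (nat_lit 166130095068) (.two (nat_lit 2902458372) (nat_lit 183947500106) (.two (nat_lit 2097153) (nat_lit 183853130871) (.two (nat_lit 1048576) (nat_lit 1929390555) (.one (nat_lit 16790188) .nil))))))),
   .two (nat_lit 4601151683) (nat_lit 3531604613) (.two (nat_lit 343933036) (nat_lit 20707280172) (.two (nat_lit 1753219087) (nat_lit 708839952) (.two (nat_lit 276824072) (nat_lit 156535623573) (.two (nat_lit 8388612) (nat_lit 1056263) (.two (nat_lit 41943041) (nat_lit 1058736) (.two (nat_lit 4194304) (nat_lit 1060762) (.one (nat_lit 1061549) .nil))))))),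
   .two (nat_lit 1358954691) (nat_lit 10504635024) (.two (nat_lit 46474985580) (nat_lit 16778633) (.two (nat_lit 9881780239) (nat_lit 10906241550) (.two (nat_lit 9948889096) (nat_lit 874517486) (.two (nat_lit 184986632197) (nat_lit 337648208) (.two (nat_lit 156364701697) (nat_lit 10351551421) (.two (nat_lit 1048576) (nat_lit 2109603) .nil)))))),
   .two (nat_lit 157038936672) (nat_lit 1049240) (.two (nat_lit 809500739) (nat_lit 11492395539) (.two (nat_lit 1178599432) (nat_lit 151000033) (.two (nat_lit 1191182341) (nat_lit 1346378379) (.two (nat_lit 34603009) (nat_lit 156569184121) (.two (nat_lit 1048576) (nat_lit 4205694) (.one (nat_lit 1061153) .nil)))))),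
   .two (nat_lit 50332006) (nat_lit 9768534656) (.two (nat_lit 16777283) (nat_lit 4196394) (.two (nat_lit 9768534031) (nat_lit 184431938054) (.two (nat_lit 742391816) (nat_lit 166211885668) (.two (nat_lit 16777217) (nat_lit 4204466) (.two (nat_lit 2097152) (nat_lit 251668960) (.one (nat_lit 16789261) .nil)))))),
   .two (nat_lit 620757349) (nat_lit 3531604329) (.two (nat_lit 16777283) (nat_lit 4638902801) (.two (nat_lit 184549384) (nat_lit 19033755539) (.two (nat_lit 16777221) (nat_lit 156472711787) (.two (nat_lit 16777217) (nat_lit 9806292063) (.two (nat_lit 2097152) (nat_lit 8400002) (.one (nat_lit 8401192) .nil)))))),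
   .two (nat_lit 41943235) (nat_lit 16777882) (.two (nat_lit 9881780335) (nat_lit 1175454562) (.two (nat_lit 101711887) (nat_lit 16779800) (.two (nat_lit 9948889096) (nat_lit 1376785369) (.two (nat_lit 184549380) (nat_lit 183846839348) (.two (nat_lit 2097152) (nat_lit 839920706) (.one (nat_lit 1061550) .nil)))))),
   .two (nat_lit 21827158211) (nat_lit 183845782904) (.two (nat_lit 1191182351) (nat_lit 4197852) (.two (nat_lit 117440520) (nat_lit 1055790) (.two (nat_lit 12114198533) (nat_lit 272636520) (.two (nat_lit 34603009) (nat_lit 4203601) (.two (nat_lit 1048576) (nat_lit 4205130) (.one (nat_lit 1061161) .nil)))))),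
   .two (nat_lit 2969567589) (nat_lit 2097819) (.two (nat_lit 2969567297) (nat_lit 4632610127) (.two (nat_lit 713031695) (nat_lit 158662135706) (.two (nat_lit 620756997) (nat_lit 183846837757) (.two (nat_lit 41943041) (nat_lit 2953847868) (.two (nat_lit 8388608) (nat_lit 269495325) (.one (nat_lit 1061551) .nil)))))),
   .two (nat_lit 13191086694) (nat_lit 1753219678) (.two (nat_lit 12054429761) (nat_lit 184986633059) (.two (nat_lit 156372041743) (nat_lit 11479813588) (.two (nat_lit 10343153672) (nat_lit 19029562337) (.two (nat_lit 3531603973) (nat_lit 4201992) (.two (nat_lit 4194305) (nat_lit 1057915) (.two (nat_lit 4194304) (nat_lit 1060763) (.one (nat_lit 8401584) .nil))))))),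
   .two (nat_lit 185020187235) (nat_lit 4194973) (.two (nat_lit 2420113475) (nat_lit 158176642345) (.two (nat_lit 28693233679) (nat_lit 1052119) (.two (nat_lit 1175453704) (nat_lit 1312822246) (.two (nat_lit 9765388293) (nat_lit 4201993) (.two (nat_lit 8388609) (nat_lit 1058739) (.two (nat_lit 1048576) (nat_lit 4206492) (.one (nat_lit 1061553) .nil))))))),
   .two (nat_lit 3525312707) (nat_lit 4634707232) (.two (nat_lit 166130089999) (nat_lit 1052125) (.two (nat_lit 166130089992) (nat_lit 1055791) (.two (nat_lit 3527409669) (nat_lit 2103983) (.two (nat_lit 156367847425) (nat_lit 165526119419) (.two (nat_lit 1048576) (nat_lit 2108552) (.one (nat_lit 4206901) .nil)))))),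
   .two (nat_lit 1291846233) (nat_lit 10510926185) (.two (nat_lit 11551113282) (nat_lit 1291848193) (.two (nat_lit 10370416648) (nat_lit 19033756686) (.two (nat_lit 11546918917) (nat_lit 847256182) (.two (nat_lit 37748737) (nat_lit 8398772) (.two (nat_lit 2097152) (nat_lit 4205706) (.one (nat_lit 16789816) .nil)))))),
   .two (nat_lit 772801121) (nat_lit 16777886) (.two (nat_lit 47596961906) (nat_lit 673186659) (.two (nat_lit 1358954511) (nat_lit 101715861) (.two (nat_lit 34603013) (nat_lit 251665039) (.two (nat_lit 156364701697) (nat_lit 46523229295) (.two (nat_lit 2097152) (nat_lit 156548213220) (.one (nat_lit 1061177) .nil)))))),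
   .two (nat_lit 11584667843) (nat_lit 12147753576) (.two (nat_lit 11584667714) (nat_lit 159216829832) (.two (nat_lit 2961178639) (nat_lit 840961930) (.two (nat_lit 638582789) (nat_lit 337648289) (.two (nat_lit 605028353) (nat_lit 203434512) (.one (nat_lit 4599066229) .nil))))),
   .two (nat_lit 117440707) (nat_lit 10906239620) (.two (nat_lit 11559501888) (nat_lit 1050667) (.two (nat_lit 1191182351) (nat_lit 2990542263) (.two (nat_lit 705691656) (nat_lit 2936016776) (.two (nat_lit 34603013) (nat_lit 46422563411) (.two (nat_lit 2097153) (nat_lit 4203644) (.two (nat_lit 1048576) (nat_lit 4205707) (.one (nat_lit 4207282) .nil))))))),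
   .two (nat_lit 3525312707) (nat_lit 1749026168) (.two (nat_lit 1847590927) (nat_lit 1309674972) (.two (nat_lit 166130089992) (nat_lit 4201520) (.two (nat_lit 13191086085) (nat_lit 21207456360) (.two (nat_lit 156367847425) (nat_lit 1309682250) (.one (nat_lit 1312829737) .nil))))),
   .two (nat_lit 11543773379) (nat_lit 9948889704) (.two (nat_lit 1343225923) (nat_lit 156481095048) (.two (nat_lit 218103823) (nat_lit 183846832661) (.two (nat_lit 2954887176) (nat_lit 3524269068) (.two (nat_lit 285212677) (nat_lit 12618570316) (.two (nat_lit 606076929) (nat_lit 1209016467) (.two (nat_lit 2097152) (nat_lit 158176651779) (.one (nat_lit 1061555) .nil))))))),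
   .two (nat_lit 2988442209) (nat_lit 272630392) (.two (nat_lit 675283055) (nat_lit 2350908783) (.two (nat_lit 2921332759) (nat_lit 183949593107) (.two (nat_lit 2954887176) (nat_lit 1054556) (.two (nat_lit 166132187140) (nat_lit 1344281217) (.two (nat_lit 605028353) (nat_lit 2107317) (.two (nat_lit 1048576) (nat_lit 2108559) (.one (nat_lit 2109757) .nil))))))),
   .two (nat_lit 843055462) (nat_lit 612369005) (.two (nat_lit 343932993) (nat_lit 20704134503) (.two (nat_lit 46409973775) (nat_lit 1753221655) (.two (nat_lit 12054429704) (nat_lit 19532879706) (.two (nat_lit 4601151493) (nat_lit 1056267) (.two (nat_lit 4194305) (nat_lit 1058686) (.two (nat_lit 4194304) (nat_lit 1059984) (.one (nat_lit 1061556) .nil))))))),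
   .two (nat_lit 285213029) (nat_lit 675283568) (.two (nat_lit 285212738) (nat_lit 10506732386) (.two (nat_lit 9768534031) (nat_lit 1410339857) (.two (nat_lit 2956984325) (nat_lit 16784908) (.two (nat_lit 50331649) (nat_lit 10503594940) (.two (nat_lit 4194304) (nat_lit 11510229469) (.one (nat_lit 1061182) .nil)))))),
   .two (nat_lit 156465365591) (nat_lit 11584668288) (.two (nat_lit 28790751299) (nat_lit 16780174) (.two (nat_lit 184993972239) (nat_lit 1947208193) (.two (nat_lit 12047089672) (nat_lit 156976025481) (.two (nat_lit 285212677) (nat_lit 10906245735) (.two (nat_lit 16777217) (nat_lit 1411392627) (.two (nat_lit 1048576) (nat_lit 2108561) (.one (nat_lit 16789824) .nil))))))),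
   .two (nat_lit 10907287910) (nat_lit 235930216) (.two (nat_lit 1310720067) (nat_lit 1343227272) (.two (nat_lit 169869327) (nat_lit 855641535) (.two (nat_lit 169869320) (nat_lit 10385103511) (.two (nat_lit 2097153) (nat_lit 16786557) (.two (nat_lit 1048576) (nat_lit 2108563) (.one (nat_lit 2110133) .nil)))))),
   .two (nat_lit 236978792) (nat_lit 10000269937) (.two (nat_lit 174752530541) (nat_lit 46474986785) (.two (nat_lit 10370416655) (nat_lit 158662134283) (.two (nat_lit 10370416648) (nat_lit 185002365944) (.two (nat_lit 1746927621) (nat_lit 1410342409) (.two (nat_lit 50331649) (nat_lit 1059659) (.two (nat_lit 1048576) (nat_lit 2108564) (.one (nat_lit 1061187) .nil))))))),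
   .two (nat_lit 2902458976) (nat_lit 18926797160) (.two (nat_lit 2954887235) (nat_lit 1191183654) (.two (nat_lit 11559501839) (nat_lit 183947498458) (.two (nat_lit 83886085) (nat_lit 47547685485) (.two (nat_lit 605028353) (nat_lit 19612574822) (.two (nat_lit 1048576) (nat_lit 2108565) (.one (nat_lit 1061558) .nil)))))),
   .two (nat_lit 4605345987) (nat_lit 4195368) (.two (nat_lit 843055219) (nat_lit 9915337241) (.two (nat_lit 13224640524) (nat_lit 18941481951) (.two (nat_lit 50331653) (nat_lit 37320923741) (.two (nat_lit 37748737) (nat_lit 8397950) (.two (nat_lit 4194304) (nat_lit 8400023) (.one (nat_lit 1392521896) .nil)))))),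
   .two (nat_lit 272629955) (nat_lit 16777817) (.two (nat_lit 16777282) (nat_lit 156465367559) (.two (nat_lit 16777224) (nat_lit 156533527569) (.two (nat_lit 11492392965) (nat_lit 773856763) (.two (nat_lit 50331649) (nat_lit 11511276588) (.two (nat_lit 1048576) (nat_lit 16788633) (.one (nat_lit 4207287) .nil)))))),
   .two (nat_lit 50331843) (nat_lit 1279264042) (.two (nat_lit 16777231) (nat_lit 3560967634) (.two (nat_lit 8388616) (nat_lit 20740837256) (.two (nat_lit 8388612) (nat_lit 46510643846) (.two (nat_lit 8388609) (nat_lit 46489674821) (.two (nat_lit 8388608) (nat_lit 16788637) (.one (nat_lit 4207288) .nil)))))),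
   .two (nat_lit 4601151683) (nat_lit 1216348517) (.two (nat_lit 4601151552) (nat_lit 183962174761) (.two (nat_lit 4194319) (nat_lit 813697550) (.two (nat_lit 183853121544) (nat_lit 3539996570) (.two (nat_lit 4194308) (nat_lit 8397220) (.two (nat_lit 41943041) (nat_lit 183946454091) (.two (nat_lit 8388608) (nat_lit 4205730) (.one (nat_lit 4207289) .nil))))))),
   .two (nat_lit 11559502019) (nat_lit 12617515674) (.two (nat_lit 166196150383) (nat_lit 11022632247) (.two (nat_lit 158143086607) (nat_lit 158091708944) (.two (nat_lit 11476664328) (nat_lit 10385103537) (.two (nat_lit 9765388289) (nat_lit 185035925397) (.two (nat_lit 2097152) (nat_lit 16789405) (.one (nat_lit 16790202) .nil)))))),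
   .two (nat_lit 156533522627) (nat_lit 184431936837) (.two (nat_lit 9948889103) (nat_lit 2988444186) (.two (nat_lit 639631368) (nat_lit 3557824339) (.two (nat_lit 156364701701) (nat_lit 169876962) (.two (nat_lit 605028353) (nat_lit 169880544) (.one (nat_lit 1061563) .nil))))),
   .two (nat_lit 880804035) (nat_lit 185035917832) (.two (nat_lit 184549384) (nat_lit 1312821128) (.two (nat_lit 8388612) (nat_lit 13237230254) (.two (nat_lit 16777217) (nat_lit 13195289527) (.two (nat_lit 16777216) (nat_lit 4206494) (.one (nat_lit 13237235895) .nil))))),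
   .two (nat_lit 2969567427) (nat_lit 159251431781) (.two (nat_lit 1277165635) (nat_lit 10552871453) (.two (nat_lit 2954887176) (nat_lit 4199453) (.two (nat_lit 11546918917) (nat_lit 654319108) (.two (nat_lit 2097153) (nat_lit 11479821474) (.one (nat_lit 2110140) .nil))))),
   .two (nat_lit 4605346150) (nat_lit 165540790902) (.two (nat_lit 13195280451) (nat_lit 16779296) (.two (nat_lit 159232557071) (nat_lit 166237048283) (.two (nat_lit 156367847432) (nat_lit 20745031565) (.two (nat_lit 18928893957) (nat_lit 4605352573) (.two (nat_lit 4194305) (nat_lit 4647299580) (.one (nat_lit 8401256) .nil)))))),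
   .two (nat_lit 639631555) (nat_lit 158158815879) (.two (nat_lit 713031746) (nat_lit 166197200259) (.two (nat_lit 16777231) (nat_lit 2994735633) (.two (nat_lit 9948889096) (nat_lit 183853128338) (.two (nat_lit 16777217) (nat_lit 2108236) (.two (nat_lit 8388608) (nat_lit 11525958740) (.one (nat_lit 8401597) .nil)))))),
   .two (nat_lit 4634706277) (nat_lit 620757611) (.two (nat_lit 2889875523) (nat_lit 156548206031) (.two (nat_lit 754974728) (nat_lit 1379929991) (.two (nat_lit 2902458372) (nat_lit 9902758481) (.two (nat_lit 8388609) (nat_lit 641737670) (.two (nat_lit 8388608) (nat_lit 104868859) (.one (nat_lit 19029569800) .nil)))))),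
   .two (nat_lit 285212867) (nat_lit 2319450769) (.two (nat_lit 285212736) (nat_lit 2319452201) (.two (nat_lit 2902458383) (nat_lit 4198754) (.two (nat_lit 158077026312) (nat_lit 788533137) (.two (nat_lit 69206021) (nat_lit 218110641) (.two (nat_lit 2097153) (nat_lit 16786571) (.two (nat_lit 4194304) (nat_lit 16788661) (.one (nat_lit 4207294) .nil))))))),
   .two (nat_lit 4605345987) (nat_lit 16777891) (.two (nat_lit 19599982709) (nat_lit 19142804322) (.two (nat_lit 8388623) (nat_lit 11559503389) (.two (nat_lit 721420296) (nat_lit 1317015445) (.two (nat_lit 2889875461) (nat_lit 10544487021) (.two (nat_lit 4194305) (nat_lit 3036685356) (.two (nat_lit 4194304) (nat_lit 8400054) (.one (nat_lit 8401549) .nil))))))),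
   .two (nat_lit 184419352933) (nat_lit 10369368718) (.two (nat_lit 159217877059) (nat_lit 11559503896) (.two (nat_lit 809500687) (nat_lit 19127077389) (.two (nat_lit 9866051592) (nat_lit 10907292671) (.two (nat_lit 16777220) (nat_lit 1056275) (.two (nat_lit 9765388289) (nat_lit 2887789542) (.one (nat_lit 1061567) .nil)))))),
   .two (nat_lit 8388965) (nat_lit 117441830) (.two (nat_lit 822083599) (nat_lit 880807336) (.two (nat_lit 50331656) (nat_lit 4638906994) (.two (nat_lit 41943041) (nat_lit 739255379) (.two (nat_lit 8388608) (nat_lit 16788664) (.one (nat_lit 8401600) .nil))))),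
   .two (nat_lit 4605345987) (nat_lit 1212154722) (.two (nat_lit 8388623) (nat_lit 185023339171) (.two (nat_lit 8388609) (nat_lit 9768543327) (.two (nat_lit 4194304) (nat_lit 2927635425) (.one (nat_lit 8400673) .nil)))),
   .two (nat_lit 721420903) (nat_lit 1786774123) (.two (nat_lit 47555018817) (nat_lit 37314626925) (.two (nat_lit 8388623) (nat_lit 788532663) (.two (nat_lit 156365750280) (nat_lit 46414172038) (.two (nat_lit 50331653) (nat_lit 156472710460) (.two (nat_lit 2097153) (nat_lit 1954554871) (.two (nat_lit 2097152) (nat_lit 8400062) (.one (nat_lit 2110145) .nil))))))),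
   .two (nat_lit 1358954691) (nat_lit 2098900) (.two (nat_lit 166197198915) (nat_lit 16780175) (.two (nat_lit 639631375) (nat_lit 9881782783) (.two (nat_lit 184416206856) (nat_lit 1344280400) (.two (nat_lit 739246085) (nat_lit 270539351) (.two (nat_lit 34603009) (nat_lit 2106511) (.two (nat_lit 1048576) (nat_lit 2108608) (.one (nat_lit 1061570) .nil))))))),
   .two (nat_lit 11559502019) (nat_lit 1209009504) (.two (nat_lit 1343225871) (nat_lit 9814676462) (.two (nat_lit 705691652) (nat_lit 16785829) (.two (nat_lit 34603009) (nat_lit 16787389) (.two (nat_lit 1048576) (nat_lit 16788673) (.one (nat_lit 1061240) .nil))))),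
   .two (nat_lit 673186387) (nat_lit 11580473704) (.two (nat_lit 46980399169) (nat_lit 4028630313) (.two (nat_lit 11492392975) (nat_lit 46980401665) (.two (nat_lit 9867100168) (nat_lit 10519321187) (.two (nat_lit 2097153) (nat_lit 19612575619) (.two (nat_lit 2097152) (nat_lit 4205764) (.one (nat_lit 2110147) .nil)))))),
   .two (nat_lit 243269989) (nat_lit 20738736995) (.two (nat_lit 1277165583) (nat_lit 8393060) (.two (nat_lit 9967763469) (nat_lit 21785220086) (.two (nat_lit 159217876997) (nat_lit 156372048560) (.two (nat_lit 156364701697) (nat_lit 3022005247) (.two (nat_lit 1048576) (nat_lit 2108613) (.one (nat_lit 1061244) .nil)))))),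
   .two (nat_lit 159251431781) (nat_lit 10939794008) (.two (nat_lit 47588573422) (nat_lit 159251432290) (.two (nat_lit 3464495119) (nat_lit 156567079441) (.two (nat_lit 1175453704) (nat_lit 47584382874) (.two (nat_lit 159216828421) (nat_lit 2954894827) (.two (nat_lit 156372041729) (nat_lit 101721074) (.two (nat_lit 2097152) (nat_lit 1060767) (.one (nat_lit 4207300) .nil))))))),
   .two (nat_lit 13237223619) (nat_lit 9802088805) (.two (nat_lit 306184259) (nat_lit 1411387283) (.two (nat_lit 4601151493) (nat_lit 2954893935) (.two (nat_lit 4194305) (nat_lit 13222553264) (.one (nat_lit 2110149) .nil)))),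
   .two (nat_lit 3527409859) (nat_lit 166229706120) (.two (nat_lit 2954887183) (nat_lit 10909387290) (.two (nat_lit 46978301960) (nat_lit 183845785485) (.two (nat_lit 13191086085) (nat_lit 2105766) (.two (nat_lit 8388609) (nat_lit 2108237) (.two (nat_lit 1048576) (nat_lit 2109344) (.one (nat_lit 1061574) .nil)))))),
   .two (nat_lit 184549733) (nat_lit 184993972830) (.two (nat_lit 16777283) (nat_lit 21785217537) (.two (nat_lit 184549384) (nat_lit 183853125510) (.two (nat_lit 8388612) (nat_lit 2365594193) (.two (nat_lit 16777217) (nat_lit 343941275) (.two (nat_lit 8388608) (nat_lit 16788687) (.one (nat_lit 16789894) .nil)))))),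
   .two (nat_lit 9781117285) (nat_lit 2098219) (.two (nat_lit 285212736) (nat_lit 2099244) (.two (nat_lit 654311439) (nat_lit 174753581566) (.two (nat_lit 1277165576) (nat_lit 16783205) (.two (nat_lit 16777220) (nat_lit 165526116937) (.two (nat_lit 16777217) (nat_lit 19027471464) (.one (nat_lit 2109832) .nil)))))),
   .two (nat_lit 158646403683) (nat_lit 16777895) (.two (nat_lit 165532401780) (nat_lit 638584195) (.two (nat_lit 3464495119) (nat_lit 2902460941) (.two (nat_lit 9866051592) (nat_lit 16781216) (.two (nat_lit 638582789) (nat_lit 16784924) (.two (nat_lit 8388609) (nat_lit 2953847781) (.two (nat_lit 8388608) (nat_lit 13203679716) (.one (nat_lit 1061257) .nil))))))),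
   .two (nat_lit 47596961987) (nat_lit 183947494442) (.two (nat_lit 4028629109) (nat_lit 855639346) (.two (nat_lit 184416206863) (nat_lit 1224739331) (.two (nat_lit 183845781512) (nat_lit 150998924) (.two (nat_lit 2097157) (nat_lit 10552874296) (.two (nat_lit 2097153) (nat_lit 184557731) (.two (nat_lit 1048576) (nat_lit 2108626) (.one (nat_lit 16790215) .nil))))))),
   .two (nat_lit 1358954691) (nat_lit 203424611) (.two (nat_lit 9948889103) (nat_lit 1377832394) (.two (nat_lit 620757000) (nat_lit 2103142) (.two (nat_lit 184549380) (nat_lit 2104861) (.two (nat_lit 2097153) (nat_lit 8398786) (.two (nat_lit 2097152) (nat_lit 8400801) (.one (nat_lit 2110152) .nil)))))),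
   .two (nat_lit 159224168643) (nat_lit 12617516408) (.two (nat_lit 9934209039) (nat_lit 158192372232) (.two (nat_lit 169869320) (nat_lit 8394599) (.two (nat_lit 184549381) (nat_lit 2920291820) (.two (nat_lit 2097153) (nat_lit 1058755) (.two (nat_lit 2097152) (nat_lit 1060051) (.one (nat_lit 1061577) .nil)))))),
   .two (nat_lit 47547679078) (nat_lit 13195280741) (.two (nat_lit 11492393027) (nat_lit 672139294) (.two (nat_lit 41943055) (nat_lit 11580475934) (.two (nat_lit 4194312) (nat_lit 8394600) (.two (nat_lit 50331653) (nat_lit 8397223) (.two (nat_lit 8388609) (nat_lit 1059662) (.two (nat_lit 8388608) (nat_lit 16788692) (.one (nat_lit 16790218) .nil))))))),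
   .two (nat_lit 157038936259) (nat_lit 4632609131) (.two (nat_lit 739246147) (nat_lit 3024094582) (.two (nat_lit 203423759) (nat_lit 9798947797) (.two (nat_lit 270532613) (nat_lit 46477089412) (.two (nat_lit 156365750273) (nat_lit 183946453980) (.two (nat_lit 2097152) (nat_lit 1060053) (.one (nat_lit 4207307) .nil)))))),
   .two (nat_lit 46477082819) (nat_lit 183853121893) (.two (nat_lit 13195280451) (nat_lit 11479811415) (.two (nat_lit 18933088271) (nat_lit 306186778) (.two (nat_lit 3460300808) (nat_lit 11584674436) (.two (nat_lit 34603009) (nat_lit 171977257) (.one (nat_lit 8401612) .nil))))),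
   .two (nat_lit 3525312707) (nat_lit 156569174625) (.two (nat_lit 46508540012) (nat_lit 183848928623) (.two (nat_lit 205520911) (nat_lit 156533524991) (.two (nat_lit 10506731528) (nat_lit 3525317635) (.two (nat_lit 166132187141) (nat_lit 235937297) (.two (nat_lit 9765388289) (nat_lit 46409983076) (.two (nat_lit 1048576) (nat_lit 4205783) (.one (nat_lit 1061262) .nil))))))),
   .two (nat_lit 9948889445) (nat_lit 9934209382) (.two (nat_lit 2969567298) (nat_lit 19128124750) (.two (nat_lit 2969567247) (nat_lit 10907291064) (.two (nat_lit 705691656) (nat_lit 1761612770) (.two (nat_lit 34603013) (nat_lit 18941483627) (.two (nat_lit 16777217) (nat_lit 12618572944) (.two (nat_lit 2097152) (nat_lit 12129937917) (.one (nat_lit 16789904) .nil))))))),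
   .two (nat_lit 184549733) (nat_lit 11618222687) (.two (nat_lit 16777283) (nat_lit 159224171009) (.two (nat_lit 8388616) (nat_lit 11525951380) (.two (nat_lit 8388612) (nat_lit 10519321188) (.two (nat_lit 16777217) (nat_lit 880812187) (.two (nat_lit 8388608) (nat_lit 12633254450) (.one (nat_lit 8401297) .nil)))))),
   .two (nat_lit 10007609948) (nat_lit 156532474215) (.two (nat_lit 184986632258) (nat_lit 343935487) (.two (nat_lit 21777874952) (nat_lit 1954550770) (.two (nat_lit 713031684) (nat_lit 1055415) (.two (nat_lit 9781116929) (nat_lit 1317020646) (.two (nat_lit 16777216) (nat_lit 1059417) (.one (nat_lit 1061267) .nil)))))),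
   .two (nat_lit 3020947814) (nat_lit 8389288) (.two (nat_lit 46414168172) (nat_lit 10001318755) (.two (nat_lit 4601151503) (nat_lit 2418018846) (.two (nat_lit 20644364296) (nat_lit 158077032294) (.two (nat_lit 13191086085) (nat_lit 2105768) (.two (nat_lit 37748737) (nat_lit 1057941) (.two (nat_lit 2097152) (nat_lit 4206498) (.one (nat_lit 4207309) .nil))))))),
   .two (nat_lit 3558867558) (nat_lit 184550000) (.two (nat_lit 156372041836) (nat_lit 159217878332) (.two (nat_lit 159217877007) (nat_lit 343935487) (.two (nat_lit 9881780232) (nat_lit 20705188474) (.two (nat_lit 2097153) (nat_lit 1224746010) (.two (nat_lit 2097152) (nat_lit 158083329217) (.one (nat_lit 8401302) .nil)))))),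
   .two (nat_lit 13191086275) (nat_lit 343933286) (.two (nat_lit 46409973826) (nat_lit 1384121676) (.two (nat_lit 11551113231) (nat_lit 2353009621) (.two (nat_lit 41943045) (nat_lit 37316729441) (.two (nat_lit 41943041) (nat_lit 19130229845) (.two (nat_lit 8388608) (nat_lit 19597895346) (.one (nat_lit 4207000) .nil)))))),
   .two (nat_lit 156581757285) (nat_lit 20740833922) (.two (nat_lit 2923429953) (nat_lit 166129042275) (.two (nat_lit 142606360) (nat_lit 705694225) (.two (nat_lit 19604176904) (nat_lit 4631564179) (.two (nat_lit 272629765) (nat_lit 202384465) (.two (nat_lit 4194304) (nat_lit 16788058) (.one (nat_lit 16790222) .nil)))))),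
   .two (nat_lit 1310720610) (nat_lit 1191182981) (.two (nat_lit 12617515073) (nat_lit 184550723) (.two (nat_lit 1795162136) (nat_lit 12114201127) (.two (nat_lit 2097165) (nat_lit 50335620) (.two (nat_lit 2097157) (nat_lit 9814678161) (.two (nat_lit 2097153) (nat_lit 16787398) (.two (nat_lit 1048576) (nat_lit 2107995) (.one (nat_lit 1061274) .nil))))))),
   .two (nat_lit 880804035) (nat_lit 184986632799) (.two (nat_lit 11618222145) (nat_lit 2954888568) (.two (nat_lit 1745879055) (nat_lit 9799995277) (.two (nat_lit 2889875460) (nat_lit 1057193) (.two (nat_lit 2097153) (nat_lit 1058759) (.two (nat_lit 8388608) (nat_lit 1060771) (.one (nat_lit 1061583) .nil)))))),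
   .two (nat_lit 4605345987) (nat_lit 156569174686) (.two (nat_lit 4601151598) (nat_lit 183853122845) (.two (nat_lit 205520911) (nat_lit 8393061) (.two (nat_lit 205520904) (nat_lit 8394601) (.two (nat_lit 1276116996) (nat_lit 8397226) (.two (nat_lit 605028353) (nat_lit 4204488) (.two (nat_lit 1048576) (nat_lit 4205789) (.one (nat_lit 1061584) .nil))))))),
   .two (nat_lit 9806282947) (nat_lit 708838734) (.two (nat_lit 4601151503) (nat_lit 1410337283) (.two (nat_lit 4194312) (nat_lit 2332039758) (.two (nat_lit 37748737) (nat_lit 889201784) (.two (nat_lit 4194304) (nat_lit 158176652496) (.one (nat_lit 1061585) .nil))))),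
   .two (nat_lit 184993972581) (nat_lit 184986633511) (.two (nat_lit 713031695) (nat_lit 68160038) (.two (nat_lit 104857608) (nat_lit 9933164435) (.two (nat_lit 10372513797) (nat_lit 28757203567) (.two (nat_lit 605028353) (nat_lit 183916045310) (.two (nat_lit 8388608) (nat_lit 19529739354) (.one (nat_lit 1061586) .nil)))))),
   .two (nat_lit 310378691) (nat_lit 13224640870) (.two (nat_lit 1216348227) (nat_lit 2420114813) (.two (nat_lit 205520911) (nat_lit 13195283907) (.two (nat_lit 2889875464) (nat_lit 166203495420) (.two (nat_lit 272629765) (nat_lit 8395449) (.two (nat_lit 4194305) (nat_lit 184993981522) (.two (nat_lit 4194304) (nat_lit 10335823538) (.one (nat_lit 8401309) .nil))))))),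
   .two (nat_lit 3558867301) (nat_lit 117441157) (.two (nat_lit 2954887235) (nat_lit 50332970) (.two (nat_lit 639631375) (nat_lit 156535624666) (.two (nat_lit 165528207365) (nat_lit 11611937442) (.two (nat_lit 2097153) (nat_lit 16788303) (.two (nat_lit 2097152) (nat_lit 4205791) (.one (nat_lit 2110163) .nil)))))),
   .two (nat_lit 159266111683) (nat_lit 2418017595) (.two (nat_lit 9934209039) (nat_lit 620762088) (.two (nat_lit 1291845636) (nat_lit 2105771) (.two (nat_lit 2097153) (nat_lit 4203670) (.two (nat_lit 2097152) (nat_lit 4206500) (.one (nat_lit 2110164) .nil))))),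
   .two (nat_lit 236978784) (nat_lit 2319450473) (.two (nat_lit 4601151554) (nat_lit 2961180031) (.two (nat_lit 9940500495) (nat_lit 2099747) (.two (nat_lit 612368392) (nat_lit 2103146) (.two (nat_lit 713031685) (nat_lit 19094578293) (.two (nat_lit 2097152) (nat_lit 4206501) (.one (nat_lit 2110165) .nil)))))),
   .two (nat_lit 159266112102) (nat_lit 174753579621) (.two (nat_lit 236978287) (nat_lit 21207450467) (.two (nat_lit 236978200) (nat_lit 285215245) (.two (nat_lit 2887778312) (nat_lit 19612569479) (.two (nat_lit 13187940357) (nat_lit 183928625806) (.two (nat_lit 9766436865) (nat_lit 788538514) (.two (nat_lit 1048576) (nat_lit 16789414) (.one (nat_lit 1061279) .nil))))))),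
   .two (nat_lit 28758245989) (nat_lit 158183981694) (.two (nat_lit 243269699) (nat_lit 2099246) (.two (nat_lit 10336862223) (nat_lit 184423550866) (.two (nat_lit 46407876612) (nat_lit 184423553629) (.two (nat_lit 156365750273) (nat_lit 2424316974) (.two (nat_lit 4194304) (nat_lit 243280389) (.one (nat_lit 2109856) .nil)))))),
   .two (nat_lit 47548727491) (nat_lit 47555019109) (.two (nat_lit 2961178690) (nat_lit 1344275771) (.two (nat_lit 176160783) (nat_lit 11006904863) (.two (nat_lit 158077026312) (nat_lit 12624860189) (.two (nat_lit 20638072836) (nat_lit 12620667503) (.two (nat_lit 612368385) (nat_lit 9902761004) (.two (nat_lit 8388608) (nat_lit 1060775) (.one (nat_lit 2110166) .nil))))))),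
   .two (nat_lit 184993972419) (nat_lit 50332297) (.two (nat_lit 37246468213) (nat_lit 9772729644) (.two (nat_lit 713031695) (nat_lit 9781118493) (.two (nat_lit 50331656) (nat_lit 1384125752) (.two (nat_lit 16777217) (nat_lit 645931147) (.two (nat_lit 1048576) (nat_lit 11484015054) (.one (nat_lit 8401623) .nil)))))),
   .two (nat_lit 10940842342) (nat_lit 16778284) (.two (nat_lit 2902458433) (nat_lit 203425090) (.two (nat_lit 218103823) (nat_lit 165526113714) (.two (nat_lit 1277165576) (nat_lit 2432701756) (.two (nat_lit 41943041) (nat_lit 654319771) (.two (nat_lit 2097152) (nat_lit 8399453) (.one (nat_lit 16789924) .nil)))))),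
   .two (nat_lit 4605346398) (nat_lit 184986633059) (.two (nat_lit 4601151503) (nat_lit 19093524833) (.two (nat_lit 9940500488) (nat_lit 47581237127) (.two (nat_lit 176160772) (nat_lit 28757203579) (.two (nat_lit 34603009) (nat_lit 3560973395) (.two (nat_lit 1048576) (nat_lit 4205795) (.one (nat_lit 4207014) .nil)))))),
   .two (nat_lit 12617515611) (nat_lit 50332319) (.two (nat_lit 754974787) (nat_lit 158646403939) (.two (nat_lit 21207449615) (nat_lit 47563412497) (.two (nat_lit 158143086597) (nat_lit 159232564734) (.two (nat_lit 606076929) (nat_lit 873473710) (.one (nat_lit 16790232) .nil))))),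
   .two (nat_lit 843055299) (nat_lit 158083318390) (.two (nat_lit 4601151552) (nat_lit 20745028977) (.two (nat_lit 41943055) (nat_lit 10003417622) (.two (nat_lit 41943048) (nat_lit 205526869) (.two (nat_lit 4194308) (nat_lit 176168445) (.two (nat_lit 4194305) (nat_lit 3464506589) (.one (nat_lit 4207218) .nil)))))),
   .two (nat_lit 10540286309) (nat_lit 47582283049) (.two (nat_lit 2961178639) (nat_lit 11477716439) (.two (nat_lit 68157448) (nat_lit 10538193913) (.two (nat_lit 9765388293) (nat_lit 874520071) (.two (nat_lit 2097153) (nat_lit 775957495) (.one (nat_lit 1061289) .nil))))),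
   .two (nat_lit 166132187746) (nat_lit 166211879585) (.two (nat_lit 2923429953) (nat_lit 37262198083) (.two (nat_lit 822083599) (nat_lit 1212156416) (.two (nat_lit 46409973768) (nat_lit 20652757974) (.two (nat_lit 75497477) (nat_lit 2936021128) (.two (nat_lit 4194304) (nat_lit 16788063) (.one (nat_lit 9869209354) .nil)))))),
   .two (nat_lit 1847591269) (nat_lit 37246468747) (.two (nat_lit 1847590977) (nat_lit 9899607377) (.two (nat_lit 21207449615) (nat_lit 3558869522) (.two (nat_lit 165525061640) (nat_lit 159217883754) (.two (nat_lit 16777217) (nat_lit 1410344078) (.two (nat_lit 16777216) (nat_lit 1060069) (.one (nat_lit 16790233) .nil)))))),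
   .two (nat_lit 156367847619) (nat_lit 4605346149) (.two (nat_lit 50331715) (nat_lit 276825425) (.two (nat_lit 8388623) (nat_lit 185035917844) (.two (nat_lit 721420296) (nat_lit 780146513) (.two (nat_lit 8388612) (nat_lit 16784930) (.two (nat_lit 8388609) (nat_lit 16787401) (.two (nat_lit 8388608) (nat_lit 16788712) (.one (nat_lit 8401626) .nil))))))),
   .two (nat_lit 156535619941) (nat_lit 19027460711) (.two (nat_lit 46980399171) (nat_lit 28691137912) (.two (nat_lit 3527409679) (nat_lit 337645022) (.two (nat_lit 813694984) (nat_lit 11010051996) (.two (nat_lit 12121538565) (nat_lit 876616292) (.two (nat_lit 4194305) (nat_lit 2107962) (.one (nat_lit 2110049) .nil)))))),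
   .two (nat_lit 16777411) (nat_lit 8389290) (.two (nat_lit 183853121601) (nat_lit 156367848290) (.two (nat_lit 46409973775) (nat_lit 1283459587) (.two (nat_lit 713031688) (nat_lit 3560970915) (.two (nat_lit 4194305) (nat_lit 9940509788) (.two (nat_lit 4194304) (nat_lit 8400105) (.one (nat_lit 4207223) .nil)))))),
   .two (nat_lit 13195280579) (nat_lit 13224641170) (.two (nat_lit 46510637300) (nat_lit 47548728164) (.two (nat_lit 11479810063) (nat_lit 176164300) (.two (nat_lit 12117344264) (nat_lit 9900658579) (.two (nat_lit 157038936069) (nat_lit 243278836) (.two (nat_lit 4194304) (nat_lit 8400808) (.one (nat_lit 8401627) .nil)))))),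
   .two (nat_lit 272630118) (nat_lit 16778285) (.two (nat_lit 20738736241) (nat_lit 2987394337) (.two (nat_lit 3539992591) (nat_lit 9902756847) (.two (nat_lit 2969567237) (nat_lit 1056292) (.two (nat_lit 2097153) (nat_lit 19109258315) (.two (nat_lit 2097152) (nat_lit 1060074) (.one (nat_lit 16790236) .nil)))))),
   .two (nat_lit 9967763651) (nat_lit 285213317) (.two (nat_lit 2988441666) (nat_lit 1853883781) (.two (nat_lit 9934209039) (nat_lit 16779775) (.two (nat_lit 158083317768) (nat_lit 158647458426) (.two (nat_lit 612368385) (nat_lit 2106479) (.two (nat_lit 8388608) (nat_lit 2108444) (.one (nat_lit 2110173) .nil)))))),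
   .two (nat_lit 13224640707) (nat_lit 12148801897) (.two (nat_lit 4613734465) (nat_lit 306185557) (.two (nat_lit 822083599) (nat_lit 19596840839) (.two (nat_lit 157035790341) (nat_lit 2105772) (.two (nat_lit 9765388289) (nat_lit 46489674827) (.two (nat_lit 2097152) (nat_lit 1060777) (.one (nat_lit 16790238) .nil)))))),
   .two (nat_lit 2954887363) (nat_lit 9881780832) (.two (nat_lit 11559501889) (nat_lit 165526111576) (.two (nat_lit 11543773199) (nat_lit 159217879568) (.two (nat_lit 822083592) (nat_lit 2103147) (.two (nat_lit 1343225861) (nat_lit 166144776806) (.two (nat_lit 605028353) (nat_lit 2108240) (.two (nat_lit 1048576) (nat_lit 16788717) (.one (nat_lit 16790239) .nil))))))),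
   .two (nat_lit 16777411) (nat_lit 185027527328) (.two (nat_lit 16777280) (nat_lit 343934247) (.two (nat_lit 50331663) (nat_lit 847252006) (.two (nat_lit 612368392) (nat_lit 46523226759) (.two (nat_lit 2097153) (nat_lit 75506611) (.two (nat_lit 2097152) (nat_lit 8400110) (.one (nat_lit 2110176) .nil)))))),
   .two (nat_lit 46414168421) (nat_lit 205521569) (.two (nat_lit 4605345859) (nat_lit 19599983904) (.two (nat_lit 46414168079) (nat_lit 10506735025) (.two (nat_lit 4194312) (nat_lit 8394604) (.two (nat_lit 183848927236) (nat_lit 1376787992) (.two (nat_lit 605028353) (nat_lit 8399697) (.two (nat_lit 8388608) (nat_lit 21781031954) (.one (nat_lit 1061601) .nil))))))),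
   .two (nat_lit 9934209219) (nat_lit 1795162712) (.two (nat_lit 46980399169) (nat_lit 10538190112) (.two (nat_lit 1291845647) (nat_lit 183916041193) (.two (nat_lit 822083589) (nat_lit 20705191003) (.two (nat_lit 2097152) (nat_lit 16788721) (.one (nat_lit 16790242) .nil))))),
   .two (nat_lit 843055299) (nat_lit 1216348517) (.two (nat_lit 13195280451) (nat_lit 1279264043) (.two (nat_lit 809500687) (nat_lit 645927965) (.two (nat_lit 4194308) (nat_lit 10343160466) (.two (nat_lit 4194305) (nat_lit 8399901) (.one (nat_lit 4207229) .nil))))),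
   .two (nat_lit 13191086275) (nat_lit 1417676064) (.two (nat_lit 4601151503) (nat_lit 2994736560) (.two (nat_lit 18933088264) (nat_lit 19532879703) (.two (nat_lit 158150426629) (nat_lit 2105773) (.two (nat_lit 156367847425) (nat_lit 1210067942) (.one (nat_lit 2110179) .nil))))),
   .two (nat_lit 11577327811) (nat_lit 675283306) (.two (nat_lit 12117344321) (nat_lit 1376781601) (.two (nat_lit 1916796943) (nat_lit 806358439) (.two (nat_lit 1417674765) (nat_lit 12150902685) (.two (nat_lit 8388613) (nat_lit 4202926) (.two (nat_lit 4194305) (nat_lit 8399698) (.two (nat_lit 4194304) (nat_lit 8400120) (.one (nat_lit 1061604) .nil))))))),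
   .two (nat_lit 21827158211) (nat_lit 705692009) (.two (nat_lit 156465365057) (nat_lit 1761609048) (.two (nat_lit 19599982633) (nat_lit 168823300) (.two (nat_lit 1779433480) (nat_lit 16782368) (.two (nat_lit 47550824453) (nat_lit 2902466022) (.two (nat_lit 4194305) (nat_lit 269493343) (.two (nat_lit 4194304) (nat_lit 1060089) (.one (nat_lit 183912902952) .nil))))))),
   .two (nat_lit 3558867548) (nat_lit 12121538919) (.two (nat_lit 2994733122) (nat_lit 166230755839) (.two (nat_lit 47548727304) (nat_lit 11551120025) (.two (nat_lit 2097153) (nat_lit 8397982) (.two (nat_lit 2097152) (nat_lit 8400810) (.one (nat_lit 10376720787) .nil))))),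
   .two (nat_lit 13195280579) (nat_lit 158075978368) (.two (nat_lit 2923430005) (nat_lit 19127075682) (.two (nat_lit 46409973775) (nat_lit 165526114191) (.two (nat_lit 1916796933) (nat_lit 10437534691) (.two (nat_lit 4194304) (nat_lit 2108666) (.one (nat_lit 2110181) .nil))))),
   .two (nat_lit 847249603) (nat_lit 2923430754) (.two (nat_lit 46409973775) (nat_lit 12121543681) (.two (nat_lit 11484004357) (nat_lit 158146239083) (.two (nat_lit 2097153) (nat_lit 9873400763) (.two (nat_lit 2097152) (nat_lit 183848938626) (.one (nat_lit 2110182) .nil))))),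
   .two (nat_lit 3020947814) (nat_lit 176162164) (.two (nat_lit 13195280399) (nat_lit 11511270836) (.two (nat_lit 2961178632) (nat_lit 11580478487) (.two (nat_lit 176160772) (nat_lit 1056295) (.two (nat_lit 2097153) (nat_lit 1058764) (.two (nat_lit 1048576) (nat_lit 4206507) (.one (nat_lit 1061607) .nil)))))),
   .two (nat_lit 83886437) (nat_lit 1049261) (.two (nat_lit 47596961906) (nat_lit 1310721315) (.two (nat_lit 169869327) (nat_lit 620758557) (.two (nat_lit 169869320) (nat_lit 19612569479) (.two (nat_lit 270532613) (nat_lit 10519321198) (.two (nat_lit 50331649) (nat_lit 772809714) (.two (nat_lit 2097152) (nat_lit 156548213220) (.one (nat_lit 4043321102) .nil))))))),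
   .two (nat_lit 165526110565) (nat_lit 165532402316) (.two (nat_lit 9967763523) (nat_lit 9772731531) (.two (nat_lit 50331663) (nat_lit 10338963231) (.two (nat_lit 285212680) (nat_lit 47550829526) (.two (nat_lit 16777220) (nat_lit 156468518565) (.two (nat_lit 8388609) (nat_lit 9802098989) (.two (nat_lit 2097152) (nat_lit 75508820) (.one (nat_lit 2988454589) .nil))))))),
   .two (nat_lit 50331843) (nat_lit 11544823180) (.two (nat_lit 713031695) (nat_lit 20704138364) (.two (nat_lit 41943045) (nat_lit 10907295564) (.two (nat_lit 605028353) (nat_lit 2988452082) (.two (nat_lit 2097152) (nat_lit 158176652809) (.one (nat_lit 2110190) .nil))))),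
   .two (nat_lit 272629955) (nat_lit 1358955916) (.two (nat_lit 9781116943) (nat_lit 1312821145) (.two (nat_lit 2969567237) (nat_lit 28760349281) (.two (nat_lit 16777217) (nat_lit 9802097832) (.two (nat_lit 1048576) (nat_lit 9936317737) (.one (nat_lit 4207343) .nil))))),
   .two (nat_lit 183949591143) (nat_lit 1216348810) (.two (nat_lit 185035915331) (nat_lit 21818771508) (.two (nat_lit 176160783) (nat_lit 2365592554) (.two (nat_lit 16777220) (nat_lit 1178606288) (.two (nat_lit 16777217) (nat_lit 156367857531) (.two (nat_lit 4194304) (nat_lit 8400443) (.one (nat_lit 4207075) .nil)))))),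
   .two (nat_lit 285212867) (nat_lit 4599055003) (.two (nat_lit 11513364546) (nat_lit 1209008994) (.two (nat_lit 9781116943) (nat_lit 4030728721) (.two (nat_lit 169869320) (nat_lit 50335619) (.two (nat_lit 2097157) (nat_lit 50337078) (.two (nat_lit 2097153) (nat_lit 165540798612) (.two (nat_lit 1048576) (nat_lit 874523065) (.one (nat_lit 19127085838) .nil))))))),
   .two (nat_lit 8388803) (nat_lit 218104469) (.two (nat_lit 28790751299) (nat_lit 156466414434) (.two (nat_lit 203423759) (nat_lit 20711475728) (.two (nat_lit 2887778312) (nat_lit 4638904210) (.two (nat_lit 4599054341) (nat_lit 10007614774) (.two (nat_lit 2097153) (nat_lit 157043138707) (.two (nat_lit 1048576) (nat_lit 3028298316) (.one (nat_lit 855651059) .nil))))))),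
   .two (nat_lit 4605345987) (nat_lit 1916797286) (.two (nat_lit 2889875523) (nat_lit 20745028982) (.two (nat_lit 809500687) (nat_lit 11618224666) (.two (nat_lit 272629768) (nat_lit 41944072) (.two (nat_lit 13191086088) (nat_lit 156573371076) (.two (nat_lit 4194308) (nat_lit 159224175291) (.two (nat_lit 4194305) (nat_lit 21785224240) (.two (nat_lit 8388608) (nat_lit 4206169) (.one (nat_lit 4207059) .nil)))))))),
   .two (nat_lit 8388803) (nat_lit 21778924117) (.two (nat_lit 12050235457) (nat_lit 101712738) (.two (nat_lit 185002360847) (nat_lit 101713437) (.two (nat_lit 721420296) (nat_lit 11543777157) (.two (nat_lit 50331653) (nat_lit 11543778615) (.two (nat_lit 50331649) (nat_lit 839917703) (.two (nat_lit 1048576) (nat_lit 337652259) (.one (nat_lit 2105659) .nil))))))),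
   .two (nat_lit 2954887363) (nat_lit 675283690) (.two (nat_lit 8388672) (nat_lit 806355167) (.two (nat_lit 343932993) (nat_lit 46507492202) (.two (nat_lit 3531604006) (nat_lit 2099260) (.two (nat_lit 4601151503) (nat_lit 183845784078) (.two (nat_lit 3525312520) (nat_lit 46406833334) (.two (nat_lit 3531603973) (nat_lit 10538191654) (.two (nat_lit 2097155) (nat_lit 809507541) (.two (nat_lit 156372041729) (nat_lit 11006910603) (.two (nat_lit 1048576) (nat_lit 13188999825) (.one (nat_lit 8401395) .nil)))))))))),
   .two (nat_lit 4601151683) (nat_lit 184417256027) (.two (nat_lit 3539992641) (nat_lit 159217877858) (.two (nat_lit 3539992591) (nat_lit 159217878557) (.two (nat_lit 2954887176) (nat_lit 37753823) (.two (nat_lit 4605345797) (nat_lit 184986637623) (.two (nat_lit 8388609) (nat_lit 806363271) (.two (nat_lit 2097152) (nat_lit 839920163) (.one (nat_lit 13187953138) .nil))))))),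
   .two (nat_lit 46508540261) (nat_lit 19029557877) (.two (nat_lit 276824129) (nat_lit 28793898309) (.two (nat_lit 8388623) (nat_lit 184986634750) (.two (nat_lit 8388616) (nat_lit 337645446) (.two (nat_lit 8388612) (nat_lit 705698458) (.two (nat_lit 8388609) (nat_lit 3460310496) (.two (nat_lit 8388608) (nat_lit 2109018) (.one (nat_lit 8401364) .nil))))))),
   .two (nat_lit 46508540261) (nat_lit 19029557877) (.two (nat_lit 276824129) (nat_lit 28793898309) (.two (nat_lit 8388623) (nat_lit 184986634750) (.two (nat_lit 8388616) (nat_lit 337645446) (.two (nat_lit 8388612) (nat_lit 705698458) (.two (nat_lit 8388609) (nat_lit 3460310496) (.two (nat_lit 8388608) (nat_lit 1060443) (.one (nat_lit 8401364) .nil))))))),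
   .two (nat_lit 9948889283) (nat_lit 21208498837) (.two (nat_lit 174686470211) (nat_lit 174752531298) (.two (nat_lit 46978301967) (nat_lit 19612568069) (.two (nat_lit 705691656) (nat_lit 9781120899) (.two (nat_lit 34603013) (nat_lit 9781122358) (.two (nat_lit 2097153) (nat_lit 11593064586) (.two (nat_lit 2097152) (nat_lit 11492403788) (.one (nat_lit 16790277) .nil))))))),
   .two (nat_lit 2956984418) (nat_lit 184549983) (.two (nat_lit 876609893) (nat_lit 9915334859) (.two (nat_lit 705691713) (nat_lit 184550695) (.two (nat_lit 4194319) (nat_lit 855641551) (.two (nat_lit 19529728008) (nat_lit 641732499) (.two (nat_lit 34603013) (nat_lit 809508324) (.two (nat_lit 2097153) (nat_lit 28760351731) (.two (nat_lit 1048576) (nat_lit 10909394623) (.one (nat_lit 1061333) .nil)))))))),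
   .two (nat_lit 46508540001) (nat_lit 71303785) (.two (nat_lit 46474985537) (nat_lit 4601152847) (.two (nat_lit 3460300815) (nat_lit 20705184266) (.two (nat_lit 157038936072) (nat_lit 2953842568) (.two (nat_lit 171966469) (nat_lit 639638089) (.two (nat_lit 4194305) (nat_lit 2349867958) (.two (nat_lit 4194304) (nat_lit 1060858) (.one (nat_lit 705704054) .nil))))))),
   .two (nat_lit 159224168643) (nat_lit 337641570) (.two (nat_lit 4613734466) (nat_lit 159224169314) (.two (nat_lit 4613734415) (nat_lit 159224170013) (.two (nat_lit 13203669000) (nat_lit 3464501666) (.two (nat_lit 34603013) (nat_lit 1426070100) (.two (nat_lit 2097153) (nat_lit 2349868150) (.two (nat_lit 2097152) (nat_lit 1057036) (.one (nat_lit 1060694) .nil))))))),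
   .two (nat_lit 285212766) (nat_lit 10443817577) (.two (nat_lit 16777411) (nat_lit 12050235591) (.two (nat_lit 16777280) (nat_lit 1317012815) (.two (nat_lit 176160783) (nat_lit 156367848989) (.two (nat_lit 176160776) (nat_lit 104861575) (.two (nat_lit 1283457029) (nat_lit 11525954166) (.two (nat_lit 8388609) (nat_lit 138421220) (.two (nat_lit 8388608) (nat_lit 4204227) (.one (nat_lit 4207093) .nil)))))))),
   .two (nat_lit 9948889183) (nat_lit 183853121893) (.two (nat_lit 1216348517) (nat_lit 47584379079) (.two (nat_lit 183853121601) (nat_lit 11580474703) (.two (nat_lit 713031695) (nat_lit 218106387) (.two (nat_lit 2969567240) (nat_lit 166136385427) (.two (nat_lit 41943045) (nat_lit 166199302782) (.two (nat_lit 16777217) (nat_lit 239084571) (.two (nat_lit 4194304) (nat_lit 679487167) (.one (nat_lit 8401643) .nil)))))))),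
   .two (nat_lit 8388803) (nat_lit 158146232943) (.two (nat_lit 1343225923) (nat_lit 156468511586) (.two (nat_lit 8388623) (nat_lit 11022633479) (.two (nat_lit 4194312) (nat_lit 1417679898) (.two (nat_lit 4194308) (nat_lit 645925669) (.two (nat_lit 4194308) (nat_lit 21793609138) (.two (nat_lit 4194305) (nat_lit 185002366387) (.two (nat_lit 1048576) (nat_lit 339749310) (.one (nat_lit 4205344) .nil)))))))),
   .two (nat_lit 13191086275) (nat_lit 2920284891) (.two (nat_lit 16777283) (nat_lit 9900654815) (.two (nat_lit 16777283) (nat_lit 1782579658) (.two (nat_lit 28690087951) (nat_lit 171969040) (.two (nat_lit 9867100168) (nat_lit 165525066789) (.two (nat_lit 16777221) (nat_lit 3024098734) (.two (nat_lit 16777219) (nat_lit 2886737710) (.two (nat_lit 4194305) (nat_lit 203433721) (.two (nat_lit 2097152) (nat_lit 1059570) (.one (nat_lit 1060697) .nil))))))))),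
   .two (nat_lit 9781117286) (nat_lit 2921332933) (.two (nat_lit 4647288898) (nat_lit 1417675618) (.two (nat_lit 713031695) (nat_lit 11006906424) (.two (nat_lit 713031695) (nat_lit 19093521951) (.two (nat_lit 16777224) (nat_lit 20638077916) (.two (nat_lit 184549381) (nat_lit 3458209202) (.two (nat_lit 184549381) (nat_lit 3458209202) (.two (nat_lit 16777217) (nat_lit 3458209202) (.two (nat_lit 8388608) (nat_lit 2105614) (.one (nat_lit 2109943) .nil))))))))),
   .two (nat_lit 809500867) (nat_lit 28764537192) (.two (nat_lit 10343153731) (nat_lit 1312818020) (.two (nat_lit 183853121551) (nat_lit 158649551365) (.two (nat_lit 606076936) (nat_lit 1182798826) (.two (nat_lit 4194308) (nat_lit 184993976446) (.two (nat_lit 169869316) (nat_lit 2420121669) (.two (nat_lit 2097153) (nat_lit 10343163228) (.two (nat_lit 2097152) (nat_lit 1346382521) (.one (nat_lit 8401400) .nil)))))))),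
   .two (nat_lit 3525312707) (nat_lit 12062818946) (.two (nat_lit 47596961858) (nat_lit 183946445666) (.two (nat_lit 9948889103) (nat_lit 10370419216) (.two (nat_lit 721420296) (nat_lit 21812483041) (.two (nat_lit 8388612) (nat_lit 19529732152) (.two (nat_lit 50331653) (nat_lit 28758252429) (.two (nat_lit 41943041) (nat_lit 4028636028) (.two (nat_lit 2097152) (nat_lit 889203174) (.one (nat_lit 1061638) .nil)))))))),
   .two (nat_lit 41943235) (nat_lit 183946445166) (.two (nat_lit 8388672) (nat_lit 158158816630) (.two (nat_lit 16777231) (nat_lit 1175456258) (.two (nat_lit 16777224) (nat_lit 37313580940) (.two (nat_lit 713031684) (nat_lit 12618570313) (.two (nat_lit 16777217) (nat_lit 10437535111) (.two (nat_lit 8388608) (nat_lit 1377837314) (.one (nat_lit 1061639) .nil))))))),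
   .two (nat_lit 183946444897) (nat_lit 165528207988) (.two (nat_lit 183912890434) (nat_lit 2956985689) (.two (nat_lit 739246095) (nat_lit 50334227) (.two (nat_lit 183848927240) (nat_lit 21793607571) (.two (nat_lit 11476664324) (nat_lit 47550831230) (.two (nat_lit 37748737) (nat_lit 19529737142) (.two (nat_lit 4194304) (nat_lit 16789086) (.one (nat_lit 1061612) .nil))))))),
   .two (nat_lit 19096666307) (nat_lit 10335814268) (.two (nat_lit 8388627) (nat_lit 9966716955) (.two (nat_lit 12117344322) (nat_lit 28093449062) (.two (nat_lit 12117344321) (nat_lit 166129042382) (.two (nat_lit 41943055) (nat_lit 10000272957) (.two (nat_lit 12114198536) (nat_lit 2927628167) (.two (nat_lit 8388612) (nat_lit 687873698) (.two (nat_lit 50331649) (nat_lit 11551122619) (.two (nat_lit 4194304) (nat_lit 8399605) (.one (nat_lit 4207099) .nil))))))))),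
   .two (nat_lit 843055299) (nat_lit 28798091886) (.two (nat_lit 41943075) (nat_lit 3560965427) (.two (nat_lit 880803948) (nat_lit 11513364937) (.two (nat_lit 41943055) (nat_lit 10003417622) (.two (nat_lit 4605345800) (nat_lit 19042144147) (.two (nat_lit 46409973764) (nat_lit 156481102393) (.two (nat_lit 50331649) (nat_lit 4204964) (.two (nat_lit 16777216) (nat_lit 4206588) (.one (nat_lit 4207368) .nil)))))))),
   .two (nat_lit 654311519) (nat_lit 4601151683) (.two (nat_lit 4601151683) (nat_lit 47588573550) (.two (nat_lit 4601151554) (nat_lit 185027528054) (.two (nat_lit 4194319) (nat_lit 2969569811) (.two (nat_lit 156372041736) (nat_lit 183946448798) (.two (nat_lit 4194308) (nat_lit 202381897) (.two (nat_lit 8388609) (nat_lit 185020195798) (.two (nat_lit 8388608) (nat_lit 9798952639) (.one (nat_lit 16790281) .nil)))))))),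
   .two (nat_lit 843055299) (nat_lit 1216348517) (.two (nat_lit 4601151554) (nat_lit 159257724206) (.two (nat_lit 713031695) (nat_lit 10003417622) (.two (nat_lit 16777222) (nat_lit 809506654) (.two (nat_lit 620757000) (nat_lit 156573371178) (.two (nat_lit 10343153669) (nat_lit 12062826134) (.two (nat_lit 612368385) (nat_lit 16785615) (.two (nat_lit 8388608) (nat_lit 16788216) (.one (nat_lit 16790282) .nil)))))))),
   .two (nat_lit 4194398) (nat_lit 1746928263) (.two (nat_lit 9768534211) (nat_lit 166130090456) (.two (nat_lit 41943107) (nat_lit 37314626936) (.two (nat_lit 16777231) (nat_lit 9934210589) (.two (nat_lit 16777224) (nat_lit 19597889422) (.two (nat_lit 16777220) (nat_lit 28758252185) (.two (nat_lit 16777217) (nat_lit 169878658) (.two (nat_lit 8388608) (nat_lit 4205305) (.one (nat_lit 156573381081) .nil)))))))),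
   .two (nat_lit 156533522627) (nat_lit 675283301) (.two (nat_lit 3003121729) (nat_lit 2098490) (.two (nat_lit 117440527) (nat_lit 2956988888) (.two (nat_lit 157038936072) (nat_lit 159266115463) (.two (nat_lit 11479810053) (nat_lit 1913659025) (.two (nat_lit 4194305) (nat_lit 10537149701) (.two (nat_lit 2097152) (nat_lit 2416976191) (.one (nat_lit 16790015) .nil))))))),
   .two (nat_lit 10506731715) (nat_lit 673186658) (.two (nat_lit 47548727363) (nat_lit 1413483011) (.two (nat_lit 9768534031) (nat_lit 807407495) (.two (nat_lit 9768534024) (nat_lit 13222550125) (.two (nat_lit 47548727301) (nat_lit 1413488779) (.two (nat_lit 2097153) (nat_lit 174688579194) (.one (nat_lit 4207619) .nil)))))),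
   .two (nat_lit 13195280579) (nat_lit 4634707281) (.two (nat_lit 4605345856) (nat_lit 28693236243) (.two (nat_lit 809500687) (nat_lit 158183985032) (.two (nat_lit 37748744) (nat_lit 2927629624) (.two (nat_lit 46409973764) (nat_lit 47588581511) (.two (nat_lit 8388609) (nat_lit 1210068593) (.one (nat_lit 2110468) .nil)))))),
   .two (nat_lit 9974055107) (nat_lit 1411384627) (.two (nat_lit 47555018816) (nat_lit 2956988307) (.two (nat_lit 9940500488) (nat_lit 673192584) (.two (nat_lit 47555018757) (nat_lit 9867109348) (.two (nat_lit 8388609) (nat_lit 2107928) (.two (nat_lit 4194304) (nat_lit 2109124) (.one (nat_lit 2110469) .nil)))))),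
   .two (nat_lit 343933123) (nat_lit 1916798274) (.two (nat_lit 1191182444) (nat_lit 183916038676) (.two (nat_lit 183848927247) (nat_lit 11584672731) (.two (nat_lit 11559501832) (nat_lit 19599989369) (.two (nat_lit 721420292) (nat_lit 4203548) (.two (nat_lit 8388609) (nat_lit 16788490) (.two (nat_lit 16777216) (nat_lit 4206705) (.one (nat_lit 4207622) .nil))))))),
   .two (nat_lit 352321731) (nat_lit 28693236259) (.two (nat_lit 276824079) (nat_lit 3525316495) (.two (nat_lit 41943048) (nat_lit 28790758256) (.two (nat_lit 8388609) (nat_lit 2920294071) (.two (nat_lit 8388608) (nat_lit 1060549) (.one (nat_lit 2110471) .nil))))),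
   .two (nat_lit 16777411) (nat_lit 343934284) (.two (nat_lit 2887778369) (nat_lit 37262199301) (.two (nat_lit 276824079) (nat_lit 740298639) (.two (nat_lit 276824072) (nat_lit 236983608) (.two (nat_lit 8388612) (nat_lit 202382191) (.two (nat_lit 8388609) (nat_lit 20637034962) (.two (nat_lit 4194304) (nat_lit 772812403) (.one (nat_lit 1061898) .nil))))))),
   .two (nat_lit 4601151683) (nat_lit 3525314078) (.two (nat_lit 4605345807) (nat_lit 135271736) (.two (nat_lit 209715205) (nat_lit 1279271867) (.two (nat_lit 8388609) (nat_lit 20637034962) (.two (nat_lit 8388608) (nat_lit 1060979) (.one (nat_lit 1061899) .nil))))),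
   .two (nat_lit 156971827806) (nat_lit 156969730914) (.two (nat_lit 28693233729) (nat_lit 3028290055) (.two (nat_lit 159232557071) (nat_lit 2101139) (.two (nat_lit 11551113224) (nat_lit 21793611923) (.two (nat_lit 4194305) (nat_lit 13222553262) (.two (nat_lit 2097152) (nat_lit 183953797637) .nil))))),
   .two (nat_lit 13191086275) (nat_lit 19100861750) (.two (nat_lit 276824130) (nat_lit 104860175) (.two (nat_lit 8388623) (nat_lit 1913655175) (.two (nat_lit 169869320) (nat_lit 4605352582) (.two (nat_lit 2887778308) (nat_lit 4027589646) (.two (nat_lit 2097153) (nat_lit 4034931206) (.two (nat_lit 1048576) (nat_lit 2109556) (.one (nat_lit 9802101558) .nil))))))),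
   .two (nat_lit 46477082819) (nat_lit 28758247938) (.two (nat_lit 639631375) (nat_lit 11614031752) (.two (nat_lit 2887778312) (nat_lit 2956989754) (.two (nat_lit 270532613) (nat_lit 46980407448) (.two (nat_lit 2097153) (nat_lit 608184758) (.two (nat_lit 1048576) (nat_lit 2109057) (.one (nat_lit 2110477) .nil)))))),
   .two (nat_lit 46477082819) (nat_lit 47548728654) (.two (nat_lit 3527409728) (nat_lit 10437528081) (.two (nat_lit 205520911) (nat_lit 28691141646) (.two (nat_lit 157036838920) (nat_lit 1055309) (.two (nat_lit 3525312517) (nat_lit 1276126180) (.two (nat_lit 2097153) (nat_lit 3460311499) (.two (nat_lit 2097152) (nat_lit 156971839174) (.one (nat_lit 4207630) .nil))))))),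
   .two (nat_lit 16777411) (nat_lit 1847593507) (.two (nat_lit 11551113231) (nat_lit 28760346508) (.two (nat_lit 612368392) (nat_lit 236983608) (.two (nat_lit 46414168069) (nat_lit 4632617095) (.two (nat_lit 8388609) (nat_lit 2108428) (.two (nat_lit 2097152) (nat_lit 8401013) (.one (nat_lit 2110359) .nil)))))),
   .two (nat_lit 8388803) (nat_lit 159217878557) (.two (nat_lit 8388623) (nat_lit 1914705211) (.two (nat_lit 8388612) (nat_lit 46507499656) (.two (nat_lit 8388609) (nat_lit 9967775347) (.one (nat_lit 1061903) .nil)))),
   .two (nat_lit 272629955) (nat_lit 9873392940) (.two (nat_lit 4194369) (nat_lit 4605348350) (.two (nat_lit 4194319) (nat_lit 645927925) (.two (nat_lit 4194312) (nat_lit 75504282) (.two (nat_lit 2097157) (nat_lit 1312827056) (.two (nat_lit 1048576) (nat_lit 673197695) (.one (nat_lit 336605703) .nil)))))),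
   .two (nat_lit 13191086275) (nat_lit 605029685) (.two (nat_lit 4601151552) (nat_lit 12114200093) (.two (nat_lit 46409973775) (nat_lit 235936386) (.two (nat_lit 2889875461) (nat_lit 1057822) (.two (nat_lit 9765388289) (nat_lit 37249624593) (.two (nat_lit 4194304) (nat_lit 2109127) (.one (nat_lit 673198996) .nil)))))),
   .two (nat_lit 101712067) (nat_lit 184417257992) (.two (nat_lit 8388623) (nat_lit 28790758256) (.two (nat_lit 8388609) (nat_lit 50341548) (.two (nat_lit 2097152) (nat_lit 1384132714) (.one (nat_lit 2988454671) .nil)))),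
   .two (nat_lit 11543773379) (nat_lit 209716068) (.two (nat_lit 4194369) (nat_lit 46414172037) (.two (nat_lit 4194312) (nat_lit 1786778937) (.two (nat_lit 4194308) (nat_lit 2316314288) (.two (nat_lit 1048576) (nat_lit 47582293649) (.one (nat_lit 1061904) .nil))))),
   .two (nat_lit 352321731) (nat_lit 2894070628) (.two (nat_lit 165532401777) (nat_lit 20704135701) (.two (nat_lit 620757007) (nat_lit 2886734846) (.two (nat_lit 620757000) (nat_lit 10369375702) (.two (nat_lit 270532613) (nat_lit 156581766827) (.two (nat_lit 1048576) (nat_lit 11544833667) (.one (nat_lit 168833539) .nil)))))),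
   .two (nat_lit 184993972419) (nat_lit 16779290) (.two (nat_lit 166132187202) (nat_lit 166129043970) (.two (nat_lit 276824079) (nat_lit 11614031763) (.two (nat_lit 37246468109) (nat_lit 21210602109) (.two (nat_lit 1779433477) (nat_lit 4203551) (.two (nat_lit 34603009) (nat_lit 1379935918) (.two (nat_lit 4194304) (nat_lit 159232569006) (.one (nat_lit 16790545) .nil))))))),
   .two (nat_lit 10504634563) (nat_lit 46510638375) (.two (nat_lit 158083317827) (nat_lit 35654171) (.two (nat_lit 37748751) (nat_lit 11014247418) (.two (nat_lit 104857608) (nat_lit 21812484691) (.two (nat_lit 46409973765) (nat_lit 28087165063) (.two (nat_lit 2097153) (nat_lit 4034931197) (.two (nat_lit 4194304) (nat_lit 8400584) (.one (nat_lit 2110482) .nil))))))),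
   .two (nat_lit 156581757123) (nat_lit 157038936931) (.two (nat_lit 352321652) (nat_lit 8391210) (.two (nat_lit 46409973775) (nat_lit 8393700) (.two (nat_lit 3464495112) (nat_lit 4201956) (.two (nat_lit 47555018757) (nat_lit 13224649752) (.two (nat_lit 4194305) (nat_lit 16787993) (.two (nat_lit 8388608) (nat_lit 1178611363) (.one (nat_lit 4207635) .nil))))))),
   .two (nat_lit 11559502019) (nat_lit 3558868302) (.two (nat_lit 11610882113) (nat_lit 10519317007) (.two (nat_lit 4194319) (nat_lit 721425384) (.two (nat_lit 705691656) (nat_lit 159253535307) (.two (nat_lit 739246085) (nat_lit 16786464) (.two (nat_lit 9768534017) (nat_lit 158143097361) (.two (nat_lit 1048576) (nat_lit 1212165747) (.one (nat_lit 4207636) .nil))))))),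
   .two (nat_lit 156535619779) (nat_lit 673186658) (.two (nat_lit 3458203714) (nat_lit 11584670235) (.two (nat_lit 3527409679) (nat_lit 807407495) (.two (nat_lit 641728520) (nat_lit 1914706514) (.two (nat_lit 2889875460) (nat_lit 2106401) (.two (nat_lit 2097153) (nat_lit 4205082) (.two (nat_lit 2097152) (nat_lit 165528219287) (.one (nat_lit 4207637) .nil))))))),
   .two (nat_lit 158075978085) (nat_lit 10007610909) (.two (nat_lit 8388623) (nat_lit 185020191758) (.two (nat_lit 8388616) (nat_lit 11510225481) (.two (nat_lit 8388612) (nat_lit 156532483760) (.two (nat_lit 1048576) (nat_lit 8400585) (.one (nat_lit 775959477) .nil))))),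
   .two (nat_lit 13203669349) (nat_lit 11584669052) (.two (nat_lit 9867100225) (nat_lit 11559503389) (.two (nat_lit 50331663) (nat_lit 4028632972) (.two (nat_lit 183845781512) (nat_lit 9936311610) (.two (nat_lit 2097157) (nat_lit 11551122444) (.two (nat_lit 34603009) (nat_lit 706750132) (.two (nat_lit 1048576) (nat_lit 2109130) (.one (nat_lit 2110486) .nil))))))),
   .two (nat_lit 21785215171) (nat_lit 788530020) (.two (nat_lit 4647288899) (nat_lit 4197834) (.two (nat_lit 184549391) (nat_lit 2894075198) (.two (nat_lit 713031685) (nat_lit 251666583) (.two (nat_lit 156367847425) (nat_lit 276834824) (.two (nat_lit 4194304) (nat_lit 8400587) (.one (nat_lit 16790551) .nil)))))),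
   .two (nat_lit 1358954691) (nat_lit 10504635756) (.two (nat_lit 2889875523) (nat_lit 159251433991) (.two (nat_lit 184423546895) (nat_lit 138417152) (.two (nat_lit 1929379848) (nat_lit 272636570) (.two (nat_lit 183853121541) (nat_lit 1914709009) (.two (nat_lit 8388609) (nat_lit 1914710513) (.two (nat_lit 8388608) (nat_lit 2109132) (.one (nat_lit 2110488) .nil))))))),
   .two (nat_lit 28757196995) (nat_lit 166130091340) (.two (nat_lit 28758245443) (nat_lit 605030927) (.two (nat_lit 12054429711) (nat_lit 12129931155) (.two (nat_lit 10369368072) (nat_lit 10504641142) (.two (nat_lit 1276116996) (nat_lit 8397858) (.two (nat_lit 605028353) (nat_lit 8399885) (.two (nat_lit 2097152) (nat_lit 8401014) (.one (nat_lit 1061913) .nil))))))),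
   .two (nat_lit 21827158211) (nat_lit 158183981924) (.two (nat_lit 185002360897) (nat_lit 46414172037) (.two (nat_lit 8388616) (nat_lit 20738742926) (.two (nat_lit 1344274437) (nat_lit 11618231310) (.two (nat_lit 8388609) (nat_lit 69216760) (.two (nat_lit 4194304) (nat_lit 606088893) (.one (nat_lit 2110490) .nil)))))),
   .two (nat_lit 11551113573) (nat_lit 1191183650) (.two (nat_lit 158158815297) (nat_lit 156533523997) (.two (nat_lit 285212687) (nat_lit 2921336717) (.two (nat_lit 285212680) (nat_lit 10338966092) (.two (nat_lit 3458203653) (nat_lit 28089263127) (.two (nat_lit 37748737) (nat_lit 159251442132) (.two (nat_lit 2097152) (nat_lit 8401015) (.one (nat_lit 2110491) .nil))))))),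
   .two (nat_lit 2902458726) (nat_lit 742392674) (.two (nat_lit 822083651) (nat_lit 158146234897) (.two (nat_lit 11479810063) (nat_lit 8393750) (.two (nat_lit 156365750280) (nat_lit 156367854191) (.two (nat_lit 1782579205) (nat_lit 16786467) (.two (nat_lit 37748737) (nat_lit 2108430) (.two (nat_lit 16777216) (nat_lit 675294852) (.one (nat_lit 4207644) .nil))))))),
   .two (nat_lit 10552869059) (nat_lit 166230754641) (.two (nat_lit 157038936181) (nat_lit 2961181188) (.two (nat_lit 20705181719) (nat_lit 2902462339) (.two (nat_lit 9867100168) (nat_lit 1761613115) (.two (nat_lit 69206021) (nat_lit 46514841264) (.two (nat_lit 4194304) (nat_lit 11618234025) (.one (nat_lit 4207645) .nil)))))),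
   .two (nat_lit 9781117123) (nat_lit 4195661) (.two (nat_lit 1191182403) (nat_lit 1279265285) (.two (nat_lit 2902458383) (nat_lit 1176506259) (.two (nat_lit 37748744) (nat_lit 47563414124) (.two (nat_lit 9934209029) (nat_lit 1413490352) (.two (nat_lit 2097152) (nat_lit 9768545977) (.one (nat_lit 2110494) .nil)))))),
   .two (nat_lit 13237223619) (nat_lit 645924162) (.two (nat_lit 166132187201) (nat_lit 9867104151) (.two (nat_lit 813694984) (nat_lit 1950358179) (.two (nat_lit 11546918917) (nat_lit 8397860) (.two (nat_lit 37748737) (nat_lit 2107931) (.two (nat_lit 2097152) (nat_lit 4206285) (.one (nat_lit 8401951) .nil)))))),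
   .two (nat_lit 9802088643) (nat_lit 28691137864) (.two (nat_lit 12047089731) (nat_lit 156365752838) (.two (nat_lit 184986632207) (nat_lit 159219978120) (.two (nat_lit 21777874952) (nat_lit 159251438199) (.two (nat_lit 705691652) (nat_lit 2106405) (.two (nat_lit 605028353) (nat_lit 159219984046) (.two (nat_lit 1048576) (nat_lit 10336874177) (.one (nat_lit 2110496) .nil))))))),
   .two (nat_lit 11559502019) (nat_lit 12147754278) (.two (nat_lit 101711939) (nat_lit 11492396931) (.two (nat_lit 9866051592) (nat_lit 9982448957) (.two (nat_lit 721420292) (nat_lit 1057830) (.two (nat_lit 605028353) (nat_lit 16788495) (.two (nat_lit 1048576) (nat_lit 16789624) (.one (nat_lit 1061921) .nil)))))),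
   .two (nat_lit 822083779) (nat_lit 10007610210) (.two (nat_lit 285212738) (nat_lit 10443819554) (.two (nat_lit 176160783) (nat_lit 11492396933) (.two (nat_lit 50331656) (nat_lit 12121545583) (.two (nat_lit 16777217) (nat_lit 679487148) (.two (nat_lit 16777216) (nat_lit 679489146) (.one (nat_lit 8401954) .nil)))))),
   .two (nat_lit 41943235) (nat_lit 2332034358) (.two (nat_lit 285212736) (nat_lit 2349861403) (.two (nat_lit 822083599) (nat_lit 159216833508) (.two (nat_lit 285212680) (nat_lit 11610888827) (.two (nat_lit 16777220) (nat_lit 8397863) (.two (nat_lit 50331649) (nat_lit 12054440373) (.two (nat_lit 2097152) (nat_lit 20637036206) (.one (nat_lit 1061923) .nil))))))),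
   .two (nat_lit 21811429571) (nat_lit 874513733) (.two (nat_lit 174686470211) (nat_lit 68160966) (.two (nat_lit 169869327) (nat_lit 28697431948) (.two (nat_lit 21777874952) (nat_lit 47548734058) (.two (nat_lit 176160772) (nat_lit 2106408) (.two (nat_lit 8388609) (nat_lit 672147122) (.two (nat_lit 8388608) (nat_lit 1060558) (.one (nat_lit 1061924) .nil))))))),
   .two (nat_lit 19093520579) (nat_lit 156466414880) (.two (nat_lit 2961178689) (nat_lit 3036678672) (.two (nat_lit 205520911) (nat_lit 713038493) (.two (nat_lit 708837381) (nat_lit 28093457355) (.two (nat_lit 4194305) (nat_lit 12617524908) (.two (nat_lit 4194304) (nat_lit 2109561) (.one (nat_lit 16790565) .nil)))))),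
   .two (nat_lit 11593056613) (nat_lit 135267171) (.two (nat_lit 9802088515) (nat_lit 102763023) (.two (nat_lit 47596961815) (nat_lit 673189763) (.two (nat_lit 169869320) (nat_lit 156548209282) (.two (nat_lit 9934209029) (nat_lit 1057833) (.two (nat_lit 9781116929) (nat_lit 672149147) (.one (nat_lit 1276130117) .nil)))))),
   .two (nat_lit 13237223619) (nat_lit 11614029145) (.two (nat_lit 185002360897) (nat_lit 10343155229) (.two (nat_lit 47555018767) (nat_lit 1782584317) (.two (nat_lit 9940500488) (nat_lit 3472889150) (.two (nat_lit 9768534021) (nat_lit 9982451854) (.two (nat_lit 37748737) (nat_lit 209725929) (.two (nat_lit 2097152) (nat_lit 37760688) (.one (nat_lit 16790566) .nil))))))),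
   .two (nat_lit 13195280579) (nat_lit 46510638410) (.two (nat_lit 847249475) (nat_lit 21781023237) (.two (nat_lit 156367847439) (nat_lit 713036763) (.two (nat_lit 183853121544) (nat_lit 1055396) (.two (nat_lit 605028357) (nat_lit 8397866) (.two (nat_lit 34603009) (nat_lit 9802100348) (.one (nat_lit 1061927) .nil)))))),
   .two (nat_lit 21811429571) (nat_lit 174753580367) (.two (nat_lit 8388672) (nat_lit 21208501689) (.two (nat_lit 612368399) (nat_lit 3557822352) (.two (nat_lit 158075977736) (nat_lit 11578382923) (.two (nat_lit 612368389) (nat_lit 2106411) (.two (nat_lit 606076929) (nat_lit 46481288903) (.one (nat_lit 2109961) .nil)))))),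
   .two (nat_lit 47548727491) (nat_lit 47596963113) (.two (nat_lit 2988441665) (nat_lit 10906241537) (.two (nat_lit 166245433368) (nat_lit 10537144206) (.two (nat_lit 2894069773) (nat_lit 9814678128) (.two (nat_lit 176160773) (nat_lit 10907297452) (.two (nat_lit 8388608) (nat_lit 1060559) (.one (nat_lit 4207656) .nil)))))),
   .two (nat_lit 158083318118) (nat_lit 20637025122) (.two (nat_lit 12054429761) (nat_lit 46977255953) (.two (nat_lit 809500687) (nat_lit 3020954214) (.two (nat_lit 713031685) (nat_lit 1057836) (.two (nat_lit 8388609) (nat_lit 1059356) (.two (nat_lit 8388608) (nat_lit 1060986) (.one (nat_lit 1061929) .nil)))))),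
   .two (nat_lit 13228835173) (nat_lit 306185506) (.two (nat_lit 4605345903) (nat_lit 19529730564) (.two (nat_lit 8388623) (nat_lit 12114202525) (.two (nat_lit 9940500488) (nat_lit 37246474878) (.two (nat_lit 176160772) (nat_lit 1057837) (.two (nat_lit 9768534017) (nat_lit 10913589784) (.two (nat_lit 4194304) (nat_lit 8401019) (.one (nat_lit 1061930) .nil))))))),
   .two (nat_lit 8388803) (nat_lit 4601152892) (.two (nat_lit 158177689665) (nat_lit 11006904839) (.two (nat_lit 11551113231) (nat_lit 3024099986) (.two (nat_lit 209715205) (nat_lit 174755685336) (.two (nat_lit 8388609) (nat_lit 19597895346) (.two (nat_lit 1048576) (nat_lit 2109136) (.one (nat_lit 1061931) .nil)))))),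
   .two (nat_lit 159266111683) (nat_lit 9900655920) (.two (nat_lit 3525312576) (nat_lit 16780747) (.two (nat_lit 813694991) (nat_lit 9781120899) (.two (nat_lit 159232557064) (nat_lit 706746959) (.two (nat_lit 46409973764) (nat_lit 185021244344) (.two (nat_lit 4194305) (nat_lit 706752128) (.one (nat_lit 8401964) .nil)))))),
   .two (nat_lit 13195280579) (nat_lit 839910244) (.two (nat_lit 176160835) (nat_lit 4043311655) (.two (nat_lit 41943055) (nat_lit 165525066751) (.two (nat_lit 12054429704) (nat_lit 4598011193) (.two (nat_lit 184549381) (nat_lit 158183989384) (.two (nat_lit 16777217) (nat_lit 34613731) (.two (nat_lit 1048576) (nat_lit 8400593) (.one (nat_lit 8401965) .nil))))))),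
   .two (nat_lit 183916036291) (nat_lit 2920285531) (.two (nat_lit 12114198595) (nat_lit 28693235230) (.two (nat_lit 19596836879) (nat_lit 1176509057) (.two (nat_lit 270532613) (nat_lit 4203566) (.two (nat_lit 34603009) (nat_lit 2108432) (.two (nat_lit 4194304) (nat_lit 1060988) (.one (nat_lit 4207662) .nil)))))),
   .two (nat_lit 10519314789) (nat_lit 183916037455) (.two (nat_lit 3539992642) (nat_lit 2923433409) (.two (nat_lit 156372041743) (nat_lit 101715862) (.two (nat_lit 12050235400) (nat_lit 8396261) (.two (nat_lit 9765388293) (nat_lit 9768543922) (.two (nat_lit 4194304) (nat_lit 2954899081) (.one (nat_lit 8401967) .nil)))))),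
   .two (nat_lit 3527409859) (nat_lit 2961179998) (.two (nat_lit 183853121601) (nat_lit 157038938625) (.two (nat_lit 4601151503) (nat_lit 9772732302) (.two (nat_lit 843055117) (nat_lit 142613107) (.two (nat_lit 13195280389) (nat_lit 4203567) (.two (nat_lit 37748737) (nat_lit 8399889) (.two (nat_lit 8388608) (nat_lit 4601163446) (.one (nat_lit 4207664) .nil))))))),
   .two (nat_lit 310378691) (nat_lit 83886946) (.two (nat_lit 620757059) (nat_lit 183853123102) (.two (nat_lit 721420303) (nat_lit 9873395614) (.two (nat_lit 276824072) (nat_lit 46422563695) (.two (nat_lit 41943041) (nat_lit 1962944172) (.two (nat_lit 1048576) (nat_lit 8400594) (.one (nat_lit 8401969) .nil)))))),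
   .two (nat_lit 135266662) (nat_lit 46422558006) (.two (nat_lit 46414168129) (nat_lit 11626614184) (.two (nat_lit 11559501839) (nat_lit 8393751) (.two (nat_lit 11543773192) (nat_lit 183962180250) (.two (nat_lit 209715205) (nat_lit 16786480) (.two (nat_lit 50331649) (nat_lit 1059858) (.two (nat_lit 1048576) (nat_lit 8401021) (.one (nat_lit 8401970) .nil))))))),
   .two (nat_lit 2994733251) (nat_lit 156548203875) (.two (nat_lit 4601151555) (nat_lit 21811431957) (.two (nat_lit 721420311) (nat_lit 2420117391) (.two (nat_lit 68157448) (nat_lit 1182800470) (.two (nat_lit 705691652) (nat_lit 1921000393) (.two (nat_lit 34603009) (nat_lit 306196127) (.one (nat_lit 4207667) .nil)))))),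
   .two (nat_lit 158143086787) (nat_lit 1948255600) (.two (nat_lit 1310720113) (nat_lit 12155095564) (.two (nat_lit 47555018767) (nat_lit 1847594892) (.two (nat_lit 158144135176) (nat_lit 18933095028) (.two (nat_lit 2954887173) (nat_lit 46507500537) (.two (nat_lit 2097153) (nat_lit 46406838745) (.two (nat_lit 1048576) (nat_lit 156365762184) (.one (nat_lit 8401972) .nil))))))),
   .two (nat_lit 156372041923) (nat_lit 1745880444) (.two (nat_lit 184986632258) (nat_lit 156372043293) (.two (nat_lit 169869327) (nat_lit 158183987791) (.two (nat_lit 8388612) (nat_lit 11610891191) (.two (nat_lit 606076929) (nat_lit 21777886845) (.one (nat_lit 1061941) .nil))))),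
   .two (nat_lit 620757187) (nat_lit 4605347111) (.two (nat_lit 16777280) (nat_lit 165532405638) (.two (nat_lit 620757000) (nat_lit 276830820) (.two (nat_lit 176160773) (nat_lit 352331443) (.two (nat_lit 8388608) (nat_lit 2969579196) (.one (nat_lit 1283469827) .nil))))),
   .two (nat_lit 159251431619) (nat_lit 2994734460) (.two (nat_lit 2954887232) (nat_lit 8392140) (.two (nat_lit 37748751) (nat_lit 3028291459) (.two (nat_lit 12050235400) (nat_lit 2424313149) (.two (nat_lit 2887778308) (nat_lit 2927633396) (.two (nat_lit 2097153) (nat_lit 1312827053) (.two (nat_lit 2097152) (nat_lit 8400595) (.one (nat_lit 2110518) .nil))))))),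
   .two (nat_lit 50331843) (nat_lit 8390683) (.two (nat_lit 16777280) (nat_lit 158150429219) (.two (nat_lit 184549391) (nat_lit 4034927217) (.two (nat_lit 620756997) (nat_lit 11618231316) (.two (nat_lit 8388609) (nat_lit 9781127701) (.two (nat_lit 16777216) (nat_lit 8400596) (.one (nat_lit 41956201) .nil)))))),
   .two (nat_lit 654311619) (nat_lit 20705183085) (.two (nat_lit 1191182403) (nat_lit 11580475939) (.two (nat_lit 2902458383) (nat_lit 47584383958) (.two (nat_lit 606076936) (nat_lit 183861517167) (.two (nat_lit 2097153) (nat_lit 9902762451) (.two (nat_lit 16777216) (nat_lit 773861047) (.one (nat_lit 4207671) .nil)))))),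
   .two (nat_lit 11543773379) (nat_lit 713033036) (.two (nat_lit 339738690) (nat_lit 11618226053) (.two (nat_lit 4194312) (nat_lit 19033756987) (.two (nat_lit 34603013) (nat_lit 47550834360) (.two (nat_lit 1048576) (nat_lit 337653420) (.one (nat_lit 2110520) .nil))))),
   .two (nat_lit 620757187) (nat_lit 1786774837) (.two (nat_lit 16777280) (nat_lit 183853123102) (.two (nat_lit 83886095) (nat_lit 20704138208) (.two (nat_lit 276824072) (nat_lit 50337078) (.two (nat_lit 8388613) (nat_lit 19545464980) (.two (nat_lit 41943041) (nat_lit 9933170354) (.two (nat_lit 1048576) (nat_lit 9974066830) (.one (nat_lit 1061945) .nil))))))),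
   .two (nat_lit 9974055107) (nat_lit 10907288874) (.two (nat_lit 47555018816) (nat_lit 2100685) (.two (nat_lit 37748751) (nat_lit 10343157636) (.two (nat_lit 606076936) (nat_lit 10510932625) (.two (nat_lit 2887778308) (nat_lit 4638909399) (.two (nat_lit 4194305) (nat_lit 184987692734) (.one (nat_lit 47582294882) .nil)))))),
   .two (nat_lit 303038822) (nat_lit 159224169314) (.two (nat_lit 4613734466) (nat_lit 10007613315) (.two (nat_lit 285212680) (nat_lit 11577334414) (.two (nat_lit 183861510149) (nat_lit 2894079016) (.two (nat_lit 2097153) (nat_lit 1426074596) (.two (nat_lit 2097152) (nat_lit 235942001) (.one (nat_lit 1061946) .nil)))))),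
   .two (nat_lit 21785215171) (nat_lit 2432697669) (.two (nat_lit 1358954563) (nat_lit 41945627) (.two (nat_lit 612368399) (nat_lit 318771090) (.two (nat_lit 75497480) (nat_lit 13237230185) (.two (nat_lit 176160772) (nat_lit 16786481) (.two (nat_lit 605028353) (nat_lit 151004845) (.two (nat_lit 1048576) (nat_lit 8400597) (.one (nat_lit 1061947) .nil))))))),
   .two (nat_lit 809500867) (nat_lit 12155094323) (.two (nat_lit 12117344321) (nat_lit 1377832851) (.two (nat_lit 37748744) (nat_lit 11551119980) (.two (nat_lit 1176502277) (nat_lit 1749033977) (.two (nat_lit 2097153) (nat_lit 18928905913) (.one (nat_lit 2109960) .nil))))),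
   .two (nat_lit 4647289027) (nat_lit 158183982414) (.two (nat_lit 4613734465) (nat_lit 880807814) (.two (nat_lit 3539992584) (nat_lit 21778930262) (.two (nat_lit 16777221) (nat_lit 11014251476) (.two (nat_lit 620756993) (nat_lit 183846840822) (.two (nat_lit 1048576) (nat_lit 184561333) (.one (nat_lit 2110524) .nil)))))),
   .two (nat_lit 156367847619) (nat_lit 1753219938) (.two (nat_lit 306184258) (nat_lit 3464497682) (.two (nat_lit 620757007) (nat_lit 185027531789) (.two (nat_lit 809500680) (nat_lit 18941482299) (.two (nat_lit 4194308) (nat_lit 12062826632) (.two (nat_lit 4194305) (nat_lit 9772738226) (.two (nat_lit 8388608) (nat_lit 46510649003) (.one (nat_lit 4207677) .nil))))))),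
   .two (nat_lit 4647289027) (nat_lit 47584381446) (.two (nat_lit 285212687) (nat_lit 20707282828) (.two (nat_lit 3539992584) (nat_lit 10372520524) (.two (nat_lit 11492392965) (nat_lit 9969869833) (.two (nat_lit 34603009) (nat_lit 171978371) (.one (nat_lit 34616188) .nil))))),
   .two (nat_lit 159224168643) (nat_lit 174768260441) (.two (nat_lit 47555018816) (nat_lit 2969569805) (.two (nat_lit 50331663) (nat_lit 713036763) (.two (nat_lit 713031688) (nat_lit 11543779951) (.two (nat_lit 721420293) (nat_lit 1209017372) (.two (nat_lit 16777217) (nat_lit 9966726822) (.one (nat_lit 10385109508) .nil)))))),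
   .two (nat_lit 47555018947) (nat_lit 46523221346) (.two (nat_lit 158192369731) (nat_lit 157035793869) (.two (nat_lit 176160783) (nat_lit 1358958468) (.two (nat_lit 1175453704) (nat_lit 47563414115) (.two (nat_lit 754974725) (nat_lit 1057843) (.two (nat_lit 612368385) (nat_lit 202387134) (.one (nat_lit 1061950) .nil)))))),
   .two (nat_lit 285212867) (nat_lit 46984594796) (.two (nat_lit 47555018816) (nat_lit 11525949991) (.two (nat_lit 16777231) (nat_lit 1182797721) (.two (nat_lit 176160776) (nat_lit 2332041360) (.two (nat_lit 612368385) (nat_lit 3472894440) (.two (nat_lit 2097152) (nat_lit 184562182) .nil))))),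
   .two (nat_lit 310378691) (nat_lit 11513365799) (.two (nat_lit 4605345856) (nat_lit 4197839) (.two (nat_lit 809500687) (nat_lit 158183985032) (.two (nat_lit 4194312) (nat_lit 2927629624) (.two (nat_lit 4194308) (nat_lit 8396959) (.two (nat_lit 4194305) (nat_lit 8399390) (.two (nat_lit 1048576) (nat_lit 4206721) (.one (nat_lit 1061952) .nil))))))),
   .two (nat_lit 11543773379) (nat_lit 3565160967) (.two (nat_lit 11543773199) (nat_lit 20711477144) (.two (nat_lit 705691656) (nat_lit 746593135) (.two (nat_lit 2097153) (nat_lit 75507381) (.two (nat_lit 2097152) (nat_lit 11584680455) .nil)))),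
   .two (nat_lit 21785215171) (nat_lit 19042142741) (.two (nat_lit 184549391) (nat_lit 813698962) (.two (nat_lit 620757000) (nat_lit 11484011104) (.two (nat_lit 612368389) (nat_lit 19612575407) (.two (nat_lit 8388608) (nat_lit 19612577414) (.one (nat_lit 16790593) .nil))))),
   .two (nat_lit 28758245982) (nat_lit 166229705570) (.two (nat_lit 11476664385) (nat_lit 608176665) (.two (nat_lit 10370416655) (nat_lit 1379930001) (.two (nat_lit 2887778312) (nat_lit 156367854186) (.two (nat_lit 171966469) (nat_lit 184423555219) (.two (nat_lit 2097153) (nat_lit 46406837944) (.two (nat_lit 1048576) (nat_lit 2109142) (.one (nat_lit 20640182787) .nil))))))),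
   .two (nat_lit 10015998147) (nat_lit 20644365607) (.two (nat_lit 16777280) (nat_lit 12054432275) (.two (nat_lit 612368399) (nat_lit 10955527481) (.two (nat_lit 176160772) (nat_lit 2365595792) (.two (nat_lit 50331649) (nat_lit 2990549449) (.two (nat_lit 4194304) (nat_lit 2994744977) (.one (nat_lit 4207687) .nil)))))),
   .two (nat_lit 9781117123) (nat_lit 19599983953) (.two (nat_lit 285212736) (nat_lit 157038938626) (.two (nat_lit 822083599) (nat_lit 21814579082) (.two (nat_lit 46980399112) (nat_lit 10921973051) (.two (nat_lit 708837381) (nat_lit 889202355) (.two (nat_lit 2097152) (nat_lit 10372525699) (.one (nat_lit 9936319304) .nil)))))),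
   .two (nat_lit 159224168643) (nat_lit 9948890449) (.two (nat_lit 142606403) (nat_lit 11610885565) (.two (nat_lit 620757007) (nat_lit 109055886) (.two (nat_lit 612368392) (nat_lit 18941482297) (.two (nat_lit 620756997) (nat_lit 4605355057) (.two (nat_lit 8388609) (nat_lit 158091717096) (.two (nat_lit 1048576) (nat_lit 8400599) (.one (nat_lit 16790601) .nil))))))),
   .two (nat_lit 142606531) (nat_lit 10939794748) (.two (nat_lit 11584667714) (nat_lit 156532476432) (.two (nat_lit 276824079) (nat_lit 46992986008) (.two (nat_lit 713031688) (nat_lit 19142810247) (.two (nat_lit 183845781508) (nat_lit 3472892980) (.two (nat_lit 34603009) (nat_lit 8399392) (.two (nat_lit 1048576) (nat_lit 10016009902) (.one (nat_lit 16790607) .nil))))))),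
   .two (nat_lit 1317011813) (nat_lit 10336863597) (.two (nat_lit 12129927234) (nat_lit 3024097182) (.two (nat_lit 9768534024) (nat_lit 3022002791) (.two (nat_lit 721420292) (nat_lit 19134423183) (.two (nat_lit 4194305) (nat_lit 47582292412) (.two (nat_lit 2097152) (nat_lit 184989789868) (.one (nat_lit 16790609) .nil)))))),
   .two (nat_lit 3525312707) (nat_lit 46510637922) (.two (nat_lit 46510637122) (nat_lit 21777877531) (.two (nat_lit 166130089999) (nat_lit 20707282823) (.two (nat_lit 205520904) (nat_lit 136321632) (.two (nat_lit 166130089988) (nat_lit 156566036616) (.two (nat_lit 9768534017) (nat_lit 174685432307) (.two (nat_lit 4194304) (nat_lit 2349870763) (.one (nat_lit 1061970) .nil))))))),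
   .two (nat_lit 16777411) (nat_lit 612369773) (.two (nat_lit 285212736) (nat_lit 156971829762) (.two (nat_lit 184549391) (nat_lit 156573372298) (.two (nat_lit 156367847432) (nat_lit 645929559) (.two (nat_lit 1178599429) (nat_lit 16784238) (.two (nat_lit 4194305) (nat_lit 746598019) (.one (nat_lit 4207700) .nil)))))),
   .two (nat_lit 285212867) (nat_lit 310379852) (.two (nat_lit 8388674) (nat_lit 9781118494) (.two (nat_lit 2969567247) (nat_lit 2418020248) (.two (nat_lit 16777224) (nat_lit 28764542267) (.two (nat_lit 176160773) (nat_lit 20738745305) (.two (nat_lit 2097153) (nat_lit 11584678364) (.two (nat_lit 8388608) (nat_lit 11611942532) (.one (nat_lit 2110549) .nil))))))),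
   .two (nat_lit 4647289027) (nat_lit 184419353442) (.two (nat_lit 285212736) (nat_lit 3560966687) (.two (nat_lit 9781116943) (nat_lit 10003419020) (.two (nat_lit 3539992584) (nat_lit 9936312935) (.two (nat_lit 11492392965) (nat_lit 1312826370) (.two (nat_lit 34603009) (nat_lit 47550836353) (.one (nat_lit 1061975) .nil)))))),
   .two (nat_lit 1962934467) (nat_lit 1049987) (.two (nat_lit 20704133236) (nat_lit 3527412260) (.two (nat_lit 28086108175) (nat_lit 20740838405) (.two (nat_lit 822083592) (nat_lit 1279268156) (.two (nat_lit 166144770053) (nat_lit 4203578) (.two (nat_lit 156372041729) (nat_lit 19532884450) (.two (nat_lit 1048576) (nat_lit 4206732) (.one (nat_lit 4207704) .nil))))))),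
   .two (nat_lit 1358954691) (nat_lit 10537141092) (.two (nat_lit 754974785) (nat_lit 157035792902) (.two (nat_lit 822083599) (nat_lit 2920289249) (.two (nat_lit 68157448) (nat_lit 352326968) (.two (nat_lit 605028357) (nat_lit 1795170456) (.two (nat_lit 4194305) (nat_lit 10503597697) (.one (nat_lit 1061978) .nil)))))),
   .two (nat_lit 272629955) (nat_lit 10504635234) (.two (nat_lit 4194369) (nat_lit 4605348350) (.two (nat_lit 37748751) (nat_lit 109057013) (.two (nat_lit 37748744) (nat_lit 1410341499) (.two (nat_lit 4194308) (nat_lit 8397883) (.two (nat_lit 4194305) (nat_lit 169880070) (.two (nat_lit 2097152) (nat_lit 10436489732) .nil)))))),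
   .two (nat_lit 11559502019) (nat_lit 12624856428) (.two (nat_lit 3464495169) (nat_lit 1358957079) (.two (nat_lit 50331663) (nat_lit 10376712078) (.two (nat_lit 8388616) (nat_lit 165540795705) (.two (nat_lit 8388612) (nat_lit 10921975952) (.two (nat_lit 8388609) (nat_lit 12062829032) (.two (nat_lit 1048576) (nat_lit 50344454) .nil)))))),
   .two (nat_lit 9948889283) (nat_lit 158183982448) (.two (nat_lit 28693233729) (nat_lit 20753418779) (.two (nat_lit 159232557071) (nat_lit 2961184061) (.two (nat_lit 721420293) (nat_lit 41951386) (.two (nat_lit 4194305) (nat_lit 75508256) (.two (nat_lit 4194304) (nat_lit 8400601) (.one (nat_lit 4207709) .nil)))))),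
   .two (nat_lit 47596961987) (nat_lit 174753579874) (.two (nat_lit 47596961859) (nat_lit 270535172) (.two (nat_lit 2969567247) (nat_lit 13222547338) (.two (nat_lit 21208498184) (nat_lit 151000379) (.two (nat_lit 158144135173) (nat_lit 184431942511) (.two (nat_lit 605028353) (nat_lit 102772355) (.one (nat_lit 16790623) .nil)))))),
   .two (nat_lit 822083779) (nat_lit 12114199884) (.two (nat_lit 739246146) (nat_lit 822085149) (.two (nat_lit 8388623) (nat_lit 21207456411) (.two (nat_lit 8388612) (nat_lit 4043318210) (.two (nat_lit 34603009) (nat_lit 713042418) (.two (nat_lit 1048576) (nat_lit 8400602) (.one (nat_lit 166211892121) .nil)))))),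
   .two (nat_lit 1753219267) (nat_lit 28757198195) (.two (nat_lit 184993972289) (nat_lit 1052113) (.two (nat_lit 4613734415) (nat_lit 183853125507) (.two (nat_lit 3539992584) (nat_lit 9940507278) (.two (nat_lit 16777220) (nat_lit 10913587354) (.two (nat_lit 34603009) (nat_lit 2332042925) (.two (nat_lit 1048576) (nat_lit 16789214) (.one (nat_lit 8402020) .nil))))))),
   .two (nat_lit 13195280579) (nat_lit 9802090013) (.two (nat_lit 4601151503) (nat_lit 2961184061) (.two (nat_lit 4194308) (nat_lit 41952236) (.two (nat_lit 37748737) (nat_lit 4605357053) (.two (nat_lit 4194304) (nat_lit 8401041) (.one (nat_lit 4601164564) .nil))))),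
   .two (nat_lit 16777411) (nat_lit 2098472) (.two (nat_lit 4601151552) (nat_lit 4638903746) (.two (nat_lit 8388623) (nat_lit 236983608) (.two (nat_lit 8388612) (nat_lit 9902760085) (.two (nat_lit 8388609) (nat_lit 3003132446) (.two (nat_lit 8388608) (nat_lit 2109151) (.one (nat_lit 4207717) .nil)))))),
   .two (nat_lit 13195280579) (nat_lit 9915336015) (.two (nat_lit 3525312576) (nat_lit 3573550529) (.two (nat_lit 721420303) (nat_lit 2961182610) (.two (nat_lit 41943048) (nat_lit 687871291) (.two (nat_lit 50331653) (nat_lit 3565167576) (.two (nat_lit 8388609) (nat_lit 69217904) (.one (nat_lit 2961191880) .nil)))))),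
   .two (nat_lit 10007609539) (nat_lit 159217878338) (.two (nat_lit 3525312576) (nat_lit 3531606542) (.two (nat_lit 46407876623) (nat_lit 11618226053) (.two (nat_lit 2961178632) (nat_lit 3022002781) (.two (nat_lit 806354949) (nat_lit 10007618549) (.two (nat_lit 34603009) (nat_lit 13188998834) (.two (nat_lit 1048576) (nat_lit 3464507051) (.one (nat_lit 2110567) .nil))))))),
   .two (nat_lit 158647452006) (nat_lit 19093521949) (.two (nat_lit 11559501839) (nat_lit 3457159047) (.two (nat_lit 50331656) (nat_lit 3557825179) (.two (nat_lit 3472883717) (nat_lit 3458212876) (.two (nat_lit 620756993) (nat_lit 68168164) (.two (nat_lit 1048576) (nat_lit 2109587) (.one (nat_lit 1061992) .nil)))))),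
   .two (nat_lit 306184387) (nat_lit 165540792838) (.two (nat_lit 9940500495) (nat_lit 28772929415) (.two (nat_lit 8388616) (nat_lit 47584385629) (.two (nat_lit 176160772) (nat_lit 20753425351) (.two (nat_lit 8388609) (nat_lit 4205600) (.two (nat_lit 16777216) (nat_lit 8401044) (.one (nat_lit 4207721) .nil)))))),
   .two (nat_lit 306184387) (nat_lit 185027529222) (.two (nat_lit 272629775) (nat_lit 158150430604) (.two (nat_lit 46414168072) (nat_lit 158146239053) (.two (nat_lit 183848927236) (nat_lit 2357208035) (.two (nat_lit 8388609) (nat_lit 183916046865) (.two (nat_lit 4194304) (nat_lit 28798103153) (.one (nat_lit 4207722) .nil)))))),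
   .two (nat_lit 9781117123) (nat_lit 18928895356) (.two (nat_lit 9781117040) (nat_lit 159217878557) (.two (nat_lit 37748751) (nat_lit 16782646) (.two (nat_lit 4194308) (nat_lit 156984418452) (.two (nat_lit 2097153) (nat_lit 20740843181) (.two (nat_lit 2097152) (nat_lit 37760722) (.one (nat_lit 16790635) .nil)))))),
   .two (nat_lit 16777411) (nat_lit 158083318626) (.two (nat_lit 16777280) (nat_lit 159224170013) (.two (nat_lit 16777231) (nat_lit 209719192) (.two (nat_lit 184549384) (nat_lit 4638906973) (.two (nat_lit 176160772) (nat_lit 16785568) (.two (nat_lit 16777217) (nat_lit 847260095) (.two (nat_lit 16777216) (nat_lit 3565170357) (.one (nat_lit 16790636) .nil))))))),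
   .two (nat_lit 9768534211) (nat_lit 12148802864) (.two (nat_lit 272629826) (nat_lit 18926799402) (.two (nat_lit 272629775) (nat_lit 1176507372) (.two (nat_lit 272629768) (nat_lit 159257729626) (.two (nat_lit 2889875460) (nat_lit 20705190852) (.two (nat_lit 4194305) (nat_lit 2954899137) (.one (nat_lit 2990551914) .nil)))))),
   .two (nat_lit 847249603) (nat_lit 3527410530) (.two (nat_lit 310378562) (nat_lit 775948832) (.two (nat_lit 37748751) (nat_lit 185027532093) (.two (nat_lit 69206021) (nat_lit 142615532) (.two (nat_lit 2097153) (nat_lit 11580485309) (.one (nat_lit 773862280) .nil))))),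
   .two (nat_lit 13191086275) (nat_lit 10343155230) (.two (nat_lit 46414168079) (nat_lit 9802092419) (.two (nat_lit 176160776) (nat_lit 166199302733) (.two (nat_lit 169869316) (nat_lit 4203581) (.two (nat_lit 2097153) (nat_lit 4205601) (.two (nat_lit 2097152) (nat_lit 1921003183) (.one (nat_lit 4207725) .nil)))))),
   .two (nat_lit 50331843) (nat_lit 1847593507) (.two (nat_lit 9940500495) (nat_lit 203428848) (.two (nat_lit 612368392) (nat_lit 1176507707) (.two (nat_lit 176160773) (nat_lit 4601159838) (.two (nat_lit 8388609) (nat_lit 2107939) (.two (nat_lit 2097152) (nat_lit 41955445) (.one (nat_lit 2110574) .nil)))))),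
   .two (nat_lit 11559502019) (nat_lit 679478601) (.two (nat_lit 8388672) (nat_lit 11559503389) (.two (nat_lit 176160783) (nat_lit 687869849) (.two (nat_lit 721420296) (nat_lit 880809270) (.two (nat_lit 8388612) (nat_lit 16786494) (.two (nat_lit 41943041) (nat_lit 159232567817) (.two (nat_lit 8388608) (nat_lit 9915346613) (.one (nat_lit 8402031) .nil))))))),
   .two (nat_lit 2954887363) (nat_lit 4195641) (.two (nat_lit 772800577) (nat_lit 4599058323) (.two (nat_lit 12047089672) (nat_lit 46508546664) (.two (nat_lit 28757196805) (nat_lit 2106431) (.two (nat_lit 9765388289) (nat_lit 37247527385) (.two (nat_lit 1048576) (nat_lit 2109152) (.one (nat_lit 2110576) .nil)))))),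
   .two (nat_lit 11559502019) (nat_lit 37313577827) (.two (nat_lit 185035915330) (nat_lit 9765390859) (.two (nat_lit 11492392975) (nat_lit 705696787) (.two (nat_lit 158075977736) (nat_lit 158192375096) (.two (nat_lit 21777874949) (nat_lit 3472890735) (.two (nat_lit 605028353) (nat_lit 10921977519) (.two (nat_lit 1048576) (nat_lit 21827169913) (.one (nat_lit 16790641) .nil))))))),
   .two (nat_lit 11007951043) (nat_lit 18925749598) (.two (nat_lit 20704133185) (nat_lit 19027462657) (.two (nat_lit 158143086607) (nat_lit 156533526404) (.two (nat_lit 165526110216) (nat_lit 1276123801) (.two (nat_lit 9934209029) (nat_lit 1057856) (.two (nat_lit 34603009) (nat_lit 9800002547) (.two (nat_lit 1048576) (nat_lit 37314637494) (.one (nat_lit 46406841368) .nil))))))),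
   .two (nat_lit 174753579203) (nat_lit 2332034354) (.two (nat_lit 20705181762) (nat_lit 9982446108) (.two (nat_lit 156968681487) (nat_lit 13222547336) (.two (nat_lit 158144135176) (nat_lit 12062823742) (.two (nat_lit 1277165572) (nat_lit 10921975956) (.two (nat_lit 9765388289) (nat_lit 9867112146) (.one (nat_lit 16790643) .nil)))))),
   .two (nat_lit 880804035) (nat_lit 772801872) (.two (nat_lit 11577327681) (nat_lit 11014244896) (.two (nat_lit 184993972239) (nat_lit 185020190595) (.two (nat_lit 18925748232) (nat_lit 174692768348) (.two (nat_lit 285212677) (nat_lit 21214798909) (.two (nat_lit 16777217) (nat_lit 166229715396) (.two (nat_lit 16777216) (nat_lit 28086120061) (.one (nat_lit 1062004) .nil))))))),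
   .two (nat_lit 157038936259) (nat_lit 158192371035) (.two (nat_lit 3527409729) (nat_lit 1277169105) (.two (nat_lit 47555018767) (nat_lit 10372517776) (.two (nat_lit 185002360840) (nat_lit 171973262) (.two (nat_lit 69206021) (nat_lit 16786497) (.two (nat_lit 2097153) (nat_lit 4205092) (.two (nat_lit 2097152) (nat_lit 16789656) (.one (nat_lit 104870748) .nil))))))),
   .two (nat_lit 185035915459) (nat_lit 156465365858) (.two (nat_lit 1358954563) (nat_lit 28086110762) (.two (nat_lit 11559501839) (nat_lit 47581237132) (.two (nat_lit 185002360840) (nat_lit 168827495) (.two (nat_lit 1913651205) (nat_lit 16786499) (.two (nat_lit 620756993) (nat_lit 1059365) (.two (nat_lit 2097152) (nat_lit 9966726785) (.one (nat_lit 1062006) .nil))))))),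
   .two (nat_lit 46474985667) (nat_lit 708838745) (.two (nat_lit 3525312576) (nat_lit 306186771) (.two (nat_lit 184549391) (nat_lit 174688572437) (.two (nat_lit 2954887176) (nat_lit 843061886) (.two (nat_lit 16777220) (nat_lit 2106438) (.two (nat_lit 16777217) (nat_lit 10506743456) (.one (nat_lit 4207736) .nil)))))),
   .two (nat_lit 4605345987) (nat_lit 184550785) (.two (nat_lit 16777280) (nat_lit 156372043294) (.two (nat_lit 3464495119) (nat_lit 174768263047) (.two (nat_lit 8388616) (nat_lit 10955527481) (.two (nat_lit 8388612) (nat_lit 10955530384) (.two (nat_lit 156367847425) (nat_lit 251668965) (.two (nat_lit 4194304) (nat_lit 713043619) (.one (nat_lit 8402042) .nil))))))),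
   .two (nat_lit 1384120515) (nat_lit 184550242) (.two (nat_lit 16777283) (nat_lit 158083319326) (.two (nat_lit 18933088271) (nat_lit 158091713170) (.two (nat_lit 713031684) (nat_lit 687872880) (.two (nat_lit 41943041) (nat_lit 47584388782) (.two (nat_lit 4194304) (nat_lit 713043666) (.one (nat_lit 16790651) .nil)))))),
   .two (nat_lit 11584667843) (nat_lit 3020948801) (.two (nat_lit 4030726211) (nat_lit 156969732626) (.two (nat_lit 3527409679) (nat_lit 3022000026) (.two (nat_lit 639631368) (nat_lit 12620667473) (.two (nat_lit 19530776581) (nat_lit 4631569353) (.two (nat_lit 2097153) (nat_lit 71313891) (.two (nat_lit 2097152) (nat_lit 4206306) (.one (nat_lit 2110588) .nil))))))),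
   .two (nat_lit 11479810406) (nat_lit 620757858) (.two (nat_lit 184549441) (nat_lit 3560966676) (.two (nat_lit 9881780239) (nat_lit 20707282823) (.two (nat_lit 1350565896) (nat_lit 28705823308) (.two (nat_lit 285212677) (nat_lit 159253535600) (.two (nat_lit 16777217) (nat_lit 1916806838) (.two (nat_lit 4194304) (nat_lit 16789659) (.one (nat_lit 4207741) .nil))))))),
   .two (nat_lit 352321731) (nat_lit 1753220386) (.two (nat_lit 184993972289) (nat_lit 159232559644) (.two (nat_lit 184993972239) (nat_lit 19545461743) (.two (nat_lit 21785214984) (nat_lit 21223183678) (.two (nat_lit 713031685) (nat_lit 46489673875) (.two (nat_lit 605028353) (nat_lit 156573378221) (.two (nat_lit 1048576) (nat_lit 8401053) (.one (nat_lit 9933173683) .nil))))))),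
   .two (nat_lit 2969567427) (nat_lit 1847591778) (.two (nat_lit 47596961858) (nat_lit 2099716) (.two (nat_lit 184549391) (nat_lit 2921337817) (.two (nat_lit 654311432) (nat_lit 184987687505) (.two (nat_lit 10504634373) (nat_lit 184431942511) (.two (nat_lit 16777217) (nat_lit 11578386876) (.two (nat_lit 2097152) (nat_lit 13203680907) (.one (nat_lit 16790655) .nil))))))),
   .two (nat_lit 47582282086) (nat_lit 4613735776) (.two (nat_lit 218103873) (nat_lit 4599056900) (.two (nat_lit 9781116943) (nat_lit 28691141589) (.two (nat_lit 218103816) (nat_lit 337646906) (.two (nat_lit 184549381) (nat_lit 35660737) (.two (nat_lit 16777217) (nat_lit 2418026975) (.two (nat_lit 2097152) (nat_lit 16789219) (.one (nat_lit 2110592) .nil))))))),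
   .two (nat_lit 46474985667) (nat_lit 12117345574) (.two (nat_lit 272629827) (nat_lit 337645457) (.two (nat_lit 9768534024) (nat_lit 166130095416) (.two (nat_lit 272629765) (nat_lit 337649805) (.two (nat_lit 4194305) (nat_lit 184987690671) (.two (nat_lit 2097152) (nat_lit 4206308) (.one (nat_lit 2110594) .nil)))))),
   .two (nat_lit 13195280579) (nat_lit 46409975116) (.two (nat_lit 176160835) (nat_lit 654312989) (.two (nat_lit 41943055) (nat_lit 1413485522) (.two (nat_lit 41943048) (nat_lit 37755464) (.two (nat_lit 184549380) (nat_lit 156573375344) (.two (nat_lit 4194305) (nat_lit 11525957293) (.two (nat_lit 4194304) (nat_lit 713043599) (.one (nat_lit 3036689340) .nil))))))),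
   .two (nat_lit 4647289027) (nat_lit 142607682) (.two (nat_lit 11007950964) (nat_lit 1051179) (.two (nat_lit 19530776591) (nat_lit 806361762) (.two (nat_lit 1291845637) (nat_lit 2106440) (.two (nat_lit 16777217) (nat_lit 11007961548) (.two (nat_lit 1048576) (nat_lit 69217957) (.one (nat_lit 1062021) .nil)))))),
   .two (nat_lit 11559502019) (nat_lit 185023333220) (.two (nat_lit 50331715) (nat_lit 2990541325) (.two (nat_lit 721420303) (nat_lit 641733631) (.two (nat_lit 2889875464) (nat_lit 157051524409) (.two (nat_lit 721420292) (nat_lit 4203593) (.two (nat_lit 4194305) (nat_lit 9781127692) (.two (nat_lit 4194304) (nat_lit 158091718295) (.one (nat_lit 4207751) .nil))))))),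
   .two (nat_lit 3527409859) (nat_lit 218105169) (.two (nat_lit 721420355) (nat_lit 142609868) (.two (nat_lit 16777231) (nat_lit 37752723) (.two (nat_lit 16777224) (nat_lit 8395382) (.two (nat_lit 176160772) (nat_lit 1929388182) (.two (nat_lit 8388609) (nat_lit 1178611415) (.one (nat_lit 4207752) .nil)))))),
   .two (nat_lit 50331843) (nat_lit 174692762969) (.two (nat_lit 16777280) (nat_lit 4605348370) (.two (nat_lit 713031695) (nat_lit 174701154201) (.two (nat_lit 16777224) (nat_lit 19537074805) (.two (nat_lit 184549381) (nat_lit 1853891601) (.two (nat_lit 16777217) (nat_lit 46481288865) (.one (nat_lit 2110602) .nil)))))),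
   .two (nat_lit 4647289190) (nat_lit 157038936930) (.two (nat_lit 13237223491) (nat_lit 742394400) (.two (nat_lit 1191182351) (nat_lit 4198303) (.two (nat_lit 156365750280) (nat_lit 608180808) (.two (nat_lit 708837381) (nat_lit 151001968) (.two (nat_lit 2097153) (nat_lit 71313074) (.two (nat_lit 2097152) (nat_lit 4206309) (.one (nat_lit 16790667) .nil))))))),
   .two (nat_lit 2969567427) (nat_lit 2889876802) (.two (nat_lit 13191086147) (nat_lit 20745030157) (.two (nat_lit 2902458383) (nat_lit 641732498) (.two (nat_lit 11479810056) (nat_lit 19612570937) (.two (nat_lit 75497477) (nat_lit 9869207218) (.two (nat_lit 8388608) (nat_lit 1191194283) (.one (nat_lit 16790668) .nil)))))),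
   .two (nat_lit 780140902) (nat_lit 166196151139) (.two (nat_lit 75497588) (nat_lit 16779820) (.two (nat_lit 9866051599) (nat_lit 11551118346) (.two (nat_lit 1929379848) (nat_lit 1056233) (.two (nat_lit 620756997) (nat_lit 2927632543) (.two (nat_lit 50331649) (nat_lit 1059366) (.two (nat_lit 16777216) (nat_lit 1060582) (.one (nat_lit 8402061) .nil))))))),
   .two (nat_lit 822083779) (nat_lit 158079124835) (.two (nat_lit 285212736) (nat_lit 9802090014) (.two (nat_lit 20745027625) (nat_lit 2365591434) (.two (nat_lit 272629768) (nat_lit 174768264505) (.two (nat_lit 4194308) (nat_lit 174768267408) (.two (nat_lit 156372041729) (nat_lit 12163492316) (.two (nat_lit 8388608) (nat_lit 4206311) (.one (nat_lit 4207758) .nil))))))),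
   .two (nat_lit 9781117123) (nat_lit 184419353930) (.two (nat_lit 1191182403) (nat_lit 1279265285) (.two (nat_lit 272629775) (nat_lit 10351547381) (.two (nat_lit 37748744) (nat_lit 47563414124) (.two (nat_lit 2902458372) (nat_lit 47582290979) (.two (nat_lit 4194305) (nat_lit 12148811440) (.two (nat_lit 2097152) (nat_lit 4634717820) (.one (nat_lit 184987694037) .nil))))))),
   .two (nat_lit 11010048357) (nat_lit 21208499043) (.two (nat_lit 4030726210) (nat_lit 2100691) (.two (nat_lit 13203669007) (nat_lit 19532877702) (.two (nat_lit 822083592) (nat_lit 9869202748) (.two (nat_lit 708837381) (nat_lit 16786508) (.two (nat_lit 2097153) (nat_lit 19532884450) (.two (nat_lit 2097152) (nat_lit 16789224) (.one (nat_lit 4207760) .nil))))))),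
   .two (nat_lit 10552869059) (nat_lit 1847592478) (.two (nat_lit 185002360847) (nat_lit 10510929804) (.two (nat_lit 16777224) (nat_lit 169876077) (.two (nat_lit 713031685) (nat_lit 13203677331) (.two (nat_lit 8388609) (nat_lit 47548739214) (.one (nat_lit 8402065) .nil))))),
   .two (nat_lit 157038936259) (nat_lit 21818770736) (.two (nat_lit 1962934339) (nat_lit 8392148) (.two (nat_lit 9940500495) (nat_lit 1761611662) (.two (nat_lit 3527409672) (nat_lit 889199210) (.two (nat_lit 184549380) (nat_lit 8397902) (.two (nat_lit 4194305) (nat_lit 8399400) (.two (nat_lit 16777216) (nat_lit 12050247401) (.one (nat_lit 16790674) .nil))))))),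
   .two (nat_lit 13237223619) (nat_lit 174692762998) (.two (nat_lit 2902458435) (nat_lit 19094572486) (.two (nat_lit 285212687) (nat_lit 304091021) (.two (nat_lit 13203669000) (nat_lit 780147332) (.two (nat_lit 16777220) (nat_lit 2921341918) (.two (nat_lit 16777217) (nat_lit 2107945) (.two (nat_lit 2097152) (nat_lit 8400618) (.one (nat_lit 2110611) .nil))))))),
   .two (nat_lit 2969567427) (nat_lit 46481278277) (.two (nat_lit 285212739) (nat_lit 847251982) (.two (nat_lit 184549391) (nat_lit 37755555) (.two (nat_lit 8388613) (nat_lit 742400988) (.two (nat_lit 8388609) (nat_lit 10909396647) (.one (nat_lit 11614041087) .nil))))),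
   .two (nat_lit 142606531) (nat_lit 2349861378) (.two (nat_lit 612368399) (nat_lit 158662135695) (.two (nat_lit 612368392) (nat_lit 158158822019) (.two (nat_lit 156364701701) (nat_lit 184993980568) (.two (nat_lit 16777217) (nat_lit 880814591) (.two (nat_lit 1048576) (nat_lit 1224748671) (.one (nat_lit 1062036) .nil)))))),
   .two (nat_lit 847249603) (nat_lit 46980400413) (.two (nat_lit 156533522540) (nat_lit 156535621149) (.two (nat_lit 10504634383) (nat_lit 1920997974) (.two (nat_lit 1277165573) (nat_lit 2923439031) (.two (nat_lit 2097153) (nat_lit 4205610) (.two (nat_lit 2097152) (nat_lit 4206756) (.one (nat_lit 2110613) .nil)))))),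
   .two (nat_lit 822083779) (nat_lit 3565159792) (.two (nat_lit 156465365102) (nat_lit 142607901) (.two (nat_lit 4613734415) (nat_lit 276829501) (.two (nat_lit 713031684) (nat_lit 11626619034) (.two (nat_lit 34603009) (nat_lit 176172761) (.one (nat_lit 1062038) .nil))))),
   .two (nat_lit 8388803) (nat_lit 16779299) (.two (nat_lit 8388672) (nat_lit 285216194) (.two (nat_lit 822083599) (nat_lit 183920234385) (.two (nat_lit 16777224) (nat_lit 166136386873) (.two (nat_lit 16777220) (nat_lit 2323652757) (.two (nat_lit 50331649) (nat_lit 2927636191) (.one (nat_lit 310391909) .nil)))))),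
   .two (nat_lit 843055299) (nat_lit 2902459728) (.two (nat_lit 285212736) (nat_lit 843056669) (.two (nat_lit 2902458383) (nat_lit 171970456) (.two (nat_lit 809500680) (nat_lit 174768264505) (.two (nat_lit 4194308) (nat_lit 37329313936) (.two (nat_lit 4194305) (nat_lit 2365598134) (.two (nat_lit 8388608) (nat_lit 166199307905) (.one (nat_lit 4207767) .nil))))))),
   .two (nat_lit 11010048358) (nat_lit 21208499043) (.two (nat_lit 21208498241) (nat_lit 1052117) (.two (nat_lit 46407876623) (nat_lit 166132191110) (.two (nat_lit 46407876616) (nat_lit 159219980950) (.two (nat_lit 13187940357) (nat_lit 46510645403) (.two (nat_lit 34603009) (nat_lit 807415488) (.one (nat_lit 4207768) .nil)))))),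
   .two (nat_lit 713032037) (nat_lit 620757858) (.two (nat_lit 16777283) (nat_lit 4638902801) (.two (nat_lit 184549391) (nat_lit 3531609047) (.two (nat_lit 9766436872) (nat_lit 174701156971) (.two (nat_lit 1277165572) (nat_lit 157051528194) (.two (nat_lit 16777217) (nat_lit 19033763524) (.one (nat_lit 2110617) .nil)))))),
   .two (nat_lit 21777875139) (nat_lit 156969731404) (.two (nat_lit 10370416707) (nat_lit 46510639629) (.two (nat_lit 639631375) (nat_lit 11010053119) (.two (nat_lit 19532873736) (nat_lit 639638170) (.two (nat_lit 159216828421) (nat_lit 21208507440) (.two (nat_lit 9768534017) (nat_lit 13221506727) (.one (nat_lit 1062042) .nil)))))),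
   .two (nat_lit 19096666307) (nat_lit 2316305250) (.two (nat_lit 1916796995) (nat_lit 1309674004) (.two (nat_lit 12117344271) (nat_lit 9933164445) (.two (nat_lit 104857608) (nat_lit 156532480628) (.two (nat_lit 1782579205) (nat_lit 1057872) (.two (nat_lit 605028353) (nat_lit 4205098) (.two (nat_lit 8388608) (nat_lit 10537152129) (.one (nat_lit 1062043) .nil))))))),
   .two (nat_lit 46508540261) (nat_lit 19096667452) (.two (nat_lit 705691713) (nat_lit 9806285342) (.two (nat_lit 21785214991) (nat_lit 28793902077) (.two (nat_lit 4194312) (nat_lit 874519163) (.two (nat_lit 1745879045) (nat_lit 46978311121) (.two (nat_lit 2097153) (nat_lit 4205613) (.two (nat_lit 2097152) (nat_lit 4206761) (.one (nat_lit 2110620) .nil))))))),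
   .two (nat_lit 1343226051) (nat_lit 8390022) (.two (nat_lit 158653743212) (nat_lit 1947207197) (.two (nat_lit 21214789647) (nat_lit 159250386840) (.two (nat_lit 68157448) (nat_lit 343938358) (.two (nat_lit 705691652) (nat_lit 21818777747) (.two (nat_lit 34603009) (nat_lit 166203500993) (.two (nat_lit 1048576) (nat_lit 4206316) (.one (nat_lit 839922181) .nil))))))),
   .two (nat_lit 20704133315) (nat_lit 21778924878) (.two (nat_lit 21208498241) (nat_lit 20704134685) (.two (nat_lit 3539992591) (nat_lit 13188995673) (.two (nat_lit 1277165573) (nat_lit 174685430710) (.two (nat_lit 9781116929) (nat_lit 19529738744) (.two (nat_lit 2097152) (nat_lit 16789675) (.one (nat_lit 166144783256) .nil)))))),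
   .two (nat_lit 843055299) (nat_lit 2927625548) (.two (nat_lit 2889875523) (nat_lit 9948890653) (.two (nat_lit 272629775) (nat_lit 1929383839) (.two (nat_lit 809500680) (nat_lit 813701704) (.two (nat_lit 2902458373) (nat_lit 10003422064) (.two (nat_lit 8388609) (nat_lit 1279272623) (.two (nat_lit 8388608) (nat_lit 11479821967) (.one (nat_lit 4207774) .nil))))))),
   .two (nat_lit 679477443) (nat_lit 10001319251) (.two (nat_lit 11007950915) (nat_lit 310382028) (.two (nat_lit 8388623) (nat_lit 285216644) (.two (nat_lit 9881780232) (nat_lit 9900661357) (.two (nat_lit 166130089988) (nat_lit 176169956) (.two (nat_lit 16777217) (nat_lit 11611942575) (.one (nat_lit 47582294992) .nil)))))),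
   .two (nat_lit 46477082819) (nat_lit 2887779641) (.two (nat_lit 673185859) (nat_lit 158143088157) (.two (nat_lit 205520911) (nat_lit 10940848776) (.two (nat_lit 159217876997) (nat_lit 1276126180) (.two (nat_lit 605028353) (nat_lit 35662369) (.two (nat_lit 1048576) (nat_lit 1176514244) (.one (nat_lit 11543786319) .nil)))))),
   .two (nat_lit 285212867) (nat_lit 156472706349) (.two (nat_lit 612368451) (nat_lit 2902462339) (.two (nat_lit 713031688) (nat_lit 11593061693) (.two (nat_lit 41943045) (nat_lit 16786514) (.two (nat_lit 16777217) (nat_lit 8399919) (.two (nat_lit 8388608) (nat_lit 16789676) (.one (nat_lit 8401920) .nil)))))),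
   .two (nat_lit 2969567427) (nat_lit 706741565) (.two (nat_lit 352321603) (nat_lit 19033755089) (.two (nat_lit 2969567247) (nat_lit 4605350880) (.two (nat_lit 1780482056) (nat_lit 620762422) (.two (nat_lit 713031685) (nat_lit 12129935507) (.two (nat_lit 2097153) (nat_lit 20745038296) (.two (nat_lit 8388608) (nat_lit 2954899613) (.one (nat_lit 2110623) .nil))))))),
   .two (nat_lit 9967763651) (nat_lit 20711474510) (.two (nat_lit 47548727360) (nat_lit 46984595985) (.two (nat_lit 9934209039) (nat_lit 46414173198) (.two (nat_lit 20644364296) (nat_lit 20753422932) (.two (nat_lit 159224168453) (nat_lit 9934218212) (.two (nat_lit 2097153) (nat_lit 11014254278) (.one (nat_lit 1344287758) .nil)))))),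
   .two (nat_lit 4605345987) (nat_lit 166232851300) (.two (nat_lit 4605345856) (nat_lit 13224642077) (.two (nat_lit 46414168079) (nat_lit 3024097176) (.two (nat_lit 1276117000) (nat_lit 166203497049) (.two (nat_lit 47550824453) (nat_lit 243278828) (.two (nat_lit 37748737) (nat_lit 10335823538) (.two (nat_lit 1048576) (nat_lit 10909396669) (.one (nat_lit 672150421) .nil))))))),
   .two (nat_lit 12620661094) (nat_lit 1376781607) (.two (nat_lit 1178599540) (nat_lit 620758557) (.two (nat_lit 721420303) (nat_lit 2319454097) (.two (nat_lit 9768534024) (nat_lit 9866058324) (.two (nat_lit 16777220) (nat_lit 46409982111) (.two (nat_lit 50331649) (nat_lit 4601163487) (.one (nat_lit 1062048) .nil)))))),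
   .two (nat_lit 822083779) (nat_lit 641729869) (.two (nat_lit 822083651) (nat_lit 1346374149) (.two (nat_lit 11492392975) (nat_lit 9798947797) (.two (nat_lit 205520904) (nat_lit 185002367596) (.two (nat_lit 1916796933) (nat_lit 1291854861) (.two (nat_lit 50331649) (nat_lit 34613784) (.two (nat_lit 1048576) (nat_lit 1178611380) (.one (nat_lit 16790689) .nil))))))),
   .two (nat_lit 21811429571) (nat_lit 11479812628) (.two (nat_lit 1343225871) (nat_lit 675286929) (.two (nat_lit 1753219080) (nat_lit 19529734746) (.two (nat_lit 18933088261) (nat_lit 174685430750) (.two (nat_lit 8388609) (nat_lit 174685432309) (.two (nat_lit 1048576) (nat_lit 18928905962) (.one (nat_lit 1062050) .nil)))))),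
   .two (nat_lit 184986632387) (nat_lit 4195645) (.two (nat_lit 272629824) (nat_lit 3558869517) (.two (nat_lit 46407876623) (nat_lit 19130225668) (.two (nat_lit 10506731528) (nat_lit 10503592555) (.two (nat_lit 184416206853) (nat_lit 10504643636) (.two (nat_lit 2097153) (nat_lit 10436487655) (.two (nat_lit 1048576) (nat_lit 2109165) (.one (nat_lit 20738748932) .nil))))))),
   .two (nat_lit 2994733251) (nat_lit 843055970) (.two (nat_lit 183848927299) (nat_lit 159224170013) (.two (nat_lit 10343153679) (nat_lit 1312821134) (.two (nat_lit 1350565896) (nat_lit 18925754982) (.two (nat_lit 2894069765) (nat_lit 71310192) (.two (nat_lit 8388609) (nat_lit 20640179887) (.two (nat_lit 1048576) (nat_lit 4206318) (.one (nat_lit 4207781) .nil))))))),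
   .two (nat_lit 156535619779) (nat_lit 236979042) (.two (nat_lit 236978241) (nat_lit 713034267) (.two (nat_lit 813694991) (nat_lit 1950358109) (.two (nat_lit 2887778308) (nat_lit 19130229809) (.two (nat_lit 8388609) (nat_lit 37247527979) (.two (nat_lit 2097152) (nat_lit 47550836375) (.one (nat_lit 8402086) .nil)))))),
   .two (nat_lit 4601151683) (nat_lit 880806402) (.two (nat_lit 13195280399) (nat_lit 20707284283) (.two (nat_lit 18933088261) (nat_lit 9802096798) (.two (nat_lit 156367847425) (nat_lit 156364713622) (.one (nat_lit 1062056) .nil)))),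
   .two (nat_lit 620757187) (nat_lit 10544481601) (.two (nat_lit 620757059) (nat_lit 1786776069) (.two (nat_lit 721420303) (nat_lit 605032339) (.two (nat_lit 713031688) (nat_lit 13237230234) (.two (nat_lit 713031684) (nat_lit 47581243056) (.two (nat_lit 1048576) (nat_lit 8400569) (.one (nat_lit 1062057) .nil)))))),
   .two (nat_lit 1384120515) (nat_lit 183962174818) (.two (nat_lit 11551113282) (nat_lit 9948893060) (.two (nat_lit 184549384) (nat_lit 47584385698) (.two (nat_lit 11546918917) (nat_lit 713040860) (.two (nat_lit 37748737) (nat_lit 337653413) (.one (nat_lit 1954558776) .nil))))),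
   .two (nat_lit 185035915459) (nat_lit 1376781606) (.two (nat_lit 185035915331) (nat_lit 9798945315) (.two (nat_lit 2954887183) (nat_lit 83890051) (.two (nat_lit 11476664328) (nat_lit 10519319869) (.two (nat_lit 10940841989) (nat_lit 10537149515) (.two (nat_lit 9765388289) (nat_lit 183846842062) (.one (nat_lit 2110636) .nil)))))),
   .two (nat_lit 285212867) (nat_lit 142607682) (.two (nat_lit 2969567296) (nat_lit 2100696) (.two (nat_lit 75497487) (nat_lit 2902462339) (.two (nat_lit 11551113224) (nat_lit 11593061693) (.two (nat_lit 10370416645) (nat_lit 746596018) (.two (nat_lit 2097152) (nat_lit 352333426) (.one (nat_lit 337654639) .nil)))))),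
   .two (nat_lit 156539814246) (nat_lit 21814576475) (.two (nat_lit 46489665602) (nat_lit 184419355135) (.two (nat_lit 13191086095) (nat_lit 11577334379) (.two (nat_lit 176160773) (nat_lit 156465374235) (.two (nat_lit 41943041) (nat_lit 10955532807) (.two (nat_lit 8388608) (nat_lit 16789682) (.one (nat_lit 4207789) .nil)))))),
   .two (nat_lit 4601151683) (nat_lit 880804706) (.two (nat_lit 156367847491) (nat_lit 20644366892) (.two (nat_lit 183853121551) (nat_lit 10942943122) (.two (nat_lit 8388616) (nat_lit 1782585933) (.two (nat_lit 47555018757) (nat_lit 3460309943) (.two (nat_lit 156364701697) (nat_lit 4034931755) (.two (nat_lit 8388608) (nat_lit 1060591) (.one (nat_lit 1062063) .nil))))))),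
   .two (nat_lit 4647289027) (nat_lit 19599983458) (.two (nat_lit 46523220034) (nat_lit 2956986884) (.two (nat_lit 285212687) (nat_lit 159253532554) (.two (nat_lit 184419352584) (nat_lit 2332038459) (.two (nat_lit 12117344261) (nat_lit 158091713391) (.two (nat_lit 37748737) (nat_lit 46523229867) (.two (nat_lit 1048576) (nat_lit 1782591107) (.one (nat_lit 16790704) .nil))))))),
   .two (nat_lit 12147753317) (nat_lit 12633245040) (.two (nat_lit 1779433539) (nat_lit 9781118493) (.two (nat_lit 654311439) (nat_lit 159216832401) (.two (nat_lit 11476664328) (nat_lit 158091713107) (.two (nat_lit 1913651205) (nat_lit 166211888201) (.two (nat_lit 16777217) (nat_lit 165526121450) (.two (nat_lit 2097152) (nat_lit 2332044976) (.one (nat_lit 2332046217) .nil))))))),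
   .two (nat_lit 352321731) (nat_lit 18933090818) (.two (nat_lit 16777231) (nat_lit 166203494284) (.two (nat_lit 4613734408) (nat_lit 28798098009) (.two (nat_lit 41943045) (nat_lit 16784238) (.two (nat_lit 41943041) (nat_lit 10016007859) (.two (nat_lit 1048576) (nat_lit 2894081667) (.one (nat_lit 8402097) .nil)))))),
   .two (nat_lit 4647289027) (nat_lit 1212154722) (.two (nat_lit 13191086147) (nat_lit 9781118493) (.two (nat_lit 285212687) (nat_lit 47584382865) (.two (nat_lit 3539992584) (nat_lit 10372520524) (.two (nat_lit 13191086085) (nat_lit 20652759919) (.two (nat_lit 34603009) (nat_lit 158179796656) (.two (nat_lit 1048576) (nat_lit 1279274613) (.one (nat_lit 16790706) .nil))))))),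
   .two (nat_lit 9948889283) (nat_lit 2317354298) (.two (nat_lit 2969567296) (nat_lit 2994735630) (.two (nat_lit 9948889103) (nat_lit 176164760) (.two (nat_lit 620757000) (nat_lit 11618228855) (.two (nat_lit 176160773) (nat_lit 184558658) (.two (nat_lit 2097153) (nat_lit 8400609) (.one (nat_lit 28093460996) .nil)))))),
   .two (nat_lit 847249765) (nat_lit 10506732386) (.two (nat_lit 310378562) (nat_lit 12050237984) (.two (nat_lit 813694991) (nat_lit 4200270) (.two (nat_lit 9867100168) (nat_lit 8396266) (.two (nat_lit 708837381) (nat_lit 10947140463) (.two (nat_lit 2097153) (nat_lit 243279541) (.two (nat_lit 4194304) (nat_lit 8401076) (.one (nat_lit 8402100) .nil))))))),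
   .two (nat_lit 156533522627) (nat_lit 47563409940) (.two (nat_lit 2969567247) (nat_lit 169873298) (.two (nat_lit 2969567240) (nat_lit 169876061) (.two (nat_lit 2887778308) (nat_lit 156380437360) (.two (nat_lit 2097153) (nat_lit 156581766839) (.two (nat_lit 2097152) (nat_lit 16789232) (.one (nat_lit 2110645) .nil)))))),
   .two (nat_lit 2994733251) (nat_lit 166199297398) (.two (nat_lit 306184257) (nat_lit 1384123824) (.two (nat_lit 4605345807) (nat_lit 339743744) (.two (nat_lit 46984593416) (nat_lit 809507460) (.two (nat_lit 156372041733) (nat_lit 1057880) (.two (nat_lit 156372041729) (nat_lit 156364712489) (.two (nat_lit 1048576) (nat_lit 156367859434) (.one (nat_lit 8402102) .nil))))))),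
   .two (nat_lit 654311619) (nat_lit 4632610127) (.two (nat_lit 2969567297) (nat_lit 2317356490) (.two (nat_lit 184549391) (nat_lit 47555023862) (.two (nat_lit 11551113224) (nat_lit 1392514365) (.two (nat_lit 218103813) (nat_lit 10376717363) (.two (nat_lit 2097153) (nat_lit 3036687986) (.one (nat_lit 2110648) .nil)))))),
   .two (nat_lit 13237223619) (nat_lit 156472706373) (.two (nat_lit 4613734466) (nat_lit 3464499077) (.two (nat_lit 2961178632) (nat_lit 606083656) (.two (nat_lit 4599054341) (nat_lit 12633253553) (.two (nat_lit 1048576) (nat_lit 9881792206) (.one (nat_lit 1062074) .nil))))),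
   .two (nat_lit 41943235) (nat_lit 158158816595) (.two (nat_lit 8388672) (nat_lit 16780761) (.two (nat_lit 285212687) (nat_lit 156573373452) (.two (nat_lit 16777224) (nat_lit 1853887803) (.two (nat_lit 183861510149) (nat_lit 1853890699) (.two (nat_lit 16777217) (nat_lit 69215917) (.two (nat_lit 2097152) (nat_lit 20753428151) (.one (nat_lit 8402107) .nil))))))),
   .two (nat_lit 654311619) (nat_lit 3557819236) (.two (nat_lit 2969567296) (nat_lit 20737690126) (.two (nat_lit 169869327) (nat_lit 9781122052) (.two (nat_lit 169869320) (nat_lit 28806486696) (.two (nat_lit 2902458372) (nat_lit 806364233) (.two (nat_lit 2097153) (nat_lit 3557828270) (.two (nat_lit 1048576) (nat_lit 2109169) (.one (nat_lit 806368391) .nil))))))),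
   .two (nat_lit 889192643) (nat_lit 165532402531) (.two (nat_lit 10343153731) (nat_lit 10437528091) (.two (nat_lit 13203669007) (nat_lit 11551118355) (.two (nat_lit 20644364296) (nat_lit 21812484737) (.two (nat_lit 1277165573) (nat_lit 1921000377) (.two (nat_lit 2097153) (nat_lit 1954556454) (.two (nat_lit 2097152) (nat_lit 8400626) (.one (nat_lit 270545737) .nil))))))),
   .two (nat_lit 4605345987) (nat_lit 16779302) (.two (nat_lit 28693233729) (nat_lit 185035919256) (.two (nat_lit 9768534024) (nat_lit 166237051467) (.two (nat_lit 8388612) (nat_lit 4203612) (.two (nat_lit 4194305) (nat_lit 343943605) (.two (nat_lit 4194304) (nat_lit 16789685) (.one (nat_lit 4207807) .nil)))))),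
   .two (nat_lit 352321731) (nat_lit 28093449058) (.two (nat_lit 16777280) (nat_lit 276826656) (.two (nat_lit 4613734415) (nat_lit 47588578265) (.two (nat_lit 47563407368) (nat_lit 1182800458) (.two (nat_lit 75497477) (nat_lit 352331435) (.two (nat_lit 1048576) (nat_lit 166245445239) (.one (nat_lit 1062080) .nil)))))),
   .two (nat_lit 46477082819) (nat_lit 822084450) (.two (nat_lit 285212738) (nat_lit 166132188702) (.two (nat_lit 285212687) (nat_lit 708841374) (.two (nat_lit 205520904) (nat_lit 166144777071) (.two (nat_lit 4194305) (nat_lit 10016007852) (.two (nat_lit 1048576) (nat_lit 9768546002) (.one (nat_lit 117453676) .nil)))))),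
   .two (nat_lit 50331843) (nat_lit 156569174882) (.two (nat_lit 16777280) (nat_lit 10909387271) (.two (nat_lit 50331663) (nat_lit 2956988312) (.two (nat_lit 50331656) (nat_lit 174688572728) (.two (nat_lit 16777220) (nat_lit 708844399) (.two (nat_lit 16777217) (nat_lit 71313071) (.two (nat_lit 16777216) (nat_lit 4206323) (.one (nat_lit 809513479) .nil))))))),
   .two (nat_lit 822083779) (nat_lit 243271010) (.two (nat_lit 12163481666) (nat_lit 34606552) (.two (nat_lit 50331663) (nat_lit 184993976196) (.two (nat_lit 75497480) (nat_lit 159266118249) (.two (nat_lit 176160773) (nat_lit 184558641) (.two (nat_lit 34603009) (nat_lit 174768271052) (.one (nat_lit 16790721) .nil)))))),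
   .two (nat_lit 3003122021) (nat_lit 174686471458) (.two (nat_lit 3003121730) (nat_lit 673189448) (.two (nat_lit 2887778319) (nat_lit 218108980) (.two (nat_lit 156367847432) (nat_lit 1913658103) (.two (nat_lit 171966469) (nat_lit 11477722638) (.two (nat_lit 4194305) (nat_lit 1060408) (.two (nat_lit 4194304) (nat_lit 1061339) (.one (nat_lit 1062097) .nil))))))),
   .two (nat_lit 310378691) (nat_lit 156367848819) (.two (nat_lit 2097267) (nat_lit 1753220637) (.two (nat_lit 10504634383) (nat_lit 174755682714) (.two (nat_lit 2887778312) (nat_lit 142613127) (.two (nat_lit 2097157) (nat_lit 1350574227) (.two (nat_lit 2097153) (nat_lit 10335825655) (.one (nat_lit 336606057) .nil)))))),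
   .two (nat_lit 184986632387) (nat_lit 183861511513) (.two (nat_lit 47548727363) (nat_lit 705694211) (.two (nat_lit 10385096719) (nat_lit 1746932820) (.two (nat_lit 705691656) (nat_lit 19612570937) (.two (nat_lit 34603013) (nat_lit 1291853994) (.two (nat_lit 8388609) (nat_lit 1343237851) (.one (nat_lit 2110674) .nil)))))),
   .two (nat_lit 19599982787) (nat_lit 1962935628) (.two (nat_lit 11492393025) (nat_lit 13224644307) (.two (nat_lit 11492392975) (nat_lit 158079127462) (.two (nat_lit 11492392968) (nat_lit 47550831181) (.two (nat_lit 11546918917) (nat_lit 3472890735) (.two (nat_lit 37748737) (nat_lit 606086840) (.two (nat_lit 2097152) (nat_lit 156380442245) (.one (nat_lit 1948267722) .nil))))))),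
   .two (nat_lit 159251431619) (nat_lit 28089255225) (.two (nat_lit 46477082690) (nat_lit 21812480528) (.two (nat_lit 37748751) (nat_lit 46984598845) (.two (nat_lit 46409973765) (nat_lit 11014250634) (.two (nat_lit 2097153) (nat_lit 876620354) (.two (nat_lit 2097152) (nat_lit 2927636214) (.one (nat_lit 4207116) .nil)))))),
   .two (nat_lit 166196150467) (nat_lit 4196776) (.two (nat_lit 3028287554) (nat_lit 184986633758) (.two (nat_lit 176160783) (nat_lit 28760346506) (.two (nat_lit 176160776) (nat_lit 4601158380) (.two (nat_lit 11479810052) (nat_lit 19127083153) (.two (nat_lit 612368385) (nat_lit 10939804143) (.two (nat_lit 8388608) (nat_lit 1849700869) .nil)))))),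
   .two (nat_lit 13224640707) (nat_lit 37253809487) (.two (nat_lit 1753219139) (nat_lit 37752446) (.two (nat_lit 37748751) (nat_lit 46514836794) (.two (nat_lit 4194308) (nat_lit 2357207177) (.two (nat_lit 2097153) (nat_lit 46409985751) (.one (nat_lit 169882124) .nil))))),
   .two (nat_lit 41943235) (nat_lit 1049999) (.two (nat_lit 4605345857) (nat_lit 10538191387) (.two (nat_lit 11551113231) (nat_lit 10436483755) (.two (nat_lit 12054429701) (nat_lit 12047098919) (.two (nat_lit 16777217) (nat_lit 1176512968) (.two (nat_lit 16777216) (nat_lit 1344287240) .nil))))),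
   .two (nat_lit 843055299) (nat_lit 156372044290) (.two (nat_lit 809500687) (nat_lit 166237051481) (.two (nat_lit 8388613) (nat_lit 4030734501) (.two (nat_lit 4194305) (nat_lit 3028299491) (.one (nat_lit 4207829) .nil)))),
   .two (nat_lit 13191086275) (nat_lit 2323645775) (.two (nat_lit 1212153923) (nat_lit 645926346) (.two (nat_lit 10370416655) (nat_lit 641732487) (.two (nat_lit 46409973768) (nat_lit 645929589) (.two (nat_lit 13195280389) (nat_lit 20640179651) (.two (nat_lit 4194305) (nat_lit 209725975) (.two (nat_lit 8388608) (nat_lit 2988453669) (.one (nat_lit 4207830) .nil))))))),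
   .two (nat_lit 50331843) (nat_lit 158144137324) (.two (nat_lit 83886147) (nat_lit 1950355101) (.two (nat_lit 184549391) (nat_lit 3460304781) (.two (nat_lit 184549384) (nat_lit 4202542) (.two (nat_lit 41943045) (nat_lit 166132196651) (.two (nat_lit 612368385) (nat_lit 10351553126) (.two (nat_lit 4194304) (nat_lit 8401372) (.one (nat_lit 8402135) .nil))))))),
   .two (nat_lit 8388803) (nat_lit 11492394279) (.two (nat_lit 8388672) (nat_lit 4613737935) (.two (nat_lit 50331663) (nat_lit 19100865851) (.two (nat_lit 713031684) (nat_lit 16786597) (.two (nat_lit 41943041) (nat_lit 168832708) (.one (nat_lit 12121551794) .nil))))),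
   .two (nat_lit 4634706115) (nat_lit 9900655924) (.two (nat_lit 3527409729) (nat_lit 9934212842) (.two (nat_lit 46407876623) (nat_lit 19130226565) (.two (nat_lit 21207449608) (nat_lit 9869204152) (.two (nat_lit 157036838917) (nat_lit 1058269) (.two (nat_lit 37748737) (nat_lit 10335824936) (.two (nat_lit 4194304) (nat_lit 2316316725) (.one (nat_lit 10369381442) .nil))))))),
   .two (nat_lit 11584667843) (nat_lit 37246469415) (.two (nat_lit 2994733166) (nat_lit 270535203) (.two (nat_lit 159224168463) (nat_lit 1309677443) (.two (nat_lit 183845781512) (nat_lit 1920998033) (.two (nat_lit 203423749) (nat_lit 1276126388) (.two (nat_lit 2097153) (nat_lit 46406838919) (.two (nat_lit 1048576) (nat_lit 11578388104) (.one (nat_lit 2110680) .nil))))))),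
   .two (nat_lit 46477082819) (nat_lit 1948256774) (.two (nat_lit 205520911) (nat_lit 46474992405) (.two (nat_lit 806354949) (nat_lit 11614036923) (.two (nat_lit 2097153) (nat_lit 10906249885) (.two (nat_lit 2097152) (nat_lit 10436489332) (.one (nat_lit 2889888874) .nil))))),
   .two (nat_lit 47555018947) (nat_lit 11477714275) (.two (nat_lit 639631427) (nat_lit 8392116) (.two (nat_lit 1277165583) (nat_lit 46984598589) (.two (nat_lit 20638072840) (nat_lit 1920996665) (.two (nat_lit 721420293) (nat_lit 184417264569) (.two (nat_lit 16777217) (nat_lit 18926808849) (.one (nat_lit 2988454749) .nil)))))),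
   .two (nat_lit 10007609539) (nat_lit 9933161797) (.two (nat_lit 47555018818) (nat_lit 18925751803) (.two (nat_lit 612368399) (nat_lit 21207455751) (.two (nat_lit 46407876616) (nat_lit 18933095099) (.two (nat_lit 1914699781) (nat_lit 156968690934) (.two (nat_lit 2097153) (nat_lit 705702361) (.two (nat_lit 1048576) (nat_lit 102772391) (.one (nat_lit 1209021633) .nil))))))),
   .two (nat_lit 8388803) (nat_lit 11492394282) (.two (nat_lit 46489665644) (nat_lit 880804344) (.two (nat_lit 8388623) (nat_lit 46477087706) (.two (nat_lit 2969567240) (nat_lit 46481282366) (.two (nat_lit 184549380) (nat_lit 47555021642) (.two (nat_lit 9765388289) (nat_lit 21223185366) (.two (nat_lit 1048576) (nat_lit 876621487) (.one (nat_lit 8401450) .nil))))))),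
   .two (nat_lit 8388803) (nat_lit 11559503137) (.two (nat_lit 1358954563) (nat_lit 183953787408) (.two (nat_lit 713031695) (nat_lit 2416972793) (.two (nat_lit 612368392) (nat_lit 4613741155) (.two (nat_lit 184549380) (nat_lit 47555021642) (.two (nat_lit 184549380) (nat_lit 47555022974) (.two (nat_lit 9765388289) (nat_lit 8399439) (.two (nat_lit 1048576) (nat_lit 41954930) (.one (nat_lit 8401451) .nil)))))))),
   .two (nat_lit 13195280579) (nat_lit 174701151533) (.two (nat_lit 184549441) (nat_lit 183853124096) (.two (nat_lit 184549391) (nat_lit 183853125507) (.two (nat_lit 184549384) (nat_lit 47588578621) (.two (nat_lit 16777221) (nat_lit 11517564336) (.two (nat_lit 8388611) (nat_lit 11479819263) (.two (nat_lit 16777217) (nat_lit 1212164708) (.two (nat_lit 4194304) (nat_lit 41954930) (.one (nat_lit 4207149) .nil)))))))),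
   .two (nat_lit 8388803) (nat_lit 9902753097) (.two (nat_lit 16777283) (nat_lit 9768535581) (.two (nat_lit 8388623) (nat_lit 1913656359) (.two (nat_lit 8388616) (nat_lit 2416974478) (.two (nat_lit 8388612) (nat_lit 4631564412) (.two (nat_lit 620756993) (nat_lit 158179797583) (.two (nat_lit 8388608) (nat_lit 1060662) (.one (nat_lit 21818780464) .nil))))))),
   .two (nat_lit 12117344614) (nat_lit 10538189023) (.two (nat_lit 11593056352) (nat_lit 46514832228) (.two (nat_lit 822084181) (nat_lit 10007609569) (.two (nat_lit 822083651) (nat_lit 1916797432) (.two (nat_lit 11492393025) (nat_lit 8389578) (.two (nat_lit 1916796995) (nat_lit 46474987039) (.two (nat_lit 721420303) (nat_lit 158083321733) (.two (nat_lit 721420296) (nat_lit 9772733753) (.two (nat_lit 50331653) (nat_lit 2994738614) (.two (nat_lit 50331653) (nat_lit 11484008571) (.two (nat_lit 41943041) (nat_lit 71313957) (.two (nat_lit 2097152) (nat_lit 184989789868) (.one (nat_lit 8401459) .nil)))))))))))),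
   .two (nat_lit 19093520579) (nat_lit 10336863591) (.two (nat_lit 11593056322) (nat_lit 101712904) (.two (nat_lit 19599982607) (nat_lit 28758250450) (.two (nat_lit 101711880) (nat_lit 37247524699) (.two (nat_lit 2097157) (nat_lit 306189741) (.two (nat_lit 2097153) (nat_lit 46507498459) (.two (nat_lit 16777216) (nat_lit 2109898) (.one (nat_lit 706751280) .nil))))))),
   .two (nat_lit 12117344451) (nat_lit 174692763005) (.two (nat_lit 183946444865) (nat_lit 2936015369) (.two (nat_lit 4194319) (nat_lit 28791800841) (.two (nat_lit 41943048) (nat_lit 1779440267) (.two (nat_lit 1291845637) (nat_lit 171976028) (.two (nat_lit 8388609) (nat_lit 673196656) (.two (nat_lit 1048576) (nat_lit 8401355) (.one (nat_lit 2110006) .nil))))))),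
   .two (nat_lit 1916797123) (nat_lit 3021998216) (.two (nat_lit 183946444865) (nat_lit 855640590) (.two (nat_lit 276824079) (nat_lit 28691141599) (.two (nat_lit 8388616) (nat_lit 28757203595) (.two (nat_lit 8388612) (nat_lit 156535625143) (.two (nat_lit 713031683) (nat_lit 10001328107) (.two (nat_lit 41943041) (nat_lit 10001329481) (.two (nat_lit 8388608) (nat_lit 16789964) (.one (nat_lit 4207159) .nil)))))))),
   .two (nat_lit 156465365604) (nat_lit 166197199715) (.two (nat_lit 12117344321) (nat_lit 19596838546) (.two (nat_lit 166129041446) (nat_lit 1310723725) (.two (nat_lit 2887778319) (nat_lit 166132188169) (.two (nat_lit 10504634383) (nat_lit 46977258936) (.two (nat_lit 705691656) (nat_lit 18928900681) (.two (nat_lit 4194308) (nat_lit 156364707256) (.two (nat_lit 2097155) (nat_lit 675292319) (.two (nat_lit 2097153) (nat_lit 2987403837) (.two (nat_lit 1048576) (nat_lit 28087168702) (.one (nat_lit 2110009) .nil)))))))))),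
   .two (nat_lit 19027460708) (nat_lit 28757197667) (.two (nat_lit 3527409729) (nat_lit 157036840594) (.two (nat_lit 3527409700) (nat_lit 2921336391) (.two (nat_lit 19029557315) (nat_lit 2886731295) (.two (nat_lit 1913651215) (nat_lit 184417260984) (.two (nat_lit 4194321) (nat_lit 158075982817) (.two (nat_lit 169869320) (nat_lit 156367854153) (.two (nat_lit 2887778306) (nat_lit 4201357) (.two (nat_lit 2097155) (nat_lit 675292319) (.two (nat_lit 2097153) (nat_lit 2987403837) (.two (nat_lit 1048576) (nat_lit 28087168702) (.one (nat_lit 1061434) .nil))))))))))),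
   .two (nat_lit 13191086275) (nat_lit 10343154530) (.two (nat_lit 4601151554) (nat_lit 10510928417) (.two (nat_lit 37748751) (nat_lit 183953789906) (.two (nat_lit 606076936) (nat_lit 9772735048) (.two (nat_lit 4194308) (nat_lit 9772735442) (.two (nat_lit 4194308) (nat_lit 9772735442) (.two (nat_lit 2097153) (nat_lit 608181202) (.two (nat_lit 8388608) (nat_lit 4207053) (.one (nat_lit 4207856) .nil)))))))),
   .two (nat_lit 13191086275) (nat_lit 34603877) (.two (nat_lit 13191086275) (nat_lit 873464270) (.two (nat_lit 183912890433) (nat_lit 9869199881) (.two (nat_lit 12114198543) (nat_lit 608178085) (.two (nat_lit 2954887176) (nat_lit 10372520532) (.two (nat_lit 2097157) (nat_lit 272635314) (.two (nat_lit 806354949) (nat_lit 272636800) (.two (nat_lit 2097153) (nat_lit 1060405) (.two (nat_lit 2097152) (nat_lit 20737699477) (.one (nat_lit 1062130) .nil))))))))),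
   .two (nat_lit 13191086275) (nat_lit 873464270) (.two (nat_lit 183912890433) (nat_lit 9869199881) (.two (nat_lit 12114198543) (nat_lit 608178085) (.two (nat_lit 2954887176) (nat_lit 10372520532) (.two (nat_lit 806354949) (nat_lit 272636800) (.two (nat_lit 708837379) (nat_lit 185020196136) (.two (nat_lit 2097153) (nat_lit 1060405) (.two (nat_lit 2097152) (nat_lit 20737699477) (.one (nat_lit 1062131) .nil)))))))),
   .two (nat_lit 13224640707) (nat_lit 2424309990) (.two (nat_lit 1947205699) (nat_lit 19096667677) (.two (nat_lit 205520911) (nat_lit 243274719) (.two (nat_lit 4194312) (nat_lit 4034925885) (.two (nat_lit 21207449605) (nat_lit 156372051378) (.two (nat_lit 605028353) (nat_lit 608183981) (.two (nat_lit 1048576) (nat_lit 41955027) (.one (nat_lit 13187952493) .nil))))))),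
   .two (nat_lit 117440707) (nat_lit 11543774540) (.two (nat_lit 13237223491) (nat_lit 9802090013) (.two (nat_lit 4194319) (nat_lit 11559505797) (.two (nat_lit 4194312) (nat_lit 11559507255) (.two (nat_lit 4194308) (nat_lit 151001968) (.two (nat_lit 4194305) (nat_lit 83895993) (.two (nat_lit 1048576) (nat_lit 9969872526) (.one (nat_lit 16790772) .nil))))))),
   .two (nat_lit 9802088643) (nat_lit 2098587) (.two (nat_lit 4601151683) (nat_lit 2097614) (.two (nat_lit 19530776692) (nat_lit 9802090013) (.two (nat_lit 184986632207) (nat_lit 2889880545) (.two (nat_lit 46407876616) (nat_lit 272636625) (.two (nat_lit 2097157) (nat_lit 675288488) (.two (nat_lit 2097157) (nat_lit 2956991347) (.two (nat_lit 2097153) (nat_lit 4634716665) (.two (nat_lit 1048576) (nat_lit 2109240) (.one (nat_lit 2110011) .nil))))))))),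
   .two (nat_lit 306184387) (nat_lit 136316206) (.two (nat_lit 2961178689) (nat_lit 10437528074) (.two (nat_lit 276824079) (nat_lit 1948258188) (.two (nat_lit 8388616) (nat_lit 2316309816) (.two (nat_lit 8388612) (nat_lit 157035798663) (.two (nat_lit 8388609) (nat_lit 136325667) (.two (nat_lit 8388608) (nat_lit 10942951635) (.one (nat_lit 4207165) .nil))))))),
   .two (nat_lit 2994733251) (nat_lit 19128124785) (.two (nat_lit 46407876716) (nat_lit 159224170013) (.two (nat_lit 46407876623) (nat_lit 1920995214) (.two (nat_lit 47548727304) (nat_lit 21214796500) (.two (nat_lit 169869316) (nat_lit 37313582509) (.two (nat_lit 156365750275) (nat_lit 157043139870) (.two (nat_lit 156364701697) (nat_lit 2105605) (.two (nat_lit 8388608) (nat_lit 2109934) (.one (nat_lit 8401470) .nil)))))))),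
   .two (nat_lit 41943235) (nat_lit 12117345615) (.two (nat_lit 20719861825) (nat_lit 156466416143) (.two (nat_lit 8388623) (nat_lit 47582286967) (.two (nat_lit 721420296) (nat_lit 2954894037) (.two (nat_lit 8388612) (nat_lit 156468516279) (.two (nat_lit 50331653) (nat_lit 47550831474) (.two (nat_lit 8388609) (nat_lit 28772936353) (.two (nat_lit 4194304) (nat_lit 1929391807) (.one (nat_lit 158177702461) .nil)))))))),
   .two (nat_lit 21811429581) (nat_lit 10538189666) (.two (nat_lit 158143086659) (nat_lit 1210059271) (.two (nat_lit 21207449615) (nat_lit 874516359) (.two (nat_lit 158075977736) (nat_lit 2103971) (.two (nat_lit 21777874949) (nat_lit 337648499) (.two (nat_lit 68157443) (nat_lit 337651004) (.two (nat_lit 605028353) (nat_lit 184987691689) (.two (nat_lit 1048576) (nat_lit 874524308) (.one (nat_lit 11578389037) .nil)))))))),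
   .two (nat_lit 156533522627) (nat_lit 3464496671) (.two (nat_lit 21785215171) (nat_lit 46474985697) (.two (nat_lit 41943107) (nat_lit 184551955) (.two (nat_lit 75497487) (nat_lit 639636507) (.two (nat_lit 75497480) (nat_lit 9766443593) (.two (nat_lit 620756997) (nat_lit 11014250631) (.two (nat_lit 2097153) (nat_lit 276834810) (.two (nat_lit 2097152) (nat_lit 721432369) (.one (nat_lit 174701163449) .nil)))))))),
   .two (nat_lit 809500867) (nat_lit 620758305) (.two (nat_lit 16777281) (nat_lit 9802091030) (.two (nat_lit 2889875471) (nat_lit 157036844055) (.two (nat_lit 285212680) (nat_lit 157038942907) (.two (nat_lit 2889875458) (nat_lit 16784271) (.two (nat_lit 16777219) (nat_lit 156969739228) (.two (nat_lit 16777217) (nat_lit 9766447577) (.two (nat_lit 4194304) (nat_lit 46508552559) (.one (nat_lit 4207167) .nil)))))))),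
   .two (nat_lit 13191086275) (nat_lit 83888246) (.two (nat_lit 156581756995) (nat_lit 20707281413) (.two (nat_lit 46978301967) (nat_lit 239080507) (.two (nat_lit 272629768) (nat_lit 35659269) (.two (nat_lit 4194306) (nat_lit 16787077) (.two (nat_lit 1191182339) (nat_lit 4028638134) (.two (nat_lit 9781116929) (nat_lit 21812489780) (.two (nat_lit 2097152) (nat_lit 1962947020) (.one (nat_lit 117454063) .nil)))))))),
   .two (nat_lit 343933123) (nat_lit 158177690069) (.two (nat_lit 4034920513) (nat_lit 159251433982) (.two (nat_lit 3539992591) (nat_lit 158150431701) (.two (nat_lit 2902458376) (nat_lit 28086114897) (.two (nat_lit 285212677) (nat_lit 159216832636) (.two (nat_lit 9781116929) (nat_lit 873474667) (.two (nat_lit 16777216) (nat_lit 8400716) (.one (nat_lit 156380441392) .nil))))))),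
   .two (nat_lit 2332033222) (nat_lit 1346372927) (.two (nat_lit 788529190) (nat_lit 46510637514) (.two (nat_lit 9967763523) (nat_lit 20652755470) (.two (nat_lit 183848927247) (nat_lit 9915339730) (.two (nat_lit 183848927240) (nat_lit 50338575) (.two (nat_lit 13191086085) (nat_lit 9982447740) (.two (nat_lit 13191086085) (nat_lit 11559508869) (.two (nat_lit 37748737) (nat_lit 21223189009) (.two (nat_lit 2097152) (nat_lit 16789966) (.one (nat_lit 16790778) .nil))))))))),
   .two (nat_lit 184419352933) (nat_lit 19127075039) (.two (nat_lit 12150898784) (nat_lit 168822085) (.two (nat_lit 12150898726) (nat_lit 168822085) (.two (nat_lit 12117344323) (nat_lit 772803090) (.two (nat_lit 184419352591) (nat_lit 2886733718) (.two (nat_lit 19529728008) (nat_lit 4201060) (.two (nat_lit 166129041412) (nat_lit 156367854590) (.two (nat_lit 37748739) (nat_lit 11543782667) (.two (nat_lit 37748737) (nat_lit 183912901233) (.two (nat_lit 4194304) (nat_lit 16789325) (.one (nat_lit 16790779) .nil)))))))))),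
   .two (nat_lit 343933026) (nat_lit 2098026) (.two (nat_lit 47588573280) (nat_lit 11477714245) (.two (nat_lit 47555018819) (nat_lit 4028631570) (.two (nat_lit 3464495119) (nat_lit 706744214) (.two (nat_lit 28087156744) (nat_lit 813701732) (.two (nat_lit 20638072834) (nat_lit 8395664) (.two (nat_lit 4605345797) (nat_lit 2317358503) (.two (nat_lit 8388609) (nat_lit 2988452465) (.two (nat_lit 8388608) (nat_lit 16789326) (.one (nat_lit 16790780) .nil))))))))),
   .two (nat_lit 11543773379) (nat_lit 46523221373) (.two (nat_lit 754974787) (nat_lit 3457157637) (.two (nat_lit 11559501839) (nat_lit 28086112172) (.two (nat_lit 83886088) (nat_lit 705698525) (.two (nat_lit 705691652) (nat_lit 1914705325) (.two (nat_lit 620756997) (nat_lit 184417260970) (.two (nat_lit 620756993) (nat_lit 2921343598) (.two (nat_lit 16777216) (nat_lit 158143099111) (.one (nat_lit 2110689) .nil)))))))),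
   .two (nat_lit 3525312707) (nat_lit 3527410530) (.two (nat_lit 3525312576) (nat_lit 3527411229) (.two (nat_lit 46409973775) (nat_lit 156372048130) (.two (nat_lit 46407876616) (nat_lit 71311347) (.two (nat_lit 41943045) (nat_lit 1379930243) (.two (nat_lit 746586117) (nat_lit 156468516275) (.two (nat_lit 156365750273) (nat_lit 8400438) (.two (nat_lit 2097152) (nat_lit 8401359) (.one (nat_lit 2110718) .nil)))))))),
   .two (nat_lit 3527409859) (nat_lit 46474986339) (.two (nat_lit 3525312576) (nat_lit 3527411229) (.two (nat_lit 46409973775) (nat_lit 2317358121) (.two (nat_lit 46409973768) (nat_lit 2921340599) (.two (nat_lit 713031684) (nat_lit 10437531059) (.two (nat_lit 713031684) (nat_lit 2350912946) (.two (nat_lit 156365750273) (nat_lit 185027537371) (.two (nat_lit 2097152) (nat_lit 8401360) (.one (nat_lit 2110719) .nil)))))))),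
   .two (nat_lit 41943235) (nat_lit 11492395301) (.two (nat_lit 2969567297) (nat_lit 4599056927) (.two (nat_lit 8388623) (nat_lit 3558867457) (.two (nat_lit 8388623) (nat_lit 352327095) (.two (nat_lit 16777224) (nat_lit 840964710) (.two (nat_lit 8388612) (nat_lit 9967769005) (.two (nat_lit 16777219) (nat_lit 11007960254) (.two (nat_lit 16777217) (nat_lit 4206167) (.two (nat_lit 16777216) (nat_lit 4207057) (.one (nat_lit 11517571646) .nil))))))))),
   .two (nat_lit 47555018947) (nat_lit 1310720867) (.two (nat_lit 47548727360) (nat_lit 159224170014) (.two (nat_lit 176160783) (nat_lit 46508545065) (.two (nat_lit 606076936) (nat_lit 156539821616) (.two (nat_lit 11479810050) (nat_lit 2105549) (.two (nat_lit 37748739) (nat_lit 4638910544) (.two (nat_lit 37748737) (nat_lit 8398528) (.two (nat_lit 4194304) (nat_lit 2109263) (.one (nat_lit 2110017) .nil)))))))),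
   .two (nat_lit 11543773379) (nat_lit 46514832693) (.two (nat_lit 11543773250) (nat_lit 4599056905) (.two (nat_lit 169869327) (nat_lit 11618227226) (.two (nat_lit 705691656) (nat_lit 3464502951) (.two (nat_lit 8388612) (nat_lit 9899611565) (.two (nat_lit 705691652) (nat_lit 28087163783) (.two (nat_lit 605028353) (nat_lit 3022006718) (.two (nat_lit 1048576) (nat_lit 19128135367) (.one (nat_lit 4631573039) .nil)))))))),
   .two (nat_lit 343933123) (nat_lit 20637025123) (.two (nat_lit 16777283) (nat_lit 1749027369) (.two (nat_lit 184549391) (nat_lit 2416971660) (.two (nat_lit 2969567240) (nat_lit 1947213644) (.two (nat_lit 16777221) (nat_lit 1178604980) (.two (nat_lit 16777219) (nat_lit 156364711123) (.two (nat_lit 605028353) (nat_lit 13228845879) (.two (nat_lit 16777216) (nat_lit 1061330) (.one (nat_lit 171979310) .nil)))))))),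
   .two (nat_lit 13191086275) (nat_lit 1376782454) (.two (nat_lit 28690088003) (nat_lit 1279265285) (.two (nat_lit 46978301967) (nat_lit 239080507) (.two (nat_lit 101711880) (nat_lit 809508352) (.two (nat_lit 184989777925) (nat_lit 183912897423) (.two (nat_lit 183848927236) (nat_lit 135276165) (.two (nat_lit 9765388289) (nat_lit 1344286260) (.two (nat_lit 2097152) (nat_lit 101724620) (.one (nat_lit 135279846) .nil)))))))),
   .two (nat_lit 3525312870) (nat_lit 28793897183) (.two (nat_lit 3539992614) (nat_lit 673187117) (.two (nat_lit 285212737) (nat_lit 102760952) (.two (nat_lit 166132187201) (nat_lit 159251433101) (.two (nat_lit 285212687) (nat_lit 1377829897) (.two (nat_lit 285212687) (nat_lit 2420118967) (.two (nat_lit 8388616) (nat_lit 352327095) (.two (nat_lit 12117344263) (nat_lit 10370425037) (.two (nat_lit 8388612) (nat_lit 9967769005) (.two (nat_lit 11479810051) (nat_lit 10370425037) (.two (nat_lit 8388609) (nat_lit 28691147545) (.two (nat_lit 2097152) (nat_lit 8400721) (.one (nat_lit 3531616823) .nil)))))))))))),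
   .two (nat_lit 809500867) (nat_lit 9982443743) (.two (nat_lit 272629824) (nat_lit 157051519488) (.two (nat_lit 10519314447) (nat_lit 183949594499) (.two (nat_lit 9781116936) (nat_lit 2990544190) (.two (nat_lit 218103813) (nat_lit 239079548) (.two (nat_lit 16777217) (nat_lit 9940507607) (.two (nat_lit 2097152) (nat_lit 352334028) (.one (nat_lit 4206461) .nil))))))),
   .two (nat_lit 4601151683) (nat_lit 4605346017) (.two (nat_lit 3539992642) (nat_lit 12050238288) (.two (nat_lit 306184258) (nat_lit 11610882281) (.two (nat_lit 46414168079) (nat_lit 1947209612) (.two (nat_lit 4194312) (nat_lit 2969568978) (.two (nat_lit 158091706373) (nat_lit 2349864357) (.two (nat_lit 4194308) (nat_lit 101716088) (.two (nat_lit 156372041729) (nat_lit 16785672) (.two (nat_lit 8388608) (nat_lit 16785722) (.one (nat_lit 16790787) .nil))))))))),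
   .two (nat_lit 2954888034) (nat_lit 184549601) (.two (nat_lit 47582281923) (nat_lit 166196150506) (.two (nat_lit 16777236) (nat_lit 21811433384) (.two (nat_lit 16777231) (nat_lit 1343227602) (.two (nat_lit 16777224) (nat_lit 235933817) (.two (nat_lit 1277165572) (nat_lit 1175462198) (.two (nat_lit 2097153) (nat_lit 184986640708) (.two (nat_lit 2097152) (nat_lit 135276294) (.one (nat_lit 28806493487) .nil)))))))),
   .two (nat_lit 4634706145) (nat_lit 159251433667) (.two (nat_lit 19532874344) (nat_lit 20637024489) (.two (nat_lit 3525312626) (nat_lit 46510638802) (.two (nat_lit 10504634383) (nat_lit 28086114971) (.two (nat_lit 10504634376) (nat_lit 10335817849) (.two (nat_lit 2887778306) (nat_lit 156364712578) (.two (nat_lit 2097153) (nat_lit 1060660) (.two (nat_lit 1048576) (nat_lit 2105670) (.one (nat_lit 1061446) .nil)))))))),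
   .two (nat_lit 4195170) (nat_lit 18933088480) (.two (nat_lit 272629955) (nat_lit 2927624424) (.two (nat_lit 46510637123) (nat_lit 159217880967) (.two (nat_lit 272629775) (nat_lit 10335820557) (.two (nat_lit 4194312) (nat_lit 337645688) (.two (nat_lit 4194308) (nat_lit 11610891963) (.two (nat_lit 2097153) (nat_lit 135278207) (.two (nat_lit 1048576) (nat_lit 8397127) (.one (nat_lit 156573381919) .nil)))))))),
   .two (nat_lit 11492393826) (nat_lit 3525312974) (.two (nat_lit 13191086275) (nat_lit 11626613290) (.two (nat_lit 13237223491) (nat_lit 3527411339) (.two (nat_lit 37748751) (nat_lit 11559507255) (.two (nat_lit 37748744) (nat_lit 46422563695) (.two (nat_lit 169869316) (nat_lit 285222588) (.two (nat_lit 2097153) (nat_lit 183928631022) (.two (nat_lit 2097152) (nat_lit 4647297348) (.one (nat_lit 4207911) .nil)))))))),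
   .two (nat_lit 83886302) (nat_lit 165526111619) (.two (nat_lit 9881780319) (nat_lit 672140920) (.two (nat_lit 10538188908) (nat_lit 21207451346) (.two (nat_lit 639631375) (nat_lit 21207451346) (.two (nat_lit 639631368) (nat_lit 20704136014) (.two (nat_lit 285212677) (nat_lit 3022004483) (.two (nat_lit 16777217) (nat_lit 1058549) (.two (nat_lit 2097152) (nat_lit 1058571) (.one (nat_lit 1061449) .nil)))))))),
   .two (nat_lit 843055970) (nat_lit 142606562) (.two (nat_lit 843055299) (nat_lit 310378728) (.two (nat_lit 4601151552) (nat_lit 185027528337) (.two (nat_lit 41943055) (nat_lit 10338966408) (.two (nat_lit 176160774) (nat_lit 16781444) (.two (nat_lit 46414168066) (nat_lit 4201433) (.two (nat_lit 37748737) (nat_lit 2969577205) (.two (nat_lit 4194304) (nat_lit 16788278) (.one (nat_lit 16790090) .nil)))))))),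
   .two (nat_lit 28758245414) (nat_lit 620760714) (.two (nat_lit 47596961906) (nat_lit 11544822272) (.two (nat_lit 11551113223) (nat_lit 1055627) (.two (nat_lit 713031683) (nat_lit 1055706) (.two (nat_lit 8388608) (nat_lit 1059639) (.one (nat_lit 1060738) .nil))))),
   .two (nat_lit 1376780483) (nat_lit 166197199352) (.two (nat_lit 184993972290) (nat_lit 10335814665) (.two (nat_lit 75497480) (nat_lit 68163054) (.two (nat_lit 612368389) (nat_lit 68163054) (.two (nat_lit 8388608) (nat_lit 2109992) (.one (nat_lit 2110027) .nil))))),
   .two (nat_lit 184986632387) (nat_lit 2323644920) (.two (nat_lit 184549441) (nat_lit 2316304897) (.two (nat_lit 1795162120) (nat_lit 10537144451) (.two (nat_lit 2097155) (nat_lit 8397060) (.two (nat_lit 2097152) (nat_lit 1060725) (.one (nat_lit 713043841) .nil))))),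
   .two (nat_lit 2988441795) (nat_lit 21207450104) (.two (nat_lit 50331715) (nat_lit 156466414604) (.two (nat_lit 721420296) (nat_lit 185023336579) (.two (nat_lit 11476664324) (nat_lit 2921338350) (.two (nat_lit 16777216) (nat_lit 4207145) (.one (nat_lit 4205379) .nil))))),
   .two (nat_lit 47584378918) (nat_lit 12054433669) (.two (nat_lit 4194311) (nat_lit 8394222) (.two (nat_lit 1048576) (nat_lit 9936317246) .nil)),
   .two (nat_lit 37313577318) (nat_lit 46978302464) (.two (nat_lit 1916796935) (nat_lit 1054192) (.two (nat_lit 1048576) (nat_lit 8399681) .nil)),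
   .two (nat_lit 183949590886) (nat_lit 1417675265) (.two (nat_lit 276824071) (nat_lit 16784342) (.two (nat_lit 4194304) (nat_lit 1060736) .nil)),
   .two (nat_lit 2988441795) (nat_lit 11010048195) (.two (nat_lit 16777280) (nat_lit 205522257) (.two (nat_lit 16777231) (nat_lit 46407879181) (.two (nat_lit 10506731528) (nat_lit 2365591432) (.two (nat_lit 16777220) (nat_lit 183947500116) (.two (nat_lit 2097153) (nat_lit 19142812984) (.two (nat_lit 16777216) (nat_lit 2109433) (.one (nat_lit 606089235) .nil))))))),
   .two (nat_lit 8388803) (nat_lit 788529820) (.two (nat_lit 1795162179) (nat_lit 1175454562) (.two (nat_lit 203423759) (nat_lit 20711475728) (.two (nat_lit 2887778312) (nat_lit 4638904210) (.two (nat_lit 4599054341) (nat_lit 10007614774) (.two (nat_lit 2097153) (nat_lit 276832394) (.two (nat_lit 1048576) (nat_lit 3028298316) (.one (nat_lit 1061361) .nil))))))),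
   .two (nat_lit 8388803) (nat_lit 21778924117) (.two (nat_lit 12050235457) (nat_lit 101712738) (.two (nat_lit 185002360847) (nat_lit 101713437) (.two (nat_lit 721420296) (nat_lit 11543777157) (.two (nat_lit 50331653) (nat_lit 11543778615) (.two (nat_lit 50331649) (nat_lit 839917703) (.two (nat_lit 1048576) (nat_lit 337652259) (.one (nat_lit 2109938) .nil))))))),
   .two (nat_lit 8388803) (nat_lit 21778924117) (.two (nat_lit 12050235457) (nat_lit 101712738) (.two (nat_lit 185002360847) (nat_lit 101713437) (.two (nat_lit 721420296) (nat_lit 11543777157) (.two (nat_lit 50331653) (nat_lit 11543778615) (.two (nat_lit 50331649) (nat_lit 839917703) (.two (nat_lit 1048576) (nat_lit 3024103971) (.one (nat_lit 1061636) .nil))))))),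
   .two (nat_lit 269484390) (nat_lit 46510637253) (.two (nat_lit 276824172) (nat_lit 159251431647) (.two (nat_lit 276824172) (nat_lit 874512842) (.two (nat_lit 3531604006) (nat_lit 184987682081) (.two (nat_lit 276824079) (nat_lit 1948255885) (.two (nat_lit 8388624) (nat_lit 158176643619) (.two (nat_lit 8388616) (nat_lit 19026416618) (.two (nat_lit 8388612) (nat_lit 184986636414) (.two (nat_lit 8388612) (nat_lit 4613741342) (.two (nat_lit 8388609) (nat_lit 1745886075) (.two (nat_lit 8388608) (nat_lit 1061455) (.one (nat_lit 1060692) .nil))))))))))),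
   .two (nat_lit 47548727491) (nat_lit 843055728) (.two (nat_lit 2961178689) (nat_lit 889193314) (.two (nat_lit 2961178639) (nat_lit 19545459207) (.two (nat_lit 8388616) (nat_lit 11006906258) (.two (nat_lit 16777220) (nat_lit 1055517) (.two (nat_lit 8388611) (nat_lit 772807283) (.two (nat_lit 16777217) (nat_lit 9765397852) (.two (nat_lit 4194304) (nat_lit 605039308) (.one (nat_lit 1062201) .nil)))))))),
   .two (nat_lit 4601151683) (nat_lit 184417256027) (.two (nat_lit 3539992641) (nat_lit 159217877858) (.two (nat_lit 3539992591) (nat_lit 159217878557) (.two (nat_lit 272629768) (nat_lit 606082015) (.two (nat_lit 4605345797) (nat_lit 184986637623) (.two (nat_lit 8388609) (nat_lit 806363271) (.two (nat_lit 2097152) (nat_lit 839920163) (.one (nat_lit 13189001988) .nil))))))),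
   .two (nat_lit 4601151683) (nat_lit 12121538757) (.two (nat_lit 3028287555) (nat_lit 158075978594) (.two (nat_lit 8388623) (nat_lit 156566030851) (.two (nat_lit 8388616) (nat_lit 2953843677) (.two (nat_lit 8388612) (nat_lit 184416213982) (.two (nat_lit 8388611) (nat_lit 2316312337) (.two (nat_lit 41943041) (nat_lit 3557825405) (.two (nat_lit 2097152) (nat_lit 1059569) (.one (nat_lit 1062202) .nil)))))))),
   .two (nat_lit 1175454053) (nat_lit 2936012999) (.two (nat_lit 8388627) (nat_lit 83887441) (.two (nat_lit 276824129) (nat_lit 285213130) (.two (nat_lit 276824129) (nat_lit 184549598) (.two (nat_lit 2887778319) (nat_lit 8392116) (.two (nat_lit 2887778312) (nat_lit 855642003) (.two (nat_lit 721420293) (nat_lit 3020954339) (.two (nat_lit 2097153) (nat_lit 156465374543) (.two (nat_lit 2097152) (nat_lit 12062826751) (.one (nat_lit 8402235) .nil))))))))),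
   .two (nat_lit 9781117023) (nat_lit 10909385324) (.two (nat_lit 156548202853) (nat_lit 2956984517) (.two (nat_lit 3539992641) (nat_lit 12117345122) (.two (nat_lit 809500687) (nat_lit 158653746681) (.two (nat_lit 3539992584) (nat_lit 28693240226) (.two (nat_lit 209715205) (nat_lit 306192017) (.two (nat_lit 8388609) (nat_lit 156465374235) (.two (nat_lit 1048576) (nat_lit 4206172) (.one (nat_lit 16790844) .nil)))))))),
   .two (nat_lit 775946597) (nat_lit 9873391813) (.two (nat_lit 185002360898) (nat_lit 343933794) (.two (nat_lit 4605345807) (nat_lit 1780485625) (.two (nat_lit 185002360840) (nat_lit 12121543638) (.two (nat_lit 721420292) (nat_lit 673192537) (.two (nat_lit 2097153) (nat_lit 721429531) (.two (nat_lit 4194304) (nat_lit 8400477) (.one (nat_lit 8402237) .nil))))))),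
   .two (nat_lit 9768534211) (nat_lit 11578376815) (.two (nat_lit 41943107) (nat_lit 20638073698) (.two (nat_lit 713031695) (nat_lit 159217878557) (.two (nat_lit 713031688) (nat_lit 2350911384) (.two (nat_lit 41943045) (nat_lit 21208501024) (.two (nat_lit 2887778308) (nat_lit 855643570) (.two (nat_lit 41943041) (nat_lit 11010057565) (.two (nat_lit 8388608) (nat_lit 156567087550) (.one (nat_lit 2110782) .nil)))))))),
   .two (nat_lit 8388803) (nat_lit 47548727931) (.two (nat_lit 2969567297) (nat_lit 1175454562) (.two (nat_lit 2969567247) (nat_lit 11618225892) (.two (nat_lit 184549384) (nat_lit 235933585) (.two (nat_lit 713031684) (nat_lit 10939804483) (.two (nat_lit 50331651) (nat_lit 11584675413) (.two (nat_lit 9766436865) (nat_lit 16789380) (.two (nat_lit 1048576) (nat_lit 8401488) (.one (nat_lit 1062207) .nil)))))))),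
   .two (nat_lit 2969567427) (nat_lit 2097355) (.two (nat_lit 4613734465) (nat_lit 165532402530) (.two (nat_lit 4613734415) (nat_lit 9772730883) (.two (nat_lit 46407876616) (nat_lit 612373476) (.two (nat_lit 4599054341) (nat_lit 176167902) (.two (nat_lit 159224168453) (nat_lit 46473945157) (.two (nat_lit 2097153) (nat_lit 11593064590) (.two (nat_lit 8388608) (nat_lit 16789499) (.one (nat_lit 16790848) .nil)))))))),
   .two (nat_lit 276824158) (nat_lit 18925748581) (.two (nat_lit 41943235) (nat_lit 183946445166) (.two (nat_lit 8388672) (nat_lit 20737688950) (.two (nat_lit 16777231) (nat_lit 165525064195) (.two (nat_lit 16777224) (nat_lit 2987398271) (.two (nat_lit 75497477) (nat_lit 28705824695) (.two (nat_lit 16777217) (nat_lit 1377838213) (.two (nat_lit 16777216) (nat_lit 337651391) (.one (nat_lit 1062209) .nil)))))))),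
   .two (nat_lit 10947133638) (nat_lit 156367847619) (.two (nat_lit 8388675) (nat_lit 10540287280) (.two (nat_lit 176160783) (nat_lit 1212155422) (.two (nat_lit 176160776) (nat_lit 47584383959) (.two (nat_lit 8388613) (nat_lit 158146237753) (.two (nat_lit 8388609) (nat_lit 2923438250) (.two (nat_lit 16777216) (nat_lit 157043137490) (.one (nat_lit 8400702) .nil))))))),
   .two (nat_lit 276824159) (nat_lit 874513041) (.two (nat_lit 21214789831) (nat_lit 1761608297) (.two (nat_lit 8388643) (nat_lit 157036841152) (.two (nat_lit 4605345858) (nat_lit 46978306106) (.two (nat_lit 37748751) (nat_lit 847251997) (.two (nat_lit 272629768) (nat_lit 9799996500) (.two (nat_lit 4194308) (nat_lit 20638079560) (.two (nat_lit 2097153) (nat_lit 1749034017) (.two (nat_lit 16777216) (nat_lit 8401489) (.one (nat_lit 2109280) .nil))))))))),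
   .two (nat_lit 9940500575) (nat_lit 807404154) (.two (nat_lit 184987681126) (nat_lit 183920230599) (.two (nat_lit 612368419) (nat_lit 12115249202) (.two (nat_lit 185002360897) (nat_lit 1384120784) (.two (nat_lit 47555018767) (nat_lit 10336865778) (.two (nat_lit 185002360840) (nat_lit 2424311699) (.two (nat_lit 2902458373) (nat_lit 46978308801) (.two (nat_lit 16777217) (nat_lit 3558876349) (.two (nat_lit 2097152) (nat_lit 19042148626) (.one (nat_lit 2110772) .nil))))))))),
   .two (nat_lit 4194401) (nat_lit 12633244280) (.two (nat_lit 272629824) (nat_lit 218105169) (.two (nat_lit 50331663) (nat_lit 1413483949) (.two (nat_lit 50331656) (nat_lit 2424311699) (.two (nat_lit 16777220) (nat_lit 19599990417) (.two (nat_lit 8388609) (nat_lit 339749733) (.two (nat_lit 8388608) (nat_lit 11492402881) (.one (nat_lit 8401645) .nil))))))),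
   .two (nat_lit 13224640707) (nat_lit 166129041765) (.two (nat_lit 46489665601) (nat_lit 20707280176) (.two (nat_lit 713031695) (nat_lit 184431939970) (.two (nat_lit 3539992584) (nat_lit 19033755528) (.two (nat_lit 83886085) (nat_lit 156364707131) (.two (nat_lit 16777217) (nat_lit 839919643) (.two (nat_lit 16777216) (nat_lit 1058509) (.one (nat_lit 1062210) .nil))))))),
   .two (nat_lit 9940500575) (nat_lit 135266661) (.two (nat_lit 184549733) (nat_lit 2920284359) (.two (nat_lit 16777283) (nat_lit 158646404431) (.two (nat_lit 612368399) (nat_lit 158075979294) (.two (nat_lit 612368392) (nat_lit 1376785542) (.two (nat_lit 713031685) (nat_lit 2365594305) (.two (nat_lit 41943041) (nat_lit 10921977021) (.two (nat_lit 16777216) (nat_lit 1061458) (.one (nat_lit 1062211) .nil)))))))),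
   .two (nat_lit 8388803) (nat_lit 156367847619) (.two (nat_lit 8388672) (nat_lit 20637025122) (.two (nat_lit 8388623) (nat_lit 183946447364) (.two (nat_lit 8388616) (nat_lit 28690091911) (.two (nat_lit 8388612) (nat_lit 1913657943) (.two (nat_lit 16777217) (nat_lit 839918571) (.two (nat_lit 1048576) (nat_lit 8397083) (.one (nat_lit 4638912678) .nil))))))),
   .two (nat_lit 41943235) (nat_lit 19545457258) (.two (nat_lit 8388672) (nat_lit 2953839929) (.two (nat_lit 16777231) (nat_lit 9899608583) (.two (nat_lit 16777224) (nat_lit 1745883015) (.two (nat_lit 3458203653) (nat_lit 166129048272) (.two (nat_lit 50331649) (nat_lit 13222553545) (.two (nat_lit 1048576) (nat_lit 2109024) (.one (nat_lit 2110788) .nil))))))),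
   .two (nat_lit 46508540261) (nat_lit 10506731877) (.two (nat_lit 3527409729) (nat_lit 4631562315) (.two (nat_lit 639631375) (nat_lit 19537070622) (.two (nat_lit 1745879048) (nat_lit 9799995274) (.two (nat_lit 183845781508) (nat_lit 183846836894) (.two (nat_lit 37748737) (nat_lit 28758254665) (.two (nat_lit 4194304) (nat_lit 8401491) (.one (nat_lit 8402245) .nil))))))),
   .two (nat_lit 1317011813) (nat_lit 10538189666) (.two (nat_lit 272629827) (nat_lit 1786776073) (.two (nat_lit 2889875471) (nat_lit 3565162385) (.two (nat_lit 2889875464) (nat_lit 158653749891) (.two (nat_lit 2887778308) (nat_lit 276833232) (.two (nat_lit 2097153) (nat_lit 165528219273) (.one (nat_lit 11614041604) .nil)))))),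
   .two (nat_lit 50331843) (nat_lit 10437529015) (.two (nat_lit 8388623) (nat_lit 1779437462) (.two (nat_lit 8388616) (nat_lit 19026418316) (.two (nat_lit 176160772) (nat_lit 10351551453) (.two (nat_lit 16777217) (nat_lit 46481288179) (.two (nat_lit 1048576) (nat_lit 2110060) (.one (nat_lit 1062274) .nil)))))),
   .two (nat_lit 310378691) (nat_lit 4634707281) (.two (nat_lit 169869377) (nat_lit 28764540812) (.two (nat_lit 4194312) (nat_lit 20711479885) (.two (nat_lit 1344274437) (nat_lit 37320926179) (.two (nat_lit 37748737) (nat_lit 156533533131) (.two (nat_lit 4194304) (nat_lit 2109126) (.one (nat_lit 2110472) .nil)))))),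
   .two (nat_lit 11610882405) (nat_lit 10452208167) (.two (nat_lit 4194319) (nat_lit 687870983) (.two (nat_lit 4194312) (nat_lit 12148810770) (.two (nat_lit 606076929) (nat_lit 2923440587) (.two (nat_lit 1048576) (nat_lit 2109554) (.one (nat_lit 1061897) .nil))))),
   .two (nat_lit 50331843) (nat_lit 839910739) (.two (nat_lit 11551113281) (nat_lit 1276119566) (.two (nat_lit 2961178639) (nat_lit 10540291068) (.two (nat_lit 176160776) (nat_lit 9802095219) (.two (nat_lit 176160772) (nat_lit 2106397) (.two (nat_lit 8388609) (nat_lit 1059851) (.two (nat_lit 1048576) (nat_lit 2110061) (.one (nat_lit 1061900) .nil))))))),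
   .two (nat_lit 117440707) (nat_lit 2889876839) (.two (nat_lit 169869377) (nat_lit 47596966875) (.two (nat_lit 4194312) (nat_lit 19134421656) (.two (nat_lit 2894069765) (nat_lit 606086132) (.two (nat_lit 8388609) (nat_lit 2953849851) (.two (nat_lit 1048576) (nat_lit 4207214) (.one (nat_lit 2110851) .nil)))))),
   .two (nat_lit 156535619779) (nat_lit 10369369437) (.two (nat_lit 46407876673) (nat_lit 310381070) (.two (nat_lit 276824079) (nat_lit 2350914208) (.two (nat_lit 8388612) (nat_lit 35660797) (.two (nat_lit 9766436865) (nat_lit 166136392715) (.two (nat_lit 1048576) (nat_lit 2110063) (.one (nat_lit 166136394764) .nil)))))),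
   .two (nat_lit 9768534211) (nat_lit 166245434702) (.two (nat_lit 272629824) (nat_lit 3573549588) (.two (nat_lit 272629775) (nat_lit 159232561031) (.two (nat_lit 2902458376) (nat_lit 21210602061) (.two (nat_lit 2969567237) (nat_lit 10540295140) (.two (nat_lit 4194305) (nat_lit 8399891) (.two (nat_lit 16777216) (nat_lit 156367860584) .nil)))))),
   .two (nat_lit 9768534211) (nat_lit 13237226952) (.two (nat_lit 184549391) (nat_lit 165528214104) (.two (nat_lit 16777221) (nat_lit 306193335) (.two (nat_lit 37748737) (nat_lit 158662142957) (.two (nat_lit 4194304) (nat_lit 8401520) (.one (nat_lit 855651188) .nil))))),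
   .two (nat_lit 21827158211) (nat_lit 8390684) (.two (nat_lit 166196150383) (nat_lit 47555021348) (.two (nat_lit 276824079) (nat_lit 9969867385) (.two (nat_lit 605028357) (nat_lit 8397874) (.two (nat_lit 4194305) (nat_lit 8400775) (.two (nat_lit 1048576) (nat_lit 8401022) (.one (nat_lit 8402308) .nil)))))),
   .two (nat_lit 156971827809) (nat_lit 813696332) (.two (nat_lit 2927624259) (nat_lit 166132189697) (.two (nat_lit 8388623) (nat_lit 28089259001) (.two (nat_lit 183848927240) (nat_lit 9940507249) (.two (nat_lit 13191086085) (nat_lit 10007617691) (.two (nat_lit 37748737) (nat_lit 8399892) (.two (nat_lit 4194304) (nat_lit 8401023) (.one (nat_lit 8401807) .nil))))))),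
   .two (nat_lit 156372042329) (nat_lit 156481094965) (.two (nat_lit 310378563) (nat_lit 9781119510) (.two (nat_lit 620757007) (nat_lit 8394569) (.two (nat_lit 3464495112) (nat_lit 16784870) (.two (nat_lit 4605345797) (nat_lit 16787339) (.two (nat_lit 8388609) (nat_lit 16787997) (.two (nat_lit 8388608) (nat_lit 16789524) (.one (nat_lit 16790870) .nil))))))),
   .two (nat_lit 157038936259) (nat_lit 8391558) (.two (nat_lit 2927624259) (nat_lit 4197838) (.two (nat_lit 10338959384) (nat_lit 19537073163) (.two (nat_lit 8388616) (nat_lit 37757942) (.two (nat_lit 4194305) (nat_lit 8399893) (.two (nat_lit 4194304) (nat_lit 8401024) (.one (nat_lit 4207505) .nil)))))),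
   .two (nat_lit 352321731) (nat_lit 165532402530) (.two (nat_lit 352321602) (nat_lit 12121542548) (.two (nat_lit 16777224) (nat_lit 11551119972) (.two (nat_lit 159224168453) (nat_lit 10000279214) (.two (nat_lit 1048576) (nat_lit 9881793489) .nil)))),
   .two (nat_lit 2969567427) (nat_lit 46978303341) (.two (nat_lit 2969567296) (nat_lit 21812481946) (.two (nat_lit 169869320) (nat_lit 788535891) (.two (nat_lit 2902458372) (nat_lit 28693242849) (.two (nat_lit 34603009) (nat_lit 46474996169) (.two (nat_lit 4194304) (nat_lit 158176653408) (.one (nat_lit 272643028) .nil)))))),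
   .two (nat_lit 21827158211) (nat_lit 12617516325) (.two (nat_lit 184419352641) (nat_lit 158075980315) (.two (nat_lit 4194319) (nat_lit 3003127101) (.two (nat_lit 2889875461) (nat_lit 166245441690) (.two (nat_lit 4194305) (nat_lit 1059862) (.two (nat_lit 1048576) (nat_lit 16790129) (.one (nat_lit 1061951) .nil)))))),
   .two (nat_lit 4601151683) (nat_lit 20745028977) (.two (nat_lit 3539992641) (nat_lit 843056669) (.two (nat_lit 41943055) (nat_lit 37313582079) (.two (nat_lit 276824072) (nat_lit 19545463394) (.two (nat_lit 713031685) (nat_lit 28690097154) (.two (nat_lit 4194305) (nat_lit 1060744) (.two (nat_lit 1048576) (nat_lit 4207218) (.one (nat_lit 4208005) .nil))))))),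
   .two (nat_lit 8388803) (nat_lit 10003417622) (.two (nat_lit 8388623) (nat_lit 4631565306) (.two (nat_lit 620757000) (nat_lit 303045215) (.two (nat_lit 721420292) (nat_lit 775955416) (.two (nat_lit 8388609) (nat_lit 1060745) (.two (nat_lit 1048576) (nat_lit 4207219) (.one (nat_lit 1062278) .nil)))))),
   .two (nat_lit 50331843) (nat_lit 20637025644) (.two (nat_lit 9899606081) (nat_lit 16780752) (.two (nat_lit 11559501839) (nat_lit 1052569) (.two (nat_lit 9866051592) (nat_lit 1325405498) (.two (nat_lit 1343225861) (nat_lit 83894424) (.two (nat_lit 156365750273) (nat_lit 16787938) (.two (nat_lit 2097152) (nat_lit 1343239098) .nil)))))),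
   .two (nat_lit 47582281923) (nat_lit 1846543202) (.two (nat_lit 10436476993) (nat_lit 41945639) (.two (nat_lit 183845781527) (nat_lit 1210060691) (.two (nat_lit 47548727304) (nat_lit 12617521785) (.two (nat_lit 159217876997) (nat_lit 8398732) (.two (nat_lit 8388609) (nat_lit 1060746) (.two (nat_lit 1048576) (nat_lit 2110068) (.one (nat_lit 1061954) .nil))))))),
   .two (nat_lit 47596961987) (nat_lit 159251432740) (.two (nat_lit 606077039) (nat_lit 9948891647) (.two (nat_lit 9934209039) (nat_lit 47596966915) (.two (nat_lit 169869320) (nat_lit 16785820) (.two (nat_lit 9866051589) (nat_lit 47548736517) (.two (nat_lit 2097153) (nat_lit 1059863) (.two (nat_lit 1048576) (nat_lit 2109570) (.one (nat_lit 1062279) .nil))))))),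
   .two (nat_lit 165526110565) (nat_lit 18933089572) (.two (nat_lit 46489665601) (nat_lit 11477715497) (.two (nat_lit 20638072847) (nat_lit 12047094805) (.two (nat_lit 2961178632) (nat_lit 203430506) (.two (nat_lit 176160773) (nat_lit 2106420) (.two (nat_lit 9765388289) (nat_lit 645932728) (.two (nat_lit 1048576) (nat_lit 2110069) (.one (nat_lit 2110856) .nil))))))),
   .two (nat_lit 272629955) (nat_lit 1795163430) (.two (nat_lit 11559501889) (nat_lit 184986634772) (.two (nat_lit 11543773199) (nat_lit 19612570591) (.two (nat_lit 620757000) (nat_lit 1209014856) (.two (nat_lit 721420293) (nat_lit 9798952626) (.two (nat_lit 1048576) (nat_lit 11022642824) (.one (nat_lit 4207683) .nil)))))),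
   .two (nat_lit 184549734) (nat_lit 28690089320) (.two (nat_lit 721420353) (nat_lit 183920232966) (.two (nat_lit 176160783) (nat_lit 4043314134) (.two (nat_lit 2961178632) (nat_lit 47582290920) (.two (nat_lit 2097153) (nat_lit 8399896) (.two (nat_lit 1048576) (nat_lit 2109571) (.one (nat_lit 8401988) .nil)))))),
   .two (nat_lit 2954887363) (nat_lit 16780167) (.two (nat_lit 9948889196) (nat_lit 235932164) (.two (nat_lit 9948889103) (nat_lit 10335817613) (.two (nat_lit 16777224) (nat_lit 1056231) (.two (nat_lit 184549380) (nat_lit 10906249087) (.two (nat_lit 16777217) (nat_lit 1060747) (.two (nat_lit 1048576) (nat_lit 2110070) (.one (nat_lit 1062281) .nil))))))),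
   .two (nat_lit 847249603) (nat_lit 708838244) (.two (nat_lit 847249518) (nat_lit 28693236247) (.two (nat_lit 46409973784) (nat_lit 1283461022) (.two (nat_lit 41943053) (nat_lit 10372520532) (.two (nat_lit 2956984325) (nat_lit 8397877) (.two (nat_lit 4194305) (nat_lit 8399391) (.two (nat_lit 1048576) (nat_lit 4206724) (.one (nat_lit 1061957) .nil))))))),
   .two (nat_lit 1384120515) (nat_lit 638584194) (.two (nat_lit 166196150339) (nat_lit 19096667677) (.two (nat_lit 1178599439) (nat_lit 11543778273) (.two (nat_lit 2961178632) (nat_lit 11614034560) (.two (nat_lit 2894069765) (nat_lit 10003423371) (.two (nat_lit 37748737) (nat_lit 19529738715) (.two (nat_lit 1048576) (nat_lit 4207585) .nil)))))),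
   .two (nat_lit 12117344451) (nat_lit 10913580391) (.two (nat_lit 2902458433) (nat_lit 239077920) (.two (nat_lit 809500687) (nat_lit 159266116617) (.two (nat_lit 10343153672) (nat_lit 158646410720) (.two (nat_lit 638582789) (nat_lit 156984420859) (.two (nat_lit 1048576) (nat_lit 46984605332) (.one (nat_lit 1062282) .nil)))))),
   .two (nat_lit 9781117123) (nat_lit 2956985651) (.two (nat_lit 285212736) (nat_lit 3527412250) (.two (nat_lit 809500687) (nat_lit 41949769) (.two (nat_lit 4194308) (nat_lit 13228844060) (.two (nat_lit 8388609) (nat_lit 13224652412) (.one (nat_lit 16790598) .nil))))),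
   .two (nat_lit 2316304741) (nat_lit 158158817830) (.two (nat_lit 183853121551) (nat_lit 46977258518) (.two (nat_lit 713031688) (nat_lit 156367856638) (.two (nat_lit 4194305) (nat_lit 8399897) (.two (nat_lit 1048576) (nat_lit 4207223) (.one (nat_lit 8402315) .nil))))),
   .two (nat_lit 13195280579) (nat_lit 1051528) (.two (nat_lit 1745879107) (nat_lit 18933089822) (.two (nat_lit 1384120344) (nat_lit 2953842567) (.two (nat_lit 713031688) (nat_lit 269490762) (.two (nat_lit 272629765) (nat_lit 806365682) (.two (nat_lit 4194304) (nat_lit 168832644) (.one (nat_lit 1062284) .nil)))))),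
   .two (nat_lit 2994733251) (nat_lit 47582283041) (.two (nat_lit 159251431491) (nat_lit 21811431957) (.two (nat_lit 20638072847) (nat_lit 11559508562) (.two (nat_lit 721420293) (nat_lit 169878556) (.two (nat_lit 606076929) (nat_lit 183912901136) (.two (nat_lit 1048576) (nat_lit 2110072) (.one (nat_lit 16790600) .nil)))))),
   .two (nat_lit 142606531) (nat_lit 1051529) (.two (nat_lit 2902458479) (nat_lit 46414170637) (.two (nat_lit 9866051599) (nat_lit 2936016778) (.two (nat_lit 158143086600) (nat_lit 13203675806) (.two (nat_lit 184549380) (nat_lit 1057846) (.two (nat_lit 8388609) (nat_lit 16789388) (.two (nat_lit 1048576) (nat_lit 8401529) (.one (nat_lit 8402317) .nil))))))),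
   .two (nat_lit 183912890563) (nat_lit 16779293) (.two (nat_lit 12163481667) (nat_lit 19093522942) (.two (nat_lit 822083599) (nat_lit 1054538) (.two (nat_lit 16777224) (nat_lit 156465371784) (.two (nat_lit 721420292) (nat_lit 20637033465) (.two (nat_lit 16777217) (nat_lit 1059866) (.two (nat_lit 1048576) (nat_lit 16790138) (.one (nat_lit 1061962) .nil))))))),
   .two (nat_lit 1175454053) (nat_lit 1291846949) (.two (nat_lit 4613734465) (nat_lit 159224170014) (.two (nat_lit 203423759) (nat_lit 37246473215) (.two (nat_lit 3525312520) (nat_lit 12047098882) (.two (nat_lit 612368385) (nat_lit 13222554617) (.two (nat_lit 1048576) (nat_lit 2110075) (.one (nat_lit 2110862) .nil)))))),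
   .two (nat_lit 11513364838) (nat_lit 9765389677) (.two (nat_lit 1913651267) (nat_lit 12620664242) (.two (nat_lit 46409973775) (nat_lit 1053720) (.two (nat_lit 46409973768) (nat_lit 10503592608) (.two (nat_lit 4601151493) (nat_lit 1057847) (.two (nat_lit 4194305) (nat_lit 1059867) (.two (nat_lit 4194304) (nat_lit 1343237844) (.one (nat_lit 1061963) .nil))))))),
   .two (nat_lit 142606531) (nat_lit 1050654) (.two (nat_lit 9765388405) (nat_lit 19545460631) (.two (nat_lit 713031688) (nat_lit 2332039820) (.two (nat_lit 8388612) (nat_lit 16786488) (.two (nat_lit 605028353) (nat_lit 9940511240) (.two (nat_lit 1048576) (nat_lit 8400600) (.one (nat_lit 1062287) .nil)))))),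
   .two (nat_lit 2987393382) (nat_lit 4028629859) (.two (nat_lit 3003121729) (nat_lit 1277168158) (.two (nat_lit 2889875480) (nat_lit 156984415215) (.two (nat_lit 10506731528) (nat_lit 9866058401) (.two (nat_lit 2097157) (nat_lit 4204429) (.two (nat_lit 2097153) (nat_lit 1059868) (.two (nat_lit 1048576) (nat_lit 16790140) (.one (nat_lit 2110540) .nil))))))),
   .two (nat_lit 3558867550) (nat_lit 158143087459) (.two (nat_lit 183912890433) (nat_lit 12121541134) (.two (nat_lit 21785214991) (nat_lit 183845785490) (.two (nat_lit 705691656) (nat_lit 41948472) (.two (nat_lit 4599054341) (nat_lit 28697436299) (.two (nat_lit 156365750273) (nat_lit 20644374984) (.two (nat_lit 1048576) (nat_lit 8401029) (.one (nat_lit 8401997) .nil))))))),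
   .two (nat_lit 13224640707) (nat_lit 157036840988) (.two (nat_lit 754974785) (nat_lit 9934210589) (.two (nat_lit 2889875471) (nat_lit 159232561041) (.two (nat_lit 50331656) (nat_lit 183846836815) (.two (nat_lit 4194308) (nat_lit 12618572805) (.two (nat_lit 16777217) (nat_lit 4030738490) (.one (nat_lit 4207694) .nil)))))),
   .two (nat_lit 16777411) (nat_lit 236980749) (.two (nat_lit 721420303) (nat_lit 11544828542) (.two (nat_lit 2887778308) (nat_lit 3020956698) (.two (nat_lit 9765388289) (nat_lit 3525323760) (.two (nat_lit 1048576) (nat_lit 2109574) (.one (nat_lit 156365763416) .nil))))),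
   .two (nat_lit 166196150467) (nat_lit 20640171358) (.two (nat_lit 11551113282) (nat_lit 185020189206) (.two (nat_lit 28086108175) (nat_lit 46409980527) (.two (nat_lit 102760453) (nat_lit 2420123514) (.two (nat_lit 606076929) (nat_lit 21814585884) (.two (nat_lit 1048576) (nat_lit 1749037876) .nil))))),
   .two (nat_lit 19599983205) (nat_lit 9915335989) (.two (nat_lit 2923429999) (nat_lit 21827160586) (.two (nat_lit 239075352) (nat_lit 20652756881) (.two (nat_lit 9768534024) (nat_lit 50337078) (.two (nat_lit 2889875460) (nat_lit 822092770) (.two (nat_lit 4194305) (nat_lit 10016008687) (.two (nat_lit 4194304) (nat_lit 16789639) (.one (nat_lit 16790608) .nil))))))),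
   .two (nat_lit 19130221158) (nat_lit 12155094366) (.two (nat_lit 2902458433) (nat_lit 47550827014) (.two (nat_lit 2902458383) (nat_lit 47550829526) (.two (nat_lit 183848927240) (nat_lit 19100865852) (.two (nat_lit 16777221) (nat_lit 12050244579) (.two (nat_lit 16777217) (nat_lit 156539824581) (.two (nat_lit 4194304) (nat_lit 8401032) (.one (nat_lit 4208016) .nil))))))),
   .two (nat_lit 11513365093) (nat_lit 11584669006) (.two (nat_lit 847249475) (nat_lit 11546921507) (.two (nat_lit 3527409679) (nat_lit 276829203) (.two (nat_lit 9768534024) (nat_lit 1283463756) (.two (nat_lit 2889875461) (nat_lit 8397881) (.two (nat_lit 4194305) (nat_lit 11014252992) (.two (nat_lit 4194304) (nat_lit 8401033) (.one (nat_lit 8402003) .nil))))))),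
   .two (nat_lit 843055299) (nat_lit 352322924) (.two (nat_lit 13195280451) (nat_lit 9869199877) (.two (nat_lit 3460300815) (nat_lit 11517563903) (.two (nat_lit 4194312) (nat_lit 10343160466) (.two (nat_lit 159216828421) (nat_lit 8398734) (.two (nat_lit 4194305) (nat_lit 8399901) (.two (nat_lit 1048576) (nat_lit 4207229) (.one (nat_lit 4208017) .nil))))))),
   .two (nat_lit 185035915459) (nat_lit 168822083) (.two (nat_lit 318767170) (nat_lit 165528210871) (.two (nat_lit 1343225871) (nat_lit 46422560649) (.two (nat_lit 158158815240) (nat_lit 2921339506) (.two (nat_lit 3472883717) (nat_lit 606086163) (.two (nat_lit 2097153) (nat_lit 183912901065) (.two (nat_lit 1048576) (nat_lit 2109578) (.one (nat_lit 2110866) .nil))))))),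
   .two (nat_lit 156533522627) (nat_lit 21223179623) (.two (nat_lit 1291845697) (nat_lit 184987683331) (.two (nat_lit 1291845647) (nat_lit 183846834055) (.two (nat_lit 83886088) (nat_lit 21812487097) (.two (nat_lit 2097153) (nat_lit 1761619582) (.one (nat_lit 11611943779) .nil))))),
   .two (nat_lit 28757196995) (nat_lit 157051520349) (.two (nat_lit 285212737) (nat_lit 184993974807) (.two (nat_lit 612368399) (nat_lit 889197577) (.two (nat_lit 16777224) (nat_lit 166136386876) (.two (nat_lit 50331653) (nat_lit 3020956682) (.two (nat_lit 605028353) (nat_lit 166237056668) (.one (nat_lit 1061974) .nil)))))),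
   .two (nat_lit 10538188995) (nat_lit 1417676136) (.two (nat_lit 4605345857) (nat_lit 13224643073) (.two (nat_lit 37748751) (nat_lit 4034924434) (.two (nat_lit 9766436872) (nat_lit 10003421841) (.two (nat_lit 169869316) (nat_lit 156372050909) (.two (nat_lit 2097153) (nat_lit 1216358902) (.two (nat_lit 2097152) (nat_lit 4206731) (.one (nat_lit 337654690) .nil))))))),
   .two (nat_lit 2994733251) (nat_lit 12115248507) (.two (nat_lit 46474985538) (nat_lit 679478814) (.two (nat_lit 46407876623) (nat_lit 185027532093) (.two (nat_lit 46407876612) (nat_lit 12155101324) (.two (nat_lit 34603009) (nat_lit 169881659) (.one (nat_lit 1061977) .nil))))),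
   .two (nat_lit 9948889283) (nat_lit 10503587166) (.two (nat_lit 2954887234) (nat_lit 10385098270) (.two (nat_lit 2954887183) (nat_lit 772805600) (.two (nat_lit 9934209032) (nat_lit 12147762137) (.two (nat_lit 2097153) (nat_lit 1059870) (.two (nat_lit 1048576) (nat_lit 2110078) (.one (nat_lit 1061979) .nil)))))),
   .two (nat_lit 47582282341) (nat_lit 1846543203) (.two (nat_lit 772800577) (nat_lit 156548207639) (.two (nat_lit 117440520) (nat_lit 168826172) (.two (nat_lit 806354949) (nat_lit 21793612846) (.two (nat_lit 50331649) (nat_lit 772811243) (.two (nat_lit 1048576) (nat_lit 2110079) (.one (nat_lit 1061980) .nil)))))),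
   .two (nat_lit 184419352934) (nat_lit 158177690949) (.two (nat_lit 1916796995) (nat_lit 102764435) (.two (nat_lit 705691656) (nat_lit 4201125) (.two (nat_lit 34603013) (nat_lit 4204431) (.two (nat_lit 2097153) (nat_lit 1059361) (.two (nat_lit 1048576) (nat_lit 4207232) (.one (nat_lit 1062291) .nil)))))),
   .two (nat_lit 2420113603) (nat_lit 21811430696) (.two (nat_lit 184549441) (nat_lit 12117346839) (.two (nat_lit 205520911) (nat_lit 156380435452) (.two (nat_lit 1779433480) (nat_lit 10003421776) (.two (nat_lit 285212677) (nat_lit 269493205) (.two (nat_lit 620756993) (nat_lit 157038946797) (.two (nat_lit 1048576) (nat_lit 4206733) (.one (nat_lit 1061982) .nil))))))),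
   .two (nat_lit 19042140773) (nat_lit 10538189666) (.two (nat_lit 12147753025) (nat_lit 16779800) (.two (nat_lit 3036676120) (nat_lit 11618226051) (.two (nat_lit 9948889096) (nat_lit 3457161804) (.two (nat_lit 184549380) (nat_lit 183846839348) (.two (nat_lit 16777217) (nat_lit 19530787344) (.two (nat_lit 2097152) (nat_lit 889205637) .nil)))))),
   .two (nat_lit 12147753573) (nat_lit 754976124) (.two (nat_lit 12147753075) (nat_lit 855640591) (.two (nat_lit 754974735) (nat_lit 1054539) (.two (nat_lit 184416206856) (nat_lit 13203675741) (.two (nat_lit 739246085) (nat_lit 4613742737) (.two (nat_lit 34603009) (nat_lit 16788002) (.two (nat_lit 16777216) (nat_lit 739258068) (.one (nat_lit 318780483) .nil))))))),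
   .two (nat_lit 1846542693) (nat_lit 10336863597) (.two (nat_lit 28757196867) (nat_lit 9772731835) (.two (nat_lit 218103823) (nat_lit 47588578325) (.two (nat_lit 612368392) (nat_lit 16784872) (.two (nat_lit 2969567237) (nat_lit 8398736) (.two (nat_lit 156364701697) (nat_lit 158091717153) (.two (nat_lit 1048576) (nat_lit 236990548) (.one (nat_lit 16790932) .nil))))))),
   .two (nat_lit 18933088613) (nat_lit 4043310430) (.two (nat_lit 620757059) (nat_lit 612370974) (.two (nat_lit 183848927247) (nat_lit 251665013) (.two (nat_lit 41943045) (nat_lit 28793906862) (.two (nat_lit 4194304) (nat_lit 8400604) (.one (nat_lit 4207712) .nil))))),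
   .two (nat_lit 19529728357) (nat_lit 11513365346) (.two (nat_lit 3539992642) (nat_lit 1782583188) (.two (nat_lit 46984593416) (nat_lit 20740840014) (.two (nat_lit 13191086085) (nat_lit 1057852) (.two (nat_lit 8388609) (nat_lit 18928905886) (.one (nat_lit 16790933) .nil))))),
   .two (nat_lit 159224169044) (nat_lit 9934210380) (.two (nat_lit 47555018817) (nat_lit 1948258196) (.two (nat_lit 169869320) (nat_lit 12155099797) (.two (nat_lit 2097157) (nat_lit 20644373466) (.two (nat_lit 2097153) (nat_lit 184416217582) (.two (nat_lit 1048576) (nat_lit 2109582) (.one (nat_lit 1061985) .nil)))))),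
   .two (nat_lit 4647289027) (nat_lit 2923431209) (.two (nat_lit 1392509036) (nat_lit 2416970242) (.two (nat_lit 156367847439) (nat_lit 269489119) (.two (nat_lit 184419352584) (nat_lit 1913657981) (.two (nat_lit 171966469) (nat_lit 2902469123) (.two (nat_lit 4194304) (nat_lit 9933172341) (.one (nat_lit 1062294) .nil)))))),
   .two (nat_lit 159266111683) (nat_lit 19128124260) (.two (nat_lit 159266111598) (nat_lit 174753581591) (.two (nat_lit 9934209039) (nat_lit 12062822281) (.two (nat_lit 3539992584) (nat_lit 775953010) (.two (nat_lit 4599054341) (nat_lit 46523229237) (.two (nat_lit 2097153) (nat_lit 19109259790) (.two (nat_lit 4194304) (nat_lit 46507504709) .nil)))))),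
   .two (nat_lit 11584667843) (nat_lit 1051530) (.two (nat_lit 11559502066) (nat_lit 28086110729) (.two (nat_lit 10504634383) (nat_lit 156465372640) (.two (nat_lit 2969567237) (nat_lit 2357207177) (.two (nat_lit 2097153) (nat_lit 46414178815) (.two (nat_lit 2097152) (nat_lit 1061007) (.one (nat_lit 16790626) .nil)))))),
   .two (nat_lit 9948889283) (nat_lit 166136382765) (.two (nat_lit 8388674) (nat_lit 1291849603) (.two (nat_lit 8388616) (nat_lit 318772541) (.two (nat_lit 184549381) (nat_lit 20644373524) (.two (nat_lit 8388609) (nat_lit 16788511) (.two (nat_lit 8388608) (nat_lit 16789648) (.one (nat_lit 8402019) .nil)))))),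
   .two (nat_lit 174753579365) (nat_lit 184431936813) (.two (nat_lit 218103874) (nat_lit 203426334) (.two (nat_lit 654311439) (nat_lit 270536606) (.two (nat_lit 654311432) (nat_lit 10369377307) (.two (nat_lit 2097153) (nat_lit 19127085528) (.two (nat_lit 1048576) (nat_lit 2109149) (.one (nat_lit 251671603) .nil)))))),
   .two (nat_lit 4605345987) (nat_lit 9802090013) (.two (nat_lit 37748751) (nat_lit 1786780234) (.two (nat_lit 4194308) (nat_lit 13228843959) (.two (nat_lit 4194305) (nat_lit 2994743813) (.two (nat_lit 2097152) (nat_lit 4206738) (.one (nat_lit 2110566) .nil))))),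
   .two (nat_lit 157038936259) (nat_lit 19530777895) (.two (nat_lit 20644364353) (nat_lit 166130092571) (.two (nat_lit 10336862223) (nat_lit 171970450) (.two (nat_lit 9766436872) (nat_lit 1413490349) (.two (nat_lit 2097152) (nat_lit 4206741) (.one (nat_lit 16790935) .nil))))),
   .two (nat_lit 157036839269) (nat_lit 9802090014) (.two (nat_lit 37748751) (nat_lit 19042144158) (.two (nat_lit 37748744) (nat_lit 47563414164) (.two (nat_lit 203423749) (nat_lit 158649558024) (.two (nat_lit 2097153) (nat_lit 4205602) (.two (nat_lit 2097152) (nat_lit 4206742) (.one (nat_lit 2110578) .nil)))))),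
   .two (nat_lit 21827158211) (nat_lit 8390687) (.two (nat_lit 343932993) (nat_lit 184431939482) (.two (nat_lit 620757000) (nat_lit 166237050172) (.two (nat_lit 46422556677) (nat_lit 4605354139) (.two (nat_lit 9765388289) (nat_lit 142618270) (.one (nat_lit 1062296) .nil))))),
   .two (nat_lit 3464495462) (nat_lit 19093521731) (.two (nat_lit 20644364353) (nat_lit 4598008347) (.two (nat_lit 20644364303) (nat_lit 1392514067) (.two (nat_lit 50331656) (nat_lit 1920998027) (.two (nat_lit 41943045) (nat_lit 1058705) (.two (nat_lit 16777217) (nat_lit 8399907) (.two (nat_lit 1048576) (nat_lit 16789655) (.one (nat_lit 1062297) .nil))))))),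
   .two (nat_lit 157036839107) (nat_lit 9802091010) (.two (nat_lit 203423759) (nat_lit 2936016783) (.two (nat_lit 203423752) (nat_lit 4613741187) (.two (nat_lit 46980399109) (nat_lit 1780490375) (.two (nat_lit 4194305) (nat_lit 3472894435) (.two (nat_lit 16777216) (nat_lit 205533290) (.one (nat_lit 2110874) .nil)))))),
   .two (nat_lit 11626611046) (nat_lit 18933089575) (.two (nat_lit 184419352641) (nat_lit 11022633499) (.two (nat_lit 46414168079) (nat_lit 166232854417) (.two (nat_lit 41943048) (nat_lit 19612570939) (.two (nat_lit 8388612) (nat_lit 1929388167) (.two (nat_lit 4194305) (nat_lit 19142815455) (.one (nat_lit 8402331) .nil)))))),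
   .two (nat_lit 4605345987) (nat_lit 16779296) (.two (nat_lit 46477082691) (nat_lit 1283459587) (.two (nat_lit 46980399119) (nat_lit 28764540809) (.two (nat_lit 41943048) (nat_lit 9768540745) (.two (nat_lit 8388612) (nat_lit 16786498) (.two (nat_lit 4194305) (nat_lit 620767669) (.two (nat_lit 4194304) (nat_lit 8400609) (.one (nat_lit 8402037) .nil))))))),
   .two (nat_lit 1358954691) (nat_lit 10537141613) (.two (nat_lit 11543773251) (nat_lit 2990542732) (.two (nat_lit 739246088) (nat_lit 47584385621) (.two (nat_lit 184549381) (nat_lit 4203588) (.two (nat_lit 34603009) (nat_lit 4205604) (.two (nat_lit 1048576) (nat_lit 4207233) (.one (nat_lit 4208028) .nil)))))),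
   .two (nat_lit 4647289027) (nat_lit 1749028284) (.two (nat_lit 75497487) (nat_lit 37329311035) (.two (nat_lit 9768534021) (nat_lit 9948898371) (.two (nat_lit 37748737) (nat_lit 11584679569) (.one (nat_lit 8402039) .nil)))),
   .two (nat_lit 47555018947) (nat_lit 11611931946) (.two (nat_lit 3464495169) (nat_lit 4197842) (.two (nat_lit 3021996055) (nat_lit 809507490) (.two (nat_lit 169869316) (nat_lit 4203589) (.two (nat_lit 2097153) (nat_lit 4206477) (.two (nat_lit 2097152) (nat_lit 4207234) (.one (nat_lit 4208029) .nil)))))),
   .two (nat_lit 272630117) (nat_lit 11559502690) (.two (nat_lit 272629826) (nat_lit 19545459224) (.two (nat_lit 4194319) (nat_lit 157051524092) (.two (nat_lit 1276117000) (nat_lit 157051525735) (.two (nat_lit 1291845637) (nat_lit 104866851) (.two (nat_lit 4194305) (nat_lit 16789390) (.two (nat_lit 1048576) (nat_lit 16789657) (.one (nat_lit 3573560135) .nil))))))),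
   .two (nat_lit 2988441795) (nat_lit 3024094572) (.two (nat_lit 16777281) (nat_lit 276827586) (.two (nat_lit 4601151503) (nat_lit 46474990590) (.two (nat_lit 47555018760) (nat_lit 21210602143) (.two (nat_lit 184549381) (nat_lit 4204434) (.two (nat_lit 4194305) (nat_lit 2109327) (.two (nat_lit 4194304) (nat_lit 2110083) (.one (nat_lit 2110878) .nil))))))),
   .two (nat_lit 843055698) (nat_lit 166196151656) (.two (nat_lit 158176641089) (nat_lit 20640175091) (.two (nat_lit 1779433480) (nat_lit 13228841569) (.two (nat_lit 1745879045) (nat_lit 2990547974) (.two (nat_lit 156367847425) (nat_lit 37313587687) (.two (nat_lit 8388608) (nat_lit 4601164394) (.one (nat_lit 1062009) .nil)))))),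
   .two (nat_lit 12117344614) (nat_lit 2350908762) (.two (nat_lit 236978241) (nat_lit 158146234907) (.two (nat_lit 13203669007) (nat_lit 47550831265) (.two (nat_lit 2954887173) (nat_lit 12620669997) (.two (nat_lit 2097153) (nat_lit 809511897) (.two (nat_lit 4194304) (nat_lit 12148813448) (.one (nat_lit 742405117) .nil)))))),
   .two (nat_lit 20738736735) (nat_lit 46477084190) (.two (nat_lit 813694991) (nat_lit 9936312977) (.two (nat_lit 8388612) (nat_lit 4204435) (.two (nat_lit 2097153) (nat_lit 4206480) (.two (nat_lit 2097152) (nat_lit 8401540) (.one (nat_lit 8402335) .nil))))),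
   .two (nat_lit 754975078) (nat_lit 639632679) (.two (nat_lit 117440627) (nat_lit 46508542502) (.two (nat_lit 1795162127) (nat_lit 4631565310) (.two (nat_lit 46984593416) (nat_lit 4632615585) (.two (nat_lit 806354949) (nat_lit 1224746039) (.two (nat_lit 2097153) (nat_lit 8399909) (.two (nat_lit 1048576) (nat_lit 2109594) (.one (nat_lit 2110880) .nil))))))),
   .two (nat_lit 159224168643) (nat_lit 183848928099) (.two (nat_lit 50331715) (nat_lit 209717776) (.two (nat_lit 46414168087) (nat_lit 641733627) (.two (nat_lit 157043130376) (nat_lit 675289699) (.two (nat_lit 46414168068) (nat_lit 4647298047) (.two (nat_lit 8388609) (nat_lit 4205606) (.two (nat_lit 4194304) (nat_lit 8401541) (.one (nat_lit 4207742) .nil))))))),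
   .two (nat_lit 3525312707) (nat_lit 18941478189) (.two (nat_lit 20753416259) (nat_lit 19027461662) (.two (nat_lit 203423768) (nat_lit 166144775179) (.two (nat_lit 2887778312) (nat_lit 3539999331) (.two (nat_lit 21208498181) (nat_lit 1795171348) (.two (nat_lit 34603009) (nat_lit 2108455) (.two (nat_lit 1048576) (nat_lit 2109596) (.one (nat_lit 16790945) .nil))))))),
   .two (nat_lit 11010048195) (nat_lit 236979493) (.two (nat_lit 3527409729) (nat_lit 158144137747) (.two (nat_lit 742391823) (nat_lit 2365592546) (.two (nat_lit 639631368) (nat_lit 11546925654) (.two (nat_lit 2889875460) (nat_lit 352330797) (.two (nat_lit 50331649) (nat_lit 156535630341) (.two (nat_lit 16777216) (nat_lit 9766449298) (.one (nat_lit 2110593) .nil))))))),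
   .two (nat_lit 166144770660) (nat_lit 28693234531) (.two (nat_lit 159232557164) (nat_lit 21785218948) (.two (nat_lit 50331656) (nat_lit 12050242171) (.two (nat_lit 8388612) (nat_lit 4203591) (.two (nat_lit 4194305) (nat_lit 11551123983) (.two (nat_lit 4194304) (nat_lit 352333837) (.one (nat_lit 4207747) .nil)))))),
   .two (nat_lit 20644364898) (nat_lit 174688568654) (.two (nat_lit 3028287553) (nat_lit 9869199875) (.two (nat_lit 46409973775) (nat_lit 184423551987) (.two (nat_lit 176160776) (nat_lit 10372520609) (.two (nat_lit 4605345797) (nat_lit 37758644) (.two (nat_lit 8388608) (nat_lit 71315078) (.one (nat_lit 4207748) .nil)))))),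
   .two (nat_lit 4601151846) (nat_lit 159224169766) (.two (nat_lit 3458203715) (nat_lit 19537070627) (.two (nat_lit 8388623) (nat_lit 1346375559) (.two (nat_lit 8388616) (nat_lit 185023339136) (.two (nat_lit 1344274437) (nat_lit 9906955263) (.two (nat_lit 41943041) (nat_lit 2889886731) (.two (nat_lit 2097152) (nat_lit 4206750) (.one (nat_lit 8402338) .nil))))))),
   .two (nat_lit 174688567653) (nat_lit 156976022894) (.two (nat_lit 10503585907) (nat_lit 708839947) (.two (nat_lit 620757007) (nat_lit 1753223044) (.two (nat_lit 8388616) (nat_lit 876616309) (.two (nat_lit 184549381) (nat_lit 4601160721) (.two (nat_lit 9765388289) (nat_lit 11551124514) (.two (nat_lit 1048576) (nat_lit 1346383947) (.one (nat_lit 1062307) .nil))))))),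
   .two (nat_lit 165532402021) (nat_lit 10452206893) (.two (nat_lit 50331715) (nat_lit 41945630) (.two (nat_lit 1291845647) (nat_lit 102764446) (.two (nat_lit 3458203656) (nat_lit 1350573541) (.two (nat_lit 612368389) (nat_lit 158177700312) (.two (nat_lit 2097152) (nat_lit 176172764) (.one (nat_lit 8402054) .nil)))))),
   .two (nat_lit 46510637413) (nat_lit 183946445667) (.two (nat_lit 3558867009) (nat_lit 37253810719) (.two (nat_lit 10504634383) (nat_lit 12121542547) (.two (nat_lit 1847590920) (nat_lit 21781027445) (.two (nat_lit 4599054341) (nat_lit 12117353507) (.two (nat_lit 2097153) (nat_lit 12121549838) (.two (nat_lit 2097152) (nat_lit 4206751) (.one (nat_lit 2110884) .nil))))))),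
   .two (nat_lit 47596961987) (nat_lit 11477714258) (.two (nat_lit 19027460161) (nat_lit 1913655192) (.two (nat_lit 10370416648) (nat_lit 336599627) (.two (nat_lit 1277165572) (nat_lit 754985397) (.two (nat_lit 2097152) (nat_lit 1779445473) (.one (nat_lit 1062025) .nil))))),
   .two (nat_lit 889192643) (nat_lit 8390689) (.two (nat_lit 46414168129) (nat_lit 28793900941) (.two (nat_lit 28093448200) (nat_lit 807410276) (.two (nat_lit 8388613) (nat_lit 183947503278) (.two (nat_lit 2097152) (nat_lit 708849761) (.one (nat_lit 16790949) .nil))))),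
   .two (nat_lit 1849688421) (nat_lit 10538190366) (.two (nat_lit 158158815247) (nat_lit 158653747089) (.two (nat_lit 156365750280) (nat_lit 2990545525) (.two (nat_lit 50331653) (nat_lit 46978311121) (.two (nat_lit 620756993) (nat_lit 10372526239) (.one (nat_lit 4208038) .nil))))),
   .two (nat_lit 1343226051) (nat_lit 10552870222) (.two (nat_lit 11543773248) (nat_lit 157051522959) (.two (nat_lit 1291845640) (nat_lit 46977260115) (.two (nat_lit 11476664324) (nat_lit 183928628252) (.two (nat_lit 34603009) (nat_lit 46422568614) (.one (nat_lit 1062311) .nil))))),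
   .two (nat_lit 9948889283) (nat_lit 156533523751) (.two (nat_lit 2969567296) (nat_lit 1847593473) (.two (nat_lit 1847590927) (nat_lit 3472888825) (.two (nat_lit 3458203656) (nat_lit 1761614424) (.two (nat_lit 2954887173) (nat_lit 13203677329) (.two (nat_lit 2097153) (nat_lit 1795172867) (.two (nat_lit 16777216) (nat_lit 156567090151) .nil)))))),
   .two (nat_lit 2988441795) (nat_lit 8390690) (.two (nat_lit 156372041795) (nat_lit 10437528074) (.two (nat_lit 183853121551) (nat_lit 2103116) (.two (nat_lit 9934209032) (nat_lit 8395337) (.two (nat_lit 13195280389) (nat_lit 2106442) (.two (nat_lit 41943041) (nat_lit 2107943) (.two (nat_lit 8388608) (nat_lit 2109600) (.one (nat_lit 2110888) .nil))))))),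
   .two (nat_lit 4605345987) (nat_lit 4195716) (.two (nat_lit 310378562) (nat_lit 9768537524) (.two (nat_lit 184419352591) (nat_lit 9915338637) (.two (nat_lit 8388616) (nat_lit 104864329) (.two (nat_lit 176160773) (nat_lit 10351551479) (.two (nat_lit 37748737) (nat_lit 10955532755) (.two (nat_lit 4194304) (nat_lit 8401057) (.one (nat_lit 8402345) .nil))))))),
   .two (nat_lit 1962934467) (nat_lit 9765389681) (.two (nat_lit 12054429762) (nat_lit 20704136653) (.two (nat_lit 4613734415) (nat_lit 2927630972) (.two (nat_lit 705691652) (nat_lit 46422565004) (.two (nat_lit 34603009) (nat_lit 109063867) (.one (nat_lit 16790954) .nil))))),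
   .two (nat_lit 159251431619) (nat_lit 21210596646) (.two (nat_lit 3558867011) (nat_lit 1916799523) (.two (nat_lit 9781116943) (nat_lit 2990542736) (.two (nat_lit 606076936) (nat_lit 16785821) (.two (nat_lit 169869316) (nat_lit 4203595) (.two (nat_lit 2097153) (nat_lit 16788520) (.two (nat_lit 2097152) (nat_lit 16790150) (.one (nat_lit 2110891) .nil))))))),
   .two (nat_lit 4605345987) (nat_lit 3460302161) (.two (nat_lit 46980399169) (nat_lit 166203494280) (.two (nat_lit 272629768) (nat_lit 11611937372) (.two (nat_lit 156971827205) (nat_lit 236987318) (.two (nat_lit 4194305) (nat_lit 2108457) (.two (nat_lit 4194304) (nat_lit 2109602) (.one (nat_lit 2110892) .nil)))))),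
   .two (nat_lit 2988441795) (nat_lit 8391563) (.two (nat_lit 20644364396) (nat_lit 183846833573) (.two (nat_lit 20644364303) (nat_lit 740299758) (.two (nat_lit 713031688) (nat_lit 2103974) (.two (nat_lit 713031684) (nat_lit 2107284) (.two (nat_lit 2097153) (nat_lit 8400785) (.two (nat_lit 2097152) (nat_lit 8401543) (.one (nat_lit 8402063) .nil))))))),
   .two (nat_lit 9781117123) (nat_lit 174688568691) (.two (nat_lit 135266419) (nat_lit 2420114973) (.two (nat_lit 3539992591) (nat_lit 159253533651) (.two (nat_lit 4194312) (nat_lit 3003127101) (.two (nat_lit 2956984325) (nat_lit 754983906) (.two (nat_lit 605028353) (nat_lit 104868383) (.two (nat_lit 1048576) (nat_lit 4206313) (.one (nat_lit 156535632800) .nil))))))),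
   .two (nat_lit 11559502019) (nat_lit 1049989) (.two (nat_lit 169869420) (nat_lit 754977279) (.two (nat_lit 47563407375) (nat_lit 874517486) (.two (nat_lit 11543773192) (nat_lit 337648208) (.two (nat_lit 21777874949) (nat_lit 10351551421) (.two (nat_lit 605028353) (nat_lit 9867110846) (.two (nat_lit 1048576) (nat_lit 2109603) (.one (nat_lit 16790957) .nil))))))),
   .two (nat_lit 654311619) (nat_lit 3525313868) (.two (nat_lit 2969567298) (nat_lit 10940844562) (.two (nat_lit 813694991) (nat_lit 183861516883) (.two (nat_lit 184549380) (nat_lit 1210066606) (.two (nat_lit 2097152) (nat_lit 1224748710) (.one (nat_lit 16790958) .nil))))),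
   .two (nat_lit 10913579365) (nat_lit 2988442466) (.two (nat_lit 2988441665) (nat_lit 20644367784) (.two (nat_lit 654311439) (nat_lit 158177693599) (.two (nat_lit 169869320) (nat_lit 1384127094) (.two (nat_lit 41943045) (nat_lit 1057869) (.two (nat_lit 16777217) (nat_lit 2109330) (.two (nat_lit 1048576) (nat_lit 2110088) (.one (nat_lit 8402351) .nil))))))),
   .two (nat_lit 156465365595) (nat_lit 10376709476) (.two (nat_lit 184993972288) (nat_lit 1053020) (.two (nat_lit 713031695) (nat_lit 638587868) (.two (nat_lit 184549384) (nat_lit 1384125752) (.two (nat_lit 184549380) (nat_lit 20745035917) (.two (nat_lit 605028353) (nat_lit 9940511219) (.two (nat_lit 1048576) (nat_lit 13203681388) (.one (nat_lit 8402352) .nil))))))),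
   .two (nat_lit 1358954691) (nat_lit 156566030883) (.two (nat_lit 739246095) (nat_lit 3539998013) (.two (nat_lit 11543773189) (nat_lit 13237232620) (.two (nat_lit 34603009) (nat_lit 16788477) (.two (nat_lit 16777216) (nat_lit 165525073636) (.one (nat_lit 1061831) .nil))))),
   .two (nat_lit 11559502019) (nat_lit 183946446202) (.two (nat_lit 11543773250) (nat_lit 1358957054) (.two (nat_lit 721420303) (nat_lit 269489994) (.two (nat_lit 11492392968) (nat_lit 174685430802) (.two (nat_lit 605028353) (nat_lit 2432707610) (.two (nat_lit 1048576) (nat_lit 16789669) (.one (nat_lit 16790961) .nil)))))),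
   .two (nat_lit 4605345987) (nat_lit 171967332) (.two (nat_lit 310378562) (nat_lit 10003417624) (.two (nat_lit 813694991) (nat_lit 9869204042) (.two (nat_lit 2889875461) (nat_lit 13228843959) (.two (nat_lit 2097153) (nat_lit 4205611) (.two (nat_lit 2097152) (nat_lit 8401062) (.one (nat_lit 8402354) .nil)))))),
   .two (nat_lit 8388803) (nat_lit 9915336015) (.two (nat_lit 83886191) (nat_lit 773851691) (.two (nat_lit 721420303) (nat_lit 2316311129) (.two (nat_lit 739246085) (nat_lit 3022005194) (.two (nat_lit 605028353) (nat_lit 156567089194) (.one (nat_lit 1062323) .nil))))),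
   .two (nat_lit 236978785) (nat_lit 12633244981) (.two (nat_lit 2988441709) (nat_lit 12163484170) (.two (nat_lit 1291845647) (nat_lit 2104364) (.two (nat_lit 2954887176) (nat_lit 183928624445) (.two (nat_lit 169869316) (nat_lit 16786511) (.two (nat_lit 2097153) (nat_lit 16788524) (.two (nat_lit 2097152) (nat_lit 16789671) (.one (nat_lit 16790964) .nil))))))),
   .two (nat_lit 306184387) (nat_lit 165532402980) (.two (nat_lit 306184257) (nat_lit 19537070627) (.two (nat_lit 8388623) (nat_lit 1346375559) (.two (nat_lit 8388616) (nat_lit 339745428) (.two (nat_lit 8388612) (nat_lit 158179795083) (.two (nat_lit 4194305) (nat_lit 2927635425) (.two (nat_lit 4194304) (nat_lit 8401064) (.one (nat_lit 205534129) .nil))))))),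
   .two (nat_lit 4605346150) (nat_lit 47550825840) (.two (nat_lit 183853121601) (nat_lit 1413483032) (.two (nat_lit 713031695) (nat_lit 1178604508) (.two (nat_lit 3460300808) (nat_lit 2894075194) (.two (nat_lit 605028357) (nat_lit 156573377473) (.two (nat_lit 34603009) (nat_lit 1350576580) (.two (nat_lit 1048576) (nat_lit 4206315) (.one (nat_lit 4208053) .nil))))))),
   .two (nat_lit 21827158211) (nat_lit 12617516327) (.two (nat_lit 13191086147) (nat_lit 158192373189) (.two (nat_lit 739246095) (nat_lit 11559505796) (.two (nat_lit 739246088) (nat_lit 16784039) (.two (nat_lit 11476664324) (nat_lit 4203601) (.two (nat_lit 37748737) (nat_lit 28790763168) (.one (nat_lit 1062326) .nil)))))),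
   .two (nat_lit 272630118) (nat_lit 218106370) (.two (nat_lit 16777231) (nat_lit 21781024647) (.two (nat_lit 606076936) (nat_lit 3003129307) (.two (nat_lit 184549381) (nat_lit 10439631945) (.two (nat_lit 50331649) (nat_lit 46409985035) (.two (nat_lit 2097152) (nat_lit 16789674) (.one (nat_lit 2110621) .nil)))))),
   .two (nat_lit 2969567427) (nat_lit 236979496) (.two (nat_lit 2969567296) (nat_lit 236980736) (.two (nat_lit 2954887183) (nat_lit 1392512914) (.two (nat_lit 9881780232) (nat_lit 773855818) (.two (nat_lit 21208498181) (nat_lit 218113022) (.two (nat_lit 2097153) (nat_lit 16788526) (.two (nat_lit 2097152) (nat_lit 16790153) (.one (nat_lit 16790967) .nil))))))),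
   .two (nat_lit 2317353317) (nat_lit 37246470658) (.two (nat_lit 12050235407) (nat_lit 10369375717) (.two (nat_lit 171966469) (nat_lit 21223186572) (.two (nat_lit 4194305) (nat_lit 9933170354) (.two (nat_lit 2097152) (nat_lit 20652764831) (.one (nat_lit 4208056) .nil))))),
   .two (nat_lit 16777811) (nat_lit 158183982414) (.two (nat_lit 41943107) (nat_lit 2969568797) (.two (nat_lit 16777231) (nat_lit 156573373756) (.two (nat_lit 184549381) (nat_lit 1310729270) (.two (nat_lit 2097153) (nat_lit 10913590942) (.one (nat_lit 169882494) .nil))))),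
   .two (nat_lit 4601151683) (nat_lit 3464496465) (.two (nat_lit 46489665601) (nat_lit 1413485536) (.two (nat_lit 276824072) (nat_lit 166232857180) (.two (nat_lit 4194308) (nat_lit 8397907) (.two (nat_lit 41943041) (nat_lit 2920294907) (.two (nat_lit 4194304) (nat_lit 37262209127) (.one (nat_lit 1062329) .nil)))))),
   .two (nat_lit 16777411) (nat_lit 21785216295) (.two (nat_lit 16777280) (nat_lit 20644366849) (.two (nat_lit 184423546903) (nat_lit 165540795360) (.two (nat_lit 183853121544) (nat_lit 19545463384) (.two (nat_lit 41943045) (nat_lit 218114581) (.two (nat_lit 8388608) (nat_lit 16790154) (.one (nat_lit 16790970) .nil)))))),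
   .two (nat_lit 2969567427) (nat_lit 20638074172) (.two (nat_lit 47596961858) (nat_lit 2100694) (.two (nat_lit 9867100183) (nat_lit 620762422) (.two (nat_lit 9934209029) (nat_lit 16785569) (.two (nat_lit 16777217) (nat_lit 2109331) (.two (nat_lit 2097152) (nat_lit 16789677) (.one (nat_lit 2110907) .nil)))))),
   .two (nat_lit 9806283110) (nat_lit 183949593087) (.two (nat_lit 3460300815) (nat_lit 10544484231) (.two (nat_lit 46409973768) (nat_lit 276830873) (.two (nat_lit 4601151493) (nat_lit 8398741) (.two (nat_lit 9765388289) (nat_lit 28697439255) (.two (nat_lit 1048576) (nat_lit 4207243) (.one (nat_lit 4208060) .nil)))))),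
   .two (nat_lit 183912890563) (nat_lit 679478606) (.two (nat_lit 12147753025) (nat_lit 176164269) (.two (nat_lit 12047089679) (nat_lit 156573373418) (.two (nat_lit 612368392) (nat_lit 159250389580) (.two (nat_lit 184986632197) (nat_lit 847258621) (.two (nat_lit 34603009) (nat_lit 880815062) (.two (nat_lit 1048576) (nat_lit 2927636159) (.one (nat_lit 19604190117) .nil))))))),
   .two (nat_lit 156367847619) (nat_lit 11618222946) (.two (nat_lit 612368451) (nat_lit 71306669) (.two (nat_lit 713031695) (nat_lit 37262203470) (.two (nat_lit 41943045) (nat_lit 641739258) (.two (nat_lit 8388608) (nat_lit 50344034) (.one (nat_lit 4207779) .nil))))),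
   .two (nat_lit 159224168805) (nat_lit 19027461443) (.two (nat_lit 47555018817) (nat_lit 19094572501) (.two (nat_lit 612368399) (nat_lit 1779438561) (.two (nat_lit 2961178632) (nat_lit 183947500141) (.two (nat_lit 166130089989) (nat_lit 28690098651) (.two (nat_lit 1048576) (nat_lit 2109614) (.one (nat_lit 1062052) .nil)))))),
   .two (nat_lit 13195280978) (nat_lit 156367848990) (.two (nat_lit 13195280399) (nat_lit 101718690) (.two (nat_lit 13195280389) (nat_lit 1058710) (.two (nat_lit 8388609) (nat_lit 1060756) (.two (nat_lit 1048576) (nat_lit 8401548) (.one (nat_lit 1062333) .nil))))),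
   .two (nat_lit 183916036454) (nat_lit 158176642345) (.two (nat_lit 19096666179) (nat_lit 1052119) (.two (nat_lit 276824079) (nat_lit 1312822246) (.two (nat_lit 772800525) (nat_lit 612375155) (.two (nat_lit 605028357) (nat_lit 8397908) (.two (nat_lit 34603009) (nat_lit 158146243027) (.two (nat_lit 1048576) (nat_lit 4206767) (.one (nat_lit 1062334) .nil))))))),
   .two (nat_lit 880804198) (nat_lit 12062819696) (.two (nat_lit 176160834) (nat_lit 1291848194) (.two (nat_lit 176160783) (nat_lit 28705820573) (.two (nat_lit 176160776) (nat_lit 2432703083) (.two (nat_lit 620756997) (nat_lit 19100868747) (.two (nat_lit 50331649) (nat_lit 1853893052) (.two (nat_lit 2097152) (nat_lit 318780566) .nil)))))),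
   .two (nat_lit 185035915459) (nat_lit 10369369427) (.two (nat_lit 158192369730) (nat_lit 101715381) (.two (nat_lit 203423759) (nat_lit 83890051) (.two (nat_lit 2887778312) (nat_lit 19545463384) (.two (nat_lit 270532613) (nat_lit 16786517) (.two (nat_lit 9781116929) (nat_lit 46978313185) (.two (nat_lit 1048576) (nat_lit 20753428082) (.one (nat_lit 16790695) .nil))))))),
   .two (nat_lit 306184803) (nat_lit 156581758494) (.two (nat_lit 1779433487) (nat_lit 174768264174) (.two (nat_lit 46980399112) (nat_lit 4027587196) (.two (nat_lit 2889875461) (nat_lit 1057878) (.two (nat_lit 37748737) (nat_lit 9933172368) (.one (nat_lit 1062335) .nil))))),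
   .two (nat_lit 11593056613) (nat_lit 46481278312) (.two (nat_lit 185002360898) (nat_lit 1317015445) (.two (nat_lit 8388616) (nat_lit 28806486655) (.two (nat_lit 2889875461) (nat_lit 156481104343) (.two (nat_lit 2097152) (nat_lit 8401549) (.one (nat_lit 16790976) .nil))))),
   .two (nat_lit 19096666469) (nat_lit 158176642336) (.two (nat_lit 46489665602) (nat_lit 46980401690) (.two (nat_lit 654311439) (nat_lit 1745885777) (.two (nat_lit 285212677) (nat_lit 1057879) (.two (nat_lit 16777217) (nat_lit 1059371) (.two (nat_lit 4194304) (nat_lit 16790158) (.one (nat_lit 8402369) .nil)))))),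
   .two (nat_lit 236978774) (nat_lit 9806284108) (.two (nat_lit 3464495169) (nat_lit 270535174) (.two (nat_lit 46414168079) (nat_lit 156969734047) (.two (nat_lit 1780482056) (nat_lit 20637031012) (.two (nat_lit 159217876997) (nat_lit 1059317) (.two (nat_lit 1048576) (nat_lit 166203502245) (.one (nat_lit 2110634) .nil)))))),
   .two (nat_lit 306184387) (nat_lit 47555021356) (.two (nat_lit 4601151503) (nat_lit 174759874463) (.two (nat_lit 3527409672) (nat_lit 2961185382) (.two (nat_lit 13191086085) (nat_lit 10443826240) (.two (nat_lit 41943041) (nat_lit 28693244959) (.two (nat_lit 4194304) (nat_lit 8401072) (.one (nat_lit 339751912) .nil)))))),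
   .two (nat_lit 11007951448) (nat_lit 721421635) (.two (nat_lit 47596961906) (nat_lit 673188353) (.two (nat_lit 1358954511) (nat_lit 101715861) (.two (nat_lit 705691656) (nat_lit 687872674) (.two (nat_lit 705691652) (nat_lit 4043318341) (.two (nat_lit 620756993) (nat_lit 1210067944) (.two (nat_lit 1048576) (nat_lit 2110095) (.one (nat_lit 1062059) .nil))))))),
   .two (nat_lit 9967763651) (nat_lit 158662133103) (.two (nat_lit 166196150339) (nat_lit 46510639637) (.two (nat_lit 11559501839) (nat_lit 46978307095) (.two (nat_lit 11543773197) (nat_lit 4201083) (.two (nat_lit 117440517) (nat_lit 1058711) (.two (nat_lit 156367847425) (nat_lit 28772936690) (.two (nat_lit 1048576) (nat_lit 2110096) (.one (nat_lit 1062338) .nil))))))),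
   .two (nat_lit 272629955) (nat_lit 9940501810) (.two (nat_lit 101711939) (nat_lit 8393053) (.two (nat_lit 18933088271) (nat_lit 21777880041) (.two (nat_lit 4194312) (nat_lit 8395432) (.two (nat_lit 171966469) (nat_lit 8398744) (.two (nat_lit 605028353) (nat_lit 4205616) (.two (nat_lit 1048576) (nat_lit 4207249) (.one (nat_lit 8402371) .nil))))))),
   .two (nat_lit 2954887363) (nat_lit 10343155740) (.two (nat_lit 185020186691) (nat_lit 2350908958) (.two (nat_lit 159217877007) (nat_lit 276829184) (.two (nat_lit 11476664328) (nat_lit 8397214) (.two (nat_lit 11476664324) (nat_lit 8398745) (.two (nat_lit 9765388289) (nat_lit 276835299) (.two (nat_lit 1048576) (nat_lit 2109617) (.one (nat_lit 8402372) .nil))))))),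
   .two (nat_lit 50331843) (nat_lit 28690089320) (.two (nat_lit 8388675) (nat_lit 3036678685) (.two (nat_lit 176160783) (nat_lit 20704139858) (.two (nat_lit 28086108165) (nat_lit 28697438103) (.two (nat_lit 2097153) (nat_lit 1059889) (.two (nat_lit 1048576) (nat_lit 2110098) (.one (nat_lit 1062341) .nil)))))),
   .two (nat_lit 9948889283) (nat_lit 2100108) (.two (nat_lit 236978241) (nat_lit 41945609) (.two (nat_lit 21214789647) (nat_lit 174768263059) (.two (nat_lit 11551113224) (nat_lit 19109254461) (.two (nat_lit 2954887173) (nat_lit 21223187496) (.two (nat_lit 2097153) (nat_lit 8399844) (.two (nat_lit 4194304) (nat_lit 8401797) .nil)))))),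
   .two (nat_lit 10552869059) (nat_lit 1377832375) (.two (nat_lit 2969567247) (nat_lit 10437530644) (.two (nat_lit 28772925448) (nat_lit 2418023894) (.two (nat_lit 184549380) (nat_lit 2107261) (.two (nat_lit 156372041729) (nat_lit 12148812229) (.two (nat_lit 8388608) (nat_lit 706753565) .nil))))),
   .two (nat_lit 166129041765) (nat_lit 1212156417) (.two (nat_lit 1350565903) (nat_lit 19529733119) (.two (nat_lit 276824072) (nat_lit 4202911) (.two (nat_lit 809500677) (nat_lit 16787354) (.two (nat_lit 37748737) (nat_lit 1059814) (.two (nat_lit 1048576) (nat_lit 4207251) (.one (nat_lit 16790982) .nil)))))),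
   .two (nat_lit 20704133315) (nat_lit 2099236) (.two (nat_lit 3558867009) (nat_lit 184986634762) (.two (nat_lit 46407876631) (nat_lit 9798946705) (.two (nat_lit 639631368) (nat_lit 11577334405) (.two (nat_lit 28758245381) (nat_lit 11610890385) (.two (nat_lit 9766436865) (nat_lit 19596847599) (.two (nat_lit 2097152) (nat_lit 183912902791) (.one (nat_lit 1062062) .nil))))))),
   .two (nat_lit 10538188995) (nat_lit 1051533) (.two (nat_lit 13221494901) (nat_lit 9768536614) (.two (nat_lit 1209008152) (nat_lit 840964773) (.two (nat_lit 166132187140) (nat_lit 21207458804) (.two (nat_lit 605028353) (nat_lit 4205618) (.two (nat_lit 1048576) (nat_lit 4207252) (.one (nat_lit 1062343) .nil)))))),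
   .two (nat_lit 843055299) (nat_lit 28690088803) (.two (nat_lit 46523220034) (nat_lit 306185758) (.two (nat_lit 184549391) (nat_lit 1054541) (.two (nat_lit 183848927240) (nat_lit 1209015771) (.two (nat_lit 4194308) (nat_lit 1058687) (.two (nat_lit 9765388289) (nat_lit 205532161) (.two (nat_lit 1048576) (nat_lit 4206771) (.one (nat_lit 1062344) .nil))))))),
   .two (nat_lit 156367847619) (nat_lit 183853122856) (.two (nat_lit 16777283) (nat_lit 156468513319) (.two (nat_lit 41943055) (nat_lit 1279267795) (.two (nat_lit 2969567240) (nat_lit 20740840040) (.two (nat_lit 8388612) (nat_lit 166144779954) (.two (nat_lit 16777216) (nat_lit 1749038056) .nil))))),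
   .two (nat_lit 156533522627) (nat_lit 1846543203) (.two (nat_lit 218103873) (nat_lit 184987683331) (.two (nat_lit 285212687) (nat_lit 165526115297) (.two (nat_lit 16777224) (nat_lit 605037525) (.two (nat_lit 2097153) (nat_lit 47581245057) (.one (nat_lit 21777888346) .nil))))),
   .two (nat_lit 343933527) (nat_lit 4647290188) (.two (nat_lit 16777282) (nat_lit 20644366848) (.two (nat_lit 16777231) (nat_lit 28697433404) (.two (nat_lit 3464495109) (nat_lit 10955531324) (.two (nat_lit 16777217) (nat_lit 10376718789) (.two (nat_lit 16777216) (nat_lit 337653361) (.one (nat_lit 8402099) .nil)))))),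
   .two (nat_lit 11007951043) (nat_lit 8390023) (.two (nat_lit 3525312576) (nat_lit 1283459623) (.two (nat_lit 612368399) (nat_lit 12148806680) (.two (nat_lit 9940500488) (nat_lit 1411390044) (.two (nat_lit 713031684) (nat_lit 12148810807) (.two (nat_lit 2097153) (nat_lit 10007620075) (.two (nat_lit 4194304) (nat_lit 1411395233) (.one (nat_lit 2110647) .nil))))))),
   .two (nat_lit 47548727491) (nat_lit 13224641858) (.two (nat_lit 183848927299) (nat_lit 166230756820) (.two (nat_lit 2961178639) (nat_lit 2103119) (.two (nat_lit 75497480) (nat_lit 4201963) (.two (nat_lit 47555018757) (nat_lit 1057881) (.two (nat_lit 9768534017) (nat_lit 8399923) (.two (nat_lit 1048576) (nat_lit 4207253) (.one (nat_lit 272643489) .nil))))))),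
   .two (nat_lit 11559502019) (nat_lit 156976022877) (.two (nat_lit 8388675) (nat_lit 9948891674) (.two (nat_lit 721420303) (nat_lit 165525068453) (.two (nat_lit 50331653) (nat_lit 1058715) (.two (nat_lit 620756993) (nat_lit 10906249689) (.two (nat_lit 1048576) (nat_lit 12633255648) (.one (nat_lit 8402105) .nil)))))),
   .two (nat_lit 185035915459) (nat_lit 159216831011) (.two (nat_lit 46407876623) (nat_lit 183861516876) (.two (nat_lit 34603013) (nat_lit 352330732) (.two (nat_lit 2097153) (nat_lit 13221506726) (.one (nat_lit 739259315) .nil)))),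
   .two (nat_lit 2969567427) (nat_lit 166136382838) (.two (nat_lit 41943107) (nat_lit 218106367) (.two (nat_lit 75497487) (nat_lit 69211105) (.two (nat_lit 639631368) (nat_lit 158183987854) (.two (nat_lit 50331653) (nat_lit 8398748) (.two (nat_lit 2097153) (nat_lit 8400789) (.two (nat_lit 2097152) (nat_lit 16790166) (.one (nat_lit 8402108) .nil))))))),
   .two (nat_lit 306184387) (nat_lit 1753219939) (.two (nat_lit 4601151552) (nat_lit 1753221633) (.two (nat_lit 13195280399) (nat_lit 1279266702) (.two (nat_lit 8388616) (nat_lit 4043318205) (.two (nat_lit 8388609) (nat_lit 9768545297) (.two (nat_lit 4194304) (nat_lit 746599055) (.one (nat_lit 16790985) .nil)))))),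
   .two (nat_lit 10907287910) (nat_lit 235930922) (.two (nat_lit 1310720113) (nat_lit 19093523917) (.two (nat_lit 2902458383) (nat_lit 12048145022) (.two (nat_lit 169869316) (nat_lit 1058717) (.two (nat_lit 9781116929) (nat_lit 136326172) (.two (nat_lit 1048576) (nat_lit 2110103) (.one (nat_lit 16790986) .nil)))))),
   .two (nat_lit 183861510756) (nat_lit 183853122854) (.two (nat_lit 185002360940) (nat_lit 46481279523) (.two (nat_lit 2954887183) (nat_lit 46489670629) (.two (nat_lit 157043130376) (nat_lit 1310726807) (.two (nat_lit 8388613) (nat_lit 16786522) (.two (nat_lit 612368385) (nat_lit 69217936) (.one (nat_lit 2110923) .nil)))))),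
   .two (nat_lit 4634706278) (nat_lit 11578378795) (.two (nat_lit 46984593423) (nat_lit 46477087754) (.two (nat_lit 1846542344) (nat_lit 20640176757) (.two (nat_lit 13187940357) (nat_lit 3527418915) (.two (nat_lit 9768534017) (nat_lit 1377840142) (.two (nat_lit 4194304) (nat_lit 10369380511) (.one (nat_lit 4208076) .nil)))))),
   .two (nat_lit 21785215171) (nat_lit 20753417607) (.two (nat_lit 3036676206) (nat_lit 158083321733) (.two (nat_lit 620757000) (nat_lit 11584673080) (.two (nat_lit 612368389) (nat_lit 18941485200) (.two (nat_lit 41943041) (nat_lit 158091717096) (.two (nat_lit 1048576) (nat_lit 645934753) (.one (nat_lit 8402109) .nil)))))),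
   .two (nat_lit 4605345987) (nat_lit 10338960227) (.two (nat_lit 183853121602) (nat_lit 1346375114) (.two (nat_lit 8388623) (nat_lit 10372518881) (.two (nat_lit 1276117000) (nat_lit 165532408466) (.two (nat_lit 9881780229) (nat_lit 8397915) (.two (nat_lit 156367847425) (nat_lit 12155103754) (.two (nat_lit 1048576) (nat_lit 4207256) (.one (nat_lit 16790989) .nil))))))),
   .two (nat_lit 13224640707) (nat_lit 8390693) (.two (nat_lit 822083699) (nat_lit 9768535581) (.two (nat_lit 809500687) (nat_lit 620762957) (.two (nat_lit 157043130376) (nat_lit 156971833989) (.two (nat_lit 822083589) (nat_lit 12624864317) (.two (nat_lit 4194305) (nat_lit 18933099551) (.two (nat_lit 4194304) (nat_lit 13195292792) (.one (nat_lit 4207806) .nil))))))),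
   .two (nat_lit 13195280579) (nat_lit 11580474212) (.two (nat_lit 11492393025) (nat_lit 876612116) (.two (nat_lit 272629775) (nat_lit 713038502) (.two (nat_lit 12117344261) (nat_lit 19604186039) (.two (nat_lit 50331649) (nat_lit 775957547) (.two (nat_lit 8388608) (nat_lit 1224749155) (.one (nat_lit 16790990) .nil)))))),
   .two (nat_lit 21785215584) (nat_lit 1426064926) (.two (nat_lit 158083317775) (nat_lit 2103120) (.two (nat_lit 184549384) (nat_lit 2105760) (.two (nat_lit 75497477) (nat_lit 2106461) (.two (nat_lit 612368385) (nat_lit 35662871) (.two (nat_lit 2097152) (nat_lit 8401561) (.one (nat_lit 2110808) .nil)))))),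
   .two (nat_lit 46474985830) (nat_lit 71304036) (.two (nat_lit 306184259) (nat_lit 1411387283) (.two (nat_lit 10538188812) (nat_lit 1178606191) (.two (nat_lit 4601151493) (nat_lit 236987427) (.two (nat_lit 4194305) (nat_lit 156567088809) (.one (nat_lit 16790991) .nil))))),
   .two (nat_lit 13195280579) (nat_lit 157038936930) (.two (nat_lit 4605345858) (nat_lit 2319452709) (.two (nat_lit 41943055) (nat_lit 11614032850) (.two (nat_lit 9766436872) (nat_lit 608180808) (.two (nat_lit 2887778308) (nat_lit 37757946) (.two (nat_lit 2097153) (nat_lit 2927634092) (.two (nat_lit 2097152) (nat_lit 8401078) (.one (nat_lit 8402384) .nil))))))),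
   .two (nat_lit 889192643) (nat_lit 158083318626) (.two (nat_lit 16777282) (nat_lit 1954548260) (.two (nat_lit 16777231) (nat_lit 209719188) (.two (nat_lit 50331656) (nat_lit 46984600164) (.two (nat_lit 159224168453) (nat_lit 1411393198) (.two (nat_lit 2097152) (nat_lit 46481288833) (.one (nat_lit 16790722) .nil)))))),
   .two (nat_lit 9802088643) (nat_lit 157035791726) (.two (nat_lit 21207449667) (nat_lit 46978304550) (.two (nat_lit 4601151503) (nat_lit 4632616602) (.two (nat_lit 4194308) (nat_lit 1780491374) (.two (nat_lit 2097153) (nat_lit 10369378779) (.two (nat_lit 4194304) (nat_lit 9934222222) .nil))))),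
   .two (nat_lit 50331843) (nat_lit 166196151672) (.two (nat_lit 16777280) (nat_lit 739249647) (.two (nat_lit 41943055) (nat_lit 1913657937) (.two (nat_lit 8388612) (nat_lit 2987402848) (.two (nat_lit 8388609) (nat_lit 839922137) (.one (nat_lit 4208082) .nil))))),
   .two (nat_lit 159266111683) (nat_lit 1310720866) (.two (nat_lit 218103874) (nat_lit 1780484659) (.two (nat_lit 285212687) (nat_lit 809507578) (.two (nat_lit 13191086085) (nat_lit 185035924491) (.two (nat_lit 37748737) (nat_lit 1191193087) (.two (nat_lit 2097152) (nat_lit 158179798655) (.one (nat_lit 16790739) .nil)))))),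
   .two (nat_lit 3464495461) (nat_lit 21778925838) (.two (nat_lit 4605345859) (nat_lit 304090815) (.two (nat_lit 50331663) (nat_lit 645926806) (.two (nat_lit 822083592) (nat_lit 37253814875) (.two (nat_lit 4605345797) (nat_lit 183947504151) (.two (nat_lit 2097152) (nat_lit 166237056639) (.one (nat_lit 16790740) .nil)))))),
   .two (nat_lit 47548727654) (nat_lit 46414169425) (.two (nat_lit 10540286069) (nat_lit 2317355540) (.two (nat_lit 50331663) (nat_lit 156372047056) (.two (nat_lit 13203669000) (nat_lit 156468518565) (.two (nat_lit 46414168068) (nat_lit 9800000628) (.two (nat_lit 4194305) (nat_lit 46407887925) (.two (nat_lit 2097152) (nat_lit 8401645) (.one (nat_lit 8402387) .nil))))))),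
   .two (nat_lit 19027460453) (nat_lit 47550826660) (.two (nat_lit 46980399169) (nat_lit 46407879185) (.two (nat_lit 9948889103) (nat_lit 37314631769) (.two (nat_lit 10370416648) (nat_lit 4601158262) (.two (nat_lit 2889875461) (nat_lit 158077035640) (.two (nat_lit 4194305) (nat_lit 10437536203) (.two (nat_lit 4194304) (nat_lit 203436489) (.one (nat_lit 2110932) .nil))))))),
   .two (nat_lit 12117344614) (nat_lit 28690088803) (.two (nat_lit 19599982705) (nat_lit 2316306957) (.two (nat_lit 2902458383) (nat_lit 4200960) (.two (nat_lit 2902458376) (nat_lit 1312823917) (.two (nat_lit 166129041410) (nat_lit 16785611) (.two (nat_lit 9768534019) (nat_lit 739255295) (.two (nat_lit 9765388289) (nat_lit 156581768447) (.two (nat_lit 1048576) (nat_lit 171978432) (.one (nat_lit 16790765) .nil)))))))),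
   .two (nat_lit 20704133315) (nat_lit 874514710) (.two (nat_lit 185035915330) (nat_lit 2349861375) (.two (nat_lit 4194319) (nat_lit 19612570602) (.two (nat_lit 169869320) (nat_lit 1279270735) (.two (nat_lit 4194308) (nat_lit 269488259) (.two (nat_lit 4194308) (nat_lit 34613000) (.two (nat_lit 2097153) (nat_lit 2902468338) (.two (nat_lit 2097152) (nat_lit 1279275223) (.one (nat_lit 1062126) .nil)))))))),
   .two (nat_lit 12117344451) (nat_lit 169871496) (.two (nat_lit 11476664385) (nat_lit 156971831012) (.two (nat_lit 2961178639) (nat_lit 1849693151) (.two (nat_lit 8388616) (nat_lit 1779440267) (.two (nat_lit 176160772) (nat_lit 3024102748) (.two (nat_lit 8388609) (nat_lit 673196656) (.two (nat_lit 1048576) (nat_lit 8401355) (.one (nat_lit 2110954) .nil))))))),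
   .two (nat_lit 183916036291) (nat_lit 1317013705) (.two (nat_lit 11476664385) (nat_lit 13191088656) (.two (nat_lit 276824079) (nat_lit 28691141599) (.two (nat_lit 8388616) (nat_lit 28757203595) (.two (nat_lit 9765388293) (nat_lit 1847597962) (.two (nat_lit 8388611) (nat_lit 1745888552) (.two (nat_lit 41943041) (nat_lit 10001329481) (.two (nat_lit 8388608) (nat_lit 28705828949) (.one (nat_lit 8402159) .nil)))))))),
   .two (nat_lit 4605345987) (nat_lit 174686472207) (.two (nat_lit 4194369) (nat_lit 156372043293) (.two (nat_lit 4194319) (nat_lit 156372045699) (.two (nat_lit 4194312) (nat_lit 156372047158) (.two (nat_lit 4194308) (nat_lit 2961186963) (.two (nat_lit 2097153) (nat_lit 12047099570) (.two (nat_lit 1048576) (nat_lit 9967775787) (.one (nat_lit 2110701) .nil))))))),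
   .two (nat_lit 4605345987) (nat_lit 174686472207) (.two (nat_lit 4194369) (nat_lit 156372043293) (.two (nat_lit 4194319) (nat_lit 156372045699) (.two (nat_lit 4194312) (nat_lit 156372047158) (.two (nat_lit 4194308) (nat_lit 2961186963) (.two (nat_lit 2097153) (nat_lit 12047099570) (.two (nat_lit 1048576) (nat_lit 9967775787) (.one (nat_lit 1061391) .nil))))))),
   .two (nat_lit 4601151683) (nat_lit 10343154531) (.two (nat_lit 3464495170) (nat_lit 166130092553) (.two (nat_lit 46414168079) (nat_lit 2886734802) (.two (nat_lit 169869320) (nat_lit 184419359402) (.two (nat_lit 4605345797) (nat_lit 303044019) (.two (nat_lit 169869316) (nat_lit 166237053131) (.two (nat_lit 156372041729) (nat_lit 303049211) (.two (nat_lit 2097152) (nat_lit 20737699477) (.one (nat_lit 1062129) .nil)))))))),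
   .two (nat_lit 4605345987) (nat_lit 21208498399) (.two (nat_lit 13195280579) (nat_lit 46474986341) (.two (nat_lit 3527409702) (nat_lit 156372043037) (.two (nat_lit 4194369) (nat_lit 4034925461) (.two (nat_lit 4194319) (nat_lit 11618227310) (.two (nat_lit 4194312) (nat_lit 1411390039) (.two (nat_lit 4194308) (nat_lit 183845788551) (.two (nat_lit 4194308) (nat_lit 21811436413) (.two (nat_lit 2097153) (nat_lit 13224651239) (.two (nat_lit 2097152) (nat_lit 205533482) (.one (nat_lit 1062133) .nil)))))))))),
   .two (nat_lit 41943235) (nat_lit 10372515126) (.two (nat_lit 183928619073) (nat_lit 10439625231) (.two (nat_lit 176160783) (nat_lit 12620665915) (.two (nat_lit 41943048) (nat_lit 11511274181) (.two (nat_lit 620756997) (nat_lit 4599061362) (.two (nat_lit 8388612) (nat_lit 1358960040) (.two (nat_lit 8388609) (nat_lit 1929390753) (.two (nat_lit 2097152) (nat_lit 28772937407) (.one (nat_lit 4207863) .nil)))))))),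
   .two (nat_lit 11577327811) (nat_lit 159219976304) (.two (nat_lit 12617515073) (nat_lit 1346374153) (.two (nat_lit 12047089679) (nat_lit 9768539205) (.two (nat_lit 2889875464) (nat_lit 47581239911) (.two (nat_lit 705691652) (nat_lit 1782586227) (.two (nat_lit 612368387) (nat_lit 158176650449) (.two (nat_lit 34603009) (nat_lit 1782590001) (.two (nat_lit 4194304) (nat_lit 12147764930) (.one (nat_lit 11479822876) .nil)))))))),
   .two (nat_lit 4601151683) (nat_lit 4034921804) (.two (nat_lit 310378563) (nat_lit 1279265285) (.two (nat_lit 46414168079) (nat_lit 46507495311) (.two (nat_lit 4194312) (nat_lit 157036846872) (.two (nat_lit 46414168066) (nat_lit 2107012) (.two (nat_lit 8388611) (nat_lit 269493190) (.two (nat_lit 8388609) (nat_lit 2107909) (.two (nat_lit 2097152) (nat_lit 101724620) (.one (nat_lit 1947219183) .nil)))))))),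
   .two (nat_lit 16777411) (nat_lit 304088366) (.two (nat_lit 185027526721) (nat_lit 156581759498) (.two (nat_lit 11551113231) (nat_lit 28760346508) (.two (nat_lit 713031688) (nat_lit 236983608) (.two (nat_lit 41943045) (nat_lit 270540935) (.two (nat_lit 2097153) (nat_lit 11580484300) (.two (nat_lit 8388608) (nat_lit 2887790803) (.one (nat_lit 2110712) .nil))))))),
   .two (nat_lit 4605345987) (nat_lit 20638073698) (.two (nat_lit 4601151552) (nat_lit 2988444167) (.two (nat_lit 8388623) (nat_lit 47584384041) (.two (nat_lit 37748744) (nat_lit 10544488203) (.two (nat_lit 708837381) (nat_lit 713041673) (.two (nat_lit 176160771) (nat_lit 184431944807) (.two (nat_lit 620756993) (nat_lit 166230764873) (.two (nat_lit 2097152) (nat_lit 16789999) (.one (nat_lit 2110713) .nil)))))))),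
   .two (nat_lit 4601151683) (nat_lit 746588270) (.two (nat_lit 4605345901) (nat_lit 183912892935) (.two (nat_lit 8388623) (nat_lit 4199493) (.two (nat_lit 8388616) (nat_lit 21814583051) (.two (nat_lit 156372041733) (nat_lit 1947215196) (.two (nat_lit 9781116929) (nat_lit 158176652617) (.two (nat_lit 1048576) (nat_lit 4206411) (.one (nat_lit 1062379) .nil))))))),
   .two (nat_lit 2954887363) (nat_lit 16779557) (.two (nat_lit 184549441) (nat_lit 1350568466) (.two (nat_lit 184549391) (nat_lit 12617520557) (.two (nat_lit 1745879055) (nat_lit 185021239215) (.two (nat_lit 184549384) (nat_lit 47547685478) (.two (nat_lit 8388610) (nat_lit 16785612) (.two (nat_lit 620756995) (nat_lit 10537150349) (.two (nat_lit 8388609) (nat_lit 16788204) (.two (nat_lit 1048576) (nat_lit 8401000) (.one (nat_lit 2110717) .nil))))))))),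
   .two (nat_lit 1343226051) (nat_lit 9906946915) (.two (nat_lit 11543773250) (nat_lit 47550827017) (.two (nat_lit 4194319) (nat_lit 1417679898) (.two (nat_lit 68157448) (nat_lit 46414175911) (.two (nat_lit 9948889093) (nat_lit 1312825481) (.two (nat_lit 34603009) (nat_lit 339749310) (.two (nat_lit 1048576) (nat_lit 166232862407) (.one (nat_lit 4207872) .nil))))))),
   .two (nat_lit 9974055107) (nat_lit 19128124785) (.two (nat_lit 855638124) (nat_lit 47550827019) (.two (nat_lit 13203669007) (nat_lit 1413484423) (.two (nat_lit 606076936) (nat_lit 1384127167) (.two (nat_lit 16777220) (nat_lit 3460305020) (.two (nat_lit 11492392965) (nat_lit 3458212039) (.two (nat_lit 2097153) (nat_lit 4605356866) (.two (nat_lit 4194304) (nat_lit 8401392) (.one (nat_lit 8402177) .nil)))))))),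
   .two (nat_lit 13191086275) (nat_lit 28690088803) (.two (nat_lit 4601151552) (nat_lit 2316306957) (.two (nat_lit 272629775) (nat_lit 889198856) (.two (nat_lit 2902458376) (nat_lit 168828730) (.two (nat_lit 1358954501) (nat_lit 158176648079) (.two (nat_lit 1358954501) (nat_lit 11577337477) (.two (nat_lit 9781116929) (nat_lit 1060849) (.two (nat_lit 2097152) (nat_lit 687878639) (.one (nat_lit 1062381) .nil)))))))),
   .two (nat_lit 4634706115) (nat_lit 1309672786) (.two (nat_lit 4613734465) (nat_lit 174688569866) (.two (nat_lit 4613734415) (nat_lit 136318860) (.two (nat_lit 16777224) (nat_lit 28790756664) (.two (nat_lit 16777220) (nat_lit 10503594119) (.two (nat_lit 16777217) (nat_lit 1948264995) (.two (nat_lit 16777216) (nat_lit 166129053907) (.one (nat_lit 1062382) .nil))))))),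
   .two (nat_lit 8388803) (nat_lit 203425160) (.two (nat_lit 11559501889) (nat_lit 101713437) (.two (nat_lit 11559501839) (nat_lit 2316309479) (.two (nat_lit 16777224) (nat_lit 11578382943) (.two (nat_lit 11484004357) (nat_lit 705702681) (.two (nat_lit 721420292) (nat_lit 1417681802) (.two (nat_lit 2097153) (nat_lit 1059565) (.two (nat_lit 8388608) (nat_lit 2110186) (.one (nat_lit 8402178) .nil)))))))),
   .two (nat_lit 47555018947) (nat_lit 47563409822) (.two (nat_lit 46474985537) (nat_lit 46414171800) (.two (nat_lit 1291845647) (nat_lit 174685426655) (.two (nat_lit 721420296) (nat_lit 46977260158) (.two (nat_lit 8388612) (nat_lit 158144140718) (.two (nat_lit 620756997) (nat_lit 156365755827) (.two (nat_lit 34603009) (nat_lit 158077037217) (.two (nat_lit 1048576) (nat_lit 166203502614) (.one (nat_lit 8402415) .nil)))))))),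
   .two (nat_lit 185020187491) (nat_lit 156468511586) (.two (nat_lit 21785215171) (nat_lit 9902755245) (.two (nat_lit 739246147) (nat_lit 1413484435) (.two (nat_lit 1343225871) (nat_lit 46409980520) (.two (nat_lit 11543773192) (nat_lit 4601160689) (.two (nat_lit 705691652) (nat_lit 11580483246) (.two (nat_lit 34603009) (nat_lit 3460312694) (.two (nat_lit 1048576) (nat_lit 4207507) (.one (nat_lit 4208206) .nil)))))))),
   .two (nat_lit 46523220834) (nat_lit 166232851766) (.two (nat_lit 4601151683) (nat_lit 157036840477) (.two (nat_lit 4601151554) (nat_lit 1276120982) (.two (nat_lit 2887778319) (nat_lit 166245440120) (.two (nat_lit 809500680) (nat_lit 168829064) (.two (nat_lit 4194308) (nat_lit 1059319) (.two (nat_lit 4194305) (nat_lit 11007962739) (.two (nat_lit 1048576) (nat_lit 16790420) (.one (nat_lit 236991990) .nil)))))))),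
   .two (nat_lit 183853122403) (nat_lit 158179788086) (.two (nat_lit 4601151683) (nat_lit 46414172037) (.two (nat_lit 4601151503) (nat_lit 11517564216) (.two (nat_lit 183848927240) (nat_lit 20711481480) (.two (nat_lit 183848927236) (nat_lit 672147939) (.two (nat_lit 37748737) (nat_lit 156364713585) (.two (nat_lit 4194304) (nat_lit 1061781) (.one (nat_lit 1062479) .nil))))))),
   .two (nat_lit 13237224291) (nat_lit 3024094052) (.two (nat_lit 4647289027) (nat_lit 158179789339) (.two (nat_lit 318767212) (nat_lit 9969864595) (.two (nat_lit 1178599439) (nat_lit 158143093329) (.two (nat_lit 742391816) (nat_lit 1057786) (.two (nat_lit 2097157) (nat_lit 16787961) (.two (nat_lit 16777217) (nat_lit 4206678) (.two (nat_lit 1048576) (nat_lit 16790426) (.one (nat_lit 16791122) .nil)))))))),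
   .two (nat_lit 4601152355) (nat_lit 19604178248) (.two (nat_lit 310378691) (nat_lit 47548728862) (.two (nat_lit 4601151554) (nat_lit 11544825748) (.two (nat_lit 4601151503) (nat_lit 2416973112) (.two (nat_lit 4194312) (nat_lit 10913588162) (.two (nat_lit 4194308) (nat_lit 1059322) (.two (nat_lit 4194305) (nat_lit 1060951) (.two (nat_lit 4194304) (nat_lit 2110363) (.one (nat_lit 8402515) .nil)))))))),
   .two (nat_lit 310379362) (nat_lit 9869198667) (.two (nat_lit 4601151683) (nat_lit 3525314078) (.two (nat_lit 4605345857) (nat_lit 10503591227) (.two (nat_lit 2961178632) (nat_lit 1279271867) (.two (nat_lit 8388613) (nat_lit 185020197342) (.two (nat_lit 41943041) (nat_lit 1746939563) (.two (nat_lit 4194304) (nat_lit 2110364) (.one (nat_lit 1062484) .nil))))))),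
   .two (nat_lit 9781117794) (nat_lit 183947494244) (.two (nat_lit 654311619) (nat_lit 673187358) (.two (nat_lit 285212736) (nat_lit 1210061788) (.two (nat_lit 37748751) (nat_lit 16784238) (.two (nat_lit 4194308) (nat_lit 11611940528) (.two (nat_lit 2097153) (nat_lit 20740845186) (.two (nat_lit 2097152) (nat_lit 272642832) (.one (nat_lit 19094582534) .nil))))))),
   .two (nat_lit 20644365154) (nat_lit 11544823094) (.two (nat_lit 157036839107) (nat_lit 19134417411) (.two (nat_lit 41943107) (nat_lit 687871291) (.two (nat_lit 721420296) (nat_lit 1954552688) (.two (nat_lit 721420292) (nat_lit 2317363672) (.two (nat_lit 2097153) (nat_lit 156573380229) (.two (nat_lit 2097152) (nat_lit 10016011531) .nil)))))),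
   .two (nat_lit 159232557922) (nat_lit 3021997401) (.two (nat_lit 4601151683) (nat_lit 11611933190) (.two (nat_lit 11551113281) (nat_lit 10369372039) (.two (nat_lit 11551113231) (nat_lit 9768540744) (.two (nat_lit 11551113224) (nat_lit 1276126151) (.two (nat_lit 1343225861) (nat_lit 4205051) (.two (nat_lit 8388609) (nat_lit 11577339967) (.two (nat_lit 1048576) (nat_lit 2110365) (.one (nat_lit 1062485) .nil)))))))),
   .two (nat_lit 10540286818) (nat_lit 20738737438) (.two (nat_lit 11543773379) (nat_lit 11479812628) (.two (nat_lit 47582281794) (nat_lit 13191090055) (.two (nat_lit 1343225871) (nat_lit 156533529234) (.two (nat_lit 705691656) (nat_lit 8397819) (.two (nat_lit 34603013) (nat_lit 8399356) (.two (nat_lit 2097153) (nat_lit 183845793412) (.two (nat_lit 2097152) (nat_lit 166132199940) (.one (nat_lit 35665451) .nil)))))))),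
   .two (nat_lit 339739490) (nat_lit 16778613) (.two (nat_lit 156581757123) (nat_lit 37246470663) (.two (nat_lit 339738689) (nat_lit 9948894224) (.two (nat_lit 9781116943) (nat_lit 1846549073) (.two (nat_lit 4194312) (nat_lit 16786428) (.two (nat_lit 2097157) (nat_lit 20740843184) (.two (nat_lit 2097153) (nat_lit 1947217535) (.two (nat_lit 8388608) (nat_lit 1061383) (.one (nat_lit 1062486) .nil)))))))),
   .two (nat_lit 9940501346) (nat_lit 12148802864) (.two (nat_lit 272629955) (nat_lit 10376712072) (.two (nat_lit 2889875471) (nat_lit 166196157056) (.two (nat_lit 205520904) (nat_lit 20705190852) (.two (nat_lit 1276116996) (nat_lit 11010057906) (.two (nat_lit 605028353) (nat_lit 1312829041) (.two (nat_lit 1048576) (nat_lit 2990551914) (.one (nat_lit 1062488) .nil))))))),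
   .two (nat_lit 156567077730) (nat_lit 28693234973) (.two (nat_lit 12117344451) (nat_lit 19529730578) (.two (nat_lit 1847590979) (nat_lit 156364705680) (.two (nat_lit 46414168079) (nat_lit 2416974445) (.two (nat_lit 705691656) (nat_lit 176169924) (.two (nat_lit 34603013) (nat_lit 675293684) (.two (nat_lit 606076929) (nat_lit 2316316295) (.two (nat_lit 2097152) (nat_lit 18933101396) (.one (nat_lit 1062489) .nil)))))))),
   .two (nat_lit 10001318754) (nat_lit 165532402978) (.two (nat_lit 10343153859) (nat_lit 166130092553) (.two (nat_lit 20644364353) (nat_lit 183913942929) (.two (nat_lit 159217877007) (nat_lit 13221501521) (.two (nat_lit 184423546888) (nat_lit 12150907018) (.two (nat_lit 2097157) (nat_lit 272640476) (.two (nat_lit 2097153) (nat_lit 183845793446) (.two (nat_lit 1048576) (nat_lit 8401824) (.one (nat_lit 1062490) .nil)))))))),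
   .two (nat_lit 2961179490) (nat_lit 156481094956) (.two (nat_lit 16777411) (nat_lit 37314629526) (.two (nat_lit 176160783) (nat_lit 202382191) (.two (nat_lit 176160772) (nat_lit 605038261) (.two (nat_lit 8388609) (nat_lit 46473948813) (.two (nat_lit 1048576) (nat_lit 10385109799) (.one (nat_lit 1062491) .nil)))))),
   .two (nat_lit 654312290) (nat_lit 158146233665) (.two (nat_lit 9768534211) (nat_lit 1291849605) (.two (nat_lit 620757007) (nat_lit 165528214102) (.two (nat_lit 272629768) (nat_lit 12121548465) (.two (nat_lit 4194305) (nat_lit 11525959296) (.two (nat_lit 4194304) (nat_lit 1182807303) .nil))))),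
   .two (nat_lit 46414168931) (nat_lit 11513365789) (.two (nat_lit 4634706115) (nat_lit 20745030151) (.two (nat_lit 3028287553) (nat_lit 166232854408) (.two (nat_lit 176160783) (nat_lit 1279269450) (.two (nat_lit 612368392) (nat_lit 166232859579) (.two (nat_lit 4194308) (nat_lit 185027537360) (.two (nat_lit 4194305) (nat_lit 1317023354) (.two (nat_lit 8388608) (nat_lit 876622621) (.one (nat_lit 13224654084) .nil)))))))),
   .two (nat_lit 1962935138) (nat_lit 37246468963) (.two (nat_lit 47555018947) (nat_lit 4043311630) (.two (nat_lit 1913651267) (nat_lit 4638904211) (.two (nat_lit 50331663) (nat_lit 166237053076) (.two (nat_lit 176160772) (nat_lit 12062829032) (.two (nat_lit 16777217) (nat_lit 10343165563) (.two (nat_lit 1048576) (nat_lit 18941489666) (.one (nat_lit 1410348295) .nil))))))),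
   .two (nat_lit 174759871331) (nat_lit 2098550) (.two (nat_lit 41943235) (nat_lit 158158818742) (.two (nat_lit 343932995) (nat_lit 151000052) (.two (nat_lit 156971827215) (nat_lit 159217883735) (.two (nat_lit 620757000) (nat_lit 18933097468) (.two (nat_lit 184549381) (nat_lit 9969870512) (.two (nat_lit 16777217) (nat_lit 47548739218) (.two (nat_lit 2097152) (nat_lit 4207521) (.one (nat_lit 2111068) .nil)))))))),
   .two (nat_lit 156372042594) (nat_lit 165525062498) (.two (nat_lit 352321731) (nat_lit 1350568480) (.two (nat_lit 46414168129) (nat_lit 185020191705) (.two (nat_lit 46414168079) (nat_lit 11476671052) (.two (nat_lit 822083592) (nat_lit 11510227914) (.two (nat_lit 8388613) (nat_lit 12147762864) (.two (nat_lit 4194305) (nat_lit 269495939) (.two (nat_lit 1048576) (nat_lit 11551126344) (.one (nat_lit 2956998198) .nil)))))))),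
   .two (nat_lit 21827158882) (nat_lit 2316305703) (.two (nat_lit 2420113603) (nat_lit 21207452198) (.two (nat_lit 4647288898) (nat_lit 19599986564) (.two (nat_lit 4194327) (nat_lit 174701155644) (.two (nat_lit 4194312) (nat_lit 16785563) (.two (nat_lit 605028357) (nat_lit 285223403) (.two (nat_lit 50331649) (nat_lit 183912902304) (.two (nat_lit 16777216) (nat_lit 806368126) (.one (nat_lit 16791133) .nil)))))))),
   .two (nat_lit 2923430755) (nat_lit 16778615) (.two (nat_lit 13237223619) (nat_lit 185023334918) (.two (nat_lit 4601151555) (nat_lit 165540794251) (.two (nat_lit 156367847439) (nat_lit 10370423380) (.two (nat_lit 10519314440) (nat_lit 9766446074) (.two (nat_lit 46407876612) (nat_lit 166232860334) (.two (nat_lit 2097153) (nat_lit 708849283) (.two (nat_lit 8388608) (nat_lit 2110332) (.one (nat_lit 2111070) .nil)))))))),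
   .two (nat_lit 13237224290) (nat_lit 4195704) (.two (nat_lit 4634706535) (nat_lit 46978303518) (.two (nat_lit 46510637171) (nat_lit 158662135693) (.two (nat_lit 13203669007) (nat_lit 4201952) (.two (nat_lit 9867100168) (nat_lit 16786430) (.two (nat_lit 11492392965) (nat_lit 10372524489) (.two (nat_lit 2097153) (nat_lit 151006868) (.two (nat_lit 4194304) (nat_lit 2365600619) (.one (nat_lit 16791135) .nil)))))))),
   .two (nat_lit 3464495971) (nat_lit 18928894818) (.two (nat_lit 50331843) (nat_lit 645925386) (.two (nat_lit 47555018818) (nat_lit 28693238752) (.two (nat_lit 11492392975) (nat_lit 775953009) (.two (nat_lit 9940500488) (nat_lit 19109257361) (.two (nat_lit 176160772) (nat_lit 1782589106) (.two (nat_lit 8388609) (nat_lit 809512616) (.two (nat_lit 8388608) (nat_lit 272642921) (.one (nat_lit 1853896195) .nil)))))))),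
   .two (nat_lit 11010048866) (nat_lit 840959285) (.two (nat_lit 21793603941) (nat_lit 2894072360) (.two (nat_lit 4030726210) (nat_lit 2961182611) (.two (nat_lit 28758245391) (nat_lit 1950358133) (.two (nat_lit 9867100168) (nat_lit 183861518476) (.two (nat_lit 2889875461) (nat_lit 10007619248) (.two (nat_lit 4194305) (nat_lit 203435646) (.two (nat_lit 8388608) (nat_lit 2110372) (.one (nat_lit 4208224) .nil)))))))),
   .two (nat_lit 880804706) (nat_lit 183916036964) (.two (nat_lit 21777875139) (nat_lit 4034924434) (.two (nat_lit 3460300815) (nat_lit 2357205583) (.two (nat_lit 13195280392) (nat_lit 19529737175) (.two (nat_lit 46409973764) (nat_lit 47588583876) (.two (nat_lit 41943041) (nat_lit 184416218738) (.two (nat_lit 1048576) (nat_lit 4207525) (.one (nat_lit 4208225) .nil))))))),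
   .two (nat_lit 156567077731) (nat_lit 1279264097) (.two (nat_lit 9974055107) (nat_lit 9798945296) (.two (nat_lit 3527409728) (nat_lit 1310723980) (.two (nat_lit 12047089679) (nat_lit 11614034520) (.two (nat_lit 203423752) (nat_lit 1376788631) (.two (nat_lit 41943045) (nat_lit 1178609329) (.two (nat_lit 9766436865) (nat_lit 19532885649) (.two (nat_lit 1048576) (nat_lit 4207526) (.one (nat_lit 1062498) .nil)))))))),
   .two (nat_lit 20704133987) (nat_lit 2323645282) (.two (nat_lit 1962934467) (nat_lit 4598008323) (.two (nat_lit 176160834) (nat_lit 9881784197) (.two (nat_lit 176160783) (nat_lit 3472889146) (.two (nat_lit 83886088) (nat_lit 12121545583) (.two (nat_lit 721420292) (nat_lit 156364711608) (.two (nat_lit 605028353) (nat_lit 4638912116) (.two (nat_lit 16777216) (nat_lit 4605358994) (.one (nat_lit 183861524032) .nil)))))))),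
   .two (nat_lit 11517559650) (nat_lit 2923431210) (.two (nat_lit 10504634563) (nat_lit 4197823) (.two (nat_lit 847249475) (nat_lit 10437530586) (.two (nat_lit 19029557272) (nat_lit 11477719697) (.two (nat_lit 742391816) (nat_lit 8397823) (.two (nat_lit 1782579205) (nat_lit 2107902) (.two (nat_lit 2097153) (nat_lit 8400985) (.two (nat_lit 2097152) (nat_lit 158150439775) (.one (nat_lit 8402532) .nil)))))))),
   .two (nat_lit 174686471010) (nat_lit 4027581734) (.two (nat_lit 11022631270) (nat_lit 11544824329) (.two (nat_lit 156465365057) (nat_lit 2988445580) (.two (nat_lit 28772925455) (nat_lit 158647458428) (.two (nat_lit 813694984) (nat_lit 46489673875) (.two (nat_lit 20637024260) (nat_lit 4043319761) (.two (nat_lit 605028353) (nat_lit 706752117) (.two (nat_lit 1048576) (nat_lit 2110379) (.one (nat_lit 1062501) .nil)))))))),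
   .two (nat_lit 20704133987) (nat_lit 16778617) (.two (nat_lit 185035915459) (nat_lit 166196151837) (.two (nat_lit 11559501889) (nat_lit 10000273309) (.two (nat_lit 1358954511) (nat_lit 10906245780) (.two (nat_lit 1779433480) (nat_lit 16785564) (.two (nat_lit 1276116996) (nat_lit 16787967) (.two (nat_lit 605028353) (nat_lit 16789176) (.two (nat_lit 2097152) (nat_lit 1061804) (.one (nat_lit 1062502) .nil)))))))),
   .two (nat_lit 19530777442) (nat_lit 1920992601) (.two (nat_lit 166196150467) (nat_lit 10001320452) (.two (nat_lit 10504634435) (nat_lit 1920995220) (.two (nat_lit 166130089999) (nat_lit 20704138552) (.two (nat_lit 19530776584) (nat_lit 9906954393) (.two (nat_lit 101711877) (nat_lit 11544832498) (.two (nat_lit 156365750273) (nat_lit 75509400) (.two (nat_lit 1048576) (nat_lit 8401837) (.one (nat_lit 16791143) .nil)))))))),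
   .two (nat_lit 11584668514) (nat_lit 9899606882) (.two (nat_lit 166197199043) (nat_lit 46507493891) (.two (nat_lit 10336862275) (nat_lit 19134418823) (.two (nat_lit 11551113231) (nat_lit 156566035020) (.two (nat_lit 28086108168) (nat_lit 166136390590) (.two (nat_lit 21777874949) (nat_lit 156976032242) (.two (nat_lit 612368385) (nat_lit 20705193619) (.two (nat_lit 8388608) (nat_lit 304100215) (.one (nat_lit 2111080) .nil)))))))),
   .two (nat_lit 876610402) (nat_lit 855639344) (.two (nat_lit 47548727491) (nat_lit 13195284364) (.two (nat_lit 169869327) (nat_lit 9869204041) (.two (nat_lit 184986632200) (nat_lit 12155102169) (.two (nat_lit 2956984325) (nat_lit 10001328633) (.two (nat_lit 2097153) (nat_lit 75509427) (.two (nat_lit 8388608) (nat_lit 156566041088) (.one (nat_lit 1346385440) .nil))))))),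
   .two (nat_lit 10336863074) (nat_lit 1753220382) (.two (nat_lit 184993972419) (nat_lit 102763011) (.two (nat_lit 2969567296) (nat_lit 9934214107) (.two (nat_lit 2969567247) (nat_lit 2104801) (.two (nat_lit 713031688) (nat_lit 183947503280) (.two (nat_lit 2097153) (nat_lit 8400569) (.two (nat_lit 2097152) (nat_lit 10921980725) (.one (nat_lit 2111081) .nil))))))),
   .two (nat_lit 12617515875) (nat_lit 16778619) (.two (nat_lit 21827158211) (nat_lit 10537142790) (.two (nat_lit 12114198595) (nat_lit 9814675339) (.two (nat_lit 1745879055) (nat_lit 251664975) (.two (nat_lit 117440520) (nat_lit 1057794) (.two (nat_lit 183845781508) (nat_lit 16787968) (.two (nat_lit 34603009) (nat_lit 13203680907) (.two (nat_lit 1048576) (nat_lit 16790447) (.one (nat_lit 1062506) .nil)))))))),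
   .two (nat_lit 11517559650) (nat_lit 3560965459) (.two (nat_lit 28693234022) (nat_lit 19530778142) (.two (nat_lit 12117344323) (nat_lit 158653748198) (.two (nat_lit 12050235407) (nat_lit 10443823756) (.two (nat_lit 46978301960) (nat_lit 4203523) (.two (nat_lit 69206021) (nat_lit 8399361) (.two (nat_lit 2097153) (nat_lit 46477094583) (.two (nat_lit 2097152) (nat_lit 166237057818) (.one (nat_lit 4208235) .nil)))))))),
   .two (nat_lit 158647452514) (nat_lit 4631561554) (.two (nat_lit 158176641621) (nat_lit 20705183261) (.two (nat_lit 185020186689) (nat_lit 807407496) (.two (nat_lit 203423759) (nat_lit 303045204) (.two (nat_lit 184416206856) (nat_lit 4601160644) (.two (nat_lit 12114198533) (nat_lit 9766447604) (.two (nat_lit 34603009) (nat_lit 2109532) (.two (nat_lit 1048576) (nat_lit 4207536) (.one (nat_lit 9933174369) .nil)))))))),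
   .two (nat_lit 1417675619) (nat_lit 185020188024) (.two (nat_lit 10504634563) (nat_lit 1212156435) (.two (nat_lit 185027526722) (nat_lit 101716990) (.two (nat_lit 3527409679) (nat_lit 706745657) (.two (nat_lit 1350565896) (nat_lit 28790760417) (.two (nat_lit 41943045) (nat_lit 37246478793) (.two (nat_lit 34603009) (nat_lit 156969741942) (.two (nat_lit 1048576) (nat_lit 2110386) (.one (nat_lit 1062508) .nil)))))))),
   .two (nat_lit 9799992162) (nat_lit 19532875042) (.two (nat_lit 46477082819) (nat_lit 156481096208) (.two (nat_lit 3527409729) (nat_lit 9765393405) (.two (nat_lit 3527409679) (nat_lit 1343232584) (.two (nat_lit 205520904) (nat_lit 13203677331) (.two (nat_lit 2097157) (nat_lit 21814585005) (.two (nat_lit 2097153) (nat_lit 183946456741) (.two (nat_lit 1048576) (nat_lit 2110387) (.one (nat_lit 2111046) .nil)))))))),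
   .two (nat_lit 13195281250) (nat_lit 1276118381) (.two (nat_lit 3003122021) (nat_lit 184993973789) (.two (nat_lit 3003121729) (nat_lit 183853125510) (.two (nat_lit 41943055) (nat_lit 183949597273) (.two (nat_lit 276824072) (nat_lit 156581766116) (.two (nat_lit 272629765) (nat_lit 880814546) (.two (nat_lit 4194305) (nat_lit 21811441281) (.two (nat_lit 1048576) (nat_lit 20652766110) (.one (nat_lit 1062509) .nil)))))))),
   .two (nat_lit 158144136034) (nat_lit 174752531298) (.two (nat_lit 47596961987) (nat_lit 158144136733) (.two (nat_lit 2969567297) (nat_lit 18926800785) (.two (nat_lit 1277165583) (nat_lit 13221501543) (.two (nat_lit 2969567240) (nat_lit 2106372) (.two (nat_lit 2902458372) (nat_lit 19027470841) (.two (nat_lit 605028353) (nat_lit 3573558909) (.two (nat_lit 1048576) (nat_lit 2110391) (.one (nat_lit 2111087) .nil)))))))),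
   .two (nat_lit 9948889955) (nat_lit 11611931986) (.two (nat_lit 28758245571) (nat_lit 2432698883) (.two (nat_lit 2902458435) (nat_lit 12115251079) (.two (nat_lit 2969567247) (nat_lit 185021242224) (.two (nat_lit 218103813) (nat_lit 158647461548) (.two (nat_lit 16777217) (nat_lit 304098927) (.two (nat_lit 2097152) (nat_lit 166211892107) (.one (nat_lit 2111088) .nil))))))),
   .two (nat_lit 18928894819) (nat_lit 46481277796) (.two (nat_lit 889192643) (nat_lit 1954548251) (.two (nat_lit 185027526721) (nat_lit 10452209544) (.two (nat_lit 713031695) (nat_lit 166232857191) (.two (nat_lit 184549384) (nat_lit 10003424945) (.two (nat_lit 156367847425) (nat_lit 337653389) (.two (nat_lit 2097152) (nat_lit 4207545) (.one (nat_lit 4208241) .nil))))))),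
   .two (nat_lit 156971828067) (nat_lit 9806283618) (.two (nat_lit 159224168643) (nat_lit 285215255) (.two (nat_lit 28693233729) (nat_lit 21818773395) (.two (nat_lit 50331663) (nat_lit 713038441) (.two (nat_lit 176160776) (nat_lit 184557724) (.two (nat_lit 1178599429) (nat_lit 183953794736) (.two (nat_lit 4194305) (nat_lit 8400570) (.two (nat_lit 4194304) (nat_lit 8401850) (.one (nat_lit 171980325) .nil)))))))),
   .two (nat_lit 3458204514) (nat_lit 209716068) (.two (nat_lit 184986632387) (nat_lit 1853884955) (.two (nat_lit 183845781612) (nat_lit 19134418835) (.two (nat_lit 46407876623) (nat_lit 20740840025) (.two (nat_lit 705691656) (nat_lit 47584388053) (.two (nat_lit 34603013) (nat_lit 4205058) (.two (nat_lit 612368385) (nat_lit 12115259009) (.two (nat_lit 1048576) (nat_lit 4207547) (.one (nat_lit 1062514) .nil)))))))),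
   .two (nat_lit 158646403938) (nat_lit 150996308) (.two (nat_lit 185035915459) (nat_lit 20704134685) (.two (nat_lit 9967763572) (nat_lit 813698967) (.two (nat_lit 9866051599) (nat_lit 2936018238) (.two (nat_lit 10369368072) (nat_lit 156581765274) (.two (nat_lit 159217876997) (nat_lit 9798953408) (.two (nat_lit 606076929) (nat_lit 1350577777) (.two (nat_lit 8388608) (nat_lit 166229717914) (.one (nat_lit 1062515) .nil)))))))),
   .two (nat_lit 2923430755) (nat_lit 2954888036) (.two (nat_lit 9781117123) (nat_lit 306185758) (.two (nat_lit 285212736) (nat_lit 156468514709) (.two (nat_lit 809500687) (nat_lit 11593064595) (.two (nat_lit 1344274437) (nat_lit 16787971) (.two (nat_lit 4194305) (nat_lit 639643304) (.two (nat_lit 2097152) (nat_lit 4207548) (.one (nat_lit 2111093) .nil))))))),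
   .two (nat_lit 9802089764) (nat_lit 168821604) (.two (nat_lit 4647289027) (nat_lit 9802091007) (.two (nat_lit 13237223491) (nat_lit 46409978883) (.two (nat_lit 4194319) (nat_lit 16782646) (.two (nat_lit 4194312) (nat_lit 16785565) (.two (nat_lit 11479810052) (nat_lit 336603577) (.two (nat_lit 4194305) (nat_lit 1060539) (.two (nat_lit 1048576) (nat_lit 4207549) (.one (nat_lit 1062518) .nil)))))))),
   .two (nat_lit 166129042275) (nat_lit 157038937629) (.two (nat_lit 16777283) (nat_lit 13191090055) (.two (nat_lit 2961178639) (nat_lit 174701157232) (.two (nat_lit 176160773) (nat_lit 1947215534) (.two (nat_lit 4194305) (nat_lit 34614960) (.two (nat_lit 1048576) (nat_lit 2956997899) .nil))))),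
   .two (nat_lit 9899606882) (nat_lit 184550779) (.two (nat_lit 185035915459) (nat_lit 156532476423) (.two (nat_lit 185035915373) (nat_lit 3557822348) (.two (nat_lit 11559501839) (nat_lit 1055394) (.two (nat_lit 1795162120) (nat_lit 1057801) (.two (nat_lit 21777874949) (nat_lit 2902469120) (.two (nat_lit 605028353) (nat_lit 9781128888) (.two (nat_lit 2097152) (nat_lit 1061822) (.one (nat_lit 183946458644) .nil)))))))),
   .two (nat_lit 10940842851) (nat_lit 174688568162) (.two (nat_lit 159266111683) (nat_lit 10940843550) (.two (nat_lit 158144135232) (nat_lit 11614032892) (.two (nat_lit 9781116943) (nat_lit 272636521) (.two (nat_lit 742391816) (nat_lit 183861518477) (.two (nat_lit 10504634373) (nat_lit 47584388781) (.two (nat_lit 37748737) (nat_lit 9934220963) (.two (nat_lit 2097152) (nat_lit 4207552) (.one (nat_lit 4208248) .nil)))))))),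
   .two (nat_lit 9982444386) (nat_lit 18933089616) (.two (nat_lit 847249603) (nat_lit 183946447363) (.two (nat_lit 3560964161) (nat_lit 19612569484) (.two (nat_lit 2961178639) (nat_lit 13203675778) (.two (nat_lit 813694984) (nat_lit 873472961) (.two (nat_lit 20652752901) (nat_lit 873473714) (.two (nat_lit 9766436865) (nat_lit 183953796741) (.two (nat_lit 2097152) (nat_lit 9902764939) (.one (nat_lit 1062521) .nil)))))))),
   .two (nat_lit 1358955362) (nat_lit 13188990265) (.two (nat_lit 1780482405) (nat_lit 1358956061) (.two (nat_lit 11551113282) (nat_lit 855642002) (.two (nat_lit 83886095) (nat_lit 639638152) (.two (nat_lit 742391816) (nat_lit 16786397) (.two (nat_lit 8388612) (nat_lit 4205060) (.two (nat_lit 156365750273) (nat_lit 19612577867) (.two (nat_lit 4194304) (nat_lit 9814684467) (.one (nat_lit 4208250) .nil)))))))),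
   .two (nat_lit 12050236259) (nat_lit 1753219939) (.two (nat_lit 10504634563) (nat_lit 46980401682) (.two (nat_lit 11584667715) (nat_lit 28791803795) (.two (nat_lit 9948889103) (nat_lit 2102590) (.two (nat_lit 9766436872) (nat_lit 3540000918) (.two (nat_lit 1277165573) (nat_lit 1283467778) (.two (nat_lit 2097153) (nat_lit 612380323) (.two (nat_lit 4194304) (nat_lit 47588586759) .nil))))))),
   .two (nat_lit 166130090850) (nat_lit 18928895292) (.two (nat_lit 19599982787) (nat_lit 169871878) (.two (nat_lit 12117344320) (nat_lit 9900659686) (.two (nat_lit 742391823) (nat_lit 41949769) (.two (nat_lit 813694984) (nat_lit 4203530) (.two (nat_lit 157038936069) (nat_lit 185021245908) (.two (nat_lit 606076929) (nat_lit 608185969) (.two (nat_lit 2097152) (nat_lit 4207553) (.one (nat_lit 2111099) .nil)))))))),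
   .two (nat_lit 2923430754) (nat_lit 158091707692) (.two (nat_lit 822083779) (nat_lit 12150901279) (.two (nat_lit 285212736) (nat_lit 158649552791) (.two (nat_lit 2902458383) (nat_lit 21210602124) (.two (nat_lit 46980399112) (nat_lit 19128133294) (.two (nat_lit 2097153) (nat_lit 1413492351) (.two (nat_lit 2097152) (nat_lit 1178613001) .nil)))))),
   .two (nat_lit 157038936931) (nat_lit 4034921820) (.two (nat_lit 13195280579) (nat_lit 157038937630) (.two (nat_lit 2927624258) (nat_lit 809504661) (.two (nat_lit 46409973775) (nat_lit 156372047158) (.two (nat_lit 2889875464) (nat_lit 8397836) (.two (nat_lit 1916796933) (nat_lit 75508159) (.two (nat_lit 4194305) (nat_lit 1753230971) (.two (nat_lit 8388608) (nat_lit 4207556) (.one (nat_lit 4208252) .nil)))))))),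
   .two (nat_lit 19142804322) (nat_lit 157038937374) (.two (nat_lit 3527409859) (nat_lit 352324113) (.two (nat_lit 721420354) (nat_lit 20640175068) (.two (nat_lit 721420303) (nat_lit 4201123) (.two (nat_lit 176160776) (nat_lit 16786445) (.two (nat_lit 41943045) (nat_lit 1950362073) (.two (nat_lit 41943041) (nat_lit 2319462055) (.two (nat_lit 4194304) (nat_lit 16790469) (.one (nat_lit 16791165) .nil)))))))),
   .two (nat_lit 28806480738) (nat_lit 1745880396) (.two (nat_lit 4647289027) (nat_lit 8392129) (.two (nat_lit 4613734465) (nat_lit 2894075194) (.two (nat_lit 183845781512) (nat_lit 2961186966) (.two (nat_lit 83886085) (nat_lit 1377838765) (.two (nat_lit 2097153) (nat_lit 10007621298) (.two (nat_lit 1048576) (nat_lit 2110408) (.one (nat_lit 2111102) .nil))))))),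
   .two (nat_lit 1417675618) (nat_lit 4028630348) (.two (nat_lit 41943235) (nat_lit 16780738) (.two (nat_lit 4613734466) (nat_lit 10007613315) (.two (nat_lit 50331663) (nat_lit 4598012489) (.two (nat_lit 2887778312) (nat_lit 11014251446) (.two (nat_lit 270532613) (nat_lit 8399365) (.two (nat_lit 50331649) (nat_lit 158077038255) (.two (nat_lit 1048576) (nat_lit 2110409) (.one (nat_lit 2111103) .nil)))))))),
   .two (nat_lit 654312291) (nat_lit 675284270) (.two (nat_lit 12117344451) (nat_lit 28101840787) (.two (nat_lit 184549391) (nat_lit 1346378361) (.two (nat_lit 612368392) (nat_lit 11525955720) (.two (nat_lit 176160772) (nat_lit 3024103907) (.two (nat_lit 8388609) (nat_lit 742403702) (.two (nat_lit 4194304) (nat_lit 8401866) (.one (nat_lit 109065482) .nil))))))),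
   .two (nat_lit 184419353442) (nat_lit 9915335990) (.two (nat_lit 285212867) (nat_lit 3560966688) (.two (nat_lit 46523220035) (nat_lit 3560968082) (.two (nat_lit 809500687) (nat_lit 3003130003) (.two (nat_lit 157035790341) (nat_lit 156535630271) (.two (nat_lit 37748737) (nat_lit 46507503240) (.two (nat_lit 4194304) (nat_lit 101725107) (.one (nat_lit 1062528) .nil))))))),
   .two (nat_lit 75498338) (nat_lit 12633245017) (.two (nat_lit 8388803) (nat_lit 166245435931) (.two (nat_lit 184549490) (nat_lit 165525065623) (.two (nat_lit 620757007) (nat_lit 166129048221) (.two (nat_lit 276824072) (nat_lit 183916044442) (.two (nat_lit 176160773) (nat_lit 184431946237) (.two (nat_lit 16777217) (nat_lit 18928905853) (.two (nat_lit 16777216) (nat_lit 1350579461) .nil))))))),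
   .two (nat_lit 1753219938) (nat_lit 12633245022) (.two (nat_lit 1384120515) (nat_lit 16780739) (.two (nat_lit 2923429953) (nat_lit 10510929804) (.two (nat_lit 2902458383) (nat_lit 1346377020) (.two (nat_lit 2902458376) (nat_lit 184989787068) (.two (nat_lit 713031684) (nat_lit 166232860334) (.two (nat_lit 16777217) (nat_lit 4206196) (.two (nat_lit 4194304) (nat_lit 16790475) (.one (nat_lit 158079137393) .nil)))))))),
   .two (nat_lit 156372043050) (nat_lit 46523220836) (.two (nat_lit 843055299) (nat_lit 11484006947) (.two (nat_lit 46414168131) (nat_lit 18928899075) (.two (nat_lit 4605345807) (nat_lit 318773883) (.two (nat_lit 41943048) (nat_lit 16786447) (.two (nat_lit 8388612) (nat_lit 16787975) (.two (nat_lit 41943041) (nat_lit 16789602) (.two (nat_lit 16777216) (nat_lit 4207565) (.one (nat_lit 8402561) .nil)))))))),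
   .two (nat_lit 847250274) (nat_lit 1916798247) (.two (nat_lit 10504634563) (nat_lit 11479812646) (.two (nat_lit 1317011523) (nat_lit 156533526404) (.two (nat_lit 19530776591) (nat_lit 12054436478) (.two (nat_lit 606076936) (nat_lit 10007617691) (.two (nat_lit 184989777925) (nat_lit 159224179179) (.two (nat_lit 8388609) (nat_lit 157038948000) (.two (nat_lit 4194304) (nat_lit 8401870) (.one (nat_lit 8402563) .nil)))))))),
   .two (nat_lit 620757858) (nat_lit 2357200186) (.two (nat_lit 16777411) (nat_lit 12054432258) (.two (nat_lit 16777280) (nat_lit 310383928) (.two (nat_lit 184549384) (nat_lit 10376716427) (.two (nat_lit 8388612) (nat_lit 352331443) (.two (nat_lit 8388609) (nat_lit 13203680907) (.two (nat_lit 8388608) (nat_lit 16790479) (.one (nat_lit 166203503878) .nil))))))),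
   .two (nat_lit 159266112354) (nat_lit 10907288870) (.two (nat_lit 11010048195) (nat_lit 2099747) (.two (nat_lit 2988441665) (nat_lit 157051524063) (.two (nat_lit 37748751) (nat_lit 183928625759) (.two (nat_lit 606076936) (nat_lit 16786448) (.two (nat_lit 2954887173) (nat_lit 4205064) (.two (nat_lit 2097153) (nat_lit 13237235387) (.two (nat_lit 2097152) (nat_lit 1929393067) (.one (nat_lit 2111108) .nil)))))))),
   .two (nat_lit 156581757795) (nat_lit 1178600813) (.two (nat_lit 310378691) (nat_lit 4197828) (.two (nat_lit 20719861826) (nat_lit 168824714) (.two (nat_lit 8388623) (nat_lit 1761613113) (.two (nat_lit 276824072) (nat_lit 251666583) (.two (nat_lit 41943045) (nat_lit 605038264) (.two (nat_lit 41943041) (nat_lit 1343237804) (.two (nat_lit 1048576) (nat_lit 4207570) (.one (nat_lit 16791174) .nil)))))))),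
   .two (nat_lit 158176641890) (nat_lit 13195281743) (.two (nat_lit 20704133315) (nat_lit 8392133) (.two (nat_lit 158143086656) (nat_lit 2994738145) (.two (nat_lit 754974735) (nat_lit 19604183661) (.two (nat_lit 165525061640) (nat_lit 612377597) (.two (nat_lit 2902458372) (nat_lit 310389211) (.two (nat_lit 16777217) (nat_lit 8400575) (.two (nat_lit 1048576) (nat_lit 8401875) (.one (nat_lit 8402567) .nil)))))))),
   .two (nat_lit 28806480738) (nat_lit 2349859682) (.two (nat_lit 21785215171) (nat_lit 9781119506) (.two (nat_lit 184549441) (nat_lit 166136386876) (.two (nat_lit 612368392) (nat_lit 174701157232) (.two (nat_lit 176160772) (nat_lit 166245443244) (.two (nat_lit 620756993) (nat_lit 13221506689) (.two (nat_lit 1048576) (nat_lit 10007622150) (.one (nat_lit 34616583) .nil))))))),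
   .two (nat_lit 174686471010) (nat_lit 9902753089) (.two (nat_lit 3527409859) (nat_lit 1176506266) (.two (nat_lit 272629775) (nat_lit 18941483660) (.two (nat_lit 3527409672) (nat_lit 19545465822) (.two (nat_lit 639631365) (nat_lit 46422567395) (.two (nat_lit 606076929) (nat_lit 11022642854) (.two (nat_lit 2097152) (nat_lit 16790485) (.one (nat_lit 2111112) .nil))))))),
   .two (nat_lit 1962935138) (nat_lit 37246469406) (.two (nat_lit 142606531) (nat_lit 185020189210) (.two (nat_lit 12617515074) (nat_lit 4613738375) (.two (nat_lit 158083317775) (nat_lit 1191189117) (.two (nat_lit 612368392) (nat_lit 20737696734) (.two (nat_lit 176160772) (nat_lit 20737698293) (.two (nat_lit 16777217) (nat_lit 9966726822) (.two (nat_lit 16777216) (nat_lit 705704829) (.one (nat_lit 1062537) .nil)))))))),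
   .two (nat_lit 10436477795) (nat_lit 19033752915) (.two (nat_lit 183916036454) (nat_lit 10436478494) (.two (nat_lit 2927624307) (nat_lit 339742610) (.two (nat_lit 3460300815) (nat_lit 3028295835) (.two (nat_lit 2894069765) (nat_lit 4205065) (.two (nat_lit 4194305) (nat_lit 1060544) (.two (nat_lit 1048576) (nat_lit 8401878) (.one (nat_lit 8402570) .nil))))))),
   .two (nat_lit 19130221858) (nat_lit 47547679588) (.two (nat_lit 310378691) (nat_lit 19130223103) (.two (nat_lit 1309671532) (nat_lit 156976025496) (.two (nat_lit 272629775) (nat_lit 47547685460) (.two (nat_lit 4601151496) (nat_lit 47588581523) (.two (nat_lit 20637024260) (nat_lit 28764547521) (.two (nat_lit 37748737) (nat_lit 1060966) (.two (nat_lit 1048576) (nat_lit 4207575) (.one (nat_lit 336606837) .nil)))))))),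
   .two (nat_lit 236979042) (nat_lit 174685422434) (.two (nat_lit 47596961987) (nat_lit 28791802399) (.two (nat_lit 2988441667) (nat_lit 11610886035) (.two (nat_lit 1291845647) (nat_lit 672143969) (.two (nat_lit 1175453704) (nat_lit 1191190684) (.two (nat_lit 9765388293) (nat_lit 117451263) (.two (nat_lit 2097153) (nat_lit 269495954) (.two (nat_lit 2097152) (nat_lit 9798955524) (.one (nat_lit 1062540) .nil)))))))),
   .two (nat_lit 9781117794) (nat_lit 1410335586) (.two (nat_lit 9781117123) (nat_lit 28690090505) (.two (nat_lit 9781116995) (nat_lit 1847594892) (.two (nat_lit 4194319) (nat_lit 16784238) (.two (nat_lit 4194308) (nat_lit 158176650928) (.two (nat_lit 2097153) (nat_lit 183928631809) (.one (nat_lit 10503599366) .nil)))))),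
   .two (nat_lit 11626611555) (nat_lit 109053249) (.two (nat_lit 156372041923) (nat_lit 272632328) (.two (nat_lit 11513364545) (nat_lit 706744200) (.two (nat_lit 47548727311) (nat_lit 11010054816) (.two (nat_lit 19532873736) (nat_lit 687875051) (.two (nat_lit 809500677) (nat_lit 2107914) (.two (nat_lit 2097153) (nat_lit 4206695) (.two (nat_lit 4194304) (nat_lit 2110425) (.one (nat_lit 4208269) .nil)))))))),
   .two (nat_lit 1317012322) (nat_lit 2988442965) (.two (nat_lit 9934209219) (nat_lit 11584670218) (.two (nat_lit 2954887232) (nat_lit 71307144) (.two (nat_lit 2954887183) (nat_lit 1413487190) (.two (nat_lit 156367847432) (nat_lit 142615492) (.two (nat_lit 169869316) (nat_lit 4205044) (.two (nat_lit 2097153) (nat_lit 8400577) (.two (nat_lit 2097152) (nat_lit 4207578) (.one (nat_lit 2111118) .nil)))))))),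
   .two (nat_lit 156372042595) (nat_lit 158179788107) (.two (nat_lit 13191086275) (nat_lit 1350569874) (.two (nat_lit 37748751) (nat_lit 183953791567) (.two (nat_lit 176160776) (nat_lit 876618679) (.two (nat_lit 169869316) (nat_lit 4205067) (.two (nat_lit 2097153) (nat_lit 13191097981) (.two (nat_lit 2097152) (nat_lit 4207579) (.one (nat_lit 8402575) .nil))))))),
   .two (nat_lit 10343154530) (nat_lit 2098557) (.two (nat_lit 13237223619) (nat_lit 10439626150) (.two (nat_lit 12050235457) (nat_lit 20711477144) (.two (nat_lit 11492392975) (nat_lit 276830848) (.two (nat_lit 9940500488) (nat_lit 13203677331) (.two (nat_lit 176160772) (nat_lit 203433650) (.two (nat_lit 8388609) (nat_lit 46508551846) (.two (nat_lit 2097152) (nat_lit 713044482) (.one (nat_lit 8402576) .nil)))))))),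
   .two (nat_lit 166132188002) (nat_lit 10452206906) (.two (nat_lit 285212867) (nat_lit 12620664732) (.two (nat_lit 50331663) (nat_lit 71309927) (.two (nat_lit 166132187144) (nat_lit 1862279309) (.two (nat_lit 10506731525) (nat_lit 16787981) (.two (nat_lit 9768534017) (nat_lit 184561340) (.two (nat_lit 4194304) (nat_lit 721433551) (.one (nat_lit 272643337) .nil))))))),
   .two (nat_lit 11584668515) (nat_lit 28790752098) (.two (nat_lit 12117344451) (nat_lit 159224171026) (.two (nat_lit 1947205699) (nat_lit 46481280906) (.two (nat_lit 272629775) (nat_lit 276830833) (.two (nat_lit 4194312) (nat_lit 9806292663) (.two (nat_lit 605028353) (nat_lit 21210607246) (.two (nat_lit 1048576) (nat_lit 19033764352) (.one (nat_lit 8402578) .nil))))))),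
   .two (nat_lit 10538189666) (nat_lit 4195710) (.two (nat_lit 156535619779) (nat_lit 10538190365) (.two (nat_lit 46980399169) (nat_lit 18926800783) (.two (nat_lit 37748751) (nat_lit 1853889105) (.two (nat_lit 9766436872) (nat_lit 1379934352) (.two (nat_lit 169869316) (nat_lit 4205070) (.two (nat_lit 2097153) (nat_lit 156472716927) (.two (nat_lit 16777216) (nat_lit 19033764769) (.one (nat_lit 2111123) .nil)))))))),
   .two (nat_lit 4028629858) (nat_lit 20753417058) (.two (nat_lit 20753416549) (nat_lit 706742818) (.two (nat_lit 4028629057) (nat_lit 2432701394) (.two (nat_lit 158158815247) (nat_lit 184987687513) (.two (nat_lit 37748744) (nat_lit 16786452) (.two (nat_lit 203423749) (nat_lit 19545467387) (.two (nat_lit 606076929) (nat_lit 21793615509) (.two (nat_lit 2097152) (nat_lit 16790498) (.one (nat_lit 16791188) .nil)))))))),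
   .two (nat_lit 18933089123) (nat_lit 1279264044) (.two (nat_lit 306184387) (nat_lit 209717766) (.two (nat_lit 11479810115) (nat_lit 10351547399) (.two (nat_lit 272629775) (nat_lit 276830793) (.two (nat_lit 272629768) (nat_lit 11551122403) (.two (nat_lit 4194308) (nat_lit 183920241120) (.two (nat_lit 4194305) (nat_lit 1283468913) (.two (nat_lit 4194304) (nat_lit 16790500) (.one (nat_lit 16791189) .nil)))))))),
   .two (nat_lit 1753220386) (nat_lit 11477713764) (.two (nat_lit 16777411) (nat_lit 156976024080) (.two (nat_lit 16777280) (nat_lit 1350570981) (.two (nat_lit 620757007) (nat_lit 706746955) (.two (nat_lit 41943048) (nat_lit 50339997) (.two (nat_lit 75497477) (nat_lit 13222554041) (.two (nat_lit 8388609) (nat_lit 3022008837) (.one (nat_lit 2111126) .nil))))))),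
   .two (nat_lit 1212154723) (nat_lit 185002362201) (.two (nat_lit 12117344451) (nat_lit 11022633499) (.two (nat_lit 11551113327) (nat_lit 2969571205) (.two (nat_lit 1350565903) (nat_lit 156481101965) (.two (nat_lit 8388612) (nat_lit 1929390579) (.two (nat_lit 8388609) (nat_lit 4206700) (.two (nat_lit 4194304) (nat_lit 16790510) (.one (nat_lit 4208281) .nil))))))),
   .two (nat_lit 184993973090) (nat_lit 236979572) (.two (nat_lit 46474985667) (nat_lit 28693235230) (.two (nat_lit 3525312576) (nat_lit 1916800900) (.two (nat_lit 12050235407) (nat_lit 28697434786) (.two (nat_lit 46980399117) (nat_lit 337649804) (.two (nat_lit 4601151493) (nat_lit 8399376) (.two (nat_lit 4194305) (nat_lit 3565170349) (.two (nat_lit 2097152) (nat_lit 4207599) (.one (nat_lit 2111130) .nil)))))))),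
   .two (nat_lit 46414168930) (nat_lit 2923431292) (.two (nat_lit 306184387) (nat_lit 12155095558) (.two (nat_lit 4601151554) (nat_lit 9772732311) (.two (nat_lit 272629775) (nat_lit 185027533414) (.two (nat_lit 272629768) (nat_lit 8397847) (.two (nat_lit 46414168068) (nat_lit 4205074) (.two (nat_lit 156372041729) (nat_lit 28793908847) (.two (nat_lit 8388608) (nat_lit 12150911862) (.one (nat_lit 4208285) .nil)))))))),
   .two (nat_lit 158083318627) (nat_lit 10519315764) (.two (nat_lit 822083779) (nat_lit 166199298599) (.two (nat_lit 3036676163) (nat_lit 3531607956) (.two (nat_lit 156367847439) (nat_lit 20652759638) (.two (nat_lit 1178599437) (nat_lit 16784238) (.two (nat_lit 1178599429) (nat_lit 10016007859) (.two (nat_lit 4194305) (nat_lit 746598019) (.two (nat_lit 8388608) (nat_lit 37762032) (.one (nat_lit 4208286) .nil)))))))),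
   .two (nat_lit 12117345122) (nat_lit 336594294) (.two (nat_lit 47596961987) (nat_lit 47550828433) (.two (nat_lit 620757007) (nat_lit 775953038) (.two (nat_lit 9781116936) (nat_lit 2956991343) (.two (nat_lit 2902458373) (nat_lit 3460310708) (.two (nat_lit 37748737) (nat_lit 21811441316) (.two (nat_lit 1048576) (nat_lit 10003427840) (.one (nat_lit 4208288) .nil))))))),
   .two (nat_lit 10939794274) (nat_lit 19027461406) (.two (nat_lit 9948889283) (nat_lit 159216832403) (.two (nat_lit 1291845647) (nat_lit 2988448375) (.two (nat_lit 46407876616) (nat_lit 185002370041) (.two (nat_lit 46407876612) (nat_lit 19529738699) (.two (nat_lit 9765388289) (nat_lit 10538200700) (.two (nat_lit 1048576) (nat_lit 3022009213) (.one (nat_lit 1062564) .nil))))))),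
   .two (nat_lit 10015998818) (nat_lit 880805160) (.two (nat_lit 9768534211) (nat_lit 19042142755) (.two (nat_lit 285212739) (nat_lit 1178604547) (.two (nat_lit 2902458383) (nat_lit 4030734490) (.two (nat_lit 612368389) (nat_lit 9814682107) (.two (nat_lit 612368385) (nat_lit 20719873685) (.two (nat_lit 16777216) (nat_lit 339751912) (.one (nat_lit 4605359601) .nil))))))),
   .two (nat_lit 46414168930) (nat_lit 11546920239) (.two (nat_lit 306184387) (nat_lit 156372044290) (.two (nat_lit 306184257) (nat_lit 9772732311) (.two (nat_lit 176160783) (nat_lit 1279269464) (.two (nat_lit 4601151496) (nat_lit 9873399949) (.two (nat_lit 4194308) (nat_lit 8399379) (.two (nat_lit 8388609) (nat_lit 19130232504) (.two (nat_lit 8388608) (nat_lit 4207605) (.one (nat_lit 4208293) .nil)))))))),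
   .two (nat_lit 46477083490) (nat_lit 159251432291) (.two (nat_lit 11577327811) (nat_lit 11614030350) (.two (nat_lit 20738736195) (nat_lit 184989781898) (.two (nat_lit 37748751) (nat_lit 11006909088) (.two (nat_lit 742391816) (nat_lit 183946453137) (.two (nat_lit 69206021) (nat_lit 1059348) (.two (nat_lit 606076929) (nat_lit 2319462005) (.two (nat_lit 2097152) (nat_lit 158179799554) (.one (nat_lit 2420127248) .nil)))))))),
   .two (nat_lit 11007951714) (nat_lit 174752531298) (.two (nat_lit 47596961987) (nat_lit 11007952413) (.two (nat_lit 3525312576) (nat_lit 3020952537) (.two (nat_lit 1358954511) (nat_lit 28086114931) (.two (nat_lit 2887778312) (nat_lit 16784238) (.two (nat_lit 2887778308) (nat_lit 336602800) (.two (nat_lit 2097153) (nat_lit 185035927178) (.two (nat_lit 16777216) (nat_lit 11544834915) (.one (nat_lit 11477726783) .nil)))))))),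
   .two (nat_lit 3573547875) (nat_lit 1847591778) (.two (nat_lit 9948889283) (nat_lit 1753221650) (.two (nat_lit 176160835) (nat_lit 10385100675) (.two (nat_lit 8388623) (nat_lit 4613739837) (.two (nat_lit 620757000) (nat_lit 1283464047) (.two (nat_lit 721420293) (nat_lit 75507383) (.two (nat_lit 156365750273) (nat_lit 713043599) (.two (nat_lit 2097152) (nat_lit 612381191) (.one (nat_lit 8402599) .nil)))))))),
   .two (nat_lit 10552869731) (nat_lit 2098562) (.two (nat_lit 185035915459) (nat_lit 10503588387) (.two (nat_lit 158192369730) (nat_lit 1913656329) (.two (nat_lit 754974735) (nat_lit 11510225521) (.two (nat_lit 157036838920) (nat_lit 2886738938) (.two (nat_lit 806354949) (nat_lit 16787989) (.two (nat_lit 2097153) (nat_lit 21811441316) (.two (nat_lit 2097152) (nat_lit 1343239017) (.one (nat_lit 1062568) .nil)))))))),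
   .two (nat_lit 19096666978) (nat_lit 28790752546) (.two (nat_lit 1343226051) (nat_lit 8392137) (.two (nat_lit 185020186689) (nat_lit 339742599) (.two (nat_lit 4194319) (nat_lit 10007614774) (.two (nat_lit 68157448) (nat_lit 1417683101) (.two (nat_lit 159216828421) (nat_lit 243280367) (.two (nat_lit 4194305) (nat_lit 303050375) (.two (nat_lit 1048576) (nat_lit 4207612) (.one (nat_lit 1413494288) .nil)))))))),
   .two (nat_lit 1291846498) (nat_lit 12618564951) (.two (nat_lit 9948889283) (nat_lit 174686471710) (.two (nat_lit 2969567296) (nat_lit 169873298) (.two (nat_lit 10385096719) (nat_lit 28691143321) (.two (nat_lit 2887778312) (nat_lit 16784238) (.two (nat_lit 721420292) (nat_lit 203434459) (.two (nat_lit 2097153) (nat_lit 166245445241) (.two (nat_lit 1048576) (nat_lit 3022008837) (.one (nat_lit 2111146) .nil)))))))),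
   .two (nat_lit 2988442467) (nat_lit 721421689) (.two (nat_lit 159266111683) (nat_lit 9967765021) (.two (nat_lit 218103873) (nat_lit 19128127375) (.two (nat_lit 2902458383) (nat_lit 775953010) (.two (nat_lit 606076936) (nat_lit 50339992) (.two (nat_lit 69206021) (nat_lit 16787990) (.two (nat_lit 2097153) (nat_lit 158179798655) (.two (nat_lit 4194304) (nat_lit 11477726124) (.one (nat_lit 2111147) .nil)))))))),
   .two (nat_lit 37313577826) (nat_lit 37249615211) (.two (nat_lit 19096666307) (nat_lit 12617517586) (.two (nat_lit 12620660803) (nat_lit 4631564173) (.two (nat_lit 285212687) (nat_lit 71308601) (.two (nat_lit 104857608) (nat_lit 10503595697) (.two (nat_lit 50331649) (nat_lit 873475713) (.two (nat_lit 8388608) (nat_lit 11492405768) (.one (nat_lit 1062572) .nil))))))),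
   .two (nat_lit 9799992163) (nat_lit 157043131705) (.two (nat_lit 3525312707) (nat_lit 176163345) (.two (nat_lit 10007609411) (nat_lit 9934212999) (.two (nat_lit 713031695) (nat_lit 21777881721) (.two (nat_lit 1745879048) (nat_lit 69215184) (.two (nat_lit 183845781508) (nat_lit 2107927) (.two (nat_lit 34603009) (nat_lit 606088836) (.two (nat_lit 1048576) (nat_lit 2110463) (.one (nat_lit 2111149) .nil)))))))),
   .two (nat_lit 9967764322) (nat_lit 174752531298) (.two (nat_lit 2969567427) (nat_lit 11611933211) (.two (nat_lit 2969567296) (nat_lit 10503589779) (.two (nat_lit 169869327) (nat_lit 12129932605) (.two (nat_lit 705691656) (nat_lit 654320725) (.two (nat_lit 169869316) (nat_lit 1779444405) (.two (nat_lit 2097153) (nat_lit 156566040240) (.two (nat_lit 2097152) (nat_lit 10503599370) .nil))))))),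
   .two (nat_lit 183853122402) (nat_lit 20637025122) (.two (nat_lit 4601151683) (nat_lit 209717766) (.two (nat_lit 4601151552) (nat_lit 18941482040) (.two (nat_lit 809500687) (nat_lit 276830793) (.two (nat_lit 4194312) (nat_lit 11551122403) (.two (nat_lit 166144770053) (nat_lit 2319460881) (.two (nat_lit 4194305) (nat_lit 1283468913) (.two (nat_lit 1048576) (nat_lit 11010061418) (.one (nat_lit 16791195) .nil)))))))),
   .two (nat_lit 620757858) (nat_lit 158183982380) (.two (nat_lit 16777411) (nat_lit 813698511) (.two (nat_lit 16777280) (nat_lit 1786778937) (.two (nat_lit 8388616) (nat_lit 16784238) (.two (nat_lit 8388612) (nat_lit 889202355) (.two (nat_lit 8388609) (nat_lit 270544515) (.two (nat_lit 2097152) (nat_lit 28764550406) .nil)))))),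
   .two (nat_lit 12054430563) (nat_lit 158179788086) (.two (nat_lit 4601151683) (nat_lit 165532405638) (.two (nat_lit 272629775) (nat_lit 10376714826) (.two (nat_lit 1276117000) (nat_lit 209725019) (.two (nat_lit 176160773) (nat_lit 104868394) (.two (nat_lit 37748737) (nat_lit 13187952278) (.two (nat_lit 4194304) (nat_lit 1062092) (.one (nat_lit 1062582) .nil))))))),
   .two (nat_lit 4647289698) (nat_lit 809502012) (.two (nat_lit 843055299) (nat_lit 184416208414) (.two (nat_lit 46523220035) (nat_lit 235934816) (.two (nat_lit 18928893967) (nat_lit 4043315859) (.two (nat_lit 2969567240) (nat_lit 159219983384) (.two (nat_lit 9933160453) (nat_lit 251669031) (.two (nat_lit 4194305) (nat_lit 638595279) (.two (nat_lit 4194304) (nat_lit 1062093) (.one (nat_lit 1062583) .nil)))))))),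
   .two (nat_lit 809501539) (nat_lit 4647290172) (.two (nat_lit 16777411) (nat_lit 11543774750) (.two (nat_lit 739246146) (nat_lit 12117349500) (.two (nat_lit 721420303) (nat_lit 2319456855) (.two (nat_lit 721420296) (nat_lit 158146241488) (.two (nat_lit 721420292) (nat_lit 158079133358) (.two (nat_lit 50331649) (nat_lit 742403820) (.two (nat_lit 4194304) (nat_lit 1062094) (.one (nat_lit 1062584) .nil)))))))),
   .two (nat_lit 1795163430) (nat_lit 46406828900) (.two (nat_lit 8388803) (nat_lit 1358958168) (.two (nat_lit 8388672) (nat_lit 11492398132) (.two (nat_lit 612368399) (nat_lit 2902466286) (.two (nat_lit 16777224) (nat_lit 10007617706) (.two (nat_lit 184549381) (nat_lit 157043141265) (.two (nat_lit 8388609) (nat_lit 21827169983) (.two (nat_lit 1048576) (nat_lit 8401678) (.one (nat_lit 303052273) .nil)))))))),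
   .two (nat_lit 159224169314) (nat_lit 166245434212) (.two (nat_lit 41943235) (nat_lit 9781119537) (.two (nat_lit 8388672) (nat_lit 1426068489) (.two (nat_lit 176160783) (nat_lit 1344282230) (.two (nat_lit 16777224) (nat_lit 10947140463) (.two (nat_lit 16777220) (nat_lit 183853131446) (.two (nat_lit 2097153) (nat_lit 1954557596) (.two (nat_lit 2097152) (nat_lit 12121552002) (.one (nat_lit 2111161) .nil)))))))),
   .two (nat_lit 847250274) (nat_lit 46510638365) (.two (nat_lit 46474985667) (nat_lit 276826637) (.two (nat_lit 3525312576) (nat_lit 9772733495) (.two (nat_lit 47555018767) (nat_lit 673193529) (.two (nat_lit 46409973768) (nat_lit 2357208070) (.two (nat_lit 46409973764) (nat_lit 157043141329) (.two (nat_lit 156367847425) (nat_lit 158653755777) (.two (nat_lit 8388608) (nat_lit 4207823) (.one (nat_lit 8402618) .nil)))))))),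
   .two (nat_lit 159266112354) (nat_lit 3558868258) (.two (nat_lit 9934209219) (nat_lit 10552872392) (.two (nat_lit 2969567297) (nat_lit 47582285736) (.two (nat_lit 285212687) (nat_lit 1210063448) (.two (nat_lit 2969567240) (nat_lit 156535629214) (.two (nat_lit 9881780229) (nat_lit 740305615) (.two (nat_lit 620756993) (nat_lit 4599066786) (.two (nat_lit 16777216) (nat_lit 337654987) (.one (nat_lit 16791228) .nil)))))))),
   .two (nat_lit 41943907) (nat_lit 11559503244) (.two (nat_lit 1753219267) (nat_lit 11577331315) (.two (nat_lit 11584667714) (nat_lit 166196155444) (.two (nat_lit 654311439) (nat_lit 202383312) (.two (nat_lit 2902458376) (nat_lit 873473552) (.two (nat_lit 156364701701) (nat_lit 10007620099) (.two (nat_lit 16777217) (nat_lit 3020959479) (.two (nat_lit 1048576) (nat_lit 8402128) (.one (nat_lit 1062589) .nil)))))))),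
   .two (nat_lit 9781117794) (nat_lit 159219975541) (.two (nat_lit 9781117123) (nat_lit 1212155422) (.two (nat_lit 4647288898) (nat_lit 9869201294) (.two (nat_lit 37748751) (nat_lit 16784238) (.two (nat_lit 4194308) (nat_lit 889202347) (.two (nat_lit 2097153) (nat_lit 16790026) (.one (nat_lit 19094582534) .nil)))))),
   .two (nat_lit 4195170) (nat_lit 9806283216) (.two (nat_lit 37749093) (nat_lit 10343155230) (.two (nat_lit 4194369) (nat_lit 3028291462) (.two (nat_lit 4194319) (nat_lit 28697433401) (.two (nat_lit 4194312) (nat_lit 183953789050) (.two (nat_lit 4194312) (nat_lit 46407880824) (.two (nat_lit 4194308) (nat_lit 9899615920) (.two (nat_lit 2097153) (nat_lit 156364713735) (.two (nat_lit 4194304) (nat_lit 8401442) (.one (nat_lit 1062156) .nil))))))))),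
   .two (nat_lit 171966689) (nat_lit 2357200238) (.two (nat_lit 37749603) (nat_lit 2894070630) (.two (nat_lit 21818769765) (nat_lit 1947207197) (.two (nat_lit 169869377) (nat_lit 156573372311) (.two (nat_lit 4194319) (nat_lit 28697433401) (.two (nat_lit 4194312) (nat_lit 12121542779) (.two (nat_lit 276824072) (nat_lit 165528211578) (.two (nat_lit 2097157) (nat_lit 184989787832) (.two (nat_lit 2097153) (nat_lit 873475756) (.two (nat_lit 8388608) (nat_lit 4207847) (.one (nat_lit 1062578) .nil)))))))))),
   .two (nat_lit 47582282594) (nat_lit 2886730188) (.two (nat_lit 239075685) (nat_lit 47582283293) (.two (nat_lit 3003121730) (nat_lit 9934213032) (.two (nat_lit 184549391) (nat_lit 2920289594) (.two (nat_lit 742391816) (nat_lit 156566032506) (.two (nat_lit 184549384) (nat_lit 2920288377) (.two (nat_lit 1277165572) (nat_lit 12117354160) (.two (nat_lit 16777217) (nat_lit 2418028290) (.two (nat_lit 2097152) (nat_lit 12633255789) (.one (nat_lit 2111155) .nil))))))))),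
   .two (nat_lit 46510637923) (nat_lit 1779434855) (.two (nat_lit 9768534211) (nat_lit 2416969247) (.two (nat_lit 156372042086) (nat_lit 19026411753) (.two (nat_lit 339738690) (nat_lit 343936901) (.two (nat_lit 4194319) (nat_lit 343938359) (.two (nat_lit 4194312) (nat_lit 10947140463) (.two (nat_lit 2097157) (nat_lit 184989787832) (.two (nat_lit 2097153) (nat_lit 873475756) (.two (nat_lit 1048576) (nat_lit 2110666) (.one (nat_lit 1062580) .nil))))))))),
   .two (nat_lit 46510637923) (nat_lit 1779434855) (.two (nat_lit 4194398) (nat_lit 10007613359) (.two (nat_lit 9768534211) (nat_lit 2416969247) (.two (nat_lit 156372042086) (nat_lit 19026411753) (.two (nat_lit 339738690) (nat_lit 343936901) (.two (nat_lit 4194319) (nat_lit 343938359) (.two (nat_lit 4194312) (nat_lit 10947140463) (.two (nat_lit 2097157) (nat_lit 184989787832) (.two (nat_lit 2097153) (nat_lit 873475756) (.two (nat_lit 1048576) (nat_lit 2110666) (.one (nat_lit 1062580) .nil)))))))))),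
   .two (nat_lit 46510637923) (nat_lit 1779434855) (.two (nat_lit 156569174211) (nat_lit 46481277960) (.two (nat_lit 3527409760) (nat_lit 183853124096) (.two (nat_lit 9768534211) (nat_lit 2416969247) (.two (nat_lit 339738690) (nat_lit 343936901) (.two (nat_lit 4194319) (nat_lit 343938359) (.two (nat_lit 4194312) (nat_lit 10947140463) (.two (nat_lit 2097157) (nat_lit 184989787832) (.two (nat_lit 2097153) (nat_lit 873475756) (.two (nat_lit 1048576) (nat_lit 2110666) (.one (nat_lit 1062580) .nil)))))))))),
   .two (nat_lit 46510637923) (nat_lit 1779434855) (.two (nat_lit 156569174211) (nat_lit 46481277960) (.two (nat_lit 3527409702) (nat_lit 183853124096) (.two (nat_lit 339738690) (nat_lit 343936901) (.two (nat_lit 4194319) (nat_lit 343938359) (.two (nat_lit 4194312) (nat_lit 10947140463) (.two (nat_lit 2097157) (nat_lit 184989787832) (.two (nat_lit 2097153) (nat_lit 873475756) (.two (nat_lit 1048576) (nat_lit 2110666) (.one (nat_lit 1062580) .nil))))))))),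
   .two (nat_lit 339739490) (nat_lit 880804062) (.two (nat_lit 4601151683) (nat_lit 639635584) (.two (nat_lit 4601151552) (nat_lit 639635584) (.two (nat_lit 156372041743) (nat_lit 12147759794) (.two (nat_lit 4194312) (nat_lit 639636902) (.two (nat_lit 8388610) (nat_lit 34613765) (.two (nat_lit 4194305) (nat_lit 2108181) (.two (nat_lit 2097152) (nat_lit 1059636) (.one (nat_lit 1061447) .nil)))))))),
   .two (nat_lit 339739490) (nat_lit 19109249248) (.two (nat_lit 272629955) (nat_lit 10336862711) (.two (nat_lit 11577327682) (nat_lit 166197200594) (.two (nat_lit 4613734415) (nat_lit 46508546683) (.two (nat_lit 16777224) (nat_lit 10336866425) (.two (nat_lit 1277165570) (nat_lit 13221506016) (.two (nat_lit 156364701697) (nat_lit 2107124) (.two (nat_lit 1048576) (nat_lit 37762337) (.one (nat_lit 37762337) .nil)))))))),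
   .two (nat_lit 3527410530) (nat_lit 184423547746) (.two (nat_lit 3527409859) (nat_lit 2099727) (.two (nat_lit 3525312576) (nat_lit 166136386739) (.two (nat_lit 2889875471) (nat_lit 2365595351) (.two (nat_lit 2889875464) (nat_lit 10437535004) (.two (nat_lit 2887778306) (nat_lit 4206132) (.two (nat_lit 9766436865) (nat_lit 156984422668) (.two (nat_lit 8388608) (nat_lit 16788277) (.one (nat_lit 8402214) .nil)))))))),
   .two (nat_lit 4195170) (nat_lit 11618222539) (.two (nat_lit 10343153859) (nat_lit 20737690154) (.two (nat_lit 4634705985) (nat_lit 21777878919) (.two (nat_lit 169869327) (nat_lit 2994739866) (.two (nat_lit 169869320) (nat_lit 847256442) (.two (nat_lit 4194312) (nat_lit 337645688) (.two (nat_lit 4194308) (nat_lit 11610891963) (.two (nat_lit 2097153) (nat_lit 135278207) (.two (nat_lit 1048576) (nat_lit 19597896494) (.one (nat_lit 343946959) .nil))))))))),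
   .two (nat_lit 1191183202) (nat_lit 4599054790) (.two (nat_lit 13191086275) (nat_lit 158662134293) (.two (nat_lit 13237223491) (nat_lit 2956987170) (.two (nat_lit 13237223491) (nat_lit 3527411339) (.two (nat_lit 37748751) (nat_lit 11559507255) (.two (nat_lit 37748744) (nat_lit 46422563695) (.two (nat_lit 4194308) (nat_lit 2969577148) (.two (nat_lit 2097153) (nat_lit 183928631022) (.two (nat_lit 16777216) (nat_lit 2109989) (.one (nat_lit 1191196383) .nil))))))))),
   .two (nat_lit 104858466) (nat_lit 158646403528) (.two (nat_lit 3560964453) (nat_lit 159251432990) (.two (nat_lit 276824129) (nat_lit 20640173964) (.two (nat_lit 713031695) (nat_lit 174686476916) (.two (nat_lit 8388616) (nat_lit 20637031304) (.two (nat_lit 8388616) (nat_lit 183946449016) (.two (nat_lit 713031684) (nat_lit 183913948856) (.two (nat_lit 37748737) (nat_lit 1847602914) (.two (nat_lit 2097152) (nat_lit 4207849) (.one (nat_lit 4208309) .nil))))))))),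
   .two (nat_lit 47582281950) (nat_lit 2956985670) (.two (nat_lit 184419353443) (nat_lit 3472884172) (.two (nat_lit 183962173797) (nat_lit 19599984157) (.two (nat_lit 13237223491) (nat_lit 19096668966) (.two (nat_lit 13237223491) (nat_lit 19096668966) (.two (nat_lit 13237223491) (nat_lit 184419354322) (.two (nat_lit 742391823) (nat_lit 11559507255) (.two (nat_lit 742391816) (nat_lit 3472890735) (.two (nat_lit 69206021) (nat_lit 822093498) (.two (nat_lit 2097153) (nat_lit 156380442245) (.two (nat_lit 16777216) (nat_lit 2109990) (.one (nat_lit 1782592779) .nil))))))))))),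
   .two (nat_lit 8389474) (nat_lit 2319450337) (.two (nat_lit 880804035) (nat_lit 2349861411) (.two (nat_lit 11543773248) (nat_lit 183916037842) (.two (nat_lit 11559501839) (nat_lit 9798948155) (.two (nat_lit 620757000) (nat_lit 185020189518) (.two (nat_lit 16777218) (nat_lit 10506742238) (.two (nat_lit 9781116929) (nat_lit 1216360464) (.two (nat_lit 4194304) (nat_lit 8400756) (.one (nat_lit 4207912) .nil)))))))),
   .two (nat_lit 183848928098) (nat_lit 184993972683) (.two (nat_lit 343933123) (nat_lit 165526111774) (.two (nat_lit 156367847491) (nat_lit 136318867) (.two (nat_lit 47555018767) (nat_lit 28760349271) (.two (nat_lit 612368392) (nat_lit 184419358119) (.two (nat_lit 612368392) (nat_lit 47582284621) (.two (nat_lit 166130089986) (nat_lit 158649560118) (.two (nat_lit 37748739) (nat_lit 12624863491) (.two (nat_lit 9766436865) (nat_lit 157043142780) (.two (nat_lit 4194304) (nat_lit 2109991) (.one (nat_lit 2111200) .nil)))))))))),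
   .two (nat_lit 2961179491) (nat_lit 2969567457) (.two (nat_lit 272629955) (nat_lit 12062818537) (.two (nat_lit 3539992642) (nat_lit 4634709893) (.two (nat_lit 218103823) (nat_lit 2416974425) (.two (nat_lit 612368392) (nat_lit 21777877838) (.two (nat_lit 166144770053) (nat_lit 806364846) (.two (nat_lit 16777217) (nat_lit 1921003293) (.two (nat_lit 4194304) (nat_lit 9765396805) (.one (nat_lit 1062627) .nil)))))))),
   .two (nat_lit 3525313378) (nat_lit 306184646) (.two (nat_lit 3525312707) (nat_lit 1849689745) (.two (nat_lit 3525312707) (nat_lit 2889875688) (.two (nat_lit 166229704815) (nat_lit 337644322) (.two (nat_lit 3525312576) (nat_lit 1849689745) (.two (nat_lit 9768534031) (nat_lit 47581239900) (.two (nat_lit 10506731528) (nat_lit 20637031286) (.two (nat_lit 205520904) (nat_lit 10538191693) (.two (nat_lit 4194306) (nat_lit 672147979) (.two (nat_lit 2887778308) (nat_lit 772810485) (.two (nat_lit 4194305) (nat_lit 165525073694) (.two (nat_lit 4194304) (nat_lit 156364714533) (.one (nat_lit 608187664) .nil)))))))))))),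
   .two (nat_lit 13195281250) (nat_lit 339739083) (.two (nat_lit 156367847619) (nat_lit 13195281949) (.two (nat_lit 4601151552) (nat_lit 2927627046) (.two (nat_lit 4605345858) (nat_lit 158662133393) (.two (nat_lit 41943055) (nat_lit 1346378405) (.two (nat_lit 41943048) (nat_lit 205527923) (.two (nat_lit 41943048) (nat_lit 156581762485) (.two (nat_lit 4194306) (nat_lit 780151243) (.two (nat_lit 4194308) (nat_lit 83894585) (.two (nat_lit 4194305) (nat_lit 157043142342) (.two (nat_lit 4194304) (nat_lit 16790090) (.one (nat_lit 11559515867) .nil))))))))))),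
   .two (nat_lit 10519315298) (nat_lit 46477083656) (.two (nat_lit 285212867) (nat_lit 1343226360) (.two (nat_lit 285212867) (nat_lit 135267981) (.two (nat_lit 16777281) (nat_lit 68158473) (.two (nat_lit 16777281) (nat_lit 135267981) (.two (nat_lit 272629775) (nat_lit 13221500397) (.two (nat_lit 272629768) (nat_lit 13221500397) (.two (nat_lit 2956984327) (nat_lit 880812982) (.two (nat_lit 4194308) (nat_lit 13221500397) (.two (nat_lit 171966467) (nat_lit 10947145268) (.two (nat_lit 4194305) (nat_lit 19093532543) (.two (nat_lit 4194304) (nat_lit 11476677861) (.one (nat_lit 1062185) .nil)))))))))))),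
   .two (nat_lit 184986632387) (nat_lit 37249614328) (.two (nat_lit 158192369730) (nat_lit 157036843997) (.two (nat_lit 9781116936) (nat_lit 1209013742) (.two (nat_lit 705691652) (nat_lit 174688574423) (.two (nat_lit 2097152) (nat_lit 4206455) (.one (nat_lit 675294019) .nil))))),
   .two (nat_lit 721421597) (nat_lit 10007609848) (.two (nat_lit 16777411) (nat_lit 184993976197) (.two (nat_lit 16777280) (nat_lit 184993977655) (.two (nat_lit 16777231) (nat_lit 2894076783) (.two (nat_lit 713031688) (nat_lit 889202355) (.two (nat_lit 41943043) (nat_lit 159232568971) (.two (nat_lit 16777217) (nat_lit 4605355800) (.two (nat_lit 8388608) (nat_lit 822097176) (.one (nat_lit 16790826) .nil)))))))),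
   .two (nat_lit 41943235) (nat_lit 20707279884) (.two (nat_lit 11551113224) (nat_lit 9869207216) (.two (nat_lit 8388608) (nat_lit 1746941198) .nil)),
   .two (nat_lit 47548727491) (nat_lit 12155096970) (.two (nat_lit 47548727304) (nat_lit 202380782) (.two (nat_lit 8388608) (nat_lit 16790814) .nil)),
   .two (nat_lit 13195281250) (nat_lit 159216828920) (.two (nat_lit 4601151683) (nat_lit 1786774017) (.two (nat_lit 13195280741) (nat_lit 20637025934) (.two (nat_lit 4605345858) (nat_lit 2920289774) (.two (nat_lit 184549391) (nat_lit 46409979309) (.two (nat_lit 4605345800) (nat_lit 2920289774) (.two (nat_lit 4613734407) (nat_lit 4204222) (.two (nat_lit 171966469) (nat_lit 185035926320) (.two (nat_lit 4194305) (nat_lit 174692771593) (.two (nat_lit 16777216) (nat_lit 1062176) (.one (nat_lit 1062634) .nil)))))))))),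
   .two (nat_lit 3036676962) (nat_lit 21785215208) (.two (nat_lit 11577327681) (nat_lit 183916037842) (.two (nat_lit 1350565903) (nat_lit 1358958721) (.two (nat_lit 20644364290) (nat_lit 11580485343) (.two (nat_lit 4194305) (nat_lit 16788274) (.one (nat_lit 4208364) .nil))))),
   .two (nat_lit 880804706) (nat_lit 46980399336) (.two (nat_lit 183946444911) (nat_lit 37751585) (.two (nat_lit 3460300815) (nat_lit 4638903115) (.two (nat_lit 184993972229) (nat_lit 183912898873) (.two (nat_lit 156367847425) (nat_lit 18925758215) (.one (nat_lit 8402670) .nil))))),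
   .two (nat_lit 46474986338) (nat_lit 47555018984) (.two (nat_lit 47555018866) (nat_lit 13188993075) (.two (nat_lit 1291845647) (nat_lit 183846834297) (.two (nat_lit 47548727301) (nat_lit 13195288889) (.two (nat_lit 620756993) (nat_lit 8398602) (.one (nat_lit 8402219) .nil))))),
   .two (nat_lit 156569174211) (nat_lit 1417675265) (.two (nat_lit 1916796936) (nat_lit 185035925170) (.two (nat_lit 16777216) (nat_lit 8401477) .nil)),
   .two (nat_lit 47555018790) (nat_lit 809505875) (.two (nat_lit 12121538567) (nat_lit 4201431) (.two (nat_lit 2097152) (nat_lit 4206465) .nil)),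
   .two (nat_lit 8389474) (nat_lit 47596962026) (.two (nat_lit 3558867009) (nat_lit 158143088338) (.two (nat_lit 203423759) (nat_lit 20704136014) (.two (nat_lit 1291845634) (nat_lit 2927636119) (.two (nat_lit 605028353) (nat_lit 8399667) (.one (nat_lit 1062188) .nil))))),
   .two (nat_lit 880804706) (nat_lit 50331882) (.two (nat_lit 8388672) (nat_lit 16778962) (.two (nat_lit 8388623) (nat_lit 352324430) (.two (nat_lit 184549378) (nat_lit 165526122225) (.two (nat_lit 620756993) (nat_lit 2105669) (.one (nat_lit 8401485) .nil))))),
   .two (nat_lit 272629992) (nat_lit 46414168296) (.two (nat_lit 2902458387) (nat_lit 20704137344) (.two (nat_lit 11492392962) (nat_lit 1060723) (.one (nat_lit 8401486) .nil))),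
   .two (nat_lit 8388803) (nat_lit 9902753097) (.two (nat_lit 16777283) (nat_lit 9768535581) (.two (nat_lit 8388623) (nat_lit 1913656359) (.two (nat_lit 8388616) (nat_lit 2416974478) (.two (nat_lit 156367847429) (nat_lit 2416977244) (.two (nat_lit 620756993) (nat_lit 11580484105) (.two (nat_lit 1048576) (nat_lit 2990551202) (.one (nat_lit 4207150) .nil))))))),
   .two (nat_lit 41943235) (nat_lit 158075978594) (.two (nat_lit 343932994) (nat_lit 156532476440) (.two (nat_lit 8388623) (nat_lit 28086113492) (.two (nat_lit 8388616) (nat_lit 11510225605) (.two (nat_lit 746586117) (nat_lit 1947215196) (.two (nat_lit 156367847425) (nat_lit 158653753854) (.two (nat_lit 1048576) (nat_lit 2990551202) (.one (nat_lit 4208104) .nil))))))),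
   .two (nat_lit 8388803) (nat_lit 9902753097) (.two (nat_lit 16777283) (nat_lit 9768535581) (.two (nat_lit 8388623) (nat_lit 1913656359) (.two (nat_lit 8388616) (nat_lit 2416974478) (.two (nat_lit 156367847429) (nat_lit 2416977244) (.two (nat_lit 620756993) (nat_lit 11580484105) (.two (nat_lit 1048576) (nat_lit 2990551202) (.one (nat_lit 4208384) .nil))))))),
   .two (nat_lit 13191086275) (nat_lit 41945414) (.two (nat_lit 83886147) (nat_lit 9768536574) (.two (nat_lit 184549391) (nat_lit 156365754253) (.two (nat_lit 184549384) (nat_lit 1410341523) (.two (nat_lit 176160773) (nat_lit 641736842) (.two (nat_lit 16777217) (nat_lit 4598016472) (.two (nat_lit 1048576) (nat_lit 46508551867) (.one (nat_lit 1062657) .nil))))))),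
   .two (nat_lit 183912890563) (nat_lit 10336863591) (.two (nat_lit 185035915330) (nat_lit 156465367551) (.two (nat_lit 4194319) (nat_lit 19612570602) (.two (nat_lit 4194312) (nat_lit 11477720911) (.two (nat_lit 4194308) (nat_lit 1291855196) (.two (nat_lit 50331649) (nat_lit 4028640532) (.two (nat_lit 2097152) (nat_lit 1279275223) (.one (nat_lit 102774242) .nil))))))),
   .two (nat_lit 183912890563) (nat_lit 10336863591) (.two (nat_lit 185035915330) (nat_lit 156465367551) (.two (nat_lit 4194319) (nat_lit 19612570602) (.two (nat_lit 4194312) (nat_lit 11477720911) (.two (nat_lit 4194308) (nat_lit 1291855196) (.two (nat_lit 50331649) (nat_lit 4028640532) (.two (nat_lit 2097152) (nat_lit 1279275223) (.one (nat_lit 2110953) .nil))))))),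
   .two (nat_lit 12117344451) (nat_lit 169871496) (.two (nat_lit 11476664385) (nat_lit 13191088656) (.two (nat_lit 276824079) (nat_lit 28691141599) (.two (nat_lit 8388616) (nat_lit 13221501539) (.two (nat_lit 8388612) (nat_lit 337651036) (.two (nat_lit 8388609) (nat_lit 673196656) (.two (nat_lit 1048576) (nat_lit 8401355) (.one (nat_lit 11618235871) .nil))))))),
   .two (nat_lit 13195280579) (nat_lit 46474986341) (.two (nat_lit 3527409760) (nat_lit 156372043037) (.two (nat_lit 4194369) (nat_lit 4034925461) (.two (nat_lit 4194319) (nat_lit 11618227310) (.two (nat_lit 4194312) (nat_lit 1411390039) (.two (nat_lit 4194308) (nat_lit 780150109) (.two (nat_lit 2097153) (nat_lit 21814585805) (.two (nat_lit 2097152) (nat_lit 205533482) (.one (nat_lit 1062658) .nil)))))))),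
   .two (nat_lit 8388803) (nat_lit 9902753097) (.two (nat_lit 16777283) (nat_lit 9768535581) (.two (nat_lit 8388623) (nat_lit 1913656359) (.two (nat_lit 8388616) (nat_lit 2416974478) (.two (nat_lit 156367847429) (nat_lit 2416977244) (.two (nat_lit 620756993) (nat_lit 11580484105) (.two (nat_lit 1048576) (nat_lit 2990551202) (.one (nat_lit 1062134) .nil))))))),
   .two (nat_lit 21777875139) (nat_lit 46984594784) (.two (nat_lit 4034920513) (nat_lit 158146234883) (.two (nat_lit 158083317775) (nat_lit 1343230979) (.two (nat_lit 2902458376) (nat_lit 4027587151) (.two (nat_lit 285212677) (nat_lit 20740842842) (.two (nat_lit 16777217) (nat_lit 780151245) (.two (nat_lit 8388608) (nat_lit 11543785878) (.one (nat_lit 1062659) .nil))))))),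
   .two (nat_lit 272629955) (nat_lit 1325401457) (.two (nat_lit 16777281) (nat_lit 184989780495) (.two (nat_lit 3539992591) (nat_lit 1312821134) (.two (nat_lit 16777224) (nat_lit 4598012518) (.two (nat_lit 165532401669) (nat_lit 9768545229) (.two (nat_lit 47555018757) (nat_lit 174688574325) (.two (nat_lit 8388609) (nat_lit 159250394388) (.two (nat_lit 1048576) (nat_lit 176173160) (.one (nat_lit 1062660) .nil)))))))),
   .two (nat_lit 4601151683) (nat_lit 183846831433) (.two (nat_lit 9781116995) (nat_lit 10003419844) (.two (nat_lit 4194319) (nat_lit 20705186778) (.two (nat_lit 4194312) (nat_lit 270539430) (.two (nat_lit 4194308) (nat_lit 889202764) (.two (nat_lit 9766436865) (nat_lit 742402558) (.two (nat_lit 1048576) (nat_lit 708849894) (.one (nat_lit 2110956) .nil))))))),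
   .two (nat_lit 8388803) (nat_lit 183947494769) (.two (nat_lit 46510637121) (nat_lit 2953841159) (.two (nat_lit 176160783) (nat_lit 157035796992) (.two (nat_lit 176160776) (nat_lit 3524271853) (.two (nat_lit 47550824453) (nat_lit 3458213468) (.two (nat_lit 605028353) (nat_lit 158079134157) (.two (nat_lit 1048576) (nat_lit 171979157) (.one (nat_lit 2111237) .nil))))))),
   .two (nat_lit 10003415643) (nat_lit 158653743973) (.two (nat_lit 3525312707) (nat_lit 3460301303) (.two (nat_lit 41943107) (nat_lit 158176643597) (.two (nat_lit 713031695) (nat_lit 1376785525) (.two (nat_lit 713031688) (nat_lit 183913945761) (.two (nat_lit 612368389) (nat_lit 4030731688) (.two (nat_lit 10506731525) (nat_lit 21207456646) (.two (nat_lit 41943041) (nat_lit 138422964) (.two (nat_lit 8388608) (nat_lit 3458216183) (.one (nat_lit 2111238) .nil))))))))),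
   .two (nat_lit 41943235) (nat_lit 183848928099) (.two (nat_lit 8388672) (nat_lit 159217878557) (.two (nat_lit 8388623) (nat_lit 1914703758) (.two (nat_lit 8388616) (nat_lit 46407884565) (.two (nat_lit 8388612) (nat_lit 11010057565) (.two (nat_lit 8388609) (nat_lit 156567087550) (.two (nat_lit 8388608) (nat_lit 21812489927) (.one (nat_lit 2111239) .nil))))))),
   .two (nat_lit 41943235) (nat_lit 1782580534) (.two (nat_lit 8388672) (nat_lit 46477085200) (.two (nat_lit 184549391) (nat_lit 9799995274) (.two (nat_lit 184549384) (nat_lit 272636629) (.two (nat_lit 8388612) (nat_lit 318772658) (.two (nat_lit 285212677) (nat_lit 4638907264) (.two (nat_lit 606076929) (nat_lit 8400472) (.two (nat_lit 2097152) (nat_lit 166211890879) (.one (nat_lit 4208392) .nil)))))))),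
   .two (nat_lit 183846830438) (nat_lit 165532402530) (.two (nat_lit 183845781569) (nat_lit 9772730883) (.two (nat_lit 4613734415) (nat_lit 183953790094) (.two (nat_lit 46407876616) (nat_lit 109058721) (.two (nat_lit 34603013) (nat_lit 285221025) (.two (nat_lit 2097153) (nat_lit 156566039000) (.two (nat_lit 1048576) (nat_lit 10376720059) (.one (nat_lit 16791305) .nil))))))),
   .two (nat_lit 184419353886) (nat_lit 21818770738) (.two (nat_lit 13195280579) (nat_lit 46510640561) (.two (nat_lit 11479810114) (nat_lit 184423552014) (.two (nat_lit 176160783) (nat_lit 184989784694) (.two (nat_lit 8388616) (nat_lit 4203513) (.two (nat_lit 8388612) (nat_lit 4205551) (.two (nat_lit 9768534017) (nat_lit 20644376596) (.two (nat_lit 4194304) (nat_lit 8401814) (.one (nat_lit 9969874419) .nil)))))))),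
   .two (nat_lit 156365751139) (nat_lit 12620662128) (.two (nat_lit 16777411) (nat_lit 156465367587) (.two (nat_lit 16777280) (nat_lit 2317358058) (.two (nat_lit 721420303) (nat_lit 9967770225) (.two (nat_lit 8388616) (nat_lit 28790758256) (.two (nat_lit 41943045) (nat_lit 706750135) (.two (nat_lit 34603009) (nat_lit 2109525) (.two (nat_lit 1048576) (nat_lit 2110359) (.one (nat_lit 1062480) .nil)))))))),
   .two (nat_lit 10001318754) (nat_lit 156372043293) (.two (nat_lit 4194369) (nat_lit 20745031560) (.two (nat_lit 4194319) (nat_lit 166237051481) (.two (nat_lit 4194312) (nat_lit 13228843959) (.two (nat_lit 2097157) (nat_lit 4205048) (.two (nat_lit 605028353) (nat_lit 9766449194) (.two (nat_lit 1048576) (nat_lit 2110360) (.one (nat_lit 1062732) .nil))))))),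
   .two (nat_lit 46414168931) (nat_lit 9933161822) (.two (nat_lit 9948889446) (nat_lit 1052094) (.two (nat_lit 276824130) (nat_lit 285218103) (.two (nat_lit 276824072) (nat_lit 19128133294) (.two (nat_lit 2097153) (nat_lit 806366892) (.two (nat_lit 1048576) (nat_lit 2110361) (.one (nat_lit 1062481) .nil)))))),
   .two (nat_lit 4605347101) (nat_lit 687867224) (.two (nat_lit 10015998147) (nat_lit 184993974810) (.two (nat_lit 10506731587) (nat_lit 166237048712) (.two (nat_lit 8388623) (nat_lit 318773868) (.two (nat_lit 156971827208) (nat_lit 2424316900) (.two (nat_lit 8388612) (nat_lit 21814585008) (.two (nat_lit 41943041) (nat_lit 11614039718) (.two (nat_lit 4194304) (nat_lit 8401822) (.one (nat_lit 4208215) .nil)))))))),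
   .two (nat_lit 47588574051) (nat_lit 20638074176) (.two (nat_lit 158144135363) (nat_lit 9798945312) (.two (nat_lit 1847590977) (nat_lit 12624859018) (.two (nat_lit 276824079) (nat_lit 840964692) (.two (nat_lit 8388616) (nat_lit 1057789) (.two (nat_lit 13187940357) (nat_lit 8399856) (.two (nat_lit 156364701697) (nat_lit 9936318486) (.two (nat_lit 1048576) (nat_lit 8401823) (.one (nat_lit 10007623162) .nil)))))))),
   .two (nat_lit 303039777) (nat_lit 28793898291) (.two (nat_lit 37313577155) (nat_lit 47582284312) (.two (nat_lit 166132187203) (nat_lit 10537145339) (.two (nat_lit 2887778319) (nat_lit 1413487179) (.two (nat_lit 2887778312) (nat_lit 205530100) (.two (nat_lit 2887778308) (nat_lit 742403724) (.two (nat_lit 2097152) (nat_lit 11479823187) (.one (nat_lit 1062733) .nil))))))),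
   .two (nat_lit 11510219619) (nat_lit 11513366046) (.two (nat_lit 4194369) (nat_lit 174701154190) (.two (nat_lit 169869327) (nat_lit 184431942288) (.two (nat_lit 4194312) (nat_lit 16787329) (.two (nat_lit 2097157) (nat_lit 4205553) (.two (nat_lit 2097153) (nat_lit 1060952) (.two (nat_lit 1048576) (nat_lit 2110370) (.one (nat_lit 1062734) .nil))))))),
   .two (nat_lit 166245434210) (nat_lit 10907288868) (.two (nat_lit 11626611045) (nat_lit 159224172420) (.two (nat_lit 8388623) (nat_lit 10016004743) (.two (nat_lit 47555018760) (nat_lit 218112989) (.two (nat_lit 3458203653) (nat_lit 889203185) (.two (nat_lit 2097153) (nat_lit 8400566) (.two (nat_lit 2097152) (nat_lit 8401827) (.one (nat_lit 2111311) .nil))))))),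
   .two (nat_lit 251659560) (nat_lit 673187153) (.two (nat_lit 3003122021) (nat_lit 19094571559) (.two (nat_lit 4613734465) (nat_lit 8394566) (.two (nat_lit 13203669007) (nat_lit 165525068361) (.two (nat_lit 12054429704) (nat_lit 184989787097) (.two (nat_lit 605028357) (nat_lit 2107901) (.two (nat_lit 9766436865) (nat_lit 10376720444) (.two (nat_lit 4194304) (nat_lit 1062234) (.one (nat_lit 2111312) .nil)))))))),
   .two (nat_lit 166132188003) (nat_lit 10504635755) (.two (nat_lit 3525312707) (nat_lit 184989781908) (.two (nat_lit 20644364303) (nat_lit 185021240635) (.two (nat_lit 2887778312) (nat_lit 11551122405) (.two (nat_lit 157038936069) (nat_lit 158077037050) (.two (nat_lit 156367847425) (nat_lit 46407888502) (.two (nat_lit 1048576) (nat_lit 209728392) (.one (nat_lit 8402769) .nil))))))),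
   .two (nat_lit 1212154722) (nat_lit 1049939) (.two (nat_lit 3525312870) (nat_lit 158146234914) (.two (nat_lit 20638072898) (nat_lit 46977258458) (.two (nat_lit 19532873743) (nat_lit 37314632307) (.two (nat_lit 156968681480) (nat_lit 46984602570) (.two (nat_lit 11546918917) (nat_lit 47581243850) (.two (nat_lit 37748737) (nat_lit 605040303) (.two (nat_lit 1048576) (nat_lit 2110375) (.one (nat_lit 2111314) .nil)))))))),
   .two (nat_lit 239076195) (nat_lit 2350908748) (.two (nat_lit 165525061989) (nat_lit 46414169630) (.two (nat_lit 47563407426) (nat_lit 158144140256) (.two (nat_lit 28086108175) (nat_lit 1377838041) (.two (nat_lit 2956984325) (nat_lit 166237054637) (.two (nat_lit 4194305) (nat_lit 269496380) (.two (nat_lit 1048576) (nat_lit 2110376) (.one (nat_lit 1062739) .nil))))))),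
   .two (nat_lit 46414168931) (nat_lit 1950352739) (.two (nat_lit 1426063717) (nat_lit 10443820951) (.two (nat_lit 156367847439) (nat_lit 1761614408) (.two (nat_lit 10338959368) (nat_lit 47555027957) (.two (nat_lit 2889875461) (nat_lit 10376718002) (.two (nat_lit 4194305) (nat_lit 28798103205) (.two (nat_lit 16777216) (nat_lit 11551126440) (.one (nat_lit 4208227) .nil))))))),
   .two (nat_lit 205521763) (nat_lit 4043310379) (.two (nat_lit 11559502019) (nat_lit 1276119553) (.two (nat_lit 101711981) (nat_lit 46508543885) (.two (nat_lit 101711887) (nat_lit 165526116978) (.two (nat_lit 10369368072) (nat_lit 2365596637) (.two (nat_lit 2097157) (nat_lit 4205554) (.two (nat_lit 2097153) (nat_lit 4207195) (.two (nat_lit 1048576) (nat_lit 2110811) (.one (nat_lit 2111316) .nil)))))))),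
   .two (nat_lit 2969568098) (nat_lit 12117345612) (.two (nat_lit 3527410022) (nat_lit 606079529) (.two (nat_lit 11551113282) (nat_lit 11593061693) (.two (nat_lit 9867100168) (nat_lit 746596018) (.two (nat_lit 2097153) (nat_lit 4206255) (.two (nat_lit 4194304) (nat_lit 337654639) (.one (nat_lit 2111317) .nil)))))),
   .two (nat_lit 876610403) (nat_lit 183920231724) (.two (nat_lit 47555018947) (nat_lit 10001320449) (.two (nat_lit 3021996097) (nat_lit 185002364807) (.two (nat_lit 4194319) (nat_lit 10437533152) (.two (nat_lit 4194312) (nat_lit 4028638131) (.two (nat_lit 4194308) (nat_lit 2108403) (.two (nat_lit 4194305) (nat_lit 1061468) (.two (nat_lit 1048576) (nat_lit 2110377) (.one (nat_lit 1062742) .nil)))))))),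
   .two (nat_lit 606077795) (nat_lit 1291846941) (.two (nat_lit 47596961987) (nat_lit 4198739) (.two (nat_lit 159224168515) (nat_lit 11477718027) (.two (nat_lit 2954887183) (nat_lit 28790758019) (.two (nat_lit 2954887176) (nat_lit 339747817) (.two (nat_lit 46407876612) (nat_lit 8399860) (.two (nat_lit 34603009) (nat_lit 2109111) (.two (nat_lit 1048576) (nat_lit 2110812) (.one (nat_lit 2111319) .nil)))))))),
   .two (nat_lit 11014243616) (nat_lit 9934210368) (.two (nat_lit 2988441795) (nat_lit 2987396529) (.two (nat_lit 3464495212) (nat_lit 873467782) (.two (nat_lit 721420303) (nat_lit 9967770225) (.two (nat_lit 8388616) (nat_lit 4601159835) (.two (nat_lit 8388613) (nat_lit 2108405) (.two (nat_lit 612368385) (nat_lit 11513377679) (.one (nat_lit 1062744) .nil))))))),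
   .two (nat_lit 183949591837) (nat_lit 9940501859) (.two (nat_lit 20740833882) (nat_lit 10538191358) (.two (nat_lit 12054429762) (nat_lit 2103111) (.two (nat_lit 3525312527) (nat_lit 174692768398) (.two (nat_lit 3525312520) (nat_lit 4204418) (.two (nat_lit 47555018757) (nat_lit 4205558) (.two (nat_lit 9766436865) (nat_lit 4605358161) (.two (nat_lit 2097152) (nat_lit 4207965) (.one (nat_lit 2111321) .nil)))))))),
   .two (nat_lit 183853122403) (nat_lit 158077027170) (.two (nat_lit 21793603941) (nat_lit 612370974) (.two (nat_lit 183853121601) (nat_lit 10538192780) (.two (nat_lit 4601151503) (nat_lit 9934215841) (.two (nat_lit 2969567240) (nat_lit 2894078963) (.two (nat_lit 746586117) (nat_lit 2353016487) (.two (nat_lit 2097152) (nat_lit 4207966) (.one (nat_lit 8402778) .nil))))))),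
   .two (nat_lit 19532874595) (nat_lit 1050643) (.two (nat_lit 11010048195) (nat_lit 1053012) (.two (nat_lit 4638900289) (nat_lit 157038940036) (.two (nat_lit 2887778319) (nat_lit 1384127112) (.two (nat_lit 606076936) (nat_lit 1057792) (.two (nat_lit 2097157) (nat_lit 4205559) (.two (nat_lit 9765388289) (nat_lit 12129939503) (.two (nat_lit 16777216) (nat_lit 1061802) (.one (nat_lit 1062747) .nil)))))))),
   .two (nat_lit 12129928034) (nat_lit 166132188452) (.two (nat_lit 21214789989) (nat_lit 19027462655) (.two (nat_lit 184989778035) (nat_lit 1753223044) (.two (nat_lit 37748751) (nat_lit 21793610363) (.two (nat_lit 47548727304) (nat_lit 171975646) (.two (nat_lit 169869316) (nat_lit 171977205) (.two (nat_lit 2097153) (nat_lit 16789594) (.two (nat_lit 16777216) (nat_lit 4207967) (.one (nat_lit 4208476) .nil)))))))),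
   .two (nat_lit 9982444387) (nat_lit 28758246941) (.two (nat_lit 47563407425) (nat_lit 10001322965) (.two (nat_lit 620757007) (nat_lit 11611937384) (.two (nat_lit 205520904) (nat_lit 2317362102) (.two (nat_lit 46422556677) (nat_lit 10370427339) (.two (nat_lit 9766436865) (nat_lit 12617527380) (.two (nat_lit 1048576) (nat_lit 2110382) (.one (nat_lit 2111325) .nil))))))),
   .two (nat_lit 310379363) (nat_lit 4195706) (.two (nat_lit 13195280579) (nat_lit 46409977256) (.two (nat_lit 4601151555) (nat_lit 69209997) (.two (nat_lit 813694991) (nat_lit 809507401) (.two (nat_lit 41943048) (nat_lit 2106369) (.two (nat_lit 8388612) (nat_lit 2108408) (.two (nat_lit 4194305) (nat_lit 2109531) (.two (nat_lit 4194304) (nat_lit 2110816) (.one (nat_lit 8402782) .nil)))))))),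
   .two (nat_lit 3458204514) (nat_lit 21818770808) (.two (nat_lit 1417675367) (nat_lit 1745880606) (.two (nat_lit 612368499) (nat_lit 10370421729) (.two (nat_lit 11543773199) (nat_lit 1950358158) (.two (nat_lit 2887778312) (nat_lit 21814583435) (.two (nat_lit 10504634373) (nat_lit 156532483757) (.two (nat_lit 2097153) (nat_lit 4207197) (.two (nat_lit 1048576) (nat_lit 4207537) (.one (nat_lit 1062751) .nil)))))))),
   .two (nat_lit 2969568098) (nat_lit 1846543720) (.two (nat_lit 343933285) (nat_lit 71306676) (.two (nat_lit 176160835) (nat_lit 183861514121) (.two (nat_lit 8388623) (nat_lit 12150905447) (.two (nat_lit 276824072) (nat_lit 183949599705) (.two (nat_lit 9933160453) (nat_lit 28798101957) (.two (nat_lit 4194305) (nat_lit 11543785547) (.two (nat_lit 1048576) (nat_lit 8401844) (.one (nat_lit 1062752) .nil)))))))),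
   .two (nat_lit 83886946) (nat_lit 158646404430) (.two (nat_lit 9940500837) (nat_lit 620759552) (.two (nat_lit 2961178689) (nat_lit 11593061394) (.two (nat_lit 721420303) (nat_lit 18925754956) (.two (nat_lit 721420296) (nat_lit 21785224143) (.two (nat_lit 822083589) (nat_lit 11577338330) (.two (nat_lit 4194305) (nat_lit 16789597) (.two (nat_lit 1048576) (nat_lit 4207541) (.one (nat_lit 1062753) .nil)))))))),
   .two (nat_lit 1753219938) (nat_lit 13191087391) (.two (nat_lit 4601151683) (nat_lit 1753220637) (.two (nat_lit 339738732) (nat_lit 9772732299) (.two (nat_lit 4194319) (nat_lit 813704136) (.two (nat_lit 605028357) (nat_lit 813704888) (.two (nat_lit 34603009) (nat_lit 4601163389) (.two (nat_lit 1048576) (nat_lit 4207542) (.one (nat_lit 156573382153) .nil))))))),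
   .two (nat_lit 1291846498) (nat_lit 839910739) (.two (nat_lit 2349859174) (nat_lit 4638902825) (.two (nat_lit 2961178689) (nat_lit 150998924) (.two (nat_lit 18928893967) (nat_lit 166203497105) (.two (nat_lit 713031688) (nat_lit 46507500547) (.two (nat_lit 13195280389) (nat_lit 806365642) (.two (nat_lit 37748737) (nat_lit 2953850948) (.two (nat_lit 1048576) (nat_lit 855651098) (.one (nat_lit 4208238) .nil)))))))),
   .two (nat_lit 10504635234) (nat_lit 183916038685) (.two (nat_lit 3525312578) (nat_lit 2894073747) (.two (nat_lit 18928893967) (nat_lit 10336868937) (.two (nat_lit 176160776) (nat_lit 4204419) (.two (nat_lit 69206021) (nat_lit 2994743804) (.two (nat_lit 2097153) (nat_lit 1212165756) (.two (nat_lit 16777216) (nat_lit 11007964762) .nil)))))),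
   .two (nat_lit 1291846498) (nat_lit 269485350) (.two (nat_lit 269484390) (nat_lit 2365590049) (.two (nat_lit 276824129) (nat_lit 156984414087) (.two (nat_lit 2887778319) (nat_lit 46523226747) (.two (nat_lit 1913651208) (nat_lit 156466422760) (.two (nat_lit 620756997) (nat_lit 1059833) (.two (nat_lit 34603009) (nat_lit 19128135705) (.two (nat_lit 16777216) (nat_lit 1062241) (.one (nat_lit 1062754) .nil)))))))),
   .two (nat_lit 184993973539) (nat_lit 304088418) (.two (nat_lit 11626611045) (nat_lit 21785218948) (.two (nat_lit 41943055) (nat_lit 10016004743) (.two (nat_lit 13195280392) (nat_lit 166130099173) (.two (nat_lit 620756997) (nat_lit 47548738038) (.two (nat_lit 620756993) (nat_lit 606090020) (.one (nat_lit 2111331) .nil)))))),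
   .two (nat_lit 46523220835) (nat_lit 19599984158) (.two (nat_lit 28693233730) (nat_lit 184555333) (.two (nat_lit 183848927247) (nat_lit 41949802) (.two (nat_lit 11479810056) (nat_lit 10376718002) (.two (nat_lit 8388609) (nat_lit 2956997475) (.one (nat_lit 4208484) .nil))))),
   .two (nat_lit 47596962658) (nat_lit 174686471011) (.two (nat_lit 166196150467) (nat_lit 184431938087) (.two (nat_lit 10504634435) (nat_lit 183946448787) (.two (nat_lit 166130089999) (nat_lit 156581763706) (.two (nat_lit 9866051592) (nat_lit 184987689913) (.two (nat_lit 10504634373) (nat_lit 1325410783) (.two (nat_lit 605028353) (nat_lit 2954899107) (.two (nat_lit 2097152) (nat_lit 1795174918) (.one (nat_lit 16791397) .nil)))))))),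
   .two (nat_lit 11593057123) (nat_lit 158646404638) (.two (nat_lit 1310720111) (nat_lit 37752727) (.two (nat_lit 165526110223) (nat_lit 1055324) (.two (nat_lit 1276117000) (nat_lit 46523228314) (.two (nat_lit 708837381) (nat_lit 806364850) (.two (nat_lit 9766436865) (nat_lit 19093532341) (.two (nat_lit 1048576) (nat_lit 4207544) (.one (nat_lit 4208486) .nil))))))),
   .two (nat_lit 183845782371) (nat_lit 8390676) (.two (nat_lit 185002361189) (nat_lit 9906948625) (.two (nat_lit 3464495169) (nat_lit 156364705670) (.two (nat_lit 156367847439) (nat_lit 9933165884) (.two (nat_lit 1276117000) (nat_lit 612378290) (.two (nat_lit 2097153) (nat_lit 1276128942) (.two (nat_lit 4194304) (nat_lit 1277178701) (.one (nat_lit 1062759) .nil))))))),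
   .two (nat_lit 1417675618) (nat_lit 19530777968) (.two (nat_lit 28757196995) (nat_lit 166230755839) (.two (nat_lit 780140611) (nat_lit 2920289262) (.two (nat_lit 46407876623) (nat_lit 157043137134) (.two (nat_lit 4605345800) (nat_lit 1057797) (.two (nat_lit 10336862213) (nat_lit 11517569500) (.two (nat_lit 612368385) (nat_lit 166196162566) (.two (nat_lit 1048576) (nat_lit 8402274) (.one (nat_lit 1062760) .nil)))))))),
   .two (nat_lit 1795162978) (nat_lit 11584669024) (.two (nat_lit 807403878) (nat_lit 156380432937) (.two (nat_lit 20719861826) (nat_lit 2350912533) (.two (nat_lit 10504634383) (nat_lit 873469244) (.two (nat_lit 705691656) (nat_lit 37757882) (.two (nat_lit 2954887173) (nat_lit 3457165802) (.two (nat_lit 620756993) (nat_lit 706752164) (.two (nat_lit 2097152) (nat_lit 156367860550) (.one (nat_lit 4208244) .nil)))))))),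
   .two (nat_lit 2954888034) (nat_lit 608175449) (.two (nat_lit 11543773379) (nat_lit 37249615390) (.two (nat_lit 11543773248) (nat_lit 35655572) (.two (nat_lit 739246095) (nat_lit 19134421663) (.two (nat_lit 46414168072) (nat_lit 19128132592) (.two (nat_lit 3525312517) (nat_lit 19596846770) (.two (nat_lit 8388609) (nat_lit 2109534) (.two (nat_lit 1048576) (nat_lit 2110819) (.one (nat_lit 2111337) .nil)))))))),
   .two (nat_lit 19599983458) (nat_lit 19127076177) (.two (nat_lit 12617515615) (nat_lit 185035916830) (.two (nat_lit 183912890478) (nat_lit 47584382861) (.two (nat_lit 21793603599) (nat_lit 1209015776) (.two (nat_lit 739246088) (nat_lit 608183986) (.two (nat_lit 34603009) (nat_lit 2956996257) (.two (nat_lit 4194304) (nat_lit 269497221) (.one (nat_lit 4208490) .nil))))))),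
   .two (nat_lit 19142804323) (nat_lit 4196373) (.two (nat_lit 2923430246) (nat_lit 28101840788) (.two (nat_lit 2887778319) (nat_lit 9768540783) (.two (nat_lit 739246088) (nat_lit 166232859600) (.two (nat_lit 270532613) (nat_lit 4205562) (.two (nat_lit 9765388289) (nat_lit 166232863595) (.one (nat_lit 1062763) .nil)))))),
   .two (nat_lit 10940842850) (nat_lit 28093449591) (.two (nat_lit 2994733251) (nat_lit 20705185692) (.two (nat_lit 19530776591) (nat_lit 71309902) (.two (nat_lit 184423546888) (nat_lit 20640179202) (.two (nat_lit 157036838917) (nat_lit 11546928817) (.two (nat_lit 9766436865) (nat_lit 156367859355) (.two (nat_lit 1048576) (nat_lit 874526268) .nil)))))),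
   .two (nat_lit 156466414435) (nat_lit 20704134439) (.two (nat_lit 19109249381) (nat_lit 1779436070) (.two (nat_lit 47563407477) (nat_lit 1283461022) (.two (nat_lit 158075977743) (nat_lit 606083687) (.two (nat_lit 813694984) (nat_lit 1392518107) (.two (nat_lit 209715205) (nat_lit 47548738030) (.two (nat_lit 16777217) (nat_lit 1061470) (.two (nat_lit 1048576) (nat_lit 16790884) (.one (nat_lit 1062764) .nil)))))))),
   .two (nat_lit 28806480739) (nat_lit 21811430737) (.two (nat_lit 46409974117) (nat_lit 156984412699) (.two (nat_lit 1847590977) (nat_lit 183912894348) (.two (nat_lit 21777874959) (nat_lit 11477719652) (.two (nat_lit 705691656) (nat_lit 13191095985) (.two (nat_lit 2097153) (nat_lit 1060515) (.two (nat_lit 1048576) (nat_lit 4207973) (.one (nat_lit 4208493) .nil))))))),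
   .two (nat_lit 3539993443) (nat_lit 2353005870) (.two (nat_lit 2954887363) (nat_lit 612371900) (.two (nat_lit 2954887232) (nat_lit 1178603412) (.two (nat_lit 9781116943) (nat_lit 47581239913) (.two (nat_lit 606076936) (nat_lit 1057798) (.two (nat_lit 184989777925) (nat_lit 2432707058) (.two (nat_lit 16777217) (nat_lit 2954899538) (.two (nat_lit 2097152) (nat_lit 16790886) (.one (nat_lit 1062766) .nil)))))))),
   .two (nat_lit 174686471453) (nat_lit 156535620903) (.two (nat_lit 156372041923) (nat_lit 2987396530) (.two (nat_lit 183912890433) (nat_lit 46978307079) (.two (nat_lit 157038936079) (nat_lit 10000276049) (.two (nat_lit 46984593416) (nat_lit 156468519941) (.two (nat_lit 4194308) (nat_lit 1059835) (.two (nat_lit 4194305) (nat_lit 1060959) (.two (nat_lit 1048576) (nat_lit 4207975) (.one (nat_lit 1062767) .nil)))))))),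
   .two (nat_lit 19127075683) (nat_lit 2923431198) (.two (nat_lit 10504634725) (nat_lit 183848929821) (.two (nat_lit 276824130) (nat_lit 4200264) (.two (nat_lit 183853121551) (nat_lit 12618570342) (.two (nat_lit 276824072) (nat_lit 2106375) (.two (nat_lit 1344274437) (nat_lit 183853132767) (.two (nat_lit 606076929) (nat_lit 8400972) (.two (nat_lit 1048576) (nat_lit 2110824) (.one (nat_lit 809514786) .nil)))))))),
   .two (nat_lit 12129928034) (nat_lit 843056416) (.two (nat_lit 754975077) (nat_lit 28791802406) (.two (nat_lit 3527409729) (nat_lit 218108945) (.two (nat_lit 3527409679) (nat_lit 3028294226) (.two (nat_lit 3527409672) (nat_lit 8397832) (.two (nat_lit 2887778308) (nat_lit 8399868) (.two (nat_lit 2097153) (nat_lit 16790111) (.two (nat_lit 16777216) (nat_lit 1749037952) (.one (nat_lit 16791408) .nil)))))))),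
   .two (nat_lit 135267170) (nat_lit 10015999336) (.two (nat_lit 12620661094) (nat_lit 135267869) (.two (nat_lit 218103875) (nat_lit 739251193) (.two (nat_lit 285212687) (nat_lit 71308604) (.two (nat_lit 705691656) (nat_lit 12129935495) (.two (nat_lit 270532613) (nat_lit 11546928824) (.two (nat_lit 50331649) (nat_lit 104869492) (.two (nat_lit 16777216) (nat_lit 37249627060) (.one (nat_lit 1062519) .nil)))))))),
   .two (nat_lit 12117345123) (nat_lit 28086110757) (.two (nat_lit 285212736) (nat_lit 37316727823) (.two (nat_lit 612368399) (nat_lit 28772933778) (.two (nat_lit 28757196805) (nat_lit 10909395392) (.two (nat_lit 37748737) (nat_lit 705703599) (.two (nat_lit 1048576) (nat_lit 639644480) (.one (nat_lit 8402801) .nil)))))),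
   .two (nat_lit 11479810914) (nat_lit 8390678) (.two (nat_lit 47548727491) (nat_lit 343935486) (.two (nat_lit 13224640579) (nat_lit 1410338711) (.two (nat_lit 11479810063) (nat_lit 68164236) (.two (nat_lit 20638072840) (nat_lit 75506683) (.two (nat_lit 21778923525) (nat_lit 75508220) (.two (nat_lit 34603009) (nat_lit 18928905876) (.two (nat_lit 1048576) (nat_lit 9802102351) .nil))))))),
   .two (nat_lit 3021996899) (nat_lit 12121539918) (.two (nat_lit 37749093) (nat_lit 11559503390) (.two (nat_lit 11610882113) (nat_lit 1417681560) (.two (nat_lit 809500680) (nat_lit 184993981447) (.two (nat_lit 1176502277) (nat_lit 10506743458) (.two (nat_lit 1048576) (nat_lit 4207977) (.one (nat_lit 4208498) .nil)))))),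
   .two (nat_lit 156567077730) (nat_lit 3560965459) (.two (nat_lit 47596961987) (nat_lit 46474988050) (.two (nat_lit 276824130) (nat_lit 4613738386) (.two (nat_lit 276824079) (nat_lit 1413487213) (.two (nat_lit 620757000) (nat_lit 3464505813) (.two (nat_lit 2097153) (nat_lit 3028299435) (.two (nat_lit 1048576) (nat_lit 8401855) (.one (nat_lit 1062771) .nil))))))),
   .two (nat_lit 47582282594) (nat_lit 1849688931) (.two (nat_lit 158158815589) (nat_lit 12048140825) (.two (nat_lit 20719861825) (nat_lit 9900659669) (.two (nat_lit 37748751) (nat_lit 21827164790) (.two (nat_lit 158158815240) (nat_lit 20638082055) (.two (nat_lit 12062818309) (nat_lit 11484015049) (.two (nat_lit 2097153) (nat_lit 19142815808) (.two (nat_lit 2097152) (nat_lit 8402282) (.one (nat_lit 4208500) .nil)))))))),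
   .two (nat_lit 47555020071) (nat_lit 16778620) (.two (nat_lit 50331843) (nat_lit 8392128) (.two (nat_lit 16777280) (nat_lit 18933092230) (.two (nat_lit 16777231) (nat_lit 3531610773) (.two (nat_lit 16777224) (nat_lit 8397835) (.two (nat_lit 16777220) (nat_lit 713042410) (.two (nat_lit 8388609) (nat_lit 16789180) (.two (nat_lit 8388608) (nat_lit 16790466) (.one (nat_lit 8402486) .nil)))))))),
   .two (nat_lit 673186658) (nat_lit 1920992567) (.two (nat_lit 159224168643) (nat_lit 1914702357) (.two (nat_lit 47548727363) (nat_lit 2894075198) (.two (nat_lit 10506731528) (nat_lit 8397797) (.two (nat_lit 1178599429) (nat_lit 169880056) (.two (nat_lit 4194305) (nat_lit 2109117) (.two (nat_lit 4194304) (nat_lit 2110403) (.one (nat_lit 2111349) .nil))))))),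
   .two (nat_lit 10343154530) (nat_lit 19042141485) (.two (nat_lit 156581757285) (nat_lit 9802092422) (.two (nat_lit 2902458383) (nat_lit 4601160686) (.two (nat_lit 16777221) (nat_lit 608184773) (.two (nat_lit 8388609) (nat_lit 1782591113) (.two (nat_lit 4194304) (nat_lit 8401862) (.one (nat_lit 4208185) .nil)))))),
   .two (nat_lit 158176642341) (nat_lit 2902459771) (.two (nat_lit 185035915459) (nat_lit 19596840363) (.two (nat_lit 739246190) (nat_lit 83890051) (.two (nat_lit 101711887) (nat_lit 3539998013) (.two (nat_lit 11476664328) (nat_lit 13237232620) (.two (nat_lit 34603013) (nat_lit 16788477) (.two (nat_lit 2097153) (nat_lit 185020198998) (.two (nat_lit 2097152) (nat_lit 1061831) (.one (nat_lit 2111350) .nil)))))))),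
   .two (nat_lit 13195281693) (nat_lit 1950352690) (.two (nat_lit 13195280579) (nat_lit 37316726183) (.two (nat_lit 4605345859) (nat_lit 13224645636) (.two (nat_lit 185027526680) (nat_lit 165528214134) (.two (nat_lit 1753219080) (nat_lit 1950360569) (.two (nat_lit 183848927237) (nat_lit 8399870) (.two (nat_lit 156367847425) (nat_lit 142619542) (.one (nat_lit 4208177) .nil))))))),
   .two (nat_lit 754976035) (nat_lit 19096667514) (.two (nat_lit 2889875813) (nat_lit 11559503390) (.two (nat_lit 11543773294) (nat_lit 47596966914) (.two (nat_lit 9768534031) (nat_lit 2105754) (.two (nat_lit 705691656) (nat_lit 4204420) (.two (nat_lit 806354949) (nat_lit 4205567) (.two (nat_lit 2097153) (nat_lit 1061472) (.two (nat_lit 2097152) (nat_lit 1062251) (.one (nat_lit 2111351) .nil)))))))),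
   .two (nat_lit 19142804322) (nat_lit 46510638365) (.two (nat_lit 4634706115) (nat_lit 620759576) (.two (nat_lit 11492393025) (nat_lit 156364705677) (.two (nat_lit 11492392975) (nat_lit 3557825149) (.two (nat_lit 721420296) (nat_lit 1057806) (.two (nat_lit 50331653) (nat_lit 4205062) (.two (nat_lit 50331649) (nat_lit 1060960) (.two (nat_lit 1048576) (nat_lit 822096792) (.one (nat_lit 16791416) .nil)))))))),
   .two (nat_lit 75498338) (nat_lit 174701151570) (.two (nat_lit 272629955) (nat_lit 11584670224) (.two (nat_lit 11492393025) (nat_lit 19529731991) (.two (nat_lit 721420303) (nat_lit 9899612800) (.two (nat_lit 4194312) (nat_lit 4647298053) (.two (nat_lit 654311429) (nat_lit 47584389637) (.two (nat_lit 620756993) (nat_lit 158146244638) (.two (nat_lit 1048576) (nat_lit 843068178) (.one (nat_lit 4208505) .nil)))))))),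
   .two (nat_lit 10913579874) (nat_lit 807404865) (.two (nat_lit 47548727491) (nat_lit 2927626760) (.two (nat_lit 20644364353) (nat_lit 184556159) (.two (nat_lit 10007609357) (nat_lit 183913948105) (.two (nat_lit 612368389) (nat_lit 46507502051) (.two (nat_lit 34603009) (nat_lit 2109537) (.two (nat_lit 1048576) (nat_lit 8401868) (.one (nat_lit 1062778) .nil))))))),
   .two (nat_lit 1358955362) (nat_lit 101712739) (.two (nat_lit 639631961) (nat_lit 687868450) (.two (nat_lit 11010048067) (nat_lit 157036844041) (.two (nat_lit 2887778319) (nat_lit 19545463370) (.two (nat_lit 101711880) (nat_lit 11477722115) (.two (nat_lit 11543773189) (nat_lit 28691147227) (.two (nat_lit 2097153) (nat_lit 1060963) (.two (nat_lit 2097152) (nat_lit 1062252) (.one (nat_lit 1062530) .nil)))))))),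
   .two (nat_lit 2923430754) (nat_lit 8390679) (.two (nat_lit 13191086275) (nat_lit 11618226054) (.two (nat_lit 8388623) (nat_lit 9869204056) (.two (nat_lit 37748744) (nat_lit 2994742226) (.two (nat_lit 4194308) (nat_lit 276834781) (.two (nat_lit 8388609) (nat_lit 13189000869) (.two (nat_lit 4194304) (nat_lit 2110416) (.one (nat_lit 2111355) .nil))))))),
   .two (nat_lit 166230754146) (nat_lit 158146233633) (.two (nat_lit 28764537190) (nat_lit 1914702373) (.two (nat_lit 158158815297) (nat_lit 9799996421) (.two (nat_lit 159232557071) (nat_lit 184987688408) (.two (nat_lit 184549384) (nat_lit 9902761645) (.two (nat_lit 606076929) (nat_lit 156481105986) (.two (nat_lit 2097152) (nat_lit 4207981) (.one (nat_lit 16791420) .nil))))))),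
   .two (nat_lit 158083318627) (nat_lit 269486609) (.two (nat_lit 352321602) (nat_lit 3531607956) (.two (nat_lit 184549391) (nat_lit 9772735126) (.two (nat_lit 46407876616) (nat_lit 12121548465) (.two (nat_lit 2097153) (nat_lit 746598019) (.two (nat_lit 1048576) (nat_lit 16790481) (.one (nat_lit 16791173) .nil)))))),
   .two (nat_lit 18925749091) (nat_lit 158083320321) (.two (nat_lit 9906946114) (nat_lit 19142808538) (.two (nat_lit 739246095) (nat_lit 13228841589) (.two (nat_lit 11476664328) (nat_lit 8397841) (.two (nat_lit 8388613) (nat_lit 21812488665) (.two (nat_lit 612368385) (nat_lit 1060542) (.two (nat_lit 1048576) (nat_lit 8402286) (.one (nat_lit 8402813) .nil))))))),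
   .two (nat_lit 10015998819) (nat_lit 4605347110) (.two (nat_lit 4601151683) (nat_lit 37253810723) (.two (nat_lit 183853121601) (nat_lit 4647293909) (.two (nat_lit 713031695) (nat_lit 28772933081) (.two (nat_lit 19604176904) (nat_lit 772809743) (.two (nat_lit 183853121540) (nat_lit 184431946237) (.two (nat_lit 605028353) (nat_lit 4206692) (.two (nat_lit 1048576) (nat_lit 4207983) (.one (nat_lit 8402814) .nil)))))))),
   .two (nat_lit 20644365155) (nat_lit 1343228433) (.two (nat_lit 352321602) (nat_lit 12121542548) (.two (nat_lit 721420303) (nat_lit 1182800534) (.two (nat_lit 12047089672) (nat_lit 3531613873) (.two (nat_lit 34603009) (nat_lit 209727107) (.two (nat_lit 1048576) (nat_lit 9881793489) (.one (nat_lit 1795176069) .nil)))))),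
   .two (nat_lit 47582282594) (nat_lit 721421689) (.two (nat_lit 47596961987) (nat_lit 47582284290) (.two (nat_lit 2969567296) (nat_lit 21812481946) (.two (nat_lit 158192369688) (nat_lit 11510225522) (.two (nat_lit 3539992584) (nat_lit 20707289541) (.two (nat_lit 2097153) (nat_lit 4206693) (.two (nat_lit 1048576) (nat_lit 4207572) (.one (nat_lit 4208511) .nil))))))),
   .two (nat_lit 1962935138) (nat_lit 2316306944) (.two (nat_lit 352321602) (nat_lit 165532405635) (.two (nat_lit 16777231) (nat_lit 276829501) (.two (nat_lit 612368392) (nat_lit 20652759919) (.two (nat_lit 176160773) (nat_lit 184559286) (.two (nat_lit 34603009) (nat_lit 10016010759) (.one (nat_lit 8402816) .nil)))))),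
   .two (nat_lit 37246468962) (nat_lit 16779288) (.two (nat_lit 352321731) (nat_lit 8392128) (.two (nat_lit 19596836931) (nat_lit 18941480851) (.two (nat_lit 46414168079) (nat_lit 156984416856) (.two (nat_lit 8388621) (nat_lit 37262205072) (.two (nat_lit 8388613) (nat_lit 1191193087) (.two (nat_lit 612368385) (nat_lit 269495954) (.two (nat_lit 2097152) (nat_lit 168834604) .nil))))))),
   .two (nat_lit 10552869731) (nat_lit 12048139602) (.two (nat_lit 2969567836) (nat_lit 236980749) (.two (nat_lit 28758245443) (nat_lit 168824720) (.two (nat_lit 639631375) (nat_lit 806361687) (.two (nat_lit 46407876616) (nat_lit 185002370058) (.two (nat_lit 157036838917) (nat_lit 1343236557) (.two (nat_lit 2097153) (nat_lit 336604785) (.two (nat_lit 1048576) (nat_lit 2110424) (.one (nat_lit 1062785) .nil)))))))),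
   .two (nat_lit 156968682338) (nat_lit 1749026170) (.two (nat_lit 166132187493) (nat_lit 156581758494) (.two (nat_lit 1916796995) (nat_lit 10000273293) (.two (nat_lit 3539992591) (nat_lit 4201954) (.two (nat_lit 16777224) (nat_lit 4203538) (.two (nat_lit 184549381) (nat_lit 4205568) (.two (nat_lit 16777217) (nat_lit 1312829524) (.two (nat_lit 1048576) (nat_lit 171979543) (.one (nat_lit 1062539) .nil)))))))),
   .two (nat_lit 310379363) (nat_lit 1346372913) (.two (nat_lit 306184387) (nat_lit 3525314078) (.two (nat_lit 4605345857) (nat_lit 11477716872) (.two (nat_lit 4605345807) (nat_lit 13222550146) (.two (nat_lit 4605345800) (nat_lit 11007959991) (.two (nat_lit 4194308) (nat_lit 2108417) (.two (nat_lit 41943041) (nat_lit 174686483219) (.one (nat_lit 2111362) .nil))))))),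
   .two (nat_lit 46414169376) (nat_lit 285214071) (.two (nat_lit 184419352934) (nat_lit 166203494292) (.two (nat_lit 28693233679) (nat_lit 35658340) (.two (nat_lit 75497485) (nat_lit 11611940528) (.two (nat_lit 2097153) (nat_lit 2889887380) (.two (nat_lit 2097152) (nat_lit 4207580) (.one (nat_lit 4208515) .nil)))))),
   .two (nat_lit 1212154722) (nat_lit 101713941) (.two (nat_lit 28690088294) (nat_lit 28760346516) (.two (nat_lit 21793603599) (nat_lit 46473943633) (.two (nat_lit 4613734408) (nat_lit 4203539) (.two (nat_lit 822083589) (nat_lit 1059842) (.two (nat_lit 34603009) (nat_lit 1279274657) (.two (nat_lit 16777216) (nat_lit 19096679282) (.one (nat_lit 1062788) .nil))))))),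
   .two (nat_lit 28093449059) (nat_lit 2936014189) (.two (nat_lit 21785215171) (nat_lit 9982446100) (.two (nat_lit 352321603) (nat_lit 813698962) (.two (nat_lit 2902458383) (nat_lit 1216354889) (.two (nat_lit 75497480) (nat_lit 183962183351) (.two (nat_lit 16777217) (nat_lit 183920242357) (.two (nat_lit 8388608) (nat_lit 16790493) (.one (nat_lit 16791185) .nil))))))),
   .two (nat_lit 158158816099) (nat_lit 47582283038) (.two (nat_lit 159251431619) (nat_lit 46422559263) (.two (nat_lit 47548727362) (nat_lit 12620667513) (.two (nat_lit 9881780232) (nat_lit 12148809877) (.two (nat_lit 1358954501) (nat_lit 2107916) (.two (nat_lit 2097153) (nat_lit 318779030) (.two (nat_lit 2097152) (nat_lit 16790494) (.one (nat_lit 2111365) .nil))))))),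
   .two (nat_lit 117441379) (nat_lit 19029558607) (.two (nat_lit 754975077) (nat_lit 4197830) (.two (nat_lit 1795162179) (nat_lit 2420118497) (.two (nat_lit 9940500495) (nat_lit 46489672292) (.two (nat_lit 2889875464) (nat_lit 4034929637) (.two (nat_lit 272629765) (nat_lit 8399875) (.two (nat_lit 4194305) (nat_lit 3472895601) (.two (nat_lit 4194304) (nat_lit 8401887) (.one (nat_lit 4208518) .nil)))))))),
   .two (nat_lit 2994733923) (nat_lit 673186658) (.two (nat_lit 156535619779) (nat_lit 740297219) (.two (nat_lit 2994733122) (nat_lit 12148805514) (.two (nat_lit 9940500495) (nat_lit 12148810682) (.two (nat_lit 46407876612) (nat_lit 2319460837) (.two (nat_lit 2097153) (nat_lit 11546930816) (.two (nat_lit 2097152) (nat_lit 4207584) (.one (nat_lit 46510651184) .nil))))))),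
   .two (nat_lit 9768534883) (nat_lit 11559503142) (.two (nat_lit 272629955) (nat_lit 1862273571) (.two (nat_lit 9881780289) (nat_lit 156364705674) (.two (nat_lit 620757007) (nat_lit 4634715122) (.two (nat_lit 1191182341) (nat_lit 157035800242) (.two (nat_lit 16777217) (nat_lit 156364713638) (.two (nat_lit 1048576) (nat_lit 4647302067) (.one (nat_lit 1062791) .nil))))))),
   .two (nat_lit 156581757794) (nat_lit 9802089761) (.two (nat_lit 4605345987) (nat_lit 1279266217) (.two (nat_lit 306184257) (nat_lit 47596965784) (.two (nat_lit 4601151503) (nat_lit 4613741179) (.two (nat_lit 16777224) (nat_lit 2420122629) (.two (nat_lit 2889875460) (nat_lit 645933565) (.two (nat_lit 9781116929) (nat_lit 3527422785) (.one (nat_lit 4208520) .nil))))))),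
   .two (nat_lit 11551114082) (nat_lit 16779289) (.two (nat_lit 721420886) (nat_lit 742394370) (.two (nat_lit 184549441) (nat_lit 157043134349) (.two (nat_lit 184549391) (nat_lit 11580480987) (.two (nat_lit 157043130376) (nat_lit 239084532) (.two (nat_lit 8388613) (nat_lit 2108420) (.two (nat_lit 4194305) (nat_lit 8401000) (.two (nat_lit 4194304) (nat_lit 16790896) (.one (nat_lit 2111369) .nil)))))))),
   .two (nat_lit 41943906) (nat_lit 37262198115) (.two (nat_lit 3573547615) (nat_lit 166230754846) (.two (nat_lit 9948889197) (nat_lit 1746931609) (.two (nat_lit 9948889103) (nat_lit 28764543598) (.two (nat_lit 620757000) (nat_lit 9798951873) (.two (nat_lit 2969567237) (nat_lit 159217887684) (.two (nat_lit 2097153) (nat_lit 1061473) (.two (nat_lit 8388608) (nat_lit 2110833) (.one (nat_lit 2111370) .nil)))))))),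
   .two (nat_lit 1384121186) (nat_lit 158646404390) (.two (nat_lit 158646403430) (nat_lit 19096667677) (.two (nat_lit 10436476993) (nat_lit 2894074876) (.two (nat_lit 1745879055) (nat_lit 171973195) (.two (nat_lit 1745879048) (nat_lit 171975613) (.two (nat_lit 183845781508) (nat_lit 843067058) (.two (nat_lit 1048576) (nat_lit 4207585) (.one (nat_lit 1062795) .nil))))))),
   .two (nat_lit 46523220835) (nat_lit 11513365790) (.two (nat_lit 843055299) (nat_lit 10376712079) (.two (nat_lit 809500687) (nat_lit 41949769) (.two (nat_lit 10343153672) (nat_lit 11479819202) (.two (nat_lit 11479810053) (nat_lit 158183992998) (.two (nat_lit 8388608) (nat_lit 3560977277) (.one (nat_lit 4208524) .nil)))))),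
   .two (nat_lit 1749025634) (nat_lit 185027527993) (.two (nat_lit 46414168421) (nat_lit 1176506265) (.two (nat_lit 2954887183) (nat_lit 713038447) (.two (nat_lit 10519314440) (nat_lit 2319459335) (.two (nat_lit 69206021) (nat_lit 8399877) (.two (nat_lit 2097153) (nat_lit 4207202) (.two (nat_lit 4194304) (nat_lit 10437538639) (.one (nat_lit 2111373) .nil))))))),
   .two (nat_lit 183853122850) (nat_lit 1947207035) (.two (nat_lit 21777875139) (nat_lit 18933089822) (.two (nat_lit 1384120430) (nat_lit 135270275) (.two (nat_lit 184993972239) (nat_lit 10369373501) (.two (nat_lit 41943048) (nat_lit 1057813) (.two (nat_lit 272629765) (nat_lit 806365682) (.two (nat_lit 4194305) (nat_lit 168832644) (.two (nat_lit 4194304) (nat_lit 1061859) (.one (nat_lit 1062798) .nil)))))))),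
   .two (nat_lit 343934248) (nat_lit 654312827) (.two (nat_lit 10015998147) (nat_lit 2323647014) (.two (nat_lit 16777280) (nat_lit 10510930951) (.two (nat_lit 612368399) (nat_lit 10385105052) (.two (nat_lit 176160772) (nat_lit 10385107455) (.two (nat_lit 156367847425) (nat_lit 2994744977) (.two (nat_lit 4194304) (nat_lit 8401893) (.one (nat_lit 184419366508) .nil))))))),
   .two (nat_lit 1745879906) (nat_lit 1753220637) (.two (nat_lit 184993972288) (nat_lit 10519318427) (.two (nat_lit 4613734415) (nat_lit 10376714826) (.two (nat_lit 184993972232) (nat_lit 788537480) (.two (nat_lit 713031685) (nat_lit 46507501232) (.two (nat_lit 34603009) (nat_lit 46514843266) (.two (nat_lit 1048576) (nat_lit 8401894) (.one (nat_lit 739260010) .nil))))))),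
   .two (nat_lit 19130221853) (nat_lit 874513764) (.two (nat_lit 10504634563) (nat_lit 19130223103) (.two (nat_lit 3525312576) (nat_lit 158649553903) (.two (nat_lit 46407876632) (nat_lit 780147335) (.two (nat_lit 19532873736) (nat_lit 1746935948) (.two (nat_lit 20644364293) (nat_lit 1312828388) (.two (nat_lit 4194305) (nat_lit 8401001) (.two (nat_lit 4194304) (nat_lit 8402290) (.one (nat_lit 2111375) .nil)))))))),
   .two (nat_lit 3527410531) (nat_lit 21812479285) (.two (nat_lit 11007951043) (nat_lit 4197831) (.two (nat_lit 46477082690) (nat_lit 46474989444) (.two (nat_lit 10506731535) (nat_lit 11477719697) (.two (nat_lit 1178599432) (nat_lit 2107269) (.two (nat_lit 46409973765) (nat_lit 337652222) (.two (nat_lit 4194305) (nat_lit 158647463950) (.two (nat_lit 2097152) (nat_lit 4207591) (.one (nat_lit 4208528) .nil)))))))),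
   .two (nat_lit 343934245) (nat_lit 4647290234) (.two (nat_lit 10015998309) (nat_lit 46414170643) (.two (nat_lit 11551113282) (nat_lit 654318231) (.two (nat_lit 813694984) (nat_lit 641737687) (.two (nat_lit 2902458372) (nat_lit 19537078781) (.two (nat_lit 4194305) (nat_lit 2110051) (.two (nat_lit 2097152) (nat_lit 10016011096) (.one (nat_lit 1411397419) .nil))))))),
   .two (nat_lit 9768534883) (nat_lit 50332968) (.two (nat_lit 1358955106) (nat_lit 183845784070) (.two (nat_lit 11492393071) (nat_lit 46977257359) (.two (nat_lit 1191182351) (nat_lit 2353012874) (.two (nat_lit 620756997) (nat_lit 46406839958) (.two (nat_lit 1048576) (nat_lit 4207592) (.one (nat_lit 1062801) .nil)))))),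
   .two (nat_lit 10385097571) (nat_lit 9966716228) (.two (nat_lit 185020186819) (nat_lit 10385098270) (.two (nat_lit 11543773248) (nat_lit 654315396) (.two (nat_lit 739246095) (nat_lit 157051525777) (.two (nat_lit 16777224) (nat_lit 1058694) (.two (nat_lit 9881780229) (nat_lit 28790761987) (.two (nat_lit 605028353) (nat_lit 21827169974) (.two (nat_lit 16777216) (nat_lit 1062259) (.one (nat_lit 1062551) .nil)))))))),
   .two (nat_lit 46980399971) (nat_lit 10504635234) (.two (nat_lit 847249603) (nat_lit 11546922910) (.two (nat_lit 813694991) (nat_lit 9869204042) (.two (nat_lit 3525312520) (nat_lit 37757946) (.two (nat_lit 69206021) (nat_lit 847260090) (.two (nat_lit 2097153) (nat_lit 4206698) (.two (nat_lit 2097152) (nat_lit 8402292) (.one (nat_lit 8402834) .nil))))))),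
   .two (nat_lit 11559502691) (nat_lit 20637025625) (.two (nat_lit 1358954691) (nat_lit 1053013) (.two (nat_lit 1291845697) (nat_lit 46984600193) (.two (nat_lit 83886088) (nat_lit 168829909) (.two (nat_lit 620756997) (nat_lit 47555029516) (.two (nat_lit 34603009) (nat_lit 46422568559) (.two (nat_lit 1048576) (nat_lit 8401897) (.one (nat_lit 8402584) .nil))))))),
   .two (nat_lit 12163482467) (nat_lit 166196151591) (.two (nat_lit 1947206245) (nat_lit 780142110) (.two (nat_lit 28806479939) (nat_lit 20644371070) (.two (nat_lit 158075977736) (nat_lit 159266121393) (.two (nat_lit 8388609) (nat_lit 16790116) (.two (nat_lit 1048576) (nat_lit 16790901) (.one (nat_lit 8402835) .nil)))))),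
   .two (nat_lit 310379807) (nat_lit 183949591838) (.two (nat_lit 9806282947) (nat_lit 2889878045) (.two (nat_lit 754974961) (nat_lit 1277169541) (.two (nat_lit 9781116943) (nat_lit 12618571913) (.two (nat_lit 2902458372) (nat_lit 2108422) (.two (nat_lit 2097153) (nat_lit 843067004) (.two (nat_lit 16777216) (nat_lit 2109960) (.one (nat_lit 2111380) .nil))))))),
   .two (nat_lit 19130221411) (nat_lit 16778623) (.two (nat_lit 1795162720) (nat_lit 9934210589) (.two (nat_lit 754974831) (nat_lit 12048142217) (.two (nat_lit 13203669007) (nat_lit 47584388049) (.two (nat_lit 721420293) (nat_lit 138422756) (.two (nat_lit 16777217) (nat_lit 47584392045) (.one (nat_lit 4208533) .nil)))))),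
   .two (nat_lit 83887394) (nat_lit 276825425) (.two (nat_lit 11618222685) (nat_lit 156367848989) (.two (nat_lit 10007609454) (nat_lit 641732487) (.two (nat_lit 8388623) (nat_lit 20740840011) (.two (nat_lit 8388616) (nat_lit 20652762063) (.two (nat_lit 8388612) (nat_lit 4205071) (.two (nat_lit 8388609) (nat_lit 156581769229) (.two (nat_lit 4194304) (nat_lit 8402294) (.one (nat_lit 4208534) .nil)))))))),
   .two (nat_lit 47596962658) (nat_lit 21208499488) (.two (nat_lit 166196150467) (nat_lit 166130092552) (.two (nat_lit 21208498241) (nat_lit 11593063002) (.two (nat_lit 11476664328) (nat_lit 16787335) (.two (nat_lit 1277165573) (nat_lit 1410345460) (.two (nat_lit 2097153) (nat_lit 1060971) (.two (nat_lit 2097152) (nat_lit 1061866) (.one (nat_lit 1062807) .nil))))))),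
   .two (nat_lit 46510638373) (nat_lit 47596963150) (.two (nat_lit 1916797123) (nat_lit 16781654) (.two (nat_lit 4647288899) (nat_lit 166132191107) (.two (nat_lit 2902458383) (nat_lit 339744061) (.two (nat_lit 184549384) (nat_lit 4203542) (.two (nat_lit 1191182341) (nat_lit 184419363837) (.two (nat_lit 4194305) (nat_lit 16789186) (.two (nat_lit 4194304) (nat_lit 16790507) (.one (nat_lit 12062831882) .nil)))))))),
   .two (nat_lit 185035916131) (nat_lit 156465366313) (.two (nat_lit 4647289027) (nat_lit 1178602930) (.two (nat_lit 12617515118) (nat_lit 608178063) (.two (nat_lit 12617515031) (nat_lit 158079130236) (.two (nat_lit 185020186637) (nat_lit 318775434) (.two (nat_lit 11543773189) (nat_lit 171976370) (.two (nat_lit 9765388289) (nat_lit 9936318127) (.two (nat_lit 1048576) (nat_lit 4207596) (.one (nat_lit 1062808) .nil)))))))),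
   .two (nat_lit 183962174307) (nat_lit 3527410974) (.two (nat_lit 11010048195) (nat_lit 1317014957) (.two (nat_lit 3527409728) (nat_lit 780145663) (.two (nat_lit 117440527) (nat_lit 166232857206) (.two (nat_lit 713031688) (nat_lit 4204424) (.two (nat_lit 50331653) (nat_lit 775956953) (.two (nat_lit 4194305) (nat_lit 8401509) (.two (nat_lit 4194304) (nat_lit 16790509) (.one (nat_lit 12163495458) .nil)))))))),
   .two (nat_lit 847250274) (nat_lit 9802089764) (.two (nat_lit 1212154460) (nat_lit 1786776085) (.two (nat_lit 4605345858) (nat_lit 46978307093) (.two (nat_lit 157038936079) (nat_lit 37320923765) (.two (nat_lit 157038936072) (nat_lit 1317020689) (.two (nat_lit 46980399109) (nat_lit 9974065654) (.two (nat_lit 8388609) (nat_lit 1312829118) (.two (nat_lit 4194304) (nat_lit 8402295) (.one (nat_lit 2111385) .nil)))))))),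
   .two (nat_lit 343933794) (nat_lit 184986633513) (.two (nat_lit 4601151845) (nat_lit 37320919584) (.two (nat_lit 184549491) (nat_lit 47581237141) (.two (nat_lit 4194319) (nat_lit 8396259) (.two (nat_lit 218103816) (nat_lit 8398729) (.two (nat_lit 11559501829) (nat_lit 9902761650) (.two (nat_lit 50331649) (nat_lit 1921003143) (.two (nat_lit 4194304) (nat_lit 8402296) (.one (nat_lit 4208538) .nil)))))))),
   .two (nat_lit 3558867811) (nat_lit 156472706387) (.two (nat_lit 46477082982) (nat_lit 3558868510) (.two (nat_lit 11010048067) (nat_lit 37320920979) (.two (nat_lit 10504634383) (nat_lit 12150905457) (.two (nat_lit 606076936) (nat_lit 8398730) (.two (nat_lit 47548727301) (nat_lit 4205575) (.two (nat_lit 2097153) (nat_lit 4206275) (.two (nat_lit 2097152) (nat_lit 8402297) (.one (nat_lit 8402843) .nil)))))))),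
   .two (nat_lit 4601152355) (nat_lit 47555020061) (.two (nat_lit 47555018947) (nat_lit 12115249668) (.two (nat_lit 47548727362) (nat_lit 12050239367) (.two (nat_lit 2954887183) (nat_lit 19134421587) (.two (nat_lit 10504634376) (nat_lit 1182802875) (.two (nat_lit 2887778308) (nat_lit 8399377) (.two (nat_lit 4194305) (nat_lit 2110054) (.two (nat_lit 4194304) (nat_lit 2110842) (.one (nat_lit 2111131) .nil)))))))),
   .two (nat_lit 11611931946) (nat_lit 8390016) (.two (nat_lit 46414168670) (nat_lit 159217878557) (.two (nat_lit 46414168129) (nat_lit 183913942920) (.two (nat_lit 46414168079) (nat_lit 19128130136) (.two (nat_lit 176160776) (nat_lit 9967772658) (.two (nat_lit 18933088261) (nat_lit 174688577997) (.two (nat_lit 156372041729) (nat_lit 28691148453) (.two (nat_lit 2097152) (nat_lit 8402299) (.one (nat_lit 2111388) .nil)))))))),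
   .two (nat_lit 166132188003) (nat_lit 157036839778) (.two (nat_lit 13237223619) (nat_lit 19532876290) (.two (nat_lit 4028629057) (nat_lit 1413484426) (.two (nat_lit 18928893967) (nat_lit 606083656) (.two (nat_lit 46978301960) (nat_lit 171976376) (.two (nat_lit 2097153) (nat_lit 2956996227) (.two (nat_lit 2097152) (nat_lit 4207600) (.one (nat_lit 2111132) .nil))))))),
   .two (nat_lit 159232557922) (nat_lit 1417676070) (.two (nat_lit 1417675110) (nat_lit 2886732294) (.two (nat_lit 3003121729) (nat_lit 10510932589) (.two (nat_lit 276824072) (nat_lit 1178607765) (.two (nat_lit 8388612) (nat_lit 183912900270) (.two (nat_lit 156364701697) (nat_lit 18928907097) (.one (nat_lit 1062813) .nil)))))),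
   .two (nat_lit 343933794) (nat_lit 47584380218) (.two (nat_lit 4605345987) (nat_lit 11513368453) (.two (nat_lit 8388623) (nat_lit 1279269450) (.two (nat_lit 8388616) (nat_lit 2956992653) (.two (nat_lit 4194308) (nat_lit 9806294650) (.two (nat_lit 4194304) (nat_lit 8401905) (.one (nat_lit 4208542) .nil)))))),
   .two (nat_lit 46414169376) (nat_lit 16778625) (.two (nat_lit 889192643) (nat_lit 18933092230) (.two (nat_lit 343932968) (nat_lit 46992987454) (.two (nat_lit 46414168072) (nat_lit 16785566) (.two (nat_lit 8388613) (nat_lit 352331443) (.two (nat_lit 8388609) (nat_lit 285224636) (.two (nat_lit 2097152) (nat_lit 11484017155) (.one (nat_lit 8402591) .nil))))))),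
   .two (nat_lit 50332964) (nat_lit 184986633580) (.two (nat_lit 185035915459) (nat_lit 28798094765) (.two (nat_lit 8388675) (nat_lit 46422560649) (.two (nat_lit 50331663) (nat_lit 19134420284) (.two (nat_lit 11476664328) (nat_lit 166136390664) (.two (nat_lit 75497477) (nat_lit 773860323) (.two (nat_lit 2097153) (nat_lit 2323656350) (.two (nat_lit 2097152) (nat_lit 705704830) (.one (nat_lit 1062815) .nil)))))))),
   .two (nat_lit 620757858) (nat_lit 9906947406) (.two (nat_lit 620757349) (nat_lit 8392136) (.two (nat_lit 184549441) (nat_lit 158150433437) (.two (nat_lit 184549384) (nat_lit 2894078904) (.two (nat_lit 16777221) (nat_lit 3531615872) (.two (nat_lit 8388608) (nat_lit 46489678823) (.one (nat_lit 46422570983) .nil)))))),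
   .two (nat_lit 156533523298) (nat_lit 20652754285) (.two (nat_lit 156533522627) (nat_lit 16781655) (.two (nat_lit 159266111555) (nat_lit 183846834055) (.two (nat_lit 639631375) (nat_lit 1962941043) (.two (nat_lit 83886088) (nat_lit 21812487097) (.two (nat_lit 9948889093) (nat_lit 183846840763) (.two (nat_lit 2097153) (nat_lit 1761619582) (.two (nat_lit 16777216) (nat_lit 184987693988) (.one (nat_lit 16791201) .nil)))))))),
   .two (nat_lit 28758246690) (nat_lit 19142804814) (.two (nat_lit 28758245571) (nat_lit 16781656) (.two (nat_lit 3573547074) (nat_lit 158144139140) (.two (nat_lit 10370416655) (nat_lit 9781123735) (.two (nat_lit 218103816) (nat_lit 158647460861) (.two (nat_lit 2969567237) (nat_lit 10336874166) (.two (nat_lit 16777216) (nat_lit 606090215) (.one (nat_lit 3036690400) .nil))))))),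
   .two (nat_lit 18928894818) (nat_lit 4605347111) (.two (nat_lit 10015998147) (nat_lit 176164288) (.two (nat_lit 285212736) (nat_lit 21210599318) (.two (nat_lit 11492392975) (nat_lit 174755682907) (.two (nat_lit 3464495112) (nat_lit 641737662) (.two (nat_lit 16777220) (nat_lit 8399854) (.two (nat_lit 8388609) (nat_lit 166199307905) (.two (nat_lit 4194304) (nat_lit 8401906) (.one (nat_lit 4208290) .nil)))))))),
   .two (nat_lit 83887396) (nat_lit 4638901580) (.two (nat_lit 1358954691) (nat_lit 8393049) (.two (nat_lit 176160835) (nat_lit 11559505796) (.two (nat_lit 620757007) (nat_lit 11517565555) (.two (nat_lit 8388616) (nat_lit 12163490813) (.two (nat_lit 8388612) (nat_lit 156581768886) (.two (nat_lit 8388608) (nat_lit 16790515) (.one (nat_lit 11626624792) .nil))))))),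
   .two (nat_lit 10538189666) (nat_lit 46514832748) (.two (nat_lit 166237045352) (nat_lit 10538190365) (.two (nat_lit 310378562) (nat_lit 13224644484) (.two (nat_lit 4601151503) (nat_lit 9873398410) (.two (nat_lit 46409973768) (nat_lit 679486412) (.two (nat_lit 69206021) (nat_lit 8399880) (.two (nat_lit 2097153) (nat_lit 4206701) (.two (nat_lit 2097152) (nat_lit 4207996) (.one (nat_lit 2111139) .nil)))))))),
   .two (nat_lit 2887779171) (nat_lit 11492393827) (.two (nat_lit 11559502435) (nat_lit 158077028868) (.two (nat_lit 11492393025) (nat_lit 2418023074) (.two (nat_lit 46407876616) (nat_lit 11014250643) (.two (nat_lit 34603013) (nat_lit 11626622634) (.two (nat_lit 1048576) (nat_lit 2109957) (.one (nat_lit 1062816) .nil)))))),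
   .two (nat_lit 673187103) (nat_lit 1761609015) (.two (nat_lit 10552869059) (nat_lit 673188350) (.two (nat_lit 310378563) (nat_lit 19128127379) (.two (nat_lit 156372041743) (nat_lit 9867106913) (.two (nat_lit 9934209032) (nat_lit 166237054640) (.two (nat_lit 8388609) (nat_lit 2954899124) (.two (nat_lit 8388608) (nat_lit 2110452) (.one (nat_lit 16791457) .nil))))))),
   .two (nat_lit 9948890407) (nat_lit 775947571) (.two (nat_lit 9768534211) (nat_lit 9881782785) (.two (nat_lit 9881780289) (nat_lit 2424311699) (.two (nat_lit 654311439) (nat_lit 166136388194) (.two (nat_lit 2902458376) (nat_lit 2319458441) (.two (nat_lit 16777221) (nat_lit 159219986060) (.two (nat_lit 16777216) (nat_lit 10003428179) (.one (nat_lit 4613747975) .nil))))))),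
   .two (nat_lit 1847591778) (nat_lit 235930922) (.two (nat_lit 1947206227) (nat_lit 1962935838) (.two (nat_lit 3003121772) (nat_lit 183846834055) (.two (nat_lit 3539992591) (nat_lit 3525319292) (.two (nat_lit 620757000) (nat_lit 1057816) (.two (nat_lit 165526110213) (nat_lit 183845793470) (.two (nat_lit 2097152) (nat_lit 184986645344) (.one (nat_lit 2111394) .nil))))))),
   .two (nat_lit 159232557922) (nat_lit 156372043293) (.two (nat_lit 4601151552) (nat_lit 772805593) (.two (nat_lit 4601151503) (nat_lit 11610888780) (.two (nat_lit 4194312) (nat_lit 20745037488) (.two (nat_lit 4194305) (nat_lit 11577339521) (.two (nat_lit 4194304) (nat_lit 1061878) (.one (nat_lit 4208547) .nil)))))),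
   .two (nat_lit 10436477794) (nat_lit 9969861977) (.two (nat_lit 9806283110) (nat_lit 13224644486) (.two (nat_lit 4605345807) (nat_lit 3560970908) (.two (nat_lit 183848927240) (nat_lit 158653751431) (.two (nat_lit 10503585797) (nat_lit 46477093354) (.two (nat_lit 37748737) (nat_lit 1060518) (.two (nat_lit 1048576) (nat_lit 4207607) (.one (nat_lit 4208294) .nil))))))),
   .two (nat_lit 639632227) (nat_lit 2969568541) (.two (nat_lit 159251431782) (nat_lit 839913356) (.two (nat_lit 16777231) (nat_lit 21777881673) (.two (nat_lit 3458203656) (nat_lit 156364710883) (.two (nat_lit 50331653) (nat_lit 2108425) (.two (nat_lit 2097153) (nat_lit 1061479) (.two (nat_lit 1048576) (nat_lit 2110456) (.one (nat_lit 1062820) .nil))))))),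
   .two (nat_lit 2923430755) (nat_lit 9966716205) (.two (nat_lit 9802088643) (nat_lit 1053018) (.two (nat_lit 4605345857) (nat_lit 28793903717) (.two (nat_lit 13195280392) (nat_lit 19127083966) (.two (nat_lit 12054429701) (nat_lit 1175465588) (.two (nat_lit 8388608) (nat_lit 1061881) (.one (nat_lit 1062821) .nil)))))),
   .two (nat_lit 37246468963) (nat_lit 159266112872) (.two (nat_lit 612368742) (nat_lit 50334227) (.two (nat_lit 184419352641) (nat_lit 168824717) (.two (nat_lit 8388623) (nat_lit 104864329) (.two (nat_lit 41943048) (nat_lit 13187949555) (.two (nat_lit 171966469) (nat_lit 20644375021) (.two (nat_lit 4194305) (nat_lit 1060974) (.two (nat_lit 1048576) (nat_lit 8402301) (.one (nat_lit 8402854) .nil)))))))),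
   .two (nat_lit 13203669859) (nat_lit 165532402984) (.two (nat_lit 12624855397) (nat_lit 2316306944) (.two (nat_lit 10436476993) (nat_lit 19134419982) (.two (nat_lit 3464495119) (nat_lit 184986638984) (.two (nat_lit 9934209032) (nat_lit 1057817) (.two (nat_lit 1779433477) (nat_lit 746597381) (.two (nat_lit 2097153) (nat_lit 1061480) (.two (nat_lit 16777216) (nat_lit 8402302) (.one (nat_lit 1062823) .nil)))))))),
   .two (nat_lit 12163482467) (nat_lit 37246468963) (.two (nat_lit 37246468697) (nat_lit 12163483166) (.two (nat_lit 2416967747) (nat_lit 3565162378) (.two (nat_lit 46984593423) (nat_lit 251665057) (.two (nat_lit 8388616) (nat_lit 165540798608) (.two (nat_lit 10503585797) (nat_lit 9915345375) (.two (nat_lit 8388609) (nat_lit 16789615) (.two (nat_lit 1048576) (nat_lit 50344454) (.one (nat_lit 16791464) .nil)))))))),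
   .two (nat_lit 166136382762) (nat_lit 18928895360) (.two (nat_lit 156971827806) (nat_lit 9806284317) (.two (nat_lit 28693233729) (nat_lit 2332039781) (.two (nat_lit 41943048) (nat_lit 21793611923) (.two (nat_lit 8388612) (nat_lit 165540800961) (.two (nat_lit 4194305) (nat_lit 159257735685) (.one (nat_lit 4208553) .nil)))))),
   .two (nat_lit 352322403) (nat_lit 13195281695) (.two (nat_lit 4605345987) (nat_lit 3458205214) (.two (nat_lit 4605346029) (nat_lit 46489669533) (.two (nat_lit 8388623) (nat_lit 169878516) (.two (nat_lit 10385096709) (nat_lit 1853893117) (.two (nat_lit 2097153) (nat_lit 8401513) (.two (nat_lit 16777216) (nat_lit 8402303) (.one (nat_lit 2111402) .nil))))))),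
   .two (nat_lit 11584668515) (nat_lit 158176642336) (.two (nat_lit 185020187222) (nat_lit 11584669214) (.two (nat_lit 158176641089) (nat_lit 165528212474) (.two (nat_lit 13191086095) (nat_lit 4598012500) (.two (nat_lit 272629768) (nat_lit 1057818) (.two (nat_lit 1745879045) (nat_lit 8399356) (.two (nat_lit 4194305) (nat_lit 1060976) (.two (nat_lit 1048576) (nat_lit 4207610) (.one (nat_lit 1062827) .nil)))))))),
   .two (nat_lit 9881781090) (nat_lit 21207450958) (.two (nat_lit 9881780581) (nat_lit 739249608) (.two (nat_lit 9881780289) (nat_lit 159216835229) (.two (nat_lit 620757000) (nat_lit 184986641407) (.two (nat_lit 83886085) (nat_lit 4027591100) (.two (nat_lit 16777217) (nat_lit 156364714962) (.one (nat_lit 46406842323) .nil)))))),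
   .two (nat_lit 754976034) (nat_lit 37320918371) (.two (nat_lit 11559502019) (nat_lit 2101595) (.two (nat_lit 9934209091) (nat_lit 46489670629) (.two (nat_lit 185002360847) (nat_lit 159257728317) (.two (nat_lit 654311432) (nat_lit 1210065897) (.two (nat_lit 8388613) (nat_lit 9867110927) (.two (nat_lit 620756993) (nat_lit 2350919785) (.two (nat_lit 2097152) (nat_lit 8401915) (.one (nat_lit 2111145) .nil)))))))),
   .two (nat_lit 9806283619) (nat_lit 12117345565) (.two (nat_lit 12117344451) (nat_lit 21777877516) (.two (nat_lit 156465365057) (nat_lit 183853128340) (.two (nat_lit 4605345800) (nat_lit 269493274) (.two (nat_lit 21777874949) (nat_lit 809511441) (.two (nat_lit 37748737) (nat_lit 8401514) (.two (nat_lit 4194304) (nat_lit 1062272) (.one (nat_lit 1062828) .nil))))))),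
   .two (nat_lit 183853122403) (nat_lit 18928894818) (.two (nat_lit 10015998147) (nat_lit 18933090818) (.two (nat_lit 183853121601) (nat_lit 20740837258) (.two (nat_lit 183848927247) (nat_lit 310385277) (.two (nat_lit 16777224) (nat_lit 4203547) (.two (nat_lit 16777220) (nat_lit 37759480) (.two (nat_lit 37748737) (nat_lit 2961191920) (.one (nat_lit 37762839) .nil))))))),
   .two (nat_lit 11513365346) (nat_lit 156372043084) (.two (nat_lit 3539992933) (nat_lit 1782583188) (.two (nat_lit 3464495119) (nat_lit 37246474912) (.two (nat_lit 1779433485) (nat_lit 21210604552) (.two (nat_lit 9765388293) (nat_lit 18928905886) (.two (nat_lit 8388608) (nat_lit 4207613) (.one (nat_lit 1062829) .nil)))))),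
   .two (nat_lit 13237224291) (nat_lit 2923431209) (.two (nat_lit 2923430488) (nat_lit 13237224990) (.two (nat_lit 37316722805) (nat_lit 9933164446) (.two (nat_lit 1191182351) (nat_lit 4202907) (.two (nat_lit 183949590541) (nat_lit 9915342988) (.two (nat_lit 171966469) (nat_lit 2902469123) (.two (nat_lit 4194305) (nat_lit 2953850485) (.two (nat_lit 1048576) (nat_lit 4207614) (.one (nat_lit 1062830) .nil)))))))),
   .two (nat_lit 156569174883) (nat_lit 2424309052) (.two (nat_lit 9806282947) (nat_lit 156569175582) (.two (nat_lit 11492393025) (nat_lit 10510932590) (.two (nat_lit 4601151496) (nat_lit 3531612311) (.two (nat_lit 822083589) (nat_lit 780151260) (.two (nat_lit 8388609) (nat_lit 16790123) (.two (nat_lit 16777216) (nat_lit 8402305) (.one (nat_lit 16791471) .nil))))))),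
   .two (nat_lit 20753417059) (nat_lit 2418018851) (.two (nat_lit 612368451) (nat_lit 2902462339) (.two (nat_lit 713031695) (nat_lit 11593061693) (.two (nat_lit 10370416648) (nat_lit 746596018) (.two (nat_lit 606076929) (nat_lit 746598032) (.two (nat_lit 2097152) (nat_lit 8401920) (.one (nat_lit 41957145) .nil)))))),
   .two (nat_lit 20644365605) (nat_lit 318768460) (.two (nat_lit 184993972419) (nat_lit 855640596) (.two (nat_lit 3036676163) (nat_lit 18933092227) (.two (nat_lit 16777231) (nat_lit 2961184061) (.two (nat_lit 41943048) (nat_lit 20753426103) (.two (nat_lit 8388609) (nat_lit 10351554202) (.two (nat_lit 8388608) (nat_lit 16790529) (.one (nat_lit 3003135543) .nil))))))),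
   .two (nat_lit 183853122403) (nat_lit 18928894818) (.two (nat_lit 10015998147) (nat_lit 183853123102) (.two (nat_lit 11513364545) (nat_lit 20652756875) (.two (nat_lit 183848927247) (nat_lit 3003128437) (.two (nat_lit 2969567240) (nat_lit 1279271963) (.two (nat_lit 8388612) (nat_lit 11479821994) (.two (nat_lit 4194304) (nat_lit 8401922) (.one (nat_lit 4208560) .nil))))))),
   .two (nat_lit 12054430563) (nat_lit 158075978595) (.two (nat_lit 1753219267) (nat_lit 159250386375) (.two (nat_lit 184993972290) (nat_lit 158176646228) (.two (nat_lit 18933088271) (nat_lit 166211888136) (.two (nat_lit 713031684) (nat_lit 83898150) (.two (nat_lit 1048576) (nat_lit 16790475) (.one (nat_lit 8402867) .nil)))))),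
   .two (nat_lit 1753219938) (nat_lit 21223179614) (.two (nat_lit 1753219267) (nat_lit 47563411798) (.two (nat_lit 184993972289) (nat_lit 3557822349) (.two (nat_lit 4613734415) (nat_lit 2894076499) (.two (nat_lit 754974728) (nat_lit 813704315) (.two (nat_lit 713031685) (nat_lit 156566038190) (.two (nat_lit 34603009) (nat_lit 75509458) (.two (nat_lit 1048576) (nat_lit 184562635) (.one (nat_lit 1062836) .nil)))))))),
   .two (nat_lit 10015998819) (nat_lit 1853883697) (.two (nat_lit 16777411) (nat_lit 183946448306) (.two (nat_lit 16777280) (nat_lit 157043135607) (.two (nat_lit 8388623) (nat_lit 10906245840) (.two (nat_lit 4194312) (nat_lit 343942071) (.two (nat_lit 47550824453) (nat_lit 10947145268) (.two (nat_lit 620756993) (nat_lit 21207462348) (.two (nat_lit 4194304) (nat_lit 166211892747) .nil))))))),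
   .two (nat_lit 12114199394) (nat_lit 11010049340) (.two (nat_lit 13191086275) (nat_lit 10335817156) (.two (nat_lit 4601151552) (nat_lit 1276122086) (.two (nat_lit 2887778319) (nat_lit 171973286) (.two (nat_lit 4194312) (nat_lit 12115256615) (.two (nat_lit 2889875461) (nat_lit 9800002983) (.two (nat_lit 4194305) (nat_lit 37247529705) (.two (nat_lit 4194304) (nat_lit 9867113361) (.one (nat_lit 739259898) .nil)))))))),
   .two (nat_lit 1350566754) (nat_lit 157051520347) (.two (nat_lit 809500867) (nat_lit 11559505338) (.two (nat_lit 285212739) (nat_lit 706745433) (.two (nat_lit 2902458383) (nat_lit 4632615685) (.two (nat_lit 37748744) (nat_lit 352330716) (.two (nat_lit 4194308) (nat_lit 4043320684) (.two (nat_lit 4194305) (nat_lit 174753591394) (.two (nat_lit 2097152) (nat_lit 2353017902) (.one (nat_lit 4208315) .nil)))))))),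
   .two (nat_lit 352322402) (nat_lit 847250822) (.two (nat_lit 37249614182) (nat_lit 1376782847) (.two (nat_lit 16777281) (nat_lit 1753223052) (.two (nat_lit 16777231) (nat_lit 156364708622) (.two (nat_lit 16777224) (nat_lit 310388120) (.two (nat_lit 184549381) (nat_lit 679487975) (.two (nat_lit 16777217) (nat_lit 303051089) (.two (nat_lit 4194304) (nat_lit 1062353) (.one (nat_lit 1062837) .nil)))))))),
   .two (nat_lit 41943907) (nat_lit 185035916669) (.two (nat_lit 9948889446) (nat_lit 41944606) (.two (nat_lit 10385096771) (nat_lit 1209013222) (.two (nat_lit 218103823) (nat_lit 13187948277) (.two (nat_lit 713031688) (nat_lit 21811438612) (.two (nat_lit 285212677) (nat_lit 21214800320) (.two (nat_lit 16777217) (nat_lit 2920296190) (.two (nat_lit 16777216) (nat_lit 9899619929) .nil))))))),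
   .two (nat_lit 75498338) (nat_lit 117442823) (.two (nat_lit 620757595) (nat_lit 9768535581) (.two (nat_lit 306184257) (nat_lit 47555023924) (.two (nat_lit 218103823) (nat_lit 339745402) (.two (nat_lit 2902458376) (nat_lit 46510647994) (.two (nat_lit 16777217) (nat_lit 239087374) (.two (nat_lit 16777216) (nat_lit 11513377774) (.one (nat_lit 4208318) .nil))))))),
   .two (nat_lit 184993973090) (nat_lit 46406830201) (.two (nat_lit 184416207449) (nat_lit 2889878054) (.two (nat_lit 47596961858) (nat_lit 176165965) (.two (nat_lit 713031695) (nat_lit 4634713931) (.two (nat_lit 713031688) (nat_lit 352331871) (.two (nat_lit 2956984325) (nat_lit 16789047) (.two (nat_lit 4194305) (nat_lit 157043142874) (.two (nat_lit 1048576) (nat_lit 156380443439) (.one (nat_lit 1062838) .nil)))))))),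
   .two (nat_lit 742392267) (nat_lit 343934289) (.two (nat_lit 37749093) (nat_lit 10343155230) (.two (nat_lit 4194369) (nat_lit 3028291462) (.two (nat_lit 4194319) (nat_lit 28697433401) (.two (nat_lit 4194312) (nat_lit 1216356554) (.two (nat_lit 4194312) (nat_lit 12121542779) (.two (nat_lit 4194308) (nat_lit 9899615920) (.two (nat_lit 2097153) (nat_lit 873475756) (.two (nat_lit 2097152) (nat_lit 1061411) (.one (nat_lit 1062156) .nil))))))))),
   .two (nat_lit 4195170) (nat_lit 12624855496) (.two (nat_lit 11543773379) (nat_lit 19096667677) (.two (nat_lit 11543773250) (nat_lit 46407880598) (.two (nat_lit 4194319) (nat_lit 4599061079) (.two (nat_lit 4194312) (nat_lit 19027465639) (.two (nat_lit 4194312) (nat_lit 166130094208) (.two (nat_lit 705691652) (nat_lit 1210067389) (.two (nat_lit 2097153) (nat_lit 11510230733) (.two (nat_lit 1048576) (nat_lit 4207140) (.one (nat_lit 4208351) .nil))))))))),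
   .two (nat_lit 13191086306) (nat_lit 19529729400) (.two (nat_lit 4634706786) (nat_lit 202375628) (.two (nat_lit 2921333093) (nat_lit 4634707485) (.two (nat_lit 318767170) (nat_lit 21210599306) (.two (nat_lit 16777231) (nat_lit 2920289594) (.two (nat_lit 16777224) (nat_lit 166129045627) (.two (nat_lit 37748744) (nat_lit 12617520549) (.two (nat_lit 11479810052) (nat_lit 158144145072) (.two (nat_lit 16777217) (nat_lit 1948266156) (.two (nat_lit 2097152) (nat_lit 166199307050) (.one (nat_lit 171980467) .nil)))))))))),
   .two (nat_lit 47555019619) (nat_lit 2953839052) (.two (nat_lit 46407876965) (nat_lit 159224170013) (.two (nat_lit 4613734466) (nat_lit 28697431943) (.two (nat_lit 169869327) (nat_lit 310386726) (.two (nat_lit 4613734408) (nat_lit 21214795175) (.two (nat_lit 169869320) (nat_lit 12633247865) (.two (nat_lit 1795162117) (nat_lit 19094577410) (.two (nat_lit 1795162117) (nat_lit 2416976185) (.two (nat_lit 606076929) (nat_lit 1392520817) (.two (nat_lit 2097152) (nat_lit 46992995611) (.one (nat_lit 1062855) .nil)))))))))),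
   .two (nat_lit 2961179079) (nat_lit 104858928) (.two (nat_lit 4601151683) (nat_lit 13195281949) (.two (nat_lit 4601151552) (nat_lit 2357203926) (.two (nat_lit 46409973775) (nat_lit 21214796418) (.two (nat_lit 4194312) (nat_lit 9806292607) (.two (nat_lit 3460300808) (nat_lit 243275186) (.two (nat_lit 4194306) (nat_lit 183946455709) (.two (nat_lit 165525061635) (nat_lit 8400470) (.two (nat_lit 4194305) (nat_lit 156364714115) (.two (nat_lit 1048576) (nat_lit 4208101) (.one (nat_lit 46409987786) .nil)))))))))),
   .two (nat_lit 4601151714) (nat_lit 813696378) (.two (nat_lit 4195170) (nat_lit 11618222539) (.two (nat_lit 156372041923) (nat_lit 2987395592) (.two (nat_lit 47582281793) (nat_lit 184986636167) (.two (nat_lit 4194319) (nat_lit 310385306) (.two (nat_lit 4194312) (nat_lit 9772733873) (.two (nat_lit 4194312) (nat_lit 612375418) (.two (nat_lit 4194308) (nat_lit 28086118066) (.two (nat_lit 2097153) (nat_lit 135278207) (.two (nat_lit 4194304) (nat_lit 8402152) (.one (nat_lit 10544494530) .nil)))))))))),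
   .two (nat_lit 276824288) (nat_lit 165526111075) (.two (nat_lit 8389474) (nat_lit 9799991760) (.two (nat_lit 8388803) (nat_lit 159217878557) (.two (nat_lit 8388672) (nat_lit 184986636165) (.two (nat_lit 8388623) (nat_lit 1914705211) (.two (nat_lit 8388616) (nat_lit 19529732219) (.two (nat_lit 8388616) (nat_lit 2887786821) (.two (nat_lit 8388612) (nat_lit 2418026941) (.two (nat_lit 8388609) (nat_lit 46977265451) (.two (nat_lit 8388608) (nat_lit 9765402083) (.one (nat_lit 9765402566) .nil)))))))))),
   .two (nat_lit 11559502046) (nat_lit 46407878702) (.two (nat_lit 4632610088) (nat_lit 742392263) (.two (nat_lit 306184387) (nat_lit 166130090956) (.two (nat_lit 889192643) (nat_lit 713035827) (.two (nat_lit 889192643) (nat_lit 4638900727) (.two (nat_lit 4601151554) (nat_lit 19597889456) (.two (nat_lit 306184257) (nat_lit 3525315363) (.two (nat_lit 16777280) (nat_lit 713035827) (.two (nat_lit 2902458383) (nat_lit 12148809378) (.two (nat_lit 8388616) (nat_lit 2887782523) (.two (nat_lit 8388616) (nat_lit 47548732837) (.two (nat_lit 746586117) (nat_lit 4204223) (.two (nat_lit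 721420292) (nat_lit 11578384642) (.two (nat_lit 41943041) (nat_lit 158647463542) (.two (nat_lit 16777216) (nat_lit 2110699) (.one (nat_lit 16791265) .nil))))))))))))))),
   .two (nat_lit 12129927623) (nat_lit 1277166887) (.two (nat_lit 285212766) (nat_lit 159251434923) (.two (nat_lit 16777411) (nat_lit 1277166540) (.two (nat_lit 16777411) (nat_lit 2954888914) (.two (nat_lit 8388627) (nat_lit 20638076805) (.two (nat_lit 16777280) (nat_lit 9934213040) (.two (nat_lit 16777280) (nat_lit 2954890019) (.two (nat_lit 8388623) (nat_lit 236983608) (.two (nat_lit 8388616) (nat_lit 2887785329) (.two (nat_lit 8388616) (nat_lit 2887782523) (.two (nat_lit 4194306) (nat_lit 28691147984) (.two (nat_lit 9873391621) (nat_lit 3003131583) (.two (nat_lit 41943041) (nat_lit 2109151) (.two (nat_lit 2097152) (nat_lit 4207852) (.one (nat_lit 2988455873) .nil)))))))))))))),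
   .two (nat_lit 46477083090) (nat_lit 202376517) (.two (nat_lit 239075685) (nat_lit 47582283293) (.two (nat_lit 3003121730) (nat_lit 184417259402) (.two (nat_lit 184549391) (nat_lit 2920289594) (.two (nat_lit 742391816) (nat_lit 101717430) (.two (nat_lit 184549384) (nat_lit 166129045627) (.two (nat_lit 1277165572) (nat_lit 12117354160) (.two (nat_lit 16777217) (nat_lit 19094581310) (.two (nat_lit 16777216) (nat_lit 740307491) (.one (nat_lit 2111155) .nil))))))))),
   .two (nat_lit 12147754269) (nat_lit 159251431887) (.two (nat_lit 3525312707) (nat_lit 1317013202) (.two (nat_lit 11543773379) (nat_lit 1216348663) (.two (nat_lit 46474985538) (nat_lit 158143089443) (.two (nat_lit 46474985538) (nat_lit 158143088338) (.two (nat_lit 8388623) (nat_lit 11578384421) (.two (nat_lit 822083592) (nat_lit 3525318055) (.two (nat_lit 2887778312) (nat_lit 159224171342) (.two (nat_lit 8388610) (nat_lit 156466424861) (.two (nat_lit 41943045) (nat_lit 10437532625) (.two (nat_lit 612368385) (nat_lit 166130102325) (.two (nat_lit 1048576) (nat_lit 109064777) (.one (nat_lit 1062626) .nil)))))))))))),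
   .two (nat_lit 1350566754) (nat_lit 1426063824) (.two (nat_lit 184987681126) (nat_lit 159224170013) (.two (nat_lit 185002360897) (nat_lit 183920234376) (.two (nat_lit 9940500495) (nat_lit 46407884684) (.two (nat_lit 37748744) (nat_lit 11014249352) (.two (nat_lit 37748744) (nat_lit 10007612237) (.two (nat_lit 2902458373) (nat_lit 874522289) (.two (nat_lit 8388609) (nat_lit 2887790216) (.two (nat_lit 2097152) (nat_lit 109062958) (.one (nat_lit 4208587) .nil))))))))),
   .two (nat_lit 2923431202) (nat_lit 337641695) (.two (nat_lit 3527409859) (nat_lit 28691139100) (.two (nat_lit 3525312578) (nat_lit 10439627749) (.two (nat_lit 156567076888) (nat_lit 3472890494) (.two (nat_lit 10504634376) (nat_lit 318776470) (.two (nat_lit 166130089989) (nat_lit 10955529176) (.two (nat_lit 11492392963) (nat_lit 1948265453) (.two (nat_lit 9766436865) (nat_lit 4207337) (.two (nat_lit 16777216) (nat_lit 2110667) (.one (nat_lit 2111204) .nil))))))))),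
   .two (nat_lit 156567077730) (nat_lit 3527412226) (.two (nat_lit 847249603) (nat_lit 166199299994) (.two (nat_lit 169869377) (nat_lit 11484009786) (.two (nat_lit 4601151503) (nat_lit 2316314288) (.two (nat_lit 2097157) (nat_lit 11546930817) (.two (nat_lit 4194305) (nat_lit 9933173549) (.two (nat_lit 2097152) (nat_lit 4208187) (.one (nat_lit 772814871) .nil))))))),
   .two (nat_lit 75498338) (nat_lit 46422559238) (.two (nat_lit 612368579) (nat_lit 156984414087) (.two (nat_lit 8388672) (nat_lit 1782585942) (.two (nat_lit 4605345807) (nat_lit 174688577195) (.two (nat_lit 4194308) (nat_lit 12633255553) (.two (nat_lit 37748737) (nat_lit 788542230) (.two (nat_lit 16777216) (nat_lit 184419366148) (.one (nat_lit 16791516) .nil))))))),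
   .two (nat_lit 157038936931) (nat_lit 780143112) (.two (nat_lit 156581757123) (nat_lit 165528211352) (.two (nat_lit 285212736) (nat_lit 11584674459) (.two (nat_lit 16777231) (nat_lit 847257749) (.two (nat_lit 2889875464) (nat_lit 183920240305) (.two (nat_lit 8388613) (nat_lit 184989789825) (.two (nat_lit 612368385) (nat_lit 11614040854) (.two (nat_lit 4194304) (nat_lit 8402184) (.one (nat_lit 876623827) .nil)))))))),
   .two (nat_lit 18928894818) (nat_lit 1753220637) (.two (nat_lit 16777411) (nat_lit 239079315) (.two (nat_lit 285212737) (nat_lit 104864370) (.two (nat_lit 285212687) (nat_lit 185023340695) (.two (nat_lit 11479810056) (nat_lit 19142813355) (.two (nat_lit 713031684) (nat_lit 171978371) (.two (nat_lit 41943041) (nat_lit 159219987718) (.one (nat_lit 10510940123) .nil))))))),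
   .two (nat_lit 13237224290) (nat_lit 1916798493) (.two (nat_lit 13237223619) (nat_lit 174755680152) (.two (nat_lit 4647288899) (nat_lit 840964706) (.two (nat_lit 1178599439) (nat_lit 185021245101) (.two (nat_lit 2887778308) (nat_lit 4647300733) (.two (nat_lit 37748737) (nat_lit 10538202373) (.one (nat_lit 19094583307) .nil)))))),
   .two (nat_lit 12129928034) (nat_lit 9802090013) (.two (nat_lit 158158815589) (nat_lit 673189763) (.two (nat_lit 12624855105) (nat_lit 10372520540) (.two (nat_lit 37748751) (nat_lit 352329877) (.two (nat_lit 2954887176) (nat_lit 13224650414) (.two (nat_lit 10372513797) (nat_lit 174701162124) (.two (nat_lit 4194305) (nat_lit 788541956) (.two (nat_lit 8388608) (nat_lit 876623109) (.one (nat_lit 1795176433) .nil)))))))),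
   .two (nat_lit 47563408226) (nat_lit 10343155229) (.two (nat_lit 3527409859) (nat_lit 21785218956) (.two (nat_lit 1276117057) (nat_lit 13237228856) (.two (nat_lit 2961178639) (nat_lit 1761616016) (.two (nat_lit 68157448) (nat_lit 183953794733) (.two (nat_lit 176160772) (nat_lit 12117356161) (.two (nat_lit 612368385) (nat_lit 12150912263) (.one (nat_lit 1062941) .nil))))))),
   .two (nat_lit 21208499043) (nat_lit 20753417758) (.two (nat_lit 889192643) (nat_lit 166136385431) (.two (nat_lit 1384120387) (nat_lit 158662138465) (.two (nat_lit 16777231) (nat_lit 8397807) (.two (nat_lit 20644364296) (nat_lit 337651374) (.two (nat_lit 10336862213) (nat_lit 8400556) (.two (nat_lit 606076929) (nat_lit 8401793) (.two (nat_lit 2097152) (nat_lit 8402185) (.one (nat_lit 2111518) .nil)))))))),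
   .two (nat_lit 10552869730) (nat_lit 1847592478) (.two (nat_lit 1847591270) (nat_lit 156984414107) (.two (nat_lit 158144135232) (nat_lit 9906952826) (.two (nat_lit 612368399) (nat_lit 13203677331) (.two (nat_lit 165526110216) (nat_lit 788539053) (.two (nat_lit 176160772) (nat_lit 47548739214) (.two (nat_lit 606076929) (nat_lit 10376720898) (.two (nat_lit 2097152) (nat_lit 16791101) (.one (nat_lit 10001332243) .nil)))))))),
   .two (nat_lit 158144136035) (nat_lit 166245434910) (.two (nat_lit 159266111683) (nat_lit 807407500) (.two (nat_lit 158144135234) (nat_lit 4201118) (.two (nat_lit 620757007) (nat_lit 2106325) (.two (nat_lit 10370416648) (nat_lit 4204216) (.two (nat_lit 184549380) (nat_lit 1746939555) (.two (nat_lit 16777217) (nat_lit 35664662) (.two (nat_lit 2097152) (nat_lit 71316743) (.one (nat_lit 16791583) .nil)))))))),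
   .two (nat_lit 156365751138) (nat_lit 4605347357) (.two (nat_lit 352321731) (nat_lit 12121543681) (.two (nat_lit 16777280) (nat_lit 9900661351) (.two (nat_lit 83886095) (nat_lit 158177698766) (.two (nat_lit 9766436872) (nat_lit 13221504686) (.two (nat_lit 270532613) (nat_lit 158150438529) (.two (nat_lit 41943041) (nat_lit 270546184) (.one (nat_lit 1062947) .nil))))))),
   .two (nat_lit 158083318627) (nat_lit 10503588364) (.two (nat_lit 156548202853) (nat_lit 171970456) (.two (nat_lit 3539992641) (nat_lit 171971898) (.two (nat_lit 46984593423) (nat_lit 205529238) (.two (nat_lit 156372041736) (nat_lit 11492402864) (.two (nat_lit 75497477) (nat_lit 1175465648) (.two (nat_lit 8388609) (nat_lit 19093533462) (.two (nat_lit 1048576) (nat_lit 276837639) (.one (nat_lit 8402984) .nil)))))))),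
   .two (nat_lit 47563408227) (nat_lit 343934493) (.two (nat_lit 343933285) (nat_lit 46523223965) (.two (nat_lit 20637024321) (nat_lit 37253814876) (.two (nat_lit 620757007) (nat_lit 4598014102) (.two (nat_lit 1749024776) (nat_lit 1853892269) (.two (nat_lit 713031684) (nat_lit 11492404865) (.two (nat_lit 41943041) (nat_lit 159250395652) (.two (nat_lit 16777216) (nat_lit 1350579461) (.one (nat_lit 8402988) .nil)))))))),
   .two (nat_lit 46489666403) (nat_lit 10538190366) (.two (nat_lit 47582281923) (nat_lit 11559505804) (.two (nat_lit 46984593473) (nat_lit 2103968) (.two (nat_lit 169869327) (nat_lit 1920999568) (.two (nat_lit 47548727304) (nat_lit 1376790192) (.two (nat_lit 169869316) (nat_lit 18941488803) (.two (nat_lit 606076929) (nat_lit 3565171204) (.two (nat_lit 16777216) (nat_lit 2317366535) (.one (nat_lit 69220383) .nil)))))))),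
   .two (nat_lit 2420114274) (nat_lit 2316306946) (.two (nat_lit 4647289027) (nat_lit 11513368453) (.two (nat_lit 285212736) (nat_lit 1279268153) (.two (nat_lit 809500687) (nat_lit 46523229867) (.two (nat_lit 9933160453) (nat_lit 855649931) (.two (nat_lit 9765388289) (nat_lit 20707292422) (.one (nat_lit 4208685) .nil)))))),
   .two (nat_lit 19027460963) (nat_lit 3573548574) (.two (nat_lit 889192643) (nat_lit 46414172037) (.two (nat_lit 16777280) (nat_lit 1786778937) (.two (nat_lit 8388623) (nat_lit 16784238) (.two (nat_lit 813694984) (nat_lit 46523229868) (.two (nat_lit 12121538565) (nat_lit 3036687994) (.two (nat_lit 9766436865) (nat_lit 713045257) (.one (nat_lit 35665935) .nil))))))),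
   .two (nat_lit 12163482467) (nat_lit 183912891933) (.two (nat_lit 142606531) (nat_lit 3557822343) (.two (nat_lit 11584667714) (nat_lit 37329312354) (.two (nat_lit 4613734415) (nat_lit 679486444) (.two (nat_lit 12047089672) (nat_lit 159266121393) (.two (nat_lit 8388612) (nat_lit 12633255575) (.two (nat_lit 34603009) (nat_lit 50345221) (.one (nat_lit 3020961801) .nil))))))),
   .two (nat_lit 183962174307) (nat_lit 10439625236) (.two (nat_lit 10015998147) (nat_lit 156372045699) (.two (nat_lit 157038936131) (nat_lit 10921974373) (.two (nat_lit 16777231) (nat_lit 8396954) (.two (nat_lit 8388616) (nat_lit 20753426091) (.two (nat_lit 9873391621) (nat_lit 352333433) (.two (nat_lit 156367847425) (nat_lit 2332045824) (.two (nat_lit 4194304) (nat_lit 16791113) (.one (nat_lit 171980815) .nil)))))))),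
   .two (nat_lit 174685422435) (nat_lit 1411385862) (.two (nat_lit 2994733251) (nat_lit 270536591) (.two (nat_lit 4034920513) (nat_lit 69212830) (.two (nat_lit 612368399) (nat_lit 46489673881) (.two (nat_lit 2961178632) (nat_lit 21778933425) (.two (nat_lit 28757196805) (nat_lit 1344286380) (.two (nat_lit 9765388289) (nat_lit 102774024) (.one (nat_lit 11476678646) .nil))))))),
   .two (nat_lit 10436477795) (nat_lit 9906947614) (.two (nat_lit 142606531) (nat_lit 303043554) (.two (nat_lit 184549441) (nat_lit 166136386876) (.two (nat_lit 612368399) (nat_lit 10921974640) (.two (nat_lit 2961178632) (nat_lit 20753426092) (.two (nat_lit 19596836869) (nat_lit 889204396) (.two (nat_lit 41943041) (nat_lit 16790418) (.two (nat_lit 1048576) (nat_lit 8402187) (.one (nat_lit 16791600) .nil)))))))),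
   .two (nat_lit 12054430563) (nat_lit 156367848989) (.two (nat_lit 843055299) (nat_lit 165540794251) (.two (nat_lit 306184259) (nat_lit 20652759646) (.two (nat_lit 50331663) (nat_lit 46984602566) (.two (nat_lit 809500680) (nat_lit 19142813355) (.two (nat_lit 4194308) (nat_lit 9873403523) (.two (nat_lit 41943041) (nat_lit 20707292422) (.one (nat_lit 4208689) .nil))))))),
   .two (nat_lit 19027460962) (nat_lit 10552870430) (.two (nat_lit 47596961987) (nat_lit 12048142215) (.two (nat_lit 156533522499) (nat_lit 68164254) (.two (nat_lit 11492392975) (nat_lit 1057784) (.two (nat_lit 10538188812) (nat_lit 68167352) (.two (nat_lit 9948889093) (nat_lit 839921316) (.two (nat_lit 9766436865) (nat_lit 101725448) (.one (nat_lit 11477727222) .nil))))))),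
   .two (nat_lit 9781117794) (nat_lit 19529730564) (.two (nat_lit 339738981) (nat_lit 3573551009) (.two (nat_lit 4194370) (nat_lit 16784238) (.two (nat_lit 4194312) (nat_lit 889202347) (.two (nat_lit 4194308) (nat_lit 620769039) (.two (nat_lit 2097153) (nat_lit 1062153) (.one (nat_lit 1062976) .nil)))))),
   .two (nat_lit 10552869730) (nat_lit 69208587) (.two (nat_lit 16777411) (nat_lit 1753223044) (.two (nat_lit 16777280) (nat_lit 156372047158) (.two (nat_lit 16777231) (nat_lit 28798099604) (.two (nat_lit 8388616) (nat_lit 16787133) (.two (nat_lit 8388612) (nat_lit 185035922430) (.two (nat_lit 9766436865) (nat_lit 184562182) (.two (nat_lit 2097152) (nat_lit 276837889) (.one (nat_lit 16791271) .nil)))))))),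
   .two (nat_lit 157036839779) (nat_lit 9802090013) (.two (nat_lit 306184387) (nat_lit 10000269825) (.two (nat_lit 157036839526) (nat_lit 9802090126) (.two (nat_lit 46978302018) (nat_lit 166199298853) (.two (nat_lit 46407876623) (nat_lit 809506286) (.two (nat_lit 37748744) (nat_lit 739257015) (.two (nat_lit 2097155) (nat_lit 608185982) (.two (nat_lit 156364701697) (nat_lit 2107145) (.two (nat_lit 2097152) (nat_lit 11479824043) (.one (nat_lit 1062632) .nil))))))))),
   .two (nat_lit 157036839779) (nat_lit 9802090013) (.two (nat_lit 306184387) (nat_lit 10000269825) (.two (nat_lit 157036839526) (nat_lit 9802090126) (.two (nat_lit 157036839526) (nat_lit 12117345932) (.two (nat_lit 46978302018) (nat_lit 166199298853) (.two (nat_lit 46978302018) (nat_lit 10338962208) (.two (nat_lit 46407876623) (nat_lit 809506286) (.two (nat_lit 46407876623) (nat_lit 272635315) (.two (nat_lit 37748744) (nat_lit 739257015) (.two (nat_lit 12114198533) (nat_lit 2107145) (.two (nat_lit 2097155) (nat_lit 608185982) (.two (nat_lit 34603009) (nat_lit 742404633) (.two (nat_lit 2097152) (nat_lit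 11479824043) (.one (nat_lit 1062988) .nil))))))))))))),
   .two (nat_lit 10939793633) (nat_lit 2988442104) (.two (nat_lit 159250383316) (nat_lit 236979148) (.two (nat_lit 2097621) (nat_lit 873466389) (.two (nat_lit 174685421666) (nat_lit 11611932301) (.two (nat_lit 28087156832) (nat_lit 156465370303) (.two (nat_lit 1410334758) (nat_lit 35655559) (.two (nat_lit 21207449666) (nat_lit 2988444490) (.two (nat_lit 46978301988) (nat_lit 13221501516) (.two (nat_lit 28087156774) (nat_lit 19026418328) (.two (nat_lit 158075977743) (nat_lit 156365757308) (.two (nat_lit 46978301968) (nat_lit 28690097702) (.two (nat_lit 158075977736) (nat_lit 1277176492) (.two (nat_lit 46407876610) (nat_lit 1058547) (.two (nat_lit 1276116995) (nat_lit 47582293757) (.two (nat_lit 156365750273) (nat_lit 1061407) (.two (nat_lit 2097152) (nat_lit 1062577) (.one (nat_lit 1062990) .nil)))))))))))))))),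
   .two (nat_lit 12117345822) (nat_lit 1392510258) (.two (nat_lit 285212867) (nat_lit 9936310156) (.two (nat_lit 285212736) (nat_lit 183916041528) (.two (nat_lit 285212687) (nat_lit 19532882083) (.two (nat_lit 11492392968) (nat_lit 12620671418) (.two (nat_lit 16777220) (nat_lit 3024105088) (.two (nat_lit 37748737) (nat_lit 13203682077) (.two (nat_lit 4194304) (nat_lit 285226264) (.one (nat_lit 4208695) .nil)))))))),
   .two (nat_lit 11551114082) (nat_lit 1779435040) (.two (nat_lit 11551114082) (nat_lit 2316305352) (.two (nat_lit 713032546) (nat_lit 21207449832) (.two (nat_lit 612368579) (nat_lit 740298632) (.two (nat_lit 8388672) (nat_lit 235936361) (.two (nat_lit 41943055) (nat_lit 1749034562) (.two (nat_lit 75497480) (nat_lit 12050246200) (.two (nat_lit 713031684) (nat_lit 1377840826) (.two (nat_lit 4194305) (nat_lit 158150439935) (.two (nat_lit 4194304) (nat_lit 1062609) (.one (nat_lit 4028643302) .nil)))))))))),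
   .two (nat_lit 713032546) (nat_lit 1312818719) (.two (nat_lit 713032546) (nat_lit 165525062135) (.two (nat_lit 41943235) (nat_lit 9869201288) (.two (nat_lit 8388672) (nat_lit 10503591225) (.two (nat_lit 8388623) (nat_lit 158075986090) (.two (nat_lit 11551113224) (nat_lit 9869207214) (.two (nat_lit 612368389) (nat_lit 158079135520) (.two (nat_lit 2097153) (nat_lit 4631573405) (.two (nat_lit 1048576) (nat_lit 171980482) (.one (nat_lit 185020200913) .nil))))))))),
   .two (nat_lit 713032546) (nat_lit 21207449832) (.two (nat_lit 8388672) (nat_lit 235936361) (.two (nat_lit 41943055) (nat_lit 1749034562) (.two (nat_lit 713031684) (nat_lit 1377840826) (.two (nat_lit 4194305) (nat_lit 158150439935) (.one (nat_lit 4028643302) .nil))))),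
   .two (nat_lit 236979496) (nat_lit 19029557752) (.two (nat_lit 13191086275) (nat_lit 156372045702) (.two (nat_lit 4601151554) (nat_lit 9772733756) (.two (nat_lit 2954887183) (nat_lit 847258791) (.two (nat_lit 9766436872) (nat_lit 21814585782) (.two (nat_lit 169869316) (nat_lit 813706868) (.two (nat_lit 41943041) (nat_lit 239088803) (.two (nat_lit 8388608) (nat_lit 156533536019) (.one (nat_lit 2111544) .nil)))))))),
   .two (nat_lit 8389474) (nat_lit 136315384) (.two (nat_lit 8388803) (nat_lit 4043313040) (.two (nat_lit 721420396) (nat_lit 11543778615) (.two (nat_lit 721420303) (nat_lit 37246475120) (.two (nat_lit 721420296) (nat_lit 34612918) (.two (nat_lit 50331653) (nat_lit 21812485118) (.two (nat_lit 34603009) (nat_lit 21812489024) (.two (nat_lit 16777216) (nat_lit 2349872626) (.one (nat_lit 2111567) .nil)))))))),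
   .two (nat_lit 4634706786) (nat_lit 47547681291) (.two (nat_lit 4634706115) (nat_lit 156566033534) (.two (nat_lit 185027526721) (nat_lit 185020192055) (.two (nat_lit 11551113231) (nat_lit 2886736752) (.two (nat_lit 4194312) (nat_lit 10336873141) (.two (nat_lit 2097157) (nat_lit 183848937225) (.two (nat_lit 37748737) (nat_lit 235942400) (.two (nat_lit 1048576) (nat_lit 2418029834) (.one (nat_lit 8402661) .nil)))))))),
   .two (nat_lit 156567077731) (nat_lit 4634707485) (.two (nat_lit 47582281923) (nat_lit 10537145470) (.two (nat_lit 185027526721) (nat_lit 185020192055) (.two (nat_lit 11551113231) (nat_lit 2886736752) (.two (nat_lit 169869320) (nat_lit 156367858357) (.two (nat_lit 171966469) (nat_lit 20638082825) (.two (nat_lit 1344274437) (nat_lit 1410344688) (.two (nat_lit 37748737) (nat_lit 2920296960) (.two (nat_lit 1048576) (nat_lit 37316736266) (.one (nat_lit 8403011) .nil))))))))),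
   .two (nat_lit 16777411) (nat_lit 2420117398) (.two (nat_lit 8388616) (nat_lit 839919285) (.two (nat_lit 8388608) (nat_lit 9900667459) .nil)),
   .two (nat_lit 13203669858) (nat_lit 10343156276) (.two (nat_lit 4195170) (nat_lit 285213640) (.two (nat_lit 4195170) (nat_lit 889192680) (.two (nat_lit 16777411) (nat_lit 37314629526) (.two (nat_lit 16777282) (nat_lit 4638907152) (.two (nat_lit 176160783) (nat_lit 2886736751) (.two (nat_lit 176160776) (nat_lit 839919285) (.two (nat_lit 10372513797) (nat_lit 1376792357) (.two (nat_lit 8388609) (nat_lit 202388279) (.two (nat_lit 8388608) (nat_lit 772814543) (.one (nat_lit 2111546) .nil)))))))))),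
   .two (nat_lit 4195170) (nat_lit 285213640) (.two (nat_lit 4195170) (nat_lit 889192680) (.two (nat_lit 16777411) (nat_lit 37314629526) (.two (nat_lit 16777282) (nat_lit 4638907152) (.two (nat_lit 176160783) (nat_lit 2886736751) (.two (nat_lit 176160776) (nat_lit 839919285) (.two (nat_lit 10372513797) (nat_lit 1376792357) (.two (nat_lit 8388609) (nat_lit 202388279) (.two (nat_lit 8388608) (nat_lit 1062175) (.one (nat_lit 2111546) .nil))))))))),
   .two (nat_lit 4195170) (nat_lit 47596962297) (.two (nat_lit 184549441) (nat_lit 47588580112) (.two (nat_lit 8388623) (nat_lit 202382191) (.two (nat_lit 176160773) (nat_lit 3557830285) (.two (nat_lit 8388609) (nat_lit 174686483241) (.one (nat_lit 2990553145) .nil))))),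
   .two (nat_lit 9766437730) (nat_lit 185035915496) (.two (nat_lit 8388672) (nat_lit 269490761) (.two (nat_lit 721420303) (nat_lit 158075987181) (.two (nat_lit 721420292) (nat_lit 158077038255) (.two (nat_lit 2097153) (nat_lit 303051780) (.one (nat_lit 2111547) .nil))))),
   .two (nat_lit 11618223389) (nat_lit 159216828920) (.two (nat_lit 4601151683) (nat_lit 4605351104) (.two (nat_lit 9881780289) (nat_lit 158649551653) (.two (nat_lit 3539992591) (nat_lit 4204125) (.two (nat_lit 218103816) (nat_lit 839920155) (.two (nat_lit 37748739) (nat_lit 9966727459) (.two (nat_lit 16777217) (nat_lit 34614082) (.two (nat_lit 1048576) (nat_lit 9915348577) (.one (nat_lit 4208361) .nil)))))))),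
   .two (nat_lit 9940501346) (nat_lit 184549880) (.two (nat_lit 272629955) (nat_lit 2969572404) (.two (nat_lit 3539992641) (nat_lit 1178604856) (.two (nat_lit 3539992591) (nat_lit 156535627935) (.two (nat_lit 11492392968) (nat_lit 9765399254) (.two (nat_lit 11479810052) (nat_lit 19100870409) (.two (nat_lit 8388609) (nat_lit 19093531458) (.two (nat_lit 1048576) (nat_lit 156539827697) (.one (nat_lit 9772742752) .nil)))))))),
   .two (nat_lit 156533523298) (nat_lit 174752530936) (.two (nat_lit 4613734623) (nat_lit 21811431963) (.two (nat_lit 3525312707) (nat_lit 1761608193) (.two (nat_lit 3525312707) (nat_lit 21827160775) (.two (nat_lit 21207449958) (nat_lit 47582283404) (.two (nat_lit 20753416259) (nat_lit 2953844138) (.two (nat_lit 3573547075) (nat_lit 28691139360) (.two (nat_lit 2887778319) (nat_lit 16780106) (.two (nat_lit 2887778319) (nat_lit 16781438) (.two (nat_lit 620757000) (nat_lit 69216923) (.two (nat_lit 184549380) (nat_lit 156364711689) (.two (nat_lit 184549379) (nat_lit 19094580887) (.two (nat_lit 620756993) (nat_lit 1061408) (.two (nat_lit 16777216) (nat_lit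 1062611) (.one (nat_lit 16791634) .nil)))))))))))))),
   .two (nat_lit 10015998819) (nat_lit 13195281949) (.two (nat_lit 4601151683) (nat_lit 310382504) (.two (nat_lit 4605345858) (nat_lit 2920289774) (.two (nat_lit 4601151552) (nat_lit 1846547880) (.two (nat_lit 184549391) (nat_lit 46409979309) (.two (nat_lit 184549391) (nat_lit 46409982150) (.two (nat_lit 4194312) (nat_lit 10007620303) (.two (nat_lit 171966469) (nat_lit 176170761) (.two (nat_lit 4194307) (nat_lit 166211890837) (.two (nat_lit 605028353) (nat_lit 2432709920) (.two (nat_lit 4194304) (nat_lit 2886743693) (.one (nat_lit 1062995) .nil))))))))))),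
   .two (nat_lit 13195281250) (nat_lit 37313579540) (.two (nat_lit 4605345857) (nat_lit 46977260206) (.two (nat_lit 41943055) (nat_lit 1058169) (.two (nat_lit 4194306) (nat_lit 2349871380) (.two (nat_lit 605028353) (nat_lit 4043322264) (.one (nat_lit 4208363) .nil))))),
   .two (nat_lit 10552870183) (nat_lit 156533523997) (.two (nat_lit 8388672) (nat_lit 1055305) (.two (nat_lit 612368399) (nat_lit 739255267) (.two (nat_lit 176160772) (nat_lit 10369379953) (.two (nat_lit 2097153) (nat_lit 336606279) (.one (nat_lit 1062972) .nil))))),
   .two (nat_lit 2097377) (nat_lit 12150902302) (.two (nat_lit 4613735267) (nat_lit 1849688567) (.two (nat_lit 47548727491) (nat_lit 19029558994) (.two (nat_lit 272629824) (nat_lit 46474992246) (.two (nat_lit 46407876623) (nat_lit 11022640182) (.two (nat_lit 184549382) (nat_lit 2418026997) (.two (nat_lit 166129041412) (nat_lit 10940853984) (.two (nat_lit 2097153) (nat_lit 1062087) (.two (nat_lit 2097152) (nat_lit 4207905) (.one (nat_lit 28758259688) .nil))))))))),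
   .two (nat_lit 243270951) (nat_lit 156533523997) (.two (nat_lit 2921333093) (nat_lit 1920995237) (.two (nat_lit 318767169) (nat_lit 176166200) (.two (nat_lit 2887778319) (nat_lit 19134424275) (.two (nat_lit 16777224) (nat_lit 1310729902) (.two (nat_lit 16777220) (nat_lit 20738748104) (.two (nat_lit 8388609) (nat_lit 13189002088) (.two (nat_lit 16777216) (nat_lit 2317366976) (.one (nat_lit 151009340) .nil)))))))),
   .two (nat_lit 2098472) (nat_lit 3573547979) (.two (nat_lit 13237224290) (nat_lit 205521399) (.two (nat_lit 285212867) (nat_lit 2954888914) (.two (nat_lit 285212737) (nat_lit 2954890019) (.two (nat_lit 285212737) (nat_lit 2954888914) (.two (nat_lit 8388623) (nat_lit 4601157029) (.two (nat_lit 8388623) (nat_lit 20705185913) (.two (nat_lit 4194313) (nat_lit 12163491566) (.two (nat_lit 11479810050) (nat_lit 270544607) (.two (nat_lit 11546918917) (nat_lit 12163491566) (.two (nat_lit 2097153) (nat_lit 8401441) (.two (nat_lit 2097152) (nat_lit 8402210) (.one (nat_lit 2111572) .nil)))))))))))),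
   .two (nat_lit 612369251) (nat_lit 46978302186) (.two (nat_lit 47588573249) (nat_lit 158144136913) (.two (nat_lit 3458203663) (nat_lit 336602223) (.two (nat_lit 46414168066) (nat_lit 202387552) (.two (nat_lit 9765388289) (nat_lit 10376721474) (.one (nat_lit 1062973) .nil))))),
   .two (nat_lit 169870179) (nat_lit 754974952) (.two (nat_lit 11577327681) (nat_lit 166197200594) (.two (nat_lit 16777231) (nat_lit 10336866425) (.two (nat_lit 822083589) (nat_lit 185021243716) (.two (nat_lit 50331649) (nat_lit 185021243716) (.one (nat_lit 4208365) .nil))))),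
   .two (nat_lit 13228835682) (nat_lit 205523476) (.two (nat_lit 3560964453) (nat_lit 270536600) (.two (nat_lit 19029557315) (nat_lit 243276502) (.two (nat_lit 46407876623) (nat_lit 708847280) (.two (nat_lit 46407876616) (nat_lit 708847280) (.two (nat_lit 46407876612) (nat_lit 18925760273) (.two (nat_lit 2097153) (nat_lit 2987406173) (.two (nat_lit 4194304) (nat_lit 2317366976) (.one (nat_lit 2111551) .nil)))))))),
   .two (nat_lit 3527410530) (nat_lit 10376710662) (.two (nat_lit 3527409859) (nat_lit 10007613324) (.two (nat_lit 3525312576) (nat_lit 47584385655) (.two (nat_lit 2889875471) (nat_lit 740303865) (.two (nat_lit 2889875464) (nat_lit 9948897593) (.two (nat_lit 2887778308) (nat_lit 276835953) (.two (nat_lit 2097153) (nat_lit 184989791150) (.two (nat_lit 2097152) (nat_lit 352335147) (.one (nat_lit 337655826) .nil)))))))),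
   .two (nat_lit 3527410530) (nat_lit 10376710662) (.two (nat_lit 3527409859) (nat_lit 10007613324) (.two (nat_lit 3525312576) (nat_lit 47584385655) (.two (nat_lit 2889875471) (nat_lit 740303865) (.two (nat_lit 2889875464) (nat_lit 2961187074) (.two (nat_lit 2889875464) (nat_lit 9948897593) (.two (nat_lit 2887778308) (nat_lit 276835953) (.two (nat_lit 2097153) (nat_lit 184989791150) (.two (nat_lit 8388608) (nat_lit 16791259) (.one (nat_lit 337655826) .nil))))))))),
   .two (nat_lit 13191087646) (nat_lit 847250830) (.two (nat_lit 8388803) (nat_lit 2988445608) (.two (nat_lit 8388672) (nat_lit 236985021) (.two (nat_lit 176160783) (nat_lit 3457164628) (.two (nat_lit 612368392) (nat_lit 156364712667) (.two (nat_lit 176160772) (nat_lit 10909396695) (.two (nat_lit 41943041) (nat_lit 10503599048) (.two (nat_lit 1048576) (nat_lit 19537081623) (.one (nat_lit 156466427883) .nil)))))))),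
   .two (nat_lit 19109249890) (nat_lit 21777875915) (.two (nat_lit 8389474) (nat_lit 1426063865) (.two (nat_lit 11543773379) (nat_lit 19042141841) (.two (nat_lit 3558867009) (nat_lit 158143089443) (.two (nat_lit 3558867009) (nat_lit 158143088338) (.two (nat_lit 9948889103) (nat_lit 10436486674) (.two (nat_lit 184549382) (nat_lit 13187951130) (.two (nat_lit 16777221) (nat_lit 28690099863) (.two (nat_lit 620756993) (nat_lit 35664962) (.two (nat_lit 2097152) (nat_lit 109065516) (.one (nat_lit 807417918) .nil)))))))))),
   .two (nat_lit 4613735266) (nat_lit 11618223046) (.two (nat_lit 4613735266) (nat_lit 1384121291) (.two (nat_lit 8389474) (nat_lit 47596962026) (.two (nat_lit 880804035) (nat_lit 159216830092) (.two (nat_lit 41943235) (nat_lit 4043310737) (.two (nat_lit 8388627) (nat_lit 21812486155) (.two (nat_lit 3558867009) (nat_lit 158143089443) (.two (nat_lit 3558867009) (nat_lit 158143088338) (.two (nat_lit 184549391) (nat_lit 35661378) (.two (nat_lit 822083590) (nat_lit 183920241178) (.two (nat_lit 101711879) (nat_lit 2105603) (.two (nat_lit 117440517) (nat_lit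 2927636119) (.two (nat_lit 620756993) (nat_lit 740308034) (.two (nat_lit 2097152) (nat_lit 1062621) (.one (nat_lit 11477727294) .nil)))))))))))))),
   .two (nat_lit 1178600290) (nat_lit 3573547240) (.two (nat_lit 3539992641) (nat_lit 239078177) (.two (nat_lit 21793603599) (nat_lit 746594441) (.two (nat_lit 46422556677) (nat_lit 13191098042) (.two (nat_lit 156364701697) (nat_lit 4207817) (.one (nat_lit 8403029) .nil))))),
   .two (nat_lit 2969567454) (nat_lit 184989780495) (.two (nat_lit 9940501346) (nat_lit 352321768) (.two (nat_lit 19529728357) (nat_lit 183949594499) (.two (nat_lit 272629824) (nat_lit 34609829) (.two (nat_lit 285212687) (nat_lit 11517568237) (.two (nat_lit 156968681480) (nat_lit 183920241227) (.two (nat_lit 16777220) (nat_lit 11510230703) (.two (nat_lit 8388609) (nat_lit 156532487232) (.two (nat_lit 8388608) (nat_lit 4207909) (.one (nat_lit 9765402683) .nil))))))))),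
   .two (nat_lit 16778781) (nat_lit 847249913) (.two (nat_lit 16777280) (nat_lit 276826955) (.two (nat_lit 16777221) (nat_lit 47555028742) (.one (nat_lit 276837678) .nil))),
   .two (nat_lit 612369950) (nat_lit 21812478185) (.two (nat_lit 1276117057) (nat_lit 166197201742) (.two (nat_lit 10503585797) (nat_lit 11007960838) (.one (nat_lit 2111581) .nil))),
   .two (nat_lit 306185758) (nat_lit 46414168296) (.two (nat_lit 2902458478) (nat_lit 20704137344) (.two (nat_lit 721420290) (nat_lit 4205361) (.one (nat_lit 16791646) .nil))),
   .two (nat_lit 183912890563) (nat_lit 10336863591) (.two (nat_lit 185035915330) (nat_lit 156465367551) (.two (nat_lit 4194319) (nat_lit 19612570602) (.two (nat_lit 4194312) (nat_lit 11477720911) (.two (nat_lit 4194308) (nat_lit 3573557323) (.two (nat_lit 50331649) (nat_lit 4028640532) (.two (nat_lit 2097152) (nat_lit 1279275223) (.one (nat_lit 1175467236) .nil))))))),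
   .two (nat_lit 2969567689) (nat_lit 136316969) (.two (nat_lit 159266111683) (nat_lit 11007952413) (.two (nat_lit 46474985537) (nat_lit 1224740747) (.two (nat_lit 156367847439) (nat_lit 606083656) (.two (nat_lit 3525312520) (nat_lit 721431488) (.two (nat_lit 3525312520) (nat_lit 46422560891) (.two (nat_lit 708837381) (nat_lit 352331436) (.two (nat_lit 2097153) (nat_lit 184561458) (.two (nat_lit 2097152) (nat_lit 2902472153) (.one (nat_lit 16791662) .nil))))))))),
   .two (nat_lit 276824288) (nat_lit 37314626403) (.two (nat_lit 4195170) (nat_lit 12624855496) (.two (nat_lit 11543773379) (nat_lit 19096667677) (.two (nat_lit 11543773250) (nat_lit 807407508) (.two (nat_lit 4194319) (nat_lit 4599061079) (.two (nat_lit 705691656) (nat_lit 46980406141) (.two (nat_lit 4194312) (nat_lit 19027465639) (.two (nat_lit 705691652) (nat_lit 1210067389) (.two (nat_lit 2097153) (nat_lit 28086120084) (.two (nat_lit 1048576) (nat_lit 2110947) (.one (nat_lit 2111430) .nil)))))))))),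
   .two (nat_lit 12115247564) (nat_lit 285213989) (.two (nat_lit 1312817510) (nat_lit 46474987037) (.two (nat_lit 46474985537) (nat_lit 13221496464) (.two (nat_lit 705691713) (nat_lit 9881784240) (.two (nat_lit 169869377) (nat_lit 16780067) (.two (nat_lit 4194319) (nat_lit 2887785033) (.two (nat_lit 4194312) (nat_lit 169877687) (.two (nat_lit 4194312) (nat_lit 169876340) (.two (nat_lit 4194306) (nat_lit 10537151617) (.two (nat_lit 4194308) (nat_lit 11006912191) (.two (nat_lit 606076929) (nat_lit 742403697) (.two (nat_lit 4194304) (nat_lit 2902472441) (.one (nat_lit 16791663) .nil)))))))))))),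
   .two (nat_lit 47548727522) (nat_lit 165532402531) (.two (nat_lit 47555019619) (nat_lit 2953839052) (.two (nat_lit 46407876965) (nat_lit 159224170013) (.two (nat_lit 4613734466) (nat_lit 28697431943) (.two (nat_lit 169869327) (nat_lit 184993980049) (.two (nat_lit 11551113224) (nat_lit 1392517378) (.two (nat_lit 169869320) (nat_lit 183953789050) (.two (nat_lit 1277165573) (nat_lit 3472893631) (.two (nat_lit 713031685) (nat_lit 9915343106) (.two (nat_lit 50331649) (nat_lit 166129053738) (.two (nat_lit 16777216) (nat_lit 8402404) (.one (nat_lit 8402888) .nil))))))))))),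
   .two (nat_lit 742392267) (nat_lit 28764538156) (.two (nat_lit 156372041923) (nat_lit 2987395592) (.two (nat_lit 4634705985) (nat_lit 21777878919) (.two (nat_lit 4194319) (nat_lit 310385306) (.two (nat_lit 4194312) (nat_lit 10376717954) (.two (nat_lit 4194312) (nat_lit 9772733873) (.two (nat_lit 4194308) (nat_lit 28086118066) (.two (nat_lit 2097153) (nat_lit 135278207) (.two (nat_lit 8388608) (nat_lit 1062374) (.one (nat_lit 8402889) .nil))))))))),
   .two (nat_lit 11551113675) (nat_lit 20638073698) (.two (nat_lit 8388803) (nat_lit 159217878557) (.two (nat_lit 8388672) (nat_lit 184986636165) (.two (nat_lit 8388623) (nat_lit 11006909021) (.two (nat_lit 8388616) (nat_lit 71311561) (.two (nat_lit 8388616) (nat_lit 19529732219) (.two (nat_lit 8388612) (nat_lit 11006912957) (.two (nat_lit 2097153) (nat_lit 9806294676) (.two (nat_lit 8388608) (nat_lit 1062653) (.one (nat_lit 1063024) .nil))))))))),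
   .two (nat_lit 276824288) (nat_lit 205522245) (.two (nat_lit 47563408227) (nat_lit 46984593863) (.two (nat_lit 880804035) (nat_lit 20637026818) (.two (nat_lit 8388627) (nat_lit 19529731994) (.two (nat_lit 8388672) (nat_lit 11614029452) (.two (nat_lit 8388672) (nat_lit 158075979474) (.two (nat_lit 620757007) (nat_lit 12147758392) (.two (nat_lit 620757000) (nat_lit 183845785723) (.two (nat_lit 8388616) (nat_lit 21207455143) (.two (nat_lit 11492392964) (nat_lit 880814522) (.two (nat_lit 16777217) (nat_lit 159257734865) (.two (nat_lit 4194304) (nat_lit 1062122) (.one (nat_lit 4208586) .nil)))))))))))),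
   .two (nat_lit 11551113675) (nat_lit 3560965427) (.two (nat_lit 343933123) (nat_lit 20637026818) (.two (nat_lit 8388672) (nat_lit 4631565268) (.two (nat_lit 713031695) (nat_lit 21827165791) (.two (nat_lit 620757000) (nat_lit 10544488649) (.two (nat_lit 620757000) (nat_lit 183845785723) (.two (nat_lit 721420292) (nat_lit 184989788605) (.two (nat_lit 16777217) (nat_lit 1182805792) (.two (nat_lit 1048576) (nat_lit 4208382) (.one (nat_lit 1063025) .nil))))))))),
   .two (nat_lit 754975177) (nat_lit 46507493652) (.two (nat_lit 10519314789) (nat_lit 9802090013) (.two (nat_lit 3539992641) (nat_lit 166232854408) (.two (nat_lit 4601151503) (nat_lit 1182800611) (.two (nat_lit 1929379848) (nat_lit 46473942442) (.two (nat_lit 4194312) (nat_lit 46422560891) (.two (nat_lit 4194308) (nat_lit 1417684656) (.two (nat_lit 8388609) (nat_lit 183912902273) (.two (nat_lit 1048576) (nat_lit 4208383) (.one (nat_lit 4208754) .nil))))))))),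
   .two (nat_lit 285212894) (nat_lit 1276117858) (.two (nat_lit 2961179491) (nat_lit 754975178) (.two (nat_lit 46473937254) (nat_lit 28760345092) (.two (nat_lit 3539992641) (nat_lit 4634709891) (.two (nat_lit 2961178639) (nat_lit 46477090853) (.two (nat_lit 2969567240) (nat_lit 156566033842) (.two (nat_lit 612368392) (nat_lit 1749031816) (.two (nat_lit 2902458373) (nat_lit 12617524912) (.two (nat_lit 8388609) (nat_lit 156364713641) (.two (nat_lit 8388608) (nat_lit 4208103) (.one (nat_lit 166144784077) .nil)))))))))),
   .two (nat_lit 4601152354) (nat_lit 10940844564) (.two (nat_lit 620757187) (nat_lit 3557823454) (.two (nat_lit 4194369) (nat_lit 10376714838) (.two (nat_lit 4194319) (nat_lit 2106347) (.two (nat_lit 4194312) (nat_lit 2107891) (.two (nat_lit 8388613) (nat_lit 605040271) (.two (nat_lit 4194305) (nat_lit 37247529820) (.two (nat_lit 1048576) (nat_lit 4030740431) .nil))))))),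
   .two (nat_lit 16778525) (nat_lit 1417676318) (.two (nat_lit 16777411) (nat_lit 156976026938) (.two (nat_lit 8388623) (nat_lit 16784238) (.two (nat_lit 8388616) (nat_lit 1426073260) (.two (nat_lit 8388612) (nat_lit 159232568971) (.two (nat_lit 8388609) (nat_lit 16791086) (.one (nat_lit 8402969) .nil)))))),
   .two (nat_lit 4601152354) (nat_lit 10376710661) (.two (nat_lit 4605345987) (nat_lit 2316309816) (.two (nat_lit 4194319) (nat_lit 102769635) (.two (nat_lit 8388616) (nat_lit 9934220918) (.two (nat_lit 4194305) (nat_lit 47555031827) (.two (nat_lit 4194304) (nat_lit 28791813643) (.one (nat_lit 1062938) .nil)))))),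
   .two (nat_lit 876610402) (nat_lit 1392511501) (.two (nat_lit 3525312707) (nat_lit 183953791562) (.two (nat_lit 721420303) (nat_lit 2107257) (.two (nat_lit 4194312) (nat_lit 2108384) (.two (nat_lit 8388612) (nat_lit 1060927) (.two (nat_lit 2097153) (nat_lit 4207945) (.two (nat_lit 1048576) (nat_lit 2111258) (.one (nat_lit 1063103) .nil))))))),
   .two (nat_lit 10001318754) (nat_lit 343935486) (.two (nat_lit 2954887363) (nat_lit 71307144) (.two (nat_lit 2954887232) (nat_lit 705698444) (.two (nat_lit 9934209039) (nat_lit 46406837227) (.two (nat_lit 169869320) (nat_lit 4205044) (.two (nat_lit 2097157) (nat_lit 2923441788) (.two (nat_lit 4194305) (nat_lit 1310733094) (.two (nat_lit 4194304) (nat_lit 21778937363) (.one (nat_lit 1062939) .nil)))))))),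
   .two (nat_lit 1216349027) (nat_lit 1849690652) (.two (nat_lit 47555018947) (nat_lit 156533526412) (.two (nat_lit 4605345857) (nat_lit 46474992244) (.two (nat_lit 9940500495) (nat_lit 158158823562) (.two (nat_lit 8388616) (nat_lit 639641266) (.two (nat_lit 8388612) (nat_lit 156567088806) (.two (nat_lit 16777217) (nat_lit 2921345908) (.two (nat_lit 4194304) (nat_lit 10370430954) .nil))))))),
   .two (nat_lit 10015998818) (nat_lit 10376710661) (.two (nat_lit 889192643) (nat_lit 20640175068) (.two (nat_lit 4605345857) (nat_lit 9814678128) (.two (nat_lit 4601151503) (nat_lit 1411392458) (.two (nat_lit 8388616) (nat_lit 639641266) (.two (nat_lit 4194308) (nat_lit 706752113) (.two (nat_lit 606076929) (nat_lit 9802102313) (.one (nat_lit 9867114485) .nil))))))),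
   .two (nat_lit 156567077730) (nat_lit 19599986564) (.two (nat_lit 339738689) (nat_lit 156372047158) (.two (nat_lit 4194319) (nat_lit 28798099604) (.two (nat_lit 169869320) (nat_lit 10376718785) (.two (nat_lit 34603013) (nat_lit 272641678) (.two (nat_lit 34603009) (nat_lit 1413494287) (.one (nat_lit 13221509088) .nil)))))),
   .two (nat_lit 156372042595) (nat_lit 185020189204) (.two (nat_lit 4601151683) (nat_lit 156372045699) (.two (nat_lit 4194369) (nat_lit 1786780234) (.two (nat_lit 4194319) (nat_lit 8397804) (.two (nat_lit 169869320) (nat_lit 847261309) (.two (nat_lit 2097153) (nat_lit 13191099156) (.two (nat_lit 1048576) (nat_lit 2111034) (.one (nat_lit 1062940) .nil))))))),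
   .two (nat_lit 9766437730) (nat_lit 47596964360) (.two (nat_lit 8388803) (nat_lit 4632612754) (.two (nat_lit 721420353) (nat_lit 3457162095) (.two (nat_lit 721420296) (nat_lit 69215926) (.two (nat_lit 620756997) (nat_lit 235941517) (.two (nat_lit 620756993) (nat_lit 19027473193) (.two (nat_lit 1048576) (nat_lit 2111259) (.one (nat_lit 19109263340) .nil))))))),
   .two (nat_lit 606077794) (nat_lit 10007611926) (.two (nat_lit 310378691) (nat_lit 1782584299) (.two (nat_lit 339738690) (nat_lit 2961185388) (.two (nat_lit 46414168079) (nat_lit 156532483024) (.two (nat_lit 169869320) (nat_lit 71313072) (.two (nat_lit 2097157) (nat_lit 4206249) (.two (nat_lit 2097153) (nat_lit 13187953515) (.two (nat_lit 1048576) (nat_lit 171980823) .nil))))))),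
   .two (nat_lit 1191183202) (nat_lit 47581235720) (.two (nat_lit 156367847619) (nat_lit 2886734846) (.two (nat_lit 169869377) (nat_lit 37262203760) (.two (nat_lit 68157448) (nat_lit 251670157) (.two (nat_lit 8388609) (nat_lit 185035929086) (.one (nat_lit 19093534700) .nil))))),
   .two (nat_lit 12054430562) (nat_lit 754977293) (.two (nat_lit 2969567427) (nat_lit 337645466) (.two (nat_lit 2969567296) (nat_lit 184987686203) (.two (nat_lit 2969567247) (nat_lit 69214345) (.two (nat_lit 2969567240) (nat_lit 3531613870) (.two (nat_lit 754974725) (nat_lit 21778935867) (.two (nat_lit 156365750273) (nat_lit 1392522102) (.two (nat_lit 8388608) (nat_lit 1377843209) .nil))))))),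
   .two (nat_lit 11517559650) (nat_lit 3527412222) (.two (nat_lit 11584667843) (nat_lit 10909391478) (.two (nat_lit 9768534031) (nat_lit 12624865739) (.two (nat_lit 713031684) (nat_lit 2109504) (.two (nat_lit 2097153) (nat_lit 4605359664) (.one (nat_lit 183947507688) .nil))))),
   .two (nat_lit 46407877475) (nat_lit 3464497665) (.two (nat_lit 11007951457) (nat_lit 12624859031) (.two (nat_lit 3028287603) (nat_lit 840964733) (.two (nat_lit 1779433496) (nat_lit 11593064595) (.two (nat_lit 10370416653) (nat_lit 47581243833) (.two (nat_lit 34603013) (nat_lit 8400554) (.two (nat_lit 2097153) (nat_lit 10000282117) (.two (nat_lit 2097152) (nat_lit 109065785) (.one (nat_lit 1063104) .nil)))))))),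
   .two (nat_lit 2921333603) (nat_lit 157038938626) (.two (nat_lit 184416207458) (nat_lit 2956988314) (.two (nat_lit 11510218869) (nat_lit 156481100405) (.two (nat_lit 9866051607) (nat_lit 46523229877) (.two (nat_lit 2097157) (nat_lit 4206657) (.two (nat_lit 606076929) (nat_lit 1191195500) (.two (nat_lit 2097152) (nat_lit 4208412) (.one (nat_lit 2111681) .nil))))))),
   .two (nat_lit 156367848291) (nat_lit 1753220637) (.two (nat_lit 11584667843) (nat_lit 46507495306) (.two (nat_lit 46409973826) (nat_lit 203430555) (.two (nat_lit 3460300815) (nat_lit 3022005182) (.two (nat_lit 11551113224) (nat_lit 34614947) (.two (nat_lit 156365750273) (nat_lit 1212167035) (.two (nat_lit 1048576) (nat_lit 2111036) (.one (nat_lit 2111682) .nil))))))),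
   .two (nat_lit 10007610653) (nat_lit 1210059294) (.two (nat_lit 9934209219) (nat_lit 46406833139) (.two (nat_lit 47582281794) (nat_lit 2319456863) (.two (nat_lit 20638072847) (nat_lit 873472963) (.two (nat_lit 21208498184) (nat_lit 705702358) (.two (nat_lit 11479810052) (nat_lit 2109506) (.two (nat_lit 2097153) (nat_lit 1061759) (.two (nat_lit 1048576) (nat_lit 4208413) (.one (nat_lit 1063107) .nil)))))))),
   .two (nat_lit 46489666403) (nat_lit 10336864798) (.two (nat_lit 156472705382) (nat_lit 13187944328) (.two (nat_lit 713031747) (nat_lit 1055343) (.two (nat_lit 8388623) (nat_lit 1058682) (.two (nat_lit 28758245384) (nat_lit 2936023488) (.two (nat_lit 12062818309) (nat_lit 276835989) (.two (nat_lit 8388609) (nat_lit 2110794) (.two (nat_lit 1048576) (nat_lit 8402718) (.one (nat_lit 2111684) .nil)))))))),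
   .two (nat_lit 28093449059) (nat_lit 158077028865) (.two (nat_lit 10376708454) (nat_lit 11022636347) (.two (nat_lit 2961178639) (nat_lit 3540000918) (.two (nat_lit 10369368072) (nat_lit 840967857) (.two (nat_lit 2097157) (nat_lit 10540297852) (.two (nat_lit 34603009) (nat_lit 156573381444) (.two (nat_lit 1048576) (nat_lit 4208415) (.one (nat_lit 1063109) .nil))))))),
   .two (nat_lit 13191086946) (nat_lit 159224171006) (.two (nat_lit 47555018947) (nat_lit 2889879448) (.two (nat_lit 47555018818) (nat_lit 20740840030) (.two (nat_lit 176160783) (nat_lit 2106349) (.two (nat_lit 46414168072) (nat_lit 13188998832) (.two (nat_lit 8388613) (nat_lit 2109507) (.two (nat_lit 2097153) (nat_lit 608187189) (.two (nat_lit 2097152) (nat_lit 8402720) (.one (nat_lit 2111686) .nil)))))))),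
   .two (nat_lit 21777875810) (nat_lit 11484006947) (.two (nat_lit 4601151683) (nat_lit 158653748219) (.two (nat_lit 4605345857) (nat_lit 202381940) (.two (nat_lit 47555018767) (nat_lit 159250392035) (.two (nat_lit 4194312) (nat_lit 8399841) (.two (nat_lit 8388612) (nat_lit 1060932) (.two (nat_lit 156367847425) (nat_lit 9866064738) (.two (nat_lit 8388608) (nat_lit 1846556640) .nil))))))),
   .two (nat_lit 9940501347) (nat_lit 822086143) (.two (nat_lit 202375526) (nat_lit 11022636018) (.two (nat_lit 1343225923) (nat_lit 46510643821) (.two (nat_lit 8388623) (nat_lit 1058683) (.two (nat_lit 4194312) (nat_lit 8399842) (.two (nat_lit 4194308) (nat_lit 8400965) (.two (nat_lit 156364701697) (nat_lit 1392522049) (.two (nat_lit 1048576) (nat_lit 4208417) (.one (nat_lit 1063111) .nil)))))))),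
   .two (nat_lit 41943906) (nat_lit 1052084) (.two (nat_lit 1379926374) (nat_lit 185020190596) (.two (nat_lit 343932993) (nat_lit 10503591228) (.two (nat_lit 8388623) (nat_lit 1057774) (.two (nat_lit 1276117000) (nat_lit 2927635423) (.two (nat_lit 176160773) (nat_lit 1060934) (.two (nat_lit 4194305) (nat_lit 1061760) (.two (nat_lit 1048576) (nat_lit 4208418) (.one (nat_lit 1063112) .nil)))))))),
   .two (nat_lit 1312818474) (nat_lit 9867102748) (.two (nat_lit 4634706115) (nat_lit 3472887696) (.two (nat_lit 9781117036) (nat_lit 12048143674) (.two (nat_lit 9781116943) (nat_lit 3531612295) (.two (nat_lit 9948889096) (nat_lit 4634716602) (.two (nat_lit 184549381) (nat_lit 2109099) (.two (nat_lit 2097153) (nat_lit 4207947) (.two (nat_lit 2097152) (nat_lit 16791331) (.one (nat_lit 4208841) .nil)))))))),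
   .two (nat_lit 158083318626) (nat_lit 1052085) (.two (nat_lit 157036839270) (nat_lit 10003420475) (.two (nat_lit 18928893967) (nat_lit 11014250631) (.two (nat_lit 2887778312) (nat_lit 183953794744) (.two (nat_lit 2097157) (nat_lit 3024105092) (.two (nat_lit 156364701697) (nat_lit 156539826969) (.two (nat_lit 1048576) (nat_lit 2111268) (.one (nat_lit 2111690) .nil))))))),
   .two (nat_lit 28758246243) (nat_lit 158146234902) (.two (nat_lit 46477082819) (nat_lit 158077030290) (.two (nat_lit 12147753025) (nat_lit 18926803558) (.two (nat_lit 3525312527) (nat_lit 339746963) (.two (nat_lit 12114198536) (nat_lit 13191096774) (.two (nat_lit 1277165572) (nat_lit 4206247) (.two (nat_lit 9766436865) (nat_lit 19026424612) (.two (nat_lit 2097152) (nat_lit 135280121) (.one (nat_lit 1062944) .nil)))))))),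
   .two (nat_lit 166132188445) (nat_lit 157036840478) (.two (nat_lit 3527409859) (nat_lit 10000273292) (.two (nat_lit 3525312576) (nat_lit 839916119) (.two (nat_lit 184416206863) (nat_lit 807412667) (.two (nat_lit 2889875464) (nat_lit 2953850481) (.two (nat_lit 34603009) (nat_lit 156533535507) (.two (nat_lit 1048576) (nat_lit 2111269) (.one (nat_lit 1062945) .nil))))))),
   .two (nat_lit 1212155165) (nat_lit 156581758494) (.two (nat_lit 306184387) (nat_lit 184987684756) (.two (nat_lit 306184257) (nat_lit 1055391) (.two (nat_lit 205520911) (nat_lit 2106352) (.two (nat_lit 2889875464) (nat_lit 10437536230) (.two (nat_lit 4194308) (nat_lit 1060935) (.two (nat_lit 50331649) (nat_lit 1062220) (.two (nat_lit 1048576) (nat_lit 2111270) (.one (nat_lit 2111691) .nil)))))))),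
   .two (nat_lit 11022632225) (nat_lit 673188351) (.two (nat_lit 18933088860) (nat_lit 12047093637) (.two (nat_lit 18933088364) (nat_lit 2886735162) (.two (nat_lit 183853121560) (nat_lit 166211887247) (.two (nat_lit 21785214984) (nat_lit 11476675022) (.two (nat_lit 705691652) (nat_lit 9934220944) (.two (nat_lit 2097153) (nat_lit 1062221) (.two (nat_lit 1048576) (nat_lit 2111271) (.one (nat_lit 1063116) .nil)))))))),
   .two (nat_lit 47582282595) (nat_lit 2953842588) (.two (nat_lit 169869377) (nat_lit 352328276) (.two (nat_lit 2887778319) (nat_lit 2894080473) (.two (nat_lit 2097157) (nat_lit 1224749115) (.two (nat_lit 2097153) (nat_lit 156364714778) (.two (nat_lit 16777216) (nat_lit 839923733) .nil))))),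
   .two (nat_lit 2969568098) (nat_lit 156465367587) (.two (nat_lit 807404123) (nat_lit 1392512914) (.two (nat_lit 37320917100) (nat_lit 9933165886) (.two (nat_lit 28772925455) (nat_lit 20737695882) (.two (nat_lit 9934209032) (nat_lit 12633254353) (.two (nat_lit 713031684) (nat_lit 1060936) (.two (nat_lit 605028353) (nat_lit 8402254) (.two (nat_lit 1048576) (nat_lit 2111272) (.one (nat_lit 2111693) .nil)))))))),
   .two (nat_lit 3464495971) (nat_lit 183947495947) (.two (nat_lit 10343153859) (nat_lit 3558872070) (.two (nat_lit 1310720065) (nat_lit 2332039811) (.two (nat_lit 156372041743) (nat_lit 104865930) (.two (nat_lit 184423546888) (nat_lit 28705826482) (.two (nat_lit 11484004357) (nat_lit 272641650) (.two (nat_lit 9766436865) (nat_lit 2894082927) (.two (nat_lit 8388608) (nat_lit 13237237529) (.one (nat_lit 2111522) .nil)))))))),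
   .two (nat_lit 46474986785) (nat_lit 159266113054) (.two (nat_lit 10538189412) (nat_lit 13221498765) (.two (nat_lit 47596961858) (nat_lit 158144141975) (.two (nat_lit 10370416655) (nat_lit 788537484) (.two (nat_lit 1847590920) (nat_lit 1175464923) (.two (nat_lit 639631365) (nat_lit 1060525) (.two (nat_lit 156364701697) (nat_lit 184431948639) (.two (nat_lit 1048576) (nat_lit 2111038) (.one (nat_lit 2111694) .nil)))))))),
   .two (nat_lit 3036676963) (nat_lit 1753220637) (.two (nat_lit 822083779) (nat_lit 809504661) (.two (nat_lit 352321602) (nat_lit 679484039) (.two (nat_lit 184993972239) (nat_lit 183916046001) (.two (nat_lit 612368389) (nat_lit 11479821955) (.two (nat_lit 4194305) (nat_lit 50344753) (.two (nat_lit 4194304) (nat_lit 8402495) (.one (nat_lit 4208847) .nil))))))),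
   .two (nat_lit 20738737445) (nat_lit 156535621149) (.two (nat_lit 4631560550) (nat_lit 876614973) (.two (nat_lit 276824079) (nat_lit 4204412) (.two (nat_lit 3525312520) (nat_lit 34613692) (.two (nat_lit 46407876612) (nat_lit 3457167020) (.two (nat_lit 2097153) (nat_lit 8402255) (.two (nat_lit 1048576) (nat_lit 4208425) (.one (nat_lit 772815050) .nil))))))),
   .two (nat_lit 183962174306) (nat_lit 156971829762) (.two (nat_lit 3525312707) (nat_lit 10003419021) (.two (nat_lit 159266111555) (nat_lit 706745657) (.two (nat_lit 639631375) (nat_lit 46422563695) (.two (nat_lit 2887778312) (nat_lit 708847288) (.two (nat_lit 605028357) (nat_lit 9934220972) (.two (nat_lit 605028353) (nat_lit 11593069406) (.two (nat_lit 1048576) (nat_lit 2111040) (.one (nat_lit 16791760) .nil)))))))),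
   .two (nat_lit 46510638368) (nat_lit 10007611940) (.two (nat_lit 159217877350) (nat_lit 343938064) (.two (nat_lit 185020186690) (nat_lit 183846836836) (.two (nat_lit 184986632207) (nat_lit 169878494) (.two (nat_lit 705691656) (nat_lit 4205045) (.two (nat_lit 47550824453) (nat_lit 2109513) (.two (nat_lit 4194305) (nat_lit 47555031864) (.two (nat_lit 1048576) (nat_lit 2111274) (.one (nat_lit 1063121) .nil)))))))),
   .two (nat_lit 8389474) (nat_lit 218106387) (.two (nat_lit 3524264294) (nat_lit 183848931228) (.two (nat_lit 8388674) (nat_lit 10939800200) (.two (nat_lit 11559501839) (nat_lit 18925756554) (.two (nat_lit 11559501832) (nat_lit 37253818034) (.two (nat_lit 721420292) (nat_lit 158075989618) (.two (nat_lit 4194305) (nat_lit 1061762) (.two (nat_lit 1048576) (nat_lit 4208427) (.one (nat_lit 1063122) .nil)))))))),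
   .two (nat_lit 185002361699) (nat_lit 47555021310) (.two (nat_lit 13191086275) (nat_lit 11584672731) (.two (nat_lit 46414168129) (nat_lit 156581763671) (.two (nat_lit 1191182351) (nat_lit 183846839982) (.two (nat_lit 18926796805) (nat_lit 46414179964) (.two (nat_lit 2097153) (nat_lit 4207491) (.two (nat_lit 2097152) (nat_lit 4208428) (.one (nat_lit 2111699) .nil))))))),
   .two (nat_lit 9948890399) (nat_lit 10940844568) (.two (nat_lit 11543773379) (nat_lit 10519319552) (.two (nat_lit 4605345859) (nat_lit 159266118258) (.two (nat_lit 2954887183) (nat_lit 11543782349) (.two (nat_lit 1795162120) (nat_lit 740304560) (.two (nat_lit 203423749) (nat_lit 1060938) (.two (nat_lit 8388609) (nat_lit 1947218744) (.two (nat_lit 1048576) (nat_lit 2111277) (.one (nat_lit 8403156) .nil)))))))),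
   .two (nat_lit 183946445667) (nat_lit 1212156416) (.two (nat_lit 13191086438) (nat_lit 209720638) (.two (nat_lit 21777874959) (nat_lit 9934218929) (.two (nat_lit 705691652) (nat_lit 1746939547) (.two (nat_lit 34603009) (nat_lit 37761860) (.two (nat_lit 1048576) (nat_lit 2111278) (.one (nat_lit 1063125) .nil)))))),
   .two (nat_lit 183962174307) (nat_lit 19130223104) (.two (nat_lit 156581757123) (nat_lit 19029564019) (.two (nat_lit 2889875471) (nat_lit 20652761228) (.two (nat_lit 50331656) (nat_lit 20640179890) (.two (nat_lit 4601151493) (nat_lit 612380303) (.two (nat_lit 4194305) (nat_lit 159257736759) (.one (nat_lit 4208854) .nil)))))),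
   .two (nat_lit 158158816099) (nat_lit 11007952414) (.two (nat_lit 9974055107) (nat_lit 1277169557) (.two (nat_lit 158158815298) (nat_lit 20738742917) (.two (nat_lit 3458203663) (nat_lit 2961186962) (.two (nat_lit 3458203656) (nat_lit 4613746293) (.two (nat_lit 2097153) (nat_lit 8401796) (.two (nat_lit 2097152) (nat_lit 8402735) (.one (nat_lit 2111703) .nil))))))),
   .two (nat_lit 4634706787) (nat_lit 807407516) (.two (nat_lit 13224640579) (nat_lit 1761614492) (.two (nat_lit 37748751) (nat_lit 12624863378) (.two (nat_lit 13191086088) (nat_lit 184987690680) (.two (nat_lit 1191182341) (nat_lit 156976033413) (.two (nat_lit 16777217) (nat_lit 672150016) (.two (nat_lit 2097152) (nat_lit 4208432) (.one (nat_lit 1063128) .nil))))))),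
   .two (nat_lit 12129928035) (nat_lit 4197814) (.two (nat_lit 183853121893) (nat_lit 156968685455) (.two (nat_lit 847249475) (nat_lit 218110546) (.two (nat_lit 1191182351) (nat_lit 156372050881) (.two (nat_lit 205520904) (nat_lit 8399843) (.two (nat_lit 159224168453) (nat_lit 705703582) (.two (nat_lit 34603009) (nat_lit 2110800) (.two (nat_lit 1048576) (nat_lit 8402737) (.one (nat_lit 8403161) .nil)))))))),
   .two (nat_lit 47596963113) (nat_lit 158144137726) (.two (nat_lit 1417675110) (nat_lit 156567080842) (.two (nat_lit 2889875523) (nat_lit 3525319289) (.two (nat_lit 8388623) (nat_lit 2106353) (.two (nat_lit 47555018765) (nat_lit 9869208017) (.two (nat_lit 8388612) (nat_lit 2109515) (.two (nat_lit 8388609) (nat_lit 2887791427) (.two (nat_lit 2097152) (nat_lit 4208434) (.one (nat_lit 2111706) .nil)))))))),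
   .two (nat_lit 12163482467) (nat_lit 10436479487) (.two (nat_lit 9772728936) (nat_lit 10385100675) (.two (nat_lit 1175453804) (nat_lit 4613739837) (.two (nat_lit 11476664343) (nat_lit 46422565004) (.two (nat_lit 41943048) (nat_lit 1059812) (.two (nat_lit 705691652) (nat_lit 8400558) (.two (nat_lit 8388609) (nat_lit 1061765) (.two (nat_lit 8388608) (nat_lit 16791347) (.one (nat_lit 8403163) .nil)))))))),
   .two (nat_lit 158646403938) (nat_lit 9934213012) (.two (nat_lit 47563407425) (nat_lit 11584673080) (.two (nat_lit 46409973775) (nat_lit 11618232789) (.two (nat_lit 746586117) (nat_lit 11010059934) (.two (nat_lit 4194305) (nat_lit 8401798) (.two (nat_lit 1048576) (nat_lit 4208193) (.one (nat_lit 1063132) .nil)))))),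
   .two (nat_lit 165532402530) (nat_lit 165540793777) (.two (nat_lit 21214789989) (nat_lit 1053715) (.two (nat_lit 12617515073) (nat_lit 10370423396) (.two (nat_lit 10336862223) (nat_lit 1058685) (.two (nat_lit 641728520) (nat_lit 158646413786) (.two (nat_lit 2097157) (nat_lit 10007621289) (.two (nat_lit 34603009) (nat_lit 156539826989) (.two (nat_lit 1048576) (nat_lit 8402740) (.one (nat_lit 2111709) .nil)))))))),
   .two (nat_lit 156535620451) (nat_lit 2100663) (.two (nat_lit 12114198723) (nat_lit 166132191110) (.two (nat_lit 12117344321) (nat_lit 168826169) (.two (nat_lit 12117344271) (nat_lit 638593512) (.two (nat_lit 708837381) (nat_lit 10000281216) (.two (nat_lit 37748737) (nat_lit 168833858) (.two (nat_lit 2097152) (nat_lit 1062466) (.one (nat_lit 1745893540) .nil))))))),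
   .two (nat_lit 185021236522) (nat_lit 166196151837) (.two (nat_lit 185023332964) (nat_lit 336596889) (.two (nat_lit 19027460161) (nat_lit 156465371796) (.two (nat_lit 12050235407) (nat_lit 9933169617) (.two (nat_lit 742391816) (nat_lit 1059813) (.two (nat_lit 46409973764) (nat_lit 46406840367) (.two (nat_lit 37748737) (nat_lit 1062225) (.two (nat_lit 1048576) (nat_lit 2111285) (.one (nat_lit 1063134) .nil)))))))),
   .two (nat_lit 20638073698) (nat_lit 159224171027) (.two (nat_lit 156367847619) (nat_lit 1914706568) (.two (nat_lit 8388623) (nat_lit 28793906861) (.two (nat_lit 4194308) (nat_lit 847261329) (.two (nat_lit 8388609) (nat_lit 19042153341) (.two (nat_lit 16777216) (nat_lit 47550838806) .nil))))),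
   .two (nat_lit 20638073698) (nat_lit 2894072355) (.two (nat_lit 13191086275) (nat_lit 1350572657) (.two (nat_lit 4605345807) (nat_lit 203433649) (.two (nat_lit 4194308) (nat_lit 2109103) (.two (nat_lit 8388609) (nat_lit 174686483717) (.one (nat_lit 2111524) .nil))))),
   .two (nat_lit 142607203) (nat_lit 101714461) (.two (nat_lit 1343226051) (nat_lit 19530781695) (.two (nat_lit 3527409731) (nat_lit 21207456343) (.two (nat_lit 46980399119) (nat_lit 10335822800) (.two (nat_lit 68157448) (nat_lit 2108390) (.two (nat_lit 28758245381) (nat_lit 8400972) (.two (nat_lit 4194305) (nat_lit 159257735988) (.two (nat_lit 4194304) (nat_lit 1216362018) (.one (nat_lit 1063135) .nil)))))))),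
   .two (nat_lit 847250274) (nat_lit 1782581795) (.two (nat_lit 847249603) (nat_lit 20707283946) (.two (nat_lit 47548727362) (nat_lit 1954554004) (.two (nat_lit 37748744) (nat_lit 2994743791) (.two (nat_lit 4194308) (nat_lit 673197692) (.two (nat_lit 2097153) (nat_lit 4634719737) (.one (nat_lit 2111476) .nil)))))),
   .two (nat_lit 343933795) (nat_lit 136317470) (.two (nat_lit 3525312707) (nat_lit 46510641030) (.two (nat_lit 339738689) (nat_lit 174759877279) (.two (nat_lit 276824079) (nat_lit 1847600097) (.two (nat_lit 276824072) (nat_lit 2350918126) (.two (nat_lit 184989777925) (nat_lit 11006914159) (.two (nat_lit 8388609) (nat_lit 174685434731) (.two (nat_lit 1048576) (nat_lit 156365764148) (.one (nat_lit 1062949) .nil)))))))),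
   .two (nat_lit 4605346658) (nat_lit 10001320449) (.two (nat_lit 4605346149) (nat_lit 16782356) (.two (nat_lit 19100860655) (nat_lit 185020192055) (.two (nat_lit 12155093032) (nat_lit 168827760) (.two (nat_lit 28691136520) (nat_lit 12047099573) (.two (nat_lit 50331653) (nat_lit 708849305) (.two (nat_lit 41943041) (nat_lit 28760355608) (.two (nat_lit 1048576) (nat_lit 8402499) (.one (nat_lit 2111712) .nil)))))))),
   .two (nat_lit 1947206943) (nat_lit 1384121886) (.two (nat_lit 185020186819) (nat_lit 174753583004) (.two (nat_lit 117440579) (nat_lit 158653751437) (.two (nat_lit 1291845640) (nat_lit 2894080456) (.two (nat_lit 9948889093) (nat_lit 2109517) (.two (nat_lit 2097153) (nat_lit 1061767) (.two (nat_lit 1048576) (nat_lit 16791350) (.one (nat_lit 1063137) .nil))))))),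
   .two (nat_lit 10343154531) (nat_lit 156533525016) (.two (nat_lit 4601151683) (nat_lit 1786778937) (.two (nat_lit 4601151503) (nat_lit 157043141086) (.two (nat_lit 47550824453) (nat_lit 37314637457) (.two (nat_lit 4194305) (nat_lit 2110344) (.two (nat_lit 1048576) (nat_lit 136329166) .nil))))),
   .two (nat_lit 3464496413) (nat_lit 1411385856) (.two (nat_lit 2994733251) (nat_lit 1191187430) (.two (nat_lit 1291845697) (nat_lit 1343232663) (.two (nat_lit 4194319) (nat_lit 2107262) (.two (nat_lit 9766436872) (nat_lit 28806490598) (.two (nat_lit 28758245381) (nat_lit 2365599807) (.two (nat_lit 50331649) (nat_lit 19127087960) (.two (nat_lit 1048576) (nat_lit 1358968314) (.one (nat_lit 1063138) .nil)))))))),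
   .two (nat_lit 1212155165) (nat_lit 28691139073) (.two (nat_lit 168821094) (nat_lit 47596966875) (.two (nat_lit 11577327681) (nat_lit 159217883797) (.two (nat_lit 4194319) (nat_lit 2107263) (.two (nat_lit 158143086600) (nat_lit 1317022173) (.two (nat_lit 176160773) (nat_lit 2109518) (.two (nat_lit 8388609) (nat_lit 2110802) (.two (nat_lit 1048576) (nat_lit 2111287) (.one (nat_lit 1063139) .nil)))))))),
   .two (nat_lit 159266112355) (nat_lit 10907290112) (.two (nat_lit 185035915459) (nat_lit 11476668306) (.two (nat_lit 236978241) (nat_lit 1175460510) (.two (nat_lit 21777874959) (nat_lit 159217886897) (.two (nat_lit 34603013) (nat_lit 19142815353) (.two (nat_lit 605028353) (nat_lit 50344753) (.two (nat_lit 2097152) (nat_lit 101725759) (.one (nat_lit 1063140) .nil))))))),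
   .two (nat_lit 20638073698) (nat_lit 1753220637) (.two (nat_lit 4601151683) (nat_lit 2887785115) (.two (nat_lit 20638072847) (nat_lit 202384351) (.two (nat_lit 46409973768) (nat_lit 2954897889) (.two (nat_lit 4194308) (nat_lit 2109104) (.two (nat_lit 4194305) (nat_lit 2110345) (.two (nat_lit 1048576) (nat_lit 2110730) (.one (nat_lit 1062950) .nil))))))),
   .two (nat_lit 13228835683) (nat_lit 46510638622) (.two (nat_lit 11610882405) (nat_lit 12624859026) (.two (nat_lit 12150898753) (nat_lit 9866057016) (.two (nat_lit 46978301975) (nat_lit 9873400783) (.two (nat_lit 21785214984) (nat_lit 20704143829) (.two (nat_lit 50331653) (nat_lit 156976033413) (.two (nat_lit 50331649) (nat_lit 606090774) (.one (nat_lit 168835206) .nil))))))),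
   .two (nat_lit 158158816098) (nat_lit 2988444159) (.two (nat_lit 19612565862) (nat_lit 2923433859) (.two (nat_lit 184423546945) (nat_lit 1950356797) (.two (nat_lit 813694991) (nat_lit 104865930) (.two (nat_lit 11492392968) (nat_lit 3558878865) (.two (nat_lit 4194305) (nat_lit 11593069377) (.two (nat_lit 16777216) (nat_lit 2319463965) (.one (nat_lit 2111717) .nil))))))),
   .two (nat_lit 12114199394) (nat_lit 28760345104) (.two (nat_lit 12114198723) (nat_lit 159219978121) (.two (nat_lit 12114198594) (nat_lit 156533529204) (.two (nat_lit 2887778319) (nat_lit 159253538477) (.two (nat_lit 11476664324) (nat_lit 28758257297) (.two (nat_lit 9765388289) (nat_lit 9781130744) (.one (nat_lit 11476678654) .nil)))))),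
   .two (nat_lit 1291846498) (nat_lit 3560966694) (.two (nat_lit 4601151683) (nat_lit 645928251) (.two (nat_lit 713031695) (nat_lit 855647211) (.two (nat_lit 4194312) (nat_lit 687877759) (.two (nat_lit 37748737) (nat_lit 11543786992) (.one (nat_lit 1063142) .nil))))),
   .two (nat_lit 10552869731) (nat_lit 807407513) (.two (nat_lit 1310720065) (nat_lit 185002367598) (.two (nat_lit 156968681487) (nat_lit 9934218178) (.two (nat_lit 1277165576) (nat_lit 1343237763) (.two (nat_lit 9765388289) (nat_lit 1277178640) (.two (nat_lit 1048576) (nat_lit 2111044) (.one (nat_lit 2111527) .nil)))))),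
   .two (nat_lit 1216349026) (nat_lit 19532876290) (.two (nat_lit 352321731) (nat_lit 645928252) (.two (nat_lit 183853121551) (nat_lit 10452214729) (.two (nat_lit 4613734408) (nat_lit 9772739013) (.two (nat_lit 9768534021) (nat_lit 2894081667) (.two (nat_lit 37748737) (nat_lit 2894082563) (.two (nat_lit 1048576) (nat_lit 171980330) (.one (nat_lit 4208871) .nil))))))),
   .two (nat_lit 13195281251) (nat_lit 183916038672) (.two (nat_lit 4605345987) (nat_lit 46489672309) (.two (nat_lit 721420303) (nat_lit 2990547946) (.two (nat_lit 4601151496) (nat_lit 10016008689) (.two (nat_lit 50331653) (nat_lit 2923441824) (.two (nat_lit 4194305) (nat_lit 16790410) (.two (nat_lit 4194304) (nat_lit 8402744) (.one (nat_lit 4208872) .nil))))))),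
   .two (nat_lit 185035916131) (nat_lit 21207453596) (.two (nat_lit 9768534083) (nat_lit 19545462076) (.two (nat_lit 1178599439) (nat_lit 1913661900) (.two (nat_lit 184549381) (nat_lit 47550836352) (.two (nat_lit 16777217) (nat_lit 4207499) (.two (nat_lit 1048576) (nat_lit 4208197) (.one (nat_lit 1063145) .nil)))))),
   .two (nat_lit 184419353442) (nat_lit 68161421) (.two (nat_lit 343932994) (nat_lit 1346378363) (.two (nat_lit 183848927247) (nat_lit 11577337518) (.two (nat_lit 8388612) (nat_lit 2420125342) (.two (nat_lit 37748737) (nat_lit 612381574) (.two (nat_lit 1048576) (nat_lit 4208441) (.one (nat_lit 4208874) .nil)))))),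
   .two (nat_lit 18925749091) (nat_lit 10007613318) (.two (nat_lit 11618222145) (nat_lit 18926803592) (.two (nat_lit 713031695) (nat_lit 21811438550) (.two (nat_lit 2887778312) (nat_lit 9906956747) (.two (nat_lit 721420292) (nat_lit 11578388133) (.two (nat_lit 34603009) (nat_lit 2936025889) (.two (nat_lit 1048576) (nat_lit 2111290) (.one (nat_lit 1063147) .nil))))))),
   .two (nat_lit 28086109026) (nat_lit 158150429219) (.two (nat_lit 184993972822) (nat_lit 156566032266) (.two (nat_lit 158075977794) (nat_lit 4034927217) (.two (nat_lit 46414168079) (nat_lit 16786418) (.two (nat_lit 721420296) (nat_lit 1059815) (.two (nat_lit 8388613) (nat_lit 156566040230) (.two (nat_lit 605028353) (nat_lit 1317024592) (.two (nat_lit 1048576) (nat_lit 8402502) (.one (nat_lit 1063148) .nil)))))))),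
   .two (nat_lit 11513365346) (nat_lit 3020950027) (.two (nat_lit 310378691) (nat_lit 2956989398) (.two (nat_lit 11513364545) (nat_lit 47581239890) (.two (nat_lit 1350565903) (nat_lit 1410343888) (.two (nat_lit 276824072) (nat_lit 11022641605) (.two (nat_lit 8388613) (nat_lit 159253540517) (.two (nat_lit 37748737) (nat_lit 9966728740) (.one (nat_lit 1063149) .nil))))))),
   .two (nat_lit 37249614690) (nat_lit 10537143735) (.two (nat_lit 28806480230) (nat_lit 11543778324) (.two (nat_lit 156581756995) (nat_lit 71308604) (.two (nat_lit 11492392975) (nat_lit 1057779) (.two (nat_lit 272629773) (nat_lit 4613744308) (.two (nat_lit 2956984325) (nat_lit 46422568559) (.two (nat_lit 4194305) (nat_lit 16790412) (.two (nat_lit 1048576) (nat_lit 16791355) (.one (nat_lit 16791790) .nil)))))))),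
   .two (nat_lit 12117345575) (nat_lit 28772928037) (.two (nat_lit 47555018947) (nat_lit 157051522963) (.two (nat_lit 47555018816) (nat_lit 1862277743) (.two (nat_lit 8388623) (nat_lit 4647297173) (.two (nat_lit 183848927240) (nat_lit 158091716274) (.two (nat_lit 13191086085) (nat_lit 2332044927) (.two (nat_lit 9781116929) (nat_lit 174755689246) (.two (nat_lit 1048576) (nat_lit 3036690427) .nil))))))),
   .two (nat_lit 612369251) (nat_lit 16780728) (.two (nat_lit 8388803) (nat_lit 4199445) (.two (nat_lit 1358954563) (nat_lit 166129048221) (.two (nat_lit 13191086095) (nat_lit 10510934160) (.two (nat_lit 8388616) (nat_lit 3573557729) (.two (nat_lit 4194308) (nat_lit 8400975) (.two (nat_lit 605028353) (nat_lit 46409986950) (.two (nat_lit 1048576) (nat_lit 159219987959) (.one (nat_lit 4208879) .nil)))))))),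
   .two (nat_lit 174688568162) (nat_lit 1310721566) (.two (nat_lit 2920284518) (nat_lit 9802092422) (.two (nat_lit 318767212) (nat_lit 608179516) (.two (nat_lit 158158815247) (nat_lit 166196159449) (.two (nat_lit 169869320) (nat_lit 708849269) (.two (nat_lit 2097153) (nat_lit 171979267) (.two (nat_lit 1048576) (nat_lit 2111047) (.one (nat_lit 4208880) .nil))))))),
   .two (nat_lit 843055970) (nat_lit 21811431957) (.two (nat_lit 156367847782) (nat_lit 1920996665) (.two (nat_lit 4601151503) (nat_lit 713040021) (.two (nat_lit 218103816) (nat_lit 10906249690) (.two (nat_lit 184549381) (nat_lit 2920296112) (.two (nat_lit 4194305) (nat_lit 8402259) (.two (nat_lit 1048576) (nat_lit 4208444) (.one (nat_lit 1063153) .nil))))))),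
   .two (nat_lit 46980399970) (nat_lit 16780729) (.two (nat_lit 156367847619) (nat_lit 1283462155) (.two (nat_lit 176160835) (nat_lit 1346378363) (.two (nat_lit 272629775) (nat_lit 4613742730) (.two (nat_lit 8388616) (nat_lit 9936318092) (.two (nat_lit 8388609) (nat_lit 71316307) (.two (nat_lit 8388608) (nat_lit 10003428850) (.one (nat_lit 4208681) .nil))))))),
   .two (nat_lit 9940501347) (nat_lit 352324134) (.two (nat_lit 4601151683) (nat_lit 1317016585) (.two (nat_lit 272629824) (nat_lit 202381897) (.two (nat_lit 176160783) (nat_lit 1343235043) (.two (nat_lit 176160776) (nat_lit 11476676209) (.two (nat_lit 37748737) (nat_lit 1786786690) (.two (nat_lit 1048576) (nat_lit 285226481) (.one (nat_lit 1062954) .nil))))))),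
   .two (nat_lit 28790752099) (nat_lit 4198294) (.two (nat_lit 2889875523) (nat_lit 109058683) (.two (nat_lit 809500687) (nat_lit 303049161) (.two (nat_lit 721420293) (nat_lit 19100872348) (.two (nat_lit 4194305) (nat_lit 8402260) (.two (nat_lit 8388608) (nat_lit 809514782) (.one (nat_lit 4208882) .nil)))))),
   .two (nat_lit 754975587) (nat_lit 1052090) (.two (nat_lit 4601151683) (nat_lit 165532405635) (.two (nat_lit 2961178689) (nat_lit 185035920696) (.two (nat_lit 1191182351) (nat_lit 184416216754) (.two (nat_lit 4194308) (nat_lit 11484016240) (.two (nat_lit 8388609) (nat_lit 156984422914) (.two (nat_lit 1048576) (nat_lit 159257736453) (.one (nat_lit 1062955) .nil))))))),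
   .two (nat_lit 46523220835) (nat_lit 876613030) (.two (nat_lit 4634706115) (nat_lit 19100864405) (.two (nat_lit 272629824) (nat_lit 3022002779) (.two (nat_lit 184549391) (nat_lit 4599062663) (.two (nat_lit 742391816) (nat_lit 11626621389) (.two (nat_lit 16777221) (nat_lit 2109105) (.two (nat_lit 2097153) (nat_lit 855651188) (.two (nat_lit 16777216) (nat_lit 773863430) .nil))))))),
   .two (nat_lit 2923430754) (nat_lit 1358957083) (.two (nat_lit 185035915459) (nat_lit 20707285576) (.two (nat_lit 2889875471) (nat_lit 156548210823) (.two (nat_lit 2889875464) (nat_lit 21812487854) (.two (nat_lit 272629765) (nat_lit 4043320943) (.two (nat_lit 2097153) (nat_lit 3024107058) (.one (nat_lit 183947507715) .nil)))))),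
   .two (nat_lit 12054430563) (nat_lit 11546922898) (.two (nat_lit 306184258) (nat_lit 11577334388) (.two (nat_lit 809500687) (nat_lit 336603608) (.two (nat_lit 4194308) (nat_lit 41954986) (.two (nat_lit 41943041) (nat_lit 251671354) (.two (nat_lit 8388608) (nat_lit 1276131306) .nil))))),
   .two (nat_lit 11626611554) (nat_lit 156372043293) (.two (nat_lit 13191086275) (nat_lit 1325404042) (.two (nat_lit 4601151554) (nat_lit 3022002764) (.two (nat_lit 37748751) (nat_lit 158183990957) (.two (nat_lit 4194308) (nat_lit 156567088764) (.two (nat_lit 4194305) (nat_lit 13228848389) (.one (nat_lit 2111731) .nil)))))),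
   .two (nat_lit 47582282595) (nat_lit 156535621149) (.two (nat_lit 4605345987) (nat_lit 306188164) (.two (nat_lit 4601151554) (nat_lit 343938358) (.two (nat_lit 37748751) (nat_lit 185027534993) (.two (nat_lit 176160776) (nat_lit 2108392) (.two (nat_lit 169869316) (nat_lit 12620672654) (.two (nat_lit 2097153) (nat_lit 306198016) (.one (nat_lit 236992462) .nil))))))),
   .two (nat_lit 11626611555) (nat_lit 3464499077) (.two (nat_lit 822083651) (nat_lit 12054436478) (.two (nat_lit 176160783) (nat_lit 46992989039) (.two (nat_lit 176160776) (nat_lit 28793906862) (.two (nat_lit 8388613) (nat_lit 11479821979) (.two (nat_lit 37748737) (nat_lit 1350579050) (.two (nat_lit 4194304) (nat_lit 8402504) (.one (nat_lit 654325733) .nil))))))),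
   .two (nat_lit 158158816098) (nat_lit 159217879590) (.two (nat_lit 20753416549) (nat_lit 21785220110) (.two (nat_lit 2353004652) (nat_lit 158183987823) (.two (nat_lit 813694991) (nat_lit 822092761) (.two (nat_lit 742391816) (nat_lit 16788457) (.two (nat_lit 69206021) (nat_lit 16789156) (.two (nat_lit 9781116929) (nat_lit 12121552440) (.one (nat_lit 2111732) .nil))))))),
   .two (nat_lit 10436477794) (nat_lit 2420114973) (.two (nat_lit 21827158211) (nat_lit 46406832007) (.two (nat_lit 10436476993) (nat_lit 608180828) (.two (nat_lit 101711887) (nat_lit 159253538477) (.two (nat_lit 46422556677) (nat_lit 158079135358) (.two (nat_lit 34603009) (nat_lit 19130234117) (.one (nat_lit 4208686) .nil)))))),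
   .two (nat_lit 10007610657) (nat_lit 46409975326) (.two (nat_lit 10007609702) (nat_lit 19612569488) (.two (nat_lit 21827158083) (nat_lit 1384127049) (.two (nat_lit 8388623) (nat_lit 4203508) (.two (nat_lit 156372041736) (nat_lit 19109259765) (.two (nat_lit 8388612) (nat_lit 4206672) (.two (nat_lit 4194305) (nat_lit 8401805) (.two (nat_lit 4194304) (nat_lit 8402749) (.one (nat_lit 4208885) .nil)))))))),
   .two (nat_lit 4601152355) (nat_lit 10343156225) (.two (nat_lit 3464495700) (nat_lit 19094572938) (.two (nat_lit 13195280494) (nat_lit 1176509035) (.two (nat_lit 37748751) (nat_lit 8398720) (.two (nat_lit 8388616) (nat_lit 2108394) (.two (nat_lit 184993972229) (nat_lit 183913950870) (.two (nat_lit 4194305) (nat_lit 8401806) (.two (nat_lit 2097152) (nat_lit 4208446) (.one (nat_lit 2111734) .nil)))))))),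
   .two (nat_lit 310379363) (nat_lit 166132189697) (.two (nat_lit 46477082982) (nat_lit 156533526404) (.two (nat_lit 10506731587) (nat_lit 2961185408) (.two (nat_lit 46407876632) (nat_lit 675292138) (.two (nat_lit 8388616) (nat_lit 2108395) (.two (nat_lit 1283457029) (nat_lit 159217889294) (.two (nat_lit 2097153) (nat_lit 8401807) (.two (nat_lit 2097152) (nat_lit 8402751) (.one (nat_lit 2111735) .nil)))))))),
   .two (nat_lit 10907288870) (nat_lit 4030727710) (.two (nat_lit 673186390) (nat_lit 12633247626) (.two (nat_lit 2988441665) (nat_lit 16784863) (.two (nat_lit 37748751) (nat_lit 16786421) (.two (nat_lit 184549384) (nat_lit 4205548) (.two (nat_lit 46978301957) (nat_lit 11525959341) (.two (nat_lit 2097153) (nat_lit 4207504) (.two (nat_lit 16777216) (nat_lit 166130103878) (.one (nat_lit 4208888) .nil)))))))),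
   .two (nat_lit 21214790499) (nat_lit 19027461662) (.two (nat_lit 11007951043) (nat_lit 4198302) (.two (nat_lit 3525312578) (nat_lit 8395425) (.two (nat_lit 813694991) (nat_lit 21793611923) (.two (nat_lit 813694984) (nat_lit 10016008646) (.two (nat_lit 2887778308) (nat_lit 276835957) (.two (nat_lit 2097153) (nat_lit 352334724) (.two (nat_lit 4194304) (nat_lit 2111050) (.one (nat_lit 2111737) .nil)))))))),
   .two (nat_lit 10519315298) (nat_lit 2100667) (.two (nat_lit 165526110565) (nat_lit 18933092227) (.two (nat_lit 20638072898) (nat_lit 813703314) (.two (nat_lit 41943048) (nat_lit 1948264112) (.two (nat_lit 209715205) (nat_lit 10385109510) (.two (nat_lit 1048576) (nat_lit 2111051) (.one (nat_lit 2111738) .nil)))))),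
   .two (nat_lit 2420114275) (nat_lit 156566030883) (.two (nat_lit 47548727491) (nat_lit 3460305930) (.two (nat_lit 12147753025) (nat_lit 4201070) (.two (nat_lit 101711887) (nat_lit 28760351697) (.two (nat_lit 11476664328) (nat_lit 608185990) (.two (nat_lit 606076929) (nat_lit 4207957) (.two (nat_lit 1048576) (nat_lit 2111296) (.one (nat_lit 4208891) .nil))))))),
   .two (nat_lit 310379817) (nat_lit 19130223103) (.two (nat_lit 28764537190) (nat_lit 12048142233) (.two (nat_lit 9881780335) (nat_lit 18926802233) (.two (nat_lit 1795162127) (nat_lit 185021243541) (.two (nat_lit 184549384) (nat_lit 158077037006) (.two (nat_lit 16777221) (nat_lit 2109106) (.two (nat_lit 37748737) (nat_lit 10351555461) (.two (nat_lit 2097152) (nat_lit 4208449) (.one (nat_lit 2111740) .nil)))))))),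
   .two (nat_lit 10015998818) (nat_lit 165532404224) (.two (nat_lit 9781117123) (nat_lit 9768538005) (.two (nat_lit 3464495169) (nat_lit 20740840015) (.two (nat_lit 156372041743) (nat_lit 1178608588) (.two (nat_lit 272629768) (nat_lit 19142815351) (.two (nat_lit 4194305) (nat_lit 654324529) (.two (nat_lit 4194304) (nat_lit 8402508) (.one (nat_lit 176175087) .nil))))))),
   .two (nat_lit 4028629858) (nat_lit 339741199) (.two (nat_lit 3527409859) (nat_lit 185021239178) (.two (nat_lit 46510637121) (nat_lit 35658312) (.two (nat_lit 2889875471) (nat_lit 11611941322) (.two (nat_lit 272629765) (nat_lit 2109107) (.two (nat_lit 2097153) (nat_lit 12150911883) (.two (nat_lit 2097152) (nat_lit 4208205) (.one (nat_lit 2111741) .nil))))))),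
   .two (nat_lit 46523220835) (nat_lit 9802091006) (.two (nat_lit 306184387) (nat_lit 158183985037) (.two (nat_lit 46414168130) (nat_lit 19042146896) (.two (nat_lit 3464495119) (nat_lit 11479819202) (.two (nat_lit 272629768) (nat_lit 166237054638) (.two (nat_lit 4194308) (nat_lit 8400564) (.two (nat_lit 4194305) (nat_lit 16790870) (.two (nat_lit 4194304) (nat_lit 8402754) (.one (nat_lit 4208687) .nil)))))))),
   .two (nat_lit 12054430563) (nat_lit 13221498768) (.two (nat_lit 11479810115) (nat_lit 202381897) (.two (nat_lit 9866051599) (nat_lit 20740842448) (.two (nat_lit 4194312) (nat_lit 8399350) (.two (nat_lit 176160773) (nat_lit 11476676209) (.two (nat_lit 4194305) (nat_lit 8402263) (.two (nat_lit 1048576) (nat_lit 1317025762) .nil)))))),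
   .two (nat_lit 11517559650) (nat_lit 4634708478) (.two (nat_lit 843055299) (nat_lit 8393694) (.two (nat_lit 4601151552) (nat_lit 20644371927) (.two (nat_lit 713031695) (nat_lit 11007959990) (.two (nat_lit 9766436872) (nat_lit 4205533) (.two (nat_lit 156372041733) (nat_lit 4028640892) (.two (nat_lit 37748737) (nat_lit 10913592205) (.two (nat_lit 8388608) (nat_lit 2887792648) .nil))))))),
   .two (nat_lit 41943907) (nat_lit 285214237) (.two (nat_lit 12047090265) (nat_lit 4605349765) (.two (nat_lit 11618222147) (nat_lit 158662138462) (.two (nat_lit 12047089679) (nat_lit 612376725) (.two (nat_lit 16777224) (nat_lit 159250392753) (.two (nat_lit 16777220) (nat_lit 12047101595) (.two (nat_lit 16777217) (nat_lit 9966728005) (.two (nat_lit 4194304) (nat_lit 183953798663) (.one (nat_lit 1063166) .nil)))))))),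
   .two (nat_lit 1426064226) (nat_lit 37253810723) (.two (nat_lit 4601151683) (nat_lit 47555023878) (.two (nat_lit 183853121601) (nat_lit 1276123805) (.two (nat_lit 713031695) (nat_lit 10452213900) (.two (nat_lit 713031688) (nat_lit 28793907658) (.two (nat_lit 272629765) (nat_lit 10376720047) (.two (nat_lit 605028353) (nat_lit 205534082) (.two (nat_lit 1048576) (nat_lit 46481291298) .nil))))))),
   .two (nat_lit 822084451) (nat_lit 4034923021) (.two (nat_lit 50331843) (nat_lit 11010053082) (.two (nat_lit 46414168129) (nat_lit 1929386586) (.two (nat_lit 176160783) (nat_lit 158179796653) (.two (nat_lit 4194308) (nat_lit 75509416) (.two (nat_lit 8388609) (nat_lit 12150911780) (.two (nat_lit 8388608) (nat_lit 166132201458) .nil)))))),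
   .two (nat_lit 3558867810) (nat_lit 843057685) (.two (nat_lit 847249603) (nat_lit 318772245) (.two (nat_lit 203423810) (nat_lit 339745383) (.two (nat_lit 41943055) (nat_lit 9982451847) (.two (nat_lit 721420296) (nat_lit 1210066606) (.two (nat_lit 50331653) (nat_lit 11611942546) (.two (nat_lit 2097153) (nat_lit 46409986876) (.two (nat_lit 4194304) (nat_lit 19033765890) .nil))))))),
   .two (nat_lit 166132188450) (nat_lit 3525314078) (.two (nat_lit 10506731715) (nat_lit 2961185408) (.two (nat_lit 813694991) (nat_lit 4203510) (.two (nat_lit 8388616) (nat_lit 2108397) (.two (nat_lit 46407876612) (nat_lit 183953796752) (.two (nat_lit 2097153) (nat_lit 4207505) (.two (nat_lit 2097152) (nat_lit 4208451) (.one (nat_lit 2954901642) .nil))))))),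
   .two (nat_lit 20719862626) (nat_lit 2418019764) (.two (nat_lit 843055698) (nat_lit 11007954844) (.two (nat_lit 47548727362) (nat_lit 46409980488) (.two (nat_lit 13191086095) (nat_lit 3573557734) (.two (nat_lit 708837381) (nat_lit 16789585) (.two (nat_lit 16777217) (nat_lit 11513377554) (.two (nat_lit 2097152) (nat_lit 788543249) (.one (nat_lit 2111743) .nil))))))),
   .two (nat_lit 2316305251) (nat_lit 4647291402) (.two (nat_lit 11559502019) (nat_lit 11543777173) (.two (nat_lit 9899606081) (nat_lit 158158822010) (.two (nat_lit 158143086607) (nat_lit 754983906) (.two (nat_lit 9866051592) (nat_lit 11626622585) (.two (nat_lit 605028353) (nat_lit 721433393) (.two (nat_lit 16777216) (nat_lit 1062724) (.one (nat_lit 1063168) .nil))))))),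
   .two (nat_lit 159266112354) (nat_lit 673189766) (.two (nat_lit 285212737) (nat_lit 9902757180) (.two (nat_lit 272629775) (nat_lit 46489673863) (.two (nat_lit 37748744) (nat_lit 889202348) (.two (nat_lit 1344274437) (nat_lit 166144781935) (.two (nat_lit 606076929) (nat_lit 9781130101) (.two (nat_lit 2097152) (nat_lit 11559515670) (.one (nat_lit 102774824) .nil))))))),
   .two (nat_lit 10015998819) (nat_lit 184993976197) (.two (nat_lit 184549441) (nat_lit 158150433437) (.two (nat_lit 620757007) (nat_lit 10510934155) (.two (nat_lit 183853121544) (nat_lit 839921315) (.two (nat_lit 156364701697) (nat_lit 11022643990) (.two (nat_lit 1048576) (nat_lit 46422570983) .nil))))),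
   .two (nat_lit 10015998819) (nat_lit 12054433669) (.two (nat_lit 183853121601) (nat_lit 1862277714) (.two (nat_lit 713031695) (nat_lit 184431942511) (.two (nat_lit 713031688) (nat_lit 10537150126) (.two (nat_lit 41943045) (nat_lit 159266123386) (.two (nat_lit 605028353) (nat_lit 2936026674) (.one (nat_lit 8402994) .nil)))))),
   .two (nat_lit 46980399971) (nat_lit 47581235723) (.two (nat_lit 3525312707) (nat_lit 19109255797) (.two (nat_lit 185002360847) (nat_lit 1057783) (.two (nat_lit 10504634376) (nat_lit 10452216273) (.two (nat_lit 2097157) (nat_lit 16789586) (.two (nat_lit 2097153) (nat_lit 1062232) (.two (nat_lit 1048576) (nat_lit 2111301) (.one (nat_lit 2111745) .nil))))))),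
   .two (nat_lit 620758314) (nat_lit 2350909962) (.two (nat_lit 47582281923) (nat_lit 11593061371) (.two (nat_lit 1277165635) (nat_lit 2902465175) (.two (nat_lit 218103823) (nat_lit 3458214383) (.two (nat_lit 16777220) (nat_lit 2109109) (.two (nat_lit 16777217) (nat_lit 9967776529) (.two (nat_lit 2097152) (nat_lit 16791366) (.one (nat_lit 3036690400) .nil))))))),
   .two (nat_lit 18928894818) (nat_lit 1417677331) (.two (nat_lit 4647289027) (nat_lit 21210599318) (.two (nat_lit 156367847491) (nat_lit 28705823368) (.two (nat_lit 46984593423) (nat_lit 28772934629) (.two (nat_lit 4613734408) (nat_lit 8399854) (.two (nat_lit 176160773) (nat_lit 166199307905) (.two (nat_lit 37748737) (nat_lit 1062444) (.one (nat_lit 1283471488) .nil))))))),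
   .two (nat_lit 142607202) (nat_lit 159250385443) (.two (nat_lit 4605345987) (nat_lit 19142808545) (.two (nat_lit 1343225923) (nat_lit 159257729653) (.two (nat_lit 9866051599) (nat_lit 166237053904) (.two (nat_lit 654311432) (nat_lit 28757207515) (.two (nat_lit 1276116996) (nat_lit 10544492164) (.two (nat_lit 50331649) (nat_lit 28086121357) (.two (nat_lit 1048576) (nat_lit 11626624792) (.one (nat_lit 11543787553) .nil)))))))),
   .two (nat_lit 10343154531) (nat_lit 183962176039) (.two (nat_lit 11007951451) (nat_lit 28697431963) (.two (nat_lit 4028629057) (nat_lit 46523226746) (.two (nat_lit 3458203663) (nat_lit 713040844) (.two (nat_lit 2954887176) (nat_lit 183953794733) (.two (nat_lit 169869316) (nat_lit 184562182) (.two (nat_lit 2097152) (nat_lit 8402759) (.one (nat_lit 8403202) .nil))))))),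
   .two (nat_lit 11551114083) (nat_lit 184553349) (.two (nat_lit 809500739) (nat_lit 156984415545) (.two (nat_lit 75497487) (nat_lit 46510646958) (.two (nat_lit 2902458373) (nat_lit 28793908895) (.two (nat_lit 16777217) (nat_lit 46477095814) (.two (nat_lit 8388608) (nat_lit 740308234) (.one (nat_lit 2111539) .nil)))))),
   .two (nat_lit 10015998818) (nat_lit 21785218948) (.two (nat_lit 3036676162) (nat_lit 21781027451) (.two (nat_lit 713031695) (nat_lit 156481102825) (.two (nat_lit 41943048) (nat_lit 9902762451) (.two (nat_lit 8388613) (nat_lit 46510649003) (.two (nat_lit 16777217) (nat_lit 310391573) (.two (nat_lit 4194304) (nat_lit 8402760) (.one (nat_lit 4208692) .nil))))))),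
   .two (nat_lit 9806283619) (nat_lit 19130223103) (.two (nat_lit 1916797522) (nat_lit 605032330) (.two (nat_lit 4634705985) (nat_lit 9765395091) (.two (nat_lit 20637024279) (nat_lit 10443825300) (.two (nat_lit 4601151496) (nat_lit 34613720) (.two (nat_lit 4194308) (nat_lit 1060947) (.two (nat_lit 41943041) (nat_lit 1062233) (.two (nat_lit 1048576) (nat_lit 4208457) (.one (nat_lit 1063171) .nil)))))))),
   .two (nat_lit 28806480739) (nat_lit 19093522942) (.two (nat_lit 183912890563) (nat_lit 3024097165) (.two (nat_lit 10506731587) (nat_lit 2953845331) (.two (nat_lit 739246095) (nat_lit 159253538478) (.two (nat_lit 184549380) (nat_lit 1060948) (.two (nat_lit 34603009) (nat_lit 171979543) (.two (nat_lit 1048576) (nat_lit 4208458) (.one (nat_lit 1063172) .nil))))))),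
   .two (nat_lit 28690088802) (nat_lit 4197820) (.two (nat_lit 21827158211) (nat_lit 159216832399) (.two (nat_lit 3464495169) (nat_lit 20719868545) (.two (nat_lit 8388623) (nat_lit 10003424213) (.two (nat_lit 8388616) (nat_lit 843065804) (.two (nat_lit 13191086085) (nat_lit 13187952300) (.two (nat_lit 37748737) (nat_lit 10000282887) (.one (nat_lit 1063173) .nil))))))),
   .two (nat_lit 10015998819) (nat_lit 156372043294) (.two (nat_lit 352321731) (nat_lit 612372373) (.two (nat_lit 3464495212) (nat_lit 11476671134) (.two (nat_lit 12054429711) (nat_lit 1392518132) (.two (nat_lit 8388616) (nat_lit 9765400225) (.two (nat_lit 605028353) (nat_lit 1283470179) (.two (nat_lit 1048576) (nat_lit 8402763) (.one (nat_lit 1063174) .nil))))))),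
   .two (nat_lit 9802089314) (nat_lit 1052093) (.two (nat_lit 843055299) (nat_lit 1309676505) (.two (nat_lit 11479810115) (nat_lit 3020954215) (.two (nat_lit 184419352591) (nat_lit 183845791412) (.two (nat_lit 1343225861) (nat_lit 708849331) (.two (nat_lit 37748737) (nat_lit 11510231947) (.two (nat_lit 1048576) (nat_lit 3560977997) (.one (nat_lit 10003429352) .nil))))))),
   .two (nat_lit 843055970) (nat_lit 9966718860) (.two (nat_lit 306184258) (nat_lit 156364708499) (.two (nat_lit 809500687) (nat_lit 873474520) (.two (nat_lit 4194308) (nat_lit 10000281254) (.two (nat_lit 37748737) (nat_lit 1343239750) (.one (nat_lit 1276131306) .nil))))),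
   .two (nat_lit 272630626) (nat_lit 166230755853) (.two (nat_lit 8388803) (nat_lit 3558872245) (.two (nat_lit 272629824) (nat_lit 806363304) (.two (nat_lit 612368392) (nat_lit 20640180947) (.two (nat_lit 176160772) (nat_lit 174752542433) (.two (nat_lit 2097153) (nat_lit 158653756939) (.one (nat_lit 12147767249) .nil)))))),
   .two (nat_lit 47555019619) (nat_lit 202377739) (.two (nat_lit 352321731) (nat_lit 166203494310) (.two (nat_lit 4613734466) (nat_lit 11014249108) (.two (nat_lit 612368399) (nat_lit 158176650928) (.two (nat_lit 176160772) (nat_lit 202387105) (.two (nat_lit 2097153) (nat_lit 4631573573) (.two (nat_lit 2097152) (nat_lit 1182808076) .nil)))))),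
   .two (nat_lit 156971828509) (nat_lit 75500059) (.two (nat_lit 41943235) (nat_lit 11580479702) (.two (nat_lit 8388674) (nat_lit 21812486158) (.two (nat_lit 37748751) (nat_lit 183853129890) (.two (nat_lit 8388616) (nat_lit 46474996791) (.two (nat_lit 4194308) (nat_lit 3464507051) (.two (nat_lit 2097153) (nat_lit 9806296694) (.one (nat_lit 1746942248) .nil))))))),
   .two (nat_lit 19142804323) (nat_lit 171969035) (.two (nat_lit 16777411) (nat_lit 1753223044) (.two (nat_lit 16777280) (nat_lit 156372047158) (.two (nat_lit 16777231) (nat_lit 28798099604) (.two (nat_lit 8388616) (nat_lit 47584388784) (.two (nat_lit 8388612) (nat_lit 4204268) (.two (nat_lit 8388612) (nat_lit 171976427) (.two (nat_lit 9766436865) (nat_lit 318779905) (.two (nat_lit 2097152) (nat_lit 339752199) (.one (nat_lit 16791627) .nil))))))))),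
   .two (nat_lit 166130090850) (nat_lit 46992984590) (.two (nat_lit 16777411) (nat_lit 1753223044) (.two (nat_lit 16777280) (nat_lit 156372047158) (.two (nat_lit 16777231) (nat_lit 166237053076) (.two (nat_lit 8388616) (nat_lit 16787133) (.two (nat_lit 8388612) (nat_lit 159232567024) (.two (nat_lit 8388612) (nat_lit 3003130167) (.two (nat_lit 9765388289) (nat_lit 9982456321) (.two (nat_lit 1048576) (nat_lit 3022009607) (.one (nat_lit 16791829) .nil))))))))),
   .two (nat_lit 2923430754) (nat_lit 166230755847) (.two (nat_lit 822083779) (nat_lit 157035795485) (.two (nat_lit 11559501888) (nat_lit 184986637624) (.two (nat_lit 11559501839) (nat_lit 11577335966) (.two (nat_lit 705691656) (nat_lit 352331443) (.two (nat_lit 16777220) (nat_lit 46477089790) (.two (nat_lit 4599054341) (nat_lit 3540002544) (.two (nat_lit 2097153) (nat_lit 605039404) (.two (nat_lit 1048576) (nat_lit 9869211196) (.one (nat_lit 16791629) .nil))))))))),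
   .two (nat_lit 46510638365) (nat_lit 184987683371) (.two (nat_lit 41943235) (nat_lit 9869201288) (.two (nat_lit 8388672) (nat_lit 2920290921) (.two (nat_lit 41943055) (nat_lit 4599064124) (.two (nat_lit 713031688) (nat_lit 158077037112) (.two (nat_lit 713031684) (nat_lit 1847602815) (.two (nat_lit 2097153) (nat_lit 11580486617) (.two (nat_lit 2097152) (nat_lit 1062847) (.one (nat_lit 46980413414) .nil)))))))),
   .two (nat_lit 28693234973) (nat_lit 165525064196) (.two (nat_lit 272629955) (nat_lit 69210003) (.two (nat_lit 4194369) (nat_lit 159224175291) (.two (nat_lit 4194319) (nat_lit 28087165916) (.two (nat_lit 4194312) (nat_lit 840967854) (.two (nat_lit 4194308) (nat_lit 20637036193) (.two (nat_lit 2097153) (nat_lit 4598019241) (.two (nat_lit 1048576) (nat_lit 13195294654) (.one (nat_lit 184986646569) .nil)))))))),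
   .two (nat_lit 9766437730) (nat_lit 183916038672) (.two (nat_lit 8388803) (nat_lit 4632612754) (.two (nat_lit 721420353) (nat_lit 11543778615) (.two (nat_lit 721420303) (nat_lit 37246475120) (.two (nat_lit 721420296) (nat_lit 34612918) (.two (nat_lit 8388612) (nat_lit 605035518) (.two (nat_lit 2097155) (nat_lit 28772937407) (.two (nat_lit 9781116929) (nat_lit 21778936329) (.two (nat_lit 1048576) (nat_lit 185021249108) (.one (nat_lit 1062992) .nil))))))))),
   .two (nat_lit 352322402) (nat_lit 102760952) (.two (nat_lit 352322402) (nat_lit 156567079623) (.two (nat_lit 16777411) (nat_lit 1209013226) (.two (nat_lit 16777280) (nat_lit 11543777406) (.two (nat_lit 16777280) (nat_lit 11543777406) (.two (nat_lit 16777231) (nat_lit 11543776074) (.two (nat_lit 16777231) (nat_lit 11543777406) (.two (nat_lit 8388616) (nat_lit 1058487) (.two (nat_lit 8388612) (nat_lit 605035518) (.two (nat_lit 8388611) (nat_lit 11578388165) (.two (nat_lit 4194305) (nat_lit 1062117) (.two (nat_lit 1048576) (nat_lit 2111410) (.one (nat_lit 2953853261) .nil)))))))))))),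
   .two (nat_lit 4601152354) (nat_lit 1914700280) (.two (nat_lit 4601152354) (nat_lit 9766439623) (.two (nat_lit 46992982239) (nat_lit 158646406923) (.two (nat_lit 16777411) (nat_lit 20705186901) (.two (nat_lit 276824129) (nat_lit 1279265573) (.two (nat_lit 276824129) (nat_lit 205525042) (.two (nat_lit 276824129) (nat_lit 10003419189) (.two (nat_lit 276824079) (nat_lit 270539634) (.two (nat_lit 276824079) (nat_lit 306191242) (.two (nat_lit 8388616) (nat_lit 1058487) (.two (nat_lit 4194306) (nat_lit 1061357) (.two (nat_lit 8388611) (nat_lit 773861061) (.two (nat_lit 16777217) (nat_lit 1062118) (.two (nat_lit 1048576) (nat_lit 304101298) (.one (nat_lit 1063191) .nil)))))))))))))),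
   .two (nat_lit 4634706786) (nat_lit 47547681291) (.two (nat_lit 4634706115) (nat_lit 156566033534) (.two (nat_lit 185027526721) (nat_lit 185020192055) (.two (nat_lit 11551113231) (nat_lit 2886736752) (.two (nat_lit 4194312) (nat_lit 9800002212) (.two (nat_lit 11546918917) (nat_lit 11610892016) (.two (nat_lit 183853121540) (nat_lit 1343238629) (.two (nat_lit 37748737) (nat_lit 235942400) (.two (nat_lit 1048576) (nat_lit 2418029834) (.one (nat_lit 8403218) .nil))))))))),
   .two (nat_lit 306185058) (nat_lit 169871885) (.two (nat_lit 47582281923) (nat_lit 10537145470) (.two (nat_lit 185027526721) (nat_lit 185020192055) (.two (nat_lit 11551113231) (nat_lit 2886736752) (.two (nat_lit 4194312) (nat_lit 158647462574) (.two (nat_lit 28093448197) (nat_lit 1343238629) (.two (nat_lit 12121538565) (nat_lit 1343237957) (.two (nat_lit 37748737) (nat_lit 2920296960) (.two (nat_lit 1048576) (nat_lit 37316736266) (.one (nat_lit 8403225) .nil))))))))),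
   .two (nat_lit 12129927623) (nat_lit 873467428) (.two (nat_lit 9799992608) (nat_lit 12620662304) (.two (nat_lit 16777411) (nat_lit 185021240366) (.two (nat_lit 721420353) (nat_lit 41949872) (.two (nat_lit 50331663) (nat_lit 11544830996) (.two (nat_lit 8388616) (nat_lit 839919285) (.two (nat_lit 8388612) (nat_lit 2886741645) (.two (nat_lit 8388609) (nat_lit 11492406057) (.two (nat_lit 1048576) (nat_lit 16791489) (.one (nat_lit 2111545) .nil))))))))),
   .two (nat_lit 11559502046) (nat_lit 11543775742) (.two (nat_lit 876610402) (nat_lit 159224171060) (.two (nat_lit 4195170) (nat_lit 285213640) (.two (nat_lit 16777411) (nat_lit 2420117398) (.two (nat_lit 16777280) (nat_lit 1411390167) (.two (nat_lit 8388623) (nat_lit 2886736751) (.two (nat_lit 8388616) (nat_lit 839919285) (.two (nat_lit 8388612) (nat_lit 46507503245) (.two (nat_lit 8388609) (nat_lit 2886742839) (.two (nat_lit 8388608) (nat_lit 1062850) (.one (nat_lit 171980857) .nil)))))))))),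
   .two (nat_lit 20719862626) (nat_lit 185020189183) (.two (nat_lit 1916797123) (nat_lit 101718488) (.two (nat_lit 166129041473) (nat_lit 13224645942) (.two (nat_lit 9881780239) (nat_lit 1913660765) (.two (nat_lit 176160776) (nat_lit 620767890) (.two (nat_lit 285212677) (nat_lit 306194162) (.two (nat_lit 285212677) (nat_lit 2927635244) (.two (nat_lit 8388609) (nat_lit 46523231020) (.two (nat_lit 4194304) (nat_lit 156472719233) (.one (nat_lit 4208922) .nil))))))))),
   .two (nat_lit 3527410531) (nat_lit 69206528) (.two (nat_lit 3525312707) (nat_lit 46510641027) (.two (nat_lit 3525312576) (nat_lit 775951677) (.two (nat_lit 157036838927) (nat_lit 2319458444) (.two (nat_lit 742391816) (nat_lit 46422568219) (.two (nat_lit 754974725) (nat_lit 739253246) (.two (nat_lit 34603009) (nat_lit 3458214704) (.two (nat_lit 16777216) (nat_lit 183913952780) (.one (nat_lit 2111569) .nil)))))))),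
   .two (nat_lit 4601152354) (nat_lit 159224170013) (.two (nat_lit 47555018947) (nat_lit 1376786387) (.two (nat_lit 166129041473) (nat_lit 4634711351) (.two (nat_lit 218103823) (nat_lit 21814584255) (.two (nat_lit 2902458376) (nat_lit 183848937141) (.two (nat_lit 8388613) (nat_lit 46409980926) (.two (nat_lit 285212677) (nat_lit 46977263347) (.two (nat_lit 9781116929) (nat_lit 158079136256) (.two (nat_lit 1048576) (nat_lit 11513378449) (.one (nat_lit 1063195) .nil))))))))),
   .two (nat_lit 218105125) (nat_lit 28691139076) (.two (nat_lit 318767461) (nat_lit 4634709892) (.two (nat_lit 272629824) (nat_lit 46474992246) (.two (nat_lit 285212687) (nat_lit 2418025438) (.two (nat_lit 184549382) (nat_lit 2418026997) (.two (nat_lit 2097159) (nat_lit 4202754) (.two (nat_lit 605028357) (nat_lit 184417267836) (.two (nat_lit 2097153) (nat_lit 46977266876) (.two (nat_lit 2097152) (nat_lit 1062612) (.one (nat_lit 28758259688) .nil))))))))),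
   .two (nat_lit 9881781541) (nat_lit 158077028868) (.two (nat_lit 2921333093) (nat_lit 19134418823) (.two (nat_lit 8388672) (nat_lit 1055305) (.two (nat_lit 612368399) (nat_lit 739255267) (.two (nat_lit 16777224) (nat_lit 1310729902) (.two (nat_lit 16777220) (nat_lit 20738748104) (.two (nat_lit 2097153) (nat_lit 336606279) (.two (nat_lit 2097152) (nat_lit 8402645) (.one (nat_lit 1062972) .nil)))))))),
   .two (nat_lit 12050236259) (nat_lit 142607904) (.two (nat_lit 352322403) (nat_lit 243270603) (.two (nat_lit 352322403) (nat_lit 243270137) (.two (nat_lit 4605345987) (nat_lit 20638076805) (.two (nat_lit 16777280) (nat_lit 2317359694) (.two (nat_lit 8388623) (nat_lit 270540935) (.two (nat_lit 176160776) (nat_lit 306194874) (.two (nat_lit 176160772) (nat_lit 138423999) (.two (nat_lit 4194305) (nat_lit 136328091) (.two (nat_lit 2097152) (nat_lit 2990553177) (.one (nat_lit 2111753) .nil)))))))))),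
   .two (nat_lit 11559502046) (nat_lit 742395330) (.two (nat_lit 47563408226) (nat_lit 243271200) (.two (nat_lit 352322402) (nat_lit 41944011) (.two (nat_lit 4601151683) (nat_lit 11618227201) (.two (nat_lit 83886147) (nat_lit 806362738) (.two (nat_lit 4194319) (nat_lit 9940509788) (.two (nat_lit 713031688) (nat_lit 843065786) (.two (nat_lit 4194308) (nat_lit 11014254289) (.two (nat_lit 37748737) (nat_lit 251671451) (.two (nat_lit 16777216) (nat_lit 1062851) (.one (nat_lit 788543753) .nil)))))))))),
   .two (nat_lit 11559502283) (nat_lit 11544824339) (.two (nat_lit 16778526) (nat_lit 1277166540) (.two (nat_lit 306184387) (nat_lit 12618567573) (.two (nat_lit 2902458435) (nat_lit 37247523406) (.two (nat_lit 8388623) (nat_lit 169879021) (.two (nat_lit 171966470) (nat_lit 855649824) (.two (nat_lit 12121538567) (nat_lit 4204223) (.two (nat_lit 3464495109) (nat_lit 775958225) (.two (nat_lit 4194305) (nat_lit 1962947407) (.two (nat_lit 16777216) (nat_lit 2111428) (.one (nat_lit 16791818) .nil)))))))))),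
   .two (nat_lit 4601153054) (nat_lit 20711474476) (.two (nat_lit 4605345987) (nat_lit 20638076805) (.two (nat_lit 184549442) (nat_lit 185021243042) (.two (nat_lit 37748751) (nat_lit 1350575196) (.two (nat_lit 176160776) (nat_lit 306194874) (.two (nat_lit 4194308) (nat_lit 2424319697) (.two (nat_lit 4194305) (nat_lit 788542363) (.two (nat_lit 16777216) (nat_lit 2923443915) (.one (nat_lit 251672841) .nil)))))))),
   .two (nat_lit 46992982054) (nat_lit 8390290) (.two (nat_lit 21785214984) (nat_lit 2108122) (.two (nat_lit 8388608) (nat_lit 102771518) .nil)),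
   .two (nat_lit 21811430686) (nat_lit 28791802370) (.two (nat_lit 1376780645) (nat_lit 10336866191) (.two (nat_lit 11577327681) (nat_lit 20638080485) (.two (nat_lit 4601151503) (nat_lit 135276110) (.two (nat_lit 157036838920) (nat_lit 1059547) (.two (nat_lit 10336862213) (nat_lit 109063842) (.two (nat_lit 37748737) (nat_lit 606090306) (.two (nat_lit 1048576) (nat_lit 4208342) (.one (nat_lit 168835133) .nil)))))))),
   .two (nat_lit 352322402) (nat_lit 1753220637) (.two (nat_lit 1745879235) (nat_lit 780144552) (.two (nat_lit 184993972289) (nat_lit 1947212425) (.two (nat_lit 10343153679) (nat_lit 654321116) (.two (nat_lit 21777874952) (nat_lit 46514841261) (.two (nat_lit 713031685) (nat_lit 2987404942) (.two (nat_lit 8388609) (nat_lit 16790728) (.two (nat_lit 16777216) (nat_lit 1062615) (.one (nat_lit 9948903485) .nil)))))))),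
   .two (nat_lit 10015998819) (nat_lit 1753220637) (.two (nat_lit 142606531) (nat_lit 2349862818) (.two (nat_lit 11584667714) (nat_lit 184431942261) (.two (nat_lit 156372041743) (nat_lit 166211888136) (.two (nat_lit 184993972232) (nat_lit 839919281) (.two (nat_lit 713031685) (nat_lit 83898150) (.two (nat_lit 9765388289) (nat_lit 16790475) (.two (nat_lit 16777216) (nat_lit 8402648) (.one (nat_lit 9781131416) .nil)))))))),
   .two (nat_lit 19142804323) (nat_lit 157038937629) (.two (nat_lit 11010048195) (nat_lit 174753583010) (.two (nat_lit 46477082690) (nat_lit 3472890485) (.two (nat_lit 156367847439) (nat_lit 158158824456) (.two (nat_lit 3527409672) (nat_lit 4599064241) (.two (nat_lit 708837381) (nat_lit 1962946170) (.two (nat_lit 606076929) (nat_lit 822096843) (.two (nat_lit 16777216) (nat_lit 4208345) (.one (nat_lit 83900568) .nil)))))))),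
   .two (nat_lit 4634707229) (nat_lit 11510221314) (.two (nat_lit 156569174211) (nat_lit 3557823444) (.two (nat_lit 4634705986) (nat_lit 46977261493) (.two (nat_lit 16777231) (nat_lit 605036708) (.two (nat_lit 9948889096) (nat_lit 10540296919) (.two (nat_lit 1291845637) (nat_lit 1279274784) (.two (nat_lit 9765388289) (nat_lit 9781130136) (.two (nat_lit 2097152) (nat_lit 1062180) (.one (nat_lit 638597297) .nil)))))))),
   .two (nat_lit 3539993443) (nat_lit 19130222110) (.two (nat_lit 157043130725) (nat_lit 4199637) (.two (nat_lit 46489665601) (nat_lit 3560971883) (.two (nat_lit 4194319) (nat_lit 1216357886) (.two (nat_lit 68157448) (nat_lit 20652761346) (.two (nat_lit 11543773192) (nat_lit 1950362417) (.two (nat_lit 721420293) (nat_lit 11513376437) (.two (nat_lit 605028353) (nat_lit 174759883928) (.two (nat_lit 8388608) (nat_lit 4208346) (.one (nat_lit 1063179) .nil))))))))),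
   .two (nat_lit 166230754589) (nat_lit 19127077380) (.two (nat_lit 10538188995) (nat_lit 4631565271) (.two (nat_lit 2954887232) (nat_lit 3524272165) (.two (nat_lit 16777231) (nat_lit 10907296969) (.two (nat_lit 184549382) (nat_lit 304097818) (.two (nat_lit 4613734407) (nat_lit 4205291) (.two (nat_lit 822083589) (nat_lit 20638084759) (.two (nat_lit 605028353) (nat_lit 4207488) (.two (nat_lit 1048576) (nat_lit 4208581) (.one (nat_lit 1062974) .nil))))))))),
   .two (nat_lit 157036840223) (nat_lit 10506733085) (.two (nat_lit 3525312707) (nat_lit 11546922889) (.two (nat_lit 184993972288) (nat_lit 135269155) (.two (nat_lit 184993972288) (nat_lit 135268050) (.two (nat_lit 46407876623) (nat_lit 1749033943) (.two (nat_lit 46407876616) (nat_lit 11580483246) (.two (nat_lit 4599054341) (nat_lit 1379937958) (.two (nat_lit 2097153) (nat_lit 9936319280) (.two (nat_lit 8388608) (nat_lit 46407890210) (.one (nat_lit 8403228) .nil))))))))),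
   .two (nat_lit 4638901091) (nat_lit 1178602034) (.two (nat_lit 3525312707) (nat_lit 1379929997) (.two (nat_lit 47588573249) (nat_lit 1411390035) (.two (nat_lit 2887778319) (nat_lit 11513373823) (.two (nat_lit 46407876616) (nat_lit 708847278) (.two (nat_lit 605028357) (nat_lit 706752166) (.two (nat_lit 2097153) (nat_lit 2987406173) (.two (nat_lit 2097152) (nat_lit 1379939597) (.one (nat_lit 3458218031) .nil)))))))),
   .two (nat_lit 4638901091) (nat_lit 10506733085) (.two (nat_lit 3525312707) (nat_lit 11546922889) (.two (nat_lit 46508539969) (nat_lit 11614034515) (.two (nat_lit 813694991) (nat_lit 166229714159) (.two (nat_lit 46407876616) (nat_lit 708847278) (.two (nat_lit 34603013) (nat_lit 71315110) (.two (nat_lit 2097153) (nat_lit 168833908) (.two (nat_lit 8388608) (nat_lit 46978315978) (.one (nat_lit 2111757) .nil)))))))),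
   .two (nat_lit 3527410530) (nat_lit 47588575748) (.two (nat_lit 3527409859) (nat_lit 10007613324) (.two (nat_lit 3527409730) (nat_lit 37253815043) (.two (nat_lit 16777231) (nat_lit 11611940420) (.two (nat_lit 2889875464) (nat_lit 174692771519) (.two (nat_lit 16777224) (nat_lit 21778931970) (.two (nat_lit 2887778308) (nat_lit 276835953) (.two (nat_lit 2097153) (nat_lit 184989791150) (.two (nat_lit 8388608) (nat_lit 16791260) (.one (nat_lit 337655826) .nil))))))))),
   .two (nat_lit 3527410530) (nat_lit 47588575748) (.two (nat_lit 3527409859) (nat_lit 10007613324) (.two (nat_lit 3527409730) (nat_lit 37253815043) (.two (nat_lit 16777231) (nat_lit 11611940420) (.two (nat_lit 184549382) (nat_lit 174686481712) (.two (nat_lit 2889875464) (nat_lit 174692771519) (.two (nat_lit 2887778308) (nat_lit 276835953) (.two (nat_lit 2097153) (nat_lit 184989791150) (.two (nat_lit 8388608) (nat_lit 19530790602) (.one (nat_lit 337655826) .nil))))))))),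
   .two (nat_lit 166211879779) (nat_lit 159250385443) (.two (nat_lit 3524264294) (nat_lit 183949594499) (.two (nat_lit 3539992641) (nat_lit 675288381) (.two (nat_lit 8388623) (nat_lit 12047099158) (.two (nat_lit 654311432) (nat_lit 9966725715) (.two (nat_lit 721420292) (nat_lit 876621985) (.two (nat_lit 16777217) (nat_lit 235942864) (.two (nat_lit 1048576) (nat_lit 285226735) (.one (nat_lit 1063182) .nil)))))))),
   .two (nat_lit 4613735267) (nat_lit 165532403230) (.two (nat_lit 159224168643) (nat_lit 1795166092) (.two (nat_lit 47555018817) (nat_lit 1325406981) (.two (nat_lit 169869327) (nat_lit 11551122819) (.two (nat_lit 184549382) (nat_lit 605040013) (.two (nat_lit 705691656) (nat_lit 11484012802) (.two (nat_lit 176160773) (nat_lit 1061321) (.two (nat_lit 34603009) (nat_lit 1914713450) (.two (nat_lit 16777216) (nat_lit 1062622) (.one (nat_lit 2111759) .nil))))))))),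
   .two (nat_lit 343934493) (nat_lit 159217878557) (.two (nat_lit 343933794) (nat_lit 1913655191) (.two (nat_lit 8388803) (nat_lit 183947500124) (.two (nat_lit 12150898753) (nat_lit 1055600) (.two (nat_lit 276824079) (nat_lit 1914709682) (.two (nat_lit 11551113224) (nat_lit 28690099855) (.two (nat_lit 1914699781) (nat_lit 4027593216) (.two (nat_lit 41943041) (nat_lit 4028642565) (.two (nat_lit 1048576) (nat_lit 2111499) (.one (nat_lit 2111785) .nil))))))))),
   .two (nat_lit 3558868510) (nat_lit 156535621149) (.two (nat_lit 156567077730) (nat_lit 46510641027) (.two (nat_lit 4605345987) (nat_lit 1277172360) (.two (nat_lit 339738690) (nat_lit 185027534993) (.two (nat_lit 169869327) (nat_lit 184989787826) (.two (nat_lit 169869320) (nat_lit 12620672654) (.two (nat_lit 184989777925) (nat_lit 3020960258) (.two (nat_lit 37748737) (nat_lit 1745892880) (.two (nat_lit 4194304) (nat_lit 165525075950) (.one (nat_lit 4208938) .nil))))))))),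
   .two (nat_lit 157038937630) (nat_lit 3036678672) (.two (nat_lit 157036839778) (nat_lit 9802092419) (.two (nat_lit 2988441795) (nat_lit 1413487183) (.two (nat_lit 4194415) (nat_lit 16784238) (.two (nat_lit 1795162127) (nat_lit 174688577997) (.two (nat_lit 2954887176) (nat_lit 11614039682) (.two (nat_lit 3525312517) (nat_lit 2432709120) (.two (nat_lit 16777217) (nat_lit 158177703457) (.two (nat_lit 2097152) (nat_lit 1191196629) (.one (nat_lit 2111787) .nil))))))))),
   .two (nat_lit 847250974) (nat_lit 2923432466) (.two (nat_lit 156971828066) (nat_lit 28690091909) (.two (nat_lit 1384120515) (nat_lit 159250389579) (.two (nat_lit 19599982659) (nat_lit 1056918) (.two (nat_lit 276824079) (nat_lit 47584388784) (.two (nat_lit 1175453704) (nat_lit 809512579) (.two (nat_lit 11476664324) (nat_lit 855650817) (.two (nat_lit 9768534017) (nat_lit 9966728454) (.two (nat_lit 4194304) (nat_lit 754989015) (.one (nat_lit 1063212) .nil))))))))),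
   .two (nat_lit 13237224989) (nat_lit 9802090013) (.two (nat_lit 13237224290) (nat_lit 9869201294) (.two (nat_lit 13191086275) (nat_lit 46489672314) (.two (nat_lit 2969567296) (nat_lit 9867108499) (.two (nat_lit 218103823) (nat_lit 706750913) (.two (nat_lit 37748744) (nat_lit 889204345) (.two (nat_lit 4601151493) (nat_lit 165540803072) (.two (nat_lit 4194305) (nat_lit 169883137) (.two (nat_lit 4194304) (nat_lit 270546911) (.one (nat_lit 20707293470) .nil))))))))),
   .two (nat_lit 13237224989) (nat_lit 174759873042) (.two (nat_lit 13228835682) (nat_lit 352325528) (.two (nat_lit 11584667843) (nat_lit 12620667464) (.two (nat_lit 3525312576) (nat_lit 71310191) (.two (nat_lit 13203669007) (nat_lit 1059299) (.two (nat_lit 813694984) (nat_lit 18928905879) (.two (nat_lit 4599054341) (nat_lit 117453316) (.two (nat_lit 2097153) (nat_lit 4208178) (.two (nat_lit 2097152) (nat_lit 10343167953) (.one (nat_lit 2111789) .nil))))))))),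
   .two (nat_lit 2994734621) (nat_lit 1310722578) (.two (nat_lit 174686471010) (nat_lit 1846546309) (.two (nat_lit 889192643) (nat_lit 746591550) (.two (nat_lit 11007950915) (nat_lit 16785559) (.two (nat_lit 721420303) (nat_lit 303048365) (.two (nat_lit 813694984) (nat_lit 101723779) (.two (nat_lit 1745879045) (nat_lit 10452218372) (.two (nat_lit 620756993) (nat_lit 2316317957) (.two (nat_lit 1048576) (nat_lit 2111503) (.one (nat_lit 1063214) .nil))))))))),
   .two (nat_lit 10907289118) (nat_lit 166232853018) (.two (nat_lit 9982444386) (nat_lit 740298638) (.two (nat_lit 184986632387) (nat_lit 11626617466) (.two (nat_lit 4194369) (nat_lit 16785560) (.two (nat_lit 169869327) (nat_lit 185023342256) (.two (nat_lit 754974728) (nat_lit 19094580901) (.two (nat_lit 4599054341) (nat_lit 11525960195) (.two (nat_lit 2097153) (nat_lit 19127088391) (.two (nat_lit 1048576) (nat_lit 4632623069) (.one (nat_lit 9766451493) .nil))))))))),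
   .two (nat_lit 3525314077) (nat_lit 28764539419) (.two (nat_lit 9766437730) (nat_lit 1191186307) (.two (nat_lit 8388803) (nat_lit 3472889150) (.two (nat_lit 4613734465) (nat_lit 343939950) (.two (nat_lit 612368399) (nat_lit 185021245101) (.two (nat_lit 721420296) (nat_lit 11611942531) (.two (nat_lit 83886085) (nat_lit 37320929793) (.two (nat_lit 8388609) (nat_lit 10538202373) (.two (nat_lit 2097152) (nat_lit 12054443991) (.one (nat_lit 159216843040) .nil))))))))),
   .two (nat_lit 10015999517) (nat_lit 813697568) (.two (nat_lit 165532402530) (nat_lit 2956988306) (.two (nat_lit 13191086275) (nat_lit 8395370) (.two (nat_lit 1344274547) (nat_lit 16784238) (.two (nat_lit 285212687) (nat_lit 37316733391) (.two (nat_lit 37748744) (nat_lit 28806491767) (.two (nat_lit 612368389) (nat_lit 46489678337) (.two (nat_lit 16777217) (nat_lit 2111029) (.two (nat_lit 16777216) (nat_lit 19094583244) (.one (nat_lit 2111793) .nil))))))))),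
   .two (nat_lit 16778781) (nat_lit 11517559816) (.two (nat_lit 16778082) (nat_lit 11517559816) (.two (nat_lit 16777411) (nat_lit 156976026938) (.two (nat_lit 8388672) (nat_lit 16784238) (.two (nat_lit 8388623) (nat_lit 16787133) (.two (nat_lit 8388616) (nat_lit 16789180) (.two (nat_lit 8388612) (nat_lit 16787224) (.two (nat_lit 8388609) (nat_lit 16791086) (.two (nat_lit 8388608) (nat_lit 16791270) (.one (nat_lit 8403251) .nil))))))))),
   .two (nat_lit 16778781) (nat_lit 11517559816) (.two (nat_lit 16778082) (nat_lit 11517559816) (.two (nat_lit 47596962259) (nat_lit 20644368290) (.two (nat_lit 16777411) (nat_lit 156976026938) (.two (nat_lit 8388672) (nat_lit 16784238) (.two (nat_lit 8388623) (nat_lit 16787133) (.two (nat_lit 8388616) (nat_lit 16789180) (.two (nat_lit 8388612) (nat_lit 16787224) (.two (nat_lit 8388611) (nat_lit 721433551) (.two (nat_lit 8388609) (nat_lit 16791086) (.two (nat_lit 8388608) (nat_lit 16791620) (.one (nat_lit 8403251) .nil))))))))))),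
   .two (nat_lit 16778781) (nat_lit 11517559816) (.two (nat_lit 16778781) (nat_lit 11618223046) (.two (nat_lit 16778082) (nat_lit 11517559816) (.two (nat_lit 12129927623) (nat_lit 11618226053) (.two (nat_lit 16778530) (nat_lit 3464496780) (.two (nat_lit 16777411) (nat_lit 156976026938) (.two (nat_lit 8388672) (nat_lit 16784238) (.two (nat_lit 8388623) (nat_lit 16787133) (.two (nat_lit 8388616) (nat_lit 16789180) (.two (nat_lit 8388610) (nat_lit 16790039) (.two (nat_lit 8388611) (nat_lit 721433551) (.two (nat_lit 8388609) (nat_lit 16791086) (.two (nat_lit 8388608) (nat_lit 16791621) (.one (nat_lit 8403251) .nil))))))))))))),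
   .two (nat_lit 16778781) (nat_lit 11517559816) (.two (nat_lit 16778781) (nat_lit 11618223046) (.two (nat_lit 11559502046) (nat_lit 10376709773) (.two (nat_lit 16778530) (nat_lit 3464496780) (.two (nat_lit 47596962259) (nat_lit 20644368290) (.two (nat_lit 16777411) (nat_lit 156976026938) (.two (nat_lit 8388672) (nat_lit 16784238) (.two (nat_lit 8388623) (nat_lit 16787133) (.two (nat_lit 8388616) (nat_lit 16789180) (.two (nat_lit 8388610) (nat_lit 16789360) (.two (nat_lit 8388611) (nat_lit 721433551) (.two (nat_lit 8388609) (nat_lit 16791086) (.two (nat_lit 8388608) (nat_lit 16791622) (.one (nat_lit 8403251) .nil))))))))))))),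
   .two (nat_lit 16778781) (nat_lit 11618223046) (.two (nat_lit 16778781) (nat_lit 847250379) (.two (nat_lit 16778530) (nat_lit 3464496780) (.two (nat_lit 12129927623) (nat_lit 11618226053) (.two (nat_lit 16777411) (nat_lit 156976026938) (.two (nat_lit 8388672) (nat_lit 16784238) (.two (nat_lit 8388623) (nat_lit 16787133) (.two (nat_lit 8388616) (nat_lit 16789180) (.two (nat_lit 8388610) (nat_lit 16788271) (.two (nat_lit 8388612) (nat_lit 352333674) (.two (nat_lit 8388609) (nat_lit 16791086) (.two (nat_lit 8388608) (nat_lit 16791623) (.one (nat_lit 8403251) .nil)))))))))))),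
   .two (nat_lit 16778781) (nat_lit 847250379) (.two (nat_lit 184549601) (nat_lit 1417679898) (.two (nat_lit 16777411) (nat_lit 156976026938) (.two (nat_lit 8388672) (nat_lit 16784238) (.two (nat_lit 8388623) (nat_lit 16787133) (.two (nat_lit 8388616) (nat_lit 16789180) (.two (nat_lit 8388612) (nat_lit 352333674) (.two (nat_lit 8388611) (nat_lit 721433551) (.two (nat_lit 8388609) (nat_lit 16791086) (.two (nat_lit 8388608) (nat_lit 16790092) (.one (nat_lit 8403251) .nil)))))))))),
   .two (nat_lit 612369949) (nat_lit 1358955000) (.two (nat_lit 612369250) (nat_lit 83887113) (.two (nat_lit 4605345987) (nat_lit 47584384318) (.two (nat_lit 4601151552) (nat_lit 174759878803) (.two (nat_lit 620757007) (nat_lit 9902761645) (.two (nat_lit 8388616) (nat_lit 809512562) (.two (nat_lit 612368387) (nat_lit 285226133) (.two (nat_lit 4194305) (nat_lit 2969581049) (.two (nat_lit 16777216) (nat_lit 2990553076) (.one (nat_lit 4208970) .nil))))))))),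
   .two (nat_lit 880805405) (nat_lit 672137720) (.two (nat_lit 10519315298) (nat_lit 13224644484) (.two (nat_lit 4605345987) (nat_lit 13221501605) (.two (nat_lit 47563407426) (nat_lit 156372050081) (.two (nat_lit 4601151503) (nat_lit 21777884850) (.two (nat_lit 272629768) (nat_lit 11610893999) (.two (nat_lit 46409973765) (nat_lit 10335823624) (.two (nat_lit 184549380) (nat_lit 20637035308) (.two (nat_lit 16777217) (nat_lit 159219987983) (.two (nat_lit 8388608) (nat_lit 11577341966) (.one (nat_lit 8403275) .nil)))))))))),
   .two (nat_lit 352323101) (nat_lit 1948254712) (.two (nat_lit 352322402) (nat_lit 46978302464) (.two (nat_lit 843055299) (nat_lit 12114202750) (.two (nat_lit 276824129) (nat_lit 285216898) (.two (nat_lit 276824079) (nat_lit 874517997) (.two (nat_lit 41943048) (nat_lit 9798949886) (.two (nat_lit 50331651) (nat_lit 4206449) (.two (nat_lit 50331649) (nat_lit 2109311) (.two (nat_lit 2097152) (nat_lit 16791624) (.one (nat_lit 2111578) .nil))))))))),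
   .two (nat_lit 352323102) (nat_lit 9940503072) (.two (nat_lit 18933089122) (nat_lit 150998933) (.two (nat_lit 46474985667) (nat_lit 3573552454) (.two (nat_lit 4601151555) (nat_lit 645927036) (.two (nat_lit 46409973775) (nat_lit 19128134258) (.two (nat_lit 203423752) (nat_lit 109063811) (.two (nat_lit 272629765) (nat_lit 47563420161) (.two (nat_lit 2097153) (nat_lit 2956998300) (.two (nat_lit 8388608) (nat_lit 272644079) (.one (nat_lit 16791886) .nil))))))))),
   .two (nat_lit 343934493) (nat_lit 136315384) (.two (nat_lit 9866052450) (nat_lit 2988442113) (.two (nat_lit 28790751589) (nat_lit 20705185918) (.two (nat_lit 1343225923) (nat_lit 166197201738) (.two (nat_lit 1191182351) (nat_lit 159251438590) (.two (nat_lit 11559501832) (nat_lit 10537147390) (.two (nat_lit 171966469) (nat_lit 1746937608) (.two (nat_lit 50331649) (nat_lit 157036849982) (.two (nat_lit 1048576) (nat_lit 8403017) (.one (nat_lit 8403279) .nil))))))))),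
   .two (nat_lit 13237224990) (nat_lit 10506733085) (.two (nat_lit 10506732386) (nat_lit 68161430) (.two (nat_lit 176161126) (nat_lit 12062823742) (.two (nat_lit 47563407425) (nat_lit 1954552688) (.two (nat_lit 9768534031) (nat_lit 303049329) (.two (nat_lit 205520904) (nat_lit 46514843437) (.two (nat_lit 605028357) (nat_lit 8401415) (.two (nat_lit 34603009) (nat_lit 675296517) (.two (nat_lit 8388608) (nat_lit 11543787509) (.one (nat_lit 16791643) .nil))))))))),
   .two (nat_lit 4632609272) (nat_lit 37751311) (.two (nat_lit 4638901090) (nat_lit 9768535048) (.two (nat_lit 10504634563) (nat_lit 166129048273) (.two (nat_lit 3527409729) (nat_lit 19537073645) (.two (nat_lit 3525312527) (nat_lit 19033757165) (.two (nat_lit 4599054343) (nat_lit 4207048) (.two (nat_lit 46407876611) (nat_lit 166136394653) (.two (nat_lit 2097153) (nat_lit 339752459) (.two (nat_lit 8388608) (nat_lit 1062986) (.one (nat_lit 1063004) .nil))))))))),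
   .two (nat_lit 306185758) (nat_lit 1411385881) (.two (nat_lit 306185059) (nat_lit 606080903) (.two (nat_lit 9948889283) (nat_lit 12148806972) (.two (nat_lit 2954887234) (nat_lit 16784238) (.two (nat_lit 37748751) (nat_lit 352331443) (.two (nat_lit 37748744) (nat_lit 9881792188) (.two (nat_lit 4194308) (nat_lit 9766449000) (.two (nat_lit 4194307) (nat_lit 1176515075) (.two (nat_lit 2097153) (nat_lit 20707292422) (.two (nat_lit 2097152) (nat_lit 28760356827) (.one (nat_lit 16791891) .nil)))))))))),
   .two (nat_lit 47555020318) (nat_lit 10372516355) (.two (nat_lit 18928894818) (nat_lit 20644368261) (.two (nat_lit 50331843) (nat_lit 1346378361) (.two (nat_lit 16777280) (nat_lit 4638908551) (.two (nat_lit 16777231) (nat_lit 2990548653) (.two (nat_lit 16777224) (nat_lit 46409985817) (.two (nat_lit 16777220) (nat_lit 156367860240) (.two (nat_lit 37748739) (nat_lit 10376720898) (.two (nat_lit 8388609) (nat_lit 159219987718) (.two (nat_lit 8388608) (nat_lit 2889889746) (.one (nat_lit 183920245022) .nil)))))))))),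
   .two (nat_lit 3527411229) (nat_lit 28691139090) (.two (nat_lit 3458204514) (nat_lit 9814675347) (.two (nat_lit 13237223619) (nat_lit 21814580539) (.two (nat_lit 285212736) (nat_lit 1178607789) (.two (nat_lit 2889875471) (nat_lit 158176650928) (.two (nat_lit 705691656) (nat_lit 2956996227) (.two (nat_lit 705691652) (nat_lit 9768544008) (.two (nat_lit 2097153) (nat_lit 4631573767) (.two (nat_lit 1048576) (nat_lit 641742897) (.one (nat_lit 11546933550) .nil))))))))),
   .two (nat_lit 10506733085) (nat_lit 9899608603) (.two (nat_lit 37249614690) (nat_lit 9899609989) (.two (nat_lit 285212867) (nat_lit 1413485884) (.two (nat_lit 285212736) (nat_lit 159253535600) (.two (nat_lit 2889875471) (nat_lit 352331435) (.two (nat_lit 68157448) (nat_lit 159232568971) (.two (nat_lit 605028357) (nat_lit 16787224) (.two (nat_lit 605028357) (nat_lit 285225495) (.two (nat_lit 16777217) (nat_lit 12150912581) (.two (nat_lit 1048576) (nat_lit 809514962) (.one (nat_lit 156532488478) .nil)))))))))),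
   .two (nat_lit 10506733086) (nat_lit 9933163011) (.two (nat_lit 19596837730) (nat_lit 46980403077) (.two (nat_lit 285212867) (nat_lit 19127081545) (.two (nat_lit 285212736) (nat_lit 1950359687) (.two (nat_lit 2889875471) (nat_lit 3020957360) (.two (nat_lit 68157448) (nat_lit 822095548) (.two (nat_lit 705691652) (nat_lit 1782590252) (.two (nat_lit 705691652) (nat_lit 104868651) (.two (nat_lit 34603009) (nat_lit 21781034246) (.two (nat_lit 4194304) (nat_lit 1779447762) (.one (nat_lit 184989792542) .nil)))))))))),
   .two (nat_lit 10506733085) (nat_lit 9899608603) (.two (nat_lit 37249614690) (nat_lit 9899609989) (.two (nat_lit 285212867) (nat_lit 1413485884) (.two (nat_lit 285212736) (nat_lit 159253535600) (.two (nat_lit 2889875471) (nat_lit 352331435) (.two (nat_lit 68157448) (nat_lit 159232568971) (.two (nat_lit 605028357) (nat_lit 16789360) (.two (nat_lit 605028357) (nat_lit 16788271) (.two (nat_lit 16777217) (nat_lit 12150912581) (.two (nat_lit 1048576) (nat_lit 809514962) (.one (nat_lit 156532488478) .nil)))))))))),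
   .two (nat_lit 10506733086) (nat_lit 9933163011) (.two (nat_lit 19596837730) (nat_lit 46980403077) (.two (nat_lit 285212867) (nat_lit 19127081545) (.two (nat_lit 285212736) (nat_lit 1950359687) (.two (nat_lit 2889875471) (nat_lit 3020957360) (.two (nat_lit 68157448) (nat_lit 822095548) (.two (nat_lit 605028357) (nat_lit 50342703) (.two (nat_lit 705691652) (nat_lit 205533032) (.two (nat_lit 34603009) (nat_lit 21781034246) (.two (nat_lit 4194304) (nat_lit 1779447762) (.one (nat_lit 184989792542) .nil)))))))))),
   .two (nat_lit 156372043293) (nat_lit 158179789317) (.two (nat_lit 83886305) (nat_lit 166237050033) (.two (nat_lit 4605345987) (nat_lit 1279268155) (.two (nat_lit 176160835) (nat_lit 318775431) (.two (nat_lit 8388623) (nat_lit 318777843) (.two (nat_lit 8388616) (nat_lit 2889887491) (.two (nat_lit 4194306) (nat_lit 8401437) (.two (nat_lit 4194307) (nat_lit 185027539859) (.two (nat_lit 4194305) (nat_lit 1426077256) (.two (nat_lit 4194304) (nat_lit 8402997) (.one (nat_lit 12150913325) .nil)))))))))),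
   .two (nat_lit 4605347357) (nat_lit 2902460941) (.two (nat_lit 83886305) (nat_lit 157043135607) (.two (nat_lit 654311619) (nat_lit 46414174880) (.two (nat_lit 176160835) (nat_lit 46523228319) (.two (nat_lit 41943055) (nat_lit 336603686) (.two (nat_lit 8388616) (nat_lit 158192381649) (.two (nat_lit 184549380) (nat_lit 18925760365) (.two (nat_lit 41943043) (nat_lit 101725130) (.two (nat_lit 605028353) (nat_lit 1426077256) (.two (nat_lit 1048576) (nat_lit 8402997) (.one (nat_lit 9772742945) .nil)))))))))),
   .two (nat_lit 13224643070) (nat_lit 3531604472) (.two (nat_lit 1417676061) (nat_lit 10000270345) (.two (nat_lit 8388803) (nat_lit 2990545599) (.two (nat_lit 184549441) (nat_lit 1312825481) (.two (nat_lit 184549391) (nat_lit 37759683) (.two (nat_lit 2902458376) (nat_lit 13221506819) (.two (nat_lit 83886083) (nat_lit 12150911935) (.two (nat_lit 37748737) (nat_lit 3540006535) (.two (nat_lit 4194304) (nat_lit 19545471009) (.one (nat_lit 4208735) .nil))))))))),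
   .two (nat_lit 13224643070) (nat_lit 10503586296) (.two (nat_lit 11618223389) (nat_lit 1947206145) (.two (nat_lit 21811430685) (nat_lit 156468512398) (.two (nat_lit 101712067) (nat_lit 28760349375) (.two (nat_lit 9881780289) (nat_lit 21210603657) (.two (nat_lit 620757007) (nat_lit 184989788659) (.two (nat_lit 9781116936) (nat_lit 13221506819) (.two (nat_lit 183845781506) (nat_lit 8401438) (.two (nat_lit 620756995) (nat_lit 2956997772) (.two (nat_lit 16777217) (nat_lit 806368910) (.two (nat_lit 4194304) (nat_lit 157051533345) (.one (nat_lit 4208980) .nil))))))))))),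
   .two (nat_lit 343934494) (nat_lit 156364702200) (.two (nat_lit 2887779171) (nat_lit 11492393993) (.two (nat_lit 11007951043) (nat_lit 183920237134) (.two (nat_lit 4613734465) (nat_lit 3531612301) (.two (nat_lit 2961178639) (nat_lit 169880074) (.two (nat_lit 11559501832) (nat_lit 2317364932) (.two (nat_lit 2097155) (nat_lit 176173838) (.two (nat_lit 2097153) (nat_lit 2987406833) (.two (nat_lit 8388608) (nat_lit 28806494241) (.one (nat_lit 1063008) .nil))))))))),
   .two (nat_lit 156569176574) (nat_lit 157036839416) (.two (nat_lit 19130221853) (nat_lit 21778924032) (.two (nat_lit 13237224290) (nat_lit 9936308932) (.two (nat_lit 3527409859) (nat_lit 620763769) (.two (nat_lit 2902458435) (nat_lit 3527413890) (.two (nat_lit 2902458435) (nat_lit 46508546951) (.two (nat_lit 285212687) (nat_lit 156466424534) (.two (nat_lit 285212680) (nat_lit 156533534332) (.two (nat_lit 4194306) (nat_lit 9900666738) (.two (nat_lit 50331651) (nat_lit 46510650438) (.two (nat_lit 16777217) (nat_lit 9766450737) (.two (nat_lit 16777216) (nat_lit 9766451208) (.one (nat_lit 2111831) .nil)))))))))))),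
   .two (nat_lit 156581757795) (nat_lit 708839947) (.two (nat_lit 16777411) (nat_lit 1753223044) (.two (nat_lit 16777280) (nat_lit 156372047158) (.two (nat_lit 16777231) (nat_lit 166237053076) (.two (nat_lit 8388616) (nat_lit 47584388784) (.two (nat_lit 8388612) (nat_lit 171976426) (.two (nat_lit 8388612) (nat_lit 171976425) (.two (nat_lit 9765388289) (nat_lit 855650817) (.two (nat_lit 1048576) (nat_lit 46474999280) (.one (nat_lit 16791904) .nil))))))))),
   .two (nat_lit 9781117794) (nat_lit 47548729904) (.two (nat_lit 9781117123) (nat_lit 159250387945) (.two (nat_lit 339738689) (nat_lit 285218103) (.two (nat_lit 4194319) (nat_lit 16784238) (.two (nat_lit 4194312) (nat_lit 11611940528) (.two (nat_lit 4194308) (nat_lit 2953848555) (.two (nat_lit 4194308) (nat_lit 2953848554) (.two (nat_lit 2097153) (nat_lit 183928631809) (.two (nat_lit 1048576) (nat_lit 19094582534) (.one (nat_lit 16791830) .nil))))))))),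
   .two (nat_lit 352322402) (nat_lit 28798093848) (.two (nat_lit 1358954691) (nat_lit 1175458936) (.two (nat_lit 2969567296) (nat_lit 9799994144) (.two (nat_lit 183845781569) (nat_lit 41948594) (.two (nat_lit 183912890406) (nat_lit 16782646) (.two (nat_lit 46409973775) (nat_lit 159266121050) (.two (nat_lit 705691656) (nat_lit 158183990960) (.two (nat_lit 34603013) (nat_lit 1283466986) (.two (nat_lit 34603013) (nat_lit 1283466985) (.two (nat_lit 4194305) (nat_lit 47563420161) (.two (nat_lit 1048576) (nat_lit 1277179455) (.one (nat_lit 807418204) .nil))))))))))),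
   .two (nat_lit 9781117794) (nat_lit 18926799405) (.two (nat_lit 9781117123) (nat_lit 1779438560) (.two (nat_lit 339738689) (nat_lit 285218103) (.two (nat_lit 4194319) (nat_lit 16784238) (.two (nat_lit 4194312) (nat_lit 11611940528) (.two (nat_lit 4194308) (nat_lit 2953848555) (.two (nat_lit 4194308) (nat_lit 2953848554) (.two (nat_lit 2097153) (nat_lit 183928631809) (.two (nat_lit 1048576) (nat_lit 19094582534) (.one (nat_lit 9781131613) .nil))))))))),
   .two (nat_lit 9781117794) (nat_lit 18926799405) (.two (nat_lit 9781117123) (nat_lit 1779438560) (.two (nat_lit 339738689) (nat_lit 285218103) (.two (nat_lit 4194319) (nat_lit 16784238) (.two (nat_lit 4194312) (nat_lit 11611940528) (.two (nat_lit 4194308) (nat_lit 2953848554) (.two (nat_lit 4194308) (nat_lit 2953848553) (.two (nat_lit 2097153) (nat_lit 183928631809) (.two (nat_lit 1048576) (nat_lit 19094582534) (.one (nat_lit 16791905) .nil))))))))),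
   .two (nat_lit 117441378) (nat_lit 19596840690) (.two (nat_lit 285212867) (nat_lit 1849693259) (.two (nat_lit 11559501888) (nat_lit 11577333047) (.two (nat_lit 11543773199) (nat_lit 16784238) (.two (nat_lit 705691656) (nat_lit 352331443) (.two (nat_lit 34603013) (nat_lit 318775607) (.two (nat_lit 34603013) (nat_lit 16787181) (.two (nat_lit 2097153) (nat_lit 11492404015) (.two (nat_lit 1048576) (nat_lit 10504648176) (.one (nat_lit 754989328) .nil))))))))),
   .two (nat_lit 46510638365) (nat_lit 46508542466) (.two (nat_lit 41943235) (nat_lit 183946449879) (.two (nat_lit 8388672) (nat_lit 10503591225) (.two (nat_lit 8388623) (nat_lit 12047098026) (.two (nat_lit 713031688) (nat_lit 158077037112) (.two (nat_lit 41943045) (nat_lit 12048150304) (.two (nat_lit 2097153) (nat_lit 4631573405) (.two (nat_lit 1048576) (nat_lit 2111594) (.one (nat_lit 185020200913) .nil)))))))),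
   .two (nat_lit 46510638365) (nat_lit 46508542466) (.two (nat_lit 41943235) (nat_lit 183946449879) (.two (nat_lit 8388672) (nat_lit 10503591225) (.two (nat_lit 8388623) (nat_lit 12047098026) (.two (nat_lit 713031688) (nat_lit 158077037112) (.two (nat_lit 41943045) (nat_lit 12048150304) (.two (nat_lit 2097153) (nat_lit 4631573405) (.two (nat_lit 1048576) (nat_lit 2111588) (.one (nat_lit 185020200913) .nil)))))))),
   .two (nat_lit 13224641821) (nat_lit 2987395627) (.two (nat_lit 272629955) (nat_lit 69210003) (.two (nat_lit 4194369) (nat_lit 159224175291) (.two (nat_lit 4194319) (nat_lit 28087165916) (.two (nat_lit 4194312) (nat_lit 840967854) (.two (nat_lit 4194308) (nat_lit 20637036193) (.two (nat_lit 2097153) (nat_lit 9798955883) (.two (nat_lit 1048576) (nat_lit 2111180) (.one (nat_lit 772814853) .nil)))))))),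
   .two (nat_lit 13224641821) (nat_lit 2987395627) (.two (nat_lit 272629955) (nat_lit 69210003) (.two (nat_lit 4194369) (nat_lit 159224175291) (.two (nat_lit 4194319) (nat_lit 28087165916) (.two (nat_lit 4194312) (nat_lit 840967854) (.two (nat_lit 4194308) (nat_lit 20637036193) (.two (nat_lit 2097153) (nat_lit 9798955883) (.two (nat_lit 1048576) (nat_lit 13195294825) (.one (nat_lit 772814853) .nil)))))))),
   .two (nat_lit 9766437730) (nat_lit 183916038672) (.two (nat_lit 8388803) (nat_lit 4632612754) (.two (nat_lit 721420353) (nat_lit 11543778615) (.two (nat_lit 721420303) (nat_lit 13187948679) (.two (nat_lit 721420296) (nat_lit 34612918) (.two (nat_lit 705691650) (nat_lit 8401665) (.two (nat_lit 2097155) (nat_lit 28772937407) (.two (nat_lit 9781116929) (nat_lit 156567090196) (.two (nat_lit 1048576) (nat_lit 185021249108) (.one (nat_lit 2111842) .nil))))))))),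
   .two (nat_lit 9940501346) (nat_lit 4599056912) (.two (nat_lit 8388803) (nat_lit 203428962) (.two (nat_lit 50331715) (nat_lit 11543778615) (.two (nat_lit 721420303) (nat_lit 3457162095) (.two (nat_lit 176160776) (nat_lit 156968692724) (.two (nat_lit 620756997) (nat_lit 12147765733) (.two (nat_lit 176160772) (nat_lit 10369379089) (.two (nat_lit 612368385) (nat_lit 10503598597) (.two (nat_lit 1048576) (nat_lit 236991992) (.one (nat_lit 2111843) .nil))))))))),
   .two (nat_lit 352322402) (nat_lit 156567079623) (.two (nat_lit 9899606479) (nat_lit 20740835847) (.two (nat_lit 12117344479) (nat_lit 318771775) (.two (nat_lit 16777411) (nat_lit 1209013226) (.two (nat_lit 16777280) (nat_lit 11543777406) (.two (nat_lit 16777280) (nat_lit 705698590) (.two (nat_lit 16777250) (nat_lit 11577334385) (.two (nat_lit 16777231) (nat_lit 11543780219) (.two (nat_lit 8388624) (nat_lit 806363271) (.two (nat_lit 8388616) (nat_lit 1058487) (.two (nat_lit 2887778306) (nat_lit 1062200) (.two (nat_lit 4194307) (nat_lit 11511279661) (.two (nat_lit 2097153) (nat_lit 1062369) (.two (nat_lit 1048576)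 (nat_lit 2111410) (.one (nat_lit 1063192) .nil)))))))))))))),
   .two (nat_lit 2988442467) (nat_lit 156465367572) (.two (nat_lit 9967763651) (nat_lit 1779437471) (.two (nat_lit 3539992641) (nat_lit 184417262154) (.two (nat_lit 169869327) (nat_lit 2432704656) (.two (nat_lit 9934209032) (nat_lit 21811439280) (.two (nat_lit 713031685) (nat_lit 156566040191) (.two (nat_lit 8388609) (nat_lit 11476677420) (.two (nat_lit 8388608) (nat_lit 2111424) (.one (nat_lit 3524278300) .nil)))))))),
   .two (nat_lit 276826626) (nat_lit 37329306945) (.two (nat_lit 16777411) (nat_lit 2101126) (.two (nat_lit 16777280) (nat_lit 183946451610) (.two (nat_lit 8388623) (nat_lit 2886736751) (.two (nat_lit 8388616) (nat_lit 839919285) (.two (nat_lit 8388612) (nat_lit 2886741645) (.two (nat_lit 8388609) (nat_lit 2886742839) (.two (nat_lit 1048576) (nat_lit 8402642) (.one (nat_lit 9772742626) .nil)))))))),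
   .two (nat_lit 13191086946) (nat_lit 1283459595) (.two (nat_lit 13191086275) (nat_lit 3028292593) (.two (nat_lit 159266111555) (nat_lit 673191222) (.two (nat_lit 37748751) (nat_lit 3472890735) (.two (nat_lit 37748744) (nat_lit 156573379110) (.two (nat_lit 1862270981) (nat_lit 4028642048) (.two (nat_lit 3527409669) (nat_lit 19545467665) (.two (nat_lit 4194305) (nat_lit 10351555072) (.two (nat_lit 2097152) (nat_lit 9781130897) (.one (nat_lit 2111844) .nil))))))))),
   .two (nat_lit 352322402) (nat_lit 11618224639) (.two (nat_lit 41943235) (nat_lit 159250388009) (.two (nat_lit 8388672) (nat_lit 2886732581) (.two (nat_lit 16777281) (nat_lit 19093523232) (.two (nat_lit 16777281) (nat_lit 19127078966) (.two (nat_lit 16777231) (nat_lit 11610887603) (.two (nat_lit 16777231) (nat_lit 19093525928) (.two (nat_lit 2902458376) (nat_lit 9966725641) (.two (nat_lit 705691650) (nat_lit 8401666) (.two (nat_lit 2097155) (nat_lit 183928631400) (.two (nat_lit 50331649) (nat_lit 1062652) (.two (nat_lit 2097152) (nat_lit 11577341708) (.one (nat_lit 11510233439) .nil)))))))))))),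
   .two (nat_lit 37749603) (nat_lit 50332152) (.two (nat_lit 37749603) (nat_lit 156380432013) (.two (nat_lit 20719861983) (nat_lit 166129043974) (.two (nat_lit 272629955) (nat_lit 28791804969) (.two (nat_lit 3525312576) (nat_lit 4634711350) (.two (nat_lit 3525312527) (nat_lit 2353012883) (.two (nat_lit 721420296) (nat_lit 166130100834) (.two (nat_lit 270532613) (nat_lit 13224653292) (.two (nat_lit 270532613) (nat_lit 13224653568) (.two (nat_lit 34603009) (nat_lit 809513496) (.two (nat_lit 1048576) (nat_lit 46474999296) (.one (nat_lit 2111845) .nil))))))))))),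
   .two (nat_lit 183949591394) (nat_lit 2994735632) (.two (nat_lit 41943235) (nat_lit 1379931098) (.two (nat_lit 156367847491) (nat_lit 880809270) (.two (nat_lit 8388623) (nat_lit 16786780) (.two (nat_lit 8388616) (nat_lit 641739273) (.two (nat_lit 184989777925) (nat_lit 343945984) (.two (nat_lit 16777221) (nat_lit 706751249) (.two (nat_lit 606076929) (nat_lit 75511262) (.two (nat_lit 2097152) (nat_lit 306198001) (.one (nat_lit 713046366) .nil))))))))),
   .two (nat_lit 880804707) (nat_lit 46477085200) (.two (nat_lit 4601151683) (nat_lit 12121543659) (.two (nat_lit 176160835) (nat_lit 2969571454) (.two (nat_lit 184549441) (nat_lit 9772733762) (.two (nat_lit 8388642) (nat_lit 9765395950) (.two (nat_lit 8388623) (nat_lit 117450076) (.two (nat_lit 4194312) (nat_lit 746596862) (.two (nat_lit 4194306) (nat_lit 16790275) (.two (nat_lit 4194307) (nat_lit 20711485775) (.two (nat_lit 37748737) (nat_lit 1062370) (.two (nat_lit 4194304) (nat_lit 21207463458) (.one (nat_lit 135280916) .nil))))))))))),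
   .two (nat_lit 46980399971) (nat_lit 166130091550) (.two (nat_lit 157036839107) (nat_lit 21814579082) (.two (nat_lit 3527409729) (nat_lit 159251438217) (.two (nat_lit 117440527) (nat_lit 157036848308) (.two (nat_lit 3525312520) (nat_lit 185023342253) (.two (nat_lit 708837381) (nat_lit 1962946170) (.two (nat_lit 2097153) (nat_lit 822096843) (.two (nat_lit 2097152) (nat_lit 4207907) (.one (nat_lit 721434776) .nil)))))))),
   .two (nat_lit 4634707229) (nat_lit 37329308203) (.two (nat_lit 156569174211) (nat_lit 2920290528) (.two (nat_lit 3527409729) (nat_lit 11610888850) (.two (nat_lit 16777231) (nat_lit 605037699) (.two (nat_lit 822083592) (nat_lit 2887789112) (.two (nat_lit 16777220) (nat_lit 10001329873) (.two (nat_lit 34603009) (nat_lit 169882496) (.two (nat_lit 16777216) (nat_lit 2111595) (.one (nat_lit 2111756) .nil)))))))),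
   .two (nat_lit 46510638366) (nat_lit 2953841158) (.two (nat_lit 156569174211) (nat_lit 47581238231) (.two (nat_lit 272629824) (nat_lit 46473945125) (.two (nat_lit 16777231) (nat_lit 10907296969) (.two (nat_lit 16777224) (nat_lit 102767571) (.two (nat_lit 4613734407) (nat_lit 2109013) (.two (nat_lit 822083589) (nat_lit 20638084759) (.two (nat_lit 2097153) (nat_lit 855651124) (.two (nat_lit 1048576) (nat_lit 2111596) (.one (nat_lit 1062974) .nil))))))))),
   .two (nat_lit 4638901091) (nat_lit 10506733085) (.two (nat_lit 3525312707) (nat_lit 11546922889) (.two (nat_lit 4638900289) (nat_lit 11614034515) (.two (nat_lit 2887778319) (nat_lit 11513373823) (.two (nat_lit 46407876616) (nat_lit 708847278) (.two (nat_lit 34603013) (nat_lit 71315110) (.two (nat_lit 2097153) (nat_lit 2987406173) (.two (nat_lit 2097152) (nat_lit 1379940033) (.one (nat_lit 3458218031) .nil)))))))),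
   .two (nat_lit 3527410530) (nat_lit 184423549442) (.two (nat_lit 3527409859) (nat_lit 10007613324) (.two (nat_lit 3525312578) (nat_lit 47584385655) (.two (nat_lit 8388623) (nat_lit 270542244) (.two (nat_lit 813694984) (nat_lit 822092033) (.two (nat_lit 12121538567) (nat_lit 19130232405) (.two (nat_lit 2887778308) (nat_lit 276835953) (.two (nat_lit 2097153) (nat_lit 11479823164) (.two (nat_lit 8388608) (nat_lit 19530790603) (.one (nat_lit 2111506) .nil))))))))),
   .two (nat_lit 12129928034) (nat_lit 166132189698) (.two (nat_lit 10504634563) (nat_lit 339743700) (.two (nat_lit 3525312576) (nat_lit 50339305) (.two (nat_lit 8388623) (nat_lit 337651072) (.two (nat_lit 16777224) (nat_lit 13222553265) (.two (nat_lit 69206021) (nat_lit 11551125110) (.two (nat_lit 2097153) (nat_lit 339751703) (.two (nat_lit 4194304) (nat_lit 8403053) (.one (nat_lit 4632623117) .nil)))))))),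
   .two (nat_lit 13191087645) (nat_lit 343935486) (.two (nat_lit 4605347101) (nat_lit 19128127371) (.two (nat_lit 4605345987) (nat_lit 183947500118) (.two (nat_lit 8388672) (nat_lit 11007959990) (.two (nat_lit 8388623) (nat_lit 2108375) (.two (nat_lit 156367847432) (nat_lit 2988453500) (.two (nat_lit 4194308) (nat_lit 10907300646) (.two (nat_lit 2097153) (nat_lit 4208177) (.two (nat_lit 2097152) (nat_lit 4208648) (.one (nat_lit 236992878) .nil))))))))),
   .two (nat_lit 12147754526) (nat_lit 9802091043) (.two (nat_lit 13224641826) (nat_lit 156566032262) (.two (nat_lit 183913939302) (nat_lit 9902758511) (.two (nat_lit 11593056321) (nat_lit 209724367) (.two (nat_lit 9781116943) (nat_lit 303048372) (.two (nat_lit 11559501832) (nat_lit 2418028166) (.two (nat_lit 34603013) (nat_lit 4207476) (.two (nat_lit 2097153) (nat_lit 1062673) (.two (nat_lit 1048576) (nat_lit 2111664) (.one (nat_lit 620771702) .nil))))))))),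
   .two (nat_lit 8390173) (nat_lit 4197805) (.two (nat_lit 183949591837) (nat_lit 156566032262) (.two (nat_lit 343933123) (nat_lit 1846549131) (.two (nat_lit 272629824) (nat_lit 1057755) (.two (nat_lit 9781116943) (nat_lit 185020196524) (.two (nat_lit 169869320) (nat_lit 156569186346) (.two (nat_lit 184549381) (nat_lit 1061749) (.two (nat_lit 2097153) (nat_lit 1062674) (.two (nat_lit 1048576) (nat_lit 2111665) (.one (nat_lit 1063355) .nil))))))))),
   .two (nat_lit 3527411230) (nat_lit 9966717449) (.two (nat_lit 184416207714) (nat_lit 166132191107) (.two (nat_lit 3525312707) (nat_lit 11546924346) (.two (nat_lit 3525312576) (nat_lit 1057721) (.two (nat_lit 46407876623) (nat_lit 608184758) (.two (nat_lit 10504634376) (nat_lit 873475713) (.two (nat_lit 2097157) (nat_lit 4207478) (.two (nat_lit 34603009) (nat_lit 10001331745) (.two (nat_lit 1048576) (nat_lit 2111497) (.one (nat_lit 1063356) .nil))))))))),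
   .two (nat_lit 19530778142) (nat_lit 13191088669) (.two (nat_lit 1212155165) (nat_lit 1350569879) (.two (nat_lit 306184387) (nat_lit 2103901) (.two (nat_lit 183853121601) (nat_lit 1176510603) (.two (nat_lit 37748751) (nat_lit 1954555568) (.two (nat_lit 272629768) (nat_lit 10007621247) (.two (nat_lit 41943045) (nat_lit 156971840004) (.two (nat_lit 41943041) (nat_lit 3558880794) (.two (nat_lit 8388608) (nat_lit 2111498) (.one (nat_lit 2111933) .nil))))))))),
   .two (nat_lit 1376782846) (nat_lit 156569176611) (.two (nat_lit 3028288797) (nat_lit 184986636165) (.two (nat_lit 343933123) (nat_lit 135271736) (.two (nat_lit 8388672) (nat_lit 1056917) (.two (nat_lit 8388623) (nat_lit 2108376) (.two (nat_lit 46980399112) (nat_lit 174752542352) (.two (nat_lit 713031684) (nat_lit 156468523859) (.two (nat_lit 605028353) (nat_lit 2956998417) (.two (nat_lit 4194304) (nat_lit 1310734297) (.one (nat_lit 165532416421) .nil))))))))),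
   .two (nat_lit 4601153053) (nat_lit 156372043293) (.two (nat_lit 339739490) (nat_lit 645926791) (.two (nat_lit 4601151683) (nat_lit 706746959) (.two (nat_lit 169869377) (nat_lit 20711482297) (.two (nat_lit 4194319) (nat_lit 11578388097) (.two (nat_lit 605028357) (nat_lit 10376721251) (.two (nat_lit 4194305) (nat_lit 28764551177) (.one (nat_lit 1063358) .nil))))))),
   .two (nat_lit 620758557) (nat_lit 3557820936) (.two (nat_lit 156372042594) (nat_lit 156364705670) (.two (nat_lit 156372041923) (nat_lit 11543779940) (.two (nat_lit 2887778369) (nat_lit 10016007851) (.two (nat_lit 276824072) (nat_lit 740306563) (.two (nat_lit 8388612) (nat_lit 2886742531) (.two (nat_lit 2097153) (nat_lit 171980783) (.one (nat_lit 641743140) .nil))))))),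
   .two (nat_lit 9974056478) (nat_lit 203426333) (.two (nat_lit 4605347102) (nat_lit 10504638343) (.two (nat_lit 4601151683) (nat_lit 75504282) (.two (nat_lit 4605345859) (nat_lit 28690097842) (.two (nat_lit 169869320) (nat_lit 9802100348) (.two (nat_lit 2097157) (nat_lit 13195293453) (.two (nat_lit 605028353) (nat_lit 12054443560) (.two (nat_lit 1048576) (nat_lit 9802102744) (.one (nat_lit 1063359) .nil)))))))),
   .two (nat_lit 142607902) (nat_lit 37246472070) (.two (nat_lit 3525312707) (nat_lit 183953791564) (.two (nat_lit 612368451) (nat_lit 10000278485) (.two (nat_lit 46407876623) (nat_lit 9906955948) (.two (nat_lit 75497480) (nat_lit 9765400227) (.two (nat_lit 739246085) (nat_lit 13222556438) (.two (nat_lit 34603009) (nat_lit 874525959) (.two (nat_lit 8388608) (nat_lit 159250397159) (.one (nat_lit 2987407654) .nil)))))))),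
   .two (nat_lit 2994734621) (nat_lit 807407513) (.two (nat_lit 158144135363) (nat_lit 1055333) (.two (nat_lit 20638072898) (nat_lit 2894078912) (.two (nat_lit 2961178639) (nat_lit 11544833662) (.two (nat_lit 176160772) (nat_lit 2110327) (.two (nat_lit 605028353) (nat_lit 1411397140) (.two (nat_lit 1048576) (nat_lit 2111500) (.one (nat_lit 1063360) .nil))))))),
   .two (nat_lit 142607902) (nat_lit 739248669) (.two (nat_lit 21811430685) (nat_lit 9936310164) (.two (nat_lit 1947205827) (nat_lit 174688574066) (.two (nat_lit 3558867009) (nat_lit 1279271061) (.two (nat_lit 46409973775) (nat_lit 28086118066) (.two (nat_lit 68157448) (nat_lit 2109094) (.two (nat_lit 13187940357) (nat_lit 158079136613) (.two (nat_lit 9768534017) (nat_lit 19530790434) (.two (nat_lit 2097152) (nat_lit 11010062321) (.one (nat_lit 1063361) .nil))))))))),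
   .two (nat_lit 158192371230) (nat_lit 1052078) (.two (nat_lit 1392509795) (nat_lit 183920235489) (.two (nat_lit 2988441795) (nat_lit 11546924348) (.two (nat_lit 158083317825) (nat_lit 2886736751) (.two (nat_lit 10343153679) (nat_lit 1376790188) (.two (nat_lit 37748744) (nat_lit 158176652935) (.two (nat_lit 8388613) (nat_lit 19532886532) (.two (nat_lit 8388609) (nat_lit 183946458674) (.two (nat_lit 1048576) (nat_lit 4208818) (.one (nat_lit 8403394) .nil))))))))),
   .two (nat_lit 2969568798) (nat_lit 104860161) (.two (nat_lit 11014243170) (nat_lit 4028634102) (.two (nat_lit 13191086275) (nat_lit 166245440136) (.two (nat_lit 20738736193) (nat_lit 174692770778) (.two (nat_lit 41943055) (nat_lit 1059801) (.two (nat_lit 41943048) (nat_lit 1060924) (.two (nat_lit 10504634373) (nat_lit 174701163320) (.two (nat_lit 9766436865) (nat_lit 174701164080) (.two (nat_lit 1048576) (nat_lit 2111501) (.one (nat_lit 1063363) .nil))))))))),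
   .two (nat_lit 183853123102) (nat_lit 10000273286) (.two (nat_lit 13191086275) (nat_lit 1175460499) (.two (nat_lit 169869377) (nat_lit 8397788) (.two (nat_lit 37748751) (nat_lit 10000281253) (.two (nat_lit 4194308) (nat_lit 156573381432) (.two (nat_lit 4194305) (nat_lit 156573382192) (.two (nat_lit 4194304) (nat_lit 20644378600) (.one (nat_lit 184989792635) .nil))))))),
   .two (nat_lit 2424310274) (nat_lit 2349861395) (.two (nat_lit 606078240) (nat_lit 855642002) (.two (nat_lit 1048934) (nat_lit 20652759696) (.two (nat_lit 4194369) (nat_lit 16786397) (.two (nat_lit 11543773199) (nat_lit 2319460834) (.two (nat_lit 1913651208) (nat_lit 1176514164) (.two (nat_lit 3464495109) (nat_lit 174768272207) (.two (nat_lit 4194305) (nat_lit 2111251) (.two (nat_lit 16777216) (nat_lit 8403123) (.one (nat_lit 1063364) .nil))))))))),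
   .two (nat_lit 28093449758) (nat_lit 1052079) (.two (nat_lit 159217878313) (nat_lit 1753223044) (.two (nat_lit 142606531) (nat_lit 1056222) (.two (nat_lit 184986632258) (nat_lit 2106334) (.two (nat_lit 169869327) (nat_lit 8399834) (.two (nat_lit 2961178632) (nat_lit 16789565) (.two (nat_lit 620756997) (nat_lit 21811442530) (.two (nat_lit 2097153) (nat_lit 1062676) (.two (nat_lit 16777216) (nat_lit 1062926) (.one (nat_lit 1063365) .nil))))))))),
   .two (nat_lit 21827160574) (nat_lit 21811431938) (.two (nat_lit 185020187491) (nat_lit 184987684764) (.two (nat_lit 339738981) (nat_lit 156573375054) (.two (nat_lit 11610882113) (nat_lit 28705825730) (.two (nat_lit 28093448207) (nat_lit 1914710469) (.two (nat_lit 1929379848) (nat_lit 183947505315) (.two (nat_lit 2097157) (nat_lit 8401784) (.two (nat_lit 156372041729) (nat_lit 166129055276) (.two (nat_lit 8388608) (nat_lit 1062928) (.one (nat_lit 1063366) .nil))))))))),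
   .two (nat_lit 47596963357) (nat_lit 174686471710) (.two (nat_lit 3003122530) (nat_lit 9940504467) (.two (nat_lit 2424308313) (nat_lit 705697085) (.two (nat_lit 11476664385) (nat_lit 151003280) (.two (nat_lit 813694991) (nat_lit 1947215536) (.two (nat_lit 1276117000) (nat_lit 1277177470) (.two (nat_lit 34603013) (nat_lit 16790022) (.two (nat_lit 9766436865) (nat_lit 158091720194) (.two (nat_lit 4194304) (nat_lit 185002375147) (.one (nat_lit 1063367) .nil))))))))),
   .two (nat_lit 12054431262) (nat_lit 2099742) (.two (nat_lit 12050236259) (nat_lit 158083321733) (.two (nat_lit 1350566245) (nat_lit 151001968) (.two (nat_lit 11492392975) (nat_lit 156372051632) (.two (nat_lit 721420296) (nat_lit 12155104927) (.two (nat_lit 708837381) (nat_lit 3540005723) (.two (nat_lit 2097153) (nat_lit 11479823896) (.two (nat_lit 8388608) (nat_lit 156581771260) (.one (nat_lit 4209096) .nil)))))))),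
   .two (nat_lit 157038938623) (nat_lit 9948891684) (.two (nat_lit 19142804322) (nat_lit 19532877699) (.two (nat_lit 310378691) (nat_lit 19612572283) (.two (nat_lit 2961178689) (nat_lit 46992989039) (.two (nat_lit 721420303) (nat_lit 12047099570) (.two (nat_lit 276824072) (nat_lit 156380443136) (.two (nat_lit 4194305) (nat_lit 16791091) (.two (nat_lit 1048576) (nat_lit 165540804590) (.one (nat_lit 4208943) .nil)))))))),
   .two (nat_lit 12620662302) (nat_lit 37313579539) (.two (nat_lit 176162087) (nat_lit 251662228) (.two (nat_lit 156367847619) (nat_lit 19033756988) (.two (nat_lit 4605345857) (nat_lit 4202649) (.two (nat_lit 83886095) (nat_lit 159250393582) (.two (nat_lit 1175453704) (nat_lit 13237235355) (.two (nat_lit 705691652) (nat_lit 4207481) (.two (nat_lit 34603009) (nat_lit 4208180) (.two (nat_lit 16777216) (nat_lit 1063092) (.one (nat_lit 8403401) .nil))))))))),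
   .two (nat_lit 156569175582) (nat_lit 183946447361) (.two (nat_lit 166230754146) (nat_lit 10376712092) (.two (nat_lit 47547679078) (nat_lit 1853887803) (.two (nat_lit 47563407425) (nat_lit 21778932680) (.two (nat_lit 2969567247) (nat_lit 12147762860) (.two (nat_lit 2969567240) (nat_lit 1210068613) (.two (nat_lit 184549381) (nat_lit 46473950043) (.two (nat_lit 16777217) (nat_lit 9867114006) (.two (nat_lit 2097152) (nat_lit 1063093) (.one (nat_lit 1063370) .nil))))))))),
   .two (nat_lit 1426064926) (nat_lit 18933090818) (.two (nat_lit 183853122403) (nat_lit 166130093975) (.two (nat_lit 13191086275) (nat_lit 251665013) (.two (nat_lit 4601151552) (nat_lit 10385105871) (.two (nat_lit 13191086095) (nat_lit 1310730714) (.two (nat_lit 37748744) (nat_lit 2894081667) (.two (nat_lit 41943045) (nat_lit 46489678337) (.two (nat_lit 4194305) (nat_lit 209729066) (.two (nat_lit 2097152) (nat_lit 4208822) (.one (nat_lit 2111947) .nil))))))))),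
   .two (nat_lit 174753580573) (nat_lit 1350568485) (.two (nat_lit 13191087399) (nat_lit 158083321733) (.two (nat_lit 46477082819) (nat_lit 8395419) (.two (nat_lit 159224168515) (nat_lit 1057759) (.two (nat_lit 18933088271) (nat_lit 28089264591) (.two (nat_lit 46407876616) (nat_lit 11614039664) (.two (nat_lit 2097157) (nat_lit 4207482) (.two (nat_lit 34603009) (nat_lit 46407890899) (.one (nat_lit 1063372) .nil)))))))),
   .two (nat_lit 2923431454) (nat_lit 3020950022) (.two (nat_lit 306185507) (nat_lit 184986636180) (.two (nat_lit 9802088643) (nat_lit 1055388) (.two (nat_lit 306184258) (nat_lit 2106336) (.two (nat_lit 13191086095) (nat_lit 1059803) (.two (nat_lit 37748744) (nat_lit 705703541) (.two (nat_lit 9934209029) (nat_lit 1061379) (.two (nat_lit 4194305) (nat_lit 1062677) (.two (nat_lit 2097152) (nat_lit 11618236573) (.one (nat_lit 1063373) .nil))))))))),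
   .two (nat_lit 13191087645) (nat_lit 8392112) (.two (nat_lit 183853122848) (nat_lit 1929383831) (.two (nat_lit 10504634563) (nat_lit 754981497) (.two (nat_lit 9781116995) (nat_lit 8397793) (.two (nat_lit 272629775) (nat_lit 2108380) (.two (nat_lit 10504634376) (nat_lit 11517570708) (.two (nat_lit 2887778308) (nat_lit 183953797995) (.two (nat_lit 37748737) (nat_lit 9906959906) (.two (nat_lit 2097152) (nat_lit 4208823) (.one (nat_lit 2111950) .nil))))))))),
   .two (nat_lit 10504635934) (nat_lit 4634708478) (.two (nat_lit 10506732829) (nat_lit 47581237135) (.two (nat_lit 4601151683) (nat_lit 3458210377) (.two (nat_lit 272629824) (nat_lit 1057734) (.two (nat_lit 2887778319) (nat_lit 4205533) (.two (nat_lit 12117344264) (nat_lit 2109095) (.two (nat_lit 1178599429) (nat_lit 11006915392) (.two (nat_lit 9765388289) (nat_lit 2887792648) (.one (nat_lit 1063375) .nil)))))))),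
   .two (nat_lit 285214237) (nat_lit 1052081) (.two (nat_lit 10540286818) (nat_lit 20719865747) (.two (nat_lit 10504634563) (nat_lit 235936389) (.two (nat_lit 3527409729) (nat_lit 2953845615) (.two (nat_lit 205520911) (nat_lit 136325568) (.two (nat_lit 46407876616) (nat_lit 3472895643) (.two (nat_lit 605028357) (nat_lit 183920243514) (.two (nat_lit 37748737) (nat_lit 705705963) (.one (nat_lit 2111952) .nil)))))))),
   .two (nat_lit 16778781) (nat_lit 1847593507) (.two (nat_lit 1346372897) (nat_lit 16781187) (.two (nat_lit 9869197670) (nat_lit 166211884349) (.two (nat_lit 11551113281) (nat_lit 16786402) (.two (nat_lit 9940500495) (nat_lit 183947503277) (.two (nat_lit 809500680) (nat_lit 10001329830) (.two (nat_lit 83886085) (nat_lit 37761857) (.two (nat_lit 2097153) (nat_lit 788543005) (.two (nat_lit 16777216) (nat_lit 2111672) (.one (nat_lit 2111953) .nil))))))))),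
   .two (nat_lit 19142805022) (nat_lit 306186750) (.two (nat_lit 47582283041) (nat_lit 4198301) (.two (nat_lit 185035915459) (nat_lit 11614034550) (.two (nat_lit 285212736) (nat_lit 156567086044) (.two (nat_lit 272629775) (nat_lit 185021245102) (.two (nat_lit 809500680) (nat_lit 1411395238) (.two (nat_lit 3527409669) (nat_lit 9948902200) (.two (nat_lit 16777217) (nat_lit 1413494760) (.one (nat_lit 2111954) .nil)))))))),
   .two (nat_lit 847250974) (nat_lit 9768536605) (.two (nat_lit 13224641822) (nat_lit 1410338711) (.two (nat_lit 4634706115) (nat_lit 158075984465) (.two (nat_lit 306184258) (nat_lit 185021244361) (.two (nat_lit 205520911) (nat_lit 166203500208) (.two (nat_lit 742391816) (nat_lit 209727143) (.two (nat_lit 2889875460) (nat_lit 19033764640) (.two (nat_lit 9768534017) (nat_lit 166230767144) (.two (nat_lit 1048576) (nat_lit 708851685) (.one (nat_lit 2889890176) .nil))))))))),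
   .two (nat_lit 158144136734) (nat_lit 12155095555) (.two (nat_lit 243270498) (nat_lit 19027464067) (.two (nat_lit 28757196995) (nat_lit 270538042) (.two (nat_lit 2994733123) (nat_lit 47547687893) (.two (nat_lit 46407876623) (nat_lit 2927634092) (.two (nat_lit 10369368072) (nat_lit 2109056) (.two (nat_lit 638582789) (nat_lit 874525506) (.two (nat_lit 156364701697) (nat_lit 343946774) (.two (nat_lit 1048576) (nat_lit 2111505) (.one (nat_lit 1063379) .nil))))))))),
   .two (nat_lit 3527411229) (nat_lit 3036680084) (.two (nat_lit 3525312707) (nat_lit 2990545527) (.two (nat_lit 276824129) (nat_lit 4203491) (.two (nat_lit 2887778319) (nat_lit 20644374987) (.two (nat_lit 46407876616) (nat_lit 4613746289) (.two (nat_lit 1914699781) (nat_lit 20640183088) (.two (nat_lit 2097153) (nat_lit 1062678) (.two (nat_lit 1048576) (nat_lit 2111506) (.one (nat_lit 1063380) .nil)))))))),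
   .two (nat_lit 4605347357) (nat_lit 11610884609) (.two (nat_lit 306185058) (nat_lit 156566032262) (.two (nat_lit 158143086787) (nat_lit 10955528777) (.two (nat_lit 4194369) (nat_lit 8397796) (.two (nat_lit 9781116943) (nat_lit 28798101994) (.two (nat_lit 754974728) (nat_lit 2319462034) (.two (nat_lit 184549381) (nat_lit 2110331) (.two (nat_lit 50331649) (nat_lit 1413494800) (.one (nat_lit 1063381) .nil)))))))),
   .two (nat_lit 157038937630) (nat_lit 165540792839) (.two (nat_lit 13237224290) (nat_lit 9802093878) (.two (nat_lit 4647288898) (nat_lit 37757075) (.two (nat_lit 37748751) (nat_lit 156581766839) (.two (nat_lit 285212680) (nat_lit 11010059890) (.two (nat_lit 2887778308) (nat_lit 174701163008) (.two (nat_lit 2097153) (nat_lit 37262210547) (.two (nat_lit 16777216) (nat_lit 174686484765) .nil))))))),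
   .two (nat_lit 19142805022) (nat_lit 157038937630) (.two (nat_lit 157038936931) (nat_lit 47548731279) (.two (nat_lit 3527409859) (nat_lit 3573553786) (.two (nat_lit 11007950915) (nat_lit 10003423382) (.two (nat_lit 46409973775) (nat_lit 11578386094) (.two (nat_lit 713031688) (nat_lit 1178611363) (.two (nat_lit 272629765) (nat_lit 16790022) (.two (nat_lit 4194305) (nat_lit 10001331463) (.two (nat_lit 2097152) (nat_lit 4208659) (.one (nat_lit 4208944) .nil))))))))),
   .two (nat_lit 352323102) (nat_lit 156372044290) (.two (nat_lit 46414168931) (nat_lit 9967767452) (.two (nat_lit 158158815589) (nat_lit 2103965) (.two (nat_lit 21214789697) (nat_lit 807412686) (.two (nat_lit 11559501839) (nat_lit 4205534) (.two (nat_lit 46409973768) (nat_lit 2109502) (.two (nat_lit 8388613) (nat_lit 2110332) (.two (nat_lit 2097153) (nat_lit 4208407) (.two (nat_lit 2097152) (nat_lit 4208825) (.one (nat_lit 2111958) .nil))))))))),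
   .two (nat_lit 352323102) (nat_lit 18933092230) (.two (nat_lit 352321894) (nat_lit 20711479957) (.two (nat_lit 47548727363) (nat_lit 10351551437) (.two (nat_lit 13203669007) (nat_lit 713042410) (.two (nat_lit 46414168072) (nat_lit 2887790654) (.two (nat_lit 8388613) (nat_lit 203436924) (.two (nat_lit 2097153) (nat_lit 8402486) (.two (nat_lit 2097152) (nat_lit 713046020) (.one (nat_lit 1786788132) .nil)))))))),
   .two (nat_lit 4605347358) (nat_lit 46409975326) (.two (nat_lit 4605346659) (nat_lit 19612569488) (.two (nat_lit 13195280579) (nat_lit 183928625781) (.two (nat_lit 4601151552) (nat_lit 151004112) (.two (nat_lit 13191086095) (nat_lit 21793614812) (.two (nat_lit 1753219080) (nat_lit 37262208644) (.two (nat_lit 183848927236) (nat_lit 151008107) (.two (nat_lit 4194305) (nat_lit 8402712) (.two (nat_lit 4194304) (nat_lit 8403130) (.one (nat_lit 151009708) .nil))))))))),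
   .two (nat_lit 185035916830) (nat_lit 101715861) (.two (nat_lit 11577327811) (nat_lit 10003421797) (.two (nat_lit 3527409729) (nat_lit 1057765) (.two (nat_lit 4194319) (nat_lit 16787947) (.two (nat_lit 9768534024) (nat_lit 9866063523) (.two (nat_lit 9768534021) (nat_lit 638595939) (.two (nat_lit 34603009) (nat_lit 165540804110) (.two (nat_lit 16777216) (nat_lit 1062932) (.one (nat_lit 1063383) .nil)))))))),
   .two (nat_lit 10913580574) (nat_lit 304089635) (.two (nat_lit 1310721318) (nat_lit 1346375561) (.two (nat_lit 9974055107) (nat_lit 28691143281) (.two (nat_lit 47548727363) (nat_lit 183953793164) (.two (nat_lit 184423546895) (nat_lit 1379937926) (.two (nat_lit 713031684) (nat_lit 21814588186) (.two (nat_lit 2097153) (nat_lit 4208183) (.two (nat_lit 2097152) (nat_lit 4208661) (.one (nat_lit 2111960) .nil)))))))),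
   .two (nat_lit 157038937629) (nat_lit 11584670247) (.two (nat_lit 673186658) (nat_lit 1346375561) (.two (nat_lit 9974055107) (nat_lit 19530783347) (.two (nat_lit 47548727363) (nat_lit 272639665) (.two (nat_lit 612368392) (nat_lit 19530788499) (.two (nat_lit 713031685) (nat_lit 708850551) (.two (nat_lit 2097153) (nat_lit 9802102021) (.two (nat_lit 2097152) (nat_lit 4208827) (.one (nat_lit 2111961) .nil)))))))),
   .two (nat_lit 310380062) (nat_lit 157038937630) (.two (nat_lit 1216349027) (nat_lit 11479814037) (.two (nat_lit 10506731715) (nat_lit 1786780276) (.two (nat_lit 3525312576) (nat_lit 8397798) (.two (nat_lit 46409973775) (nat_lit 11578386093) (.two (nat_lit 46409973768) (nat_lit 9934220942) (.two (nat_lit 166130089988) (nat_lit 158079136633) (.two (nat_lit 156365750273) (nat_lit 9936320532) (.one (nat_lit 8403418) .nil)))))))),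
   .two (nat_lit 10007611904) (nat_lit 20737690116) (.two (nat_lit 13203669858) (nat_lit 10007613318) (.two (nat_lit 2954887363) (nat_lit 2961185353) (.two (nat_lit 713031746) (nat_lit 21811438550) (.two (nat_lit 11551113231) (nat_lit 13187951072) (.two (nat_lit 2887778312) (nat_lit 11484016241) (.two (nat_lit 612368389) (nat_lit 47581246231) (.two (nat_lit 16777217) (nat_lit 2317366836) (.two (nat_lit 1048576) (nat_lit 2111510) (.one (nat_lit 1063387) .nil))))))))),
   .two (nat_lit 46980400670) (nat_lit 1317015447) (.two (nat_lit 10504634563) (nat_lit 19109255797) (.two (nat_lit 13195280451) (nat_lit 2106343) (.two (nat_lit 9781116943) (nat_lit 8399839) (.two (nat_lit 9766436872) (nat_lit 183916048014) (.two (nat_lit 708837381) (nat_lit 176173929) (.two (nat_lit 2097153) (nat_lit 21210609155) (.two (nat_lit 2097152) (nat_lit 4208828) (.one (nat_lit 2111964) .nil)))))))),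
   .two (nat_lit 847250973) (nat_lit 156535622173) (.two (nat_lit 46980400414) (nat_lit 1411387289) (.two (nat_lit 3527409859) (nat_lit 2365594243) (.two (nat_lit 50331715) (nat_lit 2106344) (.two (nat_lit 8388623) (nat_lit 2107889) (.two (nat_lit 3525312520) (nat_lit 9969872546) (.two (nat_lit 1176502277) (nat_lit 19130233710) (.two (nat_lit 2097153) (nat_lit 4208184) (.two (nat_lit 16777216) (nat_lit 1780496402) (.one (nat_lit 2111965) .nil))))))))),
   .two (nat_lit 4601153054) (nat_lit 156372044286) (.two (nat_lit 156372043037) (nat_lit 46508543901) (.two (nat_lit 4605345987) (nat_lit 19128130135) (.two (nat_lit 47548727362) (nat_lit 1379935918) (.two (nat_lit 47548727304) (nat_lit 9802100348) (.two (nat_lit 169869316) (nat_lit 4207485) (.two (nat_lit 2097153) (nat_lit 675296817) (.two (nat_lit 2097152) (nat_lit 675297288) (.one (nat_lit 174755690936) .nil)))))))),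
   .two (nat_lit 10343155229) (nat_lit 4197810) (.two (nat_lit 2927625513) (nat_lit 9802092422) (.two (nat_lit 183962173798) (nat_lit 608179516) (.two (nat_lit 2988441665) (nat_lit 742400974) (.two (nat_lit 9934209048) (nat_lit 4647298741) (.two (nat_lit 606076936) (nat_lit 1224748677) (.two (nat_lit 2954887173) (nat_lit 71316314) (.two (nat_lit 2097153) (nat_lit 4208185) (.two (nat_lit 2097152) (nat_lit 104872085) (.one (nat_lit 4209118) .nil))))))))),
   .two (nat_lit 83887646) (nat_lit 1343227422) (.two (nat_lit 2954888034) (nat_lit 83890051) (.two (nat_lit 11543773379) (nat_lit 3539998013) (.two (nat_lit 11543773248) (nat_lit 10504644273) (.two (nat_lit 822083592) (nat_lit 12048150145) (.two (nat_lit 285212677) (nat_lit 46977266531) (.two (nat_lit 2097153) (nat_lit 806368788) (.two (nat_lit 1048576) (nat_lit 46508554427) (.one (nat_lit 1063391) .nil)))))))),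
   .two (nat_lit 18928895518) (nat_lit 1753223044) (.two (nat_lit 3527409859) (nat_lit 157036845703) (.two (nat_lit 10504634435) (nat_lit 159253536916) (.two (nat_lit 13195280399) (nat_lit 183913948846) (.two (nat_lit 809500680) (nat_lit 37253820466) (.two (nat_lit 4194308) (nat_lit 706753387) (.two (nat_lit 8388609) (nat_lit 4632623096) (.one (nat_lit 2111968) .nil))))))),
   .two (nat_lit 2927625758) (nat_lit 19532877702) (.two (nat_lit 156372041923) (nat_lit 20652759688) (.two (nat_lit 8388674) (nat_lit 184431942511) (.two (nat_lit 8388623) (nat_lit 19612575407) (.two (nat_lit 46980399112) (nat_lit 47563419710) (.two (nat_lit 12117344261) (nat_lit 9915347781) (.two (nat_lit 4194305) (nat_lit 165540804607) (.one (nat_lit 4208946) .nil))))))),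
   .two (nat_lit 2927625758) (nat_lit 2889878045) (.two (nat_lit 4634707231) (nat_lit 11007954844) (.two (nat_lit 11492393318) (nat_lit 1210062139) (.two (nat_lit 285212739) (nat_lit 156472713353) (.two (nat_lit 37748751) (nat_lit 10921977520) (.two (nat_lit 13191086088) (nat_lit 20638084754) (.two (nat_lit 183848927237) (nat_lit 174753592109) (.two (nat_lit 16777217) (nat_lit 47550838319) (.two (nat_lit 16777216) (nat_lit 2111511) (.one (nat_lit 2111969) .nil))))))))),
   .two (nat_lit 2969568798) (nat_lit 3560966694) (.two (nat_lit 46414168931) (nat_lit 156581760903) (.two (nat_lit 9948889283) (nat_lit 19026419158) (.two (nat_lit 4605345857) (nat_lit 9936314511) (.two (nat_lit 41943055) (nat_lit 9781127634) (.two (nat_lit 4194312) (nat_lit 41954930) (.two (nat_lit 4194308) (nat_lit 1862283780) (.two (nat_lit 4194305) (nat_lit 352335882) (.one (nat_lit 11543787964) .nil)))))))),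
   .two (nat_lit 185035916830) (nat_lit 174752533021) (.two (nat_lit 183853122846) (nat_lit 1175457677) (.two (nat_lit 13195280579) (nat_lit 2886736501) (.two (nat_lit 4601151552) (nat_lit 34612176) (.two (nat_lit 8388623) (nat_lit 1059314) (.two (nat_lit 8388616) (nat_lit 11476676228) (.two (nat_lit 4194308) (nat_lit 34616171) (.two (nat_lit 37748737) (nat_lit 1410348600) (.two (nat_lit 1048576) (nat_lit 4208829) (.one (nat_lit 34617772) .nil))))))))),
   .two (nat_lit 184993973790) (nat_lit 4197811) (.two (nat_lit 11611931946) (nat_lit 184993976197) (.two (nat_lit 3527409859) (nat_lit 21812484746) (.two (nat_lit 46980399169) (nat_lit 2106345) (.two (nat_lit 3525312527) (nat_lit 156573380213) (.two (nat_lit 46407876612) (nat_lit 1921004034) (.two (nat_lit 156372041729) (nat_lit 4599068660) (.one (nat_lit 337656104) .nil))))))),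
   .two (nat_lit 183912891934) (nat_lit 21827159582) (.two (nat_lit 183912891235) (nat_lit 169873302) (.two (nat_lit 174701150566) (nat_lit 304093845) (.two (nat_lit 176160834) (nat_lit 156548210834) (.two (nat_lit 612368399) (nat_lit 158646413786) (.two (nat_lit 2097165) (nat_lit 889204338) (.two (nat_lit 10939793413) (nat_lit 183846843217) (.two (nat_lit 2097153) (nat_lit 8402713) (.two (nat_lit 1048576) (nat_lit 2111678) (.one (nat_lit 2111970) .nil))))))))),
   .two (nat_lit 13237224989) (nat_lit 47550827043) (.two (nat_lit 4605346658) (nat_lit 4632613883) (.two (nat_lit 159266111683) (nat_lit 156539820667) (.two (nat_lit 11593056322) (nat_lit 11484013521) (.two (nat_lit 8388623) (nat_lit 203433650) (.two (nat_lit 8388616) (nat_lit 2109096) (.two (nat_lit 708837381) (nat_lit 9772741122) (.two (nat_lit 4194305) (nat_lit 109066222) (.one (nat_lit 2111971) .nil)))))))),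
   .two (nat_lit 285214237) (nat_lit 46407879181) (.two (nat_lit 13237224290) (nat_lit 2923433859) (.two (nat_lit 9781117123) (nat_lit 28791806619) (.two (nat_lit 3525312576) (nat_lit 18941486765) (.two (nat_lit 272629768) (nat_lit 20705193614) (.two (nat_lit 2902458372) (nat_lit 166130103060) (.two (nat_lit 37748737) (nat_lit 3558880517) (.two (nat_lit 2097152) (nat_lit 4208664) (.one (nat_lit 151009570) .nil)))))))),
   .two (nat_lit 352323102) (nat_lit 46414169630) (.two (nat_lit 46414168931) (nat_lit 150998933) (.two (nat_lit 10015998147) (nat_lit 11611937391) (.two (nat_lit 2988441667) (nat_lit 2956993511) (.two (nat_lit 813694991) (nat_lit 37329316289) (.two (nat_lit 13195280392) (nat_lit 171978395) (.two (nat_lit 46980399109) (nat_lit 185021248307) (.two (nat_lit 4194305) (nat_lit 1761621517) (.two (nat_lit 4194304) (nat_lit 11551127530) (.one (nat_lit 2111972) .nil))))))))),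
   .two (nat_lit 4601153054) (nat_lit 3464499077) (.two (nat_lit 13191086275) (nat_lit 209722013) (.two (nat_lit 46414168129) (nat_lit 19094578106) (.two (nat_lit 37748751) (nat_lit 28764547516) (.two (nat_lit 46414168072) (nat_lit 174686482084) (.two (nat_lit 18933088261) (nat_lit 1176515350) (.two (nat_lit 606076929) (nat_lit 9869211603) (.one (nat_lit 2111973) .nil))))))),
   .two (nat_lit 4601153054) (nat_lit 9974057501) (.two (nat_lit 10343154974) (nat_lit 20638076805) (.two (nat_lit 13237223619) (nat_lit 19134421588) (.two (nat_lit 46414168129) (nat_lit 1176510603) (.two (nat_lit 37748751) (nat_lit 19134424752) (.two (nat_lit 176160776) (nat_lit 10538200703) (.two (nat_lit 8388613) (nat_lit 156971840004) (.two (nat_lit 2097153) (nat_lit 209729546) (.one (nat_lit 2111974) .nil)))))))),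
   .two (nat_lit 47548728862) (nat_lit 10343157636) (.two (nat_lit 159224168643) (nat_lit 9869204084) (.two (nat_lit 46409973827) (nat_lit 2106346) (.two (nat_lit 158083317775) (nat_lit 1849700005) (.two (nat_lit 4194308) (nat_lit 2110334) (.two (nat_lit 156365750273) (nat_lit 12620675040) (.one (nat_lit 9800006063) .nil)))))),
   .two (nat_lit 183916037662) (nat_lit 638585379) (.two (nat_lit 754975587) (nat_lit 269489142) (.two (nat_lit 2953838950) (nat_lit 3472889146) (.two (nat_lit 20704133185) (nat_lit 156569182359) (.two (nat_lit 4194319) (nat_lit 11484016240) (.two (nat_lit 2894069765) (nat_lit 156984422914) (.two (nat_lit 34603009) (nat_lit 159257736453) (.two (nat_lit 16777216) (nat_lit 19127089130) (.one (nat_lit 13224655241) .nil)))))))),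
   .two (nat_lit 343934494) (nat_lit 136317470) (.two (nat_lit 876610403) (nat_lit 11618226053) (.two (nat_lit 3525312707) (nat_lit 21781026107) (.two (nat_lit 705691713) (nat_lit 8398432) (.two (nat_lit 4194319) (nat_lit 9967774283) (.two (nat_lit 4194312) (nat_lit 165526122225) (.two (nat_lit 8388612) (nat_lit 28089267122) (.two (nat_lit 2097153) (nat_lit 156566041864) (.two (nat_lit 1048576) (nat_lit 156365764615) (.one (nat_lit 1063401) .nil))))))))),
   .two (nat_lit 620758558) (nat_lit 183912894181) (.two (nat_lit 4605346659) (nat_lit 1779437463) (.two (nat_lit 4601151683) (nat_lit 1283463781) (.two (nat_lit 4601151552) (nat_lit 9966724033) (.two (nat_lit 41943055) (nat_lit 10537152127) (.two (nat_lit 4194308) (nat_lit 34616489) (.two (nat_lit 4194305) (nat_lit 47588587028) (.two (nat_lit 4194304) (nat_lit 9866065909) (.one (nat_lit 10372528576) .nil)))))))),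
   .two (nat_lit 13195281950) (nat_lit 19093522969) (.two (nat_lit 75498338) (nat_lit 1191187508) (.two (nat_lit 8388803) (nat_lit 184431943456) (.two (nat_lit 4601151552) (nat_lit 47588581523) (.two (nat_lit 620757007) (nat_lit 303049176) (.two (nat_lit 4194312) (nat_lit 41954930) (.two (nat_lit 184549380) (nat_lit 20637035308) (.two (nat_lit 37748739) (nat_lit 336606782) (.two (nat_lit 4194305) (nat_lit 2969581049) (.two (nat_lit 1048576) (nat_lit 2990553076) (.one (nat_lit 4208972) .nil)))))))))),
   .two (nat_lit 13195281950) (nat_lit 46489668109) (.two (nat_lit 75498338) (nat_lit 183962178709) (.two (nat_lit 272629955) (nat_lit 11484011174) (.two (nat_lit 47563407426) (nat_lit 156372050081) (.two (nat_lit 184549391) (nat_lit 303049176) (.two (nat_lit 4194312) (nat_lit 713043570) (.two (nat_lit 183848927234) (nat_lit 8401432) (.two (nat_lit 8388611) (nat_lit 3560977357) (.two (nat_lit 16777217) (nat_lit 159219987983) (.two (nat_lit 1048576) (nat_lit 19532888050) (.one (nat_lit 8403449) .nil)))))))))),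
   .two (nat_lit 4601153053) (nat_lit 9967766041) (.two (nat_lit 46409974626) (nat_lit 4613739487) (.two (nat_lit 16777411) (nat_lit 203430576) (.two (nat_lit 4605345857) (nat_lit 156465372016) (.two (nat_lit 620757007) (nat_lit 47582292592) (.two (nat_lit 8388616) (nat_lit 873475859) (.two (nat_lit 176160772) (nat_lit 184431948297) (.two (nat_lit 605028353) (nat_lit 12618577492) (.two (nat_lit 1048576) (nat_lit 272644047) (.one (nat_lit 1063245) .nil))))))))),
   .two (nat_lit 4601153053) (nat_lit 9967766041) (.two (nat_lit 46409974626) (nat_lit 4613739487) (.two (nat_lit 16777411) (nat_lit 203430576) (.two (nat_lit 4605345857) (nat_lit 156465372016) (.two (nat_lit 620757007) (nat_lit 47582292592) (.two (nat_lit 8388616) (nat_lit 873475859) (.two (nat_lit 176160772) (nat_lit 184431948297) (.two (nat_lit 605028353) (nat_lit 12618577492) (.two (nat_lit 1048576) (nat_lit 272644047) (.one (nat_lit 1063419) .nil))))))))),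
   .two (nat_lit 13191087645) (nat_lit 1376782873) (.two (nat_lit 13191086946) (nat_lit 183845786591) (.two (nat_lit 50331843) (nat_lit 37249620619) (.two (nat_lit 4605345857) (nat_lit 156465372016) (.two (nat_lit 169869327) (nat_lit 166132197851) (.two (nat_lit 4194312) (nat_lit 4632620715) (.two (nat_lit 75497477) (nat_lit 19597898249) (.two (nat_lit 2097153) (nat_lit 37313590778) (.two (nat_lit 1048576) (nat_lit 272644047) (.one (nat_lit 2111996) .nil))))))))),
   .two (nat_lit 306184424) (nat_lit 3003124237) (.two (nat_lit 4601151552) (nat_lit 157036847259) (.two (nat_lit 41943045) (nat_lit 35660100) (.one (nat_lit 4209151) .nil))),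
   .two (nat_lit 352323102) (nat_lit 1753220637) (.two (nat_lit 352322403) (nat_lit 9772732313) (.two (nat_lit 21785215171) (nat_lit 807410276) (.two (nat_lit 236978241) (nat_lit 251667890) (.two (nat_lit 46409973775) (nat_lit 46422567511) (.two (nat_lit 75497480) (nat_lit 1277177475) (.two (nat_lit 2954887173) (nat_lit 4613747201) (.two (nat_lit 2097153) (nat_lit 171980393) (.two (nat_lit 2097152) (nat_lit 4208847) (.one (nat_lit 16792064) .nil))))))))),
   .two (nat_lit 1745880606) (nat_lit 1753220637) (.two (nat_lit 46409974626) (nat_lit 176164780) (.two (nat_lit 21777875139) (nat_lit 9934215915) (.two (nat_lit 4601151555) (nat_lit 840965077) (.two (nat_lit 4601151555) (nat_lit 840963498) (.two (nat_lit 876609775) (nat_lit 11584674698) (.two (nat_lit 46407876623) (nat_lit 641739204) (.two (nat_lit 705691656) (nat_lit 9969872513) (.two (nat_lit 2887778306) (nat_lit 4207129) (.two (nat_lit 2097155) (nat_lit 9772741475) (.two (nat_lit 2097153) (nat_lit 13224654497) (.two (nat_lit 1048576) (nat_lit 2111751) (.one (nat_lit 4209153) .nil)))))))))))),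
   .two (nat_lit 157038937630) (nat_lit 19530778142) (.two (nat_lit 11517559650) (nat_lit 1346375577) (.two (nat_lit 10506731715) (nat_lit 10907294463) (.two (nat_lit 4601151555) (nat_lit 840963498) (.two (nat_lit 46409973796) (nat_lit 19094578368) (.two (nat_lit 183920230438) (nat_lit 166199305145) (.two (nat_lit 46409973775) (nat_lit 19094579831) (.two (nat_lit 2889875464) (nat_lit 11477724798) (.two (nat_lit 46407876610) (nat_lit 4207130) (.two (nat_lit 4194307) (nat_lit 706753379) (.two (nat_lit 9766436865) (nat_lit 183949604513) (.two (nat_lit 2097152) (nat_lit 4208904) (.one (nat_lit 2112002) .nil)))))))))))),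
   .two (nat_lit 10504635934) (nat_lit 742394396) (.two (nat_lit 9940501346) (nat_lit 9766442053) (.two (nat_lit 272629955) (nat_lit 337648221) (.two (nat_lit 11492393025) (nat_lit 46406835055) (.two (nat_lit 4194319) (nat_lit 159217886898) (.two (nat_lit 4194312) (nat_lit 174753591008) (.two (nat_lit 50331653) (nat_lit 9798955520) (.two (nat_lit 2097153) (nat_lit 9948903044) (.two (nat_lit 1048576) (nat_lit 12050249722) (.one (nat_lit 8403460) .nil))))))))),
   .two (nat_lit 10504635934) (nat_lit 156569176575) (.two (nat_lit 183962174306) (nat_lit 2889880579) (.two (nat_lit 13224640707) (nat_lit 166229711451) (.two (nat_lit 11492393025) (nat_lit 166129049741) (.two (nat_lit 4194319) (nat_lit 11511278141) (.two (nat_lit 37748744) (nat_lit 4598018095) (.two (nat_lit 1277165570) (nat_lit 4207841) (.two (nat_lit 4194307) (nat_lit 47563420734) (.two (nat_lit 605028353) (nat_lit 1312831361) (.two (nat_lit 1048576) (nat_lit 28101851169) (.one (nat_lit 2112005) .nil)))))))))),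
   .two (nat_lit 10506733086) (nat_lit 157036841470) (.two (nat_lit 855638882) (nat_lit 13191090092) (.two (nat_lit 11584667843) (nat_lit 12620668421) (.two (nat_lit 4613734465) (nat_lit 157043138695) (.two (nat_lit 2889875471) (nat_lit 11577338336) (.two (nat_lit 705691656) (nat_lit 4206276) (.two (nat_lit 705691652) (nat_lit 780152703) (.two (nat_lit 2097155) (nat_lit 876623513) (.two (nat_lit 2097153) (nat_lit 876623513) (.two (nat_lit 2097152) (nat_lit 101726241) (.one (nat_lit 16792071) .nil)))))))))),
   .two (nat_lit 159266113054) (nat_lit 156533523997) (.two (nat_lit 20644365154) (nat_lit 10538194039) (.two (nat_lit 2969567427) (nat_lit 165525068397) (.two (nat_lit 2954887235) (nat_lit 11593064590) (.two (nat_lit 713031695) (nat_lit 337652324) (.two (nat_lit 184549384) (nat_lit 46407888613) (.two (nat_lit 34603013) (nat_lit 8401415) (.two (nat_lit 34603009) (nat_lit 12155106842) (.two (nat_lit 1048576) (nat_lit 11551127593) (.one (nat_lit 16791888) .nil))))))))),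
   .two (nat_lit 159266113054) (nat_lit 156533523997) (.two (nat_lit 20644365154) (nat_lit 10538194039) (.two (nat_lit 2969567427) (nat_lit 165525068397) (.two (nat_lit 2954887235) (nat_lit 11593064590) (.two (nat_lit 713031695) (nat_lit 337652324) (.two (nat_lit 184549384) (nat_lit 46407888613) (.two (nat_lit 34603013) (nat_lit 8401415) (.two (nat_lit 34603009) (nat_lit 12155106842) (.two (nat_lit 1048576) (nat_lit 11551127593) (.one (nat_lit 16792072) .nil))))))))),
   .two (nat_lit 3525315070) (nat_lit 1178600456) (.two (nat_lit 4638901090) (nat_lit 318771079) (.two (nat_lit 10504634563) (nat_lit 13221501514) (.two (nat_lit 3527409729) (nat_lit 10503588682) (.two (nat_lit 3525312578) (nat_lit 166129046963) (.two (nat_lit 285212687) (nat_lit 19529738747) (.two (nat_lit 8388616) (nat_lit 605040832) (.two (nat_lit 8388612) (nat_lit 1059632) (.two (nat_lit 2097155) (nat_lit 19537081356) (.two (nat_lit 2097153) (nat_lit 4208139) (.two (nat_lit 1048576) (nat_lit 1753233599) (.one (nat_lit 1063249) .nil))))))))))),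
   .two (nat_lit 3525315070) (nat_lit 1178600456) (.two (nat_lit 3525314077) (nat_lit 166132188102) (.two (nat_lit 4638901090) (nat_lit 318771079) (.two (nat_lit 10504634563) (nat_lit 13221501514) (.two (nat_lit 3527409729) (nat_lit 10503588682) (.two (nat_lit 3525312578) (nat_lit 166129046963) (.two (nat_lit 4647288898) (nat_lit 158176646568) (.two (nat_lit 285212687) (nat_lit 19529738747) (.two (nat_lit 8388616) (nat_lit 605040832) (.two (nat_lit 4194306) (nat_lit 8402146) (.two (nat_lit 2097155) (nat_lit 19537081356) (.two (nat_lit 2097153) (nat_lit 4208139) (.two (nat_lit 1048576) (nat_lit 1753233599) (.one (nat_lit 1063250) .nil))))))))))))),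
   .two (nat_lit 13191087646) (nat_lit 8392487) (.two (nat_lit 876610402) (nat_lit 156372046874) (.two (nat_lit 4601151683) (nat_lit 11611937366) (.two (nat_lit 4605345857) (nat_lit 157035794556) (.two (nat_lit 4601151554) (nat_lit 46407882163) (.two (nat_lit 4601151554) (nat_lit 156365755826) (.two (nat_lit 183848927247) (nat_lit 1060403) (.two (nat_lit 8388616) (nat_lit 11544834078) (.two (nat_lit 46407876610) (nat_lit 4208096) (.two (nat_lit 2097155) (nat_lit 9802101522) (.two (nat_lit 34603009) (nat_lit 9867114119) (.two (nat_lit 1048576) (nat_lit 236992629) (.one (nat_lit 185021249874) .nil)))))))))))),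
   .two (nat_lit 13191087646) (nat_lit 8392487) (.two (nat_lit 876610402) (nat_lit 156372046874) (.two (nat_lit 4601151683) (nat_lit 11611937366) (.two (nat_lit 4605345857) (nat_lit 157035794556) (.two (nat_lit 4601151554) (nat_lit 46407882163) (.two (nat_lit 183848927247) (nat_lit 1060403) (.two (nat_lit 8388616) (nat_lit 11544834078) (.two (nat_lit 713031685) (nat_lit 772812671) (.two (nat_lit 2097155) (nat_lit 9802101522) (.two (nat_lit 34603009) (nat_lit 9867114119) (.two (nat_lit 1048576) (nat_lit 236992629) (.one (nat_lit 185021249873) .nil))))))))))),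
   .two (nat_lit 4601153053) (nat_lit 1417677311) (.two (nat_lit 3036676962) (nat_lit 12624860202) (.two (nat_lit 8388803) (nat_lit 2990545599) (.two (nat_lit 184549441) (nat_lit 1312825481) (.two (nat_lit 184549391) (nat_lit 37759682) (.two (nat_lit 8388616) (nat_lit 12062830288) (.two (nat_lit 8388612) (nat_lit 46523231020) (.two (nat_lit 16777219) (nat_lit 806368310) (.two (nat_lit 34603009) (nat_lit 3573560825) (.two (nat_lit 4194304) (nat_lit 19545471009) (.one (nat_lit 4208981) .nil)))))))))),
   .two (nat_lit 10506733085) (nat_lit 10376710663) (.two (nat_lit 847250274) (nat_lit 166132191107) (.two (nat_lit 10504634563) (nat_lit 876614973) (.two (nat_lit 12050235457) (nat_lit 10947140463) (.two (nat_lit 813694991) (nat_lit 2936022706) (.two (nat_lit 721420296) (nat_lit 11611942620) (.two (nat_lit 46407876612) (nat_lit 9806295559) (.two (nat_lit 8388609) (nat_lit 46422570575) (.two (nat_lit 16777216) (nat_lit 156372056091) (.one (nat_lit 2111830) .nil))))))))),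
   .two (nat_lit 10506734078) (nat_lit 166237047336) (.two (nat_lit 847250274) (nat_lit 156569179250) (.two (nat_lit 10504634563) (nat_lit 37249620648) (.two (nat_lit 754974787) (nat_lit 21814583445) (.two (nat_lit 11559501839) (nat_lit 183913949690) (.two (nat_lit 721420296) (nat_lit 807416112) (.two (nat_lit 8388610) (nat_lit 4206450) (.two (nat_lit 4194307) (nat_lit 10343166917) (.two (nat_lit 2097153) (nat_lit 156472718835) (.two (nat_lit 8388608) (nat_lit 11511281794) (.one (nat_lit 2112012) .nil)))))))))),
   .two (nat_lit 13191087646) (nat_lit 10343156223) (.two (nat_lit 10343154973) (nat_lit 9765389965) (.two (nat_lit 10343154973) (nat_lit 1746929292) (.two (nat_lit 46980399327) (nat_lit 109056979) (.two (nat_lit 843055299) (nat_lit 1175460560) (.two (nat_lit 18933088364) (nat_lit 46977260402) (.two (nat_lit 183853121646) (nat_lit 159251436968) (.two (nat_lit 183853121646) (nat_lit 2921339776) (.two (nat_lit 18933088271) (nat_lit 46406838855) (.two (nat_lit 46407876616) (nat_lit 9802100742) (.two (nat_lit 11476664322) (nat_lit 4207844) (.two (nat_lit 2097155)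 (nat_lit 156372054802) (.two (nat_lit 34603009) (nat_lit 9867114119) (.two (nat_lit 1048576) (nat_lit 2111542) (.one (nat_lit 4209165) .nil)))))))))))))),
   .two (nat_lit 3525314077) (nat_lit 46510641067) (.two (nat_lit 10385097570) (nat_lit 13224644735) (.two (nat_lit 9948889283) (nat_lit 2350911613) (.two (nat_lit 339738689) (nat_lit 2969577146) (.two (nat_lit 4194319) (nat_lit 2954899075) (.two (nat_lit 4194312) (nat_lit 620766982) (.two (nat_lit 4194308) (nat_lit 159216841990) (.two (nat_lit 16777217) (nat_lit 28757211125) (.two (nat_lit 1048576) (nat_lit 9867113774) (.one (nat_lit 9933175313) .nil))))))))),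
   .two (nat_lit 4601153053) (nat_lit 687869843) (.two (nat_lit 4601152354) (nat_lit 3036681540) (.two (nat_lit 83886946) (nat_lit 183947497523) (.two (nat_lit 705692005) (nat_lit 16784238) (.two (nat_lit 169869377) (nat_lit 10016007859) (.two (nat_lit 4194319) (nat_lit 270544515) (.two (nat_lit 4194312) (nat_lit 2887790440) (.two (nat_lit 4194312) (nat_lit 9948899078) (.two (nat_lit 4194308) (nat_lit 2886743305) (.two (nat_lit 2097153) (nat_lit 1279277095) (.two (nat_lit 1048576) (nat_lit 641742934) (.one (nat_lit 1063442) .nil))))))))))),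
   .two (nat_lit 183916037661) (nat_lit 158176642699) (.two (nat_lit 18928894819) (nat_lit 2987395873) (.two (nat_lit 21777875139) (nat_lit 28798096809) (.two (nat_lit 3525312576) (nat_lit 1216358066) (.two (nat_lit 612368399) (nat_lit 37760721) (.two (nat_lit 176160774) (nat_lit 20738748932) (.two (nat_lit 10503585797) (nat_lit 3527423258) (.two (nat_lit 8388609) (nat_lit 19027474392) (.two (nat_lit 8388608) (nat_lit 2111217) (.one (nat_lit 2112046) .nil))))))))),
   .two (nat_lit 13191087646) (nat_lit 46414169740) (.two (nat_lit 13191087646) (nat_lit 46414169739) (.two (nat_lit 876610403) (nat_lit 11551116063) (.two (nat_lit 876610403) (nat_lit 47555020497) (.two (nat_lit 4634706115) (nat_lit 739251623) (.two (nat_lit 4601151683) (nat_lit 9974059133) (.two (nat_lit 3525312576) (nat_lit 19596846770) (.two (nat_lit 2887778319) (nat_lit 2894081702) (.two (nat_lit 8388614) (nat_lit 3558880417) (.two (nat_lit 11543773191) (nat_lit 184987689284) (.two (nat_lit 11476664322) (nat_lit 19033765513) (.two (nat_lit 3531603973) (nat_lit 3527423258) (.two (nat_lit 34603009) (nat_lit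 2350921713) (.two (nat_lit 1048576) (nat_lit 2111813) (.one (nat_lit 2112047) .nil)))))))))))))),
   .two (nat_lit 13195281949) (nat_lit 12114202511) (.two (nat_lit 159232557922) (nat_lit 47555020497) (.two (nat_lit 4601151683) (nat_lit 880806733) (.two (nat_lit 184549395) (nat_lit 772811235) (.two (nat_lit 83886095) (nat_lit 806366928) (.two (nat_lit 171966470) (nat_lit 2987406340) (.two (nat_lit 16777218) (nat_lit 672151119) (.two (nat_lit 37748737) (nat_lit 269498410) (.two (nat_lit 1048576) (nat_lit 788542770) (.one (nat_lit 4209200) .nil))))))))),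
   .two (nat_lit 11546919416) (nat_lit 158158821510) (.two (nat_lit 4605345987) (nat_lit 4632612988) (.two (nat_lit 4605345857) (nat_lit 46422562285) (.two (nat_lit 41943047) (nat_lit 9814684573) (.two (nat_lit 713031683) (nat_lit 742405643) (.two (nat_lit 16777216) (nat_lit 2111817) (.one (nat_lit 2111585) .nil)))))),
   .two (nat_lit 772804485) (nat_lit 136315913) (.two (nat_lit 352321731) (nat_lit 47555024365) (.two (nat_lit 41943047) (nat_lit 706753801) (.two (nat_lit 8388608) (nat_lit 16791897) .nil))),
   .two (nat_lit 9933161481) (nat_lit 158192374793) (.two (nat_lit 183920230438) (nat_lit 742402558) (.two (nat_lit 612368391) (nat_lit 2108223) (.two (nat_lit 1048576) (nat_lit 2111834) .nil))),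
   .two (nat_lit 880805406) (nat_lit 46477085200) (.two (nat_lit 75498338) (nat_lit 159266116617) (.two (nat_lit 8388803) (nat_lit 2889882278) (.two (nat_lit 184549441) (nat_lit 10544489818) (.two (nat_lit 184549391) (nat_lit 303049176) (.two (nat_lit 4194312) (nat_lit 41954930) (.two (nat_lit 4194306) (nat_lit 8402398) (.two (nat_lit 4194308) (nat_lit 50344463) (.two (nat_lit 4194305) (nat_lit 2969581049) (.two (nat_lit 1048576) (nat_lit 3527423986) (.one (nat_lit 4209146) .nil)))))))))),
   .two (nat_lit 13195281950) (nat_lit 19093522969) (.two (nat_lit 75498339) (nat_lit 1191187508) (.two (nat_lit 8388803) (nat_lit 10338967027) (.two (nat_lit 4601151552) (nat_lit 47588581523) (.two (nat_lit 620757007) (nat_lit 303049176) (.two (nat_lit 4194312) (nat_lit 41954930) (.two (nat_lit 184549380) (nat_lit 4598017901) (.two (nat_lit 37748739) (nat_lit 336606782) (.two (nat_lit 4194305) (nat_lit 2969581049) (.two (nat_lit 1048576) (nat_lit 35666035) (.one (nat_lit 235944252) .nil)))))))))),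
   .two (nat_lit 4601153053) (nat_lit 9967766041) (.two (nat_lit 4601152354) (nat_lit 46407881695) (.two (nat_lit 16777411) (nat_lit 9933167300) (.two (nat_lit 16777280) (nat_lit 9933170012) (.two (nat_lit 16777231) (nat_lit 1780493641) (.two (nat_lit 4194312) (nat_lit 4632620715) (.two (nat_lit 176160772) (nat_lit 19597898249) (.two (nat_lit 2097153) (nat_lit 37313590778) (.two (nat_lit 1048576) (nat_lit 236992673) (.one (nat_lit 1063421) .nil))))))))),
   .two (nat_lit 4601153053) (nat_lit 9967766041) (.two (nat_lit 4601152354) (nat_lit 46407881695) (.two (nat_lit 16777411) (nat_lit 9933167300) (.two (nat_lit 16777280) (nat_lit 9933170012) (.two (nat_lit 16777231) (nat_lit 1780493641) (.two (nat_lit 4194312) (nat_lit 4632620715) (.two (nat_lit 176160772) (nat_lit 19597898249) (.two (nat_lit 2097153) (nat_lit 37313590778) (.two (nat_lit 1048576) (nat_lit 236992673) (.one (nat_lit 1063422) .nil))))))))),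
   .two (nat_lit 1745880606) (nat_lit 1753220637) (.two (nat_lit 46409974626) (nat_lit 645926809) (.two (nat_lit 184986632387) (nat_lit 138419814) (.two (nat_lit 876609775) (nat_lit 11584674698) (.two (nat_lit 46409973796) (nat_lit 19094578368) (.two (nat_lit 183853121601) (nat_lit 20707283065) (.two (nat_lit 46407876623) (nat_lit 809511359) (.two (nat_lit 705691656) (nat_lit 9969872513) (.two (nat_lit 46407876610) (nat_lit 8401435) (.two (nat_lit 2097155) (nat_lit 71316323) (.two (nat_lit 2097153) (nat_lit 13224654497) (.two (nat_lit 1048576) (nat_lit 2111751) (.one (nat_lit 1063427) .nil)))))))))))),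
   .two (nat_lit 1745880606) (nat_lit 1753220637) (.two (nat_lit 46409974626) (nat_lit 645926809) (.two (nat_lit 184986632387) (nat_lit 138419814) (.two (nat_lit 840957973) (nat_lit 19134421878) (.two (nat_lit 183853121601) (nat_lit 20707283065) (.two (nat_lit 46407876623) (nat_lit 809511359) (.two (nat_lit 705691656) (nat_lit 9969872513) (.two (nat_lit 46407876610) (nat_lit 8401436) (.two (nat_lit 2097155) (nat_lit 71316323) (.two (nat_lit 2097153) (nat_lit 13224654497) (.two (nat_lit 1048576) (nat_lit 2111751) (.one (nat_lit 1063494) .nil))))))))))),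
   .two (nat_lit 847250973) (nat_lit 46510639615) (.two (nat_lit 183962174306) (nat_lit 9768539139) (.two (nat_lit 809500867) (nat_lit 183920237247) (.two (nat_lit 11492393025) (nat_lit 11513372823) (.two (nat_lit 37748751) (nat_lit 13195291212) (.two (nat_lit 37748744) (nat_lit 185027539145) (.two (nat_lit 2887778306) (nat_lit 4208378) (.two (nat_lit 4194307) (nat_lit 9800004567) (.two (nat_lit 2097153) (nat_lit 185035929081) (.two (nat_lit 2097152) (nat_lit 343947426) (.one (nat_lit 8403462) .nil)))))))))),
   .two (nat_lit 847250974) (nat_lit 46510639615) (.two (nat_lit 13228835683) (nat_lit 21781025774) (.two (nat_lit 272629955) (nat_lit 21812486131) (.two (nat_lit 339738689) (nat_lit 21818777745) (.two (nat_lit 183853121551) (nat_lit 4632619700) (.two (nat_lit 37748744) (nat_lit 4598017723) (.two (nat_lit 184989777925) (nat_lit 1309684229) (.two (nat_lit 34603009) (nat_lit 37314639353) (.two (nat_lit 1048576) (nat_lit 4028643289) (.one (nat_lit 8403527) .nil))))))))),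
   .two (nat_lit 847250973) (nat_lit 46510639615) (.two (nat_lit 183962174306) (nat_lit 9768539139) (.two (nat_lit 809500867) (nat_lit 183920237247) (.two (nat_lit 11492393025) (nat_lit 11513372823) (.two (nat_lit 37748751) (nat_lit 13195291212) (.two (nat_lit 37748744) (nat_lit 185027539145) (.two (nat_lit 46407876612) (nat_lit 46422568813) (.two (nat_lit 50331653) (nat_lit 343945071) (.two (nat_lit 2097153) (nat_lit 185035929081) (.two (nat_lit 2097152) (nat_lit 343947426) (.one (nat_lit 8403528) .nil)))))))))),
   .two (nat_lit 13237224990) (nat_lit 10506733085) (.two (nat_lit 183853122402) (nat_lit 168825822) (.two (nat_lit 285212867) (nat_lit 18925754989) (.two (nat_lit 272629827) (nat_lit 1392517262) (.two (nat_lit 713031695) (nat_lit 337652324) (.two (nat_lit 16777224) (nat_lit 3460312805) (.two (nat_lit 34603013) (nat_lit 37253820932) (.two (nat_lit 2097153) (nat_lit 675296517) (.two (nat_lit 1048576) (nat_lit 2317367314) (.one (nat_lit 16792073) .nil))))))))),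
   .two (nat_lit 13237224990) (nat_lit 10506733085) (.two (nat_lit 183853122402) (nat_lit 168825822) (.two (nat_lit 285212867) (nat_lit 18925754989) (.two (nat_lit 272629827) (nat_lit 1392517262) (.two (nat_lit 713031695) (nat_lit 337652324) (.two (nat_lit 16777224) (nat_lit 3460312805) (.two (nat_lit 34603013) (nat_lit 37253820932) (.two (nat_lit 2097153) (nat_lit 675296517) (.two (nat_lit 1048576) (nat_lit 2317367314) (.one (nat_lit 16792137) .nil))))))))),
   .two (nat_lit 3525314077) (nat_lit 3560966684) (.two (nat_lit 4638901090) (nat_lit 3460305893) (.two (nat_lit 3525312707) (nat_lit 276830848) (.two (nat_lit 2887778369) (nat_lit 754984284) (.two (nat_lit 285212687) (nat_lit 19529738747) (.two (nat_lit 8388616) (nat_lit 605040832) (.two (nat_lit 4194306) (nat_lit 8402147) (.two (nat_lit 2097155) (nat_lit 4207505) (.two (nat_lit 2097153) (nat_lit 4208139) (.two (nat_lit 1048576) (nat_lit 2954901642) (.one (nat_lit 1063434) .nil)))))))))),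
   .two (nat_lit 3525314077) (nat_lit 166132189695) (.two (nat_lit 4647289698) (nat_lit 10003420142) (.two (nat_lit 3525312707) (nat_lit 19599990298) (.two (nat_lit 4194369) (nat_lit 620764027) (.two (nat_lit 3525312578) (nat_lit 4027587454) (.two (nat_lit 3525312578) (nat_lit 9768538237) (.two (nat_lit 3525312527) (nat_lit 19042150983) (.two (nat_lit 16777224) (nat_lit 46507504055) (.two (nat_lit 166129041410) (nat_lit 2111227) (.two (nat_lit 2097155) (nat_lit 339751825) (.two (nat_lit 2097153) (nat_lit 4208139) (.two (nat_lit 1048576) (nat_lit 47548741770) (.one (nat_lit 1063435) .nil)))))))))))),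
   .two (nat_lit 3525314077) (nat_lit 3560966684) (.two (nat_lit 4638901090) (nat_lit 3460305893) (.two (nat_lit 3525312707) (nat_lit 276830848) (.two (nat_lit 2887778369) (nat_lit 754984284) (.two (nat_lit 285212687) (nat_lit 19529738747) (.two (nat_lit 8388616) (nat_lit 605040832) (.two (nat_lit 4194306) (nat_lit 8402399) (.two (nat_lit 2097155) (nat_lit 4207505) (.two (nat_lit 2097153) (nat_lit 4208139) (.two (nat_lit 1048576) (nat_lit 2954901642) (.one (nat_lit 1063498) .nil)))))))))),
   .two (nat_lit 158143088158) (nat_lit 156533523997) (.two (nat_lit 276824930) (nat_lit 11022636010) (.two (nat_lit 8388803) (nat_lit 159266119412) (.two (nat_lit 285212737) (nat_lit 28798100415) (.two (nat_lit 276824079) (nat_lit 21827169535) (.two (nat_lit 16777224) (nat_lit 12054441733) (.two (nat_lit 50331653) (nat_lit 28697440768) (.two (nat_lit 2097153) (nat_lit 2987406833) (.two (nat_lit 1048576) (nat_lit 47588587765) (.one (nat_lit 1063499) .nil))))))))),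
   .two (nat_lit 4601153053) (nat_lit 2988446674) (.two (nat_lit 4601152354) (nat_lit 20638079560) (.two (nat_lit 4605345987) (nat_lit 1310729900) (.two (nat_lit 4194319) (nat_lit 706752113) (.two (nat_lit 4194312) (nat_lit 2110314) (.two (nat_lit 2097157) (nat_lit 9802102313) (.two (nat_lit 37748737) (nat_lit 9934223649) (.one (nat_lit 236993106) .nil))))))),
   .two (nat_lit 156372043294) (nat_lit 19026415498) (.two (nat_lit 11610882915) (nat_lit 156372047158) (.two (nat_lit 4601151683) (nat_lit 11551121555) (.two (nat_lit 4601151552) (nat_lit 235940312) (.two (nat_lit 4194319) (nat_lit 156372053627) (.two (nat_lit 75497480) (nat_lit 608187240) (.two (nat_lit 705691652) (nat_lit 166237058573) (.two (nat_lit 34603009) (nat_lit 673200078) (.two (nat_lit 1048576) (nat_lit 2111913) (.one (nat_lit 185020201551) .nil))))))))),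
   .two (nat_lit 285214237) (nat_lit 183953789924) (.two (nat_lit 75498338) (nat_lit 16784238) (.two (nat_lit 16777280) (nat_lit 2319460013) (.two (nat_lit 16777231) (nat_lit 156539826688) (.two (nat_lit 4194308) (nat_lit 10510939398) (.two (nat_lit 4194305) (nat_lit 3531618267) (.two (nat_lit 4194304) (nat_lit 645937440) (.one (nat_lit 13224655375) .nil))))))),
   .two (nat_lit 352323102) (nat_lit 156573373755) (.two (nat_lit 889192643) (nat_lit 13228843143) (.two (nat_lit 272629827) (nat_lit 47582291632) (.two (nat_lit 75497487) (nat_lit 1277177475) (.two (nat_lit 9768534024) (nat_lit 35664712) (.two (nat_lit 2954887173) (nat_lit 1379939590) (.two (nat_lit 2097153) (nat_lit 46481291550) (.one (nat_lit 809515536) .nil))))))),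
   .two (nat_lit 174753580573) (nat_lit 775950230) (.two (nat_lit 10343154530) (nat_lit 102765884) (.two (nat_lit 158143086787) (nat_lit 8397774) (.two (nat_lit 3464495169) (nat_lit 1059306) (.two (nat_lit 3464495119) (nat_lit 2956996212) (.two (nat_lit 1276117000) (nat_lit 159232569857) (.two (nat_lit 2097157) (nat_lit 20652766759) (.two (nat_lit 4194305) (nat_lit 2886744068) (.two (nat_lit 1048576) (nat_lit 4209066) (.one (nat_lit 1063537) .nil))))))))),
   .two (nat_lit 37314627102) (nat_lit 638586778) (.two (nat_lit 3464495971) (nat_lit 184419359346) (.two (nat_lit 20705181891) (nat_lit 16786383) (.two (nat_lit 11593056321) (nat_lit 1786784197) (.two (nat_lit 620757007) (nat_lit 1060918) (.two (nat_lit 1745879048) (nat_lit 9766449981) (.two (nat_lit 69206021) (nat_lit 168834602) (.two (nat_lit 2097153) (nat_lit 1063082) (.two (nat_lit 1048576) (nat_lit 2111915) (.one (nat_lit 1063538) .nil))))))))),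
   .two (nat_lit 157038937630) (nat_lit 1276120970) (.two (nat_lit 855638882) (nat_lit 9802093878) (.two (nat_lit 3527409859) (nat_lit 1276126138) (.two (nat_lit 339738689) (nat_lit 16787947) (.two (nat_lit 4194319) (nat_lit 2109089) (.two (nat_lit 2887778312) (nat_lit 1224749570) (.two (nat_lit 2887778308) (nat_lit 19127088391) (.two (nat_lit 34603009) (nat_lit 19128137693) (.two (nat_lit 1048576) (nat_lit 2111784) (.one (nat_lit 185020201580) .nil))))))))),
   .two (nat_lit 4605348350) (nat_lit 203427732) (.two (nat_lit 165525062499) (nat_lit 8395418) (.two (nat_lit 4601151683) (nat_lit 2106320) (.two (nat_lit 3028287555) (nat_lit 1059308) (.two (nat_lit 8388623) (nat_lit 10906250910) (.two (nat_lit 4194312) (nat_lit 2110315) (.two (nat_lit 4194308) (nat_lit 185020200484) (.two (nat_lit 605028353) (nat_lit 169883771) (.two (nat_lit 1048576) (nat_lit 2111916) (.one (nat_lit 1063539) .nil))))))))),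
   .two (nat_lit 9967765021) (nat_lit 672141190) (.two (nat_lit 158083318627) (nat_lit 184986637623) (.two (nat_lit 606077285) (nat_lit 1929388179) (.two (nat_lit 4194370) (nat_lit 19545467329) (.two (nat_lit 169869327) (nat_lit 4206197) (.two (nat_lit 9934209032) (nat_lit 71315971) (.two (nat_lit 806354949) (nat_lit 276837639) (.two (nat_lit 8388609) (nat_lit 156567091493) (.one (nat_lit 2112116) .nil)))))))),
   .two (nat_lit 205523457) (nat_lit 620760966) (.two (nat_lit 205521763) (nat_lit 9814676796) (.two (nat_lit 21793603941) (nat_lit 2424316039) (.two (nat_lit 2961178690) (nat_lit 16787949) (.two (nat_lit 176160783) (nat_lit 2109495) (.two (nat_lit 156365750280) (nat_lit 13187953927) (.two (nat_lit 37748737) (nat_lit 2886744048) (.two (nat_lit 1048576) (nat_lit 2111917) (.one (nat_lit 1063541) .nil)))))))),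
   .two (nat_lit 21811431934) (nat_lit 1948258182) (.two (nat_lit 1291846944) (nat_lit 11543778615) (.two (nat_lit 2969567830) (nat_lit 183846837103) (.two (nat_lit 9948889155) (nat_lit 12147762860) (.two (nat_lit 10385096719) (nat_lit 9899617951) (.two (nat_lit 11492392968) (nat_lit 1061740) (.two (nat_lit 50331653) (nat_lit 1062443) (.two (nat_lit 4194305) (nat_lit 16791723) (.two (nat_lit 1048576) (nat_lit 158649563533) (.one (nat_lit 16792182) .nil))))))))),
   .two (nat_lit 166132188702) (nat_lit 20737691542) (.two (nat_lit 13228835682) (nat_lit 4613741173) (.two (nat_lit 3525312707) (nat_lit 8397777) (.two (nat_lit 13187940469) (nat_lit 16787120) (.two (nat_lit 276824079) (nat_lit 16789154) (.two (nat_lit 2887778312) (nat_lit 8401773) (.two (nat_lit 34603013) (nat_lit 11614041637) (.two (nat_lit 2097153) (nat_lit 1062917) (.two (nat_lit 1048576) (nat_lit 2111918) (.one (nat_lit 1063543) .nil))))))))),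
   .two (nat_lit 4605347358) (nat_lit 1914703758) (.two (nat_lit 21214790499) (nat_lit 47582287158) (.two (nat_lit 47596962150) (nat_lit 156466421907) (.two (nat_lit 9948889155) (nat_lit 1753229779) (.two (nat_lit 37748751) (nat_lit 8400952) (.two (nat_lit 721420296) (nat_lit 2110318) (.two (nat_lit 46409973764) (nat_lit 1853896207) (.two (nat_lit 4194305) (nat_lit 21785229298) (.two (nat_lit 2097152) (nat_lit 4209071) (.one (nat_lit 4209272) .nil))))))))),
   .two (nat_lit 4647290398) (nat_lit 3460305920) (.two (nat_lit 18925749091) (nat_lit 156367854153) (.two (nat_lit 3527409859) (nat_lit 9933168779) (.two (nat_lit 46409973826) (nat_lit 11543783904) (.two (nat_lit 46409973775) (nat_lit 12047101558) (.two (nat_lit 2889875464) (nat_lit 10907300356) (.two (nat_lit 705691652) (nat_lit 2111020) (.two (nat_lit 2097153) (nat_lit 269498339) (.two (nat_lit 1048576) (nat_lit 2111920) (.one (nat_lit 1063545) .nil))))))))),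
   .two (nat_lit 847250973) (nat_lit 4030731267) (.two (nat_lit 157038937373) (nat_lit 3020952890) (.two (nat_lit 13195280579) (nat_lit 2106322) (.two (nat_lit 12150898796) (nat_lit 713041585) (.two (nat_lit 46407876623) (nat_lit 156372054022) (.two (nat_lit 276824072) (nat_lit 203436896) (.two (nat_lit 184989777925) (nat_lit 3557832206) (.two (nat_lit 2097153) (nat_lit 1062918) (.two (nat_lit 1048576) (nat_lit 2111921) (.one (nat_lit 1063546) .nil))))))))),
   .two (nat_lit 4605347357) (nat_lit 46523223951) (.two (nat_lit 4605346658) (nat_lit 9967770227) (.two (nat_lit 13191086275) (nat_lit 1350574222) (.two (nat_lit 9948889155) (nat_lit 1182804461) (.two (nat_lit 4194319) (nat_lit 8400498) (.two (nat_lit 4194312) (nat_lit 2110319) (.two (nat_lit 9873391621) (nat_lit 184987694577) (.two (nat_lit 50331649) (nat_lit 185020200945) (.two (nat_lit 1048576) (nat_lit 236992929) (.one (nat_lit 1063547) .nil))))))))),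
   .two (nat_lit 847250974) (nat_lit 19599986564) (.two (nat_lit 1191183202) (nat_lit 12121545315) (.two (nat_lit 1279263078) (nat_lit 1325408397) (.two (nat_lit 10913579075) (nat_lit 605039052) (.two (nat_lit 4194319) (nat_lit 1761620482) (.two (nat_lit 713031684) (nat_lit 1413494257) (.two (nat_lit 34603009) (nat_lit 165540804590) (.two (nat_lit 4194304) (nat_lit 28790765976) (.one (nat_lit 3036691050) .nil)))))))),
   .two (nat_lit 13191087645) (nat_lit 46507496462) (.two (nat_lit 1212154723) (nat_lit 2954893915) (.two (nat_lit 706740582) (nat_lit 174768267408) (.two (nat_lit 1276117057) (nat_lit 337651376) (.two (nat_lit 4194319) (nat_lit 8400953) (.two (nat_lit 612368392) (nat_lit 10537153024) (.two (nat_lit 806354949) (nat_lit 687879690) (.two (nat_lit 8388609) (nat_lit 34617340) (.two (nat_lit 1048576) (nat_lit 687880596) (.one (nat_lit 10007624277) .nil))))))))),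
   .two (nat_lit 10343155230) (nat_lit 166245438471) (.two (nat_lit 174753579875) (nat_lit 873469243) (.two (nat_lit 166196150467) (nat_lit 2106323) (.two (nat_lit 310378563) (nat_lit 1059310) (.two (nat_lit 46984593423) (nat_lit 3525324855) (.two (nat_lit 169869320) (nat_lit 8401776) (.two (nat_lit 8388613) (nat_lit 1062445) (.two (nat_lit 2097153) (nat_lit 1063084) (.two (nat_lit 1048576) (nat_lit 2111922) (.one (nat_lit 1063548) .nil))))))))),
   .two (nat_lit 1426064926) (nat_lit 184993977655) (.two (nat_lit 889192643) (nat_lit 3531610991) (.two (nat_lit 612368451) (nat_lit 12148811440) (.two (nat_lit 16777231) (nat_lit 156573380230) (.two (nat_lit 285212680) (nat_lit 13189002503) (.two (nat_lit 16777217) (nat_lit 11477727187) (.two (nat_lit 2097152) (nat_lit 645937440) (.one (nat_lit 1358969358) .nil))))))),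
   .two (nat_lit 28758246941) (nat_lit 775950230) (.two (nat_lit 2887779171) (nat_lit 46422562110) (.two (nat_lit 276824421) (nat_lit 318775434) (.two (nat_lit 2887778369) (nat_lit 708847282) (.two (nat_lit 276824079) (nat_lit 169881236) (.two (nat_lit 654311432) (nat_lit 1317024576) (.two (nat_lit 605028357) (nat_lit 2317366533) (.two (nat_lit 2097153) (nat_lit 46980413420) (.two (nat_lit 1048576) (nat_lit 2111923) (.one (nat_lit 339753558) .nil))))))))),
   .two (nat_lit 2994734621) (nat_lit 3022001125) (.two (nat_lit 10003416353) (nat_lit 10007614774) (.two (nat_lit 158143086787) (nat_lit 10510934973) (.two (nat_lit 3021996097) (nat_lit 8399343) (.two (nat_lit 169869327) (nat_lit 10003426933) (.two (nat_lit 169869320) (nat_lit 4207109) (.two (nat_lit 159217876997) (nat_lit 20640183824) (.two (nat_lit 4194305) (nat_lit 12047103978) (.two (nat_lit 1048576) (nat_lit 2111924) (.one (nat_lit 10003429968) .nil))))))))),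
   .two (nat_lit 4601153053) (nat_lit 16782353) (.two (nat_lit 10001318754) (nat_lit 21793610330) (.two (nat_lit 4601151683) (nat_lit 69214347) (.two (nat_lit 4605345858) (nat_lit 2316314284) (.two (nat_lit 8388623) (nat_lit 1343237750) (.two (nat_lit 4194312) (nat_lit 2110321) (.two (nat_lit 176160773) (nat_lit 3020961323) (.two (nat_lit 2097153) (nat_lit 4208813) (.two (nat_lit 1048576) (nat_lit 1916811675) (.one (nat_lit 4209277) .nil))))))))),
   .two (nat_lit 13191087646) (nat_lit 46414172038) (.two (nat_lit 847250275) (nat_lit 1346377019) (.two (nat_lit 21827158373) (nat_lit 10335820655) (.two (nat_lit 47555018818) (nat_lit 672147948) (.two (nat_lit 276824079) (nat_lit 37262208639) (.two (nat_lit 8388616) (nat_lit 1061746) (.two (nat_lit 28690087941) (nat_lit 8402416) (.two (nat_lit 34603009) (nat_lit 156481107973) (.two (nat_lit 16777216) (nat_lit 1947220352) (.one (nat_lit 1063550) .nil))))))))),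
   .two (nat_lit 343935486) (nat_lit 3573550996) (.two (nat_lit 185035916130) (nat_lit 158079130229) (.two (nat_lit 1358954853) (nat_lit 3457162095) (.two (nat_lit 11559501890) (nat_lit 13221504693) (.two (nat_lit 4605345807) (nat_lit 166129053345) (.two (nat_lit 1175453704) (nat_lit 12115260192) (.two (nat_lit 3464495109) (nat_lit 2349872676) (.two (nat_lit 34603009) (nat_lit 9781131269) (.two (nat_lit 16777216) (nat_lit 101726592) (.one (nat_lit 135281278) .nil))))))))),
   .two (nat_lit 9806285310) (nat_lit 1212157830) (.two (nat_lit 165525062499) (nat_lit 10544485691) (.two (nat_lit 310378691) (nat_lit 4203476) (.two (nat_lit 2923429953) (nat_lit 11544831665) (.two (nat_lit 41943055) (nat_lit 1060515) (.two (nat_lit 158075977736) (nat_lit 158091719536) (.two (nat_lit 9933160453) (nat_lit 337655047) (.two (nat_lit 4194305) (nat_lit 183845795830) (.two (nat_lit 1048576) (nat_lit 8403381) (.one (nat_lit 1063551) .nil))))))))),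
   .two (nat_lit 4634707486) (nat_lit 156566032262) (.two (nat_lit 46510637923) (nat_lit 21778928956) (.two (nat_lit 822084195) (nat_lit 46406835055) (.two (nat_lit 9781117040) (nat_lit 11618231980) (.two (nat_lit 37748751) (nat_lit 11610893941) (.two (nat_lit 13191086088) (nat_lit 3020960259) (.two (nat_lit 10335813637) (nat_lit 184987694607) (.two (nat_lit 4194305) (nat_lit 20638087327) (.two (nat_lit 4194304) (nat_lit 19026426254) (.one (nat_lit 1063552) .nil))))))))),
   .two (nat_lit 12117345822) (nat_lit 10000273293) (.two (nat_lit 156581757795) (nat_lit 608179513) (.two (nat_lit 352321731) (nat_lit 2106325) (.two (nat_lit 721420355) (nat_lit 21812488652) (.two (nat_lit 16777231) (nat_lit 807415425) (.two (nat_lit 4613734408) (nat_lit 35664662) (.two (nat_lit 184989777925) (nat_lit 168834311) (.two (nat_lit 16777217) (nat_lit 706754515) (.two (nat_lit 1048576) (nat_lit 117455374) .nil)))))))),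
   .two (nat_lit 13191087645) (nat_lit 156372047158) (.two (nat_lit 4605345987) (nat_lit 183913948845) (.two (nat_lit 37748751) (nat_lit 156372053627) (.two (nat_lit 8388616) (nat_lit 11007964421) (.two (nat_lit 2097153) (nat_lit 9802103069) (.one (nat_lit 2112129) .nil))))),
   .two (nat_lit 13195281950) (nat_lit 1914703758) (.two (nat_lit 183853122403) (nat_lit 4043315807) (.two (nat_lit 4605345987) (nat_lit 203432913) (.two (nat_lit 47588573295) (nat_lit 3472893616) (.two (nat_lit 8388623) (nat_lit 2109498) (.two (nat_lit 8388616) (nat_lit 203436909) (.two (nat_lit 1291845636) (nat_lit 20740847149) (.two (nat_lit 37748737) (nat_lit 1411397638) (.two (nat_lit 2097152) (nat_lit 687880620) (.one (nat_lit 2112130) .nil))))))))),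
   .two (nat_lit 3527411229) (nat_lit 1053714) (.two (nat_lit 12114199394) (nat_lit 21781026105) (.two (nat_lit 12114198885) (nat_lit 1379934352) (.two (nat_lit 12617515075) (nat_lit 28793907663) (.two (nat_lit 4194319) (nat_lit 2109499) (.two (nat_lit 156969730056) (nat_lit 46406840832) (.two (nat_lit 184416206853) (nat_lit 1761621488) (.two (nat_lit 34603009) (nat_lit 46409988260) (.two (nat_lit 1048576) (nat_lit 2111926) (.one (nat_lit 1063555) .nil))))))))),
   .two (nat_lit 9940503041) (nat_lit 11559505797) (.two (nat_lit 9940501347) (nat_lit 11022636347) (.two (nat_lit 4601151683) (nat_lit 16786390) (.two (nat_lit 2961178689) (nat_lit 304096945) (.two (nat_lit 2961178639) (nat_lit 156533534361) (.two (nat_lit 4194312) (nat_lit 169882391) (.two (nat_lit 157036838917) (nat_lit 11510232620) (.two (nat_lit 9765388289) (nat_lit 46523234299) (.two (nat_lit 1048576) (nat_lit 2111927) (.one (nat_lit 4209284) .nil))))))))),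
   .two (nat_lit 166130091550) (nat_lit 1346376693) (.two (nat_lit 876610402) (nat_lit 3036682825) (.two (nat_lit 272629955) (nat_lit 2106327) (.two (nat_lit 11492393025) (nat_lit 34613704) (.two (nat_lit 721420303) (nat_lit 159217888886) (.two (nat_lit 11492392968) (nat_lit 9899618820) (.two (nat_lit 46407876612) (nat_lit 28705830419) (.two (nat_lit 9781116929) (nat_lit 101726193) (.two (nat_lit 1048576) (nat_lit 2111928) (.one (nat_lit 37246483067) .nil))))))))),
   .two (nat_lit 3527411229) (nat_lit 10001321869) (.two (nat_lit 156367848290) (nat_lit 1786778937) (.two (nat_lit 889192643) (nat_lit 71312341) (.two (nat_lit 4605345856) (nat_lit 19042150061) (.two (nat_lit 8388623) (nat_lit 159266123383) (.two (nat_lit 2889875464) (nat_lit 3003134465) (.two (nat_lit 8388612) (nat_lit 21781034246) (.two (nat_lit 4194305) (nat_lit 2988455900) (.two (nat_lit 2097152) (nat_lit 16792079) .nil)))))))),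
   .two (nat_lit 1753220638) (nat_lit 1780486026) (.two (nat_lit 47563408226) (nat_lit 209720638) (.two (nat_lit 184986632387) (nat_lit 4203450) (.two (nat_lit 4638900289) (nat_lit 10385107437) (.two (nat_lit 46409973775) (nat_lit 1325412864) (.two (nat_lit 605028357) (nat_lit 10001331463) (.two (nat_lit 2097153) (nat_lit 339752935) (.two (nat_lit 1048576) (nat_lit 1411398032) (.one (nat_lit 1063557) .nil)))))))),
   .two (nat_lit 159266113054) (nat_lit 46474990903) (.two (nat_lit 9948889283) (nat_lit 235939506) (.two (nat_lit 203423759) (nat_lit 101723779) (.two (nat_lit 184549384) (nat_lit 156365763398) (.two (nat_lit 34603013) (nat_lit 16791086) (.two (nat_lit 2097153) (nat_lit 10537154565) (.two (nat_lit 1048576) (nat_lit 69220639) (.one (nat_lit 1779448336) .nil))))))),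
   .two (nat_lit 157036840478) (nat_lit 10003420149) (.two (nat_lit 135267615) (nat_lit 1847596344) (.two (nat_lit 184986632387) (nat_lit 9768543170) (.two (nat_lit 285212736) (nat_lit 28690097842) (.two (nat_lit 11492392975) (nat_lit 11007962759) (.two (nat_lit 4194312) (nat_lit 10351555381) (.two (nat_lit 4599054341) (nat_lit 2432710131) (.two (nat_lit 16777217) (nat_lit 13222557826) (.two (nat_lit 16777216) (nat_lit 740309382) (.one (nat_lit 1063558) .nil))))))))),
   .two (nat_lit 156372044286) (nat_lit 156364705670) (.two (nat_lit 243270498) (nat_lit 156569180754) (.two (nat_lit 28757196995) (nat_lit 3527418817) (.two (nat_lit 2887778369) (nat_lit 1413490352) (.two (nat_lit 276824079) (nat_lit 9766448801) (.two (nat_lit 8388616) (nat_lit 1061747) (.two (nat_lit 171966469) (nat_lit 2111023) (.two (nat_lit 4194305) (nat_lit 10907301862) (.two (nat_lit 16777216) (nat_lit 11610896760) (.one (nat_lit 1063559) .nil))))))))),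
   .two (nat_lit 11559503390) (nat_lit 12147758089) (.two (nat_lit 11559502691) (nat_lit 2350914187) (.two (nat_lit 4601151683) (nat_lit 1350574226) (.two (nat_lit 169869377) (nat_lit 12155102893) (.two (nat_lit 4194319) (nat_lit 11484016240) (.two (nat_lit 205520904) (nat_lit 19545469783) (.two (nat_lit 270532613) (nat_lit 159257736453) (.two (nat_lit 8388609) (nat_lit 1224751086) (.two (nat_lit 2097152) (nat_lit 13224655241) (.one (nat_lit 1063560) .nil))))))))),
   .two (nat_lit 4605348350) (nat_lit 1052572) (.two (nat_lit 158158816098) (nat_lit 20737694331) (.two (nat_lit 2954887363) (nat_lit 4203480) (.two (nat_lit 9948889155) (nat_lit 672147119) (.two (nat_lit 83886095) (nat_lit 18925760140) (.two (nat_lit 2961178632) (nat_lit 156569187129) (.two (nat_lit 721420292) (nat_lit 71317035) (.two (nat_lit 2097153) (nat_lit 1063086) (.two (nat_lit 1048576) (nat_lit 21814589863) (.one (nat_lit 10003429993) .nil))))))))),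
   .two (nat_lit 47548728861) (nat_lit 47550829565) (.two (nat_lit 11626611554) (nat_lit 11513371243) (.two (nat_lit 156367847619) (nat_lit 270541778) (.two (nat_lit 4194369) (nat_lit 37262207425) (.two (nat_lit 37748751) (nat_lit 1060469) (.two (nat_lit 37748744) (nat_lit 1929392982) (.two (nat_lit 69206021) (nat_lit 2953852432) (.two (nat_lit 2097153) (nat_lit 269498374) (.two (nat_lit 2097152) (nat_lit 109066527) (.one (nat_lit 1063561) .nil))))))))),
   .two (nat_lit 10343155230) (nat_lit 1947210726) (.two (nat_lit 183845782371) (nat_lit 156372047158) (.two (nat_lit 352321731) (nat_lit 813703315) (.two (nat_lit 16777280) (nat_lit 158075987634) (.two (nat_lit 721420303) (nat_lit 673197703) (.two (nat_lit 612368392) (nat_lit 166211891713) (.two (nat_lit 2097157) (nat_lit 276837889) (.two (nat_lit 2097153) (nat_lit 11484018655) (.two (nat_lit 1048576) (nat_lit 9772743191) .nil)))))))),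
   .two (nat_lit 12117345822) (nat_lit 2953842580) (.two (nat_lit 104858466) (nat_lit 165540795705) (.two (nat_lit 8388803) (nat_lit 10538198704) (.two (nat_lit 8388623) (nat_lit 337653375) (.two (nat_lit 742391816) (nat_lit 10000282887) (.two (nat_lit 8388609) (nat_lit 3560978387) (.two (nat_lit 1048576) (nat_lit 12048153106) .nil)))))),
   .two (nat_lit 2969568797) (nat_lit 1413485534) (.two (nat_lit 10343154530) (nat_lit 9866058331) (.two (nat_lit 16777411) (nat_lit 2106329) (.two (nat_lit 2961178689) (nat_lit 337651376) (.two (nat_lit 16777231) (nat_lit 1060516) (.two (nat_lit 612368392) (nat_lit 270545692) (.two (nat_lit 9933160453) (nat_lit 304100614) (.two (nat_lit 4194305) (nat_lit 1291859927) (.two (nat_lit 1048576) (nat_lit 708852241) .nil)))))))),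
   .two (nat_lit 1358956062) (nat_lit 269489168) (.two (nat_lit 1358955363) (nat_lit 183946451610) (.two (nat_lit 11559502019) (nat_lit 2106330) (.two (nat_lit 11559501890) (nat_lit 2107888) (.two (nat_lit 4194319) (nat_lit 2109093) (.two (nat_lit 721420296) (nat_lit 1061688) (.two (nat_lit 50331653) (nat_lit 1062448) (.two (nat_lit 2097153) (nat_lit 8403119) (.two (nat_lit 1048576) (nat_lit 2111929) (.one (nat_lit 1063562) .nil))))))))),
   .two (nat_lit 1358956061) (nat_lit 174752534422) (.two (nat_lit 37749602) (nat_lit 156380435771) (.two (nat_lit 184423547237) (nat_lit 20740841616) (.two (nat_lit 4194369) (nat_lit 158183990958) (.two (nat_lit 713031695) (nat_lit 876621436) (.two (nat_lit 4194312) (nat_lit 10544493337) (.two (nat_lit 270532613) (nat_lit 2894083335) (.two (nat_lit 2097153) (nat_lit 4208647) (.two (nat_lit 1048576) (nat_lit 2111930) (.one (nat_lit 2112139) .nil))))))))),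
   .two (nat_lit 47555020317) (nat_lit 19128127373) (.two (nat_lit 1426064227) (nat_lit 746593135) (.two (nat_lit 176160834) (nat_lit 12148811440) (.two (nat_lit 176160783) (nat_lit 203435651) (.two (nat_lit 46414168072) (nat_lit 11477726471) (.two (nat_lit 8388609) (nat_lit 4599068636) (.two (nat_lit 2097152) (nat_lit 109066528) (.one (nat_lit 19612580447) .nil))))))),
   .two (nat_lit 3527411229) (nat_lit 20652756877) (.two (nat_lit 183962174306) (nat_lit 184989784943) (.two (nat_lit 2889875522) (nat_lit 21812487853) (.two (nat_lit 2889875471) (nat_lit 13189000846) (.two (nat_lit 46409973768) (nat_lit 10921981191) (.two (nat_lit 2097153) (nat_lit 171980775) (.two (nat_lit 2097152) (nat_lit 708851999) (.one (nat_lit 11593071212) .nil))))))),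
   .two (nat_lit 4601153054) (nat_lit 158653748197) (.two (nat_lit 46414169378) (nat_lit 10372519227) (.two (nat_lit 13191086275) (nat_lit 2332042173) (.two (nat_lit 4605345857) (nat_lit 159219985101) (.two (nat_lit 37748751) (nat_lit 4647300801) (.two (nat_lit 50331656) (nat_lit 4028642406) (.two (nat_lit 4194308) (nat_lit 1176516168) (.two (nat_lit 16777217) (nat_lit 2111542) (.two (nat_lit 2097152) (nat_lit 4209128) (.one (nat_lit 2112141) .nil))))))))),
   .two (nat_lit 4601153053) (nat_lit 687869843) (.two (nat_lit 339739490) (nat_lit 20652757042) (.two (nat_lit 339739490) (nat_lit 16781365) (.two (nat_lit 218104675) (nat_lit 28086113705) (.two (nat_lit 169869669) (nat_lit 16784238) (.two (nat_lit 169869377) (nat_lit 352331436) (.two (nat_lit 4194319) (nat_lit 270544515) (.two (nat_lit 4194312) (nat_lit 2108202) (.two (nat_lit 4194312) (nat_lit 2887790440) (.two (nat_lit 4194308) (nat_lit 159216841990) (.two (nat_lit 2097153) (nat_lit 1279277095) (.two (nat_lit 4194304) (nat_lit 2953853418) (.one (nat_lit 9933175313) .nil)))))))))))),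
   .two (nat_lit 4601153053) (nat_lit 687869843) (.two (nat_lit 1358954718) (nat_lit 9899614197) (.two (nat_lit 339739490) (nat_lit 20652757042) (.two (nat_lit 339739490) (nat_lit 16781365) (.two (nat_lit 169869669) (nat_lit 16784238) (.two (nat_lit 169869377) (nat_lit 352331436) (.two (nat_lit 4194319) (nat_lit 270544515) (.two (nat_lit 4194312) (nat_lit 2108203) (.two (nat_lit 4194312) (nat_lit 2108202) (.two (nat_lit 4194308) (nat_lit 159216841990) (.two (nat_lit 2097153) (nat_lit 1279277095) (.two (nat_lit 1048576) (nat_lit 37763383) (.one (nat_lit 9933175313) .nil)))))))))))),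
   .two (nat_lit 4601153053) (nat_lit 3028290245) (.two (nat_lit 4601153053) (nat_lit 46414169740) (.two (nat_lit 183916037661) (nat_lit 12147754635) (.two (nat_lit 4638901091) (nat_lit 4634710071) (.two (nat_lit 276824930) (nat_lit 19532880776) (.two (nat_lit 276824930) (nat_lit 19532880776) (.two (nat_lit 880804035) (nat_lit 19529732219) (.two (nat_lit 11543773379) (nat_lit 19532880776) (.two (nat_lit 184986632387) (nat_lit 1954551209) (.two (nat_lit 12054429763) (nat_lit 19597896125) (.two (nat_lit 41943055) (nat_lit 606088913) (.two (nat_lit 171966470) (nat_lit 20737700660) (.two (nat_lit 276824071) (nat_lit 2108206) (.two (nat_lit 806354949) (nat_lit 174692775181) (.two (nat_lit 13187940357) (nat_lit 46481290944) (.two (nat_lit 8388609) (nat_lit 19027474392) (.two (nat_lit 8388608) (nat_lit 2111990) (.one (nat_lit 2112160) .nil))))))))))))))))),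
   .two (nat_lit 3527411229) (nat_lit 184416210850) (.two (nat_lit 1753219939) (nat_lit 184416211069) (.two (nat_lit 184986632387) (nat_lit 156367851640) (.two (nat_lit 3525312576) (nat_lit 336602801) (.two (nat_lit 46407876623) (nat_lit 1312829055) (.two (nat_lit 176160774) (nat_lit 1061680) (.two (nat_lit 46407876612) (nat_lit 1309685307) (.two (nat_lit 156365750273) (nat_lit 1209022516) (.two (nat_lit 2097152) (nat_lit 1062195) (.one (nat_lit 1063585) .nil))))))))),
   .two (nat_lit 3527411229) (nat_lit 20637028234) (.two (nat_lit 4638901091) (nat_lit 205523743) (.two (nat_lit 343933795) (nat_lit 47548729042) (.two (nat_lit 4631560550) (nat_lit 2889881008) (.two (nat_lit 184986632387) (nat_lit 310382717) (.two (nat_lit 3525312576) (nat_lit 1921001144) (.two (nat_lit 46407876623) (nat_lit 46409985650) (.two (nat_lit 104857608) (nat_lit 706751278) (.two (nat_lit 46409973768) (nat_lit 4598014276) (.two (nat_lit 18933088261) (nat_lit 9867113733) (.two (nat_lit 37748737) (nat_lit 10335827974) (.two (nat_lit 1048576) (nat_lit 8403447) (.one (nat_lit 1063586) .nil)))))))))))),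
   .two (nat_lit 3527411229) (nat_lit 10913582991) (.two (nat_lit 339739490) (nat_lit 11551116064) (.two (nat_lit 339739490) (nat_lit 343935779) (.two (nat_lit 339739490) (nat_lit 343934674) (.two (nat_lit 184986632387) (nat_lit 3531608187) (.two (nat_lit 3525312707) (nat_lit 11614031994) (.two (nat_lit 184986632387) (nat_lit 8391502) (.two (nat_lit 184993972289) (nat_lit 183947503281) (.two (nat_lit 4194319) (nat_lit 706752166) (.two (nat_lit 46407876616) (nat_lit 12121549610) (.two (nat_lit 813694984) (nat_lit 202386222) (.two (nat_lit 46407876612) (nat_lit 156566041864) (.two (nat_lit 2097153) (nat_lit 174755690640) (.two (nat_lit 8388608) (nat_lit 2111992) (.one (nat_lit 19597900384) .nil)))))))))))))),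
   .two (nat_lit 46510638622) (nat_lit 2953843670) (.two (nat_lit 318767971) (nat_lit 205523743) (.two (nat_lit 4634706786) (nat_lit 184416208594) (.two (nat_lit 272629955) (nat_lit 1780489075) (.two (nat_lit 809500867) (nat_lit 183912893262) (.two (nat_lit 1950351471) (nat_lit 1175462198) (.two (nat_lit 10506731587) (nat_lit 2432704836) (.two (nat_lit 822083599) (nat_lit 183946456855) (.two (nat_lit 12129927176) (nat_lit 71314222) (.two (nat_lit 11479810056) (nat_lit 19109259015) (.two (nat_lit 11492392964) (nat_lit 9867113733) (.two (nat_lit 9765388289) (nat_lit 2902472654) (.two (nat_lit 1048576) (nat_lit 2111814) (.one (nat_lit 1063473) .nil))))))))))))),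
   .two (nat_lit 4605347357) (nat_lit 156581760903) (.two (nat_lit 159232557922) (nat_lit 276826912) (.two (nat_lit 612369251) (nat_lit 2969570083) (.two (nat_lit 612369251) (nat_lit 2969568978) (.two (nat_lit 8388803) (nat_lit 205527924) (.two (nat_lit 8388803) (nat_lit 205527923) (.two (nat_lit 8388803) (nat_lit 2889879672) (.two (nat_lit 4605345857) (nat_lit 183912900270) (.two (nat_lit 620757007) (nat_lit 672149119) (.two (nat_lit 171966470) (nat_lit 336605975) (.two (nat_lit 47563407368) (nat_lit 9806295620) (.two (nat_lit 721420292) (nat_lit 104871173) (.two (nat_lit 37748737) (nat_lit 13187954659) (.two (nat_lit 1048576) (nat_lit 4208967) (.one (nat_lit 138427034) .nil)))))))))))))),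
   .two (nat_lit 352323102) (nat_lit 184993973900) (.two (nat_lit 352323102) (nat_lit 4605347467) (.two (nat_lit 352322403) (nat_lit 157043133215) (.two (nat_lit 352322403) (nat_lit 343934673) (.two (nat_lit 889192643) (nat_lit 156372050115) (.two (nat_lit 50331843) (nat_lit 156372047276) (.two (nat_lit 4601151554) (nat_lit 3022006834) (.two (nat_lit 16777231) (nat_lit 156533534762) (.two (nat_lit 8388616) (nat_lit 1914710830) (.two (nat_lit 8388616) (nat_lit 706748740) (.two (nat_lit 4194306) (nat_lit 47582295578) (.two (nat_lit 4194307) (nat_lit 11007964443) (.two (nat_lit 2097153) (nat_lit 2956998666) (.two (nat_lit 16777216) (nat_lit 2111577) (.one (nat_lit 16792223) .nil)))))))))))))),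
   .two (nat_lit 4601153054) (nat_lit 159224171205) (.two (nat_lit 352323102) (nat_lit 184993973900) (.two (nat_lit 352323102) (nat_lit 4605347467) (.two (nat_lit 18933089565) (nat_lit 21208501024) (.two (nat_lit 352322403) (nat_lit 157043133215) (.two (nat_lit 352322403) (nat_lit 343934673) (.two (nat_lit 4605345987) (nat_lit 2887782523) (.two (nat_lit 889192643) (nat_lit 156372050115) (.two (nat_lit 50331843) (nat_lit 156372047276) (.two (nat_lit 4601151554) (nat_lit 3022006834) (.two (nat_lit 16777231) (nat_lit 156533534762) (.two (nat_lit 37748744) (nat_lit 183920243222) (.two (nat_lit 8388616) (nat_lit 1914710830) (.two (nat_lit 4194306) (nat_lit 47582295578) (.two (nat_lit 16777219) (nat_lit 4208336) (.two (nat_lit 2097153) (nat_lit 2956998666) (.two (nat_lit 16777216) (nat_lit 2111816) (.one (nat_lit 16792222) .nil))))))))))))))))),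
   .two (nat_lit 184553347) (nat_lit 37313577473) (.two (nat_lit 8388803) (nat_lit 889202347) (.two (nat_lit 612368392) (nat_lit 2886743305) (.two (nat_lit 1048576) (nat_lit 159257737750) .nil))),
   .two (nat_lit 184553347) (nat_lit 37313577473) (.two (nat_lit 10552870430) (nat_lit 11611936059) (.two (nat_lit 9766437730) (nat_lit 16784238) (.two (nat_lit 8388803) (nat_lit 889202347) (.two (nat_lit 8388672) (nat_lit 9933170412) (.two (nat_lit 612368399) (nat_lit 166211891713) (.two (nat_lit 612368392) (nat_lit 2886743305) (.two (nat_lit 2097155) (nat_lit 8402969) (.two (nat_lit 8388609) (nat_lit 2954901803) (.two (nat_lit 1048576) (nat_lit 159257737750) (.one (nat_lit 8403620) .nil)))))))))),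
   .two (nat_lit 4601155461) (nat_lit 10510926336) (.two (nat_lit 1753219267) (nat_lit 13187950266) (.two (nat_lit 705691656) (nat_lit 2990552326) (.two (nat_lit 1048576) (nat_lit 1176517137) .nil))),
   .two (nat_lit 2902462339) (nat_lit 37246468609) (.two (nat_lit 13237224990) (nat_lit 2956989758) (.two (nat_lit 1309672291) (nat_lit 47582284618) (.two (nat_lit 3525312707) (nat_lit 46510642669) (.two (nat_lit 157036839107) (nat_lit 46473944021) (.two (nat_lit 166245433411) (nat_lit 158143097644) (.two (nat_lit 742391823) (nat_lit 83898890) (.two (nat_lit 11543773192) (nat_lit 4599067910) (.two (nat_lit 2097155) (nat_lit 2902472661) (.two (nat_lit 605028353) (nat_lit 159219988766) (.two (nat_lit 1048576) (nat_lit 35666455) (.one (nat_lit 16792230) .nil))))))))))),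
   .two (nat_lit 4601153053) (nat_lit 12054431441) (.two (nat_lit 339739490) (nat_lit 343935821) (.two (nat_lit 4194370) (nat_lit 8398574) (.two (nat_lit 183848927247) (nat_lit 13188997444) (.two (nat_lit 713031682) (nat_lit 183913953251) (.two (nat_lit 156364701697) (nat_lit 2110770) (.one (nat_lit 1063593) .nil)))))),
   .two (nat_lit 157038937630) (nat_lit 47547681287) (.two (nat_lit 13237224291) (nat_lit 9802093878) (.two (nat_lit 742391873) (nat_lit 1862277999) (.two (nat_lit 4194319) (nat_lit 807413426) (.two (nat_lit 705691656) (nat_lit 158146244238) (.two (nat_lit 270532613) (nat_lit 174701163008) (.two (nat_lit 2097153) (nat_lit 37262210547) (.two (nat_lit 1048576) (nat_lit 174686484765) .nil))))))),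
   .two (nat_lit 4647290398) (nat_lit 166132191107) (.two (nat_lit 12129927623) (nat_lit 18926803554) (.two (nat_lit 4647289699) (nat_lit 1849690912) (.two (nat_lit 285212766) (nat_lit 2106325) (.two (nat_lit 16777411) (nat_lit 2102698) (.two (nat_lit 16777411) (nat_lit 3458210690) (.two (nat_lit 3527409729) (nat_lit 3003131576) (.two (nat_lit 16777231) (nat_lit 807415425) (.two (nat_lit 2902458376) (nat_lit 807417050) (.two (nat_lit 742391816) (nat_lit 11626624219) (.two (nat_lit 2889875461) (nat_lit 11578389766) (.two (nat_lit 2097153) (nat_lit 47550838747) (.two (nat_lit 2097152) (nat_lit 9768548919) (.one (nat_lit 117455374) .nil))))))))))))),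
   .two (nat_lit 654312989) (nat_lit 9869202438) (.two (nat_lit 12115247564) (nat_lit 16782646) (.two (nat_lit 339739490) (nat_lit 20652757042) (.two (nat_lit 169869669) (nat_lit 16784238) (.two (nat_lit 4194369) (nat_lit 352331436) (.two (nat_lit 4194319) (nat_lit 706752117) (.two (nat_lit 4194312) (nat_lit 2108204) (.two (nat_lit 4194312) (nat_lit 2108203) (.two (nat_lit 4194308) (nat_lit 159216841990) (.two (nat_lit 2097153) (nat_lit 1276131477) (.two (nat_lit 16777216) (nat_lit 1063489) (.one (nat_lit 168835600) .nil))))))))))),
   .two (nat_lit 339741186) (nat_lit 847250440) (.two (nat_lit 4601153053) (nat_lit 3028290245) (.two (nat_lit 4601153053) (nat_lit 46414169740) (.two (nat_lit 8390173) (nat_lit 69210232) (.two (nat_lit 276824288) (nat_lit 1176511088) (.two (nat_lit 4638901091) (nat_lit 4634710071) (.two (nat_lit 276824930) (nat_lit 19532880776) (.two (nat_lit 41943235) (nat_lit 135276159) (.two (nat_lit 880804035) (nat_lit 19529732219) (.two (nat_lit 8388803) (nat_lit 11007957896) (.two (nat_lit 184986632256) (nat_lit 1210067389) (.two (nat_lit 41943055)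 (nat_lit 606088913) (.two (nat_lit 171966470) (nat_lit 20737700660) (.two (nat_lit 276824071) (nat_lit 2109974) (.two (nat_lit 3531603973) (nat_lit 156533536699) (.two (nat_lit 806354949) (nat_lit 174692775181) (.two (nat_lit 2097153) (nat_lit 772814876) (.two (nat_lit 2097152) (nat_lit 4209218) (.one (nat_lit 807418546) .nil)))))))))))))))))),
   .two (nat_lit 184993973789) (nat_lit 28691140490) (.two (nat_lit 171966689) (nat_lit 3458210408) (.two (nat_lit 339739490) (nat_lit 11551116064) (.two (nat_lit 339739490) (nat_lit 11551116063) (.two (nat_lit 339738981) (nat_lit 46481283953) (.two (nat_lit 184986632387) (nat_lit 3531608187) (.two (nat_lit 184986632387) (nat_lit 46514835578) (.two (nat_lit 184993972289) (nat_lit 183947503281) (.two (nat_lit 4194319) (nat_lit 706752166) (.two (nat_lit 171966470) (nat_lit 303051613) (.two (nat_lit 46407876616) (nat_lit 47550835498) (.two (nat_lit 46409973765) (nat_lit 11510232635) (.two (nat_lit 2097153) (nat_lit 157035804712) (.two (nat_lit 1048576) (nat_lit 8403523) (.one (nat_lit 156364716640) .nil)))))))))))))),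
   .two (nat_lit 343934494) (nat_lit 2886734806) (.two (nat_lit 285212894) (nat_lit 12147758392) (.two (nat_lit 47563408227) (nat_lit 276826912) (.two (nat_lit 8389474) (nat_lit 2969570083) (.two (nat_lit 8388803) (nat_lit 205529271) (.two (nat_lit 8388803) (nat_lit 205527924) (.two (nat_lit 8388803) (nat_lit 205527923) (.two (nat_lit 4605345857) (nat_lit 183912900270) (.two (nat_lit 4194319) (nat_lit 276835958) (.two (nat_lit 171966470) (nat_lit 336605975) (.two (nat_lit 620757000) (nat_lit 159216839466) (.two (nat_lit 721420293) (nat_lit 2319463687) (.two (nat_lit 4194305) (nat_lit 47581247501) (.two (nat_lit 16777216) (nat_lit 11543788099) (.one (nat_lit 138427035) .nil)))))))))))))),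
   .two (nat_lit 343934494) (nat_lit 2886734806) (.two (nat_lit 11551113675) (nat_lit 4201033) (.two (nat_lit 47563408227) (nat_lit 276826912) (.two (nat_lit 276824158) (nat_lit 185020195798) (.two (nat_lit 8388803) (nat_lit 205529271) (.two (nat_lit 8388803) (nat_lit 205527924) (.two (nat_lit 4605345857) (nat_lit 183912900270) (.two (nat_lit 4194319) (nat_lit 276835958) (.two (nat_lit 620757000) (nat_lit 171979281) (.two (nat_lit 41943047) (nat_lit 16791289) (.two (nat_lit 721420293) (nat_lit 2319463687) (.two (nat_lit 4194305) (nat_lit 47581247501) (.two (nat_lit 4194304) (nat_lit 1063492) (.one (nat_lit 4209338) .nil))))))))))))),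
   .two (nat_lit 185002363394) (nat_lit 8389640) (.two (nat_lit 4601153054) (nat_lit 159224171205) (.two (nat_lit 352323102) (nat_lit 11618223756) (.two (nat_lit 352323102) (nat_lit 4605347467) (.two (nat_lit 11559502046) (nat_lit 742399464) (.two (nat_lit 2098472) (nat_lit 16781367) (.two (nat_lit 352322403) (nat_lit 46984596255) (.two (nat_lit 50331843) (nat_lit 11544831600) (.two (nat_lit 11559502019) (nat_lit 11544830136) (.two (nat_lit 50331843) (nat_lit 2954892709) (.two (nat_lit 4601151554) (nat_lit 3022006834) (.two (nat_lit 8388623) (nat_lit 10538200703) (.two (nat_lit 171966470) (nat_lit 807416608) (.two (nat_lit 37748744) (nat_lit 183920243222) (.two (nat_lit 4194306) (nat_lit 47582295578) (.two (nat_lit 708837381) (nat_lit 12155106573) (.two (nat_lit 2097153) (nat_lit 10909399013) (.two (nat_lit 2097152) (nat_lit 9982458434) (.one (nat_lit 16792227) .nil)))))))))))))))))),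
   .two (nat_lit 185002363394) (nat_lit 8389640) (.two (nat_lit 4601153054) (nat_lit 159224171205) (.two (nat_lit 352323102) (nat_lit 11618223756) (.two (nat_lit 2969567691) (nat_lit 138418766) (.two (nat_lit 2098472) (nat_lit 16781367) (.two (nat_lit 285212766) (nat_lit 2954896353) (.two (nat_lit 50331843) (nat_lit 11544831600) (.two (nat_lit 11559502019) (nat_lit 11544830136) (.two (nat_lit 4601151554) (nat_lit 3022006834) (.two (nat_lit 8388623) (nat_lit 10538200703) (.two (nat_lit 8388616) (nat_lit 2109971) (.two (nat_lit 37748743) (nat_lit 8402397) (.two (nat_lit 11546918917) (nat_lit 158183995073) (.two (nat_lit 708837379) (nat_lit 12155107255) (.two (nat_lit 2097153) (nat_lit 10909399013) (.two (nat_lit 16777216) (nat_lit 2112069) (.one (nat_lit 185035930296) .nil)))))))))))))))),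
   .two (nat_lit 47555022724) (nat_lit 158146236308) (.two (nat_lit 889194014) (nat_lit 156573373755) (.two (nat_lit 46984594275) (nat_lit 2956991343) (.two (nat_lit 352321731) (nat_lit 2319460016) (.two (nat_lit 809500739) (nat_lit 2953850499) (.two (nat_lit 75497487) (nat_lit 2953851676) (.two (nat_lit 2894069773) (nat_lit 159219987718) (.two (nat_lit 2894069765) (nat_lit 272644050) (.two (nat_lit 34603009) (nat_lit 2889890322) (.one (nat_lit 1063657) .nil))))))))),
   .two (nat_lit 3527413636) (nat_lit 1786777492) (.two (nat_lit 12117345822) (nat_lit 174759877211) (.two (nat_lit 4601152807) (nat_lit 209722223) (.two (nat_lit 3525312707) (nat_lit 8398513) (.two (nat_lit 13195280451) (nat_lit 135278225) (.two (nat_lit 46407876623) (nat_lit 9772741120) (.two (nat_lit 2887778312) (nat_lit 156573381895) (.two (nat_lit 2887778308) (nat_lit 46977267702) (.two (nat_lit 37748737) (nat_lit 2987407654) (.two (nat_lit 1048576) (nat_lit 8403567) (.one (nat_lit 1063658) .nil)))))))))),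
   .two (nat_lit 156465368963) (nat_lit 136318854) (.two (nat_lit 183853123102) (nat_lit 166197205643) (.two (nat_lit 3527410979) (nat_lit 706747247) (.two (nat_lit 157038936259) (nat_lit 3557828276) (.two (nat_lit 2887778369) (nat_lit 13191097998) (.two (nat_lit 8388623) (nat_lit 1061737) (.two (nat_lit 337641485) (nat_lit 37762311) (.two (nat_lit 708837381) (nat_lit 34617309) (.two (nat_lit 2097153) (nat_lit 11610896677) (.two (nat_lit 2097152) (nat_lit 1063536) (.one (nat_lit 8403656) .nil)))))))))),
   .two (nat_lit 721424259) (nat_lit 1209012109) (.two (nat_lit 16778781) (nat_lit 1413487210) (.two (nat_lit 1276117859) (nat_lit 16784238) (.two (nat_lit 8388803) (nat_lit 10016007851) (.two (nat_lit 8388672) (nat_lit 202387075) (.two (nat_lit 41943055) (nat_lit 19109261825) (.two (nat_lit 276824072) (nat_lit 9969874182) (.two (nat_lit 8388612) (nat_lit 4598020060) (.two (nat_lit 4194305) (nat_lit 1063271) (.two (nat_lit 1048576) (nat_lit 176175634) (.one (nat_lit 806369981) .nil)))))))))),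
   .two (nat_lit 2969571204) (nat_lit 46978305940) (.two (nat_lit 47596963357) (nat_lit 3460307559) (.two (nat_lit 158144136035) (nat_lit 1055599) (.two (nat_lit 8388803) (nat_lit 156569183920) (.two (nat_lit 205520961) (nat_lit 304098945) (.two (nat_lit 620757007) (nat_lit 4599067420) (.two (nat_lit 276824072) (nat_lit 608187895) (.two (nat_lit 171966469) (nat_lit 13222557660) (.two (nat_lit 605028353) (nat_lit 158079138322) (.one (nat_lit 11610897102) .nil))))))))),
   .two (nat_lit 4647292805) (nat_lit 19532877702) (.two (nat_lit 4647290397) (nat_lit 9869202748) (.two (nat_lit 2954888487) (nat_lit 16784238) (.two (nat_lit 158143086787) (nat_lit 46992991917) (.two (nat_lit 285212736) (nat_lit 9765400224) (.two (nat_lit 2887778319) (nat_lit 10372526595) (.two (nat_lit 1276117000) (nat_lit 840971526) (.two (nat_lit 171966469) (nat_lit 21778937819) (.two (nat_lit 4194305) (nat_lit 10385111567) (.one (nat_lit 168835774) .nil))))))))),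
   .two (nat_lit 4647292805) (nat_lit 9802092419) (.two (nat_lit 4601153053) (nat_lit 1426070139) (.two (nat_lit 1049889) (nat_lit 16784238) (.two (nat_lit 157036839107) (nat_lit 4598015661) (.two (nat_lit 4194369) (nat_lit 1962946169) (.two (nat_lit 2887778319) (nat_lit 2432709120) (.two (nat_lit 272629768) (nat_lit 159216841990) (.two (nat_lit 270532613) (nat_lit 11492407253) (.two (nat_lit 37748737) (nat_lit 184987695390) (.two (nat_lit 2097152) (nat_lit 1063447) (.one (nat_lit 740309724) .nil)))))))))),
   .two (nat_lit 46414172035) (nat_lit 3525316500) (.two (nat_lit 183853123102) (nat_lit 158646409842) (.two (nat_lit 19027460963) (nat_lit 269491055) (.two (nat_lit 889192643) (nat_lit 135276208) (.two (nat_lit 2961178690) (nat_lit 12163493495) (.two (nat_lit 176160783) (nat_lit 270545692) (.two (nat_lit 3460300808) (nat_lit 69219591) (.two (nat_lit 171966469) (nat_lit 2988455900) (.two (nat_lit 41943041) (nat_lit 1063304) (.two (nat_lit 2097152) (nat_lit 2953853456) (.one (nat_lit 169884393) .nil)))))))))),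
   .two (nat_lit 2969571204) (nat_lit 2927628180) (.two (nat_lit 184993973789) (nat_lit 10503591228) (.two (nat_lit 772801831) (nat_lit 608181103) (.two (nat_lit 2954887363) (nat_lit 1921001137) (.two (nat_lit 4194369) (nat_lit 156573380223) (.two (nat_lit 4194319) (nat_lit 337655047) (.two (nat_lit 2887778308) (nat_lit 10369382390) (.two (nat_lit 612368385) (nat_lit 1413495197) (.two (nat_lit 1048576) (nat_lit 270547552) (.one (nat_lit 1913666282) .nil))))))))),
   .two (nat_lit 46510641030) (nat_lit 169873306) (.two (nat_lit 4601153053) (nat_lit 46422563439) (.two (nat_lit 169870179) (nat_lit 16784238) (.two (nat_lit 47596961987) (nat_lit 165528217264) (.two (nat_lit 2889875523) (nat_lit 168832643) (.two (nat_lit 272629775) (nat_lit 606090056) (.two (nat_lit 1276117000) (nat_lit 13189002502) (.two (nat_lit 270532613) (nat_lit 9768548306) (.two (nat_lit 2097153) (nat_lit 1178614288) (.one (nat_lit 156581771969) .nil))))))))),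
   .two (nat_lit 13195284356) (nat_lit 20707282836) (.two (nat_lit 50333213) (nat_lit 138418766) (.two (nat_lit 2894071080) (nat_lit 16784238) (.two (nat_lit 847249603) (nat_lit 19042150061) (.two (nat_lit 306184259) (nat_lit 11611942528) (.two (nat_lit 8388623) (nat_lit 1346384668) (.two (nat_lit 2889875464) (nat_lit 1377842438) (.two (nat_lit 272629765) (nat_lit 184987695067) (.two (nat_lit 2097153) (nat_lit 16792079) (.one (nat_lit 203438814) .nil))))))))),
   .two (nat_lit 16781187) (nat_lit 638583817) (.two (nat_lit 16781187) (nat_lit 1175455374) (.two (nat_lit 10552870430) (nat_lit 46474990903) (.two (nat_lit 9766437731) (nat_lit 16784238) (.two (nat_lit 8388803) (nat_lit 183947503280) (.two (nat_lit 8388672) (nat_lit 2953848556) (.two (nat_lit 8388672) (nat_lit 202385131) (.two (nat_lit 612368399) (nat_lit 166211891713) (.two (nat_lit 176160776) (nat_lit 2953852458) (.two (nat_lit 176160770) (nat_lit 2953853272) (.two (nat_lit 2097155) (nat_lit 8402969) (.two (nat_lit 8388609) (nat_lit 11544836384) (.two (nat_lit 1048576) (nat_lit 1277180434) (.one (nat_lit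 8403621) .nil))))))))))))),
   .two (nat_lit 16781187) (nat_lit 336593931) (.two (nat_lit 352325509) (nat_lit 18933089934) (.two (nat_lit 1753220638) (nat_lit 184986637623) (.two (nat_lit 18933089123) (nat_lit 28790758256) (.two (nat_lit 9948889283) (nat_lit 20737698289) (.two (nat_lit 4194369) (nat_lit 2961188588) (.two (nat_lit 4194369) (nat_lit 209725163) (.two (nat_lit 4194319) (nat_lit 9982456321) (.two (nat_lit 169869320) (nat_lit 813708970) (.two (nat_lit 2889875458) (nat_lit 1276131672) (.two (nat_lit 2097155) (nat_lit 746600458) (.two (nat_lit 2097153) (nat_lit 746600747) (.two (nat_lit 1048576) (nat_lit 1176517137) (.one (nat_lit 16792231) .nil))))))))))))),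
   .two (nat_lit 2902462339) (nat_lit 11476665353) (.two (nat_lit 13237224990) (nat_lit 21781026107) (.two (nat_lit 4613735266) (nat_lit 2894076783) (.two (nat_lit 4647289027) (nat_lit 28697437874) (.two (nat_lit 285212737) (nat_lit 46474995441) (.two (nat_lit 184986632215) (nat_lit 8401415) (.two (nat_lit 713031688) (nat_lit 2953852556) (.two (nat_lit 2097155) (nat_lit 306198476) (.two (nat_lit 50331649) (nat_lit 11476678957) (.two (nat_lit 1048576) (nat_lit 8403590) (.one (nat_lit 16792303) .nil)))))))))),
   .two (nat_lit 156372045702) (nat_lit 183845782537) (.two (nat_lit 156372045702) (nat_lit 156465366669) (.two (nat_lit 352323101) (nat_lit 9772733756) (.two (nat_lit 183962174306) (nat_lit 10439631001) (.two (nat_lit 352321731) (nat_lit 1176512967) (.two (nat_lit 739246147) (nat_lit 171976428) (.two (nat_lit 739246147) (nat_lit 4204267) (.two (nat_lit 2889875471) (nat_lit 47563420161) (.two (nat_lit 705691656) (nat_lit 171980330) (.two (nat_lit 713031682) (nat_lit 102775128) (.two (nat_lit 746586117) (nat_lit 9881794625) (.two (nat_lit 2097153) (nat_lit 1182808356)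 (.two (nat_lit 2097152) (nat_lit 101726736) (.one (nat_lit 16792304) .nil))))))))))))),
   .two (nat_lit 2961180303) (nat_lit 9948895093) (.two (nat_lit 343935486) (nat_lit 873466698) (.two (nat_lit 876610402) (nat_lit 3028291714) (.two (nat_lit 8388803) (nat_lit 270543370) (.two (nat_lit 721420353) (nat_lit 156566035454) (.two (nat_lit 721420303) (nat_lit 156465377796) (.two (nat_lit 721420296) (nat_lit 71317035) (.two (nat_lit 2097155) (nat_lit 4208648) (.two (nat_lit 34603009) (nat_lit 4208964) (.two (nat_lit 2097152) (nat_lit 135281275) (.one (nat_lit 2112168) .nil)))))))))),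
   .two (nat_lit 8392581) (nat_lit 46523221003) (.two (nat_lit 46510641027) (nat_lit 605030029) (.two (nat_lit 847250973) (nat_lit 272635200) (.two (nat_lit 876610403) (nat_lit 2424316051) (.two (nat_lit 272629955) (nat_lit 2107913) (.two (nat_lit 272629824) (nat_lit 9781124094) (.two (nat_lit 11492393025) (nat_lit 21777884912) (.two (nat_lit 11492392975) (nat_lit 156364714496) (.two (nat_lit 4194312) (nat_lit 12115260931) (.two (nat_lit 721420290) (nat_lit 8402661) (.two (nat_lit 2097155) (nat_lit 11022645261) (.two (nat_lit 50331649) (nat_lit 2956998953) (.two (nat_lit 2097152) (nat_lit 285227656) (.one (nat_lit 8403698) .nil))))))))))))),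
   .two (nat_lit 16781187) (nat_lit 874513419) (.two (nat_lit 4601153053) (nat_lit 20638079954) (.two (nat_lit 4601152354) (nat_lit 20638079954) (.two (nat_lit 4601151683) (nat_lit 13203679826) (.two (nat_lit 4605345857) (nat_lit 9966722046) (.two (nat_lit 13191086095) (nat_lit 8402118) (.two (nat_lit 4194312) (nat_lit 1176516168) (.two (nat_lit 4194308) (nat_lit 157043144421) (.two (nat_lit 37748737) (nat_lit 11544836383) (.two (nat_lit 2097152) (nat_lit 2953853520) (.one (nat_lit 135281402) .nil)))))))))),
   .two (nat_lit 16781187) (nat_lit 874513419) (.two (nat_lit 16778894) (nat_lit 158143092870) (.two (nat_lit 4601153053) (nat_lit 20638079954) (.two (nat_lit 4601153053) (nat_lit 1847596456) (.two (nat_lit 4601152354) (nat_lit 20638079954) (.two (nat_lit 4601152354) (nat_lit 20638079954) (.two (nat_lit 4601151683) (nat_lit 13203679826) (.two (nat_lit 4605345857) (nat_lit 9966722046) (.two (nat_lit 4605345857) (nat_lit 1343235824) (.two (nat_lit 13191086095) (nat_lit 8402118) (.two (nat_lit 4194312) (nat_lit 1176516168) (.two (nat_lit 4194308) (nat_lit 157043144421)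 (.two (nat_lit 4194307) (nat_lit 168835078) (.two (nat_lit 37748737) (nat_lit 11544836383) (.two (nat_lit 2097152) (nat_lit 2953853520) (.one (nat_lit 1063668) .nil))))))))))))))),
   .two (nat_lit 136318854) (nat_lit 4598008516) (.two (nat_lit 352325509) (nat_lit 184993973900) (.two (nat_lit 4601153053) (nat_lit 47582288466) (.two (nat_lit 18933089565) (nat_lit 2886736751) (.two (nat_lit 185035915459) (nat_lit 12620670642) (.two (nat_lit 4194369) (nat_lit 612380345) (.two (nat_lit 4194319) (nat_lit 35665065) (.two (nat_lit 171966470) (nat_lit 10537154126) (.two (nat_lit 8388615) (nat_lit 16791247) (.two (nat_lit 4194308) (nat_lit 28093462502) (.two (nat_lit 34603009) (nat_lit 2956999101) (.two (nat_lit 1048576) (nat_lit 16792222) (.one (nat_lit 1063659) .nil)))))))))))),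
   .two (nat_lit 352325509) (nat_lit 184993973900) (.two (nat_lit 4601153053) (nat_lit 47582288466) (.two (nat_lit 18933089565) (nat_lit 2886736751) (.two (nat_lit 185035915459) (nat_lit 12620670642) (.two (nat_lit 4194369) (nat_lit 612380345) (.two (nat_lit 4194319) (nat_lit 35665065) (.two (nat_lit 8388616) (nat_lit 16791247) (.two (nat_lit 705691656) (nat_lit 157038949659) (.two (nat_lit 4194308) (nat_lit 28093462502) (.two (nat_lit 34603009) (nat_lit 2956999101) (.two (nat_lit 1048576) (nat_lit 16792223) (.one (nat_lit 1063659) .nil))))))))))),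
   .two (nat_lit 2101126) (nat_lit 721421963) (.two (nat_lit 4601153053) (nat_lit 337648397) (.two (nat_lit 4605347101) (nat_lit 2886736751) (.two (nat_lit 11543773379) (nat_lit 809510578) (.two (nat_lit 4194369) (nat_lit 343944828) (.two (nat_lit 4194319) (nat_lit 159251444629) (.two (nat_lit 185002360840) (nat_lit 46980412699) (.two (nat_lit 4194308) (nat_lit 4631574555) (.two (nat_lit 37748737) (nat_lit 9934223649) (.two (nat_lit 1048576) (nat_lit 11559516708) (.one (nat_lit 151010027) .nil)))))))))),
   .two (nat_lit 4601155461) (nat_lit 156573373429) (.two (nat_lit 352323101) (nat_lit 2954893945) (.two (nat_lit 4613735266) (nat_lit 176169924) (.two (nat_lit 16777411) (nat_lit 1059798) (.two (nat_lit 16777283) (nat_lit 1913663125) (.two (nat_lit 4194319) (nat_lit 337654551) (.two (nat_lit 4194312) (nat_lit 176175091) (.two (nat_lit 2097153) (nat_lit 11543787809) (.two (nat_lit 1048576) (nat_lit 151009868) (.one (nat_lit 185020201673) .nil))))))))),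
   .two (nat_lit 156372045700) (nat_lit 2316309816) (.two (nat_lit 4601152354) (nat_lit 28798099604) (.two (nat_lit 4601151683) (nat_lit 11578386093) (.two (nat_lit 4194369) (nat_lit 9772740222) (.two (nat_lit 4194319) (nat_lit 337654551) (.two (nat_lit 4194312) (nat_lit 19033765879) (.two (nat_lit 2097153) (nat_lit 9802103069) (.two (nat_lit 1048576) (nat_lit 2954902095) (.one (nat_lit 1063640) .nil)))))))),
   .two (nat_lit 2101126) (nat_lit 11559507255) (.two (nat_lit 4195170) (nat_lit 13237233333) (.two (nat_lit 4194369) (nat_lit 847261329) (.two (nat_lit 8388623) (nat_lit 21827171838) (.two (nat_lit 4194308) (nat_lit 706754552) (.two (nat_lit 34603009) (nat_lit 11559516544) (.two (nat_lit 1048576) (nat_lit 151010007) .nil)))))),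
   .two (nat_lit 8392581) (nat_lit 16782352) (.two (nat_lit 8390173) (nat_lit 13222550133) (.two (nat_lit 4195170) (nat_lit 8397773) (.two (nat_lit 11543773379) (nat_lit 166199306696) (.two (nat_lit 50331715) (nat_lit 184986644086) (.two (nat_lit 4194319) (nat_lit 343945997) (.two (nat_lit 4194312) (nat_lit 184993986088) (.two (nat_lit 34603013) (nat_lit 21781035003) (.two (nat_lit 2097153) (nat_lit 306198893) (.two (nat_lit 1048576) (nat_lit 236993212) .nil))))))))),
   .two (nat_lit 16781187) (nat_lit 638583817) (.two (nat_lit 16781187) (nat_lit 1175455374) (.two (nat_lit 10552870430) (nat_lit 46474990903) (.two (nat_lit 9766437731) (nat_lit 16784238) (.two (nat_lit 8388803) (nat_lit 183947503280) (.two (nat_lit 8388672) (nat_lit 2953848556) (.two (nat_lit 8388672) (nat_lit 202385131) (.two (nat_lit 8388672) (nat_lit 202385130) (.two (nat_lit 612368399) (nat_lit 166211891713) (.two (nat_lit 8388616) (nat_lit 285226629) (.two (nat_lit 2887778306) (nat_lit 16791617) (.two (nat_lit 2097155) (nat_lit 4634720220) (.two (nat_lit 8388609) (nat_lit 11544836384) (.two (nat_lit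 1048576) (nat_lit 1277180434) (.one (nat_lit 8403692) .nil)))))))))))))),
   .two (nat_lit 16781187) (nat_lit 1175455374) (.two (nat_lit 47582285702) (nat_lit 46481278604) (.two (nat_lit 10552870430) (nat_lit 46474990903) (.two (nat_lit 9766437731) (nat_lit 16784238) (.two (nat_lit 8388803) (nat_lit 183947503280) (.two (nat_lit 8388672) (nat_lit 202385131) (.two (nat_lit 8388672) (nat_lit 202385130) (.two (nat_lit 8388672) (nat_lit 202385129) (.two (nat_lit 612368399) (nat_lit 166211891713) (.two (nat_lit 8388616) (nat_lit 285226629) (.two (nat_lit 2887778306) (nat_lit 16791618) (.two (nat_lit 2097155) (nat_lit 4634720220) (.two (nat_lit 8388609) (nat_lit 11544836384) (.two (nat_lit 1048576) (nat_lit 1277180434) (.one (nat_lit 8403693) .nil)))))))))))))),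
   .two (nat_lit 47582285702) (nat_lit 46481278604) (.two (nat_lit 10552870430) (nat_lit 46474990903) (.two (nat_lit 9766437731) (nat_lit 16784238) (.two (nat_lit 8388803) (nat_lit 183947503280) (.two (nat_lit 8388672) (nat_lit 202385130) (.two (nat_lit 8388672) (nat_lit 202385129) (.two (nat_lit 8388642) (nat_lit 46523231882) (.two (nat_lit 612368399) (nat_lit 166211891713) (.two (nat_lit 8388616) (nat_lit 285226629) (.two (nat_lit 2887778306) (nat_lit 16791824) (.two (nat_lit 2097155) (nat_lit 4634720220) (.two (nat_lit 8388609) (nat_lit 11544836384) (.two (nat_lit 1048576) (nat_lit 1277180434) (.one (nat_lit 8403709) .nil))))))))))))),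
   .two (nat_lit 16781187) (nat_lit 806355977) (.two (nat_lit 16781187) (nat_lit 156364703373) (.two (nat_lit 1753220638) (nat_lit 184986637623) (.two (nat_lit 4613735266) (nat_lit 109061466) (.two (nat_lit 822083779) (nat_lit 183946455537) (.two (nat_lit 4194369) (nat_lit 2961188588) (.two (nat_lit 4194369) (nat_lit 209725163) (.two (nat_lit 4194369) (nat_lit 209725162) (.two (nat_lit 4194319) (nat_lit 9982456321) (.two (nat_lit 4194312) (nat_lit 807417407) (.two (nat_lit 705691650) (nat_lit 16791825) (.two (nat_lit 2097155) (nat_lit 708851679) (.two (nat_lit 2097153) (nat_lit 156539828510) (.two (nat_lit 1048576) (nat_lit 1176517137) (.one (nat_lit 16792302) .nil)))))))))))))),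
   .two (nat_lit 16781187) (nat_lit 156364703373) (.two (nat_lit 352325509) (nat_lit 13195282060) (.two (nat_lit 1753220638) (nat_lit 184986637623) (.two (nat_lit 4613735266) (nat_lit 109061466) (.two (nat_lit 822083779) (nat_lit 183946455537) (.two (nat_lit 4194369) (nat_lit 209725163) (.two (nat_lit 4194369) (nat_lit 209725162) (.two (nat_lit 4194369) (nat_lit 209725161) (.two (nat_lit 4194319) (nat_lit 9982456321) (.two (nat_lit 4194312) (nat_lit 807417407) (.two (nat_lit 705691650) (nat_lit 16791901) (.two (nat_lit 2097155) (nat_lit 708851679) (.two (nat_lit 2097153) (nat_lit 156539828510) (.two (nat_lit 1048576) (nat_lit 1176517137) (.one (nat_lit 16792318) .nil)))))))))))))),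
   .two (nat_lit 16781187) (nat_lit 11476665353) (.two (nat_lit 16781187) (nat_lit 37246469773) (.two (nat_lit 352323101) (nat_lit 184993977655) (.two (nat_lit 352322402) (nat_lit 2894076783) (.two (nat_lit 16777411) (nat_lit 183846839986) (.two (nat_lit 16777280) (nat_lit 11577337585) (.two (nat_lit 41943107) (nat_lit 2886739691) (.two (nat_lit 41943107) (nat_lit 2886739690) (.two (nat_lit 713031695) (nat_lit 12129939969) (.two (nat_lit 16777224) (nat_lit 11614041604) (.two (nat_lit 34603013) (nat_lit 620771393) (.two (nat_lit 34603013) (nat_lit 50346050) (.two (nat_lit 2097153) (nat_lit 11580487966) (.two (nat_lit 1048576) (nat_lit 9934223888) (.one (nat_lit 16792305) .nil)))))))))))))),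
   .two (nat_lit 16781187) (nat_lit 37246469773) (.two (nat_lit 880807814) (nat_lit 13187942028) (.two (nat_lit 352323101) (nat_lit 184993977655) (.two (nat_lit 352322402) (nat_lit 2894076783) (.two (nat_lit 16777411) (nat_lit 183846839986) (.two (nat_lit 41943107) (nat_lit 2886739691) (.two (nat_lit 41943107) (nat_lit 2886739690) (.two (nat_lit 41943107) (nat_lit 2886739689) (.two (nat_lit 713031695) (nat_lit 12129939969) (.two (nat_lit 16777224) (nat_lit 11614041604) (.two (nat_lit 34603013) (nat_lit 50346050) (.two (nat_lit 34603013) (nat_lit 620771600) (.two (nat_lit 2097153) (nat_lit 11580487966) (.two (nat_lit 1048576) (nat_lit 9934223888) (.one (nat_lit 16792319) .nil)))))))))))))),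
   .two (nat_lit 880807814) (nat_lit 13187942028) (.two (nat_lit 352323101) (nat_lit 184993977655) (.two (nat_lit 352322402) (nat_lit 2894076783) (.two (nat_lit 16777411) (nat_lit 183846839986) (.two (nat_lit 41943107) (nat_lit 2886739690) (.two (nat_lit 41943107) (nat_lit 2886739689) (.two (nat_lit 16777250) (nat_lit 3460312805) (.two (nat_lit 713031695) (nat_lit 12129939969) (.two (nat_lit 16777224) (nat_lit 11614041604) (.two (nat_lit 34603013) (nat_lit 620771600) (.two (nat_lit 2097155) (nat_lit 306198476) (.two (nat_lit 2097153) (nat_lit 11580487966) (.two (nat_lit 1048576) (nat_lit 9934223888) (.one (nat_lit 1063676) .nil))))))))))))),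
   .two (nat_lit 8392581) (nat_lit 50332681) (.two (nat_lit 8392581) (nat_lit 156380432013) (.two (nat_lit 13191087646) (nat_lit 343938358) (.two (nat_lit 876610403) (nat_lit 2424316051) (.two (nat_lit 8388803) (nat_lit 270543369) (.two (nat_lit 8388672) (nat_lit 50338814) (.two (nat_lit 721420353) (nat_lit 184986642160) (.two (nat_lit 721420353) (nat_lit 47548738324) (.two (nat_lit 721420303) (nat_lit 9798955520) (.two (nat_lit 4194312) (nat_lit 9967777265) (.two (nat_lit 721420290) (nat_lit 8403011) (.two (nat_lit 2097155) (nat_lit 12117358578) (.two (nat_lit 50331649) (nat_lit 2923444509) (.two (nat_lit 1048576) (nat_lit 169884280) (.one (nat_lit 2112243) .nil)))))))))))))),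
   .two (nat_lit 8392581) (nat_lit 156380432013) (.two (nat_lit 8392581) (nat_lit 11559506046) (.two (nat_lit 13191087646) (nat_lit 343938358) (.two (nat_lit 876610403) (nat_lit 2424316051) (.two (nat_lit 8388803) (nat_lit 270543369) (.two (nat_lit 721420353) (nat_lit 184986642160) (.two (nat_lit 721420353) (nat_lit 47548738324) (.two (nat_lit 721420353) (nat_lit 1947217733) (.two (nat_lit 721420303) (nat_lit 9798955520) (.two (nat_lit 4194312) (nat_lit 9967777265) (.two (nat_lit 721420290) (nat_lit 8403218) (.two (nat_lit 2097155) (nat_lit 12117358578) (.two (nat_lit 50331649) (nat_lit 2923444509) (.two (nat_lit 1048576) (nat_lit 169884280) (.one (nat_lit 2112256) .nil)))))))))))))),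
   .two (nat_lit 8392581) (nat_lit 11559506046) (.two (nat_lit 13191087646) (nat_lit 343938358) (.two (nat_lit 876610403) (nat_lit 2424316051) (.two (nat_lit 8388803) (nat_lit 270543369) (.two (nat_lit 721420353) (nat_lit 47548738324) (.two (nat_lit 721420353) (nat_lit 1947217733) (.two (nat_lit 4194338) (nat_lit 8400498) (.two (nat_lit 721420303) (nat_lit 9798955520) (.two (nat_lit 4194312) (nat_lit 9967777265) (.two (nat_lit 4194306) (nat_lit 8403294) (.two (nat_lit 2097155) (nat_lit 12117358578) (.two (nat_lit 50331649) (nat_lit 2923444509) (.two (nat_lit 1048576) (nat_lit 169884280) (.one (nat_lit 2112257) .nil))))))))))))),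
   .two (nat_lit 16781187) (nat_lit 34604041) (.two (nat_lit 16781187) (nat_lit 156364703373) (.two (nat_lit 46414170623) (nat_lit 184986637623) (.two (nat_lit 876610402) (nat_lit 8398428) (.two (nat_lit 50331843) (nat_lit 28791811327) (.two (nat_lit 16777280) (nat_lit 34612978) (.two (nat_lit 11551113281) (nat_lit 269493995) (.two (nat_lit 11551113281) (nat_lit 336603919) (.two (nat_lit 13191086095) (nat_lit 8402118) (.two (nat_lit 4194312) (nat_lit 1176516168) (.two (nat_lit 16777218) (nat_lit 4208915) (.two (nat_lit 2097155) (nat_lit 306198489) (.two (nat_lit 37748737) (nat_lit 11544836383) (.two (nat_lit 1048576) (nat_lit 151009894) (.one (nat_lit 1063669) .nil)))))))))))))),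
   .two (nat_lit 16781187) (nat_lit 156364703373) (.two (nat_lit 16781187) (nat_lit 11543777406) (.two (nat_lit 46414170623) (nat_lit 184986637623) (.two (nat_lit 876610402) (nat_lit 8398428) (.two (nat_lit 50331843) (nat_lit 28791811327) (.two (nat_lit 11551113281) (nat_lit 269493995) (.two (nat_lit 11551113281) (nat_lit 336603919) (.two (nat_lit 11551113281) (nat_lit 1947217735) (.two (nat_lit 13191086095) (nat_lit 8402118) (.two (nat_lit 4194312) (nat_lit 1176516168) (.two (nat_lit 16777218) (nat_lit 4208991) (.two (nat_lit 2097155) (nat_lit 306198489) (.two (nat_lit 37748737) (nat_lit 11544836383) (.two (nat_lit 1048576) (nat_lit 151009894) (.one (nat_lit 1063682) .nil)))))))))))))),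
   .two (nat_lit 16781187) (nat_lit 11543777406) (.two (nat_lit 46414170623) (nat_lit 184986637623) (.two (nat_lit 876610402) (nat_lit 8398428) (.two (nat_lit 50331843) (nat_lit 28791811327) (.two (nat_lit 11551113281) (nat_lit 336603919) (.two (nat_lit 11551113281) (nat_lit 1947217735) (.two (nat_lit 4194338) (nat_lit 4647300801) (.two (nat_lit 13191086095) (nat_lit 8402118) (.two (nat_lit 4194312) (nat_lit 1176516168) (.two (nat_lit 16777218) (nat_lit 2111764) (.two (nat_lit 2097155) (nat_lit 306198489) (.two (nat_lit 37748737) (nat_lit 11544836383) (.two (nat_lit 1048576) (nat_lit 151009894) (.one (nat_lit 1063683) .nil))))))))))))),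
   .two (nat_lit 873467782) (nat_lit 8389640) (.two (nat_lit 4601153053) (nat_lit 47582288466) (.two (nat_lit 4605347101) (nat_lit 2886736751) (.two (nat_lit 11543773379) (nat_lit 809510578) (.two (nat_lit 16777280) (nat_lit 156567088798) (.two (nat_lit 4194319) (nat_lit 1411396459) (.two (nat_lit 8388616) (nat_lit 705704515) (.two (nat_lit 37748744) (nat_lit 13221508812) (.two (nat_lit 4194308) (nat_lit 4631574555) (.two (nat_lit 2097153) (nat_lit 46477097344) (.two (nat_lit 2097152) (nat_lit 47581248180) (.one (nat_lit 135281353) .nil))))))))))),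
   .two (nat_lit 873467782) (nat_lit 8389640) (.two (nat_lit 2101126) (nat_lit 156380433092) (.two (nat_lit 4601153053) (nat_lit 47582288466) (.two (nat_lit 4605347101) (nat_lit 2886736751) (.two (nat_lit 11543773379) (nat_lit 809510578) (.two (nat_lit 16777280) (nat_lit 156567088798) (.two (nat_lit 4194319) (nat_lit 1411396459) (.two (nat_lit 37748744) (nat_lit 13221508812) (.two (nat_lit 37748743) (nat_lit 16791657) (.two (nat_lit 4194308) (nat_lit 4631574555) (.two (nat_lit 2097153) (nat_lit 46477097344) (.two (nat_lit 1048576) (nat_lit 185035930296) (.one (nat_lit 135281353) .nil)))))))))))),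
   .two (nat_lit 873467782) (nat_lit 8389640) (.two (nat_lit 2101126) (nat_lit 156380433092) (.two (nat_lit 4601153053) (nat_lit 47582288466) (.two (nat_lit 4605347101) (nat_lit 2886736751) (.two (nat_lit 11543773379) (nat_lit 809510578) (.two (nat_lit 16777280) (nat_lit 156567088798) (.two (nat_lit 4194319) (nat_lit 1411396459) (.two (nat_lit 171966470) (nat_lit 4631574059) (.two (nat_lit 37748743) (nat_lit 16791486) (.two (nat_lit 4194308) (nat_lit 4631574555) (.two (nat_lit 2097153) (nat_lit 46477097344) (.two (nat_lit 2097152) (nat_lit 47581248178) (.one (nat_lit 135281353) .nil)))))))))))),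
   .two (nat_lit 159251435398) (nat_lit 746591547) (.two (nat_lit 612369950) (nat_lit 16784238) (.two (nat_lit 612369251) (nat_lit 183962183339) (.two (nat_lit 8388803) (nat_lit 203435651) (.two (nat_lit 9934209091) (nat_lit 1392521729) (.two (nat_lit 612368399) (nat_lit 251672103) (.two (nat_lit 276824072) (nat_lit 4599068636) (.two (nat_lit 612368389) (nat_lit 2886744356) (.two (nat_lit 8388609) (nat_lit 9814686303) (.two (nat_lit 1048576) (nat_lit 807418557) (.one (nat_lit 8403725) .nil)))))))))),
   .two (nat_lit 156372045699) (nat_lit 102765884) (.two (nat_lit 310380061) (nat_lit 104865938) (.two (nat_lit 318767970) (nat_lit 156539823789) (.two (nat_lit 4605345987) (nat_lit 270544500) (.two (nat_lit 46508539969) (nat_lit 18941489664) (.two (nat_lit 2887778319) (nat_lit 4638913799) (.two (nat_lit 8388616) (nat_lit 1062916) (.two (nat_lit 2097157) (nat_lit 1379940638) (.two (nat_lit 2097153) (nat_lit 2953853456) (.two (nat_lit 1048576) (nat_lit 35666652) (.one (nat_lit 1063694) .nil)))))))))),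
   .two (nat_lit 352325509) (nat_lit 645928252) (.two (nat_lit 37751297) (nat_lit 16784238) (.two (nat_lit 37749603) (nat_lit 166245443243) (.two (nat_lit 352321731) (nat_lit 2109088) (.two (nat_lit 339738690) (nat_lit 2894082563) (.two (nat_lit 4194319) (nat_lit 2111018) (.two (nat_lit 2887778312) (nat_lit 4605360092) (.two (nat_lit 708837381) (nat_lit 10376722724) (.two (nat_lit 37748737) (nat_lit 1779448336) (.two (nat_lit 1048576) (nat_lit 740309694) (.one (nat_lit 102775556) .nil)))))))))),
   .two (nat_lit 16781187) (nat_lit 174755681596) (.two (nat_lit 13195282943) (nat_lit 2886736751) (.two (nat_lit 4605346659) (nat_lit 1058487) (.two (nat_lit 13195280579) (nat_lit 10503597702) (.two (nat_lit 2954887232) (nat_lit 1061379) (.two (nat_lit 4194319) (nat_lit 109065743) (.two (nat_lit 1350565896) (nat_lit 3557832670) (.two (nat_lit 713031684) (nat_lit 28791814437) (.two (nat_lit 605028353) (nat_lit 1916811855) (.two (nat_lit 1048576) (nat_lit 773864152) (.one (nat_lit 1916812037) .nil))))))))))]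

theorem k6 : chkL tab c6 (nat_lit 13200) = true := by decide +kernel

theorem l6 : c6.length = 1955 := by decide +kernel

end K4

end Pool.Agent.Work.MP_bf01b2_co.MR
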