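import Pool.Agent.Work.MP_bf01b2_co.MR.K4I

/-!
# Three roots in `Q_5`: certificates of the classes of positions, part 0
-/

set_option autoImplicit false
set_option maxRecDepth 100000

namespace Pool.Agent.Work.MP_bf01b2_co.MR

namespace K4

open Tab Exc

/-- certificates of the special vectors -/
def w3_0 : List (List ℕ × List (JT.J true)) :=
  [([14, 8, 1], [.cov (nat_lit 5070602401286464666060976041602), .cov (nat_lit 5070602407263210262726220721791), .rot (.rot (.exp (.alt (nat_lit 1) (.rot (.exp (.alt (nat_lit 2) (.cov (nat_lit 63930212630086211726449288446738434)) (.alt (nat_lit 2) (.cov (nat_lit 3082983838474382503334070691299329)) (.alt (nat_lit 2) (.exp (.alt (nat_lit 3) (.cov (nat_lit 23169136731553018150931)) .e)) (.alt (nat_lit 2) (.cov (nat_lit 23169136731553286586462)) .e)))))) .e))), .cov (nat_lit 5070602401286464666060976041602), .cov (nat_lit 5070602407263210262726220721791), .cov (nat_lit 5070602411026345534780260493033), .cov (nat_lit 5070602401286464666060976041602), .cov (nat_lit 5070602407263210262726220721791),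 .cov (nat_lit 5070602411026345534780260493034), .cov (nat_lit 5070602401286464666060976041602), .cov (nat_lit 5070602407263210262726220721791), .cov (nat_lit 5070602411026345534780260493035), .cov (nat_lit 5070602401286464666060976041602), .cov (nat_lit 5070602407263210262726220721791), .cov (nat_lit 5070602411026345534780260493036)]),
   ([14, 1, 8], [.cov (nat_lit 3412516499011932535222884328550018), .cov (nat_lit 55497745497579692621670854149811839), .rot (.exp (.alt (nat_lit 2) (.exp (.alt (nat_lit 1) (.cov (nat_lit 22391837761807662179338603436441602)) (.alt (nat_lit 1) (.cov (nat_lit 486835409206966383225813345501185)) (.alt (nat_lit 1) (.exp (.alt (nat_lit 3) (.cov (nat_lit 23169136731553017102355)) .e)) (.alt (nat_lit 1) (.cov (nat_lit 23169136731553285537886)) .e))))) .e)), .cov (nat_lit 3412516499011932535222884328550018), .cov (nat_lit 55497745497579692621670854149811839), .cov (nat_lit 63772967474643600438431387121362665), .cov (nat_lit 3412516499011932535222884328550018), .cov (nat_lit 55497745497579692621670854149811839),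 .cov (nat_lit 63772967474643600438431387121362666), .cov (nat_lit 3412516499011932535222884328550018), .cov (nat_lit 55497745497579692621670854149811839), .cov (nat_lit 63772967474643600438431387121362667), .cov (nat_lit 3412516499011932535222884328550018), .cov (nat_lit 55497745497579692621670854149811839), .cov (nat_lit 63772967474643600438431387121362668)])]

/-- the special vectors, positions [0, 2, 1] -/
def s3_0 : List (List ℕ) := [[14, 8, 1], [14, 1, 8]]

theorem t3_0 : ∀ s ∈ s3_0, GF FULL [0, 2, 1] s := by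
  intro s hs
  have h := JT.chkW_ok (zs := [0, 2, 1]) good (by decide) (by decide) (L := w3_0) (by decide +kernel)
  have e : s3_0 = w3_0.map Prod.fst := rfl
  rw [e] at hs
  obtain ⟨x, hx, rfl⟩ := List.mem_map.1 hs
  exact h x hx

/-- the exceptions, positions [0, 2, 1] -/
def e3_0 : List (List ℕ) := [[3, 19, 1], [3, 1, 19], [9, 7, 7], [12, 7, 4], [12, 4, 7], [15, 7, 1], [15, 4, 4], [15, 1, 7], [21, 1, 1]]

theorem x3_0 (k : ℕ → ℕ) : ∀ s ∈ e3_0, (k 0 + 1) :: ([1, 2].map fun z => k z + 1).reverse = s →
    B3 (maskL [0, 1, 2]) k := by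
  intro s hs h
  simp only [e3_0, List.mem_cons, List.not_mem_nil, or_false] at hs
  rcases hs with rfl | rfl | rfl | rfl | rfl | rfl | rfl | rfl | rfl
  · obtain ⟨h0, h2, h1⟩ : k 0 + 1 = 3 ∧ k 2 + 1 = 19 ∧ k 1 + 1 = 1 := inj3 h
    have e := szs3 (a := 0) (b := 1) (c := 2) (by decide) (by decide) h0 h1 h2
    exact Or.inr ⟨2, 0, by decide, by decide, ⟨1, by norm_num, by decide⟩, by
      rw [e, h2, h0]; decide⟩
  · obtain ⟨h0, h2, h1⟩ : k 0 + 1 = 3 ∧ k 2 + 1 = 1 ∧ k 1 + 1 = 19 := inj3 h
    have e := szs3 (a := 0) (b := 1) (c := 2) (by decide) (by decide) h0 h1 h2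
    exact Or.inr ⟨1, 0, by decide, by decide, ⟨0, by norm_num, by decide⟩, by
      rw [e, h1, h0]; decide⟩
  · obtain ⟨h0, h2, h1⟩ : k 0 + 1 = 9 ∧ k 2 + 1 = 7 ∧ k 1 + 1 = 7 := inj3 h
    have e := szs3 (a := 0) (b := 1) (c := 2) (by decide) (by decide) h0 h1 h2
    exact Or.inr ⟨0, 2, by decide, by decide, ⟨1, by norm_num, by decide⟩, by
      rw [e, h0, h2]; decide⟩
  · obtain ⟨h0, h2, h1⟩ : k 0 + 1 = 12 ∧ k 2 + 1 = 7 ∧ k 1 + 1 = 4 := inj3 h
    have e := szs3 (a := 0) (b := 1) (c := 2) (by decide) (by decide) h0 h1 h2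
    exact Or.inr ⟨0, 2, by decide, by decide, ⟨1, by norm_num, by decide⟩, by
      rw [e, h0, h2]; decide⟩
  · obtain ⟨h0, h2, h1⟩ : k 0 + 1 = 12 ∧ k 2 + 1 = 4 ∧ k 1 + 1 = 7 := inj3 h
    have e := szs3 (a := 0) (b := 1) (c := 2) (by decide) (by decide) h0 h1 h2
    exact Or.inr ⟨0, 1, by decide, by decide, ⟨0, by norm_num, by decide⟩, by
      rw [e, h0, h1]; decide⟩
  · obtain ⟨h0, h2, h1⟩ : k 0 + 1 = 15 ∧ k 2 + 1 = 7 ∧ k 1 + 1 = 1 := inj3 h
    have e := szs3 (a := 0) (b := 1) (c := 2) (by decide) (by decide) h0 h1 h2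
    exact Or.inr ⟨0, 2, by decide, by decide, ⟨1, by norm_num, by decide⟩, by
      rw [e, h0, h2]; decide⟩
  · obtain ⟨h0, h2, h1⟩ : k 0 + 1 = 15 ∧ k 2 + 1 = 4 ∧ k 1 + 1 = 4 := inj3 h
    have e := szs3 (a := 0) (b := 1) (c := 2) (by decide) (by decide) h0 h1 h2
    exact Or.inr ⟨0, 2, by decide, by decide, ⟨1, by norm_num, by decide⟩, by
      rw [e, h0, h2]; decide⟩
  · obtain ⟨h0, h2, h1⟩ : k 0 + 1 = 15 ∧ k 2 + 1 = 1 ∧ k 1 + 1 = 7 := inj3 h
    have e := szs3 (a := 0) (b := 1) (c := 2) (by decide) (by decide) h0 h1 h2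
    exact Or.inr ⟨0, 1, by decide, by decide, ⟨0, by norm_num, by decide⟩, by
      rw [e, h0, h1]; decide⟩
  · obtain ⟨h0, h2, h1⟩ : k 0 + 1 = 21 ∧ k 2 + 1 = 1 ∧ k 1 + 1 = 1 := inj3 h
    have e := szs3 (a := 0) (b := 1) (c := 2) (by decide) (by decide) h0 h1 h2
    exact Or.inr ⟨0, 2, by decide, by decide, ⟨1, by norm_num, by decide⟩, by
      rw [e, h0, h2]; decide⟩

theorem d3_0 : Bm.cls itab 9532 (fun l => JT.ro (exV e3_0 l) (Bm.spV s3_0 l)) [0, 1, 2] [0, 0, 0] 131 23
    (nat_lit 0x23c3233715cc213124081d492248210c20fe24670564250b253b0ce01d09195413a025360cdf253b1d0a01c524f3250e2526179e19fc1fa725390d4b0327253b244a2533253b00bb253a1f9b0d5b07b7243024b50a6420d1253b20782530116220b2144824cd2536225608e824d71d49179e253a0dc120df1a65224c225524cf12562076224823211958253b0a5420c9224f25360a84253a006b2538125324c020f71181253616f52510250f03472037205a22612260093425361d38253b0dcb2318122a232d0df11ce3253b17be252f1a030a6223b1250600b824f125362343070c25361d5520a2235b1ac02539119a232b25070a57252d0a63232d20cd0a7c253b253b11a816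0a0e7c210c253604fb252d24490918253b1faf252e0506244d25101cf311d71a541d712432234e09d224f0253b06f62254006a253925380de62539205e1f9d0da8253807c9224c253b250b01c625061d1424fa1225253b0344243e20ca1c4e235d1afc198625062523206210e224f5233d095a253809ba22481cdc24db1ada2431231a0db3234d2261195d1d000de7253b253b253000b52463243e0a6a226904fc253b24ca253701a409c52538225524d600b9253b11811d04250f252d22620e64225a0e6524c0253a24cc0198253a1ab4118d225a25050e2c25322449050c243f11a82248160a11a8253b253b1cfa0c8524081d6d1d6206f1253b2249243225300500050c240a2536240e253804fc0187253624cd2452193d1cd5253a0509235716122408226011a9252c1d6200b324d3253b0d0224b4226122501a5122540a812265253711a92255243304fc2539235d25380011253b04f524b524b5238624410da80a7824312431034d24442538243f09a8244d162d2538153f2447253803482538240b05091d6111a8252c1d56226320dd253a2537006c24b9050224b916161d5624b80a59252e23571d551aea244a11a91ada253711a924302261225411a8243325372450034c252e11a81d49173424301d5500132538253b245303472537246320fa14b22538160c157d20e3245a149d0e76226424cf24c30ead2249250d00b32538253a019724c3)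 = true := by decide +kernel

theorem f3_0 : CB B3 (maskL [0, 1, 2]) 23 :=
  cb igood d3_0 rfl (by decide) (by decide) (by norm_num) (fun _ hk => Or.inl hk)
    t3_0 x3_0

/-- certificates of the special vectors -/
def w3_2 : List (List ℕ × List (JT.J true)) :=
  [([1, 21, 1], [.cov (nat_lit 15211807202750315225063526236160), .cov (nat_lit 15211807202750315227262549491712), .cov (nat_lit 15211807202750315280039107624960), .cov (nat_lit 15211807202750315313024456458240), .cov (nat_lit 15211807202750315315223479713792), .exp (.alt (nat_lit 0) (.cov (nat_lit 6917529027646339872)) .e), .exp (.alt (nat_lit 0) (.rot (.exp (.alt (nat_lit 3) (.exp (.alt (nat_lit 5) (.exp (.alt (nat_lit 1) (.cov (nat_lit 230190162417272060197970584718540807)) (.alt (nat_lit 1) (.cov (nat_lit 756148537018453431957682295451680771)) (.alt (nat_lit 1) (.cov (nat_lit 48211306907836778643754372058578945)) (.alt (nat_lit 1) (.exp (.alt (nat_lit 9) (.exp (.alt (nat_lit 17) (.cov (nat_lit 65931168081936498436782620147714)) (.alt (nat_lit 17)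 (.cov (nat_lit 11702975143629555629330606073053185)) (.alt (nat_lit 17) (.cov (nat_lit 14461377327353029584004718495006720)) (.alt (nat_lit 17) (.exp (.alt (nat_lit 16) (.cov (nat_lit 47400015929999245651731291974926339)) (.alt (nat_lit 16) (.cov (nat_lit 135831316419782779775821017880985601)) (.alt (nat_lit 16) (.cov (nat_lit 35502345623656852273684910440448)) (.alt (nat_lit 16) (.exp (.alt (nat_lit 18) (.cov (nat_lit 3103216798175976615553137796710401)) (.alt (nat_lit 18) (.cov (nat_lit 61768931309317464784907)) .e))) .e))))) .e))))) .e)) (.alt (nat_lit 1) (.cov (nat_lit 21776392536858142179832)) .e)))))) (.alt (nat_lit 5) (.exp (.alt (nat_lit 1) (.cov (nat_lit 102568177943799523508274799708209158)) (.alt (nat_lit 1) (.cov (nat_lit 92021325269057071266101923180183555)) (.alt (nat_lit 1) (.cov (nat_lit 6348426890461471143215780441620481)) (.alt (nat_lit 1) (.cov (nat_lit 1156130031927233810634181283151872)) (.alt (nat_lit 1) (.cov (nat_lit 26646333757369000919263)) .e)))))) (.alt (nat_lit 5) (.cov (nat_lit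 2833899404786786107847)) (.alt (nat_lit 5) (.cov (nat_lit 41994025075185617469672)) (.alt (nat_lit 5) (.cov (nat_lit 9238848762549371105)) (.alt (nat_lit 5) (.cov (nat_lit 102277994295809213988958)) (.alt (nat_lit 5) (.cov (nat_lit 102317198047002322010148)) (.alt (nat_lit 5) (.cov (nat_lit 48452405400613945360)) (.alt (nat_lit 5) (.cov (nat_lit 451967134276546199571)) (.alt (nat_lit 5) (.cov (nat_lit 9250059383097786379)) (.alt (nat_lit 5) (.cov (nat_lit 638749205319952367622)) (.alt (nat_lit 5) (.cov (nat_lit 10184940017729447919619)) (.alt (nat_lit 5) (.exp (.alt (nat_lit 1) (.exp (.alt (nat_lit 9) (.exp (.alt (nat_lit 17) (.exp (.alt (nat_lit 4) (.exp (.alt (nat_lit 6) (.cov (nat_lit 14055714047908449962608919962451970)) (.alt (nat_lit 6) (.cov (nat_lit 2981525024369819635991745512079361)) (.alt (nat_lit 6) (.cov (nat_lit 894596244575989662942664014862221312)) (.alt (nat_lit 6) (.exp (.alt (nat_lit 2) (.cov (nat_lit 99890873695626301423699924308983811)) (.alt (nat_lit 2) (.cov (nat_lit 756189081440665637231863696986210305))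 (.alt (nat_lit 2) (.cov (nat_lit 756189081440665637231881289172254720)) (.alt (nat_lit 2) (.exp (.alt (nat_lit 10) (.cov (nat_lit 48292423678437234467334185570795521)) (.alt (nat_lit 10) (.cov (nat_lit 2923811902165530705931)) .e))) .e))))) .e))))) (.alt (nat_lit 4) (.cov (nat_lit 27675860144314384422)) (.alt (nat_lit 4) (.cov (nat_lit 456564658585215172705)) (.alt (nat_lit 4) (.exp (.alt (nat_lit 6) (.cov (nat_lit 50036723844693242055412298381524993)) (.alt (nat_lit 6) (.cov (nat_lit 1429631413429909585931)) .e))) (.alt (nat_lit 4) (.cov (nat_lit 25281271485340334424099)) (.alt (nat_lit 4) (.cov (nat_lit 1521868337772478070799)) (.alt (nat_lit 4) (.cov (nat_lit 46141489244782198791)) (.alt (nat_lit 4) (.cov (nat_lit 102282604363346423578630)) (.alt (nat_lit 4) (.cov (nat_lit 10196459559272220459011)) (.alt (nat_lit 4) (.cov (nat_lit 13856841579664244738)) (.alt (nat_lit 4) (.cov (nat_lit 470418115868061859841)) (.alt (nat_lit 4) (.cov (nat_lit 27700420850055380992)) (.alt (nat_lit 4) (.exp (.alt (nat_lit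 6) (.cov (nat_lit 7853704350422236397662)) (.alt (nat_lit 6) (.cov (nat_lit 4612198391137435684)) (.alt (nat_lit 6) (.cov (nat_lit 45411277850757908398098)) (.alt (nat_lit 6) (.cov (nat_lit 363995776945884625895435)) (.alt (nat_lit 6) (.cov (nat_lit 6645454415752232697862)) (.alt (nat_lit 6) (.cov (nat_lit 3103684851046853640195)) (.alt (nat_lit 6) (.cov (nat_lit 4627164943137898498)) (.alt (nat_lit 6) (.cov (nat_lit 350197622956048846422017)) (.alt (nat_lit 6) (.cov (nat_lit 606462985353060941824)) (.alt (nat_lit 6) (.exp (.alt (nat_lit 2) (.cov (nat_lit 47910806474251686641868)) (.alt (nat_lit 2) (.exp (.alt (nat_lit 10) (.cov (nat_lit 48120020972428024663060112125984769)) (.alt (nat_lit 10) (.cov (nat_lit 21882453036005817581579)) .e))) (.alt (nat_lit 2) (.cov (nat_lit 21882453598909965008911)) (.alt (nat_lit 2) (.cov (nat_lit 2845419005691660599303)) (.alt (nat_lit 2) (.cov (nat_lit 2845419005691056619526)) (.alt (nat_lit 2) (.cov (nat_lit 7641575682026730684419)) (.alt (nat_lit 2) (.cov (nat_lit 558034116098373189633))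 (.alt (nat_lit 2) (.cov (nat_lit 41529332635342471168)) (.alt (nat_lit 2) (.cov (nat_lit 2896178800)) .e)))))))))) .e))))))))))) .e)))))))))))))) .e)) .e)) .e)) (.alt (nat_lit 5) (.cov (nat_lit 2337557322612604929)) (.alt (nat_lit 5) (.cov (nat_lit 6354936024072658616320)) (.alt (nat_lit 5) (.exp (.alt (nat_lit 1) (.cov (nat_lit 20761413962288857592)) (.alt (nat_lit 1) (.cov (nat_lit 41857976893970714723270)) (.alt (nat_lit 1) (.exp (.alt (nat_lit 9) (.cov (nat_lit 803431912453577031370045087110135810)) (.alt (nat_lit 9) (.cov (nat_lit 22478012982694751075679301429886977)) (.alt (nat_lit 9) (.cov (nat_lit 86226498684351605050550687629312)) (.alt (nat_lit 9) (.exp (.alt (nat_lit 8) (.cov (nat_lit 803431912453576660129314006634594307)) (.alt (nat_lit 8) (.cov (nat_lit 22478012982694453621922316769296385)) (.alt (nat_lit 8) (.cov (nat_lit 22478012982694453621939908955340800)) (.alt (nat_lit 8) (.exp (.alt (nat_lit 10) (.cov (nat_lit 50873386606727744343112314903330817)) (.alt (nat_lit 10) (.cov (nat_lit 41876426839868686991371))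 .e))) .e))))) .e))))) (.alt (nat_lit 1) (.cov (nat_lit 1865442460187975745574)) (.alt (nat_lit 1) (.cov (nat_lit 39214772698211156065)) (.alt (nat_lit 1) (.cov (nat_lit 21585018186176698253346)) (.alt (nat_lit 1) (.cov (nat_lit 43130815264269454540835)) (.alt (nat_lit 1) (.cov (nat_lit 29111294153102566883343)) (.alt (nat_lit 1) (.cov (nat_lit 39229081742266597383)) (.alt (nat_lit 1) (.cov (nat_lit 629523889346535489542)) (.alt (nat_lit 1) (.cov (nat_lit 39229220280731697155)) (.alt (nat_lit 1) (.cov (nat_lit 629525641967902392322)) (.alt (nat_lit 1) (.cov (nat_lit 703313902492321841153)) (.alt (nat_lit 1) (.exp (.alt (nat_lit 9) (.exp (.alt (nat_lit 17) (.exp (.alt (nat_lit 16) (.cov (nat_lit 1749365396540748069350451380748291)) (.alt (nat_lit 16) (.cov (nat_lit 22325863497965132538684378584186882)) (.alt (nat_lit 16) (.cov (nat_lit 1749365396219631760221125140807681)) (.alt (nat_lit 16) (.cov (nat_lit 1749365396219631760265105605918720)) (.alt (nat_lit 16) (.cov (nat_lit 1966885192968808956000)) .e))))))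 (.alt (nat_lit 17) (.cov (nat_lit 36896934019906666721)) (.alt (nat_lit 17) (.exp (.alt (nat_lit 16) (.cov (nat_lit 1749377040609502385354383288172547)) (.alt (nat_lit 16) (.cov (nat_lit 1749377040593126288311743724650497)) (.alt (nat_lit 16) (.cov (nat_lit 1749377040593126288329335910694912)) (.alt (nat_lit 16) (.exp (.alt (nat_lit 18) (.cov (nat_lit 22336028199425304481928561242931201)) (.alt (nat_lit 18) (.cov (nat_lit 27792334568563423576075)) .e))) .e))))) (.alt (nat_lit 17) (.cov (nat_lit 795527781074047336484)) (.alt (nat_lit 17) (.cov (nat_lit 24112215791087943417872)) (.alt (nat_lit 17) (.cov (nat_lit 36905453079384555538)) (.alt (nat_lit 17) (.cov (nat_lit 795528022966773219339)) (.alt (nat_lit 17) (.cov (nat_lit 1365080836182973087750)) (.alt (nat_lit 17) (.cov (nat_lit 2926140966860147916803)) (.alt (nat_lit 17) (.cov (nat_lit 36917725781763817474)) (.alt (nat_lit 17) (.cov (nat_lit 48450879278480883713)) (.alt (nat_lit 17) (.cov (nat_lit 25500348416312626642944)) (.alt (nat_lit 17) (.exp (.alt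 (nat_lit 16) (.exp (.alt (nat_lit 18) (.cov (nat_lit 14725033564827700708002167013769218)) (.alt (nat_lit 18) (.cov (nat_lit 756229652884889678487468817344626689)) (.alt (nat_lit 18) (.cov (nat_lit 58677015171090022461379216567959552)) (.alt (nat_lit 18) (.exp (.alt (nat_lit 2) (.cov (nat_lit 803467380436693101568182214799130627)) (.alt (nat_lit 2) (.cov (nat_lit 757203201921190721450277624791171073)) (.alt (nat_lit 2) (.cov (nat_lit 757203201921190721450295216977215488)) (.alt (nat_lit 2) (.exp (.alt (nat_lit 6) (.cov (nat_lit 53342743669746472732780940585074689)) (.alt (nat_lit 6) (.cov (nat_lit 384190341789677623705611)) .e))) .e))))) .e))))) (.alt (nat_lit 16) (.cov (nat_lit 10154938356610291990566)) (.alt (nat_lit 16) (.cov (nat_lit 104597658326712761450593)) (.alt (nat_lit 16) (.exp (.alt (nat_lit 18) (.cov (nat_lit 50888585048046621436590119798702081)) (.alt (nat_lit 18) (.cov (nat_lit 350165328126906269171723)) .e))) (.alt (nat_lit 16) (.cov (nat_lit 25585642762569703751715)) (.alt (nat_lit 16) (.cov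 (nat_lit 344271596599345963597839)) (.alt (nat_lit 16) (.cov (nat_lit 10164180613687632986119)) (.alt (nat_lit 16) (.cov (nat_lit 410460216285433167878)) (.alt (nat_lit 16) (.cov (nat_lit 41526946695120683011)) (.alt (nat_lit 16) (.cov (nat_lit 10150342710083071246338)) (.alt (nat_lit 16) (.cov (nat_lit 104602288411958493315073)) (.alt (nat_lit 16) (.cov (nat_lit 10154962917316611801088)) (.alt (nat_lit 16) (.exp (.alt (nat_lit 18) (.cov (nat_lit 6617772497483969069150)) (.alt (nat_lit 18) (.cov (nat_lit 10113427950783707480100)) (.alt (nat_lit 18) (.cov (nat_lit 365370053809250219589650)) (.alt (nat_lit 18) (.cov (nat_lit 365323942519188999897099)) (.alt (nat_lit 18) (.cov (nat_lit 6424093486867726467078)) (.alt (nat_lit 18) (.cov (nat_lit 2660962993277832790019)) (.alt (nat_lit 18) (.cov (nat_lit 10113442917335980572674)) (.alt (nat_lit 18) (.cov (nat_lit 1480372986643491061761)) (.alt (nat_lit 18) (.cov (nat_lit 781707054053301682176)) (.alt (nat_lit 18) (.exp (.alt (nat_lit 2) (.cov (nat_lit 43105429643054937014476))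 (.alt (nat_lit 2) (.exp (.alt (nat_lit 6) (.cov (nat_lit 50026567475491212788753535363710977)) (.alt (nat_lit 6) (.cov (nat_lit 350142263827623776878603)) .e))) (.alt (nat_lit 2) (.cov (nat_lit 350142264390727191494671)) (.alt (nat_lit 2) (.cov (nat_lit 45402057583895351656455)) (.alt (nat_lit 2) (.cov (nat_lit 45402057583743584960518)) (.alt (nat_lit 2) (.cov (nat_lit 465792237399948918787)) (.alt (nat_lit 2) (.cov (nat_lit 7844498025213641883649)) (.alt (nat_lit 2) (.cov (nat_lit 760952351510010789888)) (.alt (nat_lit 2) (.cov (nat_lit 3026202224)) .e)))))))))) .e))))))))))) .e)))))))))))))) .e)))))))))))))) .e)) (.alt (nat_lit 1) (.cov (nat_lit 9452069)) .e)))))))))))))))) .e))))))))))))))))) .e))) .e), .exp (.alt (nat_lit 0) (.rot (.exp (.alt (nat_lit 3) (.exp (.alt (nat_lit 5) (.cov (nat_lit 102211115012310936060136)) (.alt (nat_lit 5) (.cov (nat_lit 21944717200763909046497)) (.alt (nat_lit 5) (.exp (.alt (nat_lit 1) (.exp (.alt (nat_lit 9) (.exp (.alt (nat_lit 17) (.exp (.alt (nat_lit 16) (.exp (.alt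 (nat_lit 18) (.exp (.alt (nat_lit 20) (.exp (.alt (nat_lit 13) (.cov (nat_lit 82085706641795670081570)) (.alt (nat_lit 4) (.cov (nat_lit 3864596324917075509255)) (.alt (nat_lit 4) (.cov (nat_lit 22827854532335902916611)) (.alt (nat_lit 4) (.exp (.alt (nat_lit 6) (.exp (.alt (nat_lit 12) (.cov (nat_lit 8886719100446117462027)) (.alt (nat_lit 12) (.exp (.alt (nat_lit 14) (.exp (.alt (nat_lit 10) (.exp (.alt (nat_lit 15) (.exp (.alt (nat_lit 28) (.cov (nat_lit 25302015357694074945539)) (.alt (nat_lit 28) (.exp (.alt (nat_lit 24) (.exp (.alt (nat_lit 30) (.cov (nat_lit 1621007644273342939137)) (.alt (nat_lit 30) (.exp (.alt (nat_lit 31) (.cov (nat_lit 1611784274435512467456)) (.alt (nat_lit 22) (.cov (nat_lit 124780552)) .e))) .e))) .e)) (.alt (nat_lit 13) (.cov (nat_lit 63963331)) .e)))) .e)) .e)) .e)) (.alt (nat_lit 12) (.cov (nat_lit 384199567835680351453185)) (.alt (nat_lit 12) (.exp (.alt (nat_lit 14) (.exp (.alt (nat_lit 10) (.exp (.alt (nat_lit 26) (.exp (.alt (nat_lit 24) (.exp (.alt (nat_lit 30) (.exp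 (.alt (nat_lit 15) (.cov (nat_lit 1621007644429690863617)) (.alt (nat_lit 15) (.exp (.alt (nat_lit 31) (.cov (nat_lit 214443410852013932544)) (.alt (nat_lit 7) (.cov (nat_lit 124780552)) .e))) .e))) .e)) .e)) .e)) .e)) (.alt (nat_lit 13) (.cov (nat_lit 140656852371753664515)) (.alt (nat_lit 13) (.exp (.alt (nat_lit 15) (.exp (.alt (nat_lit 29) (.cov (nat_lit 10166461860611443654658)) (.alt (nat_lit 29) (.cov (nat_lit 6638522166462762713089)) (.alt (nat_lit 29) (.exp (.alt (nat_lit 25) (.cov (nat_lit 406842940563257650315267)) (.alt (nat_lit 31) (.exp (.alt (nat_lit 23) (.exp (.alt (nat_lit 27) (.cov (nat_lit 1609478429227262935041)) (.alt (nat_lit 27) (.exp (.alt (nat_lit 26) (.cov (nat_lit 202914195805931831296)) (.alt (nat_lit 11) (.cov (nat_lit 1755316232)) .e))) .e))) .e)) (.alt (nat_lit 25) (.cov (nat_lit 10463740521)) .e)))) .e)))) .e)) (.alt (nat_lit 8) (.cov (nat_lit 19136515978)) .e))))) .e))))) .e)) (.alt (nat_lit 4) (.cov (nat_lit 11582580397)) .e)))))) .e)) .e)) .e)) .e)) .e)) .e)) (.alt (nat_lit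 5) (.cov (nat_lit 365515344441223832141835)) (.alt (nat_lit 5) (.exp (.alt (nat_lit 1) (.exp (.alt (nat_lit 9) (.exp (.alt (nat_lit 17) (.exp (.alt (nat_lit 4) (.exp (.alt (nat_lit 6) (.cov (nat_lit 47318869173560301817973731359719426)) (.alt (nat_lit 6) (.cov (nat_lit 406815273871027900252178)) .e))) (.alt (nat_lit 4) (.exp (.alt (nat_lit 6) (.cov (nat_lit 50036723844693242055412298381524993)) (.alt (nat_lit 6) (.cov (nat_lit 1429631413429909585931)) .e))) (.alt (nat_lit 4) (.exp (.alt (nat_lit 6) (.exp (.alt (nat_lit 2) (.exp (.alt (nat_lit 10) (.exp (.alt (nat_lit 18) (.exp (.alt (nat_lit 12) (.cov (nat_lit 42976302153059415359499)) (.alt (nat_lit 12) (.exp (.alt (nat_lit 13) (.exp (.alt (nat_lit 15) (.exp (.alt (nat_lit 29) (.exp (.alt (nat_lit 28) (.cov (nat_lit 129127226108173877251)) (.alt (nat_lit 28) (.exp (.alt (nat_lit 20) (.exp (.alt (nat_lit 30) (.cov (nat_lit 59951927035672133633)) (.alt (nat_lit 24) (.cov (nat_lit 2980053007)) .e))) .e)) (.alt (nat_lit 28) (.exp (.alt (nat_lit 30) (.cov (nat_lit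 59951927035672133634)) (.alt (nat_lit 20) (.cov (nat_lit 10391388227)) .e))) .e)))) .e)) .e)) .e)) (.alt (nat_lit 12) (.cov (nat_lit 64569231558509068289)) (.alt (nat_lit 12) (.exp (.alt (nat_lit 13) (.exp (.alt (nat_lit 15) (.exp (.alt (nat_lit 31) (.exp (.alt (nat_lit 23) (.exp (.alt (nat_lit 27) (.exp (.alt (nat_lit 29) (.cov (nat_lit 1614090115245700808705)) (.alt (nat_lit 29) (.exp (.alt (nat_lit 28) (.cov (nat_lit 25281262764014081933312)) (.alt (nat_lit 21) (.cov (nat_lit 121634824)) .e))) .e))) .e)) .e)) .e)) .e)) (.alt (nat_lit 13) (.cov (nat_lit 657165686456089313283)) (.alt (nat_lit 13) (.exp (.alt (nat_lit 15) (.exp (.alt (nat_lit 29) (.cov (nat_lit 57646108215713202178)) (.alt (nat_lit 29) (.cov (nat_lit 1607172724756524826625)) (.alt (nat_lit 29) (.exp (.alt (nat_lit 21) (.cov (nat_lit 1454986956407322968067)) (.alt (nat_lit 28) (.exp (.alt (nat_lit 20) (.exp (.alt (nat_lit 30) (.cov (nat_lit 59951927035672133633)) (.alt (nat_lit 24) (.cov (nat_lit 2980053007)) .e))) .e)) (.alt (nat_lit 28)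 (.exp (.alt (nat_lit 30) (.cov (nat_lit 59951927035672133634)) (.alt (nat_lit 20) (.cov (nat_lit 10391388227)) .e))) .e)))) .e)))) .e)) (.alt (nat_lit 8) (.cov (nat_lit 174709542794)) .e))))) .e))))) .e)) .e)) .e)) .e)) (.alt (nat_lit 4) (.cov (nat_lit 10196459559272220459011)) (.alt (nat_lit 4) (.exp (.alt (nat_lit 6) (.exp (.alt (nat_lit 12) (.cov (nat_lit 404297291768030356832277)) (.alt (nat_lit 12) (.cov (nat_lit 365559132944799086149643)) (.alt (nat_lit 12) (.cov (nat_lit 138362521249281736706)) (.alt (nat_lit 12) (.cov (nat_lit 364055736006548821901313)) (.alt (nat_lit 12) (.exp (.alt (nat_lit 14) (.cov (nat_lit 1572586295678457610274)) (.alt (nat_lit 8) (.cov (nat_lit 3006822725533608968199)) (.alt (nat_lit 8) (.cov (nat_lit 42999369176980821901315)) (.alt (nat_lit 8) (.exp (.alt (nat_lit 10) (.exp (.alt (nat_lit 24) (.cov (nat_lit 6626992951416965824523)) (.alt (nat_lit 24) (.exp (.alt (nat_lit 26) (.exp (.alt (nat_lit 18) (.exp (.alt (nat_lit 27) (.exp (.alt (nat_lit 28) (.cov (nat_lit 404345712584277937356803))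 (.alt (nat_lit 28) (.exp (.alt (nat_lit 20) (.exp (.alt (nat_lit 30) (.cov (nat_lit 25306627034916398825473)) (.alt (nat_lit 30) (.exp (.alt (nat_lit 31) (.cov (nat_lit 25288180293041713577984)) (.alt (nat_lit 14) (.cov (nat_lit 19611516936)) .e))) .e))) .e)) (.alt (nat_lit 25) (.cov (nat_lit 13250855107)) .e)))) .e)) .e)) .e)) (.alt (nat_lit 24) (.cov (nat_lit 2942261320251351236609)) (.alt (nat_lit 24) (.exp (.alt (nat_lit 26) (.exp (.alt (nat_lit 18) (.exp (.alt (nat_lit 22) (.exp (.alt (nat_lit 20) (.exp (.alt (nat_lit 30) (.exp (.alt (nat_lit 27) (.cov (nat_lit 25306627034916999659521)) (.alt (nat_lit 27) (.exp (.alt (nat_lit 31) (.cov (nat_lit 2649413628581666357248)) (.alt (nat_lit 11) (.cov (nat_lit 19611516936)) .e))) .e))) .e)) .e)) .e)) .e)) (.alt (nat_lit 25) (.cov (nat_lit 29138938536245899296771)) (.alt (nat_lit 25) (.exp (.alt (nat_lit 27) (.exp (.alt (nat_lit 29) (.cov (nat_lit 48422736225274691586)) (.alt (nat_lit 29) (.cov (nat_lit 7892900763475008028673)) (.alt (nat_lit 29) (.exp (.alt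 (nat_lit 21) (.cov (nat_lit 25428836723366955057155)) (.alt (nat_lit 31) (.exp (.alt (nat_lit 15) (.exp (.alt (nat_lit 23) (.cov (nat_lit 25285874447833480822785)) (.alt (nat_lit 23) (.exp (.alt (nat_lit 22) (.cov (nat_lit 2628661041498746257408)) (.alt (nat_lit 19) (.cov (nat_lit 1361051656)) .e))) .e))) .e)) (.alt (nat_lit 21) (.cov (nat_lit 37336646249)) .e)))) .e)))) .e)) (.alt (nat_lit 16) (.cov (nat_lit 18943577994)) .e))))) .e))))) .e)) (.alt (nat_lit 8) (.cov (nat_lit 12157200045)) .e)))))) .e)))))) .e)) (.alt (nat_lit 4) (.cov (nat_lit 6304322)) .e))))))) .e)) .e)) .e)) (.alt (nat_lit 5) (.cov (nat_lit 2335778312798863361)) (.alt (nat_lit 5) (.exp (.alt (nat_lit 1) (.cov (nat_lit 25329687725604445618680)) (.alt (nat_lit 1) (.exp (.alt (nat_lit 9) (.exp (.alt (nat_lit 8) (.exp (.alt (nat_lit 10) (.exp (.alt (nat_lit 12) (.exp (.alt (nat_lit 11) (.exp (.alt (nat_lit 15) (.exp (.alt (nat_lit 27) (.exp (.alt (nat_lit 17) (.cov (nat_lit 712505632795102543883)) (.alt (nat_lit 17) (.exp (.alt (nat_lit 21)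 (.exp (.alt (nat_lit 29) (.exp (.alt (nat_lit 23) (.exp (.alt (nat_lit 16) (.cov (nat_lit 347651950516741552996355)) (.alt (nat_lit 16) (.exp (.alt (nat_lit 24) (.exp (.alt (nat_lit 20) (.cov (nat_lit 2854633654202683883521)) (.alt (nat_lit 20) (.exp (.alt (nat_lit 22) (.cov (nat_lit 2873080400475385233408)) (.alt (nat_lit 4) (.cov (nat_lit 174757773320)) .e))) .e))) .e)) (.alt (nat_lit 19) (.cov (nat_lit 21829255363)) .e)))) .e)) .e)) .e)) (.alt (nat_lit 17) (.cov (nat_lit 6456366066293049131009)) (.alt (nat_lit 17) (.exp (.alt (nat_lit 21) (.exp (.alt (nat_lit 29) (.exp (.alt (nat_lit 28) (.exp (.alt (nat_lit 24) (.exp (.alt (nat_lit 20) (.exp (.alt (nat_lit 23) (.cov (nat_lit 2854633654202653474817)) (.alt (nat_lit 23) (.exp (.alt (nat_lit 22) (.cov (nat_lit 22841680860265974857728)) (.alt (nat_lit 7) (.cov (nat_lit 174757773320)) .e))) .e))) .e)) .e)) .e)) .e)) (.alt (nat_lit 19) (.cov (nat_lit 48003040194631715258371)) (.alt (nat_lit 19) (.exp (.alt (nat_lit 23) (.exp (.alt (nat_lit 18) (.cov (nat_lit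 1609478453600375013378)) (.alt (nat_lit 18) (.cov (nat_lit 404550932737442321530881)) (.alt (nat_lit 18) (.exp (.alt (nat_lit 26) (.cov (nat_lit 21896285233251583262723)) (.alt (nat_lit 22) (.exp (.alt (nat_lit 6) (.exp (.alt (nat_lit 30) (.cov (nat_lit 2868468712257994358785)) (.alt (nat_lit 30) (.exp (.alt (nat_lit 28) (.cov (nat_lit 22855515918321281138688)) (.alt (nat_lit 31) (.cov (nat_lit 2983198728)) .e))) .e))) .e)) (.alt (nat_lit 26) (.cov (nat_lit 11037311593)) .e)))) .e)))) .e)) (.alt (nat_lit 25) (.cov (nat_lit 28115472266)) .e))))) .e))))) .e)) .e)) .e)) .e)) .e)) .e)) (.alt (nat_lit 9) (.cov (nat_lit 39214772697946914836)) .e))) (.alt (nat_lit 1) (.cov (nat_lit 21585018186176698253346)) (.alt (nat_lit 1) (.exp (.alt (nat_lit 9) (.exp (.alt (nat_lit 8) (.exp (.alt (nat_lit 10) (.exp (.alt (nat_lit 12) (.exp (.alt (nat_lit 17) (.cov (nat_lit 29120493267716792123410)) (.alt (nat_lit 17) (.cov (nat_lit 1966885192968172470283)) (.alt (nat_lit 17) (.exp (.alt (nat_lit 16) (.exp (.alt (nat_lit 24)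 (.exp (.alt (nat_lit 18) (.exp (.alt (nat_lit 19) (.exp (.alt (nat_lit 27) (.exp (.alt (nat_lit 31) (.exp (.alt (nat_lit 29) (.exp (.alt (nat_lit 15) (.exp (.alt (nat_lit 23) (.cov (nat_lit 365370048190742776512513)) (.alt (nat_lit 23) (.exp (.alt (nat_lit 22) (.cov (nat_lit 2628661041498733674496)) (.alt (nat_lit 21) (.cov (nat_lit 12134121480)) .e))) .e))) .e)) .e)) .e)) .e)) (.alt (nat_lit 19) (.cov (nat_lit 10235637546874674610179)) (.alt (nat_lit 19) (.exp (.alt (nat_lit 27) (.exp (.alt (nat_lit 23) (.cov (nat_lit 7763773445010764070914)) (.alt (nat_lit 23) (.cov (nat_lit 365335460684143036203009)) (.alt (nat_lit 23) (.exp (.alt (nat_lit 21) (.cov (nat_lit 29065151148749743980547)) (.alt (nat_lit 22) (.exp (.alt (nat_lit 20) (.exp (.alt (nat_lit 30) (.cov (nat_lit 6377961772281199853569)) (.alt (nat_lit 6) (.cov (nat_lit 46420459535)) .e))) .e)) (.alt (nat_lit 22) (.exp (.alt (nat_lit 30) (.cov (nat_lit 6377961772284085534722)) (.alt (nat_lit 20) (.cov (nat_lit 11538530371)) .e))) .e)))) .e)))) .e))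 (.alt (nat_lit 19) (.exp (.alt (nat_lit 23) (.cov (nat_lit 103317907962328349933570)) (.alt (nat_lit 23) (.exp (.alt (nat_lit 7) (.cov (nat_lit 3871510430081580269575)) (.alt (nat_lit 22) (.cov (nat_lit 63378402308044946931712)) .e))) .e))) .e))))) .e)) .e)) .e)) (.alt (nat_lit 17) (.cov (nat_lit 3147495830838523723777)) (.alt (nat_lit 17) (.exp (.alt (nat_lit 19) (.cov (nat_lit 42037825257772399198242)) (.alt (nat_lit 16) (.cov (nat_lit 29118188961822752636935)) (.alt (nat_lit 16) (.cov (nat_lit 21587311019764343635971)) (.alt (nat_lit 16) (.exp (.alt (nat_lit 24) (.exp (.alt (nat_lit 18) (.cov (nat_lit 207526018167336861707)) (.alt (nat_lit 18) (.exp (.alt (nat_lit 19) (.exp (.alt (nat_lit 27) (.exp (.alt (nat_lit 23) (.exp (.alt (nat_lit 22) (.cov (nat_lit 23109158655934733484035)) (.alt (nat_lit 22) (.exp (.alt (nat_lit 20) (.exp (.alt (nat_lit 30) (.cov (nat_lit 6377961772281199853569)) (.alt (nat_lit 6) (.cov (nat_lit 46420459535)) .e))) .e)) (.alt (nat_lit 22) (.exp (.alt (nat_lit 30) (.cov (nat_lit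 6377961772284085534722)) (.alt (nat_lit 20) (.cov (nat_lit 11538530371)) .e))) .e)))) .e)) .e)) .e)) (.alt (nat_lit 18) (.cov (nat_lit 102319483318148993646593)) (.alt (nat_lit 18) (.exp (.alt (nat_lit 19) (.exp (.alt (nat_lit 27) (.exp (.alt (nat_lit 31) (.exp (.alt (nat_lit 29) (.exp (.alt (nat_lit 15) (.exp (.alt (nat_lit 23) (.cov (nat_lit 365370048190742776512513)) (.alt (nat_lit 23) (.exp (.alt (nat_lit 22) (.cov (nat_lit 2628661041498733674496)) (.alt (nat_lit 21) (.cov (nat_lit 12134121480)) .e))) .e))) .e)) .e)) .e)) .e)) (.alt (nat_lit 19) (.cov (nat_lit 10235637546874674610179)) (.alt (nat_lit 19) (.exp (.alt (nat_lit 27) (.exp (.alt (nat_lit 23) (.cov (nat_lit 7763773445010764070914)) (.alt (nat_lit 23) (.cov (nat_lit 365335460684143036203009)) (.alt (nat_lit 23) (.exp (.alt (nat_lit 21) (.cov (nat_lit 29065151148749743980547)) (.alt (nat_lit 22) (.exp (.alt (nat_lit 20) (.exp (.alt (nat_lit 30) (.cov (nat_lit 6377961772281199853569)) (.alt (nat_lit 6) (.cov (nat_lit 46420459535)) .e))) .e)) (.alt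 (nat_lit 22) (.exp (.alt (nat_lit 30) (.cov (nat_lit 6377961772284085534722)) (.alt (nat_lit 20) (.cov (nat_lit 11538530371)) .e))) .e)))) .e)))) .e)) (.alt (nat_lit 2) (.cov (nat_lit 1415581578)) .e))))) .e))))) .e)) (.alt (nat_lit 16) (.cov (nat_lit 18885337)) .e)))))) .e)))))) .e)) .e)) .e)) .e)) (.alt (nat_lit 1) (.cov (nat_lit 39221338981383798787)) (.alt (nat_lit 4) (.exp (.alt (nat_lit 6) (.exp (.alt (nat_lit 12) (.cov (nat_lit 27762350937041870520545)) (.alt (nat_lit 12) (.cov (nat_lit 654871357515018272786)) (.alt (nat_lit 12) (.cov (nat_lit 64579045799460077579)) (.alt (nat_lit 12) (.exp (.alt (nat_lit 8) (.exp (.alt (nat_lit 9) (.exp (.alt (nat_lit 10) (.exp (.alt (nat_lit 28) (.cov (nat_lit 25597164030332539764770)) (.alt (nat_lit 13) (.cov (nat_lit 1468825438350868480007)) (.alt (nat_lit 13) (.cov (nat_lit 2870783278838818275331)) (.alt (nat_lit 13) (.cov (nat_lit 66884888808513339392)) (.alt (nat_lit 13) (.cov (nat_lit 902833835)) .e)))))) .e)) .e)) .e)) (.alt (nat_lit 12) (.cov (nat_lit 45591156127869859528705))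 (.alt (nat_lit 12) (.exp (.alt (nat_lit 8) (.cov (nat_lit 1498801397506726952998)) (.alt (nat_lit 8) (.cov (nat_lit 47984604188380040790050)) (.alt (nat_lit 8) (.cov (nat_lit 55355673762439626759)) (.alt (nat_lit 8) (.cov (nat_lit 10237964731239041597443)) (.alt (nat_lit 8) (.exp (.alt (nat_lit 9) (.exp (.alt (nat_lit 10) (.cov (nat_lit 21578080784576183009299)) (.alt (nat_lit 10) (.cov (nat_lit 365572968011653076484107)) (.alt (nat_lit 10) (.cov (nat_lit 650259671539983056898)) (.alt (nat_lit 10) (.cov (nat_lit 59967359780871208961)) (.alt (nat_lit 10) (.exp (.alt (nat_lit 26) (.cov (nat_lit 3161311550683295514658)) (.alt (nat_lit 11) (.cov (nat_lit 21534271304674462138375)) (.alt (nat_lit 11) (.cov (nat_lit 25297412386451205652483)) (.alt (nat_lit 11) (.cov (nat_lit 62273202790085951488)) (.alt (nat_lit 2) (.cov (nat_lit 3038783148)) .e)))))) .e)))))) .e)) (.alt (nat_lit 8) (.cov (nat_lit 10511987974)) .e))))))) .e))))))) .e)) (.alt (nat_lit 4) (.cov (nat_lit 180369936)) .e)))))))) .e)))))))) .e))) .e)]),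
   ([1, 18, 4], [.cov (nat_lit 15211836227152587666912415055872), .cov (nat_lit 14294028202023449239638990905147392), .cov (nat_lit 15211836227152587666912415055872), .cov (nat_lit 14294028202023449241903984858365952), .cov (nat_lit 15211836227152587666912415055872), .cov (nat_lit 14294028202023449242304207090876416), .cov (nat_lit 15211836227152587666912415055872), .cov (nat_lit 14294028202023449242306406114131968), .cov (nat_lit 15211836227152587666912415055872), .cov (nat_lit 14294028202023449242462536765276160), .cov (nat_lit 15211836227152587666912415055872), .exp (.alt (nat_lit 0) (.rot (.exp (.alt (nat_lit 3) (.exp (.alt (nat_lit 1) (.exp (.alt (nat_lit 9) (.exp (.alt (nat_lit 17) (.exp (.alt (nat_lit 5) (.exp (.alt (nat_lit 4) (.cov (nat_lit 1404564432950363744491502355611651)) (.alt (nat_lit 4) (.cov (nat_lit 35495343932088021265318997393410)) (.alt (nat_lit 4) (.cov (nat_lit 1404564432928610421562371569876993)) (.alt (nat_lit 4) (.cov (nat_lit 1404564432928610421606352034988032)) (.alt (nat_lit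 4) (.cov (nat_lit 1800864496305452351584)) .e)))))) (.alt (nat_lit 5) (.cov (nat_lit 10191829546596876419297)) (.alt (nat_lit 5) (.exp (.alt (nat_lit 4) (.cov (nat_lit 1404576077324817503284948952416259)) (.alt (nat_lit 4) (.cov (nat_lit 1404576077302104949652990153719809)) (.alt (nat_lit 4) (.cov (nat_lit 1404576077302104949670582339764224)) (.alt (nat_lit 4) (.exp (.alt (nat_lit 6) (.cov (nat_lit 65942454978285770971019430854657)) (.alt (nat_lit 6) (.cov (nat_lit 25486491559350300049419)) .e))) .e))))) (.alt (nat_lit 5) (.cov (nat_lit 638730456447776194596)) (.alt (nat_lit 5) (.cov (nat_lit 46681807165271839866896)) (.alt (nat_lit 5) (.cov (nat_lit 10191838065610250518546)) (.alt (nat_lit 5) (.cov (nat_lit 638730698342951550987)) (.alt (nat_lit 5) (.cov (nat_lit 344299276538480384016390)) (.alt (nat_lit 5) (.cov (nat_lit 365570682711916210552835)) (.alt (nat_lit 5) (.cov (nat_lit 10191850338358863593474)) (.alt (nat_lit 5) (.cov (nat_lit 10212606863892431241217)) (.alt (nat_lit 5) (.cov (nat_lit 26727056897214299242496))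 (.alt (nat_lit 5) (.exp (.alt (nat_lit 4) (.exp (.alt (nat_lit 6) (.cov (nat_lit 14055714047908449962608919962451970)) (.alt (nat_lit 6) (.cov (nat_lit 2981525024369819635991745512079361)) (.alt (nat_lit 6) (.cov (nat_lit 894596244575989662942664014862221312)) (.alt (nat_lit 6) (.exp (.alt (nat_lit 2) (.cov (nat_lit 99890873695626301423699924308983811)) (.alt (nat_lit 2) (.cov (nat_lit 756189081440665637231863696986210305)) (.alt (nat_lit 2) (.cov (nat_lit 756189081440665637231881289172254720)) (.alt (nat_lit 2) (.exp (.alt (nat_lit 10) (.cov (nat_lit 48292423678437234467334185570795521)) (.alt (nat_lit 10) (.cov (nat_lit 2923811902165530705931)) .e))) .e))))) .e))))) (.alt (nat_lit 4) (.cov (nat_lit 27675860144314384422)) (.alt (nat_lit 4) (.cov (nat_lit 456564658585215172705)) (.alt (nat_lit 4) (.exp (.alt (nat_lit 6) (.cov (nat_lit 50036723844693242055412298381524993)) (.alt (nat_lit 6) (.cov (nat_lit 1429631413429909585931)) .e))) (.alt (nat_lit 4) (.cov (nat_lit 25281271485340334424099)) (.alt (nat_lit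 4) (.cov (nat_lit 1521868337772478070799)) (.alt (nat_lit 4) (.cov (nat_lit 46141489244782198791)) (.alt (nat_lit 4) (.cov (nat_lit 102282604363346423578630)) (.alt (nat_lit 4) (.cov (nat_lit 10196459559272220459011)) (.alt (nat_lit 4) (.cov (nat_lit 13856841579664244738)) (.alt (nat_lit 4) (.cov (nat_lit 470418115868061859841)) (.alt (nat_lit 4) (.cov (nat_lit 27700420850055380992)) (.alt (nat_lit 4) (.exp (.alt (nat_lit 6) (.cov (nat_lit 7853704350422236397662)) (.alt (nat_lit 6) (.cov (nat_lit 4612198391137435684)) (.alt (nat_lit 6) (.cov (nat_lit 45411277850757908398098)) (.alt (nat_lit 6) (.cov (nat_lit 363995776945884625895435)) (.alt (nat_lit 6) (.cov (nat_lit 6645454415752232697862)) (.alt (nat_lit 6) (.cov (nat_lit 3103684851046853640195)) (.alt (nat_lit 6) (.cov (nat_lit 4627164943137898498)) (.alt (nat_lit 6) (.cov (nat_lit 350197622956048846422017)) (.alt (nat_lit 6) (.cov (nat_lit 606462985353060941824)) (.alt (nat_lit 6) (.exp (.alt (nat_lit 2) (.cov (nat_lit 47910806474251686641868)) (.alt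 (nat_lit 2) (.exp (.alt (nat_lit 10) (.cov (nat_lit 48120020972428024663060112125984769)) (.alt (nat_lit 10) (.cov (nat_lit 21882453036005817581579)) .e))) (.alt (nat_lit 2) (.cov (nat_lit 21882453598909965008911)) (.alt (nat_lit 2) (.cov (nat_lit 2845419005691660599303)) (.alt (nat_lit 2) (.cov (nat_lit 2845419005691056619526)) (.alt (nat_lit 2) (.cov (nat_lit 7641575682026730684419)) (.alt (nat_lit 2) (.cov (nat_lit 558034116098373189633)) (.alt (nat_lit 2) (.cov (nat_lit 41529332635342471168)) (.alt (nat_lit 2) (.cov (nat_lit 2896178800)) .e)))))))))) .e))))))))))) .e)))))))))))))) .e)))))))))))))) .e)) .e)) .e)) .e))) .e), .cov (nat_lit 15211836227152587666912415055872), .exp (.alt (nat_lit 0) (.rot (.exp (.alt (nat_lit 3) (.exp (.alt (nat_lit 2) (.exp (.alt (nat_lit 6) (.exp (.alt (nat_lit 10) (.exp (.alt (nat_lit 5) (.cov (nat_lit 21917043447469047808225)) (.alt (nat_lit 5) (.cov (nat_lit 343877297433762119811091)) (.alt (nat_lit 5) (.cov (nat_lit 365570674863602393939979)) (.alt (nat_lit 5) (.exp (.alt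 (nat_lit 1) (.exp (.alt (nat_lit 9) (.exp (.alt (nat_lit 17) (.exp (.alt (nat_lit 21) (.cov (nat_lit 25523377625783952474146)) (.alt (nat_lit 4) (.cov (nat_lit 25428840147084621381639)) (.alt (nat_lit 4) (.cov (nat_lit 24026892897170550161411)) (.alt (nat_lit 4) (.exp (.alt (nat_lit 12) (.exp (.alt (nat_lit 20) (.cov (nat_lit 10173379499587553722379)) (.alt (nat_lit 20) (.exp (.alt (nat_lit 28) (.exp (.alt (nat_lit 24) (.exp (.alt (nat_lit 29) (.exp (.alt (nat_lit 22) (.cov (nat_lit 365372354042550965764099)) (.alt (nat_lit 22) (.exp (.alt (nat_lit 18) (.exp (.alt (nat_lit 30) (.cov (nat_lit 2875386241285584060417)) (.alt (nat_lit 30) (.exp (.alt (nat_lit 31) (.cov (nat_lit 22862433447348907540480)) (.alt (nat_lit 14) (.cov (nat_lit 174767210504)) .e))) .e))) .e)) (.alt (nat_lit 21) (.cov (nat_lit 10560209091)) .e)))) .e)) .e)) .e)) (.alt (nat_lit 20) (.cov (nat_lit 404329577306115914334209)) (.alt (nat_lit 20) (.exp (.alt (nat_lit 28) (.exp (.alt (nat_lit 24) (.exp (.alt (nat_lit 26) (.exp (.alt (nat_lit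 18) (.exp (.alt (nat_lit 30) (.exp (.alt (nat_lit 29) (.cov (nat_lit 2875386241285616566273)) (.alt (nat_lit 29) (.exp (.alt (nat_lit 31) (.cov (nat_lit 2856939499410898812928)) (.alt (nat_lit 13) (.cov (nat_lit 174767210504)) .e))) .e))) .e)) .e)) .e)) .e)) (.alt (nat_lit 21) (.cov (nat_lit 23222145374600844804099)) (.alt (nat_lit 21) (.exp (.alt (nat_lit 29) (.exp (.alt (nat_lit 23) (.cov (nat_lit 6389491011562933059586)) (.alt (nat_lit 23) (.cov (nat_lit 6712309142757594628097)) (.alt (nat_lit 23) (.exp (.alt (nat_lit 19) (.cov (nat_lit 262866120663211442179)) (.alt (nat_lit 31) (.exp (.alt (nat_lit 15) (.exp (.alt (nat_lit 27) (.cov (nat_lit 2863857026239527124993)) (.alt (nat_lit 27) (.exp (.alt (nat_lit 26) (.cov (nat_lit 2845410284364839780352)) (.alt (nat_lit 25) (.cov (nat_lit 11567890440)) .e))) .e))) .e)) (.alt (nat_lit 19) (.cov (nat_lit 162529897)) .e)))) .e)))) .e)) (.alt (nat_lit 16) (.cov (nat_lit 19553849226)) .e))))) .e))))) .e)) (.alt (nat_lit 4) (.cov (nat_lit 158188185261)) .e)))))) .e))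 .e)) .e)) (.alt (nat_lit 5) (.cov (nat_lit 48444671435824168961)) (.alt (nat_lit 5) (.exp (.alt (nat_lit 1) (.cov (nat_lit 47908503643907855220774)) (.alt (nat_lit 1) (.cov (nat_lit 45399751740729785843746)) (.alt (nat_lit 1) (.cov (nat_lit 39214772698546700295)) (.alt (nat_lit 1) (.cov (nat_lit 25569514899501059407875)) (.alt (nat_lit 1) (.exp (.alt (nat_lit 9) (.exp (.alt (nat_lit 17) (.cov (nat_lit 22046166915446287106066)) (.alt (nat_lit 17) (.cov (nat_lit 350250636676641389019147)) (.alt (nat_lit 17) (.exp (.alt (nat_lit 16) (.exp (.alt (nat_lit 18) (.exp (.alt (nat_lit 20) (.exp (.alt (nat_lit 21) (.exp (.alt (nat_lit 23) (.exp (.alt (nat_lit 31) (.exp (.alt (nat_lit 27) (.exp (.alt (nat_lit 15) (.exp (.alt (nat_lit 29) (.cov (nat_lit 404343406732472635883521)) (.alt (nat_lit 29) (.exp (.alt (nat_lit 28) (.cov (nat_lit 1604866745407859851264)) (.alt (nat_lit 25) (.cov (nat_lit 21801992200)) .e))) .e))) .e)) .e)) .e)) .e)) (.alt (nat_lit 21) (.cov (nat_lit 804739639044666818563)) (.alt (nat_lit 21) (.exp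 (.alt (nat_lit 23) (.exp (.alt (nat_lit 29) (.cov (nat_lit 10138791744497987354626)) (.alt (nat_lit 29) (.cov (nat_lit 404308819225872895574017)) (.alt (nat_lit 29) (.exp (.alt (nat_lit 25) (.cov (nat_lit 350181460298013794631683)) (.alt (nat_lit 28) (.exp (.alt (nat_lit 24) (.exp (.alt (nat_lit 30) (.cov (nat_lit 32281810925112000513)) (.alt (nat_lit 12) (.cov (nat_lit 3470786575)) .e))) .e)) (.alt (nat_lit 28) (.exp (.alt (nat_lit 30) (.cov (nat_lit 32281810925112000514)) (.alt (nat_lit 24) (.cov (nat_lit 20663238723)) .e))) .e)))) .e)))) .e)) (.alt (nat_lit 21) (.exp (.alt (nat_lit 29) (.cov (nat_lit 102077364423371953012738)) (.alt (nat_lit 29) (.exp (.alt (nat_lit 13) (.cov (nat_lit 384317160206249528131591)) (.alt (nat_lit 28) (.cov (nat_lit 26780062065805202817024)) .e))) .e))) .e))))) .e)) .e)) .e)) (.alt (nat_lit 17) (.cov (nat_lit 365598346763120650747905)) (.alt (nat_lit 17) (.exp (.alt (nat_lit 21) (.cov (nat_lit 25523377625783952474146)) (.alt (nat_lit 16) (.cov (nat_lit 22043862609554931974151))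 (.alt (nat_lit 16) (.cov (nat_lit 22772514326500354293763)) (.alt (nat_lit 16) (.exp (.alt (nat_lit 18) (.exp (.alt (nat_lit 20) (.cov (nat_lit 22850904368646891503627)) (.alt (nat_lit 20) (.exp (.alt (nat_lit 21) (.exp (.alt (nat_lit 23) (.exp (.alt (nat_lit 29) (.exp (.alt (nat_lit 28) (.cov (nat_lit 29025951817574190678019)) (.alt (nat_lit 28) (.exp (.alt (nat_lit 24) (.exp (.alt (nat_lit 30) (.cov (nat_lit 32281810925112000513)) (.alt (nat_lit 12) (.cov (nat_lit 3470786575)) .e))) .e)) (.alt (nat_lit 28) (.exp (.alt (nat_lit 30) (.cov (nat_lit 32281810925112000514)) (.alt (nat_lit 24) (.cov (nat_lit 20663238723)) .e))) .e)))) .e)) .e)) .e)) (.alt (nat_lit 20) (.cov (nat_lit 802438994506899521537)) (.alt (nat_lit 20) (.exp (.alt (nat_lit 21) (.exp (.alt (nat_lit 23) (.exp (.alt (nat_lit 31) (.exp (.alt (nat_lit 27) (.exp (.alt (nat_lit 15) (.exp (.alt (nat_lit 29) (.cov (nat_lit 404343406732472635883521)) (.alt (nat_lit 29) (.exp (.alt (nat_lit 28) (.cov (nat_lit 1604866745407859851264)) (.alt (nat_lit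 25) (.cov (nat_lit 21801992200)) .e))) .e))) .e)) .e)) .e)) .e)) (.alt (nat_lit 21) (.cov (nat_lit 804739639044666818563)) (.alt (nat_lit 21) (.exp (.alt (nat_lit 23) (.exp (.alt (nat_lit 29) (.cov (nat_lit 10138791744497987354626)) (.alt (nat_lit 29) (.cov (nat_lit 404308819225872895574017)) (.alt (nat_lit 29) (.exp (.alt (nat_lit 25) (.cov (nat_lit 350181460298013794631683)) (.alt (nat_lit 28) (.exp (.alt (nat_lit 24) (.exp (.alt (nat_lit 30) (.cov (nat_lit 32281810925112000513)) (.alt (nat_lit 12) (.cov (nat_lit 3470786575)) .e))) .e)) (.alt (nat_lit 28) (.exp (.alt (nat_lit 30) (.cov (nat_lit 32281810925112000514)) (.alt (nat_lit 24) (.cov (nat_lit 20663238723)) .e))) .e)))) .e)))) .e)) (.alt (nat_lit 4) (.cov (nat_lit 166241243018)) .e))))) .e))))) .e)) (.alt (nat_lit 16) (.cov (nat_lit 2973772505)) .e)))))) .e)))))) .e)) (.alt (nat_lit 1) (.cov (nat_lit 156540876038)) .e))))))) .e))))))) .e)) .e)) .e)) .e))) .e)]),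
   ([1, 15, 7], [.cov (nat_lit 826508650742251894180365104840704), .cov (nat_lit 826508660437270283511746728558592), .cov (nat_lit 9263990770224636598747028994916352), .cov (nat_lit 826508650742251894180365104840704), .cov (nat_lit 826508660437270283511746728558592), .cov (nat_lit 9263990770230982283425289963831296), .cov (nat_lit 826508650742251894180365104840704), .cov (nat_lit 826508660437270283511746728558592), .cov (nat_lit 9263990770224636601075794622545920), .cov (nat_lit 826508650742251894180365104840704), .cov (nat_lit 826508660437270283511746728558592), .cov (nat_lit 9263990770224636601077993645801472), .cov (nat_lit 826508650742251894180365104840704), .cov (nat_lit 826508660437270283511746728558592), .cov (nat_lit 9263990770224636601080192669057024), .cov (nat_lit 826508650742251894180365104840704), .cov (nat_lit 826508660437270283511746728558592), .exp (.alt (nat_lit 0) (.rot (.exp (.alt (nat_lit 3) (.exp (.alt (nat_lit 1) (.exp (.alt (nat_lit 9) (.exp (.alt (nat_lit 17) (.exp (.alt (nat_lit 2)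 (.exp (.alt (nat_lit 6) (.exp (.alt (nat_lit 10) (.exp (.alt (nat_lit 5) (.cov (nat_lit 122211583890025349138)) (.alt (nat_lit 5) (.cov (nat_lit 343877288934537404874763)) (.alt (nat_lit 5) (.cov (nat_lit 638730456447507759106)) (.alt (nat_lit 5) (.cov (nat_lit 45427428568259321921537)) (.alt (nat_lit 5) (.exp (.alt (nat_lit 21) (.cov (nat_lit 25523377625783952474146)) (.alt (nat_lit 4) (.cov (nat_lit 25428840147084621381639)) (.alt (nat_lit 4) (.cov (nat_lit 24026892897170550161411)) (.alt (nat_lit 4) (.exp (.alt (nat_lit 12) (.exp (.alt (nat_lit 20) (.cov (nat_lit 10173379499587553722379)) (.alt (nat_lit 20) (.exp (.alt (nat_lit 28) (.exp (.alt (nat_lit 24) (.exp (.alt (nat_lit 29) (.exp (.alt (nat_lit 22) (.cov (nat_lit 365372354042550965764099)) (.alt (nat_lit 22) (.exp (.alt (nat_lit 18) (.exp (.alt (nat_lit 30) (.cov (nat_lit 2875386241285584060417)) (.alt (nat_lit 30) (.exp (.alt (nat_lit 31) (.cov (nat_lit 22862433447348907540480)) (.alt (nat_lit 14) (.cov (nat_lit 174767210504)) .e))) .e))) .e))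 (.alt (nat_lit 21) (.cov (nat_lit 10560209091)) .e)))) .e)) .e)) .e)) (.alt (nat_lit 20) (.cov (nat_lit 404329577306115914334209)) (.alt (nat_lit 20) (.exp (.alt (nat_lit 28) (.exp (.alt (nat_lit 24) (.exp (.alt (nat_lit 26) (.exp (.alt (nat_lit 18) (.exp (.alt (nat_lit 30) (.exp (.alt (nat_lit 29) (.cov (nat_lit 2875386241285616566273)) (.alt (nat_lit 29) (.exp (.alt (nat_lit 31) (.cov (nat_lit 2856939499410898812928)) (.alt (nat_lit 13) (.cov (nat_lit 174767210504)) .e))) .e))) .e)) .e)) .e)) .e)) (.alt (nat_lit 21) (.cov (nat_lit 23222145374600844804099)) (.alt (nat_lit 21) (.exp (.alt (nat_lit 29) (.exp (.alt (nat_lit 23) (.cov (nat_lit 6389491011562933059586)) (.alt (nat_lit 23) (.cov (nat_lit 6712309142757594628097)) (.alt (nat_lit 23) (.exp (.alt (nat_lit 19) (.cov (nat_lit 262866120663211442179)) (.alt (nat_lit 31) (.exp (.alt (nat_lit 15) (.exp (.alt (nat_lit 27) (.cov (nat_lit 2863857026239527124993)) (.alt (nat_lit 27) (.exp (.alt (nat_lit 26) (.cov (nat_lit 2845410284364839780352)) (.alt (nat_lit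 25) (.cov (nat_lit 11567890440)) .e))) .e))) .e)) (.alt (nat_lit 19) (.cov (nat_lit 162529897)) .e)))) .e)))) .e)) (.alt (nat_lit 16) (.cov (nat_lit 19553849226)) .e))))) .e))))) .e)) (.alt (nat_lit 4) (.cov (nat_lit 158188185261)) .e)))))) .e)))))) .e)) .e)) .e)) .e)) .e)) .e)) (.alt (nat_lit 3) (.exp (.alt (nat_lit 1) (.exp (.alt (nat_lit 9) (.exp (.alt (nat_lit 17) (.exp (.alt (nat_lit 16) (.exp (.alt (nat_lit 20) (.exp (.alt (nat_lit 18) (.exp (.alt (nat_lit 5) (.cov (nat_lit 22756366562331672444946)) (.alt (nat_lit 5) (.cov (nat_lit 344232388758003684212747)) (.alt (nat_lit 5) (.cov (nat_lit 10138803654454326329346)) (.alt (nat_lit 5) (.cov (nat_lit 2833896502063960948737)) (.alt (nat_lit 5) (.exp (.alt (nat_lit 13) (.cov (nat_lit 82085706641795670081570)) (.alt (nat_lit 4) (.cov (nat_lit 3864596324917075509255)) (.alt (nat_lit 4) (.cov (nat_lit 22827854532335902916611)) (.alt (nat_lit 4) (.exp (.alt (nat_lit 6) (.exp (.alt (nat_lit 12) (.cov (nat_lit 8886719100446117462027)) (.alt (nat_lit 12) (.exp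 (.alt (nat_lit 14) (.exp (.alt (nat_lit 10) (.exp (.alt (nat_lit 15) (.exp (.alt (nat_lit 28) (.cov (nat_lit 25302015357694074945539)) (.alt (nat_lit 28) (.exp (.alt (nat_lit 24) (.exp (.alt (nat_lit 30) (.cov (nat_lit 1621007644273342939137)) (.alt (nat_lit 30) (.exp (.alt (nat_lit 31) (.cov (nat_lit 1611784274435512467456)) (.alt (nat_lit 22) (.cov (nat_lit 124780552)) .e))) .e))) .e)) (.alt (nat_lit 13) (.cov (nat_lit 63963331)) .e)))) .e)) .e)) .e)) (.alt (nat_lit 12) (.cov (nat_lit 384199567835680351453185)) (.alt (nat_lit 12) (.exp (.alt (nat_lit 14) (.exp (.alt (nat_lit 10) (.exp (.alt (nat_lit 26) (.exp (.alt (nat_lit 24) (.exp (.alt (nat_lit 30) (.exp (.alt (nat_lit 15) (.cov (nat_lit 1621007644429690863617)) (.alt (nat_lit 15) (.exp (.alt (nat_lit 31) (.cov (nat_lit 214443410852013932544)) (.alt (nat_lit 7) (.cov (nat_lit 124780552)) .e))) .e))) .e)) .e)) .e)) .e)) (.alt (nat_lit 13) (.cov (nat_lit 140656852371753664515)) (.alt (nat_lit 13) (.exp (.alt (nat_lit 15) (.exp (.alt (nat_lit 29) (.cov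 (nat_lit 10166461860611443654658)) (.alt (nat_lit 29) (.cov (nat_lit 6638522166462762713089)) (.alt (nat_lit 29) (.exp (.alt (nat_lit 25) (.cov (nat_lit 406842940563257650315267)) (.alt (nat_lit 31) (.exp (.alt (nat_lit 23) (.exp (.alt (nat_lit 27) (.cov (nat_lit 1609478429227262935041)) (.alt (nat_lit 27) (.exp (.alt (nat_lit 26) (.cov (nat_lit 202914195805931831296)) (.alt (nat_lit 11) (.cov (nat_lit 1755316232)) .e))) .e))) .e)) (.alt (nat_lit 25) (.cov (nat_lit 10463740521)) .e)))) .e)))) .e)) (.alt (nat_lit 8) (.cov (nat_lit 19136515978)) .e))))) .e))))) .e)) (.alt (nat_lit 4) (.cov (nat_lit 11582580397)) .e)))))) .e)))))) .e)) .e)) .e)) .e)) .e)) .e)) .e)))) .e)]),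
   ([1, 14, 8], [.cov (nat_lit 47719440268546679031782788734910464), .cov (nat_lit 14294030378118996610869142839361536), .cov (nat_lit 15212885564581394038231970873344), .cov (nat_lit 47719440268546679031782788734910464), .cov (nat_lit 14294030378118996610869142839361536), .cov (nat_lit 15212885564581396978326063546368), .cov (nat_lit 47719440268546679031782788734910464), .cov (nat_lit 14294030378118996610869142839361536), .cov (nat_lit 15212885564581396980525086801920), .cov (nat_lit 47719440268546679031782788734910464), .cov (nat_lit 14294030378118996610869142839361536), .cov (nat_lit 15212885564581406957493597241344), .cov (nat_lit 47719440268546679031782788734910464), .cov (nat_lit 14294030378118996610869142839361536), .exp (.alt (nat_lit 0) (.rot (.exp (.alt (nat_lit 3) (.cov (nat_lit 47242860099667969901864144377741314)) (.alt (nat_lit 3) (.cov (nat_lit 55842601819973292499469867313790977)) (.alt (nat_lit 3) (.cov (nat_lit 100301643666341681855439843422633984)) (.alt (nat_lit 3) (.cov (nat_lit 45611906746827240636510))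 .e)))))) .e)]),
   ([1, 11, 11], [.cov (nat_lit 47232693903951199780178369473150976), .cov (nat_lit 47232693903951199780178369473150976), .cov (nat_lit 47232693903951199780178369473150976), .cov (nat_lit 47232693903951199780178369473150976), .cov (nat_lit 826516629672510034001561412173824), .cov (nat_lit 14294054445385141410332232034287616), .cov (nat_lit 14294054445385141410332232034287616), .cov (nat_lit 14294054445385141410332232034287616), .cov (nat_lit 826516629672510034001561412173824), .cov (nat_lit 826521958596641178147789188628480), .cov (nat_lit 14294054445385141410334431057543168), .cov (nat_lit 14294054445385141410334431057543168), .cov (nat_lit 826516629672510034001561412173824), .cov (nat_lit 826521958596641178147789188628480), .cov (nat_lit 826521963432344456606305887453184), .exp (.alt (nat_lit 0) (.exp (.alt (nat_lit 5) (.cov (nat_lit 14131806721051097171588765163978763)) (.alt (nat_lit 5) (.cov (nat_lit 800440256998352774531501284570169350)) (.alt (nat_lit 5) (.cov (nat_lit 759388660444132342800377528940756994))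 (.alt (nat_lit 5) (.cov (nat_lit 48206249574598292342471977201565697)) (.alt (nat_lit 5) (.cov (nat_lit 55670176308743656585002150433652736)) (.alt (nat_lit 5) (.exp (.alt (nat_lit 1) (.cov (nat_lit 14456325332738322951392354827763719)) (.alt (nat_lit 1) (.cov (nat_lit 229936633341744815718666578227625987)) (.alt (nat_lit 1) (.cov (nat_lit 63783140135703034866534145711931393)) (.alt (nat_lit 1) (.exp (.alt (nat_lit 9) (.exp (.alt (nat_lit 17) (.cov (nat_lit 1313318981990418214170302404886530)) (.alt (nat_lit 17) (.cov (nat_lit 17052468413717929237273411719266305)) (.alt (nat_lit 17) (.cov (nat_lit 894550637501268085957112130963505152)) (.alt (nat_lit 17) (.exp (.alt (nat_lit 16) (.cov (nat_lit 664281545845370584693774368112643)) (.alt (nat_lit 16) (.cov (nat_lit 58590843277160475746325586155405313)) (.alt (nat_lit 16) (.cov (nat_lit 17052473549234439719502458558349312)) (.alt (nat_lit 16) (.exp (.alt (nat_lit 18) (.cov (nat_lit 50802403129710823916608115861094401)) (.alt (nat_lit 18) (.cov (nat_lit 26644030766492892004363))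 .e))) .e))))) .e))))) .e)) (.alt (nat_lit 1) (.cov (nat_lit 25315865199782696845816)) .e)))))) .e))))))) .e)]),
   ([1, 8, 14], [.cov (nat_lit 770097797198027119744153179048116224), .cov (nat_lit 770097797198027119744153179048116224), .cov (nat_lit 770097797198027119744153179048116224), .cov (nat_lit 770097797198027119744153179048116224), .cov (nat_lit 770097797198027119744153179048116224), .cov (nat_lit 770097797198026086727001821778280448), .cov (nat_lit 770097797198026086727001821778280448), .cov (nat_lit 770097797198026086727001821778280448), .cov (nat_lit 770097797198026086727001821778280448), .cov (nat_lit 770097797198026086727001821778280448), .cov (nat_lit 826542839163176189634900014399488), .cov (nat_lit 826549304498459488671726343028736), .cov (nat_lit 826549309334162767130243041853440), .cov (nat_lit 826571248919937133420505609535488), .exp (.alt (nat_lit 0) (.exp (.alt (nat_lit 5) (.cov (nat_lit 3098195597319744900947496359952386)) (.alt (nat_lit 5) (.cov (nat_lit 6505640459090239870022722796912641))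 (.alt (nat_lit 5) (.cov (nat_lit 889520624958834029103430804456865792)) (.alt (nat_lit 5) (.cov (nat_lit 404507147758901851586654)) .e))))) .e)]),
   ([1, 7, 15], [.cov (nat_lit 47719501101664849945296627094781952), .cov (nat_lit 47719501101664849945296627094781952), .cov (nat_lit 47719501101664849945296627094781952), .cov (nat_lit 47719501101664849945296627094781952), .cov (nat_lit 47719501101664849945296627094781952), .cov (nat_lit 47719501101664849945296627094781952), .cov (nat_lit 6181126233386228917057054507532288), .cov (nat_lit 6181126233386228917057054507532288), .cov (nat_lit 6181126233386228917057054507532288), .cov (nat_lit 6181126233386228917057054507532288), .cov (nat_lit 6181126233386228917057054507532288), .cov (nat_lit 6181126233386228917057054507532288), .cov (nat_lit 15260120777440799841583691202560), .cov (nat_lit 13969568300673322345035611554971648), .cov (nat_lit 15265241787212687410767746564096), .cov (nat_lit 15265246622915965869284445388800), .cov (nat_lit 15265251458619244327801144213504),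 .exp (.alt (nat_lit 0) (.exp (.alt (nat_lit 5) (.exp (.alt (nat_lit 1) (.exp (.alt (nat_lit 9) (.exp (.alt (nat_lit 17) (.exp (.alt (nat_lit 4) (.exp (.alt (nat_lit 6) (.exp (.alt (nat_lit 12) (.exp (.alt (nat_lit 3) (.cov (nat_lit 1371978494840895701010)) (.alt (nat_lit 3) (.cov (nat_lit 22751756413382933086219)) (.alt (nat_lit 3) (.cov (nat_lit 6537076874016302563330)) (.alt (nat_lit 3) (.cov (nat_lit 404322669580333928677377)) (.alt (nat_lit 3) (.exp (.alt (nat_lit 19) (.cov (nat_lit 3087525146137394675746)) (.alt (nat_lit 2) (.cov (nat_lit 2992987667478326804487)) (.alt (nat_lit 2) (.cov (nat_lit 2697845061943879008259)) (.alt (nat_lit 2) (.exp (.alt (nat_lit 10) (.exp (.alt (nat_lit 18) (.cov (nat_lit 104616097470964714962955)) (.alt (nat_lit 18) (.exp (.alt (nat_lit 26) (.exp (.alt (nat_lit 24) (.exp (.alt (nat_lit 27) (.exp (.alt (nat_lit 22) (.cov (nat_lit 365372354042550967861251)) (.alt (nat_lit 22) (.exp (.alt (nat_lit 20) (.exp (.alt (nat_lit 30) (.cov (nat_lit 25306627034916398825473)) (.alt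 (nat_lit 30) (.exp (.alt (nat_lit 31) (.cov (nat_lit 2649413628581666357248)) (.alt (nat_lit 14) (.cov (nat_lit 19611516936)) .e))) .e))) .e)) (.alt (nat_lit 19) (.cov (nat_lit 156589097155)) .e)))) .e)) .e)) .e)) (.alt (nat_lit 18) (.cov (nat_lit 45429724608022875996161)) (.alt (nat_lit 18) (.exp (.alt (nat_lit 26) (.exp (.alt (nat_lit 24) (.exp (.alt (nat_lit 28) (.exp (.alt (nat_lit 20) (.exp (.alt (nat_lit 30) (.exp (.alt (nat_lit 27) (.cov (nat_lit 25306627034916999659521)) (.alt (nat_lit 27) (.exp (.alt (nat_lit 31) (.cov (nat_lit 25288180293041713577984)) (.alt (nat_lit 11) (.cov (nat_lit 19611516936)) .e))) .e))) .e)) .e)) .e)) .e)) (.alt (nat_lit 19) (.cov (nat_lit 344343066209736549466115)) (.alt (nat_lit 19) (.exp (.alt (nat_lit 27) (.exp (.alt (nat_lit 23) (.cov (nat_lit 491144593994303930370)) (.alt (nat_lit 23) (.cov (nat_lit 809351039170540208129)) (.alt (nat_lit 23) (.exp (.alt (nat_lit 21) (.cov (nat_lit 267477806844849684483)) (.alt (nat_lit 31) (.exp (.alt (nat_lit 15) (.exp (.alt (nat_lit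 29) (.cov (nat_lit 25299709505888769277953)) (.alt (nat_lit 29) (.exp (.alt (nat_lit 28) (.cov (nat_lit 25281262764014081933312)) (.alt (nat_lit 25) (.cov (nat_lit 1367343112)) .e))) .e))) .e)) (.alt (nat_lit 21) (.cov (nat_lit 2345665129)) .e)))) .e)))) .e)) (.alt (nat_lit 16) (.cov (nat_lit 174709542794)) .e))))) .e))))) .e)) (.alt (nat_lit 2) (.cov (nat_lit 12157200045)) .e)))))) .e)))))) .e)) .e)) .e)) .e)) .e)) .e)) (.alt (nat_lit 5) (.exp (.alt (nat_lit 1) (.exp (.alt (nat_lit 9) (.exp (.alt (nat_lit 17) (.exp (.alt (nat_lit 16) (.exp (.alt (nat_lit 18) (.exp (.alt (nat_lit 20) (.exp (.alt (nat_lit 3) (.cov (nat_lit 343872675711406169915410)) (.alt (nat_lit 3) (.cov (nat_lit 23111467922824857911307)) (.alt (nat_lit 3) (.cov (nat_lit 104581521625828803215362)) (.alt (nat_lit 3) (.cov (nat_lit 25260525609676348325889)) (.alt (nat_lit 3) (.exp (.alt (nat_lit 11) (.cov (nat_lit 5347251295164101034018)) (.alt (nat_lit 2) (.cov (nat_lit 3859984638898648121351)) (.alt (nat_lit 2) (.cov (nat_lit 2605611341531806957571))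 (.alt (nat_lit 2) (.exp (.alt (nat_lit 6) (.exp (.alt (nat_lit 10) (.cov (nat_lit 103334048757839187410955)) (.alt (nat_lit 10) (.exp (.alt (nat_lit 14) (.exp (.alt (nat_lit 12) (.exp (.alt (nat_lit 15) (.exp (.alt (nat_lit 26) (.cov (nat_lit 2866162878045000564739)) (.alt (nat_lit 26) (.exp (.alt (nat_lit 24) (.exp (.alt (nat_lit 30) (.cov (nat_lit 1621007644273342939137)) (.alt (nat_lit 30) (.exp (.alt (nat_lit 31) (.cov (nat_lit 214443410852013932544)) (.alt (nat_lit 22) (.cov (nat_lit 124780552)) .e))) .e))) .e)) (.alt (nat_lit 11) (.cov (nat_lit 632291523)) .e)))) .e)) .e)) .e)) (.alt (nat_lit 10) (.cov (nat_lit 43003977762330057375745)) (.alt (nat_lit 10) (.exp (.alt (nat_lit 14) (.exp (.alt (nat_lit 12) (.exp (.alt (nat_lit 28) (.exp (.alt (nat_lit 24) (.exp (.alt (nat_lit 30) (.exp (.alt (nat_lit 15) (.cov (nat_lit 1621007644429690863617)) (.alt (nat_lit 15) (.exp (.alt (nat_lit 31) (.cov (nat_lit 1611784274435512467456)) (.alt (nat_lit 7) (.cov (nat_lit 124780552)) .e))) .e))) .e)) .e)) .e)) .e))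 (.alt (nat_lit 11) (.cov (nat_lit 1390423763365408014339)) (.alt (nat_lit 11) (.exp (.alt (nat_lit 15) (.exp (.alt (nat_lit 27) (.cov (nat_lit 104613791518004347928578)) (.alt (nat_lit 27) (.cov (nat_lit 735564062875706195969)) (.alt (nat_lit 27) (.exp (.alt (nat_lit 25) (.cov (nat_lit 47943087865174816718851)) (.alt (nat_lit 31) (.exp (.alt (nat_lit 23) (.exp (.alt (nat_lit 29) (.cov (nat_lit 1614090115245692420097)) (.alt (nat_lit 29) (.exp (.alt (nat_lit 28) (.cov (nat_lit 1604866745407859851264)) (.alt (nat_lit 13) (.cov (nat_lit 1757413384)) .e))) .e))) .e)) (.alt (nat_lit 25) (.cov (nat_lit 156494725737)) .e)))) .e)))) .e)) (.alt (nat_lit 8) (.cov (nat_lit 166241243018)) .e))))) .e))))) .e)) (.alt (nat_lit 2) (.cov (nat_lit 11582580397)) .e)))))) .e)))))) .e)) .e)) .e)) .e)) .e)) .e)) .e))) .e)]),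
   ([1, 4, 18], [.cov (nat_lit 230098937058681006126616463640887296), .cov (nat_lit 230098937058681006126616463640887296), .cov (nat_lit 230098937058681006126616463640887296), .cov (nat_lit 230098937058681006126616463640887296), .cov (nat_lit 230098937058681006126616463640887296), .cov (nat_lit 230098937058681006126616463640887296), .cov (nat_lit 230098937058681006126616463640887296), .cov (nat_lit 15277640467773512105096174895104), .cov (nat_lit 15282621242150324377295964340224), .cov (nat_lit 15283501340147003827335150436352), .cov (nat_lit 15283506175850282285851849261056), .cov (nat_lit 15283849510783052840537465815040), .exp (.alt (nat_lit 0) (.exp (.alt (nat_lit 5) (.exp (.alt (nat_lit 1) (.exp (.alt (nat_lit 9) (.exp (.alt (nat_lit 17) (.exp (.alt (nat_lit 3) (.exp (.alt (nat_lit 2) (.cov (nat_lit 14375165374465536923053573726535683)) (.alt (nat_lit 2) (.cov (nat_lit 846791727719250373839097750880258)) (.alt (nat_lit 2) (.cov (nat_lit 14375165374465103424587632589406209)) (.alt (nat_lit 2) (.cov (nat_lit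 14375165374465103424631613054517248)) (.alt (nat_lit 2) (.cov (nat_lit 21866310362492141830240)) .e)))))) (.alt (nat_lit 3) (.cov (nat_lit 104634547517968666853601)) (.alt (nat_lit 3) (.exp (.alt (nat_lit 2) (.cov (nat_lit 14375177018839843107894430646927363)) (.alt (nat_lit 2) (.cov (nat_lit 14375177018838597952678251173249025)) (.alt (nat_lit 2) (.cov (nat_lit 14375177018838597952695843359293440)) (.alt (nat_lit 2) (.exp (.alt (nat_lit 6) (.cov (nat_lit 867097634322531364402954284040193)) (.alt (nat_lit 6) (.cov (nat_lit 3050639079701059993611)) .e))) .e))))) (.alt (nat_lit 3) (.cov (nat_lit 6537076874019087581220)) (.alt (nat_lit 3) (.cov (nat_lit 405577048177349130977296)) (.alt (nat_lit 3) (.cov (nat_lit 104634556036984557535250)) (.alt (nat_lit 3) (.cov (nat_lit 6537077115908894228491)) (.alt (nat_lit 3) (.cov (nat_lit 23173744017325912227846)) (.alt (nat_lit 3) (.cov (nat_lit 42083966949327253798915)) (.alt (nat_lit 3) (.cov (nat_lit 104634568309733506154498)) (.alt (nat_lit 3) (.cov (nat_lit 104655324835266908127233))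 (.alt (nat_lit 3) (.cov (nat_lit 1639484956969306947584)) (.alt (nat_lit 3) (.exp (.alt (nat_lit 2) (.exp (.alt (nat_lit 6) (.cov (nat_lit 1064830696769559667756724108918786)) (.alt (nat_lit 6) (.cov (nat_lit 212976113477269581226532768055297)) (.alt (nat_lit 6) (.cov (nat_lit 105356980873888134612713012140703744)) (.alt (nat_lit 6) (.exp (.alt (nat_lit 4) (.cov (nat_lit 889109854988118279736809410986508291)) (.alt (nat_lit 4) (.cov (nat_lit 50026567475126004149593228766609409)) (.alt (nat_lit 4) (.cov (nat_lit 50026567475126004149610820952653824)) (.alt (nat_lit 4) (.exp (.alt (nat_lit 12) (.cov (nat_lit 4147759176089747336180485765201921)) (.alt (nat_lit 12) (.cov (nat_lit 25350441009777752408075)) .e))) .e))))) .e))))) (.alt (nat_lit 2) (.cov (nat_lit 391999055436867174438)) (.alt (nat_lit 2) (.cov (nat_lit 6359522762172437364833)) (.alt (nat_lit 2) (.exp (.alt (nat_lit 6) (.cov (nat_lit 756178955400628342635229299720847361)) (.alt (nat_lit 6) (.cov (nat_lit 21495077279604790001675)) .e))) (.alt (nat_lit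 2) (.cov (nat_lit 2845419005691660599331)) (.alt (nat_lit 2) (.cov (nat_lit 21587314203950611169295)) (.alt (nat_lit 2) (.cov (nat_lit 410464684701114171399)) (.alt (nat_lit 2) (.cov (nat_lit 7835274705953349435398)) (.alt (nat_lit 2) (.cov (nat_lit 104643789216665290407939)) (.alt (nat_lit 2) (.cov (nat_lit 382791723054020952066)) (.alt (nat_lit 2) (.cov (nat_lit 6368764533436690989057)) (.alt (nat_lit 2) (.cov (nat_lit 392023616305819025408)) (.alt (nat_lit 2) (.exp (.alt (nat_lit 6) (.cov (nat_lit 102301034007815308443742)) (.alt (nat_lit 6) (.cov (nat_lit 378158765886440210468)) (.alt (nat_lit 6) (.cov (nat_lit 404311130548848260284434)) (.alt (nat_lit 6) (.cov (nat_lit 41625089199752244887563)) (.alt (nat_lit 6) (.cov (nat_lit 747107998183435796486)) (.alt (nat_lit 6) (.cov (nat_lit 25539537330696263565315)) (.alt (nat_lit 6) (.cov (nat_lit 378173732435924090882)) (.alt (nat_lit 6) (.cov (nat_lit 29081313806931399278593)) (.alt (nat_lit 6) (.cov (nat_lit 606462985353063038976)) (.alt (nat_lit 6) (.exp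 (.alt (nat_lit 4) (.cov (nat_lit 406815270858363320139980)) (.alt (nat_lit 4) (.exp (.alt (nat_lit 12) (.cov (nat_lit 3995638880042715508460959989497857)) (.alt (nat_lit 12) (.cov (nat_lit 1817007169785303138315)) .e))) (.alt (nat_lit 4) (.cov (nat_lit 1817007732731831910415)) (.alt (nat_lit 4) (.cov (nat_lit 25281271485340334424071)) (.alt (nat_lit 4) (.cov (nat_lit 25281271485340468641798)) (.alt (nat_lit 4) (.cov (nat_lit 102093517025437896671235)) (.alt (nat_lit 4) (.cov (nat_lit 6465603905703859191809)) (.alt (nat_lit 4) (.cov (nat_lit 415075900127962988544)) (.alt (nat_lit 4) (.cov (nat_lit 213921392)) .e)))))))))) .e))))))))))) .e)))))))))))))) .e)))))))))))))) .e)) .e)) .e)) .e)) .e), .exp (.alt (nat_lit 0) (.exp (.alt (nat_lit 5) (.exp (.alt (nat_lit 4) (.exp (.alt (nat_lit 6) (.exp (.alt (nat_lit 12) (.exp (.alt (nat_lit 3) (.cov (nat_lit 1846985895272885780705)) (.alt (nat_lit 3) (.cov (nat_lit 343872685747743858098195)) (.alt (nat_lit 3) (.cov (nat_lit 42083959101013099544587)) (.alt (nat_lit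 3) (.exp (.alt (nat_lit 1) (.exp (.alt (nat_lit 9) (.exp (.alt (nat_lit 17) (.exp (.alt (nat_lit 19) (.cov (nat_lit 3087525146137394675746)) (.alt (nat_lit 2) (.cov (nat_lit 2992987667478326804487)) (.alt (nat_lit 2) (.cov (nat_lit 2697845061943879008259)) (.alt (nat_lit 2) (.exp (.alt (nat_lit 10) (.exp (.alt (nat_lit 18) (.cov (nat_lit 104616097470964714962955)) (.alt (nat_lit 18) (.exp (.alt (nat_lit 26) (.exp (.alt (nat_lit 24) (.exp (.alt (nat_lit 27) (.exp (.alt (nat_lit 22) (.cov (nat_lit 365372354042550967861251)) (.alt (nat_lit 22) (.exp (.alt (nat_lit 20) (.exp (.alt (nat_lit 30) (.cov (nat_lit 25306627034916398825473)) (.alt (nat_lit 30) (.exp (.alt (nat_lit 31) (.cov (nat_lit 2649413628581666357248)) (.alt (nat_lit 14) (.cov (nat_lit 19611516936)) .e))) .e))) .e)) (.alt (nat_lit 19) (.cov (nat_lit 156589097155)) .e)))) .e)) .e)) .e)) (.alt (nat_lit 18) (.cov (nat_lit 45429724608022875996161)) (.alt (nat_lit 18) (.exp (.alt (nat_lit 26) (.exp (.alt (nat_lit 24) (.exp (.alt (nat_lit 28) (.exp (.alt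 (nat_lit 20) (.exp (.alt (nat_lit 30) (.exp (.alt (nat_lit 27) (.cov (nat_lit 25306627034916999659521)) (.alt (nat_lit 27) (.exp (.alt (nat_lit 31) (.cov (nat_lit 25288180293041713577984)) (.alt (nat_lit 11) (.cov (nat_lit 19611516936)) .e))) .e))) .e)) .e)) .e)) .e)) (.alt (nat_lit 19) (.cov (nat_lit 344343066209736549466115)) (.alt (nat_lit 19) (.exp (.alt (nat_lit 27) (.exp (.alt (nat_lit 23) (.cov (nat_lit 491144593994303930370)) (.alt (nat_lit 23) (.cov (nat_lit 809351039170540208129)) (.alt (nat_lit 23) (.exp (.alt (nat_lit 21) (.cov (nat_lit 267477806844849684483)) (.alt (nat_lit 31) (.exp (.alt (nat_lit 15) (.exp (.alt (nat_lit 29) (.cov (nat_lit 25299709505888769277953)) (.alt (nat_lit 29) (.exp (.alt (nat_lit 28) (.cov (nat_lit 25281262764014081933312)) (.alt (nat_lit 25) (.cov (nat_lit 1367343112)) .e))) .e))) .e)) (.alt (nat_lit 21) (.cov (nat_lit 2345665129)) .e)))) .e)))) .e)) (.alt (nat_lit 16) (.cov (nat_lit 174709542794)) .e))))) .e))))) .e)) (.alt (nat_lit 2) (.cov (nat_lit 12157200045))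 .e)))))) .e)) .e)) .e)) (.alt (nat_lit 3) (.cov (nat_lit 43832985417394683905)) (.alt (nat_lit 3) (.exp (.alt (nat_lit 1) (.cov (nat_lit 406808356342043841134630)) (.alt (nat_lit 1) (.cov (nat_lit 404299604438822989856802)) (.alt (nat_lit 1) (.cov (nat_lit 39214772697976274951)) (.alt (nat_lit 1) (.cov (nat_lit 25569514899500891635715)) (.alt (nat_lit 1) (.exp (.alt (nat_lit 9) (.exp (.alt (nat_lit 17) (.cov (nat_lit 1976109363250464817170)) (.alt (nat_lit 17) (.cov (nat_lit 29129715841508200939531)) (.alt (nat_lit 17) (.exp (.alt (nat_lit 16) (.exp (.alt (nat_lit 20) (.exp (.alt (nat_lit 18) (.exp (.alt (nat_lit 19) (.exp (.alt (nat_lit 23) (.exp (.alt (nat_lit 31) (.exp (.alt (nat_lit 29) (.exp (.alt (nat_lit 15) (.exp (.alt (nat_lit 27) (.cov (nat_lit 45438942348361172254721)) (.alt (nat_lit 27) (.exp (.alt (nat_lit 26) (.cov (nat_lit 202914195805931831296)) (.alt (nat_lit 25) (.cov (nat_lit 185010749448)) .e))) .e))) .e)) .e)) .e)) .e)) (.alt (nat_lit 19) (.cov (nat_lit 800127953026239430659)) (.alt (nat_lit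 19) (.exp (.alt (nat_lit 23) (.exp (.alt (nat_lit 27) (.cov (nat_lit 104581509715872632012802)) (.alt (nat_lit 27) (.cov (nat_lit 45404354841761431945217)) (.alt (nat_lit 27) (.exp (.alt (nat_lit 25) (.cov (nat_lit 29065151148749748174851)) (.alt (nat_lit 26) (.exp (.alt (nat_lit 24) (.exp (.alt (nat_lit 30) (.cov (nat_lit 401216692399305129985)) (.alt (nat_lit 10) (.cov (nat_lit 46420459535)) .e))) .e)) (.alt (nat_lit 26) (.exp (.alt (nat_lit 30) (.cov (nat_lit 401216692399472902146)) (.alt (nat_lit 24) (.cov (nat_lit 183874093123)) .e))) .e)))) .e)))) .e)) (.alt (nat_lit 19) (.exp (.alt (nat_lit 27) (.cov (nat_lit 7625423079970821898242)) (.alt (nat_lit 27) (.exp (.alt (nat_lit 11) (.cov (nat_lit 43126181818917659344903)) (.alt (nat_lit 26) (.cov (nat_lit 347900982900941075251200)) .e))) .e))) .e))))) .e)) .e)) .e)) (.alt (nat_lit 17) (.cov (nat_lit 42116242686549951512577)) (.alt (nat_lit 17) (.exp (.alt (nat_lit 19) (.cov (nat_lit 3087525146137394675746)) (.alt (nat_lit 16) (.cov (nat_lit 1973805057358371487751))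 (.alt (nat_lit 16) (.cov (nat_lit 343888823475617633665027)) (.alt (nat_lit 16) (.exp (.alt (nat_lit 20) (.exp (.alt (nat_lit 18) (.cov (nat_lit 2633272863904170508299)) (.alt (nat_lit 18) (.exp (.alt (nat_lit 19) (.exp (.alt (nat_lit 23) (.exp (.alt (nat_lit 27) (.exp (.alt (nat_lit 26) (.cov (nat_lit 350142260966691805593603)) (.alt (nat_lit 26) (.exp (.alt (nat_lit 24) (.exp (.alt (nat_lit 30) (.cov (nat_lit 401216692399305129985)) (.alt (nat_lit 10) (.cov (nat_lit 46420459535)) .e))) .e)) (.alt (nat_lit 26) (.exp (.alt (nat_lit 30) (.cov (nat_lit 401216692399472902146)) (.alt (nat_lit 24) (.cov (nat_lit 183874093123)) .e))) .e)))) .e)) .e)) .e)) (.alt (nat_lit 18) (.cov (nat_lit 6700785412075528650753)) (.alt (nat_lit 18) (.exp (.alt (nat_lit 19) (.exp (.alt (nat_lit 23) (.exp (.alt (nat_lit 31) (.exp (.alt (nat_lit 29) (.exp (.alt (nat_lit 15) (.exp (.alt (nat_lit 27) (.cov (nat_lit 45438942348361172254721)) (.alt (nat_lit 27) (.exp (.alt (nat_lit 26) (.cov (nat_lit 202914195805931831296)) (.alt (nat_lit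 25) (.cov (nat_lit 185010749448)) .e))) .e))) .e)) .e)) .e)) .e)) (.alt (nat_lit 19) (.cov (nat_lit 800127953026239430659)) (.alt (nat_lit 19) (.exp (.alt (nat_lit 23) (.exp (.alt (nat_lit 27) (.cov (nat_lit 104581509715872632012802)) (.alt (nat_lit 27) (.cov (nat_lit 45404354841761431945217)) (.alt (nat_lit 27) (.exp (.alt (nat_lit 25) (.cov (nat_lit 29065151148749748174851)) (.alt (nat_lit 26) (.exp (.alt (nat_lit 24) (.exp (.alt (nat_lit 30) (.cov (nat_lit 401216692399305129985)) (.alt (nat_lit 10) (.cov (nat_lit 46420459535)) .e))) .e)) (.alt (nat_lit 26) (.exp (.alt (nat_lit 30) (.cov (nat_lit 401216692399472902146)) (.alt (nat_lit 24) (.cov (nat_lit 183874093123)) .e))) .e)))) .e)))) .e)) (.alt (nat_lit 2) (.cov (nat_lit 19136515978)) .e))))) .e))))) .e)) (.alt (nat_lit 16) (.cov (nat_lit 287320793)) .e)))))) .e)))))) .e)) (.alt (nat_lit 1) (.cov (nat_lit 10511987974)) .e))))))) .e))))))) .e)) .e)) .e)) .e)) .e)]),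
   ([1, 1, 21], [.cov (nat_lit 826581181454102151841948618457088), .cov (nat_lit 826581186289805430300465317281792), .cov (nat_lit 826581302346684113304866089074688), .cov (nat_lit 826581374882233290182616571445248), .cov (nat_lit 826581379717936568641133270269952), .exp (.alt (nat_lit 0) (.cov (nat_lit 375885694917833392128)) .e), .exp (.alt (nat_lit 0) (.exp (.alt (nat_lit 5) (.exp (.alt (nat_lit 3) (.exp (.alt (nat_lit 1) (.cov (nat_lit 22488146871077498156420232115126279)) (.alt (nat_lit 1) (.cov (nat_lit 49986023052915417577204295410909187)) (.alt (nat_lit 1) (.cov (nat_lit 4066642405583365295690572538839041)) (.alt (nat_lit 1) (.exp (.alt (nat_lit 9) (.exp (.alt (nat_lit 17) (.cov (nat_lit 867086347425808545301225020588034)) (.alt (nat_lit 17) (.cov (nat_lit 180442481841209258786478288958128129)) (.alt (nat_lit 17) (.cov (nat_lit 1470493976213761130899011427893248)) (.alt (nat_lit 17) (.exp (.alt (nat_lit 16) (.cov (nat_lit 3255351427651753908891573907619843)) (.alt (nat_lit 16) (.cov (nat_lit 8447642904048463678220306181259265))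 (.alt (nat_lit 16) (.cov (nat_lit 846798729770092604113049155010560)) (.alt (nat_lit 16) (.exp (.alt (nat_lit 20) (.cov (nat_lit 47227598890920559169417875587858433)) (.alt (nat_lit 20) (.cov (nat_lit 3841543231850879647755)) .e))) .e))))) .e))))) .e)) (.alt (nat_lit 1) (.cov (nat_lit 1701723298643890405880)) .e)))))) (.alt (nat_lit 3) (.exp (.alt (nat_lit 1) (.cov (nat_lit 891787159236291497209698267956248582)) (.alt (nat_lit 1) (.cov (nat_lit 803355853683526999474449421016498179)) (.alt (nat_lit 1) (.cov (nat_lit 55665105841740876713924996134600705)) (.alt (nat_lit 1) (.cov (nat_lit 14126730973462477046748448480559104)) (.alt (nat_lit 1) (.cov (nat_lit 347762642906489132417247)) .e)))))) (.alt (nat_lit 3) (.cov (nat_lit 25260528512399171387847)) (.alt (nat_lit 3) (.cov (nat_lit 365471517465737885122792)) (.alt (nat_lit 3) (.cov (nat_lit 373562044218478690529)) (.alt (nat_lit 3) (.cov (nat_lit 7826052952397880229982)) (.alt (nat_lit 3) (.cov (nat_lit 7865256703591156023332)) (.alt (nat_lit 3) (.cov (nat_lit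 412775600856543264784)) (.alt (nat_lit 3) (.cov (nat_lit 6350313551845341003795)) (.alt (nat_lit 3) (.cov (nat_lit 373573254839027105803)) (.alt (nat_lit 3) (.cov (nat_lit 6537095622888411627526)) (.alt (nat_lit 3) (.cov (nat_lit 10184940017729615691779)) (.alt (nat_lit 3) (.exp (.alt (nat_lit 1) (.exp (.alt (nat_lit 9) (.exp (.alt (nat_lit 17) (.exp (.alt (nat_lit 2) (.exp (.alt (nat_lit 6) (.cov (nat_lit 1064830696769559667756724108918786)) (.alt (nat_lit 6) (.cov (nat_lit 212976113477269581226532768055297)) (.alt (nat_lit 6) (.cov (nat_lit 105356980873888134612713012140703744)) (.alt (nat_lit 6) (.exp (.alt (nat_lit 4) (.cov (nat_lit 889109854988118279736809410986508291)) (.alt (nat_lit 4) (.cov (nat_lit 50026567475126004149593228766609409)) (.alt (nat_lit 4) (.cov (nat_lit 50026567475126004149610820952653824)) (.alt (nat_lit 4) (.exp (.alt (nat_lit 12) (.cov (nat_lit 4147759176089747336180485765201921)) (.alt (nat_lit 12) (.cov (nat_lit 25350441009777752408075)) .e))) .e))))) .e))))) (.alt (nat_lit 2)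 (.cov (nat_lit 391999055436867174438)) (.alt (nat_lit 2) (.cov (nat_lit 6359522762172437364833)) (.alt (nat_lit 2) (.exp (.alt (nat_lit 6) (.cov (nat_lit 756178955400628342635229299720847361)) (.alt (nat_lit 6) (.cov (nat_lit 21495077279604790001675)) .e))) (.alt (nat_lit 2) (.cov (nat_lit 2845419005691660599331)) (.alt (nat_lit 2) (.cov (nat_lit 21587314203950611169295)) (.alt (nat_lit 2) (.cov (nat_lit 410464684701114171399)) (.alt (nat_lit 2) (.cov (nat_lit 7835274705953349435398)) (.alt (nat_lit 2) (.cov (nat_lit 104643789216665290407939)) (.alt (nat_lit 2) (.cov (nat_lit 382791723054020952066)) (.alt (nat_lit 2) (.cov (nat_lit 6368764533436690989057)) (.alt (nat_lit 2) (.cov (nat_lit 392023616305819025408)) (.alt (nat_lit 2) (.exp (.alt (nat_lit 6) (.cov (nat_lit 102301034007815308443742)) (.alt (nat_lit 6) (.cov (nat_lit 378158765886440210468)) (.alt (nat_lit 6) (.cov (nat_lit 404311130548848260284434)) (.alt (nat_lit 6) (.cov (nat_lit 41625089199752244887563)) (.alt (nat_lit 6) (.cov (nat_lit 747107998183435796486))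 (.alt (nat_lit 6) (.cov (nat_lit 25539537330696263565315)) (.alt (nat_lit 6) (.cov (nat_lit 378173732435924090882)) (.alt (nat_lit 6) (.cov (nat_lit 29081313806931399278593)) (.alt (nat_lit 6) (.cov (nat_lit 606462985353063038976)) (.alt (nat_lit 6) (.exp (.alt (nat_lit 4) (.cov (nat_lit 406815270858363320139980)) (.alt (nat_lit 4) (.exp (.alt (nat_lit 12) (.cov (nat_lit 3995638880042715508460959989497857)) (.alt (nat_lit 12) (.cov (nat_lit 1817007169785303138315)) .e))) (.alt (nat_lit 4) (.cov (nat_lit 1817007732731831910415)) (.alt (nat_lit 4) (.cov (nat_lit 25281271485340334424071)) (.alt (nat_lit 4) (.cov (nat_lit 25281271485340468641798)) (.alt (nat_lit 4) (.cov (nat_lit 102093517025437896671235)) (.alt (nat_lit 4) (.cov (nat_lit 6465603905703859191809)) (.alt (nat_lit 4) (.cov (nat_lit 415075900127962988544)) (.alt (nat_lit 4) (.cov (nat_lit 213921392)) .e)))))))))) .e))))))))))) .e)))))))))))))) .e)) .e)) .e)) (.alt (nat_lit 3) (.cov (nat_lit 2337557322612604929)) (.alt (nat_lit 3) (.cov (nat_lit 447366234467174711296))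 (.alt (nat_lit 3) (.exp (.alt (nat_lit 1) (.cov (nat_lit 20761413962456629752)) (.alt (nat_lit 1) (.cov (nat_lit 365340080970541579633606)) (.alt (nat_lit 1) (.exp (.alt (nat_lit 9) (.cov (nat_lit 92087242834305277326485615981625346)) (.alt (nat_lit 9) (.cov (nat_lit 230169887324087487282017680409755649)) (.alt (nat_lit 9) (.cov (nat_lit 86226498684715928246006451273728)) (.alt (nat_lit 9) (.exp (.alt (nat_lit 8) (.cov (nat_lit 92087242834305643955517483888148483)) (.alt (nat_lit 8) (.cov (nat_lit 230169887324088813141739182189707265)) (.alt (nat_lit 8) (.cov (nat_lit 230169887324088813141756774375751680)) (.alt (nat_lit 8) (.exp (.alt (nat_lit 12) (.cov (nat_lit 757025759367464675369827308295684097)) (.alt (nat_lit 12) (.cov (nat_lit 365358530916396434456587)) .e))) .e))))) .e))))) (.alt (nat_lit 1) (.cov (nat_lit 1865442460230925418534)) (.alt (nat_lit 1) (.cov (nat_lit 39214772698211156065)) (.alt (nat_lit 1) (.cov (nat_lit 1514960633980873867298)) (.alt (nat_lit 1) (.cov (nat_lit 43130815264269454540835))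 (.alt (nat_lit 1) (.cov (nat_lit 29111294153102734655503)) (.alt (nat_lit 1) (.cov (nat_lit 39229081742266597383)) (.alt (nat_lit 1) (.cov (nat_lit 6532481992933424234502)) (.alt (nat_lit 1) (.cov (nat_lit 408164101755090501635)) (.alt (nat_lit 1) (.cov (nat_lit 6532483745555126681602)) (.alt (nat_lit 1) (.cov (nat_lit 703313902492321841153)) (.alt (nat_lit 1) (.exp (.alt (nat_lit 9) (.exp (.alt (nat_lit 17) (.exp (.alt (nat_lit 16) (.cov (nat_lit 1749365396219631760201334099279875)) (.alt (nat_lit 16) (.cov (nat_lit 230027879044481184435951341418840066)) (.alt (nat_lit 16) (.cov (nat_lit 1749365396540748069370242590048257)) (.alt (nat_lit 16) (.cov (nat_lit 1749365396540748069414223055159296)) (.alt (nat_lit 16) (.cov (nat_lit 22032331059155500531808)) .e)))))) (.alt (nat_lit 17) (.cov (nat_lit 405831815491413344481)) (.alt (nat_lit 17) (.exp (.alt (nat_lit 16) (.cov (nat_lit 1749377040968406849738494917476355)) (.alt (nat_lit 16) (.cov (nat_lit 1749377040914242597460861173891073)) (.alt (nat_lit 16) (.cov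 (nat_lit 1749377040914242597478453359935488)) (.alt (nat_lit 16) (.exp (.alt (nat_lit 20) (.cov (nat_lit 230017761336039019640416090028244993)) (.alt (nat_lit 20) (.cov (nat_lit 348908643717671746011147)) .e))) .e))))) (.alt (nat_lit 17) (.cov (nat_lit 795527781074213011492)) (.alt (nat_lit 17) (.cov (nat_lit 345233136626223983624208)) (.alt (nat_lit 17) (.cov (nat_lit 405840334510625914898)) (.alt (nat_lit 17) (.cov (nat_lit 795528022966603350027)) (.alt (nat_lit 17) (.cov (nat_lit 110702239170553708550)) (.alt (nat_lit 17) (.cov (nat_lit 25352770074472705163267)) (.alt (nat_lit 17) (.cov (nat_lit 405852607256120524802)) (.alt (nat_lit 17) (.cov (nat_lit 412774074734246625281)) (.alt (nat_lit 17) (.cov (nat_lit 3073719308700239265792)) (.alt (nat_lit 17) (.exp (.alt (nat_lit 16) (.exp (.alt (nat_lit 20) (.cov (nat_lit 1744291418470566190809748793720834)) (.alt (nat_lit 20) (.cov (nat_lit 50067138919256852454137968468164609)) (.alt (nat_lit 20) (.cov (nat_lit 764819246727018855759897175089217536)) (.alt (nat_lit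 20) (.exp (.alt (nat_lit 4) (.cov (nat_lit 92122710817421352136308761932333059)) (.alt (nat_lit 4) (.cov (nat_lit 51040687955331221825769032944451585)) (.alt (nat_lit 4) (.cov (nat_lit 51040687955331221825786625130496000)) (.alt (nat_lit 4) (.exp (.alt (nat_lit 6) (.cov (nat_lit 759495116430483399147809915550040065)) (.alt (nat_lit 6) (.cov (nat_lit 42999363402302807343115)) .e))) .e))))) .e))))) (.alt (nat_lit 16) (.cov (nat_lit 104597656327821560119334)) (.alt (nat_lit 16) (.cov (nat_lit 10154940355338284564577)) (.alt (nat_lit 16) (.exp (.alt (nat_lit 20) (.cov (nat_lit 757030816603981726628093139565412353)) (.alt (nat_lit 20) (.cov (nat_lit 29039795605751801577483)) .e))) (.alt (nat_lit 16) (.cov (nat_lit 25585642762715730542627)) (.alt (nat_lit 16) (.cov (nat_lit 23150675764356115857423)) (.alt (nat_lit 16) (.cov (nat_lit 104611510271226564050951)) (.alt (nat_lit 16) (.cov (nat_lit 46137020829499654150)) (.alt (nat_lit 16) (.cov (nat_lit 415073514187904778243)) (.alt (nat_lit 16) (.cov (nat_lit 104602284053494568583170))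 (.alt (nat_lit 16) (.cov (nat_lit 10150347068547163750401)) (.alt (nat_lit 16) (.cov (nat_lit 104597680888691090784256)) (.alt (nat_lit 16) (.exp (.alt (nat_lit 20) (.cov (nat_lit 714814393896914649182)) (.alt (nat_lit 20) (.cov (nat_lit 104565369294195209011236)) (.alt (nat_lit 20) (.cov (nat_lit 41887949732676840194066)) (.alt (nat_lit 20) (.cov (nat_lit 41846450128636564471819)) (.alt (nat_lit 20) (.cov (nat_lit 525747069298929565702)) (.alt (nat_lit 20) (.cov (nat_lit 23990010828504669618179)) (.alt (nat_lit 20) (.cov (nat_lit 104565384260747480006658)) (.alt (nat_lit 20) (.cov (nat_lit 21555042224857910607873)) (.alt (nat_lit 20) (.cov (nat_lit 6689276843658787684352)) (.alt (nat_lit 20) (.exp (.alt (nat_lit 4) (.cov (nat_lit 384296408030429755474124)) (.alt (nat_lit 4) (.exp (.alt (nat_lit 6) (.cov (nat_lit 756189081441029591492426991335899137)) (.alt (nat_lit 6) (.cov (nat_lit 29025954678503645380619)) .e))) (.alt (nat_lit 4) (.cov (nat_lit 29025955241463715463183)) (.alt (nat_lit 4) (.cov (nat_lit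 404306521967860786397191)) (.alt (nat_lit 4) (.cov (nat_lit 404306521967855048589318)) (.alt (nat_lit 4) (.cov (nat_lit 6373362027005432823811)) (.alt (nat_lit 4) (.cov (nat_lit 102296439368624973545473)) (.alt (nat_lit 4) (.cov (nat_lit 6668522141115494694912)) (.alt (nat_lit 4) (.cov (nat_lit 341847664)) .e)))))))))) .e))))))))))) .e)))))))))))))) .e)))))))))))))) .e)) (.alt (nat_lit 1) (.cov (nat_lit 9452069)) .e)))))))))))))))) .e))))))))))))))))) .e)) .e), .exp (.alt (nat_lit 0) (.exp (.alt (nat_lit 5) (.exp (.alt (nat_lit 3) (.cov (nat_lit 7763785354920714043624)) (.alt (nat_lit 3) (.cov (nat_lit 1870047962549655175393)) (.alt (nat_lit 3) (.exp (.alt (nat_lit 1) (.exp (.alt (nat_lit 9) (.exp (.alt (nat_lit 17) (.exp (.alt (nat_lit 16) (.exp (.alt (nat_lit 20) (.exp (.alt (nat_lit 18) (.exp (.alt (nat_lit 11) (.cov (nat_lit 5347251295164101034018)) (.alt (nat_lit 2) (.cov (nat_lit 3859984638898648121351)) (.alt (nat_lit 2) (.cov (nat_lit 2605611341531806957571)) (.alt (nat_lit 2) (.exp (.alt (nat_lit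 6) (.exp (.alt (nat_lit 10) (.cov (nat_lit 103334048757839187410955)) (.alt (nat_lit 10) (.exp (.alt (nat_lit 14) (.exp (.alt (nat_lit 12) (.exp (.alt (nat_lit 15) (.exp (.alt (nat_lit 26) (.cov (nat_lit 2866162878045000564739)) (.alt (nat_lit 26) (.exp (.alt (nat_lit 24) (.exp (.alt (nat_lit 30) (.cov (nat_lit 1621007644273342939137)) (.alt (nat_lit 30) (.exp (.alt (nat_lit 31) (.cov (nat_lit 214443410852013932544)) (.alt (nat_lit 22) (.cov (nat_lit 124780552)) .e))) .e))) .e)) (.alt (nat_lit 11) (.cov (nat_lit 632291523)) .e)))) .e)) .e)) .e)) (.alt (nat_lit 10) (.cov (nat_lit 43003977762330057375745)) (.alt (nat_lit 10) (.exp (.alt (nat_lit 14) (.exp (.alt (nat_lit 12) (.exp (.alt (nat_lit 28) (.exp (.alt (nat_lit 24) (.exp (.alt (nat_lit 30) (.exp (.alt (nat_lit 15) (.cov (nat_lit 1621007644429690863617)) (.alt (nat_lit 15) (.exp (.alt (nat_lit 31) (.cov (nat_lit 1611784274435512467456)) (.alt (nat_lit 7) (.cov (nat_lit 124780552)) .e))) .e))) .e)) .e)) .e)) .e)) (.alt (nat_lit 11) (.cov (nat_lit 1390423763365408014339))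 (.alt (nat_lit 11) (.exp (.alt (nat_lit 15) (.exp (.alt (nat_lit 27) (.cov (nat_lit 104613791518004347928578)) (.alt (nat_lit 27) (.cov (nat_lit 735564062875706195969)) (.alt (nat_lit 27) (.exp (.alt (nat_lit 25) (.cov (nat_lit 47943087865174816718851)) (.alt (nat_lit 31) (.exp (.alt (nat_lit 23) (.exp (.alt (nat_lit 29) (.cov (nat_lit 1614090115245692420097)) (.alt (nat_lit 29) (.exp (.alt (nat_lit 28) (.cov (nat_lit 1604866745407859851264)) (.alt (nat_lit 13) (.cov (nat_lit 1757413384)) .e))) .e))) .e)) (.alt (nat_lit 25) (.cov (nat_lit 156494725737)) .e)))) .e)))) .e)) (.alt (nat_lit 8) (.cov (nat_lit 166241243018)) .e))))) .e))))) .e)) (.alt (nat_lit 2) (.cov (nat_lit 11582580397)) .e)))))) .e)) .e)) .e)) .e)) .e)) .e)) (.alt (nat_lit 3) (.cov (nat_lit 42028628678634873290763)) (.alt (nat_lit 3) (.exp (.alt (nat_lit 1) (.exp (.alt (nat_lit 9) (.exp (.alt (nat_lit 17) (.exp (.alt (nat_lit 2) (.exp (.alt (nat_lit 6) (.cov (nat_lit 3174204671212445751938557530865666)) (.alt (nat_lit 6) (.cov (nat_lit 47910809486913752268818))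 .e))) (.alt (nat_lit 2) (.exp (.alt (nat_lit 6) (.cov (nat_lit 756178955400628342635229299720847361)) (.alt (nat_lit 6) (.cov (nat_lit 21495077279604790001675)) .e))) (.alt (nat_lit 2) (.exp (.alt (nat_lit 6) (.exp (.alt (nat_lit 4) (.exp (.alt (nat_lit 12) (.exp (.alt (nat_lit 20) (.exp (.alt (nat_lit 10) (.cov (nat_lit 384167280540391447724043)) (.alt (nat_lit 10) (.exp (.alt (nat_lit 11) (.exp (.alt (nat_lit 15) (.exp (.alt (nat_lit 27) (.exp (.alt (nat_lit 26) (.cov (nat_lit 1383505823120589062147)) (.alt (nat_lit 26) (.exp (.alt (nat_lit 18) (.exp (.alt (nat_lit 30) (.cov (nat_lit 433498494528290553857)) (.alt (nat_lit 24) (.cov (nat_lit 297795599)) .e))) .e)) (.alt (nat_lit 26) (.exp (.alt (nat_lit 30) (.cov (nat_lit 433498494528458326018)) (.alt (nat_lit 18) (.cov (nat_lit 1197473859)) .e))) .e)))) .e)) .e)) .e)) (.alt (nat_lit 10) (.cov (nat_lit 428892427014272712705)) (.alt (nat_lit 10) (.exp (.alt (nat_lit 11) (.exp (.alt (nat_lit 15) (.exp (.alt (nat_lit 31) (.exp (.alt (nat_lit 23) (.exp (.alt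 (nat_lit 29) (.exp (.alt (nat_lit 27) (.cov (nat_lit 1609478429227271323649)) (.alt (nat_lit 27) (.exp (.alt (nat_lit 26) (.cov (nat_lit 2845410284364839780352)) (.alt (nat_lit 19) (.cov (nat_lit 119537672)) .e))) .e))) .e)) .e)) .e)) .e)) (.alt (nat_lit 11) (.cov (nat_lit 6555512104187927199747)) (.alt (nat_lit 11) (.exp (.alt (nat_lit 15) (.exp (.alt (nat_lit 27) (.cov (nat_lit 426580989690069909506)) (.alt (nat_lit 27) (.cov (nat_lit 205220175154596806657)) (.alt (nat_lit 27) (.exp (.alt (nat_lit 19) (.cov (nat_lit 21525044508613513576451)) (.alt (nat_lit 26) (.exp (.alt (nat_lit 18) (.exp (.alt (nat_lit 30) (.cov (nat_lit 433498494528290553857)) (.alt (nat_lit 24) (.cov (nat_lit 297795599)) .e))) .e)) (.alt (nat_lit 26) (.exp (.alt (nat_lit 30) (.cov (nat_lit 433498494528458326018)) (.alt (nat_lit 18) (.cov (nat_lit 1197473859)) .e))) .e)))) .e)))) .e)) (.alt (nat_lit 8) (.cov (nat_lit 19553849226)) .e))))) .e))))) .e)) .e)) .e)) .e)) (.alt (nat_lit 2) (.cov (nat_lit 104643789216665290407939)) (.alt (nat_lit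 2) (.exp (.alt (nat_lit 6) (.exp (.alt (nat_lit 10) (.cov (nat_lit 45397439069774109736981)) (.alt (nat_lit 10) (.cov (nat_lit 42077028868231071268875)) (.alt (nat_lit 10) (.cov (nat_lit 1388129432242936086530)) (.alt (nat_lit 10) (.cov (nat_lit 41675824888382270472193)) (.alt (nat_lit 10) (.exp (.alt (nat_lit 14) (.cov (nat_lit 175245432097643429922)) (.alt (nat_lit 8) (.cov (nat_lit 25438063519121476157447)) (.alt (nat_lit 8) (.cov (nat_lit 384190347564312690688003)) (.alt (nat_lit 8) (.exp (.alt (nat_lit 12) (.exp (.alt (nat_lit 24) (.cov (nat_lit 728646533851018952715)) (.alt (nat_lit 24) (.exp (.alt (nat_lit 28) (.exp (.alt (nat_lit 20) (.exp (.alt (nat_lit 29) (.exp (.alt (nat_lit 26) (.cov (nat_lit 45441248200166639403011)) (.alt (nat_lit 26) (.exp (.alt (nat_lit 18) (.exp (.alt (nat_lit 30) (.cov (nat_lit 2875386241285584060417)) (.alt (nat_lit 30) (.exp (.alt (nat_lit 31) (.cov (nat_lit 2856939499410898812928)) (.alt (nat_lit 14) (.cov (nat_lit 174767210504)) .e))) .e))) .e)) (.alt (nat_lit 25) (.cov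 (nat_lit 159277646019)) .e)))) .e)) .e)) .e)) (.alt (nat_lit 24) (.cov (nat_lit 25368890427863740710913)) (.alt (nat_lit 24) (.exp (.alt (nat_lit 28) (.exp (.alt (nat_lit 20) (.exp (.alt (nat_lit 22) (.exp (.alt (nat_lit 18) (.exp (.alt (nat_lit 30) (.exp (.alt (nat_lit 29) (.cov (nat_lit 2875386241285616566273)) (.alt (nat_lit 29) (.exp (.alt (nat_lit 31) (.cov (nat_lit 22862433447348907540480)) (.alt (nat_lit 13) (.cov (nat_lit 174767210504)) .e))) .e))) .e)) .e)) .e)) .e)) (.alt (nat_lit 25) (.cov (nat_lit 350255247685363348537347)) (.alt (nat_lit 25) (.exp (.alt (nat_lit 29) (.exp (.alt (nat_lit 27) (.cov (nat_lit 412745931681038336002)) (.alt (nat_lit 27) (.cov (nat_lit 102340230420867910205441)) (.alt (nat_lit 27) (.exp (.alt (nat_lit 19) (.cov (nat_lit 2992984243717712904195)) (.alt (nat_lit 31) (.exp (.alt (nat_lit 15) (.exp (.alt (nat_lit 23) (.cov (nat_lit 2854633654202668154881)) (.alt (nat_lit 23) (.exp (.alt (nat_lit 22) (.cov (nat_lit 22841680860265989537792)) (.alt (nat_lit 21) (.cov (nat_lit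 11563696136)) .e))) .e))) .e)) (.alt (nat_lit 19) (.cov (nat_lit 2440036969)) .e)))) .e)))) .e)) (.alt (nat_lit 16) (.cov (nat_lit 165544988554)) .e))))) .e))))) .e)) (.alt (nat_lit 8) (.cov (nat_lit 158188185261)) .e)))))) .e)))))) .e)) (.alt (nat_lit 2) (.cov (nat_lit 174076482)) .e))))))) .e)) .e)) .e)) (.alt (nat_lit 3) (.cov (nat_lit 2335778312798863361)) (.alt (nat_lit 3) (.exp (.alt (nat_lit 1) (.cov (nat_lit 25329687725604613390840)) (.alt (nat_lit 1) (.exp (.alt (nat_lit 9) (.exp (.alt (nat_lit 8) (.exp (.alt (nat_lit 12) (.exp (.alt (nat_lit 10) (.exp (.alt (nat_lit 13) (.exp (.alt (nat_lit 15) (.exp (.alt (nat_lit 29) (.exp (.alt (nat_lit 17) (.cov (nat_lit 6610852050353531125771)) (.alt (nat_lit 17) (.exp (.alt (nat_lit 19) (.exp (.alt (nat_lit 27) (.exp (.alt (nat_lit 23) (.exp (.alt (nat_lit 16) (.cov (nat_lit 26535641367623468318723)) (.alt (nat_lit 16) (.exp (.alt (nat_lit 24) (.exp (.alt (nat_lit 18) (.cov (nat_lit 25285874447834066976769)) (.alt (nat_lit 18) (.exp (.alt (nat_lit 22) (.cov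 (nat_lit 25304321194106199998464)) (.alt (nat_lit 2) (.cov (nat_lit 19602079752)) .e))) .e))) .e)) (.alt (nat_lit 21) (.cov (nat_lit 185040109763)) .e)))) .e)) .e)) .e)) (.alt (nat_lit 17) (.cov (nat_lit 553407962706560942081)) (.alt (nat_lit 17) (.exp (.alt (nat_lit 19) (.exp (.alt (nat_lit 27) (.exp (.alt (nat_lit 26) (.exp (.alt (nat_lit 24) (.exp (.alt (nat_lit 18) (.exp (.alt (nat_lit 23) (.cov (nat_lit 25285874447833468239873)) (.alt (nat_lit 23) (.exp (.alt (nat_lit 22) (.cov (nat_lit 2628661041498733674496)) (.alt (nat_lit 7) (.cov (nat_lit 19602079752)) .e))) .e))) .e)) .e)) .e)) .e)) (.alt (nat_lit 21) (.cov (nat_lit 406907504578732978339843)) (.alt (nat_lit 21) (.exp (.alt (nat_lit 23) (.exp (.alt (nat_lit 20) (.cov (nat_lit 1614090139455593644034)) (.alt (nat_lit 20) (.cov (nat_lit 45651080039349857812481)) (.alt (nat_lit 20) (.exp (.alt (nat_lit 28) (.cov (nat_lit 1826227681055591104515)) (.alt (nat_lit 22) (.exp (.alt (nat_lit 6) (.exp (.alt (nat_lit 30) (.cov (nat_lit 25295097819870952161281))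 (.alt (nat_lit 30) (.exp (.alt (nat_lit 26) (.cov (nat_lit 2637884413535610470400)) (.alt (nat_lit 31) (.cov (nat_lit 296747016)) .e))) .e))) .e)) (.alt (nat_lit 28) (.cov (nat_lit 157066199657)) .e)))) .e)))) .e)) (.alt (nat_lit 25) (.cov (nat_lit 1773145994)) .e))))) .e))))) .e)) .e)) .e)) .e)) .e)) .e)) (.alt (nat_lit 9) (.cov (nat_lit 39214772698112589844)) .e))) (.alt (nat_lit 1) (.cov (nat_lit 1514960633980873867298)) (.alt (nat_lit 1) (.exp (.alt (nat_lit 9) (.exp (.alt (nat_lit 8) (.exp (.alt (nat_lit 12) (.exp (.alt (nat_lit 10) (.exp (.alt (nat_lit 17) (.cov (nat_lit 350236802416831554912274)) (.alt (nat_lit 17) (.cov (nat_lit 22032331059145569468427)) (.alt (nat_lit 17) (.exp (.alt (nat_lit 16) (.exp (.alt (nat_lit 24) (.exp (.alt (nat_lit 20) (.exp (.alt (nat_lit 21) (.exp (.alt (nat_lit 29) (.exp (.alt (nat_lit 31) (.exp (.alt (nat_lit 27) (.exp (.alt (nat_lit 15) (.exp (.alt (nat_lit 23) (.cov (nat_lit 365370048190742774415361)) (.alt (nat_lit 23) (.exp (.alt (nat_lit 22) (.cov (nat_lit 22841680860265974857728))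 (.alt (nat_lit 19) (.cov (nat_lit 158160912392)) .e))) .e))) .e)) .e)) .e)) .e)) (.alt (nat_lit 21) (.cov (nat_lit 104682967204120981667843)) (.alt (nat_lit 21) (.exp (.alt (nat_lit 29) (.exp (.alt (nat_lit 23) (.cov (nat_lit 7763773445010761973762)) (.alt (nat_lit 23) (.cov (nat_lit 41853356607572336967681)) (.alt (nat_lit 23) (.exp (.alt (nat_lit 19) (.cov (nat_lit 350181460298013788340227)) (.alt (nat_lit 22) (.exp (.alt (nat_lit 18) (.exp (.alt (nat_lit 30) (.cov (nat_lit 6377961772281197756417)) (.alt (nat_lit 6) (.cov (nat_lit 3470786575)) .e))) .e)) (.alt (nat_lit 22) (.exp (.alt (nat_lit 30) (.cov (nat_lit 6377961772284083437570)) (.alt (nat_lit 18) (.cov (nat_lit 1335885891)) .e))) .e)))) .e)))) .e)) (.alt (nat_lit 21) (.exp (.alt (nat_lit 23) (.cov (nat_lit 8870578304935445659650)) (.alt (nat_lit 23) (.exp (.alt (nat_lit 7) (.cov (nat_lit 3871510430236735963143)) (.alt (nat_lit 22) (.cov (nat_lit 4348821272174381760512)) .e))) .e))) .e))))) .e)) .e)) .e)) (.alt (nat_lit 17) (.cov (nat_lit 25574124938450913198081))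 (.alt (nat_lit 17) (.exp (.alt (nat_lit 21) (.cov (nat_lit 365519929334342930661410)) (.alt (nat_lit 16) (.cov (nat_lit 350234498110949326585863)) (.alt (nat_lit 16) (.cov (nat_lit 1521865153586944540675)) (.alt (nat_lit 16) (.exp (.alt (nat_lit 24) (.exp (.alt (nat_lit 20) (.cov (nat_lit 1614090253787690172427)) (.alt (nat_lit 20) (.exp (.alt (nat_lit 21) (.exp (.alt (nat_lit 29) (.exp (.alt (nat_lit 23) (.exp (.alt (nat_lit 22) (.cov (nat_lit 23109158655934731386883)) (.alt (nat_lit 22) (.exp (.alt (nat_lit 18) (.exp (.alt (nat_lit 30) (.cov (nat_lit 6377961772281197756417)) (.alt (nat_lit 6) (.cov (nat_lit 3470786575)) .e))) .e)) (.alt (nat_lit 22) (.exp (.alt (nat_lit 30) (.cov (nat_lit 6377961772284083437570)) (.alt (nat_lit 18) (.cov (nat_lit 1335885891)) .e))) .e)))) .e)) .e)) .e)) (.alt (nat_lit 20) (.cov (nat_lit 7872153660756091469825)) (.alt (nat_lit 20) (.exp (.alt (nat_lit 21) (.exp (.alt (nat_lit 29) (.exp (.alt (nat_lit 31) (.exp (.alt (nat_lit 27) (.exp (.alt (nat_lit 15) (.exp (.alt (nat_lit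 23) (.cov (nat_lit 365370048190742774415361)) (.alt (nat_lit 23) (.exp (.alt (nat_lit 22) (.cov (nat_lit 22841680860265974857728)) (.alt (nat_lit 19) (.cov (nat_lit 158160912392)) .e))) .e))) .e)) .e)) .e)) .e)) (.alt (nat_lit 21) (.cov (nat_lit 104682967204120981667843)) (.alt (nat_lit 21) (.exp (.alt (nat_lit 29) (.exp (.alt (nat_lit 23) (.cov (nat_lit 7763773445010761973762)) (.alt (nat_lit 23) (.cov (nat_lit 41853356607572336967681)) (.alt (nat_lit 23) (.exp (.alt (nat_lit 19) (.cov (nat_lit 350181460298013788340227)) (.alt (nat_lit 22) (.exp (.alt (nat_lit 18) (.exp (.alt (nat_lit 30) (.cov (nat_lit 6377961772281197756417)) (.alt (nat_lit 6) (.cov (nat_lit 3470786575)) .e))) .e)) (.alt (nat_lit 22) (.exp (.alt (nat_lit 30) (.cov (nat_lit 6377961772284083437570)) (.alt (nat_lit 18) (.cov (nat_lit 1335885891)) .e))) .e)))) .e)))) .e)) (.alt (nat_lit 4) (.cov (nat_lit 11616128906)) .e))))) .e))))) .e)) (.alt (nat_lit 16) (.cov (nat_lit 188754649)) .e)))))) .e)))))) .e)) .e)) .e)) .e)) (.alt (nat_lit 1)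 (.cov (nat_lit 408156220455742603267)) (.alt (nat_lit 2) (.exp (.alt (nat_lit 6) (.exp (.alt (nat_lit 10) (.cov (nat_lit 348883271772180427309281)) (.alt (nat_lit 10) (.cov (nat_lit 6553217775080963047442)) (.alt (nat_lit 10) (.cov (nat_lit 59967359780864917515)) (.alt (nat_lit 10) (.exp (.alt (nat_lit 8) (.exp (.alt (nat_lit 9) (.exp (.alt (nat_lit 12) (.exp (.alt (nat_lit 26) (.cov (nat_lit 3161311550683463286818)) (.alt (nat_lit 11) (.cov (nat_lit 21534271304674462138375)) (.alt (nat_lit 11) (.cov (nat_lit 25297412386451205652483)) (.alt (nat_lit 11) (.cov (nat_lit 62273202790085951488)) (.alt (nat_lit 11) (.cov (nat_lit 10027542187)) .e)))))) .e)) .e)) .e)) (.alt (nat_lit 10) (.cov (nat_lit 404486397139944468381697)) (.alt (nat_lit 10) (.exp (.alt (nat_lit 8) (.cov (nat_lit 21573470635678196826150)) (.alt (nat_lit 8) (.cov (nat_lit 406889068572488820064290)) (.alt (nat_lit 8) (.cov (nat_lit 55355673762441723911)) (.alt (nat_lit 8) (.cov (nat_lit 104685294388632115740675)) (.alt (nat_lit 8) (.exp (.alt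 (nat_lit 9) (.exp (.alt (nat_lit 12) (.cov (nat_lit 1508023232382877302803)) (.alt (nat_lit 12) (.cov (nat_lit 42090863935079697088523)) (.alt (nat_lit 12) (.cov (nat_lit 6557829461145466961922)) (.alt (nat_lit 12) (.cov (nat_lit 64579045799298596865)) (.alt (nat_lit 12) (.exp (.alt (nat_lit 28) (.cov (nat_lit 25597164030332707536930)) (.alt (nat_lit 13) (.cov (nat_lit 1468825438350868480007)) (.alt (nat_lit 13) (.cov (nat_lit 2870783278838818275331)) (.alt (nat_lit 13) (.cov (nat_lit 66884888808513339392)) (.alt (nat_lit 4) (.cov (nat_lit 356525740)) .e)))))) .e)))))) .e)) (.alt (nat_lit 8) (.cov (nat_lit 156540876038)) .e))))))) .e))))))) .e)) (.alt (nat_lit 2) (.cov (nat_lit 10500624)) .e)))))))) .e)))))))) .e)) .e)]),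
   ([4, 18, 1], [.cov (nat_lit 15211807212932916915812255662086), .cov (nat_lit 15211807212932916915812255662086), .cov (nat_lit 15211807212932916915812255662086), .cov (nat_lit 15211807212932916915812255662086), .cov (nat_lit 15211807212932916915812255662086), .cov (nat_lit 15211807212932916915812255662086), .cov (nat_lit 15211807212932916915812255662086), .cov (nat_lit 15211807202750311970520650743815), .cov (nat_lit 15211807202750314235514603962375), .cov (nat_lit 15211807202750314635736836472839), .cov (nat_lit 15211807202750314637935859728391), .cov (nat_lit 15211807202750314794066510872583), .rot (.rot (.exp (.alt (nat_lit 3) (.exp (.alt (nat_lit 0) (.exp (.alt (nat_lit 1) (.exp (.alt (nat_lit 9) (.exp (.alt (nat_lit 17) (.exp (.alt (nat_lit 5) (.exp (.alt (nat_lit 7) (.cov (nat_lit 1404564432950363744491502392311811)) (.alt (nat_lit 7) (.cov (nat_lit 182542813256338094464306919768066)) (.alt (nat_lit 7) (.cov (nat_lit 1404564432928543552115104406306817)) (.alt (nat_lit 7) (.cov (nat_lit 1404564432928543552159084837863424))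 (.alt (nat_lit 7) (.cov (nat_lit 620272875587507322976)) .e)))))) (.alt (nat_lit 5) (.cov (nat_lit 29088213007111688290529)) (.alt (nat_lit 5) (.exp (.alt (nat_lit 7) (.cov (nat_lit 1404576077324817503284948989116419)) (.alt (nat_lit 7) (.cov (nat_lit 1404576077302038080205722990149633)) (.alt (nat_lit 7) (.cov (nat_lit 1404576077302038080223315142639616)) (.alt (nat_lit 7) (.exp (.alt (nat_lit 6) (.cov (nat_lit 228201731807499134362597474697217)) (.alt (nat_lit 6) (.cov (nat_lit 6597025627863129260043)) .e))) .e))))) (.alt (nat_lit 5) (.cov (nat_lit 638730456447776194596)) (.alt (nat_lit 5) (.cov (nat_lit 46681807165271839866896)) (.alt (nat_lit 5) (.cov (nat_lit 29088221526116472455186)) (.alt (nat_lit 5) (.cov (nat_lit 638730698342951550987)) (.alt (nat_lit 5) (.cov (nat_lit 42074739163850731421702)) (.alt (nat_lit 5) (.cov (nat_lit 365570682711916240961539)) (.alt (nat_lit 5) (.cov (nat_lit 29088233798865085530114)) (.alt (nat_lit 5) (.cov (nat_lit 10212606863892461649921)) (.alt (nat_lit 5) (.cov (nat_lit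 7830673436708080451584)) (.alt (nat_lit 5) (.exp (.alt (nat_lit 7) (.exp (.alt (nat_lit 6) (.cov (nat_lit 55609300723389809743670851034677250)) (.alt (nat_lit 6) (.cov (nat_lit 400588402306325166165175230791681)) (.alt (nat_lit 6) (.cov (nat_lit 229997458490734465243578445160513536)) (.alt (nat_lit 6) (.exp (.alt (nat_lit 2) (.cov (nat_lit 99906085502847929642449363865174019)) (.alt (nat_lit 2) (.cov (nat_lit 756204293247868375984681657458229249)) (.alt (nat_lit 2) (.cov (nat_lit 756204293247867195393078532199415808)) (.alt (nat_lit 2) (.exp (.alt (nat_lit 10) (.cov (nat_lit 6769260617361352191908175409053697)) (.alt (nat_lit 10) (.cov (nat_lit 21820195362671752642571)) .e))) .e))))) .e))))) (.alt (nat_lit 7) (.cov (nat_lit 108380365329357864998)) (.alt (nat_lit 7) (.cov (nat_lit 456564658585218318433)) (.alt (nat_lit 7) (.exp (.alt (nat_lit 6) (.cov (nat_lit 8513560783617359779986288219783169)) (.alt (nat_lit 6) (.cov (nat_lit 255957321740139364363)) .e))) (.alt (nat_lit 7) (.cov (nat_lit 6398723082889364242467))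 (.alt (nat_lit 7) (.cov (nat_lit 348194246082677440527)) (.alt (nat_lit 7) (.cov (nat_lit 126845994567231078407)) (.alt (nat_lit 7) (.cov (nat_lit 102282604363346426724358)) (.alt (nat_lit 7) (.cov (nat_lit 10196459559272257159171)) (.alt (nat_lit 7) (.cov (nat_lit 13856841579667390466)) (.alt (nat_lit 7) (.cov (nat_lit 1657927265613147799553)) (.alt (nat_lit 7) (.cov (nat_lit 108404926172534669312)) (.alt (nat_lit 7) (.exp (.alt (nat_lit 6) (.cov (nat_lit 26743170281900817252446)) (.alt (nat_lit 6) (.cov (nat_lit 4612198391137435684)) (.alt (nat_lit 6) (.cov (nat_lit 45411277850757908398098)) (.alt (nat_lit 6) (.cov (nat_lit 363995776945884625895435)) (.alt (nat_lit 6) (.cov (nat_lit 6645454415752232697862)) (.alt (nat_lit 6) (.cov (nat_lit 21993150782525468049411)) (.alt (nat_lit 6) (.cov (nat_lit 4627164943137898498)) (.alt (nat_lit 6) (.cov (nat_lit 47966168052391586299905)) (.alt (nat_lit 6) (.cov (nat_lit 1780137077042831163392)) (.alt (nat_lit 6) (.exp (.alt (nat_lit 2) (.cov (nat_lit 350142261377909013872844))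 (.alt (nat_lit 2) (.exp (.alt (nat_lit 10) (.cov (nat_lit 6581646104149410552345169166860289)) (.alt (nat_lit 10) (.cov (nat_lit 21882453036005817581579)) .e))) (.alt (nat_lit 2) (.cov (nat_lit 21882453598909428137999)) (.alt (nat_lit 2) (.cov (nat_lit 2845419005691660599303)) (.alt (nat_lit 2) (.cov (nat_lit 2845419005691090173958)) (.alt (nat_lit 2) (.cov (nat_lit 26531041613505848410115)) (.alt (nat_lit 2) (.cov (nat_lit 558034116098406744065)) (.alt (nat_lit 2) (.cov (nat_lit 41529332635342471168)) (.alt (nat_lit 2) (.cov (nat_lit 2896178800)) .e)))))))))) .e))))))))))) .e)))))))))))))) .e)))))))))))))) .e)) .e)) .e)) .e)) .e))), .rot (.rot (.exp (.alt (nat_lit 3) (.exp (.alt (nat_lit 0) (.exp (.alt (nat_lit 2) (.exp (.alt (nat_lit 6) (.exp (.alt (nat_lit 10) (.exp (.alt (nat_lit 5) (.cov (nat_lit 3027577515991003824353)) (.alt (nat_lit 5) (.cov (nat_lit 343877297433762119811091)) (.alt (nat_lit 5) (.cov (nat_lit 365570674863602393939979)) (.alt (nat_lit 5) (.exp (.alt (nat_lit 1) (.exp (.alt (nat_lit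 9) (.exp (.alt (nat_lit 17) (.exp (.alt (nat_lit 21) (.cov (nat_lit 6633911694305905344546)) (.alt (nat_lit 7) (.cov (nat_lit 6546291744642274689031)) (.alt (nat_lit 7) (.cov (nat_lit 5144344494857052487683)) (.alt (nat_lit 7) (.exp (.alt (nat_lit 15) (.exp (.alt (nat_lit 23) (.cov (nat_lit 10180297028615731675147)) (.alt (nat_lit 23) (.exp (.alt (nat_lit 31) (.exp (.alt (nat_lit 27) (.exp (.alt (nat_lit 29) (.exp (.alt (nat_lit 22) (.cov (nat_lit 63133981609874620940291)) (.alt (nat_lit 22) (.exp (.alt (nat_lit 18) (.exp (.alt (nat_lit 30) (.cov (nat_lit 2868468712257976532993)) (.alt (nat_lit 30) (.exp (.alt (nat_lit 28) (.cov (nat_lit 22855515918321263312896)) (.alt (nat_lit 14) (.cov (nat_lit 174764064776)) .e))) .e))) .e)) (.alt (nat_lit 21) (.cov (nat_lit 1967128771)) .e)))) .e)) .e)) .e)) (.alt (nat_lit 23) (.cov (nat_lit 102098122402458657357825)) (.alt (nat_lit 23) (.exp (.alt (nat_lit 31) (.exp (.alt (nat_lit 27) (.exp (.alt (nat_lit 26) (.exp (.alt (nat_lit 18) (.exp (.alt (nat_lit 30) (.exp (.alt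 (nat_lit 29) (.cov (nat_lit 2868468712257941929985)) (.alt (nat_lit 29) (.exp (.alt (nat_lit 28) (.cov (nat_lit 2850021970383254585344)) (.alt (nat_lit 13) (.cov (nat_lit 174764064776)) .e))) .e))) .e)) .e)) .e)) .e)) (.alt (nat_lit 21) (.cov (nat_lit 4325761914095159738371)) (.alt (nat_lit 21) (.exp (.alt (nat_lit 29) (.exp (.alt (nat_lit 20) (.cov (nat_lit 25272039414151308640258)) (.alt (nat_lit 20) (.cov (nat_lit 25594857545208564809729)) (.alt (nat_lit 20) (.exp (.alt (nat_lit 16) (.cov (nat_lit 1443457741380619599875)) (.alt (nat_lit 28) (.exp (.alt (nat_lit 12) (.exp (.alt (nat_lit 24) (.cov (nat_lit 2863857026239560679425)) (.alt (nat_lit 24) (.exp (.alt (nat_lit 26) (.cov (nat_lit 2845410284364842926080)) (.alt (nat_lit 25) (.cov (nat_lit 2981101576)) .e))) .e))) .e)) (.alt (nat_lit 16) (.cov (nat_lit 696255081)) .e)))) .e)))) .e)) (.alt (nat_lit 19) (.cov (nat_lit 156995948426)) .e))))) .e))))) .e)) (.alt (nat_lit 7) (.cov (nat_lit 20752377517)) .e)))))) .e)) .e)) .e)) (.alt (nat_lit 5) (.cov (nat_lit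 122231647730695929857)) (.alt (nat_lit 5) (.exp (.alt (nat_lit 1) (.cov (nat_lit 350139958547573738831910)) (.alt (nat_lit 1) (.cov (nat_lit 45399751740729785843746)) (.alt (nat_lit 1) (.cov (nat_lit 39214772698546700295)) (.alt (nat_lit 1) (.cov (nat_lit 6680048968023015424003)) (.alt (nat_lit 1) (.exp (.alt (nat_lit 9) (.exp (.alt (nat_lit 17) (.cov (nat_lit 3156700983967736659986)) (.alt (nat_lit 17) (.cov (nat_lit 48019181772984629067787)) (.alt (nat_lit 17) (.exp (.alt (nat_lit 19) (.exp (.alt (nat_lit 18) (.exp (.alt (nat_lit 23) (.exp (.alt (nat_lit 21) (.exp (.alt (nat_lit 20) (.exp (.alt (nat_lit 28) (.exp (.alt (nat_lit 24) (.exp (.alt (nat_lit 12) (.exp (.alt (nat_lit 29) (.cov (nat_lit 102118869357843016843265)) (.alt (nat_lit 29) (.exp (.alt (nat_lit 31) (.cov (nat_lit 431192653718092775424)) (.alt (nat_lit 25) (.cov (nat_lit 159244091400)) .e))) .e))) .e)) .e)) .e)) .e)) (.alt (nat_lit 21) (.cov (nat_lit 1985331259762074976259)) (.alt (nat_lit 21) (.exp (.alt (nat_lit 20) (.exp (.alt (nat_lit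 29) (.cov (nat_lit 10138791744497987354626)) (.alt (nat_lit 29) (.cov (nat_lit 102077364322215635451905)) (.alt (nat_lit 29) (.exp (.alt (nat_lit 25) (.cov (nat_lit 47943087865328863019011)) (.alt (nat_lit 31) (.exp (.alt (nat_lit 27) (.exp (.alt (nat_lit 30) (.cov (nat_lit 32281810925145554945)) (.alt (nat_lit 15) (.cov (nat_lit 12060721167)) .e))) .e)) (.alt (nat_lit 31) (.exp (.alt (nat_lit 30) (.cov (nat_lit 32281810925112000514)) (.alt (nat_lit 27) (.cov (nat_lit 158102192195)) .e))) .e)))) .e)))) .e)) (.alt (nat_lit 21) (.exp (.alt (nat_lit 29) (.cov (nat_lit 404308819327029243543554)) (.alt (nat_lit 29) (.exp (.alt (nat_lit 13) (.cov (nat_lit 384310242677230480130055)) (.alt (nat_lit 31) (.cov (nat_lit 7890596134326625107968)) .e))) .e))) .e))))) .e)) .e)) .e)) (.alt (nat_lit 17) (.cov (nat_lit 63366891859463390625793)) (.alt (nat_lit 17) (.exp (.alt (nat_lit 21) (.cov (nat_lit 6633911694305905344546)) (.alt (nat_lit 19) (.cov (nat_lit 22050780138582573056007)) (.alt (nat_lit 19) (.cov (nat_lit 3889965924049954537475))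 (.alt (nat_lit 19) (.exp (.alt (nat_lit 18) (.exp (.alt (nat_lit 23) (.cov (nat_lit 3961438437176903729163)) (.alt (nat_lit 23) (.exp (.alt (nat_lit 21) (.exp (.alt (nat_lit 20) (.exp (.alt (nat_lit 29) (.exp (.alt (nat_lit 31) (.cov (nat_lit 10143403415123287605251)) (.alt (nat_lit 31) (.exp (.alt (nat_lit 27) (.exp (.alt (nat_lit 30) (.cov (nat_lit 32281810925145554945)) (.alt (nat_lit 15) (.cov (nat_lit 12060721167)) .e))) .e)) (.alt (nat_lit 31) (.exp (.alt (nat_lit 30) (.cov (nat_lit 32281810925112000514)) (.alt (nat_lit 27) (.cov (nat_lit 158102192195)) .e))) .e)))) .e)) .e)) .e)) (.alt (nat_lit 23) (.cov (nat_lit 809356523534574157825)) (.alt (nat_lit 23) (.exp (.alt (nat_lit 21) (.exp (.alt (nat_lit 20) (.exp (.alt (nat_lit 28) (.exp (.alt (nat_lit 24) (.exp (.alt (nat_lit 12) (.exp (.alt (nat_lit 29) (.cov (nat_lit 102118869357843016843265)) (.alt (nat_lit 29) (.exp (.alt (nat_lit 31) (.cov (nat_lit 431192653718092775424)) (.alt (nat_lit 25) (.cov (nat_lit 159244091400)) .e))) .e))) .e)) .e)) .e))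 .e)) (.alt (nat_lit 21) (.cov (nat_lit 1985331259762074976259)) (.alt (nat_lit 21) (.exp (.alt (nat_lit 20) (.exp (.alt (nat_lit 29) (.cov (nat_lit 10138791744497987354626)) (.alt (nat_lit 29) (.cov (nat_lit 102077364322215635451905)) (.alt (nat_lit 29) (.exp (.alt (nat_lit 25) (.cov (nat_lit 47943087865328863019011)) (.alt (nat_lit 31) (.exp (.alt (nat_lit 27) (.exp (.alt (nat_lit 30) (.cov (nat_lit 32281810925145554945)) (.alt (nat_lit 15) (.cov (nat_lit 12060721167)) .e))) .e)) (.alt (nat_lit 31) (.exp (.alt (nat_lit 30) (.cov (nat_lit 32281810925112000514)) (.alt (nat_lit 27) (.cov (nat_lit 158102192195)) .e))) .e)))) .e)))) .e)) (.alt (nat_lit 7) (.cov (nat_lit 166244388746)) .e))))) .e))))) .e)) (.alt (nat_lit 19) (.cov (nat_lit 11566852825)) .e)))))) .e)))))) .e)) (.alt (nat_lit 1) (.cov (nat_lit 156540876038)) .e))))))) .e))))))) .e)) .e)) .e)) .e)) .e)))]),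
   ([4, 15, 4], [.cov (nat_lit 3909434480119714016406097417469958), .cov (nat_lit 47232661398375455377374402576384006), .cov (nat_lit 3909434480119714016406097417469958), .cov (nat_lit 47232661398375455377374402576384006), .cov (nat_lit 3909434480119714016406097417469958), .cov (nat_lit 47232661398375455377374402576384006), .cov (nat_lit 3909434480119714016406097417469958), .cov (nat_lit 47232661398375455377374402576384006), .cov (nat_lit 3909434480119714016406097417469958), .cov (nat_lit 47232661398375455377374402576384006), .cov (nat_lit 3909434480119714016406097417469958), .cov (nat_lit 47232661398375455377374402576384006), .cov (nat_lit 15211836219773886035216033644551), .cov (nat_lit 501989671540313343387810318516231), .cov (nat_lit 15211836219773886035216033644551), .cov (nat_lit 501989671546659028066071287431175), .cov (nat_lit 15211836219773886035216033644551), .cov (nat_lit 501989671540313345716575946145799), .cov (nat_lit 15211836219773886035216033644551), .cov (nat_lit 501989671540313345718774969401351),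 .cov (nat_lit 15211836219773886035216033644551), .cov (nat_lit 501989671540313345720973992656903), .cov (nat_lit 15211836219773886035216033644551), .exp (.alt (nat_lit 0) (.exp (.alt (nat_lit 1) (.exp (.alt (nat_lit 9) (.exp (.alt (nat_lit 17) (.rot (.exp (.alt (nat_lit 3) (.exp (.alt (nat_lit 2) (.exp (.alt (nat_lit 6) (.exp (.alt (nat_lit 10) (.exp (.alt (nat_lit 5) (.cov (nat_lit 122211583890025349138)) (.alt (nat_lit 5) (.cov (nat_lit 343877288934537404874763)) (.alt (nat_lit 5) (.cov (nat_lit 638730456447507759106)) (.alt (nat_lit 5) (.cov (nat_lit 45427428568259321921537)) (.alt (nat_lit 5) (.exp (.alt (nat_lit 21) (.cov (nat_lit 25523377625783952474146)) (.alt (nat_lit 4) (.cov (nat_lit 25428840147084621381639)) (.alt (nat_lit 4) (.cov (nat_lit 24026892897170550161411)) (.alt (nat_lit 4) (.exp (.alt (nat_lit 12) (.exp (.alt (nat_lit 20) (.cov (nat_lit 10173379499587553722379)) (.alt (nat_lit 20) (.exp (.alt (nat_lit 28) (.exp (.alt (nat_lit 24) (.exp (.alt (nat_lit 29) (.exp (.alt (nat_lit 22) (.cov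 (nat_lit 365372354042550965764099)) (.alt (nat_lit 22) (.exp (.alt (nat_lit 18) (.exp (.alt (nat_lit 30) (.cov (nat_lit 2875386241285584060417)) (.alt (nat_lit 30) (.exp (.alt (nat_lit 31) (.cov (nat_lit 22862433447348907540480)) (.alt (nat_lit 14) (.cov (nat_lit 174767210504)) .e))) .e))) .e)) (.alt (nat_lit 21) (.cov (nat_lit 10560209091)) .e)))) .e)) .e)) .e)) (.alt (nat_lit 20) (.cov (nat_lit 404329577306115914334209)) (.alt (nat_lit 20) (.exp (.alt (nat_lit 28) (.exp (.alt (nat_lit 24) (.exp (.alt (nat_lit 26) (.exp (.alt (nat_lit 18) (.exp (.alt (nat_lit 30) (.exp (.alt (nat_lit 29) (.cov (nat_lit 2875386241285616566273)) (.alt (nat_lit 29) (.exp (.alt (nat_lit 31) (.cov (nat_lit 2856939499410898812928)) (.alt (nat_lit 13) (.cov (nat_lit 174767210504)) .e))) .e))) .e)) .e)) .e)) .e)) (.alt (nat_lit 21) (.cov (nat_lit 23222145374600844804099)) (.alt (nat_lit 21) (.exp (.alt (nat_lit 29) (.exp (.alt (nat_lit 23) (.cov (nat_lit 6389491011562933059586)) (.alt (nat_lit 23) (.cov (nat_lit 6712309142757594628097))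 (.alt (nat_lit 23) (.exp (.alt (nat_lit 19) (.cov (nat_lit 262866120663211442179)) (.alt (nat_lit 31) (.exp (.alt (nat_lit 15) (.exp (.alt (nat_lit 27) (.cov (nat_lit 2863857026239527124993)) (.alt (nat_lit 27) (.exp (.alt (nat_lit 26) (.cov (nat_lit 2845410284364839780352)) (.alt (nat_lit 25) (.cov (nat_lit 11567890440)) .e))) .e))) .e)) (.alt (nat_lit 19) (.cov (nat_lit 162529897)) .e)))) .e)))) .e)) (.alt (nat_lit 16) (.cov (nat_lit 19553849226)) .e))))) .e))))) .e)) (.alt (nat_lit 4) (.cov (nat_lit 158188185261)) .e)))))) .e)))))) .e)) .e)) .e)) .e))) .e)) .e)) .e)) .e)]),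
   ([4, 11, 8], [.cov (nat_lit 47232662452539659241116011593728006), .exp (.alt (nat_lit 0) (.exp (.alt (nat_lit 1) (.exp (.alt (nat_lit 2) (.cov (nat_lit 2935880985639926637781547017568256)) .e)) .e)) (.alt (nat_lit 0) (.exp (.alt (nat_lit 1) (.exp (.alt (nat_lit 9) (.cov (nat_lit 826510396794831402028049004232704)) .e)) .e)) .e)), .exp (.alt (nat_lit 0) (.exp (.alt (nat_lit 1) (.exp (.alt (nat_lit 2) (.cov (nat_lit 664249992882763009373540873928704)) .e)) .e)) (.alt (nat_lit 0) (.cov (nat_lit 22406993087996025532585013028061187)) .e)), .cov (nat_lit 47232662452539659241116011593728006), .exp (.alt (nat_lit 0) (.exp (.alt (nat_lit 1) (.exp (.alt (nat_lit 2) (.cov (nat_lit 15214031651641104745604686282752)) .e)) .e)) (.alt (nat_lit 0) (.exp (.alt (nat_lit 1) (.exp (.alt (nat_lit 9) (.cov (nat_lit 764418667149897427226990546593513472)) .e)) .e)) .e)), .exp (.alt (nat_lit 0) (.exp (.alt (nat_lit 1) (.exp (.alt (nat_lit 2) (.cov (nat_lit 664249992882763009373540873928704)) .e)) .e)) (.alt (nat_lit 0) (.cov (nat_lit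 1637805653866897626867394406252547)) .e)), .cov (nat_lit 47232662452539659241116011593728006), .exp (.alt (nat_lit 0) (.exp (.alt (nat_lit 1) (.exp (.alt (nat_lit 2) (.cov (nat_lit 15214031651641104745604686282752)) .e)) .e)) (.alt (nat_lit 0) (.exp (.alt (nat_lit 1) (.exp (.alt (nat_lit 9) (.cov (nat_lit 764418667149897427226990546593513472)) .e)) .e)) .e)), .exp (.alt (nat_lit 0) (.exp (.alt (nat_lit 1) (.exp (.alt (nat_lit 2) (.cov (nat_lit 664249992882763009373540873928704)) .e)) .e)) (.alt (nat_lit 0) (.cov (nat_lit 1637805653866897626867394406252547)) .e)), .cov (nat_lit 47232662452539659241116011593728006), .exp (.alt (nat_lit 0) (.exp (.alt (nat_lit 1) (.exp (.alt (nat_lit 2) (.cov (nat_lit 15214031651641104745604686282752)) .e)) .e)) (.alt (nat_lit 0) (.exp (.alt (nat_lit 1) (.exp (.alt (nat_lit 9) (.cov (nat_lit 764418667149897427226990546593513472)) .e)) .e)) .e)), .exp (.alt (nat_lit 0) (.exp (.alt (nat_lit 1) (.exp (.alt (nat_lit 2) (.cov (nat_lit 664249992882763009373540873928704)) .e)) .e))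 (.alt (nat_lit 0) (.cov (nat_lit 1637805653866897626867394406252547)) .e)), .exp (.alt (nat_lit 0) (.exp (.alt (nat_lit 1) (.exp (.alt (nat_lit 9) (.cov (nat_lit 826509274552697168457220685299712)) .e)) .e)) .e), .exp (.alt (nat_lit 0) (.exp (.alt (nat_lit 1) (.exp (.alt (nat_lit 9) (.exp (.alt (nat_lit 17) (.cov (nat_lit 375853413258287385401)) .e)) .e)) .e)) .e), .exp (.alt (nat_lit 0) (.cov (nat_lit 22406993087996025532585013028061186)) .e), .exp (.alt (nat_lit 0) (.exp (.alt (nat_lit 1) (.exp (.alt (nat_lit 9) (.cov (nat_lit 826509274552697168457220685299712)) .e)) .e)) .e), .exp (.alt (nat_lit 0) (.exp (.alt (nat_lit 1) (.exp (.alt (nat_lit 9) (.exp (.alt (nat_lit 17) (.cov (nat_lit 347617363854566622239304)) .e)) .e)) .e)) .e), .exp (.alt (nat_lit 0) (.cov (nat_lit 13969510692876930636225155516334082)) .e), .exp (.alt (nat_lit 0) (.exp (.alt (nat_lit 1) (.exp (.alt (nat_lit 9) (.cov (nat_lit 826509274552697168457220685299712)) .e)) .e)) .e), .exp (.alt (nat_lit 0) (.exp (.alt (nat_lit 1) (.exp (.alt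 (nat_lit 9) (.exp (.alt (nat_lit 17) (.cov (nat_lit 347617363854566622239304)) .e)) .e)) .e)) .e), .exp (.alt (nat_lit 0) (.cov (nat_lit 13969510692876930639075089655529474)) .e), .exp (.alt (nat_lit 0) (.exp (.alt (nat_lit 1) (.exp (.alt (nat_lit 9) (.cov (nat_lit 826509274552697168457220685299712)) .e)) .e)) .e), .exp (.alt (nat_lit 0) (.exp (.alt (nat_lit 1) (.exp (.alt (nat_lit 9) (.exp (.alt (nat_lit 17) (.cov (nat_lit 347617363854566622239304)) .e)) .e)) .e)) .e), .exp (.alt (nat_lit 0) (.exp (.alt (nat_lit 1) (.exp (.alt (nat_lit 9) (.exp (.alt (nat_lit 17) (.rot (.exp (.alt (nat_lit 3) (.cov (nat_lit 14466461609958143714160565547958274)) (.alt (nat_lit 3) (.cov (nat_lit 224429965406254493438840322036596737)) (.alt (nat_lit 3) (.cov (nat_lit 47729612934412797677854155402641408)) (.alt (nat_lit 3) (.exp (.alt (nat_lit 2) (.cov (nat_lit 894723038079613183807324003747495939)) (.alt (nat_lit 2) (.cov (nat_lit 764428838689046911753757795001827329)) (.alt (nat_lit 2) (.cov (nat_lit 224429970541777423388007019799642112))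 (.alt (nat_lit 2) (.exp (.alt (nat_lit 6) (.cov (nat_lit 756153620711103500126519138107523073)) (.alt (nat_lit 6) (.cov (nat_lit 347621989335057546870795)) .e))) .e))))) .e)))))) .e)) .e)) .e)) .e)]),
   ([4, 8, 11], [.cov (nat_lit 50153360886878442270433860269375494), .cov (nat_lit 50153360886878442270433860269375494), .cov (nat_lit 50153360886878442270433860269375494), .cov (nat_lit 50153360886878442270433860269375494), .exp (.alt (nat_lit 0) (.exp (.alt (nat_lit 1) (.exp (.alt (nat_lit 4) (.cov (nat_lit 224419805554980424651878521861308416)) .e)) .e)) (.alt (nat_lit 0) (.exp (.alt (nat_lit 1) (.exp (.alt (nat_lit 9) (.cov (nat_lit 803360905281613631446056965779750912)) .e)) .e)) .e)), .exp (.alt (nat_lit 0) (.exp (.alt (nat_lit 1) (.exp (.alt (nat_lit 4) (.cov (nat_lit 6505609157583268897168893226778624)) .e)) .e)) (.alt (nat_lit 0) (.exp (.alt (nat_lit 1) (.exp (.alt (nat_lit 9) (.cov (nat_lit 56156954158598643959119367156793344)) .e)) .e)) .e)), .exp (.alt (nat_lit 0) (.exp (.alt (nat_lit 1) (.exp (.alt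 (nat_lit 4) (.cov (nat_lit 6505609157583268897168893226778624)) .e)) .e)) (.alt (nat_lit 0) (.exp (.alt (nat_lit 1) (.exp (.alt (nat_lit 9) (.cov (nat_lit 56156954158598643959119367156793344)) .e)) .e)) .e)), .exp (.alt (nat_lit 0) (.exp (.alt (nat_lit 1) (.exp (.alt (nat_lit 4) (.cov (nat_lit 6505609157583268897168893226778624)) .e)) .e)) (.alt (nat_lit 0) (.exp (.alt (nat_lit 1) (.exp (.alt (nat_lit 9) (.cov (nat_lit 56156954158598643959119367156793344)) .e)) .e)) .e)), .exp (.alt (nat_lit 0) (.exp (.alt (nat_lit 1) (.exp (.alt (nat_lit 4) (.cov (nat_lit 177497366084373369317568658014208)) .e)) .e)) (.alt (nat_lit 0) (.cov (nat_lit 826521968372087360181434448871427)) .e)), .exp (.alt (nat_lit 0) (.exp (.alt (nat_lit 1) (.exp (.alt (nat_lit 4) (.cov (nat_lit 177497366084373369317568658014208)) .e)) .e)) (.alt (nat_lit 0) (.cov (nat_lit 230098892608902742429393217514373123)) .e)), .exp (.alt (nat_lit 0) (.exp (.alt (nat_lit 1) (.exp (.alt (nat_lit 4) (.cov (nat_lit 177497366084373369317568658014208)) .e))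 .e)) (.alt (nat_lit 0) (.cov (nat_lit 230098892608902742429393217514373123)) .e)), .exp (.alt (nat_lit 0) (.exp (.alt (nat_lit 1) (.exp (.alt (nat_lit 4) (.cov (nat_lit 177497366084373369317568658014208)) .e)) .e)) (.alt (nat_lit 0) (.cov (nat_lit 230098892608902742429393217514373123)) .e)), .exp (.alt (nat_lit 0) (.exp (.alt (nat_lit 1) (.exp (.alt (nat_lit 9) (.cov (nat_lit 988800007625391210233922187165696)) .e)) .e)) .e), .exp (.alt (nat_lit 0) (.exp (.alt (nat_lit 1) (.exp (.alt (nat_lit 9) (.cov (nat_lit 988800007625391210233922187165696)) .e)) .e)) .e), .exp (.alt (nat_lit 0) (.exp (.alt (nat_lit 1) (.exp (.alt (nat_lit 9) (.cov (nat_lit 988800007625391210233922187165696)) .e)) .e)) .e), .exp (.alt (nat_lit 0) (.exp (.alt (nat_lit 1) (.exp (.alt (nat_lit 9) (.cov (nat_lit 988800007625391210233922187165696)) .e)) .e)) .e), .exp (.alt (nat_lit 0) (.exp (.alt (nat_lit 1) (.exp (.alt (nat_lit 9) (.exp (.alt (nat_lit 17) (.cov (nat_lit 63094788578908126052808)) .e)) .e)) .e)) .e), .exp (.alt (nat_lit 0)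 (.exp (.alt (nat_lit 1) (.exp (.alt (nat_lit 9) (.exp (.alt (nat_lit 17) (.cov (nat_lit 80719300362993926599)) .e)) .e)) .e)) .e), .exp (.alt (nat_lit 0) (.exp (.alt (nat_lit 1) (.exp (.alt (nat_lit 9) (.exp (.alt (nat_lit 17) (.cov (nat_lit 80719300362993926599)) .e)) .e)) .e)) .e), .exp (.alt (nat_lit 0) (.exp (.alt (nat_lit 1) (.exp (.alt (nat_lit 9) (.exp (.alt (nat_lit 17) (.cov (nat_lit 80719300362993926599)) .e)) .e)) .e)) .e), .exp (.alt (nat_lit 0) (.cov (nat_lit 826521968372087360181434448871426)) .e), .exp (.alt (nat_lit 0) (.cov (nat_lit 826521973103603428111639600168962)) .e), .exp (.alt (nat_lit 0) (.cov (nat_lit 826528240175052310349281276985346)) .e), .exp (.alt (nat_lit 0) (.exp (.alt (nat_lit 1) (.exp (.alt (nat_lit 9) (.exp (.alt (nat_lit 17) (.exp (.alt (nat_lit 5) (.cov (nat_lit 1475578258819622354189843552010242)) (.alt (nat_lit 5) (.cov (nat_lit 16727949860065470032198100726054913)) (.alt (nat_lit 5) (.cov (nat_lit 3584948432159388941476374312386560)) (.alt (nat_lit 5) (.exp (.alt (nat_lit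 4) (.cov (nat_lit 105483774377517194112281132151078915)) (.alt (nat_lit 4) (.cov (nat_lit 58266324723502630091980751973122049)) (.alt (nat_lit 4) (.cov (nat_lit 16727954995576594065157624376066048)) (.alt (nat_lit 4) (.exp (.alt (nat_lit 6) (.cov (nat_lit 49991106745564747876278188946489345)) (.alt (nat_lit 6) (.cov (nat_lit 26496456813905929306123)) .e))) .e))))) .e))))) .e)) .e)) .e)) .e)]),
   ([4, 4, 15], [.cov (nat_lit 47719502407326576073883694850375686), .cov (nat_lit 47719502407326576073883694850375686), .cov (nat_lit 47719502407326576073883694850375686), .cov (nat_lit 47719502407326576073883694850375686), .cov (nat_lit 47719502407326576073883694850375686), .cov (nat_lit 47719502407326576073883694850375686), .cov (nat_lit 3584977804120217055143496209399814), .cov (nat_lit 3584977804120217055143496209399814), .cov (nat_lit 3584977804120217055143496209399814), .cov (nat_lit 3584977804120217055143496209399814), .cov (nat_lit 3584977804120217055143496209399814), .cov (nat_lit 3584977804120217055143496209399814),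 .cov (nat_lit 55507946389467460322778133347434503), .cov (nat_lit 55507946389467460322778133347434503), .cov (nat_lit 55507946389467460322778133347434503), .cov (nat_lit 55507946389467460322778133347434503), .cov (nat_lit 55507946389467460322778133347434503), .cov (nat_lit 55507946389467460322778133347434503), .cov (nat_lit 15260120714426722017623484137479), .cov (nat_lit 13969568300610308267211651347906567), .cov (nat_lit 15265241724198609586807539499015), .cov (nat_lit 15265246559901888045324238323719), .cov (nat_lit 15265251395605166503840937148423), .exp (.alt (nat_lit 0) (.exp (.alt (nat_lit 1) (.exp (.alt (nat_lit 9) (.exp (.alt (nat_lit 17) (.exp (.alt (nat_lit 5) (.exp (.alt (nat_lit 4) (.exp (.alt (nat_lit 6) (.exp (.alt (nat_lit 12) (.exp (.alt (nat_lit 3) (.cov (nat_lit 1371978494840895701010)) (.alt (nat_lit 3) (.cov (nat_lit 22751756413382933086219)) (.alt (nat_lit 3) (.cov (nat_lit 6537076874016302563330)) (.alt (nat_lit 3) (.cov (nat_lit 404322669580333928677377)) (.alt (nat_lit 3) (.exp (.alt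 (nat_lit 19) (.cov (nat_lit 3087525146137394675746)) (.alt (nat_lit 2) (.cov (nat_lit 2992987667478326804487)) (.alt (nat_lit 2) (.cov (nat_lit 2697845061943879008259)) (.alt (nat_lit 2) (.exp (.alt (nat_lit 10) (.exp (.alt (nat_lit 18) (.cov (nat_lit 104616097470964714962955)) (.alt (nat_lit 18) (.exp (.alt (nat_lit 26) (.exp (.alt (nat_lit 24) (.exp (.alt (nat_lit 27) (.exp (.alt (nat_lit 22) (.cov (nat_lit 365372354042550967861251)) (.alt (nat_lit 22) (.exp (.alt (nat_lit 20) (.exp (.alt (nat_lit 30) (.cov (nat_lit 25306627034916398825473)) (.alt (nat_lit 30) (.exp (.alt (nat_lit 31) (.cov (nat_lit 2649413628581666357248)) (.alt (nat_lit 14) (.cov (nat_lit 19611516936)) .e))) .e))) .e)) (.alt (nat_lit 19) (.cov (nat_lit 156589097155)) .e)))) .e)) .e)) .e)) (.alt (nat_lit 18) (.cov (nat_lit 45429724608022875996161)) (.alt (nat_lit 18) (.exp (.alt (nat_lit 26) (.exp (.alt (nat_lit 24) (.exp (.alt (nat_lit 28) (.exp (.alt (nat_lit 20) (.exp (.alt (nat_lit 30) (.exp (.alt (nat_lit 27) (.cov (nat_lit 25306627034916999659521))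 (.alt (nat_lit 27) (.exp (.alt (nat_lit 31) (.cov (nat_lit 25288180293041713577984)) (.alt (nat_lit 11) (.cov (nat_lit 19611516936)) .e))) .e))) .e)) .e)) .e)) .e)) (.alt (nat_lit 19) (.cov (nat_lit 344343066209736549466115)) (.alt (nat_lit 19) (.exp (.alt (nat_lit 27) (.exp (.alt (nat_lit 23) (.cov (nat_lit 491144593994303930370)) (.alt (nat_lit 23) (.cov (nat_lit 809351039170540208129)) (.alt (nat_lit 23) (.exp (.alt (nat_lit 21) (.cov (nat_lit 267477806844849684483)) (.alt (nat_lit 31) (.exp (.alt (nat_lit 15) (.exp (.alt (nat_lit 29) (.cov (nat_lit 25299709505888769277953)) (.alt (nat_lit 29) (.exp (.alt (nat_lit 28) (.cov (nat_lit 25281262764014081933312)) (.alt (nat_lit 25) (.cov (nat_lit 1367343112)) .e))) .e))) .e)) (.alt (nat_lit 21) (.cov (nat_lit 2345665129)) .e)))) .e)))) .e)) (.alt (nat_lit 16) (.cov (nat_lit 174709542794)) .e))))) .e))))) .e)) (.alt (nat_lit 2) (.cov (nat_lit 12157200045)) .e)))))) .e)))))) .e)) .e)) .e)) .e)) .e)) .e)) .e)) .e)]),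
   ([4, 1, 18], [.cov (nat_lit 22407062717287532050501942175072262), .cov (nat_lit 22407062717287532050501942175072262), .cov (nat_lit 22407062717287532050501942175072262), .cov (nat_lit 22407062717287532050501942175072262), .cov (nat_lit 22407062717287532050501942175072262), .cov (nat_lit 22407062717287532050501942175072262), .cov (nat_lit 22407062717287532050501942175072262), .cov (nat_lit 15277640467183216279345648631815), .cov (nat_lit 15282621241560028551545438076935), .cov (nat_lit 15283501339556708001584624173063), .cov (nat_lit 15283506175259986460101322997767), .cov (nat_lit 15283849510192757014786939551751), .rot (.exp (.alt (nat_lit 5) (.rot (.exp (.alt (nat_lit 0) (.exp (.alt (nat_lit 1) (.exp (.alt (nat_lit 9) (.exp (.alt (nat_lit 17) (.exp (.alt (nat_lit 3) (.exp (.alt (nat_lit 7) (.cov (nat_lit 14375165374465536923053574167986179)) (.alt (nat_lit 7) (.cov (nat_lit 2930809314456692107251766732521474)) (.alt (nat_lit 7) (.cov (nat_lit 14375165374464155723110846365171713)) (.alt (nat_lit 7) (.cov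 (nat_lit 14375165374463786788273352035270656)) (.alt (nat_lit 7) (.cov (nat_lit 6518619293158820806752)) .e)))))) (.alt (nat_lit 3) (.cov (nat_lit 350209133842237360177377)) (.alt (nat_lit 3) (.exp (.alt (nat_lit 7) (.cov (nat_lit 14375177018839843107894431088377859)) (.alt (nat_lit 7) (.cov (nat_lit 14375177018837281316319990757982209)) (.alt (nat_lit 7) (.cov (nat_lit 14375177018837650251219056531079168)) (.alt (nat_lit 7) (.exp (.alt (nat_lit 6) (.cov (nat_lit 2976468233102305088493469021765633)) (.alt (nat_lit 6) (.cov (nat_lit 689455838284490997771)) .e))) .e))))) (.alt (nat_lit 3) (.cov (nat_lit 6537076874019087581220)) (.alt (nat_lit 3) (.cov (nat_lit 405577048177349130977296)) (.alt (nat_lit 3) (.cov (nat_lit 350209142361252177117202)) (.alt (nat_lit 3) (.cov (nat_lit 6537077115908894228491)) (.alt (nat_lit 3) (.cov (nat_lit 365556843240421258690566)) (.alt (nat_lit 3) (.cov (nat_lit 42083966949327684763651)) (.alt (nat_lit 3) (.cov (nat_lit 350209154634001125736450)) (.alt (nat_lit 3) (.cov (nat_lit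 104655324835267506864129)) (.alt (nat_lit 3) (.cov (nat_lit 102273391408082557337600)) (.alt (nat_lit 3) (.exp (.alt (nat_lit 7) (.exp (.alt (nat_lit 6) (.cov (nat_lit 6282480567308951884317154502246402)) (.alt (nat_lit 6) (.cov (nat_lit 3483514662061379070605157996691457)) (.alt (nat_lit 6) (.cov (nat_lit 22305584149335457144255004937289728)) (.alt (nat_lit 6) (.exp (.alt (nat_lit 4) (.cov (nat_lit 889135208000119302549977192883814403)) (.alt (nat_lit 4) (.cov (nat_lit 50051920487130568737623163434696705)) (.alt (nat_lit 4) (.cov (nat_lit 50051920487132044477166651780890624)) (.alt (nat_lit 4) (.exp (.alt (nat_lit 12) (.cov (nat_lit 56096080773442588209515383725490177)) (.alt (nat_lit 12) (.cov (nat_lit 1750137810475594809355)) .e))) .e))))) .e))))) (.alt (nat_lit 7) (.cov (nat_lit 1362758962298657701926)) (.alt (nat_lit 7) (.cov (nat_lit 6359522762172442607713)) (.alt (nat_lit 7) (.exp (.alt (nat_lit 6) (.cov (nat_lit 135887093094550218977256501057421313)) (.alt (nat_lit 6) (.cov (nat_lit 3945306136479365333003))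 .e))) (.alt (nat_lit 7) (.cov (nat_lit 6398723082889364242467)) (.alt (nat_lit 7) (.cov (nat_lit 348194246082845212687)) (.alt (nat_lit 7) (.cov (nat_lit 126845994567231078407)) (.alt (nat_lit 7) (.cov (nat_lit 7835274705953354678278)) (.alt (nat_lit 7) (.cov (nat_lit 104643789216665731858435)) (.alt (nat_lit 7) (.cov (nat_lit 382791723054026194946)) (.alt (nat_lit 7) (.cov (nat_lit 1657927265613718224897)) (.alt (nat_lit 7) (.cov (nat_lit 108404926172534669312)) (.alt (nat_lit 7) (.exp (.alt (nat_lit 6) (.cov (nat_lit 347864091117036859555934)) (.alt (nat_lit 6) (.cov (nat_lit 378158765886440210468)) (.alt (nat_lit 6) (.cov (nat_lit 404311130548848260284434)) (.alt (nat_lit 6) (.cov (nat_lit 41625089199752244887563)) (.alt (nat_lit 6) (.cov (nat_lit 747107998183435796486)) (.alt (nat_lit 6) (.cov (nat_lit 1927704916348473704451)) (.alt (nat_lit 6) (.cov (nat_lit 378173732435924090882)) (.alt (nat_lit 6) (.cov (nat_lit 406870632436503620354049)) (.alt (nat_lit 6) (.cov (nat_lit 21845582943220398030848)) (.alt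 (nat_lit 6) (.exp (.alt (nat_lit 4) (.cov (nat_lit 29025952228792139251916)) (.alt (nat_lit 4) (.exp (.alt (nat_lit 12) (.cov (nat_lit 55918607465391003322980969954148353)) (.alt (nat_lit 12) (.cov (nat_lit 1817007169785303138315)) .e))) (.alt (nat_lit 4) (.cov (nat_lit 1817007732732502999055)) (.alt (nat_lit 4) (.cov (nat_lit 25281271485340334424071)) (.alt (nat_lit 4) (.cov (nat_lit 25281271485340334424070)) (.alt (nat_lit 4) (.cov (nat_lit 347656574134659514892291)) (.alt (nat_lit 4) (.cov (nat_lit 6465603905704463171585)) (.alt (nat_lit 4) (.cov (nat_lit 415075900127962988544)) (.alt (nat_lit 4) (.cov (nat_lit 213921392)) .e)))))))))) .e))))))))))) .e)))))))))))))) .e)))))))))))))) .e)) .e)) .e)) .e))) .e)), .rot (.exp (.alt (nat_lit 5) (.rot (.exp (.alt (nat_lit 0) (.exp (.alt (nat_lit 4) (.exp (.alt (nat_lit 6) (.exp (.alt (nat_lit 12) (.exp (.alt (nat_lit 3) (.cov (nat_lit 25458818309621178958049)) (.alt (nat_lit 3) (.cov (nat_lit 343872685747743858098195)) (.alt (nat_lit 3) (.cov (nat_lit 42083959101013099544587))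 (.alt (nat_lit 3) (.exp (.alt (nat_lit 1) (.exp (.alt (nat_lit 9) (.exp (.alt (nat_lit 17) (.exp (.alt (nat_lit 19) (.cov (nat_lit 726341904709546147874)) (.alt (nat_lit 7) (.cov (nat_lit 643333641201247059975)) (.alt (nat_lit 7) (.cov (nat_lit 348191035529360310275)) (.alt (nat_lit 7) (.exp (.alt (nat_lit 15) (.exp (.alt (nat_lit 23) (.cov (nat_lit 104627626686008635949067)) (.alt (nat_lit 23) (.exp (.alt (nat_lit 31) (.exp (.alt (nat_lit 29) (.exp (.alt (nat_lit 27) (.exp (.alt (nat_lit 22) (.cov (nat_lit 4099788887975429931011)) (.alt (nat_lit 22) (.exp (.alt (nat_lit 20) (.exp (.alt (nat_lit 30) (.cov (nat_lit 25295097819870934335489)) (.alt (nat_lit 30) (.exp (.alt (nat_lit 26) (.cov (nat_lit 2637884413535592644608)) (.alt (nat_lit 14) (.cov (nat_lit 19606274056)) .e))) .e))) .e)) (.alt (nat_lit 19) (.cov (nat_lit 1965031619)) .e)))) .e)) .e)) .e)) (.alt (nat_lit 23) (.cov (nat_lit 7650792745066323509249)) (.alt (nat_lit 23) (.exp (.alt (nat_lit 31) (.exp (.alt (nat_lit 29) (.exp (.alt (nat_lit 28) (.exp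 (.alt (nat_lit 20) (.exp (.alt (nat_lit 30) (.exp (.alt (nat_lit 27) (.cov (nat_lit 25295097819870327209985)) (.alt (nat_lit 27) (.exp (.alt (nat_lit 26) (.cov (nat_lit 25276651077995639865344)) (.alt (nat_lit 11) (.cov (nat_lit 19606274056)) .e))) .e))) .e)) .e)) .e)) .e)) (.alt (nat_lit 19) (.cov (nat_lit 4321150228076092719107)) (.alt (nat_lit 19) (.exp (.alt (nat_lit 27) (.exp (.alt (nat_lit 18) (.cov (nat_lit 2840798620357283020802)) (.alt (nat_lit 18) (.cov (nat_lit 25590245859190707847169)) (.alt (nat_lit 18) (.exp (.alt (nat_lit 16) (.cov (nat_lit 21518126979758247903235)) (.alt (nat_lit 26) (.exp (.alt (nat_lit 10) (.exp (.alt (nat_lit 24) (.cov (nat_lit 25299709505889373257729)) (.alt (nat_lit 24) (.exp (.alt (nat_lit 28) (.cov (nat_lit 25281262764014087176192)) (.alt (nat_lit 25) (.cov (nat_lit 298844168)) .e))) .e))) .e)) (.alt (nat_lit 16) (.cov (nat_lit 9823060585)) .e)))) .e)))) .e)) (.alt (nat_lit 21) (.cov (nat_lit 156998045578)) .e))))) .e))))) .e)) (.alt (nat_lit 7) (.cov (nat_lit 183961134765))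 .e)))))) .e)) .e)) .e)) (.alt (nat_lit 3) (.cov (nat_lit 1371998558725086380033)) (.alt (nat_lit 3) (.exp (.alt (nat_lit 1) (.cov (nat_lit 29019037712583893188646)) (.alt (nat_lit 1) (.cov (nat_lit 404299604438822989856802)) (.alt (nat_lit 1) (.cov (nat_lit 39214772697976274951)) (.alt (nat_lit 1) (.cov (nat_lit 777090864435321372675)) (.alt (nat_lit 1) (.exp (.alt (nat_lit 9) (.exp (.alt (nat_lit 17) (.cov (nat_lit 25587941777598551425042)) (.alt (nat_lit 17) (.cov (nat_lit 406919034471077665308683)) (.alt (nat_lit 17) (.exp (.alt (nat_lit 21) (.exp (.alt (nat_lit 20) (.exp (.alt (nat_lit 23) (.exp (.alt (nat_lit 19) (.exp (.alt (nat_lit 18) (.exp (.alt (nat_lit 26) (.exp (.alt (nat_lit 24) (.exp (.alt (nat_lit 10) (.exp (.alt (nat_lit 27) (.cov (nat_lit 102118869357843587268609)) (.alt (nat_lit 27) (.exp (.alt (nat_lit 31) (.cov (nat_lit 66869458262329131008)) (.alt (nat_lit 25) (.cov (nat_lit 13217300488)) .e))) .e))) .e)) .e)) .e)) .e)) (.alt (nat_lit 19) (.cov (nat_lit 22050777125939637649411)) (.alt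 (nat_lit 19) (.exp (.alt (nat_lit 18) (.exp (.alt (nat_lit 27) (.cov (nat_lit 104581509715872632012802)) (.alt (nat_lit 27) (.cov (nat_lit 7625422978804874215425)) (.alt (nat_lit 27) (.exp (.alt (nat_lit 25) (.cov (nat_lit 406842940563275302043651)) (.alt (nat_lit 31) (.exp (.alt (nat_lit 29) (.exp (.alt (nat_lit 30) (.cov (nat_lit 401216692399909109761)) (.alt (nat_lit 15) (.cov (nat_lit 158089609231)) .e))) .e)) (.alt (nat_lit 31) (.exp (.alt (nat_lit 30) (.cov (nat_lit 401216692399472902146)) (.alt (nat_lit 29) (.cov (nat_lit 12075401283)) .e))) .e)))) .e)))) .e)) (.alt (nat_lit 19) (.exp (.alt (nat_lit 27) (.cov (nat_lit 45404354942927978364930)) (.alt (nat_lit 27) (.exp (.alt (nat_lit 11) (.cov (nat_lit 43114652604026214940679)) (.alt (nat_lit 31) (.cov (nat_lit 102337925791719529381888)) .e))) .e))) .e))))) .e)) .e)) .e)) (.alt (nat_lit 17) (.cov (nat_lit 4337310823593393782785)) (.alt (nat_lit 17) (.exp (.alt (nat_lit 19) (.cov (nat_lit 726341904709546147874)) (.alt (nat_lit 21) (.cov (nat_lit 1985334272404439957511))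 (.alt (nat_lit 21) (.cov (nat_lit 61812742315497311174659)) (.alt (nat_lit 21) (.exp (.alt (nat_lit 20) (.exp (.alt (nat_lit 23) (.cov (nat_lit 272089622581022294027)) (.alt (nat_lit 23) (.exp (.alt (nat_lit 19) (.exp (.alt (nat_lit 18) (.exp (.alt (nat_lit 27) (.exp (.alt (nat_lit 31) (.cov (nat_lit 104590733072516764401667)) (.alt (nat_lit 31) (.exp (.alt (nat_lit 29) (.exp (.alt (nat_lit 30) (.cov (nat_lit 401216692399909109761)) (.alt (nat_lit 15) (.cov (nat_lit 158089609231)) .e))) .e)) (.alt (nat_lit 31) (.exp (.alt (nat_lit 30) (.cov (nat_lit 401216692399472902146)) (.alt (nat_lit 29) (.cov (nat_lit 12075401283)) .e))) .e)))) .e)) .e)) .e)) (.alt (nat_lit 23) (.cov (nat_lit 6712314627122201100289)) (.alt (nat_lit 23) (.exp (.alt (nat_lit 19) (.exp (.alt (nat_lit 18) (.exp (.alt (nat_lit 26) (.exp (.alt (nat_lit 24) (.exp (.alt (nat_lit 10) (.exp (.alt (nat_lit 27) (.cov (nat_lit 102118869357843587268609)) (.alt (nat_lit 27) (.exp (.alt (nat_lit 31) (.cov (nat_lit 66869458262329131008)) (.alt (nat_lit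 25) (.cov (nat_lit 13217300488)) .e))) .e))) .e)) .e)) .e)) .e)) (.alt (nat_lit 19) (.cov (nat_lit 22050777125939637649411)) (.alt (nat_lit 19) (.exp (.alt (nat_lit 18) (.exp (.alt (nat_lit 27) (.cov (nat_lit 104581509715872632012802)) (.alt (nat_lit 27) (.cov (nat_lit 7625422978804874215425)) (.alt (nat_lit 27) (.exp (.alt (nat_lit 25) (.cov (nat_lit 406842940563275302043651)) (.alt (nat_lit 31) (.exp (.alt (nat_lit 29) (.exp (.alt (nat_lit 30) (.cov (nat_lit 401216692399909109761)) (.alt (nat_lit 15) (.cov (nat_lit 158089609231)) .e))) .e)) (.alt (nat_lit 31) (.exp (.alt (nat_lit 30) (.cov (nat_lit 401216692399472902146)) (.alt (nat_lit 29) (.cov (nat_lit 12075401283)) .e))) .e)))) .e)))) .e)) (.alt (nat_lit 7) (.cov (nat_lit 19141758858)) .e))))) .e))))) .e)) (.alt (nat_lit 21) (.cov (nat_lit 1366305497)) .e)))))) .e)))))) .e)) (.alt (nat_lit 1) (.cov (nat_lit 10511987974)) .e))))))) .e))))))) .e)) .e)) .e)) .e))) .e))]),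
   ([7, 15, 1], [.cov (nat_lit 15211807203193032042671958392927), .cov (nat_lit 15211807203193032042671958392927), .cov (nat_lit 15211807203193032042671958392927), .cov (nat_lit 15211807203193032042671958392927), .cov (nat_lit 15211807203193032042671958392927), .cov (nat_lit 15211807203193032042671958392927), .cov (nat_lit 15211807209095990146259014910049), .cov (nat_lit 15211807209095990146259014910049), .cov (nat_lit 15211807209095990146259014910049), .cov (nat_lit 15211807209095990146259014910049), .cov (nat_lit 15211807209095990146259014910049), .cov (nat_lit 15211807209095990146259014910049), .cov (nat_lit 15211807202824090979753193898022), .cov (nat_lit 15211807227985454613197905461286), .cov (nat_lit 15211807202824093308518821527590), .cov (nat_lit 15211807202824093310717844783142), .cov (nat_lit 15211807202824093312916868038694), .rot (.rot (.exp (.alt (nat_lit 3) (.exp (.alt (nat_lit 0) (.exp (.alt (nat_lit 1) (.exp (.alt (nat_lit 9) (.exp (.alt (nat_lit 17) (.exp (.alt (nat_lit 2) (.exp (.alt (nat_lit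 6) (.exp (.alt (nat_lit 10) (.exp (.alt (nat_lit 5) (.cov (nat_lit 48424607732626096146)) (.alt (nat_lit 5) (.cov (nat_lit 343877288934537404874763)) (.alt (nat_lit 5) (.cov (nat_lit 638730456447507759106)) (.alt (nat_lit 5) (.cov (nat_lit 347658883471916649152513)) (.alt (nat_lit 5) (.exp (.alt (nat_lit 21) (.cov (nat_lit 6633911694305905344546)) (.alt (nat_lit 7) (.cov (nat_lit 6546291744642274689031)) (.alt (nat_lit 7) (.cov (nat_lit 5144344494857052487683)) (.alt (nat_lit 7) (.exp (.alt (nat_lit 15) (.exp (.alt (nat_lit 23) (.cov (nat_lit 10180297028615731675147)) (.alt (nat_lit 23) (.exp (.alt (nat_lit 31) (.exp (.alt (nat_lit 27) (.exp (.alt (nat_lit 29) (.exp (.alt (nat_lit 22) (.cov (nat_lit 63133981609874620940291)) (.alt (nat_lit 22) (.exp (.alt (nat_lit 18) (.exp (.alt (nat_lit 30) (.cov (nat_lit 2868468712257976532993)) (.alt (nat_lit 30) (.exp (.alt (nat_lit 28) (.cov (nat_lit 22855515918321263312896)) (.alt (nat_lit 14) (.cov (nat_lit 174764064776)) .e))) .e))) .e)) (.alt (nat_lit 21) (.cov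 (nat_lit 1967128771)) .e)))) .e)) .e)) .e)) (.alt (nat_lit 23) (.cov (nat_lit 102098122402458657357825)) (.alt (nat_lit 23) (.exp (.alt (nat_lit 31) (.exp (.alt (nat_lit 27) (.exp (.alt (nat_lit 26) (.exp (.alt (nat_lit 18) (.exp (.alt (nat_lit 30) (.exp (.alt (nat_lit 29) (.cov (nat_lit 2868468712257941929985)) (.alt (nat_lit 29) (.exp (.alt (nat_lit 28) (.cov (nat_lit 2850021970383254585344)) (.alt (nat_lit 13) (.cov (nat_lit 174764064776)) .e))) .e))) .e)) .e)) .e)) .e)) (.alt (nat_lit 21) (.cov (nat_lit 4325761914095159738371)) (.alt (nat_lit 21) (.exp (.alt (nat_lit 29) (.exp (.alt (nat_lit 20) (.cov (nat_lit 25272039414151308640258)) (.alt (nat_lit 20) (.cov (nat_lit 25594857545208564809729)) (.alt (nat_lit 20) (.exp (.alt (nat_lit 16) (.cov (nat_lit 1443457741380619599875)) (.alt (nat_lit 28) (.exp (.alt (nat_lit 12) (.exp (.alt (nat_lit 24) (.cov (nat_lit 2863857026239560679425)) (.alt (nat_lit 24) (.exp (.alt (nat_lit 26) (.cov (nat_lit 2845410284364842926080)) (.alt (nat_lit 25) (.cov (nat_lit 2981101576))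 .e))) .e))) .e)) (.alt (nat_lit 16) (.cov (nat_lit 696255081)) .e)))) .e)))) .e)) (.alt (nat_lit 19) (.cov (nat_lit 156995948426)) .e))))) .e))))) .e)) (.alt (nat_lit 7) (.cov (nat_lit 20752377517)) .e)))))) .e)))))) .e)) .e)) .e)) .e)) .e)) .e)) (.alt (nat_lit 0) (.exp (.alt (nat_lit 1) (.exp (.alt (nat_lit 9) (.exp (.alt (nat_lit 17) (.exp (.alt (nat_lit 19) (.exp (.alt (nat_lit 23) (.exp (.alt (nat_lit 18) (.exp (.alt (nat_lit 5) (.cov (nat_lit 3866900630990527397906)) (.alt (nat_lit 5) (.cov (nat_lit 41994016325456188407819)) (.alt (nat_lit 5) (.cov (nat_lit 10138803654591762137090)) (.alt (nat_lit 5) (.cov (nat_lit 21723362433542572212225)) (.alt (nat_lit 5) (.exp (.alt (nat_lit 13) (.cov (nat_lit 384310244016425322676258)) (.alt (nat_lit 7) (.cov (nat_lit 22760979785431887380487)) (.alt (nat_lit 7) (.cov (nat_lit 3945306129893553078275)) (.alt (nat_lit 7) (.exp (.alt (nat_lit 6) (.exp (.alt (nat_lit 15) (.cov (nat_lit 27776185031924735016971)) (.alt (nat_lit 15) (.exp (.alt (nat_lit 14) (.exp (.alt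 (nat_lit 10) (.exp (.alt (nat_lit 12) (.exp (.alt (nat_lit 31) (.cov (nat_lit 6412549426215530790915)) (.alt (nat_lit 31) (.exp (.alt (nat_lit 27) (.exp (.alt (nat_lit 30) (.cov (nat_lit 433498494528324108289)) (.alt (nat_lit 30) (.exp (.alt (nat_lit 28) (.cov (nat_lit 424275124690456936448)) (.alt (nat_lit 22) (.cov (nat_lit 658505736)) .e))) .e))) .e)) (.alt (nat_lit 13) (.cov (nat_lit 30408899)) .e)))) .e)) .e)) .e)) (.alt (nat_lit 15) (.cov (nat_lit 81975030461050732412929)) (.alt (nat_lit 15) (.exp (.alt (nat_lit 14) (.exp (.alt (nat_lit 10) (.exp (.alt (nat_lit 26) (.exp (.alt (nat_lit 27) (.exp (.alt (nat_lit 30) (.exp (.alt (nat_lit 12) (.cov (nat_lit 433498494684635332609)) (.alt (nat_lit 12) (.exp (.alt (nat_lit 28) (.cov (nat_lit 1395035031569422090240)) (.alt (nat_lit 4) (.cov (nat_lit 658505736)) .e))) .e))) .e)) .e)) .e)) .e)) (.alt (nat_lit 13) (.cov (nat_lit 66869876077449183235)) (.alt (nat_lit 13) (.exp (.alt (nat_lit 12) (.exp (.alt (nat_lit 29) (.cov (nat_lit 10166461860620030443522))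 (.alt (nat_lit 29) (.cov (nat_lit 25521070568913736040449)) (.alt (nat_lit 29) (.exp (.alt (nat_lit 25) (.cov (nat_lit 104618403188627994574851)) (.alt (nat_lit 28) (.exp (.alt (nat_lit 20) (.exp (.alt (nat_lit 24) (.cov (nat_lit 428886808509882040321)) (.alt (nat_lit 24) (.exp (.alt (nat_lit 26) (.cov (nat_lit 1390423345550984216576)) (.alt (nat_lit 8) (.cov (nat_lit 10345250824)) .e))) .e))) .e)) (.alt (nat_lit 25) (.cov (nat_lit 1870660201)) .e)))) .e)))) .e)) (.alt (nat_lit 11) (.cov (nat_lit 156575469450)) .e))))) .e))))) .e)) (.alt (nat_lit 7) (.cov (nat_lit 2992645805)) .e)))))) .e)))))) .e)) .e)) .e)) .e)) .e)) .e)) .e))) .e)))]),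
   ([7, 8, 8], [.exp (.alt (nat_lit 0) (.exp (.alt (nat_lit 1) (.exp (.alt (nat_lit 9) (.cov (nat_lit 123133579213985742330526293171328353221990154240)) .e)) .e)) (.alt (nat_lit 0) (.exp (.alt (nat_lit 1) (.exp (.alt (nat_lit 9) (.cov (nat_lit 15214036462551947714343620050951)) .e)) .e)) (.alt (nat_lit 0) (.cov (nat_lit 49273511116415972407764757550305926503560380416)) (.alt (nat_lit 0) (.cov (nat_lit 15214041301501853123236121804834)) .e)))), .exp (.alt (nat_lit 0) (.exp (.alt (nat_lit 1) (.exp (.alt (nat_lit 9) (.cov (nat_lit 123133579213985742330526293171328353221990154240)) .e)) .e)) (.alt (nat_lit 0) (.exp (.alt (nat_lit 1) (.exp (.alt (nat_lit 9) (.cov (nat_lit 15214046133958504631377017700359)) .e)) .e)) (.alt (nat_lit 0) (.cov (nat_lit 49273511116415972407764757550305926503560380416)) (.alt (nat_lit 0) (.cov (nat_lit 139071418771466897636204704243384354)) .e)))), .exp (.alt (nat_lit 0) (.exp (.alt (nat_lit 1) (.exp (.alt (nat_lit 9) (.cov (nat_lit 123133579213985742330526293171328353221990154240))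 .e)) .e)) (.alt (nat_lit 0) (.exp (.alt (nat_lit 1) (.exp (.alt (nat_lit 9) (.cov (nat_lit 17052446967374138305265239460937735)) .e)) .e)) (.alt (nat_lit 0) (.cov (nat_lit 49273511116415972407764757550305926503560380416)) (.alt (nat_lit 0) (.cov (nat_lit 139071418771466897636204704243384354)) .e)))), .exp (.alt (nat_lit 0) (.exp (.alt (nat_lit 1) (.exp (.alt (nat_lit 9) (.cov (nat_lit 1681688047409310624295649760678076960321782677504)) .e)) .e)) (.alt (nat_lit 0) (.exp (.alt (nat_lit 1) (.exp (.alt (nat_lit 9) (.cov (nat_lit 14294029256207132849557750622978055)) .e)) .e)) (.alt (nat_lit 0) (.cov (nat_lit 505635948651724585226653929584327824822879911936)) (.alt (nat_lit 0) (.cov (nat_lit 14618547795362286665771182851096610)) .e)))), .exp (.alt (nat_lit 0) (.exp (.alt (nat_lit 1) (.exp (.alt (nat_lit 9) (.cov (nat_lit 747079887669548698163776988472797671066697728)) .e)) .e)) (.alt (nat_lit 0) (.exp (.alt (nat_lit 1) (.exp (.alt (nat_lit 9) (.cov (nat_lit 15216009455536361935806069211143)) .e)) .e)) (.alt (nat_lit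 0) (.cov (nat_lit 106363413465184859125545527632902604212130545664)) (.alt (nat_lit 0) (.cov (nat_lit 22406994205086574445402890388373538)) .e)))), .exp (.alt (nat_lit 0) (.exp (.alt (nat_lit 1) (.exp (.alt (nat_lit 9) (.cov (nat_lit 1664561081945018657076137975212632753463617388544)) .e)) .e)) (.alt (nat_lit 0) (.exp (.alt (nat_lit 1) (.exp (.alt (nat_lit 9) (.cov (nat_lit 4233963309670038680596787939508231)) .e)) .e)) (.alt (nat_lit 0) (.cov (nat_lit 7526510734672724434016648827257486993183997952)) (.alt (nat_lit 0) (.cov (nat_lit 3422660818010956260885290624745506)) .e)))), .exp (.alt (nat_lit 0) (.exp (.alt (nat_lit 1) (.exp (.alt (nat_lit 9) (.cov (nat_lit 1681688047409310624295649760678076960321782677504)) .e)) .e)) (.alt (nat_lit 0) (.exp (.alt (nat_lit 1) (.exp (.alt (nat_lit 9) (.cov (nat_lit 14456288528302468965804100240277511)) .e)) .e)) (.alt (nat_lit 0) (.cov (nat_lit 505635948651724585226653929584327824822879911936)) (.alt (nat_lit 0) (.cov (nat_lit 14618547795362286665771182851096610)) .e)))),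 .exp (.alt (nat_lit 0) (.exp (.alt (nat_lit 1) (.exp (.alt (nat_lit 9) (.cov (nat_lit 104936161370126564360437367494107610017999880192)) .e)) .e)) (.alt (nat_lit 0) (.exp (.alt (nat_lit 1) (.exp (.alt (nat_lit 9) (.cov (nat_lit 759064111038708360842374600454045703)) .e)) .e)) (.alt (nat_lit 0) (.cov (nat_lit 306178086094785564785968110134734127444964409344)) (.alt (nat_lit 0) (.cov (nat_lit 139233673551091471738785962831904802)) .e)))), .exp (.alt (nat_lit 0) (.exp (.alt (nat_lit 1) (.exp (.alt (nat_lit 9) (.cov (nat_lit 298685045033946139019799428390408535207539900416)) .e)) .e)) (.alt (nat_lit 0) (.exp (.alt (nat_lit 1) (.exp (.alt (nat_lit 9) (.cov (nat_lit 135826232978591242053789496090034183)) .e)) .e)) (.alt (nat_lit 0) (.cov (nat_lit 103865734979587483033648269943007480945189060608)) (.alt (nat_lit 0) (.cov (nat_lit 3422660818007414485501969879269410)) .e)))), .exp (.alt (nat_lit 0) (.cov (nat_lit 33456062525965608704224321984386237636542466)) (.alt (nat_lit 0) (.exp (.alt (nat_lit 1) (.exp (.alt (nat_lit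 9) (.cov (nat_lit 15214036462551947714343787823110)) .e)) .e)) (.alt (nat_lit 0) (.cov (nat_lit 12878682744820428230106325633278967314398576640)) (.alt (nat_lit 0) (.cov (nat_lit 6830103663292759837110995855081507)) .e)))), .exp (.alt (nat_lit 0) (.cov (nat_lit 33460369233920730591574878918747425744093186)) (.alt (nat_lit 0) (.exp (.alt (nat_lit 1) (.exp (.alt (nat_lit 9) (.cov (nat_lit 15214046133958504631377185472518)) .e)) .e)) (.alt (nat_lit 0) (.cov (nat_lit 49273501343968093475058497014015627725749878784)) (.alt (nat_lit 0) (.cov (nat_lit 139071418771466897636204704243384355)) .e)))), .exp (.alt (nat_lit 0) (.cov (nat_lit 33460379997227599780614126135683160196775938)) (.alt (nat_lit 0) (.exp (.alt (nat_lit 1) (.exp (.alt (nat_lit 9) (.cov (nat_lit 102563081630027339221824291353919494)) .e)) .e)) (.alt (nat_lit 0) (.cov (nat_lit 7169698790357907173675409407719031423556911104)) (.alt (nat_lit 0) (.cov (nat_lit 139071418771466897636204704243384355)) .e)))), .exp (.alt (nat_lit 0) (.cov (nat_lit 305821271640759457619063875698616918141103505410))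 (.alt (nat_lit 0) (.exp (.alt (nat_lit 1) (.exp (.alt (nat_lit 9) (.cov (nat_lit 14294029256207132849557750622978054)) .e)) .e)) (.alt (nat_lit 0) (.cov (nat_lit 1681688047409534055315399575779182178440007647232)) (.alt (nat_lit 0) (.cov (nat_lit 14618547795362286665771182683324451)) .e)))), .exp (.alt (nat_lit 0) (.exp (.alt (nat_lit 1) (.exp (.alt (nat_lit 9) (.exp (.alt (nat_lit 17) (.cov (nat_lit 58753076441191941623705973005746179)) .e)) .e)) .e)) (.alt (nat_lit 0) (.exp (.alt (nat_lit 1) (.exp (.alt (nat_lit 9) (.cov (nat_lit 14456289640413651358529072895361030)) .e)) .e)) (.alt (nat_lit 0) (.cov (nat_lit 49273501343913087581340112547706717171088359424)) (.alt (nat_lit 0) (.cov (nat_lit 22406994205043482851262098038587427)) .e)))), .exp (.alt (nat_lit 0) (.exp (.alt (nat_lit 1) (.exp (.alt (nat_lit 9) (.exp (.alt (nat_lit 17) (.cov (nat_lit 58753076441191941623705973005746179)) .e)) .e)) .e)) (.alt (nat_lit 0) (.exp (.alt (nat_lit 1) (.exp (.alt (nat_lit 9) (.cov (nat_lit 102563081629971998990119933164126214))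 .e)) .e)) (.alt (nat_lit 0) (.cov (nat_lit 7169698790236212717189889655613099340064620544)) (.alt (nat_lit 0) (.cov (nat_lit 3422660818016859218975683541729315)) .e)))), .exp (.alt (nat_lit 0) (.cov (nat_lit 19658109253214501466882374527271601813061632002)) (.alt (nat_lit 0) (.exp (.alt (nat_lit 1) (.exp (.alt (nat_lit 9) (.cov (nat_lit 8939473106741146311199548034252806)) .e)) .e)) (.alt (nat_lit 0) (.cov (nat_lit 19658109253261069879308179858791084162630549504)) (.alt (nat_lit 0) (.cov (nat_lit 14618547795362286665771182683324451)) .e)))), .exp (.alt (nat_lit 0) (.exp (.alt (nat_lit 1) (.exp (.alt (nat_lit 9) (.exp (.alt (nat_lit 17) (.cov (nat_lit 826510416120156999082748812460035)) .e)) .e)) .e)) (.alt (nat_lit 0) (.exp (.alt (nat_lit 1) (.exp (.alt (nat_lit 9) (.cov (nat_lit 224744312425985190059749725941268486)) .e)) .e)) (.alt (nat_lit 0) (.cov (nat_lit 494217969576941362406830105759905490336941604864)) (.alt (nat_lit 0) (.cov (nat_lit 230098868546436735567318548232536099)) .e)))), .exp (.alt (nat_lit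 0) (.exp (.alt (nat_lit 1) (.exp (.alt (nat_lit 9) (.exp (.alt (nat_lit 17) (.cov (nat_lit 4233959426576546671519772390195203)) .e)) .e)) .e)) (.alt (nat_lit 0) (.exp (.alt (nat_lit 1) (.exp (.alt (nat_lit 9) (.cov (nat_lit 756143448296672528347242627663396870)) .e)) .e)) (.alt (nat_lit 0) (.cov (nat_lit 7526510734664935987582785277754893270143467520)) (.alt (nat_lit 0) (.cov (nat_lit 3422660818007414485501969879269412)) .e)))), .exp (.alt (nat_lit 0) (.cov (nat_lit 1858309949413571548543624980450798276520118845442)) (.alt (nat_lit 0) (.cov (nat_lit 759388628451524358551530449145954323)) .e)), .exp (.alt (nat_lit 0) (.cov (nat_lit 1664917893900096618944113808790805660104591933442)) (.alt (nat_lit 0) (.cov (nat_lit 22406994205449016072441967146958867)) .e)), .exp (.alt (nat_lit 0) (.cov (nat_lit 19658120876208176668359210462906762159080865794)) (.alt (nat_lit 0) (.cov (nat_lit 139071418771466897636204704243384339)) .e)), .exp (.alt (nat_lit 0) (.cov (nat_lit 104936158892445742476645516724610014584688869378))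 (.alt (nat_lit 0) (.cov (nat_lit 102563075836896353696685453459062803)) .e)), .exp (.alt (nat_lit 0) (.cov (nat_lit 49273501439614420351594299992388228337394253826)) (.alt (nat_lit 0) (.cov (nat_lit 22406994205044146934028960373145619)) .e)), .exp (.alt (nat_lit 0) (.cov (nat_lit 122419954931812295532426242138790548050892816386)) (.alt (nat_lit 0) (.cov (nat_lit 3422660818016859218975683541729299)) .e)), .exp (.alt (nat_lit 0) (.cov (nat_lit 37855517356621058270386058218731998290426986498)) (.alt (nat_lit 0) (.cov (nat_lit 14618547795362286665771182851096595)) .e)), .exp (.alt (nat_lit 0) (.cov (nat_lit 37855519823535814877379487179404169298231427074)) (.alt (nat_lit 0) (.cov (nat_lit 230098868546436735567318548400308243)) .e)), .exp (.alt (nat_lit 0) (.exp (.alt (nat_lit 1) (.exp (.alt (nat_lit 9) (.exp (.alt (nat_lit 17) (.exp (.alt (nat_lit 8) (.exp (.alt (nat_lit 10) (.exp (.alt (nat_lit 24) (.exp (.alt (nat_lit 5) (.cov (nat_lit 3260401531506683884251728172810242)) (.alt (nat_lit 5) (.cov (nat_lit 6505593025677390212986856440594433))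 (.alt (nat_lit 5) (.cov (nat_lit 91529450413914886053031357200728064)) (.alt (nat_lit 5) (.cov (nat_lit 597216257490556026974)) .e))))) .e)) .e)) .e)) .e)) .e)) .e)) (.alt (nat_lit 0) (.exp (.alt (nat_lit 1) (.exp (.alt (nat_lit 9) (.exp (.alt (nat_lit 17) (.exp (.alt (nat_lit 16) (.exp (.alt (nat_lit 18) (.exp (.alt (nat_lit 24) (.exp (.alt (nat_lit 5) (.cov (nat_lit 139071416237567769116200667038351362)) (.alt (nat_lit 5) (.cov (nat_lit 6830111579345317012968129243906049)) (.alt (nat_lit 5) (.cov (nat_lit 92340746798057171287454136811913216)) (.alt (nat_lit 5) (.cov (nat_lit 41622775077604199235678)) .e))))) .e)) .e)) .e)) .e)) .e)) .e)) .e))]),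
   ([7, 1, 15], [.cov (nat_lit 13969571521188470359639493812682847), .cov (nat_lit 13969571521188470359639493812682847), .cov (nat_lit 13969571521188470359639493812682847), .cov (nat_lit 13969571521188470359639493812682847), .cov (nat_lit 13969571521188470359639493812682847), .cov (nat_lit 13969571521188470359639493812682847), .cov (nat_lit 13969571521188470359639494450217057), .cov (nat_lit 13969571521188470359639494450217057), .cov (nat_lit 13969571521188470359639494450217057), .cov (nat_lit 13969571521188470359639494450217057), .cov (nat_lit 13969571521188470359639494450217057), .cov (nat_lit 13969571521188470359639494450217057), .cov (nat_lit 2935927103640045902121905181163558), .cov (nat_lit 6181123012807845463471784365916198), .cov (nat_lit 2935932224649817789691089236525094), .cov (nat_lit 2935932229485521068149605935349798), .cov (nat_lit 2935932234321224346608122634174502), .rot (.exp (.alt (nat_lit 5) (.rot (.exp (.alt (nat_lit 0) (.exp (.alt (nat_lit 1) (.exp (.alt (nat_lit 9) (.exp (.alt (nat_lit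 17) (.exp (.alt (nat_lit 4) (.exp (.alt (nat_lit 6) (.exp (.alt (nat_lit 12) (.exp (.alt (nat_lit 3) (.cov (nat_lit 412747803025178886162)) (.alt (nat_lit 3) (.cov (nat_lit 22751756413382933086219)) (.alt (nat_lit 3) (.cov (nat_lit 6537076874016302563330)) (.alt (nat_lit 3) (.cov (nat_lit 26533350950762915561473)) (.alt (nat_lit 3) (.exp (.alt (nat_lit 19) (.cov (nat_lit 726341904709546147874)) (.alt (nat_lit 7) (.cov (nat_lit 643333641201247059975)) (.alt (nat_lit 7) (.cov (nat_lit 348191035529360310275)) (.alt (nat_lit 7) (.exp (.alt (nat_lit 15) (.exp (.alt (nat_lit 23) (.cov (nat_lit 104627626686008635949067)) (.alt (nat_lit 23) (.exp (.alt (nat_lit 31) (.exp (.alt (nat_lit 29) (.exp (.alt (nat_lit 27) (.exp (.alt (nat_lit 22) (.cov (nat_lit 4099788887975429931011)) (.alt (nat_lit 22) (.exp (.alt (nat_lit 20) (.exp (.alt (nat_lit 30) (.cov (nat_lit 25295097819870934335489)) (.alt (nat_lit 30) (.exp (.alt (nat_lit 26) (.cov (nat_lit 2637884413535592644608)) (.alt (nat_lit 14) (.cov (nat_lit 19606274056))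 .e))) .e))) .e)) (.alt (nat_lit 19) (.cov (nat_lit 1965031619)) .e)))) .e)) .e)) .e)) (.alt (nat_lit 23) (.cov (nat_lit 7650792745066323509249)) (.alt (nat_lit 23) (.exp (.alt (nat_lit 31) (.exp (.alt (nat_lit 29) (.exp (.alt (nat_lit 28) (.exp (.alt (nat_lit 20) (.exp (.alt (nat_lit 30) (.exp (.alt (nat_lit 27) (.cov (nat_lit 25295097819870327209985)) (.alt (nat_lit 27) (.exp (.alt (nat_lit 26) (.cov (nat_lit 25276651077995639865344)) (.alt (nat_lit 11) (.cov (nat_lit 19606274056)) .e))) .e))) .e)) .e)) .e)) .e)) (.alt (nat_lit 19) (.cov (nat_lit 4321150228076092719107)) (.alt (nat_lit 19) (.exp (.alt (nat_lit 27) (.exp (.alt (nat_lit 18) (.cov (nat_lit 2840798620357283020802)) (.alt (nat_lit 18) (.cov (nat_lit 25590245859190707847169)) (.alt (nat_lit 18) (.exp (.alt (nat_lit 16) (.cov (nat_lit 21518126979758247903235)) (.alt (nat_lit 26) (.exp (.alt (nat_lit 10) (.exp (.alt (nat_lit 24) (.cov (nat_lit 25299709505889373257729)) (.alt (nat_lit 24) (.exp (.alt (nat_lit 28) (.cov (nat_lit 25281262764014087176192))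 (.alt (nat_lit 25) (.cov (nat_lit 298844168)) .e))) .e))) .e)) (.alt (nat_lit 16) (.cov (nat_lit 9823060585)) .e)))) .e)))) .e)) (.alt (nat_lit 21) (.cov (nat_lit 156998045578)) .e))))) .e))))) .e)) (.alt (nat_lit 7) (.cov (nat_lit 183961134765)) .e)))))) .e)))))) .e)) .e)) .e)) .e)) .e)) .e)) (.alt (nat_lit 0) (.exp (.alt (nat_lit 1) (.exp (.alt (nat_lit 9) (.exp (.alt (nat_lit 17) (.exp (.alt (nat_lit 21) (.exp (.alt (nat_lit 23) (.exp (.alt (nat_lit 20) (.exp (.alt (nat_lit 3) (.cov (nat_lit 61785065336256881229842)) (.alt (nat_lit 3) (.cov (nat_lit 365471508715845247303691)) (.alt (nat_lit 3) (.cov (nat_lit 104581521625803028168706)) (.alt (nat_lit 3) (.cov (nat_lit 1648693195328720994305)) (.alt (nat_lit 3) (.exp (.alt (nat_lit 11) (.cov (nat_lit 43114653943075194273826)) (.alt (nat_lit 7) (.cov (nat_lit 343881900620713790799879)) (.alt (nat_lit 7) (.cov (nat_lit 255957315141442207747)) (.alt (nat_lit 7) (.exp (.alt (nat_lit 6) (.exp (.alt (nat_lit 15) (.cov (nat_lit 348897105867060609548299)) (.alt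 (nat_lit 15) (.exp (.alt (nat_lit 14) (.exp (.alt (nat_lit 12) (.exp (.alt (nat_lit 10) (.exp (.alt (nat_lit 31) (.cov (nat_lit 504979636610619408387)) (.alt (nat_lit 31) (.exp (.alt (nat_lit 29) (.exp (.alt (nat_lit 30) (.cov (nat_lit 59951927036276113409)) (.alt (nat_lit 30) (.exp (.alt (nat_lit 26) (.cov (nat_lit 55340243216263806976)) (.alt (nat_lit 22) (.cov (nat_lit 9783214088)) .e))) .e))) .e)) (.alt (nat_lit 11) (.cov (nat_lit 28311747)) .e)))) .e)) .e)) .e)) (.alt (nat_lit 15) (.cov (nat_lit 5236575114419568115713)) (.alt (nat_lit 15) (.exp (.alt (nat_lit 14) (.exp (.alt (nat_lit 12) (.exp (.alt (nat_lit 28) (.exp (.alt (nat_lit 29) (.exp (.alt (nat_lit 30) (.exp (.alt (nat_lit 10) (.cov (nat_lit 59951927192014815233)) (.alt (nat_lit 10) (.exp (.alt (nat_lit 26) (.cov (nat_lit 136044748538743095296)) (.alt (nat_lit 2) (.cov (nat_lit 9783214088)) .e))) .e))) .e)) .e)) .e)) .e)) (.alt (nat_lit 11) (.cov (nat_lit 62258190058382163971)) (.alt (nat_lit 11) (.exp (.alt (nat_lit 10) (.exp (.alt (nat_lit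 27) (.cov (nat_lit 104613791518002732072962)) (.alt (nat_lit 27) (.cov (nat_lit 25516458882895879077889)) (.alt (nat_lit 27) (.exp (.alt (nat_lit 25) (.cov (nat_lit 10175685217263718236163)) (.alt (nat_lit 26) (.exp (.alt (nat_lit 18) (.exp (.alt (nat_lit 24) (.cov (nat_lit 64563613054688821249)) (.alt (nat_lit 24) (.exp (.alt (nat_lit 28) (.cov (nat_lit 140656434557164191744)) (.alt (nat_lit 8) (.cov (nat_lit 156376236040)) .e))) .e))) .e)) (.alt (nat_lit 25) (.cov (nat_lit 28714205801)) .e)))) .e)))) .e)) (.alt (nat_lit 13) (.cov (nat_lit 156577566602)) .e))))) .e))))) .e)) (.alt (nat_lit 7) (.cov (nat_lit 308291245)) .e)))))) .e)))))) .e)) .e)) .e)) .e)) .e)) .e)) .e)))) .e))]),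
   ([8, 14, 1], [.cov (nat_lit 15211807212932910936669265330398), .cov (nat_lit 15211807212932910936669265330398), .cov (nat_lit 15211807212932910936669265330398), .cov (nat_lit 15211807212932910936669265330398), .cov (nat_lit 15211807212932910936669265330398), .cov (nat_lit 15211807212932910936679532986825), .cov (nat_lit 15211807212932910936679532986825), .cov (nat_lit 15211807212932910936679532986825), .cov (nat_lit 15211807212932910936679532986825), .cov (nat_lit 15211807212932910936679532986825), .cov (nat_lit 15211807202750297789008166519007), .cov (nat_lit 15211807202750300729102259192031), .cov (nat_lit 15211807202750300731301282447583), .cov (nat_lit 15211807202824097684564631093471), .rot (.rot (.exp (.alt (nat_lit 3) (.exp (.alt (nat_lit 0) (.cov (nat_lit 5704485231389341956091146099752962)) (.alt (nat_lit 0) (.cov (nat_lit 14304226951694664553696869069357057)) (.alt (nat_lit 0) (.cov (nat_lit 100301643666341674937910815781552128)) (.alt (nat_lit 0) (.cov (nat_lit 45611906746827237490782)) .e)))))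 .e)))]),
   ([8, 11, 4], [.cov (nat_lit 15211836238441977683133278978273), .rot (.rot (.exp (.alt (nat_lit 3) (.exp (.alt (nat_lit 1) (.exp (.alt (nat_lit 9) (.cov (nat_lit 13979683358765824114059282169724928)) .e)) .e)) .e))), .cov (nat_lit 15211836238441977683133278978273), .rot (.rot (.exp (.alt (nat_lit 3) (.exp (.alt (nat_lit 1) (.exp (.alt (nat_lit 9) (.cov (nat_lit 13979683358765824114059282169724928)) .e)) .e)) .e))), .cov (nat_lit 15211836238441977683133278978273), .rot (.rot (.exp (.alt (nat_lit 3) (.exp (.alt (nat_lit 1) (.exp (.alt (nat_lit 9) (.cov (nat_lit 13979683358765824114059282169724928)) .e)) .e)) .e))), .cov (nat_lit 15211836238441977683133278978273), .rot (.rot (.exp (.alt (nat_lit 3) (.exp (.alt (nat_lit 1) (.exp (.alt (nat_lit 9) (.cov (nat_lit 13979683358765824114059282169724928)) .e)) .e)) .e))), .rot (.rot (.exp (.alt (nat_lit 3) (.exp (.alt (nat_lit 1) (.exp (.alt (nat_lit 2) (.cov (nat_lit 889043944652241429788375991808163840)) .e)) .e)) (.alt (nat_lit 3) (.exp (.alt (nat_lit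 1) (.exp (.alt (nat_lit 9) (.cov (nat_lit 803371046486416995278556084942405632)) .e)) .e)) .e)))), .rot (.rot (.exp (.alt (nat_lit 3) (.exp (.alt (nat_lit 1) (.exp (.alt (nat_lit 9) (.exp (.alt (nat_lit 17) (.cov (nat_lit 4069819229056687669704)) .e)) .e)) .e)) .e))), .rot (.rot (.exp (.alt (nat_lit 3) (.exp (.alt (nat_lit 1) (.exp (.alt (nat_lit 2) (.cov (nat_lit 14304195650187029498056385924956160)) .e)) .e)) (.alt (nat_lit 3) (.exp (.alt (nat_lit 1) (.exp (.alt (nat_lit 9) (.cov (nat_lit 14628720495140726702803802664206336)) .e)) .e)) .e)))), .rot (.rot (.exp (.alt (nat_lit 3) (.exp (.alt (nat_lit 1) (.exp (.alt (nat_lit 9) (.exp (.alt (nat_lit 17) (.cov (nat_lit 159117962684844212679)) .e)) .e)) .e)) .e))), .rot (.rot (.exp (.alt (nat_lit 3) (.exp (.alt (nat_lit 1) (.exp (.alt (nat_lit 2) (.cov (nat_lit 14304195650187029498056385924956160)) .e)) .e)) (.alt (nat_lit 3) (.exp (.alt (nat_lit 1) (.exp (.alt (nat_lit 9) (.cov (nat_lit 14628720495140726702803802664206336)) .e)) .e)) .e)))), .rot (.rot (.exp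 (.alt (nat_lit 3) (.exp (.alt (nat_lit 1) (.exp (.alt (nat_lit 9) (.exp (.alt (nat_lit 17) (.cov (nat_lit 159117962684844212679)) .e)) .e)) .e)) .e))), .rot (.rot (.exp (.alt (nat_lit 3) (.exp (.alt (nat_lit 1) (.exp (.alt (nat_lit 2) (.cov (nat_lit 14304195650187029498056385924956160)) .e)) .e)) (.alt (nat_lit 3) (.exp (.alt (nat_lit 1) (.exp (.alt (nat_lit 9) (.cov (nat_lit 14628720495140726702803802664206336)) .e)) .e)) .e)))), .rot (.rot (.exp (.alt (nat_lit 3) (.exp (.alt (nat_lit 1) (.exp (.alt (nat_lit 9) (.exp (.alt (nat_lit 17) (.cov (nat_lit 159117962684844212679)) .e)) .e)) .e)) .e))), .rot (.rot (.exp (.alt (nat_lit 3) (.exp (.alt (nat_lit 1) (.exp (.alt (nat_lit 2) (.cov (nat_lit 2946046276979199291132875317968896)) .e)) .e)) (.alt (nat_lit 3) (.cov (nat_lit 25366788952276985494557500112899)) .e)))), .rot (.rot (.exp (.alt (nat_lit 3) (.cov (nat_lit 25366788952276985494557466558466)) .e))), .rot (.rot (.exp (.alt (nat_lit 3) (.exp (.alt (nat_lit 1) (.exp (.alt (nat_lit 2) (.cov (nat_lit 2946046276979199291132875317968896))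 .e)) .e)) (.alt (nat_lit 3) (.cov (nat_lit 22417159472306729227687422126456835)) .e)))), .rot (.rot (.exp (.alt (nat_lit 3) (.cov (nat_lit 187626070613356704577320588935170)) .e))), .rot (.rot (.exp (.alt (nat_lit 3) (.exp (.alt (nat_lit 1) (.exp (.alt (nat_lit 2) (.cov (nat_lit 2946046276979199291132875317968896)) .e)) .e)) (.alt (nat_lit 3) (.cov (nat_lit 22417159472306729227687422126456835)) .e)))), .rot (.rot (.exp (.alt (nat_lit 3) (.cov (nat_lit 187632337684805586814962265751554)) .e))), .rot (.rot (.exp (.alt (nat_lit 3) (.exp (.alt (nat_lit 1) (.exp (.alt (nat_lit 2) (.cov (nat_lit 2946046276979199291132875317968896)) .e)) .e)) (.alt (nat_lit 3) (.cov (nat_lit 22417159472306729227687422126456835)) .e)))), .rot (.rot (.exp (.alt (nat_lit 3) (.exp (.alt (nat_lit 1) (.exp (.alt (nat_lit 9) (.exp (.alt (nat_lit 17) (.exp (.alt (nat_lit 0) (.cov (nat_lit 56004836478236831611851803912568834)) (.alt (nat_lit 0) (.cov (nat_lit 889043963298713603564835541977399297)) (.alt (nat_lit 0) (.cov (nat_lit 6191238066153059198012635708653568))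 (.alt (nat_lit 0) (.exp (.alt (nat_lit 2) (.cov (nat_lit 230109040187156427947041191555497987)) (.alt (nat_lit 2) (.cov (nat_lit 99814840796607864767785743476064257)) (.alt (nat_lit 2) (.cov (nat_lit 889043968434254249305842028520669184)) (.alt (nat_lit 2) (.exp (.alt (nat_lit 6) (.cov (nat_lit 91539622818646744266236325378654209)) (.alt (nat_lit 6) (.cov (nat_lit 45390534431400790065163)) .e))) .e))))) .e))))) .e)) .e)) .e)) .e)))]),
   ([8, 8, 7], [.rot (.rot (.exp (.alt (nat_lit 3) (.exp (.alt (nat_lit 1) (.exp (.alt (nat_lit 9) (.cov (nat_lit 106028907646754267402824672869091305202719391744)) .e)) .e)) (.alt (nat_lit 3) (.exp (.alt (nat_lit 1) (.exp (.alt (nat_lit 9) (.cov (nat_lit 3432800054702639308969475067346951)) .e)) .e)) (.alt (nat_lit 3) (.cov (nat_lit 1967516710859296863692464484242149162831966109696)) (.alt (nat_lit 3) (.cov (nat_lit 187614523292683753806847682805794)) .e)))))), .rot (.rot (.exp (.alt (nat_lit 3) (.cov (nat_lit 7548807194434167699203171852354108489255092226)) (.alt (nat_lit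 3) (.exp (.alt (nat_lit 1) (.exp (.alt (nat_lit 9) (.cov (nat_lit 3432800054702639308969475067346950)) .e)) .e)) (.alt (nat_lit 3) (.cov (nat_lit 24675776954884640893834994367719788435920125952)) (.alt (nat_lit 3) (.cov (nat_lit 14628690156256969817198773228535843)) .e)))))), .rot (.rot (.exp (.alt (nat_lit 3) (.cov (nat_lit 1669935554721585945662490032607407833413153980418)) (.alt (nat_lit 3) (.cov (nat_lit 11708022027254325951341470260658195)) .e)))), .rot (.rot (.exp (.alt (nat_lit 3) (.exp (.alt (nat_lit 1) (.exp (.alt (nat_lit 9) (.cov (nat_lit 106028907646754267402824672869091305202719391744)) .e)) .e)) (.alt (nat_lit 3) (.exp (.alt (nat_lit 1) (.exp (.alt (nat_lit 9) (.cov (nat_lit 3432800064374045865886508464996359)) .e)) .e)) (.alt (nat_lit 3) (.cov (nat_lit 1967516710859296863692464484242149162831966109696)) (.alt (nat_lit 3) (.cov (nat_lit 50812513381201434681218260548976674)) .e)))))), .rot (.rot (.exp (.alt (nat_lit 3) (.cov (nat_lit 7548811501933136795632937555822412477517266946)) (.alt (nat_lit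 3) (.exp (.alt (nat_lit 1) (.exp (.alt (nat_lit 9) (.cov (nat_lit 3432800064374045865886508464996358)) .e)) .e)) (.alt (nat_lit 3) (.cov (nat_lit 1967516701086018217262392649440619577270525231104)) (.alt (nat_lit 3) (.cov (nat_lit 50812513381201434681218259877888035)) .e)))))), .rot (.rot (.exp (.alt (nat_lit 3) (.cov (nat_lit 20750852648031937383527172108930177887225511938)) (.alt (nat_lit 3) (.cov (nat_lit 894723007644045203573767842978332691)) .e)))), .rot (.rot (.exp (.alt (nat_lit 3) (.exp (.alt (nat_lit 1) (.exp (.alt (nat_lit 9) (.cov (nat_lit 106028907646754267402824672869091305202719391744)) .e)) .e)) (.alt (nat_lit 3) (.exp (.alt (nat_lit 1) (.exp (.alt (nat_lit 9) (.cov (nat_lit 889368460406051786628420616001159175)) .e)) .e)) (.alt (nat_lit 3) (.cov (nat_lit 1967516710859296863692464484242149162831966109696)) (.alt (nat_lit 3) (.cov (nat_lit 50812513381201434681218260548976674)) .e)))))), .rot (.rot (.exp (.alt (nat_lit 3) (.cov (nat_lit 7548811511813753198871056106189163836002533378)) (.alt (nat_lit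 3) (.exp (.alt (nat_lit 1) (.exp (.alt (nat_lit 9) (.cov (nat_lit 227188347439624876497448738696986630)) .e)) .e)) (.alt (nat_lit 3) (.cov (nat_lit 12900990306291982921442992081286235807221284864)) (.alt (nat_lit 3) (.cov (nat_lit 50812513381201434681218259877888035)) .e)))))), .rot (.rot (.exp (.alt (nat_lit 3) (.cov (nat_lit 1766631597493335422854357655295104482856420769794)) (.alt (nat_lit 3) (.cov (nat_lit 50812513381201434681218260548976659)) .e)))), .rot (.rot (.exp (.alt (nat_lit 3) (.exp (.alt (nat_lit 1) (.exp (.alt (nat_lit 9) (.cov (nat_lit 37521006157251135031921656979155601229085671424)) .e)) .e)) (.alt (nat_lit 3) (.exp (.alt (nat_lit 1) (.exp (.alt (nat_lit 9) (.cov (nat_lit 3919576743938996750588506205585415)) .e)) .e)) (.alt (nat_lit 3) (.cov (nat_lit 140282840064031207446389137712811360007253655552)) (.alt (nat_lit 3) (.cov (nat_lit 4244095283455706750646645444050978)) .e)))))), .rot (.rot (.exp (.alt (nat_lit 3) (.cov (nat_lit 111737886177946770028159197865486255556574314498)) (.alt (nat_lit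 3) (.exp (.alt (nat_lit 1) (.exp (.alt (nat_lit 9) (.cov (nat_lit 3919576743938922963612211501596678)) .e)) .e)) (.alt (nat_lit 3) (.cov (nat_lit 37521006157300624106910556018787834373822480384)) (.alt (nat_lit 3) (.cov (nat_lit 4244095283455706750646645477605411)) .e)))))), .rot (.rot (.exp (.alt (nat_lit 3) (.cov (nat_lit 2196625763521288683339194273393778246632341506)) (.alt (nat_lit 3) (.cov (nat_lit 227188341646439583757756899848618003)) .e)))), .rot (.rot (.exp (.alt (nat_lit 3) (.exp (.alt (nat_lit 1) (.exp (.alt (nat_lit 9) (.cov (nat_lit 1839816402439062253955302796716812640675954688)) .e)) .e)) (.alt (nat_lit 3) (.exp (.alt (nat_lit 1) (.exp (.alt (nat_lit 9) (.cov (nat_lit 187616491105453497255790254227463)) .e)) .e)) (.alt (nat_lit 3) (.cov (nat_lit 3623880335557660404291884023298827177474129920)) (.alt (nat_lit 3) (.cov (nat_lit 894723007643778389868006876535324706)) .e)))))), .rot (.rot (.exp (.alt (nat_lit 3) (.exp (.alt (nat_lit 1) (.exp (.alt (nat_lit 9) (.exp (.alt (nat_lit 17) (.cov (nat_lit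 100301592514273926484449062830473219)) .e)) .e)) .e)) (.alt (nat_lit 3) (.exp (.alt (nat_lit 1) (.exp (.alt (nat_lit 9) (.cov (nat_lit 4081837128146990999085725074325510)) .e)) .e)) (.alt (nat_lit 3) (.cov (nat_lit 1967516701085924269142235253767096687993394561024)) (.alt (nat_lit 3) (.cov (nat_lit 894723007643697888276884600543772707)) .e)))))), .rot (.rot (.exp (.alt (nat_lit 3) (.cov (nat_lit 1967516701181672657102769914931836164154346962946)) (.alt (nat_lit 3) (.cov (nat_lit 894723007643721795257184337584455699)) .e)))), .rot (.rot (.exp (.alt (nat_lit 3) (.exp (.alt (nat_lit 1) (.exp (.alt (nat_lit 9) (.cov (nat_lit 20394040692953975515551338530757271245546323968)) .e)) .e)) (.alt (nat_lit 3) (.exp (.alt (nat_lit 1) (.exp (.alt (nat_lit 9) (.cov (nat_lit 6840252943758156266790442278846471)) .e)) .e)) (.alt (nat_lit 3) (.cov (nat_lit 6478375711136181212708295687464181225952903168)) (.alt (nat_lit 3) (.cov (nat_lit 2946024192686391512647012717690914)) .e)))))), .rot (.rot (.exp (.alt (nat_lit 3) (.exp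 (.alt (nat_lit 1) (.exp (.alt (nat_lit 9) (.exp (.alt (nat_lit 17) (.cov (nat_lit 100301592514273926484449062830473219)) .e)) .e)) .e)) (.alt (nat_lit 3) (.exp (.alt (nat_lit 1) (.exp (.alt (nat_lit 9) (.cov (nat_lit 227188347440006355165409822689460230)) .e)) .e)) (.alt (nat_lit 3) (.cov (nat_lit 12900990307130863383786415440458445544634712064)) (.alt (nat_lit 3) (.cov (nat_lit 2946024192727712219358927302688803)) .e)))))), .rot (.rot (.exp (.alt (nat_lit 3) (.cov (nat_lit 105315283364373128730383228731412280179157893122)) (.alt (nat_lit 3) (.cov (nat_lit 2946024192727712219358927973777427)) .e)))), .rot (.rot (.exp (.alt (nat_lit 3) (.exp (.alt (nat_lit 1) (.exp (.alt (nat_lit 9) (.cov (nat_lit 37521006157251135031921656979155601229085671424)) .e)) .e)) (.alt (nat_lit 3) (.exp (.alt (nat_lit 1) (.exp (.alt (nat_lit 9) (.cov (nat_lit 4081836015959070151014120852291591)) .e)) .e)) (.alt (nat_lit 3) (.cov (nat_lit 140282840064031207446389137712811360007253655552)) (.alt (nat_lit 3) (.cov (nat_lit 4244095283455706750646645444050978))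 .e)))))), .rot (.rot (.exp (.alt (nat_lit 3) (.cov (nat_lit 1766631585870507252115246615145454324709067849730)) (.alt (nat_lit 3) (.exp (.alt (nat_lit 1) (.exp (.alt (nat_lit 9) (.cov (nat_lit 803371033667314919384567978390454278)) .e)) .e)) (.alt (nat_lit 3) (.cov (nat_lit 1766631585870507738893052924545853385557423423488)) (.alt (nat_lit 3) (.cov (nat_lit 4244095283455706750646645477605411)) .e)))))), .rot (.rot (.exp (.alt (nat_lit 3) (.cov (nat_lit 1956098717098541374636256839880835709131969003522)) (.alt (nat_lit 3) (.cov (nat_lit 4244095283455706750646645444050963)) .e)))), .rot (.rot (.exp (.alt (nat_lit 3) (.exp (.alt (nat_lit 1) (.exp (.alt (nat_lit 9) (.cov (nat_lit 2196628240537496569238587180226446444809158656)) .e)) .e)) (.alt (nat_lit 3) (.exp (.alt (nat_lit 1) (.exp (.alt (nat_lit 9) (.cov (nat_lit 11383504614473745990807143236763655)) .e)) .e)) (.alt (nat_lit 3) (.cov (nat_lit 112094700631974013010001236721360229611833655296)) (.alt (nat_lit 3) (.cov (nat_lit 50974768160801437720693337142329378))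 .e)))))), .rot (.rot (.exp (.alt (nat_lit 3) (.exp (.alt (nat_lit 1) (.exp (.alt (nat_lit 9) (.exp (.alt (nat_lit 17) (.cov (nat_lit 187614513265107464746749274357763)) .e)) .e)) .e)) (.alt (nat_lit 3) (.exp (.alt (nat_lit 1) (.exp (.alt (nat_lit 9) (.cov (nat_lit 58600954157615851854976335391752198)) .e)) .e)) (.alt (nat_lit 3) (.cov (nat_lit 128864860989367407454311615661714989885269475328)) (.alt (nat_lit 3) (.cov (nat_lit 63955510278124287121268477805985827)) .e)))))), .rot (.rot (.exp (.alt (nat_lit 3) (.cov (nat_lit 1956098719565552188735133163152635694321864015874)) (.alt (nat_lit 3) (.cov (nat_lit 63955510278124287121268477772431379)) .e)))), .rot (.rot (.exp (.alt (nat_lit 3) (.exp (.alt (nat_lit 1) (.exp (.alt (nat_lit 9) (.cov (nat_lit 109953838418784046168399909054655718315774705664)) .e)) .e)) (.alt (nat_lit 3) (.exp (.alt (nat_lit 1) (.exp (.alt (nat_lit 9) (.cov (nat_lit 50001216740740367717262373652791303)) .e)) .e)) (.alt (nat_lit 3) (.cov (nat_lit 1126201850748864397784603279486773040532946944))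 (.alt (nat_lit 3) (.cov (nat_lit 2946024192346381125359229750738978)) .e)))))), .rot (.rot (.exp (.alt (nat_lit 3) (.exp (.alt (nat_lit 1) (.exp (.alt (nat_lit 9) (.exp (.alt (nat_lit 17) (.cov (nat_lit 6840249060669460411172591207710723)) .e)) .e)) .e)) (.alt (nat_lit 3) (.exp (.alt (nat_lit 1) (.exp (.alt (nat_lit 9) (.cov (nat_lit 8462841872481742959594304172982278)) .e)) .e)) (.alt (nat_lit 3) (.cov (nat_lit 6478375710388490463933217356221584405043347456)) (.alt (nat_lit 3) (.cov (nat_lit 2946024192346381125359229750738980)) .e)))))), .rot (.rot (.exp (.alt (nat_lit 3) (.exp (.alt (nat_lit 1) (.exp (.alt (nat_lit 9) (.exp (.alt (nat_lit 17) (.exp (.alt (nat_lit 11) (.exp (.alt (nat_lit 15) (.exp (.alt (nat_lit 27) (.exp (.alt (nat_lit 0) (.cov (nat_lit 47405066033855713624378592639057922)) (.alt (nat_lit 0) (.cov (nat_lit 14304179518306238385814594159378433)) (.alt (nat_lit 0) (.cov (nat_lit 135836374193110838030860560145317888)) (.alt (nat_lit 0) (.cov (nat_lit 25394251978585889833054)) .e))))) .e))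 .e)) .e)) .e)) .e)) .e)) (.alt (nat_lit 3) (.exp (.alt (nat_lit 1) (.exp (.alt (nat_lit 9) (.exp (.alt (nat_lit 17) (.exp (.alt (nat_lit 19) (.exp (.alt (nat_lit 23) (.exp (.alt (nat_lit 27) (.exp (.alt (nat_lit 0) (.cov (nat_lit 50812510847296403203110472368783362)) (.alt (nat_lit 0) (.cov (nat_lit 14628698072346051546321851489714177)) (.alt (nat_lit 0) (.cov (nat_lit 139081559729668892475363379092914176)) (.alt (nat_lit 0) (.cov (nat_lit 61771231291950246133854)) .e))))) .e)) .e)) .e)) .e)) .e)) .e)) .e))))]),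
   ([8, 7, 8], [.rot (.exp (.alt (nat_lit 5) (.exp (.alt (nat_lit 1) (.exp (.alt (nat_lit 9) (.cov (nat_lit 1955686153291054519234494293785489862904779898880)) .e)) .e)) (.alt (nat_lit 5) (.exp (.alt (nat_lit 1) (.exp (.alt (nat_lit 9) (.cov (nat_lit 6490372161201926681324745311387655)) .e)) .e)) (.alt (nat_lit 5) (.cov (nat_lit 231570940534257866862941083375816677973086437376)) (.alt (nat_lit 5) (.cov (nat_lit 91514233205203799854758989132726306)) .e))))), .rot (.exp (.alt (nat_lit 5) (.exp (.alt (nat_lit 1) (.exp (.alt (nat_lit 9) (.cov (nat_lit 1955686153291054519234494293785489862904779898880)) .e)) .e)) (.alt (nat_lit 5) (.exp (.alt (nat_lit 1) (.exp (.alt (nat_lit 9) (.cov (nat_lit 6490372161201926681329143357898759)) .e)) .e)) (.alt (nat_lit 5) (.cov (nat_lit 231570940534257866862941083375816677973086437376)) (.alt (nat_lit 5) (.cov (nat_lit 6814890700697312245238074488913954)) .e))))), .rot (.exp (.alt (nat_lit 5) (.exp (.alt (nat_lit 1) (.exp (.alt (nat_lit 9) (.cov (nat_lit 1955686153291054519234494293785489862904779898880))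 .e)) .e)) (.alt (nat_lit 5) (.exp (.alt (nat_lit 1) (.exp (.alt (nat_lit 9) (.cov (nat_lit 6652631433240815760709941747253255)) .e)) .e)) (.alt (nat_lit 5) (.cov (nat_lit 231570940534257866862941083375816677973086437376)) (.alt (nat_lit 5) (.cov (nat_lit 6814890700697312245238074488913954)) .e))))), .rot (.exp (.alt (nat_lit 5) (.cov (nat_lit 713626249597536052266504580767386317418921986)) (.alt (nat_lit 5) (.exp (.alt (nat_lit 1) (.exp (.alt (nat_lit 9) (.cov (nat_lit 6490372161203328633874346666885126)) .e)) .e)) (.alt (nat_lit 5) (.cov (nat_lit 1955686153291051111784129492848954559819938791424)) (.alt (nat_lit 5) (.cov (nat_lit 91514233205203209558946431303155747)) .e))))), .rot (.exp (.alt (nat_lit 5) (.cov (nat_lit 203025986648132053329119692645087195233726234626)) (.alt (nat_lit 5) (.exp (.alt (nat_lit 1) (.exp (.alt (nat_lit 9) (.cov (nat_lit 6490372161203328633878744713396230)) .e)) .e)) (.alt (nat_lit 5) (.cov (nat_lit 1955686153291155931278068540732472519538615779328)) (.alt (nat_lit 5) (.cov (nat_lit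 6814890700697312245238074388250659)) .e))))), .rot (.exp (.alt (nat_lit 5) (.cov (nat_lit 1663814000132681991592280218079923925838166228994)) (.alt (nat_lit 5) (.exp (.alt (nat_lit 1) (.exp (.alt (nat_lit 9) (.cov (nat_lit 756615008928156902670525990416941062)) .e)) .e)) (.alt (nat_lit 5) (.cov (nat_lit 1663814000132734401338671875387673410174916231168)) (.alt (nat_lit 5) (.cov (nat_lit 6814890700697312245238074388250659)) .e))))), .rot (.exp (.alt (nat_lit 5) (.cov (nat_lit 122029680087827878972949996780120952308293959682)) (.alt (nat_lit 5) (.cov (nat_lit 61009489161315672033338876926885907)) .e))), .rot (.exp (.alt (nat_lit 5) (.cov (nat_lit 122029680087077916598559565525852363498785341442)) (.alt (nat_lit 5) (.cov (nat_lit 61009489161717220758841161795239955)) .e))), .rot (.exp (.alt (nat_lit 5) (.cov (nat_lit 1682011408236042304501887577364770272184525389826)) (.alt (nat_lit 5) (.cov (nat_lit 6814890700697312245238074488913939)) .e))), .rot (.exp (.alt (nat_lit 5) (.exp (.alt (nat_lit 1) (.exp (.alt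 (nat_lit 9) (.cov (nat_lit 3211321909053459745186282158134341485651296256)) .e)) .e)) (.alt (nat_lit 5) (.exp (.alt (nat_lit 1) (.exp (.alt (nat_lit 9) (.cov (nat_lit 2920669221878306330348716349718535)) .e)) .e)) (.alt (nat_lit 5) (.cov (nat_lit 1693429401996631640058622104511852627092267073536)) (.alt (nat_lit 5) (.cov (nat_lit 92325535237471956264099171991027746)) .e))))), .rot (.exp (.alt (nat_lit 5) (.exp (.alt (nat_lit 1) (.exp (.alt (nat_lit 9) (.cov (nat_lit 1954972531922378466950727117575979436052963131392)) .e)) .e)) (.alt (nat_lit 5) (.exp (.alt (nat_lit 1) (.exp (.alt (nat_lit 9) (.cov (nat_lit 889343098520507584646711525713641479)) .e)) .e)) (.alt (nat_lit 5) (.cov (nat_lit 713628780448938102914585804526236576403947520)) (.alt (nat_lit 5) (.cov (nat_lit 11682670151698035282469904289103906)) .e))))), .rot (.exp (.alt (nat_lit 5) (.exp (.alt (nat_lit 1) (.exp (.alt (nat_lit 9) (.cov (nat_lit 122029682564888545903814785584110671737864060928)) .e)) .e)) (.alt (nat_lit 5) (.exp (.alt (nat_lit 1) (.exp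 (.alt (nat_lit 9) (.cov (nat_lit 844721797397333815123485963863457799)) .e)) .e)) (.alt (nat_lit 5) (.cov (nat_lit 203382801102158485014577586909883737294991523840)) (.alt (nat_lit 5) (.cov (nat_lit 92487790017075205930531222706978850)) .e))))), .rot (.exp (.alt (nat_lit 5) (.cov (nat_lit 6422623869360624867065772856400470848318734338)) (.alt (nat_lit 5) (.exp (.alt (nat_lit 1) (.exp (.alt (nat_lit 9) (.cov (nat_lit 811298623098532606258201611993094)) .e)) .e)) (.alt (nat_lit 5) (.cov (nat_lit 1693429392223602223877759942543297149777201856512)) (.alt (nat_lit 5) (.cov (nat_lit 92325535237471956264099172427235363)) .e))))), .rot (.exp (.alt (nat_lit 5) (.exp (.alt (nat_lit 1) (.exp (.alt (nat_lit 9) (.exp (.alt (nat_lit 17) (.cov (nat_lit 324520778486441942198471761068035)) .e)) .e)) .e)) (.alt (nat_lit 5) (.exp (.alt (nat_lit 1) (.exp (.alt (nat_lit 9) (.cov (nat_lit 55492674875857883629031728685776902)) .e)) .e)) (.alt (nat_lit 5) (.cov (nat_lit 122029682564854958231518828574930003433444343808)) (.alt (nat_lit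 5) (.cov (nat_lit 3407447067258076698709042555519011)) .e))))), .rot (.exp (.alt (nat_lit 5) (.exp (.alt (nat_lit 1) (.exp (.alt (nat_lit 9) (.exp (.alt (nat_lit 17) (.cov (nat_lit 324520778486441942198471761068035)) .e)) .e)) .e)) (.alt (nat_lit 5) (.exp (.alt (nat_lit 1) (.exp (.alt (nat_lit 9) (.cov (nat_lit 100113976013549904825952785014980614)) .e)) .e)) (.alt (nat_lit 5) (.cov (nat_lit 220152961459604613723857458348666353050815823872)) (.alt (nat_lit 5) (.cov (nat_lit 105468532134398055331106363236417571)) .e))))), .rot (.exp (.alt (nat_lit 5) (.cov (nat_lit 112038953118224846870498638662231924717369950210)) (.alt (nat_lit 5) (.cov (nat_lit 230083656739242699064596791424974867)) .e))), .rot (.exp (.alt (nat_lit 5) (.cov (nat_lit 12488422149672537360338903243373628546339569666)) (.alt (nat_lit 5) (.cov (nat_lit 55979452716401876931453667700113427)) .e))), .rot (.exp (.alt (nat_lit 5) (.cov (nat_lit 1682011410703001195632178552360284952411128201218)) (.alt (nat_lit 5) (.cov (nat_lit 105468532134398055331106363337080851))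 .e))), .rot (.exp (.alt (nat_lit 5) (.exp (.alt (nat_lit 1) (.exp (.alt (nat_lit 9) (.cov (nat_lit 3211321909053459745186282158134341485651296256)) .e)) .e)) (.alt (nat_lit 5) (.exp (.alt (nat_lit 1) (.exp (.alt (nat_lit 9) (.cov (nat_lit 764727982789207824098325646015463431)) .e)) .e)) (.alt (nat_lit 5) (.cov (nat_lit 1693429401996631640058622104511852627092267073536)) (.alt (nat_lit 5) (.cov (nat_lit 92325535237471956264099171991027746)) .e))))), .rot (.exp (.alt (nat_lit 5) (.exp (.alt (nat_lit 1) (.exp (.alt (nat_lit 9) (.cov (nat_lit 1767289464702060347030134530604704068113110401024)) .e)) .e)) (.alt (nat_lit 5) (.exp (.alt (nat_lit 1) (.exp (.alt (nat_lit 9) (.cov (nat_lit 14603345219594799562568955495186439)) .e)) .e)) (.alt (nat_lit 5) (.cov (nat_lit 9230916319730172557643375941002957160448)) (.alt (nat_lit 5) (.cov (nat_lit 4197734742651924788171243554)) .e))))), .rot (.exp (.alt (nat_lit 5) (.exp (.alt (nat_lit 1) (.exp (.alt (nat_lit 9) (.cov (nat_lit 122029680098458457759070040139776900395816714240))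 .e)) .e)) (.alt (nat_lit 5) (.exp (.alt (nat_lit 1) (.exp (.alt (nat_lit 9) (.cov (nat_lit 55492673754296655606171971758325767)) .e)) .e)) (.alt (nat_lit 5) (.cov (nat_lit 201241927042891702669452726862584714687167856640)) (.alt (nat_lit 5) (.cov (nat_lit 6814890705188873065109575653392418)) .e))))), .rot (.exp (.alt (nat_lit 5) (.cov (nat_lit 6422623879329510316898983476452240644400742402)) (.alt (nat_lit 5) (.exp (.alt (nat_lit 1) (.exp (.alt (nat_lit 9) (.cov (nat_lit 61009494954524724179903428288315398)) .e)) .e)) (.alt (nat_lit 5) (.cov (nat_lit 24620031908161378968995493324168721433275400192)) (.alt (nat_lit 5) (.cov (nat_lit 92325535237471956264099172427235363)) .e))))), .rot (.exp (.alt (nat_lit 5) (.exp (.alt (nat_lit 1) (.exp (.alt (nat_lit 9) (.exp (.alt (nat_lit 17) (.cov (nat_lit 224891364107105010537751183900016643)) .e)) .e)) .e)) (.alt (nat_lit 5) (.exp (.alt (nat_lit 1) (.exp (.alt (nat_lit 9) (.cov (nat_lit 61009494954830644984138597957369862)) .e)) .e)) (.alt (nat_lit 5) (.cov (nat_lit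 24620031908834105931865802199227955288153784320)) (.alt (nat_lit 5) (.cov (nat_lit 4197740645610015181524434979)) .e))))), .rot (.exp (.alt (nat_lit 5) (.exp (.alt (nat_lit 1) (.exp (.alt (nat_lit 9) (.exp (.alt (nat_lit 17) (.cov (nat_lit 5841335044239049392593377461010435)) .e)) .e)) .e)) (.alt (nat_lit 5) (.exp (.alt (nat_lit 1) (.exp (.alt (nat_lit 9) (.cov (nat_lit 5679075767446065434582355566133254)) .e)) .e)) (.alt (nat_lit 5) (.cov (nat_lit 14986103144755500706683342441192656109055246336)) (.alt (nat_lit 5) (.cov (nat_lit 6814890705188873065109575653392420)) .e))))), .rot (.exp (.alt (nat_lit 5) (.cov (nat_lit 1663814011755551538446982706382860339364651597826)) (.alt (nat_lit 5) (.cov (nat_lit 92325535237471956264099171991027731)) .e))), .rot (.exp (.alt (nat_lit 5) (.cov (nat_lit 2497697626589244323008279819168136687388721154)) (.alt (nat_lit 5) (.cov (nat_lit 4197740645610015181088227347)) .e))), .rot (.exp (.alt (nat_lit 5) (.exp (.alt (nat_lit 1) (.exp (.alt (nat_lit 9) (.exp (.alt (nat_lit 17)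 (.exp (.alt (nat_lit 13) (.exp (.alt (nat_lit 15) (.exp (.alt (nat_lit 29) (.rot (.exp (.alt (nat_lit 0) (.cov (nat_lit 3260401531527923004209596207202306)) (.alt (nat_lit 0) (.cov (nat_lit 1313296167144912238482749464248321)) (.alt (nat_lit 0) (.cov (nat_lit 8452700677735421785957941481832448)) (.alt (nat_lit 0) (.cov (nat_lit 2958399498936647680094)) .e)))))) .e)) .e)) .e)) .e)) .e)) .e)) (.alt (nat_lit 5) (.exp (.alt (nat_lit 1) (.exp (.alt (nat_lit 9) (.exp (.alt (nat_lit 17) (.exp (.alt (nat_lit 21) (.exp (.alt (nat_lit 23) (.exp (.alt (nat_lit 29) (.rot (.exp (.alt (nat_lit 0) (.cov (nat_lit 756954742403552255768881298602459138)) (.alt (nat_lit 0) (.cov (nat_lit 1637814720848256787085544002682881)) (.alt (nat_lit 0) (.cov (nat_lit 9263997061476305869336801244610560)) (.alt (nat_lit 0) (.cov (nat_lit 3843843214647037526110)) .e)))))) .e)) .e)) .e)) .e)) .e)) .e)) .e)))]),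
   ([8, 4, 11], [.cov (nat_lit 47232693903951568711235752591098081), .cov (nat_lit 47232693903951568711235752591098081), .cov (nat_lit 47232693903951568711235752591098081), .cov (nat_lit 47232693903951568711235752591098081), .rot (.exp (.alt (nat_lit 5) (.exp (.alt (nat_lit 1) (.exp (.alt (nat_lit 9) (.cov (nat_lit 324519636856410755674920732065792)) .e)) .e)) .e)), .rot (.exp (.alt (nat_lit 5) (.exp (.alt (nat_lit 1) (.exp (.alt (nat_lit 9) (.cov (nat_lit 324519636856410755674920732065792)) .e)) .e)) .e)), .rot (.exp (.alt (nat_lit 5) (.exp (.alt (nat_lit 1) (.exp (.alt (nat_lit 9) (.cov (nat_lit 324519636856410755674920732065792)) .e)) .e)) .e)), .rot (.exp (.alt (nat_lit 5) (.exp (.alt (nat_lit 1) (.exp (.alt (nat_lit 9) (.cov (nat_lit 324519636856410755674920732065792)) .e)) .e)) .e)), .rot (.exp (.alt (nat_lit 5) (.exp (.alt (nat_lit 1) (.exp (.alt (nat_lit 4) (.cov (nat_lit 162261472283887697826306234253312)) .e)) .e)) (.alt (nat_lit 5) (.exp (.alt (nat_lit 1) (.exp (.alt (nat_lit 9) (.cov (nat_lit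 3407447018859501851789318308233216)) .e)) .e)) .e))), .rot (.exp (.alt (nat_lit 5) (.exp (.alt (nat_lit 1) (.exp (.alt (nat_lit 4) (.cov (nat_lit 2920669207349945857254964368244736)) .e)) .e)) (.alt (nat_lit 5) (.exp (.alt (nat_lit 1) (.exp (.alt (nat_lit 9) (.cov (nat_lit 889018579947505754523183413996814336)) .e)) .e)) .e))), .rot (.exp (.alt (nat_lit 5) (.exp (.alt (nat_lit 1) (.exp (.alt (nat_lit 4) (.cov (nat_lit 2920669207349945857254964368244736)) .e)) .e)) (.alt (nat_lit 5) (.exp (.alt (nat_lit 1) (.exp (.alt (nat_lit 9) (.cov (nat_lit 889018579947505754523183413996814336)) .e)) .e)) .e))), .rot (.exp (.alt (nat_lit 5) (.exp (.alt (nat_lit 1) (.exp (.alt (nat_lit 4) (.cov (nat_lit 2920669207349945857254964368244736)) .e)) .e)) (.alt (nat_lit 5) (.exp (.alt (nat_lit 1) (.exp (.alt (nat_lit 9) (.cov (nat_lit 889018579947505754523183413996814336)) .e)) .e)) .e))), .rot (.exp (.alt (nat_lit 5) (.exp (.alt (nat_lit 1) (.exp (.alt (nat_lit 9) (.exp (.alt (nat_lit 17) (.cov (nat_lit 1549527504974899055417))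 .e)) .e)) .e)) .e)), .rot (.exp (.alt (nat_lit 5) (.exp (.alt (nat_lit 1) (.exp (.alt (nat_lit 9) (.exp (.alt (nat_lit 17) (.cov (nat_lit 404278844119974822287944)) .e)) .e)) .e)) .e)), .rot (.exp (.alt (nat_lit 5) (.exp (.alt (nat_lit 1) (.exp (.alt (nat_lit 9) (.exp (.alt (nat_lit 17) (.cov (nat_lit 404278844119974822287944)) .e)) .e)) .e)) .e)), .rot (.exp (.alt (nat_lit 5) (.exp (.alt (nat_lit 1) (.exp (.alt (nat_lit 9) (.exp (.alt (nat_lit 17) (.cov (nat_lit 404278844119974822287944)) .e)) .e)) .e)) .e)), .rot (.exp (.alt (nat_lit 5) (.exp (.alt (nat_lit 1) (.exp (.alt (nat_lit 4) (.cov (nat_lit 47379709912492213923047016721547264)) .e)) .e)) (.alt (nat_lit 5) (.cov (nat_lit 770082528909808829611353980370157571)) .e))), .rot (.exp (.alt (nat_lit 5) (.exp (.alt (nat_lit 1) (.exp (.alt (nat_lit 4) (.cov (nat_lit 47379709912492213923047016721547264)) .e)) .e)) (.alt (nat_lit 5) (.cov (nat_lit 48353265573572050248795276016877571)) .e))), .rot (.exp (.alt (nat_lit 5) (.exp (.alt (nat_lit 1) (.exp (.alt (nat_lit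 4) (.cov (nat_lit 47379709912492213923047016721547264)) .e)) .e)) (.alt (nat_lit 5) (.cov (nat_lit 48353265573572050248795276016877571)) .e))), .rot (.exp (.alt (nat_lit 5) (.exp (.alt (nat_lit 1) (.exp (.alt (nat_lit 4) (.cov (nat_lit 47379709912492213923047016721547264)) .e)) .e)) (.alt (nat_lit 5) (.cov (nat_lit 48353265573572050248795276016877571)) .e))), .rot (.exp (.alt (nat_lit 5) (.cov (nat_lit 770082528909808829611353979933949954)) .e)), .rot (.exp (.alt (nat_lit 5) (.cov (nat_lit 6165853597873273994498739417382914)) .e)), .rot (.exp (.alt (nat_lit 5) (.cov (nat_lit 6165853597873273997348673556578306)) .e)), .rot (.exp (.alt (nat_lit 5) (.exp (.alt (nat_lit 1) (.exp (.alt (nat_lit 9) (.exp (.alt (nat_lit 17) (.rot (.exp (.alt (nat_lit 0) (.cov (nat_lit 6667875117354143305600115159334914)) (.alt (nat_lit 0) (.cov (nat_lit 99804699596617978192988126878629889)) (.alt (nat_lit 0) (.cov (nat_lit 55507917017432095833840377212698624)) (.alt (nat_lit 0) (.exp (.alt (nat_lit 4) (.cov (nat_lit 22407024640960099629745780627079171))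 (.alt (nat_lit 4) (.cov (nat_lit 889033822089077411840101600074924033)) (.alt (nat_lit 4) (.cov (nat_lit 99804704732136197304887000466194432)) (.alt (nat_lit 4) (.exp (.alt (nat_lit 6) (.cov (nat_lit 800440262080678103088828678131417089)) (.alt (nat_lit 6) (.cov (nat_lit 404285775443475398918155)) .e))) .e))))) .e)))))) .e)) .e)) .e)) .e))]),
   ([8, 1, 14], [.cov (nat_lit 22407049569010317921795049512763614), .cov (nat_lit 22407049569010317921795049512763614), .cov (nat_lit 22407049569010317921795049512763614), .cov (nat_lit 22407049569010317921795049512763614), .cov (nat_lit 22407049569010317921795049512763614), .cov (nat_lit 22407049569010317921795049579872713), .cov (nat_lit 22407049569010317921795049579872713), .cov (nat_lit 22407049569010317921795049579872713), .cov (nat_lit 22407049569010317921795049579872713), .cov (nat_lit 22407049569010317921795049579872713), .cov (nat_lit 826542839162807254263044241359071), .cov (nat_lit 826549304498090553299870569988319), .cov (nat_lit 826549309333793831758387268813023),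 .cov (nat_lit 2935941847699341922139163970240735), .rot (.exp (.alt (nat_lit 5) (.rot (.exp (.alt (nat_lit 0) (.cov (nat_lit 50153385877791608755290073269796866)) (.alt (nat_lit 0) (.cov (nat_lit 1313343600555400712277180997959681)) (.alt (nat_lit 0) (.cov (nat_lit 889520624958834017574215758388396032)) (.alt (nat_lit 0) (.cov (nat_lit 404507147758901846343774)) .e)))))) .e))]),
   ([11, 11, 1], [.cov (nat_lit 15211807205332841000554035414737), .cov (nat_lit 15211807205332841000554035414737), .cov (nat_lit 15211807205332841000554035414737), .cov (nat_lit 15211807205332841000554035414737), .cov (nat_lit 15211807202750285870303262284361), .cov (nat_lit 15211807204521181413575699204895), .cov (nat_lit 15211807204521181413575699204895), .cov (nat_lit 15211807204521181413575699204895), .cov (nat_lit 15211807202750285870303262284361), .cov (nat_lit 15211807202824075269923506492730), .cov (nat_lit 15211807204521181413575699204896), .cov (nat_lit 15211807204521181413575699204896), .cov (nat_lit 15211807202750285870303262284361),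 .cov (nat_lit 15211807202824075269923506492730), .cov (nat_lit 15211807202824075272131119682874), .rot (.rot (.exp (.alt (nat_lit 3) (.exp (.alt (nat_lit 0) (.cov (nat_lit 3757354208783625155406174114283531)) (.alt (nat_lit 0) (.cov (nat_lit 756153615628778971696715940988190726)) (.alt (nat_lit 0) (.cov (nat_lit 11708054019918978597982985789636610)) (.alt (nat_lit 0) (.cov (nat_lit 1485719052586362843789258473340929)) (.alt (nat_lit 0) (.cov (nat_lit 47891872225742048856582616085692416)) (.alt (nat_lit 0) (.exp (.alt (nat_lit 1) (.cov (nat_lit 4081872820470198381638156475695111)) (.alt (nat_lit 1) (.cov (nat_lit 63793275073426254482799082966351875)) (.alt (nat_lit 1) (.cov (nat_lit 105331656209180160514551140202840065)) (.alt (nat_lit 1) (.exp (.alt (nat_lit 9) (.exp (.alt (nat_lit 17) (.cov (nat_lit 55842577201407639001047308833914882)) (.alt (nat_lit 17) (.cov (nat_lit 889368481852370501517703589336711169)) (.alt (nat_lit 17) (.cov (nat_lit 769945654101233742030471967269715968)) (.alt (nat_lit 17) (.exp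 (.alt (nat_lit 19) (.cov (nat_lit 52759650612826242512633509242208259)) (.alt (nat_lit 19) (.cov (nat_lit 100139359350241003314286852932894721)) (.alt (nat_lit 19) (.cov (nat_lit 889368486987888863591869034741628928)) (.alt (nat_lit 19) (.exp (.alt (nat_lit 23) (.cov (nat_lit 92350919202792831835781298361729025)) (.alt (nat_lit 23) (.cov (nat_lit 45538108383989771272203)) .e))) .e))))) .e))))) .e)) (.alt (nat_lit 1) (.cov (nat_lit 21778702023649594966520)) .e)))))) .e))))))) .e)))]),
   ([11, 8, 4], [.cov (nat_lit 15211836217191314207781815327305), .rot (.rot (.exp (.alt (nat_lit 3) (.exp (.alt (nat_lit 1) (.exp (.alt (nat_lit 9) (.cov (nat_lit 187613372032935654404966556106752)) .e)) .e)) .e))), .rot (.rot (.exp (.alt (nat_lit 3) (.exp (.alt (nat_lit 1) (.exp (.alt (nat_lit 7) (.cov (nat_lit 25355207818131857633727683231744)) .e)) .e)) (.alt (nat_lit 3) (.exp (.alt (nat_lit 1) (.exp (.alt (nat_lit 9) (.cov (nat_lit 25355217450578891067086513111040)) .e)) .e)) .e)))), .rot (.rot (.exp (.alt (nat_lit 3) (.exp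 (.alt (nat_lit 1) (.exp (.alt (nat_lit 9) (.exp (.alt (nat_lit 17) (.cov (nat_lit 11530217966800997177)) .e)) .e)) .e)) .e))), .rot (.rot (.exp (.alt (nat_lit 3) (.exp (.alt (nat_lit 1) (.exp (.alt (nat_lit 7) (.cov (nat_lit 52759619059860738798493702645874688)) .e)) .e)) (.alt (nat_lit 3) (.cov (nat_lit 894723006526650430958207516204335107)) .e)))), .rot (.rot (.exp (.alt (nat_lit 3) (.cov (nat_lit 894723006526650430958207516204335106)) .e))), .cov (nat_lit 15211836217191314207781815327305), .rot (.rot (.exp (.alt (nat_lit 3) (.exp (.alt (nat_lit 1) (.exp (.alt (nat_lit 9) (.cov (nat_lit 187613372032935654404966556106752)) .e)) .e)) .e))), .rot (.rot (.exp (.alt (nat_lit 3) (.exp (.alt (nat_lit 1) (.exp (.alt (nat_lit 7) (.cov (nat_lit 3432800049863394267103518225596416)) .e)) .e)) (.alt (nat_lit 3) (.exp (.alt (nat_lit 1) (.exp (.alt (nat_lit 9) (.cov (nat_lit 16738060725665173558664524165283840)) .e)) .e)) .e)))), .rot (.rot (.exp (.alt (nat_lit 3) (.exp (.alt (nat_lit 1) (.exp (.alt (nat_lit 9) (.exp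 (.alt (nat_lit 17) (.cov (nat_lit 7611588773969985018440)) .e)) .e)) .e)) .e))), .rot (.rot (.exp (.alt (nat_lit 3) (.exp (.alt (nat_lit 1) (.exp (.alt (nat_lit 7) (.cov (nat_lit 52759619059860738798493702645874688)) .e)) .e)) (.alt (nat_lit 3) (.cov (nat_lit 56167063873681080816995584325976067)) .e)))), .rot (.rot (.exp (.alt (nat_lit 3) (.cov (nat_lit 3595058180610639211663282725191682)) .e))), .cov (nat_lit 15211836217191314207781815327305), .rot (.rot (.exp (.alt (nat_lit 3) (.exp (.alt (nat_lit 1) (.exp (.alt (nat_lit 9) (.cov (nat_lit 187613372032935654404966556106752)) .e)) .e)) .e))), .rot (.rot (.exp (.alt (nat_lit 3) (.exp (.alt (nat_lit 1) (.exp (.alt (nat_lit 7) (.cov (nat_lit 3432800049863394267103518225596416)) .e)) .e)) (.alt (nat_lit 3) (.exp (.alt (nat_lit 1) (.exp (.alt (nat_lit 9) (.cov (nat_lit 16738060725665173558664524165283840)) .e)) .e)) .e)))), .rot (.rot (.exp (.alt (nat_lit 3) (.exp (.alt (nat_lit 1) (.exp (.alt (nat_lit 9) (.exp (.alt (nat_lit 17) (.cov (nat_lit 7611588773969985018440))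 .e)) .e)) .e)) .e))), .rot (.rot (.exp (.alt (nat_lit 3) (.exp (.alt (nat_lit 1) (.exp (.alt (nat_lit 7) (.cov (nat_lit 52759619059860738798493702645874688)) .e)) .e)) (.alt (nat_lit 3) (.cov (nat_lit 56167063873681080816995584325976067)) .e)))), .rot (.rot (.exp (.alt (nat_lit 3) (.cov (nat_lit 3595058180610639214513216864387074)) .e))), .cov (nat_lit 15211836217191314207781815327305), .rot (.rot (.exp (.alt (nat_lit 3) (.exp (.alt (nat_lit 1) (.exp (.alt (nat_lit 9) (.cov (nat_lit 187613372032935654404966556106752)) .e)) .e)) .e))), .rot (.rot (.exp (.alt (nat_lit 3) (.exp (.alt (nat_lit 1) (.exp (.alt (nat_lit 7) (.cov (nat_lit 3432800049863394267103518225596416)) .e)) .e)) (.alt (nat_lit 3) (.exp (.alt (nat_lit 1) (.exp (.alt (nat_lit 9) (.cov (nat_lit 16738060725665173558664524165283840)) .e)) .e)) .e)))), .rot (.rot (.exp (.alt (nat_lit 3) (.exp (.alt (nat_lit 1) (.exp (.alt (nat_lit 9) (.exp (.alt (nat_lit 17) (.cov (nat_lit 7611588773969985018440)) .e)) .e)) .e)) .e))), .rot (.rot (.exp (.alt (nat_lit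 3) (.exp (.alt (nat_lit 1) (.exp (.alt (nat_lit 7) (.cov (nat_lit 52759619059860738798493702645874688)) .e)) .e)) (.alt (nat_lit 3) (.cov (nat_lit 56167063873681080816995584325976067)) .e)))), .rot (.rot (.exp (.alt (nat_lit 3) (.exp (.alt (nat_lit 1) (.exp (.alt (nat_lit 9) (.exp (.alt (nat_lit 17) (.rot (.exp (.alt (nat_lit 5) (.cov (nat_lit 4056514880884297415637131278155778)) (.alt (nat_lit 5) (.cov (nat_lit 58251112921141352307624110951759873)) (.alt (nat_lit 5) (.cov (nat_lit 973588195689236374393165712457728)) (.alt (nat_lit 5) (.exp (.alt (nat_lit 7) (.cov (nat_lit 770082560462772472515872024368775171)) (.alt (nat_lit 7) (.cov (nat_lit 16712738048022457820068565986836481)) (.alt (nat_lit 7) (.cov (nat_lit 58251118056653663849733379623747584)) (.alt (nat_lit 7) (.exp (.alt (nat_lit 6) (.cov (nat_lit 8437520070083388095216257840709633)) (.alt (nat_lit 6) (.cov (nat_lit 7600073353399707369483)) .e))) .e))))) .e)))))) .e)) .e)) .e)) .e)))]),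
   ([11, 4, 8], [.cov (nat_lit 8614954567184665129847567792740937), .rot (.exp (.alt (nat_lit 5) (.exp (.alt (nat_lit 1) (.exp (.alt (nat_lit 7) (.cov (nat_lit 99789469142941744415666336255967232)) .e)) .e)) (.alt (nat_lit 5) (.exp (.alt (nat_lit 1) (.exp (.alt (nat_lit 9) (.cov (nat_lit 803345693474411257016434461110173696)) .e)) .e)) .e))), .rot (.exp (.alt (nat_lit 5) (.exp (.alt (nat_lit 1) (.exp (.alt (nat_lit 7) (.cov (nat_lit 26282049981671204282121060352)) .e)) .e)) (.alt (nat_lit 5) (.cov (nat_lit 3407458590380089412148267909644291)) .e))), .rot (.exp (.alt (nat_lit 5) (.exp (.alt (nat_lit 1) (.exp (.alt (nat_lit 9) (.cov (nat_lit 3569736629691389825568498573639680)) .e)) .e)) .e)), .rot (.exp (.alt (nat_lit 5) (.exp (.alt (nat_lit 1) (.exp (.alt (nat_lit 9) (.exp (.alt (nat_lit 17) (.cov (nat_lit 365319325953537944322504)) .e)) .e)) .e)) .e)), .rot (.exp (.alt (nat_lit 5) (.cov (nat_lit 3407458590380089412148268547178498)) .e)), .cov (nat_lit 8614954567184665129847567792740937), .rot (.exp (.alt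 (nat_lit 5) (.exp (.alt (nat_lit 1) (.exp (.alt (nat_lit 7) (.cov (nat_lit 3894248921112890357470781681696768)) .e)) .e)) (.alt (nat_lit 5) (.exp (.alt (nat_lit 1) (.exp (.alt (nat_lit 9) (.cov (nat_lit 1622625336855768358771091162791936)) .e)) .e)) .e))), .rot (.exp (.alt (nat_lit 5) (.exp (.alt (nat_lit 1) (.exp (.alt (nat_lit 7) (.cov (nat_lit 26282049981671204282121060352)) .e)) .e)) (.alt (nat_lit 5) (.cov (nat_lit 894697678694154393741930616459362307)) .e))), .rot (.exp (.alt (nat_lit 5) (.exp (.alt (nat_lit 1) (.exp (.alt (nat_lit 9) (.cov (nat_lit 3569736629691389825568498573639680)) .e)) .e)) .e)), .rot (.exp (.alt (nat_lit 5) (.exp (.alt (nat_lit 1) (.exp (.alt (nat_lit 9) (.exp (.alt (nat_lit 17) (.cov (nat_lit 368949676549063311815)) .e)) .e)) .e)) .e)), .rot (.exp (.alt (nat_lit 5) (.cov (nat_lit 324532335434470622605840649027586)) .e)), .cov (nat_lit 8614954567184665129847567792740937), .rot (.exp (.alt (nat_lit 5) (.exp (.alt (nat_lit 1) (.exp (.alt (nat_lit 7) (.cov (nat_lit 3894248921112890357470781681696768))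 .e)) .e)) (.alt (nat_lit 5) (.exp (.alt (nat_lit 1) (.exp (.alt (nat_lit 9) (.cov (nat_lit 1622625336855768358771091162791936)) .e)) .e)) .e))), .rot (.exp (.alt (nat_lit 5) (.exp (.alt (nat_lit 1) (.exp (.alt (nat_lit 7) (.cov (nat_lit 26282049981671204282121060352)) .e)) .e)) (.alt (nat_lit 5) (.cov (nat_lit 894697678694154393741930616459362307)) .e))), .rot (.exp (.alt (nat_lit 5) (.exp (.alt (nat_lit 1) (.exp (.alt (nat_lit 9) (.cov (nat_lit 3569736629691389825568498573639680)) .e)) .e)) .e)), .rot (.exp (.alt (nat_lit 5) (.exp (.alt (nat_lit 1) (.exp (.alt (nat_lit 9) (.exp (.alt (nat_lit 17) (.cov (nat_lit 368949676549063311815)) .e)) .e)) .e)) .e)), .rot (.exp (.alt (nat_lit 5) (.cov (nat_lit 324538602505919504843482325843970)) .e)), .cov (nat_lit 8614954567184665129847567792740937), .rot (.exp (.alt (nat_lit 5) (.exp (.alt (nat_lit 1) (.exp (.alt (nat_lit 7) (.cov (nat_lit 3894248921112890357470781681696768)) .e)) .e)) (.alt (nat_lit 5) (.exp (.alt (nat_lit 1) (.exp (.alt (nat_lit 9) (.cov (nat_lit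 1622625336855768358771091162791936)) .e)) .e)) .e))), .rot (.exp (.alt (nat_lit 5) (.exp (.alt (nat_lit 1) (.exp (.alt (nat_lit 7) (.cov (nat_lit 26282049981671204282121060352)) .e)) .e)) (.alt (nat_lit 5) (.cov (nat_lit 894697678694154393741930616459362307)) .e))), .rot (.exp (.alt (nat_lit 5) (.exp (.alt (nat_lit 1) (.exp (.alt (nat_lit 9) (.cov (nat_lit 3569736629691389825568498573639680)) .e)) .e)) .e)), .rot (.exp (.alt (nat_lit 5) (.exp (.alt (nat_lit 1) (.exp (.alt (nat_lit 9) (.exp (.alt (nat_lit 17) (.cov (nat_lit 368949676549063311815)) .e)) .e)) .e)) .e)), .rot (.exp (.alt (nat_lit 5) (.exp (.alt (nat_lit 1) (.exp (.alt (nat_lit 9) (.exp (.alt (nat_lit 17) (.exp (.alt (nat_lit 3) (.cov (nat_lit 48191038178429958711578857623781378)) (.alt (nat_lit 3) (.cov (nat_lit 764403485681872002217982006810116097)) (.alt (nat_lit 3) (.cov (nat_lit 13954330341931853504375995203846144)) (.alt (nat_lit 3) (.exp (.alt (nat_lit 7) (.cov (nat_lit 63930187702037169414321536414777347)) (.alt (nat_lit 7) (.cov (nat_lit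 224404612389435633018840615718223873)) (.alt (nat_lit 7) (.cov (nat_lit 764403490817410291387433076389838848)) (.alt (nat_lit 7) (.exp (.alt (nat_lit 6) (.cov (nat_lit 135811052381016247292486470107922433)) (.alt (nat_lit 6) (.cov (nat_lit 102047403010789927288843)) .e))) .e))))) .e))))) .e)) .e)) .e)) .e))]),
   ([11, 1, 11], [.cov (nat_lit 50153360886877040317389478782043857), .cov (nat_lit 50153360886877040317389478782043857), .cov (nat_lit 50153360886877040317389478782043857), .cov (nat_lit 50153360886877040317389478782043857), .cov (nat_lit 826516629651038009102546375809609), .cov (nat_lit 3909460728315486147010620234402591), .cov (nat_lit 3909460728315486147010620234402591), .cov (nat_lit 3909460728315486147010620234402591), .cov (nat_lit 826516629651038009102546375809609), .cov (nat_lit 2935892557375824594478452514493754), .cov (nat_lit 48043984025861520989519839032773408), .cov (nat_lit 48043984025861520989519839032773408), .cov (nat_lit 826516629651038009102546375809609), .cov (nat_lit 2935892557375824594478452514493754),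 .cov (nat_lit 2935892562211527872936970287060282), .rot (.exp (.alt (nat_lit 5) (.rot (.exp (.alt (nat_lit 0) (.cov (nat_lit 47881736301527465227821945095979019)) (.alt (nat_lit 0) (.cov (nat_lit 49991101663240957316237940779646982)) (.alt (nat_lit 0) (.cov (nat_lit 180447560717499050690012142863646722)) (.alt (nat_lit 0) (.cov (nat_lit 14456319994122860458500538488586241)) (.alt (nat_lit 0) (.cov (nat_lit 3747207723400091136965010718195712)) (.alt (nat_lit 0) (.exp (.alt (nat_lit 1) (.cov (nat_lit 48206254913215661767532414468358151)) (.alt (nat_lit 1) (.cov (nat_lit 769935506629366889085838196533624835)) (.alt (nat_lit 1) (.cov (nat_lit 894550637501313234363276516152836097)) (.alt (nat_lit 1) (.exp (.alt (nat_lit 9) (.exp (.alt (nat_lit 17) (.cov (nat_lit 6505615840524950694795620080680962)) (.alt (nat_lit 17) (.cov (nat_lit 100129218150274876145856174237941761)) (.alt (nat_lit 17) (.cov (nat_lit 63783140135695358715112492872237056)) (.alt (nat_lit 17) (.exp (.alt (nat_lit 21) (.cov (nat_lit 5856578404380357316391906509324291))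 (.alt (nat_lit 21) (.cov (nat_lit 889358340642734236005993352596029441)) (.alt (nat_lit 21) (.cov (nat_lit 100129223285791840879158035575996416)) (.alt (nat_lit 21) (.exp (.alt (nat_lit 23) (.cov (nat_lit 803685447617262391109247321268813825)) (.alt (nat_lit 23) (.cov (nat_lit 404433349396064380125195)) .e))) .e))))) .e))))) .e)) (.alt (nat_lit 1) (.cov (nat_lit 1704032785434537886200)) .e)))))) .e)))))))) .e))]),
   ([14, 8, 1], [.cov (nat_lit 15211807203193004379117948251775), .cov (nat_lit 15211807203340578848478089719423), .cov (nat_lit 15211807204299809025580999908349), .cov (nat_lit 15211807203193004379117948251775), .cov (nat_lit 15211807203340578848478089719423), .cov (nat_lit 15211807204299809025580999909686), .cov (nat_lit 15211807203193004379117948251775), .cov (nat_lit 15211807203340578848478089719423), .cov (nat_lit 15211807204299809025580999909687), .cov (nat_lit 15211807203193004379117948251775), .cov (nat_lit 15211807203340578848478089719423), .cov (nat_lit 15211807204299809025580999914224),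 .cov (nat_lit 15211807203193004379117948251775), .cov (nat_lit 15211807203340578848478089719423), .rot (.rot (.exp (.alt (nat_lit 3) (.rot (.exp (.alt (nat_lit 5) (.cov (nat_lit 486835360849666120840583131955202)) (.alt (nat_lit 5) (.cov (nat_lit 48028803520166195932425027860824065)) (.alt (nat_lit 5) (.cov (nat_lit 224891415259174534490330031289532416)) (.alt (nat_lit 5) (.cov (nat_lit 102268775326216916828254)) .e)))))) .e)))]),
   ([14, 1, 8], [.cov (nat_lit 13969510688041227351499435751255679), .cov (nat_lit 14294030378089924516034015995637375), .cov (nat_lit 339731439223008105065387070069757), .cov (nat_lit 13969510688041227351499435751255679), .cov (nat_lit 14294030378089924516034015995637375), .cov (nat_lit 339731439223008105065387070071094), .cov (nat_lit 13969510688041227351499435751255679), .cov (nat_lit 14294030378089924516034015995637375), .cov (nat_lit 339731439223008105065387070071095), .cov (nat_lit 13969510688041227351499435751255679), .cov (nat_lit 14294030378089924516034015995637375), .cov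 (nat_lit 339731439223008105065386432541424), .cov (nat_lit 13969510688041227351499435751255679), .cov (nat_lit 14294030378089924516034015995637375), .rot (.exp (.alt (nat_lit 5) (.exp (.alt (nat_lit 3) (.cov (nat_lit 8599799202310329678733465216876546)) (.alt (nat_lit 3) (.cov (nat_lit 3894280222620156478229791203393537)) (.alt (nat_lit 3) (.cov (nat_lit 224891415259174529878644012862144512)) (.alt (nat_lit 3) (.cov (nat_lit 102268775326216914731102)) .e))))) .e))]),
   ([15, 7, 1], [.cov (nat_lit 15211807202824069218209829499394), .cov (nat_lit 15211807202750282246313037804034), .cov (nat_lit 15211807568217175704903060825863), .cov (nat_lit 15211807202824069218209829499394), .cov (nat_lit 15211807202750282246313037804034), .cov (nat_lit 15211807568217175704914502889320), .cov (nat_lit 15211807202824069218209829499394), .cov (nat_lit 15211807202750282246313037804034), .cov (nat_lit 15211807568217175704903060826922), .cov (nat_lit 15211807202824069218209829499394), .cov (nat_lit 15211807202750282246313037804034),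 .cov (nat_lit 15211807568217175704903060826923), .cov (nat_lit 15211807202824069218209829499394), .cov (nat_lit 15211807202750282246313037804034), .cov (nat_lit 15211807568217175704903060826924), .cov (nat_lit 15211807202824069218209829499394), .cov (nat_lit 15211807202750282246313037804034), .rot (.rot (.exp (.alt (nat_lit 3) (.rot (.exp (.alt (nat_lit 5) (.exp (.alt (nat_lit 1) (.exp (.alt (nat_lit 9) (.exp (.alt (nat_lit 17) (.exp (.alt (nat_lit 7) (.exp (.alt (nat_lit 6) (.exp (.alt (nat_lit 15) (.exp (.alt (nat_lit 0) (.cov (nat_lit 184469345104430104594)) (.alt (nat_lit 0) (.cov (nat_lit 3855372952876741558283)) (.alt (nat_lit 0) (.cov (nat_lit 25419625276467776061442)) (.alt (nat_lit 0) (.cov (nat_lit 102084297147649024327681)) (.alt (nat_lit 0) (.exp (.alt (nat_lit 16) (.cov (nat_lit 21970073548596921237538)) (.alt (nat_lit 2) (.cov (nat_lit 21882453599094346612743)) (.alt (nat_lit 2) (.cov (nat_lit 21587310993559898816515)) (.alt (nat_lit 2) (.exp (.alt (nat_lit 10) (.exp (.alt (nat_lit 18) (.cov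 (nat_lit 406847552374622008639499)) (.alt (nat_lit 18) (.exp (.alt (nat_lit 26) (.exp (.alt (nat_lit 27) (.exp (.alt (nat_lit 24) (.exp (.alt (nat_lit 22) (.cov (nat_lit 63133981609874626183171)) (.alt (nat_lit 22) (.exp (.alt (nat_lit 23) (.exp (.alt (nat_lit 30) (.cov (nat_lit 6410243574410210443265)) (.alt (nat_lit 30) (.exp (.alt (nat_lit 28) (.cov (nat_lit 21538879560060244066304)) (.alt (nat_lit 14) (.cov (nat_lit 157047324680)) .e))) .e))) .e)) (.alt (nat_lit 16) (.cov (nat_lit 156585951427)) .e)))) .e)) .e)) .e)) (.alt (nat_lit 18) (.cov (nat_lit 347661179511680203227137)) (.alt (nat_lit 18) (.exp (.alt (nat_lit 26) (.exp (.alt (nat_lit 27) (.exp (.alt (nat_lit 31) (.exp (.alt (nat_lit 23) (.exp (.alt (nat_lit 30) (.exp (.alt (nat_lit 24) (.cov (nat_lit 6410243574410774577153)) (.alt (nat_lit 24) (.exp (.alt (nat_lit 28) (.cov (nat_lit 6391796832535488495616)) (.alt (nat_lit 8) (.cov (nat_lit 157047324680)) .e))) .e))) .e)) .e)) .e)) .e)) (.alt (nat_lit 16) (.cov (nat_lit 344336148680708938792963))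 (.alt (nat_lit 16) (.exp (.alt (nat_lit 24) (.exp (.alt (nat_lit 20) (.cov (nat_lit 1671736214849151041538)) (.alt (nat_lit 20) (.cov (nat_lit 802433510142932680705)) (.alt (nat_lit 20) (.exp (.alt (nat_lit 21) (.cov (nat_lit 1454986956452463116291)) (.alt (nat_lit 28) (.exp (.alt (nat_lit 12) (.exp (.alt (nat_lit 29) (.cov (nat_lit 6417161103437863059457)) (.alt (nat_lit 29) (.exp (.alt (nat_lit 31) (.cov (nat_lit 6398714361563145306112)) (.alt (nat_lit 25) (.cov (nat_lit 9960423432)) .e))) .e))) .e)) (.alt (nat_lit 21) (.cov (nat_lit 10935599721)) .e)))) .e)))) .e)) (.alt (nat_lit 19) (.cov (nat_lit 174712688522)) .e))))) .e))))) .e)) (.alt (nat_lit 2) (.cov (nat_lit 3567265453)) .e)))))) .e)))))) .e)) .e)) .e)) .e)) .e)) .e)) (.alt (nat_lit 5) (.exp (.alt (nat_lit 1) (.exp (.alt (nat_lit 9) (.exp (.alt (nat_lit 17) (.exp (.alt (nat_lit 19) (.exp (.alt (nat_lit 18) (.exp (.alt (nat_lit 23) (.exp (.alt (nat_lit 0) (.cov (nat_lit 41634303278729821945874)) (.alt (nat_lit 0) (.cov (nat_lit 4215084462327222763531))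 (.alt (nat_lit 0) (.cov (nat_lit 406806059000595891617794)) (.alt (nat_lit 0) (.cov (nat_lit 6364142149170156797953)) (.alt (nat_lit 0) (.exp (.alt (nat_lit 8) (.cov (nat_lit 24229799697615574532130)) (.alt (nat_lit 2) (.cov (nat_lit 22749450570385818910727)) (.alt (nat_lit 2) (.cov (nat_lit 21495077273018977746947)) (.alt (nat_lit 2) (.exp (.alt (nat_lit 6) (.exp (.alt (nat_lit 10) (.cov (nat_lit 405565503661496481087499)) (.alt (nat_lit 10) (.exp (.alt (nat_lit 14) (.exp (.alt (nat_lit 15) (.exp (.alt (nat_lit 12) (.exp (.alt (nat_lit 26) (.cov (nat_lit 21748711280496480354307)) (.alt (nat_lit 26) (.exp (.alt (nat_lit 27) (.exp (.alt (nat_lit 30) (.cov (nat_lit 433498494528324108289)) (.alt (nat_lit 30) (.exp (.alt (nat_lit 28) (.cov (nat_lit 1395035031569422090240)) (.alt (nat_lit 22) (.cov (nat_lit 658505736)) .e))) .e))) .e)) (.alt (nat_lit 8) (.cov (nat_lit 629145795)) .e)))) .e)) .e)) .e)) (.alt (nat_lit 10) (.cov (nat_lit 345235432665987384606721)) (.alt (nat_lit 10) (.exp (.alt (nat_lit 14) (.exp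 (.alt (nat_lit 15) (.exp (.alt (nat_lit 31) (.exp (.alt (nat_lit 27) (.exp (.alt (nat_lit 30) (.exp (.alt (nat_lit 12) (.cov (nat_lit 433498494684635332609)) (.alt (nat_lit 12) (.exp (.alt (nat_lit 28) (.cov (nat_lit 424275124690456936448)) (.alt (nat_lit 4) (.cov (nat_lit 658505736)) .e))) .e))) .e)) .e)) .e)) .e)) (.alt (nat_lit 8) (.cov (nat_lit 1383506234337797341187)) (.alt (nat_lit 8) (.exp (.alt (nat_lit 12) (.exp (.alt (nat_lit 24) (.cov (nat_lit 406845246421670228393986)) (.alt (nat_lit 24) (.cov (nat_lit 728646533848098668545)) (.alt (nat_lit 24) (.exp (.alt (nat_lit 25) (.cov (nat_lit 350181460297851161542659)) (.alt (nat_lit 28) (.exp (.alt (nat_lit 20) (.exp (.alt (nat_lit 29) (.cov (nat_lit 440416023555955752961)) (.alt (nat_lit 29) (.exp (.alt (nat_lit 31) (.cov (nat_lit 431192653718092775424)) (.alt (nat_lit 13) (.cov (nat_lit 10350493704)) .e))) .e))) .e)) (.alt (nat_lit 25) (.cov (nat_lit 19055772265)) .e)))) .e)))) .e)) (.alt (nat_lit 11) (.cov (nat_lit 166244388746)) .e))))) .e))))) .e))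 (.alt (nat_lit 2) (.cov (nat_lit 2992645805)) .e)))))) .e)))))) .e)) .e)) .e)) .e)) .e)) .e)) .e)))) .e)))]),
   ([15, 4, 4], [.cov (nat_lit 15211836238810897780574223610640), .cov (nat_lit 501989671540682256312028645831170), .cov (nat_lit 15211836217191313728384578630146), .cov (nat_lit 48043957782501230747714709566269191), .cov (nat_lit 15211836238810897780574223610640), .cov (nat_lit 501989671540682256312028645831170), .cov (nat_lit 15211836217191313728384578630146), .cov (nat_lit 48043957782501230747714721008332648), .cov (nat_lit 15211836238810897780574223610640), .cov (nat_lit 501989671540682256312028645831170), .cov (nat_lit 15211836217191313728384578630146), .cov (nat_lit 48043957782501230747714709566270250), .cov (nat_lit 15211836238810897780574223610640), .cov (nat_lit 501989671540682256312028645831170), .cov (nat_lit 15211836217191313728384578630146), .cov (nat_lit 48043957782501230747714709566270251), .cov (nat_lit 15211836238810897780574223610640), .cov (nat_lit 501989671540682256312028645831170),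 .cov (nat_lit 15211836217191313728384578630146), .cov (nat_lit 48043957782501230747714709566270252), .cov (nat_lit 15211836238810897780574223610640), .cov (nat_lit 501989671540682256312028645831170), .cov (nat_lit 15211836217191313728384578630146), .rot (.rot (.exp (.alt (nat_lit 3) (.exp (.alt (nat_lit 1) (.exp (.alt (nat_lit 9) (.exp (.alt (nat_lit 17) (.rot (.exp (.alt (nat_lit 5) (.exp (.alt (nat_lit 7) (.exp (.alt (nat_lit 6) (.exp (.alt (nat_lit 15) (.exp (.alt (nat_lit 0) (.cov (nat_lit 184469345104430104594)) (.alt (nat_lit 0) (.cov (nat_lit 3855372952876741558283)) (.alt (nat_lit 0) (.cov (nat_lit 25419625276467776061442)) (.alt (nat_lit 0) (.cov (nat_lit 102084297147649024327681)) (.alt (nat_lit 0) (.exp (.alt (nat_lit 16) (.cov (nat_lit 21970073548596921237538)) (.alt (nat_lit 2) (.cov (nat_lit 21882453599094346612743)) (.alt (nat_lit 2) (.cov (nat_lit 21587310993559898816515)) (.alt (nat_lit 2) (.exp (.alt (nat_lit 10) (.exp (.alt (nat_lit 18) (.cov (nat_lit 406847552374622008639499)) (.alt (nat_lit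 18) (.exp (.alt (nat_lit 26) (.exp (.alt (nat_lit 27) (.exp (.alt (nat_lit 24) (.exp (.alt (nat_lit 22) (.cov (nat_lit 63133981609874626183171)) (.alt (nat_lit 22) (.exp (.alt (nat_lit 23) (.exp (.alt (nat_lit 30) (.cov (nat_lit 6410243574410210443265)) (.alt (nat_lit 30) (.exp (.alt (nat_lit 28) (.cov (nat_lit 21538879560060244066304)) (.alt (nat_lit 14) (.cov (nat_lit 157047324680)) .e))) .e))) .e)) (.alt (nat_lit 16) (.cov (nat_lit 156585951427)) .e)))) .e)) .e)) .e)) (.alt (nat_lit 18) (.cov (nat_lit 347661179511680203227137)) (.alt (nat_lit 18) (.exp (.alt (nat_lit 26) (.exp (.alt (nat_lit 27) (.exp (.alt (nat_lit 31) (.exp (.alt (nat_lit 23) (.exp (.alt (nat_lit 30) (.exp (.alt (nat_lit 24) (.cov (nat_lit 6410243574410774577153)) (.alt (nat_lit 24) (.exp (.alt (nat_lit 28) (.cov (nat_lit 6391796832535488495616)) (.alt (nat_lit 8) (.cov (nat_lit 157047324680)) .e))) .e))) .e)) .e)) .e)) .e)) (.alt (nat_lit 16) (.cov (nat_lit 344336148680708938792963)) (.alt (nat_lit 16) (.exp (.alt (nat_lit 24) (.exp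 (.alt (nat_lit 20) (.cov (nat_lit 1671736214849151041538)) (.alt (nat_lit 20) (.cov (nat_lit 802433510142932680705)) (.alt (nat_lit 20) (.exp (.alt (nat_lit 21) (.cov (nat_lit 1454986956452463116291)) (.alt (nat_lit 28) (.exp (.alt (nat_lit 12) (.exp (.alt (nat_lit 29) (.cov (nat_lit 6417161103437863059457)) (.alt (nat_lit 29) (.exp (.alt (nat_lit 31) (.cov (nat_lit 6398714361563145306112)) (.alt (nat_lit 25) (.cov (nat_lit 9960423432)) .e))) .e))) .e)) (.alt (nat_lit 21) (.cov (nat_lit 10935599721)) .e)))) .e)))) .e)) (.alt (nat_lit 19) (.cov (nat_lit 174712688522)) .e))))) .e))))) .e)) (.alt (nat_lit 2) (.cov (nat_lit 3567265453)) .e)))))) .e)))))) .e)) .e)) .e)) .e))) .e)) .e)) .e)) .e)))]),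
   ([15, 1, 7], [.cov (nat_lit 2935879249520402276640508556096002), .cov (nat_lit 826508660412035109467027819999746), .cov (nat_lit 92340740506781878633264529520207623), .cov (nat_lit 2935879249520402276640508556096002), .cov (nat_lit 826508660412035109467027819999746), .cov (nat_lit 92340740506781878633264530191298408), .cov (nat_lit 2935879249520402276640508556096002), .cov (nat_lit 826508660412035109467027819999746), .cov (nat_lit 92340740506781878633264529520208682), .cov (nat_lit 2935879249520402276640508556096002), .cov (nat_lit 826508660412035109467027819999746), .cov (nat_lit 92340740506781878633264529520208683), .cov (nat_lit 2935879249520402276640508556096002), .cov (nat_lit 826508660412035109467027819999746), .cov (nat_lit 92340740506781878633264529520208684), .cov (nat_lit 2935879249520402276640508556096002), .cov (nat_lit 826508660412035109467027819999746), .rot (.exp (.alt (nat_lit 5) (.exp (.alt (nat_lit 3) (.exp (.alt (nat_lit 1) (.exp (.alt (nat_lit 9) (.exp (.alt (nat_lit 17) (.exp (.alt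 (nat_lit 7) (.exp (.alt (nat_lit 6) (.exp (.alt (nat_lit 15) (.exp (.alt (nat_lit 0) (.cov (nat_lit 1586421894852384915474)) (.alt (nat_lit 0) (.cov (nat_lit 3855372952876741558283)) (.alt (nat_lit 0) (.cov (nat_lit 25419625276467776061442)) (.alt (nat_lit 0) (.cov (nat_lit 7636967490256690479105)) (.alt (nat_lit 0) (.exp (.alt (nat_lit 16) (.cov (nat_lit 1900015996390726434850)) (.alt (nat_lit 4) (.cov (nat_lit 1817007732753575182343)) (.alt (nat_lit 4) (.cov (nat_lit 1521865127219127386115)) (.alt (nat_lit 4) (.exp (.alt (nat_lit 12) (.exp (.alt (nat_lit 20) (.cov (nat_lit 406852164060637751672843)) (.alt (nat_lit 20) (.exp (.alt (nat_lit 28) (.exp (.alt (nat_lit 29) (.exp (.alt (nat_lit 24) (.exp (.alt (nat_lit 22) (.cov (nat_lit 4099788887975433076739)) (.alt (nat_lit 22) (.exp (.alt (nat_lit 23) (.exp (.alt (nat_lit 30) (.cov (nat_lit 6405631888392353480705)) (.alt (nat_lit 30) (.exp (.alt (nat_lit 26) (.cov (nat_lit 21534267874041814581248)) (.alt (nat_lit 14) (.cov (nat_lit 157045227528)) .e))) .e)))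 .e)) (.alt (nat_lit 16) (.cov (nat_lit 10554966211)) .e)))) .e)) .e)) .e)) (.alt (nat_lit 20) (.cov (nat_lit 26540258676544901218305)) (.alt (nat_lit 20) (.exp (.alt (nat_lit 28) (.exp (.alt (nat_lit 29) (.exp (.alt (nat_lit 31) (.exp (.alt (nat_lit 23) (.exp (.alt (nat_lit 30) (.exp (.alt (nat_lit 24) (.cov (nat_lit 6405631888391776763905)) (.alt (nat_lit 24) (.exp (.alt (nat_lit 26) (.cov (nat_lit 6387185146517059010560)) (.alt (nat_lit 8) (.cov (nat_lit 157045227528)) .e))) .e))) .e)) .e)) .e)) .e)) (.alt (nat_lit 16) (.cov (nat_lit 23210616159555207299075)) (.alt (nat_lit 16) (.exp (.alt (nat_lit 24) (.exp (.alt (nat_lit 18) (.cov (nat_lit 21737182080863504957442)) (.alt (nat_lit 18) (.cov (nat_lit 6700779927712130138113)) (.alt (nat_lit 18) (.exp (.alt (nat_lit 19) (.cov (nat_lit 21525044508648453177347)) (.alt (nat_lit 26) (.exp (.alt (nat_lit 10) (.exp (.alt (nat_lit 27) (.cov (nat_lit 6417161103438433484801)) (.alt (nat_lit 27) (.exp (.alt (nat_lit 31) (.cov (nat_lit 6398714361563147403264)) (.alt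 (nat_lit 25) (.cov (nat_lit 835715080)) .e))) .e))) .e)) (.alt (nat_lit 19) (.cov (nat_lit 1236271721)) .e)))) .e)))) .e)) (.alt (nat_lit 21) (.cov (nat_lit 19559092106)) .e))))) .e))))) .e)) (.alt (nat_lit 4) (.cov (nat_lit 46519035565)) .e)))))) .e)))))) .e)) .e)) .e)) .e)) .e)) .e)) (.alt (nat_lit 3) (.exp (.alt (nat_lit 1) (.exp (.alt (nat_lit 9) (.exp (.alt (nat_lit 17) (.exp (.alt (nat_lit 21) (.exp (.alt (nat_lit 20) (.exp (.alt (nat_lit 23) (.exp (.alt (nat_lit 0) (.cov (nat_lit 364009602711023972778002)) (.alt (nat_lit 0) (.cov (nat_lit 63240053812325389434891)) (.alt (nat_lit 0) (.cov (nat_lit 406806059000432680763394)) (.alt (nat_lit 0) (.cov (nat_lit 461184045583668609025)) (.alt (nat_lit 0) (.exp (.alt (nat_lit 8) (.cov (nat_lit 345346108846733021675554)) (.alt (nat_lit 4) (.cov (nat_lit 343874983091686149718023)) (.alt (nat_lit 4) (.cov (nat_lit 1429631406831212429315)) (.alt (nat_lit 4) (.exp (.alt (nat_lit 6) (.exp (.alt (nat_lit 12) (.cov (nat_lit 46665650963403279171595)) (.alt (nat_lit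 12) (.exp (.alt (nat_lit 14) (.exp (.alt (nat_lit 15) (.exp (.alt (nat_lit 10) (.exp (.alt (nat_lit 28) (.cov (nat_lit 1678653728299852759043)) (.alt (nat_lit 28) (.exp (.alt (nat_lit 29) (.exp (.alt (nat_lit 30) (.cov (nat_lit 59951927036276113409)) (.alt (nat_lit 30) (.exp (.alt (nat_lit 26) (.cov (nat_lit 136044748538743095296)) (.alt (nat_lit 22) (.cov (nat_lit 9783214088)) .e))) .e))) .e)) (.alt (nat_lit 8) (.cov (nat_lit 58720451)) .e)))) .e)) .e)) .e)) (.alt (nat_lit 12) (.cov (nat_lit 24119123516870507888641)) (.alt (nat_lit 12) (.exp (.alt (nat_lit 14) (.exp (.alt (nat_lit 15) (.exp (.alt (nat_lit 31) (.exp (.alt (nat_lit 29) (.exp (.alt (nat_lit 30) (.exp (.alt (nat_lit 10) (.cov (nat_lit 59951927192014815233)) (.alt (nat_lit 10) (.exp (.alt (nat_lit 26) (.cov (nat_lit 55340243216263806976)) (.alt (nat_lit 2) (.cov (nat_lit 9783214088)) .e))) .e))) .e)) .e)) .e)) .e)) (.alt (nat_lit 8) (.cov (nat_lit 129127637326116159491)) (.alt (nat_lit 8) (.exp (.alt (nat_lit 10) (.exp (.alt (nat_lit 24) (.cov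 (nat_lit 406845246421660025749506)) (.alt (nat_lit 24) (.cov (nat_lit 6626992951417298223105)) (.alt (nat_lit 24) (.exp (.alt (nat_lit 25) (.cov (nat_lit 29065151148733712302083)) (.alt (nat_lit 26) (.exp (.alt (nat_lit 18) (.exp (.alt (nat_lit 27) (.cov (nat_lit 71481142082333048833)) (.alt (nat_lit 27) (.exp (.alt (nat_lit 31) (.cov (nat_lit 66869458262329131008)) (.alt (nat_lit 11) (.cov (nat_lit 156379381768)) .e))) .e))) .e)) (.alt (nat_lit 25) (.cov (nat_lit 166156305001)) .e)))) .e)))) .e)) (.alt (nat_lit 13) (.cov (nat_lit 19141758858)) .e))))) .e))))) .e)) (.alt (nat_lit 4) (.cov (nat_lit 308291245)) .e)))))) .e)))))) .e)) .e)) .e)) .e)) .e)) .e)) .e))) .e))]),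
   ([18, 4, 1], [.cov (nat_lit 15211807203119216927722417699102), .cov (nat_lit 15211807204521169479475786691886), .cov (nat_lit 15211807203119216927722417699102), .cov (nat_lit 15211807204521169479475786692916), .cov (nat_lit 15211807203119216927722417699102), .cov (nat_lit 15211807204521169479475786693098), .cov (nat_lit 15211807203119216927722417699102), .cov (nat_lit 15211807204521169479475786693099), .cov (nat_lit 15211807203119216927722417699102), .cov (nat_lit 15211807204521169479475786693170), .cov (nat_lit 15211807203119216927722417699102), .rot (.rot (.exp (.alt (nat_lit 3) (.rot (.exp (.alt (nat_lit 5) (.exp (.alt (nat_lit 1) (.exp (.alt (nat_lit 9) (.exp (.alt (nat_lit 17) (.exp (.alt (nat_lit 0) (.exp (.alt (nat_lit 2) (.cov (nat_lit 55898328435540238606858867047399427)) (.alt (nat_lit 2) (.cov (nat_lit 3427728350086156890190043307573250)) (.alt (nat_lit 2) (.cov (nat_lit 55898328435539805108392925406953473)) (.alt (nat_lit 2) (.cov (nat_lit 55898328435540985700057623249813504)) (.alt (nat_lit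 2) (.cov (nat_lit 2969926901977329959008)) .e)))))) (.alt (nat_lit 0) (.cov (nat_lit 406866002421626494255329)) (.alt (nat_lit 0) (.exp (.alt (nat_lit 2) (.cov (nat_lit 55898340079934614849251919959949315)) (.alt (nat_lit 2) (.cov (nat_lit 55898340079914480228104261402099713)) (.alt (nat_lit 2) (.cov (nat_lit 55898340079913299636501136143286272)) (.alt (nat_lit 2) (.exp (.alt (nat_lit 6) (.cov (nat_lit 3448034256387213343379269684822017)) (.alt (nat_lit 6) (.cov (nat_lit 21933187482143412977675)) .e))) .e))))) (.alt (nat_lit 0) (.cov (nat_lit 25419625276478614143012)) (.alt (nat_lit 0) (.cov (nat_lit 103338675744672783007760)) (.alt (nat_lit 0) (.cov (nat_lit 406866010940641881620498)) (.alt (nat_lit 0) (.cov (nat_lit 25419625518360367726603)) (.alt (nat_lit 0) (.cov (nat_lit 4284278085847361781766)) (.alt (nat_lit 0) (.cov (nat_lit 344308504323957440118787)) (.alt (nat_lit 0) (.cov (nat_lit 406866023213391333556226)) (.alt (nat_lit 0) (.cov (nat_lit 406879862209896591130625)) (.alt (nat_lit 0) (.cov (nat_lit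 451975807224254562304)) (.alt (nat_lit 0) (.exp (.alt (nat_lit 2) (.exp (.alt (nat_lit 6) (.cov (nat_lit 3660979126036980399551000451481602)) (.alt (nat_lit 6) (.cov (nat_lit 50716836648056217834954791321601)) (.alt (nat_lit 6) (.cov (nat_lit 769970978766347251656237259695325184)) (.alt (nat_lit 6) (.exp (.alt (nat_lit 7) (.cov (nat_lit 224495857095679239668366387104972803)) (.alt (nat_lit 7) (.cov (nat_lit 8488192606847316251901990972424193)) (.alt (nat_lit 7) (.cov (nat_lit 8488192606847316251919583124914176)) (.alt (nat_lit 7) (.exp (.alt (nat_lit 15) (.cov (nat_lit 1551610746823521031064982686531585)) (.alt (nat_lit 15) (.cov (nat_lit 6460975078299208253451)) .e))) .e))))) .e))))) (.alt (nat_lit 2) (.cov (nat_lit 1572590676291717431334)) (.alt (nat_lit 2) (.cov (nat_lit 25248988693651555090529)) (.alt (nat_lit 2) (.exp (.alt (nat_lit 6) (.cov (nat_lit 91564957508171586774946487025532929)) (.alt (nat_lit 6) (.cov (nat_lit 2605611348126746017803)) .e))) (.alt (nat_lit 2) (.cov (nat_lit 2845419005691660599331))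 (.alt (nat_lit 2) (.cov (nat_lit 21587314203950074298383)) (.alt (nat_lit 2) (.cov (nat_lit 410464684701114171399)) (.alt (nat_lit 2) (.cov (nat_lit 26724740637431963844614)) (.alt (nat_lit 2) (.cov (nat_lit 406875244120323120955395)) (.alt (nat_lit 2) (.cov (nat_lit 382791723054557822978)) (.alt (nat_lit 2) (.cov (nat_lit 6368764533436724543489)) (.alt (nat_lit 2) (.cov (nat_lit 392023616305819025408)) (.alt (nat_lit 2) (.exp (.alt (nat_lit 6) (.cov (nat_lit 404532488911473138991198)) (.alt (nat_lit 6) (.cov (nat_lit 16141413448480194596)) (.alt (nat_lit 6) (.cov (nat_lit 102079675645191503478802)) (.alt (nat_lit 6) (.cov (nat_lit 343863461632437716516875)) (.alt (nat_lit 6) (.cov (nat_lit 1934617147928521736198)) (.alt (nat_lit 6) (.cov (nat_lit 6656988928245860663299)) (.alt (nat_lit 6) (.cov (nat_lit 1565682882181513347074)) (.alt (nat_lit 6) (.cov (nat_lit 10198765404480493060097)) (.alt (nat_lit 6) (.cov (nat_lit 1780137077042836406272)) (.alt (nat_lit 6) (.exp (.alt (nat_lit 7) (.cov (nat_lit 104590733483734207561932))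 (.alt (nat_lit 7) (.exp (.alt (nat_lit 15) (.cov (nat_lit 1414702257675815909639042644312065)) (.alt (nat_lit 15) (.cov (nat_lit 643333078104122851339)) .e))) (.alt (nat_lit 7) (.cov (nat_lit 643333641042031280143)) (.alt (nat_lit 7) (.cov (nat_lit 6398723082889364242439)) (.alt (nat_lit 7) (.cov (nat_lit 6398723082889532014598)) (.alt (nat_lit 7) (.cov (nat_lit 404331889458122868129795)) (.alt (nat_lit 7) (.cov (nat_lit 25361987366210117828609)) (.alt (nat_lit 7) (.cov (nat_lit 1602585049873018519552)) (.alt (nat_lit 7) (.cov (nat_lit 753938032)) .e)))))))))) .e))))))))))) .e)))))))))))))) .e)))))))))))))) .e)) .e)) .e)) .e))) .e))), .cov (nat_lit 15211807203119216927722417699102), .rot (.rot (.exp (.alt (nat_lit 3) (.rot (.exp (.alt (nat_lit 5) (.exp (.alt (nat_lit 7) (.exp (.alt (nat_lit 6) (.exp (.alt (nat_lit 15) (.exp (.alt (nat_lit 0) (.cov (nat_lit 666394274555504885985)) (.alt (nat_lit 0) (.cov (nat_lit 343865768218716750741523)) (.alt (nat_lit 0) (.cov (nat_lit 344308496475642782547979)) (.alt (nat_lit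 0) (.exp (.alt (nat_lit 1) (.exp (.alt (nat_lit 9) (.exp (.alt (nat_lit 17) (.exp (.alt (nat_lit 16) (.cov (nat_lit 21970073548596921237538)) (.alt (nat_lit 2) (.cov (nat_lit 21882453599094346612743)) (.alt (nat_lit 2) (.cov (nat_lit 21587310993559898816515)) (.alt (nat_lit 2) (.exp (.alt (nat_lit 10) (.exp (.alt (nat_lit 18) (.cov (nat_lit 406847552374622008639499)) (.alt (nat_lit 18) (.exp (.alt (nat_lit 26) (.exp (.alt (nat_lit 27) (.exp (.alt (nat_lit 24) (.exp (.alt (nat_lit 22) (.cov (nat_lit 63133981609874626183171)) (.alt (nat_lit 22) (.exp (.alt (nat_lit 23) (.exp (.alt (nat_lit 30) (.cov (nat_lit 6410243574410210443265)) (.alt (nat_lit 30) (.exp (.alt (nat_lit 28) (.cov (nat_lit 21538879560060244066304)) (.alt (nat_lit 14) (.cov (nat_lit 157047324680)) .e))) .e))) .e)) (.alt (nat_lit 16) (.cov (nat_lit 156585951427)) .e)))) .e)) .e)) .e)) (.alt (nat_lit 18) (.cov (nat_lit 347661179511680203227137)) (.alt (nat_lit 18) (.exp (.alt (nat_lit 26) (.exp (.alt (nat_lit 27) (.exp (.alt (nat_lit 31) (.exp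 (.alt (nat_lit 23) (.exp (.alt (nat_lit 30) (.exp (.alt (nat_lit 24) (.cov (nat_lit 6410243574410774577153)) (.alt (nat_lit 24) (.exp (.alt (nat_lit 28) (.cov (nat_lit 6391796832535488495616)) (.alt (nat_lit 8) (.cov (nat_lit 157047324680)) .e))) .e))) .e)) .e)) .e)) .e)) (.alt (nat_lit 16) (.cov (nat_lit 344336148680708938792963)) (.alt (nat_lit 16) (.exp (.alt (nat_lit 24) (.exp (.alt (nat_lit 20) (.cov (nat_lit 1671736214849151041538)) (.alt (nat_lit 20) (.cov (nat_lit 802433510142932680705)) (.alt (nat_lit 20) (.exp (.alt (nat_lit 21) (.cov (nat_lit 1454986956452463116291)) (.alt (nat_lit 28) (.exp (.alt (nat_lit 12) (.exp (.alt (nat_lit 29) (.cov (nat_lit 6417161103437863059457)) (.alt (nat_lit 29) (.exp (.alt (nat_lit 31) (.cov (nat_lit 6398714361563145306112)) (.alt (nat_lit 25) (.cov (nat_lit 9960423432)) .e))) .e))) .e)) (.alt (nat_lit 21) (.cov (nat_lit 10935599721)) .e)))) .e)))) .e)) (.alt (nat_lit 19) (.cov (nat_lit 174712688522)) .e))))) .e))))) .e)) (.alt (nat_lit 2) (.cov (nat_lit 3567265453))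 .e)))))) .e)) .e)) .e)) (.alt (nat_lit 0) (.cov (nat_lit 110702432684622217217)) (.alt (nat_lit 0) (.exp (.alt (nat_lit 1) (.cov (nat_lit 104576901438523986411558)) (.alt (nat_lit 1) (.cov (nat_lit 102068149535166233051170)) (.alt (nat_lit 1) (.cov (nat_lit 39214772697942720519)) (.alt (nat_lit 1) (.cov (nat_lit 6680048968022344335363)) (.alt (nat_lit 1) (.exp (.alt (nat_lit 9) (.exp (.alt (nat_lit 17) (.cov (nat_lit 795517742533053513746)) (.alt (nat_lit 17) (.cov (nat_lit 10240249910029620084747)) (.alt (nat_lit 17) (.exp (.alt (nat_lit 19) (.exp (.alt (nat_lit 23) (.exp (.alt (nat_lit 18) (.exp (.alt (nat_lit 16) (.exp (.alt (nat_lit 20) (.exp (.alt (nat_lit 28) (.exp (.alt (nat_lit 29) (.exp (.alt (nat_lit 12) (.exp (.alt (nat_lit 24) (.cov (nat_lit 45438942348361205809153)) (.alt (nat_lit 24) (.exp (.alt (nat_lit 26) (.cov (nat_lit 1390423345550984216576)) (.alt (nat_lit 25) (.cov (nat_lit 47574941704)) .e))) .e))) .e)) .e)) .e)) .e)) (.alt (nat_lit 16) (.cov (nat_lit 1973802044716006506499)) (.alt (nat_lit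 16) (.exp (.alt (nat_lit 20) (.exp (.alt (nat_lit 24) (.cov (nat_lit 406806047090502821478402)) (.alt (nat_lit 24) (.cov (nat_lit 347628892216391118094337)) (.alt (nat_lit 24) (.exp (.alt (nat_lit 25) (.cov (nat_lit 10175685217408609419267)) (.alt (nat_lit 26) (.exp (.alt (nat_lit 27) (.exp (.alt (nat_lit 30) (.cov (nat_lit 1581808313116753133569)) (.alt (nat_lit 10) (.cov (nat_lit 183859413007)) .e))) .e)) (.alt (nat_lit 26) (.exp (.alt (nat_lit 30) (.cov (nat_lit 1581808313117424222210)) (.alt (nat_lit 27) (.cov (nat_lit 46438285379)) .e))) .e)))) .e)))) .e)) (.alt (nat_lit 16) (.exp (.alt (nat_lit 24) (.cov (nat_lit 26507971482413168590850)) (.alt (nat_lit 24) (.exp (.alt (nat_lit 8) (.cov (nat_lit 345350719193555901874183)) (.alt (nat_lit 26) (.cov (nat_lit 45669527997283781574656)) .e))) .e))) .e))))) .e)) .e)) .e)) (.alt (nat_lit 17) (.cov (nat_lit 344347697590207275597825)) (.alt (nat_lit 17) (.exp (.alt (nat_lit 16) (.cov (nat_lit 21970073548596921237538)) (.alt (nat_lit 19) (.cov (nat_lit 800130965668570857479))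 (.alt (nat_lit 19) (.cov (nat_lit 41657368571960376688643)) (.alt (nat_lit 19) (.exp (.alt (nat_lit 23) (.exp (.alt (nat_lit 18) (.cov (nat_lit 21522738795520190316555)) (.alt (nat_lit 18) (.exp (.alt (nat_lit 16) (.exp (.alt (nat_lit 20) (.exp (.alt (nat_lit 24) (.exp (.alt (nat_lit 26) (.cov (nat_lit 47910806063035051933699)) (.alt (nat_lit 26) (.exp (.alt (nat_lit 27) (.exp (.alt (nat_lit 30) (.cov (nat_lit 1581808313116753133569)) (.alt (nat_lit 10) (.cov (nat_lit 183859413007)) .e))) .e)) (.alt (nat_lit 26) (.exp (.alt (nat_lit 30) (.cov (nat_lit 1581808313117424222210)) (.alt (nat_lit 27) (.cov (nat_lit 46438285379)) .e))) .e)))) .e)) .e)) .e)) (.alt (nat_lit 18) (.cov (nat_lit 25590251343554143059969)) (.alt (nat_lit 18) (.exp (.alt (nat_lit 16) (.exp (.alt (nat_lit 20) (.exp (.alt (nat_lit 28) (.exp (.alt (nat_lit 29) (.exp (.alt (nat_lit 12) (.exp (.alt (nat_lit 24) (.cov (nat_lit 45438942348361205809153)) (.alt (nat_lit 24) (.exp (.alt (nat_lit 26) (.cov (nat_lit 1390423345550984216576)) (.alt (nat_lit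 25) (.cov (nat_lit 47574941704)) .e))) .e))) .e)) .e)) .e)) .e)) (.alt (nat_lit 16) (.cov (nat_lit 1973802044716006506499)) (.alt (nat_lit 16) (.exp (.alt (nat_lit 20) (.exp (.alt (nat_lit 24) (.cov (nat_lit 406806047090502821478402)) (.alt (nat_lit 24) (.cov (nat_lit 347628892216391118094337)) (.alt (nat_lit 24) (.exp (.alt (nat_lit 25) (.cov (nat_lit 10175685217408609419267)) (.alt (nat_lit 26) (.exp (.alt (nat_lit 27) (.exp (.alt (nat_lit 30) (.cov (nat_lit 1581808313116753133569)) (.alt (nat_lit 10) (.cov (nat_lit 183859413007)) .e))) .e)) (.alt (nat_lit 26) (.exp (.alt (nat_lit 30) (.cov (nat_lit 1581808313117424222210)) (.alt (nat_lit 27) (.cov (nat_lit 46438285379)) .e))) .e)))) .e)))) .e)) (.alt (nat_lit 2) (.cov (nat_lit 156575469450)) .e))))) .e))))) .e)) (.alt (nat_lit 19) (.cov (nat_lit 824191705)) .e)))))) .e)))))) .e)) (.alt (nat_lit 1) (.cov (nat_lit 1922053382)) .e))))))) .e))))))) .e)) .e)) .e)) .e))) .e)))]),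
   ([18, 1, 4], [.cov (nat_lit 15211836216969952784111330408734), .cov (nat_lit 48043957782499828795149714444006702), .cov (nat_lit 15211836216969952784111330408734), .cov (nat_lit 48043957782499828795149714444007732), .cov (nat_lit 15211836216969952784111330408734), .cov (nat_lit 48043957782499828795149714444007914), .cov (nat_lit 15211836216969952784111330408734), .cov (nat_lit 48043957782499828795149714444007915), .cov (nat_lit 15211836216969952784111330408734), .cov (nat_lit 48043957782499828795149714444007986), .cov (nat_lit 15211836216969952784111330408734), .rot (.exp (.alt (nat_lit 5) (.exp (.alt (nat_lit 3) (.exp (.alt (nat_lit 1) (.exp (.alt (nat_lit 9) (.exp (.alt (nat_lit 17) (.exp (.alt (nat_lit 0) (.exp (.alt (nat_lit 4) (.cov (nat_lit 55898328435540238606858866411962371)) (.alt (nat_lit 4) (.cov (nat_lit 334660885208160841388970041409538)) (.alt (nat_lit 4) (.cov (nat_lit 55898328435541211672628546330689537)) (.alt (nat_lit 4) (.cov (nat_lit 55898328435539735933146629427691520)) (.alt (nat_lit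 4) (.cov (nat_lit 25401167695618347368544)) .e)))))) (.alt (nat_lit 0) (.cov (nat_lit 47970761409561012207841)) (.alt (nat_lit 0) (.exp (.alt (nat_lit 4) (.cov (nat_lit 55898340079934614849251919324512259)) (.alt (nat_lit 4) (.cov (nat_lit 55898340079913230461193268150403073)) (.alt (nat_lit 4) (.cov (nat_lit 55898340079914706200736756496596992)) (.alt (nat_lit 4) (.exp (.alt (nat_lit 6) (.cov (nat_lit 365107996632159438939288059772929)) (.alt (nat_lit 6) (.cov (nat_lit 1863129929974264365067)) .e))) .e))))) (.alt (nat_lit 0) (.cov (nat_lit 25419625276478614143012)) (.alt (nat_lit 0) (.cov (nat_lit 103338675744672783007760)) (.alt (nat_lit 0) (.cov (nat_lit 47970769928567272767506)) (.alt (nat_lit 0) (.cov (nat_lit 25419625518360367726603)) (.alt (nat_lit 0) (.cov (nat_lit 63318470807736354340870)) (.alt (nat_lit 0) (.cov (nat_lit 344308504323956800487427)) (.alt (nat_lit 0) (.cov (nat_lit 47970782201316724703234)) (.alt (nat_lit 0) (.cov (nat_lit 406879862209897159458817)) (.alt (nat_lit 0) (.cov (nat_lit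 6350322224792885788672)) (.alt (nat_lit 0) (.exp (.alt (nat_lit 4) (.exp (.alt (nat_lit 6) (.cov (nat_lit 47805643628384841077272192875495426)) (.alt (nat_lit 6) (.cov (nat_lit 872154425590045911901231982313473)) (.alt (nat_lit 6) (.cov (nat_lit 63828747210412520011301732547035136)) (.alt (nat_lit 6) (.exp (.alt (nat_lit 7) (.cov (nat_lit 224505998300458634262784730486276099)) (.alt (nat_lit 7) (.cov (nat_lit 8498333811649142087113965168492545)) (.alt (nat_lit 7) (.cov (nat_lit 8498333811649511022013030941589504)) (.alt (nat_lit 7) (.exp (.alt (nat_lit 15) (.cov (nat_lit 14542494097962415937603197705650177)) (.alt (nat_lit 15) (.cov (nat_lit 562628660730579124235)) .e))) .e))))) .e))))) (.alt (nat_lit 4) (.cov (nat_lit 175249812562192105510)) (.alt (nat_lit 4) (.cov (nat_lit 25248988693651557187681)) (.alt (nat_lit 4) (.exp (.alt (nat_lit 6) (.cov (nat_lit 800485879179806597267962788170432513)) (.alt (nat_lit 6) (.cov (nat_lit 22827854538930841976843)) .e))) (.alt (nat_lit 4) (.cov (nat_lit 25281271485340334424099))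 (.alt (nat_lit 4) (.cov (nat_lit 1521868337773149159439)) (.alt (nat_lit 4) (.cov (nat_lit 46141489244782198791)) (.alt (nat_lit 4) (.cov (nat_lit 26724740637431965941766)) (.alt (nat_lit 4) (.cov (nat_lit 406875244120322485518339)) (.alt (nat_lit 4) (.cov (nat_lit 13856841580368887810)) (.alt (nat_lit 4) (.cov (nat_lit 470418115868665839617)) (.alt (nat_lit 4) (.cov (nat_lit 27700420850055380992)) (.alt (nat_lit 4) (.exp (.alt (nat_lit 6) (.cov (nat_lit 45632636213380102750302)) (.alt (nat_lit 6) (.cov (nat_lit 16141413448480194596)) (.alt (nat_lit 6) (.cov (nat_lit 102079675645191503478802)) (.alt (nat_lit 6) (.cov (nat_lit 343863461632437716516875)) (.alt (nat_lit 6) (.cov (nat_lit 1934617147928521736198)) (.alt (nat_lit 6) (.cov (nat_lit 754030824658166611971)) (.alt (nat_lit 6) (.cov (nat_lit 1565682882181513347074)) (.alt (nat_lit 6) (.cov (nat_lit 104646095061873967759361)) (.alt (nat_lit 6) (.cov (nat_lit 21845582943220401176576)) (.alt (nat_lit 6) (.exp (.alt (nat_lit 7) (.cov (nat_lit 10143403826340665753804))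 (.alt (nat_lit 7) (.exp (.alt (nat_lit 15) (.cov (nat_lit 14395444404012889592651302465175553)) (.alt (nat_lit 15) (.cov (nat_lit 643333078104122851339)) .e))) (.alt (nat_lit 7) (.cov (nat_lit 643333641042199052303)) (.alt (nat_lit 7) (.cov (nat_lit 6398723082889364242439)) (.alt (nat_lit 7) (.cov (nat_lit 6398723082889364242438)) (.alt (nat_lit 7) (.cov (nat_lit 45432036760030402314243)) (.alt (nat_lit 7) (.cov (nat_lit 25361987366210688253953)) (.alt (nat_lit 7) (.cov (nat_lit 1602585049873018519552)) (.alt (nat_lit 7) (.cov (nat_lit 753938032)) .e)))))))))) .e))))))))))) .e)))))))))))))) .e)))))))))))))) .e)) .e)) .e)) .e)) .e)), .cov (nat_lit 15211836216969952784111330408734), .rot (.exp (.alt (nat_lit 5) (.exp (.alt (nat_lit 3) (.exp (.alt (nat_lit 7) (.exp (.alt (nat_lit 6) (.exp (.alt (nat_lit 15) (.exp (.alt (nat_lit 0) (.cov (nat_lit 6569352378143131828449)) (.alt (nat_lit 0) (.cov (nat_lit 343865768218716750741523)) (.alt (nat_lit 0) (.cov (nat_lit 344308496475642782547979)) (.alt (nat_lit 0) (.exp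 (.alt (nat_lit 1) (.exp (.alt (nat_lit 9) (.exp (.alt (nat_lit 17) (.exp (.alt (nat_lit 16) (.cov (nat_lit 1900015996390726434850)) (.alt (nat_lit 4) (.cov (nat_lit 1817007732753575182343)) (.alt (nat_lit 4) (.cov (nat_lit 1521865127219127386115)) (.alt (nat_lit 4) (.exp (.alt (nat_lit 12) (.exp (.alt (nat_lit 20) (.cov (nat_lit 406852164060637751672843)) (.alt (nat_lit 20) (.exp (.alt (nat_lit 28) (.exp (.alt (nat_lit 29) (.exp (.alt (nat_lit 24) (.exp (.alt (nat_lit 22) (.cov (nat_lit 4099788887975433076739)) (.alt (nat_lit 22) (.exp (.alt (nat_lit 23) (.exp (.alt (nat_lit 30) (.cov (nat_lit 6405631888392353480705)) (.alt (nat_lit 30) (.exp (.alt (nat_lit 26) (.cov (nat_lit 21534267874041814581248)) (.alt (nat_lit 14) (.cov (nat_lit 157045227528)) .e))) .e))) .e)) (.alt (nat_lit 16) (.cov (nat_lit 10554966211)) .e)))) .e)) .e)) .e)) (.alt (nat_lit 20) (.cov (nat_lit 26540258676544901218305)) (.alt (nat_lit 20) (.exp (.alt (nat_lit 28) (.exp (.alt (nat_lit 29) (.exp (.alt (nat_lit 31) (.exp (.alt (nat_lit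 23) (.exp (.alt (nat_lit 30) (.exp (.alt (nat_lit 24) (.cov (nat_lit 6405631888391776763905)) (.alt (nat_lit 24) (.exp (.alt (nat_lit 26) (.cov (nat_lit 6387185146517059010560)) (.alt (nat_lit 8) (.cov (nat_lit 157045227528)) .e))) .e))) .e)) .e)) .e)) .e)) (.alt (nat_lit 16) (.cov (nat_lit 23210616159555207299075)) (.alt (nat_lit 16) (.exp (.alt (nat_lit 24) (.exp (.alt (nat_lit 18) (.cov (nat_lit 21737182080863504957442)) (.alt (nat_lit 18) (.cov (nat_lit 6700779927712130138113)) (.alt (nat_lit 18) (.exp (.alt (nat_lit 19) (.cov (nat_lit 21525044508648453177347)) (.alt (nat_lit 26) (.exp (.alt (nat_lit 10) (.exp (.alt (nat_lit 27) (.cov (nat_lit 6417161103438433484801)) (.alt (nat_lit 27) (.exp (.alt (nat_lit 31) (.cov (nat_lit 6398714361563147403264)) (.alt (nat_lit 25) (.cov (nat_lit 835715080)) .e))) .e))) .e)) (.alt (nat_lit 19) (.cov (nat_lit 1236271721)) .e)))) .e)))) .e)) (.alt (nat_lit 21) (.cov (nat_lit 19559092106)) .e))))) .e))))) .e)) (.alt (nat_lit 4) (.cov (nat_lit 46519035565)) .e)))))) .e))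 .e)) .e)) (.alt (nat_lit 0) (.cov (nat_lit 1365081029697442152449)) (.alt (nat_lit 0) (.exp (.alt (nat_lit 1) (.cov (nat_lit 10129571780967873380390)) (.alt (nat_lit 1) (.cov (nat_lit 102068149535166233051170)) (.alt (nat_lit 1) (.cov (nat_lit 39214772697942720519)) (.alt (nat_lit 1) (.cov (nat_lit 777090864435858243587)) (.alt (nat_lit 1) (.exp (.alt (nat_lit 9) (.exp (.alt (nat_lit 17) (.cov (nat_lit 6698475846119940161554)) (.alt (nat_lit 17) (.cov (nat_lit 104687579567419837906955)) (.alt (nat_lit 17) (.exp (.alt (nat_lit 21) (.exp (.alt (nat_lit 23) (.exp (.alt (nat_lit 20) (.exp (.alt (nat_lit 16) (.exp (.alt (nat_lit 18) (.exp (.alt (nat_lit 26) (.exp (.alt (nat_lit 27) (.exp (.alt (nat_lit 10) (.exp (.alt (nat_lit 24) (.cov (nat_lit 404343406732473239863297)) (.alt (nat_lit 24) (.exp (.alt (nat_lit 28) (.cov (nat_lit 140656434557164191744)) (.alt (nat_lit 25) (.cov (nat_lit 4627365896)) .e))) .e))) .e)) .e)) .e)) .e)) (.alt (nat_lit 16) (.cov (nat_lit 22043859596911996567555)) (.alt (nat_lit 16) (.exp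 (.alt (nat_lit 18) (.exp (.alt (nat_lit 24) (.cov (nat_lit 406806047090502821478402)) (.alt (nat_lit 24) (.cov (nat_lit 26507971381255813988353)) (.alt (nat_lit 24) (.exp (.alt (nat_lit 25) (.cov (nat_lit 104618403188783088402435)) (.alt (nat_lit 28) (.exp (.alt (nat_lit 29) (.exp (.alt (nat_lit 30) (.cov (nat_lit 1581808313117323558913)) (.alt (nat_lit 12) (.cov (nat_lit 20650655759)) .e))) .e)) (.alt (nat_lit 28) (.exp (.alt (nat_lit 30) (.cov (nat_lit 1581808313117424222210)) (.alt (nat_lit 29) (.cov (nat_lit 3488612419)) .e))) .e)))) .e)))) .e)) (.alt (nat_lit 16) (.exp (.alt (nat_lit 24) (.cov (nat_lit 347628892317549041025026)) (.alt (nat_lit 24) (.exp (.alt (nat_lit 8) (.cov (nat_lit 345346107507683505471495)) (.alt (nat_lit 28) (.cov (nat_lit 404569380695376819912704)) .e))) .e))) .e))))) .e)) .e)) .e)) (.alt (nat_lit 17) (.cov (nat_lit 23226776755071971491841)) (.alt (nat_lit 17) (.exp (.alt (nat_lit 16) (.cov (nat_lit 1900015996390726434850)) (.alt (nat_lit 21) (.cov (nat_lit 804742651686998245383))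 (.alt (nat_lit 21) (.cov (nat_lit 364037279690127500640259)) (.alt (nat_lit 21) (.exp (.alt (nat_lit 23) (.exp (.alt (nat_lit 20) (.cov (nat_lit 1452681243160991498251)) (.alt (nat_lit 20) (.exp (.alt (nat_lit 16) (.exp (.alt (nat_lit 18) (.exp (.alt (nat_lit 24) (.exp (.alt (nat_lit 28) (.cov (nat_lit 406815270447145880125443)) (.alt (nat_lit 28) (.exp (.alt (nat_lit 29) (.exp (.alt (nat_lit 30) (.cov (nat_lit 1581808313117323558913)) (.alt (nat_lit 12) (.cov (nat_lit 20650655759)) .e))) .e)) (.alt (nat_lit 28) (.exp (.alt (nat_lit 30) (.cov (nat_lit 1581808313117424222210)) (.alt (nat_lit 29) (.cov (nat_lit 3488612419)) .e))) .e)))) .e)) .e)) .e)) (.alt (nat_lit 20) (.cov (nat_lit 25594863029573140873217)) (.alt (nat_lit 20) (.exp (.alt (nat_lit 16) (.exp (.alt (nat_lit 18) (.exp (.alt (nat_lit 26) (.exp (.alt (nat_lit 27) (.exp (.alt (nat_lit 10) (.exp (.alt (nat_lit 24) (.cov (nat_lit 404343406732473239863297)) (.alt (nat_lit 24) (.exp (.alt (nat_lit 28) (.cov (nat_lit 140656434557164191744)) (.alt (nat_lit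 25) (.cov (nat_lit 4627365896)) .e))) .e))) .e)) .e)) .e)) .e)) (.alt (nat_lit 16) (.cov (nat_lit 22043859596911996567555)) (.alt (nat_lit 16) (.exp (.alt (nat_lit 18) (.exp (.alt (nat_lit 24) (.cov (nat_lit 406806047090502821478402)) (.alt (nat_lit 24) (.cov (nat_lit 26507971381255813988353)) (.alt (nat_lit 24) (.exp (.alt (nat_lit 25) (.cov (nat_lit 104618403188783088402435)) (.alt (nat_lit 28) (.exp (.alt (nat_lit 29) (.exp (.alt (nat_lit 30) (.cov (nat_lit 1581808313117323558913)) (.alt (nat_lit 12) (.cov (nat_lit 20650655759)) .e))) .e)) (.alt (nat_lit 28) (.exp (.alt (nat_lit 30) (.cov (nat_lit 1581808313117424222210)) (.alt (nat_lit 29) (.cov (nat_lit 3488612419)) .e))) .e)))) .e)))) .e)) (.alt (nat_lit 4) (.cov (nat_lit 156577566602)) .e))))) .e))))) .e)) (.alt (nat_lit 21) (.cov (nat_lit 9953094361)) .e)))))) .e)))))) .e)) (.alt (nat_lit 1) (.cov (nat_lit 1922053382)) .e))))))) .e))))))) .e)) .e)) .e)) .e)) .e))]),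
   ([21, 1, 1], [.cov (nat_lit 15211807202750282033007211592438), .cov (nat_lit 15211807202750282033007211592439), .cov (nat_lit 15211807202750282033007211592463), .cov (nat_lit 15211807202750282033007211592478), .cov (nat_lit 15211807202750282033007211592479), .rot (.rot (.exp (.alt (nat_lit 3) (.cov (nat_lit 11529215046773127968)) .e))), .rot (.rot (.exp (.alt (nat_lit 3) (.rot (.exp (.alt (nat_lit 5) (.exp (.alt (nat_lit 0) (.exp (.alt (nat_lit 1) (.cov (nat_lit 64011309932154561023466959755280391)) (.alt (nat_lit 1) (.cov (nat_lit 8447648184637977140581042725322755)) (.alt (nat_lit 1) (.cov (nat_lit 1470493976618182936328981701459969)) (.alt (nat_lit 1) (.exp (.alt (nat_lit 9) (.exp (.alt (nat_lit 17) (.cov (nat_lit 3448022969490557393724808118665218)) (.alt (nat_lit 17) (.cov (nat_lit 845056479733667269025358113970061313)) (.alt (nat_lit 17) (.cov (nat_lit 4066642405481241814611526792773632)) (.alt (nat_lit 17) (.exp (.alt (nat_lit 19) (.cov (nat_lit 53231208691050657342647346665619459)) (.alt (nat_lit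 19) (.cov (nat_lit 49986017772327165410969599331008513)) (.alt (nat_lit 19) (.cov (nat_lit 3427735351835955174710081936687104)) (.alt (nat_lit 19) (.exp (.alt (nat_lit 23) (.cov (nat_lit 5689224022643125650323650040037377)) (.alt (nat_lit 23) (.cov (nat_lit 22731009163329497202699)) .e))) .e))))) .e))))) .e)) (.alt (nat_lit 1) (.cov (nat_lit 521131677927015973368)) .e)))))) (.alt (nat_lit 0) (.exp (.alt (nat_lit 1) (.cov (nat_lit 227173161343833634544771032687837190)) (.alt (nat_lit 1) (.cov (nat_lit 138741855791070243614166608824500227)) (.alt (nat_lit 1) (.cov (nat_lit 14126730973463436277301742945697793)) (.alt (nat_lit 1) (.cov (nat_lit 14126730973462477046748448480559104)) (.alt (nat_lit 1) (.cov (nat_lit 45531188002840428675295)) .e)))))) (.alt (nat_lit 0) (.cov (nat_lit 6364145051884356370887)) (.alt (nat_lit 0) (.cov (nat_lit 63240062562080051429608)) (.alt (nat_lit 0) (.cov (nat_lit 1554153664936423719137)) (.alt (nat_lit 0) (.cov (nat_lit 7826052952397877084254)) (.alt (nat_lit 0) (.cov (nat_lit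 26747805106042629521444)) (.alt (nat_lit 0) (.cov (nat_lit 1586449692546847211536)) (.alt (nat_lit 0) (.cov (nat_lit 6350313551845874728979)) (.alt (nat_lit 0) (.cov (nat_lit 1554164875556435263499)) (.alt (nat_lit 0) (.cov (nat_lit 25419644025339381809158)) (.alt (nat_lit 0) (.cov (nat_lit 10184940017730149416963)) (.alt (nat_lit 0) (.exp (.alt (nat_lit 1) (.exp (.alt (nat_lit 9) (.exp (.alt (nat_lit 17) (.exp (.alt (nat_lit 2) (.exp (.alt (nat_lit 6) (.cov (nat_lit 3660979126036980399551000451481602)) (.alt (nat_lit 6) (.cov (nat_lit 50716836648056217834954791321601)) (.alt (nat_lit 6) (.cov (nat_lit 769970978766347251656237259695325184)) (.alt (nat_lit 6) (.exp (.alt (nat_lit 7) (.cov (nat_lit 224495857095679239668366387104972803)) (.alt (nat_lit 7) (.cov (nat_lit 8488192606847316251901990972424193)) (.alt (nat_lit 7) (.cov (nat_lit 8488192606847316251919583124914176)) (.alt (nat_lit 7) (.exp (.alt (nat_lit 15) (.cov (nat_lit 1551610746823521031064982686531585)) (.alt (nat_lit 15) (.cov (nat_lit 6460975078299208253451))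 .e))) .e))))) .e))))) (.alt (nat_lit 2) (.cov (nat_lit 1572590676291717431334)) (.alt (nat_lit 2) (.cov (nat_lit 25248988693651555090529)) (.alt (nat_lit 2) (.exp (.alt (nat_lit 6) (.cov (nat_lit 91564957508171586774946487025532929)) (.alt (nat_lit 6) (.cov (nat_lit 2605611348126746017803)) .e))) (.alt (nat_lit 2) (.cov (nat_lit 2845419005691660599331)) (.alt (nat_lit 2) (.cov (nat_lit 21587314203950074298383)) (.alt (nat_lit 2) (.cov (nat_lit 410464684701114171399)) (.alt (nat_lit 2) (.cov (nat_lit 26724740637431963844614)) (.alt (nat_lit 2) (.cov (nat_lit 406875244120323120955395)) (.alt (nat_lit 2) (.cov (nat_lit 382791723054557822978)) (.alt (nat_lit 2) (.cov (nat_lit 6368764533436724543489)) (.alt (nat_lit 2) (.cov (nat_lit 392023616305819025408)) (.alt (nat_lit 2) (.exp (.alt (nat_lit 6) (.cov (nat_lit 404532488911473138991198)) (.alt (nat_lit 6) (.cov (nat_lit 16141413448480194596)) (.alt (nat_lit 6) (.cov (nat_lit 102079675645191503478802)) (.alt (nat_lit 6) (.cov (nat_lit 343863461632437716516875))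 (.alt (nat_lit 6) (.cov (nat_lit 1934617147928521736198)) (.alt (nat_lit 6) (.cov (nat_lit 6656988928245860663299)) (.alt (nat_lit 6) (.cov (nat_lit 1565682882181513347074)) (.alt (nat_lit 6) (.cov (nat_lit 10198765404480493060097)) (.alt (nat_lit 6) (.cov (nat_lit 1780137077042836406272)) (.alt (nat_lit 6) (.exp (.alt (nat_lit 7) (.cov (nat_lit 104590733483734207561932)) (.alt (nat_lit 7) (.exp (.alt (nat_lit 15) (.cov (nat_lit 1414702257675815909639042644312065)) (.alt (nat_lit 15) (.cov (nat_lit 643333078104122851339)) .e))) (.alt (nat_lit 7) (.cov (nat_lit 643333641042031280143)) (.alt (nat_lit 7) (.cov (nat_lit 6398723082889364242439)) (.alt (nat_lit 7) (.cov (nat_lit 6398723082889532014598)) (.alt (nat_lit 7) (.cov (nat_lit 404331889458122868129795)) (.alt (nat_lit 7) (.cov (nat_lit 25361987366210117828609)) (.alt (nat_lit 7) (.cov (nat_lit 1602585049873018519552)) (.alt (nat_lit 7) (.cov (nat_lit 753938032)) .e)))))))))) .e))))))))))) .e)))))))))))))) .e)) .e)) .e)) (.alt (nat_lit 0) (.cov (nat_lit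 2337557322643013633)) (.alt (nat_lit 0) (.cov (nat_lit 447366234467174711296)) (.alt (nat_lit 0) (.exp (.alt (nat_lit 1) (.cov (nat_lit 94548390257831707128)) (.alt (nat_lit 1) (.cov (nat_lit 63108626066884822827974)) (.alt (nat_lit 1) (.exp (.alt (nat_lit 9) (.cov (nat_lit 756701240726763287565365441493729282)) (.alt (nat_lit 9) (.cov (nat_lit 894783885216545497520897505421688833)) (.alt (nat_lit 9) (.cov (nat_lit 86226498685889602337696224641024)) (.alt (nat_lit 9) (.exp (.alt (nat_lit 11) (.cov (nat_lit 756701240726764767916570759617576963)) (.alt (nat_lit 11) (.cov (nat_lit 894783885216546756511171740007661569)) (.alt (nat_lit 11) (.cov (nat_lit 894783885216545575919568614748848128)) (.alt (nat_lit 11) (.exp (.alt (nat_lit 15) (.cov (nat_lit 92411761475007926427073523241451521)) (.alt (nat_lit 15) (.cov (nat_lit 63127076012747730714635)) .e))) .e))))) .e))))) (.alt (nat_lit 1) (.cov (nat_lit 684850839650953068582)) (.alt (nat_lit 1) (.cov (nat_lit 39214772698211156065)) (.alt (nat_lit 1) (.cov (nat_lit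 334369013263999434786)) (.alt (nat_lit 1) (.cov (nat_lit 345362270167926781771811)) (.alt (nat_lit 1) (.cov (nat_lit 10221828221624690671631)) (.alt (nat_lit 1) (.cov (nat_lit 113016058037138358279)) (.alt (nat_lit 1) (.cov (nat_lit 25421947924412038643718)) (.alt (nat_lit 1) (.cov (nat_lit 1588755722473038675971)) (.alt (nat_lit 1) (.cov (nat_lit 25421949677034244407298)) (.alt (nat_lit 1) (.cov (nat_lit 703313902492355395585)) (.alt (nat_lit 1) (.exp (.alt (nat_lit 9) (.exp (.alt (nat_lit 17) (.exp (.alt (nat_lit 19) (.cov (nat_lit 1749365396200749211798883696377859)) (.alt (nat_lit 19) (.cov (nat_lit 894641876936939127805383899736965122)) (.alt (nat_lit 19) (.cov (nat_lit 1749365396238516614466585333071873)) (.alt (nat_lit 19) (.cov (nat_lit 1749365396238516614510565764628480)) (.alt (nat_lit 19) (.cov (nat_lit 3135947598640691806304)) .e)))))) (.alt (nat_lit 17) (.cov (nat_lit 1593340965237002600673)) (.alt (nat_lit 17) (.exp (.alt (nat_lit 19) (.cov (nat_lit 1749377040666182312363865801752579)) (.alt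 (nat_lit 19) (.cov (nat_lit 1749377040612011142557203916914689)) (.alt (nat_lit 19) (.cov (nat_lit 1749377040612011142574796069404672)) (.alt (nat_lit 19) (.exp (.alt (nat_lit 23) (.cov (nat_lit 894616547421275334791099208823734273)) (.alt (nat_lit 23) (.cov (nat_lit 46670271284986277527563)) .e))) .e))))) (.alt (nat_lit 17) (.cov (nat_lit 795527781074746736676)) (.alt (nat_lit 17) (.cov (nat_lit 43001681722567223672848)) (.alt (nat_lit 17) (.cov (nat_lit 1593349484264268234770)) (.alt (nat_lit 17) (.cov (nat_lit 795528022966633758731)) (.alt (nat_lit 17) (.cov (nat_lit 43832791903386992646)) (.alt (nat_lit 17) (.cov (nat_lit 6456386613967020097539)) (.alt (nat_lit 17) (.cov (nat_lit 1593361757001706635266)) (.alt (nat_lit 17) (.cov (nat_lit 1586448166424050401281)) (.alt (nat_lit 17) (.cov (nat_lit 21963185240178823266304)) (.alt (nat_lit 17) (.exp (.alt (nat_lit 19) (.exp (.alt (nat_lit 23) (.cov (nat_lit 4355651654939545083801268163444738)) (.alt (nat_lit 23) (.cov (nat_lit 8528764050997127809354504089894913))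 (.alt (nat_lit 23) (.cov (nat_lit 100205248834562106817143390004576256)) (.alt (nat_lit 23) (.exp (.alt (nat_lit 7) (.cov (nat_lit 756751920517082108045535712429211651)) (.alt (nat_lit 7) (.cov (nat_lit 9502313087033718249122611404472321)) (.alt (nat_lit 7) (.cov (nat_lit 9502313087033718249140203556962304)) (.alt (nat_lit 7) (.exp (.alt (nat_lit 6) (.cov (nat_lit 94896330345229382040345063293190145)) (.alt (nat_lit 6) (.cov (nat_lit 345237735834996332036107)) .e))) .e))))) .e))))) (.alt (nat_lit 19) (.cov (nat_lit 406829111231616295895078)) (.alt (nat_lit 19) (.cov (nat_lit 29051323815844509646945)) (.alt (nat_lit 19) (.exp (.alt (nat_lit 23) (.cov (nat_lit 92416818711524977685339354511179777)) (.alt (nat_lit 23) (.cov (nat_lit 10150329674273257422859)) .e))) (.alt (nat_lit 19) (.cov (nat_lit 6703094360127351816227)) (.alt (nat_lit 19) (.cov (nat_lit 4268127361767737131023)) (.alt (nat_lit 19) (.cov (nat_lit 406849882703774059855879)) (.alt (nat_lit 19) (.cov (nat_lit 126841526152012496902)) (.alt (nat_lit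 19) (.cov (nat_lit 1602582663933494034435)) (.alt (nat_lit 19) (.cov (nat_lit 406840656486180040212482)) (.alt (nat_lit 19) (.cov (nat_lit 29039813000025781305345)) (.alt (nat_lit 19) (.cov (nat_lit 406829135792348387606528)) (.alt (nat_lit 19) (.exp (.alt (nat_lit 23) (.cov (nat_lit 1895406014614329098334)) (.alt (nat_lit 23) (.cov (nat_lit 406803741726880683786276)) (.alt (nat_lit 23) (.cov (nat_lit 344119404636334673887250)) (.alt (nat_lit 23) (.cov (nat_lit 344084822561321535930379)) (.alt (nat_lit 23) (.cov (nat_lit 1713256219044015505414)) (.alt (nat_lit 23) (.cov (nat_lit 5107462426054266716163)) (.alt (nat_lit 23) (.cov (nat_lit 406803756693432951635970)) (.alt (nat_lit 23) (.cov (nat_lit 2672493822407004389377)) (.alt (nat_lit 23) (.cov (nat_lit 25578742775137371684864)) (.alt (nat_lit 23) (.exp (.alt (nat_lit 7) (.cov (nat_lit 82064953126909903896780)) (.alt (nat_lit 7) (.exp (.alt (nat_lit 6) (.cov (nat_lit 756204293248232330245244951807918081)) (.alt (nat_lit 6) (.cov (nat_lit 10143406276053242478603))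 .e))) (.alt (nat_lit 7) (.cov (nat_lit 10143406839004185755663)) (.alt (nat_lit 7) (.cov (nat_lit 102081984593222543867911)) (.alt (nat_lit 7) (.cov (nat_lit 102081984593233985929222)) (.alt (nat_lit 7) (.cov (nat_lit 25269745487649093713923)) (.alt (nat_lit 7) (.cov (nat_lit 404534811801309941858305)) (.alt (nat_lit 7) (.cov (nat_lit 25564905601621716631552)) (.alt (nat_lit 7) (.cov (nat_lit 878718576)) .e)))))))))) .e))))))))))) .e)))))))))))))) .e)))))))))))))) .e)) (.alt (nat_lit 1) (.cov (nat_lit 9452069)) .e)))))))))))))))) .e))))))))))))))))) .e))) .e))), .rot (.rot (.exp (.alt (nat_lit 3) (.rot (.exp (.alt (nat_lit 5) (.exp (.alt (nat_lit 0) (.cov (nat_lit 26646333757371650670824)) (.alt (nat_lit 0) (.cov (nat_lit 682538812805136515297)) (.alt (nat_lit 0) (.exp (.alt (nat_lit 1) (.exp (.alt (nat_lit 9) (.exp (.alt (nat_lit 17) (.exp (.alt (nat_lit 19) (.exp (.alt (nat_lit 23) (.exp (.alt (nat_lit 18) (.exp (.alt (nat_lit 8) (.cov (nat_lit 24229799697615574532130)) (.alt (nat_lit 2) (.cov (nat_lit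 22749450570385818910727)) (.alt (nat_lit 2) (.cov (nat_lit 21495077273018977746947)) (.alt (nat_lit 2) (.exp (.alt (nat_lit 6) (.exp (.alt (nat_lit 10) (.cov (nat_lit 405565503661496481087499)) (.alt (nat_lit 10) (.exp (.alt (nat_lit 14) (.exp (.alt (nat_lit 15) (.exp (.alt (nat_lit 12) (.exp (.alt (nat_lit 26) (.cov (nat_lit 21748711280496480354307)) (.alt (nat_lit 26) (.exp (.alt (nat_lit 27) (.exp (.alt (nat_lit 30) (.cov (nat_lit 433498494528324108289)) (.alt (nat_lit 30) (.exp (.alt (nat_lit 28) (.cov (nat_lit 1395035031569422090240)) (.alt (nat_lit 22) (.cov (nat_lit 658505736)) .e))) .e))) .e)) (.alt (nat_lit 8) (.cov (nat_lit 629145795)) .e)))) .e)) .e)) .e)) (.alt (nat_lit 10) (.cov (nat_lit 345235432665987384606721)) (.alt (nat_lit 10) (.exp (.alt (nat_lit 14) (.exp (.alt (nat_lit 15) (.exp (.alt (nat_lit 31) (.exp (.alt (nat_lit 27) (.exp (.alt (nat_lit 30) (.exp (.alt (nat_lit 12) (.cov (nat_lit 433498494684635332609)) (.alt (nat_lit 12) (.exp (.alt (nat_lit 28) (.cov (nat_lit 424275124690456936448))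 (.alt (nat_lit 4) (.cov (nat_lit 658505736)) .e))) .e))) .e)) .e)) .e)) .e)) (.alt (nat_lit 8) (.cov (nat_lit 1383506234337797341187)) (.alt (nat_lit 8) (.exp (.alt (nat_lit 12) (.exp (.alt (nat_lit 24) (.cov (nat_lit 406845246421670228393986)) (.alt (nat_lit 24) (.cov (nat_lit 728646533848098668545)) (.alt (nat_lit 24) (.exp (.alt (nat_lit 25) (.cov (nat_lit 350181460297851161542659)) (.alt (nat_lit 28) (.exp (.alt (nat_lit 20) (.exp (.alt (nat_lit 29) (.cov (nat_lit 440416023555955752961)) (.alt (nat_lit 29) (.exp (.alt (nat_lit 31) (.cov (nat_lit 431192653718092775424)) (.alt (nat_lit 13) (.cov (nat_lit 10350493704)) .e))) .e))) .e)) (.alt (nat_lit 25) (.cov (nat_lit 19055772265)) .e)))) .e)))) .e)) (.alt (nat_lit 11) (.cov (nat_lit 166244388746)) .e))))) .e))))) .e)) (.alt (nat_lit 2) (.cov (nat_lit 2992645805)) .e)))))) .e)) .e)) .e)) .e)) .e)) .e)) (.alt (nat_lit 0) (.cov (nat_lit 344253166053264522739723)) (.alt (nat_lit 0) (.exp (.alt (nat_lit 1) (.exp (.alt (nat_lit 9) (.exp (.alt (nat_lit 17) (.exp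 (.alt (nat_lit 2) (.exp (.alt (nat_lit 6) (.cov (nat_lit 578056241945038855202337544208386)) (.alt (nat_lit 6) (.cov (nat_lit 350142264390571582816274)) .e))) (.alt (nat_lit 2) (.exp (.alt (nat_lit 6) (.cov (nat_lit 91564957508171586774946487025532929)) (.alt (nat_lit 6) (.cov (nat_lit 2605611348126746017803)) .e))) (.alt (nat_lit 2) (.exp (.alt (nat_lit 6) (.exp (.alt (nat_lit 7) (.exp (.alt (nat_lit 15) (.exp (.alt (nat_lit 23) (.exp (.alt (nat_lit 10) (.cov (nat_lit 81935825636734154047499)) (.alt (nat_lit 10) (.exp (.alt (nat_lit 8) (.exp (.alt (nat_lit 12) (.exp (.alt (nat_lit 24) (.exp (.alt (nat_lit 26) (.cov (nat_lit 209831731431355711491)) (.alt (nat_lit 26) (.exp (.alt (nat_lit 18) (.exp (.alt (nat_lit 30) (.cov (nat_lit 1621007644273376493569)) (.alt (nat_lit 27) (.cov (nat_lit 300941327)) .e))) .e)) (.alt (nat_lit 26) (.exp (.alt (nat_lit 30) (.cov (nat_lit 1621007644274047582210)) (.alt (nat_lit 18) (.cov (nat_lit 9787408451)) .e))) .e)))) .e)) .e)) .e)) (.alt (nat_lit 10) (.cov (nat_lit 1609484047731717570561))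 (.alt (nat_lit 10) (.exp (.alt (nat_lit 8) (.exp (.alt (nat_lit 12) (.exp (.alt (nat_lit 28) (.exp (.alt (nat_lit 20) (.exp (.alt (nat_lit 29) (.exp (.alt (nat_lit 24) (.cov (nat_lit 428886808509890428929)) (.alt (nat_lit 24) (.exp (.alt (nat_lit 26) (.cov (nat_lit 2845410284364842926080)) (.alt (nat_lit 16) (.cov (nat_lit 656408584)) .e))) .e))) .e)) .e)) .e)) .e)) (.alt (nat_lit 8) (.cov (nat_lit 25438060506501424873475)) (.alt (nat_lit 8) (.exp (.alt (nat_lit 12) (.exp (.alt (nat_lit 24) (.cov (nat_lit 1607172610408014938114)) (.alt (nat_lit 24) (.cov (nat_lit 1385811795872038518785)) (.alt (nat_lit 24) (.exp (.alt (nat_lit 16) (.cov (nat_lit 21518126979577282560003)) (.alt (nat_lit 26) (.exp (.alt (nat_lit 18) (.exp (.alt (nat_lit 30) (.cov (nat_lit 1621007644273376493569)) (.alt (nat_lit 27) (.cov (nat_lit 300941327)) .e))) .e)) (.alt (nat_lit 26) (.exp (.alt (nat_lit 30) (.cov (nat_lit 1621007644274047582210)) (.alt (nat_lit 18) (.cov (nat_lit 9787408451)) .e))) .e)))) .e)))) .e)) (.alt (nat_lit 11)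 (.cov (nat_lit 156995948426)) .e))))) .e))))) .e)) .e)) .e)) .e)) (.alt (nat_lit 2) (.cov (nat_lit 406875244120323120955395)) (.alt (nat_lit 2) (.exp (.alt (nat_lit 6) (.exp (.alt (nat_lit 10) (.cov (nat_lit 347635811502596483448853)) (.alt (nat_lit 10) (.cov (nat_lit 344315401300924595961867)) (.alt (nat_lit 10) (.cov (nat_lit 1388129432242936086530)) (.alt (nat_lit 10) (.cov (nat_lit 343907279792039597703169)) (.alt (nat_lit 10) (.exp (.alt (nat_lit 14) (.cov (nat_lit 1362754581851285749794)) (.alt (nat_lit 11) (.cov (nat_lit 6555515116679129464839)) (.alt (nat_lit 11) (.cov (nat_lit 81965810189820480192515)) (.alt (nat_lit 11) (.exp (.alt (nat_lit 15) (.exp (.alt (nat_lit 27) (.cov (nat_lit 735564062887249969163)) (.alt (nat_lit 27) (.exp (.alt (nat_lit 31) (.exp (.alt (nat_lit 23) (.exp (.alt (nat_lit 29) (.exp (.alt (nat_lit 26) (.cov (nat_lit 347665785574796828868611)) (.alt (nat_lit 26) (.exp (.alt (nat_lit 18) (.exp (.alt (nat_lit 30) (.cov (nat_lit 2868468712257976532993)) (.alt (nat_lit 30) (.exp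 (.alt (nat_lit 28) (.cov (nat_lit 2850021970383254585344)) (.alt (nat_lit 14) (.cov (nat_lit 174764064776)) .e))) .e))) .e)) (.alt (nat_lit 25) (.cov (nat_lit 21835546819)) .e)))) .e)) .e)) .e)) (.alt (nat_lit 27) (.cov (nat_lit 6479424496385196556289)) (.alt (nat_lit 27) (.exp (.alt (nat_lit 31) (.exp (.alt (nat_lit 23) (.exp (.alt (nat_lit 22) (.exp (.alt (nat_lit 18) (.exp (.alt (nat_lit 30) (.exp (.alt (nat_lit 29) (.cov (nat_lit 2868468712257941929985)) (.alt (nat_lit 29) (.exp (.alt (nat_lit 28) (.cov (nat_lit 22855515918321263312896)) (.alt (nat_lit 13) (.cov (nat_lit 174764064776)) .e))) .e))) .e)) .e)) .e)) .e)) (.alt (nat_lit 25) (.cov (nat_lit 48016875252687003713539)) (.alt (nat_lit 25) (.exp (.alt (nat_lit 29) (.exp (.alt (nat_lit 24) (.cov (nat_lit 1586420023508244365314)) (.alt (nat_lit 24) (.cov (nat_lit 404564767795497593208833)) (.alt (nat_lit 24) (.exp (.alt (nat_lit 16) (.cov (nat_lit 21882450175196290613251)) (.alt (nat_lit 28) (.exp (.alt (nat_lit 12) (.exp (.alt (nat_lit 20) (.cov (nat_lit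 2854633654202701709313)) (.alt (nat_lit 20) (.exp (.alt (nat_lit 22) (.cov (nat_lit 22841680860265992683520)) (.alt (nat_lit 21) (.cov (nat_lit 2976907272)) .e))) .e))) .e)) (.alt (nat_lit 16) (.cov (nat_lit 11026825833)) .e)))) .e)))) .e)) (.alt (nat_lit 19) (.cov (nat_lit 28109180810)) .e))))) .e))))) .e)) (.alt (nat_lit 11) (.cov (nat_lit 20752377517)) .e)))))) .e)))))) .e)) (.alt (nat_lit 2) (.cov (nat_lit 174076482)) .e))))))) .e)) .e)) .e)) (.alt (nat_lit 0) (.cov (nat_lit 2335778312829272065)) (.alt (nat_lit 0) (.exp (.alt (nat_lit 1) (.cov (nat_lit 6440221794126569406968)) (.alt (nat_lit 1) (.exp (.alt (nat_lit 9) (.exp (.alt (nat_lit 11) (.exp (.alt (nat_lit 15) (.exp (.alt (nat_lit 10) (.exp (.alt (nat_lit 13) (.exp (.alt (nat_lit 12) (.exp (.alt (nat_lit 29) (.exp (.alt (nat_lit 17) (.cov (nat_lit 25493400452813063979019)) (.alt (nat_lit 17) (.exp (.alt (nat_lit 16) (.exp (.alt (nat_lit 24) (.exp (.alt (nat_lit 20) (.exp (.alt (nat_lit 19) (.cov (nat_lit 7653092965173068562435)) (.alt (nat_lit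 19) (.exp (.alt (nat_lit 27) (.exp (.alt (nat_lit 18) (.cov (nat_lit 6396408516355486121985)) (.alt (nat_lit 18) (.exp (.alt (nat_lit 22) (.cov (nat_lit 6414855262627619143680)) (.alt (nat_lit 2) (.cov (nat_lit 157041033224)) .e))) .e))) .e)) (.alt (nat_lit 21) (.cov (nat_lit 47604302019)) .e)))) .e)) .e)) .e)) (.alt (nat_lit 17) (.cov (nat_lit 1740917112451610181633)) (.alt (nat_lit 17) (.exp (.alt (nat_lit 16) (.exp (.alt (nat_lit 24) (.exp (.alt (nat_lit 26) (.exp (.alt (nat_lit 27) (.exp (.alt (nat_lit 18) (.exp (.alt (nat_lit 20) (.cov (nat_lit 6396408516354917793793)) (.alt (nat_lit 20) (.exp (.alt (nat_lit 22) (.cov (nat_lit 21525044502004955611136)) (.alt (nat_lit 4) (.cov (nat_lit 157041033224)) .e))) .e))) .e)) .e)) .e)) .e)) (.alt (nat_lit 21) (.cov (nat_lit 104682967204103322599427)) (.alt (nat_lit 21) (.exp (.alt (nat_lit 20) (.exp (.alt (nat_lit 23) (.cov (nat_lit 440416047765823422466)) (.alt (nat_lit 23) (.cov (nat_lit 347882534943007154634753)) (.alt (nat_lit 23) (.exp (.alt (nat_lit 31)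 (.cov (nat_lit 652553589365820882947)) (.alt (nat_lit 22) (.exp (.alt (nat_lit 6) (.exp (.alt (nat_lit 30) (.cov (nat_lit 6405631888392368160769)) (.alt (nat_lit 30) (.exp (.alt (nat_lit 26) (.cov (nat_lit 21534267874041829261312)) (.alt (nat_lit 28) (.cov (nat_lit 830472200)) .e))) .e))) .e)) (.alt (nat_lit 31) (.cov (nat_lit 19627246185)) .e)))) .e)))) .e)) (.alt (nat_lit 25) (.cov (nat_lit 10359934858)) .e))))) .e))))) .e)) .e)) .e)) .e)) .e)) .e)) (.alt (nat_lit 9) (.cov (nat_lit 39214772698646315028)) .e))) (.alt (nat_lit 1) (.cov (nat_lit 334369013263999434786)) (.alt (nat_lit 1) (.exp (.alt (nat_lit 9) (.exp (.alt (nat_lit 11) (.exp (.alt (nat_lit 15) (.exp (.alt (nat_lit 10) (.exp (.alt (nat_lit 17) (.cov (nat_lit 47998429984147157024786)) (.alt (nat_lit 17) (.cov (nat_lit 3135947598639381086219)) (.alt (nat_lit 17) (.exp (.alt (nat_lit 19) (.exp (.alt (nat_lit 27) (.exp (.alt (nat_lit 23) (.exp (.alt (nat_lit 21) (.exp (.alt (nat_lit 29) (.exp (.alt (nat_lit 28) (.exp (.alt (nat_lit 24) (.exp (.alt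 (nat_lit 12) (.exp (.alt (nat_lit 20) (.cov (nat_lit 365370048190742804824065)) (.alt (nat_lit 20) (.exp (.alt (nat_lit 22) (.cov (nat_lit 3952214928787394002944)) (.alt (nat_lit 16) (.cov (nat_lit 158160912392)) .e))) .e))) .e)) .e)) .e)) .e)) (.alt (nat_lit 21) (.cov (nat_lit 406907504578888073216003)) (.alt (nat_lit 21) (.exp (.alt (nat_lit 29) (.exp (.alt (nat_lit 20) (.cov (nat_lit 26646321847470288535554)) (.alt (nat_lit 20) (.cov (nat_lit 344077893982202019971073)) (.alt (nat_lit 20) (.exp (.alt (nat_lit 16) (.cov (nat_lit 47943087865328853581827)) (.alt (nat_lit 22) (.exp (.alt (nat_lit 18) (.exp (.alt (nat_lit 30) (.cov (nat_lit 25267427703759812165633)) (.alt (nat_lit 6) (.cov (nat_lit 12060721167)) .e))) .e)) (.alt (nat_lit 22) (.exp (.alt (nat_lit 30) (.cov (nat_lit 25267427703771254226946)) (.alt (nat_lit 18) (.cov (nat_lit 9925820483)) .e))) .e)))) .e)))) .e)) (.alt (nat_lit 21) (.exp (.alt (nat_lit 20) (.cov (nat_lit 27753126707385845415938)) (.alt (nat_lit 20) (.exp (.alt (nat_lit 4) (.cov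 (nat_lit 22754058832687675736071)) (.alt (nat_lit 22) (.cov (nat_lit 23238287203652962615296)) .e))) .e))) .e))))) .e)) .e)) .e)) (.alt (nat_lit 17) (.cov (nat_lit 6677741477944724815873)) (.alt (nat_lit 17) (.exp (.alt (nat_lit 21) (.cov (nat_lit 63281556901657995903010)) (.alt (nat_lit 19) (.cov (nat_lit 48003043207283446120455)) (.alt (nat_lit 19) (.cov (nat_lit 348191061897711190019)) (.alt (nat_lit 19) (.exp (.alt (nat_lit 27) (.exp (.alt (nat_lit 23) (.cov (nat_lit 440416162106509885451)) (.alt (nat_lit 23) (.exp (.alt (nat_lit 21) (.exp (.alt (nat_lit 29) (.exp (.alt (nat_lit 20) (.exp (.alt (nat_lit 22) (.cov (nat_lit 4219692724464740466691)) (.alt (nat_lit 22) (.exp (.alt (nat_lit 18) (.exp (.alt (nat_lit 30) (.cov (nat_lit 25267427703759812165633)) (.alt (nat_lit 6) (.cov (nat_lit 12060721167)) .e))) .e)) (.alt (nat_lit 22) (.exp (.alt (nat_lit 30) (.cov (nat_lit 25267427703771254226946)) (.alt (nat_lit 18) (.cov (nat_lit 9925820483)) .e))) .e)))) .e)) .e)) .e)) (.alt (nat_lit 23) (.cov (nat_lit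 26761619592234709024769)) (.alt (nat_lit 23) (.exp (.alt (nat_lit 21) (.exp (.alt (nat_lit 29) (.exp (.alt (nat_lit 28) (.exp (.alt (nat_lit 24) (.exp (.alt (nat_lit 12) (.exp (.alt (nat_lit 20) (.cov (nat_lit 365370048190742804824065)) (.alt (nat_lit 20) (.exp (.alt (nat_lit 22) (.cov (nat_lit 3952214928787394002944)) (.alt (nat_lit 16) (.cov (nat_lit 158160912392)) .e))) .e))) .e)) .e)) .e)) .e)) (.alt (nat_lit 21) (.cov (nat_lit 406907504578888073216003)) (.alt (nat_lit 21) (.exp (.alt (nat_lit 29) (.exp (.alt (nat_lit 20) (.cov (nat_lit 26646321847470288535554)) (.alt (nat_lit 20) (.cov (nat_lit 344077893982202019971073)) (.alt (nat_lit 20) (.exp (.alt (nat_lit 16) (.cov (nat_lit 47943087865328853581827)) (.alt (nat_lit 22) (.exp (.alt (nat_lit 18) (.exp (.alt (nat_lit 30) (.cov (nat_lit 25267427703759812165633)) (.alt (nat_lit 6) (.cov (nat_lit 12060721167)) .e))) .e)) (.alt (nat_lit 22) (.exp (.alt (nat_lit 30) (.cov (nat_lit 25267427703771254226946)) (.alt (nat_lit 18) (.cov (nat_lit 9925820483)) .e)))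 .e)))) .e)))) .e)) (.alt (nat_lit 7) (.cov (nat_lit 3026194314)) .e))))) .e))))) .e)) (.alt (nat_lit 19) (.cov (nat_lit 728771289)) .e)))))) .e)))))) .e)) .e)) .e)) .e)) (.alt (nat_lit 1) (.cov (nat_lit 1588747841173690777603)) (.alt (nat_lit 2) (.exp (.alt (nat_lit 6) (.exp (.alt (nat_lit 10) (.cov (nat_lit 46658734397559364649185)) (.alt (nat_lit 10) (.cov (nat_lit 25442683706560083918866)) (.alt (nat_lit 10) (.cov (nat_lit 59967359780901617675)) (.alt (nat_lit 10) (.exp (.alt (nat_lit 11) (.exp (.alt (nat_lit 9) (.exp (.alt (nat_lit 15) (.exp (.alt (nat_lit 26) (.cov (nat_lit 22043859953134939930658)) (.alt (nat_lit 8) (.cov (nat_lit 21527353775646817910791)) (.alt (nat_lit 8) (.cov (nat_lit 6401028926082419523587)) (.alt (nat_lit 8) (.cov (nat_lit 55355673762441723904)) (.alt (nat_lit 8) (.cov (nat_lit 10024396459)) .e)))))) .e)) .e)) .e)) (.alt (nat_lit 10) (.cov (nat_lit 102254942236287211405313)) (.alt (nat_lit 10) (.exp (.alt (nat_lit 11) (.cov (nat_lit 21580388164714430988326)) (.alt (nat_lit 11)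 (.cov (nat_lit 104664531197859170615330)) (.alt (nat_lit 11) (.cov (nat_lit 62273202790119505927)) (.alt (nat_lit 11) (.cov (nat_lit 10244882260267392565251)) (.alt (nat_lit 11) (.exp (.alt (nat_lit 9) (.exp (.alt (nat_lit 15) (.cov (nat_lit 327431611674059079699)) (.alt (nat_lit 15) (.cov (nat_lit 344322318838737530781707)) (.alt (nat_lit 15) (.cov (nat_lit 25454212921789127852034)) (.alt (nat_lit 15) (.cov (nat_lit 71496574826973233153)) (.alt (nat_lit 15) (.exp (.alt (nat_lit 31) (.cov (nat_lit 6707698098854666698786)) (.alt (nat_lit 13) (.cov (nat_lit 288233817624864096263)) (.alt (nat_lit 13) (.cov (nat_lit 2870783278976254083075)) (.alt (nat_lit 13) (.cov (nat_lit 66884888808510193664)) (.alt (nat_lit 7) (.cov (nat_lit 359671468)) .e)))))) .e)))))) .e)) (.alt (nat_lit 11) (.cov (nat_lit 19101922566)) .e))))))) .e))))))) .e)) (.alt (nat_lit 2) (.cov (nat_lit 10500624)) .e)))))))) .e)))))))) .e))) .e)))])]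

/-- the special vectors, positions [0, 5, 3] -/
def s3_2 : List (List ℕ) := [[1, 21, 1], [1, 18, 4], [1, 15, 7], [1, 14, 8], [1, 11, 11], [1, 8, 14], [1, 7, 15], [1, 4, 18], [1, 1, 21], [4, 18, 1], [4, 15, 4], [4, 11, 8], [4, 8, 11], [4, 4, 15], [4, 1, 18], [7, 15, 1], [7, 8, 8], [7, 1, 15], [8, 14, 1], [8, 11, 4], [8, 8, 7], [8, 7, 8], [8, 4, 11], [8, 1, 14], [11, 11, 1], [11, 8, 4], [11, 4, 8], [11, 1, 11], [14, 8, 1], [14, 1, 8], [15, 7, 1], [15, 4, 4], [15, 1, 7], [18, 4, 1], [18, 1, 4], [21, 1, 1]]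

theorem t3_2 : ∀ s ∈ s3_2, GF FULL [0, 5, 3] s := by
  intro s hs
  have h := JT.chkW_ok (zs := [0, 5, 3]) good (by decide) (by decide) (L := w3_2) (by decide +kernel)
  have e : s3_2 = w3_2.map Prod.fst := rfl
  rw [e] at hs
  obtain ⟨x, hx, rfl⟩ := List.mem_map.1 hs
  exact h x hx

theorem d3_2 : Bm.cls itab 9532 (fun l => JT.ro (exV [] l) (Bm.spV s3_2 l)) [0, 3, 5] [0, 0, 0] 105 23
    (nat_lit 0x19ae1b24252e1a8723e42258231e0eb024cf250824f001c00c9924ba23de199025151aef033c2521250f225624fd0c93252223f90a922537225609b425241ae018cd0dbd235324c3225a0ca524fe23bb07e8252324e1240c0e960c9924f1224b2538240e04fc23c611b8231a2530096b236823641d201d570aff2538224c225b224a1d6d23f525240a9d24f022510db9252b243405070a5f250c2369225423d61a5625170e712264224f1d5d224f244609b824392257197823eb0a82232d2509224e25390aac25380ad22270253a0d061d371d75240c1d4f23cf224b1abc24f301c4250b24412537035211c8231b239d04f8240e253a252500b1253a1d0a0d062538253a0505236f23ad2367142403462440253a002b25372538253a252e00c4193825391179035e2538244f11aa1ad625390ab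4224a25391d09253a0ea711aa253a1ad825381ad311a823481ae322482256243611a82435244809a90e8a2249253111aa25301d4c1d582257224c246a1d201a3e1d491d7d2408253900c8252d1a4024441d6300ca2538252f245e03622539243011a9225504eb25332446224911a9243f2515253a00b211682439225b252d11a91d562537002c253925391d200d05245604ef250a11aa1d5c25321cd911a925201b451d5824552538034f243824372522050c2469189d1d5b0a7624372437253204f4243b04ea2437252f2538244703482538253a006b1d4b24441adb1a4c2250240c1ced250b11a80505253a23db11aa225724360eae25381d38237304f22538253811a91ad4252f1d5711a80d041d1b2539225f0a7a25371ad711a9253a2433225411a824420e2a236923d324480ce5238b253804ef1d041a65245a00c625332538) = true := by decide +kernel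

theorem f3_2 : CB B3 (maskL [0, 3, 5]) 23 :=
  cb igood d3_2 rfl (by decide) (by decide) (by norm_num) (fun _ hk => Or.inl hk)
    t3_2 (fun _ _ h => absurd h List.not_mem_nil)

/-- certificates of the special vectors -/
def w3_4 : List (List ℕ × List (JT.J true)) :=
  [([1, 21, 1], [.cov (nat_lit 30423614405498291419458865987584), .cov (nat_lit 30423614405498291421657889243136), .cov (nat_lit 30423614405498291472235424120832), .cov (nat_lit 30423614405498291509618819465216), .exp (.alt (nat_lit 0) (.cov (nat_lit 13835058055291616034)) .e), .exp (.alt (nat_lit 0) (.rot (.exp (.alt (nat_lit 6) (.exp (.alt (nat_lit 9) (.cov (nat_lit 2314962358680683463)) (.alt (nat_lit 9) (.cov (nat_lit 7749958464047024177375)) (.alt (nat_lit 9) (.cov (nat_lit 2314672099086567051)) (.alt (nat_lit 9) (.cov (nat_lit 2317810093796623304)) (.alt (nat_lit 9) (.cov (nat_lit 18465176471649386951)) (.alt (nat_lit 9) (.cov (nat_lit 740199093728525156448)) (.alt (nat_lit 9) (.cov (nat_lit 223692944668529524770)) (.alt (nat_lit 9) (.cov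 (nat_lit 2321104231505854696)) (.alt (nat_lit 9) (.cov (nat_lit 2327490198764519650)) (.alt (nat_lit 9) (.cov (nat_lit 2332847015086522462)) (.alt (nat_lit 9) (.cov (nat_lit 223692944668529524772)) (.alt (nat_lit 9) (.cov (nat_lit 350195323496804142546960)) (.alt (nat_lit 9) (.cov (nat_lit 41618190320640621281287)) (.alt (nat_lit 9) (.cov (nat_lit 2335795905003782163)) (.alt (nat_lit 9) (.cov (nat_lit 1773217573292485902347)) (.alt (nat_lit 9) (.cov (nat_lit 2953815505206640640006)) (.alt (nat_lit 9) (.cov (nat_lit 404502541339543850713091)) (.alt (nat_lit 9) (.cov (nat_lit 2338133466711851010)) (.alt (nat_lit 9) (.cov (nat_lit 344218582412547501064193)) (.alt (nat_lit 9) (.cov (nat_lit 18479430355381125120)) (.alt (nat_lit 9) (.cov (nat_lit 1063676)) .e)))))))))))))))))))))) .e))) .e), .exp (.alt (nat_lit 0) (.rot (.exp (.alt (nat_lit 6) (.exp (.alt (nat_lit 9) (.exp (.alt (nat_lit 1) (.cov (nat_lit 224931941731254894995363929164611591)) (.alt (nat_lit 1) (.cov (nat_lit 100154563159198142613766027575558147))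 (.alt (nat_lit 1) (.cov (nat_lit 92041594017806708923777731791945729)) (.alt (nat_lit 1) (.exp (.alt (nat_lit 3) (.exp (.alt (nat_lit 5) (.cov (nat_lit 202848719438027972604364760023042)) (.alt (nat_lit 5) (.cov (nat_lit 803873041467558364648313642342678529)) (.alt (nat_lit 5) (.cov (nat_lit 894575977190909749457049284585193472)) (.alt (nat_lit 5) (.cov (nat_lit 406806055794236426551390)) .e))))) .e)) (.alt (nat_lit 1) (.cov (nat_lit 1494200407491806757368)) .e)))))) (.alt (nat_lit 9) (.cov (nat_lit 406806059000412043740105)) (.alt (nat_lit 9) (.cov (nat_lit 2318036751333982668)) (.alt (nat_lit 9) (.cov (nat_lit 2317810107017068776)) (.alt (nat_lit 9) (.cov (nat_lit 2330474268893118689)) (.alt (nat_lit 9) (.cov (nat_lit 6421794564184533368926)) (.alt (nat_lit 9) (.cov (nat_lit 223692944668529524772)) (.alt (nat_lit 9) (.cov (nat_lit 350195323496804142546960)) (.alt (nat_lit 9) (.cov (nat_lit 6495581661425805819922)) (.alt (nat_lit 9) (.cov (nat_lit 2332532554647732235)) (.alt (nat_lit 9) (.cov (nat_lit 2953815505206640640006))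 (.alt (nat_lit 9) (.cov (nat_lit 404502541339543850713091)) (.alt (nat_lit 9) (.exp (.alt (nat_lit 1) (.exp (.alt (nat_lit 3) (.exp (.alt (nat_lit 5) (.exp (.alt (nat_lit 8) (.exp (.alt (nat_lit 10) (.cov (nat_lit 3204624905096063023990560595640322)) (.alt (nat_lit 10) (.cov (nat_lit 16834404168421392105811141973770241)) (.alt (nat_lit 10) (.cov (nat_lit 47440560250660946514458461645832192)) (.alt (nat_lit 10) (.cov (nat_lit 21573469098557487186014)) .e))))) (.alt (nat_lit 8) (.cov (nat_lit 27675862205902880806)) (.alt (nat_lit 8) (.cov (nat_lit 21573470635674740719713)) (.alt (nat_lit 8) (.cov (nat_lit 104657613668831526387746)) (.alt (nat_lit 8) (.cov (nat_lit 104657613668831526387747)) (.alt (nat_lit 8) (.cov (nat_lit 55352172917452439567)) (.alt (nat_lit 8) (.cov (nat_lit 55355673762475278343)) (.alt (nat_lit 8) (.cov (nat_lit 55355673762609496070)) (.alt (nat_lit 8) (.cov (nat_lit 1973823384018141315075)) (.alt (nat_lit 8) (.cov (nat_lit 42081656692878203682818)) (.alt (nat_lit 8) (.cov (nat_lit 22827871944199158890497))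 (.alt (nat_lit 8) (.cov (nat_lit 6520948333661357342720)) (.alt (nat_lit 8) (.cov (nat_lit 19102971142)) .e)))))))))))))) .e)) .e)) .e)) (.alt (nat_lit 9) (.cov (nat_lit 344218582412547501064193)) (.alt (nat_lit 9) (.cov (nat_lit 18479430355381125120)) (.alt (nat_lit 9) (.exp (.alt (nat_lit 1) (.cov (nat_lit 11540949034211475960)) (.alt (nat_lit 1) (.cov (nat_lit 21926269942118753502150)) (.alt (nat_lit 1) (.exp (.alt (nat_lit 3) (.cov (nat_lit 2946052529542087962264983451992066)) (.alt (nat_lit 3) (.cov (nat_lit 99814840806254259845590632000126977)) (.alt (nat_lit 3) (.cov (nat_lit 2946052611749431077711703493836800)) (.alt (nat_lit 3) (.cov (nat_lit 102206503328491328503902)) .e))))) (.alt (nat_lit 1) (.cov (nat_lit 6929724814157414438)) (.alt (nat_lit 1) (.cov (nat_lit 6937700668250521697)) (.alt (nat_lit 1) (.cov (nat_lit 6933197068354715682)) (.alt (nat_lit 1) (.cov (nat_lit 6941256488586313763)) (.alt (nat_lit 1) (.cov (nat_lit 1777831139475633209359)) (.alt (nat_lit 1) (.cov (nat_lit 6947281812306526215))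 (.alt (nat_lit 1) (.cov (nat_lit 597242098212668440582)) (.alt (nat_lit 1) (.cov (nat_lit 6947420350771625987)) (.alt (nat_lit 1) (.cov (nat_lit 102201910081282884239362)) (.alt (nat_lit 1) (.cov (nat_lit 104567706068665341313025)) (.alt (nat_lit 1) (.exp (.alt (nat_lit 3) (.exp (.alt (nat_lit 5) (.cov (nat_lit 25560275386634695868875)) (.alt (nat_lit 5) (.cov (nat_lit 3041412613628067053793)) (.alt (nat_lit 5) (.cov (nat_lit 10138800448232297070686)) (.alt (nat_lit 5) (.cov (nat_lit 10138803654407935229987)) (.alt (nat_lit 5) (.cov (nat_lit 48438144734801690640)) (.alt (nat_lit 5) (.cov (nat_lit 10138803654407935229971)) (.alt (nat_lit 5) (.cov (nat_lit 48438144734969462795)) (.alt (nat_lit 5) (.cov (nat_lit 786314251865443794950)) (.alt (nat_lit 5) (.cov (nat_lit 2967646136627941605379)) (.alt (nat_lit 5) (.cov (nat_lit 48444616460242780162)) (.alt (nat_lit 5) (.cov (nat_lit 6361847549766824624129)) (.alt (nat_lit 5) (.cov (nat_lit 404442588337185822343168)) (.alt (nat_lit 5) (.exp (.alt (nat_lit 4) (.exp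 (.alt (nat_lit 12) (.cov (nat_lit 3022083218663170320058924784418818)) (.alt (nat_lit 12) (.cov (nat_lit 61110906572123980114148715705401345)) (.alt (nat_lit 12) (.cov (nat_lit 61110906572124349049049981099442176)) (.alt (nat_lit 12) (.cov (nat_lit 43137713938874727661662)) .e))))) (.alt (nat_lit 4) (.cov (nat_lit 406815273871028535689254)) (.alt (nat_lit 4) (.cov (nat_lit 29025955241453663813729)) (.alt (nat_lit 4) (.cov (nat_lit 404306521967850466312226)) (.alt (nat_lit 4) (.cov (nat_lit 404306521967850466312227)) (.alt (nat_lit 4) (.cov (nat_lit 6373362026959041724431)) (.alt (nat_lit 4) (.cov (nat_lit 1577212084032743931911)) (.alt (nat_lit 4) (.cov (nat_lit 46132301725754720262)) (.alt (nat_lit 4) (.cov (nat_lit 25576432428528535863299)) (.alt (nat_lit 4) (.cov (nat_lit 7867558117767366311938)) (.alt (nat_lit 4) (.cov (nat_lit 1964604405629751132161)) (.alt (nat_lit 4) (.cov (nat_lit 636442421128616476672)) (.alt (nat_lit 4) (.cov (nat_lit 10515133702)) .e)))))))))))))) .e)))))))))))))) .e)) (.alt (nat_lit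 1) (.cov (nat_lit 3160614)) .e)))))))))))))))) .e))))))))))))))))) .e))) .e), .exp (.alt (nat_lit 0) (.rot (.exp (.alt (nat_lit 6) (.exp (.alt (nat_lit 9) (.cov (nat_lit 406806059000412815491304)) (.alt (nat_lit 9) (.cov (nat_lit 63090186032030537482465)) (.alt (nat_lit 9) (.exp (.alt (nat_lit 1) (.exp (.alt (nat_lit 3) (.exp (.alt (nat_lit 5) (.exp (.alt (nat_lit 4) (.exp (.alt (nat_lit 12) (.exp (.alt (nat_lit 20) (.exp (.alt (nat_lit 11) (.cov (nat_lit 1584115510724522934306)) (.alt (nat_lit 13) (.cov (nat_lit 3018351940579682680839)) (.alt (nat_lit 13) (.cov (nat_lit 43010898392026895613955)) (.alt (nat_lit 13) (.exp (.alt (nat_lit 15) (.exp (.alt (nat_lit 29) (.cov (nat_lit 6638522166463031148555)) (.alt (nat_lit 29) (.exp (.alt (nat_lit 31) (.exp (.alt (nat_lit 23) (.exp (.alt (nat_lit 30) (.exp (.alt (nat_lit 25) (.cov (nat_lit 404334183369231865741315)) (.alt (nat_lit 25) (.exp (.alt (nat_lit 17) (.exp (.alt (nat_lit 27) (.cov (nat_lit 25295097819870327209985)) (.alt (nat_lit 27) (.exp (.alt (nat_lit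 26) (.cov (nat_lit 25276651077995639865344)) (.alt (nat_lit 11) (.cov (nat_lit 19606274056)) .e))) .e))) .e)) (.alt (nat_lit 28) (.cov (nat_lit 13245612227)) .e)))) .e)) .e)) .e)) (.alt (nat_lit 29) (.cov (nat_lit 2935343791223715397633)) (.alt (nat_lit 29) (.exp (.alt (nat_lit 31) (.exp (.alt (nat_lit 23) (.exp (.alt (nat_lit 19) (.exp (.alt (nat_lit 17) (.exp (.alt (nat_lit 27) (.exp (.alt (nat_lit 30) (.cov (nat_lit 25295097819870934335489)) (.alt (nat_lit 30) (.exp (.alt (nat_lit 26) (.cov (nat_lit 2637884413535592644608)) (.alt (nat_lit 14) (.cov (nat_lit 19606274056)) .e))) .e))) .e)) .e)) .e)) .e)) (.alt (nat_lit 28) (.cov (nat_lit 29127409321199833972739)) (.alt (nat_lit 28) (.exp (.alt (nat_lit 30) (.exp (.alt (nat_lit 24) (.cov (nat_lit 36893521179200978946)) (.alt (nat_lit 24) (.cov (nat_lit 7881371548428934316033)) (.alt (nat_lit 24) (.exp (.alt (nat_lit 16) (.cov (nat_lit 25421919194339308732419)) (.alt (nat_lit 26) (.exp (.alt (nat_lit 10) (.exp (.alt (nat_lit 18) (.cov (nat_lit 25278956918805842886657))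 (.alt (nat_lit 18) (.exp (.alt (nat_lit 19) (.cov (nat_lit 2621743512471110418432)) (.alt (nat_lit 22) (.cov (nat_lit 1366294536)) .e))) .e))) .e)) (.alt (nat_lit 16) (.cov (nat_lit 37331403369)) .e)))) .e)))) .e)) (.alt (nat_lit 21) (.cov (nat_lit 18948820874)) .e))))) .e))))) .e)) (.alt (nat_lit 13) (.cov (nat_lit 12162442925)) .e)))))) .e)) .e)) .e)) .e)) .e)) .e)) (.alt (nat_lit 9) (.cov (nat_lit 21972406184494165393419)) (.alt (nat_lit 9) (.exp (.alt (nat_lit 1) (.exp (.alt (nat_lit 3) (.exp (.alt (nat_lit 5) (.exp (.alt (nat_lit 13) (.cov (nat_lit 1510330612552800665638)) (.alt (nat_lit 13) (.cov (nat_lit 47996133403426114502690)) (.alt (nat_lit 13) (.cov (nat_lit 66884888808513339399)) (.alt (nat_lit 13) (.cov (nat_lit 10249493946285115310083)) (.alt (nat_lit 13) (.exp (.alt (nat_lit 12) (.exp (.alt (nat_lit 15) (.cov (nat_lit 21571163255548547170323)) (.alt (nat_lit 15) (.cov (nat_lit 365566050482625440645131)) (.alt (nat_lit 15) (.cov (nat_lit 661788886586048380930)) (.alt (nat_lit 15) (.cov (nat_lit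 71496574826936532993)) (.alt (nat_lit 15) (.exp (.alt (nat_lit 31) (.cov (nat_lit 3168229079710941839394)) (.alt (nat_lit 14) (.cov (nat_lit 21541188833702097977351)) (.alt (nat_lit 14) (.cov (nat_lit 25304329915478841491459)) (.alt (nat_lit 14) (.cov (nat_lit 69190731817721790464)) (.alt (nat_lit 7) (.cov (nat_lit 3044026028)) .e)))))) .e)))))) .e)) (.alt (nat_lit 13) (.cov (nat_lit 10515133702)) .e))))))) .e)) .e)) .e)) (.alt (nat_lit 9) (.cov (nat_lit 344218582412547501064193)) (.alt (nat_lit 9) (.exp (.alt (nat_lit 1) (.cov (nat_lit 10115742048926481515000)) (.alt (nat_lit 1) (.exp (.alt (nat_lit 3) (.exp (.alt (nat_lit 2) (.exp (.alt (nat_lit 10) (.exp (.alt (nat_lit 18) (.exp (.alt (nat_lit 11) (.exp (.alt (nat_lit 15) (.exp (.alt (nat_lit 27) (.exp (.alt (nat_lit 5) (.cov (nat_lit 24010743402279660945419)) (.alt (nat_lit 5) (.exp (.alt (nat_lit 4) (.exp (.alt (nat_lit 12) (.exp (.alt (nat_lit 20) (.exp (.alt (nat_lit 21) (.cov (nat_lit 21525044508604922593283)) (.alt (nat_lit 21) (.exp (.alt (nat_lit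 17) (.exp (.alt (nat_lit 29) (.cov (nat_lit 6417161103437829505025)) (.alt (nat_lit 23) (.cov (nat_lit 32505871)) .e))) .e)) (.alt (nat_lit 21) (.exp (.alt (nat_lit 29) (.cov (nat_lit 6417161103440715186178)) (.alt (nat_lit 17) (.cov (nat_lit 93323331)) .e))) .e)))) .e)) .e)) .e)) (.alt (nat_lit 5) (.cov (nat_lit 6394108291850097917953)) (.alt (nat_lit 5) (.exp (.alt (nat_lit 4) (.exp (.alt (nat_lit 12) (.exp (.alt (nat_lit 28) (.exp (.alt (nat_lit 24) (.exp (.alt (nat_lit 30) (.exp (.alt (nat_lit 20) (.cov (nat_lit 25283568604824263983105)) (.alt (nat_lit 20) (.exp (.alt (nat_lit 21) (.cov (nat_lit 22839375017256778989568)) (.alt (nat_lit 16) (.cov (nat_lit 1360003080)) .e))) .e))) .e)) .e)) .e)) .e)) (.alt (nat_lit 4) (.cov (nat_lit 6539371203123428196355)) (.alt (nat_lit 4) (.exp (.alt (nat_lit 12) (.exp (.alt (nat_lit 20) (.cov (nat_lit 6396408540547038314498)) (.alt (nat_lit 20) (.cov (nat_lit 2633272863856613392385)) (.alt (nat_lit 20) (.exp (.alt (nat_lit 16) (.cov (nat_lit 1383505823121124884483))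 (.alt (nat_lit 21) (.exp (.alt (nat_lit 17) (.exp (.alt (nat_lit 29) (.cov (nat_lit 6417161103437829505025)) (.alt (nat_lit 23) (.cov (nat_lit 32505871)) .e))) .e)) (.alt (nat_lit 21) (.exp (.alt (nat_lit 29) (.cov (nat_lit 6417161103440715186178)) (.alt (nat_lit 17) (.cov (nat_lit 93323331)) .e))) .e)))) .e)))) .e)) (.alt (nat_lit 7) (.cov (nat_lit 165548134282)) .e))))) .e))))) .e)) .e)) .e)) .e)) .e)) .e)) (.alt (nat_lit 3) (.cov (nat_lit 39214772744447066133)) .e))) (.alt (nat_lit 1) (.cov (nat_lit 29083613538855257374754)) (.alt (nat_lit 1) (.exp (.alt (nat_lit 3) (.exp (.alt (nat_lit 2) (.exp (.alt (nat_lit 10) (.exp (.alt (nat_lit 18) (.exp (.alt (nat_lit 5) (.cov (nat_lit 365335462441328846045205)) (.alt (nat_lit 5) (.cov (nat_lit 3115199541544527855627)) (.alt (nat_lit 5) (.cov (nat_lit 21520444745687696932866)) (.alt (nat_lit 5) (.cov (nat_lit 2704772189661627940865)) (.alt (nat_lit 5) (.exp (.alt (nat_lit 13) (.cov (nat_lit 182162961122531999778)) (.alt (nat_lit 7) (.cov (nat_lit 25435757676112265609223))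 (.alt (nat_lit 7) (.cov (nat_lit 24033810426198194388995)) (.alt (nat_lit 7) (.exp (.alt (nat_lit 15) (.exp (.alt (nat_lit 23) (.cov (nat_lit 10180297028615193755659)) (.alt (nat_lit 23) (.exp (.alt (nat_lit 31) (.exp (.alt (nat_lit 27) (.exp (.alt (nat_lit 30) (.exp (.alt (nat_lit 21) (.cov (nat_lit 365365436513523323633667)) (.alt (nat_lit 21) (.exp (.alt (nat_lit 17) (.exp (.alt (nat_lit 29) (.cov (nat_lit 2868468712257941929985)) (.alt (nat_lit 29) (.exp (.alt (nat_lit 28) (.cov (nat_lit 22855515918321263312896)) (.alt (nat_lit 13) (.cov (nat_lit 174764064776)) .e))) .e))) .e)) (.alt (nat_lit 22) (.cov (nat_lit 10557063363)) .e)))) .e)) .e)) .e)) (.alt (nat_lit 23) (.cov (nat_lit 404327271463106703785985)) (.alt (nat_lit 23) (.exp (.alt (nat_lit 31) (.exp (.alt (nat_lit 27) (.exp (.alt (nat_lit 25) (.exp (.alt (nat_lit 17) (.exp (.alt (nat_lit 29) (.exp (.alt (nat_lit 30) (.cov (nat_lit 2868468712257976532993)) (.alt (nat_lit 30) (.exp (.alt (nat_lit 28) (.cov (nat_lit 2850021970383254585344)) (.alt (nat_lit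 14) (.cov (nat_lit 174764064776)) .e))) .e))) .e)) .e)) .e)) .e)) (.alt (nat_lit 22) (.cov (nat_lit 23215227845573204770819)) (.alt (nat_lit 22) (.exp (.alt (nat_lit 30) (.exp (.alt (nat_lit 20) (.cov (nat_lit 6382573482535288832002)) (.alt (nat_lit 20) (.cov (nat_lit 6705391613729950400513)) (.alt (nat_lit 20) (.exp (.alt (nat_lit 16) (.cov (nat_lit 260560277653994602499)) (.alt (nat_lit 28) (.exp (.alt (nat_lit 12) (.exp (.alt (nat_lit 24) (.cov (nat_lit 2861551183230314479617)) (.alt (nat_lit 24) (.exp (.alt (nat_lit 25) (.cov (nat_lit 2843104441355629232128)) (.alt (nat_lit 26) (.cov (nat_lit 11571036168)) .e))) .e))) .e)) (.alt (nat_lit 16) (.cov (nat_lit 159384169)) .e)))) .e)))) .e)) (.alt (nat_lit 19) (.cov (nat_lit 19556994954)) .e))))) .e))))) .e)) (.alt (nat_lit 7) (.cov (nat_lit 158191330989)) .e)))))) .e)))))) .e)) .e)) .e)) .e)) (.alt (nat_lit 1) (.cov (nat_lit 629517149340789899267)) (.alt (nat_lit 1) (.exp (.alt (nat_lit 3) (.exp (.alt (nat_lit 5) (.cov (nat_lit 27773880152087663214817)) (.alt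 (nat_lit 5) (.cov (nat_lit 10138803654407935229971)) (.alt (nat_lit 5) (.cov (nat_lit 48438144734969462795)) (.alt (nat_lit 17) (.exp (.alt (nat_lit 16) (.exp (.alt (nat_lit 18) (.exp (.alt (nat_lit 20) (.exp (.alt (nat_lit 25) (.cov (nat_lit 404493286948269952335906)) (.alt (nat_lit 19) (.cov (nat_lit 4258895479493712936967)) (.alt (nat_lit 19) (.cov (nat_lit 421978014002598379523)) (.alt (nat_lit 19) (.exp (.alt (nat_lit 23) (.exp (.alt (nat_lit 27) (.cov (nat_lit 172938373025785446411)) (.alt (nat_lit 27) (.exp (.alt (nat_lit 26) (.exp (.alt (nat_lit 24) (.exp (.alt (nat_lit 10) (.exp (.alt (nat_lit 31) (.cov (nat_lit 1805475093806538817539)) (.alt (nat_lit 31) (.exp (.alt (nat_lit 30) (.exp (.alt (nat_lit 15) (.cov (nat_lit 365349295603659879481345)) (.alt (nat_lit 15) (.exp (.alt (nat_lit 13) (.cov (nat_lit 42955549429637033492480)) (.alt (nat_lit 14) (.cov (nat_lit 3535798280)) .e))) .e))) .e)) (.alt (nat_lit 11) (.cov (nat_lit 854589635)) .e)))) .e)) .e)) .e)) (.alt (nat_lit 27) (.cov (nat_lit 384192650311050753736705))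 (.alt (nat_lit 27) (.exp (.alt (nat_lit 11) (.cov (nat_lit 406810658884284786409479)) (.alt (nat_lit 11) (.cov (nat_lit 1879262481502550622211)) (.alt (nat_lit 11) (.exp (.alt (nat_lit 10) (.exp (.alt (nat_lit 15) (.cov (nat_lit 71481166273872658434)) (.alt (nat_lit 15) (.cov (nat_lit 546484936120189583361)) (.alt (nat_lit 15) (.exp (.alt (nat_lit 14) (.cov (nat_lit 7775302644661498150915)) (.alt (nat_lit 13) (.exp (.alt (nat_lit 5) (.exp (.alt (nat_lit 29) (.cov (nat_lit 45443554034379605934081)) (.alt (nat_lit 29) (.exp (.alt (nat_lit 28) (.cov (nat_lit 364046494305653148876800)) (.alt (nat_lit 31) (.cov (nat_lit 185017040904)) .e))) .e))) .e)) (.alt (nat_lit 14) (.cov (nat_lit 10380903017)) .e)))) .e)))) .e)) (.alt (nat_lit 11) (.cov (nat_lit 166138482567)) .e))))) .e))))) .e)) (.alt (nat_lit 19) (.cov (nat_lit 191899310)) .e)))))) .e)) .e)) .e)) (.alt (nat_lit 17) (.cov (nat_lit 41894889781901296402433)) (.alt (nat_lit 5) (.exp (.alt (nat_lit 4) (.cov (nat_lit 406815273871071485362214)) (.alt (nat_lit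 4) (.cov (nat_lit 404306521967850634084386)) (.alt (nat_lit 4) (.cov (nat_lit 46132301725620502535)) (.alt (nat_lit 4) (.cov (nat_lit 25576432428528535863299)) (.alt (nat_lit 4) (.exp (.alt (nat_lit 12) (.exp (.alt (nat_lit 20) (.cov (nat_lit 1983026892278100656146)) (.alt (nat_lit 20) (.cov (nat_lit 29136633370535836778507)) (.alt (nat_lit 20) (.exp (.alt (nat_lit 21) (.exp (.alt (nat_lit 17) (.exp (.alt (nat_lit 23) (.exp (.alt (nat_lit 22) (.exp (.alt (nat_lit 18) (.exp (.alt (nat_lit 26) (.exp (.alt (nat_lit 24) (.exp (.alt (nat_lit 10) (.exp (.alt (nat_lit 30) (.cov (nat_lit 45450471563407243870209)) (.alt (nat_lit 30) (.exp (.alt (nat_lit 31) (.cov (nat_lit 214443410852005543936)) (.alt (nat_lit 28) (.cov (nat_lit 185015992328)) .e))) .e))) .e)) .e)) .e)) .e)) (.alt (nat_lit 22) (.cov (nat_lit 807045482053875269635)) (.alt (nat_lit 22) (.exp (.alt (nat_lit 18) (.exp (.alt (nat_lit 30) (.cov (nat_lit 104588427244900276240386)) (.alt (nat_lit 30) (.cov (nat_lit 45411272370789076172801)) (.alt (nat_lit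 30) (.exp (.alt (nat_lit 28) (.cov (nat_lit 29053621933703684947971)) (.alt (nat_lit 31) (.exp (.alt (nat_lit 29) (.exp (.alt (nat_lit 27) (.cov (nat_lit 394299163371660902401)) (.alt (nat_lit 15) (.cov (nat_lit 46417313807)) .e))) .e)) (.alt (nat_lit 31) (.exp (.alt (nat_lit 27) (.cov (nat_lit 394299163371828674562)) (.alt (nat_lit 29) (.cov (nat_lit 183870947395)) .e))) .e)))) .e)))) .e)) (.alt (nat_lit 22) (.exp (.alt (nat_lit 30) (.cov (nat_lit 7632340608998457737218)) (.alt (nat_lit 30) (.exp (.alt (nat_lit 14) (.cov (nat_lit 43114652603871596118023)) (.alt (nat_lit 31) (.cov (nat_lit 347894065371913439412224)) .e))) .e))) .e))))) .e)) .e)) .e)) (.alt (nat_lit 20) (.cov (nat_lit 42123160215577595740161)) (.alt (nat_lit 20) (.exp (.alt (nat_lit 22) (.cov (nat_lit 3094442675165030514722)) (.alt (nat_lit 21) (.cov (nat_lit 1985334272404436811783)) (.alt (nat_lit 21) (.cov (nat_lit 343900352690663707377667)) (.alt (nat_lit 21) (.exp (.alt (nat_lit 17) (.exp (.alt (nat_lit 23) (.cov (nat_lit 2626355334876534669323))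 (.alt (nat_lit 23) (.exp (.alt (nat_lit 22) (.exp (.alt (nat_lit 18) (.exp (.alt (nat_lit 30) (.exp (.alt (nat_lit 31) (.cov (nat_lit 350153790181737879306243)) (.alt (nat_lit 31) (.exp (.alt (nat_lit 29) (.exp (.alt (nat_lit 27) (.cov (nat_lit 394299163371660902401)) (.alt (nat_lit 15) (.cov (nat_lit 46417313807)) .e))) .e)) (.alt (nat_lit 31) (.exp (.alt (nat_lit 27) (.cov (nat_lit 394299163371828674562)) (.alt (nat_lit 29) (.cov (nat_lit 183870947395)) .e))) .e)))) .e)) .e)) .e)) (.alt (nat_lit 23) (.cov (nat_lit 6712314627121593974785)) (.alt (nat_lit 23) (.exp (.alt (nat_lit 22) (.exp (.alt (nat_lit 18) (.exp (.alt (nat_lit 26) (.exp (.alt (nat_lit 24) (.exp (.alt (nat_lit 10) (.exp (.alt (nat_lit 30) (.cov (nat_lit 45450471563407243870209)) (.alt (nat_lit 30) (.exp (.alt (nat_lit 31) (.cov (nat_lit 214443410852005543936)) (.alt (nat_lit 28) (.cov (nat_lit 185015992328)) .e))) .e))) .e)) .e)) .e)) .e)) (.alt (nat_lit 22) (.cov (nat_lit 807045482053875269635)) (.alt (nat_lit 22) (.exp (.alt (nat_lit 18)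 (.exp (.alt (nat_lit 30) (.cov (nat_lit 104588427244900276240386)) (.alt (nat_lit 30) (.cov (nat_lit 45411272370789076172801)) (.alt (nat_lit 30) (.exp (.alt (nat_lit 28) (.cov (nat_lit 29053621933703684947971)) (.alt (nat_lit 31) (.exp (.alt (nat_lit 29) (.exp (.alt (nat_lit 27) (.cov (nat_lit 394299163371660902401)) (.alt (nat_lit 15) (.cov (nat_lit 46417313807)) .e))) .e)) (.alt (nat_lit 31) (.exp (.alt (nat_lit 27) (.cov (nat_lit 394299163371828674562)) (.alt (nat_lit 29) (.cov (nat_lit 183870947395)) .e))) .e)))) .e)))) .e)) (.alt (nat_lit 7) (.cov (nat_lit 19141758858)) .e))))) .e))))) .e)) (.alt (nat_lit 21) (.cov (nat_lit 292563673)) .e)))))) .e)))))) .e)) (.alt (nat_lit 4) (.cov (nat_lit 10515133702)) .e))))))) .e))))))) .e)) (.alt (nat_lit 1) (.cov (nat_lit 118503950)) .e)))))))) .e)))))))) .e))) .e)]),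
   ([1, 18, 4], [.cov (nat_lit 841720027591019923989941870133248), .cov (nat_lit 30423648257192124801199409987584), .cov (nat_lit 841720027591019923989941870133248), .cov (nat_lit 30423648255421239637316269506560), .cov (nat_lit 841720027591019923989941870133248), .cov (nat_lit 30423648255421239639515292762112), .cov (nat_lit 841720027591019923989941870133248), .cov (nat_lit 30423648255421240195868176416768), .cov (nat_lit 841720027591019923989941870133248), .cov (nat_lit 1328497862889128147330691281977344), .cov (nat_lit 841720027591019923989941870133248), .exp (.alt (nat_lit 0) (.rot (.exp (.alt (nat_lit 6) (.exp (.alt (nat_lit 2) (.exp (.alt (nat_lit 3) (.exp (.alt (nat_lit 10) (.exp (.alt (nat_lit 9) (.cov (nat_lit 63117846318507719918027)) (.alt (nat_lit 9) (.cov (nat_lit 344218555903322337837281)) (.alt (nat_lit 9) (.cov (nat_lit 21575781769533908320350)) (.alt (nat_lit 9) (.cov (nat_lit 21575784977909106606115)) (.alt (nat_lit 9) (.cov (nat_lit 7749958464034911027216)) (.alt (nat_lit 9) (.cov (nat_lit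 2324009143239704594)) (.alt (nat_lit 9) (.cov (nat_lit 2327492393358589963)) (.alt (nat_lit 9) (.cov (nat_lit 7823747109388567969798)) (.alt (nat_lit 9) (.cov (nat_lit 76119003073969389571)) (.alt (nat_lit 9) (.cov (nat_lit 6348007708835961634818)) (.alt (nat_lit 9) (.cov (nat_lit 1551859032547059040257)) (.alt (nat_lit 9) (.cov (nat_lit 365485370696520459878400)) (.alt (nat_lit 9) (.exp (.alt (nat_lit 1) (.exp (.alt (nat_lit 5) (.cov (nat_lit 3980427072436078376628900263362562)) (.alt (nat_lit 5) (.cov (nat_lit 50548841771022577960906004615921665)) (.alt (nat_lit 5) (.cov (nat_lit 50548841771124256414260082867437568)) (.alt (nat_lit 5) (.cov (nat_lit 384321774797176267866206)) .e))))) (.alt (nat_lit 1) (.cov (nat_lit 4217390305326245347366)) (.alt (nat_lit 1) (.cov (nat_lit 23106856236801839857761)) (.alt (nat_lit 1) (.cov (nat_lit 365330857583114279976994)) (.alt (nat_lit 1) (.cov (nat_lit 365330857583111662731299)) (.alt (nat_lit 1) (.cov (nat_lit 6504795078487104815119)) (.alt (nat_lit 1) (.cov (nat_lit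 2594088851096248254471)) (.alt (nat_lit 1) (.cov (nat_lit 39214772698206961670)) (.alt (nat_lit 1) (.cov (nat_lit 25569514899503773122563)) (.alt (nat_lit 1) (.cov (nat_lit 6680048968025192267778)) (.alt (nat_lit 1) (.cov (nat_lit 3138278497319514013697)) (.alt (nat_lit 1) (.cov (nat_lit 6532482995688024571904)) (.alt (nat_lit 1) (.cov (nat_lit 9970922758)) .e)))))))))))))) .e)))))))))))))) .e)) .e)) .e)) .e))) .e), .cov (nat_lit 841720027591019923989941870133248), .exp (.alt (nat_lit 0) (.rot (.exp (.alt (nat_lit 6) (.exp (.alt (nat_lit 2) (.exp (.alt (nat_lit 3) (.exp (.alt (nat_lit 10) (.exp (.alt (nat_lit 9) (.cov (nat_lit 344218555903325055746273)) (.alt (nat_lit 9) (.cov (nat_lit 21575784977909106606099)) (.alt (nat_lit 9) (.cov (nat_lit 45630345649186652815371)) (.alt (nat_lit 9) (.exp (.alt (nat_lit 1) (.exp (.alt (nat_lit 5) (.exp (.alt (nat_lit 17) (.exp (.alt (nat_lit 25) (.cov (nat_lit 404493287876075736530978)) (.alt (nat_lit 8) (.cov (nat_lit 25438063519121476157447)) (.alt (nat_lit 8) (.cov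 (nat_lit 384190347564312690688003)) (.alt (nat_lit 8) (.exp (.alt (nat_lit 12) (.exp (.alt (nat_lit 24) (.cov (nat_lit 728646533851018952715)) (.alt (nat_lit 24) (.exp (.alt (nat_lit 28) (.exp (.alt (nat_lit 20) (.exp (.alt (nat_lit 29) (.exp (.alt (nat_lit 26) (.cov (nat_lit 45441248200166639403011)) (.alt (nat_lit 26) (.exp (.alt (nat_lit 18) (.exp (.alt (nat_lit 30) (.cov (nat_lit 2875386241285584060417)) (.alt (nat_lit 30) (.exp (.alt (nat_lit 31) (.cov (nat_lit 2856939499410898812928)) (.alt (nat_lit 14) (.cov (nat_lit 174767210504)) .e))) .e))) .e)) (.alt (nat_lit 25) (.cov (nat_lit 159277646019)) .e)))) .e)) .e)) .e)) (.alt (nat_lit 24) (.cov (nat_lit 25368890427863740710913)) (.alt (nat_lit 24) (.exp (.alt (nat_lit 28) (.exp (.alt (nat_lit 20) (.exp (.alt (nat_lit 22) (.exp (.alt (nat_lit 18) (.exp (.alt (nat_lit 30) (.exp (.alt (nat_lit 29) (.cov (nat_lit 2875386241285616566273)) (.alt (nat_lit 29) (.exp (.alt (nat_lit 31) (.cov (nat_lit 22862433447348907540480)) (.alt (nat_lit 13) (.cov (nat_lit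 174767210504)) .e))) .e))) .e)) .e)) .e)) .e)) (.alt (nat_lit 25) (.cov (nat_lit 350255247685363348537347)) (.alt (nat_lit 25) (.exp (.alt (nat_lit 29) (.exp (.alt (nat_lit 27) (.cov (nat_lit 412745931681038336002)) (.alt (nat_lit 27) (.cov (nat_lit 102340230420867910205441)) (.alt (nat_lit 27) (.exp (.alt (nat_lit 19) (.cov (nat_lit 2992984243717712904195)) (.alt (nat_lit 31) (.exp (.alt (nat_lit 15) (.exp (.alt (nat_lit 23) (.cov (nat_lit 2854633654202668154881)) (.alt (nat_lit 23) (.exp (.alt (nat_lit 22) (.cov (nat_lit 22841680860265989537792)) (.alt (nat_lit 21) (.cov (nat_lit 11563696136)) .e))) .e))) .e)) (.alt (nat_lit 19) (.cov (nat_lit 2440036969)) .e)))) .e)))) .e)) (.alt (nat_lit 16) (.cov (nat_lit 165544988554)) .e))))) .e))))) .e)) (.alt (nat_lit 8) (.cov (nat_lit 158188185261)) .e)))))) .e)) .e)) .e)) (.alt (nat_lit 9) (.cov (nat_lit 647963853831384596481)) (.alt (nat_lit 9) (.exp (.alt (nat_lit 1) (.cov (nat_lit 4217390305370805633062)) (.alt (nat_lit 1) (.cov (nat_lit 365330857583111662731298))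 (.alt (nat_lit 1) (.cov (nat_lit 39214772707702865927)) (.alt (nat_lit 1) (.cov (nat_lit 25569514899503773122563)) (.alt (nat_lit 1) (.exp (.alt (nat_lit 5) (.exp (.alt (nat_lit 17) (.cov (nat_lit 344338455999262986600466)) (.alt (nat_lit 17) (.cov (nat_lit 23217534365884354658315)) (.alt (nat_lit 17) (.exp (.alt (nat_lit 16) (.exp (.alt (nat_lit 18) (.exp (.alt (nat_lit 24) (.exp (.alt (nat_lit 25) (.exp (.alt (nat_lit 27) (.exp (.alt (nat_lit 31) (.exp (.alt (nat_lit 23) (.exp (.alt (nat_lit 15) (.exp (.alt (nat_lit 29) (.cov (nat_lit 404343406732472631689217)) (.alt (nat_lit 29) (.exp (.alt (nat_lit 28) (.cov (nat_lit 25281262764014069350400)) (.alt (nat_lit 21) (.cov (nat_lit 1933574152)) .e))) .e))) .e)) .e)) .e)) .e)) (.alt (nat_lit 25) (.cov (nat_lit 10249472604929956773891)) (.alt (nat_lit 25) (.exp (.alt (nat_lit 27) (.exp (.alt (nat_lit 29) (.cov (nat_lit 10138791744497983160322)) (.alt (nat_lit 29) (.cov (nat_lit 25338908975583862980609)) (.alt (nat_lit 29) (.exp (.alt (nat_lit 21) (.cov (nat_lit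 23148357987108009279491)) (.alt (nat_lit 28) (.exp (.alt (nat_lit 20) (.exp (.alt (nat_lit 30) (.cov (nat_lit 32281810925107806209)) (.alt (nat_lit 12) (.cov (nat_lit 46990884879)) .e))) .e)) (.alt (nat_lit 28) (.exp (.alt (nat_lit 30) (.cov (nat_lit 32281810925107806210)) (.alt (nat_lit 20) (.cov (nat_lit 166151061571)) .e))) .e)))) .e)))) .e)) (.alt (nat_lit 25) (.exp (.alt (nat_lit 29) (.cov (nat_lit 6449443145261637435394)) (.alt (nat_lit 29) (.exp (.alt (nat_lit 13) (.cov (nat_lit 384317160206267379089415)) (.alt (nat_lit 28) (.cov (nat_lit 406930563936811642519552)) .e))) .e))) .e))))) .e)) .e)) .e)) (.alt (nat_lit 17) (.cov (nat_lit 45648794176665336938497)) (.alt (nat_lit 17) (.exp (.alt (nat_lit 25) (.cov (nat_lit 404493287876075736530978)) (.alt (nat_lit 16) (.cov (nat_lit 344336151693380523393031)) (.alt (nat_lit 16) (.cov (nat_lit 345378398059572561444867)) (.alt (nat_lit 16) (.exp (.alt (nat_lit 18) (.exp (.alt (nat_lit 24) (.cov (nat_lit 2863857164782592327691)) (.alt (nat_lit 24) (.exp (.alt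 (nat_lit 25) (.exp (.alt (nat_lit 27) (.exp (.alt (nat_lit 29) (.exp (.alt (nat_lit 28) (.cov (nat_lit 29025951817574186483715)) (.alt (nat_lit 28) (.exp (.alt (nat_lit 20) (.exp (.alt (nat_lit 30) (.cov (nat_lit 32281810925107806209)) (.alt (nat_lit 12) (.cov (nat_lit 46990884879)) .e))) .e)) (.alt (nat_lit 28) (.exp (.alt (nat_lit 30) (.cov (nat_lit 32281810925107806210)) (.alt (nat_lit 20) (.cov (nat_lit 166151061571)) .e))) .e)))) .e)) .e)) .e)) (.alt (nat_lit 24) (.cov (nat_lit 10247171960246194143233)) (.alt (nat_lit 24) (.exp (.alt (nat_lit 25) (.exp (.alt (nat_lit 27) (.exp (.alt (nat_lit 31) (.exp (.alt (nat_lit 23) (.exp (.alt (nat_lit 15) (.exp (.alt (nat_lit 29) (.cov (nat_lit 404343406732472631689217)) (.alt (nat_lit 29) (.exp (.alt (nat_lit 28) (.cov (nat_lit 25281262764014069350400)) (.alt (nat_lit 21) (.cov (nat_lit 1933574152)) .e))) .e))) .e)) .e)) .e)) .e)) (.alt (nat_lit 25) (.cov (nat_lit 10249472604929956773891)) (.alt (nat_lit 25) (.exp (.alt (nat_lit 27) (.exp (.alt (nat_lit 29) (.cov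 (nat_lit 10138791744497983160322)) (.alt (nat_lit 29) (.cov (nat_lit 25338908975583862980609)) (.alt (nat_lit 29) (.exp (.alt (nat_lit 21) (.cov (nat_lit 23148357987108009279491)) (.alt (nat_lit 28) (.exp (.alt (nat_lit 20) (.exp (.alt (nat_lit 30) (.cov (nat_lit 32281810925107806209)) (.alt (nat_lit 12) (.cov (nat_lit 46990884879)) .e))) .e)) (.alt (nat_lit 28) (.exp (.alt (nat_lit 30) (.cov (nat_lit 32281810925107806210)) (.alt (nat_lit 20) (.cov (nat_lit 166151061571)) .e))) .e)))) .e)))) .e)) (.alt (nat_lit 8) (.cov (nat_lit 20749225866)) .e))))) .e))))) .e)) (.alt (nat_lit 16) (.cov (nat_lit 226503385)) .e)))))) .e)))))) .e)) (.alt (nat_lit 1) (.cov (nat_lit 9970922758)) .e))))))) .e))))))) .e)) .e)) .e)) .e))) .e)]),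
   ([1, 15, 7], [.cov (nat_lit 1328498288796557327626840416714752), .cov (nat_lit 229951819345628791659934857841082368), .cov (nat_lit 229951819065164052041397066042179584), .cov (nat_lit 1328498288796557327626840416714752), .cov (nat_lit 229951819345628348942793993695002624), .cov (nat_lit 229951819065157558792200025163169792), .cov (nat_lit 1328498288796557327626840416714752), .cov (nat_lit 229951819345634842194319800201641984), .cov (nat_lit 229951819065164052043725831669809152), .cov (nat_lit 1328498288796557327626840416714752), .cov (nat_lit 229951819345634842194321999224897536), .cov (nat_lit 229951819065164052043728030693064704), .cov (nat_lit 1328498288796557327626840416714752), .cov (nat_lit 229951819345634842194324198248153088), .cov (nat_lit 229951819065164052043730229716320256), .cov (nat_lit 1328498288796557327626840416714752), .cov (nat_lit 30424083468863870803608980160512), .exp (.alt (nat_lit 0) (.rot (.exp (.alt (nat_lit 6) (.exp (.alt (nat_lit 2) (.exp (.alt (nat_lit 3) (.exp (.alt (nat_lit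 10) (.exp (.alt (nat_lit 4) (.exp (.alt (nat_lit 5) (.exp (.alt (nat_lit 12) (.exp (.alt (nat_lit 9) (.cov (nat_lit 2686309010088387411987)) (.alt (nat_lit 9) (.cov (nat_lit 63339207264986568065035)) (.alt (nat_lit 9) (.cov (nat_lit 647953828668207267842)) (.alt (nat_lit 9) (.cov (nat_lit 57661516771690020865)) (.alt (nat_lit 9) (.exp (.alt (nat_lit 25) (.cov (nat_lit 22050777482161875320866)) (.alt (nat_lit 11) (.cov (nat_lit 1833148633953332101127)) (.alt (nat_lit 11) (.cov (nat_lit 25297412386451205652483)) (.alt (nat_lit 11) (.cov (nat_lit 62273202790085951488)) (.alt (nat_lit 1) (.cov (nat_lit 11627669164)) .e)))))) .e)))))) .e)) .e)) .e)) .e)) .e)) .e)) (.alt (nat_lit 6) (.exp (.alt (nat_lit 2) (.exp (.alt (nat_lit 3) (.exp (.alt (nat_lit 10) (.exp (.alt (nat_lit 8) (.exp (.alt (nat_lit 12) (.exp (.alt (nat_lit 24) (.exp (.alt (nat_lit 9) (.cov (nat_lit 2640192149904671375378)) (.alt (nat_lit 9) (.cov (nat_lit 43121573556777517056011)) (.alt (nat_lit 9) (.cov (nat_lit 25440377863561475522562)) (.alt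 (nat_lit 9) (.cov (nat_lit 102105049734731952816129)) (.alt (nat_lit 9) (.exp (.alt (nat_lit 25) (.cov (nat_lit 344283115219485501423650)) (.alt (nat_lit 11) (.cov (nat_lit 1464213752334219476999)) (.alt (nat_lit 11) (.cov (nat_lit 343909576036496113139715)) (.alt (nat_lit 11) (.exp (.alt (nat_lit 15) (.exp (.alt (nat_lit 27) (.cov (nat_lit 26708579718658916352011)) (.alt (nat_lit 27) (.exp (.alt (nat_lit 31) (.exp (.alt (nat_lit 30) (.exp (.alt (nat_lit 29) (.exp (.alt (nat_lit 19) (.cov (nat_lit 347649644673732333010947)) (.alt (nat_lit 19) (.exp (.alt (nat_lit 18) (.exp (.alt (nat_lit 23) (.cov (nat_lit 417357593463812521985)) (.alt (nat_lit 23) (.exp (.alt (nat_lit 21) (.cov (nat_lit 1374282444486483116032)) (.alt (nat_lit 7) (.cov (nat_lit 10340007944)) .e))) .e))) .e)) (.alt (nat_lit 25) (.cov (nat_lit 10017046723)) .e)))) .e)) .e)) .e)) (.alt (nat_lit 27) (.cov (nat_lit 63131681389756443262977)) (.alt (nat_lit 27) (.exp (.alt (nat_lit 31) (.exp (.alt (nat_lit 30) (.exp (.alt (nat_lit 22) (.exp (.alt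 (nat_lit 18) (.exp (.alt (nat_lit 23) (.exp (.alt (nat_lit 29) (.cov (nat_lit 417357593473549598721)) (.alt (nat_lit 29) (.exp (.alt (nat_lit 21) (.cov (nat_lit 408134223625945350144)) (.alt (nat_lit 13) (.cov (nat_lit 10340007944)) .e))) .e))) .e)) .e)) .e)) .e)) (.alt (nat_lit 25) (.cov (nat_lit 22027718695828017119235)) (.alt (nat_lit 25) (.exp (.alt (nat_lit 29) (.exp (.alt (nat_lit 17) (.cov (nat_lit 25419613366740977713154)) (.alt (nat_lit 17) (.cov (nat_lit 10231025574817722007553)) (.alt (nat_lit 17) (.exp (.alt (nat_lit 16) (.cov (nat_lit 21882450175076568399875)) (.alt (nat_lit 21) (.exp (.alt (nat_lit 5) (.exp (.alt (nat_lit 20) (.cov (nat_lit 419663436473048236033)) (.alt (nat_lit 20) (.exp (.alt (nat_lit 22) (.cov (nat_lit 410440066635185258496)) (.alt (nat_lit 28) (.cov (nat_lit 668991496)) .e))) .e))) .e)) (.alt (nat_lit 16) (.cov (nat_lit 174705345129)) .e)))) .e)))) .e)) (.alt (nat_lit 26) (.cov (nat_lit 10936651658)) .e))))) .e))))) .e)) (.alt (nat_lit 11) (.cov (nat_lit 47595923117)) .e))))))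 .e)))))) .e)) .e)) .e)) .e)) .e)) .e)) .e)))) .e)]),
   ([1, 14, 8], [.cov (nat_lit 55847615917202495118991119184035840), .cov (nat_lit 894565818974149362712149453376061440), .cov (nat_lit 55847615922038567321914336912343040), .cov (nat_lit 55847615917202495118991119184035840), .cov (nat_lit 894565818974149362712149453376061440), .cov (nat_lit 55847615922017464252851278300839936), .cov (nat_lit 55847615917202495118991119184035840), .cov (nat_lit 894565818974149362712149453376061440), .cov (nat_lit 55847615922016726379875556942413824), .cov (nat_lit 55847615917202495118991119184035840), .cov (nat_lit 894565818974149362712149453376061440), .cov (nat_lit 55847615922016726387783244569378816), .cov (nat_lit 55847615917202495118991119184035840), .cov (nat_lit 894565818974149362712149453376061440), .exp (.alt (nat_lit 0) (.rot (.exp (.alt (nat_lit 6) (.cov (nat_lit 8645434604575705153237168471146498)) (.alt (nat_lit 6) (.cov (nat_lit 227208682988749327061848677584732161)) (.alt (nat_lit 6) (.cov (nat_lit 3453137760547948160779652895342592))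 (.alt (nat_lit 6) (.cov (nat_lit 1570305248855465132126)) .e)))))) .e)]),
   ([1, 11, 11], [.cov (nat_lit 30456153859352263333111534714880), .cov (nat_lit 30456153859352263333111534714880), .cov (nat_lit 30456153859352263333111534714880), .cov (nat_lit 30456153859352263333111534714880), .cov (nat_lit 3600136142950486964722881800437760), .cov (nat_lit 6196302411127811512753687518773248), .cov (nat_lit 6196302411127811512753687518773248), .cov (nat_lit 6196302411127811512753687518773248), .cov (nat_lit 3600136142950486964722881800437760), .cov (nat_lit 192696658485856114704742160007168), .cov (nat_lit 6196302411127811512755886542028800), .cov (nat_lit 6196302411127811512755886542028800), .cov (nat_lit 3600136142950486964722881800437760), .cov (nat_lit 192696658485856114704742160007168), .cov (nat_lit 192696663321559393163258858831872), .exp (.alt (nat_lit 0) (.exp (.alt (nat_lit 9) (.cov (nat_lit 6196302411127627039076520651915275)) (.alt (nat_lit 9) (.cov (nat_lit 517227717269087107048891588018182)) (.alt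 (nat_lit 9) (.cov (nat_lit 517227717269677403024176870064130)) (.alt (nat_lit 9) (.cov (nat_lit 845076769890067867934701583023996929)) (.alt (nat_lit 9) (.cov (nat_lit 30467556443144966146232629067776)) (.alt (nat_lit 9) (.exp (.alt (nat_lit 1) (.cov (nat_lit 91544692681204938863986293655732231)) (.alt (nat_lit 1) (.exp (.alt (nat_lit 3) (.exp (.alt (nat_lit 2) (.exp (.alt (nat_lit 10) (.cov (nat_lit 2891542005548267339810)) .e)) .e)) .e)) (.alt (nat_lit 1) (.cov (nat_lit 11226346264747753715856380907225089)) (.alt (nat_lit 1) (.exp (.alt (nat_lit 3) (.exp (.alt (nat_lit 5) (.cov (nat_lit 3437900962430664028475796426326018)) (.alt (nat_lit 5) (.cov (nat_lit 58281536540376187411757192417640449)) (.alt (nat_lit 5) (.cov (nat_lit 354974717182719959437752596955136)) (.alt (nat_lit 5) (.cov (nat_lit 1932308393412659249246)) .e))))) .e)) (.alt (nat_lit 1) (.cov (nat_lit 4219707827345251369464)) .e)))))) .e))))))) .e)]),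
   ([1, 8, 14], [.cov (nat_lit 2951148151872201734883109588959232), .cov (nat_lit 2951148151872201734883109588959232), .cov (nat_lit 2951148151872201734883109588959232), .cov (nat_lit 2951148151872201734883109588959232), .cov (nat_lit 2951148151872201734883109588959232), .cov (nat_lit 100306714268750337794829543958118400), .cov (nat_lit 100306714268750337794829543958118400), .cov (nat_lit 100306714268750337794829543958118400), .cov (nat_lit 100306714268750337794829543958118400), .cov (nat_lit 100306714268750337794829543958118400), .cov (nat_lit 3113384521974985040283284289880064), .cov (nat_lit 22422252004620554967727824223338496), .cov (nat_lit 1328538951860327898929785902989312), .cov (nat_lit 1328556341049317235755834876624896), .exp (.alt (nat_lit 0) (.exp (.alt (nat_lit 9) (.cov (nat_lit 6196333644935291681751638599532546)) (.alt (nat_lit 9) (.cov (nat_lit 16743189134062839652762947370876929)) (.alt (nat_lit 9) (.cov (nat_lit 13984778947244675241753649471291392)) (.alt (nat_lit 9) (.cov (nat_lit 6359541178992042180702))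 .e))))) .e)]),
   ([1, 7, 15], [.cov (nat_lit 100306718591861394890417161161932800), .cov (nat_lit 100306718591861394890417161161932800), .cov (nat_lit 100306718591861394890417161161932800), .cov (nat_lit 100306718591861394890417161161932800), .cov (nat_lit 100306718591861394890417161161932800), .cov (nat_lit 100306718591861394890417161161932800), .cov (nat_lit 14309288288914366414375749488214016), .cov (nat_lit 30482300527122729435203561848832), .cov (nat_lit 14309293409924138301944933543575552), .cov (nat_lit 14309293414759841580403450242400256), .cov (nat_lit 14309293419595544858861966941224960), .cov (nat_lit 47247935078380548127126647109320704), .cov (nat_lit 14309288288914366414248206139392000), .cov (nat_lit 30482300527122729307660213026816), .cov (nat_lit 14309293409924138301817390194753536), .cov (nat_lit 14309293414759841580275906893578240), .cov (nat_lit 14309293419595544858734423592402944), .exp (.alt (nat_lit 0) (.exp (.alt (nat_lit 9) (.exp (.alt (nat_lit 1) (.exp (.alt (nat_lit 3) (.exp (.alt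 (nat_lit 5) (.exp (.alt (nat_lit 8) (.exp (.alt (nat_lit 10) (.exp (.alt (nat_lit 12) (.exp (.alt (nat_lit 6) (.cov (nat_lit 343879593240429196214291)) (.alt (nat_lit 6) (.cov (nat_lit 45632638797231891152907)) (.alt (nat_lit 6) (.cov (nat_lit 50740489144422629378)) (.alt (nat_lit 6) (.cov (nat_lit 50743987744016433153)) (.alt (nat_lit 6) (.exp (.alt (nat_lit 22) (.cov (nat_lit 42111611662321282187298)) (.alt (nat_lit 7) (.cov (nat_lit 53037830685070458887)) (.alt (nat_lit 7) (.cov (nat_lit 421978003191314251779)) (.alt (nat_lit 7) (.cov (nat_lit 53049830753231175680)) (.alt (nat_lit 2) (.cov (nat_lit 3038783148)) .e)))))) .e)))))) .e)) .e)) .e)) .e)) .e)) .e)) (.alt (nat_lit 9) (.exp (.alt (nat_lit 1) (.exp (.alt (nat_lit 3) (.exp (.alt (nat_lit 5) (.exp (.alt (nat_lit 4) (.exp (.alt (nat_lit 12) (.exp (.alt (nat_lit 20) (.exp (.alt (nat_lit 6) (.cov (nat_lit 1378896023868539928594)) (.alt (nat_lit 6) (.cov (nat_lit 22758673942410577313803)) (.alt (nat_lit 6) (.cov (nat_lit 6543994403043946790914)) (.alt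 (nat_lit 6) (.cov (nat_lit 404329587109361572904961)) (.alt (nat_lit 6) (.exp (.alt (nat_lit 22) (.cov (nat_lit 3094442675165030514722)) (.alt (nat_lit 7) (.cov (nat_lit 3004516882524400517127)) (.alt (nat_lit 7) (.cov (nat_lit 2709374276989952720899)) (.alt (nat_lit 7) (.exp (.alt (nat_lit 15) (.exp (.alt (nat_lit 23) (.cov (nat_lit 104627626686010780286987)) (.alt (nat_lit 23) (.exp (.alt (nat_lit 31) (.exp (.alt (nat_lit 29) (.exp (.alt (nat_lit 30) (.exp (.alt (nat_lit 19) (.cov (nat_lit 365360824827504896245763)) (.alt (nat_lit 19) (.exp (.alt (nat_lit 17) (.exp (.alt (nat_lit 27) (.cov (nat_lit 25295097819870327209985)) (.alt (nat_lit 27) (.exp (.alt (nat_lit 26) (.cov (nat_lit 2637884413535592644608)) (.alt (nat_lit 11) (.cov (nat_lit 19606274056)) .e))) .e))) .e)) (.alt (nat_lit 22) (.cov (nat_lit 156583854275)) .e)))) .e)) .e)) .e)) (.alt (nat_lit 23) (.cov (nat_lit 45422807078995240157185)) (.alt (nat_lit 23) (.exp (.alt (nat_lit 31) (.exp (.alt (nat_lit 29) (.exp (.alt (nat_lit 25) (.exp (.alt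 (nat_lit 17) (.exp (.alt (nat_lit 27) (.exp (.alt (nat_lit 30) (.cov (nat_lit 25295097819870934335489)) (.alt (nat_lit 30) (.exp (.alt (nat_lit 26) (.cov (nat_lit 25276651077995639865344)) (.alt (nat_lit 14) (.cov (nat_lit 19606274056)) .e))) .e))) .e)) .e)) .e)) .e)) (.alt (nat_lit 22) (.cov (nat_lit 344331536994690484142083)) (.alt (nat_lit 22) (.exp (.alt (nat_lit 30) (.exp (.alt (nat_lit 18) (.cov (nat_lit 479615378948230217730)) (.alt (nat_lit 18) (.cov (nat_lit 797821824124466495489)) (.alt (nat_lit 18) (.exp (.alt (nat_lit 16) (.cov (nat_lit 260560277817203359747)) (.alt (nat_lit 26) (.exp (.alt (nat_lit 10) (.exp (.alt (nat_lit 24) (.cov (nat_lit 25292791976861131341825)) (.alt (nat_lit 24) (.exp (.alt (nat_lit 25) (.cov (nat_lit 25274345234986446094336)) (.alt (nat_lit 28) (.cov (nat_lit 1372585992)) .e))) .e))) .e)) (.alt (nat_lit 16) (.cov (nat_lit 2340422249)) .e)))) .e)))) .e)) (.alt (nat_lit 21) (.cov (nat_lit 174714785674)) .e))))) .e))))) .e)) (.alt (nat_lit 7) (.cov (nat_lit 12162442925))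 .e)))))) .e)))))) .e)) .e)) .e)) .e)) .e)) .e)) .e))) .e)]),
   ([1, 4, 18], [.cov (nat_lit 841790730383788022799315891126272), .cov (nat_lit 841790730383788022799315891126272), .cov (nat_lit 841790730383788022799315891126272), .cov (nat_lit 841790730383788022799315891126272), .cov (nat_lit 841790730383788022799315891126272), .cov (nat_lit 841790730383788022799315891126272), .cov (nat_lit 841790730383788022799315891126272), .cov (nat_lit 30489447671702079915810879438848), .cov (nat_lit 3924717077182902892044399614623744), .cov (nat_lit 3924717082018606170502916313448448), .cov (nat_lit 3924718305451535620507641116098560), .cov (nat_lit 3924718310285541798511376536174592), .exp (.alt (nat_lit 0) (.exp (.alt (nat_lit 9) (.exp (.alt (nat_lit 1) (.exp (.alt (nat_lit 3) (.exp (.alt (nat_lit 5) (.exp (.alt (nat_lit 6) (.cov (nat_lit 45411277850757975507403)) (.alt (nat_lit 6) (.cov (nat_lit 3029883359010989539553)) (.alt (nat_lit 6) (.cov (nat_lit 343879600068396673138782)) (.alt (nat_lit 6) (.cov (nat_lit 343879603276771368108067))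 (.alt (nat_lit 6) (.cov (nat_lit 104560777205872121085968)) (.alt (nat_lit 6) (.cov (nat_lit 594925662508437995538)) (.alt (nat_lit 6) (.cov (nat_lit 594929145763992698891)) (.alt (nat_lit 6) (.cov (nat_lit 104634565851225509593094)) (.alt (nat_lit 6) (.cov (nat_lit 594933680147085131779)) (.alt (nat_lit 6) (.cov (nat_lit 373568471963281653762)) (.alt (nat_lit 6) (.cov (nat_lit 6350318334720790757377)) (.alt (nat_lit 6) (.cov (nat_lit 347767273013722436599808)) (.alt (nat_lit 6) (.exp (.alt (nat_lit 2) (.exp (.alt (nat_lit 10) (.cov (nat_lit 91275030935872878680021867167746)) (.alt (nat_lit 10) (.cov (nat_lit 102639140235600475547589514966859777)) (.alt (nat_lit 10) (.cov (nat_lit 102639140235625932054431025320689664)) (.alt (nat_lit 10) (.cov (nat_lit 384324080640185482608734)) .e))))) (.alt (nat_lit 2) (.cov (nat_lit 350142264390754752266278)) (.alt (nat_lit 2) (.cov (nat_lit 350142264390571108860001)) (.alt (nat_lit 2) (.cov (nat_lit 45402057583739705229346)) (.alt (nat_lit 2) (.cov (nat_lit 45402057583739034140707))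 (.alt (nat_lit 2) (.cov (nat_lit 1646383858071671668751)) (.alt (nat_lit 2) (.cov (nat_lit 1351239469129833381895)) (.alt (nat_lit 2) (.cov (nat_lit 41520615707191017478)) (.alt (nat_lit 2) (.cov (nat_lit 6682354811032230166531)) (.alt (nat_lit 2) (.cov (nat_lit 6682354811032230166530)) (.alt (nat_lit 2) (.cov (nat_lit 22030050271807347359745)) (.alt (nat_lit 2) (.cov (nat_lit 6534788838697243508736)) (.alt (nat_lit 2) (.cov (nat_lit 156541924614)) .e)))))))))))))) .e)))))))))))))) .e)) .e)) .e)) .e)) .e), .exp (.alt (nat_lit 0) (.exp (.alt (nat_lit 9) (.exp (.alt (nat_lit 1) (.exp (.alt (nat_lit 3) (.exp (.alt (nat_lit 5) (.exp (.alt (nat_lit 6) (.cov (nat_lit 3029883359000218566881)) (.alt (nat_lit 6) (.cov (nat_lit 343879603276771334553619)) (.alt (nat_lit 6) (.cov (nat_lit 365572980706611608682507)) (.alt (nat_lit 6) (.exp (.alt (nat_lit 2) (.exp (.alt (nat_lit 10) (.exp (.alt (nat_lit 18) (.exp (.alt (nat_lit 22) (.cov (nat_lit 6636217537315122184226)) (.alt (nat_lit 4) (.cov (nat_lit 6539374215614630461447))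 (.alt (nat_lit 4) (.cov (nat_lit 5137426965829408260099)) (.alt (nat_lit 4) (.exp (.alt (nat_lit 12) (.exp (.alt (nat_lit 20) (.cov (nat_lit 10173379499588089544715)) (.alt (nat_lit 20) (.exp (.alt (nat_lit 28) (.exp (.alt (nat_lit 24) (.exp (.alt (nat_lit 30) (.exp (.alt (nat_lit 21) (.cov (nat_lit 63140899138902260973571)) (.alt (nat_lit 21) (.exp (.alt (nat_lit 17) (.exp (.alt (nat_lit 29) (.cov (nat_lit 2875386241285616566273)) (.alt (nat_lit 29) (.exp (.alt (nat_lit 31) (.cov (nat_lit 22862433447348907540480)) (.alt (nat_lit 13) (.cov (nat_lit 174767210504)) .e))) .e))) .e)) (.alt (nat_lit 22) (.cov (nat_lit 1970274499)) .e)))) .e)) .e)) .e)) (.alt (nat_lit 20) (.cov (nat_lit 102095816559449440518145)) (.alt (nat_lit 20) (.exp (.alt (nat_lit 28) (.exp (.alt (nat_lit 24) (.exp (.alt (nat_lit 25) (.exp (.alt (nat_lit 17) (.exp (.alt (nat_lit 29) (.exp (.alt (nat_lit 30) (.cov (nat_lit 2875386241285584060417)) (.alt (nat_lit 30) (.exp (.alt (nat_lit 31) (.cov (nat_lit 2856939499410898812928)) (.alt (nat_lit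 14) (.cov (nat_lit 174767210504)) .e))) .e))) .e)) .e)) .e)) .e)) (.alt (nat_lit 22) (.cov (nat_lit 4332679443122801868803)) (.alt (nat_lit 22) (.exp (.alt (nat_lit 30) (.exp (.alt (nat_lit 23) (.cov (nat_lit 25278956943178952867842)) (.alt (nat_lit 23) (.cov (nat_lit 25601775074236209037313)) (.alt (nat_lit 23) (.exp (.alt (nat_lit 19) (.cov (nat_lit 1441151898371409051651)) (.alt (nat_lit 31) (.exp (.alt (nat_lit 15) (.exp (.alt (nat_lit 27) (.cov (nat_lit 2861551183230348034049)) (.alt (nat_lit 27) (.exp (.alt (nat_lit 25) (.cov (nat_lit 2843104441355626086400)) (.alt (nat_lit 26) (.cov (nat_lit 2977955848)) .e))) .e))) .e)) (.alt (nat_lit 19) (.cov (nat_lit 699400809)) .e)))) .e)))) .e)) (.alt (nat_lit 16) (.cov (nat_lit 156992802698)) .e))))) .e))))) .e)) (.alt (nat_lit 4) (.cov (nat_lit 20749231789)) .e)))))) .e)) .e)) .e)) (.alt (nat_lit 6) (.cov (nat_lit 124537490739910672385)) (.alt (nat_lit 6) (.exp (.alt (nat_lit 2) (.cov (nat_lit 350142264390582953574438)) (.alt (nat_lit 2) (.cov (nat_lit 45402057583739000586274))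 (.alt (nat_lit 2) (.cov (nat_lit 41520615707761442823)) (.alt (nat_lit 2) (.cov (nat_lit 6682354811032230166531)) (.alt (nat_lit 2) (.exp (.alt (nat_lit 10) (.exp (.alt (nat_lit 18) (.cov (nat_lit 3159006826976953499666)) (.alt (nat_lit 18) (.cov (nat_lit 48021487615993845907467)) (.alt (nat_lit 18) (.exp (.alt (nat_lit 16) (.exp (.alt (nat_lit 17) (.exp (.alt (nat_lit 20) (.exp (.alt (nat_lit 22) (.exp (.alt (nat_lit 23) (.exp (.alt (nat_lit 31) (.exp (.alt (nat_lit 27) (.exp (.alt (nat_lit 15) (.exp (.alt (nat_lit 30) (.cov (nat_lit 102111951828815376809985)) (.alt (nat_lit 30) (.exp (.alt (nat_lit 28) (.cov (nat_lit 424275124690448547840)) (.alt (nat_lit 26) (.cov (nat_lit 159240945672)) .e))) .e))) .e)) .e)) .e)) .e)) (.alt (nat_lit 22) (.cov (nat_lit 1987637102771291815939)) (.alt (nat_lit 22) (.exp (.alt (nat_lit 23) (.exp (.alt (nat_lit 30) (.cov (nat_lit 10141097587507202097154)) (.alt (nat_lit 30) (.cov (nat_lit 102079670165224850194433)) (.alt (nat_lit 30) (.exp (.alt (nat_lit 26) (.cov (nat_lit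 47950005394356500955139)) (.alt (nat_lit 28) (.exp (.alt (nat_lit 24) (.exp (.alt (nat_lit 29) (.cov (nat_lit 29975967915930812417)) (.alt (nat_lit 12) (.cov (nat_lit 12059672591)) .e))) .e)) (.alt (nat_lit 28) (.exp (.alt (nat_lit 29) (.cov (nat_lit 29975967915897257986)) (.alt (nat_lit 24) (.cov (nat_lit 158101143619)) .e))) .e)))) .e)))) .e)) (.alt (nat_lit 22) (.exp (.alt (nat_lit 30) (.cov (nat_lit 404311125170038460383234)) (.alt (nat_lit 30) (.exp (.alt (nat_lit 14) (.cov (nat_lit 384317160206258118066183)) (.alt (nat_lit 28) (.cov (nat_lit 7888290291317408268288)) .e))) .e))) .e))))) .e)) .e)) .e)) (.alt (nat_lit 18) (.cov (nat_lit 63369197702472605368321)) (.alt (nat_lit 18) (.exp (.alt (nat_lit 22) (.cov (nat_lit 6636217537315122184226)) (.alt (nat_lit 16) (.cov (nat_lit 22043862609554930925575)) (.alt (nat_lit 16) (.cov (nat_lit 3883048395022310309891)) (.alt (nat_lit 16) (.exp (.alt (nat_lit 17) (.exp (.alt (nat_lit 20) (.cov (nat_lit 3959132594167686889483)) (.alt (nat_lit 20) (.exp (.alt (nat_lit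 22) (.exp (.alt (nat_lit 23) (.exp (.alt (nat_lit 30) (.exp (.alt (nat_lit 28) (.cov (nat_lit 10136485886095643377667)) (.alt (nat_lit 28) (.exp (.alt (nat_lit 24) (.exp (.alt (nat_lit 29) (.cov (nat_lit 29975967915930812417)) (.alt (nat_lit 12) (.cov (nat_lit 12059672591)) .e))) .e)) (.alt (nat_lit 28) (.exp (.alt (nat_lit 29) (.cov (nat_lit 29975967915897257986)) (.alt (nat_lit 24) (.cov (nat_lit 158101143619)) .e))) .e)))) .e)) .e)) .e)) (.alt (nat_lit 20) (.cov (nat_lit 802438994506932027393)) (.alt (nat_lit 20) (.exp (.alt (nat_lit 22) (.exp (.alt (nat_lit 23) (.exp (.alt (nat_lit 31) (.exp (.alt (nat_lit 27) (.exp (.alt (nat_lit 15) (.exp (.alt (nat_lit 30) (.cov (nat_lit 102111951828815376809985)) (.alt (nat_lit 30) (.exp (.alt (nat_lit 28) (.cov (nat_lit 424275124690448547840)) (.alt (nat_lit 26) (.cov (nat_lit 159240945672)) .e))) .e))) .e)) .e)) .e)) .e)) (.alt (nat_lit 22) (.cov (nat_lit 1987637102771291815939)) (.alt (nat_lit 22) (.exp (.alt (nat_lit 23) (.exp (.alt (nat_lit 30) (.cov (nat_lit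 10141097587507202097154)) (.alt (nat_lit 30) (.cov (nat_lit 102079670165224850194433)) (.alt (nat_lit 30) (.exp (.alt (nat_lit 26) (.cov (nat_lit 47950005394356500955139)) (.alt (nat_lit 28) (.exp (.alt (nat_lit 24) (.exp (.alt (nat_lit 29) (.cov (nat_lit 29975967915930812417)) (.alt (nat_lit 12) (.cov (nat_lit 12059672591)) .e))) .e)) (.alt (nat_lit 28) (.exp (.alt (nat_lit 29) (.cov (nat_lit 29975967915897257986)) (.alt (nat_lit 24) (.cov (nat_lit 158101143619)) .e))) .e)))) .e)))) .e)) (.alt (nat_lit 4) (.cov (nat_lit 166241243018)) .e))))) .e))))) .e)) (.alt (nat_lit 16) (.cov (nat_lit 11563707097)) .e)))))) .e)))))) .e)) (.alt (nat_lit 2) (.cov (nat_lit 156541924614)) .e))))))) .e))))))) .e)) .e)) .e)) .e)) .e)]),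
   ([1, 1, 21], [.cov (nat_lit 3924719258083310589388961504821248), .cov (nat_lit 3924719262919013867847478203645952), .cov (nat_lit 3924719374140189272393362276614144), .cov (nat_lit 3924719456347145006188146156634112), .exp (.alt (nat_lit 0) (.cov (nat_lit 1784755777945451102208)) .e), .exp (.alt (nat_lit 0) (.exp (.alt (nat_lit 9) (.exp (.alt (nat_lit 6) (.cov (nat_lit 1775508236444276622279)) (.alt (nat_lit 6) (.cov (nat_lit 406792232109576692957407)) (.alt (nat_lit 6) (.cov (nat_lit 1775507946173106226827)) (.alt (nat_lit 6) (.cov (nat_lit 1775511084179929433032)) (.alt (nat_lit 6) (.cov (nat_lit 1780129235329446052295)) (.alt (nat_lit 6) (.cov (nat_lit 29076703834137073549408)) (.alt (nat_lit 6) (.cov (nat_lit 21845582842065607196706)) (.alt (nat_lit 6) (.cov (nat_lit 1775514378320591454440)) (.alt (nat_lit 6) (.cov (nat_lit 1775520764280333926626)) (.alt (nat_lit 6) (.cov (nat_lit 1775526121100145590366)) (.alt (nat_lit 6) (.cov (nat_lit 21845582842065607196708)) (.alt (nat_lit 6) (.cov (nat_lit 4284284469612113821712))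 (.alt (nat_lit 6) (.cov (nat_lit 21550438611454643929095)) (.alt (nat_lit 6) (.cov (nat_lit 1775529069990599720979)) (.alt (nat_lit 6) (.cov (nat_lit 4635985228301598731)) (.alt (nat_lit 6) (.cov (nat_lit 1406594846024253046790)) (.alt (nat_lit 6) (.cov (nat_lit 6645471000785484513283)) (.alt (nat_lit 6) (.cov (nat_lit 1775531407552043548674)) (.alt (nat_lit 6) (.cov (nat_lit 3029909868224877428737)) (.alt (nat_lit 6) (.cov (nat_lit 1780143489394644353024)) (.alt (nat_lit 6) (.cov (nat_lit 807418620)) .e)))))))))))))))))))))) .e)) .e), .exp (.alt (nat_lit 0) (.exp (.alt (nat_lit 9) (.exp (.alt (nat_lit 6) (.exp (.alt (nat_lit 2) (.cov (nat_lit 56162011419274226867349357410123783)) (.alt (nat_lit 2) (.cov (nat_lit 139076507189004749654338333917052931)) (.alt (nat_lit 2) (.cov (nat_lit 47886788311056064684490060010094593)) (.alt (nat_lit 2) (.exp (.alt (nat_lit 3) (.exp (.alt (nat_lit 10) (.cov (nat_lit 20307033005174468003885567967234)) (.alt (nat_lit 10) (.cov (nat_lit 764910532618949494038205900620038145))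 (.alt (nat_lit 10) (.cov (nat_lit 17057525688920830389996862474027008)) (.alt (nat_lit 10) (.cov (nat_lit 7756864619714288025694)) .e))))) .e)) (.alt (nat_lit 2) (.cov (nat_lit 5321899802785734459896)) .e)))))) (.alt (nat_lit 6) (.cov (nat_lit 7756867825890974761929)) (.alt (nat_lit 6) (.cov (nat_lit 1775511310844714549708)) (.alt (nat_lit 6) (.cov (nat_lit 1775511084179459670248)) (.alt (nat_lit 6) (.cov (nat_lit 1775523748365528465633)) (.alt (nat_lit 6) (.cov (nat_lit 404283476588961621606494)) (.alt (nat_lit 6) (.cov (nat_lit 21845582842065607196708)) (.alt (nat_lit 6) (.cov (nat_lit 4284284469612113821712)) (.alt (nat_lit 6) (.cov (nat_lit 25387353435916319326226)) (.alt (nat_lit 6) (.cov (nat_lit 1775525806642697338891)) (.alt (nat_lit 6) (.cov (nat_lit 1406594846024253046790)) (.alt (nat_lit 6) (.cov (nat_lit 6645471000785484513283)) (.alt (nat_lit 6) (.exp (.alt (nat_lit 2) (.exp (.alt (nat_lit 3) (.exp (.alt (nat_lit 10) (.exp (.alt (nat_lit 4) (.exp (.alt (nat_lit 5) (.cov (nat_lit 6591787308907651343005781607841794))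 (.alt (nat_lit 5) (.cov (nat_lit 227264403806309232112479904147177473)) (.alt (nat_lit 5) (.cov (nat_lit 756189081440664315983845805809205248)) (.alt (nat_lit 5) (.cov (nat_lit 343874981554411036213342)) .e))))) (.alt (nat_lit 4) (.cov (nat_lit 1798563293246582161446)) (.alt (nat_lit 4) (.cov (nat_lit 343874983091528290795617)) (.alt (nat_lit 4) (.cov (nat_lit 26738566701482107732002)) (.alt (nat_lit 4) (.cov (nat_lit 26738566701482141286435)) (.alt (nat_lit 4) (.cov (nat_lit 46128800880832544783)) (.alt (nat_lit 4) (.cov (nat_lit 46132301725855383559)) (.alt (nat_lit 4) (.cov (nat_lit 46132301725754720262)) (.alt (nat_lit 4) (.cov (nat_lit 784008391263908790275)) (.alt (nat_lit 4) (.cov (nat_lit 22000069925636143054850)) (.alt (nat_lit 4) (.cov (nat_lit 21721067299776614105089)) (.alt (nat_lit 4) (.cov (nat_lit 6520948333661352099840)) (.alt (nat_lit 4) (.cov (nat_lit 9970922758)) .e)))))))))))))) .e)) .e)) .e)) (.alt (nat_lit 6) (.cov (nat_lit 3029909868224877428737)) (.alt (nat_lit 6) (.cov (nat_lit 1780143489394644353024))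 (.alt (nat_lit 6) (.exp (.alt (nat_lit 2) (.cov (nat_lit 1793957595156632830456)) (.alt (nat_lit 2) (.cov (nat_lit 42007856709361083614150)) (.alt (nat_lit 2) (.exp (.alt (nat_lit 3) (.cov (nat_lit 5729813247645041392010782953177090)) (.alt (nat_lit 3) (.cov (nat_lit 138782420257276008392679170457468929)) (.alt (nat_lit 3) (.cov (nat_lit 5729813329856599588478345626517504)) (.alt (nat_lit 3) (.cov (nat_lit 6590111265427349831774)) .e))))) (.alt (nat_lit 2) (.cov (nat_lit 1777817156071737786406)) (.alt (nat_lit 2) (.cov (nat_lit 1777825131744100089953)) (.alt (nat_lit 2) (.cov (nat_lit 1777820628144741154850)) (.alt (nat_lit 2) (.cov (nat_lit 1777828687565509623843)) (.alt (nat_lit 2) (.cov (nat_lit 6943708400322609167)) (.alt (nat_lit 2) (.cov (nat_lit 1777834712889229836295)) (.alt (nat_lit 2) (.cov (nat_lit 597242098212669489158)) (.alt (nat_lit 2) (.cov (nat_lit 6947420350806228995)) (.alt (nat_lit 2) (.cov (nat_lit 25463454734651154759682)) (.alt (nat_lit 2) (.cov (nat_lit 7770722384883716456449)) (.alt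 (nat_lit 2) (.exp (.alt (nat_lit 3) (.exp (.alt (nat_lit 10) (.cov (nat_lit 102301036576274944885195)) (.alt (nat_lit 10) (.cov (nat_lit 344241614373006490992865)) (.alt (nat_lit 10) (.cov (nat_lit 696373325501957144670)) (.alt (nat_lit 10) (.cov (nat_lit 696376531678669045795)) (.alt (nat_lit 10) (.cov (nat_lit 59967359781139644432)) (.alt (nat_lit 10) (.cov (nat_lit 696376531678132174867)) (.alt (nat_lit 10) (.cov (nat_lit 59967359783756890123)) (.alt (nat_lit 10) (.cov (nat_lit 797843466911513313286)) (.alt (nat_lit 10) (.cov (nat_lit 1427343006473228648451)) (.alt (nat_lit 10) (.cov (nat_lit 59973831506312298498)) (.alt (nat_lit 10) (.cov (nat_lit 1574917462639230582785)) (.alt (nat_lit 10) (.cov (nat_lit 6592435527455072059392)) (.alt (nat_lit 10) (.exp (.alt (nat_lit 8) (.exp (.alt (nat_lit 12) (.cov (nat_lit 47339148202643838777971735747624962)) (.alt (nat_lit 12) (.cov (nat_lit 1257515831753877438160259087597569)) (.alt (nat_lit 12) (.cov (nat_lit 1257515831757714360947381840642048)) (.alt (nat_lit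 12) (.cov (nat_lit 22781731853717161902174)) .e))))) (.alt (nat_lit 8) (.cov (nat_lit 7775306068724981694502)) (.alt (nat_lit 8) (.cov (nat_lit 691756344235528290401)) (.alt (nat_lit 8) (.cov (nat_lit 6447145786083129688098)) (.alt (nat_lit 8) (.cov (nat_lit 6447145786083666559011)) (.alt (nat_lit 8) (.cov (nat_lit 1577208567795367804943)) (.alt (nat_lit 8) (.cov (nat_lit 6373365543198036852743)) (.alt (nat_lit 8) (.cov (nat_lit 55355673762609496070)) (.alt (nat_lit 8) (.cov (nat_lit 6696189869086843338755)) (.alt (nat_lit 8) (.cov (nat_lit 6696189869086809784322)) (.alt (nat_lit 8) (.cov (nat_lit 10237969122688518586369)) (.alt (nat_lit 8) (.cov (nat_lit 129156959101603807232)) (.alt (nat_lit 8) (.cov (nat_lit 21789422854)) .e)))))))))))))) .e)))))))))))))) .e)) (.alt (nat_lit 2) (.cov (nat_lit 3160614)) .e)))))))))))))))) .e))))))))))))))))) .e)) .e), .exp (.alt (nat_lit 0) (.exp (.alt (nat_lit 9) (.exp (.alt (nat_lit 6) (.cov (nat_lit 7756867825894195986664)) (.alt (nat_lit 6) (.cov (nat_lit 45383617564289886322913))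 (.alt (nat_lit 6) (.exp (.alt (nat_lit 2) (.exp (.alt (nat_lit 3) (.exp (.alt (nat_lit 10) (.exp (.alt (nat_lit 8) (.exp (.alt (nat_lit 12) (.exp (.alt (nat_lit 24) (.exp (.alt (nat_lit 7) (.cov (nat_lit 6380268969888733724706)) (.alt (nat_lit 14) (.cov (nat_lit 1471131281361860558855)) (.alt (nat_lit 14) (.cov (nat_lit 61828883190357290909699)) (.alt (nat_lit 14) (.exp (.alt (nat_lit 15) (.exp (.alt (nat_lit 30) (.cov (nat_lit 404497898348230402375691)) (.alt (nat_lit 30) (.exp (.alt (nat_lit 31) (.exp (.alt (nat_lit 27) (.exp (.alt (nat_lit 29) (.exp (.alt (nat_lit 22) (.cov (nat_lit 102093505093537751891971)) (.alt (nat_lit 22) (.exp (.alt (nat_lit 18) (.exp (.alt (nat_lit 23) (.cov (nat_lit 417357593463812521985)) (.alt (nat_lit 23) (.exp (.alt (nat_lit 21) (.cov (nat_lit 408134223625945350144)) (.alt (nat_lit 7) (.cov (nat_lit 10340007944)) .e))) .e))) .e)) (.alt (nat_lit 28) (.cov (nat_lit 356516035)) .e)))) .e)) .e)) .e)) (.alt (nat_lit 30) (.cov (nat_lit 344119404649527974559745)) (.alt (nat_lit 30)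 (.exp (.alt (nat_lit 31) (.exp (.alt (nat_lit 27) (.exp (.alt (nat_lit 19) (.exp (.alt (nat_lit 18) (.exp (.alt (nat_lit 23) (.exp (.alt (nat_lit 29) (.cov (nat_lit 417357593473549598721)) (.alt (nat_lit 29) (.exp (.alt (nat_lit 21) (.cov (nat_lit 1374282444486483116032)) (.alt (nat_lit 13) (.cov (nat_lit 10340007944)) .e))) .e))) .e)) .e)) .e)) .e)) (.alt (nat_lit 28) (.cov (nat_lit 783987051942925828099)) (.alt (nat_lit 28) (.exp (.alt (nat_lit 29) (.exp (.alt (nat_lit 20) (.cov (nat_lit 627189331675340341250)) (.alt (nat_lit 20) (.cov (nat_lit 406909810135867919958017)) (.alt (nat_lit 20) (.exp (.alt (nat_lit 16) (.cov (nat_lit 6534759105724448505859)) (.alt (nat_lit 21) (.exp (.alt (nat_lit 5) (.exp (.alt (nat_lit 17) (.cov (nat_lit 412745907445404008449)) (.alt (nat_lit 17) (.exp (.alt (nat_lit 19) (.cov (nat_lit 1369670758468078796800)) (.alt (nat_lit 25) (.cov (nat_lit 665845768)) .e))) .e))) .e)) (.alt (nat_lit 16) (.cov (nat_lit 10956571241)) .e)))) .e)))) .e)) (.alt (nat_lit 26) (.cov (nat_lit 9826209674))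 .e))))) .e))))) .e)) (.alt (nat_lit 14) (.cov (nat_lit 47595923117)) .e)))))) .e)) .e)) .e)) .e)) .e)) .e)) (.alt (nat_lit 6) (.cov (nat_lit 42035546207665235427339)) (.alt (nat_lit 6) (.exp (.alt (nat_lit 2) (.exp (.alt (nat_lit 3) (.exp (.alt (nat_lit 10) (.exp (.alt (nat_lit 14) (.cov (nat_lit 5347253379849491841062)) (.alt (nat_lit 14) (.cov (nat_lit 23203709368358263586850)) (.alt (nat_lit 14) (.cov (nat_lit 69190731818532339719)) (.alt (nat_lit 14) (.cov (nat_lit 807066823555072131075)) (.alt (nat_lit 14) (.exp (.alt (nat_lit 12) (.exp (.alt (nat_lit 15) (.cov (nat_lit 41631997435707416117267)) (.alt (nat_lit 15) (.cov (nat_lit 347847952799824698408971)) (.alt (nat_lit 15) (.cov (nat_lit 71493076364777488386)) (.alt (nat_lit 15) (.cov (nat_lit 71496574826965893121)) (.alt (nat_lit 15) (.exp (.alt (nat_lit 31) (.cov (nat_lit 344356901624033867464738)) (.alt (nat_lit 13) (.cov (nat_lit 1395038462202048675847)) (.alt (nat_lit 13) (.cov (nat_lit 435813061246585929731)) (.alt (nat_lit 13) (.cov (nat_lit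 66884888808502853632)) (.alt (nat_lit 11) (.cov (nat_lit 11638154924)) .e)))))) .e)))))) .e)) (.alt (nat_lit 14) (.cov (nat_lit 21789422854)) .e))))))) .e)) .e)) .e)) (.alt (nat_lit 6) (.cov (nat_lit 3029909868224877428737)) (.alt (nat_lit 6) (.exp (.alt (nat_lit 2) (.cov (nat_lit 1851600703904368558584)) (.alt (nat_lit 2) (.exp (.alt (nat_lit 3) (.exp (.alt (nat_lit 1) (.exp (.alt (nat_lit 5) (.exp (.alt (nat_lit 17) (.exp (.alt (nat_lit 7) (.exp (.alt (nat_lit 15) (.exp (.alt (nat_lit 23) (.exp (.alt (nat_lit 10) (.cov (nat_lit 81935825636734154047499)) (.alt (nat_lit 10) (.exp (.alt (nat_lit 8) (.exp (.alt (nat_lit 12) (.exp (.alt (nat_lit 24) (.exp (.alt (nat_lit 26) (.cov (nat_lit 209831731431355711491)) (.alt (nat_lit 26) (.exp (.alt (nat_lit 18) (.exp (.alt (nat_lit 30) (.cov (nat_lit 1621007644273376493569)) (.alt (nat_lit 27) (.cov (nat_lit 300941327)) .e))) .e)) (.alt (nat_lit 26) (.exp (.alt (nat_lit 30) (.cov (nat_lit 1621007644274047582210)) (.alt (nat_lit 18) (.cov (nat_lit 9787408451)) .e)))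 .e)))) .e)) .e)) .e)) (.alt (nat_lit 10) (.cov (nat_lit 1609484047731717570561)) (.alt (nat_lit 10) (.exp (.alt (nat_lit 8) (.exp (.alt (nat_lit 12) (.exp (.alt (nat_lit 28) (.exp (.alt (nat_lit 20) (.exp (.alt (nat_lit 29) (.exp (.alt (nat_lit 24) (.cov (nat_lit 428886808509890428929)) (.alt (nat_lit 24) (.exp (.alt (nat_lit 26) (.cov (nat_lit 2845410284364842926080)) (.alt (nat_lit 16) (.cov (nat_lit 656408584)) .e))) .e))) .e)) .e)) .e)) .e)) (.alt (nat_lit 8) (.cov (nat_lit 25438060506501424873475)) (.alt (nat_lit 8) (.exp (.alt (nat_lit 12) (.exp (.alt (nat_lit 24) (.cov (nat_lit 1607172610408014938114)) (.alt (nat_lit 24) (.cov (nat_lit 1385811795872038518785)) (.alt (nat_lit 24) (.exp (.alt (nat_lit 16) (.cov (nat_lit 21518126979577282560003)) (.alt (nat_lit 26) (.exp (.alt (nat_lit 18) (.exp (.alt (nat_lit 30) (.cov (nat_lit 1621007644273376493569)) (.alt (nat_lit 27) (.cov (nat_lit 300941327)) .e))) .e)) (.alt (nat_lit 26) (.exp (.alt (nat_lit 30) (.cov (nat_lit 1621007644274047582210)) (.alt (nat_lit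 18) (.cov (nat_lit 9787408451)) .e))) .e)))) .e)))) .e)) (.alt (nat_lit 11) (.cov (nat_lit 156995948426)) .e))))) .e))))) .e)) .e)) .e)) .e)) .e)) .e)) (.alt (nat_lit 3) (.cov (nat_lit 41520615718768345109)) .e))) (.alt (nat_lit 2) (.cov (nat_lit 760943856683187175458)) (.alt (nat_lit 2) (.exp (.alt (nat_lit 3) (.exp (.alt (nat_lit 1) (.exp (.alt (nat_lit 5) (.exp (.alt (nat_lit 17) (.exp (.alt (nat_lit 10) (.cov (nat_lit 347635811502596483448853)) (.alt (nat_lit 10) (.cov (nat_lit 344315401300924595961867)) (.alt (nat_lit 10) (.cov (nat_lit 1388129432242936086530)) (.alt (nat_lit 10) (.cov (nat_lit 343907279792039597703169)) (.alt (nat_lit 10) (.exp (.alt (nat_lit 14) (.cov (nat_lit 1362754581851285749794)) (.alt (nat_lit 11) (.cov (nat_lit 6555515116679129464839)) (.alt (nat_lit 11) (.cov (nat_lit 81965810189820480192515)) (.alt (nat_lit 11) (.exp (.alt (nat_lit 15) (.exp (.alt (nat_lit 27) (.cov (nat_lit 735564062887249969163)) (.alt (nat_lit 27) (.exp (.alt (nat_lit 31) (.exp (.alt (nat_lit 23) (.exp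 (.alt (nat_lit 29) (.exp (.alt (nat_lit 26) (.cov (nat_lit 347665785574796828868611)) (.alt (nat_lit 26) (.exp (.alt (nat_lit 18) (.exp (.alt (nat_lit 30) (.cov (nat_lit 2868468712257976532993)) (.alt (nat_lit 30) (.exp (.alt (nat_lit 28) (.cov (nat_lit 2850021970383254585344)) (.alt (nat_lit 14) (.cov (nat_lit 174764064776)) .e))) .e))) .e)) (.alt (nat_lit 25) (.cov (nat_lit 21835546819)) .e)))) .e)) .e)) .e)) (.alt (nat_lit 27) (.cov (nat_lit 6479424496385196556289)) (.alt (nat_lit 27) (.exp (.alt (nat_lit 31) (.exp (.alt (nat_lit 23) (.exp (.alt (nat_lit 22) (.exp (.alt (nat_lit 18) (.exp (.alt (nat_lit 30) (.exp (.alt (nat_lit 29) (.cov (nat_lit 2868468712257941929985)) (.alt (nat_lit 29) (.exp (.alt (nat_lit 28) (.cov (nat_lit 22855515918321263312896)) (.alt (nat_lit 13) (.cov (nat_lit 174764064776)) .e))) .e))) .e)) .e)) .e)) .e)) (.alt (nat_lit 25) (.cov (nat_lit 48016875252687003713539)) (.alt (nat_lit 25) (.exp (.alt (nat_lit 29) (.exp (.alt (nat_lit 24) (.cov (nat_lit 1586420023508244365314)) (.alt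 (nat_lit 24) (.cov (nat_lit 404564767795497593208833)) (.alt (nat_lit 24) (.exp (.alt (nat_lit 16) (.cov (nat_lit 21882450175196290613251)) (.alt (nat_lit 28) (.exp (.alt (nat_lit 12) (.exp (.alt (nat_lit 20) (.cov (nat_lit 2854633654202701709313)) (.alt (nat_lit 20) (.exp (.alt (nat_lit 22) (.cov (nat_lit 22841680860265992683520)) (.alt (nat_lit 21) (.cov (nat_lit 2976907272)) .e))) .e))) .e)) (.alt (nat_lit 16) (.cov (nat_lit 11026825833)) .e)))) .e)))) .e)) (.alt (nat_lit 19) (.cov (nat_lit 28109180810)) .e))))) .e))))) .e)) (.alt (nat_lit 11) (.cov (nat_lit 20752377517)) .e)))))) .e)))))) .e)) .e)) .e)) .e)) (.alt (nat_lit 2) (.cov (nat_lit 41527181993484222467)) (.alt (nat_lit 2) (.exp (.alt (nat_lit 3) (.exp (.alt (nat_lit 10) (.cov (nat_lit 548791742302389272801)) (.alt (nat_lit 10) (.cov (nat_lit 696376531678132174867)) (.alt (nat_lit 10) (.cov (nat_lit 59967359783756890123)) (.alt (nat_lit 18) (.exp (.alt (nat_lit 16) (.exp (.alt (nat_lit 17) (.exp (.alt (nat_lit 24) (.exp (.alt (nat_lit 22) (.cov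 (nat_lit 6636216609330090213410)) (.alt (nat_lit 19) (.cov (nat_lit 350181463721740665356295)) (.alt (nat_lit 19) (.cov (nat_lit 25297412397399958093827)) (.alt (nat_lit 19) (.exp (.alt (nat_lit 27) (.exp (.alt (nat_lit 23) (.cov (nat_lit 21488151150199890247691)) (.alt (nat_lit 23) (.exp (.alt (nat_lit 21) (.exp (.alt (nat_lit 20) (.exp (.alt (nat_lit 5) (.exp (.alt (nat_lit 31) (.cov (nat_lit 34587662730456465411)) (.alt (nat_lit 31) (.exp (.alt (nat_lit 29) (.exp (.alt (nat_lit 15) (.cov (nat_lit 45411272232250595344385)) (.alt (nat_lit 15) (.exp (.alt (nat_lit 14) (.cov (nat_lit 364014212503524138287104)) (.alt (nat_lit 13) (.cov (nat_lit 184998166536)) .e))) .e))) .e)) (.alt (nat_lit 7) (.cov (nat_lit 4612686019)) .e)))) .e)) .e)) .e)) (.alt (nat_lit 23) (.cov (nat_lit 5142035555439275409409)) (.alt (nat_lit 23) (.exp (.alt (nat_lit 7) (.cov (nat_lit 7759161866789130862599)) (.alt (nat_lit 7) (.cov (nat_lit 10143403826386985549827)) (.alt (nat_lit 7) (.exp (.alt (nat_lit 5) (.exp (.alt (nat_lit 15) (.cov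 (nat_lit 661776976630398320642)) (.alt (nat_lit 15) (.cov (nat_lit 27776185031924735016961)) (.alt (nat_lit 15) (.exp (.alt (nat_lit 13) (.cov (nat_lit 406815270447148698697731)) (.alt (nat_lit 14) (.exp (.alt (nat_lit 10) (.exp (.alt (nat_lit 30) (.cov (nat_lit 365383883248798102716417)) (.alt (nat_lit 30) (.exp (.alt (nat_lit 28) (.cov (nat_lit 42990137074775256727552)) (.alt (nat_lit 31) (.cov (nat_lit 3553624072)) .e))) .e))) .e)) (.alt (nat_lit 13) (.cov (nat_lit 9877586537)) .e)))) .e)))) .e)) (.alt (nat_lit 7) (.cov (nat_lit 158080176007)) .e))))) .e))))) .e)) (.alt (nat_lit 19) (.cov (nat_lit 11503937198)) .e)))))) .e)) .e)) .e)) (.alt (nat_lit 18) (.cov (nat_lit 2928448769199115862017)) (.alt (nat_lit 10) (.exp (.alt (nat_lit 8) (.cov (nat_lit 7775306068551572389926)) (.alt (nat_lit 8) (.cov (nat_lit 6447145786094336868386)) (.alt (nat_lit 8) (.cov (nat_lit 55355673762710159367)) (.alt (nat_lit 8) (.cov (nat_lit 6696189869086843338755)) (.alt (nat_lit 8) (.exp (.alt (nat_lit 12) (.exp (.alt (nat_lit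 24) (.cov (nat_lit 10247168237302697689106)) (.alt (nat_lit 24) (.cov (nat_lit 802434473315247587339)) (.alt (nat_lit 24) (.exp (.alt (nat_lit 26) (.exp (.alt (nat_lit 18) (.exp (.alt (nat_lit 27) (.exp (.alt (nat_lit 25) (.exp (.alt (nat_lit 17) (.exp (.alt (nat_lit 21) (.exp (.alt (nat_lit 20) (.exp (.alt (nat_lit 5) (.exp (.alt (nat_lit 29) (.cov (nat_lit 365390800777825740652545)) (.alt (nat_lit 29) (.exp (.alt (nat_lit 31) (.cov (nat_lit 21541185403069460905984)) (.alt (nat_lit 28) (.cov (nat_lit 3554672648)) .e))) .e))) .e)) .e)) .e)) .e)) (.alt (nat_lit 25) (.cov (nat_lit 29138938536408527142915)) (.alt (nat_lit 25) (.exp (.alt (nat_lit 17) (.exp (.alt (nat_lit 29) (.cov (nat_lit 26667074434553224364034)) (.alt (nat_lit 29) (.cov (nat_lit 63117840838541065584641)) (.alt (nat_lit 29) (.exp (.alt (nat_lit 28) (.cov (nat_lit 10154932630325689319427)) (.alt (nat_lit 31) (.exp (.alt (nat_lit 30) (.exp (.alt (nat_lit 23) (.cov (nat_lit 25251286802695312113665)) (.alt (nat_lit 15) (.cov (nat_lit 183852072975))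 .e))) .e)) (.alt (nat_lit 31) (.exp (.alt (nat_lit 23) (.cov (nat_lit 25251286802706754174978)) (.alt (nat_lit 30) (.cov (nat_lit 2942304323)) .e))) .e)))) .e)))) .e)) (.alt (nat_lit 25) (.exp (.alt (nat_lit 29) (.cov (nat_lit 405563197924040378417154)) (.alt (nat_lit 29) (.exp (.alt (nat_lit 13) (.cov (nat_lit 22737917931605472575495)) (.alt (nat_lit 31) (.cov (nat_lit 365593716310637754187776)) .e))) .e))) .e))))) .e)) .e)) .e)) (.alt (nat_lit 24) (.cov (nat_lit 22053102663381640282113)) (.alt (nat_lit 24) (.exp (.alt (nat_lit 25) (.cov (nat_lit 344283115219485501423650)) (.alt (nat_lit 26) (.cov (nat_lit 10251781460435765559303)) (.alt (nat_lit 26) (.cov (nat_lit 2718597675368730066947)) (.alt (nat_lit 26) (.exp (.alt (nat_lit 18) (.exp (.alt (nat_lit 27) (.cov (nat_lit 1371976737828851679243)) (.alt (nat_lit 27) (.exp (.alt (nat_lit 25) (.exp (.alt (nat_lit 17) (.exp (.alt (nat_lit 29) (.exp (.alt (nat_lit 31) (.cov (nat_lit 4240445311547676295171)) (.alt (nat_lit 31) (.exp (.alt (nat_lit 30) (.exp (.alt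 (nat_lit 23) (.cov (nat_lit 25251286802695312113665)) (.alt (nat_lit 15) (.cov (nat_lit 183852072975)) .e))) .e)) (.alt (nat_lit 31) (.exp (.alt (nat_lit 23) (.cov (nat_lit 25251286802706754174978)) (.alt (nat_lit 30) (.cov (nat_lit 2942304323)) .e))) .e)))) .e)) .e)) .e)) (.alt (nat_lit 27) (.cov (nat_lit 404571690808889236783105)) (.alt (nat_lit 27) (.exp (.alt (nat_lit 25) (.exp (.alt (nat_lit 17) (.exp (.alt (nat_lit 21) (.exp (.alt (nat_lit 20) (.exp (.alt (nat_lit 5) (.exp (.alt (nat_lit 29) (.cov (nat_lit 365390800777825740652545)) (.alt (nat_lit 29) (.exp (.alt (nat_lit 31) (.cov (nat_lit 21541185403069460905984)) (.alt (nat_lit 28) (.cov (nat_lit 3554672648)) .e))) .e))) .e)) .e)) .e)) .e)) (.alt (nat_lit 25) (.cov (nat_lit 29138938536408527142915)) (.alt (nat_lit 25) (.exp (.alt (nat_lit 17) (.exp (.alt (nat_lit 29) (.cov (nat_lit 26667074434553224364034)) (.alt (nat_lit 29) (.cov (nat_lit 63117840838541065584641)) (.alt (nat_lit 29) (.exp (.alt (nat_lit 28) (.cov (nat_lit 10154932630325689319427))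 (.alt (nat_lit 31) (.exp (.alt (nat_lit 30) (.exp (.alt (nat_lit 23) (.cov (nat_lit 25251286802695312113665)) (.alt (nat_lit 15) (.cov (nat_lit 183852072975)) .e))) .e)) (.alt (nat_lit 31) (.exp (.alt (nat_lit 23) (.cov (nat_lit 25251286802706754174978)) (.alt (nat_lit 30) (.cov (nat_lit 2942304323)) .e))) .e)))) .e)))) .e)) (.alt (nat_lit 11) (.cov (nat_lit 10014953354)) .e))))) .e))))) .e)) (.alt (nat_lit 26) (.cov (nat_lit 61876953)) .e)))))) .e)))))) .e)) (.alt (nat_lit 8) (.cov (nat_lit 21789422854)) .e))))))) .e))))))) .e)) (.alt (nat_lit 2) (.cov (nat_lit 9951001102)) .e)))))))) .e)))))))) .e)) .e)]),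
   ([4, 18, 1], [.cov (nat_lit 30423614408302195487320978751494), .cov (nat_lit 30423614408302195487320978751494), .cov (nat_lit 30423614408302195487320978751494), .cov (nat_lit 30423614408302195487320978751494), .cov (nat_lit 30423614408302195487320978751494), .cov (nat_lit 30423614408302195487320978751494), .cov (nat_lit 30423614408302195487320978751494), .cov (nat_lit 30423614406088583970865106911239), .cov (nat_lit 30423614405498290427699377733639), .cov (nat_lit 30423614405498290429898400989191), .cov (nat_lit 30423614405498290990649331154951), .cov (nat_lit 30423614405498290992848354410503), .rot (.rot (.exp (.alt (nat_lit 6) (.exp (.alt (nat_lit 0) (.exp (.alt (nat_lit 2) (.exp (.alt (nat_lit 3) (.exp (.alt (nat_lit 10) (.exp (.alt (nat_lit 9) (.cov (nat_lit 63117846318507719918027)) (.alt (nat_lit 9) (.cov (nat_lit 344218555903322337837281)) (.alt (nat_lit 9) (.cov (nat_lit 21575781769533908320350)) (.alt (nat_lit 9) (.cov (nat_lit 21575784977909106606115)) (.alt (nat_lit 9) (.cov (nat_lit 7749958464034911027216))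 (.alt (nat_lit 9) (.cov (nat_lit 2324009143239704594)) (.alt (nat_lit 9) (.cov (nat_lit 2327492393358589963)) (.alt (nat_lit 9) (.cov (nat_lit 7823747109388567969798)) (.alt (nat_lit 9) (.cov (nat_lit 76119003073969389571)) (.alt (nat_lit 9) (.cov (nat_lit 6348007708835961634818)) (.alt (nat_lit 9) (.cov (nat_lit 1551859032547059040257)) (.alt (nat_lit 9) (.cov (nat_lit 365485370696520459878400)) (.alt (nat_lit 9) (.exp (.alt (nat_lit 1) (.exp (.alt (nat_lit 5) (.cov (nat_lit 3980427072436078376628900263362562)) (.alt (nat_lit 5) (.cov (nat_lit 50548841771022577960906004615921665)) (.alt (nat_lit 5) (.cov (nat_lit 50548841771124256414260082867437568)) (.alt (nat_lit 5) (.cov (nat_lit 384321774797176267866206)) .e))))) (.alt (nat_lit 1) (.cov (nat_lit 4217390305326245347366)) (.alt (nat_lit 1) (.cov (nat_lit 23106856236801839857761)) (.alt (nat_lit 1) (.cov (nat_lit 365330857583114279976994)) (.alt (nat_lit 1) (.cov (nat_lit 365330857583111662731299)) (.alt (nat_lit 1) (.cov (nat_lit 6504795078487104815119))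 (.alt (nat_lit 1) (.cov (nat_lit 2594088851096248254471)) (.alt (nat_lit 1) (.cov (nat_lit 39214772698206961670)) (.alt (nat_lit 1) (.cov (nat_lit 25569514899503773122563)) (.alt (nat_lit 1) (.cov (nat_lit 6680048968025192267778)) (.alt (nat_lit 1) (.cov (nat_lit 3138278497319514013697)) (.alt (nat_lit 1) (.cov (nat_lit 6532482995688024571904)) (.alt (nat_lit 1) (.cov (nat_lit 9970922758)) .e)))))))))))))) .e)))))))))))))) .e)) .e)) .e)) .e)) .e))), .rot (.rot (.exp (.alt (nat_lit 6) (.exp (.alt (nat_lit 0) (.exp (.alt (nat_lit 2) (.exp (.alt (nat_lit 3) (.exp (.alt (nat_lit 10) (.exp (.alt (nat_lit 9) (.cov (nat_lit 344218555903325055746273)) (.alt (nat_lit 9) (.cov (nat_lit 21575784977909106606099)) (.alt (nat_lit 9) (.cov (nat_lit 45630345649186652815371)) (.alt (nat_lit 9) (.exp (.alt (nat_lit 1) (.exp (.alt (nat_lit 5) (.exp (.alt (nat_lit 17) (.exp (.alt (nat_lit 25) (.cov (nat_lit 404493287876075736530978)) (.alt (nat_lit 8) (.cov (nat_lit 25438063519121476157447)) (.alt (nat_lit 8) (.cov (nat_lit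 384190347564312690688003)) (.alt (nat_lit 8) (.exp (.alt (nat_lit 12) (.exp (.alt (nat_lit 24) (.cov (nat_lit 728646533851018952715)) (.alt (nat_lit 24) (.exp (.alt (nat_lit 28) (.exp (.alt (nat_lit 20) (.exp (.alt (nat_lit 29) (.exp (.alt (nat_lit 26) (.cov (nat_lit 45441248200166639403011)) (.alt (nat_lit 26) (.exp (.alt (nat_lit 18) (.exp (.alt (nat_lit 30) (.cov (nat_lit 2875386241285584060417)) (.alt (nat_lit 30) (.exp (.alt (nat_lit 31) (.cov (nat_lit 2856939499410898812928)) (.alt (nat_lit 14) (.cov (nat_lit 174767210504)) .e))) .e))) .e)) (.alt (nat_lit 25) (.cov (nat_lit 159277646019)) .e)))) .e)) .e)) .e)) (.alt (nat_lit 24) (.cov (nat_lit 25368890427863740710913)) (.alt (nat_lit 24) (.exp (.alt (nat_lit 28) (.exp (.alt (nat_lit 20) (.exp (.alt (nat_lit 22) (.exp (.alt (nat_lit 18) (.exp (.alt (nat_lit 30) (.exp (.alt (nat_lit 29) (.cov (nat_lit 2875386241285616566273)) (.alt (nat_lit 29) (.exp (.alt (nat_lit 31) (.cov (nat_lit 22862433447348907540480)) (.alt (nat_lit 13) (.cov (nat_lit 174767210504))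 .e))) .e))) .e)) .e)) .e)) .e)) (.alt (nat_lit 25) (.cov (nat_lit 350255247685363348537347)) (.alt (nat_lit 25) (.exp (.alt (nat_lit 29) (.exp (.alt (nat_lit 27) (.cov (nat_lit 412745931681038336002)) (.alt (nat_lit 27) (.cov (nat_lit 102340230420867910205441)) (.alt (nat_lit 27) (.exp (.alt (nat_lit 19) (.cov (nat_lit 2992984243717712904195)) (.alt (nat_lit 31) (.exp (.alt (nat_lit 15) (.exp (.alt (nat_lit 23) (.cov (nat_lit 2854633654202668154881)) (.alt (nat_lit 23) (.exp (.alt (nat_lit 22) (.cov (nat_lit 22841680860265989537792)) (.alt (nat_lit 21) (.cov (nat_lit 11563696136)) .e))) .e))) .e)) (.alt (nat_lit 19) (.cov (nat_lit 2440036969)) .e)))) .e)))) .e)) (.alt (nat_lit 16) (.cov (nat_lit 165544988554)) .e))))) .e))))) .e)) (.alt (nat_lit 8) (.cov (nat_lit 158188185261)) .e)))))) .e)) .e)) .e)) (.alt (nat_lit 9) (.cov (nat_lit 647963853831384596481)) (.alt (nat_lit 9) (.exp (.alt (nat_lit 1) (.cov (nat_lit 4217390305370805633062)) (.alt (nat_lit 1) (.cov (nat_lit 365330857583111662731298)) (.alt (nat_lit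 1) (.cov (nat_lit 39214772707702865927)) (.alt (nat_lit 1) (.cov (nat_lit 25569514899503773122563)) (.alt (nat_lit 1) (.exp (.alt (nat_lit 5) (.exp (.alt (nat_lit 17) (.cov (nat_lit 344338455999262986600466)) (.alt (nat_lit 17) (.cov (nat_lit 23217534365884354658315)) (.alt (nat_lit 17) (.exp (.alt (nat_lit 16) (.exp (.alt (nat_lit 18) (.exp (.alt (nat_lit 24) (.exp (.alt (nat_lit 25) (.exp (.alt (nat_lit 27) (.exp (.alt (nat_lit 31) (.exp (.alt (nat_lit 23) (.exp (.alt (nat_lit 15) (.exp (.alt (nat_lit 29) (.cov (nat_lit 404343406732472631689217)) (.alt (nat_lit 29) (.exp (.alt (nat_lit 28) (.cov (nat_lit 25281262764014069350400)) (.alt (nat_lit 21) (.cov (nat_lit 1933574152)) .e))) .e))) .e)) .e)) .e)) .e)) (.alt (nat_lit 25) (.cov (nat_lit 10249472604929956773891)) (.alt (nat_lit 25) (.exp (.alt (nat_lit 27) (.exp (.alt (nat_lit 29) (.cov (nat_lit 10138791744497983160322)) (.alt (nat_lit 29) (.cov (nat_lit 25338908975583862980609)) (.alt (nat_lit 29) (.exp (.alt (nat_lit 21) (.cov (nat_lit 23148357987108009279491))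 (.alt (nat_lit 28) (.exp (.alt (nat_lit 20) (.exp (.alt (nat_lit 30) (.cov (nat_lit 32281810925107806209)) (.alt (nat_lit 12) (.cov (nat_lit 46990884879)) .e))) .e)) (.alt (nat_lit 28) (.exp (.alt (nat_lit 30) (.cov (nat_lit 32281810925107806210)) (.alt (nat_lit 20) (.cov (nat_lit 166151061571)) .e))) .e)))) .e)))) .e)) (.alt (nat_lit 25) (.exp (.alt (nat_lit 29) (.cov (nat_lit 6449443145261637435394)) (.alt (nat_lit 29) (.exp (.alt (nat_lit 13) (.cov (nat_lit 384317160206267379089415)) (.alt (nat_lit 28) (.cov (nat_lit 406930563936811642519552)) .e))) .e))) .e))))) .e)) .e)) .e)) (.alt (nat_lit 17) (.cov (nat_lit 45648794176665336938497)) (.alt (nat_lit 17) (.exp (.alt (nat_lit 25) (.cov (nat_lit 404493287876075736530978)) (.alt (nat_lit 16) (.cov (nat_lit 344336151693380523393031)) (.alt (nat_lit 16) (.cov (nat_lit 345378398059572561444867)) (.alt (nat_lit 16) (.exp (.alt (nat_lit 18) (.exp (.alt (nat_lit 24) (.cov (nat_lit 2863857164782592327691)) (.alt (nat_lit 24) (.exp (.alt (nat_lit 25) (.exp (.alt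 (nat_lit 27) (.exp (.alt (nat_lit 29) (.exp (.alt (nat_lit 28) (.cov (nat_lit 29025951817574186483715)) (.alt (nat_lit 28) (.exp (.alt (nat_lit 20) (.exp (.alt (nat_lit 30) (.cov (nat_lit 32281810925107806209)) (.alt (nat_lit 12) (.cov (nat_lit 46990884879)) .e))) .e)) (.alt (nat_lit 28) (.exp (.alt (nat_lit 30) (.cov (nat_lit 32281810925107806210)) (.alt (nat_lit 20) (.cov (nat_lit 166151061571)) .e))) .e)))) .e)) .e)) .e)) (.alt (nat_lit 24) (.cov (nat_lit 10247171960246194143233)) (.alt (nat_lit 24) (.exp (.alt (nat_lit 25) (.exp (.alt (nat_lit 27) (.exp (.alt (nat_lit 31) (.exp (.alt (nat_lit 23) (.exp (.alt (nat_lit 15) (.exp (.alt (nat_lit 29) (.cov (nat_lit 404343406732472631689217)) (.alt (nat_lit 29) (.exp (.alt (nat_lit 28) (.cov (nat_lit 25281262764014069350400)) (.alt (nat_lit 21) (.cov (nat_lit 1933574152)) .e))) .e))) .e)) .e)) .e)) .e)) (.alt (nat_lit 25) (.cov (nat_lit 10249472604929956773891)) (.alt (nat_lit 25) (.exp (.alt (nat_lit 27) (.exp (.alt (nat_lit 29) (.cov (nat_lit 10138791744497983160322))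 (.alt (nat_lit 29) (.cov (nat_lit 25338908975583862980609)) (.alt (nat_lit 29) (.exp (.alt (nat_lit 21) (.cov (nat_lit 23148357987108009279491)) (.alt (nat_lit 28) (.exp (.alt (nat_lit 20) (.exp (.alt (nat_lit 30) (.cov (nat_lit 32281810925107806209)) (.alt (nat_lit 12) (.cov (nat_lit 46990884879)) .e))) .e)) (.alt (nat_lit 28) (.exp (.alt (nat_lit 30) (.cov (nat_lit 32281810925107806210)) (.alt (nat_lit 20) (.cov (nat_lit 166151061571)) .e))) .e)))) .e)))) .e)) (.alt (nat_lit 8) (.cov (nat_lit 20749225866)) .e))))) .e))))) .e)) (.alt (nat_lit 16) (.cov (nat_lit 226503385)) .e)))))) .e)))))) .e)) (.alt (nat_lit 1) (.cov (nat_lit 9970922758)) .e))))))) .e))))))) .e)) .e)) .e)) .e)) .e)))]),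
   ([4, 15, 4], [.cov (nat_lit 841720027566522644433977521209350), .cov (nat_lit 1328497862910600152818938577682438), .cov (nat_lit 841720027566522644433977521209350), .cov (nat_lit 1328497862910600152818938577682438), .cov (nat_lit 841720027566522644433977521209350), .cov (nat_lit 1328497862910600152818938577682438), .cov (nat_lit 841720027566522644433977521209350), .cov (nat_lit 1328497862910600152818938577682438), .cov (nat_lit 841720027566522644433977521209350), .cov (nat_lit 1328497862910600152818938577682438), .cov (nat_lit 841720027566522644433977521209350), .cov (nat_lit 1328497862910600152818938577682438), .cov (nat_lit 1328497858460286251554958733213703), .cov (nat_lit 47247873205563003230266208794181639), .cov (nat_lit 1328497858460286251554958733213703), .cov (nat_lit 47247873205556509981069167915171847), .cov (nat_lit 1328497858460286251554958733213703), .cov (nat_lit 47247873205563003232594974421811207), .cov (nat_lit 1328497858460286251554958733213703), .cov (nat_lit 47247873205563003232597173445066759),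 .cov (nat_lit 1328497858460286251554958733213703), .cov (nat_lit 47247873205563003232599372468322311), .cov (nat_lit 1328497858460286251554958733213703), .exp (.alt (nat_lit 0) (.exp (.alt (nat_lit 1) (.exp (.alt (nat_lit 3) (.exp (.alt (nat_lit 5) (.rot (.exp (.alt (nat_lit 6) (.exp (.alt (nat_lit 2) (.exp (.alt (nat_lit 10) (.exp (.alt (nat_lit 18) (.exp (.alt (nat_lit 9) (.cov (nat_lit 45404356598801749770261)) (.alt (nat_lit 9) (.cov (nat_lit 42083946397258711302155)) (.alt (nat_lit 9) (.cov (nat_lit 1385823589233721344002)) (.alt (nat_lit 9) (.cov (nat_lit 41673519045373055729665)) (.alt (nat_lit 9) (.exp (.alt (nat_lit 13) (.cov (nat_lit 182162961125283463202)) (.alt (nat_lit 11) (.cov (nat_lit 25444981048149120385031)) (.alt (nat_lit 11) (.cov (nat_lit 384197265093340334915587)) (.alt (nat_lit 11) (.exp (.alt (nat_lit 15) (.exp (.alt (nat_lit 27) (.cov (nat_lit 735564062878658985995)) (.alt (nat_lit 27) (.exp (.alt (nat_lit 31) (.exp (.alt (nat_lit 23) (.exp (.alt (nat_lit 30) (.exp (.alt (nat_lit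 25) (.cov (nat_lit 45434330671138997272579)) (.alt (nat_lit 25) (.exp (.alt (nat_lit 17) (.exp (.alt (nat_lit 29) (.cov (nat_lit 2868468712257941929985)) (.alt (nat_lit 29) (.exp (.alt (nat_lit 28) (.cov (nat_lit 2850021970383254585344)) (.alt (nat_lit 13) (.cov (nat_lit 174764064776)) .e))) .e))) .e)) (.alt (nat_lit 26) (.cov (nat_lit 159274500291)) .e)))) .e)) .e)) .e)) (.alt (nat_lit 27) (.cov (nat_lit 25366584584854530162689)) (.alt (nat_lit 27) (.exp (.alt (nat_lit 31) (.exp (.alt (nat_lit 23) (.exp (.alt (nat_lit 21) (.exp (.alt (nat_lit 17) (.exp (.alt (nat_lit 29) (.exp (.alt (nat_lit 30) (.cov (nat_lit 2868468712257976532993)) (.alt (nat_lit 30) (.exp (.alt (nat_lit 28) (.cov (nat_lit 22855515918321263312896)) (.alt (nat_lit 14) (.cov (nat_lit 174764064776)) .e))) .e))) .e)) .e)) .e)) .e)) (.alt (nat_lit 26) (.cov (nat_lit 350248330156335708504067)) (.alt (nat_lit 26) (.exp (.alt (nat_lit 30) (.exp (.alt (nat_lit 24) (.cov (nat_lit 405828402653394108418)) (.alt (nat_lit 24) (.cov (nat_lit 102333312891840265977857))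 (.alt (nat_lit 24) (.exp (.alt (nat_lit 16) (.cov (nat_lit 2990678400708496064515)) (.alt (nat_lit 28) (.exp (.alt (nat_lit 12) (.exp (.alt (nat_lit 20) (.cov (nat_lit 2852327811193455509505)) (.alt (nat_lit 20) (.exp (.alt (nat_lit 21) (.cov (nat_lit 22839375017256778989568)) (.alt (nat_lit 22) (.cov (nat_lit 11566841864)) .e))) .e))) .e)) (.alt (nat_lit 16) (.cov (nat_lit 2436891241)) .e)))) .e)))) .e)) (.alt (nat_lit 19) (.cov (nat_lit 165548134282)) .e))))) .e))))) .e)) (.alt (nat_lit 11) (.cov (nat_lit 158191330989)) .e)))))) .e)))))) .e)) .e)) .e)) .e))) .e)) .e)) .e)) .e)]),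
   ([4, 11, 8], [.cov (nat_lit 58606023623299491220235236277223430), .cov (nat_lit 30425834095350465215723781226502), .cov (nat_lit 230114079236592616525433491054133254), .cov (nat_lit 58606023623299491220235236277223430), .cov (nat_lit 58281506196685919235480100465016838), .cov (nat_lit 230114079236592616525433491054133254), .cov (nat_lit 58606023623299491220235236277223430), .cov (nat_lit 58281506196685919235480100465016838), .cov (nat_lit 230114079236592616525433491054133254), .cov (nat_lit 58606023623299491220235236277223430), .cov (nat_lit 58281506196685919235480100465016838), .cov (nat_lit 230114079236592616525433491054133254), .cov (nat_lit 30424687931699877787233264074759), .cov (nat_lit 1653018578107658194009009829183495), .cov (nat_lit 30424692771609005362345509126151), .cov (nat_lit 30424687931699877787233264074759), .cov (nat_lit 1653018578107658194009009829183495), .cov (nat_lit 30424693111619394987690196729863), .cov (nat_lit 30424687931699877787233264074759), .cov (nat_lit 1653018578107658194009009829183495),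 .cov (nat_lit 30424692792712083434802398625799), .cov (nat_lit 30424687931699877787233264074759), .cov (nat_lit 1653018578107658194009009829183495), .exp (.alt (nat_lit 0) (.exp (.alt (nat_lit 1) (.exp (.alt (nat_lit 3) (.exp (.alt (nat_lit 5) (.rot (.exp (.alt (nat_lit 6) (.cov (nat_lit 856968769870563275754288229384194)) (.alt (nat_lit 6) (.cov (nat_lit 6536032786495895436524159399624705)) (.alt (nat_lit 6) (.cov (nat_lit 1668254447769202650703320181637120)) (.alt (nat_lit 6) (.cov (nat_lit 758634290727874461790)) .e)))))) .e)) .e)) .e)) .e)]),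
   ([4, 8, 11], [.cov (nat_lit 48059202274325592018352048162471942), .cov (nat_lit 48059202274325592018352048162471942), .cov (nat_lit 48059202274325592018352048162471942), .cov (nat_lit 48059202274325592018352048162471942), .cov (nat_lit 889049015254642806180437825851228166), .cov (nat_lit 100306689244081425906307443185418246), .cov (nat_lit 100306689244081425906307443185418246), .cov (nat_lit 100306689244081425906307443185418246), .cov (nat_lit 22422230074732455321915557622579206), .cov (nat_lit 22422230074732455321915557622579206), .cov (nat_lit 22422230074732455321915557622579206), .cov (nat_lit 22422230074732455321915557622579206), .cov (nat_lit 30456153854629893501130276601863), .cov (nat_lit 30456153854629893501130276601863), .cov (nat_lit 30456153854629893501130276601863), .cov (nat_lit 30456153854629893501130276601863), .cov (nat_lit 22422230074734816505664967454752775), .cov (nat_lit 22422230074734816505664967454752775), .cov (nat_lit 22422230074734816505664967454752775), .cov (nat_lit 22422230074734816505664967454752775),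 .cov (nat_lit 770112965222772532130887774687461383), .cov (nat_lit 6845333304567132732976522764222471), .cov (nat_lit 1003999324208341815504164297375751), .exp (.alt (nat_lit 0) (.exp (.alt (nat_lit 2) (.exp (.alt (nat_lit 3) (.exp (.alt (nat_lit 10) (.exp (.alt (nat_lit 9) (.cov (nat_lit 13984758385834113875183174264291330)) (.alt (nat_lit 9) (.cov (nat_lit 3113376165885659715091970313420801)) (.alt (nat_lit 9) (.cov (nat_lit 22422230074706371625346731405737984)) (.alt (nat_lit 9) (.cov (nat_lit 10196449727439258517598)) .e))))) .e)) .e)) .e)) .e)]),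
   ([4, 4, 15], [.cov (nat_lit 22422267014643457515510174658330630), .cov (nat_lit 22422267014643457515510174658330630), .cov (nat_lit 22422267014643457515510174658330630), .cov (nat_lit 22422267014643457515510174658330630), .cov (nat_lit 22422267014643457515510174658330630), .cov (nat_lit 22422267014643457515510174658330630), .cov (nat_lit 355004074737369597928626343378950), .cov (nat_lit 355004074737369597928626343378950), .cov (nat_lit 355004074737369597928626343378950), .cov (nat_lit 355004074737369597928626343378950), .cov (nat_lit 355004074737369597928626343378950), .cov (nat_lit 355004074737369597928626343378950), .cov (nat_lit 17229968879482669226026091124097031), .cov (nat_lit 17229968879482669226026091124097031), .cov (nat_lit 17229968879482669226026091124097031), .cov (nat_lit 17229968879482669226026091124097031), .cov (nat_lit 17229968879482669226026091124097031), .cov (nat_lit 17229968879482669226026091124097031), .cov (nat_lit 1004027588893561683201510875332615), .cov (nat_lit 1328556515135520703502985874898951),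 .cov (nat_lit 14309293409898829368880091774320647), .cov (nat_lit 14309293414734532647338608473145351), .cov (nat_lit 1004032719574740127687728328343559), .exp (.alt (nat_lit 0) (.exp (.alt (nat_lit 2) (.exp (.alt (nat_lit 3) (.exp (.alt (nat_lit 10) (.exp (.alt (nat_lit 9) (.exp (.alt (nat_lit 1) (.exp (.alt (nat_lit 5) (.exp (.alt (nat_lit 17) (.exp (.alt (nat_lit 6) (.cov (nat_lit 63104007537534114463765)) (.alt (nat_lit 6) (.cov (nat_lit 22004665473023646629899)) (.alt (nat_lit 6) (.cov (nat_lit 21522750588696911675394)) (.alt (nat_lit 6) (.cov (nat_lit 21596543964149457092609)) (.alt (nat_lit 6) (.exp (.alt (nat_lit 14) (.cov (nat_lit 1362754581840481222690)) (.alt (nat_lit 7) (.cov (nat_lit 6546291744642274689031)) (.alt (nat_lit 7) (.cov (nat_lit 5144344494857052487683)) (.alt (nat_lit 7) (.exp (.alt (nat_lit 15) (.exp (.alt (nat_lit 23) (.cov (nat_lit 10180297028615731675147)) (.alt (nat_lit 23) (.exp (.alt (nat_lit 31) (.exp (.alt (nat_lit 27) (.exp (.alt (nat_lit 29) (.exp (.alt (nat_lit 22) (.cov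 (nat_lit 63133981609874620940291)) (.alt (nat_lit 22) (.exp (.alt (nat_lit 18) (.exp (.alt (nat_lit 30) (.cov (nat_lit 2868468712257976532993)) (.alt (nat_lit 30) (.exp (.alt (nat_lit 28) (.cov (nat_lit 22855515918321263312896)) (.alt (nat_lit 14) (.cov (nat_lit 174764064776)) .e))) .e))) .e)) (.alt (nat_lit 21) (.cov (nat_lit 1967128771)) .e)))) .e)) .e)) .e)) (.alt (nat_lit 23) (.cov (nat_lit 102098122402458657357825)) (.alt (nat_lit 23) (.exp (.alt (nat_lit 31) (.exp (.alt (nat_lit 27) (.exp (.alt (nat_lit 26) (.exp (.alt (nat_lit 18) (.exp (.alt (nat_lit 30) (.exp (.alt (nat_lit 29) (.cov (nat_lit 2868468712257941929985)) (.alt (nat_lit 29) (.exp (.alt (nat_lit 28) (.cov (nat_lit 2850021970383254585344)) (.alt (nat_lit 13) (.cov (nat_lit 174764064776)) .e))) .e))) .e)) .e)) .e)) .e)) (.alt (nat_lit 21) (.cov (nat_lit 4325761914095159738371)) (.alt (nat_lit 21) (.exp (.alt (nat_lit 29) (.exp (.alt (nat_lit 20) (.cov (nat_lit 25272039414151308640258)) (.alt (nat_lit 20) (.cov (nat_lit 25594857545208564809729))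 (.alt (nat_lit 20) (.exp (.alt (nat_lit 16) (.cov (nat_lit 1443457741380619599875)) (.alt (nat_lit 28) (.exp (.alt (nat_lit 12) (.exp (.alt (nat_lit 24) (.cov (nat_lit 2863857026239560679425)) (.alt (nat_lit 24) (.exp (.alt (nat_lit 26) (.cov (nat_lit 2845410284364842926080)) (.alt (nat_lit 25) (.cov (nat_lit 2981101576)) .e))) .e))) .e)) (.alt (nat_lit 16) (.cov (nat_lit 696255081)) .e)))) .e)))) .e)) (.alt (nat_lit 19) (.cov (nat_lit 156995948426)) .e))))) .e))))) .e)) (.alt (nat_lit 7) (.cov (nat_lit 20752377517)) .e)))))) .e)))))) .e)) .e)) .e)) .e)) .e)) .e)) .e)) .e)]),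
   ([4, 1, 18], [.cov (nat_lit 50168610886464281558944362855923718), .cov (nat_lit 50168610886464281558944362855923718), .cov (nat_lit 50168610886464281558944362855923718), .cov (nat_lit 50168610886464281558944362855923718), .cov (nat_lit 50168610886464281558944362855923718), .cov (nat_lit 50168610886464281558944362855923718), .cov (nat_lit 50168610886464281558944362855923718), .cov (nat_lit 30489447669931192469342405001223), .cov (nat_lit 1328568647913718190332682975576071), .cov (nat_lit 1328568652749421468791199674400775), .cov (nat_lit 1328569885853757475712957874700295), .cov (nat_lit 1328569890689460754171474573524999), .rot (.exp (.alt (nat_lit 9) (.rot (.exp (.alt (nat_lit 0) (.exp (.alt (nat_lit 1) (.exp (.alt (nat_lit 3) (.exp (.alt (nat_lit 5) (.exp (.alt (nat_lit 6) (.cov (nat_lit 45411277850757975507403)) (.alt (nat_lit 6) (.cov (nat_lit 3029883359010989539553)) (.alt (nat_lit 6) (.cov (nat_lit 343879600068396673138782)) (.alt (nat_lit 6) (.cov (nat_lit 343879603276771368108067)) (.alt (nat_lit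 6) (.cov (nat_lit 104560777205872121085968)) (.alt (nat_lit 6) (.cov (nat_lit 594925662508437995538)) (.alt (nat_lit 6) (.cov (nat_lit 594929145763992698891)) (.alt (nat_lit 6) (.cov (nat_lit 104634565851225509593094)) (.alt (nat_lit 6) (.cov (nat_lit 594933680147085131779)) (.alt (nat_lit 6) (.cov (nat_lit 373568471963281653762)) (.alt (nat_lit 6) (.cov (nat_lit 6350318334720790757377)) (.alt (nat_lit 6) (.cov (nat_lit 347767273013722436599808)) (.alt (nat_lit 6) (.exp (.alt (nat_lit 2) (.exp (.alt (nat_lit 10) (.cov (nat_lit 91275030935872878680021867167746)) (.alt (nat_lit 10) (.cov (nat_lit 102639140235600475547589514966859777)) (.alt (nat_lit 10) (.cov (nat_lit 102639140235625932054431025320689664)) (.alt (nat_lit 10) (.cov (nat_lit 384324080640185482608734)) .e))))) (.alt (nat_lit 2) (.cov (nat_lit 350142264390754752266278)) (.alt (nat_lit 2) (.cov (nat_lit 350142264390571108860001)) (.alt (nat_lit 2) (.cov (nat_lit 45402057583739705229346)) (.alt (nat_lit 2) (.cov (nat_lit 45402057583739034140707))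 (.alt (nat_lit 2) (.cov (nat_lit 1646383858071671668751)) (.alt (nat_lit 2) (.cov (nat_lit 1351239469129833381895)) (.alt (nat_lit 2) (.cov (nat_lit 41520615707191017478)) (.alt (nat_lit 2) (.cov (nat_lit 6682354811032230166531)) (.alt (nat_lit 2) (.cov (nat_lit 6682354811032230166530)) (.alt (nat_lit 2) (.cov (nat_lit 22030050271807347359745)) (.alt (nat_lit 2) (.cov (nat_lit 6534788838697243508736)) (.alt (nat_lit 2) (.cov (nat_lit 156541924614)) .e)))))))))))))) .e)))))))))))))) .e)) .e)) .e)) .e))) .e)), .rot (.exp (.alt (nat_lit 9) (.rot (.exp (.alt (nat_lit 0) (.exp (.alt (nat_lit 1) (.exp (.alt (nat_lit 3) (.exp (.alt (nat_lit 5) (.exp (.alt (nat_lit 6) (.cov (nat_lit 3029883359000218566881)) (.alt (nat_lit 6) (.cov (nat_lit 343879603276771334553619)) (.alt (nat_lit 6) (.cov (nat_lit 365572980706611608682507)) (.alt (nat_lit 6) (.exp (.alt (nat_lit 2) (.exp (.alt (nat_lit 10) (.exp (.alt (nat_lit 18) (.exp (.alt (nat_lit 22) (.cov (nat_lit 6636217537315122184226)) (.alt (nat_lit 4) (.cov (nat_lit 6539374215614630461447))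 (.alt (nat_lit 4) (.cov (nat_lit 5137426965829408260099)) (.alt (nat_lit 4) (.exp (.alt (nat_lit 12) (.exp (.alt (nat_lit 20) (.cov (nat_lit 10173379499588089544715)) (.alt (nat_lit 20) (.exp (.alt (nat_lit 28) (.exp (.alt (nat_lit 24) (.exp (.alt (nat_lit 30) (.exp (.alt (nat_lit 21) (.cov (nat_lit 63140899138902260973571)) (.alt (nat_lit 21) (.exp (.alt (nat_lit 17) (.exp (.alt (nat_lit 29) (.cov (nat_lit 2875386241285616566273)) (.alt (nat_lit 29) (.exp (.alt (nat_lit 31) (.cov (nat_lit 22862433447348907540480)) (.alt (nat_lit 13) (.cov (nat_lit 174767210504)) .e))) .e))) .e)) (.alt (nat_lit 22) (.cov (nat_lit 1970274499)) .e)))) .e)) .e)) .e)) (.alt (nat_lit 20) (.cov (nat_lit 102095816559449440518145)) (.alt (nat_lit 20) (.exp (.alt (nat_lit 28) (.exp (.alt (nat_lit 24) (.exp (.alt (nat_lit 25) (.exp (.alt (nat_lit 17) (.exp (.alt (nat_lit 29) (.exp (.alt (nat_lit 30) (.cov (nat_lit 2875386241285584060417)) (.alt (nat_lit 30) (.exp (.alt (nat_lit 31) (.cov (nat_lit 2856939499410898812928)) (.alt (nat_lit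 14) (.cov (nat_lit 174767210504)) .e))) .e))) .e)) .e)) .e)) .e)) (.alt (nat_lit 22) (.cov (nat_lit 4332679443122801868803)) (.alt (nat_lit 22) (.exp (.alt (nat_lit 30) (.exp (.alt (nat_lit 23) (.cov (nat_lit 25278956943178952867842)) (.alt (nat_lit 23) (.cov (nat_lit 25601775074236209037313)) (.alt (nat_lit 23) (.exp (.alt (nat_lit 19) (.cov (nat_lit 1441151898371409051651)) (.alt (nat_lit 31) (.exp (.alt (nat_lit 15) (.exp (.alt (nat_lit 27) (.cov (nat_lit 2861551183230348034049)) (.alt (nat_lit 27) (.exp (.alt (nat_lit 25) (.cov (nat_lit 2843104441355626086400)) (.alt (nat_lit 26) (.cov (nat_lit 2977955848)) .e))) .e))) .e)) (.alt (nat_lit 19) (.cov (nat_lit 699400809)) .e)))) .e)))) .e)) (.alt (nat_lit 16) (.cov (nat_lit 156992802698)) .e))))) .e))))) .e)) (.alt (nat_lit 4) (.cov (nat_lit 20749231789)) .e)))))) .e)) .e)) .e)) (.alt (nat_lit 6) (.cov (nat_lit 124537490739910672385)) (.alt (nat_lit 6) (.exp (.alt (nat_lit 2) (.cov (nat_lit 350142264390582953574438)) (.alt (nat_lit 2) (.cov (nat_lit 45402057583739000586274))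 (.alt (nat_lit 2) (.cov (nat_lit 41520615707761442823)) (.alt (nat_lit 2) (.cov (nat_lit 6682354811032230166531)) (.alt (nat_lit 2) (.exp (.alt (nat_lit 10) (.exp (.alt (nat_lit 18) (.cov (nat_lit 3159006826976953499666)) (.alt (nat_lit 18) (.cov (nat_lit 48021487615993845907467)) (.alt (nat_lit 18) (.exp (.alt (nat_lit 16) (.exp (.alt (nat_lit 17) (.exp (.alt (nat_lit 20) (.exp (.alt (nat_lit 22) (.exp (.alt (nat_lit 23) (.exp (.alt (nat_lit 31) (.exp (.alt (nat_lit 27) (.exp (.alt (nat_lit 15) (.exp (.alt (nat_lit 30) (.cov (nat_lit 102111951828815376809985)) (.alt (nat_lit 30) (.exp (.alt (nat_lit 28) (.cov (nat_lit 424275124690448547840)) (.alt (nat_lit 26) (.cov (nat_lit 159240945672)) .e))) .e))) .e)) .e)) .e)) .e)) (.alt (nat_lit 22) (.cov (nat_lit 1987637102771291815939)) (.alt (nat_lit 22) (.exp (.alt (nat_lit 23) (.exp (.alt (nat_lit 30) (.cov (nat_lit 10141097587507202097154)) (.alt (nat_lit 30) (.cov (nat_lit 102079670165224850194433)) (.alt (nat_lit 30) (.exp (.alt (nat_lit 26) (.cov (nat_lit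 47950005394356500955139)) (.alt (nat_lit 28) (.exp (.alt (nat_lit 24) (.exp (.alt (nat_lit 29) (.cov (nat_lit 29975967915930812417)) (.alt (nat_lit 12) (.cov (nat_lit 12059672591)) .e))) .e)) (.alt (nat_lit 28) (.exp (.alt (nat_lit 29) (.cov (nat_lit 29975967915897257986)) (.alt (nat_lit 24) (.cov (nat_lit 158101143619)) .e))) .e)))) .e)))) .e)) (.alt (nat_lit 22) (.exp (.alt (nat_lit 30) (.cov (nat_lit 404311125170038460383234)) (.alt (nat_lit 30) (.exp (.alt (nat_lit 14) (.cov (nat_lit 384317160206258118066183)) (.alt (nat_lit 28) (.cov (nat_lit 7888290291317408268288)) .e))) .e))) .e))))) .e)) .e)) .e)) (.alt (nat_lit 18) (.cov (nat_lit 63369197702472605368321)) (.alt (nat_lit 18) (.exp (.alt (nat_lit 22) (.cov (nat_lit 6636217537315122184226)) (.alt (nat_lit 16) (.cov (nat_lit 22043862609554930925575)) (.alt (nat_lit 16) (.cov (nat_lit 3883048395022310309891)) (.alt (nat_lit 16) (.exp (.alt (nat_lit 17) (.exp (.alt (nat_lit 20) (.cov (nat_lit 3959132594167686889483)) (.alt (nat_lit 20) (.exp (.alt (nat_lit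 22) (.exp (.alt (nat_lit 23) (.exp (.alt (nat_lit 30) (.exp (.alt (nat_lit 28) (.cov (nat_lit 10136485886095643377667)) (.alt (nat_lit 28) (.exp (.alt (nat_lit 24) (.exp (.alt (nat_lit 29) (.cov (nat_lit 29975967915930812417)) (.alt (nat_lit 12) (.cov (nat_lit 12059672591)) .e))) .e)) (.alt (nat_lit 28) (.exp (.alt (nat_lit 29) (.cov (nat_lit 29975967915897257986)) (.alt (nat_lit 24) (.cov (nat_lit 158101143619)) .e))) .e)))) .e)) .e)) .e)) (.alt (nat_lit 20) (.cov (nat_lit 802438994506932027393)) (.alt (nat_lit 20) (.exp (.alt (nat_lit 22) (.exp (.alt (nat_lit 23) (.exp (.alt (nat_lit 31) (.exp (.alt (nat_lit 27) (.exp (.alt (nat_lit 15) (.exp (.alt (nat_lit 30) (.cov (nat_lit 102111951828815376809985)) (.alt (nat_lit 30) (.exp (.alt (nat_lit 28) (.cov (nat_lit 424275124690448547840)) (.alt (nat_lit 26) (.cov (nat_lit 159240945672)) .e))) .e))) .e)) .e)) .e)) .e)) (.alt (nat_lit 22) (.cov (nat_lit 1987637102771291815939)) (.alt (nat_lit 22) (.exp (.alt (nat_lit 23) (.exp (.alt (nat_lit 30) (.cov (nat_lit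 10141097587507202097154)) (.alt (nat_lit 30) (.cov (nat_lit 102079670165224850194433)) (.alt (nat_lit 30) (.exp (.alt (nat_lit 26) (.cov (nat_lit 47950005394356500955139)) (.alt (nat_lit 28) (.exp (.alt (nat_lit 24) (.exp (.alt (nat_lit 29) (.cov (nat_lit 29975967915930812417)) (.alt (nat_lit 12) (.cov (nat_lit 12059672591)) .e))) .e)) (.alt (nat_lit 28) (.exp (.alt (nat_lit 29) (.cov (nat_lit 29975967915897257986)) (.alt (nat_lit 24) (.cov (nat_lit 158101143619)) .e))) .e)))) .e)))) .e)) (.alt (nat_lit 4) (.cov (nat_lit 166241243018)) .e))))) .e))))) .e)) (.alt (nat_lit 16) (.cov (nat_lit 11563707097)) .e)))))) .e)))))) .e)) (.alt (nat_lit 2) (.cov (nat_lit 156541924614)) .e))))))) .e))))))) .e)) .e)) .e)) .e))) .e))]),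
   ([7, 15, 1], [.cov (nat_lit 30423614447556862858559517360223), .cov (nat_lit 30423614447556862858559517360223), .cov (nat_lit 30423614447556862858559517360223), .cov (nat_lit 30423614447556862858559517360223), .cov (nat_lit 30423614447556862858559517360223), .cov (nat_lit 30423614447556862858559517360223), .cov (nat_lit 30423614415607095943641910214752), .cov (nat_lit 30423614405498284914751028854880), .cov (nat_lit 30423614405498286401290749608032), .cov (nat_lit 30423614405498287977990423838816), .cov (nat_lit 30423614510054433383378115887200), .cov (nat_lit 30423614426970296472299724865633), .cov (nat_lit 30423614406236149954197457993766), .cov (nat_lit 30423614405498284914751028854822), .cov (nat_lit 30423614405498286401290749607974), .cov (nat_lit 30423614405498287977990423838758), .cov (nat_lit 30423614510054433383378115887142), .rot (.rot (.exp (.alt (nat_lit 6) (.exp (.alt (nat_lit 0) (.exp (.alt (nat_lit 2) (.exp (.alt (nat_lit 3) (.exp (.alt (nat_lit 10) (.exp (.alt (nat_lit 8) (.exp (.alt (nat_lit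 12) (.exp (.alt (nat_lit 24) (.exp (.alt (nat_lit 9) (.cov (nat_lit 25292793872429664436242)) (.alt (nat_lit 9) (.cov (nat_lit 43121573556777517056011)) (.alt (nat_lit 9) (.cov (nat_lit 25440377863561475522562)) (.alt (nat_lit 9) (.cov (nat_lit 103359428331753933111297)) (.alt (nat_lit 9) (.exp (.alt (nat_lit 25) (.cov (nat_lit 29065152487937264320546)) (.alt (nat_lit 1) (.cov (nat_lit 112989748924783788039)) (.alt (nat_lit 1) (.cov (nat_lit 24241336297147138572291)) (.alt (nat_lit 1) (.exp (.alt (nat_lit 5) (.exp (.alt (nat_lit 17) (.cov (nat_lit 26685521288569564430347)) (.alt (nat_lit 17) (.exp (.alt (nat_lit 21) (.exp (.alt (nat_lit 20) (.exp (.alt (nat_lit 29) (.exp (.alt (nat_lit 19) (.cov (nat_lit 46695626797189089460227)) (.alt (nat_lit 19) (.exp (.alt (nat_lit 18) (.exp (.alt (nat_lit 23) (.cov (nat_lit 440416023565680246785)) (.alt (nat_lit 23) (.exp (.alt (nat_lit 31) (.cov (nat_lit 1397340874578630541312)) (.alt (nat_lit 7) (.cov (nat_lit 10350493704)) .e))) .e))) .e)) (.alt (nat_lit 25) (.cov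 (nat_lit 159277646019)) .e)))) .e)) .e)) .e)) (.alt (nat_lit 17) (.cov (nat_lit 405577038374110279761921)) (.alt (nat_lit 17) (.exp (.alt (nat_lit 21) (.exp (.alt (nat_lit 20) (.exp (.alt (nat_lit 22) (.exp (.alt (nat_lit 18) (.exp (.alt (nat_lit 23) (.exp (.alt (nat_lit 29) (.cov (nat_lit 440416023555955752961)) (.alt (nat_lit 29) (.exp (.alt (nat_lit 31) (.cov (nat_lit 431192653718092775424)) (.alt (nat_lit 13) (.cov (nat_lit 10350493704)) .e))) .e))) .e)) .e)) .e)) .e)) (.alt (nat_lit 25) (.cov (nat_lit 350255247685370227195907)) (.alt (nat_lit 25) (.exp (.alt (nat_lit 29) (.exp (.alt (nat_lit 27) (.cov (nat_lit 21753322982073498075138)) (.alt (nat_lit 27) (.cov (nat_lit 102340230420877681885185)) (.alt (nat_lit 27) (.exp (.alt (nat_lit 26) (.cov (nat_lit 1369670765111557488643)) (.alt (nat_lit 31) (.exp (.alt (nat_lit 15) (.exp (.alt (nat_lit 30) (.cov (nat_lit 419663436482779021313)) (.alt (nat_lit 30) (.exp (.alt (nat_lit 22) (.cov (nat_lit 410440066635174772736)) (.alt (nat_lit 28) (.cov (nat_lit 54525960))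 .e))) .e))) .e)) (.alt (nat_lit 26) (.cov (nat_lit 18956157545)) .e)))) .e)))) .e)) (.alt (nat_lit 16) (.cov (nat_lit 165544988554)) .e))))) .e))))) .e)) (.alt (nat_lit 1) (.cov (nat_lit 3025151661)) .e)))))) .e)))))) .e)) .e)) .e)) .e)) .e)) .e)) (.alt (nat_lit 0) (.exp (.alt (nat_lit 2) (.exp (.alt (nat_lit 3) (.exp (.alt (nat_lit 10) (.exp (.alt (nat_lit 8) (.exp (.alt (nat_lit 12) (.exp (.alt (nat_lit 24) (.exp (.alt (nat_lit 9) (.cov (nat_lit 2640192149904671375378)) (.alt (nat_lit 9) (.cov (nat_lit 43121573556777517056011)) (.alt (nat_lit 9) (.cov (nat_lit 25440377863561475522562)) (.alt (nat_lit 9) (.cov (nat_lit 102105049734731952816129)) (.alt (nat_lit 9) (.exp (.alt (nat_lit 25) (.cov (nat_lit 344283115219485501423650)) (.alt (nat_lit 11) (.cov (nat_lit 1464213752334219476999)) (.alt (nat_lit 11) (.cov (nat_lit 343909576036496113139715)) (.alt (nat_lit 11) (.exp (.alt (nat_lit 15) (.exp (.alt (nat_lit 27) (.cov (nat_lit 26708579718658916352011)) (.alt (nat_lit 27) (.exp (.alt (nat_lit 31) (.exp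 (.alt (nat_lit 30) (.exp (.alt (nat_lit 29) (.exp (.alt (nat_lit 19) (.cov (nat_lit 347649644673732333010947)) (.alt (nat_lit 19) (.exp (.alt (nat_lit 18) (.exp (.alt (nat_lit 23) (.cov (nat_lit 417357593463812521985)) (.alt (nat_lit 23) (.exp (.alt (nat_lit 21) (.cov (nat_lit 1374282444486483116032)) (.alt (nat_lit 7) (.cov (nat_lit 10340007944)) .e))) .e))) .e)) (.alt (nat_lit 25) (.cov (nat_lit 10017046723)) .e)))) .e)) .e)) .e)) (.alt (nat_lit 27) (.cov (nat_lit 63131681389756443262977)) (.alt (nat_lit 27) (.exp (.alt (nat_lit 31) (.exp (.alt (nat_lit 30) (.exp (.alt (nat_lit 22) (.exp (.alt (nat_lit 18) (.exp (.alt (nat_lit 23) (.exp (.alt (nat_lit 29) (.cov (nat_lit 417357593473549598721)) (.alt (nat_lit 29) (.exp (.alt (nat_lit 21) (.cov (nat_lit 408134223625945350144)) (.alt (nat_lit 13) (.cov (nat_lit 10340007944)) .e))) .e))) .e)) .e)) .e)) .e)) (.alt (nat_lit 25) (.cov (nat_lit 22027718695828017119235)) (.alt (nat_lit 25) (.exp (.alt (nat_lit 29) (.exp (.alt (nat_lit 17) (.cov (nat_lit 25419613366740977713154))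 (.alt (nat_lit 17) (.cov (nat_lit 10231025574817722007553)) (.alt (nat_lit 17) (.exp (.alt (nat_lit 16) (.cov (nat_lit 21882450175076568399875)) (.alt (nat_lit 21) (.exp (.alt (nat_lit 5) (.exp (.alt (nat_lit 20) (.cov (nat_lit 419663436473048236033)) (.alt (nat_lit 20) (.exp (.alt (nat_lit 22) (.cov (nat_lit 410440066635185258496)) (.alt (nat_lit 28) (.cov (nat_lit 668991496)) .e))) .e))) .e)) (.alt (nat_lit 16) (.cov (nat_lit 174705345129)) .e)))) .e)))) .e)) (.alt (nat_lit 26) (.cov (nat_lit 10936651658)) .e))))) .e))))) .e)) (.alt (nat_lit 11) (.cov (nat_lit 47595923117)) .e)))))) .e)))))) .e)) .e)) .e)) .e)) .e)) .e)) .e))) .e)))]),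
   ([7, 8, 8], [.cov (nat_lit 803376107383562555886642588595257439), .cov (nat_lit 30435602155541412010969435996255), .cov (nat_lit 30430544313619338834255546417247), .cov (nat_lit 47410133536569628322991777429586015), .exp (.alt (nat_lit 0) (.cov (nat_lit 207731450733260172190153485801481961499181187075)) (.alt (nat_lit 0) (.cov (nat_lit 207731450733260172190153485801481970295274209281)) (.alt (nat_lit 0) (.cov (nat_lit 66911508345953293848839173633302746813693952)) (.alt (nat_lit 0) (.exp (.alt (nat_lit 1) (.cov (nat_lit 207731450733260172190153485803787802309372674049)) (.alt (nat_lit 1) (.exp (.alt (nat_lit 3) (.exp (.alt (nat_lit 2) (.exp (.alt (nat_lit 7) (.cov (nat_lit 94465326916752097618042846899601409)) .e)) .e)) (.alt (nat_lit 3) (.exp (.alt (nat_lit 2) (.exp (.alt (nat_lit 10) (.cov (nat_lit 1662810473446931751812085594497675869880861065216)) .e)) .e)) .e))) .e))) .e)))), .exp (.alt (nat_lit 0) (.cov (nat_lit 207731450733260172190153485801481961499181187075)) (.alt (nat_lit 0) (.cov (nat_lit 207731450733260172190153485801481970295274209281))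 (.alt (nat_lit 0) (.cov (nat_lit 1137340376523669089359341534154167123551715328)) (.alt (nat_lit 0) (.exp (.alt (nat_lit 1) (.cov (nat_lit 207731450733260172190153485803787802309372674049)) (.alt (nat_lit 1) (.exp (.alt (nat_lit 3) (.exp (.alt (nat_lit 2) (.exp (.alt (nat_lit 7) (.cov (nat_lit 94465326916752097618042846899601409)) .e)) .e)) (.alt (nat_lit 3) (.exp (.alt (nat_lit 2) (.exp (.alt (nat_lit 10) (.cov (nat_lit 1662810473446931751812085594497675869880861065216)) .e)) .e)) .e))) .e))) .e)))), .cov (nat_lit 8467907102394124385171393333952607), .exp (.alt (nat_lit 0) (.cov (nat_lit 2207778613180293002421192411645894312307195907)) (.alt (nat_lit 0) (.cov (nat_lit 2207778613180293002421194108746357889678966785)) (.alt (nat_lit 0) (.cov (nat_lit 2207778613092510730547231308957831096243847168)) (.alt (nat_lit 0) (.exp (.alt (nat_lit 2) (.cov (nat_lit 2207778613180293002421192342470601836875218945)) (.alt (nat_lit 2) (.exp (.alt (nat_lit 3) (.exp (.alt (nat_lit 1) (.exp (.alt (nat_lit 11) (.cov (nat_lit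 1003981475687529838260703589302273)) .e)) .e)) (.alt (nat_lit 3) (.exp (.alt (nat_lit 1) (.exp (.alt (nat_lit 5) (.cov (nat_lit 423719050378531676623048506845071886283440128)) .e)) .e)) .e))) .e))) .e)))), .cov (nat_lit 224435014006309653522759741798875231), .exp (.alt (nat_lit 0) (.exp (.alt (nat_lit 1) (.cov (nat_lit 3672251655023701013882450830478490800866965648766098224447488)) .e)) (.alt (nat_lit 0) (.cov (nat_lit 104255993012028753992144953686646694187303436289)) (.alt (nat_lit 0) (.cov (nat_lit 7203155586480287776493253388073183963092353024)) (.alt (nat_lit 0) (.cov (nat_lit 58281510708050648169258472567734307)) .e)))), .exp (.alt (nat_lit 0) (.exp (.alt (nat_lit 1) (.cov (nat_lit 3672251655023701013882450830478490800866965648766098224447488)) .e)) (.alt (nat_lit 0) (.cov (nat_lit 104255993012028753992144953686646694187303436289)) (.alt (nat_lit 0) (.cov (nat_lit 7203155586480287776493253388073183963092353024)) (.alt (nat_lit 0) (.cov (nat_lit 58281510708050648169258472567734307)) .e)))), .exp (.alt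 (nat_lit 0) (.exp (.alt (nat_lit 1) (.cov (nat_lit 3672251655023701013882450830478490800866965648766098224447488)) .e)) (.alt (nat_lit 0) (.cov (nat_lit 104255993012028753992144953686646694187303436289)) (.alt (nat_lit 0) (.cov (nat_lit 7203155586480287776493253388073183963092353024)) (.alt (nat_lit 0) (.cov (nat_lit 58281510708050648169258472567734307)) .e)))), .exp (.alt (nat_lit 0) (.exp (.alt (nat_lit 2) (.cov (nat_lit 931762526886983202405396498958549985564120394181095981056)) .e)) (.alt (nat_lit 0) (.cov (nat_lit 6846331136749381690203059785049148196312317953)) (.alt (nat_lit 0) (.cov (nat_lit 423716540760378596381725441640615460164599808)) (.alt (nat_lit 0) (.cov (nat_lit 6520795761203462381541849940623395)) .e)))), .exp (.alt (nat_lit 0) (.exp (.alt (nat_lit 1) (.cov (nat_lit 108427135125652400766218338946670268742326622374250511597568)) .e)) (.alt (nat_lit 0) (.exp (.alt (nat_lit 1) (.exp (.alt (nat_lit 3) (.exp (.alt (nat_lit 2) (.exp (.alt (nat_lit 10) (.cov (nat_lit 14309246392355115047944442351714305))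 .e)) (.alt (nat_lit 2) (.exp (.alt (nat_lit 10) (.cov (nat_lit 1653018578115774750470097443225601)) .e)) .e))) .e)) .e)) (.alt (nat_lit 0) (.exp (.alt (nat_lit 1) (.exp (.alt (nat_lit 2) (.exp (.alt (nat_lit 3) (.exp (.alt (nat_lit 10) (.cov (nat_lit 1653018578115774750470097443225601)) .e)) .e)) (.alt (nat_lit 2) (.exp (.alt (nat_lit 3) (.exp (.alt (nat_lit 7) (.exp (.alt (nat_lit 5) (.exp (.alt (nat_lit 15) (.cov (nat_lit 1932297440089185714631)) .e)) .e)) .e)) .e)) .e))) .e)) (.alt (nat_lit 0) (.cov (nat_lit 30435606951252149827856970547235)) .e)))), .exp (.alt (nat_lit 0) (.exp (.alt (nat_lit 1) (.cov (nat_lit 3672251655023820902691094544444710221421525641804952451940352)) .e)) (.alt (nat_lit 0) (.exp (.alt (nat_lit 1) (.exp (.alt (nat_lit 3) (.exp (.alt (nat_lit 2) (.exp (.alt (nat_lit 10) (.cov (nat_lit 14309246392355115047944442351714305)) .e)) (.alt (nat_lit 2) (.exp (.alt (nat_lit 10) (.cov (nat_lit 756158657826268993411781236193492993)) .e)) .e))) .e)) .e)) (.alt (nat_lit 0) (.exp (.alt (nat_lit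 1) (.exp (.alt (nat_lit 2) (.exp (.alt (nat_lit 3) (.exp (.alt (nat_lit 10) (.cov (nat_lit 756158657826268993411781236193492993)) .e)) .e)) (.alt (nat_lit 2) (.exp (.alt (nat_lit 3) (.exp (.alt (nat_lit 7) (.exp (.alt (nat_lit 5) (.exp (.alt (nat_lit 15) (.cov (nat_lit 43105431118599540441545)) .e)) .e)) .e)) .e)) .e))) .e)) (.alt (nat_lit 0) (.cov (nat_lit 757132213487234533711259785614065699)) .e)))), .exp (.alt (nat_lit 0) (.exp (.alt (nat_lit 2) (.cov (nat_lit 931762526886983202405396498958549985564120394181095981056)) .e)) (.alt (nat_lit 0) (.cov (nat_lit 6846331136749381690203059785049148196312317953)) (.alt (nat_lit 0) (.cov (nat_lit 423716540760378596381725441640615460164599808)) (.alt (nat_lit 0) (.cov (nat_lit 6520795761203462381541849940623395)) .e)))), .exp (.alt (nat_lit 0) (.exp (.alt (nat_lit 2) (.cov (nat_lit 4854956513213710254819950569282483215010133195297796390912)) .e)) (.alt (nat_lit 0) (.exp (.alt (nat_lit 2) (.exp (.alt (nat_lit 3) (.exp (.alt (nat_lit 1) (.exp (.alt (nat_lit 5) (.cov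 (nat_lit 192685091481326636636270127742977)) .e)) (.alt (nat_lit 1) (.exp (.alt (nat_lit 5) (.cov (nat_lit 4249167012231583204011576975687681)) .e)) .e))) .e)) .e)) (.alt (nat_lit 0) (.exp (.alt (nat_lit 2) (.exp (.alt (nat_lit 1) (.exp (.alt (nat_lit 3) (.exp (.alt (nat_lit 5) (.cov (nat_lit 4249167012231583204011576975687681)) .e)) .e)) (.alt (nat_lit 1) (.exp (.alt (nat_lit 3) (.exp (.alt (nat_lit 11) (.exp (.alt (nat_lit 10) (.exp (.alt (nat_lit 15) (.cov (nat_lit 677918849672798012258)) .e)) .e)) .e)) .e)) .e))) .e)) (.alt (nat_lit 0) (.cov (nat_lit 55847617043921875484391154051448867)) .e)))), .exp (.alt (nat_lit 0) (.exp (.alt (nat_lit 1) (.cov (nat_lit 16624542844988236081877070642420816377330278229386151854080)) .e)) (.alt (nat_lit 0) (.cov (nat_lit 3278218753131419227432137913844411520050528257)) (.alt (nat_lit 0) (.cov (nat_lit 1767713178882100431743428542991215453862188023808)) (.alt (nat_lit 0) (.exp (.alt (nat_lit 1) (.cov (nat_lit 3278218753131419227432137547215366458004471809)) (.alt (nat_lit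 1) (.cov (nat_lit 3278218753131419227432137916150254529265270784)) (.alt (nat_lit 1) (.exp (.alt (nat_lit 3) (.exp (.alt (nat_lit 2) (.exp (.alt (nat_lit 10) (.cov (nat_lit 894728082467676417117054881747697665)) .e)) .e)) (.alt (nat_lit 3) (.cov (nat_lit 3278218753131419227432137551827050277407555584)) (.alt (nat_lit 3) (.cov (nat_lit 1490761293612840394158473791668230)) .e)))) .e)))) .e)))), .exp (.alt (nat_lit 0) (.exp (.alt (nat_lit 1) (.cov (nat_lit 3672251655023701013882450830478490796031262370307581525622784)) .e)) (.alt (nat_lit 0) (.cov (nat_lit 759079327009431045000763280180903955)) .e)), .exp (.alt (nat_lit 0) (.exp (.alt (nat_lit 1) (.cov (nat_lit 3672251655023701013882450830478490796031262370307581525622784)) .e)) (.alt (nat_lit 0) (.cov (nat_lit 30427835984569168757453980958739)) .e)), .exp (.alt (nat_lit 0) (.exp (.alt (nat_lit 1) (.cov (nat_lit 3672251655023701013882450830478490796031262370307581525622784)) .e)) (.alt (nat_lit 0) (.cov (nat_lit 759079327009431045000763280180903955)) .e)), .exp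 (.alt (nat_lit 0) (.exp (.alt (nat_lit 2) (.cov (nat_lit 931762526886983202405396336699268320647478544086386868224)) .e)) (.alt (nat_lit 0) (.cov (nat_lit 4086906628006544163988051696025619)) .e)), .exp (.alt (nat_lit 0) (.exp (.alt (nat_lit 1) (.cov (nat_lit 108427135125652400766218338946670263906623343915733812772864)) .e)) (.alt (nat_lit 0) (.cov (nat_lit 30435606951252149827856970547219)) .e)), .exp (.alt (nat_lit 0) (.exp (.alt (nat_lit 1) (.cov (nat_lit 3672251655023820902691094544444710216585822363346435753115648)) .e)) (.alt (nat_lit 0) (.cov (nat_lit 30430548814108384493296393650195)) .e)), .exp (.alt (nat_lit 0) (.exp (.alt (nat_lit 2) (.cov (nat_lit 931762526886983202405396336699268320647478544086386868224)) .e)) (.alt (nat_lit 0) (.cov (nat_lit 6520795761464151768644178229067795)) .e)), .exp (.alt (nat_lit 0) (.exp (.alt (nat_lit 2) (.cov (nat_lit 4854956513213710254819950407023201550093491345203087278080)) .e)) (.alt (nat_lit 0) (.cov (nat_lit 1490759315786587674873813006286867)) .e)), .exp (.alt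 (nat_lit 0) (.exp (.alt (nat_lit 1) (.exp (.alt (nat_lit 3) (.exp (.alt (nat_lit 5) (.exp (.alt (nat_lit 2) (.exp (.alt (nat_lit 10) (.exp (.alt (nat_lit 18) (.exp (.alt (nat_lit 9) (.cov (nat_lit 139248889604051668664829903509651458)) (.alt (nat_lit 9) (.cov (nat_lit 803862887496906283901305478964051969)) (.alt (nat_lit 9) (.cov (nat_lit 224921787668316843477225822448779264)) (.alt (nat_lit 9) (.cov (nat_lit 6654665842694774849630)) .e))))) .e)) .e)) .e)) .e)) .e)) .e)) (.alt (nat_lit 0) (.exp (.alt (nat_lit 1) (.exp (.alt (nat_lit 3) (.exp (.alt (nat_lit 5) (.exp (.alt (nat_lit 4) (.exp (.alt (nat_lit 12) (.exp (.alt (nat_lit 20) (.exp (.alt (nat_lit 9) (.cov (nat_lit 92518217877578225783136032742440962)) (.alt (nat_lit 9) (.cov (nat_lit 9441468140680973339892472572018689)) (.alt (nat_lit 9) (.cov (nat_lit 17229913326923369401124495094185984)) (.alt (nat_lit 9) (.cov (nat_lit 3112890980543077810270)) .e))))) .e)) .e)) .e)) .e)) .e)) .e)) .e))]),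
   ([7, 1, 15], [.cov (nat_lit 48383750006513044817926995855802463), .cov (nat_lit 48383750006513044817926995855802463), .cov (nat_lit 48383750006513044817926995855802463), .cov (nat_lit 48383750006513044817926995855802463), .cov (nat_lit 48383750006513044817926995855802463), .cov (nat_lit 48383750006513044817926995855802463), .cov (nat_lit 22422252125512694206842591216926816), .cov (nat_lit 1328556524805599094831318954934368), .cov (nat_lit 1328559793741015332788607360434272), .cov (nat_lit 22260009971908789865058643744915552), .cov (nat_lit 227193476597533861271704637341171808), .cov (nat_lit 2951152494333303068285153277116513), .cov (nat_lit 22422252125512694206842591216926758), .cov (nat_lit 1328556524805599094831318954934310), .cov (nat_lit 1328559793741015332788607360434214), .cov (nat_lit 1328563260940265987545080417746982), .cov (nat_lit 17067713103702555679611114018045990), .rot (.exp (.alt (nat_lit 9) (.rot (.exp (.alt (nat_lit 0) (.exp (.alt (nat_lit 1) (.exp (.alt (nat_lit 3) (.exp (.alt (nat_lit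 5) (.exp (.alt (nat_lit 4) (.exp (.alt (nat_lit 12) (.exp (.alt (nat_lit 20) (.exp (.alt (nat_lit 6) (.cov (nat_lit 419665332052823113746)) (.alt (nat_lit 6) (.cov (nat_lit 22758673942410577313803)) (.alt (nat_lit 6) (.cov (nat_lit 6543994403043946790914)) (.alt (nat_lit 6) (.cov (nat_lit 26540268479790559789057)) (.alt (nat_lit 6) (.exp (.alt (nat_lit 22) (.cov (nat_lit 733259433737192472610)) (.alt (nat_lit 2) (.cov (nat_lit 631804426155173347335)) (.alt (nat_lit 2) (.cov (nat_lit 336661820483286597635)) (.alt (nat_lit 2) (.exp (.alt (nat_lit 10) (.exp (.alt (nat_lit 18) (.cov (nat_lit 104616097470962564333579)) (.alt (nat_lit 18) (.exp (.alt (nat_lit 26) (.exp (.alt (nat_lit 24) (.exp (.alt (nat_lit 30) (.exp (.alt (nat_lit 19) (.cov (nat_lit 4111318103021495255043)) (.alt (nat_lit 19) (.exp (.alt (nat_lit 17) (.exp (.alt (nat_lit 27) (.cov (nat_lit 25306627034916999659521)) (.alt (nat_lit 27) (.exp (.alt (nat_lit 31) (.cov (nat_lit 2649413628581666357248)) (.alt (nat_lit 11) (.cov (nat_lit 19611516936))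 .e))) .e))) .e)) (.alt (nat_lit 22) (.cov (nat_lit 1970274499)) .e)))) .e)) .e)) .e)) (.alt (nat_lit 18) (.cov (nat_lit 7643875216038677184513)) (.alt (nat_lit 18) (.exp (.alt (nat_lit 26) (.exp (.alt (nat_lit 24) (.exp (.alt (nat_lit 25) (.exp (.alt (nat_lit 17) (.exp (.alt (nat_lit 27) (.exp (.alt (nat_lit 30) (.cov (nat_lit 25306627034916398825473)) (.alt (nat_lit 30) (.exp (.alt (nat_lit 31) (.cov (nat_lit 25288180293041713577984)) (.alt (nat_lit 14) (.cov (nat_lit 19611516936)) .e))) .e))) .e)) .e)) .e)) .e)) (.alt (nat_lit 22) (.cov (nat_lit 4332679443122164334595)) (.alt (nat_lit 22) (.exp (.alt (nat_lit 30) (.exp (.alt (nat_lit 23) (.cov (nat_lit 2852327835403356733442)) (.alt (nat_lit 23) (.cov (nat_lit 25601775074236781559809)) (.alt (nat_lit 23) (.exp (.alt (nat_lit 21) (.cov (nat_lit 21511209450730612064259)) (.alt (nat_lit 31) (.exp (.alt (nat_lit 15) (.exp (.alt (nat_lit 29) (.cov (nat_lit 25292791976861735321601)) (.alt (nat_lit 29) (.exp (.alt (nat_lit 25) (.cov (nat_lit 25274345234986440851456))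 (.alt (nat_lit 28) (.cov (nat_lit 293601288)) .e))) .e))) .e)) (.alt (nat_lit 21) (.cov (nat_lit 9828303465)) .e)))) .e)))) .e)) (.alt (nat_lit 16) (.cov (nat_lit 156992802698)) .e))))) .e))))) .e)) (.alt (nat_lit 2) (.cov (nat_lit 183955891885)) .e)))))) .e)))))) .e)) .e)) .e)) .e)) .e)) .e)) (.alt (nat_lit 0) (.exp (.alt (nat_lit 1) (.exp (.alt (nat_lit 3) (.exp (.alt (nat_lit 5) (.exp (.alt (nat_lit 4) (.exp (.alt (nat_lit 12) (.exp (.alt (nat_lit 20) (.exp (.alt (nat_lit 6) (.cov (nat_lit 1378896023868539928594)) (.alt (nat_lit 6) (.cov (nat_lit 22758673942410577313803)) (.alt (nat_lit 6) (.cov (nat_lit 6543994403043946790914)) (.alt (nat_lit 6) (.cov (nat_lit 404329587109361572904961)) (.alt (nat_lit 6) (.exp (.alt (nat_lit 22) (.cov (nat_lit 3094442675165030514722)) (.alt (nat_lit 7) (.cov (nat_lit 3004516882524400517127)) (.alt (nat_lit 7) (.cov (nat_lit 2709374276989952720899)) (.alt (nat_lit 7) (.exp (.alt (nat_lit 15) (.exp (.alt (nat_lit 23) (.cov (nat_lit 104627626686010780286987)) (.alt (nat_lit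 23) (.exp (.alt (nat_lit 31) (.exp (.alt (nat_lit 29) (.exp (.alt (nat_lit 30) (.exp (.alt (nat_lit 19) (.cov (nat_lit 365360824827504896245763)) (.alt (nat_lit 19) (.exp (.alt (nat_lit 17) (.exp (.alt (nat_lit 27) (.cov (nat_lit 25295097819870327209985)) (.alt (nat_lit 27) (.exp (.alt (nat_lit 26) (.cov (nat_lit 2637884413535592644608)) (.alt (nat_lit 11) (.cov (nat_lit 19606274056)) .e))) .e))) .e)) (.alt (nat_lit 22) (.cov (nat_lit 156583854275)) .e)))) .e)) .e)) .e)) (.alt (nat_lit 23) (.cov (nat_lit 45422807078995240157185)) (.alt (nat_lit 23) (.exp (.alt (nat_lit 31) (.exp (.alt (nat_lit 29) (.exp (.alt (nat_lit 25) (.exp (.alt (nat_lit 17) (.exp (.alt (nat_lit 27) (.exp (.alt (nat_lit 30) (.cov (nat_lit 25295097819870934335489)) (.alt (nat_lit 30) (.exp (.alt (nat_lit 26) (.cov (nat_lit 25276651077995639865344)) (.alt (nat_lit 14) (.cov (nat_lit 19606274056)) .e))) .e))) .e)) .e)) .e)) .e)) (.alt (nat_lit 22) (.cov (nat_lit 344331536994690484142083)) (.alt (nat_lit 22) (.exp (.alt (nat_lit 30) (.exp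 (.alt (nat_lit 18) (.cov (nat_lit 479615378948230217730)) (.alt (nat_lit 18) (.cov (nat_lit 797821824124466495489)) (.alt (nat_lit 18) (.exp (.alt (nat_lit 16) (.cov (nat_lit 260560277817203359747)) (.alt (nat_lit 26) (.exp (.alt (nat_lit 10) (.exp (.alt (nat_lit 24) (.cov (nat_lit 25292791976861131341825)) (.alt (nat_lit 24) (.exp (.alt (nat_lit 25) (.cov (nat_lit 25274345234986446094336)) (.alt (nat_lit 28) (.cov (nat_lit 1372585992)) .e))) .e))) .e)) (.alt (nat_lit 16) (.cov (nat_lit 2340422249)) .e)))) .e)))) .e)) (.alt (nat_lit 21) (.cov (nat_lit 174714785674)) .e))))) .e))))) .e)) (.alt (nat_lit 7) (.cov (nat_lit 12162442925)) .e)))))) .e)))))) .e)) .e)) .e)) .e)) .e)) .e)) .e)))) .e))]),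
   ([8, 14, 1], [.cov (nat_lit 30423614428667394954568350564574), .cov (nat_lit 30423614428667394954568350564574), .cov (nat_lit 30423614428667394954568350564574), .cov (nat_lit 30423614428667394954568350564574), .cov (nat_lit 30423614428667394954568350564574), .cov (nat_lit 30423614405645858359410960630224), .cov (nat_lit 30423614405645858359410960630224), .cov (nat_lit 30423614405645858359410960630224), .cov (nat_lit 30423614405645858359410960630224), .cov (nat_lit 30423614405645858359410960630224), .cov (nat_lit 30423614415680876707704641421535), .cov (nat_lit 30423614412139108002817523056863), .cov (nat_lit 30423614405867211804983299145951), .cov (nat_lit 30423614405867219712670926110943), .rot (.rot (.exp (.alt (nat_lit 6) (.exp (.alt (nat_lit 0) (.cov (nat_lit 2966359934896036713307949626294274)) (.alt (nat_lit 0) (.cov (nat_lit 2966359925224959891952228888477697)) (.alt (nat_lit 0) (.cov (nat_lit 17082917115751625698243001151651840)) (.alt (nat_lit 0) (.cov (nat_lit 1570305248855458840670)) .e)))))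 .e)))]),
   ([8, 11, 4], [.cov (nat_lit 841720027591019906622057976168673), .cov (nat_lit 30423648256970748732040485535966), .cov (nat_lit 841720027591019906622057976168673), .cov (nat_lit 30423648256970748732040485535966), .cov (nat_lit 841720027591019906622057976168673), .cov (nat_lit 30423648256970748732040485535966), .cov (nat_lit 841720027591019906622057976168673), .cov (nat_lit 30423648256970748732040485535966), .cov (nat_lit 841720027931104071885698046624208), .cov (nat_lit 30423648256159089136265687204294), .cov (nat_lit 841720027566227479739255645798855), .cov (nat_lit 30423648256159089136265687204294), .cov (nat_lit 841720027566227479739255645798855), .cov (nat_lit 30423648256159089136265687204294), .cov (nat_lit 841720027566227479739255645798855), .cov (nat_lit 30423648256159089136265687204294), .cov (nat_lit 841720027566522627635686284460255), .cov (nat_lit 30423648256011509507997525082335), .cov (nat_lit 841720027566522627635686284460255), .cov (nat_lit 30423648257192101130913791869151), .cov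 (nat_lit 841720027566522627635686284460255), .cov (nat_lit 30423648257192103980847931064543), .cov (nat_lit 841720027566522627635686284460255), .rot (.rot (.exp (.alt (nat_lit 6) (.exp (.alt (nat_lit 2) (.exp (.alt (nat_lit 3) (.exp (.alt (nat_lit 10) (.exp (.alt (nat_lit 0) (.cov (nat_lit 5724742645242747274442280007630850)) (.alt (nat_lit 0) (.cov (nat_lit 138777349654875088557544155966865409)) (.alt (nat_lit 0) (.cov (nat_lit 55538340646324336416138546547523584)) (.alt (nat_lit 0) (.cov (nat_lit 344310795930489673744478)) .e))))) .e)) .e)) .e)) .e)))]),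
   ([8, 8, 7], [.cov (nat_lit 1328498288431311768724266855432417), .cov (nat_lit 229951819345972196227544957981819104), .cov (nat_lit 229951819065501406076950989449986272), .cov (nat_lit 1328498288431311768724266855432417), .cov (nat_lit 229951819345972196227544957981819104), .cov (nat_lit 229951819065501406076950989449986272), .cov (nat_lit 1328498288431311768724266855432417), .cov (nat_lit 229951819345972196227544957981819104), .cov (nat_lit 229951819065501406076950989449986272), .cov (nat_lit 1328498288431311768724248467603916), .cov (nat_lit 229951819345972196227544947982598598), .cov (nat_lit 229951819065501406076950979450765766), .cov (nat_lit 1328498288431311768724248467603916), .cov (nat_lit 229951819345972196227544947982598598), .cov (nat_lit 229951819065501406076950979450765766), .cov (nat_lit 1328498288431311768724248467603916), .cov (nat_lit 229951819345972196227544947982598598), .cov (nat_lit 229951819065501406076950979450765766), .cov (nat_lit 1328498288460014901093522483445983), .cov (nat_lit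 229951819345628644064504419637526751), .cov (nat_lit 229951819065564420153290611576799455), .cov (nat_lit 1328498288453743008612037561417951), .cov (nat_lit 229951819346035210304394753503920351), .cov (nat_lit 229951819065564420153800784972087519), .cov (nat_lit 1328498288431311768724258668151007), .cov (nat_lit 30424083812563580137471347785951), .rot (.rot (.exp (.alt (nat_lit 6) (.exp (.alt (nat_lit 2) (.exp (.alt (nat_lit 3) (.exp (.alt (nat_lit 10) (.exp (.alt (nat_lit 7) (.exp (.alt (nat_lit 5) (.exp (.alt (nat_lit 23) (.exp (.alt (nat_lit 0) (.cov (nat_lit 58296719995873660686529880259559426)) (.alt (nat_lit 0) (.cov (nat_lit 100321874972237276492989466606043137)) (.alt (nat_lit 0) (.cov (nat_lit 769965908163951047270056087239262208)) (.alt (nat_lit 0) (.cov (nat_lit 1422708048192360939614)) .e))))) .e)) .e)) .e)) .e)) .e)) .e)) (.alt (nat_lit 6) (.exp (.alt (nat_lit 2) (.exp (.alt (nat_lit 3) (.exp (.alt (nat_lit 10) (.exp (.alt (nat_lit 14) (.exp (.alt (nat_lit 12) (.exp (.alt (nat_lit 30) (.exp (.alt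 (nat_lit 0) (.cov (nat_lit 3777602981244984079131788754026498)) (.alt (nat_lit 0) (.cov (nat_lit 770128169723235943531527089896292353)) (.alt (nat_lit 0) (.cov (nat_lit 100159613412953708397091780808409088)) (.alt (nat_lit 0) (.cov (nat_lit 463477356359028047966)) .e))))) .e)) .e)) .e)) .e)) .e)) .e)) .e))))]),
   ([8, 7, 8], [.cov (nat_lit 53251470602106594382921264370024673), .cov (nat_lit 53251470602106594382921264370024673), .cov (nat_lit 53251470602106594382921264370024673), .cov (nat_lit 47410136636281476612292943846310112), .cov (nat_lit 47410136636281476612292943846310112), .cov (nat_lit 47410136636281476612292943846310112), .cov (nat_lit 47410136636281476612165400497488096), .cov (nat_lit 47410136636281476612165400497488096), .cov (nat_lit 47410136636281476612165400497488096), .cov (nat_lit 53251470602106594382921257290039756), .cov (nat_lit 53251470602106594382921257290039756), .cov (nat_lit 53251470602106594382921257290039756), .cov (nat_lit 47410136636281476612292800032014790), .cov (nat_lit 47410136636281476612292800032014790),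 .cov (nat_lit 47410136636281476612292800032014790), .cov (nat_lit 47410136636281476612165256683192774), .cov (nat_lit 47410136636281476612165256683192774), .cov (nat_lit 47410136636281476612165256683192774), .cov (nat_lit 1490758193901729969098666585096415), .cov (nat_lit 94789843478075464686256346531627231), .cov (nat_lit 53251470602106594382921291649777887), .cov (nat_lit 53251467497611652924021921042923743), .cov (nat_lit 230114080353665973066300792986665183), .cov (nat_lit 47410136636255429809662920094646495), .cov (nat_lit 230114079231782812463797375510511839), .cov (nat_lit 230114080353665973066173249637843167), .rot (.exp (.alt (nat_lit 9) (.exp (.alt (nat_lit 1) (.exp (.alt (nat_lit 3) (.exp (.alt (nat_lit 5) (.exp (.alt (nat_lit 11) (.exp (.alt (nat_lit 10) (.exp (.alt (nat_lit 27) (.rot (.exp (.alt (nat_lit 0) (.cov (nat_lit 227193415368209066326655388316860418)) (.alt (nat_lit 0) (.cov (nat_lit 139248889604391667522392467036962817)) (.alt (nat_lit 0) (.cov (nat_lit 9279206581390084192440532676378624))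 (.alt (nat_lit 0) (.cov (nat_lit 2965317021355785322590)) .e)))))) .e)) .e)) .e)) .e)) .e)) .e)) (.alt (nat_lit 9) (.exp (.alt (nat_lit 1) (.exp (.alt (nat_lit 3) (.exp (.alt (nat_lit 5) (.exp (.alt (nat_lit 13) (.exp (.alt (nat_lit 12) (.exp (.alt (nat_lit 29) (.rot (.exp (.alt (nat_lit 0) (.cov (nat_lit 19501541026494840264600399441297410)) (.alt (nat_lit 0) (.cov (nat_lit 9441468140699855888294923502354433)) (.alt (nat_lit 0) (.cov (nat_lit 139086628044760405970821466717945856)) (.alt (nat_lit 0) (.cov (nat_lit 25396557814986432315486)) .e)))))) .e)) .e)) .e)) .e)) .e)) .e)) .e)))]),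
   ([8, 4, 11], [.cov (nat_lit 841752537999294757434429848682721), .cov (nat_lit 841752537999294757434429848682721), .cov (nat_lit 841752537999294757434429848682721), .cov (nat_lit 841752537999294757434429848682721), .cov (nat_lit 13984753961166979144704051241812190), .cov (nat_lit 13984753961166979144704051241812190), .cov (nat_lit 13984753961166979144704051241812190), .cov (nat_lit 13984753961166979144704051241812190), .cov (nat_lit 99819892757347604690256782356906448), .cov (nat_lit 55847641120866879343400260626022855), .cov (nat_lit 55847641120866879343400260626022855), .cov (nat_lit 55847641120866879343400260626022855), .cov (nat_lit 22422230074707515323452926338269638), .cov (nat_lit 22422230074707515323452926338269638), .cov (nat_lit 22422230074707515323452926338269638), .cov (nat_lit 22422230074707515323452926338269638), .cov (nat_lit 22422230074706113370901124315349215), .cov (nat_lit 22422230074706113370901124315349215), .cov (nat_lit 22422230074706113370901124315349215), .cov (nat_lit 22422230074706113370901124315349215),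 .cov (nat_lit 30437391325909473983552662012127), .cov (nat_lit 30437396161612752442067616006367), .cov (nat_lit 30443663233061634679709292822751), .rot (.exp (.alt (nat_lit 9) (.exp (.alt (nat_lit 1) (.exp (.alt (nat_lit 3) (.exp (.alt (nat_lit 5) (.rot (.exp (.alt (nat_lit 0) (.cov (nat_lit 2951123131943381343967491217424386)) (.alt (nat_lit 0) (.cov (nat_lit 99819911408655165845667591202275329)) (.alt (nat_lit 0) (.cov (nat_lit 841752547670717455278914748284928)) (.alt (nat_lit 0) (.cov (nat_lit 22002365945608478392414)) .e)))))) .e)) .e)) .e)) .e))]),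
   ([8, 1, 14], [.cov (nat_lit 770113009005228244406376506939408606), .cov (nat_lit 770113009005228244406376506939408606), .cov (nat_lit 770113009005228244406376506939408606), .cov (nat_lit 770113009005228244406376506939408606), .cov (nat_lit 770113009005228244406376506939408606), .cov (nat_lit 47247930750425523610730549846475216), .cov (nat_lit 47247930750425523610730549846475216), .cov (nat_lit 47247930750425523610730549846475216), .cov (nat_lit 47247930750425523610730549846475216), .cov (nat_lit 47247930750425523610730549846475216), .cov (nat_lit 30458262219488413495151080505567), .cov (nat_lit 889535827379936326209972560189194463), .cov (nat_lit 55523137412817148549368690325323999), .cov (nat_lit 55523154802006137886194739298959583), .rot (.exp (.alt (nat_lit 9) (.rot (.exp (.alt (nat_lit 0) (.cov (nat_lit 5709555833790443952823888443867138)) (.alt (nat_lit 0) (.cov (nat_lit 5709555824124825061870976552140801)) (.alt (nat_lit 0) (.cov (nat_lit 894565874400935346462889279058083840)) (.alt (nat_lit 0) (.cov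 (nat_lit 6359541178992032743518)) .e)))))) .e))]),
   ([11, 11, 1], [.cov (nat_lit 30423614406826438593538374502098), .cov (nat_lit 30423614406826438593538374502098), .cov (nat_lit 30423614406826438593538374502098), .cov (nat_lit 30423614406826438593538374502098), .cov (nat_lit 30423614507545652756558852918051), .cov (nat_lit 30423614406236139926695436094239), .cov (nat_lit 30423614406236139926695436094239), .cov (nat_lit 30423614406236139926695436094239), .cov (nat_lit 30423614406236139926695436094240), .cov (nat_lit 30423614406236139926695436094240), .cov (nat_lit 30423614406236139926695436094240), .cov (nat_lit 30423614406236139926695436094240), .rot (.rot (.exp (.alt (nat_lit 6) (.exp (.alt (nat_lit 0) (.cov (nat_lit 22437429400958392968550279674855435)) (.alt (nat_lit 0) (.cov (nat_lit 45668584862056243514603619745798)) (.alt (nat_lit 0) (.exp (.alt (nat_lit 2) (.cov (nat_lit 1664984844689730224991077252397416334281550069760)) .e)) (.alt (nat_lit 0) (.cov (nat_lit 1343718074569563689519899773763585))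 (.alt (nat_lit 0) (.cov (nat_lit 13999965990812232421962211346350080)) (.alt (nat_lit 0) (.cov (nat_lit 611052234748702230155)) .e))))))) .e))), .rot (.rot (.exp (.alt (nat_lit 6) (.exp (.alt (nat_lit 0) (.cov (nat_lit 45661742341253141904831006375947)) (.alt (nat_lit 0) (.cov (nat_lit 45668584862056243514603619745798)) (.alt (nat_lit 0) (.exp (.alt (nat_lit 2) (.cov (nat_lit 1664984844689730224991077252397416334281550069760)) .e)) (.alt (nat_lit 0) (.cov (nat_lit 17082873270455382635163918973009921)) (.alt (nat_lit 0) (.cov (nat_lit 13999965990812232421962211346350080)) (.alt (nat_lit 0) (.cov (nat_lit 406808359161156656432779)) .e))))))) .e))), .rot (.rot (.exp (.alt (nat_lit 6) (.exp (.alt (nat_lit 0) (.cov (nat_lit 45675374188795116463404993216523)) (.alt (nat_lit 0) (.cov (nat_lit 45668584862056243514603619745798)) (.alt (nat_lit 0) (.exp (.alt (nat_lit 2) (.cov (nat_lit 1664984844689730224991077252397416334281550069760)) .e)) (.alt (nat_lit 0) (.cov (nat_lit 45655480130834918202902967222273)) (.alt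 (nat_lit 0) (.cov (nat_lit 13999965990812232421962211346350080)) (.alt (nat_lit 0) (.cov (nat_lit 20770757614986331787)) .e))))))) .e))), .rot (.rot (.exp (.alt (nat_lit 6) (.exp (.alt (nat_lit 0) (.cov (nat_lit 100159641784023634851457031850688523)) (.alt (nat_lit 0) (.cov (nat_lit 45668584862056243514603619745798)) (.alt (nat_lit 0) (.exp (.alt (nat_lit 2) (.cov (nat_lit 1664984844689730224991077252397416334281550069760)) .e)) (.alt (nat_lit 0) (.cov (nat_lit 844767463153283196830184863715819521)) (.alt (nat_lit 0) (.cov (nat_lit 13999965990812232421962211346350080)) (.alt (nat_lit 0) (.exp (.alt (nat_lit 2) (.cov (nat_lit 47425381190840329867360873928982535)) (.alt (nat_lit 2) (.exp (.alt (nat_lit 3) (.exp (.alt (nat_lit 1) (.exp (.alt (nat_lit 5) (.cov (nat_lit 41857983018250750918690)) .e)) .e)) .e)) (.alt (nat_lit 2) (.cov (nat_lit 844767463144018582484856074463608833)) (.alt (nat_lit 2) (.exp (.alt (nat_lit 3) (.exp (.alt (nat_lit 10) (.cov (nat_lit 13999965763534053818392449719992322)) (.alt (nat_lit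 10) (.cov (nat_lit 227208655526791819871853983786074113)) (.alt (nat_lit 10) (.cov (nat_lit 47263117528029903149067880198307840)) (.alt (nat_lit 10) (.cov (nat_lit 10203367267462721568862)) .e))))) .e)) (.alt (nat_lit 2) (.cov (nat_lit 350139970226574170522104)) .e)))))) .e))))))) .e)))]),
   ([11, 8, 4], [.cov (nat_lit 841720027972572346733621514607190), .cov (nat_lit 30423648280803927766248833682233), .cov (nat_lit 841720027573532379443691482254137), .cov (nat_lit 30423648255421208437594955713337), .cov (nat_lit 841720027971317968138965188876879), .cov (nat_lit 30423648660954429639438291176225), .cov (nat_lit 841720027972572346733621514607190), .cov (nat_lit 30423648261914461834759985175113), .cov (nat_lit 841720027971317968649001145211471), .cov (nat_lit 30423648261914462347124921080418), .cov (nat_lit 841720027971317968138965188876879), .cov (nat_lit 30423648261914461836948640109892), .cov (nat_lit 841720027972572346733621514607190), .cov (nat_lit 30423648261914461834759985175113), .cov (nat_lit 841720027971317968649001145211471),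 .cov (nat_lit 30423648261914462347124921080418), .cov (nat_lit 841720027971317968138965188876879), .cov (nat_lit 30423648261914461836948640109893), .cov (nat_lit 841720027972572346733621514607190), .cov (nat_lit 30423648261914461834759985175113), .cov (nat_lit 841720027971317968649001145211471), .cov (nat_lit 30423648261914462347124921080418), .cov (nat_lit 841720027971317968138965188876879), .rot (.rot (.exp (.alt (nat_lit 6) (.exp (.alt (nat_lit 2) (.exp (.alt (nat_lit 3) (.exp (.alt (nat_lit 10) (.rot (.exp (.alt (nat_lit 9) (.cov (nat_lit 889505388146209665111710517670445058)) (.alt (nat_lit 9) (.cov (nat_lit 47704260338271294834437614619066369)) (.alt (nat_lit 9) (.cov (nat_lit 39793002336081250926413742080)) (.alt (nat_lit 9) (.cov (nat_lit 18097961687842910)) .e)))))) .e)) .e)) .e)) .e)))]),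
   ([11, 4, 8], [.cov (nat_lit 17067648754999398167024080718404182), .cov (nat_lit 894565818974104131269512387220212537), .cov (nat_lit 16743130206176674718699597256989263), .cov (nat_lit 1003980348908677143809814408727353), .cov (nat_lit 1328500038957374308344394653109049), .cov (nat_lit 16743130206178076671251232313051937), .cov (nat_lit 17067648754999398167024080718404182), .cov (nat_lit 16743131328059835321075333945367119), .cov (nat_lit 16743130206176674718699597256989263), .cov (nat_lit 3600128778176090958074897720416841), .cov (nat_lit 3600129904894954838909287439276642), .cov (nat_lit 3600128783011794236533413949478212), .cov (nat_lit 17067648754999398167024080718404182), .cov (nat_lit 16743131328059835321075333945367119), .cov (nat_lit 16743130206176674718699597256989263), .cov (nat_lit 3600128778176090958074897720416841), .cov (nat_lit 3600129904894954838909287439276642), .cov (nat_lit 3600128783011794236533413949478213), .cov (nat_lit 17067648754999398167024080718404182), .cov (nat_lit 16743131328059835321075333945367119),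 .cov (nat_lit 16743130206176674718699597256989263), .cov (nat_lit 3600128778176090958074897720416841), .cov (nat_lit 3600129904894954838909287439276642), .rot (.exp (.alt (nat_lit 9) (.exp (.alt (nat_lit 1) (.exp (.alt (nat_lit 3) (.exp (.alt (nat_lit 5) (.exp (.alt (nat_lit 6) (.cov (nat_lit 14603367483091202786792858556825602)) (.alt (nat_lit 6) (.cov (nat_lit 50138149490715465112862139061633025)) (.alt (nat_lit 6) (.cov (nat_lit 3894262436904040180930129726275584)) (.alt (nat_lit 6) (.cov (nat_lit 1770905529037533216862)) .e))))) .e)) .e)) .e)) .e))]),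
   ([11, 1, 11], [.cov (nat_lit 5709530842875326724287101357000402), .cov (nat_lit 5709530842875326724287101357000402), .cov (nat_lit 5709530842875326724287101357000402), .cov (nat_lit 5709530842875326724287101357000402), .cov (nat_lit 889049015254641035291997398697511715), .cov (nat_lit 22422230074705744436006455884122911), .cov (nat_lit 22422230074705744436006455884122911), .cov (nat_lit 22422230074705744436006455884122911), .cov (nat_lit 22422230074705744436006455884122912), .cov (nat_lit 22422230074705744436006455884122912), .cov (nat_lit 22422230074705744436006455884122912), .cov (nat_lit 22422230074705744436006455884122912), .rot (.exp (.alt (nat_lit 9) (.rot (.exp (.alt (nat_lit 0) (.cov (nat_lit 4249178588884264801337611814699019)) (.alt (nat_lit 0) (.cov (nat_lit 1328530992321349373354448280092678)) (.alt (nat_lit 0) (.exp (.alt (nat_lit 1) (.cov (nat_lit 106396913137022940866502036462722325139181010944)) .e)) (.alt (nat_lit 0) (.cov (nat_lit 30432052708178031581659971715073)) (.alt (nat_lit 0) (.cov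 (nat_lit 3437901189718889190036702119329792)) (.alt (nat_lit 0) (.cov (nat_lit 13838895351047653003)) .e)))))))) .e)), .rot (.exp (.alt (nat_lit 9) (.rot (.exp (.alt (nat_lit 0) (.cov (nat_lit 3924672579040142395946772545404939)) (.alt (nat_lit 0) (.cov (nat_lit 1328530992321349373354448280092678)) (.alt (nat_lit 0) (.exp (.alt (nat_lit 1) (.cov (nat_lit 106396913137022940866502036462722325139181010944)) .e)) (.alt (nat_lit 0) (.cov (nat_lit 229951832663155636654108652751290369)) (.alt (nat_lit 0) (.cov (nat_lit 3437901189718889190036702119329792)) (.alt (nat_lit 0) (.cov (nat_lit 7761473829632686950027)) .e)))))))) .e)), .rot (.exp (.alt (nat_lit 9) (.rot (.exp (.alt (nat_lit 0) (.cov (nat_lit 3924686210887684370505346532245515)) (.alt (nat_lit 0) (.cov (nat_lit 1328530992321349373354448280092678)) (.alt (nat_lit 0) (.exp (.alt (nat_lit 1) (.cov (nat_lit 106396913137022940866502036462722325139181010944)) .e)) (.alt (nat_lit 0) (.cov (nat_lit 1328517887536863074529911329783809)) (.alt (nat_lit 0) (.cov (nat_lit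 3437901189718889190036702119329792)) (.alt (nat_lit 0) (.cov (nat_lit 1784740659661281166987)) .e)))))))) .e)), .rot (.exp (.alt (nat_lit 9) (.rot (.exp (.alt (nat_lit 0) (.cov (nat_lit 139086656415831596027155769586614283)) (.alt (nat_lit 0) (.cov (nat_lit 1328530992321349373354448280092678)) (.alt (nat_lit 0) (.exp (.alt (nat_lit 1) (.cov (nat_lit 106396913137022940866502036462722325139181010944)) .e)) (.alt (nat_lit 0) (.cov (nat_lit 11226346274413181222261740576702465)) (.alt (nat_lit 0) (.cov (nat_lit 3437901189718889190036702119329792)) (.alt (nat_lit 0) (.exp (.alt (nat_lit 1) (.cov (nat_lit 91544692681204938863986293655732231)) (.alt (nat_lit 1) (.exp (.alt (nat_lit 3) (.exp (.alt (nat_lit 2) (.exp (.alt (nat_lit 10) (.cov (nat_lit 2891542005548267339810)) .e)) .e)) .e)) (.alt (nat_lit 1) (.cov (nat_lit 11226346264747753715856380907225089)) (.alt (nat_lit 1) (.exp (.alt (nat_lit 3) (.exp (.alt (nat_lit 5) (.cov (nat_lit 3437900962430664028475796426326018)) (.alt (nat_lit 5) (.cov (nat_lit 58281536540376187411757192417640449))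 (.alt (nat_lit 5) (.cov (nat_lit 354974717182719959437752596955136)) (.alt (nat_lit 5) (.cov (nat_lit 1932308393412659249246)) .e))))) .e)) (.alt (nat_lit 1) (.cov (nat_lit 4219707827345251369464)) .e)))))) .e)))))))) .e))]),
   ([12, 10, 1], [.cov (nat_lit 30423614411843941867735952139193), .cov (nat_lit 30423614411843941869922862239864), .cov (nat_lit 30423614406236131675924680675449), .cov (nat_lit 30423614405498260496805322035321), .cov (nat_lit 30423614411843941867735952139193), .cov (nat_lit 30423614450877252329921063166091), .cov (nat_lit 30423614406236131675924680675450), .cov (nat_lit 30423614405498260496805322035322), .cov (nat_lit 30423614411843941867735952139193), .cov (nat_lit 30423614450877252329921063166091), .cov (nat_lit 30423614406236131675913943257211), .cov (nat_lit 30423614405498260496794584617083), .cov (nat_lit 30423614411843941867735952139193), .cov (nat_lit 30423614450877252329921063166091), .cov (nat_lit 30423614406236131675913372834681), .cov (nat_lit 30423614405498260496794014194553),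 .cov (nat_lit 30423614411843941867735952139193), .cov (nat_lit 30423614450877252329921063166091), .rot (.rot (.exp (.alt (nat_lit 6) (.rot (.exp (.alt (nat_lit 9) (.cov (nat_lit 56141754585699125232624100141170694)) (.alt (nat_lit 9) (.exp (.alt (nat_lit 1) (.cov (nat_lit 5841378691271361191036966610665473)) .e)) (.alt (nat_lit 9) (.exp (.alt (nat_lit 1) (.exp (.alt (nat_lit 3) (.exp (.alt (nat_lit 5) (.cov (nat_lit 21545818287683557916708)) .e)) .e)) .e)) (.alt (nat_lit 9) (.exp (.alt (nat_lit 1) (.exp (.alt (nat_lit 3) (.cov (nat_lit 590315981999055044702)) .e)) .e)) (.alt (nat_lit 9) (.cov (nat_lit 3569751489806656026446882873016320)) (.alt (nat_lit 9) (.exp (.alt (nat_lit 1) (.cov (nat_lit 94759462872440245499971522381479942)) (.alt (nat_lit 1) (.exp (.alt (nat_lit 3) (.cov (nat_lit 22391825256679002532378285200900097)) .e)) (.alt (nat_lit 1) (.cov (nat_lit 162303634735425862771179755929601)) (.alt (nat_lit 1) (.exp (.alt (nat_lit 3) (.cov (nat_lit 73807147935447646305)) .e)) (.alt (nat_lit 1) (.exp (.alt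 (nat_lit 3) (.cov (nat_lit 1460378545710391032810580552450050)) (.alt (nat_lit 3) (.cov (nat_lit 162305027417974670459429918343169)) (.alt (nat_lit 3) (.cov (nat_lit 162303634735430474424212833435648)) (.alt (nat_lit 3) (.cov (nat_lit 73807147935449743454)) .e))))) .e)))))) .e)))))))) .e))), .rot (.rot (.exp (.alt (nat_lit 6) (.rot (.exp (.alt (nat_lit 9) (.exp (.alt (nat_lit 1) (.exp (.alt (nat_lit 3) (.exp (.alt (nat_lit 5) (.exp (.alt (nat_lit 11) (.exp (.alt (nat_lit 10) (.exp (.alt (nat_lit 15) (.exp (.alt (nat_lit 31) (.exp (.alt (nat_lit 27) (.exp (.alt (nat_lit 23) (.exp (.alt (nat_lit 0) (.cov (nat_lit 313594796587838603275)) (.alt (nat_lit 0) (.exp (.alt (nat_lit 4) (.exp (.alt (nat_lit 12) (.exp (.alt (nat_lit 20) (.exp (.alt (nat_lit 16) (.cov (nat_lit 1383505823120421289987)) (.alt (nat_lit 16) (.exp (.alt (nat_lit 17) (.exp (.alt (nat_lit 24) (.cov (nat_lit 2863857026239530270721)) (.alt (nat_lit 18) (.cov (nat_lit 731906063)) .e))) .e)) (.alt (nat_lit 16) (.exp (.alt (nat_lit 24) (.cov (nat_lit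 2863857026240802193410)) (.alt (nat_lit 17) (.cov (nat_lit 26214516)) .e))) .e)))) .e)) .e)) .e)) (.alt (nat_lit 0) (.cov (nat_lit 25318163977330189402113)) (.alt (nat_lit 0) (.exp (.alt (nat_lit 4) (.exp (.alt (nat_lit 12) (.exp (.alt (nat_lit 28) (.exp (.alt (nat_lit 29) (.exp (.alt (nat_lit 30) (.exp (.alt (nat_lit 20) (.cov (nat_lit 25272039389778804736001)) (.alt (nat_lit 20) (.exp (.alt (nat_lit 16) (.cov (nat_lit 21511209443949686030336)) (.alt (nat_lit 21) (.cov (nat_lit 286261256)) .e))) .e))) .e)) .e)) .e)) .e)) (.alt (nat_lit 4) (.cov (nat_lit 2997596340833755332611)) (.alt (nat_lit 4) (.exp (.alt (nat_lit 12) (.exp (.alt (nat_lit 20) (.cov (nat_lit 1660206999620505567234)) (.alt (nat_lit 20) (.cov (nat_lit 272089730173930307585)) (.alt (nat_lit 20) (.exp (.alt (nat_lit 21) (.cov (nat_lit 435804346333592027139)) (.alt (nat_lit 16) (.exp (.alt (nat_lit 17) (.exp (.alt (nat_lit 24) (.cov (nat_lit 2863857026239530270721)) (.alt (nat_lit 18) (.cov (nat_lit 731906063)) .e))) .e)) (.alt (nat_lit 16)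 (.exp (.alt (nat_lit 24) (.cov (nat_lit 2863857026240802193410)) (.alt (nat_lit 17) (.cov (nat_lit 26214516)) .e))) .e)))) .e)))) .e)) (.alt (nat_lit 2) (.cov (nat_lit 689968083)) .e))))) .e))))) .e)) .e)) .e)) .e)) .e)) .e)) .e)) .e)) .e)) (.alt (nat_lit 9) (.exp (.alt (nat_lit 1) (.exp (.alt (nat_lit 3) (.exp (.alt (nat_lit 2) (.exp (.alt (nat_lit 10) (.exp (.alt (nat_lit 18) (.exp (.alt (nat_lit 5) (.exp (.alt (nat_lit 7) (.exp (.alt (nat_lit 15) (.exp (.alt (nat_lit 23) (.exp (.alt (nat_lit 0) (.cov (nat_lit 365328543152916635058187)) (.alt (nat_lit 0) (.cov (nat_lit 364009602710864905895938)) (.alt (nat_lit 0) (.cov (nat_lit 21490462481968248389633)) (.alt (nat_lit 0) (.exp (.alt (nat_lit 8) (.exp (.alt (nat_lit 12) (.exp (.alt (nat_lit 28) (.exp (.alt (nat_lit 20) (.exp (.alt (nat_lit 30) (.exp (.alt (nat_lit 24) (.cov (nat_lit 1607172586218054483969)) (.alt (nat_lit 24) (.exp (.alt (nat_lit 25) (.cov (nat_lit 2843104441355629232128)) (.alt (nat_lit 16) (.cov (nat_lit 118489096)) .e))) .e))) .e)) .e))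 .e)) .e)) (.alt (nat_lit 8) (.cov (nat_lit 6548594575160282972163)) (.alt (nat_lit 8) (.exp (.alt (nat_lit 12) (.exp (.alt (nat_lit 24) (.cov (nat_lit 428886832699280457730)) (.alt (nat_lit 24) (.cov (nat_lit 207526018163807354881)) (.alt (nat_lit 24) (.exp (.alt (nat_lit 16) (.cov (nat_lit 21518126979585871446019)) (.alt (nat_lit 25) (.exp (.alt (nat_lit 17) (.exp (.alt (nat_lit 29) (.cov (nat_lit 440416023555930587137)) (.alt (nat_lit 27) (.cov (nat_lit 300941327)) .e))) .e)) (.alt (nat_lit 25) (.exp (.alt (nat_lit 29) (.cov (nat_lit 440416023556098359298)) (.alt (nat_lit 17) (.cov (nat_lit 1196425283)) .e))) .e)))) .e)))) .e)) (.alt (nat_lit 8) (.exp (.alt (nat_lit 24) (.cov (nat_lit 59952166895341273090)) (.alt (nat_lit 24) (.exp (.alt (nat_lit 26) (.cov (nat_lit 26706273750316760432647)) (.alt (nat_lit 25) (.cov (nat_lit 48028405395709408313344)) .e))) .e))) .e))))) .e))))) .e)) .e)) .e)) .e)) .e)) .e)) .e)) .e)) (.alt (nat_lit 1) (.exp (.alt (nat_lit 3) (.exp (.alt (nat_lit 5) (.exp (.alt (nat_lit 7)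 (.exp (.alt (nat_lit 15) (.exp (.alt (nat_lit 23) (.exp (.alt (nat_lit 13) (.exp (.alt (nat_lit 12) (.exp (.alt (nat_lit 29) (.exp (.alt (nat_lit 0) (.cov (nat_lit 21564243969501778935819)) (.alt (nat_lit 0) (.exp (.alt (nat_lit 2) (.exp (.alt (nat_lit 10) (.exp (.alt (nat_lit 18) (.exp (.alt (nat_lit 16) (.cov (nat_lit 267477806672467984387)) (.alt (nat_lit 16) (.exp (.alt (nat_lit 17) (.exp (.alt (nat_lit 24) (.cov (nat_lit 25299709505888802832385)) (.alt (nat_lit 20) (.cov (nat_lit 734003215)) .e))) .e)) (.alt (nat_lit 16) (.exp (.alt (nat_lit 24) (.cov (nat_lit 25299709505900244893698)) (.alt (nat_lit 17) (.cov (nat_lit 193986627)) .e))) .e)))) .e)) .e)) .e)) (.alt (nat_lit 0) (.cov (nat_lit 25272045008282638614529)) (.alt (nat_lit 0) (.exp (.alt (nat_lit 2) (.exp (.alt (nat_lit 10) (.exp (.alt (nat_lit 26) (.exp (.alt (nat_lit 27) (.exp (.alt (nat_lit 30) (.exp (.alt (nat_lit 18) (.cov (nat_lit 2840798596147417448449)) (.alt (nat_lit 18) (.exp (.alt (nat_lit 16) (.cov (nat_lit 21511209443949688127488))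 (.alt (nat_lit 19) (.cov (nat_lit 2970615816)) .e))) .e))) .e)) .e)) .e)) .e)) (.alt (nat_lit 2) (.cov (nat_lit 1812393034072144740355)) (.alt (nat_lit 2) (.exp (.alt (nat_lit 10) (.exp (.alt (nat_lit 18) (.cov (nat_lit 1674042057685986181122)) (.alt (nat_lit 18) (.cov (nat_lit 3961438437163737808897)) (.alt (nat_lit 18) (.exp (.alt (nat_lit 19) (.cov (nat_lit 62257778841577586691)) (.alt (nat_lit 16) (.exp (.alt (nat_lit 17) (.exp (.alt (nat_lit 24) (.cov (nat_lit 25299709505888802832385)) (.alt (nat_lit 20) (.cov (nat_lit 734003215)) .e))) .e)) (.alt (nat_lit 16) (.exp (.alt (nat_lit 24) (.cov (nat_lit 25299709505900244893698)) (.alt (nat_lit 17) (.cov (nat_lit 193986627)) .e))) .e)))) .e)))) .e)) (.alt (nat_lit 4) (.cov (nat_lit 156384628618)) .e))))) .e))))) .e)) .e)) .e)) .e)) .e)) .e)) (.alt (nat_lit 5) (.exp (.alt (nat_lit 7) (.exp (.alt (nat_lit 15) (.exp (.alt (nat_lit 23) (.exp (.alt (nat_lit 19) (.exp (.alt (nat_lit 17) (.exp (.alt (nat_lit 18) (.exp (.alt (nat_lit 0) (.cov (nat_lit 26507971482420202438667))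 (.alt (nat_lit 0) (.cov (nat_lit 22837071067607277240322)) (.alt (nat_lit 0) (.cov (nat_lit 343884208658190107148289)) (.alt (nat_lit 0) (.exp (.alt (nat_lit 16) (.exp (.alt (nat_lit 20) (.exp (.alt (nat_lit 28) (.exp (.alt (nat_lit 29) (.exp (.alt (nat_lit 12) (.exp (.alt (nat_lit 24) (.cov (nat_lit 45438942348361205809153)) (.alt (nat_lit 24) (.exp (.alt (nat_lit 26) (.cov (nat_lit 1390423345550984216576)) (.alt (nat_lit 25) (.cov (nat_lit 47574941704)) .e))) .e))) .e)) .e)) .e)) .e)) (.alt (nat_lit 16) (.cov (nat_lit 1973802044716006506499)) (.alt (nat_lit 4) (.cov (nat_lit 3864596324913566973952)) (.alt (nat_lit 2) (.cov (nat_lit 156575469450)) .e))))) .e))))) .e)) .e)) .e)) .e)) .e)) .e)) .e))) .e)) .e))) .e)))) .e)))]),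
   ([12, 8, 3], [.cov (nat_lit 30423624078675703068092637649781), .cov (nat_lit 30423628937990813932162006388856), .cov (nat_lit 30423624084652448651550824337528), .cov (nat_lit 30423628920355727110067523162232), .cov (nat_lit 30423624482438037347034078389201), .cov (nat_lit 30423629318141315805369751048312), .cov (nat_lit 30423624483692415941663392799616), .cov (nat_lit 30423628919101348000683123549113), .cov (nat_lit 30423624083398070063518546142137), .cov (nat_lit 30423628912977029485139857515449), .cov (nat_lit 30423624482438037347034078389201), .cov (nat_lit 30423629318141315805368811527030), .cov (nat_lit 30423624483692415941820427539880), .cov (nat_lit 30423628919101348000683123549113), .cov (nat_lit 30423624083398070063518546142137), .cov (nat_lit 30423628912977029485139857515449), .cov (nat_lit 30423624482438037347034078389201), .cov (nat_lit 30423629318141315805368811527031), .cov (nat_lit 30423624483692415941663392798131), .cov (nat_lit 30423628919101348000683123549113), .cov (nat_lit 30423624083398070063518546142137),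 .cov (nat_lit 30423628912977029485139857515449), .cov (nat_lit 30423624482438037347034078389201), .cov (nat_lit 30423629318141315805368811527032), .cov (nat_lit 30423624483692415941674935521404), .cov (nat_lit 30423628919101348000683123549113), .cov (nat_lit 30423624083398070063518546142137), .cov (nat_lit 30423628912977029485139857515449), .cov (nat_lit 30423624482438037347034078389201), .rot (.rot (.exp (.alt (nat_lit 6) (.exp (.alt (nat_lit 2) (.exp (.alt (nat_lit 3) (.rot (.exp (.alt (nat_lit 9) (.cov (nat_lit 9248829587999566123043325633101826)) (.alt (nat_lit 9) (.cov (nat_lit 889018622124509431017244557283688449)) (.alt (nat_lit 9) (.cov (nat_lit 5841378691271361191036966608568320)) (.alt (nat_lit 9) (.cov (nat_lit 590315981999055044702)) .e)))))) .e)) .e)) .e)))]),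
   ([12, 7, 4], [.cov (nat_lit 841720027566375041949219078284217), .cov (nat_lit 30423648256011503449687583625336), .cov (nat_lit 841720027566375041955816148050873), .cov (nat_lit 30423648256011503456284653391992), .cov (nat_lit 841720027592421844457993520812152), .cov (nat_lit 30423648358722974328959950393464), .cov (nat_lit 841720027566375041949219078284217), .cov (nat_lit 30423648257192095072604320179129), .cov (nat_lit 841720027566375041955816148050873), .cov (nat_lit 30423648280803927489151267511169), .cov (nat_lit 841720027669086512828488559371193), .cov (nat_lit 30423648280803927361607918689153), .cov (nat_lit 841720027566375041949219078284217), .cov (nat_lit 30423648257192095072604320179129), .cov (nat_lit 841720027566375041955816148050873), .cov (nat_lit 30423648280803927489151267511170), .cov (nat_lit 841720027669086512828488559371193), .cov (nat_lit 30423648280803927361607918689154), .cov (nat_lit 841720027566375041949219078284217), .cov (nat_lit 30423648257192095072604320179129), .cov (nat_lit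 841720027566375041955816148050873), .cov (nat_lit 30423648280803927489154824279466), .cov (nat_lit 841720027669086512828488559371193), .cov (nat_lit 30423648280803927361611475457450), .cov (nat_lit 841720027566375041949219078284217), .cov (nat_lit 30423648257192095072604320179129), .cov (nat_lit 841720027566375041955816148050873), .cov (nat_lit 30423648256159077408874631799961), .cov (nat_lit 841720027669086512828488559371193), .rot (.rot (.exp (.alt (nat_lit 6) (.exp (.alt (nat_lit 2) (.exp (.alt (nat_lit 3) (.exp (.alt (nat_lit 10) (.rot (.exp (.alt (nat_lit 9) (.exp (.alt (nat_lit 11) (.exp (.alt (nat_lit 15) (.exp (.alt (nat_lit 27) (.exp (.alt (nat_lit 1) (.exp (.alt (nat_lit 5) (.exp (.alt (nat_lit 17) (.exp (.alt (nat_lit 0) (.cov (nat_lit 45397437310534791725067)) (.alt (nat_lit 0) (.cov (nat_lit 42953245479998322638850)) (.alt (nat_lit 0) (.cov (nat_lit 1337394581440596803585)) (.alt (nat_lit 0) (.exp (.alt (nat_lit 4) (.exp (.alt (nat_lit 12) (.exp (.alt (nat_lit 28) (.exp (.alt (nat_lit 24) (.exp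 (.alt (nat_lit 29) (.exp (.alt (nat_lit 20) (.cov (nat_lit 6396408516354930376705)) (.alt (nat_lit 20) (.exp (.alt (nat_lit 22) (.cov (nat_lit 22841680860265992683520)) (.alt (nat_lit 16) (.cov (nat_lit 9950986248)) .e))) .e))) .e)) .e)) .e)) .e)) (.alt (nat_lit 4) (.cov (nat_lit 25428837134464570097667)) (.alt (nat_lit 4) (.exp (.alt (nat_lit 12) (.exp (.alt (nat_lit 20) (.cov (nat_lit 25283568629024995409922)) (.alt (nat_lit 20) (.cov (nat_lit 21520432952326014107649)) (.alt (nat_lit 20) (.exp (.alt (nat_lit 16) (.cov (nat_lit 1383505823120589062147)) (.alt (nat_lit 22) (.exp (.alt (nat_lit 18) (.exp (.alt (nat_lit 30) (.cov (nat_lit 25306627034916444962817)) (.alt (nat_lit 23) (.cov (nat_lit 32505871)) .e))) .e)) (.alt (nat_lit 22) (.exp (.alt (nat_lit 30) (.cov (nat_lit 25306627034927887024130)) (.alt (nat_lit 18) (.cov (nat_lit 631242819)) .e))) .e)))) .e)))) .e)) (.alt (nat_lit 4) (.exp (.alt (nat_lit 20) (.cov (nat_lit 1819310382779897741314)) (.alt (nat_lit 20) (.exp (.alt (nat_lit 21) (.cov (nat_lit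 104623014874648098635783)) (.alt (nat_lit 22) (.cov (nat_lit 23238287203652980441088)) .e))) .e))) .e))))) .e))))) .e)) .e)) .e)) .e)) .e)) .e)) (.alt (nat_lit 9) (.exp (.alt (nat_lit 11) (.exp (.alt (nat_lit 15) (.exp (.alt (nat_lit 27) (.exp (.alt (nat_lit 19) (.exp (.alt (nat_lit 18) (.exp (.alt (nat_lit 17) (.exp (.alt (nat_lit 0) (.cov (nat_lit 103310990433301330657291)) (.alt (nat_lit 0) (.cov (nat_lit 2840800491708300132354)) (.alt (nat_lit 0) (.cov (nat_lit 21582696202336783564801)) (.alt (nat_lit 0) (.exp (.alt (nat_lit 16) (.exp (.alt (nat_lit 24) (.exp (.alt (nat_lit 28) (.exp (.alt (nat_lit 30) (.exp (.alt (nat_lit 12) (.exp (.alt (nat_lit 20) (.cov (nat_lit 365367742347733563867137)) (.alt (nat_lit 20) (.exp (.alt (nat_lit 21) (.cov (nat_lit 2635578570526373707776)) (.alt (nat_lit 22) (.cov (nat_lit 12137267208)) .e))) .e))) .e)) .e)) .e)) .e)) (.alt (nat_lit 16) (.cov (nat_lit 10228720017847030382595)) (.alt (nat_lit 8) (.cov (nat_lit 345350722617424790683648)) (.alt (nat_lit 1) (.cov (nat_lit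 1414533002)) .e))))) .e))))) .e)) .e)) .e)) .e)) .e)) .e)) .e)))) .e)) .e)) .e)) .e)))]),
   ([12, 4, 7], [.cov (nat_lit 30424068961975368218399962309561), .cov (nat_lit 30424083469085203593950058783673), .cov (nat_lit 229951819065157927700407347264360568), .cov (nat_lit 30424068963377320770042769444984), .cov (nat_lit 30424083470487156145592865919096), .cov (nat_lit 58281504179851591184669613496471672), .cov (nat_lit 30424068961975368218399962309561), .cov (nat_lit 30424083469085203593950058783673), .cov (nat_lit 58281504179850189232117841135674297), .cov (nat_lit 30424073799080599228564065231801), .cov (nat_lit 1003979739610064058036545034132353), .cov (nat_lit 1003979459139273907442575965428609), .cov (nat_lit 30424068961975368218399962309561), .cov (nat_lit 30424083469085203593950058783673), .cov (nat_lit 58281504179850189232117841135674297), .cov (nat_lit 30424073799080599228564065231801), .cov (nat_lit 1003979739610064058036545034132354), .cov (nat_lit 1003979459139273907442575965428610), .cov (nat_lit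 30424068961975368218399962309561), .cov (nat_lit 30424083469085203593950058783673), .cov (nat_lit 58281504179850189232117841135674297), .cov (nat_lit 30424073799080599228564065231801), .cov (nat_lit 1003979739610064058036591809009066), .cov (nat_lit 1003979459139273907442623277176234), .cov (nat_lit 30424068961975368218399962309561), .cov (nat_lit 30424083469085203593950058783673), .cov (nat_lit 58281504179850189232117841135674297), .cov (nat_lit 30424073799080599228564065231801), .cov (nat_lit 1653016851762620790061377565762713), .rot (.exp (.alt (nat_lit 9) (.exp (.alt (nat_lit 1) (.exp (.alt (nat_lit 3) (.exp (.alt (nat_lit 5) (.exp (.alt (nat_lit 6) (.exp (.alt (nat_lit 7) (.exp (.alt (nat_lit 15) (.exp (.alt (nat_lit 23) (.exp (.alt (nat_lit 2) (.exp (.alt (nat_lit 10) (.exp (.alt (nat_lit 18) (.exp (.alt (nat_lit 0) (.cov (nat_lit 365328543152916635058187)) (.alt (nat_lit 0) (.cov (nat_lit 364009602710864905895938)) (.alt (nat_lit 0) (.cov (nat_lit 21490462481968248389633)) (.alt (nat_lit 0) (.exp (.alt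 (nat_lit 8) (.exp (.alt (nat_lit 12) (.exp (.alt (nat_lit 28) (.exp (.alt (nat_lit 20) (.exp (.alt (nat_lit 30) (.exp (.alt (nat_lit 24) (.cov (nat_lit 1607172586218054483969)) (.alt (nat_lit 24) (.exp (.alt (nat_lit 25) (.cov (nat_lit 2843104441355629232128)) (.alt (nat_lit 16) (.cov (nat_lit 118489096)) .e))) .e))) .e)) .e)) .e)) .e)) (.alt (nat_lit 8) (.cov (nat_lit 6548594575160282972163)) (.alt (nat_lit 8) (.exp (.alt (nat_lit 12) (.exp (.alt (nat_lit 24) (.cov (nat_lit 428886832699280457730)) (.alt (nat_lit 24) (.cov (nat_lit 207526018163807354881)) (.alt (nat_lit 24) (.exp (.alt (nat_lit 16) (.cov (nat_lit 21518126979585871446019)) (.alt (nat_lit 25) (.exp (.alt (nat_lit 17) (.exp (.alt (nat_lit 29) (.cov (nat_lit 440416023555930587137)) (.alt (nat_lit 27) (.cov (nat_lit 300941327)) .e))) .e)) (.alt (nat_lit 25) (.exp (.alt (nat_lit 29) (.cov (nat_lit 440416023556098359298)) (.alt (nat_lit 17) (.cov (nat_lit 1196425283)) .e))) .e)))) .e)))) .e)) (.alt (nat_lit 8) (.exp (.alt (nat_lit 24) (.cov (nat_lit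 59952166895341273090)) (.alt (nat_lit 24) (.exp (.alt (nat_lit 26) (.cov (nat_lit 26706273750316760432647)) (.alt (nat_lit 25) (.cov (nat_lit 48028405395709408313344)) .e))) .e))) .e))))) .e))))) .e)) .e)) .e)) .e)) .e)) .e)) (.alt (nat_lit 6) (.exp (.alt (nat_lit 7) (.exp (.alt (nat_lit 15) (.exp (.alt (nat_lit 23) (.exp (.alt (nat_lit 19) (.exp (.alt (nat_lit 17) (.exp (.alt (nat_lit 18) (.exp (.alt (nat_lit 0) (.cov (nat_lit 26507971482420202438667)) (.alt (nat_lit 0) (.cov (nat_lit 22837071067607277240322)) (.alt (nat_lit 0) (.cov (nat_lit 343884208658190107148289)) (.alt (nat_lit 0) (.exp (.alt (nat_lit 16) (.exp (.alt (nat_lit 20) (.exp (.alt (nat_lit 28) (.exp (.alt (nat_lit 29) (.exp (.alt (nat_lit 12) (.exp (.alt (nat_lit 24) (.cov (nat_lit 45438942348361205809153)) (.alt (nat_lit 24) (.exp (.alt (nat_lit 26) (.cov (nat_lit 1390423345550984216576)) (.alt (nat_lit 25) (.cov (nat_lit 47574941704)) .e))) .e))) .e)) .e)) .e)) .e)) (.alt (nat_lit 16) (.cov (nat_lit 1973802044716006506499)) (.alt (nat_lit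 4) (.cov (nat_lit 3864596324913566973952)) (.alt (nat_lit 2) (.cov (nat_lit 156575469450)) .e))))) .e))))) .e)) .e)) .e)) .e)) .e)) .e)) .e))) .e)) .e)) .e)) .e))]),
   ([12, 3, 8], [.cov (nat_lit 30424707274439189852185545415541), .cov (nat_lit 894565818974103762334622070530379896), .cov (nat_lit 16743130206176305783809163730625489), .cov (nat_lit 1003980348906980043346080673304696), .cov (nat_lit 894565818974103836121600564391841912), .cov (nat_lit 16743130206176379570787654773510264), .cov (nat_lit 17067648754999029232133800334465920), .cov (nat_lit 3600129924235997065301285819917241), .cov (nat_lit 16743130206176305783809163730625489), .cov (nat_lit 3600128778174393857611323670537145), .cov (nat_lit 55523098499912940580667727292670905), .cov (nat_lit 16743130206176379570787813855075190), .cov (nat_lit 17067648754999029232133801810859432), .cov (nat_lit 3600129924235997065301285819917241), .cov (nat_lit 16743130206176305783809163730625489), .cov (nat_lit 3600128778174393857611323670537145), .cov (nat_lit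 55523098499912940580667727292670905), .cov (nat_lit 16743130206176379570787813855075191), .cov (nat_lit 17067648754999029232133800334464435), .cov (nat_lit 3600129924235997065301285819917241), .cov (nat_lit 16743130206176305783809163730625489), .cov (nat_lit 3600128778174393857611323670537145), .cov (nat_lit 55523098499912940580667727292670905), .cov (nat_lit 16743130206176379570787813855075192), .cov (nat_lit 17067648754999029232133800267354236), .cov (nat_lit 3600129924235997065301285819917241), .cov (nat_lit 16743130206176305783809163730625489), .cov (nat_lit 3600128778174393857611323670537145), .cov (nat_lit 55523098499912940580667727292670905), .rot (.exp (.alt (nat_lit 9) (.exp (.alt (nat_lit 1) (.exp (.alt (nat_lit 3) (.exp (.alt (nat_lit 6) (.cov (nat_lit 769920319363353577672663086340767746)) (.alt (nat_lit 6) (.cov (nat_lit 14116601461396945437406780093104129)) (.alt (nat_lit 6) (.cov (nat_lit 756128274749553946596164658540838912)) (.alt (nat_lit 6) (.cov (nat_lit 73807147935452889182)) .e)))))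 .e)) .e)) .e))]),
   ([12, 1, 10], [.cov (nat_lit 3437876527621970307461660094243769), .cov (nat_lit 3437876532457673585920129279987832), .cov (nat_lit 63960586799425664687895760649326713), .cov (nat_lit 1328502829156395091461894634999929), .cov (nat_lit 3437876527621970307461660094243769), .cov (nat_lit 138762113408021618654496210563375243), .cov (nat_lit 63960586799425664687895760649326714), .cov (nat_lit 1328502829156395091461894634999930), .cov (nat_lit 3437876527621970307461660094243769), .cov (nat_lit 138762113408021618654496210563375243), .cov (nat_lit 63960586799425664687895763434344571), .cov (nat_lit 1328502829156395091461897420017787), .cov (nat_lit 3437876527621970307461660094243769), .cov (nat_lit 138762113408021618654496210563375243), .cov (nat_lit 63960586799425664687895771957173113), .cov (nat_lit 1328502829156395091461905942846329), .cov (nat_lit 3437876527621970307461660094243769), .cov (nat_lit 138762113408021618654496210563375243), .rot (.exp (.alt (nat_lit 9) (.exp (.alt (nat_lit 6) (.cov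 (nat_lit 224891402488086992987416085095514118)) (.alt (nat_lit 6) (.exp (.alt (nat_lit 2) (.cov (nat_lit 756128274749553946596164658575441921)) .e)) (.alt (nat_lit 6) (.exp (.alt (nat_lit 2) (.exp (.alt (nat_lit 3) (.exp (.alt (nat_lit 10) (.cov (nat_lit 41615875839868239085604)) .e)) .e)) .e)) (.alt (nat_lit 6) (.exp (.alt (nat_lit 2) (.exp (.alt (nat_lit 3) (.cov (nat_lit 73807147935452889182)) .e)) .e)) (.alt (nat_lit 6) (.cov (nat_lit 14278863760559597303773364387577856)) (.alt (nat_lit 6) (.exp (.alt (nat_lit 2) (.cov (nat_lit 49975902467558479267179559030620166)) (.alt (nat_lit 2) (.exp (.alt (nat_lit 3) (.cov (nat_lit 4218786251807624647198621159129089)) .e)) (.alt (nat_lit 2) (.cov (nat_lit 1298118572540512008165593780846593)) (.alt (nat_lit 2) (.exp (.alt (nat_lit 3) (.cov (nat_lit 590315981999047704673)) .e)) (.alt (nat_lit 2) (.exp (.alt (nat_lit 3) (.cov (nat_lit 63767940848130084239235575765270530)) (.alt (nat_lit 3) (.cov (nat_lit 1298119965224239101631552136675329)) (.alt (nat_lit 3) (.cov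 (nat_lit 1298118572540514313975617610055680)) (.alt (nat_lit 3) (.cov (nat_lit 590315981999048753246)) .e))))) .e)))))) .e))))))) .e)), .rot (.exp (.alt (nat_lit 9) (.exp (.alt (nat_lit 6) (.exp (.alt (nat_lit 2) (.exp (.alt (nat_lit 3) (.exp (.alt (nat_lit 10) (.exp (.alt (nat_lit 7) (.exp (.alt (nat_lit 5) (.exp (.alt (nat_lit 15) (.exp (.alt (nat_lit 31) (.exp (.alt (nat_lit 23) (.exp (.alt (nat_lit 27) (.exp (.alt (nat_lit 0) (.cov (nat_lit 24211351744089904119819)) (.alt (nat_lit 0) (.exp (.alt (nat_lit 8) (.exp (.alt (nat_lit 12) (.exp (.alt (nat_lit 24) (.exp (.alt (nat_lit 16) (.cov (nat_lit 21518126979574429384707)) (.alt (nat_lit 16) (.exp (.alt (nat_lit 18) (.exp (.alt (nat_lit 20) (.cov (nat_lit 2852327811193495355393)) (.alt (nat_lit 17) (.cov (nat_lit 2907701263)) .e))) .e)) (.alt (nat_lit 16) (.exp (.alt (nat_lit 20) (.cov (nat_lit 2852327811194730577922)) (.alt (nat_lit 18) (.cov (nat_lit 828375156)) .e))) .e)))) .e)) .e)) .e)) (.alt (nat_lit 0) (.cov (nat_lit 102065842695998812454913)) (.alt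 (nat_lit 0) (.exp (.alt (nat_lit 8) (.exp (.alt (nat_lit 12) (.exp (.alt (nat_lit 28) (.exp (.alt (nat_lit 30) (.exp (.alt (nat_lit 29) (.exp (.alt (nat_lit 24) (.cov (nat_lit 405828378427494760449)) (.alt (nat_lit 24) (.exp (.alt (nat_lit 16) (.cov (nat_lit 189079137750657007616)) (.alt (nat_lit 26) (.cov (nat_lit 52428808)) .e))) .e))) .e)) .e)) .e)) .e)) (.alt (nat_lit 8) (.cov (nat_lit 1457293210816446726147)) (.alt (nat_lit 8) (.exp (.alt (nat_lit 12) (.exp (.alt (nat_lit 24) (.cov (nat_lit 6530147435079832436738)) (.alt (nat_lit 24) (.cov (nat_lit 21898591313589199437825)) (.alt (nat_lit 24) (.exp (.alt (nat_lit 26) (.cov (nat_lit 25304321200703315902467)) (.alt (nat_lit 16) (.exp (.alt (nat_lit 18) (.exp (.alt (nat_lit 20) (.cov (nat_lit 2852327811193495355393)) (.alt (nat_lit 17) (.cov (nat_lit 2907701263)) .e))) .e)) (.alt (nat_lit 16) (.exp (.alt (nat_lit 20) (.cov (nat_lit 2852327811194730577922)) (.alt (nat_lit 18) (.cov (nat_lit 828375156)) .e))) .e)))) .e)))) .e)) (.alt (nat_lit 1) (.cov (nat_lit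 152048595)) .e))))) .e))))) .e)) .e)) .e)) .e)) .e)) .e)) .e)) .e)) .e)) (.alt (nat_lit 6) (.exp (.alt (nat_lit 2) (.exp (.alt (nat_lit 3) (.exp (.alt (nat_lit 1) (.exp (.alt (nat_lit 5) (.exp (.alt (nat_lit 17) (.exp (.alt (nat_lit 10) (.exp (.alt (nat_lit 11) (.exp (.alt (nat_lit 15) (.exp (.alt (nat_lit 27) (.exp (.alt (nat_lit 0) (.cov (nat_lit 45397437310534791725067)) (.alt (nat_lit 0) (.cov (nat_lit 42953245479998322638850)) (.alt (nat_lit 0) (.cov (nat_lit 1337394581440596803585)) (.alt (nat_lit 0) (.exp (.alt (nat_lit 4) (.exp (.alt (nat_lit 12) (.exp (.alt (nat_lit 28) (.exp (.alt (nat_lit 24) (.exp (.alt (nat_lit 29) (.exp (.alt (nat_lit 20) (.cov (nat_lit 6396408516354930376705)) (.alt (nat_lit 20) (.exp (.alt (nat_lit 22) (.cov (nat_lit 22841680860265992683520)) (.alt (nat_lit 16) (.cov (nat_lit 9950986248)) .e))) .e))) .e)) .e)) .e)) .e)) (.alt (nat_lit 4) (.cov (nat_lit 25428837134464570097667)) (.alt (nat_lit 4) (.exp (.alt (nat_lit 12) (.exp (.alt (nat_lit 20) (.cov (nat_lit 25283568629024995409922))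 (.alt (nat_lit 20) (.cov (nat_lit 21520432952326014107649)) (.alt (nat_lit 20) (.exp (.alt (nat_lit 16) (.cov (nat_lit 1383505823120589062147)) (.alt (nat_lit 22) (.exp (.alt (nat_lit 18) (.exp (.alt (nat_lit 30) (.cov (nat_lit 25306627034916444962817)) (.alt (nat_lit 23) (.cov (nat_lit 32505871)) .e))) .e)) (.alt (nat_lit 22) (.exp (.alt (nat_lit 30) (.cov (nat_lit 25306627034927887024130)) (.alt (nat_lit 18) (.cov (nat_lit 631242819)) .e))) .e)))) .e)))) .e)) (.alt (nat_lit 4) (.exp (.alt (nat_lit 20) (.cov (nat_lit 1819310382779897741314)) (.alt (nat_lit 20) (.exp (.alt (nat_lit 21) (.cov (nat_lit 104623014874648098635783)) (.alt (nat_lit 22) (.cov (nat_lit 23238287203652980441088)) .e))) .e))) .e))))) .e))))) .e)) .e)) .e)) .e)) .e)) .e)) .e)) .e)) (.alt (nat_lit 2) (.exp (.alt (nat_lit 3) (.exp (.alt (nat_lit 10) (.exp (.alt (nat_lit 11) (.exp (.alt (nat_lit 15) (.exp (.alt (nat_lit 27) (.exp (.alt (nat_lit 14) (.exp (.alt (nat_lit 12) (.exp (.alt (nat_lit 30) (.exp (.alt (nat_lit 0) (.cov (nat_lit 41625078149663130910731))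 (.alt (nat_lit 0) (.exp (.alt (nat_lit 1) (.exp (.alt (nat_lit 5) (.exp (.alt (nat_lit 17) (.exp (.alt (nat_lit 16) (.cov (nat_lit 21896285233085610459139)) (.alt (nat_lit 16) (.exp (.alt (nat_lit 18) (.exp (.alt (nat_lit 20) (.cov (nat_lit 433498494528290553857)) (.alt (nat_lit 24) (.cov (nat_lit 2915041295)) .e))) .e)) (.alt (nat_lit 16) (.exp (.alt (nat_lit 20) (.cov (nat_lit 433498494528458326018)) (.alt (nat_lit 18) (.cov (nat_lit 11498684483)) .e))) .e)))) .e)) .e)) .e)) (.alt (nat_lit 0) (.cov (nat_lit 405833996922125287425)) (.alt (nat_lit 0) (.exp (.alt (nat_lit 1) (.exp (.alt (nat_lit 5) (.exp (.alt (nat_lit 21) (.exp (.alt (nat_lit 23) (.exp (.alt (nat_lit 29) (.exp (.alt (nat_lit 17) (.cov (nat_lit 2840798596147383894017)) (.alt (nat_lit 17) (.exp (.alt (nat_lit 16) (.cov (nat_lit 189079137750664347648)) (.alt (nat_lit 19) (.cov (nat_lit 11561598984)) .e))) .e))) .e)) .e)) .e)) .e)) (.alt (nat_lit 1) (.cov (nat_lit 39199760132300865539)) (.alt (nat_lit 1) (.exp (.alt (nat_lit 5) (.exp (.alt (nat_lit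 17) (.cov (nat_lit 6550900022161641046018)) (.alt (nat_lit 17) (.cov (nat_lit 2861551321768772239361)) (.alt (nat_lit 17) (.exp (.alt (nat_lit 19) (.cov (nat_lit 1823921837881411239939)) (.alt (nat_lit 16) (.exp (.alt (nat_lit 18) (.exp (.alt (nat_lit 20) (.cov (nat_lit 433498494528290553857)) (.alt (nat_lit 24) (.cov (nat_lit 2915041295)) .e))) .e)) (.alt (nat_lit 16) (.exp (.alt (nat_lit 20) (.cov (nat_lit 433498494528458326018)) (.alt (nat_lit 18) (.cov (nat_lit 11498684483)) .e))) .e)))) .e)))) .e)) (.alt (nat_lit 8) (.cov (nat_lit 1233129354)) .e))))) .e))))) .e)) .e)) .e)) .e)) .e)) .e)) (.alt (nat_lit 10) (.exp (.alt (nat_lit 11) (.exp (.alt (nat_lit 15) (.exp (.alt (nat_lit 27) (.exp (.alt (nat_lit 19) (.exp (.alt (nat_lit 18) (.exp (.alt (nat_lit 17) (.exp (.alt (nat_lit 0) (.cov (nat_lit 103310990433301330657291)) (.alt (nat_lit 0) (.cov (nat_lit 2840800491708300132354)) (.alt (nat_lit 0) (.cov (nat_lit 21582696202336783564801)) (.alt (nat_lit 0) (.exp (.alt (nat_lit 16) (.exp (.alt (nat_lit 24)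 (.exp (.alt (nat_lit 28) (.exp (.alt (nat_lit 30) (.exp (.alt (nat_lit 12) (.exp (.alt (nat_lit 20) (.cov (nat_lit 365367742347733563867137)) (.alt (nat_lit 20) (.exp (.alt (nat_lit 21) (.cov (nat_lit 2635578570526373707776)) (.alt (nat_lit 22) (.cov (nat_lit 12137267208)) .e))) .e))) .e)) .e)) .e)) .e)) (.alt (nat_lit 16) (.cov (nat_lit 10228720017847030382595)) (.alt (nat_lit 8) (.cov (nat_lit 345350722617424790683648)) (.alt (nat_lit 1) (.cov (nat_lit 1414533002)) .e))))) .e))))) .e)) .e)) .e)) .e)) .e)) .e)) .e))) .e)) .e))) .e))) .e))]),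
   ([14, 8, 1], [.cov (nat_lit 30423614430880978556611507269251), .cov (nat_lit 30423614413245891734517594467971), .cov (nat_lit 30423614811031480429817037331453), .cov (nat_lit 30423614430880978556611507269251), .cov (nat_lit 30423614413245891734517594467971), .cov (nat_lit 30423614811031480429816768901604), .cov (nat_lit 30423614430880978556611507269251), .cov (nat_lit 30423614413245891734517594467971), .cov (nat_lit 30423614811031480429816768901873), .cov (nat_lit 30423614430880978556611507269251), .cov (nat_lit 30423614413245891734517594467971), .cov (nat_lit 30423614811031480429816768901874), .cov (nat_lit 30423614430880978556611507269251), .cov (nat_lit 30423614413245891734517594467971), .rot (.rot (.exp (.alt (nat_lit 6) (.rot (.exp (.alt (nat_lit 9) (.cov (nat_lit 48028803447630600638676097964179458)) (.alt (nat_lit 9) (.cov (nat_lit 61009545593968038644894808092442625)) (.alt (nat_lit 9) (.cov (nat_lit 63018885182517506630868795392)) (.alt (nat_lit 9) (.cov (nat_lit 27991367314571358)) .e)))))) .e)))]),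
   ([14, 1, 8], [.cov (nat_lit 1003980348906906256363190543724163), .cov (nat_lit 894565818974103762334617684026601091), .cov (nat_lit 16743130206176305783804762899094525), .cov (nat_lit 1003980348906906256363190543724163), .cov (nat_lit 894565818974103762334617684026601091), .cov (nat_lit 16743130206176305783804763503079908), .cov (nat_lit 1003980348906906256363190543724163), .cov (nat_lit 894565818974103762334617684026601091), .cov (nat_lit 16743130206176305783804763503080177), .cov (nat_lit 1003980348906906256363190543724163), .cov (nat_lit 894565818974103762334617684026601091), .cov (nat_lit 16743130206176305783804763503080178), .cov (nat_lit 1003980348906906256363190543724163), .cov (nat_lit 894565818974103762334617684026601091), .rot (.exp (.alt (nat_lit 9) (.exp (.alt (nat_lit 6) (.cov (nat_lit 486835336672849134845789426679810)) (.alt (nat_lit 6) (.cov (nat_lit 1135872443994277380953376579125249)) (.alt (nat_lit 6) (.cov (nat_lit 3894285662786886617185834181328896)) (.alt (nat_lit 6) (.cov (nat_lit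 1770915422443159945310)) .e))))) .e))]),
   ([15, 7, 1], [.cov (nat_lit 30423614406088554240080456200706), .cov (nat_lit 30423614406088554246677525967362), .cov (nat_lit 30423614432135356749003544864519), .cov (nat_lit 30423614406088554240080456200706), .cov (nat_lit 30423614406088554246677525967362), .cov (nat_lit 30423614432135356749003444203368), .cov (nat_lit 30423614406088554240080456200706), .cov (nat_lit 30423614406088554246677525967362), .cov (nat_lit 30423614432135356749003544865578), .cov (nat_lit 30423614406088554240080456200706), .cov (nat_lit 30423614406088554246677525967362), .cov (nat_lit 30423614432135356749003544865579), .cov (nat_lit 30423614406088554240080456200706), .cov (nat_lit 30423614406088554246677525967362), .cov (nat_lit 30423614432135356749003544865580), .cov (nat_lit 30423614406088554240080456200706), .cov (nat_lit 30423614406088554246677525967362), .rot (.rot (.exp (.alt (nat_lit 6) (.rot (.exp (.alt (nat_lit 9) (.exp (.alt (nat_lit 1) (.exp (.alt (nat_lit 3) (.exp (.alt (nat_lit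 5) (.exp (.alt (nat_lit 11) (.exp (.alt (nat_lit 10) (.exp (.alt (nat_lit 15) (.exp (.alt (nat_lit 0) (.cov (nat_lit 364009602710864905895955)) (.alt (nat_lit 0) (.cov (nat_lit 26729337807697854070795)) (.alt (nat_lit 0) (.cov (nat_lit 36905431063364370434)) (.alt (nat_lit 0) (.cov (nat_lit 36908929689331957761)) (.alt (nat_lit 0) (.exp (.alt (nat_lit 16) (.cov (nat_lit 23215228201817744605218)) (.alt (nat_lit 4) (.cov (nat_lit 119907277960854372359)) (.alt (nat_lit 4) (.cov (nat_lit 46125592526270234627)) (.alt (nat_lit 4) (.cov (nat_lit 46132301725586948096)) (.alt (nat_lit 2) (.cov (nat_lit 11628717740)) .e)))))) .e)))))) .e)) .e)) .e)) .e)) .e)) .e)) (.alt (nat_lit 9) (.exp (.alt (nat_lit 1) (.exp (.alt (nat_lit 3) (.exp (.alt (nat_lit 5) (.exp (.alt (nat_lit 7) (.exp (.alt (nat_lit 15) (.exp (.alt (nat_lit 23) (.exp (.alt (nat_lit 0) (.cov (nat_lit 344077895739378132582421)) (.alt (nat_lit 0) (.cov (nat_lit 6650056874671799795723)) (.alt (nat_lit 0) (.cov (nat_lit 21508915530642327863298)) (.alt (nat_lit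 0) (.cov (nat_lit 5128213192345248595969)) (.alt (nat_lit 0) (.exp (.alt (nat_lit 8) (.cov (nat_lit 396606360990674583586)) (.alt (nat_lit 4) (.cov (nat_lit 21887065285112776097799)) (.alt (nat_lit 4) (.cov (nat_lit 21591922679578328301571)) (.alt (nat_lit 4) (.exp (.alt (nat_lit 12) (.exp (.alt (nat_lit 20) (.cov (nat_lit 406852164060640429735947)) (.alt (nat_lit 20) (.exp (.alt (nat_lit 28) (.exp (.alt (nat_lit 29) (.exp (.alt (nat_lit 30) (.exp (.alt (nat_lit 16) (.cov (nat_lit 63129369923856192503811)) (.alt (nat_lit 16) (.exp (.alt (nat_lit 17) (.exp (.alt (nat_lit 24) (.cov (nat_lit 6405631888391776763905)) (.alt (nat_lit 24) (.exp (.alt (nat_lit 26) (.cov (nat_lit 21534267874041814581248)) (.alt (nat_lit 8) (.cov (nat_lit 157045227528)) .e))) .e))) .e)) (.alt (nat_lit 22) (.cov (nat_lit 156583854275)) .e)))) .e)) .e)) .e)) (.alt (nat_lit 20) (.cov (nat_lit 347647344453624923160577)) (.alt (nat_lit 20) (.exp (.alt (nat_lit 28) (.exp (.alt (nat_lit 29) (.exp (.alt (nat_lit 25) (.exp (.alt (nat_lit 17)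 (.exp (.alt (nat_lit 24) (.exp (.alt (nat_lit 30) (.cov (nat_lit 6405631888392353480705)) (.alt (nat_lit 30) (.exp (.alt (nat_lit 26) (.cov (nat_lit 6387185146517059010560)) (.alt (nat_lit 14) (.cov (nat_lit 157045227528)) .e))) .e))) .e)) .e)) .e)) .e)) (.alt (nat_lit 22) (.cov (nat_lit 344331536994690517696515)) (.alt (nat_lit 22) (.exp (.alt (nat_lit 30) (.exp (.alt (nat_lit 18) (.cov (nat_lit 1667124528830721556482)) (.alt (nat_lit 18) (.cov (nat_lit 797821824124503195649)) (.alt (nat_lit 18) (.exp (.alt (nat_lit 19) (.cov (nat_lit 1441151898397178855427)) (.alt (nat_lit 26) (.exp (.alt (nat_lit 10) (.exp (.alt (nat_lit 27) (.cov (nat_lit 6403326045382587187201)) (.alt (nat_lit 27) (.exp (.alt (nat_lit 25) (.cov (nat_lit 6384879303507865239552)) (.alt (nat_lit 31) (.cov (nat_lit 9962520584)) .e))) .e))) .e)) (.alt (nat_lit 19) (.cov (nat_lit 10933502569)) .e)))) .e)))) .e)) (.alt (nat_lit 21) (.cov (nat_lit 174714785674)) .e))))) .e))))) .e)) (.alt (nat_lit 4) (.cov (nat_lit 3569362605)) .e)))))) .e))))))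 .e)) .e)) .e)) .e)) .e)) .e)) .e)))) .e)))]),
   ([15, 4, 4], [.cov (nat_lit 30423643420086863868772491473680), .cov (nat_lit 30423648255790142327335528968984), .cov (nat_lit 841720027567555633378466344219416), .cov (nat_lit 1328497862889128114580640889841415), .cov (nat_lit 841720027566153680826662979121001), .cov (nat_lit 30423648255790142327335528968984), .cov (nat_lit 841720027567555633378466344219416), .cov (nat_lit 1328497862889128114580637937053544), .cov (nat_lit 841720027566153680826665327930154), .cov (nat_lit 30423648255790142327335528968984), .cov (nat_lit 841720027567555633378466344219416), .cov (nat_lit 1328497862889128114580640889842474), .cov (nat_lit 841720027566153680826665327930155), .cov (nat_lit 30423648255790142327335528968984), .cov (nat_lit 841720027567555633378466344219416), .cov (nat_lit 1328497862889128114580640889842475), .cov (nat_lit 841720027566153680826662375141227), .cov (nat_lit 30423648255790142327335528968984), .cov (nat_lit 841720027567555633378466344219416), .cov (nat_lit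 1328497862889128114580640889842476), .cov (nat_lit 841720027566153680826662375139080), .cov (nat_lit 30423648255790142327335528968984), .cov (nat_lit 841720027567555633378466344219416), .rot (.exp (.alt (nat_lit 9) (.exp (.alt (nat_lit 1) (.exp (.alt (nat_lit 3) (.exp (.alt (nat_lit 5) (.exp (.alt (nat_lit 6) (.exp (.alt (nat_lit 7) (.exp (.alt (nat_lit 15) (.exp (.alt (nat_lit 23) (.exp (.alt (nat_lit 0) (.cov (nat_lit 344077895739378132582421)) (.alt (nat_lit 0) (.cov (nat_lit 6650056874671799795723)) (.alt (nat_lit 0) (.cov (nat_lit 21508915530642327863298)) (.alt (nat_lit 0) (.cov (nat_lit 5128213192345248595969)) (.alt (nat_lit 0) (.exp (.alt (nat_lit 8) (.cov (nat_lit 396606360990674583586)) (.alt (nat_lit 4) (.cov (nat_lit 21887065285112776097799)) (.alt (nat_lit 4) (.cov (nat_lit 21591922679578328301571)) (.alt (nat_lit 4) (.exp (.alt (nat_lit 12) (.exp (.alt (nat_lit 20) (.cov (nat_lit 406852164060640429735947)) (.alt (nat_lit 20) (.exp (.alt (nat_lit 28) (.exp (.alt (nat_lit 29) (.exp (.alt (nat_lit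 30) (.exp (.alt (nat_lit 16) (.cov (nat_lit 63129369923856192503811)) (.alt (nat_lit 16) (.exp (.alt (nat_lit 17) (.exp (.alt (nat_lit 24) (.cov (nat_lit 6405631888391776763905)) (.alt (nat_lit 24) (.exp (.alt (nat_lit 26) (.cov (nat_lit 21534267874041814581248)) (.alt (nat_lit 8) (.cov (nat_lit 157045227528)) .e))) .e))) .e)) (.alt (nat_lit 22) (.cov (nat_lit 156583854275)) .e)))) .e)) .e)) .e)) (.alt (nat_lit 20) (.cov (nat_lit 347647344453624923160577)) (.alt (nat_lit 20) (.exp (.alt (nat_lit 28) (.exp (.alt (nat_lit 29) (.exp (.alt (nat_lit 25) (.exp (.alt (nat_lit 17) (.exp (.alt (nat_lit 24) (.exp (.alt (nat_lit 30) (.cov (nat_lit 6405631888392353480705)) (.alt (nat_lit 30) (.exp (.alt (nat_lit 26) (.cov (nat_lit 6387185146517059010560)) (.alt (nat_lit 14) (.cov (nat_lit 157045227528)) .e))) .e))) .e)) .e)) .e)) .e)) (.alt (nat_lit 22) (.cov (nat_lit 344331536994690517696515)) (.alt (nat_lit 22) (.exp (.alt (nat_lit 30) (.exp (.alt (nat_lit 18) (.cov (nat_lit 1667124528830721556482)) (.alt (nat_lit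 18) (.cov (nat_lit 797821824124503195649)) (.alt (nat_lit 18) (.exp (.alt (nat_lit 19) (.cov (nat_lit 1441151898397178855427)) (.alt (nat_lit 26) (.exp (.alt (nat_lit 10) (.exp (.alt (nat_lit 27) (.cov (nat_lit 6403326045382587187201)) (.alt (nat_lit 27) (.exp (.alt (nat_lit 25) (.cov (nat_lit 6384879303507865239552)) (.alt (nat_lit 31) (.cov (nat_lit 9962520584)) .e))) .e))) .e)) (.alt (nat_lit 19) (.cov (nat_lit 10933502569)) .e)))) .e)))) .e)) (.alt (nat_lit 21) (.cov (nat_lit 174714785674)) .e))))) .e))))) .e)) (.alt (nat_lit 4) (.cov (nat_lit 3569362605)) .e)))))) .e)))))) .e)) .e)) .e)) .e)) .e)) .e)) .e)) .e))]),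
   ([15, 1, 7], [.cov (nat_lit 30424068961606433323573556818434), .cov (nat_lit 30424083468716268699123653292546), .cov (nat_lit 229951819065157558765512678967355143), .cov (nat_lit 30424068961606433323573556818434), .cov (nat_lit 30424083468716268699123653292546), .cov (nat_lit 229951819065157558765512690409418600), .cov (nat_lit 30424068961606433323573556818434), .cov (nat_lit 30424083468716268699123653292546), .cov (nat_lit 229951819065157558765512678967356202), .cov (nat_lit 30424068961606433323573556818434), .cov (nat_lit 30424083468716268699123653292546), .cov (nat_lit 229951819065157558765512678967356203), .cov (nat_lit 30424068961606433323573556818434), .cov (nat_lit 30424083468716268699123653292546), .cov (nat_lit 229951819065157558765512678967356204), .cov (nat_lit 30424068961606433323573556818434), .cov (nat_lit 30424083468716268699123653292546), .rot (.exp (.alt (nat_lit 9) (.exp (.alt (nat_lit 6) (.exp (.alt (nat_lit 2) (.exp (.alt (nat_lit 3) (.exp (.alt (nat_lit 10) (.exp (.alt (nat_lit 7)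 (.exp (.alt (nat_lit 5) (.exp (.alt (nat_lit 15) (.exp (.alt (nat_lit 0) (.cov (nat_lit 42953245479998322638867)) (.alt (nat_lit 0) (.cov (nat_lit 104639161403010950627339)) (.alt (nat_lit 0) (.cov (nat_lit 627201241567557844994)) (.alt (nat_lit 0) (.cov (nat_lit 36908929698488123393)) (.alt (nat_lit 0) (.exp (.alt (nat_lit 16) (.cov (nat_lit 48016875608918021111842)) (.alt (nat_lit 8) (.cov (nat_lit 645639484070837616647)) (.alt (nat_lit 8) (.cov (nat_lit 55348964708617027587)) (.alt (nat_lit 8) (.cov (nat_lit 55355673762441723904)) (.alt (nat_lit 1) (.cov (nat_lit 3037734572)) .e)))))) .e)))))) .e)) .e)) .e)) .e)) .e)) .e)) (.alt (nat_lit 6) (.exp (.alt (nat_lit 2) (.exp (.alt (nat_lit 3) (.exp (.alt (nat_lit 10) (.exp (.alt (nat_lit 11) (.exp (.alt (nat_lit 15) (.exp (.alt (nat_lit 27) (.exp (.alt (nat_lit 0) (.cov (nat_lit 2896140723927964975125)) (.alt (nat_lit 0) (.cov (nat_lit 404518656428473545916427)) (.alt (nat_lit 0) (.cov (nat_lit 1365071002153674342402)) (.alt (nat_lit 0) (.cov (nat_lit 384171910418929077452801))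 (.alt (nat_lit 0) (.exp (.alt (nat_lit 4) (.cov (nat_lit 25262817372339838124066)) (.alt (nat_lit 8) (.cov (nat_lit 276704602580574011399)) (.alt (nat_lit 8) (.cov (nat_lit 41671203603673736282115)) (.alt (nat_lit 8) (.exp (.alt (nat_lit 12) (.exp (.alt (nat_lit 24) (.cov (nat_lit 7812196258152691269643)) (.alt (nat_lit 24) (.exp (.alt (nat_lit 28) (.exp (.alt (nat_lit 30) (.exp (.alt (nat_lit 29) (.exp (.alt (nat_lit 16) (.cov (nat_lit 45418189770074502463491)) (.alt (nat_lit 16) (.exp (.alt (nat_lit 18) (.exp (.alt (nat_lit 20) (.cov (nat_lit 1597949214181187125249)) (.alt (nat_lit 20) (.exp (.alt (nat_lit 21) (.cov (nat_lit 200608352796712894464)) (.alt (nat_lit 4) (.cov (nat_lit 1750073352)) .e))) .e))) .e)) (.alt (nat_lit 25) (.cov (nat_lit 10017046723)) .e)))) .e)) .e)) .e)) (.alt (nat_lit 24) (.cov (nat_lit 365356218764386059157505)) (.alt (nat_lit 24) (.exp (.alt (nat_lit 28) (.exp (.alt (nat_lit 30) (.exp (.alt (nat_lit 22) (.exp (.alt (nat_lit 18) (.exp (.alt (nat_lit 20) (.exp (.alt (nat_lit 29)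 (.cov (nat_lit 1597949214190960902145)) (.alt (nat_lit 29) (.exp (.alt (nat_lit 21) (.cov (nat_lit 1588725844343356653568)) (.alt (nat_lit 13) (.cov (nat_lit 1750073352)) .e))) .e))) .e)) .e)) .e)) .e)) (.alt (nat_lit 25) (.cov (nat_lit 22027718695827983564803)) (.alt (nat_lit 25) (.exp (.alt (nat_lit 29) (.exp (.alt (nat_lit 17) (.cov (nat_lit 6537064964152598986754)) (.alt (nat_lit 17) (.cov (nat_lit 10231025574817691598849)) (.alt (nat_lit 17) (.exp (.alt (nat_lit 19) (.cov (nat_lit 2992984243735429644291)) (.alt (nat_lit 21) (.exp (.alt (nat_lit 5) (.exp (.alt (nat_lit 23) (.cov (nat_lit 1600255057190429130753)) (.alt (nat_lit 23) (.exp (.alt (nat_lit 22) (.cov (nat_lit 1591031687352596561920)) (.alt (nat_lit 31) (.cov (nat_lit 132120584)) .e))) .e))) .e)) (.alt (nat_lit 19) (.cov (nat_lit 37269537385)) .e)))) .e)))) .e)) (.alt (nat_lit 26) (.cov (nat_lit 10936651658)) .e))))) .e))))) .e)) (.alt (nat_lit 8) (.cov (nat_lit 185031730861)) .e)))))) .e)))))) .e)) .e)) .e)) .e)) .e)) .e)) .e))) .e))]),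
   ([18, 4, 1], [.cov (nat_lit 30423614405867193117691256781094), .cov (nat_lit 30423614405498258238580908373743), .cov (nat_lit 30423614405867193117691256781094), .cov (nat_lit 30423614405498258238397063641174), .cov (nat_lit 30423614405867193117691256781094), .cov (nat_lit 30423614405498258238396962978284), .cov (nat_lit 30423614405867193117691256781094), .cov (nat_lit 30423614405498258238396962978103), .cov (nat_lit 30423614405867193117691256781094), .cov (nat_lit 30423614405498258238396962978359), .cov (nat_lit 30423614405867193117691256781094), .rot (.rot (.exp (.alt (nat_lit 6) (.rot (.exp (.alt (nat_lit 9) (.exp (.alt (nat_lit 1) (.exp (.alt (nat_lit 3) (.exp (.alt (nat_lit 5) (.exp (.alt (nat_lit 0) (.cov (nat_lit 22006971309437998858699)) (.alt (nat_lit 0) (.cov (nat_lit 6576269946752755302625)) (.alt (nat_lit 0) (.cov (nat_lit 406806055794236421308510)) (.alt (nat_lit 0) (.cov (nat_lit 406806059000412093022243)) (.alt (nat_lit 0) (.cov (nat_lit 36908929689432621072)) (.alt (nat_lit 0) (.cov (nat_lit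 406806059000412764110867)) (.alt (nat_lit 0) (.cov (nat_lit 36908929688761532427)) (.alt (nat_lit 0) (.cov (nat_lit 1955376657536647168006)) (.alt (nat_lit 0) (.cov (nat_lit 6502503469753233833987)) (.alt (nat_lit 0) (.cov (nat_lit 36915401414873710594)) (.alt (nat_lit 0) (.cov (nat_lit 451971917152155336705)) (.alt (nat_lit 0) (.cov (nat_lit 347767273013722436599808)) (.alt (nat_lit 0) (.exp (.alt (nat_lit 2) (.exp (.alt (nat_lit 10) (.cov (nat_lit 91275030935872878680021867167746)) (.alt (nat_lit 10) (.cov (nat_lit 102639140235600475547589514966859777)) (.alt (nat_lit 10) (.cov (nat_lit 102639140235625932054431025320689664)) (.alt (nat_lit 10) (.cov (nat_lit 384324080640185482608734)) .e))))) (.alt (nat_lit 2) (.cov (nat_lit 350142264390754752266278)) (.alt (nat_lit 2) (.cov (nat_lit 350142264390571108860001)) (.alt (nat_lit 2) (.cov (nat_lit 45402057583739705229346)) (.alt (nat_lit 2) (.cov (nat_lit 45402057583739034140707)) (.alt (nat_lit 2) (.cov (nat_lit 1646383858071671668751)) (.alt (nat_lit 2) (.cov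 (nat_lit 1351239469129833381895)) (.alt (nat_lit 2) (.cov (nat_lit 41520615707191017478)) (.alt (nat_lit 2) (.cov (nat_lit 6682354811032230166531)) (.alt (nat_lit 2) (.cov (nat_lit 6682354811032230166530)) (.alt (nat_lit 2) (.cov (nat_lit 22030050271807347359745)) (.alt (nat_lit 2) (.cov (nat_lit 6534788838697243508736)) (.alt (nat_lit 2) (.cov (nat_lit 156541924614)) .e)))))))))))))) .e)))))))))))))) .e)) .e)) .e)) .e))) .e))), .cov (nat_lit 30423614405867193117691256781094), .rot (.rot (.exp (.alt (nat_lit 6) (.rot (.exp (.alt (nat_lit 9) (.exp (.alt (nat_lit 11) (.exp (.alt (nat_lit 3) (.exp (.alt (nat_lit 15) (.exp (.alt (nat_lit 0) (.cov (nat_lit 1494191934654564532449)) (.alt (nat_lit 0) (.exp (.alt (nat_lit 1) (.exp (.alt (nat_lit 5) (.exp (.alt (nat_lit 17) (.exp (.alt (nat_lit 19) (.exp (.alt (nat_lit 27) (.exp (.alt (nat_lit 18) (.exp (.alt (nat_lit 4) (.cov (nat_lit 406815270570291374325767)) (.alt (nat_lit 4) (.cov (nat_lit 3864593312251706867715)) (.alt (nat_lit 8) (.exp (.alt (nat_lit 12) (.exp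 (.alt (nat_lit 24) (.cov (nat_lit 6410243598620081258498)) (.alt (nat_lit 24) (.cov (nat_lit 8914389348498077122561)) (.alt (nat_lit 10) (.cov (nat_lit 94372706)) .e)))) .e)) (.alt (nat_lit 4) (.exp (.alt (nat_lit 12) (.cov (nat_lit 548790902274870214658)) (.alt (nat_lit 12) (.exp (.alt (nat_lit 28) (.cov (nat_lit 26544864739660520226823)) (.alt (nat_lit 14) (.cov (nat_lit 1840063150162073092096)) .e))) .e))) .e))))) .e)) .e)) .e)) .e)) .e)) .e)) (.alt (nat_lit 0) (.cov (nat_lit 18462201008223158283)) (.alt (nat_lit 0) (.exp (.alt (nat_lit 1) (.exp (.alt (nat_lit 5) (.exp (.alt (nat_lit 17) (.exp (.alt (nat_lit 16) (.cov (nat_lit 21970073548585714057250)) (.alt (nat_lit 2) (.cov (nat_lit 3859984638895741468679)) (.alt (nat_lit 2) (.cov (nat_lit 344313098569521905532931)) (.alt (nat_lit 2) (.exp (.alt (nat_lit 10) (.exp (.alt (nat_lit 18) (.cov (nat_lit 26687827131576000446475)) (.alt (nat_lit 18) (.exp (.alt (nat_lit 22) (.exp (.alt (nat_lit 23) (.exp (.alt (nat_lit 20) (.exp (.alt (nat_lit 26) (.cov (nat_lit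 347665785574796838305795)) (.alt (nat_lit 26) (.exp (.alt (nat_lit 27) (.exp (.alt (nat_lit 30) (.cov (nat_lit 433498494528315719681)) (.alt (nat_lit 30) (.exp (.alt (nat_lit 28) (.cov (nat_lit 1395035031569413701632)) (.alt (nat_lit 14) (.cov (nat_lit 10347347976)) .e))) .e))) .e)) (.alt (nat_lit 16) (.cov (nat_lit 10024386755)) .e)))) .e)) .e)) .e)) (.alt (nat_lit 18) (.cov (nat_lit 63147822290820929683457)) (.alt (nat_lit 18) (.exp (.alt (nat_lit 22) (.exp (.alt (nat_lit 23) (.exp (.alt (nat_lit 31) (.exp (.alt (nat_lit 27) (.exp (.alt (nat_lit 30) (.exp (.alt (nat_lit 20) (.cov (nat_lit 433498494538036019201)) (.alt (nat_lit 20) (.exp (.alt (nat_lit 28) (.cov (nat_lit 424275124690448547840)) (.alt (nat_lit 4) (.cov (nat_lit 10347347976)) .e))) .e))) .e)) .e)) .e)) .e)) (.alt (nat_lit 16) (.cov (nat_lit 22043859596892503539715)) (.alt (nat_lit 16) (.exp (.alt (nat_lit 20) (.exp (.alt (nat_lit 24) (.cov (nat_lit 25440365953823908298754)) (.alt (nat_lit 24) (.cov (nat_lit 10247166475882227302401)) (.alt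 (nat_lit 24) (.exp (.alt (nat_lit 25) (.cov (nat_lit 21903202762159501082627)) (.alt (nat_lit 28) (.exp (.alt (nat_lit 12) (.exp (.alt (nat_lit 29) (.cov (nat_lit 440416023555964141569)) (.alt (nat_lit 29) (.exp (.alt (nat_lit 31) (.cov (nat_lit 431192653718101164032)) (.alt (nat_lit 21) (.cov (nat_lit 661651464)) .e))) .e))) .e)) (.alt (nat_lit 25) (.cov (nat_lit 174714782313)) .e)))) .e)))) .e)) (.alt (nat_lit 19) (.cov (nat_lit 10929311626)) .e))))) .e))))) .e)) (.alt (nat_lit 2) (.cov (nat_lit 3567265453)) .e)))))) .e)) .e)) .e)) (.alt (nat_lit 0) (.cov (nat_lit 21951653597411064938497)) (.alt (nat_lit 0) (.exp (.alt (nat_lit 4) (.cov (nat_lit 3864596324960543178790)) (.alt (nat_lit 1) (.cov (nat_lit 24019977787025600282658)) (.alt (nat_lit 1) (.exp (.alt (nat_lit 5) (.exp (.alt (nat_lit 4) (.exp (.alt (nat_lit 12) (.exp (.alt (nat_lit 20) (.exp (.alt (nat_lit 17) (.cov (nat_lit 102238773423020513951755)) (.alt (nat_lit 17) (.exp (.alt (nat_lit 19) (.exp (.alt (nat_lit 27) (.exp (.alt (nat_lit 23) (.exp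 (.alt (nat_lit 16) (.cov (nat_lit 63276943876434568413187)) (.alt (nat_lit 25) (.exp (.alt (nat_lit 29) (.exp (.alt (nat_lit 24) (.cov (nat_lit 2863857026239542853633)) (.alt (nat_lit 24) (.exp (.alt (nat_lit 26) (.cov (nat_lit 21734876215843405955072)) (.alt (nat_lit 8) (.cov (nat_lit 174761967624)) .e))) .e))) .e)) (.alt (nat_lit 16) (.cov (nat_lit 260047465)) .e)))) .e)) .e)) .e)) (.alt (nat_lit 17) (.cov (nat_lit 57646589801804070913)) (.alt (nat_lit 17) (.exp (.alt (nat_lit 19) (.exp (.alt (nat_lit 27) (.exp (.alt (nat_lit 25) (.exp (.alt (nat_lit 24) (.exp (.alt (nat_lit 29) (.exp (.alt (nat_lit 18) (.cov (nat_lit 45438942348361169108993)) (.alt (nat_lit 23) (.cov (nat_lit 158165106703)) .e))) .e)) .e)) .e)) .e)) (.alt (nat_lit 16) (.cov (nat_lit 1973802044696643502083)) (.alt (nat_lit 16) (.exp (.alt (nat_lit 18) (.exp (.alt (nat_lit 24) (.cov (nat_lit 654859447648470958082)) (.alt (nat_lit 24) (.cov (nat_lit 104689884447256673779713)) (.alt (nat_lit 24) (.exp (.alt (nat_lit 25) (.cov (nat_lit 104618403188627899154435))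 (.alt (nat_lit 26) (.exp (.alt (nat_lit 10) (.exp (.alt (nat_lit 27) (.cov (nat_lit 71481142082341437441)) (.alt (nat_lit 27) (.exp (.alt (nat_lit 31) (.cov (nat_lit 66869458262337519616)) (.alt (nat_lit 19) (.cov (nat_lit 9788456968)) .e))) .e))) .e)) (.alt (nat_lit 25) (.cov (nat_lit 19556991593)) .e)))) .e)))) .e)) (.alt (nat_lit 16) (.cov (nat_lit 184434036617)) .e))))) .e))))) .e)) .e)) .e)) .e)) (.alt (nat_lit 1) (.cov (nat_lit 777090864438135750659)) (.alt (nat_lit 1) (.exp (.alt (nat_lit 5) (.exp (.alt (nat_lit 17) (.cov (nat_lit 795517742533053513746)) (.alt (nat_lit 17) (.cov (nat_lit 795519279650309144587)) (.alt (nat_lit 17) (.exp (.alt (nat_lit 16) (.exp (.alt (nat_lit 18) (.exp (.alt (nat_lit 20) (.exp (.alt (nat_lit 25) (.cov (nat_lit 406842940686413222379527)) (.alt (nat_lit 25) (.cov (nat_lit 406842940974485201747971)) (.alt (nat_lit 19) (.cov (nat_lit 800130965668570857472)) (.alt (nat_lit 19) (.cov (nat_lit 183940158423)) .e))))) .e)) .e)) .e)) (.alt (nat_lit 17) (.cov (nat_lit 103338669574201996738561))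 (.alt (nat_lit 17) (.exp (.alt (nat_lit 16) (.cov (nat_lit 21970073548585714057250)) (.alt (nat_lit 16) (.cov (nat_lit 21882453598911120539655)) (.alt (nat_lit 16) (.cov (nat_lit 41657368571960339988483)) (.alt (nat_lit 16) (.exp (.alt (nat_lit 18) (.exp (.alt (nat_lit 20) (.cov (nat_lit 45651080162494556143627)) (.alt (nat_lit 20) (.exp (.alt (nat_lit 21) (.exp (.alt (nat_lit 23) (.exp (.alt (nat_lit 29) (.exp (.alt (nat_lit 28) (.cov (nat_lit 406815270447145807773699)) (.alt (nat_lit 28) (.exp (.alt (nat_lit 24) (.exp (.alt (nat_lit 30) (.cov (nat_lit 1581808313116714336257)) (.alt (nat_lit 12) (.cov (nat_lit 165538693135)) .e))) .e)) (.alt (nat_lit 22) (.cov (nat_lit 21808283843)) .e)))) .e)) .e)) .e)) (.alt (nat_lit 20) (.cov (nat_lit 10173387281930653794305)) (.alt (nat_lit 20) (.exp (.alt (nat_lit 22) (.cov (nat_lit 406856775744457056190471)) (.alt (nat_lit 22) (.cov (nat_lit 47956923334447441379331)) (.alt (nat_lit 21) (.cov (nat_lit 804742651686998245376)) (.alt (nat_lit 4) (.cov (nat_lit 10380906375))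 .e))))) .e))))) .e)) (.alt (nat_lit 16) (.cov (nat_lit 320874941)) .e)))))) .e)))))) .e)) (.alt (nat_lit 1) (.exp (.alt (nat_lit 5) (.cov (nat_lit 747098771082567483412)) (.alt (nat_lit 17) (.cov (nat_lit 8891339916855500341250)) (.alt (nat_lit 17) (.exp (.alt (nat_lit 16) (.cov (nat_lit 21970073548588901728294)) (.alt (nat_lit 16) (.cov (nat_lit 102093507345349651464199)) (.alt (nat_lit 16) (.exp (.alt (nat_lit 18) (.exp (.alt (nat_lit 20) (.cov (nat_lit 25244369530953364668436)) (.alt (nat_lit 20) (.cov (nat_lit 2928426266596978196482)) (.alt (nat_lit 20) (.exp (.alt (nat_lit 22) (.cov (nat_lit 47956923334448078913543)) (.alt (nat_lit 4) (.cov (nat_lit 22827854532333016186880)) .e))) .e)))) .e)) .e)))) .e)))) .e))))))) .e))))))) .e)) .e)) .e)) .e))) .e)))]),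
   ([18, 1, 4], [.cov (nat_lit 841720027565784745932004043798822), .cov (nat_lit 3924646292156541928830495958775535), .cov (nat_lit 841720027565784745932004043798822), .cov (nat_lit 3924646292156541928830502870988886), .cov (nat_lit 841720027565784745932004043798822), .cov (nat_lit 3924646292156541928830493744183788), .cov (nat_lit 841720027565784745932004043798822), .cov (nat_lit 3924646292156541928830493744183607), .cov (nat_lit 841720027565784745932004043798822), .cov (nat_lit 3924646292156541928830493744183863), .cov (nat_lit 841720027565784745932004043798822), .rot (.exp (.alt (nat_lit 9) (.exp (.alt (nat_lit 6) (.exp (.alt (nat_lit 2) (.exp (.alt (nat_lit 3) (.exp (.alt (nat_lit 10) (.exp (.alt (nat_lit 0) (.cov (nat_lit 42067805489594921648587)) (.alt (nat_lit 0) (.cov (nat_lit 404444869500568527175905)) (.alt (nat_lit 0) (.cov (nat_lit 7756864619714277539934)) (.alt (nat_lit 0) (.cov (nat_lit 7756867825890452570147)) (.alt (nat_lit 0) (.cov (nat_lit 36908929691609464848)) (.alt (nat_lit 0) (.cov (nat_lit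 7756867825893069815827)) (.alt (nat_lit 0) (.cov (nat_lit 36908929688992219147)) (.alt (nat_lit 0) (.cov (nat_lit 774785036819466551302)) (.alt (nat_lit 0) (.cov (nat_lit 1641786406332943826947)) (.alt (nat_lit 0) (.cov (nat_lit 36915401417050554370)) (.alt (nat_lit 0) (.cov (nat_lit 6511727345365705293825)) (.alt (nat_lit 0) (.cov (nat_lit 365485370696520459878400)) (.alt (nat_lit 0) (.exp (.alt (nat_lit 1) (.exp (.alt (nat_lit 5) (.cov (nat_lit 3980427072436078376628900263362562)) (.alt (nat_lit 5) (.cov (nat_lit 50548841771022577960906004615921665)) (.alt (nat_lit 5) (.cov (nat_lit 50548841771124256414260082867437568)) (.alt (nat_lit 5) (.cov (nat_lit 384321774797176267866206)) .e))))) (.alt (nat_lit 1) (.cov (nat_lit 4217390305326245347366)) (.alt (nat_lit 1) (.cov (nat_lit 23106856236801839857761)) (.alt (nat_lit 1) (.cov (nat_lit 365330857583114279976994)) (.alt (nat_lit 1) (.cov (nat_lit 365330857583111662731299)) (.alt (nat_lit 1) (.cov (nat_lit 6504795078487104815119)) (.alt (nat_lit 1) (.cov (nat_lit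 2594088851096248254471)) (.alt (nat_lit 1) (.cov (nat_lit 39214772698206961670)) (.alt (nat_lit 1) (.cov (nat_lit 25569514899503773122563)) (.alt (nat_lit 1) (.cov (nat_lit 6680048968025192267778)) (.alt (nat_lit 1) (.cov (nat_lit 3138278497319514013697)) (.alt (nat_lit 1) (.cov (nat_lit 6532482995688024571904)) (.alt (nat_lit 1) (.cov (nat_lit 9970922758)) .e)))))))))))))) .e)))))))))))))) .e)) .e)) .e)) .e)) .e)), .cov (nat_lit 841720027565784745932004043798822), .rot (.exp (.alt (nat_lit 9) (.exp (.alt (nat_lit 6) (.exp (.alt (nat_lit 7) (.exp (.alt (nat_lit 3) (.exp (.alt (nat_lit 15) (.exp (.alt (nat_lit 0) (.cov (nat_lit 5321891329960604336353)) (.alt (nat_lit 0) (.exp (.alt (nat_lit 2) (.exp (.alt (nat_lit 10) (.exp (.alt (nat_lit 18) (.exp (.alt (nat_lit 19) (.exp (.alt (nat_lit 23) (.exp (.alt (nat_lit 17) (.exp (.alt (nat_lit 8) (.cov (nat_lit 7775302767806123081735)) (.alt (nat_lit 8) (.cov (nat_lit 345350719604762964131843)) (.alt (nat_lit 4) (.exp (.alt (nat_lit 12) (.exp (.alt (nat_lit 20) (.cov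 (nat_lit 1614090139601084612610)) (.alt (nat_lit 20) (.cov (nat_lit 1745523432852736180225)) (.alt (nat_lit 5) (.cov (nat_lit 9786360674)) .e)))) .e)) (.alt (nat_lit 8) (.exp (.alt (nat_lit 12) (.cov (nat_lit 27773879312072262549506)) (.alt (nat_lit 12) (.exp (.alt (nat_lit 28) (.cov (nat_lit 103347883690550007693319)) (.alt (nat_lit 13) (.cov (nat_lit 66869876076737200128)) .e))) .e))) .e))))) .e)) .e)) .e)) .e)) .e)) .e)) (.alt (nat_lit 0) (.cov (nat_lit 1780126260047720218635)) (.alt (nat_lit 0) (.exp (.alt (nat_lit 2) (.exp (.alt (nat_lit 10) (.exp (.alt (nat_lit 18) (.exp (.alt (nat_lit 16) (.cov (nat_lit 42030907728744587198498)) (.alt (nat_lit 1) (.cov (nat_lit 345334581716370051825671)) (.alt (nat_lit 1) (.cov (nat_lit 3110590967155277168643)) (.alt (nat_lit 1) (.exp (.alt (nat_lit 5) (.exp (.alt (nat_lit 17) (.cov (nat_lit 104613791627955500220427)) (.alt (nat_lit 17) (.exp (.alt (nat_lit 25) (.exp (.alt (nat_lit 27) (.exp (.alt (nat_lit 24) (.exp (.alt (nat_lit 21) (.cov (nat_lit 365365436513523329925123))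 (.alt (nat_lit 21) (.exp (.alt (nat_lit 23) (.exp (.alt (nat_lit 29) (.cov (nat_lit 25299709505888756695041)) (.alt (nat_lit 29) (.exp (.alt (nat_lit 28) (.cov (nat_lit 2651719471590876905472)) (.alt (nat_lit 13) (.cov (nat_lit 19608371208)) .e))) .e))) .e)) (.alt (nat_lit 16) (.cov (nat_lit 156585951427)) .e)))) .e)) .e)) .e)) (.alt (nat_lit 17) (.cov (nat_lit 45427418765013661253633)) (.alt (nat_lit 17) (.exp (.alt (nat_lit 25) (.exp (.alt (nat_lit 27) (.exp (.alt (nat_lit 31) (.exp (.alt (nat_lit 23) (.exp (.alt (nat_lit 29) (.exp (.alt (nat_lit 24) (.cov (nat_lit 25299709505889355431937)) (.alt (nat_lit 24) (.exp (.alt (nat_lit 28) (.cov (nat_lit 25281262764014069350400)) (.alt (nat_lit 8) (.cov (nat_lit 19608371208)) .e))) .e))) .e)) .e)) .e)) .e)) (.alt (nat_lit 16) (.cov (nat_lit 344336148680708905238531)) (.alt (nat_lit 16) (.exp (.alt (nat_lit 24) (.exp (.alt (nat_lit 20) (.cov (nat_lit 493450437003514478594)) (.alt (nat_lit 20) (.cov (nat_lit 802433510142900174849)) (.alt (nat_lit 20) (.exp (.alt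 (nat_lit 22) (.cov (nat_lit 274395335872491814915)) (.alt (nat_lit 28) (.exp (.alt (nat_lit 12) (.exp (.alt (nat_lit 30) (.cov (nat_lit 25306627034916411408385)) (.alt (nat_lit 30) (.exp (.alt (nat_lit 31) (.cov (nat_lit 25288180293041726160896)) (.alt (nat_lit 26) (.cov (nat_lit 1370488840)) .e))) .e))) .e)) (.alt (nat_lit 22) (.cov (nat_lit 2346713705)) .e)))) .e)))) .e)) (.alt (nat_lit 19) (.cov (nat_lit 174712688522)) .e))))) .e))))) .e)) (.alt (nat_lit 1) (.cov (nat_lit 185024390829)) .e)))))) .e)) .e)) .e)) (.alt (nat_lit 0) (.cov (nat_lit 42021711149607094845441)) (.alt (nat_lit 0) (.exp (.alt (nat_lit 8) (.cov (nat_lit 345350722617436836724774)) (.alt (nat_lit 2) (.cov (nat_lit 81945060021664273661986)) (.alt (nat_lit 2) (.exp (.alt (nat_lit 10) (.exp (.alt (nat_lit 8) (.exp (.alt (nat_lit 12) (.exp (.alt (nat_lit 24) (.exp (.alt (nat_lit 18) (.cov (nat_lit 25500318076389581389835)) (.alt (nat_lit 18) (.exp (.alt (nat_lit 19) (.exp (.alt (nat_lit 23) (.exp (.alt (nat_lit 27) (.exp (.alt (nat_lit 16)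 (.cov (nat_lit 347797218626332782493699)) (.alt (nat_lit 22) (.exp (.alt (nat_lit 30) (.exp (.alt (nat_lit 20) (.cov (nat_lit 2852327811193436635137)) (.alt (nat_lit 20) (.exp (.alt (nat_lit 21) (.cov (nat_lit 22839375017256760115200)) (.alt (nat_lit 4) (.cov (nat_lit 174756724744)) .e))) .e))) .e)) (.alt (nat_lit 16) (.cov (nat_lit 12637438569)) .e)))) .e)) .e)) .e)) (.alt (nat_lit 18) (.cov (nat_lit 1821616491850313498625)) (.alt (nat_lit 18) (.exp (.alt (nat_lit 19) (.exp (.alt (nat_lit 23) (.exp (.alt (nat_lit 22) (.exp (.alt (nat_lit 20) (.exp (.alt (nat_lit 30) (.exp (.alt (nat_lit 17) (.cov (nat_lit 365367742347733600567297)) (.alt (nat_lit 27) (.cov (nat_lit 158168252431)) .e))) .e)) .e)) .e)) .e)) (.alt (nat_lit 16) (.cov (nat_lit 10228720017692974645251)) (.alt (nat_lit 16) (.exp (.alt (nat_lit 17) (.exp (.alt (nat_lit 20) (.cov (nat_lit 64563637427199016962)) (.alt (nat_lit 20) (.cov (nat_lit 26759308264861492838401)) (.alt (nat_lit 20) (.exp (.alt (nat_lit 22) (.cov (nat_lit 26690132849241328975875))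 (.alt (nat_lit 21) (.exp (.alt (nat_lit 5) (.exp (.alt (nat_lit 23) (.cov (nat_lit 71481142091501797377)) (.alt (nat_lit 23) (.exp (.alt (nat_lit 31) (.cov (nat_lit 142962277566393614336)) (.alt (nat_lit 19) (.cov (nat_lit 632291336)) .e))) .e))) .e)) (.alt (nat_lit 22) (.cov (nat_lit 28109177449)) .e)))) .e)))) .e)) (.alt (nat_lit 16) (.cov (nat_lit 3473936265)) .e))))) .e))))) .e)) .e)) .e)) .e)) (.alt (nat_lit 2) (.cov (nat_lit 104671459330577368350723)) (.alt (nat_lit 2) (.exp (.alt (nat_lit 10) (.exp (.alt (nat_lit 18) (.cov (nat_lit 29122799110726006865938)) (.alt (nat_lit 18) (.cov (nat_lit 29122800647843262496779)) (.alt (nat_lit 18) (.exp (.alt (nat_lit 16) (.exp (.alt (nat_lit 17) (.exp (.alt (nat_lit 24) (.exp (.alt (nat_lit 22) (.cov (nat_lit 7793749511882758160391)) (.alt (nat_lit 22) (.cov (nat_lit 7793749799952019619843)) (.alt (nat_lit 19) (.cov (nat_lit 29125106490849591558144)) (.alt (nat_lit 19) (.cov (nat_lit 3010466775)) .e))))) .e)) .e)) .e)) (.alt (nat_lit 18) (.cov (nat_lit 26526427251275457363969))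 (.alt (nat_lit 18) (.exp (.alt (nat_lit 16) (.cov (nat_lit 42030907728744587198498)) (.alt (nat_lit 16) (.cov (nat_lit 260563701669598068743)) (.alt (nat_lit 16) (.cov (nat_lit 21585005176755163496451)) (.alt (nat_lit 16) (.exp (.alt (nat_lit 17) (.exp (.alt (nat_lit 24) (.cov (nat_lit 63366872002284172083211)) (.alt (nat_lit 24) (.exp (.alt (nat_lit 26) (.exp (.alt (nat_lit 27) (.exp (.alt (nat_lit 30) (.exp (.alt (nat_lit 28) (.cov (nat_lit 7775302644660816576515)) (.alt (nat_lit 28) (.exp (.alt (nat_lit 20) (.exp (.alt (nat_lit 29) (.cov (nat_lit 6375655929272012374017)) (.alt (nat_lit 12) (.cov (nat_lit 156981264399)) .e))) .e)) (.alt (nat_lit 25) (.cov (nat_lit 10532946115)) .e)))) .e)) .e)) .e)) (.alt (nat_lit 24) (.cov (nat_lit 1909245936908811370497)) (.alt (nat_lit 24) (.exp (.alt (nat_lit 25) (.cov (nat_lit 7814502098972657582087)) (.alt (nat_lit 25) (.cov (nat_lit 23162193456361286664195)) (.alt (nat_lit 26) (.cov (nat_lit 29141247391914087415808)) (.alt (nat_lit 8) (.cov (nat_lit 9877589895))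 .e))))) .e))))) .e)) (.alt (nat_lit 16) (.cov (nat_lit 13204728253)) .e)))))) .e)))))) .e)) (.alt (nat_lit 2) (.exp (.alt (nat_lit 10) (.cov (nat_lit 29090521040339479822356)) (.alt (nat_lit 18) (.cov (nat_lit 1734003216393638510594)) (.alt (nat_lit 18) (.exp (.alt (nat_lit 16) (.cov (nat_lit 42030907728929002356774)) (.alt (nat_lit 16) (.cov (nat_lit 25364275370790200803335)) (.alt (nat_lit 16) (.exp (.alt (nat_lit 17) (.exp (.alt (nat_lit 24) (.cov (nat_lit 387381891629743865876)) (.alt (nat_lit 24) (.cov (nat_lit 344126322182954309124098)) (.alt (nat_lit 24) (.exp (.alt (nat_lit 25) (.cov (nat_lit 23162193456408665522183)) (.alt (nat_lit 8) (.cov (nat_lit 21721049887910448332800)) .e))) .e)))) .e)) .e)))) .e)))) .e))))))) .e))))))) .e)) .e)) .e)) .e)) .e))]),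
   ([19, 3, 1], [.cov (nat_lit 30423614405498258227402652006997), .cov (nat_lit 30423614405498258229600869956135), .cov (nat_lit 30423614405498258227402652006997), .cov (nat_lit 30423614405498258229600869956136), .cov (nat_lit 30423614405498258227402652006997), .cov (nat_lit 30423614405498258229600869956137), .cov (nat_lit 30423614405498258227402652006997), .cov (nat_lit 30423614405498258229600869956138), .cov (nat_lit 30423614405498258227402652006997), .cov (nat_lit 30423614405498258229600869956139), .cov (nat_lit 30423614405498258227402652006997), .cov (nat_lit 30423614405498258229601608153638), .cov (nat_lit 30423614405498258227402652006997), .rot (.rot (.exp (.alt (nat_lit 6) (.rot (.exp (.alt (nat_lit 9) (.exp (.alt (nat_lit 11) (.exp (.alt (nat_lit 15) (.exp (.alt (nat_lit 0) (.cov (nat_lit 3855372952876741558504)) (.alt (nat_lit 0) (.cov (nat_lit 18462201008189603861)) (.alt (nat_lit 0) (.cov (nat_lit 1881596045215774277634)) (.alt (nat_lit 0) (.exp (.alt (nat_lit 1) (.cov (nat_lit 3110590967145531703334))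 (.alt (nat_lit 1) (.cov (nat_lit 406872938277316718493703)) (.alt (nat_lit 1) (.exp (.alt (nat_lit 3) (.exp (.alt (nat_lit 5) (.cov (nat_lit 747098771082567483412)) (.alt (nat_lit 17) (.cov (nat_lit 8891339916855500341250)) (.alt (nat_lit 17) (.exp (.alt (nat_lit 16) (.cov (nat_lit 21970073548588901728294)) (.alt (nat_lit 16) (.cov (nat_lit 102093507345349651464199)) (.alt (nat_lit 16) (.exp (.alt (nat_lit 18) (.exp (.alt (nat_lit 20) (.cov (nat_lit 25244369530953364668436)) (.alt (nat_lit 20) (.cov (nat_lit 2928426266596978196482)) (.alt (nat_lit 20) (.exp (.alt (nat_lit 22) (.cov (nat_lit 47956923334448078913543)) (.alt (nat_lit 4) (.cov (nat_lit 22827854532333016186880)) .e))) .e)))) .e)) .e)))) .e)))) .e)) .e)))) .e))))) .e)) .e)) .e))) .e)))]),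
   ([19, 1, 3], [.cov (nat_lit 30423624076904815140037197838933), .cov (nat_lit 192682905741821456990132712258087), .cov (nat_lit 30423624076904815140037197838933), .cov (nat_lit 192682905741821456990132712258088), .cov (nat_lit 30423624076904815140037197838933), .cov (nat_lit 192682905741821456990132712258089), .cov (nat_lit 30423624076904815140037197838933), .cov (nat_lit 192682905741821456990132712258090), .cov (nat_lit 30423624076904815140037197838933), .cov (nat_lit 192682905741821456990132712258091), .cov (nat_lit 30423624076904815140037197838933), .cov (nat_lit 192682905741821456990134859741734), .cov (nat_lit 30423624076904815140037197838933), .rot (.exp (.alt (nat_lit 9) (.exp (.alt (nat_lit 6) (.exp (.alt (nat_lit 7) (.exp (.alt (nat_lit 15) (.exp (.alt (nat_lit 0) (.cov (nat_lit 345332275873351341179112)) (.alt (nat_lit 0) (.cov (nat_lit 1780126260048257089557)) (.alt (nat_lit 0) (.cov (nat_lit 10145737390239835488258)) (.alt (nat_lit 0) (.exp (.alt (nat_lit 2) (.cov (nat_lit 344313098569678756773926))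 (.alt (nat_lit 2) (.cov (nat_lit 7844499690059228774407)) (.alt (nat_lit 2) (.exp (.alt (nat_lit 3) (.exp (.alt (nat_lit 10) (.cov (nat_lit 29090521040339479822356)) (.alt (nat_lit 18) (.cov (nat_lit 1734003216393638510594)) (.alt (nat_lit 18) (.exp (.alt (nat_lit 16) (.cov (nat_lit 42030907728929002356774)) (.alt (nat_lit 16) (.cov (nat_lit 25364275370790200803335)) (.alt (nat_lit 16) (.exp (.alt (nat_lit 17) (.exp (.alt (nat_lit 24) (.cov (nat_lit 387381891629743865876)) (.alt (nat_lit 24) (.cov (nat_lit 344126322182954309124098)) (.alt (nat_lit 24) (.exp (.alt (nat_lit 25) (.cov (nat_lit 23162193456408665522183)) (.alt (nat_lit 8) (.cov (nat_lit 21721049887910448332800)) .e))) .e)))) .e)) .e)))) .e)))) .e)) .e)))) .e))))) .e)) .e)) .e)) .e))]),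
   ([21, 1, 1], [.cov (nat_lit 30423614405498258223003800189610), .cov (nat_lit 30423614405498258223003800189713), .cov (nat_lit 30423614405498258223003800189714), .cov (nat_lit 30423614405498258223003800189731), .cov (nat_lit 30423614405498258223003800189732), .cov (nat_lit 30423614405498258223003800189733), .rot (.exp (.alt (nat_lit 9) (.exp (.alt (nat_lit 6) (.exp (.alt (nat_lit 0) (.exp (.alt (nat_lit 1) (.cov (nat_lit 224931941731254894995363929164611591)) (.alt (nat_lit 1) (.cov (nat_lit 55989610947315837075086585988382723)) (.alt (nat_lit 1) (.cov (nat_lit 52754571915464216503126207962808321)) (.alt (nat_lit 1) (.exp (.alt (nat_lit 3) (.exp (.alt (nat_lit 5) (.cov (nat_lit 48363424979856796697606160737370114)) (.alt (nat_lit 5) (.cov (nat_lit 803873041467558364648313642342678529)) (.alt (nat_lit 5) (.cov (nat_lit 894575977190909749457049284585193472)) (.alt (nat_lit 5) (.cov (nat_lit 406806055794236426551390)) .e))))) .e)) (.alt (nat_lit 1) (.cov (nat_lit 81912778245738851205624)) .e)))))) (.alt (nat_lit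 0) (.cov (nat_lit 406806059000416656425928)) (.alt (nat_lit 0) (.cov (nat_lit 406879843320298918117831)) (.alt (nat_lit 0) (.cov (nat_lit 406806059000412093022440)) (.alt (nat_lit 0) (.cov (nat_lit 9238859760680304865)) (.alt (nat_lit 0) (.cov (nat_lit 404283476588961615315038)) (.alt (nat_lit 0) (.cov (nat_lit 7609308329679389720612)) (.alt (nat_lit 0) (.cov (nat_lit 1927714150046521884688)) (.alt (nat_lit 0) (.cov (nat_lit 4640367878766329875)) (.alt (nat_lit 0) (.cov (nat_lit 18477675535006695435)) (.alt (nat_lit 0) (.cov (nat_lit 25539547578144636534790)) (.alt (nat_lit 0) (.cov (nat_lit 673337569538583035907)) (.alt (nat_lit 0) (.exp (.alt (nat_lit 1) (.exp (.alt (nat_lit 3) (.exp (.alt (nat_lit 5) (.exp (.alt (nat_lit 2) (.exp (.alt (nat_lit 10) (.cov (nat_lit 91275030935872878680021867167746)) (.alt (nat_lit 10) (.cov (nat_lit 102639140235600475547589514966859777)) (.alt (nat_lit 10) (.cov (nat_lit 102639140235625932054431025320689664)) (.alt (nat_lit 10) (.cov (nat_lit 384324080640185482608734)) .e)))))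 (.alt (nat_lit 2) (.cov (nat_lit 350142264390754752266278)) (.alt (nat_lit 2) (.cov (nat_lit 350142264390571108860001)) (.alt (nat_lit 2) (.cov (nat_lit 45402057583739705229346)) (.alt (nat_lit 2) (.cov (nat_lit 45402057583739034140707)) (.alt (nat_lit 2) (.cov (nat_lit 1646383858071671668751)) (.alt (nat_lit 2) (.cov (nat_lit 1351239469129833381895)) (.alt (nat_lit 2) (.cov (nat_lit 41520615707191017478)) (.alt (nat_lit 2) (.cov (nat_lit 6682354811032230166531)) (.alt (nat_lit 2) (.cov (nat_lit 6682354811032230166530)) (.alt (nat_lit 2) (.cov (nat_lit 22030050271807347359745)) (.alt (nat_lit 2) (.cov (nat_lit 6534788838697243508736)) (.alt (nat_lit 2) (.cov (nat_lit 156541924614)) .e)))))))))))))) .e)) .e)) .e)) (.alt (nat_lit 0) (.cov (nat_lit 2338054301863116801)) (.alt (nat_lit 0) (.cov (nat_lit 21845589355572208074752)) (.alt (nat_lit 0) (.exp (.alt (nat_lit 1) (.cov (nat_lit 11540949034211475960)) (.alt (nat_lit 1) (.cov (nat_lit 21926269942118753502150)) (.alt (nat_lit 1) (.exp (.alt (nat_lit 3) (.cov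 (nat_lit 2946052529542087962264983451992066)) (.alt (nat_lit 3) (.cov (nat_lit 99814840806254259845590632000126977)) (.alt (nat_lit 3) (.cov (nat_lit 2946052611749431077711703493836800)) (.alt (nat_lit 3) (.cov (nat_lit 102206503328491328503902)) .e))))) (.alt (nat_lit 1) (.cov (nat_lit 6929724814157414438)) (.alt (nat_lit 1) (.cov (nat_lit 6937700668250521697)) (.alt (nat_lit 1) (.cov (nat_lit 6933197068354715682)) (.alt (nat_lit 1) (.cov (nat_lit 6941256488586313763)) (.alt (nat_lit 1) (.cov (nat_lit 1777831139475633209359)) (.alt (nat_lit 1) (.cov (nat_lit 6947281812306526215)) (.alt (nat_lit 1) (.cov (nat_lit 597242098212668440582)) (.alt (nat_lit 1) (.cov (nat_lit 6947420350771625987)) (.alt (nat_lit 1) (.cov (nat_lit 102201910081282884239362)) (.alt (nat_lit 1) (.cov (nat_lit 104567706068665341313025)) (.alt (nat_lit 1) (.exp (.alt (nat_lit 3) (.exp (.alt (nat_lit 5) (.cov (nat_lit 25560275386634695868875)) (.alt (nat_lit 5) (.cov (nat_lit 3041412613628067053793)) (.alt (nat_lit 5) (.cov (nat_lit 10138800448232297070686))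 (.alt (nat_lit 5) (.cov (nat_lit 10138803654407935229987)) (.alt (nat_lit 5) (.cov (nat_lit 48438144734801690640)) (.alt (nat_lit 5) (.cov (nat_lit 10138803654407935229971)) (.alt (nat_lit 5) (.cov (nat_lit 48438144734969462795)) (.alt (nat_lit 5) (.cov (nat_lit 786314251865443794950)) (.alt (nat_lit 5) (.cov (nat_lit 2967646136627941605379)) (.alt (nat_lit 5) (.cov (nat_lit 48444616460242780162)) (.alt (nat_lit 5) (.cov (nat_lit 6361847549766824624129)) (.alt (nat_lit 5) (.cov (nat_lit 404442588337185822343168)) (.alt (nat_lit 5) (.exp (.alt (nat_lit 4) (.exp (.alt (nat_lit 12) (.cov (nat_lit 3022083218663170320058924784418818)) (.alt (nat_lit 12) (.cov (nat_lit 61110906572123980114148715705401345)) (.alt (nat_lit 12) (.cov (nat_lit 61110906572124349049049981099442176)) (.alt (nat_lit 12) (.cov (nat_lit 43137713938874727661662)) .e))))) (.alt (nat_lit 4) (.cov (nat_lit 406815273871028535689254)) (.alt (nat_lit 4) (.cov (nat_lit 29025955241453663813729)) (.alt (nat_lit 4) (.cov (nat_lit 404306521967850466312226))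 (.alt (nat_lit 4) (.cov (nat_lit 404306521967850466312227)) (.alt (nat_lit 4) (.cov (nat_lit 6373362026959041724431)) (.alt (nat_lit 4) (.cov (nat_lit 1577212084032743931911)) (.alt (nat_lit 4) (.cov (nat_lit 46132301725754720262)) (.alt (nat_lit 4) (.cov (nat_lit 25576432428528535863299)) (.alt (nat_lit 4) (.cov (nat_lit 7867558117767366311938)) (.alt (nat_lit 4) (.cov (nat_lit 1964604405629751132161)) (.alt (nat_lit 4) (.cov (nat_lit 636442421128616476672)) (.alt (nat_lit 4) (.cov (nat_lit 10515133702)) .e)))))))))))))) .e)))))))))))))) .e)) (.alt (nat_lit 1) (.cov (nat_lit 3160614)) .e)))))))))))))))) .e))))))))))))))))) .e)) .e)), .rot (.exp (.alt (nat_lit 9) (.exp (.alt (nat_lit 6) (.exp (.alt (nat_lit 0) (.cov (nat_lit 406806059000412093022440)) (.alt (nat_lit 0) (.cov (nat_lit 6364142149173155725537)) (.alt (nat_lit 0) (.exp (.alt (nat_lit 1) (.exp (.alt (nat_lit 3) (.exp (.alt (nat_lit 5) (.exp (.alt (nat_lit 7) (.exp (.alt (nat_lit 15) (.exp (.alt (nat_lit 23) (.exp (.alt (nat_lit 8) (.cov (nat_lit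 396606360990674583586)) (.alt (nat_lit 4) (.cov (nat_lit 21887065285112776097799)) (.alt (nat_lit 4) (.cov (nat_lit 21591922679578328301571)) (.alt (nat_lit 4) (.exp (.alt (nat_lit 12) (.exp (.alt (nat_lit 20) (.cov (nat_lit 406852164060640429735947)) (.alt (nat_lit 20) (.exp (.alt (nat_lit 28) (.exp (.alt (nat_lit 29) (.exp (.alt (nat_lit 30) (.exp (.alt (nat_lit 16) (.cov (nat_lit 63129369923856192503811)) (.alt (nat_lit 16) (.exp (.alt (nat_lit 17) (.exp (.alt (nat_lit 24) (.cov (nat_lit 6405631888391776763905)) (.alt (nat_lit 24) (.exp (.alt (nat_lit 26) (.cov (nat_lit 21534267874041814581248)) (.alt (nat_lit 8) (.cov (nat_lit 157045227528)) .e))) .e))) .e)) (.alt (nat_lit 22) (.cov (nat_lit 156583854275)) .e)))) .e)) .e)) .e)) (.alt (nat_lit 20) (.cov (nat_lit 347647344453624923160577)) (.alt (nat_lit 20) (.exp (.alt (nat_lit 28) (.exp (.alt (nat_lit 29) (.exp (.alt (nat_lit 25) (.exp (.alt (nat_lit 17) (.exp (.alt (nat_lit 24) (.exp (.alt (nat_lit 30) (.cov (nat_lit 6405631888392353480705)) (.alt (nat_lit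 30) (.exp (.alt (nat_lit 26) (.cov (nat_lit 6387185146517059010560)) (.alt (nat_lit 14) (.cov (nat_lit 157045227528)) .e))) .e))) .e)) .e)) .e)) .e)) (.alt (nat_lit 22) (.cov (nat_lit 344331536994690517696515)) (.alt (nat_lit 22) (.exp (.alt (nat_lit 30) (.exp (.alt (nat_lit 18) (.cov (nat_lit 1667124528830721556482)) (.alt (nat_lit 18) (.cov (nat_lit 797821824124503195649)) (.alt (nat_lit 18) (.exp (.alt (nat_lit 19) (.cov (nat_lit 1441151898397178855427)) (.alt (nat_lit 26) (.exp (.alt (nat_lit 10) (.exp (.alt (nat_lit 27) (.cov (nat_lit 6403326045382587187201)) (.alt (nat_lit 27) (.exp (.alt (nat_lit 25) (.cov (nat_lit 6384879303507865239552)) (.alt (nat_lit 31) (.cov (nat_lit 9962520584)) .e))) .e))) .e)) (.alt (nat_lit 19) (.cov (nat_lit 10933502569)) .e)))) .e)))) .e)) (.alt (nat_lit 21) (.cov (nat_lit 174714785674)) .e))))) .e))))) .e)) (.alt (nat_lit 4) (.cov (nat_lit 3569362605)) .e)))))) .e)) .e)) .e)) .e)) .e)) .e)) (.alt (nat_lit 0) (.cov (nat_lit 26674020080280747900939)) (.alt (nat_lit 0) (.exp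 (.alt (nat_lit 1) (.exp (.alt (nat_lit 3) (.exp (.alt (nat_lit 5) (.exp (.alt (nat_lit 2) (.cov (nat_lit 350142264390582953574438)) (.alt (nat_lit 2) (.cov (nat_lit 45402057583739000586274)) (.alt (nat_lit 2) (.cov (nat_lit 41520615707761442823)) (.alt (nat_lit 2) (.cov (nat_lit 6682354811032230166531)) (.alt (nat_lit 2) (.exp (.alt (nat_lit 10) (.exp (.alt (nat_lit 18) (.cov (nat_lit 3159006826976953499666)) (.alt (nat_lit 18) (.cov (nat_lit 48021487615993845907467)) (.alt (nat_lit 18) (.exp (.alt (nat_lit 16) (.exp (.alt (nat_lit 17) (.exp (.alt (nat_lit 20) (.exp (.alt (nat_lit 22) (.exp (.alt (nat_lit 23) (.exp (.alt (nat_lit 31) (.exp (.alt (nat_lit 27) (.exp (.alt (nat_lit 15) (.exp (.alt (nat_lit 30) (.cov (nat_lit 102111951828815376809985)) (.alt (nat_lit 30) (.exp (.alt (nat_lit 28) (.cov (nat_lit 424275124690448547840)) (.alt (nat_lit 26) (.cov (nat_lit 159240945672)) .e))) .e))) .e)) .e)) .e)) .e)) (.alt (nat_lit 22) (.cov (nat_lit 1987637102771291815939)) (.alt (nat_lit 22) (.exp (.alt (nat_lit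 23) (.exp (.alt (nat_lit 30) (.cov (nat_lit 10141097587507202097154)) (.alt (nat_lit 30) (.cov (nat_lit 102079670165224850194433)) (.alt (nat_lit 30) (.exp (.alt (nat_lit 26) (.cov (nat_lit 47950005394356500955139)) (.alt (nat_lit 28) (.exp (.alt (nat_lit 24) (.exp (.alt (nat_lit 29) (.cov (nat_lit 29975967915930812417)) (.alt (nat_lit 12) (.cov (nat_lit 12059672591)) .e))) .e)) (.alt (nat_lit 28) (.exp (.alt (nat_lit 29) (.cov (nat_lit 29975967915897257986)) (.alt (nat_lit 24) (.cov (nat_lit 158101143619)) .e))) .e)))) .e)))) .e)) (.alt (nat_lit 22) (.exp (.alt (nat_lit 30) (.cov (nat_lit 404311125170038460383234)) (.alt (nat_lit 30) (.exp (.alt (nat_lit 14) (.cov (nat_lit 384317160206258118066183)) (.alt (nat_lit 28) (.cov (nat_lit 7888290291317408268288)) .e))) .e))) .e))))) .e)) .e)) .e)) (.alt (nat_lit 18) (.cov (nat_lit 63369197702472605368321)) (.alt (nat_lit 18) (.exp (.alt (nat_lit 22) (.cov (nat_lit 6636217537315122184226)) (.alt (nat_lit 16) (.cov (nat_lit 22043862609554930925575)) (.alt (nat_lit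 16) (.cov (nat_lit 3883048395022310309891)) (.alt (nat_lit 16) (.exp (.alt (nat_lit 17) (.exp (.alt (nat_lit 20) (.cov (nat_lit 3959132594167686889483)) (.alt (nat_lit 20) (.exp (.alt (nat_lit 22) (.exp (.alt (nat_lit 23) (.exp (.alt (nat_lit 30) (.exp (.alt (nat_lit 28) (.cov (nat_lit 10136485886095643377667)) (.alt (nat_lit 28) (.exp (.alt (nat_lit 24) (.exp (.alt (nat_lit 29) (.cov (nat_lit 29975967915930812417)) (.alt (nat_lit 12) (.cov (nat_lit 12059672591)) .e))) .e)) (.alt (nat_lit 28) (.exp (.alt (nat_lit 29) (.cov (nat_lit 29975967915897257986)) (.alt (nat_lit 24) (.cov (nat_lit 158101143619)) .e))) .e)))) .e)) .e)) .e)) (.alt (nat_lit 20) (.cov (nat_lit 802438994506932027393)) (.alt (nat_lit 20) (.exp (.alt (nat_lit 22) (.exp (.alt (nat_lit 23) (.exp (.alt (nat_lit 31) (.exp (.alt (nat_lit 27) (.exp (.alt (nat_lit 15) (.exp (.alt (nat_lit 30) (.cov (nat_lit 102111951828815376809985)) (.alt (nat_lit 30) (.exp (.alt (nat_lit 28) (.cov (nat_lit 424275124690448547840)) (.alt (nat_lit 26) (.cov (nat_lit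 159240945672)) .e))) .e))) .e)) .e)) .e)) .e)) (.alt (nat_lit 22) (.cov (nat_lit 1987637102771291815939)) (.alt (nat_lit 22) (.exp (.alt (nat_lit 23) (.exp (.alt (nat_lit 30) (.cov (nat_lit 10141097587507202097154)) (.alt (nat_lit 30) (.cov (nat_lit 102079670165224850194433)) (.alt (nat_lit 30) (.exp (.alt (nat_lit 26) (.cov (nat_lit 47950005394356500955139)) (.alt (nat_lit 28) (.exp (.alt (nat_lit 24) (.exp (.alt (nat_lit 29) (.cov (nat_lit 29975967915930812417)) (.alt (nat_lit 12) (.cov (nat_lit 12059672591)) .e))) .e)) (.alt (nat_lit 28) (.exp (.alt (nat_lit 29) (.cov (nat_lit 29975967915897257986)) (.alt (nat_lit 24) (.cov (nat_lit 158101143619)) .e))) .e)))) .e)))) .e)) (.alt (nat_lit 4) (.cov (nat_lit 166241243018)) .e))))) .e))))) .e)) (.alt (nat_lit 16) (.cov (nat_lit 11563707097)) .e)))))) .e)))))) .e)) (.alt (nat_lit 2) (.cov (nat_lit 156541924614)) .e))))))) .e)) .e)) .e)) (.alt (nat_lit 0) (.cov (nat_lit 2335782710840131585)) (.alt (nat_lit 0) (.exp (.alt (nat_lit 1) (.cov (nat_lit 10115742048926481515000))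 (.alt (nat_lit 1) (.exp (.alt (nat_lit 3) (.exp (.alt (nat_lit 2) (.exp (.alt (nat_lit 10) (.exp (.alt (nat_lit 18) (.exp (.alt (nat_lit 11) (.exp (.alt (nat_lit 15) (.exp (.alt (nat_lit 27) (.exp (.alt (nat_lit 5) (.cov (nat_lit 24010743402279660945419)) (.alt (nat_lit 5) (.exp (.alt (nat_lit 4) (.exp (.alt (nat_lit 12) (.exp (.alt (nat_lit 20) (.exp (.alt (nat_lit 21) (.cov (nat_lit 21525044508604922593283)) (.alt (nat_lit 21) (.exp (.alt (nat_lit 17) (.exp (.alt (nat_lit 29) (.cov (nat_lit 6417161103437829505025)) (.alt (nat_lit 23) (.cov (nat_lit 32505871)) .e))) .e)) (.alt (nat_lit 21) (.exp (.alt (nat_lit 29) (.cov (nat_lit 6417161103440715186178)) (.alt (nat_lit 17) (.cov (nat_lit 93323331)) .e))) .e)))) .e)) .e)) .e)) (.alt (nat_lit 5) (.cov (nat_lit 6394108291850097917953)) (.alt (nat_lit 5) (.exp (.alt (nat_lit 4) (.exp (.alt (nat_lit 12) (.exp (.alt (nat_lit 28) (.exp (.alt (nat_lit 24) (.exp (.alt (nat_lit 30) (.exp (.alt (nat_lit 20) (.cov (nat_lit 25283568604824263983105)) (.alt (nat_lit 20)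 (.exp (.alt (nat_lit 21) (.cov (nat_lit 22839375017256778989568)) (.alt (nat_lit 16) (.cov (nat_lit 1360003080)) .e))) .e))) .e)) .e)) .e)) .e)) (.alt (nat_lit 4) (.cov (nat_lit 6539371203123428196355)) (.alt (nat_lit 4) (.exp (.alt (nat_lit 12) (.exp (.alt (nat_lit 20) (.cov (nat_lit 6396408540547038314498)) (.alt (nat_lit 20) (.cov (nat_lit 2633272863856613392385)) (.alt (nat_lit 20) (.exp (.alt (nat_lit 16) (.cov (nat_lit 1383505823121124884483)) (.alt (nat_lit 21) (.exp (.alt (nat_lit 17) (.exp (.alt (nat_lit 29) (.cov (nat_lit 6417161103437829505025)) (.alt (nat_lit 23) (.cov (nat_lit 32505871)) .e))) .e)) (.alt (nat_lit 21) (.exp (.alt (nat_lit 29) (.cov (nat_lit 6417161103440715186178)) (.alt (nat_lit 17) (.cov (nat_lit 93323331)) .e))) .e)))) .e)))) .e)) (.alt (nat_lit 7) (.cov (nat_lit 165548134282)) .e))))) .e))))) .e)) .e)) .e)) .e)) .e)) .e)) (.alt (nat_lit 3) (.cov (nat_lit 39214772744447066133)) .e))) (.alt (nat_lit 1) (.cov (nat_lit 29083613538855257374754)) (.alt (nat_lit 1) (.exp (.alt (nat_lit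 3) (.exp (.alt (nat_lit 2) (.exp (.alt (nat_lit 10) (.exp (.alt (nat_lit 18) (.exp (.alt (nat_lit 5) (.cov (nat_lit 365335462441328846045205)) (.alt (nat_lit 5) (.cov (nat_lit 3115199541544527855627)) (.alt (nat_lit 5) (.cov (nat_lit 21520444745687696932866)) (.alt (nat_lit 5) (.cov (nat_lit 2704772189661627940865)) (.alt (nat_lit 5) (.exp (.alt (nat_lit 13) (.cov (nat_lit 182162961122531999778)) (.alt (nat_lit 7) (.cov (nat_lit 25435757676112265609223)) (.alt (nat_lit 7) (.cov (nat_lit 24033810426198194388995)) (.alt (nat_lit 7) (.exp (.alt (nat_lit 15) (.exp (.alt (nat_lit 23) (.cov (nat_lit 10180297028615193755659)) (.alt (nat_lit 23) (.exp (.alt (nat_lit 31) (.exp (.alt (nat_lit 27) (.exp (.alt (nat_lit 30) (.exp (.alt (nat_lit 21) (.cov (nat_lit 365365436513523323633667)) (.alt (nat_lit 21) (.exp (.alt (nat_lit 17) (.exp (.alt (nat_lit 29) (.cov (nat_lit 2868468712257941929985)) (.alt (nat_lit 29) (.exp (.alt (nat_lit 28) (.cov (nat_lit 22855515918321263312896)) (.alt (nat_lit 13) (.cov (nat_lit 174764064776))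 .e))) .e))) .e)) (.alt (nat_lit 22) (.cov (nat_lit 10557063363)) .e)))) .e)) .e)) .e)) (.alt (nat_lit 23) (.cov (nat_lit 404327271463106703785985)) (.alt (nat_lit 23) (.exp (.alt (nat_lit 31) (.exp (.alt (nat_lit 27) (.exp (.alt (nat_lit 25) (.exp (.alt (nat_lit 17) (.exp (.alt (nat_lit 29) (.exp (.alt (nat_lit 30) (.cov (nat_lit 2868468712257976532993)) (.alt (nat_lit 30) (.exp (.alt (nat_lit 28) (.cov (nat_lit 2850021970383254585344)) (.alt (nat_lit 14) (.cov (nat_lit 174764064776)) .e))) .e))) .e)) .e)) .e)) .e)) (.alt (nat_lit 22) (.cov (nat_lit 23215227845573204770819)) (.alt (nat_lit 22) (.exp (.alt (nat_lit 30) (.exp (.alt (nat_lit 20) (.cov (nat_lit 6382573482535288832002)) (.alt (nat_lit 20) (.cov (nat_lit 6705391613729950400513)) (.alt (nat_lit 20) (.exp (.alt (nat_lit 16) (.cov (nat_lit 260560277653994602499)) (.alt (nat_lit 28) (.exp (.alt (nat_lit 12) (.exp (.alt (nat_lit 24) (.cov (nat_lit 2861551183230314479617)) (.alt (nat_lit 24) (.exp (.alt (nat_lit 25) (.cov (nat_lit 2843104441355629232128))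 (.alt (nat_lit 26) (.cov (nat_lit 11571036168)) .e))) .e))) .e)) (.alt (nat_lit 16) (.cov (nat_lit 159384169)) .e)))) .e)))) .e)) (.alt (nat_lit 19) (.cov (nat_lit 19556994954)) .e))))) .e))))) .e)) (.alt (nat_lit 7) (.cov (nat_lit 158191330989)) .e)))))) .e)))))) .e)) .e)) .e)) .e)) (.alt (nat_lit 1) (.cov (nat_lit 629517149340789899267)) (.alt (nat_lit 1) (.exp (.alt (nat_lit 3) (.exp (.alt (nat_lit 5) (.cov (nat_lit 27773880152087663214817)) (.alt (nat_lit 5) (.cov (nat_lit 10138803654407935229971)) (.alt (nat_lit 5) (.cov (nat_lit 48438144734969462795)) (.alt (nat_lit 17) (.exp (.alt (nat_lit 16) (.exp (.alt (nat_lit 18) (.exp (.alt (nat_lit 20) (.exp (.alt (nat_lit 25) (.cov (nat_lit 404493286948269952335906)) (.alt (nat_lit 19) (.cov (nat_lit 4258895479493712936967)) (.alt (nat_lit 19) (.cov (nat_lit 421978014002598379523)) (.alt (nat_lit 19) (.exp (.alt (nat_lit 23) (.exp (.alt (nat_lit 27) (.cov (nat_lit 172938373025785446411)) (.alt (nat_lit 27) (.exp (.alt (nat_lit 26) (.exp (.alt (nat_lit 24) (.exp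 (.alt (nat_lit 10) (.exp (.alt (nat_lit 31) (.cov (nat_lit 1805475093806538817539)) (.alt (nat_lit 31) (.exp (.alt (nat_lit 30) (.exp (.alt (nat_lit 15) (.cov (nat_lit 365349295603659879481345)) (.alt (nat_lit 15) (.exp (.alt (nat_lit 13) (.cov (nat_lit 42955549429637033492480)) (.alt (nat_lit 14) (.cov (nat_lit 3535798280)) .e))) .e))) .e)) (.alt (nat_lit 11) (.cov (nat_lit 854589635)) .e)))) .e)) .e)) .e)) (.alt (nat_lit 27) (.cov (nat_lit 384192650311050753736705)) (.alt (nat_lit 27) (.exp (.alt (nat_lit 11) (.cov (nat_lit 406810658884284786409479)) (.alt (nat_lit 11) (.cov (nat_lit 1879262481502550622211)) (.alt (nat_lit 11) (.exp (.alt (nat_lit 10) (.exp (.alt (nat_lit 15) (.cov (nat_lit 71481166273872658434)) (.alt (nat_lit 15) (.cov (nat_lit 546484936120189583361)) (.alt (nat_lit 15) (.exp (.alt (nat_lit 14) (.cov (nat_lit 7775302644661498150915)) (.alt (nat_lit 13) (.exp (.alt (nat_lit 5) (.exp (.alt (nat_lit 29) (.cov (nat_lit 45443554034379605934081)) (.alt (nat_lit 29) (.exp (.alt (nat_lit 28)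 (.cov (nat_lit 364046494305653148876800)) (.alt (nat_lit 31) (.cov (nat_lit 185017040904)) .e))) .e))) .e)) (.alt (nat_lit 14) (.cov (nat_lit 10380903017)) .e)))) .e)))) .e)) (.alt (nat_lit 11) (.cov (nat_lit 166138482567)) .e))))) .e))))) .e)) (.alt (nat_lit 19) (.cov (nat_lit 191899310)) .e)))))) .e)) .e)) .e)) (.alt (nat_lit 17) (.cov (nat_lit 41894889781901296402433)) (.alt (nat_lit 5) (.exp (.alt (nat_lit 4) (.cov (nat_lit 406815273871071485362214)) (.alt (nat_lit 4) (.cov (nat_lit 404306521967850634084386)) (.alt (nat_lit 4) (.cov (nat_lit 46132301725620502535)) (.alt (nat_lit 4) (.cov (nat_lit 25576432428528535863299)) (.alt (nat_lit 4) (.exp (.alt (nat_lit 12) (.exp (.alt (nat_lit 20) (.cov (nat_lit 1983026892278100656146)) (.alt (nat_lit 20) (.cov (nat_lit 29136633370535836778507)) (.alt (nat_lit 20) (.exp (.alt (nat_lit 21) (.exp (.alt (nat_lit 17) (.exp (.alt (nat_lit 23) (.exp (.alt (nat_lit 22) (.exp (.alt (nat_lit 18) (.exp (.alt (nat_lit 26) (.exp (.alt (nat_lit 24) (.exp (.alt (nat_lit 10)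 (.exp (.alt (nat_lit 30) (.cov (nat_lit 45450471563407243870209)) (.alt (nat_lit 30) (.exp (.alt (nat_lit 31) (.cov (nat_lit 214443410852005543936)) (.alt (nat_lit 28) (.cov (nat_lit 185015992328)) .e))) .e))) .e)) .e)) .e)) .e)) (.alt (nat_lit 22) (.cov (nat_lit 807045482053875269635)) (.alt (nat_lit 22) (.exp (.alt (nat_lit 18) (.exp (.alt (nat_lit 30) (.cov (nat_lit 104588427244900276240386)) (.alt (nat_lit 30) (.cov (nat_lit 45411272370789076172801)) (.alt (nat_lit 30) (.exp (.alt (nat_lit 28) (.cov (nat_lit 29053621933703684947971)) (.alt (nat_lit 31) (.exp (.alt (nat_lit 29) (.exp (.alt (nat_lit 27) (.cov (nat_lit 394299163371660902401)) (.alt (nat_lit 15) (.cov (nat_lit 46417313807)) .e))) .e)) (.alt (nat_lit 31) (.exp (.alt (nat_lit 27) (.cov (nat_lit 394299163371828674562)) (.alt (nat_lit 29) (.cov (nat_lit 183870947395)) .e))) .e)))) .e)))) .e)) (.alt (nat_lit 22) (.exp (.alt (nat_lit 30) (.cov (nat_lit 7632340608998457737218)) (.alt (nat_lit 30) (.exp (.alt (nat_lit 14) (.cov (nat_lit 43114652603871596118023))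 (.alt (nat_lit 31) (.cov (nat_lit 347894065371913439412224)) .e))) .e))) .e))))) .e)) .e)) .e)) (.alt (nat_lit 20) (.cov (nat_lit 42123160215577595740161)) (.alt (nat_lit 20) (.exp (.alt (nat_lit 22) (.cov (nat_lit 3094442675165030514722)) (.alt (nat_lit 21) (.cov (nat_lit 1985334272404436811783)) (.alt (nat_lit 21) (.cov (nat_lit 343900352690663707377667)) (.alt (nat_lit 21) (.exp (.alt (nat_lit 17) (.exp (.alt (nat_lit 23) (.cov (nat_lit 2626355334876534669323)) (.alt (nat_lit 23) (.exp (.alt (nat_lit 22) (.exp (.alt (nat_lit 18) (.exp (.alt (nat_lit 30) (.exp (.alt (nat_lit 31) (.cov (nat_lit 350153790181737879306243)) (.alt (nat_lit 31) (.exp (.alt (nat_lit 29) (.exp (.alt (nat_lit 27) (.cov (nat_lit 394299163371660902401)) (.alt (nat_lit 15) (.cov (nat_lit 46417313807)) .e))) .e)) (.alt (nat_lit 31) (.exp (.alt (nat_lit 27) (.cov (nat_lit 394299163371828674562)) (.alt (nat_lit 29) (.cov (nat_lit 183870947395)) .e))) .e)))) .e)) .e)) .e)) (.alt (nat_lit 23) (.cov (nat_lit 6712314627121593974785)) (.alt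 (nat_lit 23) (.exp (.alt (nat_lit 22) (.exp (.alt (nat_lit 18) (.exp (.alt (nat_lit 26) (.exp (.alt (nat_lit 24) (.exp (.alt (nat_lit 10) (.exp (.alt (nat_lit 30) (.cov (nat_lit 45450471563407243870209)) (.alt (nat_lit 30) (.exp (.alt (nat_lit 31) (.cov (nat_lit 214443410852005543936)) (.alt (nat_lit 28) (.cov (nat_lit 185015992328)) .e))) .e))) .e)) .e)) .e)) .e)) (.alt (nat_lit 22) (.cov (nat_lit 807045482053875269635)) (.alt (nat_lit 22) (.exp (.alt (nat_lit 18) (.exp (.alt (nat_lit 30) (.cov (nat_lit 104588427244900276240386)) (.alt (nat_lit 30) (.cov (nat_lit 45411272370789076172801)) (.alt (nat_lit 30) (.exp (.alt (nat_lit 28) (.cov (nat_lit 29053621933703684947971)) (.alt (nat_lit 31) (.exp (.alt (nat_lit 29) (.exp (.alt (nat_lit 27) (.cov (nat_lit 394299163371660902401)) (.alt (nat_lit 15) (.cov (nat_lit 46417313807)) .e))) .e)) (.alt (nat_lit 31) (.exp (.alt (nat_lit 27) (.cov (nat_lit 394299163371828674562)) (.alt (nat_lit 29) (.cov (nat_lit 183870947395)) .e))) .e)))) .e)))) .e)) (.alt (nat_lit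 7) (.cov (nat_lit 19141758858)) .e))))) .e))))) .e)) (.alt (nat_lit 21) (.cov (nat_lit 292563673)) .e)))))) .e)))))) .e)) (.alt (nat_lit 4) (.cov (nat_lit 10515133702)) .e))))))) .e))))))) .e)) (.alt (nat_lit 1) (.cov (nat_lit 118503950)) .e)))))))) .e)))))))) .e)) .e))])]

/-- the special vectors, positions [0, 9, 6] -/
def s3_4 : List (List ℕ) := [[1, 21, 1], [1, 18, 4], [1, 15, 7], [1, 14, 8], [1, 11, 11], [1, 8, 14], [1, 7, 15], [1, 4, 18], [1, 1, 21], [4, 18, 1], [4, 15, 4], [4, 11, 8], [4, 8, 11], [4, 4, 15], [4, 1, 18], [7, 15, 1], [7, 8, 8], [7, 1, 15], [8, 14, 1], [8, 11, 4], [8, 8, 7], [8, 7, 8], [8, 4, 11], [8, 1, 14], [11, 11, 1], [11, 8, 4], [11, 4, 8], [11, 1, 11], [12, 10, 1], [12, 8, 3], [12, 7, 4], [12, 4, 7], [12, 3, 8], [12, 1, 10], [14, 8, 1], [14, 1, 8], [15, 7, 1], [15, 4, 4], [15, 1, 7], [18, 4, 1], [18, 1, 4], [19, 3, 1], [19, 1, 3], [21, 1, 1]]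

theorem t3_4 : ∀ s ∈ s3_4, GF FULL [0, 9, 6] s := by
  intro s hs
  have h := JT.chkW_ok (zs := [0, 9, 6]) good (by decide) (by decide) (L := w3_4) (by decide +kernel)
  have e : s3_4 = w3_4.map Prod.fst := rfl
  rw [e] at hs
  obtain ⟨x, hx, rfl⟩ := List.mem_map.1 hs
  exact h x hx

theorem d3_4 : Bm.cls itab 9532 (fun l => JT.ro (exV [] l) (Bm.spV s3_4 l)) [0, 6, 9] [0, 0, 0] 115 23
    (nat_lit 0x253b1d730ec81d80253b0ec623e522801aae253b053224020534253b240324db02d025382530250d03641d68253a0fcb253a0563232224e50bd8234c23cf11aa236725311ce213d80a41239d252c25191b381add251c253900eb253a22540a8c23ca237a11b722710dc724fc253a17d111b2193317472504253a1e3c0dcd22641d4a2249226a22521d53253523e90a661cf00c99253b24590320253b117d237223c71f6325360d530c7f1d03253b0ca9225125341ab323c62272250301be251117252539133001bd2459253b17752533177922640b03253925371cfe1008238e1a1e225207a5253623c004eb2410253a1d7124081d4a1d702272225222512348196c1a352274232f11ab252f1d8024591a391d6225392468035e226a25390ae40d1024ed237d2359251f0a69098f25362252235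70a58252e20b30c802538227f1b1923b9227025030db11ce4250213961cdf11a92521227b2430141b11ab1af92539032224ef253a2534244104e8240b0dcc24c30d102130253811ab227f243b1d5524411a552539252e012d00a92536252d09be252823f3245123dd0e161d621d792409253a09b22266253a0d111d6725310505246b01bf251e24ff2448224b11e011ab1d542535252e09c5240823e7243f0e2f243111aa226d253500bd25380acb244424422539031d245200252536253a24f30c7e2249244d253304f1096c225d25361b3b11a92538253a11aa1ae9251e22800da404e5245e2535245204f9251923581d071d512411253804e8226111a92433253a25390026245e09b1243b031e253a24430d1025391d801d621b66243d174924541d4c253211aa1d7325390027253600a8252f25390506252e244d0d0d2348243f245e25370351243f24670ad211882538178c241104e825381add1d4f245e2537241004f1246b1d2c1a20253700b125130d142516227f116424622253) = true := by decide +kernel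

theorem f3_4 : CB B3 (maskL [0, 6, 9]) 23 :=
  cb igood d3_4 rfl (by decide) (by decide) (by norm_num) (fun _ hk => Or.inl hk)
    t3_4 (fun _ _ h => absurd h List.not_mem_nil)

/-- the representatives of this file -/
def reps3_0 : List (List ℕ) :=
  [[0, 1, 2],
   [0, 3, 5],
   [0, 6, 9]]

theorem all3_0 : ∀ zs ∈ reps3_0, CB B3 (maskL zs) 23 := by
  unfold reps3_0
  refine List.forall_mem_cons.2 ⟨f3_0, ?_⟩
  refine List.forall_mem_cons.2 ⟨f3_2, ?_⟩
  refine List.forall_mem_cons.2 ⟨f3_4, ?_⟩
  exact fun _ h => absurd h List.not_mem_nil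

end K4

end Pool.Agent.Work.MP_bf01b2_co.MR
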