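import Pool.Agent.Work.MP_bf01b2_co.MR.K4I

/-!
# Three roots in `Q_5`: certificates of the classes of positions, part 1
-/

set_option autoImplicit false
set_option maxRecDepth 100000

namespace Pool.Agent.Work.MP_bf01b2_co.MR

namespace K4

open Tab Exc

/-- certificates of the special vectors -/
def w3_6 : List (List ℕ × List (JT.J true)) :=
  [([1, 18, 4], [.cov (nat_lit 887355449174017177883061572861952), .cov (nat_lit 76059069863653638504078918025216), .cov (nat_lit 887355449174017177883061572861952), .cov (nat_lit 76059069863653639561809103945728), .cov (nat_lit 887355449174017177883061572861952), .cov (nat_lit 76059069863653639564008127201280), .cov (nat_lit 887355449174017177883061572861952), .cov (nat_lit 76059069863653639396882359779328), .cov (nat_lit 887355449174017177883061572861952), .cov (nat_lit 76059069863653639001058173779968), .cov (nat_lit 887355449174017177883061572861952), .cov (nat_lit 76059069863653639003257197035520), .cov (nat_lit 887355449174017177883061572861952), .cov (nat_lit 76059069863653639005456220291072)]),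
   ([1, 14, 8], [.cov (nat_lit 55893251339138120332199247466201088), .cov (nat_lit 58651660171604746567126910217748480), .exp (.alt (nat_lit 0) (.rot (.exp (.alt (nat_lit 15) (.cov (nat_lit 770163715082430483192060745318662146)) (.alt (nat_lit 15) (.cov (nat_lit 14684522073734700950172707255746561)) (.alt (nat_lit 15) (.cov (nat_lit 81191196917412939788432117334016)) (.alt (nat_lit 15) (.cov (nat_lit 344326951118608276652126)) .e)))))) .e), .cov (nat_lit 55893251339138120332199247466201088), .cov (nat_lit 58651660171604746567126910217748480), .cov (nat_lit 891853045567732206980550298408321024), .cov (nat_lit 55893251339138120332199247466201088), .cov (nat_lit 58651660171604746567126910217748480), .cov (nat_lit 891853045567732206982028042036051968), .cov (nat_lit 55893251339138120332199247466201088), .cov (nat_lit 58651660171604746567126910217748480), .cov (nat_lit 891853045567732206980552497431576576), .cov (nat_lit 55893251339138120332199247466201088), .cov (nat_lit 58651660171604746567126910217748480), .cov (nat_lit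 891853045567732206969698118642171904)]),
   ([1, 3, 19], [.cov (nat_lit 76130991278514120310826169532416), .cov (nat_lit 76131532877281307664696437899264), .cov (nat_lit 76131537712984586123213136723968), .cov (nat_lit 76131542548687864581729835548672), .cov (nat_lit 76131677948379661420197402640384), .cov (nat_lit 76131682784082939878714101465088), .cov (nat_lit 76131547384391143040246534373376), .cov (nat_lit 4294872411280412377585821606215680), .cov (nat_lit 4294872411280412377585821606215680), .cov (nat_lit 4294872411280412377585821606215680), .cov (nat_lit 4294872411280412377585821606215680), .cov (nat_lit 4294872411280412377585821606215680), .cov (nat_lit 4294872411280412377585821606215680), .cov (nat_lit 4294872411280412377585821606215680)]),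
   ([4, 18, 1], [.cov (nat_lit 76059036013730689899193589301254), .cov (nat_lit 76059036013730689899193589301254), .cov (nat_lit 76059036013730689899193589301254), .cov (nat_lit 76059036013730689899193589301254), .cov (nat_lit 76059036013730689899193589301254), .cov (nat_lit 76059036013730689899193589301254), .cov (nat_lit 76059036013730689899193589301254), .cov (nat_lit 76059036013952050223346540871687), .cov (nat_lit 76059036013730690356590258683911), .cov (nat_lit 76059036013730690358789281939463), .cov (nat_lit 76059036013730690189464491261959), .cov (nat_lit 76059036013952050720325796626439), .cov (nat_lit 76059036013952050722524819881991), .cov (nat_lit 76059036013952050724723843137543)]),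
   ([8, 14, 1], [.cov (nat_lit 76059036016829736744124030124254), .cov (nat_lit 76059036016829736744124030124254), .cov (nat_lit 76059036016829736744124030124254), .cov (nat_lit 76059036016829736744124030124254), .cov (nat_lit 76059036016829736744124030124254), .cov (nat_lit 76059036055789260227799173562823), .cov (nat_lit 76059036055789260227799173562823), .cov (nat_lit 76059036055789260227799173562823), .cov (nat_lit 76059036055789260227799173562823), .cov (nat_lit 76059036055789260227799173562823), .rot (.rot (.exp (.alt (nat_lit 15) (.exp (.alt (nat_lit 0) (.cov (nat_lit 770163715082430476274531717674434562)) (.alt (nat_lit 0) (.cov (nat_lit 56222896951684795404780978479038465)) (.alt (nat_lit 0) (.cov (nat_lit 757182972844215035689148010994860032)) (.alt (nat_lit 0) (.cov (nat_lit 45415910099840229441630)) .e))))) .e))), .cov (nat_lit 76059036013730684192912488530143), .cov (nat_lit 76059036013730681817967372533983), .cov (nat_lit 76059036023839495239395555934431), .cov (nat_lit 76059036023839495241594579189983)]),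
   ([8, 11, 4], [.cov (nat_lit 887355449174017157227647676186846), .cov (nat_lit 76059069863653618728274323570910), .cov (nat_lit 887355449174017157227647676186846), .cov (nat_lit 76059069863653618728274323570910), .cov (nat_lit 887355449174017157227647676186846), .cov (nat_lit 76059069863653618728274323570910), .cov (nat_lit 887355449174017157227647676186846), .cov (nat_lit 76059069863653618728274323570910), .cov (nat_lit 887355449174017157227648246612423), .cov (nat_lit 76059069863653618728274893996487), .cov (nat_lit 887355449174017157227648246612423), .cov (nat_lit 76059069863653618728274893996487), .cov (nat_lit 887355449174017157227648246612423), .cov (nat_lit 76059069863653618728274893996487), .cov (nat_lit 887355449174017157227648246612423), .cov (nat_lit 76059069863653618728274893996487), .cov (nat_lit 887355449174533668922813671538911), .rot (.rot (.exp (.alt (nat_lit 15) (.exp (.alt (nat_lit 7) (.exp (.alt (nat_lit 3) (.exp (.alt (nat_lit 5) (.exp (.alt (nat_lit 0) (.cov (nat_lit 81155896285188822257770742939650))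 (.alt (nat_lit 0) (.cov (nat_lit 81155896308800654683114085285889)) (.alt (nat_lit 0) (.cov (nat_lit 81155896285050471703606193029120)) (.alt (nat_lit 0) (.cov (nat_lit 41874123848946559221854)) .e))))) .e)) .e)) .e)) .e))), .cov (nat_lit 887355449174533668922813671538911), .cov (nat_lit 76059069863653615911498405642463), .cov (nat_lit 887355449174533668922813671538911), .cov (nat_lit 76059069905638402562332089647327), .cov (nat_lit 887355449174533668922813671538911), .cov (nat_lit 76059069865276926537851683733727)]),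
   ([10, 12, 1], [.cov (nat_lit 76059036013730673019502387529355), .cov (nat_lit 76059036013730673019502387529355), .cov (nat_lit 76059036013730673019502387529355), .cov (nat_lit 76059036013730673019502387529355), .cov (nat_lit 76059036013730673019502387529355), .cov (nat_lit 76059036013730673019492186982028), .cov (nat_lit 76059036013730673019492186982028), .cov (nat_lit 76059036013730673019492186982028), .cov (nat_lit 76059036013730673019492186982028), .cov (nat_lit 76059036013730673019492186982028), .cov (nat_lit 76059036013730673019509836614340), .cov (nat_lit 76059036013730676012361898264206), .cov (nat_lit 76059036023839495239211476321934), .cov (nat_lit 76059036420518273579224884315790), .cov (nat_lit 76059036418009509977246618617486), .rot (.rot (.exp (.alt (nat_lit 15) (.exp (.alt (nat_lit 0) (.cov (nat_lit 81163594729392144145060370317314)) (.alt (nat_lit 0) (.cov (nat_lit 103338678612190484758760)) .e))) .e))), .cov (nat_lit 76059036013730676012361562719242), .cov (nat_lit 76059036023839495239211140776970),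 .cov (nat_lit 76059036020371501132316955116554), .cov (nat_lit 76059036023839482610220584141834)]),
   ([12, 10, 1], [.cov (nat_lit 76059036038965807154148231088972), .cov (nat_lit 76059036016534566362764019770363), .cov (nat_lit 76059036013730661267931370890299), .cov (nat_lit 76059036014468529614708776379451), .cov (nat_lit 76059036038965807154148566637434), .cov (nat_lit 76059036016534566362764019770363), .cov (nat_lit 76059036013730661267931370890299), .cov (nat_lit 76059036014468529614708776379451), .cov (nat_lit 76059036038965807154148231091627), .cov (nat_lit 76059036016534566362764019770363), .cov (nat_lit 76059036013730661267931370890299), .cov (nat_lit 76059036014468529614708776379451), .cov (nat_lit 76059036038965807154148231094464), .cov (nat_lit 76059036016534566362764019770363), .cov (nat_lit 76059036013730661267931370890299), .cov (nat_lit 76059036014468529614708776379451), .rot (.rot (.exp (.alt (nat_lit 15) (.rot (.exp (.alt (nat_lit 16) (.exp (.alt (nat_lit 17) (.exp (.alt (nat_lit 1) (.exp (.alt (nat_lit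 3) (.exp (.alt (nat_lit 5) (.cov (nat_lit 23314044580528143)) .e)) .e)) .e)) .e)) (.alt (nat_lit 16) (.exp (.alt (nat_lit 17) (.exp (.alt (nat_lit 1) (.exp (.alt (nat_lit 3) (.cov (nat_lit 23316243603783714)) .e)) .e)) .e)) (.alt (nat_lit 16) (.exp (.alt (nat_lit 17) (.cov (nat_lit 47476961480344475169666891776)) .e)) (.alt (nat_lit 16) (.exp (.alt (nat_lit 17) (.exp (.alt (nat_lit 18) (.cov (nat_lit 1622637537233514489676285731667970)) (.alt (nat_lit 18) (.cov (nat_lit 889018622342116080853720817935056897)) (.alt (nat_lit 18) (.cov (nat_lit 162306753764061221068548071227392)) (.alt (nat_lit 18) (.cov (nat_lit 365540700698885698355294)) .e))))) .e)) (.alt (nat_lit 16) (.cov (nat_lit 102268769278902700868088)) .e))))))) .e))), .cov (nat_lit 76059036016534566362764019770363), .cov (nat_lit 76059036013730661267931370890299), .cov (nat_lit 76059036014468529614708776379451)]),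
   ([12, 8, 3], [.cov (nat_lit 76059045710519934828590514836908), .cov (nat_lit 76059050546223213287107213661612), .cov (nat_lit 76059045711774313937975182893249), .cov (nat_lit 76059050547477592396491881712461), .cov (nat_lit 76059045787332177153716111020161), .cov (nat_lit 76059050547477591886318486424397), .cov (nat_lit 76059045710519934828590514842008), .cov (nat_lit 76059050546223213287107213665910), .cov (nat_lit 76059045711774313937975182895513), .cov (nat_lit 76059050547477592396491881717954), .cov (nat_lit 76059045695246030737758029358711), .cov (nat_lit 76059050547477591886318486429891), .cov (nat_lit 76059045710519934828590514842562), .cov (nat_lit 76059050546223213287107213667267), .cov (nat_lit 76059045711774313937975182895514), .cov (nat_lit 76059050547477592396491881719416), .cov (nat_lit 76059045711774313427801787608004), .cov (nat_lit 76059050547477591886318486431353), .cov (nat_lit 76059045688088694034959700077509), .cov (nat_lit 76059050870959695969486253336186), .cov (nat_lit 76059045711774313937975182894715),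 .cov (nat_lit 76059050546223213808275725232539), .cov (nat_lit 76059045711774313427801787608006), .cov (nat_lit 76059050547477591886318486432711), .cov (nat_lit 76059045706978159970836327436418), .cov (nat_lit 76059050520840493448279940410294), .cov (nat_lit 76059045711774313937975182894716), .cov (nat_lit 76059050521430789773210087860636), .cov (nat_lit 76059045711774313427801787601026), .cov (nat_lit 76059050547477591886318486429892)]),
   ([12, 3, 8], [.cov (nat_lit 105382330771699331316507367385867333), .cov (nat_lit 105382331898418195197341621880366376), .cov (nat_lit 891853045567732206953944316039400270), .cov (nat_lit 764804031805622440139882419831447711), .cov (nat_lit 105382331898418195197343820903621928), .cov (nat_lit 891853045567732206953946561535550751), .cov (nat_lit 894611453268993130853142625515481501), .cov (nat_lit 105382331898418195197341621880366376), .cov (nat_lit 891853045567732206953944317381580199), .cov (nat_lit 764804031805622440139882419831447711), .cov (nat_lit 58651660171604746540569306360456829),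 .cov (nat_lit 891853045567732206953946561535550751), .cov (nat_lit 894611453268993130853142625515481502), .cov (nat_lit 105382331898418195197341621880366376), .cov (nat_lit 891853045567732206953944316039405765), .cov (nat_lit 894611453268993130853144824538737608), .cov (nat_lit 58651660171604746540569306360456830), .cov (nat_lit 891853045567732206953946561535550751), .cov (nat_lit 6566431182708393011036175208554694), .cov (nat_lit 887357630076195730082369072275655), .cov (nat_lit 891853045567732206953944316039407231), .cov (nat_lit 6566431182708393011038374231810246), .cov (nat_lit 58651660171604746540569306360456832), .cov (nat_lit 891853045567732206953946561535550751), .cov (nat_lit 6566431182708393011036175208551853), .cov (nat_lit 887357630076195730082369072272814), .rot (.exp (.alt (nat_lit 16) (.exp (.alt (nat_lit 17) (.exp (.alt (nat_lit 18) (.exp (.alt (nat_lit 15) (.cov (nat_lit 759373460764873403362895842964930562)) (.alt (nat_lit 15) (.cov (nat_lit 40581221984305029611424579585)) (.alt (nat_lit 15) (.cov (nat_lit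 56141754058607112780837754049134592)) (.alt (nat_lit 15) (.cov (nat_lit 365540700698885703598174)) .e))))) .e)) .e)) .e)), .cov (nat_lit 55893251338789255482078089359402625), .cov (nat_lit 58651660171604746540569306360454020), .cov (nat_lit 891853045567732206953946561535550751)]),
   ([16, 6, 1], [.cov (nat_lit 76059036013730657619731053294874), .cov (nat_lit 76059036013730657654915425383706), .cov (nat_lit 76059036013730657652716402128559), .cov (nat_lit 76059036013730657619731053295303), .cov (nat_lit 76059036013730657654915425384135), .cov (nat_lit 76059036013730657652716402128559), .cov (nat_lit 76059036013730657619731053295304), .cov (nat_lit 76059036013730657654915458938568), .cov (nat_lit 76059036013730657652716402128559), .cov (nat_lit 76059036013730657619731053295547), .cov (nat_lit 76059036013730657654915425384379), .cov (nat_lit 76059036013730657652716402128559), .cov (nat_lit 76059036013730657619731053295548), .cov (nat_lit 76059036013730657654915425384380), .cov (nat_lit 76059036013730657652716402128559),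 .cov (nat_lit 76059036014468527384878693496078), .cov (nat_lit 76059036013730657657114448639663), .cov (nat_lit 76059036013730657652716402128559)]),
   ([16, 3, 4], [.cov (nat_lit 887355449174017145291338137220994), .cov (nat_lit 76059069863653606791964549723419), .cov (nat_lit 887355449174017145293695067633163), .cov (nat_lit 76059069863653606794163572979633), .cov (nat_lit 887355449174017145291338137220994), .cov (nat_lit 76059069863653606791964549723849), .cov (nat_lit 887355449174017145293695067633163), .cov (nat_lit 76059069863653606794163572979633), .cov (nat_lit 887355449174017145291338137220994), .cov (nat_lit 76059069863653606791964549724093), .cov (nat_lit 887355449174017145293695067633163), .cov (nat_lit 76059069863653606794163572979633), .cov (nat_lit 887355449174017145291338137220994), .cov (nat_lit 76059069863653606791964549723850), .cov (nat_lit 887355449174017145293695067633163), .cov (nat_lit 76059069863653606794163572979633), .cov (nat_lit 887355449174017145291338137220994), .cov (nat_lit 76059069863653606791964549723851),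 .cov (nat_lit 887355449174017145293695067633163), .cov (nat_lit 76059069863653606794163572979633), .cov (nat_lit 887355449174017145291338137220994), .cov (nat_lit 764804030765946235271299131064202510), .cov (nat_lit 887355449174017145293695067633163), .cov (nat_lit 76059069863653606794163572979633)])]

/-- the special vectors, positions [0, 16, 15] -/
def s3_6 : List (List ℕ) := [[1, 18, 4], [1, 14, 8], [1, 3, 19], [4, 18, 1], [8, 14, 1], [8, 11, 4], [10, 12, 1], [12, 10, 1], [12, 8, 3], [12, 3, 8], [16, 6, 1], [16, 3, 4]]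

theorem t3_6 : ∀ s ∈ s3_6, GF FULL [0, 16, 15] s := by
  intro s hs
  have h := JT.chkW_ok (zs := [0, 16, 15]) good (by decide) (by decide) (L := w3_6) (by decide +kernel)
  have e : s3_6 = w3_6.map Prod.fst := rfl
  rw [e] at hs
  obtain ⟨x, hx, rfl⟩ := List.mem_map.1 hs
  exact h x hx

/-- the exceptions, positions [0, 16, 15] -/
def e3_6 : List (List ℕ) := [[1, 21, 1], [19, 3, 1]]

theorem x3_6 (k : ℕ → ℕ) : ∀ s ∈ e3_6, (k 0 + 1) :: ([15, 16].map fun z => k z + 1).reverse = s →
    B3 (maskL [0, 15, 16]) k := by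
  intro s hs h
  simp only [e3_6, List.mem_cons, List.not_mem_nil, or_false] at hs
  rcases hs with rfl | rfl
  · obtain ⟨h0, h16, h15⟩ : k 0 + 1 = 1 ∧ k 16 + 1 = 21 ∧ k 15 + 1 = 1 := inj3 h
    have e := szs3 (a := 0) (b := 15) (c := 16) (by decide) (by decide) h0 h15 h16
    exact Or.inr ⟨16, 0, by decide, by decide, ⟨4, by norm_num, by decide⟩, by
      rw [e, h16, h0]; decide⟩
  · obtain ⟨h0, h16, h15⟩ : k 0 + 1 = 19 ∧ k 16 + 1 = 3 ∧ k 15 + 1 = 1 := inj3 h
    have e := szs3 (a := 0) (b := 15) (c := 16) (by decide) (by decide) h0 h15 h16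
    exact Or.inr ⟨0, 16, by decide, by decide, ⟨4, by norm_num, by decide⟩, by
      rw [e, h0, h16]; decide⟩

theorem d3_6 : Bm.cls itab 9532 (fun l => JT.ro (exV e3_6 l) (Bm.spV s3_6 l)) [0, 15, 16] [0, 0, 0] 167 23
    (nat_lit 0x253a253b006d253b253500dc253a253600e3253b24e601b52535253a01ac24ef253b01ad253924ef03922535250a036924ef2536036a246b253b036a253b238b05152537246b054f253b227f07d6253a240607d72283253b07d8253b21390b0c2512240f0b2c240325340b32253b1d830eb2228324f60ecc2411246a119c23831ff41d6b0eb4253b1d83253b0b0f213911ac25282059253b051624110eb524ef24110b12252b24110517253b2411253b036b246b036c253b246b2539036b24ef2535053b24ef24110eb624ef15c920db24cb0521251424ef2535037e250d24ef0547250a24110b10253522830eb72535052224ed2534036d2535253401b2253a2535253501b7253a24ef037725392469053d253922830b232539213a0ecb253a03a824ef253701ae25322539253a006e253b24ed01b7253b246903a9253b23c7053d253b228207e0253b21390b18253b05182411253b03a8246b253b00dd252b253b246b0cde238f24d2253503b0253b253b000f251c09e5238820c2160d2476253a250c00ea24e122560ef9253b24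4301bc253b0010253b240225370786243f240c0efa1cf5253b0d941a9a19f124fc10a220622527227d24b40f2e2453250505600c9d1d5d253b2538227e0919228321261f13244c228315eb03b42537245e03b7246b25381d810c8e253b2119253b0af6253b00a624ea1d6b2522143820992260211223c31b6b225c194524f61954118625391b9c0cab252522741d7e2282227621a6253a0a4525391d7c112e25341af017702538098d2283179a253a12492411238a127523ae24ef0d411d7e25370f2e12f0252e1d0b1b0511ab2538162c253b12e0159e25381a0e0dd5238d24ed18ec225d234824e711aa21162459253803b2253820e80d1b18981d53246822c11d6320e4253a0c9920e9253b0c831b7c22710f3524400985245f246625330ca522680dea2066253a24d52119124a2535225c0e9c0bc522552515253a19801277253b253900502465073b253324531d691a10253a11ab1af3245309d1246b253b002325370372253824dc234c076e2537253b071f2281079f245c24ea21391d4e226424db24600561246a1b6e1d6b20e524ec12a8253907c323b120fb25380d34244b2454099200242539253a253b160d1168136c1cff253511ac2271245b245e11aa225e092724102514253700aa252e1d651882245e0dd225391e7524ea24080bc0074a24ca24442268161223bd251f1d7114c5076022832539176024401d65116a1b0c2539227d245b14161d75246017441d6b11ab2535146b162f2538227d22641a131d711d03235c1d6c24101d5f07a2253722800075253b250d11ac244f226524e807482464253a03b82467250611a91d16152223c2225c)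 = true := by decide +kernel

theorem f3_6 : CB B3 (maskL [0, 15, 16]) 23 :=
  cb igood d3_6 rfl (by decide) (by decide) (by norm_num) (fun _ hk => Or.inl hk)
    t3_6 x3_6

/-- certificates of the special vectors -/
def w3_8 : List (List ℕ × List (JT.J true)) :=
  [([1, 21, 1], [.cov (nat_lit 76059036013732996448089100255232), .cov (nat_lit 76059036013732996676787518832640), .cov (nat_lit 76059036013732996678986542088192), .cov (nat_lit 76059036013732996718568960688128), .cov (nat_lit 76059036013732996720767983943680), .exp (.alt (nat_lit 0) (.rot (.exp (.alt (nat_lit 15) (.cov (nat_lit 17840936)) .e))) .e), .exp (.alt (nat_lit 0) (.rot (.exp (.alt (nat_lit 15) (.exp (.alt (nat_lit 17) (.exp (.alt (nat_lit 1) (.cov (nat_lit 55898340079913214320309795239755783)) (.alt (nat_lit 1) (.cov (nat_lit 19552262128207904514288437609627651)) (.alt (nat_lit 1) (.cov (nat_lit 845127467954515488193176071681605633)) (.alt (nat_lit 1) (.exp (.alt (nat_lit 3) (.exp (.alt (nat_lit 5) (.cov (nat_lit 894616547716246902932174222706868226))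 (.alt (nat_lit 5) (.cov (nat_lit 1749377030893092690444118398074881)) (.alt (nat_lit 5) (.cov (nat_lit 139345243820751651074185797872648192)) (.alt (nat_lit 5) (.cov (nat_lit 10145720426971576402014)) .e))))) .e)) (.alt (nat_lit 1) (.cov (nat_lit 41874117795039799149048)) .e)))))) (.alt (nat_lit 17) (.cov (nat_lit 795527778884989748169)) (.alt (nat_lit 17) (.cov (nat_lit 2318049798874202571)) (.alt (nat_lit 17) (.cov (nat_lit 2321106430529110248)) (.alt (nat_lit 17) (.cov (nat_lit 404470246521396387643617)) (.alt (nat_lit 17) (.cov (nat_lit 21737205687357784719454)) (.alt (nat_lit 17) (.cov (nat_lit 1920793491808793395236)) (.alt (nat_lit 17) (.cov (nat_lit 6643162650889740615696)) (.alt (nat_lit 17) (.cov (nat_lit 43840972269873528851)) (.alt (nat_lit 17) (.cov (nat_lit 2334023492423385099)) (.alt (nat_lit 17) (.cov (nat_lit 7602395022776572313606)) (.alt (nat_lit 17) (.cov (nat_lit 1920798681503674400771)) (.alt (nat_lit 17) (.exp (.alt (nat_lit 1) (.exp (.alt (nat_lit 3) (.exp (.alt (nat_lit 5) (.exp (.alt (nat_lit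 16) (.exp (.alt (nat_lit 18) (.cov (nat_lit 765011931866854828630659583860277250)) (.alt (nat_lit 18) (.cov (nat_lit 14075998788298041866700847941943297)) (.alt (nat_lit 18) (.cov (nat_lit 58859559106118852222978992218570752)) (.alt (nat_lit 18) (.cov (nat_lit 26766228577852535603294)) .e))))) (.alt (nat_lit 16) (.cov (nat_lit 55343680474599915558)) (.alt (nat_lit 16) (.cov (nat_lit 347799530140611496640609)) (.alt (nat_lit 16) (.cov (nat_lit 189087894261532196898)) (.alt (nat_lit 16) (.cov (nat_lit 41506300065778499619)) (.alt (nat_lit 16) (.cov (nat_lit 25438074951838826758159)) (.alt (nat_lit 16) (.cov (nat_lit 793228431780539793415)) (.alt (nat_lit 16) (.cov (nat_lit 61801224519979100012550)) (.alt (nat_lit 16) (.cov (nat_lit 115313925188982145027)) (.alt (nat_lit 16) (.cov (nat_lit 1886201356265099100162)) (.alt (nat_lit 16) (.cov (nat_lit 1890817435931988983809)) (.alt (nat_lit 16) (.cov (nat_lit 46147167122800771072)) (.alt (nat_lit 16) (.cov (nat_lit 18888396)) .e)))))))))))))) .e)) .e)) .e)) (.alt (nat_lit 17)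 (.cov (nat_lit 2338063097973964801)) (.alt (nat_lit 17) (.cov (nat_lit 36926306370486009856)) (.alt (nat_lit 17) (.exp (.alt (nat_lit 1) (.cov (nat_lit 344296957661864759656952)) (.alt (nat_lit 1) (.cov (nat_lit 2589470447107904111558)) (.alt (nat_lit 1) (.exp (.alt (nat_lit 3) (.cov (nat_lit 55538334374410845492983671454433282)) (.alt (nat_lit 3) (.cov (nat_lit 532439524471812024791204384210945)) (.alt (nat_lit 3) (.cov (nat_lit 105331656334504023949042604084035584)) (.alt (nat_lit 3) (.cov (nat_lit 2824669635779488645214)) .e))))) (.alt (nat_lit 1) (.cov (nat_lit 21478943094360054431782)) (.alt (nat_lit 1) (.cov (nat_lit 25389657484519996915809)) (.alt (nat_lit 1) (.cov (nat_lit 21995452126337654849570)) (.alt (nat_lit 1) (.cov (nat_lit 10189543925802622517283)) (.alt (nat_lit 1) (.cov (nat_lit 404433360780407717494799)) (.alt (nat_lit 1) (.cov (nat_lit 4286591906912914112519)) (.alt (nat_lit 1) (.cov (nat_lit 406868333577591820648454)) (.alt (nat_lit 1) (.cov (nat_lit 25463454242069940273155)) (.alt (nat_lit 1) (.cov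 (nat_lit 744817735253978251266)) (.alt (nat_lit 1) (.cov (nat_lit 347843366895154721980417)) (.alt (nat_lit 1) (.exp (.alt (nat_lit 3) (.exp (.alt (nat_lit 5) (.cov (nat_lit 2833886723028261274060)) (.alt (nat_lit 5) (.cov (nat_lit 9231910844345876705)) (.alt (nat_lit 5) (.cov (nat_lit 6502486053491370360926)) (.alt (nat_lit 5) (.cov (nat_lit 3108291173647568076836)) (.alt (nat_lit 5) (.cov (nat_lit 5100545121326292008976)) (.alt (nat_lit 5) (.cov (nat_lit 42067812051479751032850)) (.alt (nat_lit 5) (.cov (nat_lit 29007520508444876472331)) (.alt (nat_lit 5) (.cov (nat_lit 2886939003472848093190)) (.alt (nat_lit 5) (.cov (nat_lit 25265147991743890718723)) (.alt (nat_lit 5) (.cov (nat_lit 9247614069246001154)) (.alt (nat_lit 5) (.cov (nat_lit 30004141801828515841)) (.alt (nat_lit 5) (.cov (nat_lit 347861812722235735015424)) (.alt (nat_lit 5) (.exp (.alt (nat_lit 4) (.exp (.alt (nat_lit 6) (.cov (nat_lit 16773556934797773799417851643166722)) (.alt (nat_lit 6) (.cov (nat_lit 8701157907685711825751445092696065)) (.alt (nat_lit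 6) (.cov (nat_lit 105367122078695863406028572820766720)) (.alt (nat_lit 6) (.cov (nat_lit 249033956502060138590)) .e))))) (.alt (nat_lit 4) (.cov (nat_lit 27672249348128768038)) (.alt (nat_lit 7) (.exp (.alt (nat_lit 6) (.cov (nat_lit 91630868380804961262495088913678338)) (.alt (nat_lit 6) (.cov (nat_lit 55609304103546401386174023546699777)) (.alt (nat_lit 6) (.cov (nat_lit 1414705637730440868451567525691392)) (.alt (nat_lit 6) (.cov (nat_lit 643333641042734874660)) .e))))) (.alt (nat_lit 7) (.exp (.alt (nat_lit 6) (.cov (nat_lit 50092500340904568833473762174173185)) (.alt (nat_lit 6) (.cov (nat_lit 6398723082889396748299)) .e))) (.alt (nat_lit 7) (.cov (nat_lit 404514050407139669704739)) (.alt (nat_lit 7) (.cov (nat_lit 604147706335885000719)) (.alt (nat_lit 7) (.cov (nat_lit 6433317459238568591367)) (.alt (nat_lit 7) (.cov (nat_lit 29085923828289399422982)) (.alt (nat_lit 7) (.cov (nat_lit 6654678586034370904067)) (.alt (nat_lit 7) (.cov (nat_lit 13858583206094176258)) (.alt (nat_lit 7) (.cov (nat_lit 26503385909793009958913))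 (.alt (nat_lit 7) (.cov (nat_lit 53062574092987662336)) (.alt (nat_lit 7) (.cov (nat_lit 1952462085)) .e)))))))))))))) .e)))))))))))))) .e)) (.alt (nat_lit 1) (.cov (nat_lit 3160620)) .e)))))))))))))))) .e))))))))))))))))) .e))) .e), .exp (.alt (nat_lit 0) (.rot (.exp (.alt (nat_lit 15) (.exp (.alt (nat_lit 17) (.cov (nat_lit 795527778875326071016)) (.alt (nat_lit 17) (.cov (nat_lit 344292359919848915992801)) (.alt (nat_lit 17) (.exp (.alt (nat_lit 1) (.exp (.alt (nat_lit 3) (.exp (.alt (nat_lit 5) (.exp (.alt (nat_lit 7) (.exp (.alt (nat_lit 6) (.exp (.alt (nat_lit 23) (.exp (.alt (nat_lit 16) (.cov (nat_lit 6686946090118753026082)) (.alt (nat_lit 21) (.cov (nat_lit 350186075407757445431303)) (.alt (nat_lit 21) (.cov (nat_lit 63154742920482801057795)) (.alt (nat_lit 21) (.exp (.alt (nat_lit 20) (.exp (.alt (nat_lit 29) (.cov (nat_lit 406925951036945578590219)) (.alt (nat_lit 29) (.exp (.alt (nat_lit 28) (.exp (.alt (nat_lit 12) (.exp (.alt (nat_lit 30) (.exp (.alt (nat_lit 25) (.cov (nat_lit 6407937740197084528643))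 (.alt (nat_lit 25) (.exp (.alt (nat_lit 9) (.exp (.alt (nat_lit 24) (.cov (nat_lit 102107340142796938936321)) (.alt (nat_lit 24) (.exp (.alt (nat_lit 26) (.cov (nat_lit 102070446656848511631360)) (.alt (nat_lit 16) (.cov (nat_lit 10521411592)) .e))) .e))) .e)) (.alt (nat_lit 31) (.cov (nat_lit 330301635)) .e)))) .e)) .e)) .e)) (.alt (nat_lit 29) (.cov (nat_lit 347889457969592361025537)) (.alt (nat_lit 29) (.exp (.alt (nat_lit 28) (.exp (.alt (nat_lit 12) (.exp (.alt (nat_lit 8) (.exp (.alt (nat_lit 9) (.exp (.alt (nat_lit 24) (.exp (.alt (nat_lit 30) (.cov (nat_lit 102107340142797515653121)) (.alt (nat_lit 30) (.exp (.alt (nat_lit 26) (.cov (nat_lit 343909567306189947011072)) (.alt (nat_lit 22) (.cov (nat_lit 10521411592)) .e))) .e))) .e)) .e)) .e)) .e)) (.alt (nat_lit 31) (.cov (nat_lit 726340976895724617731)) (.alt (nat_lit 31) (.exp (.alt (nat_lit 30) (.exp (.alt (nat_lit 27) (.cov (nat_lit 25364306098202345474)) (.alt (nat_lit 27) (.cov (nat_lit 1757052515957391491073)) (.alt (nat_lit 27) (.exp (.alt (nat_lit 11)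 (.cov (nat_lit 104576898014480387014659)) (.alt (nat_lit 26) (.exp (.alt (nat_lit 18) (.exp (.alt (nat_lit 10) (.cov (nat_lit 102065834968631090348033)) (.alt (nat_lit 10) (.exp (.alt (nat_lit 8) (.cov (nat_lit 343868062132024094228480)) (.alt (nat_lit 14) (.cov (nat_lit 159228362760)) .e))) .e))) .e)) (.alt (nat_lit 11) (.cov (nat_lit 28766634601)) .e)))) .e)))) .e)) (.alt (nat_lit 13) (.cov (nat_lit 9776926602)) .e))))) .e))))) .e)) (.alt (nat_lit 21) (.cov (nat_lit 255862445)) .e)))))) .e)) .e)) .e)) .e)) .e)) .e)) (.alt (nat_lit 17) (.cov (nat_lit 21582718713737881059339)) (.alt (nat_lit 17) (.exp (.alt (nat_lit 1) (.exp (.alt (nat_lit 3) (.exp (.alt (nat_lit 5) (.exp (.alt (nat_lit 16) (.exp (.alt (nat_lit 18) (.exp (.alt (nat_lit 2) (.exp (.alt (nat_lit 6) (.exp (.alt (nat_lit 10) (.exp (.alt (nat_lit 19) (.exp (.alt (nat_lit 23) (.exp (.alt (nat_lit 27) (.exp (.alt (nat_lit 24) (.cov (nat_lit 104574592186856301920258)) (.alt (nat_lit 20) (.cov (nat_lit 104620709156990002135041)) (.alt (nat_lit 20) (.exp (.alt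 (nat_lit 28) (.cov (nat_lit 350146872652710071500803)) (.alt (nat_lit 28) (.cov (nat_lit 104583815668832845955072)) (.alt (nat_lit 4) (.cov (nat_lit 10347348163)) .e)))) .e)))) .e)) .e)) .e)) .e)) .e)) .e)) (.alt (nat_lit 18) (.cov (nat_lit 21518130403465735700501)) .e))) (.alt (nat_lit 16) (.cov (nat_lit 189087894261532196898)) (.alt (nat_lit 16) (.exp (.alt (nat_lit 18) (.exp (.alt (nat_lit 2) (.exp (.alt (nat_lit 6) (.exp (.alt (nat_lit 10) (.exp (.alt (nat_lit 20) (.cov (nat_lit 347880229223142669680651)) (.alt (nat_lit 20) (.exp (.alt (nat_lit 21) (.exp (.alt (nat_lit 23) (.exp (.alt (nat_lit 29) (.exp (.alt (nat_lit 28) (.cov (nat_lit 129127226108333260803)) (.alt (nat_lit 28) (.exp (.alt (nat_lit 12) (.exp (.alt (nat_lit 24) (.cov (nat_lit 428886808509848485889)) (.alt (nat_lit 30) (.cov (nat_lit 4624220175)) .e))) .e)) (.alt (nat_lit 28) (.exp (.alt (nat_lit 24) (.cov (nat_lit 428886808510016258050)) (.alt (nat_lit 12) (.cov (nat_lit 18933088323)) .e))) .e)))) .e)) .e)) .e)) (.alt (nat_lit 20) (.cov (nat_lit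 6705397098093956038657)) (.alt (nat_lit 20) (.exp (.alt (nat_lit 21) (.cov (nat_lit 104623014997791085690887)) (.alt (nat_lit 21) (.cov (nat_lit 350186072395086931427331)) (.alt (nat_lit 21) (.exp (.alt (nat_lit 23) (.exp (.alt (nat_lit 29) (.cov (nat_lit 57646108215872585730)) (.alt (nat_lit 29) (.cov (nat_lit 795515981115249655809)) (.alt (nat_lit 29) (.exp (.alt (nat_lit 13) (.cov (nat_lit 3864592901218191278083)) (.alt (nat_lit 25) (.exp (.alt (nat_lit 9) (.exp (.alt (nat_lit 24) (.cov (nat_lit 428886808666233110529)) (.alt (nat_lit 27) (.cov (nat_lit 185012846607)) .e))) .e)) (.alt (nat_lit 25) (.exp (.alt (nat_lit 24) (.cov (nat_lit 428886808510016258050)) (.alt (nat_lit 9) (.cov (nat_lit 1753219139)) .e))) .e)))) .e)))) .e)) (.alt (nat_lit 4) (.cov (nat_lit 1790971783)) .e))))) .e))))) .e)) .e)) .e)) .e)) (.alt (nat_lit 16) (.cov (nat_lit 115313925188982145027)) (.alt (nat_lit 16) (.exp (.alt (nat_lit 18) (.exp (.alt (nat_lit 20) (.cov (nat_lit 2630968778025143894037)) (.alt (nat_lit 20) (.cov (nat_lit 45591133642860038979595))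 (.alt (nat_lit 20) (.cov (nat_lit 22053094480862475452418)) (.alt (nat_lit 20) (.cov (nat_lit 654877732480430899201)) (.alt (nat_lit 20) (.exp (.alt (nat_lit 28) (.exp (.alt (nat_lit 24) (.cov (nat_lit 152118260621422560643575638392833)) (.alt (nat_lit 24) (.cov (nat_lit 24121425076182547693579)) .e))) (.alt (nat_lit 4) (.cov (nat_lit 350146876076746289971207)) (.alt (nat_lit 4) (.cov (nat_lit 3938388600855711449091)) (.alt (nat_lit 4) (.exp (.alt (nat_lit 6) (.exp (.alt (nat_lit 12) (.cov (nat_lit 10127262637206947233803)) (.alt (nat_lit 12) (.exp (.alt (nat_lit 8) (.exp (.alt (nat_lit 9) (.exp (.alt (nat_lit 24) (.exp (.alt (nat_lit 14) (.cov (nat_lit 659471118273718779907)) (.alt (nat_lit 14) (.exp (.alt (nat_lit 10) (.exp (.alt (nat_lit 30) (.cov (nat_lit 1621007644273342939137)) (.alt (nat_lit 30) (.exp (.alt (nat_lit 31) (.cov (nat_lit 1611784274435512467456)) (.alt (nat_lit 22) (.cov (nat_lit 124780552)) .e))) .e))) .e)) (.alt (nat_lit 14) (.cov (nat_lit 165675625)) .e)))) .e)) .e)) .e)) (.alt (nat_lit 12) (.cov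 (nat_lit 2836192561618711740417)) (.alt (nat_lit 12) (.exp (.alt (nat_lit 13) (.cov (nat_lit 10129568480214081601543)) (.alt (nat_lit 13) (.cov (nat_lit 140656852371579600899)) (.alt (nat_lit 13) (.exp (.alt (nat_lit 9) (.exp (.alt (nat_lit 29) (.cov (nat_lit 10166461860611443654658)) (.alt (nat_lit 29) (.cov (nat_lit 6638522166462762713089)) (.alt (nat_lit 29) (.exp (.alt (nat_lit 25) (.cov (nat_lit 406842940563257650315267)) (.alt (nat_lit 31) (.exp (.alt (nat_lit 23) (.exp (.alt (nat_lit 27) (.cov (nat_lit 1609478429227262935041)) (.alt (nat_lit 27) (.exp (.alt (nat_lit 26) (.cov (nat_lit 202914195805931831296)) (.alt (nat_lit 11) (.cov (nat_lit 1755316232)) .e))) .e))) .e)) (.alt (nat_lit 25) (.cov (nat_lit 10463740521)) .e)))) .e)))) .e)) (.alt (nat_lit 13) (.cov (nat_lit 646975367)) .e))))) .e))))) .e)) (.alt (nat_lit 4) (.cov (nat_lit 13199481811)) .e)))))) .e)))))) .e)) (.alt (nat_lit 16) (.cov (nat_lit 18887950)) .e))))))) .e)) .e)) .e)) (.alt (nat_lit 17) (.cov (nat_lit 76123744168114651137)) (.alt (nat_lit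 17) (.exp (.alt (nat_lit 1) (.cov (nat_lit 344296957661864759656952)) (.alt (nat_lit 1) (.exp (.alt (nat_lit 3) (.exp (.alt (nat_lit 2) (.exp (.alt (nat_lit 6) (.exp (.alt (nat_lit 10) (.exp (.alt (nat_lit 7) (.exp (.alt (nat_lit 5) (.exp (.alt (nat_lit 23) (.exp (.alt (nat_lit 9) (.cov (nat_lit 131433300172958859275)) (.alt (nat_lit 9) (.cov (nat_lit 5109750012772415963138)) (.alt (nat_lit 9) (.cov (nat_lit 608748190529078951937)) (.alt (nat_lit 9) (.exp (.alt (nat_lit 8) (.exp (.alt (nat_lit 12) (.exp (.alt (nat_lit 28) (.exp (.alt (nat_lit 20) (.exp (.alt (nat_lit 29) (.exp (.alt (nat_lit 24) (.cov (nat_lit 428886808509890428929)) (.alt (nat_lit 24) (.exp (.alt (nat_lit 26) (.cov (nat_lit 2845410284364842926080)) (.alt (nat_lit 16) (.cov (nat_lit 656408584)) .e))) .e))) .e)) .e)) .e)) .e)) (.alt (nat_lit 8) (.cov (nat_lit 25438060506501424873475)) (.alt (nat_lit 13) (.cov (nat_lit 66872888738604646400)) (.alt (nat_lit 11) (.cov (nat_lit 156995948426)) .e))))) .e))))) .e)) .e)) .e)) .e)) .e)) .e)) (.alt (nat_lit 3)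 (.exp (.alt (nat_lit 2) (.exp (.alt (nat_lit 6) (.exp (.alt (nat_lit 10) (.exp (.alt (nat_lit 11) (.exp (.alt (nat_lit 9) (.exp (.alt (nat_lit 27) (.exp (.alt (nat_lit 5) (.cov (nat_lit 1819310382787992748043)) (.alt (nat_lit 5) (.cov (nat_lit 81912768963672900894722)) (.alt (nat_lit 5) (.cov (nat_lit 9229008133514330113)) (.alt (nat_lit 5) (.exp (.alt (nat_lit 4) (.exp (.alt (nat_lit 12) (.exp (.alt (nat_lit 28) (.exp (.alt (nat_lit 24) (.exp (.alt (nat_lit 29) (.exp (.alt (nat_lit 20) (.cov (nat_lit 6396408516354930376705)) (.alt (nat_lit 20) (.exp (.alt (nat_lit 22) (.cov (nat_lit 22841680860265992683520)) (.alt (nat_lit 16) (.cov (nat_lit 9950986248)) .e))) .e))) .e)) .e)) .e)) .e)) (.alt (nat_lit 4) (.cov (nat_lit 25428837134464570097667)) (.alt (nat_lit 13) (.cov (nat_lit 657168699097310298112)) (.alt (nat_lit 7) (.cov (nat_lit 28109180810)) .e))))) .e))))) .e)) .e)) .e)) .e)) .e)) .e)) .e))) (.alt (nat_lit 1) (.exp (.alt (nat_lit 3) (.cov (nat_lit 9456725113342214856112178524585985)) (.alt (nat_lit 3) (.cov (nat_lit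 3119821255108797136907)) .e))) (.alt (nat_lit 1) (.exp (.alt (nat_lit 3) (.exp (.alt (nat_lit 2) (.exp (.alt (nat_lit 6) (.exp (.alt (nat_lit 10) (.exp (.alt (nat_lit 5) (.cov (nat_lit 122211583890025349139)) (.alt (nat_lit 5) (.cov (nat_lit 22756368099401530343435)) (.alt (nat_lit 5) (.cov (nat_lit 638730456447675531266)) (.alt (nat_lit 5) (.cov (nat_lit 42992458352728684363777)) (.alt (nat_lit 5) (.exp (.alt (nat_lit 21) (.cov (nat_lit 6633910766320309239842)) (.alt (nat_lit 4) (.cov (nat_lit 22754062256392181383175)) (.alt (nat_lit 4) (.cov (nat_lit 26738564278159184756739)) (.alt (nat_lit 4) (.exp (.alt (nat_lit 12) (.exp (.alt (nat_lit 20) (.cov (nat_lit 63357648511499994398731)) (.alt (nat_lit 20) (.exp (.alt (nat_lit 22) (.exp (.alt (nat_lit 18) (.exp (.alt (nat_lit 23) (.exp (.alt (nat_lit 28) (.cov (nat_lit 47954617080210108973059)) (.alt (nat_lit 28) (.exp (.alt (nat_lit 30) (.exp (.alt (nat_lit 29) (.cov (nat_lit 102105034299788311396353)) (.alt (nat_lit 29) (.exp (.alt (nat_lit 25) (.cov (nat_lit 102068140813839307374592))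 (.alt (nat_lit 31) (.cov (nat_lit 13215203336)) .e))) .e))) .e)) (.alt (nat_lit 21) (.cov (nat_lit 10029629635)) .e)))) .e)) .e)) .e)) (.alt (nat_lit 20) (.cov (nat_lit 6456366070691095642113)) (.alt (nat_lit 20) (.exp (.alt (nat_lit 21) (.cov (nat_lit 6546288444054411673607)) (.alt (nat_lit 21) (.cov (nat_lit 22055388811939145580547)) (.alt (nat_lit 21) (.exp (.alt (nat_lit 23) (.exp (.alt (nat_lit 29) (.cov (nat_lit 25447283482851546234882)) (.alt (nat_lit 29) (.cov (nat_lit 10240248946854589366273)) (.alt (nat_lit 29) (.exp (.alt (nat_lit 31) (.cov (nat_lit 404341100898260795523075)) (.alt (nat_lit 25) (.exp (.alt (nat_lit 9) (.exp (.alt (nat_lit 24) (.cov (nat_lit 6405631888391797735425)) (.alt (nat_lit 24) (.exp (.alt (nat_lit 26) (.cov (nat_lit 6387185146517079982080)) (.alt (nat_lit 28) (.cov (nat_lit 9963569160)) .e))) .e))) .e)) (.alt (nat_lit 31) (.cov (nat_lit 37273731689)) .e)))) .e)))) .e)) (.alt (nat_lit 21) (.cov (nat_lit 156387774343)) .e))))) .e))))) .e)) (.alt (nat_lit 7) (.cov (nat_lit 2339383734))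 .e)))))) .e)))))) .e)) .e)) .e)) .e)) (.alt (nat_lit 1) (.cov (nat_lit 2963032610073444614147)) (.alt (nat_lit 19) (.exp (.alt (nat_lit 3) (.exp (.alt (nat_lit 18) (.exp (.alt (nat_lit 2) (.cov (nat_lit 47329010377996900567281324680806403)) (.alt (nat_lit 2) (.cov (nat_lit 64041715891415912025449331364462592)) (.alt (nat_lit 2) (.cov (nat_lit 10233336902202437926950)) .e)))) (.alt (nat_lit 18) (.cov (nat_lit 1978425242606247084051)) (.alt (nat_lit 18) (.cov (nat_lit 21730273805305288589323)) (.alt (nat_lit 18) (.exp (.alt (nat_lit 22) (.exp (.alt (nat_lit 23) (.exp (.alt (nat_lit 6) (.exp (.alt (nat_lit 16) (.cov (nat_lit 23141440869282789457954)) (.alt (nat_lit 16) (.exp (.alt (nat_lit 20) (.exp (.alt (nat_lit 4) (.exp (.alt (nat_lit 5) (.exp (.alt (nat_lit 12) (.exp (.alt (nat_lit 24) (.cov (nat_lit 102107340166986173775874)) (.alt (nat_lit 24) (.cov (nat_lit 102107340276937336553473)) (.alt (nat_lit 24) (.exp (.alt (nat_lit 28) (.cov (nat_lit 47954617080374934634499)) (.alt (nat_lit 26) (.exp (.alt (nat_lit 30) (.exp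 (.alt (nat_lit 27) (.cov (nat_lit 25364281898073849857)) (.alt (nat_lit 10) (.cov (nat_lit 12057575439)) .e))) .e)) (.alt (nat_lit 26) (.exp (.alt (nat_lit 27) (.cov (nat_lit 25364281897476161538)) (.alt (nat_lit 30) (.cov (nat_lit 158107435075)) .e))) .e)))) .e)))) .e)) .e)) .e)) .e)) (.alt (nat_lit 16) (.cov (nat_lit 1964581938209161740291)) (.alt (nat_lit 26) (.exp (.alt (nat_lit 27) (.exp (.alt (nat_lit 30) (.cov (nat_lit 102259525915545459228683)) (.alt (nat_lit 30) (.exp (.alt (nat_lit 14) (.exp (.alt (nat_lit 10) (.exp (.alt (nat_lit 12) (.exp (.alt (nat_lit 28) (.cov (nat_lit 384349442008378058473475)) (.alt (nat_lit 28) (.exp (.alt (nat_lit 20) (.exp (.alt (nat_lit 29) (.cov (nat_lit 2833881067119749103617)) (.alt (nat_lit 24) (.cov (nat_lit 21232615439)) .e))) .e)) (.alt (nat_lit 28) (.exp (.alt (nat_lit 29) (.cov (nat_lit 102105034299834102710274)) (.alt (nat_lit 20) (.cov (nat_lit 28778168387)) .e))) .e)))) .e)) .e)) .e)) (.alt (nat_lit 30) (.cov (nat_lit 61824263869146325843969)) (.alt (nat_lit 30) (.exp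 (.alt (nat_lit 14) (.cov (nat_lit 7775302767819261739015)) (.alt (nat_lit 14) (.cov (nat_lit 24229798769627041366019)) (.alt (nat_lit 14) (.exp (.alt (nat_lit 10) (.exp (.alt (nat_lit 12) (.cov (nat_lit 7618505335473803624450)) (.alt (nat_lit 12) (.cov (nat_lit 23999214187230688968705)) (.alt (nat_lit 12) (.exp (.alt (nat_lit 4) (.cov (nat_lit 1448069427379666157571)) (.alt (nat_lit 13) (.exp (.alt (nat_lit 5) (.exp (.alt (nat_lit 29) (.cov (nat_lit 102105034299787696930817)) (.alt (nat_lit 9) (.cov (nat_lit 2979004431)) .e))) .e)) (.alt (nat_lit 13) (.exp (.alt (nat_lit 29) (.cov (nat_lit 102105034299834102710274)) (.alt (nat_lit 5) (.cov (nat_lit 166250676291)) .e))) .e)))) .e)))) .e)) (.alt (nat_lit 31) (.cov (nat_lit 231736328)) .e))))) .e))))) .e)) (.alt (nat_lit 2) (.cov (nat_lit 648030646)) .e)))))) .e)) .e)) .e)) (.alt (nat_lit 18) (.exp (.alt (nat_lit 2) (.exp (.alt (nat_lit 6) (.exp (.alt (nat_lit 16) (.cov (nat_lit 343902650194980182687782)) (.alt (nat_lit 16) (.cov (nat_lit 55342501613954662407)) (.alt (nat_lit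 16) (.exp (.alt (nat_lit 20) (.exp (.alt (nat_lit 24) (.cov (nat_lit 6511700800956012691476)) (.alt (nat_lit 24) (.cov (nat_lit 64564710366689361922)) (.alt (nat_lit 24) (.exp (.alt (nat_lit 25) (.cov (nat_lit 347677316131246369144839)) (.alt (nat_lit 8) (.exp (.alt (nat_lit 10) (.exp (.alt (nat_lit 9) (.cov (nat_lit 1607172722560378863618)) (.alt (nat_lit 9) (.exp (.alt (nat_lit 25) (.cov (nat_lit 345389918524712149843975)) (.alt (nat_lit 13) (.cov (nat_lit 384349442076546488598528)) .e))) .e))) .e)) .e))) .e)))) .e)) .e)))) .e)) .e)) (.alt (nat_lit 18) (.exp (.alt (nat_lit 2) (.cov (nat_lit 21559635577630986600486)) (.alt (nat_lit 2) (.cov (nat_lit 404301910281836621201442)) (.alt (nat_lit 2) (.exp (.alt (nat_lit 6) (.exp (.alt (nat_lit 7) (.exp (.alt (nat_lit 23) (.exp (.alt (nat_lit 5) (.exp (.alt (nat_lit 10) (.cov (nat_lit 46651815905347994910731)) (.alt (nat_lit 10) (.exp (.alt (nat_lit 8) (.exp (.alt (nat_lit 9) (.exp (.alt (nat_lit 12) (.exp (.alt (nat_lit 26) (.cov (nat_lit 1692488786355132825603)) (.alt (nat_lit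 26) (.exp (.alt (nat_lit 27) (.exp (.alt (nat_lit 24) (.cov (nat_lit 64563613054697209857)) (.alt (nat_lit 24) (.exp (.alt (nat_lit 28) (.cov (nat_lit 140656434557172580352)) (.alt (nat_lit 16) (.cov (nat_lit 9785311240)) .e))) .e))) .e)) (.alt (nat_lit 14) (.cov (nat_lit 65011907)) .e)))) .e)) .e)) .e)) (.alt (nat_lit 10) (.cov (nat_lit 24114511830852074209281)) (.alt (nat_lit 10) (.exp (.alt (nat_lit 8) (.exp (.alt (nat_lit 9) (.exp (.alt (nat_lit 25) (.exp (.alt (nat_lit 27) (.exp (.alt (nat_lit 24) (.exp (.alt (nat_lit 12) (.cov (nat_lit 64563613210444300289)) (.alt (nat_lit 12) (.exp (.alt (nat_lit 28) (.cov (nat_lit 69175301271548067840)) (.alt (nat_lit 4) (.cov (nat_lit 9785311240)) .e))) .e))) .e)) .e)) .e)) .e)) (.alt (nat_lit 14) (.cov (nat_lit 142962695381400420355)) (.alt (nat_lit 14) (.exp (.alt (nat_lit 12) (.exp (.alt (nat_lit 30) (.cov (nat_lit 406859081479715310010370)) (.alt (nat_lit 30) (.cov (nat_lit 6631604637435731902465)) (.alt (nat_lit 30) (.exp (.alt (nat_lit 31) (.cov (nat_lit 29060539462715287011331))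 (.alt (nat_lit 28) (.exp (.alt (nat_lit 20) (.exp (.alt (nat_lit 29) (.cov (nat_lit 57646084027052982273)) (.alt (nat_lit 29) (.exp (.alt (nat_lit 25) (.cov (nat_lit 62257772243895451648)) (.alt (nat_lit 13) (.cov (nat_lit 156373090312)) .e))) .e))) .e)) (.alt (nat_lit 31) (.cov (nat_lit 166158402153)) .e)))) .e)))) .e)) (.alt (nat_lit 11) (.cov (nat_lit 19135467402)) .e))))) .e))))) .e)) .e)) .e)) .e)) (.alt (nat_lit 2) (.cov (nat_lit 23192192467841662844931)) (.alt (nat_lit 22) (.exp (.alt (nat_lit 23) (.exp (.alt (nat_lit 6) (.cov (nat_lit 364023437768967587889170)) (.alt (nat_lit 6) (.cov (nat_lit 26743172865756076441611)) (.alt (nat_lit 6) (.cov (nat_lit 406819894058513734828034)) (.alt (nat_lit 6) (.cov (nat_lit 475019103638348890113)) (.alt (nat_lit 6) (.exp (.alt (nat_lit 14) (.cov (nat_lit 345350719604767512854562)) (.alt (nat_lit 4) (.cov (nat_lit 47915421172935499448327)) (.alt (nat_lit 4) (.cov (nat_lit 5137426992034547236867)) (.alt (nat_lit 4) (.exp (.alt (nat_lit 20) (.exp (.alt (nat_lit 12) (.cov (nat_lit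 25412696070626132099083)) (.alt (nat_lit 12) (.cov (nat_lit 41634303278717886005250)) (.alt (nat_lit 12) (.cov (nat_lit 45664920619151943270401)) (.alt (nat_lit 5) (.cov (nat_lit 47560267063)) .e))))) .e)) (.alt (nat_lit 2) (.cov (nat_lit 648030646)) .e)))))) .e)))))) .e)) (.alt (nat_lit 2) (.cov (nat_lit 9938414398)) .e))))))) .e))))))) .e)) (.alt (nat_lit 19) (.exp (.alt (nat_lit 3) (.cov (nat_lit 21709517572242429444328)) (.alt (nat_lit 3) (.cov (nat_lit 21718750747528711372819)) (.alt (nat_lit 18) (.exp (.alt (nat_lit 2) (.exp (.alt (nat_lit 3) (.exp (.alt (nat_lit 6) (.exp (.alt (nat_lit 16) (.cov (nat_lit 343902650194980182687782)) (.alt (nat_lit 16) (.cov (nat_lit 55342501613954662407)) (.alt (nat_lit 16) (.exp (.alt (nat_lit 20) (.exp (.alt (nat_lit 24) (.cov (nat_lit 6511700800956012691476)) (.alt (nat_lit 24) (.cov (nat_lit 64564710366689361922)) (.alt (nat_lit 24) (.exp (.alt (nat_lit 25) (.cov (nat_lit 347677316131246369144839)) (.alt (nat_lit 8) (.exp (.alt (nat_lit 10) (.exp (.alt (nat_lit 9) (.cov (nat_lit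 1607172722560378863618)) (.alt (nat_lit 9) (.exp (.alt (nat_lit 25) (.cov (nat_lit 345389918524712149843975)) (.alt (nat_lit 13) (.cov (nat_lit 384349442076546488598528)) .e))) .e))) .e)) .e))) .e)))) .e)) .e)))) .e)) .e)) .e)) (.alt (nat_lit 3) (.cov (nat_lit 2110768)) .e))))) .e)))))))) .e)))))))) .e))) .e)]),
   ([1, 18, 4], [.cov (nat_lit 887355449174535992289654793568256), .cov (nat_lit 76059069863655942574675387744256), .cov (nat_lit 887355449174535992289654793568256), .cov (nat_lit 76059069863655944852863480496128), .cov (nat_lit 887355449174535992289654793568256), .cov (nat_lit 76059069863655945244289619984384), .cov (nat_lit 887355449174535992289654793568256), .cov (nat_lit 76059069863655945413614410661888), .cov (nat_lit 887355449174535992289654793568256), .cov (nat_lit 238318346692869308807391444205568), .cov (nat_lit 887355449174535992289654793568256), .exp (.alt (nat_lit 0) (.rot (.exp (.alt (nat_lit 15) (.exp (.alt (nat_lit 7) (.exp (.alt (nat_lit 3) (.exp (.alt (nat_lit 5) (.exp (.alt (nat_lit 17) (.exp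 (.alt (nat_lit 16) (.cov (nat_lit 230048167899730124733050579970949123)) (.alt (nat_lit 16) (.cov (nat_lit 230048167894900324412697849351897090)) (.alt (nat_lit 16) (.cov (nat_lit 22356293553501320925078019737911297)) (.alt (nat_lit 16) (.cov (nat_lit 224531352487536874989486717720854528)) (.alt (nat_lit 1) (.cov (nat_lit 42980919327842821472352)) .e)))))) (.alt (nat_lit 17) (.cov (nat_lit 57651823477859025121)) (.alt (nat_lit 17) (.cov (nat_lit 10145720426971576402014)) (.alt (nat_lit 17) (.cov (nat_lit 795527778875024080932)) (.alt (nat_lit 17) (.cov (nat_lit 4263522063890093441040)) (.alt (nat_lit 17) (.cov (nat_lit 57655201177042681874)) (.alt (nat_lit 17) (.cov (nat_lit 57658284207646965771)) (.alt (nat_lit 17) (.cov (nat_lit 47998451739083649581062)) (.alt (nat_lit 17) (.cov (nat_lit 712531658223792422915)) (.alt (nat_lit 17) (.cov (nat_lit 36917732378833584130)) (.alt (nat_lit 17) (.cov (nat_lit 36923797284970299393)) (.alt (nat_lit 17) (.cov (nat_lit 2619468117137870028800)) (.alt (nat_lit 17) (.exp (.alt (nat_lit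 16) (.exp (.alt (nat_lit 18) (.cov (nat_lit 765011931866854828630659583860277250)) (.alt (nat_lit 18) (.cov (nat_lit 47339150635000846931144674027503617)) (.alt (nat_lit 18) (.cov (nat_lit 58859559106118852222978992218570752)) (.alt (nat_lit 18) (.cov (nat_lit 26766228577852535603294)) .e))))) (.alt (nat_lit 16) (.cov (nat_lit 55343680474599915558)) (.alt (nat_lit 16) (.cov (nat_lit 347799530140611496640609)) (.alt (nat_lit 16) (.cov (nat_lit 189087894261532196898)) (.alt (nat_lit 16) (.cov (nat_lit 41506300065778499619)) (.alt (nat_lit 16) (.cov (nat_lit 25438074951838826758159)) (.alt (nat_lit 16) (.cov (nat_lit 793228431780539793415)) (.alt (nat_lit 16) (.cov (nat_lit 61801224519979100012550)) (.alt (nat_lit 16) (.cov (nat_lit 115313925188982145027)) (.alt (nat_lit 16) (.cov (nat_lit 1886201356265099100162)) (.alt (nat_lit 16) (.cov (nat_lit 404324986271124869349377)) (.alt (nat_lit 16) (.cov (nat_lit 46147793844428603392)) (.alt (nat_lit 1) (.cov (nat_lit 110114071)) .e)))))))))))))) .e)))))))))))))) .e)) .e)) .e))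 .e))) .e), .cov (nat_lit 887355449174535992289654793568256), .exp (.alt (nat_lit 0) (.rot (.exp (.alt (nat_lit 15) (.exp (.alt (nat_lit 7) (.exp (.alt (nat_lit 3) (.exp (.alt (nat_lit 5) (.exp (.alt (nat_lit 17) (.cov (nat_lit 350163014642295670571233)) (.alt (nat_lit 17) (.cov (nat_lit 406898292720792763367442)) (.alt (nat_lit 17) (.cov (nat_lit 4095199867289228804107)) (.alt (nat_lit 17) (.exp (.alt (nat_lit 19) (.exp (.alt (nat_lit 23) (.exp (.alt (nat_lit 18) (.exp (.alt (nat_lit 16) (.cov (nat_lit 4251974937804208603170)) (.alt (nat_lit 16) (.exp (.alt (nat_lit 20) (.exp (.alt (nat_lit 4) (.exp (.alt (nat_lit 6) (.exp (.alt (nat_lit 12) (.exp (.alt (nat_lit 24) (.cov (nat_lit 1607172610407301906434)) (.alt (nat_lit 24) (.cov (nat_lit 1976107606230702227457)) (.alt (nat_lit 24) (.exp (.alt (nat_lit 8) (.cov (nat_lit 22749447146515135987715)) (.alt (nat_lit 25) (.exp (.alt (nat_lit 9) (.exp (.alt (nat_lit 27) (.cov (nat_lit 71481142238108450817)) (.alt (nat_lit 29) (.cov (nat_lit 47579136015)) .e))) .e)) (.alt (nat_lit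 25) (.exp (.alt (nat_lit 27) (.cov (nat_lit 71481142081729069058)) (.alt (nat_lit 9) (.cov (nat_lit 165535547459)) .e))) .e)))) .e)))) .e)) .e)) .e)) .e)) (.alt (nat_lit 16) (.cov (nat_lit 783990317491750436867)) (.alt (nat_lit 21) (.exp (.alt (nat_lit 20) (.exp (.alt (nat_lit 29) (.cov (nat_lit 29976106454399057931)) (.alt (nat_lit 29) (.exp (.alt (nat_lit 25) (.exp (.alt (nat_lit 27) (.exp (.alt (nat_lit 9) (.exp (.alt (nat_lit 28) (.cov (nat_lit 25410389979127191961603)) (.alt (nat_lit 28) (.exp (.alt (nat_lit 24) (.exp (.alt (nat_lit 12) (.cov (nat_lit 365351601446669086883841)) (.alt (nat_lit 12) (.exp (.alt (nat_lit 14) (.cov (nat_lit 345189310176303538765824)) (.alt (nat_lit 8) (.cov (nat_lit 158152523784)) .e))) .e))) .e)) (.alt (nat_lit 13) (.cov (nat_lit 11588862147)) .e)))) .e)) .e)) .e)) (.alt (nat_lit 29) (.cov (nat_lit 24126041050296194433025)) (.alt (nat_lit 29) (.exp (.alt (nat_lit 13) (.cov (nat_lit 10129568480225371619335)) (.alt (nat_lit 13) (.cov (nat_lit 25484177366823134560259)) (.alt (nat_lit 13)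 (.exp (.alt (nat_lit 9) (.exp (.alt (nat_lit 12) (.cov (nat_lit 1614090139436224348162)) (.alt (nat_lit 12) (.cov (nat_lit 2909974020564826718209)) (.alt (nat_lit 12) (.exp (.alt (nat_lit 8) (.cov (nat_lit 347781077725256848769027)) (.alt (nat_lit 14) (.exp (.alt (nat_lit 6) (.exp (.alt (nat_lit 30) (.cov (nat_lit 102107340142797521944577)) (.alt (nat_lit 30) (.exp (.alt (nat_lit 26) (.cov (nat_lit 343909567306189953302528)) (.alt (nat_lit 28) (.cov (nat_lit 13212057608)) .e))) .e))) .e)) (.alt (nat_lit 8) (.cov (nat_lit 648020585)) .e)))) .e)))) .e)) (.alt (nat_lit 13) (.cov (nat_lit 10444869511)) .e))))) .e))))) .e)) (.alt (nat_lit 1) (.cov (nat_lit 110111158)) .e)))))) .e)) .e)) .e)) (.alt (nat_lit 17) (.cov (nat_lit 6456388573296069705729)) (.alt (nat_lit 17) (.exp (.alt (nat_lit 16) (.exp (.alt (nat_lit 18) (.exp (.alt (nat_lit 2) (.exp (.alt (nat_lit 6) (.exp (.alt (nat_lit 10) (.exp (.alt (nat_lit 19) (.exp (.alt (nat_lit 23) (.exp (.alt (nat_lit 27) (.exp (.alt (nat_lit 24) (.cov (nat_lit 104574592186856301920258))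 (.alt (nat_lit 20) (.cov (nat_lit 104620709156990002135041)) (.alt (nat_lit 20) (.exp (.alt (nat_lit 28) (.cov (nat_lit 350146872652710071500803)) (.alt (nat_lit 28) (.cov (nat_lit 104583815668832845955072)) (.alt (nat_lit 4) (.cov (nat_lit 10347348163)) .e)))) .e)))) .e)) .e)) .e)) .e)) .e)) .e)) (.alt (nat_lit 18) (.cov (nat_lit 21518130403465735700501)) .e))) (.alt (nat_lit 16) (.cov (nat_lit 189087894261532196898)) (.alt (nat_lit 16) (.exp (.alt (nat_lit 18) (.exp (.alt (nat_lit 2) (.exp (.alt (nat_lit 6) (.exp (.alt (nat_lit 10) (.exp (.alt (nat_lit 20) (.cov (nat_lit 347880229223142669680651)) (.alt (nat_lit 20) (.exp (.alt (nat_lit 21) (.exp (.alt (nat_lit 23) (.exp (.alt (nat_lit 29) (.exp (.alt (nat_lit 28) (.cov (nat_lit 129127226108333260803)) (.alt (nat_lit 28) (.exp (.alt (nat_lit 12) (.exp (.alt (nat_lit 24) (.cov (nat_lit 428886808666229964801)) (.alt (nat_lit 30) (.cov (nat_lit 4624220175)) .e))) .e)) (.alt (nat_lit 28) (.exp (.alt (nat_lit 24) (.cov (nat_lit 428886808510016258050)) (.alt (nat_lit 12)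 (.cov (nat_lit 18933088323)) .e))) .e)))) .e)) .e)) .e)) (.alt (nat_lit 20) (.cov (nat_lit 6705397098093956038657)) (.alt (nat_lit 20) (.exp (.alt (nat_lit 21) (.cov (nat_lit 104623014997791085690887)) (.alt (nat_lit 21) (.cov (nat_lit 350186072395086931427331)) (.alt (nat_lit 21) (.exp (.alt (nat_lit 23) (.exp (.alt (nat_lit 29) (.cov (nat_lit 1614090139435116003330)) (.alt (nat_lit 29) (.cov (nat_lit 22053082687454340710401)) (.alt (nat_lit 29) (.exp (.alt (nat_lit 13) (.cov (nat_lit 343868062138805008728067)) (.alt (nat_lit 28) (.exp (.alt (nat_lit 12) (.exp (.alt (nat_lit 24) (.cov (nat_lit 428886808666229964801)) (.alt (nat_lit 30) (.cov (nat_lit 4624220175)) .e))) .e)) (.alt (nat_lit 28) (.exp (.alt (nat_lit 24) (.cov (nat_lit 428886808510016258050)) (.alt (nat_lit 12) (.cov (nat_lit 18933088323)) .e))) .e)))) .e)))) .e)) (.alt (nat_lit 4) (.cov (nat_lit 1790971783)) .e))))) .e))))) .e)) .e)) .e)) .e)) (.alt (nat_lit 16) (.cov (nat_lit 115313925188982145027)) (.alt (nat_lit 16) (.exp (.alt (nat_lit 18) (.exp (.alt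 (nat_lit 20) (.cov (nat_lit 2630968778025143894037)) (.alt (nat_lit 20) (.cov (nat_lit 45591133642860038979595)) (.alt (nat_lit 20) (.cov (nat_lit 22053094480862475452418)) (.alt (nat_lit 20) (.cov (nat_lit 654877732480430899201)) (.alt (nat_lit 20) (.exp (.alt (nat_lit 28) (.exp (.alt (nat_lit 24) (.cov (nat_lit 152118260621422560643575638392833)) (.alt (nat_lit 24) (.cov (nat_lit 24121425076182547693579)) .e))) (.alt (nat_lit 4) (.cov (nat_lit 350146876076746289971207)) (.alt (nat_lit 4) (.cov (nat_lit 3938388600855711449091)) (.alt (nat_lit 4) (.exp (.alt (nat_lit 6) (.exp (.alt (nat_lit 12) (.cov (nat_lit 10127262637206947233803)) (.alt (nat_lit 12) (.exp (.alt (nat_lit 8) (.exp (.alt (nat_lit 24) (.exp (.alt (nat_lit 9) (.exp (.alt (nat_lit 14) (.cov (nat_lit 659471118273718779907)) (.alt (nat_lit 14) (.exp (.alt (nat_lit 10) (.exp (.alt (nat_lit 30) (.cov (nat_lit 25306627034916411408385)) (.alt (nat_lit 30) (.exp (.alt (nat_lit 31) (.cov (nat_lit 2649413628581678940160)) (.alt (nat_lit 26) (.cov (nat_lit 1370488840))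 .e))) .e))) .e)) (.alt (nat_lit 14) (.cov (nat_lit 165675625)) .e)))) .e)) .e)) .e)) (.alt (nat_lit 12) (.cov (nat_lit 2836192561618711740417)) (.alt (nat_lit 12) (.exp (.alt (nat_lit 13) (.cov (nat_lit 10129568480214081601543)) (.alt (nat_lit 13) (.cov (nat_lit 140656852371579600899)) (.alt (nat_lit 13) (.exp (.alt (nat_lit 9) (.exp (.alt (nat_lit 29) (.cov (nat_lit 10166461860611443654658)) (.alt (nat_lit 29) (.cov (nat_lit 6638522166462762713089)) (.alt (nat_lit 29) (.exp (.alt (nat_lit 25) (.cov (nat_lit 406842940563257650315267)) (.alt (nat_lit 31) (.exp (.alt (nat_lit 23) (.exp (.alt (nat_lit 27) (.cov (nat_lit 1609478429227262935041)) (.alt (nat_lit 27) (.exp (.alt (nat_lit 26) (.cov (nat_lit 202914195805931831296)) (.alt (nat_lit 11) (.cov (nat_lit 1755316232)) .e))) .e))) .e)) (.alt (nat_lit 25) (.cov (nat_lit 10463740521)) .e)))) .e)))) .e)) (.alt (nat_lit 13) (.cov (nat_lit 646975367)) .e))))) .e))))) .e)) (.alt (nat_lit 4) (.cov (nat_lit 13199481811)) .e)))))) .e)))))) .e)) (.alt (nat_lit 16) (.cov (nat_lit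 18887950)) .e))))))) .e))))))) .e)) .e)) .e)) .e))) .e)]),
   ([1, 15, 7], [.cov (nat_lit 1374133705232620143057751823613952), .cov (nat_lit 1374133719739729978433301920088064), .cov (nat_lit 17113283286837860719684967481737216), .cov (nat_lit 1374133705232620143057751823613952), .cov (nat_lit 1374133719739729978433301920088064), .cov (nat_lit 17113283286837860729147364550377472), .cov (nat_lit 1374133705232620143057751823613952), .cov (nat_lit 1374133719739729978433301920088064), .cov (nat_lit 17113283286837860731271621015240704), .cov (nat_lit 1374133705232620143057751823613952), .cov (nat_lit 1374133719739729978433301920088064), .cov (nat_lit 17113283286837860731896143619817472), .cov (nat_lit 1374133705232620143057751823613952), .cov (nat_lit 1374133719739729978433301920088064), .cov (nat_lit 224805157628230965873118195811876864), .cov (nat_lit 1374133705232620143057751823613952), .cov (nat_lit 1374133719739729978433301920088064), .exp (.alt (nat_lit 0) (.rot (.exp (.alt (nat_lit 15) (.exp (.alt (nat_lit 7) (.exp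 (.alt (nat_lit 3) (.exp (.alt (nat_lit 5) (.exp (.alt (nat_lit 11) (.exp (.alt (nat_lit 9) (.exp (.alt (nat_lit 10) (.exp (.alt (nat_lit 17) (.cov (nat_lit 10231027336238211268626)) (.alt (nat_lit 17) (.cov (nat_lit 786293572250761166859)) (.alt (nat_lit 17) (.exp (.alt (nat_lit 16) (.exp (.alt (nat_lit 18) (.exp (.alt (nat_lit 24) (.exp (.alt (nat_lit 21) (.cov (nat_lit 26683215443369927901191)) (.alt (nat_lit 21) (.cov (nat_lit 26683215731431136296963)) (.alt (nat_lit 19) (.cov (nat_lit 10235640559371010703360)) (.alt (nat_lit 19) (.cov (nat_lit 11600401367)) .e))))) .e)) .e)) .e)) (.alt (nat_lit 17) (.cov (nat_lit 7636961319796842954753)) (.alt (nat_lit 17) (.exp (.alt (nat_lit 16) (.cov (nat_lit 344262362632401880875042)) (.alt (nat_lit 16) (.cov (nat_lit 1443461165258784112647)) (.alt (nat_lit 16) (.cov (nat_lit 2697845088285762781187)) (.alt (nat_lit 16) (.exp (.alt (nat_lit 18) (.exp (.alt (nat_lit 20) (.cov (nat_lit 405542445343554364506123)) (.alt (nat_lit 20) (.cov (nat_lit 2630968777878443917314)) (.alt (nat_lit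 20) (.cov (nat_lit 6467895285737146286081)) (.alt (nat_lit 20) (.exp (.alt (nat_lit 22) (.exp (.alt (nat_lit 23) (.exp (.alt (nat_lit 31) (.exp (.alt (nat_lit 27) (.exp (.alt (nat_lit 29) (.exp (.alt (nat_lit 30) (.cov (nat_lit 25267427703759812165633)) (.alt (nat_lit 6) (.cov (nat_lit 12060721167)) .e))) .e)) .e)) .e)) .e)) (.alt (nat_lit 21) (.cov (nat_lit 804739639071543918595)) (.alt (nat_lit 22) (.exp (.alt (nat_lit 6) (.exp (.alt (nat_lit 30) (.exp (.alt (nat_lit 28) (.exp (.alt (nat_lit 24) (.exp (.alt (nat_lit 12) (.exp (.alt (nat_lit 31) (.cov (nat_lit 1611784274435512467456)) (.alt (nat_lit 26) (.cov (nat_lit 1370488840)) .e))) .e)) .e)) .e)) (.alt (nat_lit 23) (.cov (nat_lit 809351041379325706241)) (.alt (nat_lit 23) (.exp (.alt (nat_lit 31) (.cov (nat_lit 102114257680620651020291)) (.alt (nat_lit 31) (.exp (.alt (nat_lit 27) (.exp (.alt (nat_lit 30) (.cov (nat_lit 102111951828815376809985)) (.alt (nat_lit 30) (.exp (.alt (nat_lit 28) (.cov (nat_lit 424275124690448547840)) (.alt (nat_lit 26) (.cov (nat_lit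 159240945672)) .e))) .e))) .e)) (.alt (nat_lit 21) (.cov (nat_lit 365953219)) .e)))) .e)))) .e)) (.alt (nat_lit 4) (.cov (nat_lit 10548678547)) .e))))) .e))))) .e)) (.alt (nat_lit 16) (.cov (nat_lit 4615842237)) .e)))))) .e)))))) .e)) .e)) .e)) .e)) .e)) .e)) (.alt (nat_lit 15) (.exp (.alt (nat_lit 7) (.exp (.alt (nat_lit 3) (.exp (.alt (nat_lit 5) (.exp (.alt (nat_lit 4) (.exp (.alt (nat_lit 6) (.exp (.alt (nat_lit 12) (.exp (.alt (nat_lit 17) (.cov (nat_lit 42095471880559626551315)) (.alt (nat_lit 17) (.cov (nat_lit 795521465479425163275)) (.alt (nat_lit 17) (.exp (.alt (nat_lit 16) (.exp (.alt (nat_lit 20) (.exp (.alt (nat_lit 18) (.exp (.alt (nat_lit 19) (.cov (nat_lit 10171073654388880834567)) (.alt (nat_lit 19) (.cov (nat_lit 10171073942462638587907)) (.alt (nat_lit 19) (.exp (.alt (nat_lit 23) (.exp (.alt (nat_lit 27) (.cov (nat_lit 426580989689893748738)) (.alt (nat_lit 27) (.cov (nat_lit 795515985513327624193)) (.alt (nat_lit 27) (.exp (.alt (nat_lit 11) (.cov (nat_lit 3859981215036555132931)) (.alt (nat_lit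 25) (.exp (.alt (nat_lit 9) (.exp (.alt (nat_lit 24) (.cov (nat_lit 64563613210467368961)) (.alt (nat_lit 29) (.cov (nat_lit 185014943759)) .e))) .e)) (.alt (nat_lit 25) (.exp (.alt (nat_lit 24) (.cov (nat_lit 64563613054084841474)) (.alt (nat_lit 9) (.cov (nat_lit 28093448259)) .e))) .e)))) .e)))) .e)) (.alt (nat_lit 1) (.cov (nat_lit 646975367)) .e))))) .e)) .e)) .e)) (.alt (nat_lit 17) (.cov (nat_lit 63272341461498013417473)) (.alt (nat_lit 17) (.exp (.alt (nat_lit 16) (.cov (nat_lit 1900015068401908056098)) (.alt (nat_lit 16) (.cov (nat_lit 21882453599065739362311)) (.alt (nat_lit 16) (.cov (nat_lit 571851335677721444355)) (.alt (nat_lit 16) (.exp (.alt (nat_lit 20) (.exp (.alt (nat_lit 18) (.cov (nat_lit 26754696701988365664267)) (.alt (nat_lit 18) (.exp (.alt (nat_lit 19) (.exp (.alt (nat_lit 23) (.exp (.alt (nat_lit 27) (.exp (.alt (nat_lit 26) (.cov (nat_lit 1383505823120412901379)) (.alt (nat_lit 26) (.exp (.alt (nat_lit 10) (.exp (.alt (nat_lit 24) (.cov (nat_lit 64563613210466320385)) (.alt (nat_lit 30) (.cov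 (nat_lit 47575990287)) .e))) .e)) (.alt (nat_lit 26) (.exp (.alt (nat_lit 24) (.cov (nat_lit 64563613054084841474)) (.alt (nat_lit 10) (.cov (nat_lit 165532401731)) .e))) .e)))) .e)) .e)) .e)) (.alt (nat_lit 18) (.cov (nat_lit 797827308488472133633)) (.alt (nat_lit 18) (.exp (.alt (nat_lit 19) (.cov (nat_lit 10171073654388880834567)) (.alt (nat_lit 19) (.cov (nat_lit 29060539873932629508099)) (.alt (nat_lit 19) (.exp (.alt (nat_lit 23) (.exp (.alt (nat_lit 27) (.cov (nat_lit 1609478453416518746114)) (.alt (nat_lit 27) (.cov (nat_lit 1978413449239919067137)) (.alt (nat_lit 27) (.exp (.alt (nat_lit 11) (.cov (nat_lit 22747141303505923342339)) (.alt (nat_lit 26) (.exp (.alt (nat_lit 10) (.exp (.alt (nat_lit 24) (.cov (nat_lit 64563613210466320385)) (.alt (nat_lit 30) (.cov (nat_lit 47575990287)) .e))) .e)) (.alt (nat_lit 26) (.exp (.alt (nat_lit 24) (.cov (nat_lit 64563613054084841474)) (.alt (nat_lit 10) (.cov (nat_lit 165532401731)) .e))) .e)))) .e)))) .e)) (.alt (nat_lit 2) (.cov (nat_lit 111153031)) .e))))) .e)))))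 .e)) (.alt (nat_lit 16) (.cov (nat_lit 18879981)) .e)))))) .e)))))) .e)) .e)) .e)) .e)) .e)) .e)) .e)))) .e)]),
   ([1, 14, 8], [.cov (nat_lit 55893251338789257815910266569752576), .cov (nat_lit 58651660171646733651673483069882368), .cov (nat_lit 891853045567741063712694309417385984), .cov (nat_lit 55893251338789257815910266569752576), .cov (nat_lit 58651660171606593539509185178238976), .cov (nat_lit 891853045567732209284029357622296576), .cov (nat_lit 55893251338789257815910266569752576), .cov (nat_lit 58651660171605412947890666790191104), .cov (nat_lit 891853045567732209288466986552000512), .cov (nat_lit 55893251338789257815910266569752576), .cov (nat_lit 58651660171604748873022695989575680), .cov (nat_lit 227239047675274272836565655435083776), .cov (nat_lit 55893251338789257815910266569752576), .cov (nat_lit 17113285303326865714253601691402240), .exp (.alt (nat_lit 0) (.rot (.exp (.alt (nat_lit 15) (.cov (nat_lit 139142460489693748716785616039182338)) (.alt (nat_lit 15) (.cov (nat_lit 86261808990322710104218847412225))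 (.alt (nat_lit 15) (.cov (nat_lit 86261813825435692769969026629632)) (.alt (nat_lit 15) (.cov (nat_lit 25421945331763878297694)) .e)))))) .e)]),
   ([1, 12, 10], [.cov (nat_lit 55568739811407694676797650175524864), .cov (nat_lit 6241919660162535484216451746758656), .cov (nat_lit 1698659918622534900900077317914624), .cov (nat_lit 76064036235552831195383148314624), .cov (nat_lit 55568739811407694676797650175524864), .cov (nat_lit 6241919660162535484216451746758656), .cov (nat_lit 1698659918718236609147885401931776), .cov (nat_lit 76064036233191647947351255941120), .cov (nat_lit 55568739811407694676797650175524864), .cov (nat_lit 6241919660162535484216451746758656), .cov (nat_lit 1698659918623715492516396682706944), .cov (nat_lit 76064036138670531315862536716288), .cov (nat_lit 55568739811407694676797650175524864), .cov (nat_lit 6241919660162535484216451746758656), .cov (nat_lit 1698659918615967869184161739702272), .cov (nat_lit 76064036130922907983627593711616), .cov (nat_lit 55568739811407694676797650175524864), .cov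 (nat_lit 6241919660162535484216451746758656), .cov (nat_lit 91590304494888305363384519888994304), .exp (.alt (nat_lit 0) (.rot (.exp (.alt (nat_lit 15) (.cov (nat_lit 86234197124335234200192932642818)) (.alt (nat_lit 15) (.exp (.alt (nat_lit 7) (.cov (nat_lit 86234197145419862652253960667143)) (.alt (nat_lit 7) (.exp (.alt (nat_lit 3) (.exp (.alt (nat_lit 5) (.exp (.alt (nat_lit 4) (.exp (.alt (nat_lit 6) (.exp (.alt (nat_lit 12) (.exp (.alt (nat_lit 13) (.exp (.alt (nat_lit 9) (.exp (.alt (nat_lit 29) (.exp (.alt (nat_lit 17) (.cov (nat_lit 795515983314449072139)) (.alt (nat_lit 17) (.exp (.alt (nat_lit 16) (.exp (.alt (nat_lit 20) (.exp (.alt (nat_lit 18) (.exp (.alt (nat_lit 19) (.cov (nat_lit 10171073531236699865091)) (.alt (nat_lit 19) (.exp (.alt (nat_lit 23) (.exp (.alt (nat_lit 27) (.cov (nat_lit 404338795046454214787073)) (.alt (nat_lit 27) (.exp (.alt (nat_lit 26) (.cov (nat_lit 404301901560505817890816)) (.alt (nat_lit 31) (.cov (nat_lit 21808283656)) .e))) .e))) .e)) (.alt (nat_lit 19) (.cov (nat_lit 1974469225))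 .e)))) .e)) .e)) .e)) (.alt (nat_lit 17) (.cov (nat_lit 1512638650140809232385)) (.alt (nat_lit 17) (.exp (.alt (nat_lit 16) (.exp (.alt (nat_lit 20) (.exp (.alt (nat_lit 22) (.exp (.alt (nat_lit 23) (.exp (.alt (nat_lit 18) (.exp (.alt (nat_lit 24) (.cov (nat_lit 428886808509882040321)) (.alt (nat_lit 24) (.exp (.alt (nat_lit 26) (.cov (nat_lit 1390423345550984216576)) (.alt (nat_lit 8) (.cov (nat_lit 10345250824)) .e))) .e))) .e)) .e)) .e)) .e)) (.alt (nat_lit 25) (.cov (nat_lit 104692190576140181569539)) (.alt (nat_lit 25) (.exp (.alt (nat_lit 24) (.exp (.alt (nat_lit 27) (.cov (nat_lit 412745931655263289346)) (.alt (nat_lit 27) (.cov (nat_lit 412746043784797618177)) (.alt (nat_lit 27) (.exp (.alt (nat_lit 19) (.cov (nat_lit 643330217182354210819)) (.alt (nat_lit 26) (.exp (.alt (nat_lit 10) (.exp (.alt (nat_lit 18) (.cov (nat_lit 6396408516355500802049)) (.alt (nat_lit 18) (.exp (.alt (nat_lit 22) (.cov (nat_lit 21525044502004970291200)) (.alt (nat_lit 16) (.cov (nat_lit 826277896)) .e))) .e))) .e)) (.alt (nat_lit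 19) (.cov (nat_lit 19614663273)) .e)))) .e)))) .e)) (.alt (nat_lit 21) (.cov (nat_lit 10355740554)) .e))))) .e))))) .e)) .e)) .e)) .e)) .e)) .e)) (.alt (nat_lit 5) (.cov (nat_lit 39214772698819330069)) .e))) .e)) .e))) .e)))) .e)]),
   ([1, 11, 11], [.cov (nat_lit 76098838712800679154626775220224), .cov (nat_lit 76098838712800679154626775220224), .cov (nat_lit 76098838712800679154626775220224), .cov (nat_lit 76098838712800679154626775220224), .cov (nat_lit 76098838697526777484918894100480), .cov (nat_lit 76098838697526777484918894100480), .cov (nat_lit 76098838697526777484918894100480), .cov (nat_lit 76098838697526777484918894100480), .cov (nat_lit 1698684735455301721850668990332928), .cov (nat_lit 1698684735455301721850668990332928), .cov (nat_lit 1698684735455301721850668990332928), .cov (nat_lit 1698684735455301721850668990332928), .cov (nat_lit 76067474315953879804212599062528), .cov (nat_lit 22305593728863197525735802113359872), .cov (nat_lit 76079109018041850995389971300352), .exp (.alt (nat_lit 0) (.exp (.alt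 (nat_lit 17) (.cov (nat_lit 6890981593980407910015691599642635)) (.alt (nat_lit 17) (.cov (nat_lit 229997487011706062829479805594894342)) (.alt (nat_lit 17) (.cov (nat_lit 229997487011706653125455090876940290)) (.alt (nat_lit 17) (.cov (nat_lit 56217801750061049020597113019432961)) (.alt (nat_lit 17) (.cov (nat_lit 238351659854691485381604829822976)) (.alt (nat_lit 17) (.exp (.alt (nat_lit 1) (.cov (nat_lit 76072832377206123701736605483015)) (.alt (nat_lit 1) (.cov (nat_lit 16788790817067455678156680725528579)) (.alt (nat_lit 1) (.cov (nat_lit 55893276542481219920956970717151233)) (.alt (nat_lit 1) (.exp (.alt (nat_lit 3) (.exp (.alt (nat_lit 5) (.cov (nat_lit 562869541348416374434184121286658)) (.alt (nat_lit 5) (.cov (nat_lit 1698678062175046785360113855102977)) (.alt (nat_lit 5) (.cov (nat_lit 92401613833883833313560198259933184)) (.alt (nat_lit 5) (.cov (nat_lit 182173547223286022238)) .e))))) .e)) (.alt (nat_lit 1) (.cov (nat_lit 403537328242535956984)) .e)))))) .e))))))) .e)]),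
   ([1, 8, 14], [.cov (nat_lit 76120613884663574506209164656640), .cov (nat_lit 76120613884663574506209164656640), .cov (nat_lit 76120613884663574506209164656640), .cov (nat_lit 76120613884663574506209164656640), .cov (nat_lit 76120613884663574506209164656640), .cov (nat_lit 1698705171153884764970019331244032), .cov (nat_lit 76112359340421624927588938940416), .cov (nat_lit 76117572228555803208590271971328), .cov (nat_lit 76120807314049091956261785698304), .cov (nat_lit 76120613859280855177555286687744), .cov (nat_lit 1698705171153884764459845935955968), .cov (nat_lit 238371636169634987808993553940480), .cov (nat_lit 76122122625340832162630470729728), .cov (nat_lit 76122127442154644689668588699648), .exp (.alt (nat_lit 0) (.exp (.alt (nat_lit 17) (.cov (nat_lit 92563904508934073996564876141527042)) (.alt (nat_lit 17) (.cov (nat_lit 14679451630912028503499900508438529)) (.alt (nat_lit 17) (.cov (nat_lit 22467897116977735428230947630219264)) (.alt (nat_lit 17) (.cov (nat_lit 4314259313827112812638)) .e))))) .e)]),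
   ([1, 7, 15], [.cov (nat_lit 76122224149062876875729259200512), .cov (nat_lit 76122224149062876875729259200512), .cov (nat_lit 76122224149062876875729259200512), .cov (nat_lit 76122224149062876875729259200512), .cov (nat_lit 76122224149062876875729259200512), .cov (nat_lit 76122224149062876875729259200512), .cov (nat_lit 76122224149062876882326328967168), .cov (nat_lit 76122224149062876882326328967168), .cov (nat_lit 76122224149062876882326328967168), .cov (nat_lit 76122224149062876882326328967168), .cov (nat_lit 76122224149062876882326328967168), .cov (nat_lit 76122224149062876882326328967168), .cov (nat_lit 76100212034896670285170212864000), .cov (nat_lit 76117741459281082408203452416000), .cov (nat_lit 76124472758244696663448216403968), .cov (nat_lit 76127074366608507345432184094720), .cov (nat_lit 76127079221201251735427463774208), .exp (.alt (nat_lit 0) (.exp (.alt (nat_lit 17) (.exp (.alt (nat_lit 1) (.exp (.alt (nat_lit 3) (.exp (.alt (nat_lit 5) (.exp (.alt (nat_lit 16) (.exp (.alt (nat_lit 18) (.exp (.alt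 (nat_lit 20) (.exp (.alt (nat_lit 15) (.cov (nat_lit 22018496799382711566354)) (.alt (nat_lit 15) (.cov (nat_lit 29023649398491169423371)) (.alt (nat_lit 15) (.cov (nat_lit 10134191968435898941442)) (.alt (nat_lit 15) (.cov (nat_lit 6518636498313769123841)) (.alt (nat_lit 15) (.exp (.alt (nat_lit 11) (.exp (.alt (nat_lit 10) (.cov (nat_lit 3057574190737896043520166115409921)) (.alt (nat_lit 9) (.cov (nat_lit 1390423763366138871819)) .e))) (.alt (nat_lit 11) (.exp (.alt (nat_lit 9) (.exp (.alt (nat_lit 13) (.exp (.alt (nat_lit 12) (.exp (.alt (nat_lit 29) (.exp (.alt (nat_lit 10) (.cov (nat_lit 365351601470858328014850)) (.alt (nat_lit 10) (.cov (nat_lit 24234410174170542374913)) (.alt (nat_lit 10) (.exp (.alt (nat_lit 14) (.cov (nat_lit 1397340881222096650243)) (.alt (nat_lit 26) (.exp (.alt (nat_lit 24) (.exp (.alt (nat_lit 30) (.cov (nat_lit 102098116770760670314497)) (.alt (nat_lit 27) (.cov (nat_lit 3555721231)) .e))) .e)) (.alt (nat_lit 14) (.exp (.alt (nat_lit 30) (.cov (nat_lit 102098116770760061091842)) (.alt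 (nat_lit 6) (.cov (nat_lit 10391388227)) .e))) .e)))) .e)))) .e)) .e)) .e)) .e)) (.alt (nat_lit 11) (.cov (nat_lit 4268119104413626269699)) (.alt (nat_lit 11) (.exp (.alt (nat_lit 9) (.exp (.alt (nat_lit 10) (.cov (nat_lit 365351601580809658564619)) (.alt (nat_lit 10) (.exp (.alt (nat_lit 8) (.exp (.alt (nat_lit 24) (.exp (.alt (nat_lit 12) (.exp (.alt (nat_lit 14) (.cov (nat_lit 69175307915008933891)) (.alt (nat_lit 14) (.exp (.alt (nat_lit 6) (.exp (.alt (nat_lit 30) (.cov (nat_lit 1621007644273342939137)) (.alt (nat_lit 30) (.exp (.alt (nat_lit 31) (.cov (nat_lit 214443410852013932544)) (.alt (nat_lit 22) (.cov (nat_lit 124780552)) .e))) .e))) .e)) (.alt (nat_lit 14) (.cov (nat_lit 2447377001)) .e)))) .e)) .e)) .e)) (.alt (nat_lit 10) (.cov (nat_lit 3869205675569303257089)) (.alt (nat_lit 10) (.exp (.alt (nat_lit 14) (.exp (.alt (nat_lit 12) (.exp (.alt (nat_lit 28) (.exp (.alt (nat_lit 24) (.exp (.alt (nat_lit 29) (.exp (.alt (nat_lit 30) (.cov (nat_lit 102098116770760061091841)) (.alt (nat_lit 6) (.cov (nat_lit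 224395279)) .e))) .e)) .e)) .e)) .e)) (.alt (nat_lit 14) (.cov (nat_lit 69175719097427558403)) (.alt (nat_lit 14) (.exp (.alt (nat_lit 6) (.exp (.alt (nat_lit 30) (.exp (.alt (nat_lit 28) (.exp (.alt (nat_lit 12) (.exp (.alt (nat_lit 24) (.exp (.alt (nat_lit 31) (.cov (nat_lit 1611784274435512467456)) (.alt (nat_lit 26) (.cov (nat_lit 1370488840)) .e))) .e)) .e)) .e)) (.alt (nat_lit 12) (.cov (nat_lit 64563749549890338817)) (.alt (nat_lit 12) (.exp (.alt (nat_lit 28) (.cov (nat_lit 25302015357694108499971)) (.alt (nat_lit 28) (.exp (.alt (nat_lit 24) (.exp (.alt (nat_lit 30) (.cov (nat_lit 25306627034916411408385)) (.alt (nat_lit 30) (.exp (.alt (nat_lit 31) (.cov (nat_lit 1611784274435512467456)) (.alt (nat_lit 26) (.cov (nat_lit 1370488840)) .e))) .e))) .e)) (.alt (nat_lit 13) (.cov (nat_lit 63963331)) .e)))) .e)))) .e)) (.alt (nat_lit 8) (.cov (nat_lit 10548678547)) .e))))) .e))))) .e)) (.alt (nat_lit 11) (.cov (nat_lit 159226272723)) .e)))))) .e)))))) .e)) .e)) .e)) .e)) .e)) .e)) (.alt (nat_lit 17) (.exp (.alt (nat_lit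 1) (.exp (.alt (nat_lit 3) (.exp (.alt (nat_lit 5) (.exp (.alt (nat_lit 4) (.exp (.alt (nat_lit 6) (.exp (.alt (nat_lit 20) (.exp (.alt (nat_lit 15) (.cov (nat_lit 24013051002353108385811)) (.alt (nat_lit 15) (.cov (nat_lit 440421642060340133899)) (.alt (nat_lit 15) (.exp (.alt (nat_lit 14) (.exp (.alt (nat_lit 12) (.exp (.alt (nat_lit 10) (.exp (.alt (nat_lit 11) (.cov (nat_lit 6555511815942364463111)) (.alt (nat_lit 11) (.cov (nat_lit 6555512104024712151043)) (.alt (nat_lit 11) (.exp (.alt (nat_lit 9) (.exp (.alt (nat_lit 27) (.cov (nat_lit 71481166271161040898)) (.alt (nat_lit 27) (.cov (nat_lit 440416162094997569537)) (.alt (nat_lit 27) (.exp (.alt (nat_lit 19) (.cov (nat_lit 262866120654046887939)) (.alt (nat_lit 31) (.exp (.alt (nat_lit 23) (.exp (.alt (nat_lit 30) (.cov (nat_lit 433498494538059087873)) (.alt (nat_lit 29) (.cov (nat_lit 11572084751)) .e))) .e)) (.alt (nat_lit 31) (.exp (.alt (nat_lit 30) (.cov (nat_lit 433498494528458326018)) (.alt (nat_lit 23) (.cov (nat_lit 123732035)) .e))) .e)))) .e)))) .e))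 (.alt (nat_lit 7) (.cov (nat_lit 156387774343)) .e))))) .e)) .e)) .e)) (.alt (nat_lit 15) (.cov (nat_lit 43123885246988747276289)) (.alt (nat_lit 15) (.exp (.alt (nat_lit 14) (.cov (nat_lit 350262165214435632742434)) (.alt (nat_lit 14) (.cov (nat_lit 29021343555435616010247)) (.alt (nat_lit 14) (.cov (nat_lit 102337926704314244399107)) (.alt (nat_lit 14) (.exp (.alt (nat_lit 12) (.exp (.alt (nat_lit 10) (.cov (nat_lit 21792522546160496279563)) (.alt (nat_lit 10) (.exp (.alt (nat_lit 11) (.exp (.alt (nat_lit 9) (.exp (.alt (nat_lit 27) (.exp (.alt (nat_lit 26) (.cov (nat_lit 142962284163621715971)) (.alt (nat_lit 26) (.exp (.alt (nat_lit 18) (.exp (.alt (nat_lit 30) (.cov (nat_lit 433498494538064330753)) (.alt (nat_lit 24) (.cov (nat_lit 297795599)) .e))) .e)) (.alt (nat_lit 26) (.exp (.alt (nat_lit 30) (.cov (nat_lit 433498494528458326018)) (.alt (nat_lit 18) (.cov (nat_lit 1197473859)) .e))) .e)))) .e)) .e)) .e)) (.alt (nat_lit 10) (.cov (nat_lit 428892427014266421249)) (.alt (nat_lit 10) (.exp (.alt (nat_lit 11) (.cov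 (nat_lit 6555511815942364463111)) (.alt (nat_lit 11) (.cov (nat_lit 21903203173376828899331)) (.alt (nat_lit 11) (.exp (.alt (nat_lit 9) (.exp (.alt (nat_lit 27) (.cov (nat_lit 1609478453416694906882)) (.alt (nat_lit 27) (.cov (nat_lit 1388117638881221804033)) (.alt (nat_lit 27) (.exp (.alt (nat_lit 19) (.cov (nat_lit 21525044508613513576451)) (.alt (nat_lit 26) (.exp (.alt (nat_lit 18) (.exp (.alt (nat_lit 30) (.cov (nat_lit 433498494538064330753)) (.alt (nat_lit 24) (.cov (nat_lit 297795599)) .e))) .e)) (.alt (nat_lit 26) (.exp (.alt (nat_lit 30) (.cov (nat_lit 433498494528458326018)) (.alt (nat_lit 18) (.cov (nat_lit 1197473859)) .e))) .e)))) .e)))) .e)) (.alt (nat_lit 2) (.cov (nat_lit 28103937927)) .e))))) .e))))) .e)) (.alt (nat_lit 14) (.cov (nat_lit 3030390253)) .e)))))) .e)))))) .e)) .e)) .e)) .e)) .e)) .e)) .e))) .e)]),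
   ([1, 4, 18], [.cov (nat_lit 1211945029642569111501045757902848), .cov (nat_lit 1211945029642569111501045757902848), .cov (nat_lit 1211945029642569111501045757902848), .cov (nat_lit 1211945029642569111501045757902848), .cov (nat_lit 1211945029642569111501045757902848), .cov (nat_lit 1211945029642569111501045757902848), .cov (nat_lit 1211945029642569111501045757902848), .cov (nat_lit 76124883785275733058239883902976), .cov (nat_lit 76130991278516426164830499504128), .cov (nat_lit 76130759164759060156028955918336), .cov (nat_lit 76130764000462338614545654743040), .cov (nat_lit 76131136349614779920331464245248), .exp (.alt (nat_lit 0) (.exp (.alt (nat_lit 17) (.exp (.alt (nat_lit 1) (.exp (.alt (nat_lit 3) (.exp (.alt (nat_lit 5) (.exp (.alt (nat_lit 15) (.cov (nat_lit 3131335912668473065927)) (.alt (nat_lit 15) (.cov (nat_lit 25398866382597064229089)) (.alt (nat_lit 15) (.cov (nat_lit 2967628707169951547486)) (.alt (nat_lit 15) (.cov (nat_lit 26727041182994122407972)) (.alt (nat_lit 15) (.cov (nat_lit 4295805686810330267664))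 (.alt (nat_lit 15) (.cov (nat_lit 71493073981950394386)) (.alt (nat_lit 15) (.cov (nat_lit 25398876225413714018315)) (.alt (nat_lit 15) (.cov (nat_lit 365556843240421426462726)) (.alt (nat_lit 15) (.cov (nat_lit 406886777713623783440387)) (.alt (nat_lit 15) (.cov (nat_lit 350209154634000957964290)) (.alt (nat_lit 15) (.cov (nat_lit 394327337257592160257)) (.alt (nat_lit 15) (.cov (nat_lit 1648708260836446044160)) (.alt (nat_lit 15) (.exp (.alt (nat_lit 11) (.exp (.alt (nat_lit 10) (.cov (nat_lit 3544355271142995644336980076003330)) (.alt (nat_lit 9) (.cov (nat_lit 845097023938271865232430795532009473)) (.alt (nat_lit 9) (.cov (nat_lit 224455292300625664907495014194479104)) (.alt (nat_lit 9) (.exp (.alt (nat_lit 13) (.cov (nat_lit 3868876029553532413541194099851267)) (.alt (nat_lit 13) (.cov (nat_lit 180483026045838878001878171230666753)) (.alt (nat_lit 13) (.cov (nat_lit 180483026045815118595528815749890048)) (.alt (nat_lit 13) (.exp (.alt (nat_lit 12) (.cov (nat_lit 58712511612316088664422317962559489)) (.alt (nat_lit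 12) (.cov (nat_lit 405595482444163295739915)) .e))) .e))))) .e))))) (.alt (nat_lit 11) (.cov (nat_lit 23064180696120557606)) (.alt (nat_lit 7) (.exp (.alt (nat_lit 6) (.cov (nat_lit 91630868380804961262495088913678338)) (.alt (nat_lit 6) (.cov (nat_lit 55609304103546401386174023546699777)) (.alt (nat_lit 6) (.cov (nat_lit 1414705637730440868451567525691392)) (.alt (nat_lit 6) (.cov (nat_lit 643333641042734874660)) .e))))) (.alt (nat_lit 7) (.exp (.alt (nat_lit 6) (.cov (nat_lit 50092500340904568833473762174173185)) (.alt (nat_lit 6) (.cov (nat_lit 6398723082889396748299)) .e))) (.alt (nat_lit 7) (.cov (nat_lit 404514050407139669704739)) (.alt (nat_lit 7) (.cov (nat_lit 604147706335885000719)) (.alt (nat_lit 7) (.cov (nat_lit 6433317459238568591367)) (.alt (nat_lit 7) (.cov (nat_lit 29085923828289399422982)) (.alt (nat_lit 7) (.cov (nat_lit 6654678586034370904067)) (.alt (nat_lit 7) (.cov (nat_lit 13858583206094176258)) (.alt (nat_lit 7) (.cov (nat_lit 26503385909793009958913)) (.alt (nat_lit 7) (.cov (nat_lit 53062574092987662336))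 (.alt (nat_lit 7) (.cov (nat_lit 1952462085)) .e)))))))))))))) .e)))))))))))))) .e)) .e)) .e)) .e)) .e), .exp (.alt (nat_lit 0) (.exp (.alt (nat_lit 17) (.exp (.alt (nat_lit 1) (.exp (.alt (nat_lit 3) (.exp (.alt (nat_lit 5) (.exp (.alt (nat_lit 15) (.cov (nat_lit 25398866382597064229089)) (.alt (nat_lit 15) (.cov (nat_lit 71493073981950394386)) (.alt (nat_lit 15) (.cov (nat_lit 347829518737518082654219)) (.alt (nat_lit 15) (.exp (.alt (nat_lit 7) (.exp (.alt (nat_lit 6) (.exp (.alt (nat_lit 23) (.exp (.alt (nat_lit 14) (.cov (nat_lit 350262166142559742591010)) (.alt (nat_lit 13) (.cov (nat_lit 66872888738601500679)) (.alt (nat_lit 13) (.cov (nat_lit 2610223053935685402627)) (.alt (nat_lit 13) (.exp (.alt (nat_lit 9) (.exp (.alt (nat_lit 12) (.cov (nat_lit 343865756425365881880587)) (.alt (nat_lit 12) (.exp (.alt (nat_lit 14) (.exp (.alt (nat_lit 10) (.exp (.alt (nat_lit 30) (.exp (.alt (nat_lit 28) (.cov (nat_lit 2997595929570723233795)) (.alt (nat_lit 28) (.exp (.alt (nat_lit 29) (.exp (.alt (nat_lit 24) (.cov (nat_lit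 1586419999135174230017)) (.alt (nat_lit 20) (.cov (nat_lit 11492392975)) .e))) .e)) (.alt (nat_lit 28) (.exp (.alt (nat_lit 24) (.cov (nat_lit 1586419999135845318658)) (.alt (nat_lit 29) (.cov (nat_lit 2911895619)) .e))) .e)))) .e)) .e)) .e)) (.alt (nat_lit 12) (.cov (nat_lit 1614095733750138667009)) (.alt (nat_lit 12) (.exp (.alt (nat_lit 14) (.exp (.alt (nat_lit 10) (.exp (.alt (nat_lit 26) (.exp (.alt (nat_lit 27) (.exp (.alt (nat_lit 18) (.exp (.alt (nat_lit 30) (.cov (nat_lit 2868468712257994358785)) (.alt (nat_lit 30) (.exp (.alt (nat_lit 28) (.cov (nat_lit 1395035031569422090240)) (.alt (nat_lit 31) (.cov (nat_lit 2983198728)) .e))) .e))) .e)) .e)) .e)) .e)) (.alt (nat_lit 14) (.cov (nat_lit 142962695546922336259)) (.alt (nat_lit 14) (.exp (.alt (nat_lit 10) (.exp (.alt (nat_lit 30) (.cov (nat_lit 25433448424613130272770)) (.alt (nat_lit 30) (.cov (nat_lit 21744099724219758149633)) (.alt (nat_lit 30) (.exp (.alt (nat_lit 31) (.cov (nat_lit 652553589209456181251)) (.alt (nat_lit 28) (.exp (.alt (nat_lit 29) (.exp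 (.alt (nat_lit 24) (.cov (nat_lit 1586419999135174230017)) (.alt (nat_lit 20) (.cov (nat_lit 11492392975)) .e))) .e)) (.alt (nat_lit 28) (.exp (.alt (nat_lit 24) (.cov (nat_lit 1586419999135845318658)) (.alt (nat_lit 29) (.cov (nat_lit 2911895619)) .e))) .e)))) .e)))) .e)) (.alt (nat_lit 4) (.cov (nat_lit 9818869642)) .e))))) .e))))) .e)) (.alt (nat_lit 13) (.cov (nat_lit 13199485657)) .e)))))) .e)) .e)) .e)) (.alt (nat_lit 15) (.cov (nat_lit 344322341341341741481985)) (.alt (nat_lit 15) (.exp (.alt (nat_lit 11) (.exp (.alt (nat_lit 10) (.cov (nat_lit 3057580815671503706100423939063810)) (.alt (nat_lit 9) (.cov (nat_lit 45549626245479469678610)) .e))) (.alt (nat_lit 7) (.exp (.alt (nat_lit 6) (.cov (nat_lit 50092500340904568833473762174173185)) (.alt (nat_lit 6) (.cov (nat_lit 6398723082889396748299)) .e))) (.alt (nat_lit 7) (.exp (.alt (nat_lit 6) (.exp (.alt (nat_lit 2) (.exp (.alt (nat_lit 10) (.exp (.alt (nat_lit 18) (.exp (.alt (nat_lit 23) (.cov (nat_lit 3170534386205455286283)) (.alt (nat_lit 23) (.cov (nat_lit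 23217535164127023988738)) (.alt (nat_lit 23) (.cov (nat_lit 406836028652733760274433)) (.alt (nat_lit 23) (.exp (.alt (nat_lit 21) (.exp (.alt (nat_lit 20) (.exp (.alt (nat_lit 28) (.exp (.alt (nat_lit 12) (.exp (.alt (nat_lit 30) (.exp (.alt (nat_lit 29) (.cov (nat_lit 57646084027052982273)) (.alt (nat_lit 29) (.exp (.alt (nat_lit 25) (.cov (nat_lit 102068140813839307374592)) (.alt (nat_lit 13) (.cov (nat_lit 156373090312)) .e))) .e))) .e)) .e)) .e)) .e)) (.alt (nat_lit 21) (.cov (nat_lit 350186072395095518216195)) (.alt (nat_lit 22) (.cov (nat_lit 1987640115413620097024)) (.alt (nat_lit 19) (.cov (nat_lit 166156308362)) .e))))) .e))))) .e)) .e)) .e)) .e)) (.alt (nat_lit 7) (.cov (nat_lit 348205775573072478211)) (.alt (nat_lit 7) (.exp (.alt (nat_lit 6) (.exp (.alt (nat_lit 23) (.cov (nat_lit 47959230653002399350802)) (.alt (nat_lit 23) (.cov (nat_lit 4330376612786790727691)) (.alt (nat_lit 23) (.cov (nat_lit 809362839130035191810)) (.alt (nat_lit 23) (.cov (nat_lit 345246971684279134715905)) (.alt (nat_lit 23) (.exp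 (.alt (nat_lit 31) (.cov (nat_lit 46702545665416131248162)) (.alt (nat_lit 21) (.cov (nat_lit 350186075407757445431303)) (.alt (nat_lit 21) (.cov (nat_lit 63154742920482801057795)) (.alt (nat_lit 21) (.exp (.alt (nat_lit 20) (.exp (.alt (nat_lit 29) (.cov (nat_lit 406925951036945578590219)) (.alt (nat_lit 29) (.exp (.alt (nat_lit 28) (.exp (.alt (nat_lit 12) (.exp (.alt (nat_lit 30) (.exp (.alt (nat_lit 25) (.cov (nat_lit 6407937740197084528643)) (.alt (nat_lit 25) (.exp (.alt (nat_lit 9) (.exp (.alt (nat_lit 24) (.cov (nat_lit 102107340142796938936321)) (.alt (nat_lit 24) (.exp (.alt (nat_lit 26) (.cov (nat_lit 102070446656848511631360)) (.alt (nat_lit 16) (.cov (nat_lit 10521411592)) .e))) .e))) .e)) (.alt (nat_lit 31) (.cov (nat_lit 330301635)) .e)))) .e)) .e)) .e)) (.alt (nat_lit 29) (.cov (nat_lit 347889457969592361025537)) (.alt (nat_lit 29) (.exp (.alt (nat_lit 28) (.exp (.alt (nat_lit 12) (.exp (.alt (nat_lit 8) (.exp (.alt (nat_lit 9) (.exp (.alt (nat_lit 24) (.exp (.alt (nat_lit 30) (.cov (nat_lit 102107340142797515653121))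 (.alt (nat_lit 30) (.exp (.alt (nat_lit 26) (.cov (nat_lit 343909567306189947011072)) (.alt (nat_lit 22) (.cov (nat_lit 10521411592)) .e))) .e))) .e)) .e)) .e)) .e)) (.alt (nat_lit 31) (.cov (nat_lit 726340976895724617731)) (.alt (nat_lit 31) (.exp (.alt (nat_lit 30) (.exp (.alt (nat_lit 27) (.cov (nat_lit 25364306098202345474)) (.alt (nat_lit 27) (.cov (nat_lit 1757052515957391491073)) (.alt (nat_lit 27) (.exp (.alt (nat_lit 11) (.cov (nat_lit 104576898014480387014659)) (.alt (nat_lit 26) (.exp (.alt (nat_lit 18) (.exp (.alt (nat_lit 10) (.cov (nat_lit 102065834968631090348033)) (.alt (nat_lit 10) (.exp (.alt (nat_lit 8) (.cov (nat_lit 343868062132024094228480)) (.alt (nat_lit 14) (.cov (nat_lit 159228362760)) .e))) .e))) .e)) (.alt (nat_lit 11) (.cov (nat_lit 28766634601)) .e)))) .e)))) .e)) (.alt (nat_lit 13) (.cov (nat_lit 9776926602)) .e))))) .e))))) .e)) (.alt (nat_lit 21) (.cov (nat_lit 255862445)) .e)))))) .e)))))) .e)) (.alt (nat_lit 7) (.cov (nat_lit 1952462085)) .e))))))) .e))))))) .e)) .e)) .e)) .e)) .e)]),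
   ([1, 1, 21], [.cov (nat_lit 76131663441272131883258473349120), .cov (nat_lit 76132176025819648486028548767744), .cov (nat_lit 76132180861522926944545247592448), .cov (nat_lit 76132272739885217656362525261824), .cov (nat_lit 76132277575588496114879224086528), .exp (.alt (nat_lit 0) (.exp (.alt (nat_lit 17) (.cov (nat_lit 15743787)) .e)) .e), .exp (.alt (nat_lit 0) (.exp (.alt (nat_lit 17) (.exp (.alt (nat_lit 15) (.exp (.alt (nat_lit 7) (.cov (nat_lit 1353875507972529626901547255332871)) (.alt (nat_lit 7) (.cov (nat_lit 3138727514402536517605721667272707)) (.alt (nat_lit 7) (.cov (nat_lit 94815219629024731338398958632304641)) (.alt (nat_lit 7) (.exp (.alt (nat_lit 3) (.exp (.alt (nat_lit 5) (.cov (nat_lit 6708432199436120408315968372080642)) (.alt (nat_lit 5) (.cov (nat_lit 55872987130773124393625108943470593)) (.alt (nat_lit 5) (.cov (nat_lit 139274255401645980063077532586475520)) (.alt (nat_lit 5) (.cov (nat_lit 47920038195982857404510)) .e))))) .e)) (.alt (nat_lit 7) (.cov (nat_lit 343877296703686669500920)) .e))))))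 (.alt (nat_lit 15) (.cov (nat_lit 10134191968389493162955)) (.alt (nat_lit 15) (.cov (nat_lit 21866321463163126546891)) (.alt (nat_lit 15) (.cov (nat_lit 25379538721695596776)) (.alt (nat_lit 15) (.cov (nat_lit 25338924304977986846945)) (.alt (nat_lit 15) (.cov (nat_lit 22751776604814746583134)) (.alt (nat_lit 15) (.cov (nat_lit 16162816530272223268)) (.alt (nat_lit 15) (.cov (nat_lit 25393977507493969936)) (.alt (nat_lit 15) (.cov (nat_lit 25394230395193524243)) (.alt (nat_lit 15) (.cov (nat_lit 30002657461302984715)) (.alt (nat_lit 15) (.cov (nat_lit 25395059427103473670)) (.alt (nat_lit 15) (.cov (nat_lit 7773028223494854279171)) (.alt (nat_lit 15) (.exp (.alt (nat_lit 7) (.exp (.alt (nat_lit 3) (.exp (.alt (nat_lit 5) (.exp (.alt (nat_lit 11) (.exp (.alt (nat_lit 10) (.cov (nat_lit 3544355271142995644336980076003330)) (.alt (nat_lit 9) (.cov (nat_lit 845097023938271865232430795532009473)) (.alt (nat_lit 9) (.cov (nat_lit 757152498126097433643587105264238592)) (.alt (nat_lit 9) (.exp (.alt (nat_lit 13) (.cov (nat_lit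 11332802889429356305935095701700611)) (.alt (nat_lit 13) (.cov (nat_lit 3219836717159855493312532123222017)) (.alt (nat_lit 13) (.cov (nat_lit 845097023938277924987867805211688960)) (.alt (nat_lit 13) (.exp (.alt (nat_lit 12) (.cov (nat_lit 3219836717137281290241334942105601)) (.alt (nat_lit 12) (.cov (nat_lit 391996278051614752779)) .e))) .e))))) .e))))) (.alt (nat_lit 11) (.cov (nat_lit 23064180696120557606)) (.alt (nat_lit 11) (.cov (nat_lit 1570284740764488433761)) (.alt (nat_lit 11) (.cov (nat_lit 20758654191066415138)) (.alt (nat_lit 11) (.cov (nat_lit 23059558191128903715)) (.alt (nat_lit 11) (.cov (nat_lit 25371202579870822432783)) (.alt (nat_lit 11) (.cov (nat_lit 102331022371625089630215)) (.alt (nat_lit 11) (.cov (nat_lit 10131894431091304431622)) (.alt (nat_lit 11) (.cov (nat_lit 25297427812552931278851)) (.alt (nat_lit 11) (.cov (nat_lit 23084435741185409026)) (.alt (nat_lit 11) (.cov (nat_lit 1646398182508444254209)) (.alt (nat_lit 11) (.cov (nat_lit 3933798478458056081408)) (.alt (nat_lit 11) (.cov (nat_lit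 110114071)) .e)))))))))))))) .e)) .e)) .e)) (.alt (nat_lit 15) (.cov (nat_lit 25397062737121509377)) (.alt (nat_lit 15) (.cov (nat_lit 42083973632158759649280)) (.alt (nat_lit 15) (.exp (.alt (nat_lit 7) (.cov (nat_lit 11538046323755319800)) (.alt (nat_lit 7) (.cov (nat_lit 6398723082889351660492)) (.alt (nat_lit 7) (.exp (.alt (nat_lit 3) (.cov (nat_lit 14466461609958143714160565380186114)) (.alt (nat_lit 3) (.cov (nat_lit 836682206397419557064989968695297)) (.alt (nat_lit 3) (.cov (nat_lit 105331656334504023949042604082987008)) (.alt (nat_lit 3) (.cov (nat_lit 3112903039986068095070)) .e))))) (.alt (nat_lit 7) (.cov (nat_lit 11544707212474581030)) (.alt (nat_lit 7) (.cov (nat_lit 345329987710488841027681)) (.alt (nat_lit 7) (.cov (nat_lit 11555295462171869218)) (.alt (nat_lit 7) (.cov (nat_lit 21478951149379301408803)) (.alt (nat_lit 7) (.cov (nat_lit 6944095427615522831)) (.alt (nat_lit 7) (.cov (nat_lit 47968481873457396580359)) (.alt (nat_lit 7) (.cov (nat_lit 7607005629074583322630)) (.alt (nat_lit 7) (.cov (nat_lit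 25463454242069940273155)) (.alt (nat_lit 7) (.cov (nat_lit 6652387524859460059138)) (.alt (nat_lit 7) (.cov (nat_lit 347843366895154721980417)) (.alt (nat_lit 7) (.exp (.alt (nat_lit 3) (.exp (.alt (nat_lit 5) (.cov (nat_lit 2833886723028261274060)) (.alt (nat_lit 5) (.cov (nat_lit 9231910844345876705)) (.alt (nat_lit 5) (.cov (nat_lit 6502486053491370360926)) (.alt (nat_lit 5) (.cov (nat_lit 3108291173647568076836)) (.alt (nat_lit 5) (.cov (nat_lit 5100545121326292008976)) (.alt (nat_lit 5) (.cov (nat_lit 42067812051479751032850)) (.alt (nat_lit 5) (.cov (nat_lit 29007520508444876472331)) (.alt (nat_lit 5) (.cov (nat_lit 2886939003472848093190)) (.alt (nat_lit 5) (.cov (nat_lit 48450707754660659203)) (.alt (nat_lit 5) (.cov (nat_lit 9247614069246001154)) (.alt (nat_lit 5) (.cov (nat_lit 45388240491703719428097)) (.alt (nat_lit 5) (.cov (nat_lit 365476147375061139980288)) (.alt (nat_lit 5) (.exp (.alt (nat_lit 4) (.exp (.alt (nat_lit 6) (.cov (nat_lit 16773556934797773799417851643166722)) (.alt (nat_lit 6) (.cov (nat_lit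 8701157907685711825751445092696065)) (.alt (nat_lit 6) (.cov (nat_lit 105367122078695863406028572820766720)) (.alt (nat_lit 6) (.cov (nat_lit 249033956502060138590)) .e))))) (.alt (nat_lit 4) (.cov (nat_lit 27672249348128768038)) (.alt (nat_lit 4) (.cov (nat_lit 3938385548610172354657)) (.alt (nat_lit 4) (.cov (nat_lit 41864894442789836685346)) (.alt (nat_lit 4) (.cov (nat_lit 45406669269757463625763)) (.alt (nat_lit 4) (.cov (nat_lit 21499692165201884348431)) (.alt (nat_lit 4) (.cov (nat_lit 27688574711825956871)) (.alt (nat_lit 4) (.cov (nat_lit 29085923828289396277254)) (.alt (nat_lit 4) (.cov (nat_lit 6654678586034367758339)) (.alt (nat_lit 4) (.cov (nat_lit 13856841579664244738)) (.alt (nat_lit 4) (.cov (nat_lit 604157118154601922561)) (.alt (nat_lit 4) (.cov (nat_lit 27698305389683539968)) (.alt (nat_lit 1) (.cov (nat_lit 110114071)) .e)))))))))))))) .e)))))))))))))) .e)) (.alt (nat_lit 7) (.cov (nat_lit 3160621)) .e)))))))))))))))) .e))))))))))))))))) .e)) .e), .exp (.alt (nat_lit 0) (.exp (.alt (nat_lit 17) (.exp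 (.alt (nat_lit 15) (.cov (nat_lit 10134191968389493162489)) (.alt (nat_lit 15) (.cov (nat_lit 16150183144688976097)) (.alt (nat_lit 15) (.exp (.alt (nat_lit 7) (.exp (.alt (nat_lit 3) (.exp (.alt (nat_lit 5) (.exp (.alt (nat_lit 4) (.exp (.alt (nat_lit 6) (.exp (.alt (nat_lit 12) (.exp (.alt (nat_lit 14) (.cov (nat_lit 21568855936994727952418)) (.alt (nat_lit 13) (.cov (nat_lit 1837760319819315412999)) (.alt (nat_lit 13) (.cov (nat_lit 66878179588554358787)) (.alt (nat_lit 13) (.exp (.alt (nat_lit 9) (.exp (.alt (nat_lit 29) (.cov (nat_lit 795515983314449072139)) (.alt (nat_lit 29) (.exp (.alt (nat_lit 28) (.exp (.alt (nat_lit 20) (.exp (.alt (nat_lit 24) (.exp (.alt (nat_lit 31) (.cov (nat_lit 7662316337209919143939)) (.alt (nat_lit 31) (.exp (.alt (nat_lit 23) (.exp (.alt (nat_lit 30) (.cov (nat_lit 6405631888392353480705)) (.alt (nat_lit 30) (.exp (.alt (nat_lit 26) (.cov (nat_lit 6387185146517059010560)) (.alt (nat_lit 14) (.cov (nat_lit 157045227528)) .e))) .e))) .e)) (.alt (nat_lit 25) (.cov (nat_lit 47608496323))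 .e)))) .e)) .e)) .e)) (.alt (nat_lit 29) (.cov (nat_lit 384340224254844347613185)) (.alt (nat_lit 29) (.exp (.alt (nat_lit 28) (.exp (.alt (nat_lit 20) (.exp (.alt (nat_lit 22) (.exp (.alt (nat_lit 23) (.exp (.alt (nat_lit 30) (.exp (.alt (nat_lit 24) (.cov (nat_lit 6405631888391776763905)) (.alt (nat_lit 24) (.exp (.alt (nat_lit 26) (.cov (nat_lit 21534267874041814581248)) (.alt (nat_lit 8) (.cov (nat_lit 157045227528)) .e))) .e))) .e)) .e)) .e)) .e)) (.alt (nat_lit 25) (.cov (nat_lit 104692190576140181569539)) (.alt (nat_lit 25) (.exp (.alt (nat_lit 24) (.exp (.alt (nat_lit 27) (.cov (nat_lit 412745931655263289346)) (.alt (nat_lit 27) (.cov (nat_lit 412746043784797618177)) (.alt (nat_lit 27) (.exp (.alt (nat_lit 19) (.cov (nat_lit 643330217182354210819)) (.alt (nat_lit 26) (.exp (.alt (nat_lit 10) (.exp (.alt (nat_lit 18) (.cov (nat_lit 6396408516355500802049)) (.alt (nat_lit 18) (.exp (.alt (nat_lit 22) (.cov (nat_lit 21525044502004970291200)) (.alt (nat_lit 16) (.cov (nat_lit 826277896)) .e))) .e))) .e)) (.alt (nat_lit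 19) (.cov (nat_lit 19614663273)) .e)))) .e)))) .e)) (.alt (nat_lit 21) (.cov (nat_lit 10355740554)) .e))))) .e))))) .e)) (.alt (nat_lit 13) (.exp (.alt (nat_lit 9) (.cov (nat_lit 384160363011363805593620)) (.alt (nat_lit 29) (.cov (nat_lit 57657098933944451074)) (.alt (nat_lit 9) (.cov (nat_lit 1871715183)) .e)))) .e)))))) .e)) .e)) .e)) .e)) .e)) .e)) (.alt (nat_lit 15) (.cov (nat_lit 71507833826172731403)) (.alt (nat_lit 15) (.exp (.alt (nat_lit 7) (.exp (.alt (nat_lit 3) (.exp (.alt (nat_lit 5) (.exp (.alt (nat_lit 11) (.exp (.alt (nat_lit 10) (.cov (nat_lit 3057580815671503706100423939063810)) (.alt (nat_lit 9) (.cov (nat_lit 45549626245479469678610)) .e))) (.alt (nat_lit 11) (.cov (nat_lit 27764659368304139304994)) (.alt (nat_lit 11) (.exp (.alt (nat_lit 9) (.exp (.alt (nat_lit 13) (.exp (.alt (nat_lit 12) (.exp (.alt (nat_lit 29) (.exp (.alt (nat_lit 10) (.cov (nat_lit 299759738532566925323)) (.alt (nat_lit 10) (.exp (.alt (nat_lit 2) (.exp (.alt (nat_lit 6) (.exp (.alt (nat_lit 18) (.exp (.alt (nat_lit 26) (.cov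 (nat_lit 21541185409666540109827)) (.alt (nat_lit 26) (.exp (.alt (nat_lit 27) (.exp (.alt (nat_lit 30) (.cov (nat_lit 2868468712257951367169)) (.alt (nat_lit 24) (.cov (nat_lit 11504975887)) .e))) .e)) (.alt (nat_lit 26) (.exp (.alt (nat_lit 30) (.cov (nat_lit 2875386241286873808898)) (.alt (nat_lit 27) (.cov (nat_lit 300941379)) .e))) .e)))) .e)) .e)) .e)) (.alt (nat_lit 10) (.cov (nat_lit 404283462541600800899073)) (.alt (nat_lit 10) (.exp (.alt (nat_lit 2) (.exp (.alt (nat_lit 6) (.exp (.alt (nat_lit 22) (.exp (.alt (nat_lit 23) (.exp (.alt (nat_lit 20) (.exp (.alt (nat_lit 18) (.cov (nat_lit 1609478429237035663361)) (.alt (nat_lit 18) (.exp (.alt (nat_lit 26) (.cov (nat_lit 1390423345550998896640)) (.alt (nat_lit 19) (.cov (nat_lit 28311560)) .e))) .e))) .e)) .e)) .e)) .e)) (.alt (nat_lit 2) (.cov (nat_lit 262866888258033287171)) (.alt (nat_lit 2) (.exp (.alt (nat_lit 6) (.exp (.alt (nat_lit 18) (.cov (nat_lit 2847716149365552709634)) (.alt (nat_lit 18) (.cov (nat_lit 258254665521584668673)) (.alt (nat_lit 18) (.exp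 (.alt (nat_lit 16) (.cov (nat_lit 1817004308852635598851)) (.alt (nat_lit 22) (.exp (.alt (nat_lit 23) (.exp (.alt (nat_lit 30) (.cov (nat_lit 2868468712257955561473)) (.alt (nat_lit 20) (.cov (nat_lit 734003215)) .e))) .e)) (.alt (nat_lit 22) (.exp (.alt (nat_lit 30) (.cov (nat_lit 2875386241286873808898)) (.alt (nat_lit 23) (.cov (nat_lit 32505923)) .e))) .e)))) .e)))) .e)) (.alt (nat_lit 8) (.cov (nat_lit 10359934858)) .e))))) .e))))) .e)) .e)) .e)) .e)) (.alt (nat_lit 11) (.cov (nat_lit 760949965569949433859)) (.alt (nat_lit 11) (.exp (.alt (nat_lit 9) (.exp (.alt (nat_lit 10) (.cov (nat_lit 21771771597359864086549)) (.alt (nat_lit 10) (.cov (nat_lit 102273366466760980561931)) (.alt (nat_lit 10) (.cov (nat_lit 1388129432254411702274)) (.alt (nat_lit 10) (.cov (nat_lit 81963513945363964755969)) (.alt (nat_lit 10) (.exp (.alt (nat_lit 14) (.cov (nat_lit 6359516382805817819170)) (.alt (nat_lit 2) (.cov (nat_lit 43105432655721972891655)) (.alt (nat_lit 2) (.cov (nat_lit 22002362741634482831363)) (.alt (nat_lit 2) (.exp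 (.alt (nat_lit 6) (.exp (.alt (nat_lit 18) (.cov (nat_lit 347868699887151621341195)) (.alt (nat_lit 18) (.exp (.alt (nat_lit 22) (.exp (.alt (nat_lit 23) (.exp (.alt (nat_lit 20) (.exp (.alt (nat_lit 26) (.cov (nat_lit 347665785574796838305795)) (.alt (nat_lit 26) (.exp (.alt (nat_lit 27) (.exp (.alt (nat_lit 30) (.cov (nat_lit 433498494528315719681)) (.alt (nat_lit 30) (.exp (.alt (nat_lit 28) (.cov (nat_lit 1395035031569413701632)) (.alt (nat_lit 14) (.cov (nat_lit 10347347976)) .e))) .e))) .e)) (.alt (nat_lit 16) (.cov (nat_lit 10024386755)) .e)))) .e)) .e)) .e)) (.alt (nat_lit 18) (.cov (nat_lit 343884208658190689107969)) (.alt (nat_lit 18) (.exp (.alt (nat_lit 22) (.exp (.alt (nat_lit 23) (.exp (.alt (nat_lit 31) (.exp (.alt (nat_lit 27) (.exp (.alt (nat_lit 30) (.exp (.alt (nat_lit 20) (.cov (nat_lit 433498494538036019201)) (.alt (nat_lit 20) (.exp (.alt (nat_lit 28) (.cov (nat_lit 424275124690448547840)) (.alt (nat_lit 4) (.cov (nat_lit 10347347976)) .e))) .e))) .e)) .e)) .e)) .e)) (.alt (nat_lit 16) (.cov (nat_lit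 22043859596892503539715)) (.alt (nat_lit 16) (.exp (.alt (nat_lit 20) (.exp (.alt (nat_lit 24) (.cov (nat_lit 25440365953823908298754)) (.alt (nat_lit 24) (.cov (nat_lit 1607172722558091919361)) (.alt (nat_lit 24) (.exp (.alt (nat_lit 25) (.cov (nat_lit 21903202762269458956291)) (.alt (nat_lit 28) (.exp (.alt (nat_lit 12) (.exp (.alt (nat_lit 29) (.cov (nat_lit 440416023555964141569)) (.alt (nat_lit 29) (.exp (.alt (nat_lit 31) (.cov (nat_lit 431192653718101164032)) (.alt (nat_lit 21) (.cov (nat_lit 661651464)) .e))) .e))) .e)) (.alt (nat_lit 25) (.cov (nat_lit 174714782313)) .e)))) .e)))) .e)) (.alt (nat_lit 19) (.cov (nat_lit 10929311626)) .e))))) .e))))) .e)) (.alt (nat_lit 2) (.cov (nat_lit 47586485933)) .e)))))) .e)))))) .e)) (.alt (nat_lit 11) (.cov (nat_lit 2896180727)) .e))))))) .e)) .e)) .e)) (.alt (nat_lit 15) (.cov (nat_lit 25395991812829609985)) (.alt (nat_lit 15) (.exp (.alt (nat_lit 7) (.cov (nat_lit 3843851458614517563896)) (.alt (nat_lit 7) (.exp (.alt (nat_lit 3) (.exp (.alt (nat_lit 1) (.exp (.alt (nat_lit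 5) (.exp (.alt (nat_lit 9) (.exp (.alt (nat_lit 11) (.exp (.alt (nat_lit 10) (.exp (.alt (nat_lit 27) (.exp (.alt (nat_lit 6) (.cov (nat_lit 21578079027557067390987)) (.alt (nat_lit 6) (.exp (.alt (nat_lit 4) (.exp (.alt (nat_lit 12) (.exp (.alt (nat_lit 20) (.exp (.alt (nat_lit 22) (.cov (nat_lit 262866120654046887939)) (.alt (nat_lit 22) (.exp (.alt (nat_lit 23) (.exp (.alt (nat_lit 30) (.cov (nat_lit 25295097819870381735937)) (.alt (nat_lit 18) (.cov (nat_lit 731906063)) .e))) .e)) (.alt (nat_lit 22) (.exp (.alt (nat_lit 30) (.cov (nat_lit 25295097819881823797250)) (.alt (nat_lit 23) (.cov (nat_lit 200278083)) .e))) .e)))) .e)) .e)) .e)) (.alt (nat_lit 6) (.cov (nat_lit 25285880066337927069697)) (.alt (nat_lit 6) (.exp (.alt (nat_lit 4) (.exp (.alt (nat_lit 12) (.exp (.alt (nat_lit 28) (.exp (.alt (nat_lit 29) (.exp (.alt (nat_lit 24) (.exp (.alt (nat_lit 20) (.cov (nat_lit 2854633654202701709313)) (.alt (nat_lit 20) (.exp (.alt (nat_lit 22) (.cov (nat_lit 21525044502004968194048)) (.alt (nat_lit 21) (.cov (nat_lit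 2976907272)) .e))) .e))) .e)) .e)) .e)) .e)) (.alt (nat_lit 4) (.cov (nat_lit 1817004720090574225411)) (.alt (nat_lit 4) (.exp (.alt (nat_lit 12) (.exp (.alt (nat_lit 20) (.cov (nat_lit 1660206999630706114562)) (.alt (nat_lit 20) (.cov (nat_lit 3947603379108457742337)) (.alt (nat_lit 20) (.exp (.alt (nat_lit 21) (.cov (nat_lit 66869464860011266051)) (.alt (nat_lit 22) (.exp (.alt (nat_lit 23) (.exp (.alt (nat_lit 30) (.cov (nat_lit 25295097819870381735937)) (.alt (nat_lit 18) (.cov (nat_lit 731906063)) .e))) .e)) (.alt (nat_lit 22) (.exp (.alt (nat_lit 30) (.cov (nat_lit 25295097819881823797250)) (.alt (nat_lit 23) (.cov (nat_lit 200278083)) .e))) .e)))) .e)))) .e)) (.alt (nat_lit 2) (.cov (nat_lit 156382531466)) .e))))) .e))))) .e)) .e)) .e)) .e)) .e)) .e)) (.alt (nat_lit 3) (.exp (.alt (nat_lit 1) (.exp (.alt (nat_lit 5) (.exp (.alt (nat_lit 9) (.exp (.alt (nat_lit 11) (.exp (.alt (nat_lit 10) (.exp (.alt (nat_lit 27) (.exp (.alt (nat_lit 6) (.cov (nat_lit 21578079027557067390987)) (.alt (nat_lit 6) (.exp (.alt (nat_lit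 4) (.exp (.alt (nat_lit 12) (.exp (.alt (nat_lit 20) (.exp (.alt (nat_lit 22) (.cov (nat_lit 262866120654046887939)) (.alt (nat_lit 22) (.exp (.alt (nat_lit 23) (.exp (.alt (nat_lit 30) (.cov (nat_lit 25295097819870381735937)) (.alt (nat_lit 18) (.cov (nat_lit 731906063)) .e))) .e)) (.alt (nat_lit 22) (.exp (.alt (nat_lit 30) (.cov (nat_lit 25295097819881823797250)) (.alt (nat_lit 23) (.cov (nat_lit 200278083)) .e))) .e)))) .e)) .e)) .e)) (.alt (nat_lit 6) (.cov (nat_lit 25285880066337927069697)) (.alt (nat_lit 6) (.exp (.alt (nat_lit 4) (.exp (.alt (nat_lit 12) (.exp (.alt (nat_lit 28) (.exp (.alt (nat_lit 29) (.exp (.alt (nat_lit 24) (.exp (.alt (nat_lit 20) (.cov (nat_lit 2854633654202701709313)) (.alt (nat_lit 20) (.exp (.alt (nat_lit 22) (.cov (nat_lit 21525044502004968194048)) (.alt (nat_lit 21) (.cov (nat_lit 2976907272)) .e))) .e))) .e)) .e)) .e)) .e)) (.alt (nat_lit 4) (.cov (nat_lit 1817004720090574225411)) (.alt (nat_lit 4) (.exp (.alt (nat_lit 12) (.exp (.alt (nat_lit 20) (.cov (nat_lit 1660206999630706114562))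 (.alt (nat_lit 20) (.cov (nat_lit 3947603379108457742337)) (.alt (nat_lit 20) (.exp (.alt (nat_lit 21) (.cov (nat_lit 66869464860011266051)) (.alt (nat_lit 22) (.exp (.alt (nat_lit 23) (.exp (.alt (nat_lit 30) (.cov (nat_lit 25295097819870381735937)) (.alt (nat_lit 18) (.cov (nat_lit 731906063)) .e))) .e)) (.alt (nat_lit 22) (.exp (.alt (nat_lit 30) (.cov (nat_lit 25295097819881823797250)) (.alt (nat_lit 23) (.cov (nat_lit 200278083)) .e))) .e)))) .e)))) .e)) (.alt (nat_lit 2) (.cov (nat_lit 156382531466)) .e))))) .e))))) .e)) .e)) .e)) .e)) .e)) .e)) .e))) (.alt (nat_lit 7) (.cov (nat_lit 25248999530437727485986)) (.alt (nat_lit 7) (.exp (.alt (nat_lit 3) (.exp (.alt (nat_lit 1) (.exp (.alt (nat_lit 5) (.exp (.alt (nat_lit 9) (.exp (.alt (nat_lit 6) (.cov (nat_lit 344073284053359711485973)) (.alt (nat_lit 6) (.cov (nat_lit 6645445188653378699275)) (.alt (nat_lit 6) (.cov (nat_lit 21522750588697616318466)) (.alt (nat_lit 6) (.cov (nat_lit 5142048250400537051137)) (.alt (nat_lit 6) (.exp (.alt (nat_lit 14) (.cov (nat_lit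 391994674972253487138)) (.alt (nat_lit 2) (.cov (nat_lit 21882453599094346612743)) (.alt (nat_lit 2) (.cov (nat_lit 21587310993559898816515)) (.alt (nat_lit 2) (.exp (.alt (nat_lit 10) (.exp (.alt (nat_lit 18) (.cov (nat_lit 406847552374622008639499)) (.alt (nat_lit 18) (.exp (.alt (nat_lit 26) (.exp (.alt (nat_lit 27) (.exp (.alt (nat_lit 24) (.exp (.alt (nat_lit 22) (.cov (nat_lit 63133981609874626183171)) (.alt (nat_lit 22) (.exp (.alt (nat_lit 23) (.exp (.alt (nat_lit 30) (.cov (nat_lit 6410243574410210443265)) (.alt (nat_lit 30) (.exp (.alt (nat_lit 28) (.cov (nat_lit 21538879560060244066304)) (.alt (nat_lit 14) (.cov (nat_lit 157047324680)) .e))) .e))) .e)) (.alt (nat_lit 16) (.cov (nat_lit 156585951427)) .e)))) .e)) .e)) .e)) (.alt (nat_lit 18) (.cov (nat_lit 347661179511680203227137)) (.alt (nat_lit 18) (.exp (.alt (nat_lit 26) (.exp (.alt (nat_lit 27) (.exp (.alt (nat_lit 31) (.exp (.alt (nat_lit 23) (.exp (.alt (nat_lit 30) (.exp (.alt (nat_lit 24) (.cov (nat_lit 6410243574410774577153)) (.alt (nat_lit 24)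 (.exp (.alt (nat_lit 28) (.cov (nat_lit 6391796832535488495616)) (.alt (nat_lit 8) (.cov (nat_lit 157047324680)) .e))) .e))) .e)) .e)) .e)) .e)) (.alt (nat_lit 16) (.cov (nat_lit 344336148680708938792963)) (.alt (nat_lit 16) (.exp (.alt (nat_lit 24) (.exp (.alt (nat_lit 20) (.cov (nat_lit 1671736214849151041538)) (.alt (nat_lit 20) (.cov (nat_lit 802433510142932680705)) (.alt (nat_lit 20) (.exp (.alt (nat_lit 21) (.cov (nat_lit 1454986956452463116291)) (.alt (nat_lit 28) (.exp (.alt (nat_lit 12) (.exp (.alt (nat_lit 29) (.cov (nat_lit 6417161103437863059457)) (.alt (nat_lit 29) (.exp (.alt (nat_lit 31) (.cov (nat_lit 6398714361563145306112)) (.alt (nat_lit 25) (.cov (nat_lit 9960423432)) .e))) .e))) .e)) (.alt (nat_lit 21) (.cov (nat_lit 10935599721)) .e)))) .e)))) .e)) (.alt (nat_lit 19) (.cov (nat_lit 174712688522)) .e))))) .e))))) .e)) (.alt (nat_lit 2) (.cov (nat_lit 3567265453)) .e)))))) .e)))))) .e)) .e)) .e)) .e)) (.alt (nat_lit 7) (.cov (nat_lit 4293509530499253534723)) (.alt (nat_lit 7) (.exp (.alt (nat_lit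 3) (.exp (.alt (nat_lit 5) (.cov (nat_lit 406817586599176744992993)) (.alt (nat_lit 5) (.cov (nat_lit 638730456448380174357)) (.alt (nat_lit 5) (.cov (nat_lit 47991528862031450996747)) (.alt (nat_lit 6) (.exp (.alt (nat_lit 4) (.exp (.alt (nat_lit 5) (.exp (.alt (nat_lit 20) (.exp (.alt (nat_lit 14) (.cov (nat_lit 350262165214408722087970)) (.alt (nat_lit 2) (.cov (nat_lit 1443461165239211393031)) (.alt (nat_lit 2) (.cov (nat_lit 1738614372264304443395)) (.alt (nat_lit 2) (.exp (.alt (nat_lit 18) (.exp (.alt (nat_lit 10) (.cov (nat_lit 5116665784791818305547)) (.alt (nat_lit 10) (.exp (.alt (nat_lit 8) (.exp (.alt (nat_lit 12) (.exp (.alt (nat_lit 9) (.exp (.alt (nat_lit 26) (.cov (nat_lit 3013736830635220140035)) (.alt (nat_lit 26) (.exp (.alt (nat_lit 24) (.exp (.alt (nat_lit 27) (.cov (nat_lit 6417161103438433484801)) (.alt (nat_lit 27) (.exp (.alt (nat_lit 31) (.cov (nat_lit 6398714361563147403264)) (.alt (nat_lit 25) (.cov (nat_lit 835715080)) .e))) .e))) .e)) (.alt (nat_lit 11) (.cov (nat_lit 632291523)) .e))))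 .e)) .e)) .e)) (.alt (nat_lit 10) (.cov (nat_lit 102301036591667487965185)) (.alt (nat_lit 10) (.exp (.alt (nat_lit 11) (.cov (nat_lit 104576898137616110583815)) (.alt (nat_lit 11) (.cov (nat_lit 1390423763366005702659)) (.alt (nat_lit 11) (.exp (.alt (nat_lit 9) (.exp (.alt (nat_lit 27) (.cov (nat_lit 406847552264679445233666)) (.alt (nat_lit 27) (.cov (nat_lit 735564062875740798977)) (.alt (nat_lit 27) (.exp (.alt (nat_lit 25) (.cov (nat_lit 25302015357714710921219)) (.alt (nat_lit 31) (.exp (.alt (nat_lit 23) (.exp (.alt (nat_lit 30) (.cov (nat_lit 102111951828815376809985)) (.alt (nat_lit 30) (.exp (.alt (nat_lit 28) (.cov (nat_lit 102075058342866945310720)) (.alt (nat_lit 26) (.cov (nat_lit 159240945672)) .e))) .e))) .e)) (.alt (nat_lit 25) (.cov (nat_lit 156494725737)) .e)))) .e)))) .e)) (.alt (nat_lit 11) (.cov (nat_lit 9773780871)) .e))))) .e))))) .e)) (.alt (nat_lit 2) (.cov (nat_lit 11528054446)) .e)))))) .e)) .e)) .e)) (.alt (nat_lit 6) (.cov (nat_lit 344322341341341738336257)) (.alt (nat_lit 5) (.exp (.alt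 (nat_lit 4) (.cov (nat_lit 384296411043201036582950)) (.alt (nat_lit 4) (.cov (nat_lit 41864894442789836685346)) (.alt (nat_lit 4) (.exp (.alt (nat_lit 6) (.exp (.alt (nat_lit 2) (.exp (.alt (nat_lit 10) (.exp (.alt (nat_lit 18) (.exp (.alt (nat_lit 12) (.cov (nat_lit 1727076679982933606411)) (.alt (nat_lit 12) (.exp (.alt (nat_lit 8) (.exp (.alt (nat_lit 9) (.exp (.alt (nat_lit 24) (.exp (.alt (nat_lit 28) (.cov (nat_lit 1616395967051006476291)) (.alt (nat_lit 28) (.exp (.alt (nat_lit 20) (.exp (.alt (nat_lit 30) (.cov (nat_lit 25306627034916411408385)) (.alt (nat_lit 30) (.exp (.alt (nat_lit 31) (.cov (nat_lit 25288180293041726160896)) (.alt (nat_lit 26) (.cov (nat_lit 1370488840)) .e))) .e))) .e)) (.alt (nat_lit 13) (.cov (nat_lit 835715267)) .e)))) .e)) .e)) .e)) (.alt (nat_lit 12) (.cov (nat_lit 64569231558502776833)) (.alt (nat_lit 12) (.exp (.alt (nat_lit 13) (.cov (nat_lit 657165398519764221959)) (.alt (nat_lit 13) (.cov (nat_lit 1837757307199264129027)) (.alt (nat_lit 8) (.cov (nat_lit 1383509246999620747264))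 (.alt (nat_lit 14) (.cov (nat_lit 3588228104)) .e))))) .e))))) .e)) .e)) .e)) .e)) (.alt (nat_lit 4) (.cov (nat_lit 10196459559272388231171)) (.alt (nat_lit 4) (.exp (.alt (nat_lit 6) (.exp (.alt (nat_lit 12) (.cov (nat_lit 45411274127992602755093)) (.alt (nat_lit 12) (.cov (nat_lit 7618513517995842600971)) (.alt (nat_lit 12) (.cov (nat_lit 138362521249107673090)) (.alt (nat_lit 12) (.cov (nat_lit 365531475519251440205825)) (.alt (nat_lit 12) (.exp (.alt (nat_lit 14) (.cov (nat_lit 21568855936994727952418)) (.alt (nat_lit 13) (.cov (nat_lit 657168699110494044167)) (.alt (nat_lit 13) (.cov (nat_lit 66878179588587913219)) (.alt (nat_lit 13) (.exp (.alt (nat_lit 9) (.exp (.alt (nat_lit 29) (.cov (nat_lit 795515983314449072139)) (.alt (nat_lit 29) (.exp (.alt (nat_lit 31) (.exp (.alt (nat_lit 23) (.exp (.alt (nat_lit 27) (.exp (.alt (nat_lit 28) (.cov (nat_lit 26544864739660318900227)) (.alt (nat_lit 28) (.exp (.alt (nat_lit 20) (.exp (.alt (nat_lit 30) (.cov (nat_lit 25295097819870934335489)) (.alt (nat_lit 30) (.exp (.alt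 (nat_lit 26) (.cov (nat_lit 25276651077995639865344)) (.alt (nat_lit 14) (.cov (nat_lit 19606274056)) .e))) .e))) .e)) (.alt (nat_lit 25) (.cov (nat_lit 185044304067)) .e)))) .e)) .e)) .e)) (.alt (nat_lit 29) (.cov (nat_lit 82108769351187087491073)) (.alt (nat_lit 29) (.exp (.alt (nat_lit 31) (.exp (.alt (nat_lit 23) (.exp (.alt (nat_lit 22) (.exp (.alt (nat_lit 20) (.exp (.alt (nat_lit 30) (.exp (.alt (nat_lit 27) (.cov (nat_lit 25295097819870327209985)) (.alt (nat_lit 27) (.exp (.alt (nat_lit 26) (.cov (nat_lit 2637884413535592644608)) (.alt (nat_lit 11) (.cov (nat_lit 19606274056)) .e))) .e))) .e)) .e)) .e)) .e)) (.alt (nat_lit 25) (.cov (nat_lit 406916727950769837309955)) (.alt (nat_lit 25) (.exp (.alt (nat_lit 27) (.exp (.alt (nat_lit 24) (.cov (nat_lit 1586420023345033510914)) (.alt (nat_lit 24) (.cov (nat_lit 1586420135474598248449)) (.alt (nat_lit 24) (.exp (.alt (nat_lit 16) (.cov (nat_lit 1817004308872124432387)) (.alt (nat_lit 26) (.exp (.alt (nat_lit 10) (.exp (.alt (nat_lit 18) (.cov (nat_lit 25285874447834084802561))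 (.alt (nat_lit 18) (.exp (.alt (nat_lit 22) (.cov (nat_lit 2628661041498751500288)) (.alt (nat_lit 19) (.cov (nat_lit 292552712)) .e))) .e))) .e)) (.alt (nat_lit 16) (.cov (nat_lit 157053616745)) .e)))) .e)))) .e)) (.alt (nat_lit 21) (.cov (nat_lit 1768951690)) .e))))) .e))))) .e)) (.alt (nat_lit 13) (.exp (.alt (nat_lit 9) (.cov (nat_lit 81921990578679407706132)) (.alt (nat_lit 29) (.cov (nat_lit 57657098933944451074)) (.alt (nat_lit 9) (.cov (nat_lit 1871715183)) .e)))) .e)))))) .e)))))) .e)) (.alt (nat_lit 4) (.cov (nat_lit 28796007685)) .e))))))) .e))))))) .e)) (.alt (nat_lit 7) (.exp (.alt (nat_lit 3) (.cov (nat_lit 6389496636618832871656)) (.alt (nat_lit 3) (.cov (nat_lit 10207976288264251244562)) (.alt (nat_lit 6) (.cov (nat_lit 32300529057443872770)) (.alt (nat_lit 3) (.cov (nat_lit 2110768)) .e))))) .e)))))))) .e)))))))) .e)) .e)]),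
   ([4, 18, 1], [.cov (nat_lit 76059036013732995742202802995206), .cov (nat_lit 76059036013732995742202802995206), .cov (nat_lit 76059036013732995742202802995206), .cov (nat_lit 76059036013732995742202802995206), .cov (nat_lit 76059036013732995742202802995206), .cov (nat_lit 76059036013732995742202802995206), .cov (nat_lit 76059036013732995742202802995206), .cov (nat_lit 76059036013732994348021891203079), .cov (nat_lit 76059036013732995645445611978759), .cov (nat_lit 76059036013732995647644635234311), .cov (nat_lit 76059036013732996041269797978119), .cov (nat_lit 76059036013732996043468821233671), .rot (.rot (.exp (.alt (nat_lit 15) (.exp (.alt (nat_lit 0) (.exp (.alt (nat_lit 1) (.exp (.alt (nat_lit 3) (.exp (.alt (nat_lit 5) (.exp (.alt (nat_lit 17) (.exp (.alt (nat_lit 16) (.cov (nat_lit 230048167899730124733050579970949123)) (.alt (nat_lit 16) (.cov (nat_lit 230048167894900324412697849351897090)) (.alt (nat_lit 16) (.cov (nat_lit 22356293553501320925078019737911297)) (.alt (nat_lit 16) (.cov (nat_lit 224531352487536874989486717720854528))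 (.alt (nat_lit 16) (.cov (nat_lit 42116230453383581925473)) .e)))))) (.alt (nat_lit 17) (.cov (nat_lit 57651823477859025121)) (.alt (nat_lit 17) (.cov (nat_lit 10145720426971576402014)) (.alt (nat_lit 17) (.cov (nat_lit 795527778875024080932)) (.alt (nat_lit 17) (.cov (nat_lit 406919053734520650989584)) (.alt (nat_lit 17) (.cov (nat_lit 57655201177042681874)) (.alt (nat_lit 17) (.cov (nat_lit 57658284207646965771)) (.alt (nat_lit 17) (.cov (nat_lit 47998451739083649581062)) (.alt (nat_lit 17) (.cov (nat_lit 712531658223792422915)) (.alt (nat_lit 17) (.cov (nat_lit 36917732378833584130)) (.alt (nat_lit 17) (.cov (nat_lit 36923247529156411393)) (.alt (nat_lit 17) (.cov (nat_lit 5356503826249145122816)) (.alt (nat_lit 17) (.exp (.alt (nat_lit 16) (.exp (.alt (nat_lit 18) (.cov (nat_lit 765011931866854828630659583860277250)) (.alt (nat_lit 18) (.cov (nat_lit 14075998788298041866700847941943297)) (.alt (nat_lit 18) (.cov (nat_lit 58859559106118852222978992218570752)) (.alt (nat_lit 18) (.cov (nat_lit 26766228577852535603294))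 .e))))) (.alt (nat_lit 16) (.cov (nat_lit 55343680474599915558)) (.alt (nat_lit 16) (.cov (nat_lit 347799530140611496640609)) (.alt (nat_lit 16) (.cov (nat_lit 189087894261532196898)) (.alt (nat_lit 16) (.cov (nat_lit 41506300065778499619)) (.alt (nat_lit 16) (.cov (nat_lit 25438074951838826758159)) (.alt (nat_lit 16) (.cov (nat_lit 793228431780539793415)) (.alt (nat_lit 16) (.cov (nat_lit 61801224519979100012550)) (.alt (nat_lit 16) (.cov (nat_lit 115313925188982145027)) (.alt (nat_lit 16) (.cov (nat_lit 1886201356265099100162)) (.alt (nat_lit 16) (.cov (nat_lit 1890817435931988983809)) (.alt (nat_lit 16) (.cov (nat_lit 46147167122800771072)) (.alt (nat_lit 16) (.cov (nat_lit 18888396)) .e)))))))))))))) .e)))))))))))))) .e)) .e)) .e)) .e)) .e))), .rot (.rot (.exp (.alt (nat_lit 15) (.exp (.alt (nat_lit 0) (.exp (.alt (nat_lit 1) (.exp (.alt (nat_lit 3) (.exp (.alt (nat_lit 5) (.exp (.alt (nat_lit 17) (.cov (nat_lit 350163014642295670571233)) (.alt (nat_lit 17) (.cov (nat_lit 406898292720792763367442)) (.alt (nat_lit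 17) (.cov (nat_lit 348901738441601702690827)) (.alt (nat_lit 17) (.exp (.alt (nat_lit 19) (.exp (.alt (nat_lit 23) (.exp (.alt (nat_lit 27) (.exp (.alt (nat_lit 16) (.cov (nat_lit 21970072620755771719714)) (.alt (nat_lit 21) (.cov (nat_lit 104623018298709337178119)) (.alt (nat_lit 21) (.cov (nat_lit 1690191669070827356163)) (.alt (nat_lit 21) (.exp (.alt (nat_lit 29) (.exp (.alt (nat_lit 20) (.cov (nat_lit 3919933262998605398027)) (.alt (nat_lit 20) (.exp (.alt (nat_lit 22) (.exp (.alt (nat_lit 18) (.exp (.alt (nat_lit 6) (.exp (.alt (nat_lit 28) (.cov (nat_lit 1355835707010567897091)) (.alt (nat_lit 28) (.exp (.alt (nat_lit 30) (.exp (.alt (nat_lit 12) (.cov (nat_lit 102065834968631660773377)) (.alt (nat_lit 12) (.exp (.alt (nat_lit 8) (.cov (nat_lit 343868062132024092131328)) (.alt (nat_lit 14) (.cov (nat_lit 13197377544)) .e))) .e))) .e)) (.alt (nat_lit 4) (.cov (nat_lit 21789409475)) .e)))) .e)) .e)) .e)) (.alt (nat_lit 20) (.cov (nat_lit 21582696211132910141441)) (.alt (nat_lit 20) (.exp (.alt (nat_lit 4) (.cov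 (nat_lit 347771854476524465946631)) (.alt (nat_lit 4) (.cov (nat_lit 47915418160290737422339)) (.alt (nat_lit 4) (.exp (.alt (nat_lit 6) (.exp (.alt (nat_lit 12) (.cov (nat_lit 25447283482667683676162)) (.alt (nat_lit 12) (.cov (nat_lit 405551668603441066803201)) (.alt (nat_lit 12) (.exp (.alt (nat_lit 14) (.cov (nat_lit 29021340131557044649987)) (.alt (nat_lit 8) (.exp (.alt (nat_lit 9) (.exp (.alt (nat_lit 24) (.cov (nat_lit 365379271562779672182785)) (.alt (nat_lit 24) (.exp (.alt (nat_lit 26) (.cov (nat_lit 345216980292414124064768)) (.alt (nat_lit 28) (.cov (nat_lit 158173495304)) .e))) .e))) .e)) (.alt (nat_lit 14) (.cov (nat_lit 2896167529)) .e)))) .e)))) .e)) (.alt (nat_lit 4) (.cov (nat_lit 46412074887)) .e))))) .e))))) .e)) (.alt (nat_lit 21) (.cov (nat_lit 768616110)) .e)))))) .e)) .e)) .e)) (.alt (nat_lit 17) (.cov (nat_lit 6456388573296069705729)) (.alt (nat_lit 17) (.exp (.alt (nat_lit 16) (.exp (.alt (nat_lit 18) (.exp (.alt (nat_lit 2) (.exp (.alt (nat_lit 6) (.exp (.alt (nat_lit 10) (.exp (.alt (nat_lit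 19) (.exp (.alt (nat_lit 23) (.exp (.alt (nat_lit 27) (.exp (.alt (nat_lit 24) (.cov (nat_lit 104574592186856301920258)) (.alt (nat_lit 20) (.cov (nat_lit 104620709156990002135041)) (.alt (nat_lit 20) (.exp (.alt (nat_lit 28) (.cov (nat_lit 350146872652710071500803)) (.alt (nat_lit 28) (.cov (nat_lit 104583815668832845955072)) (.alt (nat_lit 4) (.cov (nat_lit 10347348163)) .e)))) .e)))) .e)) .e)) .e)) .e)) .e)) .e)) (.alt (nat_lit 18) (.cov (nat_lit 21518130403465735700501)) .e))) (.alt (nat_lit 16) (.cov (nat_lit 189087894261532196898)) (.alt (nat_lit 16) (.exp (.alt (nat_lit 18) (.exp (.alt (nat_lit 2) (.exp (.alt (nat_lit 6) (.exp (.alt (nat_lit 10) (.exp (.alt (nat_lit 20) (.cov (nat_lit 347880229223142669680651)) (.alt (nat_lit 20) (.exp (.alt (nat_lit 21) (.exp (.alt (nat_lit 23) (.exp (.alt (nat_lit 29) (.exp (.alt (nat_lit 28) (.cov (nat_lit 129127226108333260803)) (.alt (nat_lit 28) (.exp (.alt (nat_lit 12) (.exp (.alt (nat_lit 24) (.cov (nat_lit 428886808509848485889)) (.alt (nat_lit 30) (.cov (nat_lit 4624220175))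 .e))) .e)) (.alt (nat_lit 28) (.exp (.alt (nat_lit 24) (.cov (nat_lit 428886808510016258050)) (.alt (nat_lit 12) (.cov (nat_lit 18933088323)) .e))) .e)))) .e)) .e)) .e)) (.alt (nat_lit 20) (.cov (nat_lit 6705397098093956038657)) (.alt (nat_lit 20) (.exp (.alt (nat_lit 21) (.cov (nat_lit 104623014997791085690887)) (.alt (nat_lit 21) (.cov (nat_lit 350186072395086931427331)) (.alt (nat_lit 21) (.exp (.alt (nat_lit 23) (.exp (.alt (nat_lit 29) (.cov (nat_lit 57646108215872585730)) (.alt (nat_lit 29) (.cov (nat_lit 795515981115249655809)) (.alt (nat_lit 29) (.exp (.alt (nat_lit 13) (.cov (nat_lit 3864592901218191278083)) (.alt (nat_lit 25) (.exp (.alt (nat_lit 9) (.exp (.alt (nat_lit 24) (.cov (nat_lit 428886808666233110529)) (.alt (nat_lit 27) (.cov (nat_lit 185012846607)) .e))) .e)) (.alt (nat_lit 25) (.exp (.alt (nat_lit 24) (.cov (nat_lit 428886808510016258050)) (.alt (nat_lit 9) (.cov (nat_lit 1753219139)) .e))) .e)))) .e)))) .e)) (.alt (nat_lit 4) (.cov (nat_lit 1790971783)) .e))))) .e))))) .e)) .e)) .e)) .e)) (.alt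 (nat_lit 16) (.cov (nat_lit 115313925188982145027)) (.alt (nat_lit 16) (.exp (.alt (nat_lit 18) (.exp (.alt (nat_lit 20) (.cov (nat_lit 2630968778025143894037)) (.alt (nat_lit 20) (.cov (nat_lit 45591133642860038979595)) (.alt (nat_lit 20) (.cov (nat_lit 22053094480862475452418)) (.alt (nat_lit 20) (.cov (nat_lit 654877732480430899201)) (.alt (nat_lit 20) (.exp (.alt (nat_lit 28) (.exp (.alt (nat_lit 24) (.cov (nat_lit 152118260621422560643575638392833)) (.alt (nat_lit 24) (.cov (nat_lit 24121425076182547693579)) .e))) (.alt (nat_lit 4) (.cov (nat_lit 350146876076746289971207)) (.alt (nat_lit 4) (.cov (nat_lit 3938388600855711449091)) (.alt (nat_lit 4) (.exp (.alt (nat_lit 6) (.exp (.alt (nat_lit 12) (.cov (nat_lit 10127262637206947233803)) (.alt (nat_lit 12) (.exp (.alt (nat_lit 8) (.exp (.alt (nat_lit 9) (.exp (.alt (nat_lit 24) (.exp (.alt (nat_lit 14) (.cov (nat_lit 659471118273718779907)) (.alt (nat_lit 14) (.exp (.alt (nat_lit 10) (.exp (.alt (nat_lit 30) (.cov (nat_lit 1621007644273342939137)) (.alt (nat_lit 30)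 (.exp (.alt (nat_lit 31) (.cov (nat_lit 1611784274435512467456)) (.alt (nat_lit 22) (.cov (nat_lit 124780552)) .e))) .e))) .e)) (.alt (nat_lit 14) (.cov (nat_lit 165675625)) .e)))) .e)) .e)) .e)) (.alt (nat_lit 12) (.cov (nat_lit 2836192561618711740417)) (.alt (nat_lit 12) (.exp (.alt (nat_lit 13) (.cov (nat_lit 10129568480214081601543)) (.alt (nat_lit 13) (.cov (nat_lit 140656852371579600899)) (.alt (nat_lit 13) (.exp (.alt (nat_lit 9) (.exp (.alt (nat_lit 29) (.cov (nat_lit 10166461860611443654658)) (.alt (nat_lit 29) (.cov (nat_lit 6638522166462762713089)) (.alt (nat_lit 29) (.exp (.alt (nat_lit 25) (.cov (nat_lit 406842940563257650315267)) (.alt (nat_lit 31) (.exp (.alt (nat_lit 23) (.exp (.alt (nat_lit 27) (.cov (nat_lit 1609478429227262935041)) (.alt (nat_lit 27) (.exp (.alt (nat_lit 26) (.cov (nat_lit 202914195805931831296)) (.alt (nat_lit 11) (.cov (nat_lit 1755316232)) .e))) .e))) .e)) (.alt (nat_lit 25) (.cov (nat_lit 10463740521)) .e)))) .e)))) .e)) (.alt (nat_lit 13) (.cov (nat_lit 646975367)) .e))))) .e)))))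 .e)) (.alt (nat_lit 4) (.cov (nat_lit 13199481811)) .e)))))) .e)))))) .e)) (.alt (nat_lit 16) (.cov (nat_lit 18887950)) .e))))))) .e))))))) .e)) .e)) .e)) .e)) .e)))]),
   ([4, 15, 4], [.cov (nat_lit 887355449174019480836554396532742), .cov (nat_lit 76059069871403574496295334707206), .cov (nat_lit 887355449174019480836554396532742), .cov (nat_lit 76059069871403574496295334707206), .cov (nat_lit 887355449174019480836554396532742), .cov (nat_lit 76059069871403574496295334707206), .cov (nat_lit 887355449174019480836554396532742), .cov (nat_lit 76059069871403574496295334707206), .cov (nat_lit 887355449174019480836554396532742), .cov (nat_lit 76059069871403574496295334707206), .cov (nat_lit 887355449174019480836554396532742), .cov (nat_lit 76059069871403574496295334707206), .cov (nat_lit 887355449180586521583858317524999), .cov (nat_lit 76059069885127944700615957938183), .cov (nat_lit 887355449180586521583858317524999), .cov (nat_lit 76059069863655940822053853069319), .cov (nat_lit 887355449180586521583858317524999), .cov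 (nat_lit 76059069863655942392156457533447), .cov (nat_lit 887355449180586521583858317524999), .cov (nat_lit 76059069863655942944111294676999), .cov (nat_lit 887355449180586521583858317524999), .cov (nat_lit 238318346694197471346046439260167), .cov (nat_lit 887355449180586521583858317524999), .exp (.alt (nat_lit 0) (.exp (.alt (nat_lit 1) (.exp (.alt (nat_lit 3) (.exp (.alt (nat_lit 5) (.rot (.exp (.alt (nat_lit 15) (.exp (.alt (nat_lit 7) (.exp (.alt (nat_lit 6) (.exp (.alt (nat_lit 23) (.exp (.alt (nat_lit 17) (.cov (nat_lit 6394104568906658086933)) (.alt (nat_lit 17) (.cov (nat_lit 5139729703647140904971)) (.alt (nat_lit 17) (.cov (nat_lit 795527778875723481090)) (.alt (nat_lit 17) (.cov (nat_lit 3968374158710768926721)) (.alt (nat_lit 17) (.exp (.alt (nat_lit 16) (.cov (nat_lit 6686946090118753026082)) (.alt (nat_lit 21) (.cov (nat_lit 350186075407757445431303)) (.alt (nat_lit 21) (.cov (nat_lit 63154742920482801057795)) (.alt (nat_lit 21) (.exp (.alt (nat_lit 20) (.exp (.alt (nat_lit 29) (.cov (nat_lit 406925951036945578590219))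 (.alt (nat_lit 29) (.exp (.alt (nat_lit 28) (.exp (.alt (nat_lit 12) (.exp (.alt (nat_lit 30) (.exp (.alt (nat_lit 25) (.cov (nat_lit 6407937740197084528643)) (.alt (nat_lit 25) (.exp (.alt (nat_lit 9) (.exp (.alt (nat_lit 24) (.cov (nat_lit 102107340142796938936321)) (.alt (nat_lit 24) (.exp (.alt (nat_lit 26) (.cov (nat_lit 102070446656848511631360)) (.alt (nat_lit 16) (.cov (nat_lit 10521411592)) .e))) .e))) .e)) (.alt (nat_lit 31) (.cov (nat_lit 330301635)) .e)))) .e)) .e)) .e)) (.alt (nat_lit 29) (.cov (nat_lit 347889457969592361025537)) (.alt (nat_lit 29) (.exp (.alt (nat_lit 28) (.exp (.alt (nat_lit 12) (.exp (.alt (nat_lit 8) (.exp (.alt (nat_lit 9) (.exp (.alt (nat_lit 24) (.exp (.alt (nat_lit 30) (.cov (nat_lit 102107340142797515653121)) (.alt (nat_lit 30) (.exp (.alt (nat_lit 26) (.cov (nat_lit 343909567306189947011072)) (.alt (nat_lit 22) (.cov (nat_lit 10521411592)) .e))) .e))) .e)) .e)) .e)) .e)) (.alt (nat_lit 31) (.cov (nat_lit 726340976895724617731)) (.alt (nat_lit 31) (.exp (.alt (nat_lit 30) (.exp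 (.alt (nat_lit 27) (.cov (nat_lit 25364306098202345474)) (.alt (nat_lit 27) (.cov (nat_lit 1757052515957391491073)) (.alt (nat_lit 27) (.exp (.alt (nat_lit 11) (.cov (nat_lit 104576898014480387014659)) (.alt (nat_lit 26) (.exp (.alt (nat_lit 18) (.exp (.alt (nat_lit 10) (.cov (nat_lit 102065834968631090348033)) (.alt (nat_lit 10) (.exp (.alt (nat_lit 8) (.cov (nat_lit 343868062132024094228480)) (.alt (nat_lit 14) (.cov (nat_lit 159228362760)) .e))) .e))) .e)) (.alt (nat_lit 11) (.cov (nat_lit 28766634601)) .e)))) .e)))) .e)) (.alt (nat_lit 13) (.cov (nat_lit 9776926602)) .e))))) .e))))) .e)) (.alt (nat_lit 21) (.cov (nat_lit 255862445)) .e)))))) .e)))))) .e)) .e)) .e)) .e))) .e)) .e)) .e)) .e)]),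
   ([4, 11, 8], [.cov (nat_lit 55893251338789257799855197948739590), .cov (nat_lit 58651660171604748858346414949793798), .cov (nat_lit 891853045567732799559430581660942342), .cov (nat_lit 55893251338789257799855197948739590), .cov (nat_lit 58651660171604748858346414949793798), .cov (nat_lit 891853045568138996866356989615144966), .cov (nat_lit 55893251338789257799855197948739590), .cov (nat_lit 58651660171604748858346414949793798), .cov (nat_lit 891853045567732209266058939745697798), .cov (nat_lit 55893251338789257799855197948739590), .cov (nat_lit 58651660171604748858346414949793798), .cov (nat_lit 891853045567732209271758808024088582), .cov (nat_lit 55893251338789257799855197780967431), .cov (nat_lit 58651660171604748858346414782021639), .cov (nat_lit 891853045567732799559430581493170183), .cov (nat_lit 55893251338789257799855197780967431), .cov (nat_lit 58651660171604748858346414782021639), .cov (nat_lit 891853045568138996866356989447372807), .cov (nat_lit 55893251338789257799855197780967431), .cov (nat_lit 58651660171604748858346414782021639),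 .cov (nat_lit 227239047675274272819857476739399687), .cov (nat_lit 55893251338789257799855197780967431), .cov (nat_lit 58651660171604748858346414782021639), .exp (.alt (nat_lit 0) (.exp (.alt (nat_lit 1) (.exp (.alt (nat_lit 3) (.exp (.alt (nat_lit 5) (.rot (.exp (.alt (nat_lit 15) (.cov (nat_lit 11768900707130684500518516865105922)) (.alt (nat_lit 15) (.cov (nat_lit 86226498684715928226215240925185)) (.alt (nat_lit 15) (.cov (nat_lit 86226498684427697865456691970048)) (.alt (nat_lit 15) (.cov (nat_lit 61798913309153963278430)) .e)))))) .e)) .e)) .e)) .e)]),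
   ([4, 8, 11], [.cov (nat_lit 76102982888079073960694602792966), .cov (nat_lit 76098998291008864936565586001926), .cov (nat_lit 76092610326978021236006438567942), .cov (nat_lit 1698665595756999481359971649585158), .cov (nat_lit 76098843549758333373415891664902), .cov (nat_lit 76098843549758333373415891664902), .cov (nat_lit 76098843549758333373415891664902), .cov (nat_lit 76098843549758333373415891664902), .cov (nat_lit 22305588399944821757111604629995526), .cov (nat_lit 55893264032537000840453654864461830), .cov (nat_lit 76099003127966521994293557592070), .cov (nat_lit 229997487553312559203049160887500806), .cov (nat_lit 224480676353034495472435820354338823), .cov (nat_lit 224480676353034495472435820354338823), .cov (nat_lit 224480676353034495472435820354338823), .cov (nat_lit 224480676353034495472435820354338823), .cov (nat_lit 55893258703591987979678425987153927), .cov (nat_lit 1374147017921310741393616635166727), .cov (nat_lit 4294820306604226392347796087767047), .cov (nat_lit 76085380951831104862926195916807),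 .cov (nat_lit 22305588399944821757111604462223367), .cov (nat_lit 55893264032537000840453654696689671), .cov (nat_lit 2996739820044477858077361653678087), .exp (.alt (nat_lit 0) (.exp (.alt (nat_lit 1) (.exp (.alt (nat_lit 3) (.exp (.alt (nat_lit 5) (.exp (.alt (nat_lit 17) (.cov (nat_lit 76092615137685960999657526001666)) (.alt (nat_lit 17) (.cov (nat_lit 803421764889831361883602494692524033)) (.alt (nat_lit 17) (.cov (nat_lit 92401613833883833313560198272516096)) (.alt (nat_lit 17) (.cov (nat_lit 1584126096822540173406)) .e))))) .e)) .e)) .e)) .e)]),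
   ([4, 4, 15], [.cov (nat_lit 22305643149751072300399518275338246), .cov (nat_lit 22305643149751072300399518275338246), .cov (nat_lit 22305643149751072300399518275338246), .cov (nat_lit 22305643149751072300399518275338246), .cov (nat_lit 22305643149751072300399518275338246), .cov (nat_lit 22305643149751072300399518275338246), .cov (nat_lit 1536455715611392851398257790681094), .cov (nat_lit 1536455715611392851398257790681094), .cov (nat_lit 1536455715611392851398257790681094), .cov (nat_lit 1536455715611392851398257790681094), .cov (nat_lit 1536455715611392851398257790681094), .cov (nat_lit 1536455715611392851398257790681094), .cov (nat_lit 1536455715640391133079931759624199), .cov (nat_lit 1536455715640391133079931759624199), .cov (nat_lit 1536455715640391133079931759624199), .cov (nat_lit 1536455715640391133079931759624199), .cov (nat_lit 1536455715640391133079931759624199), .cov (nat_lit 1536455715640391133079931759624199), .cov (nat_lit 1536433703490069308230244572856327), .cov (nat_lit 63844016813939208057593555566198791),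 .cov (nat_lit 63844021485228575048520686630862855), .cov (nat_lit 76125701019129792547561985277959), .cov (nat_lit 76127084030267431683337849143303), .exp (.alt (nat_lit 0) (.exp (.alt (nat_lit 1) (.exp (.alt (nat_lit 3) (.exp (.alt (nat_lit 5) (.exp (.alt (nat_lit 17) (.exp (.alt (nat_lit 16) (.exp (.alt (nat_lit 18) (.exp (.alt (nat_lit 20) (.exp (.alt (nat_lit 15) (.cov (nat_lit 22018496799382711566354)) (.alt (nat_lit 15) (.cov (nat_lit 29023649398491169423371)) (.alt (nat_lit 15) (.cov (nat_lit 10134191968435898941442)) (.alt (nat_lit 15) (.cov (nat_lit 6518636498313769123841)) (.alt (nat_lit 15) (.exp (.alt (nat_lit 11) (.exp (.alt (nat_lit 10) (.cov (nat_lit 3057574190737896043520166115409921)) (.alt (nat_lit 9) (.cov (nat_lit 1390423763366138871819)) .e))) (.alt (nat_lit 11) (.exp (.alt (nat_lit 9) (.exp (.alt (nat_lit 13) (.exp (.alt (nat_lit 12) (.exp (.alt (nat_lit 29) (.exp (.alt (nat_lit 10) (.cov (nat_lit 365351601470858328014850)) (.alt (nat_lit 10) (.cov (nat_lit 24234410174170542374913)) (.alt (nat_lit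 10) (.exp (.alt (nat_lit 14) (.cov (nat_lit 1397340881222096650243)) (.alt (nat_lit 26) (.exp (.alt (nat_lit 24) (.exp (.alt (nat_lit 30) (.cov (nat_lit 102098116770760670314497)) (.alt (nat_lit 27) (.cov (nat_lit 3555721231)) .e))) .e)) (.alt (nat_lit 14) (.exp (.alt (nat_lit 30) (.cov (nat_lit 102098116770760061091842)) (.alt (nat_lit 6) (.cov (nat_lit 10391388227)) .e))) .e)))) .e)))) .e)) .e)) .e)) .e)) (.alt (nat_lit 11) (.cov (nat_lit 4268119104413626269699)) (.alt (nat_lit 11) (.exp (.alt (nat_lit 9) (.exp (.alt (nat_lit 10) (.cov (nat_lit 365351601580809658564619)) (.alt (nat_lit 10) (.exp (.alt (nat_lit 8) (.exp (.alt (nat_lit 24) (.exp (.alt (nat_lit 12) (.exp (.alt (nat_lit 14) (.cov (nat_lit 69175307915008933891)) (.alt (nat_lit 14) (.exp (.alt (nat_lit 6) (.exp (.alt (nat_lit 30) (.cov (nat_lit 1621007644273342939137)) (.alt (nat_lit 30) (.exp (.alt (nat_lit 31) (.cov (nat_lit 214443410852013932544)) (.alt (nat_lit 22) (.cov (nat_lit 124780552)) .e))) .e))) .e)) (.alt (nat_lit 14) (.cov (nat_lit 2447377001))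 .e)))) .e)) .e)) .e)) (.alt (nat_lit 10) (.cov (nat_lit 3869205675569303257089)) (.alt (nat_lit 10) (.exp (.alt (nat_lit 14) (.exp (.alt (nat_lit 12) (.exp (.alt (nat_lit 28) (.exp (.alt (nat_lit 24) (.exp (.alt (nat_lit 29) (.exp (.alt (nat_lit 30) (.cov (nat_lit 102098116770760061091841)) (.alt (nat_lit 6) (.cov (nat_lit 224395279)) .e))) .e)) .e)) .e)) .e)) (.alt (nat_lit 14) (.cov (nat_lit 69175719097427558403)) (.alt (nat_lit 14) (.exp (.alt (nat_lit 6) (.exp (.alt (nat_lit 30) (.exp (.alt (nat_lit 28) (.exp (.alt (nat_lit 12) (.exp (.alt (nat_lit 24) (.exp (.alt (nat_lit 31) (.cov (nat_lit 1611784274435512467456)) (.alt (nat_lit 26) (.cov (nat_lit 1370488840)) .e))) .e)) .e)) .e)) (.alt (nat_lit 12) (.cov (nat_lit 64563749549890338817)) (.alt (nat_lit 12) (.exp (.alt (nat_lit 28) (.cov (nat_lit 25302015357694108499971)) (.alt (nat_lit 28) (.exp (.alt (nat_lit 24) (.exp (.alt (nat_lit 30) (.cov (nat_lit 25306627034916411408385)) (.alt (nat_lit 30) (.exp (.alt (nat_lit 31) (.cov (nat_lit 1611784274435512467456))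 (.alt (nat_lit 26) (.cov (nat_lit 1370488840)) .e))) .e))) .e)) (.alt (nat_lit 13) (.cov (nat_lit 63963331)) .e)))) .e)))) .e)) (.alt (nat_lit 8) (.cov (nat_lit 10548678547)) .e))))) .e))))) .e)) (.alt (nat_lit 11) (.cov (nat_lit 159226272723)) .e)))))) .e)))))) .e)) .e)) .e)) .e)) .e)) .e)) .e)) .e)]),
   ([4, 1, 18], [.cov (nat_lit 76130091837706632865344542212102), .cov (nat_lit 76130091837706632865344542212102), .cov (nat_lit 76130091837706632865344542212102), .cov (nat_lit 76130091837706632865344542212102), .cov (nat_lit 76130091837706632865344542212102), .cov (nat_lit 76130091837706632865344542212102), .cov (nat_lit 76130091837706632865344542212102), .cov (nat_lit 76124883785275733042848465944583), .cov (nat_lit 76130991278516426149439081545735), .cov (nat_lit 76130759164759060140637537959943), .cov (nat_lit 76130764000462338599154236784647), .cov (nat_lit 76131136349614779904940046286855), .rot (.exp (.alt (nat_lit 17) (.rot (.exp (.alt (nat_lit 0) (.exp (.alt (nat_lit 1) (.exp (.alt (nat_lit 3) (.exp (.alt (nat_lit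 5) (.exp (.alt (nat_lit 15) (.cov (nat_lit 47959229854754701050311)) (.alt (nat_lit 15) (.cov (nat_lit 406877533827083967398113)) (.alt (nat_lit 15) (.cov (nat_lit 2967628707169951547486)) (.alt (nat_lit 15) (.cov (nat_lit 1639469242761178251300)) (.alt (nat_lit 15) (.cov (nat_lit 237521990606274953232)) (.alt (nat_lit 15) (.cov (nat_lit 327441648005426446354)) (.alt (nat_lit 15) (.cov (nat_lit 406877543669912059248651)) (.alt (nat_lit 15) (.cov (nat_lit 63251601360482313699334)) (.alt (nat_lit 15) (.cov (nat_lit 25408110269329180721155)) (.alt (nat_lit 15) (.cov (nat_lit 46649534157220421304322)) (.alt (nat_lit 15) (.cov (nat_lit 5116693820283601027073)) (.alt (nat_lit 15) (.cov (nat_lit 1648708260836446044160)) (.alt (nat_lit 15) (.exp (.alt (nat_lit 11) (.exp (.alt (nat_lit 27) (.cov (nat_lit 56030160722642525780718649420546050)) (.alt (nat_lit 9) (.cov (nat_lit 230220564996716013675740715526651905)) (.alt (nat_lit 9) (.cov (nat_lit 756265142710818420984182919255818240)) (.alt (nat_lit 9) (.exp (.alt (nat_lit 13)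 (.cov (nat_lit 50712422009913566435913472409603)) (.alt (nat_lit 13) (.cov (nat_lit 14415726813539874288872907898617857)) (.alt (nat_lit 13) (.cov (nat_lit 14415726813516114882523552417841152)) (.alt (nat_lit 13) (.exp (.alt (nat_lit 29) (.cov (nat_lit 889556068013902202993391532847923201)) (.alt (nat_lit 29) (.cov (nat_lit 29095130056742133563403)) .e))) .e))))) .e))))) (.alt (nat_lit 11) (.cov (nat_lit 357411416894682955814)) (.alt (nat_lit 7) (.exp (.alt (nat_lit 23) (.cov (nat_lit 22259956934319540551132626415517698)) (.alt (nat_lit 23) (.cov (nat_lit 889373527488035890427752873597075457)) (.alt (nat_lit 23) (.cov (nat_lit 92355959698130073068669764207902720)) (.alt (nat_lit 23) (.cov (nat_lit 41998628011474634670116)) .e))))) (.alt (nat_lit 7) (.exp (.alt (nat_lit 23) (.cov (nat_lit 16743148349741375298555263023316993)) (.alt (nat_lit 23) (.cov (nat_lit 344082514253219265249291)) .e))) (.alt (nat_lit 7) (.cov (nat_lit 26690144132441137217571)) (.alt (nat_lit 7) (.cov (nat_lit 5365713520545755037711)) (.alt (nat_lit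 7) (.cov (nat_lit 21598846930848323731463)) (.alt (nat_lit 7) (.cov (nat_lit 405586276215723562893318)) (.alt (nat_lit 7) (.cov (nat_lit 61812749209454050803715)) (.alt (nat_lit 7) (.cov (nat_lit 348205819725906706434)) (.alt (nat_lit 7) (.cov (nat_lit 1971522134924865830913)) (.alt (nat_lit 7) (.cov (nat_lit 309011148115725516800)) (.alt (nat_lit 7) (.cov (nat_lit 124794117)) .e)))))))))))))) .e)))))))))))))) .e)) .e)) .e)) .e))) .e)), .rot (.exp (.alt (nat_lit 17) (.rot (.exp (.alt (nat_lit 0) (.exp (.alt (nat_lit 1) (.exp (.alt (nat_lit 3) (.exp (.alt (nat_lit 5) (.exp (.alt (nat_lit 15) (.cov (nat_lit 406877533827083967398113)) (.alt (nat_lit 15) (.cov (nat_lit 327441648005426446354)) (.alt (nat_lit 15) (.cov (nat_lit 45632651479183812198411)) (.alt (nat_lit 15) (.exp (.alt (nat_lit 7) (.exp (.alt (nat_lit 23) (.exp (.alt (nat_lit 6) (.exp (.alt (nat_lit 31) (.cov (nat_lit 46702545665416131248162)) (.alt (nat_lit 13) (.cov (nat_lit 322821462763066359815)) (.alt (nat_lit 13) (.cov (nat_lit 42051667726719713804291))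 (.alt (nat_lit 13) (.exp (.alt (nat_lit 9) (.exp (.alt (nat_lit 29) (.cov (nat_lit 102105034438337712095243)) (.alt (nat_lit 29) (.exp (.alt (nat_lit 31) (.exp (.alt (nat_lit 27) (.exp (.alt (nat_lit 30) (.exp (.alt (nat_lit 28) (.cov (nat_lit 2997595929570705408003)) (.alt (nat_lit 28) (.exp (.alt (nat_lit 12) (.exp (.alt (nat_lit 24) (.cov (nat_lit 1586419999135156404225)) (.alt (nat_lit 20) (.cov (nat_lit 12129927183)) .e))) .e)) (.alt (nat_lit 28) (.exp (.alt (nat_lit 24) (.cov (nat_lit 1586419999135827492866)) (.alt (nat_lit 12) (.cov (nat_lit 37253808195)) .e))) .e)))) .e)) .e)) .e)) (.alt (nat_lit 29) (.cov (nat_lit 406925956521296424599553)) (.alt (nat_lit 29) (.exp (.alt (nat_lit 31) (.exp (.alt (nat_lit 27) (.exp (.alt (nat_lit 26) (.exp (.alt (nat_lit 10) (.exp (.alt (nat_lit 18) (.exp (.alt (nat_lit 30) (.cov (nat_lit 2868468712257976532993)) (.alt (nat_lit 30) (.exp (.alt (nat_lit 28) (.cov (nat_lit 347638115452088492228608)) (.alt (nat_lit 14) (.cov (nat_lit 174764064776)) .e))) .e))) .e)) .e)) .e)) .e))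 (.alt (nat_lit 31) (.cov (nat_lit 25525682540814919532547)) (.alt (nat_lit 31) (.exp (.alt (nat_lit 27) (.exp (.alt (nat_lit 30) (.cov (nat_lit 25433448424613112446978)) (.alt (nat_lit 30) (.cov (nat_lit 347882534947404612894721)) (.alt (nat_lit 30) (.exp (.alt (nat_lit 14) (.cov (nat_lit 43114652604035976134659)) (.alt (nat_lit 28) (.exp (.alt (nat_lit 12) (.exp (.alt (nat_lit 24) (.cov (nat_lit 1586419999135156404225)) (.alt (nat_lit 20) (.cov (nat_lit 12129927183)) .e))) .e)) (.alt (nat_lit 28) (.exp (.alt (nat_lit 24) (.cov (nat_lit 1586419999135827492866)) (.alt (nat_lit 12) (.cov (nat_lit 37253808195)) .e))) .e)))) .e)))) .e)) (.alt (nat_lit 21) (.cov (nat_lit 2940211082)) .e))))) .e))))) .e)) (.alt (nat_lit 13) (.cov (nat_lit 183875152601)) .e)))))) .e)) .e)) .e)) (.alt (nat_lit 15) (.cov (nat_lit 63159374013026333097985)) (.alt (nat_lit 15) (.exp (.alt (nat_lit 11) (.exp (.alt (nat_lit 27) (.cov (nat_lit 6703343941882920608596268170608642)) (.alt (nat_lit 9) (.cov (nat_lit 21903206186004428881938)) .e))) (.alt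 (nat_lit 7) (.exp (.alt (nat_lit 23) (.cov (nat_lit 16743148349741375298555263023316993)) (.alt (nat_lit 23) (.cov (nat_lit 344082514253219265249291)) .e))) (.alt (nat_lit 7) (.exp (.alt (nat_lit 23) (.exp (.alt (nat_lit 19) (.exp (.alt (nat_lit 27) (.exp (.alt (nat_lit 18) (.exp (.alt (nat_lit 6) (.cov (nat_lit 47920029665979122319371)) (.alt (nat_lit 6) (.cov (nat_lit 41846440835584907804674)) (.alt (nat_lit 6) (.cov (nat_lit 1927690391799870783489)) (.alt (nat_lit 6) (.exp (.alt (nat_lit 4) (.exp (.alt (nat_lit 20) (.exp (.alt (nat_lit 28) (.exp (.alt (nat_lit 29) (.exp (.alt (nat_lit 30) (.exp (.alt (nat_lit 12) (.cov (nat_lit 404297289872288953401345)) (.alt (nat_lit 12) (.exp (.alt (nat_lit 8) (.cov (nat_lit 343868062132024092131328)) (.alt (nat_lit 13) (.cov (nat_lit 4606394376)) .e))) .e))) .e)) .e)) .e)) .e)) (.alt (nat_lit 4) (.cov (nat_lit 350146873063938885419011)) (.alt (nat_lit 22) (.cov (nat_lit 406856779045190858964992)) (.alt (nat_lit 2) (.cov (nat_lit 648023946)) .e))))) .e))))) .e)) .e)) .e)) .e))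 (.alt (nat_lit 7) (.cov (nat_lit 13858539237104680963)) (.alt (nat_lit 7) (.exp (.alt (nat_lit 23) (.exp (.alt (nat_lit 6) (.cov (nat_lit 3131336710867164069906)) (.alt (nat_lit 6) (.cov (nat_lit 272092916558659059723)) (.alt (nat_lit 6) (.cov (nat_lit 406819894058468052566018)) (.alt (nat_lit 6) (.cov (nat_lit 6377977207225457836033)) (.alt (nat_lit 6) (.exp (.alt (nat_lit 14) (.cov (nat_lit 350262166142559742591010)) (.alt (nat_lit 4) (.cov (nat_lit 350146876076600812634119)) (.alt (nat_lit 4) (.cov (nat_lit 344317710248954573094915)) (.alt (nat_lit 4) (.exp (.alt (nat_lit 20) (.exp (.alt (nat_lit 12) (.cov (nat_lit 25447283592665252233227)) (.alt (nat_lit 12) (.exp (.alt (nat_lit 28) (.exp (.alt (nat_lit 29) (.exp (.alt (nat_lit 30) (.exp (.alt (nat_lit 8) (.cov (nat_lit 345198533555121306992643)) (.alt (nat_lit 8) (.exp (.alt (nat_lit 9) (.exp (.alt (nat_lit 24) (.cov (nat_lit 102107340142796938936321)) (.alt (nat_lit 24) (.exp (.alt (nat_lit 26) (.cov (nat_lit 343909567306189947011072)) (.alt (nat_lit 16) (.cov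 (nat_lit 10521411592)) .e))) .e))) .e)) (.alt (nat_lit 14) (.cov (nat_lit 9808380099)) .e)))) .e)) .e)) .e)) (.alt (nat_lit 12) (.cov (nat_lit 21711823415250855657473)) (.alt (nat_lit 12) (.exp (.alt (nat_lit 28) (.exp (.alt (nat_lit 29) (.exp (.alt (nat_lit 25) (.exp (.alt (nat_lit 9) (.exp (.alt (nat_lit 24) (.exp (.alt (nat_lit 30) (.cov (nat_lit 102107340142797515653121)) (.alt (nat_lit 30) (.exp (.alt (nat_lit 26) (.cov (nat_lit 102070446656848511631360)) (.alt (nat_lit 22) (.cov (nat_lit 10521411592)) .e))) .e))) .e)) .e)) .e)) .e)) (.alt (nat_lit 14) (.cov (nat_lit 21568855936994493071363)) (.alt (nat_lit 14) (.exp (.alt (nat_lit 30) (.exp (.alt (nat_lit 10) (.cov (nat_lit 26514888795945118466050)) (.alt (nat_lit 10) (.cov (nat_lit 59952061176112742401)) (.alt (nat_lit 10) (.exp (.alt (nat_lit 11) (.cov (nat_lit 22747141303488190873603)) (.alt (nat_lit 26) (.exp (.alt (nat_lit 18) (.exp (.alt (nat_lit 27) (.cov (nat_lit 102105034299787740971009)) (.alt (nat_lit 27) (.exp (.alt (nat_lit 25) (.cov (nat_lit 102068140813839309471744))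 (.alt (nat_lit 31) (.cov (nat_lit 159246188552)) .e))) .e))) .e)) (.alt (nat_lit 11) (.cov (nat_lit 166256968297)) .e)))) .e)))) .e)) (.alt (nat_lit 13) (.cov (nat_lit 19055775626)) .e))))) .e))))) .e)) (.alt (nat_lit 4) (.cov (nat_lit 255862445)) .e)))))) .e)))))) .e)) (.alt (nat_lit 7) (.cov (nat_lit 124794117)) .e))))))) .e))))))) .e)) .e)) .e)) .e))) .e))]),
   ([7, 15, 1], [.cov (nat_lit 76059036014028139473636117446750), .cov (nat_lit 76059036014028139473636117446750), .cov (nat_lit 76059036014028139473636117446750), .cov (nat_lit 76059036014028139473636117446750), .cov (nat_lit 76059036014028139473636117446750), .cov (nat_lit 76059036014028139473636117446750), .cov (nat_lit 76059036014028139473636117446753), .cov (nat_lit 76059036014028139473636117446753), .cov (nat_lit 76059036014028139473636117446753), .cov (nat_lit 76059036014028139473636117446753), .cov (nat_lit 76059036014028139473636117446753), .cov (nat_lit 76059036014028139473636117446753), .cov (nat_lit 76059036013806772365499509506086), .cov (nat_lit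 76059036039263283910720643661862), .cov (nat_lit 76059036039263285397260364415014), .cov (nat_lit 76059036039263286973960038645798), .cov (nat_lit 76059036015503880602624089653286), .rot (.rot (.exp (.alt (nat_lit 15) (.exp (.alt (nat_lit 0) (.exp (.alt (nat_lit 1) (.exp (.alt (nat_lit 3) (.exp (.alt (nat_lit 5) (.exp (.alt (nat_lit 2) (.exp (.alt (nat_lit 6) (.exp (.alt (nat_lit 10) (.exp (.alt (nat_lit 17) (.cov (nat_lit 365577575957133005946899)) (.alt (nat_lit 17) (.cov (nat_lit 6698479569066481680395)) (.alt (nat_lit 17) (.exp (.alt (nat_lit 16) (.exp (.alt (nat_lit 18) (.exp (.alt (nat_lit 20) (.exp (.alt (nat_lit 21) (.cov (nat_lit 104623014997791085690887)) (.alt (nat_lit 21) (.cov (nat_lit 350186072395086931427331)) (.alt (nat_lit 19) (.cov (nat_lit 1980722586385982160896)) (.alt (nat_lit 19) (.cov (nat_lit 4054848468)) .e))))) .e)) .e)) .e)) (.alt (nat_lit 17) (.cov (nat_lit 405570124477859290415105)) (.alt (nat_lit 17) (.exp (.alt (nat_lit 16) (.cov (nat_lit 21970072620598904750114)) (.alt (nat_lit 16) (.cov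 (nat_lit 21882453598919710474247)) (.alt (nat_lit 16) (.cov (nat_lit 6474809439264777961475)) (.alt (nat_lit 16) (.exp (.alt (nat_lit 18) (.exp (.alt (nat_lit 20) (.cov (nat_lit 347880229223142669680651)) (.alt (nat_lit 20) (.exp (.alt (nat_lit 21) (.exp (.alt (nat_lit 23) (.exp (.alt (nat_lit 29) (.exp (.alt (nat_lit 28) (.cov (nat_lit 129127226108333260803)) (.alt (nat_lit 28) (.exp (.alt (nat_lit 12) (.exp (.alt (nat_lit 24) (.cov (nat_lit 428886808509848485889)) (.alt (nat_lit 30) (.cov (nat_lit 4624220175)) .e))) .e)) (.alt (nat_lit 28) (.exp (.alt (nat_lit 24) (.cov (nat_lit 428886808510016258050)) (.alt (nat_lit 12) (.cov (nat_lit 18933088323)) .e))) .e)))) .e)) .e)) .e)) (.alt (nat_lit 20) (.cov (nat_lit 6705397098093956038657)) (.alt (nat_lit 20) (.exp (.alt (nat_lit 21) (.cov (nat_lit 104623014997791085690887)) (.alt (nat_lit 21) (.cov (nat_lit 350186072395086931427331)) (.alt (nat_lit 21) (.exp (.alt (nat_lit 23) (.exp (.alt (nat_lit 29) (.cov (nat_lit 57646108215872585730)) (.alt (nat_lit 29) (.cov (nat_lit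 795515981115249655809)) (.alt (nat_lit 29) (.exp (.alt (nat_lit 13) (.cov (nat_lit 3864592901218191278083)) (.alt (nat_lit 25) (.exp (.alt (nat_lit 9) (.exp (.alt (nat_lit 24) (.cov (nat_lit 428886808666233110529)) (.alt (nat_lit 27) (.cov (nat_lit 185012846607)) .e))) .e)) (.alt (nat_lit 25) (.exp (.alt (nat_lit 24) (.cov (nat_lit 428886808510016258050)) (.alt (nat_lit 9) (.cov (nat_lit 1753219139)) .e))) .e)))) .e)))) .e)) (.alt (nat_lit 4) (.cov (nat_lit 1790971783)) .e))))) .e))))) .e)) (.alt (nat_lit 16) (.cov (nat_lit 47599069626)) .e)))))) .e)))))) .e)) .e)) .e)) .e)) .e)) .e)) (.alt (nat_lit 0) (.exp (.alt (nat_lit 1) (.exp (.alt (nat_lit 3) (.exp (.alt (nat_lit 5) (.exp (.alt (nat_lit 7) (.exp (.alt (nat_lit 6) (.exp (.alt (nat_lit 23) (.exp (.alt (nat_lit 17) (.cov (nat_lit 6394104568906658086933)) (.alt (nat_lit 17) (.cov (nat_lit 5139729703647140904971)) (.alt (nat_lit 17) (.cov (nat_lit 795527778875723481090)) (.alt (nat_lit 17) (.cov (nat_lit 3968374158710768926721)) (.alt (nat_lit 17) (.exp (.alt (nat_lit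 16) (.cov (nat_lit 6686946090118753026082)) (.alt (nat_lit 21) (.cov (nat_lit 350186075407757445431303)) (.alt (nat_lit 21) (.cov (nat_lit 63154742920482801057795)) (.alt (nat_lit 21) (.exp (.alt (nat_lit 20) (.exp (.alt (nat_lit 29) (.cov (nat_lit 406925951036945578590219)) (.alt (nat_lit 29) (.exp (.alt (nat_lit 28) (.exp (.alt (nat_lit 12) (.exp (.alt (nat_lit 30) (.exp (.alt (nat_lit 25) (.cov (nat_lit 6407937740197084528643)) (.alt (nat_lit 25) (.exp (.alt (nat_lit 9) (.exp (.alt (nat_lit 24) (.cov (nat_lit 102107340142796938936321)) (.alt (nat_lit 24) (.exp (.alt (nat_lit 26) (.cov (nat_lit 102070446656848511631360)) (.alt (nat_lit 16) (.cov (nat_lit 10521411592)) .e))) .e))) .e)) (.alt (nat_lit 31) (.cov (nat_lit 330301635)) .e)))) .e)) .e)) .e)) (.alt (nat_lit 29) (.cov (nat_lit 347889457969592361025537)) (.alt (nat_lit 29) (.exp (.alt (nat_lit 28) (.exp (.alt (nat_lit 12) (.exp (.alt (nat_lit 8) (.exp (.alt (nat_lit 9) (.exp (.alt (nat_lit 24) (.exp (.alt (nat_lit 30) (.cov (nat_lit 102107340142797515653121))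 (.alt (nat_lit 30) (.exp (.alt (nat_lit 26) (.cov (nat_lit 343909567306189947011072)) (.alt (nat_lit 22) (.cov (nat_lit 10521411592)) .e))) .e))) .e)) .e)) .e)) .e)) (.alt (nat_lit 31) (.cov (nat_lit 726340976895724617731)) (.alt (nat_lit 31) (.exp (.alt (nat_lit 30) (.exp (.alt (nat_lit 27) (.cov (nat_lit 25364306098202345474)) (.alt (nat_lit 27) (.cov (nat_lit 1757052515957391491073)) (.alt (nat_lit 27) (.exp (.alt (nat_lit 11) (.cov (nat_lit 104576898014480387014659)) (.alt (nat_lit 26) (.exp (.alt (nat_lit 18) (.exp (.alt (nat_lit 10) (.cov (nat_lit 102065834968631090348033)) (.alt (nat_lit 10) (.exp (.alt (nat_lit 8) (.cov (nat_lit 343868062132024094228480)) (.alt (nat_lit 14) (.cov (nat_lit 159228362760)) .e))) .e))) .e)) (.alt (nat_lit 11) (.cov (nat_lit 28766634601)) .e)))) .e)))) .e)) (.alt (nat_lit 13) (.cov (nat_lit 9776926602)) .e))))) .e))))) .e)) (.alt (nat_lit 21) (.cov (nat_lit 255862445)) .e)))))) .e)))))) .e)) .e)) .e)) .e)) .e)) .e)) .e))) .e)))]),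
   ([7, 8, 8], [.cov (nat_lit 1698658134266840819868705463730270), .cov (nat_lit 1698658134266840819868705463730270), .cov (nat_lit 1698658134266840819868705463730270), .cov (nat_lit 1698658134268095198978090131783774), .cov (nat_lit 1698658134268095198978090131783774), .cov (nat_lit 1698658134268095198978090131783774), .cov (nat_lit 4294806563535509012733164901105758), .cov (nat_lit 4294806563535509012733164901105758), .cov (nat_lit 4294806563535509012733164901105758), .cov (nat_lit 1698658134266840819868705463730273), .cov (nat_lit 1698658134266840819868705463730273), .cov (nat_lit 1698658134266840819868705463730273), .cov (nat_lit 1698658134268095198978090131783777), .cov (nat_lit 1698658134268095198978090131783777), .cov (nat_lit 1698658134268095198978090131783777), .cov (nat_lit 4294806563535509012733164901105761), .cov (nat_lit 4294806563535509012733164901105761), .cov (nat_lit 4294806563535509012733164901105761), .cov (nat_lit 22305586291576937970599116025102374), .cov (nat_lit 22305586291576937970599116025102374),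 .cov (nat_lit 22305586291576937970599116025102374), .cov (nat_lit 22305586291578192349708500693155878), .cov (nat_lit 22305586291578192349708500693155878), .cov (nat_lit 22305586291578192349708500693155878), .cov (nat_lit 224480639964368579450696876494422054), .cov (nat_lit 99865516500739800616243426934915110), .exp (.alt (nat_lit 0) (.exp (.alt (nat_lit 1) (.exp (.alt (nat_lit 3) (.exp (.alt (nat_lit 5) (.exp (.alt (nat_lit 2) (.exp (.alt (nat_lit 6) (.exp (.alt (nat_lit 10) (.exp (.alt (nat_lit 17) (.cov (nat_lit 51025478401543883356759438952235010)) (.alt (nat_lit 17) (.cov (nat_lit 100352298639831701561604933074026497)) (.alt (nat_lit 17) (.cov (nat_lit 1698658172927462485496324761321472)) (.alt (nat_lit 17) (.cov (nat_lit 21506600658443635261534)) .e))))) .e)) .e)) .e)) .e)) .e)) .e)) (.alt (nat_lit 0) (.exp (.alt (nat_lit 1) (.exp (.alt (nat_lit 3) (.exp (.alt (nat_lit 5) (.exp (.alt (nat_lit 4) (.exp (.alt (nat_lit 6) (.exp (.alt (nat_lit 12) (.exp (.alt (nat_lit 17) (.cov (nat_lit 757177851162280071902025465700810754))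 (.alt (nat_lit 17) (.cov (nat_lit 889581421137125132163358900926545921)) (.alt (nat_lit 17) (.cov (nat_lit 14679400319264158010255072965951488)) (.alt (nat_lit 17) (.cov (nat_lit 1436543106247643103326)) .e))))) .e)) .e)) .e)) .e)) .e)) .e)) .e))]),
   ([7, 1, 15], [.cov (nat_lit 56055572730227082950953087526764638), .cov (nat_lit 56055572730227082950953087526764638), .cov (nat_lit 56055572730227082950953087526764638), .cov (nat_lit 56055572730227082950953087526764638), .cov (nat_lit 56055572730227082950953087526764638), .cov (nat_lit 56055572730227082950953087526764638), .cov (nat_lit 56055572730227082950953087526764641), .cov (nat_lit 56055572730227082950953087526764641), .cov (nat_lit 56055572730227082950953087526764641), .cov (nat_lit 56055572730227082950953087526764641), .cov (nat_lit 56055572730227082950953087526764641), .cov (nat_lit 56055572730227082950953087526764641), .cov (nat_lit 1698692980319282671606448949035046), .cov (nat_lit 3483562554865014081036840301756454), .cov (nat_lit 55731056425170680707380204378521638),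 .cov (nat_lit 58327207456046458332327436510822438), .cov (nat_lit 3808090446266471511215906169552934), .rot (.exp (.alt (nat_lit 17) (.rot (.exp (.alt (nat_lit 0) (.exp (.alt (nat_lit 1) (.exp (.alt (nat_lit 3) (.exp (.alt (nat_lit 5) (.exp (.alt (nat_lit 16) (.exp (.alt (nat_lit 18) (.exp (.alt (nat_lit 20) (.exp (.alt (nat_lit 15) (.cov (nat_lit 45408968284809931522066)) (.alt (nat_lit 15) (.cov (nat_lit 29023649398454677929995)) (.alt (nat_lit 15) (.cov (nat_lit 10134191968435898941442)) (.alt (nat_lit 15) (.cov (nat_lit 406886769874262241050625)) (.alt (nat_lit 15) (.exp (.alt (nat_lit 11) (.exp (.alt (nat_lit 27) (.cov (nat_lit 6703337316994323001555997548347393)) (.alt (nat_lit 9) (.cov (nat_lit 3048324886990802649099)) .e))) (.alt (nat_lit 11) (.exp (.alt (nat_lit 9) (.exp (.alt (nat_lit 13) (.exp (.alt (nat_lit 29) (.exp (.alt (nat_lit 12) (.exp (.alt (nat_lit 27) (.cov (nat_lit 7819113677412857020418)) (.alt (nat_lit 27) (.cov (nat_lit 8925918436000828227585)) (.alt (nat_lit 27) (.exp (.alt (nat_lit 31) (.cov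 (nat_lit 47956922923374980628483)) (.alt (nat_lit 26) (.exp (.alt (nat_lit 24) (.exp (.alt (nat_lit 30) (.cov (nat_lit 102098116770760652488705)) (.alt (nat_lit 10) (.cov (nat_lit 166142672911)) .e))) .e)) (.alt (nat_lit 31) (.exp (.alt (nat_lit 30) (.cov (nat_lit 102098116770943905824770)) (.alt (nat_lit 23) (.cov (nat_lit 166218170435)) .e))) .e)))) .e)))) .e)) .e)) .e)) .e)) (.alt (nat_lit 11) (.cov (nat_lit 42081638612527918088195)) (.alt (nat_lit 11) (.exp (.alt (nat_lit 9) (.exp (.alt (nat_lit 27) (.cov (nat_lit 7819113787365160648715)) (.alt (nat_lit 27) (.exp (.alt (nat_lit 25) (.exp (.alt (nat_lit 24) (.exp (.alt (nat_lit 29) (.exp (.alt (nat_lit 31) (.cov (nat_lit 3906098075356571369475)) (.alt (nat_lit 31) (.exp (.alt (nat_lit 23) (.exp (.alt (nat_lit 30) (.cov (nat_lit 1581808313273073795073)) (.alt (nat_lit 30) (.exp (.alt (nat_lit 14) (.cov (nat_lit 175244079695363309568)) (.alt (nat_lit 22) (.cov (nat_lit 106954760)) .e))) .e))) .e)) (.alt (nat_lit 31) (.cov (nat_lit 299893353)) .e)))) .e)) .e)) .e)) (.alt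 (nat_lit 27) (.cov (nat_lit 809352002499095035905)) (.alt (nat_lit 27) (.exp (.alt (nat_lit 31) (.exp (.alt (nat_lit 29) (.exp (.alt (nat_lit 28) (.exp (.alt (nat_lit 24) (.exp (.alt (nat_lit 12) (.exp (.alt (nat_lit 30) (.cov (nat_lit 102098116770916424744961)) (.alt (nat_lit 23) (.cov (nat_lit 1868562447)) .e))) .e)) .e)) .e)) .e)) (.alt (nat_lit 31) (.cov (nat_lit 364323624276798210051)) (.alt (nat_lit 31) (.exp (.alt (nat_lit 23) (.exp (.alt (nat_lit 30) (.exp (.alt (nat_lit 28) (.exp (.alt (nat_lit 29) (.exp (.alt (nat_lit 24) (.exp (.alt (nat_lit 14) (.cov (nat_lit 25405778286511602532352)) (.alt (nat_lit 26) (.cov (nat_lit 1352663048)) .e))) .e)) .e)) .e)) (.alt (nat_lit 29) (.cov (nat_lit 1761664204174823260161)) (.alt (nat_lit 29) (.exp (.alt (nat_lit 28) (.cov (nat_lit 26664768576323212804099)) (.alt (nat_lit 28) (.exp (.alt (nat_lit 24) (.exp (.alt (nat_lit 30) (.cov (nat_lit 25267427703916142264321)) (.alt (nat_lit 30) (.exp (.alt (nat_lit 14) (.cov (nat_lit 25405778286511602532352)) (.alt (nat_lit 26) (.cov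 (nat_lit 1352663048)) .e))) .e))) .e)) (.alt (nat_lit 13) (.cov (nat_lit 11588862147)) .e)))) .e)))) .e)) (.alt (nat_lit 25) (.cov (nat_lit 1875906451)) .e))))) .e))))) .e)) (.alt (nat_lit 11) (.cov (nat_lit 20664294355)) .e)))))) .e)))))) .e)) .e)) .e)) .e)) .e)) .e)) (.alt (nat_lit 0) (.exp (.alt (nat_lit 1) (.exp (.alt (nat_lit 3) (.exp (.alt (nat_lit 5) (.exp (.alt (nat_lit 21) (.exp (.alt (nat_lit 23) (.exp (.alt (nat_lit 20) (.exp (.alt (nat_lit 15) (.cov (nat_lit 104701415423740990193683)) (.alt (nat_lit 15) (.cov (nat_lit 21799445436428564037643)) (.alt (nat_lit 15) (.exp (.alt (nat_lit 31) (.exp (.alt (nat_lit 29) (.exp (.alt (nat_lit 27) (.exp (.alt (nat_lit 11) (.cov (nat_lit 347781077848449648427015)) (.alt (nat_lit 11) (.cov (nat_lit 82074176498762370777091)) (.alt (nat_lit 11) (.exp (.alt (nat_lit 9) (.exp (.alt (nat_lit 10) (.cov (nat_lit 26521806324981894742018)) (.alt (nat_lit 10) (.cov (nat_lit 5123583313807992160257)) (.alt (nat_lit 10) (.exp (.alt (nat_lit 2) (.cov (nat_lit 262866120654029062147))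 (.alt (nat_lit 14) (.exp (.alt (nat_lit 6) (.exp (.alt (nat_lit 30) (.cov (nat_lit 45443554034389365030913)) (.alt (nat_lit 12) (.cov (nat_lit 11572084751)) .e))) .e)) (.alt (nat_lit 14) (.exp (.alt (nat_lit 30) (.cov (nat_lit 45443554034400232472578)) (.alt (nat_lit 6) (.cov (nat_lit 1969225795)) .e))) .e)))) .e)))) .e)) (.alt (nat_lit 7) (.cov (nat_lit 46412074887)) .e))))) .e)) .e)) .e)) (.alt (nat_lit 15) (.cov (nat_lit 661786232474936803329)) (.alt (nat_lit 15) (.exp (.alt (nat_lit 31) (.cov (nat_lit 347827194996679079100450)) (.alt (nat_lit 31) (.cov (nat_lit 29060542886620367421447)) (.alt (nat_lit 31) (.cov (nat_lit 21762548590350940766211)) (.alt (nat_lit 31) (.exp (.alt (nat_lit 29) (.exp (.alt (nat_lit 27) (.cov (nat_lit 1353530112502325575691)) (.alt (nat_lit 27) (.exp (.alt (nat_lit 11) (.exp (.alt (nat_lit 9) (.exp (.alt (nat_lit 10) (.exp (.alt (nat_lit 26) (.cov (nat_lit 26558699797881055870979)) (.alt (nat_lit 26) (.exp (.alt (nat_lit 18) (.exp (.alt (nat_lit 30) (.cov (nat_lit 45443554034389352448001))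 (.alt (nat_lit 24) (.cov (nat_lit 184444518415)) .e))) .e)) (.alt (nat_lit 26) (.exp (.alt (nat_lit 30) (.cov (nat_lit 45443554034400232472578)) (.alt (nat_lit 18) (.cov (nat_lit 19115540547)) .e))) .e)))) .e)) .e)) .e)) (.alt (nat_lit 27) (.cov (nat_lit 21827115552673727774721)) (.alt (nat_lit 27) (.exp (.alt (nat_lit 11) (.cov (nat_lit 347781077848449648427015)) (.alt (nat_lit 11) (.cov (nat_lit 45549623232973218250755)) (.alt (nat_lit 11) (.exp (.alt (nat_lit 9) (.exp (.alt (nat_lit 10) (.cov (nat_lit 406847552264688575184898)) (.alt (nat_lit 10) (.cov (nat_lit 21827110072707750821889)) (.alt (nat_lit 10) (.exp (.alt (nat_lit 2) (.cov (nat_lit 4219692724464740466691)) (.alt (nat_lit 26) (.exp (.alt (nat_lit 18) (.exp (.alt (nat_lit 30) (.cov (nat_lit 45443554034389352448001)) (.alt (nat_lit 24) (.cov (nat_lit 184444518415)) .e))) .e)) (.alt (nat_lit 26) (.exp (.alt (nat_lit 30) (.cov (nat_lit 45443554034400232472578)) (.alt (nat_lit 18) (.cov (nat_lit 19115540547)) .e))) .e)))) .e)))) .e)) (.alt (nat_lit 19) (.cov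 (nat_lit 3038777223)) .e))))) .e))))) .e)) (.alt (nat_lit 31) (.cov (nat_lit 158103246317)) .e)))))) .e)))))) .e)) .e)) .e)) .e)) .e)) .e)) .e)))) .e))]),
   ([8, 14, 1], [.cov (nat_lit 76059036013806776706379435475166), .cov (nat_lit 76059036013806776706379435475166), .cov (nat_lit 76059036013806776706379435475166), .cov (nat_lit 76059036013806776706379435475166), .cov (nat_lit 76059036013806776706379435475166), .cov (nat_lit 76059036015503877161161284649415), .cov (nat_lit 76059036015503877161161284649415), .cov (nat_lit 76059036015503877161161284649415), .cov (nat_lit 76059036015503877161161284649415), .cov (nat_lit 76059036015503877161161284649415), .cov (nat_lit 76059036023841794929400261640415), .cov (nat_lit 76059036061620735335562771169503), .cov (nat_lit 76059036061620735335562771169503), .cov (nat_lit 76059036013732992113861239767263), .rot (.rot (.exp (.alt (nat_lit 15) (.exp (.alt (nat_lit 0) (.cov (nat_lit 86258665782917316739273062350850)) (.alt (nat_lit 0) (.cov (nat_lit 248517265613394994788402708086785))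 (.alt (nat_lit 0) (.cov (nat_lit 51035670685879391126606497033748480)) (.alt (nat_lit 0) (.cov (nat_lit 404318068596962014265438)) .e))))) .e)))]),
   ([8, 11, 4], [.cov (nat_lit 887355449174019463070656889880798), .cov (nat_lit 76059069863655924571283537264862), .cov (nat_lit 887355449174019463070656889880798), .cov (nat_lit 76059069863655924571283537264862), .cov (nat_lit 887355449174019463070656889880798), .cov (nat_lit 76059069863655924571283537264862), .cov (nat_lit 887355449174019463070656889880798), .cov (nat_lit 76059069863655924571283537264862), .cov (nat_lit 887355449174019463070657460306375), .cov (nat_lit 76059069863655924571284107690439), .cov (nat_lit 887355449174019463070657460306375), .cov (nat_lit 76059069863655924571284107690439), .cov (nat_lit 887355449174019463070657460306375), .cov (nat_lit 76059069863655924571284107690439), .cov (nat_lit 887355449174019463070657460306375), .cov (nat_lit 76059069863655924571284107690439), .cov (nat_lit 887355449175716566386402857582815), .cov (nat_lit 76059069864024851349392465068255),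 .cov (nat_lit 887355449175716566386402857582815), .cov (nat_lit 76059069965703307113600210960607), .cov (nat_lit 887355449175716566386402857582815), .cov (nat_lit 76059069968285854138251733893343), .cov (nat_lit 887355449175716566386402857582815), .rot (.rot (.exp (.alt (nat_lit 15) (.exp (.alt (nat_lit 7) (.exp (.alt (nat_lit 3) (.exp (.alt (nat_lit 5) (.exp (.alt (nat_lit 0) (.cov (nat_lit 86226498686101739863757555761154)) (.alt (nat_lit 0) (.cov (nat_lit 86226498709713572289100898107393)) (.alt (nat_lit 0) (.cov (nat_lit 86226498685963389309593005850624)) (.alt (nat_lit 0) (.cov (nat_lit 43130808282370952659038)) .e))))) .e)) .e)) .e)) .e)))]),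
   ([8, 8, 7], [.cov (nat_lit 1374133705206351952657895573684446), .cov (nat_lit 1374133719713461788033445670158558), .cov (nat_lit 17113283286837860702864650142744798), .cov (nat_lit 1374133705206351952657895573684446), .cov (nat_lit 1374133719713461788033445670158558), .cov (nat_lit 17113283286837860702864650142744798), .cov (nat_lit 1374133705206351952657895573684446), .cov (nat_lit 1374133719713461788033445670158558), .cov (nat_lit 17113283286837860702864650142744798), .cov (nat_lit 56217769273503195166293875432096610), .cov (nat_lit 56217769288010305001669425528570722), .cov (nat_lit 94510958334779496426521101420462946), .cov (nat_lit 1374133705206499526610347240718791), .cov (nat_lit 1374133719713609361985897337192903), .cov (nat_lit 17113283286839262655414243512287696), .cov (nat_lit 1374133705206499526610347240718791), .cov (nat_lit 1374133719713609361985897337192903), .cov (nat_lit 17113283286839262655414243512287696), .cov (nat_lit 56217769273503195166293875432096610), .cov (nat_lit 56217769288010305001669425528570722),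 .cov (nat_lit 94510958334779496426521101420462946), .cov (nat_lit 56217769273499505817991369575105378), .cov (nat_lit 56217769288006615653366919671579490), .cov (nat_lit 94510958334396615807059175011255138), .cov (nat_lit 1374133705204950000108155638382815), .cov (nat_lit 1374133719712059835483705734856927), .rot (.rot (.exp (.alt (nat_lit 15) (.exp (.alt (nat_lit 7) (.exp (.alt (nat_lit 3) (.exp (.alt (nat_lit 5) (.exp (.alt (nat_lit 11) (.exp (.alt (nat_lit 9) (.exp (.alt (nat_lit 10) (.exp (.alt (nat_lit 0) (.cov (nat_lit 572982259023978945368278863708162)) (.alt (nat_lit 0) (.cov (nat_lit 6414318473477564606849867508088833)) (.alt (nat_lit 0) (.cov (nat_lit 47303653985837501389145428223590400)) (.alt (nat_lit 0) (.cov (nat_lit 22765590952652656607326)) .e))))) .e)) .e)) .e)) .e)) .e)) .e)) (.alt (nat_lit 15) (.exp (.alt (nat_lit 7) (.exp (.alt (nat_lit 3) (.exp (.alt (nat_lit 5) (.exp (.alt (nat_lit 13) (.exp (.alt (nat_lit 9) (.exp (.alt (nat_lit 12) (.exp (.alt (nat_lit 0) (.cov (nat_lit 572982259044044391234456428478466))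 (.alt (nat_lit 0) (.cov (nat_lit 55741138629558427077889583204007937)) (.alt (nat_lit 0) (.cov (nat_lit 3169130688311531992502386989989888)) (.alt (nat_lit 0) (.cov (nat_lit 343886511787625320284254)) .e))))) .e)) .e)) .e)) .e)) .e)) .e)) .e))))]),
   ([8, 7, 8], [.cov (nat_lit 889094643113234872782080143179907294), .cov (nat_lit 889094643113234872782080143179907294), .cov (nat_lit 889094643113234872782080143179907294), .cov (nat_lit 889094643113234872782086740249673950), .cov (nat_lit 889094643113234872782086740249673950), .cov (nat_lit 889094643113234872782086740249673950), .cov (nat_lit 91590297497668605438756659128172766), .cov (nat_lit 91590297497668605438756659128172766), .cov (nat_lit 91590297497668605438756659128172766), .cov (nat_lit 224480645220776936330176611965993415), .cov (nat_lit 224480645220776936330176611965993415), .cov (nat_lit 224480645220776936330176611965993415), .cov (nat_lit 224480645220776936330183209035760071), .cov (nat_lit 224480645220776936330183209035760071), .cov (nat_lit 224480645220776936330183209035760071),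 .cov (nat_lit 91590297497668605438756658054431175), .cov (nat_lit 91590297497668605438756658054431175), .cov (nat_lit 91590297497668605438756658054431175), .cov (nat_lit 4294806563534402207805252005003487), .cov (nat_lit 4294806563534402207805252005003487), .cov (nat_lit 4294806563534402207805252005003487), .cov (nat_lit 4294806563534402207811849074770143), .cov (nat_lit 4294806563534402207811849074770143), .cov (nat_lit 4294806563534402207811849074770143), .cov (nat_lit 224480639964384886372051396857954527), .cov (nat_lit 14679396165437981222950806061318367), .rot (.exp (.alt (nat_lit 17) (.exp (.alt (nat_lit 1) (.exp (.alt (nat_lit 3) (.exp (.alt (nat_lit 5) (.exp (.alt (nat_lit 19) (.exp (.alt (nat_lit 23) (.exp (.alt (nat_lit 27) (.rot (.exp (.alt (nat_lit 0) (.cov (nat_lit 9000325702806212385812158705827842)) (.alt (nat_lit 0) (.cov (nat_lit 764804037255866804116217853758144513)) (.alt (nat_lit 0) (.cov (nat_lit 14679400319289579929431653941772288)) (.alt (nat_lit 0) (.cov (nat_lit 344103261019476273922142)) .e))))))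 .e)) .e)) .e)) .e)) .e)) .e)) (.alt (nat_lit 17) (.exp (.alt (nat_lit 1) (.exp (.alt (nat_lit 3) (.exp (.alt (nat_lit 5) (.exp (.alt (nat_lit 21) (.exp (.alt (nat_lit 23) (.exp (.alt (nat_lit 29) (.rot (.exp (.alt (nat_lit 0) (.cov (nat_lit 138807747166498024019909539600007170)) (.alt (nat_lit 0) (.cov (nat_lit 58651664494771346783372259950067713)) (.alt (nat_lit 0) (.cov (nat_lit 1698658172930075005625763876569088)) (.alt (nat_lit 0) (.cov (nat_lit 22982340184340399390814)) .e)))))) .e)) .e)) .e)) .e)) .e)) .e)) .e)))]),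
   ([8, 4, 11], [.cov (nat_lit 725140090230979329684117150236894), .cov (nat_lit 3808062365366531784306502722912478), .cov (nat_lit 3808055977402500940605943575478494), .cov (nat_lit 889094650574728499431263752815640798), .cov (nat_lit 756204326522345141509086262331441374), .cov (nat_lit 756204326522345141509086262331441374), .cov (nat_lit 756204326522345141509086262331441374), .cov (nat_lit 756204326522345141509086262331441374), .cov (nat_lit 5917432809403800597724481420526023), .cov (nat_lit 5917432809403800597724481420526023), .cov (nat_lit 5917432809403800597724481420526023), .cov (nat_lit 5917432809403800597724481420526023), .cov (nat_lit 1698660242611924430231287072031175), .cov (nat_lit 759449488363983344330185997222412743), .cov (nat_lit 224480658963823960338059072569868743), .cov (nat_lit 5917419346780712010299651087401415), .cov (nat_lit 22305588399947182939876035183771871), .cov (nat_lit 55893264032539362023218085418238175), .cov (nat_lit 76099003130327704758724111368415), .cov (nat_lit 800501104884847995536533189778473183),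 .cov (nat_lit 22305588399922021580961694378623199), .cov (nat_lit 55893264032514200664303744613089503), .cov (nat_lit 47942559501732668807325874584027359), .rot (.exp (.alt (nat_lit 17) (.exp (.alt (nat_lit 1) (.exp (.alt (nat_lit 3) (.exp (.alt (nat_lit 5) (.rot (.exp (.alt (nat_lit 0) (.cov (nat_lit 5917426581017957190567890314592258)) (.alt (nat_lit 0) (.cov (nat_lit 50863238955960034692613763195994113)) (.alt (nat_lit 0) (.cov (nat_lit 47293534875387566663310599769817088)) (.alt (nat_lit 0) (.cov (nat_lit 1584126096822522347614)) .e)))))) .e)) .e)) .e)) .e))]),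
   ([8, 1, 14], [.cov (nat_lit 3808083980931188212179080914665694), .cov (nat_lit 3808083980931188212179080914665694), .cov (nat_lit 3808083980931188212179080914665694), .cov (nat_lit 3808083980931188212179080914665694), .cov (nat_lit 3808083980931188212179080914665694), .cov (nat_lit 8513594797954208927973487534932423), .cov (nat_lit 725149466630637979051092751679943), .cov (nat_lit 725154679518772157332094084710855), .cov (nat_lit 725157914604265446079765598437831), .cov (nat_lit 3808083980931188212178896667279817), .cov (nat_lit 8513594797954208927973487534932191), .cov (nat_lit 58813970571489022073236020434829535), .cov (nat_lit 725159229915557186796307678757087), .cov (nat_lit 6728752477432154910743046341525727), .rot (.exp (.alt (nat_lit 17) (.rot (.exp (.alt (nat_lit 0) (.cov (nat_lit 562894547120176956728178791940098)) (.alt (nat_lit 0) (.cov (nat_lit 135887131422740790423109642747904001)) (.alt (nat_lit 0) (.cov (nat_lit 94835534582833345826033430502047744)) (.alt (nat_lit 0) (.cov (nat_lit 255975617622335029342))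 .e)))))) .e))]),
   ([10, 12, 1], [.cov (nat_lit 76059036013732978862511601223307), .cov (nat_lit 76059036013732978862511601223307), .cov (nat_lit 76059036013732978862511601223307), .cov (nat_lit 76059036013732978862511601223307), .cov (nat_lit 76059036013732978862511601223307), .cov (nat_lit 76059036013732978862501400675980), .cov (nat_lit 76059036013732978862501400675980), .cov (nat_lit 76059036013732978862501400675980), .cov (nat_lit 76059036013732978862501400675980), .cov (nat_lit 76059036013732978862501400675980), .cov (nat_lit 76059036014470842454999016933005), .cov (nat_lit 76059036420520579202516456048270), .cov (nat_lit 76059036013732975632319982339726), .cov (nat_lit 76059036013732985099115097491086), .cov (nat_lit 76059036013732978862519050308292), .cov (nat_lit 76059036014470842455002439484425), .cov (nat_lit 76059036420520579202342979634186), .cov (nat_lit 76059036013732975632146505925642), .cov (nat_lit 76059036013732985098941621077002), .rot (.rot (.exp (.alt (nat_lit 15) (.exp (.alt (nat_lit 0) (.cov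 (nat_lit 86234197130305061751047183138818)) (.alt (nat_lit 0) (.exp (.alt (nat_lit 1) (.cov (nat_lit 86234197124026251212769043939335)) (.alt (nat_lit 1) (.exp (.alt (nat_lit 3) (.exp (.alt (nat_lit 5) (.exp (.alt (nat_lit 7) (.exp (.alt (nat_lit 6) (.exp (.alt (nat_lit 23) (.exp (.alt (nat_lit 4) (.exp (.alt (nat_lit 20) (.exp (.alt (nat_lit 12) (.exp (.alt (nat_lit 17) (.cov (nat_lit 63124758367568703520779)) (.alt (nat_lit 17) (.exp (.alt (nat_lit 19) (.exp (.alt (nat_lit 18) (.exp (.alt (nat_lit 27) (.exp (.alt (nat_lit 25) (.cov (nat_lit 66869464859426160643)) (.alt (nat_lit 25) (.exp (.alt (nat_lit 9) (.exp (.alt (nat_lit 24) (.cov (nat_lit 64563613054118395905)) (.alt (nat_lit 29) (.cov (nat_lit 185014943759)) .e))) .e)) (.alt (nat_lit 25) (.exp (.alt (nat_lit 24) (.cov (nat_lit 64563613054084841474)) (.alt (nat_lit 9) (.cov (nat_lit 28093448259)) .e))) .e)))) .e)) .e)) .e)) (.alt (nat_lit 17) (.cov (nat_lit 795521465479285702657)) (.alt (nat_lit 17) (.exp (.alt (nat_lit 19) (.exp (.alt (nat_lit 18) (.exp (.alt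 (nat_lit 26) (.exp (.alt (nat_lit 10) (.exp (.alt (nat_lit 30) (.exp (.alt (nat_lit 27) (.cov (nat_lit 426580965500671492097)) (.alt (nat_lit 27) (.exp (.alt (nat_lit 25) (.cov (nat_lit 102068140813839309471744)) (.alt (nat_lit 11) (.cov (nat_lit 10344202248)) .e))) .e))) .e)) .e)) .e)) .e)) (.alt (nat_lit 19) (.cov (nat_lit 29060539873931013652483)) (.alt (nat_lit 19) (.exp (.alt (nat_lit 18) (.exp (.alt (nat_lit 27) (.cov (nat_lit 71481166270984880130)) (.alt (nat_lit 27) (.cov (nat_lit 6712309147155666305025)) (.alt (nat_lit 27) (.exp (.alt (nat_lit 11) (.cov (nat_lit 3859981215036555132931)) (.alt (nat_lit 25) (.exp (.alt (nat_lit 9) (.exp (.alt (nat_lit 24) (.cov (nat_lit 64563613054118395905)) (.alt (nat_lit 29) (.cov (nat_lit 185014943759)) .e))) .e)) (.alt (nat_lit 25) (.exp (.alt (nat_lit 24) (.cov (nat_lit 64563613054084841474)) (.alt (nat_lit 9) (.cov (nat_lit 28093448259)) .e))) .e)))) .e)))) .e)) (.alt (nat_lit 21) (.cov (nat_lit 19055775626)) .e))))) .e))))) .e)) .e)) .e)) .e)) .e)) .e)) (.alt (nat_lit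 5) (.cov (nat_lit 39214772698819330069)) .e))) .e)) .e))) .e))) .e)))]),
   ([11, 11, 1], [.cov (nat_lit 76059036013732975361666645493457), .cov (nat_lit 76059036013732975361666645493457), .cov (nat_lit 76059036013732975361666645493457), .cov (nat_lit 76059036013732975361666645493457), .cov (nat_lit 76059036420594354548177295643958), .cov (nat_lit 76059036013732975361659699727135), .cov (nat_lit 76059036013732975361659699727135), .cov (nat_lit 76059036013732975361659699727135), .cov (nat_lit 76059036420594354548177295643958), .cov (nat_lit 76059036055348824312051801265462), .cov (nat_lit 76059036015356291874794340616992), .cov (nat_lit 76059036015356291874794340616992), .cov (nat_lit 76059036420594354548177295643958), .cov (nat_lit 76059036055348824312051801265462), .cov (nat_lit 76059036039189476505499794938522), .rot (.rot (.exp (.alt (nat_lit 15) (.exp (.alt (nat_lit 0) (.cov (nat_lit 3169164364129051614870922774708235)) (.alt (nat_lit 0) (.cov (nat_lit 58337313161950588484741172750712838)) (.alt (nat_lit 0) (.cov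 (nat_lit 50548867893491805791989200486137858)) (.alt (nat_lit 0) (.cov (nat_lit 1708825596912157446120811792433153)) (.alt (nat_lit 0) (.cov (nat_lit 897522892508232917114271915048960)) (.alt (nat_lit 0) (.exp (.alt (nat_lit 1) (.cov (nat_lit 86226498684406945271776701054983)) (.alt (nat_lit 1) (.cov (nat_lit 50548867893501179043689712757768195)) (.alt (nat_lit 1) (.cov (nat_lit 224815331401500846902755512779014145)) (.alt (nat_lit 1) (.exp (.alt (nat_lit 3) (.exp (.alt (nat_lit 5) (.cov (nat_lit 99875688122107491099165249753841666)) (.alt (nat_lit 5) (.cov (nat_lit 86226498684351605030759477280769)) (.alt (nat_lit 5) (.cov (nat_lit 86226498686270066436415500058624)) (.alt (nat_lit 5) (.cov (nat_lit 61798913309153952792670)) .e))))) .e)) (.alt (nat_lit 1) (.cov (nat_lit 365358530918596593320440)) .e)))))) .e))))))) .e)))]),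
   ([11, 8, 4], [.cov (nat_lit 63843954859315665834840323113620790), .cov (nat_lit 8513541465389612196770738304193846), .cov (nat_lit 63843954859313304652111260709557558), .cov (nat_lit 8513541465387251014041675900130614), .cov (nat_lit 63843954859254127496612442087103051), .cov (nat_lit 8513541465328073858542867142674129), .cov (nat_lit 63843954859315665834840323113620790), .cov (nat_lit 8513541465389612196770738304193846), .cov (nat_lit 63843954859313304652111260709557558), .cov (nat_lit 8513541465387251014041675900130614), .cov (nat_lit 63843954859254127496612442087103051), .cov (nat_lit 8513541465328073858542867243338530), .cov (nat_lit 63843954859315665834840323113620790), .cov (nat_lit 8513541465389612196770738304193846), .cov (nat_lit 63843954859313304652111260709557558), .cov (nat_lit 8513541465387251014041675900130614), .cov (nat_lit 63843954859254127496612442087103051), .cov (nat_lit 8513541465328073858542878450520116), .cov (nat_lit 63843954859315665834840323113620790), .cov (nat_lit 8513541465389612196770738304193846),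 .cov (nat_lit 63843954859313304652111260709557558), .cov (nat_lit 8513541465387251014041675900130614), .cov (nat_lit 63843954859254127496612442087103051), .rot (.rot (.exp (.alt (nat_lit 15) (.exp (.alt (nat_lit 7) (.exp (.alt (nat_lit 3) (.exp (.alt (nat_lit 5) (.rot (.exp (.alt (nat_lit 17) (.cov (nat_lit 894697678694153107081054470961889282)) (.alt (nat_lit 17) (.cov (nat_lit 894697678694176718913479786823155713)) (.alt (nat_lit 17) (.cov (nat_lit 894697678694178056302440367539617792)) (.alt (nat_lit 17) (.cov (nat_lit 10182617523716497604702)) .e)))))) .e)) .e)) .e)) .e)))]),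
   ([11, 4, 8], [.cov (nat_lit 894773712545851344804070065266758966), .cov (nat_lit 889581416814035381056373959763694902), .cov (nat_lit 64006215185114627517649168183068369), .cov (nat_lit 894773712545826183445155724461610294), .cov (nat_lit 889581416814010219697459618958546230), .cov (nat_lit 64006215185089466158734827377919697), .cov (nat_lit 894773712545851344804070065266758966), .cov (nat_lit 889581416814035381056373959763694902), .cov (nat_lit 64006215185114627517648984975870751), .cov (nat_lit 894773712545826183445155724461610294), .cov (nat_lit 889581416814010219697459618958546230), .cov (nat_lit 64006215185089466158734644170722079), .cov (nat_lit 894773712545851344804070065266758966), .cov (nat_lit 889581416814035381056373959763694902), .cov (nat_lit 64006215185114627517648984405445414), .cov (nat_lit 894773712545826183445155724461610294), .cov (nat_lit 889581416814010219697459618958546230), .cov (nat_lit 759449475675097941655037996936729927), .cov (nat_lit 894773712545851344804070065266758966), .cov (nat_lit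 889581416814035381056373959763694902), .cov (nat_lit 64006215185114627517648984405448006), .cov (nat_lit 894773712545826183445155724461610294), .cov (nat_lit 889581416814010219697459618958546230), .rot (.exp (.alt (nat_lit 17) (.exp (.alt (nat_lit 1) (.exp (.alt (nat_lit 3) (.exp (.alt (nat_lit 5) (.exp (.alt (nat_lit 15) (.cov (nat_lit 1298106749245470444824775600635906)) (.alt (nat_lit 15) (.cov (nat_lit 894697678694558100735517713356554241)) (.alt (nat_lit 15) (.cov (nat_lit 894697678694153056352534472676081664)) (.alt (nat_lit 15) (.cov (nat_lit 6640842685937117823070)) .e))))) .e)) .e)) .e)) .e))]),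
   ([11, 1, 11], [.cov (nat_lit 894773751274969903696633240599135953), .cov (nat_lit 894773751274969903696633240599135953), .cov (nat_lit 894773751274969903696633240599135953), .cov (nat_lit 894773751274969903696633240599135953), .cov (nat_lit 3808062205759325313478220012587807), .cov (nat_lit 3808062205759325313478220012587807), .cov (nat_lit 3808062205759325313478220012587807), .cov (nat_lit 3808062205759325313478220012587807), .cov (nat_lit 562869797640699356094430776920864), .cov (nat_lit 562869797640699356094430776920864), .cov (nat_lit 562869797640699356094430776920864), .cov (nat_lit 562869797640699356094430776920864), .cov (nat_lit 894773719910598439614693747774720804), .cov (nat_lit 3483517616674447366041139366857508), .cov (nat_lit 894773731545300527585884925146958628), .rot (.exp (.alt (nat_lit 17) (.rot (.exp (.alt (nat_lit 0) (.cov (nat_lit 105382362629719298954804540852928523)) (.alt (nat_lit 0) (.cov (nat_lit 6241944264247285037652432692183046)) (.alt (nat_lit 0) (.cov (nat_lit 6241944264246325807125697197506562))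 (.alt (nat_lit 0) (.cov (nat_lit 894611485126609336157625190581272577)) (.alt (nat_lit 0) (.cov (nat_lit 3808055750121917343771345546117120)) (.alt (nat_lit 0) (.exp (.alt (nat_lit 1) (.cov (nat_lit 725109939935859498586235194048519)) (.alt (nat_lit 1) (.cov (nat_lit 3159011563354355998275686544441347)) (.alt (nat_lit 1) (.cov (nat_lit 56217795096215204511466197424799745)) (.alt (nat_lit 1) (.exp (.alt (nat_lit 3) (.exp (.alt (nat_lit 5) (.cov (nat_lit 9487129767305270563490165803712514)) (.alt (nat_lit 5) (.cov (nat_lit 1698678062581426251461082427162625)) (.alt (nat_lit 5) (.cov (nat_lit 47293534875387566663310599775059968)) (.alt (nat_lit 5) (.cov (nat_lit 182173547223286022238)) .e))))) .e)) (.alt (nat_lit 1) (.cov (nat_lit 5125903811126508913144)) .e)))))) .e)))))))) .e))]),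
   ([12, 10, 1], [.cov (nat_lit 76059036418159384176516006943598), .cov (nat_lit 76059036059259531480621993958254), .cov (nat_lit 76059036357801637571555978383480), .cov (nat_lit 76059036418011808811972978282616), .cov (nat_lit 76059036418159384176516006943598), .cov (nat_lit 76059036059259531480621993958254), .cov (nat_lit 76059036015282493613112322694010), .cov (nat_lit 76059036039263259492763226348410), .cov (nat_lit 76059036418159384176516006943598), .cov (nat_lit 76059036059259531480621993958254), .cov (nat_lit 76059036015282493613267813930417), .cov (nat_lit 76059036039263259492919254455729), .cov (nat_lit 76059036418159384176516006943598), .cov (nat_lit 76059036059259531480621993958254), .cov (nat_lit 76059036015282493613112658241154), .cov (nat_lit 76059036039263259492772688701058), .cov (nat_lit 76059036418159384176516006943598), .cov (nat_lit 76059036059259531480621993958254), .cov (nat_lit 76059036023841785234044770851694), .rot (.rot (.exp (.alt (nat_lit 15) (.rot (.exp (.alt (nat_lit 17) (.cov (nat_lit 894697686392995391140052412713140226))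 (.alt (nat_lit 17) (.exp (.alt (nat_lit 1) (.cov (nat_lit 894697686392997706206409291893571591)) (.alt (nat_lit 1) (.exp (.alt (nat_lit 3) (.exp (.alt (nat_lit 5) (.exp (.alt (nat_lit 7) (.exp (.alt (nat_lit 23) (.exp (.alt (nat_lit 6) (.exp (.alt (nat_lit 21) (.exp (.alt (nat_lit 20) (.exp (.alt (nat_lit 29) (.exp (.alt (nat_lit 0) (.cov (nat_lit 344326925027209103015947)) (.alt (nat_lit 0) (.exp (.alt (nat_lit 2) (.exp (.alt (nat_lit 18) (.exp (.alt (nat_lit 10) (.exp (.alt (nat_lit 8) (.cov (nat_lit 3864592901218191278083)) (.alt (nat_lit 8) (.exp (.alt (nat_lit 9) (.exp (.alt (nat_lit 24) (.cov (nat_lit 404343406732472669437953)) (.alt (nat_lit 12) (.cov (nat_lit 734003215)) .e))) .e)) (.alt (nat_lit 8) (.exp (.alt (nat_lit 24) (.cov (nat_lit 404343406732656480616450)) (.alt (nat_lit 9) (.cov (nat_lit 3046113347)) .e))) .e)))) .e)) .e)) .e)) (.alt (nat_lit 0) (.cov (nat_lit 404297295490792804057089)) (.alt (nat_lit 0) (.exp (.alt (nat_lit 2) (.exp (.alt (nat_lit 18) (.exp (.alt (nat_lit 26) (.exp (.alt (nat_lit 27)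 (.exp (.alt (nat_lit 30) (.exp (.alt (nat_lit 10) (.cov (nat_lit 45397437174195344637953)) (.alt (nat_lit 10) (.exp (.alt (nat_lit 8) (.cov (nat_lit 343868062132024094228480)) (.alt (nat_lit 11) (.cov (nat_lit 47556067336)) .e))) .e))) .e)) .e)) .e)) .e)) (.alt (nat_lit 2) (.cov (nat_lit 29021340542774380855299)) (.alt (nat_lit 2) (.exp (.alt (nat_lit 18) (.exp (.alt (nat_lit 10) (.cov (nat_lit 26521806325145112936450)) (.alt (nat_lit 10) (.cov (nat_lit 61791981108243173736449)) (.alt (nat_lit 10) (.exp (.alt (nat_lit 11) (.cov (nat_lit 62257778841569198083)) (.alt (nat_lit 8) (.exp (.alt (nat_lit 9) (.exp (.alt (nat_lit 24) (.cov (nat_lit 404343406732472669437953)) (.alt (nat_lit 12) (.cov (nat_lit 734003215)) .e))) .e)) (.alt (nat_lit 8) (.exp (.alt (nat_lit 24) (.cov (nat_lit 404343406732656480616450)) (.alt (nat_lit 9) (.cov (nat_lit 3046113347)) .e))) .e)))) .e)))) .e)) (.alt (nat_lit 4) (.cov (nat_lit 9776926602)) .e))))) .e))))) .e)) .e)) .e)) .e)) .e)) .e)) (.alt (nat_lit 5) (.cov (nat_lit 406861402731291230601237))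 .e))) .e)) .e))) .e)))) .e)))]),
   ([12, 1, 10], [.cov (nat_lit 889419163436735169130675688764873582), .cov (nat_lit 100190040944277072872498763422243694), .cov (nat_lit 91590299282000171169661998461882493), .cov (nat_lit 55730995988551106532838530518880381), .cov (nat_lit 889419163436735169130675688764873582), .cov (nat_lit 100190040944277072872498763422243694), .cov (nat_lit 91590299282000171169662023761924218), .cov (nat_lit 55730995988551106532838529445138554), .cov (nat_lit 889419163436735169130675688764873582), .cov (nat_lit 100190040944277072872498763422243694), .cov (nat_lit 91590299282000171169661980778696827), .cov (nat_lit 55730995988551106532838486461911163), .cov (nat_lit 889419163436735169130675688764873582), .cov (nat_lit 100190040944277072872498763422243694), .cov (nat_lit 91590299282000171169661977389703369), .cov (nat_lit 55730995988551106532838482938699977), .cov (nat_lit 889419163436735169130675688764873582), .cov (nat_lit 100190040944277072872498763422243694), .cov (nat_lit 22305593288814199179739353214622574),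 .rot (.exp (.alt (nat_lit 17) (.exp (.alt (nat_lit 15) (.cov (nat_lit 894697686392616388947999994678345730)) (.alt (nat_lit 15) (.exp (.alt (nat_lit 7) (.cov (nat_lit 894697686392595119852058654058479623)) (.alt (nat_lit 7) (.exp (.alt (nat_lit 3) (.exp (.alt (nat_lit 5) (.exp (.alt (nat_lit 21) (.exp (.alt (nat_lit 23) (.exp (.alt (nat_lit 29) (.exp (.alt (nat_lit 13) (.exp (.alt (nat_lit 9) (.exp (.alt (nat_lit 12) (.exp (.alt (nat_lit 0) (.cov (nat_lit 404297290008812767412235)) (.alt (nat_lit 0) (.exp (.alt (nat_lit 16) (.exp (.alt (nat_lit 20) (.exp (.alt (nat_lit 18) (.exp (.alt (nat_lit 2) (.cov (nat_lit 343870367981649900077059)) (.alt (nat_lit 2) (.exp (.alt (nat_lit 6) (.exp (.alt (nat_lit 10) (.cov (nat_lit 59951927192027398145)) (.alt (nat_lit 10) (.exp (.alt (nat_lit 26) (.cov (nat_lit 136044748538755678208)) (.alt (nat_lit 14) (.cov (nat_lit 635437064)) .e))) .e))) .e)) (.alt (nat_lit 2) (.cov (nat_lit 648020585)) .e)))) .e)) .e)) .e)) (.alt (nat_lit 0) (.cov (nat_lit 6603940014640991305729)) (.alt (nat_lit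 0) (.exp (.alt (nat_lit 16) (.exp (.alt (nat_lit 20) (.exp (.alt (nat_lit 22) (.exp (.alt (nat_lit 6) (.exp (.alt (nat_lit 18) (.exp (.alt (nat_lit 24) (.cov (nat_lit 45438942348361205809153)) (.alt (nat_lit 24) (.exp (.alt (nat_lit 26) (.cov (nat_lit 45402048862412778504192)) (.alt (nat_lit 25) (.cov (nat_lit 47574941704)) .e))) .e))) .e)) .e)) .e)) .e)) (.alt (nat_lit 8) (.cov (nat_lit 384305631402420351270915)) (.alt (nat_lit 8) (.exp (.alt (nat_lit 24) (.exp (.alt (nat_lit 10) (.cov (nat_lit 347615057043986761908226)) (.alt (nat_lit 10) (.cov (nat_lit 21771769838287608348673)) (.alt (nat_lit 10) (.exp (.alt (nat_lit 2) (.cov (nat_lit 43105429231835885338627)) (.alt (nat_lit 26) (.exp (.alt (nat_lit 27) (.exp (.alt (nat_lit 18) (.cov (nat_lit 365370048190743375249409)) (.alt (nat_lit 18) (.exp (.alt (nat_lit 22) (.cov (nat_lit 63101699801137085939712)) (.alt (nat_lit 16) (.cov (nat_lit 12134121480)) .e))) .e))) .e)) (.alt (nat_lit 2) (.cov (nat_lit 4649386601)) .e)))) .e)))) .e)) (.alt (nat_lit 4) (.cov (nat_lit 3477081994))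 .e))))) .e))))) .e)) .e)) .e)) .e)) .e)) .e)) (.alt (nat_lit 5) (.cov (nat_lit 406861402731291230601237)) .e))) .e)) .e))) .e))) .e))]),
   ([14, 8, 1], [.cov (nat_lit 76059036420594351198880630058684), .cov (nat_lit 76059036418233168469830070709948), .cov (nat_lit 76059036359056012971185226652669), .cov (nat_lit 76059036420594351198880630058684), .cov (nat_lit 76059036418233168469830070709948), .cov (nat_lit 76059036359056012971193816591146), .cov (nat_lit 76059036420594351198880630058684), .cov (nat_lit 76059036418233168469830070709948), .cov (nat_lit 76059036359056012971193816591146), .cov (nat_lit 76059036420594351198880630058684), .cov (nat_lit 76059036418233168469830070709948), .cov (nat_lit 76059036359056012971183951590136), .cov (nat_lit 76059036420594351198880630058684), .cov (nat_lit 76059036418233168469830070709948), .rot (.rot (.exp (.alt (nat_lit 15) (.rot (.exp (.alt (nat_lit 17) (.cov (nat_lit 105468588363984752468096941651132418)) (.alt (nat_lit 17) (.cov (nat_lit 55654989700415261412920014868054017))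 (.alt (nat_lit 17) (.cov (nat_lit 486835351203642283795361639170048)) (.alt (nat_lit 17) (.cov (nat_lit 28998307830258281218142)) .e)))))) .e)))]),
   ([14, 1, 8], [.cov (nat_lit 894773712545822346522372814827172283), .cov (nat_lit 889581416814006382774676710364290045), .cov (nat_lit 64006215185085629235951965692763133), .cov (nat_lit 894773712545822346522372814827172283), .cov (nat_lit 889581416814006382774676720699056438), .cov (nat_lit 64006215185085629235951918716562194), .cov (nat_lit 894773712545822346522372814827172283), .cov (nat_lit 889581416814006382774676893135282487), .cov (nat_lit 64006215185085629235951918850781940), .cov (nat_lit 894773712545822346522372814827172283), .cov (nat_lit 889581416814006382774676709324107592), .cov (nat_lit 759449475675094104732255270945698549), .cov (nat_lit 894773712545822346522372814827172283), .cov (nat_lit 6241913755768832470926022926151365), .rot (.exp (.alt (nat_lit 17) (.exp (.alt (nat_lit 15) (.cov (nat_lit 803832517418194008279581529440518146)) (.alt (nat_lit 15) (.cov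 (nat_lit 649098675495232926876201873571841)) (.alt (nat_lit 15) (.cov (nat_lit 649098680353219872193195533139968)) (.alt (nat_lit 15) (.cov (nat_lit 406861413444932096491614)) .e))))) .e))]),
   ([15, 7, 1], [.cov (nat_lit 76059036039263257425681030590976), .cov (nat_lit 76059036039263257432278100357632), .cov (nat_lit 76059036056676983708302564140806), .cov (nat_lit 76059036039263257425681030590976), .cov (nat_lit 76059036039263257432278100357632), .cov (nat_lit 76059036056676983708129087729514), .cov (nat_lit 76059036039263257425681030590976), .cov (nat_lit 76059036039263257432278100357632), .cov (nat_lit 76059036056676983708129087730190), .cov (nat_lit 76059036039263257425681030590976), .cov (nat_lit 76059036039263257432278100357632), .cov (nat_lit 76059036056676983708302530589915), .cov (nat_lit 76059036039263257425681030590976), .cov (nat_lit 76059036039263257432278100357632), .cov (nat_lit 76059036056676983708130161472729), .cov (nat_lit 76059036039263257425681030590976), .cov (nat_lit 76059036039263257432278100357632),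 .rot (.rot (.exp (.alt (nat_lit 15) (.rot (.exp (.alt (nat_lit 17) (.exp (.alt (nat_lit 1) (.exp (.alt (nat_lit 3) (.exp (.alt (nat_lit 5) (.exp (.alt (nat_lit 19) (.exp (.alt (nat_lit 23) (.exp (.alt (nat_lit 27) (.exp (.alt (nat_lit 0) (.cov (nat_lit 365577575957151241732115)) (.alt (nat_lit 0) (.cov (nat_lit 45397442792884707262475)) (.alt (nat_lit 0) (.exp (.alt (nat_lit 16) (.exp (.alt (nat_lit 18) (.exp (.alt (nat_lit 20) (.exp (.alt (nat_lit 4) (.cov (nat_lit 104583815666662553681927)) (.alt (nat_lit 4) (.cov (nat_lit 350146873063946923802627)) (.alt (nat_lit 2) (.cov (nat_lit 406810662185006570405888)) (.alt (nat_lit 2) (.cov (nat_lit 11016344532)) .e))))) .e)) .e)) .e)) (.alt (nat_lit 0) (.cov (nat_lit 29108971421751106863105)) (.alt (nat_lit 0) (.exp (.alt (nat_lit 16) (.cov (nat_lit 21970072620755771719714)) (.alt (nat_lit 16) (.cov (nat_lit 45568072989599986614279)) (.alt (nat_lit 16) (.cov (nat_lit 1383508074920941715459)) (.alt (nat_lit 16) (.exp (.alt (nat_lit 18) (.exp (.alt (nat_lit 20) (.cov (nat_lit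 21702594668813176799243)) (.alt (nat_lit 20) (.exp (.alt (nat_lit 4) (.exp (.alt (nat_lit 6) (.exp (.alt (nat_lit 12) (.exp (.alt (nat_lit 28) (.cov (nat_lit 26544864739825785241603)) (.alt (nat_lit 28) (.exp (.alt (nat_lit 29) (.exp (.alt (nat_lit 24) (.cov (nat_lit 45438942348517535907841)) (.alt (nat_lit 30) (.cov (nat_lit 183871995919)) .e))) .e)) (.alt (nat_lit 28) (.exp (.alt (nat_lit 24) (.cov (nat_lit 45438942348381808230402)) (.alt (nat_lit 29) (.cov (nat_lit 4623171651)) .e))) .e)))) .e)) .e)) .e)) (.alt (nat_lit 20) (.cov (nat_lit 45443559653040378085377)) (.alt (nat_lit 20) (.exp (.alt (nat_lit 4) (.cov (nat_lit 104583815666662553681927)) (.alt (nat_lit 4) (.cov (nat_lit 350146873063946923802627)) (.alt (nat_lit 4) (.exp (.alt (nat_lit 6) (.exp (.alt (nat_lit 12) (.cov (nat_lit 26507971266926624112642)) (.alt (nat_lit 12) (.cov (nat_lit 26507971377013514567681)) (.alt (nat_lit 12) (.exp (.alt (nat_lit 13) (.cov (nat_lit 66869464859426160643)) (.alt (nat_lit 8) (.exp (.alt (nat_lit 9) (.exp (.alt (nat_lit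 24) (.cov (nat_lit 45438942348361175400449)) (.alt (nat_lit 10) (.cov (nat_lit 731906063)) .e))) .e)) (.alt (nat_lit 8) (.exp (.alt (nat_lit 24) (.cov (nat_lit 45438942348381808230402)) (.alt (nat_lit 9) (.cov (nat_lit 361758787)) .e))) .e)))) .e)))) .e)) (.alt (nat_lit 21) (.cov (nat_lit 28820115335)) .e))))) .e))))) .e)) (.alt (nat_lit 16) (.cov (nat_lit 174770366906)) .e)))))) .e)))))) .e)) .e)) .e)) .e)) .e)) .e)) (.alt (nat_lit 17) (.exp (.alt (nat_lit 1) (.exp (.alt (nat_lit 3) (.exp (.alt (nat_lit 5) (.exp (.alt (nat_lit 7) (.exp (.alt (nat_lit 23) (.exp (.alt (nat_lit 6) (.exp (.alt (nat_lit 0) (.cov (nat_lit 81912768963671209541653)) (.alt (nat_lit 0) (.cov (nat_lit 378163889654063955979)) (.alt (nat_lit 0) (.cov (nat_lit 343865768218716750741506)) (.alt (nat_lit 0) (.cov (nat_lit 63327690744898892333057)) (.alt (nat_lit 0) (.exp (.alt (nat_lit 16) (.cov (nat_lit 6686946090298000801826)) (.alt (nat_lit 4) (.cov (nat_lit 350146876076600812634119)) (.alt (nat_lit 4) (.cov (nat_lit 344317710248954573094915)) (.alt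 (nat_lit 4) (.exp (.alt (nat_lit 20) (.exp (.alt (nat_lit 12) (.cov (nat_lit 25447283592665252233227)) (.alt (nat_lit 12) (.exp (.alt (nat_lit 28) (.exp (.alt (nat_lit 29) (.exp (.alt (nat_lit 30) (.exp (.alt (nat_lit 8) (.cov (nat_lit 345198533555121306992643)) (.alt (nat_lit 8) (.exp (.alt (nat_lit 9) (.exp (.alt (nat_lit 24) (.cov (nat_lit 102107340142796938936321)) (.alt (nat_lit 24) (.exp (.alt (nat_lit 26) (.cov (nat_lit 343909567306189947011072)) (.alt (nat_lit 16) (.cov (nat_lit 10521411592)) .e))) .e))) .e)) (.alt (nat_lit 14) (.cov (nat_lit 9808380099)) .e)))) .e)) .e)) .e)) (.alt (nat_lit 12) (.cov (nat_lit 21711823415250855657473)) (.alt (nat_lit 12) (.exp (.alt (nat_lit 28) (.exp (.alt (nat_lit 29) (.exp (.alt (nat_lit 25) (.exp (.alt (nat_lit 9) (.exp (.alt (nat_lit 24) (.exp (.alt (nat_lit 30) (.cov (nat_lit 102107340142797515653121)) (.alt (nat_lit 30) (.exp (.alt (nat_lit 26) (.cov (nat_lit 102070446656848511631360)) (.alt (nat_lit 22) (.cov (nat_lit 10521411592)) .e))) .e))) .e)) .e)) .e)) .e)) (.alt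 (nat_lit 14) (.cov (nat_lit 21568855936994493071363)) (.alt (nat_lit 14) (.exp (.alt (nat_lit 30) (.exp (.alt (nat_lit 10) (.cov (nat_lit 26514888795945118466050)) (.alt (nat_lit 10) (.cov (nat_lit 59952061176112742401)) (.alt (nat_lit 10) (.exp (.alt (nat_lit 11) (.cov (nat_lit 22747141303488190873603)) (.alt (nat_lit 26) (.exp (.alt (nat_lit 18) (.exp (.alt (nat_lit 27) (.cov (nat_lit 102105034299787740971009)) (.alt (nat_lit 27) (.exp (.alt (nat_lit 25) (.cov (nat_lit 102068140813839309471744)) (.alt (nat_lit 31) (.cov (nat_lit 159246188552)) .e))) .e))) .e)) (.alt (nat_lit 11) (.cov (nat_lit 166256968297)) .e)))) .e)))) .e)) (.alt (nat_lit 13) (.cov (nat_lit 19055775626)) .e))))) .e))))) .e)) (.alt (nat_lit 4) (.cov (nat_lit 255862445)) .e)))))) .e)))))) .e)) .e)) .e)) .e)) .e)) .e)) .e)))) .e)))]),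
   ([15, 4, 4], [.cov (nat_lit 63843954858937802728759283387741381), .cov (nat_lit 8513541465011749090689881751958565), .cov (nat_lit 63843954858912641369844942515483780), .cov (nat_lit 8513541464986587731775358947567366), .cov (nat_lit 63843954858937802728759283387741381), .cov (nat_lit 8513541465011749090689881751958565), .cov (nat_lit 63843954858912641369844942515483780), .cov (nat_lit 8513541464986587731775368577692180), .cov (nat_lit 63843954858937802728759283387741381), .cov (nat_lit 8513541465011749090689881751958565), .cov (nat_lit 63843954858912641369844942515483780), .cov (nat_lit 8513541464986587731775368577692894), .cov (nat_lit 63843954858937802728759283387741381), .cov (nat_lit 8513541465011749090689881751958565), .cov (nat_lit 63843954858912641369844942515483780), .cov (nat_lit 8513541464986587731775368577693145), .cov (nat_lit 63843954858937802728759283387741381), .cov (nat_lit 8513541465011749090689881751958565), .cov (nat_lit 63843954858912641369844942515483780), .cov (nat_lit 894611452229320765213182872560612569),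 .cov (nat_lit 63843954858937802728759283387741381), .cov (nat_lit 8513541465011749090689881751958565), .cov (nat_lit 63843954858912641369844942515483780), .rot (.exp (.alt (nat_lit 17) (.exp (.alt (nat_lit 1) (.exp (.alt (nat_lit 3) (.exp (.alt (nat_lit 5) (.exp (.alt (nat_lit 15) (.exp (.alt (nat_lit 7) (.exp (.alt (nat_lit 23) (.exp (.alt (nat_lit 6) (.exp (.alt (nat_lit 0) (.cov (nat_lit 81912768963671209541653)) (.alt (nat_lit 0) (.cov (nat_lit 378163889654063955979)) (.alt (nat_lit 0) (.cov (nat_lit 343865768218716750741506)) (.alt (nat_lit 0) (.cov (nat_lit 63327690744898892333057)) (.alt (nat_lit 0) (.exp (.alt (nat_lit 16) (.cov (nat_lit 6686946090298000801826)) (.alt (nat_lit 4) (.cov (nat_lit 350146876076600812634119)) (.alt (nat_lit 4) (.cov (nat_lit 344317710248954573094915)) (.alt (nat_lit 4) (.exp (.alt (nat_lit 20) (.exp (.alt (nat_lit 12) (.cov (nat_lit 25447283592665252233227)) (.alt (nat_lit 12) (.exp (.alt (nat_lit 28) (.exp (.alt (nat_lit 29) (.exp (.alt (nat_lit 30) (.exp (.alt (nat_lit 8) (.cov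 (nat_lit 345198533555121306992643)) (.alt (nat_lit 8) (.exp (.alt (nat_lit 9) (.exp (.alt (nat_lit 24) (.cov (nat_lit 102107340142796938936321)) (.alt (nat_lit 24) (.exp (.alt (nat_lit 26) (.cov (nat_lit 343909567306189947011072)) (.alt (nat_lit 16) (.cov (nat_lit 10521411592)) .e))) .e))) .e)) (.alt (nat_lit 14) (.cov (nat_lit 9808380099)) .e)))) .e)) .e)) .e)) (.alt (nat_lit 12) (.cov (nat_lit 21711823415250855657473)) (.alt (nat_lit 12) (.exp (.alt (nat_lit 28) (.exp (.alt (nat_lit 29) (.exp (.alt (nat_lit 25) (.exp (.alt (nat_lit 9) (.exp (.alt (nat_lit 24) (.exp (.alt (nat_lit 30) (.cov (nat_lit 102107340142797515653121)) (.alt (nat_lit 30) (.exp (.alt (nat_lit 26) (.cov (nat_lit 102070446656848511631360)) (.alt (nat_lit 22) (.cov (nat_lit 10521411592)) .e))) .e))) .e)) .e)) .e)) .e)) (.alt (nat_lit 14) (.cov (nat_lit 21568855936994493071363)) (.alt (nat_lit 14) (.exp (.alt (nat_lit 30) (.exp (.alt (nat_lit 10) (.cov (nat_lit 26514888795945118466050)) (.alt (nat_lit 10) (.cov (nat_lit 59952061176112742401)) (.alt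 (nat_lit 10) (.exp (.alt (nat_lit 11) (.cov (nat_lit 22747141303488190873603)) (.alt (nat_lit 26) (.exp (.alt (nat_lit 18) (.exp (.alt (nat_lit 27) (.cov (nat_lit 102105034299787740971009)) (.alt (nat_lit 27) (.exp (.alt (nat_lit 25) (.cov (nat_lit 102068140813839309471744)) (.alt (nat_lit 31) (.cov (nat_lit 159246188552)) .e))) .e))) .e)) (.alt (nat_lit 11) (.cov (nat_lit 166256968297)) .e)))) .e)))) .e)) (.alt (nat_lit 13) (.cov (nat_lit 19055775626)) .e))))) .e))))) .e)) (.alt (nat_lit 4) (.cov (nat_lit 255862445)) .e)))))) .e)))))) .e)) .e)) .e)) .e)) .e)) .e)) .e)) .e))]),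
   ([15, 1, 7], [.cov (nat_lit 56217769273477664872007704489505551), .cov (nat_lit 56217769287984774707383254585979663), .cov (nat_lit 94510958334372635038743006944436547), .cov (nat_lit 56217769273477664872007704489505551), .cov (nat_lit 56217769287984774707383254585979663), .cov (nat_lit 94510958334372635038743024157864466), .cov (nat_lit 56217769273477664872007704489505551), .cov (nat_lit 56217769287984774707383254585979663), .cov (nat_lit 94510958334372635038742995502380504), .cov (nat_lit 56217769273477664872007704489505551), .cov (nat_lit 56217769287984774707383254585979663), .cov (nat_lit 94510958334372635038742995502380788), .cov (nat_lit 56217769273477664872007704489505551), .cov (nat_lit 56217769287984774707383254585979663), .cov (nat_lit 844797854392655227361399715074684661), .cov (nat_lit 56217769273477664872007704489505551), .cov (nat_lit 56217769287984774707383254585979663), .rot (.exp (.alt (nat_lit 17) (.exp (.alt (nat_lit 15) (.exp (.alt (nat_lit 7) (.exp (.alt (nat_lit 3) (.exp (.alt (nat_lit 5) (.exp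 (.alt (nat_lit 11) (.exp (.alt (nat_lit 9) (.exp (.alt (nat_lit 27) (.exp (.alt (nat_lit 0) (.cov (nat_lit 43100819432760426889234)) (.alt (nat_lit 0) (.cov (nat_lit 3846147245662133026827)) (.alt (nat_lit 0) (.exp (.alt (nat_lit 16) (.exp (.alt (nat_lit 18) (.exp (.alt (nat_lit 24) (.exp (.alt (nat_lit 4) (.cov (nat_lit 636412811292023193607)) (.alt (nat_lit 4) (.cov (nat_lit 29118185949160779284483)) (.alt (nat_lit 2) (.cov (nat_lit 43105432655712200163328)) (.alt (nat_lit 2) (.cov (nat_lit 710939607)) .e))))) .e)) .e)) .e)) (.alt (nat_lit 0) (.cov (nat_lit 22763291460395021107201)) (.alt (nat_lit 0) (.exp (.alt (nat_lit 16) (.cov (nat_lit 41883333776166956826658)) (.alt (nat_lit 16) (.cov (nat_lit 365508402203971167453191)) (.alt (nat_lit 16) (.cov (nat_lit 705596728344055906307)) (.alt (nat_lit 16) (.exp (.alt (nat_lit 18) (.exp (.alt (nat_lit 20) (.cov (nat_lit 29120491618468244750347)) (.alt (nat_lit 20) (.cov (nat_lit 4288869901503107694594)) (.alt (nat_lit 20) (.cov (nat_lit 21555026095022363639809)) (.alt (nat_lit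 20) (.exp (.alt (nat_lit 22) (.exp (.alt (nat_lit 6) (.exp (.alt (nat_lit 14) (.exp (.alt (nat_lit 10) (.exp (.alt (nat_lit 12) (.exp (.alt (nat_lit 30) (.cov (nat_lit 25306627034916444962817)) (.alt (nat_lit 23) (.cov (nat_lit 32505871)) .e))) .e)) .e)) .e)) .e)) (.alt (nat_lit 4) (.cov (nat_lit 3864593312408055840771)) (.alt (nat_lit 22) (.exp (.alt (nat_lit 23) (.exp (.alt (nat_lit 30) (.exp (.alt (nat_lit 28) (.exp (.alt (nat_lit 24) (.exp (.alt (nat_lit 29) (.exp (.alt (nat_lit 14) (.cov (nat_lit 25405778286511602532352)) (.alt (nat_lit 26) (.cov (nat_lit 1352663048)) .e))) .e)) .e)) .e)) (.alt (nat_lit 6) (.cov (nat_lit 404311125066692826234881)) (.alt (nat_lit 6) (.exp (.alt (nat_lit 14) (.cov (nat_lit 343874979667667727679491)) (.alt (nat_lit 14) (.exp (.alt (nat_lit 10) (.exp (.alt (nat_lit 30) (.cov (nat_lit 102111951828815376809985)) (.alt (nat_lit 30) (.exp (.alt (nat_lit 28) (.cov (nat_lit 364046494305653147828224)) (.alt (nat_lit 26) (.cov (nat_lit 159240945672)) .e))) .e))) .e)) (.alt (nat_lit 4) (.cov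 (nat_lit 1757413571)) .e)))) .e)))) .e)) (.alt (nat_lit 21) (.cov (nat_lit 1875906451)) .e))))) .e))))) .e)) (.alt (nat_lit 16) (.cov (nat_lit 18943584701)) .e)))))) .e)))))) .e)) .e)) .e)) .e)) .e)) .e)) (.alt (nat_lit 15) (.exp (.alt (nat_lit 7) (.exp (.alt (nat_lit 3) (.exp (.alt (nat_lit 5) (.exp (.alt (nat_lit 21) (.exp (.alt (nat_lit 23) (.exp (.alt (nat_lit 29) (.exp (.alt (nat_lit 0) (.cov (nat_lit 42095471880743755448339)) (.alt (nat_lit 0) (.cov (nat_lit 404297295490977743503371)) (.alt (nat_lit 0) (.exp (.alt (nat_lit 16) (.exp (.alt (nat_lit 20) (.exp (.alt (nat_lit 18) (.exp (.alt (nat_lit 2) (.cov (nat_lit 10131874323224378474503)) (.alt (nat_lit 2) (.cov (nat_lit 343870368392859195801603)) (.alt (nat_lit 2) (.exp (.alt (nat_lit 6) (.exp (.alt (nat_lit 10) (.cov (nat_lit 347628892102225705304066)) (.alt (nat_lit 10) (.cov (nat_lit 3855369658739899498497)) (.alt (nat_lit 10) (.exp (.alt (nat_lit 11) (.cov (nat_lit 62257778841569198083)) (.alt (nat_lit 8) (.exp (.alt (nat_lit 9) (.exp (.alt (nat_lit 24) (.cov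 (nat_lit 404343406732472636932097)) (.alt (nat_lit 12) (.cov (nat_lit 734003215)) .e))) .e)) (.alt (nat_lit 8) (.exp (.alt (nat_lit 24) (.cov (nat_lit 404343406732656480616450)) (.alt (nat_lit 9) (.cov (nat_lit 3046113347)) .e))) .e)))) .e)))) .e)) (.alt (nat_lit 1) (.cov (nat_lit 10444869511)) .e))))) .e)) .e)) .e)) (.alt (nat_lit 0) (.cov (nat_lit 22837078452083022102529)) (.alt (nat_lit 0) (.exp (.alt (nat_lit 16) (.cov (nat_lit 1900015068586054778914)) (.alt (nat_lit 16) (.cov (nat_lit 45568072989557036941319)) (.alt (nat_lit 16) (.cov (nat_lit 129129477908692205571)) (.alt (nat_lit 16) (.exp (.alt (nat_lit 20) (.exp (.alt (nat_lit 18) (.cov (nat_lit 1627925430598755155979)) (.alt (nat_lit 18) (.exp (.alt (nat_lit 2) (.exp (.alt (nat_lit 6) (.exp (.alt (nat_lit 10) (.exp (.alt (nat_lit 26) (.cov (nat_lit 347665785574815058362371)) (.alt (nat_lit 26) (.exp (.alt (nat_lit 27) (.exp (.alt (nat_lit 24) (.cov (nat_lit 404343406732472618057729)) (.alt (nat_lit 30) (.cov (nat_lit 20665335823)) .e))) .e)) (.alt (nat_lit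 26) (.exp (.alt (nat_lit 24) (.cov (nat_lit 404343406732656480616450)) (.alt (nat_lit 27) (.cov (nat_lit 47572844611)) .e))) .e)))) .e)) .e)) .e)) (.alt (nat_lit 18) (.cov (nat_lit 404338800665114986938369)) (.alt (nat_lit 18) (.exp (.alt (nat_lit 2) (.cov (nat_lit 10131874323224378474503)) (.alt (nat_lit 2) (.cov (nat_lit 29021340542792621883395)) (.alt (nat_lit 2) (.exp (.alt (nat_lit 6) (.exp (.alt (nat_lit 10) (.cov (nat_lit 406847552264851793379330)) (.alt (nat_lit 10) (.cov (nat_lit 26549476555577405472769)) (.alt (nat_lit 10) (.exp (.alt (nat_lit 11) (.cov (nat_lit 104576898014461480140803)) (.alt (nat_lit 26) (.exp (.alt (nat_lit 27) (.exp (.alt (nat_lit 24) (.cov (nat_lit 404343406732472618057729)) (.alt (nat_lit 30) (.cov (nat_lit 20665335823)) .e))) .e)) (.alt (nat_lit 26) (.exp (.alt (nat_lit 24) (.cov (nat_lit 404343406732656480616450)) (.alt (nat_lit 27) (.cov (nat_lit 47572844611)) .e))) .e)))) .e)))) .e)) (.alt (nat_lit 19) (.cov (nat_lit 1974472583)) .e))))) .e))))) .e)) (.alt (nat_lit 16) (.cov (nat_lit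 790631917)) .e)))))) .e)))))) .e)) .e)) .e)) .e)) .e)) .e)) .e))) .e))]),
   ([18, 4, 1], [.cov (nat_lit 76059036042731245118024514025834), .cov (nat_lit 76059036017569886203683708876528), .cov (nat_lit 76059036042731245118024514025834), .cov (nat_lit 76059036017569886203683708877118), .cov (nat_lit 76059036042731245118024514025834), .cov (nat_lit 76059036017569886203683708877119), .cov (nat_lit 76059036042731245118024514025834), .cov (nat_lit 76059036017569886203683708877298), .cov (nat_lit 76059036042731245118024514025834), .cov (nat_lit 76059036017569886203683708877299), .cov (nat_lit 76059036042731245118024514025834), .rot (.rot (.exp (.alt (nat_lit 15) (.rot (.exp (.alt (nat_lit 17) (.exp (.alt (nat_lit 1) (.exp (.alt (nat_lit 3) (.exp (.alt (nat_lit 5) (.exp (.alt (nat_lit 0) (.exp (.alt (nat_lit 16) (.cov (nat_lit 50016429655339490160258735321120771)) (.alt (nat_lit 16) (.cov (nat_lit 50016429650864974130765815586226178)) (.alt (nat_lit 16) (.cov (nat_lit 756168802411260345244229567623725057)) (.alt (nat_lit 16)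 (.cov (nat_lit 756168802416096048522731908424007680)) (.alt (nat_lit 16) (.cov (nat_lit 4224312283158894608481)) .e)))))) (.alt (nat_lit 0) (.cov (nat_lit 313600397511432863969)) (.alt (nat_lit 0) (.cov (nat_lit 41652759305051418132574)) (.alt (nat_lit 0) (.cov (nat_lit 343865768218728079556644)) (.alt (nat_lit 0) (.cov (nat_lit 25401186959062518988816)) (.alt (nat_lit 0) (.cov (nat_lit 1494195395928564695058)) (.alt (nat_lit 0) (.cov (nat_lit 21564256031328570441739)) (.alt (nat_lit 0) (.cov (nat_lit 2988396199245344931846)) (.alt (nat_lit 0) (.cov (nat_lit 2665580687046698074115)) (.alt (nat_lit 0) (.cov (nat_lit 2693248879176835923970)) (.alt (nat_lit 0) (.cov (nat_lit 36923247685502238721)) (.alt (nat_lit 0) (.cov (nat_lit 594938012222867111936)) (.alt (nat_lit 0) (.exp (.alt (nat_lit 16) (.exp (.alt (nat_lit 18) (.cov (nat_lit 47825928282081881642403969521156098)) (.alt (nat_lit 18) (.cov (nat_lit 180229498261460413727292236836634625)) (.alt (nat_lit 18) (.cov (nat_lit 3691404984591251595748540815507456)) (.alt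 (nat_lit 18) (.cov (nat_lit 1678656637791490801758)) .e))))) (.alt (nat_lit 16) (.cov (nat_lit 350491585480576991270)) (.alt (nat_lit 16) (.cov (nat_lit 45641862213432986566753)) (.alt (nat_lit 16) (.cov (nat_lit 3066779969944368971810)) (.alt (nat_lit 16) (.cov (nat_lit 336654205246876155939)) (.alt (nat_lit 16) (.cov (nat_lit 10237957835114168713231)) (.alt (nat_lit 16) (.cov (nat_lit 41671213299305858203655)) (.alt (nat_lit 16) (.cov (nat_lit 6682353227747978903558)) (.alt (nat_lit 16) (.cov (nat_lit 25350459818042573455363)) (.alt (nat_lit 16) (.cov (nat_lit 25350459818207493488642)) (.alt (nat_lit 16) (.cov (nat_lit 1890817436088352636929)) (.alt (nat_lit 16) (.cov (nat_lit 46147167122800771072)) (.alt (nat_lit 16) (.cov (nat_lit 18888396)) .e)))))))))))))) .e)))))))))))))) .e)) .e)) .e)) .e))) .e))), .cov (nat_lit 76059036042731245118024514025834), .rot (.rot (.exp (.alt (nat_lit 15) (.rot (.exp (.alt (nat_lit 17) (.exp (.alt (nat_lit 1) (.exp (.alt (nat_lit 3) (.exp (.alt (nat_lit 5) (.exp (.alt (nat_lit 0) (.cov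 (nat_lit 45383603213471554994401)) (.alt (nat_lit 0) (.cov (nat_lit 25419625276467809615890)) (.alt (nat_lit 0) (.cov (nat_lit 21877859503062363668491)) (.alt (nat_lit 0) (.exp (.alt (nat_lit 2) (.exp (.alt (nat_lit 6) (.exp (.alt (nat_lit 10) (.exp (.alt (nat_lit 16) (.cov (nat_lit 21970072620598904750114)) (.alt (nat_lit 4) (.cov (nat_lit 22754062256392181383175)) (.alt (nat_lit 4) (.cov (nat_lit 26738564278159184756739)) (.alt (nat_lit 4) (.exp (.alt (nat_lit 12) (.exp (.alt (nat_lit 20) (.cov (nat_lit 63357648511499994398731)) (.alt (nat_lit 20) (.exp (.alt (nat_lit 22) (.exp (.alt (nat_lit 18) (.exp (.alt (nat_lit 23) (.exp (.alt (nat_lit 28) (.cov (nat_lit 47954617080210108973059)) (.alt (nat_lit 28) (.exp (.alt (nat_lit 30) (.exp (.alt (nat_lit 29) (.cov (nat_lit 102105034299788311396353)) (.alt (nat_lit 29) (.exp (.alt (nat_lit 25) (.cov (nat_lit 102068140813839307374592)) (.alt (nat_lit 31) (.cov (nat_lit 13215203336)) .e))) .e))) .e)) (.alt (nat_lit 21) (.cov (nat_lit 10029629635)) .e)))) .e)) .e)) .e)) (.alt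 (nat_lit 20) (.cov (nat_lit 6456366070691095642113)) (.alt (nat_lit 20) (.exp (.alt (nat_lit 21) (.cov (nat_lit 6546288444054411673607)) (.alt (nat_lit 21) (.cov (nat_lit 22055388811939145580547)) (.alt (nat_lit 21) (.exp (.alt (nat_lit 23) (.exp (.alt (nat_lit 29) (.cov (nat_lit 25447283482851546234882)) (.alt (nat_lit 29) (.cov (nat_lit 10240248946854589366273)) (.alt (nat_lit 29) (.exp (.alt (nat_lit 31) (.cov (nat_lit 404341100898260795523075)) (.alt (nat_lit 25) (.exp (.alt (nat_lit 9) (.exp (.alt (nat_lit 24) (.cov (nat_lit 6405631888391797735425)) (.alt (nat_lit 24) (.exp (.alt (nat_lit 26) (.cov (nat_lit 6387185146517079982080)) (.alt (nat_lit 28) (.cov (nat_lit 9963569160)) .e))) .e))) .e)) (.alt (nat_lit 31) (.cov (nat_lit 37273731689)) .e)))) .e)))) .e)) (.alt (nat_lit 21) (.cov (nat_lit 156387774343)) .e))))) .e))))) .e)) (.alt (nat_lit 4) (.cov (nat_lit 183957989038)) .e)))))) .e)) .e)) .e)) (.alt (nat_lit 0) (.cov (nat_lit 21582718713737884205057)) (.alt (nat_lit 0) (.exp (.alt (nat_lit 16) (.exp (.alt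 (nat_lit 18) (.exp (.alt (nat_lit 19) (.exp (.alt (nat_lit 23) (.exp (.alt (nat_lit 27) (.exp (.alt (nat_lit 2) (.exp (.alt (nat_lit 6) (.exp (.alt (nat_lit 10) (.exp (.alt (nat_lit 24) (.cov (nat_lit 364048800170664068644866)) (.alt (nat_lit 20) (.cov (nat_lit 45443554168529778376705)) (.alt (nat_lit 20) (.exp (.alt (nat_lit 28) (.cov (nat_lit 45445859886203836301315)) (.alt (nat_lit 28) (.cov (nat_lit 45445860011529237168128)) (.alt (nat_lit 21) (.cov (nat_lit 47577039043)) .e)))) .e)))) .e)) .e)) .e)) .e)) .e)) .e)) (.alt (nat_lit 18) (.cov (nat_lit 42030909813419366416405)) .e))) (.alt (nat_lit 16) (.cov (nat_lit 3066779969944368971810)) (.alt (nat_lit 16) (.exp (.alt (nat_lit 18) (.exp (.alt (nat_lit 19) (.exp (.alt (nat_lit 23) (.exp (.alt (nat_lit 27) (.exp (.alt (nat_lit 20) (.cov (nat_lit 21702594668813176799243)) (.alt (nat_lit 20) (.exp (.alt (nat_lit 4) (.exp (.alt (nat_lit 6) (.exp (.alt (nat_lit 12) (.exp (.alt (nat_lit 28) (.cov (nat_lit 26544864739825785241603)) (.alt (nat_lit 28) (.exp (.alt (nat_lit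 29) (.exp (.alt (nat_lit 24) (.cov (nat_lit 45438942348517535907841)) (.alt (nat_lit 30) (.cov (nat_lit 183871995919)) .e))) .e)) (.alt (nat_lit 28) (.exp (.alt (nat_lit 24) (.cov (nat_lit 45438942348381808230402)) (.alt (nat_lit 29) (.cov (nat_lit 4623171651)) .e))) .e)))) .e)) .e)) .e)) (.alt (nat_lit 20) (.cov (nat_lit 45443559653040378085377)) (.alt (nat_lit 20) (.exp (.alt (nat_lit 4) (.cov (nat_lit 104583815666662553681927)) (.alt (nat_lit 4) (.cov (nat_lit 350146873063946923802627)) (.alt (nat_lit 4) (.exp (.alt (nat_lit 6) (.exp (.alt (nat_lit 12) (.cov (nat_lit 26507971266926624112642)) (.alt (nat_lit 12) (.cov (nat_lit 26507971377013514567681)) (.alt (nat_lit 12) (.exp (.alt (nat_lit 13) (.cov (nat_lit 66869464859426160643)) (.alt (nat_lit 8) (.exp (.alt (nat_lit 9) (.exp (.alt (nat_lit 24) (.cov (nat_lit 45438942348361175400449)) (.alt (nat_lit 10) (.cov (nat_lit 731906063)) .e))) .e)) (.alt (nat_lit 8) (.exp (.alt (nat_lit 24) (.cov (nat_lit 45438942348381808230402)) (.alt (nat_lit 9) (.cov (nat_lit 361758787))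 .e))) .e)))) .e)))) .e)) (.alt (nat_lit 21) (.cov (nat_lit 28820115335)) .e))))) .e))))) .e)) .e)) .e)) .e)) (.alt (nat_lit 16) (.cov (nat_lit 25350459818042573455363)) (.alt (nat_lit 16) (.exp (.alt (nat_lit 18) (.exp (.alt (nat_lit 20) (.cov (nat_lit 4288869901501497081877)) (.alt (nat_lit 20) (.cov (nat_lit 2868474368174520795147)) (.alt (nat_lit 20) (.cov (nat_lit 22053094480862475452418)) (.alt (nat_lit 20) (.cov (nat_lit 5377244215506439766017)) (.alt (nat_lit 20) (.exp (.alt (nat_lit 28) (.exp (.alt (nat_lit 24) (.cov (nat_lit 801155367938236814878887428227073)) (.alt (nat_lit 24) (.cov (nat_lit 7849090960161527300107)) .e))) (.alt (nat_lit 21) (.cov (nat_lit 350186075407749429067783)) (.alt (nat_lit 21) (.cov (nat_lit 63376103849357118275587)) (.alt (nat_lit 21) (.exp (.alt (nat_lit 23) (.exp (.alt (nat_lit 29) (.cov (nat_lit 10166461968372807499787)) (.alt (nat_lit 29) (.exp (.alt (nat_lit 25) (.exp (.alt (nat_lit 9) (.exp (.alt (nat_lit 24) (.exp (.alt (nat_lit 31) (.cov (nat_lit 43160769464210501402627)) (.alt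 (nat_lit 31) (.exp (.alt (nat_lit 27) (.exp (.alt (nat_lit 30) (.cov (nat_lit 1581808313273073795073)) (.alt (nat_lit 30) (.exp (.alt (nat_lit 14) (.cov (nat_lit 1572584943278861844480)) (.alt (nat_lit 22) (.cov (nat_lit 106954760)) .e))) .e))) .e)) (.alt (nat_lit 31) (.cov (nat_lit 31457897)) .e)))) .e)) .e)) .e)) (.alt (nat_lit 29) (.cov (nat_lit 45598051167643047559169)) (.alt (nat_lit 29) (.exp (.alt (nat_lit 13) (.cov (nat_lit 10129568480225371619335)) (.alt (nat_lit 13) (.cov (nat_lit 25484177366658214526979)) (.alt (nat_lit 13) (.exp (.alt (nat_lit 9) (.exp (.alt (nat_lit 12) (.cov (nat_lit 404297289896643734274050)) (.alt (nat_lit 12) (.cov (nat_lit 2909974020720565420033)) (.alt (nat_lit 12) (.exp (.alt (nat_lit 8) (.cov (nat_lit 129127226109438459907)) (.alt (nat_lit 14) (.exp (.alt (nat_lit 6) (.exp (.alt (nat_lit 10) (.cov (nat_lit 1609478429383626588161)) (.alt (nat_lit 10) (.exp (.alt (nat_lit 26) (.cov (nat_lit 202914195805949657088)) (.alt (nat_lit 11) (.cov (nat_lit 28311560)) .e))) .e))) .e)) (.alt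 (nat_lit 8) (.cov (nat_lit 648020585)) .e)))) .e)))) .e)) (.alt (nat_lit 13) (.cov (nat_lit 10444869511)) .e))))) .e))))) .e)) (.alt (nat_lit 21) (.cov (nat_lit 183875148755)) .e)))))) .e)))))) .e)) (.alt (nat_lit 16) (.cov (nat_lit 18887950)) .e))))))) .e))))))) .e)) .e)) .e)) .e))) .e)))]),
   ([18, 1, 4], [.cov (nat_lit 63843954858908804447062217732405612), .cov (nat_lit 8513541464982750808992632251888945), .cov (nat_lit 63843954858908804447062217732405612), .cov (nat_lit 8513541464982750808992632386107709), .cov (nat_lit 63843954858908804447062217732405612), .cov (nat_lit 8513541464982750808992632386107887), .cov (nat_lit 63843954858908804447062217732405612), .cov (nat_lit 8513541464982750808992632386107964), .cov (nat_lit 63843954858908804447062217732405612), .cov (nat_lit 894611452229316928290400146569574973), .cov (nat_lit 63843954858908804447062217732405612), .rot (.exp (.alt (nat_lit 17) (.exp (.alt (nat_lit 15) (.exp (.alt (nat_lit 7) (.exp (.alt (nat_lit 3) (.exp (.alt (nat_lit 5) (.exp (.alt (nat_lit 0) (.exp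 (.alt (nat_lit 16) (.cov (nat_lit 50016429655339490160258735321120771)) (.alt (nat_lit 16) (.cov (nat_lit 50016429650864974130765815586226178)) (.alt (nat_lit 16) (.cov (nat_lit 756168802411260345244229567623725057)) (.alt (nat_lit 16) (.cov (nat_lit 756168802416096048522731908424007680)) (.alt (nat_lit 1) (.cov (nat_lit 7784531635239356727392)) .e)))))) (.alt (nat_lit 0) (.cov (nat_lit 313600397511432863969)) (.alt (nat_lit 0) (.cov (nat_lit 41652759305051418132574)) (.alt (nat_lit 0) (.cov (nat_lit 343865768218728079556644)) (.alt (nat_lit 0) (.cov (nat_lit 42077041571997488775184)) (.alt (nat_lit 0) (.cov (nat_lit 1494195395928564695058)) (.alt (nat_lit 0) (.cov (nat_lit 21564256031328570441739)) (.alt (nat_lit 0) (.cov (nat_lit 2988396199245344931846)) (.alt (nat_lit 0) (.cov (nat_lit 2665580687046698074115)) (.alt (nat_lit 0) (.cov (nat_lit 2693248879176835923970)) (.alt (nat_lit 0) (.cov (nat_lit 332071702620668952577)) (.alt (nat_lit 0) (.cov (nat_lit 2619468117137870028800)) (.alt (nat_lit 0) (.exp (.alt (nat_lit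 16) (.exp (.alt (nat_lit 18) (.cov (nat_lit 47825928282081881642403969521156098)) (.alt (nat_lit 18) (.cov (nat_lit 756736708932369559426739241366847489)) (.alt (nat_lit 18) (.cov (nat_lit 3691404984591251595748540815507456)) (.alt (nat_lit 18) (.cov (nat_lit 1678656637791490801758)) .e))))) (.alt (nat_lit 16) (.cov (nat_lit 350491585480576991270)) (.alt (nat_lit 16) (.cov (nat_lit 45641862213432986566753)) (.alt (nat_lit 16) (.cov (nat_lit 3066779969944368971810)) (.alt (nat_lit 16) (.cov (nat_lit 336654205246876155939)) (.alt (nat_lit 16) (.cov (nat_lit 10237957835114168713231)) (.alt (nat_lit 16) (.cov (nat_lit 41671213299305858203655)) (.alt (nat_lit 16) (.cov (nat_lit 6682353227747978903558)) (.alt (nat_lit 16) (.cov (nat_lit 25350459818042573455363)) (.alt (nat_lit 16) (.cov (nat_lit 25350459818207493488642)) (.alt (nat_lit 16) (.cov (nat_lit 29044424835734114926593)) (.alt (nat_lit 16) (.cov (nat_lit 46147793844428603392)) (.alt (nat_lit 1) (.cov (nat_lit 110114071)) .e)))))))))))))) .e)))))))))))))) .e)) .e))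 .e)) .e)) .e)), .cov (nat_lit 63843954858908804447062217732405612), .rot (.exp (.alt (nat_lit 17) (.exp (.alt (nat_lit 15) (.exp (.alt (nat_lit 7) (.exp (.alt (nat_lit 3) (.exp (.alt (nat_lit 5) (.exp (.alt (nat_lit 0) (.cov (nat_lit 45383603213471554994401)) (.alt (nat_lit 0) (.cov (nat_lit 25419625276467809615890)) (.alt (nat_lit 0) (.cov (nat_lit 23206026727835916304395)) (.alt (nat_lit 0) (.exp (.alt (nat_lit 2) (.exp (.alt (nat_lit 6) (.exp (.alt (nat_lit 18) (.exp (.alt (nat_lit 16) (.cov (nat_lit 344336148680892749971490)) (.alt (nat_lit 16) (.exp (.alt (nat_lit 20) (.exp (.alt (nat_lit 21) (.exp (.alt (nat_lit 23) (.exp (.alt (nat_lit 29) (.exp (.alt (nat_lit 24) (.cov (nat_lit 406806047090685961568258)) (.alt (nat_lit 24) (.cov (nat_lit 26507971381411573661697)) (.alt (nat_lit 24) (.exp (.alt (nat_lit 25) (.cov (nat_lit 104618403188627307757571)) (.alt (nat_lit 8) (.exp (.alt (nat_lit 9) (.exp (.alt (nat_lit 10) (.cov (nat_lit 404311124930343645216769)) (.alt (nat_lit 12) (.cov (nat_lit 20650655759)) .e))) .e))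 (.alt (nat_lit 8) (.exp (.alt (nat_lit 10) (.cov (nat_lit 404311124930527474221058)) (.alt (nat_lit 9) (.cov (nat_lit 47558164547)) .e))) .e)))) .e)))) .e)) .e)) .e)) .e)) (.alt (nat_lit 16) (.cov (nat_lit 3883043321893879808003)) (.alt (nat_lit 4) (.exp (.alt (nat_lit 20) (.exp (.alt (nat_lit 12) (.cov (nat_lit 325124011645764370443)) (.alt (nat_lit 12) (.exp (.alt (nat_lit 8) (.exp (.alt (nat_lit 10) (.exp (.alt (nat_lit 9) (.exp (.alt (nat_lit 28) (.cov (nat_lit 25449589310283824758787)) (.alt (nat_lit 28) (.exp (.alt (nat_lit 24) (.exp (.alt (nat_lit 29) (.cov (nat_lit 6417161103437863059457)) (.alt (nat_lit 29) (.exp (.alt (nat_lit 31) (.cov (nat_lit 6398714361563145306112)) (.alt (nat_lit 25) (.cov (nat_lit 9960423432)) .e))) .e))) .e)) (.alt (nat_lit 13) (.cov (nat_lit 63963331)) .e)))) .e)) .e)) .e)) (.alt (nat_lit 12) (.cov (nat_lit 7853706934275156213761)) (.alt (nat_lit 12) (.exp (.alt (nat_lit 13) (.cov (nat_lit 10129568480214081601543)) (.alt (nat_lit 13) (.cov (nat_lit 140656852371613155331)) (.alt (nat_lit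 13) (.exp (.alt (nat_lit 9) (.exp (.alt (nat_lit 29) (.cov (nat_lit 406852163950687672074242)) (.alt (nat_lit 29) (.cov (nat_lit 6638522166463369838593)) (.alt (nat_lit 29) (.exp (.alt (nat_lit 25) (.cov (nat_lit 2866162878228677525507)) (.alt (nat_lit 31) (.exp (.alt (nat_lit 23) (.exp (.alt (nat_lit 30) (.cov (nat_lit 102107340142797521944577)) (.alt (nat_lit 30) (.exp (.alt (nat_lit 26) (.cov (nat_lit 102070446656848517922816)) (.alt (nat_lit 28) (.cov (nat_lit 13212057608)) .e))) .e))) .e)) (.alt (nat_lit 25) (.cov (nat_lit 10463740521)) .e)))) .e)))) .e)) (.alt (nat_lit 13) (.cov (nat_lit 646975367)) .e))))) .e))))) .e)) (.alt (nat_lit 1) (.cov (nat_lit 1955604918)) .e)))))) .e)) .e)) .e)) (.alt (nat_lit 0) (.cov (nat_lit 21582718713737884205057)) (.alt (nat_lit 0) (.exp (.alt (nat_lit 16) (.exp (.alt (nat_lit 18) (.exp (.alt (nat_lit 19) (.exp (.alt (nat_lit 23) (.exp (.alt (nat_lit 27) (.exp (.alt (nat_lit 2) (.exp (.alt (nat_lit 6) (.exp (.alt (nat_lit 10) (.exp (.alt (nat_lit 24) (.cov (nat_lit 364048800170664068644866))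 (.alt (nat_lit 20) (.cov (nat_lit 45443554168529778376705)) (.alt (nat_lit 20) (.exp (.alt (nat_lit 28) (.cov (nat_lit 45445859886203836301315)) (.alt (nat_lit 28) (.cov (nat_lit 45445860011529237168128)) (.alt (nat_lit 21) (.cov (nat_lit 47577039043)) .e)))) .e)))) .e)) .e)) .e)) .e)) .e)) .e)) (.alt (nat_lit 18) (.cov (nat_lit 42030909813419366416405)) .e))) (.alt (nat_lit 16) (.cov (nat_lit 3066779969944368971810)) (.alt (nat_lit 16) (.exp (.alt (nat_lit 18) (.exp (.alt (nat_lit 19) (.exp (.alt (nat_lit 23) (.exp (.alt (nat_lit 27) (.exp (.alt (nat_lit 20) (.cov (nat_lit 21702594668813176799243)) (.alt (nat_lit 20) (.exp (.alt (nat_lit 4) (.exp (.alt (nat_lit 6) (.exp (.alt (nat_lit 12) (.exp (.alt (nat_lit 28) (.cov (nat_lit 26544864739825785241603)) (.alt (nat_lit 28) (.exp (.alt (nat_lit 29) (.exp (.alt (nat_lit 24) (.cov (nat_lit 45438942348361154428929)) (.alt (nat_lit 30) (.cov (nat_lit 183871995919)) .e))) .e)) (.alt (nat_lit 28) (.exp (.alt (nat_lit 24) (.cov (nat_lit 45438942348381808230402)) (.alt (nat_lit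 29) (.cov (nat_lit 4623171651)) .e))) .e)))) .e)) .e)) .e)) (.alt (nat_lit 20) (.cov (nat_lit 45443559653040378085377)) (.alt (nat_lit 20) (.exp (.alt (nat_lit 4) (.cov (nat_lit 104583815666662553681927)) (.alt (nat_lit 4) (.cov (nat_lit 350146873063946923802627)) (.alt (nat_lit 4) (.exp (.alt (nat_lit 6) (.exp (.alt (nat_lit 12) (.cov (nat_lit 406852163950707014107138)) (.alt (nat_lit 12) (.cov (nat_lit 347675009076731709489153)) (.alt (nat_lit 12) (.exp (.alt (nat_lit 13) (.cov (nat_lit 10129568357068007538691)) (.alt (nat_lit 28) (.exp (.alt (nat_lit 29) (.exp (.alt (nat_lit 24) (.cov (nat_lit 45438942348361154428929)) (.alt (nat_lit 30) (.cov (nat_lit 183871995919)) .e))) .e)) (.alt (nat_lit 28) (.exp (.alt (nat_lit 24) (.cov (nat_lit 45438942348381808230402)) (.alt (nat_lit 29) (.cov (nat_lit 4623171651)) .e))) .e)))) .e)))) .e)) (.alt (nat_lit 21) (.cov (nat_lit 28820115335)) .e))))) .e))))) .e)) .e)) .e)) .e)) (.alt (nat_lit 16) (.cov (nat_lit 25350459818042573455363)) (.alt (nat_lit 16) (.exp (.alt (nat_lit 18)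 (.exp (.alt (nat_lit 20) (.cov (nat_lit 4288869901501497081877)) (.alt (nat_lit 20) (.cov (nat_lit 2868474368174520795147)) (.alt (nat_lit 20) (.cov (nat_lit 22053094480862475452418)) (.alt (nat_lit 20) (.cov (nat_lit 5377244215506439766017)) (.alt (nat_lit 20) (.exp (.alt (nat_lit 28) (.exp (.alt (nat_lit 24) (.cov (nat_lit 801155367938236814878887428227073)) (.alt (nat_lit 24) (.cov (nat_lit 7849090960161527300107)) .e))) (.alt (nat_lit 21) (.cov (nat_lit 350186075407749429067783)) (.alt (nat_lit 21) (.cov (nat_lit 63376103849357118275587)) (.alt (nat_lit 21) (.exp (.alt (nat_lit 23) (.exp (.alt (nat_lit 29) (.cov (nat_lit 10166461968372807499787)) (.alt (nat_lit 29) (.exp (.alt (nat_lit 25) (.exp (.alt (nat_lit 24) (.exp (.alt (nat_lit 9) (.exp (.alt (nat_lit 31) (.cov (nat_lit 43160769464210501402627)) (.alt (nat_lit 31) (.exp (.alt (nat_lit 27) (.exp (.alt (nat_lit 30) (.cov (nat_lit 25267427703916142264321)) (.alt (nat_lit 30) (.exp (.alt (nat_lit 14) (.cov (nat_lit 2610214297425028317184)) (.alt (nat_lit 26) (.cov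 (nat_lit 1352663048)) .e))) .e))) .e)) (.alt (nat_lit 31) (.cov (nat_lit 31457897)) .e)))) .e)) .e)) .e)) (.alt (nat_lit 29) (.cov (nat_lit 45598051167643047559169)) (.alt (nat_lit 29) (.exp (.alt (nat_lit 13) (.cov (nat_lit 10129568480225371619335)) (.alt (nat_lit 13) (.cov (nat_lit 25484177366658214526979)) (.alt (nat_lit 13) (.exp (.alt (nat_lit 9) (.exp (.alt (nat_lit 12) (.cov (nat_lit 404297289896643734274050)) (.alt (nat_lit 12) (.cov (nat_lit 2909974020720565420033)) (.alt (nat_lit 12) (.exp (.alt (nat_lit 8) (.cov (nat_lit 129127226109438459907)) (.alt (nat_lit 14) (.exp (.alt (nat_lit 6) (.exp (.alt (nat_lit 10) (.cov (nat_lit 1609478429383626588161)) (.alt (nat_lit 10) (.exp (.alt (nat_lit 26) (.cov (nat_lit 202914195805949657088)) (.alt (nat_lit 11) (.cov (nat_lit 28311560)) .e))) .e))) .e)) (.alt (nat_lit 8) (.cov (nat_lit 648020585)) .e)))) .e)))) .e)) (.alt (nat_lit 13) (.cov (nat_lit 10444869511)) .e))))) .e))))) .e)) (.alt (nat_lit 21) (.cov (nat_lit 183875148755)) .e)))))) .e)))))) .e)) (.alt (nat_lit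 16) (.cov (nat_lit 18887950)) .e))))))) .e))))))) .e)) .e)) .e)) .e)) .e))]),
   ([21, 1, 1], [.cov (nat_lit 76059036013732963420958825134763), .cov (nat_lit 76059036013732963420958959352595), .cov (nat_lit 76059036013732963420958959352596), .cov (nat_lit 76059036013732963420958959352614), .cov (nat_lit 76059036013732963420958959352615), .rot (.exp (.alt (nat_lit 17) (.exp (.alt (nat_lit 15) (.cov (nat_lit 134232872)) .e)) .e)), .rot (.exp (.alt (nat_lit 17) (.exp (.alt (nat_lit 15) (.exp (.alt (nat_lit 0) (.exp (.alt (nat_lit 1) (.cov (nat_lit 894778801286972718792281662252122119)) (.alt (nat_lit 1) (.cov (nat_lit 53302191709078454127103708373188611)) (.alt (nat_lit 1) (.cov (nat_lit 230164808771872398802821483376672769)) (.alt (nat_lit 1) (.exp (.alt (nat_lit 3) (.exp (.alt (nat_lit 5) (.cov (nat_lit 56222864340051573490409834664689666)) (.alt (nat_lit 5) (.cov (nat_lit 756168814046326092328081058991964161)) (.alt (nat_lit 5) (.cov (nat_lit 50178700600723043345516782781726720)) (.alt (nat_lit 5) (.cov (nat_lit 41652759305051418132574))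 .e))))) .e)) (.alt (nat_lit 1) (.cov (nat_lit 344253146651301096980984)) .e)))))) (.alt (nat_lit 0) (.cov (nat_lit 343865768218717342139337)) (.alt (nat_lit 0) (.cov (nat_lit 297465955151685616075)) (.alt (nat_lit 0) (.cov (nat_lit 297469011621037736168)) (.alt (nat_lit 0) (.cov (nat_lit 25239776011068341485793)) (.alt (nat_lit 0) (.cov (nat_lit 347836441579397348065374)) (.alt (nat_lit 0) (.cov (nat_lit 26491856598001944363044)) (.alt (nat_lit 0) (.cov (nat_lit 61762033943145909059600)) (.alt (nat_lit 0) (.cov (nat_lit 299789546304621772819)) (.alt (nat_lit 0) (.cov (nat_lit 297481928856576196619)) (.alt (nat_lit 0) (.cov (nat_lit 22728725163231405932550)) (.alt (nat_lit 0) (.cov (nat_lit 26491861787703704027139)) (.alt (nat_lit 0) (.exp (.alt (nat_lit 1) (.exp (.alt (nat_lit 3) (.exp (.alt (nat_lit 5) (.exp (.alt (nat_lit 16) (.exp (.alt (nat_lit 18) (.cov (nat_lit 47825928282081881642403969521156098)) (.alt (nat_lit 18) (.cov (nat_lit 180229498261460413727292236836634625)) (.alt (nat_lit 18) (.cov (nat_lit 3691404984591251595748540815507456))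 (.alt (nat_lit 18) (.cov (nat_lit 1678656637791490801758)) .e))))) (.alt (nat_lit 16) (.cov (nat_lit 350491585480576991270)) (.alt (nat_lit 16) (.cov (nat_lit 45641862213432986566753)) (.alt (nat_lit 16) (.cov (nat_lit 3066779969944368971810)) (.alt (nat_lit 16) (.cov (nat_lit 336654205246876155939)) (.alt (nat_lit 16) (.cov (nat_lit 10237957835114168713231)) (.alt (nat_lit 16) (.cov (nat_lit 41671213299305858203655)) (.alt (nat_lit 16) (.cov (nat_lit 6682353227747978903558)) (.alt (nat_lit 16) (.cov (nat_lit 25350459818042573455363)) (.alt (nat_lit 16) (.cov (nat_lit 25350459818207493488642)) (.alt (nat_lit 16) (.cov (nat_lit 1890817436088352636929)) (.alt (nat_lit 16) (.cov (nat_lit 46147167122800771072)) (.alt (nat_lit 16) (.cov (nat_lit 18888396)) .e)))))))))))))) .e)) .e)) .e)) (.alt (nat_lit 0) (.cov (nat_lit 297485968433672617985)) (.alt (nat_lit 0) (.cov (nat_lit 36926306370486009856)) (.alt (nat_lit 0) (.exp (.alt (nat_lit 1) (.cov (nat_lit 63094791002250682565112)) (.alt (nat_lit 1) (.cov (nat_lit 2589470447107904111558))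 (.alt (nat_lit 1) (.exp (.alt (nat_lit 3) (.cov (nat_lit 55538334374760925496171705956040706)) (.alt (nat_lit 3) (.cov (nat_lit 532439524519660573075554111062017)) (.alt (nat_lit 3) (.cov (nat_lit 6840275299174498437051683590635520)) (.alt (nat_lit 3) (.cov (nat_lit 2824669635779488645214)) .e))))) (.alt (nat_lit 1) (.cov (nat_lit 344075603455427052830758)) (.alt (nat_lit 1) (.cov (nat_lit 25389657484519996915809)) (.alt (nat_lit 1) (.cov (nat_lit 21995452126516902625314)) (.alt (nat_lit 1) (.cov (nat_lit 43098535353302207430691)) (.alt (nat_lit 1) (.cov (nat_lit 25242089601235919306767)) (.alt (nat_lit 1) (.cov (nat_lit 228308210698557587463)) (.alt (nat_lit 1) (.cov (nat_lit 25389666133291312349190)) (.alt (nat_lit 1) (.cov (nat_lit 1556473922561286078467)) (.alt (nat_lit 1) (.cov (nat_lit 3843870739821027655682)) (.alt (nat_lit 1) (.cov (nat_lit 21704931672126213062657)) (.alt (nat_lit 1) (.exp (.alt (nat_lit 3) (.exp (.alt (nat_lit 5) (.cov (nat_lit 45556545997720136974796)) (.alt (nat_lit 5) (.cov (nat_lit 343579147182461157601))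 (.alt (nat_lit 5) (.cov (nat_lit 82099549110562326577246)) (.alt (nat_lit 5) (.cov (nat_lit 47936185115783020412964)) (.alt (nat_lit 5) (.cov (nat_lit 417377969625307807760)) (.alt (nat_lit 5) (.cov (nat_lit 4254292543395774595090)) (.alt (nat_lit 5) (.cov (nat_lit 404327281275333427331083)) (.alt (nat_lit 5) (.cov (nat_lit 21963178218710739451910)) (.alt (nat_lit 5) (.cov (nat_lit 404456419170936358436867)) (.alt (nat_lit 5) (.cov (nat_lit 2704778092023881138178)) (.alt (nat_lit 5) (.cov (nat_lit 325152047137544994817)) (.alt (nat_lit 5) (.cov (nat_lit 21723377499050880270336)) (.alt (nat_lit 5) (.exp (.alt (nat_lit 21) (.exp (.alt (nat_lit 23) (.cov (nat_lit 50122908925579567065554534394757122)) (.alt (nat_lit 23) (.cov (nat_lit 139319875755228924292816608449003521)) (.alt (nat_lit 23) (.cov (nat_lit 48500316152855573191997119169298432)) (.alt (nat_lit 23) (.cov (nat_lit 4346516983895363158110)) .e))))) (.alt (nat_lit 21) (.cov (nat_lit 66871580331385815078)) (.alt (nat_lit 7) (.exp (.alt (nat_lit 23) (.cov (nat_lit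 22259956934319540551132626415517698)) (.alt (nat_lit 23) (.cov (nat_lit 889373527488035890427752873597075457)) (.alt (nat_lit 23) (.cov (nat_lit 92355959698130073068669764207902720)) (.alt (nat_lit 23) (.cov (nat_lit 41998628011474634670116)) .e))))) (.alt (nat_lit 7) (.exp (.alt (nat_lit 23) (.cov (nat_lit 16743148349741375298555263023316993)) (.alt (nat_lit 23) (.cov (nat_lit 344082514253219265249291)) .e))) (.alt (nat_lit 7) (.cov (nat_lit 26690144132441137217571)) (.alt (nat_lit 7) (.cov (nat_lit 5365713520545755037711)) (.alt (nat_lit 7) (.cov (nat_lit 21598846930848323731463)) (.alt (nat_lit 7) (.cov (nat_lit 405586276215723562893318)) (.alt (nat_lit 7) (.cov (nat_lit 61812749209454050803715)) (.alt (nat_lit 7) (.cov (nat_lit 348205819725906706434)) (.alt (nat_lit 7) (.cov (nat_lit 1971522134924865830913)) (.alt (nat_lit 7) (.cov (nat_lit 309011148115725516800)) (.alt (nat_lit 7) (.cov (nat_lit 124794117)) .e)))))))))))))) .e)))))))))))))) .e)) (.alt (nat_lit 1) (.cov (nat_lit 3160620)) .e)))))))))))))))) .e)))))))))))))))))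 .e)) .e)), .rot (.exp (.alt (nat_lit 17) (.exp (.alt (nat_lit 15) (.exp (.alt (nat_lit 0) (.cov (nat_lit 343865768218716335505640)) (.alt (nat_lit 0) (.cov (nat_lit 63090193260231364968673)) (.alt (nat_lit 0) (.exp (.alt (nat_lit 1) (.exp (.alt (nat_lit 3) (.exp (.alt (nat_lit 5) (.exp (.alt (nat_lit 7) (.exp (.alt (nat_lit 23) (.exp (.alt (nat_lit 6) (.exp (.alt (nat_lit 16) (.cov (nat_lit 6686946090298000801826)) (.alt (nat_lit 4) (.cov (nat_lit 350146876076600812634119)) (.alt (nat_lit 4) (.cov (nat_lit 344317710248954573094915)) (.alt (nat_lit 4) (.exp (.alt (nat_lit 20) (.exp (.alt (nat_lit 12) (.cov (nat_lit 25447283592665252233227)) (.alt (nat_lit 12) (.exp (.alt (nat_lit 28) (.exp (.alt (nat_lit 29) (.exp (.alt (nat_lit 30) (.exp (.alt (nat_lit 8) (.cov (nat_lit 345198533555121306992643)) (.alt (nat_lit 8) (.exp (.alt (nat_lit 9) (.exp (.alt (nat_lit 24) (.cov (nat_lit 102107340142796938936321)) (.alt (nat_lit 24) (.exp (.alt (nat_lit 26) (.cov (nat_lit 343909567306189947011072)) (.alt (nat_lit 16) (.cov (nat_lit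 10521411592)) .e))) .e))) .e)) (.alt (nat_lit 14) (.cov (nat_lit 9808380099)) .e)))) .e)) .e)) .e)) (.alt (nat_lit 12) (.cov (nat_lit 21711823415250855657473)) (.alt (nat_lit 12) (.exp (.alt (nat_lit 28) (.exp (.alt (nat_lit 29) (.exp (.alt (nat_lit 25) (.exp (.alt (nat_lit 9) (.exp (.alt (nat_lit 24) (.exp (.alt (nat_lit 30) (.cov (nat_lit 102107340142797515653121)) (.alt (nat_lit 30) (.exp (.alt (nat_lit 26) (.cov (nat_lit 102070446656848511631360)) (.alt (nat_lit 22) (.cov (nat_lit 10521411592)) .e))) .e))) .e)) .e)) .e)) .e)) (.alt (nat_lit 14) (.cov (nat_lit 21568855936994493071363)) (.alt (nat_lit 14) (.exp (.alt (nat_lit 30) (.exp (.alt (nat_lit 10) (.cov (nat_lit 26514888795945118466050)) (.alt (nat_lit 10) (.cov (nat_lit 59952061176112742401)) (.alt (nat_lit 10) (.exp (.alt (nat_lit 11) (.cov (nat_lit 22747141303488190873603)) (.alt (nat_lit 26) (.exp (.alt (nat_lit 18) (.exp (.alt (nat_lit 27) (.cov (nat_lit 102105034299787740971009)) (.alt (nat_lit 27) (.exp (.alt (nat_lit 25) (.cov (nat_lit 102068140813839309471744))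 (.alt (nat_lit 31) (.cov (nat_lit 159246188552)) .e))) .e))) .e)) (.alt (nat_lit 11) (.cov (nat_lit 166256968297)) .e)))) .e)))) .e)) (.alt (nat_lit 13) (.cov (nat_lit 19055775626)) .e))))) .e))))) .e)) (.alt (nat_lit 4) (.cov (nat_lit 255862445)) .e)))))) .e)) .e)) .e)) .e)) .e)) .e)) (.alt (nat_lit 0) (.cov (nat_lit 6456388573308061220875)) (.alt (nat_lit 0) (.exp (.alt (nat_lit 1) (.exp (.alt (nat_lit 3) (.exp (.alt (nat_lit 5) (.exp (.alt (nat_lit 16) (.exp (.alt (nat_lit 18) (.exp (.alt (nat_lit 19) (.exp (.alt (nat_lit 23) (.exp (.alt (nat_lit 27) (.exp (.alt (nat_lit 2) (.exp (.alt (nat_lit 6) (.exp (.alt (nat_lit 10) (.exp (.alt (nat_lit 24) (.cov (nat_lit 364048800170664068644866)) (.alt (nat_lit 20) (.cov (nat_lit 45443554168529778376705)) (.alt (nat_lit 20) (.exp (.alt (nat_lit 28) (.cov (nat_lit 45445859886203836301315)) (.alt (nat_lit 28) (.cov (nat_lit 45445860011529237168128)) (.alt (nat_lit 21) (.cov (nat_lit 47577039043)) .e)))) .e)))) .e)) .e)) .e)) .e)) .e)) .e)) (.alt (nat_lit 18) (.cov (nat_lit 42030909813419366416405))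 .e))) (.alt (nat_lit 16) (.cov (nat_lit 3066779969944368971810)) (.alt (nat_lit 16) (.exp (.alt (nat_lit 18) (.exp (.alt (nat_lit 19) (.exp (.alt (nat_lit 23) (.exp (.alt (nat_lit 27) (.exp (.alt (nat_lit 20) (.cov (nat_lit 21702594668813176799243)) (.alt (nat_lit 20) (.exp (.alt (nat_lit 4) (.exp (.alt (nat_lit 6) (.exp (.alt (nat_lit 12) (.exp (.alt (nat_lit 28) (.cov (nat_lit 26544864739825785241603)) (.alt (nat_lit 28) (.exp (.alt (nat_lit 29) (.exp (.alt (nat_lit 24) (.cov (nat_lit 45438942348517535907841)) (.alt (nat_lit 30) (.cov (nat_lit 183871995919)) .e))) .e)) (.alt (nat_lit 28) (.exp (.alt (nat_lit 24) (.cov (nat_lit 45438942348381808230402)) (.alt (nat_lit 29) (.cov (nat_lit 4623171651)) .e))) .e)))) .e)) .e)) .e)) (.alt (nat_lit 20) (.cov (nat_lit 45443559653040378085377)) (.alt (nat_lit 20) (.exp (.alt (nat_lit 4) (.cov (nat_lit 104583815666662553681927)) (.alt (nat_lit 4) (.cov (nat_lit 350146873063946923802627)) (.alt (nat_lit 4) (.exp (.alt (nat_lit 6) (.exp (.alt (nat_lit 12) (.cov (nat_lit 26507971266926624112642))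 (.alt (nat_lit 12) (.cov (nat_lit 26507971377013514567681)) (.alt (nat_lit 12) (.exp (.alt (nat_lit 13) (.cov (nat_lit 66869464859426160643)) (.alt (nat_lit 8) (.exp (.alt (nat_lit 9) (.exp (.alt (nat_lit 24) (.cov (nat_lit 45438942348361175400449)) (.alt (nat_lit 10) (.cov (nat_lit 731906063)) .e))) .e)) (.alt (nat_lit 8) (.exp (.alt (nat_lit 24) (.cov (nat_lit 45438942348381808230402)) (.alt (nat_lit 9) (.cov (nat_lit 361758787)) .e))) .e)))) .e)))) .e)) (.alt (nat_lit 21) (.cov (nat_lit 28820115335)) .e))))) .e))))) .e)) .e)) .e)) .e)) (.alt (nat_lit 16) (.cov (nat_lit 25350459818042573455363)) (.alt (nat_lit 16) (.exp (.alt (nat_lit 18) (.exp (.alt (nat_lit 20) (.cov (nat_lit 4288869901501497081877)) (.alt (nat_lit 20) (.cov (nat_lit 2868474368174520795147)) (.alt (nat_lit 20) (.cov (nat_lit 22053094480862475452418)) (.alt (nat_lit 20) (.cov (nat_lit 5377244215506439766017)) (.alt (nat_lit 20) (.exp (.alt (nat_lit 28) (.exp (.alt (nat_lit 24) (.cov (nat_lit 801155367938236814878887428227073)) (.alt (nat_lit 24) (.cov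 (nat_lit 7849090960161527300107)) .e))) (.alt (nat_lit 21) (.cov (nat_lit 350186075407749429067783)) (.alt (nat_lit 21) (.cov (nat_lit 63376103849357118275587)) (.alt (nat_lit 21) (.exp (.alt (nat_lit 23) (.exp (.alt (nat_lit 29) (.cov (nat_lit 10166461968372807499787)) (.alt (nat_lit 29) (.exp (.alt (nat_lit 25) (.exp (.alt (nat_lit 9) (.exp (.alt (nat_lit 24) (.exp (.alt (nat_lit 31) (.cov (nat_lit 43160769464210501402627)) (.alt (nat_lit 31) (.exp (.alt (nat_lit 27) (.exp (.alt (nat_lit 30) (.cov (nat_lit 1581808313273073795073)) (.alt (nat_lit 30) (.exp (.alt (nat_lit 14) (.cov (nat_lit 1572584943278861844480)) (.alt (nat_lit 22) (.cov (nat_lit 106954760)) .e))) .e))) .e)) (.alt (nat_lit 31) (.cov (nat_lit 31457897)) .e)))) .e)) .e)) .e)) (.alt (nat_lit 29) (.cov (nat_lit 45598051167643047559169)) (.alt (nat_lit 29) (.exp (.alt (nat_lit 13) (.cov (nat_lit 10129568480225371619335)) (.alt (nat_lit 13) (.cov (nat_lit 25484177366658214526979)) (.alt (nat_lit 13) (.exp (.alt (nat_lit 9) (.exp (.alt (nat_lit 12) (.cov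 (nat_lit 404297289896643734274050)) (.alt (nat_lit 12) (.cov (nat_lit 2909974020720565420033)) (.alt (nat_lit 12) (.exp (.alt (nat_lit 8) (.cov (nat_lit 129127226109438459907)) (.alt (nat_lit 14) (.exp (.alt (nat_lit 6) (.exp (.alt (nat_lit 10) (.cov (nat_lit 1609478429383626588161)) (.alt (nat_lit 10) (.exp (.alt (nat_lit 26) (.cov (nat_lit 202914195805949657088)) (.alt (nat_lit 11) (.cov (nat_lit 28311560)) .e))) .e))) .e)) (.alt (nat_lit 8) (.cov (nat_lit 648020585)) .e)))) .e)))) .e)) (.alt (nat_lit 13) (.cov (nat_lit 10444869511)) .e))))) .e))))) .e)) (.alt (nat_lit 21) (.cov (nat_lit 183875148755)) .e)))))) .e)))))) .e)) (.alt (nat_lit 16) (.cov (nat_lit 18887950)) .e))))))) .e)) .e)) .e)) (.alt (nat_lit 0) (.cov (nat_lit 76123744324460478465)) (.alt (nat_lit 0) (.exp (.alt (nat_lit 1) (.cov (nat_lit 63094791002250682565112)) (.alt (nat_lit 1) (.exp (.alt (nat_lit 3) (.exp (.alt (nat_lit 19) (.exp (.alt (nat_lit 23) (.exp (.alt (nat_lit 27) (.exp (.alt (nat_lit 7) (.exp (.alt (nat_lit 5) (.exp (.alt (nat_lit 6)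 (.exp (.alt (nat_lit 9) (.cov (nat_lit 1715547447344843718667)) (.alt (nat_lit 9) (.cov (nat_lit 426582861059385720834)) (.alt (nat_lit 9) (.cov (nat_lit 5370314004555339137025)) (.alt (nat_lit 9) (.exp (.alt (nat_lit 25) (.exp (.alt (nat_lit 29) (.exp (.alt (nat_lit 28) (.exp (.alt (nat_lit 20) (.exp (.alt (nat_lit 12) (.exp (.alt (nat_lit 24) (.cov (nat_lit 45438942348361196371969)) (.alt (nat_lit 24) (.exp (.alt (nat_lit 26) (.cov (nat_lit 21734876215843405955072)) (.alt (nat_lit 16) (.cov (nat_lit 28775022600)) .e))) .e))) .e)) .e)) .e)) .e)) (.alt (nat_lit 25) (.cov (nat_lit 406916727950924927991811)) (.alt (nat_lit 13) (.cov (nat_lit 322821462761342500864)) (.alt (nat_lit 11) (.cov (nat_lit 46516932490)) .e))))) .e))))) .e)) .e)) .e)) .e)) .e)) .e)) (.alt (nat_lit 3) (.exp (.alt (nat_lit 19) (.exp (.alt (nat_lit 23) (.exp (.alt (nat_lit 27) (.exp (.alt (nat_lit 11) (.exp (.alt (nat_lit 9) (.exp (.alt (nat_lit 10) (.exp (.alt (nat_lit 5) (.cov (nat_lit 27753126707388623093771)) (.alt (nat_lit 5) (.cov (nat_lit 6394104568915192446978))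 (.alt (nat_lit 5) (.cov (nat_lit 343576244469482127361)) (.alt (nat_lit 5) (.exp (.alt (nat_lit 21) (.exp (.alt (nat_lit 29) (.exp (.alt (nat_lit 28) (.exp (.alt (nat_lit 24) (.exp (.alt (nat_lit 12) (.exp (.alt (nat_lit 20) (.cov (nat_lit 365370048190742804824065)) (.alt (nat_lit 20) (.exp (.alt (nat_lit 22) (.cov (nat_lit 3952214928787394002944)) (.alt (nat_lit 16) (.cov (nat_lit 158160912392)) .e))) .e))) .e)) .e)) .e)) .e)) (.alt (nat_lit 21) (.cov (nat_lit 406907504578888073216003)) (.alt (nat_lit 13) (.cov (nat_lit 5340335850810340540416)) (.alt (nat_lit 7) (.cov (nat_lit 3026194314)) .e))))) .e))))) .e)) .e)) .e)) .e)) .e)) .e)) .e))) (.alt (nat_lit 1) (.exp (.alt (nat_lit 3) (.cov (nat_lit 532464888139758712694962837782529)) (.alt (nat_lit 3) (.cov (nat_lit 47908515866097347461131)) .e))) (.alt (nat_lit 1) (.exp (.alt (nat_lit 3) (.exp (.alt (nat_lit 19) (.exp (.alt (nat_lit 23) (.exp (.alt (nat_lit 27) (.exp (.alt (nat_lit 5) (.cov (nat_lit 1706325731192922439699)) (.alt (nat_lit 5) (.cov (nat_lit 104586124810561901297675))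 (.alt (nat_lit 5) (.cov (nat_lit 404435652386961014915074)) (.alt (nat_lit 5) (.cov (nat_lit 102277987962778333216769)) (.alt (nat_lit 5) (.exp (.alt (nat_lit 4) (.cov (nat_lit 1503410070838075981858)) (.alt (nat_lit 21) (.cov (nat_lit 104623018298709337178119)) (.alt (nat_lit 21) (.cov (nat_lit 1690191669070827356163)) (.alt (nat_lit 21) (.exp (.alt (nat_lit 29) (.exp (.alt (nat_lit 20) (.cov (nat_lit 3919933262998605398027)) (.alt (nat_lit 20) (.exp (.alt (nat_lit 22) (.exp (.alt (nat_lit 18) (.exp (.alt (nat_lit 6) (.exp (.alt (nat_lit 28) (.cov (nat_lit 1355835707010567897091)) (.alt (nat_lit 28) (.exp (.alt (nat_lit 30) (.exp (.alt (nat_lit 12) (.cov (nat_lit 102065834968631660773377)) (.alt (nat_lit 12) (.exp (.alt (nat_lit 8) (.cov (nat_lit 343868062132024092131328)) (.alt (nat_lit 14) (.cov (nat_lit 13197377544)) .e))) .e))) .e)) (.alt (nat_lit 4) (.cov (nat_lit 21789409475)) .e)))) .e)) .e)) .e)) (.alt (nat_lit 20) (.cov (nat_lit 21582696211132910141441)) (.alt (nat_lit 20) (.exp (.alt (nat_lit 4) (.cov (nat_lit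 347771854476524465946631)) (.alt (nat_lit 4) (.cov (nat_lit 47915418160290737422339)) (.alt (nat_lit 4) (.exp (.alt (nat_lit 6) (.exp (.alt (nat_lit 12) (.cov (nat_lit 25447283482667683676162)) (.alt (nat_lit 12) (.cov (nat_lit 405551668603441066803201)) (.alt (nat_lit 12) (.exp (.alt (nat_lit 14) (.cov (nat_lit 29021340131557044649987)) (.alt (nat_lit 8) (.exp (.alt (nat_lit 9) (.exp (.alt (nat_lit 24) (.cov (nat_lit 365379271562779672182785)) (.alt (nat_lit 24) (.exp (.alt (nat_lit 26) (.cov (nat_lit 345216980292414124064768)) (.alt (nat_lit 28) (.cov (nat_lit 158173495304)) .e))) .e))) .e)) (.alt (nat_lit 14) (.cov (nat_lit 2896167529)) .e)))) .e)))) .e)) (.alt (nat_lit 4) (.cov (nat_lit 46412074887)) .e))))) .e))))) .e)) (.alt (nat_lit 7) (.cov (nat_lit 174074294)) .e)))))) .e)))))) .e)) .e)) .e)) .e)) (.alt (nat_lit 1) (.cov (nat_lit 2963032610183402487811)) (.alt (nat_lit 2) (.exp (.alt (nat_lit 3) (.exp (.alt (nat_lit 18) (.exp (.alt (nat_lit 19) (.cov (nat_lit 92437089336924968602808335310258179)) (.alt (nat_lit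 19) (.cov (nat_lit 58687159756446080260225439374508032)) (.alt (nat_lit 19) (.cov (nat_lit 25359667042817764491302)) .e)))) (.alt (nat_lit 18) (.cov (nat_lit 1978425242785494859795)) (.alt (nat_lit 18) (.cov (nat_lit 347868709028648101871627)) (.alt (nat_lit 18) (.exp (.alt (nat_lit 22) (.exp (.alt (nat_lit 6) (.exp (.alt (nat_lit 23) (.exp (.alt (nat_lit 16) (.cov (nat_lit 23141440869462037233698)) (.alt (nat_lit 16) (.exp (.alt (nat_lit 20) (.exp (.alt (nat_lit 21) (.exp (.alt (nat_lit 5) (.exp (.alt (nat_lit 29) (.exp (.alt (nat_lit 24) (.cov (nat_lit 102107340167170018508802)) (.alt (nat_lit 24) (.cov (nat_lit 102107340277093700206593)) (.alt (nat_lit 24) (.exp (.alt (nat_lit 28) (.cov (nat_lit 1355835707010037317635)) (.alt (nat_lit 26) (.exp (.alt (nat_lit 30) (.exp (.alt (nat_lit 10) (.cov (nat_lit 404304207401316589240321)) (.alt (nat_lit 27) (.cov (nat_lit 11534351)) .e))) .e)) (.alt (nat_lit 26) (.exp (.alt (nat_lit 10) (.cov (nat_lit 404304207401499836284930)) (.alt (nat_lit 30) (.cov (nat_lit 10013900867))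 .e))) .e)))) .e)))) .e)) .e)) .e)) .e)) (.alt (nat_lit 16) (.cov (nat_lit 26535645044409209192451)) (.alt (nat_lit 26) (.exp (.alt (nat_lit 10) (.exp (.alt (nat_lit 30) (.cov (nat_lit 41901779306379836653579)) (.alt (nat_lit 30) (.exp (.alt (nat_lit 31) (.exp (.alt (nat_lit 27) (.exp (.alt (nat_lit 29) (.exp (.alt (nat_lit 28) (.cov (nat_lit 6520924047649808580611)) (.alt (nat_lit 28) (.exp (.alt (nat_lit 20) (.exp (.alt (nat_lit 12) (.cov (nat_lit 2833881067276094930945)) (.alt (nat_lit 24) (.cov (nat_lit 2961178639)) .e))) .e)) (.alt (nat_lit 28) (.exp (.alt (nat_lit 12) (.cov (nat_lit 102065834968677452087298)) (.alt (nat_lit 20) (.cov (nat_lit 166232850499)) .e))) .e)))) .e)) .e)) .e)) (.alt (nat_lit 30) (.cov (nat_lit 6705392576902167789569)) (.alt (nat_lit 30) (.exp (.alt (nat_lit 31) (.cov (nat_lit 7814502098975912361991)) (.alt (nat_lit 31) (.cov (nat_lit 102261832044446600921091)) (.alt (nat_lit 31) (.exp (.alt (nat_lit 27) (.exp (.alt (nat_lit 29) (.cov (nat_lit 7657704666630454247426)) (.alt (nat_lit 29) (.cov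 (nat_lit 6624687112961886519297)) (.alt (nat_lit 29) (.exp (.alt (nat_lit 21) (.cov (nat_lit 63281555562454083174403)) (.alt (nat_lit 13) (.exp (.alt (nat_lit 5) (.exp (.alt (nat_lit 12) (.cov (nat_lit 102065834968787409960961)) (.alt (nat_lit 9) (.cov (nat_lit 21214789647)) .e))) .e)) (.alt (nat_lit 13) (.exp (.alt (nat_lit 12) (.cov (nat_lit 102065834968677452087298)) (.alt (nat_lit 5) (.cov (nat_lit 28760342595)) .e))) .e)))) .e)))) .e)) (.alt (nat_lit 14) (.cov (nat_lit 213910536)) .e))))) .e))))) .e)) (.alt (nat_lit 19) (.cov (nat_lit 10463750582)) .e)))))) .e)) .e)) .e)) (.alt (nat_lit 18) (.exp (.alt (nat_lit 19) (.exp (.alt (nat_lit 23) (.exp (.alt (nat_lit 16) (.cov (nat_lit 10164156413433853509670)) (.alt (nat_lit 16) (.cov (nat_lit 55342501625262505991)) (.alt (nat_lit 16) (.exp (.alt (nat_lit 20) (.exp (.alt (nat_lit 24) (.cov (nat_lit 348922470140162695233556)) (.alt (nat_lit 24) (.cov (nat_lit 359712615729904746498)) (.alt (nat_lit 24) (.exp (.alt (nat_lit 8) (.cov (nat_lit 22016190410970476052487)) (.alt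 (nat_lit 25) (.exp (.alt (nat_lit 27) (.exp (.alt (nat_lit 9) (.cov (nat_lit 25474953711094567272450)) (.alt (nat_lit 9) (.exp (.alt (nat_lit 8) (.cov (nat_lit 7775302644818914574343)) (.alt (nat_lit 13) (.cov (nat_lit 104657602587953053302784)) .e))) .e))) .e)) .e))) .e)))) .e)) .e)))) .e)) .e)) (.alt (nat_lit 18) (.exp (.alt (nat_lit 19) (.cov (nat_lit 717120617521901207590)) (.alt (nat_lit 19) (.cov (nat_lit 800136256702368448546)) (.alt (nat_lit 19) (.exp (.alt (nat_lit 23) (.exp (.alt (nat_lit 7) (.exp (.alt (nat_lit 6) (.exp (.alt (nat_lit 5) (.exp (.alt (nat_lit 27) (.cov (nat_lit 104687578604269234814987)) (.alt (nat_lit 27) (.exp (.alt (nat_lit 25) (.exp (.alt (nat_lit 9) (.exp (.alt (nat_lit 29) (.exp (.alt (nat_lit 26) (.cov (nat_lit 1692488786355114999811)) (.alt (nat_lit 26) (.exp (.alt (nat_lit 10) (.exp (.alt (nat_lit 24) (.cov (nat_lit 404343406732473230426113)) (.alt (nat_lit 24) (.exp (.alt (nat_lit 28) (.cov (nat_lit 404306513246524234792960)) (.alt (nat_lit 16) (.cov (nat_lit 1933574152)) .e))) .e)))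 .e)) (.alt (nat_lit 31) (.cov (nat_lit 11607736515)) .e)))) .e)) .e)) .e)) (.alt (nat_lit 27) (.cov (nat_lit 7881377045987686612993)) (.alt (nat_lit 27) (.exp (.alt (nat_lit 25) (.exp (.alt (nat_lit 9) (.exp (.alt (nat_lit 8) (.exp (.alt (nat_lit 10) (.exp (.alt (nat_lit 24) (.exp (.alt (nat_lit 29) (.cov (nat_lit 404343406732472631689217)) (.alt (nat_lit 29) (.exp (.alt (nat_lit 28) (.cov (nat_lit 41685029931560296513536)) (.alt (nat_lit 21) (.cov (nat_lit 1933574152)) .e))) .e))) .e)) .e)) .e)) .e)) (.alt (nat_lit 31) (.cov (nat_lit 25525682540825793265667)) (.alt (nat_lit 31) (.exp (.alt (nat_lit 29) (.exp (.alt (nat_lit 30) (.cov (nat_lit 1581808337307247312898)) (.alt (nat_lit 30) (.cov (nat_lit 2942255822693803753473)) (.alt (nat_lit 30) (.exp (.alt (nat_lit 14) (.cov (nat_lit 29021340131575279386627)) (.alt (nat_lit 28) (.exp (.alt (nat_lit 20) (.exp (.alt (nat_lit 12) (.cov (nat_lit 404297289872288953401345)) (.alt (nat_lit 12) (.exp (.alt (nat_lit 8) (.cov (nat_lit 41638913071376011100160)) (.alt (nat_lit 13)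 (.cov (nat_lit 4606394376)) .e))) .e))) .e)) (.alt (nat_lit 14) (.cov (nat_lit 10515120745)) .e)))) .e)))) .e)) (.alt (nat_lit 11) (.cov (nat_lit 110104458)) .e))))) .e))))) .e)) .e)) .e)) .e)) (.alt (nat_lit 19) (.cov (nat_lit 4120564938654142693379)) (.alt (nat_lit 22) (.exp (.alt (nat_lit 6) (.exp (.alt (nat_lit 23) (.cov (nat_lit 6712310904203980570642)) (.alt (nat_lit 23) (.cov (nat_lit 1694800256693540225035)) (.alt (nat_lit 23) (.cov (nat_lit 809362839175735279618)) (.alt (nat_lit 23) (.cov (nat_lit 24126050849299589234689)) (.alt (nat_lit 23) (.exp (.alt (nat_lit 31) (.cov (nat_lit 7814502387218616680482)) (.alt (nat_lit 21) (.cov (nat_lit 22055391824757433303047)) (.alt (nat_lit 21) (.cov (nat_lit 415060509164919848963)) (.alt (nat_lit 21) (.exp (.alt (nat_lit 20) (.exp (.alt (nat_lit 29) (.cov (nat_lit 104659908611467183652875)) (.alt (nat_lit 29) (.cov (nat_lit 795517742534152421378)) (.alt (nat_lit 29) (.cov (nat_lit 347822588546514416566273)) (.alt (nat_lit 5) (.cov (nat_lit 47560267063)) .e))))) .e)) (.alt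 (nat_lit 19) (.cov (nat_lit 10463750582)) .e)))))) .e)))))) .e)) (.alt (nat_lit 19) (.cov (nat_lit 21230529342)) .e))))))) .e))))))) .e)) (.alt (nat_lit 2) (.exp (.alt (nat_lit 3) (.cov (nat_lit 347847952795429382389992)) (.alt (nat_lit 3) (.cov (nat_lit 21718750747707959148563)) (.alt (nat_lit 18) (.exp (.alt (nat_lit 19) (.exp (.alt (nat_lit 3) (.exp (.alt (nat_lit 23) (.exp (.alt (nat_lit 16) (.cov (nat_lit 10164156413433853509670)) (.alt (nat_lit 16) (.cov (nat_lit 55342501625262505991)) (.alt (nat_lit 16) (.exp (.alt (nat_lit 20) (.exp (.alt (nat_lit 24) (.cov (nat_lit 348922470140162695233556)) (.alt (nat_lit 24) (.cov (nat_lit 359712615729904746498)) (.alt (nat_lit 24) (.exp (.alt (nat_lit 8) (.cov (nat_lit 22016190410970476052487)) (.alt (nat_lit 25) (.exp (.alt (nat_lit 27) (.exp (.alt (nat_lit 9) (.cov (nat_lit 25474953711094567272450)) (.alt (nat_lit 9) (.exp (.alt (nat_lit 8) (.cov (nat_lit 7775302644818914574343)) (.alt (nat_lit 13) (.cov (nat_lit 104657602587953053302784)) .e))) .e))) .e)) .e))) .e))))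 .e)) .e)))) .e)) .e)) .e)) (.alt (nat_lit 3) (.cov (nat_lit 154154288)) .e))))) .e)))))))) .e)))))))) .e)) .e))])]

/-- the special vectors, positions [0, 17, 15] -/
def s3_8 : List (List ℕ) := [[1, 21, 1], [1, 18, 4], [1, 15, 7], [1, 14, 8], [1, 12, 10], [1, 11, 11], [1, 8, 14], [1, 7, 15], [1, 4, 18], [1, 1, 21], [4, 18, 1], [4, 15, 4], [4, 11, 8], [4, 8, 11], [4, 4, 15], [4, 1, 18], [7, 15, 1], [7, 8, 8], [7, 1, 15], [8, 14, 1], [8, 11, 4], [8, 8, 7], [8, 7, 8], [8, 4, 11], [8, 1, 14], [10, 12, 1], [11, 11, 1], [11, 8, 4], [11, 4, 8], [11, 1, 11], [12, 10, 1], [12, 1, 10], [14, 8, 1], [14, 1, 8], [15, 7, 1], [15, 4, 4], [15, 1, 7], [18, 4, 1], [18, 1, 4], [21, 1, 1]]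

theorem t3_8 : ∀ s ∈ s3_8, GF FULL [0, 17, 15] s := by
  intro s hs
  have h := JT.chkW_ok (zs := [0, 17, 15]) good (by decide) (by decide) (L := w3_8) (by decide +kernel)
  have e : s3_8 = w3_8.map Prod.fst := rfl
  rw [e] at hs
  obtain ⟨x, hx, rfl⟩ := List.mem_map.1 hs
  exact h x hx

theorem d3_8 : Bm.cls itab 9532 (fun l => JT.ro (exV [] l) (Bm.spV s3_8 l)) [0, 15, 17] [0, 0, 0] 137 23
    (nat_lit 0x253b253100d9252f253b00d4253b243b0378253b240a053a252e24df052a24de2530052c240a253b052f253b1d770ec72518204711a82047251811a811ac252820591b5424112276253b052e24110530253b24112535053b24ef052d250724ef2535037e250d24e3053d253511ac20592528052b24e0253400d8253b253524ef03a3253a240a0531253b0ec51d70253b05392411253b0386246b253b00db2531253b2534225e0e9e0cf12338245b226023dc199325341afa175523d407e524f42536225e07e22510253a00e724071b67228322601b1a231822550a3a2537226024f30c7d0983253a225c158e252f1d4122681d4f225f14fb1d6225332538045f245e253a1ab3146e07762441250424f507a6245c12c3253a1744045c2450253a23d825370562226522591d57253a250c00ea252d00a72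53624f424ff03730fed1d4f25390cda2501225d01c32530251f24f309ec23ad07e723c22524251b2441055c0d15211c253624ff2337097c245724f8055d245803b1253a253602d224d1233724f307e60798253a2388253a21190d2823e524c60eaa2536244404e0240122701a1407e42528237019012522194324551b021d58253b01bb244725371cf9108124e20bd123461d5d240d1d77243309e4243c226025370a4000e82536250201c124d02537055e2526244d25390d101d6b235f162824061d70253a0e74244c0561252307e32263253a077023c9253a1a422537126024551d7b1ae024c024080c7f11ac225f244723bd237112e9253a117c17f325040cdc22741d6b1d5424101aee11aa253a151f1b30253a24091d801d6400e9250f25380e7b2261252f24f411ab1d100371253a2468226d0c80252c1a5f1d6e24551b1d227023561d6e0d08253719b824531d47253a098b22771d772521143a232607a425361d621a392459244901ba253b226a11ab245c0e3925361d75253924d001c21d84226f22770ca324eb234411ac2444225f245311ab22762437224c11a80ac3245724652437253603732536001f2538253a055f236911ac23bd23bd25331cf9136d253700a525232537240e07d00020253a25391d5611a9252d244e244f09b02256244211a823980bda2455190517da24f11d5824421a2d253925380022) = true :=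 by decide +kernel

theorem f3_8 : CB B3 (maskL [0, 15, 17]) 23 :=
  cb igood d3_8 rfl (by decide) (by decide) (by norm_num) (fun _ hk => Or.inl hk)
    t3_8 (fun _ _ h => absurd h List.not_mem_nil)

/-- the representatives of this file -/
def reps3_1 : List (List ℕ) :=
  [[0, 15, 16],
   [0, 15, 17]]

theorem all3_1 : ∀ zs ∈ reps3_1, CB B3 (maskL zs) 23 := by
  unfold reps3_1
  refine List.forall_mem_cons.2 ⟨f3_6, ?_⟩
  refine List.forall_mem_cons.2 ⟨f3_8, ?_⟩
  exact fun _ h => absurd h List.not_mem_nil

end K4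

end Pool.Agent.Work.MP_bf01b2_co.MR
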