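import Pool.Agent.Work.MP_bf01b2_co.MR.J3
import Pool.Agent.Work.MP_bf01b2_co.MR.B5Chain

/-!
# Class aware certificates for several roots

The fact for the roots `zs` with sizes `ns` follows from the facts for all possible sizes of the two
classes of the trees.
-/

set_option autoImplicit false

namespace Pool.Agent.Work.MP_bf01b2_co.MR

namespace JT

open Tab

/-- the slots for the tree with `n` vertices and its root at `z` -/
def csl (z n : ℕ) : List (ℕ × ℕ × ℕ) :=
  ((List.range (n + 1)).filter fun a => decide (n ≤ 3 * a ∧ 3 * a ≤ 2 * n + 1)).map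
    fun a => (z ^^^ 32, a, n - a)

/-- all combinations of slots -/
def combos : List ℕ → List ℕ → List (List (ℕ × ℕ × ℕ))
  | z :: zs, n :: ns => (csl z n).flatMap fun s => (combos zs ns).map fun t => s :: t
  | _, _ => [[]]

theorem csl_ok {z n : ℕ} {t : BT} (ht : t ≠ .nil) (hn : t.A + t.B ≤ n) :
    ∃ s ∈ csl z n, Sl (z ^^^ 32, t) s := by
  have hv : 1 ≤ t.A ∧ t.A ≤ 2 * t.B + 1 ∧ t.B ≤ 2 * t.A := by
    rcases BT.valid t with ⟨e, _⟩ | ⟨_, e⟩
    · exact absurd e ht
    · exact e
  obtain ⟨a, h1, h2, h3, h4, h5⟩ : ∃ a, a ≤ n ∧ n ≤ 3 * a ∧ 3 * a ≤ 2 * n + 1 ∧ t.A ≤ a ∧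
      t.B ≤ n - a := by
    by_cases h : n ≤ 3 * t.A
    · exact ⟨t.A, by omega, h, by omega, le_rfl, by omega⟩
    · exact ⟨(n + 2) / 3, by omega, by omega, by omega, by omega, by omega⟩
  refine ⟨(z ^^^ 32, a, n - a), ?_, rfl, h4, h5⟩
  unfold csl
  rw [List.mem_map]
  refine ⟨a, ?_, rfl⟩
  rw [List.mem_filter, List.mem_range]
  exact ⟨by omega, by simpa using ⟨h2, h3⟩⟩

/-- the tree of a pair -/
def nd2 (x : HT × HT) : BT := .node (bt x.1) (bt x.2)

theorem nd2_size (x : HT × HT) : (nd2 x).A + (nd2 x).B = x.1.size + x.2.size + 1 := by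
  have h1 := bt_size x.1
  have h2 := bt_size x.2
  unfold nd2
  rw [BT.A_node, BT.B_node]
  unfold BT.A BT.B
  omega

theorem combos_ok {τ : ℕ → HT × HT} : ∀ {zs ns : List ℕ},
    List.Forall₂ (fun z n => (τ z).1.size + (τ z).2.size + 1 ≤ n) zs ns →
    ∃ ss ∈ combos zs ns, List.Forall₂ Sl (zs.map fun z => (z ^^^ 32, nd2 (τ z))) ss
  | [], _, h => by
    cases h
    exact ⟨[], by simp [combos], List.Forall₂.nil⟩
  | z :: zs, _, h => by
    cases h with
    | @cons _ n _ ns h1 h2 =>
      obtain ⟨s, h3, h4⟩ := csl_ok (z := z) (n := n) (t := nd2 (τ z)) (by unfold nd2; simp)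
        (by rw [nd2_size]; exact h1)
      obtain ⟨ss, h5, h6⟩ := combos_ok h2
      refine ⟨s :: ss, ?_, List.Forall₂.cons h4 h6⟩
      unfold combos
      rw [List.mem_flatMap]
      exact ⟨s, h3, List.mem_map.2 ⟨ss, h5, rfl⟩⟩

/-- from placements below virtual parents to roots -/
theorem roots_of_pl {τ : ℕ → HT × HT} : ∀ {zs : List ℕ} {F : Set ℕ}, zs.Nodup →
    (∀ z ∈ zs, z < 32) → (∀ v ∈ F, v < 32) →
    Pl jadj (zs.map fun z => (z ^^^ 32, nd2 (τ z))) F →
    ∃ (A : ℕ → Finset ℕ) (q : ℕ → List ℕ),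
      (∀ z ∈ zs, Root (ncadj 5) (τ z).1 (τ z).2 z (A z) (q z) ∧ ∀ v ∈ A z, v ∈ F) ∧
      ∀ z ∈ zs, ∀ z' ∈ zs, z ≠ z' → Disjoint (A z) (A z')
  | [], _, _, _, _, _ => ⟨fun _ => ∅, fun _ => [], by simp, by simp⟩
  | z :: zs, F, hnd, hz, hF, h => by
    obtain ⟨S, h1, h2, h3⟩ := h
    obtain ⟨A', q', h4, h5⟩ := roots_of_pl (List.nodup_cons.1 hnd).2
      (fun y hy => hz y (List.mem_cons_of_mem _ hy)) (fun v hv => hF v hv.1) h3
    have hS' : ∀ v ∈ S, v < 32 := fun v hv => hF v (h1 v hv)
    obtain ⟨x, hx, A, B, hA, hB, g1, g2, g3, rfl⟩ := h2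
    have hx' : x < 32 := hS' x (Finset.mem_insert_self _ _)
    have hx0 : x = z := jadj_virt (hz z List.mem_cons_self) hx' hx
    subst hx0
    have hA2 := BS.real hx' (fun u hu => hS' u
      (Finset.mem_insert_of_mem (Finset.mem_union_left _ hu))) hA
    have hB2 := BS.real hx' (fun u hu => hS' u
      (Finset.mem_insert_of_mem (Finset.mem_union_right _ hu))) hB
    obtain ⟨pa, hpa⟩ := BS.slot hA2
    obtain ⟨pb, hpb⟩ := BS.slot hB2
    have hne : ∀ y ∈ zs, y ≠ x := by
      rintro y hy rfl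
      exact (List.nodup_cons.1 hnd).1 hy
    have hdis : ∀ y ∈ zs, Disjoint (insert x (A ∪ B)) (A' y) := by
      intro y hy
      rw [Finset.disjoint_left]
      intro v hv hv'
      exact ((h4 y hy).2 v hv').2 hv
    refine ⟨fun y => if y = x then insert x (A ∪ B) else A' y,
      fun y => if y = x then pa ++ pb else q' y, ?_, ?_⟩
    · intro y hy
      rcases List.mem_cons.1 hy with rfl | hy
      · simp only [if_true]
        exact ⟨⟨A, B, pa, pb, hpa, hpb, g1, g2, g3, rfl, rfl⟩, h1⟩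
      · simp only [if_neg (hne y hy)]
        exact ⟨(h4 y hy).1, fun v hv => ((h4 y hy).2 v hv).1⟩
    · intro y hy y' hy' hyy
      rcases List.mem_cons.1 hy with e1 | e1
      · rcases List.mem_cons.1 hy' with e2 | e2
        · exact absurd (e1.trans e2.symm) hyy
        · simp only [if_pos e1, if_neg (hne y' e2)]
          exact hdis y' e2
      · rcases List.mem_cons.1 hy' with e2 | e2
        · simp only [if_pos e2, if_neg (hne y e1)]
          exact (hdis y e1).symm
        · simp only [if_neg (hne y e1), if_neg (hne y' e2)]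
          exact h5 y e1 y' e2 hyy

/-- **Several roots.** -/
theorem GF_of_combos {zs ns : List ℕ} (hnd : zs.Nodup) (hz : ∀ z ∈ zs, z < 32)
    (h : ∀ ss ∈ combos zs ns, JG (2 ^ 32 - 1) ss) (hl : zs.length = ns.length) :
    GF FULL zs ns := by
  intro k hk τ hτ
  have h1 : ∀ z ∈ zs, (τ z).1.size + (τ z).2.size ≤ k z := by
    intro z hz
    exact (hτ ⟨z, k z, 0⟩ (by
      unfold mkL
      exact List.mem_map.2 ⟨z, hz, rfl⟩)).1
  have h2 : List.Forall₂ (fun z n => (τ z).1.size + (τ z).2.size + 1 ≤ n) zs ns := by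
    clear h hτ hnd hz
    induction zs generalizing ns with
    | nil =>
      cases ns with
      | nil => exact List.Forall₂.nil
      | cons n ns => simp at hl
    | cons z zs ih =>
      cases ns with
      | nil => simp at hl
      | cons n ns =>
        obtain ⟨k1, k2⟩ := hk
        refine List.Forall₂.cons ?_ (ih (by simpa using hl) k2
          (fun z hz => h1 z (List.mem_cons_of_mem _ hz)))
        have := h1 z List.mem_cons_self
        omega
  obtain ⟨ss, h3, h4⟩ := combos_ok h2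
  obtain ⟨A, q, h5, h6⟩ := roots_of_pl hnd hz (fun v hv => by
    by_contra hc
    push Not at hc
    have h2 : (2 ^ 32 - 1).testBit v = true := hv
    rw [testBit_ge (by norm_num) hc] at h2
    exact absurd h2 (by simp)) (h ss h3 _ h4)
  refine ⟨A, q, ?_, ?_⟩
  · intro m hm
    unfold mkL at hm
    obtain ⟨z, hz', rfl⟩ := List.mem_map.1 hm
    obtain ⟨h7, h8⟩ := h5 z hz'
    refine ⟨h7, fun v hv => h8 v hv, ?_⟩
    intro v _
    rw [msk_zero]
    exact Set.notMem_empty v
  · intro m hm m' hm' hne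
    unfold mkL at hm hm'
    obtain ⟨z, hz', rfl⟩ := List.mem_map.1 hm
    obtain ⟨z', hz'', rfl⟩ := List.mem_map.1 hm'
    exact h6 z hz' z' hz'' hne

/-- check of certificates for all combinations -/
noncomputable def chkV (T lim : ℕ) (sss : List (List (ℕ × ℕ × ℕ))) : List (J true) → Bool :=
  List.rec (motive := fun _ => List (J true) → Bool) (fun _ => true)
    (fun ss _ ih cs => List.rec (motive := fun _ => Bool) false
      (fun c cs' _ => nd (chkJ T lim c 0 0 0 [] 4294967295 ss) (ih cs')) cs) sss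

theorem chkV_ok {T lim : ℕ} (hT : ∀ i < lim, JGood T i) :
    ∀ {sss : List (List (ℕ × ℕ × ℕ))} {cs : List (J true)}, chkV T lim sss cs = true →
      ∀ ss ∈ sss, JG (2 ^ 32 - 1) ss
  | [], _, _, ss, hss => absurd hss List.not_mem_nil
  | ss :: sss, [], h, _, _ => by
    have h' : false = true := h
    exact absurd h' (by simp)
  | ss :: sss, c :: cs, h, ss', hss => by
    have h' : nd (chkJ T lim c 0 0 0 [] 4294967295 ss) (chkV T lim sss cs) = true := h
    rw [nd_iff] at h'
    rcases List.mem_cons.1 hss with rfl | hss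
    · exact chkJ_ok hT c h'.1
    · exact chkV_ok hT h'.2 ss' hss

/-- the facts of a list of certificates -/
noncomputable def chkW (T lim : ℕ) (zs : List ℕ) (L : List (List ℕ × List (J true))) : Bool :=
  List.rec (motive := fun _ => Bool) true
    (fun x _ ih => nd (nd (Nat.beq zs.length x.1.length) (chkV T lim (combos zs x.1) x.2)) ih) L

theorem chkW_ok {T lim : ℕ} (hT : ∀ i < lim, JGood T i) {zs : List ℕ} (hnd : zs.Nodup)
    (hz : ∀ z ∈ zs, z < 32) : ∀ {L : List (List ℕ × List (J true))},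
    chkW T lim zs L = true → ∀ x ∈ L, GF FULL zs x.1
  | [], _, x, hx => absurd hx List.not_mem_nil
  | y :: L, h, x, hx => by
    have h' : nd (nd (Nat.beq zs.length y.1.length) (chkV T lim (combos zs y.1) y.2))
      (chkW T lim zs L) = true := h
    rw [nd_iff, nd_iff] at h'
    rcases List.mem_cons.1 hx with rfl | hx
    · exact GF_of_combos hnd hz (chkV_ok hT h'.1.2) (Nat.eq_of_beq_eq_true h'.1.1)
    · exact chkW_ok hT hnd hz h'.2 x hx

end JT

end Pool.Agent.Work.MP_bf01b2_co.MR
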