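import Pool.Agent.Work.MP_bf01b2_co.MR.K5S
import Pool.Agent.Work.MP_bf01b2_co.MR.K4J

/-!
# Three and four roots in `Q_5`: the exceptions

`Q_5` contains all forests with four roots and 22 vertices (three roots and 23 vertices), with a
short list of exceptions.
-/

set_option autoImplicit false

namespace Pool.Agent.Work.MP_bf01b2_co.MR

namespace K4

open Tab Exc

/-! ### Classes with exceptions at the exact total size -/

/-- as `Bm.cls_ok`, with the total size -/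
theorem cls_ok' {T lim : ℕ} (hT : ∀ i < lim, Good T i) {sp : List ℕ → Bool} {z0 : ℕ}
    {zs Ps : List ℕ} (hPs : Ps = (z0 :: zs).map fun _ => 0) (hz : ∀ z ∈ z0 :: zs, z < 32)
    {M N D : ℕ} (hM : M ≤ 512) (h : Bm.cls T lim sp (z0 :: zs) Ps M N D = true) (k : ℕ → ℕ)
    (hk : ((z0 :: zs).map fun z => k z + 1).sum = N) :
    NF 5 FULL 0 (mkL k (z0 :: zs)) ∨
      sp ((k z0 + 1) :: (zs.map fun z => k z + 1).reverse) = true := by
  rw [List.map_cons, List.sum_cons] at hk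
  obtain ⟨Ps', cs', hI, hf⟩ := Bm.acc_ok hT hz h (by omega) (by rw [hPs]; exact Bm.inv_zero _)
  rw [Nat.zero_add] at hI
  cases hPc : Ps' with
  | nil =>
    rw [hPc] at hf
    have hf' : false = true := hf
    exact absurd hf' (by simp)
  | cons P0 Ps'' =>
    rw [hPc] at hf hI
    have hf' : JT.fB (Nat.pred (Nat.pow 2 M)) (fun m => Bm.dom sp P0 Ps'' m N []) = true := hf
    rw [JT.fB_eq] at hf'
    have hrow := hI.row
    cases hcs : cs' with
    | nil =>
      rw [hcs] at hrow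
      cases hrow
    | cons c0 cs'' =>
      rw [hcs] at hrow hI
      have hlen : cs''.length = zs.length := by
        have := hI.len
        simpa using this
      cases hrow with
      | cons hr0 hrs =>
        have hl : Ps''.length = cs''.length := hrs.length_eq
        rcases Bm.dom_ok hf' (zs.map fun z => k z + 1) (k z0 + 1)
          (by rw [List.length_map, hl, hlen])
          (fun n hn => by
            obtain ⟨z, _, rfl⟩ := List.mem_map.1 hn
            omega) (by omega) hk with ⟨j, h1, h2, h3⟩ | h1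
        · left
          have hj : j < M := by
            have h1' : (2 ^ M - 1).testBit j = true := h1
            rw [Nat.testBit_two_pow_sub_one, decide_eq_true_eq] at h1'
            exact h1'
          have hg := hI.fact j hj
          rw [List.map_cons] at hg
          exact hg k ⟨(hr0 _ _ (by omega) h2).2, Bm.capsL_of (by omega) hrs h3 (Bm.capsL_map k zs)⟩
        · right
          rw [List.append_nil] at h1
          exact h1

/-- equality with one of the vectors of the list -/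
noncomputable def exV (S : List (List ℕ)) (l : List ℕ) : Bool :=
  List.rec (motive := fun _ => Bool) false (fun s _ ih => JT.ro (eqL l s) ih) S

theorem exV_ok {l : List ℕ} : ∀ {S : List (List ℕ)}, exV S l = true → l ∈ S
  | [], h => by
    have h' : false = true := h
    exact absurd h' (by simp)
  | s :: S, h => by
    have h' : JT.ro (eqL l s) (exV S l) = true := h
    rw [JT.ro_iff] at h'
    rcases h' with h' | h'
    · rw [eqL_ok h']
      exact List.mem_cons_self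
    · exact List.mem_cons_of_mem _ (exV_ok h')

theorem sum_maskL {zs : List ℕ} (hnd : zs.Nodup) (hz : ∀ z ∈ zs, z < 32) (k : ℕ → ℕ) :
    ∑ z ∈ pos32 (maskL zs), (k z + 1) = (zs.map fun z => k z + 1).sum := by
  rw [← List.sum_toFinset _ hnd]
  apply Finset.sum_congr _ (fun _ _ => rfl)
  ext z
  rw [List.mem_toFinset, mem_pos32 (maskL_lt hz), testBit_maskL]

/-- the fact for a class, from its certificate; `S` is the list of the special facts and `E` the
list of the exceptions -/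
theorem cb {T lim : ℕ} (hT : ∀ i < lim, Good T i) {S E : List (List ℕ)} {z0 : ℕ}
    {zs Ps : List ℕ} {M N D : ℕ}
    (h : Bm.cls T lim (fun l => JT.ro (exV E l) (Bm.spV S l)) (z0 :: zs) Ps M N D = true)
    (hPs : Ps = (z0 :: zs).map fun _ => 0) (hnd : (z0 :: zs).Nodup)
    (hz : ∀ z ∈ z0 :: zs, z < 32) (hM : M ≤ 512) {B : ℕ → (ℕ → ℕ) → Prop}
    (hB : ∀ k : ℕ → ℕ, (∑ z ∈ pos32 (maskL (z0 :: zs)), (k z + 1)) < N → B (maskL (z0 :: zs)) k)
    (hS : ∀ s ∈ S, GF FULL (z0 :: zs.reverse) s)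
    (hE : ∀ (k : ℕ → ℕ), ∀ s ∈ E, (k z0 + 1) :: (zs.map fun z => k z + 1).reverse = s →
      B (maskL (z0 :: zs)) k) :
    CB B (maskL (z0 :: zs)) N := by
  refine CB.of_cls hnd hz fun k hk hb => ?_
  rcases Nat.lt_or_eq_of_le hk with hk | hk
  · exact absurd (hB k (by rw [sum_maskL hnd hz]; exact hk)) hb
  · rcases cls_ok' hT hPs hz hM h k hk with h1 | h1
    · exact h1
    · rw [JT.ro_iff] at h1
      rcases h1 with h1 | h1
      · exact absurd (hE k _ (exV_ok h1) rfl) hb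
      · exact Bm.spV_nf hS le_rfl h1

/-! ### Parity -/

/-- the same colour in all proper colourings with two colours -/
def Ev (a b : ℕ) : Prop := ∀ f : ℕ → Bool, (∀ x y, ncadj 5 x y → f x ≠ f y) → f a = f b

theorem Ev.map {a b : ℕ} {e : ℕ ≃ ℕ} (he : ∀ a b, ncadj 5 a b → ncadj 5 (e a) (e b))
    (h : Ev a b) : Ev (e a) (e b) := fun f hf =>
  h (fun x => f (e x)) fun _ _ hxy => hf _ _ (he _ _ hxy)

theorem Ev.symm {a b : ℕ} (h : Ev a b) : Ev b a := fun f hf => (h f hf).symm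

theorem Ev.trans {a b c : ℕ} (h : Ev a b) (h' : Ev b c) : Ev a c :=
  fun f hf => (h f hf).trans (h' f hf)

theorem Ev.refl (a : ℕ) : Ev a a := fun _ _ => rfl

/-- two steps -/
theorem Ev.two {a i j : ℕ} (hi : i < 5) (hj : j < 5) : Ev a ((a ^^^ 2 ^ i) ^^^ 2 ^ j) := by
  intro f hf
  have h1 := hf a (a ^^^ 2 ^ i) ⟨i, hi, rfl⟩
  have h2 := hf (a ^^^ 2 ^ i) ((a ^^^ 2 ^ i) ^^^ 2 ^ j) ⟨j, hj, rfl⟩
  cases h3 : f a <;> cases h4 : f (a ^^^ 2 ^ i) <;> cases h5 : f ((a ^^^ 2 ^ i) ^^^ 2 ^ j) <;>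
    simp_all

theorem Ev.all {l : List ℕ} (h : ∀ a ∈ l, Ev 0 a) : ∀ a ∈ l, ∀ b ∈ l, Ev a b :=
  fun a ha b hb => (h a ha).symm.trans (h b hb)

/-! ### Sizes -/

/-- the sizes -/
def szs (S : ℕ) (k : ℕ → ℕ) : Multiset ℕ := (pos32 S).val.map fun z => k z + 1

theorem pos32_map {e : ℕ ≃ ℕ} {S S' : ℕ} (hS : S < 2 ^ 32) (hS' : S' < 2 ^ 32)
    (he : ∀ v, S'.testBit (e v) = S.testBit v) : pos32 S' = (pos32 S).map e.toEmbedding := by
  ext v
  rw [mem_pos32 hS', Finset.mem_map]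
  constructor
  · intro h
    refine ⟨e.symm v, ?_, e.apply_symm_apply v⟩
    rw [mem_pos32 hS, ← he, e.apply_symm_apply]
    exact h
  · rintro ⟨u, hu, rfl⟩
    rw [mem_pos32 hS] at hu
    show S'.testBit (e u) = true
    rw [he]
    exact hu

theorem szs_map {e : ℕ ≃ ℕ} {S S' : ℕ} {k : ℕ → ℕ} (hS : S < 2 ^ 32) (hS' : S' < 2 ^ 32)
    (he : ∀ v, S'.testBit (e v) = S.testBit v) : szs S' k = szs S (fun z => k (e z)) := by
  unfold szs
  rw [pos32_map hS hS' he, Finset.map_val, Multiset.map_map]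
  rfl

theorem sum_map {e : ℕ ≃ ℕ} {S S' : ℕ} {k : ℕ → ℕ} (hS : S < 2 ^ 32) (hS' : S' < 2 ^ 32)
    (he : ∀ v, S'.testBit (e v) = S.testBit v) :
    ∑ z ∈ pos32 S', (k z + 1) = ∑ z ∈ pos32 S, (k (e z) + 1) := by
  rw [pos32_map hS hS' he, Finset.sum_map]
  rfl

theorem szs_maskL {zs : List ℕ} (hnd : zs.Nodup) (hz : ∀ z ∈ zs, z < 32) (k : ℕ → ℕ) :
    szs (maskL zs) k = ((zs.map fun z => k z + 1 : List ℕ) : Multiset ℕ) := by
  unfold szs
  have h : pos32 (maskL zs) = zs.toFinset := by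
    ext z
    rw [List.mem_toFinset, mem_pos32 (maskL_lt hz), testBit_maskL]
  rw [h, List.toFinset_val, hnd.dedup]
  rfl

/-! ### Four roots -/

/-- the exceptions for four roots -/
def B4 (S : ℕ) (k : ℕ → ℕ) : Prop :=
  (∑ z ∈ pos32 S, (k z + 1)) < 22 ∨
  ((szs S k = {19, 1, 1, 1} ∨ szs S k = {7, 7, 7, 1} ∨ szs S k = {7, 7, 4, 4}) ∧
    ∀ a, S.testBit a = true → ∀ b, S.testBit b = true → Ev a b) ∨
  (∃ c, S.testBit c = true ∧ (∀ z, S.testBit z = true → z ≠ c → ncadj 5 c z) ∧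
    ((k c + 1 = 7 ∧ szs S k = {7, 9, 3, 3}) ∨ (k c + 1 = 13 ∧ szs S k = {13, 3, 3, 3})))

theorem B4_inv : AInv B4 := by
  intro e he S S' k hS hS' hSe h
  have hb : ∀ z, S'.testBit z = true → S.testBit (e.symm z) = true := by
    intro z hz
    rw [← hSe, e.apply_symm_apply]
    exact hz
  unfold B4 at h ⊢
  rw [szs_map hS hS' hSe, sum_map hS hS' hSe]
  rcases h with h | ⟨h, h'⟩ | ⟨c, h1, h2, h3⟩
  · exact Or.inl h
  · refine Or.inr (Or.inl ⟨h, fun a ha b hb' => ?_⟩)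
    have h5 := (h' _ (hb a ha) _ (hb b hb')).map he
    rwa [e.apply_symm_apply, e.apply_symm_apply] at h5
  · refine Or.inr (Or.inr ⟨e c, by rw [hSe]; exact h1, fun z hz hne => ?_, h3⟩)
    have h5 := he _ _ (h2 _ (hb z hz) (fun h0 => hne (by rw [← h0, e.apply_symm_apply])))
    rwa [e.apply_symm_apply] at h5

/-- the exceptions for three roots: the sizes, and the two roots with the given sizes are
adjacent -/
def B3 (S : ℕ) (k : ℕ → ℕ) : Prop :=
  (∑ z ∈ pos32 S, (k z + 1)) < 23 ∨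
  ∃ a b, S.testBit a = true ∧ S.testBit b = true ∧ ncadj 5 a b ∧
    ((szs S k = {9, 7, 7} ∧ k a + 1 = 9 ∧ k b + 1 = 7) ∨
      (szs S k = {12, 7, 4} ∧ k a + 1 = 12 ∧ k b + 1 = 7) ∨
      (szs S k = {15, 4, 4} ∧ k a + 1 = 15 ∧ k b + 1 = 4) ∨
      (szs S k = {15, 7, 1} ∧ k a + 1 = 15 ∧ k b + 1 = 7) ∨
      (szs S k = {19, 3, 1} ∧ k a + 1 = 19 ∧ k b + 1 = 3) ∨
      (szs S k = {21, 1, 1} ∧ k a + 1 = 21 ∧ k b + 1 = 1))

theorem B3_inv : AInv B3 := by
  intro e he S S' k hS hS' hSe h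
  unfold B3 at h ⊢
  rw [szs_map hS hS' hSe, sum_map hS hS' hSe]
  rcases h with h | ⟨a, b, h1, h2, h3, h4⟩
  · exact Or.inl h
  · exact Or.inr ⟨e a, e b, by rw [hSe]; exact h1, by rw [hSe]; exact h2, he _ _ h3, h4⟩

/-! ### Codes -/

/-- all triples `b < c < d` above `0`, for the given `b` -/
noncomputable def td (R M b : ℕ) (D : List ℕ) : Bool :=
  lp 32 (fun D' c => rng R M (Nat.lor 1 (Nat.lor (Nat.pow 2 b) (Nat.pow 2 c)))
    (Nat.succ c) (Nat.sub 31 c) D') D (Nat.succ b)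

theorem td_ok {B : ℕ → (ℕ → ℕ) → Prop} (hB : AInv B) {R M N b : ℕ}
    (hR : ∀ i < M, CB B (rep R i) N) {D : List ℕ} (h : td R M b D = true) {c d : ℕ}
    (hbc : b < c) (hcd : c < d) (hd : d < 32) : CB B (maskL [0, b, c, d]) N := by
  obtain ⟨D', hD'⟩ := lp_ok h c hbc (by omega)
  have h1 := rng_ok hB hR hD' (d - (c + 1)) (by
    show d - (c + 1) < 31 - c
    omega)
  have h2 : Nat.succ c + (d - (c + 1)) = d := by omega
  rw [h2] at h1
  have h3 : (Nat.lor 1 (Nat.lor (Nat.pow 2 b) (Nat.pow 2 c))) ||| 2 ^ d =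
      maskL [0, b, c, d] := by
    show (1 ||| (2 ^ b ||| 2 ^ c)) ||| 2 ^ d = 2 ^ 0 ||| (2 ^ b ||| (2 ^ c ||| (2 ^ d ||| 0)))
    rw [Nat.or_zero, pow_zero]
    simp only [Nat.or_assoc]
  rw [h3] at h1
  exact h1

/-- all pairs `b < c` above `0`, for the given `b` -/
noncomputable def pd (R M b D : ℕ) : Bool :=
  rng R M (Nat.lor 1 (Nat.pow 2 b)) (Nat.succ b) (Nat.sub 31 b) D

theorem pd_ok {B : ℕ → (ℕ → ℕ) → Prop} (hB : AInv B) {R M N b : ℕ}
    (hR : ∀ i < M, CB B (rep R i) N) {D : ℕ} (h : pd R M b D = true) {c : ℕ}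
    (hbc : b < c) (hc : c < 32) : CB B (maskL [0, b, c]) N := by
  have h1 := rng_ok hB hR h (c - (b + 1)) (by
    show c - (b + 1) < 31 - b
    omega)
  have h2 : Nat.succ b + (c - (b + 1)) = c := by omega
  rw [h2] at h1
  have h3 : (Nat.lor 1 (Nat.pow 2 b)) ||| 2 ^ c = maskL [0, b, c] := by
    show (1 ||| 2 ^ b) ||| 2 ^ c = 2 ^ 0 ||| (2 ^ b ||| (2 ^ c ||| 0))
    rw [Nat.or_zero, pow_zero]
    simp only [Nat.or_assoc]
  rw [h3] at h1
  exact h1

/-- sorting of three different positive numbers -/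
theorem sort3 {x y z : ℕ} (h : [x, y, z].Nodup) (h0 : ∀ a ∈ [x, y, z], 0 < a ∧ a < 32) :
    ∃ b c d, 0 < b ∧ b < c ∧ c < d ∧ d < 32 ∧ ∀ a, a ∈ [x, y, z] ↔ a ∈ [b, c, d] := by
  set l := [x, y, z].insertionSort (· ≤ ·) with hl
  have hp : l.Perm [x, y, z] := List.perm_insertionSort _ _
  have hs : l.Pairwise (· ≤ ·) := List.pairwise_insertionSort (· ≤ ·) _
  have hn : l.Nodup := hp.nodup_iff.2 h
  have hlen : l.length = 3 := hp.length_eq
  match l, hlen, hp, hs, hn with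
  | [b, c, d], _, hp, hs, hn =>
    have hm : ∀ a, a ∈ [x, y, z] ↔ a ∈ [b, c, d] := fun a => (hp.mem_iff).symm
    have h1 := h0 b ((hm b).2 (by simp))
    have h2 := h0 d ((hm d).2 (by simp))
    simp only [List.pairwise_cons, List.mem_cons, List.not_mem_nil, or_false] at hs
    simp only [List.nodup_cons, List.mem_cons, List.not_mem_nil, or_false, not_or] at hn
    obtain ⟨⟨n1, n2⟩, n3, _⟩ := hn
    obtain ⟨s1, s2, _⟩ := hs
    exact ⟨b, c, d, h1.1, lt_of_le_of_ne (s1 c (Or.inl rfl)) n1,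
      lt_of_le_of_ne (s2 d rfl) n3, h2.2, hm⟩

/-- reduction to sorted positions -/
theorem shift_ok {B : ℕ → (ℕ → ℕ) → Prop} (hB : AInv B) {N p : ℕ} {qs : List ℕ}
    (h : ∀ l : List ℕ, l.Nodup → l.length = qs.length → (∀ a ∈ l, 0 < a ∧ a < 32) →
      CB B (maskL (0 :: l)) N)
    (hnd : (p :: qs).Nodup) (hlt : ∀ a ∈ p :: qs, a < 32) : CB B (maskL (p :: qs)) N := by
  have hp : p < 32 := hlt p List.mem_cons_self
  refine CB.shift hB (qs := qs) hp (fun a ha => hlt a (List.mem_cons_of_mem _ ha)) ?_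
  refine h _ ?_ (List.length_map _) ?_
  · refine List.Nodup.map ?_ (List.nodup_cons.1 hnd).2
    intro a b hab
    exact Nat.xor_left_injective hab
  · intro a ha
    obtain ⟨x, hx, rfl⟩ := List.mem_map.1 ha
    refine ⟨xor_pos ?_, Nat.xor_lt_two_pow (n := 5) (hlt x (List.mem_cons_of_mem _ hx)) hp⟩
    rintro rfl
    exact (List.nodup_cons.1 hnd).1 hx

theorem quad_ok {B : ℕ → (ℕ → ℕ) → Prop} (hB : AInv B) {N : ℕ}
    (h : ∀ b c d, 0 < b → b < c → c < d → d < 32 → CB B (maskL [0, b, c, d]) N)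
    {p q r s : ℕ} (hnd : [p, q, r, s].Nodup) (hlt : ∀ a ∈ [p, q, r, s], a < 32) :
    CB B (maskL [p, q, r, s]) N := by
  refine shift_ok hB (qs := [q, r, s]) ?_ hnd hlt
  intro l hl hlen h0
  match l, hlen, hl, h0 with
  | [x, y, z], _, hl, h0 =>
    obtain ⟨b, c, d, h1, h2, h3, h4, h5⟩ := sort3 hl h0
    have h7 : maskL (0 :: [x, y, z]) = maskL [0, b, c, d] := by
      apply maskL_congr
      intro w
      have h8 := h5 w
      simp only [List.mem_cons, List.not_mem_nil, or_false] at h8 ⊢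
      rw [h8]
    rw [h7]
    exact h b c d h1 h2 h3 h4

theorem trip_ok {B : ℕ → (ℕ → ℕ) → Prop} (hB : AInv B) {N : ℕ}
    (h : ∀ b c, 0 < b → b < c → c < 32 → CB B (maskL [0, b, c]) N)
    {p q r : ℕ} (hnd : [p, q, r].Nodup) (hlt : ∀ a ∈ [p, q, r], a < 32) :
    CB B (maskL [p, q, r]) N := by
  refine shift_ok hB (qs := [q, r]) ?_ hnd hlt
  intro l hl hlen h0
  match l, hlen, hl, h0 with
  | [x, y], _, hl, h0 =>
    have h1 := h0 x (by simp)
    have h2 := h0 y (by simp)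
    have hne : x ≠ y := by
      rintro rfl
      simp at hl
    rcases lt_or_gt_of_ne hne with h3 | h3
    · exact h x y h1.1 h3 h2.2
    · have h7 : maskL (0 :: [x, y]) = maskL [0, y, x] := by
        apply maskL_congr
        intro w
        simp only [List.mem_cons, List.not_mem_nil, or_false]
        tauto
      rw [h7]
      exact h y x h2.1 h3 h1.2

/-! ### Small tools for the exceptions -/

theorem Ev.of {a b i j : ℕ} (hi : i < 5) (hj : j < 5) (h : b = (a ^^^ 2 ^ i) ^^^ 2 ^ j) :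
    Ev a b := by
  rw [h]
  exact Ev.two hi hj

theorem inj4 {a b c d a' b' c' d' : ℕ} (h : [a, b, c, d] = [a', b', c', d']) :
    a = a' ∧ b = b' ∧ c = c' ∧ d = d' := by
  cases h
  exact ⟨rfl, rfl, rfl, rfl⟩

theorem inj3 {a b c a' b' c' : ℕ} (h : [a, b, c] = [a', b', c']) : a = a' ∧ b = b' ∧ c = c' := by
  cases h
  exact ⟨rfl, rfl, rfl⟩

theorem szs4 {a b c d : ℕ} (hnd : [a, b, c, d].Nodup) (hz : ∀ z ∈ [a, b, c, d], z < 32)
    {k : ℕ → ℕ} {n0 n1 n2 n3 : ℕ} (h0 : k a + 1 = n0) (h1 : k b + 1 = n1) (h2 : k c + 1 = n2)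
    (h3 : k d + 1 = n3) :
    szs (maskL [a, b, c, d]) k = (([n0, n1, n2, n3] : List ℕ) : Multiset ℕ) := by
  rw [szs_maskL hnd hz]
  simp only [List.map_cons, List.map_nil, h0, h1, h2, h3]

theorem szs3 {a b c : ℕ} (hnd : [a, b, c].Nodup) (hz : ∀ z ∈ [a, b, c], z < 32)
    {k : ℕ → ℕ} {n0 n1 n2 : ℕ} (h0 : k a + 1 = n0) (h1 : k b + 1 = n1) (h2 : k c + 1 = n2) :
    szs (maskL [a, b, c]) k = (([n0, n1, n2] : List ℕ) : Multiset ℕ) := by
  rw [szs_maskL hnd hz]
  simp only [List.map_cons, List.map_nil, h0, h1, h2]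

end K4

end Pool.Agent.Work.MP_bf01b2_co.MR
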