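import Pool.Agent.Work.MP_bf01b2_co.MR.Bm
import Pool.Agent.Work.MP_bf01b2_co.MR.J3

/-!
# Tables of images: from the class aware tables to the tables of the chain checker

The number `I` is a table of images (40 bits per entry), the number `R` the list of the references
(41 bits per entry: entry of the table `J`, vertex `0`, exchanges).
-/

set_option autoImplicit false

namespace Pool.Agent.Work.MP_bf01b2_co.MR

namespace Im

open Tab JT

/-- a region for all trees with at most `c + 1` vertices -/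
theorem nf_of_cr {X c : ℕ} (hX : X < 2 ^ 32) {C : BT → Prop} (hC : ∀ t : BT, t.A + t.B ≤ c + 1 → C t)
    (h : CR X 0 C) : NF 5 X 0 [⟨0, c, 0⟩] := by
  intro τ hτ
  have h1 := (hτ ⟨0, c, 0⟩ (by simp)).1
  have h1 : (τ 0).1.size + (τ 0).2.size ≤ c := h1
  set l := (τ 0).1 with hl
  set r := (τ 0).2 with hr
  have hsz := bt_size l
  have hsz' := bt_size r
  have hA : (BT.node (bt l) (bt r)).A = 1 + (bt l).cls.2 + (bt r).cls.2 := rfl
  have hB : (BT.node (bt l) (bt r)).B = (bt l).cls.1 + (bt r).cls.1 := rfl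
  obtain ⟨S, hS, hb⟩ := h (.node (bt l) (bt r)) (hC _ (by omega))
  have hS' : ∀ v ∈ S, v < 32 := by
    intro v hv
    by_contra hc
    push Not at hc
    have h2 : X.testBit v = true := hS v hv
    rw [testBit_ge hX hc] at h2
    exact absurd h2 (by simp)
  obtain ⟨x, hx, A, B, hA', hB', g1, g2, g3, rfl⟩ := hb
  have hx' : x < 32 := hS' x (Finset.mem_insert_self _ _)
  have hx0 : x = 0 := jadj_virt (r := 0) (by norm_num) hx' hx
  subst hx0
  have hA2 := BS.real (by norm_num) (fun u hu => hS' u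
    (Finset.mem_insert_of_mem (Finset.mem_union_left _ hu))) hA'
  have hB2 := BS.real (by norm_num) (fun u hu => hS' u
    (Finset.mem_insert_of_mem (Finset.mem_union_right _ hu))) hB'
  obtain ⟨pa, hpa⟩ := BS.slot hA2
  obtain ⟨pb, hpb⟩ := BS.slot hB2
  refine ⟨fun _ => insert 0 (A ∪ B), fun _ => pa ++ pb, ?_, ?_⟩
  · intro m hm
    rw [List.mem_singleton] at hm
    subst hm
    refine ⟨⟨A, B, pa, pb, hpa, hpb, g1, g2, g3, rfl, rfl⟩, ?_, ?_⟩
    · intro v hv
      exact hS v hv
    · intro v _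
      rw [msk_zero]
      exact Set.notMem_empty v
  · intro m hm m' hm' hne
    rw [List.mem_singleton] at hm hm'
    subst hm hm'
    exact absurd rfl hne

/-- check of the entry `i` of the table of images with the reference `r` -/
noncomputable def im1 (J lim I i r : ℕ) : Bool :=
  nd (Nat.ble (Nat.succ (JT.rI r)) lim)
    (nd (Nat.beq (j1 J (JT.rI r)) 0)
      (nd (Nat.ble 1 (tn I i)) (nd (Nat.ble (tn I i) (j2 J (JT.rI r)))
        (Nat.beq (sw4 (JT.rS r) (jX J (JT.rI r))) (tX I i)))))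

theorem im1_ok {J lim I i r : ℕ} (hJ : ∀ j < lim, JGood J j) (h : im1 J lim I i r = true) :
    Good I i := by
  unfold im1 at h
  rw [nd_iff, nd_iff, nd_iff, nd_iff] at h
  obtain ⟨h1, h2, h3, h4, h5⟩ := h
  have h3 : 1 ≤ tn I i := Nat.le_of_ble_eq_true h3
  have h4 : tn I i ≤ j2 J (JT.rI r) := Nat.le_of_ble_eq_true h4
  have h6 := sw4_cr (s := JT.rS r) (jX_lt J (JT.rI r)) (hJ _ (lt_of_succ_ble h1))
  rw [Nat.eq_of_beq_eq_true h5] at h6
  refine nf_of_cr (tX_lt I i) ?_ h6.2
  intro t ht
  exact Or.inl ⟨Nat.eq_of_beq_eq_true h2, by omega⟩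

/-- check of the entries below `n`; the references of the entries `64 b, ..., 64 b + 63` are
read from a block of `R` -/
noncomputable def imL (J lim I R : ℕ) (n : ℕ) : Bool :=
  Nat.rec (motive := fun _ => Bool) true (fun i ih =>
    nd (fB (Nat.land (Nat.shiftRight (fN (Nat.shiftRight i 6)
      (fun b => Nat.land (Nat.shiftRight R (Nat.mul 2624 b)) (Nat.pred (Nat.pow 2 2624))))
      (Nat.mul 41 (Nat.land i 63))) 2199023255551) (fun r => im1 J lim I i r)) ih) n

theorem imL_ok {J lim I R : ℕ} (hJ : ∀ j < lim, JGood J j) : ∀ {n : ℕ},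
    imL J lim I R n = true → ∀ i < n, Good I i
  | 0, _, i, hi => absurd hi (Nat.not_lt_zero i)
  | n + 1, h, i, hi => by
    have h' : nd (fB (Nat.land (Nat.shiftRight (fN (Nat.shiftRight n 6)
      (fun b => Nat.land (Nat.shiftRight R (Nat.mul 2624 b)) (Nat.pred (Nat.pow 2 2624))))
      (Nat.mul 41 (Nat.land n 63))) 2199023255551) (fun r => im1 J lim I n r))
      (imL J lim I R n) = true := h
    rw [nd_iff, fB_eq] at h'
    rcases Nat.lt_succ_iff_lt_or_eq.mp hi with hi | rfl
    · exact imL_ok hJ h'.2 i hi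
    · exact im1_ok hJ h'.1

end Im

end Pool.Agent.Work.MP_bf01b2_co.MR
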