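import Pool.Agent.Work.MP_bf01b2_co.MR.B5Red
import Pool.Agent.Work.MP_bf01b2_co.MR.K5A

/-!
# Facts of `Q_5` for all size vectors outside a set of exceptions, up to automorphisms
-/

set_option autoImplicit false

namespace Pool.Agent.Work.MP_bf01b2_co.MR

namespace Exc

open Tab

/-- a set of exceptions which is invariant under the automorphisms -/
def AInv (B : ℕ → (ℕ → ℕ) → Prop) : Prop :=
  ∀ (e : ℕ ≃ ℕ), (∀ a b, ncadj 5 a b → ncadj 5 (e a) (e b)) → ∀ (S S' : ℕ) (k : ℕ → ℕ),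
    S < 2 ^ 32 → S' < 2 ^ 32 →
    (∀ v, S'.testBit (e v) = S.testBit v) → B S (fun z => k (e z)) → B S' k

/-- `CB B S N`: all forests with roots at the positions of the mask `S` and total size at most `N`
embed in `Q_5`, with the exceptions `B` -/
def CB (B : ℕ → (ℕ → ℕ) → Prop) (S N : ℕ) : Prop := ∀ k : ℕ → ℕ,
  (∑ z ∈ pos32 S, (k z + 1)) ≤ N → ¬ B S k →
  ∀ ms : List (Mk ℕ), (∀ m, m ∈ ms ↔ S.testBit m.p = true ∧ m = ⟨m.p, k m.p, 0⟩) →
    NF 5 0xFFFFFFFF 0 ms

variable {B : ℕ → (ℕ → ℕ) → Prop}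

theorem CB.equiv (hB : AInv B) {S S' N : ℕ} (hS : S < 2 ^ 32) (hS' : S' < 2 ^ 32) (e : ℕ ≃ ℕ)
    (hadj : ∀ a b, ncadj 5 a b → ncadj 5 (e a) (e b))
    (he : ∀ v, S'.testBit (e v) = S.testBit v)
    (hN : ∀ ms : List (Mk ℕ), NF 5 0xFFFFFFFF 0 ms → NF 5 0xFFFFFFFF 0 (ms.map (Mk.map e)))
    (h : CB B S N) : CB B S' N := by
  intro k hk hbad ms hms
  have hsum : (∑ z ∈ pos32 S, (k (e z) + 1)) = ∑ z ∈ pos32 S', (k z + 1) := by
    refine Finset.sum_bij' (fun z _ => e z) (fun z _ => e.symm z) ?_ ?_ ?_ ?_ ?_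
    · intro a ha
      rw [mem_pos32 hS'] 
      rw [mem_pos32 hS] at ha
      rw [he]; exact ha
    · intro a ha
      rw [mem_pos32 hS] 
      rw [mem_pos32 hS'] at ha
      rw [← he, e.apply_symm_apply]; exact ha
    · intro a _; exact e.symm_apply_apply a
    · intro a _; exact e.apply_symm_apply a
    · intro a _; rfl
  have h1 := h (fun z => k (e z)) (by rw [hsum]; exact hk)
    (fun h0 => hbad (hB e hadj S S' k hS hS' he h0)) (ms.map (Mk.map e.symm)) (by
    intro m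
    constructor
    · intro hm
      obtain ⟨m', hm', rfl⟩ := List.mem_map.mp hm
      obtain ⟨h2, h3⟩ := (hms m').mp hm'
      have e1 : (Mk.map e.symm m').p = e.symm m'.p := rfl
      rw [e1, ← he, e.apply_symm_apply]
      refine ⟨h2, ?_⟩
      have h4 : m'.k = k m'.p := congrArg Mk.k h3
      have h5 : m'.s = 0 := congrArg Mk.s h3
      show (⟨e.symm m'.p, m'.k, m'.s⟩ : Mk ℕ) = ⟨e.symm m'.p, _, 0⟩
      rw [h4, h5]
    · rintro ⟨h2, h3⟩
      refine List.mem_map.mpr ⟨⟨e m.p, k (e m.p), 0⟩, (hms _).mpr ⟨?_, rfl⟩, ?_⟩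
      · show S'.testBit (e m.p) = true
        rw [he]; exact h2
      · rw [h3]
        show (⟨e.symm (e m.p), _, 0⟩ : Mk ℕ) = _
        rw [e.symm_apply_apply])
  have h2 := hN _ h1
  rw [List.map_map] at h2
  have h3 : ms.map (Mk.map e ∘ Mk.map e.symm) = ms := by
    conv_rhs => rw [← List.map_id ms]
    refine List.map_congr_left fun m _ => ?_
    show (⟨e (e.symm m.p), m.k, m.s⟩ : Mk ℕ) = m
    rw [e.apply_symm_apply]
  rwa [h3] at h2

theorem CB.flip (hB : AInv B) {S N i : ℕ} (hi : i < 5) (hS : S < 2 ^ 32) (h : CB B S N) :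
    CB B (flipM i S) N := by
  refine CB.equiv hB hS (flipM_lt hi hS) (flipE i) (fun a b hab => ncadj_flip hab)
    (testBit_flipM hi hS) ?_ h
  intro ms hms
  have h1 := NF.flip hi (by norm_num) (by norm_num) hms
  have h2 : flipM i 0xFFFFFFFF = 0xFFFFFFFF := by
    have : ∀ i < 5, flipM i 0xFFFFFFFF = 0xFFFFFFFF := by decide +kernel
    exact this i hi
  have h3 : flipM i 0 = 0 := by
    have : ∀ i < 5, flipM i 0 = 0 := by decide +kernel
    exact this i hi
  rw [h2, h3] at h1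
  exact h1

theorem CB.swap (hB : AInv B) {S N i j : ℕ} (hij : i < j) (hj : j < 5) (hS : S < 2 ^ 32)
    (h : CB B S N) : CB B (swapM i j S) N := by
  refine CB.equiv hB hS (swapM_lt hij hj hS) (swapE i j)
    (fun a b hab => ncadj_swap (lt_trans hij hj) hj hab) (testBit_swapM hij hj hS) ?_ h
  intro ms hms
  have h1 := NF.swap hij hj (by norm_num) (by norm_num) hms
  have h2 : swapM i j 0xFFFFFFFF = 0xFFFFFFFF := by
    have : ∀ j < 5, ∀ i < j, swapM i j 0xFFFFFFFF = 0xFFFFFFFF := by decide +kernel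
    exact this j hj i hij
  have h3 : swapM i j 0 = 0 := by
    have : ∀ j < 5, ∀ i < j, swapM i j 0 = 0 := by decide +kernel
    exact this j hj i hij
  rw [h2, h3] at h1
  exact h1

/-- from lists of positions to masks -/
theorem CB.of_list {S N : ℕ} (zs : List ℕ) (hnd : zs.Nodup)
    (hS : ∀ z, z ∈ zs ↔ S.testBit z = true) (hS' : S < 2 ^ 32)
    (h : ∀ k : ℕ → ℕ, (zs.map fun z => k z + 1).sum ≤ N → ¬ B S k →
      NF 5 0xFFFFFFFF 0 (zs.map fun z => (⟨z, k z, 0⟩ : Mk ℕ))) : CB B S N := by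
  intro k hk hb ms hms
  have h1 : (zs.map fun z => k z + 1).sum = ∑ z ∈ pos32 S, (k z + 1) := by
    rw [← List.sum_toFinset _ hnd]
    apply Finset.sum_congr _ (fun _ _ => rfl)
    ext z
    rw [List.mem_toFinset, mem_pos32 hS', hS]
  refine NF.congr ?_ (h k (by rw [h1]; exact hk) hb)
  intro m
  rw [hms, List.mem_map]
  constructor
  · rintro ⟨z, hz, rfl⟩
    exact ⟨(hS z).mp hz, rfl⟩
  · rintro ⟨h2, h3⟩
    exact ⟨m.p, (hS _).mpr h2, h3.symm⟩

/-- back to lists of positions -/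
theorem CB.to_list {S N : ℕ} (h : CB B S N) (zs : List ℕ) (hnd : zs.Nodup)
    (hS : ∀ z, z ∈ zs ↔ S.testBit z = true) (hS' : S < 2 ^ 32) (k : ℕ → ℕ)
    (hk : (zs.map fun z => k z + 1).sum ≤ N) (hb : ¬ B S k) :
      NF 5 0xFFFFFFFF 0 (zs.map fun z => (⟨z, k z, 0⟩ : Mk ℕ)) := by
  have h1 : (zs.map fun z => k z + 1).sum = ∑ z ∈ pos32 S, (k z + 1) := by
    rw [← List.sum_toFinset _ hnd]
    apply Finset.sum_congr _ (fun _ _ => rfl)
    ext z
    rw [List.mem_toFinset, mem_pos32 hS', hS]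
  refine h k (by rw [← h1]; exact hk) hb _ ?_
  intro m
  rw [List.mem_map]
  constructor
  · rintro ⟨z, hz, rfl⟩
    exact ⟨(hS z).mp hz, rfl⟩
  · rintro ⟨h2, h3⟩
    exact ⟨m.p, (hS _).mpr h2, h3.symm⟩

/-- from a class certificate to the fact for the mask -/
theorem CB.of_cls {N : ℕ} {zs : List ℕ} (hnd : zs.Nodup) (hz : ∀ z ∈ zs, z < 32)
    (h : ∀ k : ℕ → ℕ, (zs.map fun z => k z + 1).sum ≤ N → ¬ B (maskL zs) k →
      NF 5 FULL 0 (mkL k zs)) : CB B (maskL zs) N :=
  CB.of_list zs hnd (fun _ => testBit_maskL.symm) (maskL_lt hz) h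

theorem CB.sw1 (hB : AInv B) {S N v : ℕ} (hv : v < 16) (hS : S < 2 ^ 32) (h : CB B S N) :
    Tab.sw1 v S < 2 ^ 32 ∧ CB B (Tab.sw1 v S) N := by
  by_cases h1 : 1 ≤ v ∧ v ≤ 10
  · obtain ⟨i, j, hij, hj, hs⟩ := sw1_swap v h1.1 h1.2
    rw [hs S]
    exact ⟨swapM_lt hij hj hS, CB.swap hB hij hj hS h⟩
  · rw [sw1_id (by omega) hv hS]
    exact ⟨hS, h⟩

theorem CB.sw4 (hB : AInv B) {S N s : ℕ} (hS : S < 2 ^ 32) (h : CB B S N) :
    Tab.sw4 s S < 2 ^ 32 ∧ CB B (Tab.sw4 s S) N := by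
  have h1 := CB.sw1 hB (land15_lt s) hS h
  have h2 := CB.sw1 hB (land15_lt (Nat.shiftRight s 4)) h1.1 h1.2
  have h3 := CB.sw1 hB (land15_lt (Nat.shiftRight s 8)) h2.1 h2.2
  exact CB.sw1 hB (land15_lt (Nat.shiftRight s 12)) h3.1 h3.2

theorem CB.fl1 (hB : AInv B) {S N r i : ℕ} (hi : i < 5) (hS : S < 2 ^ 32) (h : CB B S N) :
    Tab.fl1 (lowM i) (2 ^ i) r S < 2 ^ 32 ∧ CB B (Tab.fl1 (lowM i) (2 ^ i) r S) N ∧
      ∀ zs, S = maskL zs →
        Tab.fl1 (lowM i) (2 ^ i) r S = maskL (zs.map fun z => z ^^^ (r &&& 2 ^ i)) := by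
  have e0 : Nat.land r (2 ^ i) = r &&& 2 ^ i := rfl
  rcases and_two_pow_cases r i with h1 | h1
  · have e : Tab.fl1 (lowM i) (2 ^ i) r S = S := by
      unfold Tab.fl1
      rw [e0, h1]
      rfl
    rw [e]
    refine ⟨hS, h, ?_⟩
    intro zs hzs
    rw [h1, hzs]
    congr 1
    conv_lhs => rw [← List.map_id zs]
    refine List.map_congr_left fun z _ => by rw [Nat.xor_zero]; rfl
  · have e : Tab.fl1 (lowM i) (2 ^ i) r S = flipM i S := by
      unfold Tab.fl1
      have h2 : Nat.beq (2 ^ i) 0 = false := by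
        have : 2 ^ i ≠ 0 := by positivity
        cases h3 : Nat.beq (2 ^ i) 0 with
        | false => rfl
        | true => exact absurd (Nat.eq_of_beq_eq_true h3) this
      rw [e0, h1, h2]
      rfl
    rw [e]
    refine ⟨flipM_lt hi hS, CB.flip hB hi hS h, ?_⟩
    intro zs hzs
    rw [h1]
    apply Nat.eq_of_testBit_eq
    intro v
    rw [Bool.eq_iff_iff, testBit_maskL]
    have h2 := testBit_flipM hi hS (flipV i v)
    rw [flipV_flipV] at h2
    rw [h2, hzs, testBit_maskL, List.mem_map]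
    constructor
    · intro h3
      exact ⟨_, h3, by
        show flipV i (flipV i v) = v
        exact flipV_flipV i v⟩
    · rintro ⟨z, hz, rfl⟩
      have : flipV i (z ^^^ 2 ^ i) = z := flipV_flipV i z
      rw [this]; exact hz

theorem CB.tr (hB : AInv B) {S N r : ℕ} (hr : r < 32) (hS : S < 2 ^ 32) (h : CB B S N) :
    Tab.tr r S < 2 ^ 32 ∧ CB B (Tab.tr r S) N ∧ ∀ zs, (∀ z ∈ zs, z < 32) → S = maskL zs →
      Tab.tr r S = maskL (zs.map fun z => z ^^^ r) := by
  have h1 := CB.fl1 hB (i := 0) (r := r) (by norm_num) hS h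
  have h2 := CB.fl1 hB (i := 1) (r := r) (by norm_num) h1.1 h1.2.1
  have h3 := CB.fl1 hB (i := 2) (r := r) (by norm_num) h2.1 h2.2.1
  have h4 := CB.fl1 hB (i := 3) (r := r) (by norm_num) h3.1 h3.2.1
  have h5 := CB.fl1 hB (i := 4) (r := r) (by norm_num) h4.1 h4.2.1
  refine ⟨h5.1, h5.2.1, ?_⟩
  intro zs hz hzs
  have e := h5.2.2 _ (h4.2.2 _ (h3.2.2 _ (h2.2.2 _ (h1.2.2 zs hzs))))
  rw [List.map_map, List.map_map, List.map_map, List.map_map] at e
  refine e.trans ?_
  congr 1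
  refine List.map_congr_left fun z hz' => ?_
  exact xor_parts r hr z (hz z hz')

/-- translation to the origin -/
theorem CB.shift (hB : AInv B) {N p : ℕ} (hp : p < 32) {qs : List ℕ} (hq : ∀ q ∈ qs, q < 32)
    (h : CB B (maskL (0 :: qs.map fun q => q ^^^ p)) N) : CB B (maskL (p :: qs)) N := by
  have hz : ∀ z ∈ 0 :: qs.map (fun q => q ^^^ p), z < 32 := by
    intro z hz
    rcases List.mem_cons.mp hz with rfl | hz
    · norm_num
    · obtain ⟨q, hq', rfl⟩ := List.mem_map.mp hz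
      exact Nat.xor_lt_two_pow (n := 5) (hq q hq') hp
  obtain ⟨_, h1, h2⟩ := CB.tr hB hp (maskL_lt hz) h
  have h3 := h2 _ hz rfl
  rw [h3] at h1
  rw [List.map_cons, List.map_map, Nat.zero_xor] at h1
  have h4 : qs.map ((fun z => z ^^^ p) ∘ fun q => q ^^^ p) = qs := by
    conv_rhs => rw [← List.map_id qs]
    refine List.map_congr_left fun q _ => ?_
    show (q ^^^ p) ^^^ p = q
    rw [Nat.xor_assoc, Nat.xor_self, Nat.xor_zero]
  rwa [h4] at h1

/-! ### Codes -/

/-- the representative number `i` of a packed list of masks; the code `e` consists of the number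
of the representative (8 bits), exchanges (16 bits) and a translation (5 bits) -/
noncomputable def gdc (R M mask e : ℕ) : Bool :=
  nd (Nat.ble (Nat.succ (Nat.land e 255)) M)
    (Nat.beq (Tab.tr (Nat.land (Nat.shiftRight e 24) 31)
      (Tab.sw4 (Nat.land (Nat.shiftRight e 8) 65535) (rep R (Nat.land e 255)))) mask)

theorem gdc_ok (hB : AInv B) {R M N mask : ℕ} (hR : ∀ i < M, CB B (rep R i) N) {e : ℕ}
    (h : gdc R M mask e = true) : CB B mask N := by
  unfold gdc at h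
  rw [nd_iff] at h
  obtain ⟨h1, h3⟩ := h
  have h2 : Nat.land (Nat.shiftRight e 24) 31 < 32 := by
    have : Nat.land (Nat.shiftRight e 24) 31 ≤ 31 := Nat.and_le_right
    omega
  have h4 := CB.sw4 hB (s := Nat.land (Nat.shiftRight e 8) 65535) (rep_lt R _)
    (hR _ (lt_of_succ_ble h1))
  have h5 := CB.tr hB h2 h4.1 h4.2
  rw [← Nat.eq_of_beq_eq_true h3]
  exact h5.2.1

/-- all masks `m ||| 2 ^ e` with `lo ≤ e < lo + n`; the codes are the digits of `D` in base
`2 ^ 29`, the first one belongs to `lo + n - 1` -/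
noncomputable def rng (R M m lo : ℕ) (n : ℕ) : ℕ → Bool :=
  Nat.rec (motive := fun _ => ℕ → Bool) (fun _ => true)
    (fun i ih D => nd (JT.fB (Nat.lor m (Nat.shiftLeft 1 (Nat.add lo i))) (fun mask =>
      JT.fB (Nat.land D 536870911) (fun e => gdc R M mask e)))
      (JT.fB (Nat.shiftRight D 29) ih)) n

theorem rng_ok (hB : AInv B) {R M N m lo : ℕ} (hR : ∀ i < M, CB B (rep R i) N) : ∀ {n D : ℕ},
    rng R M m lo n D = true → ∀ i < n, CB B (m ||| 2 ^ (lo + i)) N
  | 0, _, _, i, hi => absurd hi (Nat.not_lt_zero i)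
  | n + 1, D, h, i, hi => by
    have h' : nd (JT.fB (Nat.lor m (Nat.shiftLeft 1 (Nat.add lo n))) (fun mask =>
      JT.fB (Nat.land D 536870911) (fun e => gdc R M mask e)))
      (JT.fB (Nat.shiftRight D 29) (rng R M m lo n)) = true := h
    rw [nd_iff, JT.fB_eq, JT.fB_eq, JT.fB_eq] at h'
    rcases Nat.lt_succ_iff_lt_or_eq.mp hi with hi | rfl
    · exact rng_ok hB hR h'.2 i hi
    · have h1 := gdc_ok hB hR h'.1
      have e : Nat.lor m (Nat.shiftLeft 1 (Nat.add lo i)) = m ||| 2 ^ (lo + i) := by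
        show m ||| (1 <<< (lo + i)) = m ||| 2 ^ (lo + i)
        rw [Nat.shiftLeft_eq, one_mul]
      rw [e] at h1
      exact h1

/-- all quadruples `b < c < d < e` above `0`, for the values of `b` from the list; for every
`c` and `d` there is one number -/
noncomputable def qd (R M b : ℕ) (D : List (List ℕ)) : Bool :=
  lp 32 (fun D' c => lp 32 (fun D'' d =>
    rng R M (Nat.lor 1 (Nat.lor (Nat.pow 2 b) (Nat.lor (Nat.pow 2 c) (Nat.pow 2 d))))
      (Nat.succ d) (Nat.sub 31 d) D'') D' (Nat.succ c)) D (Nat.succ b)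

theorem qd_ok (hB : AInv B) {R M N b : ℕ} (hR : ∀ i < M, CB B (rep R i) N)
    {D : List (List ℕ)} (h : qd R M b D = true) {c d e : ℕ} (hbc : b < c)
    (hcd : c < d) (hde : d < e) (he : e < 32) : CB B (maskL [0, b, c, d, e]) N := by
  obtain ⟨D', hD'⟩ := lp_ok h c hbc (by omega)
  obtain ⟨D'', hD''⟩ := lp_ok hD' d hcd (by omega)
  have h1 := rng_ok hB hR hD'' (e - (d + 1)) (by
    show e - (d + 1) < 31 - d
    omega)
  have h2 : Nat.succ d + (e - (d + 1)) = e := by omega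
  rw [h2] at h1
  have h3 : (Nat.lor 1 (Nat.lor (Nat.pow 2 b) (Nat.lor (Nat.pow 2 c) (Nat.pow 2 d)))) ||| 2 ^ e =
      maskL [0, b, c, d, e] := by
    show (1 ||| (2 ^ b ||| (2 ^ c ||| 2 ^ d))) ||| 2 ^ e =
      2 ^ 0 ||| (2 ^ b ||| (2 ^ c ||| (2 ^ d ||| (2 ^ e ||| 0))))
    rw [Nat.or_zero, pow_zero]
    simp only [Nat.or_assoc]
  rw [h3] at h1
  exact h1

/-- sorting of four different positive numbers -/
theorem sort4 {x y z w : ℕ} (h : [x, y, z, w].Nodup) (h0 : ∀ a ∈ [x, y, z, w], 0 < a ∧ a < 32) :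
    ∃ b c d e, 0 < b ∧ b < c ∧ c < d ∧ d < e ∧ e < 32 ∧
      ∀ a, a ∈ [x, y, z, w] ↔ a ∈ [b, c, d, e] := by
  set l := [x, y, z, w].insertionSort (· ≤ ·) with hl
  have hp : l.Perm [x, y, z, w] := List.perm_insertionSort _ _
  have hs : l.Pairwise (· ≤ ·) := List.pairwise_insertionSort (· ≤ ·) _
  have hn : l.Nodup := hp.nodup_iff.2 h
  have hlen : l.length = 4 := hp.length_eq
  match l, hlen, hp, hs, hn with
  | [b, c, d, e], _, hp, hs, hn =>
    have hm : ∀ a, a ∈ [x, y, z, w] ↔ a ∈ [b, c, d, e] := fun a => (hp.mem_iff).symm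
    have h1 := h0 b ((hm b).2 (by simp))
    have h2 := h0 e ((hm e).2 (by simp))
    simp only [List.pairwise_cons, List.mem_cons, List.not_mem_nil, or_false] at hs
    simp only [List.nodup_cons, List.mem_cons, List.not_mem_nil, or_false, not_or] at hn
    obtain ⟨⟨n1, n2, n3⟩, ⟨n4, n5⟩, n6, _⟩ := hn
    obtain ⟨s1, s2, s3, _⟩ := hs
    refine ⟨b, c, d, e, h1.1, lt_of_le_of_ne (s1 c (Or.inl rfl)) n1,
      lt_of_le_of_ne (s2 d (Or.inl rfl)) n4, lt_of_le_of_ne (s3 e rfl) n6, h2.2, hm⟩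

theorem quint_ok (hB : AInv B) {N : ℕ}
    (h : ∀ b c d e, 0 < b → b < c → c < d → d < e → e < 32 → CB B (maskL [0, b, c, d, e]) N)
    {p q r s t : ℕ} (hnd : [p, q, r, s, t].Nodup) (hlt : ∀ a ∈ [p, q, r, s, t], a < 32) :
    CB B (maskL [p, q, r, s, t]) N := by
  have hp : p < 32 := hlt p List.mem_cons_self
  refine CB.shift hB (qs := [q, r, s, t]) hp
    (fun a ha => hlt a (List.mem_cons_of_mem _ ha)) ?_
  have hnd' : ([q, r, s, t].map fun a => a ^^^ p).Nodup := by
    refine List.Nodup.map ?_ (List.nodup_cons.1 hnd).2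
    intro a b hab
    exact Nat.xor_left_injective hab
  obtain ⟨b, c, d, e, h1, h2, h3, h4, h5, h6⟩ := sort4 (x := q ^^^ p) (y := r ^^^ p)
    (z := s ^^^ p) (w := t ^^^ p) hnd' (by
      intro a ha
      have ha' : a ∈ [q, r, s, t].map fun a => a ^^^ p := ha
      obtain ⟨x, hx, rfl⟩ := List.mem_map.1 ha'
      refine ⟨xor_pos ?_, Nat.xor_lt_two_pow (n := 5) (hlt x (List.mem_cons_of_mem _ hx)) hp⟩
      rintro rfl
      exact (List.nodup_cons.1 hnd).1 hx)
  have h7 : maskL (0 :: [q, r, s, t].map fun a => a ^^^ p) = maskL [0, b, c, d, e] := by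
    apply maskL_congr
    intro z
    rw [List.mem_cons, List.mem_cons]
    have := h6 z
    constructor
    · rintro (h | h)
      · exact Or.inl h
      · exact Or.inr ((h6 z).1 h)
    · rintro (h | h)
      · exact Or.inl h
      · exact Or.inr ((h6 z).2 h)
  rw [h7]
  exact h b c d e h1 h2 h3 h4 h5

/-! ### The cube -/

/-- hard facts of `Q_5` for lists of marks -/
theorem CB.toHF {S N : ℕ} (h : CB B S N) (hS : S < 2 ^ 32) (ms : List ((Fin 5 → Bool) × ℕ))
    (hnd : (ms.map Prod.fst).Nodup) (hms : ∀ z, z ∈ ms.map (fun a => encV a.1) ↔ S.testBit z = true)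
    (hN : (ms.map Prod.snd).sum ≤ N)
    (hb : ∀ k : ℕ → ℕ, (∀ a ∈ ms, k (encV a.1) + 1 = a.2) → ¬ B S k) :
    HF (cadj 5) Finset.univ ms := by
  classical
  by_cases hz : ∀ a ∈ ms, 1 ≤ a.2
  · -- the size at a position
    let k : ℕ → ℕ := fun v => match ms.find? (fun a => encV a.1 = v) with
      | some a => a.2 - 1
      | none => 0
    have hinj : Function.Injective (encV (m := 5)) := fun a b hab => by
      rw [← dec_enc a, hab, dec_enc]
    have hk : ∀ a ∈ ms, k (encV a.1) + 1 = a.2 := by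
      intro a ha
      have h1 : ∃ b, ms.find? (fun a' => encV a'.1 = encV a.1) = some b := by
        rw [← Option.isSome_iff_exists, List.find?_isSome]
        exact ⟨a, ha, by simp⟩
      obtain ⟨b, hb⟩ := h1
      have hb1 := List.mem_of_find?_eq_some hb
      have hb2 : encV b.1 = encV a.1 := by simpa using List.find?_some hb
      have hba : b = a := List.inj_on_of_nodup_map hnd hb1 ha (hinj hb2)
      show (match ms.find? (fun a' => encV a'.1 = encV a.1) with
        | some a => a.2 - 1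
        | none => 0) + 1 = a.2
      rw [hb, hba]
      have := hz a ha
      show a.2 - 1 + 1 = a.2
      omega
    have hnd2 : (ms.map (fun a => encV a.1)).Nodup := by
      have : ms.map (fun a => encV a.1) = (ms.map Prod.fst).map encV := by
        rw [List.map_map]; rfl
      rw [this]
      exact hnd.map hinj
    have h1 := CB.to_list h (ms.map (fun a => encV a.1)) hnd2 hms hS k (by
      rw [List.map_map]
      have : ms.map ((fun z => k z + 1) ∘ fun a => encV a.1) = ms.map Prod.snd :=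
        List.map_congr_left fun a ha => hk a ha
      rw [this]; exact hN) (hb k hk)
    have h2 := NF.toFin (m := 5) (by norm_num) (by norm_num) (by
      intro a ha
      obtain ⟨z, hz', rfl⟩ := List.mem_map.mp ha
      obtain ⟨b, _, rfl⟩ := List.mem_map.mp hz'
      exact encV_lt b.1) h1
    rw [msk_zero, Set.image_empty] at h2
    have h3 := SF.toHF (F := Finset.univ) (fun v _ => Finset.mem_univ v) h2 (by
      rw [List.map_map, List.map_map, List.map_map]
      have : ms.map (((Mk.p ∘ Mk.map (decV 5)) ∘ fun z => (⟨z, k z, 0⟩ : Mk ℕ)) ∘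
          fun a => encV a.1) = ms.map Prod.fst := by
        refine List.map_congr_left fun a _ => ?_
        exact dec_enc a.1
      rw [this]
      exact hnd)
    rw [List.map_map, List.map_map, List.map_map] at h3
    have h4 : ms.map ((((fun m : Mk (Fin 5 → Bool) => (m.p, m.k + 1)) ∘ Mk.map (decV 5)) ∘
        fun z => (⟨z, k z, 0⟩ : Mk ℕ)) ∘ fun a => encV a.1) = ms := by
      conv_rhs => rw [← List.map_id ms]
      refine List.map_congr_left fun a ha => ?_
      show (decV 5 (encV a.1), k (encV a.1) + 1) = a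
      rw [dec_enc, hk a ha]
    rw [h4] at h3
    exact h3
  · push Not at hz
    obtain ⟨a, ha, ha1⟩ := hz
    intro Ts hTs
    exfalso
    obtain ⟨i, hi, rfl⟩ := List.getElem_of_mem ha
    rw [List.forall₂_iff_get] at hTs
    have h1 := (hTs.2 i (hTs.1 ▸ hi) hi).2
    simp only [List.get_eq_getElem] at h1
    unfold RT.size at h1
    omega

end Exc

end Pool.Agent.Work.MP_bf01b2_co.MR
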