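import Pool.Agent.Work.MP_bf01b2_co.MR.K5T

/-!
# Five roots in `Q_5`: certificates of the entries 0 to 2099
-/

set_option autoImplicit false
set_option maxRecDepth 100000

namespace Pool.Agent.Work.MP_bf01b2_co.MR

namespace K5

open JT

/-- certificates of the entries 0 to 2099 -/
def c0 : List Rc :=
  [.nil,
   .one (nat_lit 1048576) .nil,
   .two (nat_lit 1048576) (nat_lit 2097153) .nil,
   .two (nat_lit 4194304) (nat_lit 34603009) .nil,
   .two (nat_lit 1048576) (nat_lit 2097153) (.one (nat_lit 34603011) .nil),
   .two (nat_lit 8388608) (nat_lit 705691650) .nil,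
   .two (nat_lit 4194304) (nat_lit 11543773187) .nil,
   .two (nat_lit 16777216) (nat_lit 2889875459) .nil,
   .two (nat_lit 2097153) (nat_lit 605028353) (.two (nat_lit 2097152) (nat_lit 705691650) (.one (nat_lit 705691652) .nil)),
   .two (nat_lit 2097153) (nat_lit 9765388289) (.two (nat_lit 1048576) (nat_lit 2954887171) (.one (nat_lit 806354950) .nil)),
   .two (nat_lit 2097153) (nat_lit 9765388289) (.two (nat_lit 2097152) (nat_lit 11543773187) (.one (nat_lit 11543773190) .nil)),
   .two (nat_lit 16777217) (nat_lit 1753219075) (.one (nat_lit 1920991239) .nil),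
   .two (nat_lit 9781116929) (nat_lit 156367847425) (.two (nat_lit 4194304) (nat_lit 1358954499) (.one (nat_lit 12062818311) .nil)),
   .two (nat_lit 37748737) (nat_lit 739246084) .nil,
   .two (nat_lit 34603009) (nat_lit 612368385) (.two (nat_lit 8388608) (nat_lit 11543773188) .nil),
   .two (nat_lit 37748737) (nat_lit 605028353) (.two (nat_lit 1048576) (nat_lit 12117344261) .nil),
   .two (nat_lit 606076929) (nat_lit 156364701697) (.two (nat_lit 1048576) (nat_lit 174753579012) .nil),
   .two (nat_lit 606076929) (nat_lit 156364701697) (.two (nat_lit 1048576) (nat_lit 158144135172) .nil),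
   .two (nat_lit 605028353) (nat_lit 156365750273) (.two (nat_lit 2097152) (nat_lit 9866051588) .nil),
   .two (nat_lit 605028353) (nat_lit 174753579012) .nil,
   .two (nat_lit 606076929) (nat_lit 21777874947) (.one (nat_lit 739246087) .nil),
   .two (nat_lit 4194305) (nat_lit 156364701697) (.two (nat_lit 4194304) (nat_lit 135266310) .nil),
   .two (nat_lit 16777217) (nat_lit 9765388289) (.two (nat_lit 16777216) (nat_lit 1343225863) .nil),
   .two (nat_lit 34603009) (nat_lit 1847590916) .nil,
   .two (nat_lit 2097153) (nat_lit 4194308) (.one (nat_lit 705691656) .nil),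
   .two (nat_lit 605028353) (nat_lit 169869314) (.two (nat_lit 8388608) (nat_lit 705691656) .nil),
   .two (nat_lit 605028353) (nat_lit 2954887172) (.one (nat_lit 705691656) .nil),
   .two (nat_lit 37748737) (nat_lit 11543773188) (.one (nat_lit 68157448) .nil),
   .two (nat_lit 37748737) (nat_lit 10343153669) .nil,
   .two (nat_lit 41943041) (nat_lit 605028353) (.two (nat_lit 1048576) (nat_lit 880803845) .nil),
   .two (nat_lit 34603009) (nat_lit 156372041729) (.two (nat_lit 8388608) (nat_lit 9866051591) .nil),
   .two (nat_lit 2097153) (nat_lit 9781116929) (.two (nat_lit 16777216) (nat_lit 1310720006) .nil),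
   .two (nat_lit 2097153) (nat_lit 83886086) .nil,
   .two (nat_lit 4194305) (nat_lit 174686470150) .nil,
   .two (nat_lit 2097153) (nat_lit 10506731526) .nil,
   .two (nat_lit 4194305) (nat_lit 41943041) (.two (nat_lit 8388608) (nat_lit 183916036103) .nil),
   .two (nat_lit 8388609) (nat_lit 705691652) (.one (nat_lit 270532621) .nil),
   .two (nat_lit 2097153) (nat_lit 1343225862) (.one (nat_lit 11543773193) .nil),
   .two (nat_lit 37748737) (nat_lit 11543773190) (.one (nat_lit 2954887177) .nil),
   .two (nat_lit 8388609) (nat_lit 169869316) (.one (nat_lit 705691662) .nil),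
   .two (nat_lit 2097153) (nat_lit 1343225859) (.two (nat_lit 2097152) (nat_lit 11543773192) .nil),
   .two (nat_lit 4194305) (nat_lit 739246088) .nil,
   .two (nat_lit 606076929) (nat_lit 739246088) .nil,
   .two (nat_lit 37748737) (nat_lit 739246088) .nil,
   .two (nat_lit 34603009) (nat_lit 272629763) (.two (nat_lit 4194304) (nat_lit 11543773192) .nil),
   .two (nat_lit 612368385) (nat_lit 11543773192) .nil,
   .two (nat_lit 9781116929) (nat_lit 21785214981) (.one (nat_lit 158083317768) .nil),
   .two (nat_lit 9781116929) (nat_lit 3464495110) (.one (nat_lit 185027526667) .nil),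
   .two (nat_lit 620756993) (nat_lit 166130089992) .nil,
   .two (nat_lit 620756993) (nat_lit 10506731524) (.one (nat_lit 339738635) .nil),
   .two (nat_lit 8388609) (nat_lit 166130089986) (.two (nat_lit 1048576) (nat_lit 28691136516) (.one (nat_lit 276824083) .nil)),
   .two (nat_lit 606076929) (nat_lit 50331653) (.one (nat_lit 165526110216) .nil),
   .two (nat_lit 16777217) (nat_lit 18928893956) (.one (nat_lit 2969567255) .nil),
   .two (nat_lit 2097153) (nat_lit 10939793416) .nil,
   .two (nat_lit 9768534017) (nat_lit 654311428) (.one (nat_lit 19109249046) .nil),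
   .two (nat_lit 50331649) (nat_lit 28690087940) (.one (nat_lit 168820747) .nil),
   .two (nat_lit 156364701697) (nat_lit 21208498184) .nil,
   .two (nat_lit 50331649) (nat_lit 174752530436) (.one (nat_lit 158075977751) .nil),
   .two (nat_lit 156372041729) (nat_lit 1745879048) .nil,
   .two (nat_lit 606076929) (nat_lit 1846542344) .nil,
   .two (nat_lit 50331649) (nat_lit 28760342531) (.two (nat_lit 4194304) (nat_lit 10947133446) (.one (nat_lit 37320917012) .nil)),
   .two (nat_lit 8388609) (nat_lit 1291845634) (.two (nat_lit 2097152) (nat_lit 174759870469) (.one (nat_lit 156581756950) .nil)),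
   .two (nat_lit 606076929) (nat_lit 11580473351) (.one (nat_lit 12620660745) .nil),
   .two (nat_lit 606076929) (nat_lit 156968681480) .nil,
   .two (nat_lit 9768534017) (nat_lit 158143086595) (.two (nat_lit 1048576) (nat_lit 9768534020) (.one (nat_lit 12050235403) .nil)),
   .two (nat_lit 2097153) (nat_lit 11484004359) (.one (nat_lit 739246089) .nil),
   .two (nat_lit 156364701697) (nat_lit 9781116931) (.two (nat_lit 1048576) (nat_lit 218103816) .nil),
   .two (nat_lit 2097153) (nat_lit 47563407364) (.one (nat_lit 772800528) .nil),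
   .two (nat_lit 4194306) (nat_lit 806354947) (.two (nat_lit 2097153) (nat_lit 605028357) (.two (nat_lit 1048576) (nat_lit 606076936) (.one (nat_lit 705691673) .nil))),
   .two (nat_lit 37748737) (nat_lit 1343225859) (.two (nat_lit 2097152) (nat_lit 605028366) .nil),
   .two (nat_lit 8388609) (nat_lit 705691657) .nil,
   .two (nat_lit 8388609) (nat_lit 169869322) .nil,
   .two (nat_lit 41943041) (nat_lit 705691657) .nil,
   .two (nat_lit 41943041) (nat_lit 169869322) .nil,
   .two (nat_lit 41943041) (nat_lit 4194314) .nil,
   .two (nat_lit 2097153) (nat_lit 809500675) (.two (nat_lit 4194304) (nat_lit 2954887172) (.one (nat_lit 708837390) .nil)),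
   .two (nat_lit 8388609) (nat_lit 809500682) .nil,
   .two (nat_lit 612368385) (nat_lit 272629770) .nil,
   .two (nat_lit 50331649) (nat_lit 159224168451) (.two (nat_lit 2097152) (nat_lit 37320917010) .nil),
   .two (nat_lit 41943041) (nat_lit 236978185) .nil,
   .two (nat_lit 605028353) (nat_lit 1346371596) .nil,
   .two (nat_lit 605028353) (nat_lit 687865868) .nil,
   .two (nat_lit 2097153) (nat_lit 156367847428) (.one (nat_lit 10001317906) .nil),
   .two (nat_lit 605028353) (nat_lit 166211878922) .nil,
   .two (nat_lit 41943041) (nat_lit 9948889091) (.two (nat_lit 2097152) (nat_lit 10947133446) (.one (nat_lit 156481093662) .nil)),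
   .two (nat_lit 9765388289) (nat_lit 174753579013) (.one (nat_lit 673185810) .nil),
   .two (nat_lit 156372041729) (nat_lit 306184197) (.one (nat_lit 156569174033) .nil),
   .two (nat_lit 606076929) (nat_lit 41943052) .nil,
   .two (nat_lit 34603009) (nat_lit 12054429706) .nil,
   .two (nat_lit 8388609) (nat_lit 2097155) (.two (nat_lit 8388608) (nat_lit 185020186645) .nil),
   .two (nat_lit 9768534017) (nat_lit 1947205637) (.one (nat_lit 156968681488) .nil),
   .two (nat_lit 156372041729) (nat_lit 185020186634) .nil,
   .two (nat_lit 156372041729) (nat_lit 9802088453) (.one (nat_lit 19532873746) .nil),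
   .two (nat_lit 16777217) (nat_lit 166130089986) (.two (nat_lit 4194304) (nat_lit 9934209036) .nil),
   .two (nat_lit 2097153) (nat_lit 620756998) (.one (nat_lit 10336862218) .nil),
   .two (nat_lit 620756993) (nat_lit 13224640522) .nil,
   .two (nat_lit 34603009) (nat_lit 654311428) (.one (nat_lit 12617515027) .nil),
   .two (nat_lit 612368385) (nat_lit 1358954501) (.one (nat_lit 3036676115) .nil),
   .two (nat_lit 8388609) (nat_lit 185035915271) (.one (nat_lit 10519314450) .nil),
   .two (nat_lit 41943041) (nat_lit 1846542340) (.one (nat_lit 310378514) .nil),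
   .two (nat_lit 156372041729) (nat_lit 28806479884) .nil,
   .two (nat_lit 620756993) (nat_lit 47550824459) .nil,
   .two (nat_lit 9781116929) (nat_lit 184417255435) .nil,
   .two (nat_lit 8388609) (nat_lit 158075977731) (.two (nat_lit 1048576) (nat_lit 156372041732) (.one (nat_lit 47555018773) .nil)),
   .two (nat_lit 620756993) (nat_lit 21208498182) (.one (nat_lit 2097187) .nil),
   .two (nat_lit 50331649) (nat_lit 1913651203) (.two (nat_lit 4194304) (nat_lit 19026411537) .nil),
   .two (nat_lit 9765388289) (nat_lit 10940841994) .nil,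
   .two (nat_lit 50331649) (nat_lit 12617515014) (.one (nat_lit 12114198548) .nil),
   .two (nat_lit 620756993) (nat_lit 9902751756) .nil,
   .two (nat_lit 4194305) (nat_lit 10436476938) .nil,
   .two (nat_lit 34603009) (nat_lit 10510925836) .nil,
   .two (nat_lit 605028353) (nat_lit 159266111500) .nil,
   .two (nat_lit 9768534017) (nat_lit 822083589) (.one (nat_lit 1358954513) .nil),
   .two (nat_lit 41943041) (nat_lit 1358954499) (.two (nat_lit 16777216) (nat_lit 183853121540) (.one (nat_lit 156481093646) .nil)),
   .two (nat_lit 50331649) (nat_lit 3458203651) (.two (nat_lit 16777216) (nat_lit 11007950858) .nil),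
   .two (nat_lit 50331649) (nat_lit 1853882380) .nil,
   .two (nat_lit 8388609) (nat_lit 46473936903) (.one (nat_lit 9948889107) .nil),
   .two (nat_lit 2097153) (nat_lit 1178599428) (.one (nat_lit 47582281747) .nil),
   .two (nat_lit 9766436865) (nat_lit 12150898699) .nil,
   .two (nat_lit 156367847425) (nat_lit 754974729) .nil,
   .two (nat_lit 4194305) (nat_lit 13221494790) (.one (nat_lit 10907287587) .nil),
   .two (nat_lit 605028353) (nat_lit 159224168454) (.one (nat_lit 159257722910) .nil),
   .two (nat_lit 37748737) (nat_lit 1343225859) (.two (nat_lit 16777216) (nat_lit 10369368081) .nil),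
   .two (nat_lit 16777217) (nat_lit 9806282764) .nil,
   .two (nat_lit 156364701697) (nat_lit 12054429705) .nil,
   .two (nat_lit 9765388289) (nat_lit 20638072842) .nil,
   .two (nat_lit 9768534017) (nat_lit 10538188805) (.one (nat_lit 10940842001) .nil),
   .two (nat_lit 41943041) (nat_lit 165526110218) .nil,
   .two (nat_lit 612368385) (nat_lit 135266309) (.one (nat_lit 2349858834) .nil),
   .two (nat_lit 2097153) (nat_lit 9974054922) .nil,
   .two (nat_lit 606076929) (nat_lit 18933088260) (.one (nat_lit 28791799826) .nil),
   .two (nat_lit 16777217) (nat_lit 10506731523) (.two (nat_lit 2097152) (nat_lit 166132187155) .nil),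
   .two (nat_lit 50331649) (nat_lit 46978301964) .nil,
   .two (nat_lit 9766436865) (nat_lit 21785214979) (.two (nat_lit 2097152) (nat_lit 1853882380) .nil),
   .two (nat_lit 2097153) (nat_lit 3527409669) (.one (nat_lit 13224640529) .nil),
   .two (nat_lit 612368385) (nat_lit 46407876617) .nil,
   .two (nat_lit 156364701697) (nat_lit 9867100170) .nil,
   .two (nat_lit 50331649) (nat_lit 166199296011) .nil,
   .two (nat_lit 156367847425) (nat_lit 318767113) .nil,
   .two (nat_lit 156367847425) (nat_lit 746586123) .nil,
   .two (nat_lit 605028353) (nat_lit 2353004554) .nil,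
   .two (nat_lit 34603009) (nat_lit 2889875458) (.two (nat_lit 16777216) (nat_lit 68157458) .nil),
   .two (nat_lit 41943041) (nat_lit 1913651203) (.two (nat_lit 4194304) (nat_lit 28690087954) .nil),
   .two (nat_lit 9768534017) (nat_lit 9915334668) .nil,
   .two (nat_lit 156367847425) (nat_lit 1325400076) .nil,
   .two (nat_lit 156372041729) (nat_lit 11525947404) .nil,
   .two (nat_lit 606076929) (nat_lit 1309671433) .nil,
   .two (nat_lit 16777217) (nat_lit 11614027788) .nil,
   .two (nat_lit 620756993) (nat_lit 1377828875) .nil,
   .two (nat_lit 156364701697) (nat_lit 2097164) .nil,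
   .two (nat_lit 2097153) (nat_lit 28772925450) .nil,
   .two (nat_lit 156367847425) (nat_lit 37253808140) .nil,
   .two (nat_lit 50331649) (nat_lit 47584378892) .nil,
   .two (nat_lit 606076929) (nat_lit 183853121538) (.two (nat_lit 1048576) (nat_lit 20705181713) .nil),
   .two (nat_lit 612368385) (nat_lit 16777226) .nil,
   .two (nat_lit 612368385) (nat_lit 19532873731) (.two (nat_lit 2097152) (nat_lit 13191086092) .nil),
   .two (nat_lit 2097153) (nat_lit 3028287497) .nil,
   .two (nat_lit 41943041) (nat_lit 10940841987) (.two (nat_lit 2097152) (nat_lit 9806282759) (.one (nat_lit 183920230414) .nil)),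
   .two (nat_lit 41943041) (nat_lit 876609546) .nil,
   .two (nat_lit 41943041) (nat_lit 1913651203) (.two (nat_lit 1048576) (nat_lit 13195280388) (.one (nat_lit 19529728017) .nil)),
   .two (nat_lit 4194305) (nat_lit 721420290) (.two (nat_lit 16777216) (nat_lit 9768534020) (.one (nat_lit 12062818319) .nil)),
   .two (nat_lit 156365750273) (nat_lit 156372041738) .nil,
   .two (nat_lit 16777217) (nat_lit 843055114) .nil,
   .two (nat_lit 2097153) (nat_lit 19029557258) .nil,
   .two (nat_lit 606076929) (nat_lit 10376708108) .nil,
   .two (nat_lit 9781116929) (nat_lit 11610882057) .nil,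
   .two (nat_lit 9765388289) (nat_lit 4632608780) .nil,
   .two (nat_lit 4194305) (nat_lit 2432696332) .nil,
   .two (nat_lit 16777217) (nat_lit 184416206851) (.two (nat_lit 4194304) (nat_lit 2936012814) .nil),
   .two (nat_lit 2097153) (nat_lit 158083317769) .nil,
   .two (nat_lit 9781116929) (nat_lit 47581233164) .nil,
   .two (nat_lit 612368385) (nat_lit 46508539915) .nil,
   .two (nat_lit 605028353) (nat_lit 47555018755) (.two (nat_lit 2097152) (nat_lit 157043130384) .nil),
   .two (nat_lit 620756993) (nat_lit 343932937) .nil,
   .two (nat_lit 9766436865) (nat_lit 876609547) .nil,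
   .two (nat_lit 8388609) (nat_lit 739246083) (.two (nat_lit 16777216) (nat_lit 1913651210) .nil),
   .two (nat_lit 50331649) (nat_lit 158143086601) .nil,
   .two (nat_lit 16777217) (nat_lit 19029557260) .nil,
   .two (nat_lit 156367847425) (nat_lit 184549379) (.two (nat_lit 4194304) (nat_lit 156984410124) .nil),
   .two (nat_lit 169869314) (nat_lit 1779433476) (.two (nat_lit 1048576) (nat_lit 169869322) (.one (nat_lit 705691684) .nil)),
   .two (nat_lit 4194306) (nat_lit 2887778306) (.two (nat_lit 2097153) (nat_lit 272629764) (.two (nat_lit 2097152) (nat_lit 4194314) (.one (nat_lit 169869351) .nil))),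
   .two (nat_lit 46414168066) (nat_lit 183845781506) (.two (nat_lit 8388609) (nat_lit 19596836868) (.two (nat_lit 1048576) (nat_lit 11484004364) (.one (nat_lit 12147753010) .nil))),
   .two (nat_lit 83886083) (nat_lit 165532401668) (.two (nat_lit 8388608) (nat_lit 46422556683) (.one (nat_lit 310378545) .nil)),
   .two (nat_lit 75497475) (nat_lit 1795162116) (.two (nat_lit 8388608) (nat_lit 166211878922) (.one (nat_lit 9814671407) .nil)),
   .two (nat_lit 41943043) (nat_lit 11492392964) (.two (nat_lit 8388608) (nat_lit 12129927178) (.one (nat_lit 185035915328) .nil)),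
   .two (nat_lit 184549378) (nat_lit 156372041732) (.two (nat_lit 8388608) (nat_lit 12062818315) (.one (nat_lit 185027526702) .nil)),
   .two (nat_lit 654311427) (nat_lit 1178599427) (.two (nat_lit 4194305) (nat_lit 12062818316) (.one (nat_lit 10015998007) .nil)),
   .two (nat_lit 606076929) (nat_lit 10007609350) (.one (nat_lit 11618222100) .nil),
   .two (nat_lit 612368385) (nat_lit 1358954502) (.one (nat_lit 19109249053) .nil),
   .two (nat_lit 605028353) (nat_lit 10940841999) .nil,
   .two (nat_lit 156367847425) (nat_lit 822083588) (.one (nat_lit 1358954516) .nil),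
   .two (nat_lit 16777217) (nat_lit 19599982595) (.two (nat_lit 1048576) (nat_lit 2420113414) (.one (nat_lit 19042140188) .nil)),
   .two (nat_lit 4194305) (nat_lit 806354951) (.one (nat_lit 158176641044) .nil),
   .two (nat_lit 4194305) (nat_lit 8388614) (.one (nat_lit 672137244) .nil),
   .two (nat_lit 4194305) (nat_lit 20644364301) .nil,
   .two (nat_lit 34603009) (nat_lit 10940842004) .nil,
   .two (nat_lit 9768534017) (nat_lit 18933088271) .nil,
   .two (nat_lit 8388609) (nat_lit 28758245379) (.two (nat_lit 2097152) (nat_lit 343932948) .nil),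
   .two (nat_lit 4194305) (nat_lit 9881780227) (.two (nat_lit 16777216) (nat_lit 3527409670) (.one (nat_lit 157038936084) .nil)),
   .two (nat_lit 8388609) (nat_lit 46422556675) (.two (nat_lit 16777216) (nat_lit 28757196806) (.one (nat_lit 3457155104) .nil)),
   .two (nat_lit 2097153) (nat_lit 343932948) .nil,
   .two (nat_lit 4194305) (nat_lit 270532611) (.two (nat_lit 2097152) (nat_lit 158075977734) (.one (nat_lit 9765388316) .nil)),
   .two (nat_lit 16777217) (nat_lit 19027460110) .nil,
   .two (nat_lit 605028353) (nat_lit 19096666118) (.one (nat_lit 10003415072) .nil),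
   .two (nat_lit 156367847425) (nat_lit 46474985490) .nil,
   .two (nat_lit 9768534017) (nat_lit 47582281741) .nil,
   .two (nat_lit 2097153) (nat_lit 3036676102) (.one (nat_lit 2920284193) .nil),
   .two (nat_lit 606076929) (nat_lit 13195280387) (.two (nat_lit 16777216) (nat_lit 639631366) (.one (nat_lit 19033751584) .nil)),
   .two (nat_lit 50331649) (nat_lit 1377828886) .nil,
   .two (nat_lit 37748737) (nat_lit 2416967700) .nil,
   .two (nat_lit 605028353) (nat_lit 156372041742) .nil,
   .two (nat_lit 9768534017) (nat_lit 754974734) .nil,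
   .two (nat_lit 16777217) (nat_lit 1753219075) (.two (nat_lit 1048576) (nat_lit 9781116948) .nil),
   .two (nat_lit 8388609) (nat_lit 28758245379) (.two (nat_lit 16777216) (nat_lit 880803860) .nil),
   .two (nat_lit 9765388289) (nat_lit 1753219078) (.one (nat_lit 4605345807) .nil),
   .two (nat_lit 34603009) (nat_lit 157036838915) (.two (nat_lit 2097152) (nat_lit 166196150277) (.one (nat_lit 839909390) .nil)),
   .two (nat_lit 16777217) (nat_lit 158144135182) .nil,
   .two (nat_lit 50331649) (nat_lit 1913651203) (.two (nat_lit 1048576) (nat_lit 11492392966) (.one (nat_lit 3539992605) .nil)),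
   .two (nat_lit 9768534017) (nat_lit 28690087956) .nil,
   .two (nat_lit 606076929) (nat_lit 46523219974) (.one (nat_lit 156380430369) .nil),
   .two (nat_lit 34603009) (nat_lit 184989777923) (.two (nat_lit 4194304) (nat_lit 3458203654) (.one (nat_lit 35651617) .nil)),
   .two (nat_lit 16777217) (nat_lit 21208498189) .nil,
   .two (nat_lit 4194305) (nat_lit 754974738) .nil,
   .two (nat_lit 8388609) (nat_lit 10336862228) .nil,
   .two (nat_lit 605028353) (nat_lit 47548727299) (.two (nat_lit 2097152) (nat_lit 739246095) .nil),
   .two (nat_lit 50331649) (nat_lit 2954887174) (.one (nat_lit 1914699804) .nil),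
   .two (nat_lit 2097153) (nat_lit 19537068053) .nil,
   .two (nat_lit 50331649) (nat_lit 2994733075) .nil,
   .two (nat_lit 612368385) (nat_lit 10909384725) .nil,
   .two (nat_lit 41943041) (nat_lit 13237223443) .nil,
   .two (nat_lit 16777217) (nat_lit 157036838915) (.two (nat_lit 2097152) (nat_lit 11492392975) .nil),
   .two (nat_lit 16777217) (nat_lit 28758245382) (.one (nat_lit 2317352989) .nil),
   .two (nat_lit 50331649) (nat_lit 10370416660) .nil,
   .two (nat_lit 16777217) (nat_lit 12117344262) (.one (nat_lit 9902751778) .nil),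
   .two (nat_lit 2097153) (nat_lit 156569174022) (.one (nat_lit 1346371618) .nil),
   .two (nat_lit 156365750273) (nat_lit 1291845638) (.one (nat_lit 10015997973) .nil),
   .two (nat_lit 156367847425) (nat_lit 806354965) .nil,
   .two (nat_lit 605028353) (nat_lit 1962934292) .nil,
   .two (nat_lit 34603009) (nat_lit 158144135174) (.one (nat_lit 1411383317) .nil),
   .two (nat_lit 605028353) (nat_lit 9881780239) .nil,
   .two (nat_lit 620756993) (nat_lit 159216828438) .nil,
   .two (nat_lit 37748737) (nat_lit 654311444) .nil,
   .two (nat_lit 34603009) (nat_lit 721420294) (.one (nat_lit 1962934303) .nil),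
   .two (nat_lit 156364701697) (nat_lit 174686470150) (.one (nat_lit 840957986) .nil),
   .two (nat_lit 606076929) (nat_lit 3464495117) .nil,
   .two (nat_lit 606076929) (nat_lit 156976021526) .nil,
   .two (nat_lit 9766436865) (nat_lit 171966486) .nil,
   .two (nat_lit 620756993) (nat_lit 157036838915) (.two (nat_lit 2097152) (nat_lit 1426063380) .nil),
   .two (nat_lit 612368385) (nat_lit 135266321) .nil,
   .two (nat_lit 16777217) (nat_lit 156367847427) (.two (nat_lit 4194304) (nat_lit 3472883733) .nil),
   .two (nat_lit 34603009) (nat_lit 639631381) .nil,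
   .two (nat_lit 156372041729) (nat_lit 876609559) .nil,
   .two (nat_lit 4194305) (nat_lit 10336862214) (.one (nat_lit 1948254236) .nil),
   .two (nat_lit 34603009) (nat_lit 159217876995) (.two (nat_lit 2097152) (nat_lit 158143086599) (.one (nat_lit 873463822) .nil)),
   .two (nat_lit 16777217) (nat_lit 9934209031) (.one (nat_lit 156466413585) .nil),
   .two (nat_lit 620756993) (nat_lit 11543773191) (.one (nat_lit 672137230) .nil),
   .two (nat_lit 606076929) (nat_lit 20652752917) .nil,
   .two (nat_lit 4194305) (nat_lit 11492392963) (.two (nat_lit 8388608) (nat_lit 13191086114) .nil),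
   .two (nat_lit 620756993) (nat_lit 11543773191) (.one (nat_lit 166129041424) .nil),
   .two (nat_lit 156372041729) (nat_lit 159251431430) (.one (nat_lit 165526110239) .nil),
   .two (nat_lit 9766436865) (nat_lit 2349858829) .nil,
   .two (nat_lit 41943041) (nat_lit 10506731523) (.two (nat_lit 2097152) (nat_lit 156535619590) (.one (nat_lit 159224168478) .nil)),
   .two (nat_lit 2097153) (nat_lit 3472883715) (.two (nat_lit 16777216) (nat_lit 184986632198) (.one (nat_lit 185020186654) .nil)),
   .two (nat_lit 606076929) (nat_lit 9906946064) .nil,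
   .two (nat_lit 37748737) (nat_lit 156465365012) .nil,
   .two (nat_lit 9766436865) (nat_lit 4647288853) .nil,
   .two (nat_lit 34603011) (nat_lit 1283457027) (.two (nat_lit 2097153) (nat_lit 9933160454) (.two (nat_lit 2097152) (nat_lit 2956984333) (.one (nat_lit 35651655) .nil))),
   .two (nat_lit 8388611) (nat_lit 705691652) (.two (nat_lit 2097152) (nat_lit 2956984363) .nil),
   .two (nat_lit 8388611) (nat_lit 705691656) (.one (nat_lit 807403593) .nil),
   .two (nat_lit 4194306) (nat_lit 1175453700) (.two (nat_lit 8388608) (nat_lit 68157448) (.one (nat_lit 2956984363) .nil)),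
   .two (nat_lit 4194306) (nat_lit 8388611) (.two (nat_lit 8388609) (nat_lit 606076936) (.one (nat_lit 608174156) .nil)),
   .two (nat_lit 272629763) (nat_lit 639631363) (.two (nat_lit 605028353) (nat_lit 1344274438) (.two (nat_lit 1048576) (nat_lit 69206030) (.one (nat_lit 1048650) .nil))),
   .two (nat_lit 270532611) (nat_lit 809500675) (.two (nat_lit 34603009) (nat_lit 1344274438) (.two (nat_lit 1048576) (nat_lit 708837421) .nil)),
   .two (nat_lit 705691650) (nat_lit 639631363) (.two (nat_lit 605028353) (nat_lit 2954887172) (.two (nat_lit 1048576) (nat_lit 169869322) (.one (nat_lit 1048651) .nil))),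
   .two (nat_lit 41943043) (nat_lit 606076932) (.two (nat_lit 4194304) (nat_lit 11484004397) .nil),
   .two (nat_lit 41943043) (nat_lit 169869314) (.two (nat_lit 41943041) (nat_lit 169869322) (.one (nat_lit 11484004397) .nil)),
   .two (nat_lit 605028355) (nat_lit 11484004355) (.two (nat_lit 8388609) (nat_lit 11543773193) (.one (nat_lit 2097224) .nil)),
   .two (nat_lit 4194306) (nat_lit 2894069763) (.two (nat_lit 8388609) (nat_lit 272629769) (.one (nat_lit 34603082) .nil)),
   .two (nat_lit 169869314) (nat_lit 101711878) (.two (nat_lit 1048576) (nat_lit 2954887176) (.one (nat_lit 270532678) .nil)),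
   .two (nat_lit 9933160451) (nat_lit 9934209027) (.two (nat_lit 605028353) (nat_lit 9934209030) (.two (nat_lit 1048576) (nat_lit 9934209037) (.one (nat_lit 705691719) .nil))),
   .two (nat_lit 705691650) (nat_lit 1782579203) (.two (nat_lit 37748737) (nat_lit 11543773192) (.one (nat_lit 4194349) .nil)),
   .two (nat_lit 272629763) (nat_lit 11476664324) (.two (nat_lit 2097152) (nat_lit 11543773192) (.one (nat_lit 9866051653) .nil)),
   .two (nat_lit 809500675) (nat_lit 11476664324) (.two (nat_lit 1048576) (nat_lit 2954887176) (.one (nat_lit 68157513) .nil)),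
   .two (nat_lit 809500675) (nat_lit 101711875) (.two (nat_lit 605028353) (nat_lit 809500678) (.two (nat_lit 1048576) (nat_lit 809500682) (.one (nat_lit 68157512) .nil))),
   .two (nat_lit 8388611) (nat_lit 68157444) (.two (nat_lit 4194304) (nat_lit 11543773192) (.one (nat_lit 2956984363) .nil)),
   .two (nat_lit 809500675) (nat_lit 1175453700) (.two (nat_lit 4194304) (nat_lit 739246088) (.one (nat_lit 276824109) .nil)),
   .two (nat_lit 705691650) (nat_lit 639631363) (.two (nat_lit 606076929) (nat_lit 739246107) .nil),
   .two (nat_lit 9934209027) (nat_lit 1779433480) (.one (nat_lit 1343225883) .nil),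
   .two (nat_lit 809500675) (nat_lit 2887778306) (.two (nat_lit 37748737) (nat_lit 203423752) (.one (nat_lit 9934209062) .nil)),
   .two (nat_lit 2902458371) (nat_lit 47555018755) (.two (nat_lit 16777217) (nat_lit 3464495112) (.one (nat_lit 10376708148) .nil)),
   .two (nat_lit 176160770) (nat_lit 1291845634) (.two (nat_lit 620756993) (nat_lit 158083317768) (.one (nat_lit 157043130425) .nil)),
   .two (nat_lit 713031682) (nat_lit 285212675) (.two (nat_lit 16777217) (nat_lit 184993972232) (.one (nat_lit 46489665592) .nil)),
   .two (nat_lit 2902458370) (nat_lit 19599982596) (.two (nat_lit 1048576) (nat_lit 1212153909) .nil),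
   .two (nat_lit 75497475) (nat_lit 174753579011) (.two (nat_lit 9766436865) (nat_lit 21785214981) (.two (nat_lit 2097152) (nat_lit 21785214984) (.one (nat_lit 166197198891) .nil))),
   .two (nat_lit 16777218) (nat_lit 156971827208) (.one (nat_lit 19532873781) .nil),
   .two (nat_lit 184549379) (nat_lit 166132187144) (.one (nat_lit 11010048027) .nil),
   .two (nat_lit 50331651) (nat_lit 166129041410) (.two (nat_lit 50331649) (nat_lit 156968681476) (.two (nat_lit 2097152) (nat_lit 2349858869) .nil)),
   .two (nat_lit 620756995) (nat_lit 10503585795) (.two (nat_lit 8388609) (nat_lit 47563407364) (.two (nat_lit 4194304) (nat_lit 2316304442) .nil)),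
   .two (nat_lit 184549378) (nat_lit 2889875459) (.two (nat_lit 16777217) (nat_lit 46980399112) (.one (nat_lit 1279262772) .nil)),
   .two (nat_lit 184549379) (nat_lit 184989777923) (.two (nat_lit 37748737) (nat_lit 47563407364) (.two (nat_lit 1048576) (nat_lit 2889875510) .nil)),
   .two (nat_lit 2969567235) (nat_lit 12117344259) (.two (nat_lit 37748737) (nat_lit 2969567240) (.one (nat_lit 19599982651) .nil)),
   .two (nat_lit 809500675) (nat_lit 9881780228) (.two (nat_lit 4194304) (nat_lit 117440527) (.one (nat_lit 20740833341) .nil)),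
   .two (nat_lit 184549378) (nat_lit 1914699779) (.two (nat_lit 41943041) (nat_lit 3539992587) (.one (nat_lit 10907287610) .nil)),
   .two (nat_lit 721420291) (nat_lit 1277165570) (.two (nat_lit 16777217) (nat_lit 158144135176) (.one (nat_lit 16777272) .nil)),
   .two (nat_lit 2956984323) (nat_lit 157036838920) (.one (nat_lit 1376780344) .nil),
   .two (nat_lit 16777219) (nat_lit 12117344260) (.two (nat_lit 1048576) (nat_lit 3003121720) .nil),
   .two (nat_lit 2097155) (nat_lit 822083587) (.two (nat_lit 34603009) (nat_lit 10336862214) (.two (nat_lit 1048576) (nat_lit 19142803473) (.one (nat_lit 16777351) .nil))),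
   .two (nat_lit 83886083) (nat_lit 28093448198) (.two (nat_lit 8388608) (nat_lit 9881780232) (.one (nat_lit 9814671421) .nil)),
   .two (nat_lit 21785214979) (nat_lit 28757196803) (.two (nat_lit 9765388289) (nat_lit 20644364296) (.one (nat_lit 21818769524) .nil)),
   .two (nat_lit 2902458371) (nat_lit 20644364290) (.two (nat_lit 16777217) (nat_lit 165532401672) (.one (nat_lit 847249509) .nil)),
   .two (nat_lit 156372041731) (nat_lit 165525061636) (.two (nat_lit 1048576) (nat_lit 218103816) (.one (nat_lit 19545456722) .nil)),
   .two (nat_lit 184549378) (nat_lit 184993972227) (.two (nat_lit 41943041) (nat_lit 47563407364) (.two (nat_lit 1048576) (nat_lit 184423546936) .nil)),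
   .two (nat_lit 16777218) (nat_lit 159224168451) (.two (nat_lit 612368385) (nat_lit 4613734404) (.two (nat_lit 1048576) (nat_lit 10913579067) .nil)),
   .two (nat_lit 9934209027) (nat_lit 11559501827) (.two (nat_lit 41943041) (nat_lit 20638072840) (.one (nat_lit 117440568) .nil)),
   .two (nat_lit 10503585795) (nat_lit 10940841992) (.one (nat_lit 4605345848) .nil),
   .two (nat_lit 11492392962) (nat_lit 19599982595) (.two (nat_lit 9768534017) (nat_lit 11559501832) (.one (nat_lit 11492393025) .nil)),
   .two (nat_lit 8388611) (nat_lit 20637024260) (.two (nat_lit 2097152) (nat_lit 2420113462) .nil),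
   .two (nat_lit 184549379) (nat_lit 28757196804) (.two (nat_lit 16777216) (nat_lit 9899606025) (.one (nat_lit 806355004) .nil)),
   .two (nat_lit 620756995) (nat_lit 10343153672) (.one (nat_lit 10913579049) .nil),
   .two (nat_lit 1344274435) (nat_lit 28086108168) (.one (nat_lit 3460300845) .nil),
   .two (nat_lit 158144135171) (nat_lit 18928893955) (.two (nat_lit 4194305) (nat_lit 9900654601) (.one (nat_lit 270532721) .nil)),
   .two (nat_lit 721420290) (nat_lit 159224168451) (.two (nat_lit 50331649) (nat_lit 28760342534) (.two (nat_lit 4194304) (nat_lit 880803868) (.one (nat_lit 809500726) .nil))),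
   .two (nat_lit 708837379) (nat_lit 46414168067) (.two (nat_lit 4194305) (nat_lit 41943058) (.one (nat_lit 8388744) .nil)),
   .two (nat_lit 809500675) (nat_lit 1745879043) (.two (nat_lit 605028353) (nat_lit 3024093191) (.two (nat_lit 1048576) (nat_lit 13191086090) (.one (nat_lit 1048713) .nil))),
   .two (nat_lit 705691650) (nat_lit 174753579011) (.two (nat_lit 9766436865) (nat_lit 21777874952) (.one (nat_lit 10906239070) .nil)),
   .two (nat_lit 285212675) (nat_lit 20638072834) (.two (nat_lit 16777217) (nat_lit 165526110212) (.two (nat_lit 1048576) (nat_lit 21208498199) (.one (nat_lit 2097290) .nil))),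
   .two (nat_lit 721420290) (nat_lit 28690087940) (.two (nat_lit 4194304) (nat_lit 10503585807) (.one (nat_lit 2987393110) .nil)),
   .two (nat_lit 50331651) (nat_lit 9867100168) (.one (nat_lit 156535619638) .nil),
   .two (nat_lit 10343153667) (nat_lit 21207449603) (.two (nat_lit 605028353) (nat_lit 157043130372) (.two (nat_lit 16777216) (nat_lit 156532473870) (.one (nat_lit 1048715) .nil))),
   .two (nat_lit 612368387) (nat_lit 174753579016) (.one (nat_lit 713031743) .nil),
   .two (nat_lit 2954887171) (nat_lit 4605345795) (.two (nat_lit 2097153) (nat_lit 13195280388) (.two (nat_lit 2097152) (nat_lit 20745027596) (.one (nat_lit 3565158500) .nil))),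
   .two (nat_lit 156372041731) (nat_lit 166132187138) (.two (nat_lit 9768534017) (nat_lit 18933088260) (.two (nat_lit 1048576) (nat_lit 4638900285) .nil)),
   .two (nat_lit 2969567235) (nat_lit 10369368068) (.two (nat_lit 2097152) (nat_lit 46481276971) .nil),
   .two (nat_lit 4194306) (nat_lit 12114198532) (.two (nat_lit 8388608) (nat_lit 19529728061) .nil),
   .two (nat_lit 176160770) (nat_lit 158192369670) (.two (nat_lit 4194304) (nat_lit 21818769430) (.one (nat_lit 8388748) .nil)),
   .two (nat_lit 16777218) (nat_lit 156971827204) (.two (nat_lit 4194304) (nat_lit 50331656) (.one (nat_lit 19532873781) .nil)),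
   .two (nat_lit 184986632195) (nat_lit 102760455) (.two (nat_lit 1048576) (nat_lit 9934209032) (.one (nat_lit 2097293) .nil)),
   .two (nat_lit 16777218) (nat_lit 184989777923) (.two (nat_lit 37748737) (nat_lit 20719861771) (.one (nat_lit 1746927659) .nil)),
   .two (nat_lit 10506731523) (nat_lit 28093448195) (.two (nat_lit 41943041) (nat_lit 19029557274) .nil),
   .two (nat_lit 13191086083) (nat_lit 3525312515) (.two (nat_lit 2097153) (nat_lit 13224640517) (.two (nat_lit 4194304) (nat_lit 47582281753) .nil)),
   .two (nat_lit 117440515) (nat_lit 10939793411) (.two (nat_lit 605028353) (nat_lit 9781116936) (.one (nat_lit 16777358) .nil)),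
   .two (nat_lit 50331651) (nat_lit 184993972227) (.two (nat_lit 620756993) (nat_lit 19094568966) (.two (nat_lit 2097152) (nat_lit 2357198862) (.one (nat_lit 612368438) .nil))),
   .two (nat_lit 713031682) (nat_lit 1795162115) (.two (nat_lit 50331649) (nat_lit 1350565892) (.two (nat_lit 4194304) (nat_lit 13228834827) (.one (nat_lit 9906946168) .nil))),
   .two (nat_lit 721420290) (nat_lit 174752530435) (.two (nat_lit 9765388289) (nat_lit 620757000) (.one (nat_lit 1929379918) .nil)),
   .two (nat_lit 11479810050) (nat_lit 21777874947) (.two (nat_lit 605028353) (nat_lit 11479810056) (.one (nat_lit 4030726249) .nil)),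
   .two (nat_lit 158144135171) (nat_lit 839909383) (.two (nat_lit 1048576) (nat_lit 20638072849) (.one (nat_lit 2097295) .nil)),
   .two (nat_lit 285212675) (nat_lit 20638072834) (.two (nat_lit 16777217) (nat_lit 165526110212) (.two (nat_lit 1048576) (nat_lit 158647451671) (.one (nat_lit 2097296) .nil))),
   .two (nat_lit 218103811) (nat_lit 9765388291) (.two (nat_lit 8388609) (nat_lit 46473936903) (.two (nat_lit 4194304) (nat_lit 1846542345) (.one (nat_lit 117440651) .nil))),
   .two (nat_lit 2954887171) (nat_lit 156367847432) (.one (nat_lit 4601151515) .nil),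
   .two (nat_lit 654311427) (nat_lit 183845781508) (.two (nat_lit 2097152) (nat_lit 135266357) .nil),
   .two (nat_lit 612368387) (nat_lit 2902458376) (.one (nat_lit 37253808186) .nil),
   .two (nat_lit 11479810050) (nat_lit 28093448198) (.two (nat_lit 4194304) (nat_lit 21785214984) (.one (nat_lit 1279262799) .nil)),
   .two (nat_lit 41943043) (nat_lit 19530776579) (.two (nat_lit 2097153) (nat_lit 13195280389) (.two (nat_lit 8388608) (nat_lit 10504634376) (.one (nat_lit 10504634405) .nil))),
   .two (nat_lit 1277165571) (nat_lit 18933088264) (.one (nat_lit 10370416693) .nil),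
   .two (nat_lit 11484004355) (nat_lit 2416967685) (.two (nat_lit 2097152) (nat_lit 156968681480) (.one (nat_lit 46984593453) .nil)),
   .two (nat_lit 50331651) (nat_lit 2923429894) (.two (nat_lit 16777216) (nat_lit 1379926028) (.one (nat_lit 12633243772) .nil)),
   .two (nat_lit 2969567235) (nat_lit 166132187138) (.two (nat_lit 16777217) (nat_lit 19532873732) (.two (nat_lit 1048576) (nat_lit 10942939144) (.one (nat_lit 4194449) .nil))),
   .two (nat_lit 184549379) (nat_lit 9933160451) (.two (nat_lit 4194305) (nat_lit 174752530438) (.two (nat_lit 4194304) (nat_lit 855638032) (.one (nat_lit 16777362) .nil))),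
   .two (nat_lit 612368387) (nat_lit 159216828419) (.two (nat_lit 16777217) (nat_lit 46477082633) (.one (nat_lit 1048723) .nil)),
   .two (nat_lit 639631363) (nat_lit 28086108163) (.two (nat_lit 34603009) (nat_lit 4632608775) (.two (nat_lit 8388608) (nat_lit 1209008145) (.one (nat_lit 1048724) .nil))),
   .two (nat_lit 184549379) (nat_lit 2319450119) (.two (nat_lit 4194304) (nat_lit 318767120) (.one (nat_lit 4194453) .nil)),
   .two (nat_lit 620756995) (nat_lit 205520900) (.two (nat_lit 1048576) (nat_lit 1346371595) (.one (nat_lit 742391892) .nil)),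
   .two (nat_lit 13191086083) (nat_lit 10913579014) (.two (nat_lit 8388608) (nat_lit 12620660753) (.one (nat_lit 4194454) .nil)),
   .two (nat_lit 639631363) (nat_lit 10503585795) (.two (nat_lit 606076929) (nat_lit 156566028293) (.two (nat_lit 1048576) (nat_lit 10370416658) (.one (nat_lit 2097303) .nil))),
   .two (nat_lit 612368387) (nat_lit 11543773187) (.two (nat_lit 34603009) (nat_lit 612368388) (.two (nat_lit 16777216) (nat_lit 638582829) .nil)),
   .two (nat_lit 75497475) (nat_lit 21778923523) (.two (nat_lit 8388609) (nat_lit 1377828877) (.one (nat_lit 2097304) .nil)),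
   .two (nat_lit 721420291) (nat_lit 28093448196) (.two (nat_lit 8388608) (nat_lit 11492392969) (.one (nat_lit 8388727) .nil)),
   .two (nat_lit 4601151491) (nat_lit 13187940355) (.two (nat_lit 2097153) (nat_lit 159216828422) (.two (nat_lit 2097152) (nat_lit 156367847441) (.one (nat_lit 809500820) .nil))),
   .two (nat_lit 184549378) (nat_lit 12054429700) (.two (nat_lit 4194304) (nat_lit 12121538575) (.one (nat_lit 2894069872) .nil)),
   .two (nat_lit 9948889091) (nat_lit 184986632195) (.two (nat_lit 34603009) (nat_lit 9948889092) (.two (nat_lit 4194304) (nat_lit 11510218808) .nil)),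
   .two (nat_lit 117440515) (nat_lit 183845781508) (.two (nat_lit 2097152) (nat_lit 13187940367) (.one (nat_lit 166196150364) .nil)),
   .two (nat_lit 176160771) (nat_lit 157038936067) (.two (nat_lit 34603009) (nat_lit 19532873747) (.one (nat_lit 18928894035) .nil)),
   .two (nat_lit 176160770) (nat_lit 166230753286) (.two (nat_lit 2097152) (nat_lit 612368392) (.one (nat_lit 1350565977) .nil)),
   .two (nat_lit 169869314) (nat_lit 11559501827) (.two (nat_lit 50331649) (nat_lit 159217876996) (.two (nat_lit 16777216) (nat_lit 12115247116) (.one (nat_lit 1929379896) .nil))),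
   .two (nat_lit 9948889091) (nat_lit 184417255431) (.two (nat_lit 2097152) (nat_lit 20719861777) (.one (nat_lit 1761607823) .nil)),
   .two (nat_lit 101711875) (nat_lit 165532401668) (.two (nat_lit 1048576) (nat_lit 46414168072) (.one (nat_lit 2323644483) .nil)),
   .two (nat_lit 1277165571) (nat_lit 166132187139) (.two (nat_lit 2097153) (nat_lit 1916796936) (.one (nat_lit 4194457) .nil)),
   .two (nat_lit 2097155) (nat_lit 2889875458) (.two (nat_lit 2097153) (nat_lit 159250382853) (.two (nat_lit 2097152) (nat_lit 9933160462) (.one (nat_lit 675283048) .nil))),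
   .two (nat_lit 9768534019) (nat_lit 12047089667) (.two (nat_lit 34603009) (nat_lit 9768534020) (.two (nat_lit 8388608) (nat_lit 1376780351) .nil)),
   .two (nat_lit 612368387) (nat_lit 156365750276) (.two (nat_lit 16777216) (nat_lit 713031739) .nil),
   .two (nat_lit 713031682) (nat_lit 19529728004) (.two (nat_lit 4194304) (nat_lit 157035790351) (.one (nat_lit 4027580550) .nil)),
   .two (nat_lit 285212675) (nat_lit 20638072834) (.two (nat_lit 16777217) (nat_lit 165526110216) (.one (nat_lit 12115247153) .nil)),
   .two (nat_lit 612368387) (nat_lit 157035790339) (.two (nat_lit 16777217) (nat_lit 2961178628) (.two (nat_lit 2097152) (nat_lit 28790751290) .nil)),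
   .two (nat_lit 11479810050) (nat_lit 158143086595) (.two (nat_lit 605028353) (nat_lit 1178599428) (.two (nat_lit 1048576) (nat_lit 10506731528) (.one (nat_lit 18928894083) .nil))),
   .two (nat_lit 41943043) (nat_lit 606076932) (.two (nat_lit 4194304) (nat_lit 184993972287) .nil),
   .two (nat_lit 806354947) (nat_lit 159224168454) (.two (nat_lit 2097152) (nat_lit 184423546891) (.one (nat_lit 1048732) .nil)),
   .two (nat_lit 1343225859) (nat_lit 156367847427) (.two (nat_lit 37748737) (nat_lit 1376780293) (.two (nat_lit 1048576) (nat_lit 4601151496) (.one (nat_lit 71303230) .nil))),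
   .two (nat_lit 165532401667) (nat_lit 10939793411) (.two (nat_lit 605028353) (nat_lit 10343153672) (.one (nat_lit 166203490356) .nil)),
   .two (nat_lit 169869314) (nat_lit 1276116994) (.two (nat_lit 2097153) (nat_lit 9866051592) (.one (nat_lit 3557818420) .nil)),
   .two (nat_lit 822083587) (nat_lit 156968681475) (.two (nat_lit 34603009) (nat_lit 285212680) (.one (nat_lit 2987393073) .nil)),
   .two (nat_lit 605028355) (nat_lit 159224168451) (.two (nat_lit 34603009) (nat_lit 9768534026) (.one (nat_lit 10939793560) .nil)),
   .two (nat_lit 713031682) (nat_lit 10336862211) (.two (nat_lit 606076929) (nat_lit 21785214984) (.one (nat_lit 166130090047) .nil)),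
   .two (nat_lit 639631363) (nat_lit 11492392962) (.two (nat_lit 50331649) (nat_lit 10370416648) (.one (nat_lit 169869373) .nil)),
   .two (nat_lit 1358954499) (nat_lit 159217876995) (.two (nat_lit 606076929) (nat_lit 11559501828) (.two (nat_lit 2097152) (nat_lit 251658252) (.one (nat_lit 9934209120) .nil))),
   .two (nat_lit 809500675) (nat_lit 28758245379) (.two (nat_lit 9766436865) (nat_lit 11479810052) (.two (nat_lit 2097152) (nat_lit 742391817) (.one (nat_lit 236978331) .nil))),
   .two (nat_lit 50331651) (nat_lit 10506731524) (.two (nat_lit 2097152) (nat_lit 1426063419) .nil),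
   .two (nat_lit 713031682) (nat_lit 46407876610) (.two (nat_lit 2097153) (nat_lit 21785214984) (.one (nat_lit 156533522491) .nil)),
   .two (nat_lit 9933160451) (nat_lit 159217876995) (.two (nat_lit 605028353) (nat_lit 159217876998) (.two (nat_lit 2097152) (nat_lit 166229704720) (.one (nat_lit 1048734) .nil))),
   .two (nat_lit 171966467) (nat_lit 2887778306) (.two (nat_lit 4194305) (nat_lit 1209008145) (.one (nat_lit 10336862334) .nil)),
   .two (nat_lit 11492392962) (nat_lit 18928893955) (.two (nat_lit 4194305) (nat_lit 11559501832) (.one (nat_lit 21827158054) .nil)),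
   .two (nat_lit 3525312515) (nat_lit 1745879043) (.two (nat_lit 605028353) (nat_lit 10336862216) (.one (nat_lit 10939793474) .nil)),
   .two (nat_lit 4194306) (nat_lit 10370416643) (.two (nat_lit 2097153) (nat_lit 4601151496) (.one (nat_lit 20705181749) .nil)),
   .two (nat_lit 10370416643) (nat_lit 4605345795) (.two (nat_lit 2097153) (nat_lit 41943044) (.two (nat_lit 2097152) (nat_lit 174692761612) (.one (nat_lit 2097311) .nil))),
   .two (nat_lit 9768534019) (nat_lit 9881780227) (.two (nat_lit 50331649) (nat_lit 166132187144) (.one (nat_lit 11010048122) .nil)),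
   .two (nat_lit 176160770) (nat_lit 10503585799) (.two (nat_lit 1048576) (nat_lit 4638900246) (.one (nat_lit 183953784933) .nil)),
   .two (nat_lit 8388610) (nat_lit 10506731523) (.two (nat_lit 9768534017) (nat_lit 8388616) (.one (nat_lit 4605345857) .nil)),
   .two (nat_lit 10335813635) (nat_lit 165532401668) (.two (nat_lit 1048576) (nat_lit 158083317783) (.one (nat_lit 645922960) .nil)),
   .two (nat_lit 272629763) (nat_lit 10940841987) (.two (nat_lit 606076929) (nat_lit 306184197) (.two (nat_lit 2097152) (nat_lit 4601151496) (.one (nat_lit 158647451711) .nil))),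
   .two (nat_lit 612368387) (nat_lit 158144135171) (.two (nat_lit 50331649) (nat_lit 1780482056) (.one (nat_lit 10940842040) .nil)),
   .two (nat_lit 270532611) (nat_lit 9781116932) (.two (nat_lit 2097152) (nat_lit 185002360843) (.one (nat_lit 11476664401) .nil)),
   .two (nat_lit 176160771) (nat_lit 46980399107) (.two (nat_lit 8388609) (nat_lit 3527409668) (.two (nat_lit 2097152) (nat_lit 641728520) (.one (nat_lit 2424307799) .nil))),
   .two (nat_lit 822083587) (nat_lit 183912890374) (.two (nat_lit 16777216) (nat_lit 184416206856) (.one (nat_lit 10906239033) .nil)),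
   .two (nat_lit 2887778306) (nat_lit 19596836867) (.two (nat_lit 9765388289) (nat_lit 3525312516) (.two (nat_lit 1048576) (nat_lit 46508539913) (.one (nat_lit 1343225988) .nil))),
   .two (nat_lit 4194306) (nat_lit 209715203) (.two (nat_lit 8388609) (nat_lit 20707278859) (.one (nat_lit 19093520508) .nil)),
   .two (nat_lit 9934209027) (nat_lit 28690087939) (.two (nat_lit 34603009) (nat_lit 1277165572) (.two (nat_lit 16777216) (nat_lit 183912890431) .nil)),
   .two (nat_lit 171966467) (nat_lit 1795162120) (.one (nat_lit 46980399160) .nil),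
   .two (nat_lit 9948889091) (nat_lit 12618563591) (.two (nat_lit 2097152) (nat_lit 166211878930) (.one (nat_lit 150995095) .nil)),
   .two (nat_lit 184549378) (nat_lit 3531603971) (.two (nat_lit 8388609) (nat_lit 3036676105) (.one (nat_lit 159216828553) .nil)),
   .two (nat_lit 16777219) (nat_lit 10343153667) (.two (nat_lit 34603009) (nat_lit 11014242309) (.two (nat_lit 8388608) (nat_lit 12047089687) (.one (nat_lit 11577327756) .nil))),
   .two (nat_lit 4194306) (nat_lit 10503585795) (.two (nat_lit 8388609) (nat_lit 809500680) (.one (nat_lit 68157485) .nil)),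
   .two (nat_lit 34603011) (nat_lit 159224168452) (.two (nat_lit 2097152) (nat_lit 10369368072) (.one (nat_lit 166196150330) .nil)),
   .two (nat_lit 2969567235) (nat_lit 1847590920) (.one (nat_lit 50331707) .nil),
   .two (nat_lit 184989777923) (nat_lit 21785214979) (.two (nat_lit 606076929) (nat_lit 166199296006) (.two (nat_lit 8388608) (nat_lit 9900654610) (.one (nat_lit 2317353096) .nil))),
   .two (nat_lit 41943043) (nat_lit 11479810051) (.two (nat_lit 4194305) (nat_lit 46481276939) (.one (nat_lit 8388725) .nil)),
   .two (nat_lit 47548727299) (nat_lit 159216828419) (.two (nat_lit 2097153) (nat_lit 21777874950) (.two (nat_lit 4194304) (nat_lit 46407876626) (.one (nat_lit 2097317) .nil))),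
   .two (nat_lit 9934209027) (nat_lit 1779433475) (.two (nat_lit 34603009) (nat_lit 9967763461) (.two (nat_lit 1048576) (nat_lit 159217877000) (.one (nat_lit 839909434) .nil))),
   .two (nat_lit 176160771) (nat_lit 740294663) (.two (nat_lit 4194304) (nat_lit 343932947) (.one (nat_lit 4194470) .nil)),
   .two (nat_lit 184549378) (nat_lit 2889875460) (.two (nat_lit 16777216) (nat_lit 3527409672) (.one (nat_lit 138412089) .nil)),
   .two (nat_lit 101711875) (nat_lit 19027460102) (.two (nat_lit 1048576) (nat_lit 10504634376) (.one (nat_lit 3021996089) .nil)),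
   .two (nat_lit 8388611) (nat_lit 9781116931) (.two (nat_lit 50331649) (nat_lit 46414168072) (.one (nat_lit 8388776) .nil)),
   .two (nat_lit 2887778306) (nat_lit 157035790339) (.two (nat_lit 16777217) (nat_lit 11476664328) (.one (nat_lit 46977253505) .nil)),
   .two (nat_lit 1782579203) (nat_lit 20705181703) (.two (nat_lit 8388608) (nat_lit 158077026312) (.one (nat_lit 4194475) .nil)),
   .two (nat_lit 184549379) (nat_lit 10343153667) (.two (nat_lit 612368385) (nat_lit 218103816) (.one (nat_lit 16777388) .nil)),
   .two (nat_lit 203423747) (nat_lit 1846542339) (.two (nat_lit 2097153) (nat_lit 19093520389) (.two (nat_lit 2097152) (nat_lit 1913651208) (.one (nat_lit 2988441659) .nil))),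
   .two (nat_lit 272629763) (nat_lit 1746927619) (.two (nat_lit 50331649) (nat_lit 605028357) (.two (nat_lit 1048576) (nat_lit 10907287568) (.one (nat_lit 337641630) .nil))),
   .two (nat_lit 11546918915) (nat_lit 28093448195) (.two (nat_lit 41943041) (nat_lit 19532873732) (.two (nat_lit 2097152) (nat_lit 1849688072) (.one (nat_lit 8388782) .nil))),
   .two (nat_lit 9933160451) (nat_lit 47548727299) (.two (nat_lit 2097153) (nat_lit 1343225862) (.two (nat_lit 4194304) (nat_lit 673185808) (.one (nat_lit 2921332882) .nil))),
   .two (nat_lit 218103811) (nat_lit 159224168451) (.two (nat_lit 34603009) (nat_lit 174692761614) (.one (nat_lit 310378643) .nil)),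
   .two (nat_lit 4194306) (nat_lit 156364701699) (.two (nat_lit 16777217) (nat_lit 68157448) (.one (nat_lit 1048753) .nil)),
   .two (nat_lit 169869314) (nat_lit 1779433480) (.two (nat_lit 2097152) (nat_lit 11543773208) (.one (nat_lit 11543773252) .nil)),
   .two (nat_lit 639631363) (nat_lit 1343225864) (.two (nat_lit 2097152) (nat_lit 11543773210) (.one (nat_lit 11543773363) .nil)),
   .two (nat_lit 721420290) (nat_lit 1753219077) (.two (nat_lit 8388609) (nat_lit 11559501848) (.one (nat_lit 1962934340) .nil)),
   .two (nat_lit 41943041) (nat_lit 185020186630) (.one (nat_lit 20737687583) .nil),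
   .two (nat_lit 50331649) (nat_lit 20640170019) .nil,
   .two (nat_lit 9781116929) (nat_lit 773849116) .nil,
   .two (nat_lit 41943041) (nat_lit 1761607715) .nil,
   .two (nat_lit 4194305) (nat_lit 20638072865) .nil,
   .two (nat_lit 9781116929) (nat_lit 706740258) .nil,
   .two (nat_lit 156367847425) (nat_lit 1343225888) .nil,
   .two (nat_lit 8388609) (nat_lit 9768534049) .nil,
   .two (nat_lit 9765388289) (nat_lit 21814575138) .nil,
   .two (nat_lit 605028353) (nat_lit 687865884) .nil,
   .two (nat_lit 34603009) (nat_lit 243269665) .nil,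
   .two (nat_lit 9766436865) (nat_lit 1761607715) .nil,
   .two (nat_lit 156365750273) (nat_lit 10544480289) .nil,
   .two (nat_lit 34603009) (nat_lit 1392508957) .nil,
   .two (nat_lit 16777217) (nat_lit 157036838943) .nil,
   .two (nat_lit 37748737) (nat_lit 159224168482) .nil,
   .two (nat_lit 2097153) (nat_lit 10007609374) .nil,
   .two (nat_lit 612368385) (nat_lit 4613734429) .nil,
   .two (nat_lit 8388609) (nat_lit 1291845662) .nil,
   .two (nat_lit 50331649) (nat_lit 3557818401) .nil,
   .two (nat_lit 612368385) (nat_lit 1310720034) .nil,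
   .two (nat_lit 605028353) (nat_lit 10510925852) .nil,
   .two (nat_lit 11559501827) (nat_lit 46980399108) (.two (nat_lit 4194304) (nat_lit 83886088) (.one (nat_lit 205520992) .nil)),
   .two (nat_lit 50331651) (nat_lit 9934209032) (.one (nat_lit 183861510189) .nil),
   .two (nat_lit 11476664322) (nat_lit 158083317768) (.one (nat_lit 19093520437) .nil),
   .two (nat_lit 1344274435) (nat_lit 1384120327) (.two (nat_lit 4194304) (nat_lit 21778923601) .nil),
   .two (nat_lit 159217876995) (nat_lit 303038476) (.one (nat_lit 9765388334) .nil),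
   .two (nat_lit 9934209027) (nat_lit 28086108170) (.one (nat_lit 21777874988) .nil),
   .two (nat_lit 50331651) (nat_lit 1384120332) (.one (nat_lit 13228835003) .nil),
   .two (nat_lit 4194306) (nat_lit 28758245379) (.two (nat_lit 4194305) (nat_lit 1277165572) (.two (nat_lit 4194304) (nat_lit 706740328) .nil)),
   .two (nat_lit 16777219) (nat_lit 639631364) (.two (nat_lit 2097152) (nat_lit 83886095) (.one (nat_lit 3525312736) .nil)),
   .two (nat_lit 159224168451) (nat_lit 157036838920) (.one (nat_lit 9906946104) .nil),
   .two (nat_lit 1916796931) (nat_lit 10939793416) (.one (nat_lit 158079123504) .nil),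
   .two (nat_lit 176160771) (nat_lit 12117344261) (.two (nat_lit 4194304) (nat_lit 184423546938) .nil),
   .two (nat_lit 809500675) (nat_lit 2887778306) (.two (nat_lit 37748737) (nat_lit 203423748) (.two (nat_lit 4194304) (nat_lit 2988441610) (.one (nat_lit 12117344319) .nil))),
   .two (nat_lit 16777218) (nat_lit 1779433476) (.two (nat_lit 1048576) (nat_lit 174701150220) (.one (nat_lit 822083669) .nil)),
   .two (nat_lit 2954887171) (nat_lit 19596836867) (.two (nat_lit 9766436865) (nat_lit 12047089672) (.one (nat_lit 202375214) .nil)),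
   .two (nat_lit 654311427) (nat_lit 183845781506) (.two (nat_lit 34603009) (nat_lit 28772925450) (.one (nat_lit 135266357) .nil)),
   .two (nat_lit 34603011) (nat_lit 2902458371) (.two (nat_lit 16777217) (nat_lit 11543773192) (.one (nat_lit 20705181750) .nil)),
   .two (nat_lit 809500675) (nat_lit 10385096710) (.two (nat_lit 16777216) (nat_lit 11479810067) (.one (nat_lit 4194530) .nil)),
   .two (nat_lit 10506731523) (nat_lit 184423546884) (.two (nat_lit 2097152) (nat_lit 2319450141) (.one (nat_lit 4194531) .nil)),
   .two (nat_lit 822083587) (nat_lit 28757196803) (.two (nat_lit 9765388289) (nat_lit 50331652) (.two (nat_lit 2097152) (nat_lit 19529728018) (.one (nat_lit 1048730) .nil))),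
   .two (nat_lit 8388611) (nat_lit 1191182340) (.two (nat_lit 4194304) (nat_lit 11022631020) .nil),
   .two (nat_lit 708837379) (nat_lit 1291845636) (.two (nat_lit 2097152) (nat_lit 1358954517) (.one (nat_lit 16777444) .nil)),
   .two (nat_lit 2902458371) (nat_lit 47550824451) (.two (nat_lit 4194305) (nat_lit 46523219974) (.two (nat_lit 2097152) (nat_lit 1410334841) .nil)),
   .two (nat_lit 1291845634) (nat_lit 1913651203) (.two (nat_lit 9765388289) (nat_lit 158158815236) (.two (nat_lit 4194304) (nat_lit 21811429404) (.one (nat_lit 1048805) .nil))),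
   .two (nat_lit 1779433475) (nat_lit 46409973763) (.two (nat_lit 37748737) (nat_lit 158143086600) (.one (nat_lit 1048731) .nil)),
   .two (nat_lit 203423747) (nat_lit 1182793740) (.one (nat_lit 645922864) .nil),
   .two (nat_lit 2097155) (nat_lit 721420290) (.two (nat_lit 34603009) (nat_lit 28087156744) (.one (nat_lit 158647451715) .nil)),
   .two (nat_lit 169869314) (nat_lit 21785214979) (.two (nat_lit 612368385) (nat_lit 9934209028) (.two (nat_lit 8388608) (nat_lit 337641612) .nil)),
   .two (nat_lit 2969567235) (nat_lit 13191086083) (.two (nat_lit 16777217) (nat_lit 9802088454) (.two (nat_lit 16777216) (nat_lit 11614027897) .nil)),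
   .two (nat_lit 184549378) (nat_lit 12117344260) (.two (nat_lit 4194304) (nat_lit 19545456652) (.one (nat_lit 9948889141) .nil)),
   .two (nat_lit 654311427) (nat_lit 1847590915) (.two (nat_lit 606076929) (nat_lit 11525947439) .nil),
   .two (nat_lit 69206019) (nat_lit 21785214979) (.two (nat_lit 2097153) (nat_lit 12117344264) (.one (nat_lit 4194461) .nil)),
   .two (nat_lit 654311427) (nat_lit 20638072835) (.two (nat_lit 2097153) (nat_lit 10452205632) .nil),
   .two (nat_lit 75497475) (nat_lit 2954887174) (.two (nat_lit 1048576) (nat_lit 183846830134) .nil),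
   .two (nat_lit 822083587) (nat_lit 13191086086) (.two (nat_lit 2097152) (nat_lit 4194336) (.one (nat_lit 19597885547) .nil)),
   .two (nat_lit 169869314) (nat_lit 620756997) (.two (nat_lit 2097152) (nat_lit 9982443578) .nil),
   .two (nat_lit 171966467) (nat_lit 28758245379) (.two (nat_lit 605028353) (nat_lit 1277165578) (.one (nat_lit 1312817206) .nil)),
   .two (nat_lit 8388611) (nat_lit 183845781506) (.two (nat_lit 8388609) (nat_lit 184416206852) (.two (nat_lit 1048576) (nat_lit 47555018761) (.one (nat_lit 47555018805) .nil))),
   .two (nat_lit 16777218) (nat_lit 9934209032) (.one (nat_lit 47582281767) .nil),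
   .two (nat_lit 605028355) (nat_lit 2902458370) (.two (nat_lit 4194305) (nat_lit 3573547018) (.one (nat_lit 1048630) .nil)),
   .two (nat_lit 156364701699) (nat_lit 19599982595) (.two (nat_lit 34603009) (nat_lit 184989777927) (.two (nat_lit 4194304) (nat_lit 2365587510) .nil)),
   .two (nat_lit 12121538563) (nat_lit 174752530436) (.two (nat_lit 1048576) (nat_lit 18933088264) (.one (nat_lit 8388838) .nil)),
   .two (nat_lit 157035790339) (nat_lit 166132187138) (.two (nat_lit 9765388289) (nat_lit 1224736822) .nil),
   .two (nat_lit 184993972227) (nat_lit 18928893956) (.two (nat_lit 4194304) (nat_lit 12121538581) (.one (nat_lit 4194535) .nil)),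
   .two (nat_lit 9768534019) (nat_lit 117440516) (.two (nat_lit 4194304) (nat_lit 11559501839) (.one (nat_lit 2319450308) .nil)),
   .two (nat_lit 203423747) (nat_lit 158143086600) (.one (nat_lit 20704133145) .nil),
   .two (nat_lit 713031682) (nat_lit 9866051587) (.two (nat_lit 34603009) (nat_lit 746586176) .nil),
   .two (nat_lit 1795162115) (nat_lit 157038936067) (.two (nat_lit 50331649) (nat_lit 19532873736) (.one (nat_lit 1413480494) .nil)),
   .two (nat_lit 713031682) (nat_lit 11559501828) (.two (nat_lit 8388608) (nat_lit 158091706389) (.one (nat_lit 3531604156) .nil)),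
   .two (nat_lit 11476664322) (nat_lit 165532401668) (.two (nat_lit 1048576) (nat_lit 2994733077) (.one (nat_lit 1947205685) .nil)),
   .two (nat_lit 13191086083) (nat_lit 20644364291) (.two (nat_lit 8388609) (nat_lit 1212153895) .nil),
   .two (nat_lit 16777218) (nat_lit 184993972232) (.one (nat_lit 13203669045) .nil),
   .two (nat_lit 8388610) (nat_lit 183845781514) (.one (nat_lit 20637024317) .nil),
   .two (nat_lit 184549378) (nat_lit 21208498179) (.two (nat_lit 606076929) (nat_lit 620757000) (.one (nat_lit 158662131767) .nil)),
   .two (nat_lit 1291845635) (nat_lit 183848927235) (.two (nat_lit 16777217) (nat_lit 19599982600) (.one (nat_lit 10540285999) .nil)),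
   .two (nat_lit 1358954499) (nat_lit 159251431429) (.two (nat_lit 16777216) (nat_lit 2317352983) (.one (nat_lit 2097312) .nil)),
   .two (nat_lit 8388610) (nat_lit 184419352584) (.one (nat_lit 612368518) .nil),
   .two (nat_lit 34603011) (nat_lit 46414168067) (.two (nat_lit 2097153) (nat_lit 46977253383) (.two (nat_lit 8388608) (nat_lit 183912890388) (.one (nat_lit 337641579) .nil))),
   .two (nat_lit 50331651) (nat_lit 12121538563) (.two (nat_lit 41943041) (nat_lit 13237223430) (.two (nat_lit 4194304) (nat_lit 1746927723) .nil)),
   .two (nat_lit 4599054339) (nat_lit 12054429700) (.two (nat_lit 1048576) (nat_lit 28691136520) (.one (nat_lit 8388840) .nil)),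
   .two (nat_lit 822083587) (nat_lit 166132187138) (.two (nat_lit 9768534017) (nat_lit 1392508978) .nil),
   .two (nat_lit 9934209027) (nat_lit 3464495113) (.one (nat_lit 158177689656) .nil),
   .two (nat_lit 9934209027) (nat_lit 46980399112) (.one (nat_lit 9967763514) .nil),
   .two (nat_lit 721420291) (nat_lit 166130089987) (.two (nat_lit 16777217) (nat_lit 10940841992) (.one (nat_lit 1176502338) .nil)),
   .two (nat_lit 50331651) (nat_lit 337641479) (.two (nat_lit 4194304) (nat_lit 318767135) (.one (nat_lit 11546919019) .nil)),
   .two (nat_lit 11484004355) (nat_lit 2316304390) (.two (nat_lit 2097152) (nat_lit 880803946) .nil),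
   .two (nat_lit 4599054339) (nat_lit 19599982597) (.two (nat_lit 1048576) (nat_lit 47548727311) (.one (nat_lit 10370416752) .nil)),
   .two (nat_lit 9948889091) (nat_lit 9768534019) (.two (nat_lit 37748737) (nat_lit 2357198854) (.two (nat_lit 8388608) (nat_lit 47563407391) (.one (nat_lit 19109249145) .nil))),
   .two (nat_lit 713031683) (nat_lit 1377828871) (.two (nat_lit 16777216) (nat_lit 13228834836) (.one (nat_lit 11517559002) .nil)),
   .two (nat_lit 10506731523) (nat_lit 1745879043) (.two (nat_lit 605028353) (nat_lit 156971827208) (.one (nat_lit 9899606079) .nil)),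
   .two (nat_lit 34603011) (nat_lit 19100860428) (.one (nat_lit 9940500688) .nil),
   .two (nat_lit 69206019) (nat_lit 21785214981) (.two (nat_lit 2097152) (nat_lit 1916796936) (.one (nat_lit 1312817250) .nil)),
   .two (nat_lit 75497475) (nat_lit 2316304390) (.two (nat_lit 4194304) (nat_lit 46481277019) .nil),
   .two (nat_lit 8388611) (nat_lit 184431935491) (.two (nat_lit 50331649) (nat_lit 46414168068) (.two (nat_lit 4194304) (nat_lit 11492392976) (.one (nat_lit 16777377) .nil))),
   .two (nat_lit 1343225859) (nat_lit 46407876610) (.two (nat_lit 2097153) (nat_lit 28757196808) (.one (nat_lit 4028629045) .nil)),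
   .two (nat_lit 16777218) (nat_lit 3527409672) (.one (nat_lit 28806479984) .nil),
   .two (nat_lit 4194306) (nat_lit 46992982019) (.two (nat_lit 16777217) (nat_lit 20707278859) (.one (nat_lit 1048738) .nil)),
   .two (nat_lit 34603011) (nat_lit 159224168454) (.two (nat_lit 2097152) (nat_lit 10000269333) (.one (nat_lit 1048810) .nil)),
   .two (nat_lit 184549379) (nat_lit 159251431430) (.two (nat_lit 1048576) (nat_lit 9915334818) .nil),
   .two (nat_lit 176160771) (nat_lit 2969567237) (.two (nat_lit 8388608) (nat_lit 318767163) .nil),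
   .two (nat_lit 16777218) (nat_lit 159251431430) (.two (nat_lit 1048576) (nat_lit 183962173549) .nil),
   .two (nat_lit 11559501827) (nat_lit 156367847427) (.two (nat_lit 37748737) (nat_lit 83886084) (.two (nat_lit 8388608) (nat_lit 1749024776) (.one (nat_lit 4194539) .nil))),
   .two (nat_lit 16777219) (nat_lit 2954887171) (.two (nat_lit 2097153) (nat_lit 285212677) (.two (nat_lit 2097152) (nat_lit 620757009) (.one (nat_lit 16777452) .nil))),
   .two (nat_lit 4605345795) (nat_lit 166130089986) (.two (nat_lit 8388609) (nat_lit 166130089988) (.two (nat_lit 4194304) (nat_lit 270532703) .nil)),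
   .two (nat_lit 50331651) (nat_lit 174752530435) (.two (nat_lit 50331649) (nat_lit 21777874951) (.two (nat_lit 1048576) (nat_lit 19042140220) .nil)),
   .two (nat_lit 2969567235) (nat_lit 20638072834) (.two (nat_lit 50331649) (nat_lit 174752530436) (.two (nat_lit 1048576) (nat_lit 21778923535) (.one (nat_lit 336593092) .nil))),
   .two (nat_lit 9933160451) (nat_lit 1795162116) (.two (nat_lit 1048576) (nat_lit 13203669003) (.one (nat_lit 46409973866) .nil)),
   .two (nat_lit 721420290) (nat_lit 19596836867) (.two (nat_lit 9765388289) (nat_lit 157051519037) .nil),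
   .two (nat_lit 1779433475) (nat_lit 46980399107) (.two (nat_lit 34603009) (nat_lit 3527409672) (.one (nat_lit 156566028354) .nil)),
   .two (nat_lit 69206019) (nat_lit 11559501827) (.two (nat_lit 37748737) (nat_lit 11578376199) (.two (nat_lit 4194304) (nat_lit 158091706530) .nil)),
   .two (nat_lit 41943043) (nat_lit 174752530435) (.two (nat_lit 9765388289) (nat_lit 11551113226) (.one (nat_lit 1846542395) .nil)),
   .two (nat_lit 2969567235) (nat_lit 4599054339) (.two (nat_lit 34603009) (nat_lit 185035915270) (.two (nat_lit 1048576) (nat_lit 606076960) (.one (nat_lit 46508540025) .nil))),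
   .two (nat_lit 8388611) (nat_lit 19596836868) (.two (nat_lit 8388608) (nat_lit 772800521) (.one (nat_lit 3028287541) .nil)),
   .two (nat_lit 8388611) (nat_lit 3458203651) (.two (nat_lit 2097153) (nat_lit 4605345797) (.two (nat_lit 8388608) (nat_lit 9934209080) .nil)),
   .two (nat_lit 13187940355) (nat_lit 13224640517) (.two (nat_lit 1048576) (nat_lit 9934209032) (.one (nat_lit 156365750402) .nil)),
   .two (nat_lit 184549378) (nat_lit 21208498182) (.two (nat_lit 2097152) (nat_lit 1325400085) (.one (nat_lit 1862271204) .nil)),
   .two (nat_lit 50331651) (nat_lit 156372041732) (.two (nat_lit 4194304) (nat_lit 10913579117) .nil),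
   .two (nat_lit 41943043) (nat_lit 10909384711) (.two (nat_lit 1048576) (nat_lit 8388642) (.one (nat_lit 11517559021) .nil)),
   .two (nat_lit 4601151491) (nat_lit 12114198534) (.two (nat_lit 2097152) (nat_lit 708837471) .nil),
   .two (nat_lit 739246083) (nat_lit 158144135176) (.one (nat_lit 169869362) .nil),
   .two (nat_lit 620756995) (nat_lit 1779433476) (.two (nat_lit 1048576) (nat_lit 83886088) (.one (nat_lit 672137302) .nil)),
   .two (nat_lit 4194306) (nat_lit 19128123398) (.two (nat_lit 8388608) (nat_lit 606076936) (.one (nat_lit 4194542) .nil)),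
   .two (nat_lit 9768534019) (nat_lit 12047089667) (.two (nat_lit 34603009) (nat_lit 1916796938) (.one (nat_lit 1376780351) .nil)),
   .two (nat_lit 4601151491) (nat_lit 10336862212) (.two (nat_lit 2097152) (nat_lit 11010048016) (.one (nat_lit 20638072966) .nil)),
   .two (nat_lit 2954887171) (nat_lit 158143086600) (.one (nat_lit 46474985535) .nil),
   .two (nat_lit 721420291) (nat_lit 9934209030) (.two (nat_lit 4194304) (nat_lit 9948889249) .nil),
   .two (nat_lit 806354947) (nat_lit 3527409667) (.two (nat_lit 2097153) (nat_lit 1276116996) (.two (nat_lit 2097152) (nat_lit 157038936080) (.one (nat_lit 4194544) .nil))),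
   .two (nat_lit 739246083) (nat_lit 21208498184) (.one (nat_lit 21208498201) .nil),
   .two (nat_lit 1913651203) (nat_lit 19532873732) (.two (nat_lit 1048576) (nat_lit 10506731535) (.one (nat_lit 1779433711) .nil)),
   .two (nat_lit 822083587) (nat_lit 166132187140) (.two (nat_lit 1048576) (nat_lit 10942939144) (.one (nat_lit 16777379) .nil)),
   .two (nat_lit 1277165571) (nat_lit 166132187144) (.one (nat_lit 166132187161) .nil),
   .two (nat_lit 822083587) (nat_lit 21208498179) (.two (nat_lit 606076929) (nat_lit 11559501830) (.two (nat_lit 2097152) (nat_lit 12163481620) (.one (nat_lit 11022630966) .nil))),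
   .two (nat_lit 9948889091) (nat_lit 46407876612) (.two (nat_lit 1048576) (nat_lit 10907287573) (.one (nat_lit 2097394) .nil)),
   .two (nat_lit 16777218) (nat_lit 3531603971) (.two (nat_lit 8388609) (nat_lit 4613734404) (.two (nat_lit 2097152) (nat_lit 10537140312) .nil)),
   .two (nat_lit 11543773187) (nat_lit 218103811) (.two (nat_lit 16777217) (nat_lit 739246088) (.one (nat_lit 1209008178) .nil)),
   .two (nat_lit 8388610) (nat_lit 754974726) (.two (nat_lit 16777216) (nat_lit 11484004373) (.one (nat_lit 8388851) .nil)),
   .two (nat_lit 8388610) (nat_lit 156971827204) (.two (nat_lit 4194304) (nat_lit 4605345800) (.one (nat_lit 19532873813) .nil)),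
   .two (nat_lit 8388611) (nat_lit 11559501827) (.two (nat_lit 50331649) (nat_lit 310378502) (.two (nat_lit 1048576) (nat_lit 754974739) (.one (nat_lit 16777461) .nil))),
   .two (nat_lit 721420290) (nat_lit 46414168066) (.two (nat_lit 4194305) (nat_lit 3531603983) (.one (nat_lit 171966703) .nil)),
   .two (nat_lit 2097155) (nat_lit 18933088259) (.two (nat_lit 8388609) (nat_lit 46407876612) (.two (nat_lit 4194304) (nat_lit 159216828531) .nil)),
   .two (nat_lit 705691650) (nat_lit 2902458372) (.two (nat_lit 16777216) (nat_lit 11610882057) (.one (nat_lit 2902458421) .nil)),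
   .two (nat_lit 11492392962) (nat_lit 19596836867) (.two (nat_lit 9765388289) (nat_lit 10351542333) .nil),
   .two (nat_lit 620756995) (nat_lit 272629763) (.two (nat_lit 2097153) (nat_lit 46409973764) (.two (nat_lit 16777216) (nat_lit 205520918) (.one (nat_lit 19042140275) .nil))),
   .two (nat_lit 612368387) (nat_lit 9948889093) (.two (nat_lit 16777216) (nat_lit 1350565941) .nil),
   .two (nat_lit 654311427) (nat_lit 28758245384) (.one (nat_lit 20705181934) .nil),
   .two (nat_lit 612368387) (nat_lit 2902458372) (.two (nat_lit 8388608) (nat_lit 37329305612) (.one (nat_lit 8388775) .nil)),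
   .two (nat_lit 713031683) (nat_lit 46407876612) (.two (nat_lit 1048576) (nat_lit 9867100191) (.one (nat_lit 174752530486) .nil)),
   .two (nat_lit 705691650) (nat_lit 1847590920) (.one (nat_lit 12617515136) .nil),
   .two (nat_lit 822083587) (nat_lit 10506731525) (.two (nat_lit 4194304) (nat_lit 11559501839) (.one (nat_lit 158662131798) .nil)),
   .two (nat_lit 739246083) (nat_lit 11546918919) (.two (nat_lit 8388608) (nat_lit 11610882065) (.one (nat_lit 1048822) .nil)),
   .two (nat_lit 809500675) (nat_lit 165532401670) (.two (nat_lit 4194304) (nat_lit 159224168456) (.one (nat_lit 4194473) .nil)),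
   .two (nat_lit 822083587) (nat_lit 3458203660) (.one (nat_lit 9974054966) .nil),
   .two (nat_lit 285212675) (nat_lit 184419352580) (.two (nat_lit 1048576) (nat_lit 18928893962) (.one (nat_lit 4194551) .nil)),
   .two (nat_lit 806354947) (nat_lit 46409973762) (.two (nat_lit 2097153) (nat_lit 4631560246) .nil),
   .two (nat_lit 605028355) (nat_lit 28758245379) (.two (nat_lit 4194305) (nat_lit 183946444818) (.one (nat_lit 2097400) .nil)),
   .two (nat_lit 8388610) (nat_lit 159216828422) (.two (nat_lit 2097152) (nat_lit 3028287509) (.one (nat_lit 13195280627) .nil)),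
   .two (nat_lit 21785214979) (nat_lit 2349858822) (.two (nat_lit 1048576) (nat_lit 165532401672) (.one (nat_lit 8388857) .nil)),
   .two (nat_lit 8388610) (nat_lit 10336862214) (.two (nat_lit 16777216) (nat_lit 183853121557) (.one (nat_lit 8388858) .nil)),
   .two (nat_lit 13191086083) (nat_lit 158083317764) (.two (nat_lit 1048576) (nat_lit 10343153744) .nil),
   .two (nat_lit 50331651) (nat_lit 174752530435) (.two (nat_lit 50331649) (nat_lit 135266309) (.two (nat_lit 1048576) (nat_lit 16777224) (.one (nat_lit 788529257) .nil))),
   .two (nat_lit 50331651) (nat_lit 639631364) (.two (nat_lit 16777216) (nat_lit 21778923531) (.one (nat_lit 11559501877) .nil)),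
   .two (nat_lit 11543773187) (nat_lit 28705816579) (.two (nat_lit 50331649) (nat_lit 3457155083) (.one (nat_lit 8388778) .nil)),
   .two (nat_lit 4194306) (nat_lit 9948889091) (.two (nat_lit 620756993) (nat_lit 339738634) (.one (nat_lit 166211878968) .nil)),
   .two (nat_lit 169869314) (nat_lit 46414168068) (.two (nat_lit 2097152) (nat_lit 18933088271) (.one (nat_lit 21778923734) .nil)),
   .two (nat_lit 1178599427) (nat_lit 165526110212) (.two (nat_lit 2097152) (nat_lit 12117344264) (.one (nat_lit 9768534096) .nil)),
   .two (nat_lit 1277165570) (nat_lit 18933088259) (.two (nat_lit 8388609) (nat_lit 20738736137) (.one (nat_lit 9873391724) .nil)),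
   .two (nat_lit 8388610) (nat_lit 9948889091) (.two (nat_lit 620756993) (nat_lit 158150426635) (.one (nat_lit 20719861816) .nil)),
   .two (nat_lit 9866051587) (nat_lit 156971827208) (.one (nat_lit 21777875003) .nil),
   .two (nat_lit 41943043) (nat_lit 174752530435) (.two (nat_lit 9765388289) (nat_lit 10947133452) (.one (nat_lit 1846542395) .nil)),
   .two (nat_lit 1178599427) (nat_lit 10336862211) (.two (nat_lit 606076929) (nat_lit 19130220550) (.two (nat_lit 2097152) (nat_lit 19130220554) (.one (nat_lit 46407876777) .nil))),
   .two (nat_lit 809500675) (nat_lit 1846542339) (.two (nat_lit 620756993) (nat_lit 1276117010) (.one (nat_lit 1048827) .nil)),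
   .two (nat_lit 9934209027) (nat_lit 20711473164) (.one (nat_lit 158177689656) .nil),
   .two (nat_lit 272629763) (nat_lit 11484004364) (.one (nat_lit 156569174079) .nil),
   .two (nat_lit 13195280387) (nat_lit 174752530435) (.two (nat_lit 9765388289) (nat_lit 13195280390) (.two (nat_lit 1048576) (nat_lit 13195280394) (.one (nat_lit 1048749) .nil))),
   .two (nat_lit 4194306) (nat_lit 28757196807) (.two (nat_lit 1048576) (nat_lit 28760342539) (.one (nat_lit 183949590608) .nil)),
   .two (nat_lit 69206019) (nat_lit 13195280387) (.two (nat_lit 37748737) (nat_lit 3525312516) (.two (nat_lit 4194304) (nat_lit 174692761681) .nil)),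
   .two (nat_lit 809500675) (nat_lit 12155093003) (.one (nat_lit 1178599483) .nil),
   .two (nat_lit 13195280387) (nat_lit 10336862212) (.two (nat_lit 8388608) (nat_lit 1344274443) (.one (nat_lit 12054429759) .nil)),
   .two (nat_lit 2954887171) (nat_lit 158143086595) (.two (nat_lit 2097153) (nat_lit 20704133126) (.two (nat_lit 2097152) (nat_lit 10000269333) (.one (nat_lit 1948254289) .nil))),
   .two (nat_lit 11543773187) (nat_lit 157038936068) (.two (nat_lit 1048576) (nat_lit 185023332363) (.one (nat_lit 46980399157) .nil)),
   .two (nat_lit 809500675) (nat_lit 1358954499) (.two (nat_lit 620756993) (nat_lit 184419352582) (.two (nat_lit 1048576) (nat_lit 183861510317) .nil)),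
   .two (nat_lit 705691650) (nat_lit 4605345795) (.two (nat_lit 8388609) (nat_lit 705691657) (.one (nat_lit 157043130424) .nil)),
   .two (nat_lit 8388611) (nat_lit 19530776579) (.two (nat_lit 2097153) (nat_lit 4605345797) (.two (nat_lit 2097152) (nat_lit 18933088414) .nil)),
   .two (nat_lit 184549378) (nat_lit 4605345795) (.two (nat_lit 8388609) (nat_lit 1224736780) (.one (nat_lit 156372041791) .nil)),
   .two (nat_lit 34603011) (nat_lit 2969567236) (.two (nat_lit 2097152) (nat_lit 165525061640) (.one (nat_lit 1358954710) .nil)),
   .two (nat_lit 46980399107) (nat_lit 10343153668) (.two (nat_lit 4194304) (nat_lit 109051916) (.one (nat_lit 28760342573) .nil)),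
   .two (nat_lit 16777218) (nat_lit 19532873732) (.two (nat_lit 4194304) (nat_lit 285212682) (.one (nat_lit 156971827253) .nil)),
   .two (nat_lit 10372513795) (nat_lit 3458203651) (.two (nat_lit 2097153) (nat_lit 156468510726) (.two (nat_lit 8388608) (nat_lit 10907287585) (.one (nat_lit 174753579231) .nil))),
   .two (nat_lit 46414168066) (nat_lit 12047089667) (.two (nat_lit 34603009) (nat_lit 1182793740) (.one (nat_lit 772800600) .nil)),
   .two (nat_lit 822083587) (nat_lit 46409973763) (.two (nat_lit 4194305) (nat_lit 19142803475) (.one (nat_lit 19042140243) .nil)),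
   .two (nat_lit 176160771) (nat_lit 12047089667) (.two (nat_lit 34603009) (nat_lit 159224168452) (.two (nat_lit 16777216) (nat_lit 4631560310) .nil)),
   .two (nat_lit 2097155) (nat_lit 2902458370) (.two (nat_lit 16777217) (nat_lit 705691656) (.one (nat_lit 185021235430) .nil)),
   .two (nat_lit 16777218) (nat_lit 10506731523) (.two (nat_lit 9768534017) (nat_lit 11559501834) (.one (nat_lit 174688567355) .nil)),
   .two (nat_lit 2969567235) (nat_lit 184989777923) (.two (nat_lit 37748737) (nat_lit 2902458378) (.one (nat_lit 157038936122) .nil)),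
   .two (nat_lit 50331651) (nat_lit 184986632195) (.two (nat_lit 34603009) (nat_lit 16777220) (.two (nat_lit 1048576) (nat_lit 4613734410) (.one (nat_lit 2416967733) .nil))),
   .two (nat_lit 285212675) (nat_lit 47548727299) (.two (nat_lit 2097153) (nat_lit 822083588) (.two (nat_lit 2097152) (nat_lit 1325400076) (.one (nat_lit 19094569055) .nil))),
   .two (nat_lit 2956984323) (nat_lit 12624855050) (.one (nat_lit 1916796986) .nil),
   .two (nat_lit 159217876995) (nat_lit 158083317763) (.two (nat_lit 41943041) (nat_lit 20638072840) (.one (nat_lit 1310720025) .nil)),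
   .two (nat_lit 4601151491) (nat_lit 1753219075) (.two (nat_lit 612368385) (nat_lit 46409973768) (.one (nat_lit 2923429913) .nil)),
   .two (nat_lit 209715203) (nat_lit 47584378891) (.one (nat_lit 158083317818) .nil),
   .two (nat_lit 184993972227) (nat_lit 19532873734) (.two (nat_lit 4194304) (nat_lit 11517558800) (.one (nat_lit 8388864) .nil)),
   .two (nat_lit 3531603971) (nat_lit 21208498179) (.two (nat_lit 9765388289) (nat_lit 874512438) .nil),
   .two (nat_lit 41943043) (nat_lit 9948889091) (.two (nat_lit 620756993) (nat_lit 183853121540) (.two (nat_lit 1048576) (nat_lit 18941477018) .nil)),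
   .two (nat_lit 272629763) (nat_lit 11578376204) (.one (nat_lit 102760494) .nil),
   .two (nat_lit 11559501827) (nat_lit 638582787) (.two (nat_lit 8388609) (nat_lit 754974724) (.two (nat_lit 1048576) (nat_lit 9982443531) (.one (nat_lit 243269738) .nil))),
   .two (nat_lit 4194306) (nat_lit 9799991301) (.two (nat_lit 4194304) (nat_lit 721420309) (.one (nat_lit 1962934503) .nil)),
   .two (nat_lit 806354947) (nat_lit 847249415) (.two (nat_lit 2097152) (nat_lit 705691758) .nil),
   .two (nat_lit 2954887171) (nat_lit 156367847427) (.two (nat_lit 37748737) (nat_lit 12618563596) (.one (nat_lit 138412088) .nil)),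
   .two (nat_lit 822083587) (nat_lit 21208498182) (.two (nat_lit 16777216) (nat_lit 21208498185) (.one (nat_lit 2097409) .nil)),
   .two (nat_lit 639631363) (nat_lit 46980399112) (.one (nat_lit 46980399129) .nil),
   .two (nat_lit 4601151491) (nat_lit 28705816579) (.two (nat_lit 50331649) (nat_lit 46409973764) (.two (nat_lit 8388608) (nat_lit 12150898699) (.one (nat_lit 28806479978) .nil))),
   .two (nat_lit 50331651) (nat_lit 203423747) (.two (nat_lit 8388609) (nat_lit 183861510158) (.one (nat_lit 184431935658) .nil)),
   .two (nat_lit 16777218) (nat_lit 28790751238) (.two (nat_lit 1048576) (nat_lit 318767113) (.one (nat_lit 19042140255) .nil)),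
   .two (nat_lit 2889875458) (nat_lit 10538188805) (.two (nat_lit 4194304) (nat_lit 156466413627) .nil),
   .two (nat_lit 184549378) (nat_lit 4599054339) (.two (nat_lit 2097153) (nat_lit 47563407364) (.two (nat_lit 2097152) (nat_lit 11006902442) .nil)),
   .two (nat_lit 620756995) (nat_lit 203423747) (.two (nat_lit 2097153) (nat_lit 28089253894) (.two (nat_lit 4194304) (nat_lit 4028629011) (.one (nat_lit 639631414) .nil))),
   .two (nat_lit 3525312515) (nat_lit 18928893956) (.two (nat_lit 8388608) (nat_lit 2988441725) .nil),
   .two (nat_lit 41943043) (nat_lit 19596836867) (.two (nat_lit 9765388289) (nat_lit 184993972234) (.one (nat_lit 174685421624) .nil)),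
   .two (nat_lit 159217876995) (nat_lit 18933088262) (.two (nat_lit 8388608) (nat_lit 1746927637) (.one (nat_lit 3525312745) .nil)),
   .two (nat_lit 8388610) (nat_lit 3472883715) (.two (nat_lit 16777217) (nat_lit 21214789643) (.one (nat_lit 101712042) .nil)),
   .two (nat_lit 1276116994) (nat_lit 12054429704) (.one (nat_lit 12054429721) .nil),
   .two (nat_lit 41943043) (nat_lit 156968681475) (.two (nat_lit 34603009) (nat_lit 13195280389) (.two (nat_lit 1048576) (nat_lit 28764536982) .nil)),
   .two (nat_lit 184549378) (nat_lit 1782579206) (.two (nat_lit 8388608) (nat_lit 1291845653) (.one (nat_lit 10552869098) .nil)),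
   .two (nat_lit 171966467) (nat_lit 166197198855) (.two (nat_lit 1048576) (nat_lit 157038936228) .nil),
   .two (nat_lit 41943043) (nat_lit 28087156740) (.two (nat_lit 8388608) (nat_lit 16777232) (.one (nat_lit 9982443776) .nil)),
   .two (nat_lit 9934209027) (nat_lit 156364701699) (.two (nat_lit 16777217) (nat_lit 28758245384) (.one (nat_lit 185020186682) .nil)),
   .two (nat_lit 16777219) (nat_lit 11543773187) (.two (nat_lit 8388609) (nat_lit 202375179) (.one (nat_lit 1795162281) .nil)),
   .two (nat_lit 639631363) (nat_lit 3464495112) (.one (nat_lit 166197198907) .nil),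
   .two (nat_lit 83886083) (nat_lit 4599054339) (.two (nat_lit 2097153) (nat_lit 1358954500) (.two (nat_lit 8388608) (nat_lit 4632608856) .nil)),
   .two (nat_lit 176160771) (nat_lit 9948889091) (.two (nat_lit 620756993) (nat_lit 3464495108) (.two (nat_lit 2097152) (nat_lit 46992982178) .nil)),
   .two (nat_lit 11479810050) (nat_lit 3525312518) (.two (nat_lit 1048576) (nat_lit 13224640533) (.one (nat_lit 4194563) .nil)),
   .two (nat_lit 16777218) (nat_lit 1780482056) (.one (nat_lit 185027526880) .nil),
   .two (nat_lit 184549379) (nat_lit 183853121540) (.two (nat_lit 8388608) (nat_lit 1929379850) (.one (nat_lit 184993972304) .nil)),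
   .two (nat_lit 8388611) (nat_lit 9934209027) (.two (nat_lit 606076929) (nat_lit 47555018760) (.one (nat_lit 1176502317) .nil)),
   .two (nat_lit 184549379) (nat_lit 1277165576) (.one (nat_lit 318767160) .nil),
   .two (nat_lit 184549379) (nat_lit 10506731523) (.two (nat_lit 2097153) (nat_lit 166132187155) (.one (nat_lit 46510637282) .nil)),
   .two (nat_lit 176160771) (nat_lit 1358954499) (.two (nat_lit 620756993) (nat_lit 3464495108) (.two (nat_lit 1048576) (nat_lit 19042140251) .nil)),
   .two (nat_lit 21777874947) (nat_lit 10506731523) (.two (nat_lit 9768534017) (nat_lit 21811429381) (.two (nat_lit 1048576) (nat_lit 2889875464) (.one (nat_lit 4194479) .nil))),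
   .two (nat_lit 83886083) (nat_lit 809500675) (.two (nat_lit 16777217) (nat_lit 183848927236) (.two (nat_lit 8388608) (nat_lit 158091706459) .nil)),
   .two (nat_lit 171966467) (nat_lit 21785214979) (.two (nat_lit 605028353) (nat_lit 12117344260) (.two (nat_lit 1048576) (nat_lit 11014242414) .nil)),
   .two (nat_lit 8388610) (nat_lit 21778923523) (.two (nat_lit 37748737) (nat_lit 28764536843) (.one (nat_lit 10504634538) .nil)),
   .two (nat_lit 1753219075) (nat_lit 156968681475) (.two (nat_lit 34603009) (nat_lit 46514831407) .nil),
   .two (nat_lit 4194306) (nat_lit 28757196803) (.two (nat_lit 37748737) (nat_lit 9866051588) (.two (nat_lit 1048576) (nat_lit 306184201) (.one (nat_lit 158646403181) .nil))),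
   .two (nat_lit 8388611) (nat_lit 183845781506) (.two (nat_lit 8388609) (nat_lit 9966714892) (.one (nat_lit 4605345850) .nil)),
   .two (nat_lit 16777219) (nat_lit 47548727299) (.two (nat_lit 16777217) (nat_lit 3458203652) (.two (nat_lit 8388608) (nat_lit 159266111599) .nil)),
   .two (nat_lit 3464495107) (nat_lit 20637024258) (.two (nat_lit 8388609) (nat_lit 1048588) (.one (nat_lit 46481276973) .nil)),
   .two (nat_lit 2954887171) (nat_lit 1276116994) (.two (nat_lit 2097153) (nat_lit 9866051588) (.two (nat_lit 2097152) (nat_lit 2920284172) (.one (nat_lit 46474985535) .nil))),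
   .two (nat_lit 171966467) (nat_lit 19027460102) (.two (nat_lit 1048576) (nat_lit 158146232474) .nil),
   .two (nat_lit 69206019) (nat_lit 1358954499) (.two (nat_lit 2097153) (nat_lit 184419352580) (.two (nat_lit 16777216) (nat_lit 9869197420) .nil)),
   .two (nat_lit 4194306) (nat_lit 11476664324) (.two (nat_lit 8388609) (nat_lit 605028379) (.one (nat_lit 168821006) .nil)),
   .two (nat_lit 4194306) (nat_lit 11476664328) (.two (nat_lit 1048576) (nat_lit 169869351) (.one (nat_lit 34603277) .nil)),
   .two (nat_lit 4194306) (nat_lit 2887778308) (.two (nat_lit 34603009) (nat_lit 69206061) (.one (nat_lit 1048756) .nil)),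
   .two (nat_lit 41943043) (nat_lit 705691656) (.two (nat_lit 1048576) (nat_lit 11484004397) (.one (nat_lit 269484307) .nil)),
   .two (nat_lit 4194306) (nat_lit 9766436868) (.two (nat_lit 2097153) (nat_lit 1283457069) (.one (nat_lit 1344274717) .nil)),
   .two (nat_lit 4194306) (nat_lit 739246089) (.two (nat_lit 8388608) (nat_lit 169869491) .nil),
   .two (nat_lit 272629763) (nat_lit 203423750) (.two (nat_lit 2097153) (nat_lit 272629770) (.two (nat_lit 1048576) (nat_lit 37748781) (.one (nat_lit 68157713) .nil))),
   .two (nat_lit 8388611) (nat_lit 11543773193) (.two (nat_lit 2097152) (nat_lit 2956984363) (.one (nat_lit 9866051855) .nil)),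
   .two (nat_lit 8388611) (nat_lit 2954887177) (.two (nat_lit 1048576) (nat_lit 37748781) (.one (nat_lit 68157715) .nil)),
   .two (nat_lit 4194306) (nat_lit 639631370) (.two (nat_lit 4194304) (nat_lit 639631398) (.one (nat_lit 9934209306) .nil)),
   .two (nat_lit 9934209027) (nat_lit 1779433480) (.two (nat_lit 2097152) (nat_lit 11543773364) .nil),
   .two (nat_lit 4194306) (nat_lit 8388616) (.two (nat_lit 4194304) (nat_lit 739246260) .nil),
   .two (nat_lit 809500675) (nat_lit 203423754) (.two (nat_lit 1048576) (nat_lit 9934209062) (.one (nat_lit 1277165851) .nil)),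
   .two (nat_lit 41943043) (nat_lit 9934209034) (.two (nat_lit 4194304) (nat_lit 639631398) (.one (nat_lit 1277165847) .nil)),
   .two (nat_lit 16777219) (nat_lit 1350565899) (.two (nat_lit 1048576) (nat_lit 1384120369) (.one (nat_lit 705691830) .nil)),
   .two (nat_lit 16777218) (nat_lit 12054429704) (.two (nat_lit 8388608) (nat_lit 3539992626) (.one (nat_lit 46481277229) .nil)),
   .two (nat_lit 16777219) (nat_lit 158083317768) (.two (nat_lit 4194304) (nat_lit 9781116987) (.one (nat_lit 1312817482) .nil)),
   .two (nat_lit 9948889091) (nat_lit 174755676167) (.two (nat_lit 37748737) (nat_lit 10913579048) (.one (nat_lit 318767286) .nil)),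
   .two (nat_lit 1358954499) (nat_lit 166132187142) (.two (nat_lit 4194305) (nat_lit 174759870472) (.two (nat_lit 8388608) (nat_lit 156380430383) (.one (nat_lit 813695159) .nil))),
   .two (nat_lit 218103811) (nat_lit 28093448200) (.two (nat_lit 8388608) (nat_lit 159232557113) (.one (nat_lit 813695158) .nil)),
   .two (nat_lit 16777219) (nat_lit 46414168072) (.two (nat_lit 8388608) (nat_lit 9982443570) (.one (nat_lit 1283457318) .nil)),
   .two (nat_lit 2902458371) (nat_lit 9974054924) (.two (nat_lit 2097152) (nat_lit 28764536881) (.one (nat_lit 19604177075) .nil)),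
   .two (nat_lit 184549379) (nat_lit 11584667660) (.two (nat_lit 1048576) (nat_lit 165540790324) (.one (nat_lit 68157622) .nil)),
   .two (nat_lit 721420290) (nat_lit 21214789636) (.two (nat_lit 50331649) (nat_lit 1849688072) (.two (nat_lit 4194304) (nat_lit 2357198889) (.one (nat_lit 2353004932) .nil))),
   .two (nat_lit 1291845634) (nat_lit 21785214986) (.two (nat_lit 16777216) (nat_lit 21785215013) (.one (nat_lit 184423547205) .nil)),
   .two (nat_lit 184549379) (nat_lit 18933088264) (.two (nat_lit 8388608) (nat_lit 2902458406) (.one (nat_lit 185035915625) .nil)),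
   .two (nat_lit 176160770) (nat_lit 10385096708) (.two (nat_lit 8388609) (nat_lit 28772925450) (.two (nat_lit 16777216) (nat_lit 10007609380) (.one (nat_lit 1317011854) .nil))),
   .two (nat_lit 46414168066) (nat_lit 822083594) (.two (nat_lit 8388608) (nat_lit 822083622) (.one (nat_lit 10921967950) .nil)),
   .two (nat_lit 11546918915) (nat_lit 166245433354) (.two (nat_lit 2097152) (nat_lit 4638900406) .nil),
   .two (nat_lit 9781116931) (nat_lit 158143086600) (.two (nat_lit 1048576) (nat_lit 2994733100) (.one (nat_lit 13228835145) .nil)),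
   .two (nat_lit 2097155) (nat_lit 285212676) (.two (nat_lit 37748737) (nat_lit 156364701723) (.one (nat_lit 159250383032) .nil)),
   .two (nat_lit 11559501827) (nat_lit 46409973768) (.two (nat_lit 16777216) (nat_lit 2923429914) (.one (nat_lit 742391993) .nil)),
   .two (nat_lit 3458203651) (nat_lit 1191182344) (.two (nat_lit 2097152) (nat_lit 13237223451) (.one (nat_lit 788529333) .nil)),
   .two (nat_lit 46414168067) (nat_lit 822083592) (.two (nat_lit 8388608) (nat_lit 10955522232) .nil),
   .two (nat_lit 16777218) (nat_lit 28693233672) (.two (nat_lit 4194304) (nat_lit 10921967664) (.one (nat_lit 47596962095) .nil)),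
   .two (nat_lit 2894069763) (nat_lit 47563407371) (.two (nat_lit 1048576) (nat_lit 165540790457) .nil),
   .two (nat_lit 721420290) (nat_lit 21214789636) (.two (nat_lit 8388609) (nat_lit 10942939144) (.two (nat_lit 2097152) (nat_lit 1212154037) .nil)),
   .two (nat_lit 654311427) (nat_lit 166196150278) (.two (nat_lit 620756993) (nat_lit 18925748290) (.one (nat_lit 21777875239) .nil)),
   .two (nat_lit 16777218) (nat_lit 165532401672) (.two (nat_lit 8388608) (nat_lit 218103833) (.one (nat_lit 16777636) .nil)),
   .two (nat_lit 654311427) (nat_lit 1847590920) (.two (nat_lit 2097152) (nat_lit 2936012846) (.one (nat_lit 159232557365) .nil)),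
   .two (nat_lit 16777219) (nat_lit 20644364296) (.two (nat_lit 8388608) (nat_lit 2332033072) (.one (nat_lit 1929380150) .nil)),
   .two (nat_lit 171966467) (nat_lit 2969567240) (.two (nat_lit 1048576) (nat_lit 11513364536) (.one (nat_lit 705692041) .nil)),
   .two (nat_lit 176160771) (nat_lit 165525061636) (.two (nat_lit 16777217) (nat_lit 20704133139) (.two (nat_lit 1048576) (nat_lit 4647288896) (.one (nat_lit 184549557) .nil))),
   .two (nat_lit 4194306) (nat_lit 156969730052) (.two (nat_lit 4194305) (nat_lit 156581756977) (.one (nat_lit 37247517092) .nil)),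
   .two (nat_lit 16777218) (nat_lit 169869316) (.two (nat_lit 50331649) (nat_lit 12617515061) (.one (nat_lit 101712264) .nil)),
   .two (nat_lit 713031683) (nat_lit 9781116936) (.two (nat_lit 1048576) (nat_lit 754974799) (.one (nat_lit 713032036) .nil)),
   .two (nat_lit 270532611) (nat_lit 822083588) (.two (nat_lit 34603009) (nat_lit 156969730056) (.two (nat_lit 1048576) (nat_lit 28806479921) (.one (nat_lit 638582968) .nil))),
   .two (nat_lit 9948889091) (nat_lit 158077026308) (.two (nat_lit 9766436865) (nat_lit 1749024776) (.two (nat_lit 4194304) (nat_lit 46489665597) (.one (nat_lit 9902751924) .nil))),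
   .two (nat_lit 20644364291) (nat_lit 218103818) (.two (nat_lit 8388608) (nat_lit 4043309120) (.one (nat_lit 1962934589) .nil)),
   .two (nat_lit 184549379) (nat_lit 165532401672) (.two (nat_lit 8388608) (nat_lit 218103833) (.one (nat_lit 11525947723) .nil)),
   .two (nat_lit 16777218) (nat_lit 19532873736) (.two (nat_lit 4194304) (nat_lit 2969567271) (.one (nat_lit 157051519278) .nil)),
   .two (nat_lit 46414168067) (nat_lit 158646403082) (.two (nat_lit 8388608) (nat_lit 158646403110) (.one (nat_lit 806355306) .nil)),
   .two (nat_lit 16777218) (nat_lit 184423546884) (.two (nat_lit 16777217) (nat_lit 28691136520) (.two (nat_lit 2097152) (nat_lit 159257722926) (.one (nat_lit 3021996322) .nil))),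
   .two (nat_lit 721420290) (nat_lit 158083317764) (.two (nat_lit 50331649) (nat_lit 1849688072) (.two (nat_lit 4194304) (nat_lit 2357198892) (.one (nat_lit 10007609731) .nil))),
   .two (nat_lit 19599982595) (nat_lit 50331658) (.two (nat_lit 4194304) (nat_lit 50331685) (.one (nat_lit 4647289138) .nil)),
   .two (nat_lit 2969567235) (nat_lit 4027580423) (.two (nat_lit 34603009) (nat_lit 157043130376) (.two (nat_lit 8388608) (nat_lit 12062818417) (.one (nat_lit 1795162293) .nil))),
   .two (nat_lit 8388610) (nat_lit 2416967685) (.two (nat_lit 41943041) (nat_lit 156465365017) (.one (nat_lit 11610882233) .nil)),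
   .two (nat_lit 156372041731) (nat_lit 158192369676) (.two (nat_lit 1048576) (nat_lit 16777281) (.one (nat_lit 28772925768) .nil)),
   .two (nat_lit 218103811) (nat_lit 20704133125) (.two (nat_lit 34603009) (nat_lit 2969567240) (.two (nat_lit 16777216) (nat_lit 158646403097) (.one (nat_lit 269484214) .nil))),
   .two (nat_lit 176160771) (nat_lit 3539992580) (.two (nat_lit 41943041) (nat_lit 19529728008) (.two (nat_lit 1048576) (nat_lit 185035915313) (.one (nat_lit 2953838890) .nil))),
   .two (nat_lit 2097155) (nat_lit 50331652) (.two (nat_lit 2097153) (nat_lit 158158815243) (.two (nat_lit 8388608) (nat_lit 10955522233) .nil)),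
   .two (nat_lit 102760451) (nat_lit 754974724) (.two (nat_lit 606076929) (nat_lit 19604176904) (.two (nat_lit 8388608) (nat_lit 1176502372) (.one (nat_lit 8389029) .nil))),
   .two (nat_lit 183853121538) (nat_lit 46489665547) (.two (nat_lit 4194304) (nat_lit 156548202553) (.one (nat_lit 158158815578) .nil)),
   .two (nat_lit 754974723) (nat_lit 1916796936) (.two (nat_lit 16777216) (nat_lit 10439622721) (.one (nat_lit 37316723078) .nil)),
   .two (nat_lit 605028355) (nat_lit 184549380) (.two (nat_lit 4194305) (nat_lit 2316304405) (.two (nat_lit 1048576) (nat_lit 158179786799) (.one (nat_lit 183916036282) .nil))),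
   .two (nat_lit 166130089986) (nat_lit 1384120332) (.two (nat_lit 1048576) (nat_lit 156539813940) (.one (nat_lit 2961179030) .nil)),
   .two (nat_lit 9866051587) (nat_lit 159232557060) (.two (nat_lit 34603009) (nat_lit 10338959368) (.two (nat_lit 8388608) (nat_lit 104857783) .nil)),
   .two (nat_lit 183848927234) (nat_lit 28806479878) (.two (nat_lit 37748737) (nat_lit 83886145) (.one (nat_lit 46422557014) .nil)),
   .two (nat_lit 158083317763) (nat_lit 11479810060) (.two (nat_lit 8388608) (nat_lit 159219974206) (.one (nat_lit 157038936431) .nil)),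
   .two (nat_lit 713031682) (nat_lit 9866051592) (.two (nat_lit 1048576) (nat_lit 28798091315) (.one (nat_lit 183845781822) .nil)),
   .two (nat_lit 12117344259) (nat_lit 19530776580) (.two (nat_lit 37748737) (nat_lit 156466413577) (.two (nat_lit 4194304) (nat_lit 35651644) (.one (nat_lit 2350907769) .nil))),
   .two (nat_lit 612368387) (nat_lit 158144135174) (.two (nat_lit 37748737) (nat_lit 46984593419) (.two (nat_lit 4194304) (nat_lit 9906946112) (.one (nat_lit 3460300983) .nil))),
   .two (nat_lit 19532873731) (nat_lit 47563407371) (.two (nat_lit 2097152) (nat_lit 10015998057) (.one (nat_lit 318767478) .nil)),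
   .two (nat_lit 166132187139) (nat_lit 1786773516) (.two (nat_lit 4194304) (nat_lit 310378558) (.one (nat_lit 20644364647) .nil)),
   .two (nat_lit 1191182339) (nat_lit 46407876612) (.two (nat_lit 2097153) (nat_lit 28772925451) (.two (nat_lit 2097152) (nat_lit 9798942764) (.one (nat_lit 12617515408) .nil))),
   .two (nat_lit 1277165570) (nat_lit 343932933) (.two (nat_lit 8388609) (nat_lit 10370416648) (.two (nat_lit 2097152) (nat_lit 343932953) (.one (nat_lit 12121538741) .nil))),
   .two (nat_lit 47555018755) (nat_lit 37313576965) (.two (nat_lit 34603009) (nat_lit 243269658) (.one (nat_lit 184993972575) .nil)),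
   .two (nat_lit 1344274435) (nat_lit 158083317768) (.two (nat_lit 4194304) (nat_lit 13228834873) (.one (nat_lit 1950351539) .nil)),
   .two (nat_lit 10336862211) (nat_lit 620757002) (.two (nat_lit 2097152) (nat_lit 620757030) (.one (nat_lit 11626611085) .nil)),
   .two (nat_lit 746586115) (nat_lit 157038936068) (.two (nat_lit 4194305) (nat_lit 209715212) (.two (nat_lit 2097152) (nat_lit 11479810096) (.one (nat_lit 11618222394) .nil))),
   .two (nat_lit 183848927235) (nat_lit 673185802) (.two (nat_lit 4194304) (nat_lit 673185829) (.one (nat_lit 1210057061) .nil)),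
   .two (nat_lit 169869314) (nat_lit 10338959364) (.two (nat_lit 50331649) (nat_lit 37314625584) (.one (nat_lit 4030726553) .nil)),
   .two (nat_lit 171966467) (nat_lit 9948889092) (.two (nat_lit 16777217) (nat_lit 1410334738) (.two (nat_lit 16777216) (nat_lit 1048694) (.one (nat_lit 12633243832) .nil))),
   .two (nat_lit 9765388291) (nat_lit 218103812) (.two (nat_lit 8388609) (nat_lit 654311443) (.two (nat_lit 16777216) (nat_lit 174685421607) (.one (nat_lit 2894070171) .nil))),
   .two (nat_lit 165526110211) (nat_lit 158192369673) (.two (nat_lit 8388608) (nat_lit 3539992654) (.one (nat_lit 16777638) .nil)),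
   .two (nat_lit 184549379) (nat_lit 205520900) (.two (nat_lit 50331649) (nat_lit 20637024264) (.two (nat_lit 2097152) (nat_lit 158176641205) .nil)),
   .two (nat_lit 806354947) (nat_lit 183853121540) (.two (nat_lit 9766436865) (nat_lit 46514831374) (.two (nat_lit 4194304) (nat_lit 183947493556) .nil)),
   .two (nat_lit 41943043) (nat_lit 12050235396) (.two (nat_lit 606076929) (nat_lit 28793896974) (.two (nat_lit 2097152) (nat_lit 19532873778) (.one (nat_lit 185021235380) .nil))),
   .two (nat_lit 9781116931) (nat_lit 184417255431) (.two (nat_lit 8388609) (nat_lit 156969730056) (.two (nat_lit 8388608) (nat_lit 10385096807) (.one (nat_lit 654311605) .nil))),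
   .two (nat_lit 2097155) (nat_lit 306184198) (.two (nat_lit 34603009) (nat_lit 21210595339) (.two (nat_lit 16777216) (nat_lit 19026411703) .nil)),
   .two (nat_lit 9781116931) (nat_lit 1849688068) (.two (nat_lit 50331649) (nat_lit 1849688072) (.two (nat_lit 1048576) (nat_lit 276824246) .nil)),
   .two (nat_lit 721420290) (nat_lit 28760342533) (.two (nat_lit 4194305) (nat_lit 4638900270) (.one (nat_lit 310378682) .nil)),
   .two (nat_lit 10939793411) (nat_lit 159266111500) (.two (nat_lit 1048576) (nat_lit 654311489) (.one (nat_lit 13203669337) .nil)),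
   .two (nat_lit 176160771) (nat_lit 156365750276) (.two (nat_lit 2097153) (nat_lit 19604176904) (.two (nat_lit 16777216) (nat_lit 880803903) (.one (nat_lit 19612565684) .nil))),
   .two (nat_lit 2902458370) (nat_lit 10369368068) (.two (nat_lit 605028353) (nat_lit 157043130376) (.two (nat_lit 8388608) (nat_lit 19026411559) (.one (nat_lit 12129927559) .nil))),
   .two (nat_lit 19532873731) (nat_lit 12163481610) (.two (nat_lit 2097152) (nat_lit 158192369702) (.one (nat_lit 37262197058) .nil)),
   .two (nat_lit 184989777923) (nat_lit 16777224) (.two (nat_lit 2097152) (nat_lit 285212737) (.one (nat_lit 9814671720) .nil)),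
   .two (nat_lit 3525312515) (nat_lit 4598005772) (.two (nat_lit 2097152) (nat_lit 1343225918) (.one (nat_lit 12617515331) .nil)),
   .two (nat_lit 2097155) (nat_lit 156367847432) (.two (nat_lit 1048576) (nat_lit 9934209087) (.one (nat_lit 1048924) .nil)),
   .two (nat_lit 9933160451) (nat_lit 9781116932) (.two (nat_lit 4194305) (nat_lit 19026411546) (.one (nat_lit 13195280704) .nil)),
   .two (nat_lit 34603011) (nat_lit 50331652) (.two (nat_lit 41943041) (nat_lit 183845781529) (.one (nat_lit 158192369850) .nil)),
   .two (nat_lit 1358954499) (nat_lit 740294663) (.two (nat_lit 4194305) (nat_lit 28087156744) (.two (nat_lit 8388608) (nat_lit 639631546) .nil)),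
   .two (nat_lit 184549379) (nat_lit 1377828869) (.two (nat_lit 16777217) (nat_lit 158077026312) (.two (nat_lit 4194304) (nat_lit 19530776635) (.one (nat_lit 157038936245) .nil))),
   .two (nat_lit 1191182339) (nat_lit 21208498184) (.two (nat_lit 16777216) (nat_lit 20705181723) (.one (nat_lit 10437525684) .nil)),
   .two (nat_lit 809500675) (nat_lit 158183981063) (.two (nat_lit 8388609) (nat_lit 9867100168) (.two (nat_lit 1048576) (nat_lit 158177689626) (.one (nat_lit 2097575) .nil))),
   .two (nat_lit 16777219) (nat_lit 165532401668) (.two (nat_lit 16777217) (nat_lit 174759870474) (.two (nat_lit 8388608) (nat_lit 2902458404) (.one (nat_lit 654311822) .nil))),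
   .two (nat_lit 41943043) (nat_lit 754974728) (.two (nat_lit 2097152) (nat_lit 21214789683) (.one (nat_lit 169869495) .nil)),
   .two (nat_lit 16777219) (nat_lit 10343153672) (.two (nat_lit 1048576) (nat_lit 1384120369) (.one (nat_lit 11610882231) .nil)),
   .two (nat_lit 157036838915) (nat_lit 3036676106) (.two (nat_lit 1048576) (nat_lit 889192486) (.one (nat_lit 16777640) .nil)),
   .two (nat_lit 8388611) (nat_lit 3524263947) (.two (nat_lit 4194304) (nat_lit 183845781620) (.one (nat_lit 1049002) .nil)),
   .two (nat_lit 8388610) (nat_lit 46407876612) (.two (nat_lit 34603009) (nat_lit 183853121557) (.two (nat_lit 1048576) (nat_lit 10940842034) (.one (nat_lit 8389036) .nil))),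
   .two (nat_lit 16777219) (nat_lit 3464495108) (.two (nat_lit 8388609) (nat_lit 2902458376) (.two (nat_lit 1048576) (nat_lit 12624855091) (.one (nat_lit 705691830) .nil))),
   .two (nat_lit 46414168066) (nat_lit 20704133125) (.two (nat_lit 34603009) (nat_lit 3464495112) (.two (nat_lit 8388608) (nat_lit 20704133145) (.one (nat_lit 10939793588) .nil))),
   .two (nat_lit 176160771) (nat_lit 839909382) (.two (nat_lit 156364701697) (nat_lit 9766436872) (.two (nat_lit 4194304) (nat_lit 10947133624) .nil)),
   .two (nat_lit 176160770) (nat_lit 68157444) (.two (nat_lit 4194305) (nat_lit 10503585850) (.one (nat_lit 9902751929) .nil)),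
   .two (nat_lit 4194306) (nat_lit 11476664324) (.two (nat_lit 2097153) (nat_lit 605028366) (.two (nat_lit 1048576) (nat_lit 20705181751) (.one (nat_lit 35651764) .nil))),
   .two (nat_lit 16777218) (nat_lit 10000269319) (.two (nat_lit 2097153) (nat_lit 16777224) (.two (nat_lit 1048576) (nat_lit 46407876650) (.one (nat_lit 158177689782) .nil))),
   .two (nat_lit 806354947) (nat_lit 183853121540) (.two (nat_lit 9765388289) (nat_lit 3525312529) (.two (nat_lit 2097152) (nat_lit 10939793456) (.one (nat_lit 2987393313) .nil))),
   .two (nat_lit 705691650) (nat_lit 1377828870) (.two (nat_lit 156365750273) (nat_lit 4027580463) (.one (nat_lit 11006902456) .nil)),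
   .two (nat_lit 2097155) (nat_lit 16777224) (.two (nat_lit 1048576) (nat_lit 37314625599) (.one (nat_lit 19596837276) .nil)),
   .two (nat_lit 184549378) (nat_lit 68157444) (.two (nat_lit 4194305) (nat_lit 11510218808) (.one (nat_lit 166229705112) .nil)),
   .two (nat_lit 638582787) (nat_lit 3525312516) (.two (nat_lit 605028353) (nat_lit 9766436872) (.two (nat_lit 2097152) (nat_lit 9772728422) (.one (nat_lit 165526110394) .nil))),
   .two (nat_lit 16777218) (nat_lit 184423546884) (.two (nat_lit 16777217) (nat_lit 28691136520) (.two (nat_lit 2097152) (nat_lit 156976021545) (.one (nat_lit 184987681195) .nil))),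
   .two (nat_lit 285212675) (nat_lit 2920284172) (.two (nat_lit 16777216) (nat_lit 183845781569) (.one (nat_lit 20637024619) .nil)),
   .two (nat_lit 37748740) (nat_lit 101711880) (.two (nat_lit 2097153) (nat_lit 1343225883) (.two (nat_lit 2097152) (nat_lit 1343225924) (.one (nat_lit 169869751) .nil))),
   .two (nat_lit 272629764) (nat_lit 2887778308) (.two (nat_lit 4194306) (nat_lit 203423754) (.two (nat_lit 4194305) (nat_lit 2954887205) (.two (nat_lit 4194304) (nat_lit 11543773363) (.one (nat_lit 37749176) .nil)))),
   .two (nat_lit 1276116994) (nat_lit 20705181722) .nil,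
   .two (nat_lit 1277165570) (nat_lit 1913651203) (.two (nat_lit 9765388289) (nat_lit 10437525531) .nil),
   .two (nat_lit 158144135171) (nat_lit 10939793411) (.two (nat_lit 605028353) (nat_lit 10940842011) .nil),
   .two (nat_lit 8388611) (nat_lit 1277165571) (.two (nat_lit 2097153) (nat_lit 4605345797) (.two (nat_lit 2097152) (nat_lit 1920991347) .nil)),
   .two (nat_lit 1779433475) (nat_lit 1847590920) (.one (nat_lit 9934209142) .nil),
   .two (nat_lit 41943043) (nat_lit 184986632195) (.two (nat_lit 34603009) (nat_lit 880803846) (.two (nat_lit 1048576) (nat_lit 746586202) .nil)),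
   .two (nat_lit 159224168451) (nat_lit 3525312515) (.two (nat_lit 2097153) (nat_lit 158083317768) (.one (nat_lit 46514831505) .nil)),
   .two (nat_lit 272629763) (nat_lit 3525312538) .nil,
   .two (nat_lit 4605345795) (nat_lit 3458203656) (.one (nat_lit 2988441641) .nil),
   .two (nat_lit 41943043) (nat_lit 184986632195) (.two (nat_lit 34603009) (nat_lit 880803846) (.two (nat_lit 1048576) (nat_lit 9940500509) (.one (nat_lit 19537068259) .nil))),
   .two (nat_lit 83886083) (nat_lit 1779433480) (.one (nat_lit 166129041471) .nil),
   .two (nat_lit 10336862211) (nat_lit 28093448195) (.two (nat_lit 41943041) (nat_lit 174753579018) (.one (nat_lit 2097597) .nil)),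
   .two (nat_lit 203423747) (nat_lit 1191182339) (.two (nat_lit 16777217) (nat_lit 12148801688) .nil),
   .two (nat_lit 47555018755) (nat_lit 9802088453) (.two (nat_lit 8388608) (nat_lit 157038936107) .nil),
   .two (nat_lit 41943043) (nat_lit 754974726) (.two (nat_lit 16777216) (nat_lit 8388641) (.one (nat_lit 8389054) .nil)),
   .two (nat_lit 159224168451) (nat_lit 10940841987) (.two (nat_lit 606076929) (nat_lit 10343153707) .nil),
   .two (nat_lit 184549379) (nat_lit 639631368) (.one (nat_lit 28691136571) .nil),
   .two (nat_lit 1358954499) (nat_lit 28693233667) (.two (nat_lit 37748737) (nat_lit 9881780228) (.two (nat_lit 4194304) (nat_lit 159266111509) (.one (nat_lit 183848927457) .nil))),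
   .two (nat_lit 809500675) (nat_lit 847249414) (.two (nat_lit 4194304) (nat_lit 1847591002) .nil),
   .two (nat_lit 11479810050) (nat_lit 28086108163) (.two (nat_lit 34603009) (nat_lit 184419352603) .nil),
   .two (nat_lit 101711875) (nat_lit 28758245379) (.two (nat_lit 605028353) (nat_lit 166130090004) (.one (nat_lit 740295100) .nil)),
   .two (nat_lit 16777219) (nat_lit 11614027783) (.two (nat_lit 4194304) (nat_lit 2349858906) .nil),
   .two (nat_lit 1276116994) (nat_lit 21785214979) (.two (nat_lit 605028353) (nat_lit 3531604022) .nil),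
   .two (nat_lit 285212675) (nat_lit 9933160451) (.two (nat_lit 4194305) (nat_lit 2969567322) .nil),
   .two (nat_lit 9934209027) (nat_lit 165525061636) (.two (nat_lit 2097152) (nat_lit 158143086613) (.one (nat_lit 1048809) .nil)),
   .two (nat_lit 620756995) (nat_lit 166130089987) (.two (nat_lit 2097153) (nat_lit 9948889133) .nil),
   .two (nat_lit 41943043) (nat_lit 184986632195) (.two (nat_lit 16777217) (nat_lit 12155093013) (.one (nat_lit 8389055) .nil)),
   .two (nat_lit 272629763) (nat_lit 1358954499) (.two (nat_lit 620756993) (nat_lit 158649548812) (.one (nat_lit 184431935699) .nil)),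
   .two (nat_lit 47548727299) (nat_lit 46414168066) (.two (nat_lit 8388609) (nat_lit 236978202) .nil),
   .two (nat_lit 4601151491) (nat_lit 10940841987) (.two (nat_lit 606076929) (nat_lit 3527409679) (.one (nat_lit 21208498239) .nil)),
   .two (nat_lit 4601151491) (nat_lit 46978301956) (.two (nat_lit 4194304) (nat_lit 4599054445) .nil),
   .two (nat_lit 9765388291) (nat_lit 1795162115) (.two (nat_lit 34603009) (nat_lit 109052001) .nil),
   .two (nat_lit 612368387) (nat_lit 10385096707) (.two (nat_lit 16777217) (nat_lit 21214789685) .nil),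
   .two (nat_lit 21785214979) (nat_lit 10939793411) (.two (nat_lit 605028353) (nat_lit 2894069857) .nil),
   .two (nat_lit 9768534019) (nat_lit 165526110211) (.two (nat_lit 2097153) (nat_lit 19096666132) (.one (nat_lit 159253528630) .nil)),
   .two (nat_lit 41943043) (nat_lit 754974723) (.two (nat_lit 50331649) (nat_lit 612368411) .nil),
   .two (nat_lit 117440515) (nat_lit 1745879043) (.two (nat_lit 605028353) (nat_lit 19545456766) .nil),
   .two (nat_lit 8388610) (nat_lit 12117344259) (.two (nat_lit 37748737) (nat_lit 183853121563) .nil),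
   .two (nat_lit 4194306) (nat_lit 10385096707) (.two (nat_lit 16777217) (nat_lit 9969860686) .nil),
   .two (nat_lit 8388610) (nat_lit 1178599427) (.two (nat_lit 4194305) (nat_lit 13195280421) .nil),
   .two (nat_lit 47550824451) (nat_lit 2424307722) (.one (nat_lit 4194541) .nil),
   .two (nat_lit 10503585795) (nat_lit 1916796931) (.two (nat_lit 9765388289) (nat_lit 11546918919) (.two (nat_lit 4194304) (nat_lit 158083317881) .nil)),
   .two (nat_lit 9768534019) (nat_lit 4605345795) (.two (nat_lit 8388609) (nat_lit 158079123468) (.one (nat_lit 156468510829) .nil)),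
   .two (nat_lit 1277165570) (nat_lit 12047089667) (.two (nat_lit 34603009) (nat_lit 158144135176) (.one (nat_lit 336593101) .nil)),
   .two (nat_lit 16777219) (nat_lit 101711878) (.two (nat_lit 8388608) (nat_lit 3003121684) (.one (nat_lit 16777664) .nil)),
   .two (nat_lit 1779433475) (nat_lit 157036838915) (.two (nat_lit 9766436865) (nat_lit 739246136) .nil),
   .two (nat_lit 11476664322) (nat_lit 21785214982) (.two (nat_lit 1048576) (nat_lit 46414168072) (.one (nat_lit 28690088045) .nil)),
   .two (nat_lit 10335813635) (nat_lit 28093448200) (.one (nat_lit 1283457090) .nil),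
   .two (nat_lit 272629763) (nat_lit 3531603971) (.two (nat_lit 8388609) (nat_lit 272629766) (.two (nat_lit 1048576) (nat_lit 158158815252) (.one (nat_lit 1049025) .nil))),
   .two (nat_lit 10504634371) (nat_lit 19596836867) (.two (nat_lit 9765388289) (nat_lit 169869410) .nil),
   .two (nat_lit 721420290) (nat_lit 9933160451) (.two (nat_lit 605028353) (nat_lit 21827158026) (.one (nat_lit 4194543) .nil)),
   .two (nat_lit 50331651) (nat_lit 1913651203) (.two (nat_lit 50331649) (nat_lit 2416967686) (.two (nat_lit 1048576) (nat_lit 37262196748) (.one (nat_lit 672137307) .nil))),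
   .two (nat_lit 41943043) (nat_lit 83886083) (.two (nat_lit 16777217) (nat_lit 11618222106) .nil),
   .two (nat_lit 4605345795) (nat_lit 10506731523) (.two (nat_lit 9768534017) (nat_lit 37320917058) .nil),
   .two (nat_lit 9934209027) (nat_lit 21207449626) .nil,
   .two (nat_lit 721420291) (nat_lit 9974054932) (.one (nat_lit 16777666) .nil),
   .two (nat_lit 13195280387) (nat_lit 158143086595) (.two (nat_lit 605028353) (nat_lit 12054429704) (.one (nat_lit 3565158545) .nil)),
   .two (nat_lit 169869314) (nat_lit 12054429699) (.two (nat_lit 41943041) (nat_lit 47548727304) (.one (nat_lit 4028629035) .nil)),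
   .two (nat_lit 2954887171) (nat_lit 117440515) (.two (nat_lit 620756993) (nat_lit 47582281755) .nil),
   .two (nat_lit 184986632195) (nat_lit 158083317763) (.two (nat_lit 41943041) (nat_lit 772800538) .nil),
   .two (nat_lit 16777219) (nat_lit 11543773192) (.one (nat_lit 10906239087) .nil),
   .two (nat_lit 184986632195) (nat_lit 12121538563) (.two (nat_lit 41943041) (nat_lit 12047089672) (.one (nat_lit 1914699886) .nil)),
   .two (nat_lit 47548727299) (nat_lit 28093448196) (.two (nat_lit 2097152) (nat_lit 10947133461) (.one (nat_lit 2097603) .nil)),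
   .two (nat_lit 157036838915) (nat_lit 156971827203) (.two (nat_lit 37748737) (nat_lit 10940841994) (.one (nat_lit 2097393) .nil)),
   .two (nat_lit 713031682) (nat_lit 101711875) (.two (nat_lit 605028353) (nat_lit 1920991359) .nil),
   .two (nat_lit 8388611) (nat_lit 184986632200) (.one (nat_lit 1309671524) .nil),
   .two (nat_lit 272629763) (nat_lit 184416206856) (.one (nat_lit 37246468173) .nil),
   .two (nat_lit 285212675) (nat_lit 158144135173) (.two (nat_lit 16777216) (nat_lit 158144135213) .nil),
   .two (nat_lit 159224168451) (nat_lit 183861510147) (.two (nat_lit 16777217) (nat_lit 10007609349) (.two (nat_lit 2097152) (nat_lit 158653743167) .nil)),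
   .two (nat_lit 639631363) (nat_lit 20644364292) (.two (nat_lit 1048576) (nat_lit 156969730269) .nil),
   .two (nat_lit 4601151491) (nat_lit 183853121539) (.two (nat_lit 8388609) (nat_lit 4601151515) .nil),
   .two (nat_lit 713031682) (nat_lit 9866051587) (.two (nat_lit 34603009) (nat_lit 184993972250) .nil),
   .two (nat_lit 9768534019) (nat_lit 184986632195) (.two (nat_lit 34603009) (nat_lit 1916796936) (.one (nat_lit 272629842) .nil)),
   .two (nat_lit 16777218) (nat_lit 184419352579) (.two (nat_lit 37748737) (nat_lit 11492393001) .nil),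
   .two (nat_lit 11546918915) (nat_lit 156968681475) (.two (nat_lit 2097153) (nat_lit 10506731525) (.two (nat_lit 1048576) (nat_lit 1916796946) (.one (nat_lit 4194468) .nil))),
   .two (nat_lit 270532611) (nat_lit 1191182342) (.two (nat_lit 2097152) (nat_lit 157051519010) (.one (nat_lit 2097604) .nil)),
   .two (nat_lit 10506731523) (nat_lit 2416967707) .nil,
   .two (nat_lit 10343153667) (nat_lit 174753579011) (.two (nat_lit 9766436865) (nat_lit 174759870474) (.one (nat_lit 8389061) .nil)),
   .two (nat_lit 620756995) (nat_lit 156372041731) (.two (nat_lit 41943041) (nat_lit 184431935542) .nil),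
   .two (nat_lit 203423747) (nat_lit 47555018755) (.two (nat_lit 2097153) (nat_lit 343932933) (.two (nat_lit 8388608) (nat_lit 12048138268) (.one (nat_lit 156466413797) .nil))),
   .two (nat_lit 721420291) (nat_lit 739246083) (.two (nat_lit 34603009) (nat_lit 1325400118) .nil),
   .two (nat_lit 639631363) (nat_lit 159216828419) (.two (nat_lit 4194305) (nat_lit 156533522437) (.two (nat_lit 1048576) (nat_lit 1780482111) .nil)),
   .two (nat_lit 9934209027) (nat_lit 1745879043) (.two (nat_lit 605028353) (nat_lit 158077026313) (.one (nat_lit 183947493460) .nil)),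
   .two (nat_lit 41943043) (nat_lit 9866051587) (.two (nat_lit 34603009) (nat_lit 75497618) .nil),
   .two (nat_lit 8388611) (nat_lit 10336862212) (.two (nat_lit 8388608) (nat_lit 185021235284) .nil),
   .two (nat_lit 12114198531) (nat_lit 156971827203) (.two (nat_lit 37748737) (nat_lit 156968681499) .nil),
   .two (nat_lit 159224168451) (nat_lit 10504634371) (.two (nat_lit 9766436865) (nat_lit 20644364292) (.two (nat_lit 1048576) (nat_lit 11511267572) .nil)),
   .two (nat_lit 8388610) (nat_lit 11559501827) (.two (nat_lit 50331649) (nat_lit 1853882380) (.one (nat_lit 117440575) .nil)),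
   .two (nat_lit 9948889091) (nat_lit 1178599432) (.one (nat_lit 1191182546) .nil),
   .two (nat_lit 2969567235) (nat_lit 2889875459) (.two (nat_lit 16777217) (nat_lit 13191086099) (.one (nat_lit 19599982748) .nil)),
   .two (nat_lit 2902458371) (nat_lit 46409973763) (.two (nat_lit 4194305) (nat_lit 4647288852) (.one (nat_lit 184431935609) .nil)),
   .two (nat_lit 16777219) (nat_lit 639631368) (.one (nat_lit 28691136611) .nil),
   .two (nat_lit 705691650) (nat_lit 10506731523) (.two (nat_lit 34603009) (nat_lit 3527409674) (.one (nat_lit 705691898) .nil)),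
   .two (nat_lit 10504634371) (nat_lit 11513364490) (.one (nat_lit 9802088528) .nil),
   .two (nat_lit 809500675) (nat_lit 2969567235) (.two (nat_lit 16777217) (nat_lit 809500699) .nil),
   .two (nat_lit 272629763) (nat_lit 13195280387) (.two (nat_lit 41943041) (nat_lit 47584378901) (.one (nat_lit 11014242419) .nil)),
   .two (nat_lit 11543773187) (nat_lit 10506731523) (.two (nat_lit 9768534017) (nat_lit 20704133249) .nil),
   .two (nat_lit 101711875) (nat_lit 157036838915) (.two (nat_lit 9766436865) (nat_lit 1779433476) (.two (nat_lit 2097152) (nat_lit 2886729832) .nil)),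
   .two (nat_lit 117440515) (nat_lit 28757196803) (.two (nat_lit 9765388289) (nat_lit 3472883724) (.one (nat_lit 20637024477) .nil)),
   .two (nat_lit 4194306) (nat_lit 20644364290) (.two (nat_lit 612368385) (nat_lit 4601151496) (.one (nat_lit 156367847526) .nil)),
   .two (nat_lit 705691650) (nat_lit 822083587) (.two (nat_lit 50331649) (nat_lit 184986632200) (.one (nat_lit 303038635) .nil)),
   .two (nat_lit 157036838915) (nat_lit 18933088259) (.two (nat_lit 8388609) (nat_lit 10504634383) (.one (nat_lit 2988441686) .nil)),
   .two (nat_lit 16777218) (nat_lit 3464495107) (.two (nat_lit 8388609) (nat_lit 285212708) .nil),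
   .two (nat_lit 169869314) (nat_lit 183853121538) (.two (nat_lit 41943041) (nat_lit 159217877000) (.one (nat_lit 2350907510) .nil)),
   .two (nat_lit 28757196803) (nat_lit 166132187139) (.two (nat_lit 9765388289) (nat_lit 46980399119) (.one (nat_lit 2889875541) .nil)),
   .two (nat_lit 11476664322) (nat_lit 41943047) (.two (nat_lit 1048576) (nat_lit 46414168072) (.one (nat_lit 47581233260) .nil)),
   .two (nat_lit 9768534019) (nat_lit 46978301956) (.two (nat_lit 4194304) (nat_lit 19530776591) (.one (nat_lit 11479810107) .nil)),
   .two (nat_lit 13195280387) (nat_lit 156971827203) (.two (nat_lit 37748737) (nat_lit 109051952) .nil),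
   .two (nat_lit 169869314) (nat_lit 19026411529) (.one (nat_lit 9967763541) .nil),
   .two (nat_lit 4194306) (nat_lit 47555018755) (.two (nat_lit 8388609) (nat_lit 12150898754) .nil),
   .two (nat_lit 156372041731) (nat_lit 165526110216) (.one (nat_lit 156969730111) .nil),
   .two (nat_lit 41943043) (nat_lit 3527409667) (.two (nat_lit 4194305) (nat_lit 158647451682) (.one (nat_lit 1279263167) .nil)),
   .two (nat_lit 41943043) (nat_lit 117440515) (.two (nat_lit 620756993) (nat_lit 10947133494) .nil),
   .two (nat_lit 184549379) (nat_lit 183853121539) (.two (nat_lit 8388609) (nat_lit 11022630973) .nil),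
   .two (nat_lit 4194306) (nat_lit 721420291) (.two (nat_lit 16777217) (nat_lit 37316722734) .nil),
   .two (nat_lit 47548727299) (nat_lit 166144770051) (.two (nat_lit 16777217) (nat_lit 47582281733) (.two (nat_lit 8388608) (nat_lit 2921332799) .nil)),
   .two (nat_lit 11543773187) (nat_lit 166144770051) (.two (nat_lit 16777217) (nat_lit 3457155169) .nil),
   .two (nat_lit 159217876995) (nat_lit 158150426627) (.two (nat_lit 612368385) (nat_lit 20638072840) (.one (nat_lit 11513364571) .nil)),
   .two (nat_lit 10504634371) (nat_lit 12117344259) (.two (nat_lit 37748737) (nat_lit 166130090004) (.one (nat_lit 20740833434) .nil)),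
   .two (nat_lit 285212675) (nat_lit 19027460102) (.two (nat_lit 2097152) (nat_lit 156581756948) (.one (nat_lit 19128123610) .nil)),
   .two (nat_lit 28757196803) (nat_lit 19597885443) (.two (nat_lit 9766436865) (nat_lit 1048673) .nil),
   .two (nat_lit 1343225859) (nat_lit 19530776579) (.two (nat_lit 2097153) (nat_lit 158143086612) (.one (nat_lit 337641563) .nil)),
   .two (nat_lit 2954887171) (nat_lit 18928893955) (.two (nat_lit 4194305) (nat_lit 12148801614) .nil),
   .two (nat_lit 184549379) (nat_lit 12117344261) (.two (nat_lit 16777216) (nat_lit 12117344301) .nil),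
   .two (nat_lit 184993972227) (nat_lit 10336862216) (.one (nat_lit 673185837) .nil),
   .two (nat_lit 11479810051) (nat_lit 166130089987) (.two (nat_lit 4194305) (nat_lit 21208498191) (.one (nat_lit 158146232474) .nil)),
   .two (nat_lit 9948889091) (nat_lit 9866051592) (.one (nat_lit 166129041474) .nil),
   .two (nat_lit 169869314) (nat_lit 754974723) (.two (nat_lit 50331649) (nat_lit 20638072853) (.one (nat_lit 11544821864) .nil)),
   .two (nat_lit 9934209027) (nat_lit 174752530440) (.one (nat_lit 3020947586) .nil),
   .two (nat_lit 10506731523) (nat_lit 12114198531) (.two (nat_lit 34603009) (nat_lit 37249613880) .nil),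
   .two (nat_lit 75497475) (nat_lit 1358954500) (.two (nat_lit 8388608) (nat_lit 1392508938) (.one (nat_lit 20745027802) .nil)),
   .two (nat_lit 176160770) (nat_lit 165526110211) (.two (nat_lit 2097153) (nat_lit 8388688) .nil),
   .two (nat_lit 11476664322) (nat_lit 19532873731) (.two (nat_lit 4194305) (nat_lit 1913651208) (.one (nat_lit 156968681574) .nil)),
   .two (nat_lit 705691650) (nat_lit 9948889091) (.two (nat_lit 620756993) (nat_lit 11543773192) (.one (nat_lit 19529728098) .nil)),
   .two (nat_lit 4194306) (nat_lit 2969567235) (.two (nat_lit 16777217) (nat_lit 4601151496) (.one (nat_lit 1346371714) .nil)),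
   .two (nat_lit 2887778306) (nat_lit 117440515) (.two (nat_lit 620756993) (nat_lit 136314926) .nil),
   .two (nat_lit 1276116994) (nat_lit 166130089987) (.two (nat_lit 2097153) (nat_lit 28757196808) (.one (nat_lit 1175453755) .nil)),
   .two (nat_lit 9934209027) (nat_lit 174752530435) (.two (nat_lit 9765388289) (nat_lit 9867100213) .nil),
   .two (nat_lit 705691650) (nat_lit 156971827203) (.two (nat_lit 37748737) (nat_lit 11577327626) (.one (nat_lit 1782579323) .nil)),
   .two (nat_lit 721420290) (nat_lit 158143086595) (.two (nat_lit 605028353) (nat_lit 1358954504) (.one (nat_lit 318767215) .nil)),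
   .two (nat_lit 2954887171) (nat_lit 28757196803) (.two (nat_lit 9765388289) (nat_lit 2418016310) .nil),
   .two (nat_lit 176160770) (nat_lit 156367847427) (.two (nat_lit 37748737) (nat_lit 3028287498) (.one (nat_lit 9902751905) .nil)),
   .two (nat_lit 13191086083) (nat_lit 184993972227) (.two (nat_lit 41943041) (nat_lit 184419352584) (.one (nat_lit 20640170114) .nil)),
   .two (nat_lit 159217876995) (nat_lit 1753219075) (.two (nat_lit 612368385) (nat_lit 2954887262) .nil),
   .two (nat_lit 184993972227) (nat_lit 158075977754) .nil,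
   .two (nat_lit 176160771) (nat_lit 46409973763) (.two (nat_lit 8388609) (nat_lit 46510637062) (.two (nat_lit 8388608) (nat_lit 11546919033) .nil)),
   .two (nat_lit 822083587) (nat_lit 9768534019) (.two (nat_lit 37748737) (nat_lit 13237223451) .nil),
   .two (nat_lit 46414168067) (nat_lit 157038936072) (.one (nat_lit 158649548927) .nil),
   .two (nat_lit 13191086083) (nat_lit 166130089992) (.one (nat_lit 4194520) .nil),
   .two (nat_lit 117440515) (nat_lit 19596836867) (.two (nat_lit 156367847425) (nat_lit 2969567322) .nil),
   .two (nat_lit 4194306) (nat_lit 10385096707) (.two (nat_lit 16777217) (nat_lit 19130220582) .nil),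
   .two (nat_lit 158144135171) (nat_lit 156968681475) (.two (nat_lit 34603009) (nat_lit 21208498184) (.one (nat_lit 47548727421) .nil)),
   .two (nat_lit 713031683) (nat_lit 47548727302) (.two (nat_lit 1048576) (nat_lit 20738736161) (.one (nat_lit 166129041529) .nil)),
   .two (nat_lit 176160771) (nat_lit 2969567235) (.two (nat_lit 16777217) (nat_lit 19537068044) (.one (nat_lit 10552868923) .nil)),
   .two (nat_lit 272629763) (nat_lit 183845781506) (.two (nat_lit 4194305) (nat_lit 183845781514) (.one (nat_lit 1048828) .nil)),
   .two (nat_lit 101711875) (nat_lit 10940841992) (.one (nat_lit 183846830128) .nil),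
   .two (nat_lit 4194306) (nat_lit 2969567235) (.two (nat_lit 2097153) (nat_lit 3560964118) (.one (nat_lit 4194557) .nil)),
   .two (nat_lit 2969567235) (nat_lit 166132187139) (.two (nat_lit 4194305) (nat_lit 166211879019) .nil),
   .two (nat_lit 8388611) (nat_lit 46409973768) (.one (nat_lit 11479810294) .nil),
   .two (nat_lit 21785214979) (nat_lit 10336862216) (.one (nat_lit 1310720038) .nil),
   .two (nat_lit 8388610) (nat_lit 11559501827) (.two (nat_lit 50331649) (nat_lit 176160783) (.one (nat_lit 28764537054) .nil)),
   .two (nat_lit 21785214979) (nat_lit 10939793411) (.two (nat_lit 605028353) (nat_lit 156372041773) .nil),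
   .two (nat_lit 4194306) (nat_lit 19027460102) (.two (nat_lit 4194304) (nat_lit 639631381) (.one (nat_lit 2923429968) .nil)),
   .two (nat_lit 8388610) (nat_lit 11559501827) (.two (nat_lit 50331649) (nat_lit 176160783) (.one (nat_lit 185027526904) .nil)),
   .two (nat_lit 41943043) (nat_lit 9866051587) (.two (nat_lit 34603009) (nat_lit 4605345948) .nil),
   .two (nat_lit 83886083) (nat_lit 1779433480) (.one (nat_lit 739246182) .nil),
   .two (nat_lit 612368387) (nat_lit 3458203656) (.one (nat_lit 46508539963) .nil),
   .two (nat_lit 218103811) (nat_lit 3525312515) (.two (nat_lit 2097153) (nat_lit 9781116938) (.one (nat_lit 16777670) .nil)),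
   .two (nat_lit 16777218) (nat_lit 174688567315) (.one (nat_lit 10439622712) .nil),
   .two (nat_lit 4601151491) (nat_lit 183853121538) (.two (nat_lit 41943041) (nat_lit 46409973786) .nil),
   .two (nat_lit 176160770) (nat_lit 165526110211) (.two (nat_lit 2097153) (nat_lit 612368437) .nil),
   .two (nat_lit 1276116994) (nat_lit 46407876610) (.two (nat_lit 2097153) (nat_lit 158143086600) (.one (nat_lit 20704133165) .nil)),
   .two (nat_lit 156372041731) (nat_lit 166132187138) (.two (nat_lit 9768534017) (nat_lit 156372041734) (.two (nat_lit 4194304) (nat_lit 159224168463) (.one (nat_lit 9906946133) .nil))),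
   .two (nat_lit 620756995) (nat_lit 705691650) (.two (nat_lit 50331649) (nat_lit 47547678824) .nil),
   .two (nat_lit 2969567235) (nat_lit 47548727299) (.two (nat_lit 2097153) (nat_lit 218103816) (.one (nat_lit 159266111590) .nil)),
   .two (nat_lit 9948889091) (nat_lit 28089253900) (.one (nat_lit 11626610890) .nil),
   .two (nat_lit 159217876995) (nat_lit 1846542362) .nil,
   .two (nat_lit 285212675) (nat_lit 47548727299) (.two (nat_lit 16777217) (nat_lit 3525312533) (.one (nat_lit 20652753019) .nil)),
   .two (nat_lit 176160771) (nat_lit 159217877000) (.one (nat_lit 19134415052) .nil),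
   .two (nat_lit 2969567235) (nat_lit 19027460102) (.two (nat_lit 2097152) (nat_lit 20753416225) (.one (nat_lit 158158815455) .nil)),
   .two (nat_lit 9948889091) (nat_lit 1178599428) (.two (nat_lit 1048576) (nat_lit 1191182546) .nil),
   .two (nat_lit 620756995) (nat_lit 713031683) (.two (nat_lit 8388609) (nat_lit 1749024776) (.one (nat_lit 4194558) .nil)),
   .two (nat_lit 4605345795) (nat_lit 10336862216) (.one (nat_lit 2097407) .nil),
   .two (nat_lit 10370416643) (nat_lit 159216828437) (.one (nat_lit 28790751436) .nil),
   .two (nat_lit 1276116994) (nat_lit 10504634371) (.two (nat_lit 9766436865) (nat_lit 166196150309) .nil),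
   .two (nat_lit 272629763) (nat_lit 157036838915) (.two (nat_lit 9766436865) (nat_lit 166232850512) .nil),
   .two (nat_lit 620756995) (nat_lit 46414168066) (.two (nat_lit 8388609) (nat_lit 156984410124) (.one (nat_lit 28697428172) .nil)),
   .two (nat_lit 2097155) (nat_lit 10947133461) (.one (nat_lit 2097607) .nil),
   .two (nat_lit 176160771) (nat_lit 157038936078) (.one (nat_lit 28760342675) .nil),
   .two (nat_lit 169869314) (nat_lit 1846542344) (.one (nat_lit 2418016478) .nil),
   .two (nat_lit 171966467) (nat_lit 174686470150) (.two (nat_lit 1048576) (nat_lit 158144135183) (.one (nat_lit 2956984408) .nil)),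
   .two (nat_lit 41943043) (nat_lit 2889875459) (.two (nat_lit 4194305) (nat_lit 28764536844) (.one (nat_lit 28089254110) .nil)),
   .two (nat_lit 41943043) (nat_lit 28757196803) (.two (nat_lit 41943041) (nat_lit 19093520390) (.two (nat_lit 1048576) (nat_lit 156472705036) (.one (nat_lit 156465365055) .nil))),
   .two (nat_lit 21785214979) (nat_lit 28690087939) (.two (nat_lit 34603009) (nat_lit 10443817086) .nil),
   .two (nat_lit 285212675) (nat_lit 809500675) (.two (nat_lit 37748737) (nat_lit 3003121722) .nil),
   .two (nat_lit 20638072834) (nat_lit 28690087939) (.two (nat_lit 34603009) (nat_lit 174753579016) (.one (nat_lit 9799991355) .nil)),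
   .two (nat_lit 272629763) (nat_lit 165526110212) (.two (nat_lit 2097152) (nat_lit 708837397) (.one (nat_lit 20705181805) .nil)),
   .two (nat_lit 4194306) (nat_lit 1914699782) (.two (nat_lit 4194304) (nat_lit 12624855060) (.one (nat_lit 156367847874) .nil)),
   .two (nat_lit 16777219) (nat_lit 739246088) (.one (nat_lit 10335813678) .nil),
   .two (nat_lit 2954887171) (nat_lit 20652752899) (.two (nat_lit 16777217) (nat_lit 203423770) .nil),
   .two (nat_lit 2887778306) (nat_lit 11479810051) (.two (nat_lit 4194305) (nat_lit 1377828910) .nil),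
   .two (nat_lit 117440515) (nat_lit 28757196803) (.two (nat_lit 9765388289) (nat_lit 1795162120) (.one (nat_lit 156548202559) .nil)),
   .two (nat_lit 158143086595) (nat_lit 1847590915) (.two (nat_lit 606076929) (nat_lit 10939793435) .nil),
   .two (nat_lit 1916796931) (nat_lit 19596836867) (.two (nat_lit 9765388289) (nat_lit 1916796955) .nil),
   .two (nat_lit 50331651) (nat_lit 46414168066) (.two (nat_lit 8388609) (nat_lit 2317352980) (.one (nat_lit 166130090428) .nil)),
   .two (nat_lit 4194306) (nat_lit 2969567235) (.two (nat_lit 16777217) (nat_lit 11479810075) .nil),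
   .two (nat_lit 705691650) (nat_lit 166197198854) (.two (nat_lit 8388608) (nat_lit 11510218772) (.one (nat_lit 1049032) .nil)),
   .two (nat_lit 9768534019) (nat_lit 12114198536) (.one (nat_lit 11610882103) .nil),
   .two (nat_lit 169869314) (nat_lit 47555018755) (.two (nat_lit 8388609) (nat_lit 136314929) .nil),
   .two (nat_lit 176160770) (nat_lit 20652752899) (.two (nat_lit 16777217) (nat_lit 612368392) (.one (nat_lit 4601151631) .nil)),
   .two (nat_lit 620756995) (nat_lit 46414168066) (.two (nat_lit 8388609) (nat_lit 2923429921) (.one (nat_lit 11479810499) .nil)),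
   .two (nat_lit 10504634371) (nat_lit 156971827203) (.two (nat_lit 37748737) (nat_lit 28691136522) (.one (nat_lit 2097609) .nil)),
   .two (nat_lit 8388611) (nat_lit 10385096708) (.two (nat_lit 16777216) (nat_lit 18933088271) (.one (nat_lit 1358954576) .nil)),
   .two (nat_lit 809500675) (nat_lit 9881780228) (.two (nat_lit 16777216) (nat_lit 11580473365) (.one (nat_lit 654311504) .nil)),
   .two (nat_lit 285212675) (nat_lit 639631368) (.one (nat_lit 37314625588) .nil),
   .two (nat_lit 8388611) (nat_lit 1291845634) (.two (nat_lit 620756993) (nat_lit 10376708222) .nil),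
   .two (nat_lit 41943043) (nat_lit 135266309) (.two (nat_lit 8388608) (nat_lit 2316304398) (.one (nat_lit 174685421624) .nil)),
   .two (nat_lit 8388610) (nat_lit 218103811) (.two (nat_lit 16777217) (nat_lit 47548727362) .nil),
   .two (nat_lit 4605345795) (nat_lit 10336862216) (.one (nat_lit 2097410) .nil),
   .two (nat_lit 809500675) (nat_lit 1913651203) (.two (nat_lit 9765388289) (nat_lit 9867100168) (.one (nat_lit 10907287709) .nil)),
   .two (nat_lit 10370416643) (nat_lit 156968681476) (.two (nat_lit 1048576) (nat_lit 28758245390) (.one (nat_lit 304087085) .nil)),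
   .two (nat_lit 620756995) (nat_lit 46414168066) (.two (nat_lit 8388609) (nat_lit 28705816588) (.one (nat_lit 28697428172) .nil)),
   .two (nat_lit 10370416643) (nat_lit 166229704714) (.one (nat_lit 1049034) .nil),
   .two (nat_lit 11479810050) (nat_lit 12047089667) (.two (nat_lit 34603009) (nat_lit 28693233679) (.one (nat_lit 1212154060) .nil)),
   .two (nat_lit 739246083) (nat_lit 184419352579) (.two (nat_lit 37748737) (nat_lit 183912890373) (.two (nat_lit 16777216) (nat_lit 1376780305) (.one (nat_lit 28086108406) .nil))),
   .two (nat_lit 13191086083) (nat_lit 772800521) (.one (nat_lit 2953838705) .nil),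
   .two (nat_lit 4194306) (nat_lit 50331651) (.two (nat_lit 50331649) (nat_lit 809500680) (.one (nat_lit 775946303) .nil)),
   .two (nat_lit 2097155) (nat_lit 117440517) (.two (nat_lit 2097152) (nat_lit 83886231) .nil),
   .two (nat_lit 9768534019) (nat_lit 1913651203) (.two (nat_lit 37748737) (nat_lit 9798942841) .nil),
   .two (nat_lit 10370416643) (nat_lit 28757196808) (.one (nat_lit 1175453755) .nil),
   .two (nat_lit 184549379) (nat_lit 101711876) (.two (nat_lit 16777216) (nat_lit 1846542356) (.one (nat_lit 16777476) .nil)),
   .two (nat_lit 159224168451) (nat_lit 3525312515) (.two (nat_lit 2097153) (nat_lit 159224168475) .nil),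
   .two (nat_lit 9768534019) (nat_lit 4605345795) (.two (nat_lit 8388609) (nat_lit 1178599428) (.two (nat_lit 4194304) (nat_lit 2927624212) (.one (nat_lit 159253528684) .nil))),
   .two (nat_lit 1358954499) (nat_lit 28690087939) (.two (nat_lit 34603009) (nat_lit 9814671473) .nil),
   .two (nat_lit 184549379) (nat_lit 2954887176) (.one (nat_lit 639631462) .nil),
   .two (nat_lit 272629763) (nat_lit 3558866953) (.one (nat_lit 3558866980) .nil),
   .two (nat_lit 176160770) (nat_lit 9934209027) (.two (nat_lit 606076929) (nat_lit 1954545676) (.one (nat_lit 10370416699) .nil)),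
   .two (nat_lit 169869314) (nat_lit 11492392963) (.two (nat_lit 16777217) (nat_lit 11511267502) .nil),
   .two (nat_lit 12117344259) (nat_lit 37246468113) (.one (nat_lit 166129041467) .nil),
   .two (nat_lit 8388610) (nat_lit 654311427) (.two (nat_lit 620756993) (nat_lit 4638900234) (.one (nat_lit 13195280604) .nil)),
   .two (nat_lit 184986632195) (nat_lit 10506731523) (.two (nat_lit 9768534017) (nat_lit 11577327629) (.one (nat_lit 168820888) .nil)),
   .two (nat_lit 705691650) (nat_lit 3464495107) (.two (nat_lit 8388609) (nat_lit 184986632200) (.one (nat_lit 101711928) .nil)),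
   .two (nat_lit 10372513795) (nat_lit 4028629018) .nil,
   .two (nat_lit 184993972227) (nat_lit 10939793411) (.two (nat_lit 605028353) (nat_lit 12054429722) .nil),
   .two (nat_lit 10370416643) (nat_lit 10909384725) (.one (nat_lit 2097611) .nil),
   .two (nat_lit 169869314) (nat_lit 47555018755) (.two (nat_lit 8388609) (nat_lit 156466413615) .nil),
   .two (nat_lit 4194306) (nat_lit 46407876610) (.two (nat_lit 4194305) (nat_lit 4028629002) (.one (nat_lit 47548727497) .nil)),
   .two (nat_lit 12047089667) (nat_lit 165532401667) (.two (nat_lit 8388609) (nat_lit 37313576970) (.one (nat_lit 1049036) .nil)),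
   .two (nat_lit 4194306) (nat_lit 9948889091) (.two (nat_lit 620756993) (nat_lit 339738634) (.one (nat_lit 4194566) .nil)),
   .two (nat_lit 10504634371) (nat_lit 166132187138) (.two (nat_lit 9768534017) (nat_lit 157036838939) .nil),
   .two (nat_lit 11492392963) (nat_lit 101711880) (.one (nat_lit 9866051686) .nil),
   .two (nat_lit 184549379) (nat_lit 2954887176) (.one (nat_lit 2097328) .nil),
   .two (nat_lit 10370416643) (nat_lit 10939793416) (.one (nat_lit 47581233275) .nil),
   .two (nat_lit 75497475) (nat_lit 2969567235) (.two (nat_lit 16777217) (nat_lit 1753219087) (.one (nat_lit 2902458474) .nil)),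
   .two (nat_lit 4601151491) (nat_lit 183853121538) (.two (nat_lit 41943041) (nat_lit 4601151515) .nil),
   .two (nat_lit 739246083) (nat_lit 1795162115) (.two (nat_lit 50331649) (nat_lit 705691698) .nil),
   .two (nat_lit 1277165570) (nat_lit 28690087939) (.two (nat_lit 34603009) (nat_lit 28758245384) (.one (nat_lit 807403683) .nil)),
   .two (nat_lit 41943043) (nat_lit 46407876610) (.two (nat_lit 41943041) (nat_lit 2921332746) (.one (nat_lit 169869440) .nil)),
   .two (nat_lit 8388611) (nat_lit 46978301955) (.two (nat_lit 8388609) (nat_lit 166130089999) (.one (nat_lit 639631445) .nil)),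
   .two (nat_lit 169869314) (nat_lit 9781116931) (.two (nat_lit 50331649) (nat_lit 2887778314) (.one (nat_lit 2097613) .nil)),
   .two (nat_lit 806354947) (nat_lit 11479810050) (.two (nat_lit 34603009) (nat_lit 183916036106) (.one (nat_lit 46508540143) .nil)),
   .two (nat_lit 41943043) (nat_lit 1291845635) (.two (nat_lit 16777217) (nat_lit 11584667711) .nil),
   .two (nat_lit 8388610) (nat_lit 705691650) (.two (nat_lit 8388609) (nat_lit 11577327626) (.one (nat_lit 20737687771) .nil)),
   .two (nat_lit 16777218) (nat_lit 46414168067) (.two (nat_lit 8388609) (nat_lit 185002360897) .nil),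
   .two (nat_lit 705691650) (nat_lit 165532401667) (.two (nat_lit 8388609) (nat_lit 21777874952) (.one (nat_lit 20737687615) .nil)),
   .two (nat_lit 4194306) (nat_lit 8388611) (.two (nat_lit 8388609) (nat_lit 13224640522) (.one (nat_lit 4194766) .nil)),
   .two (nat_lit 83886083) (nat_lit 739246088) (.one (nat_lit 174685421679) .nil),
   .two (nat_lit 9768534019) (nat_lit 754974723) (.two (nat_lit 50331649) (nat_lit 1178599432) (.one (nat_lit 1849688127) .nil)),
   .two (nat_lit 169869314) (nat_lit 620756995) (.two (nat_lit 50331649) (nat_lit 2954887176) (.one (nat_lit 46407876671) .nil)),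
   .two (nat_lit 2889875458) (nat_lit 654311427) (.two (nat_lit 620756993) (nat_lit 9768534024) (.one (nat_lit 10338959471) .nil)),
   .two (nat_lit 705691650) (nat_lit 28758245379) (.two (nat_lit 9766436865) (nat_lit 739246095) (.one (nat_lit 20637024384) .nil)),
   .two (nat_lit 1276116994) (nat_lit 13191086083) (.two (nat_lit 37748737) (nat_lit 9866051588) (.two (nat_lit 1048576) (nat_lit 306184202) (.one (nat_lit 12617515204) .nil))),
   .two (nat_lit 184549379) (nat_lit 12054429699) (.two (nat_lit 41943041) (nat_lit 2902458411) .nil),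
   .two (nat_lit 21777874947) (nat_lit 12121538563) (.two (nat_lit 41943041) (nat_lit 135266331) .nil),
   .two (nat_lit 11543773187) (nat_lit 1191182344) (.one (nat_lit 1048839) .nil),
   .two (nat_lit 8388610) (nat_lit 184431935491) (.two (nat_lit 50331649) (nat_lit 46514831381) (.one (nat_lit 136314968) .nil)),
   .two (nat_lit 2954887171) (nat_lit 1849688068) (.two (nat_lit 2097152) (nat_lit 1916796949) (.one (nat_lit 2097615) .nil)),
   .two (nat_lit 809500675) (nat_lit 156372041736) (.one (nat_lit 9940500591) .nil),
   .two (nat_lit 10343153667) (nat_lit 20638072835) (.two (nat_lit 2097153) (nat_lit 165532401672) (.one (nat_lit 8388786) .nil)),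
   .two (nat_lit 169869314) (nat_lit 9781116931) (.two (nat_lit 50331649) (nat_lit 9934209032) (.one (nat_lit 158077026363) .nil)),
   .two (nat_lit 21777874947) (nat_lit 183853121539) (.two (nat_lit 8388609) (nat_lit 158075977736) (.one (nat_lit 28757196925) .nil)),
   .two (nat_lit 2887778306) (nat_lit 9768534019) (.two (nat_lit 37748737) (nat_lit 46508539914) (.one (nat_lit 2097416) .nil)),
   .two (nat_lit 176160770) (nat_lit 20738736134) (.two (nat_lit 2097152) (nat_lit 612368392) (.one (nat_lit 28691136741) .nil)),
   .two (nat_lit 8388610) (nat_lit 37313576970) (.one (nat_lit 13195280469) .nil),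
   .two (nat_lit 2889875458) (nat_lit 174753579012) (.two (nat_lit 2097152) (nat_lit 185023332364) (.one (nat_lit 10907287637) .nil)),
   .two (nat_lit 41943043) (nat_lit 156367847432) (.one (nat_lit 158146232483) .nil),
   .two (nat_lit 9948889091) (nat_lit 1178599432) (.one (nat_lit 11626610890) .nil),
   .two (nat_lit 809500675) (nat_lit 10385096707) (.two (nat_lit 16777217) (nat_lit 13224640556) .nil),
   .two (nat_lit 1916796931) (nat_lit 28086108163) (.two (nat_lit 34603009) (nat_lit 37316722752) .nil),
   .two (nat_lit 612368387) (nat_lit 21777874952) (.one (nat_lit 101711934) .nil),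
   .two (nat_lit 11543773187) (nat_lit 1862270979) (.two (nat_lit 620756993) (nat_lit 3457155169) .nil),
   .two (nat_lit 2887778306) (nat_lit 183848927235) (.two (nat_lit 4194305) (nat_lit 174753579137) .nil),
   .two (nat_lit 174752530435) (nat_lit 19530776579) (.two (nat_lit 2097153) (nat_lit 174685421578) (.one (nat_lit 9798942984) .nil)),
   .two (nat_lit 4194306) (nat_lit 285212675) (.two (nat_lit 16777217) (nat_lit 28791799859) .nil),
   .two (nat_lit 159217876995) (nat_lit 37313576965) (.two (nat_lit 2097152) (nat_lit 19529728058) .nil),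
   .two (nat_lit 46409973763) (nat_lit 156968681475) (.two (nat_lit 4194305) (nat_lit 37246468102) (.two (nat_lit 4194304) (nat_lit 158143086607) (.one (nat_lit 739246192) .nil))),
   .two (nat_lit 46414168066) (nat_lit 21208498179) (.two (nat_lit 606076929) (nat_lit 47555018767) (.one (nat_lit 1786773726) .nil)),
   .two (nat_lit 2887778306) (nat_lit 46409973763) (.two (nat_lit 4194305) (nat_lit 10504634376) (.one (nat_lit 28791799867) .nil)),
   .two (nat_lit 184549378) (nat_lit 142606352) (.one (nat_lit 12624855096) .nil),
   .two (nat_lit 705691650) (nat_lit 156971827203) (.two (nat_lit 37748737) (nat_lit 9866051599) (.one (nat_lit 1782579323) .nil)),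
   .two (nat_lit 1277165571) (nat_lit 19596836867) (.two (nat_lit 9765388289) (nat_lit 2954887224) .nil),
   .two (nat_lit 4194306) (nat_lit 654311427) (.two (nat_lit 620756993) (nat_lit 809500680) (.one (nat_lit 775946299) .nil)),
   .two (nat_lit 4194306) (nat_lit 2357198869) (.one (nat_lit 1417674880) .nil),
   .two (nat_lit 9948889091) (nat_lit 158079123468) (.one (nat_lit 11626610890) .nil),
   .two (nat_lit 11476664322) (nat_lit 165528207363) (.two (nat_lit 4194305) (nat_lit 1913651208) (.one (nat_lit 10369368127) .nil)),
   .two (nat_lit 176160770) (nat_lit 159217876995) (.two (nat_lit 606076929) (nat_lit 3464495131) .nil),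
   .two (nat_lit 4194306) (nat_lit 847249435) .nil,
   .two (nat_lit 2889875459) (nat_lit 10336862212) (.two (nat_lit 2097152) (nat_lit 13191086099) (.one (nat_lit 184989777965) .nil)),
   .two (nat_lit 2902458370) (nat_lit 102760451) (.two (nat_lit 606076929) (nat_lit 10552868874) (.one (nat_lit 8388873) .nil)),
   .two (nat_lit 809500675) (nat_lit 184993972227) (.two (nat_lit 41943041) (nat_lit 9768534031) (.one (nat_lit 2923429974) .nil)),
   .two (nat_lit 2956984323) (nat_lit 156533522437) (.two (nat_lit 1048576) (nat_lit 28791799871) .nil),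
   .two (nat_lit 713031683) (nat_lit 156971827214) (.one (nat_lit 11580473491) .nil),
   .two (nat_lit 83886083) (nat_lit 10538188805) (.two (nat_lit 16777216) (nat_lit 156567076922) .nil),
   .two (nat_lit 4194306) (nat_lit 46414168066) (.two (nat_lit 8388609) (nat_lit 306184218) .nil),
   .two (nat_lit 169869314) (nat_lit 21223178243) (.two (nat_lit 2097153) (nat_lit 12050235455) .nil),
   .two (nat_lit 1277165571) (nat_lit 183853121538) (.two (nat_lit 2097153) (nat_lit 12054429700) (.two (nat_lit 8388608) (nat_lit 1847590927) (.one (nat_lit 1786773612) .nil))),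
   .two (nat_lit 41943043) (nat_lit 721420291) (.two (nat_lit 16777217) (nat_lit 880803867) .nil),
   .two (nat_lit 10336862211) (nat_lit 158143086616) (.one (nat_lit 37313577028) .nil),
   .two (nat_lit 20638072834) (nat_lit 2969567240) (.two (nat_lit 2097152) (nat_lit 9948889127) (.one (nat_lit 352321855) .nil)),
   .two (nat_lit 10506731523) (nat_lit 10939793418) (.two (nat_lit 1048576) (nat_lit 166132187460) .nil),
   .two (nat_lit 46409973763) (nat_lit 166129041416) (.two (nat_lit 4194304) (nat_lit 11610882109) (.one (nat_lit 1049158) .nil)),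
   .two (nat_lit 8388610) (nat_lit 3458203656) (.two (nat_lit 4194304) (nat_lit 166197199174) .nil),
   .two (nat_lit 41943043) (nat_lit 174753579013) (.two (nat_lit 2097153) (nat_lit 11584667668) (.two (nat_lit 2097152) (nat_lit 46481277025) (.one (nat_lit 10940842308) .nil))),
   .two (nat_lit 218103811) (nat_lit 10336862212) (.two (nat_lit 41943041) (nat_lit 158177689646) (.one (nat_lit 16777799) .nil)),
   .two (nat_lit 4601151491) (nat_lit 184416206856) (.two (nat_lit 4194304) (nat_lit 12617515044) (.one (nat_lit 166199296315) .nil)),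
   .two (nat_lit 4599054339) (nat_lit 156372041736) (.two (nat_lit 8388608) (nat_lit 159251431717) .nil),
   .two (nat_lit 4194306) (nat_lit 46978301960) (.two (nat_lit 4194304) (nat_lit 2317353017) (.one (nat_lit 2317353509) .nil)),
   .two (nat_lit 4605345795) (nat_lit 2988441605) (.two (nat_lit 8388609) (nat_lit 4028629033) (.one (nat_lit 12048138531) .nil)),
   .two (nat_lit 2954887171) (nat_lit 3527409669) (.two (nat_lit 2097153) (nat_lit 4194357) (.one (nat_lit 156971827780) .nil)),
   .two (nat_lit 50331651) (nat_lit 843055109) (.two (nat_lit 37748737) (nat_lit 721420296) (.two (nat_lit 4194304) (nat_lit 158158815298) (.one (nat_lit 687866320) .nil))),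
   .two (nat_lit 1191182339) (nat_lit 9900654602) (.two (nat_lit 1048576) (nat_lit 10001318196) .nil),
   .two (nat_lit 2954887171) (nat_lit 46414168068) (.two (nat_lit 9781116929) (nat_lit 9766436872) (.two (nat_lit 16777216) (nat_lit 1377829155) .nil)),
   .two (nat_lit 184549378) (nat_lit 3458203652) (.two (nat_lit 2097153) (nat_lit 47563407369) (.two (nat_lit 2097152) (nat_lit 10955522108) (.one (nat_lit 183846830368) .nil))),
   .two (nat_lit 272629763) (nat_lit 3028287494) (.two (nat_lit 4194305) (nat_lit 3028287497) (.two (nat_lit 2097152) (nat_lit 28089254254) .nil)),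
   .two (nat_lit 4194306) (nat_lit 156365750276) (.two (nat_lit 50331649) (nat_lit 606076936) (.two (nat_lit 16777216) (nat_lit 174753579058) (.one (nat_lit 4194729) .nil))),
   .two (nat_lit 12047089667) (nat_lit 1310720009) (.two (nat_lit 8388608) (nat_lit 20738736499) .nil),
   .two (nat_lit 8388610) (nat_lit 218103812) (.two (nat_lit 41943041) (nat_lit 10519314442) (.two (nat_lit 2097152) (nat_lit 165540790572) .nil)),
   .two (nat_lit 13187940355) (nat_lit 46409973768) (.two (nat_lit 2097152) (nat_lit 1343225909) (.one (nat_lit 4194888) .nil)),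
   .two (nat_lit 1358954499) (nat_lit 19596836868) (.two (nat_lit 34603009) (nat_lit 654311432) (.two (nat_lit 1048576) (nat_lit 11022631334) .nil)),
   .two (nat_lit 34603011) (nat_lit 46414168068) (.two (nat_lit 8388609) (nat_lit 11543773192) (.two (nat_lit 8388608) (nat_lit 47547679094) .nil)),
   .two (nat_lit 75497475) (nat_lit 4634705925) (.two (nat_lit 4194305) (nat_lit 142606388) (.one (nat_lit 12121538926) .nil)),
   .two (nat_lit 721420291) (nat_lit 156372041732) (.two (nat_lit 8388609) (nat_lit 10351542332) (.one (nat_lit 855638398) .nil)),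
   .two (nat_lit 10506731523) (nat_lit 12054429700) (.two (nat_lit 156367847425) (nat_lit 37320917042) (.one (nat_lit 183853121921) .nil)),
   .two (nat_lit 16777219) (nat_lit 10504634376) (.two (nat_lit 16777216) (nat_lit 1780482229) .nil),
   .two (nat_lit 1276116994) (nat_lit 18933088264) (.two (nat_lit 1048576) (nat_lit 47555019130) .nil),
   .two (nat_lit 721420290) (nat_lit 156372041736) (.two (nat_lit 1048576) (nat_lit 47588573230) (.one (nat_lit 8389193) .nil)),
   .two (nat_lit 11479810050) (nat_lit 1847590921) (.two (nat_lit 4194304) (nat_lit 1847590948) (.one (nat_lit 12618563949) .nil)),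
   .two (nat_lit 721420291) (nat_lit 156372041733) (.two (nat_lit 612368385) (nat_lit 11492392998) (.one (nat_lit 13237223747) .nil)),
   .two (nat_lit 4194306) (nat_lit 28758245381) (.two (nat_lit 2097153) (nat_lit 876609589) (.one (nat_lit 156567077160) .nil)),
   .two (nat_lit 1358954499) (nat_lit 157036838916) (.two (nat_lit 2097153) (nat_lit 687865916) (.one (nat_lit 158091706673) .nil)),
   .two (nat_lit 184549378) (nat_lit 10506731524) (.two (nat_lit 4194305) (nat_lit 18941476924) (.one (nat_lit 10909384988) .nil)),
   .two (nat_lit 183845781506) (nat_lit 1795162120) (.two (nat_lit 1048576) (nat_lit 1191182379) (.one (nat_lit 3003122169) .nil)),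
   .two (nat_lit 272629763) (nat_lit 166245433350) (.two (nat_lit 16777217) (nat_lit 3024093241) (.one (nat_lit 339739103) .nil)),
   .two (nat_lit 9781116931) (nat_lit 1343225863) (.two (nat_lit 50331649) (nat_lit 19026411530) (.two (nat_lit 2097152) (nat_lit 1745879095) (.one (nat_lit 1049165) .nil))),
   .two (nat_lit 11543773187) (nat_lit 10338959370) (.two (nat_lit 4194304) (nat_lit 46507491388) (.one (nat_lit 10942939444) .nil)),
   .two (nat_lit 9948889091) (nat_lit 156968681476) (.two (nat_lit 9765388289) (nat_lit 184549401) (.one (nat_lit 2432696688) .nil)),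
   .two (nat_lit 166130089986) (nat_lit 10343153672) (.two (nat_lit 2097152) (nat_lit 165532401705) (.one (nat_lit 2894070052) .nil)),
   .two (nat_lit 8388611) (nat_lit 46980399108) (.two (nat_lit 156367847425) (nat_lit 47588573194) (.two (nat_lit 8388608) (nat_lit 4194503) (.one (nat_lit 166132187455) .nil))),
   .two (nat_lit 1358954499) (nat_lit 10939793412) (.two (nat_lit 606076929) (nat_lit 156968681525) (.one (nat_lit 158662132038) .nil)),
   .two (nat_lit 822083587) (nat_lit 10939793412) (.two (nat_lit 34603009) (nat_lit 16777241) (.one (nat_lit 28806480164) .nil)),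
   .two (nat_lit 1358954499) (nat_lit 159251431429) (.two (nat_lit 9781116929) (nat_lit 9900654601) (.two (nat_lit 2097152) (nat_lit 12633243841) (.one (nat_lit 35651884) .nil))),
   .two (nat_lit 809500675) (nat_lit 1779433476) (.two (nat_lit 37748737) (nat_lit 1276117001) (.two (nat_lit 1048576) (nat_lit 4194504) (.one (nat_lit 2953838880) .nil))),
   .two (nat_lit 16777218) (nat_lit 46409973764) (.two (nat_lit 50331649) (nat_lit 3460300810) (.two (nat_lit 4194304) (nat_lit 16777417) (.one (nat_lit 10540286348) .nil))),
   .two (nat_lit 1277165571) (nat_lit 9802088453) (.two (nat_lit 2097153) (nat_lit 19599982630) (.one (nat_lit 166232850741) .nil)),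
   .two (nat_lit 10504634371) (nat_lit 1343225864) (.two (nat_lit 2097152) (nat_lit 739246107) (.one (nat_lit 46977253666) .nil)),
   .two (nat_lit 169869314) (nat_lit 10000269334) (.two (nat_lit 2097152) (nat_lit 156532474039) .nil),
   .two (nat_lit 47548727299) (nat_lit 156968681476) (.two (nat_lit 2097153) (nat_lit 174752530453) (.two (nat_lit 2097152) (nat_lit 135266343) (.one (nat_lit 3557818675) .nil))),
   .two (nat_lit 4194306) (nat_lit 639631364) (.two (nat_lit 2097153) (nat_lit 1312817212) (.one (nat_lit 69206300) .nil)),
   .two (nat_lit 169869314) (nat_lit 1384120326) (.two (nat_lit 2097153) (nat_lit 18928894003) (.one (nat_lit 10439623031) .nil)),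
   .two (nat_lit 2969567235) (nat_lit 1212153862) (.two (nat_lit 4194305) (nat_lit 620757028) (.one (nat_lit 742392115) .nil)),
   .two (nat_lit 638582787) (nat_lit 16777243) (.one (nat_lit 37262196918) .nil),
   .two (nat_lit 156372041731) (nat_lit 739246088) (.two (nat_lit 8388608) (nat_lit 11510218851) (.one (nat_lit 11577328129) .nil)),
   .two (nat_lit 713031683) (nat_lit 10939793420) (.two (nat_lit 1048576) (nat_lit 183846830134) (.one (nat_lit 1746928128) .nil)),
   .two (nat_lit 8388611) (nat_lit 13224640517) (.two (nat_lit 8388609) (nat_lit 11479810056) (.two (nat_lit 1048576) (nat_lit 809500716) (.one (nat_lit 243270106) .nil))),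
   .two (nat_lit 809500675) (nat_lit 83886090) (.two (nat_lit 16777216) (nat_lit 1212153895) (.one (nat_lit 10439623009) .nil)),
   .two (nat_lit 8388610) (nat_lit 605028358) (.two (nat_lit 4194305) (nat_lit 1175453704) (.two (nat_lit 8388608) (nat_lit 166129041524) (.one (nat_lit 739246352) .nil))),
   .two (nat_lit 16777218) (nat_lit 1753219078) (.two (nat_lit 2097153) (nat_lit 20652752956) (.one (nat_lit 16777806) .nil)),
   .two (nat_lit 270532611) (nat_lit 641728522) (.two (nat_lit 2097152) (nat_lit 10369368103) (.one (nat_lit 12047090170) .nil)),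
   .two (nat_lit 8388610) (nat_lit 2988441626) (.one (nat_lit 166197199144) .nil),
   .two (nat_lit 9948889091) (nat_lit 21811429381) (.two (nat_lit 620756993) (nat_lit 1376780329) (.one (nat_lit 839909676) .nil)),
   .two (nat_lit 8388610) (nat_lit 218103816) (.two (nat_lit 8388608) (nat_lit 318767203) (.one (nat_lit 183861510479) .nil)),
   .two (nat_lit 705691650) (nat_lit 28691136521) (.two (nat_lit 1048576) (nat_lit 236978212) (.one (nat_lit 11477713291) .nil)),
   .two (nat_lit 639631363) (nat_lit 1417674758) (.two (nat_lit 8388609) (nat_lit 10370416648) (.two (nat_lit 2097152) (nat_lit 1417674790) (.one (nat_lit 612368707) .nil))),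
   .two (nat_lit 8388611) (nat_lit 37313576965) (.two (nat_lit 8388609) (nat_lit 12047089680) (.two (nat_lit 4194304) (nat_lit 1745879097) (.one (nat_lit 168821220) .nil))),
   .two (nat_lit 4194306) (nat_lit 9948889093) (.two (nat_lit 50331649) (nat_lit 46980399143) (.one (nat_lit 1749025122) .nil)),
   .two (nat_lit 11543773187) (nat_lit 12117344261) (.two (nat_lit 34603009) (nat_lit 876609589) (.one (nat_lit 4194895) .nil)),
   .two (nat_lit 117440515) (nat_lit 20638072840) (.two (nat_lit 16777216) (nat_lit 1746927680) (.one (nat_lit 18926797301) .nil)),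
   .two (nat_lit 11559501827) (nat_lit 19096666122) (.two (nat_lit 4194304) (nat_lit 142606379) (.one (nat_lit 28093448660) .nil)),
   .two (nat_lit 13191086083) (nat_lit 19093520389) (.two (nat_lit 37748737) (nat_lit 1947205675) (.one (nat_lit 158075978292) .nil)),
   .two (nat_lit 11543773187) (nat_lit 285212680) (.two (nat_lit 16777216) (nat_lit 12617515046) (.one (nat_lit 2953838899) .nil)),
   .two (nat_lit 2887778306) (nat_lit 13228834827) (.two (nat_lit 16777216) (nat_lit 9806283057) .nil),
   .two (nat_lit 9768534019) (nat_lit 12054429700) (.two (nat_lit 8388609) (nat_lit 1178599432) (.two (nat_lit 4194304) (nat_lit 11618222118) (.one (nat_lit 158150426971) .nil))),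
   .two (nat_lit 176160770) (nat_lit 9781116932) (.two (nat_lit 16777217) (nat_lit 28093448228) (.one (nat_lit 11484004673) .nil)),
   .two (nat_lit 4194306) (nat_lit 1291845642) (.two (nat_lit 16777216) (nat_lit 1212153894) (.one (nat_lit 37749106) .nil)),
   .two (nat_lit 176160771) (nat_lit 183845781512) (.two (nat_lit 2097152) (nat_lit 18925748291) (.one (nat_lit 9899606483) .nil)),
   .two (nat_lit 183848927234) (nat_lit 176160780) (.two (nat_lit 4194304) (nat_lit 10351542326) (.one (nat_lit 46992982524) .nil)),
   .two (nat_lit 184993972227) (nat_lit 13224640525) (.two (nat_lit 8388608) (nat_lit 2990538937) .nil),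
   .two (nat_lit 1191182339) (nat_lit 20705181702) (.two (nat_lit 16777217) (nat_lit 21208498196) (.two (nat_lit 4194304) (nat_lit 35651638) (.one (nat_lit 2097744) .nil))),
   .two (nat_lit 10343153667) (nat_lit 16777243) (.one (nat_lit 1392509240) .nil),
   .two (nat_lit 11543773187) (nat_lit 10338959364) (.two (nat_lit 620756993) (nat_lit 158146232367) (.one (nat_lit 11610882462) .nil)),
   .two (nat_lit 1913651203) (nat_lit 3527409672) (.two (nat_lit 4194304) (nat_lit 166196150310) (.one (nat_lit 166229705063) .nil)),
   .two (nat_lit 46407876610) (nat_lit 37313576987) (.one (nat_lit 9765388580) .nil),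
   .two (nat_lit 9768534019) (nat_lit 184993972229) (.two (nat_lit 8388609) (nat_lit 1916796938) (.two (nat_lit 4194304) (nat_lit 21785215015) (.one (nat_lit 9940501014) .nil))),
   .two (nat_lit 184549379) (nat_lit 12620660748) (.two (nat_lit 4194304) (nat_lit 605028407) (.one (nat_lit 174752530846) .nil)),
   .two (nat_lit 159224168451) (nat_lit 156367847428) (.two (nat_lit 4194305) (nat_lit 21214789642) (.two (nat_lit 8388608) (nat_lit 71303228) (.one (nat_lit 1916797244) .nil))),
   .two (nat_lit 18933088259) (nat_lit 158144135178) (.two (nat_lit 8388608) (nat_lit 1847590956) (.one (nat_lit 21812478335) .nil)),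
   .two (nat_lit 11479810050) (nat_lit 10343153669) (.two (nat_lit 37748737) (nat_lit 20644364327) (.one (nat_lit 156573368688) .nil)),
   .two (nat_lit 612368387) (nat_lit 19532873734) (.two (nat_lit 41943041) (nat_lit 19532873766) (.one (nat_lit 4194733) .nil)),
   .two (nat_lit 20637024258) (nat_lit 159266111509) (.two (nat_lit 1048576) (nat_lit 12633243695) (.one (nat_lit 1929380206) .nil)),
   .two (nat_lit 612368387) (nat_lit 10385096712) (.two (nat_lit 8388608) (nat_lit 19545456691) (.one (nat_lit 16777810) .nil)),
   .two (nat_lit 16777218) (nat_lit 203423748) (.two (nat_lit 9766436865) (nat_lit 4613734410) (.two (nat_lit 16777216) (nat_lit 9766437059) (.one (nat_lit 10955522398) .nil))),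
   .two (nat_lit 171966467) (nat_lit 3464495112) (.two (nat_lit 8388608) (nat_lit 21777875049) (.one (nat_lit 159250383226) .nil)),
   .two (nat_lit 218103811) (nat_lit 1779433480) (.two (nat_lit 16777216) (nat_lit 9933160497) (.one (nat_lit 1410335032) .nil)),
   .two (nat_lit 1913651203) (nat_lit 159224168453) (.two (nat_lit 41943041) (nat_lit 1846542356) (.two (nat_lit 1048576) (nat_lit 11551113266) (.one (nat_lit 8389205) .nil))),
   .two (nat_lit 11559501827) (nat_lit 9934209032) (.two (nat_lit 4194304) (nat_lit 4632609079) .nil),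
   .two (nat_lit 184549379) (nat_lit 10437525516) (.two (nat_lit 2097152) (nat_lit 37246468186) (.one (nat_lit 1376780855) .nil)),
   .two (nat_lit 272629763) (nat_lit 158144135172) (.two (nat_lit 4194305) (nat_lit 9867100170) (.two (nat_lit 2097152) (nat_lit 1312817473) .nil)),
   .two (nat_lit 16777218) (nat_lit 11476664328) (.two (nat_lit 16777216) (nat_lit 672137528) .nil),
   .two (nat_lit 11476664322) (nat_lit 18933088260) (.two (nat_lit 34603009) (nat_lit 1283457084) (.one (nat_lit 158183981377) .nil)),
   .two (nat_lit 721420291) (nat_lit 1376780293) (.two (nat_lit 50331649) (nat_lit 158075977736) (.two (nat_lit 1048576) (nat_lit 19042140214) (.one (nat_lit 159266111960) .nil))),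
   .two (nat_lit 9948889091) (nat_lit 20638072840) (.two (nat_lit 2097152) (nat_lit 158158815285) (.one (nat_lit 166230753633) .nil)),
   .two (nat_lit 1753219075) (nat_lit 156968681480) (.two (nat_lit 1048576) (nat_lit 158183981102) (.one (nat_lit 1786773822) .nil)),
   .two (nat_lit 165526110211) (nat_lit 159266111494) (.two (nat_lit 2097153) (nat_lit 174701150254) (.one (nat_lit 11626611113) .nil)),
   .two (nat_lit 10939793411) (nat_lit 612368392) (.two (nat_lit 1048576) (nat_lit 1417674796) (.one (nat_lit 11014242657) .nil)),
   .two (nat_lit 8388610) (nat_lit 11492392964) (.two (nat_lit 8388609) (nat_lit 12129927177) (.two (nat_lit 16777216) (nat_lit 46984593608) (.one (nat_lit 156984410400) .nil))),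
   .two (nat_lit 156372041731) (nat_lit 19532873732) (.two (nat_lit 41943041) (nat_lit 10942939146) (.two (nat_lit 4194304) (nat_lit 2357199040) (.one (nat_lit 1849688388) .nil))),
   .two (nat_lit 721420291) (nat_lit 1277165576) (.two (nat_lit 16777216) (nat_lit 20738736153) (.one (nat_lit 157036839238) .nil)),
   .two (nat_lit 13191086083) (nat_lit 1417674758) (.two (nat_lit 8388609) (nat_lit 19130220583) (.one (nat_lit 239075678) .nil)),
   .two (nat_lit 47555018755) (nat_lit 184416206856) (.two (nat_lit 8388608) (nat_lit 19093520422) (.one (nat_lit 10906239326) .nil)),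
   .two (nat_lit 171966467) (nat_lit 11551113220) (.two (nat_lit 4194305) (nat_lit 1780482056) (.two (nat_lit 1048576) (nat_lit 9873391949) .nil)),
   .two (nat_lit 2889875458) (nat_lit 1913651208) (.two (nat_lit 4194304) (nat_lit 13221494833) (.one (nat_lit 873464100) .nil)),
   .two (nat_lit 184549378) (nat_lit 157036838916) (.two (nat_lit 2097153) (nat_lit 2969567240) (.two (nat_lit 2097152) (nat_lit 16777336) (.one (nat_lit 16777814) .nil))),
   .two (nat_lit 4601151491) (nat_lit 166197198860) (.two (nat_lit 2097152) (nat_lit 1913651251) (.one (nat_lit 1276117367) .nil)),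
   .two (nat_lit 16777218) (nat_lit 705691656) (.two (nat_lit 16777216) (nat_lit 2350907684) .nil),
   .two (nat_lit 159224168451) (nat_lit 10538188805) (.two (nat_lit 156365750273) (nat_lit 11618222105) (.one (nat_lit 28764537253) .nil)),
   .two (nat_lit 41943043) (nat_lit 158143086596) (.two (nat_lit 8388609) (nat_lit 1780482058) (.two (nat_lit 2097152) (nat_lit 10335814031) .nil)),
   .two (nat_lit 16777218) (nat_lit 166196150277) (.two (nat_lit 2097153) (nat_lit 352321589) (.one (nat_lit 37329305785) .nil)),
   .two (nat_lit 620756995) (nat_lit 9867100164) (.two (nat_lit 4194305) (nat_lit 721420351) (.one (nat_lit 158158815796) .nil)),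
   .two (nat_lit 4599054339) (nat_lit 184419352584) (.two (nat_lit 1048576) (nat_lit 10540286259) .nil),
   .two (nat_lit 46978301955) (nat_lit 156581756940) (.two (nat_lit 2097152) (nat_lit 1929379888) (.one (nat_lit 28705816979) .nil)),
   .two (nat_lit 176160770) (nat_lit 2987393031) (.two (nat_lit 34603009) (nat_lit 1862271021) (.one (nat_lit 16777816) .nil)),
   .two (nat_lit 10370416643) (nat_lit 352321548) (.two (nat_lit 2097152) (nat_lit 9772728374) (.one (nat_lit 847249980) .nil)),
   .two (nat_lit 184993972227) (nat_lit 272629768) (.two (nat_lit 8388608) (nat_lit 4634705945) (.one (nat_lit 4194734) .nil)),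
   .two (nat_lit 620756995) (nat_lit 12150898698) (.two (nat_lit 16777216) (nat_lit 10439622853) (.one (nat_lit 4613734693) .nil)),
   .two (nat_lit 1358954499) (nat_lit 1178599432) (.two (nat_lit 16777216) (nat_lit 158146232368) (.one (nat_lit 183916036400) .nil)),
   .two (nat_lit 10343153667) (nat_lit 50331656) (.two (nat_lit 8388608) (nat_lit 2432696368) (.one (nat_lit 4647289136) .nil)),
   .two (nat_lit 1178599427) (nat_lit 11559501832) (.two (nat_lit 4194304) (nat_lit 46523220020) (.one (nat_lit 10552869357) .nil)),
   .two (nat_lit 183848927235) (nat_lit 176160780) (.two (nat_lit 4194304) (nat_lit 10351542326) (.one (nat_lit 16777723) .nil)),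
   .two (nat_lit 16777219) (nat_lit 165528207367) (.two (nat_lit 4194305) (nat_lit 156984410158) (.one (nat_lit 1913651501) .nil)),
   .two (nat_lit 176160770) (nat_lit 117440517) (.two (nat_lit 16777217) (nat_lit 158083317785) (.one (nat_lit 4638900536) .nil)),
   .two (nat_lit 21777874947) (nat_lit 3464495112) (.two (nat_lit 8388608) (nat_lit 10906239026) (.one (nat_lit 20637024552) .nil)),
   .two (nat_lit 809500675) (nat_lit 10906238986) (.two (nat_lit 1048576) (nat_lit 9869197372) (.one (nat_lit 10335813976) .nil)),
   .two (nat_lit 721420290) (nat_lit 12054429705) (.two (nat_lit 4194304) (nat_lit 156472705363) .nil),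
   .two (nat_lit 34603011) (nat_lit 12117344264) (.two (nat_lit 1048576) (nat_lit 158144135193) (.one (nat_lit 2097754) .nil)),
   .two (nat_lit 2969567235) (nat_lit 10336862216) (.two (nat_lit 2097152) (nat_lit 16777241) (.one (nat_lit 2097755) .nil)),
   .two (nat_lit 1291845634) (nat_lit 21207449604) (.two (nat_lit 9781116929) (nat_lit 1309671434) (.two (nat_lit 8388608) (nat_lit 47547679127) .nil)),
   .two (nat_lit 41943043) (nat_lit 158143086596) (.two (nat_lit 41943041) (nat_lit 1779433480) (.two (nat_lit 2097152) (nat_lit 166129041725) .nil)),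
   .two (nat_lit 4194306) (nat_lit 12114198532) (.two (nat_lit 4194305) (nat_lit 1913651216) (.two (nat_lit 1048576) (nat_lit 28693233858) (.one (nat_lit 104857972) .nil))),
   .two (nat_lit 13187940355) (nat_lit 1291845640) (.two (nat_lit 2097152) (nat_lit 183928619424) .nil),
   .two (nat_lit 10504634371) (nat_lit 1745879048) (.two (nat_lit 8388608) (nat_lit 10939793465) (.one (nat_lit 1049180) .nil)),
   .two (nat_lit 605028355) (nat_lit 166130089988) (.two (nat_lit 4194305) (nat_lit 13221494828) (.one (nat_lit 2097757) .nil)),
   .two (nat_lit 11559501827) (nat_lit 3525312520) (.two (nat_lit 16777216) (nat_lit 46508539969) (.one (nat_lit 2902458716) .nil)),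
   .two (nat_lit 4605345795) (nat_lit 12047089672) (.two (nat_lit 2097152) (nat_lit 10906239288) .nil),
   .two (nat_lit 11476664322) (nat_lit 159217876998) (.two (nat_lit 37748737) (nat_lit 185020186651) (.one (nat_lit 11544822132) .nil)),
   .two (nat_lit 8388610) (nat_lit 1916796936) (.two (nat_lit 16777216) (nat_lit 10338959667) .nil),
   .two (nat_lit 16777218) (nat_lit 12054429705) (.two (nat_lit 4194304) (nat_lit 4638900596) .nil),
   .two (nat_lit 159216828419) (nat_lit 20638072840) (.two (nat_lit 1048576) (nat_lit 156969730144) (.one (nat_lit 2097758) .nil)),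
   .two (nat_lit 169869314) (nat_lit 46984593412) (.two (nat_lit 34603009) (nat_lit 1344274447) (.two (nat_lit 1048576) (nat_lit 11517558843) (.one (nat_lit 1049183) .nil))),
   .two (nat_lit 2954887171) (nat_lit 158143086596) (.two (nat_lit 9766436865) (nat_lit 11577327641) (.one (nat_lit 1049007) .nil)),
   .two (nat_lit 4194306) (nat_lit 713031684) (.two (nat_lit 4194305) (nat_lit 11551113225) (.two (nat_lit 8388608) (nat_lit 1312817212) (.one (nat_lit 12624855348) .nil))),
   .two (nat_lit 16777218) (nat_lit 1175453700) (.two (nat_lit 8388609) (nat_lit 18925748232) (.two (nat_lit 8388608) (nat_lit 218103871) (.one (nat_lit 813695475) .nil))),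
   .two (nat_lit 620756995) (nat_lit 11577327625) (.two (nat_lit 16777216) (nat_lit 13221495124) .nil),
   .two (nat_lit 2097155) (nat_lit 1358954504) (.two (nat_lit 1048576) (nat_lit 9900654634) (.one (nat_lit 16777824) .nil)),
   .two (nat_lit 9768534019) (nat_lit 28758245382) (.two (nat_lit 50331649) (nat_lit 28087156787) (.one (nat_lit 4194913) .nil)),
   .two (nat_lit 41943043) (nat_lit 1191182342) (.two (nat_lit 16777217) (nat_lit 11618222116) (.one (nat_lit 20745027895) .nil)),
   .two (nat_lit 21778923523) (nat_lit 218103816) (.two (nat_lit 4194304) (nat_lit 10452205879) .nil),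
   .two (nat_lit 13191086083) (nat_lit 156365750282) (.two (nat_lit 4194304) (nat_lit 12148801596) (.one (nat_lit 21781020960) .nil)),
   .two (nat_lit 16777219) (nat_lit 21208498180) (.two (nat_lit 16777217) (nat_lit 9900654602) (.two (nat_lit 8388608) (nat_lit 2921333109) .nil)),
   .two (nat_lit 2956984323) (nat_lit 28087156746) (.two (nat_lit 1048576) (nat_lit 2350907775) .nil),
   .two (nat_lit 1847590915) (nat_lit 47555018776) (.one (nat_lit 10343153732) .nil),
   .two (nat_lit 4601151491) (nat_lit 174753579016) (.two (nat_lit 8388608) (nat_lit 304087375) .nil),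
   .two (nat_lit 4194306) (nat_lit 12114198532) (.two (nat_lit 9765388289) (nat_lit 4194313) (.two (nat_lit 4194304) (nat_lit 4027580476) (.one (nat_lit 157038936393) .nil))),
   .two (nat_lit 1276116994) (nat_lit 183848927240) (.two (nat_lit 1048576) (nat_lit 156468510772) (.one (nat_lit 775946589) .nil)),
   .two (nat_lit 75497475) (nat_lit 3525312516) (.two (nat_lit 612368385) (nat_lit 21778923531) (.two (nat_lit 4194304) (nat_lit 46481277028) (.one (nat_lit 2097764) .nil))),
   .two (nat_lit 16777219) (nat_lit 19093520407) (.two (nat_lit 2097152) (nat_lit 46406828149) (.one (nat_lit 10335813996) .nil)),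
   .two (nat_lit 739246083) (nat_lit 158144135176) (.two (nat_lit 1048576) (nat_lit 28758245415) (.one (nat_lit 9934209343) .nil)),
   .two (nat_lit 159217876995) (nat_lit 158143086598) (.two (nat_lit 156364701697) (nat_lit 675282992) (.one (nat_lit 4194737) .nil)),
   .two (nat_lit 605028355) (nat_lit 20644364292) (.two (nat_lit 34603009) (nat_lit 1849688072) (.two (nat_lit 8388608) (nat_lit 11610882104) (.one (nat_lit 4601151975) .nil))),
   .two (nat_lit 47555018755) (nat_lit 28693233668) (.two (nat_lit 9765388289) (nat_lit 1849688072) (.two (nat_lit 4194304) (nat_lit 8388730) (.one (nat_lit 8389222) .nil))),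
   .two (nat_lit 11543773187) (nat_lit 156539813895) (.two (nat_lit 620756993) (nat_lit 184986632288) (.one (nat_lit 1049191) .nil)),
   .two (nat_lit 9948889091) (nat_lit 4027580423) (.two (nat_lit 8388609) (nat_lit 158158815241) (.two (nat_lit 1048576) (nat_lit 2969567314) (.one (nat_lit 16777832) .nil))),
   .two (nat_lit 4599054339) (nat_lit 157043130378) (.two (nat_lit 2097152) (nat_lit 21214789925) .nil),
   .two (nat_lit 9948889091) (nat_lit 28690087944) (.two (nat_lit 4194304) (nat_lit 9933160783) .nil),
   .two (nat_lit 169869314) (nat_lit 156968681480) (.two (nat_lit 8388608) (nat_lit 174685421917) .nil),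
   .two (nat_lit 4605345795) (nat_lit 673185797) (.two (nat_lit 8388609) (nat_lit 1344274486) (.one (nat_lit 4028629340) .nil)),
   .two (nat_lit 101711875) (nat_lit 159217877000) (.two (nat_lit 1048576) (nat_lit 37314625630) (.one (nat_lit 1210057197) .nil)),
   .two (nat_lit 184549378) (nat_lit 20638072836) (.two (nat_lit 16777217) (nat_lit 158077026314) (.two (nat_lit 1048576) (nat_lit 28791800204) .nil)),
   .two (nat_lit 1343225859) (nat_lit 156365750276) (.two (nat_lit 2097153) (nat_lit 9866051592) (.two (nat_lit 16777216) (nat_lit 158143086962) .nil)),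
   .two (nat_lit 8388610) (nat_lit 158144135173) (.two (nat_lit 8388609) (nat_lit 11611930672) (.one (nat_lit 1411383622) .nil)),
   .two (nat_lit 8388610) (nat_lit 35651591) (.two (nat_lit 9766436865) (nat_lit 183949590547) (.two (nat_lit 2097152) (nat_lit 10372513837) (.one (nat_lit 174688567884) .nil))),
   .two (nat_lit 638582787) (nat_lit 83886107) (.one (nat_lit 16777834) .nil),
   .two (nat_lit 11559501827) (nat_lit 9867100168) (.two (nat_lit 16777216) (nat_lit 20638072885) (.one (nat_lit 156535620063) .nil)),
   .two (nat_lit 2954887171) (nat_lit 19596836871) (.two (nat_lit 50331649) (nat_lit 20638072881) (.one (nat_lit 1049195) .nil)),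
   .two (nat_lit 1358954499) (nat_lit 19537068039) (.two (nat_lit 8388609) (nat_lit 46422556683) (.two (nat_lit 1048576) (nat_lit 9873391716) (.one (nat_lit 16777836) .nil))),
   .two (nat_lit 754974723) (nat_lit 9969860619) (.two (nat_lit 2097152) (nat_lit 158662131757) (.one (nat_lit 37247517182) .nil)),
   .two (nat_lit 117440515) (nat_lit 28690087940) (.two (nat_lit 620756993) (nat_lit 166129041417) (.two (nat_lit 4194304) (nat_lit 4598006115) .nil)),
   .two (nat_lit 3525312515) (nat_lit 135266309) (.two (nat_lit 2097153) (nat_lit 1846542352) (.two (nat_lit 2097152) (nat_lit 772800551) (.one (nat_lit 174753579383) .nil))),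
   .two (nat_lit 11476664322) (nat_lit 4599054343) (.two (nat_lit 50331649) (nat_lit 11476664328) (.two (nat_lit 16777216) (nat_lit 37246468178) (.one (nat_lit 1049197) .nil))),
   .two (nat_lit 4194306) (nat_lit 156566028294) (.two (nat_lit 8388609) (nat_lit 68157448) (.two (nat_lit 8388608) (nat_lit 1178599541) (.one (nat_lit 4194926) .nil))),
   .two (nat_lit 1343225859) (nat_lit 236978182) (.two (nat_lit 605028353) (nat_lit 1310720027) (.one (nat_lit 2097775) .nil)),
   .two (nat_lit 13191086083) (nat_lit 28086108164) (.two (nat_lit 37748737) (nat_lit 20637024265) (.two (nat_lit 1048576) (nat_lit 4194510) (.one (nat_lit 9765388579) .nil))),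
   .two (nat_lit 10385096707) (nat_lit 75497478) (.two (nat_lit 16777217) (nat_lit 813695023) (.one (nat_lit 8389232) .nil)),
   .two (nat_lit 171966467) (nat_lit 620756997) (.two (nat_lit 605028353) (nat_lit 11546918969) (.one (nat_lit 742392226) .nil)),
   .two (nat_lit 10939793411) (nat_lit 3558866971) (.one (nat_lit 12618563766) .nil),
   .two (nat_lit 4194306) (nat_lit 1846542344) (.two (nat_lit 16777216) (nat_lit 28690088285) .nil),
   .two (nat_lit 2954887171) (nat_lit 28690087940) (.two (nat_lit 156364701697) (nat_lit 2887778313) (.two (nat_lit 2097152) (nat_lit 1048783) (.one (nat_lit 772800866) .nil))),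
   .two (nat_lit 69206019) (nat_lit 184423546890) (.two (nat_lit 4194304) (nat_lit 156976021848) .nil),
   .two (nat_lit 713031682) (nat_lit 1913651208) (.two (nat_lit 1048576) (nat_lit 4605345817) (.one (nat_lit 165525061939) .nil)),
   .two (nat_lit 184549378) (nat_lit 1343225864) (.two (nat_lit 2097152) (nat_lit 839909668) .nil),
   .two (nat_lit 9933160451) (nat_lit 203423752) (.two (nat_lit 4194304) (nat_lit 46507491423) (.one (nat_lit 2097777) .nil)),
   .two (nat_lit 50331651) (nat_lit 19026411529) (.two (nat_lit 1048576) (nat_lit 2332033084) (.one (nat_lit 10503586136) .nil)),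
   .two (nat_lit 2954887171) (nat_lit 28086108164) (.two (nat_lit 9766436865) (nat_lit 2416967716) (.one (nat_lit 11577327993) .nil)),
   .two (nat_lit 270532611) (nat_lit 19130220550) (.two (nat_lit 2097153) (nat_lit 4194333) (.two (nat_lit 4194304) (nat_lit 807403637) (.one (nat_lit 639631982) .nil))),
   .two (nat_lit 705691650) (nat_lit 28087156744) (.two (nat_lit 16777216) (nat_lit 21207449940) .nil),
   .two (nat_lit 47548727299) (nat_lit 21207449608) (.two (nat_lit 4194304) (nat_lit 839909745) .nil),
   .two (nat_lit 203423747) (nat_lit 11559501829) (.two (nat_lit 16777217) (nat_lit 21208498201) (.one (nat_lit 2097725) .nil)),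
   .two (nat_lit 620756995) (nat_lit 21811429381) (.two (nat_lit 50331649) (nat_lit 20637024266) (.two (nat_lit 8388608) (nat_lit 166229705100) .nil)),
   .two (nat_lit 285212675) (nat_lit 1913651204) (.two (nat_lit 16777217) (nat_lit 2953838684) (.one (nat_lit 12633243983) .nil)),
   .two (nat_lit 3527409667) (nat_lit 21778923527) (.two (nat_lit 4194305) (nat_lit 83886088) (.two (nat_lit 2097152) (nat_lit 2956984377) (.one (nat_lit 1426063928) .nil))),
   .two (nat_lit 1358954499) (nat_lit 158075977732) (.two (nat_lit 9781116929) (nat_lit 20637024266) (.two (nat_lit 8388608) (nat_lit 166129041781) .nil)),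
   .two (nat_lit 1358954499) (nat_lit 272629768) (.two (nat_lit 16777216) (nat_lit 13224640551) (.one (nat_lit 46409974079) .nil)),
   .two (nat_lit 2887778306) (nat_lit 243269658) (.one (nat_lit 8389236) .nil),
   .two (nat_lit 8388610) (nat_lit 12163481618) (.two (nat_lit 2097152) (nat_lit 117440575) (.one (nat_lit 158662132232) .nil)),
   .two (nat_lit 183845781506) (nat_lit 21208498184) (.two (nat_lit 1048576) (nat_lit 706740272) (.one (nat_lit 165526110512) .nil)),
   .two (nat_lit 612368387) (nat_lit 165526110216) (.two (nat_lit 8388608) (nat_lit 10907287588) (.one (nat_lit 10443817365) .nil)),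
   .two (nat_lit 10343153667) (nat_lit 12129927179) (.two (nat_lit 8388608) (nat_lit 2936012916) (.one (nat_lit 1862271347) .nil)),
   .two (nat_lit 176160770) (nat_lit 3573547014) (.two (nat_lit 16777217) (nat_lit 158183981122) (.one (nat_lit 806355347) .nil)),
   .two (nat_lit 47555018755) (nat_lit 21777874950) (.two (nat_lit 4194305) (nat_lit 166129041416) (.two (nat_lit 4194304) (nat_lit 21777875313) .nil)),
   .two (nat_lit 47550824451) (nat_lit 3464495112) (.two (nat_lit 4194304) (nat_lit 4631560241) (.one (nat_lit 1049205) .nil)),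
   .two (nat_lit 270532611) (nat_lit 1178599428) (.two (nat_lit 2097153) (nat_lit 104857610) (.two (nat_lit 1048576) (nat_lit 9969860958) .nil)),
   .two (nat_lit 13187940355) (nat_lit 3464495108) (.two (nat_lit 2097153) (nat_lit 166129041416) (.two (nat_lit 2097152) (nat_lit 1317011832) .nil)),
   .two (nat_lit 713031683) (nat_lit 2988441606) (.two (nat_lit 2097153) (nat_lit 4638900247) (.two (nat_lit 8388608) (nat_lit 156533522552) (.one (nat_lit 270533222) .nil))),
   .two (nat_lit 203423747) (nat_lit 9806282758) (.two (nat_lit 2097153) (nat_lit 18933088276) (.two (nat_lit 16777216) (nat_lit 874512477) (.one (nat_lit 37320917592) .nil))),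
   .two (nat_lit 1913651203) (nat_lit 11559501832) (.two (nat_lit 1048576) (nat_lit 9915334705) (.one (nat_lit 21223178551) .nil)),
   .two (nat_lit 8388611) (nat_lit 2902458372) (.two (nat_lit 612368385) (nat_lit 3539992586) (.two (nat_lit 16777216) (nat_lit 8388817) (.one (nat_lit 16777848) .nil))),
   .two (nat_lit 1291845635) (nat_lit 9768534024) (.two (nat_lit 1048576) (nat_lit 339738936) .nil),
   .two (nat_lit 8388610) (nat_lit 158144135173) (.two (nat_lit 2097153) (nat_lit 176160783) (.two (nat_lit 1048576) (nat_lit 840958013) (.one (nat_lit 1182793908) .nil))),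
   .two (nat_lit 47555018755) (nat_lit 21777874950) (.two (nat_lit 156372041729) (nat_lit 46406828078) (.one (nat_lit 1276117425) .nil)),
   .two (nat_lit 41943043) (nat_lit 1191182344) (.two (nat_lit 16777216) (nat_lit 183853121561) (.one (nat_lit 75497865) .nil)),
   .two (nat_lit 10370416643) (nat_lit 18928893960) (.two (nat_lit 2097152) (nat_lit 10942939191) (.one (nat_lit 809501149) .nil)),
   .two (nat_lit 8388611) (nat_lit 303038471) (.two (nat_lit 16777217) (nat_lit 11510218798) (.one (nat_lit 166136382026) .nil)),
   .two (nat_lit 184986632195) (nat_lit 10538188805) (.two (nat_lit 156364701697) (nat_lit 3558866969) (.one (nat_lit 2097786) .nil)),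
   .two (nat_lit 83886083) (nat_lit 306184197) (.two (nat_lit 16777217) (nat_lit 2923429913) (.one (nat_lit 183848927633) .nil)),
   .two (nat_lit 2097155) (nat_lit 11492392968) (.two (nat_lit 1048576) (nat_lit 2954887235) (.one (nat_lit 4632609132) .nil)),
   .two (nat_lit 28758245379) (nat_lit 4601151496) (.two (nat_lit 2097152) (nat_lit 2923429932) (.one (nat_lit 2353004894) .nil)),
   .two (nat_lit 809500675) (nat_lit 1847590920) (.two (nat_lit 4194304) (nat_lit 158144135206) (.one (nat_lit 21814575443) .nil)),
   .two (nat_lit 2902458370) (nat_lit 11618222107) (.one (nat_lit 8389243) .nil),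
   .two (nat_lit 157038936067) (nat_lit 183845781512) (.two (nat_lit 2097152) (nat_lit 12047089690) (.one (nat_lit 1745879313) .nil)),
   .two (nat_lit 11479810050) (nat_lit 10343153669) (.two (nat_lit 37748737) (nat_lit 75497539) (.one (nat_lit 156573368688) .nil)),
   .two (nat_lit 8388610) (nat_lit 9934209028) (.two (nat_lit 606076929) (nat_lit 276824073) (.two (nat_lit 16777216) (nat_lit 1753219401) .nil)),
   .two (nat_lit 4194306) (nat_lit 9948889093) (.two (nat_lit 34603009) (nat_lit 272629827) (.one (nat_lit 46409974358) .nil)),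
   .two (nat_lit 1343225859) (nat_lit 165526110216) (.two (nat_lit 1048576) (nat_lit 1310720026) (.one (nat_lit 706740617) .nil)),
   .two (nat_lit 2097155) (nat_lit 176160776) (.two (nat_lit 8388608) (nat_lit 47548727359) (.one (nat_lit 9866051856) .nil)),
   .two (nat_lit 1358954499) (nat_lit 11006902279) (.two (nat_lit 8388609) (nat_lit 10385096712) (.two (nat_lit 1048576) (nat_lit 166203490399) (.one (nat_lit 46481277494) .nil))),
   .two (nat_lit 11476664322) (nat_lit 209715207) (.two (nat_lit 34603009) (nat_lit 176160776) (.two (nat_lit 4194304) (nat_lit 183845781600) (.one (nat_lit 9966715490) .nil))),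
   .two (nat_lit 1913651203) (nat_lit 165532401668) (.two (nat_lit 612368385) (nat_lit 166129041417) (.two (nat_lit 1048576) (nat_lit 1283457215) (.one (nat_lit 11510219148) .nil))),
   .two (nat_lit 2887778306) (nat_lit 159216828422) (.two (nat_lit 16777217) (nat_lit 3020947538) (.one (nat_lit 1343226270) .nil)),
   .two (nat_lit 34603011) (nat_lit 50331656) (.two (nat_lit 2097152) (nat_lit 46489665593) (.one (nat_lit 2097790) .nil)),
   .two (nat_lit 8388610) (nat_lit 10504634375) (.two (nat_lit 8388609) (nat_lit 28691136521) (.two (nat_lit 2097152) (nat_lit 10376708156) (.one (nat_lit 156976021917) .nil))),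
   .two (nat_lit 620756995) (nat_lit 10343153672) (.two (nat_lit 8388608) (nat_lit 1291845657) (.one (nat_lit 75497772) .nil)),
   .two (nat_lit 620756995) (nat_lit 13195280411) (.one (nat_lit 8389247) .nil),
   .two (nat_lit 2887778306) (nat_lit 12117344260) (.two (nat_lit 2097153) (nat_lit 12150898697) (.two (nat_lit 16777216) (nat_lit 156535619924) .nil)),
   .two (nat_lit 721420290) (nat_lit 2316304390) (.two (nat_lit 34603009) (nat_lit 37329305648) (.one (nat_lit 620757316) .nil)),
   .two (nat_lit 102760451) (nat_lit 239075351) (.two (nat_lit 8388608) (nat_lit 1379926133) (.one (nat_lit 166132187755) .nil)),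
   .two (nat_lit 1276116994) (nat_lit 1753219080) (.two (nat_lit 1048576) (nat_lit 1954545748) (.one (nat_lit 176161094) .nil)),
   .two (nat_lit 16777218) (nat_lit 3527409685) (.two (nat_lit 1048576) (nat_lit 1929379901) (.one (nat_lit 754975051) .nil)),
   .two (nat_lit 9881780227) (nat_lit 19596836872) (.two (nat_lit 8388608) (nat_lit 156481093929) .nil),
   .two (nat_lit 721420290) (nat_lit 1277165576) (.two (nat_lit 1048576) (nat_lit 19530776872) .nil),
   .two (nat_lit 713031682) (nat_lit 157038936068) (.two (nat_lit 4194305) (nat_lit 3531603980) (.two (nat_lit 2097152) (nat_lit 809501067) .nil)),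
   .two (nat_lit 8388611) (nat_lit 185002360836) (.two (nat_lit 8388609) (nat_lit 20719861770) (.two (nat_lit 2097152) (nat_lit 2357198892) (.one (nat_lit 889192998) .nil))),
   .two (nat_lit 169869314) (nat_lit 184993972228) (.two (nat_lit 2097153) (nat_lit 3565158412) (.two (nat_lit 16777216) (nat_lit 10001317955) (.one (nat_lit 2097792) .nil))),
   .two (nat_lit 809500675) (nat_lit 183845781508) (.two (nat_lit 37748737) (nat_lit 12047089672) (.two (nat_lit 1048576) (nat_lit 11580473402) (.one (nat_lit 159217877406) .nil))),
   .two (nat_lit 2902458371) (nat_lit 157038936072) (.two (nat_lit 4194304) (nat_lit 2969567257) (.one (nat_lit 158079123808) .nil)),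
   .two (nat_lit 16777218) (nat_lit 20738736134) (.two (nat_lit 50331649) (nat_lit 4599054350) (.two (nat_lit 1048576) (nat_lit 9915334751) (.one (nat_lit 18941477044) .nil))),
   .two (nat_lit 21778923523) (nat_lit 11577327621) (.two (nat_lit 37748737) (nat_lit 2418016322) (.one (nat_lit 9967763792) .nil)),
   .two (nat_lit 4194306) (nat_lit 10503585797) (.two (nat_lit 4194305) (nat_lit 101711931) (.one (nat_lit 4631560731) .nil)),
   .two (nat_lit 4194306) (nat_lit 37320916997) (.two (nat_lit 41943041) (nat_lit 9881780277) (.one (nat_lit 16777858) .nil)),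
   .two (nat_lit 4194306) (nat_lit 158083317768) (.two (nat_lit 2097152) (nat_lit 159253528971) .nil),
   .two (nat_lit 19596836867) (nat_lit 1795162127) (.two (nat_lit 1048576) (nat_lit 10452205614) (.one (nat_lit 620757399) .nil)),
   .two (nat_lit 50331651) (nat_lit 174752530436) (.two (nat_lit 50331649) (nat_lit 165525061642) (.two (nat_lit 1048576) (nat_lit 37262196796) (.one (nat_lit 19142803851) .nil))),
   .two (nat_lit 46980399107) (nat_lit 12114198543) (.two (nat_lit 4194304) (nat_lit 13221494830) (.one (nat_lit 185020186917) .nil)),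
   .two (nat_lit 203423747) (nat_lit 11580473351) (.two (nat_lit 2097153) (nat_lit 184419352584) (.two (nat_lit 16777216) (nat_lit 10504634435) (.one (nat_lit 2097795) .nil))),
   .two (nat_lit 11476664322) (nat_lit 276824075) (.two (nat_lit 4194304) (nat_lit 713032075) .nil),
   .two (nat_lit 9765388291) (nat_lit 46409973764) (.two (nat_lit 8388609) (nat_lit 4027580477) (.one (nat_lit 13187940732) .nil)),
   .two (nat_lit 158144135171) (nat_lit 166132187163) (.one (nat_lit 47550824759) .nil),
   .two (nat_lit 2894069763) (nat_lit 1178599432) (.two (nat_lit 1048576) (nat_lit 239075374) (.one (nat_lit 8389042) .nil)),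
   .two (nat_lit 158144135171) (nat_lit 10506731524) (.two (nat_lit 156365750273) (nat_lit 12050235492) (.one (nat_lit 4194949) .nil)),
   .two (nat_lit 16777218) (nat_lit 19532873736) (.two (nat_lit 2097152) (nat_lit 150995339) .nil),
   .two (nat_lit 16777219) (nat_lit 174753579013) (.two (nat_lit 2097153) (nat_lit 754974756) (.one (nat_lit 159266111787) .nil)),
   .two (nat_lit 47548727299) (nat_lit 9899606025) (.two (nat_lit 4194304) (nat_lit 37246468467) .nil),
   .two (nat_lit 171966467) (nat_lit 10336862212) (.two (nat_lit 34603009) (nat_lit 1379926118) (.one (nat_lit 1049223) .nil)),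
   .two (nat_lit 8388610) (nat_lit 174753579012) (.two (nat_lit 8388609) (nat_lit 166130089992) (.two (nat_lit 1048576) (nat_lit 165526110275) (.one (nat_lit 9967764096) .nil))),
   .two (nat_lit 4194306) (nat_lit 1847590916) (.two (nat_lit 4194305) (nat_lit 1277165576) (.two (nat_lit 1048576) (nat_lit 166130090051) (.one (nat_lit 2923430421) .nil))),
   .two (nat_lit 11479810051) (nat_lit 1358954504) (.two (nat_lit 16777216) (nat_lit 184419352601) (.one (nat_lit 1212154268) .nil)),
   .two (nat_lit 1913651203) (nat_lit 159224168453) (.two (nat_lit 9765388289) (nat_lit 156976021558) (.one (nat_lit 11584667973) .nil)),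
   .two (nat_lit 8388610) (nat_lit 3458203652) (.two (nat_lit 156365750273) (nat_lit 276824074) (.two (nat_lit 2097152) (nat_lit 19537068235) (.one (nat_lit 4632609187) .nil))),
   .two (nat_lit 9866051587) (nat_lit 12050235402) (.two (nat_lit 8388608) (nat_lit 1175453989) .nil),
   .two (nat_lit 2889875458) (nat_lit 9933160460) (.two (nat_lit 4194304) (nat_lit 1309671621) (.one (nat_lit 205521220) .nil)),
   .two (nat_lit 184993972227) (nat_lit 9799991306) (.two (nat_lit 8388608) (nat_lit 2097364) (.one (nat_lit 158653743397) .nil)),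
   .two (nat_lit 9948889091) (nat_lit 158649548811) (.two (nat_lit 16777216) (nat_lit 183916036163) (.one (nat_lit 104858016) .nil)),
   .two (nat_lit 166132187139) (nat_lit 46414168090) (.one (nat_lit 1283457380) .nil),
   .two (nat_lit 2097155) (nat_lit 166132187144) (.two (nat_lit 1048576) (nat_lit 205521275) .nil),
   .two (nat_lit 2969567235) (nat_lit 184419352584) (.two (nat_lit 16777216) (nat_lit 71303216) (.one (nat_lit 184419352900) .nil)),
   .two (nat_lit 4194306) (nat_lit 18925748232) (.two (nat_lit 4194304) (nat_lit 10369368125) (.one (nat_lit 1049225) .nil)),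
   .two (nat_lit 12047089667) (nat_lit 156533522437) (.two (nat_lit 605028353) (nat_lit 46474985497) (.one (nat_lit 740295203) .nil)),
   .two (nat_lit 8388610) (nat_lit 117440520) (.two (nat_lit 16777216) (nat_lit 12054429735) (.one (nat_lit 159232557363) .nil)),
   .two (nat_lit 612368387) (nat_lit 10338959364) (.two (nat_lit 41943041) (nat_lit 3527409672) (.two (nat_lit 16777216) (nat_lit 46409974130) .nil)),
   .two (nat_lit 34603011) (nat_lit 9781116932) (.two (nat_lit 2097153) (nat_lit 28086108219) (.one (nat_lit 3558867449) .nil)),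
   .two (nat_lit 639631363) (nat_lit 272629767) (.two (nat_lit 156367847425) (nat_lit 158177689609) (.two (nat_lit 2097152) (nat_lit 4194517) (.one (nat_lit 28087157109) .nil))),
   .two (nat_lit 174753579011) (nat_lit 1291845640) (.two (nat_lit 1048576) (nat_lit 10519314744) .nil),
   .two (nat_lit 739246083) (nat_lit 46414168077) (.two (nat_lit 1048576) (nat_lit 2357199033) .nil),
   .two (nat_lit 50331651) (nat_lit 159217876996) (.two (nat_lit 2097153) (nat_lit 185002360842) (.two (nat_lit 8388608) (nat_lit 9766437205) .nil)),
   .two (nat_lit 203423747) (nat_lit 28086108168) (.two (nat_lit 2097152) (nat_lit 165525061697) (.one (nat_lit 174752530802) .nil)),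
   .two (nat_lit 2902458370) (nat_lit 11007950858) (.two (nat_lit 2097152) (nat_lit 822083622) (.one (nat_lit 21793603937) .nil)),
   .two (nat_lit 10939793411) (nat_lit 21785214981) (.two (nat_lit 605028353) (nat_lit 20644364331) (.one (nat_lit 1853882888) .nil)),
   .two (nat_lit 184549379) (nat_lit 11577327639) (.two (nat_lit 4194304) (nat_lit 10939793530) (.one (nat_lit 174752530846) .nil)),
   .two (nat_lit 713031683) (nat_lit 19530776583) (.two (nat_lit 606076929) (nat_lit 4638900233) (.two (nat_lit 8388608) (nat_lit 11578376276) (.one (nat_lit 156472705379) .nil))),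
   .two (nat_lit 2954887171) (nat_lit 184986632199) (.two (nat_lit 9766436865) (nat_lit 202375252) (.one (nat_lit 166229705015) .nil)),
   .two (nat_lit 739246083) (nat_lit 612368388) (.two (nat_lit 34603009) (nat_lit 2961178633) (.two (nat_lit 1048576) (nat_lit 156472705108) (.one (nat_lit 1350566252) .nil))),
   .two (nat_lit 3525312515) (nat_lit 13224640522) (.two (nat_lit 4194304) (nat_lit 159251431463) (.one (nat_lit 19530776868) .nil)),
   .two (nat_lit 2954887171) (nat_lit 184986632199) (.two (nat_lit 8388609) (nat_lit 638582897) (.one (nat_lit 1049231) .nil)),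
   .two (nat_lit 21777874947) (nat_lit 1216348187) (.one (nat_lit 8389264) .nil),
   .two (nat_lit 41943043) (nat_lit 47582281737) (.two (nat_lit 8388608) (nat_lit 183913939022) (.one (nat_lit 21208498547) .nil)),
   .two (nat_lit 2889875458) (nat_lit 156968681487) (.two (nat_lit 4194304) (nat_lit 1048702) (.one (nat_lit 1049233) .nil)),
   .two (nat_lit 9866051587) (nat_lit 13195280392) (.two (nat_lit 1048576) (nat_lit 4605345830) (.one (nat_lit 780140893) .nil)),
   .two (nat_lit 612368387) (nat_lit 157038936069) (.two (nat_lit 41943041) (nat_lit 166132187161) (.one (nat_lit 1346371770) .nil)),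
   .two (nat_lit 2954887171) (nat_lit 28086108164) (.two (nat_lit 2097153) (nat_lit 20637024265) (.two (nat_lit 2097152) (nat_lit 2416967716) (.one (nat_lit 1049235) .nil))),
   .two (nat_lit 9948889091) (nat_lit 1175453704) (.two (nat_lit 1048576) (nat_lit 20719861816) (.one (nat_lit 19537068410) .nil)),
   .two (nat_lit 41943043) (nat_lit 19596836872) (.two (nat_lit 8388608) (nat_lit 2987393210) .nil),
   .two (nat_lit 8388610) (nat_lit 605028358) (.two (nat_lit 4194305) (nat_lit 1175453704) (.two (nat_lit 4194304) (nat_lit 13187940452) (.one (nat_lit 746586666) .nil))),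
   .two (nat_lit 2097155) (nat_lit 612368388) (.two (nat_lit 34603009) (nat_lit 166130090043) (.one (nat_lit 672137731) .nil)),
   .two (nat_lit 713031682) (nat_lit 20638072840) (.two (nat_lit 8388608) (nat_lit 102760497) (.one (nat_lit 19597885732) .nil)),
   .two (nat_lit 46978301955) (nat_lit 1376780293) (.two (nat_lit 620756993) (nat_lit 11577327641) (.one (nat_lit 1049236) .nil)),
   .two (nat_lit 620756995) (nat_lit 739246087) (.two (nat_lit 50331649) (nat_lit 20637024266) (.two (nat_lit 8388608) (nat_lit 10906239300) .nil)),
   .two (nat_lit 8388611) (nat_lit 185020186633) (.two (nat_lit 8388608) (nat_lit 158176641093) (.one (nat_lit 158646403443) .nil)),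
   .two (nat_lit 11492392963) (nat_lit 639631368) (.two (nat_lit 4194304) (nat_lit 1411383664) .nil),
   .two (nat_lit 184549378) (nat_lit 3460300822) (.two (nat_lit 2097152) (nat_lit 2353004601) (.one (nat_lit 11546919396) .nil)),
   .two (nat_lit 9866051587) (nat_lit 1417674758) (.two (nat_lit 34603009) (nat_lit 183920230447) (.one (nat_lit 19604177262) .nil)),
   .two (nat_lit 1291845635) (nat_lit 136314902) (.two (nat_lit 2097152) (nat_lit 3539992626) (.one (nat_lit 166144770428) .nil)),
   .two (nat_lit 169869314) (nat_lit 1753219080) (.two (nat_lit 8388608) (nat_lit 4632608822) (.one (nat_lit 157036839451) .nil)),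
   .two (nat_lit 159224168451) (nat_lit 46980399113) (.two (nat_lit 8388608) (nat_lit 46980399140) (.one (nat_lit 1312817517) .nil)),
   .two (nat_lit 705691650) (nat_lit 1847590921) (.two (nat_lit 1048576) (nat_lit 3558866980) (.one (nat_lit 165526110513) .nil)),
   .two (nat_lit 34603011) (nat_lit 4034920457) (.two (nat_lit 2097152) (nat_lit 713032083) .nil),
   .two (nat_lit 1779433475) (nat_lit 19532873736) (.two (nat_lit 1048576) (nat_lit 19029557274) (.one (nat_lit 183916036416) .nil)),
   .two (nat_lit 47555018755) (nat_lit 10504634372) (.two (nat_lit 156365750273) (nat_lit 20711473163) (.two (nat_lit 4194304) (nat_lit 10947133752) .nil)),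
   .two (nat_lit 705691650) (nat_lit 20738736137) (.two (nat_lit 1048576) (nat_lit 840958030) (.one (nat_lit 13188989344) .nil)),
   .two (nat_lit 4605345795) (nat_lit 9934209032) (.two (nat_lit 8388608) (nat_lit 19597885623) .nil),
   .two (nat_lit 16777218) (nat_lit 1379926027) (.two (nat_lit 1048576) (nat_lit 1426063419) (.one (nat_lit 168821208) .nil)),
   .two (nat_lit 47548727299) (nat_lit 13195280388) (.two (nat_lit 2097153) (nat_lit 166237044748) (.two (nat_lit 4194304) (nat_lit 165526110500) .nil)),
   .two (nat_lit 1913651203) (nat_lit 166144770070) (.two (nat_lit 1048576) (nat_lit 19545456766) (.one (nat_lit 16777881) .nil)),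
   .two (nat_lit 16777218) (nat_lit 156971827204) (.two (nat_lit 16777217) (nat_lit 1916796943) (.two (nat_lit 4194304) (nat_lit 19612565552) (.one (nat_lit 10385097100) .nil))),
   .two (nat_lit 2889875458) (nat_lit 1745879044) (.two (nat_lit 34603009) (nat_lit 239075338) (.two (nat_lit 4194304) (nat_lit 4631560276) (.one (nat_lit 34603313) .nil))),
   .two (nat_lit 10385096707) (nat_lit 612368392) (.two (nat_lit 2097152) (nat_lit 19537068401) .nil),
   .two (nat_lit 101711875) (nat_lit 184423546884) (.two (nat_lit 41943041) (nat_lit 1779433480) (.two (nat_lit 2097152) (nat_lit 12624855389) .nil)),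
   .two (nat_lit 9866051587) (nat_lit 156367847431) (.two (nat_lit 50331649) (nat_lit 1846542385) (.one (nat_lit 10439622967) .nil)),
   .two (nat_lit 8388610) (nat_lit 184986632200) (.two (nat_lit 8388608) (nat_lit 11577327641) (.one (nat_lit 672137584) .nil)),
   .two (nat_lit 10372513795) (nat_lit 304087052) (.two (nat_lit 8388608) (nat_lit 9766436910) (.one (nat_lit 4194972) .nil)),
   .two (nat_lit 184549378) (nat_lit 772800518) (.two (nat_lit 34603009) (nat_lit 184549384) (.two (nat_lit 16777216) (nat_lit 2953838670) (.one (nat_lit 46977253755) .nil))),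
   .two (nat_lit 9933160451) (nat_lit 218103812) (.two (nat_lit 4194305) (nat_lit 1410334766) (.one (nat_lit 721420931) .nil)),
   .two (nat_lit 176160770) (nat_lit 218103812) (.two (nat_lit 16777217) (nat_lit 12121538620) (.one (nat_lit 183861510459) .nil)),
   .two (nat_lit 9948889091) (nat_lit 4030726165) (.two (nat_lit 16777216) (nat_lit 11546918959) (.one (nat_lit 4194974) .nil)),
   .two (nat_lit 1291845635) (nat_lit 184993972232) (.two (nat_lit 2097152) (nat_lit 184993972250) (.one (nat_lit 156472705447) .nil)),
   .two (nat_lit 28093448195) (nat_lit 2969567241) (.two (nat_lit 8388608) (nat_lit 9948889124) (.one (nat_lit 687866221) .nil)),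
   .two (nat_lit 169869314) (nat_lit 184986632199) (.two (nat_lit 606076929) (nat_lit 202375252) (.one (nat_lit 165525061996) .nil)),
   .two (nat_lit 1344274435) (nat_lit 156372041736) (.two (nat_lit 4194304) (nat_lit 10370416693) (.one (nat_lit 2887778945) .nil)),
   .two (nat_lit 16777219) (nat_lit 235929607) (.two (nat_lit 16777217) (nat_lit 11610882065) (.two (nat_lit 4194304) (nat_lit 11525947487) (.one (nat_lit 285212853) .nil))),
   .two (nat_lit 2097155) (nat_lit 28693233668) (.two (nat_lit 2097153) (nat_lit 12150898697) (.two (nat_lit 1048576) (nat_lit 28793897373) .nil)),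
   .two (nat_lit 28690087939) (nat_lit 158083317768) (.two (nat_lit 1048576) (nat_lit 9873391673) (.one (nat_lit 185027527072) .nil)),
   .two (nat_lit 8388610) (nat_lit 11492392964) (.two (nat_lit 8388609) (nat_lit 12129927178) (.two (nat_lit 4194304) (nat_lit 1350566190) .nil)),
   .two (nat_lit 16777218) (nat_lit 46409973764) (.two (nat_lit 50331649) (nat_lit 3460300810) (.two (nat_lit 8388608) (nat_lit 46477083007) .nil)),
   .two (nat_lit 69206019) (nat_lit 4605345796) (.two (nat_lit 37748737) (nat_lit 19128123436) (.one (nat_lit 209715863) .nil)),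
   .two (nat_lit 21777874947) (nat_lit 18933088264) (.two (nat_lit 8388608) (nat_lit 2316304443) (.one (nat_lit 46523220382) .nil)),
   .two (nat_lit 169869314) (nat_lit 272629767) (.two (nat_lit 2097153) (nat_lit 742391817) (.two (nat_lit 16777216) (nat_lit 641728876) .nil)),
   .two (nat_lit 34603011) (nat_lit 47555018756) (.two (nat_lit 2097153) (nat_lit 20737687577) (.one (nat_lit 12054430027) .nil)),
   .two (nat_lit 605028355) (nat_lit 10007609349) (.two (nat_lit 34603009) (nat_lit 46510637081) (.one (nat_lit 9768534430) .nil)),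
   .two (nat_lit 16777218) (nat_lit 1779433499) (.one (nat_lit 1049251) .nil),
   .two (nat_lit 11492392963) (nat_lit 12048138251) (.two (nat_lit 16777216) (nat_lit 47548727363) (.one (nat_lit 157036839346) .nil)),
   .two (nat_lit 1344274435) (nat_lit 12047089672) (.two (nat_lit 8388608) (nat_lit 21778923884) .nil),
   .two (nat_lit 159224168451) (nat_lit 11543773192) (.two (nat_lit 8388608) (nat_lit 157035790518) .nil),
   .two (nat_lit 806354947) (nat_lit 13224640517) (.two (nat_lit 9765388289) (nat_lit 156466413615) (.one (nat_lit 1948254563) .nil)),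
   .two (nat_lit 50331651) (nat_lit 156372041732) (.two (nat_lit 8388609) (nat_lit 12129927177) (.two (nat_lit 4194304) (nat_lit 12129927582) .nil)),
   .two (nat_lit 21223178243) (nat_lit 1913651227) (.one (nat_lit 1049252) .nil),
   .two (nat_lit 9934209027) (nat_lit 9802088453) (.two (nat_lit 9766436865) (nat_lit 11513364505) (.one (nat_lit 19130220935) .nil)),
   .two (nat_lit 721420291) (nat_lit 10504634372) (.two (nat_lit 2097153) (nat_lit 1929379850) (.two (nat_lit 4194304) (nat_lit 673186146) .nil)),
   .two (nat_lit 713031683) (nat_lit 28086108164) (.two (nat_lit 41943041) (nat_lit 19529728010) (.two (nat_lit 1048576) (nat_lit 8388827) (.one (nat_lit 21777875359) .nil))),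
   .two (nat_lit 83886083) (nat_lit 11479810056) (.two (nat_lit 16777216) (nat_lit 28089253937) (.one (nat_lit 166232850743) .nil)),
   .two (nat_lit 10343153667) (nat_lit 16777224) (.two (nat_lit 8388608) (nat_lit 184549417) (.one (nat_lit 28101837091) .nil)),
   .two (nat_lit 8388610) (nat_lit 3527409668) (.two (nat_lit 41943041) (nat_lit 3560964105) (.two (nat_lit 16777216) (nat_lit 12620661139) .nil)),
   .two (nat_lit 158083317763) (nat_lit 183848927240) (.two (nat_lit 8388608) (nat_lit 708837433) (.one (nat_lit 37749154) .nil)),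
   .two (nat_lit 184549378) (nat_lit 18933088260) (.two (nat_lit 41943041) (nat_lit 2969567240) (.two (nat_lit 1048576) (nat_lit 3036676466) .nil)),
   .two (nat_lit 620756995) (nat_lit 11577327622) (.two (nat_lit 34603009) (nat_lit 620757000) (.two (nat_lit 8388608) (nat_lit 1376780636) .nil)),
   .two (nat_lit 28086108163) (nat_lit 159224168456) (.two (nat_lit 1048576) (nat_lit 183920230446) (.one (nat_lit 13195280677) .nil)),
   .two (nat_lit 809500675) (nat_lit 19027460102) (.two (nat_lit 2097153) (nat_lit 174755676172) (.two (nat_lit 16777216) (nat_lit 1948254330) (.one (nat_lit 2097835) .nil))),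
   .two (nat_lit 4194306) (nat_lit 47555018760) (.two (nat_lit 8388608) (nat_lit 339738677) (.one (nat_lit 2353004925) .nil)),
   .two (nat_lit 8388610) (nat_lit 184986632196) (.two (nat_lit 605028353) (nat_lit 813694986) (.two (nat_lit 16777216) (nat_lit 11476664359) (.one (nat_lit 1049260) .nil))),
   .two (nat_lit 1277165570) (nat_lit 34603015) (.two (nat_lit 4194305) (nat_lit 1277165576) (.two (nat_lit 1048576) (nat_lit 46409973840) (.one (nat_lit 9766437476) .nil))),
   .two (nat_lit 612368387) (nat_lit 157035790342) (.two (nat_lit 16777217) (nat_lit 19100860427) (.two (nat_lit 1048576) (nat_lit 9781116991) (.one (nat_lit 16777901) .nil))),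
   .two (nat_lit 20644364291) (nat_lit 12150898699) (.two (nat_lit 2097152) (nat_lit 156535619653) (.one (nat_lit 4194741) .nil)),
   .two (nat_lit 16777218) (nat_lit 46409973764) (.two (nat_lit 4194305) (nat_lit 20719861771) (.two (nat_lit 2097152) (nat_lit 9869197744) .nil)),
   .two (nat_lit 705691650) (nat_lit 10370416644) (.two (nat_lit 41943041) (nat_lit 46977253423) (.one (nat_lit 605028696) .nil)),
   .two (nat_lit 272629763) (nat_lit 101711876) (.two (nat_lit 4194305) (nat_lit 183912890377) (.two (nat_lit 16777216) (nat_lit 1346371989) .nil)),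
   .two (nat_lit 9948889091) (nat_lit 158649548811) (.two (nat_lit 1048576) (nat_lit 166211878968) (.one (nat_lit 104858016) .nil)),
   .two (nat_lit 11543773187) (nat_lit 840957963) (.two (nat_lit 4194304) (nat_lit 12114198591) (.one (nat_lit 28691136949) .nil)),
   .two (nat_lit 174752530435) (nat_lit 156548202507) (.two (nat_lit 1048576) (nat_lit 11525947497) (.one (nat_lit 19109249440) .nil)),
   .two (nat_lit 46414168067) (nat_lit 3573547028) (.two (nat_lit 8388608) (nat_lit 12062818487) .nil),
   .two (nat_lit 8388610) (nat_lit 9934209028) (.two (nat_lit 8388609) (nat_lit 184417255484) (.one (nat_lit 174692761999) .nil)),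
   .two (nat_lit 8388610) (nat_lit 12047089668) (.two (nat_lit 8388609) (nat_lit 184416206856) (.two (nat_lit 8388608) (nat_lit 235929678) (.one (nat_lit 12047090013) .nil))),
   .two (nat_lit 16777219) (nat_lit 11476664328) (.two (nat_lit 16777216) (nat_lit 165525061678) (.one (nat_lit 2097839) .nil)),
   .two (nat_lit 2097155) (nat_lit 157038936072) (.two (nat_lit 2097152) (nat_lit 2319450438) .nil),
   .two (nat_lit 159217876995) (nat_lit 46980399112) (.two (nat_lit 2097152) (nat_lit 708837425) (.one (nat_lit 2353004856) .nil)),
   .two (nat_lit 639631363) (nat_lit 156465364998) (.two (nat_lit 606076929) (nat_lit 672137263) (.one (nat_lit 20637024622) .nil)),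
   .two (nat_lit 16777218) (nat_lit 46409973764) (.two (nat_lit 8388609) (nat_lit 165528207404) (.one (nat_lit 1346371934) .nil)),
   .two (nat_lit 1745879043) (nat_lit 754974746) (.one (nat_lit 4043309412) .nil),
   .two (nat_lit 612368387) (nat_lit 4601151496) (.two (nat_lit 8388608) (nat_lit 2923429929) (.one (nat_lit 37316722988) .nil)),
   .two (nat_lit 4194306) (nat_lit 166196150277) (.two (nat_lit 4194305) (nat_lit 739246099) (.two (nat_lit 4194304) (nat_lit 20704133159) (.one (nat_lit 156566028614) .nil))),
   .two (nat_lit 4601151491) (nat_lit 174753579012) (.two (nat_lit 4194305) (nat_lit 158077026314) (.two (nat_lit 8388608) (nat_lit 1176502563) .nil)),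
   .two (nat_lit 9768534019) (nat_lit 880803845) (.two (nat_lit 37748737) (nat_lit 11618222105) (.one (nat_lit 4605346122) .nil)),
   .two (nat_lit 809500675) (nat_lit 620756997) (.two (nat_lit 9781116929) (nat_lit 11513364505) (.one (nat_lit 4194992) .nil)),
   .two (nat_lit 169869314) (nat_lit 28086108164) (.two (nat_lit 2097153) (nat_lit 158646403081) (.two (nat_lit 8388608) (nat_lit 10537140545) .nil)),
   .two (nat_lit 1276116994) (nat_lit 270532615) (.two (nat_lit 41943041) (nat_lit 1779433480) (.two (nat_lit 1048576) (nat_lit 46481276983) (.one (nat_lit 8389298) .nil))),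
   .two (nat_lit 11543773187) (nat_lit 158144135172) (.two (nat_lit 34603009) (nat_lit 1277165576) (.two (nat_lit 1048576) (nat_lit 12115247182) (.one (nat_lit 20705182066) .nil))),
   .two (nat_lit 3464495107) (nat_lit 19530776584) (.two (nat_lit 8388608) (nat_lit 3021996079) (.one (nat_lit 4599054691) .nil)),
   .two (nat_lit 270532611) (nat_lit 11492392968) (.two (nat_lit 1048576) (nat_lit 1746927732) (.one (nat_lit 4632609139) .nil)),
   .two (nat_lit 639631363) (nat_lit 158083317768) (.two (nat_lit 16777216) (nat_lit 2921332782) (.one (nat_lit 8389300) .nil)),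
   .two (nat_lit 11559501827) (nat_lit 2416967685) (.two (nat_lit 605028353) (nat_lit 3539992641) (.one (nat_lit 156548202802) .nil)),
   .two (nat_lit 1276116994) (nat_lit 46978301956) (.two (nat_lit 2097153) (nat_lit 1779433480) (.two (nat_lit 2097152) (nat_lit 12147752998) (.one (nat_lit 1048972) .nil))),
   .two (nat_lit 37748740) (nat_lit 101711876) (.two (nat_lit 4194306) (nat_lit 11476664328) (.two (nat_lit 2097153) (nat_lit 2953838667) (.two (nat_lit 2097152) (nat_lit 168821010) (.one (nat_lit 1049273) .nil)))),
   .two (nat_lit 37748740) (nat_lit 1175453700) (.two (nat_lit 4194306) (nat_lit 739246089) (.two (nat_lit 4194305) (nat_lit 1343225931) (.two (nat_lit 4194304) (nat_lit 1343226128) (.one (nat_lit 68158136) .nil)))),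
   .two (nat_lit 4194308) (nat_lit 8388616) (.two (nat_lit 4194305) (nat_lit 739246106) (.two (nat_lit 4194304) (nat_lit 101711940) (.one (nat_lit 11543773879) .nil))),
   .two (nat_lit 1343225860) (nat_lit 639631366) (.two (nat_lit 41943043) (nat_lit 705691656) (.two (nat_lit 41943041) (nat_lit 11543773210) (.two (nat_lit 8388608) (nat_lit 11543773363) (.one (nat_lit 9934209729) .nil)))),
   .two (nat_lit 2954887172) (nat_lit 1779433482) (.two (nat_lit 2097153) (nat_lit 1343225883) (.two (nat_lit 8388608) (nat_lit 2954887607) .nil)),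
   .two (nat_lit 83886084) (nat_lit 1753219080) (.two (nat_lit 41943041) (nat_lit 1358954564) (.one (nat_lit 3573547744) .nil)),
   .two (nat_lit 2969567236) (nat_lit 20644364296) (.two (nat_lit 16777217) (nat_lit 1317011482) (.two (nat_lit 8388608) (nat_lit 654311492) (.one (nat_lit 10913579447) .nil))),
   .two (nat_lit 620756996) (nat_lit 165532401672) (.two (nat_lit 612368385) (nat_lit 9948889156) (.one (nat_lit 37329306336) .nil)),
   .two (nat_lit 11479810052) (nat_lit 9881780232) (.two (nat_lit 37748737) (nat_lit 28101836851) (.two (nat_lit 16777216) (nat_lit 12117344324) (.one (nat_lit 318767545) .nil))),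
   .two (nat_lit 612368388) (nat_lit 19599982600) (.two (nat_lit 8388609) (nat_lit 1916796996) (.one (nat_lit 10942939873) .nil)),
   .two (nat_lit 11559501828) (nat_lit 158083317768) (.two (nat_lit 50331649) (nat_lit 9906946074) (.two (nat_lit 16777216) (nat_lit 156539814226) (.one (nat_lit 2323644855) .nil))),
   .two (nat_lit 9768534020) (nat_lit 1291845640) (.two (nat_lit 4194305) (nat_lit 165540790323) (.two (nat_lit 16777216) (nat_lit 10506731588) (.one (nat_lit 855638457) .nil))),
   .two (nat_lit 46980399108) (nat_lit 10913579014) (.two (nat_lit 47555018755) (nat_lit 157038936072) (.two (nat_lit 8388609) (nat_lit 104857785) (.one (nat_lit 9881781014) .nil))),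
   .two (nat_lit 46414168068) (nat_lit 19027460105) (.two (nat_lit 8388609) (nat_lit 11477712947) (.two (nat_lit 2097152) (nat_lit 13195280452) (.one (nat_lit 10001318329) .nil))),
   .two (nat_lit 218103812) (nat_lit 9940500484) (.two (nat_lit 176160770) (nat_lit 218103816) (.two (nat_lit 16777217) (nat_lit 9974054950) (.two (nat_lit 4194304) (nat_lit 21793603902) (.one (nat_lit 1929380645) .nil)))),
   .two (nat_lit 176160772) (nat_lit 10385096712) (.two (nat_lit 620756993) (nat_lit 47555018820) (.one (nat_lit 8389421) .nil)),
   .two (nat_lit 19532873732) (nat_lit 9806282758) (.two (nat_lit 9873391619) (nat_lit 654311451) (.two (nat_lit 4194304) (nat_lit 18941477046) (.one (nat_lit 1413481189) .nil))),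
   .two (nat_lit 37748740) (nat_lit 11559501832) (.two (nat_lit 2097153) (nat_lit 46980399154) (.two (nat_lit 16777216) (nat_lit 3525312804) (.one (nat_lit 11022631625) .nil))),
   .two (nat_lit 11559501828) (nat_lit 156968681480) (.two (nat_lit 9765388289) (nat_lit 285212697) (.two (nat_lit 1048576) (nat_lit 185002361013) (.one (nat_lit 165540791044) .nil))),
   .two (nat_lit 3539992580) (nat_lit 19532873736) (.two (nat_lit 9768534017) (nat_lit 47596961860) (.one (nat_lit 20753417000) .nil)),
   .two (nat_lit 721420292) (nat_lit 10939793412) (.two (nat_lit 620756995) (nat_lit 156968681480) (.two (nat_lit 50331649) (nat_lit 19529728053) (.two (nat_lit 1048576) (nat_lit 16777284) (.one (nat_lit 13237224161) .nil)))),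
   .two (nat_lit 2902458372) (nat_lit 157038936072) (.two (nat_lit 4194305) (nat_lit 2969567300) (.one (nat_lit 11525948176) .nil)),
   .two (nat_lit 754974724) (nat_lit 166132187140) (.two (nat_lit 11559501827) (nat_lit 21781020684) (.two (nat_lit 50331649) (nat_lit 158079123507) (.two (nat_lit 1048576) (nat_lit 4194745) .nil))),
   .two (nat_lit 218103812) (nat_lit 159224168456) (.two (nat_lit 8388609) (nat_lit 166245433371) (.two (nat_lit 2097152) (nat_lit 10552869303) .nil)),
   .two (nat_lit 276824068) (nat_lit 9781116932) (.two (nat_lit 2902458370) (nat_lit 166203490315) (.two (nat_lit 16777217) (nat_lit 20711473212) (.two (nat_lit 1048576) (nat_lit 1283457345) (.one (nat_lit 336593616) .nil)))),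
   .two (nat_lit 1178599428) (nat_lit 1358954504) (.two (nat_lit 50331649) (nat_lit 1916796996) (.one (nat_lit 675283679) .nil)),
   .two (nat_lit 654311428) (nat_lit 10506731526) (.two (nat_lit 2902458370) (nat_lit 166132187144) (.two (nat_lit 16777217) (nat_lit 1749024834) (.two (nat_lit 1048576) (nat_lit 4601151783) (.one (nat_lit 12050236188) .nil)))),
   .two (nat_lit 2902458372) (nat_lit 174753579013) (.two (nat_lit 2902458370) (nat_lit 157036838920) (.two (nat_lit 2097153) (nat_lit 822083652) (.one (nat_lit 158158815977) .nil))),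
   .two (nat_lit 21793603588) (nat_lit 1753219080) (.two (nat_lit 41943041) (nat_lit 21827158084) (.one (nat_lit 285213452) .nil)),
   .two (nat_lit 620756996) (nat_lit 10343153669) (.two (nat_lit 156372041731) (nat_lit 620757000) (.two (nat_lit 41943041) (nat_lit 9948889156) (.one (nat_lit 183962174235) .nil))),
   .two (nat_lit 3539992580) (nat_lit 159224168453) (.two (nat_lit 612368387) (nat_lit 654311432) (.two (nat_lit 16777217) (nat_lit 20644364313) (.two (nat_lit 1048576) (nat_lit 243269812) (.one (nat_lit 12633244404) .nil)))),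
   .two (nat_lit 2961178628) (nat_lit 9781116932) (.two (nat_lit 2902458371) (nat_lit 10369368072) (.two (nat_lit 8388609) (nat_lit 20637024312) (.two (nat_lit 1048576) (nat_lit 20711473457) (.one (nat_lit 184993972996) .nil)))),
   .two (nat_lit 1358954500) (nat_lit 10939793416) (.two (nat_lit 9765388289) (nat_lit 9948889156) (.one (nat_lit 19142804234) .nil)),
   .two (nat_lit 4605345796) (nat_lit 10942939144) (.two (nat_lit 9768534017) (nat_lit 8388675) (.two (nat_lit 4194304) (nat_lit 209715497) (.one (nat_lit 318767823) .nil))),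
   .two (nat_lit 16777220) (nat_lit 156372041733) (.two (nat_lit 10343153667) (nat_lit 822083592) (.two (nat_lit 612368385) (nat_lit 285212740) (.one (nat_lit 16778030) .nil))),
   .two (nat_lit 184549380) (nat_lit 165532401672) (.two (nat_lit 612368385) (nat_lit 2969567300) (.one (nat_lit 318767852) .nil)),
   .two (nat_lit 9948889092) (nat_lit 46984593412) (.two (nat_lit 620756995) (nat_lit 166129041416) (.two (nat_lit 50331649) (nat_lit 156532473900) (.two (nat_lit 1048576) (nat_lit 1929380172) (.one (nat_lit 739246812) .nil)))),
   .two (nat_lit 46407876612) (nat_lit 19142803462) (.two (nat_lit 117440515) (nat_lit 183845781512) (.two (nat_lit 156372041729) (nat_lit 1780482230) (.one (nat_lit 1310720763) .nil))),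
   .two (nat_lit 47563407364) (nat_lit 10343153669) (.two (nat_lit 1291845634) (nat_lit 174752530440) (.two (nat_lit 41943041) (nat_lit 47596961860) (.one (nat_lit 9814672146) .nil))),
   .two (nat_lit 184416206852) (nat_lit 156581756934) (.two (nat_lit 9781116931) (nat_lit 184416206856) (.two (nat_lit 34603009) (nat_lit 156581756966) (.two (nat_lit 8388608) (nat_lit 19596837043) (.one (nat_lit 788529902) .nil)))),
   .two (nat_lit 9768534020) (nat_lit 1291845640) (.two (nat_lit 620756993) (nat_lit 11580473527) (.one (nat_lit 165528208117) .nil)),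
   .two (nat_lit 1847590916) (nat_lit 21827158022) (.two (nat_lit 1358954499) (nat_lit 1847590920) (.two (nat_lit 620756993) (nat_lit 10437525530) (.two (nat_lit 4194304) (nat_lit 2350907571) (.one (nat_lit 46978302715) .nil)))),
   .two (nat_lit 11559501828) (nat_lit 28086108168) (.two (nat_lit 605028353) (nat_lit 50331716) (.one (nat_lit 150995739) .nil)),
   .two (nat_lit 1350565892) (nat_lit 174753579013) (.two (nat_lit 165526110211) (nat_lit 184993972232) (.two (nat_lit 2097153) (nat_lit 780140588) (.two (nat_lit 4194304) (nat_lit 19128123573) (.one (nat_lit 174759871235) .nil)))),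
   .two (nat_lit 1849688068) (nat_lit 20704133125) (.two (nat_lit 9866051587) (nat_lit 19532873736) (.two (nat_lit 34603009) (nat_lit 156535619652) (.one (nat_lit 2956985095) .nil))),
   .two (nat_lit 41943044) (nat_lit 159217876996) (.two (nat_lit 8388610) (nat_lit 9934209032) (.two (nat_lit 8388609) (nat_lit 159251431492) (.one (nat_lit 11578376973) .nil))),
   .two (nat_lit 50331652) (nat_lit 3460300804) (.two (nat_lit 822083587) (nat_lit 20637024264) (.two (nat_lit 605028353) (nat_lit 166144770108) (.two (nat_lit 1048576) (nat_lit 1291845948) (.one (nat_lit 19127075533) .nil)))),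
   .two (nat_lit 2887778308) (nat_lit 156372041732) (.two (nat_lit 270532611) (nat_lit 46984593417) (.two (nat_lit 2097153) (nat_lit 10503585833) (.two (nat_lit 1048576) (nat_lit 21214789973) (.one (nat_lit 135267062) .nil)))),
   .two (nat_lit 50331652) (nat_lit 10504634376) (.two (nat_lit 16777217) (nat_lit 11007950916) (.one (nat_lit 2317353736) .nil)),
   .two (nat_lit 1291845636) (nat_lit 1847590920) (.two (nat_lit 620756993) (nat_lit 10437525530) (.two (nat_lit 2097152) (nat_lit 1358954564) (.one (nat_lit 2350907831) .nil))),
   .two (nat_lit 2902458372) (nat_lit 166130089992) (.two (nat_lit 16777217) (nat_lit 166130090010) (.two (nat_lit 2097152) (nat_lit 9781116996) (.one (nat_lit 19530777015) .nil))),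
   .two (nat_lit 21207449604) (nat_lit 1849688068) (.two (nat_lit 1782579203) (nat_lit 21207449608) (.two (nat_lit 605028353) (nat_lit 166132187161) (.two (nat_lit 1048576) (nat_lit 156535619652) (.one (nat_lit 28693234443) .nil)))),
   .two (nat_lit 16777220) (nat_lit 1913651208) (.two (nat_lit 16777217) (nat_lit 184416206875) (.two (nat_lit 16777216) (nat_lit 2416967748) (.one (nat_lit 1049391) .nil))),
   .two (nat_lit 809500676) (nat_lit 1745879048) (.two (nat_lit 4194305) (nat_lit 184986632219) (.two (nat_lit 16777216) (nat_lit 166199296441) .nil)),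
   .two (nat_lit 11559501828) (nat_lit 28093448198) (.two (nat_lit 721420290) (nat_lit 1753219080) (.two (nat_lit 41943041) (nat_lit 117440580) (.one (nat_lit 11492393763) .nil))),
   .two (nat_lit 8388612) (nat_lit 68157444) (.two (nat_lit 8388610) (nat_lit 1343225864) (.two (nat_lit 4194305) (nat_lit 739246106) (.two (nat_lit 4194304) (nat_lit 101711940) (.one (nat_lit 28086108900) .nil)))),
   .two (nat_lit 1358954499) (nat_lit 3525312515) (.two (nat_lit 2097153) (nat_lit 721420298) (.one (nat_lit 270532689) .nil)),
   .two (nat_lit 13195280387) (nat_lit 47550824451) (.two (nat_lit 4194305) (nat_lit 184993972265) .nil),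
   .two (nat_lit 11476664322) (nat_lit 28089253891) (.two (nat_lit 37748737) (nat_lit 156465365033) .nil),
   .two (nat_lit 11543773187) (nat_lit 18933088266) (.one (nat_lit 1048820) .nil),
   .two (nat_lit 176160770) (nat_lit 1325400130) .nil,
   .two (nat_lit 41943043) (nat_lit 28086108168) (.one (nat_lit 20737687766) .nil),
   .two (nat_lit 16777219) (nat_lit 20704133130) (.one (nat_lit 9881780434) .nil),
   .two (nat_lit 11559501827) (nat_lit 1779433475) (.two (nat_lit 34603009) (nat_lit 46992982108) .nil),
   .two (nat_lit 12114198531) (nat_lit 46409973762) (.two (nat_lit 4194305) (nat_lit 873463936) .nil),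
   .two (nat_lit 9934209027) (nat_lit 1276116994) (.two (nat_lit 605028353) (nat_lit 9867100170) (.one (nat_lit 28087156931) .nil)),
   .two (nat_lit 721420290) (nat_lit 809500687) (.one (nat_lit 12150898773) .nil),
   .two (nat_lit 9765388291) (nat_lit 158144135171) (.two (nat_lit 606076929) (nat_lit 166196150277) (.two (nat_lit 8388608) (nat_lit 19127074879) .nil)),
   .two (nat_lit 50331651) (nat_lit 1384120387) .nil,
   .two (nat_lit 2902458370) (nat_lit 773849116) (.one (nat_lit 2988441844) .nil),
   .two (nat_lit 2902458371) (nat_lit 10343153679) (.one (nat_lit 2323644501) .nil),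
   .two (nat_lit 11559501827) (nat_lit 156569174021) (.two (nat_lit 16777216) (nat_lit 138412120) .nil),
   .two (nat_lit 739246083) (nat_lit 1795162115) (.two (nat_lit 50331649) (nat_lit 20737687562) (.one (nat_lit 1048837) .nil)),
   .two (nat_lit 2097155) (nat_lit 10343153707) .nil,
   .two (nat_lit 9768534019) (nat_lit 10504634383) (.one (nat_lit 156365750520) .nil),
   .two (nat_lit 11559501827) (nat_lit 13187940374) (.one (nat_lit 158176641158) .nil),
   .two (nat_lit 721420290) (nat_lit 158143086595) (.two (nat_lit 605028353) (nat_lit 9881780239) (.one (nat_lit 1191182540) .nil)),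
   .two (nat_lit 8388610) (nat_lit 2969567235) (.two (nat_lit 16777217) (nat_lit 4605345802) (.one (nat_lit 1862271021) .nil)),
   .two (nat_lit 28760342531) (nat_lit 2416967685) (.two (nat_lit 8388608) (nat_lit 1175453850) .nil),
   .two (nat_lit 83886083) (nat_lit 28790751238) (.two (nat_lit 1048576) (nat_lit 47596961811) (.one (nat_lit 4043309147) .nil)),
   .two (nat_lit 8388610) (nat_lit 46409973762) (.two (nat_lit 4194305) (nat_lit 183853121577) .nil),
   .two (nat_lit 9768534019) (nat_lit 28690087939) (.two (nat_lit 34603009) (nat_lit 28793897178) .nil),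
   .two (nat_lit 11476664322) (nat_lit 159224168451) (.two (nat_lit 34603009) (nat_lit 176160772) (.two (nat_lit 8388608) (nat_lit 4027580528) .nil)),
   .two (nat_lit 612368387) (nat_lit 20637024266) (.one (nat_lit 705691843) .nil),
   .two (nat_lit 75497475) (nat_lit 12047089667) (.two (nat_lit 34603009) (nat_lit 21785214981) (.two (nat_lit 16777216) (nat_lit 9940500543) .nil)),
   .two (nat_lit 156372041731) (nat_lit 165526110211) (.two (nat_lit 2097153) (nat_lit 156372041734) (.two (nat_lit 4194304) (nat_lit 185027526685) (.one (nat_lit 3565158627) .nil))),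
   .two (nat_lit 10506731523) (nat_lit 19596836867) (.two (nat_lit 9765388289) (nat_lit 1849688149) .nil),
   .two (nat_lit 1343225859) (nat_lit 174753579013) (.two (nat_lit 1048576) (nat_lit 21208498247) .nil),
   .two (nat_lit 9768534019) (nat_lit 174753579011) (.two (nat_lit 9766436865) (nat_lit 4030726281) .nil),
   .two (nat_lit 11476664322) (nat_lit 3539992624) .nil,
   .two (nat_lit 4194306) (nat_lit 156372041731) (.two (nat_lit 41943041) (nat_lit 2920284212) .nil),
   .two (nat_lit 9768534019) (nat_lit 19596836867) (.two (nat_lit 9765388289) (nat_lit 104857685) .nil),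
   .two (nat_lit 176160770) (nat_lit 12129927221) .nil,
   .two (nat_lit 16777218) (nat_lit 10007609349) (.two (nat_lit 4194304) (nat_lit 158653743167) .nil),
   .two (nat_lit 13195280387) (nat_lit 46409973762) (.two (nat_lit 4194305) (nat_lit 10376708142) .nil),
   .two (nat_lit 3525312515) (nat_lit 10343153669) (.two (nat_lit 2097152) (nat_lit 174759870634) .nil),
   .two (nat_lit 4194306) (nat_lit 13195280389) (.two (nat_lit 8388608) (nat_lit 4634705930) (.one (nat_lit 185027526719) .nil)),
   .two (nat_lit 285212675) (nat_lit 46409973763) (.two (nat_lit 4194305) (nat_lit 20652752950) .nil),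
   .two (nat_lit 2902458371) (nat_lit 1753219087) (.one (nat_lit 10913579093) .nil),
   .two (nat_lit 272629763) (nat_lit 1753219080) (.two (nat_lit 1048576) (nat_lit 9768534075) (.one (nat_lit 46477083444) .nil)),
   .two (nat_lit 4194306) (nat_lit 12147752969) (.two (nat_lit 4194304) (nat_lit 183946444853) (.one (nat_lit 9966715298) .nil)),
   .two (nat_lit 13191086083) (nat_lit 158646403098) (.one (nat_lit 159250383404) .nil),
   .two (nat_lit 1343225859) (nat_lit 165526110216) (.two (nat_lit 1048576) (nat_lit 159217877019) (.one (nat_lit 2097579) .nil)),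
   .two (nat_lit 2097155) (nat_lit 721420294) (.two (nat_lit 2097153) (nat_lit 889192468) (.two (nat_lit 1048576) (nat_lit 185002360904) (.one (nat_lit 16778117) .nil))),
   .two (nat_lit 9934209027) (nat_lit 156367847428) (.two (nat_lit 4194305) (nat_lit 158077026411) (.one (nat_lit 12050235913) .nil)),
   .two (nat_lit 809500675) (nat_lit 183853121540) (.two (nat_lit 37748737) (nat_lit 156976021558) (.one (nat_lit 8389194) .nil)),
   .two (nat_lit 10506731523) (nat_lit 37313576966) (.two (nat_lit 9765388289) (nat_lit 10506731547) (.one (nat_lit 1049163) .nil)),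
   .two (nat_lit 13195280387) (nat_lit 37246468102) (.two (nat_lit 41943041) (nat_lit 183912890411) (.one (nat_lit 1049164) .nil)),
   .two (nat_lit 1343225859) (nat_lit 20738736134) (.two (nat_lit 605028353) (nat_lit 159251431464) (.one (nat_lit 203424130) .nil)),
   .two (nat_lit 169869314) (nat_lit 620756997) (.two (nat_lit 620756993) (nat_lit 47548727304) (.two (nat_lit 16777216) (nat_lit 37247516961) .nil)),
   .two (nat_lit 8388611) (nat_lit 159266111507) (.two (nat_lit 8388608) (nat_lit 10015998008) (.one (nat_lit 8389512) .nil)),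
   .two (nat_lit 270532611) (nat_lit 9781116933) (.two (nat_lit 620756993) (nat_lit 10437525915) .nil),
   .two (nat_lit 705691650) (nat_lit 775946249) (.two (nat_lit 1048576) (nat_lit 1950351892) .nil),
   .two (nat_lit 16777218) (nat_lit 156367847428) (.two (nat_lit 4194305) (nat_lit 2902458781) .nil),
   .two (nat_lit 156364701699) (nat_lit 10506731561) (.one (nat_lit 608174371) .nil),
   .two (nat_lit 285212675) (nat_lit 4601151494) (.two (nat_lit 620756993) (nat_lit 9899606036) (.two (nat_lit 4194304) (nat_lit 2349858906) (.one (nat_lit 336593371) .nil))),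
   .two (nat_lit 1916796931) (nat_lit 10336862216) (.two (nat_lit 2097152) (nat_lit 20640170376) .nil),
   .two (nat_lit 117440515) (nat_lit 158144135177) (.two (nat_lit 16777216) (nat_lit 157036839267) .nil),
   .two (nat_lit 28757196803) (nat_lit 19599982619) (.one (nat_lit 158179787143) .nil),
   .two (nat_lit 1277165571) (nat_lit 20644364314) (.one (nat_lit 20644364467) .nil),
   .two (nat_lit 11543773187) (nat_lit 16777222) (.two (nat_lit 620756993) (nat_lit 135266343) (.one (nat_lit 11006902775) .nil)),
   .two (nat_lit 50331651) (nat_lit 10370416646) (.two (nat_lit 2097153) (nat_lit 12155093021) (.two (nat_lit 16777216) (nat_lit 8388810) (.one (nat_lit 176161249) .nil))),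
   .two (nat_lit 11492392962) (nat_lit 37313576965) (.two (nat_lit 34603009) (nat_lit 2902458406) (.one (nat_lit 158192370045) .nil)),
   .two (nat_lit 11543773187) (nat_lit 158177689610) (.two (nat_lit 1048576) (nat_lit 2097355) (.one (nat_lit 2097745) .nil)),
   .two (nat_lit 1176502275) (nat_lit 1916796933) (.two (nat_lit 2097153) (nat_lit 156539814071) .nil),
   .two (nat_lit 4194306) (nat_lit 46508539914) (.two (nat_lit 4194304) (nat_lit 270532800) (.one (nat_lit 46978302455) .nil)),
   .two (nat_lit 47548727299) (nat_lit 28690087940) (.two (nat_lit 9765388289) (nat_lit 2921332746) (.two (nat_lit 1048576) (nat_lit 10370416748) (.one (nat_lit 1049171) .nil))),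
   .two (nat_lit 3458203651) (nat_lit 4601151495) (.two (nat_lit 2097153) (nat_lit 1749024778) (.two (nat_lit 4194304) (nat_lit 18926796992) (.one (nat_lit 2097748) .nil))),
   .two (nat_lit 13195280387) (nat_lit 1846542340) (.two (nat_lit 41943041) (nat_lit 166129041417) (.two (nat_lit 8388608) (nat_lit 11543773292) (.one (nat_lit 1049482) .nil))),
   .two (nat_lit 171966467) (nat_lit 18926796806) (.two (nat_lit 4194305) (nat_lit 20753416246) (.one (nat_lit 10372514299) .nil)),
   .two (nat_lit 1277165570) (nat_lit 11546918966) (.one (nat_lit 159253528944) .nil),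
   .two (nat_lit 9933160451) (nat_lit 156372041741) (.two (nat_lit 4194304) (nat_lit 780140890) .nil),
   .two (nat_lit 19532873731) (nat_lit 46523219974) (.two (nat_lit 4194305) (nat_lit 2969567252) (.two (nat_lit 1048576) (nat_lit 83886170) (.one (nat_lit 174701150683) .nil))),
   .two (nat_lit 157038936067) (nat_lit 9781116936) (.two (nat_lit 4194304) (nat_lit 28101836861) (.one (nat_lit 16777815) .nil)),
   .two (nat_lit 4194306) (nat_lit 20644364298) (.two (nat_lit 16777216) (nat_lit 20644364341) (.one (nat_lit 8389515) .nil)),
   .two (nat_lit 721420291) (nat_lit 158143086600) (.two (nat_lit 2097152) (nat_lit 174752530470) (.one (nat_lit 1862271830) .nil)),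
   .two (nat_lit 34603011) (nat_lit 158192369671) (.two (nat_lit 2097153) (nat_lit 13203669009) (.two (nat_lit 16777216) (nat_lit 1048780) (.one (nat_lit 166245433852) .nil))),
   .two (nat_lit 50331651) (nat_lit 166129041422) (.two (nat_lit 1048576) (nat_lit 19134415044) (.one (nat_lit 8390086) .nil)),
   .two (nat_lit 218103811) (nat_lit 11614027783) (.two (nat_lit 605028353) (nat_lit 156468510729) (.two (nat_lit 8388608) (nat_lit 158143086682) (.one (nat_lit 1049484) .nil))),
   .two (nat_lit 8388610) (nat_lit 183845781514) (.two (nat_lit 8388608) (nat_lit 183845781557) (.one (nat_lit 1049177) .nil)),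
   .two (nat_lit 176160770) (nat_lit 10370416644) (.two (nat_lit 8388609) (nat_lit 1780482058) (.two (nat_lit 2097152) (nat_lit 243269999) .nil)),
   .two (nat_lit 184549379) (nat_lit 639631368) (.two (nat_lit 8388608) (nat_lit 2416967736) (.one (nat_lit 1049486) .nil)),
   .two (nat_lit 2097155) (nat_lit 184993972232) (.two (nat_lit 1048576) (nat_lit 28791799848) (.one (nat_lit 8389520) .nil)),
   .two (nat_lit 705691650) (nat_lit 158144135176) (.two (nat_lit 1048576) (nat_lit 158144135193) (.one (nat_lit 28086108536) .nil)),
   .two (nat_lit 2956984323) (nat_lit 673185798) (.two (nat_lit 605028353) (nat_lit 1411383354) (.one (nat_lit 2098065) .nil)),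
   .two (nat_lit 605028355) (nat_lit 21208498180) (.two (nat_lit 156364701697) (nat_lit 876609554) (.two (nat_lit 4194304) (nat_lit 1048781) (.one (nat_lit 1849688938) .nil))),
   .two (nat_lit 705691650) (nat_lit 83886088) (.two (nat_lit 1048576) (nat_lit 166211879226) .nil),
   .two (nat_lit 1746927619) (nat_lit 158646403098) (.one (nat_lit 4631560375) .nil),
   .two (nat_lit 9768534019) (nat_lit 1753219080) (.two (nat_lit 4194304) (nat_lit 165532401932) .nil),
   .two (nat_lit 1343225859) (nat_lit 166230753290) (.two (nat_lit 1048576) (nat_lit 21778923575) (.one (nat_lit 2098066) .nil)),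
   .two (nat_lit 746586115) (nat_lit 306184218) (.one (nat_lit 10336863065) .nil),
   .two (nat_lit 12054429699) (nat_lit 9866051592) (.two (nat_lit 1048576) (nat_lit 10007609549) (.one (nat_lit 1049437) .nil)),
   .two (nat_lit 4605345795) (nat_lit 157036838920) (.two (nat_lit 2097152) (nat_lit 1417675227) .nil),
   .two (nat_lit 272629763) (nat_lit 166130089992) (.two (nat_lit 2097152) (nat_lit 183953785396) .nil),
   .two (nat_lit 10506731523) (nat_lit 156532473863) (.two (nat_lit 16777217) (nat_lit 11546918961) (.one (nat_lit 11479810421) .nil)),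
   .two (nat_lit 13191086083) (nat_lit 18925748228) (.two (nat_lit 37748737) (nat_lit 47596961855) (.one (nat_lit 16778131) .nil)),
   .two (nat_lit 50331651) (nat_lit 10506731528) (.two (nat_lit 16777216) (nat_lit 165528207450) (.one (nat_lit 641728882) .nil)),
   .two (nat_lit 8388610) (nat_lit 4601151496) (.two (nat_lit 4194304) (nat_lit 166136381532) (.one (nat_lit 18928894800) .nil)),
   .two (nat_lit 34603011) (nat_lit 46414168070) (.two (nat_lit 8388609) (nat_lit 28758245497) (.one (nat_lit 8389524) .nil)),
   .two (nat_lit 50331651) (nat_lit 1276117011) (.two (nat_lit 8388608) (nat_lit 185023332467) (.one (nat_lit 8389525) .nil)),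
   .two (nat_lit 612368387) (nat_lit 20753416198) (.two (nat_lit 16777217) (nat_lit 9936306277) (.one (nat_lit 4194914) .nil)),
   .two (nat_lit 806354947) (nat_lit 11559501868) (.one (nat_lit 158192370071) .nil),
   .two (nat_lit 1343225859) (nat_lit 1749024772) (.two (nat_lit 37748737) (nat_lit 28757196808) (.two (nat_lit 16777216) (nat_lit 20704133173) (.one (nat_lit 1049494) .nil))),
   .two (nat_lit 16777219) (nat_lit 9934209032) (.two (nat_lit 16777216) (nat_lit 2097685) .nil),
   .two (nat_lit 184549379) (nat_lit 705691652) (.two (nat_lit 2097153) (nat_lit 2886729739) (.two (nat_lit 2097152) (nat_lit 285212735) (.one (nat_lit 2098071) .nil))),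
   .two (nat_lit 16777219) (nat_lit 156533522438) (.two (nat_lit 16777217) (nat_lit 1344274486) (.one (nat_lit 2098073) .nil)),
   .two (nat_lit 809500675) (nat_lit 157036838916) (.two (nat_lit 2097153) (nat_lit 1916796936) (.two (nat_lit 4194304) (nat_lit 183947493488) (.one (nat_lit 4195226) .nil))),
   .two (nat_lit 184549378) (nat_lit 21785214980) (.two (nat_lit 16777217) (nat_lit 12054429711) (.two (nat_lit 1048576) (nat_lit 20753416219) (.one (nat_lit 16778139) .nil))),
   .two (nat_lit 2097155) (nat_lit 1358954501) (.two (nat_lit 2097153) (nat_lit 159232557115) (.one (nat_lit 2097763) .nil)),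
   .two (nat_lit 184549378) (nat_lit 20644364292) (.two (nat_lit 16777217) (nat_lit 21214789642) (.two (nat_lit 8388608) (nat_lit 1291845752) (.one (nat_lit 166203490711) .nil))),
   .two (nat_lit 11484004355) (nat_lit 3527409706) (.one (nat_lit 4195228) .nil),
   .two (nat_lit 41943043) (nat_lit 68157444) (.two (nat_lit 4194305) (nat_lit 184993972232) (.two (nat_lit 1048576) (nat_lit 28760342586) (.one (nat_lit 8389533) .nil))),
   .two (nat_lit 612368387) (nat_lit 13191086086) (.two (nat_lit 156367847425) (nat_lit 1780482056) (.two (nat_lit 2097152) (nat_lit 19033751599) (.one (nat_lit 8389221) .nil))),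
   .two (nat_lit 1358954499) (nat_lit 1846542340) (.two (nat_lit 620756993) (nat_lit 19026411530) (.two (nat_lit 1048576) (nat_lit 1795162151) (.one (nat_lit 1049008) .nil))),
   .two (nat_lit 47550824451) (nat_lit 165532401705) (.one (nat_lit 28798091555) .nil),
   .two (nat_lit 8388610) (nat_lit 21781020684) (.two (nat_lit 4194304) (nat_lit 18933088526) .nil),
   .two (nat_lit 4194306) (nat_lit 8388617) (.two (nat_lit 1048576) (nat_lit 156365750784) .nil),
   .two (nat_lit 1343225859) (nat_lit 166130089992) (.two (nat_lit 2097152) (nat_lit 9866051640) (.one (nat_lit 1049502) .nil)),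
   .two (nat_lit 16777218) (nat_lit 1846542342) (.two (nat_lit 8388609) (nat_lit 3539992679) (.one (nat_lit 16778143) .nil)),
   .two (nat_lit 10335813635) (nat_lit 156372041733) (.two (nat_lit 605028353) (nat_lit 11593056303) (.one (nat_lit 16777833) .nil)),
   .two (nat_lit 1358954499) (nat_lit 4601151541) (.one (nat_lit 28757197391) .nil),
   .two (nat_lit 169869314) (nat_lit 1283457031) (.two (nat_lit 8388609) (nat_lit 156466413615) (.one (nat_lit 1948254563) .nil)),
   .two (nat_lit 9934209027) (nat_lit 20637024260) (.two (nat_lit 37748737) (nat_lit 158075977736) (.two (nat_lit 1048576) (nat_lit 1377828922) (.one (nat_lit 2098080) .nil))),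
   .two (nat_lit 169869314) (nat_lit 19604176901) (.two (nat_lit 8388609) (nat_lit 11492393013) (.one (nat_lit 16778145) .nil)),
   .two (nat_lit 612368387) (nat_lit 754974724) (.two (nat_lit 41943041) (nat_lit 1929379893) (.one (nat_lit 10955522513) .nil)),
   .two (nat_lit 11492392962) (nat_lit 157038936069) (.two (nat_lit 37748737) (nat_lit 1224736829) (.one (nat_lit 16778146) .nil)),
   .two (nat_lit 50331651) (nat_lit 205520900) (.two (nat_lit 50331649) (nat_lit 46409973770) (.two (nat_lit 1048576) (nat_lit 19096666303) (.one (nat_lit 272630602) .nil))),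
   .two (nat_lit 8388610) (nat_lit 46980399112) (.two (nat_lit 4194304) (nat_lit 158143087183) .nil),
   .two (nat_lit 184549379) (nat_lit 9934209032) (.two (nat_lit 4194304) (nat_lit 135266360) (.one (nat_lit 2416968548) .nil)),
   .two (nat_lit 272629763) (nat_lit 236978185) (.two (nat_lit 4194304) (nat_lit 11477713299) .nil),
   .two (nat_lit 41943043) (nat_lit 9866051590) (.two (nat_lit 34603009) (nat_lit 28697428022) (.one (nat_lit 19093520991) .nil)),
   .two (nat_lit 285212675) (nat_lit 183848927240) (.two (nat_lit 4194304) (nat_lit 13237223970) .nil),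
   .two (nat_lit 16777219) (nat_lit 13221494791) (.two (nat_lit 8388609) (nat_lit 46507491374) (.one (nat_lit 1049508) .nil)),
   .two (nat_lit 169869314) (nat_lit 21785214989) (.two (nat_lit 2097152) (nat_lit 2323644472) (.one (nat_lit 8389541) .nil)),
   .two (nat_lit 184549379) (nat_lit 1276116996) (.two (nat_lit 2097153) (nat_lit 11476664404) (.one (nat_lit 13237224292) .nil)),
   .two (nat_lit 9948889091) (nat_lit 159216828482) (.one (nat_lit 2953839200) .nil),
   .two (nat_lit 8388610) (nat_lit 184986632202) (.two (nat_lit 2097152) (nat_lit 20704133317) (.one (nat_lit 1376780811) .nil)),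
   .two (nat_lit 1277165571) (nat_lit 19529728004) (.two (nat_lit 16777217) (nat_lit 158646403100) (.two (nat_lit 16777216) (nat_lit 135266389) (.one (nat_lit 1049510) .nil))),
   .two (nat_lit 11543773187) (nat_lit 156466413578) (.two (nat_lit 1048576) (nat_lit 11611931169) .nil),
   .two (nat_lit 16777219) (nat_lit 1276117000) (.two (nat_lit 8388608) (nat_lit 183861510619) .nil),
   .two (nat_lit 739246083) (nat_lit 19530776580) (.two (nat_lit 605028353) (nat_lit 2988441793) (.one (nat_lit 2098087) .nil)),
   .two (nat_lit 272629763) (nat_lit 10940841990) (.two (nat_lit 4194305) (nat_lit 158647451668) (.two (nat_lit 2097152) (nat_lit 205520946) (.one (nat_lit 46978302448) .nil))),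
   .two (nat_lit 1291845634) (nat_lit 20638072840) (.two (nat_lit 8388608) (nat_lit 166130090032) (.one (nat_lit 16778152) .nil)),
   .two (nat_lit 3525312515) (nat_lit 11580473351) (.two (nat_lit 4194305) (nat_lit 69206070) (.one (nat_lit 16778153) .nil)),
   .two (nat_lit 50331651) (nat_lit 4632608775) (.two (nat_lit 37748737) (nat_lit 1746927723) (.one (nat_lit 8389546) .nil)),
   .two (nat_lit 21207449603) (nat_lit 184423546884) (.two (nat_lit 605028353) (nat_lit 1216348361) (.one (nat_lit 8389547) .nil)),
   .two (nat_lit 101711875) (nat_lit 20638072840) (.two (nat_lit 2097152) (nat_lit 1343225883) (.one (nat_lit 12147754107) .nil)),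
   .two (nat_lit 4194306) (nat_lit 156532473863) (.two (nat_lit 16777217) (nat_lit 68157448) (.two (nat_lit 16777216) (nat_lit 19596836975) (.one (nat_lit 4195244) .nil))),
   .two (nat_lit 171966467) (nat_lit 236978185) (.two (nat_lit 4194304) (nat_lit 68157496) (.one (nat_lit 1049517) .nil)),
   .two (nat_lit 50331651) (nat_lit 10506731525) (.two (nat_lit 50331649) (nat_lit 166132187144) (.two (nat_lit 2097152) (nat_lit 83886139) (.one (nat_lit 2098094) .nil))),
   .two (nat_lit 2969567235) (nat_lit 809500680) (.two (nat_lit 1048576) (nat_lit 156367847506) (.one (nat_lit 1276117821) .nil)),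
   .two (nat_lit 183853121538) (nat_lit 83886088) (.two (nat_lit 8388608) (nat_lit 158662132248) .nil),
   .two (nat_lit 2097155) (nat_lit 2332033072) (.one (nat_lit 822083980) .nil),
   .two (nat_lit 50331651) (nat_lit 1350565899) (.two (nat_lit 1048576) (nat_lit 156372041781) (.one (nat_lit 4034921310) .nil)),
   .two (nat_lit 11543773187) (nat_lit 4632608780) (.two (nat_lit 1048576) (nat_lit 2988441625) (.one (nat_lit 2097745) .nil)),
   .two (nat_lit 47555018755) (nat_lit 184419352584) (.two (nat_lit 8388608) (nat_lit 10439623271) .nil),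
   .two (nat_lit 2889875458) (nat_lit 47582281733) (.two (nat_lit 2097153) (nat_lit 4634705947) (.one (nat_lit 10506731948) .nil)),
   .two (nat_lit 169869314) (nat_lit 3003121675) (.two (nat_lit 8388608) (nat_lit 754974773) (.one (nat_lit 16778159) .nil)),
   .two (nat_lit 16777218) (nat_lit 1780482056) (.two (nat_lit 16777216) (nat_lit 2097275) (.one (nat_lit 8389552) .nil)),
   .two (nat_lit 4194306) (nat_lit 3464495124) (.two (nat_lit 4194304) (nat_lit 10343153720) (.one (nat_lit 8389553) .nil)),
   .two (nat_lit 2954887171) (nat_lit 2420113418) (.two (nat_lit 16777216) (nat_lit 4194512) (.one (nat_lit 4195250) .nil)),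
   .two (nat_lit 8388611) (nat_lit 37313576978) (.two (nat_lit 1048576) (nat_lit 276824122) (.one (nat_lit 10343154605) .nil)),
   .two (nat_lit 2097155) (nat_lit 612368392) (.two (nat_lit 2097152) (nat_lit 1913651263) (.one (nat_lit 2098100) .nil)),
   .two (nat_lit 171966467) (nat_lit 10504634376) (.two (nat_lit 4194304) (nat_lit 13187940410) (.one (nat_lit 156364702203) .nil)),
   .two (nat_lit 10504634371) (nat_lit 2420113414) (.two (nat_lit 620756993) (nat_lit 1780482155) (.one (nat_lit 2098101) .nil)),
   .two (nat_lit 34603011) (nat_lit 159224168456) (.two (nat_lit 2097152) (nat_lit 20737687594) (.one (nat_lit 1049526) .nil)),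
   .two (nat_lit 822083587) (nat_lit 184419352580) (.two (nat_lit 37748737) (nat_lit 11492392985) (.one (nat_lit 9936306608) .nil)),
   .two (nat_lit 270532611) (nat_lit 18933088262) (.two (nat_lit 2097153) (nat_lit 9772728332) (.two (nat_lit 1048576) (nat_lit 2097276) (.one (nat_lit 1049202) .nil))),
   .two (nat_lit 16777219) (nat_lit 3028287506) (.two (nat_lit 4194304) (nat_lit 47563407413) (.one (nat_lit 16778167) .nil)),
   .two (nat_lit 1291845635) (nat_lit 11543773192) (.two (nat_lit 2097152) (nat_lit 9802088504) (.one (nat_lit 4195256) .nil)),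
   .two (nat_lit 8388610) (nat_lit 10000269318) (.two (nat_lit 4194305) (nat_lit 806354971) (.one (nat_lit 21781021229) .nil)),
   .two (nat_lit 272629763) (nat_lit 673185798) (.two (nat_lit 612368385) (nat_lit 159217877035) (.one (nat_lit 2098105) .nil)),
   .two (nat_lit 8388610) (nat_lit 12117344269) (.two (nat_lit 8388608) (nat_lit 876609594) (.one (nat_lit 4195258) .nil)),
   .two (nat_lit 41943043) (nat_lit 21827158026) (.two (nat_lit 16777216) (nat_lit 10909384828) (.one (nat_lit 4194816) .nil)),
   .two (nat_lit 4194306) (nat_lit 3464495112) (.two (nat_lit 4194304) (nat_lit 1216348240) (.one (nat_lit 4195259) .nil)),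
   .two (nat_lit 4194306) (nat_lit 11559501838) (.two (nat_lit 16777216) (nat_lit 21207449663) (.one (nat_lit 16778172) .nil)),
   .two (nat_lit 169869314) (nat_lit 21207449606) (.two (nat_lit 9765388289) (nat_lit 606076936) (.two (nat_lit 2097152) (nat_lit 156364701819) (.one (nat_lit 2098109) .nil))),
   .two (nat_lit 9933160451) (nat_lit 11022630924) (.two (nat_lit 1048576) (nat_lit 157038936117) (.one (nat_lit 4195262) .nil)),
   .two (nat_lit 10947133443) (nat_lit 185020186665) (.one (nat_lit 47547679011) .nil),
   .two (nat_lit 101711875) (nat_lit 10940841992) (.two (nat_lit 1048576) (nat_lit 1914699856) (.one (nat_lit 2097779) .nil)),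
   .two (nat_lit 9934209027) (nat_lit 19093520389) (.two (nat_lit 41943041) (nat_lit 1947205675) (.one (nat_lit 8389567) .nil)),
   .two (nat_lit 1343225859) (nat_lit 21785214982) (.two (nat_lit 156372041729) (nat_lit 1276117002) (.two (nat_lit 1048576) (nat_lit 8389051) (.one (nat_lit 1049536) .nil))),
   .two (nat_lit 1343225859) (nat_lit 156971827208) (.two (nat_lit 1048576) (nat_lit 239075378) (.one (nat_lit 739246456) .nil)),
   .two (nat_lit 171966467) (nat_lit 1962934278) (.two (nat_lit 605028353) (nat_lit 21827158059) (.one (nat_lit 16778177) .nil)),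
   .two (nat_lit 285212675) (nat_lit 159250382855) (.two (nat_lit 8388609) (nat_lit 184416206857) (.two (nat_lit 2097152) (nat_lit 310378586) (.one (nat_lit 174759871366) .nil))),
   .two (nat_lit 1782579203) (nat_lit 11007950858) (.two (nat_lit 8388608) (nat_lit 159253528630) (.one (nat_lit 4195266) .nil)),
   .two (nat_lit 1277165571) (nat_lit 2349858833) (.two (nat_lit 16777216) (nat_lit 28758245865) .nil),
   .two (nat_lit 605028355) (nat_lit 12633243655) (.two (nat_lit 16777217) (nat_lit 21777874952) (.two (nat_lit 4194304) (nat_lit 654311480) (.one (nat_lit 16778179) .nil))),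
   .two (nat_lit 8388611) (nat_lit 708837383) (.two (nat_lit 605028353) (nat_lit 46414168185) (.one (nat_lit 1049540) .nil)),
   .two (nat_lit 2902458370) (nat_lit 102760455) (.two (nat_lit 37748737) (nat_lit 9781116936) (.two (nat_lit 1048576) (nat_lit 158077026360) (.one (nat_lit 2098117) .nil))),
   .two (nat_lit 4605345795) (nat_lit 37316722745) (.one (nat_lit 1049542) .nil),
   .two (nat_lit 4601151491) (nat_lit 166130089992) (.two (nat_lit 2097152) (nat_lit 4634706008) (.one (nat_lit 16778183) .nil)),
   .two (nat_lit 822083587) (nat_lit 19537068039) (.two (nat_lit 50331649) (nat_lit 75497663) (.one (nat_lit 8389576) .nil)),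
   .two (nat_lit 654311427) (nat_lit 13224640539) (.one (nat_lit 8389577) .nil),
   .two (nat_lit 50331651) (nat_lit 21207449608) (.two (nat_lit 1048576) (nat_lit 318767157) (.one (nat_lit 1049206) .nil)),
   .two (nat_lit 16777218) (nat_lit 1753219078) (.two (nat_lit 612368385) (nat_lit 1325400124) (.one (nat_lit 16778187) .nil)),
   .two (nat_lit 8388611) (nat_lit 166144770055) (.two (nat_lit 16777217) (nat_lit 176160776) (.two (nat_lit 1048576) (nat_lit 19532873784) (.one (nat_lit 1049548) .nil))),
   .two (nat_lit 16777219) (nat_lit 705691656) (.two (nat_lit 2097152) (nat_lit 3573547067) (.one (nat_lit 2098125) .nil)),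
   .two (nat_lit 47548727299) (nat_lit 158143086601) (.two (nat_lit 8388608) (nat_lit 174685421652) (.one (nat_lit 1049207) .nil)),
   .two (nat_lit 171966467) (nat_lit 754974728) (.two (nat_lit 1048576) (nat_lit 4601151544) (.one (nat_lit 4195278) .nil)),
   .two (nat_lit 4194306) (nat_lit 46473936903) (.two (nat_lit 2097153) (nat_lit 12114198582) (.one (nat_lit 1049551) .nil)),
   .two (nat_lit 50331651) (nat_lit 9974054918) (.two (nat_lit 612368385) (nat_lit 83886100) (.two (nat_lit 8388608) (nat_lit 156367847531) (.one (nat_lit 8389584) .nil))),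
   .two (nat_lit 184549379) (nat_lit 184419352580) (.two (nat_lit 16777217) (nat_lit 775946250) (.two (nat_lit 4194304) (nat_lit 21793603669) (.one (nat_lit 239075701) .nil))),
   .two (nat_lit 184549379) (nat_lit 13191086086) (.two (nat_lit 37748737) (nat_lit 1224736780) (.two (nat_lit 4194304) (nat_lit 46978302154) (.one (nat_lit 2097785) .nil))),
   .two (nat_lit 2097155) (nat_lit 46980399108) (.two (nat_lit 2097153) (nat_lit 158176641077) (.one (nat_lit 1049553) .nil)),
   .two (nat_lit 1913651203) (nat_lit 11477712944) (.one (nat_lit 19027460529) .nil),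
   .two (nat_lit 809500675) (nat_lit 174686470162) (.two (nat_lit 2097152) (nat_lit 37748794) (.one (nat_lit 4195282) .nil)),
   .two (nat_lit 8388610) (nat_lit 185002360848) (.two (nat_lit 2097152) (nat_lit 13224640604) (.one (nat_lit 2098131) .nil)),
   .two (nat_lit 46407876610) (nat_lit 68157487) (.one (nat_lit 135266689) .nil),
   .two (nat_lit 2969567235) (nat_lit 8388616) (.two (nat_lit 1048576) (nat_lit 16777426) (.one (nat_lit 16778196) .nil)),
   .two (nat_lit 41943043) (nat_lit 10336862214) (.two (nat_lit 50331649) (nat_lit 10370416680) (.one (nat_lit 8389589) .nil)),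
   .two (nat_lit 8388610) (nat_lit 135266310) (.two (nat_lit 605028353) (nat_lit 343932938) (.two (nat_lit 8388608) (nat_lit 3020947644) (.one (nat_lit 1049558) .nil))),
   .two (nat_lit 272629763) (nat_lit 2927624201) (.two (nat_lit 16777216) (nat_lit 1745879094) (.one (nat_lit 4195287) .nil)),
   .two (nat_lit 620756995) (nat_lit 158646403136) (.one (nat_lit 4195288) .nil),
   .two (nat_lit 34603011) (nat_lit 11492392964) (.two (nat_lit 50331649) (nat_lit 184986632200) (.two (nat_lit 1048576) (nat_lit 12163481653) (.one (nat_lit 16778201) .nil))),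
   .two (nat_lit 270532611) (nat_lit 218103816) (.two (nat_lit 2097152) (nat_lit 156532473964) (.one (nat_lit 1049562) .nil)),
   .two (nat_lit 16777218) (nat_lit 303038475) (.two (nat_lit 4194304) (nat_lit 16777269) (.one (nat_lit 46523220919) .nil)),
   .two (nat_lit 4194306) (nat_lit 165532401672) (.two (nat_lit 2097152) (nat_lit 19130220603) (.one (nat_lit 8389595) .nil)),
   .two (nat_lit 101711875) (nat_lit 18928893960) (.two (nat_lit 16777216) (nat_lit 10369368120) (.one (nat_lit 1049564) .nil)),
   .two (nat_lit 176160770) (nat_lit 12047089670) (.two (nat_lit 2097153) (nat_lit 11610882096) (.one (nat_lit 1049565) .nil)),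
   .two (nat_lit 9781116931) (nat_lit 158143086600) (.two (nat_lit 16777216) (nat_lit 1846542363) (.one (nat_lit 1049567) .nil)),
   .two (nat_lit 83886083) (nat_lit 68157444) (.two (nat_lit 4194305) (nat_lit 157051519007) (.two (nat_lit 4194304) (nat_lit 13237223626) (.one (nat_lit 4195296) .nil))),
   .two (nat_lit 13191086083) (nat_lit 37313576965) (.two (nat_lit 34603009) (nat_lit 138412085) (.one (nat_lit 4195297) .nil)),
   .two (nat_lit 16777219) (nat_lit 21208498180) (.two (nat_lit 16777217) (nat_lit 9900654602) (.two (nat_lit 1048576) (nat_lit 3525312561) (.one (nat_lit 2097788) .nil))),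
   .two (nat_lit 708837379) (nat_lit 20644364298) (.two (nat_lit 4194304) (nat_lit 185002360913) (.one (nat_lit 8389602) .nil)),
   .two (nat_lit 721420291) (nat_lit 28757196808) (.two (nat_lit 2097152) (nat_lit 11610882126) (.one (nat_lit 16778211) .nil)),
   .two (nat_lit 16777218) (nat_lit 1948254215) (.two (nat_lit 37748737) (nat_lit 183845781512) (.two (nat_lit 1048576) (nat_lit 28791799895) (.one (nat_lit 1049572) .nil))),
   .two (nat_lit 8388611) (nat_lit 159217877000) (.two (nat_lit 1048576) (nat_lit 1176502358) (.one (nat_lit 1049573) .nil)),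
   .two (nat_lit 50331651) (nat_lit 13222543367) (.two (nat_lit 37748737) (nat_lit 185027526777) (.one (nat_lit 8389606) .nil)),
   .two (nat_lit 822083587) (nat_lit 2954887178) (.two (nat_lit 1048576) (nat_lit 21208498373) (.one (nat_lit 183846830711) .nil)),
   .two (nat_lit 34603011) (nat_lit 2969567236) (.two (nat_lit 2097153) (nat_lit 10503585887) (.one (nat_lit 1049213) .nil)),
   .two (nat_lit 184549379) (nat_lit 101711880) (.two (nat_lit 16777216) (nat_lit 236978235) (.one (nat_lit 117441346) .nil)),
   .two (nat_lit 41943043) (nat_lit 158077026330) (.one (nat_lit 2098152) .nil),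
   .two (nat_lit 184989777923) (nat_lit 156465365033) (.one (nat_lit 156364701996) .nil),
   .two (nat_lit 11476664322) (nat_lit 158077026308) (.two (nat_lit 37748737) (nat_lit 3458203701) (.one (nat_lit 46977253956) .nil)),
   .two (nat_lit 4605345795) (nat_lit 3458203652) (.two (nat_lit 2097153) (nat_lit 3464495113) (.two (nat_lit 2097152) (nat_lit 166237044828) (.one (nat_lit 9867101139) .nil))),
   .two (nat_lit 713031683) (nat_lit 10336862216) (.two (nat_lit 8388608) (nat_lit 34603066) (.one (nat_lit 1049577) .nil)),
   .two (nat_lit 822083587) (nat_lit 2887778369) (.one (nat_lit 21812478369) .nil),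
   .two (nat_lit 50331651) (nat_lit 165532401672) (.two (nat_lit 4194304) (nat_lit 158091706422) (.one (nat_lit 276824246) .nil)),
   .two (nat_lit 4194306) (nat_lit 166129041426) (.two (nat_lit 4194304) (nat_lit 10000269393) (.one (nat_lit 4195306) .nil)),
   .two (nat_lit 9781116931) (nat_lit 158075977736) (.two (nat_lit 2097152) (nat_lit 1410335186) .nil),
   .two (nat_lit 8388611) (nat_lit 156466413578) (.two (nat_lit 2097152) (nat_lit 159224168714) .nil),
   .two (nat_lit 169869314) (nat_lit 754974724) (.two (nat_lit 2097153) (nat_lit 9814671452) (.one (nat_lit 16777857) .nil)),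
   .two (nat_lit 34603011) (nat_lit 10913579015) (.two (nat_lit 2097153) (nat_lit 813695032) (.one (nat_lit 8389611) .nil)),
   .two (nat_lit 83886083) (nat_lit 10506731525) (.two (nat_lit 16777217) (nat_lit 19532873767) (.one (nat_lit 809501268) .nil)),
   .two (nat_lit 176160770) (nat_lit 9969860615) (.two (nat_lit 8388609) (nat_lit 47563407391) (.two (nat_lit 4194304) (nat_lit 19042140205) (.one (nat_lit 16777860) .nil))),
   .two (nat_lit 721420291) (nat_lit 166132187144) (.two (nat_lit 4194304) (nat_lit 10351542364) (.one (nat_lit 4195309) .nil)),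
   .two (nat_lit 1291845635) (nat_lit 1178599430) (.two (nat_lit 16777217) (nat_lit 28693233672) (.two (nat_lit 8388608) (nat_lit 2969567288) (.one (nat_lit 4194950) .nil))),
   .two (nat_lit 4194306) (nat_lit 1846542346) (.two (nat_lit 4194304) (nat_lit 9873391740) (.one (nat_lit 645923383) .nil)),
   .two (nat_lit 10372513795) (nat_lit 21208498186) (.two (nat_lit 2097152) (nat_lit 10003415094) (.one (nat_lit 4195310) .nil)),
   .two (nat_lit 176160770) (nat_lit 12114198549) (.two (nat_lit 1048576) (nat_lit 158079123510) (.one (nat_lit 9798943579) .nil)),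
   .two (nat_lit 9934209027) (nat_lit 166132187144) (.two (nat_lit 2097152) (nat_lit 28089253942) (.one (nat_lit 166132187677) .nil)),
   .two (nat_lit 218103811) (nat_lit 3028287514) (.one (nat_lit 109052255) .nil),
   .two (nat_lit 10504634371) (nat_lit 37313576998) (.one (nat_lit 185020186946) .nil),
   .two (nat_lit 158143086595) (nat_lit 156971827208) (.two (nat_lit 1048576) (nat_lit 28693233703) (.one (nat_lit 4194952) .nil)),
   .two (nat_lit 8388610) (nat_lit 174752530436) (.two (nat_lit 605028353) (nat_lit 41943048) (.two (nat_lit 2097152) (nat_lit 1846542389) (.one (nat_lit 8389616) .nil))),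
   .two (nat_lit 2902458371) (nat_lit 21785215015) (.one (nat_lit 12624855645) .nil),
   .two (nat_lit 10336862211) (nat_lit 20704133147) (.one (nat_lit 10436477108) .nil),
   .two (nat_lit 16777218) (nat_lit 184993972260) (.one (nat_lit 8389617) .nil),
   .two (nat_lit 184549378) (nat_lit 20644364292) (.two (nat_lit 16777217) (nat_lit 21214789642) (.two (nat_lit 8388608) (nat_lit 16777777) .nil)),
   .two (nat_lit 171966467) (nat_lit 11551113220) (.two (nat_lit 4194305) (nat_lit 1780482056) (.two (nat_lit 1048576) (nat_lit 1344274459) (.one (nat_lit 4028629983) .nil))),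
   .two (nat_lit 272629763) (nat_lit 185021235211) (.two (nat_lit 2097152) (nat_lit 3527409723) (.one (nat_lit 2988442573) .nil)),
   .two (nat_lit 169869314) (nat_lit 10506731528) (.two (nat_lit 2097152) (nat_lit 4601151555) (.one (nat_lit 4194954) .nil)),
   .two (nat_lit 2887778306) (nat_lit 4634705925) (.two (nat_lit 4194305) (nat_lit 9799991346) (.one (nat_lit 9799991610) .nil)),
   .two (nat_lit 16777219) (nat_lit 1916796936) (.two (nat_lit 1048576) (nat_lit 19130220609) (.one (nat_lit 28806480749) .nil)),
   .two (nat_lit 158143086595) (nat_lit 2420113435) (.one (nat_lit 843055514) .nil),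
   .two (nat_lit 1913651203) (nat_lit 1753219078) (.two (nat_lit 612368385) (nat_lit 166129041417) (.two (nat_lit 1048576) (nat_lit 28764536924) (.one (nat_lit 269484387) .nil))),
   .two (nat_lit 713031683) (nat_lit 171966471) (.two (nat_lit 8388609) (nat_lit 205521011) (.one (nat_lit 2098162) .nil)),
   .two (nat_lit 47548727299) (nat_lit 21207449627) (.one (nat_lit 1049011) .nil),
   .two (nat_lit 13191086083) (nat_lit 28690087980) (.one (nat_lit 1376780684) .nil),
   .two (nat_lit 41943043) (nat_lit 68157450) (.two (nat_lit 1048576) (nat_lit 10443817052) (.one (nat_lit 839910854) .nil)),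
   .two (nat_lit 83886083) (nat_lit 174688567308) (.two (nat_lit 2097152) (nat_lit 3560964308) (.one (nat_lit 3024093745) .nil)),
   .two (nat_lit 12114198531) (nat_lit 165532401672) (.two (nat_lit 8388608) (nat_lit 156968681515) (.one (nat_lit 16778227) .nil)),
   .two (nat_lit 2956984323) (nat_lit 10385096710) (.two (nat_lit 4194305) (nat_lit 10552868884) (.two (nat_lit 4194304) (nat_lit 28101837379) .nil)),
   .two (nat_lit 41943043) (nat_lit 19596836874) (.two (nat_lit 8388608) (nat_lit 2316304767) .nil),
   .two (nat_lit 708837379) (nat_lit 156976021525) (.two (nat_lit 2097152) (nat_lit 158183981252) (.one (nat_lit 142607338) .nil)),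
   .two (nat_lit 705691650) (nat_lit 157036838919) (.two (nat_lit 620756993) (nat_lit 9899606096) (.one (nat_lit 1049227) .nil)),
   .two (nat_lit 809500675) (nat_lit 11510218761) (.two (nat_lit 4194304) (nat_lit 9933160495) (.one (nat_lit 1049228) .nil)),
   .two (nat_lit 270532611) (nat_lit 166211878922) (.two (nat_lit 1048576) (nat_lit 2097366) (.one (nat_lit 2098164) .nil)),
   .two (nat_lit 822083587) (nat_lit 18928893960) (.two (nat_lit 4194304) (nat_lit 16777781) .nil),
   .two (nat_lit 1277165571) (nat_lit 46409973764) (.two (nat_lit 156365750273) (nat_lit 28760342539) (.two (nat_lit 8388608) (nat_lit 138412574) .nil)),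
   .two (nat_lit 184549379) (nat_lit 10369368072) (.two (nat_lit 8388608) (nat_lit 37246468625) .nil),
   .two (nat_lit 721420290) (nat_lit 739246087) (.two (nat_lit 605028353) (nat_lit 28087156744) (.two (nat_lit 1048576) (nat_lit 16777341) (.one (nat_lit 1049589) .nil))),
   .two (nat_lit 16777218) (nat_lit 1780482056) (.two (nat_lit 8388608) (nat_lit 822083637) (.one (nat_lit 16778230) .nil)),
   .two (nat_lit 203423747) (nat_lit 158143086600) (.two (nat_lit 2097152) (nat_lit 166196150311) (.one (nat_lit 185020186943) .nil)),
   .two (nat_lit 2097155) (nat_lit 3464495108) (.two (nat_lit 4194305) (nat_lit 28086108214) (.one (nat_lit 9798943702) .nil)),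
   .two (nat_lit 9934209027) (nat_lit 3527409679) (.two (nat_lit 2097152) (nat_lit 3460300885) (.one (nat_lit 843055997) .nil)),
   .two (nat_lit 721420290) (nat_lit 3527409672) (.two (nat_lit 16777216) (nat_lit 157038936102) (.one (nat_lit 16777869) .nil)),
   .two (nat_lit 9934209027) (nat_lit 721420294) (.two (nat_lit 16777217) (nat_lit 10907287591) (.one (nat_lit 2097806) .nil)),
   .two (nat_lit 1745879043) (nat_lit 10552868885) (.two (nat_lit 1048576) (nat_lit 37262196840) (.one (nat_lit 20652753377) .nil)),
   .two (nat_lit 156971827203) (nat_lit 10000269376) (.one (nat_lit 1049591) .nil),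
   .two (nat_lit 4194306) (nat_lit 183946444809) (.two (nat_lit 4194304) (nat_lit 2987393084) (.one (nat_lit 1049592) .nil)),
   .two (nat_lit 2956984323) (nat_lit 1344274443) (.two (nat_lit 4194304) (nat_lit 236978229) (.one (nat_lit 2098169) .nil)),
   .two (nat_lit 47555018755) (nat_lit 159232557115) (.one (nat_lit 11618223006) .nil),
   .two (nat_lit 184549379) (nat_lit 12114198536) (.two (nat_lit 16777216) (nat_lit 2416967718) (.one (nat_lit 1343226237) .nil)),
   .two (nat_lit 2097155) (nat_lit 165532401668) (.two (nat_lit 34603009) (nat_lit 673185820) (.two (nat_lit 1048576) (nat_lit 46474985557) (.one (nat_lit 8389626) .nil))),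
   .two (nat_lit 19532873731) (nat_lit 343932937) (.two (nat_lit 4194304) (nat_lit 10343153700) (.one (nat_lit 8389266) .nil)),
   .two (nat_lit 10385096707) (nat_lit 75497480) (.two (nat_lit 16777216) (nat_lit 174692761646) (.one (nat_lit 243270285) .nil)),
   .two (nat_lit 11543773187) (nat_lit 18928893962) (.two (nat_lit 1048576) (nat_lit 28760342943) .nil),
   .two (nat_lit 184549379) (nat_lit 156372041732) (.two (nat_lit 8388609) (nat_lit 16777493) .nil),
   .two (nat_lit 16777218) (nat_lit 1780482056) (.two (nat_lit 16777216) (nat_lit 184993972277) (.one (nat_lit 8389627) .nil)),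
   .two (nat_lit 28758245379) (nat_lit 19029557274) (.one (nat_lit 3024093369) .nil),
   .two (nat_lit 16777219) (nat_lit 11006902284) (.two (nat_lit 16777216) (nat_lit 1048703) (.one (nat_lit 638583365) .nil)),
   .two (nat_lit 2887778306) (nat_lit 3464495112) (.two (nat_lit 2097152) (nat_lit 746586158) (.one (nat_lit 780140840) .nil)),
   .two (nat_lit 50331651) (nat_lit 156532473861) (.two (nat_lit 8388609) (nat_lit 721420296) (.two (nat_lit 1048576) (nat_lit 156372041781) (.one (nat_lit 8389628) .nil))),
   .two (nat_lit 4194306) (nat_lit 157036838920) (.two (nat_lit 4194304) (nat_lit 4028629031) (.one (nat_lit 2350907896) .nil)),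
   .two (nat_lit 176160771) (nat_lit 50331665) (.two (nat_lit 2097152) (nat_lit 847249464) (.one (nat_lit 8389629) .nil)),
   .two (nat_lit 218103811) (nat_lit 1916796936) (.two (nat_lit 1048576) (nat_lit 19130220609) (.one (nat_lit 16778238) .nil)),
   .two (nat_lit 41943043) (nat_lit 158077026308) (.two (nat_lit 4194305) (nat_lit 10343153692) (.two (nat_lit 1048576) (nat_lit 28798091831) .nil)),
   .two (nat_lit 46414168066) (nat_lit 183845781513) (.two (nat_lit 8388608) (nat_lit 202375228) (.one (nat_lit 1049599) .nil)),
   .two (nat_lit 176160770) (nat_lit 46978301958) (.two (nat_lit 2097153) (nat_lit 9772728332) (.two (nat_lit 1048576) (nat_lit 2887778360) (.one (nat_lit 1276117483) .nil))),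
   .two (nat_lit 75497475) (nat_lit 3525312516) (.two (nat_lit 16777217) (nat_lit 21812478047) (.one (nat_lit 2097813) .nil)),
   .two (nat_lit 272629763) (nat_lit 673185798) (.two (nat_lit 612368385) (nat_lit 21812478010) (.one (nat_lit 2098176) .nil)),
   .two (nat_lit 705691650) (nat_lit 12150898698) (.two (nat_lit 1048576) (nat_lit 158146232380) (.one (nat_lit 4195329) .nil)),
   .two (nat_lit 165526110211) (nat_lit 156569174022) (.two (nat_lit 2097153) (nat_lit 1849688171) (.one (nat_lit 4194966) .nil)),
   .two (nat_lit 1191182339) (nat_lit 612368392) (.two (nat_lit 16777216) (nat_lit 166136381501) (.one (nat_lit 13195280983) .nil)),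
   .two (nat_lit 75497475) (nat_lit 1376780305) (.two (nat_lit 4194304) (nat_lit 873463863) (.one (nat_lit 8389634) .nil)),
   .two (nat_lit 75497475) (nat_lit 10437525516) (.two (nat_lit 8388608) (nat_lit 12114198591) (.one (nat_lit 1049603) .nil)),
   .two (nat_lit 10370416643) (nat_lit 46510637066) (.two (nat_lit 2097152) (nat_lit 46510637095) (.one (nat_lit 4194967) .nil)),
   .two (nat_lit 1276116994) (nat_lit 28693233672) (.two (nat_lit 1048576) (nat_lit 171966510) (.one (nat_lit 4194968) .nil)),
   .two (nat_lit 176160770) (nat_lit 165525061636) (.two (nat_lit 16777217) (nat_lit 183946444851) (.one (nat_lit 1049604) .nil)),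
   .two (nat_lit 46414168066) (nat_lit 20637024265) (.two (nat_lit 8388608) (nat_lit 46507491412) (.one (nat_lit 1049605) .nil)),
   .two (nat_lit 713031682) (nat_lit 1210056710) (.two (nat_lit 16777217) (nat_lit 21785214995) (.two (nat_lit 8388608) (nat_lit 21223178321) (.one (nat_lit 8389638) .nil))),
   .two (nat_lit 3464495107) (nat_lit 721420329) (.one (nat_lit 19612565833) .nil),
   .two (nat_lit 10939793411) (nat_lit 158083317786) (.one (nat_lit 28093448371) .nil),
   .two (nat_lit 4194306) (nat_lit 3464495112) (.two (nat_lit 8388608) (nat_lit 4194519) (.one (nat_lit 4195168) .nil)),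
   .two (nat_lit 41943043) (nat_lit 1191182346) (.two (nat_lit 16777216) (nat_lit 18933088295) (.one (nat_lit 2894070414) .nil)),
   .two (nat_lit 9934209027) (nat_lit 10385096721) (.two (nat_lit 2097152) (nat_lit 12163482253) .nil),
   .two (nat_lit 101711875) (nat_lit 174686470154) (.two (nat_lit 1048576) (nat_lit 102760503) (.one (nat_lit 337642061) .nil)),
   .two (nat_lit 101711875) (nat_lit 1847590938) (.one (nat_lit 2098183) .nil),
   .two (nat_lit 159217876995) (nat_lit 158646403098) (.one (nat_lit 1049608) .nil),
   .two (nat_lit 11476664322) (nat_lit 679477269) (.two (nat_lit 1048576) (nat_lit 156472705128) (.one (nat_lit 156472705583) .nil)),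
   .two (nat_lit 171966467) (nat_lit 1847590916) (.two (nat_lit 34603009) (nat_lit 13191086139) (.one (nat_lit 28690088444) .nil)),
   .two (nat_lit 28758245379) (nat_lit 3464495112) (.two (nat_lit 2097152) (nat_lit 3028287531) (.one (nat_lit 8389077) .nil)),
   .two (nat_lit 654311427) (nat_lit 12117344261) (.two (nat_lit 4194305) (nat_lit 10452205658) (.one (nat_lit 11492393449) .nil)),
   .two (nat_lit 8388610) (nat_lit 1191182342) (.two (nat_lit 16777217) (nat_lit 18933088294) (.one (nat_lit 2961179094) .nil)),
   .two (nat_lit 2097155) (nat_lit 612368388) (.two (nat_lit 2097153) (nat_lit 10369368072) (.two (nat_lit 2097152) (nat_lit 12147753085) (.one (nat_lit 1277166516) .nil))),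
   .two (nat_lit 169869314) (nat_lit 9806282758) (.two (nat_lit 9781116929) (nat_lit 3525312520) (.two (nat_lit 8388608) (nat_lit 13188989055) (.one (nat_lit 8389641) .nil))),
   .two (nat_lit 184549379) (nat_lit 337641479) (.two (nat_lit 16777217) (nat_lit 10506731548) (.two (nat_lit 16777216) (nat_lit 4194520) (.one (nat_lit 9902752311) .nil))),
   .two (nat_lit 713031683) (nat_lit 165526110216) (.two (nat_lit 8388608) (nat_lit 11477712957) (.one (nat_lit 2097818) .nil)),
   .two (nat_lit 12117344259) (nat_lit 310378522) (.one (nat_lit 10947133625) .nil),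
   .two (nat_lit 3464495107) (nat_lit 352321563) (.one (nat_lit 19612565688) .nil),
   .two (nat_lit 4601151491) (nat_lit 4028629018) (.one (nat_lit 21812478134) .nil),
   .two (nat_lit 19599982595) (nat_lit 822083592) (.two (nat_lit 4194304) (nat_lit 158662131758) (.one (nat_lit 19109249403) .nil)),
   .two (nat_lit 10385096707) (nat_lit 809500680) (.two (nat_lit 16777216) (nat_lit 28693234042) .nil),
   .two (nat_lit 721420291) (nat_lit 46980399108) (.two (nat_lit 4194305) (nat_lit 1358954506) (.two (nat_lit 16777216) (nat_lit 4194521) (.one (nat_lit 11513365405) .nil))),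
   .two (nat_lit 2889875458) (nat_lit 1847590920) (.two (nat_lit 4194304) (nat_lit 166197198875) (.one (nat_lit 2098186) .nil)),
   .two (nat_lit 11479810051) (nat_lit 13195280392) (.two (nat_lit 4194304) (nat_lit 13195280421) (.one (nat_lit 9974055238) .nil)),
   .two (nat_lit 117440515) (nat_lit 205520955) (.one (nat_lit 28806480846) .nil),
   .two (nat_lit 11492392963) (nat_lit 2961178633) (.two (nat_lit 16777216) (nat_lit 184993972260) (.one (nat_lit 8389275) .nil)),
   .two (nat_lit 8388611) (nat_lit 165526110229) (.two (nat_lit 2097152) (nat_lit 21818769523) (.one (nat_lit 10001318784) .nil)),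
   .two (nat_lit 75497475) (nat_lit 166130089999) (.two (nat_lit 8388608) (nat_lit 2097280) (.one (nat_lit 2098187) .nil)),
   .two (nat_lit 10504634371) (nat_lit 135266309) (.two (nat_lit 9765388289) (nat_lit 156969730101) (.one (nat_lit 1377829506) .nil)),
   .two (nat_lit 620756995) (nat_lit 184993972229) (.two (nat_lit 8388609) (nat_lit 165540790625) .nil),
   .two (nat_lit 4194306) (nat_lit 28758245381) (.two (nat_lit 2097153) (nat_lit 184989778048) (.one (nat_lit 4194973) .nil)),
   .two (nat_lit 101711875) (nat_lit 184423546884) (.two (nat_lit 41943041) (nat_lit 158143086600) (.two (nat_lit 2097152) (nat_lit 158143087183) .nil)),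
   .two (nat_lit 10385096707) (nat_lit 809500699) (.one (nat_lit 9969860792) .nil),
   .two (nat_lit 2954887171) (nat_lit 1846542344) (.two (nat_lit 2097152) (nat_lit 28790751275) (.one (nat_lit 1343226204) .nil)),
   .two (nat_lit 156367847427) (nat_lit 1913651227) (.one (nat_lit 10906239157) .nil),
   .two (nat_lit 184549379) (nat_lit 11476664324) (.two (nat_lit 16777217) (nat_lit 9765388303) (.two (nat_lit 1048576) (nat_lit 174701150262) (.one (nat_lit 157035791001) .nil))),
   .two (nat_lit 20644364291) (nat_lit 183962173461) (.two (nat_lit 8388608) (nat_lit 1761607784) (.one (nat_lit 3539993238) .nil)),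
   .two (nat_lit 4194306) (nat_lit 83886084) (.two (nat_lit 4194305) (nat_lit 21793603594) (.two (nat_lit 1048576) (nat_lit 1749024804) (.one (nat_lit 4194976) .nil))),
   .two (nat_lit 605028355) (nat_lit 21827158023) (.two (nat_lit 4194305) (nat_lit 251658298) (.one (nat_lit 2902459389) .nil)),
   .two (nat_lit 169869314) (nat_lit 156581756934) (.two (nat_lit 9781116929) (nat_lit 4028629002) (.two (nat_lit 8388608) (nat_lit 13222543573) (.one (nat_lit 16778253) .nil))),
   .two (nat_lit 46414168067) (nat_lit 11492392966) (.two (nat_lit 8388609) (nat_lit 46992982137) (.one (nat_lit 9982444518) .nil)),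
   .two (nat_lit 16777219) (nat_lit 10538188837) (.one (nat_lit 639631784) .nil),
   .two (nat_lit 8388610) (nat_lit 20638072836) (.two (nat_lit 41943041) (nat_lit 28690087944) (.two (nat_lit 1048576) (nat_lit 19094569018) (.one (nat_lit 8389647) .nil))),
   .two (nat_lit 50331651) (nat_lit 639631364) (.two (nat_lit 50331649) (nat_lit 21778923531) (.two (nat_lit 4194304) (nat_lit 11559501877) (.one (nat_lit 21827158839) .nil))),
   .two (nat_lit 83886083) (nat_lit 28793896981) (.two (nat_lit 16777216) (nat_lit 166132187172) (.one (nat_lit 4194977) .nil)),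
   .two (nat_lit 8388610) (nat_lit 1291845636) (.two (nat_lit 605028353) (nat_lit 174759870472) (.two (nat_lit 1048576) (nat_lit 3464495229) (.one (nat_lit 1276117948) .nil))),
   .two (nat_lit 11479810050) (nat_lit 13228834826) (.two (nat_lit 16777216) (nat_lit 157043130429) (.one (nat_lit 8389282) .nil)),
   .two (nat_lit 16777218) (nat_lit 18933088260) (.two (nat_lit 16777217) (nat_lit 19604176906) (.two (nat_lit 8388608) (nat_lit 16777492) .nil)),
   .two (nat_lit 721420291) (nat_lit 166132187144) (.two (nat_lit 2097152) (nat_lit 1426063413) (.one (nat_lit 4195344) .nil)),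
   .two (nat_lit 11484004355) (nat_lit 46409973787) (.one (nat_lit 1916797319) .nil),
   .two (nat_lit 4194306) (nat_lit 2994733062) (.two (nat_lit 37748737) (nat_lit 3531604026) (.one (nat_lit 4195345) .nil)),
   .two (nat_lit 75497475) (nat_lit 156367847430) (.two (nat_lit 8388609) (nat_lit 822083612) (.two (nat_lit 1048576) (nat_lit 1358955068) .nil)),
   .two (nat_lit 16777218) (nat_lit 158143086596) (.two (nat_lit 50331649) (nat_lit 806354955) (.two (nat_lit 1048576) (nat_lit 21793603634) (.one (nat_lit 20637024925) .nil))),
   .two (nat_lit 16777219) (nat_lit 159217876996) (.two (nat_lit 16777217) (nat_lit 740294748) (.one (nat_lit 16778258) .nil)),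
   .two (nat_lit 169869314) (nat_lit 21207449604) (.two (nat_lit 605028353) (nat_lit 1411383317) (.two (nat_lit 1048576) (nat_lit 807403707) (.one (nat_lit 9899606613) .nil))),
   .two (nat_lit 83886083) (nat_lit 772800526) (.two (nat_lit 4194304) (nat_lit 352321579) (.one (nat_lit 16778260) .nil)),
   .two (nat_lit 4605345795) (nat_lit 4632608834) (.one (nat_lit 874512992) .nil),
   .two (nat_lit 176160771) (nat_lit 9866051591) (.two (nat_lit 34603009) (nat_lit 28697428060) (.one (nat_lit 166237045091) .nil)),
   .two (nat_lit 184549379) (nat_lit 272629764) (.two (nat_lit 16777217) (nat_lit 21208498229) (.one (nat_lit 2098197) .nil)),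
   .two (nat_lit 159216828419) (nat_lit 174692761621) (.two (nat_lit 4194304) (nat_lit 37313577557) .nil),
   .two (nat_lit 809500675) (nat_lit 672137222) (.two (nat_lit 16777217) (nat_lit 1916796936) (.two (nat_lit 1048576) (nat_lit 47563407416) (.one (nat_lit 839910268) .nil))),
   .two (nat_lit 159217876995) (nat_lit 3527409679) (.two (nat_lit 2097152) (nat_lit 3460300885) (.one (nat_lit 4195350) .nil)),
   .two (nat_lit 4194306) (nat_lit 3464495112) (.two (nat_lit 1048576) (nat_lit 41943229) (.one (nat_lit 4195352) .nil)),
   .two (nat_lit 822083587) (nat_lit 739246090) (.two (nat_lit 16777216) (nat_lit 4027580606) (.one (nat_lit 2098201) .nil)),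
   .two (nat_lit 16777218) (nat_lit 4605345797) (.two (nat_lit 8388609) (nat_lit 285212708) (.one (nat_lit 11022631225) .nil)),
   .two (nat_lit 16777219) (nat_lit 68157444) (.two (nat_lit 4194305) (nat_lit 11510218769) (.two (nat_lit 4194304) (nat_lit 46422556717) (.one (nat_lit 159250383693) .nil))),
   .two (nat_lit 176160771) (nat_lit 169869316) (.two (nat_lit 50331649) (nat_lit 158075977782) (.one (nat_lit 28086108668) .nil)),
   .two (nat_lit 1343225859) (nat_lit 156976021511) (.two (nat_lit 41943041) (nat_lit 9866051592) (.two (nat_lit 2097152) (nat_lit 158075977785) (.one (nat_lit 1049627) .nil))),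
   .two (nat_lit 612368387) (nat_lit 739246084) (.two (nat_lit 612368385) (nat_lit 11476664329) (.two (nat_lit 16777216) (nat_lit 2886729803) (.one (nat_lit 1049253) .nil))),
   .two (nat_lit 822083587) (nat_lit 3527409670) (.two (nat_lit 4194305) (nat_lit 10385096712) (.two (nat_lit 4194304) (nat_lit 16777345) (.one (nat_lit 4195356) .nil))),
   .two (nat_lit 16777219) (nat_lit 2921332747) (.two (nat_lit 8388608) (nat_lit 12617515061) (.one (nat_lit 1049629) .nil)),
   .two (nat_lit 612368387) (nat_lit 46474985485) (.two (nat_lit 2097152) (nat_lit 10947133494) (.one (nat_lit 8389662) .nil)),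
   .two (nat_lit 11543773187) (nat_lit 41943047) (.two (nat_lit 34603009) (nat_lit 46414168072) (.two (nat_lit 8388608) (nat_lit 1048706) (.one (nat_lit 1049631) .nil))),
   .two (nat_lit 9934209027) (nat_lit 19596836874) (.two (nat_lit 16777216) (nat_lit 12617515061) (.one (nat_lit 1049632) .nil)),
   .two (nat_lit 8388611) (nat_lit 158077026308) (.two (nat_lit 2097153) (nat_lit 19096666175) (.one (nat_lit 2098209) .nil)),
   .two (nat_lit 156372041731) (nat_lit 20652752960) (.one (nat_lit 83886493) .nil),
   .two (nat_lit 176160771) (nat_lit 11479810052) (.two (nat_lit 8388609) (nat_lit 742391817) (.two (nat_lit 16777216) (nat_lit 104858168) .nil)),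
   .two (nat_lit 2887778306) (nat_lit 2956984331) (.two (nat_lit 8388608) (nat_lit 2988441725) (.one (nat_lit 4194982) .nil)),
   .two (nat_lit 34603011) (nat_lit 166132187140) (.two (nat_lit 2097153) (nat_lit 9899606079) (.one (nat_lit 4601152545) .nil)),
   .two (nat_lit 806354947) (nat_lit 20644364296) (.two (nat_lit 1048576) (nat_lit 2357198928) (.one (nat_lit 34603898) .nil)),
   .two (nat_lit 9934209027) (nat_lit 166129041416) (.two (nat_lit 1048576) (nat_lit 158177689656) (.one (nat_lit 1049634) .nil)),
   .two (nat_lit 8388610) (nat_lit 2969567236) (.two (nat_lit 16777217) (nat_lit 4605345800) (.two (nat_lit 2097152) (nat_lit 2927624219) (.one (nat_lit 645923736) .nil))),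
   .two (nat_lit 117440515) (nat_lit 8388645) (.one (nat_lit 8389044) .nil),
   .two (nat_lit 270532611) (nat_lit 46409973764) (.two (nat_lit 2097153) (nat_lit 20637024264) (.two (nat_lit 2097152) (nat_lit 19532873808) (.one (nat_lit 2098212) .nil))),
   .two (nat_lit 16777219) (nat_lit 184987680780) (.two (nat_lit 4194304) (nat_lit 156481093740) (.one (nat_lit 10336863257) .nil)),
   .two (nat_lit 605028355) (nat_lit 19530776584) (.two (nat_lit 4194304) (nat_lit 11543773243) (.one (nat_lit 1049637) .nil)),
   .two (nat_lit 2954887171) (nat_lit 28093448200) (.two (nat_lit 2097152) (nat_lit 158150426704) (.one (nat_lit 2098214) .nil)),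
   .two (nat_lit 20638072834) (nat_lit 156535619622) (.one (nat_lit 1379926378) .nil),
   .two (nat_lit 41943043) (nat_lit 1291845640) (.two (nat_lit 1048576) (nat_lit 166211879450) .nil),
   .two (nat_lit 50331651) (nat_lit 69206022) (.two (nat_lit 2097153) (nat_lit 20652752910) (.two (nat_lit 16777216) (nat_lit 4194525) (.one (nat_lit 16778279) .nil))),
   .two (nat_lit 2956984323) (nat_lit 184423546889) (.two (nat_lit 1048576) (nat_lit 8388739) (.one (nat_lit 8389287) .nil)),
   .two (nat_lit 184549379) (nat_lit 337641479) (.two (nat_lit 16777217) (nat_lit 10506731548) (.two (nat_lit 4194304) (nat_lit 2097374) (.one (nat_lit 21812478617) .nil))),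
   .two (nat_lit 169869314) (nat_lit 10537140230) (.two (nat_lit 8388609) (nat_lit 12148801588) (.one (nat_lit 1049640) .nil)),
   .two (nat_lit 4194306) (nat_lit 3525312527) (.two (nat_lit 4194304) (nat_lit 158176641104) (.one (nat_lit 1049641) .nil)),
   .two (nat_lit 285212675) (nat_lit 158176641030) (.two (nat_lit 16777217) (nat_lit 1276117022) (.two (nat_lit 8388608) (nat_lit 165540790380) (.one (nat_lit 16778282) .nil))),
   .two (nat_lit 9881780227) (nat_lit 641728522) (.two (nat_lit 2097152) (nat_lit 18928894057) (.one (nat_lit 4194984) .nil)),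
   .two (nat_lit 9933160451) (nat_lit 20638072840) (.two (nat_lit 2097152) (nat_lit 9966714938) (.one (nat_lit 2098219) .nil)),
   .two (nat_lit 605028355) (nat_lit 46414168068) (.two (nat_lit 8388609) (nat_lit 46977253387) (.two (nat_lit 4194304) (nat_lit 3464495157) (.one (nat_lit 8389677) .nil))),
   .two (nat_lit 713031683) (nat_lit 705691652) (.two (nat_lit 2097153) (nat_lit 20737687569) (.two (nat_lit 2097152) (nat_lit 158183981278) (.one (nat_lit 1376781294) .nil))),
   .two (nat_lit 4194306) (nat_lit 3036676102) (.two (nat_lit 16777217) (nat_lit 4601151496) (.two (nat_lit 4194304) (nat_lit 654311480) (.one (nat_lit 174755677218) .nil))),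
   .two (nat_lit 16777219) (nat_lit 158144135177) (.two (nat_lit 16777216) (nat_lit 772800565) (.one (nat_lit 1049646) .nil)),
   .two (nat_lit 639631363) (nat_lit 10939793416) (.two (nat_lit 2097152) (nat_lit 8388661) (.one (nat_lit 8389679) .nil)),
   .two (nat_lit 171966467) (nat_lit 174686470150) (.two (nat_lit 34603009) (nat_lit 1746927631) (.two (nat_lit 1048576) (nat_lit 11580473435) (.one (nat_lit 772801084) .nil))),
   .two (nat_lit 2969567235) (nat_lit 159250382869) (.two (nat_lit 8388608) (nat_lit 1745879162) (.one (nat_lit 1049258) .nil)),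
   .two (nat_lit 2889875458) (nat_lit 1847590920) (.two (nat_lit 4194304) (nat_lit 706740337) (.one (nat_lit 2098224) .nil)),
   .two (nat_lit 4194306) (nat_lit 19604176900) (.two (nat_lit 41943041) (nat_lit 156367847462) (.one (nat_lit 16778289) .nil)),
   .two (nat_lit 9948889091) (nat_lit 1175453700) (.two (nat_lit 8388609) (nat_lit 11543773203) (.two (nat_lit 16777216) (nat_lit 303038525) (.one (nat_lit 8389682) .nil))),
   .two (nat_lit 8388610) (nat_lit 9900654602) (.two (nat_lit 1048576) (nat_lit 13195280437) (.one (nat_lit 8389683) .nil)),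
   .two (nat_lit 34603011) (nat_lit 11492392968) (.two (nat_lit 1048576) (nat_lit 28806479952) (.one (nat_lit 16778292) .nil)),
   .two (nat_lit 2889875459) (nat_lit 10336862212) (.two (nat_lit 2097153) (nat_lit 876609586) (.one (nat_lit 843055423) .nil)),
   .two (nat_lit 8388610) (nat_lit 2921332755) (.two (nat_lit 16777216) (nat_lit 13221494811) (.one (nat_lit 1049653) .nil)),
   .two (nat_lit 8388611) (nat_lit 12050235396) (.two (nat_lit 8388609) (nat_lit 11479810058) (.two (nat_lit 2097152) (nat_lit 47588573240) (.one (nat_lit 158183982008) .nil))),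
   .two (nat_lit 165528207363) (nat_lit 2961178679) (.one (nat_lit 28705817645) .nil),
   .two (nat_lit 16777218) (nat_lit 20644364296) (.two (nat_lit 2097152) (nat_lit 159257723346) .nil),
   .two (nat_lit 41943043) (nat_lit 183845781508) (.two (nat_lit 612368385) (nat_lit 18925748241) (.two (nat_lit 1048576) (nat_lit 2424307768) (.one (nat_lit 1049654) .nil))),
   .two (nat_lit 8388610) (nat_lit 28087156744) (.two (nat_lit 8388608) (nat_lit 620757072) (.one (nat_lit 18941477940) .nil)),
   .two (nat_lit 721420291) (nat_lit 11479810092) (.one (nat_lit 156569174423) .nil),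
   .two (nat_lit 8388610) (nat_lit 28693233679) (.two (nat_lit 1048576) (nat_lit 46477082672) (.one (nat_lit 8389687) .nil)),
   .two (nat_lit 203423747) (nat_lit 174752530438) (.two (nat_lit 16777217) (nat_lit 806354988) (.one (nat_lit 1049656) .nil)),
   .two (nat_lit 2889875459) (nat_lit 19529728008) (.two (nat_lit 16777216) (nat_lit 876609592) (.one (nat_lit 843056078) .nil)),
   .two (nat_lit 4194306) (nat_lit 11584667654) (.two (nat_lit 4194305) (nat_lit 343932984) (.one (nat_lit 19096667190) .nil)),
   .two (nat_lit 8388610) (nat_lit 605028373) (.two (nat_lit 8388608) (nat_lit 19027460176) (.one (nat_lit 2098233) .nil)),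
   .two (nat_lit 16777219) (nat_lit 10504634374) (.two (nat_lit 41943041) (nat_lit 1862271036) (.one (nat_lit 2098234) .nil)),
   .two (nat_lit 639631363) (nat_lit 3527409670) (.two (nat_lit 620756993) (nat_lit 3024093205) (.two (nat_lit 16777216) (nat_lit 19128123473) (.one (nat_lit 2098236) .nil))),
   .two (nat_lit 8388610) (nat_lit 47550824460) (.two (nat_lit 4194304) (nat_lit 780140889) .nil),
   .two (nat_lit 754974723) (nat_lit 18926796812) (.two (nat_lit 4194304) (nat_lit 2097733) .nil),
   .two (nat_lit 721420291) (nat_lit 605028357) (.two (nat_lit 16777217) (nat_lit 1277165590) (.two (nat_lit 2097152) (nat_lit 21811429434) (.one (nat_lit 20638073873) .nil))),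
   .two (nat_lit 10385096707) (nat_lit 12117344266) (.two (nat_lit 2097152) (nat_lit 12117344295) (.one (nat_lit 1212154540) .nil)),
   .two (nat_lit 1283457027) (nat_lit 166144770094) (.one (nat_lit 184549783) .nil),
   .two (nat_lit 11559501827) (nat_lit 1178599432) (.two (nat_lit 2097152) (nat_lit 2420113490) (.one (nat_lit 2098238) .nil)),
   .two (nat_lit 11543773187) (nat_lit 174753579016) (.two (nat_lit 1048576) (nat_lit 21208498215) (.one (nat_lit 2887778952) .nil)),
   .two (nat_lit 4194306) (nat_lit 19597885446) (.two (nat_lit 4194305) (nat_lit 183928619028) (.two (nat_lit 8388608) (nat_lit 16777439) (.one (nat_lit 10385097556) .nil))),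
   .two (nat_lit 158150426627) (nat_lit 673185819) (.one (nat_lit 184417255845) .nil),
   .two (nat_lit 1358954499) (nat_lit 1417674779) (.one (nat_lit 8389046) .nil),
   .two (nat_lit 156968681475) (nat_lit 183853121601) (.one (nat_lit 20644364651) .nil),
   .two (nat_lit 9768534019) (nat_lit 156365750276) (.two (nat_lit 2097153) (nat_lit 47550824459) (.two (nat_lit 16777216) (nat_lit 1279263391) .nil)),
   .two (nat_lit 4194306) (nat_lit 20644364292) (.two (nat_lit 16777217) (nat_lit 158083317813) (.one (nat_lit 8389696) .nil)),
   .two (nat_lit 8388610) (nat_lit 46980399108) (.two (nat_lit 4194305) (nat_lit 8388616) (.two (nat_lit 2097152) (nat_lit 8388832) (.one (nat_lit 8389697) .nil))),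
   .two (nat_lit 47550824451) (nat_lit 10940841992) (.two (nat_lit 1048576) (nat_lit 675282997) (.one (nat_lit 138413049) .nil)),
   .two (nat_lit 16777219) (nat_lit 739246084) (.two (nat_lit 16777217) (nat_lit 12114198536) (.two (nat_lit 4194304) (nat_lit 174752530537) (.one (nat_lit 1929380711) .nil))),
   .two (nat_lit 272629763) (nat_lit 3558866950) (.two (nat_lit 2097153) (nat_lit 158179786764) (.two (nat_lit 2097152) (nat_lit 156367847640) (.one (nat_lit 2097838) .nil))),
   .two (nat_lit 4194306) (nat_lit 1846542340) (.two (nat_lit 37748737) (nat_lit 839909387) (.two (nat_lit 2097152) (nat_lit 46977254013) .nil)),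
   .two (nat_lit 83886083) (nat_lit 28757196808) (.two (nat_lit 1048576) (nat_lit 1325400154) (.one (nat_lit 10385097052) .nil)),
   .two (nat_lit 16777219) (nat_lit 12147752980) (.two (nat_lit 4194304) (nat_lit 68158095) .nil),
   .two (nat_lit 218103811) (nat_lit 2420113459) (.one (nat_lit 10335814523) .nil),
   .two (nat_lit 4194306) (nat_lit 46978301956) (.two (nat_lit 8388609) (nat_lit 174753579058) (.one (nat_lit 236978773) .nil)),
   .two (nat_lit 117440515) (nat_lit 19093520390) (.two (nat_lit 9765388289) (nat_lit 20652752950) (.one (nat_lit 1049667) .nil)),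
   .two (nat_lit 159224168451) (nat_lit 11610882113) (.one (nat_lit 21207449945) .nil),
   .two (nat_lit 184549379) (nat_lit 11543773188) (.two (nat_lit 16777217) (nat_lit 21777874952) (.two (nat_lit 8388608) (nat_lit 2902458427) (.one (nat_lit 16778308) .nil))),
   .two (nat_lit 16777218) (nat_lit 101711878) (.two (nat_lit 4194305) (nat_lit 157035790379) (.one (nat_lit 8389701) .nil)),
   .two (nat_lit 1178599427) (nat_lit 1745879048) (.two (nat_lit 8388608) (nat_lit 2889875515) (.one (nat_lit 166232851270) .nil)),
   .two (nat_lit 10506731523) (nat_lit 46414168072) (.two (nat_lit 4194304) (nat_lit 9873391662) (.one (nat_lit 10913579661) .nil)),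
   .two (nat_lit 11479810050) (nat_lit 28790751238) (.two (nat_lit 34603009) (nat_lit 19130220580) (.one (nat_lit 4195398) .nil)),
   .two (nat_lit 203423747) (nat_lit 158143086600) (.two (nat_lit 2097152) (nat_lit 303038525) (.one (nat_lit 1049671) .nil)),
   .two (nat_lit 159217876995) (nat_lit 165532401672) (.two (nat_lit 2097152) (nat_lit 19130220603) (.one (nat_lit 4195401) .nil)),
   .two (nat_lit 270532611) (nat_lit 183848927236) (.two (nat_lit 37748737) (nat_lit 11476664328) (.two (nat_lit 1048576) (nat_lit 184419352629) (.one (nat_lit 4195402) .nil))),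
   .two (nat_lit 721420290) (nat_lit 165532401670) (.two (nat_lit 8388609) (nat_lit 2936012860) (.one (nat_lit 2365588087) .nil)),
   .two (nat_lit 34603011) (nat_lit 713031684) (.two (nat_lit 4194305) (nat_lit 12114198541) (.two (nat_lit 8388608) (nat_lit 20737687633) (.one (nat_lit 8389708) .nil))),
   .two (nat_lit 176160771) (nat_lit 21827158023) (.two (nat_lit 16777217) (nat_lit 1417675028) .nil),
   .two (nat_lit 183861510147) (nat_lit 880803867) (.one (nat_lit 28697428154) .nil),
   .two (nat_lit 16777219) (nat_lit 10336862223) (.two (nat_lit 16777216) (nat_lit 1948254300) (.one (nat_lit 174753580047) .nil))]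

theorem k0 : chkL tab c0 (nat_lit 0) = true := by decide +kernel

theorem l0 : c0.length = 2100 := by decide +kernel

end K5

end Pool.Agent.Work.MP_bf01b2_co.MR
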