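import Pool.Agent.Work.MP_bf01b2_co.MR.K5T

/-!
# Five roots in `Q_5`: certificates of the entries 2100 to 4199
-/

set_option autoImplicit false
set_option maxRecDepth 100000

namespace Pool.Agent.Work.MP_bf01b2_co.MR

namespace K5

open JT

/-- certificates of the entries 2100 to 4199 -/
def c1 : List Rc :=
  [.two (nat_lit 176160770) (nat_lit 236978196) (.two (nat_lit 2097152) (nat_lit 1779433515) (.one (nat_lit 1049677) .nil)),
   .two (nat_lit 8388611) (nat_lit 2988441605) (.two (nat_lit 8388609) (nat_lit 4632608877) (.one (nat_lit 2098254) .nil)),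
   .two (nat_lit 612368387) (nat_lit 184986632200) (.two (nat_lit 8388608) (nat_lit 1276117095) (.one (nat_lit 1049679) .nil)),
   .two (nat_lit 1277165571) (nat_lit 11010048027) (.one (nat_lit 306184602) .nil),
   .two (nat_lit 203423747) (nat_lit 47555018760) (.two (nat_lit 2097152) (nat_lit 11014242925) .nil),
   .two (nat_lit 4194306) (nat_lit 16777221) (.two (nat_lit 16777217) (nat_lit 4601151496) (.two (nat_lit 16777216) (nat_lit 4634706353) .nil)),
   .two (nat_lit 117440515) (nat_lit 47582281755) (.one (nat_lit 2418016442) .nil),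
   .two (nat_lit 10503585795) (nat_lit 9867100213) (.one (nat_lit 2098256) .nil),
   .two (nat_lit 16777218) (nat_lit 11543773192) (.two (nat_lit 16777216) (nat_lit 1048708) (.one (nat_lit 10537140592) .nil)),
   .two (nat_lit 4194306) (nat_lit 20644364298) (.two (nat_lit 16777216) (nat_lit 20644364341) (.one (nat_lit 8389713) .nil)),
   .two (nat_lit 46409973762) (nat_lit 184416206856) (.two (nat_lit 4194304) (nat_lit 2416967719) (.one (nat_lit 20737688200) .nil)),
   .two (nat_lit 654311427) (nat_lit 1749024816) (.one (nat_lit 8389714) .nil),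
   .two (nat_lit 16777219) (nat_lit 1175453700) (.two (nat_lit 8388609) (nat_lit 4043309114) (.one (nat_lit 174701151281) .nil)),
   .two (nat_lit 16777219) (nat_lit 156569174034) (.two (nat_lit 1048576) (nat_lit 157038936128) (.one (nat_lit 16778323) .nil)),
   .two (nat_lit 1916796931) (nat_lit 10504634376) (.two (nat_lit 4194304) (nat_lit 184417255846) .nil),
   .two (nat_lit 171966467) (nat_lit 174759870469) (.two (nat_lit 8388609) (nat_lit 1358954517) (.two (nat_lit 16777216) (nat_lit 13187940467) (.one (nat_lit 11492393856) .nil))),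
   .two (nat_lit 11543773187) (nat_lit 156569174021) (.two (nat_lit 9768534017) (nat_lit 739246088) (.two (nat_lit 4194304) (nat_lit 174685421989) .nil)),
   .two (nat_lit 218103811) (nat_lit 13195280392) (.two (nat_lit 16777216) (nat_lit 46984593924) .nil),
   .two (nat_lit 75497475) (nat_lit 183845781513) (.two (nat_lit 8388608) (nat_lit 10540286008) (.one (nat_lit 4195412) .nil)),
   .two (nat_lit 165532401667) (nat_lit 159251431465) (.one (nat_lit 13188989219) .nil),
   .two (nat_lit 8388610) (nat_lit 11559501832) (.two (nat_lit 2097152) (nat_lit 156976021590) (.one (nat_lit 19100861514) .nil)),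
   .two (nat_lit 50331651) (nat_lit 641728520) (.two (nat_lit 8388608) (nat_lit 2317353016) (.one (nat_lit 2098085) .nil)),
   .two (nat_lit 4194306) (nat_lit 10552868870) (.two (nat_lit 620756993) (nat_lit 13191086088) (.two (nat_lit 8388608) (nat_lit 13224640577) (.one (nat_lit 2902459418) .nil))),
   .two (nat_lit 203423747) (nat_lit 47555018757) (.two (nat_lit 2097153) (nat_lit 10913579103) (.one (nat_lit 9906946678) .nil)),
   .two (nat_lit 739246083) (nat_lit 10940841988) (.two (nat_lit 605028353) (nat_lit 10538188810) (.two (nat_lit 1048576) (nat_lit 3525312732) (.one (nat_lit 2098261) .nil))),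
   .two (nat_lit 605028355) (nat_lit 28691136522) (.two (nat_lit 4194304) (nat_lit 11577327669) (.one (nat_lit 1049686) .nil)),
   .two (nat_lit 8388610) (nat_lit 3573547014) (.two (nat_lit 41943041) (nat_lit 10939793418) (.two (nat_lit 8388608) (nat_lit 158158815347) (.one (nat_lit 8389719) .nil))),
   .two (nat_lit 101711875) (nat_lit 37314625563) (.one (nat_lit 46407877029) .nil),
   .two (nat_lit 8388610) (nat_lit 184986632200) (.two (nat_lit 8388608) (nat_lit 1309671524) (.one (nat_lit 672137584) .nil)),
   .two (nat_lit 171966467) (nat_lit 46992982045) (.two (nat_lit 4194304) (nat_lit 9982444079) .nil),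
   .two (nat_lit 4194306) (nat_lit 218103816) (.two (nat_lit 16777216) (nat_lit 4634706135) (.one (nat_lit 4195417) .nil)),
   .two (nat_lit 8388610) (nat_lit 46507491375) (.one (nat_lit 16778330) .nil),
   .two (nat_lit 4194306) (nat_lit 184416206856) (.two (nat_lit 4194304) (nat_lit 37246468173) (.one (nat_lit 158143086918) .nil)),
   .two (nat_lit 176160770) (nat_lit 184986632198) (.two (nat_lit 2097153) (nat_lit 612368392) (.two (nat_lit 2097152) (nat_lit 1779433515) (.one (nat_lit 10913579861) .nil))),
   .two (nat_lit 75497475) (nat_lit 754974724) (.two (nat_lit 50331649) (nat_lit 10506731648) (.one (nat_lit 16778331) .nil)),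
   .two (nat_lit 16777218) (nat_lit 9766436868) (.two (nat_lit 16777217) (nat_lit 184993972277) (.one (nat_lit 8389724) .nil)),
   .two (nat_lit 10940841987) (nat_lit 1291845640) (.two (nat_lit 2097152) (nat_lit 1224736829) (.one (nat_lit 46992982682) .nil)),
   .two (nat_lit 9948889091) (nat_lit 19596836879) (.two (nat_lit 2097152) (nat_lit 101711968) (.one (nat_lit 1049693) .nil)),
   .two (nat_lit 28758245379) (nat_lit 156971827210) (.two (nat_lit 2097152) (nat_lit 876609886) .nil),
   .two (nat_lit 176160770) (nat_lit 46978301956) (.two (nat_lit 2097153) (nat_lit 176160776) (.two (nat_lit 2097152) (nat_lit 8388635) (.one (nat_lit 8389726) .nil))),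
   .two (nat_lit 1343225859) (nat_lit 218103812) (.two (nat_lit 606076929) (nat_lit 156532473933) (.one (nat_lit 16777905) .nil)),
   .two (nat_lit 8388610) (nat_lit 184419352584) (.two (nat_lit 1048576) (nat_lit 9873391702) (.one (nat_lit 8389727) .nil)),
   .two (nat_lit 176160770) (nat_lit 20638072836) (.two (nat_lit 8388609) (nat_lit 21208498229) (.one (nat_lit 2098272) .nil)),
   .two (nat_lit 4194306) (nat_lit 654311430) (.two (nat_lit 37748737) (nat_lit 28757196808) (.two (nat_lit 16777216) (nat_lit 4601151541) (.one (nat_lit 1049697) .nil))),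
   .two (nat_lit 11559501827) (nat_lit 104857604) (.two (nat_lit 4194305) (nat_lit 3003121779) (.one (nat_lit 8389730) .nil)),
   .two (nat_lit 4194306) (nat_lit 50331676) (.two (nat_lit 8388608) (nat_lit 166211878968) (.one (nat_lit 13203669579) .nil)),
   .two (nat_lit 2902458370) (nat_lit 1343225876) (.two (nat_lit 8388608) (nat_lit 165540790380) (.one (nat_lit 822084466) .nil)),
   .two (nat_lit 184549379) (nat_lit 612368452) .nil,
   .two (nat_lit 9866051587) (nat_lit 184993972250) (.one (nat_lit 9906946666) .nil),
   .two (nat_lit 285212675) (nat_lit 183848927240) (.two (nat_lit 4194304) (nat_lit 165540790398) (.one (nat_lit 50332625) .nil)),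
   .two (nat_lit 69206019) (nat_lit 47555018760) (.two (nat_lit 2097152) (nat_lit 1916796987) (.one (nat_lit 4195428) .nil)),
   .two (nat_lit 16777218) (nat_lit 184993972228) (.two (nat_lit 16777217) (nat_lit 46481276940) (.two (nat_lit 8388608) (nat_lit 10519314482) (.one (nat_lit 11492393264) .nil))),
   .two (nat_lit 809500675) (nat_lit 1344274443) (.two (nat_lit 4194304) (nat_lit 12148801596) (.one (nat_lit 159251431953) .nil)),
   .two (nat_lit 9933160451) (nat_lit 20705181752) (.one (nat_lit 1049701) .nil),
   .two (nat_lit 184416206851) (nat_lit 9881780228) (.two (nat_lit 34603009) (nat_lit 158192369683) (.two (nat_lit 1048576) (nat_lit 158091706451) (.one (nat_lit 218104908) .nil))),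
   .two (nat_lit 16777218) (nat_lit 46510637095) (.one (nat_lit 46980399408) .nil),
   .two (nat_lit 3458203651) (nat_lit 50331663) (.two (nat_lit 2097152) (nat_lit 16777350) (.one (nat_lit 16778342) .nil)),
   .two (nat_lit 16777218) (nat_lit 11543773192) (.two (nat_lit 16777216) (nat_lit 11510218805) (.one (nat_lit 174752530728) .nil)),
   .two (nat_lit 4194306) (nat_lit 37313576981) (.two (nat_lit 2097152) (nat_lit 9902752290) .nil),
   .two (nat_lit 705691650) (nat_lit 28791799818) (.two (nat_lit 1048576) (nat_lit 4632608959) (.one (nat_lit 4632609272) .nil)),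
   .two (nat_lit 721420290) (nat_lit 28086108164) (.two (nat_lit 50331649) (nat_lit 165525061642) (.two (nat_lit 1048576) (nat_lit 11559501860) (.one (nat_lit 16777907) .nil))),
   .two (nat_lit 4194306) (nat_lit 10947133446) (.two (nat_lit 620756993) (nat_lit 1178599462) (.one (nat_lit 109052928) .nil)),
   .two (nat_lit 101711875) (nat_lit 20638072836) (.two (nat_lit 606076929) (nat_lit 9866051592) (.two (nat_lit 2097152) (nat_lit 1343225883) (.one (nat_lit 1049704) .nil))),
   .two (nat_lit 4194306) (nat_lit 1780482070) (.two (nat_lit 1048576) (nat_lit 4634706005) (.one (nat_lit 2990539651) .nil)),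
   .two (nat_lit 9948889091) (nat_lit 21811429403) (.one (nat_lit 1309671605) .nil),
   .two (nat_lit 10506731523) (nat_lit 1913651227) (.one (nat_lit 9933160634) .nil),
   .two (nat_lit 176160771) (nat_lit 3458203656) (.two (nat_lit 4194304) (nat_lit 102760493) (.one (nat_lit 8389737) .nil)),
   .two (nat_lit 184993972227) (nat_lit 47548727340) (.one (nat_lit 10001318968) .nil),
   .two (nat_lit 28093448195) (nat_lit 71303230) (.one (nat_lit 10338959719) .nil),
   .two (nat_lit 8388610) (nat_lit 1749024776) (.two (nat_lit 16777216) (nat_lit 28793897046) (.one (nat_lit 4195435) .nil)),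
   .two (nat_lit 4194306) (nat_lit 46984593412) (.two (nat_lit 8388609) (nat_lit 13191086088) (.two (nat_lit 8388608) (nat_lit 158143086651) (.one (nat_lit 1049708) .nil))),
   .two (nat_lit 169869314) (nat_lit 174752530436) (.two (nat_lit 2097153) (nat_lit 159250382976) (.one (nat_lit 1049709) .nil)),
   .two (nat_lit 16777218) (nat_lit 10504634434) (.one (nat_lit 4195438) .nil),
   .two (nat_lit 50331651) (nat_lit 612368392) (.two (nat_lit 16777216) (nat_lit 166130090043) (.one (nat_lit 2098287) .nil)),
   .two (nat_lit 184549378) (nat_lit 772800518) (.two (nat_lit 34603009) (nat_lit 184549412) (.one (nat_lit 705692199) .nil)),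
   .two (nat_lit 41943043) (nat_lit 620756996) (.two (nat_lit 16777217) (nat_lit 183853121544) (.two (nat_lit 8388608) (nat_lit 156380430420) (.one (nat_lit 20719862429) .nil))),
   .two (nat_lit 620756996) (nat_lit 166232850439) (.two (nat_lit 171966467) (nat_lit 183962173492) (.two (nat_lit 1048576) (nat_lit 11525947686) (.one (nat_lit 9798943898) .nil))),
   .two (nat_lit 721420292) (nat_lit 21214789636) (.two (nat_lit 158150426627) (nat_lit 19612565552) (.two (nat_lit 4194304) (nat_lit 21827158320) (.one (nat_lit 28693235016) .nil))),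
   .two (nat_lit 184416206852) (nat_lit 158144135183) (.two (nat_lit 34603009) (nat_lit 28087156789) (.two (nat_lit 1048576) (nat_lit 21812478135) (.one (nat_lit 19596837304) .nil))),
   .two (nat_lit 117440516) (nat_lit 183845781508) (.two (nat_lit 16777219) (nat_lit 156466413578) (.two (nat_lit 34603009) (nat_lit 10504634751) (.one (nat_lit 174753580147) .nil))),
   .two (nat_lit 21207449604) (nat_lit 19530776584) (.two (nat_lit 9766436865) (nat_lit 2349858843) (.two (nat_lit 2097152) (nat_lit 1049100) (.one (nat_lit 158075979080) .nil))),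
   .two (nat_lit 20637024260) (nat_lit 165526110216) (.two (nat_lit 4194305) (nat_lit 19128123438) (.two (nat_lit 1048576) (nat_lit 166230753573) (.one (nat_lit 156466414709) .nil))),
   .two (nat_lit 4194308) (nat_lit 2969567236) (.two (nat_lit 4194306) (nat_lit 156465365015) (.two (nat_lit 37748737) (nat_lit 9866051641) (.two (nat_lit 2097152) (nat_lit 156481094340) .nil))),
   .two (nat_lit 46414168068) (nat_lit 1847590920) (.two (nat_lit 8388609) (nat_lit 270532657) (.two (nat_lit 2097152) (nat_lit 184993972493) (.one (nat_lit 21214790774) .nil))),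
   .two (nat_lit 10343153669) (nat_lit 21777874951) (.two (nat_lit 12121538563) (nat_lit 873463854) (.two (nat_lit 2097152) (nat_lit 1048894) (.one (nat_lit 1049964) .nil))),
   .two (nat_lit 50331652) (nat_lit 705691667) (.two (nat_lit 2097153) (nat_lit 2886729913) (.one (nat_lit 339739386) .nil)),
   .two (nat_lit 8388612) (nat_lit 12117344264) (.two (nat_lit 8388609) (nat_lit 1413480496) (.two (nat_lit 4194304) (nat_lit 1920991545) (.one (nat_lit 3024093911) .nil))),
   .two (nat_lit 11492392964) (nat_lit 158143086598) (.two (nat_lit 11492392962) (nat_lit 2349858829) (.two (nat_lit 4194305) (nat_lit 4647288900) (.one (nat_lit 165525062768) .nil))),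
   .two (nat_lit 2887778308) (nat_lit 9768534024) (.two (nat_lit 2097153) (nat_lit 46406828350) (.one (nat_lit 9765388992) .nil)),
   .two (nat_lit 2961178628) (nat_lit 19599982597) (.two (nat_lit 176160770) (nat_lit 157038936082) (.two (nat_lit 605028353) (nat_lit 28089253945) (.two (nat_lit 1048576) (nat_lit 10338959656) (.one (nat_lit 20644365431) .nil)))),
   .two (nat_lit 41943044) (nat_lit 158077026308) (.two (nat_lit 8388610) (nat_lit 183848927254) (.two (nat_lit 2097153) (nat_lit 46477082672) (.two (nat_lit 1048576) (nat_lit 606077310) (.one (nat_lit 10506732760) .nil)))),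
   .two (nat_lit 754974724) (nat_lit 46414168070) (.two (nat_lit 176160771) (nat_lit 1191182344) (.two (nat_lit 8388609) (nat_lit 10370416706) (.two (nat_lit 2097152) (nat_lit 16777741) (.one (nat_lit 2098541) .nil)))),
   .two (nat_lit 2887778308) (nat_lit 104857604) (.two (nat_lit 2097155) (nat_lit 4034920459) (.two (nat_lit 34603009) (nat_lit 2921332919) (.one (nat_lit 8389998) .nil))),
   .two (nat_lit 12129927172) (nat_lit 19532873736) (.two (nat_lit 37748737) (nat_lit 847249457) (.two (nat_lit 2097152) (nat_lit 4194486) (.one (nat_lit 20753417513) .nil))),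
   .two (nat_lit 754974724) (nat_lit 166132187140) (.two (nat_lit 721420291) (nat_lit 1849688074) (.two (nat_lit 9768534017) (nat_lit 1191182372) (.two (nat_lit 4194304) (nat_lit 3036676395) (.one (nat_lit 11546919659) .nil)))),
   .two (nat_lit 612368388) (nat_lit 3460300804) (.two (nat_lit 713031683) (nat_lit 46510637066) (.two (nat_lit 4194305) (nat_lit 21785215041) (.two (nat_lit 1048576) (nat_lit 10003415342) (.one (nat_lit 9798943428) .nil)))),
   .two (nat_lit 158144135172) (nat_lit 28093448196) (.two (nat_lit 1277165570) (nat_lit 37320917002) (.two (nat_lit 9765388289) (nat_lit 12148801824) (.one (nat_lit 10370417430) .nil))),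
   .two (nat_lit 169869316) (nat_lit 157038936068) (.two (nat_lit 169869314) (nat_lit 158176641087) (.two (nat_lit 2097152) (nat_lit 1049102) (.one (nat_lit 2953839732) .nil))),
   .two (nat_lit 159251431429) (nat_lit 1846542343) (.two (nat_lit 9866051587) (nat_lit 165526110227) (.two (nat_lit 34603009) (nat_lit 37314625592) (.two (nat_lit 2097152) (nat_lit 1779433811) (.one (nat_lit 672137943) .nil)))),
   .two (nat_lit 9881780228) (nat_lit 4034920462) (.two (nat_lit 8388609) (nat_lit 876609582) (.two (nat_lit 1048576) (nat_lit 1212154625) .nil)),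
   .two (nat_lit 50331652) (nat_lit 46409973764) (.two (nat_lit 16777218) (nat_lit 46980399113) (.two (nat_lit 2097153) (nat_lit 876609908) (.one (nat_lit 4195695) .nil))),
   .two (nat_lit 8388612) (nat_lit 606076936) (.two (nat_lit 4194305) (nat_lit 46984593716) (.one (nat_lit 13191086870) .nil)),
   .two (nat_lit 50331652) (nat_lit 21777874948) (.two (nat_lit 822083587) (nat_lit 20637024266) (.two (nat_lit 34603009) (nat_lit 37262196796) (.two (nat_lit 1048576) (nat_lit 2432696842) (.one (nat_lit 156364702498) .nil)))),
   .two (nat_lit 83886084) (nat_lit 28093448211) (.two (nat_lit 4194305) (nat_lit 37253808173) (.two (nat_lit 8388608) (nat_lit 19532874082) (.one (nat_lit 16778608) .nil))),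
   .two (nat_lit 20638072836) (nat_lit 28086108168) (.two (nat_lit 605028353) (nat_lit 19128123575) (.one (nat_lit 37247517441) .nil)),
   .two (nat_lit 218103812) (nat_lit 184993972228) (.two (nat_lit 713031683) (nat_lit 218103816) (.two (nat_lit 9765388289) (nat_lit 142606389) (.two (nat_lit 1048576) (nat_lit 3003122130) (.one (nat_lit 16778609) .nil)))),
   .two (nat_lit 2969567236) (nat_lit 1779433480) (.two (nat_lit 605028353) (nat_lit 251658433) (.two (nat_lit 16777216) (nat_lit 336593217) (.one (nat_lit 20704133911) .nil))),
   .two (nat_lit 822083588) (nat_lit 183912890377) (.two (nat_lit 16777217) (nat_lit 10537140564) (.one (nat_lit 165525062354) .nil)),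
   .two (nat_lit 46409973764) (nat_lit 158083317768) (.two (nat_lit 156372041729) (nat_lit 12117344526) (.one (nat_lit 10439623977) .nil)),
   .two (nat_lit 184549380) (nat_lit 9967763461) (.two (nat_lit 9934209027) (nat_lit 165525061672) (.two (nat_lit 2097152) (nat_lit 158075978168) .nil)),
   .two (nat_lit 20644364292) (nat_lit 28690087944) (.two (nat_lit 612368385) (nat_lit 18925748290) (.two (nat_lit 1048576) (nat_lit 47555018820) (.one (nat_lit 8390002) .nil))),
   .two (nat_lit 3460300804) (nat_lit 47548727316) (.two (nat_lit 4194305) (nat_lit 135266628) (.one (nat_lit 21777875647) .nil)),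
   .two (nat_lit 16777220) (nat_lit 13191086086) (.two (nat_lit 184549378) (nat_lit 673185805) (.two (nat_lit 16777217) (nat_lit 102760502) (.two (nat_lit 2097152) (nat_lit 166144770382) (.one (nat_lit 270533334) .nil)))),
   .two (nat_lit 9881780228) (nat_lit 11479810054) (.two (nat_lit 708837379) (nat_lit 9881780232) (.two (nat_lit 4194305) (nat_lit 21827158043) (.two (nat_lit 2097152) (nat_lit 11525948112) .nil))),
   .two (nat_lit 9881780228) (nat_lit 306184197) (.two (nat_lit 272629763) (nat_lit 9948889129) (.two (nat_lit 16777216) (nat_lit 9802088726) (.one (nat_lit 4195699) .nil))),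
   .two (nat_lit 10343153668) (nat_lit 28758245384) (.two (nat_lit 606076929) (nat_lit 1753219350) (.one (nat_lit 47588574348) .nil)),
   .two (nat_lit 1277165572) (nat_lit 1753219077) (.two (nat_lit 18933088259) (nat_lit 1277165576) (.two (nat_lit 8388609) (nat_lit 174753579409) (.one (nat_lit 8390004) .nil))),
   .two (nat_lit 218103812) (nat_lit 1317011462) (.two (nat_lit 184549379) (nat_lit 10343153672) (.two (nat_lit 8388609) (nat_lit 218103833) (.two (nat_lit 4194304) (nat_lit 10552869043) (.one (nat_lit 276825418) .nil)))),
   .two (nat_lit 11559501828) (nat_lit 47548727304) (.two (nat_lit 2097153) (nat_lit 721420328) (.two (nat_lit 16777216) (nat_lit 874513154) .nil)),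
   .two (nat_lit 11492392964) (nat_lit 21208498182) (.two (nat_lit 9934209027) (nat_lit 28806479899) (.two (nat_lit 2097152) (nat_lit 3472883895) (.one (nat_lit 1780482849) .nil))),
   .two (nat_lit 50331652) (nat_lit 1317011482) (.two (nat_lit 8388608) (nat_lit 12129927482) (.one (nat_lit 1182794526) .nil)),
   .two (nat_lit 101711876) (nat_lit 1279262732) (.two (nat_lit 34603009) (nat_lit 608174128) (.two (nat_lit 4194304) (nat_lit 10906239306) (.one (nat_lit 1049973) .nil))),
   .two (nat_lit 713031684) (nat_lit 158077026308) (.two (nat_lit 13195280387) (nat_lit 21778923541) (.two (nat_lit 37748737) (nat_lit 1948254253) (.two (nat_lit 2097152) (nat_lit 843055479) (.one (nat_lit 156533523634) .nil)))),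
   .two (nat_lit 2961178628) (nat_lit 2969567238) (.two (nat_lit 285212675) (nat_lit 159224168456) (.two (nat_lit 16777217) (nat_lit 2994733094) (.two (nat_lit 1048576) (nat_lit 9948889436) (.one (nat_lit 3020948182) .nil)))),
   .two (nat_lit 705691652) (nat_lit 343932937) (.two (nat_lit 8388609) (nat_lit 11577327669) (.two (nat_lit 1048576) (nat_lit 47555019127) (.one (nat_lit 10947134148) .nil))),
   .two (nat_lit 1358954500) (nat_lit 9768534022) (.two (nat_lit 612368387) (nat_lit 1749024776) (.two (nat_lit 41943041) (nat_lit 708837688) (.one (nat_lit 4195702) .nil))),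
   .two (nat_lit 46409973764) (nat_lit 184416206856) (.two (nat_lit 4194305) (nat_lit 158075977810) (.two (nat_lit 2097152) (nat_lit 174685421880) (.one (nat_lit 2416968966) .nil))),
   .two (nat_lit 2954887172) (nat_lit 156465365001) (.two (nat_lit 606076929) (nat_lit 1947205900) (.one (nat_lit 1049975) .nil)),
   .two (nat_lit 4601151492) (nat_lit 9966714892) (.two (nat_lit 37748737) (nat_lit 3557818428) (.two (nat_lit 4194304) (nat_lit 1049104) (.one (nat_lit 19029558004) .nil))),
   .two (nat_lit 3460300804) (nat_lit 166245433350) (.two (nat_lit 171966467) (nat_lit 9948889096) (.two (nat_lit 37748737) (nat_lit 183946444846) (.two (nat_lit 8388608) (nat_lit 183946444983) (.one (nat_lit 1049977) .nil)))),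
   .two (nat_lit 159224168452) (nat_lit 166130089992) (.two (nat_lit 156365750273) (nat_lit 12054429981) (.one (nat_lit 9772729712) .nil)),
   .two (nat_lit 3460300804) (nat_lit 20638072840) (.two (nat_lit 4194305) (nat_lit 166197198904) (.two (nat_lit 1048576) (nat_lit 13191086148) (.one (nat_lit 4195706) .nil))),
   .two (nat_lit 156372041732) (nat_lit 37314625542) (.two (nat_lit 11484004355) (nat_lit 754974728) (.two (nat_lit 8388609) (nat_lit 12048138354) (.two (nat_lit 2097152) (nat_lit 21223178733) (.one (nat_lit 37247517986) .nil)))),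
   .two (nat_lit 16777220) (nat_lit 3464495112) (.two (nat_lit 8388609) (nat_lit 218103844) (.two (nat_lit 8388608) (nat_lit 3573547488) (.one (nat_lit 46481278229) .nil))),
   .two (nat_lit 742391812) (nat_lit 21777874948) (.two (nat_lit 34603011) (nat_lit 11479810056) (.two (nat_lit 2097153) (nat_lit 21210595389) (.two (nat_lit 1048576) (nat_lit 47584379177) (.one (nat_lit 157035791044) .nil)))),
   .two (nat_lit 9948889092) (nat_lit 9967763461) (.two (nat_lit 9934209027) (nat_lit 3539992633) (.two (nat_lit 2097152) (nat_lit 156984410430) (.one (nat_lit 9881781029) .nil))),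
   .two (nat_lit 16777222) (nat_lit 47582281733) (.two (nat_lit 16777219) (nat_lit 2988441613) (.two (nat_lit 16777217) (nat_lit 46508540085) (.one (nat_lit 16778619) .nil))),
   .two (nat_lit 117440516) (nat_lit 183845781508) (.two (nat_lit 4599054339) (nat_lit 1795162157) (.two (nat_lit 1048576) (nat_lit 10921967984) (.one (nat_lit 9766438001) .nil))),
   .two (nat_lit 176160772) (nat_lit 1277165574) (.two (nat_lit 2097155) (nat_lit 343932955) (.two (nat_lit 1048576) (nat_lit 2889875744) (.one (nat_lit 873465199) .nil))),
   .two (nat_lit 184549380) (nat_lit 10343153668) (.two (nat_lit 3464495107) (nat_lit 184549401) (.two (nat_lit 8388608) (nat_lit 1224737089) (.one (nat_lit 16778620) .nil))),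
   .two (nat_lit 9934209028) (nat_lit 46980399108) (.two (nat_lit 3527409667) (nat_lit 9934209032) (.two (nat_lit 2097153) (nat_lit 183949590808) (.one (nat_lit 184989779122) .nil))),
   .two (nat_lit 721420292) (nat_lit 158083317768) (.two (nat_lit 612368385) (nat_lit 20652753300) (.one (nat_lit 16778622) .nil)),
   .two (nat_lit 50331652) (nat_lit 156533522437) (.two (nat_lit 16777218) (nat_lit 1847590925) (.two (nat_lit 16777217) (nat_lit 19027460121) (.two (nat_lit 2097152) (nat_lit 158662132002) (.one (nat_lit 83887245) .nil)))),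
   .two (nat_lit 46980399108) (nat_lit 10336862216) (.two (nat_lit 2097153) (nat_lit 20707279251) (.one (nat_lit 4195711) .nil)),
   .two (nat_lit 3458203652) (nat_lit 83886086) (.two (nat_lit 83886083) (nat_lit 3458203656) (.two (nat_lit 16777217) (nat_lit 158077026634) (.one (nat_lit 2098560) .nil))),
   .two (nat_lit 176160772) (nat_lit 2969567240) (.two (nat_lit 16777217) (nat_lit 847249781) (.one (nat_lit 8390017) .nil)),
   .two (nat_lit 2923429894) (nat_lit 28086108167) (.two (nat_lit 1779433475) (nat_lit 183848927259) (.two (nat_lit 1048576) (nat_lit 9869197650) (.one (nat_lit 184986632632) .nil))),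
   .two (nat_lit 3464495108) (nat_lit 638582796) (.two (nat_lit 156372041729) (nat_lit 269484092) (.two (nat_lit 8388608) (nat_lit 168821258) (.one (nat_lit 2927624982) .nil))),
   .two (nat_lit 8388612) (nat_lit 156971827208) (.two (nat_lit 156367847425) (nat_lit 3565158454) (.two (nat_lit 4194304) (nat_lit 8389138) (.one (nat_lit 18928895122) .nil))),
   .two (nat_lit 8388612) (nat_lit 174752530436) (.two (nat_lit 158143086595) (nat_lit 4605345800) (.two (nat_lit 41943041) (nat_lit 1947205916) (.one (nat_lit 1947206434) .nil))),
   .two (nat_lit 203423748) (nat_lit 1913651212) (.two (nat_lit 2097153) (nat_lit 2886729774) (.two (nat_lit 2097152) (nat_lit 157035790645) (.one (nat_lit 1049986) .nil))),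
   .two (nat_lit 2969567236) (nat_lit 166130089988) (.two (nat_lit 184549378) (nat_lit 28691136522) (.two (nat_lit 9766436865) (nat_lit 28757197183) (.one (nat_lit 37313578369) .nil))),
   .two (nat_lit 4194308) (nat_lit 16777220) (.two (nat_lit 50331651) (nat_lit 843055123) (.two (nat_lit 37748737) (nat_lit 10335813673) (.two (nat_lit 1048576) (nat_lit 165528207644) (.one (nat_lit 9969861382) .nil)))),
   .two (nat_lit 12114198532) (nat_lit 28758245384) (.two (nat_lit 34603009) (nat_lit 4632608817) (.two (nat_lit 1048576) (nat_lit 1746927801) (.one (nat_lit 2098563) .nil))),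
   .two (nat_lit 9866051588) (nat_lit 3525312516) (.two (nat_lit 2887778306) (nat_lit 101711887) (.two (nat_lit 605028353) (nat_lit 2988441625) (.two (nat_lit 1048576) (nat_lit 9766437387) (.one (nat_lit 2098564) .nil)))),
   .two (nat_lit 8388612) (nat_lit 809500678) (.two (nat_lit 809500675) (nat_lit 8388616) (.two (nat_lit 37748737) (nat_lit 8388645) (.two (nat_lit 1048576) (nat_lit 4599055062) .nil))),
   .two (nat_lit 9934209028) (nat_lit 101711878) (.two (nat_lit 638582787) (nat_lit 47582281754) (.two (nat_lit 1048576) (nat_lit 10336862528) (.one (nat_lit 12147754303) .nil))),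
   .two (nat_lit 169869316) (nat_lit 41943044) (.two (nat_lit 270532611) (nat_lit 156569174037) (.two (nat_lit 2097153) (nat_lit 1782579244) (.two (nat_lit 1048576) (nat_lit 19029557978) .nil))),
   .two (nat_lit 18933088260) (nat_lit 1358954501) (.two (nat_lit 83886083) (nat_lit 28093448233) (.two (nat_lit 8388608) (nat_lit 1795162390) (.one (nat_lit 16778630) .nil))),
   .two (nat_lit 183853121540) (nat_lit 19532873736) (.two (nat_lit 9768534017) (nat_lit 156372041755) (.two (nat_lit 4194304) (nat_lit 1317011946) (.one (nat_lit 8390024) .nil))),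
   .two (nat_lit 2887778308) (nat_lit 3527409672) (.two (nat_lit 4194305) (nat_lit 336592990) (.two (nat_lit 2097152) (nat_lit 10942939429) (.one (nat_lit 9802089589) .nil))),
   .two (nat_lit 11492392964) (nat_lit 174752530459) (.two (nat_lit 16777216) (nat_lit 873463991) (.one (nat_lit 1049374) .nil)),
   .two (nat_lit 46414168068) (nat_lit 10506731524) (.two (nat_lit 2889875458) (nat_lit 46414168072) (.two (nat_lit 4194305) (nat_lit 46414168100) (.two (nat_lit 4194304) (nat_lit 19100860737) (.one (nat_lit 9772729671) .nil)))),
   .two (nat_lit 11492392966) (nat_lit 28093448198) (.two (nat_lit 721420291) (nat_lit 183853121562) (.two (nat_lit 8388608) (nat_lit 10452205972) (.one (nat_lit 8390025) .nil))),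
   .two (nat_lit 8388612) (nat_lit 705691656) (.two (nat_lit 34603009) (nat_lit 1411383377) (.two (nat_lit 2097152) (nat_lit 11543773561) (.one (nat_lit 46507492102) .nil))),
   .two (nat_lit 13203668996) (nat_lit 1376780293) (.two (nat_lit 50331651) (nat_lit 158075977736) (.two (nat_lit 50331649) (nat_lit 9899606041) (.two (nat_lit 2097152) (nat_lit 28086108339) (.one (nat_lit 16778634) .nil)))),
   .two (nat_lit 11476664324) (nat_lit 13224640539) (.two (nat_lit 1048576) (nat_lit 270533370) .nil),
   .two (nat_lit 3527409668) (nat_lit 21208498184) (.two (nat_lit 606076929) (nat_lit 19130220588) (.two (nat_lit 2097152) (nat_lit 183949590810) (.one (nat_lit 4195724) .nil))),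
   .two (nat_lit 8388612) (nat_lit 20637024260) (.two (nat_lit 8388610) (nat_lit 21207449608) (.two (nat_lit 41943041) (nat_lit 18928894001) (.two (nat_lit 4194304) (nat_lit 158075978077) (.one (nat_lit 12617516405) .nil)))),
   .two (nat_lit 50331652) (nat_lit 183846830092) (.two (nat_lit 16777217) (nat_lit 9934209384) (.one (nat_lit 157051519744) .nil)),
   .two (nat_lit 47563407364) (nat_lit 10940841992) (.two (nat_lit 9766436865) (nat_lit 184431935798) (.one (nat_lit 16778637) .nil)),
   .two (nat_lit 606076932) (nat_lit 158143086600) (.two (nat_lit 2097153) (nat_lit 158176641064) (.two (nat_lit 1048576) (nat_lit 37249614159) (.one (nat_lit 10439623454) .nil))),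
   .two (nat_lit 176160772) (nat_lit 1277165574) (.two (nat_lit 69206019) (nat_lit 176160776) (.two (nat_lit 2097153) (nat_lit 9768534057) (.two (nat_lit 2097152) (nat_lit 713031860) (.one (nat_lit 306185505) .nil)))),
   .two (nat_lit 3527409668) (nat_lit 166245433350) (.two (nat_lit 2969567235) (nat_lit 10506731528) (.two (nat_lit 16777217) (nat_lit 1782579381) (.one (nat_lit 708838620) .nil))),
   .two (nat_lit 20644364292) (nat_lit 158144135173) (.two (nat_lit 1277165571) (nat_lit 28697428019) (.two (nat_lit 2097152) (nat_lit 2894069943) (.one (nat_lit 8390030) .nil))),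
   .two (nat_lit 50331652) (nat_lit 203423750) (.two (nat_lit 16777218) (nat_lit 158144135197) (.two (nat_lit 16777217) (nat_lit 3021996386) (.one (nat_lit 822084769) .nil))),
   .two (nat_lit 9768534020) (nat_lit 46414168068) (.two (nat_lit 2889875458) (nat_lit 209715222) (.two (nat_lit 4194305) (nat_lit 3028287513) (.two (nat_lit 4194304) (nat_lit 156976021687) (.one (nat_lit 4195727) .nil)))),
   .two (nat_lit 2887778308) (nat_lit 9768534020) (.two (nat_lit 2097155) (nat_lit 641728522) (.two (nat_lit 2097153) (nat_lit 9933160492) (.two (nat_lit 1048576) (nat_lit 12150899012) (.one (nat_lit 9798943926) .nil)))),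
   .two (nat_lit 9781116932) (nat_lit 21208498184) (.two (nat_lit 16777217) (nat_lit 10940842011) (.two (nat_lit 2097152) (nat_lit 19545456993) (.one (nat_lit 166230754630) .nil))),
   .two (nat_lit 156365750276) (nat_lit 156372041736) (.two (nat_lit 2097153) (nat_lit 10452205749) (.one (nat_lit 16778640) .nil)),
   .two (nat_lit 12114198532) (nat_lit 158083317766) (.two (nat_lit 612368387) (nat_lit 12114198536) (.two (nat_lit 34603009) (nat_lit 47588573593) (.one (nat_lit 3020948199) .nil))),
   .two (nat_lit 169869316) (nat_lit 165528207366) (.two (nat_lit 83886083) (nat_lit 705691674) (.two (nat_lit 16777216) (nat_lit 11611930804) (.one (nat_lit 2098577) .nil))),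
   .two (nat_lit 9948889092) (nat_lit 4027580423) (.two (nat_lit 209715203) (nat_lit 1291845659) (.two (nat_lit 8388608) (nat_lit 10552869044) (.one (nat_lit 16778642) .nil))),
   .two (nat_lit 3458203652) (nat_lit 174752530436) (.two (nat_lit 1343225859) (nat_lit 9799991306) (.two (nat_lit 156365750273) (nat_lit 2886729788) (.two (nat_lit 2097152) (nat_lit 739246566) (.one (nat_lit 28758246142) .nil)))),
   .two (nat_lit 46407876612) (nat_lit 19604176900) (.two (nat_lit 270532611) (nat_lit 3003121675) (.two (nat_lit 34603009) (nat_lit 156466413594) (.two (nat_lit 1048576) (nat_lit 19612565684) (.one (nat_lit 16778643) .nil)))),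
   .two (nat_lit 654311428) (nat_lit 157036838916) (.two (nat_lit 46407876610) (nat_lit 10385096745) (.two (nat_lit 2097152) (nat_lit 4647289623) .nil)),
   .two (nat_lit 809500676) (nat_lit 10907287558) (.two (nat_lit 272629763) (nat_lit 1310720009) (.two (nat_lit 2097153) (nat_lit 306184217) (.two (nat_lit 2097152) (nat_lit 166199296183) (.one (nat_lit 2098580) .nil)))),
   .two (nat_lit 20644364294) (nat_lit 156533522437) (.two (nat_lit 8388611) (nat_lit 28758245384) (.two (nat_lit 8388609) (nat_lit 4632608817) (.two (nat_lit 2097152) (nat_lit 1753219252) (.one (nat_lit 176162065) .nil)))),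
   .two (nat_lit 169869316) (nat_lit 641728516) (.two (nat_lit 2097155) (nat_lit 775946251) (.two (nat_lit 41943041) (nat_lit 20704133301) (.one (nat_lit 158075979154) .nil))),
   .two (nat_lit 218103812) (nat_lit 1175453700) (.two (nat_lit 605028355) (nat_lit 157043130376) (.two (nat_lit 4194305) (nat_lit 166129041433) (.two (nat_lit 4194304) (nat_lit 11551113506) (.one (nat_lit 37320918219) .nil)))),
   .two (nat_lit 165525061636) (nat_lit 673185802) (.two (nat_lit 2097153) (nat_lit 3524263985) (.two (nat_lit 1048576) (nat_lit 12062818805) (.one (nat_lit 12617516286) .nil))),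
   .two (nat_lit 3458203652) (nat_lit 174752530436) (.two (nat_lit 46407876610) (nat_lit 13221494795) (.two (nat_lit 156365750273) (nat_lit 2886729788) (.two (nat_lit 2097152) (nat_lit 46473937427) (.one (nat_lit 2097968) .nil)))),
   .two (nat_lit 4194308) (nat_lit 159224168456) (.two (nat_lit 8388609) (nat_lit 3527409703) (.two (nat_lit 8388608) (nat_lit 4194838) (.one (nat_lit 174692762821) .nil))),
   .two (nat_lit 50331652) (nat_lit 166132187144) (.two (nat_lit 16777217) (nat_lit 775946570) (.one (nat_lit 16778646) .nil)),
   .two (nat_lit 721420292) (nat_lit 158083317768) (.two (nat_lit 50331649) (nat_lit 1786773555) (.two (nat_lit 8388608) (nat_lit 16777751) (.one (nat_lit 9772729062) .nil))),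
   .two (nat_lit 158083317764) (nat_lit 28087156740) (.two (nat_lit 21785214979) (nat_lit 37314625546) (.two (nat_lit 50331649) (nat_lit 10376708144) (.two (nat_lit 2097152) (nat_lit 158083318084) (.one (nat_lit 8390039) .nil)))),
   .two (nat_lit 809500676) (nat_lit 101711876) (.two (nat_lit 4194306) (nat_lit 1175453706) (.two (nat_lit 34603009) (nat_lit 9902751804) (.two (nat_lit 1048576) (nat_lit 21814575602) (.one (nat_lit 168821442) .nil)))),
   .two (nat_lit 169869316) (nat_lit 11546918923) (.two (nat_lit 2097153) (nat_lit 159216828457) (.two (nat_lit 1048576) (nat_lit 46409974137) (.one (nat_lit 46407877370) .nil))),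
   .two (nat_lit 4194308) (nat_lit 156365750280) (.two (nat_lit 4194305) (nat_lit 28806480058) (.one (nat_lit 2098584) .nil)),
   .two (nat_lit 2887778308) (nat_lit 156372041738) (.two (nat_lit 2097153) (nat_lit 1216348483) (.one (nat_lit 165532402970) .nil)),
   .two (nat_lit 620756996) (nat_lit 772800518) (.two (nat_lit 16777219) (nat_lit 158646403086) (.two (nat_lit 16777217) (nat_lit 156566028342) (.two (nat_lit 16777216) (nat_lit 806355350) (.one (nat_lit 12129928379) .nil)))),
   .two (nat_lit 620756996) (nat_lit 2889875464) (.two (nat_lit 16777217) (nat_lit 1346371926) (.one (nat_lit 9881780973) .nil)),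
   .two (nat_lit 1343225860) (nat_lit 606076950) (.two (nat_lit 34603009) (nat_lit 158077026357) (.two (nat_lit 8388608) (nat_lit 184417255742) (.one (nat_lit 21208498981) .nil))),
   .two (nat_lit 8388612) (nat_lit 606076948) (.two (nat_lit 2097153) (nat_lit 202375348) (.one (nat_lit 101713068) .nil)),
   .two (nat_lit 754974724) (nat_lit 19596836872) (.two (nat_lit 34603009) (nat_lit 822083652) (.one (nat_lit 37329306312) .nil)),
   .two (nat_lit 705691652) (nat_lit 11618222086) (.two (nat_lit 176160771) (nat_lit 11543773194) (.two (nat_lit 2097153) (nat_lit 176160811) (.two (nat_lit 2097152) (nat_lit 1417675100) (.one (nat_lit 20711473878) .nil)))),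
   .two (nat_lit 83886084) (nat_lit 1846542344) (.two (nat_lit 50331649) (nat_lit 174752530459) (.two (nat_lit 1048576) (nat_lit 10015998256) (.one (nat_lit 166144771453) .nil))),
   .two (nat_lit 184993972228) (nat_lit 20638072840) (.two (nat_lit 41943041) (nat_lit 9967763497) (.two (nat_lit 8388608) (nat_lit 159251431708) (.one (nat_lit 2098587) .nil))),
   .two (nat_lit 184419352580) (nat_lit 21777874948) (.two (nat_lit 705691650) (nat_lit 156971827227) (.two (nat_lit 1048576) (nat_lit 156971827469) (.one (nat_lit 4195740) .nil))),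
   .two (nat_lit 169869316) (nat_lit 3527409672) (.two (nat_lit 2097153) (nat_lit 2923429929) (.two (nat_lit 1048576) (nat_lit 28793897252) (.one (nat_lit 2923431300) .nil))),
   .two (nat_lit 1191182340) (nat_lit 46409973768) (.two (nat_lit 4194305) (nat_lit 1291845657) (.two (nat_lit 4194304) (nat_lit 16777626) (.one (nat_lit 184550516) .nil))),
   .two (nat_lit 83886084) (nat_lit 2954887172) (.two (nat_lit 169869314) (nat_lit 83886088) (.two (nat_lit 2097153) (nat_lit 10921967667) (.two (nat_lit 16777216) (nat_lit 157036839257) (.one (nat_lit 165540791040) .nil)))),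
   .two (nat_lit 184549380) (nat_lit 272629764) (.two (nat_lit 4194306) (nat_lit 12163481652) (.two (nat_lit 16777216) (nat_lit 47584379284) (.one (nat_lit 1358955245) .nil))),
   .two (nat_lit 2961178628) (nat_lit 174688567302) (.two (nat_lit 638582787) (nat_lit 742391856) (.two (nat_lit 1048576) (nat_lit 19532874064) (.one (nat_lit 1212155163) .nil))),
   .two (nat_lit 3539992580) (nat_lit 11007950858) (.two (nat_lit 2097153) (nat_lit 183962173763) (.one (nat_lit 2317353711) .nil)),
   .two (nat_lit 1291845636) (nat_lit 37253808135) (.two (nat_lit 11484004355) (nat_lit 9881780266) (.two (nat_lit 2097152) (nat_lit 1761607974) (.one (nat_lit 8390046) .nil))),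
   .two (nat_lit 9768534020) (nat_lit 203423750) (.two (nat_lit 2097155) (nat_lit 37316722737) (.two (nat_lit 1048576) (nat_lit 13224640835) (.one (nat_lit 1914700502) .nil))),
   .two (nat_lit 218103812) (nat_lit 1780482070) (.two (nat_lit 9766436865) (nat_lit 46473937303) (.one (nat_lit 20652754162) .nil)),
   .two (nat_lit 205520900) (nat_lit 1317011468) (.two (nat_lit 4194305) (nat_lit 28697428014) (.two (nat_lit 2097152) (nat_lit 183845782302) .nil)),
   .two (nat_lit 203423748) (nat_lit 1384120332) (.two (nat_lit 2097153) (nat_lit 1786773550) (.two (nat_lit 2097152) (nat_lit 46406828326) (.one (nat_lit 2098591) .nil))),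
   .two (nat_lit 721420292) (nat_lit 4601151492) (.two (nat_lit 50331651) (nat_lit 4634705929) (.two (nat_lit 612368385) (nat_lit 28705816891) (.one (nat_lit 184550149) .nil))),
   .two (nat_lit 11479810052) (nat_lit 343932937) (.two (nat_lit 37748737) (nat_lit 880803876) (.two (nat_lit 4194304) (nat_lit 1954545977) (.one (nat_lit 713033065) .nil))),
   .two (nat_lit 2887778308) (nat_lit 156569174021) (.two (nat_lit 10506731523) (nat_lit 1846542402) (.two (nat_lit 4194304) (nat_lit 4027580711) (.one (nat_lit 10939794204) .nil))),
   .two (nat_lit 276824068) (nat_lit 1210056710) (.two (nat_lit 9765388291) (nat_lit 3021996043) (.two (nat_lit 16777217) (nat_lit 28764537017) (.one (nat_lit 19128124719) .nil))),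
   .two (nat_lit 3464495108) (nat_lit 158144135176) (.two (nat_lit 8388609) (nat_lit 10437525531) (.two (nat_lit 2097152) (nat_lit 4638900538) (.one (nat_lit 184987681905) .nil))),
   .two (nat_lit 813694980) (nat_lit 3527409689) (.two (nat_lit 2097152) (nat_lit 185023332653) (.one (nat_lit 339739801) .nil)),
   .two (nat_lit 4194308) (nat_lit 156365750280) (.two (nat_lit 4194305) (nat_lit 4598005940) (.one (nat_lit 12617516318) .nil)),
   .two (nat_lit 809500676) (nat_lit 620756997) (.two (nat_lit 9948889091) (nat_lit 13191086088) (.two (nat_lit 620756993) (nat_lit 306184217) (.two (nat_lit 16777216) (nat_lit 843055172) (.one (nat_lit 9969861402) .nil)))),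
   .two (nat_lit 46414168068) (nat_lit 20637024264) (.two (nat_lit 4194305) (nat_lit 166129041448) (.two (nat_lit 4194304) (nat_lit 1283457325) (.one (nat_lit 13228836133) .nil))),
   .two (nat_lit 37748740) (nat_lit 166196150277) (.two (nat_lit 169869314) (nat_lit 28757196808) (.two (nat_lit 2097153) (nat_lit 158143086645) (.two (nat_lit 2097152) (nat_lit 4194842) (.one (nat_lit 9867101402) .nil)))),
   .two (nat_lit 169869316) (nat_lit 156581756940) (.two (nat_lit 2097153) (nat_lit 608174132) (.two (nat_lit 1048576) (nat_lit 46508540086) (.one (nat_lit 4195744) .nil))),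
   .two (nat_lit 20637024260) (nat_lit 9967763469) (.two (nat_lit 4194305) (nat_lit 1914699830) (.two (nat_lit 1048576) (nat_lit 306184516) (.one (nat_lit 4195745) .nil))),
   .two (nat_lit 1745879044) (nat_lit 9934209036) (.two (nat_lit 2097153) (nat_lit 788529207) (.two (nat_lit 1048576) (nat_lit 185035915581) (.one (nat_lit 1209009460) .nil))),
   .two (nat_lit 185002360836) (nat_lit 28693233670) (.two (nat_lit 11546918915) (nat_lit 1358954504) (.two (nat_lit 37748737) (nat_lit 47596961843) (.two (nat_lit 2097152) (nat_lit 13191086441) (.one (nat_lit 11022632123) .nil)))),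
   .two (nat_lit 9781116932) (nat_lit 46407876612) (.two (nat_lit 2902458370) (nat_lit 185021235211) (.two (nat_lit 2097153) (nat_lit 117440548) (.two (nat_lit 1048576) (nat_lit 822083961) (.one (nat_lit 1050018) .nil)))),
   .two (nat_lit 8388612) (nat_lit 809500680) (.two (nat_lit 4194305) (nat_lit 10947133622) (.one (nat_lit 158150427337) .nil)),
   .two (nat_lit 742391812) (nat_lit 117440516) (.two (nat_lit 11546918915) (nat_lit 19109249034) (.two (nat_lit 37748737) (nat_lit 1761607774) (.two (nat_lit 16777216) (nat_lit 742392132) (.one (nat_lit 4599055550) .nil)))),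
   .two (nat_lit 1178599428) (nat_lit 10913579014) (.two (nat_lit 47555018755) (nat_lit 19130220554) (.two (nat_lit 8388609) (nat_lit 156569174057) (.two (nat_lit 4194304) (nat_lit 1216348503) (.one (nat_lit 8390036) .nil)))),
   .two (nat_lit 641728516) (nat_lit 184416206856) (.two (nat_lit 612368385) (nat_lit 19596836931) (.two (nat_lit 8388608) (nat_lit 739246385) (.one (nat_lit 10540287256) .nil))),
   .two (nat_lit 205520900) (nat_lit 18933088264) (.two (nat_lit 4194305) (nat_lit 746586166) (.two (nat_lit 1048576) (nat_lit 8389147) (.one (nat_lit 4195747) .nil))),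
   .two (nat_lit 101711876) (nat_lit 19142803462) (.two (nat_lit 285212675) (nat_lit 1913651210) (.two (nat_lit 8388609) (nat_lit 4647288875) (.two (nat_lit 8388608) (nat_lit 9798943110) (.one (nat_lit 788529878) .nil)))),
   .two (nat_lit 9948889092) (nat_lit 185021235211) (.two (nat_lit 2097153) (nat_lit 46992982132) (.two (nat_lit 2097152) (nat_lit 158192370033) (.one (nat_lit 21812479319) .nil))),
   .two (nat_lit 3527409668) (nat_lit 3464495113) (.two (nat_lit 4194305) (nat_lit 109052246) (.one (nat_lit 8390052) .nil)),
   .two (nat_lit 157036838916) (nat_lit 10503585799) (.two (nat_lit 34603011) (nat_lit 285212698) (.two (nat_lit 4194304) (nat_lit 166211879094) (.one (nat_lit 16778662) .nil))),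
   .two (nat_lit 2969567236) (nat_lit 183848927238) (.two (nat_lit 171966467) (nat_lit 2969567240) (.two (nat_lit 4194305) (nat_lit 9915334713) (.two (nat_lit 2097152) (nat_lit 12147753298) (.one (nat_lit 156581758096) .nil)))),
   .two (nat_lit 9866051588) (nat_lit 21214789636) (.two (nat_lit 2894069763) (nat_lit 2889875464) (.two (nat_lit 9766436865) (nat_lit 2953838993) (.one (nat_lit 4195751) .nil))),
   .two (nat_lit 75497476) (nat_lit 10385096731) (.two (nat_lit 16777216) (nat_lit 47555019153) (.one (nat_lit 158158816429) .nil)),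
   .two (nat_lit 606076932) (nat_lit 184993972232) (.two (nat_lit 2097153) (nat_lit 10942939517) (.one (nat_lit 37316723898) .nil)),
   .two (nat_lit 3527409668) (nat_lit 1913651208) (.two (nat_lit 4194305) (nat_lit 19127074869) (.two (nat_lit 4194304) (nat_lit 156364701881) (.one (nat_lit 9902752462) .nil))),
   .two (nat_lit 205520900) (nat_lit 156372041736) (.two (nat_lit 4194305) (nat_lit 1786773565) (.two (nat_lit 4194304) (nat_lit 28757197309) (.one (nat_lit 9869198458) .nil))),
   .two (nat_lit 809500676) (nat_lit 18926796807) (.two (nat_lit 270532611) (nat_lit 4601151496) (.two (nat_lit 4194305) (nat_lit 9766436914) (.two (nat_lit 1048576) (nat_lit 166232850726) (.one (nat_lit 1050024) .nil)))),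
   .two (nat_lit 9781116932) (nat_lit 183845781518) (.two (nat_lit 4194305) (nat_lit 2953838777) (.one (nat_lit 16778665) .nil)),
   .two (nat_lit 68157444) (nat_lit 3028287497) (.two (nat_lit 4194305) (nat_lit 11577327704) (.two (nat_lit 4194304) (nat_lit 645923155) (.one (nat_lit 9974056345) .nil))),
   .two (nat_lit 276824068) (nat_lit 218103812) (.two (nat_lit 2969567235) (nat_lit 4605345800) (.two (nat_lit 41943041) (nat_lit 1779433529) (.two (nat_lit 2097152) (nat_lit 166129041587) (.one (nat_lit 16778666) .nil)))),
   .two (nat_lit 104857604) (nat_lit 236978194) (.two (nat_lit 2097153) (nat_lit 28693233728) (.two (nat_lit 8388608) (nat_lit 28691136697) (.one (nat_lit 4195755) .nil))),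
   .two (nat_lit 1350565892) (nat_lit 159251431434) (.two (nat_lit 2097153) (nat_lit 183949590568) (.two (nat_lit 2097152) (nat_lit 675283310) (.one (nat_lit 158146233737) .nil))),
   .two (nat_lit 272629764) (nat_lit 18925748234) (.two (nat_lit 37748737) (nat_lit 158646403108) (.two (nat_lit 4194304) (nat_lit 3524264257) (.one (nat_lit 19029558004) .nil))),
   .two (nat_lit 47548727300) (nat_lit 1178599430) (.two (nat_lit 1178599427) (nat_lit 47548727304) (.two (nat_lit 2097153) (nat_lit 1749024816) (.two (nat_lit 8388608) (nat_lit 183947493670) (.one (nat_lit 47548728496) .nil)))),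
   .two (nat_lit 169869316) (nat_lit 612368392) (.two (nat_lit 8388609) (nat_lit 11007951244) (.one (nat_lit 2098604) .nil)),
   .two (nat_lit 813694980) (nat_lit 184419352591) (.two (nat_lit 606076929) (nat_lit 1182793789) (.two (nat_lit 2097152) (nat_lit 37253808508) (.one (nat_lit 2988442775) .nil))),
   .two (nat_lit 2887778308) (nat_lit 156372041732) (.two (nat_lit 270532611) (nat_lit 3464495113) (.two (nat_lit 2097153) (nat_lit 158183981116) (.two (nat_lit 1048576) (nat_lit 18926797135) (.one (nat_lit 2098605) .nil)))),
   .two (nat_lit 10369368068) (nat_lit 2969567238) (.two (nat_lit 285212675) (nat_lit 158143086600) (.two (nat_lit 8388609) (nat_lit 11610882098) (.two (nat_lit 16777216) (nat_lit 10537140614) (.one (nat_lit 28798091990) .nil)))),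
   .two (nat_lit 205520900) (nat_lit 1291845641) (.two (nat_lit 605028353) (nat_lit 47550824500) (.two (nat_lit 1048576) (nat_lit 174768259411) (.one (nat_lit 16778670) .nil))),
   .two (nat_lit 809500676) (nat_lit 28086108166) (.two (nat_lit 11479810051) (nat_lit 135266324) (.two (nat_lit 16777217) (nat_lit 20707279155) (.one (nat_lit 4195759) .nil))),
   .two (nat_lit 184986632196) (nat_lit 11559501838) (.two (nat_lit 34603009) (nat_lit 156481093681) (.two (nat_lit 1048576) (nat_lit 46992982391) (.one (nat_lit 235930858) .nil))),
   .two (nat_lit 713031684) (nat_lit 1343225864) (.two (nat_lit 41943041) (nat_lit 183845781685) (.one (nat_lit 159216829656) .nil)),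
   .two (nat_lit 606076932) (nat_lit 276824068) (.two (nat_lit 8388610) (nat_lit 2954887177) (.two (nat_lit 37748737) (nat_lit 3524264266) (.one (nat_lit 2098610) .nil))),
   .two (nat_lit 2902458372) (nat_lit 174753579013) (.two (nat_lit 46407876610) (nat_lit 654311432) (.two (nat_lit 2097153) (nat_lit 1795162381) (.one (nat_lit 16778675) .nil))),
   .two (nat_lit 9934209028) (nat_lit 156364701701) (.two (nat_lit 16777218) (nat_lit 11543773226) (.two (nat_lit 16777216) (nat_lit 10939793700) (.one (nat_lit 235931016) .nil))),
   .two (nat_lit 1779433476) (nat_lit 4601151500) (.two (nat_lit 4194305) (nat_lit 20644364332) (.two (nat_lit 1048576) (nat_lit 1920991539) (.one (nat_lit 19604177694) .nil))),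
   .two (nat_lit 272629764) (nat_lit 18925748228) (.two (nat_lit 16777219) (nat_lit 68157448) (.two (nat_lit 16777217) (nat_lit 10503586158) (.one (nat_lit 4195765) .nil))),
   .two (nat_lit 3460300804) (nat_lit 18926796806) (.two (nat_lit 721420291) (nat_lit 11577327632) (.two (nat_lit 2097153) (nat_lit 19599982773) (.one (nat_lit 4195766) .nil))),
   .two (nat_lit 50331652) (nat_lit 1753219080) (.two (nat_lit 41943041) (nat_lit 754974745) (.two (nat_lit 8388608) (nat_lit 1325400249) (.one (nat_lit 12633244981) .nil))),
   .two (nat_lit 721420292) (nat_lit 1846542340) (.two (nat_lit 721420290) (nat_lit 156968681480) (.two (nat_lit 37748737) (nat_lit 2349858869) (.two (nat_lit 4194304) (nat_lit 10921968011) (.one (nat_lit 34604272) .nil)))),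
   .two (nat_lit 641728516) (nat_lit 185020186638) (.two (nat_lit 34603009) (nat_lit 166132187200) (.two (nat_lit 8388608) (nat_lit 166129041593) (.one (nat_lit 4195767) .nil))),
   .two (nat_lit 184549380) (nat_lit 166132187142) (.two (nat_lit 1178599427) (nat_lit 218103835) (.two (nat_lit 4194304) (nat_lit 4613734581) (.one (nat_lit 1379926777) .nil))),
   .two (nat_lit 9948889092) (nat_lit 174753579013) (.two (nat_lit 165526110211) (nat_lit 9948889096) (.two (nat_lit 2097153) (nat_lit 1795162292) (.one (nat_lit 157051520374) .nil))),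
   .two (nat_lit 639631364) (nat_lit 2416967685) (.two (nat_lit 10335813635) (nat_lit 20638072884) (.two (nat_lit 16777216) (nat_lit 159216828747) (.one (nat_lit 1050040) .nil))),
   .two (nat_lit 21207449604) (nat_lit 10385096718) (.two (nat_lit 50331649) (nat_lit 1913651498) (.one (nat_lit 9765389008) .nil)),
   .two (nat_lit 46978301956) (nat_lit 18928893960) (.two (nat_lit 2097153) (nat_lit 742391874) (.two (nat_lit 4194304) (nat_lit 3458203984) (.one (nat_lit 608174804) .nil))),
   .two (nat_lit 705691652) (nat_lit 343932938) (.two (nat_lit 2097153) (nat_lit 3457155126) (.two (nat_lit 2097152) (nat_lit 184986632541) (.one (nat_lit 4034921199) .nil))),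
   .two (nat_lit 620756996) (nat_lit 605028365) (.two (nat_lit 2097153) (nat_lit 1175453986) (.one (nat_lit 1050041) .nil)),
   .two (nat_lit 11479810052) (nat_lit 3525312527) (.two (nat_lit 2097153) (nat_lit 20740833328) (.two (nat_lit 4194304) (nat_lit 9766437407) (.one (nat_lit 4195772) .nil))),
   .two (nat_lit 276824068) (nat_lit 174753579016) (.two (nat_lit 2097153) (nat_lit 8388693) (.two (nat_lit 1048576) (nat_lit 1210057084) (.one (nat_lit 10443818335) .nil))),
   .two (nat_lit 9866051588) (nat_lit 19532873732) (.two (nat_lit 809500675) (nat_lit 9933160469) (.two (nat_lit 9765388289) (nat_lit 2923429924) (.two (nat_lit 1048576) (nat_lit 183916036395) (.one (nat_lit 1050045) .nil)))),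
   .two (nat_lit 276824068) (nat_lit 1210056710) (.two (nat_lit 8388610) (nat_lit 156365750292) (.two (nat_lit 16777217) (nat_lit 28764537017) (.one (nat_lit 158183982318) .nil))),
   .two (nat_lit 285212676) (nat_lit 184993972228) (.two (nat_lit 75497475) (nat_lit 12129927177) (.two (nat_lit 41943041) (nat_lit 157035790377) (.two (nat_lit 1048576) (nat_lit 21214789935) (.one (nat_lit 1779434202) .nil)))),
   .two (nat_lit 1376780293) (nat_lit 10506731525) (.two (nat_lit 809500675) (nat_lit 158143086600) (.two (nat_lit 37748737) (nat_lit 873463857) (.two (nat_lit 1048576) (nat_lit 4194485) (.one (nat_lit 4195775) .nil)))),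
   .two (nat_lit 4605345796) (nat_lit 9798942727) (.two (nat_lit 34603011) (nat_lit 4605345800) (.two (nat_lit 41943041) (nat_lit 183912890393) (.two (nat_lit 2097152) (nat_lit 1049123) (.one (nat_lit 1050049) .nil)))),
   .two (nat_lit 47555018756) (nat_lit 158075977734) (.two (nat_lit 34603011) (nat_lit 47555018760) (.two (nat_lit 2097153) (nat_lit 303038646) (.one (nat_lit 8389827) .nil))),
   .two (nat_lit 184549380) (nat_lit 156466413577) (.two (nat_lit 16777217) (nat_lit 156969730101) (.two (nat_lit 2097152) (nat_lit 50331716) (.one (nat_lit 3558868242) .nil))),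
   .two (nat_lit 8388612) (nat_lit 21208498194) (.two (nat_lit 8388609) (nat_lit 20738736153) (.two (nat_lit 16777216) (nat_lit 46407876793) (.one (nat_lit 8390082) .nil))),
   .two (nat_lit 11559501828) (nat_lit 2923429894) (.two (nat_lit 184549378) (nat_lit 13222543371) (.two (nat_lit 4194305) (nat_lit 156567076910) (.two (nat_lit 2097152) (nat_lit 4194852) (.one (nat_lit 174686470913) .nil)))),
   .two (nat_lit 285212676) (nat_lit 159253528587) (.two (nat_lit 16777217) (nat_lit 2097204) (.two (nat_lit 4194304) (nat_lit 3003121960) (.one (nat_lit 9969861979) .nil))),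
   .two (nat_lit 46984593412) (nat_lit 166132187140) (.two (nat_lit 10503585795) (nat_lit 1849688074) (.two (nat_lit 156364701697) (nat_lit 28760342569) (.two (nat_lit 4194304) (nat_lit 638583600) .nil))),
   .two (nat_lit 159251431429) (nat_lit 156566028294) (.two (nat_lit 713031683) (nat_lit 2954887177) (.two (nat_lit 34603009) (nat_lit 847249471) (.two (nat_lit 4194304) (nat_lit 46507491676) (.one (nat_lit 1050051) .nil)))),
   .two (nat_lit 1276116996) (nat_lit 1291845640) (.two (nat_lit 605028353) (nat_lit 4613734447) (.two (nat_lit 1048576) (nat_lit 19029557428) (.one (nat_lit 9802089782) .nil))),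
   .two (nat_lit 1178599428) (nat_lit 847249414) (.two (nat_lit 13195280387) (nat_lit 1178599432) (.two (nat_lit 37748737) (nat_lit 11618222105) (.two (nat_lit 2097152) (nat_lit 4605346122) (.one (nat_lit 47555020225) .nil)))),
   .two (nat_lit 176160772) (nat_lit 174688567302) (.two (nat_lit 8388611) (nat_lit 3527409677) (.two (nat_lit 4194305) (nat_lit 1216348212) (.two (nat_lit 16777216) (nat_lit 19537068326) (.one (nat_lit 3028288688) .nil)))),
   .two (nat_lit 9781116932) (nat_lit 20745027591) (.two (nat_lit 176160771) (nat_lit 185002360843) (.two (nat_lit 16777217) (nat_lit 142606403) (.two (nat_lit 1048576) (nat_lit 8389157) (.one (nat_lit 806356137) .nil)))),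
   .two (nat_lit 11492392964) (nat_lit 47555018757) (.two (nat_lit 176160771) (nat_lit 9781116955) (.two (nat_lit 8388608) (nat_lit 19612565898) (.one (nat_lit 10921968335) .nil))),
   .two (nat_lit 50331652) (nat_lit 9934209032) (.two (nat_lit 16777217) (nat_lit 10504634705) (.one (nat_lit 2098628) .nil)),
   .two (nat_lit 41943044) (nat_lit 873463814) (.two (nat_lit 2097155) (nat_lit 4605345800) (.two (nat_lit 8388609) (nat_lit 606076978) (.two (nat_lit 1048576) (nat_lit 20745027878) (.one (nat_lit 1050053) .nil)))),
   .two (nat_lit 47555018756) (nat_lit 638582796) (.two (nat_lit 612368385) (nat_lit 1048636) (.two (nat_lit 8388608) (nat_lit 2953839090) (.one (nat_lit 3557819074) .nil))),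
   .two (nat_lit 157036838916) (nat_lit 3573547014) (.two (nat_lit 218103811) (nat_lit 157036838920) (.two (nat_lit 2097153) (nat_lit 285212697) (.two (nat_lit 1048576) (nat_lit 19142803857) (.one (nat_lit 136316088) .nil)))),
   .two (nat_lit 8388612) (nat_lit 10385096712) (.two (nat_lit 8388609) (nat_lit 1358954560) (.two (nat_lit 4194304) (nat_lit 1350566073) (.one (nat_lit 150996373) .nil))),
   .two (nat_lit 37748740) (nat_lit 352321542) (.two (nat_lit 16777219) (nat_lit 13191086088) (.two (nat_lit 16777217) (nat_lit 13191086117) (.two (nat_lit 2097152) (nat_lit 4631560918) .nil))),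
   .two (nat_lit 721420292) (nat_lit 46510637074) (.two (nat_lit 50331649) (nat_lit 2923429913) (.two (nat_lit 8388608) (nat_lit 46992982736) .nil)),
   .two (nat_lit 21207449604) (nat_lit 165526110216) (.two (nat_lit 50331649) (nat_lit 1913651252) (.two (nat_lit 1048576) (nat_lit 1426063540) (.one (nat_lit 1050055) .nil))),
   .two (nat_lit 37748740) (nat_lit 9966714887) (.two (nat_lit 169869314) (nat_lit 21207449609) (.two (nat_lit 2097153) (nat_lit 21207449653) (.two (nat_lit 16777216) (nat_lit 12115247393) (.one (nat_lit 9799992501) .nil)))),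
   .two (nat_lit 184549380) (nat_lit 46474985478) (.two (nat_lit 184549378) (nat_lit 46978301960) (.two (nat_lit 4194305) (nat_lit 159251431777) (.one (nat_lit 19094570391) .nil))),
   .two (nat_lit 1178599428) (nat_lit 2988441605) (.two (nat_lit 2954887171) (nat_lit 1178599432) (.two (nat_lit 2097153) (nat_lit 2990538937) (.one (nat_lit 20640170703) .nil))),
   .two (nat_lit 11543773188) (nat_lit 156569174021) (.two (nat_lit 10506731523) (nat_lit 11543773192) (.two (nat_lit 34603009) (nat_lit 46510637081) (.two (nat_lit 4194304) (nat_lit 19026411809) (.one (nat_lit 10503586512) .nil)))),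
   .two (nat_lit 11543773188) (nat_lit 158077026308) (.two (nat_lit 605028355) (nat_lit 20638072840) (.two (nat_lit 2097153) (nat_lit 21207449663) (.two (nat_lit 4194304) (nat_lit 9799991840) (.one (nat_lit 2098370) .nil)))),
   .two (nat_lit 2887778308) (nat_lit 10343153672) (.two (nat_lit 2097153) (nat_lit 12155093301) (.one (nat_lit 165525062430) .nil)),
   .two (nat_lit 612368388) (nat_lit 156532473863) (.two (nat_lit 156364701699) (nat_lit 47555018778) (.two (nat_lit 1048576) (nat_lit 10510926217) (.one (nat_lit 1050057) .nil))),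
   .two (nat_lit 21207449604) (nat_lit 28693233668) (.two (nat_lit 158143086595) (nat_lit 171966475) (.two (nat_lit 156364701697) (nat_lit 156569174052) (.two (nat_lit 1048576) (nat_lit 1413480769) (.one (nat_lit 9933161264) .nil)))),
   .two (nat_lit 809500676) (nat_lit 1176502279) (.two (nat_lit 4599054339) (nat_lit 809500680) (.two (nat_lit 4194305) (nat_lit 47582281753) (.two (nat_lit 16777216) (nat_lit 19026411702) (.one (nat_lit 2098635) .nil)))),
   .two (nat_lit 11559501828) (nat_lit 2923429894) (.two (nat_lit 708837379) (nat_lit 83886088) (.two (nat_lit 4194305) (nat_lit 10504634417) (.two (nat_lit 2097152) (nat_lit 4194855) (.one (nat_lit 1176502980) .nil)))),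
   .two (nat_lit 75497476) (nat_lit 11577327642) (.two (nat_lit 8388608) (nat_lit 3557818669) (.one (nat_lit 37313578277) .nil)),
   .two (nat_lit 9768534020) (nat_lit 12047089672) (.two (nat_lit 34603009) (nat_lit 4634705947) (.two (nat_lit 8388608) (nat_lit 174752530735) (.one (nat_lit 4195788) .nil))),
   .two (nat_lit 46980399108) (nat_lit 11577327621) (.two (nat_lit 11543773187) (nat_lit 1379926028) (.two (nat_lit 4194305) (nat_lit 11006902326) (.two (nat_lit 4194304) (nat_lit 10503585974) (.one (nat_lit 1050061) .nil)))),
   .two (nat_lit 2954887172) (nat_lit 11492392968) (.two (nat_lit 50331649) (nat_lit 19128123441) (.two (nat_lit 16777216) (nat_lit 47548727663) (.one (nat_lit 2098639) .nil))),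
   .two (nat_lit 41943044) (nat_lit 2889875460) (.two (nat_lit 272629763) (nat_lit 4605345801) (.two (nat_lit 4194305) (nat_lit 10947133500) (.two (nat_lit 2097152) (nat_lit 183949591301) .nil))),
   .two (nat_lit 41943044) (nat_lit 2889875460) (.two (nat_lit 272629763) (nat_lit 4605345801) (.two (nat_lit 4194305) (nat_lit 174692761660) (.two (nat_lit 2097152) (nat_lit 10003415811) .nil))),
   .two (nat_lit 721420292) (nat_lit 10506731528) (.two (nat_lit 606076929) (nat_lit 83886133) (.two (nat_lit 2097152) (nat_lit 28793897340) (.one (nat_lit 9867101358) .nil))),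
   .two (nat_lit 12050235396) (nat_lit 21207449604) (.two (nat_lit 11546918915) (nat_lit 1309671433) (.two (nat_lit 606076929) (nat_lit 101711921) (.two (nat_lit 2097152) (nat_lit 1846542712) (.one (nat_lit 1050065) .nil)))),
   .two (nat_lit 1178599428) (nat_lit 2988441614) (.two (nat_lit 2097153) (nat_lit 11479810074) (.two (nat_lit 4194304) (nat_lit 1914700182) (.one (nat_lit 20640170703) .nil))),
   .two (nat_lit 203423748) (nat_lit 156372041742) (.two (nat_lit 2097153) (nat_lit 183853121561) (.two (nat_lit 2097152) (nat_lit 9873391802) (.one (nat_lit 1780482792) .nil))),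
   .two (nat_lit 2889875460) (nat_lit 28758245380) (.two (nat_lit 4601151491) (nat_lit 337641484) (.two (nat_lit 620756993) (nat_lit 807403925) (.one (nat_lit 4632609515) .nil))),
   .two (nat_lit 10336862212) (nat_lit 10503585799) (.two (nat_lit 34603011) (nat_lit 285212680) (.two (nat_lit 2097153) (nat_lit 18925748269) (.two (nat_lit 4194304) (nat_lit 166211879094) (.one (nat_lit 16778708) .nil)))),
   .two (nat_lit 9866051588) (nat_lit 270532615) (.two (nat_lit 10504634371) (nat_lit 9866051592) (.two (nat_lit 41943041) (nat_lit 158176641050) (.two (nat_lit 2097152) (nat_lit 156532474037) (.one (nat_lit 156573369093) .nil)))),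
   .two (nat_lit 620756996) (nat_lit 809500680) (.two (nat_lit 4194305) (nat_lit 3003121749) (.two (nat_lit 16777216) (nat_lit 19130220928) (.one (nat_lit 1379927272) .nil))),
   .two (nat_lit 4194308) (nat_lit 10336862212) (.two (nat_lit 34603011) (nat_lit 12050235402) (.two (nat_lit 4194305) (nat_lit 183947493436) (.two (nat_lit 4194304) (nat_lit 20638073209) (.one (nat_lit 158143087322) .nil)))),
   .two (nat_lit 742391812) (nat_lit 11584667669) (.two (nat_lit 2097153) (nat_lit 156573368372) (.two (nat_lit 2097152) (nat_lit 11014242670) (.one (nat_lit 174753580493) .nil))),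
   .two (nat_lit 606076932) (nat_lit 184993972232) (.two (nat_lit 2097153) (nat_lit 174688567344) (.two (nat_lit 4194304) (nat_lit 46978302257) (.one (nat_lit 2990539460) .nil))),
   .two (nat_lit 11559501828) (nat_lit 4605345796) (.two (nat_lit 8388610) (nat_lit 11559501832) (.two (nat_lit 156367847425) (nat_lit 46422557007) (.one (nat_lit 16778709) .nil))),
   .two (nat_lit 12047089668) (nat_lit 21208498180) (.two (nat_lit 11543773187) (nat_lit 165526110216) (.two (nat_lit 34603009) (nat_lit 10336862235) (.two (nat_lit 1048576) (nat_lit 9967763524) (.one (nat_lit 2098646) .nil)))),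
   .two (nat_lit 46409973764) (nat_lit 9966714892) (.two (nat_lit 156364701697) (nat_lit 20740833372) (.two (nat_lit 4194304) (nat_lit 3557818689) (.one (nat_lit 1178600180) .nil))),
   .two (nat_lit 822083588) (nat_lit 19599982600) (.two (nat_lit 37748737) (nat_lit 19545456824) (.one (nat_lit 16778711) .nil)),
   .two (nat_lit 158083317764) (nat_lit 50331665) (.two (nat_lit 50331649) (nat_lit 28697428016) (.two (nat_lit 2097152) (nat_lit 157043131184) .nil)),
   .two (nat_lit 739246084) (nat_lit 28093448209) (.two (nat_lit 34603009) (nat_lit 3028287513) (.two (nat_lit 16777216) (nat_lit 3457155805) .nil)),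
   .two (nat_lit 2889875460) (nat_lit 12624855063) (.two (nat_lit 4194305) (nat_lit 20644364313) (.two (nat_lit 4194304) (nat_lit 1853882762) (.one (nat_lit 4195800) .nil))),
   .two (nat_lit 4605345796) (nat_lit 28086108164) (.two (nat_lit 8388610) (nat_lit 174752530440) (.two (nat_lit 8388609) (nat_lit 3524264037) (.two (nat_lit 8388608) (nat_lit 605028534) (.one (nat_lit 1050073) .nil)))),
   .two (nat_lit 10369368068) (nat_lit 10504634376) (.two (nat_lit 2097153) (nat_lit 780140914) (.one (nat_lit 10437526850) .nil)),
   .two (nat_lit 822083588) (nat_lit 9967763461) (.two (nat_lit 16777218) (nat_lit 21208498189) (.two (nat_lit 16777217) (nat_lit 1310720025) (.two (nat_lit 16777216) (nat_lit 1176502454) (.one (nat_lit 2098650) .nil)))),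
   .two (nat_lit 158143086596) (nat_lit 41943046) (.two (nat_lit 746586115) (nat_lit 1779433480) (.two (nat_lit 9766436865) (nat_lit 183845781811) (.one (nat_lit 28790752687) .nil))),
   .two (nat_lit 721420292) (nat_lit 156372041736) (.two (nat_lit 8388609) (nat_lit 11492392985) (.two (nat_lit 8388608) (nat_lit 10351542456) (.one (nat_lit 16778715) .nil))),
   .two (nat_lit 3458203652) (nat_lit 18933088264) (.two (nat_lit 41943041) (nat_lit 21812477998) (.two (nat_lit 8388608) (nat_lit 46978302288) (.one (nat_lit 2098652) .nil))),
   .two (nat_lit 1779433476) (nat_lit 12054429700) (.two (nat_lit 101711875) (nat_lit 11484004374) (.two (nat_lit 605028353) (nat_lit 343932953) (.two (nat_lit 1048576) (nat_lit 166203490488) (.one (nat_lit 19127075632) .nil)))),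
   .two (nat_lit 2954887172) (nat_lit 68157462) (.two (nat_lit 606076929) (nat_lit 185020186649) (.two (nat_lit 2097152) (nat_lit 11006902455) (.one (nat_lit 1050077) .nil))),
   .two (nat_lit 1343225860) (nat_lit 9969860620) (.two (nat_lit 4194305) (nat_lit 11510218810) (.two (nat_lit 1048576) (nat_lit 183848927599) (.one (nat_lit 158646403821) .nil))),
   .two (nat_lit 4601151492) (nat_lit 20705181703) (.two (nat_lit 20638072835) (nat_lit 185023332363) (.two (nat_lit 2097153) (nat_lit 1279262780) (.two (nat_lit 2097152) (nat_lit 4194859) (.one (nat_lit 10504635156) .nil)))),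
   .two (nat_lit 28093448196) (nat_lit 10939793416) (.two (nat_lit 612368385) (nat_lit 46406828080) (.two (nat_lit 1048576) (nat_lit 243269968) (.one (nat_lit 28790751981) .nil))),
   .two (nat_lit 16777220) (nat_lit 1849688072) (.two (nat_lit 50331649) (nat_lit 809500784) (.two (nat_lit 1048576) (nat_lit 183848927624) (.one (nat_lit 158179788102) .nil))),
   .two (nat_lit 11492392964) (nat_lit 10939793416) (.two (nat_lit 50331649) (nat_lit 873463854) (.two (nat_lit 1048576) (nat_lit 2969567300) (.one (nat_lit 16778718) .nil))),
   .two (nat_lit 9866051588) (nat_lit 156971827215) (.two (nat_lit 37748737) (nat_lit 101711899) (.two (nat_lit 1048576) (nat_lit 20707279032) (.one (nat_lit 2920284893) .nil))),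
   .two (nat_lit 654311428) (nat_lit 12617515014) (.two (nat_lit 11543773187) (nat_lit 46422556729) (.two (nat_lit 8388608) (nat_lit 16777772) (.one (nat_lit 11014243632) .nil))),
   .two (nat_lit 1343225860) (nat_lit 20738736137) (.two (nat_lit 34603009) (nat_lit 2954887507) (.one (nat_lit 2098655) .nil)),
   .two (nat_lit 101711876) (nat_lit 10909384710) (.two (nat_lit 218103811) (nat_lit 158143086602) (.two (nat_lit 4194305) (nat_lit 3573547051) (.two (nat_lit 4194304) (nat_lit 37313577283) (.one (nat_lit 158179787478) .nil)))),
   .two (nat_lit 159224168452) (nat_lit 10939793414) (.two (nat_lit 705691650) (nat_lit 243269659) (.two (nat_lit 16777216) (nat_lit 19100861214) .nil)),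
   .two (nat_lit 2954887172) (nat_lit 19596836870) (.two (nat_lit 9934209027) (nat_lit 19596836902) (.two (nat_lit 1048576) (nat_lit 21778923703) (.one (nat_lit 1050081) .nil))),
   .two (nat_lit 11559501828) (nat_lit 12047089672) (.two (nat_lit 34603009) (nat_lit 1426063398) (.two (nat_lit 4194304) (nat_lit 158158815541) (.one (nat_lit 16778722) .nil))),
   .two (nat_lit 10343153668) (nat_lit 16777236) (.two (nat_lit 8388609) (nat_lit 218103833) (.two (nat_lit 1048576) (nat_lit 889192841) (.one (nat_lit 159257724081) .nil))),
   .two (nat_lit 203423748) (nat_lit 166129041412) (.two (nat_lit 209715203) (nat_lit 203423752) (.two (nat_lit 41943041) (nat_lit 1846542403) (.two (nat_lit 2097152) (nat_lit 2987393508) (.one (nat_lit 1343227357) .nil)))),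
   .two (nat_lit 754974724) (nat_lit 4632608775) (.two (nat_lit 184549379) (nat_lit 1277165584) (.two (nat_lit 16777217) (nat_lit 165526110275) (.two (nat_lit 8388608) (nat_lit 2097712) (.one (nat_lit 2098661) .nil)))),
   .two (nat_lit 83886084) (nat_lit 705691657) (.two (nat_lit 50331649) (nat_lit 28086108499) (.one (nat_lit 1050087) .nil)),
   .two (nat_lit 169869316) (nat_lit 156367847428) (.two (nat_lit 34603011) (nat_lit 12050235401) (.two (nat_lit 34603009) (nat_lit 21778923561) (.two (nat_lit 1048576) (nat_lit 28791800111) (.one (nat_lit 12114199258) .nil)))),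
   .two (nat_lit 2889875460) (nat_lit 21208498180) (.two (nat_lit 159217876995) (nat_lit 9768534024) (.two (nat_lit 4194305) (nat_lit 158077026357) (.two (nat_lit 2097152) (nat_lit 10909385413) .nil))),
   .two (nat_lit 2887778308) (nat_lit 2902458376) (.two (nat_lit 2097153) (nat_lit 185002360879) (.two (nat_lit 2097152) (nat_lit 28690088116) (.one (nat_lit 1050088) .nil))),
   .two (nat_lit 37748740) (nat_lit 343932937) (.two (nat_lit 4194305) (nat_lit 1182794067) (.one (nat_lit 10007610855) .nil)),
   .two (nat_lit 285212676) (nat_lit 12054429704) (.two (nat_lit 34603009) (nat_lit 2894070095) (.one (nat_lit 2894071239) .nil)),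
   .two (nat_lit 705691652) (nat_lit 13195280388) (.two (nat_lit 8388610) (nat_lit 11543773193) (.two (nat_lit 4194305) (nat_lit 269484433) (.one (nat_lit 19596838184) .nil))),
   .two (nat_lit 1178599428) (nat_lit 12147752966) (.two (nat_lit 739246083) (nat_lit 1178599432) (.two (nat_lit 34603009) (nat_lit 9768534053) (.two (nat_lit 8388608) (nat_lit 1947205980) (.one (nat_lit 772801984) .nil)))),
   .two (nat_lit 13195280388) (nat_lit 159251431429) (.two (nat_lit 8388610) (nat_lit 158144135181) (.two (nat_lit 8388609) (nat_lit 20738736153) (.two (nat_lit 8388608) (nat_lit 18926796982) (.one (nat_lit 2098668) .nil)))),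
   .two (nat_lit 1780482052) (nat_lit 3460300823) (.two (nat_lit 4194305) (nat_lit 166197198886) (.two (nat_lit 2097152) (nat_lit 4601151808) (.one (nat_lit 2098669) .nil))),
   .two (nat_lit 12054429700) (nat_lit 10336862216) (.two (nat_lit 41943041) (nat_lit 673185832) (.two (nat_lit 8388608) (nat_lit 11007951129) (.one (nat_lit 2098670) .nil))),
   .two (nat_lit 1276116996) (nat_lit 1291845640) (.two (nat_lit 50331649) (nat_lit 156535619764) (.one (nat_lit 1916798104) .nil)),
   .two (nat_lit 11543773188) (nat_lit 166132187140) (.two (nat_lit 705691650) (nat_lit 157038936079) (.two (nat_lit 4194305) (nat_lit 1779433499) (.two (nat_lit 1048576) (nat_lit 675283258) (.one (nat_lit 138412473) .nil)))),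
   .two (nat_lit 1178599428) (nat_lit 166130089992) (.two (nat_lit 9768534017) (nat_lit 19027460132) (.two (nat_lit 4194304) (nat_lit 13188989249) (.one (nat_lit 19029558033) .nil))),
   .two (nat_lit 2902458372) (nat_lit 156971827227) (.two (nat_lit 4194304) (nat_lit 3003121978) (.one (nat_lit 166232851807) .nil)),
   .two (nat_lit 166132187140) (nat_lit 158183981063) (.two (nat_lit 176160771) (nat_lit 28693233672) (.two (nat_lit 8388609) (nat_lit 166132187176) (.two (nat_lit 4194304) (nat_lit 156573369085) .nil))),
   .two (nat_lit 612368388) (nat_lit 1209008145) (.two (nat_lit 2097153) (nat_lit 19529728056) (.two (nat_lit 2097152) (nat_lit 47555019281) (.one (nat_lit 156573369094) .nil))),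
   .two (nat_lit 11543773188) (nat_lit 18928893956) (.two (nat_lit 739246083) (nat_lit 184419352585) (.two (nat_lit 34603009) (nat_lit 10372513852) (.two (nat_lit 16777216) (nat_lit 9798943467) .nil))),
   .two (nat_lit 2961178628) (nat_lit 156367847432) (.two (nat_lit 8388609) (nat_lit 2319450169) (.two (nat_lit 8388608) (nat_lit 2353004840) (.one (nat_lit 705693001) .nil))),
   .two (nat_lit 203423748) (nat_lit 3464495112) (.two (nat_lit 2097153) (nat_lit 3464495140) (.two (nat_lit 2097152) (nat_lit 1954546005) (.one (nat_lit 28758246120) .nil))),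
   .two (nat_lit 16777220) (nat_lit 12117344264) (.two (nat_lit 37748737) (nat_lit 46422556752) (.two (nat_lit 4194304) (nat_lit 16777779) (.one (nat_lit 37262197999) .nil))),
   .two (nat_lit 1277165572) (nat_lit 47555018756) (.two (nat_lit 176160771) (nat_lit 165526110224) (.two (nat_lit 8388609) (nat_lit 2317353010) (.two (nat_lit 2097152) (nat_lit 310378841) (.one (nat_lit 706740992) .nil)))),
   .two (nat_lit 2902458372) (nat_lit 10506731528) (.two (nat_lit 4194305) (nat_lit 166245433388) (.two (nat_lit 4194304) (nat_lit 654311748) (.one (nat_lit 16778736) .nil))),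
   .two (nat_lit 4194308) (nat_lit 9881780232) (.two (nat_lit 34603009) (nat_lit 809500739) (.two (nat_lit 1048576) (nat_lit 9969861003) (.one (nat_lit 352322799) .nil))),
   .two (nat_lit 11543773188) (nat_lit 157038936077) (.two (nat_lit 34603009) (nat_lit 2923429913) (.two (nat_lit 1048576) (nat_lit 28793897142) (.one (nat_lit 3524265427) .nil))),
   .two (nat_lit 2954887172) (nat_lit 21207449604) (.two (nat_lit 158143086595) (nat_lit 2954887176) (.two (nat_lit 606076929) (nat_lit 185020186649) (.two (nat_lit 2097152) (nat_lit 1175454098) (.one (nat_lit 1050097) .nil)))),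
   .two (nat_lit 4194308) (nat_lit 46514831371) (.two (nat_lit 37748737) (nat_lit 156968681520) (.two (nat_lit 1048576) (nat_lit 239075710) (.one (nat_lit 1050098) .nil))),
   .two (nat_lit 1343225860) (nat_lit 28693233668) (.two (nat_lit 705691650) (nat_lit 2353004567) (.two (nat_lit 34603009) (nat_lit 37316722874) (.one (nat_lit 4195827) .nil))),
   .two (nat_lit 46407876612) (nat_lit 19604176900) (.two (nat_lit 2097155) (nat_lit 19604176904) (.two (nat_lit 34603009) (nat_lit 20652753080) (.one (nat_lit 9948890332) .nil))),
   .two (nat_lit 1277165572) (nat_lit 47555018756) (.two (nat_lit 176160771) (nat_lit 174753579025) (.two (nat_lit 8388609) (nat_lit 9900654651) (.two (nat_lit 16777216) (nat_lit 184423547190) (.one (nat_lit 8390132) .nil)))),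
   .two (nat_lit 83886084) (nat_lit 236978182) (.two (nat_lit 203423747) (nat_lit 10015997979) (.two (nat_lit 8388608) (nat_lit 606077729) .nil)),
   .two (nat_lit 2902458372) (nat_lit 20704133125) (.two (nat_lit 2902458370) (nat_lit 11543773240) (.two (nat_lit 1048576) (nat_lit 28101836984) (.one (nat_lit 150995677) .nil))),
   .two (nat_lit 16777220) (nat_lit 2887778308) (.two (nat_lit 184549378) (nat_lit 21812478012) (.two (nat_lit 1048576) (nat_lit 9900654905) (.one (nat_lit 166130091256) .nil))),
   .two (nat_lit 21777874948) (nat_lit 19597885446) (.two (nat_lit 50331651) (nat_lit 21777874952) (.two (nat_lit 50331649) (nat_lit 158075977755) (.two (nat_lit 16777216) (nat_lit 1745879220) (.one (nat_lit 136316399) .nil)))),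
   .two (nat_lit 10369368068) (nat_lit 157038936069) (.two (nat_lit 9765388291) (nat_lit 46980399129) (.two (nat_lit 8388608) (nat_lit 4030726323) (.one (nat_lit 1050102) .nil))),
   .two (nat_lit 739246084) (nat_lit 1914699797) (.two (nat_lit 9765388289) (nat_lit 3558866969) (.two (nat_lit 1048576) (nat_lit 136315063) (.one (nat_lit 184987682277) .nil))),
   .two (nat_lit 41943044) (nat_lit 9781116932) (.two (nat_lit 2902458371) (nat_lit 41943048) (.two (nat_lit 16777217) (nat_lit 880803876) (.two (nat_lit 16777216) (nat_lit 166237045057) (.one (nat_lit 9906947304) .nil)))),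
   .two (nat_lit 158144135172) (nat_lit 183920230407) (.two (nat_lit 18933088259) (nat_lit 158144135176) (.two (nat_lit 8388609) (nat_lit 158144135194) (.two (nat_lit 16777216) (nat_lit 1176502453) (.one (nat_lit 1920992005) .nil)))),
   .two (nat_lit 83886084) (nat_lit 236978182) (.two (nat_lit 9948889091) (nat_lit 10336862216) (.two (nat_lit 2097153) (nat_lit 721420313) (.two (nat_lit 8388608) (nat_lit 2097495) (.one (nat_lit 2098684) .nil)))),
   .two (nat_lit 68157444) (nat_lit 159224168452) (.two (nat_lit 176160770) (nat_lit 3524263947) (.two (nat_lit 4194305) (nat_lit 183946444856) (.two (nat_lit 4194304) (nat_lit 158176641328) (.one (nat_lit 21818770727) .nil)))),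
   .two (nat_lit 41943044) (nat_lit 183845781508) (.two (nat_lit 34603011) (nat_lit 41943048) (.two (nat_lit 2097153) (nat_lit 1846542389) (.two (nat_lit 2097152) (nat_lit 37253808463) (.one (nat_lit 2098687) .nil)))),
   .two (nat_lit 46978301956) (nat_lit 1753219076) (.two (nat_lit 69206019) (nat_lit 184423546890) (.two (nat_lit 37748737) (nat_lit 158150427023) (.one (nat_lit 159224169214) .nil))),
   .two (nat_lit 1358954500) (nat_lit 12047089672) (.two (nat_lit 34603009) (nat_lit 1929379890) (.two (nat_lit 1048576) (nat_lit 19109249338) (.one (nat_lit 202375899) .nil))),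
   .two (nat_lit 50331653) (nat_lit 9866051591) (.two (nat_lit 822083587) (nat_lit 12047089684) (.two (nat_lit 34603009) (nat_lit 16777241) (.two (nat_lit 16777216) (nat_lit 638582967) (.one (nat_lit 12047090104) .nil)))),
   .two (nat_lit 9948889092) (nat_lit 104857604) (.two (nat_lit 184549378) (nat_lit 1916796936) (.two (nat_lit 16777217) (nat_lit 10372513908) (.two (nat_lit 8388608) (nat_lit 1178599773) (.one (nat_lit 1182794927) .nil)))),
   .two (nat_lit 285212676) (nat_lit 9802088453) (.two (nat_lit 157038936067) (nat_lit 50331656) (.two (nat_lit 9768534017) (nat_lit 16777284) (.one (nat_lit 46523220725) .nil))),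
   .two (nat_lit 12054429700) (nat_lit 19596836872) (.two (nat_lit 34603009) (nat_lit 1853882416) (.two (nat_lit 4194304) (nat_lit 47588573906) .nil)),
   .two (nat_lit 2887778308) (nat_lit 10343153668) (.two (nat_lit 2097155) (nat_lit 4605345800) (.two (nat_lit 2097153) (nat_lit 1853882742) (.one (nat_lit 8390144) .nil))),
   .two (nat_lit 16777220) (nat_lit 174752530439) (.two (nat_lit 50331651) (nat_lit 19026411529) (.two (nat_lit 34603009) (nat_lit 2332033084) (.two (nat_lit 1048576) (nat_lit 28806480358) (.one (nat_lit 1343226621) .nil)))),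
   .two (nat_lit 11543773188) (nat_lit 28087156744) (.two (nat_lit 50331649) (nat_lit 28690087985) (.two (nat_lit 16777216) (nat_lit 21207449940) (.one (nat_lit 9966716287) .nil))),
   .two (nat_lit 11479810052) (nat_lit 156365750280) (.two (nat_lit 16777217) (nat_lit 37314625839) (.one (nat_lit 1950352712) .nil)),
   .two (nat_lit 1780482052) (nat_lit 12047089672) (.two (nat_lit 41943041) (nat_lit 37247516857) (.one (nat_lit 10001319424) .nil)),
   .two (nat_lit 156365750276) (nat_lit 46414168070) (.two (nat_lit 176160771) (nat_lit 28791799855) (.two (nat_lit 16777216) (nat_lit 156372042076) (.one (nat_lit 19604178371) .nil))),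
   .two (nat_lit 16777220) (nat_lit 183848927236) (.two (nat_lit 13191086083) (nat_lit 285212681) (.two (nat_lit 37748737) (nat_lit 9948889124) (.two (nat_lit 4194304) (nat_lit 19612565845) (.one (nat_lit 71303939) .nil)))),
   .two (nat_lit 41943044) (nat_lit 12047089673) (.two (nat_lit 16777217) (nat_lit 11476664345) (.two (nat_lit 16777216) (nat_lit 28764537121) (.one (nat_lit 8390147) .nil))),
   .two (nat_lit 1343225860) (nat_lit 165526110212) (.two (nat_lit 9866051587) (nat_lit 21208498185) (.two (nat_lit 605028353) (nat_lit 1176502332) (.two (nat_lit 16777216) (nat_lit 183912891112) .nil))),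
   .two (nat_lit 713031684) (nat_lit 13191086088) (.two (nat_lit 41943041) (nat_lit 843055140) (.two (nat_lit 8388608) (nat_lit 174688567595) (.one (nat_lit 3028288261) .nil))),
   .two (nat_lit 176160772) (nat_lit 165525061636) (.two (nat_lit 8388611) (nat_lit 269484043) (.two (nat_lit 8388609) (nat_lit 1947205718) (.two (nat_lit 16777216) (nat_lit 19537068333) (.one (nat_lit 8390151) .nil)))),
   .two (nat_lit 4194308) (nat_lit 47555018760) (.two (nat_lit 16777217) (nat_lit 2920284345) (.one (nat_lit 705693047) .nil)),
   .two (nat_lit 285212676) (nat_lit 343932933) (.two (nat_lit 16777218) (nat_lit 46414168072) (.two (nat_lit 16777217) (nat_lit 1283457073) (.two (nat_lit 4194304) (nat_lit 1384121047) .nil))),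
   .two (nat_lit 47563407364) (nat_lit 843055109) (.two (nat_lit 809500675) (nat_lit 620757000) (.two (nat_lit 16777217) (nat_lit 11513364505) (.two (nat_lit 1048576) (nat_lit 205521081) (.one (nat_lit 3003122818) .nil)))),
   .two (nat_lit 2887778308) (nat_lit 13191086084) (.two (nat_lit 4194306) (nat_lit 11476664328) (.two (nat_lit 4194305) (nat_lit 10000269407) (.two (nat_lit 4194304) (nat_lit 19094569272) (.one (nat_lit 28793898108) .nil)))),
   .two (nat_lit 4194308) (nat_lit 41943044) (.two (nat_lit 4194306) (nat_lit 1175453704) (.two (nat_lit 4194305) (nat_lit 243269687) (.two (nat_lit 4194304) (nat_lit 4638900548) (.one (nat_lit 184423548400) .nil)))),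
   .two (nat_lit 272629764) (nat_lit 10504634376) (.two (nat_lit 2097153) (nat_lit 158079123548) (.two (nat_lit 4194304) (nat_lit 174686470528) (.one (nat_lit 2317354311) .nil))),
   .two (nat_lit 742391812) (nat_lit 3028287494) (.two (nat_lit 176160770) (nat_lit 840957963) (.two (nat_lit 8388609) (nat_lit 3021996083) (.two (nat_lit 2097152) (nat_lit 19100860790) (.one (nat_lit 2098697) .nil)))),
   .two (nat_lit 184416206852) (nat_lit 9781116934) (.two (nat_lit 9781116931) (nat_lit 184416206856) (.two (nat_lit 34603009) (nat_lit 318767169) (.two (nat_lit 4194304) (nat_lit 10921968377) .nil))),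
   .two (nat_lit 21207449604) (nat_lit 9967763461) (.two (nat_lit 9934209027) (nat_lit 1309671433) (.two (nat_lit 606076929) (nat_lit 168820787) (.two (nat_lit 2097152) (nat_lit 184986632531) (.one (nat_lit 1050122) .nil)))),
   .two (nat_lit 37748740) (nat_lit 2316304390) (.two (nat_lit 169869314) (nat_lit 2316304394) (.two (nat_lit 2097153) (nat_lit 202375217) (.two (nat_lit 2097152) (nat_lit 739246441) (.one (nat_lit 4195851) .nil)))),
   .two (nat_lit 176160772) (nat_lit 28758245381) (.two (nat_lit 46978301955) (nat_lit 47555018761) (.two (nat_lit 2097153) (nat_lit 184993972260) (.two (nat_lit 2097152) (nat_lit 156539814229) (.one (nat_lit 1847591656) .nil)))),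
   .two (nat_lit 4194308) (nat_lit 10007609349) (.two (nat_lit 159224168451) (nat_lit 809500680) (.two (nat_lit 605028353) (nat_lit 1312817335) (.one (nat_lit 13224641323) .nil))),
   .two (nat_lit 203423748) (nat_lit 46980399112) (.two (nat_lit 2097153) (nat_lit 165528207440) (.two (nat_lit 2097152) (nat_lit 4194882) (.one (nat_lit 1950352624) .nil))),
   .two (nat_lit 176160772) (nat_lit 158144135172) (.two (nat_lit 638582787) (nat_lit 1780482058) (.two (nat_lit 605028353) (nat_lit 1344274776) (.one (nat_lit 673186558) .nil))),
   .two (nat_lit 8388612) (nat_lit 20738736134) (.two (nat_lit 203423747) (nat_lit 8388628) (.two (nat_lit 2097153) (nat_lit 28764537016) (.one (nat_lit 3021996833) .nil))),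
   .two (nat_lit 205520900) (nat_lit 13195280392) (.two (nat_lit 4194305) (nat_lit 310378534) (.two (nat_lit 4194304) (nat_lit 746586492) (.one (nat_lit 10503587296) .nil))),
   .two (nat_lit 41943044) (nat_lit 20705181708) (.two (nat_lit 8388609) (nat_lit 337641819) (.one (nat_lit 185027527407) .nil)),
   .two (nat_lit 620756996) (nat_lit 10506731524) (.two (nat_lit 83886083) (nat_lit 46510637065) (.two (nat_lit 16777217) (nat_lit 71303228) (.two (nat_lit 16777216) (nat_lit 21781021203) (.one (nat_lit 1950352885) .nil)))),
   .two (nat_lit 1175453700) (nat_lit 1178599432) (.two (nat_lit 34603009) (nat_lit 9768534057) (.two (nat_lit 4194304) (nat_lit 166229705520) .nil)),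
   .two (nat_lit 1376780293) (nat_lit 10506731526) (.two (nat_lit 10506731523) (nat_lit 158646403085) (.two (nat_lit 9765388289) (nat_lit 21781021014) (.one (nat_lit 1049799) .nil))),
   .two (nat_lit 8388612) (nat_lit 705691674) (.two (nat_lit 4194305) (nat_lit 813695416) (.one (nat_lit 11543774739) .nil)),
   .two (nat_lit 4194308) (nat_lit 639631370) (.two (nat_lit 2097155) (nat_lit 612368427) (.two (nat_lit 2097153) (nat_lit 1178599707) (.two (nat_lit 1048576) (nat_lit 1277166271) (.one (nat_lit 606078486) .nil)))),
   .two (nat_lit 4194308) (nat_lit 639631368) (.two (nat_lit 4194306) (nat_lit 739246122) (.two (nat_lit 4194305) (nat_lit 739246519) (.one (nat_lit 11543774001) .nil))),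
   .two (nat_lit 4194308) (nat_lit 8388634) (.two (nat_lit 4194305) (nat_lit 739246520) (.one (nat_lit 11543774002) .nil)),
   .two (nat_lit 2969567236) (nat_lit 1753219080) (.two (nat_lit 184549378) (nat_lit 28093448233) (.two (nat_lit 41943041) (nat_lit 654311492) (.two (nat_lit 8388608) (nat_lit 318767842) (.one (nat_lit 11525948980) .nil)))),
   .two (nat_lit 2902458372) (nat_lit 157038936091) (.two (nat_lit 9768534017) (nat_lit 2969567300) (.two (nat_lit 4194304) (nat_lit 16778023) (.one (nat_lit 71304730) .nil))),
   .two (nat_lit 9881780228) (nat_lit 3527409672) (.two (nat_lit 1358954499) (nat_lit 46980399131) (.two (nat_lit 4194305) (nat_lit 13237223718) (.two (nat_lit 4194304) (nat_lit 318767835) (.one (nat_lit 19142805043) .nil)))),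
   .two (nat_lit 713031684) (nat_lit 11559501848) (.two (nat_lit 50331649) (nat_lit 184993972292) (.two (nat_lit 16777216) (nat_lit 9772729030) (.one (nat_lit 142607153) .nil))),
   .two (nat_lit 2969567236) (nat_lit 847249420) (.two (nat_lit 2902458370) (nat_lit 12050235440) (.two (nat_lit 612368385) (nat_lit 159266111556) (.two (nat_lit 4194304) (nat_lit 1862271783) (.one (nat_lit 708838936) .nil)))),
   .two (nat_lit 713031684) (nat_lit 754974746) (.two (nat_lit 50331649) (nat_lit 184993972292) (.two (nat_lit 16777216) (nat_lit 3565159112) (.one (nat_lit 1426064942) .nil))),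
   .two (nat_lit 11559501828) (nat_lit 158083317768) (.two (nat_lit 721420291) (nat_lit 9906946074) (.two (nat_lit 16777217) (nat_lit 46514831543) (.two (nat_lit 8388608) (nat_lit 11022631633) (.one (nat_lit 9940502067) .nil)))),
   .two (nat_lit 1291845636) (nat_lit 2994733074) (.two (nat_lit 75497475) (nat_lit 47596961860) (.two (nat_lit 1048576) (nat_lit 813695417) (.one (nat_lit 276825657) .nil))),
   .two (nat_lit 1350565892) (nat_lit 1795162120) (.two (nat_lit 713031683) (nat_lit 19612565556) (.two (nat_lit 620756993) (nat_lit 1384120388) (.two (nat_lit 4194304) (nat_lit 184423547633) (.one (nat_lit 159219975720) .nil)))),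
   .two (nat_lit 11492392964) (nat_lit 4605345800) (.two (nat_lit 8388610) (nat_lit 13237223451) (.two (nat_lit 8388609) (nat_lit 2332033362) (.two (nat_lit 8388608) (nat_lit 166211879681) (.one (nat_lit 11517559602) .nil)))),
   .two (nat_lit 822083588) (nat_lit 46414168072) (.two (nat_lit 16777219) (nat_lit 1216348187) (.two (nat_lit 156367847425) (nat_lit 9806283191) (.one (nat_lit 2894071357) .nil))),
   .two (nat_lit 1291845636) (nat_lit 156535619594) (.two (nat_lit 2889875459) (nat_lit 10913579048) (.two (nat_lit 37748737) (nat_lit 1317011896) (.one (nat_lit 41944620) .nil))),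
   .two (nat_lit 3525312516) (nat_lit 10436476954) (.two (nat_lit 2097153) (nat_lit 10000269494) (.two (nat_lit 2097152) (nat_lit 11476665059) (.one (nat_lit 672138802) .nil))),
   .two (nat_lit 620756996) (nat_lit 142606363) (.two (nat_lit 612368385) (nat_lit 1358954564) (.two (nat_lit 8388608) (nat_lit 687866577) (.one (nat_lit 276825624) .nil))),
   .two (nat_lit 11551113220) (nat_lit 117440520) (.two (nat_lit 9781116931) (nat_lit 9906946075) (.two (nat_lit 50331649) (nat_lit 11584667716) (.two (nat_lit 16777216) (nat_lit 746586869) (.one (nat_lit 9940502071) .nil)))),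
   .two (nat_lit 184549380) (nat_lit 9974054939) (.two (nat_lit 612368385) (nat_lit 2969567300) (.two (nat_lit 8388608) (nat_lit 1224737478) (.one (nat_lit 20753417010) .nil))),
   .two (nat_lit 176160772) (nat_lit 10385096712) (.two (nat_lit 8388611) (nat_lit 1929379895) (.two (nat_lit 620756993) (nat_lit 47555018820) (.two (nat_lit 16777216) (nat_lit 9772729074) (.one (nat_lit 18941478448) .nil)))),
   .two (nat_lit 83886084) (nat_lit 1753219080) (.two (nat_lit 12121538563) (nat_lit 754974747) (.two (nat_lit 41943041) (nat_lit 185035915332) (.two (nat_lit 2097152) (nat_lit 10921968397) (.one (nat_lit 2098761) .nil)))),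
   .two (nat_lit 75497476) (nat_lit 11559501832) (.two (nat_lit 612368387) (nat_lit 185035915301) (.two (nat_lit 612368385) (nat_lit 2350907571) (.two (nat_lit 2097152) (nat_lit 157043131090) (.one (nat_lit 19042141754) .nil)))),
   .two (nat_lit 2902458372) (nat_lit 166130089992) (.two (nat_lit 218103811) (nat_lit 166130090010) (.two (nat_lit 9766436865) (nat_lit 4647288900) (.two (nat_lit 1048576) (nat_lit 19530777015) (.one (nat_lit 706741814) .nil)))),
   .two (nat_lit 612368388) (nat_lit 654311432) (.two (nat_lit 75497475) (nat_lit 10939793451) (.two (nat_lit 16777217) (nat_lit 2994733124) (.two (nat_lit 1048576) (nat_lit 21818770156) (.one (nat_lit 873465391) .nil)))),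
   .two (nat_lit 47548727300) (nat_lit 156367847432) (.two (nat_lit 169869314) (nat_lit 9902751795) (.two (nat_lit 2097153) (nat_lit 306184260) (.two (nat_lit 2097152) (nat_lit 4195113) (.one (nat_lit 4601152306) .nil)))),
   .two (nat_lit 169869316) (nat_lit 156367847432) (.two (nat_lit 2097155) (nat_lit 1212153883) (.two (nat_lit 2097153) (nat_lit 4601151556) (.two (nat_lit 1048576) (nat_lit 159217877431) (.one (nat_lit 1948255788) .nil)))),
   .two (nat_lit 620756996) (nat_lit 28691136520) (.two (nat_lit 184549379) (nat_lit 2323644460) (.two (nat_lit 41943041) (nat_lit 185035915332) (.two (nat_lit 2097152) (nat_lit 13237224202) (.one (nat_lit 606078490) .nil)))),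
   .two (nat_lit 46414168068) (nat_lit 9948889096) (.two (nat_lit 4605345795) (nat_lit 1291845659) (.two (nat_lit 8388609) (nat_lit 159266111556) (.two (nat_lit 4194304) (nat_lit 11551113657) (.one (nat_lit 9873393205) .nil)))),
   .two (nat_lit 4613734404) (nat_lit 18933088264) (.two (nat_lit 12121538563) (nat_lit 11492392987) (.two (nat_lit 41943041) (nat_lit 4647288900) (.two (nat_lit 1048576) (nat_lit 156969730487) (.one (nat_lit 12048139843) .nil)))),
   .two (nat_lit 620756996) (nat_lit 10343153672) (.two (nat_lit 83886083) (nat_lit 4605345856) (.two (nat_lit 8388609) (nat_lit 47596961860) (.two (nat_lit 1048576) (nat_lit 12163482336) (.one (nat_lit 21818770978) .nil)))),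
   .two (nat_lit 8388612) (nat_lit 10939793420) (.two (nat_lit 176160771) (nat_lit 46977253422) (.two (nat_lit 2097153) (nat_lit 2920284450) (.two (nat_lit 2097152) (nat_lit 3457155784) (.one (nat_lit 183913940526) .nil)))),
   .two (nat_lit 4194308) (nat_lit 10007609371) (.two (nat_lit 41943041) (nat_lit 272629828) (.two (nat_lit 1048576) (nat_lit 3460301600) (.one (nat_lit 1853883963) .nil))),
   .two (nat_lit 8388612) (nat_lit 705691656) (.two (nat_lit 2097155) (nat_lit 10947133486) (.two (nat_lit 2097153) (nat_lit 739246260) (.two (nat_lit 2097152) (nat_lit 19026412296) (.one (nat_lit 2098762) .nil)))),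
   .two (nat_lit 169869316) (nat_lit 156367847432) (.two (nat_lit 2097155) (nat_lit 1212153883) (.two (nat_lit 2097153) (nat_lit 4601151556) (.two (nat_lit 2097152) (nat_lit 10540286706) (.one (nat_lit 2921334333) .nil)))),
   .two (nat_lit 2902458372) (nat_lit 13195280392) (.two (nat_lit 8388610) (nat_lit 4647288859) (.two (nat_lit 8388609) (nat_lit 1761607864) (.two (nat_lit 8388608) (nat_lit 3003122433) (.one (nat_lit 2927625010) .nil)))),
   .two (nat_lit 176160772) (nat_lit 1277165576) (.two (nat_lit 9934209027) (nat_lit 3028287513) (.two (nat_lit 606076929) (nat_lit 343932996) (.two (nat_lit 2097152) (nat_lit 11517559518) (.one (nat_lit 11511268898) .nil)))),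
   .two (nat_lit 183845781508) (nat_lit 46409973768) (.two (nat_lit 806354947) (nat_lit 608174131) (.two (nat_lit 156367847425) (nat_lit 184986632260) (.two (nat_lit 2097152) (nat_lit 1950351801) (.one (nat_lit 21814576693) .nil)))),
   .two (nat_lit 612368388) (nat_lit 37314625548) (.two (nat_lit 2097155) (nat_lit 8388632) (.two (nat_lit 2097153) (nat_lit 8388676) (.two (nat_lit 2097152) (nat_lit 1384121087) (.one (nat_lit 20638074406) .nil)))),
   .two (nat_lit 3525312516) (nat_lit 156372041736) (.two (nat_lit 2887778306) (nat_lit 37320917047) (.two (nat_lit 2097153) (nat_lit 4605345860) (.two (nat_lit 2097152) (nat_lit 12155093796) (.one (nat_lit 165526111784) .nil)))),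
   .two (nat_lit 272629763) (nat_lit 166130089986) (.two (nat_lit 9766436865) (nat_lit 19130220621) .nil),
   .two (nat_lit 620756995) (nat_lit 343932999) .nil,
   .two (nat_lit 184549379) (nat_lit 159224168454) (.two (nat_lit 2097152) (nat_lit 10376708317) .nil),
   .two (nat_lit 41943043) (nat_lit 1745879043) (.two (nat_lit 605028353) (nat_lit 184423546987) .nil),
   .two (nat_lit 3458203651) (nat_lit 1191182342) (.two (nat_lit 2097153) (nat_lit 2902458655) .nil),
   .two (nat_lit 713031683) (nat_lit 69206023) (.two (nat_lit 34603009) (nat_lit 874512481) (.one (nat_lit 2098054) .nil)),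
   .two (nat_lit 2097155) (nat_lit 822083590) (.two (nat_lit 34603009) (nat_lit 788529166) (.two (nat_lit 1048576) (nat_lit 158647451843) (.one (nat_lit 16778119) .nil))),
   .two (nat_lit 721420291) (nat_lit 165532401674) (.two (nat_lit 2097152) (nat_lit 8388727) (.one (nat_lit 16778121) .nil)),
   .two (nat_lit 2902458370) (nat_lit 184419352584) (.two (nat_lit 8388608) (nat_lit 272629811) (.one (nat_lit 2902459193) .nil)),
   .two (nat_lit 41943043) (nat_lit 159217876998) (.two (nat_lit 37748737) (nat_lit 156976021558) (.one (nat_lit 20640170858) .nil)),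
   .two (nat_lit 2954887171) (nat_lit 10439622666) (.two (nat_lit 4194304) (nat_lit 2097273) (.one (nat_lit 304087892) .nil)),
   .two (nat_lit 16777219) (nat_lit 21208498180) (.two (nat_lit 16777217) (nat_lit 9900654602) (.two (nat_lit 2097152) (nat_lit 37329305704) (.one (nat_lit 2921333109) .nil))),
   .two (nat_lit 176160770) (nat_lit 1745879048) (.two (nat_lit 8388608) (nat_lit 135266349) (.one (nat_lit 1050191) .nil)),
   .two (nat_lit 83886083) (nat_lit 1913651208) (.two (nat_lit 1048576) (nat_lit 1795162183) (.one (nat_lit 9982444340) .nil)),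
   .two (nat_lit 822083587) (nat_lit 13191086086) (.two (nat_lit 37748737) (nat_lit 11492392980) (.two (nat_lit 4194304) (nat_lit 10385096825) (.one (nat_lit 2098061) .nil))),
   .two (nat_lit 705691650) (nat_lit 21208498180) (.two (nat_lit 34603009) (nat_lit 203423852) (.one (nat_lit 2098063) .nil)),
   .two (nat_lit 41943043) (nat_lit 37246468102) (.two (nat_lit 34603009) (nat_lit 104857608) (.two (nat_lit 4194304) (nat_lit 10335814484) .nil)),
   .two (nat_lit 9768534019) (nat_lit 1745879048) (.two (nat_lit 1048576) (nat_lit 184419352603) (.one (nat_lit 4195224) .nil)),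
   .two (nat_lit 34603011) (nat_lit 19100860428) (.two (nat_lit 8388608) (nat_lit 28791800705) .nil),
   .two (nat_lit 9768534019) (nat_lit 202375216) (.one (nat_lit 1049507) .nil),
   .two (nat_lit 1916796931) (nat_lit 28086108168) (.two (nat_lit 8388608) (nat_lit 303038516) (.one (nat_lit 4195920) .nil)),
   .two (nat_lit 184549379) (nat_lit 46510637236) .nil,
   .two (nat_lit 176160771) (nat_lit 285212690) (.two (nat_lit 2097152) (nat_lit 847249464) (.one (nat_lit 8389555) .nil)),
   .two (nat_lit 11476664322) (nat_lit 156367847432) (.two (nat_lit 4194304) (nat_lit 10369368149) (.one (nat_lit 10439623500) .nil)),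
   .two (nat_lit 2889875458) (nat_lit 1913651208) (.two (nat_lit 4194304) (nat_lit 2987393111) (.one (nat_lit 174688567672) .nil)),
   .two (nat_lit 4194306) (nat_lit 174686470154) (.two (nat_lit 1048576) (nat_lit 13224640565) (.one (nat_lit 4195274) .nil)),
   .two (nat_lit 9768534019) (nat_lit 1913651227) (.one (nat_lit 9798943561) .nil),
   .two (nat_lit 9768534019) (nat_lit 4599054343) (.two (nat_lit 50331649) (nat_lit 174688567347) (.one (nat_lit 174686471019) .nil)),
   .two (nat_lit 46978301955) (nat_lit 10385096747) (.one (nat_lit 16777726) .nil),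
   .two (nat_lit 16777219) (nat_lit 205520900) (.two (nat_lit 9768534017) (nat_lit 21811429405) (.two (nat_lit 4194304) (nat_lit 1048787) (.one (nat_lit 2920285046) .nil))),
   .two (nat_lit 10503585795) (nat_lit 159251431464) (.one (nat_lit 203424130) .nil),
   .two (nat_lit 4194306) (nat_lit 28690087944) (.two (nat_lit 8388608) (nat_lit 158143086645) (.one (nat_lit 4195294) .nil)),
   .two (nat_lit 171966467) (nat_lit 20644364298) (.two (nat_lit 4194304) (nat_lit 184549500) (.one (nat_lit 8389607) .nil)),
   .two (nat_lit 2954887171) (nat_lit 9948889133) (.one (nat_lit 16778220) .nil),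
   .two (nat_lit 41943043) (nat_lit 20638072842) (.two (nat_lit 8388608) (nat_lit 184417255635) (.one (nat_lit 2098159) .nil)),
   .two (nat_lit 713031682) (nat_lit 174752530439) (.two (nat_lit 34603009) (nat_lit 19604177473) .nil),
   .two (nat_lit 50331651) (nat_lit 156372041738) (.two (nat_lit 4194304) (nat_lit 1283457214) (.one (nat_lit 183953785016) .nil)),
   .two (nat_lit 184549379) (nat_lit 47550824633) .nil,
   .two (nat_lit 117440515) (nat_lit 1176502279) (.two (nat_lit 34603009) (nat_lit 12163481610) (.two (nat_lit 1048576) (nat_lit 4028629181) (.one (nat_lit 2098770) .nil))),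
   .two (nat_lit 83886083) (nat_lit 183916036112) (.two (nat_lit 1048576) (nat_lit 46409974409) .nil),
   .two (nat_lit 21223178243) (nat_lit 156533522475) (.one (nat_lit 158177690073) .nil),
   .two (nat_lit 184549379) (nat_lit 809500699) (.one (nat_lit 37749252) .nil),
   .two (nat_lit 158143086595) (nat_lit 2323644436) (.two (nat_lit 1048576) (nat_lit 11618222637) .nil),
   .two (nat_lit 169869314) (nat_lit 3464495131) (.one (nat_lit 8390227) .nil),
   .two (nat_lit 176160771) (nat_lit 11614027789) (.two (nat_lit 1048576) (nat_lit 9869197386) (.one (nat_lit 4195924) .nil)),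
   .two (nat_lit 166129041410) (nat_lit 158144135347) .nil,
   .two (nat_lit 41943043) (nat_lit 117440516) (.two (nat_lit 50331649) (nat_lit 142606866) .nil),
   .two (nat_lit 713031683) (nat_lit 21777874952) (.two (nat_lit 8388608) (nat_lit 1779434041) .nil),
   .two (nat_lit 620756995) (nat_lit 713031706) (.one (nat_lit 109052298) .nil),
   .two (nat_lit 721420291) (nat_lit 165532401674) (.two (nat_lit 2097152) (nat_lit 16778104) .nil),
   .two (nat_lit 9948889091) (nat_lit 11479810074) (.one (nat_lit 4195340) .nil),
   .two (nat_lit 19530776579) (nat_lit 1950351413) (.one (nat_lit 4194975) .nil),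
   .two (nat_lit 612368387) (nat_lit 1376780315) (.one (nat_lit 1050197) .nil),
   .two (nat_lit 11479810050) (nat_lit 10343153668) (.two (nat_lit 8388609) (nat_lit 183949590537) (.two (nat_lit 16777216) (nat_lit 2889876423) .nil)),
   .two (nat_lit 639631363) (nat_lit 158649548812) (.two (nat_lit 2097152) (nat_lit 876609621) (.one (nat_lit 4195926) .nil)),
   .two (nat_lit 41943043) (nat_lit 18926796806) (.two (nat_lit 16777217) (nat_lit 10538188845) (.one (nat_lit 2098775) .nil)),
   .two (nat_lit 10939793411) (nat_lit 11559501850) (.one (nat_lit 16778254) .nil),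
   .two (nat_lit 2969567235) (nat_lit 809500699) (.one (nat_lit 37749252) .nil),
   .two (nat_lit 41943043) (nat_lit 19596836882) (.two (nat_lit 16777216) (nat_lit 1049020) (.one (nat_lit 1050200) .nil)),
   .two (nat_lit 11479810050) (nat_lit 2927624212) (.two (nat_lit 4194304) (nat_lit 10510925950) (.one (nat_lit 8389651) .nil)),
   .two (nat_lit 8388611) (nat_lit 1277165574) (.two (nat_lit 2097153) (nat_lit 1178599434) (.two (nat_lit 4194304) (nat_lit 2097370) (.one (nat_lit 2098199) .nil))),
   .two (nat_lit 28758245379) (nat_lit 739246136) (.one (nat_lit 1049626) .nil),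
   .two (nat_lit 9948889091) (nat_lit 12114198538) (.two (nat_lit 16777216) (nat_lit 1947206306) .nil),
   .two (nat_lit 9765388291) (nat_lit 19532873736) (.two (nat_lit 1048576) (nat_lit 104857657) (.one (nat_lit 4195929) .nil)),
   .two (nat_lit 4194306) (nat_lit 28093448200) (.two (nat_lit 16777216) (nat_lit 156468510763) (.one (nat_lit 8390234) .nil)),
   .two (nat_lit 638582787) (nat_lit 20738736134) (.two (nat_lit 2097153) (nat_lit 1779433482) (.two (nat_lit 8388608) (nat_lit 874512589) (.one (nat_lit 2098211) .nil))),
   .two (nat_lit 41943043) (nat_lit 2416967686) (.two (nat_lit 156364701697) (nat_lit 13195280394) (.two (nat_lit 1048576) (nat_lit 8388828) (.one (nat_lit 19596837755) .nil))),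
   .two (nat_lit 171966467) (nat_lit 47555018758) (.two (nat_lit 8388609) (nat_lit 159216828446) (.two (nat_lit 8388608) (nat_lit 46510637114) (.one (nat_lit 8390235) .nil))),
   .two (nat_lit 822083587) (nat_lit 20704133125) (.two (nat_lit 50331649) (nat_lit 1343225912) (.one (nat_lit 1049644) .nil)),
   .two (nat_lit 3464495107) (nat_lit 37748740) (.two (nat_lit 606076929) (nat_lit 183916036317) (.one (nat_lit 4195932) .nil)),
   .two (nat_lit 34603011) (nat_lit 11559501828) (.two (nat_lit 16777217) (nat_lit 605028367) (.two (nat_lit 1048576) (nat_lit 4028629098) (.one (nat_lit 16778845) .nil))),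
   .two (nat_lit 9933160451) (nat_lit 1358954506) (.two (nat_lit 1048576) (nat_lit 183949590724) (.one (nat_lit 4195935) .nil)),
   .two (nat_lit 165528207363) (nat_lit 18933088436) .nil,
   .two (nat_lit 8388610) (nat_lit 11010048007) (.two (nat_lit 37748737) (nat_lit 159257723412) .nil),
   .two (nat_lit 8388610) (nat_lit 3573547014) (.two (nat_lit 16777217) (nat_lit 47555018760) (.two (nat_lit 8388608) (nat_lit 4027580533) (.one (nat_lit 1050208) .nil))),
   .two (nat_lit 272629763) (nat_lit 184416206856) (.two (nat_lit 2097152) (nat_lit 3527409717) (.one (nat_lit 4195387) .nil)),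
   .two (nat_lit 184549378) (nat_lit 1175453706) (.two (nat_lit 4194304) (nat_lit 672137261) (.one (nat_lit 16778849) .nil)),
   .two (nat_lit 638582787) (nat_lit 46978301956) (.two (nat_lit 2097153) (nat_lit 28757196810) (.two (nat_lit 8388608) (nat_lit 236978229) (.one (nat_lit 2098237) .nil))),
   .two (nat_lit 11492392962) (nat_lit 46980399112) (.two (nat_lit 2097152) (nat_lit 1312817269) (.one (nat_lit 4195938) .nil)),
   .two (nat_lit 2954887171) (nat_lit 21207449608) (.two (nat_lit 2097152) (nat_lit 158646403108) (.one (nat_lit 20705182682) .nil)),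
   .two (nat_lit 9934209027) (nat_lit 1745879044) (.two (nat_lit 34603009) (nat_lit 28758245384) (.two (nat_lit 1048576) (nat_lit 2887778354) (.one (nat_lit 1049663) .nil))),
   .two (nat_lit 1276116994) (nat_lit 158083317764) (.two (nat_lit 605028353) (nat_lit 343933005) (.one (nat_lit 8389698) .nil)),
   .two (nat_lit 11479810051) (nat_lit 10504634376) (.two (nat_lit 4194304) (nat_lit 1377828910) (.one (nat_lit 2098248) .nil)),
   .two (nat_lit 13195280387) (nat_lit 3458203656) (.two (nat_lit 8388608) (nat_lit 102760494) (.one (nat_lit 2098251) .nil)),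
   .two (nat_lit 9934209027) (nat_lit 21207449626) (.one (nat_lit 2987393418) .nil),
   .two (nat_lit 12117344259) (nat_lit 4028629012) (.two (nat_lit 1048576) (nat_lit 1277165675) (.one (nat_lit 2098788) .nil)),
   .two (nat_lit 16777219) (nat_lit 10370416646) (.two (nat_lit 16777217) (nat_lit 1277165916) .nil),
   .two (nat_lit 169869314) (nat_lit 46422556729) (.one (nat_lit 16778853) .nil),
   .two (nat_lit 1358954499) (nat_lit 37748746) (.two (nat_lit 16777216) (nat_lit 4194529) (.one (nat_lit 2956984901) .nil)),
   .two (nat_lit 3525312515) (nat_lit 37313576966) (.two (nat_lit 2097153) (nat_lit 156566028498) (.one (nat_lit 10369368645) .nil)),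
   .two (nat_lit 184549379) (nat_lit 2956984333) (.two (nat_lit 4194304) (nat_lit 184549434) (.one (nat_lit 4195942) .nil)),
   .two (nat_lit 16777218) (nat_lit 3527409707) (.one (nat_lit 876610009) .nil),
   .two (nat_lit 11479810051) (nat_lit 3573547014) (.two (nat_lit 605028353) (nat_lit 13224640633) (.one (nat_lit 4613735252) .nil)),
   .two (nat_lit 809500675) (nat_lit 28691136522) (.two (nat_lit 4194304) (nat_lit 157036839355) (.one (nat_lit 807404527) .nil)),
   .two (nat_lit 183853121539) (nat_lit 18928893979) (.one (nat_lit 158649549192) .nil),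
   .two (nat_lit 28758245379) (nat_lit 135266309) (.two (nat_lit 9765388289) (nat_lit 773849729) .nil),
   .two (nat_lit 612368387) (nat_lit 4601151494) (.two (nat_lit 4194305) (nat_lit 18933088264) (.two (nat_lit 1048576) (nat_lit 3527409749) (.one (nat_lit 4195943) .nil))),
   .two (nat_lit 8388611) (nat_lit 136314893) (.two (nat_lit 2097152) (nat_lit 205521000) (.one (nat_lit 16778856) .nil)),
   .two (nat_lit 2902458370) (nat_lit 880803867) (.one (nat_lit 8389720) .nil),
   .two (nat_lit 83886083) (nat_lit 28691136565) (.one (nat_lit 19597885973) .nil),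
   .two (nat_lit 19537068035) (nat_lit 11513364659) .nil,
   .two (nat_lit 41943043) (nat_lit 165526110216) (.two (nat_lit 1048576) (nat_lit 4638901110) .nil),
   .two (nat_lit 2969567235) (nat_lit 46978301956) (.two (nat_lit 2097153) (nat_lit 12062818350) (.one (nat_lit 11544822192) .nil)),
   .two (nat_lit 285212675) (nat_lit 20737687562) (.two (nat_lit 2097152) (nat_lit 46992982931) .nil),
   .two (nat_lit 8388611) (nat_lit 1745879048) (.two (nat_lit 8388608) (nat_lit 166129041458) (.one (nat_lit 8389731) .nil)),
   .two (nat_lit 639631363) (nat_lit 28790751238) (.two (nat_lit 34603009) (nat_lit 773849116) (.two (nat_lit 2097152) (nat_lit 1048709) (.one (nat_lit 9765388974) .nil))),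
   .two (nat_lit 11476664322) (nat_lit 174753579016) (.two (nat_lit 1048576) (nat_lit 28087156794) (.one (nat_lit 2098796) .nil)),
   .two (nat_lit 184986632195) (nat_lit 47584378929) (.one (nat_lit 708837751) .nil),
   .two (nat_lit 169869314) (nat_lit 11006902277) (.two (nat_lit 16777217) (nat_lit 2921332793) (.one (nat_lit 270534245) .nil)),
   .two (nat_lit 18933088259) (nat_lit 352321563) (.one (nat_lit 16778861) .nil),
   .two (nat_lit 158144135171) (nat_lit 19532873736) (.two (nat_lit 2097152) (nat_lit 775946290) (.one (nat_lit 4195431) .nil)),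
   .two (nat_lit 1343225859) (nat_lit 156971827206) (.two (nat_lit 605028353) (nat_lit 10003415068) (.two (nat_lit 1048576) (nat_lit 3460300885) (.one (nat_lit 21814575991) .nil))),
   .two (nat_lit 16777219) (nat_lit 1277165581) (.two (nat_lit 2097152) (nat_lit 12150898798) (.one (nat_lit 2098798) .nil)),
   .two (nat_lit 176160770) (nat_lit 10336862216) (.two (nat_lit 2097152) (nat_lit 612368437) (.one (nat_lit 4195951) .nil)),
   .two (nat_lit 708837379) (nat_lit 10343153670) (.two (nat_lit 606076929) (nat_lit 166237045227) .nil),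
   .two (nat_lit 16777218) (nat_lit 166229704714) (.two (nat_lit 16777216) (nat_lit 19529728085) (.one (nat_lit 1050224) .nil)),
   .two (nat_lit 2902458370) (nat_lit 4601151494) (.two (nat_lit 4194305) (nat_lit 185035915276) (.two (nat_lit 16777216) (nat_lit 303038675) (.one (nat_lit 10537141231) .nil))),
   .two (nat_lit 46409973762) (nat_lit 1913651208) (.two (nat_lit 4194304) (nat_lit 9866051640) (.one (nat_lit 1050225) .nil)),
   .two (nat_lit 754974723) (nat_lit 12114198536) (.two (nat_lit 1048576) (nat_lit 1426063416) (.one (nat_lit 46422557745) .nil)),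
   .two (nat_lit 176160770) (nat_lit 11492392968) (.two (nat_lit 2097152) (nat_lit 174692761658) (.one (nat_lit 16778866) .nil)),
   .two (nat_lit 9948889091) (nat_lit 158079123468) (.two (nat_lit 1048576) (nat_lit 11626610890) (.one (nat_lit 16778346) .nil)),
   .two (nat_lit 101711875) (nat_lit 12117344262) (.two (nat_lit 37748737) (nat_lit 4027580508) (.one (nat_lit 1050227) .nil)),
   .two (nat_lit 4601151491) (nat_lit 285212692) (.two (nat_lit 4194304) (nat_lit 202375379) (.one (nat_lit 1050228) .nil)),
   .two (nat_lit 28758245379) (nat_lit 184986632200) (.two (nat_lit 2097152) (nat_lit 11610882133) (.one (nat_lit 20637025291) .nil)),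
   .two (nat_lit 2887778306) (nat_lit 104857657) (.one (nat_lit 4195957) .nil),
   .two (nat_lit 3527409668) (nat_lit 158144135176) (.two (nat_lit 606076929) (nat_lit 46980399148) (.two (nat_lit 2097152) (nat_lit 3024094322) .nil)),
   .two (nat_lit 174752530436) (nat_lit 1795162132) (.two (nat_lit 605028353) (nat_lit 687866323) (.one (nat_lit 16779070) .nil)),
   .two (nat_lit 705691652) (nat_lit 612368392) (.two (nat_lit 8388609) (nat_lit 4598006113) (.one (nat_lit 158646404814) .nil)),
   .two (nat_lit 4601151492) (nat_lit 12147752969) (.two (nat_lit 4194305) (nat_lit 183946444853) (.two (nat_lit 4194304) (nat_lit 11577327884) (.one (nat_lit 156367848591) .nil))),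
   .two (nat_lit 28093448196) (nat_lit 156465365018) (.two (nat_lit 2097152) (nat_lit 12114199695) .nil),
   .two (nat_lit 10506731524) (nat_lit 185020186630) (.two (nat_lit 272629763) (nat_lit 166196150317) (.two (nat_lit 4194304) (nat_lit 28790751514) (.one (nat_lit 47581234385) .nil))),
   .two (nat_lit 11492392966) (nat_lit 12117344262) (.two (nat_lit 184549379) (nat_lit 184419352584) (.two (nat_lit 16777217) (nat_lit 1346371635) (.two (nat_lit 16777216) (nat_lit 4194831) (.one (nat_lit 608174823) .nil)))),
   .two (nat_lit 46978301956) (nat_lit 183949590534) (.two (nat_lit 11479810051) (nat_lit 236978218) (.two (nat_lit 4194304) (nat_lit 2988442303) .nil)),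
   .two (nat_lit 813694980) (nat_lit 19130220550) (.two (nat_lit 1178599427) (nat_lit 9974054963) (.two (nat_lit 2097152) (nat_lit 343933210) (.one (nat_lit 8390008) .nil))),
   .two (nat_lit 9781116932) (nat_lit 1417674762) (.two (nat_lit 16777217) (nat_lit 18933088532) (.one (nat_lit 10913580757) .nil)),
   .two (nat_lit 117440516) (nat_lit 47555018757) (.two (nat_lit 176160771) (nat_lit 654311432) (.two (nat_lit 16777217) (nat_lit 47555019032) (.one (nat_lit 8390463) .nil))),
   .two (nat_lit 1178599428) (nat_lit 10343153668) (.two (nat_lit 176160771) (nat_lit 12117344282) (.two (nat_lit 4194304) (nat_lit 1417675019) (.one (nat_lit 4196160) .nil))),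
   .two (nat_lit 3458203652) (nat_lit 19599982600) (.two (nat_lit 41943041) (nat_lit 10372514083) (.one (nat_lit 4196161) .nil)),
   .two (nat_lit 272629764) (nat_lit 721420301) (.two (nat_lit 16777217) (nat_lit 9802088628) (.one (nat_lit 675284173) .nil)),
   .two (nat_lit 37748740) (nat_lit 10939793416) (.two (nat_lit 606076929) (nat_lit 9969860947) (.one (nat_lit 1049981) .nil)),
   .two (nat_lit 272629764) (nat_lit 37313576966) (.two (nat_lit 809500675) (nat_lit 158143086600) (.two (nat_lit 9765388289) (nat_lit 3527409700) (.two (nat_lit 1048576) (nat_lit 4194833) (.one (nat_lit 4196162) .nil)))),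
   .two (nat_lit 4613734404) (nat_lit 1753219080) (.two (nat_lit 41943041) (nat_lit 10452206290) .nil),
   .two (nat_lit 3460300804) (nat_lit 158083317768) (.two (nat_lit 605028353) (nat_lit 156569174115) (.two (nat_lit 1048576) (nat_lit 13228835123) (.one (nat_lit 8390467) .nil))),
   .two (nat_lit 16777221) (nat_lit 28790751238) (.two (nat_lit 1779433475) (nat_lit 285212713) (.two (nat_lit 16777216) (nat_lit 12617515713) .nil)),
   .two (nat_lit 157038936068) (nat_lit 1753219078) (.two (nat_lit 708837379) (nat_lit 28093448200) (.two (nat_lit 606076929) (nat_lit 156573368670) (.one (nat_lit 8390469) .nil))),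
   .two (nat_lit 75497476) (nat_lit 157038936074) (.two (nat_lit 41943041) (nat_lit 166132187413) (.one (nat_lit 8390021) .nil)),
   .two (nat_lit 75497476) (nat_lit 12050235402) (.two (nat_lit 612368385) (nat_lit 4194499) (.two (nat_lit 8388608) (nat_lit 4194836) (.one (nat_lit 8390023) .nil))),
   .two (nat_lit 176160772) (nat_lit 28758245381) (.two (nat_lit 176160770) (nat_lit 10504634376) (.two (nat_lit 2097153) (nat_lit 12054429965) (.one (nat_lit 8390027) .nil))),
   .two (nat_lit 809500676) (nat_lit 3525312520) (.two (nat_lit 4194305) (nat_lit 165526110563) (.one (nat_lit 2099015) .nil)),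
   .two (nat_lit 1779433476) (nat_lit 1753219085) (.two (nat_lit 605028353) (nat_lit 156372042424) .nil),
   .two (nat_lit 2954887172) (nat_lit 11492392973) (.two (nat_lit 16777217) (nat_lit 337641878) (.one (nat_lit 2098866) .nil)),
   .two (nat_lit 117440516) (nat_lit 2416967686) (.two (nat_lit 19596836867) (nat_lit 9881780262) (.two (nat_lit 1048576) (nat_lit 754975421) .nil)),
   .two (nat_lit 1175453700) (nat_lit 159251431429) (.two (nat_lit 159217876995) (nat_lit 101711882) (.two (nat_lit 8388609) (nat_lit 184417255607) (.one (nat_lit 157035792039) .nil))),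
   .two (nat_lit 83886084) (nat_lit 9940500502) (.two (nat_lit 606076929) (nat_lit 2357198892) (.two (nat_lit 2097152) (nat_lit 10015998455) (.one (nat_lit 16779080) .nil))),
   .two (nat_lit 822083588) (nat_lit 19532873738) (.two (nat_lit 9768534017) (nat_lit 16777921) .nil),
   .two (nat_lit 9881780228) (nat_lit 135266314) (.two (nat_lit 34603009) (nat_lit 2969567511) (.one (nat_lit 16779081) .nil)),
   .two (nat_lit 11551113220) (nat_lit 46477082645) (.two (nat_lit 2097153) (nat_lit 20640170038) (.two (nat_lit 2097152) (nat_lit 4195149) (.one (nat_lit 8390474) .nil))),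
   .two (nat_lit 612368388) (nat_lit 117440517) (.two (nat_lit 1191182339) (nat_lit 10007609384) (.two (nat_lit 16777216) (nat_lit 158083318199) .nil)),
   .two (nat_lit 9948889093) (nat_lit 843055109) (.two (nat_lit 809500675) (nat_lit 620757033) (.two (nat_lit 16777216) (nat_lit 1950352118) .nil)),
   .two (nat_lit 75497476) (nat_lit 11006902278) (.two (nat_lit 2969567235) (nat_lit 612368392) (.two (nat_lit 9765388289) (nat_lit 47588573563) (.one (nat_lit 1050443) .nil))),
   .two (nat_lit 158158815236) (nat_lit 37246468106) (.two (nat_lit 9765388289) (nat_lit 13237223922) (.one (nat_lit 9948890788) .nil)),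
   .two (nat_lit 21207449604) (nat_lit 19530776582) (.two (nat_lit 34603011) (nat_lit 12129927256) (.two (nat_lit 2097152) (nat_lit 183946444984) (.one (nat_lit 16779084) .nil))),
   .two (nat_lit 9934209028) (nat_lit 9881780238) (.two (nat_lit 2097153) (nat_lit 158158815290) (.two (nat_lit 16777216) (nat_lit 2097685) (.one (nat_lit 2099021) .nil))),
   .two (nat_lit 12129927172) (nat_lit 37246468106) (.two (nat_lit 605028353) (nat_lit 2902458406) (.two (nat_lit 1048576) (nat_lit 50332011) (.one (nat_lit 16779086) .nil))),
   .two (nat_lit 12054429700) (nat_lit 156465365002) (.two (nat_lit 9765388289) (nat_lit 183853121578) (.two (nat_lit 1048576) (nat_lit 13195281087) .nil)),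
   .two (nat_lit 9934209028) (nat_lit 855638032) (.two (nat_lit 2097153) (nat_lit 28772925555) (.two (nat_lit 16777216) (nat_lit 174753579361) (.one (nat_lit 158176642829) .nil))),
   .two (nat_lit 176160772) (nat_lit 4647288838) (.two (nat_lit 285212675) (nat_lit 28697428014) (.two (nat_lit 8388608) (nat_lit 46406828528) (.one (nat_lit 1050447) .nil))),
   .two (nat_lit 1779433476) (nat_lit 18926796806) (.two (nat_lit 184549379) (nat_lit 166196150282) (.two (nat_lit 2097153) (nat_lit 839909738) (.one (nat_lit 16779088) .nil))),
   .two (nat_lit 75497476) (nat_lit 157038936069) (.two (nat_lit 612368387) (nat_lit 157038936109) (.two (nat_lit 8388608) (nat_lit 3527410366) .nil)),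
   .two (nat_lit 8388612) (nat_lit 158192369676) (.two (nat_lit 16777217) (nat_lit 28697428014) (.two (nat_lit 8388608) (nat_lit 11476664792) (.one (nat_lit 1050449) .nil))),
   .two (nat_lit 47563407364) (nat_lit 310378508) (.two (nat_lit 50331649) (nat_lit 1853882444) (.two (nat_lit 1048576) (nat_lit 21210595508) (.one (nat_lit 4196178) .nil))),
   .two (nat_lit 612368388) (nat_lit 20753416198) (.two (nat_lit 1291845635) (nat_lit 3531604034) (.two (nat_lit 8388608) (nat_lit 1379926782) .nil)),
   .two (nat_lit 3458203652) (nat_lit 28690087940) (.two (nat_lit 1913651203) (nat_lit 3458203656) (.two (nat_lit 2097153) (nat_lit 168820924) (.two (nat_lit 2097152) (nat_lit 158143087363) .nil))),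
   .two (nat_lit 11559501828) (nat_lit 21207449604) (.two (nat_lit 11559501827) (nat_lit 1309671434) (.two (nat_lit 605028353) (nat_lit 1358954564) (.one (nat_lit 16779091) .nil))),
   .two (nat_lit 13195280388) (nat_lit 166132187140) (.two (nat_lit 10506731523) (nat_lit 13195280392) (.two (nat_lit 9768534017) (nat_lit 4605345834) (.two (nat_lit 4194304) (nat_lit 880804122) (.one (nat_lit 8390484) .nil)))),
   .two (nat_lit 169869316) (nat_lit 10506731528) (.two (nat_lit 2097153) (nat_lit 4194838) (.one (nat_lit 1050453) .nil)),
   .two (nat_lit 1277165572) (nat_lit 638582791) (.two (nat_lit 159216828419) (nat_lit 1277165576) (.two (nat_lit 605028353) (nat_lit 183846830126) (.two (nat_lit 1048576) (nat_lit 158649548983) (.one (nat_lit 4195737) .nil)))),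
   .two (nat_lit 169869316) (nat_lit 9781116936) (.two (nat_lit 34603009) (nat_lit 165526110261) (.two (nat_lit 1048576) (nat_lit 10552869234) (.one (nat_lit 1209009889) .nil))),
   .two (nat_lit 159217876996) (nat_lit 1384120326) (.two (nat_lit 21785214979) (nat_lit 183913938990) (.two (nat_lit 2097152) (nat_lit 9969861049) .nil)),
   .two (nat_lit 742391812) (nat_lit 772800525) (.two (nat_lit 4194305) (nat_lit 166197198915) (.two (nat_lit 4194304) (nat_lit 2097688) (.one (nat_lit 1050454) .nil))),
   .two (nat_lit 11479810052) (nat_lit 10336862212) (.two (nat_lit 11479810050) (nat_lit 46407876617) (.two (nat_lit 2097153) (nat_lit 3024093370) (.one (nat_lit 2099031) .nil))),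
   .two (nat_lit 11492392964) (nat_lit 28758245386) (.two (nat_lit 50331649) (nat_lit 1847590953) (.two (nat_lit 16777216) (nat_lit 13188989688) .nil)),
   .two (nat_lit 9934209028) (nat_lit 3036676115) (.two (nat_lit 16777217) (nat_lit 9967763965) (.one (nat_lit 2099032) .nil)),
   .two (nat_lit 285212677) (nat_lit 47582281733) (.two (nat_lit 16777219) (nat_lit 3558866958) (.two (nat_lit 16777217) (nat_lit 156533522908) (.one (nat_lit 706740967) .nil))),
   .two (nat_lit 276824068) (nat_lit 285212680) (.two (nat_lit 8388609) (nat_lit 174768259118) (.two (nat_lit 8388608) (nat_lit 184416207028) (.one (nat_lit 1050010) .nil))),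
   .two (nat_lit 639631364) (nat_lit 1795162116) (.two (nat_lit 16777219) (nat_lit 10504634376) (.two (nat_lit 16777217) (nat_lit 1377829047) (.one (nat_lit 2099033) .nil))),
   .two (nat_lit 272629764) (nat_lit 9948889092) (.two (nat_lit 184549378) (nat_lit 272629786) (.two (nat_lit 16777216) (nat_lit 46510638383) .nil)),
   .two (nat_lit 18933088260) (nat_lit 46523219980) (.two (nat_lit 41943041) (nat_lit 158192370061) (.one (nat_lit 16779098) .nil)),
   .two (nat_lit 272629764) (nat_lit 19529728004) (.two (nat_lit 4194306) (nat_lit 1846542344) (.two (nat_lit 16777217) (nat_lit 19127075112) (.one (nat_lit 4196187) .nil))),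
   .two (nat_lit 11543773188) (nat_lit 174753579016) (.two (nat_lit 34603009) (nat_lit 166130090078) (.two (nat_lit 1048576) (nat_lit 304087546) (.one (nat_lit 183947494642) .nil))),
   .two (nat_lit 11543773188) (nat_lit 10452205575) (.two (nat_lit 16777219) (nat_lit 11543773192) (.two (nat_lit 4194305) (nat_lit 11006902368) (.two (nat_lit 4194304) (nat_lit 672137585) (.one (nat_lit 675284324) .nil)))),
   .two (nat_lit 41943044) (nat_lit 18925748232) (.two (nat_lit 16777217) (nat_lit 158143086640) (.two (nat_lit 16777216) (nat_lit 880804144) (.one (nat_lit 8390492) .nil))),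
   .two (nat_lit 705691652) (nat_lit 9806282764) (.two (nat_lit 2097153) (nat_lit 20640170038) (.two (nat_lit 2097152) (nat_lit 165528207868) (.one (nat_lit 2099037) .nil))),
   .two (nat_lit 18933088260) (nat_lit 304087047) (.two (nat_lit 102760451) (nat_lit 11492392986) (.two (nat_lit 2097152) (nat_lit 165540790454) (.one (nat_lit 28697429135) .nil))),
   .two (nat_lit 1343225860) (nat_lit 13195280389) (.two (nat_lit 41943043) (nat_lit 1343225864) (.two (nat_lit 41943041) (nat_lit 157035790518) (.one (nat_lit 1050013) .nil))),
   .two (nat_lit 12114198532) (nat_lit 306184197) (.two (nat_lit 272629763) (nat_lit 12147752970) (.two (nat_lit 4194305) (nat_lit 185020186665) (.two (nat_lit 4194304) (nat_lit 1376780728) .nil))),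
   .two (nat_lit 285212676) (nat_lit 4605345798) (.two (nat_lit 16777218) (nat_lit 46414168072) (.two (nat_lit 8388609) (nat_lit 9781116966) (.two (nat_lit 16777216) (nat_lit 9940501007) (.one (nat_lit 1786774246) .nil)))),
   .two (nat_lit 158143086596) (nat_lit 165532401674) (.two (nat_lit 605028353) (nat_lit 165532401702) (.two (nat_lit 16777216) (nat_lit 10544481443) .nil)),
   .two (nat_lit 809500676) (nat_lit 28086108166) (.two (nat_lit 156364701699) (nat_lit 4601151496) (.two (nat_lit 16777217) (nat_lit 37249614316) (.one (nat_lit 1050462) .nil))),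
   .two (nat_lit 2961178628) (nat_lit 1291845652) (.two (nat_lit 8388609) (nat_lit 156367847531) (.two (nat_lit 1048576) (nat_lit 19029557535) (.one (nat_lit 8390496) .nil))),
   .two (nat_lit 46407876612) (nat_lit 3464495108) (.two (nat_lit 34603011) (nat_lit 183920230412) (.two (nat_lit 2097153) (nat_lit 184416206965) (.two (nat_lit 2097152) (nat_lit 1049113) (.one (nat_lit 2099041) .nil)))),
   .two (nat_lit 169869316) (nat_lit 10909384710) (.two (nat_lit 34603011) (nat_lit 12117344269) (.two (nat_lit 16777217) (nat_lit 28691136694) (.one (nat_lit 4196195) .nil))),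
   .two (nat_lit 169869316) (nat_lit 159232557060) (.two (nat_lit 2097155) (nat_lit 10015997962) (.two (nat_lit 2097153) (nat_lit 10338959432) (.two (nat_lit 1048576) (nat_lit 9768534524) (.one (nat_lit 11610883933) .nil)))),
   .two (nat_lit 809500676) (nat_lit 352321548) (.two (nat_lit 4194305) (nat_lit 9772728374) (.two (nat_lit 8388608) (nat_lit 10338959865) (.one (nat_lit 4196197) .nil))),
   .two (nat_lit 158083317764) (nat_lit 183962173446) (.two (nat_lit 11492392963) (nat_lit 158083317768) (.two (nat_lit 16777217) (nat_lit 158083317786) (.two (nat_lit 2097152) (nat_lit 156573368503) (.one (nat_lit 8390502) .nil)))),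
   .two (nat_lit 159217876996) (nat_lit 10335813638) (.two (nat_lit 16777219) (nat_lit 19093520434) (.two (nat_lit 16777216) (nat_lit 35651923) (.one (nat_lit 10001319657) .nil))),
   .two (nat_lit 169869316) (nat_lit 10338959364) (.two (nat_lit 184989777923) (nat_lit 185020186633) (.two (nat_lit 620756993) (nat_lit 156969730231) (.one (nat_lit 1050471) .nil))),
   .two (nat_lit 705691652) (nat_lit 183853121544) (.two (nat_lit 34603009) (nat_lit 10376708142) (.two (nat_lit 1048576) (nat_lit 1746928347) .nil)),
   .two (nat_lit 203423748) (nat_lit 50331653) (.two (nat_lit 822083587) (nat_lit 3558866970) (.two (nat_lit 16777216) (nat_lit 3558867123) (.one (nat_lit 2099048) .nil))),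
   .two (nat_lit 3460300804) (nat_lit 28087156740) (.two (nat_lit 2097155) (nat_lit 157038936074) (.two (nat_lit 2097153) (nat_lit 1950351444) (.two (nat_lit 1048576) (nat_lit 28101836980) (.one (nat_lit 4196201) .nil)))),
   .two (nat_lit 75497476) (nat_lit 158077026312) (.two (nat_lit 41943041) (nat_lit 639631409) (.two (nat_lit 8388608) (nat_lit 156535619876) (.one (nat_lit 4196202) .nil))),
   .two (nat_lit 41943044) (nat_lit 1376780306) (.two (nat_lit 2097153) (nat_lit 310378549) (.two (nat_lit 2097152) (nat_lit 46406828400) (.one (nat_lit 8390507) .nil))),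
   .two (nat_lit 16777220) (nat_lit 156372041732) (.two (nat_lit 16777218) (nat_lit 10376708108) (.two (nat_lit 8388609) (nat_lit 2969567498) (.one (nat_lit 16779116) .nil))),
   .two (nat_lit 169869316) (nat_lit 612368392) (.two (nat_lit 2097153) (nat_lit 12121538910) (.one (nat_lit 873465509) .nil)),
   .two (nat_lit 1779433476) (nat_lit 10942939140) (.two (nat_lit 218103811) (nat_lit 873463860) (.two (nat_lit 4194304) (nat_lit 1410335032) (.one (nat_lit 1343227591) .nil))),
   .two (nat_lit 46980399108) (nat_lit 10385096710) (.two (nat_lit 285212675) (nat_lit 3527409691) (.two (nat_lit 4194304) (nat_lit 754975255) (.one (nat_lit 150995705) .nil))),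
   .two (nat_lit 20638072836) (nat_lit 135266310) (.two (nat_lit 21777874947) (nat_lit 165526110216) (.two (nat_lit 605028353) (nat_lit 10336862235) (.two (nat_lit 2097152) (nat_lit 1947206107) (.one (nat_lit 806356609) .nil)))),
   .two (nat_lit 46407876612) (nat_lit 184419352584) (.two (nat_lit 34603009) (nat_lit 159251431523) (.two (nat_lit 1048576) (nat_lit 10540286259) (.one (nat_lit 4196207) .nil))),
   .two (nat_lit 3464495108) (nat_lit 9948889117) (.two (nat_lit 156365750273) (nat_lit 16777412) (.two (nat_lit 8388608) (nat_lit 50332476) (.one (nat_lit 8390512) .nil))),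
   .two (nat_lit 37748740) (nat_lit 9966714887) (.two (nat_lit 169869314) (nat_lit 21207449609) (.two (nat_lit 2097153) (nat_lit 20704133229) (.two (nat_lit 16777216) (nat_lit 158144135555) (.one (nat_lit 2099057) .nil)))),
   .two (nat_lit 612368388) (nat_lit 12617515028) (.two (nat_lit 2097153) (nat_lit 3028287667) (.one (nat_lit 8390514) .nil)),
   .two (nat_lit 2954887172) (nat_lit 158083317768) (.two (nat_lit 612368385) (nat_lit 47582281754) (.two (nat_lit 8388608) (nat_lit 1780482378) (.one (nat_lit 10538189947) .nil))),
   .two (nat_lit 612368388) (nat_lit 156968681478) (.two (nat_lit 156364701699) (nat_lit 165532401844) (.one (nat_lit 28790752479) .nil)),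
   .two (nat_lit 1779433476) (nat_lit 20644364298) (.two (nat_lit 605028353) (nat_lit 10007609622) (.one (nat_lit 158150427854) .nil)),
   .two (nat_lit 3464495108) (nat_lit 19599982597) (.two (nat_lit 3527409667) (nat_lit 184423546959) (.two (nat_lit 4194304) (nat_lit 12155093711) .nil)),
   .two (nat_lit 9866051588) (nat_lit 2353004554) (.two (nat_lit 9765388289) (nat_lit 47550824639) (.two (nat_lit 1048576) (nat_lit 4195154) (.one (nat_lit 20637025494) .nil))),
   .two (nat_lit 2969567236) (nat_lit 46407876612) (.two (nat_lit 2097155) (nat_lit 2969567257) (.two (nat_lit 1048576) (nat_lit 9915334948) (.one (nat_lit 16779123) .nil))),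
   .two (nat_lit 218103812) (nat_lit 21778923526) (.two (nat_lit 13191086083) (nat_lit 9781116936) (.two (nat_lit 37748737) (nat_lit 157051519341) (.one (nat_lit 3021997706) .nil))),
   .two (nat_lit 3525312516) (nat_lit 156971827208) (.two (nat_lit 9768534017) (nat_lit 12048138553) (.one (nat_lit 2099060) .nil)),
   .two (nat_lit 2887778308) (nat_lit 166203490311) (.two (nat_lit 2894069763) (nat_lit 4028629010) (.two (nat_lit 50331649) (nat_lit 3524264266) (.one (nat_lit 1050021) .nil))),
   .two (nat_lit 16777220) (nat_lit 11476664324) (.two (nat_lit 806354947) (nat_lit 16777224) (.two (nat_lit 2097153) (nat_lit 1410334767) (.two (nat_lit 1048576) (nat_lit 10921968109) (.one (nat_lit 2099061) .nil)))),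
   .two (nat_lit 37748740) (nat_lit 158083317764) (.two (nat_lit 203423747) (nat_lit 156535619602) (.two (nat_lit 2097153) (nat_lit 876609906) (.one (nat_lit 4196214) .nil))),
   .two (nat_lit 276824068) (nat_lit 11479810056) (.two (nat_lit 8388609) (nat_lit 2420113464) (.two (nat_lit 1048576) (nat_lit 46984594790) .nil)),
   .two (nat_lit 4194308) (nat_lit 157036838916) (.two (nat_lit 4194306) (nat_lit 185021235211) (.two (nat_lit 605028353) (nat_lit 184419352639) (.two (nat_lit 1048576) (nat_lit 2097692) (.one (nat_lit 156969731357) .nil)))),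
   .two (nat_lit 13195280390) (nat_lit 21207449606) (.two (nat_lit 9933160451) (nat_lit 156372041741) (.two (nat_lit 4194305) (nat_lit 780140890) (.one (nat_lit 1050487) .nil))),
   .two (nat_lit 28693233668) (nat_lit 20637024319) (.two (nat_lit 1048576) (nat_lit 156569174294) (.one (nat_lit 4195760) .nil)),
   .two (nat_lit 285212676) (nat_lit 1276117017) (.two (nat_lit 16777216) (nat_lit 847249800) (.one (nat_lit 166232851636) .nil)),
   .two (nat_lit 16777220) (nat_lit 2994733062) (.two (nat_lit 1795162115) (nat_lit 37313576973) (.two (nat_lit 8388609) (nat_lit 12633243702) (.two (nat_lit 1048576) (nat_lit 16777757) (.one (nat_lit 156976023166) .nil)))),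
   .two (nat_lit 822083588) (nat_lit 183916036102) (.two (nat_lit 184989777923) (nat_lit 822083592) (.two (nat_lit 16777217) (nat_lit 166197199196) (.one (nat_lit 46474986733) .nil))),
   .two (nat_lit 11479810052) (nat_lit 1846542344) (.two (nat_lit 16777217) (nat_lit 9768534043) (.two (nat_lit 4194304) (nat_lit 1049427) (.one (nat_lit 1050488) .nil))),
   .two (nat_lit 3460300804) (nat_lit 21208498184) (.two (nat_lit 34603009) (nat_lit 9766436910) (.two (nat_lit 1048576) (nat_lit 4194846) (.one (nat_lit 2099065) .nil))),
   .two (nat_lit 3458203652) (nat_lit 21777874956) (.two (nat_lit 2097153) (nat_lit 10335813687) (.two (nat_lit 2097152) (nat_lit 1913651597) (.one (nat_lit 2098609) .nil))),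
   .two (nat_lit 184549380) (nat_lit 46984593412) (.two (nat_lit 184549378) (nat_lit 2927624202) (.two (nat_lit 8388609) (nat_lit 50331828) (.one (nat_lit 1050490) .nil))),
   .two (nat_lit 203423748) (nat_lit 9798942725) (.two (nat_lit 16777218) (nat_lit 739246106) (.two (nat_lit 16777216) (nat_lit 174752530724) (.one (nat_lit 1050491) .nil))),
   .two (nat_lit 46407876612) (nat_lit 4634705925) (.two (nat_lit 4601151491) (nat_lit 166197198860) (.two (nat_lit 4194305) (nat_lit 740294702) (.two (nat_lit 4194304) (nat_lit 672137959) .nil))),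
   .two (nat_lit 641728516) (nat_lit 12163481606) (.two (nat_lit 754974723) (nat_lit 1379926062) (.two (nat_lit 2097152) (nat_lit 10506731887) (.one (nat_lit 16779132) .nil))),
   .two (nat_lit 10343153668) (nat_lit 3525312518) (.two (nat_lit 4599054339) (nat_lit 4605345836) (.two (nat_lit 2097152) (nat_lit 28697428261) (.one (nat_lit 8390525) .nil))),
   .two (nat_lit 721420292) (nat_lit 18933088262) (.two (nat_lit 18933088259) (nat_lit 184549556) (.one (nat_lit 16777913) .nil)),
   .two (nat_lit 11479810052) (nat_lit 1846542344) (.two (nat_lit 9765388289) (nat_lit 156569174043) (.two (nat_lit 1048576) (nat_lit 158146232712) (.one (nat_lit 4196222) .nil))),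
   .two (nat_lit 809500676) (nat_lit 156365750276) (.two (nat_lit 11479810051) (nat_lit 4028629001) (.two (nat_lit 4194305) (nat_lit 166230753554) (.one (nat_lit 19027461414) .nil))),
   .two (nat_lit 606076932) (nat_lit 13195280429) (.two (nat_lit 2097152) (nat_lit 10376708921) (.one (nat_lit 1920992394) .nil)),
   .two (nat_lit 721420292) (nat_lit 10506731528) (.two (nat_lit 605028353) (nat_lit 2353005082) (.one (nat_lit 4196223) .nil)),
   .two (nat_lit 4194308) (nat_lit 157036838920) (.two (nat_lit 4194305) (nat_lit 2097206) (.two (nat_lit 4194304) (nat_lit 12148801904) (.one (nat_lit 1050496) .nil))),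
   .two (nat_lit 1178599428) (nat_lit 10939793416) (.two (nat_lit 37748737) (nat_lit 28757196827) (.two (nat_lit 1048576) (nat_lit 4194847) (.one (nat_lit 4196225) .nil))),
   .two (nat_lit 12047089668) (nat_lit 1795162155) (.two (nat_lit 1048576) (nat_lit 1795162397) (.one (nat_lit 156532475205) .nil)),
   .two (nat_lit 739246084) (nat_lit 9969860620) (.two (nat_lit 34603009) (nat_lit 1782579249) (.two (nat_lit 4194304) (nat_lit 10335813922) (.one (nat_lit 1050036) .nil))),
   .two (nat_lit 46407876612) (nat_lit 28693233691) (.two (nat_lit 1048576) (nat_lit 2887778595) (.one (nat_lit 2099074) .nil)),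
   .two (nat_lit 20638072836) (nat_lit 156569174021) (.two (nat_lit 159217876995) (nat_lit 174688567352) (.two (nat_lit 2097152) (nat_lit 71303576) (.one (nat_lit 2098415) .nil))),
   .two (nat_lit 276824068) (nat_lit 47548727304) (.two (nat_lit 8388609) (nat_lit 184986632218) (.two (nat_lit 8388608) (nat_lit 1846542628) (.one (nat_lit 11543775091) .nil))),
   .two (nat_lit 9948889092) (nat_lit 10336862229) (.two (nat_lit 606076929) (nat_lit 1291845908) (.one (nat_lit 16779139) .nil)),
   .two (nat_lit 203423748) (nat_lit 156367847432) (.two (nat_lit 2097153) (nat_lit 306184219) (.two (nat_lit 2097152) (nat_lit 4194715) (.one (nat_lit 11513365627) .nil))),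
   .two (nat_lit 203423748) (nat_lit 10335813638) (.two (nat_lit 16777219) (nat_lit 184986632245) (.two (nat_lit 2097152) (nat_lit 159250383155) (.one (nat_lit 2099076) .nil))),
   .two (nat_lit 183845781508) (nat_lit 157038936091) (.two (nat_lit 2097152) (nat_lit 3527410811) .nil),
   .two (nat_lit 272629764) (nat_lit 158083317768) (.two (nat_lit 8388609) (nat_lit 11010048355) (.one (nat_lit 4196229) .nil)),
   .two (nat_lit 13195280388) (nat_lit 19130220550) (.two (nat_lit 1178599427) (nat_lit 13195280392) (.two (nat_lit 4194305) (nat_lit 4034921198) .nil)),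
   .two (nat_lit 1849688068) (nat_lit 1376780293) (.two (nat_lit 1343225859) (nat_lit 1413480494) (.two (nat_lit 1048576) (nat_lit 4030727544) .nil)),
   .two (nat_lit 9781116932) (nat_lit 19599982597) (.two (nat_lit 18928893955) (nat_lit 1191182377) (.two (nat_lit 4194304) (nat_lit 3003122422) .nil)),
   .two (nat_lit 9940500484) (nat_lit 12047089670) (.two (nat_lit 34603011) (nat_lit 9974054922) (.two (nat_lit 2097153) (nat_lit 12047089965) (.one (nat_lit 1913652377) .nil))),
   .two (nat_lit 176160772) (nat_lit 20705181702) (.two (nat_lit 21778923523) (nat_lit 10007609523) (.one (nat_lit 8390536) .nil)),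
   .two (nat_lit 101711876) (nat_lit 156969730052) (.two (nat_lit 184549379) (nat_lit 1376780338) (.two (nat_lit 16777216) (nat_lit 1947205936) (.one (nat_lit 16779396) .nil))),
   .two (nat_lit 2887778308) (nat_lit 156569174021) (.two (nat_lit 10506731523) (nat_lit 166230753307) (.two (nat_lit 4194304) (nat_lit 2921333123) (.one (nat_lit 2098618) .nil))),
   .two (nat_lit 46984593412) (nat_lit 166230753293) (.two (nat_lit 34603009) (nat_lit 174692761657) (.two (nat_lit 1048576) (nat_lit 8389152) (.one (nat_lit 19597886701) .nil))),
   .two (nat_lit 272629764) (nat_lit 10907287558) (.two (nat_lit 165526110211) (nat_lit 4634705946) (.two (nat_lit 4194304) (nat_lit 20638074175) .nil)),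
   .two (nat_lit 2969567237) (nat_lit 1210056711) (.two (nat_lit 2097155) (nat_lit 2902458409) (.two (nat_lit 1048576) (nat_lit 156481093932) (.one (nat_lit 1050043) .nil))),
   .two (nat_lit 46407876612) (nat_lit 184419352584) (.two (nat_lit 34603009) (nat_lit 159251431523) (.two (nat_lit 1048576) (nat_lit 3024094430) .nil)),
   .two (nat_lit 156367847428) (nat_lit 183912890374) (.two (nat_lit 4601151491) (nat_lit 37246468139) (.two (nat_lit 4194304) (nat_lit 37246468381) (.one (nat_lit 71304371) .nil))),
   .two (nat_lit 1276116996) (nat_lit 2902458381) (.two (nat_lit 4194305) (nat_lit 10436476954) (.two (nat_lit 4194304) (nat_lit 352322672) .nil)),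
   .two (nat_lit 176160772) (nat_lit 156968681478) (.two (nat_lit 12114198531) (nat_lit 612368392) (.two (nat_lit 16777217) (nat_lit 1779433513) (.two (nat_lit 8388608) (nat_lit 806355305) (.one (nat_lit 1050506) .nil)))),
   .two (nat_lit 272629764) (nat_lit 3525312520) (.two (nat_lit 2097153) (nat_lit 1283457069) (.two (nat_lit 8388608) (nat_lit 2418016624) (.one (nat_lit 4196236) .nil))),
   .two (nat_lit 9768534020) (nat_lit 9765388295) (.two (nat_lit 34603011) (nat_lit 19130220558) (.two (nat_lit 2097153) (nat_lit 1379926384) (.one (nat_lit 1050509) .nil))),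
   .two (nat_lit 2954887172) (nat_lit 21785215003) (.two (nat_lit 8388608) (nat_lit 11578376584) (.one (nat_lit 2099086) .nil)),
   .two (nat_lit 2889875460) (nat_lit 184423546884) (.two (nat_lit 12121538563) (nat_lit 3527409706) (.two (nat_lit 2097152) (nat_lit 2927625486) .nil)),
   .two (nat_lit 203423748) (nat_lit 156569174021) (.two (nat_lit 10506731523) (nat_lit 3558866969) (.two (nat_lit 4194304) (nat_lit 2921332917) (.one (nat_lit 2099087) .nil))),
   .two (nat_lit 10506731524) (nat_lit 156364701702) (.two (nat_lit 184549379) (nat_lit 185020186680) (.two (nat_lit 2097152) (nat_lit 11610882377) (.one (nat_lit 4196240) .nil))),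
   .two (nat_lit 3558866950) (nat_lit 174752530438) (.two (nat_lit 3458203651) (nat_lit 166196150285) (.two (nat_lit 16777217) (nat_lit 10537140281) (.two (nat_lit 16777216) (nat_lit 10939793754) (.one (nat_lit 1050513) .nil)))),
   .two (nat_lit 713031684) (nat_lit 11006902278) (.two (nat_lit 2969567235) (nat_lit 21785215012) (.two (nat_lit 1048576) (nat_lit 1954546029) (.one (nat_lit 16779155) .nil))),
   .two (nat_lit 11559501828) (nat_lit 10909384711) (.two (nat_lit 171966467) (nat_lit 754974764) (.two (nat_lit 1048576) (nat_lit 185035915588) (.one (nat_lit 2332034745) .nil))),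
   .two (nat_lit 83886084) (nat_lit 28690087940) (.two (nat_lit 721420290) (nat_lit 10939793416) (.two (nat_lit 9765388289) (nat_lit 159266111555) (.two (nat_lit 2097152) (nat_lit 47547680069) .nil))),
   .two (nat_lit 8388612) (nat_lit 174686470150) (.two (nat_lit 176160771) (nat_lit 46474985485) (.two (nat_lit 2097153) (nat_lit 10913579060) (.two (nat_lit 4194304) (nat_lit 10336862554) (.one (nat_lit 8390078) .nil)))),
   .two (nat_lit 11479810052) (nat_lit 157036838920) (.two (nat_lit 9768534017) (nat_lit 1377829370) (.one (nat_lit 12148802802) .nil)),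
   .two (nat_lit 1846542340) (nat_lit 156533522437) (.two (nat_lit 639631363) (nat_lit 21777874996) (.two (nat_lit 2097152) (nat_lit 10000269494) (.one (nat_lit 1050517) .nil))),
   .two (nat_lit 183949590534) (nat_lit 1846542355) (.two (nat_lit 4194305) (nat_lit 28690087992) (.two (nat_lit 1048576) (nat_lit 166132187611) (.one (nat_lit 156367849302) .nil))),
   .two (nat_lit 739246084) (nat_lit 18928893960) (.two (nat_lit 34603009) (nat_lit 156367847451) (.two (nat_lit 4194304) (nat_lit 28690088466) (.one (nat_lit 1050518) .nil))),
   .two (nat_lit 9768534020) (nat_lit 4598005767) (.two (nat_lit 16777219) (nat_lit 339738681) (.two (nat_lit 16777216) (nat_lit 46409974056) (.one (nat_lit 47563408740) .nil))),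
   .two (nat_lit 185020186630) (nat_lit 184993972230) (.two (nat_lit 11543773187) (nat_lit 184423546943) (.two (nat_lit 16777216) (nat_lit 19529729224) .nil)),
   .two (nat_lit 9866051588) (nat_lit 50331668) (.two (nat_lit 16777217) (nat_lit 638582864) (.two (nat_lit 2097152) (nat_lit 839909868) (.one (nat_lit 16779161) .nil))),
   .two (nat_lit 10504634372) (nat_lit 20644364301) (.two (nat_lit 2097153) (nat_lit 28093448462) (.one (nat_lit 12054431023) .nil)),
   .two (nat_lit 276824068) (nat_lit 157038936072) (.two (nat_lit 41943041) (nat_lit 9866051647) (.two (nat_lit 16777216) (nat_lit 202375516) (.one (nat_lit 8390080) .nil))),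
   .two (nat_lit 2902458372) (nat_lit 159224168477) (.two (nat_lit 9766436865) (nat_lit 2323644469) (.two (nat_lit 16777216) (nat_lit 8389154) (.one (nat_lit 16779162) .nil))),
   .two (nat_lit 176160772) (nat_lit 28758245380) (.two (nat_lit 176160770) (nat_lit 166130089992) (.two (nat_lit 606076929) (nat_lit 13195280420) (.two (nat_lit 2097152) (nat_lit 1920991573) (.one (nat_lit 8390555) .nil)))),
   .two (nat_lit 12114198532) (nat_lit 21785215020) (.two (nat_lit 1048576) (nat_lit 1417675037) (.one (nat_lit 1050524) .nil)),
   .two (nat_lit 1178599428) (nat_lit 12047089668) (.two (nat_lit 11543773187) (nat_lit 12117344264) (.two (nat_lit 34603009) (nat_lit 183949590554) (.two (nat_lit 1048576) (nat_lit 10909384886) (.one (nat_lit 11010049817) .nil)))),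
   .two (nat_lit 20644364292) (nat_lit 184431935546) (.two (nat_lit 2097152) (nat_lit 46414168357) (.one (nat_lit 8390557) .nil)),
   .two (nat_lit 158075977732) (nat_lit 50331653) (.two (nat_lit 822083587) (nat_lit 12114198580) (.two (nat_lit 1048576) (nat_lit 159266112633) .nil)),
   .two (nat_lit 1846542340) (nat_lit 880803845) (.two (nat_lit 13195280387) (nat_lit 10436476954) (.two (nat_lit 1048576) (nat_lit 343933107) (.one (nat_lit 2920286016) .nil))),
   .two (nat_lit 169869316) (nat_lit 46414168072) (.two (nat_lit 2097153) (nat_lit 1786773550) (.two (nat_lit 2097152) (nat_lit 156364702439) .nil)),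
   .two (nat_lit 37748740) (nat_lit 2961178628) (.two (nat_lit 176160771) (nat_lit 159217877005) (.two (nat_lit 8388609) (nat_lit 2317353016) (.two (nat_lit 2097152) (nat_lit 2953838772) (.one (nat_lit 4196255) .nil)))),
   .two (nat_lit 1276116996) (nat_lit 4632608779) (.two (nat_lit 606076929) (nat_lit 11010048056) (.two (nat_lit 1048576) (nat_lit 13222544624) .nil)),
   .two (nat_lit 20638072836) (nat_lit 142606342) (.two (nat_lit 1753219075) (nat_lit 10370416691) (.two (nat_lit 8388608) (nat_lit 1176503003) .nil)),
   .two (nat_lit 169869316) (nat_lit 166132187146) (.two (nat_lit 2097153) (nat_lit 19130220583) (.two (nat_lit 1048576) (nat_lit 1279263013) (.one (nat_lit 4196256) .nil))),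
   .two (nat_lit 11476664324) (nat_lit 166132187144) (.two (nat_lit 2097153) (nat_lit 10439622709) (.two (nat_lit 4194304) (nat_lit 28757197211) (.one (nat_lit 11543774388) .nil))),
   .two (nat_lit 2902458372) (nat_lit 46980399113) (.two (nat_lit 4194305) (nat_lit 2902458636) (.one (nat_lit 10540287205) .nil)),
   .two (nat_lit 4605345796) (nat_lit 156569174021) (.two (nat_lit 10506731523) (nat_lit 41943048) (.two (nat_lit 9768534017) (nat_lit 343933316) (.one (nat_lit 2424308426) .nil))),
   .two (nat_lit 2889875460) (nat_lit 157035790342) (.two (nat_lit 285212675) (nat_lit 1276117018) (.two (nat_lit 16777216) (nat_lit 775946422) (.one (nat_lit 608175525) .nil))),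
   .two (nat_lit 165532401668) (nat_lit 1847590916) (.two (nat_lit 10370416643) (nat_lit 165532401672) (.two (nat_lit 2097153) (nat_lit 1182794069) (.one (nat_lit 8390561) .nil))),
   .two (nat_lit 1178599428) (nat_lit 184986632198) (.two (nat_lit 13187940355) (nat_lit 46510637236) (.one (nat_lit 158144136415) .nil)),
   .two (nat_lit 46407876612) (nat_lit 13224640526) (.two (nat_lit 37748737) (nat_lit 1780482161) (.two (nat_lit 1048576) (nat_lit 3024094445) .nil)),
   .two (nat_lit 9934209028) (nat_lit 135266368) (.two (nat_lit 16777216) (nat_lit 269485241) .nil),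
   .two (nat_lit 10385096708) (nat_lit 11510218766) (.two (nat_lit 8388609) (nat_lit 28758245468) (.two (nat_lit 1048576) (nat_lit 8389463) (.one (nat_lit 8390086) .nil))),
   .two (nat_lit 2954887172) (nat_lit 117440550) (.two (nat_lit 16777216) (nat_lit 2097702) (.one (nat_lit 16779170) .nil)),
   .two (nat_lit 183853121540) (nat_lit 21811429382) (.two (nat_lit 1343225859) (nat_lit 10376708142) (.two (nat_lit 2097152) (nat_lit 1049432) (.one (nat_lit 1050531) .nil))),
   .two (nat_lit 9934209028) (nat_lit 4647288838) (.two (nat_lit 285212675) (nat_lit 9934209032) (.two (nat_lit 16777217) (nat_lit 12115247287) (.one (nat_lit 2098632) .nil))),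
   .two (nat_lit 83886084) (nat_lit 156532473862) (.two (nat_lit 47555018755) (nat_lit 3036676134) (.two (nat_lit 2097152) (nat_lit 873464662) (.one (nat_lit 1050532) .nil))),
   .two (nat_lit 203423748) (nat_lit 10015997958) (.two (nat_lit 50331651) (nat_lit 12618563596) (.two (nat_lit 50331649) (nat_lit 1411383345) (.two (nat_lit 4194304) (nat_lit 673186151) (.one (nat_lit 16779173) .nil)))),
   .two (nat_lit 9866051588) (nat_lit 158653743114) (.two (nat_lit 605028353) (nat_lit 3028287513) (.two (nat_lit 1048576) (nat_lit 19134415393) (.one (nat_lit 19026412789) .nil))),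
   .two (nat_lit 21214789636) (nat_lit 157036838920) (.two (nat_lit 2097153) (nat_lit 21785215320) (.one (nat_lit 8390566) .nil)),
   .two (nat_lit 166132187140) (nat_lit 739246086) (.two (nat_lit 34603011) (nat_lit 10506731561) (.two (nat_lit 2097152) (nat_lit 37249614130) (.one (nat_lit 183845783443) .nil))),
   .two (nat_lit 1779433476) (nat_lit 1916796936) (.two (nat_lit 605028353) (nat_lit 19130220584) (.two (nat_lit 16777216) (nat_lit 18928894246) (.one (nat_lit 4195786) .nil))),
   .two (nat_lit 612368390) (nat_lit 183912890373) (.two (nat_lit 612368387) (nat_lit 705691711) (.two (nat_lit 8388608) (nat_lit 1779433820) (.one (nat_lit 1050537) .nil))),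
   .two (nat_lit 813694980) (nat_lit 11479810052) (.two (nat_lit 809500675) (nat_lit 3464495113) (.two (nat_lit 9766436865) (nat_lit 12117344341) (.two (nat_lit 4194304) (nat_lit 2098010) (.one (nat_lit 2099114) .nil)))),
   .two (nat_lit 12050235396) (nat_lit 156465365001) (.two (nat_lit 606076929) (nat_lit 11546919203) (.one (nat_lit 1050539) .nil)),
   .two (nat_lit 721420292) (nat_lit 2889875462) (.two (nat_lit 50331651) (nat_lit 183949590541) (.two (nat_lit 4194305) (nat_lit 174768259123) (.two (nat_lit 1048576) (nat_lit 166144771214) .nil))),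
   .two (nat_lit 276824068) (nat_lit 3525312527) (.two (nat_lit 2097153) (nat_lit 1753219108) (.two (nat_lit 1048576) (nat_lit 28798092699) .nil)),
   .two (nat_lit 612368390) (nat_lit 19596836870) (.two (nat_lit 9873391619) (nat_lit 19093520427) (.two (nat_lit 16777216) (nat_lit 10007609680) (.one (nat_lit 1050540) .nil))),
   .two (nat_lit 46407876612) (nat_lit 46414168070) (.two (nat_lit 176160771) (nat_lit 46473936948) (.two (nat_lit 8388608) (nat_lit 47547679054) (.one (nat_lit 1050541) .nil))),
   .two (nat_lit 183848927236) (nat_lit 12114198534) (.two (nat_lit 13187940355) (nat_lit 183848927240) (.two (nat_lit 34603009) (nat_lit 1279262766) (.two (nat_lit 1048576) (nat_lit 11511268055) .nil))),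
   .two (nat_lit 1846542340) (nat_lit 1358954502) (.two (nat_lit 9948889091) (nat_lit 156968681480) (.two (nat_lit 620756993) (nat_lit 46406828083) (.two (nat_lit 1048576) (nat_lit 11492393230) (.one (nat_lit 34604174) .nil)))),
   .two (nat_lit 8388612) (nat_lit 2921332755) (.two (nat_lit 34603009) (nat_lit 174686470200) (.two (nat_lit 16777216) (nat_lit 303038794) (.one (nat_lit 1050542) .nil))),
   .two (nat_lit 135266309) (nat_lit 174686470150) (.two (nat_lit 47548727299) (nat_lit 37246468114) (.two (nat_lit 2097153) (nat_lit 19529728059) (.two (nat_lit 8388608) (nat_lit 28758245727) (.one (nat_lit 2098638) .nil)))),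
   .two (nat_lit 16777220) (nat_lit 183949590541) (.two (nat_lit 4194305) (nat_lit 721420315) (.two (nat_lit 16777216) (nat_lit 166132187611) (.one (nat_lit 4196271) .nil))),
   .two (nat_lit 205520900) (nat_lit 46414168090) (.two (nat_lit 1048576) (nat_lit 46414168243) (.one (nat_lit 11577329472) .nil)),
   .two (nat_lit 2969567236) (nat_lit 809500676) (.two (nat_lit 4194306) (nat_lit 2969567258) (.two (nat_lit 16777216) (nat_lit 4194713) (.one (nat_lit 318768278) .nil))),
   .two (nat_lit 83886084) (nat_lit 102760454) (.two (nat_lit 41943043) (nat_lit 12129927225) (.two (nat_lit 2097152) (nat_lit 2936013168) (.one (nat_lit 2099120) .nil))),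
   .two (nat_lit 83886084) (nat_lit 104857608) (.two (nat_lit 41943041) (nat_lit 1849688608) (.one (nat_lit 713033346) .nil)),
   .two (nat_lit 721420292) (nat_lit 639631368) (.two (nat_lit 50331649) (nat_lit 166230753324) (.two (nat_lit 16777216) (nat_lit 46474986813) .nil)),
   .two (nat_lit 9866051588) (nat_lit 10538188806) (.two (nat_lit 9934209027) (nat_lit 1779433480) (.two (nat_lit 606076929) (nat_lit 156364701878) (.one (nat_lit 10000270660) .nil))),
   .two (nat_lit 612368388) (nat_lit 18925748228) (.two (nat_lit 285212675) (nat_lit 159224168456) (.two (nat_lit 16777217) (nat_lit 11551113595) (.one (nat_lit 3539993956) .nil))),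
   .two (nat_lit 2954887172) (nat_lit 3460300804) (.two (nat_lit 13191086083) (nat_lit 20704133149) (.two (nat_lit 4194305) (nat_lit 184417255470) (.two (nat_lit 2097152) (nat_lit 165525061985) (.one (nat_lit 1050545) .nil)))),
   .two (nat_lit 721420292) (nat_lit 166196150278) (.two (nat_lit 721420290) (nat_lit 37313576973) (.two (nat_lit 50331649) (nat_lit 1846542392) (.two (nat_lit 4194304) (nat_lit 156968682608) .nil))),
   .two (nat_lit 176160772) (nat_lit 10385096710) (.two (nat_lit 2969567235) (nat_lit 3028287514) (.two (nat_lit 16777216) (nat_lit 10007609612) (.one (nat_lit 10947134746) .nil))),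
   .two (nat_lit 41943044) (nat_lit 117440518) (.two (nat_lit 654311427) (nat_lit 880803877) (.two (nat_lit 16777216) (nat_lit 11618222780) .nil)),
   .two (nat_lit 9768534020) (nat_lit 19529728004) (.two (nat_lit 11479810051) (nat_lit 10503585813) (.two (nat_lit 16777217) (nat_lit 4601151784) (.one (nat_lit 4196274) .nil))),
   .two (nat_lit 880803845) (nat_lit 11577327621) (.two (nat_lit 11543773187) (nat_lit 12054429714) (.two (nat_lit 41943041) (nat_lit 156364701745) (.two (nat_lit 16777216) (nat_lit 21207450343) .nil))),
   .two (nat_lit 721420292) (nat_lit 11010048007) (.two (nat_lit 809500675) (nat_lit 721420313) (.two (nat_lit 4194304) (nat_lit 9814671905) (.one (nat_lit 4613735609) .nil))),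
   .two (nat_lit 169869316) (nat_lit 2902458376) (.two (nat_lit 16777217) (nat_lit 12114198591) (.two (nat_lit 2097152) (nat_lit 11543773553) (.one (nat_lit 1745880792) .nil))),
   .two (nat_lit 612368388) (nat_lit 11006902277) (.two (nat_lit 75497475) (nat_lit 10939793421) (.two (nat_lit 16777217) (nat_lit 19596836913) (.two (nat_lit 16777216) (nat_lit 37253808440) (.one (nat_lit 1050064) .nil)))),
   .two (nat_lit 4194308) (nat_lit 10947133446) (.two (nat_lit 654311427) (nat_lit 272629798) (.two (nat_lit 16777216) (nat_lit 71303490) (.one (nat_lit 8390579) .nil))),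
   .two (nat_lit 37748740) (nat_lit 28093448200) (.two (nat_lit 606076929) (nat_lit 156569174075) (.two (nat_lit 2097152) (nat_lit 1384121527) .nil)),
   .two (nat_lit 813694980) (nat_lit 1376780315) (.two (nat_lit 2097152) (nat_lit 11577327886) (.one (nat_lit 8390580) .nil)),
   .two (nat_lit 13191086084) (nat_lit 156364701703) (.two (nat_lit 806354947) (nat_lit 13191086088) (.two (nat_lit 4194305) (nat_lit 2418016545) (.one (nat_lit 10907289000) .nil))),
   .two (nat_lit 713031684) (nat_lit 9866051588) (.two (nat_lit 1343225859) (nat_lit 176160830) (.two (nat_lit 1048576) (nat_lit 780140911) (.one (nat_lit 12147753733) .nil))),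
   .two (nat_lit 606076932) (nat_lit 10351542326) (.two (nat_lit 4194304) (nat_lit 2098011) (.one (nat_lit 174688568774) .nil)),
   .two (nat_lit 713031684) (nat_lit 9969860615) (.two (nat_lit 809500675) (nat_lit 166245433407) (.two (nat_lit 4194304) (nat_lit 8389161) (.one (nat_lit 4195794) .nil))),
   .two (nat_lit 183845781508) (nat_lit 20644364294) (.two (nat_lit 75497475) (nat_lit 1309671472) (.two (nat_lit 2097152) (nat_lit 1853883224) (.one (nat_lit 8390581) .nil))),
   .two (nat_lit 12054429700) (nat_lit 1913651204) (.two (nat_lit 11476664322) (nat_lit 12054429704) (.two (nat_lit 34603009) (nat_lit 3464495601) (.one (nat_lit 8390582) .nil))),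
   .two (nat_lit 272629764) (nat_lit 46508539913) (.two (nat_lit 4194305) (nat_lit 11578376252) (.two (nat_lit 4194304) (nat_lit 156365750804) (.one (nat_lit 2990540114) .nil))),
   .two (nat_lit 166130089988) (nat_lit 20753416198) (.two (nat_lit 16777219) (nat_lit 1847590920) (.two (nat_lit 156367847425) (nat_lit 889192501) (.two (nat_lit 2097152) (nat_lit 166245433890) (.one (nat_lit 2099127) .nil)))),
   .two (nat_lit 754974724) (nat_lit 28086108164) (.two (nat_lit 1745879043) (nat_lit 754974746) (.two (nat_lit 1048576) (nat_lit 50333029) .nil)),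
   .two (nat_lit 218103814) (nat_lit 174686470150) (.two (nat_lit 83886083) (nat_lit 46978301960) (.two (nat_lit 2097153) (nat_lit 285212697) (.two (nat_lit 2097152) (nat_lit 10519314834) (.one (nat_lit 740295374) .nil)))),
   .two (nat_lit 612368388) (nat_lit 117440517) (.two (nat_lit 1191182339) (nat_lit 612368392) (.two (nat_lit 16777217) (nat_lit 158083317939) (.one (nat_lit 8390584) .nil))),
   .two (nat_lit 20644364292) (nat_lit 158144135173) (.two (nat_lit 1277165571) (nat_lit 20644364314) (.two (nat_lit 2097152) (nat_lit 183953785630) .nil)),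
   .two (nat_lit 50331652) (nat_lit 780140550) (.two (nat_lit 16777219) (nat_lit 46407876656) (.two (nat_lit 16777216) (nat_lit 11611930915) (.one (nat_lit 2098643) .nil))),
   .two (nat_lit 169869316) (nat_lit 19532873738) (.two (nat_lit 2097153) (nat_lit 1212153895) (.two (nat_lit 1048576) (nat_lit 1312817454) (.one (nat_lit 4196282) .nil))),
   .two (nat_lit 3525312516) (nat_lit 166196150299) (.two (nat_lit 2097152) (nat_lit 166196150541) (.one (nat_lit 2098399) .nil)),
   .two (nat_lit 3527409668) (nat_lit 21208498180) (.two (nat_lit 1277165571) (nat_lit 3527409672) (.two (nat_lit 2097153) (nat_lit 46510637338) (.one (nat_lit 4196285) .nil))),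
   .two (nat_lit 9766436868) (nat_lit 28086108168) (.two (nat_lit 41943041) (nat_lit 10939793465) (.two (nat_lit 8388608) (nat_lit 174752530781) (.one (nat_lit 1050558) .nil))),
   .two (nat_lit 46409973764) (nat_lit 174759870468) (.two (nat_lit 41943043) (nat_lit 4194400) (.two (nat_lit 8388608) (nat_lit 272630129) (.one (nat_lit 20740834582) .nil))),
   .two (nat_lit 3460300804) (nat_lit 158083317768) (.two (nat_lit 34603009) (nat_lit 13228835123) (.one (nat_lit 8390591) .nil)),
   .two (nat_lit 41943044) (nat_lit 10907287565) (.two (nat_lit 8388609) (nat_lit 21208498446) (.one (nat_lit 2099136) .nil)),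
   .two (nat_lit 8388612) (nat_lit 158075977732) (.two (nat_lit 21777874947) (nat_lit 8388616) (.two (nat_lit 41943041) (nat_lit 158176641049) (.two (nat_lit 2097152) (nat_lit 672137547) (.one (nat_lit 1050561) .nil)))),
   .two (nat_lit 721420292) (nat_lit 28690087944) (.two (nat_lit 50331649) (nat_lit 28690087962) (.two (nat_lit 1048576) (nat_lit 11022631225) (.one (nat_lit 1050562) .nil))),
   .two (nat_lit 184423546884) (nat_lit 157038936068) (.two (nat_lit 708837379) (nat_lit 1753219080) (.two (nat_lit 4194305) (nat_lit 243270185) (.one (nat_lit 8390595) .nil))),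
   .two (nat_lit 46414168068) (nat_lit 19532873738) (.two (nat_lit 9768534017) (nat_lit 19134415199) (.one (nat_lit 10947134796) .nil)),
   .two (nat_lit 3525312516) (nat_lit 9781116934) (.two (nat_lit 11559501827) (nat_lit 3525312520) (.two (nat_lit 50331649) (nat_lit 9934209080) (.two (nat_lit 2097152) (nat_lit 16777773) (.one (nat_lit 9814672621) .nil)))),
   .two (nat_lit 11559501828) (nat_lit 21777874952) (.two (nat_lit 34603009) (nat_lit 166211879226) (.one (nat_lit 16779204) .nil)),
   .two (nat_lit 37748740) (nat_lit 880803846) (.two (nat_lit 4194306) (nat_lit 10538188810) (.two (nat_lit 4194305) (nat_lit 9900654942) (.one (nat_lit 2099141) .nil))),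
   .two (nat_lit 272629764) (nat_lit 1847590916) (.two (nat_lit 272629763) (nat_lit 9900654601) (.two (nat_lit 4194305) (nat_lit 13222543420) (.two (nat_lit 2097152) (nat_lit 4194836) (.one (nat_lit 4632609515) .nil)))),
   .two (nat_lit 183853121540) (nat_lit 10506731525) (.two (nat_lit 9768534019) (nat_lit 158083317835) (.two (nat_lit 4194304) (nat_lit 20644364984) .nil)),
   .two (nat_lit 3464495108) (nat_lit 10504634385) (.two (nat_lit 2097153) (nat_lit 28086108217) (.two (nat_lit 2097152) (nat_lit 28790751768) (.one (nat_lit 183947495147) .nil))),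
   .two (nat_lit 46409973764) (nat_lit 343932933) (.two (nat_lit 4605345795) (nat_lit 4601151515) (.two (nat_lit 8388608) (nat_lit 9936306568) (.one (nat_lit 4195808) .nil))),
   .two (nat_lit 12117344260) (nat_lit 10504634376) (.two (nat_lit 37748737) (nat_lit 11007950917) (.two (nat_lit 4194304) (nat_lit 47548727595) (.one (nat_lit 2099142) .nil))),
   .two (nat_lit 9866051588) (nat_lit 166230753286) (.two (nat_lit 2954887171) (nat_lit 158176641033) (.two (nat_lit 2097153) (nat_lit 10335813681) (.two (nat_lit 2097152) (nat_lit 46406828374) (.one (nat_lit 2098659) .nil)))),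
   .two (nat_lit 9768534020) (nat_lit 46508539914) (.two (nat_lit 2097153) (nat_lit 4194501) (.two (nat_lit 4194304) (nat_lit 2098012) (.one (nat_lit 11578377553) .nil))),
   .two (nat_lit 21785214980) (nat_lit 1947205638) (.two (nat_lit 1343225859) (nat_lit 713031688) (.two (nat_lit 605028353) (nat_lit 19100860464) (.two (nat_lit 1048576) (nat_lit 8389166) (.one (nat_lit 8390116) .nil)))),
   .two (nat_lit 2954887172) (nat_lit 11559501829) (.two (nat_lit 721420291) (nat_lit 2954887176) (.two (nat_lit 16777217) (nat_lit 46474985757) (.one (nat_lit 46474986664) .nil))),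
   .two (nat_lit 169869316) (nat_lit 3464495108) (.two (nat_lit 176160771) (nat_lit 705691656) (.two (nat_lit 8388609) (nat_lit 34603052) (.two (nat_lit 8388608) (nat_lit 12147753279) (.one (nat_lit 1343227197) .nil)))),
   .two (nat_lit 2902458372) (nat_lit 2988441613) (.two (nat_lit 2097153) (nat_lit 1929379890) (.two (nat_lit 16777216) (nat_lit 21812478137) (.one (nat_lit 2099143) .nil))),
   .two (nat_lit 2954887172) (nat_lit 12163481612) (.two (nat_lit 50331649) (nat_lit 46473936950) (.two (nat_lit 2097152) (nat_lit 1049135) (.one (nat_lit 1050568) .nil))),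
   .two (nat_lit 2889875460) (nat_lit 620756998) (.two (nat_lit 620756995) (nat_lit 4634705964) (.two (nat_lit 16777216) (nat_lit 13224641218) .nil)),
   .two (nat_lit 2887778308) (nat_lit 2902458376) (.two (nat_lit 16777217) (nat_lit 606076978) (.two (nat_lit 2097152) (nat_lit 28690088116) (.one (nat_lit 11510220651) .nil))),
   .two (nat_lit 46409973764) (nat_lit 9933160460) (.two (nat_lit 4194305) (nat_lit 19529728053) (.two (nat_lit 4194304) (nat_lit 19026412043) (.one (nat_lit 11580474609) .nil))),
   .two (nat_lit 16777220) (nat_lit 1175453700) (.two (nat_lit 50331651) (nat_lit 46984593426) (.two (nat_lit 8388609) (nat_lit 158091706748) (.one (nat_lit 13195282055) .nil))),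
   .two (nat_lit 285212676) (nat_lit 1276117000) (.two (nat_lit 4194305) (nat_lit 10000269662) (.one (nat_lit 9899607997) .nil)),
   .two (nat_lit 8388612) (nat_lit 183949590534) (.two (nat_lit 2889875459) (nat_lit 41943048) (.two (nat_lit 4194305) (nat_lit 46984593589) (.one (nat_lit 8390601) .nil))),
   .two (nat_lit 9934209028) (nat_lit 46977253383) (.two (nat_lit 713031683) (nat_lit 705691656) (.two (nat_lit 8388609) (nat_lit 19128123684) (.one (nat_lit 1050571) .nil))),
   .two (nat_lit 4194308) (nat_lit 16777220) (.two (nat_lit 50331651) (nat_lit 174752530455) (.two (nat_lit 605028353) (nat_lit 165528207405) (.two (nat_lit 1048576) (nat_lit 83886399) (.one (nat_lit 174752531766) .nil)))),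
   .two (nat_lit 10336862212) (nat_lit 4605345797) (.two (nat_lit 8388611) (nat_lit 2317353013) (.two (nat_lit 8388608) (nat_lit 11611930962) (.one (nat_lit 2098662) .nil))),
   .two (nat_lit 8388612) (nat_lit 184419352584) (.two (nat_lit 4194305) (nat_lit 28697428060) (.two (nat_lit 8388608) (nat_lit 2990539239) (.one (nat_lit 2990540230) .nil))),
   .two (nat_lit 2887778308) (nat_lit 1849688068) (.two (nat_lit 34603011) (nat_lit 174755676175) (.two (nat_lit 4194305) (nat_lit 1343226250) (.one (nat_lit 2099148) .nil))),
   .two (nat_lit 9768534020) (nat_lit 1745879044) (.two (nat_lit 9866051587) (nat_lit 1916796936) (.two (nat_lit 34603009) (nat_lit 46980399482) (.one (nat_lit 10540287704) .nil))),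
   .two (nat_lit 713031684) (nat_lit 1191182342) (.two (nat_lit 1191182339) (nat_lit 10947133626) (.one (nat_lit 176161542) .nil)),
   .two (nat_lit 272629764) (nat_lit 3036676114) (.two (nat_lit 16777217) (nat_lit 183845781970) (.one (nat_lit 1050573) .nil)),
   .two (nat_lit 117440516) (nat_lit 4605345797) (.two (nat_lit 8388611) (nat_lit 1191182344) (.two (nat_lit 50331649) (nat_lit 4605346072) (.one (nat_lit 166136382732) .nil))),
   .two (nat_lit 9866051588) (nat_lit 184419352584) (.two (nat_lit 605028353) (nat_lit 11513364520) (.two (nat_lit 1048576) (nat_lit 11513364761) (.one (nat_lit 19599984502) .nil))),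
   .two (nat_lit 159224168452) (nat_lit 10504634376) (.two (nat_lit 2097153) (nat_lit 46414168768) .nil),
   .two (nat_lit 2954887172) (nat_lit 156581756948) (.two (nat_lit 16777217) (nat_lit 169869493) (.one (nat_lit 2099150) .nil)),
   .two (nat_lit 50331652) (nat_lit 156566028300) (.two (nat_lit 34603009) (nat_lit 855638069) (.two (nat_lit 1048576) (nat_lit 16778078) (.one (nat_lit 11510219986) .nil))),
   .two (nat_lit 809500676) (nat_lit 10336862212) (.two (nat_lit 272629763) (nat_lit 3021996082) (.two (nat_lit 4194304) (nat_lit 11544822073) (.one (nat_lit 2099151) .nil))),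
   .two (nat_lit 37748740) (nat_lit 13195280389) (.two (nat_lit 4194306) (nat_lit 337641538) (.two (nat_lit 8388608) (nat_lit 19094569270) (.one (nat_lit 2099153) .nil))),
   .two (nat_lit 203423748) (nat_lit 28093448196) (.two (nat_lit 1753219075) (nat_lit 3525312520) (.two (nat_lit 2097153) (nat_lit 21818769458) (.two (nat_lit 8388608) (nat_lit 169869493) (.one (nat_lit 2098665) .nil)))),
   .two (nat_lit 2889875460) (nat_lit 136314886) (.two (nat_lit 620756995) (nat_lit 174755676220) (.two (nat_lit 2097152) (nat_lit 1413480813) (.one (nat_lit 10001319395) .nil))),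
   .two (nat_lit 16777222) (nat_lit 156533522438) (.two (nat_lit 16777219) (nat_lit 11578376220) (.two (nat_lit 16777217) (nat_lit 1344274486) (.two (nat_lit 16777216) (nat_lit 236978733) (.one (nat_lit 2099155) .nil)))),
   .two (nat_lit 205520900) (nat_lit 28087156746) (.two (nat_lit 605028353) (nat_lit 639631409) (.two (nat_lit 1048576) (nat_lit 2350907775) (.one (nat_lit 2098666) .nil))),
   .two (nat_lit 184986632196) (nat_lit 9900654601) (.two (nat_lit 605028353) (nat_lit 11007950884) (.two (nat_lit 1048576) (nat_lit 11477713217) (.one (nat_lit 2099156) .nil))),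
   .two (nat_lit 10385096708) (nat_lit 174686470150) (.two (nat_lit 165526110211) (nat_lit 654311465) (.two (nat_lit 2097152) (nat_lit 9781117730) .nil)),
   .two (nat_lit 37748740) (nat_lit 612368388) (.two (nat_lit 169869314) (nat_lit 641728520) (.two (nat_lit 2097153) (nat_lit 166132187452) (.one (nat_lit 4196309) .nil))),
   .two (nat_lit 20638072836) (nat_lit 1779433478) (.two (nat_lit 11543773187) (nat_lit 21208498184) (.two (nat_lit 8388609) (nat_lit 21812478269) (.one (nat_lit 20637026123) .nil))),
   .two (nat_lit 158083317764) (nat_lit 4634705925) (.two (nat_lit 75497475) (nat_lit 11010048019) (.two (nat_lit 2097153) (nat_lit 18928894244) (.one (nat_lit 4196311) .nil))),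
   .two (nat_lit 620756996) (nat_lit 20644364292) (.two (nat_lit 83886083) (nat_lit 20711473173) (.two (nat_lit 16777217) (nat_lit 8388806) (.two (nat_lit 8388608) (nat_lit 16777777) (.one (nat_lit 8390616) .nil)))),
   .two (nat_lit 9934209028) (nat_lit 10338959364) (.two (nat_lit 1277165571) (nat_lit 46409973768) (.two (nat_lit 620756993) (nat_lit 19029557540) (.one (nat_lit 4196313) .nil))),
   .two (nat_lit 47548727300) (nat_lit 10506731528) (.two (nat_lit 2097153) (nat_lit 3560964505) (.one (nat_lit 19027461321) .nil)),
   .two (nat_lit 101711876) (nat_lit 28758245380) (.two (nat_lit 739246083) (nat_lit 337641484) (.two (nat_lit 605028353) (nat_lit 9867100683) (.one (nat_lit 1050586) .nil))),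
   .two (nat_lit 1780482052) (nat_lit 46409973768) (.two (nat_lit 2097153) (nat_lit 843055142) (.two (nat_lit 8388608) (nat_lit 4030726493) (.one (nat_lit 4196316) .nil))),
   .two (nat_lit 10385096708) (nat_lit 11007950858) (.two (nat_lit 2097153) (nat_lit 9781117213) (.one (nat_lit 16779229) .nil)),
   .two (nat_lit 83886084) (nat_lit 28690087940) (.two (nat_lit 721420290) (nat_lit 10939793416) (.two (nat_lit 156365750273) (nat_lit 21827158385) (.one (nat_lit 1050590) .nil))),
   .two (nat_lit 1846542340) (nat_lit 156533522438) (.two (nat_lit 10504634371) (nat_lit 1846542344) (.two (nat_lit 9766436865) (nat_lit 28690087962) (.two (nat_lit 2097152) (nat_lit 10000269494) (.one (nat_lit 12147754405) .nil)))),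
   .two (nat_lit 721420292) (nat_lit 19026411530) (.two (nat_lit 9765388289) (nat_lit 754974997) (.one (nat_lit 1050091) .nil)),
   .two (nat_lit 46978301956) (nat_lit 1358954501) (.two (nat_lit 16777219) (nat_lit 46508539992) (.two (nat_lit 2097152) (nat_lit 117440692) (.one (nat_lit 102762362) .nil))),
   .two (nat_lit 46414168068) (nat_lit 21811429381) (.two (nat_lit 8388611) (nat_lit 174752530451) (.two (nat_lit 612368385) (nat_lit 772800922) (.one (nat_lit 1050591) .nil))),
   .two (nat_lit 3525312516) (nat_lit 1376780293) (.two (nat_lit 46978301955) (nat_lit 21811429389) (.two (nat_lit 620756993) (nat_lit 20737687848) (.one (nat_lit 1050592) .nil))),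
   .two (nat_lit 176160772) (nat_lit 184419352580) (.two (nat_lit 4605345795) (nat_lit 1178599432) (.two (nat_lit 8388609) (nat_lit 2353004594) (.two (nat_lit 8388608) (nat_lit 2353004858) (.one (nat_lit 10439623400) .nil)))),
   .two (nat_lit 4605345796) (nat_lit 21781020684) (.two (nat_lit 4194305) (nat_lit 18933088526) (.one (nat_lit 8390625) .nil)),
   .two (nat_lit 272629764) (nat_lit 4605345796) (.two (nat_lit 2889875459) (nat_lit 158183981068) (.two (nat_lit 37748737) (nat_lit 11014242836) (.one (nat_lit 4196322) .nil))),
   .two (nat_lit 3527409668) (nat_lit 20738736134) (.two (nat_lit 1277165571) (nat_lit 3527409690) (.two (nat_lit 2097152) (nat_lit 10506731788) (.one (nat_lit 4196323) .nil))),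
   .two (nat_lit 20644364292) (nat_lit 1745879048) (.two (nat_lit 34603009) (nat_lit 2923430218) (.one (nat_lit 156535620788) .nil)),
   .two (nat_lit 4605345796) (nat_lit 159251431434) (.two (nat_lit 8388609) (nat_lit 10538189082) (.one (nat_lit 47588574358) .nil)),
   .two (nat_lit 1178599428) (nat_lit 12163481612) (.two (nat_lit 16777217) (nat_lit 10506731563) (.two (nat_lit 1048576) (nat_lit 4030726492) (.one (nat_lit 4196324) .nil))),
   .two (nat_lit 8388612) (nat_lit 166197198855) (.two (nat_lit 10370416643) (nat_lit 9806282771) (.two (nat_lit 2097153) (nat_lit 343932953) (.two (nat_lit 2097152) (nat_lit 166237045281) (.one (nat_lit 2099173) .nil)))),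
   .two (nat_lit 156971827204) (nat_lit 183861510151) (.two (nat_lit 285212675) (nat_lit 156971827208) (.two (nat_lit 9768534017) (nat_lit 889192796) (.one (nat_lit 117441773) .nil))),
   .two (nat_lit 11543773188) (nat_lit 10907287562) (.two (nat_lit 34603009) (nat_lit 1746927680) (.two (nat_lit 1048576) (nat_lit 236978455) (.one (nat_lit 37247518440) .nil))),
   .two (nat_lit 8388612) (nat_lit 10385096708) (.two (nat_lit 654311427) (nat_lit 343932954) (.two (nat_lit 16777216) (nat_lit 343933196) (.one (nat_lit 8390420) .nil))),
   .two (nat_lit 47555018756) (nat_lit 3525312516) (.two (nat_lit 203423747) (nat_lit 47555018777) (.two (nat_lit 2097152) (nat_lit 8389170) (.one (nat_lit 8390630) .nil))),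
   .two (nat_lit 165532401668) (nat_lit 10940841988) (.two (nat_lit 270532611) (nat_lit 37320917002) (.two (nat_lit 34603009) (nat_lit 165532402198) (.one (nat_lit 8390631) .nil))),
   .two (nat_lit 16777220) (nat_lit 10504634372) (.two (nat_lit 203423747) (nat_lit 2969567240) (.two (nat_lit 606076929) (nat_lit 788529639) (.one (nat_lit 16779240) .nil))),
   .two (nat_lit 1847590916) (nat_lit 19093520390) (.two (nat_lit 1913651203) (nat_lit 19530776584) (.two (nat_lit 9765388289) (nat_lit 157036838939) (.two (nat_lit 1048576) (nat_lit 35651768) (.one (nat_lit 2098515) .nil)))),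
   .two (nat_lit 1343225860) (nat_lit 19532873732) (.two (nat_lit 705691650) (nat_lit 1849688073) (.two (nat_lit 34603009) (nat_lit 1379926337) (.one (nat_lit 1050602) .nil))),
   .two (nat_lit 654311428) (nat_lit 1178599430) (.two (nat_lit 218103811) (nat_lit 9772728366) (.two (nat_lit 4194304) (nat_lit 4034920801) (.one (nat_lit 4196331) .nil))),
   .two (nat_lit 16777220) (nat_lit 2889875464) (.two (nat_lit 9768534017) (nat_lit 46422556865) (.two (nat_lit 16777216) (nat_lit 37316723175) (.one (nat_lit 4195823) .nil))),
   .two (nat_lit 46409973764) (nat_lit 183845781512) (.two (nat_lit 156365750273) (nat_lit 10503586113) (.one (nat_lit 1050604) .nil)),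
   .two (nat_lit 9934209028) (nat_lit 176160780) (.two (nat_lit 2097153) (nat_lit 8388659) (.two (nat_lit 16777216) (nat_lit 184987681070) (.one (nat_lit 2099181) .nil))),
   .two (nat_lit 165532401668) (nat_lit 1847590916) (.two (nat_lit 28758245379) (nat_lit 165532401672) (.two (nat_lit 156365750273) (nat_lit 165532401700) (.two (nat_lit 2097152) (nat_lit 1182794069) (.one (nat_lit 8390638) .nil)))),
   .two (nat_lit 8388612) (nat_lit 11559501828) (.two (nat_lit 8388611) (nat_lit 12062818325) (.two (nat_lit 50331649) (nat_lit 880803908) (.one (nat_lit 8390640) .nil))),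
   .two (nat_lit 47555018756) (nat_lit 156468510727) (.two (nat_lit 713031683) (nat_lit 205520954) (.two (nat_lit 8388608) (nat_lit 37749050) (.one (nat_lit 11614028503) .nil))),
   .two (nat_lit 1343225860) (nat_lit 156971827208) (.two (nat_lit 34603009) (nat_lit 156569174055) (.two (nat_lit 1048576) (nat_lit 37316723238) (.one (nat_lit 3557819717) .nil))),
   .two (nat_lit 813694980) (nat_lit 37246468102) (.two (nat_lit 2097155) (nat_lit 4605345800) (.two (nat_lit 2097153) (nat_lit 713031760) (.two (nat_lit 2097152) (nat_lit 3557818747) (.one (nat_lit 303039766) .nil)))),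
   .two (nat_lit 639631364) (nat_lit 156971827208) (.two (nat_lit 2097153) (nat_lit 13224640922) (.one (nat_lit 184419353723) .nil)),
   .two (nat_lit 641728516) (nat_lit 1745879044) (.two (nat_lit 612368387) (nat_lit 21207449610) (.two (nat_lit 34603009) (nat_lit 9802088850) (.one (nat_lit 1050610) .nil))),
   .two (nat_lit 184993972228) (nat_lit 28790751238) (.two (nat_lit 1779433475) (nat_lit 184993972232) (.two (nat_lit 34603009) (nat_lit 11618222362) (.one (nat_lit 8390643) .nil))),
   .two (nat_lit 742391812) (nat_lit 20704133125) (.two (nat_lit 2097155) (nat_lit 46510637098) (.two (nat_lit 1048576) (nat_lit 2990539474) .nil)),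
   .two (nat_lit 9934209028) (nat_lit 3527409688) (.two (nat_lit 2097152) (nat_lit 156367848147) .nil),
   .two (nat_lit 272629764) (nat_lit 639631364) (.two (nat_lit 2954887171) (nat_lit 775946250) (.two (nat_lit 4194305) (nat_lit 13222543420) (.two (nat_lit 4194304) (nat_lit 2098019) (.one (nat_lit 10439624137) .nil)))),
   .two (nat_lit 21777874948) (nat_lit 156533522437) (.two (nat_lit 1343225859) (nat_lit 10504634376) (.two (nat_lit 9781116929) (nat_lit 158647451940) (.one (nat_lit 2099188) .nil))),
   .two (nat_lit 158144135172) (nat_lit 12617515021) (.two (nat_lit 34603009) (nat_lit 2988441673) (.two (nat_lit 1048576) (nat_lit 10001318300) (.one (nat_lit 3458204866) .nil))),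
   .two (nat_lit 809500676) (nat_lit 28757196807) (.two (nat_lit 11479810051) (nat_lit 1745879056) (.two (nat_lit 4194305) (nat_lit 1745879096) (.two (nat_lit 4194304) (nat_lit 18925748538) (.one (nat_lit 2319450839) .nil)))),
   .two (nat_lit 11492392964) (nat_lit 183848927240) (.two (nat_lit 37748737) (nat_lit 721420313) (.two (nat_lit 4194304) (nat_lit 16777781) (.one (nat_lit 2353005813) .nil))),
   .two (nat_lit 1343225860) (nat_lit 12150898697) (.two (nat_lit 34603009) (nat_lit 21781021013) (.one (nat_lit 4196341) .nil)),
   .two (nat_lit 117440516) (nat_lit 10939793416) (.two (nat_lit 50331649) (nat_lit 3457155123) (.two (nat_lit 1048576) (nat_lit 12129927691) (.one (nat_lit 202376888) .nil))),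
   .two (nat_lit 4601151492) (nat_lit 156365750276) (.two (nat_lit 4194306) (nat_lit 10336862218) (.two (nat_lit 4194305) (nat_lit 10336862246) (.two (nat_lit 16777216) (nat_lit 158177689910) (.one (nat_lit 2099190) .nil)))),
   .two (nat_lit 9934209028) (nat_lit 10338959364) (.two (nat_lit 1277165571) (nat_lit 46409973768) (.two (nat_lit 620756993) (nat_lit 184989778476) (.one (nat_lit 4196343) .nil))),
   .two (nat_lit 9934209028) (nat_lit 21207449608) (.two (nat_lit 16777217) (nat_lit 166129042139) .nil),
   .two (nat_lit 754974724) (nat_lit 1276116996) (.two (nat_lit 171966467) (nat_lit 9781116936) (.two (nat_lit 4194305) (nat_lit 12047089712) (.two (nat_lit 4194304) (nat_lit 9781117232) (.one (nat_lit 16779256) .nil)))),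
   .two (nat_lit 9768534020) (nat_lit 13228834826) (.two (nat_lit 4194305) (nat_lit 184993972260) (.two (nat_lit 4194304) (nat_lit 1853882689) (.one (nat_lit 8390649) .nil))),
   .two (nat_lit 3525312516) (nat_lit 306184197) (.two (nat_lit 272629763) (nat_lit 3558866953) (.two (nat_lit 4194305) (nat_lit 158647451985) (.one (nat_lit 2099194) .nil))),
   .two (nat_lit 50331652) (nat_lit 21777874948) (.two (nat_lit 16777218) (nat_lit 1410334730) (.two (nat_lit 16777217) (nat_lit 2886729820) (.two (nat_lit 8388608) (nat_lit 16778657) .nil))),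
   .two (nat_lit 2969567236) (nat_lit 11513364486) (.two (nat_lit 2969567235) (nat_lit 11513364489) (.two (nat_lit 4194305) (nat_lit 620757028) (.two (nat_lit 4194304) (nat_lit 16777629) (.one (nat_lit 10540287882) .nil)))),
   .two (nat_lit 739246084) (nat_lit 10940841988) (.two (nat_lit 11543773187) (nat_lit 337641483) (.two (nat_lit 9765388289) (nat_lit 2988441885) (.one (nat_lit 2099197) .nil))),
   .two (nat_lit 10343153668) (nat_lit 839909382) (.two (nat_lit 4599054339) (nat_lit 156472705072) (.two (nat_lit 2097152) (nat_lit 183920231127) .nil)),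
   .two (nat_lit 1343225860) (nat_lit 166130089992) (.two (nat_lit 605028353) (nat_lit 9799991346) (.two (nat_lit 2097152) (nat_lit 46473937080) (.one (nat_lit 19596838109) .nil))),
   .two (nat_lit 9768534020) (nat_lit 28087156740) (.two (nat_lit 11559501827) (nat_lit 9867100168) (.two (nat_lit 50331649) (nat_lit 156365750318) (.two (nat_lit 16777216) (nat_lit 156535619933) (.one (nat_lit 4196350) .nil)))),
   .two (nat_lit 1343225860) (nat_lit 19599982600) (.two (nat_lit 34603009) (nat_lit 1212154138) (.one (nat_lit 4196351) .nil)),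
   .two (nat_lit 705691652) (nat_lit 19532873732) (.two (nat_lit 272629763) (nat_lit 3458203658) (.two (nat_lit 2097153) (nat_lit 10540286002) (.two (nat_lit 2097152) (nat_lit 28086108340) (.one (nat_lit 1050624) .nil)))),
   .two (nat_lit 739246084) (nat_lit 156372041734) (.two (nat_lit 11543773187) (nat_lit 13195280397) (.two (nat_lit 34603009) (nat_lit 19604177210) (.one (nat_lit 156364702423) .nil))),
   .two (nat_lit 272629764) (nat_lit 11559501828) (.two (nat_lit 721420290) (nat_lit 272629784) (.two (nat_lit 16777216) (nat_lit 13224640580) (.one (nat_lit 4196353) .nil))),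
   .two (nat_lit 713031684) (nat_lit 157036838916) (.two (nat_lit 612368387) (nat_lit 2921332745) (.two (nat_lit 2097153) (nat_lit 11618222106) (.two (nat_lit 2097152) (nat_lit 174692761782) (.one (nat_lit 2098677) .nil)))),
   .two (nat_lit 37748740) (nat_lit 1846542340) (.two (nat_lit 3527409667) (nat_lit 69206031) (.two (nat_lit 2097153) (nat_lit 605028443) (.two (nat_lit 2097152) (nat_lit 4194872) (.one (nat_lit 156535621048) .nil)))),
   .two (nat_lit 184549380) (nat_lit 101711878) (.two (nat_lit 16777219) (nat_lit 1376780317) (.two (nat_lit 8388609) (nat_lit 46507491374) (.two (nat_lit 16777216) (nat_lit 156968681941) (.one (nat_lit 1913653113) .nil)))),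
   .two (nat_lit 12054429700) (nat_lit 174752530440) (.two (nat_lit 4194305) (nat_lit 739246128) (.two (nat_lit 4194304) (nat_lit 156372042032) (.one (nat_lit 1050627) .nil))),
   .two (nat_lit 16777220) (nat_lit 166196150277) (.two (nat_lit 184549379) (nat_lit 739246136) (.two (nat_lit 16777216) (nat_lit 158646403473) (.one (nat_lit 1050628) .nil))),
   .two (nat_lit 9934209028) (nat_lit 19029557254) (.two (nat_lit 1277165571) (nat_lit 46980399117) (.two (nat_lit 2097153) (nat_lit 12117344345) (.two (nat_lit 8388608) (nat_lit 156535619930) (.one (nat_lit 4196357) .nil)))),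
   .two (nat_lit 8388612) (nat_lit 772800538) (.two (nat_lit 8388608) (nat_lit 772800780) (.one (nat_lit 1050630) .nil)),
   .two (nat_lit 9934209028) (nat_lit 47555018756) (.two (nat_lit 169869314) (nat_lit 612368392) (.two (nat_lit 2097153) (nat_lit 174759870778) (.one (nat_lit 8390663) .nil))),
   .two (nat_lit 9781116932) (nat_lit 12114198532) (.two (nat_lit 16777219) (nat_lit 19127074826) (.two (nat_lit 156367847425) (nat_lit 183946445297) (.one (nat_lit 19109250543) .nil))),
   .two (nat_lit 9781116932) (nat_lit 3458203663) (.two (nat_lit 2097153) (nat_lit 156548202677) (.one (nat_lit 16779272) .nil)),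
   .two (nat_lit 639631364) (nat_lit 1846542349) (.two (nat_lit 2097153) (nat_lit 1309671534) (.two (nat_lit 1048576) (nat_lit 9906946443) (.one (nat_lit 8390665) .nil))),
   .two (nat_lit 612368388) (nat_lit 11006902277) (.two (nat_lit 2902458370) (nat_lit 156573368414) (.two (nat_lit 16777216) (nat_lit 18925748535) (.one (nat_lit 8390666) .nil))),
   .two (nat_lit 8388612) (nat_lit 28087156744) (.two (nat_lit 8388609) (nat_lit 174686470207) (.two (nat_lit 2097152) (nat_lit 20644364592) (.one (nat_lit 788530878) .nil))),
   .two (nat_lit 285212676) (nat_lit 2923429894) (.two (nat_lit 2889875459) (nat_lit 285212740) (.one (nat_lit 16779276) .nil)),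
   .two (nat_lit 47563407364) (nat_lit 183949590538) (.two (nat_lit 16777217) (nat_lit 11513364519) (.two (nat_lit 1048576) (nat_lit 71303470) (.one (nat_lit 4196365) .nil))),
   .two (nat_lit 1175453700) (nat_lit 185035915271) (.two (nat_lit 8388610) (nat_lit 156548202512) (.two (nat_lit 8388609) (nat_lit 156481093713) (.two (nat_lit 16777216) (nat_lit 46414168383) (.one (nat_lit 4613735690) .nil)))),
   .two (nat_lit 1343225860) (nat_lit 19530776584) (.two (nat_lit 34603009) (nat_lit 11618222139) (.two (nat_lit 8388608) (nat_lit 37247517021) (.one (nat_lit 166197200640) .nil))),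
   .two (nat_lit 822083588) (nat_lit 159216828421) (.two (nat_lit 171966467) (nat_lit 158662131723) (.two (nat_lit 4194305) (nat_lit 158143086641) (.two (nat_lit 4194304) (nat_lit 158662132024) (.one (nat_lit 1050103) .nil)))),
   .two (nat_lit 2961178628) (nat_lit 18928893962) (.two (nat_lit 8388609) (nat_lit 166229705195) (.one (nat_lit 2969569199) .nil)),
   .two (nat_lit 11543773188) (nat_lit 28793896966) (.two (nat_lit 41943043) (nat_lit 68157448) (.two (nat_lit 41943041) (nat_lit 10503586352) (.one (nat_lit 1050638) .nil))),
   .two (nat_lit 158144135172) (nat_lit 4605345797) (.two (nat_lit 8388611) (nat_lit 1847590939) (.two (nat_lit 2097152) (nat_lit 11551113397) (.one (nat_lit 2099215) .nil))),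
   .two (nat_lit 10940841988) (nat_lit 16777221) (.two (nat_lit 285212675) (nat_lit 10940841992) (.two (nat_lit 16777217) (nat_lit 2921332815) (.two (nat_lit 2097152) (nat_lit 50331827) (.one (nat_lit 16778744) .nil)))),
   .two (nat_lit 9766436868) (nat_lit 28086108164) (.two (nat_lit 13195280387) (nat_lit 2416967690) (.two (nat_lit 41943041) (nat_lit 11610882402) (.one (nat_lit 1050640) .nil))),
   .two (nat_lit 1178599428) (nat_lit 46984593412) (.two (nat_lit 2894069763) (nat_lit 1178599432) (.two (nat_lit 37748737) (nat_lit 28697428029) (.two (nat_lit 1048576) (nat_lit 46514831657) (.one (nat_lit 8390673) .nil)))),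
   .two (nat_lit 272629764) (nat_lit 156532473863) (.two (nat_lit 156364701699) (nat_lit 272629768) (.two (nat_lit 16777217) (nat_lit 4027580462) (.two (nat_lit 4194304) (nat_lit 46977253872) (.one (nat_lit 1050642) .nil)))),
   .two (nat_lit 1779433476) (nat_lit 673185802) (.two (nat_lit 2097153) (nat_lit 638583334) (.one (nat_lit 1780483316) .nil)),
   .two (nat_lit 809500676) (nat_lit 157036838920) (.two (nat_lit 4194305) (nat_lit 19027460797) .nil),
   .two (nat_lit 639631364) (nat_lit 13187940359) (.two (nat_lit 10370416643) (nat_lit 2349858833) (.two (nat_lit 16777217) (nat_lit 4027580711) (.one (nat_lit 2418016983) .nil))),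
   .two (nat_lit 620756996) (nat_lit 10370416644) (.two (nat_lit 639631363) (nat_lit 165525061640) (.two (nat_lit 605028353) (nat_lit 21208498480) (.one (nat_lit 2099219) .nil))),
   .two (nat_lit 9940500484) (nat_lit 12147752966) (.two (nat_lit 605028355) (nat_lit 176160776) (.two (nat_lit 4194305) (nat_lit 1317011536) (.two (nat_lit 4194304) (nat_lit 3524264315) (.one (nat_lit 8390137) .nil)))),
   .two (nat_lit 809500676) (nat_lit 28806479890) (.two (nat_lit 4194305) (nat_lit 10385096767) (.two (nat_lit 16777216) (nat_lit 183949590832) (.one (nat_lit 8390676) .nil))),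
   .two (nat_lit 50331652) (nat_lit 41943058) (.two (nat_lit 8388609) (nat_lit 10504634673) (.one (nat_lit 16779285) .nil)),
   .two (nat_lit 13191086084) (nat_lit 11510218761) (.two (nat_lit 4194305) (nat_lit 47581233212) (.two (nat_lit 4194304) (nat_lit 19127075348) (.one (nat_lit 1050646) .nil))),
   .two (nat_lit 2954887172) (nat_lit 1358954500) (.two (nat_lit 721420290) (nat_lit 2954887176) (.two (nat_lit 156372041729) (nat_lit 4028629042) (.two (nat_lit 8388608) (nat_lit 1310720304) (.one (nat_lit 16779287) .nil)))),
   .two (nat_lit 272629764) (nat_lit 174759870474) (.two (nat_lit 612368385) (nat_lit 1279262780) (.two (nat_lit 8388608) (nat_lit 28760343395) (.one (nat_lit 75498703) .nil))),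
   .two (nat_lit 8388612) (nat_lit 185002360848) (.two (nat_lit 8388609) (nat_lit 20652752954) (.two (nat_lit 16777216) (nat_lit 4638900573) (.one (nat_lit 4196376) .nil))),
   .two (nat_lit 37748740) (nat_lit 822083588) (.two (nat_lit 4194306) (nat_lit 156365750280) (.two (nat_lit 4194305) (nat_lit 169869379) (.two (nat_lit 4194304) (nat_lit 9900655134) (.one (nat_lit 156533524322) .nil)))),
   .two (nat_lit 343932934) (nat_lit 28758245381) (.two (nat_lit 75497475) (nat_lit 10538188810) (.two (nat_lit 2097153) (nat_lit 21214790382) .nil)),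
   .two (nat_lit 75497476) (nat_lit 46978301956) (.two (nat_lit 41943043) (nat_lit 19532873756) (.two (nat_lit 4194305) (nat_lit 11551113784) (.one (nat_lit 10443818136) .nil))),
   .two (nat_lit 12054429700) (nat_lit 4598005767) (.two (nat_lit 16777219) (nat_lit 12054429721) (.two (nat_lit 1048576) (nat_lit 19537068213) (.one (nat_lit 16779289) .nil))),
   .two (nat_lit 9866051588) (nat_lit 10538188806) (.two (nat_lit 9934209027) (nat_lit 158143086600) (.two (nat_lit 606076929) (nat_lit 11476664650) (.one (nat_lit 156566029636) .nil))),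
   .two (nat_lit 612368388) (nat_lit 10385096710) (.two (nat_lit 1191182339) (nat_lit 10007609384) (.two (nat_lit 16777216) (nat_lit 159224168729) (.one (nat_lit 8390138) .nil))),
   .two (nat_lit 46978301956) (nat_lit 21811429381) (.two (nat_lit 3525312515) (nat_lit 1376780301) (.two (nat_lit 605028353) (nat_lit 1210056784) (.two (nat_lit 2097152) (nat_lit 10369368394) (.one (nat_lit 1050650) .nil)))),
   .two (nat_lit 9881780228) (nat_lit 4605345800) (.two (nat_lit 8388609) (nat_lit 9982443834) (.one (nat_lit 1283457751) .nil)),
   .two (nat_lit 272629764) (nat_lit 13237223441) (.two (nat_lit 4194305) (nat_lit 16777275) (.two (nat_lit 16777216) (nat_lit 28690088285) (.one (nat_lit 1050651) .nil))),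
   .two (nat_lit 739246084) (nat_lit 4599054348) (.two (nat_lit 156364701697) (nat_lit 174753579569) (.one (nat_lit 13187942346) .nil)),
   .two (nat_lit 1291845636) (nat_lit 101711880) (.two (nat_lit 620756993) (nat_lit 705691698) (.two (nat_lit 16777216) (nat_lit 705691962) (.one (nat_lit 1913652967) .nil))),
   .two (nat_lit 41943044) (nat_lit 11543773207) (.two (nat_lit 4194305) (nat_lit 9765388332) (.two (nat_lit 4194304) (nat_lit 28790751551) (.one (nat_lit 1050652) .nil))),
   .two (nat_lit 166132187140) (nat_lit 37313576965) (.two (nat_lit 28086108163) (nat_lit 1749024834) (.two (nat_lit 1048576) (nat_lit 1379926354) (.one (nat_lit 4195837) .nil))),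
   .two (nat_lit 809500676) (nat_lit 1914699791) (.two (nat_lit 16777217) (nat_lit 12148802062) (.one (nat_lit 16779293) .nil)),
   .two (nat_lit 12114198532) (nat_lit 158077026308) (.two (nat_lit 171966467) (nat_lit 2921332746) (.two (nat_lit 4194305) (nat_lit 68157753) (.one (nat_lit 2099230) .nil))),
   .two (nat_lit 12047089668) (nat_lit 874512396) (.two (nat_lit 34603009) (nat_lit 2317353010) (.two (nat_lit 1048576) (nat_lit 10504634713) (.one (nat_lit 12048140062) .nil))),
   .two (nat_lit 2887778308) (nat_lit 11492392966) (.two (nat_lit 721420291) (nat_lit 3021996089) (.two (nat_lit 1048576) (nat_lit 18926797169) (.one (nat_lit 3558868997) .nil))),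
   .two (nat_lit 1779433476) (nat_lit 20638072840) (.two (nat_lit 606076929) (nat_lit 705692050) (.one (nat_lit 12147754107) .nil)),
   .two (nat_lit 16777220) (nat_lit 47555018767) (.two (nat_lit 8388609) (nat_lit 1358954762) (.one (nat_lit 109053121) .nil)),
   .two (nat_lit 2889875460) (nat_lit 1746927622) (.two (nat_lit 50331651) (nat_lit 742391858) (.two (nat_lit 2097152) (nat_lit 239075691) (.one (nat_lit 620758965) .nil))),
   .two (nat_lit 158144135172) (nat_lit 185020186629) (.two (nat_lit 184986632195) (nat_lit 37247516722) (.two (nat_lit 1048576) (nat_lit 37247517400) .nil)),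
   .two (nat_lit 9934209028) (nat_lit 46477082630) (.two (nat_lit 705691650) (nat_lit 185023332366) (.two (nat_lit 34603009) (nat_lit 158647451757) (.two (nat_lit 1048576) (nat_lit 4194718) (.one (nat_lit 1050655) .nil)))),
   .two (nat_lit 9768534020) (nat_lit 166129041412) (.two (nat_lit 713031683) (nat_lit 165525061648) (.two (nat_lit 4194305) (nat_lit 28690087989) (.two (nat_lit 4194304) (nat_lit 1384120669) (.one (nat_lit 8390688) .nil)))),
   .two (nat_lit 739246084) (nat_lit 185027526666) (.two (nat_lit 34603009) (nat_lit 4605345817) (.two (nat_lit 1048576) (nat_lit 1350566411) (.one (nat_lit 11510219984) .nil))),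
   .two (nat_lit 1276116996) (nat_lit 10552868870) (.two (nat_lit 50331651) (nat_lit 1846542363) (.two (nat_lit 4194304) (nat_lit 10939793588) (.one (nat_lit 4196385) .nil))),
   .two (nat_lit 272629764) (nat_lit 10336862212) (.two (nat_lit 169869314) (nat_lit 3527409672) (.two (nat_lit 9768534017) (nat_lit 4599054529) (.two (nat_lit 2097152) (nat_lit 185023332839) (.one (nat_lit 2099235) .nil)))),
   .two (nat_lit 169869316) (nat_lit 166232850438) (.two (nat_lit 4194306) (nat_lit 13221494797) (.two (nat_lit 8388609) (nat_lit 12617515189) (.one (nat_lit 1050660) .nil))),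
   .two (nat_lit 41943044) (nat_lit 46980399112) (.two (nat_lit 4194305) (nat_lit 37253808314) (.one (nat_lit 1417675899) .nil)),
   .two (nat_lit 184986632196) (nat_lit 156971827208) (.two (nat_lit 34603009) (nat_lit 20740833762) (.one (nat_lit 4196391) .nil)),
   .two (nat_lit 4601151492) (nat_lit 28758245381) (.two (nat_lit 11479810051) (nat_lit 169869370) (.two (nat_lit 4194304) (nat_lit 9766437178) (.one (nat_lit 166232851159) .nil))),
   .two (nat_lit 739246084) (nat_lit 28764536839) (.two (nat_lit 8388610) (nat_lit 202375179) (.two (nat_lit 8388609) (nat_lit 672137312) (.two (nat_lit 8388608) (nat_lit 11006902641) (.one (nat_lit 11014243684) .nil)))),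
   .two (nat_lit 2954887172) (nat_lit 822083588) (.two (nat_lit 16777218) (nat_lit 2887778314) (.two (nat_lit 16777217) (nat_lit 11578376252) (.two (nat_lit 16777216) (nat_lit 166197199334) (.one (nat_lit 2099240) .nil)))),
   .two (nat_lit 2889875460) (nat_lit 157035790349) (.two (nat_lit 16777217) (nat_lit 20737687578) (.two (nat_lit 16777216) (nat_lit 12050235575) (.one (nat_lit 28693235545) .nil))),
   .two (nat_lit 10370416644) (nat_lit 156968681480) (.two (nat_lit 606076929) (nat_lit 1913651227) (.two (nat_lit 1048576) (nat_lit 2098024) (.one (nat_lit 2099242) .nil))),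
   .two (nat_lit 169869316) (nat_lit 37253808134) (.two (nat_lit 9934209027) (nat_lit 4638900238) (.two (nat_lit 50331649) (nat_lit 11577327797) (.one (nat_lit 183946446793) .nil))),
   .two (nat_lit 203423750) (nat_lit 1916796934) (.two (nat_lit 2097155) (nat_lit 138412120) (.two (nat_lit 1048576) (nat_lit 4634706391) (.one (nat_lit 2099243) .nil))),
   .two (nat_lit 37748740) (nat_lit 1913651221) (.two (nat_lit 37748737) (nat_lit 28790751271) (.two (nat_lit 2097152) (nat_lit 46507491630) (.one (nat_lit 4196396) .nil))),
   .two (nat_lit 612368388) (nat_lit 10519314443) (.two (nat_lit 8388609) (nat_lit 136314925) (.two (nat_lit 2097152) (nat_lit 8389023) (.one (nat_lit 16779309) .nil))),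
   .two (nat_lit 2887778308) (nat_lit 21785214981) (.two (nat_lit 270532611) (nat_lit 1417674765) (.two (nat_lit 34603009) (nat_lit 158150426681) (.two (nat_lit 1048576) (nat_lit 159257723176) (.one (nat_lit 8390702) .nil)))),
   .two (nat_lit 117440516) (nat_lit 2416967686) (.two (nat_lit 117440515) (nat_lit 156968681492) (.two (nat_lit 9765388289) (nat_lit 251658646) (.one (nat_lit 16779312) .nil))),
   .two (nat_lit 28086108164) (nat_lit 21208498190) (.two (nat_lit 2097153) (nat_lit 46507491415) (.two (nat_lit 1048576) (nat_lit 2097724) (.one (nat_lit 183846831341) .nil))),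
   .two (nat_lit 41943044) (nat_lit 18928893956) (.two (nat_lit 8388610) (nat_lit 183949590538) (.two (nat_lit 37748737) (nat_lit 184993972289) (.two (nat_lit 1048576) (nat_lit 12117344560) (.one (nat_lit 4196402) .nil)))),
   .two (nat_lit 16777220) (nat_lit 12050235414) (.two (nat_lit 37748737) (nat_lit 12047089690) (.two (nat_lit 4194304) (nat_lit 2416968092) (.one (nat_lit 1050675) .nil))),
   .two (nat_lit 8388612) (nat_lit 9948889093) (.two (nat_lit 620756995) (nat_lit 10007609412) (.one (nat_lit 8390145) .nil)),
   .two (nat_lit 83886084) (nat_lit 21811429381) (.two (nat_lit 721420290) (nat_lit 1309671477) (.two (nat_lit 8388608) (nat_lit 28790752700) .nil)),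
   .two (nat_lit 183848927236) (nat_lit 16777221) (.two (nat_lit 285212675) (nat_lit 306184372) (.one (nat_lit 13237224866) .nil)),
   .two (nat_lit 46980399108) (nat_lit 21778923527) (.two (nat_lit 19597885443) (nat_lit 2923429930) (.two (nat_lit 2097152) (nat_lit 71303462) (.one (nat_lit 16778754) .nil))),
   .two (nat_lit 117440516) (nat_lit 184416206856) (.two (nat_lit 34603009) (nat_lit 19142803494) (.two (nat_lit 8388608) (nat_lit 3003121974) (.one (nat_lit 11559503181) .nil))),
   .two (nat_lit 639631364) (nat_lit 156372041733) (.two (nat_lit 2887778306) (nat_lit 156372041742) (.two (nat_lit 2097153) (nat_lit 47555019162) (.one (nat_lit 174692762945) .nil))),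
   .two (nat_lit 46978301956) (nat_lit 2923429894) (.two (nat_lit 2889875459) (nat_lit 4028629018) (.two (nat_lit 4194304) (nat_lit 19597885844) (.one (nat_lit 21778924826) .nil))),
   .two (nat_lit 9934209028) (nat_lit 174752530436) (.two (nat_lit 705691650) (nat_lit 13188988939) (.two (nat_lit 2097153) (nat_lit 10906239061) (.two (nat_lit 8388608) (nat_lit 1376780592) (.one (nat_lit 2099254) .nil)))),
   .two (nat_lit 713031684) (nat_lit 157036838916) (.two (nat_lit 612368387) (nat_lit 236978185) (.two (nat_lit 2097153) (nat_lit 11618222106) (.two (nat_lit 2097152) (nat_lit 174692761782) (.one (nat_lit 4034922362) .nil)))),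
   .two (nat_lit 705691652) (nat_lit 9948889093) (.two (nat_lit 620756995) (nat_lit 1343225864) (.two (nat_lit 34603009) (nat_lit 21793603643) (.two (nat_lit 16777216) (nat_lit 1049150) (.one (nat_lit 1050679) .nil)))),
   .two (nat_lit 276824068) (nat_lit 205520907) (.two (nat_lit 2097153) (nat_lit 9899606074) (.two (nat_lit 8388608) (nat_lit 3557818907) (.one (nat_lit 158649550721) .nil))),
   .two (nat_lit 169869316) (nat_lit 11492392975) (.two (nat_lit 2097153) (nat_lit 352321589) (.two (nat_lit 2097152) (nat_lit 168821104) (.one (nat_lit 3021997866) .nil))),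
   .two (nat_lit 4634705926) (nat_lit 673185798) (.two (nat_lit 10372513795) (nat_lit 165526110228) (.two (nat_lit 606076929) (nat_lit 3560964155) (.two (nat_lit 8388608) (nat_lit 4028629481) (.one (nat_lit 2099257) .nil)))),
   .two (nat_lit 11479810052) (nat_lit 672137222) (.two (nat_lit 218103811) (nat_lit 13191086147) (.two (nat_lit 1048576) (nat_lit 4194720) (.one (nat_lit 889194364) .nil))),
   .two (nat_lit 9881780228) (nat_lit 10436476937) (.two (nat_lit 620756993) (nat_lit 13221494978) (.two (nat_lit 1048576) (nat_lit 2969567511) (.one (nat_lit 183845782848) .nil))),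
   .two (nat_lit 285212676) (nat_lit 165532401674) (.two (nat_lit 8388609) (nat_lit 2969567645) (.one (nat_lit 8390296) .nil)),
   .two (nat_lit 50331652) (nat_lit 46977253388) (.two (nat_lit 16777217) (nat_lit 4028629045) (.two (nat_lit 16777216) (nat_lit 2098031) (.one (nat_lit 2099260) .nil))),
   .two (nat_lit 183853121540) (nat_lit 10942939140) (.two (nat_lit 41943043) (nat_lit 18928894015) (.two (nat_lit 4194304) (nat_lit 166136381819) (.one (nat_lit 13228836125) .nil))),
   .two (nat_lit 272629764) (nat_lit 21785214984) (.two (nat_lit 4194305) (nat_lit 174692761647) (.two (nat_lit 8388608) (nat_lit 1916797204) (.one (nat_lit 46477084282) .nil))),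
   .two (nat_lit 809500676) (nat_lit 2954887180) (.two (nat_lit 4194305) (nat_lit 158144135206) (.two (nat_lit 4194304) (nat_lit 10907287915) (.one (nat_lit 2099261) .nil))),
   .two (nat_lit 50331652) (nat_lit 639631366) (.two (nat_lit 16777218) (nat_lit 159251431437) (.two (nat_lit 16777217) (nat_lit 1310720025) (.two (nat_lit 8388608) (nat_lit 3458203828) (.one (nat_lit 2098692) .nil)))),
   .two (nat_lit 739246084) (nat_lit 165526110212) (.two (nat_lit 9934209027) (nat_lit 12114198536) (.two (nat_lit 9765388289) (nat_lit 4028629028) (.two (nat_lit 1048576) (nat_lit 3021996561) (.one (nat_lit 20637026353) .nil)))),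
   .two (nat_lit 9781116932) (nat_lit 3458203652) (.two (nat_lit 218103811) (nat_lit 11477713008) (.two (nat_lit 2097152) (nat_lit 28806480239) (.one (nat_lit 2098693) .nil))),
   .two (nat_lit 3527409668) (nat_lit 159251431430) (.two (nat_lit 9934209027) (nat_lit 157038936132) (.one (nat_lit 3527410357) .nil)),
   .two (nat_lit 47555018756) (nat_lit 46474985477) (.two (nat_lit 203423747) (nat_lit 3464495131) (.two (nat_lit 2097152) (nat_lit 9806283254) (.one (nat_lit 8390718) .nil))),
   .two (nat_lit 8388612) (nat_lit 28087156744) (.two (nat_lit 50331649) (nat_lit 1210056995) (.one (nat_lit 4034922356) .nil)),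
   .two (nat_lit 9866051588) (nat_lit 19599982600) (.two (nat_lit 605028353) (nat_lit 11479810393) (.one (nat_lit 1050118) .nil)),
   .two (nat_lit 8388612) (nat_lit 158077026308) (.two (nat_lit 11546918915) (nat_lit 8388616) (.two (nat_lit 37748737) (nat_lit 1847590971) (.two (nat_lit 2097152) (nat_lit 158183981425) (.one (nat_lit 158177690980) .nil)))),
   .two (nat_lit 21207449604) (nat_lit 19530776582) (.two (nat_lit 34603011) (nat_lit 2902458381) (.two (nat_lit 2097153) (nat_lit 303038650) (.one (nat_lit 2969569318) .nil))),
   .two (nat_lit 37748740) (nat_lit 1913651204) (.two (nat_lit 4194306) (nat_lit 2987393035) (.two (nat_lit 4194305) (nat_lit 19026411616) (.two (nat_lit 4194304) (nat_lit 1846542705) (.one (nat_lit 166129042717) .nil)))),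
   .two (nat_lit 2969567236) (nat_lit 3525312524) (.two (nat_lit 156372041729) (nat_lit 1279262905) (.one (nat_lit 71304418) .nil)),
   .two (nat_lit 203423748) (nat_lit 156372041732) (.two (nat_lit 2954887171) (nat_lit 46984593417) (.two (nat_lit 2097153) (nat_lit 880803876) (.two (nat_lit 4194304) (nat_lit 159217878459) .nil))),
   .two (nat_lit 166130089988) (nat_lit 37249613830) (.two (nat_lit 50331651) (nat_lit 28758245394) (.two (nat_lit 37748737) (nat_lit 11611930807) (.one (nat_lit 16779330) .nil))),
   .two (nat_lit 205520900) (nat_lit 46414168072) (.two (nat_lit 605028353) (nat_lit 19096666171) (.two (nat_lit 1048576) (nat_lit 1384120646) (.one (nat_lit 3457156253) .nil))),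
   .two (nat_lit 2887778308) (nat_lit 843055109) (.two (nat_lit 809500675) (nat_lit 10940841992) (.two (nat_lit 34603009) (nat_lit 19597885497) (.two (nat_lit 1048576) (nat_lit 46978302298) (.one (nat_lit 2099267) .nil)))),
   .two (nat_lit 739246084) (nat_lit 158083317768) (.two (nat_lit 34603009) (nat_lit 46414168100) (.two (nat_lit 1048576) (nat_lit 47588573713) (.one (nat_lit 4027581765) .nil))),
   .two (nat_lit 612368388) (nat_lit 1191182342) (.two (nat_lit 1191182339) (nat_lit 10007609384) (.two (nat_lit 16777216) (nat_lit 47555019457) .nil)),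
   .two (nat_lit 1779433476) (nat_lit 20738736134) (.two (nat_lit 1277165571) (nat_lit 1779433480) (.two (nat_lit 16777217) (nat_lit 166230753628) (.one (nat_lit 2099268) .nil))),
   .two (nat_lit 3460300804) (nat_lit 184993972229) (.two (nat_lit 713031683) (nat_lit 156367847432) (.two (nat_lit 8388609) (nat_lit 18928894256) (.one (nat_lit 876611576) .nil))),
   .two (nat_lit 165526110212) (nat_lit 9899606022) (.two (nat_lit 739246083) (nat_lit 165526110216) (.two (nat_lit 605028353) (nat_lit 673185828) (.two (nat_lit 1048576) (nat_lit 2097569) (.one (nat_lit 46406829293) .nil)))),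
   .two (nat_lit 11543773188) (nat_lit 19530776580) (.two (nat_lit 705691650) (nat_lit 1847590921) (.two (nat_lit 605028353) (nat_lit 3558866980) (.two (nat_lit 1048576) (nat_lit 874512697) (.one (nat_lit 3458205338) .nil)))),
   .two (nat_lit 276824068) (nat_lit 10552868884) (.two (nat_lit 9765388289) (nat_lit 166237044797) (.two (nat_lit 1048576) (nat_lit 8389184) (.one (nat_lit 1050693) .nil))),
   .two (nat_lit 11543773188) (nat_lit 174753579016) (.two (nat_lit 34603009) (nat_lit 11477712974) (.two (nat_lit 1048576) (nat_lit 174753579274) (.one (nat_lit 672137963) .nil))),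
   .two (nat_lit 739246084) (nat_lit 1191182342) (.two (nat_lit 285212675) (nat_lit 4027580428) (.two (nat_lit 16777217) (nat_lit 10000269361) (.two (nat_lit 4194304) (nat_lit 2936014307) .nil))),
   .two (nat_lit 46414168068) (nat_lit 809500679) (.two (nat_lit 10506731523) (nat_lit 13195280452) (.one (nat_lit 142607059) .nil)),
   .two (nat_lit 2954887172) (nat_lit 1745879046) (.two (nat_lit 9934209027) (nat_lit 2953838603) (.two (nat_lit 16777217) (nat_lit 34603049) (.two (nat_lit 16777216) (nat_lit 19128123697) (.one (nat_lit 2099270) .nil)))),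
   .two (nat_lit 2954887172) (nat_lit 28757196804) (.two (nat_lit 101711875) (nat_lit 159217877000) (.two (nat_lit 16777217) (nat_lit 1948254543) (.one (nat_lit 158144136331) .nil))),
   .two (nat_lit 11559501828) (nat_lit 1178599432) (.two (nat_lit 50331649) (nat_lit 46409973812) (.two (nat_lit 1048576) (nat_lit 675283254) (.one (nat_lit 4196424) .nil))),
   .two (nat_lit 272629764) (nat_lit 1745879044) (.two (nat_lit 4194306) (nat_lit 1283457039) (.two (nat_lit 8388609) (nat_lit 672137521) (.one (nat_lit 1050697) .nil))),
   .two (nat_lit 176160772) (nat_lit 218103818) (.two (nat_lit 16777217) (nat_lit 47555018789) (.two (nat_lit 2097152) (nat_lit 612368690) (.one (nat_lit 19109250726) .nil))),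
   .two (nat_lit 41943044) (nat_lit 3527409668) (.two (nat_lit 2889875458) (nat_lit 13195280421) (.two (nat_lit 4194304) (nat_lit 13195280660) (.one (nat_lit 11614028523) .nil))),
   .two (nat_lit 2887778308) (nat_lit 158653743114) (.two (nat_lit 9765388289) (nat_lit 156533522485) (.two (nat_lit 1048576) (nat_lit 2098035) (.one (nat_lit 1050699) .nil))),
   .two (nat_lit 16777220) (nat_lit 11517558790) (.two (nat_lit 184549378) (nat_lit 19530776584) (.two (nat_lit 8388609) (nat_lit 3003122013) (.one (nat_lit 16779341) .nil))),
   .two (nat_lit 16777220) (nat_lit 2889875464) (.two (nat_lit 16777217) (nat_lit 1212154234) (.one (nat_lit 10338960676) .nil)),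
   .two (nat_lit 4601151492) (nat_lit 28690087942) (.two (nat_lit 9765388291) (nat_lit 4601151496) (.two (nat_lit 8388609) (nat_lit 21777875123) (.one (nat_lit 1050120) .nil))),
   .two (nat_lit 1343225860) (nat_lit 11517558790) (.two (nat_lit 176160771) (nat_lit 46473936907) (.two (nat_lit 2097153) (nat_lit 4605345851) (.two (nat_lit 8388608) (nat_lit 13221495153) (.one (nat_lit 13228836196) .nil)))),
   .two (nat_lit 13191086084) (nat_lit 156533522452) (.two (nat_lit 4194305) (nat_lit 2988441625) (.two (nat_lit 8388608) (nat_lit 840959248) .nil)),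
   .two (nat_lit 9768534020) (nat_lit 9948889094) (.two (nat_lit 9948889091) (nat_lit 9768534024) (.two (nat_lit 620756993) (nat_lit 183848927284) (.two (nat_lit 16777216) (nat_lit 809501032) (.one (nat_lit 4196430) .nil)))),
   .two (nat_lit 12117344260) (nat_lit 20704133125) (.two (nat_lit 9866051587) (nat_lit 12117344264) (.two (nat_lit 34603009) (nat_lit 3024093690) (.one (nat_lit 20640171250) .nil))),
   .two (nat_lit 11543773188) (nat_lit 1849688073) (.two (nat_lit 34603009) (nat_lit 272630127) (.one (nat_lit 269485727) .nil)),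
   .two (nat_lit 41943044) (nat_lit 10503585804) (.two (nat_lit 8388609) (nat_lit 46474985525) (.two (nat_lit 8388608) (nat_lit 2098036) (.one (nat_lit 2099280) .nil))),
   .two (nat_lit 176160772) (nat_lit 28758245381) (.two (nat_lit 176160770) (nat_lit 1176502293) (.two (nat_lit 2097153) (nat_lit 184993972490) (.one (nat_lit 8390737) .nil))),
   .two (nat_lit 50331652) (nat_lit 19027460102) (.two (nat_lit 34603011) (nat_lit 822083592) (.two (nat_lit 2097153) (nat_lit 37313577019) (.two (nat_lit 16777216) (nat_lit 2097570) (.one (nat_lit 13222544662) .nil)))),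
   .two (nat_lit 272629764) (nat_lit 3525312516) (.two (nat_lit 4194306) (nat_lit 166230753301) (.two (nat_lit 2097153) (nat_lit 1283457069) (.two (nat_lit 8388608) (nat_lit 2097571) (.one (nat_lit 2954888509) .nil)))),
   .two (nat_lit 4194308) (nat_lit 654311428) (.two (nat_lit 4194306) (nat_lit 2349858874) (.two (nat_lit 2097152) (nat_lit 13187940872) (.one (nat_lit 1050706) .nil))),
   .two (nat_lit 3458203652) (nat_lit 13195280388) (.two (nat_lit 8388610) (nat_lit 1948254391) (.one (nat_lit 2099283) .nil)),
   .two (nat_lit 37748740) (nat_lit 2349858826) (.two (nat_lit 2097153) (nat_lit 843055189) (.two (nat_lit 4194304) (nat_lit 2098037) (.one (nat_lit 2099284) .nil))),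
   .two (nat_lit 3525312516) (nat_lit 46409973768) (.two (nat_lit 4194305) (nat_lit 236978212) (.two (nat_lit 4194304) (nat_lit 35651897) (.one (nat_lit 69207979) .nil))),
   .two (nat_lit 705691652) (nat_lit 13195280388) (.two (nat_lit 8388610) (nat_lit 21777874952) (.two (nat_lit 2097153) (nat_lit 20737687608) (.two (nat_lit 2097152) (nat_lit 12147753264) (.one (nat_lit 28758246889) .nil)))),
   .two (nat_lit 1178599428) (nat_lit 166130089992) (.two (nat_lit 37748737) (nat_lit 28087156793) (.two (nat_lit 16777216) (nat_lit 4599054704) (.one (nat_lit 2099286) .nil))),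
   .two (nat_lit 12054429700) (nat_lit 10338959368) (.two (nat_lit 4194305) (nat_lit 11511267658) (.one (nat_lit 19094570164) .nil)),
   .two (nat_lit 101711876) (nat_lit 9799991301) (.two (nat_lit 16777218) (nat_lit 11476664328) (.two (nat_lit 16777217) (nat_lit 1846542393) (.two (nat_lit 16777216) (nat_lit 174752530724) (.one (nat_lit 1050711) .nil)))),
   .two (nat_lit 612368388) (nat_lit 9948889096) (.two (nat_lit 16777217) (nat_lit 10343154071) (.one (nat_lit 159257724681) .nil)),
   .two (nat_lit 2902458372) (nat_lit 19532873793) (.two (nat_lit 2097152) (nat_lit 156984410414) (.one (nat_lit 4196440) .nil)),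
   .two (nat_lit 169869316) (nat_lit 10343153672) (.two (nat_lit 2097153) (nat_lit 21793603766) (.one (nat_lit 8390745) .nil)),
   .two (nat_lit 19530776580) (nat_lit 183949590534) (.two (nat_lit 11479810051) (nat_lit 19530776584) (.two (nat_lit 4194305) (nat_lit 236978450) (.one (nat_lit 47582283046) .nil))),
   .two (nat_lit 183848927236) (nat_lit 184423546884) (.two (nat_lit 809500675) (nat_lit 156976021525) (.two (nat_lit 41943041) (nat_lit 174688567363) (.two (nat_lit 2097152) (nat_lit 1916797247) (.one (nat_lit 8390746) .nil)))),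
   .two (nat_lit 203423748) (nat_lit 1178599428) (.two (nat_lit 809500675) (nat_lit 166130089999) (.two (nat_lit 37748737) (nat_lit 2887778357) (.two (nat_lit 4194304) (nat_lit 840958265) (.one (nat_lit 28089255151) .nil)))),
   .two (nat_lit 8388612) (nat_lit 843055109) (.two (nat_lit 8388610) (nat_lit 13224640525) (.two (nat_lit 8388609) (nat_lit 174755676214) (.two (nat_lit 16777216) (nat_lit 4634706268) (.one (nat_lit 4196443) .nil)))),
   .two (nat_lit 9940500484) (nat_lit 184986632200) (.two (nat_lit 8388609) (nat_lit 12114198585) (.two (nat_lit 8388608) (nat_lit 28690088228) (.one (nat_lit 1050718) .nil))),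
   .two (nat_lit 612368388) (nat_lit 2349858837) (.two (nat_lit 16777217) (nat_lit 10537140268) (.two (nat_lit 16777216) (nat_lit 28093448545) (.one (nat_lit 8390751) .nil))),
   .two (nat_lit 11479810052) (nat_lit 2954887180) (.two (nat_lit 37748737) (nat_lit 1176502327) (.two (nat_lit 4194304) (nat_lit 37314625933) (.one (nat_lit 2099296) .nil))),
   .two (nat_lit 176160772) (nat_lit 303038471) (.two (nat_lit 285212675) (nat_lit 46507491442) (.two (nat_lit 16777216) (nat_lit 4605346328) (.one (nat_lit 11543775250) .nil))),
   .two (nat_lit 272629764) (nat_lit 873463819) (.two (nat_lit 37748737) (nat_lit 336593217) (.one (nat_lit 1050721) .nil)),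
   .two (nat_lit 176160772) (nat_lit 117440517) (.two (nat_lit 1191182339) (nat_lit 75497499) (.two (nat_lit 16777216) (nat_lit 1417675085) (.one (nat_lit 75498904) .nil))),
   .two (nat_lit 2969567236) (nat_lit 34603021) (.two (nat_lit 2097153) (nat_lit 1309671450) (.two (nat_lit 2097152) (nat_lit 19109249206) (.one (nat_lit 10452207385) .nil))),
   .two (nat_lit 46409973764) (nat_lit 269484039) (.two (nat_lit 8388611) (nat_lit 19596836930) (.two (nat_lit 8388608) (nat_lit 641729056) (.one (nat_lit 4196450) .nil))),
   .two (nat_lit 75497476) (nat_lit 11010048010) (.two (nat_lit 41943041) (nat_lit 708837710) (.one (nat_lit 1346373273) .nil)),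
   .two (nat_lit 8388612) (nat_lit 10336862214) (.two (nat_lit 176160770) (nat_lit 10370416648) (.two (nat_lit 8388609) (nat_lit 2350907448) (.two (nat_lit 16777216) (nat_lit 41943108) (.one (nat_lit 2099299) .nil)))),
   .two (nat_lit 169869316) (nat_lit 10506731524) (.two (nat_lit 809500675) (nat_lit 21777874961) (.two (nat_lit 34603009) (nat_lit 2317353016) (.two (nat_lit 1048576) (nat_lit 4634706224) (.one (nat_lit 235930781) .nil)))),
   .two (nat_lit 12114198532) (nat_lit 158077026308) (.two (nat_lit 69206019) (nat_lit 166129041417) (.two (nat_lit 37748737) (nat_lit 11578376492) (.one (nat_lit 13221496715) .nil))),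
   .two (nat_lit 620756996) (nat_lit 3458203652) (.two (nat_lit 2969567235) (nat_lit 47548727311) (.two (nat_lit 2097153) (nat_lit 184431935905) (.one (nat_lit 20738737557) .nil))),
   .two (nat_lit 620756996) (nat_lit 1175453704) (.two (nat_lit 8388609) (nat_lit 12163481786) (.one (nat_lit 20640171131) .nil)),
   .two (nat_lit 1358954500) (nat_lit 2886729735) (.two (nat_lit 2097155) (nat_lit 166132187159) (.two (nat_lit 16777217) (nat_lit 21208498234) (.two (nat_lit 1048576) (nat_lit 10540286135) (.one (nat_lit 809501996) .nil)))),
   .two (nat_lit 705691652) (nat_lit 158083317769) (.two (nat_lit 2097153) (nat_lit 336593196) (.one (nat_lit 1050726) .nil)),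
   .two (nat_lit 721420292) (nat_lit 28690087944) (.two (nat_lit 50331649) (nat_lit 19093520411) (.two (nat_lit 16777216) (nat_lit 166229704885) (.one (nat_lit 1050727) .nil))),
   .two (nat_lit 1779433476) (nat_lit 12117344260) (.two (nat_lit 11479810050) (nat_lit 1779433480) (.two (nat_lit 605028353) (nat_lit 158146232368) (.two (nat_lit 16777216) (nat_lit 3460301110) (.one (nat_lit 4195852) .nil)))),
   .two (nat_lit 13191086084) (nat_lit 10504634376) (.two (nat_lit 4194305) (nat_lit 46474986173) .nil),
   .two (nat_lit 754974724) (nat_lit 46409973768) (.two (nat_lit 4194305) (nat_lit 12129927577) (.one (nat_lit 156481094398) .nil)),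
   .two (nat_lit 612368388) (nat_lit 839909403) (.two (nat_lit 16777216) (nat_lit 4631560540) (.one (nat_lit 8390761) .nil)),
   .two (nat_lit 16777220) (nat_lit 9768534024) (.two (nat_lit 16777217) (nat_lit 158079123517) (.two (nat_lit 1048576) (nat_lit 46980399408) (.one (nat_lit 1050731) .nil))),
   .two (nat_lit 218103812) (nat_lit 1343225862) (.two (nat_lit 2969567235) (nat_lit 19093520413) (.two (nat_lit 16777217) (nat_lit 1376780333) (.two (nat_lit 4194304) (nat_lit 20652754245) .nil))),
   .two (nat_lit 46407876612) (nat_lit 28089253910) (.two (nat_lit 9768534017) (nat_lit 12617515420) (.one (nat_lit 1050732) .nil)),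
   .two (nat_lit 16777220) (nat_lit 1276117000) (.two (nat_lit 2097153) (nat_lit 19130220624) (.two (nat_lit 4194304) (nat_lit 639631752) (.one (nat_lit 2099309) .nil))),
   .two (nat_lit 184993972228) (nat_lit 1947205638) (.two (nat_lit 1343225859) (nat_lit 713031688) (.two (nat_lit 605028353) (nat_lit 8388944) (.one (nat_lit 2357200178) .nil))),
   .two (nat_lit 4601151492) (nat_lit 10907287558) (.two (nat_lit 3525312515) (nat_lit 46409973787) (.two (nat_lit 4194304) (nat_lit 10370417000) (.one (nat_lit 2921333537) .nil))),
   .two (nat_lit 184993972228) (nat_lit 19026411530) (.two (nat_lit 9765388289) (nat_lit 1417674788) (.two (nat_lit 1048576) (nat_lit 10007609610) (.one (nat_lit 8390766) .nil))),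
   .two (nat_lit 4194308) (nat_lit 1176502278) (.two (nat_lit 4194306) (nat_lit 28086108214) (.two (nat_lit 4194304) (nat_lit 166196150777) (.one (nat_lit 4196463) .nil))),
   .two (nat_lit 20644364292) (nat_lit 19596836868) (.two (nat_lit 183845781506) (nat_lit 20644364314) (.two (nat_lit 1048576) (nat_lit 4034920778) (.one (nat_lit 46414170030) .nil))),
   .two (nat_lit 9934209028) (nat_lit 174752530440) (.two (nat_lit 2097153) (nat_lit 10906239061) (.two (nat_lit 16777216) (nat_lit 706741597) .nil)),
   .two (nat_lit 8388612) (nat_lit 1210056716) (.two (nat_lit 2097153) (nat_lit 166136381532) (.two (nat_lit 16777216) (nat_lit 46508541138) .nil)),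
   .two (nat_lit 11543773188) (nat_lit 1780482052) (.two (nat_lit 705691650) (nat_lit 166130089992) (.two (nat_lit 41943041) (nat_lit 46977253423) (.two (nat_lit 8388608) (nat_lit 9966716421) .nil))),
   .two (nat_lit 9881780228) (nat_lit 3458203656) (.two (nat_lit 8388609) (nat_lit 10336862387) (.one (nat_lit 2099312) .nil)),
   .two (nat_lit 272629764) (nat_lit 10939793412) (.two (nat_lit 4194306) (nat_lit 19026411529) (.two (nat_lit 37748737) (nat_lit 158176641060) (.two (nat_lit 1048576) (nat_lit 158146232504) (.one (nat_lit 1050737) .nil)))),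
   .two (nat_lit 1276116996) (nat_lit 28087156740) (.two (nat_lit 708837379) (nat_lit 101711880) (.two (nat_lit 2097153) (nat_lit 4601151551) (.two (nat_lit 16777216) (nat_lit 11611930972) (.one (nat_lit 4196466) .nil)))),
   .two (nat_lit 2969567236) (nat_lit 174686470154) (.two (nat_lit 9766436865) (nat_lit 16777495) (.one (nat_lit 16779379) .nil)),
   .two (nat_lit 4194308) (nat_lit 713031686) (.two (nat_lit 713031683) (nat_lit 272629769) (.two (nat_lit 8388609) (nat_lit 3460301175) (.one (nat_lit 10370418318) .nil))),
   .two (nat_lit 101711876) (nat_lit 10909384710) (.two (nat_lit 16777219) (nat_lit 9866051622) (.two (nat_lit 16777216) (nat_lit 705692011) (.one (nat_lit 4196468) .nil))),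
   .two (nat_lit 16777220) (nat_lit 19532873738) (.two (nat_lit 4194305) (nat_lit 1962934627) (.one (nat_lit 3036677859) .nil)),
   .two (nat_lit 176160772) (nat_lit 13187940357) (.two (nat_lit 8388611) (nat_lit 185020186687) (.two (nat_lit 2097152) (nat_lit 3524264315) (.one (nat_lit 1050742) .nil))),
   .two (nat_lit 813694980) (nat_lit 11479810067) (.two (nat_lit 37748737) (nat_lit 47555018790) (.two (nat_lit 2097152) (nat_lit 158183981403) (.one (nat_lit 2923431799) .nil))),
   .two (nat_lit 12114198532) (nat_lit 158077026312) (.two (nat_lit 37748737) (nat_lit 1344274723) (.one (nat_lit 1050743) .nil)),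
   .two (nat_lit 11551113220) (nat_lit 183848927240) (.two (nat_lit 9766436865) (nat_lit 10909385015) (.one (nat_lit 2956986335) .nil)),
   .two (nat_lit 4601151492) (nat_lit 2418016263) (.two (nat_lit 1176502275) (nat_lit 2923429915) (.two (nat_lit 8388608) (nat_lit 158146232502) (.one (nat_lit 2099320) .nil))),
   .two (nat_lit 8388612) (nat_lit 21777874952) (.two (nat_lit 4194305) (nat_lit 174685421619) (.two (nat_lit 4194304) (nat_lit 158183981391) (.one (nat_lit 8390162) .nil))),
   .two (nat_lit 165532401668) (nat_lit 1846542392) (.two (nat_lit 8388608) (nat_lit 1049473) (.one (nat_lit 10369369302) .nil)),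
   .two (nat_lit 13191086084) (nat_lit 158083317764) (.two (nat_lit 21785214979) (nat_lit 13191086088) (.two (nat_lit 612368385) (nat_lit 13224640552) (.two (nat_lit 8388608) (nat_lit 19130222075) .nil))),
   .two (nat_lit 8388612) (nat_lit 10942939146) (.two (nat_lit 41943041) (nat_lit 306184386) (.two (nat_lit 4194304) (nat_lit 1753219338) (.one (nat_lit 4195572) .nil))),
   .two (nat_lit 8388612) (nat_lit 158077026330) (.two (nat_lit 16777216) (nat_lit 184417255963) (.one (nat_lit 2099321) .nil)),
   .two (nat_lit 10336862212) (nat_lit 9802088454) (.two (nat_lit 46407876610) (nat_lit 18928893960) (.two (nat_lit 2097153) (nat_lit 166232850478) (.two (nat_lit 8388608) (nat_lit 339739392) .nil))),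
   .two (nat_lit 276824068) (nat_lit 174753579012) (.two (nat_lit 2097155) (nat_lit 343932937) (.two (nat_lit 2097153) (nat_lit 806355052) (.two (nat_lit 8388608) (nat_lit 4028629311) (.one (nat_lit 8389942) .nil)))),
   .two (nat_lit 4194308) (nat_lit 10504634376) (.two (nat_lit 4194305) (nat_lit 12047089727) (.two (nat_lit 4194304) (nat_lit 28690088331) (.one (nat_lit 4196475) .nil))),
   .two (nat_lit 46414168068) (nat_lit 10336862212) (.two (nat_lit 4605345795) (nat_lit 9799991306) (.two (nat_lit 2097153) (nat_lit 4034920533) (.two (nat_lit 2097152) (nat_lit 8389507) (.one (nat_lit 2098630) .nil)))),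
   .two (nat_lit 705691652) (nat_lit 12117344264) (.two (nat_lit 2097153) (nat_lit 1749025147) (.one (nat_lit 18928896026) .nil)),
   .two (nat_lit 176160772) (nat_lit 1745879044) (.two (nat_lit 176160770) (nat_lit 9933160459) (.two (nat_lit 34603009) (nat_lit 3028287513) (.two (nat_lit 8388608) (nat_lit 19529728314) (.one (nat_lit 1050749) .nil)))),
   .two (nat_lit 135266309) (nat_lit 10940841998) (.two (nat_lit 9765388289) (nat_lit 673185971) (.one (nat_lit 2099326) .nil)),
   .two (nat_lit 8388612) (nat_lit 876609547) (.two (nat_lit 4194305) (nat_lit 159224168484) (.two (nat_lit 16777216) (nat_lit 780140849) (.one (nat_lit 20644366406) .nil))),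
   .two (nat_lit 9948889092) (nat_lit 1384120326) (.two (nat_lit 184549379) (nat_lit 608174126) (.two (nat_lit 8388608) (nat_lit 876609886) (.one (nat_lit 4196479) .nil))),
   .two (nat_lit 8388612) (nat_lit 1916796936) (.two (nat_lit 8388610) (nat_lit 174688567410) (.two (nat_lit 37748737) (nat_lit 11618222774) (.one (nat_lit 8391041) .nil))),
   .two (nat_lit 721420292) (nat_lit 1753219080) (.two (nat_lit 28093448195) (nat_lit 754974761) (.two (nat_lit 41943041) (nat_lit 3003122378) (.one (nat_lit 16779650) .nil))),
   .two (nat_lit 184549380) (nat_lit 10343153672) (.two (nat_lit 46414168066) (nat_lit 2969567274) (.two (nat_lit 8388609) (nat_lit 2969568049) .nil)),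
   .two (nat_lit 754974724) (nat_lit 19532873736) (.two (nat_lit 11492392962) (nat_lit 157038936105) (.two (nat_lit 9768534017) (nat_lit 184550082) (.one (nat_lit 20652755257) .nil))),
   .two (nat_lit 721420292) (nat_lit 1753219080) (.two (nat_lit 183853121538) (nat_lit 9881780268) (.two (nat_lit 41943041) (nat_lit 117441330) .nil)),
   .two (nat_lit 184549380) (nat_lit 18933088264) (.two (nat_lit 183853121538) (nat_lit 184549416) (.two (nat_lit 41943041) (nat_lit 2902458807) (.one (nat_lit 4647290440) .nil))),
   .two (nat_lit 166130089988) (nat_lit 1846542344) (.two (nat_lit 10504634371) (nat_lit 21777874996) (.two (nat_lit 9766436865) (nat_lit 156465365171) (.two (nat_lit 2097152) (nat_lit 873464521) (.one (nat_lit 1376782474) .nil)))),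
   .two (nat_lit 721420292) (nat_lit 12054429704) (.two (nat_lit 184993972227) (nat_lit 11559501850) (.two (nat_lit 41943041) (nat_lit 11559501892) (.two (nat_lit 8388608) (nat_lit 19042140867) (.one (nat_lit 16779651) .nil)))),
   .two (nat_lit 1191182340) (nat_lit 158144135176) (.two (nat_lit 9781116931) (nat_lit 1847590939) (.two (nat_lit 606076929) (nat_lit 117440691) (.two (nat_lit 2097152) (nat_lit 47563408068) (.one (nat_lit 37314627807) .nil)))),
   .two (nat_lit 11492392964) (nat_lit 158144135176) (.two (nat_lit 822083587) (nat_lit 158144135194) (.two (nat_lit 9781116929) (nat_lit 21208498994) .nil)),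
   .two (nat_lit 184423546884) (nat_lit 11479810099) (.two (nat_lit 620756993) (nat_lit 1283457334) (.two (nat_lit 2097152) (nat_lit 641729263) (.one (nat_lit 11010050387) .nil))),
   .two (nat_lit 165525061636) (nat_lit 159253528587) (.two (nat_lit 11546918915) (nat_lit 3539992633) (.two (nat_lit 16777217) (nat_lit 1950351734) (.two (nat_lit 2097152) (nat_lit 16778486) (.one (nat_lit 620759275) .nil)))),
   .two (nat_lit 3458203652) (nat_lit 10939793416) (.two (nat_lit 47548727299) (nat_lit 37313577001) (.two (nat_lit 156365750273) (nat_lit 9899606718) (.one (nat_lit 159250384417) .nil))),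
   .two (nat_lit 1291845636) (nat_lit 12117344264) (.two (nat_lit 9948889091) (nat_lit 184419352603) (.two (nat_lit 9781116929) (nat_lit 19599983409) .nil)),
   .two (nat_lit 9768534020) (nat_lit 9948889096) (.two (nat_lit 184549378) (nat_lit 166132187177) (.two (nat_lit 16777217) (nat_lit 19532874546) .nil)),
   .two (nat_lit 612368388) (nat_lit 1191182344) (.two (nat_lit 11492392962) (nat_lit 3464495148) (.two (nat_lit 50331649) (nat_lit 165532402367) (.one (nat_lit 158183982641) .nil))),
   .two (nat_lit 9768534020) (nat_lit 1291845640) (.two (nat_lit 2889875458) (nat_lit 4647288884) (.two (nat_lit 620756993) (nat_lit 158179787144) (.two (nat_lit 2097152) (nat_lit 166144771623) .nil))),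
   .two (nat_lit 1291845636) (nat_lit 157035790351) (.two (nat_lit 713031683) (nat_lit 672137257) (.two (nat_lit 41943041) (nat_lit 687866130) (.two (nat_lit 1048576) (nat_lit 41943828) (.one (nat_lit 1343227437) .nil)))),
   .two (nat_lit 822083588) (nat_lit 3464495112) (.two (nat_lit 16777218) (nat_lit 142606403) (.two (nat_lit 8388609) (nat_lit 20719862101) (.two (nat_lit 1048576) (nat_lit 75498260) (.one (nat_lit 3020949025) .nil)))),
   .two (nat_lit 9948889092) (nat_lit 184986632200) (.two (nat_lit 10385096707) (nat_lit 158075977755) (.two (nat_lit 612368385) (nat_lit 19109249465) (.one (nat_lit 638584961) .nil))),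
   .two (nat_lit 742391812) (nat_lit 157043130421) (.two (nat_lit 8388609) (nat_lit 183916036164) (.two (nat_lit 2097152) (nat_lit 708838114) (.one (nat_lit 13224642701) .nil))),
   .two (nat_lit 4605345796) (nat_lit 28086108168) (.two (nat_lit 8388610) (nat_lit 135266345) (.two (nat_lit 41943041) (nat_lit 34603193) (.two (nat_lit 8388608) (nat_lit 1049847) (.one (nat_lit 1051012) .nil)))),
   .two (nat_lit 169869316) (nat_lit 50331656) (.two (nat_lit 2097155) (nat_lit 183928619063) (.two (nat_lit 2097153) (nat_lit 21223178590) (.two (nat_lit 1048576) (nat_lit 21812478704) (.one (nat_lit 16779653) .nil)))),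
   .two (nat_lit 2902458372) (nat_lit 174753579016) (.two (nat_lit 218103811) (nat_lit 4632608814) (.two (nat_lit 606076929) (nat_lit 822083652) (.two (nat_lit 2097152) (nat_lit 20753416915) (.one (nat_lit 16779406) .nil)))),
   .two (nat_lit 620756996) (nat_lit 46978301960) (.two (nat_lit 184549378) (nat_lit 1277165620) (.two (nat_lit 2097153) (nat_lit 2365588172) (.one (nat_lit 2098727) .nil))),
   .two (nat_lit 16777220) (nat_lit 158647451675) (.two (nat_lit 16777217) (nat_lit 174753579076) (.two (nat_lit 2097152) (nat_lit 16778488) (.one (nat_lit 13222544948) .nil))),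
   .two (nat_lit 721420292) (nat_lit 183853121544) (.two (nat_lit 50331651) (nat_lit 2994733108) (.two (nat_lit 41943041) (nat_lit 159232557808) (.one (nat_lit 746587687) .nil))),
   .two (nat_lit 1175453700) (nat_lit 2902458376) (.two (nat_lit 3531603971) (nat_lit 47563407419) (.two (nat_lit 620756993) (nat_lit 1913651268) (.two (nat_lit 4194304) (nat_lit 12054431264) .nil))),
   .two (nat_lit 1291845636) (nat_lit 1846542344) (.two (nat_lit 117440515) (nat_lit 166196150299) (.two (nat_lit 9765388289) (nat_lit 654311492) (.two (nat_lit 1048576) (nat_lit 46422557379) (.one (nat_lit 21223180435) .nil)))),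
   .two (nat_lit 183845781508) (nat_lit 1178599436) (.two (nat_lit 2097155) (nat_lit 10519314480) (.two (nat_lit 2097153) (nat_lit 1913651501) (.two (nat_lit 2097152) (nat_lit 183928619806) (.one (nat_lit 16779654) .nil)))),
   .two (nat_lit 13203668996) (nat_lit 37249613851) (.two (nat_lit 16777217) (nat_lit 11611930976) (.two (nat_lit 2097152) (nat_lit 9936306974) (.one (nat_lit 2099591) .nil))),
   .two (nat_lit 10343153669) (nat_lit 620757000) (.two (nat_lit 156372041731) (nat_lit 620757032) (.two (nat_lit 41943041) (nat_lit 9948889905) .nil)),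
   .two (nat_lit 166130089988) (nat_lit 1846542344) (.two (nat_lit 10504634371) (nat_lit 46406828083) (.two (nat_lit 9766436865) (nat_lit 2987393362) (.two (nat_lit 2097152) (nat_lit 873464521) (.one (nat_lit 19093522630) .nil)))),
   .two (nat_lit 20638072836) (nat_lit 10506731535) (.two (nat_lit 159217876995) (nat_lit 2353004597) (.two (nat_lit 156365750273) (nat_lit 28760342714) (.two (nat_lit 2097152) (nat_lit 4195577) (.one (nat_lit 184987683195) .nil)))),
   .two (nat_lit 183949590534) (nat_lit 236978186) (.two (nat_lit 11479810051) (nat_lit 10907287596) (.two (nat_lit 4194305) (nat_lit 9967764159) (.one (nat_lit 270534193) .nil))),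
   .two (nat_lit 4194308) (nat_lit 156365750280) (.two (nat_lit 16777218) (nat_lit 168820916) (.two (nat_lit 16777216) (nat_lit 10436477700) (.one (nat_lit 12117346440) .nil))),
   .two (nat_lit 8388612) (nat_lit 10336862225) (.two (nat_lit 8388610) (nat_lit 4028629051) (.two (nat_lit 2097153) (nat_lit 9906946348) (.two (nat_lit 1048576) (nat_lit 174692762327) (.one (nat_lit 1317013022) .nil)))),
   .two (nat_lit 158158815236) (nat_lit 1846542344) (.two (nat_lit 184416206851) (nat_lit 20753416230) (.two (nat_lit 9765388289) (nat_lit 18941477226) (.two (nat_lit 4194304) (nat_lit 2432697063) (.one (nat_lit 1051016) .nil)))),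
   .two (nat_lit 822083588) (nat_lit 1849688072) (.two (nat_lit 9873391619) (nat_lit 10351542333) (.two (nat_lit 9766436865) (nat_lit 13228835535) (.one (nat_lit 19027462274) .nil))),
   .two (nat_lit 11559501828) (nat_lit 156533522442) (.two (nat_lit 721420290) (nat_lit 19027460137) (.two (nat_lit 50331649) (nat_lit 9766437045) (.two (nat_lit 16777216) (nat_lit 1847591610) (.one (nat_lit 157036841094) .nil)))),
   .two (nat_lit 721420292) (nat_lit 28086108183) (.two (nat_lit 721420290) (nat_lit 46510637109) (.two (nat_lit 34603009) (nat_lit 10439622959) (.two (nat_lit 1048576) (nat_lit 1178600212) (.one (nat_lit 739247661) .nil)))),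
   .two (nat_lit 11492392964) (nat_lit 746586125) (.two (nat_lit 69206019) (nat_lit 184423546922) (.two (nat_lit 37748737) (nat_lit 184423547319) (.one (nat_lit 3036677662) .nil))),
   .two (nat_lit 37748740) (nat_lit 19529728016) (.two (nat_lit 809500675) (nat_lit 47555018810) (.two (nat_lit 606076929) (nat_lit 2923430069) (.two (nat_lit 2097152) (nat_lit 19529729149) (.one (nat_lit 174685423764) .nil)))),
   .two (nat_lit 183845781508) (nat_lit 156367847432) (.two (nat_lit 708837379) (nat_lit 10537140270) (.two (nat_lit 2097153) (nat_lit 101712599) (.one (nat_lit 12048140575) .nil))),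
   .two (nat_lit 809500676) (nat_lit 11559501832) (.two (nat_lit 4194306) (nat_lit 46523220020) (.two (nat_lit 50331649) (nat_lit 158146233066) (.one (nat_lit 11525948967) .nil))),
   .two (nat_lit 83886084) (nat_lit 19029557289) (.two (nat_lit 4194305) (nat_lit 12121538861) (.two (nat_lit 8388608) (nat_lit 1413482036) .nil)),
   .two (nat_lit 620756996) (nat_lit 8388630) (.two (nat_lit 2902458370) (nat_lit 166196150328) (.two (nat_lit 8388609) (nat_lit 269484217) (.two (nat_lit 8388608) (nat_lit 9869198025) (.one (nat_lit 239077526) .nil)))),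
   .two (nat_lit 12050235396) (nat_lit 1753219080) (.two (nat_lit 612368387) (nat_lit 158647451690) (.two (nat_lit 37748737) (nat_lit 813695286) (.two (nat_lit 4194304) (nat_lit 13228835538) (.one (nat_lit 37750321) .nil)))),
   .two (nat_lit 2889875460) (nat_lit 9766436872) (.two (nat_lit 2954887171) (nat_lit 156468510773) (.two (nat_lit 2097153) (nat_lit 12050235710) (.two (nat_lit 2097152) (nat_lit 19537068759) (.one (nat_lit 4196745) .nil)))),
   .two (nat_lit 9940500484) (nat_lit 1291845640) (.two (nat_lit 1283457027) (nat_lit 21793603639) (.two (nat_lit 8388609) (nat_lit 71303350) (.two (nat_lit 4194304) (nat_lit 18941477595) (.one (nat_lit 16779658) .nil)))),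
   .two (nat_lit 218103812) (nat_lit 12114198538) (.two (nat_lit 34603011) (nat_lit 37262196787) (.two (nat_lit 2097153) (nat_lit 158662132006) (.two (nat_lit 2097152) (nat_lit 2332033755) (.one (nat_lit 16779659) .nil)))),
   .two (nat_lit 11479810052) (nat_lit 158176641034) (.two (nat_lit 1343225859) (nat_lit 19130220584) (.two (nat_lit 605028353) (nat_lit 165528207542) (.two (nat_lit 1048576) (nat_lit 158146233119) (.one (nat_lit 4196748) .nil)))),
   .two (nat_lit 2969567236) (nat_lit 11479810064) (.two (nat_lit 184549378) (nat_lit 641728570) (.two (nat_lit 37748737) (nat_lit 47596961860) (.two (nat_lit 1048576) (nat_lit 18941478452) .nil))),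
   .two (nat_lit 606076932) (nat_lit 75497492) (.two (nat_lit 41943043) (nat_lit 775946297) (.two (nat_lit 2097153) (nat_lit 19130220867) (.two (nat_lit 8388608) (nat_lit 12050236114) (.one (nat_lit 773850655) .nil)))),
   .two (nat_lit 2902458372) (nat_lit 20745027597) (.two (nat_lit 16777219) (nat_lit 10537140267) (.two (nat_lit 4194305) (nat_lit 135267073) (.one (nat_lit 10376710296) .nil))),
   .two (nat_lit 9948889092) (nat_lit 166229704724) (.two (nat_lit 8388611) (nat_lit 1346371769) (.two (nat_lit 8388608) (nat_lit 4195578) (.one (nat_lit 21207451922) .nil))),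
   .two (nat_lit 742391812) (nat_lit 754974728) (.two (nat_lit 708837379) (nat_lit 28806479899) (.two (nat_lit 4194305) (nat_lit 606077658) (.one (nat_lit 1277167775) .nil))),
   .two (nat_lit 721420292) (nat_lit 9899606025) (.two (nat_lit 9881780227) (nat_lit 10503585841) (.two (nat_lit 50331649) (nat_lit 159250383223) (.two (nat_lit 1048576) (nat_lit 16778024) (.one (nat_lit 303040791) .nil)))),
   .two (nat_lit 46407876612) (nat_lit 2889875508) (.two (nat_lit 37748737) (nat_lit 46474985855) (.two (nat_lit 1048576) (nat_lit 13224641261) (.one (nat_lit 4196749) .nil))),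
   .two (nat_lit 754974724) (nat_lit 12117344269) (.two (nat_lit 721420291) (nat_lit 2990538806) (.two (nat_lit 16777217) (nat_lit 3560964804) (.one (nat_lit 2990540315) .nil))),
   .two (nat_lit 2902458374) (nat_lit 165532401674) (.two (nat_lit 184549379) (nat_lit 10343153705) (.two (nat_lit 612368385) (nat_lit 654311702) (.two (nat_lit 8388608) (nat_lit 16778491) (.one (nat_lit 16779662) .nil)))),
   .two (nat_lit 1291845636) (nat_lit 174753579016) (.two (nat_lit 9948889091) (nat_lit 9867100260) (.two (nat_lit 2097153) (nat_lit 9881781032) (.one (nat_lit 9881782421) .nil))),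
   .two (nat_lit 158143086596) (nat_lit 19532873738) (.two (nat_lit 1276116994) (nat_lit 3024093231) (.two (nat_lit 605028353) (nat_lit 10003415224) (.two (nat_lit 1048576) (nat_lit 1312817916) (.one (nat_lit 37249616175) .nil)))),
   .two (nat_lit 3539992580) (nat_lit 166130089992) (.two (nat_lit 83886083) (nat_lit 28087156802) (.two (nat_lit 156364701697) (nat_lit 1344274726) (.two (nat_lit 1048576) (nat_lit 706740955) (.one (nat_lit 2099599) .nil)))),
   .two (nat_lit 1913651204) (nat_lit 21208498193) (.two (nat_lit 11476664322) (nat_lit 2317353019) (.two (nat_lit 37748737) (nat_lit 20737688284) (.one (nat_lit 1051024) .nil))),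
   .two (nat_lit 9940500484) (nat_lit 203423752) (.two (nat_lit 1283457027) (nat_lit 46407876663) (.two (nat_lit 9768534017) (nat_lit 18926797094) (.two (nat_lit 4194304) (nat_lit 12048138971) (.one (nat_lit 2099601) .nil)))),
   .two (nat_lit 2961178628) (nat_lit 10338959368) (.two (nat_lit 171966467) (nat_lit 21214789671) (.two (nat_lit 8388609) (nat_lit 184416207580) (.one (nat_lit 158143088780) .nil))),
   .two (nat_lit 2954887172) (nat_lit 47584378893) (.two (nat_lit 8388611) (nat_lit 20707279033) (.two (nat_lit 8388608) (nat_lit 2098428) (.one (nat_lit 4196754) .nil))),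
   .two (nat_lit 2954887172) (nat_lit 20637024264) (.two (nat_lit 203423747) (nat_lit 2886729775) (.two (nat_lit 2097153) (nat_lit 3527409980) (.two (nat_lit 1048576) (nat_lit 19027460862) (.one (nat_lit 2099603) .nil)))),
   .two (nat_lit 184993972228) (nat_lit 19599982600) (.two (nat_lit 12054429699) (nat_lit 12620660762) (.two (nat_lit 34603009) (nat_lit 183916036914) .nil)),
   .two (nat_lit 4605345796) (nat_lit 19532873736) (.two (nat_lit 8388610) (nat_lit 174688567336) (.two (nat_lit 50331649) (nat_lit 1350566198) (.two (nat_lit 4194304) (nat_lit 8389885) (.one (nat_lit 1279264956) .nil)))),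
   .two (nat_lit 11543773188) (nat_lit 19530776584) (.two (nat_lit 705691650) (nat_lit 166130090010) (.two (nat_lit 605028353) (nat_lit 2988442407) (.one (nat_lit 1780484253) .nil))),
   .two (nat_lit 3460300804) (nat_lit 165526110216) (.two (nat_lit 2956984323) (nat_lit 165526110248) (.two (nat_lit 50331649) (nat_lit 20640170306) (.two (nat_lit 1048576) (nat_lit 158077026744) (.one (nat_lit 16779668) .nil)))),
   .two (nat_lit 117440516) (nat_lit 37313576970) (.two (nat_lit 20637024258) (nat_lit 754974762) (.two (nat_lit 605028353) (nat_lit 9781117631) (.one (nat_lit 620759264) .nil))),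
   .two (nat_lit 218103812) (nat_lit 10506731528) (.two (nat_lit 2969567235) (nat_lit 138412079) (.two (nat_lit 4194305) (nat_lit 788529869) (.one (nat_lit 4196757) .nil))),
   .two (nat_lit 285212676) (nat_lit 20644364296) (.two (nat_lit 16777218) (nat_lit 165532401843) (.two (nat_lit 8388608) (nat_lit 28101837516) (.one (nat_lit 11626612289) .nil))),
   .two (nat_lit 8388612) (nat_lit 1210056717) (.two (nat_lit 176160770) (nat_lit 839909419) (.two (nat_lit 16777217) (nat_lit 166196150453) (.two (nat_lit 16777216) (nat_lit 8389887) (.one (nat_lit 183946447102) .nil)))),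
   .two (nat_lit 2889875460) (nat_lit 840957964) (.two (nat_lit 2889875458) (nat_lit 102760497) (.two (nat_lit 606076929) (nat_lit 46510637235) (.two (nat_lit 2097152) (nat_lit 4634706614) (.one (nat_lit 10439625042) .nil)))),
   .two (nat_lit 218103812) (nat_lit 19532873741) (.two (nat_lit 2969567235) (nat_lit 708837430) (.two (nat_lit 4194305) (nat_lit 9948889156) (.two (nat_lit 4194304) (nat_lit 2936013507) (.one (nat_lit 4196759) .nil)))),
   .two (nat_lit 9934209028) (nat_lit 46980399112) (.two (nat_lit 1277165571) (nat_lit 10506731595) (.two (nat_lit 2097153) (nat_lit 156569174713) (.one (nat_lit 158179788955) .nil))),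
   .two (nat_lit 11559501828) (nat_lit 166132187149) (.two (nat_lit 721420290) (nat_lit 2889875512) (.two (nat_lit 4194305) (nat_lit 159232557237) (.two (nat_lit 16777216) (nat_lit 708838089) (.one (nat_lit 37262199057) .nil)))),
   .two (nat_lit 169869316) (nat_lit 612368392) (.two (nat_lit 2097155) (nat_lit 2357198897) (.two (nat_lit 2097153) (nat_lit 184423547611) (.one (nat_lit 8391064) .nil))),
   .two (nat_lit 4194308) (nat_lit 9766436872) (.two (nat_lit 4194306) (nat_lit 13221494811) (.two (nat_lit 4194305) (nat_lit 165525062349) (.one (nat_lit 4196762) .nil))),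
   .two (nat_lit 739246084) (nat_lit 174753579018) (.two (nat_lit 20638072834) (nat_lit 12147753000) (.two (nat_lit 9765388289) (nat_lit 10538189506) (.one (nat_lit 2099611) .nil))),
   .two (nat_lit 620756996) (nat_lit 843055114) (.two (nat_lit 184549378) (nat_lit 11513364521) (.two (nat_lit 16777217) (nat_lit 10540286666) (.one (nat_lit 3527411859) .nil))),
   .two (nat_lit 1178599428) (nat_lit 9881780232) (.two (nat_lit 83886083) (nat_lit 19130220584) (.two (nat_lit 16777217) (nat_lit 165528208160) (.one (nat_lit 28793899228) .nil))),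
   .two (nat_lit 9866051588) (nat_lit 12117344264) (.two (nat_lit 183848927234) (nat_lit 3020947507) (.two (nat_lit 605028353) (nat_lit 205521226) (.two (nat_lit 1048576) (nat_lit 21781021426) (.one (nat_lit 11510220336) .nil)))),
   .two (nat_lit 156533522438) (nat_lit 185020186634) (.two (nat_lit 705691650) (nat_lit 156533522475) (.two (nat_lit 605028353) (nat_lit 10538189240) (.one (nat_lit 2099612) .nil))),
   .two (nat_lit 83886084) (nat_lit 809500680) (.two (nat_lit 620756995) (nat_lit 13224640552) (.two (nat_lit 50331649) (nat_lit 1849688778) (.one (nat_lit 13224642892) .nil))),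
   .two (nat_lit 9934209028) (nat_lit 2923429898) (.two (nat_lit 1277165571) (nat_lit 306184233) (.two (nat_lit 2097153) (nat_lit 13224640952) (.one (nat_lit 4196765) .nil))),
   .two (nat_lit 8388612) (nat_lit 11610882073) (.two (nat_lit 4194305) (nat_lit 1317011642) (.two (nat_lit 4194304) (nat_lit 136315635) (.one (nat_lit 184419355029) .nil))),
   .two (nat_lit 4194308) (nat_lit 4613734409) (.two (nat_lit 4194306) (nat_lit 156364701737) (.two (nat_lit 4194305) (nat_lit 46406828320) (.two (nat_lit 1048576) (nat_lit 20640170690) (.one (nat_lit 1212156067) .nil)))),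
   .two (nat_lit 2889875460) (nat_lit 28758245384) (.two (nat_lit 169869314) (nat_lit 10540286005) (.two (nat_lit 2097153) (nat_lit 156569174084) (.two (nat_lit 2097152) (nat_lit 4195114) (.one (nat_lit 19128124967) .nil)))),
   .two (nat_lit 343932934) (nat_lit 117440520) (.two (nat_lit 8388611) (nat_lit 1191182376) (.two (nat_lit 50331649) (nat_lit 183853122238) (.one (nat_lit 8391070) .nil))),
   .two (nat_lit 41943044) (nat_lit 156968681484) (.two (nat_lit 8388610) (nat_lit 158649548854) (.two (nat_lit 4194305) (nat_lit 21214789941) (.two (nat_lit 4194304) (nat_lit 8389890) (.one (nat_lit 4027581983) .nil)))),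
   .two (nat_lit 2969567236) (nat_lit 20644364296) (.two (nat_lit 184549378) (nat_lit 47555018932) (.two (nat_lit 16777216) (nat_lit 13228835524) (.one (nat_lit 1920992798) .nil))),
   .two (nat_lit 276824068) (nat_lit 285212680) (.two (nat_lit 8388610) (nat_lit 18941476926) (.two (nat_lit 41943041) (nat_lit 156968681651) (.two (nat_lit 8388608) (nat_lit 1049860) (.one (nat_lit 9906947644) .nil)))),
   .two (nat_lit 169869316) (nat_lit 641728520) (.two (nat_lit 4194306) (nat_lit 9765388331) (.two (nat_lit 2097153) (nat_lit 28690088666) (.one (nat_lit 184416208429) .nil))),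
   .two (nat_lit 1358954500) (nat_lit 28757196812) (.two (nat_lit 1291845635) (nat_lit 156466413616) (.two (nat_lit 2097153) (nat_lit 158662132434) (.one (nat_lit 807405805) .nil))),
   .two (nat_lit 50331652) (nat_lit 1846542348) (.two (nat_lit 16777219) (nat_lit 183913938998) (.two (nat_lit 16777217) (nat_lit 159217877172) (.two (nat_lit 1048576) (nat_lit 1277166756) (.one (nat_lit 1846543932) .nil)))),
   .two (nat_lit 37748740) (nat_lit 50331656) (.two (nat_lit 4194306) (nat_lit 12148801582) (.two (nat_lit 4194305) (nat_lit 9867100867) (.one (nat_lit 166230755502) .nil))),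
   .two (nat_lit 16777220) (nat_lit 28757196808) (.two (nat_lit 16777218) (nat_lit 20704133146) (.two (nat_lit 50331649) (nat_lit 3020948255) (.one (nat_lit 156566030493) .nil))),
   .two (nat_lit 285212676) (nat_lit 1753219099) (.two (nat_lit 16777217) (nat_lit 166136381832) (.two (nat_lit 8388608) (nat_lit 318767914) (.one (nat_lit 11022633337) .nil))),
   .two (nat_lit 159217876996) (nat_lit 1913651212) (.two (nat_lit 13187940355) (nat_lit 306184218) (.two (nat_lit 2097153) (nat_lit 158649549508) (.one (nat_lit 165526112619) .nil))),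
   .two (nat_lit 117440516) (nat_lit 156968681480) (.two (nat_lit 19596836867) (nat_lit 822083661) (.two (nat_lit 9765388289) (nat_lit 285213371) (.one (nat_lit 16779680) .nil))),
   .two (nat_lit 2416967685) (nat_lit 3036676108) (.two (nat_lit 1745879043) (nat_lit 10921967662) (.two (nat_lit 605028353) (nat_lit 10552869673) (.one (nat_lit 1929382228) .nil))),
   .two (nat_lit 4194308) (nat_lit 4605345801) (.two (nat_lit 4194306) (nat_lit 2357198908) (.two (nat_lit 37748737) (nat_lit 1309671732) (.two (nat_lit 1048576) (nat_lit 46510637829) (.one (nat_lit 10503587999) .nil)))),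
   .two (nat_lit 620756996) (nat_lit 28757196808) (.two (nat_lit 83886083) (nat_lit 158646403099) (.two (nat_lit 16777217) (nat_lit 3020947848) (.two (nat_lit 16777216) (nat_lit 46473937666) (.one (nat_lit 20719863335) .nil)))),
   .two (nat_lit 11551113220) (nat_lit 20707278859) (.two (nat_lit 713031682) (nat_lit 10439622740) (.two (nat_lit 605028353) (nat_lit 1310720181) (.two (nat_lit 1048576) (nat_lit 2098440) (.one (nat_lit 1310722247) .nil)))),
   .two (nat_lit 75497476) (nat_lit 46409973768) (.two (nat_lit 713031682) (nat_lit 306184233) (.two (nat_lit 41943041) (nat_lit 13224641214) (.one (nat_lit 37316724269) .nil))),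
   .two (nat_lit 83886084) (nat_lit 19596836872) (.two (nat_lit 721420290) (nat_lit 159250382894) (.two (nat_lit 34603009) (nat_lit 2902459061) (.one (nat_lit 11626613069) .nil))),
   .two (nat_lit 21208498180) (nat_lit 156971827210) (.two (nat_lit 20638072834) (nat_lit 1916796972) (.two (nat_lit 606076929) (nat_lit 47550824634) (.two (nat_lit 2097152) (nat_lit 1413481247) (.one (nat_lit 4196769) .nil)))),
   .two (nat_lit 285212676) (nat_lit 157038936072) (.two (nat_lit 16777218) (nat_lit 9902751792) (.two (nat_lit 4194305) (nat_lit 2969567300) (.two (nat_lit 4194304) (nat_lit 158192370387) (.one (nat_lit 104859184) .nil)))),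
   .two (nat_lit 50331652) (nat_lit 11543773193) (.two (nat_lit 806354947) (nat_lit 28089253933) (.two (nat_lit 4194305) (nat_lit 19127075207) (.two (nat_lit 2097152) (nat_lit 4195594) (.one (nat_lit 4196770) .nil)))),
   .two (nat_lit 1753219076) (nat_lit 28690087944) (.two (nat_lit 1913651203) (nat_lit 18933088296) (.two (nat_lit 9765388289) (nat_lit 183853121976) (.one (nat_lit 183853122354) .nil))),
   .two (nat_lit 4194308) (nat_lit 46984593419) (.two (nat_lit 4194306) (nat_lit 9765388331) (.two (nat_lit 2097153) (nat_lit 2953838772) (.two (nat_lit 1048576) (nat_lit 183846831649) .nil))),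
   .two (nat_lit 41943044) (nat_lit 19599982600) (.two (nat_lit 8388610) (nat_lit 156971827227) (.two (nat_lit 156367847425) (nat_lit 2894069946) (.two (nat_lit 4194304) (nat_lit 8389899) (.one (nat_lit 157043132552) .nil)))),
   .two (nat_lit 9881780228) (nat_lit 19530776584) (.two (nat_lit 1291845635) (nat_lit 174686470184) (.two (nat_lit 9766436865) (nat_lit 754975418) (.one (nat_lit 158158816824) .nil))),
   .two (nat_lit 68157444) (nat_lit 612368404) (.two (nat_lit 4194306) (nat_lit 10443817014) (.two (nat_lit 8388609) (nat_lit 239075638) (.two (nat_lit 8388608) (nat_lit 3460301522) (.one (nat_lit 3457157345) .nil)))),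
   .two (nat_lit 1358954500) (nat_lit 12047089672) (.two (nat_lit 1291845635) (nat_lit 10907287579) (.two (nat_lit 2097153) (nat_lit 156481093966) (.two (nat_lit 1048576) (nat_lit 12148802255) (.one (nat_lit 20738738390) .nil)))),
   .two (nat_lit 639631364) (nat_lit 159224168456) (.two (nat_lit 176160770) (nat_lit 37314625631) (.two (nat_lit 2097153) (nat_lit 1417675446) (.one (nat_lit 8391075) .nil))),
   .two (nat_lit 4194308) (nat_lit 75497480) (.two (nat_lit 612368387) (nat_lit 166229704755) (.two (nat_lit 34603009) (nat_lit 10942939890) (.one (nat_lit 1051044) .nil))),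
   .two (nat_lit 606076932) (nat_lit 12047089676) (.two (nat_lit 69206019) (nat_lit 28086108211) (.two (nat_lit 2097153) (nat_lit 19026411895) (.two (nat_lit 8388608) (nat_lit 10439623454) (.one (nat_lit 11513366896) .nil)))),
   .two (nat_lit 9766436868) (nat_lit 9866051594) (.two (nat_lit 34603011) (nat_lit 343932954) (.two (nat_lit 2097153) (nat_lit 3557819141) (.one (nat_lit 2350909611) .nil))),
   .two (nat_lit 276824068) (nat_lit 159217877000) (.two (nat_lit 8388610) (nat_lit 184986632234) (.two (nat_lit 8388609) (nat_lit 10537140518) (.two (nat_lit 8388608) (nat_lit 12148802279) (.one (nat_lit 159250385221) .nil)))),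
   .two (nat_lit 8388612) (nat_lit 2902458376) (.two (nat_lit 285212675) (nat_lit 19033751604) (.two (nat_lit 2097153) (nat_lit 185027526965) (.two (nat_lit 2097152) (nat_lit 3565159149) (.one (nat_lit 8391077) .nil)))),
   .two (nat_lit 10385096710) (nat_lit 612368392) (.two (nat_lit 1191182339) (nat_lit 10007609384) (.two (nat_lit 16777217) (nat_lit 158083318199) (.one (nat_lit 243271863) .nil))),
   .two (nat_lit 47548727300) (nat_lit 19096666124) (.two (nat_lit 184989777923) (nat_lit 11577327641) (.two (nat_lit 37748737) (nat_lit 46507491514) (.two (nat_lit 2097152) (nat_lit 1049875) (.one (nat_lit 10336864635) .nil)))),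
   .two (nat_lit 4194308) (nat_lit 9766436872) (.two (nat_lit 4194306) (nat_lit 9900654775) (.two (nat_lit 4194304) (nat_lit 672138487) (.one (nat_lit 1051046) .nil))),
   .two (nat_lit 8388612) (nat_lit 46409973768) (.two (nat_lit 8388610) (nat_lit 46510637081) (.two (nat_lit 8388609) (nat_lit 239075509) (.two (nat_lit 8388608) (nat_lit 138412740) (.one (nat_lit 165528208937) .nil)))),
   .two (nat_lit 75497476) (nat_lit 158647451658) (.two (nat_lit 612368387) (nat_lit 9766436911) (.two (nat_lit 37748737) (nat_lit 12054430019) (.two (nat_lit 2097152) (nat_lit 1782580373) (.one (nat_lit 184989780122) .nil)))),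
   .two (nat_lit 37748740) (nat_lit 9940500497) (.two (nat_lit 8388611) (nat_lit 11610882073) (.two (nat_lit 4194305) (nat_lit 638583148) (.two (nat_lit 8388608) (nat_lit 2098452) (.one (nat_lit 174759872738) .nil)))),
   .two (nat_lit 2887778308) (nat_lit 156372041738) (.two (nat_lit 270532611) (nat_lit 4605345836) (.two (nat_lit 2097153) (nat_lit 13195280666) (.two (nat_lit 2097152) (nat_lit 8389911) (.one (nat_lit 606079215) .nil)))),
   .two (nat_lit 156569174021) (nat_lit 13195280392) (.two (nat_lit 10506731523) (nat_lit 880803880) (.two (nat_lit 9768534017) (nat_lit 343933368) (.one (nat_lit 343933746) .nil))),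
   .two (nat_lit 16777220) (nat_lit 18933088264) (.two (nat_lit 156372041731) (nat_lit 50331686) (.two (nat_lit 41943041) (nat_lit 285213370) (.one (nat_lit 16779688) .nil))),
   .two (nat_lit 16777220) (nat_lit 46414168089) (.two (nat_lit 8388609) (nat_lit 285212740) (.two (nat_lit 16777216) (nat_lit 2323645167) (.one (nat_lit 2332034612) .nil))),
   .two (nat_lit 285212676) (nat_lit 183853121544) (.two (nat_lit 16777218) (nat_lit 183853121561) (.two (nat_lit 41943041) (nat_lit 4647288900) (.two (nat_lit 1048576) (nat_lit 9873393193) .nil))),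
   .two (nat_lit 169869316) (nat_lit 13195280392) (.two (nat_lit 169869314) (nat_lit 310378534) (.two (nat_lit 8388609) (nat_lit 169869493) (.two (nat_lit 1048576) (nat_lit 11544822532) (.one (nat_lit 10906241196) .nil)))),
   .two (nat_lit 1178599428) (nat_lit 3558866953) (.two (nat_lit 2887778306) (nat_lit 46409973812) (.two (nat_lit 37748737) (nat_lit 12618563987) (.two (nat_lit 4194304) (nat_lit 2098459) (.one (nat_lit 4196778) .nil)))),
   .two (nat_lit 158143086596) (nat_lit 184419352589) (.two (nat_lit 1343225859) (nat_lit 19532873799) (.two (nat_lit 9765388289) (nat_lit 9802088628) (.two (nat_lit 1048576) (nat_lit 4195614) (.one (nat_lit 1950353611) .nil)))),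
   .two (nat_lit 46409973764) (nat_lit 12147752970) (.two (nat_lit 46409973762) (nat_lit 185020186665) (.two (nat_lit 156367847425) (nat_lit 1376780728) (.one (nat_lit 1051051) .nil))),
   .two (nat_lit 285212676) (nat_lit 183848927240) (.two (nat_lit 2902458370) (nat_lit 71303219) (.two (nat_lit 156364701697) (nat_lit 1782579494) (.two (nat_lit 1048576) (nat_lit 11546920485) .nil))),
   .two (nat_lit 13195280390) (nat_lit 47582281738) (.two (nat_lit 13195280387) (nat_lit 20738736172) (.two (nat_lit 41943041) (nat_lit 10538188980) (.two (nat_lit 8388608) (nat_lit 10538189618) .nil))),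
   .two (nat_lit 10385096710) (nat_lit 18928893960) (.two (nat_lit 1191182339) (nat_lit 1212153896) (.two (nat_lit 37748737) (nat_lit 9881780663) (.one (nat_lit 1862272582) .nil))),
   .two (nat_lit 9934209028) (nat_lit 1779433480) (.two (nat_lit 1343225859) (nat_lit 1210056758) (.two (nat_lit 605028353) (nat_lit 158077026485) (.two (nat_lit 1048576) (nat_lit 156969730756) (.one (nat_lit 2099630) .nil)))),
   .two (nat_lit 12114198532) (nat_lit 18933088264) (.two (nat_lit 605028355) (nat_lit 4605345816) (.two (nat_lit 4194305) (nat_lit 1913651639) (.one (nat_lit 10000270889) .nil))),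
   .two (nat_lit 2902458372) (nat_lit 4028629012) (.two (nat_lit 2097155) (nat_lit 285212696) (.two (nat_lit 2097153) (nat_lit 4647288900) (.two (nat_lit 1048576) (nat_lit 69207593) .nil))),
   .two (nat_lit 306184197) (nat_lit 12147752970) (.two (nat_lit 46980399107) (nat_lit 185020186665) (.two (nat_lit 9768534017) (nat_lit 1376780728) (.one (nat_lit 157035792553) .nil))),
   .two (nat_lit 754974724) (nat_lit 28690087944) (.two (nat_lit 721420291) (nat_lit 1350566072) (.two (nat_lit 1048576) (nat_lit 28798091983) (.one (nat_lit 20644366767) .nil))),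
   .two (nat_lit 2416967685) (nat_lit 1795162139) (.two (nat_lit 605028353) (nat_lit 1191183030) (.one (nat_lit 16779698) .nil)),
   .two (nat_lit 620756996) (nat_lit 34603021) (.two (nat_lit 171966467) (nat_lit 19530776635) (.two (nat_lit 4194305) (nat_lit 10537140739) (.two (nat_lit 1048576) (nat_lit 4195619) (.one (nat_lit 156468513056) .nil)))),
   .two (nat_lit 41943044) (nat_lit 3527409672) (.two (nat_lit 8388610) (nat_lit 46510637098) (.two (nat_lit 4194305) (nat_lit 41943108) (.two (nat_lit 2097152) (nat_lit 339740199) .nil))),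
   .two (nat_lit 2887778308) (nat_lit 9768534024) (.two (nat_lit 34603011) (nat_lit 20740833331) (.two (nat_lit 34603009) (nat_lit 2921333054) (.two (nat_lit 1048576) (nat_lit 1212155454) .nil))),
   .two (nat_lit 276824068) (nat_lit 2902458376) (.two (nat_lit 8388610) (nat_lit 46473936991) (.two (nat_lit 8388609) (nat_lit 28690088116) (.two (nat_lit 8388608) (nat_lit 9933161194) (.one (nat_lit 183853123767) .nil)))),
   .two (nat_lit 10007609349) (nat_lit 12114198536) (.two (nat_lit 159224168451) (nat_lit 10335813678) (.two (nat_lit 612368385) (nat_lit 672137398) (.two (nat_lit 8388608) (nat_lit 9966715593) (.one (nat_lit 1051063) .nil)))),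
   .two (nat_lit 218103812) (nat_lit 156971827208) (.two (nat_lit 2902458370) (nat_lit 19532873768) (.two (nat_lit 9768534017) (nat_lit 10385097522) .nil)),
   .two (nat_lit 9940500484) (nat_lit 9881780232) (.two (nat_lit 176160770) (nat_lit 156581756995) (.two (nat_lit 8388609) (nat_lit 37749043) (.two (nat_lit 4194304) (nat_lit 10015998737) (.one (nat_lit 239077815) .nil)))),
   .two (nat_lit 47563407364) (nat_lit 20638072840) (.two (nat_lit 159217876995) (nat_lit 11510218803) (.two (nat_lit 605028353) (nat_lit 3525312807) (.two (nat_lit 1048576) (nat_lit 46407877376) (.one (nat_lit 157051521255) .nil)))),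
   .two (nat_lit 4194308) (nat_lit 10940841992) (.two (nat_lit 4194306) (nat_lit 156365750331) (.two (nat_lit 34603009) (nat_lit 304087334) (.two (nat_lit 1048576) (nat_lit 159253529307) (.one (nat_lit 2099641) .nil)))),
   .two (nat_lit 2902458372) (nat_lit 739246088) (.two (nat_lit 285212675) (nat_lit 183912890410) (.two (nat_lit 16777217) (nat_lit 10335814373) (.one (nat_lit 12047091954) .nil))),
   .two (nat_lit 809500676) (nat_lit 1948254230) (.two (nat_lit 4194306) (nat_lit 185021235301) (.two (nat_lit 4194305) (nat_lit 159251431492) (.two (nat_lit 4194304) (nat_lit 3021996771) (.one (nat_lit 2099644) .nil)))),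
   .two (nat_lit 612368388) (nat_lit 11544821772) (.two (nat_lit 176160770) (nat_lit 740294707) (.two (nat_lit 9765388289) (nat_lit 337641913) (.one (nat_lit 10001319472) .nil))),
   .two (nat_lit 176160772) (nat_lit 174688567308) (.two (nat_lit 184989777923) (nat_lit 156573368371) (.two (nat_lit 8388609) (nat_lit 10372514150) (.two (nat_lit 2097152) (nat_lit 28697428699) (.one (nat_lit 8391101) .nil)))),
   .two (nat_lit 205520900) (nat_lit 41943058) (.two (nat_lit 708837379) (nat_lit 158183981113) (.two (nat_lit 605028353) (nat_lit 104857779) (.two (nat_lit 2097152) (nat_lit 4598006473) (.one (nat_lit 10537142470) .nil)))),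
   .two (nat_lit 2954887172) (nat_lit 28086108168) (.two (nat_lit 203423747) (nat_lit 1745879067) (.two (nat_lit 605028353) (nat_lit 4632609172) (.two (nat_lit 2097152) (nat_lit 1276117744) (.one (nat_lit 9966716481) .nil)))),
   .two (nat_lit 822083588) (nat_lit 46414168072) (.two (nat_lit 16777218) (nat_lit 46414168089) (.two (nat_lit 8388609) (nat_lit 9781116996) (.two (nat_lit 4194304) (nat_lit 2332034612) .nil))),
   .two (nat_lit 2902458372) (nat_lit 18928893960) (.two (nat_lit 285212675) (nat_lit 3460300879) (.two (nat_lit 37748737) (nat_lit 9948889782) (.one (nat_lit 28705818167) .nil))),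
   .two (nat_lit 620756996) (nat_lit 3458203656) (.two (nat_lit 184549378) (nat_lit 236978201) (.two (nat_lit 2097153) (nat_lit 620757060) (.two (nat_lit 16777216) (nat_lit 2098471) (.one (nat_lit 2902460852) .nil)))),
   .two (nat_lit 4194308) (nat_lit 156365750280) (.two (nat_lit 4194306) (nat_lit 156364701723) (.two (nat_lit 4194305) (nat_lit 4598005940) (.two (nat_lit 16777216) (nat_lit 2316305681) (.one (nat_lit 21207451851) .nil)))),
   .two (nat_lit 9934209028) (nat_lit 28086108170) (.two (nat_lit 184549379) (nat_lit 1209008179) (.two (nat_lit 16777217) (nat_lit 2920284884) (.one (nat_lit 46507492895) .nil))),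
   .two (nat_lit 4194308) (nat_lit 156365750282) (.two (nat_lit 4601151491) (nat_lit 13187940396) (.two (nat_lit 2097153) (nat_lit 101712628) (.one (nat_lit 3524265505) .nil))),
   .two (nat_lit 156372041733) (nat_lit 16777224) (.two (nat_lit 10343153667) (nat_lit 50331686) (.two (nat_lit 612368385) (nat_lit 285213370) (.one (nat_lit 50334014) .nil))),
   .two (nat_lit 176160772) (nat_lit 18928893975) (.two (nat_lit 176160770) (nat_lit 11513364533) (.two (nat_lit 2097153) (nat_lit 10942939439) (.two (nat_lit 4194304) (nat_lit 159217877777) (.one (nat_lit 4196799) .nil)))),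
   .two (nat_lit 4613734404) (nat_lit 183848927240) (.two (nat_lit 11546918915) (nat_lit 352321574) (.two (nat_lit 16777217) (nat_lit 183947493558) (.two (nat_lit 1048576) (nat_lit 1749025208) (.one (nat_lit 4196800) .nil)))),
   .two (nat_lit 218103812) (nat_lit 46474985492) (.two (nat_lit 270532611) (nat_lit 788529337) (.two (nat_lit 2097152) (nat_lit 1224738056) (.one (nat_lit 3003123911) .nil))),
   .two (nat_lit 4194308) (nat_lit 156365750280) (.two (nat_lit 4194306) (nat_lit 2953838777) (.two (nat_lit 4194304) (nat_lit 166196151044) (.one (nat_lit 21812480423) .nil))),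
   .two (nat_lit 10343153668) (nat_lit 10504634376) (.two (nat_lit 2887778306) (nat_lit 156372041768) (.two (nat_lit 2097153) (nat_lit 746586912) (.one (nat_lit 8391106) .nil))),
   .two (nat_lit 285212676) (nat_lit 11476664328) (.two (nat_lit 285212675) (nat_lit 12047089719) (.two (nat_lit 50331649) (nat_lit 1309671765) (.two (nat_lit 16777216) (nat_lit 158647452436) (.one (nat_lit 11544823329) .nil)))),
   .two (nat_lit 183853121540) (nat_lit 10939793416) (.two (nat_lit 12121538563) (nat_lit 184986632244) (.two (nat_lit 9765388289) (nat_lit 1853882760) (.two (nat_lit 2097152) (nat_lit 156364703271) .nil))),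
   .two (nat_lit 176160772) (nat_lit 1277165576) (.two (nat_lit 176160770) (nat_lit 159251431451) (.two (nat_lit 606076929) (nat_lit 343932996) (.two (nat_lit 2097152) (nat_lit 3464495911) (.one (nat_lit 13228837106) .nil)))),
   .two (nat_lit 4605345796) (nat_lit 20705181708) (.two (nat_lit 13195280387) (nat_lit 47581233206) (.two (nat_lit 41943041) (nat_lit 19596837044) (.two (nat_lit 2097152) (nat_lit 28690089212) (.one (nat_lit 20705183292) .nil)))),
   .two (nat_lit 1343225860) (nat_lit 10370416648) (.two (nat_lit 639631363) (nat_lit 11577327642) (.two (nat_lit 605028353) (nat_lit 47582281796) (.two (nat_lit 1048576) (nat_lit 2418016968) (.one (nat_lit 156364703260) .nil)))),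
   .two (nat_lit 20644364292) (nat_lit 158075977736) (.two (nat_lit 159224168451) (nat_lit 12114198580) (.two (nat_lit 612368385) (nat_lit 166196150673) (.two (nat_lit 8388608) (nat_lit 156566029001) (.one (nat_lit 174752532630) .nil)))),
   .two (nat_lit 2902458372) (nat_lit 10940841992) (.two (nat_lit 2902458370) (nat_lit 673185862) (.two (nat_lit 9766436865) (nat_lit 174768259788) (.one (nat_lit 166245434945) .nil))),
   .two (nat_lit 8388612) (nat_lit 157036838920) (.two (nat_lit 176160771) (nat_lit 46474985499) (.two (nat_lit 2097153) (nat_lit 156372042129) (.two (nat_lit 4194304) (nat_lit 9873393180) .nil))),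
   .two (nat_lit 2887778308) (nat_lit 1182793740) (.two (nat_lit 713031682) (nat_lit 28690087963) (.two (nat_lit 612368385) (nat_lit 35651936) (.two (nat_lit 1048576) (nat_lit 337643045) .nil))),
   .two (nat_lit 1178599428) (nat_lit 1847590921) (.two (nat_lit 10504634371) (nat_lit 272629822) (.two (nat_lit 37748737) (nat_lit 18926797140) (.two (nat_lit 4194304) (nat_lit 2098482) (.one (nat_lit 4196807) .nil)))),
   .two (nat_lit 13203668996) (nat_lit 183848927240) (.two (nat_lit 16777218) (nat_lit 174688567363) (.two (nat_lit 16777217) (nat_lit 183947493558) (.two (nat_lit 2097152) (nat_lit 156984410855) (.one (nat_lit 4196808) .nil)))),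
   .two (nat_lit 3464495108) (nat_lit 158075977736) (.two (nat_lit 47555018755) (nat_lit 12114198580) (.two (nat_lit 8388609) (nat_lit 166196150673) (.two (nat_lit 8388608) (nat_lit 166129042175) (.one (nat_lit 185027528265) .nil)))),
   .two (nat_lit 184549380) (nat_lit 165532401672) (.two (nat_lit 10343153667) (nat_lit 2969567274) (.two (nat_lit 612368385) (nat_lit 1929380578) (.one (nat_lit 16779721) .nil))),
   .two (nat_lit 169869316) (nat_lit 612368392) (.two (nat_lit 2097155) (nat_lit 37320917042) (.two (nat_lit 8388609) (nat_lit 184417255786) (.two (nat_lit 1048576) (nat_lit 183846830811) (.one (nat_lit 638585149) .nil)))),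
   .two (nat_lit 285212676) (nat_lit 166132187144) (.two (nat_lit 16777218) (nat_lit 19029557288) (.two (nat_lit 16777217) (nat_lit 46414168394) (.two (nat_lit 4194304) (nat_lit 19134415567) (.one (nat_lit 276826303) .nil)))),
   .two (nat_lit 176160772) (nat_lit 10385096712) (.two (nat_lit 654311427) (nat_lit 47555018794) (.two (nat_lit 620756993) (nat_lit 159224169266) .nil)),
   .two (nat_lit 9881780228) (nat_lit 10939793416) (.two (nat_lit 46992982019) (nat_lit 11580473424) (.two (nat_lit 37748737) (nat_lit 889193184) (.one (nat_lit 3573549205) .nil))),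
   .two (nat_lit 75497476) (nat_lit 47596961819) (.two (nat_lit 16777217) (nat_lit 183953785014) (.two (nat_lit 16777216) (nat_lit 46514832073) (.one (nat_lit 12062820545) .nil))),
   .two (nat_lit 9881780228) (nat_lit 1847590920) (.two (nat_lit 1358954499) (nat_lit 9766436919) (.two (nat_lit 620756993) (nat_lit 21208498356) (.two (nat_lit 2097152) (nat_lit 19042140867) (.one (nat_lit 13188990494) .nil)))),
   .two (nat_lit 11559501828) (nat_lit 46414168072) (.two (nat_lit 8388611) (nat_lit 117440580) (.two (nat_lit 8388608) (nat_lit 9982444272) (.one (nat_lit 2332035383) .nil))),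
   .two (nat_lit 9881780228) (nat_lit 174752530440) (.two (nat_lit 1358954499) (nat_lit 10906239041) (.two (nat_lit 605028353) (nat_lit 28101837554) (.one (nat_lit 19093521983) .nil))),
   .two (nat_lit 11492392964) (nat_lit 37246468106) (.two (nat_lit 11492392962) (nat_lit 2416967717) (.two (nat_lit 34603009) (nat_lit 10955522847) (.one (nat_lit 16779722) .nil))),
   .two (nat_lit 272629764) (nat_lit 1745879048) (.two (nat_lit 2889875459) (nat_lit 1376780468) (.two (nat_lit 4194304) (nat_lit 1376780982) (.one (nat_lit 157035791927) .nil))),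
   .two (nat_lit 156365750276) (nat_lit 156465365006) (.two (nat_lit 1343225859) (nat_lit 157036838950) (.two (nat_lit 9766436865) (nat_lit 10000269498) (.two (nat_lit 16777216) (nat_lit 1049911) (.one (nat_lit 1051083) .nil)))),
   .two (nat_lit 46409973764) (nat_lit 1962934291) (.two (nat_lit 822083587) (nat_lit 2923429914) (.two (nat_lit 4194305) (nat_lit 20719861941) (.two (nat_lit 16777216) (nat_lit 11546919625) (.one (nat_lit 4196812) .nil)))),
   .two (nat_lit 46409973764) (nat_lit 10336862216) (.two (nat_lit 47548727299) (nat_lit 205520962) (.two (nat_lit 2097153) (nat_lit 28793897143) (.two (nat_lit 2097152) (nat_lit 10942939905) (.one (nat_lit 4196813) .nil)))),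
   .two (nat_lit 9881780228) (nat_lit 19027460122) (.two (nat_lit 620756993) (nat_lit 174686470323) (.two (nat_lit 2097152) (nat_lit 687866572) (.one (nat_lit 159266113089) .nil))),
   .two (nat_lit 620756996) (nat_lit 20704133162) (.two (nat_lit 16777217) (nat_lit 839909558) (.two (nat_lit 16777216) (nat_lit 9798943520) (.one (nat_lit 1051086) .nil))),
   .two (nat_lit 2887778308) (nat_lit 2894069782) (.two (nat_lit 2097155) (nat_lit 343932953) (.two (nat_lit 2097153) (nat_lit 612368564) (.two (nat_lit 2097152) (nat_lit 142607485) (.one (nat_lit 166129043868) .nil)))),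
   .two (nat_lit 721420292) (nat_lit 9899606026) (.two (nat_lit 1358954499) (nat_lit 159216828480) (.two (nat_lit 605028353) (nat_lit 620757060) (.two (nat_lit 1048576) (nat_lit 352322318) (.one (nat_lit 1051087) .nil)))),
   .two (nat_lit 822083588) (nat_lit 9867100168) (.two (nat_lit 16777218) (nat_lit 20705181738) (.two (nat_lit 16777217) (nat_lit 606077650) (.one (nat_lit 12618565856) .nil))),
   .two (nat_lit 50331652) (nat_lit 1913651208) (.two (nat_lit 16777219) (nat_lit 3458203711) (.two (nat_lit 2097153) (nat_lit 156968681651) (.two (nat_lit 1048576) (nat_lit 69206743) (.one (nat_lit 158177691165) .nil)))),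
   .two (nat_lit 4194308) (nat_lit 184549384) (.two (nat_lit 4194306) (nat_lit 2416967733) (.two (nat_lit 4194305) (nat_lit 158075977908) (.two (nat_lit 1048576) (nat_lit 10372514519) (.one (nat_lit 2990540360) .nil)))),
   .two (nat_lit 754974724) (nat_lit 28690087944) (.two (nat_lit 721420291) (nat_lit 18933088283) (.two (nat_lit 8388609) (nat_lit 158662132046) (.two (nat_lit 1048576) (nat_lit 28798091983) (.one (nat_lit 1954548166) .nil)))),
   .two (nat_lit 2902458372) (nat_lit 1175453704) (.two (nat_lit 8388610) (nat_lit 28086108269) (.two (nat_lit 16777217) (nat_lit 10000269627) (.two (nat_lit 1048576) (nat_lit 21827158772) (.one (nat_lit 16779728) .nil)))),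
   .two (nat_lit 1277165572) (nat_lit 10506731528) (.two (nat_lit 9934209027) (nat_lit 156569174056) (.two (nat_lit 606076929) (nat_lit 28089254070) (.two (nat_lit 2097152) (nat_lit 775946978) (.one (nat_lit 4196817) .nil)))),
   .two (nat_lit 270532614) (nat_lit 9768534024) (.two (nat_lit 270532611) (nat_lit 2889875482) (.two (nat_lit 2097153) (nat_lit 2987393376) (.two (nat_lit 2097152) (nat_lit 9902752542) (.one (nat_lit 47584381318) .nil)))),
   .two (nat_lit 12047089668) (nat_lit 19027460106) (.two (nat_lit 184986632195) (nat_lit 11007950892) (.two (nat_lit 156364701697) (nat_lit 46474986175) (.one (nat_lit 102762033) .nil))),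
   .two (nat_lit 754974724) (nat_lit 184416206856) (.two (nat_lit 11559501827) (nat_lit 10369368111) (.two (nat_lit 16777217) (nat_lit 1344274614) (.two (nat_lit 1048576) (nat_lit 2098491) (.one (nat_lit 2099666) .nil)))),
   .two (nat_lit 16777220) (nat_lit 11513364489) (.two (nat_lit 16777218) (nat_lit 9802088485) (.two (nat_lit 4194305) (nat_lit 620757060) (.two (nat_lit 4194304) (nat_lit 1862271687) (.one (nat_lit 2936014401) .nil)))),
   .two (nat_lit 75497476) (nat_lit 2954887176) (.two (nat_lit 169869314) (nat_lit 11618222105) (.two (nat_lit 606076929) (nat_lit 2927624490) (.two (nat_lit 8388608) (nat_lit 21778924324) (.one (nat_lit 11511268916) .nil)))),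
   .two (nat_lit 184986632196) (nat_lit 18928893960) (.two (nat_lit 9765388291) (nat_lit 4601151512) (.two (nat_lit 8388609) (nat_lit 13191086898) .nil)),
   .two (nat_lit 11559501828) (nat_lit 10504634378) (.two (nat_lit 721420291) (nat_lit 166130090025) (.two (nat_lit 2097153) (nat_lit 10376708894) (.one (nat_lit 158144137643) .nil))),
   .two (nat_lit 1753219077) (nat_lit 639631368) (.two (nat_lit 165532401667) (nat_lit 2418016305) (.two (nat_lit 2097153) (nat_lit 184423547061) (.two (nat_lit 2097152) (nat_lit 8389950) (.one (nat_lit 8391123) .nil)))),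
   .two (nat_lit 10007609350) (nat_lit 1913651208) (.two (nat_lit 158083317763) (nat_lit 1947205672) (.two (nat_lit 34603009) (nat_lit 47555019191) (.one (nat_lit 158183982643) .nil))),
   .two (nat_lit 4613734404) (nat_lit 9934209032) (.two (nat_lit 16777218) (nat_lit 11543773226) (.two (nat_lit 16777217) (nat_lit 672137943) (.one (nat_lit 1051092) .nil))),
   .two (nat_lit 1343225860) (nat_lit 156533522445) (.two (nat_lit 705691650) (nat_lit 28791799866) (.two (nat_lit 9765388289) (nat_lit 136315062) (.two (nat_lit 2097152) (nat_lit 672137928) (.one (nat_lit 3457156660) .nil)))),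
   .two (nat_lit 50331652) (nat_lit 1753219080) (.two (nat_lit 28093448195) (nat_lit 50331688) (.two (nat_lit 41943041) (nat_lit 754975159) (.one (nat_lit 9814672924) .nil))),
   .two (nat_lit 1277165572) (nat_lit 1779433480) (.two (nat_lit 9934209027) (nat_lit 46507491379) (.two (nat_lit 606076929) (nat_lit 1209008836) (.one (nat_lit 28757198978) .nil))),
   .two (nat_lit 742391812) (nat_lit 28086108168) (.two (nat_lit 2956984323) (nat_lit 184417255472) (.two (nat_lit 605028353) (nat_lit 1914700503) (.one (nat_lit 1746930072) .nil))),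
   .two (nat_lit 13195280388) (nat_lit 9899606033) (.two (nat_lit 8388610) (nat_lit 165525061691) (.two (nat_lit 4194305) (nat_lit 20637024988) (.one (nat_lit 156539816199) .nil))),
   .two (nat_lit 46409973764) (nat_lit 10336862216) (.two (nat_lit 272629763) (nat_lit 165526110249) (.two (nat_lit 9768534017) (nat_lit 740295389) (.one (nat_lit 12633246160) .nil))),
   .two (nat_lit 16777220) (nat_lit 605028365) (.two (nat_lit 2097155) (nat_lit 12620660784) (.two (nat_lit 2097153) (nat_lit 3457155252) (.two (nat_lit 2097152) (nat_lit 1947206404) (.one (nat_lit 2332035434) .nil)))),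
   .two (nat_lit 10007609349) (nat_lit 166232850444) (.two (nat_lit 159224168451) (nat_lit 2319450161) (.two (nat_lit 612368385) (nat_lit 28760342713) (.two (nat_lit 8388608) (nat_lit 2990539459) (.one (nat_lit 21781023137) .nil)))),
   .two (nat_lit 165525061636) (nat_lit 19096666128) (.two (nat_lit 184549379) (nat_lit 1846542385) (.two (nat_lit 34603009) (nat_lit 21210595512) (.two (nat_lit 1048576) (nat_lit 185023333676) (.one (nat_lit 1916799124) .nil)))),
   .two (nat_lit 809500676) (nat_lit 3525312520) (.two (nat_lit 4194306) (nat_lit 156533522470) (.two (nat_lit 4194305) (nat_lit 3558867642) (.one (nat_lit 2099676) .nil))),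
   .two (nat_lit 169869316) (nat_lit 10506731528) (.two (nat_lit 2097155) (nat_lit 3527409706) (.two (nat_lit 2097153) (nat_lit 11580473653) (.two (nat_lit 2097152) (nat_lit 11580474075) (.one (nat_lit 303040831) .nil)))),
   .two (nat_lit 16777220) (nat_lit 3525312522) (.two (nat_lit 184549378) (nat_lit 3525312549) (.two (nat_lit 34603009) (nat_lit 158662132023) (.two (nat_lit 1048576) (nat_lit 158192370391) (.one (nat_lit 11511269685) .nil)))),
   .two (nat_lit 2889875460) (nat_lit 10939793416) (.two (nat_lit 272629763) (nat_lit 10436476953) (.two (nat_lit 9768534017) (nat_lit 158646403770) (.one (nat_lit 166129043000) .nil))),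
   .two (nat_lit 612368388) (nat_lit 11543773192) (.two (nat_lit 75497475) (nat_lit 12147752987) (.two (nat_lit 9781116929) (nat_lit 183845782304) (.one (nat_lit 1051106) .nil))),
   .two (nat_lit 156365750276) (nat_lit 4598005772) (.two (nat_lit 2097155) (nat_lit 46523219995) (.two (nat_lit 2097153) (nat_lit 13221495189) (.two (nat_lit 2097152) (nat_lit 2987393785) (.one (nat_lit 2099683) .nil)))),
   .two (nat_lit 2889875460) (nat_lit 166230753290) (.two (nat_lit 169869314) (nat_lit 11580473391) (.two (nat_lit 2097153) (nat_lit 156569174084) (.two (nat_lit 2097152) (nat_lit 9869198076) (.one (nat_lit 2099687) .nil)))),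
   .two (nat_lit 606076932) (nat_lit 8388628) (.two (nat_lit 11484004355) (nat_lit 272629786) (.two (nat_lit 4194305) (nat_lit 10007609692) (.two (nat_lit 8388608) (nat_lit 11479811348) (.one (nat_lit 10343155938) .nil)))),
   .two (nat_lit 606076932) (nat_lit 174701150259) (.two (nat_lit 37748737) (nat_lit 19545457408) (.one (nat_lit 1862272549) .nil)),
   .two (nat_lit 75497476) (nat_lit 4634705930) (.two (nat_lit 713031682) (nat_lit 46510637097) (.two (nat_lit 41943041) (nat_lit 11580474144) (.one (nat_lit 3527411888) .nil))),
   .two (nat_lit 169869316) (nat_lit 620757000) (.two (nat_lit 2097155) (nat_lit 2332033075) (.two (nat_lit 2097153) (nat_lit 46977254101) (.one (nat_lit 739248557) .nil))),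
   .two (nat_lit 16777220) (nat_lit 21210595339) (.two (nat_lit 16777219) (nat_lit 158647451711) (.two (nat_lit 16777217) (nat_lit 236978524) (.two (nat_lit 2097152) (nat_lit 809501397) (.one (nat_lit 205523178) .nil)))),
   .two (nat_lit 713031684) (nat_lit 272629768) (.two (nat_lit 4194306) (nat_lit 11618222105) (.two (nat_lit 41943041) (nat_lit 4634705988) (.two (nat_lit 8388608) (nat_lit 2923430695) (.one (nat_lit 1782581705) .nil)))),
   .two (nat_lit 8388612) (nat_lit 3557818380) (.two (nat_lit 705691650) (nat_lit 343932953) (.two (nat_lit 8388609) (nat_lit 28690088234) (.two (nat_lit 8388608) (nat_lit 19026412235) (.one (nat_lit 28790753765) .nil)))),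
   .two (nat_lit 184549380) (nat_lit 10907287562) (.two (nat_lit 184549378) (nat_lit 673185833) (.two (nat_lit 606076929) (nat_lit 16777284) (.two (nat_lit 2097152) (nat_lit 1392509667) (.one (nat_lit 620759226) .nil)))),
   .two (nat_lit 2889875460) (nat_lit 20738736138) (.two (nat_lit 2889875458) (nat_lit 159251431465) (.two (nat_lit 9766436865) (nat_lit 10942939850) (.one (nat_lit 4196844) .nil))),
   .two (nat_lit 50331652) (nat_lit 10504634376) (.two (nat_lit 16777219) (nat_lit 156567076929) (.two (nat_lit 2097153) (nat_lit 9915334842) (.two (nat_lit 2097152) (nat_lit 156548203769) (.one (nat_lit 185021236788) .nil)))),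
   .two (nat_lit 11492392964) (nat_lit 75497489) (.two (nat_lit 41943043) (nat_lit 673185845) (.two (nat_lit 2097153) (nat_lit 612368676) (.two (nat_lit 2097152) (nat_lit 9873392343) (.one (nat_lit 156466415936) .nil)))),
   .two (nat_lit 8388612) (nat_lit 11492393002) (.two (nat_lit 50331649) (nat_lit 4605345860) (.two (nat_lit 16777216) (nat_lit 8389994) (.one (nat_lit 13203670567) .nil))),
   .two (nat_lit 8388616) (nat_lit 605028379) (.two (nat_lit 4194306) (nat_lit 1175453875) (.two (nat_lit 2097153) (nat_lit 641728952) (.two (nat_lit 2097152) (nat_lit 205522455) (.one (nat_lit 2099699) .nil)))),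
   .two (nat_lit 272629768) (nat_lit 11476664328) (.two (nat_lit 2887778308) (nat_lit 272629784) (.two (nat_lit 2887778306) (nat_lit 272629828) (.two (nat_lit 2097153) (nat_lit 9768534834) (.one (nat_lit 11543775730) .nil)))),
   .two (nat_lit 117440520) (nat_lit 156971827219) (.two (nat_lit 1350565892) (nat_lit 11559501848) (.two (nat_lit 713031683) (nat_lit 21827158084) (.two (nat_lit 8388609) (nat_lit 28806480690) (.one (nat_lit 171969015) .nil)))),
   .two (nat_lit 159232557064) (nat_lit 20644364313) (.two (nat_lit 612368387) (nat_lit 159266111556) (.two (nat_lit 4194305) (nat_lit 10913579447) (.two (nat_lit 4194304) (nat_lit 4638901802) (.one (nat_lit 4196859) .nil)))),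
   .two (nat_lit 2902458376) (nat_lit 276824083) (.two (nat_lit 19530776580) (nat_lit 166129041434) (.two (nat_lit 2894069763) (nat_lit 13237223492) (.two (nat_lit 8388609) (nat_lit 159266112228) (.two (nat_lit 1048576) (nat_lit 169870873) (.one (nat_lit 337644029) .nil))))),
   .two (nat_lit 10519314440) (nat_lit 166132187162) (.two (nat_lit 176160770) (nat_lit 159266111556) (.two (nat_lit 8388609) (nat_lit 174688567735) (.two (nat_lit 4194304) (nat_lit 679478065) (.one (nat_lit 13228837378) .nil)))),
   .two (nat_lit 3539992584) (nat_lit 166130089992) (.two (nat_lit 166130089988) (nat_lit 166129041434) (.two (nat_lit 10504634371) (nat_lit 11551113398) (.two (nat_lit 620756993) (nat_lit 9806283447) (.two (nat_lit 1048576) (nat_lit 10001319453) (.one (nat_lit 1051155) .nil))))),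
   .two (nat_lit 218103816) (nat_lit 641728520) (.two (nat_lit 9940500484) (nat_lit 218103833) (.two (nat_lit 184549379) (nat_lit 9974054980) (.two (nat_lit 4194305) (nat_lit 158183981794) (.two (nat_lit 4194304) (nat_lit 243270450) (.one (nat_lit 13228837382) .nil))))),
   .two (nat_lit 2961178632) (nat_lit 1277165576) (.two (nat_lit 1277165572) (nat_lit 1276117018) (.two (nat_lit 9934209027) (nat_lit 184423547062) (.two (nat_lit 8388609) (nat_lit 3527410443) (.two (nat_lit 1048576) (nat_lit 3525314117) (.one (nat_lit 3557820937) .nil))))),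
   .two (nat_lit 4194312) (nat_lit 50331656) (.two (nat_lit 50331652) (nat_lit 11610882074) (.two (nat_lit 171966467) (nat_lit 740294838) (.two (nat_lit 4194305) (nat_lit 183845781943) (.two (nat_lit 4194304) (nat_lit 10552870468) (.one (nat_lit 10942941699) .nil))))),
   .two (nat_lit 4194312) (nat_lit 343932955) (.two (nat_lit 705691650) (nat_lit 158150426805) (.two (nat_lit 4194305) (nat_lit 34603770) (.two (nat_lit 1048576) (nat_lit 2889876274) (.one (nat_lit 19604179447) .nil)))),
   .two (nat_lit 28758245379) (nat_lit 171966530) (.one (nat_lit 16779800) .nil),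
   .two (nat_lit 176160770) (nat_lit 19530776586) (.two (nat_lit 16777216) (nat_lit 174686470229) (.one (nat_lit 2099737) .nil)),
   .two (nat_lit 4601151491) (nat_lit 2921332746) (.two (nat_lit 4194304) (nat_lit 4599054445) (.one (nat_lit 2098769) .nil)),
   .two (nat_lit 16777219) (nat_lit 2921332802) (.one (nat_lit 2097833) .nil),
   .two (nat_lit 4601151491) (nat_lit 10336862212) (.two (nat_lit 8388609) (nat_lit 156367847613) (.one (nat_lit 4195934) .nil)),
   .two (nat_lit 83886083) (nat_lit 185027527056) .nil,
   .two (nat_lit 8388611) (nat_lit 9967763461) (.two (nat_lit 606076929) (nat_lit 10343153700) (.one (nat_lit 2098787) .nil)),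
   .two (nat_lit 2894069763) (nat_lit 18928893956) (.two (nat_lit 37748737) (nat_lit 184423546995) (.one (nat_lit 4196890) .nil)),
   .two (nat_lit 16777219) (nat_lit 20738736171) (.one (nat_lit 2098793) .nil),
   .two (nat_lit 16777218) (nat_lit 158144135178) (.two (nat_lit 2097152) (nat_lit 721420365) (.one (nat_lit 16778858) .nil)),
   .two (nat_lit 41943043) (nat_lit 184986632200) (.two (nat_lit 8388608) (nat_lit 10335813724) (.one (nat_lit 1050219) .nil)),
   .two (nat_lit 270532611) (nat_lit 1191182342) (.two (nat_lit 2097153) (nat_lit 158192369695) (.two (nat_lit 1048576) (nat_lit 158158815455) (.one (nat_lit 16779803) .nil))),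
   .two (nat_lit 158143086596) (nat_lit 156969730058) (.two (nat_lit 9766436865) (nat_lit 37313577028) (.one (nat_lit 1050429) .nil)),
   .two (nat_lit 183845781508) (nat_lit 19599982600) (.two (nat_lit 37748737) (nat_lit 11510218837) (.two (nat_lit 4194304) (nat_lit 1049420) (.one (nat_lit 1051193) .nil))),
   .two (nat_lit 47555018756) (nat_lit 20637024266) (.two (nat_lit 612368385) (nat_lit 4631560252) (.two (nat_lit 8388608) (nat_lit 1049107) (.one (nat_lit 1050436) .nil))),
   .two (nat_lit 158144135172) (nat_lit 28086108167) (.two (nat_lit 11543773187) (nat_lit 706740272) (.two (nat_lit 1048576) (nat_lit 11544822073) (.one (nat_lit 2099014) .nil))),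
   .two (nat_lit 9881780228) (nat_lit 157036838993) (.two (nat_lit 16777216) (nat_lit 2097998) (.one (nat_lit 16779834) .nil)),
   .two (nat_lit 13191086084) (nat_lit 11618222086) (.two (nat_lit 713031683) (nat_lit 1212153894) (.two (nat_lit 8388608) (nat_lit 47584380234) .nil)),
   .two (nat_lit 11543773188) (nat_lit 159224168453) (.two (nat_lit 41943043) (nat_lit 158176641065) (.two (nat_lit 8388608) (nat_lit 4027581133) .nil)),
   .two (nat_lit 620756998) (nat_lit 166196150278) (.two (nat_lit 9881780227) (nat_lit 37313577003) (.two (nat_lit 16777216) (nat_lit 2886730222) (.one (nat_lit 1962934996) .nil))),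
   .two (nat_lit 1277165572) (nat_lit 9781116933) (.two (nat_lit 654311427) (nat_lit 1847590953) (.two (nat_lit 16777216) (nat_lit 1377829172) (.one (nat_lit 2098581) .nil))),
   .two (nat_lit 20738736134) (nat_lit 158143086598) (.two (nat_lit 1277165571) (nat_lit 158646403092) (.two (nat_lit 2097153) (nat_lit 1749025241) (.one (nat_lit 4196036) .nil))),
   .two (nat_lit 713031686) (nat_lit 2923429894) (.two (nat_lit 176160771) (nat_lit 11513364523) (.two (nat_lit 2097152) (nat_lit 1849688790) .nil)),
   .two (nat_lit 1745879044) (nat_lit 1847590920) (.two (nat_lit 34603009) (nat_lit 174753580215) .nil),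
   .two (nat_lit 1847590916) (nat_lit 12617515014) (.two (nat_lit 11543773187) (nat_lit 19027460138) (.two (nat_lit 1048576) (nat_lit 19027460378) (.one (nat_lit 2099039) .nil))),
   .two (nat_lit 4601151492) (nat_lit 1913651208) (.two (nat_lit 4194305) (nat_lit 46406828144) (.two (nat_lit 4194304) (nat_lit 235930107) (.one (nat_lit 1050466) .nil))),
   .two (nat_lit 83886086) (nat_lit 11543773190) (.two (nat_lit 806354947) (nat_lit 166144770102) (.two (nat_lit 2097152) (nat_lit 13237223896) (.one (nat_lit 16779108) .nil))),
   .two (nat_lit 4601151492) (nat_lit 18926796806) (.two (nat_lit 184549379) (nat_lit 28087157089) (.one (nat_lit 9902752947) .nil)),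
   .two (nat_lit 721420292) (nat_lit 165532401670) (.two (nat_lit 47555018755) (nat_lit 620757019) (.two (nat_lit 8388608) (nat_lit 620757261) (.one (nat_lit 158662132851) .nil))),
   .two (nat_lit 3458203652) (nat_lit 10506731525) (.two (nat_lit 809500675) (nat_lit 10336862216) (.two (nat_lit 2097153) (nat_lit 19096666168) (.two (nat_lit 2097152) (nat_lit 4195151) (.one (nat_lit 183947494085) .nil)))),
   .two (nat_lit 2887778308) (nat_lit 1916796933) (.two (nat_lit 34603011) (nat_lit 184993972403) (.one (nat_lit 2099771) .nil)),
   .two (nat_lit 16777220) (nat_lit 183853121544) (.two (nat_lit 41943041) (nat_lit 158662132454) .nil),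
   .two (nat_lit 75497476) (nat_lit 11559501828) (.two (nat_lit 721420291) (nat_lit 75497480) (.two (nat_lit 16777217) (nat_lit 166130090037) (.two (nat_lit 2097152) (nat_lit 8389456) (.one (nat_lit 8390509) .nil)))),
   .two (nat_lit 21207449604) (nat_lit 156468510730) (.two (nat_lit 612368385) (nat_lit 34603060) (.two (nat_lit 8388608) (nat_lit 303038764) (.one (nat_lit 1050478) .nil))),
   .two (nat_lit 9867100164) (nat_lit 1325400118) (.two (nat_lit 4194304) (nat_lit 28758245444) (.one (nat_lit 2099772) .nil)),
   .two (nat_lit 606076932) (nat_lit 3036676102) (.two (nat_lit 184549379) (nat_lit 37314625587) (.two (nat_lit 4194304) (nat_lit 1050294) .nil)),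
   .two (nat_lit 809500676) (nat_lit 157043130372) (.two (nat_lit 75497475) (nat_lit 13191086088) (.two (nat_lit 8388609) (nat_lit 13224640549) (.two (nat_lit 16777216) (nat_lit 156468512553) .nil))),
   .two (nat_lit 3539992580) (nat_lit 9802088454) (.two (nat_lit 13191086083) (nat_lit 2902458377) (.two (nat_lit 37748737) (nat_lit 185035915762) (.one (nat_lit 11525949208) .nil))),
   .two (nat_lit 13224640518) (nat_lit 847249414) (.two (nat_lit 13195280387) (nat_lit 13224640555) (.two (nat_lit 4194304) (nat_lit 10907289300) .nil)),
   .two (nat_lit 2887778308) (nat_lit 10506731524) (.two (nat_lit 2097155) (nat_lit 1413480460) (.two (nat_lit 34603009) (nat_lit 2887779129) (.one (nat_lit 202376880) .nil))),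
   .two (nat_lit 12117344260) (nat_lit 654311444) (.two (nat_lit 16777217) (nat_lit 13191087307) .nil),
   .two (nat_lit 41943044) (nat_lit 184419352582) (.two (nat_lit 8388610) (nat_lit 12117344264) (.two (nat_lit 8388609) (nat_lit 183916036122) (.two (nat_lit 16777216) (nat_lit 775947472) .nil))),
   .two (nat_lit 9934209028) (nat_lit 165532401704) (.two (nat_lit 2097152) (nat_lit 28093448631) .nil),
   .two (nat_lit 9768534020) (nat_lit 10336862214) (.two (nat_lit 158144135171) (nat_lit 18928893964) (.two (nat_lit 50331649) (nat_lit 1782579688) (.one (nat_lit 2099773) .nil))),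
   .two (nat_lit 9781116933) (nat_lit 21811429382) (.two (nat_lit 9948889091) (nat_lit 1947205675) (.two (nat_lit 16777216) (nat_lit 18925748950) .nil)),
   .two (nat_lit 16777220) (nat_lit 158179786800) (.two (nat_lit 4194304) (nat_lit 16778996) .nil),
   .two (nat_lit 713031684) (nat_lit 2936012866) (.two (nat_lit 8388608) (nat_lit 18928895190) .nil),
   .two (nat_lit 46978301956) (nat_lit 19599982631) (.two (nat_lit 4194304) (nat_lit 20738736413) (.one (nat_lit 2099775) .nil)),
   .two (nat_lit 47548727300) (nat_lit 18933088266) (.two (nat_lit 612368385) (nat_lit 4028629035) (.two (nat_lit 16777216) (nat_lit 1780482553) (.one (nat_lit 8391232) .nil))),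
   .two (nat_lit 8388612) (nat_lit 1210056710) (.two (nat_lit 11492392963) (nat_lit 11476664346) (.two (nat_lit 1048576) (nat_lit 2994733535) (.one (nat_lit 1050502) .nil))),
   .two (nat_lit 83886084) (nat_lit 1411383303) (.two (nat_lit 270532611) (nat_lit 620757033) (.two (nat_lit 1048576) (nat_lit 11022631203) (.one (nat_lit 16779143) .nil))),
   .two (nat_lit 11479810052) (nat_lit 10370416652) (.two (nat_lit 2097153) (nat_lit 28693233708) (.two (nat_lit 16777216) (nat_lit 2921333906) .nil)),
   .two (nat_lit 28690087940) (nat_lit 3458203655) (.two (nat_lit 9934209027) (nat_lit 166196150340) (.one (nat_lit 11476665106) .nil)),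
   .two (nat_lit 205520900) (nat_lit 10336862214) (.two (nat_lit 50331651) (nat_lit 10506731609) (.two (nat_lit 1048576) (nat_lit 28791800299) (.one (nat_lit 2099777) .nil))),
   .two (nat_lit 1795162116) (nat_lit 47582281734) (.two (nat_lit 2954887171) (nat_lit 10942939144) (.two (nat_lit 2097153) (nat_lit 158079123550) (.two (nat_lit 4194304) (nat_lit 2098004) (.one (nat_lit 2099778) .nil)))),
   .two (nat_lit 612368388) (nat_lit 754974730) (.two (nat_lit 50331649) (nat_lit 21785215019) (.two (nat_lit 1048576) (nat_lit 46514833082) .nil)),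
   .two (nat_lit 169869316) (nat_lit 159224168456) (.two (nat_lit 34603009) (nat_lit 19094569005) (.two (nat_lit 1048576) (nat_lit 2098764) (.one (nat_lit 1051203) .nil))),
   .two (nat_lit 184549380) (nat_lit 174753579016) (.two (nat_lit 606076929) (nat_lit 2969567498) (.one (nat_lit 16779844) .nil)),
   .two (nat_lit 1277165572) (nat_lit 166129041412) (.two (nat_lit 713031683) (nat_lit 21208498186) (.two (nat_lit 8388609) (nat_lit 158144135205) (.two (nat_lit 1048576) (nat_lit 165526110514) (.one (nat_lit 8391237) .nil)))),
   .two (nat_lit 1178599428) (nat_lit 156465365018) (.two (nat_lit 4194304) (nat_lit 10000269494) (.one (nat_lit 1051206) .nil)),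
   .two (nat_lit 2902458372) (nat_lit 1376780293) (.two (nat_lit 285212675) (nat_lit 1779433488) (.two (nat_lit 605028353) (nat_lit 721420364) (.two (nat_lit 16777216) (nat_lit 1049121) (.one (nat_lit 16779847) .nil)))),
   .two (nat_lit 2969567236) (nat_lit 46474985477) (.two (nat_lit 203423747) (nat_lit 2902458404) (.two (nat_lit 2097152) (nat_lit 156380430649) (.one (nat_lit 16779147) .nil))),
   .two (nat_lit 1846542340) (nat_lit 156533522438) (.two (nat_lit 10504634371) (nat_lit 156465365034) (.two (nat_lit 2097152) (nat_lit 34603749) .nil)),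
   .two (nat_lit 4194308) (nat_lit 10343153668) (.two (nat_lit 209715203) (nat_lit 13191086088) (.two (nat_lit 37748737) (nat_lit 28790751295) (.two (nat_lit 16777216) (nat_lit 806355464) (.one (nat_lit 1050516) .nil)))),
   .two (nat_lit 721420292) (nat_lit 2889875462) (.two (nat_lit 50331651) (nat_lit 183949590571) (.two (nat_lit 16777216) (nat_lit 159253529072) (.one (nat_lit 4196247) .nil))),
   .two (nat_lit 10370416644) (nat_lit 2902458381) (.two (nat_lit 16777217) (nat_lit 46978302047) (.two (nat_lit 8388608) (nat_lit 4599054828) (.one (nat_lit 16779160) .nil))),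
   .two (nat_lit 11543773188) (nat_lit 19530776580) (.two (nat_lit 10504634371) (nat_lit 1343225864) (.two (nat_lit 605028353) (nat_lit 3558866980) (.two (nat_lit 2097152) (nat_lit 9933162244) .nil))),
   .two (nat_lit 276824068) (nat_lit 1795162183) (.two (nat_lit 16777216) (nat_lit 209715381) (.one (nat_lit 1050526) .nil)),
   .two (nat_lit 612368388) (nat_lit 2418016262) (.two (nat_lit 11559501827) (nat_lit 612368421) (.two (nat_lit 4194304) (nat_lit 2098006) (.one (nat_lit 2099784) .nil))),
   .two (nat_lit 13191086084) (nat_lit 174752530438) (.two (nat_lit 157035790339) (nat_lit 2923429915) (.two (nat_lit 16777216) (nat_lit 2956984501) (.one (nat_lit 269485982) .nil))),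
   .two (nat_lit 20638072836) (nat_lit 159224168454) (.two (nat_lit 159224168451) (nat_lit 10336862594) (.one (nat_lit 46508541070) .nil)),
   .two (nat_lit 12050235396) (nat_lit 28093448202) (.two (nat_lit 606076929) (nat_lit 4194670) (.one (nat_lit 4196937) .nil)),
   .two (nat_lit 21785214982) (nat_lit 171966471) (.two (nat_lit 654311427) (nat_lit 183949590554) (.two (nat_lit 2097152) (nat_lit 8389465) (.one (nat_lit 8390567) .nil))),
   .two (nat_lit 184549380) (nat_lit 10909384732) (.two (nat_lit 612368385) (nat_lit 1913652036) (.one (nat_lit 1050536) .nil)),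
   .two (nat_lit 4605345796) (nat_lit 46510637062) (.two (nat_lit 2889875459) (nat_lit 4605345818) (.two (nat_lit 4194304) (nat_lit 158653743822) .nil)),
   .two (nat_lit 37748740) (nat_lit 10913579018) (.two (nat_lit 4194305) (nat_lit 310378608) (.two (nat_lit 2097152) (nat_lit 876609906) (.one (nat_lit 8391242) .nil))),
   .two (nat_lit 16777220) (nat_lit 641728575) (.two (nat_lit 16777216) (nat_lit 9902752259) (.one (nat_lit 839910579) .nil)),
   .two (nat_lit 12129927172) (nat_lit 174752530436) (.two (nat_lit 20637024258) (nat_lit 20753416243) (.two (nat_lit 1048576) (nat_lit 50332011) (.one (nat_lit 822084889) .nil))),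
   .two (nat_lit 639631364) (nat_lit 135266309) (.two (nat_lit 28757196803) (nat_lit 166230753324) (.two (nat_lit 2097152) (nat_lit 2987394238) .nil)),
   .two (nat_lit 285212676) (nat_lit 3527409691) (.two (nat_lit 4194304) (nat_lit 16777768) (.one (nat_lit 1749026037) .nil)),
   .two (nat_lit 705691652) (nat_lit 20644364296) (.two (nat_lit 2097153) (nat_lit 158653743157) (.two (nat_lit 8388608) (nat_lit 10503586142) (.one (nat_lit 1051211) .nil))),
   .two (nat_lit 20644364292) (nat_lit 159250382902) (.two (nat_lit 1048576) (nat_lit 41943377) (.one (nat_lit 47588574944) .nil)),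
   .two (nat_lit 1175453700) (nat_lit 2420113415) (.two (nat_lit 8388611) (nat_lit 1745879048) (.two (nat_lit 4194305) (nat_lit 12147753045) (.two (nat_lit 4194304) (nat_lit 8390221) (.one (nat_lit 4196940) .nil)))),
   .two (nat_lit 46414168068) (nat_lit 156569174021) (.two (nat_lit 9781116931) (nat_lit 343932955) (.two (nat_lit 4194304) (nat_lit 109052195) (.one (nat_lit 8390585) .nil))),
   .two (nat_lit 185020186629) (nat_lit 166197198854) (.two (nat_lit 184549379) (nat_lit 773849271) (.one (nat_lit 1050556) .nil)),
   .two (nat_lit 75497476) (nat_lit 183845781508) (.two (nat_lit 34603011) (nat_lit 75497480) (.two (nat_lit 2097153) (nat_lit 158075977781) (.two (nat_lit 1048576) (nat_lit 4194858) (.one (nat_lit 8391246) .nil)))),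
   .two (nat_lit 272629764) (nat_lit 117440518) (.two (nat_lit 9948889091) (nat_lit 4634705946) (.two (nat_lit 16777216) (nat_lit 4194716) (.one (nat_lit 174755677469) .nil))),
   .two (nat_lit 639631364) (nat_lit 13187940359) (.two (nat_lit 1913651203) (nat_lit 28758245390) (.two (nat_lit 16777217) (nat_lit 3557818749) (.one (nat_lit 1051215) .nil))),
   .two (nat_lit 16777222) (nat_lit 2954887174) (.two (nat_lit 16777219) (nat_lit 3558866964) (.two (nat_lit 16777217) (nat_lit 47582281771) (.two (nat_lit 2097152) (nat_lit 19026412245) .nil))),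
   .two (nat_lit 1291845636) (nat_lit 4028629001) (.two (nat_lit 2097153) (nat_lit 754974991) (.one (nat_lit 2099792) .nil)),
   .two (nat_lit 205520900) (nat_lit 673185798) (.two (nat_lit 158144135171) (nat_lit 46409973770) (.two (nat_lit 605028353) (nat_lit 1411383354) (.two (nat_lit 1048576) (nat_lit 1780482879) (.one (nat_lit 2099793) .nil)))),
   .two (nat_lit 46409973764) (nat_lit 1417674762) (.two (nat_lit 41943041) (nat_lit 3527409943) (.one (nat_lit 4196946) .nil)),
   .two (nat_lit 9866051588) (nat_lit 166130089994) (.two (nat_lit 605028353) (nat_lit 166237044790) (.two (nat_lit 2097152) (nat_lit 1049437) (.one (nat_lit 1051219) .nil))),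
   .two (nat_lit 21214789636) (nat_lit 19093520389) (.two (nat_lit 2956984323) (nat_lit 4605345836) (.two (nat_lit 1048576) (nat_lit 2994733375) (.one (nat_lit 8390602) .nil))),
   .two (nat_lit 822083588) (nat_lit 9899606022) (.two (nat_lit 739246083) (nat_lit 159266111582) (.two (nat_lit 16777216) (nat_lit 10436477250) (.one (nat_lit 11510220596) .nil))),
   .two (nat_lit 75497476) (nat_lit 11559501828) (.two (nat_lit 721420291) (nat_lit 166132187144) (.two (nat_lit 16777217) (nat_lit 12620660818) (.two (nat_lit 4194304) (nat_lit 8389456) (.one (nat_lit 8390608) .nil)))),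
   .two (nat_lit 721420292) (nat_lit 156465364998) (.two (nat_lit 721420290) (nat_lit 1913651220) (.two (nat_lit 34603009) (nat_lit 754974999) (.one (nat_lit 16779860) .nil))),
   .two (nat_lit 203423748) (nat_lit 1749024778) (.two (nat_lit 37748737) (nat_lit 740294740) (.two (nat_lit 4194304) (nat_lit 2098015) (.one (nat_lit 12620661526) .nil))),
   .two (nat_lit 739246084) (nat_lit 183853121546) (.two (nat_lit 34603009) (nat_lit 13195280421) (.two (nat_lit 16777216) (nat_lit 11014242629) (.one (nat_lit 8390610) .nil))),
   .two (nat_lit 1178599428) (nat_lit 1745879048) (.two (nat_lit 34603009) (nat_lit 28693234868) .nil),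
   .two (nat_lit 285212676) (nat_lit 159224168456) (.two (nat_lit 2097153) (nat_lit 243269659) (.two (nat_lit 8388608) (nat_lit 16778080) (.one (nat_lit 16779861) .nil))),
   .two (nat_lit 47555018756) (nat_lit 37247516682) (.two (nat_lit 606076929) (nat_lit 10343153732) (.one (nat_lit 9934210693) .nil)),
   .two (nat_lit 176160772) (nat_lit 10907287593) (.two (nat_lit 8388608) (nat_lit 10001319201) .nil),
   .two (nat_lit 218103812) (nat_lit 166130089988) (.two (nat_lit 10504634371) (nat_lit 156581757328) (.one (nat_lit 16779222) .nil)),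
   .two (nat_lit 754974724) (nat_lit 202375175) (.two (nat_lit 171966467) (nat_lit 754974745) (.two (nat_lit 1048576) (nat_lit 1761608073) (.one (nat_lit 11593057564) .nil))),
   .two (nat_lit 2889875460) (nat_lit 19128123398) (.two (nat_lit 2954887171) (nat_lit 3024093250) (.two (nat_lit 2097152) (nat_lit 4195169) (.one (nat_lit 4196315) .nil))),
   .two (nat_lit 37748740) (nat_lit 19529728004) (.two (nat_lit 157035790339) (nat_lit 606076936) (.two (nat_lit 16777217) (nat_lit 166199296184) (.one (nat_lit 205522692) .nil))),
   .two (nat_lit 28693233668) (nat_lit 21811429381) (.two (nat_lit 21777874947) (nat_lit 10540286133) (.one (nat_lit 37249615166) .nil)),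
   .two (nat_lit 101711876) (nat_lit 37253808134) (.two (nat_lit 822083587) (nat_lit 235929646) (.two (nat_lit 16777216) (nat_lit 3457155379) (.one (nat_lit 8391254) .nil))),
   .two (nat_lit 158144135172) (nat_lit 1913651204) (.two (nat_lit 11476664322) (nat_lit 21208498203) (.two (nat_lit 1048576) (nat_lit 21208498456) (.one (nat_lit 2099799) .nil))),
   .two (nat_lit 37748740) (nat_lit 1846542344) (.two (nat_lit 37748737) (nat_lit 20704133158) (.two (nat_lit 2097152) (nat_lit 28757197124) (.one (nat_lit 1051224) .nil))),
   .two (nat_lit 11543773188) (nat_lit 47548727303) (.two (nat_lit 2954887171) (nat_lit 10369368074) (.two (nat_lit 605028353) (nat_lit 12048138324) (.two (nat_lit 2097152) (nat_lit 873464671) (.one (nat_lit 3525313302) .nil)))),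
   .two (nat_lit 37748740) (nat_lit 11543773191) (.two (nat_lit 9934209027) (nat_lit 1276117000) (.two (nat_lit 606076929) (nat_lit 158079123503) (.two (nat_lit 2097152) (nat_lit 1175454060) (.one (nat_lit 4196953) .nil)))),
   .two (nat_lit 117440516) (nat_lit 165526110215) (.two (nat_lit 16777218) (nat_lit 3525312568) (.two (nat_lit 16777216) (nat_lit 2098018) (.one (nat_lit 807404263) .nil))),
   .two (nat_lit 606076932) (nat_lit 158083317786) (.two (nat_lit 2097152) (nat_lit 239075619) (.one (nat_lit 4196329) .nil)),
   .two (nat_lit 28093448196) (nat_lit 156968681478) (.two (nat_lit 739246083) (nat_lit 28093448200) (.two (nat_lit 16777217) (nat_lit 183853121609) (.two (nat_lit 8388608) (nat_lit 158192370037) (.one (nat_lit 16779866) .nil)))),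
   .two (nat_lit 16777220) (nat_lit 10343153668) (.two (nat_lit 46414168066) (nat_lit 721420315) (.two (nat_lit 8388608) (nat_lit 83886350) (.one (nat_lit 16779247) .nil))),
   .two (nat_lit 12047089668) (nat_lit 1847590916) (.two (nat_lit 184986632195) (nat_lit 19530776584) (.two (nat_lit 156364701697) (nat_lit 2418016310) (.two (nat_lit 4194304) (nat_lit 639631904) (.one (nat_lit 2099185) .nil)))),
   .two (nat_lit 739246084) (nat_lit 158077026308) (.two (nat_lit 11543773187) (nat_lit 337641483) (.two (nat_lit 34603009) (nat_lit 183947493480) (.two (nat_lit 1048576) (nat_lit 20738736405) (.one (nat_lit 2099803) .nil)))),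
   .two (nat_lit 46978301956) (nat_lit 1216348166) (.two (nat_lit 4605345795) (nat_lit 157036838920) (.two (nat_lit 2097153) (nat_lit 1216348203) (.two (nat_lit 2097152) (nat_lit 1853882841) (.one (nat_lit 8391260) .nil)))),
   .two (nat_lit 4194308) (nat_lit 165532401707) (.two (nat_lit 4194304) (nat_lit 8389172) (.one (nat_lit 1051229) .nil)),
   .two (nat_lit 1178599428) (nat_lit 202375216) (.two (nat_lit 4194304) (nat_lit 9866052928) .nil),
   .two (nat_lit 12054429700) (nat_lit 46510637062) (.two (nat_lit 2889875459) (nat_lit 184993972251) (.two (nat_lit 8388608) (nat_lit 4195172) (.one (nat_lit 4196124) .nil))),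
   .two (nat_lit 4194308) (nat_lit 156984410124) (.two (nat_lit 34603009) (nat_lit 10372514352) (.one (nat_lit 4196958) .nil)),
   .two (nat_lit 606076932) (nat_lit 28690087944) (.two (nat_lit 37748737) (nat_lit 18925748768) (.one (nat_lit 1410336458) .nil)),
   .two (nat_lit 2954887172) (nat_lit 754974735) (.two (nat_lit 612368385) (nat_lit 4028629042) (.two (nat_lit 8388608) (nat_lit 2098021) (.one (nat_lit 2099807) .nil))),
   .two (nat_lit 612368390) (nat_lit 183912890373) (.two (nat_lit 612368387) (nat_lit 11610882111) (.two (nat_lit 8388608) (nat_lit 19127075288) (.one (nat_lit 1050619) .nil))),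
   .two (nat_lit 37748740) (nat_lit 28690087944) (.two (nat_lit 606076929) (nat_lit 183848927608) (.one (nat_lit 1050620) .nil)),
   .two (nat_lit 13195280388) (nat_lit 20637024260) (.two (nat_lit 9933160451) (nat_lit 13195280428) (.two (nat_lit 4194304) (nat_lit 20745027946) (.one (nat_lit 1051232) .nil))),
   .two (nat_lit 1277165572) (nat_lit 9802088453) (.two (nat_lit 9934209027) (nat_lit 9802088462) (.two (nat_lit 606076929) (nat_lit 306184266) (.two (nat_lit 2097152) (nat_lit 46477083805) .nil))),
   .two (nat_lit 46409973764) (nat_lit 9765388294) (.two (nat_lit 176160771) (nat_lit 21777874952) (.two (nat_lit 34603009) (nat_lit 71303269) (.two (nat_lit 4194304) (nat_lit 1947205955) (.one (nat_lit 1050626) .nil)))),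
   .two (nat_lit 9881780228) (nat_lit 19093520404) (.two (nat_lit 612368385) (nat_lit 158091706451) (.two (nat_lit 16777216) (nat_lit 8389478) (.one (nat_lit 16779873) .nil))),
   .two (nat_lit 620756996) (nat_lit 2357198870) (.two (nat_lit 8388609) (nat_lit 318767418) (.one (nat_lit 16779275) .nil)),
   .two (nat_lit 41943044) (nat_lit 11007950858) (.two (nat_lit 8388609) (nat_lit 156533522714) (.one (nat_lit 2099810) .nil)),
   .two (nat_lit 705691652) (nat_lit 184993972232) (.two (nat_lit 2097153) (nat_lit 1779433531) (.two (nat_lit 1048576) (nat_lit 8389177) (.one (nat_lit 1377830737) .nil))),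
   .two (nat_lit 184416206852) (nat_lit 9948889093) (.two (nat_lit 620756995) (nat_lit 184416206856) (.two (nat_lit 612368385) (nat_lit 12147753426) (.one (nat_lit 16779875) .nil))),
   .two (nat_lit 1175453700) (nat_lit 165526110216) (.two (nat_lit 8388609) (nat_lit 1310720272) (.one (nat_lit 2099812) .nil)),
   .two (nat_lit 184416206852) (nat_lit 4043309063) (.two (nat_lit 9781116931) (nat_lit 772800522) (.two (nat_lit 34603009) (nat_lit 185035915455) (.two (nat_lit 8388608) (nat_lit 705693126) .nil))),
   .two (nat_lit 28757196804) (nat_lit 843055109) (.two (nat_lit 11559501827) (nat_lit 1276117000) (.two (nat_lit 50331649) (nat_lit 46473937421) (.one (nat_lit 4196965) .nil))),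
   .two (nat_lit 117440516) (nat_lit 20704133125) (.two (nat_lit 9866051587) (nat_lit 19604176904) (.two (nat_lit 34603009) (nat_lit 9873391942) (.one (nat_lit 8391270) .nil))),
   .two (nat_lit 1913651204) (nat_lit 4599054343) (.two (nat_lit 50331651) (nat_lit 11476664328) (.two (nat_lit 620756993) (nat_lit 2886730576) (.one (nat_lit 2886731728) .nil))),
   .two (nat_lit 809500676) (nat_lit 166129041412) (.two (nat_lit 4194306) (nat_lit 4638900242) (.two (nat_lit 8388609) (nat_lit 1346372109) (.one (nat_lit 4196967) .nil))),
   .two (nat_lit 169869316) (nat_lit 156372041732) (.two (nat_lit 209715203) (nat_lit 47548727304) (.two (nat_lit 8388609) (nat_lit 13222543739) (.one (nat_lit 1310721901) .nil))),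
   .two (nat_lit 4601151492) (nat_lit 28758245381) (.two (nat_lit 2969567235) (nat_lit 13188988989) (.two (nat_lit 16777216) (nat_lit 19128123718) (.one (nat_lit 4196968) .nil))),
   .two (nat_lit 813694980) (nat_lit 1745879048) (.two (nat_lit 8388609) (nat_lit 203423797) (.two (nat_lit 8388608) (nat_lit 157035790716) (.one (nat_lit 12618564765) .nil))),
   .two (nat_lit 721420292) (nat_lit 10913579015) (.two (nat_lit 176160771) (nat_lit 721420569) (.one (nat_lit 16778747) .nil)),
   .two (nat_lit 2954887172) (nat_lit 721420298) (.two (nat_lit 50331649) (nat_lit 337641536) (.two (nat_lit 16777216) (nat_lit 166230753602) (.one (nat_lit 2098944) .nil))),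
   .two (nat_lit 2923429894) (nat_lit 1417674758) (.two (nat_lit 11479810051) (nat_lit 10007609354) (.two (nat_lit 8388609) (nat_lit 4634706203) (.one (nat_lit 12150901278) .nil))),
   .two (nat_lit 276824068) (nat_lit 10506731524) (.two (nat_lit 2956984323) (nat_lit 4605345802) (.two (nat_lit 9768534017) (nat_lit 772800708) (.two (nat_lit 4194304) (nat_lit 8389178) (.one (nat_lit 4196969) .nil)))),
   .two (nat_lit 158075977732) (nat_lit 654311430) (.two (nat_lit 1358954499) (nat_lit 174752530440) (.two (nat_lit 605028353) (nat_lit 1291845911) (.one (nat_lit 166196151931) .nil))),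
   .two (nat_lit 174759870468) (nat_lit 1947205675) (.two (nat_lit 16777216) (nat_lit 209715547) (.one (nat_lit 8390690) .nil)),
   .two (nat_lit 721420292) (nat_lit 1350565899) (.two (nat_lit 34603009) (nat_lit 21793603954) (.one (nat_lit 8390693) .nil)),
   .two (nat_lit 158075977732) (nat_lit 166230753286) (.two (nat_lit 10370416643) (nat_lit 20637024265) (.two (nat_lit 605028353) (nat_lit 4632608858) (.two (nat_lit 2097152) (nat_lit 2953838933) (.one (nat_lit 2099238) .nil)))),
   .two (nat_lit 9934209028) (nat_lit 135266309) (.two (nat_lit 9934209027) (nat_lit 1745879048) (.two (nat_lit 606076929) (nat_lit 772800537) (.two (nat_lit 1048576) (nat_lit 184987681176) (.one (nat_lit 2099241) .nil)))),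
   .two (nat_lit 8388612) (nat_lit 754974728) (.two (nat_lit 50331649) (nat_lit 209715246) (.two (nat_lit 16777216) (nat_lit 8389179) (.one (nat_lit 158653743872) .nil))),
   .two (nat_lit 16777220) (nat_lit 3028287570) (.two (nat_lit 16777216) (nat_lit 11551113784) (.one (nat_lit 8391274) .nil)),
   .two (nat_lit 83886084) (nat_lit 1847590918) (.two (nat_lit 620756995) (nat_lit 166197198868) (.two (nat_lit 606076929) (nat_lit 9881780503) (.one (nat_lit 2099247) .nil))),
   .two (nat_lit 3458203652) (nat_lit 1216348166) (.two (nat_lit 47555018755) (nat_lit 184417255777) (.one (nat_lit 16779883) .nil)),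
   .two (nat_lit 176160772) (nat_lit 3573547014) (.two (nat_lit 218103811) (nat_lit 28697428151) (.one (nat_lit 1050673) .nil)),
   .two (nat_lit 739246084) (nat_lit 156372041749) (.two (nat_lit 16777217) (nat_lit 68157836) (.one (nat_lit 11510220529) .nil)),
   .two (nat_lit 713031686) (nat_lit 2969567237) (.two (nat_lit 176160771) (nat_lit 50331665) (.two (nat_lit 8388609) (nat_lit 4613734459) (.two (nat_lit 16777216) (nat_lit 8389481) (.one (nat_lit 8391276) .nil)))),
   .two (nat_lit 156365750276) (nat_lit 13224640517) (.two (nat_lit 50331651) (nat_lit 304087106) (.two (nat_lit 16777216) (nat_lit 166197200106) .nil)),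
   .two (nat_lit 2902458372) (nat_lit 159217876998) (.two (nat_lit 159217876995) (nat_lit 10385096748) (.two (nat_lit 4194304) (nat_lit 19142803775) (.one (nat_lit 16779316) .nil))),
   .two (nat_lit 156533522438) (nat_lit 2420113414) (.two (nat_lit 16777219) (nat_lit 1780482155) (.two (nat_lit 4194304) (nat_lit 2098026) (.one (nat_lit 16779885) .nil))),
   .two (nat_lit 10343153668) (nat_lit 184986632198) (.two (nat_lit 13187940355) (nat_lit 10343153672) (.two (nat_lit 8388609) (nat_lit 28790752088) (.one (nat_lit 9798944693) .nil))),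
   .two (nat_lit 11476664324) (nat_lit 12129927226) (.two (nat_lit 1048576) (nat_lit 2097725) (.one (nat_lit 1051246) .nil)),
   .two (nat_lit 169869316) (nat_lit 19532873736) (.two (nat_lit 2097153) (nat_lit 9802088491) (.two (nat_lit 1048576) (nat_lit 239075800) (.one (nat_lit 4196975) .nil))),
   .two (nat_lit 4601151492) (nat_lit 46992982023) (.two (nat_lit 9948889091) (nat_lit 13191086088) (.two (nat_lit 4194305) (nat_lit 28806479928) (.two (nat_lit 8388608) (nat_lit 239076140) .nil))),
   .two (nat_lit 8388612) (nat_lit 37314625546) (.two (nat_lit 50331649) (nat_lit 1913651612) (.one (nat_lit 1050677) .nil)),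
   .two (nat_lit 2961178628) (nat_lit 47582281734) (.two (nat_lit 270532611) (nat_lit 19134414860) (.two (nat_lit 9765388289) (nat_lit 2887778360) (.two (nat_lit 1048576) (nat_lit 2098027) (.one (nat_lit 1050680) .nil)))),
   .two (nat_lit 50331653) (nat_lit 10443816988) (.two (nat_lit 41943041) (nat_lit 183928619061) (.two (nat_lit 8388608) (nat_lit 16778092) (.one (nat_lit 12121539767) .nil))),
   .two (nat_lit 174752530436) (nat_lit 156533522461) (.two (nat_lit 37748737) (nat_lit 1376780332) (.two (nat_lit 2097152) (nat_lit 10335814015) (.one (nat_lit 1051248) .nil))),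
   .two (nat_lit 285212676) (nat_lit 1276117006) (.two (nat_lit 2097153) (nat_lit 1343225937) (.two (nat_lit 4194304) (nat_lit 166211879094) (.one (nat_lit 16779889) .nil))),
   .two (nat_lit 41943044) (nat_lit 37249613830) (.two (nat_lit 8388610) (nat_lit 12117344269) (.two (nat_lit 8388609) (nat_lit 18928894008) (.two (nat_lit 8388608) (nat_lit 4195181) (.one (nat_lit 4196410) .nil)))),
   .two (nat_lit 41943044) (nat_lit 138412037) (.two (nat_lit 8388610) (nat_lit 2420113421) (.two (nat_lit 50331649) (nat_lit 10942939192) (.two (nat_lit 4194304) (nat_lit 9915335531) (.one (nat_lit 21814576816) .nil)))),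
   .two (nat_lit 4601151492) (nat_lit 47555018757) (.two (nat_lit 176160771) (nat_lit 9768534067) (.two (nat_lit 8388608) (nat_lit 11479811379) .nil)),
   .two (nat_lit 11543773188) (nat_lit 156548202514) (.two (nat_lit 8388609) (nat_lit 10939793513) (.two (nat_lit 8388608) (nat_lit 16778094) (.one (nat_lit 10552870808) .nil))),
   .two (nat_lit 11543773188) (nat_lit 28758245380) (.two (nat_lit 639631363) (nat_lit 184986632200) (.two (nat_lit 34603009) (nat_lit 11511267412) (.two (nat_lit 1048576) (nat_lit 2988441866) (.one (nat_lit 2099826) .nil)))),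
   .two (nat_lit 4194308) (nat_lit 117440551) (.two (nat_lit 4194304) (nat_lit 13237223743) (.one (nat_lit 16779323) .nil)),
   .two (nat_lit 184986632196) (nat_lit 1916796936) (.two (nat_lit 34603009) (nat_lit 205520946) (.two (nat_lit 1048576) (nat_lit 4195184) (.one (nat_lit 156465366217) .nil))),
   .two (nat_lit 16777220) (nat_lit 641728575) (.two (nat_lit 16777216) (nat_lit 4194809) (.one (nat_lit 1051251) .nil)),
   .two (nat_lit 11492392964) (nat_lit 11577327622) (.two (nat_lit 9781116931) (nat_lit 12047089672) (.two (nat_lit 50331649) (nat_lit 1343225950) (.two (nat_lit 16777216) (nat_lit 1049151) (.one (nat_lit 37313577704) .nil)))),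
   .two (nat_lit 10370416644) (nat_lit 158143086616) (.two (nat_lit 2097152) (nat_lit 873464517) .nil),
   .two (nat_lit 203423748) (nat_lit 243269658) (.two (nat_lit 2097152) (nat_lit 10544482081) .nil),
   .two (nat_lit 3464495108) (nat_lit 1745879055) (.two (nat_lit 8388609) (nat_lit 1309671477) (.two (nat_lit 8388608) (nat_lit 3020947769) (.one (nat_lit 1050687) .nil))),
   .two (nat_lit 21811429381) (nat_lit 37249613830) (.two (nat_lit 1291845635) (nat_lit 28089254226) (.one (nat_lit 13191087456) .nil)),
   .two (nat_lit 276824068) (nat_lit 1176502284) (.two (nat_lit 8388609) (nat_lit 1779433521) (.two (nat_lit 8388608) (nat_lit 4027580753) (.one (nat_lit 2099264) .nil))),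
   .two (nat_lit 12047089668) (nat_lit 21208498184) (.two (nat_lit 34603009) (nat_lit 1210057044) (.one (nat_lit 2099265) .nil)),
   .two (nat_lit 705691652) (nat_lit 10913579014) (.two (nat_lit 285212675) (nat_lit 28757196810) (.two (nat_lit 2097153) (nat_lit 1384120374) (.two (nat_lit 2097152) (nat_lit 1853884472) .nil))),
   .two (nat_lit 47548727300) (nat_lit 9906946058) (.two (nat_lit 2097153) (nat_lit 10003415094) (.two (nat_lit 2097152) (nat_lit 4195185) (.one (nat_lit 2099828) .nil))),
   .two (nat_lit 713031684) (nat_lit 1291845636) (.two (nat_lit 9948889091) (nat_lit 174692761783) (.one (nat_lit 156539815255) .nil)),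
   .two (nat_lit 11559501828) (nat_lit 10370416653) (.two (nat_lit 2097153) (nat_lit 1782579281) (.two (nat_lit 8388608) (nat_lit 16778098) (.one (nat_lit 8391285) .nil))),
   .two (nat_lit 1795162118) (nat_lit 880803846) (.two (nat_lit 41943043) (nat_lit 117440520) (.two (nat_lit 50331649) (nat_lit 184993972507) (.one (nat_lit 1358956155) .nil))),
   .two (nat_lit 9766436868) (nat_lit 183848927240) (.two (nat_lit 41943041) (nat_lit 874513799) .nil),
   .two (nat_lit 1291845636) (nat_lit 1310720014) (.two (nat_lit 41943041) (nat_lit 158158815285) (.two (nat_lit 2097152) (nat_lit 2365588030) (.one (nat_lit 2099830) .nil))),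
   .two (nat_lit 1779433476) (nat_lit 1847590938) (.two (nat_lit 1048576) (nat_lit 1411383478) (.one (nat_lit 156466415014) .nil)),
   .two (nat_lit 2887778308) (nat_lit 1178599428) (.two (nat_lit 9768534019) (nat_lit 3525312520) (.two (nat_lit 34603009) (nat_lit 183848927287) (.two (nat_lit 1048576) (nat_lit 9969860958) (.one (nat_lit 4196423) .nil)))),
   .two (nat_lit 2887778308) (nat_lit 2956984331) (.two (nat_lit 34603009) (nat_lit 1782579295) (.two (nat_lit 4194304) (nat_lit 135268098) .nil)),
   .two (nat_lit 4194308) (nat_lit 2954887180) (.two (nat_lit 4194305) (nat_lit 158143086646) (.two (nat_lit 4194304) (nat_lit 19612566061) (.one (nat_lit 16779895) .nil))),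
   .two (nat_lit 9934209028) (nat_lit 18933088264) (.two (nat_lit 2097153) (nat_lit 19604176981) (.two (nat_lit 8388608) (nat_lit 156567077347) (.one (nat_lit 2099832) .nil))),
   .two (nat_lit 4194308) (nat_lit 174686470154) (.two (nat_lit 605028353) (nat_lit 46409974136) (.one (nat_lit 2099274) .nil)),
   .two (nat_lit 2988441606) (nat_lit 184993972229) (.two (nat_lit 176160771) (nat_lit 12115247132) (.two (nat_lit 8388609) (nat_lit 156567076949) (.two (nat_lit 8388608) (nat_lit 11511267810) (.one (nat_lit 8390732) .nil)))),
   .two (nat_lit 184986632196) (nat_lit 3028287494) (.two (nat_lit 176160771) (nat_lit 2416967716) (.two (nat_lit 8388608) (nat_lit 21811429642) (.one (nat_lit 1051257) .nil))),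
   .two (nat_lit 1178599428) (nat_lit 28690087962) (.two (nat_lit 4194304) (nat_lit 1049943) .nil),
   .two (nat_lit 8388612) (nat_lit 876609546) (.two (nat_lit 50331649) (nat_lit 19130220863) (.one (nat_lit 4196404) .nil)),
   .two (nat_lit 620756996) (nat_lit 1178599434) (.two (nat_lit 8388609) (nat_lit 19599982645) (.two (nat_lit 4194304) (nat_lit 46992982556) (.one (nat_lit 11546920726) .nil))),
   .two (nat_lit 9934209028) (nat_lit 159250382877) (.two (nat_lit 16777217) (nat_lit 68157479) (.two (nat_lit 16777216) (nat_lit 20638073215) (.one (nat_lit 1210059376) .nil))),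
   .two (nat_lit 50331652) (nat_lit 46510637062) (.two (nat_lit 2889875459) (nat_lit 3003122053) (.one (nat_lit 158662132453) .nil)),
   .two (nat_lit 754974724) (nat_lit 2889875462) (.two (nat_lit 171966467) (nat_lit 12163481626) (.two (nat_lit 16777216) (nat_lit 809501545) (.one (nat_lit 4196431) .nil))),
   .two (nat_lit 612368388) (nat_lit 19530776584) (.two (nat_lit 8388609) (nat_lit 184987680880) (.two (nat_lit 2097152) (nat_lit 310378841) (.one (nat_lit 2099834) .nil))),
   .two (nat_lit 9881780228) (nat_lit 184416206868) (.two (nat_lit 34603009) (nat_lit 117440845) (.one (nat_lit 19042141299) .nil)),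
   .two (nat_lit 9768534020) (nat_lit 4613734404) (.two (nat_lit 16777218) (nat_lit 19130220585) (.two (nat_lit 1048576) (nat_lit 104859712) .nil)),
   .two (nat_lit 8388612) (nat_lit 339738634) (.two (nat_lit 41943041) (nat_lit 171966656) (.two (nat_lit 16777216) (nat_lit 10540286276) (.one (nat_lit 4196437) .nil))),
   .two (nat_lit 184549380) (nat_lit 739246086) (.two (nat_lit 34603011) (nat_lit 184549384) (.two (nat_lit 2097153) (nat_lit 11510218866) (.two (nat_lit 2097152) (nat_lit 158143088333) .nil))),
   .two (nat_lit 37748740) (nat_lit 1753219080) (.two (nat_lit 4194305) (nat_lit 3464495457) (.one (nat_lit 8391291) .nil)),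
   .two (nat_lit 4601151492) (nat_lit 1384120327) (.two (nat_lit 18933088259) (nat_lit 9802088516) (.one (nat_lit 4030726956) .nil)),
   .two (nat_lit 4194308) (nat_lit 10504634376) (.two (nat_lit 4194305) (nat_lit 158075977777) (.two (nat_lit 4194304) (nat_lit 158647451940) (.one (nat_lit 3557819549) .nil))),
   .two (nat_lit 2902458372) (nat_lit 343932948) (.two (nat_lit 41943041) (nat_lit 101711929) (.two (nat_lit 4194304) (nat_lit 1410334902) (.one (nat_lit 8390748) .nil))),
   .two (nat_lit 813694980) (nat_lit 18928893956) (.two (nat_lit 69206019) (nat_lit 4605345800) (.two (nat_lit 2097153) (nat_lit 19532873813) (.two (nat_lit 2097152) (nat_lit 4195191) (.one (nat_lit 2099293) .nil)))),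
   .two (nat_lit 1191182340) (nat_lit 75497492) (.two (nat_lit 50331649) (nat_lit 4605346062) (.one (nat_lit 11551115353) .nil)),
   .two (nat_lit 184549382) (nat_lit 101711878) (.two (nat_lit 721420291) (nat_lit 19093520398) (.two (nat_lit 50331649) (nat_lit 2316304769) (.one (nat_lit 158158817103) .nil))),
   .two (nat_lit 3527409668) (nat_lit 2317352970) (.two (nat_lit 4194305) (nat_lit 28691136597) (.two (nat_lit 2097152) (nat_lit 4194881) (.one (nat_lit 2099836) .nil))),
   .two (nat_lit 9768534020) (nat_lit 10336862214) (.two (nat_lit 158144135171) (nat_lit 46510637066) (.two (nat_lit 50331649) (nat_lit 46980399494) (.one (nat_lit 2099757) .nil))),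
   .two (nat_lit 1847590916) (nat_lit 1343225863) (.two (nat_lit 1913651203) (nat_lit 11477712944) (.two (nat_lit 1048576) (nat_lit 203425088) .nil)),
   .two (nat_lit 183848927236) (nat_lit 10939793416) (.two (nat_lit 9765388289) (nat_lit 2923430068) (.one (nat_lit 4196990) .nil)),
   .two (nat_lit 1276116996) (nat_lit 1191182356) (.two (nat_lit 4194305) (nat_lit 1786773602) (.two (nat_lit 4194304) (nat_lit 10947133804) (.one (nat_lit 8391295) .nil))),
   .two (nat_lit 2969567238) (nat_lit 28758245381) (.two (nat_lit 2969567235) (nat_lit 203423800) (.two (nat_lit 2097152) (nat_lit 16778106) (.one (nat_lit 16779364) .nil))),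
   .two (nat_lit 21777874948) (nat_lit 721420294) (.two (nat_lit 721420291) (nat_lit 21777874952) (.two (nat_lit 34603009) (nat_lit 10385097179) (.one (nat_lit 1050725) .nil))),
   .two (nat_lit 41943044) (nat_lit 1846542348) (.two (nat_lit 8388609) (nat_lit 12047089773) (.two (nat_lit 8388608) (nat_lit 9766437278) (.one (nat_lit 8391297) .nil))),
   .two (nat_lit 218103812) (nat_lit 1916796955) (.two (nat_lit 16777216) (nat_lit 12150899090) (.one (nat_lit 11479811515) .nil)),
   .two (nat_lit 11492392964) (nat_lit 183848927236) (.two (nat_lit 13191086083) (nat_lit 10351542456) (.one (nat_lit 721422068) .nil)),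
   .two (nat_lit 41943044) (nat_lit 11559501832) (.two (nat_lit 8388609) (nat_lit 1426063664) (.one (nat_lit 8391298) .nil)),
   .two (nat_lit 12050235396) (nat_lit 343932934) (.two (nat_lit 8388611) (nat_lit 9766436910) (.two (nat_lit 2097152) (nat_lit 8389499) (.one (nat_lit 8391299) .nil))),
   .two (nat_lit 9766436868) (nat_lit 1916796933) (.two (nat_lit 1178599427) (nat_lit 2317353007) (.two (nat_lit 2097152) (nat_lit 184993972403) (.one (nat_lit 8390760) .nil))),
   .two (nat_lit 272629764) (nat_lit 639631364) (.two (nat_lit 2954887171) (nat_lit 46980399149) (.two (nat_lit 2097152) (nat_lit 9936306505) (.one (nat_lit 4195853) .nil))),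
   .two (nat_lit 101711878) (nat_lit 19530776582) (.two (nat_lit 638582787) (nat_lit 166130090332) (.one (nat_lit 20738737389) .nil)),
   .two (nat_lit 8388612) (nat_lit 2902458372) (.two (nat_lit 285212675) (nat_lit 713031707) (.two (nat_lit 16777216) (nat_lit 645923224) (.one (nat_lit 8391300) .nil))),
   .two (nat_lit 822083588) (nat_lit 4601151494) (.two (nat_lit 4601151491) (nat_lit 1392508976) (.two (nat_lit 4194304) (nat_lit 1049468) (.one (nat_lit 269485970) .nil))),
   .two (nat_lit 21207449604) (nat_lit 28691136521) (.two (nat_lit 605028353) (nat_lit 166130090555) (.one (nat_lit 2099845) .nil)),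
   .two (nat_lit 9934209028) (nat_lit 679477254) (.two (nat_lit 169869314) (nat_lit 159224168461) (.two (nat_lit 2097153) (nat_lit 11551114093) (.one (nat_lit 174759872591) .nil))),
   .two (nat_lit 185002360836) (nat_lit 10540285962) (.two (nat_lit 2097153) (nat_lit 159219974539) (.one (nat_lit 16779910) .nil)),
   .two (nat_lit 184416206852) (nat_lit 18933088262) (.two (nat_lit 47555018755) (nat_lit 184416206856) (.two (nat_lit 34603009) (nat_lit 9873391713) (.two (nat_lit 1048576) (nat_lit 12054430253) (.one (nat_lit 1050126) .nil)))),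
   .two (nat_lit 41943044) (nat_lit 184431935545) (.two (nat_lit 8388608) (nat_lit 1795163485) .nil),
   .two (nat_lit 50331652) (nat_lit 612368392) (.two (nat_lit 8388609) (nat_lit 185002360917) (.two (nat_lit 8388608) (nat_lit 16778109) (.one (nat_lit 8391303) .nil))),
   .two (nat_lit 11479810052) (nat_lit 156372041741) (.two (nat_lit 37748737) (nat_lit 75497539) (.two (nat_lit 16777216) (nat_lit 10942939509) (.one (nat_lit 8391304) .nil))),
   .two (nat_lit 12054429700) (nat_lit 174752530436) (.two (nat_lit 20637024258) (nat_lit 12054430136) .nil),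
   .two (nat_lit 2961178628) (nat_lit 10336862216) (.two (nat_lit 8388609) (nat_lit 10906239448) (.one (nat_lit 1051273) .nil)),
   .two (nat_lit 19599982597) (nat_lit 183946444829) (.two (nat_lit 2097153) (nat_lit 171967634) .nil),
   .two (nat_lit 50331652) (nat_lit 3527409707) (.two (nat_lit 16777216) (nat_lit 47550824922) (.one (nat_lit 272631461) .nil)),
   .two (nat_lit 1916796933) (nat_lit 156465364998) (.two (nat_lit 11543773187) (nat_lit 166232850541) (.two (nat_lit 1048576) (nat_lit 4195918) (.one (nat_lit 1051274) .nil))),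
   .two (nat_lit 8388612) (nat_lit 156367847432) (.two (nat_lit 8388609) (nat_lit 2319450169) (.two (nat_lit 4194304) (nat_lit 1049156) (.one (nat_lit 4197003) .nil))),
   .two (nat_lit 41943044) (nat_lit 1212153894) (.two (nat_lit 8388608) (nat_lit 184419352854) (.one (nat_lit 4195855) .nil)),
   .two (nat_lit 639631364) (nat_lit 28089253894) (.two (nat_lit 620756995) (nat_lit 28758245384) (.two (nat_lit 37748737) (nat_lit 11626610747) (.two (nat_lit 4194304) (nat_lit 2097733) (.one (nat_lit 12150900195) .nil)))),
   .two (nat_lit 739246084) (nat_lit 218103814) (.two (nat_lit 16777219) (nat_lit 159216828601) (.one (nat_lit 1050128) .nil)),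
   .two (nat_lit 169869316) (nat_lit 46414168072) (.two (nat_lit 2097153) (nat_lit 2323644483) (.two (nat_lit 8388608) (nat_lit 9933161028) (.one (nat_lit 2099853) .nil))),
   .two (nat_lit 11476664324) (nat_lit 10519314436) (.two (nat_lit 2097155) (nat_lit 157043130376) (.two (nat_lit 2097153) (nat_lit 157035790363) (.two (nat_lit 2097152) (nat_lit 10510926004) (.one (nat_lit 2099854) .nil)))),
   .two (nat_lit 285212676) (nat_lit 11479810055) (.two (nat_lit 218103811) (nat_lit 157036838920) (.two (nat_lit 4194305) (nat_lit 12048138592) (.one (nat_lit 2098705) .nil))),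
   .two (nat_lit 713031684) (nat_lit 21811429382) (.two (nat_lit 41943043) (nat_lit 4027580444) (.two (nat_lit 41943041) (nat_lit 9933160538) (.two (nat_lit 8388608) (nat_lit 135266779) (.one (nat_lit 1920992782) .nil)))),
   .two (nat_lit 46414168068) (nat_lit 20738736134) (.two (nat_lit 1277165571) (nat_lit 46414168072) (.two (nat_lit 8388609) (nat_lit 159217877048) (.two (nat_lit 8388608) (nat_lit 2098047) (.one (nat_lit 2099317) .nil)))),
   .two (nat_lit 9940500484) (nat_lit 19596836872) (.two (nat_lit 34603009) (nat_lit 18933088342) (.two (nat_lit 4194304) (nat_lit 34603358) (.one (nat_lit 1051279) .nil))),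
   .two (nat_lit 10369368068) (nat_lit 46523220024) (.two (nat_lit 1048576) (nat_lit 19134415395) (.one (nat_lit 11525949533) .nil)),
   .two (nat_lit 276824068) (nat_lit 1358954500) (.two (nat_lit 721420290) (nat_lit 4605345800) (.two (nat_lit 41943041) (nat_lit 4043309142) (.two (nat_lit 1048576) (nat_lit 8388978) (.one (nat_lit 11618224760) .nil)))),
   .two (nat_lit 2961178628) (nat_lit 158144135183) (.two (nat_lit 606076929) (nat_lit 1753220455) .nil),
   .two (nat_lit 37748740) (nat_lit 10385096712) (.two (nat_lit 2097153) (nat_lit 19096666651) (.one (nat_lit 239077465) .nil)),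
   .two (nat_lit 612368388) (nat_lit 13187940357) (.two (nat_lit 2097155) (nat_lit 612368392) (.two (nat_lit 2097153) (nat_lit 46984593465) (.two (nat_lit 8388608) (nat_lit 236979069) (.one (nat_lit 8391313) .nil)))),
   .two (nat_lit 2954887172) (nat_lit 156367847428) (.two (nat_lit 4194306) (nat_lit 10504634376) (.two (nat_lit 620756993) (nat_lit 2887778689) (.one (nat_lit 2099322) .nil))),
   .two (nat_lit 47548727300) (nat_lit 50331677) (.two (nat_lit 9781116929) (nat_lit 3558867137) (.two (nat_lit 2097152) (nat_lit 16778114) (.one (nat_lit 2099858) .nil))),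
   .two (nat_lit 813694980) (nat_lit 46980399108) (.two (nat_lit 708837379) (nat_lit 4605345834) (.two (nat_lit 4194304) (nat_lit 1317011920) (.one (nat_lit 8391315) .nil))),
   .two (nat_lit 166129041412) (nat_lit 1916796933) (.two (nat_lit 605028355) (nat_lit 20644364331) (.two (nat_lit 4194304) (nat_lit 174692763540) .nil)),
   .two (nat_lit 822083588) (nat_lit 11543773210) (.two (nat_lit 16777216) (nat_lit 158176641304) (.one (nat_lit 1050748) .nil)),
   .two (nat_lit 612368388) (nat_lit 10336862216) (.two (nat_lit 34603009) (nat_lit 156969730104) (.two (nat_lit 1048576) (nat_lit 8389508) (.one (nat_lit 2920286100) .nil))),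
   .two (nat_lit 3460300804) (nat_lit 880803883) (.two (nat_lit 1048576) (nat_lit 209717140) .nil),
   .two (nat_lit 158143086596) (nat_lit 10504634372) (.two (nat_lit 2887778306) (nat_lit 21207449627) (.two (nat_lit 2097152) (nat_lit 46473937304) (.one (nat_lit 1051284) .nil))),
   .two (nat_lit 50331652) (nat_lit 184993972248) (.two (nat_lit 41943041) (nat_lit 9982443809) (.two (nat_lit 8388608) (nat_lit 16778913) (.one (nat_lit 166237046927) .nil))),
   .two (nat_lit 1847590916) (nat_lit 156968681480) (.two (nat_lit 19596836867) (nat_lit 1847590938) (.two (nat_lit 9765388289) (nat_lit 706741784) .nil)),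
   .two (nat_lit 158144135173) (nat_lit 157038936072) (.two (nat_lit 20638072835) (nat_lit 3560964146) (.two (nat_lit 2097153) (nat_lit 339739352) (.one (nat_lit 2923432080) .nil))),
   .two (nat_lit 75497476) (nat_lit 158158815280) (.two (nat_lit 50331649) (nat_lit 159224168733) (.two (nat_lit 16777216) (nat_lit 183853123894) .nil)),
   .two (nat_lit 2902458372) (nat_lit 158083317774) (.two (nat_lit 8388611) (nat_lit 10452205625) (.two (nat_lit 9765388289) (nat_lit 1417675218) (.two (nat_lit 16777216) (nat_lit 165525062806) (.one (nat_lit 1051295) .nil)))),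
   .two (nat_lit 705691652) (nat_lit 28693233672) (.two (nat_lit 34603011) (nat_lit 183949590601) (.two (nat_lit 2097153) (nat_lit 183949590708) (.two (nat_lit 2097152) (nat_lit 20637025000) (.one (nat_lit 1051534) .nil)))),
   .two (nat_lit 11479810052) (nat_lit 28086108168) (.two (nat_lit 11479810050) (nat_lit 9899606041) (.two (nat_lit 9765388289) (nat_lit 11479810415) (.two (nat_lit 1048576) (nat_lit 4195582) (.one (nat_lit 4197263) .nil)))),
   .two (nat_lit 16777220) (nat_lit 158144135193) (.two (nat_lit 2097153) (nat_lit 12129927349) (.two (nat_lit 2097152) (nat_lit 16778914) (.one (nat_lit 2099606) .nil))),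
   .two (nat_lit 4601151492) (nat_lit 12147752969) (.two (nat_lit 11476664322) (nat_lit 306184218) (.two (nat_lit 4194305) (nat_lit 1376780563) (.two (nat_lit 4194304) (nat_lit 1376780984) (.one (nat_lit 12117346989) .nil)))),
   .two (nat_lit 1779433476) (nat_lit 183848927288) (.two (nat_lit 37748737) (nat_lit 873464517) (.one (nat_lit 1051536) .nil)),
   .two (nat_lit 21214789636) (nat_lit 156465365018) (.two (nat_lit 9768534017) (nat_lit 1745879429) (.two (nat_lit 4194304) (nat_lit 2953840806) .nil)),
   .two (nat_lit 21793603588) (nat_lit 37313577003) (.two (nat_lit 9765388289) (nat_lit 156481095203) .nil),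
   .two (nat_lit 156372041732) (nat_lit 11577327659) (.two (nat_lit 8388609) (nat_lit 772800799) (.two (nat_lit 8388608) (nat_lit 184416209179) .nil)),
   .two (nat_lit 20638072836) (nat_lit 156372041748) (.two (nat_lit 4605345795) (nat_lit 270532926) (.two (nat_lit 8388608) (nat_lit 1176503003) (.one (nat_lit 10955524424) .nil))),
   .two (nat_lit 50331652) (nat_lit 166132187144) (.two (nat_lit 9768534019) (nat_lit 620757389) (.two (nat_lit 1048576) (nat_lit 9881782562) .nil)),
   .two (nat_lit 843055109) (nat_lit 156533522450) (.two (nat_lit 270532611) (nat_lit 184419352603) (.two (nat_lit 2097153) (nat_lit 10909384889) (.two (nat_lit 1048576) (nat_lit 2954888425) (.one (nat_lit 2100113) .nil)))),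
   .two (nat_lit 620756996) (nat_lit 156372041738) (.two (nat_lit 3531603971) (nat_lit 721420576) (.two (nat_lit 1048576) (nat_lit 721420994) (.one (nat_lit 28790753980) .nil))),
   .two (nat_lit 285212676) (nat_lit 1212153866) (.two (nat_lit 183848927234) (nat_lit 9781116996) (.two (nat_lit 4194304) (nat_lit 822085140) .nil)),
   .two (nat_lit 9781116932) (nat_lit 184986632200) (.two (nat_lit 705691650) (nat_lit 1862271363) (.two (nat_lit 1048576) (nat_lit 855639162) (.one (nat_lit 37246470516) .nil))),
   .two (nat_lit 12129927172) (nat_lit 174752530440) (.two (nat_lit 20637024258) (nat_lit 158158815280) (.two (nat_lit 605028353) (nat_lit 251658962) (.one (nat_lit 16780179) .nil))),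
   .two (nat_lit 1358954500) (nat_lit 3464495112) (.two (nat_lit 721420290) (nat_lit 3464495130) (.two (nat_lit 8388609) (nat_lit 4647289556) (.one (nat_lit 2936015205) .nil))),
   .two (nat_lit 184416206852) (nat_lit 166130089994) (.two (nat_lit 739246083) (nat_lit 157036838956) (.two (nat_lit 34603009) (nat_lit 156466413968) (.two (nat_lit 1048576) (nat_lit 9900655391) (.one (nat_lit 2099609) .nil)))),
   .two (nat_lit 1191182342) (nat_lit 3458203656) (.two (nat_lit 1191182339) (nat_lit 236978202) (.two (nat_lit 2097153) (nat_lit 285213377) (.one (nat_lit 158177692318) .nil))),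
   .two (nat_lit 721420294) (nat_lit 3527409691) (.two (nat_lit 4194305) (nat_lit 3539993326) (.one (nat_lit 4197268) .nil)),
   .two (nat_lit 11543773188) (nat_lit 184993972232) (.two (nat_lit 705691650) (nat_lit 184993972260) (.two (nat_lit 612368385) (nat_lit 1049413) (.two (nat_lit 1048576) (nat_lit 8390308) (.one (nat_lit 184423549103) .nil)))),
   .two (nat_lit 11479810052) (nat_lit 166196150282) (.two (nat_lit 1343225859) (nat_lit 1916796965) (.two (nat_lit 605028353) (nat_lit 28693233945) (.two (nat_lit 1048576) (nat_lit 166132187836) (.one (nat_lit 9933163227) .nil)))),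
   .two (nat_lit 739246084) (nat_lit 46980399112) (.two (nat_lit 4601151491) (nat_lit 156465365033) (.two (nat_lit 4194305) (nat_lit 839909684) (.two (nat_lit 4194304) (nat_lit 46406828787) (.one (nat_lit 1051541) .nil)))),
   .two (nat_lit 9768534020) (nat_lit 47582281738) (.two (nat_lit 169869314) (nat_lit 47550824514) (.two (nat_lit 2097153) (nat_lit 47550825163) (.one (nat_lit 20707281080) .nil))),
   .two (nat_lit 3458203652) (nat_lit 174759870486) (.two (nat_lit 13195280387) (nat_lit 12147753059) (.two (nat_lit 41943041) (nat_lit 183913939436) (.two (nat_lit 8388608) (nat_lit 1049856) (.one (nat_lit 1051543) .nil)))),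
   .two (nat_lit 3028287494) (nat_lit 11492392969) (.two (nat_lit 176160771) (nat_lit 156380430651) (.two (nat_lit 8388608) (nat_lit 158192370437) (.one (nat_lit 687868790) .nil))),
   .two (nat_lit 3458203652) (nat_lit 19599982600) (.two (nat_lit 13191086083) (nat_lit 46474985516) (.two (nat_lit 37748737) (nat_lit 156533522720) (.two (nat_lit 4194304) (nat_lit 10538189506) (.one (nat_lit 174755679527) .nil)))),
   .two (nat_lit 705691652) (nat_lit 13237223491) (.two (nat_lit 4194305) (nat_lit 12147753347) (.two (nat_lit 2097152) (nat_lit 4196005) (.one (nat_lit 4197272) .nil))),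
   .two (nat_lit 4194308) (nat_lit 9766436874) (.two (nat_lit 4194306) (nat_lit 2988441699) (.two (nat_lit 4194305) (nat_lit 839910623) (.one (nat_lit 1051545) .nil))),
   .two (nat_lit 156569174022) (nat_lit 772800539) (.two (nat_lit 34603009) (nat_lit 158079123798) (.two (nat_lit 1048576) (nat_lit 4195585) (.one (nat_lit 1051546) .nil))),
   .two (nat_lit 822083588) (nat_lit 12114198545) (.two (nat_lit 16777218) (nat_lit 166129041499) (.two (nat_lit 8388609) (nat_lit 37313577704) (.one (nat_lit 16780188) .nil))),
   .two (nat_lit 276824068) (nat_lit 654311434) (.two (nat_lit 10504634371) (nat_lit 19026411546) (.two (nat_lit 16777217) (nat_lit 158150426945) (.two (nat_lit 2097152) (nat_lit 202377437) .nil))),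
   .two (nat_lit 13224640517) (nat_lit 28086108168) (.two (nat_lit 12117344259) (nat_lit 9899606404) (.two (nat_lit 1048576) (nat_lit 1379927612) .nil)),
   .two (nat_lit 169869316) (nat_lit 9806282764) (.two (nat_lit 713031682) (nat_lit 9867100535) (.two (nat_lit 1048576) (nat_lit 1413482849) .nil)),
   .two (nat_lit 721420292) (nat_lit 19027460110) (.two (nat_lit 50331651) (nat_lit 337641526) (.two (nat_lit 606076929) (nat_lit 1224737160) (.two (nat_lit 2097152) (nat_lit 166245434594) (.one (nat_lit 16780190) .nil)))),
   .two (nat_lit 721420292) (nat_lit 18933088295) (.two (nat_lit 41943041) (nat_lit 158192370455) (.one (nat_lit 1350568158) .nil)),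
   .two (nat_lit 2902458372) (nat_lit 28758245384) (.two (nat_lit 1277165570) (nat_lit 9781117367) (.one (nat_lit 158091707930) .nil)),
   .two (nat_lit 639631366) (nat_lit 20704133130) (.two (nat_lit 9934209027) (nat_lit 159216828482) (.two (nat_lit 606076929) (nat_lit 183845781689) (.two (nat_lit 2097152) (nat_lit 1049859) (.one (nat_lit 8391583) .nil)))),
   .two (nat_lit 37748740) (nat_lit 46514831414) (.two (nat_lit 4194305) (nat_lit 19094569350) (.two (nat_lit 8388608) (nat_lit 19530777746) (.one (nat_lit 2099939) .nil))),
   .two (nat_lit 713031684) (nat_lit 339738644) (.two (nat_lit 2097155) (nat_lit 166132187245) (.two (nat_lit 34603009) (nat_lit 37247517063) (.two (nat_lit 8388608) (nat_lit 4196008) (.one (nat_lit 8391584) .nil)))),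
   .two (nat_lit 2887778308) (nat_lit 9768534024) (.two (nat_lit 34603011) (nat_lit 11618222105) (.two (nat_lit 4194305) (nat_lit 10001318659) (.one (nat_lit 4197281) .nil))),
   .two (nat_lit 68157444) (nat_lit 3464495146) (.two (nat_lit 4194305) (nat_lit 19100861143) (.one (nat_lit 1853884692) .nil)),
   .two (nat_lit 1277165572) (nat_lit 19596836874) (.two (nat_lit 1277165570) (nat_lit 101711923) (.two (nat_lit 16777217) (nat_lit 19027461288) (.one (nat_lit 1051554) .nil))),
   .two (nat_lit 11492392964) (nat_lit 46980399112) (.two (nat_lit 11492392962) (nat_lit 19096666164) (.two (nat_lit 4194305) (nat_lit 721420467) (.two (nat_lit 4194304) (nat_lit 3539993731) (.one (nat_lit 272632711) .nil)))),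
   .two (nat_lit 612368388) (nat_lit 10940841994) (.two (nat_lit 176160770) (nat_lit 10940842023) (.two (nat_lit 2097153) (nat_lit 11618222362) (.two (nat_lit 2097152) (nat_lit 8389893) (.one (nat_lit 746588450) .nil)))),
   .two (nat_lit 11551113220) (nat_lit 754974728) (.two (nat_lit 721420291) (nat_lit 1786773566) (.two (nat_lit 16777217) (nat_lit 69207215) (.one (nat_lit 12121540923) .nil))),
   .two (nat_lit 169869316) (nat_lit 10506731528) (.two (nat_lit 169869314) (nat_lit 339738681) (.two (nat_lit 2097153) (nat_lit 1178599801) (.two (nat_lit 1048576) (nat_lit 4195590) (.one (nat_lit 4197283) .nil)))),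
   .two (nat_lit 9866051588) (nat_lit 156971827208) (.two (nat_lit 1343225859) (nat_lit 28693233706) (.two (nat_lit 9765388289) (nat_lit 157038936767) (.one (nat_lit 11010050331) .nil))),
   .two (nat_lit 18933088260) (nat_lit 183845781567) (.two (nat_lit 34603009) (nat_lit 645923524) (.one (nat_lit 8391588) .nil)),
   .two (nat_lit 184549380) (nat_lit 606076936) (.two (nat_lit 184549378) (nat_lit 2418016354) (.two (nat_lit 2097153) (nat_lit 19545456940) (.two (nat_lit 16777216) (nat_lit 185021236480) (.one (nat_lit 4197285) .nil)))),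
   .two (nat_lit 705691652) (nat_lit 11517558796) (.two (nat_lit 270532611) (nat_lit 156367847475) (.two (nat_lit 8388609) (nat_lit 166129041758) (.two (nat_lit 2097152) (nat_lit 158079124667) (.one (nat_lit 47584381236) .nil)))),
   .two (nat_lit 21207449604) (nat_lit 343932970) (.two (nat_lit 41943041) (nat_lit 184986632981) (.one (nat_lit 2357201068) .nil)),
   .two (nat_lit 28093448196) (nat_lit 306184235) (.two (nat_lit 612368385) (nat_lit 2923430175) (.two (nat_lit 8388608) (nat_lit 46980399807) (.one (nat_lit 8391590) .nil))),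
   .two (nat_lit 620756998) (nat_lit 19027460123) (.two (nat_lit 2097153) (nat_lit 156548203222) (.one (nat_lit 2099615) .nil)),
   .two (nat_lit 285212676) (nat_lit 10370416655) (.two (nat_lit 2902458371) (nat_lit 46508539957) (.two (nat_lit 2097153) (nat_lit 174701150611) (.two (nat_lit 2097152) (nat_lit 16778503) (.one (nat_lit 37262199046) .nil)))),
   .two (nat_lit 2961178628) (nat_lit 2902458377) (.two (nat_lit 176160770) (nat_lit 788529212) (.two (nat_lit 612368385) (nat_lit 772800841) (.two (nat_lit 1048576) (nat_lit 47555019543) (.one (nat_lit 2886731997) .nil)))),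
   .two (nat_lit 1277165572) (nat_lit 157038936072) (.two (nat_lit 1277165570) (nat_lit 46980399146) (.two (nat_lit 9766436865) (nat_lit 46510637760) (.one (nat_lit 4197287) .nil))),
   .two (nat_lit 1291845636) (nat_lit 10907287591) (.two (nat_lit 606076929) (nat_lit 10921967929) (.two (nat_lit 2097152) (nat_lit 16778921) (.one (nat_lit 9867102466) .nil))),
   .two (nat_lit 3573547014) (nat_lit 10007609354) (.two (nat_lit 218103811) (nat_lit 185027526704) (.two (nat_lit 16777217) (nat_lit 2894070529) (.one (nat_lit 8391592) .nil))),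
   .two (nat_lit 28772925444) (nat_lit 166130089992) (.two (nat_lit 9881780227) (nat_lit 10376708142) (.two (nat_lit 50331649) (nat_lit 166136381733) (.two (nat_lit 2097152) (nat_lit 28697430350) .nil))),
   .two (nat_lit 4613734404) (nat_lit 4605345833) (.two (nat_lit 50331649) (nat_lit 3020947638) (.two (nat_lit 1048576) (nat_lit 1384121047) (.one (nat_lit 746588512) .nil))),
   .two (nat_lit 205520900) (nat_lit 46474985497) (.two (nat_lit 4194305) (nat_lit 19529728293) (.two (nat_lit 2097152) (nat_lit 1050284) (.one (nat_lit 165525063927) .nil))),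
   .two (nat_lit 620756996) (nat_lit 2889875464) (.two (nat_lit 83886083) (nat_lit 174688567378) (.two (nat_lit 16777217) (nat_lit 306184461) (.two (nat_lit 16777216) (nat_lit 4195593) (.one (nat_lit 4197289) .nil)))),
   .two (nat_lit 16777220) (nat_lit 3558866971) (.two (nat_lit 16777217) (nat_lit 10538189502) (.one (nat_lit 2100138) .nil)),
   .two (nat_lit 4194308) (nat_lit 11014242314) (.two (nat_lit 4194306) (nat_lit 11510219045) (.two (nat_lit 1048576) (nat_lit 8390317) (.one (nat_lit 19100862661) .nil))),
   .two (nat_lit 809500678) (nat_lit 4605345802) (.two (nat_lit 809500675) (nat_lit 679477299) (.two (nat_lit 606076929) (nat_lit 10007609680) (.two (nat_lit 1048576) (nat_lit 4599055062) (.one (nat_lit 2100139) .nil)))),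
   .two (nat_lit 156468510726) (nat_lit 11492392970) (.two (nat_lit 1782579203) (nat_lit 754974746) (.two (nat_lit 37748737) (nat_lit 1962935456) (.one (nat_lit 620759268) .nil))),
   .two (nat_lit 37748740) (nat_lit 336592957) (.two (nat_lit 16777217) (nat_lit 19128124585) (.one (nat_lit 9766439171) .nil)),
   .two (nat_lit 19596836868) (nat_lit 9881780267) (.two (nat_lit 34603009) (nat_lit 9948890646) .nil),
   .two (nat_lit 47563407364) (nat_lit 158144135209) (.two (nat_lit 605028353) (nat_lit 1914700076) (.two (nat_lit 1048576) (nat_lit 2098863) (.one (nat_lit 166197201230) .nil))),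
   .two (nat_lit 272629764) (nat_lit 754974728) (.two (nat_lit 11559501827) (nat_lit 272629784) (.two (nat_lit 50331649) (nat_lit 13224640580) (.two (nat_lit 16777216) (nat_lit 3460301538) (.one (nat_lit 21210597505) .nil)))),
   .two (nat_lit 705691652) (nat_lit 28089253900) (.two (nat_lit 705691650) (nat_lit 10907287602) (.two (nat_lit 34603009) (nat_lit 28087157039) (.two (nat_lit 1048576) (nat_lit 3525313297) (.one (nat_lit 4197292) .nil)))),
   .two (nat_lit 37748740) (nat_lit 50331656) (.two (nat_lit 721420291) (nat_lit 11511267380) (.two (nat_lit 4194305) (nat_lit 9967763524) (.two (nat_lit 4194304) (nat_lit 158177690348) (.one (nat_lit 2100141) .nil)))),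
   .two (nat_lit 2887778308) (nat_lit 19142803476) (.two (nat_lit 822083587) (nat_lit 2988441659) (.two (nat_lit 9765388289) (nat_lit 9814672621) (.one (nat_lit 16780206) .nil))),
   .two (nat_lit 4194308) (nat_lit 10913579020) (.two (nat_lit 8388610) (nat_lit 156535619635) (.two (nat_lit 37748737) (nat_lit 1049096) (.two (nat_lit 1048576) (nat_lit 2098864) (.one (nat_lit 1051567) .nil)))),
   .two (nat_lit 10336862214) (nat_lit 1343225864) (.two (nat_lit 1746927619) (nat_lit 185020186666) (.two (nat_lit 50331649) (nat_lit 1209008853) (.one (nat_lit 1051340) .nil))),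
   .two (nat_lit 169869316) (nat_lit 11559501863) (.two (nat_lit 34603009) (nat_lit 20738736503) (.two (nat_lit 1048576) (nat_lit 10552869652) (.one (nat_lit 183962176426) .nil))),
   .two (nat_lit 19130220550) (nat_lit 46414168090) (.two (nat_lit 4194305) (nat_lit 46414169622) .nil),
   .two (nat_lit 713031684) (nat_lit 251658285) (.two (nat_lit 16777217) (nat_lit 873464555) (.one (nat_lit 9948891331) .nil)),
   .two (nat_lit 9866051588) (nat_lit 13195280397) (.two (nat_lit 1343225859) (nat_lit 880803912) (.two (nat_lit 605028353) (nat_lit 880804536) (.one (nat_lit 8391397) .nil))),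
   .two (nat_lit 285212676) (nat_lit 11546918924) (.two (nat_lit 157038936067) (nat_lit 9781116996) (.two (nat_lit 4194304) (nat_lit 12163482323) (.one (nat_lit 16780208) .nil))),
   .two (nat_lit 169869316) (nat_lit 641728520) (.two (nat_lit 2097155) (nat_lit 1413480500) (.two (nat_lit 2097153) (nat_lit 1276117171) (.two (nat_lit 2097152) (nat_lit 3524265131) (.one (nat_lit 156465367386) .nil)))),
   .two (nat_lit 41943044) (nat_lit 10506731528) (.two (nat_lit 41943043) (nat_lit 47550824506) (.two (nat_lit 4194305) (nat_lit 166136381761) (.two (nat_lit 8388608) (nat_lit 157035791601) (.one (nat_lit 2920285729) .nil)))),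
   .two (nat_lit 742391812) (nat_lit 12047089672) (.two (nat_lit 13187940355) (nat_lit 183949590554) (.two (nat_lit 34603009) (nat_lit 20640170167) (.two (nat_lit 1048576) (nat_lit 4599055499) (.one (nat_lit 2100145) .nil)))),
   .two (nat_lit 3525312516) (nat_lit 20704133163) (.two (nat_lit 9766436865) (nat_lit 28790751502) (.two (nat_lit 2097152) (nat_lit 1049868) (.one (nat_lit 46406830760) .nil))),
   .two (nat_lit 10369368068) (nat_lit 156971827208) (.two (nat_lit 10503585795) (nat_lit 156971827236) (.two (nat_lit 8388609) (nat_lit 11580473665) (.two (nat_lit 8388608) (nat_lit 13191087336) (.one (nat_lit 37320919303) .nil)))),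
   .two (nat_lit 41943044) (nat_lit 156971827210) (.two (nat_lit 8388610) (nat_lit 1916796972) (.two (nat_lit 9765388289) (nat_lit 10003415347) (.two (nat_lit 1048576) (nat_lit 4195597) (.one (nat_lit 4197298) .nil)))),
   .two (nat_lit 9768534020) (nat_lit 4605345836) (.two (nat_lit 4194305) (nat_lit 1317012247) (.one (nat_lit 8391603) .nil)),
   .two (nat_lit 16777220) (nat_lit 156567076874) (.two (nat_lit 2954887171) (nat_lit 218103844) (.two (nat_lit 9766436865) (nat_lit 16777737) (.two (nat_lit 2097152) (nat_lit 16778929) (.one (nat_lit 12129929473) .nil)))),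
   .two (nat_lit 12054429700) (nat_lit 1846542344) (.two (nat_lit 184993972227) (nat_lit 21777874996) (.two (nat_lit 9765388289) (nat_lit 1954546017) (.two (nat_lit 2097152) (nat_lit 2920284928) (.one (nat_lit 1051572) .nil)))),
   .two (nat_lit 203423748) (nat_lit 19130220584) (.two (nat_lit 2097153) (nat_lit 876609925) (.two (nat_lit 2097152) (nat_lit 2990539493) (.one (nat_lit 18926798371) .nil))),
   .two (nat_lit 713031686) (nat_lit 166132187180) (.two (nat_lit 4194305) (nat_lit 10510926265) (.one (nat_lit 47550826903) .nil)),
   .two (nat_lit 16777220) (nat_lit 1753219080) (.two (nat_lit 16777218) (nat_lit 19604176949) (.two (nat_lit 16777217) (nat_lit 12155093458) (.two (nat_lit 2097152) (nat_lit 10385097397) (.one (nat_lit 2099524) .nil)))),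
   .two (nat_lit 50331652) (nat_lit 46980399130) (.two (nat_lit 4194305) (nat_lit 159266112740) (.one (nat_lit 171968039) .nil)),
   .two (nat_lit 158083317764) (nat_lit 156968681480) (.two (nat_lit 75497475) (nat_lit 10906239035) (.two (nat_lit 4194305) (nat_lit 1283457316) (.two (nat_lit 4194304) (nat_lit 8390981) .nil))),
   .two (nat_lit 176160772) (nat_lit 156533522450) (.two (nat_lit 176160770) (nat_lit 158647451743) (.two (nat_lit 2097153) (nat_lit 1753219769) (.one (nat_lit 1051574) .nil))),
   .two (nat_lit 184419352580) (nat_lit 156365750280) (.two (nat_lit 11479810051) (nat_lit 18926796841) (.two (nat_lit 2097153) (nat_lit 809501457) (.one (nat_lit 337644288) .nil))),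
   .two (nat_lit 183853121540) (nat_lit 21814575150) (.two (nat_lit 4194305) (nat_lit 11551114789) .nil),
   .two (nat_lit 68157444) (nat_lit 1358954504) (.two (nat_lit 705691650) (nat_lit 13237223491) (.two (nat_lit 4194305) (nat_lit 12114198911) (.two (nat_lit 4194304) (nat_lit 1049870) (.one (nat_lit 843057347) .nil)))),
   .two (nat_lit 218103812) (nat_lit 184419352586) (.two (nat_lit 13191086083) (nat_lit 117440551) (.two (nat_lit 37748737) (nat_lit 9881780501) (.two (nat_lit 1048576) (nat_lit 4196680) .nil))),
   .two (nat_lit 50331652) (nat_lit 165532401708) (.two (nat_lit 8388609) (nat_lit 11559502109) (.two (nat_lit 8388608) (nat_lit 12633244786) (.one (nat_lit 16780013) .nil))),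
   .two (nat_lit 184419352580) (nat_lit 880803853) (.two (nat_lit 183848927234) (nat_lit 11618222259) (.two (nat_lit 4194304) (nat_lit 3531605179) (.one (nat_lit 8391609) .nil))),
   .two (nat_lit 705691652) (nat_lit 46514831426) (.two (nat_lit 2097153) (nat_lit 1749024950) (.two (nat_lit 8388608) (nat_lit 20704134401) (.one (nat_lit 47584381236) .nil))),
   .two (nat_lit 28758245381) (nat_lit 16777224) (.two (nat_lit 1176502275) (nat_lit 184549420) (.two (nat_lit 16777217) (nat_lit 183846831296) (.one (nat_lit 19545458888) .nil))),
   .two (nat_lit 4194308) (nat_lit 10504634376) (.two (nat_lit 4194306) (nat_lit 18925748275) (.two (nat_lit 4194305) (nat_lit 11006902587) (.two (nat_lit 1048576) (nat_lit 37249614580) (.one (nat_lit 1051578) .nil)))),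
   .two (nat_lit 101711876) (nat_lit 19530776586) (.two (nat_lit 1779433475) (nat_lit 158177689650) (.two (nat_lit 50331649) (nat_lit 158075978022) (.two (nat_lit 16777216) (nat_lit 10939794133) (.one (nat_lit 1051579) .nil)))),
   .two (nat_lit 705691652) (nat_lit 13195280563) (.two (nat_lit 8388608) (nat_lit 46977255713) .nil),
   .two (nat_lit 203423748) (nat_lit 3527409688) (.two (nat_lit 2097153) (nat_lit 3527409732) (.two (nat_lit 2097152) (nat_lit 3460302055) (.one (nat_lit 21814577281) .nil))),
   .two (nat_lit 12054429700) (nat_lit 10506731528) (.two (nat_lit 11479810051) (nat_lit 165532401703) (.two (nat_lit 4194305) (nat_lit 780141335) (.one (nat_lit 8391612) .nil))),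
   .two (nat_lit 721420292) (nat_lit 3527409672) (.two (nat_lit 2889875458) (nat_lit 16777396) (.two (nat_lit 4194304) (nat_lit 21223178970) (.one (nat_lit 1392511108) .nil))),
   .two (nat_lit 2889875460) (nat_lit 880803850) (.two (nat_lit 8388610) (nat_lit 3527409706) (.two (nat_lit 4194305) (nat_lit 176162019) (.one (nat_lit 843057532) .nil))),
   .two (nat_lit 183848927236) (nat_lit 13195280397) (.two (nat_lit 13191086083) (nat_lit 46481276982) (.two (nat_lit 41943041) (nat_lit 876609717) (.two (nat_lit 4194304) (nat_lit 8390326) (.one (nat_lit 8391374) .nil)))),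
   .two (nat_lit 176160772) (nat_lit 11513364522) (.two (nat_lit 8388609) (nat_lit 13224641216) (.one (nat_lit 19029559656) .nil)),
   .two (nat_lit 813694980) (nat_lit 11479810056) (.two (nat_lit 8388610) (nat_lit 20640170030) (.two (nat_lit 8388609) (nat_lit 2921333449) (.one (nat_lit 35653770) .nil))),
   .two (nat_lit 37748740) (nat_lit 336592957) (.two (nat_lit 2097153) (nat_lit 166129041757) (.two (nat_lit 16777216) (nat_lit 2418018628) .nil)),
   .two (nat_lit 169869316) (nat_lit 20640169996) (.two (nat_lit 169869314) (nat_lit 10335813684) (.two (nat_lit 2097153) (nat_lit 9899606760) (.one (nat_lit 156969732342) .nil))),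
   .two (nat_lit 721420292) (nat_lit 12054429755) (.two (nat_lit 41943041) (nat_lit 1310720304) (.two (nat_lit 8388608) (nat_lit 251658987) (.one (nat_lit 183853123716) .nil))),
   .two (nat_lit 16777220) (nat_lit 11551113238) (.two (nat_lit 13195280387) (nat_lit 18925748264) (.two (nat_lit 41943041) (nat_lit 1276117299) (.two (nat_lit 8388608) (nat_lit 1050296) (.one (nat_lit 1051581) .nil)))),
   .two (nat_lit 713031684) (nat_lit 1749024776) (.two (nat_lit 721420290) (nat_lit 21214789689) (.two (nat_lit 50331649) (nat_lit 18933088609) (.two (nat_lit 16777216) (nat_lit 8390329) (.one (nat_lit 8390990) .nil)))),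
   .two (nat_lit 1276116996) (nat_lit 11584667674) (.two (nat_lit 4194305) (nat_lit 28093448372) (.two (nat_lit 1048576) (nat_lit 8389905) (.one (nat_lit 8391614) .nil))),
   .two (nat_lit 11492392964) (nat_lit 183848927240) (.two (nat_lit 822083587) (nat_lit 1178599538) (.two (nat_lit 37748737) (nat_lit 10519315669) (.one (nat_lit 185035917490) .nil))),
   .two (nat_lit 68157444) (nat_lit 165526110218) (.two (nat_lit 605028355) (nat_lit 10370416691) (.two (nat_lit 50331649) (nat_lit 46473937637) (.one (nat_lit 4197311) .nil))),
   .two (nat_lit 68157444) (nat_lit 218103851) (.two (nat_lit 4194305) (nat_lit 1947206400) (.one (nat_lit 3457156670) .nil)),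
   .two (nat_lit 21811429381) (nat_lit 11513364489) (.two (nat_lit 21777874947) (nat_lit 19130220580) (.two (nat_lit 605028353) (nat_lit 13224640781) (.two (nat_lit 1048576) (nat_lit 13224641205) (.one (nat_lit 19029559619) .nil)))),
   .two (nat_lit 1277165572) (nat_lit 47555018767) (.two (nat_lit 9934209027) (nat_lit 10376708208) (.two (nat_lit 8388609) (nat_lit 12048138541) (.two (nat_lit 2097152) (nat_lit 8390331) (.one (nat_lit 2099400) .nil)))),
   .two (nat_lit 754974724) (nat_lit 46409973768) (.two (nat_lit 9781116931) (nat_lit 2923429914) (.two (nat_lit 4194305) (nat_lit 157051520182) (.one (nat_lit 159219976853) .nil))),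
   .two (nat_lit 8388612) (nat_lit 28101836851) (.two (nat_lit 620756993) (nat_lit 1417675445) (.one (nat_lit 20652754469) .nil)),
   .two (nat_lit 169869316) (nat_lit 641728520) (.two (nat_lit 2097155) (nat_lit 2420113743) (.two (nat_lit 2097152) (nat_lit 11510219550) (.one (nat_lit 1051585) .nil))),
   .two (nat_lit 2902458372) (nat_lit 1310720040) (.two (nat_lit 16777217) (nat_lit 9799991685) (.two (nat_lit 16777216) (nat_lit 270533349) (.one (nat_lit 16780226) .nil))),
   .two (nat_lit 1178599428) (nat_lit 1795162125) (.two (nat_lit 11559501827) (nat_lit 205520975) (.two (nat_lit 50331649) (nat_lit 2990539471) (.one (nat_lit 10003417234) .nil))),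
   .two (nat_lit 742391812) (nat_lit 20704133145) (.two (nat_lit 2097153) (nat_lit 156566029466) (.one (nat_lit 1051587) .nil)),
   .two (nat_lit 47563407364) (nat_lit 310378508) (.two (nat_lit 1913651203) (nat_lit 339738807) (.two (nat_lit 1048576) (nat_lit 4196028) (.one (nat_lit 4197316) .nil))),
   .two (nat_lit 10369368068) (nat_lit 166132187146) (.two (nat_lit 75497475) (nat_lit 306184282) (.two (nat_lit 8388609) (nat_lit 608174371) (.two (nat_lit 16777216) (nat_lit 8390992) .nil))),
   .two (nat_lit 169869316) (nat_lit 11546918923) (.two (nat_lit 13187940355) (nat_lit 4634705956) (.two (nat_lit 606076929) (nat_lit 3524264304) (.two (nat_lit 1048576) (nat_lit 2098453) (.one (nat_lit 1051589) .nil)))),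
   .two (nat_lit 4194308) (nat_lit 880803860) (.two (nat_lit 176160771) (nat_lit 19130220883) (.two (nat_lit 1048576) (nat_lit 158144135958) (.one (nat_lit 4197319) .nil))),
   .two (nat_lit 46409973764) (nat_lit 158083317787) (.two (nat_lit 41943041) (nat_lit 9802088627) (.two (nat_lit 8388608) (nat_lit 156569175270) (.one (nat_lit 4196775) .nil))),
   .two (nat_lit 3458203654) (nat_lit 1358954504) (.two (nat_lit 2097155) (nat_lit 11559501866) (.two (nat_lit 34603009) (nat_lit 639632084) (.one (nat_lit 11492395209) .nil))),
   .two (nat_lit 11492392964) (nat_lit 306184219) (.two (nat_lit 4194305) (nat_lit 183861510548) (.two (nat_lit 4194304) (nat_lit 1392510206) (.one (nat_lit 16780232) .nil))),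
   .two (nat_lit 9768534020) (nat_lit 1276117040) (.two (nat_lit 4194305) (nat_lit 873465392) .nil),
   .two (nat_lit 101711876) (nat_lit 166130089994) (.two (nat_lit 1779433475) (nat_lit 169869359) (.two (nat_lit 2097153) (nat_lit 4605345971) (.two (nat_lit 1048576) (nat_lit 1954546832) (.one (nat_lit 12047092628) .nil)))),
   .two (nat_lit 184549380) (nat_lit 12054429722) (.two (nat_lit 16777217) (nat_lit 158653743434) (.two (nat_lit 8388608) (nat_lit 16778942) (.one (nat_lit 8391625) .nil))),
   .two (nat_lit 1753219076) (nat_lit 10939793416) (.two (nat_lit 2894069763) (nat_lit 10385096731) (.two (nat_lit 16777217) (nat_lit 11551113528) (.two (nat_lit 16777216) (nat_lit 10544481465) (.one (nat_lit 8391626) .nil)))),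
   .two (nat_lit 1175453700) (nat_lit 822083604) (.two (nat_lit 183861510147) (nat_lit 10906239023) (.two (nat_lit 2097153) (nat_lit 13187940844) (.two (nat_lit 8388608) (nat_lit 10452206294) (.one (nat_lit 16780235) .nil)))),
   .two (nat_lit 218103812) (nat_lit 185020186651) (.two (nat_lit 16777217) (nat_lit 158176641204) (.two (nat_lit 16777216) (nat_lit 19093522644) .nil)),
   .two (nat_lit 9906946054) (nat_lit 12114198538) (.two (nat_lit 806354947) (nat_lit 2323644764) (.two (nat_lit 1048576) (nat_lit 46414169325) (.one (nat_lit 740297618) .nil))),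
   .two (nat_lit 101711876) (nat_lit 4634705929) (.two (nat_lit 46409973763) (nat_lit 12147752986) (.two (nat_lit 34603009) (nat_lit 809501008) (.two (nat_lit 4194304) (nat_lit 1050303) (.one (nat_lit 156566029889) .nil)))),
   .two (nat_lit 4194308) (nat_lit 83886088) (.two (nat_lit 620756995) (nat_lit 28793897295) (.two (nat_lit 16777216) (nat_lit 12117346605) .nil)),
   .two (nat_lit 272629764) (nat_lit 183845781512) (.two (nat_lit 4599054339) (nat_lit 183949590555) (.two (nat_lit 4194305) (nat_lit 183913939312) (.two (nat_lit 4194304) (nat_lit 235930343) (.one (nat_lit 2956986600) .nil)))),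
   .two (nat_lit 2420113414) (nat_lit 3028287515) (.two (nat_lit 8388609) (nat_lit 12620661084) (.two (nat_lit 16777216) (nat_lit 12121541023) .nil)),
   .two (nat_lit 1291845638) (nat_lit 46474985499) (.two (nat_lit 2097153) (nat_lit 117440692) (.two (nat_lit 16777216) (nat_lit 2098880) (.one (nat_lit 2100172) .nil))),
   .two (nat_lit 10369368068) (nat_lit 28693233672) (.two (nat_lit 75497475) (nat_lit 306184282) (.two (nat_lit 4194305) (nat_lit 1920991673) (.one (nat_lit 13191088470) .nil))),
   .two (nat_lit 1745879044) (nat_lit 9934209036) (.two (nat_lit 270532611) (nat_lit 285212714) (.two (nat_lit 2097153) (nat_lit 3472884517) (.one (nat_lit 1051597) .nil))),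
   .two (nat_lit 4634705925) (nat_lit 3525312538) (.two (nat_lit 156367847425) (nat_lit 28791800986) (.one (nat_lit 2100174) .nil)),
   .two (nat_lit 46407876612) (nat_lit 11546918923) (.two (nat_lit 2097155) (nat_lit 239075413) (.two (nat_lit 2097153) (nat_lit 19026411813) (.two (nat_lit 2097152) (nat_lit 28690089152) (.one (nat_lit 28087159094) .nil)))),
   .two (nat_lit 272629764) (nat_lit 2953838603) (.two (nat_lit 16777219) (nat_lit 11543773210) (.two (nat_lit 16777217) (nat_lit 37246468447) (.two (nat_lit 16777216) (nat_lit 9768535183) (.one (nat_lit 4197327) .nil)))),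
   .two (nat_lit 16777220) (nat_lit 169869354) (.two (nat_lit 2097153) (nat_lit 28793897328) (.two (nat_lit 16777216) (nat_lit 19128124657) (.one (nat_lit 156466415863) .nil))),
   .two (nat_lit 101711876) (nat_lit 166130089994) (.two (nat_lit 1779433475) (nat_lit 169869359) (.two (nat_lit 2097153) (nat_lit 4605345971) (.two (nat_lit 8388608) (nat_lit 158075978455) (.one (nat_lit 1417677722) .nil)))),
   .two (nat_lit 2954887172) (nat_lit 1753219080) (.two (nat_lit 169869314) (nat_lit 12054429738) (.two (nat_lit 156372041729) (nat_lit 1847591197) (.two (nat_lit 8388608) (nat_lit 2098881) (.one (nat_lit 10443819284) .nil)))),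
   .two (nat_lit 75497476) (nat_lit 1376780302) (.two (nat_lit 12054429699) (nat_lit 10335813681) (.two (nat_lit 41943041) (nat_lit 156532474231) (.two (nat_lit 1048576) (nat_lit 8389913) (.one (nat_lit 1051600) .nil)))),
   .two (nat_lit 183845781508) (nat_lit 11479810074) (.two (nat_lit 2097153) (nat_lit 37249614144) (.two (nat_lit 1048576) (nat_lit 156567077665) (.one (nat_lit 2099625) .nil))),
   .two (nat_lit 169869316) (nat_lit 11618222093) (.two (nat_lit 2097155) (nat_lit 174692761654) (.two (nat_lit 8388609) (nat_lit 136315214) (.two (nat_lit 8388608) (nat_lit 2098458) (.one (nat_lit 813697905) .nil)))),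
   .two (nat_lit 276824068) (nat_lit 3527409672) (.two (nat_lit 2956984323) (nat_lit 4605345830) (.two (nat_lit 9768534017) (nat_lit 12624855410) (.two (nat_lit 4194304) (nat_lit 1050306) (.one (nat_lit 1051601) .nil)))),
   .two (nat_lit 620756996) (nat_lit 2357198957) (.two (nat_lit 612368385) (nat_lit 620757258) (.two (nat_lit 8388608) (nat_lit 16778947) (.one (nat_lit 46523222754) .nil))),
   .two (nat_lit 4194308) (nat_lit 41943048) (.two (nat_lit 171966467) (nat_lit 158653743151) (.two (nat_lit 8388609) (nat_lit 1413481221) (.one (nat_lit 2100178) .nil))),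
   .two (nat_lit 705691652) (nat_lit 166132187144) (.two (nat_lit 34603011) (nat_lit 46510637129) (.two (nat_lit 2097153) (nat_lit 158079123639) (.two (nat_lit 1048576) (nat_lit 4195612) (.one (nat_lit 1051603) .nil)))),
   .two (nat_lit 16777220) (nat_lit 11476664328) (.two (nat_lit 270532611) (nat_lit 10921967717) (.two (nat_lit 50331649) (nat_lit 10369368376) (.two (nat_lit 1048576) (nat_lit 10015999673) (.one (nat_lit 156548204807) .nil)))),
   .two (nat_lit 68157444) (nat_lit 156581756991) (.two (nat_lit 16777217) (nat_lit 47584379258) (.two (nat_lit 1048576) (nat_lit 4195613) (.one (nat_lit 16780244) .nil))),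
   .two (nat_lit 12114198532) (nat_lit 174753579016) (.two (nat_lit 11476664322) (nat_lit 46407876687) (.two (nat_lit 9765388289) (nat_lit 11007951027) (.two (nat_lit 1048576) (nat_lit 2098463) (.one (nat_lit 1051052) .nil)))),
   .two (nat_lit 739246086) (nat_lit 822083592) (.two (nat_lit 739246083) (nat_lit 37329305646) (.two (nat_lit 16777217) (nat_lit 337642241) (.one (nat_lit 1779435686) .nil))),
   .two (nat_lit 16777220) (nat_lit 1849688072) (.two (nat_lit 16777218) (nat_lit 276824151) (.two (nat_lit 41943041) (nat_lit 4043309436) (.two (nat_lit 4194304) (nat_lit 174686472324) .nil))),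
   .two (nat_lit 2902458372) (nat_lit 9799991359) (.two (nat_lit 2097153) (nat_lit 721420988) (.one (nat_lit 4598008000) .nil)),
   .two (nat_lit 1277165572) (nat_lit 28757196808) (.two (nat_lit 102760451) (nat_lit 1745879092) (.two (nat_lit 605028353) (nat_lit 159217878162) (.one (nat_lit 672139464) .nil))),
   .two (nat_lit 169869316) (nat_lit 3527409672) (.two (nat_lit 2097155) (nat_lit 46980399145) (.two (nat_lit 34603009) (nat_lit 2319450412) (.two (nat_lit 1048576) (nat_lit 4195616) (.one (nat_lit 3024095956) .nil)))),
   .two (nat_lit 50331652) (nat_lit 166132187176) (.two (nat_lit 16777217) (nat_lit 28693234103) (.one (nat_lit 20740835604) .nil)),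
   .two (nat_lit 1178599428) (nat_lit 10336862216) (.two (nat_lit 46407876610) (nat_lit 46510637344) (.two (nat_lit 2097152) (nat_lit 4195617) (.one (nat_lit 2100182) .nil))),
   .two (nat_lit 2954887172) (nat_lit 1916796971) (.two (nat_lit 2097153) (nat_lit 159253529336) (.one (nat_lit 174686472465) .nil)),
   .two (nat_lit 721420294) (nat_lit 2954887176) (.two (nat_lit 11492392963) (nat_lit 2988441642) (.two (nat_lit 16777217) (nat_lit 20738736832) (.one (nat_lit 2099629) .nil))),
   .two (nat_lit 713031684) (nat_lit 183912890388) (.two (nat_lit 75497475) (nat_lit 28087156783) (.two (nat_lit 8388609) (nat_lit 773849454) (.two (nat_lit 1048576) (nat_lit 46474986672) (.one (nat_lit 1051607) .nil)))),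
   .two (nat_lit 157043130372) (nat_lit 19599982633) (.two (nat_lit 8388609) (nat_lit 11559502112) (.two (nat_lit 4194304) (nat_lit 185002362112) (.one (nat_lit 8391640) .nil))),
   .two (nat_lit 16777220) (nat_lit 159251431437) (.two (nat_lit 184549379) (nat_lit 2988441671) (.two (nat_lit 9766436865) (nat_lit 20719862049) (.two (nat_lit 2097152) (nat_lit 16778530) (.one (nat_lit 16780249) .nil)))),
   .two (nat_lit 184986632196) (nat_lit 880803853) (.two (nat_lit 41943043) (nat_lit 11577327642) (.two (nat_lit 41943041) (nat_lit 185020186803) (.two (nat_lit 8388608) (nat_lit 157035791055) (.one (nat_lit 1051055) .nil)))),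
   .two (nat_lit 654311429) (nat_lit 158075977736) (.two (nat_lit 1795162115) (nat_lit 158646403114) (.two (nat_lit 156365750273) (nat_lit 202375895) (.one (nat_lit 1051056) .nil))),
   .two (nat_lit 1277165572) (nat_lit 1779433480) (.two (nat_lit 1343225859) (nat_lit 28758245414) (.two (nat_lit 605028353) (nat_lit 158647452804) (.one (nat_lit 2099550) .nil))),
   .two (nat_lit 159217876996) (nat_lit 10007609364) (.two (nat_lit 8388611) (nat_lit 159251431464) (.two (nat_lit 2097153) (nat_lit 9969861049) (.one (nat_lit 136316446) .nil))),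
   .two (nat_lit 184549380) (nat_lit 1317011570) (.two (nat_lit 41943041) (nat_lit 50332345) (.one (nat_lit 2969569509) .nil)),
   .two (nat_lit 809500676) (nat_lit 10907287566) (.two (nat_lit 11479810051) (nat_lit 9967763530) (.two (nat_lit 4194305) (nat_lit 20738736307) (.two (nat_lit 2097152) (nat_lit 28760343326) (.one (nat_lit 10942941932) .nil)))),
   .two (nat_lit 1175453700) (nat_lit 3527409690) (.two (nat_lit 4194305) (nat_lit 142607060) (.one (nat_lit 1051057) .nil)),
   .two (nat_lit 28690087940) (nat_lit 1358954539) (.two (nat_lit 9765388289) (nat_lit 1761608886) (.one (nat_lit 3557820598) .nil)),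
   .two (nat_lit 2887778308) (nat_lit 159224168456) (.two (nat_lit 4599054339) (nat_lit 159224168484) (.two (nat_lit 156365750273) (nat_lit 11510219060) (.two (nat_lit 1048576) (nat_lit 20738736901) (.one (nat_lit 1051611) .nil)))),
   .two (nat_lit 184993972228) (nat_lit 12114198536) (.two (nat_lit 739246083) (nat_lit 184993972249) (.two (nat_lit 605028353) (nat_lit 310378986) (.two (nat_lit 16777216) (nat_lit 243272005) .nil))),
   .two (nat_lit 11543773188) (nat_lit 156372041736) (.two (nat_lit 705691650) (nat_lit 9806282820) (.two (nat_lit 16777216) (nat_lit 142608573) .nil)),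
   .two (nat_lit 809500676) (nat_lit 156380430390) (.two (nat_lit 50331649) (nat_lit 28693233944) (.two (nat_lit 8388608) (nat_lit 10540287124) (.one (nat_lit 4197340) .nil))),
   .two (nat_lit 176160772) (nat_lit 46474985489) (.two (nat_lit 806354947) (nat_lit 166237044814) (.two (nat_lit 2097153) (nat_lit 184993972490) (.two (nat_lit 2097152) (nat_lit 157043131654) (.one (nat_lit 1210059025) .nil)))),
   .two (nat_lit 9948889092) (nat_lit 807403566) (.two (nat_lit 16777217) (nat_lit 10540286665) (.one (nat_lit 4647291102) .nil)),
   .two (nat_lit 809500676) (nat_lit 183853121562) (.two (nat_lit 4194305) (nat_lit 20745028382) (.one (nat_lit 8391009) .nil)),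
   .two (nat_lit 158075977732) (nat_lit 158144135240) (.two (nat_lit 605028353) (nat_lit 159251431603) (.two (nat_lit 1048576) (nat_lit 673187027) (.one (nat_lit 2100191) .nil))),
   .two (nat_lit 218103812) (nat_lit 9866051594) (.two (nat_lit 2969567235) (nat_lit 12114198579) (.two (nat_lit 4194305) (nat_lit 135267546) (.one (nat_lit 1051616) .nil))),
   .two (nat_lit 13237223430) (nat_lit 1947205642) (.two (nat_lit 822083587) (nat_lit 1410334771) (.two (nat_lit 34603009) (nat_lit 20738736619) (.two (nat_lit 16777216) (nat_lit 174752531620) (.one (nat_lit 12617517364) .nil)))),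
   .two (nat_lit 185002360836) (nat_lit 20737687610) (.two (nat_lit 16777217) (nat_lit 1176502455) (.two (nat_lit 1048576) (nat_lit 10370417819) (.one (nat_lit 2100193) .nil))),
   .two (nat_lit 47563407364) (nat_lit 236978186) (.two (nat_lit 34603011) (nat_lit 285212737) (.two (nat_lit 2097153) (nat_lit 165525061811) (.two (nat_lit 2097152) (nat_lit 2953839787) (.one (nat_lit 16780258) .nil)))),
   .two (nat_lit 2954887172) (nat_lit 2902458388) (.two (nat_lit 285212675) (nat_lit 46474985511) (.two (nat_lit 16777217) (nat_lit 169869493) (.two (nat_lit 1048576) (nat_lit 773849843) (.one (nat_lit 1051310) .nil)))),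
   .two (nat_lit 11476664324) (nat_lit 1962934290) (.two (nat_lit 209715203) (nat_lit 13237223467) (.two (nat_lit 50331649) (nat_lit 174685422070) (.two (nat_lit 1048576) (nat_lit 183861511845) (.one (nat_lit 183861513112) .nil)))),
   .two (nat_lit 11543773188) (nat_lit 158077026312) (.two (nat_lit 171966467) (nat_lit 46474985515) (.two (nat_lit 4194305) (nat_lit 46474985757) (.two (nat_lit 1048576) (nat_lit 2098887) (.one (nat_lit 9933162728) .nil)))),
   .two (nat_lit 2954887172) (nat_lit 28690087946) (.two (nat_lit 169869314) (nat_lit 168820782) (.two (nat_lit 606076929) (nat_lit 10335813941) (.two (nat_lit 2097152) (nat_lit 1049800) (.one (nat_lit 1051619) .nil)))),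
   .two (nat_lit 880803845) (nat_lit 159217877000) (.two (nat_lit 13195280387) (nat_lit 159251431464) (.two (nat_lit 41943041) (nat_lit 773849389) (.two (nat_lit 8388608) (nat_lit 156466414306) (.one (nat_lit 2099636) .nil)))),
   .two (nat_lit 12117344260) (nat_lit 156372041741) (.two (nat_lit 13195280387) (nat_lit 28693233691) (.two (nat_lit 37748737) (nat_lit 176161128) (.two (nat_lit 16777216) (nat_lit 9969861327) (.one (nat_lit 4197348) .nil)))),
   .two (nat_lit 1916796932) (nat_lit 28790751245) (.two (nat_lit 11543773187) (nat_lit 47584378929) (.two (nat_lit 34603009) (nat_lit 10909385423) (.one (nat_lit 4196789) .nil))),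
   .two (nat_lit 11492392964) (nat_lit 12117344264) (.two (nat_lit 11479810050) (nat_lit 10921967799) (.two (nat_lit 8388608) (nat_lit 16778533) (.one (nat_lit 8391094) .nil))),
   .two (nat_lit 13191086086) (nat_lit 713031688) (.two (nat_lit 13191086083) (nat_lit 166136381486) (.two (nat_lit 612368385) (nat_lit 156365750456) (.two (nat_lit 4194304) (nat_lit 46407877321) (.one (nat_lit 2100198) .nil)))),
   .two (nat_lit 11551113220) (nat_lit 28790751275) (.two (nat_lit 34603009) (nat_lit 3531604278) (.two (nat_lit 1048576) (nat_lit 8390345) (.one (nat_lit 158143089591) .nil))),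
   .two (nat_lit 159251431429) (nat_lit 3527409672) (.two (nat_lit 184549379) (nat_lit 809500740) (.two (nat_lit 2097152) (nat_lit 12050236130) (.one (nat_lit 4197352) .nil))),
   .two (nat_lit 28693233668) (nat_lit 13195280392) (.two (nat_lit 1916796931) (nat_lit 18933088294) (.two (nat_lit 9768534017) (nat_lit 13195280665) (.two (nat_lit 4194304) (nat_lit 880804540) (.one (nat_lit 37253811009) .nil)))),
   .two (nat_lit 50331652) (nat_lit 156372041743) (.two (nat_lit 11492392962) (nat_lit 9765388337) (.two (nat_lit 41943041) (nat_lit 28757197094) (.two (nat_lit 1048576) (nat_lit 1862272146) (.one (nat_lit 21777877326) .nil)))),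
   .two (nat_lit 1780482052) (nat_lit 12047089672) (.two (nat_lit 183845781506) (nat_lit 28087156784) (.two (nat_lit 41943041) (nat_lit 10437526228) (.one (nat_lit 2100202) .nil))),
   .two (nat_lit 11551113220) (nat_lit 9866051602) (.two (nat_lit 272629763) (nat_lit 166230753333) (.two (nat_lit 4194305) (nat_lit 606077394) (.two (nat_lit 1048576) (nat_lit 156969731227) (.one (nat_lit 13222546401) .nil)))),
   .two (nat_lit 20644364292) (nat_lit 156465365018) (.two (nat_lit 612368385) (nat_lit 37246468369) (.two (nat_lit 8388608) (nat_lit 1050315) (.one (nat_lit 3457157462) .nil))),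
   .two (nat_lit 2887778308) (nat_lit 20644364296) (.two (nat_lit 270532611) (nat_lit 3028287561) (.two (nat_lit 2097153) (nat_lit 3028287668) (.two (nat_lit 1048576) (nat_lit 156472705796) (.one (nat_lit 2100203) .nil)))),
   .two (nat_lit 822083588) (nat_lit 9934209032) (.two (nat_lit 11492392963) (nat_lit 20738736172) (.two (nat_lit 16777217) (nat_lit 158144135453) (.two (nat_lit 16777216) (nat_lit 1377830002) (.one (nat_lit 2099640) .nil)))),
   .two (nat_lit 3036676102) (nat_lit 159253528627) (.two (nat_lit 4194305) (nat_lit 1947206123) (.two (nat_lit 16777216) (nat_lit 183949592912) .nil)),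
   .two (nat_lit 46409973764) (nat_lit 19596836872) (.two (nat_lit 4601151491) (nat_lit 9966714929) (.two (nat_lit 4194305) (nat_lit 47581233494) (.two (nat_lit 4194304) (nat_lit 1050316) (.one (nat_lit 184419354791) .nil)))),
   .two (nat_lit 8388612) (nat_lit 843055143) (.two (nat_lit 8388609) (nat_lit 11479810839) (.one (nat_lit 8391660) .nil)),
   .two (nat_lit 2954887172) (nat_lit 166132187144) (.two (nat_lit 28760342531) (nat_lit 19530776628) (.two (nat_lit 2097153) (nat_lit 9902752211) (.two (nat_lit 8388608) (nat_lit 3525313682) (.one (nat_lit 37314628464) .nil)))),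
   .two (nat_lit 276824068) (nat_lit 673185835) (.two (nat_lit 9765388289) (nat_lit 606077112) (.two (nat_lit 1048576) (nat_lit 174686472446) .nil)),
   .two (nat_lit 169869316) (nat_lit 3527409688) (.two (nat_lit 2097153) (nat_lit 12050236120) (.one (nat_lit 1051629) .nil)),
   .two (nat_lit 10506731524) (nat_lit 47582281748) (.two (nat_lit 2097155) (nat_lit 19130220585) (.two (nat_lit 2097153) (nat_lit 174755676921) (.one (nat_lit 183846832888) .nil))),
   .two (nat_lit 4601151492) (nat_lit 12617515035) (.two (nat_lit 4194305) (nat_lit 2416967860) (.two (nat_lit 4194304) (nat_lit 20737689869) .nil)),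
   .two (nat_lit 41943044) (nat_lit 184986632200) (.two (nat_lit 34603011) (nat_lit 1317011508) (.two (nat_lit 8388609) (nat_lit 1210057927) (.one (nat_lit 37320919250) .nil))),
   .two (nat_lit 50331652) (nat_lit 166132187144) (.two (nat_lit 16777218) (nat_lit 28693233706) (.two (nat_lit 9768534017) (nat_lit 218104093) (.two (nat_lit 4194304) (nat_lit 156481095877) .nil))),
   .two (nat_lit 169869316) (nat_lit 184549389) (.two (nat_lit 2097155) (nat_lit 156481093686) (.two (nat_lit 34603009) (nat_lit 10370417013) (.two (nat_lit 1048576) (nat_lit 2098893) (.one (nat_lit 28086111045) .nil)))),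
   .two (nat_lit 2954887172) (nat_lit 3036676105) (.two (nat_lit 184549379) (nat_lit 156969730132) (.two (nat_lit 37748737) (nat_lit 10000269832) (.two (nat_lit 1048576) (nat_lit 10003416752) (.one (nat_lit 10000272303) .nil)))),
   .two (nat_lit 169869316) (nat_lit 880803850) (.two (nat_lit 8388610) (nat_lit 166197198899) (.two (nat_lit 8388609) (nat_lit 159251431706) (.two (nat_lit 1048576) (nat_lit 2098894) (.one (nat_lit 3020949888) .nil)))),
   .two (nat_lit 169869316) (nat_lit 641728520) (.two (nat_lit 176160770) (nat_lit 11610882074) (.two (nat_lit 8388609) (nat_lit 46977253561) (.two (nat_lit 8388608) (nat_lit 183913939657) (.one (nat_lit 2100209) .nil)))),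
   .two (nat_lit 183962173446) (nat_lit 158083317768) (.two (nat_lit 183861510147) (nat_lit 158083317786) (.two (nat_lit 156365750273) (nat_lit 174692762369) (.one (nat_lit 8391666) .nil))),
   .two (nat_lit 20738736134) (nat_lit 166196150289) (.two (nat_lit 638582787) (nat_lit 159251431464) (.two (nat_lit 8388609) (nat_lit 1344275181) (.one (nat_lit 2099642) .nil))),
   .two (nat_lit 47555018757) (nat_lit 11479810056) (.two (nat_lit 2894069763) (nat_lit 46510637236) (.two (nat_lit 1048576) (nat_lit 28089256082) .nil)),
   .two (nat_lit 176160772) (nat_lit 3527409693) (.two (nat_lit 708837379) (nat_lit 1417674779) (.two (nat_lit 8388609) (nat_lit 2956984678) (.two (nat_lit 2097152) (nat_lit 28697428766) (.one (nat_lit 8391667) .nil)))),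
   .two (nat_lit 205520900) (nat_lit 1277165576) (.two (nat_lit 1277165570) (nat_lit 158079123502) (.two (nat_lit 605028353) (nat_lit 156367848617) (.one (nat_lit 339740899) .nil))),
   .two (nat_lit 46978301956) (nat_lit 343932957) (.two (nat_lit 4605345795) (nat_lit 185021235246) (.two (nat_lit 8388609) (nat_lit 185021235383) (.two (nat_lit 8388608) (nat_lit 21812479180) (.one (nat_lit 2100212) .nil)))),
   .two (nat_lit 4194308) (nat_lit 46978301960) (.two (nat_lit 171966467) (nat_lit 9867100258) (.two (nat_lit 156364701697) (nat_lit 4030726929) (.one (nat_lit 1051637) .nil))),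
   .two (nat_lit 8388612) (nat_lit 606076936) (.two (nat_lit 8388610) (nat_lit 12150898745) (.two (nat_lit 2097153) (nat_lit 1916797282) (.two (nat_lit 4194304) (nat_lit 174759871724) (.one (nat_lit 37247518967) .nil)))),
   .two (nat_lit 184549380) (nat_lit 183853121562) (.two (nat_lit 41943041) (nat_lit 50331828) (.two (nat_lit 8388608) (nat_lit 12163484010) .nil)),
   .two (nat_lit 2954887172) (nat_lit 20637024264) (.two (nat_lit 13187940355) (nat_lit 13224640548) (.two (nat_lit 2097153) (nat_lit 306184590) (.two (nat_lit 2097152) (nat_lit 21811430688) (.one (nat_lit 1051638) .nil)))),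
   .two (nat_lit 8388612) (nat_lit 809500680) (.two (nat_lit 4194306) (nat_lit 343932953) (.two (nat_lit 4194305) (nat_lit 46984593589) (.two (nat_lit 4194304) (nat_lit 46414169313) (.one (nat_lit 8391671) .nil)))),
   .two (nat_lit 606076932) (nat_lit 11492392985) (.two (nat_lit 37748737) (nat_lit 3021996213) (.two (nat_lit 4194304) (nat_lit 184987681540) (.one (nat_lit 2100216) .nil))),
   .two (nat_lit 205520900) (nat_lit 184987680822) (.two (nat_lit 4194305) (nat_lit 3028287855) (.two (nat_lit 2097152) (nat_lit 183845782302) (.one (nat_lit 1051641) .nil))),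
   .two (nat_lit 46474985478) (nat_lit 13195280413) (.two (nat_lit 612368387) (nat_lit 46474985515) (.two (nat_lit 2097153) (nat_lit 2961179113) (.two (nat_lit 2097152) (nat_lit 8390352) (.one (nat_lit 8391674) .nil)))),
   .two (nat_lit 169869316) (nat_lit 11517558810) (.two (nat_lit 34603009) (nat_lit 10907287937) (.two (nat_lit 1048576) (nat_lit 156372044036) .nil)),
   .two (nat_lit 4194308) (nat_lit 4605345806) (.two (nat_lit 8388611) (nat_lit 705691674) (.two (nat_lit 606076929) (nat_lit 11484005613) (.one (nat_lit 156539816878) .nil))),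
   .two (nat_lit 165525061636) (nat_lit 11007950891) (.two (nat_lit 605028353) (nat_lit 166144770386) (.two (nat_lit 2097152) (nat_lit 251658991) (.one (nat_lit 16779707) .nil))),
   .two (nat_lit 11476664324) (nat_lit 19604176904) (.two (nat_lit 11559501827) (nat_lit 11476664346) (.two (nat_lit 34603009) (nat_lit 10921967905) (.two (nat_lit 16777216) (nat_lit 638585064) .nil))),
   .two (nat_lit 203423748) (nat_lit 1384120332) (.two (nat_lit 2954887171) (nat_lit 1786773550) (.two (nat_lit 41943041) (nat_lit 20704133888) (.one (nat_lit 19529730428) .nil))),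
   .two (nat_lit 4599054342) (nat_lit 156367847432) (.two (nat_lit 4599054339) (nat_lit 2923429913) (.two (nat_lit 2097153) (nat_lit 13191086481) (.two (nat_lit 2097152) (nat_lit 21814576388) (.one (nat_lit 4197371) .nil)))),
   .two (nat_lit 20644364292) (nat_lit 11476664367) (.two (nat_lit 156372041729) (nat_lit 9936306939) (.one (nat_lit 2889877739) .nil)),
   .two (nat_lit 4194308) (nat_lit 4638900234) (.two (nat_lit 4194306) (nat_lit 19127074852) (.two (nat_lit 4194305) (nat_lit 705692012) (.two (nat_lit 4194304) (nat_lit 1049894) (.one (nat_lit 158183983518) .nil)))),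
   .two (nat_lit 158144135173) (nat_lit 37313576977) (.two (nat_lit 158143086595) (nat_lit 10001317941) (.two (nat_lit 16777217) (nat_lit 3525314085) .nil)),
   .two (nat_lit 37748740) (nat_lit 12054429704) (.two (nat_lit 4194306) (nat_lit 645922862) (.two (nat_lit 4194305) (nat_lit 18926797531) (.one (nat_lit 337643782) .nil))),
   .two (nat_lit 37748740) (nat_lit 9940500533) (.two (nat_lit 8388609) (nat_lit 184419353269) (.one (nat_lit 4196798) .nil)),
   .two (nat_lit 739246084) (nat_lit 10437525513) (.two (nat_lit 2894069763) (nat_lit 47582281773) (.two (nat_lit 8388609) (nat_lit 740294949) (.two (nat_lit 16777216) (nat_lit 9933161669) (.one (nat_lit 8391677) .nil)))),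
   .two (nat_lit 8388612) (nat_lit 20705181708) (.two (nat_lit 102760451) (nat_lit 156566028352) (.two (nat_lit 8388609) (nat_lit 337641819) (.two (nat_lit 1048576) (nat_lit 813696263) (.one (nat_lit 13228837307) .nil)))),
   .two (nat_lit 272629764) (nat_lit 166245433371) (.two (nat_lit 16777217) (nat_lit 3527409932) (.two (nat_lit 16777216) (nat_lit 2319450825) (.one (nat_lit 4197374) .nil))),
   .two (nat_lit 11479810052) (nat_lit 2424307775) (.two (nat_lit 41943041) (nat_lit 156569175223) (.one (nat_lit 339741641) .nil)),
   .two (nat_lit 46978301956) (nat_lit 41943060) (.two (nat_lit 69206019) (nat_lit 3028287515) (.two (nat_lit 2097153) (nat_lit 37253808314) (.two (nat_lit 4194304) (nat_lit 1853883166) (.one (nat_lit 2927626608) .nil)))),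
   .two (nat_lit 46407876612) (nat_lit 9869197324) (.two (nat_lit 171966467) (nat_lit 10370416830) (.two (nat_lit 2097153) (nat_lit 1309671748) (.two (nat_lit 1048576) (nat_lit 2098898) (.one (nat_lit 28087159094) .nil)))),
   .two (nat_lit 285212676) (nat_lit 19599982600) (.two (nat_lit 285212675) (nat_lit 2887778350) (.two (nat_lit 16777217) (nat_lit 11578376531) (.two (nat_lit 2097152) (nat_lit 47584380173) (.one (nat_lit 10336864556) .nil)))),
   .two (nat_lit 10007609349) (nat_lit 4601151498) (.two (nat_lit 159224168451) (nat_lit 138412080) (.two (nat_lit 605028353) (nat_lit 2319450450) (.two (nat_lit 8388608) (nat_lit 174755677731) .nil))),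
   .two (nat_lit 68157444) (nat_lit 21208498203) (.two (nat_lit 4194305) (nat_lit 21208498445) (.two (nat_lit 2097152) (nat_lit 19532875976) .nil)),
   .two (nat_lit 11559501828) (nat_lit 243269658) (.two (nat_lit 8388609) (nat_lit 318767832) (.one (nat_lit 3472886166) .nil)),
   .two (nat_lit 809500676) (nat_lit 28086108172) (.two (nat_lit 9765388291) (nat_lit 183949590569) (.two (nat_lit 8388609) (nat_lit 174688567590) (.two (nat_lit 8388608) (nat_lit 174688568023) (.one (nat_lit 4197375) .nil)))),
   .two (nat_lit 218103812) (nat_lit 183848927240) (.two (nat_lit 2902458370) (nat_lit 2923430068) (.two (nat_lit 4194304) (nat_lit 20719863015) (.one (nat_lit 28772927823) .nil))),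
   .two (nat_lit 50331652) (nat_lit 2921332747) (.two (nat_lit 102760451) (nat_lit 2969567331) (.two (nat_lit 16777217) (nat_lit 773849453) (.two (nat_lit 8388608) (nat_lit 21811431852) .nil))),
   .two (nat_lit 2969567236) (nat_lit 673185802) (.two (nat_lit 46407876610) (nat_lit 2969567258) (.two (nat_lit 2097153) (nat_lit 9948890646) .nil)),
   .two (nat_lit 2889875460) (nat_lit 772800521) (.two (nat_lit 3527409667) (nat_lit 9798942800) (.two (nat_lit 9768534017) (nat_lit 185020186892) (.two (nat_lit 4194304) (nat_lit 1049896) (.one (nat_lit 1051648) .nil)))),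
   .two (nat_lit 169869316) (nat_lit 157038936072) (.two (nat_lit 2097155) (nat_lit 166132187211) (.two (nat_lit 2097153) (nat_lit 47584380139) (.one (nat_lit 2100225) .nil))),
   .two (nat_lit 16777220) (nat_lit 156367847441) (.two (nat_lit 11543773187) (nat_lit 1950351406) (.two (nat_lit 50331649) (nat_lit 20704133436) (.two (nat_lit 4194304) (nat_lit 788529899) (.one (nat_lit 158146234662) .nil)))),
   .two (nat_lit 8388612) (nat_lit 809500684) (.two (nat_lit 8388610) (nat_lit 742391856) (.two (nat_lit 620756993) (nat_lit 46414168768) (.one (nat_lit 8391682) .nil))),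
   .two (nat_lit 2961178628) (nat_lit 10504634376) (.two (nat_lit 34603011) (nat_lit 4605345817) (.two (nat_lit 4194305) (nat_lit 9798943930) (.one (nat_lit 2100227) .nil))),
   .two (nat_lit 285212676) (nat_lit 156567076923) (.two (nat_lit 2097153) (nat_lit 1962934752) (.two (nat_lit 1048576) (nat_lit 9934209812) (.one (nat_lit 156969732759) .nil))),
   .two (nat_lit 46409973764) (nat_lit 166129041416) (.two (nat_lit 4601151491) (nat_lit 1846542378) (.two (nat_lit 8388609) (nat_lit 303038759) (.two (nat_lit 1048576) (nat_lit 184419353893) (.one (nat_lit 4196801) .nil)))),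
   .two (nat_lit 157036838918) (nat_lit 101711880) (.two (nat_lit 1779433475) (nat_lit 156533522475) (.two (nat_lit 50331649) (nat_lit 159250383572) (.one (nat_lit 1051653) .nil))),
   .two (nat_lit 721420292) (nat_lit 10939793416) (.two (nat_lit 158091706371) (nat_lit 184986632287) (.two (nat_lit 9765388289) (nat_lit 46523220725) (.one (nat_lit 16780294) .nil))),
   .two (nat_lit 822083588) (nat_lit 775946288) (.two (nat_lit 4194305) (nat_lit 9881780925) (.one (nat_lit 2987395264) .nil)),
   .two (nat_lit 1277165572) (nat_lit 166132187144) (.two (nat_lit 41943043) (nat_lit 19130220615) (.two (nat_lit 37748737) (nat_lit 1417674931) (.two (nat_lit 8388608) (nat_lit 12048140454) .nil))),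
   .two (nat_lit 9802088453) (nat_lit 10370416648) (.two (nat_lit 157038936067) (nat_lit 12115247152) (.two (nat_lit 9765388289) (nat_lit 19597885734) (.two (nat_lit 1048576) (nat_lit 174686472468) .nil))),
   .two (nat_lit 2954887172) (nat_lit 1216348170) (.two (nat_lit 169869314) (nat_lit 109051997) (.two (nat_lit 612368385) (nat_lit 169869493) (.two (nat_lit 16777216) (nat_lit 11544822532) (.one (nat_lit 2100232) .nil)))),
   .two (nat_lit 46414168068) (nat_lit 20637024264) (.two (nat_lit 4605345795) (nat_lit 68157497) (.two (nat_lit 8388609) (nat_lit 159250383314) (.two (nat_lit 4194304) (nat_lit 847250575) (.one (nat_lit 8391689) .nil)))),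
   .two (nat_lit 9934209028) (nat_lit 158143086602) (.two (nat_lit 806354947) (nat_lit 156569174286) (.two (nat_lit 2097152) (nat_lit 4195625) (.one (nat_lit 1051658) .nil))),
   .two (nat_lit 713031684) (nat_lit 1410334779) (.two (nat_lit 2097153) (nat_lit 28764537224) (.two (nat_lit 8388608) (nat_lit 21777877124) .nil)),
   .two (nat_lit 183848927236) (nat_lit 184416206890) (.two (nat_lit 37748737) (nat_lit 12147753709) (.one (nat_lit 1050998) .nil)),
   .two (nat_lit 68157444) (nat_lit 2902458394) (.two (nat_lit 4194305) (nat_lit 47581233335) (.two (nat_lit 4194304) (nat_lit 855639213) (.one (nat_lit 16780299) .nil))),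
   .two (nat_lit 169869316) (nat_lit 3028287527) (.two (nat_lit 2097153) (nat_lit 12121538910) (.two (nat_lit 8388608) (nat_lit 1050324) (.one (nat_lit 1051660) .nil))),
   .two (nat_lit 10913579014) (nat_lit 10504634376) (.two (nat_lit 166130089987) (nat_lit 1317011804) (.two (nat_lit 2097152) (nat_lit 46414168767) (.one (nat_lit 8391107) .nil))),
   .two (nat_lit 9934209028) (nat_lit 68157495) (.two (nat_lit 2097153) (nat_lit 1779433937) (.two (nat_lit 2097152) (nat_lit 1049899) (.one (nat_lit 165526112475) .nil))),
   .two (nat_lit 1175453700) (nat_lit 1746927637) (.two (nat_lit 4605345795) (nat_lit 169869369) (.two (nat_lit 8388609) (nat_lit 21812478135) (.two (nat_lit 1048576) (nat_lit 2098476) (.one (nat_lit 2100237) .nil)))),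
   .two (nat_lit 185020186630) (nat_lit 19027460125) (.two (nat_lit 1344274435) (nat_lit 185020186665) (.two (nat_lit 9765388289) (nat_lit 9967763896) (.one (nat_lit 2099652) .nil))),
   .two (nat_lit 169869316) (nat_lit 2902458410) (.two (nat_lit 2097153) (nat_lit 9881780992) (.one (nat_lit 1051662) .nil)),
   .two (nat_lit 205520900) (nat_lit 1277165576) (.two (nat_lit 9934209027) (nat_lit 158143086635) (.two (nat_lit 605028353) (nat_lit 47550824633) (.two (nat_lit 1048576) (nat_lit 158179787488) (.one (nat_lit 4197391) .nil)))),
   .two (nat_lit 205520900) (nat_lit 3464495113) (.two (nat_lit 41943043) (nat_lit 156566028343) (.two (nat_lit 4194305) (nat_lit 3464495380) (.two (nat_lit 4194304) (nat_lit 8390357) (.one (nat_lit 11610884891) .nil)))),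
   .two (nat_lit 46978301956) (nat_lit 9768534036) (.two (nat_lit 272629763) (nat_lit 156533522500) (.two (nat_lit 4194304) (nat_lit 9766438100) (.one (nat_lit 2100240) .nil))),
   .two (nat_lit 8388612) (nat_lit 2316304411) (.two (nat_lit 41943041) (nat_lit 158143087366) (.one (nat_lit 1051665) .nil)),
   .two (nat_lit 9948889092) (nat_lit 4028629001) (.two (nat_lit 9948889091) (nat_lit 1344274530) (.two (nat_lit 34603009) (nat_lit 50332025) (.two (nat_lit 2097152) (nat_lit 9899606789) (.one (nat_lit 158646405548) .nil)))),
   .two (nat_lit 10940841988) (nat_lit 185020186651) (.two (nat_lit 9765388289) (nat_lit 2988441885) (.two (nat_lit 1048576) (nat_lit 2098902) (.one (nat_lit 10369370344) .nil))),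
   .two (nat_lit 11479810052) (nat_lit 165532401705) (.two (nat_lit 37748737) (nat_lit 109052664) (.one (nat_lit 8391699) .nil)),
   .two (nat_lit 285212676) (nat_lit 1847590953) (.two (nat_lit 16777217) (nat_lit 13188989688) (.one (nat_lit 4028631349) .nil)),
   .two (nat_lit 276824068) (nat_lit 10506731528) (.two (nat_lit 8388610) (nat_lit 4634705984) (.two (nat_lit 4194305) (nat_lit 165532401934) (.two (nat_lit 1048576) (nat_lit 159257724201) (.one (nat_lit 2990541032) .nil)))),
   .two (nat_lit 205520900) (nat_lit 3558866957) (.two (nat_lit 2097155) (nat_lit 775946287) (.two (nat_lit 606076929) (nat_lit 185023332707) (.two (nat_lit 8388608) (nat_lit 1914700502) (.one (nat_lit 11578378961) .nil)))),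
   .two (nat_lit 1277165572) (nat_lit 1358954555) (.two (nat_lit 50331649) (nat_lit 183949590906) (.two (nat_lit 16777216) (nat_lit 4196056) (.one (nat_lit 47563410165) .nil))),
   .two (nat_lit 37748740) (nat_lit 880803880) (.two (nat_lit 4194305) (nat_lit 166230753719) (.one (nat_lit 19597887006) .nil)),
   .two (nat_lit 104857604) (nat_lit 184986632200) (.two (nat_lit 75497475) (nat_lit 11610882090) (.two (nat_lit 8388609) (nat_lit 37750048) (.one (nat_lit 4197397) .nil))),
   .two (nat_lit 272629764) (nat_lit 46481276982) (.two (nat_lit 41943041) (nat_lit 28760342713) (.two (nat_lit 8388608) (nat_lit 4196057) (.one (nat_lit 4196805) .nil))),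
   .two (nat_lit 880803845) (nat_lit 158143086600) (.two (nat_lit 13195280387) (nat_lit 158176641064) (.two (nat_lit 41943041) (nat_lit 19127075205) (.two (nat_lit 8388608) (nat_lit 13187941093) (.one (nat_lit 2953840859) .nil)))),
   .two (nat_lit 169869316) (nat_lit 50331656) (.two (nat_lit 285212675) (nat_lit 35651646) (.two (nat_lit 16777217) (nat_lit 47548727364) (.two (nat_lit 4194304) (nat_lit 183845781943) (.one (nat_lit 2100246) .nil)))),
   .two (nat_lit 880803846) (nat_lit 772800538) (.two (nat_lit 41943041) (nat_lit 772800951) (.one (nat_lit 47581234712) .nil)),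
   .two (nat_lit 203423748) (nat_lit 1749024778) (.two (nat_lit 28758245379) (nat_lit 158179786844) (.two (nat_lit 37748737) (nat_lit 2418016743) (.two (nat_lit 4194304) (nat_lit 2098906) (.one (nat_lit 2100247) .nil)))),
   .two (nat_lit 68157444) (nat_lit 4638900240) (.two (nat_lit 176160771) (nat_lit 11610882074) (.two (nat_lit 4194305) (nat_lit 10369368574) (.two (nat_lit 8388608) (nat_lit 12617516210) (.one (nat_lit 2100248) .nil)))),
   .two (nat_lit 184993972228) (nat_lit 1846542344) (.two (nat_lit 28757196803) (nat_lit 184993972250) (.two (nat_lit 9765388289) (nat_lit 21785215155) (.two (nat_lit 1048576) (nat_lit 2894072154) .nil))),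
   .two (nat_lit 11479810052) (nat_lit 46978301960) (.two (nat_lit 9768534019) (nat_lit 10538188873) (.two (nat_lit 50331649) (nat_lit 10538188980) (.two (nat_lit 16777216) (nat_lit 12048139012) (.one (nat_lit 156569177089) .nil)))),
   .two (nat_lit 739246084) (nat_lit 612368396) (.two (nat_lit 11543773187) (nat_lit 1350565936) (.two (nat_lit 34603009) (nat_lit 3565158710) (.two (nat_lit 16777216) (nat_lit 9974056170) (.one (nat_lit 1051673) .nil)))),
   .two (nat_lit 11559501828) (nat_lit 12617515034) (.two (nat_lit 34603009) (nat_lit 822083862) (.two (nat_lit 1048576) (nat_lit 12062819534) (.one (nat_lit 1051674) .nil))),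
   .two (nat_lit 20638072836) (nat_lit 158646403098) (.two (nat_lit 606076929) (nat_lit 13221494966) (.two (nat_lit 2097152) (nat_lit 806355657) (.one (nat_lit 12147756006) .nil))),
   .two (nat_lit 203423748) (nat_lit 158083317768) (.two (nat_lit 21785214979) (nat_lit 3558866984) (.two (nat_lit 612368385) (nat_lit 10538189240) (.one (nat_lit 3021997605) .nil))),
   .two (nat_lit 639631364) (nat_lit 166132187162) (.two (nat_lit 2097153) (nat_lit 171967183) (.one (nat_lit 4196806) .nil)),
   .two (nat_lit 166197198854) (nat_lit 3527409690) (.two (nat_lit 4194305) (nat_lit 10510926265) (.one (nat_lit 3024094771) .nil)),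
   .two (nat_lit 158075977732) (nat_lit 19130220554) (.two (nat_lit 20637024258) (nat_lit 13224640556) (.two (nat_lit 156364701697) (nat_lit 809501923) (.one (nat_lit 4197403) .nil))),
   .two (nat_lit 2887778308) (nat_lit 184419352584) (.two (nat_lit 12117344259) (nat_lit 2097268) (.two (nat_lit 34603009) (nat_lit 10504634737) (.two (nat_lit 1048576) (nat_lit 3024094430) (.one (nat_lit 4030729152) .nil)))),
   .two (nat_lit 12054429700) (nat_lit 1291845675) (.two (nat_lit 16777217) (nat_lit 10376708851) (.one (nat_lit 16780316) .nil)),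
   .two (nat_lit 205520900) (nat_lit 158647451674) (.two (nat_lit 605028353) (nat_lit 158647451827) (.two (nat_lit 1048576) (nat_lit 166130092269) .nil)),
   .two (nat_lit 117440516) (nat_lit 202375214) (.two (nat_lit 2097153) (nat_lit 10351543532) (.one (nat_lit 183947495624) .nil)),
   .two (nat_lit 639631364) (nat_lit 28757196844) (.two (nat_lit 16777217) (nat_lit 184986633765) .nil),
   .two (nat_lit 272629764) (nat_lit 20705181708) (.two (nat_lit 21778923523) (nat_lit 158176641068) (.two (nat_lit 37748737) (nat_lit 1343226180) (.two (nat_lit 2097152) (nat_lit 1050332) (.one (nat_lit 2100253) .nil)))),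
   .two (nat_lit 41943044) (nat_lit 156466413752) (.two (nat_lit 4194304) (nat_lit 673186489) (.one (nat_lit 2988444579) .nil)),
   .two (nat_lit 13191086084) (nat_lit 135266318) (.two (nat_lit 4194306) (nat_lit 19026411626) (.two (nat_lit 37748737) (nat_lit 11577327796) (.two (nat_lit 1048576) (nat_lit 4195629) (.one (nat_lit 4197406) .nil)))),
   .two (nat_lit 169869316) (nat_lit 11484004398) (.two (nat_lit 612368385) (nat_lit 156968681766) (.two (nat_lit 8388608) (nat_lit 12114200101) .nil)),
   .two (nat_lit 4194308) (nat_lit 46474985499) (.two (nat_lit 4194305) (nat_lit 156533523134) (.one (nat_lit 1051679) .nil)),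
   .two (nat_lit 8388612) (nat_lit 19029557300) (.two (nat_lit 8388609) (nat_lit 876610814) (.one (nat_lit 4197408) .nil)),
   .two (nat_lit 1291845636) (nat_lit 4028629018) (.two (nat_lit 2097153) (nat_lit 16777913) (.one (nat_lit 19027463199) .nil)),
   .two (nat_lit 3464495108) (nat_lit 28758245384) (.two (nat_lit 1277165571) (nat_lit 3464495129) (.two (nat_lit 2097153) (nat_lit 157043130549) (.two (nat_lit 16777216) (nat_lit 156573369092) (.one (nat_lit 8391713) .nil)))),
   .two (nat_lit 739246084) (nat_lit 20738736137) (.two (nat_lit 169869314) (nat_lit 166129041467) (.two (nat_lit 16777217) (nat_lit 739246519) (.one (nat_lit 2100258) .nil))),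
   .two (nat_lit 272629764) (nat_lit 19093520428) (.two (nat_lit 4194305) (nat_lit 3557818697) (.two (nat_lit 4194304) (nat_lit 11543773958) (.one (nat_lit 1051683) .nil))),
   .two (nat_lit 50331652) (nat_lit 156465365056) (.two (nat_lit 8388609) (nat_lit 28757197094) (.two (nat_lit 8388608) (nat_lit 3457156281) (.one (nat_lit 1051684) .nil))),
   .two (nat_lit 2902458372) (nat_lit 10907287565) (.two (nat_lit 2902458370) (nat_lit 10907287579) (.two (nat_lit 2097153) (nat_lit 83886354) (.two (nat_lit 2097152) (nat_lit 1913653467) .nil))),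
   .two (nat_lit 156968681478) (nat_lit 1417674779) (.two (nat_lit 16777217) (nat_lit 880804020) (.two (nat_lit 16777216) (nat_lit 75499139) (.one (nat_lit 8391717) .nil))),
   .two (nat_lit 9934209028) (nat_lit 10939793416) (.two (nat_lit 2954887171) (nat_lit 10503585872) (.two (nat_lit 9765388289) (nat_lit 156969730337) (.two (nat_lit 2097152) (nat_lit 1050333) (.one (nat_lit 1051686) .nil)))),
   .two (nat_lit 158158815236) (nat_lit 37246468139) (.two (nat_lit 34603009) (nat_lit 12062819014) (.one (nat_lit 12062819875) .nil)),
   .two (nat_lit 9934209028) (nat_lit 4598005771) (.two (nat_lit 638582787) (nat_lit 1948254257) (.two (nat_lit 2097153) (nat_lit 10436477311) (.two (nat_lit 8388608) (nat_lit 37246470577) .nil))),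
   .two (nat_lit 276824068) (nat_lit 117440555) (.two (nat_lit 620756993) (nat_lit 1283457734) (.one (nat_lit 746588575) .nil)),
   .two (nat_lit 19529728004) (nat_lit 306184219) (.two (nat_lit 16777217) (nat_lit 104857784) (.two (nat_lit 4194304) (nat_lit 2365588199) (.one (nat_lit 10519317335) .nil))),
   .two (nat_lit 16777220) (nat_lit 12624855097) (.two (nat_lit 8388609) (nat_lit 159232557452) (.two (nat_lit 16777216) (nat_lit 158083320008) .nil)),
   .two (nat_lit 28758245380) (nat_lit 9802088468) (.two (nat_lit 4601151491) (nat_lit 158144135194) (.two (nat_lit 4194305) (nat_lit 158144135347) (.two (nat_lit 16777216) (nat_lit 236979464) (.one (nat_lit 2100263) .nil)))),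
   .two (nat_lit 8388612) (nat_lit 169869360) (.two (nat_lit 8388609) (nat_lit 19128123702) (.two (nat_lit 16777216) (nat_lit 847250628) (.one (nat_lit 2100264) .nil))),
   .two (nat_lit 4194308) (nat_lit 156365750280) (.two (nat_lit 4194306) (nat_lit 11510218778) (.two (nat_lit 4194305) (nat_lit 3557818553) (.two (nat_lit 1048576) (nat_lit 19094570174) (.one (nat_lit 1051689) .nil)))),
   .two (nat_lit 11584667654) (nat_lit 101711880) (.two (nat_lit 47555018755) (nat_lit 37247516720) (.two (nat_lit 2097153) (nat_lit 156976021842) (.two (nat_lit 2097152) (nat_lit 8389936) (.one (nat_lit 1051690) .nil)))),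
   .two (nat_lit 2887778308) (nat_lit 2889875464) (.two (nat_lit 270532611) (nat_lit 10003415091) (.two (nat_lit 2097153) (nat_lit 843055456) (.two (nat_lit 2097152) (nat_lit 157035791082) (.one (nat_lit 1051691) .nil)))),
   .two (nat_lit 272629764) (nat_lit 2969567240) (.two (nat_lit 184549378) (nat_lit 46510637083) (.two (nat_lit 16777217) (nat_lit 156569174718) (.one (nat_lit 46980401815) .nil))),
   .two (nat_lit 3525312516) (nat_lit 166136381488) (.two (nat_lit 612368385) (nat_lit 2350907872) (.two (nat_lit 2097152) (nat_lit 8390366) (.one (nat_lit 2100268) .nil))),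
   .two (nat_lit 705691652) (nat_lit 3028287501) (.two (nat_lit 34603011) (nat_lit 37253808182) (.two (nat_lit 8388609) (nat_lit 174752530805) (.two (nat_lit 8388608) (nat_lit 34604314) (.one (nat_lit 8391725) .nil)))),
   .two (nat_lit 159217876996) (nat_lit 157038936072) (.two (nat_lit 169869314) (nat_lit 19532873769) (.two (nat_lit 2097153) (nat_lit 19532874012) (.two (nat_lit 2097152) (nat_lit 4601152279) (.one (nat_lit 4197065) .nil)))),
   .two (nat_lit 1175453700) (nat_lit 306184218) (.two (nat_lit 37748737) (nat_lit 10537140580) (.two (nat_lit 8388608) (nat_lit 156367848591) (.one (nat_lit 4197423) .nil))),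
   .two (nat_lit 8388612) (nat_lit 1795162122) (.two (nat_lit 654311427) (nat_lit 183920230466) (.two (nat_lit 620756993) (nat_lit 13195281089) (.one (nat_lit 165532404137) .nil))),
   .two (nat_lit 2416967686) (nat_lit 11559501848) (.two (nat_lit 9765388289) (nat_lit 754976276) .nil),
   .two (nat_lit 612368388) (nat_lit 11022630966) (.two (nat_lit 606076929) (nat_lit 176161074) (.two (nat_lit 2097152) (nat_lit 8389939) (.one (nat_lit 19612567747) .nil))),
   .two (nat_lit 276824068) (nat_lit 218103816) (.two (nat_lit 8388610) (nat_lit 1962934339) (.two (nat_lit 41943041) (nat_lit 68157747) (.two (nat_lit 2097152) (nat_lit 1049289) (.one (nat_lit 1051696) .nil)))),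
   .two (nat_lit 809500676) (nat_lit 606076976) (.two (nat_lit 4194305) (nat_lit 19094569260) (.two (nat_lit 16777216) (nat_lit 2098485) (.one (nat_lit 2100273) .nil))),
   .two (nat_lit 2887778308) (nat_lit 1962934325) (.two (nat_lit 2097153) (nat_lit 880805126) (.one (nat_lit 9866053966) .nil)),
   .two (nat_lit 1175453700) (nat_lit 285212691) (.two (nat_lit 2902458371) (nat_lit 37320917175) (.two (nat_lit 16777216) (nat_lit 8389942) (.one (nat_lit 8391730) .nil))),
   .two (nat_lit 11543773188) (nat_lit 157043130378) (.two (nat_lit 8388610) (nat_lit 202375228) (.two (nat_lit 41943041) (nat_lit 1049098) (.two (nat_lit 8388608) (nat_lit 1050335) (.one (nat_lit 11517561100) .nil)))),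
   .two (nat_lit 218103812) (nat_lit 310378559) (.two (nat_lit 41943041) (nat_lit 10436477232) (.two (nat_lit 1048576) (nat_lit 16778976) (.one (nat_lit 9940503590) .nil))),
   .two (nat_lit 1779433476) (nat_lit 1916796936) (.two (nat_lit 11479810050) (nat_lit 1947205676) (.two (nat_lit 9765388289) (nat_lit 12050236142) (.one (nat_lit 9768536266) .nil)))]

theorem k1 : chkL tab c1 (nat_lit 2100) = true := by decide +kernel

theorem l1 : c1.length = 2100 := by decide +kernel

end K5

end Pool.Agent.Work.MP_bf01b2_co.MR
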