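import Pool.Agent.Work.MP_bf01b2_co.MR.K5T

/-!
# Five roots in `Q_5`: certificates of the entries 4200 to 6299
-/

set_option autoImplicit false
set_option maxRecDepth 100000

namespace Pool.Agent.Work.MP_bf01b2_co.MR

namespace K5

open JT

/-- certificates of the entries 4200 to 6299 -/
def c2 : List Rc :=
  [.two (nat_lit 9781116932) (nat_lit 71303180) (.two (nat_lit 46409973762) (nat_lit 11492393140) (.two (nat_lit 4194304) (nat_lit 822084281) (.one (nat_lit 16780340) .nil))),
   .two (nat_lit 606076932) (nat_lit 18933088264) (.two (nat_lit 156372041731) (nat_lit 304087106) (.two (nat_lit 156372041729) (nat_lit 11477713189) (.two (nat_lit 4194304) (nat_lit 2099491) .nil))),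
   .two (nat_lit 2969567236) (nat_lit 46978301960) (.two (nat_lit 2097155) (nat_lit 2969567257) (.two (nat_lit 34603009) (nat_lit 20719862072) (.two (nat_lit 1048576) (nat_lit 12163483973) .nil))),
   .two (nat_lit 10385096708) (nat_lit 880803860) (.two (nat_lit 1291845634) (nat_lit 3028287531) (.two (nat_lit 620756993) (nat_lit 8389077) (.two (nat_lit 2097152) (nat_lit 3464497406) .nil))),
   .two (nat_lit 9866051588) (nat_lit 19029557257) (.two (nat_lit 16777219) (nat_lit 20737687578) (.two (nat_lit 8388609) (nat_lit 3457155420) (.two (nat_lit 16777216) (nat_lit 2956985538) (.one (nat_lit 16780341) .nil)))),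
   .two (nat_lit 4194308) (nat_lit 83886095) (.two (nat_lit 4194306) (nat_lit 47596961845) (.two (nat_lit 16777217) (nat_lit 156532474041) (.two (nat_lit 1048576) (nat_lit 37316723858) (.one (nat_lit 1051702) .nil)))),
   .two (nat_lit 713031684) (nat_lit 4598005772) (.two (nat_lit 713031682) (nat_lit 1343225918) (.two (nat_lit 34603009) (nat_lit 9806283526) (.one (nat_lit 8391735) .nil))),
   .two (nat_lit 9766436868) (nat_lit 156971827208) (.two (nat_lit 41943043) (nat_lit 9799991349) (.two (nat_lit 2097153) (nat_lit 28764537331) (.two (nat_lit 2097152) (nat_lit 11618223812) (.one (nat_lit 847252531) .nil)))),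
   .two (nat_lit 203423748) (nat_lit 11513364523) (.two (nat_lit 4194305) (nat_lit 203424535) (.one (nat_lit 4197432) .nil)),
   .two (nat_lit 169869316) (nat_lit 12054429705) (.two (nat_lit 11543773187) (nat_lit 10376708143) (.two (nat_lit 34603009) (nat_lit 2921333108) (.two (nat_lit 1048576) (nat_lit 183953785634) (.one (nat_lit 8391737) .nil)))),
   .two (nat_lit 176160772) (nat_lit 19027460106) (.two (nat_lit 176160770) (nat_lit 156533522469) (.two (nat_lit 2097153) (nat_lit 2323644771) (.two (nat_lit 1048576) (nat_lit 8390371) (.one (nat_lit 47581236077) .nil)))),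
   .two (nat_lit 184549380) (nat_lit 10506731528) (.two (nat_lit 16777219) (nat_lit 46980399131) (.two (nat_lit 16777217) (nat_lit 3527409732) (.two (nat_lit 16777216) (nat_lit 2319451286) (.one (nat_lit 46992983591) .nil)))),
   .two (nat_lit 16777220) (nat_lit 11584667660) (.two (nat_lit 50331651) (nat_lit 183845781552) (.two (nat_lit 50331649) (nat_lit 3020947747) (.two (nat_lit 1048576) (nat_lit 2365588233) (.one (nat_lit 1051707) .nil)))),
   .two (nat_lit 16777220) (nat_lit 780140554) (.two (nat_lit 184549378) (nat_lit 9766436921) (.two (nat_lit 8388609) (nat_lit 21827158753) (.one (nat_lit 2954889362) .nil))),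
   .two (nat_lit 272629764) (nat_lit 142606379) (.two (nat_lit 4194305) (nat_lit 4638900739) (.two (nat_lit 4194304) (nat_lit 1317013636) .nil)),
   .two (nat_lit 612368388) (nat_lit 19599982600) (.two (nat_lit 176160770) (nat_lit 12117344283) (.two (nat_lit 8388609) (nat_lit 12117344324) (.two (nat_lit 16777216) (nat_lit 1749026947) .nil))),
   .two (nat_lit 10385096708) (nat_lit 21818769425) (.two (nat_lit 612368387) (nat_lit 4028629048) (.two (nat_lit 34603009) (nat_lit 2424307891) (.two (nat_lit 1048576) (nat_lit 184431937971) .nil))),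
   .two (nat_lit 285212678) (nat_lit 28790751275) (.two (nat_lit 16777217) (nat_lit 165525062358) (.one (nat_lit 10436478486) .nil)),
   .two (nat_lit 13203668996) (nat_lit 37320917002) (.two (nat_lit 1753219075) (nat_lit 83886118) (.two (nat_lit 612368385) (nat_lit 50332348) (.one (nat_lit 83888475) .nil))),
   .two (nat_lit 2954887172) (nat_lit 184993972269) (.two (nat_lit 2097153) (nat_lit 209715508) (.two (nat_lit 8388608) (nat_lit 11477713660) (.one (nat_lit 8391741) .nil))),
   .two (nat_lit 10370416644) (nat_lit 159257722890) (.two (nat_lit 1847590915) (nat_lit 176160794) (.two (nat_lit 606076929) (nat_lit 880803908) (.two (nat_lit 2097152) (nat_lit 8389419) (.one (nat_lit 8391742) .nil)))),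
   .two (nat_lit 1795162116) (nat_lit 10939793416) (.two (nat_lit 174752530435) (nat_lit 10385096744) (.two (nat_lit 9765388289) (nat_lit 654311492) (.two (nat_lit 1048576) (nat_lit 318767856) (.one (nat_lit 16780351) .nil)))),
   .two (nat_lit 11551113220) (nat_lit 1913651208) (.two (nat_lit 605028355) (nat_lit 166203490365) (.two (nat_lit 4194305) (nat_lit 19127074995) (.two (nat_lit 4194304) (nat_lit 2098488) (.one (nat_lit 2100288) .nil)))),
   .two (nat_lit 9768534020) (nat_lit 3525312536) (.two (nat_lit 4194305) (nat_lit 184987681484) (.one (nat_lit 11611932801) .nil)),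
   .two (nat_lit 2902458374) (nat_lit 19532873741) (.two (nat_lit 184549379) (nat_lit 708837430) (.two (nat_lit 4194305) (nat_lit 10385096884) (.two (nat_lit 4194304) (nat_lit 12129927876) (.one (nat_lit 1346373804) .nil)))),
   .two (nat_lit 721420294) (nat_lit 2954887176) (.two (nat_lit 721420291) (nat_lit 10538188838) (.two (nat_lit 16777217) (nat_lit 2988442301) (.one (nat_lit 2100289) .nil))),
   .two (nat_lit 272629764) (nat_lit 185021235211) (.two (nat_lit 159217876995) (nat_lit 21777875003) (.two (nat_lit 156365750273) (nat_lit 183845781970) (.two (nat_lit 1048576) (nat_lit 2098917) (.one (nat_lit 1051714) .nil)))),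
   .two (nat_lit 156367847428) (nat_lit 2416967707) (.two (nat_lit 9768534017) (nat_lit 158075978218) (.two (nat_lit 4194304) (nat_lit 1050342) (.one (nat_lit 1343228229) .nil))),
   .two (nat_lit 8388612) (nat_lit 47596961819) (.two (nat_lit 16777217) (nat_lit 746586402) (.two (nat_lit 16777216) (nat_lit 8389945) (.one (nat_lit 2323645989) .nil))),
   .two (nat_lit 2969567236) (nat_lit 10336862216) (.two (nat_lit 2902458370) (nat_lit 1948254254) (.two (nat_lit 2097153) (nat_lit 16777284) (.two (nat_lit 2097152) (nat_lit 47596962515) (.one (nat_lit 16780355) .nil)))),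
   .two (nat_lit 184549380) (nat_lit 19027460106) (.two (nat_lit 184549378) (nat_lit 19027460135) (.two (nat_lit 606076929) (nat_lit 285212950) (.two (nat_lit 2097152) (nat_lit 16778554) (.one (nat_lit 183861512482) .nil)))),
   .two (nat_lit 11543773188) (nat_lit 156372041736) (.two (nat_lit 705691650) (nat_lit 4605345860) (.two (nat_lit 16777216) (nat_lit 10343156047) .nil)),
   .two (nat_lit 41943044) (nat_lit 174688567340) (.two (nat_lit 4194305) (nat_lit 184423547194) (.two (nat_lit 1048576) (nat_lit 8390375) (.one (nat_lit 739248892) .nil))),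
   .two (nat_lit 813694980) (nat_lit 13224640555) (.two (nat_lit 9766436865) (nat_lit 46477083096) (.two (nat_lit 2097152) (nat_lit 1178601185) (.one (nat_lit 2100292) .nil))),
   .two (nat_lit 1376780294) (nat_lit 9867100218) (.two (nat_lit 605028353) (nat_lit 9867100341) (.two (nat_lit 1048576) (nat_lit 157036840162) (.one (nat_lit 2100293) .nil))),
   .two (nat_lit 184549380) (nat_lit 1847590920) (.two (nat_lit 184549378) (nat_lit 19027460138) (.two (nat_lit 9766436865) (nat_lit 754975005) (.two (nat_lit 2097152) (nat_lit 16778557) (.one (nat_lit 4632611016) .nil)))),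
   .two (nat_lit 721420292) (nat_lit 21777874952) (.two (nat_lit 705691650) (nat_lit 156984410413) (.two (nat_lit 1048576) (nat_lit 4043309769) (.one (nat_lit 16780358) .nil))),
   .two (nat_lit 285212676) (nat_lit 184419352618) (.two (nat_lit 37748737) (nat_lit 11559502525) (.one (nat_lit 11546920485) .nil)),
   .two (nat_lit 12117344260) (nat_lit 20704133146) (.two (nat_lit 605028353) (nat_lit 10506731805) (.two (nat_lit 1048576) (nat_lit 46510637757) (.one (nat_lit 156968683839) .nil))),
   .two (nat_lit 18933088262) (nat_lit 772800529) (.two (nat_lit 4605345795) (nat_lit 18925748283) (.two (nat_lit 2097153) (nat_lit 4598006055) (.two (nat_lit 2097152) (nat_lit 183920231127) (.one (nat_lit 165532404703) .nil)))),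
   .two (nat_lit 612368388) (nat_lit 46980399113) (.two (nat_lit 4601151491) (nat_lit 47588573249) (.two (nat_lit 612368385) (nat_lit 2319450452) (.two (nat_lit 4194304) (nat_lit 37253809862) (.one (nat_lit 12117345854) .nil)))),
   .two (nat_lit 10506731526) (nat_lit 1779433492) (.two (nat_lit 10506731523) (nat_lit 638582874) (.two (nat_lit 9766436865) (nat_lit 2416968031) (.two (nat_lit 2097152) (nat_lit 185020188910) .nil))),
   .two (nat_lit 10007609349) (nat_lit 4601151496) (.two (nat_lit 159224168451) (nat_lit 4634705962) (.two (nat_lit 612368385) (nat_lit 9869197663) (.two (nat_lit 8388608) (nat_lit 1849688802) (.one (nat_lit 10909387664) .nil)))),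
   .two (nat_lit 8388612) (nat_lit 101711965) (.two (nat_lit 8388609) (nat_lit 9966715195) (.two (nat_lit 1048576) (nat_lit 9906946804) (.one (nat_lit 2100295) .nil))),
   .two (nat_lit 169869316) (nat_lit 285212680) (.two (nat_lit 41943043) (nat_lit 3557818553) (.two (nat_lit 8388608) (nat_lit 855638456) (.one (nat_lit 1051720) .nil))),
   .two (nat_lit 822083588) (nat_lit 2954887192) (.two (nat_lit 16777217) (nat_lit 20705182419) (.one (nat_lit 2100297) .nil)),
   .two (nat_lit 4194308) (nat_lit 713031700) (.two (nat_lit 612368387) (nat_lit 46507491380) (.two (nat_lit 34603009) (nat_lit 343933276) (.two (nat_lit 1048576) (nat_lit 8390379) (.one (nat_lit 780143669) .nil)))),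
   .two (nat_lit 9768534020) (nat_lit 159251431434) (.two (nat_lit 1277165571) (nat_lit 156569174055) (.two (nat_lit 2097153) (nat_lit 13224640580) (.two (nat_lit 2097152) (nat_lit 46477083347) (.one (nat_lit 4197451) .nil)))),
   .two (nat_lit 169869316) (nat_lit 4605345819) (.two (nat_lit 2097153) (nat_lit 10376708282) (.two (nat_lit 8388608) (nat_lit 9933162696) .nil)),
   .two (nat_lit 1358954500) (nat_lit 10939793416) (.two (nat_lit 166129041410) (nat_lit 620757033) (.two (nat_lit 9765388289) (nat_lit 19545457400) (.one (nat_lit 16780365) .nil))),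
   .two (nat_lit 721420292) (nat_lit 166129041416) (.two (nat_lit 721420290) (nat_lit 10369368121) (.two (nat_lit 8388609) (nat_lit 4043309832) (.one (nat_lit 3472886532) .nil))),
   .two (nat_lit 176160772) (nat_lit 156532473905) (.two (nat_lit 8388609) (nat_lit 158646403347) (.two (nat_lit 8388608) (nat_lit 20704133817) (.one (nat_lit 1051726) .nil))),
   .two (nat_lit 1916796933) (nat_lit 285212696) (.two (nat_lit 4194305) (nat_lit 3003122402) (.one (nat_lit 16780367) .nil)),
   .two (nat_lit 2969567236) (nat_lit 157036838932) (.two (nat_lit 3525312515) (nat_lit 9948889156) (.two (nat_lit 2097152) (nat_lit 654312117) (.one (nat_lit 285215562) .nil))),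
   .two (nat_lit 2902458372) (nat_lit 174753579022) (.two (nat_lit 2902458370) (nat_lit 10504634450) (.two (nat_lit 2097153) (nat_lit 185002362121) (.one (nat_lit 2100304) .nil))),
   .two (nat_lit 9802088453) (nat_lit 28757196808) (.two (nat_lit 1343225859) (nat_lit 11546918966) (.two (nat_lit 9765388289) (nat_lit 3024093588) (.two (nat_lit 1048576) (nat_lit 21781021897) (.one (nat_lit 13221496978) .nil)))),
   .two (nat_lit 4194308) (nat_lit 10538188810) (.two (nat_lit 171966467) (nat_lit 10538188839) (.two (nat_lit 4194305) (nat_lit 10370416963) (.two (nat_lit 1048576) (nat_lit 2098926) (.one (nat_lit 3457157334) .nil)))),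
   .two (nat_lit 2954887172) (nat_lit 1913651212) (.two (nat_lit 69206019) (nat_lit 772800588) (.two (nat_lit 606076929) (nat_lit 12047089987) (.two (nat_lit 4194304) (nat_lit 1050351) (.one (nat_lit 19027462304) .nil)))),
   .two (nat_lit 4194308) (nat_lit 10504634383) (.two (nat_lit 9934209027) (nat_lit 159250382951) (.two (nat_lit 37748737) (nat_lit 20737687733) (.two (nat_lit 1048576) (nat_lit 12117345488) (.one (nat_lit 4197457) .nil)))),
   .two (nat_lit 612368388) (nat_lit 46978301960) (.two (nat_lit 708837379) (nat_lit 8388635) (.two (nat_lit 2097153) (nat_lit 612368563) (.two (nat_lit 2097152) (nat_lit 9806283931) (.one (nat_lit 21818772408) .nil)))),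
   .two (nat_lit 1795162116) (nat_lit 3458203656) (.two (nat_lit 1291845634) (nat_lit 4028629034) (.two (nat_lit 2097153) (nat_lit 11525948114) (.one (nat_lit 2887779877) .nil))),
   .two (nat_lit 41943044) (nat_lit 20638072847) (.two (nat_lit 169869314) (nat_lit 10544480304) (.two (nat_lit 8388609) (nat_lit 13188989241) (.two (nat_lit 8388608) (nat_lit 2098928) (.one (nat_lit 1317013936) .nil)))),
   .two (nat_lit 9781116932) (nat_lit 19599982600) (.two (nat_lit 183848927235) (nat_lit 1191182377) (.two (nat_lit 4194305) (nat_lit 3003122422) (.one (nat_lit 16780370) .nil))),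
   .two (nat_lit 16777220) (nat_lit 69206029) (.two (nat_lit 16777218) (nat_lit 9866051674) (.two (nat_lit 37748737) (nat_lit 4613734579) (.two (nat_lit 16777216) (nat_lit 37247518394) (.one (nat_lit 2100307) .nil)))),
   .two (nat_lit 754974724) (nat_lit 12047089672) (.two (nat_lit 184986632195) (nat_lit 11559501851) (.two (nat_lit 34603009) (nat_lit 10921968371) (.one (nat_lit 16779733) .nil))),
   .two (nat_lit 176160772) (nat_lit 10940842004) (.two (nat_lit 176160770) (nat_lit 28758245419) (.two (nat_lit 50331649) (nat_lit 158150427339) (.one (nat_lit 2100308) .nil))),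
   .two (nat_lit 705691652) (nat_lit 28693233674) (.two (nat_lit 806354947) (nat_lit 156569174055) (.two (nat_lit 2097153) (nat_lit 10335813933) (.two (nat_lit 2097152) (nat_lit 166199298187) .nil))),
   .two (nat_lit 620756996) (nat_lit 11476664328) (.two (nat_lit 605028355) (nat_lit 19530776635) (.two (nat_lit 2097153) (nat_lit 19599982773) (.two (nat_lit 2097152) (nat_lit 4195649) (.one (nat_lit 4197461) .nil)))),
   .two (nat_lit 9768534020) (nat_lit 10343153672) (.two (nat_lit 11479810051) (nat_lit 47555018820) (.two (nat_lit 4194304) (nat_lit 75498247) (.one (nat_lit 1317014534) .nil))),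
   .two (nat_lit 1358954500) (nat_lit 158075977736) (.two (nat_lit 9881780227) (nat_lit 2953838640) (.two (nat_lit 605028353) (nat_lit 3036676432) (.two (nat_lit 1048576) (nat_lit 156380431589) (.one (nat_lit 1051734) .nil)))),
   .two (nat_lit 3531603974) (nat_lit 157036838920) (.two (nat_lit 8388611) (nat_lit 9900654640) (.two (nat_lit 8388609) (nat_lit 10504634769) (.two (nat_lit 8388608) (nat_lit 2098498) (.one (nat_lit 1051094) .nil)))),
   .two (nat_lit 641728516) (nat_lit 169869365) (.two (nat_lit 612368385) (nat_lit 2350907686) (.two (nat_lit 8388608) (nat_lit 28087159060) .nil)),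
   .two (nat_lit 620756996) (nat_lit 10343153674) (.two (nat_lit 18933088259) (nat_lit 184549418) (.two (nat_lit 8388609) (nat_lit 788530719) .nil)),
   .two (nat_lit 739246084) (nat_lit 28093448230) (.two (nat_lit 34603009) (nat_lit 184993972925) (.one (nat_lit 13187941925) .nil)),
   .two (nat_lit 620756996) (nat_lit 166132187150) (.two (nat_lit 83886083) (nat_lit 157038936138) (.two (nat_lit 16777217) (nat_lit 183949591782) (.one (nat_lit 2420115691) .nil))),
   .two (nat_lit 9781116932) (nat_lit 183946444818) (.two (nat_lit 2902458370) (nat_lit 12147753023) (.two (nat_lit 2097153) (nat_lit 10000269603) (.two (nat_lit 2097152) (nat_lit 101712657) (.one (nat_lit 2100312) .nil)))),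
   .two (nat_lit 2887778308) (nat_lit 10452205589) (.two (nat_lit 270532611) (nat_lit 166211878965) (.two (nat_lit 620756993) (nat_lit 1209008896) (.one (nat_lit 1051737) .nil))),
   .two (nat_lit 68157444) (nat_lit 19530776584) (.two (nat_lit 605028355) (nat_lit 13188989029) (.two (nat_lit 4194305) (nat_lit 102760630) (.two (nat_lit 1048576) (nat_lit 2098500) (.one (nat_lit 1051738) .nil)))),
   .two (nat_lit 11492392964) (nat_lit 158075977736) (.two (nat_lit 620756995) (nat_lit 21207449656) (.two (nat_lit 50331649) (nat_lit 772800692) (.two (nat_lit 16777216) (nat_lit 1050357) (.one (nat_lit 638584978) .nil)))),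
   .two (nat_lit 754974724) (nat_lit 28086108168) (.two (nat_lit 21207449603) (nat_lit 721420329) (.two (nat_lit 605028353) (nat_lit 174768259827) (.one (nat_lit 16780379) .nil))),
   .two (nat_lit 11007950854) (nat_lit 101711880) (.two (nat_lit 1779433475) (nat_lit 156533522475) (.two (nat_lit 9765388289) (nat_lit 1344275603) (.one (nat_lit 1051740) .nil))),
   .two (nat_lit 156968681478) (nat_lit 8388616) (.two (nat_lit 156364701699) (nat_lit 4605345971) (.two (nat_lit 16777216) (nat_lit 176161941) (.one (nat_lit 276826347) .nil))),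
   .two (nat_lit 8388612) (nat_lit 157038936072) (.two (nat_lit 8388610) (nat_lit 339738805) (.two (nat_lit 4194304) (nat_lit 41944763) (.one (nat_lit 8391773) .nil))),
   .two (nat_lit 174686470150) (nat_lit 9948889096) (.two (nat_lit 19530776579) (nat_lit 1291845673) (.two (nat_lit 2097153) (nat_lit 1795162814) (.one (nat_lit 2902461184) .nil))),
   .two (nat_lit 11492392964) (nat_lit 157038936072) (.two (nat_lit 47550824451) (nat_lit 2902458548) (.two (nat_lit 1048576) (nat_lit 150995716) (.one (nat_lit 20640172700) .nil))),
   .two (nat_lit 285212676) (nat_lit 10909384770) (.two (nat_lit 4194305) (nat_lit 150996177) (.one (nat_lit 2099671) .nil)),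
   .two (nat_lit 2902458372) (nat_lit 775946250) (.two (nat_lit 2902458370) (nat_lit 171966655) (.two (nat_lit 4194305) (nat_lit 285212740) (.two (nat_lit 4194304) (nat_lit 16779001) (.one (nat_lit 16780382) .nil)))),
   .two (nat_lit 2954887172) (nat_lit 608174128) (.two (nat_lit 2097153) (nat_lit 306184260) (.two (nat_lit 2097152) (nat_lit 742392560) (.one (nat_lit 4197471) .nil))),
   .two (nat_lit 705691652) (nat_lit 83886088) (.two (nat_lit 270532611) (nat_lit 19042140206) (.two (nat_lit 34603009) (nat_lit 16777623) (.two (nat_lit 1048576) (nat_lit 16779002) (.one (nat_lit 16780384) .nil)))),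
   .two (nat_lit 2887778308) (nat_lit 28093448231) (.two (nat_lit 2097153) (nat_lit 183853121813) (.two (nat_lit 1048576) (nat_lit 174759872156) (.one (nat_lit 1276119299) .nil))),
   .two (nat_lit 639631364) (nat_lit 3527409688) (.two (nat_lit 2097153) (nat_lit 138412784) (.one (nat_lit 1413482625) .nil)),
   .two (nat_lit 11577327622) (nat_lit 1862270988) (.two (nat_lit 12114198531) (nat_lit 183928619067) (.two (nat_lit 156372041729) (nat_lit 20637025024) (.one (nat_lit 156364704108) .nil))),
   .two (nat_lit 75497476) (nat_lit 174752530440) (.two (nat_lit 713031682) (nat_lit 156364701877) (.two (nat_lit 8388608) (nat_lit 9933161793) (.one (nat_lit 9933163605) .nil))),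
   .two (nat_lit 2887778308) (nat_lit 156372041738) (.two (nat_lit 2097155) (nat_lit 156372041766) (.two (nat_lit 2097153) (nat_lit 209715547) (.two (nat_lit 16777216) (nat_lit 1051061) .nil))),
   .two (nat_lit 158144135173) (nat_lit 822083592) (.two (nat_lit 1277165571) (nat_lit 1191182624) (.two (nat_lit 2097152) (nat_lit 2332033780) (.one (nat_lit 46489668688) .nil))),
   .two (nat_lit 11479810052) (nat_lit 21777874964) (.two (nat_lit 9768534019) (nat_lit 11577327642) (.two (nat_lit 34603009) (nat_lit 104858410) (.one (nat_lit 4196824) .nil))),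
   .two (nat_lit 50331652) (nat_lit 9934209032) (.two (nat_lit 16777218) (nat_lit 20738736169) (.two (nat_lit 16777217) (nat_lit 20738736930) (.one (nat_lit 2418019186) .nil))),
   .two (nat_lit 37748740) (nat_lit 13195280429) (.two (nat_lit 612368385) (nat_lit 19094569270) (.two (nat_lit 8388608) (nat_lit 2098941) (.one (nat_lit 8391474) .nil))),
   .two (nat_lit 822083588) (nat_lit 28758245386) (.two (nat_lit 16777218) (nat_lit 1847590953) (.two (nat_lit 16777217) (nat_lit 13188989688) (.one (nat_lit 2100323) .nil))),
   .two (nat_lit 50331652) (nat_lit 156372041736) (.two (nat_lit 46414168066) (nat_lit 10519314479) (.two (nat_lit 8388609) (nat_lit 822083652) (.two (nat_lit 8388608) (nat_lit 12129929688) .nil))),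
   .two (nat_lit 159224168452) (nat_lit 159251431444) (.two (nat_lit 69206019) (nat_lit 10007609523) (.two (nat_lit 2097152) (nat_lit 243270902) (.one (nat_lit 1753221802) .nil))),
   .two (nat_lit 10506731524) (nat_lit 10370416648) (.two (nat_lit 165528207363) (nat_lit 1210056750) (.two (nat_lit 620756993) (nat_lit 874513108) (.one (nat_lit 2317355176) .nil))),
   .two (nat_lit 176160772) (nat_lit 1277165576) (.two (nat_lit 9934209027) (nat_lit 166136381741) (.two (nat_lit 2097152) (nat_lit 343935257) .nil)),
   .two (nat_lit 285212676) (nat_lit 156367847432) (.two (nat_lit 2889875459) (nat_lit 16777284) (.two (nat_lit 4194304) (nat_lit 16779007) (.one (nat_lit 12117345855) .nil))),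
   .two (nat_lit 12047089668) (nat_lit 840957964) (.two (nat_lit 11543773187) (nat_lit 184417255472) (.two (nat_lit 34603009) (nat_lit 46508540193) (.two (nat_lit 1048576) (nat_lit 19128124101) (.one (nat_lit 156532475433) .nil)))),
   .two (nat_lit 13224640518) (nat_lit 158143086600) (.two (nat_lit 809500675) (nat_lit 158176641066) (.two (nat_lit 37748737) (nat_lit 19127075205) (.two (nat_lit 1048576) (nat_lit 156569174721) (.one (nat_lit 1051750) .nil)))),
   .two (nat_lit 822083589) (nat_lit 19096666131) (.two (nat_lit 809500675) (nat_lit 11593056309) (.two (nat_lit 37748737) (nat_lit 156984410515) (.two (nat_lit 4194304) (nat_lit 166144771316) (.one (nat_lit 159266113061) .nil)))),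
   .two (nat_lit 1779433476) (nat_lit 612368396) (.two (nat_lit 2969567235) (nat_lit 28798091558) (.two (nat_lit 16777216) (nat_lit 46514833698) .nil)),
   .two (nat_lit 639631364) (nat_lit 285212731) (.two (nat_lit 16777217) (nat_lit 1947205936) (.two (nat_lit 16777216) (nat_lit 2098945) (.one (nat_lit 16779396) .nil))),
   .two (nat_lit 1277165572) (nat_lit 4613734418) (.two (nat_lit 705691650) (nat_lit 4613734456) (.two (nat_lit 50331649) (nat_lit 1376780592) (.two (nat_lit 1048576) (nat_lit 16779010) (.one (nat_lit 19042142646) .nil)))),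
   .two (nat_lit 10007609349) (nat_lit 705691656) (.two (nat_lit 159224168451) (nat_lit 705691688) (.two (nat_lit 612368385) (nat_lit 2349859167) (.two (nat_lit 8388608) (nat_lit 1343226296) (.one (nat_lit 4631562688) .nil)))),
   .two (nat_lit 47548727300) (nat_lit 1417674795) (.two (nat_lit 8388609) (nat_lit 159251431864) (.one (nat_lit 166197201084) .nil)),
   .two (nat_lit 272629764) (nat_lit 184416206856) (.two (nat_lit 2889875459) (nat_lit 183912890409) (.two (nat_lit 37748737) (nat_lit 165525062390) (.one (nat_lit 1051751) .nil))),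
   .two (nat_lit 28086108166) (nat_lit 20738736154) (.two (nat_lit 16777217) (nat_lit 19597887011) .nil),
   .two (nat_lit 46407876612) (nat_lit 18928893960) (.two (nat_lit 2097155) (nat_lit 675283002) (.two (nat_lit 34603009) (nat_lit 1914700070) (.two (nat_lit 1048576) (nat_lit 20640170752) (.one (nat_lit 4197480) .nil)))),
   .two (nat_lit 183912890373) (nat_lit 11479810056) (.two (nat_lit 11479810050) (nat_lit 12147753001) (.two (nat_lit 50331649) (nat_lit 10939794135) (.one (nat_lit 672139696) .nil))),
   .two (nat_lit 10385096708) (nat_lit 10907287575) (.two (nat_lit 9781116931) (nat_lit 47584378940) (.two (nat_lit 2097153) (nat_lit 620757736) (.one (nat_lit 10552871226) .nil))),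
   .two (nat_lit 10907287558) (nat_lit 2889875483) (.two (nat_lit 2097153) (nat_lit 1279263071) (.two (nat_lit 4194304) (nat_lit 20638074175) (.one (nat_lit 4197481) .nil))),
   .two (nat_lit 218103812) (nat_lit 20705181708) (.two (nat_lit 2097155) (nat_lit 285212709) (.two (nat_lit 34603009) (nat_lit 20652753657) (.one (nat_lit 1051754) .nil))),
   .two (nat_lit 11543773188) (nat_lit 166132187161) (.two (nat_lit 34603009) (nat_lit 46980399797) (.one (nat_lit 1051755) .nil)),
   .two (nat_lit 739246084) (nat_lit 157038936074) (.two (nat_lit 4601151491) (nat_lit 37246468134) (.two (nat_lit 4194305) (nat_lit 184416208133) (.one (nat_lit 775948616) .nil))),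
   .two (nat_lit 272629764) (nat_lit 12062818316) (.two (nat_lit 654311427) (nat_lit 156569174084) (.two (nat_lit 16777216) (nat_lit 165528208069) (.one (nat_lit 742394729) .nil))),
   .two (nat_lit 2988441605) (nat_lit 9881780251) (.two (nat_lit 2097153) (nat_lit 1358954936) (.one (nat_lit 4043311276) .nil)),
   .two (nat_lit 158083317764) (nat_lit 1913651208) (.two (nat_lit 11476664322) (nat_lit 20644364330) (.two (nat_lit 34603009) (nat_lit 18933088960) (.one (nat_lit 20711475629) .nil))),
   .two (nat_lit 8388612) (nat_lit 11577327643) (.two (nat_lit 41943041) (nat_lit 11510218933) (.two (nat_lit 4194304) (nat_lit 46977254148) (.one (nat_lit 1051757) .nil))),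
   .two (nat_lit 705691652) (nat_lit 46984593418) (.two (nat_lit 8388610) (nat_lit 18925748583) (.two (nat_lit 2097152) (nat_lit 1049927) (.one (nat_lit 19597887761) .nil))),
   .two (nat_lit 8388612) (nat_lit 13191086088) (.two (nat_lit 183848927235) (nat_lit 276824129) (.two (nat_lit 8388609) (nat_lit 166199296406) (.two (nat_lit 16777216) (nat_lit 28093449790) .nil))),
   .two (nat_lit 68157444) (nat_lit 620757002) (.two (nat_lit 184549378) (nat_lit 19596836915) (.two (nat_lit 4194305) (nat_lit 68157912) (.two (nat_lit 16777216) (nat_lit 104858893) (.one (nat_lit 608176481) .nil)))),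
   .two (nat_lit 620756996) (nat_lit 11584667660) (.two (nat_lit 721420290) (nat_lit 183845781552) (.two (nat_lit 8388609) (nat_lit 156481093941) (.two (nat_lit 8388608) (nat_lit 10452206311) (.one (nat_lit 10503588100) .nil)))),
   .two (nat_lit 19599982597) (nat_lit 203423771) (.two (nat_lit 2097153) (nat_lit 876609717) (.two (nat_lit 4194304) (nat_lit 2098949) (.one (nat_lit 2100334) .nil))),
   .two (nat_lit 174753579012) (nat_lit 10385096712) (.two (nat_lit 20638072834) (nat_lit 654311465) (.two (nat_lit 606076929) (nat_lit 9781117730) (.one (nat_lit 16780399) .nil))),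
   .two (nat_lit 4601151492) (nat_lit 184986632204) (.two (nat_lit 4194306) (nat_lit 156364701751) (.two (nat_lit 8388609) (nat_lit 34604220) (.one (nat_lit 4197488) .nil))),
   .two (nat_lit 13224640517) (nat_lit 158646403086) (.two (nat_lit 739246083) (nat_lit 4634705991) (.two (nat_lit 34603009) (nat_lit 11580474655) (.one (nat_lit 46977255596) .nil))),
   .two (nat_lit 612368388) (nat_lit 1745879059) (.two (nat_lit 176160770) (nat_lit 19596836920) (.two (nat_lit 34603009) (nat_lit 612368452) (.two (nat_lit 4194304) (nat_lit 101712311) (.one (nat_lit 8391793) .nil)))),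
   .two (nat_lit 2969567236) (nat_lit 184986632200) (.two (nat_lit 705691650) (nat_lit 83886157) (.two (nat_lit 620756993) (nat_lit 135266372) (.two (nat_lit 16777216) (nat_lit 21777875726) (.one (nat_lit 1051762) .nil)))),
   .two (nat_lit 50331654) (nat_lit 1384120332) (.two (nat_lit 50331651) (nat_lit 158653743152) (.two (nat_lit 9765388289) (nat_lit 9915334994) (.two (nat_lit 1048576) (nat_lit 10351542980) (.one (nat_lit 16780403) .nil)))),
   .two (nat_lit 8388612) (nat_lit 20705181708) (.two (nat_lit 176160771) (nat_lit 4028629037) (.two (nat_lit 8388609) (nat_lit 337641819) (.two (nat_lit 1048576) (nat_lit 28798092467) (.one (nat_lit 156573370560) .nil)))),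
   .two (nat_lit 606076932) (nat_lit 2424307722) (.two (nat_lit 169869314) (nat_lit 1849688388) (.two (nat_lit 8388608) (nat_lit 2098950) (.one (nat_lit 10510928069) .nil))),
   .two (nat_lit 1191182342) (nat_lit 156367847432) (.two (nat_lit 1191182339) (nat_lit 9802088488) (.two (nat_lit 4194305) (nat_lit 2969567937) (.one (nat_lit 117442985) .nil))),
   .two (nat_lit 12047089670) (nat_lit 9948889098) (.two (nat_lit 34603011) (nat_lit 184549402) (.two (nat_lit 2097153) (nat_lit 183928619721) (.one (nat_lit 12633245881) .nil))),
   .two (nat_lit 11551113220) (nat_lit 4601151512) (.two (nat_lit 8388609) (nat_lit 272630497) (.one (nat_lit 2099674) .nil)),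
   .two (nat_lit 183848927236) (nat_lit 3021996098) (.two (nat_lit 156367847425) (nat_lit 11611931364) (.one (nat_lit 2100341) .nil)),
   .two (nat_lit 4194308) (nat_lit 41943048) (.two (nat_lit 8388610) (nat_lit 37316722997) (.two (nat_lit 8388608) (nat_lit 174688568561) (.one (nat_lit 3557820611) .nil))),
   .two (nat_lit 754974724) (nat_lit 184416206856) (.two (nat_lit 12114198531) (nat_lit 28772925829) (.two (nat_lit 1048576) (nat_lit 3003122382) (.one (nat_lit 13237225674) .nil))),
   .two (nat_lit 10940841988) (nat_lit 10007609364) (.two (nat_lit 8388611) (nat_lit 1847590937) (.two (nat_lit 2097153) (nat_lit 2927625523) (.one (nat_lit 8391798) .nil))),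
   .two (nat_lit 218103812) (nat_lit 183848927240) (.two (nat_lit 2902458370) (nat_lit 183848927258) (.two (nat_lit 37748737) (nat_lit 13237223769) (.two (nat_lit 1048576) (nat_lit 239077729) .nil))),
   .two (nat_lit 4194308) (nat_lit 8388616) (.two (nat_lit 9934209027) (nat_lit 46409973813) (.two (nat_lit 37748737) (nat_lit 157043130697) (.two (nat_lit 1048576) (nat_lit 4196105) (.one (nat_lit 4197497) .nil)))),
   .two (nat_lit 20738736134) (nat_lit 285212680) (.two (nat_lit 721420291) (nat_lit 3558866987) (.two (nat_lit 16777217) (nat_lit 1176503839) .nil)),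
   .two (nat_lit 4194308) (nat_lit 706740236) (.two (nat_lit 171966467) (nat_lit 156567076914) (.two (nat_lit 4194305) (nat_lit 606077234) (.two (nat_lit 4194304) (nat_lit 2098954) (.one (nat_lit 157035792838) .nil)))),
   .two (nat_lit 754974724) (nat_lit 638582796) (.two (nat_lit 1745879043) (nat_lit 1358954564) (.two (nat_lit 1048576) (nat_lit 754976276) .nil)),
   .two (nat_lit 8388612) (nat_lit 11007950858) (.two (nat_lit 176160771) (nat_lit 46474985516) (.two (nat_lit 8388609) (nat_lit 156533522714) (.two (nat_lit 8388608) (nat_lit 2098507) (.one (nat_lit 874515339) .nil)))),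
   .two (nat_lit 9934209028) (nat_lit 11614027788) (.two (nat_lit 2887778306) (nat_lit 158079123516) (.two (nat_lit 156365750273) (nat_lit 10003415538) (.two (nat_lit 4194304) (nat_lit 2098955) (.one (nat_lit 183848929691) .nil)))),
   .two (nat_lit 4601151492) (nat_lit 46474985498) (.two (nat_lit 4194305) (nat_lit 46474985750) (.two (nat_lit 4194304) (nat_lit 2098508) (.one (nat_lit 3021998970) .nil))),
   .two (nat_lit 174686470150) (nat_lit 8388616) (.two (nat_lit 183853121539) (nat_lit 46508539962) (.two (nat_lit 4194305) (nat_lit 10336862554) (.two (nat_lit 4194304) (nat_lit 174692762327) (.one (nat_lit 8391804) .nil)))),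
   .two (nat_lit 20638072838) (nat_lit 11618222107) (.two (nat_lit 8388609) (nat_lit 1210057446) (.one (nat_lit 184987683046) .nil)),
   .two (nat_lit 46980399108) (nat_lit 21785215020) (.two (nat_lit 4194305) (nat_lit 166237045065) (.two (nat_lit 8388608) (nat_lit 4030726935) (.one (nat_lit 4197501) .nil))),
   .two (nat_lit 174686470150) (nat_lit 176160795) (.two (nat_lit 2097153) (nat_lit 109053257) (.one (nat_lit 8391806) .nil)),
   .two (nat_lit 47548727300) (nat_lit 28757196808) (.two (nat_lit 169869314) (nat_lit 156465365081) (.two (nat_lit 16777217) (nat_lit 1847592137) (.one (nat_lit 37314627821) .nil))),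
   .two (nat_lit 754974724) (nat_lit 1913651208) (.two (nat_lit 11559501827) (nat_lit 19127074881) (.two (nat_lit 37748737) (nat_lit 9899607614) .nil)),
   .two (nat_lit 1779433476) (nat_lit 18933088264) (.two (nat_lit 612368387) (nat_lit 1175453754) (.two (nat_lit 605028353) (nat_lit 28798091993) (.one (nat_lit 1051776) .nil))),
   .two (nat_lit 2889875460) (nat_lit 165526110216) (.two (nat_lit 2956984323) (nat_lit 1310720026) (.two (nat_lit 605028353) (nat_lit 11477713079) (.two (nat_lit 1048576) (nat_lit 2921333986) (.one (nat_lit 2099922) .nil)))),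
   .two (nat_lit 612368388) (nat_lit 46474985498) (.two (nat_lit 16777217) (nat_lit 1746928057) (.one (nat_lit 10001320278) .nil)),
   .two (nat_lit 9867100164) (nat_lit 4605345833) (.two (nat_lit 2097153) (nat_lit 343933206) (.two (nat_lit 4194304) (nat_lit 174759871628) (.one (nat_lit 8391809) .nil))),
   .two (nat_lit 11577327621) (nat_lit 3527409689) (.two (nat_lit 34603009) (nat_lit 4194485) (.two (nat_lit 1048576) (nat_lit 4195663) (.one (nat_lit 1178601850) .nil))),
   .two (nat_lit 612368388) (nat_lit 9966714901) (.two (nat_lit 176160770) (nat_lit 10906239061) (.two (nat_lit 612368385) (nat_lit 3020947769) (.two (nat_lit 8388608) (nat_lit 1050384) (.one (nat_lit 158653745410) .nil)))),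
   .two (nat_lit 156372041732) (nat_lit 21207449608) (.two (nat_lit 18933088259) (nat_lit 2349858843) (.two (nat_lit 156364701697) (nat_lit 20644364689) (.two (nat_lit 1048576) (nat_lit 8390417) (.one (nat_lit 183953786396) .nil)))),
   .two (nat_lit 184419352580) (nat_lit 706740236) (.two (nat_lit 11479810051) (nat_lit 1948254254) (.two (nat_lit 2097153) (nat_lit 20740833622) (.two (nat_lit 2097152) (nat_lit 10003416201) (.one (nat_lit 2099678) .nil)))),
   .two (nat_lit 4601151492) (nat_lit 37246468113) (.two (nat_lit 157035790339) (nat_lit 18928894014) (.two (nat_lit 16777217) (nat_lit 1950352161) (.one (nat_lit 336595216) .nil))),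
   .two (nat_lit 9866051588) (nat_lit 165526110218) (.two (nat_lit 11492392963) (nat_lit 20737687605) (.two (nat_lit 9765388289) (nat_lit 1310720324) (.two (nat_lit 2097152) (nat_lit 37246469328) (.one (nat_lit 3472886131) .nil)))),
   .two (nat_lit 158144135172) (nat_lit 1947205642) (.two (nat_lit 11476664322) (nat_lit 158144135194) (.two (nat_lit 34603009) (nat_lit 158144135608) (.one (nat_lit 174753581823) .nil))),
   .two (nat_lit 184993972230) (nat_lit 28790751242) (.two (nat_lit 9866051587) (nat_lit 343932967) (.two (nat_lit 34603009) (nat_lit 11618222360) (.two (nat_lit 1048576) (nat_lit 158083318912) (.one (nat_lit 8391810) .nil)))),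
   .two (nat_lit 713031684) (nat_lit 2902458376) (.two (nat_lit 713031682) (nat_lit 158091706414) (.two (nat_lit 2097153) (nat_lit 19142804663) (.one (nat_lit 20738738510) .nil))),
   .two (nat_lit 11559501828) (nat_lit 28086108168) (.two (nat_lit 754974723) (nat_lit 10503585841) (.two (nat_lit 605028353) (nat_lit 1392509667) (.one (nat_lit 16779743) .nil))),
   .two (nat_lit 218103812) (nat_lit 1343225864) (.two (nat_lit 705691650) (nat_lit 166245433371) (.two (nat_lit 9781116929) (nat_lit 1343227193) (.one (nat_lit 9765390813) .nil))),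
   .two (nat_lit 183845781508) (nat_lit 9768534053) (.two (nat_lit 156364701697) (nat_lit 10538189148) (.two (nat_lit 8388608) (nat_lit 3524264662) (.one (nat_lit 166197201617) .nil))),
   .two (nat_lit 1178599428) (nat_lit 157036838971) (.two (nat_lit 2097153) (nat_lit 4030727400) (.one (nat_lit 2100355) .nil)),
   .two (nat_lit 1291845636) (nat_lit 12047089674) (.two (nat_lit 34603011) (nat_lit 2969567300) (.two (nat_lit 2097152) (nat_lit 10015998689) (.one (nat_lit 16780420) .nil))),
   .two (nat_lit 654311428) (nat_lit 1175453714) (.two (nat_lit 176160771) (nat_lit 11577327696) (.two (nat_lit 50331649) (nat_lit 159216829163) (.one (nat_lit 1051781) .nil))),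
   .two (nat_lit 21785214980) (nat_lit 272629768) (.two (nat_lit 1795162115) (nat_lit 9768534084) (.two (nat_lit 16777216) (nat_lit 12150899425) (.one (nat_lit 4197511) .nil))),
   .two (nat_lit 16777220) (nat_lit 1913651210) (.two (nat_lit 184549378) (nat_lit 184416206892) (.two (nat_lit 8388609) (nat_lit 839910677) (.one (nat_lit 1051784) .nil))),
   .two (nat_lit 205520900) (nat_lit 16777224) (.two (nat_lit 16777218) (nat_lit 185023332412) (.two (nat_lit 50331649) (nat_lit 37246469259) (.one (nat_lit 1051785) .nil))),
   .two (nat_lit 50331652) (nat_lit 158143086623) (.two (nat_lit 2097155) (nat_lit 822083622) (.two (nat_lit 2097153) (nat_lit 28086108477) (.two (nat_lit 2097152) (nat_lit 1050386) (.one (nat_lit 13203671513) .nil)))),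
   .two (nat_lit 1745879044) (nat_lit 117440525) (.two (nat_lit 1358954499) (nat_lit 1846542450) (.two (nat_lit 34603009) (nat_lit 50331828) (.two (nat_lit 1048576) (nat_lit 174768260316) (.one (nat_lit 16779744) .nil)))),
   .two (nat_lit 12114198532) (nat_lit 13222543372) (.two (nat_lit 1779433475) (nat_lit 21778923574) (.two (nat_lit 34603009) (nat_lit 37247516986) (.two (nat_lit 1048576) (nat_lit 2098963) (.one (nat_lit 156532475429) .nil)))),
   .two (nat_lit 4194308) (nat_lit 10504634376) (.two (nat_lit 4194306) (nat_lit 20705181747) (.two (nat_lit 4194305) (nat_lit 1377829173) (.two (nat_lit 1048576) (nat_lit 2098941) (.one (nat_lit 1051105) .nil)))),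
   .two (nat_lit 68157444) (nat_lit 10907287562) (.two (nat_lit 4194306) (nat_lit 11578376246) (.two (nat_lit 4194305) (nat_lit 236978455) (.two (nat_lit 4194304) (nat_lit 37247518440) (.one (nat_lit 1051788) .nil)))),
   .two (nat_lit 272629764) (nat_lit 10913579018) (.two (nat_lit 4194306) (nat_lit 166245433387) (.two (nat_lit 16777217) (nat_lit 19532873998) (.two (nat_lit 8388608) (nat_lit 1950352532) (.one (nat_lit 8391821) .nil)))),
   .two (nat_lit 169869316) (nat_lit 166132187146) (.two (nat_lit 166132187138) (nat_lit 37314625587) (.two (nat_lit 34603009) (nat_lit 1279263013) (.two (nat_lit 1048576) (nat_lit 4195665) (.one (nat_lit 2100366) .nil)))),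
   .two (nat_lit 3458203652) (nat_lit 9781116936) (.two (nat_lit 2954887171) (nat_lit 285212696) (.two (nat_lit 16777217) (nat_lit 203424089) (.two (nat_lit 4194304) (nat_lit 3472885291) .nil))),
   .two (nat_lit 20644364294) (nat_lit 3460300859) (.two (nat_lit 4194305) (nat_lit 11618222481) (.two (nat_lit 16777216) (nat_lit 2889875896) (.one (nat_lit 8391823) .nil))),
   .two (nat_lit 41943044) (nat_lit 68157448) (.two (nat_lit 4194306) (nat_lit 158653743165) (.two (nat_lit 8388609) (nat_lit 18925748517) (.two (nat_lit 8388608) (nat_lit 47547680081) (.one (nat_lit 158176643205) .nil)))),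
   .two (nat_lit 21777874948) (nat_lit 1178599432) (.two (nat_lit 2969567235) (nat_lit 272629828) (.two (nat_lit 16777216) (nat_lit 876610273) (.one (nat_lit 4197520) .nil))),
   .two (nat_lit 822083590) (nat_lit 47555018797) (.two (nat_lit 8388609) (nat_lit 788529539) (.two (nat_lit 8388608) (nat_lit 3539993722) (.one (nat_lit 645925094) .nil))),
   .two (nat_lit 9967763461) (nat_lit 12147752970) (.two (nat_lit 184416206851) (nat_lit 159251431467) (.two (nat_lit 9765388289) (nat_lit 9900656186) .nil)),
   .two (nat_lit 8388612) (nat_lit 3560964153) (.two (nat_lit 4194305) (nat_lit 2920284992) (.two (nat_lit 4194304) (nat_lit 183946446034) (.one (nat_lit 18928896334) .nil))),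
   .two (nat_lit 2887778308) (nat_lit 3028287498) (.two (nat_lit 612368387) (nat_lit 158143086643) (.two (nat_lit 2097153) (nat_lit 156472705801) (.one (nat_lit 1051793) .nil))),
   .two (nat_lit 1376780293) (nat_lit 184419352584) (.two (nat_lit 1343225859) (nat_lit 11513364522) (.two (nat_lit 605028353) (nat_lit 159219974495) (.two (nat_lit 1048576) (nat_lit 205521634) (.one (nat_lit 4197522) .nil)))),
   .two (nat_lit 4194308) (nat_lit 721420301) (.two (nat_lit 171966467) (nat_lit 19042140214) (.two (nat_lit 16777217) (nat_lit 1849688248) (.two (nat_lit 16777216) (nat_lit 2319451293) (.one (nat_lit 16779748) .nil)))),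
   .two (nat_lit 50331652) (nat_lit 20707278860) (.two (nat_lit 4601151491) (nat_lit 285212740) (.two (nat_lit 4194304) (nat_lit 2902459061) (.one (nat_lit 12150901429) .nil))),
   .two (nat_lit 8388612) (nat_lit 12062818316) (.two (nat_lit 218103811) (nat_lit 10007609412) (.two (nat_lit 16777216) (nat_lit 8390423) (.one (nat_lit 8391828) .nil))),
   .two (nat_lit 2902458372) (nat_lit 3457155084) (.two (nat_lit 285212675) (nat_lit 13221494833) (.two (nat_lit 605028353) (nat_lit 28806480623) (.one (nat_lit 822085870) .nil))),
   .two (nat_lit 156569174021) (nat_lit 176160789) (.two (nat_lit 10506731523) (nat_lit 1384120414) (.two (nat_lit 9768534017) (nat_lit 158653743824) (.one (nat_lit 8391141) .nil))),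
   .two (nat_lit 9781116932) (nat_lit 21208498186) (.two (nat_lit 169869314) (nat_lit 3472884021) (.two (nat_lit 8388608) (nat_lit 184431937826) .nil)),
   .two (nat_lit 721420292) (nat_lit 46980399131) (.two (nat_lit 4194305) (nat_lit 16777396) (.two (nat_lit 16777216) (nat_lit 641730749) .nil)),
   .two (nat_lit 713031684) (nat_lit 843055148) (.two (nat_lit 41943041) (nat_lit 13224641314) (.one (nat_lit 19130223061) .nil)),
   .two (nat_lit 19530776582) (nat_lit 10007609387) (.two (nat_lit 2097153) (nat_lit 158183981530) (.two (nat_lit 2097152) (nat_lit 11517560074) (.one (nat_lit 8391831) .nil))),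
   .two (nat_lit 16777220) (nat_lit 12117344264) (.two (nat_lit 11479810050) (nat_lit 285212740) (.two (nat_lit 4194304) (nat_lit 16778581) (.one (nat_lit 174768261249) .nil))),
   .two (nat_lit 47555018756) (nat_lit 158144135176) (.two (nat_lit 1277165570) (nat_lit 20644364315) (.two (nat_lit 606076929) (nat_lit 1384121657) (.one (nat_lit 11517560357) .nil))),
   .two (nat_lit 10939793412) (nat_lit 4030726200) (.two (nat_lit 9765388289) (nat_lit 185023333620) (.one (nat_lit 2889877029) .nil)),
   .two (nat_lit 16777220) (nat_lit 18933088264) (.two (nat_lit 156372041731) (nat_lit 11022630960) (.two (nat_lit 41943041) (nat_lit 654312789) (.one (nat_lit 16780440) .nil))),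
   .two (nat_lit 11007950853) (nat_lit 1392508975) (.two (nat_lit 606076929) (nat_lit 11626612289) .nil),
   .two (nat_lit 9781116932) (nat_lit 47548727311) (.two (nat_lit 218103811) (nat_lit 156365750325) (.two (nat_lit 2097153) (nat_lit 1795162805) (.one (nat_lit 3539994860) .nil))),
   .two (nat_lit 16777220) (nat_lit 746586124) (.two (nat_lit 10343153667) (nat_lit 620757060) (.two (nat_lit 8388608) (nat_lit 16777909) (.one (nat_lit 159232559441) .nil))),
   .two (nat_lit 46414168068) (nat_lit 9799991349) (.two (nat_lit 2097153) (nat_lit 11014243524) (.one (nat_lit 11611932883) .nil)),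
   .two (nat_lit 50331652) (nat_lit 9934209039) (.two (nat_lit 9934209027) (nat_lit 687865904) (.two (nat_lit 16777217) (nat_lit 236978446) (.two (nat_lit 16777216) (nat_lit 9967764660) (.one (nat_lit 20652755144) .nil)))),
   .two (nat_lit 612368388) (nat_lit 10940841992) (.two (nat_lit 176160770) (nat_lit 10437525530) (.two (nat_lit 605028353) (nat_lit 874513182) (.one (nat_lit 9867102561) .nil))),
   .two (nat_lit 184549380) (nat_lit 166229704767) (.two (nat_lit 4194305) (nat_lit 168821445) (.one (nat_lit 1051802) .nil)),
   .two (nat_lit 343932933) (nat_lit 843055172) (.two (nat_lit 8388608) (nat_lit 809501924) (.one (nat_lit 4197531) .nil)),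
   .two (nat_lit 8388612) (nat_lit 20705181708) (.two (nat_lit 176160771) (nat_lit 11544821806) (.two (nat_lit 34603009) (nat_lit 37253808490) (.two (nat_lit 2097152) (nat_lit 156573369553) (.one (nat_lit 1051110) .nil)))),
   .two (nat_lit 713031684) (nat_lit 156466413616) (.two (nat_lit 34603009) (nat_lit 10437525972) (.two (nat_lit 1048576) (nat_lit 46508541048) (.one (nat_lit 2100380) .nil))),
   .two (nat_lit 218103812) (nat_lit 1376780298) (.two (nat_lit 2902458371) (nat_lit 9899606057) (.two (nat_lit 50331649) (nat_lit 9765389029) (.one (nat_lit 1051805) .nil))),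
   .two (nat_lit 9934209028) (nat_lit 3527409688) (.two (nat_lit 2097153) (nat_lit 21814575825) (.one (nat_lit 4197534) .nil)),
   .two (nat_lit 184549380) (nat_lit 19130220561) (.two (nat_lit 184549378) (nat_lit 742391867) (.two (nat_lit 612368385) (nat_lit 742392538) (.one (nat_lit 2956986845) .nil))),
   .two (nat_lit 2887778308) (nat_lit 158653743113) (.two (nat_lit 806354947) (nat_lit 11618222116) (.two (nat_lit 2097153) (nat_lit 1853882730) (.two (nat_lit 1048576) (nat_lit 35653279) (.one (nat_lit 1377831366) .nil)))),
   .two (nat_lit 37748740) (nat_lit 2424307722) (.two (nat_lit 4194306) (nat_lit 109051998) (.two (nat_lit 4194305) (nat_lit 10336862711) (.two (nat_lit 8388608) (nat_lit 158079125242) (.one (nat_lit 158079126624) .nil)))),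
   .two (nat_lit 11543773188) (nat_lit 28087156744) (.two (nat_lit 721420290) (nat_lit 11543773363) (.two (nat_lit 16777216) (nat_lit 4027581214) (.one (nat_lit 1051809) .nil))),
   .two (nat_lit 50331652) (nat_lit 4030726154) (.two (nat_lit 50331651) (nat_lit 2956984378) (.two (nat_lit 4194305) (nat_lit 2969567498) (.two (nat_lit 1048576) (nat_lit 16779035) (.one (nat_lit 739248274) .nil)))),
   .two (nat_lit 8388612) (nat_lit 46474985500) (.two (nat_lit 11479810051) (nat_lit 10437525557) (.two (nat_lit 156365750273) (nat_lit 166203490488) (.two (nat_lit 8388608) (nat_lit 19128124630) (.one (nat_lit 2100386) .nil)))),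
   .two (nat_lit 4613734404) (nat_lit 339738703) (.two (nat_lit 156364701697) (nat_lit 156535619878) (.two (nat_lit 1048576) (nat_lit 156535620311) (.one (nat_lit 1749027964) .nil))),
   .two (nat_lit 9766436868) (nat_lit 4601151496) (.two (nat_lit 4194306) (nat_lit 10001317936) (.two (nat_lit 4194305) (nat_lit 28791800593) (.one (nat_lit 166197201118) .nil))),
   .two (nat_lit 272629764) (nat_lit 3558866953) (.two (nat_lit 2889875459) (nat_lit 3558866980) (.two (nat_lit 37748737) (nat_lit 874512697) (.two (nat_lit 4194304) (nat_lit 2098518) (.one (nat_lit 37249616117) .nil)))),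
   .two (nat_lit 4194308) (nat_lit 639631368) (.two (nat_lit 4194306) (nat_lit 873463866) (.two (nat_lit 2097153) (nat_lit 157038936460) (.two (nat_lit 1048576) (nat_lit 174755676601) (.one (nat_lit 2100387) .nil)))),
   .two (nat_lit 9948889092) (nat_lit 2350907459) (.two (nat_lit 2097153) (nat_lit 9982443826) (.two (nat_lit 1048576) (nat_lit 874513152) (.one (nat_lit 1210059914) .nil))),
   .two (nat_lit 203423748) (nat_lit 1786773552) (.two (nat_lit 2097153) (nat_lit 185027526970) (.two (nat_lit 2097152) (nat_lit 10913580731) (.one (nat_lit 8391144) .nil))),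
   .two (nat_lit 2887778308) (nat_lit 10343153672) (.two (nat_lit 270532611) (nat_lit 3464495146) (.two (nat_lit 2097153) (nat_lit 12155093301) (.two (nat_lit 1048576) (nat_lit 1384121667) (.one (nat_lit 46473939297) .nil)))),
   .two (nat_lit 639631364) (nat_lit 157038936081) (.two (nat_lit 10370416643) (nat_lit 239075387) (.two (nat_lit 4194305) (nat_lit 1377829049) (.two (nat_lit 16777216) (nat_lit 9766439365) .nil))),
   .two (nat_lit 20644364294) (nat_lit 1343225864) (.two (nat_lit 75497475) (nat_lit 839909430) (.two (nat_lit 16777217) (nat_lit 11517559079) (.two (nat_lit 16777216) (nat_lit 156472705755) (.one (nat_lit 8391847) .nil)))),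
   .two (nat_lit 754974726) (nat_lit 2954887192) (.two (nat_lit 50331649) (nat_lit 47582281796) (.two (nat_lit 16777216) (nat_lit 166230753973) (.one (nat_lit 2887780689) .nil))),
   .two (nat_lit 11543773188) (nat_lit 165526110216) (.two (nat_lit 11476664322) (nat_lit 159217877019) (.two (nat_lit 605028353) (nat_lit 2988441668) (.two (nat_lit 2097152) (nat_lit 1050397) (.one (nat_lit 11007953231) .nil)))),
   .two (nat_lit 8388612) (nat_lit 3557818379) (.two (nat_lit 8388610) (nat_lit 11610882098) (.two (nat_lit 2097153) (nat_lit 156968681817) (.two (nat_lit 2097152) (nat_lit 1050398) (.one (nat_lit 606079235) .nil)))),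
   .two (nat_lit 9940500484) (nat_lit 46978301960) (.two (nat_lit 3525312515) (nat_lit 13228834864) (.two (nat_lit 2097153) (nat_lit 19100860857) (.one (nat_lit 37253809712) .nil))),
   .two (nat_lit 639631364) (nat_lit 47555018776) (.two (nat_lit 2097153) (nat_lit 19134415569) (.one (nat_lit 8391849) .nil)),
   .two (nat_lit 721420292) (nat_lit 28758245426) (.two (nat_lit 4194305) (nat_lit 20719862068) (.two (nat_lit 4194304) (nat_lit 185035916054) (.one (nat_lit 157051521501) .nil))),
   .two (nat_lit 11543773188) (nat_lit 12150898698) (.two (nat_lit 705691650) (nat_lit 1749024853) (.two (nat_lit 34603009) (nat_lit 21814575417) (.two (nat_lit 1048576) (nat_lit 4195674) (.one (nat_lit 19026413866) .nil)))),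
   .two (nat_lit 1358954500) (nat_lit 166129041416) (.two (nat_lit 721420291) (nat_lit 165532401708) (.two (nat_lit 8388609) (nat_lit 158091706678) (.two (nat_lit 1048576) (nat_lit 185027527949) (.one (nat_lit 3531606276) .nil)))),
   .two (nat_lit 68157444) (nat_lit 174753579023) (.two (nat_lit 605028355) (nat_lit 184987680880) (.two (nat_lit 9766436865) (nat_lit 28690088236) (.two (nat_lit 4194304) (nat_lit 10436479267) .nil))),
   .two (nat_lit 705691652) (nat_lit 13195280392) (.two (nat_lit 2954887171) (nat_lit 158176641113) (.two (nat_lit 2097153) (nat_lit 20637024626) (.two (nat_lit 2097152) (nat_lit 780141701) (.one (nat_lit 9967765932) .nil)))),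
   .two (nat_lit 176160772) (nat_lit 2923429915) (.two (nat_lit 156372041729) (nat_lit 156535620074) (.two (nat_lit 8388608) (nat_lit 4196127) (.one (nat_lit 11010050516) .nil))),
   .two (nat_lit 1779433476) (nat_lit 10439622666) (.two (nat_lit 1913651203) (nat_lit 156569174052) (.two (nat_lit 9765388289) (nat_lit 1413480769) (.two (nat_lit 1048576) (nat_lit 4196128) (.one (nat_lit 1051819) .nil)))),
   .two (nat_lit 4605345796) (nat_lit 10506731533) (.two (nat_lit 8388610) (nat_lit 184989777974) (.two (nat_lit 9768534017) (nat_lit 343933107) (.two (nat_lit 4194304) (nat_lit 184423548459) .nil))),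
   .two (nat_lit 721420292) (nat_lit 639631375) (.two (nat_lit 50331651) (nat_lit 158177689653) (.two (nat_lit 620756993) (nat_lit 203424042) (.two (nat_lit 16777216) (nat_lit 2098523) (.one (nat_lit 46523222343) .nil)))),
   .two (nat_lit 8388612) (nat_lit 183845781514) (.two (nat_lit 176160770) (nat_lit 183845781557) (.two (nat_lit 41943041) (nat_lit 1048984) (.two (nat_lit 8388608) (nat_lit 1050401) (.one (nat_lit 1051820) .nil)))),
   .two (nat_lit 50331652) (nat_lit 19532873736) (.two (nat_lit 3525312515) (nat_lit 37249613877) (.two (nat_lit 2097153) (nat_lit 47596962529) (.one (nat_lit 16780461) .nil))),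
   .two (nat_lit 713031684) (nat_lit 156968681482) (.two (nat_lit 713031682) (nat_lit 156968681510) (.two (nat_lit 16777217) (nat_lit 10947133625) (.two (nat_lit 1048576) (nat_lit 1216349313) (.one (nat_lit 8391854) .nil)))),
   .two (nat_lit 12147752966) (nat_lit 158144135176) (.two (nat_lit 12047089667) (nat_lit 20738736170) (.two (nat_lit 605028353) (nat_lit 1746929183) .nil)),
   .two (nat_lit 8388612) (nat_lit 10537140284) (.two (nat_lit 2097153) (nat_lit 10436477199) (.two (nat_lit 1048576) (nat_lit 2098978) (.one (nat_lit 606079235) .nil))),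
   .two (nat_lit 2969567236) (nat_lit 166197198860) (.two (nat_lit 2097155) (nat_lit 16777253) (.two (nat_lit 34603009) (nat_lit 166144770809) (.one (nat_lit 1051823) .nil))),
   .two (nat_lit 11479810052) (nat_lit 183853121544) (.two (nat_lit 809500675) (nat_lit 13195280425) (.two (nat_lit 37748737) (nat_lit 156539814643) (.one (nat_lit 1417677269) .nil))),
   .two (nat_lit 41943044) (nat_lit 47548727364) (.two (nat_lit 1048576) (nat_lit 157036839635) (.one (nat_lit 2100400) .nil)),
   .two (nat_lit 4605345796) (nat_lit 28693233672) (.two (nat_lit 1916796931) (nat_lit 1753219108) (.two (nat_lit 9768534017) (nat_lit 19100860743) (.two (nat_lit 4194304) (nat_lit 75498195) (.one (nat_lit 8391857) .nil)))),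
   .two (nat_lit 4194308) (nat_lit 159224168456) (.two (nat_lit 4194306) (nat_lit 1913651259) (.two (nat_lit 8388609) (nat_lit 28793897286) (.two (nat_lit 4194304) (nat_lit 8390436) (.one (nat_lit 4197554) .nil)))),
   .two (nat_lit 270532614) (nat_lit 9768534024) (.two (nat_lit 270532611) (nat_lit 2889875482) (.two (nat_lit 2097153) (nat_lit 2987393376) (.two (nat_lit 2097152) (nat_lit 21814577623) .nil))),
   .two (nat_lit 3527409668) (nat_lit 10370416648) (.two (nat_lit 46409973763) (nat_lit 19530776632) (.two (nat_lit 4194305) (nat_lit 20705182000) (.two (nat_lit 16777216) (nat_lit 874514791) .nil))),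
   .two (nat_lit 169869316) (nat_lit 19599982637) (.two (nat_lit 2097153) (nat_lit 1212154138) (.two (nat_lit 1048576) (nat_lit 4195676) (.one (nat_lit 11578378593) .nil))),
   .two (nat_lit 37748740) (nat_lit 174752530447) (.two (nat_lit 708837379) (nat_lit 47547678832) (.two (nat_lit 606076929) (nat_lit 2987393376) (.two (nat_lit 1048576) (nat_lit 775947027) (.one (nat_lit 4197099) .nil)))),
   .two (nat_lit 612368388) (nat_lit 3524263947) (.two (nat_lit 9765388291) (nat_lit 46510637081) (.two (nat_lit 8388609) (nat_lit 20640170379) (.two (nat_lit 4194304) (nat_lit 4631561539) (.one (nat_lit 235931998) .nil)))),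
   .two (nat_lit 4601151492) (nat_lit 47555018760) (.two (nat_lit 176160770) (nat_lit 2923429915) (.two (nat_lit 8388609) (nat_lit 104858358) (.one (nat_lit 183916038366) .nil))),
   .two (nat_lit 713031684) (nat_lit 3458203656) (.two (nat_lit 612368387) (nat_lit 159251431699) (.two (nat_lit 2097152) (nat_lit 156573369513) (.one (nat_lit 8391861) .nil))),
   .two (nat_lit 12050235396) (nat_lit 28086108168) (.two (nat_lit 184989777923) (nat_lit 10503585841) (.two (nat_lit 606076929) (nat_lit 101712166) (.two (nat_lit 1048576) (nat_lit 71304409) (.one (nat_lit 1051830) .nil)))),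
   .two (nat_lit 156372041733) (nat_lit 773849139) (.two (nat_lit 612368385) (nat_lit 37314626287) (.one (nat_lit 2988443987) .nil)),
   .two (nat_lit 174686470150) (nat_lit 10436476945) (.two (nat_lit 47548727299) (nat_lit 174685421627) (.two (nat_lit 8388609) (nat_lit 1745879480) (.one (nat_lit 9967765742) .nil))),
   .two (nat_lit 8388612) (nat_lit 1846542453) (.two (nat_lit 41943041) (nat_lit 46473938214) (.one (nat_lit 2420114989) .nil)),
   .two (nat_lit 8388612) (nat_lit 843055172) (.two (nat_lit 8388608) (nat_lit 3024094938) (.one (nat_lit 4197559) .nil)),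
   .two (nat_lit 50331652) (nat_lit 9934209032) (.two (nat_lit 16777218) (nat_lit 2418016302) (.two (nat_lit 16777217) (nat_lit 9967763524) (.two (nat_lit 16777216) (nat_lit 156365751082) (.one (nat_lit 2100408) .nil)))),
   .two (nat_lit 3464495108) (nat_lit 1847590922) (.two (nat_lit 10504634371) (nat_lit 47555018796) (.two (nat_lit 9766436865) (nat_lit 159224168736) (.two (nat_lit 2097152) (nat_lit 3464497409) .nil))),
   .two (nat_lit 4605345796) (nat_lit 809500684) (.two (nat_lit 174755676163) (nat_lit 4605345818) (.two (nat_lit 620756993) (nat_lit 10913579356) (.two (nat_lit 16777216) (nat_lit 8389984) (.one (nat_lit 8391866) .nil)))),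
   .two (nat_lit 2889875460) (nat_lit 135266314) (.two (nat_lit 2889875458) (nat_lit 11577327660) (.two (nat_lit 9768534017) (nat_lit 806356299) (.one (nat_lit 174755678419) .nil))),
   .two (nat_lit 205520900) (nat_lit 4605345816) (.two (nat_lit 4194305) (nat_lit 4605345860) (.two (nat_lit 4194304) (nat_lit 41943777) (.one (nat_lit 8391867) .nil))),
   .two (nat_lit 2889875460) (nat_lit 9766436872) (.two (nat_lit 272629763) (nat_lit 773849135) (.two (nat_lit 2097153) (nat_lit 183949591301) (.one (nat_lit 2100412) .nil))),
   .two (nat_lit 8388612) (nat_lit 159266111500) (.two (nat_lit 620756995) (nat_lit 10947133749) (.two (nat_lit 2097152) (nat_lit 8390437) (.one (nat_lit 807405952) .nil))),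
   .two (nat_lit 705691652) (nat_lit 18928893962) (.two (nat_lit 270532611) (nat_lit 18928893990) (.two (nat_lit 4194305) (nat_lit 183947493562) (.two (nat_lit 1048576) (nat_lit 47584379630) (.one (nat_lit 1051837) .nil)))),
   .two (nat_lit 809500676) (nat_lit 2969567258) (.two (nat_lit 16777217) (nat_lit 4194713) (.two (nat_lit 16777216) (nat_lit 4196134) (.one (nat_lit 1795165074) .nil))),
   .two (nat_lit 8388612) (nat_lit 166132187149) (.two (nat_lit 8388610) (nat_lit 166132187163) (.two (nat_lit 4194305) (nat_lit 20644364555) (.two (nat_lit 16777216) (nat_lit 21781021470) (.one (nat_lit 4197566) .nil)))),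
   .two (nat_lit 1947205637) (nat_lit 9867100168) (.two (nat_lit 10504634371) (nat_lit 9768534043) (.two (nat_lit 9765388289) (nat_lit 10504634757) (.two (nat_lit 1048576) (nat_lit 10370417080) (.one (nat_lit 4196842) .nil)))),
   .two (nat_lit 8388612) (nat_lit 46489665593) (.two (nat_lit 16777217) (nat_lit 13221495991) (.one (nat_lit 1426065742) .nil)),
   .two (nat_lit 612368388) (nat_lit 2316304443) (.two (nat_lit 16777217) (nat_lit 12617515522) (.two (nat_lit 16777216) (nat_lit 8390439) (.one (nat_lit 2936015080) .nil))),
   .two (nat_lit 713031684) (nat_lit 236978203) (.two (nat_lit 41943041) (nat_lit 673185972) (.two (nat_lit 8388608) (nat_lit 673186489) (.one (nat_lit 176163035) .nil))),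
   .two (nat_lit 184549380) (nat_lit 4605345807) (.two (nat_lit 46414168066) (nat_lit 50331716) (.two (nat_lit 8388608) (nat_lit 721420981) (.one (nat_lit 16780479) .nil))),
   .two (nat_lit 2889875460) (nat_lit 11551113227) (.two (nat_lit 272629763) (nat_lit 183853121653) (.two (nat_lit 4194305) (nat_lit 2323644762) (.two (nat_lit 1048576) (nat_lit 3460301974) (.one (nat_lit 37751616) .nil)))),
   .two (nat_lit 8388612) (nat_lit 772800532) (.two (nat_lit 2954887171) (nat_lit 183912890443) (.two (nat_lit 2097153) (nat_lit 12147753235) (.two (nat_lit 2097152) (nat_lit 12147753656) (.one (nat_lit 19537071206) .nil)))),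
   .two (nat_lit 606076932) (nat_lit 174752530447) (.two (nat_lit 270532611) (nat_lit 183949590553) (.two (nat_lit 9765388289) (nat_lit 11479810227) (.two (nat_lit 1048576) (nat_lit 4195682) (.one (nat_lit 4197570) .nil)))),
   .two (nat_lit 2889875460) (nat_lit 9766436872) (.two (nat_lit 2887778306) (nat_lit 156472705071) (.two (nat_lit 2097153) (nat_lit 10003415811) (.one (nat_lit 2100129) .nil))),
   .two (nat_lit 606076932) (nat_lit 28757196808) (.two (nat_lit 4194306) (nat_lit 19127074879) (.two (nat_lit 2097153) (nat_lit 159253529809) (.one (nat_lit 46510639282) .nil))),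
   .two (nat_lit 4194308) (nat_lit 11007950858) (.two (nat_lit 18928893955) (nat_lit 46474985664) (.two (nat_lit 4194305) (nat_lit 46407877129) (.two (nat_lit 4194304) (nat_lit 2098988) (.one (nat_lit 4631562461) .nil)))),
   .two (nat_lit 176160772) (nat_lit 9948889096) (.two (nat_lit 8388611) (nat_lit 9982443585) (.two (nat_lit 16777217) (nat_lit 10007609612) (.two (nat_lit 16777216) (nat_lit 8389987) (.one (nat_lit 11492394558) .nil)))),
   .two (nat_lit 184986632196) (nat_lit 19027460105) (.two (nat_lit 705691650) (nat_lit 37247516725) (.two (nat_lit 605028353) (nat_lit 673186060) (.two (nat_lit 1048576) (nat_lit 183846831400) (.one (nat_lit 19128124956) .nil)))),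
   .two (nat_lit 739246084) (nat_lit 165526110216) (.two (nat_lit 8388611) (nat_lit 47548727364) (.two (nat_lit 8388608) (nat_lit 9934209761) (.one (nat_lit 174753582215) .nil))),
   .two (nat_lit 713031684) (nat_lit 21207449608) (.two (nat_lit 34603011) (nat_lit 10007609371) (.two (nat_lit 2097153) (nat_lit 28764537224) (.two (nat_lit 8388608) (nat_lit 101714408) .nil))),
   .two (nat_lit 10913579014) (nat_lit 13224640539) (.two (nat_lit 8388609) (nat_lit 165528208093) (.one (nat_lit 9802090769) .nil)),
   .two (nat_lit 16777221) (nat_lit 166130089992) (.two (nat_lit 2969567235) (nat_lit 174686470323) (.two (nat_lit 2097152) (nat_lit 1862271774) (.one (nat_lit 16780483) .nil))),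
   .two (nat_lit 8388612) (nat_lit 71303196) (.two (nat_lit 8388610) (nat_lit 3024093524) (.two (nat_lit 4194304) (nat_lit 2323645139) (.one (nat_lit 3560967229) .nil))),
   .two (nat_lit 1291845636) (nat_lit 19096666168) (.two (nat_lit 37748737) (nat_lit 165540790680) (.two (nat_lit 4194304) (nat_lit 165540792097) (.one (nat_lit 4197572) .nil))),
   .two (nat_lit 75497476) (nat_lit 2953838604) (.two (nat_lit 713031682) (nat_lit 166229704769) (.two (nat_lit 605028353) (nat_lit 1350566069) (.two (nat_lit 1048576) (nat_lit 2994734398) (.one (nat_lit 8391522) .nil)))),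
   .two (nat_lit 2961178628) (nat_lit 1749024778) (.two (nat_lit 209715203) (nat_lit 876609586) (.two (nat_lit 8388609) (nat_lit 641728818) (.two (nat_lit 8388608) (nat_lit 4196144) (.one (nat_lit 156364704198) .nil)))),
   .two (nat_lit 713031684) (nat_lit 269484044) (.two (nat_lit 713031682) (nat_lit 2886729779) (.two (nat_lit 156364701697) (nat_lit 13195280452) (.two (nat_lit 1048576) (nat_lit 8390449) (.one (nat_lit 11610883632) .nil)))),
   .two (nat_lit 2954887172) (nat_lit 11543773236) (.two (nat_lit 2097153) (nat_lit 37246468369) (.two (nat_lit 2097152) (nat_lit 2416968375) (.one (nat_lit 21811432491) .nil))),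
   .two (nat_lit 1277165572) (nat_lit 318767122) (.two (nat_lit 184549379) (nat_lit 183912890427) (.two (nat_lit 16777217) (nat_lit 47582282087) (.two (nat_lit 1048576) (nat_lit 16778596) (.one (nat_lit 46422559557) .nil)))),
   .two (nat_lit 641728516) (nat_lit 46474985542) (.two (nat_lit 612368385) (nat_lit 10001319088) (.one (nat_lit 2100421) .nil)),
   .two (nat_lit 11479810052) (nat_lit 673185802) (.two (nat_lit 9768534019) (nat_lit 47582282013) (.two (nat_lit 4194304) (nat_lit 47582282429) (.one (nat_lit 156569176324) .nil))),
   .two (nat_lit 2902458374) (nat_lit 28093448219) (.two (nat_lit 16777217) (nat_lit 1753219251) (.two (nat_lit 8388608) (nat_lit 10955523401) (.one (nat_lit 47596964275) .nil))),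
   .two (nat_lit 135266309) (nat_lit 639631368) (.two (nat_lit 28757196803) (nat_lit 166230753324) (.two (nat_lit 9766436865) (nat_lit 2987394238) (.one (nat_lit 184417257672) .nil))),
   .two (nat_lit 184416206852) (nat_lit 1358954509) (.two (nat_lit 1358954499) (nat_lit 9866051636) (.two (nat_lit 34603009) (nat_lit 19109249208) (.two (nat_lit 4194304) (nat_lit 19529728744) (.one (nat_lit 1051847) .nil)))),
   .two (nat_lit 1277165572) (nat_lit 166132187144) (.two (nat_lit 9934209027) (nat_lit 10338959426) (.two (nat_lit 9766436865) (nat_lit 10439623937) (.one (nat_lit 183848928805) .nil))),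
   .two (nat_lit 9781116933) (nat_lit 183916036115) (.two (nat_lit 9948889091) (nat_lit 11479810104) (.two (nat_lit 37748737) (nat_lit 11525947575) (.two (nat_lit 16777216) (nat_lit 165528208549) (.one (nat_lit 150997386) .nil)))),
   .two (nat_lit 285212676) (nat_lit 159217877000) (.two (nat_lit 169869314) (nat_lit 822083866) (.two (nat_lit 2097152) (nat_lit 158091707539) (.one (nat_lit 2887781130) .nil))),
   .two (nat_lit 183845781508) (nat_lit 20644364331) (.two (nat_lit 2097153) (nat_lit 156472705539) (.two (nat_lit 2097152) (nat_lit 2961180804) .nil)),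
   .two (nat_lit 9802088453) (nat_lit 10370416648) (.two (nat_lit 157038936067) (nat_lit 12115247152) (.two (nat_lit 620756993) (nat_lit 184417255719) (.two (nat_lit 16777216) (nat_lit 174686472468) .nil))),
   .two (nat_lit 16777222) (nat_lit 21208498184) (.two (nat_lit 16777219) (nat_lit 1310720040) (.two (nat_lit 16777217) (nat_lit 9799991685) (.two (nat_lit 16777216) (nat_lit 270533349) (.one (nat_lit 2100426) .nil)))),
   .two (nat_lit 606076932) (nat_lit 880803876) (.two (nat_lit 2097153) (nat_lit 1954545977) (.two (nat_lit 4194304) (nat_lit 46508540641) (.one (nat_lit 2099691) .nil))),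
   .two (nat_lit 218103812) (nat_lit 11007950858) (.two (nat_lit 3458203651) (nat_lit 218103833) (.two (nat_lit 2097153) (nat_lit 218104076) (.two (nat_lit 2097152) (nat_lit 16778597) (.one (nat_lit 16780491) .nil)))),
   .two (nat_lit 2889875460) (nat_lit 10385096712) (.two (nat_lit 50331651) (nat_lit 4030726488) (.two (nat_lit 8388608) (nat_lit 4195686) (.one (nat_lit 8391149) .nil))),
   .two (nat_lit 11479810052) (nat_lit 158176641033) (.two (nat_lit 11479810050) (nat_lit 158176641060) (.two (nat_lit 605028353) (nat_lit 1346371978) (.two (nat_lit 1048576) (nat_lit 46409974535) (.one (nat_lit 28693236013) .nil)))),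
   .two (nat_lit 2887778308) (nat_lit 1178599432) (.two (nat_lit 69206019) (nat_lit 156968681528) (.two (nat_lit 34603009) (nat_lit 183846830398) (.two (nat_lit 4194304) (nat_lit 2098535) (.one (nat_lit 2099694) .nil)))),
   .two (nat_lit 739246084) (nat_lit 12054429723) (.two (nat_lit 34603009) (nat_lit 11551113397) (.two (nat_lit 1048576) (nat_lit 310379838) (.one (nat_lit 8391885) .nil))),
   .two (nat_lit 343932933) (nat_lit 21777874952) (.two (nat_lit 4605345795) (nat_lit 183946444866) (.two (nat_lit 156372041729) (nat_lit 157035791048) (.one (nat_lit 1051854) .nil))),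
   .two (nat_lit 10370416644) (nat_lit 156468510730) (.two (nat_lit 708837379) (nat_lit 9906946075) (.two (nat_lit 4194305) (nat_lit 1954546058) (.two (nat_lit 8388608) (nat_lit 19530777301) (.one (nat_lit 174692764102) .nil)))),
   .two (nat_lit 705691652) (nat_lit 1212153866) (.two (nat_lit 806354947) (nat_lit 1212153894) (.two (nat_lit 2097153) (nat_lit 166232850794) (.two (nat_lit 1048576) (nat_lit 4196148) (.one (nat_lit 1051855) .nil)))),
   .two (nat_lit 16777220) (nat_lit 10506731528) (.two (nat_lit 16777218) (nat_lit 1782579381) (.two (nat_lit 16777216) (nat_lit 4195688) (.one (nat_lit 4197585) .nil))),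
   .two (nat_lit 2889875460) (nat_lit 28758245384) (.two (nat_lit 1847590915) (nat_lit 166132187205) (.two (nat_lit 620756993) (nat_lit 4632609103) (.two (nat_lit 16777216) (nat_lit 4632609515) (.one (nat_lit 2100434) .nil)))),
   .two (nat_lit 158144135172) (nat_lit 18933088269) (.two (nat_lit 1277165570) (nat_lit 4638900312) (.two (nat_lit 8388609) (nat_lit 1847592188) (.one (nat_lit 2100435) .nil))),
   .two (nat_lit 8388612) (nat_lit 184986632216) (.two (nat_lit 8388609) (nat_lit 11577327684) (.two (nat_lit 8388608) (nat_lit 1050423) (.one (nat_lit 1051860) .nil))),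
   .two (nat_lit 705691652) (nat_lit 721420313) (.two (nat_lit 605028353) (nat_lit 1344275152) (.one (nat_lit 1051861) .nil)),
   .two (nat_lit 41943044) (nat_lit 641728568) (.two (nat_lit 4194305) (nat_lit 183912890672) (.two (nat_lit 4194304) (nat_lit 8390456) (.one (nat_lit 3527411844) .nil))),
   .two (nat_lit 184549380) (nat_lit 46508539992) (.two (nat_lit 2097153) (nat_lit 117441209) (.one (nat_lit 166130093087) .nil)),
   .two (nat_lit 2961178628) (nat_lit 203423752) (.two (nat_lit 270532611) (nat_lit 3028287524) (.two (nat_lit 2097153) (nat_lit 158150426952) (.two (nat_lit 1048576) (nat_lit 8389993) (.one (nat_lit 2920286422) .nil)))),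
   .two (nat_lit 2902458372) (nat_lit 174686470154) (.two (nat_lit 10336862211) (nat_lit 2432696372) (.two (nat_lit 606076929) (nat_lit 185002361580) (.one (nat_lit 16780502) .nil))),
   .two (nat_lit 4605345796) (nat_lit 10907287572) (.two (nat_lit 822083587) (nat_lit 20738736184) (.two (nat_lit 37748737) (nat_lit 166130090271) (.two (nat_lit 4194304) (nat_lit 1384122099) (.one (nat_lit 183928621808) .nil)))),
   .two (nat_lit 2889875460) (nat_lit 10385096743) (.two (nat_lit 50331649) (nat_lit 10003415794) (.one (nat_lit 11010050329) .nil)),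
   .two (nat_lit 11543773188) (nat_lit 1291845640) (.two (nat_lit 9948889091) (nat_lit 11543773208) (.two (nat_lit 620756993) (nat_lit 11476665130) (.one (nat_lit 46977255553) .nil))),
   .two (nat_lit 75497476) (nat_lit 4599054357) (.two (nat_lit 2887778306) (nat_lit 11517558836) (.two (nat_lit 2097153) (nat_lit 343932996) (.two (nat_lit 2097152) (nat_lit 184423547632) (.one (nat_lit 8391895) .nil)))),
   .two (nat_lit 75497476) (nat_lit 876609546) (.two (nat_lit 158083317763) (nat_lit 28760342713) (.two (nat_lit 8388608) (nat_lit 339739363) (.one (nat_lit 19130223071) .nil))),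
   .two (nat_lit 19532873732) (nat_lit 168820788) (.two (nat_lit 34603009) (nat_lit 4647289202) (.two (nat_lit 4194304) (nat_lit 11593057057) (.one (nat_lit 11022633430) .nil))),
   .two (nat_lit 9940500484) (nat_lit 174752530442) (.two (nat_lit 1283457027) (nat_lit 705691696) (.two (nat_lit 8388609) (nat_lit 2416967988) (.two (nat_lit 16777216) (nat_lit 47588573624) (.one (nat_lit 8391151) .nil)))),
   .two (nat_lit 135266309) (nat_lit 1358954504) (.two (nat_lit 19596836867) (nat_lit 83886120) (.two (nat_lit 9765388289) (nat_lit 156380431106) (.one (nat_lit 16780505) .nil))),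
   .two (nat_lit 169869316) (nat_lit 4605345800) (.two (nat_lit 169869314) (nat_lit 310378533) (.two (nat_lit 41943041) (nat_lit 19596837044) (.two (nat_lit 2097152) (nat_lit 1049963) (.one (nat_lit 19100862660) .nil)))),
   .two (nat_lit 41943044) (nat_lit 21208498186) (.two (nat_lit 8388610) (nat_lit 158144135209) (.two (nat_lit 8388609) (nat_lit 20738736406) (.two (nat_lit 8388608) (nat_lit 158144136506) (.one (nat_lit 2100444) .nil)))),
   .two (nat_lit 184549380) (nat_lit 28757196808) (.two (nat_lit 16777219) (nat_lit 20704133146) (.two (nat_lit 620756993) (nat_lit 37313577028) (.two (nat_lit 16777216) (nat_lit 3020948255) (.one (nat_lit 1051869) .nil)))),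
   .two (nat_lit 1291845640) (nat_lit 3028287498) (.two (nat_lit 9940500484) (nat_lit 9948889115) (.two (nat_lit 176160770) (nat_lit 3472884010) (.two (nat_lit 8388609) (nat_lit 4195017) (.two (nat_lit 4194304) (nat_lit 10007611663) (.one (nat_lit 21210598714) .nil))))),
   .two (nat_lit 9881780232) (nat_lit 47555018760) (.two (nat_lit 47555018756) (nat_lit 9881780250) (.two (nat_lit 176160770) (nat_lit 1795162551) (.two (nat_lit 16777216) (nat_lit 12121541110) .nil))),
   .two (nat_lit 18928893960) (nat_lit 20644364330) (.two (nat_lit 10343153667) (nat_lit 19599983031) (.two (nat_lit 8388608) (nat_lit 47550826998) .nil)),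
   .two (nat_lit 721420296) (nat_lit 18933088299) (.two (nat_lit 4605345795) (nat_lit 11559502263) (.two (nat_lit 8388608) (nat_lit 158192372242) .nil)),
   .two (nat_lit 713031688) (nat_lit 12633243697) (.two (nat_lit 2902458370) (nat_lit 1417674931) (.two (nat_lit 16777217) (nat_lit 21785216531) (.one (nat_lit 183953788143) .nil))),
   .two (nat_lit 156367847432) (nat_lit 159224168475) (.two (nat_lit 10343153667) (nat_lit 46980399544) (.two (nat_lit 8388608) (nat_lit 46980399922) (.one (nat_lit 13228838114) .nil))),
   .two (nat_lit 285212680) (nat_lit 156468510762) (.two (nat_lit 16777218) (nat_lit 8388902) (.two (nat_lit 16777217) (nat_lit 75499045) (.one (nat_lit 608177376) .nil))),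
   .two (nat_lit 654311432) (nat_lit 183853121577) (.two (nat_lit 10385096707) (nat_lit 18933088436) (.two (nat_lit 16777217) (nat_lit 156372042545) (.one (nat_lit 1753221649) .nil))),
   .two (nat_lit 8388616) (nat_lit 10385096712) (.two (nat_lit 10385096708) (nat_lit 8388632) (.two (nat_lit 654311427) (nat_lit 10007609412) (.two (nat_lit 620756993) (nat_lit 3028288186) (.two (nat_lit 16777216) (nat_lit 12121540759) (.one (nat_lit 612371853) .nil))))),
   .two (nat_lit 9768534024) (nat_lit 11626610739) (.two (nat_lit 1291845634) (nat_lit 28089254206) (.two (nat_lit 4194305) (nat_lit 9806284327) (.one (nat_lit 184423550197) .nil))),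
   .two (nat_lit 176160776) (nat_lit 2969567256) (.two (nat_lit 184549378) (nat_lit 47555018820) (.two (nat_lit 620756993) (nat_lit 37253808835) (.two (nat_lit 16777216) (nat_lit 1216350336) (.one (nat_lit 18941479416) .nil)))),
   .two (nat_lit 13195280394) (nat_lit 9799991306) (.two (nat_lit 46978301956) (nat_lit 183853121579) (.two (nat_lit 46407876610) (nat_lit 11551113397) (.two (nat_lit 156365750273) (nat_lit 21214790340) (.two (nat_lit 8388608) (nat_lit 2954889344) (.one (nat_lit 158653745657) .nil))))),
   .two (nat_lit 20644364297) (nat_lit 3003121674) (.two (nat_lit 75497476) (nat_lit 654311492) (.two (nat_lit 41943041) (nat_lit 1224738339) (.one (nat_lit 2894072318) .nil))),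
   .two (nat_lit 2969567240) (nat_lit 166130090010) (.two (nat_lit 16777219) (nat_lit 3464495434) (.two (nat_lit 41943041) (nat_lit 21793604312) (.two (nat_lit 2097152) (nat_lit 1753221632) .nil))),
   .two (nat_lit 157038936072) (nat_lit 3028287498) (.two (nat_lit 47555018756) (nat_lit 19532873769) (.two (nat_lit 3464495107) (nat_lit 166132187316) (.two (nat_lit 8388609) (nat_lit 166132187954) (.one (nat_lit 19033754846) .nil)))),
   .two (nat_lit 50331656) (nat_lit 28093448233) (.two (nat_lit 28093448195) (nat_lit 83886368) (.two (nat_lit 41943041) (nat_lit 1358955193) (.two (nat_lit 8388608) (nat_lit 20652754465) (.one (nat_lit 16780700) .nil)))),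
   .two (nat_lit 2902458376) (nat_lit 166203490315) (.two (nat_lit 276824068) (nat_lit 1191182363) (.two (nat_lit 285212675) (nat_lit 1182794048) (.two (nat_lit 16777217) (nat_lit 3565159148) (.two (nat_lit 16777216) (nat_lit 184986633768) (.one (nat_lit 47596965148) .nil))))),
   .two (nat_lit 12054429704) (nat_lit 28760342543) (.two (nat_lit 285212676) (nat_lit 1384120388) (.two (nat_lit 16777217) (nat_lit 9873392373) (.two (nat_lit 4194304) (nat_lit 9873393217) (.one (nat_lit 2889878758) .nil)))),
   .two (nat_lit 12129927178) (nat_lit 8388629) (.two (nat_lit 8388612) (nat_lit 285212696) (.two (nat_lit 16777218) (nat_lit 4605345860) (.two (nat_lit 16777217) (nat_lit 713032414) (.two (nat_lit 16777216) (nat_lit 8390951) (.one (nat_lit 2357202169) .nil))))),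
   .two (nat_lit 285212680) (nat_lit 28093448200) (.two (nat_lit 4613734404) (nat_lit 165532401704) (.two (nat_lit 20644364290) (nat_lit 158158815416) (.two (nat_lit 612368385) (nat_lit 9781117745) (.one (nat_lit 10351544843) .nil)))),
   .two (nat_lit 184993972232) (nat_lit 4043309067) (.two (nat_lit 721420292) (nat_lit 1753219140) (.two (nat_lit 41943041) (nat_lit 9814672070) (.two (nat_lit 16777216) (nat_lit 10544481827) (.one (nat_lit 10510928383) .nil)))),
   .two (nat_lit 184549384) (nat_lit 46414168072) (.two (nat_lit 46414168068) (nat_lit 19142803508) (.two (nat_lit 4605345795) (nat_lit 2969567411) (.two (nat_lit 8388609) (nat_lit 21793605163) (.one (nat_lit 1350568436) .nil)))),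
   .two (nat_lit 612368392) (nat_lit 9781116969) (.two (nat_lit 11492392962) (nat_lit 47555019192) (.two (nat_lit 16777216) (nat_lit 156573370886) .nil)),
   .two (nat_lit 176160776) (nat_lit 9781116968) (.two (nat_lit 1191182339) (nat_lit 47555019191) (.two (nat_lit 16777216) (nat_lit 1786776066) .nil)),
   .two (nat_lit 2969567240) (nat_lit 157036838920) (.two (nat_lit 157036838916) (nat_lit 218103835) (.two (nat_lit 19530776579) (nat_lit 654311604) (.two (nat_lit 2097153) (nat_lit 9781117630) (.two (nat_lit 2097152) (nat_lit 1862272545) (.one (nat_lit 1795165454) .nil))))),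
   .two (nat_lit 2969567240) (nat_lit 1948254235) (.two (nat_lit 713031682) (nat_lit 159266111556) (.two (nat_lit 37748737) (nat_lit 813695417) (.two (nat_lit 2097152) (nat_lit 809502249) (.one (nat_lit 10338962673) .nil)))),
   .two (nat_lit 285212680) (nat_lit 158144135194) (.two (nat_lit 1277165570) (nat_lit 822083972) (.two (nat_lit 16777217) (nat_lit 1847591730) (.one (nat_lit 2100637) .nil))),
   .two (nat_lit 183853121544) (nat_lit 166132187178) (.two (nat_lit 157038936067) (nat_lit 1753219512) (.two (nat_lit 4194304) (nat_lit 1753219890) (.one (nat_lit 10003417588) .nil))),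
   .two (nat_lit 21785214984) (nat_lit 1846542362) (.two (nat_lit 174752530435) (nat_lit 20644364566) (.two (nat_lit 9765388289) (nat_lit 1384121476) (.two (nat_lit 1048576) (nat_lit 8390952) (.one (nat_lit 1052062) .nil)))),
   .two (nat_lit 11492392968) (nat_lit 12117344324) (.two (nat_lit 9768534017) (nat_lit 1325400771) (.two (nat_lit 4194304) (nat_lit 157051520547) (.one (nat_lit 608176632) .nil))),
   .two (nat_lit 165532401672) (nat_lit 19142803468) (.two (nat_lit 9781116932) (nat_lit 12050235440) (.two (nat_lit 28760342531) (nat_lit 2969567512) (.two (nat_lit 50331649) (nat_lit 37253808877) (.two (nat_lit 4194304) (nat_lit 16779561) (.one (nat_lit 612371782) .nil))))),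
   .two (nat_lit 2969567240) (nat_lit 158083317768) (.two (nat_lit 2969567236) (nat_lit 9940500543) (.two (nat_lit 184549378) (nat_lit 9873391926) (.two (nat_lit 612368385) (nat_lit 13203669746) (.two (nat_lit 1048576) (nat_lit 9940502055) (.one (nat_lit 8392095) .nil))))),
   .two (nat_lit 2969567240) (nat_lit 10940841992) (.two (nat_lit 10940841988) (nat_lit 159266111556) (.two (nat_lit 9766436865) (nat_lit 16778464) (.two (nat_lit 2097152) (nat_lit 20753418490) (.one (nat_lit 28806483201) .nil)))),
   .two (nat_lit 3539992584) (nat_lit 10506731547) (.two (nat_lit 157038936067) (nat_lit 2365587837) (.two (nat_lit 9765388289) (nat_lit 174688567735) (.two (nat_lit 1048576) (nat_lit 708838941) (.one (nat_lit 10000271891) .nil)))),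
   .two (nat_lit 3539992584) (nat_lit 166132187144) (.two (nat_lit 158158815236) (nat_lit 166196150313) (.two (nat_lit 166132187138) (nat_lit 184986632527) (.two (nat_lit 9768534017) (nat_lit 184986632919) (.two (nat_lit 4194304) (nat_lit 1050922) (.one (nat_lit 1052064) .nil))))),
   .two (nat_lit 10385096712) (nat_lit 1216348172) (.two (nat_lit 9940500484) (nat_lit 1291845671) (.two (nat_lit 721420290) (nat_lit 9974054980) (.two (nat_lit 50331649) (nat_lit 876609977) (.two (nat_lit 4194304) (nat_lit 679479577) (.one (nat_lit 4196868) .nil))))),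
   .two (nat_lit 11492392968) (nat_lit 156971827208) (.two (nat_lit 156971827204) (nat_lit 165540790318) (.two (nat_lit 19599982595) (nat_lit 1325400382) (.two (nat_lit 9768534017) (nat_lit 11559502641) (.one (nat_lit 721423618) .nil)))),
   .two (nat_lit 117440520) (nat_lit 174752530459) (.two (nat_lit 11492392962) (nat_lit 21777875242) (.two (nat_lit 50331649) (nat_lit 1745879791) (.two (nat_lit 1048576) (nat_lit 18941479057) (.one (nat_lit 12047092997) .nil)))),
   .two (nat_lit 11492392968) (nat_lit 1846542344) (.two (nat_lit 12129927172) (nat_lit 11543773236) (.two (nat_lit 28757196803) (nat_lit 3472883897) (.two (nat_lit 9766436865) (nat_lit 9765389863) (.one (nat_lit 10436480293) .nil)))),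
   .two (nat_lit 1358954504) (nat_lit 47547678772) (.two (nat_lit 10503585795) (nat_lit 1291845910) (.two (nat_lit 8388609) (nat_lit 1291846330) (.two (nat_lit 1048576) (nat_lit 1962936454) (.one (nat_lit 28790754640) .nil)))),
   .two (nat_lit 117440520) (nat_lit 9969860620) (.two (nat_lit 11492392964) (nat_lit 184419352602) (.two (nat_lit 12117344259) (nat_lit 1325400249) (.two (nat_lit 37748737) (nat_lit 19042140867) (.two (nat_lit 4194304) (nat_lit 16779563) (.one (nat_lit 4197793) .nil))))),
   .two (nat_lit 2902458376) (nat_lit 46980399130) (.two (nat_lit 3527409667) (nat_lit 2902458547) (.two (nat_lit 4194305) (nat_lit 218104502) (.two (nat_lit 4194304) (nat_lit 13237224996) (.one (nat_lit 775949543) .nil)))),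
   .two (nat_lit 2969567240) (nat_lit 11614027788) (.two (nat_lit 3527409668) (nat_lit 4613734458) (.two (nat_lit 2889875458) (nat_lit 9814671752) (.two (nat_lit 4194305) (nat_lit 16778465) (.two (nat_lit 4194304) (nat_lit 16779564) (.one (nat_lit 19042143583) .nil))))),
   .two (nat_lit 9781116936) (nat_lit 19532873736) (.two (nat_lit 159232557060) (nat_lit 10510925925) (.two (nat_lit 166132187138) (nat_lit 889192773) (.two (nat_lit 50331649) (nat_lit 276824795) (.two (nat_lit 4194304) (nat_lit 156481095921) (.one (nat_lit 708840671) .nil))))),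
   .two (nat_lit 9948889096) (nat_lit 13191086088) (.two (nat_lit 809500676) (nat_lit 620757032) (.two (nat_lit 83886083) (nat_lit 46980399389) (.two (nat_lit 16777217) (nat_lit 9802090004) (.one (nat_lit 10506734922) .nil)))),
   .two (nat_lit 3525312520) (nat_lit 174759870472) (.two (nat_lit 713031684) (nat_lit 673185845) (.two (nat_lit 713031682) (nat_lit 1426063663) (.two (nat_lit 612368385) (nat_lit 9982443961) (.two (nat_lit 2097152) (nat_lit 185002363138) (.one (nat_lit 46474988924) .nil))))),
   .two (nat_lit 10385096712) (nat_lit 1746927673) (.two (nat_lit 721420290) (nat_lit 18933088435) (.two (nat_lit 41943041) (nat_lit 10351542988) (.two (nat_lit 8388608) (nat_lit 606079476) .nil))),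
   .two (nat_lit 11492392968) (nat_lit 158143086619) (.two (nat_lit 11492392962) (nat_lit 18925748405) (.two (nat_lit 50331649) (nat_lit 135267553) (.two (nat_lit 16777216) (nat_lit 336595155) (.one (nat_lit 13237226876) .nil)))),
   .two (nat_lit 1291845640) (nat_lit 13195280403) (.two (nat_lit 276824068) (nat_lit 654311492) (.two (nat_lit 8388609) (nat_lit 2365588251) (.two (nat_lit 1048576) (nat_lit 16779565) (.one (nat_lit 1786776062) .nil)))),
   .two (nat_lit 158075977736) (nat_lit 19599982600) (.two (nat_lit 4194308) (nat_lit 83886121) (.two (nat_lit 4194306) (nat_lit 11525947692) (.two (nat_lit 16777217) (nat_lit 158179787461) (.two (nat_lit 4194304) (nat_lit 1291847853) (.one (nat_lit 183928621572) .nil))))),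
   .two (nat_lit 3464495112) (nat_lit 19530776584) (.two (nat_lit 19530776580) (nat_lit 3464495130) (.two (nat_lit 157036838915) (nat_lit 10343154103) (.two (nat_lit 2097152) (nat_lit 1786775064) (.one (nat_lit 2894073247) .nil)))),
   .two (nat_lit 11559501832) (nat_lit 1182793774) (.two (nat_lit 721420290) (nat_lit 183953785150) (.two (nat_lit 50331649) (nat_lit 3024093926) (.two (nat_lit 4194304) (nat_lit 1350567463) (.one (nat_lit 4197794) .nil)))),
   .two (nat_lit 11492392968) (nat_lit 157035790351) (.two (nat_lit 4613734404) (nat_lit 183853121574) (.two (nat_lit 16777218) (nat_lit 12121538918) (.two (nat_lit 612368385) (nat_lit 12163482367) (.two (nat_lit 1048576) (nat_lit 352323870) (.one (nat_lit 705695037) .nil))))),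
   .two (nat_lit 11559501832) (nat_lit 184986632216) (.two (nat_lit 705691650) (nat_lit 50331716) (.two (nat_lit 605028353) (nat_lit 4043309763) (.two (nat_lit 1048576) (nat_lit 16779566) (.one (nat_lit 2886732280) .nil)))),
   .two (nat_lit 1358954504) (nat_lit 183853121544) (.two (nat_lit 1358954500) (nat_lit 183853121562) (.two (nat_lit 721420290) (nat_lit 813695365) (.two (nat_lit 41943041) (nat_lit 754975538) (.one (nat_lit 645925364) .nil)))),
   .two (nat_lit 754974728) (nat_lit 12047089672) (.two (nat_lit 12047089668) (nat_lit 11559501868) (.two (nat_lit 184986632195) (nat_lit 1358954784) (.two (nat_lit 34603009) (nat_lit 83886786) (.two (nat_lit 1048576) (nat_lit 159266113700) (.one (nat_lit 47581236461) .nil))))),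
   .two (nat_lit 183853121544) (nat_lit 166211878923) (.two (nat_lit 654311428) (nat_lit 11007950875) (.two (nat_lit 218103811) (nat_lit 156372042114) (.two (nat_lit 41943041) (nat_lit 183861510903) (.two (nat_lit 2097152) (nat_lit 11551114803) (.one (nat_lit 184993975580) .nil))))),
   .two (nat_lit 10343153672) (nat_lit 1962934284) (.two (nat_lit 47563407364) (nat_lit 3464495142) (.two (nat_lit 8388611) (nat_lit 47596961860) (.two (nat_lit 8388609) (nat_lit 1392509732) (.two (nat_lit 16777216) (nat_lit 772802728) (.one (nat_lit 1343228405) .nil))))),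
   .two (nat_lit 654311432) (nat_lit 158075977741) (.two (nat_lit 2902458372) (nat_lit 46980399130) (.two (nat_lit 605028355) (nat_lit 2969567300) (.two (nat_lit 4194305) (nat_lit 10015998689) (.two (nat_lit 1048576) (nat_lit 9768535598) (.one (nat_lit 157038939522) .nil))))),
   .two (nat_lit 9881780232) (nat_lit 10436476953) (.two (nat_lit 9765388291) (nat_lit 9948889156) (.two (nat_lit 8388609) (nat_lit 13237224219) (.two (nat_lit 1048576) (nat_lit 109053466) (.one (nat_lit 8392099) .nil)))),
   .two (nat_lit 1291845640) (nat_lit 10940841992) (.two (nat_lit 10940841988) (nat_lit 1291845658) (.two (nat_lit 166130089986) (nat_lit 1291845811) (.two (nat_lit 9766436865) (nat_lit 19109250626) (.one (nat_lit 2902461834) .nil)))),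
   .two (nat_lit 9881780232) (nat_lit 673185802) (.two (nat_lit 158158815236) (nat_lit 10907287593) (.two (nat_lit 46407876610) (nat_lit 156380430519) (.two (nat_lit 2097153) (nat_lit 1358955314) (.one (nat_lit 46992985380) .nil)))),
   .two (nat_lit 11559501832) (nat_lit 184986632244) (.two (nat_lit 1913651203) (nat_lit 1795162292) (.two (nat_lit 9765388289) (nat_lit 620758188) (.two (nat_lit 1048576) (nat_lit 10921969952) (.one (nat_lit 1779436839) .nil)))),
   .two (nat_lit 18928893960) (nat_lit 165532401729) (.two (nat_lit 1847590915) (nat_lit 272630095) (.two (nat_lit 606076929) (nat_lit 272630487) (.two (nat_lit 2097152) (nat_lit 205523174) (.one (nat_lit 20738739428) .nil)))),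
   .two (nat_lit 19599982600) (nat_lit 159266111500) (.two (nat_lit 12129927172) (nat_lit 4194415) (.two (nat_lit 171966467) (nat_lit 185035915332) (.two (nat_lit 4194305) (nat_lit 156548203203) (.two (nat_lit 1048576) (nat_lit 156567079428) .nil)))),
   .two (nat_lit 16777224) (nat_lit 184419352584) (.two (nat_lit 285212676) (nat_lit 10909384761) (.two (nat_lit 9781116931) (nat_lit 21814575457) (.two (nat_lit 37748737) (nat_lit 2332033818) (.two (nat_lit 2097152) (nat_lit 205522480) (.one (nat_lit 1780485403) .nil))))),
   .two (nat_lit 4613734408) (nat_lit 156372041736) (.two (nat_lit 16777220) (nat_lit 101711935) (.two (nat_lit 620756995) (nat_lit 10369368374) (.two (nat_lit 8388609) (nat_lit 9933160889) (.two (nat_lit 8388608) (nat_lit 156481095233) (.one (nat_lit 158183983609) .nil))))),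
   .two (nat_lit 654311432) (nat_lit 4028629018) (.two (nat_lit 11492392962) (nat_lit 1376780682) (.two (nat_lit 2097153) (nat_lit 165540790983) (.two (nat_lit 2097152) (nat_lit 2953840154) (.one (nat_lit 2100644) .nil)))),
   .two (nat_lit 184986632200) (nat_lit 9948889098) (.two (nat_lit 620756996) (nat_lit 772800556) (.two (nat_lit 83886083) (nat_lit 2316304564) (.two (nat_lit 16777217) (nat_lit 4631560924) (.two (nat_lit 16777216) (nat_lit 2316305202) (.one (nat_lit 16780709) .nil))))),
   .two (nat_lit 8388616) (nat_lit 1916796936) (.two (nat_lit 176160772) (nat_lit 159251431488) (.two (nat_lit 176160770) (nat_lit 1914700093) (.two (nat_lit 37748737) (nat_lit 46481278519) (.one (nat_lit 18928897363) .nil)))),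
   .two (nat_lit 16777224) (nat_lit 46477082636) (.two (nat_lit 285212676) (nat_lit 1849688112) (.two (nat_lit 184989777923) (nat_lit 620757172) (.two (nat_lit 37748737) (nat_lit 620757810) (.one (nat_lit 166130093287) .nil)))),
   .two (nat_lit 10519314440) (nat_lit 19530776584) (.two (nat_lit 21793603588) (nat_lit 11517558822) (.two (nat_lit 11484004355) (nat_lit 822083652) (.two (nat_lit 9766436865) (nat_lit 47596962570) (.two (nat_lit 4194304) (nat_lit 606079489) .nil)))),
   .two (nat_lit 813694984) (nat_lit 1178599432) (.two (nat_lit 1916796932) (nat_lit 158177689651) (.two (nat_lit 69206019) (nat_lit 10007609412) (.two (nat_lit 2097153) (nat_lit 1920991977) (.two (nat_lit 4194304) (nat_lit 4028630591) (.one (nat_lit 4196884) .nil))))),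
   .two (nat_lit 169869320) (nat_lit 822083620) (.two (nat_lit 169869314) (nat_lit 16777614) (.two (nat_lit 2097153) (nat_lit 1913651956) (.two (nat_lit 2097152) (nat_lit 1050788) (.one (nat_lit 10001321372) .nil)))),
   .two (nat_lit 8388616) (nat_lit 184416206858) (.two (nat_lit 1745879044) (nat_lit 3565158457) (.two (nat_lit 47555018755) (nat_lit 156968681816) (.two (nat_lit 8388609) (nat_lit 159216829182) (.two (nat_lit 2097152) (nat_lit 159224170046) (.one (nat_lit 8392102) .nil))))),
   .two (nat_lit 3460300808) (nat_lit 165526110216) (.two (nat_lit 158077026308) (nat_lit 68157506) (.two (nat_lit 10939793411) (nat_lit 9768534310) (.two (nat_lit 605028353) (nat_lit 809502245) (.one (nat_lit 1052071) .nil)))),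
   .two (nat_lit 10336862216) (nat_lit 4030726153) (.two (nat_lit 708837382) (nat_lit 620757019) (.two (nat_lit 34603011) (nat_lit 19545456822) (.two (nat_lit 2097153) (nat_lit 28806480635) (.two (nat_lit 2097152) (nat_lit 620759220) (.one (nat_lit 1052072) .nil))))),
   .two (nat_lit 4194312) (nat_lit 47555018761) (.two (nat_lit 4194308) (nat_lit 1176502313) (.two (nat_lit 4194306) (nat_lit 9766437252) (.two (nat_lit 2097153) (nat_lit 68158202) (.two (nat_lit 1048576) (nat_lit 156569176227) (.one (nat_lit 135269645) .nil))))),
   .two (nat_lit 3539992584) (nat_lit 75497491) (.two (nat_lit 8388612) (nat_lit 117440577) (.two (nat_lit 46422556675) (nat_lit 4605345860) (.two (nat_lit 16777217) (nat_lit 209715992) (.two (nat_lit 1048576) (nat_lit 8390959) (.one (nat_lit 1410337281) .nil))))),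
   .two (nat_lit 184549384) (nat_lit 20644364326) (.two (nat_lit 75497475) (nat_lit 2969567300) (.two (nat_lit 8388609) (nat_lit 9814672114) (.two (nat_lit 8388608) (nat_lit 16779568) (.one (nat_lit 9873395015) .nil)))),
   .two (nat_lit 41943048) (nat_lit 21777874952) (.two (nat_lit 46514831366) (nat_lit 37316722742) (.two (nat_lit 3464495107) (nat_lit 47547679073) (.two (nat_lit 9768534017) (nat_lit 109052672) (.two (nat_lit 4194304) (nat_lit 10343155262) (.one (nat_lit 19599986002) .nil))))),
   .two (nat_lit 9768534024) (nat_lit 9948889096) (.two (nat_lit 184549380) (nat_lit 156569174053) (.two (nat_lit 16777219) (nat_lit 10506731798) (.two (nat_lit 16777217) (nat_lit 10506732218) (.two (nat_lit 16777216) (nat_lit 4196657) (.one (nat_lit 19042143587) .nil))))),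
   .two (nat_lit 169869320) (nat_lit 156468510779) (.two (nat_lit 8388610) (nat_lit 19026411810) (.two (nat_lit 41943041) (nat_lit 158647452378) (.two (nat_lit 1048576) (nat_lit 19033753797) (.one (nat_lit 276827439) .nil)))),
   .two (nat_lit 41943048) (nat_lit 4647288859) (.two (nat_lit 10370416643) (nat_lit 352321925) (.two (nat_lit 2097153) (nat_lit 156581757367) (.two (nat_lit 16777216) (nat_lit 21778926074) .nil))),
   .two (nat_lit 612368392) (nat_lit 156971827241) (.two (nat_lit 176160770) (nat_lit 28693233844) (.two (nat_lit 8388609) (nat_lit 1916797745) (.one (nat_lit 10909387272) .nil))),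
   .two (nat_lit 165532401672) (nat_lit 2416967723) (.two (nat_lit 20644364290) (nat_lit 37246468535) (.two (nat_lit 8388608) (nat_lit 11476665902) (.one (nat_lit 168824226) .nil))),
   .two (nat_lit 721420296) (nat_lit 21207449608) (.two (nat_lit 721420292) (nat_lit 158646403098) (.two (nat_lit 50331651) (nat_lit 1048877) (.two (nat_lit 50331649) (nat_lit 1209009306) (.two (nat_lit 1048576) (nat_lit 156984411683) (.one (nat_lit 9765390842) .nil))))),
   .two (nat_lit 159224168456) (nat_lit 2902458378) (.two (nat_lit 2961178628) (nat_lit 218103834) (.two (nat_lit 176160770) (nat_lit 1761607863) (.two (nat_lit 8388609) (nat_lit 83887239) (.two (nat_lit 1048576) (nat_lit 9814672928) (.one (nat_lit 166129044866) .nil))))),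
   .two (nat_lit 117440520) (nat_lit 11513364490) (.two (nat_lit 11492392964) (nat_lit 184419352602) (.two (nat_lit 12117344259) (nat_lit 754975108) (.two (nat_lit 37748737) (nat_lit 46489666250) (.two (nat_lit 4194304) (nat_lit 16779571) (.one (nat_lit 4197801) .nil))))),
   .two (nat_lit 754974728) (nat_lit 159257722928) (.two (nat_lit 8388610) (nat_lit 21223178535) (.two (nat_lit 8388609) (nat_lit 47596962516) (.two (nat_lit 16777216) (nat_lit 11611933172) .nil))),
   .two (nat_lit 16777224) (nat_lit 2353004554) (.two (nat_lit 9781116932) (nat_lit 10942939189) (.two (nat_lit 157038936067) (nat_lit 822083652) (.two (nat_lit 9768534017) (nat_lit 16777909) (.two (nat_lit 4194304) (nat_lit 2969569535) (.one (nat_lit 166245436788) .nil))))),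
   .two (nat_lit 2969567240) (nat_lit 10336862216) (.two (nat_lit 2969567236) (nat_lit 166197198943) (.two (nat_lit 46407876610) (nat_lit 9948889267) (.two (nat_lit 2097153) (nat_lit 620758547) (.one (nat_lit 46523223302) .nil)))),
   .two (nat_lit 18933088264) (nat_lit 1377828905) (.two (nat_lit 1916796931) (nat_lit 20644364641) (.two (nat_lit 41943041) (nat_lit 1749026002) (.two (nat_lit 4194304) (nat_lit 12048140452) (.one (nat_lit 8392109) .nil)))),
   .two (nat_lit 205520906) (nat_lit 12121538581) (.two (nat_lit 13191086084) (nat_lit 880803908) (.two (nat_lit 4194305) (nat_lit 156472705745) (.two (nat_lit 4194304) (nat_lit 166136383011) (.one (nat_lit 3460303374) .nil)))),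
   .two (nat_lit 20644364296) (nat_lit 166230753290) (.two (nat_lit 28758245380) (nat_lit 159224168475) (.two (nat_lit 1277165570) (nat_lit 3464495284) (.two (nat_lit 606076929) (nat_lit 47555019449) (.two (nat_lit 2097152) (nat_lit 1384122531) (.one (nat_lit 28764540333) .nil))))),
   .two (nat_lit 11479810056) (nat_lit 9899606026) (.two (nat_lit 12117344260) (nat_lit 1376780329) (.two (nat_lit 20637024258) (nat_lit 183949590967) (.two (nat_lit 1048576) (nat_lit 28760345083) .nil))),
   .two (nat_lit 9948889096) (nat_lit 10913579029) (.two (nat_lit 16777220) (nat_lit 165532401705) (.two (nat_lit 46414168066) (nat_lit 9881780509) (.two (nat_lit 8388609) (nat_lit 10385098260) (.one (nat_lit 10385100065) .nil)))),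
   .two (nat_lit 83886088) (nat_lit 272629768) (.two (nat_lit 272629764) (nat_lit 620757033) (.two (nat_lit 9881780227) (nat_lit 306184631) (.two (nat_lit 16777216) (nat_lit 306185009) (.one (nat_lit 4197806) .nil)))),
   .two (nat_lit 10343153672) (nat_lit 19027460123) (.two (nat_lit 46978301955) (nat_lit 156372042167) (.two (nat_lit 2097152) (nat_lit 156372042545) (.one (nat_lit 28087160032) .nil))),
   .two (nat_lit 176160776) (nat_lit 10385096712) (.two (nat_lit 10385096708) (nat_lit 3028287514) (.two (nat_lit 654311427) (nat_lit 3028287928) (.two (nat_lit 16777216) (nat_lit 47555019569) (.one (nat_lit 8392111) .nil)))),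
   .two (nat_lit 11479810056) (nat_lit 4605345800) (.two (nat_lit 46414168068) (nat_lit 11479810074) (.two (nat_lit 809500675) (nat_lit 37253808484) (.two (nat_lit 37748737) (nat_lit 174759871192) (.two (nat_lit 16777216) (nat_lit 1312818722) (.one (nat_lit 20640173467) .nil))))),
   .two (nat_lit 169869320) (nat_lit 612368392) (.two (nat_lit 9934209028) (nat_lit 20737687591) (.two (nat_lit 169869314) (nat_lit 28093448545) (.two (nat_lit 2097153) (nat_lit 11510219494) (.two (nat_lit 2097152) (nat_lit 11014244520) (.one (nat_lit 2894073208) .nil))))),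
   .two (nat_lit 11543773192) (nat_lit 1916796936) (.two (nat_lit 11543773188) (nat_lit 205520975) (.two (nat_lit 739246083) (nat_lit 19130220723) (.two (nat_lit 34603009) (nat_lit 158079124172) (.two (nat_lit 1048576) (nat_lit 4196664) (.one (nat_lit 1052082) .nil))))),
   .two (nat_lit 203423752) (nat_lit 50331658) (.two (nat_lit 822083588) (nat_lit 12048138286) (.two (nat_lit 16777218) (nat_lit 740294949) (.two (nat_lit 16777217) (nat_lit 159251432130) (.two (nat_lit 16777216) (nat_lit 2099513) (.one (nat_lit 16780724) .nil))))),
   .two (nat_lit 285212680) (nat_lit 9766436874) (.two (nat_lit 639631364) (nat_lit 46523219995) (.two (nat_lit 2902458371) (nat_lit 1746927801) (.two (nat_lit 16777217) (nat_lit 337642179) (.two (nat_lit 16777216) (nat_lit 11578377763) (.one (nat_lit 807407001) .nil))))),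
   .two (nat_lit 1358954504) (nat_lit 135266348) (.two (nat_lit 158143086595) (nat_lit 721420728) (.two (nat_lit 1048576) (nat_lit 721421106) (.one (nat_lit 183845784940) .nil))),
   .two (nat_lit 813694984) (nat_lit 11479810056) (.two (nat_lit 47548727300) (nat_lit 183953784889) (.two (nat_lit 1283457027) (nat_lit 47582281796) (.two (nat_lit 8388609) (nat_lit 13188989709) (.two (nat_lit 4194304) (nat_lit 158083319359) (.one (nat_lit 4197815) .nil))))),
   .two (nat_lit 4194312) (nat_lit 184993972232) (.two (nat_lit 169869316) (nat_lit 156535619637) (.two (nat_lit 34603011) (nat_lit 11513364855) (.two (nat_lit 34603009) (nat_lit 13188989641) (.two (nat_lit 1048576) (nat_lit 183846831649) (.one (nat_lit 807406862) .nil))))),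
   .two (nat_lit 4194312) (nat_lit 612368392) (.two (nat_lit 68157444) (nat_lit 159257722933) (.two (nat_lit 209715203) (nat_lit 28760342713) (.two (nat_lit 8388609) (nat_lit 166199297586) (.one (nat_lit 813697556) .nil)))),
   .two (nat_lit 4194312) (nat_lit 620757000) (.two (nat_lit 37748740) (nat_lit 19596836927) (.two (nat_lit 184549378) (nat_lit 4027580601) (.two (nat_lit 2097153) (nat_lit 20637024695) (.two (nat_lit 2097152) (nat_lit 19529729593) (.one (nat_lit 2100664) .nil))))),
   .two (nat_lit 20644364296) (nat_lit 1847590920) (.two (nat_lit 1847590916) (nat_lit 20644364314) (.two (nat_lit 28758245379) (nat_lit 165532402103) (.two (nat_lit 2097152) (nat_lit 165532404241) .nil))),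
   .two (nat_lit 11479810056) (nat_lit 9881780265) (.two (nat_lit 620756995) (nat_lit 1916797368) (.two (nat_lit 16777216) (nat_lit 1916797746) (.one (nat_lit 4197817) .nil))),
   .two (nat_lit 46409973768) (nat_lit 174753579016) (.two (nat_lit 46980399108) (nat_lit 21208498218) (.two (nat_lit 10940841987) (nat_lit 843055284) (.two (nat_lit 606076929) (nat_lit 37316723418) (.two (nat_lit 2097152) (nat_lit 843055922) (.one (nat_lit 3458207019) .nil))))),
   .two (nat_lit 272629768) (nat_lit 20644364330) (.two (nat_lit 4194306) (nat_lit 20644364727) (.two (nat_lit 4194304) (nat_lit 21214792192) .nil)),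
   .two (nat_lit 2889875465) (nat_lit 28758245386) (.two (nat_lit 2887778308) (nat_lit 9902751790) (.two (nat_lit 2097155) (nat_lit 46984593593) (.two (nat_lit 34603009) (nat_lit 9867100600) (.two (nat_lit 1048576) (nat_lit 165526111804) (.one (nat_lit 10504637836) .nil))))),
   .two (nat_lit 654311432) (nat_lit 46978301960) (.two (nat_lit 1358954500) (nat_lit 156968681499) (.two (nat_lit 1358954499) (nat_lit 10436477258) (.two (nat_lit 156364701697) (nat_lit 203424914) (.two (nat_lit 1048576) (nat_lit 2098725) (.one (nat_lit 10940845299) .nil))))),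
   .two (nat_lit 272629768) (nat_lit 13195280452) (.two (nat_lit 4194305) (nat_lit 8389860) (.two (nat_lit 4194304) (nat_lit 8390976) (.one (nat_lit 8392124) .nil))),
   .two (nat_lit 184549384) (nat_lit 13224640522) (.two (nat_lit 4194308) (nat_lit 184549401) (.two (nat_lit 285212675) (nat_lit 4601151556) (.two (nat_lit 9781116929) (nat_lit 158075978167) (.two (nat_lit 4194304) (nat_lit 705693892) (.one (nat_lit 11476666884) .nil))))),
   .two (nat_lit 8388616) (nat_lit 705691656) (.two (nat_lit 169869316) (nat_lit 9906946100) (.two (nat_lit 11484004355) (nat_lit 156532474041) (.two (nat_lit 8388609) (nat_lit 46977254095) (.two (nat_lit 1048576) (nat_lit 1384122562) (.one (nat_lit 8392125) .nil))))),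
   .two (nat_lit 9768534024) (nat_lit 13195280392) (.two (nat_lit 612368388) (nat_lit 28791799871) (.two (nat_lit 176160770) (nat_lit 840958243) (.two (nat_lit 4194305) (nat_lit 4034921155) (.two (nat_lit 8388608) (nat_lit 11511269674) (.one (nat_lit 3458206197) .nil))))),
   .two (nat_lit 620757000) (nat_lit 46978301960) (.two (nat_lit 9948889092) (nat_lit 1277165620) (.two (nat_lit 3525312515) (nat_lit 184549555) (.two (nat_lit 2097153) (nat_lit 21793605186) (.one (nat_lit 9867102708) .nil)))),
   .two (nat_lit 1358954504) (nat_lit 183853121544) (.two (nat_lit 21793603588) (nat_lit 12054429738) (.two (nat_lit 13195280387) (nat_lit 166144770337) (.two (nat_lit 156372041729) (nat_lit 13237224622) (.two (nat_lit 4194304) (nat_lit 11551114791) (.one (nat_lit 10376711492) .nil))))),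
   .two (nat_lit 50331656) (nat_lit 18933088264) (.two (nat_lit 721420292) (nat_lit 10947133495) (.two (nat_lit 218103811) (nat_lit 9934209359) (.two (nat_lit 41943041) (nat_lit 156548204088) (.one (nat_lit 1283460322) .nil)))),
   .two (nat_lit 218103816) (nat_lit 157038936079) (.two (nat_lit 3539992580) (nat_lit 10506731547) (.two (nat_lit 1913651203) (nat_lit 156581757317) (.two (nat_lit 620756993) (nat_lit 10436478112) (.two (nat_lit 1048576) (nat_lit 708838941) (.one (nat_lit 10000271891) .nil))))),
   .two (nat_lit 1795162120) (nat_lit 2349858843) (.two (nat_lit 158143086595) (nat_lit 10385096883) (.two (nat_lit 605028353) (nat_lit 18941477580) (.two (nat_lit 1048576) (nat_lit 9982445880) (.one (nat_lit 3524267318) .nil)))),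
   .two (nat_lit 41943048) (nat_lit 68157458) (.two (nat_lit 1178599428) (nat_lit 28764536879) (.two (nat_lit 171966467) (nat_lit 343932996) (.two (nat_lit 4194305) (nat_lit 10335814073) (.two (nat_lit 4194304) (nat_lit 158183982657) (.one (nat_lit 184986634759) .nil))))),
   .two (nat_lit 9934209032) (nat_lit 159224168456) (.two (nat_lit 1277165572) (nat_lit 156472705122) (.two (nat_lit 806354947) (nat_lit 20640170166) (.two (nat_lit 2097153) (nat_lit 37249614587) (.two (nat_lit 2097152) (nat_lit 10439624903) (.one (nat_lit 19093523710) .nil))))),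
   .two (nat_lit 37748744) (nat_lit 343932948) (.two (nat_lit 37748740) (nat_lit 46414168154) (.two (nat_lit 713031683) (nat_lit 10939793709) (.two (nat_lit 8388609) (nat_lit 705692088) (.two (nat_lit 4194304) (nat_lit 12147755291) (.one (nat_lit 8392127) .nil))))),
   .two (nat_lit 713031688) (nat_lit 20704133130) (.two (nat_lit 2961178628) (nat_lit 9934209051) (.two (nat_lit 1343225859) (nat_lit 8389009) (.two (nat_lit 605028353) (nat_lit 10370417079) (.two (nat_lit 1048576) (nat_lit 75498290) (.one (nat_lit 303041021) .nil))))),
   .two (nat_lit 18928893960) (nat_lit 20753416204) (.two (nat_lit 9948889092) (nat_lit 28691136560) (.two (nat_lit 11546918915) (nat_lit 620757060) (.two (nat_lit 606076929) (nat_lit 19545457349) (.two (nat_lit 2097152) (nat_lit 4043311261) (.one (nat_lit 46508542468) .nil))))),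
   .two (nat_lit 4194312) (nat_lit 1358954504) (.two (nat_lit 606076932) (nat_lit 19109249085) (.two (nat_lit 705691650) (nat_lit 641728694) (.two (nat_lit 34603009) (nat_lit 156365751034) (.two (nat_lit 1048576) (nat_lit 11477714465) (.one (nat_lit 16780736) .nil))))),
   .two (nat_lit 2902458376) (nat_lit 2887778343) (.two (nat_lit 169869314) (nat_lit 185027526965) (.two (nat_lit 16777217) (nat_lit 12618564308) (.two (nat_lit 16777216) (nat_lit 8390985) (.one (nat_lit 2100673) .nil)))),
   .two (nat_lit 2887778312) (nat_lit 20644364296) (.two (nat_lit 20644364292) (nat_lit 1846542402) (.two (nat_lit 20644364290) (nat_lit 12148801917) (.two (nat_lit 34603009) (nat_lit 166136382169) (.two (nat_lit 1048576) (nat_lit 158077027888) (.one (nat_lit 1913653760) .nil))))),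
   .two (nat_lit 169869320) (nat_lit 880803880) (.two (nat_lit 9765388291) (nat_lit 156466413749) (.two (nat_lit 8388609) (nat_lit 156466414275) (.two (nat_lit 2097152) (nat_lit 19100862658) (.one (nat_lit 174759873018) .nil)))),
   .two (nat_lit 46409973768) (nat_lit 12148801547) (.two (nat_lit 46407876612) (nat_lit 2923429914) (.two (nat_lit 157036838915) (nat_lit 12150898873) (.two (nat_lit 9766436865) (nat_lit 183946445530) (.two (nat_lit 4194304) (nat_lit 1050955) (.one (nat_lit 1947209112) .nil))))),
   .two (nat_lit 2887778313) (nat_lit 37313576979) (.two (nat_lit 272629764) (nat_lit 135266354) (.two (nat_lit 2887778306) (nat_lit 165525061935) (.two (nat_lit 37748737) (nat_lit 3525313302) (.two (nat_lit 2097152) (nat_lit 11479812364) (.one (nat_lit 3558870281) .nil))))),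
   .two (nat_lit 11551113224) (nat_lit 9881780232) (.two (nat_lit 9881780228) (nat_lit 102760489) (.two (nat_lit 1291845634) (nat_lit 337641807) (.two (nat_lit 620756993) (nat_lit 13188989659) (.two (nat_lit 16777216) (nat_lit 9799993642) (.one (nat_lit 9799994784) .nil))))),
   .two (nat_lit 1343225864) (nat_lit 46407876619) (.two (nat_lit 2887778308) (nat_lit 4634705946) (.two (nat_lit 2889875459) (nat_lit 28087156920) (.two (nat_lit 4194305) (nat_lit 673186556) (.two (nat_lit 1048576) (nat_lit 9902753310) (.one (nat_lit 3557821878) .nil))))),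
   .two (nat_lit 2887778312) (nat_lit 3527409706) (.two (nat_lit 166132187139) (nat_lit 1343226257) (.two (nat_lit 9766436865) (nat_lit 1950352935) (.one (nat_lit 156535622949) .nil))),
   .two (nat_lit 612368392) (nat_lit 12618563596) (.two (nat_lit 2889875460) (nat_lit 47548727362) (.two (nat_lit 2954887171) (nat_lit 183920230585) (.two (nat_lit 4194305) (nat_lit 159217878574) (.one (nat_lit 11578378749) .nil)))),
   .two (nat_lit 2954887176) (nat_lit 1276117049) (.two (nat_lit 708837379) (nat_lit 183946444981) (.two (nat_lit 37748737) (nat_lit 3020948236) (.two (nat_lit 1048576) (nat_lit 158177691978) (.one (nat_lit 156466416122) .nil)))),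
   .two (nat_lit 809500680) (nat_lit 3458203657) (.two (nat_lit 156365750276) (nat_lit 185023332409) (.two (nat_lit 11479810051) (nat_lit 69206371) (.two (nat_lit 34603009) (nat_lit 4632609494) (.two (nat_lit 1048576) (nat_lit 37247518257) (.one (nat_lit 2100677) .nil))))),
   .two (nat_lit 10343153672) (nat_lit 1847590977) (.two (nat_lit 270532611) (nat_lit 9873391798) (.two (nat_lit 2097153) (nat_lit 10376708880) (.two (nat_lit 2097152) (nat_lit 10343155888) (.one (nat_lit 28086110709) .nil)))),
   .two (nat_lit 2902458376) (nat_lit 9766436872) (.two (nat_lit 813694980) (nat_lit 185035915316) (.two (nat_lit 10385096707) (nat_lit 9906946342) (.two (nat_lit 2097153) (nat_lit 117441261) (.two (nat_lit 2097152) (nat_lit 12163483842) (.one (nat_lit 21827161390) .nil))))),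
   .two (nat_lit 184549384) (nat_lit 21208498184) (.two (nat_lit 9948889092) (nat_lit 1310720042) (.two (nat_lit 158144135171) (nat_lit 620757380) (.two (nat_lit 606076929) (nat_lit 10519315146) (.two (nat_lit 2097152) (nat_lit 620759263) (.one (nat_lit 270535977) .nil))))),
   .two (nat_lit 639631368) (nat_lit 156372041738) (.two (nat_lit 10343153668) (nat_lit 37247516720) (.two (nat_lit 806354947) (nat_lit 183853121823) (.two (nat_lit 2097153) (nat_lit 183853122239) (.two (nat_lit 1048576) (nat_lit 2357200433) (.one (nat_lit 158075981025) .nil))))),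
   .two (nat_lit 713031688) (nat_lit 47548727304) (.two (nat_lit 75497476) (nat_lit 46474985542) (.two (nat_lit 612368387) (nat_lit 47582281907) (.two (nat_lit 606076929) (nat_lit 37320918167) (.two (nat_lit 2097152) (nat_lit 11014244676) (.one (nat_lit 8392134) .nil))))),
   .two (nat_lit 8388616) (nat_lit 705691656) (.two (nat_lit 10369368068) (nat_lit 11578376270) (.two (nat_lit 638582787) (nat_lit 2954887535) (.two (nat_lit 605028353) (nat_lit 184993972973) (.two (nat_lit 8388608) (nat_lit 159250384449) (.one (nat_lit 47582284309) .nil))))),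
   .two (nat_lit 285212680) (nat_lit 12054429704) (.two (nat_lit 41943044) (nat_lit 822083652) (.two (nat_lit 8388609) (nat_lit 1325400776) (.two (nat_lit 8388608) (nat_lit 165540791843) (.one (nat_lit 28764539382) .nil)))),
   .two (nat_lit 46414168072) (nat_lit 158662131723) (.two (nat_lit 16777220) (nat_lit 46414168089) (.two (nat_lit 8388611) (nat_lit 285212740) (.two (nat_lit 8388609) (nat_lit 20652753605) (.two (nat_lit 8388608) (nat_lit 16779604) (.one (nat_lit 746588670) .nil))))),
   .two (nat_lit 11559501832) (nat_lit 46514831372) (.two (nat_lit 83886084) (nat_lit 184993972248) (.two (nat_lit 713031682) (nat_lit 1358954564) (.two (nat_lit 41943041) (nat_lit 159266112239) (.two (nat_lit 8388608) (nat_lit 11022632483) (.one (nat_lit 184993974794) .nil))))),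
   .two (nat_lit 50331656) (nat_lit 4605345816) (.two (nat_lit 8388610) (nat_lit 822083652) (.two (nat_lit 8388609) (nat_lit 1862271683) (.two (nat_lit 4194304) (nat_lit 1786776056) .nil))),
   .two (nat_lit 4194312) (nat_lit 16777224) (.two (nat_lit 4194308) (nat_lit 352321562) (.two (nat_lit 605028355) (nat_lit 158192369962) (.two (nat_lit 4194305) (nat_lit 12047090104) (.two (nat_lit 4194304) (nat_lit 12047090482) (.one (nat_lit 21210597885) .nil))))),
   .two (nat_lit 46980399112) (nat_lit 788529163) (.two (nat_lit 285212676) (nat_lit 9869197496) (.two (nat_lit 4194305) (nat_lit 1224737489) (.two (nat_lit 4194304) (nat_lit 16779605) (.one (nat_lit 71305717) .nil)))),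
   .two (nat_lit 184549384) (nat_lit 184416206900) (.two (nat_lit 16777219) (nat_lit 20704133299) (.two (nat_lit 16777217) (nat_lit 2953839355) (.two (nat_lit 16777216) (nat_lit 10939795705) (.one (nat_lit 16780745) .nil)))),
   .two (nat_lit 50331656) (nat_lit 12050235442) (.two (nat_lit 4194306) (nat_lit 16777284) (.two (nat_lit 4194305) (nat_lit 166245434916) (.one (nat_lit 20707281398) .nil))),
   .two (nat_lit 285212681) (nat_lit 156567076874) (.two (nat_lit 16777220) (nat_lit 1277165624) (.two (nat_lit 203423747) (nat_lit 10955522232) (.two (nat_lit 16777217) (nat_lit 47548728030) (.two (nat_lit 16777216) (nat_lit 185021236771) (.one (nat_lit 157051521556) .nil))))),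
   .two (nat_lit 8388616) (nat_lit 606076936) (.two (nat_lit 13195280388) (nat_lit 28791799859) (.two (nat_lit 4194306) (nat_lit 2988441975) (.two (nat_lit 4194305) (nat_lit 184993972973) (.two (nat_lit 4194304) (nat_lit 1350568279) (.one (nat_lit 4605349150) .nil))))),
   .two (nat_lit 46409973768) (nat_lit 184986632214) (.two (nat_lit 11476664324) (nat_lit 156367847462) (.two (nat_lit 50331651) (nat_lit 12618563769) (.two (nat_lit 37748737) (nat_lit 1176503028) (.two (nat_lit 1048576) (nat_lit 158179788319) (.one (nat_lit 3458207155) .nil))))),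
   .two (nat_lit 1277165576) (nat_lit 166229704724) (.two (nat_lit 11479810052) (nat_lit 158653743188) (.two (nat_lit 1343225859) (nat_lit 46407876790) (.two (nat_lit 605028353) (nat_lit 104858040) (.two (nat_lit 1048576) (nat_lit 742394064) (.one (nat_lit 28757200126) .nil))))),
   .two (nat_lit 169869320) (nat_lit 41943048) (.two (nat_lit 705691652) (nat_lit 20711473199) (.two (nat_lit 638582787) (nat_lit 10538188868) (.two (nat_lit 8388609) (nat_lit 12148802331) (.two (nat_lit 2097152) (nat_lit 109054295) (.one (nat_lit 235932172) .nil))))),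
   .two (nat_lit 612368392) (nat_lit 12618563596) (.two (nat_lit 47555018756) (nat_lit 2954887192) (.two (nat_lit 169869314) (nat_lit 343932996) (.two (nat_lit 606076929) (nat_lit 2357199560) (.two (nat_lit 16777216) (nat_lit 12618566134) .nil)))),
   .two (nat_lit 11543773192) (nat_lit 157036838966) (.two (nat_lit 41943043) (nat_lit 166129041590) (.two (nat_lit 34603009) (nat_lit 840958678) (.two (nat_lit 1048576) (nat_lit 156466415153) (.one (nat_lit 1350569407) .nil)))),
   .two (nat_lit 41943048) (nat_lit 19128123404) (.two (nat_lit 159217876996) (nat_lit 10007609412) (.two (nat_lit 2097153) (nat_lit 1317012207) (.two (nat_lit 2097152) (nat_lit 19033753123) (.one (nat_lit 47582284298) .nil)))),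
   .two (nat_lit 203423752) (nat_lit 873463820) (.two (nat_lit 10504634372) (nat_lit 3020947507) (.two (nat_lit 28758245379) (nat_lit 1947205700) (.two (nat_lit 605028353) (nat_lit 10437526255) (.two (nat_lit 2097152) (nat_lit 1050973) (.one (nat_lit 2100682) .nil))))),
   .two (nat_lit 28690087944) (nat_lit 12624855050) (.two (nat_lit 12054429700) (nat_lit 156465365017) (.two (nat_lit 1745879043) (nat_lit 13195280452) (.two (nat_lit 605028353) (nat_lit 10376709667) (.one (nat_lit 8392139) .nil)))),
   .two (nat_lit 46407876616) (nat_lit 9802088492) (.two (nat_lit 183845781506) (nat_lit 1950351713) (.two (nat_lit 34603009) (nat_lit 304087764) (.two (nat_lit 1048576) (nat_lit 166132189352) (.one (nat_lit 10338962808) .nil)))),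
   .two (nat_lit 1343225864) (nat_lit 1916796936) (.two (nat_lit 184986632196) (nat_lit 19130220584) (.two (nat_lit 12047089667) (nat_lit 19130220983) (.two (nat_lit 1048576) (nat_lit 156569174833) (.one (nat_lit 46977256701) .nil)))),
   .two (nat_lit 754974728) (nat_lit 2416967748) (.two (nat_lit 34603009) (nat_lit 156984410892) (.two (nat_lit 1048576) (nat_lit 16779618) (.one (nat_lit 168823288) .nil))),
   .two (nat_lit 10385096712) (nat_lit 843055123) (.two (nat_lit 9881780228) (nat_lit 1343225961) (.two (nat_lit 171966467) (nat_lit 2969567300) (.two (nat_lit 4194305) (nat_lit 1426064135) (.two (nat_lit 16777216) (nat_lit 28086110537) (.one (nat_lit 2349861397) .nil))))),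
   .two (nat_lit 176160776) (nat_lit 184986632200) (.two (nat_lit 612368388) (nat_lit 185020186664) (.two (nat_lit 75497475) (nat_lit 21811429816) (.two (nat_lit 8388608) (nat_lit 21811430194) (.one (nat_lit 10443820409) .nil)))),
   .two (nat_lit 2954887176) (nat_lit 12050235403) (.two (nat_lit 205520900) (nat_lit 3558866971) (.two (nat_lit 2889875458) (nat_lit 156969730232) (.two (nat_lit 2097153) (nat_lit 157038936828) (.two (nat_lit 1048576) (nat_lit 773850654) (.one (nat_lit 1052108) .nil))))),
   .two (nat_lit 75497480) (nat_lit 11007950864) (.two (nat_lit 10369368068) (nat_lit 1277165670) (.two (nat_lit 18926796803) (nat_lit 8388676) (.two (nat_lit 50331649) (nat_lit 158075979302) (.one (nat_lit 3457157644) .nil)))),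
   .two (nat_lit 2954887176) (nat_lit 34603060) (.two (nat_lit 708837379) (nat_lit 183946444981) (.two (nat_lit 37748737) (nat_lit 4631560946) (.two (nat_lit 2097152) (nat_lit 158179788336) (.one (nat_lit 156466416122) .nil)))),
   .two (nat_lit 4194312) (nat_lit 158653743115) (.two (nat_lit 8388612) (nat_lit 11610882073) (.two (nat_lit 4194306) (nat_lit 3457155257) (.two (nat_lit 4194305) (nat_lit 11544822912) (.two (nat_lit 4194304) (nat_lit 12048139809) (.one (nat_lit 21781024091) .nil))))),
   .two (nat_lit 2954887176) (nat_lit 10540285972) (.two (nat_lit 37748740) (nat_lit 10443817014) (.two (nat_lit 11476664322) (nat_lit 13224640879) (.two (nat_lit 8388609) (nat_lit 68157880) (.two (nat_lit 8388608) (nat_lit 174752532028) (.one (nat_lit 1052109) .nil))))),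
   .two (nat_lit 169869320) (nat_lit 50331656) (.two (nat_lit 285212676) (nat_lit 19093520434) (.two (nat_lit 2902458371) (nat_lit 19128123693) (.two (nat_lit 16777217) (nat_lit 156532474297) (.two (nat_lit 2097152) (nat_lit 12633245221) (.one (nat_lit 165540793695) .nil))))),
   .two (nat_lit 11479810056) (nat_lit 28757196808) (.two (nat_lit 1916796932) (nat_lit 20704133162) (.two (nat_lit 1846542339) (nat_lit 46510637236) (.two (nat_lit 605028353) (nat_lit 21781021404) (.two (nat_lit 1048576) (nat_lit 46510637874) (.one (nat_lit 184416210308) .nil))))),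
   .two (nat_lit 8388616) (nat_lit 9967763466) (.two (nat_lit 9934209028) (nat_lit 4605345834) (.two (nat_lit 169869314) (nat_lit 47588573573) (.two (nat_lit 8388609) (nat_lit 3558867762) (.one (nat_lit 11014245715) .nil)))),
   .two (nat_lit 2887778312) (nat_lit 679477269) (.two (nat_lit 2887778308) (nat_lit 12155093039) (.two (nat_lit 4599054339) (nat_lit 156372041796) (.two (nat_lit 2097153) (nat_lit 847250190) (.two (nat_lit 1048576) (nat_lit 679479599) (.one (nat_lit 1051159) .nil))))),
   .two (nat_lit 11479810056) (nat_lit 20711473163) (.two (nat_lit 13195280388) (nat_lit 809500699) (.two (nat_lit 13195280387) (nat_lit 9969860792) (.two (nat_lit 37748737) (nat_lit 28697428689) (.two (nat_lit 4194304) (nat_lit 8391025) (.one (nat_lit 158079126005) .nil))))),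
   .two (nat_lit 37748744) (nat_lit 1913651215) (.two (nat_lit 809500676) (nat_lit 1947205682) (.two (nat_lit 9933160451) (nat_lit 9967763524) (.two (nat_lit 2097153) (nat_lit 11580474582) (.two (nat_lit 4194304) (nat_lit 37246469695) (.one (nat_lit 166232853785) .nil))))),
   .two (nat_lit 1178599432) (nat_lit 158183981068) (.two (nat_lit 11479810052) (nat_lit 3028287529) (.two (nat_lit 809500675) (nat_lit 20711473337) (.two (nat_lit 37748737) (nat_lit 183920231107) (.two (nat_lit 4194304) (nat_lit 11517560960) (.one (nat_lit 675285497) .nil))))),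
   .two (nat_lit 11492392968) (nat_lit 10939793416) (.two (nat_lit 11492392964) (nat_lit 184986632244) (.two (nat_lit 1795162115) (nat_lit 12617515409) (.two (nat_lit 9765388289) (nat_lit 20753417764) (.one (nat_lit 605030906) .nil)))),
   .two (nat_lit 3460300808) (nat_lit 159217877000) (.two (nat_lit 9934209028) (nat_lit 205520953) (.two (nat_lit 2097155) (nat_lit 28793897143) (.two (nat_lit 2097153) (nat_lit 742392556) (.two (nat_lit 4194304) (nat_lit 10437527717) (.one (nat_lit 157036841479) .nil))))),
   .two (nat_lit 11559501832) (nat_lit 780140595) (.two (nat_lit 721420290) (nat_lit 109052345) (.two (nat_lit 1048576) (nat_lit 18941479435) .nil)),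
   .two (nat_lit 2889875464) (nat_lit 28690087944) (.two (nat_lit 19529728004) (nat_lit 18928894004) (.two (nat_lit 272629763) (nat_lit 638583101) (.two (nat_lit 9768534017) (nat_lit 11610883243) (.two (nat_lit 16777216) (nat_lit 775948498) (.one (nat_lit 1379929370) .nil))))),
   .two (nat_lit 639631368) (nat_lit 47555018760) (.two (nat_lit 2887778308) (nat_lit 47555018778) (.two (nat_lit 4599054339) (nat_lit 343932996) (.two (nat_lit 34603009) (nat_lit 1216348955) (.two (nat_lit 1048576) (nat_lit 158150428210) (.one (nat_lit 11543776564) .nil))))),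
   .two (nat_lit 612368392) (nat_lit 158144135227) (.two (nat_lit 11484004355) (nat_lit 4634705988) (.two (nat_lit 8388609) (nat_lit 11511268912) (.one (nat_lit 2100690) .nil))),
   .two (nat_lit 620757000) (nat_lit 157036838920) (.two (nat_lit 2969567236) (nat_lit 673185832) (.two (nat_lit 19530776579) (nat_lit 50331828) (.two (nat_lit 2097153) (nat_lit 50332465) (.one (nat_lit 37329308162) .nil)))),
   .two (nat_lit 11479810056) (nat_lit 3525312520) (.two (nat_lit 1178599428) (nat_lit 69206065) (.two (nat_lit 9768534019) (nat_lit 2097556) (.two (nat_lit 9768534017) (nat_lit 28087157464) (.two (nat_lit 4194304) (nat_lit 2954889577) (.one (nat_lit 184989781373) .nil))))),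
   .two (nat_lit 176160776) (nat_lit 9766436881) (.two (nat_lit 10504634372) (nat_lit 13221494836) (.two (nat_lit 12054429699) (nat_lit 11543773252) (.two (nat_lit 605028353) (nat_lit 35652352) (.two (nat_lit 2097152) (nat_lit 839910955) (.one (nat_lit 2100691) .nil))))),
   .two (nat_lit 156465365001) (nat_lit 12129927178) (.two (nat_lit 11492392964) (nat_lit 1048689) (.two (nat_lit 11492392962) (nat_lit 10906239157) (.two (nat_lit 50331649) (nat_lit 68158148) (.two (nat_lit 1048576) (nat_lit 28101838371) (.one (nat_lit 605030913) .nil))))),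
   .two (nat_lit 9768534024) (nat_lit 135266323) (.two (nat_lit 1178599428) (nat_lit 3525312571) (.two (nat_lit 270532611) (nat_lit 4634705988) (.two (nat_lit 34603009) (nat_lit 9799991737) (.two (nat_lit 1048576) (nat_lit 1847592511) (.one (nat_lit 3524266494) .nil))))),
   .two (nat_lit 41943048) (nat_lit 3527409674) (.two (nat_lit 2889875460) (nat_lit 343932970) (.two (nat_lit 272629763) (nat_lit 343933367) (.two (nat_lit 4194304) (nat_lit 343933745) (.one (nat_lit 37316725995) .nil)))),
   .two (nat_lit 1178599432) (nat_lit 2887778322) (.two (nat_lit 21777874948) (nat_lit 3021996083) (.two (nat_lit 2097155) (nat_lit 9936306570) (.two (nat_lit 2097153) (nat_lit 3460301576) (.two (nat_lit 1048576) (nat_lit 1847592511) (.one (nat_lit 1913653767) .nil))))),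
   .two (nat_lit 9934209032) (nat_lit 10506731528) (.two (nat_lit 169869316) (nat_lit 1916796998) (.two (nat_lit 2097155) (nat_lit 156569174195) (.two (nat_lit 2097153) (nat_lit 19130221238) (.two (nat_lit 2097152) (nat_lit 166199297586) (.one (nat_lit 19026415006) .nil))))),
   .two (nat_lit 203423752) (nat_lit 166129041416) (.two (nat_lit 75497476) (nat_lit 1846542403) (.two (nat_lit 13187940355) (nat_lit 343932996) (.two (nat_lit 156364701697) (nat_lit 28087158296) (.one (nat_lit 9934212410) .nil)))),
   .two (nat_lit 8388616) (nat_lit 1782579215) (.two (nat_lit 156365750276) (nat_lit 612368452) (.two (nat_lit 50331649) (nat_lit 158077027897) (.one (nat_lit 104861038) .nil))),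
   .two (nat_lit 11479810056) (nat_lit 47563407408) (.two (nat_lit 1358954499) (nat_lit 28089254183) (.two (nat_lit 612368385) (nat_lit 184419353015) (.two (nat_lit 8388608) (nat_lit 12117345073) (.one (nat_lit 4197847) .nil)))),
   .two (nat_lit 754974728) (nat_lit 37246468123) (.two (nat_lit 12114198531) (nat_lit 1191182515) (.two (nat_lit 34603009) (nat_lit 1191183030) (.two (nat_lit 1048576) (nat_lit 21827159588) (.one (nat_lit 873467216) .nil)))),
   .two (nat_lit 612368392) (nat_lit 3560964107) (.two (nat_lit 1749024772) (nat_lit 1276117034) (.two (nat_lit 638582787) (nat_lit 174755676516) (.two (nat_lit 8388609) (nat_lit 21210596057) (.two (nat_lit 16777216) (nat_lit 9974057472) .nil)))),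
   .two (nat_lit 4194312) (nat_lit 41943108) (.two (nat_lit 4194306) (nat_lit 1175454135) (.two (nat_lit 2097153) (nat_lit 9768534833) (.two (nat_lit 1048576) (nat_lit 1277168114) (.one (nat_lit 11543776730) .nil)))),
   .two (nat_lit 276824072) (nat_lit 9781116996) (.two (nat_lit 10385096707) (nat_lit 12114198968) (.two (nat_lit 8388609) (nat_lit 13237224242) (.two (nat_lit 1048576) (nat_lit 28764539391) (.one (nat_lit 158183984603) .nil)))),
   .two (nat_lit 8388616) (nat_lit 10437525553) (.two (nat_lit 813694980) (nat_lit 4634705988) (.two (nat_lit 169869314) (nat_lit 1749025209) (.two (nat_lit 2097153) (nat_lit 9768534833) (.two (nat_lit 2097152) (nat_lit 880806410) (.one (nat_lit 1344277987) .nil))))),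
   .two (nat_lit 9948889092) (nat_lit 46474985477) (.two (nat_lit 203423747) (nat_lit 218104087) (.one (nat_lit 16778961) .nil)),
   .two (nat_lit 46407876612) (nat_lit 156367847430) (.two (nat_lit 620756995) (nat_lit 10436476957) (.two (nat_lit 34603009) (nat_lit 754974810) (.two (nat_lit 1048576) (nat_lit 16778065) (.one (nat_lit 16780774) .nil)))),
   .two (nat_lit 46409973764) (nat_lit 1847590916) (.two (nat_lit 28758245379) (nat_lit 10372514087) (.one (nat_lit 608174876) .nil)),
   .two (nat_lit 276824068) (nat_lit 1795162127) (.two (nat_lit 34603009) (nat_lit 3464495154) (.two (nat_lit 1048576) (nat_lit 889192788) (.one (nat_lit 8391230) .nil))),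
   .two (nat_lit 705691652) (nat_lit 159224168454) (.two (nat_lit 159224168451) (nat_lit 184986632200) (.two (nat_lit 2097153) (nat_lit 9940500587) (.two (nat_lit 8388608) (nat_lit 1049429) (.one (nat_lit 1050505) .nil)))),
   .two (nat_lit 612368388) (nat_lit 11578376199) (.two (nat_lit 11559501827) (nat_lit 10007609384) (.two (nat_lit 2097152) (nat_lit 2927624993) .nil)),
   .two (nat_lit 16777220) (nat_lit 2961178628) (.two (nat_lit 176160770) (nat_lit 28705816914) (.one (nat_lit 1050514) .nil)),
   .two (nat_lit 13224640518) (nat_lit 156539813895) (.two (nat_lit 809500675) (nat_lit 83886125) (.two (nat_lit 8388608) (nat_lit 28793897298) (.one (nat_lit 1224738706) .nil))),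
   .two (nat_lit 13191086086) (nat_lit 679477355) (.two (nat_lit 4194304) (nat_lit 159232557889) (.one (nat_lit 2099131) .nil)),
   .two (nat_lit 3464495108) (nat_lit 21777874950) (.two (nat_lit 47555018755) (nat_lit 168820767) (.two (nat_lit 8388609) (nat_lit 174685421656) (.two (nat_lit 4194304) (nat_lit 20637024552) (.one (nat_lit 1051213) .nil)))),
   .two (nat_lit 20638072836) (nat_lit 9866051640) (.two (nat_lit 1048576) (nat_lit 158177689914) (.one (nat_lit 1276118812) .nil)),
   .two (nat_lit 606076932) (nat_lit 3036676102) (.two (nat_lit 184549379) (nat_lit 12148801631) (.two (nat_lit 16777216) (nat_lit 2097718) (.one (nat_lit 1052135) .nil))),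
   .two (nat_lit 46407876612) (nat_lit 1358954586) (.two (nat_lit 1048576) (nat_lit 16777783) (.one (nat_lit 16780776) .nil)),
   .two (nat_lit 1178599428) (nat_lit 28086108166) (.two (nat_lit 11479810050) (nat_lit 21811429452) (.two (nat_lit 4194304) (nat_lit 1049447) (.one (nat_lit 1052137) .nil))),
   .two (nat_lit 11492392964) (nat_lit 2923429894) (.two (nat_lit 2889875459) (nat_lit 11492393139) (.one (nat_lit 16778750) .nil)),
   .two (nat_lit 20644364292) (nat_lit 1277165574) (.two (nat_lit 69206019) (nat_lit 20644364467) (.one (nat_lit 4197866) .nil)),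
   .two (nat_lit 11479810052) (nat_lit 3036676102) (.two (nat_lit 184549379) (nat_lit 46510637236) (.one (nat_lit 159253529838) .nil)),
   .two (nat_lit 2902458372) (nat_lit 11543773192) (.two (nat_lit 16777217) (nat_lit 1309671490) (.two (nat_lit 8388608) (nat_lit 16779812) .nil)),
   .two (nat_lit 9766436868) (nat_lit 184419352584) (.two (nat_lit 37748737) (nat_lit 3021996087) (.two (nat_lit 4194304) (nat_lit 28791800217) (.one (nat_lit 2100715) .nil))),
   .two (nat_lit 9948889092) (nat_lit 166130089992) (.two (nat_lit 37748737) (nat_lit 1847590997) (.two (nat_lit 16777216) (nat_lit 4195190) (.one (nat_lit 4197868) .nil))),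
   .two (nat_lit 18928893956) (nat_lit 19027460102) (.two (nat_lit 10370416643) (nat_lit 166232850478) (.two (nat_lit 2097152) (nat_lit 11546919252) (.one (nat_lit 4197869) .nil))),
   .two (nat_lit 117440516) (nat_lit 159217876996) (.two (nat_lit 169869314) (nat_lit 165532401674) (.two (nat_lit 2097153) (nat_lit 12121538668) (.two (nat_lit 2097152) (nat_lit 16778104) (.one (nat_lit 16779901) .nil)))),
   .two (nat_lit 4601151492) (nat_lit 18933088260) (.two (nat_lit 4194306) (nat_lit 166211878930) (.two (nat_lit 41943041) (nat_lit 156367847462) (.two (nat_lit 8388608) (nat_lit 16778105) (.one (nat_lit 28806481999) .nil)))),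
   .two (nat_lit 184549380) (nat_lit 46407876665) (.two (nat_lit 1048576) (nat_lit 46508540768) (.one (nat_lit 2099840) .nil)),
   .two (nat_lit 68157444) (nat_lit 9806282762) (.two (nat_lit 8388609) (nat_lit 2990538810) (.two (nat_lit 16777216) (nat_lit 159253529143) (.one (nat_lit 4197870) .nil))),
   .two (nat_lit 16777220) (nat_lit 9906946060) (.two (nat_lit 41943041) (nat_lit 2953838646) (.two (nat_lit 16777216) (nat_lit 1049155) (.one (nat_lit 8390762) .nil))),
   .two (nat_lit 218103812) (nat_lit 158079123510) (.two (nat_lit 4194304) (nat_lit 183861510459) (.one (nat_lit 8391308) .nil)),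
   .two (nat_lit 4605345796) (nat_lit 2317352980) (.two (nat_lit 8388609) (nat_lit 11546919019) (.two (nat_lit 4194304) (nat_lit 8389502) (.one (nat_lit 8392175) .nil))),
   .two (nat_lit 12117344260) (nat_lit 157043130388) (.two (nat_lit 4194305) (nat_lit 12062818385) (.two (nat_lit 1048576) (nat_lit 4195200) (.one (nat_lit 8391312) .nil))),
   .two (nat_lit 9768534020) (nat_lit 1377828871) (.two (nat_lit 18926796803) (nat_lit 10506731959) .nil),
   .two (nat_lit 158143086596) (nat_lit 156969730058) (.two (nat_lit 157036838915) (nat_lit 158143086616) (.two (nat_lit 9766436865) (nat_lit 1745879791) (.one (nat_lit 3557820765) .nil))),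
   .two (nat_lit 11618222086) (nat_lit 2923429931) (.two (nat_lit 8388609) (nat_lit 4634706207) (.two (nat_lit 8388608) (nat_lit 10439623382) (.one (nat_lit 809503472) .nil))),
   .two (nat_lit 183861510150) (nat_lit 19532873772) (.two (nat_lit 2097153) (nat_lit 1346371891) (.two (nat_lit 4194304) (nat_lit 16778915) (.one (nat_lit 16780862) .nil))),
   .two (nat_lit 185020186630) (nat_lit 1413480496) (.two (nat_lit 34603009) (nat_lit 28760343702) (.one (nat_lit 4197266) .nil)),
   .two (nat_lit 1376780294) (nat_lit 12048138292) (.two (nat_lit 605028353) (nat_lit 3458204860) (.one (nat_lit 2100799) .nil)),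
   .two (nat_lit 10370416644) (nat_lit 117440555) (.two (nat_lit 620756993) (nat_lit 840958669) (.one (nat_lit 2100118) .nil)),
   .two (nat_lit 3464495108) (nat_lit 37313576970) (.two (nat_lit 176160771) (nat_lit 156566028335) (.two (nat_lit 41943041) (nat_lit 37313577028) (.two (nat_lit 1048576) (nat_lit 8390310) (.one (nat_lit 158075979965) .nil)))),
   .two (nat_lit 612368388) (nat_lit 1291845641) (.two (nat_lit 75497475) (nat_lit 184549563) (.two (nat_lit 620756993) (nat_lit 20644364564) (.two (nat_lit 1048576) (nat_lit 16778919) (.one (nat_lit 16780187) .nil)))),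
   .two (nat_lit 1779433476) (nat_lit 9967763501) (.two (nat_lit 606076929) (nat_lit 1309671605) (.two (nat_lit 2097152) (nat_lit 11577328813) (.one (nat_lit 2100125) .nil))),
   .two (nat_lit 1947205638) (nat_lit 21785214996) (.two (nat_lit 2956984323) (nat_lit 4605345818) (.two (nat_lit 4194305) (nat_lit 209715969) (.one (nat_lit 2994735265) .nil))),
   .two (nat_lit 11559501828) (nat_lit 1913651208) (.two (nat_lit 11476664322) (nat_lit 2902459074) (.one (nat_lit 1358956812) .nil)),
   .two (nat_lit 218103812) (nat_lit 166197198869) (.two (nat_lit 10504634371) (nat_lit 28705816963) (.two (nat_lit 2097152) (nat_lit 16778922) (.one (nat_lit 16780864) .nil))),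
   .two (nat_lit 1846542340) (nat_lit 184419352619) (.two (nat_lit 9765388289) (nat_lit 183949590815) (.two (nat_lit 1048576) (nat_lit 4196011) (.one (nat_lit 1178602224) .nil))),
   .two (nat_lit 1291845636) (nat_lit 19093520425) (.two (nat_lit 620756993) (nat_lit 183912890656) (.two (nat_lit 16777216) (nat_lit 11476665600) (.one (nat_lit 2365590278) .nil))),
   .two (nat_lit 9948889092) (nat_lit 343932971) (.two (nat_lit 16777217) (nat_lit 343933213) (.two (nat_lit 16777216) (nat_lit 8390318) (.one (nat_lit 16780865) .nil))),
   .two (nat_lit 37748740) (nat_lit 1753219080) (.two (nat_lit 612368387) (nat_lit 21208498239) (.two (nat_lit 606076929) (nat_lit 19532874032) (.two (nat_lit 2097152) (nat_lit 156372042891) (.one (nat_lit 2350910246) .nil)))),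
   .two (nat_lit 3458203652) (nat_lit 218103828) (.two (nat_lit 806354947) (nat_lit 10955522135) (.two (nat_lit 8388609) (nat_lit 21812478670) (.one (nat_lit 2100802) .nil))),
   .two (nat_lit 158083317764) (nat_lit 28790751242) (.two (nat_lit 1276116994) (nat_lit 21785215020) (.two (nat_lit 605028353) (nat_lit 2994733829) (.one (nat_lit 8391605) .nil))),
   .two (nat_lit 1291845636) (nat_lit 12114198536) (.two (nat_lit 11476664322) (nat_lit 50331933) (.two (nat_lit 1048576) (nat_lit 21827160197) .nil)),
   .two (nat_lit 169869316) (nat_lit 1325400118) (.two (nat_lit 2097153) (nat_lit 2332033505) (.two (nat_lit 1048576) (nat_lit 2098866) (.one (nat_lit 1051575) .nil))),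
   .two (nat_lit 46414168068) (nat_lit 158144135195) (.two (nat_lit 606076929) (nat_lit 156472706203) (.one (nat_lit 8391608) .nil)),
   .two (nat_lit 352321542) (nat_lit 18933088269) (.two (nat_lit 16777219) (nat_lit 4638900312) (.two (nat_lit 605028353) (nat_lit 318767288) (.two (nat_lit 8388608) (nat_lit 16779816) (.one (nat_lit 8392260) .nil)))),
   .two (nat_lit 272629764) (nat_lit 9799991349) (.two (nat_lit 4194305) (nat_lit 10370416977) (.two (nat_lit 2097152) (nat_lit 4196020) (.one (nat_lit 239077598) .nil))),
   .two (nat_lit 1779433476) (nat_lit 184549389) (.two (nat_lit 721420291) (nat_lit 2349858996) (.two (nat_lit 16777216) (nat_lit 4598006506) (.one (nat_lit 16780824) .nil))),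
   .two (nat_lit 75497476) (nat_lit 251658254) (.two (nat_lit 713031682) (nat_lit 251658285) (.two (nat_lit 16777217) (nat_lit 19537068324) (.two (nat_lit 16777216) (nat_lit 8390325) (.one (nat_lit 28772927859) .nil)))),
   .two (nat_lit 739246086) (nat_lit 12054429723) (.two (nat_lit 2097153) (nat_lit 184993972403) (.two (nat_lit 1048576) (nat_lit 8389903) (.one (nat_lit 8392261) .nil))),
   .two (nat_lit 16777220) (nat_lit 1947205652) (.two (nat_lit 11543773187) (nat_lit 12633243702) (.two (nat_lit 8388609) (nat_lit 202375350) (.two (nat_lit 8388608) (nat_lit 1049872) (.one (nat_lit 8392208) .nil)))),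
   .two (nat_lit 8388612) (nat_lit 706740236) (.two (nat_lit 2887778306) (nat_lit 276824119) (.two (nat_lit 2097153) (nat_lit 9906946385) (.two (nat_lit 2097152) (nat_lit 8390327) (.one (nat_lit 12115249938) .nil)))),
   .two (nat_lit 166132187140) (nat_lit 3021996139) (.two (nat_lit 2097153) (nat_lit 9902752461) (.one (nat_lit 4197958) .nil)),
   .two (nat_lit 169869316) (nat_lit 47596961848) (.two (nat_lit 2097153) (nat_lit 16778054) (.two (nat_lit 2097152) (nat_lit 16779817) (.one (nat_lit 16780871) .nil))),
   .two (nat_lit 754974724) (nat_lit 47555018777) (.two (nat_lit 50331649) (nat_lit 10343153732) (.two (nat_lit 2097152) (nat_lit 16778514) (.one (nat_lit 16780873) .nil))),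
   .two (nat_lit 612368388) (nat_lit 156466413616) (.two (nat_lit 34603009) (nat_lit 20705182044) (.two (nat_lit 1048576) (nat_lit 2098874) (.one (nat_lit 1052234) .nil))),
   .two (nat_lit 11479810052) (nat_lit 3464495112) (.two (nat_lit 47555018755) (nat_lit 843055174) (.two (nat_lit 8388609) (nat_lit 183949590707) (.two (nat_lit 8388608) (nat_lit 20740834459) (.one (nat_lit 19134417586) .nil)))),
   .two (nat_lit 183845781508) (nat_lit 46984593487) (.two (nat_lit 34603009) (nat_lit 10510927070) (.one (nat_lit 1051584) .nil)),
   .two (nat_lit 4605345796) (nat_lit 3527409672) (.two (nat_lit 46980399107) (nat_lit 10007609632) (.two (nat_lit 4194304) (nat_lit 10007610049) (.one (nat_lit 4034923309) .nil))),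
   .two (nat_lit 9881780228) (nat_lit 12114198555) (.two (nat_lit 41943041) (nat_lit 269485169) (.one (nat_lit 1052235) .nil)),
   .two (nat_lit 1350565892) (nat_lit 11559501867) (.two (nat_lit 50331649) (nat_lit 10909385903) (.one (nat_lit 16780080) .nil)),
   .two (nat_lit 606076932) (nat_lit 11492392985) (.two (nat_lit 2097153) (nat_lit 158091706724) (.two (nat_lit 2097152) (nat_lit 16778518) (.one (nat_lit 2100812) .nil))),
   .two (nat_lit 169869316) (nat_lit 10506731528) (.two (nat_lit 34603011) (nat_lit 13191086161) (.two (nat_lit 2097153) (nat_lit 185023332678) (.two (nat_lit 2097152) (nat_lit 4196906) (.one (nat_lit 1051590) .nil)))),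
   .two (nat_lit 184549380) (nat_lit 672137244) (.two (nat_lit 8388611) (nat_lit 1913651501) (.two (nat_lit 8388608) (nat_lit 158662134550) .nil)),
   .two (nat_lit 11476664324) (nat_lit 10506731528) (.two (nat_lit 2097155) (nat_lit 20707278962) (.two (nat_lit 2097153) (nat_lit 156465365379) (.two (nat_lit 2097152) (nat_lit 1050301) (.one (nat_lit 1052237) .nil)))),
   .two (nat_lit 2961178628) (nat_lit 28758245389) (.two (nat_lit 3531603971) (nat_lit 156567076922) (.two (nat_lit 9766436865) (nat_lit 19100860784) (.two (nat_lit 1048576) (nat_lit 28798092058) (.one (nat_lit 8392270) .nil)))),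
   .two (nat_lit 1175453700) (nat_lit 2954887180) (.two (nat_lit 11492392963) (nat_lit 174752530733) (.two (nat_lit 1048576) (nat_lit 1182795449) (.one (nat_lit 2100816) .nil))),
   .two (nat_lit 83886084) (nat_lit 158176641097) (.two (nat_lit 50331649) (nat_lit 20704133300) (.two (nat_lit 2097152) (nat_lit 12047090909) (.one (nat_lit 16780882) .nil))),
   .two (nat_lit 9766436868) (nat_lit 303038475) (.two (nat_lit 2097155) (nat_lit 4605345818) (.two (nat_lit 4194305) (nat_lit 2987393765) (.one (nat_lit 8392275) .nil))),
   .two (nat_lit 47582281733) (nat_lit 1916796938) (.two (nat_lit 4599054339) (nat_lit 183949590554) (.two (nat_lit 34603009) (nat_lit 2990539041) (.two (nat_lit 1048576) (nat_lit 2418016973) (.one (nat_lit 4197333) .nil)))),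
   .two (nat_lit 165526110212) (nat_lit 1779433491) (.two (nat_lit 1343225859) (nat_lit 20638073322) (.two (nat_lit 1048576) (nat_lit 2418018584) .nil)),
   .two (nat_lit 11551113220) (nat_lit 28790751242) (.two (nat_lit 34603011) (nat_lit 343933207) (.two (nat_lit 2097152) (nat_lit 166129042159) (.one (nat_lit 8392276) .nil))),
   .two (nat_lit 713031684) (nat_lit 10939793416) (.two (nat_lit 158150426627) (nat_lit 174685421653) (.two (nat_lit 9768534017) (nat_lit 13187940687) (.two (nat_lit 4194304) (nat_lit 28086109317) (.one (nat_lit 1051610) .nil)))),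
   .two (nat_lit 9768534022) (nat_lit 12617515051) (.two (nat_lit 37748737) (nat_lit 12147753247) (.two (nat_lit 4194304) (nat_lit 18925750993) .nil)),
   .two (nat_lit 158143086596) (nat_lit 1283457090) (.two (nat_lit 605028353) (nat_lit 11517560042) (.one (nat_lit 47588575975) .nil)),
   .two (nat_lit 203423750) (nat_lit 285212680) (.two (nat_lit 203423747) (nat_lit 174768259118) (.two (nat_lit 50331649) (nat_lit 1276117176) (.two (nat_lit 2097152) (nat_lit 10369368777) (.one (nat_lit 1052245) .nil)))),
   .two (nat_lit 16777220) (nat_lit 46474985482) (.two (nat_lit 184549378) (nat_lit 46474985509) (.two (nat_lit 620756993) (nat_lit 11543773501) (.two (nat_lit 1048576) (nat_lit 2098885) (.one (nat_lit 1051613) .nil)))),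
   .two (nat_lit 3028287494) (nat_lit 11513364523) (.two (nat_lit 8388609) (nat_lit 1849688790) (.one (nat_lit 4197342) .nil)),
   .two (nat_lit 1847590916) (nat_lit 1913651220) (.two (nat_lit 11543773187) (nat_lit 740294707) (.two (nat_lit 9765388289) (nat_lit 2097558) (.two (nat_lit 1048576) (nat_lit 2098886) (.one (nat_lit 2100823) .nil)))),
   .two (nat_lit 705691652) (nat_lit 11513364489) (.two (nat_lit 11543773187) (nat_lit 807403567) (.two (nat_lit 4194305) (nat_lit 2921333219) (.two (nat_lit 2097152) (nat_lit 4195620) (.one (nat_lit 2099635) .nil)))),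
   .two (nat_lit 2961178628) (nat_lit 83886100) (.two (nat_lit 50331651) (nat_lit 2994733093) (.two (nat_lit 50331649) (nat_lit 1317011739) (.two (nat_lit 1048576) (nat_lit 159219977067) .nil))),
   .two (nat_lit 50331652) (nat_lit 11584667660) (.two (nat_lit 3531603971) (nat_lit 16777254) (.two (nat_lit 8388609) (nat_lit 889192772) (.two (nat_lit 1048576) (nat_lit 16778952) (.one (nat_lit 1052248) .nil)))),
   .two (nat_lit 19027460102) (nat_lit 303038492) (.two (nat_lit 1913651203) (nat_lit 203423800) (.two (nat_lit 9765388289) (nat_lit 159217878129) (.one (nat_lit 1052981) .nil))),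
   .two (nat_lit 713031684) (nat_lit 135266318) (.two (nat_lit 612368387) (nat_lit 9933160502) (.two (nat_lit 16777217) (nat_lit 8388676) (.two (nat_lit 16777216) (nat_lit 1846543472) (.one (nat_lit 1051621) .nil)))),
   .two (nat_lit 754974724) (nat_lit 158646403097) (.two (nat_lit 4194305) (nat_lit 185002361144) (.two (nat_lit 4194304) (nat_lit 28772928215) .nil)),
   .two (nat_lit 272629764) (nat_lit 159224168477) (.two (nat_lit 41943043) (nat_lit 138412143) (.two (nat_lit 37748737) (nat_lit 1853882849) (.two (nat_lit 16777216) (nat_lit 874515106) .nil))),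
   .two (nat_lit 9934209028) (nat_lit 9948889106) (.two (nat_lit 83886083) (nat_lit 11543773226) (.two (nat_lit 16777217) (nat_lit 166130090727) (.one (nat_lit 2100199) .nil))),
   .two (nat_lit 28691136516) (nat_lit 16777259) (.two (nat_lit 16777217) (nat_lit 11544822548) (.one (nat_lit 16780890) .nil)),
   .two (nat_lit 606076932) (nat_lit 20644364302) (.two (nat_lit 41943043) (nat_lit 9934209077) (.two (nat_lit 41943041) (nat_lit 174688567645) (.two (nat_lit 8388608) (nat_lit 4196042) (.one (nat_lit 8391657) .nil)))),
   .two (nat_lit 183848927236) (nat_lit 10503585813) (.two (nat_lit 28757196803) (nat_lit 184419352614) (.two (nat_lit 9765388289) (nat_lit 12117344959) (.one (nat_lit 4197979) .nil))),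
   .two (nat_lit 4194308) (nat_lit 3525312520) (.two (nat_lit 4194306) (nat_lit 12048138338) (.two (nat_lit 4194305) (nat_lit 9900654904) (.two (nat_lit 8388608) (nat_lit 4027581576) (.one (nat_lit 1051630) .nil)))),
   .two (nat_lit 1343225860) (nat_lit 184419352596) (.two (nat_lit 34603011) (nat_lit 12117344299) (.two (nat_lit 16777217) (nat_lit 1175454897) (.one (nat_lit 4197359) .nil))),
   .two (nat_lit 156968681476) (nat_lit 46422556718) (.two (nat_lit 9765388289) (nat_lit 83886349) (.two (nat_lit 1048576) (nat_lit 184552364) .nil)),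
   .two (nat_lit 4194308) (nat_lit 10538188810) (.two (nat_lit 4194306) (nat_lit 203423829) (.two (nat_lit 4194305) (nat_lit 166230754487) (.one (nat_lit 2100828) .nil))),
   .two (nat_lit 276824068) (nat_lit 1795162183) (.two (nat_lit 16777217) (nat_lit 21214789816) (.two (nat_lit 8388608) (nat_lit 16779819) (.one (nat_lit 16780893) .nil))),
   .two (nat_lit 272629764) (nat_lit 236978186) (.two (nat_lit 2889875459) (nat_lit 156466413679) (.two (nat_lit 4194305) (nat_lit 2988441876) (.two (nat_lit 8388608) (nat_lit 37750023) (.one (nat_lit 4197360) .nil)))),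
   .two (nat_lit 4601151492) (nat_lit 183912890395) (.two (nat_lit 4194305) (nat_lit 166229705424) (.one (nat_lit 183845784422) .nil)),
   .two (nat_lit 10385096710) (nat_lit 75497499) (.two (nat_lit 16777217) (nat_lit 37253808847) (.one (nat_lit 8392287) .nil)),
   .two (nat_lit 11551113220) (nat_lit 12147752969) (.two (nat_lit 75497475) (nat_lit 11577327725) (.two (nat_lit 2097153) (nat_lit 1417675024) (.two (nat_lit 2097152) (nat_lit 4638901540) (.one (nat_lit 8392288) .nil)))),
   .two (nat_lit 9802088453) (nat_lit 174686470158) (.two (nat_lit 157038936067) (nat_lit 10907287731) (.two (nat_lit 1048576) (nat_lit 13222544078) (.one (nat_lit 2100220) .nil))),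
   .two (nat_lit 3558866950) (nat_lit 10385096742) (.two (nat_lit 2097153) (nat_lit 218104087) (.two (nat_lit 2097152) (nat_lit 16778961) (.one (nat_lit 16780898) .nil))),
   .two (nat_lit 75497476) (nat_lit 2953838604) (.two (nat_lit 713031682) (nat_lit 183946444850) (.two (nat_lit 34603009) (nat_lit 2424308867) (.one (nat_lit 8392291) .nil))),
   .two (nat_lit 2889875460) (nat_lit 28758245458) (.two (nat_lit 50331649) (nat_lit 809500740) (.two (nat_lit 16777216) (nat_lit 4028630290) (.one (nat_lit 2100228) .nil))),
   .two (nat_lit 11543773188) (nat_lit 21223178261) (.two (nat_lit 9948889091) (nat_lit 11543773210) (.two (nat_lit 9781116929) (nat_lit 839910550) (.one (nat_lit 1052261) .nil))),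
   .two (nat_lit 8388612) (nat_lit 3458203674) (.two (nat_lit 8388609) (nat_lit 183913939455) (.two (nat_lit 8388608) (nat_lit 2098899) (.one (nat_lit 2100231) .nil))),
   .two (nat_lit 2902458372) (nat_lit 46409973768) (.two (nat_lit 4601151491) (nat_lit 9948889376) (.two (nat_lit 4194304) (nat_lit 9948889793) (.one (nat_lit 16780902) .nil))),
   .two (nat_lit 4194308) (nat_lit 1847590920) (.two (nat_lit 166130089986) (nat_lit 809500996) (.two (nat_lit 1048576) (nat_lit 10940844877) .nil)),
   .two (nat_lit 203423750) (nat_lit 166132187177) (.two (nat_lit 2097153) (nat_lit 21781021113) (.one (nat_lit 11546920511) .nil)),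
   .two (nat_lit 272629764) (nat_lit 46508539914) (.two (nat_lit 2954887171) (nat_lit 28793897014) (.two (nat_lit 9766436865) (nat_lit 37316722873) (.two (nat_lit 4194304) (nat_lit 304090119) .nil))),
   .two (nat_lit 16777220) (nat_lit 183853121544) (.two (nat_lit 13195280387) (nat_lit 1358955264) (.one (nat_lit 157051520574) .nil)),
   .two (nat_lit 156535619590) (nat_lit 28758245419) (.two (nat_lit 41943041) (nat_lit 166132187423) (.two (nat_lit 2097152) (nat_lit 166132190065) .nil)),
   .two (nat_lit 306184197) (nat_lit 174753579018) (.two (nat_lit 10372513795) (nat_lit 1310720026) (.two (nat_lit 612368385) (nat_lit 13222544068) (.one (nat_lit 2100077) .nil))),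
   .two (nat_lit 184549380) (nat_lit 1384120332) (.two (nat_lit 9948889091) (nat_lit 20637024304) (.two (nat_lit 8388609) (nat_lit 28772926198) (.one (nat_lit 1052264) .nil))),
   .two (nat_lit 2902458372) (nat_lit 706740255) (.two (nat_lit 2969567235) (nat_lit 4028629063) (.two (nat_lit 37748737) (nat_lit 285212740) (.two (nat_lit 2097152) (nat_lit 16778967) (.one (nat_lit 2100242) .nil)))),
   .two (nat_lit 41943044) (nat_lit 185021235211) (.two (nat_lit 9765388291) (nat_lit 158144135243) (.two (nat_lit 8388609) (nat_lit 20738736402) (.two (nat_lit 1048576) (nat_lit 156539814659) (.one (nat_lit 1052265) .nil)))),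
   .two (nat_lit 46409973764) (nat_lit 158083317768) (.two (nat_lit 47550824451) (nat_lit 8388703) (.two (nat_lit 605028353) (nat_lit 183949590803) (.two (nat_lit 1048576) (nat_lit 13224641209) (.one (nat_lit 4197396) .nil)))),
   .two (nat_lit 4194308) (nat_lit 16777226) (.two (nat_lit 16777218) (nat_lit 21210595511) (.two (nat_lit 4194304) (nat_lit 135269189) .nil)),
   .two (nat_lit 4194308) (nat_lit 158083317787) (.two (nat_lit 4194305) (nat_lit 19537068217) (.two (nat_lit 1048576) (nat_lit 679478004) (.one (nat_lit 4197994) .nil))),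
   .two (nat_lit 2902458372) (nat_lit 2923429913) (.two (nat_lit 612368385) (nat_lit 166199296301) (.two (nat_lit 8388608) (nat_lit 19612566222) (.one (nat_lit 4197995) .nil))),
   .two (nat_lit 41943044) (nat_lit 11492392973) (.two (nat_lit 8388610) (nat_lit 352321592) (.two (nat_lit 16777217) (nat_lit 1954546056) (.two (nat_lit 4194304) (nat_lit 28705819549) .nil))),
   .two (nat_lit 2889875460) (nat_lit 165526110216) (.two (nat_lit 2889875458) (nat_lit 1310720273) (.two (nat_lit 8388608) (nat_lit 10370417885) (.one (nat_lit 4197996) .nil))),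
   .two (nat_lit 1745879044) (nat_lit 9934209036) (.two (nat_lit 806354947) (nat_lit 2936012864) (.two (nat_lit 34603009) (nat_lit 2432696693) (.two (nat_lit 1048576) (nat_lit 16778971) (.one (nat_lit 2100845) .nil)))),
   .two (nat_lit 3036676102) (nat_lit 9934209032) (.two (nat_lit 184549379) (nat_lit 37314625587) (.two (nat_lit 16777217) (nat_lit 159217877470) (.two (nat_lit 4194304) (nat_lit 1051342) .nil))),
   .two (nat_lit 9866051588) (nat_lit 158083317780) (.two (nat_lit 9933160451) (nat_lit 21785215019) (.two (nat_lit 16777217) (nat_lit 46406828773) (.one (nat_lit 8392302) .nil))),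
   .two (nat_lit 12054429700) (nat_lit 1914699804) (.two (nat_lit 4599054339) (nat_lit 276824112) (.two (nat_lit 34603009) (nat_lit 12148802853) (.one (nat_lit 2100847) .nil))),
   .two (nat_lit 1276116996) (nat_lit 1325400118) (.two (nat_lit 4194305) (nat_lit 12617515479) (.two (nat_lit 4194304) (nat_lit 10955525093) .nil)),
   .two (nat_lit 822083590) (nat_lit 20644364331) (.two (nat_lit 8388609) (nat_lit 159232557782) (.one (nat_lit 813697255) .nil)),
   .two (nat_lit 272629764) (nat_lit 16777229) (.two (nat_lit 16777219) (nat_lit 4634705946) (.two (nat_lit 16777217) (nat_lit 2956984648) (.two (nat_lit 16777216) (nat_lit 4195630) (.one (nat_lit 4198000) .nil)))),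
   .two (nat_lit 2902458372) (nat_lit 2923429913) (.two (nat_lit 612368385) (nat_lit 166199296301) (.two (nat_lit 8388608) (nat_lit 19612566222) (.one (nat_lit 47550828142) .nil))),
   .two (nat_lit 156968681476) (nat_lit 1358954539) (.two (nat_lit 605028353) (nat_lit 721420558) (.two (nat_lit 1048576) (nat_lit 16778543) (.one (nat_lit 16780913) .nil))),
   .two (nat_lit 169869316) (nat_lit 10506731528) (.two (nat_lit 2956984323) (nat_lit 1310720027) (.two (nat_lit 2097153) (nat_lit 608174547) (.two (nat_lit 1048576) (nat_lit 19027461321) (.one (nat_lit 4198002) .nil)))),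
   .two (nat_lit 156968681478) (nat_lit 2357198897) (.two (nat_lit 16777217) (nat_lit 159224168627) (.two (nat_lit 1048576) (nat_lit 8389937) (.one (nat_lit 1051694) .nil))),
   .two (nat_lit 13191086084) (nat_lit 12617515028) (.two (nat_lit 708837379) (nat_lit 183912890411) (.two (nat_lit 16777217) (nat_lit 156968681773) (.two (nat_lit 2097152) (nat_lit 2420115124) (.one (nat_lit 1052275) .nil)))),
   .two (nat_lit 11479810052) (nat_lit 28086108168) (.two (nat_lit 9768534019) (nat_lit 1376780315) (.two (nat_lit 612368385) (nat_lit 2953838984) (.two (nat_lit 1048576) (nat_lit 675283730) (.one (nat_lit 4198004) .nil)))),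
   .two (nat_lit 310378502) (nat_lit 721420315) (.two (nat_lit 8388609) (nat_lit 28705816914) (.two (nat_lit 8388608) (nat_lit 16778548) (.one (nat_lit 1052277) .nil))),
   .two (nat_lit 1947205637) (nat_lit 10907287595) (.two (nat_lit 8388609) (nat_lit 10437526003) (.two (nat_lit 8388608) (nat_lit 2350909093) (.one (nat_lit 2100275) .nil))),
   .two (nat_lit 721420292) (nat_lit 9934209034) (.two (nat_lit 169869314) (nat_lit 16777333) (.two (nat_lit 2097153) (nat_lit 4195915) (.two (nat_lit 4194304) (nat_lit 11492393704) (.one (nat_lit 4198006) .nil)))),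
   .two (nat_lit 3458203652) (nat_lit 1846542344) (.two (nat_lit 28757196803) (nat_lit 1310720180) (.two (nat_lit 2097152) (nat_lit 19026413236) (.one (nat_lit 37314628374) .nil))),
   .two (nat_lit 68157444) (nat_lit 11618222123) (.two (nat_lit 16777217) (nat_lit 101712155) (.two (nat_lit 4194304) (nat_lit 8390369) (.one (nat_lit 8391738) .nil))),
   .two (nat_lit 9866051588) (nat_lit 28693233684) (.two (nat_lit 1343225859) (nat_lit 47550824502) (.two (nat_lit 8388609) (nat_lit 20740833600) (.two (nat_lit 16777216) (nat_lit 11476665521) (.one (nat_lit 1052279) .nil)))),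
   .two (nat_lit 46414168068) (nat_lit 20637024309) (.two (nat_lit 612368385) (nat_lit 202375495) (.two (nat_lit 1048576) (nat_lit 8390370) (.one (nat_lit 8391380) .nil))),
   .two (nat_lit 4194308) (nat_lit 69206070) (.two (nat_lit 4194305) (nat_lit 184987681235) (.two (nat_lit 1048576) (nat_lit 71306041) .nil)),
   .two (nat_lit 3464495108) (nat_lit 21208498203) (.two (nat_lit 9765388289) (nat_lit 1176502453) (.two (nat_lit 1048576) (nat_lit 184987681905) (.one (nat_lit 158177693265) .nil))),
   .two (nat_lit 28093448196) (nat_lit 2969567240) (.two (nat_lit 184549378) (nat_lit 46414168137) (.two (nat_lit 612368385) (nat_lit 654311492) (.two (nat_lit 8388608) (nat_lit 1392509680) (.one (nat_lit 16780920) .nil)))),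
   .two (nat_lit 272629764) (nat_lit 18925748234) (.two (nat_lit 809500675) (nat_lit 11610882098) (.two (nat_lit 34603009) (nat_lit 158079123640) (.two (nat_lit 4194304) (nat_lit 1050340) (.one (nat_lit 1051708) .nil)))),
   .two (nat_lit 3028287494) (nat_lit 1191182346) (.two (nat_lit 176160771) (nat_lit 9781116969) (.two (nat_lit 50331649) (nat_lit 10343155920) .nil)),
   .two (nat_lit 117440516) (nat_lit 4027580531) (.two (nat_lit 34603009) (nat_lit 1426065768) .nil),
   .two (nat_lit 1212153862) (nat_lit 304087104) (.two (nat_lit 4194305) (nat_lit 1780482766) (.one (nat_lit 2100857) .nil)),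
   .two (nat_lit 46474985478) (nat_lit 847249424) (.two (nat_lit 47548727299) (nat_lit 156372041908) (.two (nat_lit 2097152) (nat_lit 19537069208) (.one (nat_lit 2100858) .nil))),
   .two (nat_lit 2889875460) (nat_lit 721420297) (.two (nat_lit 721420290) (nat_lit 28793897015) (.two (nat_lit 50331649) (nat_lit 46980399383) (.two (nat_lit 1048576) (nat_lit 4196072) (.one (nat_lit 4198011) .nil)))),
   .two (nat_lit 809500676) (nat_lit 185020186653) (.two (nat_lit 12114198531) (nat_lit 2923429932) (.two (nat_lit 16777217) (nat_lit 3524264243) (.two (nat_lit 16777216) (nat_lit 4195644) (.one (nat_lit 4198012) .nil)))),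
   .two (nat_lit 184986632196) (nat_lit 9881780298) (.two (nat_lit 34603009) (nat_lit 1358954771) (.two (nat_lit 1048576) (nat_lit 16778985) (.one (nat_lit 16780925) .nil))),
   .two (nat_lit 2887778308) (nat_lit 138412042) (.two (nat_lit 739246083) (nat_lit 12117344575) (.two (nat_lit 1048576) (nat_lit 2098922) (.one (nat_lit 19127077562) .nil))),
   .two (nat_lit 158075977732) (nat_lit 174686470187) (.two (nat_lit 605028353) (nat_lit 9867100886) (.one (nat_lit 1847593776) .nil)),
   .two (nat_lit 166132187140) (nat_lit 1847590937) (.two (nat_lit 2097153) (nat_lit 10540286133) (.two (nat_lit 2097152) (nat_lit 1950353054) (.one (nat_lit 4198014) .nil))),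
   .two (nat_lit 2961178628) (nat_lit 159251431467) (.two (nat_lit 9765388289) (nat_lit 10907289300) (.one (nat_lit 10370419770) .nil)),
   .two (nat_lit 9934209028) (nat_lit 10335813687) (.two (nat_lit 8388609) (nat_lit 19529728466) (.two (nat_lit 8388608) (nat_lit 1050348) (.one (nat_lit 8391754) .nil))),
   .two (nat_lit 41943044) (nat_lit 876609546) (.two (nat_lit 4194306) (nat_lit 2961178674) (.two (nat_lit 8388609) (nat_lit 4194827) (.two (nat_lit 16777216) (nat_lit 775947472) (.one (nat_lit 8391756) .nil)))),
   .two (nat_lit 203423748) (nat_lit 166129041425) (.two (nat_lit 16777218) (nat_lit 739246106) (.two (nat_lit 16777217) (nat_lit 269484426) (.two (nat_lit 2097152) (nat_lit 1050349) (.one (nat_lit 1052287) .nil)))),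
   .two (nat_lit 12054429700) (nat_lit 50331668) (.two (nat_lit 184549379) (nat_lit 28093448219) (.two (nat_lit 2097153) (nat_lit 10376708814) (.one (nat_lit 8392320) .nil))),
   .two (nat_lit 9934209028) (nat_lit 10343153701) (.two (nat_lit 2097153) (nat_lit 142607944) .nil),
   .two (nat_lit 12047089668) (nat_lit 28693233702) (.two (nat_lit 34603009) (nat_lit 184419352858) (.two (nat_lit 1048576) (nat_lit 3024094355) (.one (nat_lit 4198017) .nil))),
   .two (nat_lit 83886084) (nat_lit 1913651208) (.two (nat_lit 11476664322) (nat_lit 1795162815) (.one (nat_lit 4043310623) .nil)),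
   .two (nat_lit 8388612) (nat_lit 11010048010) (.two (nat_lit 8388610) (nat_lit 11010048038) (.two (nat_lit 4194305) (nat_lit 3028287769) (.two (nat_lit 4194304) (nat_lit 8389951) (.one (nat_lit 4198018) .nil)))),
   .two (nat_lit 620756998) (nat_lit 272629787) (.two (nat_lit 50331649) (nat_lit 13224641209) (.one (nat_lit 4198019) .nil)),
   .two (nat_lit 46409973764) (nat_lit 9933160460) (.two (nat_lit 19596836867) (nat_lit 1212153883) (.two (nat_lit 9765388289) (nat_lit 11546919097) (.two (nat_lit 4194304) (nat_lit 638585816) .nil))),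
   .two (nat_lit 713031684) (nat_lit 1862271005) (.two (nat_lit 285212675) (nat_lit 166237045472) (.one (nat_lit 855640970) .nil)),
   .two (nat_lit 10336862214) (nat_lit 46510637098) (.two (nat_lit 50331649) (nat_lit 306186623) .nil),
   .two (nat_lit 184986632196) (nat_lit 21208498184) (.two (nat_lit 705691650) (nat_lit 706740272) (.two (nat_lit 34603009) (nat_lit 35651987) (.two (nat_lit 1048576) (nat_lit 9934210743) (.one (nat_lit 1052293) .nil)))),
   .two (nat_lit 654311428) (nat_lit 11610882058) (.two (nat_lit 705691650) (nat_lit 1795162397) (.two (nat_lit 1048576) (nat_lit 16778993) (.one (nat_lit 1052294) .nil))),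
   .two (nat_lit 117440516) (nat_lit 166196150317) (.two (nat_lit 34603009) (nat_lit 1426064131) (.one (nat_lit 50334699) .nil)),
   .two (nat_lit 1175453700) (nat_lit 10506731528) (.two (nat_lit 605028355) (nat_lit 20644364332) (.two (nat_lit 4194305) (nat_lit 19604177246) (.two (nat_lit 4194304) (nat_lit 8391215) (.one (nat_lit 20644367429) .nil)))),
   .two (nat_lit 880803845) (nat_lit 158146232366) (.two (nat_lit 41943041) (nat_lit 37316723430) (.one (nat_lit 4196681) .nil)),
   .two (nat_lit 184549380) (nat_lit 166130089992) (.two (nat_lit 184549378) (nat_lit 19027460121) (.two (nat_lit 606076929) (nat_lit 2432696633) (.two (nat_lit 2097152) (nat_lit 16778994) (.one (nat_lit 2969570844) .nil)))),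
   .two (nat_lit 158176641030) (nat_lit 50331658) (.two (nat_lit 184549379) (nat_lit 183946444907) (.two (nat_lit 50331649) (nat_lit 11577327895) (.two (nat_lit 16777216) (nat_lit 1050355) (.one (nat_lit 1052295) .nil)))),
   .two (nat_lit 16777220) (nat_lit 158179786800) (.two (nat_lit 37748737) (nat_lit 28101836984) (.two (nat_lit 4194304) (nat_lit 16778996) (.one (nat_lit 4198024) .nil))),
   .two (nat_lit 41943044) (nat_lit 3527409672) (.two (nat_lit 8388610) (nat_lit 46980399148) (.two (nat_lit 4194305) (nat_lit 310379730) (.one (nat_lit 11614030514) .nil))),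
   .two (nat_lit 739246084) (nat_lit 1182793776) (.two (nat_lit 34603009) (nat_lit 109052217) (.two (nat_lit 1048576) (nat_lit 8389952) (.one (nat_lit 8392329) .nil))),
   .two (nat_lit 41943044) (nat_lit 1413480494) (.two (nat_lit 8388609) (nat_lit 18928895190) (.one (nat_lit 8392330) .nil)),
   .two (nat_lit 1753219076) (nat_lit 68157503) (.two (nat_lit 34603009) (nat_lit 2323644720) (.two (nat_lit 1048576) (nat_lit 8389955) (.one (nat_lit 8391767) .nil))),
   .two (nat_lit 4194308) (nat_lit 807403532) (.two (nat_lit 9934209027) (nat_lit 705691699) (.two (nat_lit 605028353) (nat_lit 47582282080) (.two (nat_lit 1048576) (nat_lit 156567077305) (.one (nat_lit 2100875) .nil)))),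
   .two (nat_lit 166132187142) (nat_lit 47563407413) (.two (nat_lit 4194305) (nat_lit 4613734581) (.two (nat_lit 4194304) (nat_lit 16779824) (.one (nat_lit 10385099842) .nil))),
   .two (nat_lit 2889875460) (nat_lit 9900654601) (.two (nat_lit 159217876995) (nat_lit 174688567352) (.two (nat_lit 9768534017) (nat_lit 1780482883) (.two (nat_lit 2097152) (nat_lit 10909385413) (.one (nat_lit 4198028) .nil)))),
   .two (nat_lit 2902458372) (nat_lit 46409973768) (.two (nat_lit 4601151491) (nat_lit 18941477620) (.one (nat_lit 16779637) .nil)),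
   .two (nat_lit 176160772) (nat_lit 843055114) (.two (nat_lit 4605345795) (nat_lit 1916796964) (.two (nat_lit 8388609) (nat_lit 11010048355) (.two (nat_lit 8388608) (nat_lit 4196086) (.one (nat_lit 4198029) .nil)))),
   .two (nat_lit 10370416644) (nat_lit 1846542344) (.two (nat_lit 1277165570) (nat_lit 11510219082) (.two (nat_lit 1048576) (nat_lit 2098935) (.one (nat_lit 1052302) .nil))),
   .two (nat_lit 11476664324) (nat_lit 28093448202) (.two (nat_lit 4599054339) (nat_lit 156372041767) (.two (nat_lit 2097153) (nat_lit 28697428261) (.two (nat_lit 2097152) (nat_lit 41945947) .nil))),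
   .two (nat_lit 11559501828) (nat_lit 158075977736) (.two (nat_lit 1343225859) (nat_lit 19530776629) (.two (nat_lit 9766436865) (nat_lit 10351543459) (.one (nat_lit 16780943) .nil))),
   .two (nat_lit 2988441606) (nat_lit 1749024821) (.two (nat_lit 2097153) (nat_lit 166232850615) (.two (nat_lit 2097152) (nat_lit 11513366178) (.one (nat_lit 306187330) .nil))),
   .two (nat_lit 739246084) (nat_lit 21214789641) (.two (nat_lit 612368387) (nat_lit 9765388352) (.two (nat_lit 34603009) (nat_lit 3028287764) (.two (nat_lit 1048576) (nat_lit 8390392) (.one (nat_lit 34605952) .nil)))),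
   .two (nat_lit 285212676) (nat_lit 339738633) (.two (nat_lit 4194306) (nat_lit 2365587516) (.two (nat_lit 8388609) (nat_lit 1749027073) .nil)),
   .two (nat_lit 1358954501) (nat_lit 343932955) (.two (nat_lit 16777217) (nat_lit 28697430209) .nil),
   .two (nat_lit 2889875460) (nat_lit 4605345816) (.two (nat_lit 4194305) (nat_lit 37320917707) (.one (nat_lit 8392336) .nil)),
   .two (nat_lit 713031684) (nat_lit 19529728018) (.two (nat_lit 16777218) (nat_lit 28697428697) (.one (nat_lit 605031397) .nil)),
   .two (nat_lit 3458203652) (nat_lit 12117344281) (.two (nat_lit 2097153) (nat_lit 47550824631) (.two (nat_lit 16777216) (nat_lit 157036840189) (.one (nat_lit 2100321) .nil))),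
   .two (nat_lit 9948889092) (nat_lit 1913651218) (.two (nat_lit 11543773187) (nat_lit 889192946) (.two (nat_lit 8388608) (nat_lit 3003123377) (.one (nat_lit 8391778) .nil))),
   .two (nat_lit 117440516) (nat_lit 9899606059) (.two (nat_lit 34603009) (nat_lit 3472885279) .nil),
   .two (nat_lit 41943044) (nat_lit 158646403082) (.two (nat_lit 638582787) (nat_lit 20738736153) (.two (nat_lit 156364701697) (nat_lit 203423924) (.two (nat_lit 2097152) (nat_lit 1050363) (.one (nat_lit 1052305) .nil)))),
   .two (nat_lit 8388612) (nat_lit 28086108168) (.two (nat_lit 13195280387) (nat_lit 2316304420) (.two (nat_lit 41943041) (nat_lit 336593217) (.two (nat_lit 8388608) (nat_lit 1050364) (.one (nat_lit 1052306) .nil)))),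
   .two (nat_lit 4601151492) (nat_lit 673185821) (.two (nat_lit 10504634371) (nat_lit 306184218) (.two (nat_lit 4194305) (nat_lit 1277166037) (.two (nat_lit 8388608) (nat_lit 21210596036) (.one (nat_lit 2100883) .nil)))),
   .two (nat_lit 68157444) (nat_lit 21214789642) (.two (nat_lit 705691650) (nat_lit 171966562) (.two (nat_lit 34603009) (nat_lit 1782580459) (.one (nat_lit 4198036) .nil))),
   .two (nat_lit 9867100164) (nat_lit 4605345835) (.two (nat_lit 8388609) (nat_lit 11611931401) (.one (nat_lit 8392341) .nil)),
   .two (nat_lit 612368388) (nat_lit 117440551) (.two (nat_lit 16777217) (nat_lit 21785215261) (.two (nat_lit 16777216) (nat_lit 8390398) (.one (nat_lit 8392342) .nil))),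
   .two (nat_lit 4194308) (nat_lit 83886088) (.two (nat_lit 605028355) (nat_lit 28806479928) (.two (nat_lit 34603009) (nat_lit 608174875) (.one (nat_lit 4197476) .nil))),
   .two (nat_lit 169869316) (nat_lit 2889875472) (.two (nat_lit 169869314) (nat_lit 1916797038) (.two (nat_lit 2097153) (nat_lit 10537140738) (.two (nat_lit 2097152) (nat_lit 1049925) (.one (nat_lit 2100887) .nil)))),
   .two (nat_lit 11479810052) (nat_lit 156365750280) (.two (nat_lit 16777218) (nat_lit 19096666436) (.two (nat_lit 16777216) (nat_lit 2921333906) (.one (nat_lit 2100888) .nil))),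
   .two (nat_lit 2954887172) (nat_lit 156548202507) (.two (nat_lit 4194306) (nat_lit 270532689) (.two (nat_lit 2097153) (nat_lit 11559502128) (.two (nat_lit 4194304) (nat_lit 2098944) (.one (nat_lit 156971830789) .nil)))),
   .two (nat_lit 236978182) (nat_lit 75497480) (.two (nat_lit 612368387) (nat_lit 3558866987) (.two (nat_lit 16777217) (nat_lit 13188991206) .nil)),
   .two (nat_lit 83886084) (nat_lit 10942939184) (.two (nat_lit 2097153) (nat_lit 46510637757) (.one (nat_lit 10921971512) .nil)),
   .two (nat_lit 176160772) (nat_lit 754974730) (.two (nat_lit 822083587) (nat_lit 166237045056) (.two (nat_lit 1048576) (nat_lit 1384123475) .nil)),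
   .two (nat_lit 721420294) (nat_lit 46414168072) (.two (nat_lit 184549379) (nat_lit 4605345819) (.two (nat_lit 8388609) (nat_lit 285212951) (.two (nat_lit 8388608) (nat_lit 16779011) (.one (nat_lit 8392345) .nil)))),
   .two (nat_lit 50331652) (nat_lit 156372041766) (.two (nat_lit 8388609) (nat_lit 11492393239) (.two (nat_lit 8388608) (nat_lit 117442307) (.one (nat_lit 158083319358) .nil))),
   .two (nat_lit 37314625542) (nat_lit 3527409690) (.two (nat_lit 50331649) (nat_lit 184989779510) .nil),
   .two (nat_lit 19093520389) (nat_lit 159217877000) (.two (nat_lit 20638072835) (nat_lit 156465365037) (.two (nat_lit 620756993) (nat_lit 9900655762) (.one (nat_lit 21208501060) .nil))),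
   .two (nat_lit 68157444) (nat_lit 10907287562) (.two (nat_lit 9933160451) (nat_lit 2988441638) (.two (nat_lit 4194305) (nat_lit 28758245698) (.two (nat_lit 4194304) (nat_lit 1176503961) (.one (nat_lit 4196825) .nil)))),
   .two (nat_lit 169869316) (nat_lit 159224168456) (.two (nat_lit 11543773187) (nat_lit 184993972543) (.two (nat_lit 1048576) (nat_lit 9934210693) (.one (nat_lit 1051756) .nil))),
   .two (nat_lit 12114198532) (nat_lit 4632608780) (.two (nat_lit 184416206851) (nat_lit 183947493427) (.two (nat_lit 620756993) (nat_lit 1779435884) .nil)),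
   .two (nat_lit 205520900) (nat_lit 2902458381) (.two (nat_lit 721420291) (nat_lit 37246468426) (.two (nat_lit 4194304) (nat_lit 352322672) (.one (nat_lit 16780954) .nil))),
   .two (nat_lit 10369368068) (nat_lit 165526110216) (.two (nat_lit 10336862211) (nat_lit 11610882096) (.two (nat_lit 606076929) (nat_lit 12114199875) (.one (nat_lit 12114201687) .nil))),
   .two (nat_lit 218103812) (nat_lit 10439622837) (.two (nat_lit 16777216) (nat_lit 4195654) (.one (nat_lit 4198043) .nil)),
   .two (nat_lit 2889875460) (nat_lit 46474985498) (.two (nat_lit 4194305) (nat_lit 46474985651) (.two (nat_lit 4194304) (nat_lit 1377829662) (.one (nat_lit 2100892) .nil))),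
   .two (nat_lit 2889875460) (nat_lit 740294668) (.two (nat_lit 169869314) (nat_lit 3527409690) (.two (nat_lit 2097153) (nat_lit 10506732216) (.one (nat_lit 2100893) .nil))),
   .two (nat_lit 2889875460) (nat_lit 184431935509) (.two (nat_lit 11559501827) (nat_lit 4634705988) (.two (nat_lit 16777216) (nat_lit 4634706614) (.one (nat_lit 4198046) .nil))),
   .two (nat_lit 47555018756) (nat_lit 185020186634) (.two (nat_lit 176160770) (nat_lit 9899606516) (.two (nat_lit 16777216) (nat_lit 3557821313) .nil)),
   .two (nat_lit 41943044) (nat_lit 2420113418) (.two (nat_lit 8388610) (nat_lit 9802088512) (.two (nat_lit 4194305) (nat_lit 13195280563) (.two (nat_lit 16777216) (nat_lit 8389960) (.one (nat_lit 8392351) .nil)))),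
   .two (nat_lit 1178599428) (nat_lit 156465365018) (.two (nat_lit 37748737) (nat_lit 135268584) .nil),
   .two (nat_lit 41943044) (nat_lit 157038936072) (.two (nat_lit 8388610) (nat_lit 166132187174) (.two (nat_lit 4194305) (nat_lit 11517560574) (.one (nat_lit 8391454) .nil))),
   .two (nat_lit 10506731524) (nat_lit 772800532) (.two (nat_lit 13187940355) (nat_lit 3527409843) (.two (nat_lit 2097152) (nat_lit 2889877739) .nil)),
   .two (nat_lit 50331652) (nat_lit 12147752986) (.two (nat_lit 16777217) (nat_lit 12147753139) (.two (nat_lit 16777216) (nat_lit 1049929) (.one (nat_lit 21777877460) .nil))),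
   .two (nat_lit 184993972228) (nat_lit 10336862216) (.two (nat_lit 713031682) (nat_lit 673185832) (.two (nat_lit 612368385) (nat_lit 11007951129) (.two (nat_lit 8388608) (nat_lit 2098506) (.one (nat_lit 8391796) .nil)))),
   .two (nat_lit 1343225860) (nat_lit 10942939146) (.two (nat_lit 1779433475) (nat_lit 9802088486) (.two (nat_lit 34603009) (nat_lit 2923430164) (.two (nat_lit 1048576) (nat_lit 4196103) (.one (nat_lit 4198048) .nil)))),
   .two (nat_lit 721420292) (nat_lit 9940500502) (.two (nat_lit 203423747) (nat_lit 2357198892) (.two (nat_lit 2097153) (nat_lit 28705817080) (.two (nat_lit 8388608) (nat_lit 16779016) (.one (nat_lit 16780961) .nil)))),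
   .two (nat_lit 184423546884) (nat_lit 3527409706) (.two (nat_lit 2097153) (nat_lit 10376709329) (.one (nat_lit 4197495) .nil)),
   .two (nat_lit 11479810052) (nat_lit 19127074997) (.two (nat_lit 4194304) (nat_lit 1309672774) (.one (nat_lit 1052322) .nil)),
   .two (nat_lit 203423748) (nat_lit 37249613840) (.two (nat_lit 2954887171) (nat_lit 1950351418) (.two (nat_lit 9768534017) (nat_lit 1377829049) (.two (nat_lit 4194304) (nat_lit 2317353668) (.one (nat_lit 2099675) .nil)))),
   .two (nat_lit 8388612) (nat_lit 156971827210) (.two (nat_lit 2889875458) (nat_lit 156372041766) (.two (nat_lit 4194305) (nat_lit 46414168340) (.two (nat_lit 4194304) (nat_lit 276825863) (.one (nat_lit 4197496) .nil)))),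
   .two (nat_lit 158143086596) (nat_lit 3558866957) (.two (nat_lit 203423747) (nat_lit 9866051651) (.two (nat_lit 2097153) (nat_lit 47581233619) (.two (nat_lit 16777216) (nat_lit 9966716594) (.one (nat_lit 1052323) .nil)))),
   .two (nat_lit 620756996) (nat_lit 2889875471) (.two (nat_lit 4194306) (nat_lit 3472883766) (.two (nat_lit 4194305) (nat_lit 183861511927) (.one (nat_lit 16780410) .nil))),
   .two (nat_lit 3024093190) (nat_lit 11559501832) (.two (nat_lit 171966467) (nat_lit 754974764) (.two (nat_lit 34603009) (nat_lit 2332035406) .nil)),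
   .two (nat_lit 156533522438) (nat_lit 1846542344) (.two (nat_lit 10504634371) (nat_lit 156465365034) (.two (nat_lit 9766436865) (nat_lit 34603749) (.one (nat_lit 1052324) .nil))),
   .two (nat_lit 174686470150) (nat_lit 2927624213) (.two (nat_lit 176160771) (nat_lit 174686470187) (.two (nat_lit 2097153) (nat_lit 13228835606) (.one (nat_lit 8391803) .nil))),
   .two (nat_lit 285212676) (nat_lit 3565158412) (.two (nat_lit 16777218) (nat_lit 1779433531) (.two (nat_lit 605028353) (nat_lit 20745027875) (.two (nat_lit 1048576) (nat_lit 8390412) (.one (nat_lit 1051101) .nil)))),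
   .two (nat_lit 46409973764) (nat_lit 19094568974) (.two (nat_lit 9934209027) (nat_lit 10942939195) (.two (nat_lit 41943041) (nat_lit 13191086148) (.two (nat_lit 8388608) (nat_lit 4195116) (.one (nat_lit 20705185434) .nil)))),
   .two (nat_lit 742391812) (nat_lit 158646403098) (.two (nat_lit 606076929) (nat_lit 11546919678) (.one (nat_lit 156367850331) .nil)),
   .two (nat_lit 3527409670) (nat_lit 21208498221) (.two (nat_lit 2097153) (nat_lit 1212154561) (.one (nat_lit 46510639529) .nil)),
   .two (nat_lit 21777874948) (nat_lit 166197198868) (.two (nat_lit 1343225859) (nat_lit 12115247208) (.two (nat_lit 605028353) (nat_lit 21208498461) (.two (nat_lit 1048576) (nat_lit 2098957) (.one (nat_lit 1052325) .nil)))),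
   .two (nat_lit 2954887172) (nat_lit 157038936074) (.two (nat_lit 4601151491) (nat_lit 156533522477) (.two (nat_lit 4194305) (nat_lit 10538189082) (.two (nat_lit 4194304) (nat_lit 2098509) (.one (nat_lit 775948985) .nil)))),
   .two (nat_lit 10385096708) (nat_lit 21777874995) (.two (nat_lit 34603009) (nat_lit 185027527006) (.two (nat_lit 16777216) (nat_lit 158150427390) (.one (nat_lit 8391807) .nil))),
   .two (nat_lit 183949590534) (nat_lit 1846542355) (.two (nat_lit 11479810051) (nat_lit 28690087992) (.two (nat_lit 9765388289) (nat_lit 19096667830) (.one (nat_lit 19029559734) .nil))),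
   .two (nat_lit 739246084) (nat_lit 18928893960) (.two (nat_lit 11476664322) (nat_lit 156367847451) (.two (nat_lit 37748737) (nat_lit 2316304669) (.two (nat_lit 4194304) (nat_lit 156465366333) (.one (nat_lit 1052326) .nil)))),
   .two (nat_lit 2961178628) (nat_lit 10940841994) (.two (nat_lit 176160771) (nat_lit 3458203733) (.two (nat_lit 34603009) (nat_lit 10510926158) (.two (nat_lit 1048576) (nat_lit 8390414) (.one (nat_lit 10000271798) .nil)))),
   .two (nat_lit 9766436868) (nat_lit 2902458381) (.two (nat_lit 184549379) (nat_lit 2317353007) (.two (nat_lit 41943041) (nat_lit 16778055) (.two (nat_lit 8388608) (nat_lit 2098959) (.one (nat_lit 16780967) .nil)))),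
   .two (nat_lit 1291845638) (nat_lit 174686470171) (.two (nat_lit 2097153) (nat_lit 117440692) (.two (nat_lit 2097152) (nat_lit 16778574) (.one (nat_lit 16780968) .nil))),
   .two (nat_lit 4194308) (nat_lit 20711473164) (.two (nat_lit 4194306) (nat_lit 1745879097) (.two (nat_lit 8388609) (nat_lit 174685422034) (.two (nat_lit 8388608) (nat_lit 705693386) (.one (nat_lit 243272526) .nil)))),
   .two (nat_lit 3525312516) (nat_lit 20644364301) (.two (nat_lit 8388611) (nat_lit 840958039) (.two (nat_lit 2097153) (nat_lit 28093448462) (.two (nat_lit 2097152) (nat_lit 12054431023) (.one (nat_lit 8392361) .nil)))),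
   .two (nat_lit 156465364998) (nat_lit 11559501867) (.two (nat_lit 34603009) (nat_lit 620759327) .nil),
   .two (nat_lit 176160772) (nat_lit 156466413577) (.two (nat_lit 21785214979) (nat_lit 37247516757) (.two (nat_lit 156365750273) (nat_lit 343932996) (.two (nat_lit 2097152) (nat_lit 4605347577) (.one (nat_lit 8392362) .nil)))),
   .two (nat_lit 13224640517) (nat_lit 28690087980) (.two (nat_lit 37748737) (nat_lit 10335813982) (.two (nat_lit 1048576) (nat_lit 10370417787) (.one (nat_lit 1052331) .nil))),
   .two (nat_lit 16777220) (nat_lit 184993972232) (.two (nat_lit 713031682) (nat_lit 12129927349) (.two (nat_lit 8388608) (nat_lit 19545458899) .nil)),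
   .two (nat_lit 276824068) (nat_lit 21781020684) (.two (nat_lit 2956984323) (nat_lit 13195280657) (.two (nat_lit 1048576) (nat_lit 13195281080) (.one (nat_lit 1051782) .nil))),
   .two (nat_lit 166130089988) (nat_lit 37316722804) (.two (nat_lit 4194305) (nat_lit 159266111837) (.two (nat_lit 4194304) (nat_lit 16779825) (.one (nat_lit 16780972) .nil))),
   .two (nat_lit 12047089668) (nat_lit 21781020723) (.two (nat_lit 9765388289) (nat_lit 10909384886) (.two (nat_lit 1048576) (nat_lit 4195664) (.one (nat_lit 4198061) .nil))),
   .two (nat_lit 203423748) (nat_lit 2416967694) (.two (nat_lit 2954887171) (nat_lit 183912890442) (.two (nat_lit 16777217) (nat_lit 336593659) (.one (nat_lit 2100910) .nil))),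
   .two (nat_lit 2902458372) (nat_lit 4601151515) (.two (nat_lit 8388609) (nat_lit 46409974200) (.one (nat_lit 16780426) .nil)),
   .two (nat_lit 276824068) (nat_lit 1795162183) (.two (nat_lit 16777217) (nat_lit 166203490486) (.two (nat_lit 8388608) (nat_lit 16779826) (.one (nat_lit 16780975) .nil))),
   .two (nat_lit 272629764) (nat_lit 1913651208) (.two (nat_lit 4194306) (nat_lit 19093520421) (.two (nat_lit 37748737) (nat_lit 19093520660) (.two (nat_lit 4194304) (nat_lit 19026413319) (.one (nat_lit 4197515) .nil)))),
   .two (nat_lit 169869316) (nat_lit 46414168072) (.two (nat_lit 169869314) (nat_lit 1786773550) (.two (nat_lit 606076929) (nat_lit 10335814373) (.one (nat_lit 46473939799) .nil))),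
   .two (nat_lit 4194308) (nat_lit 37247516728) (.two (nat_lit 41943041) (nat_lit 12620661223) (.two (nat_lit 1048576) (nat_lit 4196081) (.one (nat_lit 1052336) .nil))),
   .two (nat_lit 1178599428) (nat_lit 2317353141) (.two (nat_lit 4194304) (nat_lit 3525313286) (.one (nat_lit 2100913) .nil)),
   .two (nat_lit 10385096708) (nat_lit 612368564) (.two (nat_lit 1048576) (nat_lit 8390420) (.one (nat_lit 8392370) .nil)),
   .two (nat_lit 142606342) (nat_lit 20638072840) (.two (nat_lit 1753219075) (nat_lit 159217877036) (.two (nat_lit 612368385) (nat_lit 2099462) .nil)),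
   .two (nat_lit 285212676) (nat_lit 11513364500) (.two (nat_lit 2902458370) (nat_lit 9934209131) (.two (nat_lit 37748737) (nat_lit 1325400425) (.two (nat_lit 4194304) (nat_lit 16779029) (.one (nat_lit 2100915) .nil)))),
   .two (nat_lit 612368388) (nat_lit 9934209120) (.two (nat_lit 8388609) (nat_lit 37314625715) (.two (nat_lit 2097152) (nat_lit 8390422) (.one (nat_lit 8392372) .nil))),
   .two (nat_lit 1178599428) (nat_lit 184416206892) (.two (nat_lit 37748737) (nat_lit 4027582127) (.one (nat_lit 1052341) .nil)),
   .two (nat_lit 46407876612) (nat_lit 157043130421) (.two (nat_lit 2097153) (nat_lit 47555019135) (.two (nat_lit 2097152) (nat_lit 8389970) (.one (nat_lit 2100918) .nil))),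
   .two (nat_lit 50331652) (nat_lit 9934209032) (.two (nat_lit 16777218) (nat_lit 2418016302) (.two (nat_lit 16777217) (nat_lit 11544822073) (.two (nat_lit 16777216) (nat_lit 2098516) (.one (nat_lit 2100919) .nil)))),
   .two (nat_lit 18933088262) (nat_lit 10955522234) (.two (nat_lit 4194304) (nat_lit 16777913) (.one (nat_lit 16780435) .nil)),
   .two (nat_lit 16777220) (nat_lit 183949590707) (.two (nat_lit 16777216) (nat_lit 165528208079) (.one (nat_lit 4197525) .nil)),
   .two (nat_lit 713031684) (nat_lit 156465365001) (.two (nat_lit 713031682) (nat_lit 183912890443) (.two (nat_lit 41943041) (nat_lit 739246545) (.two (nat_lit 1048576) (nat_lit 156539814642) (.one (nat_lit 8391830) .nil)))),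
   .two (nat_lit 47555018756) (nat_lit 165525061642) (.two (nat_lit 10343153667) (nat_lit 10503585983) (.two (nat_lit 612368385) (nat_lit 2316304905) (.two (nat_lit 8388608) (nat_lit 1050392) (.one (nat_lit 47588575489) .nil)))),
   .two (nat_lit 4194308) (nat_lit 156969730071) (.two (nat_lit 8388610) (nat_lit 20707278946) (.two (nat_lit 4194305) (nat_lit 159257723651) (.one (nat_lit 2100920) .nil))),
   .two (nat_lit 4194308) (nat_lit 184549384) (.two (nat_lit 28089253891) (nat_lit 1376780315) (.two (nat_lit 37748737) (nat_lit 2886729910) (.two (nat_lit 4194304) (nat_lit 1050393) (.one (nat_lit 4198073) .nil)))),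
   .two (nat_lit 2889875460) (nat_lit 157035790349) (.two (nat_lit 16777218) (nat_lit 1276117018) (.two (nat_lit 50331649) (nat_lit 9969861968) (.one (nat_lit 9969864365) .nil))),
   .two (nat_lit 4194308) (nat_lit 46978301960) (.two (nat_lit 4194306) (nat_lit 19596837044) (.two (nat_lit 2097152) (nat_lit 4631561484) (.one (nat_lit 1052346) .nil))),
   .two (nat_lit 1862270982) (nat_lit 306184218) (.two (nat_lit 41943041) (nat_lit 1279263429) (.one (nat_lit 16780987) .nil)),
   .two (nat_lit 2889875460) (nat_lit 12114198555) (.two (nat_lit 4194305) (nat_lit 9933160738) (.two (nat_lit 4194304) (nat_lit 1779434246) (.one (nat_lit 1051801) .nil))),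
   .two (nat_lit 19532873732) (nat_lit 21223178422) (.two (nat_lit 4194304) (nat_lit 156548203282) (.one (nat_lit 16780988) .nil)),
   .two (nat_lit 272629764) (nat_lit 19127074826) (.two (nat_lit 9768534019) (nat_lit 159250383039) (.two (nat_lit 37748737) (nat_lit 19093520905) (.two (nat_lit 16777216) (nat_lit 4196609) .nil))),
   .two (nat_lit 75497476) (nat_lit 174686470189) (.two (nat_lit 612368385) (nat_lit 10940842266) (.two (nat_lit 1048576) (nat_lit 166130091287) (.one (nat_lit 8391839) .nil))),
   .two (nat_lit 11479810052) (nat_lit 10369368122) (.two (nat_lit 34603009) (nat_lit 10909385423) (.one (nat_lit 9933163421) .nil)),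
   .two (nat_lit 3458203652) (nat_lit 1920991260) (.two (nat_lit 4605345795) (nat_lit 807403568) (.two (nat_lit 8388609) (nat_lit 12115248329) (.one (nat_lit 37247519510) .nil))),
   .two (nat_lit 10336862212) (nat_lit 880803883) (.two (nat_lit 41943041) (nat_lit 46474985752) (.two (nat_lit 8388608) (nat_lit 46474986171) (.one (nat_lit 2100925) .nil))),
   .two (nat_lit 4194308) (nat_lit 16777226) (.two (nat_lit 4194306) (nat_lit 2349858855) (.two (nat_lit 37748737) (nat_lit 1276118684) (.one (nat_lit 1276119894) .nil))),
   .two (nat_lit 8388612) (nat_lit 21777874952) (.two (nat_lit 2954887171) (nat_lit 1175453799) (.two (nat_lit 9766436865) (nat_lit 839909687) (.two (nat_lit 1048576) (nat_lit 270533815) (.one (nat_lit 1052350) .nil)))),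
   .two (nat_lit 1178599428) (nat_lit 28690087962) (.two (nat_lit 37748737) (nat_lit 10000269494) (.two (nat_lit 4194304) (nat_lit 1049943) (.one (nat_lit 1052351) .nil))),
   .two (nat_lit 2988441605) (nat_lit 1178599432) (.two (nat_lit 9768534019) (nat_lit 2988441672) (.two (nat_lit 2097153) (nat_lit 775946421) (.two (nat_lit 4194304) (nat_lit 3021997358) (.one (nat_lit 608176602) .nil)))),
   .two (nat_lit 11543773188) (nat_lit 10540286040) (.two (nat_lit 9768534017) (nat_lit 156364702872) (.one (nat_lit 1052353) .nil)),
   .two (nat_lit 9866051588) (nat_lit 158653743114) (.two (nat_lit 1343225859) (nat_lit 645922917) (.two (nat_lit 605028353) (nat_lit 156976021686) (.two (nat_lit 1048576) (nat_lit 19100861783) (.one (nat_lit 202377579) .nil)))),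
   .two (nat_lit 50331654) (nat_lit 10370416667) (.two (nat_lit 50331649) (nat_lit 159251431604) (.two (nat_lit 16777216) (nat_lit 159251432121) (.one (nat_lit 2100388) .nil))),
   .two (nat_lit 754974724) (nat_lit 183912890411) (.two (nat_lit 34603009) (nat_lit 47563408110) (.one (nat_lit 2886732214) .nil)),
   .two (nat_lit 21207449604) (nat_lit 3558866985) (.two (nat_lit 606076929) (nat_lit 165525062390) (.one (nat_lit 1051813) .nil)),
   .two (nat_lit 822083588) (nat_lit 203423770) (.two (nat_lit 16777217) (nat_lit 166230753549) (.two (nat_lit 16777216) (nat_lit 2098521) (.one (nat_lit 2100390) .nil))),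
   .two (nat_lit 2969567236) (nat_lit 18926796864) (.two (nat_lit 2097153) (nat_lit 184549657) (.two (nat_lit 2097152) (nat_lit 156984411815) (.one (nat_lit 4613736627) .nil))),
   .two (nat_lit 166130089988) (nat_lit 28693233672) (.two (nat_lit 10506731523) (nat_lit 1210057079) (.two (nat_lit 4194304) (nat_lit 1411384513) (.one (nat_lit 2100392) .nil))),
   .two (nat_lit 8388612) (nat_lit 19597885625) (.two (nat_lit 8388608) (nat_lit 203424535) (.one (nat_lit 2100394) .nil)),
   .two (nat_lit 46980399108) (nat_lit 236978219) (.two (nat_lit 620756993) (nat_lit 10504634867) (.two (nat_lit 16777216) (nat_lit 639633031) (.one (nat_lit 2100932) .nil))),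
   .two (nat_lit 2954887172) (nat_lit 13237223444) (.two (nat_lit 721420291) (nat_lit 10538188838) (.two (nat_lit 16777217) (nat_lit 46474986173) (.one (nat_lit 2100933) .nil))),
   .two (nat_lit 721420292) (nat_lit 2954887176) (.two (nat_lit 50331651) (nat_lit 19530776628) (.two (nat_lit 50331649) (nat_lit 28087157066) (.two (nat_lit 16777216) (nat_lit 13222544114) (.one (nat_lit 16780801) .nil)))),
   .two (nat_lit 612368390) (nat_lit 772800555) (.two (nat_lit 41943041) (nat_lit 185020186911) (.two (nat_lit 4194304) (nat_lit 68160478) .nil)),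
   .two (nat_lit 10336862214) (nat_lit 46510637098) (.two (nat_lit 50331649) (nat_lit 608175678) .nil),
   .two (nat_lit 68157444) (nat_lit 721420308) (.two (nat_lit 620756995) (nat_lit 3524263982) (.two (nat_lit 50331649) (nat_lit 9933160629) (.two (nat_lit 4194304) (nat_lit 9934210304) (.one (nat_lit 2100935) .nil)))),
   .two (nat_lit 1178599428) (nat_lit 185020186633) (.two (nat_lit 12047089667) (nat_lit 11479810074) (.two (nat_lit 34603009) (nat_lit 4634705988) (.two (nat_lit 1048576) (nat_lit 9768534827) (.one (nat_lit 4198088) .nil)))),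
   .two (nat_lit 3527409668) (nat_lit 10552868876) (.two (nat_lit 2889875458) (nat_lit 28772925488) (.two (nat_lit 156365750273) (nat_lit 775946965) (.one (nat_lit 4197555) .nil))),
   .two (nat_lit 75497476) (nat_lit 184986632218) (.two (nat_lit 41943041) (nat_lit 3557818669) (.two (nat_lit 16777216) (nat_lit 1051417) .nil)),
   .two (nat_lit 2954887172) (nat_lit 19532873745) (.two (nat_lit 169869314) (nat_lit 1849688123) (.two (nat_lit 50331649) (nat_lit 184417256157) (.one (nat_lit 2100404) .nil))),
   .two (nat_lit 10552868870) (nat_lit 9899606026) (.two (nat_lit 184993972227) (nat_lit 873464146) (.two (nat_lit 8388608) (nat_lit 2886730436) (.one (nat_lit 1052361) .nil))),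
   .two (nat_lit 822083588) (nat_lit 158083317768) (.two (nat_lit 16777218) (nat_lit 21785215003) (.two (nat_lit 34603009) (nat_lit 174768260284) (.one (nat_lit 8392394) .nil))),
   .two (nat_lit 37246468102) (nat_lit 11022631098) (.two (nat_lit 1048576) (nat_lit 50332902) (.one (nat_lit 16779753) .nil)),
   .two (nat_lit 620756996) (nat_lit 1178599451) (.two (nat_lit 16777217) (nat_lit 4634707124) (.one (nat_lit 4198091) .nil)),
   .two (nat_lit 46409973764) (nat_lit 20737687583) (.two (nat_lit 176160771) (nat_lit 19529728185) (.two (nat_lit 4194304) (nat_lit 638584090) (.one (nat_lit 1052364) .nil))),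
   .two (nat_lit 1276116996) (nat_lit 10538188840) (.two (nat_lit 4194305) (nat_lit 1344275658) (.one (nat_lit 1052365) .nil)),
   .two (nat_lit 169869316) (nat_lit 156971827208) (.two (nat_lit 705691650) (nat_lit 1277165631) (.two (nat_lit 605028353) (nat_lit 46508540274) (.two (nat_lit 2097152) (nat_lit 1049949) (.one (nat_lit 1052366) .nil)))),
   .two (nat_lit 166196150277) (nat_lit 822083592) (.two (nat_lit 184549379) (nat_lit 10000269366) (.two (nat_lit 50331649) (nat_lit 166129042686) (.one (nat_lit 9915336850) .nil))),
   .two (nat_lit 183848927236) (nat_lit 12147753003) (.two (nat_lit 37748737) (nat_lit 183845781685) (.two (nat_lit 4194304) (nat_lit 1049950) (.one (nat_lit 4198095) .nil))),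
   .two (nat_lit 639631364) (nat_lit 10506731547) (.two (nat_lit 2097153) (nat_lit 3527409844) (.two (nat_lit 2097152) (nat_lit 4195679) (.one (nat_lit 4198096) .nil))),
   .two (nat_lit 272629764) (nat_lit 10504634406) (.two (nat_lit 4194305) (nat_lit 10538189159) (.two (nat_lit 8388608) (nat_lit 4196918) (.one (nat_lit 813697395) .nil))),
   .two (nat_lit 2954887172) (nat_lit 813695026) (.two (nat_lit 2097153) (nat_lit 9873391944) (.two (nat_lit 2097152) (nat_lit 183953786525) (.one (nat_lit 2100000) .nil))),
   .two (nat_lit 16777220) (nat_lit 13224640530) (.two (nat_lit 16777218) (nat_lit 184419352648) (.two (nat_lit 37748737) (nat_lit 46992982197) (.two (nat_lit 4194304) (nat_lit 9915335837) (.one (nat_lit 4198098) .nil)))),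
   .two (nat_lit 2954887172) (nat_lit 11492392968) (.two (nat_lit 11492392962) (nat_lit 19128123441) (.two (nat_lit 9781116929) (nat_lit 12115248329) (.one (nat_lit 2100409) .nil))),
   .two (nat_lit 176160772) (nat_lit 158192369674) (.two (nat_lit 9765388291) (nat_lit 10338959417) (.two (nat_lit 50331649) (nat_lit 19033752324) (.one (nat_lit 2420116590) .nil))),
   .two (nat_lit 16777220) (nat_lit 12054429739) (.two (nat_lit 41943041) (nat_lit 47563408504) (.one (nat_lit 1426065541) .nil)),
   .two (nat_lit 606076932) (nat_lit 19026411530) (.two (nat_lit 806354947) (nat_lit 13224640539) (.two (nat_lit 2097153) (nat_lit 174755676346) (.two (nat_lit 2097152) (nat_lit 2990540115) (.one (nat_lit 1052371) .nil)))),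
   .two (nat_lit 205520900) (nat_lit 19033751600) (.two (nat_lit 4194305) (nat_lit 75497817) (.two (nat_lit 1048576) (nat_lit 9902752512) (.one (nat_lit 8392404) .nil))),
   .two (nat_lit 2887778308) (nat_lit 3539992585) (.two (nat_lit 16777219) (nat_lit 13188989022) (.two (nat_lit 2097153) (nat_lit 4598006115) (.two (nat_lit 16777216) (nat_lit 874513664) (.one (nat_lit 2100949) .nil)))),
   .two (nat_lit 11479810052) (nat_lit 157036838920) (.two (nat_lit 11479810050) (nat_lit 174686470188) (.two (nat_lit 9768534017) (nat_lit 185021237495) .nil)),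
   .two (nat_lit 8388612) (nat_lit 12129927225) (.two (nat_lit 606076929) (nat_lit 20644364592) (.two (nat_lit 2097152) (nat_lit 16779048) (.one (nat_lit 2100950) .nil))),
   .two (nat_lit 41943044) (nat_lit 1749024776) (.two (nat_lit 8388610) (nat_lit 809500729) (.two (nat_lit 50331649) (nat_lit 11546920677) (.one (nat_lit 4197892) .nil))),
   .two (nat_lit 50331652) (nat_lit 639631368) (.two (nat_lit 16777219) (nat_lit 28758245419) (.two (nat_lit 16777217) (nat_lit 46474986813) (.one (nat_lit 2100951) .nil))),
   .two (nat_lit 10538188806) (nat_lit 46507491376) (.two (nat_lit 606076929) (nat_lit 156364701878) (.two (nat_lit 2097152) (nat_lit 1049953) (.one (nat_lit 1052376) .nil))),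
   .two (nat_lit 12047089668) (nat_lit 159224168485) (.two (nat_lit 16777217) (nat_lit 19537068332) (.two (nat_lit 16777216) (nat_lit 8390441) (.one (nat_lit 16780480) .nil))),
   .two (nat_lit 218103812) (nat_lit 12148801548) (.two (nat_lit 169869314) (nat_lit 1426063658) (.two (nat_lit 2097152) (nat_lit 16779050) (.one (nat_lit 16781018) .nil))),
   .two (nat_lit 169869316) (nat_lit 157038936072) (.two (nat_lit 4194306) (nat_lit 12047089720) (.two (nat_lit 2097153) (nat_lit 839909670) (.two (nat_lit 2097152) (nat_lit 1849689273) (.one (nat_lit 4197569) .nil)))),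
   .two (nat_lit 8388612) (nat_lit 1358954504) (.two (nat_lit 8388610) (nat_lit 11525947446) (.two (nat_lit 41943041) (nat_lit 28705818359) (.one (nat_lit 8392411) .nil))),
   .two (nat_lit 4194308) (nat_lit 3525312520) (.two (nat_lit 4194306) (nat_lit 12114198554) (.two (nat_lit 37748737) (nat_lit 183912890636) (.two (nat_lit 1048576) (nat_lit 2099767) (.one (nat_lit 1411385779) .nil)))),
   .two (nat_lit 1276116996) (nat_lit 1291845645) (.two (nat_lit 171966467) (nat_lit 11525947446) (.two (nat_lit 37748737) (nat_lit 10385097052) (.two (nat_lit 16777216) (nat_lit 4196139) (.one (nat_lit 16780053) .nil)))),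
   .two (nat_lit 739246084) (nat_lit 156466413578) (.two (nat_lit 11543773187) (nat_lit 28691136565) (.two (nat_lit 9765388289) (nat_lit 2097993) (.two (nat_lit 1048576) (nat_lit 11578377559) (.one (nat_lit 166230756490) .nil)))),
   .two (nat_lit 11559501828) (nat_lit 9934209039) (.two (nat_lit 721420290) (nat_lit 28791799861) (.two (nat_lit 50331649) (nat_lit 47548728433) (.one (nat_lit 158077028541) .nil))),
   .two (nat_lit 176160772) (nat_lit 18928893962) (.two (nat_lit 8388611) (nat_lit 19127074913) (.two (nat_lit 8388609) (nat_lit 166229705195) (.two (nat_lit 8388608) (nat_lit 16779053) (.one (nat_lit 8392413) .nil)))),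
   .two (nat_lit 1291845636) (nat_lit 46978301962) (.two (nat_lit 4599054339) (nat_lit 20753416218) (.two (nat_lit 34603009) (nat_lit 9881782546) .nil)),
   .two (nat_lit 47555018756) (nat_lit 158144135176) (.two (nat_lit 21208498179) (nat_lit 1417675036) (.two (nat_lit 2097152) (nat_lit 1417675452) (.one (nat_lit 75500317) .nil))),
   .two (nat_lit 13195280388) (nat_lit 159217877000) (.two (nat_lit 4605345795) (nat_lit 9967763501) (.two (nat_lit 8388609) (nat_lit 1746928787) (.one (nat_lit 2100958) .nil))),
   .two (nat_lit 166196150278) (nat_lit 12117344280) (.two (nat_lit 9765388289) (nat_lit 156971828018) .nil),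
   .two (nat_lit 46409973764) (nat_lit 847249429) (.two (nat_lit 184993972227) (nat_lit 9802088516) (.two (nat_lit 8388608) (nat_lit 843058289) .nil)),
   .two (nat_lit 880803846) (nat_lit 9881780232) (.two (nat_lit 41943043) (nat_lit 117440539) (.two (nat_lit 605028353) (nat_lit 1182796006) .nil)),
   .two (nat_lit 276824068) (nat_lit 306184218) (.two (nat_lit 8388609) (nat_lit 2990539503) (.one (nat_lit 1052383) .nil)),
   .two (nat_lit 37748740) (nat_lit 183946444850) (.two (nat_lit 2097153) (nat_lit 28086108505) (.two (nat_lit 2097152) (nat_lit 1050415) (.one (nat_lit 2418018628) .nil))),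
   .two (nat_lit 9766436868) (nat_lit 20637024265) (.two (nat_lit 13195280387) (nat_lit 10537140284) (.two (nat_lit 41943041) (nat_lit 158075978519) (.one (nat_lit 1052384) .nil))),
   .two (nat_lit 754974724) (nat_lit 9934209051) (.two (nat_lit 50331649) (nat_lit 9900654773) (.two (nat_lit 16777216) (nat_lit 807406466) .nil)),
   .two (nat_lit 10369368068) (nat_lit 46474985516) (.two (nat_lit 8388609) (nat_lit 20738737374) (.one (nat_lit 2100961) .nil)),
   .two (nat_lit 8388612) (nat_lit 10015997973) (.two (nat_lit 721420290) (nat_lit 3028288306) .nil),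
   .two (nat_lit 50331652) (nat_lit 46414168072) (.two (nat_lit 8388611) (nat_lit 1929380154) (.two (nat_lit 8388608) (nat_lit 16779058) (.one (nat_lit 16781026) .nil))),
   .two (nat_lit 2889875460) (nat_lit 2317352970) (.two (nat_lit 9934209027) (nat_lit 157038936132) (.two (nat_lit 2097152) (nat_lit 3527410357) (.one (nat_lit 4198115) .nil))),
   .two (nat_lit 9940500484) (nat_lit 1291845642) (.two (nat_lit 176160770) (nat_lit 9869197502) (.two (nat_lit 8388609) (nat_lit 4030726615) (.two (nat_lit 8388608) (nat_lit 4197106) .nil))),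
   .two (nat_lit 11543773188) (nat_lit 276824114) (.two (nat_lit 34603009) (nat_lit 780140911) (.two (nat_lit 1048576) (nat_lit 1283458851) (.one (nat_lit 8391878) .nil))),
   .two (nat_lit 37748740) (nat_lit 1291845640) (.two (nat_lit 9948889091) (nat_lit 158177689657) (.two (nat_lit 2097153) (nat_lit 4194653) (.two (nat_lit 16777216) (nat_lit 157036839637) (.one (nat_lit 46510640862) .nil)))),
   .two (nat_lit 754974724) (nat_lit 19596836885) (.two (nat_lit 174752530435) (nat_lit 117440550) (.two (nat_lit 9765388289) (nat_lit 721420989) (.one (nat_lit 16780488) .nil))),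
   .two (nat_lit 739246084) (nat_lit 174753579016) (.two (nat_lit 1913651203) (nat_lit 174753579044) (.two (nat_lit 9765388289) (nat_lit 807403861) (.two (nat_lit 1048576) (nat_lit 9967765234) (.one (nat_lit 2100425) .nil)))),
   .two (nat_lit 183853121540) (nat_lit 21207449619) (.two (nat_lit 41943043) (nat_lit 158075977784) (.two (nat_lit 605028353) (nat_lit 276825337) (.one (nat_lit 8392420) .nil))),
   .two (nat_lit 713031684) (nat_lit 158646403092) (.two (nat_lit 34603011) (nat_lit 10007609371) (.two (nat_lit 2097153) (nat_lit 10942939465) (.two (nat_lit 1048576) (nat_lit 46414169240) (.one (nat_lit 4198117) .nil)))),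
   .two (nat_lit 1913651204) (nat_lit 352321567) (.two (nat_lit 11559501827) (nat_lit 183912890393) (.two (nat_lit 605028353) (nat_lit 19545458388) (.one (nat_lit 16781030) .nil))),
   .two (nat_lit 2902458372) (nat_lit 203423782) (.two (nat_lit 16777217) (nat_lit 21778923926) (.two (nat_lit 1048576) (nat_lit 166197200615) (.one (nat_lit 2100967) .nil))),
   .two (nat_lit 11543773188) (nat_lit 47555018777) (.two (nat_lit 34603009) (nat_lit 174759870866) (.two (nat_lit 1048576) (nat_lit 243271394) (.one (nat_lit 1051852) .nil))),
   .two (nat_lit 158143086596) (nat_lit 156468510746) (.two (nat_lit 605028353) (nat_lit 171966647) (.two (nat_lit 1048576) (nat_lit 3527410936) (.one (nat_lit 4198120) .nil))),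
   .two (nat_lit 8388612) (nat_lit 11559501832) (.two (nat_lit 176160771) (nat_lit 69206070) (.two (nat_lit 2097153) (nat_lit 156372042875) (.one (nat_lit 2100969) .nil))),
   .two (nat_lit 8388612) (nat_lit 21778923535) (.two (nat_lit 8388610) (nat_lit 150995031) (.two (nat_lit 16777217) (nat_lit 2357199159) (.two (nat_lit 2097152) (nat_lit 8390453) (.one (nat_lit 16781034) .nil)))),
   .two (nat_lit 2902458372) (nat_lit 46409973768) (.two (nat_lit 4601151491) (nat_lit 2902458547) (.two (nat_lit 4194304) (nat_lit 10452206879) (.one (nat_lit 16780496) .nil))),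
   .two (nat_lit 713031684) (nat_lit 9982443530) (.two (nat_lit 184549378) (nat_lit 174692761783) (.two (nat_lit 16777216) (nat_lit 156539815255) (.one (nat_lit 8392427) .nil))),
   .two (nat_lit 272629764) (nat_lit 873463819) (.two (nat_lit 13191086083) (nat_lit 28790751268) (.two (nat_lit 37748737) (nat_lit 336593217) (.two (nat_lit 1048576) (nat_lit 4196150) (.one (nat_lit 21777878217) .nil)))),
   .two (nat_lit 218103812) (nat_lit 174753579018) (.two (nat_lit 3458203651) (nat_lit 218103833) (.two (nat_lit 2097153) (nat_lit 2902459709) (.one (nat_lit 16781036) .nil))),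
   .two (nat_lit 639631364) (nat_lit 20644364296) (.two (nat_lit 158150426627) (nat_lit 156969730098) (.two (nat_lit 2097153) (nat_lit 1417674931) (.two (nat_lit 2097152) (nat_lit 4034921603) (.one (nat_lit 8392429) .nil)))),
   .two (nat_lit 169869316) (nat_lit 19532873738) (.two (nat_lit 4599054339) (nat_lit 1212153895) (.two (nat_lit 34603009) (nat_lit 21210596544) (.one (nat_lit 4198126) .nil))),
   .two (nat_lit 41943044) (nat_lit 11543773207) (.two (nat_lit 705691650) (nat_lit 46481277239) (.two (nat_lit 4194304) (nat_lit 8390457) (.one (nat_lit 1052399) .nil))),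
   .two (nat_lit 176160772) (nat_lit 183845781512) (.two (nat_lit 4599054339) (nat_lit 183920230582) (.two (nat_lit 2097152) (nat_lit 1417677934) .nil)),
   .two (nat_lit 713031684) (nat_lit 10939793428) (.two (nat_lit 713031682) (nat_lit 13187940406) (.two (nat_lit 41943041) (nat_lit 20737688379) (.two (nat_lit 1048576) (nat_lit 28697428684) (.one (nat_lit 1051732) .nil)))),
   .two (nat_lit 1277165572) (nat_lit 184416206856) (.two (nat_lit 183845781506) (nat_lit 2097346) (.two (nat_lit 156364701697) (nat_lit 10504635602) (.one (nat_lit 2100976) .nil))),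
   .two (nat_lit 620756996) (nat_lit 809500680) (.two (nat_lit 218103811) (nat_lit 19130220619) (.two (nat_lit 16777217) (nat_lit 19130220818) (.two (nat_lit 8388608) (nat_lit 18941479622) .nil))),
   .two (nat_lit 1276116996) (nat_lit 156365750280) (.two (nat_lit 16777218) (nat_lit 185020186960) (.two (nat_lit 4194304) (nat_lit 9900655729) (.one (nat_lit 2100977) .nil))),
   .two (nat_lit 2961178628) (nat_lit 174768259126) (.two (nat_lit 2097153) (nat_lit 8389450) (.two (nat_lit 1048576) (nat_lit 16779066) (.one (nat_lit 1051864) .nil))),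
   .two (nat_lit 612368388) (nat_lit 13191086088) (.two (nat_lit 176160771) (nat_lit 2923429965) (.two (nat_lit 8388609) (nat_lit 1379926329) (.two (nat_lit 8388608) (nat_lit 4196155) (.one (nat_lit 4198130) .nil)))),
   .two (nat_lit 117440518) (nat_lit 4634705946) (.two (nat_lit 620756993) (nat_lit 13224640952) (.one (nat_lit 12150900282) .nil)),
   .two (nat_lit 1947205637) (nat_lit 3525312531) (.two (nat_lit 28757196803) (nat_lit 20738736203) (.two (nat_lit 16777217) (nat_lit 101713055) (.one (nat_lit 2100442) .nil))),
   .two (nat_lit 606076932) (nat_lit 3464495112) (.two (nat_lit 69206019) (nat_lit 37253808182) (.two (nat_lit 37748737) (nat_lit 8389451) (.two (nat_lit 4194304) (nat_lit 639632567) (.one (nat_lit 2100979) .nil)))),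
   .two (nat_lit 285212676) (nat_lit 34603049) (.two (nat_lit 50331649) (nat_lit 19128123697) (.two (nat_lit 16777216) (nat_lit 1050428) (.one (nat_lit 16780507) .nil))),
   .two (nat_lit 2902458372) (nat_lit 3558866964) (.two (nat_lit 2954887171) (nat_lit 28101836846) (.two (nat_lit 620756993) (nat_lit 158646403840) (.one (nat_lit 20704136144) .nil))),
   .two (nat_lit 28086108168) (nat_lit 1847590938) (.two (nat_lit 20637024258) (nat_lit 10940842423) (.two (nat_lit 1048576) (nat_lit 337643042) (.one (nat_lit 2100635) .nil))),
   .two (nat_lit 156971827208) (nat_lit 37313576987) (.two (nat_lit 19596836867) (nat_lit 19532874167) (.two (nat_lit 1048576) (nat_lit 2889878774) .nil)),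
   .two (nat_lit 2969567240) (nat_lit 142606380) (.two (nat_lit 184549378) (nat_lit 1920991533) (.two (nat_lit 16777217) (nat_lit 37749478) (.two (nat_lit 4194304) (nat_lit 713034997) .nil))),
   .two (nat_lit 285212680) (nat_lit 1753219080) (.two (nat_lit 16777220) (nat_lit 3565158446) (.two (nat_lit 156372041731) (nat_lit 117441209) (.two (nat_lit 8388608) (nat_lit 9781118483) (.one (nat_lit 46992985376) .nil)))),
   .two (nat_lit 158075977736) (nat_lit 158144135212) (.two (nat_lit 21207449603) (nat_lit 1310720439) (.two (nat_lit 1048576) (nat_lit 102762014) (.one (nat_lit 2101363) .nil))),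
   .two (nat_lit 3525312520) (nat_lit 12117344280) (.two (nat_lit 166132187138) (nat_lit 236978461) (.two (nat_lit 9768534017) (nat_lit 2954889349) (.one (nat_lit 205524728) .nil))),
   .two (nat_lit 184549384) (nat_lit 10506731528) (.two (nat_lit 641728516) (nat_lit 184549555) (.two (nat_lit 620756993) (nat_lit 9802089594) (.two (nat_lit 4194304) (nat_lit 2969569486) (.one (nat_lit 4198516) .nil)))),
   .two (nat_lit 16777224) (nat_lit 1913651208) (.two (nat_lit 721420292) (nat_lit 19596837187) (.two (nat_lit 8388609) (nat_lit 705693223) (.one (nat_lit 1052789) .nil))),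
   .two (nat_lit 272629768) (nat_lit 2418016300) (.two (nat_lit 9934209027) (nat_lit 18928894278) (.two (nat_lit 50331649) (nat_lit 9799991737) (.two (nat_lit 16777216) (nat_lit 10504636555) (.one (nat_lit 2101366) .nil)))),
   .two (nat_lit 10370416648) (nat_lit 156971827208) (.two (nat_lit 205520900) (nat_lit 11611930672) (.two (nat_lit 639631363) (nat_lit 10540286133) (.two (nat_lit 605028353) (nat_lit 1914701351) (.one (nat_lit 2101367) .nil)))),
   .two (nat_lit 11492392968) (nat_lit 1310720045) (.two (nat_lit 9934209027) (nat_lit 754975159) (.two (nat_lit 2097152) (nat_lit 251659802) (.one (nat_lit 9881783597) .nil))),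
   .two (nat_lit 47582281737) (nat_lit 13228834872) (.two (nat_lit 176160771) (nat_lit 136315215) (.two (nat_lit 8388609) (nat_lit 46507492052) (.two (nat_lit 8388608) (nat_lit 1050930) (.one (nat_lit 310381796) .nil)))),
   .two (nat_lit 83886088) (nat_lit 184423546928) (.two (nat_lit 9781116931) (nat_lit 608174521) (.two (nat_lit 4194304) (nat_lit 184431938834) .nil)),
   .two (nat_lit 1291845641) (nat_lit 239075339) (.two (nat_lit 809500676) (nat_lit 2323644456) (.two (nat_lit 4194306) (nat_lit 16777567) (.two (nat_lit 8388609) (nat_lit 156380431906) (.one (nat_lit 4198520) .nil)))),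
   .two (nat_lit 2902458376) (nat_lit 21811429389) (.two (nat_lit 46414168068) (nat_lit 46507491511) (.two (nat_lit 605028353) (nat_lit 185035916007) (.two (nat_lit 8388608) (nat_lit 772802713) (.one (nat_lit 8392825) .nil)))),
   .two (nat_lit 276824072) (nat_lit 2902458381) (.two (nat_lit 28691136516) (nat_lit 9765388345) (.two (nat_lit 184549379) (nat_lit 10335814350) (.two (nat_lit 1048576) (nat_lit 9948891362) (.one (nat_lit 142610257) .nil)))),
   .two (nat_lit 9881780232) (nat_lit 19596836872) (.two (nat_lit 19596836868) (nat_lit 1358954523) (.two (nat_lit 183845781506) (nat_lit 165540791004) (.two (nat_lit 1048576) (nat_lit 20652754477) (.one (nat_lit 855642694) .nil)))),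
   .two (nat_lit 46978301960) (nat_lit 306184235) (.two (nat_lit 3527409667) (nat_lit 236978615) (.two (nat_lit 4194304) (nat_lit 1948255770) (.one (nat_lit 2100650) .nil))),
   .two (nat_lit 46414168072) (nat_lit 28086108168) (.two (nat_lit 46414168068) (nat_lit 166129041456) (.two (nat_lit 4605345795) (nat_lit 1048975) (.two (nat_lit 4194305) (nat_lit 11610882761) (.two (nat_lit 4194304) (nat_lit 638586115) .nil)))),
   .two (nat_lit 184549384) (nat_lit 272629768) (.two (nat_lit 272629764) (nat_lit 184549401) (.two (nat_lit 16777219) (nat_lit 306184371) (.two (nat_lit 16777217) (nat_lit 158179787468) (.two (nat_lit 16777216) (nat_lit 4197118) (.one (nat_lit 12129929716) .nil))))),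
   .two (nat_lit 83886088) (nat_lit 47582281738) (.two (nat_lit 1291845636) (nat_lit 47548727320) (.two (nat_lit 169869314) (nat_lit 9814672120) (.two (nat_lit 2097152) (nat_lit 16779573) (.one (nat_lit 174701152756) .nil)))),
   .two (nat_lit 184986632200) (nat_lit 12117344282) (.two (nat_lit 12047089667) (nat_lit 12117344435) (.two (nat_lit 34603009) (nat_lit 174688569496) (.one (nat_lit 11510222653) .nil))),
   .two (nat_lit 11479810056) (nat_lit 10504634376) (.two (nat_lit 2887778308) (nat_lit 183949590554) (.two (nat_lit 809500675) (nat_lit 1948254525) (.two (nat_lit 34603009) (nat_lit 46407877349) (.two (nat_lit 1048576) (nat_lit 270534803) (.one (nat_lit 4198523) .nil))))),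
   .two (nat_lit 2969567241) (nat_lit 47582281742) (.two (nat_lit 620756996) (nat_lit 9967763531) (.two (nat_lit 184549378) (nat_lit 9967763636) (.two (nat_lit 2097153) (nat_lit 3003122431) (.two (nat_lit 2097152) (nat_lit 4647291107) (.one (nat_lit 2100652) .nil))))),
   .two (nat_lit 9781116936) (nat_lit 19532873755) (.two (nat_lit 3527409667) (nat_lit 654311603) (.two (nat_lit 9766436865) (nat_lit 1346373146) (.one (nat_lit 4198525) .nil))),
   .two (nat_lit 285212680) (nat_lit 2927624211) (.two (nat_lit 16777220) (nat_lit 18933088283) (.two (nat_lit 50331651) (nat_lit 746586297) (.two (nat_lit 8388609) (nat_lit 1191183029) (.two (nat_lit 4194304) (nat_lit 1350567448) (.one (nat_lit 16781438) .nil))))),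
   .two (nat_lit 654311432) (nat_lit 673185829) (.two (nat_lit 3458203651) (nat_lit 9881780926) (.two (nat_lit 2097152) (nat_lit 9881783571) .nil)),
   .two (nat_lit 3525312520) (nat_lit 9881780267) (.two (nat_lit 620756995) (nat_lit 156533522820) (.two (nat_lit 620756993) (nat_lit 10001318602) (.two (nat_lit 2097152) (nat_lit 3036678339) (.one (nat_lit 16781439) .nil)))),
   .two (nat_lit 20644364296) (nat_lit 165525061642) (.two (nat_lit 21207449604) (nat_lit 9940500546) (.two (nat_lit 1753219075) (nat_lit 1049087) (.two (nat_lit 605028353) (nat_lit 11618224367) (.one (nat_lit 8392832) .nil)))),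
   .two (nat_lit 46978301960) (nat_lit 4634705929) (.two (nat_lit 4601151492) (nat_lit 46978302276) (.two (nat_lit 4194305) (nat_lit 10538189506) (.two (nat_lit 16777216) (nat_lit 1212157184) .nil))),
   .two (nat_lit 46978301960) (nat_lit 12117344297) (.two (nat_lit 3525312515) (nat_lit 158146232635) (.two (nat_lit 2097153) (nat_lit 12150899935) (.two (nat_lit 2097152) (nat_lit 4601154204) (.one (nat_lit 4198529) .nil)))),
   .two (nat_lit 9768534024) (nat_lit 13195280392) (.two (nat_lit 10506731524) (nat_lit 880803880) (.two (nat_lit 3527409667) (nat_lit 880804121) (.two (nat_lit 4194305) (nat_lit 158653743842) (.two (nat_lit 4194304) (nat_lit 8391425) (.one (nat_lit 8392834) .nil))))),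
   .two (nat_lit 654311432) (nat_lit 156466413616) (.two (nat_lit 270532611) (nat_lit 11559502109) (.two (nat_lit 34603009) (nat_lit 1795163304) (.two (nat_lit 2097152) (nat_lit 16779574) (.one (nat_lit 202379101) .nil)))),
   .two (nat_lit 3527409672) (nat_lit 174753579016) (.two (nat_lit 174753579012) (nat_lit 3527409688) (.two (nat_lit 10940841987) (nat_lit 166132187954) (.one (nat_lit 4197808) .nil))),
   .two (nat_lit 11492392968) (nat_lit 157038936105) (.two (nat_lit 157038936067) (nat_lit 285212960) (.two (nat_lit 9768534017) (nat_lit 16777913) (.two (nat_lit 4194304) (nat_lit 50335060) .nil))),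
   .two (nat_lit 159224168456) (nat_lit 19596836872) (.two (nat_lit 166132187140) (nat_lit 158075977779) (.two (nat_lit 183845781506) (nat_lit 9873391797) (.two (nat_lit 34603009) (nat_lit 847250647) (.two (nat_lit 4194304) (nat_lit 746588371) (.one (nat_lit 8392835) .nil))))),
   .two (nat_lit 101711880) (nat_lit 158079123504) (.two (nat_lit 11476664322) (nat_lit 876610244) (.two (nat_lit 1048576) (nat_lit 156971829453) (.one (nat_lit 4198532) .nil))),
   .two (nat_lit 2889875464) (nat_lit 2936012854) (.two (nat_lit 620756995) (nat_lit 156569174195) (.two (nat_lit 50331649) (nat_lit 239076930) (.one (nat_lit 4197809) .nil))),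
   .two (nat_lit 16777224) (nat_lit 19599982600) (.two (nat_lit 166245433350) (nat_lit 183848927258) (.two (nat_lit 16777218) (nat_lit 1212154035) (.two (nat_lit 37748737) (nat_lit 156548203224) (.two (nat_lit 8388608) (nat_lit 742393395) (.one (nat_lit 4198533) .nil))))),
   .two (nat_lit 9781116936) (nat_lit 3464495119) (.two (nat_lit 2961178628) (nat_lit 117440580) (.two (nat_lit 9765388289) (nat_lit 276824505) (.two (nat_lit 1048576) (nat_lit 16779575) (.one (nat_lit 135270936) .nil)))),
   .two (nat_lit 184549384) (nat_lit 158144135176) (.two (nat_lit 184549380) (nat_lit 13188988974) (.two (nat_lit 1277165570) (nat_lit 21223179009) (.two (nat_lit 2097152) (nat_lit 21814577319) (.one (nat_lit 4198534) .nil)))),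
   .two (nat_lit 184549384) (nat_lit 4605345816) (.two (nat_lit 8388610) (nat_lit 16777549) (.two (nat_lit 8388609) (nat_lit 889193593) (.two (nat_lit 8388608) (nat_lit 251660568) (.one (nat_lit 813698368) .nil)))),
   .two (nat_lit 1343225864) (nat_lit 28693233672) (.two (nat_lit 184986632196) (nat_lit 166132187176) (.two (nat_lit 184416206851) (nat_lit 156569174455) (.two (nat_lit 1048576) (nat_lit 675284512) (.one (nat_lit 4198535) .nil)))),
   .two (nat_lit 9781116936) (nat_lit 156971827250) (.two (nat_lit 2889875458) (nat_lit 1786773686) (.two (nat_lit 4194305) (nat_lit 16778902) (.two (nat_lit 4194304) (nat_lit 16780034) (.one (nat_lit 16781448) .nil)))),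
   .two (nat_lit 156372041736) (nat_lit 184419352602) (.two (nat_lit 183848927234) (nat_lit 1786774264) (.two (nat_lit 4194304) (nat_lit 21785217333) (.one (nat_lit 12624859151) .nil))),
   .two (nat_lit 10939793416) (nat_lit 12129927275) (.two (nat_lit 166129041410) (nat_lit 83886367) (.two (nat_lit 9765388289) (nat_lit 9948890646) (.one (nat_lit 16780723) .nil))),
   .two (nat_lit 1916796936) (nat_lit 20704133129) (.two (nat_lit 1779433476) (nat_lit 28693233708) (.two (nat_lit 101711875) (nat_lit 156971827488) (.two (nat_lit 605028353) (nat_lit 159253529332) (.two (nat_lit 1048576) (nat_lit 1849690404) (.one (nat_lit 185020189952) .nil))))),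
   .two (nat_lit 11492392968) (nat_lit 276824074) (.two (nat_lit 8388612) (nat_lit 11492392986) (.two (nat_lit 822083587) (nat_lit 8389008) (.two (nat_lit 50331649) (nat_lit 109052703) (.two (nat_lit 16777216) (nat_lit 28764538403) (.one (nat_lit 8392117) .nil))))),
   .two (nat_lit 612368392) (nat_lit 10940841992) (.two (nat_lit 47555018756) (nat_lit 28758245403) (.two (nat_lit 174753579011) (nat_lit 159224168887) (.two (nat_lit 2097152) (nat_lit 12054433111) .nil))),
   .two (nat_lit 2889875464) (nat_lit 9866051636) (.two (nat_lit 2889875458) (nat_lit 772800691) (.two (nat_lit 9768534017) (nat_lit 20637025858) (.one (nat_lit 2316308288) .nil))),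
   .two (nat_lit 21785214984) (nat_lit 185020186644) (.two (nat_lit 739246086) (nat_lit 158083317801) (.two (nat_lit 34603011) (nat_lit 1417675191) (.two (nat_lit 1048576) (nat_lit 166136383005) (.one (nat_lit 773852508) .nil)))),
   .two (nat_lit 16777224) (nat_lit 12117344264) (.two (nat_lit 11479810052) (nat_lit 2365587638) (.two (nat_lit 9768534017) (nat_lit 1392511164) (.one (nat_lit 16781450) .nil))),
   .two (nat_lit 620757000) (nat_lit 12054429704) (.two (nat_lit 12054429700) (nat_lit 158146232369) (.two (nat_lit 183853121538) (nat_lit 171967207) (.two (nat_lit 8388608) (nat_lit 339740854) (.one (nat_lit 4198539) .nil)))),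
   .two (nat_lit 174753579016) (nat_lit 47555018795) (.two (nat_lit 20638072834) (nat_lit 46414168351) (.two (nat_lit 606076929) (nat_lit 1417677087) (.one (nat_lit 8392844) .nil))),
   .two (nat_lit 822083592) (nat_lit 157038936072) (.two (nat_lit 16777220) (nat_lit 843055168) (.two (nat_lit 708837379) (nat_lit 117441209) (.two (nat_lit 2097152) (nat_lit 10955524251) (.one (nat_lit 2101389) .nil)))),
   .two (nat_lit 4601151496) (nat_lit 46514831456) (.two (nat_lit 4194306) (nat_lit 11584668021) (.two (nat_lit 8388609) (nat_lit 157038936761) (.two (nat_lit 1048576) (nat_lit 158649551003) (.one (nat_lit 8392846) .nil)))),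
   .two (nat_lit 272629768) (nat_lit 10385096731) (.two (nat_lit 2902458370) (nat_lit 10506731960) (.two (nat_lit 16777216) (nat_lit 3527411920) (.one (nat_lit 4198543) .nil))),
   .two (nat_lit 1178599432) (nat_lit 1795162151) (.two (nat_lit 218103811) (nat_lit 47550824630) (.two (nat_lit 16777217) (nat_lit 183848929573) (.one (nat_lit 12633247629) .nil))),
   .two (nat_lit 20638072840) (nat_lit 47596961801) (.two (nat_lit 4613734404) (nat_lit 11513364505) (.two (nat_lit 809500675) (nat_lit 352321604) (.two (nat_lit 16777217) (nat_lit 13222544078) (.two (nat_lit 1048576) (nat_lit 47582283296) (.one (nat_lit 2100662) .nil))))),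
   .two (nat_lit 158144135176) (nat_lit 165532401674) (.two (nat_lit 158144135172) (nat_lit 156573368366) (.two (nat_lit 21208498179) (nat_lit 156573368503) (.two (nat_lit 606076929) (nat_lit 10510926535) (.two (nat_lit 16777216) (nat_lit 10504637769) .nil)))),
   .two (nat_lit 37748744) (nat_lit 19529728016) (.two (nat_lit 606076932) (nat_lit 20737687591) (.two (nat_lit 176160771) (nat_lit 174685421751) (.two (nat_lit 8388609) (nat_lit 10537142544) (.one (nat_lit 8392849) .nil)))),
   .two (nat_lit 9866051592) (nat_lit 1291845695) (.two (nat_lit 1358954499) (nat_lit 9798943161) (.two (nat_lit 16777216) (nat_lit 11510220336) (.one (nat_lit 1052818) .nil))),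
   .two (nat_lit 11479810056) (nat_lit 158143086600) (.two (nat_lit 158143086596) (nat_lit 3024093233) (.two (nat_lit 21207449603) (nat_lit 183949590707) (.two (nat_lit 605028353) (nat_lit 28693234844) (.two (nat_lit 1048576) (nat_lit 205522498) (.one (nat_lit 4198547) .nil))))),
   .two (nat_lit 46978301960) (nat_lit 19599982600) (.two (nat_lit 19599982596) (nat_lit 46474985513) (.two (nat_lit 156971827203) (nat_lit 156533522720) (.two (nat_lit 156367847425) (nat_lit 10538189506) (.two (nat_lit 4194304) (nat_lit 47582284033) (.one (nat_lit 174755679527) .nil))))),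
   .two (nat_lit 2887778312) (nat_lit 12117344292) (.two (nat_lit 705691650) (nat_lit 159253529068) (.two (nat_lit 4194305) (nat_lit 839910623) (.two (nat_lit 1048576) (nat_lit 46407878831) (.one (nat_lit 605031764) .nil)))),
   .two (nat_lit 9934209032) (nat_lit 2353004607) (.two (nat_lit 20638072835) (nat_lit 11479810396) (.two (nat_lit 2097153) (nat_lit 306185010) (.one (nat_lit 4198548) .nil))),
   .two (nat_lit 50331656) (nat_lit 1182793790) (.two (nat_lit 8388610) (nat_lit 156481093927) (.two (nat_lit 41943041) (nat_lit 9899608323) (.one (nat_lit 839913429) .nil))),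
   .two (nat_lit 9934209032) (nat_lit 4647288842) (.two (nat_lit 9867100164) (nat_lit 10906239033) (.two (nat_lit 16777218) (nat_lit 2954887236) (.two (nat_lit 16777217) (nat_lit 12618564313) (.two (nat_lit 4194304) (nat_lit 2099972) (.one (nat_lit 1052821) .nil))))),
   .two (nat_lit 16777224) (nat_lit 158144135176) (.two (nat_lit 158144135172) (nat_lit 16777256) (.two (nat_lit 1277165570) (nat_lit 16777655) (.two (nat_lit 2097152) (nat_lit 2365589021) (.one (nat_lit 2887781603) .nil)))),
   .two (nat_lit 37748744) (nat_lit 343932948) (.two (nat_lit 1276116996) (nat_lit 166130090089) (.two (nat_lit 806354947) (nat_lit 2319450298) (.two (nat_lit 2097153) (nat_lit 10003416722) (.two (nat_lit 4194304) (nat_lit 2920285727) (.one (nat_lit 2101398) .nil))))),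
   .two (nat_lit 8388616) (nat_lit 2969567252) (.two (nat_lit 19529728004) (nat_lit 10007609387) (.two (nat_lit 218103811) (nat_lit 183920230709) (.two (nat_lit 16777217) (nat_lit 1283458630) (.one (nat_lit 8391189) .nil)))),
   .two (nat_lit 12114198536) (nat_lit 10385096747) (.two (nat_lit 11476664322) (nat_lit 2902458655) (.two (nat_lit 9765388289) (nat_lit 11593056982) (.two (nat_lit 1048576) (nat_lit 16779581) (.one (nat_lit 166129045463) .nil)))),
   .two (nat_lit 272629768) (nat_lit 21785214984) (.two (nat_lit 37249613830) (nat_lit 612368411) (.two (nat_lit 13191086083) (nat_lit 19537068214) (.two (nat_lit 41943041) (nat_lit 675283672) (.two (nat_lit 16777216) (nat_lit 184423548467) (.one (nat_lit 8392855) .nil))))),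
   .two (nat_lit 285212680) (nat_lit 2923429897) (.two (nat_lit 46980399108) (nat_lit 9781116996) (.two (nat_lit 4194305) (nat_lit 285214228) (.one (nat_lit 1950354780) .nil))),
   .two (nat_lit 50331656) (nat_lit 3464495169) (.two (nat_lit 8388610) (nat_lit 10921967910) (.two (nat_lit 606076929) (nat_lit 28772926162) (.two (nat_lit 16777216) (nat_lit 19597888263) (.one (nat_lit 16781464) .nil)))),
   .two (nat_lit 16777224) (nat_lit 10504634376) (.two (nat_lit 184549380) (nat_lit 156567076929) (.two (nat_lit 184549378) (nat_lit 11007950916) (.two (nat_lit 620756993) (nat_lit 1344275144) (.two (nat_lit 16777216) (nat_lit 2099978) (.one (nat_lit 2101402) .nil))))),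
   .two (nat_lit 620757000) (nat_lit 1753219080) (.two (nat_lit 620756996) (nat_lit 19537068141) (.two (nat_lit 46414168067) (nat_lit 1358955194) (.two (nat_lit 8388608) (nat_lit 1358956052) (.one (nat_lit 16781263) .nil)))),
   .two (nat_lit 8388616) (nat_lit 37249613887) (.two (nat_lit 184549378) (nat_lit 46481277663) (.two (nat_lit 4194304) (nat_lit 10443819137) (.one (nat_lit 809504575) .nil))),
   .two (nat_lit 18933088264) (nat_lit 83886123) (.two (nat_lit 12054429699) (nat_lit 16777501) (.two (nat_lit 41943041) (nat_lit 11525948961) (.one (nat_lit 10519317776) .nil))),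
   .two (nat_lit 205520904) (nat_lit 11511267340) (.two (nat_lit 169869316) (nat_lit 46477082650) (.two (nat_lit 2097155) (nat_lit 2319450297) (.two (nat_lit 2097153) (nat_lit 2353005686) (.two (nat_lit 4194304) (nat_lit 37246470344) (.one (nat_lit 156566031723) .nil))))),
   .two (nat_lit 2969567240) (nat_lit 46474985492) (.two (nat_lit 1291845636) (nat_lit 11577327680) (.two (nat_lit 270532611) (nat_lit 218104502) (.two (nat_lit 2097152) (nat_lit 9915336247) (.one (nat_lit 1052829) .nil)))),
   .two (nat_lit 276824072) (nat_lit 11010048012) (.two (nat_lit 742391812) (nat_lit 2987393070) (.two (nat_lit 2097155) (nat_lit 3531604690) (.two (nat_lit 1048576) (nat_lit 10538191026) (.one (nat_lit 1052090) .nil)))),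
   .two (nat_lit 16777224) (nat_lit 3464495112) (.two (nat_lit 11492392964) (nat_lit 10436476953) (.two (nat_lit 2894069763) (nat_lit 158192370001) (.two (nat_lit 34603009) (nat_lit 813697246) (.one (nat_lit 806358379) .nil)))),
   .two (nat_lit 10504634376) (nat_lit 2332033036) (.two (nat_lit 203423748) (nat_lit 285212698) (.two (nat_lit 2902458371) (nat_lit 11007951028) (.two (nat_lit 16777217) (nat_lit 102761196) (.two (nat_lit 8388608) (nat_lit 4043312407) .nil)))),
   .two (nat_lit 41943048) (nat_lit 21777874952) (.two (nat_lit 21777874948) (nat_lit 343932967) (.two (nat_lit 184993972227) (nat_lit 158176641727) (.two (nat_lit 8388608) (nat_lit 9866053915) (.one (nat_lit 11476668568) .nil)))),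
   .two (nat_lit 184549384) (nat_lit 19027460105) (.two (nat_lit 620756996) (nat_lit 11007950892) (.two (nat_lit 184549378) (nat_lit 4028629280) (.two (nat_lit 16777217) (nat_lit 184987681524) (.two (nat_lit 2097152) (nat_lit 16778034) (.one (nat_lit 16781472) .nil))))),
   .two (nat_lit 9940500488) (nat_lit 2969567291) (.two (nat_lit 16777219) (nat_lit 28693233845) (.two (nat_lit 16777217) (nat_lit 183853122308) (.two (nat_lit 8388608) (nat_lit 184551556) (.one (nat_lit 10338963262) .nil)))),
   .two (nat_lit 721420296) (nat_lit 19026411530) (.two (nat_lit 11559501828) (nat_lit 2416967724) (.two (nat_lit 28757196803) (nat_lit 822083853) (.two (nat_lit 9765388289) (nat_lit 822085140) (.one (nat_lit 638586227) .nil)))),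
   .two (nat_lit 21785214986) (nat_lit 1929379857) (.two (nat_lit 75497476) (nat_lit 11022630966) (.two (nat_lit 3458203651) (nat_lit 1753219395) (.two (nat_lit 9781116929) (nat_lit 10913579733) (.two (nat_lit 16777216) (nat_lit 9940503286) (.one (nat_lit 46992985426) .nil))))),
   .two (nat_lit 75497480) (nat_lit 11543773205) (.two (nat_lit 713031684) (nat_lit 166196150317) (.two (nat_lit 713031682) (nat_lit 158176641312) (.two (nat_lit 34603009) (nat_lit 2424308426) (.two (nat_lit 1048576) (nat_lit 21818771722) (.one (nat_lit 8392865) .nil))))),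
   .two (nat_lit 612368392) (nat_lit 20753416251) (.two (nat_lit 176160770) (nat_lit 47584379191) (.two (nat_lit 620756993) (nat_lit 28697429552) (.one (nat_lit 183962177309) .nil))),
   .two (nat_lit 2902458376) (nat_lit 18928893960) (.two (nat_lit 18928893956) (nat_lit 159232557104) (.two (nat_lit 183848927234) (nat_lit 150995385) (.two (nat_lit 8388608) (nat_lit 174701153522) .nil))),
   .two (nat_lit 754974728) (nat_lit 2416967723) (.two (nat_lit 101711875) (nat_lit 50332087) (.two (nat_lit 1048576) (nat_lit 21223180812) .nil)),
   .two (nat_lit 2887778312) (nat_lit 12050235492) (.two (nat_lit 2889875458) (nat_lit 1411383588) (.two (nat_lit 2097153) (nat_lit 47550825618) (.two (nat_lit 4194304) (nat_lit 10907289800) (.one (nat_lit 606080932) .nil)))),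
   .two (nat_lit 158144135176) (nat_lit 11577327626) (.two (nat_lit 68157444) (nat_lit 28758245414) (.two (nat_lit 605028355) (nat_lit 21208498457) (.two (nat_lit 4194305) (nat_lit 1310720700) (.two (nat_lit 8388608) (nat_lit 3020950839) .nil)))),
   .two (nat_lit 11479810056) (nat_lit 276824127) (.two (nat_lit 809500675) (nat_lit 75497820) (.two (nat_lit 8388609) (nat_lit 239076041) (.two (nat_lit 2097152) (nat_lit 19532876035) (.one (nat_lit 10338963228) .nil)))),
   .two (nat_lit 1291845640) (nat_lit 46978301960) (.two (nat_lit 46978301956) (nat_lit 10385097144) (.two (nat_lit 2097152) (nat_lit 10385098262) (.one (nat_lit 16781475) .nil))),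
   .two (nat_lit 721420296) (nat_lit 18933088295) (.two (nat_lit 41943043) (nat_lit 47596962581) (.two (nat_lit 8388608) (nat_lit 16780050) (.one (nat_lit 8392868) .nil))),
   .two (nat_lit 10506731534) (nat_lit 3036676108) (.two (nat_lit 1929379844) (nat_lit 28693233707) (.two (nat_lit 9768534019) (nat_lit 687866039) (.two (nat_lit 37748737) (nat_lit 46514833706) (.one (nat_lit 1384124155) .nil)))),
   .two (nat_lit 276824072) (nat_lit 37314625554) (.two (nat_lit 739246084) (nat_lit 156466413593) (.two (nat_lit 11543773187) (nat_lit 2961178807) (.two (nat_lit 50331649) (nat_lit 47547679919) (.two (nat_lit 16777216) (nat_lit 28093450400) (.one (nat_lit 1052837) .nil))))),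
   .two (nat_lit 272629768) (nat_lit 46414168109) (.two (nat_lit 4194306) (nat_lit 3028287927) (.two (nat_lit 4194304) (nat_lit 174759872032) (.one (nat_lit 4197819) .nil))),
   .two (nat_lit 41943048) (nat_lit 1745879048) (.two (nat_lit 11551113220) (nat_lit 772800551) (.two (nat_lit 713031682) (nat_lit 806355447) (.two (nat_lit 8388609) (nat_lit 10906240146) (.two (nat_lit 8388608) (nat_lit 184417257672) (.one (nat_lit 19100864352) .nil))))),
   .two (nat_lit 272629768) (nat_lit 754974728) (.two (nat_lit 754974724) (nat_lit 272629784) (.two (nat_lit 11492392962) (nat_lit 19130221362) (.one (nat_lit 239078832) .nil))),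
   .two (nat_lit 28758245384) (nat_lit 2889875465) (.two (nat_lit 205520900) (nat_lit 166230753320) (.two (nat_lit 171966467) (nat_lit 11618222519) (.two (nat_lit 1048576) (nat_lit 159217878567) (.one (nat_lit 183947497212) .nil)))),
   .two (nat_lit 16777224) (nat_lit 21785214984) (.two (nat_lit 21785214980) (nat_lit 16777240) (.two (nat_lit 713031682) (nat_lit 620757809) (.one (nat_lit 46992984590) .nil))),
   .two (nat_lit 46414168072) (nat_lit 28089253900) (.two (nat_lit 1178599428) (nat_lit 4605345816) (.two (nat_lit 9768534019) (nat_lit 13195280452) (.two (nat_lit 37748737) (nat_lit 46414169620) (.one (nat_lit 8392871) .nil)))),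
   .two (nat_lit 1291845640) (nat_lit 10504634380) (.two (nat_lit 18928893956) (nat_lit 19109249087) (.two (nat_lit 11546918915) (nat_lit 2969567934) (.two (nat_lit 2097152) (nat_lit 13237226859) .nil))),
   .two (nat_lit 1291845640) (nat_lit 10369368151) (.two (nat_lit 34603011) (nat_lit 46523220314) (.two (nat_lit 2097153) (nat_lit 185020187799) (.two (nat_lit 2097152) (nat_lit 183949592787) (.one (nat_lit 2101416) .nil)))),
   .two (nat_lit 8388616) (nat_lit 775946250) (.two (nat_lit 12117344260) (nat_lit 1954545712) (.two (nat_lit 184419352579) (nat_lit 156472705325) (.two (nat_lit 9768534017) (nat_lit 9772730005) (.two (nat_lit 4194304) (nat_lit 8391444) (.one (nat_lit 4198569) .nil))))),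
   .two (nat_lit 4194312) (nat_lit 1417674795) (.two (nat_lit 739246083) (nat_lit 18928894333) (.two (nat_lit 8388609) (nat_lit 608175267) (.two (nat_lit 4194304) (nat_lit 8391447) (.one (nat_lit 11484008427) .nil)))),
   .two (nat_lit 184549384) (nat_lit 158144135176) (.two (nat_lit 158144135172) (nat_lit 2969567274) (.two (nat_lit 1277165570) (nat_lit 620757431) (.two (nat_lit 2097152) (nat_lit 19612568805) .nil))),
   .two (nat_lit 2954887176) (nat_lit 3464495112) (.two (nat_lit 9934209028) (nat_lit 10007609728) (.two (nat_lit 2097153) (nat_lit 75498246) (.two (nat_lit 2097152) (nat_lit 158083320085) (.one (nat_lit 157043133823) .nil)))),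
   .two (nat_lit 9781116936) (nat_lit 158143086600) (.two (nat_lit 754974724) (nat_lit 158143086616) (.two (nat_lit 1276116994) (nat_lit 654311603) (.two (nat_lit 9765388289) (nat_lit 16778470) (.two (nat_lit 1048576) (nat_lit 28705818904) (.one (nat_lit 1276120384) .nil))))),
   .two (nat_lit 184549384) (nat_lit 18933088264) (.two (nat_lit 18933088260) (nat_lit 184549402) (.two (nat_lit 183853121538) (nat_lit 184549815) (.two (nat_lit 8388608) (nat_lit 16779763) .nil))),
   .two (nat_lit 20644364296) (nat_lit 19596836872) (.two (nat_lit 19596836868) (nat_lit 20644364328) (.two (nat_lit 183845781506) (nat_lit 20644364727) (.two (nat_lit 1048576) (nat_lit 19134416413) (.one (nat_lit 20644367726) .nil)))),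
   .two (nat_lit 2887778312) (nat_lit 20644364314) (.two (nat_lit 270532611) (nat_lit 47555018820) (.two (nat_lit 2097153) (nat_lit 165532402357) (.two (nat_lit 2097152) (nat_lit 8390979) (.one (nat_lit 8392875) .nil)))),
   .two (nat_lit 2969567240) (nat_lit 9867100211) (.two (nat_lit 12121538563) (nat_lit 10385096974) (.two (nat_lit 41943041) (nat_lit 10385097397) (.two (nat_lit 4194304) (nat_lit 2099524) (.one (nat_lit 2100670) .nil)))),
   .two (nat_lit 46414168072) (nat_lit 4030726171) (.two (nat_lit 4605345795) (nat_lit 18928894250) (.two (nat_lit 4194305) (nat_lit 12155093704) (.two (nat_lit 4194304) (nat_lit 12054431983) (.one (nat_lit 156372045159) .nil)))),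
   .two (nat_lit 11559501832) (nat_lit 3525312520) (.two (nat_lit 169869316) (nat_lit 185002360885) (.two (nat_lit 13191086083) (nat_lit 3525312580) (.two (nat_lit 37748737) (nat_lit 10437526241) (.two (nat_lit 1048576) (nat_lit 47584382398) .nil)))),
   .two (nat_lit 9881780232) (nat_lit 19604176943) (.two (nat_lit 9948889091) (nat_lit 184423547064) (.two (nat_lit 34603009) (nat_lit 12633245212) (.one (nat_lit 16781484) .nil))),
   .two (nat_lit 16777224) (nat_lit 809500734) (.two (nat_lit 16777218) (nat_lit 10506731588) (.two (nat_lit 4194305) (nat_lit 9982444756) (.two (nat_lit 16777216) (nat_lit 2889878266) (.one (nat_lit 37752949) .nil)))),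
   .two (nat_lit 13203669000) (nat_lit 1916796996) (.two (nat_lit 2097153) (nat_lit 3539993017) (.two (nat_lit 4194304) (nat_lit 16780056) (.one (nat_lit 775949658) .nil))),
   .two (nat_lit 156367847432) (nat_lit 740294667) (.two (nat_lit 2889875460) (nat_lit 19545456823) (.two (nat_lit 2097153) (nat_lit 28793897677) (.two (nat_lit 16777216) (nat_lit 10942941320) (.one (nat_lit 2101421) .nil)))),
   .two (nat_lit 285212680) (nat_lit 639631368) (.two (nat_lit 654311428) (nat_lit 4599054393) (.two (nat_lit 10385096707) (nat_lit 2350907717) (.two (nat_lit 41943041) (nat_lit 9799991736) (.two (nat_lit 8388608) (nat_lit 705693854) (.one (nat_lit 16781486) .nil))))),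
   .two (nat_lit 9866051592) (nat_lit 2357198912) (.two (nat_lit 1343225859) (nat_lit 2994733829) (.two (nat_lit 1048576) (nat_lit 209718019) (.one (nat_lit 705695800) .nil))),
   .two (nat_lit 83886088) (nat_lit 12114198536) (.two (nat_lit 12114198532) (nat_lit 620757033) (.two (nat_lit 11476664322) (nat_lit 184550078) (.two (nat_lit 1048576) (nat_lit 28705818157) (.one (nat_lit 16781487) .nil)))),
   .two (nat_lit 169869320) (nat_lit 612368392) (.two (nat_lit 75497476) (nat_lit 12115247151) (.two (nat_lit 176160770) (nat_lit 1048915) (.two (nat_lit 41943041) (nat_lit 46474986221) (.two (nat_lit 8388608) (nat_lit 2099526) (.one (nat_lit 165526113558) .nil))))),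
   .two (nat_lit 117440520) (nat_lit 158075977754) (.two (nat_lit 21777874947) (nat_lit 1358955199) (.two (nat_lit 1048576) (nat_lit 156581759109) (.one (nat_lit 638586081) .nil))),
   .two (nat_lit 2961178632) (nat_lit 158647451743) (.two (nat_lit 34603011) (nat_lit 1753219769) (.two (nat_lit 8388608) (nat_lit 10907289800) (.one (nat_lit 2101425) .nil))),
   .two (nat_lit 21208498184) (nat_lit 46409973770) (.two (nat_lit 3460300804) (nat_lit 1310720042) (.two (nat_lit 158144135171) (nat_lit 71303567) (.two (nat_lit 605028353) (nat_lit 19128124134) (.two (nat_lit 1048576) (nat_lit 71304764) (.one (nat_lit 2101426) .nil))))),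
   .two (nat_lit 117440520) (nat_lit 9934209040) (.two (nat_lit 10385096710) (nat_lit 11007950887) (.two (nat_lit 203423747) (nat_lit 117440952) (.two (nat_lit 2097152) (nat_lit 174701151804) (.one (nat_lit 318771183) .nil)))),
   .two (nat_lit 713031688) (nat_lit 47548727304) (.two (nat_lit 169869316) (nat_lit 880803867) (.two (nat_lit 612368387) (nat_lit 47582281907) (.two (nat_lit 34603009) (nat_lit 156539815054) (.two (nat_lit 1048576) (nat_lit 156976024883) .nil)))),
   .two (nat_lit 50331656) (nat_lit 10510925870) (.two (nat_lit 713031682) (nat_lit 822084023) (.two (nat_lit 8388608) (nat_lit 337644036) .nil)),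
   .two (nat_lit 12054429704) (nat_lit 4028629002) (.two (nat_lit 46407876612) (nat_lit 12054429722) (.two (nat_lit 184993972227) (nat_lit 157036839236) (.two (nat_lit 34603009) (nat_lit 10443819247) (.one (nat_lit 37253811561) .nil)))),
   .two (nat_lit 1916796938) (nat_lit 3558866958) (.two (nat_lit 1178599428) (nat_lit 3558866989) (.two (nat_lit 3525312515) (nat_lit 19130220984) (.two (nat_lit 2097152) (nat_lit 183848929532) (.one (nat_lit 1782583438) .nil)))),
   .two (nat_lit 809500680) (nat_lit 236978186) (.two (nat_lit 46978301956) (nat_lit 12117344299) (.two (nat_lit 19532873731) (nat_lit 159251431864) (.two (nat_lit 4194304) (nat_lit 158177691194) (.one (nat_lit 606080422) .nil)))),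
   .two (nat_lit 176160776) (nat_lit 19530776584) (.two (nat_lit 9940500484) (nat_lit 19027460122) (.two (nat_lit 157036838915) (nat_lit 176161092) (.two (nat_lit 9768534017) (nat_lit 1176503023) (.two (nat_lit 2097152) (nat_lit 37253809695) (.one (nat_lit 8392885) .nil))))),
   .two (nat_lit 9781116936) (nat_lit 47548727323) (.two (nat_lit 2969567235) (nat_lit 10001318218) (.two (nat_lit 2097153) (nat_lit 4613735636) (.two (nat_lit 2097152) (nat_lit 16780058) (.one (nat_lit 2101430) .nil)))),
   .two (nat_lit 184549389) (nat_lit 4601151500) (.two (nat_lit 1849688068) (nat_lit 184549419) (.two (nat_lit 2902458371) (nat_lit 608174521) (.two (nat_lit 8388608) (nat_lit 19612568065) .nil))),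
   .two (nat_lit 4194312) (nat_lit 37320917039) (.two (nat_lit 4194306) (nat_lit 672137934) (.two (nat_lit 4194304) (nat_lit 11517561498) (.one (nat_lit 8392888) .nil))),
   .two (nat_lit 8388616) (nat_lit 46978301962) (.two (nat_lit 46407876612) (nat_lit 4605346073) (.two (nat_lit 9766436865) (nat_lit 158150427390) (.two (nat_lit 1048576) (nat_lit 8391453) (.one (nat_lit 2101433) .nil)))),
   .two (nat_lit 9781116936) (nat_lit 12050235401) (.two (nat_lit 183848927236) (nat_lit 2902458406) (.two (nat_lit 13191086083) (nat_lit 11492393242) (.two (nat_lit 37748737) (nat_lit 11492393661) (.two (nat_lit 1048576) (nat_lit 4196680) (.one (nat_lit 4198587) .nil))))),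
   .two (nat_lit 12117344264) (nat_lit 20704133163) (.two (nat_lit 10939793411) (nat_lit 183949590967) (.two (nat_lit 1048576) (nat_lit 13224641329) (.one (nat_lit 10540289392) .nil))),
   .two (nat_lit 16777224) (nat_lit 156968681484) (.two (nat_lit 50331652) (nat_lit 13221494850) (.two (nat_lit 11559501827) (nat_lit 13221495499) (.two (nat_lit 4194304) (nat_lit 185020188943) (.one (nat_lit 1052861) .nil)))),
   .two (nat_lit 285212680) (nat_lit 46409973768) (.two (nat_lit 9781116932) (nat_lit 742391855) (.two (nat_lit 9781116931) (nat_lit 46507491510) (.two (nat_lit 620756993) (nat_lit 2920285405) (.two (nat_lit 4194304) (nat_lit 638584978) (.one (nat_lit 1052862) .nil))))),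
   .two (nat_lit 721420296) (nat_lit 339738677) (.two (nat_lit 50331651) (nat_lit 11010048502) (.two (nat_lit 50331649) (nat_lit 4195559) (.two (nat_lit 16777216) (nat_lit 104859832) (.one (nat_lit 16781503) .nil)))),
   .two (nat_lit 285212680) (nat_lit 158083317785) (.two (nat_lit 16777218) (nat_lit 183853121716) (.two (nat_lit 8388609) (nat_lit 156548203751) (.two (nat_lit 8388608) (nat_lit 11559504116) (.one (nat_lit 16781505) .nil)))),
   .two (nat_lit 50331656) (nat_lit 28693233672) (.two (nat_lit 285212676) (nat_lit 156468510746) (.two (nat_lit 1916796931) (nat_lit 11492393663) (.two (nat_lit 4194304) (nat_lit 1291847870) (.one (nat_lit 46510641697) .nil)))),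
   .two (nat_lit 285212680) (nat_lit 18928893960) (.two (nat_lit 9781116932) (nat_lit 1312817203) (.two (nat_lit 12117344259) (nat_lit 285212740) (.two (nat_lit 37748737) (nat_lit 10921968345) (.two (nat_lit 8388608) (nat_lit 205524221) .nil)))),
   .two (nat_lit 8388616) (nat_lit 2969567256) (.two (nat_lit 184549378) (nat_lit 159224169150) (.two (nat_lit 16777216) (nat_lit 9873393185) (.one (nat_lit 19100863726) .nil))),
   .two (nat_lit 639631368) (nat_lit 46477082692) (.two (nat_lit 2097153) (nat_lit 10439623911) (.two (nat_lit 1048576) (nat_lit 1413482625) (.one (nat_lit 1052866) .nil))),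
   .two (nat_lit 21777874952) (nat_lit 28758245414) (.two (nat_lit 158075977731) (nat_lit 9799992046) (.two (nat_lit 1048576) (nat_lit 2100001) (.one (nat_lit 34606442) .nil))),
   .two (nat_lit 11479810056) (nat_lit 638582805) (.two (nat_lit 1916796932) (nat_lit 184986632286) (.two (nat_lit 1846542339) (nat_lit 10338960078) (.two (nat_lit 1048576) (nat_lit 37751035) (.one (nat_lit 47547682606) .nil)))),
   .two (nat_lit 721420296) (nat_lit 4194334) (.two (nat_lit 185002360836) (nat_lit 9768534072) (.two (nat_lit 46980399107) (nat_lit 183928619752) (.two (nat_lit 16777216) (nat_lit 3560966280) (.one (nat_lit 4198595) .nil)))),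
   .two (nat_lit 75497480) (nat_lit 4028629034) (.two (nat_lit 612368387) (nat_lit 337642277) (.two (nat_lit 1048576) (nat_lit 158144137440) (.one (nat_lit 2101444) .nil))),
   .two (nat_lit 272629768) (nat_lit 20644364298) (.two (nat_lit 37748740) (nat_lit 159224168489) (.two (nat_lit 20644364290) (nat_lit 28760342817) (.two (nat_lit 606076929) (nat_lit 1749025486) (.two (nat_lit 2097152) (nat_lit 2319451700) (.one (nat_lit 4198597) .nil))))),
   .two (nat_lit 1277165576) (nat_lit 156367847432) (.two (nat_lit 46409973764) (nat_lit 158144135194) (.two (nat_lit 1277165570) (nat_lit 158179786935) (.two (nat_lit 4194305) (nat_lit 4599055055) (.two (nat_lit 16777216) (nat_lit 46477084225) (.one (nat_lit 28087160981) .nil))))),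
   .two (nat_lit 12047089672) (nat_lit 11559501844) (.two (nat_lit 184986632198) (nat_lit 754974763) (.two (nat_lit 1291845635) (nat_lit 12048138533) (.two (nat_lit 16777217) (nat_lit 606077653) (.two (nat_lit 1048576) (nat_lit 2099530) (.one (nat_lit 1052870) .nil))))),
   .two (nat_lit 809500680) (nat_lit 159224168456) (.two (nat_lit 37748740) (nat_lit 3028287928) (.two (nat_lit 2097152) (nat_lit 1279265075) (.one (nat_lit 8392903) .nil))),
   .two (nat_lit 809500680) (nat_lit 183853121562) (.two (nat_lit 4194306) (nat_lit 183853121715) (.two (nat_lit 4194305) (nat_lit 4034922733) (.one (nat_lit 8392904) .nil))),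
   .two (nat_lit 10504634376) (nat_lit 876609552) (.two (nat_lit 272629764) (nat_lit 3021996089) (.two (nat_lit 4194306) (nat_lit 2097665) (.two (nat_lit 9765388289) (nat_lit 159253529347) (.two (nat_lit 4194304) (nat_lit 1051410) (.one (nat_lit 1052873) .nil))))),
   .two (nat_lit 18933088264) (nat_lit 10336862245) (.two (nat_lit 1277165571) (nat_lit 251658425) (.two (nat_lit 41943041) (nat_lit 2098840) (.two (nat_lit 16777216) (nat_lit 20644366503) (.one (nat_lit 8392906) .nil)))),
   .two (nat_lit 218103816) (nat_lit 11010048019) (.two (nat_lit 16777220) (nat_lit 11580473398) (.two (nat_lit 16777218) (nat_lit 339738805) (.two (nat_lit 50331649) (nat_lit 12150899396) (.two (nat_lit 4194304) (nat_lit 16780067) (.one (nat_lit 21814577668) .nil))))),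
   .two (nat_lit 16777224) (nat_lit 156372041736) (.two (nat_lit 1191182340) (nat_lit 174685421631) (.two (nat_lit 9765388291) (nat_lit 20719862474) (.two (nat_lit 1048576) (nat_lit 16779596) (.one (nat_lit 1052875) .nil)))),
   .two (nat_lit 11479810056) (nat_lit 3464495112) (.two (nat_lit 4605345796) (nat_lit 183949590554) (.two (nat_lit 809500675) (nat_lit 10007609524) (.two (nat_lit 37748737) (nat_lit 19604177624) (.two (nat_lit 16777216) (nat_lit 1916799488) .nil)))),
   .two (nat_lit 159224168456) (nat_lit 12618563638) (.two (nat_lit 75497475) (nat_lit 166129041758) (.two (nat_lit 9766436865) (nat_lit 11584668373) (.two (nat_lit 2097152) (nat_lit 1051428) (.one (nat_lit 1052876) .nil)))),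
   .two (nat_lit 9768534024) (nat_lit 28691136520) (.two (nat_lit 9867100164) (nat_lit 1786773552) (.two (nat_lit 708837379) (nat_lit 2927624529) (.two (nat_lit 4194305) (nat_lit 8389864) (.two (nat_lit 2097152) (nat_lit 28697430779) (.one (nat_lit 69210165) .nil))))),
   .two (nat_lit 83886088) (nat_lit 184423546928) (.two (nat_lit 9781116931) (nat_lit 104858385) (.two (nat_lit 8388608) (nat_lit 13237226859) .nil)),
   .two (nat_lit 117440520) (nat_lit 20637024264) (.two (nat_lit 822083588) (nat_lit 775946288) (.two (nat_lit 47550824451) (nat_lit 10385096989) (.two (nat_lit 4194305) (nat_lit 9881780925) (.two (nat_lit 2097152) (nat_lit 37313580266) .nil)))),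
   .two (nat_lit 4605345800) (nat_lit 10506731528) (.two (nat_lit 813694980) (nat_lit 11580473390) (.two (nat_lit 2889875458) (nat_lit 13195280452) (.two (nat_lit 4194305) (nat_lit 46414168757) (.two (nat_lit 2097152) (nat_lit 156976023090) (.one (nat_lit 8392131) .nil))))),
   .two (nat_lit 713031688) (nat_lit 21207449608) (.two (nat_lit 68157444) (nat_lit 880803867) (.two (nat_lit 705691650) (nat_lit 11014242488) (.two (nat_lit 41943041) (nat_lit 11580474064) (.two (nat_lit 4194304) (nat_lit 183845783688) (.one (nat_lit 1052877) .nil))))),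
   .two (nat_lit 18928893960) (nat_lit 28093448235) (.two (nat_lit 46414168067) (nat_lit 19599983031) (.two (nat_lit 8388608) (nat_lit 2956985882) (.one (nat_lit 19096670399) .nil))),
   .two (nat_lit 16777224) (nat_lit 166230753321) (.two (nat_lit 184549379) (nat_lit 20738736416) (.two (nat_lit 16777217) (nat_lit 20738736834) (.two (nat_lit 8388608) (nat_lit 251661607) .nil))),
   .two (nat_lit 754974728) (nat_lit 28757196808) (.two (nat_lit 28757196804) (nat_lit 754974746) (.two (nat_lit 1276116994) (nat_lit 117440951) (.two (nat_lit 1048576) (nat_lit 251659810) (.one (nat_lit 16781518) .nil)))),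
   .two (nat_lit 183848927240) (nat_lit 13237223434) (.two (nat_lit 13203668996) (nat_lit 11513364505) (.two (nat_lit 184549378) (nat_lit 9766437048) (.two (nat_lit 16777217) (nat_lit 20640171185) (.two (nat_lit 2097152) (nat_lit 1782580777) (.one (nat_lit 2101455) .nil))))),
   .two (nat_lit 1291845640) (nat_lit 13228834871) (.two (nat_lit 612368387) (nat_lit 9881780403) (.two (nat_lit 41943041) (nat_lit 184431936676) (.two (nat_lit 16777216) (nat_lit 1753221381) (.one (nat_lit 158091709719) .nil)))),
   .two (nat_lit 169869320) (nat_lit 50331656) (.two (nat_lit 285212676) (nat_lit 1209008179) (.two (nat_lit 2902458371) (nat_lit 605028738) (.two (nat_lit 16777217) (nat_lit 156532474297) (.two (nat_lit 16777216) (nat_lit 1344276011) (.one (nat_lit 16781520) .nil))))),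
   .two (nat_lit 612368392) (nat_lit 174685421615) (.two (nat_lit 9765388291) (nat_lit 46510637235) (.two (nat_lit 8388609) (nat_lit 2990540999) (.one (nat_lit 8392913) .nil))),
   .two (nat_lit 205520904) (nat_lit 12054429704) (.two (nat_lit 1350565892) (nat_lit 21207449627) (.two (nat_lit 713031682) (nat_lit 174752530612) (.two (nat_lit 9768534017) (nat_lit 47547679857) (.two (nat_lit 1048576) (nat_lit 3024094757) (.one (nat_lit 4027584469) .nil))))),
   .two (nat_lit 2954887176) (nat_lit 28757196808) (.two (nat_lit 19529728004) (nat_lit 13222543411) (.two (nat_lit 3458203651) (nat_lit 10335813988) (.two (nat_lit 16777217) (nat_lit 3524264690) (.two (nat_lit 16777216) (nat_lit 183913942409) .nil)))),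
   .two (nat_lit 612368392) (nat_lit 10940841994) (.two (nat_lit 159224168452) (nat_lit 10940842023) (.two (nat_lit 46407876610) (nat_lit 21785215415) (.two (nat_lit 2097152) (nat_lit 9906947656) (.one (nat_lit 12624859063) .nil)))),
   .two (nat_lit 2889875464) (nat_lit 4605345816) (.two (nat_lit 272629763) (nat_lit 4605345860) (.two (nat_lit 9768534017) (nat_lit 2424309949) (.one (nat_lit 2420117414) .nil))),
   .two (nat_lit 654311432) (nat_lit 3458203656) (.two (nat_lit 3458203652) (nat_lit 10385096745) (.two (nat_lit 47548727299) (nat_lit 1291845920) (.two (nat_lit 2097153) (nat_lit 1291846338) (.two (nat_lit 2097152) (nat_lit 654313729) (.one (nat_lit 2100519) .nil))))),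
   .two (nat_lit 205520904) (nat_lit 1277165576) (.two (nat_lit 742391812) (nat_lit 21811429420) (.two (nat_lit 1277165570) (nat_lit 2886730021) (.two (nat_lit 606076929) (nat_lit 1346372805) (.two (nat_lit 2097152) (nat_lit 10372516084) (.one (nat_lit 1052100) .nil))))),
   .two (nat_lit 205520904) (nat_lit 28093448205) (.two (nat_lit 41943044) (nat_lit 158143086635) (.two (nat_lit 8388610) (nat_lit 843055397) (.two (nat_lit 4194305) (nat_lit 20644364981) (.two (nat_lit 1048576) (nat_lit 8390989) (.one (nat_lit 11580475897) .nil))))),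
   .two (nat_lit 16777224) (nat_lit 28093448235) (.two (nat_lit 184993972227) (nat_lit 9948889528) (.two (nat_lit 8388608) (nat_lit 9948889906) (.one (nat_lit 185035918731) .nil))),
   .two (nat_lit 276824072) (nat_lit 4634705929) (.two (nat_lit 276824068) (nat_lit 183913938991) (.two (nat_lit 8388610) (nat_lit 174685421751) (.two (nat_lit 8388609) (nat_lit 1411384514) (.two (nat_lit 1048576) (nat_lit 8391462) (.one (nat_lit 4198614) .nil))))),
   .two (nat_lit 41943048) (nat_lit 159217877000) (.two (nat_lit 4605345796) (nat_lit 159251431464) (.two (nat_lit 46414168067) (nat_lit 46508540293) (.two (nat_lit 8388609) (nat_lit 156969730762) (.two (nat_lit 8388608) (nat_lit 28791802140) (.one (nat_lit 8392921) .nil))))),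
   .two (nat_lit 11559501832) (nat_lit 2416967690) (.two (nat_lit 184549380) (nat_lit 9799991355) (.two (nat_lit 184549378) (nat_lit 46474985816) (.two (nat_lit 2097153) (nat_lit 754976276) (.one (nat_lit 2416970986) .nil)))),
   .two (nat_lit 47548727304) (nat_lit 1916796958) (.two (nat_lit 104857604) (nat_lit 19529728047) (.two (nat_lit 2956984323) (nat_lit 9967763635) (.two (nat_lit 612368385) (nat_lit 11006902990) (.two (nat_lit 8388608) (nat_lit 1051432) (.one (nat_lit 1052893) .nil))))),
   .two (nat_lit 218103816) (nat_lit 13195280392) (.two (nat_lit 41943044) (nat_lit 2902458547) (.two (nat_lit 9781116929) (nat_lit 46481278126) (.two (nat_lit 16777216) (nat_lit 8391465) (.one (nat_lit 8392926) .nil)))),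
   .two (nat_lit 13195280392) (nat_lit 2954887224) (.two (nat_lit 3458203651) (nat_lit 1753219252) (.two (nat_lit 2097153) (nat_lit 8389865) (.two (nat_lit 2097152) (nat_lit 8391466) (.one (nat_lit 8392764) .nil)))),
   .two (nat_lit 822083592) (nat_lit 158177689663) (.two (nat_lit 16777219) (nat_lit 20705182015) (.two (nat_lit 16777217) (nat_lit 4632610337) (.one (nat_lit 156969733392) .nil))),
   .two (nat_lit 21777874952) (nat_lit 166232850498) (.two (nat_lit 806354947) (nat_lit 843055543) (.two (nat_lit 1048576) (nat_lit 171968070) (.one (nat_lit 2101471) .nil))),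
   .two (nat_lit 12047089672) (nat_lit 47548727347) (.two (nat_lit 183845781506) (nat_lit 840958393) (.two (nat_lit 1048576) (nat_lit 19597888012) .nil)),
   .two (nat_lit 10370416648) (nat_lit 166132187163) (.two (nat_lit 639631363) (nat_lit 10506731699) (.two (nat_lit 606076929) (nat_lit 10338961645) (.one (nat_lit 1176506156) .nil))),
   .two (nat_lit 176160776) (nat_lit 28757196895) (.two (nat_lit 20644364291) (nat_lit 158646403347) (.two (nat_lit 34603009) (nat_lit 166136382633) (.two (nat_lit 1048576) (nat_lit 8391467) (.one (nat_lit 8392928) .nil)))),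
   .two (nat_lit 2889875464) (nat_lit 10940842011) (.two (nat_lit 2956984323) (nat_lit 28758245556) (.two (nat_lit 9765388289) (nat_lit 19096666849) (.two (nat_lit 1048576) (nat_lit 4196687) (.one (nat_lit 2101473) .nil)))),
   .two (nat_lit 176160776) (nat_lit 20705181708) (.two (nat_lit 612368388) (nat_lit 11544821806) (.two (nat_lit 21785214979) (nat_lit 11006903015) (.two (nat_lit 2097152) (nat_lit 269486299) (.one (nat_lit 1052453) .nil)))),
   .two (nat_lit 11492392968) (nat_lit 183848927240) (.two (nat_lit 1191182340) (nat_lit 10372513838) (.two (nat_lit 13191086083) (nat_lit 11492393139) (.two (nat_lit 37748737) (nat_lit 20652753615) (.two (nat_lit 4194304) (nat_lit 185035917490) (.one (nat_lit 4198626) .nil))))),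
   .two (nat_lit 8388616) (nat_lit 11513364505) (.two (nat_lit 13191086083) (nat_lit 8388676) (.two (nat_lit 9765388289) (nat_lit 10510926542) (.two (nat_lit 1048576) (nat_lit 166232853745) .nil))),
   .two (nat_lit 8388616) (nat_lit 1291845640) (.two (nat_lit 41943044) (nat_lit 165540790323) (.two (nat_lit 9948889091) (nat_lit 880803908) (.two (nat_lit 620756993) (nat_lit 10007610900) (.one (nat_lit 156380433635) .nil)))),
   .two (nat_lit 9781116936) (nat_lit 184986632200) (.two (nat_lit 1795162116) (nat_lit 135266342) (.two (nat_lit 705691650) (nat_lit 2902458808) (.two (nat_lit 1048576) (nat_lit 4613735994) (.one (nat_lit 16781540) .nil)))),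
   .two (nat_lit 16777224) (nat_lit 101711935) (.two (nat_lit 11543773187) (nat_lit 285212740) (.two (nat_lit 8388609) (nat_lit 9933160889) (.two (nat_lit 8388608) (nat_lit 156481095233) (.one (nat_lit 16781541) .nil)))),
   .two (nat_lit 158144135177) (nat_lit 4194326) (.two (nat_lit 37748740) (nat_lit 11618222107) (.two (nat_lit 176160771) (nat_lit 46980399489) (.two (nat_lit 156365750273) (nat_lit 12050237576) (.one (nat_lit 2101478) .nil)))),
   .two (nat_lit 4605345800) (nat_lit 3527409672) (.two (nat_lit 9768534020) (nat_lit 9806282820) (.two (nat_lit 4194305) (nat_lit 46414168757) (.two (nat_lit 16777216) (nat_lit 158079126755) .nil))),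
   .two (nat_lit 47548727304) (nat_lit 158143086600) (.two (nat_lit 10369368068) (nat_lit 47548727320) (.two (nat_lit 46407876610) (nat_lit 1049090) (.two (nat_lit 8388609) (nat_lit 174686472513) (.one (nat_lit 2101479) .nil)))),
   .two (nat_lit 8388616) (nat_lit 28101836851) (.two (nat_lit 1358954499) (nat_lit 8388676) (.two (nat_lit 620756993) (nat_lit 880806128) (.one (nat_lit 18941480163) .nil))),
   .two (nat_lit 721420296) (nat_lit 10504634376) (.two (nat_lit 83886084) (nat_lit 4028629019) (.two (nat_lit 2887778306) (nat_lit 16777396) (.two (nat_lit 2097153) (nat_lit 19042140893) (.two (nat_lit 2097152) (nat_lit 174701152449) (.one (nat_lit 2101480) .nil))))),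
   .two (nat_lit 21777874952) (nat_lit 1277165577) (.two (nat_lit 1780482052) (nat_lit 46473936942) (.two (nat_lit 1176502275) (nat_lit 19599983360) (.two (nat_lit 1048576) (nat_lit 1413483212) (.one (nat_lit 1052905) .nil)))),
   .two (nat_lit 18933088264) (nat_lit 2316304411) (.two (nat_lit 183853121538) (nat_lit 135266483) (.two (nat_lit 41943041) (nat_lit 68159725) (.one (nat_lit 1052906) .nil))),
   .two (nat_lit 2969567240) (nat_lit 174753579016) (.two (nat_lit 11559501828) (nat_lit 10939793435) (.two (nat_lit 158143086595) (nat_lit 10552869233) (.two (nat_lit 606076929) (nat_lit 1779435757) (.one (nat_lit 11543777514) .nil)))),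
   .two (nat_lit 9866051592) (nat_lit 184419352584) (.two (nat_lit 9866051588) (nat_lit 12117344300) (.two (nat_lit 1276116994) (nat_lit 1916797216) (.two (nat_lit 37748737) (nat_lit 183912891569) (.two (nat_lit 1048576) (nat_lit 46409977097) .nil)))),
   .two (nat_lit 13191086088) (nat_lit 3525312520) (.two (nat_lit 3525312516) (nat_lit 1212153894) (.two (nat_lit 19532873731) (nat_lit 1780482806) (.two (nat_lit 4194304) (nat_lit 19128125754) (.one (nat_lit 2101483) .nil)))),
   .two (nat_lit 169869320) (nat_lit 1216348172) (.two (nat_lit 2961178628) (nat_lit 10001317928) (.two (nat_lit 2097155) (nat_lit 2420113743) (.two (nat_lit 2097153) (nat_lit 11510219550) (.two (nat_lit 2097152) (nat_lit 21811431602) (.one (nat_lit 2101484) .nil))))),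
   .two (nat_lit 1795162120) (nat_lit 165525061695) (.two (nat_lit 47550824451) (nat_lit 9781117367) (.two (nat_lit 1048576) (nat_lit 9781118487) (.one (nat_lit 16781549) .nil))),
   .two (nat_lit 218103816) (nat_lit 10504634376) (.two (nat_lit 9766436868) (nat_lit 654311692) (.two (nat_lit 2097153) (nat_lit 166237045455) (.two (nat_lit 8388608) (nat_lit 1310721598) (.one (nat_lit 2101487) .nil)))),
   .two (nat_lit 47548727304) (nat_lit 1175453877) (.two (nat_lit 606076929) (nat_lit 12147755237) (.one (nat_lit 1052913) .nil)),
   .two (nat_lit 11479810056) (nat_lit 11544821771) (.two (nat_lit 3525312516) (nat_lit 13224640539) (.two (nat_lit 3525312515) (nat_lit 4194706) (.two (nat_lit 50331649) (nat_lit 1312818714) (.one (nat_lit 12117346816) .nil)))),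
   .two (nat_lit 4194312) (nat_lit 47555018777) (.two (nat_lit 158083317763) (nat_lit 158176641422) (.two (nat_lit 41943041) (nat_lit 174685422777) (.two (nat_lit 1048576) (nat_lit 8391471) (.one (nat_lit 9906949379) .nil)))),
   .two (nat_lit 285212680) (nat_lit 71303230) (.two (nat_lit 4194306) (nat_lit 285212950) (.two (nat_lit 37748737) (nat_lit 46507492047) (.two (nat_lit 1048576) (nat_lit 166211881190) (.one (nat_lit 4198643) .nil)))),
   .two (nat_lit 2954887176) (nat_lit 1913651212) (.two (nat_lit 20637024260) (nat_lit 47582281754) (.two (nat_lit 12114198531) (nat_lit 156535619965) (.two (nat_lit 2097153) (nat_lit 2319450855) (.two (nat_lit 4194304) (nat_lit 28758248890) .nil)))),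
   .two (nat_lit 28093448200) (nat_lit 184987680814) (.two (nat_lit 20644364290) (nat_lit 158077026488) (.two (nat_lit 34603009) (nat_lit 8389866) (.two (nat_lit 1048576) (nat_lit 69208275) (.one (nat_lit 2921336758) .nil)))),
   .two (nat_lit 11543773192) (nat_lit 18928893960) (.two (nat_lit 1175453700) (nat_lit 306184260) (.two (nat_lit 8388609) (nat_lit 839910951) (.one (nat_lit 1052916) .nil))),
   .two (nat_lit 169869320) (nat_lit 183853121544) (.two (nat_lit 183853121540) (nat_lit 19127074867) (.two (nat_lit 183853121538) (nat_lit 46473937262) (.two (nat_lit 34603009) (nat_lit 3458204829) (.two (nat_lit 8388608) (nat_lit 4027582000) (.one (nat_lit 1052917) .nil))))),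
   .two (nat_lit 156367847432) (nat_lit 158192369676) (.two (nat_lit 4613734404) (nat_lit 1212153900) (.two (nat_lit 3527409667) (nat_lit 28705816914) (.two (nat_lit 4194305) (nat_lit 19042140870) (.two (nat_lit 1048576) (nat_lit 19042141731) (.one (nat_lit 303041842) .nil))))),
   .two (nat_lit 13191086088) (nat_lit 3558866954) (.two (nat_lit 3525312516) (nat_lit 1950351408) (.two (nat_lit 21208498179) (nat_lit 9866051970) (.two (nat_lit 4194305) (nat_lit 9900656186) (.one (nat_lit 10001321382) .nil)))),
   .two (nat_lit 10385096712) (nat_lit 1846542447) (.two (nat_lit 806354947) (nat_lit 10385096971) (.two (nat_lit 2097153) (nat_lit 12147755175) (.one (nat_lit 2101495) .nil))),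
   .two (nat_lit 41943048) (nat_lit 158646403101) (.two (nat_lit 10369368068) (nat_lit 3558866986) (.two (nat_lit 1276116994) (nat_lit 35651877) (.two (nat_lit 2097153) (nat_lit 166203491012) (.two (nat_lit 1048576) (nat_lit 37247518914) (.one (nat_lit 1052920) .nil))))),
   .two (nat_lit 117440520) (nat_lit 184986632204) (.two (nat_lit 9781116932) (nat_lit 9940500543) (.two (nat_lit 75497475) (nat_lit 4613735185) (.two (nat_lit 1048576) (nat_lit 2894071980) (.one (nat_lit 8392953) .nil)))),
   .two (nat_lit 203423752) (nat_lit 37253808194) (.two (nat_lit 13195280387) (nat_lit 1343226204) (.two (nat_lit 41943041) (nat_lit 4598007364) (.one (nat_lit 3457157626) .nil))),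
   .two (nat_lit 50331656) (nat_lit 166230753293) (.two (nat_lit 4613734404) (nat_lit 158144135239) (.two (nat_lit 1191182339) (nat_lit 1780482232) (.two (nat_lit 9766436865) (nat_lit 20753416935) (.two (nat_lit 1048576) (nat_lit 2887780555) (.one (nat_lit 1052923) .nil))))),
   .two (nat_lit 176160776) (nat_lit 19027460106) (.two (nat_lit 612368388) (nat_lit 9867100208) (.two (nat_lit 176160770) (nat_lit 4599054636) (.two (nat_lit 8388609) (nat_lit 1948254952) (.two (nat_lit 2097152) (nat_lit 343933746) (.one (nat_lit 8392956) .nil))))),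
   .two (nat_lit 11559501832) (nat_lit 1913651212) (.two (nat_lit 117440516) (nat_lit 10439622704) (.two (nat_lit 11492392963) (nat_lit 174755676904) (.two (nat_lit 1048576) (nat_lit 11559502642) (.one (nat_lit 4198653) .nil)))),
   .two (nat_lit 41943048) (nat_lit 185021235211) (.two (nat_lit 11476664324) (nat_lit 184993972250) (.two (nat_lit 806354947) (nat_lit 46481277110) (.two (nat_lit 8388609) (nat_lit 2098411) (.two (nat_lit 1048576) (nat_lit 2100021) (.one (nat_lit 1052926) .nil))))),
   .two (nat_lit 169869320) (nat_lit 1417674772) (.two (nat_lit 4194308) (nat_lit 159224168536) (.two (nat_lit 171966467) (nat_lit 10336862581) (.two (nat_lit 34603009) (nat_lit 304087766) (.two (nat_lit 1048576) (nat_lit 9902753311) (.one (nat_lit 1052927) .nil))))),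
   .two (nat_lit 754974728) (nat_lit 10939793416) (.two (nat_lit 754974724) (nat_lit 46406828125) (.two (nat_lit 184549379) (nat_lit 11551113528) (.two (nat_lit 50331649) (nat_lit 10544481465) (.two (nat_lit 16777216) (nat_lit 8391479) (.one (nat_lit 183853125692) .nil))))),
   .two (nat_lit 272629768) (nat_lit 185035915274) (.two (nat_lit 83886084) (nat_lit 809500740) (.two (nat_lit 50331649) (nat_lit 183949591221) (.two (nat_lit 2097152) (nat_lit 4196689) (.one (nat_lit 46992985534) .nil)))),
   .two (nat_lit 156968681480) (nat_lit 10942939199) (.two (nat_lit 19599982595) (nat_lit 1049017) (.two (nat_lit 4194304) (nat_lit 34604592) (.one (nat_lit 1376784530) .nil))),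
   .two (nat_lit 11551113224) (nat_lit 12114198536) (.two (nat_lit 742391812) (nat_lit 183946444842) (.two (nat_lit 708837379) (nat_lit 11014242685) (.two (nat_lit 4194305) (nat_lit 2987393737) (.two (nat_lit 4194304) (nat_lit 1051448) (.one (nat_lit 1052929) .nil))))),
   .two (nat_lit 1358954504) (nat_lit 135266314) (.two (nat_lit 46407876612) (nat_lit 1291845675) (.two (nat_lit 806354947) (nat_lit 620757695) (.two (nat_lit 2097152) (nat_lit 9781119200) (.one (nat_lit 1310723859) .nil)))),
   .two (nat_lit 8388616) (nat_lit 46409973768) (.two (nat_lit 8388612) (nat_lit 4634705963) (.two (nat_lit 4601151491) (nat_lit 41943108) (.two (nat_lit 9766436865) (nat_lit 1920991950) (.two (nat_lit 2097152) (nat_lit 165528208937) (.one (nat_lit 8392135) .nil))))),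
   .two (nat_lit 12114198536) (nat_lit 713031689) (.two (nat_lit 1350565892) (nat_lit 47547678766) (.two (nat_lit 75497475) (nat_lit 184987680951) (.two (nat_lit 2097153) (nat_lit 37253808889) (.two (nat_lit 2097152) (nat_lit 19537070369) (.one (nat_lit 1052932) .nil))))),
   .two (nat_lit 10343153672) (nat_lit 46978301979) (.two (nat_lit 165532401667) (nat_lit 28087157025) (.two (nat_lit 2097153) (nat_lit 9873392328) (.two (nat_lit 2097152) (nat_lit 28798092835) (.one (nat_lit 8392136) .nil)))),
   .two (nat_lit 12114198536) (nat_lit 136314893) (.two (nat_lit 11476664324) (nat_lit 11492392985) (.two (nat_lit 654311427) (nat_lit 28791799993) (.two (nat_lit 37748737) (nat_lit 20737688284) (.two (nat_lit 1048576) (nat_lit 12618565895) (.one (nat_lit 2101510) .nil))))),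
   .two (nat_lit 183853121544) (nat_lit 1358954506) (.two (nat_lit 83886084) (nat_lit 18933088696) (.two (nat_lit 8388608) (nat_lit 4043310623) (.one (nat_lit 12121541993) .nil))),
   .two (nat_lit 1779433480) (nat_lit 165528207426) (.two (nat_lit 47550824451) (nat_lit 10007609783) (.two (nat_lit 1048576) (nat_lit 3531605555) (.one (nat_lit 4198663) .nil))),
   .two (nat_lit 176160776) (nat_lit 35651595) (.two (nat_lit 176160772) (nat_lit 3472883800) (.two (nat_lit 176160770) (nat_lit 18926797169) (.two (nat_lit 16777217) (nat_lit 1376781856) (.one (nat_lit 1052937) .nil)))),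
   .two (nat_lit 2954887176) (nat_lit 1913651212) (.two (nat_lit 20637024260) (nat_lit 47582281754) (.two (nat_lit 12114198531) (nat_lit 10506732288) (.two (nat_lit 1048576) (nat_lit 2099539) (.one (nat_lit 2101515) .nil)))),
   .two (nat_lit 46409973768) (nat_lit 12148801547) (.two (nat_lit 46407876612) (nat_lit 2923429914) (.two (nat_lit 46407876610) (nat_lit 9869197495) (.two (nat_lit 156365750273) (nat_lit 1782579917) (.two (nat_lit 1048576) (nat_lit 46409975958) (.one (nat_lit 1052942) .nil))))),
   .two (nat_lit 2889875464) (nat_lit 11476664339) (.two (nat_lit 705691652) (nat_lit 3531604025) (.two (nat_lit 34603011) (nat_lit 1920991598) (.two (nat_lit 2097153) (nat_lit 46406828773) (.two (nat_lit 2097152) (nat_lit 205523150) (.one (nat_lit 8392975) .nil))))),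
   .two (nat_lit 276824072) (nat_lit 165540790284) (.two (nat_lit 101711876) (nat_lit 41943097) (.two (nat_lit 46422556675) (nat_lit 10544480597) (.two (nat_lit 16777217) (nat_lit 8390299) (.two (nat_lit 8388608) (nat_lit 1051458) (.one (nat_lit 4631563648) .nil))))),
   .two (nat_lit 639631368) (nat_lit 159224168456) (.two (nat_lit 176160772) (nat_lit 46508540010) (.two (nat_lit 46978301955) (nat_lit 10007609523) (.two (nat_lit 2097153) (nat_lit 813696578) (.one (nat_lit 21778926985) .nil)))),
   .two (nat_lit 203423752) (nat_lit 159224168456) (.two (nat_lit 2961178628) (nat_lit 46474985498) (.two (nat_lit 46978301955) (nat_lit 19100860782) (.two (nat_lit 9766436865) (nat_lit 1410335970) (.two (nat_lit 2097152) (nat_lit 1051459) (.one (nat_lit 2101522) .nil))))),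
   .two (nat_lit 159224168456) (nat_lit 337641568) (.two (nat_lit 270532611) (nat_lit 28093448467) (.two (nat_lit 2097153) (nat_lit 1753219769) (.two (nat_lit 8388608) (nat_lit 2100036) (.one (nat_lit 19027464416) .nil)))),
   .two (nat_lit 713031688) (nat_lit 9802088491) (.two (nat_lit 41943043) (nat_lit 18928894420) (.two (nat_lit 41943041) (nat_lit 10439623800) (.two (nat_lit 8388608) (nat_lit 20640172279) (.one (nat_lit 4198675) .nil)))),
   .two (nat_lit 739246088) (nat_lit 28093448230) (.two (nat_lit 11543773187) (nat_lit 10007610048) (.two (nat_lit 1048576) (nat_lit 13195282622) (.one (nat_lit 2953841995) .nil))),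
   .two (nat_lit 16777224) (nat_lit 37249613868) (.two (nat_lit 16777218) (nat_lit 2956984627) (.two (nat_lit 2097153) (nat_lit 218105056) (.two (nat_lit 2097152) (nat_lit 21827160314) (.one (nat_lit 166232852985) .nil)))),
   .two (nat_lit 11559501832) (nat_lit 166129041416) (.two (nat_lit 654311428) (nat_lit 813695035) (.two (nat_lit 713031683) (nat_lit 117440580) (.two (nat_lit 8388609) (nat_lit 11022631622) (.two (nat_lit 1048576) (nat_lit 1283459582) .nil)))),
   .two (nat_lit 285212680) (nat_lit 1753219080) (.two (nat_lit 654311428) (nat_lit 11551113275) (.two (nat_lit 16777218) (nat_lit 9873391972) (.two (nat_lit 41943041) (nat_lit 20652753605) (.two (nat_lit 4194304) (nat_lit 1283459578) .nil)))),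
   .two (nat_lit 50331656) (nat_lit 138412049) (.two (nat_lit 285212676) (nat_lit 1277165621) (.two (nat_lit 69206019) (nat_lit 16777284) (.two (nat_lit 2097153) (nat_lit 641728953) (.two (nat_lit 4194304) (nat_lit 158144136767) (.one (nat_lit 166232854261) .nil))))),
   .two (nat_lit 620757000) (nat_lit 183913938956) (.two (nat_lit 2969567236) (nat_lit 236978202) (.two (nat_lit 47548727299) (nat_lit 19109249336) (.two (nat_lit 2097153) (nat_lit 28772926168) (.two (nat_lit 4194304) (nat_lit 1780483608) (.one (nat_lit 2101524) .nil))))),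
   .two (nat_lit 276824072) (nat_lit 9902751792) (.two (nat_lit 8388610) (nat_lit 11580474071) (.two (nat_lit 4194304) (nat_lit 37253809701) (.one (nat_lit 4198677) .nil))),
   .two (nat_lit 1291845640) (nat_lit 159217877000) (.two (nat_lit 159217876996) (nat_lit 1291845658) (.two (nat_lit 169869314) (nat_lit 1291846071) (.two (nat_lit 2097152) (nat_lit 158158817792) .nil))),
   .two (nat_lit 1358954504) (nat_lit 2416967690) (.two (nat_lit 1745879044) (nat_lit 11022630958) (.two (nat_lit 28086108163) (nat_lit 2432696613) (.two (nat_lit 34603009) (nat_lit 1291846332) (.two (nat_lit 1048576) (nat_lit 4043311279) (.one (nat_lit 16781590) .nil))))),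
   .two (nat_lit 1350565896) (nat_lit 1795162120) (.two (nat_lit 713031684) (nat_lit 9802088507) (.two (nat_lit 4194306) (nat_lit 109052699) (.two (nat_lit 16777216) (nat_lit 183848929419) (.one (nat_lit 8392983) .nil)))),
   .two (nat_lit 2969567240) (nat_lit 4605345802) (.two (nat_lit 8388612) (nat_lit 2969567256) (.two (nat_lit 184549378) (nat_lit 10343154104) (.two (nat_lit 16777216) (nat_lit 3464497360) (.one (nat_lit 8392984) .nil)))),
   .two (nat_lit 46409973768) (nat_lit 159224168456) (.two (nat_lit 612368388) (nat_lit 2923429914) (.two (nat_lit 75497475) (nat_lit 11546919094) (.two (nat_lit 8388609) (nat_lit 1379928241) (.one (nat_lit 4198681) .nil)))),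
   .two (nat_lit 184993972232) (nat_lit 12147752969) (.two (nat_lit 12114198532) (nat_lit 1753219140) (.two (nat_lit 34603009) (nat_lit 184993972917) (.two (nat_lit 16777216) (nat_lit 10906242396) .nil))),
   .two (nat_lit 272629768) (nat_lit 10436476937) (.two (nat_lit 37748740) (nat_lit 166129041461) (.two (nat_lit 11546918915) (nat_lit 28790751500) (.two (nat_lit 606076929) (nat_lit 809501839) (.two (nat_lit 2097152) (nat_lit 672138780) (.one (nat_lit 1052954) .nil))))),
   .two (nat_lit 1291845640) (nat_lit 3525312536) (.two (nat_lit 2887778306) (nat_lit 2902458548) (.two (nat_lit 2097153) (nat_lit 1795164372) (.one (nat_lit 2887781696) .nil))),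
   .two (nat_lit 50331656) (nat_lit 20705181752) (.two (nat_lit 285212675) (nat_lit 158177689914) (.two (nat_lit 16777217) (nat_lit 136317208) (.one (nat_lit 2099710) .nil))),
   .two (nat_lit 285212680) (nat_lit 184993972248) (.two (nat_lit 16777218) (nat_lit 1283457824) (.two (nat_lit 16777216) (nat_lit 8391001) (.one (nat_lit 10376712021) .nil))),
   .two (nat_lit 1178599432) (nat_lit 46978301979) (.two (nat_lit 9768534019) (nat_lit 156533522611) (.two (nat_lit 37748737) (nat_lit 21778924318) (.two (nat_lit 4194304) (nat_lit 2099546) (.one (nat_lit 1178602805) .nil)))),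
   .two (nat_lit 620757000) (nat_lit 2889875464) (.two (nat_lit 2889875460) (nat_lit 166245433395) (.two (nat_lit 183861510147) (nat_lit 843055806) (.two (nat_lit 2097152) (nat_lit 11546920481) (.one (nat_lit 4198683) .nil)))),
   .two (nat_lit 13195280394) (nat_lit 20704133133) (.two (nat_lit 41943044) (nat_lit 20704133163) (.two (nat_lit 21777874947) (nat_lit 343933367) (.two (nat_lit 1048576) (nat_lit 28764539385) .nil))),
   .two (nat_lit 4601151496) (nat_lit 159224168456) (.two (nat_lit 2961178628) (nat_lit 2923429915) (.two (nat_lit 176160770) (nat_lit 1849688248) (.two (nat_lit 37748737) (nat_lit 184416207575) (.two (nat_lit 4194304) (nat_lit 11476666644) (.one (nat_lit 9772732443) .nil))))),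
   .two (nat_lit 8388616) (nat_lit 218103816) (.two (nat_lit 218103812) (nat_lit 8388632) (.two (nat_lit 2969567235) (nat_lit 2424308426) (.two (nat_lit 16777216) (nat_lit 158083320078) (.one (nat_lit 10343157530) .nil)))),
   .two (nat_lit 16777224) (nat_lit 9934209032) (.two (nat_lit 606076932) (nat_lit 721420315) (.two (nat_lit 184549379) (nat_lit 9967763635) (.two (nat_lit 16777217) (nat_lit 740295367) (.two (nat_lit 4194304) (nat_lit 174686472412) (.one (nat_lit 2101532) .nil))))),
   .two (nat_lit 20638072840) (nat_lit 46477082651) (.two (nat_lit 159217876995) (nat_lit 28793897701) (.two (nat_lit 2097152) (nat_lit 1178601816) (.one (nat_lit 4198685) .nil))),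
   .two (nat_lit 19530776584) (nat_lit 9948889131) (.two (nat_lit 157036838915) (nat_lit 166245433812) (.two (nat_lit 9766436865) (nat_lit 21223179821) (.one (nat_lit 158158818589) .nil))),
   .two (nat_lit 169869320) (nat_lit 28693233672) (.two (nat_lit 1849688068) (nat_lit 11543773226) (.two (nat_lit 169869314) (nat_lit 1749025080) (.two (nat_lit 2097153) (nat_lit 158079124185) (.two (nat_lit 8388608) (nat_lit 159217879552) .nil)))),
   .two (nat_lit 83886088) (nat_lit 1846542344) (.two (nat_lit 1358954500) (nat_lit 1846542362) (.two (nat_lit 28757196803) (nat_lit 11626611178) (.two (nat_lit 9765388289) (nat_lit 183928619736) (.two (nat_lit 1048576) (nat_lit 1291847961) (.one (nat_lit 37246470656) .nil))))),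
   .two (nat_lit 285212680) (nat_lit 156971827208) (.two (nat_lit 156971827204) (nat_lit 9982443568) (.two (nat_lit 166132187138) (nat_lit 10351542565) (.two (nat_lit 9768534017) (nat_lit 184550079) (.two (nat_lit 2097152) (nat_lit 4043310641) (.one (nat_lit 10552872386) .nil))))),
   .two (nat_lit 822083592) (nat_lit 46409973768) (.two (nat_lit 46409973764) (nat_lit 185021235246) (.two (nat_lit 4601151491) (nat_lit 174768259379) (.two (nat_lit 2097153) (nat_lit 184431936210) (.two (nat_lit 4194304) (nat_lit 2100039) (.one (nat_lit 69209511) .nil))))),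
   .two (nat_lit 11559501832) (nat_lit 135266314) (.two (nat_lit 2902458372) (nat_lit 9799991359) (.two (nat_lit 806354947) (nat_lit 721420988) (.two (nat_lit 1048576) (nat_lit 16779611) (.one (nat_lit 4598009143) .nil)))),
   .two (nat_lit 9768534024) (nat_lit 10939793416) (.two (nat_lit 9768534020) (nat_lit 158075977822) (.two (nat_lit 1913651203) (nat_lit 1312817503) (.two (nat_lit 4194305) (nat_lit 158176642221) (.two (nat_lit 1048576) (nat_lit 4197192) (.one (nat_lit 9902755113) .nil))))),
   .two (nat_lit 10343153672) (nat_lit 822083594) (.two (nat_lit 50331652) (nat_lit 3464495146) (.two (nat_lit 4605345795) (nat_lit 4647289156) (.two (nat_lit 8388609) (nat_lit 1191183039) (.two (nat_lit 2097152) (nat_lit 788530737) (.one (nat_lit 8392990) .nil))))),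
   .two (nat_lit 46414168072) (nat_lit 83886123) (.two (nat_lit 8388611) (nat_lit 16777501) (.two (nat_lit 8388609) (nat_lit 3472884850) (.two (nat_lit 8388608) (nat_lit 28101839095) (.one (nat_lit 184553380) .nil)))),
   .two (nat_lit 306184202) (nat_lit 2350907411) (.two (nat_lit 272629764) (nat_lit 10336862289) (.two (nat_lit 10504634371) (nat_lit 4634706360) (.two (nat_lit 2097152) (nat_lit 156535621828) (.one (nat_lit 4198687) .nil)))),
   .two (nat_lit 8388616) (nat_lit 157036838920) (.two (nat_lit 159224168452) (nat_lit 3525312536) (.two (nat_lit 46407876610) (nat_lit 11618222783) (.two (nat_lit 2097152) (nat_lit 37253809695) (.one (nat_lit 4632612201) .nil)))),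
   .two (nat_lit 272629768) (nat_lit 184993972249) (.two (nat_lit 4194306) (nat_lit 184993972664) (.two (nat_lit 4194304) (nat_lit 19134416444) (.one (nat_lit 4601155491) .nil))),
   .two (nat_lit 8388616) (nat_lit 3458203656) (.two (nat_lit 9940500484) (nat_lit 3558866969) (.two (nat_lit 47548727299) (nat_lit 612368452) (.two (nat_lit 9768534017) (nat_lit 28764537550) (.two (nat_lit 4194304) (nat_lit 18926798377) (.one (nat_lit 8392992) .nil))))),
   .two (nat_lit 612368392) (nat_lit 605028367) (.two (nat_lit 705691652) (nat_lit 184993972249) (.two (nat_lit 34603011) (nat_lit 612368751) (.two (nat_lit 9766436865) (nat_lit 1216348887) (.two (nat_lit 2097152) (nat_lit 8391499) (.one (nat_lit 839913257) .nil))))),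
   .two (nat_lit 285212680) (nat_lit 158143086600) (.two (nat_lit 822083588) (nat_lit 158143086618) (.two (nat_lit 1276116994) (nat_lit 9781117108) (.two (nat_lit 50331649) (nat_lit 11610884280) (.one (nat_lit 1947209626) .nil)))),
   .two (nat_lit 285212680) (nat_lit 166197198904) (.two (nat_lit 9934209027) (nat_lit 16777284) (.two (nat_lit 9766436865) (nat_lit 28772927672) (.one (nat_lit 16781601) .nil))),
   .two (nat_lit 156367847432) (nat_lit 46474985499) (.two (nat_lit 46409973762) (nat_lit 11007951287) (.two (nat_lit 4194304) (nat_lit 69208565) .nil)),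
   .two (nat_lit 2902458376) (nat_lit 158143086601) (.two (nat_lit 1276116996) (nat_lit 159232557104) (.two (nat_lit 285212675) (nat_lit 1410335060) (.two (nat_lit 4194305) (nat_lit 2961179375) (.two (nat_lit 4194304) (nat_lit 158083319943) (.one (nat_lit 10955525562) .nil))))),
   .two (nat_lit 183853121544) (nat_lit 10939793416) (.two (nat_lit 1753219076) (nat_lit 10436476970) (.two (nat_lit 174752530435) (nat_lit 209715385) (.two (nat_lit 9765388289) (nat_lit 3464496301) (.two (nat_lit 1048576) (nat_lit 612370777) (.one (nat_lit 336596265) .nil))))),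
   .two (nat_lit 9781116936) (nat_lit 11610882066) (.two (nat_lit 3539992580) (nat_lit 4028629017) (.two (nat_lit 203423747) (nat_lit 4647288900) (.two (nat_lit 605028353) (nat_lit 69207593) (.one (nat_lit 1052964) .nil)))),
   .two (nat_lit 9866051592) (nat_lit 28758245414) (.two (nat_lit 1276116994) (nat_lit 20738736406) (.two (nat_lit 605028353) (nat_lit 158647452804) (.two (nat_lit 1048576) (nat_lit 2099550) (.one (nat_lit 2101541) .nil)))),
   .two (nat_lit 156367847432) (nat_lit 3558866987) (.two (nat_lit 46409973762) (nat_lit 2988442303) (.two (nat_lit 4194304) (nat_lit 47548729627) (.one (nat_lit 4634709975) .nil))),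
   .two (nat_lit 654311432) (nat_lit 11007950858) (.two (nat_lit 1358954500) (nat_lit 1309671472) (.two (nat_lit 4599054339) (nat_lit 1191183040) (.two (nat_lit 1048576) (nat_lit 16779488) (.one (nat_lit 1410339361) .nil)))),
   .two (nat_lit 1916796936) (nat_lit 21207449627) (.two (nat_lit 1846542339) (nat_lit 1346371885) (.two (nat_lit 9765388289) (nat_lit 37749464) (.two (nat_lit 1048576) (nat_lit 4196703) (.one (nat_lit 10335817010) .nil)))),
   .two (nat_lit 721420296) (nat_lit 10504634376) (.two (nat_lit 1358954500) (nat_lit 4028629019) (.two (nat_lit 2887778306) (nat_lit 16777922) (.two (nat_lit 2097152) (nat_lit 3573549220) (.one (nat_lit 46508544193) .nil)))),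
   .two (nat_lit 1277165576) (nat_lit 1343225875) (.two (nat_lit 1343225860) (nat_lit 21778923574) (.two (nat_lit 1277165570) (nat_lit 183845781685) (.two (nat_lit 605028353) (nat_lit 28087157464) (.two (nat_lit 1048576) (nat_lit 159251433774) (.one (nat_lit 11006904833) .nil))))),
   .two (nat_lit 10370416648) (nat_lit 158075977749) (.two (nat_lit 1343225860) (nat_lit 166230753320) (.two (nat_lit 9866051587) (nat_lit 10001318277) (.two (nat_lit 34603009) (nat_lit 304087781) (.two (nat_lit 1048576) (nat_lit 606079247) (.one (nat_lit 1052499) .nil))))),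
   .two (nat_lit 184549384) (nat_lit 18933088264) (.two (nat_lit 18933088260) (nat_lit 721420468) (.two (nat_lit 41943041) (nat_lit 50332345) (.two (nat_lit 8388608) (nat_lit 2969569509) (.one (nat_lit 16781606) .nil)))),
   .two (nat_lit 809500680) (nat_lit 2317353018) (.two (nat_lit 10504634371) (nat_lit 843055283) (.two (nat_lit 4194305) (nat_lit 174686471398) (.two (nat_lit 4194304) (nat_lit 46508542137) (.one (nat_lit 37314629656) .nil)))),
   .two (nat_lit 272629768) (nat_lit 185027526667) (.two (nat_lit 37748740) (nat_lit 2357199204) (.two (nat_lit 606076929) (nat_lit 11479811215) (.two (nat_lit 2097152) (nat_lit 10947135004) (.one (nat_lit 8392999) .nil)))),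
   .two (nat_lit 2969567240) (nat_lit 3458203656) (.two (nat_lit 10385096708) (nat_lit 35651635) (.two (nat_lit 47548727299) (nat_lit 2969567300) (.two (nat_lit 2097153) (nat_lit 156548204819) (.one (nat_lit 11544825059) .nil)))),
   .two (nat_lit 11543773192) (nat_lit 28693233672) (.two (nat_lit 11543773188) (nat_lit 12117344331) (.two (nat_lit 739246083) (nat_lit 183949590803) (.two (nat_lit 34603009) (nat_lit 13224641209) (.two (nat_lit 4194304) (nat_lit 183912892648) (.one (nat_lit 11476668593) .nil))))),
   .two (nat_lit 754974728) (nat_lit 34603062) (.two (nat_lit 158143086595) (nat_lit 1191182515) (.two (nat_lit 605028353) (nat_lit 855639618) (.one (nat_lit 11022635287) .nil))),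
   .two (nat_lit 75497480) (nat_lit 184416206875) (.two (nat_lit 713031682) (nat_lit 4598006153) (.two (nat_lit 50331649) (nat_lit 873465383) (.one (nat_lit 174685425404) .nil))),
   .two (nat_lit 169869320) (nat_lit 174755676175) (.two (nat_lit 169869316) (nat_lit 75497531) (.two (nat_lit 8388610) (nat_lit 174685421751) (.two (nat_lit 8388609) (nat_lit 10906240155) (.two (nat_lit 2097152) (nat_lit 8391502) (.one (nat_lit 2101546) .nil))))),
   .two (nat_lit 809500680) (nat_lit 3565158464) (.two (nat_lit 4194306) (nat_lit 3028287928) (.two (nat_lit 4194304) (nat_lit 19604179159) (.one (nat_lit 4198699) .nil))),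
   .two (nat_lit 620757000) (nat_lit 809500680) (.two (nat_lit 2969567236) (nat_lit 104857679) (.two (nat_lit 218103811) (nat_lit 843055283) (.two (nat_lit 16777217) (nat_lit 46477084225) (.one (nat_lit 16781612) .nil)))),
   .two (nat_lit 10504634376) (nat_lit 3028287497) (.two (nat_lit 47555018756) (nat_lit 46474985514) (.two (nat_lit 2954887171) (nat_lit 13195280659) (.two (nat_lit 2097153) (nat_lit 13195281942) (.one (nat_lit 47588576652) .nil)))),
   .two (nat_lit 2902458376) (nat_lit 1746927680) (.two (nat_lit 218103811) (nat_lit 37247516853) (.two (nat_lit 606076929) (nat_lit 822084282) (.two (nat_lit 16777216) (nat_lit 2100047) (.one (nat_lit 2101550) .nil)))),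
   .two (nat_lit 13195280392) (nat_lit 18925748283) (.two (nat_lit 270532611) (nat_lit 166203490605) (.two (nat_lit 2097153) (nat_lit 156364703271) (.one (nat_lit 873467204) .nil))),
   .two (nat_lit 8388616) (nat_lit 218103816) (.two (nat_lit 713031684) (nat_lit 1846542362) (.two (nat_lit 41943043) (nat_lit 158176641354) (.two (nat_lit 16777217) (nat_lit 10443817706) (.two (nat_lit 16777216) (nat_lit 9873393965) (.one (nat_lit 1052975) .nil))))),
   .two (nat_lit 754974730) (nat_lit 4605345806) (.two (nat_lit 11492392964) (nat_lit 4605345837) (.two (nat_lit 8388611) (nat_lit 251658981) (.two (nat_lit 8388608) (nat_lit 1795164826) (.one (nat_lit 156380434573) .nil)))),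
   .two (nat_lit 158083317768) (nat_lit 174752530440) (.two (nat_lit 174752530436) (nat_lit 158083317786) (.two (nat_lit 20637024258) (nat_lit 28093448631) (.two (nat_lit 1048576) (nat_lit 1182795288) (.one (nat_lit 12054433150) .nil)))),
   .two (nat_lit 46414168072) (nat_lit 21812477963) (.two (nat_lit 46414168068) (nat_lit 174686470188) (.two (nat_lit 46414168066) (nat_lit 174753579770) (.two (nat_lit 8388608) (nat_lit 10370418952) (.one (nat_lit 2101552) .nil)))),
   .two (nat_lit 1779433480) (nat_lit 2323644454) (.two (nat_lit 101711875) (nat_lit 746586473) (.two (nat_lit 9781116929) (nat_lit 156364702137) (.two (nat_lit 16777216) (nat_lit 1051472) (.one (nat_lit 1052977) .nil)))),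
   .two (nat_lit 2902458376) (nat_lit 10437525516) (.two (nat_lit 169869316) (nat_lit 46523219994) (.two (nat_lit 169869314) (nat_lit 11593056969) (.two (nat_lit 2097152) (nat_lit 2416969930) (.one (nat_lit 1052978) .nil)))),
   .two (nat_lit 721420296) (nat_lit 3527409672) (.two (nat_lit 11492392964) (nat_lit 157038936102) (.two (nat_lit 2889875458) (nat_lit 16777918) (.two (nat_lit 4194304) (nat_lit 1862272557) (.one (nat_lit 11614031883) .nil)))),
   .two (nat_lit 1277165576) (nat_lit 158143086600) (.two (nat_lit 10370416644) (nat_lit 705691727) (.two (nat_lit 1276116994) (nat_lit 20738736307) (.two (nat_lit 605028353) (nat_lit 9766438054) (.two (nat_lit 1048576) (nat_lit 706742531) (.one (nat_lit 1052980) .nil))))),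
   .two (nat_lit 285212680) (nat_lit 1384120363) (.two (nat_lit 11479810050) (nat_lit 11626611445) (.two (nat_lit 8388608) (nat_lit 174768261249) (.one (nat_lit 8393014) .nil))),
   .two (nat_lit 276824072) (nat_lit 2902458376) (.two (nat_lit 9881780228) (nat_lit 1913651268) (.two (nat_lit 8388609) (nat_lit 269485169) (.two (nat_lit 1048576) (nat_lit 10007611668) (.one (nat_lit 10947137463) .nil)))),
   .two (nat_lit 754974728) (nat_lit 1950351413) (.two (nat_lit 2889875459) (nat_lit 251658530) (.two (nat_lit 4194305) (nat_lit 9814673619) (.one (nat_lit 16781623) .nil))),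
   .two (nat_lit 713031688) (nat_lit 10369368081) (.two (nat_lit 4194308) (nat_lit 343932966) (.two (nat_lit 157038936067) (nat_lit 880804164) (.two (nat_lit 41943041) (nat_lit 1049837) (.two (nat_lit 1048576) (nat_lit 8391507) (.one (nat_lit 11006905682) .nil))))),
   .two (nat_lit 1745879048) (nat_lit 28693233690) (.two (nat_lit 183845781506) (nat_lit 156971827639) (.two (nat_lit 1048576) (nat_lit 3024094754) (.one (nat_lit 4198713) .nil))),
   .two (nat_lit 19596836872) (nat_lit 156581756949) (.two (nat_lit 117440516) (nat_lit 12617515046) (.two (nat_lit 11543773187) (nat_lit 11593056994) (.two (nat_lit 1048576) (nat_lit 1392511119) (.one (nat_lit 1052986) .nil)))),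
   .two (nat_lit 184549384) (nat_lit 69206029) (.two (nat_lit 742391812) (nat_lit 3036676275) (.two (nat_lit 2097153) (nat_lit 20637024696) (.two (nat_lit 2097152) (nat_lit 9933162042) (.one (nat_lit 157051522897) .nil)))),
   .two (nat_lit 21785214984) (nat_lit 159250382912) (.two (nat_lit 1343225859) (nat_lit 20644364566) (.two (nat_lit 605028353) (nat_lit 20644364986) (.two (nat_lit 1048576) (nat_lit 9806285093) (.one (nat_lit 46473940332) .nil)))),
   .two (nat_lit 754974728) (nat_lit 9802088461) (.two (nat_lit 1191182340) (nat_lit 1212154035) (.two (nat_lit 37748737) (nat_lit 19109250626) (.one (nat_lit 4198715) .nil))),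
   .two (nat_lit 169869320) (nat_lit 2353004600) (.two (nat_lit 4194306) (nat_lit 166196150453) (.two (nat_lit 37748737) (nat_lit 4631560966) (.two (nat_lit 1048576) (nat_lit 166230755461) (.one (nat_lit 185027530107) .nil)))),
   .two (nat_lit 184549384) (nat_lit 1847590938) (.two (nat_lit 184549378) (nat_lit 10940842163) (.two (nat_lit 16777217) (nat_lit 337642191) (.two (nat_lit 2097152) (nat_lit 47563408962) (.one (nat_lit 2101564) .nil)))),
   .two (nat_lit 11479810056) (nat_lit 18933088294) (.two (nat_lit 809500675) (nat_lit 13195280665) (.two (nat_lit 37748737) (nat_lit 880804540) (.two (nat_lit 4194304) (nat_lit 8391508) (.one (nat_lit 28793900394) .nil)))),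
   .two (nat_lit 754974728) (nat_lit 156569174059) (.two (nat_lit 11492392962) (nat_lit 183949590815) (.two (nat_lit 50331649) (nat_lit 166132189501) (.one (nat_lit 4198717) .nil))),
   .two (nat_lit 2902458376) (nat_lit 19532873768) (.two (nat_lit 19599982595) (nat_lit 654311864) (.two (nat_lit 4194304) (nat_lit 156984412678) .nil)),
   .two (nat_lit 50331656) (nat_lit 156372041743) (.two (nat_lit 183853121540) (nat_lit 183845781546) (.two (nat_lit 13195280387) (nat_lit 10955522366) (.two (nat_lit 41943041) (nat_lit 46473939206) (.one (nat_lit 1052990) .nil)))),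
   .two (nat_lit 11492392968) (nat_lit 1947205642) (.two (nat_lit 754974724) (nat_lit 183912890394) (.two (nat_lit 11476664322) (nat_lit 9982444238) (.two (nat_lit 1048576) (nat_lit 11559504538) (.one (nat_lit 1929384120) .nil)))),
   .two (nat_lit 159224168456) (nat_lit 37748795) (.two (nat_lit 171966467) (nat_lit 9940500661) (.two (nat_lit 4194305) (nat_lit 46984594116) (.two (nat_lit 1048576) (nat_lit 159219976364) (.one (nat_lit 4198719) .nil)))),
   .two (nat_lit 272629768) (nat_lit 10504634376) (.two (nat_lit 28691136516) (nat_lit 159253528627) (.two (nat_lit 2889875459) (nat_lit 10336862554) (.two (nat_lit 41943041) (nat_lit 1312817895) (.two (nat_lit 8388608) (nat_lit 2990540325) (.one (nat_lit 47584383159) .nil))))),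
   .two (nat_lit 184549384) (nat_lit 46414168072) (.two (nat_lit 46414168068) (nat_lit 184549402) (.two (nat_lit 4605345795) (nat_lit 184549815) (.two (nat_lit 8388608) (nat_lit 184550935) (.one (nat_lit 156548205861) .nil)))),
   .two (nat_lit 46414168072) (nat_lit 12047089672) (.two (nat_lit 739246084) (nat_lit 10343153691) (.two (nat_lit 176160770) (nat_lit 166129041738) (.two (nat_lit 8388609) (nat_lit 183912891572) (.two (nat_lit 1048576) (nat_lit 158653745341) (.one (nat_lit 8393024) .nil))))),
   .two (nat_lit 4601151496) (nat_lit 620757021) (.two (nat_lit 10552868870) (nat_lit 11513364507) (.two (nat_lit 4194306) (nat_lit 3573547356) (.two (nat_lit 156372041729) (nat_lit 2956985035) (.two (nat_lit 8388608) (nat_lit 4196708) (.one (nat_lit 16781633) .nil))))),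
   .two (nat_lit 654311432) (nat_lit 46474985499) (.two (nat_lit 3525312515) (nat_lit 21793604302) (.two (nat_lit 2097152) (nat_lit 318769423) (.one (nat_lit 16781634) .nil))),
   .two (nat_lit 8388616) (nat_lit 20707278860) (.two (nat_lit 41943044) (nat_lit 708837425) (.two (nat_lit 4601151491) (nat_lit 46984593589) (.two (nat_lit 156367847425) (nat_lit 46414169313) (.two (nat_lit 4194304) (nat_lit 8391509) (.one (nat_lit 4198464) .nil))))),
   .two (nat_lit 3464495113) (nat_lit 20704133141) (.two (nat_lit 13195280388) (nat_lit 10939793452) (.two (nat_lit 12054429699) (nat_lit 166229705067) (.two (nat_lit 4194305) (nat_lit 336593627) (.two (nat_lit 4194304) (nat_lit 1050981) (.one (nat_lit 9768537316) .nil))))),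
   .two (nat_lit 822083592) (nat_lit 9934209032) (.two (nat_lit 9934209028) (nat_lit 1191182374) (.two (nat_lit 10385096707) (nat_lit 158144135453) (.two (nat_lit 16777217) (nat_lit 19128125637) (.one (nat_lit 16781635) .nil)))),
   .two (nat_lit 1178599432) (nat_lit 156372041738) (.two (nat_lit 3464495108) (nat_lit 46477082675) (.two (nat_lit 1344274435) (nat_lit 11618222786) (.two (nat_lit 2097152) (nat_lit 8391014) (.one (nat_lit 3460304795) .nil)))),
   .two (nat_lit 2889875464) (nat_lit 19027460137) (.two (nat_lit 2889875458) (nat_lit 10538189239) (.two (nat_lit 4194304) (nat_lit 2418017822) (.one (nat_lit 20638076758) .nil))),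
   .two (nat_lit 11559501832) (nat_lit 174752530440) (.two (nat_lit 174752530436) (nat_lit 11559501850) (.two (nat_lit 10939793411) (nat_lit 1358954935) (.two (nat_lit 1048576) (nat_lit 1291847189) (.one (nat_lit 620761176) .nil)))),
   .two (nat_lit 9940500488) (nat_lit 1291845642) (.two (nat_lit 13191086084) (nat_lit 645922868) (.two (nat_lit 176160770) (nat_lit 37749106) (.two (nat_lit 8388609) (nat_lit 4195996) (.two (nat_lit 8388608) (nat_lit 4197206) (.one (nat_lit 1426067336) .nil))))),
   .two (nat_lit 2954887176) (nat_lit 10506731528) (.two (nat_lit 1849688068) (nat_lit 13222543411) (.two (nat_lit 203423747) (nat_lit 156367847770) (.two (nat_lit 612368385) (nat_lit 11511268071) (.two (nat_lit 8388608) (nat_lit 304088613) (.one (nat_lit 20638076687) .nil))))),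
   .two (nat_lit 673185805) (nat_lit 2323644428) (.two (nat_lit 276824068) (nat_lit 673185835) (.two (nat_lit 1343225859) (nat_lit 606077112) (.two (nat_lit 605028353) (nat_lit 174686472446) (.one (nat_lit 1182797056) .nil)))),
   .two (nat_lit 169869320) (nat_lit 19029557274) (.two (nat_lit 2097155) (nat_lit 3527409732) (.two (nat_lit 2097153) (nat_lit 12050236120) (.two (nat_lit 2097152) (nat_lit 1749026973) (.one (nat_lit 1052997) .nil)))),
   .two (nat_lit 47563407368) (nat_lit 20638072840) (.two (nat_lit 1277165572) (nat_lit 184416206896) (.two (nat_lit 1276116994) (nat_lit 3525312807) (.two (nat_lit 9765388289) (nat_lit 46407877376) (.two (nat_lit 1048576) (nat_lit 2099559) (.one (nat_lit 1052998) .nil))))),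
   .two (nat_lit 285212680) (nat_lit 18933088321) (.two (nat_lit 16777218) (nat_lit 46481277689) (.two (nat_lit 4194304) (nat_lit 11492393778) (.one (nat_lit 16781639) .nil))),
   .two (nat_lit 156372041736) (nat_lit 21207449608) (.two (nat_lit 12054429700) (nat_lit 158143086616) (.two (nat_lit 20637024258) (nat_lit 165532402368) (.two (nat_lit 1048576) (nat_lit 8391016) (.one (nat_lit 2349862981) .nil)))),
   .two (nat_lit 4601151496) (nat_lit 184416206875) (.two (nat_lit 46409973763) (nat_lit 2416967860) (.two (nat_lit 37748737) (nat_lit 185020187820) (.two (nat_lit 4194304) (nat_lit 20737689869) (.one (nat_lit 1053000) .nil)))),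
   .two (nat_lit 10538188810) (nat_lit 20644364301) (.two (nat_lit 10504634372) (nat_lit 20644364331) (.two (nat_lit 166130089987) (nat_lit 10007609631) (.two (nat_lit 2097153) (nat_lit 21785216534) (.one (nat_lit 21818773314) .nil)))),
   .two (nat_lit 754974728) (nat_lit 10436476966) (.two (nat_lit 101711875) (nat_lit 10385097408) (.two (nat_lit 1048576) (nat_lit 1426065603) (.one (nat_lit 336596283) .nil))),
   .two (nat_lit 822083592) (nat_lit 12148801585) (.two (nat_lit 16777219) (nat_lit 10336862531) (.two (nat_lit 2097153) (nat_lit 10921968393) (.two (nat_lit 4194304) (nat_lit 1948255796) (.one (nat_lit 2101578) .nil)))),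
   .two (nat_lit 285212680) (nat_lit 19532873766) (.two (nat_lit 2889875458) (nat_lit 218104093) (.two (nat_lit 4194305) (nat_lit 156481095877) (.one (nat_lit 156468514595) .nil))),
   .two (nat_lit 1191182344) (nat_lit 157038936074) (.two (nat_lit 156367847428) (nat_lit 158158815280) (.two (nat_lit 46409973762) (nat_lit 21223178535) (.two (nat_lit 4194305) (nat_lit 1795162815) (.two (nat_lit 2097152) (nat_lit 184551648) (.one (nat_lit 16781643) .nil))))),
   .two (nat_lit 4601151496) (nat_lit 185035915323) (.two (nat_lit 639631363) (nat_lit 2923430212) (.two (nat_lit 50331649) (nat_lit 157036839637) (.two (nat_lit 16777216) (nat_lit 4197209) (.one (nat_lit 183928622484) .nil)))),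
   .two (nat_lit 739246088) (nat_lit 21785214984) (.two (nat_lit 1350565892) (nat_lit 28790751259) (.two (nat_lit 11543773187) (nat_lit 1417674931) (.two (nat_lit 34603009) (nat_lit 1853883079) (.two (nat_lit 4194304) (nat_lit 19093522944) .nil)))),
   .two (nat_lit 11479810056) (nat_lit 3464495112) (.two (nat_lit 11479810052) (nat_lit 11484004401) (.two (nat_lit 4605345795) (nat_lit 205521298) (.two (nat_lit 37748737) (nat_lit 19604177624) (.two (nat_lit 4194304) (nat_lit 8391017) (.one (nat_lit 1916799488) .nil))))),
   .two (nat_lit 639631368) (nat_lit 3464495130) (.two (nat_lit 10370416643) (nat_lit 3464495283) (.two (nat_lit 2097153) (nat_lit 880804536) (.two (nat_lit 2097152) (nat_lit 176163124) (.one (nat_lit 3525315893) .nil)))),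
   .two (nat_lit 20644364296) (nat_lit 46474985498) (.two (nat_lit 2887778306) (nat_lit 3464495284) (.two (nat_lit 2097153) (nat_lit 243270777) (.two (nat_lit 2097152) (nat_lit 8391018) (.one (nat_lit 47582285608) .nil)))),
   .two (nat_lit 203423752) (nat_lit 11513364490) (.two (nat_lit 639631364) (nat_lit 306184230) (.two (nat_lit 2887778306) (nat_lit 13224640790) (.two (nat_lit 2097153) (nat_lit 1782581598) (.one (nat_lit 174755678714) .nil)))),
   .two (nat_lit 9940500488) (nat_lit 304087086) (.two (nat_lit 176160770) (nat_lit 159251431807) (.two (nat_lit 4194305) (nat_lit 612370765) (.one (nat_lit 874515790) .nil))),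
   .two (nat_lit 2902458376) (nat_lit 21208498184) (.two (nat_lit 218103812) (nat_lit 1310720038) (.two (nat_lit 1277165571) (nat_lit 50332088) (.two (nat_lit 2097152) (nat_lit 11593057850) (.one (nat_lit 13203672486) .nil)))),
   .two (nat_lit 13203669000) (nat_lit 3560964105) (.two (nat_lit 9948889092) (nat_lit 11479810107) (.two (nat_lit 3458203651) (nat_lit 166199296305) (.two (nat_lit 2097153) (nat_lit 11492393726) (.two (nat_lit 2097152) (nat_lit 4197210) (.one (nat_lit 2101580) .nil))))),
   .two (nat_lit 4194312) (nat_lit 183846830128) (.two (nat_lit 4194306) (nat_lit 166130090288) (.two (nat_lit 34603009) (nat_lit 158649549568) (.two (nat_lit 1048576) (nat_lit 10909386277) (.one (nat_lit 1053005) .nil)))),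
   .two (nat_lit 41943048) (nat_lit 166132187144) (.two (nat_lit 1175453700) (nat_lit 9936306277) (.two (nat_lit 1916796931) (nat_lit 3457155254) (.two (nat_lit 34603009) (nat_lit 2424308440) (.two (nat_lit 4194304) (nat_lit 19093522944) .nil)))),
   .two (nat_lit 11559501832) (nat_lit 174685421631) (.two (nat_lit 638582787) (nat_lit 50332465) (.one (nat_lit 16781647) .nil)),
   .two (nat_lit 75497480) (nat_lit 156468510732) (.two (nat_lit 4194308) (nat_lit 1417674792) (.two (nat_lit 158083317763) (nat_lit 28089254226) (.two (nat_lit 41943041) (nat_lit 183949591346) (.one (nat_lit 4030729449) .nil)))),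
   .two (nat_lit 713031688) (nat_lit 2920284172) (.two (nat_lit 21785214980) (nat_lit 11543773210) (.two (nat_lit 705691650) (nat_lit 3531604153) (.two (nat_lit 34603009) (nat_lit 8390848) (.one (nat_lit 1954548991) .nil)))),
   .two (nat_lit 2902458376) (nat_lit 10940841992) (.two (nat_lit 9781116932) (nat_lit 236978201) (.two (nat_lit 2954887171) (nat_lit 11492393654) (.two (nat_lit 2097152) (nat_lit 10519316034) (.one (nat_lit 158144139257) .nil)))),
   .two (nat_lit 176160776) (nat_lit 19027460106) (.two (nat_lit 9940500484) (nat_lit 156533522473) (.two (nat_lit 166130089986) (nat_lit 174692761938) (.two (nat_lit 9768534017) (nat_lit 343933368) (.two (nat_lit 2097152) (nat_lit 343933746) (.one (nat_lit 2323647782) .nil))))),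
   .two (nat_lit 117440520) (nat_lit 10436476967) (.two (nat_lit 11476664322) (nat_lit 1291846334) (.two (nat_lit 1048576) (nat_lit 9915336225) (.one (nat_lit 11626614531) .nil))),
   .two (nat_lit 813694984) (nat_lit 2923429924) (.two (nat_lit 8388610) (nat_lit 20640170349) (.two (nat_lit 2097153) (nat_lit 19537068779) (.two (nat_lit 2097152) (nat_lit 8391518) (.one (nat_lit 2424311904) .nil)))),
   .two (nat_lit 12054429704) (nat_lit 10506731528) (.two (nat_lit 9768534020) (nat_lit 4034920496) (.two (nat_lit 3527409667) (nat_lit 11584667716) (.two (nat_lit 4194305) (nat_lit 158083318458) (.two (nat_lit 2097152) (nat_lit 2894071348) (.one (nat_lit 41946345) .nil))))),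
   .two (nat_lit 620757000) (nat_lit 10909384716) (.two (nat_lit 184549380) (nat_lit 171966544) (.two (nat_lit 16777219) (nat_lit 174755676345) (.two (nat_lit 16777217) (nat_lit 47584379587) (.two (nat_lit 16777216) (nat_lit 306186542) (.one (nat_lit 4198736) .nil))))),
   .two (nat_lit 2969567240) (nat_lit 673185802) (.two (nat_lit 157036838916) (nat_lit 2969567256) (.two (nat_lit 46978301955) (nat_lit 2969567931) (.two (nat_lit 2097152) (nat_lit 2969568788) (.one (nat_lit 183861514143) .nil)))),
   .two (nat_lit 18928893960) (nat_lit 10343153672) (.two (nat_lit 10343153668) (nat_lit 11513364522) (.two (nat_lit 46414168066) (nat_lit 19599983031) (.two (nat_lit 8388608) (nat_lit 2956985882) (.one (nat_lit 306187698) .nil)))),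
   .two (nat_lit 101711880) (nat_lit 184993972232) (.two (nat_lit 184993972228) (nat_lit 1947205669) (.two (nat_lit 739246083) (nat_lit 11618222362) (.two (nat_lit 34603009) (nat_lit 1786774284) (.two (nat_lit 1048576) (nat_lit 8391021) (.one (nat_lit 1317015836) .nil))))),
   .two (nat_lit 754974728) (nat_lit 156465365035) (.two (nat_lit 1779433475) (nat_lit 11492393399) (.two (nat_lit 1048576) (nat_lit 10921969181) (.one (nat_lit 11492396398) .nil))),
   .two (nat_lit 285212680) (nat_lit 12117344264) (.two (nat_lit 12117344260) (nat_lit 285212697) (.two (nat_lit 11479810050) (nat_lit 822084023) (.two (nat_lit 4194304) (nat_lit 158662133282) (.one (nat_lit 46489668932) .nil)))),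
   .two (nat_lit 11479810056) (nat_lit 10335813732) (.two (nat_lit 156968681475) (nat_lit 4030726637) (.two (nat_lit 37748737) (nat_lit 184986633362) (.two (nat_lit 1048576) (nat_lit 2319452360) (.one (nat_lit 4198737) .nil)))),
   .two (nat_lit 272629768) (nat_lit 654311432) (.two (nat_lit 654311428) (nat_lit 272629784) (.two (nat_lit 2902458370) (nat_lit 1749025482) (.two (nat_lit 16777216) (nat_lit 4196718) (.one (nat_lit 4198738) .nil)))),
   .two (nat_lit 276824072) (nat_lit 11479810110) (.two (nat_lit 41943043) (nat_lit 174752530612) (.two (nat_lit 34603009) (nat_lit 158649549524) (.two (nat_lit 1048576) (nat_lit 4196719) (.one (nat_lit 4198740) .nil)))),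
   .two (nat_lit 203423752) (nat_lit 2994733083) (.two (nat_lit 2954887171) (nat_lit 159224168628) (.two (nat_lit 2097153) (nat_lit 9974056057) (.two (nat_lit 2097152) (nat_lit 46414170324) (.one (nat_lit 1914703617) .nil)))),
   .two (nat_lit 272629768) (nat_lit 11543773196) (.two (nat_lit 809500676) (nat_lit 11476664368) (.two (nat_lit 11479810050) (nat_lit 10000269622) (.two (nat_lit 16777217) (nat_lit 2920286708) .nil))),
   .two (nat_lit 3527409672) (nat_lit 183853121579) (.two (nat_lit 46980399107) (nat_lit 310378964) (.two (nat_lit 4194305) (nat_lit 41945221) (.one (nat_lit 165528211318) .nil))),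
   .two (nat_lit 809500680) (nat_lit 19026411529) (.two (nat_lit 1178599428) (nat_lit 2316304423) (.two (nat_lit 11479810050) (nat_lit 1846543127) (.two (nat_lit 1048576) (nat_lit 183916038437) (.one (nat_lit 4198743) .nil)))),
   .two (nat_lit 2961178632) (nat_lit 46508539954) (.two (nat_lit 34603011) (nat_lit 21785215044) (.two (nat_lit 34603009) (nat_lit 10001319472) (.one (nat_lit 1053016) .nil))),
   .two (nat_lit 11479810056) (nat_lit 3464495129) (.two (nat_lit 46414168066) (nat_lit 47550824633) (.two (nat_lit 37748737) (nat_lit 1317013865) (.one (nat_lit 4198745) .nil))),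
   .two (nat_lit 8388616) (nat_lit 158075977754) (.two (nat_lit 8388610) (nat_lit 11577327796) (.two (nat_lit 8388609) (nat_lit 1049838) (.two (nat_lit 8388608) (nat_lit 12114200938) (.one (nat_lit 158653747376) .nil)))),
   .two (nat_lit 639631368) (nat_lit 1283457081) (.two (nat_lit 2887778306) (nat_lit 158083317939) (.two (nat_lit 2097153) (nat_lit 9806285004) (.one (nat_lit 8393050) .nil))),
   .two (nat_lit 713031688) (nat_lit 9899606057) (.two (nat_lit 713031682) (nat_lit 21811429815) (.two (nat_lit 8388608) (nat_lit 159250386249) .nil)),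
   .two (nat_lit 1795162120) (nat_lit 20640170038) (.two (nat_lit 272629763) (nat_lit 10376708804) (.two (nat_lit 16777216) (nat_lit 46481278499) (.one (nat_lit 28093452172) .nil))),
   .two (nat_lit 8388616) (nat_lit 28693233672) (.two (nat_lit 183853121540) (nat_lit 1346371685) (.two (nat_lit 10506731523) (nat_lit 8389098) (.two (nat_lit 156367847425) (nat_lit 142607908) (.one (nat_lit 20745030924) .nil)))),
   .two (nat_lit 176160776) (nat_lit 158144135176) (.two (nat_lit 46984593412) (nat_lit 183947493427) (.two (nat_lit 639631363) (nat_lit 19100860784) (.two (nat_lit 156364701697) (nat_lit 46407878192) (.one (nat_lit 203428085) .nil)))),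
   .two (nat_lit 4634705929) (nat_lit 3021996054) (.two (nat_lit 3525312516) (nat_lit 306184217) (.two (nat_lit 46980399107) (nat_lit 19094569142) (.two (nat_lit 16777217) (nat_lit 18928895119) (.two (nat_lit 16777216) (nat_lit 10907289838) (.one (nat_lit 337645839) .nil))))),
   .two (nat_lit 169869320) (nat_lit 1849688082) (.two (nat_lit 705691652) (nat_lit 159224168501) (.two (nat_lit 176160770) (nat_lit 10001318067) (.two (nat_lit 2097153) (nat_lit 168821933) (.two (nat_lit 2097152) (nat_lit 8391519) (.one (nat_lit 2101595) .nil))))),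
   .two (nat_lit 11559501832) (nat_lit 3525312520) (.two (nat_lit 1358954500) (nat_lit 3525312538) (.two (nat_lit 2887778306) (nat_lit 117440692) (.two (nat_lit 2097153) (nat_lit 10921968348) (.two (nat_lit 2097152) (nat_lit 11022633153) (.one (nat_lit 2101596) .nil))))),
   .two (nat_lit 2969567240) (nat_lit 673185802) (.two (nat_lit 157036838916) (nat_lit 2969567258) (.two (nat_lit 166130089987) (nat_lit 9948889528) (.two (nat_lit 2097152) (nat_lit 9948890646) (.one (nat_lit 16781661) .nil)))),
   .two (nat_lit 28693233672) (nat_lit 184549421) (.two (nat_lit 1916796931) (nat_lit 46992982490) (.two (nat_lit 9768534017) (nat_lit 156581759336) (.one (nat_lit 11479814215) .nil))),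
   .two (nat_lit 639631368) (nat_lit 46414168074) (.two (nat_lit 47555018756) (nat_lit 20738736166) (.two (nat_lit 20638072835) (nat_lit 343933626) (.two (nat_lit 2097152) (nat_lit 184423549233) (.one (nat_lit 21778926963) .nil)))),
   .two (nat_lit 8388616) (nat_lit 705691656) (.two (nat_lit 169869316) (nat_lit 880803879) (.two (nat_lit 169869314) (nat_lit 1954545966) (.two (nat_lit 605028353) (nat_lit 1853883099) (.two (nat_lit 8388608) (nat_lit 158143088926) (.one (nat_lit 773851660) .nil))))),
   .two (nat_lit 10343153672) (nat_lit 46978301979) (.two (nat_lit 46978301955) (nat_lit 166203490605) (.two (nat_lit 2097153) (nat_lit 9873392328) (.two (nat_lit 2097152) (nat_lit 28798092835) (.one (nat_lit 8392136) .nil)))),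
   .two (nat_lit 10370416648) (nat_lit 8388629) (.two (nat_lit 47555018756) (nat_lit 10538188844) (.two (nat_lit 21208498179) (nat_lit 12624855760) (.two (nat_lit 2097152) (nat_lit 174759872655) (.one (nat_lit 2101601) .nil)))),
   .two (nat_lit 8388616) (nat_lit 156535619600) (.two (nat_lit 306184197) (nat_lit 8388634) (.two (nat_lit 8388610) (nat_lit 4194820) (.two (nat_lit 8388609) (nat_lit 4195998) (.two (nat_lit 8388608) (nat_lit 1782582108) (.one (nat_lit 4198755) .nil))))),
   .two (nat_lit 8388616) (nat_lit 705691656) (.two (nat_lit 10343153668) (nat_lit 11543773363) (.two (nat_lit 41943041) (nat_lit 19596837600) (.two (nat_lit 2097152) (nat_lit 1051489) (.one (nat_lit 37320919546) .nil)))),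
   .two (nat_lit 16777224) (nat_lit 708837389) (.two (nat_lit 9867100164) (nat_lit 352321715) (.two (nat_lit 2097153) (nat_lit 37313577750) (.two (nat_lit 4194304) (nat_lit 806356538) (.one (nat_lit 3472887565) .nil)))),
   .two (nat_lit 11479810056) (nat_lit 3525312520) (.two (nat_lit 13203668996) (nat_lit 21781020720) (.two (nat_lit 16777218) (nat_lit 675283385) (.two (nat_lit 16777216) (nat_lit 239076912) (.one (nat_lit 4198341) .nil)))),
   .two (nat_lit 184419352584) (nat_lit 183953784844) (.two (nat_lit 612368388) (nat_lit 1312817200) (.two (nat_lit 176160770) (nat_lit 10540286241) (.two (nat_lit 8388609) (nat_lit 10338960075) (.two (nat_lit 4194304) (nat_lit 8391523) (.one (nat_lit 2357202228) .nil))))),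
   .two (nat_lit 1277165576) (nat_lit 2923429898) (.two (nat_lit 3527409668) (nat_lit 166230753319) (.two (nat_lit 10940841987) (nat_lit 239075509) (.two (nat_lit 9766436865) (nat_lit 4634706618) (.two (nat_lit 2097152) (nat_lit 12050237745) (.one (nat_lit 1914703219) .nil))))),
   .two (nat_lit 183853121544) (nat_lit 19532873736) (.two (nat_lit 19532873732) (nat_lit 183853121562) (.two (nat_lit 157038936067) (nat_lit 18933088695) (.two (nat_lit 4194304) (nat_lit 28764538395) (.one (nat_lit 8393060) .nil)))),
   .two (nat_lit 158083317769) (nat_lit 1847590931) (.two (nat_lit 654311428) (nat_lit 156969730104) (.two (nat_lit 176160770) (nat_lit 788529542) (.two (nat_lit 9766436865) (nat_lit 9772729051) (.two (nat_lit 2097152) (nat_lit 2365589810) (.one (nat_lit 166130093284) .nil))))),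
   .two (nat_lit 1343225864) (nat_lit 276824081) (.two (nat_lit 46407876612) (nat_lit 2357198945) (.two (nat_lit 176160771) (nat_lit 2350907684) (.two (nat_lit 8388609) (nat_lit 4027581147) (.two (nat_lit 8388608) (nat_lit 1377830437) (.one (nat_lit 1786777579) .nil))))),
   .two (nat_lit 285212680) (nat_lit 158646403086) (.two (nat_lit 218103812) (nat_lit 21777875000) (.two (nat_lit 739246083) (nat_lit 2332033740) (.two (nat_lit 1048576) (nat_lit 183928621342) (.one (nat_lit 16781671) .nil)))),
   .two (nat_lit 639631368) (nat_lit 159224168456) (.two (nat_lit 176160772) (nat_lit 46508540010) (.two (nat_lit 46978301955) (nat_lit 10007609523) (.two (nat_lit 2097153) (nat_lit 1417675446) (.two (nat_lit 16777216) (nat_lit 21778926985) .nil)))),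
   .two (nat_lit 3028287498) (nat_lit 4194327) (.two (nat_lit 47555018756) (nat_lit 183949590569) (.two (nat_lit 46414168067) (nat_lit 675283658) (.two (nat_lit 8388608) (nat_lit 339740956) (.one (nat_lit 4198514) .nil)))),
   .two (nat_lit 2969567240) (nat_lit 13191086088) (.two (nat_lit 37748740) (nat_lit 184549555) (.two (nat_lit 620756993) (nat_lit 157038937210) (.two (nat_lit 2097152) (nat_lit 18928896223) (.one (nat_lit 4198760) .nil)))),
   .two (nat_lit 10504634376) (nat_lit 11513364523) (.two (nat_lit 46980399107) (nat_lit 10940842686) (.two (nat_lit 4194304) (nat_lit 1210058273) (.one (nat_lit 1411386627) .nil))),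
   .two (nat_lit 9768534024) (nat_lit 11551113227) (.two (nat_lit 205520900) (nat_lit 166230753333) (.two (nat_lit 708837379) (nat_lit 2323644762) (.two (nat_lit 605028353) (nat_lit 18926799172) (.one (nat_lit 2101609) .nil)))),
   .two (nat_lit 285212680) (nat_lit 159217877000) (.two (nat_lit 606076932) (nat_lit 822083652) (.two (nat_lit 2097153) (nat_lit 174768259788) (.two (nat_lit 4194304) (nat_lit 1277167169) (.one (nat_lit 16781674) .nil)))),
   .two (nat_lit 158083317768) (nat_lit 20705181715) (.two (nat_lit 310378502) (nat_lit 20705181722) (.two (nat_lit 209715203) (nat_lit 304087330) (.two (nat_lit 606076929) (nat_lit 2961179352) (.two (nat_lit 1048576) (nat_lit 10001319475) (.one (nat_lit 2101611) .nil))))),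
   .two (nat_lit 2889875464) (nat_lit 10343153672) (.two (nat_lit 46414168068) (nat_lit 46510637082) (.two (nat_lit 46414168066) (nat_lit 183949590929) (.two (nat_lit 4194305) (nat_lit 612369636) (.two (nat_lit 16777216) (nat_lit 47550826023) (.one (nat_lit 28089257284) .nil))))),
   .two (nat_lit 285212680) (nat_lit 21208498219) (.two (nat_lit 9934209027) (nat_lit 822084023) (.two (nat_lit 2097152) (nat_lit 158662134276) .nil)),
   .two (nat_lit 620757000) (nat_lit 1916796936) (.two (nat_lit 2969567236) (nat_lit 184419352603) (.two (nat_lit 2902458370) (nat_lit 19599982660) (.two (nat_lit 16777217) (nat_lit 10372514499) (.two (nat_lit 16777216) (nat_lit 742394142) (.one (nat_lit 4198229) .nil))))),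
   .two (nat_lit 156372041738) (nat_lit 855638026) (.two (nat_lit 822083588) (nat_lit 156372041767) (.two (nat_lit 8388611) (nat_lit 9781116996) (.two (nat_lit 8388609) (nat_lit 20652753605) (.two (nat_lit 4194304) (nat_lit 746588670) .nil)))),
   .two (nat_lit 16777224) (nat_lit 3464495112) (.two (nat_lit 721420292) (nat_lit 1846542362) (.two (nat_lit 50331651) (nat_lit 9899606346) (.two (nat_lit 41943041) (nat_lit 336593615) (.two (nat_lit 1048576) (nat_lit 28806482245) (.one (nat_lit 9933164734) .nil))))),
   .two (nat_lit 117440520) (nat_lit 9906946069) (.two (nat_lit 75497476) (nat_lit 46489665584) (.two (nat_lit 11492392962) (nat_lit 156976021804) (.two (nat_lit 2097153) (nat_lit 9940501187) (.two (nat_lit 2097152) (nat_lit 8391026) (.one (nat_lit 9982446084) .nil))))),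
   .two (nat_lit 184549384) (nat_lit 20644364313) (.two (nat_lit 612368387) (nat_lit 2969567300) (.two (nat_lit 41943041) (nat_lit 11626612260) (.one (nat_lit 16781676) .nil))),
   .two (nat_lit 13195280392) (nat_lit 183845781522) (.two (nat_lit 169869316) (nat_lit 156372041796) (.two (nat_lit 2097153) (nat_lit 2894070517) (.two (nat_lit 1048576) (nat_lit 47582283327) (.one (nat_lit 158646406386) .nil)))),
   .two (nat_lit 272629768) (nat_lit 46978301996) (.two (nat_lit 2889875459) (nat_lit 1377829171) (.two (nat_lit 41943041) (nat_lit 28087159060) (.one (nat_lit 159257727116) .nil))),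
   .two (nat_lit 713031688) (nat_lit 11610882137) (.two (nat_lit 12114198531) (nat_lit 28760342709) (.two (nat_lit 34603009) (nat_lit 3531604688) (.two (nat_lit 8388608) (nat_lit 2319452353) (.one (nat_lit 1053038) .nil)))),
   .two (nat_lit 16777224) (nat_lit 11479810056) (.two (nat_lit 11479810052) (nat_lit 16777240) (.two (nat_lit 16777218) (nat_lit 306184372) (.two (nat_lit 16777217) (nat_lit 19096667369) (.two (nat_lit 8388608) (nat_lit 158146233886) (.one (nat_lit 16781679) .nil))))),
   .two (nat_lit 11479810056) (nat_lit 156372041766) (.two (nat_lit 809500675) (nat_lit 183853122239) (.two (nat_lit 4194304) (nat_lit 46514832927) (.one (nat_lit 742395185) .nil))),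
   .two (nat_lit 20644364296) (nat_lit 28690087944) (.two (nat_lit 21214789636) (nat_lit 156465365032) (.two (nat_lit 1913651203) (nat_lit 46514831649) (.two (nat_lit 9768534017) (nat_lit 166203491064) (.two (nat_lit 4194304) (nat_lit 158653744696) (.one (nat_lit 75500777) .nil))))),
   .two (nat_lit 9781116936) (nat_lit 10336862216) (.two (nat_lit 9881780228) (nat_lit 46978301978) (.two (nat_lit 218103811) (nat_lit 1344274614) (.two (nat_lit 2097153) (nat_lit 822084277) (.two (nat_lit 16777216) (nat_lit 2100072) (.one (nat_lit 304090420) .nil))))),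
   .two (nat_lit 11559501832) (nat_lit 10939793416) (.two (nat_lit 10939793412) (nat_lit 11559501850) (.two (nat_lit 28690087939) (nat_lit 1358954935) (.two (nat_lit 1048576) (nat_lit 1291847189) (.one (nat_lit 16781680) .nil)))),
   .two (nat_lit 117440520) (nat_lit 10436476937) (.two (nat_lit 28690087940) (nat_lit 754974758) (.two (nat_lit 1913651203) (nat_lit 1795162393) (.two (nat_lit 9765388289) (nat_lit 10385097404) (.two (nat_lit 4194304) (nat_lit 157035793777) .nil)))),
   .two (nat_lit 11543773192) (nat_lit 20705181722) (.two (nat_lit 12114198531) (nat_lit 874512685) (.two (nat_lit 34603009) (nat_lit 156567078042) (.two (nat_lit 1048576) (nat_lit 37314627108) (.one (nat_lit 2101617) .nil)))),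
   .two (nat_lit 2961178632) (nat_lit 1312817200) (.two (nat_lit 176160770) (nat_lit 183848927536) (.two (nat_lit 605028353) (nat_lit 156472705792) (.two (nat_lit 1048576) (nat_lit 19537069605) (.one (nat_lit 1053042) .nil)))),
   .two (nat_lit 117440520) (nat_lit 20637024264) (.two (nat_lit 822083588) (nat_lit 19532873772) (.two (nat_lit 822083587) (nat_lit 876609889) (.two (nat_lit 4194305) (nat_lit 9881780925) (.two (nat_lit 1048576) (nat_lit 11546921743) (.one (nat_lit 37313580266) .nil))))),
   .two (nat_lit 9866051592) (nat_lit 1916796936) (.two (nat_lit 1779433476) (nat_lit 28760342585) (.two (nat_lit 184989777923) (nat_lit 3457155583) (.two (nat_lit 606076929) (nat_lit 303039182) (.two (nat_lit 2097152) (nat_lit 1209009688) (.one (nat_lit 1052111) .nil))))),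
   .two (nat_lit 10370416648) (nat_lit 243269658) (.two (nat_lit 1277165570) (nat_lit 1753219834) (.two (nat_lit 2097152) (nat_lit 9873393185) (.one (nat_lit 8392144) .nil))),
   .two (nat_lit 21785214986) (nat_lit 218103821) (.two (nat_lit 612368388) (nat_lit 218103851) (.two (nat_lit 16777219) (nat_lit 165532402366) (.two (nat_lit 16777216) (nat_lit 183953786413) (.one (nat_lit 8393076) .nil)))),
   .two (nat_lit 10370416648) (nat_lit 46414168074) (.two (nat_lit 47555018756) (nat_lit 10538188844) (.two (nat_lit 21208498179) (nat_lit 183920230585) (.two (nat_lit 606076929) (nat_lit 343933626) (.two (nat_lit 2097152) (nat_lit 46414170416) (.one (nat_lit 21778926963) .nil))))),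
   .two (nat_lit 4194312) (nat_lit 1210056749) (.two (nat_lit 4194306) (nat_lit 303038644) (.two (nat_lit 37748737) (nat_lit 12115248256) (.two (nat_lit 4194304) (nat_lit 16780138) (.one (nat_lit 16781686) .nil)))),
   .two (nat_lit 46409973768) (nat_lit 184416206856) (.two (nat_lit 184416206852) (nat_lit 18928893979) (.two (nat_lit 12114198531) (nat_lit 183916036394) (.two (nat_lit 156367847425) (nat_lit 10537140936) (.two (nat_lit 4194304) (nat_lit 202376739) (.one (nat_lit 174752533960) .nil))))),
   .two (nat_lit 41943048) (nat_lit 47548727322) (.two (nat_lit 8388610) (nat_lit 2988441873) (.two (nat_lit 8388609) (nat_lit 47582283283) (.one (nat_lit 2101623) .nil))),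
   .two (nat_lit 10343153672) (nat_lit 174686470182) (.two (nat_lit 165526110211) (nat_lit 185027527394) (.two (nat_lit 2097152) (nat_lit 8390949) (.one (nat_lit 2101329) .nil))),
   .two (nat_lit 1291845640) (nat_lit 13191086088) (.two (nat_lit 10385096708) (nat_lit 2923429915) (.two (nat_lit 4194306) (nat_lit 1291845811) (.two (nat_lit 4194305) (nat_lit 20652755102) (.one (nat_lit 16781688) .nil)))),
   .two (nat_lit 46414168072) (nat_lit 158144135207) (.two (nat_lit 169869314) (nat_lit 18933089074) (.one (nat_lit 157043133847) .nil)),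
   .two (nat_lit 813694984) (nat_lit 183848927258) (.two (nat_lit 8388610) (nat_lit 183848927671) (.two (nat_lit 8388608) (nat_lit 1279264290) (.one (nat_lit 4198777) .nil))),
   .two (nat_lit 9866051592) (nat_lit 10947133452) (.two (nat_lit 4605345796) (nat_lit 20637024315) (.two (nat_lit 41943043) (nat_lit 28757197104) (.two (nat_lit 16777217) (nat_lit 612369202) (.one (nat_lit 13187942910) .nil)))),
   .two (nat_lit 9768534024) (nat_lit 156372041769) (.two (nat_lit 2889875458) (nat_lit 46414168352) (.two (nat_lit 4194305) (nat_lit 142608547) (.one (nat_lit 8392145) .nil))),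
   .two (nat_lit 183848927240) (nat_lit 21777874965) (.two (nat_lit 21207449604) (nat_lit 742391871) (.two (nat_lit 20637024258) (nat_lit 2889875804) (.two (nat_lit 612368385) (nat_lit 843055922) (.one (nat_lit 9902755068) .nil)))),
   .two (nat_lit 2954887176) (nat_lit 46414168102) (.two (nat_lit 169869314) (nat_lit 4605345860) (.two (nat_lit 2097153) (nat_lit 37320917730) (.two (nat_lit 8388608) (nat_lit 2100076) (.one (nat_lit 2101629) .nil)))),
   .two (nat_lit 8388616) (nat_lit 68157460) (.two (nat_lit 2887778308) (nat_lit 8388672) (.two (nat_lit 34603011) (nat_lit 12054430067) (.two (nat_lit 37748737) (nat_lit 1847591681) (.two (nat_lit 2097152) (nat_lit 1050999) (.one (nat_lit 1053054) .nil))))),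
   .two (nat_lit 183853121544) (nat_lit 10939793416) (.two (nat_lit 184423546884) (nat_lit 46406828080) (.two (nat_lit 639631363) (nat_lit 746586419) (.two (nat_lit 606076929) (nat_lit 156364703271) (.one (nat_lit 873467204) .nil)))),
   .two (nat_lit 713031688) (nat_lit 157036838920) (.two (nat_lit 75497476) (nat_lit 46978301978) (.two (nat_lit 46407876610) (nat_lit 11618222259) (.two (nat_lit 612368385) (nat_lit 2921335096) (.one (nat_lit 1847595358) .nil)))),
   .two (nat_lit 12047089672) (nat_lit 28705816588) (.two (nat_lit 184416206852) (nat_lit 20719861819) (.two (nat_lit 11559501827) (nat_lit 2953838776) (.two (nat_lit 9781116929) (nat_lit 183946445569) (.two (nat_lit 8388608) (nat_lit 1175455300) (.one (nat_lit 11510223056) .nil))))),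
   .two (nat_lit 158083317770) (nat_lit 156533522445) (.two (nat_lit 159224168452) (nat_lit 156533522475) (.two (nat_lit 157036838915) (nat_lit 11618222782) (.two (nat_lit 2097152) (nat_lit 11618222898) (.one (nat_lit 8393088) .nil)))),
   .two (nat_lit 2954887176) (nat_lit 1753219143) (.two (nat_lit 169869314) (nat_lit 13195280563) (.two (nat_lit 8388609) (nat_lit 2921334315) (.one (nat_lit 75501617) .nil))),
   .two (nat_lit 16777224) (nat_lit 1384120332) (.two (nat_lit 83886084) (nat_lit 20637024304) (.two (nat_lit 721420290) (nat_lit 1343226191) (.two (nat_lit 8388609) (nat_lit 1392510520) (.one (nat_lit 1053063) .nil)))),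
   .two (nat_lit 1795162120) (nat_lit 156968681480) (.two (nat_lit 156968681476) (nat_lit 3539992624) (.two (nat_lit 19596836867) (nat_lit 156380430777) (.two (nat_lit 4194304) (nat_lit 20652756242) .nil))),
   .two (nat_lit 176160776) (nat_lit 19599982771) (.two (nat_lit 8388609) (nat_lit 138413634) (.one (nat_lit 843058504) .nil)),
   .two (nat_lit 11559501832) (nat_lit 2349858826) (.two (nat_lit 156968681476) (nat_lit 11022631095) (.two (nat_lit 9765388289) (nat_lit 1358956054) (.one (nat_lit 16781706) .nil))),
   .two (nat_lit 754974728) (nat_lit 47548727304) (.two (nat_lit 117440516) (nat_lit 3458203675) (.two (nat_lit 169869314) (nat_lit 1358955198) (.two (nat_lit 2097152) (nat_lit 687868097) (.one (nat_lit 2101265) .nil)))),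
   .two (nat_lit 8388616) (nat_lit 68157460) (.two (nat_lit 3527409668) (nat_lit 37320917175) (.two (nat_lit 4194305) (nat_lit 156466414319) (.two (nat_lit 2097152) (nat_lit 1051000) (.one (nat_lit 1053067) .nil)))),
   .two (nat_lit 9934209032) (nat_lit 11614027788) (.two (nat_lit 12117344260) (nat_lit 46407876667) (.two (nat_lit 1178599427) (nat_lit 159217877296) (.two (nat_lit 2097153) (nat_lit 10909385413) (.two (nat_lit 16777216) (nat_lit 1914702334) .nil)))),
   .two (nat_lit 620757000) (nat_lit 47548727317) (.two (nat_lit 46978301956) (nat_lit 158146232369) (.two (nat_lit 184549378) (nat_lit 159251431787) (.two (nat_lit 37748737) (nat_lit 102760889) (.two (nat_lit 4194304) (nat_lit 2100084) (.one (nat_lit 16781709) .nil))))),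
   .two (nat_lit 8388616) (nat_lit 174755676201) (.two (nat_lit 8388610) (nat_lit 11513364809) (.two (nat_lit 41943041) (nat_lit 166211880146) (.two (nat_lit 16777216) (nat_lit 4197237) (.one (nat_lit 4198798) .nil)))),
   .two (nat_lit 46407876616) (nat_lit 4194485) (.two (nat_lit 9768534017) (nat_lit 1175454450) (.two (nat_lit 2097152) (nat_lit 1051001) (.one (nat_lit 1413484769) .nil))),
   .two (nat_lit 11543773192) (nat_lit 28758245384) (.two (nat_lit 1913651204) (nat_lit 158144135210) (.two (nat_lit 28690087939) (nat_lit 304087781) (.two (nat_lit 1048576) (nat_lit 10001320202) (.one (nat_lit 10537144064) .nil)))),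
   .two (nat_lit 16777224) (nat_lit 156566028383) (.two (nat_lit 9934209027) (nat_lit 46489665853) (.two (nat_lit 50331649) (nat_lit 68158177) (.two (nat_lit 1048576) (nat_lit 889194675) (.one (nat_lit 16781711) .nil)))),
   .two (nat_lit 272629768) (nat_lit 10336862216) (.two (nat_lit 2889875460) (nat_lit 2988441669) (.two (nat_lit 2889875458) (nat_lit 2988441668) (.two (nat_lit 612368385) (nat_lit 2990540327) (.one (nat_lit 4198800) .nil)))),
   .two (nat_lit 75497480) (nat_lit 169869375) (.two (nat_lit 612368387) (nat_lit 10370416988) (.two (nat_lit 2097153) (nat_lit 20644365530) (.two (nat_lit 4194304) (nat_lit 13188991206) (.one (nat_lit 28798095452) .nil)))),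
   .two (nat_lit 1779433480) (nat_lit 165532401672) (.two (nat_lit 205520900) (nat_lit 8388675) (.two (nat_lit 171966467) (nat_lit 1954546393) (.two (nat_lit 16777216) (nat_lit 19596838430) (.one (nat_lit 1053076) .nil)))),
   .two (nat_lit 12054429704) (nat_lit 4028629002) (.two (nat_lit 3458203652) (nat_lit 12054429721) (.two (nat_lit 165532401667) (nat_lit 156533523135) (.two (nat_lit 8388608) (nat_lit 1344275999) (.one (nat_lit 37253811561) .nil)))),
   .two (nat_lit 20638072840) (nat_lit 21207449626) (.two (nat_lit 10336862211) (nat_lit 13221494966) (.two (nat_lit 606076929) (nat_lit 68158618) (.two (nat_lit 2097152) (nat_lit 1051513) (.one (nat_lit 1053077) .nil)))),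
   .two (nat_lit 203423752) (nat_lit 158083317768) (.two (nat_lit 158083317764) (nat_lit 3558866984) (.two (nat_lit 20644364290) (nat_lit 10538189240) (.two (nat_lit 8388608) (nat_lit 1411385671) (.one (nat_lit 2101654) .nil)))),
   .two (nat_lit 203423752) (nat_lit 11513364490) (.two (nat_lit 639631364) (nat_lit 104857648) (.two (nat_lit 83886083) (nat_lit 136315590) (.two (nat_lit 4194304) (nat_lit 47582282546) (.one (nat_lit 2101655) .nil)))),
   .two (nat_lit 11479810056) (nat_lit 1343225873) (.two (nat_lit 3460300804) (nat_lit 2954887192) (.two (nat_lit 46980399107) (nat_lit 2954887236) (.two (nat_lit 34603009) (nat_lit 158079124217) (.two (nat_lit 16777216) (nat_lit 47581236613) .nil)))),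
   .two (nat_lit 9948889096) (nat_lit 158144135195) (.two (nat_lit 158144135171) (nat_lit 19612566264) (.two (nat_lit 2097152) (nat_lit 156380433640) .nil)),
   .two (nat_lit 1350565896) (nat_lit 28757196808) (.two (nat_lit 10369368068) (nat_lit 183916036122) (.two (nat_lit 171966467) (nat_lit 1350566069) (.two (nat_lit 4194305) (nat_lit 1182794500) (.two (nat_lit 1048576) (nat_lit 8391034) (.one (nat_lit 843059519) .nil))))),
   .two (nat_lit 2887778312) (nat_lit 184419352584) (.two (nat_lit 9867100164) (nat_lit 184416206875) (.two (nat_lit 12117344259) (nat_lit 12114198707) (.two (nat_lit 156367847425) (nat_lit 10939795693) (.one (nat_lit 18925752520) .nil)))),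
   .two (nat_lit 1291845642) (nat_lit 310378515) (.two (nat_lit 9881780228) (nat_lit 2994733137) (.two (nat_lit 713031683) (nat_lit 1795162390) (.two (nat_lit 8388609) (nat_lit 12633246046) (.one (nat_lit 19545460174) .nil)))),
   .two (nat_lit 11479810056) (nat_lit 47582281757) (.two (nat_lit 12117344260) (nat_lit 2921332799) (.two (nat_lit 11479810050) (nat_lit 158077026793) (.two (nat_lit 50331649) (nat_lit 136316446) (.one (nat_lit 20638075413) .nil)))),
   .two (nat_lit 10370416648) (nat_lit 166129041416) (.two (nat_lit 46984593412) (nat_lit 166230753320) (.two (nat_lit 1913651203) (nat_lit 10443817253) (.two (nat_lit 606076929) (nat_lit 1417675458) (.two (nat_lit 1048576) (nat_lit 209717423) (.one (nat_lit 8393114) .nil))))),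
   .two (nat_lit 4194312) (nat_lit 19027460105) (.two (nat_lit 1343225860) (nat_lit 158177689636) (.two (nat_lit 705691650) (nat_lit 47550824739) (.two (nat_lit 605028353) (nat_lit 174755676907) (.two (nat_lit 1048576) (nat_lit 2100092) (.one (nat_lit 1053083) .nil))))),
   .two (nat_lit 83886088) (nat_lit 19530776624) (.two (nat_lit 620756995) (nat_lit 169869708) (.two (nat_lit 8388609) (nat_lit 2098417) (.two (nat_lit 2097152) (nat_lit 16780157) (.one (nat_lit 183846834451) .nil)))),
   .two (nat_lit 1358954504) (nat_lit 2988441645) (.two (nat_lit 2954887171) (nat_lit 1358954936) (.two (nat_lit 2097152) (nat_lit 16779643) (.one (nat_lit 16781724) .nil))),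
   .two (nat_lit 28690087944) (nat_lit 10385096714) (.two (nat_lit 1795162116) (nat_lit 156465365018) (.two (nat_lit 1913651203) (nat_lit 16777621) (.two (nat_lit 9765388289) (nat_lit 18941477624) (.two (nat_lit 4194304) (nat_lit 10537143112) (.one (nat_lit 1053085) .nil))))),
   .two (nat_lit 83886088) (nat_lit 2987393136) (.two (nat_lit 721420290) (nat_lit 1049095) (.two (nat_lit 620756993) (nat_lit 3020948671) (.two (nat_lit 1048576) (nat_lit 16780159) (.one (nat_lit 1779436825) .nil)))),
   .two (nat_lit 9781116936) (nat_lit 1212153897) (.two (nat_lit 18928893955) (nat_lit 10519315222) (.two (nat_lit 4194304) (nat_lit 13237226961) .nil)),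
   .two (nat_lit 37748744) (nat_lit 28690087944) (.two (nat_lit 37748740) (nat_lit 37246468134) (.two (nat_lit 4194306) (nat_lit 37313577350) (.two (nat_lit 2097153) (nat_lit 1049842) (.two (nat_lit 4194304) (nat_lit 1051521) (.one (nat_lit 2101210) .nil))))),
   .two (nat_lit 285212680) (nat_lit 742391819) (.two (nat_lit 83886084) (nat_lit 10906239035) (.two (nat_lit 171966467) (nat_lit 2902459061) (.two (nat_lit 16777216) (nat_lit 1947207880) (.one (nat_lit 19127078775) .nil)))),
   .two (nat_lit 8388616) (nat_lit 606076936) (.two (nat_lit 9940500484) (nat_lit 47582281765) (.two (nat_lit 176160770) (nat_lit 28791800133) (.two (nat_lit 37748737) (nat_lit 35653975) (.one (nat_lit 159217880350) .nil)))),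
   .two (nat_lit 10370416648) (nat_lit 739246095) (.two (nat_lit 158144135172) (nat_lit 9866051611) (.two (nat_lit 705691650) (nat_lit 28791800286) (.two (nat_lit 34603009) (nat_lit 20638073583) (.two (nat_lit 1048576) (nat_lit 11511268899) (.one (nat_lit 4027583805) .nil))))),
   .two (nat_lit 1178599432) (nat_lit 236978226) (.two (nat_lit 11492392962) (nat_lit 156367848151) (.two (nat_lit 16777216) (nat_lit 156367849717) (.one (nat_lit 4198261) .nil))),
   .two (nat_lit 754974728) (nat_lit 174685421664) (.two (nat_lit 2097155) (nat_lit 83886354) (.two (nat_lit 606076929) (nat_lit 1913653467) (.one (nat_lit 1053090) .nil))),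
   .two (nat_lit 612368392) (nat_lit 46409973829) (.two (nat_lit 21777874947) (nat_lit 11010048305) (.two (nat_lit 605028353) (nat_lit 158649549572) (.two (nat_lit 2097152) (nat_lit 158143089152) .nil))),
   .two (nat_lit 47548727304) (nat_lit 1846542344) (.two (nat_lit 9934209028) (nat_lit 37313576987) (.two (nat_lit 1779433475) (nat_lit 46508540193) (.two (nat_lit 9765388289) (nat_lit 2098419) (.two (nat_lit 2097152) (nat_lit 157035792664) (.one (nat_lit 34606321) .nil))))),
   .two (nat_lit 184549384) (nat_lit 10940841998) (.two (nat_lit 620756996) (nat_lit 2418016313) (.two (nat_lit 184549378) (nat_lit 673185971) (.two (nat_lit 2097153) (nat_lit 10519315160) (.two (nat_lit 1048576) (nat_lit 2887779891) (.one (nat_lit 1052116) .nil))))),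
   .two (nat_lit 18928893960) (nat_lit 157036838949) (.two (nat_lit 69206019) (nat_lit 16777396) (.two (nat_lit 37748737) (nat_lit 10015999619) (.two (nat_lit 4194304) (nat_lit 16780165) (.one (nat_lit 4198821) .nil)))),
   .two (nat_lit 721420296) (nat_lit 158653743152) (.two (nat_lit 2894069763) (nat_lit 11492393399) (.two (nat_lit 1048576) (nat_lit 2332034588) (.one (nat_lit 16781734) .nil))),
   .two (nat_lit 1178599432) (nat_lit 235929612) (.two (nat_lit 11543773188) (nat_lit 1413480496) (.two (nat_lit 739246083) (nat_lit 10909385502) (.two (nat_lit 1048576) (nat_lit 3560966430) (.one (nat_lit 1052117) .nil)))),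
   .two (nat_lit 654311432) (nat_lit 3458203656) (.two (nat_lit 10385096708) (nat_lit 1048690) (.two (nat_lit 4599054339) (nat_lit 1291845904) (.two (nat_lit 620756993) (nat_lit 9798943927) (.two (nat_lit 1048576) (nat_lit 2100103) (.one (nat_lit 1053095) .nil))))),
   .two (nat_lit 101711880) (nat_lit 18933088264) (.two (nat_lit 2887778308) (nat_lit 156372041764) (.two (nat_lit 2097155) (nat_lit 4605346485) (.two (nat_lit 8388608) (nat_lit 1051004) (.one (nat_lit 1210059998) .nil)))),
   .two (nat_lit 8388616) (nat_lit 28772925501) (.two (nat_lit 184549378) (nat_lit 10343154017) (.two (nat_lit 41943041) (nat_lit 788530322) (.two (nat_lit 16777216) (nat_lit 158083320008) (.one (nat_lit 1920995665) .nil)))),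
   .two (nat_lit 2889875464) (nat_lit 4028629006) (.two (nat_lit 641728516) (nat_lit 47582281907) (.two (nat_lit 606076929) (nat_lit 843056250) (.two (nat_lit 8388608) (nat_lit 136316443) (.one (nat_lit 2101673) .nil)))),
   .two (nat_lit 18933088264) (nat_lit 1377828876) (.two (nat_lit 28093448198) (nat_lit 46978301978) (.two (nat_lit 46407876610) (nat_lit 1283457206) (.two (nat_lit 156365750273) (nat_lit 209715913) (.two (nat_lit 2097152) (nat_lit 8391560) (.one (nat_lit 8392150) .nil))))),
   .two (nat_lit 37748744) (nat_lit 34603019) (.two (nat_lit 272629764) (nat_lit 3558867007) (.two (nat_lit 1344274435) (nat_lit 12114198873) (.two (nat_lit 9766436865) (nat_lit 10540288353) (.one (nat_lit 21778927973) .nil)))),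
   .two (nat_lit 159217877000) (nat_lit 28690087944) (.two (nat_lit 28690087940) (nat_lit 4632608834) (.two (nat_lit 166129041410) (nat_lit 1210056999) (.two (nat_lit 37748737) (nat_lit 303040062) (.one (nat_lit 184987684936) .nil)))),
   .two (nat_lit 2887778312) (nat_lit 158083317768) (.two (nat_lit 11551113220) (nat_lit 183912890393) (.two (nat_lit 34603011) (nat_lit 612368744) (.two (nat_lit 605028353) (nat_lit 337643045) (.one (nat_lit 2101675) .nil)))),
   .two (nat_lit 2887778312) (nat_lit 2889875464) (.two (nat_lit 46407876612) (nat_lit 10003415091) (.two (nat_lit 272629763) (nat_lit 174752530724) (.two (nat_lit 9766436865) (nat_lit 775947824) (.one (nat_lit 4198828) .nil)))),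
   .two (nat_lit 2887778312) (nat_lit 166232850617) (.two (nat_lit 34603009) (nat_lit 9936306895) (.two (nat_lit 1048576) (nat_lit 874514809) (.one (nat_lit 156468515141) .nil))),
   .two (nat_lit 739246088) (nat_lit 46980399112) (.two (nat_lit 739246084) (nat_lit 37748784) (.two (nat_lit 11476664322) (nat_lit 1916797333) (.two (nat_lit 34603009) (nat_lit 183916036843) (.two (nat_lit 4194304) (nat_lit 28790752050) (.one (nat_lit 1053101) .nil))))),
   .two (nat_lit 3525312520) (nat_lit 158143086600) (.two (nat_lit 3525312516) (nat_lit 10436476955) (.two (nat_lit 10336862211) (nat_lit 12114199018) (.two (nat_lit 606076929) (nat_lit 638585112) (.one (nat_lit 13187943665) .nil)))),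
   .two (nat_lit 101711880) (nat_lit 21785214984) (.two (nat_lit 12114198532) (nat_lit 1417674792) (.two (nat_lit 184416206851) (nat_lit 157043131086) (.two (nat_lit 1048576) (nat_lit 11014244495) (.one (nat_lit 8393134) .nil)))),
   .two (nat_lit 28086108168) (nat_lit 9936306230) (.two (nat_lit 1178599427) (nat_lit 352321604) (.two (nat_lit 4194305) (nat_lit 183962174707) (.two (nat_lit 1048576) (nat_lit 11593058531) (.one (nat_lit 721424323) .nil)))),
   .two (nat_lit 8388616) (nat_lit 18925748283) (.two (nat_lit 612368387) (nat_lit 28690088240) (.two (nat_lit 2097153) (nat_lit 2987395345) (.one (nat_lit 156573371854) .nil))),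
   .two (nat_lit 10506731528) (nat_lit 2349858869) (.two (nat_lit 16777218) (nat_lit 1749025077) (.two (nat_lit 50331649) (nat_lit 68158162) (.two (nat_lit 1048576) (nat_lit 4634708259) (.one (nat_lit 1053103) .nil)))),
   .two (nat_lit 203423752) (nat_lit 11513364490) (.two (nat_lit 183848927236) (nat_lit 47582281805) (.two (nat_lit 12117344259) (nat_lit 2988441885) (.two (nat_lit 156367847425) (nat_lit 159251432980) (.one (nat_lit 159251434849) .nil)))),
   .two (nat_lit 11543773192) (nat_lit 28089253900) (.two (nat_lit 21777874948) (nat_lit 10439622715) (.two (nat_lit 12117344259) (nat_lit 46473937080) (.two (nat_lit 34603009) (nat_lit 183848927966) (.two (nat_lit 16777216) (nat_lit 269486612) .nil)))),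
   .two (nat_lit 1178599432) (nat_lit 28691136521) (.two (nat_lit 166130089988) (nat_lit 19130220584) (.two (nat_lit 9768534019) (nat_lit 236978548) (.two (nat_lit 37748737) (nat_lit 2098420) (.two (nat_lit 4194304) (nat_lit 2100105) (.one (nat_lit 4198833) .nil))))),
   .two (nat_lit 41943048) (nat_lit 184986632260) (.two (nat_lit 8388609) (nat_lit 2920286585) (.one (nat_lit 2101682) .nil)),
   .two (nat_lit 21785214984) (nat_lit 169869375) (.two (nat_lit 3458203651) (nat_lit 156976021799) (.two (nat_lit 2097153) (nat_lit 174759871189) (.two (nat_lit 4194304) (nat_lit 3021997605) (.one (nat_lit 12054433866) .nil)))),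
   .two (nat_lit 721420296) (nat_lit 1317011507) (.two (nat_lit 654311427) (nat_lit 35652025) (.two (nat_lit 8388608) (nat_lit 185035917845) .nil)),
   .two (nat_lit 285212680) (nat_lit 20644364297) (.two (nat_lit 822083588) (nat_lit 20644364326) (.two (nat_lit 16777218) (nat_lit 276824814) (.two (nat_lit 8388608) (nat_lit 2902459186) (.one (nat_lit 16781750) .nil)))),
   .two (nat_lit 46980399112) (nat_lit 21208498184) (.two (nat_lit 21208498180) (nat_lit 46980399130) (.two (nat_lit 158144135171) (nat_lit 157038936503) (.two (nat_lit 2097152) (nat_lit 19532875285) (.one (nat_lit 4198839) .nil)))),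
   .two (nat_lit 9866051592) (nat_lit 174753579053) (.two (nat_lit 165526110211) (nat_lit 13187940641) (.two (nat_lit 156365750273) (nat_lit 184416208115) (.two (nat_lit 1048576) (nat_lit 3558869363) (.one (nat_lit 2101690) .nil)))),
   .two (nat_lit 101711880) (nat_lit 19027460159) (.two (nat_lit 4599054339) (nat_lit 10007609412) (.two (nat_lit 156365750273) (nat_lit 20637025840) (.one (nat_lit 1053115) .nil))),
   .two (nat_lit 1350565896) (nat_lit 1344274478) (.two (nat_lit 809500675) (nat_lit 174759870782) (.two (nat_lit 37748737) (nat_lit 12054430445) (.two (nat_lit 4194304) (nat_lit 847251635) (.one (nat_lit 9768538215) .nil)))),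
   .two (nat_lit 11479810056) (nat_lit 166196150282) (.two (nat_lit 742391812) (nat_lit 158176641050) (.two (nat_lit 101711875) (nat_lit 10338959544) (.two (nat_lit 605028353) (nat_lit 156367848572) (.two (nat_lit 2097152) (nat_lit 19026413730) (.one (nat_lit 1053116) .nil))))),
   .two (nat_lit 41943048) (nat_lit 9899606026) (.two (nat_lit 21785214980) (nat_lit 158176641063) (.two (nat_lit 21207449603) (nat_lit 13228835205) (.two (nat_lit 605028353) (nat_lit 157043131082) (.two (nat_lit 1048576) (nat_lit 13228837130) (.one (nat_lit 1052557) .nil))))),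
   .two (nat_lit 46414168072) (nat_lit 166132187146) (.two (nat_lit 28693233668) (nat_lit 46414168090) (.two (nat_lit 1916796931) (nat_lit 46414168504) (.two (nat_lit 4194304) (nat_lit 46414169622) (.one (nat_lit 8393149) .nil)))),
   .two (nat_lit 156968681480) (nat_lit 12054429706) (.two (nat_lit 183853121540) (nat_lit 2416967724) (.two (nat_lit 12054429699) (nat_lit 10537140611) (.two (nat_lit 612368385) (nat_lit 13221495943) (.two (nat_lit 1048576) (nat_lit 8391038) (.one (nat_lit 1052120) .nil))))),
   .two (nat_lit 8388616) (nat_lit 11010048010) (.two (nat_lit 41943044) (nat_lit 11010048038) (.two (nat_lit 8388610) (nat_lit 708837710) (.two (nat_lit 4194305) (nat_lit 156472705740) (.two (nat_lit 16777216) (nat_lit 12050237940) .nil)))),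
   .two (nat_lit 285212680) (nat_lit 165532401702) (.two (nat_lit 16777218) (nat_lit 10343153732) (.two (nat_lit 8388609) (nat_lit 184431937677) (.one (nat_lit 276828314) .nil))),
   .two (nat_lit 739246088) (nat_lit 20644364313) (.two (nat_lit 158083317763) (nat_lit 10335814365) (.two (nat_lit 1048576) (nat_lit 21785217294) (.one (nat_lit 235933559) .nil))),
   .two (nat_lit 612368392) (nat_lit 20638072840) (.two (nat_lit 2961178628) (nat_lit 1176502318) (.two (nat_lit 1276116994) (nat_lit 19597885732) (.two (nat_lit 605028353) (nat_lit 157036839639) (.two (nat_lit 1048576) (nat_lit 10504635941) (.one (nat_lit 158075982101) .nil))))),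
   .two (nat_lit 16777224) (nat_lit 156971827208) (.two (nat_lit 156971827204) (nat_lit 9900654643) (.two (nat_lit 3525312515) (nat_lit 620757171) (.two (nat_lit 2097153) (nat_lit 47596962529) (.two (nat_lit 4194304) (nat_lit 740296240) (.one (nat_lit 2101695) .nil))))),
   .two (nat_lit 272629768) (nat_lit 10939793416) (.two (nat_lit 809500676) (nat_lit 20704133300) (.two (nat_lit 37748737) (nat_lit 20704133814) (.two (nat_lit 1048576) (nat_lit 4197261) (.one (nat_lit 156468515118) .nil)))),
   .two (nat_lit 3525312520) (nat_lit 158143086600) (.two (nat_lit 158143086596) (nat_lit 46474985497) (.two (nat_lit 1847590915) (nat_lit 772800797) (.two (nat_lit 606076929) (nat_lit 47547681015) (.one (nat_lit 638587016) .nil)))),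
   .two (nat_lit 9768534024) (nat_lit 159217877000) (.two (nat_lit 159217876996) (nat_lit 156569174056) (.two (nat_lit 20638072835) (nat_lit 46510637496) (.two (nat_lit 2097152) (nat_lit 4634706738) (.one (nat_lit 4198848) .nil)))),
   .two (nat_lit 2902458376) (nat_lit 21208498201) (.two (nat_lit 2097155) (nat_lit 822083652) (.two (nat_lit 2097153) (nat_lit 159266112283) (.two (nat_lit 1048576) (nat_lit 157051521335) (.one (nat_lit 159251434879) .nil)))),
   .two (nat_lit 620757000) (nat_lit 19026411534) (.two (nat_lit 9781116932) (nat_lit 166196150328) (.two (nat_lit 9933160451) (nat_lit 9948889370) (.two (nat_lit 8388609) (nat_lit 876611823) (.one (nat_lit 71307392) .nil)))),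
   .two (nat_lit 11007950858) (nat_lit 166245433364) (.two (nat_lit 10336862212) (nat_lit 654311467) (.two (nat_lit 46407876610) (nat_lit 4613735126) (.two (nat_lit 2097152) (nat_lit 1191183894) (.one (nat_lit 11559505331) .nil)))),
   .two (nat_lit 3464495112) (nat_lit 158075977736) (.two (nat_lit 158075977732) (nat_lit 3464495130) (.two (nat_lit 165532401667) (nat_lit 1048877) (.two (nat_lit 156372041729) (nat_lit 303039210) (.two (nat_lit 8388608) (nat_lit 20704135449) (.one (nat_lit 8393154) .nil))))),
   .two (nat_lit 10385096712) (nat_lit 880803883) (.two (nat_lit 654311427) (nat_lit 713032148) (.two (nat_lit 620756993) (nat_lit 9873393197) (.one (nat_lit 11584671168) .nil))),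
   .two (nat_lit 272629768) (nat_lit 20745027606) (.two (nat_lit 713031684) (nat_lit 11580473398) (.two (nat_lit 4194306) (nat_lit 3028287668) (.two (nat_lit 41943041) (nat_lit 138412760) (.two (nat_lit 8388608) (nat_lit 46980401396) (.one (nat_lit 2927627598) .nil))))),
   .two (nat_lit 83886088) (nat_lit 1384120388) (.two (nat_lit 713031682) (nat_lit 1325400840) (.two (nat_lit 156367847425) (nat_lit 1224738336) (.two (nat_lit 4194304) (nat_lit 645925368) (.one (nat_lit 11614032341) .nil)))),
   .two (nat_lit 620757000) (nat_lit 158183981237) (.two (nat_lit 2889875458) (nat_lit 156481094380) (.two (nat_lit 4194305) (nat_lit 8390184) (.two (nat_lit 8388608) (nat_lit 11614030332) (.one (nat_lit 3024097809) .nil)))),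
   .two (nat_lit 9948889096) (nat_lit 1948254278) (.two (nat_lit 159232557060) (nat_lit 11584667716) (.two (nat_lit 184549379) (nat_lit 310379236) (.two (nat_lit 9768534017) (nat_lit 9940502719) (.two (nat_lit 2097152) (nat_lit 205524215) (.one (nat_lit 876614095) .nil))))),
   .two (nat_lit 285212680) (nat_lit 19029557427) (.two (nat_lit 16777218) (nat_lit 19029557687) (.two (nat_lit 8388609) (nat_lit 1413482018) (.two (nat_lit 4194304) (nat_lit 19100862966) (.one (nat_lit 1413485005) .nil)))),
   .two (nat_lit 21214789640) (nat_lit 889192504) (.two (nat_lit 9781116932) (nat_lit 156535619652) (.two (nat_lit 2902458371) (nat_lit 13228835257) (.two (nat_lit 4194305) (nat_lit 1350567475) (.two (nat_lit 8388608) (nat_lit 4196878) (.one (nat_lit 156573372885) .nil))))),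
   .two (nat_lit 3464495112) (nat_lit 159217877093) (.two (nat_lit 1846542340) (nat_lit 169869494) (.two (nat_lit 176160771) (nat_lit 16778022) (.two (nat_lit 41943041) (nat_lit 1050165) (.two (nat_lit 2097152) (nat_lit 1052005) (.one (nat_lit 1053272) .nil))))),
   .two (nat_lit 21785214984) (nat_lit 3539992660) (.two (nat_lit 11551113220) (nat_lit 21827158084) (.two (nat_lit 1178599427) (nat_lit 37247517111) (.two (nat_lit 4194305) (nat_lit 3021998583) (.one (nat_lit 2101849) .nil)))),
   .two (nat_lit 46414168072) (nat_lit 10940842037) (.two (nat_lit 16777220) (nat_lit 847249476) (.two (nat_lit 184549378) (nat_lit 166130090423) (.two (nat_lit 8388609) (nat_lit 11611932194) (.two (nat_lit 2097152) (nat_lit 11551115790) (.one (nat_lit 2101850) .nil))))),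
   .two (nat_lit 2902458376) (nat_lit 12054429754) (.two (nat_lit 165526110212) (nat_lit 11551113398) (.two (nat_lit 102760451) (nat_lit 166245434122) (.two (nat_lit 606076929) (nat_lit 705693210) (.two (nat_lit 1048576) (nat_lit 35654142) (.one (nat_lit 41947625) .nil))))),
   .two (nat_lit 1358954504) (nat_lit 10336862262) (.two (nat_lit 12050235396) (nat_lit 1350566184) (.two (nat_lit 612368387) (nat_lit 2317353399) (.two (nat_lit 37748737) (nat_lit 813696569) (.two (nat_lit 2097152) (nat_lit 809504018) (.one (nat_lit 10003418592) .nil))))),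
   .two (nat_lit 16777224) (nat_lit 10000269339) (.two (nat_lit 16777220) (nat_lit 19026411703) (.two (nat_lit 9948889091) (nat_lit 3527410433) (.two (nat_lit 34603009) (nat_lit 2365589023) (.two (nat_lit 2097152) (nat_lit 12620663303) (.one (nat_lit 2101851) .nil))))),
   .two (nat_lit 165532401672) (nat_lit 3457155252) (.two (nat_lit 171966467) (nat_lit 21827158794) (.two (nat_lit 605028353) (nat_lit 4195866) (.two (nat_lit 8388608) (nat_lit 11476666881) (.one (nat_lit 1053276) .nil)))),
   .two (nat_lit 16777224) (nat_lit 19530776630) (.two (nat_lit 1276116996) (nat_lit 889192516) (.two (nat_lit 2097155) (nat_lit 104858041) (.two (nat_lit 2097153) (nat_lit 46507492906) (.two (nat_lit 2097152) (nat_lit 1916800242) (.one (nat_lit 46507494880) .nil))))),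
   .two (nat_lit 50331656) (nat_lit 1346371645) (.two (nat_lit 4194308) (nat_lit 620757060) (.two (nat_lit 171966467) (nat_lit 19109249752) (.two (nat_lit 37748737) (nat_lit 1175455256) (.two (nat_lit 1048576) (nat_lit 641731083) (.one (nat_lit 1053278) .nil))))),
   .two (nat_lit 285212680) (nat_lit 165526110262) (.two (nat_lit 3464495108) (nat_lit 10370416996) (.two (nat_lit 176160771) (nat_lit 1209008567) (.two (nat_lit 2097153) (nat_lit 2961180217) (.two (nat_lit 1048576) (nat_lit 2100582) (.one (nat_lit 3020951008) .nil))))),
   .two (nat_lit 2902458376) (nat_lit 1317011500) (.two (nat_lit 184549380) (nat_lit 2994733124) (.two (nat_lit 176160770) (nat_lit 156581757665) (.two (nat_lit 8388609) (nat_lit 21793605789) (.two (nat_lit 1048576) (nat_lit 19100862966) (.one (nat_lit 788533716) .nil))))),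
   .two (nat_lit 8388616) (nat_lit 605028379) (.two (nat_lit 176160772) (nat_lit 19529728183) (.two (nat_lit 1344274435) (nat_lit 156968682208) (.two (nat_lit 4194305) (nat_lit 10537142426) (.two (nat_lit 4194304) (nat_lit 2317355514) (.one (nat_lit 742396483) .nil))))),
   .two (nat_lit 276824072) (nat_lit 10338959544) (.two (nat_lit 11476664322) (nat_lit 304087758) (.two (nat_lit 2097153) (nat_lit 21210596894) (.two (nat_lit 1048576) (nat_lit 10338961911) (.one (nat_lit 1053286) .nil)))),
   .two (nat_lit 2902458376) (nat_lit 10506731547) (.two (nat_lit 184549380) (nat_lit 9974054980) (.two (nat_lit 16777219) (nat_lit 11618222844) (.two (nat_lit 8388609) (nat_lit 159232559346) (.two (nat_lit 4194304) (nat_lit 19100862966) (.one (nat_lit 158158819939) .nil))))),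
   .two (nat_lit 46407876616) (nat_lit 166211878965) (.two (nat_lit 11476664324) (nat_lit 9781116996) (.two (nat_lit 806354947) (nat_lit 620757789) (.two (nat_lit 2097153) (nat_lit 68159000) (.two (nat_lit 2097152) (nat_lit 705694222) (.one (nat_lit 2101867) .nil))))),
   .two (nat_lit 4194312) (nat_lit 3028287526) (.two (nat_lit 705691652) (nat_lit 780140905) (.two (nat_lit 169869314) (nat_lit 166129042159) (.two (nat_lit 2097153) (nat_lit 11517560358) (.two (nat_lit 1048576) (nat_lit 2099728) (.one (nat_lit 46406831584) .nil))))),
   .two (nat_lit 16777224) (nat_lit 12620660789) (.two (nat_lit 2954887172) (nat_lit 10015998020) (.two (nat_lit 183848927234) (nat_lit 20705182439) (.two (nat_lit 2097153) (nat_lit 158146233886) (.two (nat_lit 4194304) (nat_lit 174701152760) (.one (nat_lit 156535624160) .nil))))),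
   .two (nat_lit 813694984) (nat_lit 183949590553) (.two (nat_lit 606076932) (nat_lit 343932996) (.two (nat_lit 169869314) (nat_lit 2323645211) (.two (nat_lit 8388609) (nat_lit 13188991119) (.two (nat_lit 4194304) (nat_lit 12618566134) (.one (nat_lit 706744843) .nil))))),
   .two (nat_lit 713031688) (nat_lit 20704133173) (.two (nat_lit 276824068) (nat_lit 13224640580) (.two (nat_lit 18928893955) (nat_lit 19604177695) (.two (nat_lit 41943041) (nat_lit 10335815195) (.two (nat_lit 1048576) (nat_lit 19033754116) (.one (nat_lit 4199023) .nil))))),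
   .two (nat_lit 4194312) (nat_lit 11618222107) (.two (nat_lit 4194308) (nat_lit 1853882550) (.two (nat_lit 605028355) (nat_lit 2357199565) (.two (nat_lit 4194305) (nat_lit 156364703276) (.two (nat_lit 1048576) (nat_lit 20707281405) (.one (nat_lit 10942943703) .nil))))),
   .two (nat_lit 2889875464) (nat_lit 47548727353) (.two (nat_lit 9940500484) (nat_lit 3558867123) (.two (nat_lit 46978301955) (nat_lit 775946981) (.two (nat_lit 4194305) (nat_lit 19597887004) (.two (nat_lit 4194304) (nat_lit 2350910711) (.one (nat_lit 12048142799) .nil))))),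
   .two (nat_lit 3460300808) (nat_lit 673185972) (.two (nat_lit 203423747) (nat_lit 11476665061) (.two (nat_lit 606076929) (nat_lit 68159730) (.two (nat_lit 2097152) (nat_lit 158179789304) (.one (nat_lit 12048142880) .nil)))),
   .two (nat_lit 276824072) (nat_lit 46510637082) (.two (nat_lit 68157444) (nat_lit 880803908) (.two (nat_lit 605028355) (nat_lit 47588573951) (.two (nat_lit 4194305) (nat_lit 158075979304) (.two (nat_lit 4194304) (nat_lit 46406830584) (.one (nat_lit 4601156203) .nil))))),
   .two (nat_lit 176160776) (nat_lit 4634705976) (.two (nat_lit 742391812) (nat_lit 10913579313) (.two (nat_lit 708837379) (nat_lit 1853883097) (.two (nat_lit 606076929) (nat_lit 156535622144) (.one (nat_lit 2101879) .nil)))),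
   .two (nat_lit 754974728) (nat_lit 3021996211) (.two (nat_lit 1191182339) (nat_lit 11610882487) (.two (nat_lit 4194305) (nat_lit 3573548595) (.two (nat_lit 4194304) (nat_lit 47547682165) (.one (nat_lit 184986636877) .nil)))),
   .two (nat_lit 184549384) (nat_lit 12114198587) (.two (nat_lit 169869316) (nat_lit 16777284) (.two (nat_lit 11543773187) (nat_lit 157051519757) (.two (nat_lit 606076929) (nat_lit 10955523636) (.two (nat_lit 2097152) (nat_lit 9933163006) (.one (nat_lit 16781944) .nil))))),
   .two (nat_lit 2889875464) (nat_lit 12047089723) (.two (nat_lit 2887778308) (nat_lit 4634705988) (.two (nat_lit 2887778306) (nat_lit 156535620321) (.two (nat_lit 2097153) (nat_lit 12050237597) (.two (nat_lit 1048576) (nat_lit 11511269880) (.one (nat_lit 28691141090) .nil))))),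
   .two (nat_lit 2969567240) (nat_lit 11510218797) (.two (nat_lit 156372041732) (nat_lit 202375353) (.two (nat_lit 9765388291) (nat_lit 37329306329) (.two (nat_lit 2097153) (nat_lit 3028289698) (.two (nat_lit 2097152) (nat_lit 158183983609) (.one (nat_lit 8393338) .nil))))),
   .two (nat_lit 176160776) (nat_lit 11610882074) (.two (nat_lit 236978182) (nat_lit 11510218934) (.two (nat_lit 3458203651) (nat_lit 28697428709) (.two (nat_lit 606076929) (nat_lit 19026413106) (.two (nat_lit 8388608) (nat_lit 37247519226) (.one (nat_lit 840962655) .nil))))),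
   .two (nat_lit 16777224) (nat_lit 20704133173) (.two (nat_lit 272629764) (nat_lit 352321604) (.two (nat_lit 1276116994) (nat_lit 18928894391) (.two (nat_lit 50331649) (nat_lit 10503587369) (.two (nat_lit 1048576) (nat_lit 50334226) (.one (nat_lit 11546923511) .nil))))),
   .two (nat_lit 4194312) (nat_lit 3028287513) (.two (nat_lit 1175453700) (nat_lit 4634705988) (.two (nat_lit 4605345795) (nat_lit 843055907) (.two (nat_lit 34603009) (nat_lit 11517560360) (.two (nat_lit 8388608) (nat_lit 156364704252) (.one (nat_lit 4199042) .nil))))),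
   .two (nat_lit 41943048) (nat_lit 3021996211) (.two (nat_lit 159216828419) (nat_lit 13222544096) (.two (nat_lit 4194305) (nat_lit 1846543923) (.two (nat_lit 8388608) (nat_lit 4197779) (.one (nat_lit 3560968729) .nil)))),
   .two (nat_lit 4194312) (nat_lit 28691136565) (.two (nat_lit 205520900) (nat_lit 10538188868) (.two (nat_lit 166130089986) (nat_lit 1343226295) (.two (nat_lit 605028353) (nat_lit 675284504) (.two (nat_lit 1048576) (nat_lit 239077902) (.one (nat_lit 159250387448) .nil))))),
   .two (nat_lit 822083592) (nat_lit 2988441781) (.two (nat_lit 705691650) (nat_lit 19604177336) (.two (nat_lit 8388609) (nat_lit 3557820926) (.one (nat_lit 3525317194) .nil))),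
   .two (nat_lit 276824072) (nat_lit 19130220571) (.two (nat_lit 68157444) (nat_lit 880803908) (.two (nat_lit 705691650) (nat_lit 183920231135) (.two (nat_lit 4194305) (nat_lit 21777876526) (.two (nat_lit 4194304) (nat_lit 4027582966) (.one (nat_lit 1053242) .nil))))),
   .two (nat_lit 41943048) (nat_lit 174686470224) (.two (nat_lit 41943044) (nat_lit 9966715206) (.two (nat_lit 21777874947) (nat_lit 1746928057) (.two (nat_lit 612368385) (nat_lit 3457156660) (.two (nat_lit 2097152) (nat_lit 158653745678) (.one (nat_lit 1053321) .nil))))),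
   .two (nat_lit 165526110212) (nat_lit 158143086616) (.two (nat_lit 606076929) (nat_lit 336594467) .nil),
   .two (nat_lit 721420292) (nat_lit 10913579059) (.two (nat_lit 41943041) (nat_lit 156567077214) (.two (nat_lit 16777216) (nat_lit 2098867) (.one (nat_lit 2100803) .nil))),
   .two (nat_lit 2961178628) (nat_lit 156365750280) (.two (nat_lit 16777218) (nat_lit 12147753016) (.two (nat_lit 2097153) (nat_lit 2886730890) (.one (nat_lit 1052232) .nil))),
   .two (nat_lit 9934209028) (nat_lit 3036676115) (.two (nat_lit 16777219) (nat_lit 2418016302) (.two (nat_lit 16777217) (nat_lit 1914700993) (.one (nat_lit 2100815) .nil))),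
   .two (nat_lit 8388612) (nat_lit 606076991) (.two (nat_lit 8388609) (nat_lit 9934209343) (.two (nat_lit 1048576) (nat_lit 8389912) (.one (nat_lit 8392273) .nil))),
   .two (nat_lit 21208498180) (nat_lit 21811429396) (.two (nat_lit 739246083) (nat_lit 807403566) (.two (nat_lit 2097153) (nat_lit 1749025241) (.two (nat_lit 2097152) (nat_lit 4196036) (.one (nat_lit 4199066) .nil)))),
   .two (nat_lit 10369368068) (nat_lit 159251431434) (.two (nat_lit 169869314) (nat_lit 303038510) (.two (nat_lit 2097153) (nat_lit 1175454445) (.one (nat_lit 1052246) .nil))),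
   .two (nat_lit 2887778308) (nat_lit 16777225) (.two (nat_lit 218103811) (nat_lit 1847591409) (.two (nat_lit 1048576) (nat_lit 1291847292) (.one (nat_lit 16780889) .nil))),
   .two (nat_lit 11479810052) (nat_lit 343932937) (.two (nat_lit 8388610) (nat_lit 46510637132) (.two (nat_lit 37748737) (nat_lit 880804116) (.two (nat_lit 4194304) (nat_lit 8390351) (.one (nat_lit 8393371) .nil)))),
   .two (nat_lit 4601151494) (nat_lit 343932971) (.two (nat_lit 605028353) (nat_lit 713032028) (.two (nat_lit 8388608) (nat_lit 1276118724) (.one (nat_lit 1052254) .nil))),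
   .two (nat_lit 41943044) (nat_lit 166211879019) (.two (nat_lit 16777217) (nat_lit 1216349394) (.one (nat_lit 8393372) .nil)),
   .two (nat_lit 9934209028) (nat_lit 806354998) (.two (nat_lit 9765388289) (nat_lit 156969730337) (.two (nat_lit 1048576) (nat_lit 2099756) (.one (nat_lit 1052257) .nil))),
   .two (nat_lit 8388612) (nat_lit 47548727304) (.two (nat_lit 169869314) (nat_lit 165532401933) (.two (nat_lit 2097152) (nat_lit 37320918281) (.one (nat_lit 2100836) .nil))),
   .two (nat_lit 1847590916) (nat_lit 19596836884) (.two (nat_lit 12114198531) (nat_lit 1847590938) (.two (nat_lit 34603009) (nat_lit 9900654922) (.two (nat_lit 1048576) (nat_lit 2098474) (.one (nat_lit 2100839) .nil)))),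
   .two (nat_lit 4194308) (nat_lit 10343153707) (.two (nat_lit 605028353) (nat_lit 713032197) (.two (nat_lit 1048576) (nat_lit 4197251) .nil)),
   .two (nat_lit 176160772) (nat_lit 1745879050) (.two (nat_lit 176160770) (nat_lit 4647288875) (.two (nat_lit 16777217) (nat_lit 1846542813) (.two (nat_lit 16777216) (nat_lit 1052133) (.one (nat_lit 9781119728) .nil)))),
   .two (nat_lit 176160772) (nat_lit 3458203658) (.two (nat_lit 2097155) (nat_lit 3028287514) (.two (nat_lit 2097153) (nat_lit 184423547065) (.two (nat_lit 1048576) (nat_lit 1916797718) (.one (nat_lit 2101917) .nil)))),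
   .two (nat_lit 50331652) (nat_lit 159257722910) (.two (nat_lit 159224168451) (nat_lit 19042140460) (.two (nat_lit 1048576) (nat_lit 3028289162) (.one (nat_lit 8393374) .nil))),
   .two (nat_lit 3458203652) (nat_lit 28757196808) (.two (nat_lit 46407876610) (nat_lit 20704133162) (.two (nat_lit 156365750273) (nat_lit 11006903443) (.one (nat_lit 1053343) .nil))),
   .two (nat_lit 9768534020) (nat_lit 10336862218) (.two (nat_lit 3458203651) (nat_lit 608174373) (.two (nat_lit 8388608) (nat_lit 2099757) (.one (nat_lit 2101920) .nil))),
   .two (nat_lit 1178599428) (nat_lit 156532473920) (.two (nat_lit 37748737) (nat_lit 34603191) (.two (nat_lit 1048576) (nat_lit 4196910) (.one (nat_lit 4198020) .nil))),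
   .two (nat_lit 20638072836) (nat_lit 68158178) (.one (nat_lit 1051749) .nil),
   .two (nat_lit 203423748) (nat_lit 158653743113) (.two (nat_lit 18933088259) (nat_lit 2954887195) (.two (nat_lit 2097153) (nat_lit 41943407) (.two (nat_lit 8388608) (nat_lit 2098948) (.one (nat_lit 2100096) .nil)))),
   .two (nat_lit 68157444) (nat_lit 19530776584) (.two (nat_lit 272629763) (nat_lit 739246143) (.two (nat_lit 4194305) (nat_lit 1780482398) (.two (nat_lit 4194304) (nat_lit 35653356) (.one (nat_lit 2101921) .nil)))),
   .two (nat_lit 9768534020) (nat_lit 183845781514) (.two (nat_lit 705691650) (nat_lit 10540286133) (.two (nat_lit 1048576) (nat_lit 37249615166) (.one (nat_lit 1053501) .nil))),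
   .two (nat_lit 11543773188) (nat_lit 270532620) (.two (nat_lit 2887778306) (nat_lit 1376780333) (.two (nat_lit 605028353) (nat_lit 47548729006) (.one (nat_lit 1053346) .nil))),
   .two (nat_lit 166132187140) (nat_lit 166230753300) (.two (nat_lit 41943043) (nat_lit 46980399175) (.two (nat_lit 606076929) (nat_lit 37748920) (.two (nat_lit 2097152) (nat_lit 4195667) (.one (nat_lit 2101987) .nil)))),
   .two (nat_lit 3458203652) (nat_lit 165532401700) (.two (nat_lit 2097153) (nat_lit 1182794069) (.two (nat_lit 2097152) (nat_lit 8390426) (.one (nat_lit 8393379) .nil))),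
   .two (nat_lit 8388612) (nat_lit 21777874952) (.two (nat_lit 8388610) (nat_lit 37313577033) (.two (nat_lit 8388609) (nat_lit 37313577235) (.two (nat_lit 8388608) (nat_lit 37313577657) (.one (nat_lit 1051808) .nil)))),
   .two (nat_lit 10015997958) (nat_lit 28791799874) (.two (nat_lit 156367847425) (nat_lit 21208498469) (.two (nat_lit 4194304) (nat_lit 1310721756) (.one (nat_lit 2100928) .nil))),
   .two (nat_lit 4194308) (nat_lit 11559501832) (.two (nat_lit 50331651) (nat_lit 168820811) (.two (nat_lit 34603009) (nat_lit 157051519326) (.two (nat_lit 1048576) (nat_lit 16778584) (.one (nat_lit 16781988) .nil)))),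
   .two (nat_lit 117440516) (nat_lit 37313577004) (.two (nat_lit 9765388289) (nat_lit 2969567512) (.two (nat_lit 1048576) (nat_lit 16778922) (.one (nat_lit 19596839739) .nil))),
   .two (nat_lit 2889875460) (nat_lit 9966714892) (.two (nat_lit 705691650) (nat_lit 1916796971) (.two (nat_lit 156367847425) (nat_lit 19026411809) (.two (nat_lit 4194304) (nat_lit 1051187) (.one (nat_lit 1052354) .nil)))),
   .two (nat_lit 1753219076) (nat_lit 183949590541) (.two (nat_lit 176160771) (nat_lit 184419352648) (.two (nat_lit 4194305) (nat_lit 157043130755) (.two (nat_lit 16777216) (nat_lit 4196124) (.one (nat_lit 4198083) .nil)))),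
   .two (nat_lit 1178599428) (nat_lit 166129041439) (.two (nat_lit 2902458371) (nat_lit 1916796964) (.two (nat_lit 605028353) (nat_lit 843055475) (.two (nat_lit 8388608) (nat_lit 10537143797) .nil))),
   .two (nat_lit 606076932) (nat_lit 28093448202) (.two (nat_lit 169869314) (nat_lit 4194670) (.two (nat_lit 2097152) (nat_lit 4196895) (.one (nat_lit 4199077) .nil))),
   .two (nat_lit 37748740) (nat_lit 68157538) (.two (nat_lit 606076929) (nat_lit 11546919203) (.two (nat_lit 2097152) (nat_lit 1276118682) (.one (nat_lit 1053350) .nil))),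
   .two (nat_lit 183853121540) (nat_lit 18928893972) (.two (nat_lit 13191086083) (nat_lit 1283457206) (.two (nat_lit 8388608) (nat_lit 4196916) (.one (nat_lit 4198086) .nil))),
   .two (nat_lit 184549380) (nat_lit 4634705946) (.two (nat_lit 16777217) (nat_lit 876610814) (.one (nat_lit 4199079) .nil)),
   .two (nat_lit 11543773188) (nat_lit 337641484) (.two (nat_lit 21777874947) (nat_lit 9934209086) (.two (nat_lit 34603009) (nat_lit 21778924007) (.two (nat_lit 1048576) (nat_lit 2098979) (.one (nat_lit 2101928) .nil)))),
   .two (nat_lit 16777220) (nat_lit 9934209032) (.two (nat_lit 169869314) (nat_lit 218103833) (.two (nat_lit 9781116929) (nat_lit 2097992) (.two (nat_lit 16777216) (nat_lit 2099765) (.one (nat_lit 2100945) .nil)))),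
   .two (nat_lit 620756996) (nat_lit 9768534024) (.two (nat_lit 2969567235) (nat_lit 13224640588) (.two (nat_lit 16777217) (nat_lit 156569175207) (.one (nat_lit 4199081) .nil))),
   .two (nat_lit 20644364292) (nat_lit 21812478006) (.two (nat_lit 2097153) (nat_lit 4638901379) (.one (nat_lit 2100953) .nil)),
   .two (nat_lit 16777220) (nat_lit 641728575) (.two (nat_lit 16777217) (nat_lit 11010048348) (.two (nat_lit 16777216) (nat_lit 184989779642) (.one (nat_lit 1052380) .nil))),
   .two (nat_lit 12054429700) (nat_lit 18928893972) (.two (nat_lit 13191086083) (nat_lit 12054429721) (.two (nat_lit 8388609) (nat_lit 46510637531) (.two (nat_lit 4194304) (nat_lit 8390446) (.one (nat_lit 4198086) .nil)))),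
   .two (nat_lit 612368388) (nat_lit 10906238994) (.two (nat_lit 83886083) (nat_lit 19127075133) (.two (nat_lit 16777216) (nat_lit 9866053339) (.one (nat_lit 1053354) .nil))),
   .two (nat_lit 156968681476) (nat_lit 12117345073) .nil,
   .two (nat_lit 11543773188) (nat_lit 11014242314) (.two (nat_lit 8388610) (nat_lit 202375228) (.two (nat_lit 41943041) (nat_lit 11543773670) (.two (nat_lit 8388608) (nat_lit 1050419) (.one (nat_lit 1053355) .nil)))),
   .two (nat_lit 2954887172) (nat_lit 20719861789) (.two (nat_lit 50331651) (nat_lit 9867100196) (.two (nat_lit 620756993) (nat_lit 28758245642) (.two (nat_lit 16777216) (nat_lit 2099768) (.one (nat_lit 2101932) .nil)))),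
   .two (nat_lit 272629764) (nat_lit 28764536844) (.two (nat_lit 41943043) (nat_lit 47584379667) (.one (nat_lit 8393389) .nil)),
   .two (nat_lit 41943044) (nat_lit 1410334779) (.two (nat_lit 2097153) (nat_lit 183912890764) (.two (nat_lit 2097152) (nat_lit 174692762863) (.one (nat_lit 8392436) .nil))),
   .two (nat_lit 1847590920) (nat_lit 101711893) (.two (nat_lit 28757196804) (nat_lit 10940842423) (.two (nat_lit 1048576) (nat_lit 9867101742) (.one (nat_lit 2102053) .nil))),
   .two (nat_lit 285212681) (nat_lit 10343153674) (.two (nat_lit 16777220) (nat_lit 174759870527) (.two (nat_lit 1283457027) (nat_lit 9781117746) (.one (nat_lit 16780715) .nil))),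
   .two (nat_lit 176160776) (nat_lit 11010048010) (.two (nat_lit 46980399108) (nat_lit 13195280455) (.two (nat_lit 46409973762) (nat_lit 3028287667) (.two (nat_lit 620756993) (nat_lit 21781021838) (.two (nat_lit 4194304) (nat_lit 8390964) (.one (nat_lit 8393510) .nil))))),
   .two (nat_lit 721420296) (nat_lit 158083317770) (.two (nat_lit 20644364292) (nat_lit 156481093970) (.two (nat_lit 37748737) (nat_lit 721420728) (.two (nat_lit 4194304) (nat_lit 16780031) (.one (nat_lit 4198522) .nil)))),
   .two (nat_lit 276824072) (nat_lit 10506731533) (.two (nat_lit 2961178628) (nat_lit 3558866970) (.two (nat_lit 713031682) (nat_lit 46507491648) (.two (nat_lit 2097153) (nat_lit 166136382151) (.two (nat_lit 1048576) (nat_lit 20705183299) (.one (nat_lit 1052796) .nil))))),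
   .two (nat_lit 28758245384) (nat_lit 1048604) (.two (nat_lit 1947205638) (nat_lit 183947493424) (.two (nat_lit 1846542339) (nat_lit 156365750990) (.two (nat_lit 1048576) (nat_lit 2418020141) .nil))),
   .two (nat_lit 46414168072) (nat_lit 28693233672) (.two (nat_lit 158083317764) (nat_lit 156465365018) (.two (nat_lit 1913651203) (nat_lit 28093448371) (.two (nat_lit 9765388289) (nat_lit 10376709264) (.two (nat_lit 4194304) (nat_lit 2953840806) (.one (nat_lit 1053479) .nil))))),
   .two (nat_lit 11559501832) (nat_lit 12047089684) (.two (nat_lit 3036676102) (nat_lit 2956984366) (.two (nat_lit 11492392963) (nat_lit 166232850614) (.two (nat_lit 16777217) (nat_lit 174755677334) (.two (nat_lit 1048576) (nat_lit 158662135885) .nil)))),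
   .two (nat_lit 9781116936) (nat_lit 1212153899) (.two (nat_lit 9933160451) (nat_lit 754975422) (.two (nat_lit 1048576) (nat_lit 16780032) (.one (nat_lit 4199208) .nil))),
   .two (nat_lit 157036838920) (nat_lit 306184212) (.two (nat_lit 46409973766) (nat_lit 1377828913) (.two (nat_lit 46409973763) (nat_lit 2418016573) (.two (nat_lit 34603009) (nat_lit 166197200507) (.two (nat_lit 1048576) (nat_lit 2100745) (.one (nat_lit 1053481) .nil))))),
   .two (nat_lit 12117344264) (nat_lit 28790751275) (.two (nat_lit 28690087939) (nat_lit 19130220984) (.two (nat_lit 1048576) (nat_lit 46477084860) (.one (nat_lit 4199210) .nil))),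
   .two (nat_lit 184993972232) (nat_lit 705691657) (.two (nat_lit 11543773188) (nat_lit 276824114) (.two (nat_lit 28690087939) (nat_lit 11551113694) (.two (nat_lit 612368385) (nat_lit 873465478) (.two (nat_lit 8388608) (nat_lit 1052170) (.one (nat_lit 1052809) .nil))))),
   .two (nat_lit 9934209032) (nat_lit 1358954534) (.two (nat_lit 9948889091) (nat_lit 156567077584) (.two (nat_lit 16777216) (nat_lit 2099514) (.one (nat_lit 2102059) .nil))),
   .two (nat_lit 3464495112) (nat_lit 158177689707) (.two (nat_lit 20638072835) (nat_lit 1954546424) (.two (nat_lit 2097152) (nat_lit 8390971) (.one (nat_lit 8393516) .nil))),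
   .two (nat_lit 10336862216) (nat_lit 166196150282) (.two (nat_lit 8388612) (nat_lit 156466413616) (.two (nat_lit 176160771) (nat_lit 19094569255) (.two (nat_lit 41943041) (nat_lit 12048140564) (.one (nat_lit 847253541) .nil)))),
   .two (nat_lit 272629768) (nat_lit 174759870474) (.two (nat_lit 9866051588) (nat_lit 2889875549) (.two (nat_lit 209715203) (nat_lit 19532874106) (.two (nat_lit 37748737) (nat_lit 184416207604) (.two (nat_lit 1048576) (nat_lit 8391427) (.one (nat_lit 1052816) .nil))))),
   .two (nat_lit 176160776) (nat_lit 156581757247) (.two (nat_lit 8388609) (nat_lit 4043310725) (.two (nat_lit 1048576) (nat_lit 166237047060) (.one (nat_lit 10335818909) .nil))),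
   .two (nat_lit 4613734408) (nat_lit 18928893973) (.two (nat_lit 46409973764) (nat_lit 11510218778) (.two (nat_lit 4601151491) (nat_lit 20737687735) (.two (nat_lit 4194305) (nat_lit 1049826) (.two (nat_lit 4194304) (nat_lit 2099516) (.one (nat_lit 2102061) .nil))))),
   .two (nat_lit 1753219080) (nat_lit 19093520429) (.two (nat_lit 21207449603) (nat_lit 183853121976) (.two (nat_lit 1048576) (nat_lit 8392021) .nil)),
   .two (nat_lit 822083592) (nat_lit 19532873736) (.two (nat_lit 16777220) (nat_lit 1377828909) (.two (nat_lit 11546918915) (nat_lit 28806480227) (.two (nat_lit 16777217) (nat_lit 2099744) (.two (nat_lit 2097152) (nat_lit 16780811) (.one (nat_lit 16782126) .nil))))),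
   .two (nat_lit 156367847432) (nat_lit 109051964) (.two (nat_lit 46414168067) (nat_lit 156367847904) (.two (nat_lit 4194305) (nat_lit 8390295) (.two (nat_lit 8388608) (nat_lit 4197125) (.one (nat_lit 2353008605) .nil)))),
   .two (nat_lit 4194312) (nat_lit 174701150523) (.two (nat_lit 4194305) (nat_lit 12062819048) (.two (nat_lit 4194304) (nat_lit 1051398) (.one (nat_lit 4199215) .nil))),
   .two (nat_lit 28758245384) (nat_lit 174688567306) (.two (nat_lit 742391812) (nat_lit 12129927275) (.two (nat_lit 1277165570) (nat_lit 37329306091) (.two (nat_lit 620756993) (nat_lit 185021236387) (.two (nat_lit 16777216) (nat_lit 2100748) (.one (nat_lit 16782128) .nil))))),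
   .two (nat_lit 612368392) (nat_lit 46978301960) (.two (nat_lit 612368388) (nat_lit 3021996095) (.two (nat_lit 69206019) (nat_lit 9974055312) (.two (nat_lit 4194305) (nat_lit 11618223227) (.two (nat_lit 8388608) (nat_lit 2099975) (.one (nat_lit 4199217) .nil))))),
   .two (nat_lit 47555018760) (nat_lit 158144135193) (.two (nat_lit 2887778306) (nat_lit 2323644918) (.two (nat_lit 2097153) (nat_lit 9940501693) (.two (nat_lit 2097152) (nat_lit 8391432) (.one (nat_lit 2101071) .nil)))),
   .two (nat_lit 159217877000) (nat_lit 3527409672) (.two (nat_lit 9768534020) (nat_lit 673185868) (.two (nat_lit 2954887171) (nat_lit 2923430173) (.two (nat_lit 2097153) (nat_lit 104858358) (.two (nat_lit 2097152) (nat_lit 4197129) (.one (nat_lit 4199218) .nil))))),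
   .two (nat_lit 8388616) (nat_lit 4601151497) (.two (nat_lit 4194308) (nat_lit 11014242352) (.two (nat_lit 4194306) (nat_lit 1182794104) (.two (nat_lit 37748737) (nat_lit 4598006468) (.two (nat_lit 4194304) (nat_lit 1052173) (.one (nat_lit 1053491) .nil))))),
   .two (nat_lit 754974728) (nat_lit 19596836872) (.two (nat_lit 19596836868) (nat_lit 754974746) (.two (nat_lit 183845781506) (nat_lit 20652753609) (.two (nat_lit 1048576) (nat_lit 117443930) .nil))),
   .two (nat_lit 285212680) (nat_lit 46980399112) (.two (nat_lit 46980399108) (nat_lit 166144770438) (.two (nat_lit 41943041) (nat_lit 13224642727) (.one (nat_lit 4198553) .nil))),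
   .two (nat_lit 2887778312) (nat_lit 3527409689) (.two (nat_lit 2097155) (nat_lit 2319450297) (.two (nat_lit 37748737) (nat_lit 739246871) (.two (nat_lit 4194304) (nat_lit 19127077577) (.one (nat_lit 13221498715) .nil)))),
   .two (nat_lit 19599982600) (nat_lit 21207449608) (.two (nat_lit 21207449604) (nat_lit 156468510758) (.two (nat_lit 158143086595) (nat_lit 156535619970) (.two (nat_lit 612368385) (nat_lit 4197051) (.one (nat_lit 157038939480) .nil)))),
   .two (nat_lit 4601151496) (nat_lit 156372041745) (.two (nat_lit 184419352580) (nat_lit 46984593467) (.two (nat_lit 9948889091) (nat_lit 156367847744) (.two (nat_lit 8388609) (nat_lit 1849688845) (.two (nat_lit 16777216) (nat_lit 4197131) (.one (nat_lit 4199220) .nil))))),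
   .two (nat_lit 4194312) (nat_lit 218103850) (.two (nat_lit 4194306) (nat_lit 34603317) (.two (nat_lit 4194305) (nat_lit 4027581649) (.two (nat_lit 4194304) (nat_lit 156481095205) (.one (nat_lit 16781467) .nil)))),
   .two (nat_lit 721420296) (nat_lit 9906946064) (.two (nat_lit 721420292) (nat_lit 156372041819) (.two (nat_lit 9768534019) (nat_lit 822084282) (.two (nat_lit 4194304) (nat_lit 16779582) (.one (nat_lit 8392860) .nil)))),
   .two (nat_lit 16777224) (nat_lit 209715254) (.two (nat_lit 21785214979) (nat_lit 50332342) (.two (nat_lit 8388608) (nat_lit 3539994155) (.one (nat_lit 16780638) .nil))),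
   .two (nat_lit 8388616) (nat_lit 13191086088) (.two (nat_lit 8388612) (nat_lit 843055149) (.two (nat_lit 4194306) (nat_lit 880804122) (.two (nat_lit 4194305) (nat_lit 8389859) (.two (nat_lit 4194304) (nat_lit 8391436) (.one (nat_lit 4199654) .nil))))),
   .two (nat_lit 16777229) (nat_lit 174752530444) (.two (nat_lit 11476664324) (nat_lit 184549663) (.two (nat_lit 2097153) (nat_lit 156364702447) (.two (nat_lit 2097152) (nat_lit 10000270883) (.one (nat_lit 1053493) .nil)))),
   .two (nat_lit 156372041736) (nat_lit 2954887178) (.two (nat_lit 169869316) (nat_lit 10343154103) (.two (nat_lit 8388608) (nat_lit 1052174) (.one (nat_lit 1053494) .nil))),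
   .two (nat_lit 639631368) (nat_lit 10343153684) (.two (nat_lit 10913579014) (nat_lit 37247516720) (.two (nat_lit 270532611) (nat_lit 1317011804) (.two (nat_lit 2097153) (nat_lit 243271841) (.one (nat_lit 873467709) .nil)))),
   .two (nat_lit 19596836872) (nat_lit 9802088458) (.two (nat_lit 157038936068) (nat_lit 156968681516) (.two (nat_lit 19532873731) (nat_lit 4598006942) (.two (nat_lit 2097152) (nat_lit 68160807) .nil))),
   .two (nat_lit 11559501832) (nat_lit 19596836884) (.two (nat_lit 620756996) (nat_lit 183853121562) (.two (nat_lit 13195280387) (nat_lit 11492393245) (.two (nat_lit 34603009) (nat_lit 10376708894) (.two (nat_lit 1048576) (nat_lit 8390975) (.one (nat_lit 8392862) .nil))))),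
   .two (nat_lit 205520904) (nat_lit 2887778392) (.two (nat_lit 34603011) (nat_lit 47550825246) (.two (nat_lit 1048576) (nat_lit 9768536242) (.one (nat_lit 2954891183) .nil))),
   .two (nat_lit 9940500488) (nat_lit 2416967690) (.two (nat_lit 1745879044) (nat_lit 1379926062) (.two (nat_lit 184416206851) (nat_lit 1379926199) (.two (nat_lit 8388609) (nat_lit 3524264683) (.two (nat_lit 8388608) (nat_lit 1051405) (.one (nat_lit 8392863) .nil))))),
   .two (nat_lit 10385096712) (nat_lit 11578376246) (.two (nat_lit 806354947) (nat_lit 2902459074) (.two (nat_lit 1048576) (nat_lit 1358956812) (.one (nat_lit 2102072) .nil))),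
   .two (nat_lit 8388616) (nat_lit 20638072840) (.two (nat_lit 8388612) (nat_lit 9967763497) (.two (nat_lit 47555018755) (nat_lit 47582282430) (.two (nat_lit 8388608) (nat_lit 19597887021) (.one (nat_lit 2102073) .nil)))),
   .two (nat_lit 272629768) (nat_lit 165532401674) (.two (nat_lit 13191086084) (nat_lit 159224168492) (.two (nat_lit 1753219075) (nat_lit 3527409949) (.two (nat_lit 156372041729) (nat_lit 3527410365) (.two (nat_lit 8388608) (nat_lit 4197134) (.one (nat_lit 8393530) .nil))))),
   .two (nat_lit 10385096712) (nat_lit 4634705963) (.two (nat_lit 272629763) (nat_lit 9948889368) (.two (nat_lit 50331649) (nat_lit 46477084955) (.one (nat_lit 4199121) .nil))),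
   .two (nat_lit 620757000) (nat_lit 28691136522) (.two (nat_lit 2969567236) (nat_lit 174753579052) (.two (nat_lit 10504634371) (nat_lit 1358954781) (.two (nat_lit 9765388289) (nat_lit 721420989) (.two (nat_lit 1048576) (nat_lit 2099983) (.one (nat_lit 13188993850) .nil))))),
   .two (nat_lit 169869320) (nat_lit 10955522060) (.two (nat_lit 50331652) (nat_lit 11543773226) (.two (nat_lit 16777218) (nat_lit 28691137243) (.two (nat_lit 16777216) (nat_lit 10906241246) (.one (nat_lit 3539997408) .nil)))),
   .two (nat_lit 47555018760) (nat_lit 9982443583) (.two (nat_lit 176160770) (nat_lit 10552869212) (.two (nat_lit 8388609) (nat_lit 47596963449) (.two (nat_lit 8388608) (nat_lit 16780048) (.one (nat_lit 8393531) .nil)))),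
   .two (nat_lit 176160776) (nat_lit 11513364518) (.two (nat_lit 8388611) (nat_lit 306184471) (.two (nat_lit 8388609) (nat_lit 9969861822) (.two (nat_lit 2097152) (nat_lit 166237048595) .nil))),
   .two (nat_lit 276824072) (nat_lit 306184201) (.two (nat_lit 8388612) (nat_lit 10439622839) (.two (nat_lit 4194305) (nat_lit 165525062349) (.two (nat_lit 4194304) (nat_lit 1216351640) .nil))),
   .two (nat_lit 620757000) (nat_lit 605028367) (.two (nat_lit 705691652) (nat_lit 184549658) (.two (nat_lit 2097153) (nat_lit 2886730470) (.two (nat_lit 2097152) (nat_lit 156465366590) (.one (nat_lit 16781474) .nil)))),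
   .two (nat_lit 285212680) (nat_lit 166132187161) (.two (nat_lit 285212675) (nat_lit 21210595655) (.two (nat_lit 37748737) (nat_lit 218104501) (.two (nat_lit 4194304) (nat_lit 3573549793) (.one (nat_lit 608177508) .nil)))),
   .two (nat_lit 46414168072) (nat_lit 352321546) (.two (nat_lit 4613734404) (nat_lit 4605345833) (.two (nat_lit 28705816579) (nat_lit 183912890548) (.two (nat_lit 50331649) (nat_lit 11610882761) (.two (nat_lit 1048576) (nat_lit 8392455) .nil)))),
   .two (nat_lit 8388616) (nat_lit 21812477963) (.two (nat_lit 176160772) (nat_lit 46508539954) (.two (nat_lit 176160770) (nat_lit 166230753549) (.two (nat_lit 2097153) (nat_lit 185027527892) (.two (nat_lit 2097152) (nat_lit 142607908) (.one (nat_lit 2102076) .nil))))),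
   .two (nat_lit 713031688) (nat_lit 158146232332) (.two (nat_lit 183848927236) (nat_lit 11618222259) (.two (nat_lit 37748737) (nat_lit 9940501717) (.two (nat_lit 4194304) (nat_lit 8391441) (.one (nat_lit 1413485293) .nil)))),
   .two (nat_lit 8388616) (nat_lit 10942939146) (.two (nat_lit 184423546884) (nat_lit 21814575196) (.two (nat_lit 10504634371) (nat_lit 239075700) (.two (nat_lit 156365750273) (nat_lit 9869200104) (.one (nat_lit 4199159) .nil)))),
   .two (nat_lit 169869320) (nat_lit 1358954535) (.two (nat_lit 184549379) (nat_lit 19530776911) (.two (nat_lit 605028353) (nat_lit 184550558) (.two (nat_lit 1048576) (nat_lit 2099987) (.one (nat_lit 159232561178) .nil)))),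
   .two (nat_lit 9781116936) (nat_lit 21781020965) (.two (nat_lit 4194305) (nat_lit 159232557781) (.two (nat_lit 4194304) (nat_lit 1276118565) (.one (nat_lit 1052838) .nil))),
   .two (nat_lit 158144135176) (nat_lit 11577327626) (.two (nat_lit 41943044) (nat_lit 28791799856) (.two (nat_lit 8388610) (nat_lit 2887779467) (.two (nat_lit 8388608) (nat_lit 10336866346) .nil))),
   .two (nat_lit 75497480) (nat_lit 47582281793) (.two (nat_lit 612368387) (nat_lit 21812478262) (.two (nat_lit 50331649) (nat_lit 2988444391) (.one (nat_lit 3565162342) .nil))),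
   .two (nat_lit 10385096714) (nat_lit 9974054968) (.two (nat_lit 16777219) (nat_lit 46414169622) (.one (nat_lit 218107185) .nil)),
   .two (nat_lit 8388616) (nat_lit 184419352584) (.two (nat_lit 8388612) (nat_lit 171966513) (.two (nat_lit 13191086083) (nat_lit 343933107) (.two (nat_lit 156367847425) (nat_lit 183920232606) (.one (nat_lit 8393534) .nil)))),
   .two (nat_lit 157036838920) (nat_lit 11614027804) (.two (nat_lit 705691652) (nat_lit 185035915733) (.two (nat_lit 4194305) (nat_lit 1411384521) (.two (nat_lit 4194304) (nat_lit 2099990) (.one (nat_lit 2102079) .nil)))),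
   .two (nat_lit 739246088) (nat_lit 158144135176) (.two (nat_lit 12114198532) (nat_lit 20738736168) (.two (nat_lit 1913651203) (nat_lit 28691137262) (.two (nat_lit 1048576) (nat_lit 2099521) (.one (nat_lit 2102081) .nil)))),
   .two (nat_lit 306184205) (nat_lit 16777245) (.two (nat_lit 19142803462) (nat_lit 843055284) (.two (nat_lit 9781116929) (nat_lit 156971827962) (.two (nat_lit 8388608) (nat_lit 339740904) (.one (nat_lit 16782146) .nil)))),
   .two (nat_lit 21208498184) (nat_lit 184549386) (.two (nat_lit 2969567236) (nat_lit 807403566) (.two (nat_lit 2902458371) (nat_lit 47584379198) (.two (nat_lit 606076929) (nat_lit 156581758169) (.two (nat_lit 2097152) (nat_lit 21814577428) (.one (nat_lit 4199235) .nil))))),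
   .two (nat_lit 16777224) (nat_lit 1947205652) (.two (nat_lit 3458203652) (nat_lit 1779433579) (.two (nat_lit 1795162115) (nat_lit 10369368248) (.two (nat_lit 8388609) (nat_lit 21812478670) (.two (nat_lit 2097152) (nat_lit 8392208) (.one (nat_lit 2102084) .nil))))),
   .two (nat_lit 713031688) (nat_lit 20638072840) (.two (nat_lit 20638072836) (nat_lit 2424308470) (.two (nat_lit 2097152) (nat_lit 157043133093) (.one (nat_lit 12115251364) .nil))),
   .two (nat_lit 809500680) (nat_lit 1191182675) (.two (nat_lit 4194305) (nat_lit 2887779030) (.two (nat_lit 4194304) (nat_lit 2100753) (.one (nat_lit 2102085) .nil))),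
   .two (nat_lit 16777224) (nat_lit 166132187146) (.two (nat_lit 285212676) (nat_lit 174688567620) (.two (nat_lit 612368385) (nat_lit 2969567671) (.two (nat_lit 4194304) (nat_lit 3573548616) (.one (nat_lit 16781482) .nil)))),
   .two (nat_lit 10385096712) (nat_lit 12047089672) (.two (nat_lit 1795162116) (nat_lit 12617515050) (.two (nat_lit 184986632195) (nat_lit 10351542671) (.two (nat_lit 34603009) (nat_lit 4613735994) (.one (nat_lit 47547682688) .nil)))),
   .two (nat_lit 1277165576) (nat_lit 3464495113) (.two (nat_lit 46414168068) (nat_lit 159251431468) (.two (nat_lit 3464495107) (nat_lit 19094569347) (.two (nat_lit 606076929) (nat_lit 8389842) (.two (nat_lit 2097152) (nat_lit 8392199) (.one (nat_lit 2102086) .nil))))),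
   .two (nat_lit 9768534024) (nat_lit 46414168072) (.two (nat_lit 9768534020) (nat_lit 4605345836) (.two (nat_lit 2889875459) (nat_lit 343933213) (.two (nat_lit 4194305) (nat_lit 713032454) (.two (nat_lit 4194304) (nat_lit 8390978) (.one (nat_lit 28798095213) .nil))))),
   .two (nat_lit 2889875464) (nat_lit 1847590937) (.two (nat_lit 165526110211) (nat_lit 2319450831) (.two (nat_lit 2097152) (nat_lit 156535621875) (.one (nat_lit 4199239) .nil))),
   .two (nat_lit 8388616) (nat_lit 318767161) (.two (nat_lit 8388610) (nat_lit 19142804199) (.two (nat_lit 8388608) (nat_lit 1052178) (.one (nat_lit 1053512) .nil))),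
   .two (nat_lit 156372041736) (nat_lit 10906239032) (.two (nat_lit 4194306) (nat_lit 1283457316) (.two (nat_lit 605028353) (nat_lit 641729256) (.two (nat_lit 4194304) (nat_lit 8390981) (.one (nat_lit 4199241) .nil)))),
   .two (nat_lit 9948889096) (nat_lit 11007950858) (.two (nat_lit 46407876612) (nat_lit 3003122016) (.two (nat_lit 2097153) (nat_lit 1291846332) (.two (nat_lit 8388608) (nat_lit 1052679) .nil))),
   .two (nat_lit 620757000) (nat_lit 156372041738) (.two (nat_lit 46984593412) (nat_lit 83886121) (.two (nat_lit 3531603971) (nat_lit 159232557846) (.two (nat_lit 1048576) (nat_lit 9881782529) (.one (nat_lit 1052848) .nil)))),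
   .two (nat_lit 612368392) (nat_lit 10940841994) (.two (nat_lit 47555018756) (nat_lit 28758245420) (.two (nat_lit 157036838915) (nat_lit 159224168887) (.two (nat_lit 2097152) (nat_lit 20644365845) (.one (nat_lit 8393546) .nil)))),
   .two (nat_lit 47563407368) (nat_lit 3565158411) (.two (nat_lit 183853121540) (nat_lit 13187940703) (.two (nat_lit 41943041) (nat_lit 10906239416) (.two (nat_lit 8388608) (nat_lit 1050951) (.one (nat_lit 1053515) .nil)))),
   .two (nat_lit 4194312) (nat_lit 75497480) (.two (nat_lit 75497476) (nat_lit 1048896) (.two (nat_lit 34603009) (nat_lit 10942939890) (.two (nat_lit 4194304) (nat_lit 1051417) (.one (nat_lit 1053516) .nil)))),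
   .two (nat_lit 285212680) (nat_lit 46980399112) (.two (nat_lit 11492392964) (nat_lit 9936306227) (.two (nat_lit 11492392962) (nat_lit 3460301278) (.two (nat_lit 4194305) (nat_lit 2902459061) (.two (nat_lit 4194304) (nat_lit 12163485460) .nil)))),
   .two (nat_lit 46409973768) (nat_lit 184423546938) (.two (nat_lit 176160771) (nat_lit 1212154550) (.two (nat_lit 8388608) (nat_lit 9802090003) (.one (nat_lit 4198579) .nil))),
   .two (nat_lit 47555018761) (nat_lit 12117344346) (.two (nat_lit 159217876995) (nat_lit 19537068543) (.two (nat_lit 156365750273) (nat_lit 2994736564) .nil)),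
   .two (nat_lit 272629768) (nat_lit 243269649) (.two (nat_lit 809500676) (nat_lit 47555018795) (.two (nat_lit 4605345795) (nat_lit 4030726613) (.two (nat_lit 156372041729) (nat_lit 12620662971) (.one (nat_lit 4198580) .nil)))),
   .two (nat_lit 11479810056) (nat_lit 10436476953) (.two (nat_lit 809500675) (nat_lit 158646403252) (.two (nat_lit 37748737) (nat_lit 4027582752) (.one (nat_lit 20637028435) .nil))),
   .two (nat_lit 1358954504) (nat_lit 1745879061) (.two (nat_lit 218103812) (nat_lit 158146232372) (.two (nat_lit 171966467) (nat_lit 9881780500) (.two (nat_lit 605028353) (nat_lit 10540286671) (.two (nat_lit 1048576) (nat_lit 4197147) (.one (nat_lit 1053517) .nil))))),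
   .two (nat_lit 205520904) (nat_lit 2887778392) (.two (nat_lit 34603011) (nat_lit 47550825246) (.two (nat_lit 2097152) (nat_lit 174688570060) (.one (nat_lit 2954891183) .nil))),
   .two (nat_lit 203423752) (nat_lit 47550824743) (.two (nat_lit 2097153) (nat_lit 2923430656) (.two (nat_lit 4194304) (nat_lit 8391452) (.one (nat_lit 847254685) .nil))),
   .two (nat_lit 46407876616) (nat_lit 19096666207) (.two (nat_lit 4599054339) (nat_lit 47584379255) (.two (nat_lit 2097153) (nat_lit 272631333) (.one (nat_lit 4198583) .nil))),
   .two (nat_lit 1350565896) (nat_lit 10436476971) (.two (nat_lit 8388610) (nat_lit 28760342886) (.two (nat_lit 41943041) (nat_lit 28086109322) (.two (nat_lit 1048576) (nat_lit 8391454) (.one (nat_lit 1052858) .nil)))),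
   .two (nat_lit 19599982600) (nat_lit 37329305697) (.two (nat_lit 4194306) (nat_lit 13237223893) (.two (nat_lit 4194305) (nat_lit 721422610) (.one (nat_lit 28790756437) .nil))),
   .two (nat_lit 47555018760) (nat_lit 272629769) (.two (nat_lit 4194308) (nat_lit 4638900287) (.two (nat_lit 9934209027) (nat_lit 3565158888) (.two (nat_lit 41943041) (nat_lit 13221495527) (.two (nat_lit 2097152) (nat_lit 1051423) (.one (nat_lit 1053518) .nil))))),
   .two (nat_lit 159217877000) (nat_lit 1753219252) (.two (nat_lit 2097153) (nat_lit 11551114401) (.two (nat_lit 2097152) (nat_lit 8392211) (.one (nat_lit 2961182501) .nil))),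
   .two (nat_lit 1913651208) (nat_lit 174753579016) (.two (nat_lit 169869316) (nat_lit 1325400118) (.two (nat_lit 169869314) (nat_lit 13187940844) (.two (nat_lit 16777217) (nat_lit 1846543506) (.two (nat_lit 16777216) (nat_lit 1052180) (.one (nat_lit 16782159) .nil))))),
   .two (nat_lit 9781116936) (nat_lit 47548727334) (.two (nat_lit 2097155) (nat_lit 822084287) (.two (nat_lit 1048576) (nat_lit 9867101733) (.one (nat_lit 2101436) .nil))),
   .two (nat_lit 639631368) (nat_lit 754974756) (.two (nat_lit 721420291) (nat_lit 159217877763) (.two (nat_lit 16777216) (nat_lit 28691139337) (.one (nat_lit 183861514099) .nil))),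
   .two (nat_lit 822083592) (nat_lit 166132187163) (.two (nat_lit 16777218) (nat_lit 19096667310) (.two (nat_lit 1048576) (nat_lit 16781335) .nil)),
   .two (nat_lit 169869320) (nat_lit 9948889115) (.two (nat_lit 2097155) (nat_lit 28101837192) (.two (nat_lit 9781116929) (nat_lit 156968683847) (.one (nat_lit 1053522) .nil))),
   .two (nat_lit 639631368) (nat_lit 158143086601) (.two (nat_lit 1276116996) (nat_lit 28758245446) (.two (nat_lit 34603011) (nat_lit 880804019) (.two (nat_lit 2097153) (nat_lit 3557819141) (.two (nat_lit 2097152) (nat_lit 1051424) (.one (nat_lit 2102099) .nil))))),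
   .two (nat_lit 184993972232) (nat_lit 12617515051) (.two (nat_lit 209715203) (nat_lit 3558867231) (.two (nat_lit 8388609) (nat_lit 158077027030) (.two (nat_lit 1048576) (nat_lit 706743634) .nil))),
   .two (nat_lit 47548727304) (nat_lit 158143086600) (.two (nat_lit 9866051588) (nat_lit 4028629017) (.two (nat_lit 10336862211) (nat_lit 2316304658) (.two (nat_lit 50331649) (nat_lit 2920286363) (.one (nat_lit 159216832327) .nil)))),
   .two (nat_lit 176160776) (nat_lit 184419352612) (.two (nat_lit 8388611) (nat_lit 183949590797) (.two (nat_lit 8388609) (nat_lit 183949591221) (.two (nat_lit 8388608) (nat_lit 4197909) (.one (nat_lit 159224171008) .nil)))),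
   .two (nat_lit 4194312) (nat_lit 285212680) (.two (nat_lit 285212676) (nat_lit 10439622717) (.two (nat_lit 4194306) (nat_lit 156481093929) (.two (nat_lit 4194305) (nat_lit 183946446032) (.two (nat_lit 1048576) (nat_lit 4197910) (.one (nat_lit 4198592) .nil))))),
   .two (nat_lit 50331656) (nat_lit 165532401708) (.two (nat_lit 4605345795) (nat_lit 10351542565) (.two (nat_lit 8388609) (nat_lit 1795163304) (.two (nat_lit 2097152) (nat_lit 16781338) .nil))),
   .two (nat_lit 46414168072) (nat_lit 158144135195) (.two (nat_lit 4605345795) (nat_lit 46508540088) (.two (nat_lit 8388609) (nat_lit 28101838012) (.two (nat_lit 8388608) (nat_lit 19612569511) .nil))),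
   .two (nat_lit 50331656) (nat_lit 166230753299) (.two (nat_lit 2990538758) (nat_lit 1310720025) (.two (nat_lit 9934209027) (nat_lit 2987393372) (.two (nat_lit 4194305) (nat_lit 10437526267) (.two (nat_lit 1048576) (nat_lit 21223179834) (.one (nat_lit 2102100) .nil))))),
   .two (nat_lit 8388616) (nat_lit 159266111500) (.two (nat_lit 9940500484) (nat_lit 9867100208) (.two (nat_lit 620756995) (nat_lit 10947133749) (.two (nat_lit 9768534017) (nat_lit 3021996830) (.two (nat_lit 4194304) (nat_lit 2418018564) (.one (nat_lit 4199253) .nil))))),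
   .two (nat_lit 272629768) (nat_lit 754974740) (.two (nat_lit 2889875460) (nat_lit 11022630966) (.two (nat_lit 11559501827) (nat_lit 13224641217) (.two (nat_lit 16777216) (nat_lit 4198429) .nil))),
   .two (nat_lit 16777224) (nat_lit 343932967) (.two (nat_lit 8388610) (nat_lit 183928619793) (.two (nat_lit 2097152) (nat_lit 8392735) .nil)),
   .two (nat_lit 276824072) (nat_lit 218103988) (.two (nat_lit 34603009) (nat_lit 243270369) (.two (nat_lit 16777216) (nat_lit 47547680304) (.one (nat_lit 16782166) .nil))),
   .two (nat_lit 8388616) (nat_lit 156365750280) (.two (nat_lit 176160772) (nat_lit 706740592) (.two (nat_lit 16777217) (nat_lit 12048139824) (.one (nat_lit 2102103) .nil))),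
   .two (nat_lit 713031688) (nat_lit 12620660746) (.two (nat_lit 1178599428) (nat_lit 2961178671) (.two (nat_lit 13195280387) (nat_lit 174688567621) (.two (nat_lit 37748737) (nat_lit 9940501717) (.two (nat_lit 2097152) (nat_lit 3460303058) (.one (nat_lit 8393560) .nil))))),
   .two (nat_lit 1277165576) (nat_lit 156465365032) (.two (nat_lit 28757196803) (nat_lit 4632609066) (.two (nat_lit 606076929) (nat_lit 183920231987) (.one (nat_lit 2927626773) .nil))),
   .two (nat_lit 10940841992) (nat_lit 2416967751) (.two (nat_lit 158075977731) (nat_lit 174686470323) (.two (nat_lit 605028353) (nat_lit 3021997611) (.one (nat_lit 2102105) .nil))),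
   .two (nat_lit 2902458376) (nat_lit 1212153869) (.two (nat_lit 2902458372) (nat_lit 339738712) (.two (nat_lit 9933160451) (nat_lit 654312620) (.two (nat_lit 1048576) (nat_lit 47563409677) (.one (nat_lit 4199258) .nil)))),
   .two (nat_lit 2902458376) (nat_lit 158143086602) (.two (nat_lit 68157444) (nat_lit 2902458394) (.two (nat_lit 9933160451) (nat_lit 855638346) (.two (nat_lit 4194305) (nat_lit 873464971) (.two (nat_lit 4194304) (nat_lit 16781347) .nil)))),
   .two (nat_lit 183853121544) (nat_lit 156569174059) (.two (nat_lit 809500675) (nat_lit 1182794524) (.two (nat_lit 4194304) (nat_lit 19537070314) (.one (nat_lit 8392130) .nil))),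
   .two (nat_lit 1191182344) (nat_lit 9899606026) (.two (nat_lit 21207449604) (nat_lit 251658558) (.two (nat_lit 605028353) (nat_lit 3472885297) (.one (nat_lit 16782171) .nil))),
   .two (nat_lit 9768534024) (nat_lit 2416967693) (.two (nat_lit 19596836870) (nat_lit 3527409690) (.two (nat_lit 1178599427) (nat_lit 1049088) (.two (nat_lit 16777217) (nat_lit 4195987) (.two (nat_lit 16777216) (nat_lit 10909387551) (.one (nat_lit 4199260) .nil))))),
   .two (nat_lit 10506731528) (nat_lit 721420298) (.two (nat_lit 2889875460) (nat_lit 47596962290) (.two (nat_lit 4194305) (nat_lit 16779809) (.two (nat_lit 2097152) (nat_lit 843057844) (.one (nat_lit 855642819) .nil)))),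
   .two (nat_lit 47548727304) (nat_lit 159257722935) (.two (nat_lit 41943043) (nat_lit 10907287732) (.two (nat_lit 34603009) (nat_lit 157036839655) (.two (nat_lit 1048576) (nat_lit 28798095153) .nil))),
   .two (nat_lit 13191086088) (nat_lit 183946444810) (.two (nat_lit 11543773188) (nat_lit 184419352602) (.two (nat_lit 739246083) (nat_lit 47584379062) (.two (nat_lit 605028353) (nat_lit 9902753429) (.two (nat_lit 1048576) (nat_lit 174755678870) (.one (nat_lit 1053533) .nil))))),
   .two (nat_lit 157036838920) (nat_lit 19599982600) (.two (nat_lit 19599982596) (nat_lit 773849136) (.two (nat_lit 156971827203) (nat_lit 9967763832) (.two (nat_lit 37748737) (nat_lit 102761665) (.two (nat_lit 4194304) (nat_lit 2100002) (.one (nat_lit 2101414) .nil))))),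
   .two (nat_lit 218103816) (nat_lit 28087156799) (.two (nat_lit 11546918915) (nat_lit 9781117745) (.one (nat_lit 251660808) .nil)),
   .two (nat_lit 9934209032) (nat_lit 303038476) (.two (nat_lit 1343225860) (nat_lit 158144135194) (.two (nat_lit 9866051587) (nat_lit 158144135347) (.two (nat_lit 34603009) (nat_lit 304087838) (.two (nat_lit 1048576) (nat_lit 9934211250) (.one (nat_lit 2102110) .nil))))),
   .two (nat_lit 11543773192) (nat_lit 20745027638) (.two (nat_lit 34603011) (nat_lit 13195280563) (.two (nat_lit 612368385) (nat_lit 46977255713) (.one (nat_lit 1053535) .nil))),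
   .two (nat_lit 185002360840) (nat_lit 1376780331) (.two (nat_lit 21777874947) (nat_lit 2921333461) (.two (nat_lit 1048576) (nat_lit 11511270683) .nil)),
   .two (nat_lit 612368392) (nat_lit 28101836846) (.two (nat_lit 285212675) (nat_lit 612368708) (.two (nat_lit 612368385) (nat_lit 156566029520) (.two (nat_lit 16777216) (nat_lit 2987395272) (.one (nat_lit 1053536) .nil)))),
   .two (nat_lit 176160776) (nat_lit 10519314495) (.two (nat_lit 1191182339) (nat_lit 1853883932) (.one (nat_lit 8393569) .nil)),
   .two (nat_lit 8388616) (nat_lit 159266111547) (.two (nat_lit 8388610) (nat_lit 156468511039) (.two (nat_lit 16777217) (nat_lit 20640171568) (.one (nat_lit 8393570) .nil))),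
   .two (nat_lit 1343225864) (nat_lit 174753579018) (.two (nat_lit 50331652) (nat_lit 10906239024) (.two (nat_lit 721420291) (nat_lit 18925748577) (.two (nat_lit 16777217) (nat_lit 9798943932) (.two (nat_lit 16777216) (nat_lit 1052183) (.one (nat_lit 1053539) .nil))))),
   .two (nat_lit 739246088) (nat_lit 142606374) (.two (nat_lit 11543773187) (nat_lit 9873391977) (.two (nat_lit 9781116929) (nat_lit 47581233876) (.two (nat_lit 16777216) (nat_lit 20737691513) .nil))),
   .two (nat_lit 205520904) (nat_lit 183853121545) (.two (nat_lit 4194308) (nat_lit 20644364564) (.two (nat_lit 605028353) (nat_lit 10506732264) (.two (nat_lit 1048576) (nat_lit 8392217) (.one (nat_lit 20737691580) .nil)))),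
   .two (nat_lit 20638072840) (nat_lit 21207449608) (.two (nat_lit 1277165572) (nat_lit 46977253424) (.two (nat_lit 1277165570) (nat_lit 183845781834) (.two (nat_lit 9766436865) (nat_lit 184416209615) (.one (nat_lit 1052882) .nil)))),
   .two (nat_lit 713031688) (nat_lit 117440520) (.two (nat_lit 713031684) (nat_lit 4613734511) (.two (nat_lit 11492392963) (nat_lit 1417675030) (.two (nat_lit 16777217) (nat_lit 157043131106) (.two (nat_lit 1048576) (nat_lit 1283458610) (.one (nat_lit 8393572) .nil))))),
   .two (nat_lit 176160776) (nat_lit 19029557629) (.two (nat_lit 8388609) (nat_lit 13224641216) (.two (nat_lit 2097152) (nat_lit 12155097177) .nil)),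
   .two (nat_lit 8388616) (nat_lit 3458203656) (.two (nat_lit 8388612) (nat_lit 2887778359) (.two (nat_lit 176160771) (nat_lit 9967763932) (.two (nat_lit 156365750273) (nat_lit 1317012659) (.two (nat_lit 2097152) (nat_lit 746588862) (.one (nat_lit 2101459) .nil))))),
   .two (nat_lit 11479810056) (nat_lit 847249418) (.two (nat_lit 813694980) (nat_lit 843055147) (.two (nat_lit 157038936067) (nat_lit 9900655832) (.two (nat_lit 4194304) (nat_lit 35653770) (.one (nat_lit 4199269) .nil)))),
   .two (nat_lit 9866051592) (nat_lit 184419352584) (.two (nat_lit 10369368068) (nat_lit 46409973842) (.two (nat_lit 176160771) (nat_lit 158176641768) (.two (nat_lit 8388608) (nat_lit 4197157) (.one (nat_lit 4198612) .nil)))),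
   .two (nat_lit 10370416648) (nat_lit 645922867) (.two (nat_lit 1277165570) (nat_lit 156976021879) (.two (nat_lit 606076929) (nat_lit 156372044491) (.one (nat_lit 8392917) .nil))),
   .two (nat_lit 2889875464) (nat_lit 1745879048) (.two (nat_lit 705691652) (nat_lit 12117344331) (.two (nat_lit 34603011) (nat_lit 183949590803) (.two (nat_lit 2097153) (nat_lit 28690089073) (.two (nat_lit 2097152) (nat_lit 184416209085) (.one (nat_lit 1053542) .nil))))),
   .two (nat_lit 12054429704) (nat_lit 156968681480) (.two (nat_lit 156968681476) (nat_lit 1962934315) (.two (nat_lit 713031683) (nat_lit 21793603768) (.two (nat_lit 9765388289) (nat_lit 37320917736) (.two (nat_lit 2097152) (nat_lit 2953841391) (.one (nat_lit 1053544) .nil))))),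
   .two (nat_lit 37748744) (nat_lit 1175453751) (.two (nat_lit 69206019) (nat_lit 806355278) (.two (nat_lit 2097153) (nat_lit 1050265) (.two (nat_lit 16777216) (nat_lit 2418018628) (.one (nat_lit 2101464) .nil)))),
   .two (nat_lit 12054429704) (nat_lit 10436476937) (.two (nat_lit 41943044) (nat_lit 21827158514) (.two (nat_lit 41943041) (nat_lit 2886730499) (.two (nat_lit 1048576) (nat_lit 16780071) (.one (nat_lit 1053545) .nil)))),
   .two (nat_lit 276824072) (nat_lit 28693233708) (.two (nat_lit 809500675) (nat_lit 1317011791) (.two (nat_lit 34603009) (nat_lit 19537069601) (.one (nat_lit 8392922) .nil))),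
   .two (nat_lit 11479810056) (nat_lit 11610882103) (.two (nat_lit 9768534019) (nat_lit 873464125) (.two (nat_lit 34603009) (nat_lit 47550825168) (.two (nat_lit 4194304) (nat_lit 158143088861) (.one (nat_lit 8392923) .nil)))),
   .two (nat_lit 205520904) (nat_lit 47548727304) (.two (nat_lit 169869316) (nat_lit 159219974195) (.two (nat_lit 2097155) (nat_lit 1782579575) (.two (nat_lit 2097153) (nat_lit 9899606760) (.two (nat_lit 1048576) (nat_lit 2101307) .nil)))),
   .two (nat_lit 3525312520) (nat_lit 12117344281) (.two (nat_lit 4194306) (nat_lit 1746927801) (.two (nat_lit 4194305) (nat_lit 9766438077) (.two (nat_lit 4194304) (nat_lit 2954889992) (.one (nat_lit 104861646) .nil)))),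
   .two (nat_lit 21207449608) (nat_lit 47582281741) (.two (nat_lit 174752530436) (nat_lit 2418016310) (.two (nat_lit 2954887171) (nat_lit 806355126) (.two (nat_lit 9766436865) (nat_lit 18925749826) (.one (nat_lit 1052892) .nil)))),
   .two (nat_lit 272629768) (nat_lit 46978301961) (.two (nat_lit 46407876612) (nat_lit 3460300863) (.two (nat_lit 50331651) (nat_lit 28089255113) (.two (nat_lit 4194304) (nat_lit 1050958) (.one (nat_lit 4199275) .nil)))),
   .two (nat_lit 285212680) (nat_lit 843055131) (.two (nat_lit 184549378) (nat_lit 9766437048) (.two (nat_lit 16777217) (nat_lit 159253529294) (.two (nat_lit 2097152) (nat_lit 9982445810) (.one (nat_lit 16782188) .nil)))),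
   .two (nat_lit 10336862216) (nat_lit 10506731588) (.two (nat_lit 2097153) (nat_lit 10540287554) (.one (nat_lit 28760346446) .nil)),
   .two (nat_lit 50331656) (nat_lit 20644364313) (.two (nat_lit 612368387) (nat_lit 28806480177) (.two (nat_lit 606076929) (nat_lit 10376709233) (.two (nat_lit 2097152) (nat_lit 16780828) (.one (nat_lit 16782189) .nil)))),
   .two (nat_lit 721420296) (nat_lit 20644364315) (.two (nat_lit 50331651) (nat_lit 2357199146) (.two (nat_lit 8388609) (nat_lit 104859173) (.one (nat_lit 272633636) .nil))),
   .two (nat_lit 37748744) (nat_lit 21214789643) (.two (nat_lit 606076932) (nat_lit 9765388379) (.two (nat_lit 4194306) (nat_lit 9900654775) (.two (nat_lit 8388609) (nat_lit 46473937616) (.two (nat_lit 4194304) (nat_lit 158075980090) (.one (nat_lit 8393582) .nil))))),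
   .two (nat_lit 16777224) (nat_lit 1913651218) (.two (nat_lit 2969567236) (nat_lit 11476664383) (.two (nat_lit 620756995) (nat_lit 34603318) (.two (nat_lit 8388609) (nat_lit 16777916) (.two (nat_lit 8388608) (nat_lit 1052189) (.one (nat_lit 10510929207) .nil))))),
   .two (nat_lit 3527409672) (nat_lit 9772728414) (.two (nat_lit 2889875458) (nat_lit 4027580887) (.two (nat_lit 9768534017) (nat_lit 185027527097) (.two (nat_lit 4194304) (nat_lit 8391468) (.one (nat_lit 8393583) .nil)))),
   .two (nat_lit 169869320) (nat_lit 1761607767) (.two (nat_lit 184549379) (nat_lit 156567077245) (.two (nat_lit 606076929) (nat_lit 4598006532) (.two (nat_lit 16777216) (nat_lit 12114200901) (.one (nat_lit 16782192) .nil)))),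
   .two (nat_lit 809500680) (nat_lit 166245433413) (.two (nat_lit 184549378) (nat_lit 71303490) (.two (nat_lit 612368385) (nat_lit 158091707558) (.two (nat_lit 1048576) (nat_lit 158083319940) (.one (nat_lit 8393585) .nil)))),
   .two (nat_lit 9881780232) (nat_lit 159224168458) (.two (nat_lit 184549380) (nat_lit 159224168485) (.two (nat_lit 176160770) (nat_lit 1291845913) (.two (nat_lit 156372041729) (nat_lit 9915335887) (.two (nat_lit 2097152) (nat_lit 780144724) .nil)))),
   .two (nat_lit 176160776) (nat_lit 2902458376) (.two (nat_lit 2902458372) (nat_lit 11618222260) (.two (nat_lit 16777217) (nat_lit 880804537) (.two (nat_lit 2097152) (nat_lit 159266113755) (.one (nat_lit 16781539) .nil)))),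
   .two (nat_lit 3527409672) (nat_lit 184417255789) (.two (nat_lit 605028353) (nat_lit 174755676907) (.two (nat_lit 1048576) (nat_lit 4197918) (.one (nat_lit 1053554) .nil))),
   .two (nat_lit 169869320) (nat_lit 166132187144) (.two (nat_lit 169869316) (nat_lit 10506731557) (.two (nat_lit 2097155) (nat_lit 46980399387) (.two (nat_lit 156365750273) (nat_lit 184416208005) (.two (nat_lit 1048576) (nat_lit 19128126130) (.one (nat_lit 1053555) .nil))))),
   .two (nat_lit 203423752) (nat_lit 34603062) (.two (nat_lit 2887778306) (nat_lit 46473937403) (.two (nat_lit 9766436865) (nat_lit 10906241293) (.one (nat_lit 2102133) .nil))),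
   .two (nat_lit 1191182344) (nat_lit 2923429914) (.two (nat_lit 4601151491) (nat_lit 19142803780) (.two (nat_lit 4194305) (nat_lit 157051520182) (.two (nat_lit 2097152) (nat_lit 174701154400) .nil))),
   .two (nat_lit 1191182344) (nat_lit 8388651) (.two (nat_lit 11492392962) (nat_lit 158176641495) (.two (nat_lit 50331649) (nat_lit 10906242285) .nil)),
   .two (nat_lit 2887778312) (nat_lit 1795162183) (.two (nat_lit 83886083) (nat_lit 28086108903) (.two (nat_lit 2097152) (nat_lit 16780831) (.one (nat_lit 16782199) .nil))),
   .two (nat_lit 8388616) (nat_lit 157038936072) (.two (nat_lit 8388612) (nat_lit 3024093287) (.two (nat_lit 8388610) (nat_lit 10506731700) (.two (nat_lit 9765388289) (nat_lit 10506732667) (.two (nat_lit 4194304) (nat_lit 34605256) (.one (nat_lit 1053560) .nil))))),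
   .two (nat_lit 8388616) (nat_lit 46980399114) (.two (nat_lit 4605345796) (nat_lit 156468511521) (.two (nat_lit 16777216) (nat_lit 4197165) (.one (nat_lit 8393593) .nil))),
   .two (nat_lit 3028287501) (nat_lit 156468510732) (.two (nat_lit 4194308) (nat_lit 3028287531) (.two (nat_lit 46414168067) (nat_lit 47550825217) (.two (nat_lit 8388608) (nat_lit 1343229290) .nil))),
   .two (nat_lit 11543773192) (nat_lit 18933088297) (.two (nat_lit 605028355) (nat_lit 183853121716) (.two (nat_lit 4194305) (nat_lit 10335814373) (.two (nat_lit 4194304) (nat_lit 37246470453) (.one (nat_lit 8393594) .nil)))),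
   .two (nat_lit 10336862216) (nat_lit 3524263948) (.two (nat_lit 158075977732) (nat_lit 1344274614) (.two (nat_lit 156364701697) (nat_lit 3021997222) (.two (nat_lit 1048576) (nat_lit 2100768) (.one (nat_lit 2101486) .nil)))),
   .two (nat_lit 8388616) (nat_lit 102760476) (.two (nat_lit 176160774) (nat_lit 169869375) (.two (nat_lit 1344274435) (nat_lit 19093520823) (.two (nat_lit 1048576) (nat_lit 20711475700) .nil))),
   .two (nat_lit 205520904) (nat_lit 159251431465) (.two (nat_lit 1343225859) (nat_lit 272630231) (.two (nat_lit 605028353) (nat_lit 156367848617) (.two (nat_lit 1048576) (nat_lit 339740899) (.one (nat_lit 4198640) .nil)))),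
   .two (nat_lit 721420296) (nat_lit 2927624212) (.two (nat_lit 83886084) (nat_lit 3531604058) (.two (nat_lit 721420290) (nat_lit 12054430518) (.two (nat_lit 8388609) (nat_lit 16777913) (.two (nat_lit 8388608) (nat_lit 16780078) (.one (nat_lit 176165672) .nil))))),
   .two (nat_lit 158083317769) (nat_lit 83886100) (.two (nat_lit 889192454) (nat_lit 20644364314) (.two (nat_lit 822083587) (nat_lit 11580473682) (.two (nat_lit 156365750273) (nat_lit 21210596495) (.two (nat_lit 2097152) (nat_lit 1950354093) (.one (nat_lit 8392946) .nil))))),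
   .two (nat_lit 1350565896) (nat_lit 11559501867) (.two (nat_lit 809500675) (nat_lit 158192370012) (.two (nat_lit 41943041) (nat_lit 159219974861) (.two (nat_lit 4194304) (nat_lit 16780080) (.one (nat_lit 4199291) .nil)))),
   .two (nat_lit 1779433480) (nat_lit 19029557257) (.two (nat_lit 28693233668) (nat_lit 166129041471) (.two (nat_lit 638582787) (nat_lit 608174371) (.two (nat_lit 4194305) (nat_lit 19604177614) (.two (nat_lit 16777216) (nat_lit 8390992) (.one (nat_lit 8393596) .nil))))),
   .two (nat_lit 754974728) (nat_lit 1346371630) (.two (nat_lit 11492392962) (nat_lit 9902752540) (.two (nat_lit 1048576) (nat_lit 218107211) .nil)),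
   .two (nat_lit 654311432) (nat_lit 9936306222) (.two (nat_lit 2902458370) (nat_lit 11614028545) (.two (nat_lit 2097152) (nat_lit 21827161450) .nil)),
   .two (nat_lit 37748744) (nat_lit 10443816972) (.two (nat_lit 8388612) (nat_lit 10001317928) (.two (nat_lit 8388610) (nat_lit 37316722873) (.two (nat_lit 8388609) (nat_lit 10538189982) (.two (nat_lit 8388608) (nat_lit 2889878319) (.one (nat_lit 2101494) .nil))))),
   .two (nat_lit 3458203656) (nat_lit 166196150299) (.two (nat_lit 2954887171) (nat_lit 158646403252) (.two (nat_lit 9766436865) (nat_lit 37246470356) (.one (nat_lit 1053565) .nil))),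
   .two (nat_lit 10506731528) (nat_lit 4599054394) (.two (nat_lit 2097155) (nat_lit 10343153844) (.two (nat_lit 2097153) (nat_lit 156364702414) (.two (nat_lit 2097152) (nat_lit 1051441) (.one (nat_lit 1053566) .nil)))),
   .two (nat_lit 612368392) (nat_lit 236978219) (.two (nat_lit 176160770) (nat_lit 47582282015) (.two (nat_lit 2097153) (nat_lit 158649549561) (.two (nat_lit 8388608) (nat_lit 11007953712) (.one (nat_lit 2102143) .nil)))),
   .two (nat_lit 4194312) (nat_lit 13195280429) (.two (nat_lit 171966467) (nat_lit 10336862589) (.two (nat_lit 37748737) (nat_lit 21812478695) (.two (nat_lit 1048576) (nat_lit 8391474) (.one (nat_lit 8393600) .nil)))),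
   .two (nat_lit 205520904) (nat_lit 12054429705) (.two (nat_lit 4605345796) (nat_lit 1279262782) (.two (nat_lit 41943043) (nat_lit 174752530612) (.two (nat_lit 9768534017) (nat_lit 8390298) (.two (nat_lit 1048576) (nat_lit 8391475) (.one (nat_lit 1053569) .nil))))),
   .two (nat_lit 9781116936) (nat_lit 156367847432) (.two (nat_lit 156367847428) (nat_lit 183962173478) (.two (nat_lit 46409973762) (nat_lit 19142803780) (.two (nat_lit 4194305) (nat_lit 117442750) (.one (nat_lit 16781562) .nil)))),
   .two (nat_lit 10343153672) (nat_lit 1847590957) (.two (nat_lit 34603011) (nat_lit 1753219511) (.two (nat_lit 1048576) (nat_lit 310380727) (.one (nat_lit 606081846) .nil))),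
   .two (nat_lit 8388616) (nat_lit 11007950866) (.two (nat_lit 28691136516) (nat_lit 1276117071) (.two (nat_lit 1779433475) (nat_lit 874512750) (.two (nat_lit 2097153) (nat_lit 19100861595) (.two (nat_lit 1048576) (nat_lit 2101342) .nil)))),
   .two (nat_lit 739246088) (nat_lit 270532636) (.two (nat_lit 276824068) (nat_lit 183913938990) (.two (nat_lit 8388610) (nat_lit 10907287891) (.two (nat_lit 8388609) (nat_lit 2350908116) (.two (nat_lit 4194304) (nat_lit 174685425898) .nil)))),
   .two (nat_lit 654311432) (nat_lit 1948254294) (.two (nat_lit 16777218) (nat_lit 183953785630) (.two (nat_lit 2097152) (nat_lit 3565160648) (.one (nat_lit 8393603) .nil))),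
   .two (nat_lit 10385096712) (nat_lit 35651646) (.two (nat_lit 2097155) (nat_lit 166245433668) (.two (nat_lit 2097153) (nat_lit 37749906) (.two (nat_lit 1048576) (nat_lit 2100022) (.one (nat_lit 2102148) .nil)))),
   .two (nat_lit 101711880) (nat_lit 822083604) (.two (nat_lit 183962173446) (nat_lit 1309671471) (.two (nat_lit 11492392963) (nat_lit 10537140541) (.two (nat_lit 16777217) (nat_lit 1343227515) (.two (nat_lit 8388608) (nat_lit 16780834) (.one (nat_lit 16782213) .nil))))),
   .two (nat_lit 4194312) (nat_lit 166130089992) (.two (nat_lit 11543773188) (nat_lit 183848927295) (.two (nat_lit 705691650) (nat_lit 21778923889) (.two (nat_lit 156365750273) (nat_lit 34604215) (.two (nat_lit 1048576) (nat_lit 2100771) (.one (nat_lit 1052928) .nil))))),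
   .two (nat_lit 47555018760) (nat_lit 46473936993) (.two (nat_lit 2889875458) (nat_lit 2920284635) (.two (nat_lit 2097153) (nat_lit 18925748937) (.two (nat_lit 2097152) (nat_lit 1212157741) .nil))),
   .two (nat_lit 12147752970) (nat_lit 184993972244) (.two (nat_lit 9906946054) (nat_lit 47547678766) (.two (nat_lit 806354947) (nat_lit 2323644764) (.two (nat_lit 8388609) (nat_lit 2097921) (.two (nat_lit 1048576) (nat_lit 2921335016) (.one (nat_lit 1053574) .nil))))),
   .two (nat_lit 156367847432) (nat_lit 3558867000) (.two (nat_lit 34603011) (nat_lit 19532873907) (.two (nat_lit 2097153) (nat_lit 19532874422) (.two (nat_lit 1048576) (nat_lit 4196690) (.one (nat_lit 4199303) .nil)))),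
   .two (nat_lit 9866051592) (nat_lit 28693233672) (.two (nat_lit 166132187140) (nat_lit 19093520456) (.two (nat_lit 1916796931) (nat_lit 28790751411) (.two (nat_lit 156367847425) (nat_lit 166229705889) (.two (nat_lit 1048576) (nat_lit 10540288708) (.one (nat_lit 1052517) .nil))))),
   .two (nat_lit 4194312) (nat_lit 83886088) (.two (nat_lit 83886084) (nat_lit 68157476) (.two (nat_lit 620756995) (nat_lit 28793897295) (.two (nat_lit 50331649) (nat_lit 2420115645) (.one (nat_lit 1053576) .nil)))),
   .two (nat_lit 285212680) (nat_lit 20644364296) (.two (nat_lit 50331652) (nat_lit 1317011482) (.two (nat_lit 159224168451) (nat_lit 218104093) (.two (nat_lit 2097153) (nat_lit 159224170756) (.one (nat_lit 8392808) .nil)))),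
   .two (nat_lit 9948889096) (nat_lit 9866051592) (.two (nat_lit 83886084) (nat_lit 47547678813) (.two (nat_lit 721420291) (nat_lit 839909683) (.two (nat_lit 8388609) (nat_lit 1913651943) (.two (nat_lit 8388608) (nat_lit 11476666635) (.one (nat_lit 16782217) .nil))))),
   .two (nat_lit 1277165576) (nat_lit 2923429898) (.two (nat_lit 10370416644) (nat_lit 306184233) (.two (nat_lit 3527409667) (nat_lit 18926797533) (.two (nat_lit 2097152) (nat_lit 809504580) .nil))),
   .two (nat_lit 159224168456) (nat_lit 1847590920) (.two (nat_lit 1847590916) (nat_lit 2994733094) (.two (nat_lit 28758245379) (nat_lit 156976021814) (.two (nat_lit 9766436865) (nat_lit 183953787404) .nil))),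
   .two (nat_lit 21811429386) (nat_lit 12117344276) (.two (nat_lit 21777874948) (nat_lit 13224640602) (.two (nat_lit 34603011) (nat_lit 37249614172) (.two (nat_lit 41943041) (nat_lit 21207452327) (.one (nat_lit 1053578) .nil)))),
   .two (nat_lit 41943048) (nat_lit 184986632202) (.two (nat_lit 705691652) (nat_lit 880803877) (.two (nat_lit 75497475) (nat_lit 740294949) (.two (nat_lit 2097153) (nat_lit 156976022265) (.two (nat_lit 1048576) (nat_lit 706742410) (.one (nat_lit 1052930) .nil))))),
   .two (nat_lit 272629768) (nat_lit 183845781512) (.two (nat_lit 68157444) (nat_lit 2097206) (.two (nat_lit 605028355) (nat_lit 183913939451) (.two (nat_lit 156364701697) (nat_lit 19532874953) (.two (nat_lit 4194304) (nat_lit 1051449) (.one (nat_lit 4199307) .nil))))),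
   .two (nat_lit 4601151496) (nat_lit 270532688) (.two (nat_lit 705691650) (nat_lit 3525312885) (.two (nat_lit 4194305) (nat_lit 304088299) (.two (nat_lit 1048576) (nat_lit 1279265478) (.one (nat_lit 1053580) .nil)))),
   .two (nat_lit 9768534024) (nat_lit 10519314539) (.two (nat_lit 654311427) (nat_lit 10338960085) (.two (nat_lit 16777216) (nat_lit 9866054340) (.one (nat_lit 1052931) .nil))),
   .two (nat_lit 8388616) (nat_lit 10942939144) (.two (nat_lit 10385096708) (nat_lit 612368422) (.two (nat_lit 654311427) (nat_lit 176161092) (.two (nat_lit 620756993) (nat_lit 184993974479) (.one (nat_lit 20640174087) .nil)))),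
   .two (nat_lit 2887778312) (nat_lit 11492392973) (.two (nat_lit 11476664324) (nat_lit 185002360890) (.two (nat_lit 721420291) (nat_lit 28086108903) (.two (nat_lit 2097152) (nat_lit 16780090) (.one (nat_lit 2102157) .nil)))),
   .two (nat_lit 1417674765) (nat_lit 1209008191) (.two (nat_lit 13187940355) (nat_lit 10007609631) (.two (nat_lit 612368385) (nat_lit 1049836) (.two (nat_lit 2097152) (nat_lit 8391484) (.one (nat_lit 8393615) .nil)))),
   .two (nat_lit 11543773192) (nat_lit 706740272) (.two (nat_lit 739246083) (nat_lit 2418016564) (.two (nat_lit 605028353) (nat_lit 12115247859) (.two (nat_lit 1048576) (nat_lit 2100029) (.one (nat_lit 639635498) .nil)))),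
   .two (nat_lit 8388616) (nat_lit 1745879061) (.two (nat_lit 9866051588) (nat_lit 13195280427) (.two (nat_lit 13195280387) (nat_lit 37246468593) (.two (nat_lit 41943041) (nat_lit 183845782224) (.two (nat_lit 1048576) (nat_lit 243271932) (.one (nat_lit 8392965) .nil))))),
   .two (nat_lit 4605345800) (nat_lit 1310720027) (.two (nat_lit 8388610) (nat_lit 10907287732) (.two (nat_lit 8388609) (nat_lit 673186489) (.two (nat_lit 4194304) (nat_lit 10376712203) .nil))),
   .two (nat_lit 18928893960) (nat_lit 19530776584) (.two (nat_lit 165526110212) (nat_lit 157038936091) (.two (nat_lit 11546918915) (nat_lit 16777396) (.two (nat_lit 606076929) (nat_lit 11479811185) (.two (nat_lit 16777216) (nat_lit 11007954722) .nil)))),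
   .two (nat_lit 739246088) (nat_lit 37262196840) (.two (nat_lit 16777219) (nat_lit 37314626000) (.two (nat_lit 620756993) (nat_lit 270533781) (.two (nat_lit 2097152) (nat_lit 1052197) (.one (nat_lit 1053585) .nil)))),
   .two (nat_lit 2889875464) (nat_lit 813695039) (.two (nat_lit 272629763) (nat_lit 612368732) (.two (nat_lit 4194305) (nat_lit 183920231122) (.two (nat_lit 1048576) (nat_lit 156971829507) (.one (nat_lit 8392968) .nil)))),
   .two (nat_lit 9934209032) (nat_lit 2923429898) (.two (nat_lit 9934209028) (nat_lit 9982443611) (.two (nat_lit 9948889091) (nat_lit 21210595510) (.two (nat_lit 2097153) (nat_lit 12150900282) (.one (nat_lit 37752230) .nil)))),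
   .two (nat_lit 10007609357) (nat_lit 606076991) (.two (nat_lit 2097155) (nat_lit 1417675191) (.two (nat_lit 1048576) (nat_lit 3531606516) .nil)),
   .two (nat_lit 11559501832) (nat_lit 1786773550) (.two (nat_lit 50331651) (nat_lit 3565159169) (.two (nat_lit 1048576) (nat_lit 1216350872) (.one (nat_lit 16781578) .nil))),
   .two (nat_lit 1745879048) (nat_lit 9934209036) (.two (nat_lit 156969730052) (nat_lit 37313577003) (.two (nat_lit 1779433475) (nat_lit 174701150935) (.two (nat_lit 1048576) (nat_lit 16780838) (.one (nat_lit 1053586) .nil)))),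
   .two (nat_lit 2889875464) (nat_lit 4028629019) (.two (nat_lit 2889875458) (nat_lit 3558867123) (.two (nat_lit 9766436865) (nat_lit 3024094382) (.two (nat_lit 2097152) (nat_lit 4197182) (.one (nat_lit 2101516) .nil)))),
   .two (nat_lit 620757000) (nat_lit 1947205741) (.two (nat_lit 9933160451) (nat_lit 721420562) (.two (nat_lit 4194305) (nat_lit 168821456) (.two (nat_lit 1048576) (nat_lit 46414171644) (.one (nat_lit 16782227) .nil)))),
   .two (nat_lit 203423752) (nat_lit 28772925503) (.two (nat_lit 654311427) (nat_lit 46474985911) (.two (nat_lit 4194304) (nat_lit 11578377757) (.one (nat_lit 2101517) .nil))),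
   .two (nat_lit 46407876616) (nat_lit 9869197324) (.two (nat_lit 1276116996) (nat_lit 10370416830) (.two (nat_lit 2889875459) (nat_lit 12148801886) (.two (nat_lit 606076929) (nat_lit 28690089152) (.two (nat_lit 2097152) (nat_lit 4197183) (.one (nat_lit 4198672) .nil))))),
   .two (nat_lit 46474985482) (nat_lit 3464495124) (.two (nat_lit 2994733062) (nat_lit 46407876671) (.two (nat_lit 270532611) (nat_lit 1317011804) (.two (nat_lit 50331649) (nat_lit 12047090838) (.two (nat_lit 16777216) (nat_lit 1051456) (.one (nat_lit 1053588) .nil))))),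
   .two (nat_lit 276824072) (nat_lit 1310720040) (.two (nat_lit 8388610) (nat_lit 12618563875) (.two (nat_lit 8388609) (nat_lit 1310720700) (.two (nat_lit 1048576) (nat_lit 2100033) (.one (nat_lit 8392977) .nil)))),
   .two (nat_lit 28086108168) (nat_lit 1786773601) (.two (nat_lit 101711875) (nat_lit 46523220437) (.two (nat_lit 8388609) (nat_lit 183928619721) (.two (nat_lit 1048576) (nat_lit 2969569554) (.one (nat_lit 8393621) .nil)))),
   .two (nat_lit 754974728) (nat_lit 165525061695) (.two (nat_lit 159216828419) (nat_lit 1191182775) (.two (nat_lit 1048576) (nat_lit 9781117745) (.one (nat_lit 16779798) .nil))),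
   .two (nat_lit 117440520) (nat_lit 9873391644) (.two (nat_lit 156969730052) (nat_lit 12624855088) (.two (nat_lit 9934209027) (nat_lit 109052345) (.two (nat_lit 1048576) (nat_lit 8390998) (.one (nat_lit 16782230) .nil)))),
   .two (nat_lit 41943048) (nat_lit 18925748232) (.two (nat_lit 4613734404) (nat_lit 1417674790) (.two (nat_lit 16777218) (nat_lit 4034920758) (.two (nat_lit 16777217) (nat_lit 21777875669) (.two (nat_lit 16777216) (nat_lit 1050967) (.one (nat_lit 8393623) .nil))))),
   .two (nat_lit 183848927240) (nat_lit 19093520427) (.two (nat_lit 13191086083) (nat_lit 1049091) (.two (nat_lit 37748737) (nat_lit 174685423748) (.one (nat_lit 1053592) .nil))),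
   .two (nat_lit 9781116936) (nat_lit 19532873736) (.two (nat_lit 28693233668) (nat_lit 2902458410) (.two (nat_lit 1916796931) (nat_lit 1291846799) (.two (nat_lit 4194304) (nat_lit 251660973) (.one (nat_lit 16782233) .nil)))),
   .two (nat_lit 20644364296) (nat_lit 1847590920) (.two (nat_lit 1847590916) (nat_lit 20644364314) (.two (nat_lit 2954887171) (nat_lit 2894069942) (.two (nat_lit 2097153) (nat_lit 813695714) (.two (nat_lit 2097152) (nat_lit 8391000) (.one (nat_lit 8393626) .nil))))),
   .two (nat_lit 21214789640) (nat_lit 3021996050) (.two (nat_lit 183845781508) (nat_lit 9768534053) (.two (nat_lit 1277165571) (nat_lit 11513364962) (.two (nat_lit 156372041729) (nat_lit 3524264662) (.two (nat_lit 8388608) (nat_lit 2100037) (.one (nat_lit 2102171) .nil))))),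
   .two (nat_lit 47555018760) (nat_lit 1175453744) (.two (nat_lit 176160770) (nat_lit 12047089988) (.two (nat_lit 620756993) (nat_lit 19529729144) (.two (nat_lit 8388608) (nat_lit 1051462) (.one (nat_lit 12047093952) .nil)))),
   .two (nat_lit 4601151496) (nat_lit 12147752970) (.two (nat_lit 12114198532) (nat_lit 4634705958) (.two (nat_lit 11479810050) (nat_lit 1376780728) (.two (nat_lit 4194304) (nat_lit 47581234748) (.one (nat_lit 4199324) .nil)))),
   .two (nat_lit 158075977736) (nat_lit 19027460121) (.two (nat_lit 1343225859) (nat_lit 11007951181) (.two (nat_lit 605028353) (nat_lit 46978303097) (.two (nat_lit 1048576) (nat_lit 2418018584) (.one (nat_lit 2102173) .nil)))),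
   .two (nat_lit 4605345800) (nat_lit 46978302037) (.two (nat_lit 46407876610) (nat_lit 1216348483) (.two (nat_lit 41943041) (nat_lit 2099749) (.two (nat_lit 1048576) (nat_lit 2100775) (.one (nat_lit 2102174) .nil)))),
   .two (nat_lit 19027460110) (nat_lit 4601151509) (.two (nat_lit 46409973764) (nat_lit 1847590955) (.two (nat_lit 3527409667) (nat_lit 46407877334) (.two (nat_lit 4194304) (nat_lit 807407464) .nil))),
   .two (nat_lit 176160776) (nat_lit 168820748) (.two (nat_lit 9768534020) (nat_lit 159216828476) (.two (nat_lit 11479810051) (nat_lit 174752530737) (.two (nat_lit 4194305) (nat_lit 1846544026) (.two (nat_lit 4194304) (nat_lit 1052200) (.one (nat_lit 8393631) .nil))))),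
   .two (nat_lit 83886088) (nat_lit 28690087944) (.two (nat_lit 11559501828) (nat_lit 10436476970) (.two (nat_lit 1913651203) (nat_lit 2969567507) (.two (nat_lit 9765388289) (nat_lit 2969568790) (.one (nat_lit 11543777060) .nil)))),
   .two (nat_lit 2954887176) (nat_lit 10506731528) (.two (nat_lit 2954887172) (nat_lit 3024093250) (.two (nat_lit 203423747) (nat_lit 165528207655) (.two (nat_lit 2097153) (nat_lit 183848927956) (.two (nat_lit 8388608) (nat_lit 4197193) (.one (nat_lit 4199328) .nil))))),
   .two (nat_lit 218103816) (nat_lit 10336862228) (.two (nat_lit 11559501828) (nat_lit 184416206904) (.two (nat_lit 4599054339) (nat_lit 2969567927) (.two (nat_lit 1048576) (nat_lit 16780106) (.one (nat_lit 16782241) .nil)))),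
   .two (nat_lit 620757000) (nat_lit 166230753356) (.two (nat_lit 184549378) (nat_lit 20738736832) (.two (nat_lit 16777216) (nat_lit 2099548) (.one (nat_lit 157051522363) .nil))),
   .two (nat_lit 184986632200) (nat_lit 880803853) (.two (nat_lit 21777874948) (nat_lit 1384120376) (.two (nat_lit 41943043) (nat_lit 18925748554) (.two (nat_lit 41943041) (nat_lit 10503586511) (.two (nat_lit 8388608) (nat_lit 156532476095) (.one (nat_lit 1053602) .nil))))),
   .two (nat_lit 8388616) (nat_lit 10940841998) (.two (nat_lit 9940500484) (nat_lit 9934209076) (.two (nat_lit 612368387) (nat_lit 706740732) (.two (nat_lit 9768534017) (nat_lit 10510928707) (.one (nat_lit 2102179) .nil)))),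
   .two (nat_lit 183848927240) (nat_lit 156465365030) (.two (nat_lit 183848927234) (nat_lit 19596838115) (.two (nat_lit 4194304) (nat_lit 1051468) (.one (nat_lit 1053604) .nil))),
   .two (nat_lit 9781116936) (nat_lit 1417674762) (.two (nat_lit 184993972228) (nat_lit 218103834) (.two (nat_lit 713031682) (nat_lit 9915335397) (.two (nat_lit 16777216) (nat_lit 184993974540) (.one (nat_lit 8393637) .nil)))),
   .two (nat_lit 809500680) (nat_lit 687865910) (.two (nat_lit 4194306) (nat_lit 10437525828) (.two (nat_lit 4194305) (nat_lit 21208498879) (.two (nat_lit 16777216) (nat_lit 18926798385) (.one (nat_lit 2101538) .nil)))),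
   .two (nat_lit 41943048) (nat_lit 1312817256) (.two (nat_lit 8388610) (nat_lit 843055389) (.two (nat_lit 9765388289) (nat_lit 28697428711) (.two (nat_lit 1048576) (nat_lit 8391501) (.one (nat_lit 8392995) .nil)))),
   .two (nat_lit 12047089672) (nat_lit 3028287498) (.two (nat_lit 9940500484) (nat_lit 772800952) (.two (nat_lit 4194304) (nat_lit 772802070) (.one (nat_lit 1053606) .nil))),
   .two (nat_lit 654311432) (nat_lit 3525312520) (.two (nat_lit 9766436868) (nat_lit 1191183040) (.two (nat_lit 2097152) (nat_lit 10519316809) (.one (nat_lit 16782247) .nil))),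
   .two (nat_lit 2889875464) (nat_lit 19027460134) (.two (nat_lit 272629763) (nat_lit 183947493669) (.two (nat_lit 4194305) (nat_lit 136317162) (.one (nat_lit 1847595031) .nil))),
   .two (nat_lit 183848927240) (nat_lit 10343153684) (.two (nat_lit 10913579014) (nat_lit 11513364520) (.two (nat_lit 47555018755) (nat_lit 184419353015) (.two (nat_lit 8388608) (nat_lit 641731091) .nil))),
   .two (nat_lit 158083317768) (nat_lit 19596836891) (.two (nat_lit 1913651203) (nat_lit 166136381832) (.two (nat_lit 156364701697) (nat_lit 780141689) (.two (nat_lit 2097152) (nat_lit 1050976) (.one (nat_lit 1052968) .nil)))),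
   .two (nat_lit 272629768) (nat_lit 4028629018) (.two (nat_lit 4194306) (nat_lit 11544821943) (.two (nat_lit 4194305) (nat_lit 174753580262) (.two (nat_lit 1048576) (nat_lit 9902753958) (.one (nat_lit 4198697) .nil)))),
   .two (nat_lit 754974728) (nat_lit 3527409703) (.two (nat_lit 11559501827) (nat_lit 156535619908) (.two (nat_lit 50331649) (nat_lit 10909386949) (.one (nat_lit 4199336) .nil))),
   .two (nat_lit 28693233672) (nat_lit 37247516725) (.two (nat_lit 10506731523) (nat_lit 21208498356) (.two (nat_lit 9766436865) (nat_lit 708838593) (.two (nat_lit 2097152) (nat_lit 174755680387) .nil))),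
   .two (nat_lit 8388616) (nat_lit 183848927240) (.two (nat_lit 8388612) (nat_lit 158079123832) (.two (nat_lit 620756993) (nat_lit 4599055062) (.two (nat_lit 16777216) (nat_lit 4028633274) .nil))),
   .two (nat_lit 37748744) (nat_lit 9881780234) (.two (nat_lit 606076932) (nat_lit 10921967720) (.two (nat_lit 822083587) (nat_lit 1279263054) (.two (nat_lit 37748737) (nat_lit 2098390) (.two (nat_lit 16777216) (nat_lit 2100777) (.one (nat_lit 2101549) .nil))))),
   .two (nat_lit 809500680) (nat_lit 183853121562) (.two (nat_lit 4194306) (nat_lit 183853121715) (.two (nat_lit 4194305) (nat_lit 20745028382) (.two (nat_lit 4194304) (nat_lit 8391009) (.one (nat_lit 8393641) .nil)))),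
   .two (nat_lit 620757000) (nat_lit 28691136522) (.two (nat_lit 2969567236) (nat_lit 1847590950) (.two (nat_lit 639631363) (nat_lit 721420989) (.two (nat_lit 1048576) (nat_lit 2099983) (.one (nat_lit 2102186) .nil)))),
   .two (nat_lit 165526110216) (nat_lit 1309671483) (.two (nat_lit 158143086595) (nat_lit 4632608953) (.two (nat_lit 16777217) (nat_lit 47582282925) (.two (nat_lit 1048576) (nat_lit 304089935) (.one (nat_lit 1053611) .nil)))),
   .two (nat_lit 41943048) (nat_lit 3527409672) (.two (nat_lit 813694980) (nat_lit 46510637098) (.two (nat_lit 10504634371) (nat_lit 18928894416) (.two (nat_lit 4194305) (nat_lit 19033752261) (.two (nat_lit 2097152) (nat_lit 339740199) (.one (nat_lit 4199340) .nil))))),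
   .two (nat_lit 203423752) (nat_lit 11559501895) (.two (nat_lit 16777219) (nat_lit 10538188979) (.two (nat_lit 16777217) (nat_lit 158077027547) (.two (nat_lit 16777216) (nat_lit 2099555) (.one (nat_lit 2102189) .nil)))),
   .two (nat_lit 10940841992) (nat_lit 184549386) (.two (nat_lit 10940841988) (nat_lit 16777408) (.two (nat_lit 174753579011) (nat_lit 156581757252) (.two (nat_lit 9766436865) (nat_lit 9948891326) (.one (nat_lit 16782254) .nil)))),
   .two (nat_lit 612368392) (nat_lit 4028629002) (.two (nat_lit 3458203652) (nat_lit 47555019570) (.one (nat_lit 8393647) .nil)),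
   .two (nat_lit 176160776) (nat_lit 19109249131) (.two (nat_lit 285212675) (nat_lit 343933746) (.one (nat_lit 343935473) .nil)),
   .two (nat_lit 1277165576) (nat_lit 855638026) (.two (nat_lit 822083588) (nat_lit 2954887192) (.two (nat_lit 16777218) (nat_lit 10538188868) (.two (nat_lit 16777217) (nat_lit 9900655307) (.two (nat_lit 16777216) (nat_lit 2100049) (.one (nat_lit 2102192) .nil))))),
   .two (nat_lit 21208498184) (nat_lit 184549386) (.two (nat_lit 2969567236) (nat_lit 1310720040) (.two (nat_lit 159217876995) (nat_lit 20753416511) (.two (nat_lit 156372041729) (nat_lit 157036840487) (.one (nat_lit 2101555) .nil)))),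
   .two (nat_lit 19027460109) (nat_lit 10906239005) (.two (nat_lit 19093520390) (nat_lit 203423800) (.two (nat_lit 28757196803) (nat_lit 2350907894) (.two (nat_lit 16777217) (nat_lit 9765389495) (.two (nat_lit 16777216) (nat_lit 2100036) (.one (nat_lit 1052981) .nil))))),
   .two (nat_lit 8388616) (nat_lit 1745879048) (.two (nat_lit 612368388) (nat_lit 3457155425) (.two (nat_lit 16777217) (nat_lit 873465383) (.one (nat_lit 8393649) .nil))),
   .two (nat_lit 813694984) (nat_lit 11492393031) (.two (nat_lit 1358954499) (nat_lit 166136382650) (.two (nat_lit 16777216) (nat_lit 183853125793) .nil)),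
   .two (nat_lit 11492392968) (nat_lit 11543773192) (.two (nat_lit 11543773188) (nat_lit 3003122378) (.two (nat_lit 1048576) (nat_lit 20753419584) .nil)),
   .two (nat_lit 9881780232) (nat_lit 236978217) (.two (nat_lit 117440515) (nat_lit 158144135930) (.two (nat_lit 16777216) (nat_lit 46978304316) (.one (nat_lit 2101560) .nil))),
   .two (nat_lit 218103816) (nat_lit 10940842055) (.two (nat_lit 10370416643) (nat_lit 2902458547) (.two (nat_lit 2097153) (nat_lit 10452207774) (.one (nat_lit 13203672913) .nil))),
   .two (nat_lit 169869320) (nat_lit 183920230412) (.two (nat_lit 9934209028) (nat_lit 28086108217) (.two (nat_lit 1277165571) (nat_lit 4598006128) (.two (nat_lit 156372041729) (nat_lit 1377830437) (.one (nat_lit 2102195) .nil)))),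
   .two (nat_lit 184549384) (nat_lit 21208498184) (.two (nat_lit 21208498180) (nat_lit 158662132004) (.two (nat_lit 8388609) (nat_lit 2887779888) (.one (nat_lit 2102196) .nil))),
   .two (nat_lit 37748744) (nat_lit 3028287508) (.two (nat_lit 11476664324) (nat_lit 20644364341) (.two (nat_lit 8388611) (nat_lit 1849688246) (.two (nat_lit 2097153) (nat_lit 1846543997) (.two (nat_lit 2097152) (nat_lit 9869199584) (.one (nat_lit 2102197) .nil))))),
   .two (nat_lit 157038936072) (nat_lit 19529728065) (.two (nat_lit 183848927235) (nat_lit 47581233494) (.two (nat_lit 9765388289) (nat_lit 47584381630) (.one (nat_lit 4198724) .nil))),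
   .two (nat_lit 639631368) (nat_lit 3003121848) (.two (nat_lit 2097153) (nat_lit 10376708814) (.two (nat_lit 2097152) (nat_lit 8391511) (.one (nat_lit 16782262) .nil))),
   .two (nat_lit 1291845640) (nat_lit 10940842029) (.two (nat_lit 47548727299) (nat_lit 19612567084) (.one (nat_lit 1325402632) .nil)),
   .two (nat_lit 1916796936) (nat_lit 185020186644) (.two (nat_lit 10506731524) (nat_lit 12618563681) (.two (nat_lit 203423747) (nat_lit 11614028076) (.two (nat_lit 2097153) (nat_lit 174755676921) (.two (nat_lit 2097152) (nat_lit 4197208) (.one (nat_lit 2102199) .nil))))),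
   .two (nat_lit 135266314) (nat_lit 1178599444) (.two (nat_lit 1846542340) (nat_lit 184419352619) (.two (nat_lit 184416206851) (nat_lit 183949590815) (.two (nat_lit 9765388289) (nat_lit 239076054) (.two (nat_lit 4194304) (nat_lit 1052202) (.one (nat_lit 4199352) .nil))))),
   .two (nat_lit 203423752) (nat_lit 165532401677) (.two (nat_lit 203423748) (nat_lit 158083317831) (.two (nat_lit 47555018755) (nat_lit 28691136693) (.two (nat_lit 4194305) (nat_lit 4034922699) (.one (nat_lit 8393033) .nil)))),
   .two (nat_lit 12114198536) (nat_lit 1847590920) (.two (nat_lit 739246084) (nat_lit 102760505) (.two (nat_lit 11543773187) (nat_lit 11611930807) (.two (nat_lit 50331649) (nat_lit 28086109363) (.two (nat_lit 16777216) (nat_lit 46406830359) (.one (nat_lit 1053625) .nil))))),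
   .two (nat_lit 176160776) (nat_lit 2316304394) (.two (nat_lit 1779433476) (nat_lit 612368465) (.two (nat_lit 21785214979) (nat_lit 12147753666) (.two (nat_lit 8388608) (nat_lit 184986634404) (.one (nat_lit 8393658) .nil)))),
   .two (nat_lit 156367847432) (nat_lit 13188988990) (.two (nat_lit 46978301955) (nat_lit 708838119) (.two (nat_lit 2097152) (nat_lit 1962936651) (.one (nat_lit 16781646) .nil))),
   .two (nat_lit 1343225864) (nat_lit 1916796936) (.two (nat_lit 18925748228) (nat_lit 156569174084) (.two (nat_lit 16777217) (nat_lit 772802111) (.one (nat_lit 4199355) .nil))),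
   .two (nat_lit 16777224) (nat_lit 159224168491) (.two (nat_lit 159224168451) (nat_lit 19109249738) (.two (nat_lit 8388608) (nat_lit 9881782542) (.one (nat_lit 21818774674) .nil))),
   .two (nat_lit 276824072) (nat_lit 1795162183) (.two (nat_lit 83886083) (nat_lit 156372041908) (.two (nat_lit 34603009) (nat_lit 156372043408) (.two (nat_lit 8388608) (nat_lit 16780831) (.one (nat_lit 16782268) .nil)))),
   .two (nat_lit 11543773192) (nat_lit 1310720009) (.two (nat_lit 11543773188) (nat_lit 2323644605) (.two (nat_lit 159224168451) (nat_lit 159251431692) (.two (nat_lit 612368385) (nat_lit 101713039) (.two (nat_lit 8388608) (nat_lit 1050987) (.one (nat_lit 1053629) .nil))))),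
   .two (nat_lit 20644364298) (nat_lit 11007950868) (.two (nat_lit 158083317764) (nat_lit 10907287642) (.two (nat_lit 3525312515) (nat_lit 174692762369) (.two (nat_lit 2097152) (nat_lit 21214791810) (.one (nat_lit 28806483313) .nil)))),
   .two (nat_lit 9934209032) (nat_lit 28690088021) (.two (nat_lit 1277165571) (nat_lit 158143086911) (.two (nat_lit 8388609) (nat_lit 185021237442) (.one (nat_lit 2102206) .nil))),
   .two (nat_lit 9768534024) (nat_lit 1377828875) (.two (nat_lit 2889875460) (nat_lit 166230753321) (.two (nat_lit 2889875458) (nat_lit 21778923705) (.two (nat_lit 9768534017) (nat_lit 28087157444) (.two (nat_lit 4194304) (nat_lit 2100060) (.one (nat_lit 2102207) .nil))))),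
   .two (nat_lit 37748744) (nat_lit 13195280428) (.two (nat_lit 4194306) (nat_lit 11611930931) (.two (nat_lit 4194305) (nat_lit 159257725711) (.one (nat_lit 8393664) .nil))),
   .two (nat_lit 11492392968) (nat_lit 11610882159) (.two (nat_lit 117440515) (nat_lit 705692153) (.two (nat_lit 34603009) (nat_lit 9948890303) (.two (nat_lit 16777216) (nat_lit 1051485) (.one (nat_lit 2102209) .nil)))),
   .two (nat_lit 83886088) (nat_lit 142606357) (.two (nat_lit 654311428) (nat_lit 11513364519) (.two (nat_lit 184549379) (nat_lit 10510926124) (.two (nat_lit 37748737) (nat_lit 18933089000) (.two (nat_lit 8388608) (nat_lit 12163485209) (.one (nat_lit 10544485072) .nil))))),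
   .two (nat_lit 169869320) (nat_lit 11517558810) (.two (nat_lit 705691650) (nat_lit 10907287937) (.two (nat_lit 34603009) (nat_lit 158083319445) (.two (nat_lit 1048576) (nat_lit 156372044036) (.one (nat_lit 8393667) .nil)))),
   .two (nat_lit 46474985482) (nat_lit 1350565910) (.two (nat_lit 169869316) (nat_lit 166237044840) (.two (nat_lit 158083317763) (nat_lit 4027580598) (.two (nat_lit 9781116929) (nat_lit 165532403938) (.one (nat_lit 8393043) .nil)))),
   .two (nat_lit 19596836872) (nat_lit 9881780244) (.two (nat_lit 183845781508) (nat_lit 11593056745) (.two (nat_lit 2097153) (nat_lit 218106130) (.one (nat_lit 46406831360) .nil))),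
   .two (nat_lit 1277165576) (nat_lit 184416206856) (.two (nat_lit 1277165572) (nat_lit 183912890412) (.two (nat_lit 1277165570) (nat_lit 158646403444) (.two (nat_lit 156364701697) (nat_lit 20638075176) (.one (nat_lit 1053013) .nil)))),
   .two (nat_lit 272629768) (nat_lit 34603066) (.two (nat_lit 2889875459) (nat_lit 1780482232) (.two (nat_lit 4194305) (nat_lit 12114199664) (.two (nat_lit 2097152) (nat_lit 1916799252) (.one (nat_lit 4198742) .nil)))),
   .two (nat_lit 75497480) (nat_lit 1343225872) (.two (nat_lit 713031684) (nat_lit 20704133165) (.two (nat_lit 713031682) (nat_lit 10000269786) (.two (nat_lit 612368385) (nat_lit 28086110403) (.one (nat_lit 1053637) .nil)))),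
   .two (nat_lit 276824072) (nat_lit 11477712942) (.two (nat_lit 8388610) (nat_lit 2988441936) (.two (nat_lit 37748737) (nat_lit 157035791561) (.two (nat_lit 4194304) (nat_lit 46473939181) (.one (nat_lit 1053638) .nil)))),
   .two (nat_lit 46409973768) (nat_lit 10940841992) (.two (nat_lit 46409973764) (nat_lit 9799991359) (.two (nat_lit 157038936067) (nat_lit 46508540409) (.two (nat_lit 9768534017) (nat_lit 18926799623) (.one (nat_lit 1053639) .nil)))),
   .two (nat_lit 2954887176) (nat_lit 1749024875) (.two (nat_lit 3525312515) (nat_lit 1916797633) (.two (nat_lit 2097152) (nat_lit 3527412381) (.one (nat_lit 4199368) .nil))),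
   .two (nat_lit 809500680) (nat_lit 19026411529) (.two (nat_lit 1846542340) (nat_lit 4634705958) (.two (nat_lit 11479810050) (nat_lit 158176641300) (.two (nat_lit 34603009) (nat_lit 158146233119) (.two (nat_lit 4194304) (nat_lit 1052204) (.one (nat_lit 4198750) .nil))))),
   .two (nat_lit 10370416648) (nat_lit 46409973768) (.two (nat_lit 46409973764) (nat_lit 10538188841) (.two (nat_lit 46409973762) (nat_lit 184987681500) (.two (nat_lit 4194304) (nat_lit 2350909771) (.one (nat_lit 2101599) .nil)))),
   .two (nat_lit 4194312) (nat_lit 3464495131) (.two (nat_lit 4194306) (nat_lit 19134415034) (.two (nat_lit 34603009) (nat_lit 3024093934) (.two (nat_lit 1048576) (nat_lit 8391024) (.one (nat_lit 8393056) .nil)))),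
   .two (nat_lit 16777224) (nat_lit 12618563630) (.two (nat_lit 184549379) (nat_lit 156533523200) (.two (nat_lit 4194304) (nat_lit 47582284617) (.one (nat_lit 4028634342) .nil))),
   .two (nat_lit 2969567240) (nat_lit 157036838932) (.two (nat_lit 9948889092) (nat_lit 1210056794) (.two (nat_lit 3525312515) (nat_lit 2969567927) (.two (nat_lit 2097152) (nat_lit 156581760335) .nil))),
   .two (nat_lit 9866051592) (nat_lit 2954887224) (.two (nat_lit 10335813635) (nat_lit 1377830095) (.two (nat_lit 16777216) (nat_lit 10001322062) .nil)),
   .two (nat_lit 183848927240) (nat_lit 9933160459) (.two (nat_lit 184416206852) (nat_lit 306184462) (.two (nat_lit 34603009) (nat_lit 20740834508) (.two (nat_lit 4194304) (nat_lit 10335816540) (.one (nat_lit 1053026) .nil)))),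
   .two (nat_lit 37748744) (nat_lit 9940500533) (.two (nat_lit 8388611) (nat_lit 184419352844) (.two (nat_lit 2097153) (nat_lit 184419353269) (.two (nat_lit 8388608) (nat_lit 10504638621) .nil))),
   .two (nat_lit 75497480) (nat_lit 46980399114) (.two (nat_lit 75497476) (nat_lit 159232557147) (.two (nat_lit 620756995) (nat_lit 3531604699) (.two (nat_lit 8388608) (nat_lit 1950352954) (.one (nat_lit 4198757) .nil)))),
   .two (nat_lit 272629768) (nat_lit 2323644436) (.two (nat_lit 1753219078) (nat_lit 4634705946) (.two (nat_lit 10343153667) (nat_lit 13224640691) (.two (nat_lit 156372041729) (nat_lit 3560966430) (.one (nat_lit 3531608220) .nil)))),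
   .two (nat_lit 9768534024) (nat_lit 159217877000) (.two (nat_lit 159217876996) (nat_lit 641728565) (.two (nat_lit 20638072835) (nat_lit 19029558391) (.two (nat_lit 2097152) (nat_lit 4197220) (.one (nat_lit 4198513) .nil)))),
   .two (nat_lit 822083592) (nat_lit 183949590568) (.two (nat_lit 809500675) (nat_lit 12129928415) (.two (nat_lit 4194304) (nat_lit 1426066076) (.one (nat_lit 16781670) .nil))),
   .two (nat_lit 16777224) (nat_lit 12054429739) (.two (nat_lit 41943043) (nat_lit 50332087) (.two (nat_lit 8388608) (nat_lit 19042142709) .nil)),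
   .two (nat_lit 176160776) (nat_lit 19109249131) (.two (nat_lit 285212675) (nat_lit 46414168768) (.two (nat_lit 16777216) (nat_lit 12054431934) (.one (nat_lit 8393676) .nil))),
   .two (nat_lit 9768534024) (nat_lit 12047089682) (.two (nat_lit 9934209028) (nat_lit 3557818442) (.two (nat_lit 13187940355) (nat_lit 9768534084) (.two (nat_lit 2097153) (nat_lit 166232851207) (.two (nat_lit 8388608) (nat_lit 10437527070) (.one (nat_lit 2102221) .nil))))),
   .two (nat_lit 10336862216) (nat_lit 47596961802) (.two (nat_lit 46978301956) (nat_lit 28806479923) (.two (nat_lit 721420290) (nat_lit 1745879364) (.two (nat_lit 2097153) (nat_lit 158662132427) (.two (nat_lit 1048576) (nat_lit 16781377) .nil)))),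
   .two (nat_lit 20644364296) (nat_lit 21777874952) (.two (nat_lit 68157444) (nat_lit 158083317798) (.two (nat_lit 705691650) (nat_lit 176162026) (.two (nat_lit 1048576) (nat_lit 641730692) (.one (nat_lit 8393678) .nil)))),
   .two (nat_lit 2969567240) (nat_lit 673185802) (.two (nat_lit 157036838916) (nat_lit 2969567258) (.two (nat_lit 19530776579) (nat_lit 9948889528) (.two (nat_lit 2097152) (nat_lit 9948890646) (.one (nat_lit 16781677) .nil)))),
   .two (nat_lit 75497480) (nat_lit 12047089733) (.two (nat_lit 713031682) (nat_lit 37246468467) (.two (nat_lit 2097153) (nat_lit 1049839) (.two (nat_lit 4194304) (nat_lit 2099571) (.one (nat_lit 2102223) .nil)))),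
   .two (nat_lit 620757000) (nat_lit 10343153674) (.two (nat_lit 156372041732) (nat_lit 1426063404) (.two (nat_lit 10503585795) (nat_lit 855638742) (.two (nat_lit 1048576) (nat_lit 788530719) (.one (nat_lit 3457159368) .nil)))),
   .two (nat_lit 739246088) (nat_lit 28093448230) (.two (nat_lit 713031682) (nat_lit 47581233467) (.two (nat_lit 34603009) (nat_lit 184993972925) (.two (nat_lit 1048576) (nat_lit 8391527) (.one (nat_lit 2953841995) .nil)))),
   .two (nat_lit 169869320) (nat_lit 75497480) (.two (nat_lit 75497476) (nat_lit 11610882084) (.two (nat_lit 612368387) (nat_lit 136315215) (.two (nat_lit 41943041) (nat_lit 136315607) (.two (nat_lit 8388608) (nat_lit 2099572) (.one (nat_lit 1053648) .nil))))),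
   .two (nat_lit 9948889096) (nat_lit 158176641041) (.two (nat_lit 10338959364) (nat_lit 156465365018) (.two (nat_lit 2956984323) (nat_lit 9814671752) (.two (nat_lit 9765388289) (nat_lit 1379926777) (.two (nat_lit 16777216) (nat_lit 158143089483) (.one (nat_lit 4199377) .nil))))),
   .two (nat_lit 2889875464) (nat_lit 28087156744) (.two (nat_lit 2889875460) (nat_lit 28758245458) (.two (nat_lit 721420290) (nat_lit 809500740) (.two (nat_lit 50331649) (nat_lit 46409974494) (.two (nat_lit 2097152) (nat_lit 4197225) (.one (nat_lit 639635681) .nil))))),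
   .two (nat_lit 117440520) (nat_lit 3558867007) (.two (nat_lit 270532611) (nat_lit 10955522361) (.two (nat_lit 34603009) (nat_lit 183846830805) (.two (nat_lit 1048576) (nat_lit 9766439170) (.one (nat_lit 2102226) .nil)))),
   .two (nat_lit 12054429704) (nat_lit 20637024314) (.two (nat_lit 739246083) (nat_lit 28093449010) (.one (nat_lit 166136384006) .nil)),
   .two (nat_lit 184986632200) (nat_lit 9766436922) (.two (nat_lit 1745879043) (nat_lit 9867100474) (.two (nat_lit 605028353) (nat_lit 2350909802) (.one (nat_lit 1052110) .nil))),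
   .two (nat_lit 1795162120) (nat_lit 46978301962) (.two (nat_lit 10385096708) (nat_lit 9900654640) (.two (nat_lit 270532611) (nat_lit 11492393400) (.two (nat_lit 4194304) (nat_lit 10437528296) (.one (nat_lit 2102227) .nil)))),
   .two (nat_lit 12114198536) (nat_lit 165526110293) (.two (nat_lit 1779433475) (nat_lit 156533522717) (.two (nat_lit 50331649) (nat_lit 1846544714) (.one (nat_lit 1053043) .nil))),
   .two (nat_lit 11543773192) (nat_lit 4647289022) (.two (nat_lit 1358954499) (nat_lit 157035790518) (.two (nat_lit 620756993) (nat_lit 2416969967) (.one (nat_lit 772803945) .nil))),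
   .two (nat_lit 721420296) (nat_lit 21214789685) (.two (nat_lit 1291845634) (nat_lit 11544822152) (.two (nat_lit 612368385) (nat_lit 46978303202) (.two (nat_lit 8388608) (nat_lit 46474987720) (.one (nat_lit 2102228) .nil)))),
   .two (nat_lit 46409973768) (nat_lit 218103817) (.two (nat_lit 46409973764) (nat_lit 16777658) (.two (nat_lit 4601151491) (nat_lit 18941477620) (.two (nat_lit 8388608) (nat_lit 16779637) (.one (nat_lit 16782293) .nil)))),
   .two (nat_lit 1277165576) (nat_lit 21207449610) (.two (nat_lit 20637024260) (nat_lit 158144135206) (.two (nat_lit 20637024258) (nat_lit 3525312893) (.two (nat_lit 156364701697) (nat_lit 10940844877) (.one (nat_lit 10940846371) .nil)))),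
   .two (nat_lit 41943048) (nat_lit 1191182381) (.two (nat_lit 9948889091) (nat_lit 13195280823) (.two (nat_lit 16777216) (nat_lit 13195281201) (.one (nat_lit 8392751) .nil))),
   .two (nat_lit 16777224) (nat_lit 1916796948) (.two (nat_lit 16777220) (nat_lit 37249614172) (.two (nat_lit 16777217) (nat_lit 20707281122) (.one (nat_lit 4198773) .nil))),
   .two (nat_lit 822083592) (nat_lit 1212153892) (.two (nat_lit 11479810050) (nat_lit 10921968356) (.two (nat_lit 4194304) (nat_lit 1426065773) (.one (nat_lit 16782295) .nil))),
   .two (nat_lit 46414168072) (nat_lit 20637024264) (.two (nat_lit 46414168068) (nat_lit 168820830) (.two (nat_lit 4605345795) (nat_lit 3524264429) (.two (nat_lit 4194305) (nat_lit 156968681912) (.two (nat_lit 4194304) (nat_lit 10510928235) (.one (nat_lit 8393688) .nil))))),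
   .two (nat_lit 37748744) (nat_lit 1846542344) (.two (nat_lit 9934209028) (nat_lit 166132187484) (.two (nat_lit 2097153) (nat_lit 10506732660) (.two (nat_lit 2097152) (nat_lit 1052207) (.one (nat_lit 2102233) .nil)))),
   .two (nat_lit 713031688) (nat_lit 1410334779) (.two (nat_lit 34603011) (nat_lit 3028287668) (.two (nat_lit 34603009) (nat_lit 166237045981) (.two (nat_lit 8388608) (nat_lit 21777877124) (.one (nat_lit 1053658) .nil)))),
   .two (nat_lit 16777224) (nat_lit 2889875464) (.two (nat_lit 2889875460) (nat_lit 158158815702) (.two (nat_lit 156365750273) (nat_lit 20707279636) (.two (nat_lit 2097152) (nat_lit 166211882754) .nil))),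
   .two (nat_lit 1291845640) (nat_lit 4028629018) (.two (nat_lit 3525312515) (nat_lit 184549651) (.two (nat_lit 2097153) (nat_lit 16777913) (.two (nat_lit 16777216) (nat_lit 2887781142) (.one (nat_lit 16782299) .nil)))),
   .two (nat_lit 2887778312) (nat_lit 21214789641) (.two (nat_lit 169869316) (nat_lit 3028287764) (.two (nat_lit 606076929) (nat_lit 1050271) (.two (nat_lit 1048576) (nat_lit 2927627059) (.one (nat_lit 1053660) .nil)))),
   .two (nat_lit 12050235400) (nat_lit 19596836872) (.two (nat_lit 183848927236) (nat_lit 184416206890) (.two (nat_lit 809500675) (nat_lit 1780482357) (.two (nat_lit 37748737) (nat_lit 12147753709) (.two (nat_lit 4194304) (nat_lit 1050998) (.one (nat_lit 1053662) .nil))))),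
   .two (nat_lit 101711880) (nat_lit 37314625604) (.two (nat_lit 50331649) (nat_lit 47548728869) (.one (nat_lit 2102239) .nil)),
   .two (nat_lit 9881780237) (nat_lit 28690087956) (.two (nat_lit 9881780230) (nat_lit 10503585882) (.two (nat_lit 1913651203) (nat_lit 185035915732) (.two (nat_lit 9765388289) (nat_lit 1426065541) (.one (nat_lit 1053664) .nil)))),
   .two (nat_lit 21785214984) (nat_lit 28690087963) (.two (nat_lit 184416206851) (nat_lit 12054429975) (.two (nat_lit 9781116929) (nat_lit 9899607241) (.two (nat_lit 16777216) (nat_lit 1745881325) (.one (nat_lit 1053050) .nil)))),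
   .two (nat_lit 721420296) (nat_lit 1954545718) (.two (nat_lit 209715203) (nat_lit 620757695) (.two (nat_lit 8388608) (nat_lit 9781119200) (.one (nat_lit 16782305) .nil))),
   .two (nat_lit 4605345800) (nat_lit 21208498184) (.two (nat_lit 10370416644) (nat_lit 37253808194) (.two (nat_lit 20638072834) (nat_lit 156372042433) (.two (nat_lit 1048576) (nat_lit 19537070371) (.one (nat_lit 2101627) .nil)))),
   .two (nat_lit 9934209032) (nat_lit 168820784) (.two (nat_lit 1277165571) (nat_lit 1048979) (.two (nat_lit 2097153) (nat_lit 156566029505) (.two (nat_lit 8388608) (nat_lit 12114200101) (.one (nat_lit 2101628) .nil)))),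
   .two (nat_lit 16777224) (nat_lit 183853121544) (.two (nat_lit 183853121540) (nat_lit 806355675) (.two (nat_lit 8388608) (nat_lit 11492396794) .nil)),
   .two (nat_lit 8388616) (nat_lit 1749024875) (.two (nat_lit 8388610) (nat_lit 166132187423) (.two (nat_lit 8388609) (nat_lit 876610262) (.two (nat_lit 2097152) (nat_lit 3527413794) .nil))),
   .two (nat_lit 9934209032) (nat_lit 11014242363) (.two (nat_lit 11543773187) (nat_lit 1377829626) (.two (nat_lit 1048576) (nat_lit 3565160641) (.one (nat_lit 2102242) .nil))),
   .two (nat_lit 176160776) (nat_lit 184419352584) (.two (nat_lit 176160772) (nat_lit 10372514081) (.two (nat_lit 16777217) (nat_lit 2990540340) (.one (nat_lit 4198783) .nil))),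
   .two (nat_lit 272629768) (nat_lit 2936012854) (.two (nat_lit 754974723) (nat_lit 4634706099) (.two (nat_lit 50331649) (nat_lit 156468512920) (.one (nat_lit 4199395) .nil))),
   .two (nat_lit 721420296) (nat_lit 46474985482) (.two (nat_lit 83886084) (nat_lit 12618563983) (.two (nat_lit 41943041) (nat_lit 13222545575) (.one (nat_lit 159251435786) .nil))),
   .two (nat_lit 16777224) (nat_lit 4605345831) (.two (nat_lit 8388610) (nat_lit 1358955264) (.two (nat_lit 16777216) (nat_lit 839913658) .nil)),
   .two (nat_lit 721420296) (nat_lit 37247516720) (.two (nat_lit 721420290) (nat_lit 639631684) (.two (nat_lit 620756993) (nat_lit 3558869302) (.one (nat_lit 16782308) .nil))),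
   .two (nat_lit 20638072840) (nat_lit 205520912) (.two (nat_lit 21214789636) (nat_lit 1310720026) (.two (nat_lit 20644364290) (nat_lit 13222544068) (.two (nat_lit 8388608) (nat_lit 2100077) (.one (nat_lit 2101633) .nil)))),
   .two (nat_lit 880803850) (nat_lit 37247516701) (.two (nat_lit 13195280388) (nat_lit 158077026367) (.two (nat_lit 8388610) (nat_lit 10437525852) (.two (nat_lit 8388609) (nat_lit 184987682364) (.one (nat_lit 2101634) .nil)))),
   .two (nat_lit 11479810056) (nat_lit 21777874964) (.two (nat_lit 1178599428) (nat_lit 11577327642) (.two (nat_lit 11479810050) (nat_lit 10503585974) (.two (nat_lit 34603009) (nat_lit 4634706613) (.two (nat_lit 16777216) (nat_lit 19596841275) .nil)))),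
   .two (nat_lit 11559501832) (nat_lit 1846542344) (.two (nat_lit 1846542340) (nat_lit 183861510913) (.two (nat_lit 2097152) (nat_lit 13237225633) (.one (nat_lit 16781699) .nil))),
   .two (nat_lit 612368392) (nat_lit 18928893979) (.two (nat_lit 75497475) (nat_lit 843055284) (.two (nat_lit 8388609) (nat_lit 159219976480) (.one (nat_lit 4198788) .nil))),
   .two (nat_lit 46978301960) (nat_lit 9768534036) (.two (nat_lit 157036838916) (nat_lit 28089253985) (.two (nat_lit 272629763) (nat_lit 1746928323) (.two (nat_lit 4194304) (nat_lit 1277167140) (.one (nat_lit 2101637) .nil)))),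
   .two (nat_lit 11559501832) (nat_lit 9899606059) (.two (nat_lit 9866051587) (nat_lit 1358955313) (.one (nat_lit 166144772603) .nil)),
   .two (nat_lit 46414168074) (nat_lit 9881780238) (.two (nat_lit 3464495108) (nat_lit 9881780269) (.two (nat_lit 176160771) (nat_lit 1191183040) (.two (nat_lit 4194304) (nat_lit 159224171821) .nil))),
   .two (nat_lit 47555018760) (nat_lit 28086108187) (.two (nat_lit 8388610) (nat_lit 10537140514) (.two (nat_lit 41943041) (nat_lit 158143087366) (.two (nat_lit 8388608) (nat_lit 1051502) (.one (nat_lit 1053669) .nil)))),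
   .two (nat_lit 19596836872) (nat_lit 9948889178) (.two (nat_lit 13187940355) (nat_lit 46523220467) (.two (nat_lit 9768534017) (nat_lit 46406831360) .nil)),
   .two (nat_lit 8388616) (nat_lit 158075977754) (.two (nat_lit 8388610) (nat_lit 13221494969) (.two (nat_lit 41943041) (nat_lit 1846543127) (.two (nat_lit 8388608) (nat_lit 1051503) (.one (nat_lit 1053670) .nil)))),
   .two (nat_lit 16777224) (nat_lit 10370416684) (.two (nat_lit 184549379) (nat_lit 639631684) (.two (nat_lit 50331649) (nat_lit 10906240146) (.two (nat_lit 16777216) (nat_lit 1051504) (.one (nat_lit 1053671) .nil)))),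
   .two (nat_lit 2994733066) (nat_lit 183928619115) (.two (nat_lit 176160771) (nat_lit 16777503) (.two (nat_lit 41943041) (nat_lit 10335814383) (.two (nat_lit 8388608) (nat_lit 16780145) (.one (nat_lit 16782312) .nil)))),
   .two (nat_lit 739246088) (nat_lit 10907287562) (.two (nat_lit 101711876) (nat_lit 10907287591) (.two (nat_lit 1779433475) (nat_lit 159251431709) (.two (nat_lit 9765388289) (nat_lit 2988442301) (.two (nat_lit 1048576) (nat_lit 2954889996) (.one (nat_lit 1053062) .nil))))),
   .two (nat_lit 46409973768) (nat_lit 21818769471) (.two (nat_lit 746586115) (nat_lit 10439624238) (.one (nat_lit 708839926) .nil)),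
   .two (nat_lit 183848927240) (nat_lit 11510218802) (.two (nat_lit 806354947) (nat_lit 21210595720) (.two (nat_lit 34603009) (nat_lit 1312818397) (.two (nat_lit 4194304) (nat_lit 19596839044) (.one (nat_lit 4199402) .nil)))),
   .two (nat_lit 13203669000) (nat_lit 18933088301) (.two (nat_lit 159224168451) (nat_lit 1780482761) (.two (nat_lit 8388608) (nat_lit 11578377758) (.one (nat_lit 9867103480) .nil))),
   .two (nat_lit 739246088) (nat_lit 20644364296) (.two (nat_lit 12114198532) (nat_lit 10947133489) (.two (nat_lit 713031682) (nat_lit 21811429556) (.two (nat_lit 34603009) (nat_lit 2424308440) (.two (nat_lit 1048576) (nat_lit 8391539) (.one (nat_lit 19093522944) .nil))))),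
   .two (nat_lit 3464495112) (nat_lit 620757002) (.two (nat_lit 9948889092) (nat_lit 20644364364) (.two (nat_lit 184549378) (nat_lit 8389125) (.two (nat_lit 9766436865) (nat_lit 176163072) (.one (nat_lit 16781704) .nil)))),
   .two (nat_lit 11492392968) (nat_lit 10436476938) (.two (nat_lit 822083588) (nat_lit 156465365037) (.two (nat_lit 11492392962) (nat_lit 184986632540) (.two (nat_lit 4194305) (nat_lit 166229706914) (.one (nat_lit 16781705) .nil)))),
   .two (nat_lit 639631368) (nat_lit 243269659) (.two (nat_lit 2887778306) (nat_lit 156976022217) (.two (nat_lit 2097152) (nat_lit 2994735424) (.one (nat_lit 8393707) .nil))),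
   .two (nat_lit 654311432) (nat_lit 11543773228) (.two (nat_lit 10385096707) (nat_lit 9966715230) (.two (nat_lit 16777217) (nat_lit 11610883218) (.two (nat_lit 16777216) (nat_lit 158083322193) .nil))),
   .two (nat_lit 46409973768) (nat_lit 1780482058) (.two (nat_lit 2889875460) (nat_lit 721420351) (.two (nat_lit 620756995) (nat_lit 1310720744) (.two (nat_lit 16777216) (nat_lit 1782582819) (.one (nat_lit 1962938425) .nil)))),
   .two (nat_lit 639631368) (nat_lit 21207449620) (.two (nat_lit 3525312516) (nat_lit 28086108216) (.two (nat_lit 639631363) (nat_lit 184986632496) (.two (nat_lit 16777217) (nat_lit 11006903837) (.one (nat_lit 156532476414) .nil)))),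
   .two (nat_lit 12054429704) (nat_lit 19532873736) (.two (nat_lit 183853121540) (nat_lit 156971827238) (.two (nat_lit 156367847427) (nat_lit 184993972292) (.two (nat_lit 34603009) (nat_lit 1749026343) (.one (nat_lit 28089258000) .nil)))),
   .two (nat_lit 272629768) (nat_lit 16777226) (.two (nat_lit 285212676) (nat_lit 272629828) (.two (nat_lit 16777217) (nat_lit 19599984989) (.one (nat_lit 166196154402) .nil))),
   .two (nat_lit 18928893960) (nat_lit 11492392975) (.two (nat_lit 285212676) (nat_lit 9802088489) (.two (nat_lit 156971827203) (nat_lit 20719862480) (.two (nat_lit 4194304) (nat_lit 654313781) (.one (nat_lit 16781708) .nil)))),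
   .two (nat_lit 28086108168) (nat_lit 2420113452) (.two (nat_lit 158143086595) (nat_lit 10506731903) (.two (nat_lit 612368385) (nat_lit 272631333) (.one (nat_lit 1052518) .nil))),
   .two (nat_lit 16777224) (nat_lit 47555018790) (.two (nat_lit 28093448195) (nat_lit 13187940833) (.two (nat_lit 50331649) (nat_lit 47581234413) (.two (nat_lit 1048576) (nat_lit 4647291678) (.one (nat_lit 1053676) .nil)))),
   .two (nat_lit 1277165576) (nat_lit 12121538606) (.two (nat_lit 9934209027) (nat_lit 109053129) (.two (nat_lit 2097152) (nat_lit 109055997) .nil)),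
   .two (nat_lit 11559501832) (nat_lit 1745879048) (.two (nat_lit 1745879044) (nat_lit 11559501850) (.two (nat_lit 183845781506) (nat_lit 19042140901) (.two (nat_lit 1048576) (nat_lit 117442869) (.one (nat_lit 1358958559) .nil)))),
   .two (nat_lit 285212680) (nat_lit 156367847432) (.two (nat_lit 156367847428) (nat_lit 285212698) (.two (nat_lit 46409973762) (nat_lit 165540790610) (.two (nat_lit 4194305) (nat_lit 158158815970) (.two (nat_lit 4194304) (nat_lit 1962936665) (.one (nat_lit 16782317) .nil))))),
   .two (nat_lit 158083317768) (nat_lit 4631560252) (.two (nat_lit 1343225859) (nat_lit 8389126) (.two (nat_lit 156372041729) (nat_lit 1913652887) (.two (nat_lit 1048576) (nat_lit 19604179717) (.one (nat_lit 8393710) .nil)))),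
   .two (nat_lit 41943048) (nat_lit 166199296011) (.two (nat_lit 272629764) (nat_lit 46481276982) (.two (nat_lit 8388610) (nat_lit 28760342713) (.two (nat_lit 41943041) (nat_lit 10942939844) (.two (nat_lit 8388608) (nat_lit 2956987228) (.one (nat_lit 4199407) .nil))))),
   .two (nat_lit 41943048) (nat_lit 3527409679) (.two (nat_lit 157038936068) (nat_lit 13195281201) (.one (nat_lit 3565160955) .nil)),
   .two (nat_lit 183853121544) (nat_lit 11577327643) (.two (nat_lit 12054429699) (nat_lit 772800951) (.two (nat_lit 8388608) (nat_lit 47581234712) (.one (nat_lit 1053680) .nil))),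
   .two (nat_lit 8388616) (nat_lit 20638072840) (.two (nat_lit 8388612) (nat_lit 9967763497) (.two (nat_lit 159217876995) (nat_lit 37320917710) (.two (nat_lit 8388608) (nat_lit 157036843340) .nil))),
   .two (nat_lit 612368392) (nat_lit 19596836872) (.two (nat_lit 75497476) (nat_lit 12617515046) (.two (nat_lit 713031682) (nat_lit 183912890647) (.two (nat_lit 41943041) (nat_lit 166196153184) (.one (nat_lit 9966719355) .nil)))),
   .two (nat_lit 50331661) (nat_lit 158649548828) (.two (nat_lit 13224640518) (nat_lit 1426063416) (.two (nat_lit 809500675) (nat_lit 19612565896) (.two (nat_lit 37748737) (nat_lit 166211880087) (.two (nat_lit 4194304) (nat_lit 156548204868) (.one (nat_lit 12633246963) .nil))))),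
   .two (nat_lit 1916796936) (nat_lit 822083627) (.two (nat_lit 809500675) (nat_lit 3003122390) (.two (nat_lit 4194304) (nat_lit 721424301) .nil)),
   .two (nat_lit 165526110216) (nat_lit 2902458377) (.two (nat_lit 165526110212) (nat_lit 16777409) (.two (nat_lit 10336862211) (nat_lit 3036677330) (.two (nat_lit 2097152) (nat_lit 3573550331) .nil))),
   .two (nat_lit 2902458376) (nat_lit 1212153894) (.two (nat_lit 4194306) (nat_lit 2969567935) (.two (nat_lit 4194304) (nat_lit 156481095914) (.one (nat_lit 4199410) .nil))),
   .two (nat_lit 742391816) (nat_lit 9806282772) (.two (nat_lit 1178599428) (nat_lit 1780482365) (.two (nat_lit 37748737) (nat_lit 158144135941) (.two (nat_lit 4194304) (nat_lit 2100086) (.one (nat_lit 4199411) .nil)))),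
   .two (nat_lit 10370416648) (nat_lit 138412213) (.two (nat_lit 606076929) (nat_lit 3024094401) (.two (nat_lit 2097152) (nat_lit 28760345326) (.one (nat_lit 2101097) .nil))),
   .two (nat_lit 11479810056) (nat_lit 46978301960) (.two (nat_lit 1178599428) (nat_lit 2317353017) (.two (nat_lit 16777218) (nat_lit 21778923701) (.two (nat_lit 16777217) (nat_lit 12048139012) (.two (nat_lit 16777216) (nat_lit 2100087) (.one (nat_lit 4199412) .nil))))),
   .two (nat_lit 19532873736) (nat_lit 20738736171) (.two (nat_lit 203423747) (nat_lit 28693234104) (.two (nat_lit 2097152) (nat_lit 28693234482) (.one (nat_lit 2102261) .nil))),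
   .two (nat_lit 721420296) (nat_lit 3527409672) (.two (nat_lit 721420292) (nat_lit 46980399131) (.two (nat_lit 2889875458) (nat_lit 16777396) (.two (nat_lit 9768534017) (nat_lit 46422557848) (.two (nat_lit 16777216) (nat_lit 641730749) (.one (nat_lit 4199143) .nil))))),
   .two (nat_lit 183853121544) (nat_lit 1745879060) (.two (nat_lit 183853121540) (nat_lit 10906239083) (.two (nat_lit 184986632195) (nat_lit 2357199235) (.two (nat_lit 41943041) (nat_lit 158143089515) (.one (nat_lit 46507495272) .nil)))),
   .two (nat_lit 11492392968) (nat_lit 21207449608) (.two (nat_lit 117440516) (nat_lit 672137280) (.two (nat_lit 158143086595) (nat_lit 10955522844) (.two (nat_lit 1048576) (nat_lit 12062820586) (.one (nat_lit 16781713) .nil)))),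
   .two (nat_lit 2889875464) (nat_lit 28093448282) (.two (nat_lit 272629763) (nat_lit 75497971) (.two (nat_lit 50331649) (nat_lit 46477086132) .nil)),
   .two (nat_lit 3458203656) (nat_lit 156465365002) (.two (nat_lit 1846542340) (nat_lit 46474986175) (.two (nat_lit 1048576) (nat_lit 1411385569) (.one (nat_lit 174685425950) .nil))),
   .two (nat_lit 158083317774) (nat_lit 174752530451) (.two (nat_lit 21811429381) (nat_lit 176160824) (.two (nat_lit 21777874947) (nat_lit 37253808847) (.two (nat_lit 1048576) (nat_lit 157043132735) (.one (nat_lit 1053074) .nil)))),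
   .two (nat_lit 184416206856) (nat_lit 721420298) (.two (nat_lit 11559501828) (nat_lit 12617515034) (.two (nat_lit 12114198531) (nat_lit 251658540) (.two (nat_lit 9768534017) (nat_lit 2920286571) (.one (nat_lit 1053075) .nil)))),
   .two (nat_lit 4601151496) (nat_lit 10351542326) (.two (nat_lit 809500675) (nat_lit 185002361304) (.two (nat_lit 41943041) (nat_lit 166232852003) (.one (nat_lit 16782326) .nil))),
   .two (nat_lit 2889875464) (nat_lit 46508539913) (.two (nat_lit 3525312516) (nat_lit 46510637081) (.two (nat_lit 2887778306) (nat_lit 37749138) (.two (nat_lit 2097153) (nat_lit 9902752972) (.two (nat_lit 2097152) (nat_lit 4197240) (.one (nat_lit 874516834) .nil))))),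
   .two (nat_lit 28693233672) (nat_lit 19142803466) (.two (nat_lit 1929379844) (nat_lit 10540286015) (.two (nat_lit 47550824451) (nat_lit 159257724120) (.two (nat_lit 1048576) (nat_lit 1954547850) (.one (nat_lit 4199415) .nil)))),
   .two (nat_lit 9768534024) (nat_lit 28087156744) (.two (nat_lit 83886084) (nat_lit 775946568) (.two (nat_lit 2097153) (nat_lit 46510637757) (.two (nat_lit 8388608) (nat_lit 10921971512) .nil))),
   .two (nat_lit 16777224) (nat_lit 21785214996) (.two (nat_lit 9906946054) (nat_lit 16777656) (.two (nat_lit 4194304) (nat_lit 1862273539) .nil)),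
   .two (nat_lit 813694984) (nat_lit 46980399382) (.two (nat_lit 41943041) (nat_lit 46980400262) (.two (nat_lit 8388608) (nat_lit 4197242) (.one (nat_lit 2102264) .nil))),
   .two (nat_lit 721420296) (nat_lit 10436476953) (.two (nat_lit 721420290) (nat_lit 1209008309) (.two (nat_lit 34603009) (nat_lit 12129927906) (.two (nat_lit 1048576) (nat_lit 28806482265) (.one (nat_lit 16782329) .nil)))),
   .two (nat_lit 3527409672) (nat_lit 304087068) (.two (nat_lit 166197198854) (nat_lit 3527409690) (.two (nat_lit 184549379) (nat_lit 10510926265) (.two (nat_lit 2097152) (nat_lit 21814576667) (.one (nat_lit 4198808) .nil)))),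
   .two (nat_lit 1847590926) (nat_lit 1384120341) (.two (nat_lit 20644364292) (nat_lit 166230753323) (.two (nat_lit 2954887171) (nat_lit 46514832093) (.two (nat_lit 2097152) (nat_lit 1182796294) .nil))),
   .two (nat_lit 11479810056) (nat_lit 101711884) (.two (nat_lit 165525061636) (nat_lit 13224640556) (.two (nat_lit 11479810051) (nat_lit 158075978076) (.two (nat_lit 16777217) (nat_lit 28690088660) (.two (nat_lit 16777216) (nat_lit 205523145) (.one (nat_lit 4199418) .nil))))),
   .two (nat_lit 9934209032) (nat_lit 19604176904) (.two (nat_lit 169869316) (nat_lit 276824112) (.two (nat_lit 28705816579) (nat_lit 1914700086) (.two (nat_lit 34603009) (nat_lit 19033753837) (.one (nat_lit 8393723) .nil)))),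
   .two (nat_lit 218103816) (nat_lit 11544821806) (.two (nat_lit 822083587) (nat_lit 20637024729) (.two (nat_lit 34603009) (nat_lit 20652753657) (.two (nat_lit 1048576) (nat_lit 4647291082) (.one (nat_lit 16782332) .nil)))),
   .two (nat_lit 8388616) (nat_lit 185035915274) (.two (nat_lit 176160772) (nat_lit 807403574) (.two (nat_lit 721420290) (nat_lit 10007610162) (.one (nat_lit 2102269) .nil))),
   .two (nat_lit 50331656) (nat_lit 142606403) (.two (nat_lit 176160771) (nat_lit 150995257) (.two (nat_lit 41943041) (nat_lit 1049840) (.two (nat_lit 1048576) (nat_lit 8392241) (.one (nat_lit 1053694) .nil)))),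
   .two (nat_lit 184986632200) (nat_lit 166132187161) (.two (nat_lit 9768534019) (nat_lit 135266484) (.two (nat_lit 34603009) (nat_lit 46980399797) (.two (nat_lit 1048576) (nat_lit 10439624893) (.one (nat_lit 1053695) .nil)))),
   .two (nat_lit 41943048) (nat_lit 19127074877) (.two (nat_lit 713031683) (nat_lit 183912890648) (.two (nat_lit 4194305) (nat_lit 12624856615) (.one (nat_lit 8393113) .nil))),
   .two (nat_lit 639631368) (nat_lit 10939793446) (.two (nat_lit 10370416643) (nat_lit 9933160809) (.two (nat_lit 16777217) (nat_lit 184986633765) (.one (nat_lit 169873454) .nil))),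
   .two (nat_lit 9781116936) (nat_lit 21777874952) (.two (nat_lit 754974724) (nat_lit 2316304422) (.two (nat_lit 705691650) (nat_lit 285212951) (.two (nat_lit 156372041729) (nat_lit 165540791533) (.two (nat_lit 8388608) (nat_lit 16780158) (.one (nat_lit 176165563) .nil))))),
   .two (nat_lit 47555018760) (nat_lit 158075977736) (.two (nat_lit 159224168452) (nat_lit 101711924) (.two (nat_lit 20644364291) (nat_lit 1049412) (.two (nat_lit 8388609) (nat_lit 183912891589) (.two (nat_lit 8388608) (nat_lit 135268596) (.one (nat_lit 1053696) .nil))))),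
   .two (nat_lit 2887778312) (nat_lit 158653743113) (.two (nat_lit 705691652) (nat_lit 11618222116) (.two (nat_lit 34603011) (nat_lit 41943407) (.two (nat_lit 605028353) (nat_lit 35653279) (.two (nat_lit 1048576) (nat_lit 2100096) (.one (nat_lit 2102273) .nil))))),
   .two (nat_lit 713031688) (nat_lit 1291845640) (.two (nat_lit 1291845636) (nat_lit 183920230581) (.two (nat_lit 2097153) (nat_lit 20644366999) (.one (nat_lit 8393730) .nil))),
   .two (nat_lit 8388616) (nat_lit 159253528624) (.two (nat_lit 4194306) (nat_lit 156472705860) (.two (nat_lit 4194305) (nat_lit 165532402885) (.two (nat_lit 8388608) (nat_lit 4197938) (.one (nat_lit 4198814) .nil)))),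
   .two (nat_lit 158083317774) (nat_lit 183962173460) (.two (nat_lit 822083590) (nat_lit 20644364331) (.two (nat_lit 8388611) (nat_lit 1191182623) (.two (nat_lit 8388609) (nat_lit 159266114210) (.one (nat_lit 8393119) .nil)))),
   .two (nat_lit 1291845640) (nat_lit 742391847) (.two (nat_lit 4194306) (nat_lit 1417675137) (.two (nat_lit 41943041) (nat_lit 21781021433) (.two (nat_lit 16777216) (nat_lit 156976023077) (.one (nat_lit 2969572036) .nil)))),
   .two (nat_lit 1291845640) (nat_lit 4028629018) (.two (nat_lit 1291845634) (nat_lit 11578377028) (.two (nat_lit 2097153) (nat_lit 184552238) (.one (nat_lit 2102275) .nil))),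
   .two (nat_lit 1358954504) (nat_lit 10000269494) (.two (nat_lit 50331649) (nat_lit 1175454904) (.two (nat_lit 1048576) (nat_lit 10016000133) (.one (nat_lit 34606941) .nil))),
   .two (nat_lit 11543773192) (nat_lit 10343153691) (.two (nat_lit 10343153667) (nat_lit 12617515770) (.two (nat_lit 8388608) (nat_lit 10537142525) (.one (nat_lit 1053088) .nil))),
   .two (nat_lit 20644364296) (nat_lit 158075977736) (.two (nat_lit 158075977732) (nat_lit 2894069945) (.two (nat_lit 612368385) (nat_lit 46473938111) (.two (nat_lit 1048576) (nat_lit 8392243) (.one (nat_lit 1053089) .nil)))),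
   .two (nat_lit 11543773192) (nat_lit 11551113274) (.two (nat_lit 605028355) (nat_lit 20711473871) (.two (nat_lit 4194304) (nat_lit 157043132692) (.one (nat_lit 8393732) .nil))),
   .two (nat_lit 8388616) (nat_lit 9799991306) (.two (nat_lit 639631364) (nat_lit 47555018778) (.two (nat_lit 2887778306) (nat_lit 11014242634) (.two (nat_lit 2097153) (nat_lit 157043131154) (.two (nat_lit 2097152) (nat_lit 166136383665) (.one (nat_lit 2887782617) .nil))))),
   .two (nat_lit 157038936072) (nat_lit 156969730111) (.two (nat_lit 1914699779) (nat_lit 9802088887) (.two (nat_lit 2097152) (nat_lit 21814577657) .nil)),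
   .two (nat_lit 272629768) (nat_lit 157035790400) (.two (nat_lit 4194306) (nat_lit 9798943028) (.two (nat_lit 37748737) (nat_lit 4598006515) (.two (nat_lit 4194304) (nat_lit 1051522) (.one (nat_lit 1276121300) .nil)))),
   .two (nat_lit 620757000) (nat_lit 1343225900) (.two (nat_lit 83886083) (nat_lit 10436477311) (.two (nat_lit 8388609) (nat_lit 873467211) .nil)),
   .two (nat_lit 11543773192) (nat_lit 620757002) (.two (nat_lit 9948889092) (nat_lit 739246124) (.two (nat_lit 1291845635) (nat_lit 28690088660) (.two (nat_lit 16777216) (nat_lit 2920286453) (.one (nat_lit 608178376) .nil)))),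
   .two (nat_lit 276824072) (nat_lit 166211879019) (.two (nat_lit 2969567235) (nat_lit 28087156918) (.two (nat_lit 16777217) (nat_lit 2317353679) (.two (nat_lit 16777216) (nat_lit 2100100) (.one (nat_lit 16782341) .nil)))),
   .two (nat_lit 713031688) (nat_lit 156532473902) (.two (nat_lit 713031682) (nat_lit 235929901) (.two (nat_lit 41943041) (nat_lit 13221497494) (.one (nat_lit 1053092) .nil))),
   .two (nat_lit 83886088) (nat_lit 806354966) (.two (nat_lit 19596836868) (nat_lit 20719861819) (.two (nat_lit 11559501827) (nat_lit 47581233336) (.two (nat_lit 34603009) (nat_lit 183962174174) (.two (nat_lit 8388608) (nat_lit 336595476) .nil)))),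
   .two (nat_lit 809500680) (nat_lit 28093448202) (.two (nat_lit 4601151492) (nat_lit 21785215020) (.two (nat_lit 10343153667) (nat_lit 28793898527) (.one (nat_lit 37752770) .nil))),
   .two (nat_lit 50331661) (nat_lit 11479810068) (.two (nat_lit 822083589) (nat_lit 174755676214) (.two (nat_lit 809500675) (nat_lit 19612565896) (.two (nat_lit 37748737) (nat_lit 166211880087) (.two (nat_lit 4194304) (nat_lit 889196760) .nil)))),
   .two (nat_lit 1795162120) (nat_lit 9899606059) (.two (nat_lit 9866051587) (nat_lit 10385097143) (.two (nat_lit 1048576) (nat_lit 318769683) .nil)),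
   .two (nat_lit 47548727304) (nat_lit 166132187176) (.two (nat_lit 4599054339) (nat_lit 156971827905) (.two (nat_lit 1048576) (nat_lit 1176506747) .nil)),
   .two (nat_lit 117440520) (nat_lit 165525061739) (.two (nat_lit 28757196803) (nat_lit 9781117632) (.two (nat_lit 1048576) (nat_lit 620759230) (.one (nat_lit 16782342) .nil))),
   .two (nat_lit 18933088264) (nat_lit 2887778350) (.two (nat_lit 169869314) (nat_lit 1849688388) (.two (nat_lit 41943041) (nat_lit 9867101398) (.two (nat_lit 4194304) (nat_lit 8391558) (.one (nat_lit 1849692352) .nil)))),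
   .two (nat_lit 2902458376) (nat_lit 28087157077) (.two (nat_lit 9781116929) (nat_lit 20745028311) (.two (nat_lit 16777216) (nat_lit 183953787252) (.one (nat_lit 8393736) .nil))),
   .two (nat_lit 1277165576) (nat_lit 754974765) (.two (nat_lit 184549379) (nat_lit 28758245816) (.two (nat_lit 16777216) (nat_lit 28758246194) (.one (nat_lit 2101672) .nil))),
   .two (nat_lit 2889875464) (nat_lit 183845781585) (.two (nat_lit 4599054339) (nat_lit 3460301974) (.two (nat_lit 2097152) (nat_lit 205523150) (.one (nat_lit 4199433) .nil))),
   .two (nat_lit 2954887176) (nat_lit 9906946074) (.two (nat_lit 21785214979) (nat_lit 9967763729) (.two (nat_lit 612368385) (nat_lit 19094569679) (.two (nat_lit 8388608) (nat_lit 1914702015) (.one (nat_lit 2102282) .nil)))),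
   .two (nat_lit 11559501832) (nat_lit 37246468141) (.two (nat_lit 21777874947) (nat_lit 10921968348) (.two (nat_lit 1048576) (nat_lit 50333836) (.one (nat_lit 16781738) .nil))),
   .two (nat_lit 721420296) (nat_lit 28093448200) (.two (nat_lit 21214789636) (nat_lit 166144770094) (.two (nat_lit 158150426627) (nat_lit 9814671661) (.two (nat_lit 34603009) (nat_lit 876611106) (.one (nat_lit 158079127929) .nil)))),
   .two (nat_lit 276824072) (nat_lit 19029557260) (.two (nat_lit 37748740) (nat_lit 1947205685) (.two (nat_lit 4194306) (nat_lit 158143086984) (.two (nat_lit 4194305) (nat_lit 47581234333) (.two (nat_lit 2097152) (nat_lit 4197940) (.one (nat_lit 4599058820) .nil))))),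
   .two (nat_lit 11479810056) (nat_lit 11559501832) (.two (nat_lit 11559501828) (nat_lit 183949590554) (.two (nat_lit 754974723) (nat_lit 19130220984) (.two (nat_lit 1048576) (nat_lit 158146233916) (.one (nat_lit 4199435) .nil)))),
   .two (nat_lit 276824072) (nat_lit 654311432) (.two (nat_lit 41943044) (nat_lit 1745879093) (.two (nat_lit 713031682) (nat_lit 174685422048) (.two (nat_lit 16777217) (nat_lit 47547679937) (.two (nat_lit 1048576) (nat_lit 16780853) (.one (nat_lit 1053708) .nil))))),
   .two (nat_lit 285212680) (nat_lit 20644364296) (.two (nat_lit 16777220) (nat_lit 159224168475) (.two (nat_lit 159224168451) (nat_lit 158192369999) (.two (nat_lit 2097153) (nat_lit 12155095251) (.one (nat_lit 8393741) .nil)))),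
   .two (nat_lit 2902458376) (nat_lit 880803860) (.two (nat_lit 713031686) (nat_lit 218103850) (.two (nat_lit 285212675) (nat_lit 75497820) (.two (nat_lit 16777217) (nat_lit 8390817) (.one (nat_lit 2902461749) .nil)))),
   .two (nat_lit 11479810056) (nat_lit 174752530459) (.two (nat_lit 809500675) (nat_lit 19127074997) (.two (nat_lit 37748737) (nat_lit 202376413) (.two (nat_lit 1048576) (nat_lit 156468512900) (.one (nat_lit 1053710) .nil)))),
   .two (nat_lit 1343225864) (nat_lit 20644364301) (.two (nat_lit 1343225860) (nat_lit 158083317832) (.two (nat_lit 705691650) (nat_lit 159224168627) (.two (nat_lit 16777217) (nat_lit 46507492586) (.two (nat_lit 16777216) (nat_lit 1050913) (.one (nat_lit 8393743) .nil))))),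
   .two (nat_lit 11543773192) (nat_lit 1291845653) (.two (nat_lit 11543773188) (nat_lit 1426063469) (.two (nat_lit 184549378) (nat_lit 1312817913) (.two (nat_lit 16777216) (nat_lit 1051005) (.one (nat_lit 1053104) .nil)))),
   .two (nat_lit 654311432) (nat_lit 3458203656) (.two (nat_lit 10385096708) (nat_lit 68157554) (.two (nat_lit 1291845634) (nat_lit 158143087084) (.two (nat_lit 50331649) (nat_lit 2316305591) (.two (nat_lit 2097152) (nat_lit 235932528) (.one (nat_lit 1053712) .nil))))),
   .two (nat_lit 639631368) (nat_lit 28757196808) (.two (nat_lit 28757196804) (nat_lit 3558866983) (.two (nat_lit 28758245379) (nat_lit 28790751513) (.two (nat_lit 156365750273) (nat_lit 672140169) (.one (nat_lit 1053713) .nil)))),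
   .two (nat_lit 8388616) (nat_lit 159266111836) (.two (nat_lit 16777217) (nat_lit 10947135025) (.one (nat_lit 8393139) .nil)),
   .two (nat_lit 156372041736) (nat_lit 19532873741) (.two (nat_lit 3464495108) (nat_lit 10942939194) (.two (nat_lit 4601151491) (nat_lit 746586910) (.two (nat_lit 4194304) (nat_lit 2994735364) (.one (nat_lit 185023337301) .nil)))),
   .two (nat_lit 159224168456) (nat_lit 174753579047) (.two (nat_lit 3458203651) (nat_lit 176161074) (.two (nat_lit 2097153) (nat_lit 156372042960) (.two (nat_lit 2097152) (nat_lit 16780170) (.one (nat_lit 158192374642) .nil)))),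
   .two (nat_lit 11551113224) (nat_lit 772800537) (.two (nat_lit 8388610) (nat_lit 28691136803) (.two (nat_lit 8388609) (nat_lit 235930737) (.two (nat_lit 8388608) (nat_lit 2100790) (.one (nat_lit 2101684) .nil)))),
   .two (nat_lit 16777224) (nat_lit 19093520394) (.two (nat_lit 1175453700) (nat_lit 16777241) (.two (nat_lit 184549379) (nat_lit 10906239326) (.two (nat_lit 8388609) (nat_lit 20704134346) (.two (nat_lit 8388608) (nat_lit 1051531) (.one (nat_lit 1392513938) .nil))))),
   .two (nat_lit 183848927240) (nat_lit 117440522) (.two (nat_lit 9781116932) (nat_lit 183848927258) (.two (nat_lit 13191086083) (nat_lit 721420573) (.two (nat_lit 37748737) (nat_lit 721420989) (.two (nat_lit 1048576) (nat_lit 272632127) (.one (nat_lit 4198837) .nil))))),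
   .two (nat_lit 75497480) (nat_lit 19529728010) (.two (nat_lit 9768534020) (nat_lit 10503585836) (.two (nat_lit 1178599427) (nat_lit 21207449976) (.two (nat_lit 4194305) (nat_lit 336594113) (.two (nat_lit 4194304) (nat_lit 1052215) (.one (nat_lit 202379362) .nil))))),
   .two (nat_lit 50331656) (nat_lit 157038936079) (.two (nat_lit 13203668996) (nat_lit 174755676214) (.two (nat_lit 10506731523) (nat_lit 2418016437) (.two (nat_lit 16777217) (nat_lit 1847592597) (.two (nat_lit 2097152) (nat_lit 16780172) (.one (nat_lit 16782354) .nil))))),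
   .two (nat_lit 1916796936) (nat_lit 9765388473) (.two (nat_lit 37748737) (nat_lit 11476665028) (.two (nat_lit 8388608) (nat_lit 34604571) (.one (nat_lit 1053113) .nil))),
   .two (nat_lit 11543773192) (nat_lit 12150898698) (.two (nat_lit 12117344260) (nat_lit 21811429415) (.two (nat_lit 12114198531) (nat_lit 13224640788) (.two (nat_lit 34603009) (nat_lit 4196000) (.two (nat_lit 1048576) (nat_lit 4197944) (.one (nat_lit 9966719001) .nil))))),
   .two (nat_lit 9781116936) (nat_lit 71303180) (.two (nat_lit 157038936068) (nat_lit 285212699) (.two (nat_lit 46409973762) (nat_lit 11492393140) (.two (nat_lit 4194305) (nat_lit 166144772846) (.one (nat_lit 16782355) .nil)))),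
   .two (nat_lit 12117344264) (nat_lit 158646403098) (.two (nat_lit 20637024258) (nat_lit 20707279141) (.two (nat_lit 606076929) (nat_lit 158075978913) (.two (nat_lit 2097152) (nat_lit 156566032221) .nil)))]

theorem k2 : chkL tab c2 (nat_lit 4200) = true := by decide +kernel

theorem l2 : c2.length = 2100 := by decide +kernel

end K5

end Pool.Agent.Work.MP_bf01b2_co.MR
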