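import Pool.Agent.Work.MP_bf01b2_co.MR.K5T

/-!
# Five roots in `Q_5`: certificates of the entries 6300 to 8399
-/

set_option autoImplicit false
set_option maxRecDepth 100000

namespace Pool.Agent.Work.MP_bf01b2_co.MR

namespace K5

open JT

/-- certificates of the entries 6300 to 8399 -/
def c3 : List Rc :=
  [.two (nat_lit 117440520) (nat_lit 20637024264) (.two (nat_lit 822083588) (nat_lit 775946288) (.two (nat_lit 605028355) (nat_lit 9881780925) (.two (nat_lit 4194304) (nat_lit 16780857) (.one (nat_lit 37313580266) .nil)))),
   .two (nat_lit 176160776) (nat_lit 2923429915) (.two (nat_lit 4194306) (nat_lit 109052246) (.two (nat_lit 8388609) (nat_lit 12050236629) (.two (nat_lit 8388608) (nat_lit 2889877682) (.one (nat_lit 4199444) .nil)))),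
   .two (nat_lit 612368392) (nat_lit 2954887189) (.two (nat_lit 3525312516) (nat_lit 1417674793) (.two (nat_lit 46978301955) (nat_lit 10007609732) (.two (nat_lit 2097153) (nat_lit 157043131082) (.two (nat_lit 2097152) (nat_lit 47588575516) (.one (nat_lit 2102293) .nil))))),
   .two (nat_lit 37748744) (nat_lit 18933088264) (.two (nat_lit 12054429700) (nat_lit 156535619635) (.two (nat_lit 156372041731) (nat_lit 156535619965) (.two (nat_lit 4194305) (nat_lit 2099491) (.one (nat_lit 4199446) .nil)))),
   .two (nat_lit 9768534024) (nat_lit 606076984) (.two (nat_lit 708837379) (nat_lit 3557818681) (.two (nat_lit 2097153) (nat_lit 12114199253) (.two (nat_lit 2097152) (nat_lit 4196735) (.one (nat_lit 11477717062) .nil)))),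
   .two (nat_lit 10385096712) (nat_lit 183853121626) (.two (nat_lit 1358954499) (nat_lit 679477747) (.two (nat_lit 2097153) (nat_lit 318770413) .nil)),
   .two (nat_lit 9866051592) (nat_lit 183853121561) (.two (nat_lit 156372041731) (nat_lit 185020186804) (.two (nat_lit 605028353) (nat_lit 28798091993) (.two (nat_lit 1048576) (nat_lit 2424309949) (.one (nat_lit 8393752) .nil)))),
   .two (nat_lit 4194312) (nat_lit 19597885455) (.two (nat_lit 4194308) (nat_lit 713031739) (.two (nat_lit 176160771) (nat_lit 12617515189) (.two (nat_lit 8388609) (nat_lit 46507492509) (.two (nat_lit 8388608) (nat_lit 158075980663) (.one (nat_lit 9966719364) .nil))))),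
   .two (nat_lit 822083592) (nat_lit 21785214986) (.two (nat_lit 50331652) (nat_lit 21785215014) (.two (nat_lit 612368387) (nat_lit 10552869665) (.two (nat_lit 1048576) (nat_lit 11593060429) .nil))),
   .two (nat_lit 11479810056) (nat_lit 673185802) (.two (nat_lit 1178599428) (nat_lit 673185831) (.two (nat_lit 9768534019) (nat_lit 47582282013) (.two (nat_lit 2097153) (nat_lit 11513365242) (.two (nat_lit 2097152) (nat_lit 156535621948) (.one (nat_lit 71307654) .nil))))),
   .two (nat_lit 13191086088) (nat_lit 37253808175) (.two (nat_lit 176160770) (nat_lit 9802088731) (.two (nat_lit 8388609) (nat_lit 843057880) (.one (nat_lit 4199449) .nil))),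
   .two (nat_lit 184993972232) (nat_lit 20704133165) (.two (nat_lit 12047089667) (nat_lit 3531605530) (.one (nat_lit 21818771968) .nil)),
   .two (nat_lit 176160776) (nat_lit 183848927276) (.two (nat_lit 8388611) (nat_lit 9936306529) (.two (nat_lit 9768534017) (nat_lit 739247227) (.two (nat_lit 8388608) (nat_lit 11543775916) (.one (nat_lit 1053722) .nil)))),
   .two (nat_lit 8388616) (nat_lit 3460300865) (.two (nat_lit 8388610) (nat_lit 11546919240) (.two (nat_lit 4194305) (nat_lit 8391207) (.two (nat_lit 8388608) (nat_lit 4197947) (.one (nat_lit 4199452) .nil)))),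
   .two (nat_lit 184986632202) (nat_lit 612368404) (.two (nat_lit 11476664324) (nat_lit 174759870549) (.two (nat_lit 638582787) (nat_lit 19597885622) (.two (nat_lit 156372041729) (nat_lit 157035791102) (.two (nat_lit 2097152) (nat_lit 9899608355) (.one (nat_lit 1053725) .nil))))),
   .two (nat_lit 639631368) (nat_lit 156372041736) (.two (nat_lit 9867100164) (nat_lit 9873391799) (.two (nat_lit 2097153) (nat_lit 9906948440) (.one (nat_lit 8393758) .nil))),
   .two (nat_lit 156367847432) (nat_lit 20652752950) (.two (nat_lit 18928893955) (nat_lit 37329306108) (.two (nat_lit 4194305) (nat_lit 37329307936) (.one (nat_lit 21793608068) .nil))),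
   .two (nat_lit 185020186637) (nat_lit 8388639) (.two (nat_lit 184993972230) (nat_lit 185020186667) (.two (nat_lit 184993972227) (nat_lit 3457155789) (.two (nat_lit 16777216) (nat_lit 19529730215) (.one (nat_lit 1053121) .nil)))),
   .two (nat_lit 28693233672) (nat_lit 158143086600) (.two (nat_lit 1779433476) (nat_lit 184419352977) (.two (nat_lit 9765388289) (nat_lit 3460301539) (.two (nat_lit 1048576) (nat_lit 21210598122) (.one (nat_lit 1913655375) .nil)))),
   .two (nat_lit 2902458376) (nat_lit 12048138294) (.two (nat_lit 9934209027) (nat_lit 21214789985) (.two (nat_lit 606076929) (nat_lit 28101837542) (.two (nat_lit 16777216) (nat_lit 8392252) (.one (nat_lit 8393759) .nil)))),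
   .two (nat_lit 158083317768) (nat_lit 10939793424) (.two (nat_lit 158083317764) (nat_lit 1048691) (.two (nat_lit 19596836867) (nat_lit 156573369080) (.two (nat_lit 1048576) (nat_lit 183853123854) (.one (nat_lit 10007612760) .nil)))),
   .two (nat_lit 2969567240) (nat_lit 673185802) (.two (nat_lit 11492392964) (nat_lit 1209008191) (.two (nat_lit 2097155) (nat_lit 184550076) (.two (nat_lit 16777216) (nat_lit 1052221) (.one (nat_lit 13188992311) .nil)))),
   .two (nat_lit 16777224) (nat_lit 4605345816) (.two (nat_lit 4605345796) (nat_lit 50332087) (.two (nat_lit 8388609) (nat_lit 822084401) (.two (nat_lit 8388608) (nat_lit 620760378) (.one (nat_lit 166203494860) .nil)))),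
   .two (nat_lit 3458203656) (nat_lit 19532873769) (.two (nat_lit 46407876612) (nat_lit 9802088887) (.two (nat_lit 2097153) (nat_lit 4196608) (.two (nat_lit 4194304) (nat_lit 156969734680) .nil))),
   .two (nat_lit 46414168072) (nat_lit 13224640555) (.two (nat_lit 13224640518) (nat_lit 37320917381) (.two (nat_lit 809500675) (nat_lit 3464495543) (.two (nat_lit 37748737) (nat_lit 12155095544) (.one (nat_lit 20640175240) .nil)))),
   .two (nat_lit 11479810056) (nat_lit 10343153700) (.two (nat_lit 11479810052) (nat_lit 20644364562) (.two (nat_lit 809500675) (nat_lit 21785215673) (.two (nat_lit 37748737) (nat_lit 713035087) (.one (nat_lit 239079879) .nil)))),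
   .two (nat_lit 2889875464) (nat_lit 37320917173) (.two (nat_lit 156372041731) (nat_lit 4195494) (.two (nat_lit 4194305) (nat_lit 158083320037) (.two (nat_lit 4194304) (nat_lit 8392596) (.one (nat_lit 4199712) .nil)))),
   .two (nat_lit 2969567240) (nat_lit 184993972248) (.two (nat_lit 620756996) (nat_lit 1753219889) (.two (nat_lit 8388608) (nat_lit 184431938038) (.one (nat_lit 9772732873) .nil))),
   .two (nat_lit 2889875464) (nat_lit 855638200) (.two (nat_lit 9948889091) (nat_lit 46510638239) (.two (nat_lit 9781116929) (nat_lit 3527410481) (.two (nat_lit 8388608) (nat_lit 788533701) .nil))),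
   .two (nat_lit 1178599432) (nat_lit 9881780663) (.two (nat_lit 37748737) (nat_lit 10351545579) (.one (nat_lit 10003418587) .nil)),
   .two (nat_lit 184549384) (nat_lit 47555018777) (.two (nat_lit 8388612) (nat_lit 2969567671) (.two (nat_lit 41943041) (nat_lit 28806483190) (.one (nat_lit 156481098200) .nil))),
   .two (nat_lit 75497480) (nat_lit 1358954523) (.two (nat_lit 75497476) (nat_lit 12062818602) (.two (nat_lit 1358954499) (nat_lit 46984594126) (.two (nat_lit 4194305) (nat_lit 12155095187) (.two (nat_lit 4194304) (nat_lit 12624858466) (.one (nat_lit 46980404265) .nil))))),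
   .two (nat_lit 754974728) (nat_lit 37246468136) (.two (nat_lit 10939793412) (nat_lit 754975159) (.two (nat_lit 9765388289) (nat_lit 285216218) .nil)),
   .two (nat_lit 1191182344) (nat_lit 19599982660) (.two (nat_lit 9781116931) (nat_lit 4195018) (.two (nat_lit 37748737) (nat_lit 1224739330) (.one (nat_lit 9969865164) .nil))),
   .two (nat_lit 721420296) (nat_lit 18925748287) (.two (nat_lit 2969567236) (nat_lit 47548727682) (.two (nat_lit 184549378) (nat_lit 13188990110) (.two (nat_lit 2097153) (nat_lit 1291849185) .nil))),
   .two (nat_lit 16777224) (nat_lit 4605345816) (.two (nat_lit 4605345796) (nat_lit 174701150937) (.two (nat_lit 8388609) (nat_lit 1426064932) (.two (nat_lit 4194304) (nat_lit 165540794844) .nil))),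
   .two (nat_lit 721420296) (nat_lit 1745879359) (.two (nat_lit 34603011) (nat_lit 16778033) (.two (nat_lit 1048576) (nat_lit 19094572267) (.one (nat_lit 1053985) .nil))),
   .two (nat_lit 10370416648) (nat_lit 1795162139) (.two (nat_lit 654311429) (nat_lit 13222543661) (.two (nat_lit 1277165570) (nat_lit 352322673) (.two (nat_lit 606076929) (nat_lit 285215381) (.two (nat_lit 16777216) (nat_lit 706744056) (.one (nat_lit 2902463525) .nil))))),
   .two (nat_lit 16777224) (nat_lit 3464495130) (.two (nat_lit 50331652) (nat_lit 4638900611) (.two (nat_lit 1795162115) (nat_lit 873464527) (.two (nat_lit 8388609) (nat_lit 2969570616) (.one (nat_lit 1954550234) .nil)))),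
   .two (nat_lit 184549384) (nat_lit 37320917341) (.two (nat_lit 8388611) (nat_lit 10015998689) (.two (nat_lit 8388609) (nat_lit 21827159617) (.two (nat_lit 1048576) (nat_lit 1350568436) (.one (nat_lit 37253813287) .nil)))),
   .two (nat_lit 184549384) (nat_lit 1753219511) (.two (nat_lit 16777217) (nat_lit 13228838224) (.one (nat_lit 3565162955) .nil)),
   .two (nat_lit 11492392968) (nat_lit 158653743149) (.two (nat_lit 721420292) (nat_lit 174759870813) (.two (nat_lit 41943043) (nat_lit 19142804193) (.two (nat_lit 2097153) (nat_lit 13228836386) (.two (nat_lit 2097152) (nat_lit 1283460420) (.one (nat_lit 2102562) .nil))))),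
   .two (nat_lit 16777224) (nat_lit 9936306237) (.two (nat_lit 4194308) (nat_lit 158662132447) (.two (nat_lit 4194305) (nat_lit 2954888750) (.two (nat_lit 4194304) (nat_lit 12617519566) .nil))),
   .two (nat_lit 822083592) (nat_lit 9798942767) (.two (nat_lit 1779433476) (nat_lit 13237223492) (.two (nat_lit 101711875) (nat_lit 21793604338) (.two (nat_lit 605028353) (nat_lit 19142804274) (.two (nat_lit 1048576) (nat_lit 16781205) (.one (nat_lit 1053987) .nil))))),
   .two (nat_lit 16777224) (nat_lit 675283003) (.two (nat_lit 11492392964) (nat_lit 272630056) (.two (nat_lit 171966467) (nat_lit 9814672089) (.two (nat_lit 37748737) (nat_lit 12633245234) (.two (nat_lit 8388608) (nat_lit 9768538595) .nil)))),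
   .two (nat_lit 46980399112) (nat_lit 606076991) (.two (nat_lit 20738736134) (nat_lit 184989778258) (.two (nat_lit 2097155) (nat_lit 157038936503) (.two (nat_lit 2097153) (nat_lit 28793900512) .nil))),
   .two (nat_lit 4194312) (nat_lit 184993972292) (.two (nat_lit 34603011) (nat_lit 47550824889) (.two (nat_lit 34603009) (nat_lit 157036840478) (.two (nat_lit 1048576) (nat_lit 11010051310) (.one (nat_lit 1846546917) .nil)))),
   .two (nat_lit 11543773192) (nat_lit 889192516) (.two (nat_lit 11559501827) (nat_lit 1410335523) (.two (nat_lit 2097153) (nat_lit 10503587355) (.two (nat_lit 2097152) (nat_lit 37262199288) (.one (nat_lit 1053988) .nil)))),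
   .two (nat_lit 742391816) (nat_lit 46514831668) (.two (nat_lit 1344274435) (nat_lit 1182794483) (.two (nat_lit 37748737) (nat_lit 13195283720) (.one (nat_lit 157038940616) .nil))),
   .two (nat_lit 165526110216) (nat_lit 19612565551) (.two (nat_lit 11559501828) (nat_lit 158176641395) (.two (nat_lit 2097155) (nat_lit 21827158739) (.two (nat_lit 2097153) (nat_lit 11476665904) (.two (nat_lit 2097152) (nat_lit 166196154103) (.one (nat_lit 1053989) .nil))))),
   .two (nat_lit 620757000) (nat_lit 1947205673) (.two (nat_lit 156367847428) (nat_lit 21777875279) (.two (nat_lit 83886083) (nat_lit 46977254132) (.two (nat_lit 4194305) (nat_lit 47581235400) (.two (nat_lit 4194304) (nat_lit 46473940767) (.one (nat_lit 47584384116) .nil))))),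
   .two (nat_lit 4194312) (nat_lit 166230753338) (.two (nat_lit 612368388) (nat_lit 3020947636) (.two (nat_lit 620756995) (nat_lit 168821438) (.two (nat_lit 50331649) (nat_lit 1343228044) (.two (nat_lit 16777216) (nat_lit 1276121640) .nil)))),
   .two (nat_lit 13195280392) (nat_lit 11610882088) (.two (nat_lit 13195280388) (nat_lit 37247517385) (.two (nat_lit 8388609) (nat_lit 19597887009) (.two (nat_lit 1048576) (nat_lit 174753582350) (.one (nat_lit 2102566) .nil)))),
   .two (nat_lit 183848927240) (nat_lit 1209008187) (.two (nat_lit 19599982596) (nat_lit 1049072) (.two (nat_lit 13187940355) (nat_lit 166232852002) (.two (nat_lit 1048576) (nat_lit 1749027328) (.one (nat_lit 1053991) .nil)))),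
   .two (nat_lit 184549384) (nat_lit 10436476973) (.two (nat_lit 620756996) (nat_lit 9765388762) (.two (nat_lit 11543773187) (nat_lit 184549815) (.two (nat_lit 34603009) (nat_lit 28705819140) (.one (nat_lit 11476668905) .nil)))),
   .two (nat_lit 3464495112) (nat_lit 1950351406) (.two (nat_lit 16777220) (nat_lit 28798091448) (.two (nat_lit 176160771) (nat_lit 158192370387) (.two (nat_lit 4194305) (nat_lit 11551114776) (.two (nat_lit 8388608) (nat_lit 272634431) .nil)))),
   .two (nat_lit 11543773192) (nat_lit 158083317801) (.two (nat_lit 705691652) (nat_lit 1417675191) (.two (nat_lit 2097153) (nat_lit 156539816441) (.one (nat_lit 28691141144) .nil))),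
   .two (nat_lit 20637024265) (nat_lit 3464495130) (.two (nat_lit 10343153668) (nat_lit 166196150560) (.two (nat_lit 165532401667) (nat_lit 21811430138) (.two (nat_lit 156372041729) (nat_lit 166196151090) (.two (nat_lit 8388608) (nat_lit 47581236576) (.one (nat_lit 8393309) .nil))))),
   .two (nat_lit 3464495112) (nat_lit 11479810142) (.two (nat_lit 612368388) (nat_lit 159266111556) (.two (nat_lit 176160770) (nat_lit 20652753647) (.two (nat_lit 8388609) (nat_lit 11580474908) (.two (nat_lit 4194304) (nat_lit 13203673585) .nil)))),
   .two (nat_lit 46407876616) (nat_lit 18933088529) (.two (nat_lit 184993972227) (nat_lit 10369368805) (.two (nat_lit 156364701697) (nat_lit 10443818528) (.two (nat_lit 1048576) (nat_lit 20745030138) (.one (nat_lit 8393311) .nil)))),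
   .two (nat_lit 203423752) (nat_lit 19532873908) (.two (nat_lit 2954887171) (nat_lit 10506731959) (.two (nat_lit 2097153) (nat_lit 11614030325) (.one (nat_lit 1749029463) .nil))),
   .two (nat_lit 47555018760) (nat_lit 19027460122) (.two (nat_lit 19530776580) (nat_lit 47555019191) (.two (nat_lit 156365750273) (nat_lit 46414170611) (.one (nat_lit 46407881179) .nil))),
   .two (nat_lit 135266314) (nat_lit 2317353000) (.two (nat_lit 157036838916) (nat_lit 10552869212) (.two (nat_lit 2097155) (nat_lit 1358956054) (.two (nat_lit 2097152) (nat_lit 16781208) (.one (nat_lit 2102568) .nil)))),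
   .two (nat_lit 10385096712) (nat_lit 12047089690) (.two (nat_lit 117440516) (nat_lit 3557819085) (.two (nat_lit 34603009) (nat_lit 9948891633) (.one (nat_lit 1947210273) .nil))),
   .two (nat_lit 18933088264) (nat_lit 10955522234) (.two (nat_lit 156372041731) (nat_lit 174768259804) (.two (nat_lit 41943041) (nat_lit 11559504012) (.two (nat_lit 4194304) (nat_lit 2969570574) (.one (nat_lit 16781920) .nil)))),
   .two (nat_lit 272629768) (nat_lit 10436476970) (.two (nat_lit 37748740) (nat_lit 10436477367) (.two (nat_lit 4194305) (nat_lit 873465398) (.two (nat_lit 2097152) (nat_lit 156364704251) (.one (nat_lit 1053993) .nil)))),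
   .two (nat_lit 2889875464) (nat_lit 183853121815) (.two (nat_lit 8388610) (nat_lit 12050236112) (.two (nat_lit 4194305) (nat_lit 880806385) (.one (nat_lit 41947728) .nil))),
   .two (nat_lit 2969567240) (nat_lit 673185829) (.two (nat_lit 157036838916) (nat_lit 9948889527) (.two (nat_lit 2097153) (nat_lit 11022633474) (.one (nat_lit 46992986611) .nil))),
   .two (nat_lit 9781116936) (nat_lit 10506731547) (.two (nat_lit 9781116932) (nat_lit 71303885) (.two (nat_lit 16777217) (nat_lit 4030729527) (.one (nat_lit 4199722) .nil))),
   .two (nat_lit 83886088) (nat_lit 19130220587) (.two (nat_lit 185002360836) (nat_lit 9768534484) (.two (nat_lit 28758245379) (nat_lit 11513365182) (.two (nat_lit 50331649) (nat_lit 2956985901) (.two (nat_lit 2097152) (nat_lit 9802093096) .nil)))),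
   .two (nat_lit 4601151496) (nat_lit 20644364313) (.two (nat_lit 10385096708) (nat_lit 775946552) (.two (nat_lit 156372041731) (nat_lit 272630517) (.two (nat_lit 41943041) (nat_lit 9881782784) (.one (nat_lit 16782635) .nil)))),
   .two (nat_lit 205520904) (nat_lit 28758245412) (.two (nat_lit 205520900) (nat_lit 10336862507) (.two (nat_lit 2889875458) (nat_lit 159250383595) (.two (nat_lit 156365750273) (nat_lit 4196609) (.two (nat_lit 1048576) (nat_lit 4198297) (.one (nat_lit 37246472706) .nil))))),
   .two (nat_lit 46409973768) (nat_lit 117440548) (.two (nat_lit 46409973764) (nat_lit 16777713) (.two (nat_lit 4601151491) (nat_lit 16778407) (.two (nat_lit 4194305) (nat_lit 16779992) (.two (nat_lit 4194304) (nat_lit 83889987) (.one (nat_lit 205525505) .nil))))),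
   .two (nat_lit 156372041736) (nat_lit 83886123) (.two (nat_lit 1753219076) (nat_lit 185002361321) (.two (nat_lit 183853121539) (nat_lit 16778408) (.two (nat_lit 8388609) (nat_lit 654313612) (.two (nat_lit 4194304) (nat_lit 9814676043) .nil)))),
   .two (nat_lit 654311432) (nat_lit 11513364520) (.two (nat_lit 2902458372) (nat_lit 184419353015) (.two (nat_lit 16777217) (nat_lit 47584382269) (.one (nat_lit 4199726) .nil))),
   .two (nat_lit 1358954504) (nat_lit 156566028470) (.two (nat_lit 9881780227) (nat_lit 1049769) (.two (nat_lit 50331649) (nat_lit 156465367279) (.two (nat_lit 1048576) (nat_lit 352324909) (.one (nat_lit 218109015) .nil)))),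
   .two (nat_lit 50331656) (nat_lit 847249435) (.two (nat_lit 754974724) (nat_lit 159250383030) (.two (nat_lit 156372041731) (nat_lit 20737688294) (.two (nat_lit 41943041) (nat_lit 159216829980) (.two (nat_lit 1048576) (nat_lit 16780647) (.one (nat_lit 1053999) .nil))))),
   .two (nat_lit 101711880) (nat_lit 2894069820) (.two (nat_lit 101711876) (nat_lit 8389106) (.two (nat_lit 11476664322) (nat_lit 3028288194) (.two (nat_lit 34603009) (nat_lit 343935473) (.one (nat_lit 8393313) .nil)))),
   .two (nat_lit 9948889096) (nat_lit 156466413616) (.two (nat_lit 46407876612) (nat_lit 9814671801) (.two (nat_lit 2097153) (nat_lit 620757809) (.two (nat_lit 8388608) (nat_lit 20737692198) .nil))),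
   .two (nat_lit 156372041736) (nat_lit 28693234103) (.two (nat_lit 8388609) (nat_lit 9936309483) (.one (nat_lit 37753290) .nil)),
   .two (nat_lit 2969567240) (nat_lit 18933088299) (.two (nat_lit 184549380) (nat_lit 156372042167) (.two (nat_lit 8388609) (nat_lit 158091708923) (.one (nat_lit 12062822894) .nil))),
   .two (nat_lit 1291845640) (nat_lit 4638900272) (.two (nat_lit 1350565892) (nat_lit 9881780663) (.two (nat_lit 41943041) (nat_lit 1279266131) (.one (nat_lit 4199728) .nil))),
   .two (nat_lit 11492392968) (nat_lit 156971827639) (.two (nat_lit 50331649) (nat_lit 46409975978) (.two (nat_lit 4194304) (nat_lit 46992985566) .nil)),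
   .two (nat_lit 4601151496) (nat_lit 156365750331) (.two (nat_lit 169869316) (nat_lit 157038936243) (.two (nat_lit 2097155) (nat_lit 28793897679) (.two (nat_lit 2097153) (nat_lit 339740226) (.two (nat_lit 1048576) (nat_lit 46508542452) (.one (nat_lit 183912894943) .nil))))),
   .two (nat_lit 169869320) (nat_lit 9936306230) (.two (nat_lit 705691652) (nat_lit 11479810397) (.two (nat_lit 705691650) (nat_lit 9982444271) (.two (nat_lit 9768534017) (nat_lit 10519316727) (.two (nat_lit 1048576) (nat_lit 9934212368) (.one (nat_lit 156466418251) .nil))))),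
   .two (nat_lit 620757000) (nat_lit 18933088296) (.two (nat_lit 1753219076) (nat_lit 156380430629) (.two (nat_lit 156372041731) (nat_lit 11559502264) (.two (nat_lit 41943041) (nat_lit 11559504369) (.one (nat_lit 16781922) .nil)))),
   .two (nat_lit 620757000) (nat_lit 183853121562) (.two (nat_lit 620756996) (nat_lit 11014242693) (.two (nat_lit 620756995) (nat_lit 209715941) (.two (nat_lit 41943041) (nat_lit 158091707935) (.two (nat_lit 8388608) (nat_lit 16781212) (.one (nat_lit 8393786) .nil))))),
   .two (nat_lit 654311432) (nat_lit 19094569255) (.two (nat_lit 2902458370) (nat_lit 9766437589) (.two (nat_lit 2097153) (nat_lit 822085850) (.two (nat_lit 2097152) (nat_lit 202379730) .nil))),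
   .two (nat_lit 9781116936) (nat_lit 4601151556) (.two (nat_lit 11492392962) (nat_lit 156566028729) (.two (nat_lit 37748737) (nat_lit 9933162021) (.two (nat_lit 1048576) (nat_lit 205524741) (.one (nat_lit 11543778606) .nil)))),
   .two (nat_lit 754974728) (nat_lit 4634706359) (.two (nat_lit 9781116929) (nat_lit 158649551351) (.one (nat_lit 4030730744) .nil)),
   .two (nat_lit 184549384) (nat_lit 46510637083) (.two (nat_lit 2902458372) (nat_lit 306184886) (.two (nat_lit 16777217) (nat_lit 12050236994) (.two (nat_lit 16777216) (nat_lit 4198302) (.one (nat_lit 21781025990) .nil)))),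
   .two (nat_lit 169869320) (nat_lit 13203669045) (.two (nat_lit 50331652) (nat_lit 1914700086) (.two (nat_lit 705691650) (nat_lit 35652293) (.two (nat_lit 16777217) (nat_lit 158144136724) (.two (nat_lit 16777216) (nat_lit 2101151) (.one (nat_lit 9781122113) .nil))))),
   .two (nat_lit 19530776584) (nat_lit 10921967945) (.two (nat_lit 157036838915) (nat_lit 46422557405) (.two (nat_lit 9766436865) (nat_lit 1325402619) (.one (nat_lit 156548207109) .nil))),
   .two (nat_lit 50331656) (nat_lit 2990538816) (.two (nat_lit 822083588) (nat_lit 104858318) (.two (nat_lit 4194305) (nat_lit 16779761) (.one (nat_lit 11580477935) .nil))),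
   .two (nat_lit 11559501832) (nat_lit 135266744) (.two (nat_lit 34603009) (nat_lit 10016000522) (.one (nat_lit 10503590423) .nil)),
   .two (nat_lit 41943048) (nat_lit 1795162551) (.two (nat_lit 8388609) (nat_lit 183861513440) (.one (nat_lit 166237048283) .nil)),
   .two (nat_lit 184549384) (nat_lit 1916796967) (.two (nat_lit 184549380) (nat_lit 809500991) (.two (nat_lit 156364701699) (nat_lit 11513365181) (.two (nat_lit 34603009) (nat_lit 16779524) (.two (nat_lit 16777216) (nat_lit 336596299) (.one (nat_lit 1054002) .nil))))),
   .two (nat_lit 203423752) (nat_lit 2994733082) (.two (nat_lit 47582281734) (nat_lit 37253808313) (.two (nat_lit 2954887171) (nat_lit 47555019191) (.two (nat_lit 2097153) (nat_lit 12155094566) (.two (nat_lit 2097152) (nat_lit 28093451606) (.one (nat_lit 2102579) .nil))))),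
   .two (nat_lit 620757000) (nat_lit 9974054939) (.two (nat_lit 159224168454) (nat_lit 11626611027) (.two (nat_lit 159224168451) (nat_lit 2936013974) (.two (nat_lit 156372041729) (nat_lit 822085871) (.two (nat_lit 8388608) (nat_lit 16780649) (.one (nat_lit 16782644) .nil))))),
   .two (nat_lit 8388616) (nat_lit 3003121714) (.two (nat_lit 9881780228) (nat_lit 8388676) (.two (nat_lit 83886083) (nat_lit 1417675445) (.two (nat_lit 16777217) (nat_lit 880806128) (.two (nat_lit 1048576) (nat_lit 18941480163) (.one (nat_lit 1054005) .nil))))),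
   .two (nat_lit 11479810056) (nat_lit 183853121562) (.two (nat_lit 13224640518) (nat_lit 18933088696) (.two (nat_lit 37748737) (nat_lit 183853123095) (.two (nat_lit 4194304) (nat_lit 158150429173) (.one (nat_lit 8394038) .nil)))),
   .two (nat_lit 184986632200) (nat_lit 156468510758) (.two (nat_lit 184986632196) (nat_lit 28089254205) (.two (nat_lit 12047089667) (nat_lit 4195499) (.two (nat_lit 612368385) (nat_lit 235932982) (.one (nat_lit 1054007) .nil)))),
   .two (nat_lit 11479810056) (nat_lit 165532401705) (.two (nat_lit 156372041732) (nat_lit 1916797368) (.two (nat_lit 37748737) (nat_lit 18933091673) (.one (nat_lit 2990543303) .nil))),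
   .two (nat_lit 2969567240) (nat_lit 156533522500) (.two (nat_lit 2887778306) (nat_lit 16778412) (.two (nat_lit 620756993) (nat_lit 606079160) (.two (nat_lit 16777216) (nat_lit 874516276) (.one (nat_lit 9766442256) .nil)))),
   .two (nat_lit 16777224) (nat_lit 4034920496) (.two (nat_lit 1753219076) (nat_lit 620757331) (.two (nat_lit 12121538563) (nat_lit 2432697116) (.two (nat_lit 41943041) (nat_lit 1862272561) (.two (nat_lit 1048576) (nat_lit 9934212321) (.one (nat_lit 8394040) .nil))))),
   .two (nat_lit 16777224) (nat_lit 28693233690) (.two (nat_lit 4613734404) (nat_lit 156971827639) (.two (nat_lit 16777217) (nat_lit 171968026) (.two (nat_lit 1048576) (nat_lit 2353007104) (.one (nat_lit 16782649) .nil)))),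
   .two (nat_lit 156367847432) (nat_lit 158177689784) (.two (nat_lit 46409973762) (nat_lit 11007951287) (.two (nat_lit 4194305) (nat_lit 69208565) (.one (nat_lit 2102586) .nil))),
   .two (nat_lit 156367847432) (nat_lit 46474985499) (.two (nat_lit 157038936068) (nat_lit 11007951287) (.two (nat_lit 4194305) (nat_lit 69208565) (.one (nat_lit 46474990121) .nil))),
   .two (nat_lit 721420296) (nat_lit 3457155123) (.two (nat_lit 1358954500) (nat_lit 2953838907) (.two (nat_lit 11559501827) (nat_lit 184416207621) (.two (nat_lit 50331649) (nat_lit 873467228) (.one (nat_lit 183928622559) .nil)))),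
   .two (nat_lit 2902458376) (nat_lit 10907287595) (.two (nat_lit 654311428) (nat_lit 673186231) (.two (nat_lit 2097153) (nat_lit 11559505379) .nil)),
   .two (nat_lit 11559501832) (nat_lit 1309671472) (.two (nat_lit 157036838916) (nat_lit 10552869212) (.two (nat_lit 218103811) (nat_lit 11544822201) (.two (nat_lit 2097153) (nat_lit 10452209120) .nil))),
   .two (nat_lit 754974728) (nat_lit 9899606054) (.two (nat_lit 21207449604) (nat_lit 251658973) (.two (nat_lit 34603009) (nat_lit 754978095) (.one (nat_lit 1054011) .nil))),
   .two (nat_lit 809500680) (nat_lit 35651678) (.two (nat_lit 46407876612) (nat_lit 12117344525) (.two (nat_lit 183845781506) (nat_lit 1849689206) (.two (nat_lit 34603009) (nat_lit 2954889902) (.two (nat_lit 4194304) (nat_lit 10538192671) (.one (nat_lit 21778928147) .nil))))),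
   .two (nat_lit 184549384) (nat_lit 1847590937) (.two (nat_lit 9948889092) (nat_lit 46508540662) (.two (nat_lit 2097153) (nat_lit 46992984571) (.one (nat_lit 9982448182) .nil))),
   .two (nat_lit 822083592) (nat_lit 10000269355) (.two (nat_lit 47563407364) (nat_lit 102760748) (.two (nat_lit 2097155) (nat_lit 3036676887) (.two (nat_lit 34603009) (nat_lit 184417257693) (.two (nat_lit 1048576) (nat_lit 2100587) (.one (nat_lit 1054012) .nil))))),
   .two (nat_lit 822083592) (nat_lit 1212153897) (.two (nat_lit 156367847428) (nat_lit 158091706663) (.two (nat_lit 46409973762) (nat_lit 754975159) (.two (nat_lit 4194305) (nat_lit 721422832) (.one (nat_lit 3539996127) .nil)))),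
   .two (nat_lit 101711880) (nat_lit 165528207401) (.two (nat_lit 50331652) (nat_lit 1209008313) (.two (nat_lit 721420290) (nat_lit 166196150965) (.two (nat_lit 50331649) (nat_lit 21814576688) (.two (nat_lit 4194304) (nat_lit 1052578) (.one (nat_lit 158649553467) .nil))))),
   .two (nat_lit 166132187144) (nat_lit 50331935) (.two (nat_lit 2902458371) (nat_lit 19532874167) (.two (nat_lit 16777217) (nat_lit 47550827756) (.one (nat_lit 9781121614) .nil))),
   .two (nat_lit 754974728) (nat_lit 2953838641) (.two (nat_lit 276824068) (nat_lit 754975160) (.two (nat_lit 8388609) (nat_lit 18941478460) (.two (nat_lit 1048576) (nat_lit 8392611) (.one (nat_lit 8394045) .nil)))),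
   .two (nat_lit 169869320) (nat_lit 156535619627) (.two (nat_lit 37748740) (nat_lit 158143086772) (.two (nat_lit 2097155) (nat_lit 138412763) (.two (nat_lit 2097153) (nat_lit 1209009719) (.two (nat_lit 2097152) (nat_lit 12121541113) (.one (nat_lit 8394046) .nil))))),
   .two (nat_lit 16777224) (nat_lit 18933088296) (.two (nat_lit 1753219076) (nat_lit 50332088) (.two (nat_lit 41943041) (nat_lit 822084401) (.two (nat_lit 8388608) (nat_lit 10351544834) (.one (nat_lit 16781923) .nil)))),
   .two (nat_lit 813694984) (nat_lit 183949590553) (.two (nat_lit 612368388) (nat_lit 10504634674) (.two (nat_lit 8388610) (nat_lit 158077027048) (.two (nat_lit 8388609) (nat_lit 174755677737) (.two (nat_lit 2097152) (nat_lit 675285497) (.one (nat_lit 4199012) .nil))))),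
   .two (nat_lit 1191182344) (nat_lit 166129041458) (.two (nat_lit 754974724) (nat_lit 2416967748) (.two (nat_lit 11476664322) (nat_lit 822085139) (.two (nat_lit 1048576) (nat_lit 3003124976) (.one (nat_lit 2953843169) .nil)))),
   .two (nat_lit 754974728) (nat_lit 37313576987) (.two (nat_lit 754974724) (nat_lit 10000269601) (.two (nat_lit 176160771) (nat_lit 721421480) (.two (nat_lit 41943041) (nat_lit 1761609975) (.two (nat_lit 1048576) (nat_lit 16781220) (.one (nat_lit 1054016) .nil))))),
   .two (nat_lit 9781116936) (nat_lit 71303214) (.two (nat_lit 654311428) (nat_lit 2424308185) (.two (nat_lit 41943043) (nat_lit 12633244409) (.two (nat_lit 16777217) (nat_lit 343936270) (.one (nat_lit 166237049419) .nil)))),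
   .two (nat_lit 276824072) (nat_lit 158144135211) (.two (nat_lit 169869316) (nat_lit 11618222361) (.two (nat_lit 209715203) (nat_lit 166230753978) (.two (nat_lit 9765388289) (nat_lit 3021997624) (.two (nat_lit 8388608) (nat_lit 1052012) (.one (nat_lit 11610886663) .nil))))),
   .two (nat_lit 4605345800) (nat_lit 9966714923) (.two (nat_lit 205520900) (nat_lit 8388957) (.two (nat_lit 2889875458) (nat_lit 1049775) (.two (nat_lit 41943041) (nat_lit 185002363127) (.two (nat_lit 4194304) (nat_lit 1779436816) (.one (nat_lit 11510223435) .nil))))),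
   .two (nat_lit 4194312) (nat_lit 243269684) (.two (nat_lit 11543773188) (nat_lit 1212154186) (.two (nat_lit 41943043) (nat_lit 4195504) (.two (nat_lit 34603009) (nat_lit 157043132626) (.two (nat_lit 1048576) (nat_lit 8392616) (.one (nat_lit 1054017) .nil))))),
   .two (nat_lit 822083592) (nat_lit 9802088489) (.two (nat_lit 822083588) (nat_lit 272630531) (.two (nat_lit 16777217) (nat_lit 156468514048) (.one (nat_lit 16781925) .nil))),
   .two (nat_lit 184993972232) (nat_lit 4598006133) (.two (nat_lit 176160770) (nat_lit 10001318602) (.two (nat_lit 8388609) (nat_lit 9799993595) (.two (nat_lit 2097152) (nat_lit 235932909) (.one (nat_lit 1054018) .nil)))),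
   .two (nat_lit 83886088) (nat_lit 19537068342) (.two (nat_lit 620756995) (nat_lit 3464496291) (.two (nat_lit 41943041) (nat_lit 184431937062) (.two (nat_lit 2097152) (nat_lit 8392045) (.one (nat_lit 159257728102) .nil)))),
   .two (nat_lit 809500680) (nat_lit 20644364313) (.two (nat_lit 37748740) (nat_lit 1417674931) (.two (nat_lit 9934209027) (nat_lit 166203491067) (.two (nat_lit 4194305) (nat_lit 184417257638) (.two (nat_lit 4194304) (nat_lit 21812481817) (.one (nat_lit 2102595) .nil))))),
   .two (nat_lit 10385096712) (nat_lit 4028629034) (.two (nat_lit 3458203652) (nat_lit 156380430777) (.two (nat_lit 2097153) (nat_lit 1191183895) (.two (nat_lit 4194304) (nat_lit 1780485347) (.one (nat_lit 16782660) .nil)))),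
   .two (nat_lit 47555018765) (nat_lit 19599982635) (.two (nat_lit 343932933) (nat_lit 156971827639) (.two (nat_lit 8388609) (nat_lit 171968025) (.two (nat_lit 4194304) (nat_lit 166136386023) .nil))),
   .two (nat_lit 4194312) (nat_lit 3028287515) (.two (nat_lit 8388612) (nat_lit 2990539231) (.two (nat_lit 183848927235) (nat_lit 1049777) (.two (nat_lit 4194305) (nat_lit 21818771644) (.two (nat_lit 4194304) (nat_lit 8392046) (.one (nat_lit 4199015) .nil))))),
   .two (nat_lit 218103816) (nat_lit 11477712944) (.two (nat_lit 1847590916) (nat_lit 156481094362) (.two (nat_lit 9766436865) (nat_lit 19142806793) (.one (nat_lit 16782661) .nil))),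
   .two (nat_lit 4613734408) (nat_lit 11513364505) (.two (nat_lit 11479810052) (nat_lit 352321604) (.two (nat_lit 809500675) (nat_lit 156548203250) (.two (nat_lit 34603009) (nat_lit 166199297564) (.two (nat_lit 1048576) (nat_lit 2956987749) (.one (nat_lit 2956989016) .nil))))),
   .two (nat_lit 117440520) (nat_lit 183912890436) (.two (nat_lit 11543773187) (nat_lit 1191183034) (.two (nat_lit 620756993) (nat_lit 1051353) (.two (nat_lit 1048576) (nat_lit 16781226) (.one (nat_lit 269488649) .nil)))),
   .two (nat_lit 3464495112) (nat_lit 10439622704) (.two (nat_lit 156367847428) (nat_lit 1384120812) (.two (nat_lit 46414168066) (nat_lit 641729237) (.two (nat_lit 156367847425) (nat_lit 168822968) (.two (nat_lit 4194304) (nat_lit 1052587) (.one (nat_lit 4199750) .nil))))),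
   .two (nat_lit 13203669000) (nat_lit 9802088492) (.two (nat_lit 46978301956) (nat_lit 1413480741) (.two (nat_lit 203423747) (nat_lit 46992982731) (.two (nat_lit 2097153) (nat_lit 12062820596) (.two (nat_lit 16777216) (nat_lit 4198316) (.one (nat_lit 4199751) .nil))))),
   .two (nat_lit 809500680) (nat_lit 3558867009) (.two (nat_lit 4601151492) (nat_lit 1948254518) (.two (nat_lit 50331651) (nat_lit 174755676601) (.two (nat_lit 50331649) (nat_lit 270534876) (.two (nat_lit 16777216) (nat_lit 1346375020) (.one (nat_lit 16782664) .nil))))),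
   .two (nat_lit 9781116936) (nat_lit 806354971) (.two (nat_lit 169869316) (nat_lit 12155093744) (.two (nat_lit 34603009) (nat_lit 12062819893) (.two (nat_lit 16777216) (nat_lit 2100591) (.one (nat_lit 16781928) .nil)))),
   .two (nat_lit 19530776584) (nat_lit 174752530513) (.two (nat_lit 166130089988) (nat_lit 156465365280) (.two (nat_lit 9934209027) (nat_lit 185020187386) (.two (nat_lit 156365750273) (nat_lit 11476666527) (.two (nat_lit 1048576) (nat_lit 184987684072) (.one (nat_lit 2102601) .nil))))),
   .two (nat_lit 2969567240) (nat_lit 1210056770) (.two (nat_lit 21208498180) (nat_lit 158091707137) (.two (nat_lit 16777217) (nat_lit 174755679555) (.one (nat_lit 1279267948) .nil))),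
   .two (nat_lit 184549384) (nat_lit 10372513856) (.two (nat_lit 2889875460) (nat_lit 10552869637) (.two (nat_lit 9768534017) (nat_lit 16779995) (.two (nat_lit 4194304) (nat_lit 16780657) (.one (nat_lit 158662137066) .nil)))),
   .two (nat_lit 4194312) (nat_lit 2961178712) (.two (nat_lit 1343225860) (nat_lit 13188989111) (.two (nat_lit 806354947) (nat_lit 37316723407) (.two (nat_lit 34603009) (nat_lit 1312819346) (.two (nat_lit 4194304) (nat_lit 8392623) (.one (nat_lit 8394060) .nil))))),
   .two (nat_lit 272629768) (nat_lit 46473937194) (.two (nat_lit 47550824451) (nat_lit 754975464) (.two (nat_lit 605028353) (nat_lit 4196615) (.two (nat_lit 16777216) (nat_lit 46477085955) (.one (nat_lit 16781929) .nil)))),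
   .two (nat_lit 46978301960) (nat_lit 10372513852) (.two (nat_lit 83886084) (nat_lit 2350907727) (.two (nat_lit 46409973762) (nat_lit 10538189506) (.two (nat_lit 4194305) (nat_lit 16779932) (.two (nat_lit 16777216) (nat_lit 1212157184) (.one (nat_lit 16782669) .nil))))),
   .two (nat_lit 9934209032) (nat_lit 19532873768) (.two (nat_lit 47548727300) (nat_lit 28693234104) (.two (nat_lit 2097153) (nat_lit 1916797746) (.two (nat_lit 2097152) (nat_lit 1279265286) (.one (nat_lit 166199301330) .nil)))),
   .two (nat_lit 11559501832) (nat_lit 135266348) (.two (nat_lit 21207449604) (nat_lit 11559502641) (.two (nat_lit 1048576) (nat_lit 721422832) (.one (nat_lit 10016002608) .nil))),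
   .two (nat_lit 1191182344) (nat_lit 9802088516) (.two (nat_lit 4194306) (nat_lit 2969567929) (.two (nat_lit 4194305) (nat_lit 21827160227) (.two (nat_lit 4194304) (nat_lit 21827161353) (.one (nat_lit 4199758) .nil)))),
   .two (nat_lit 159217877000) (nat_lit 9772728366) (.two (nat_lit 158083317764) (nat_lit 13188989221) (.two (nat_lit 21785214979) (nat_lit 11007951616) (.two (nat_lit 156372041729) (nat_lit 184417257985) (.one (nat_lit 2102607) .nil)))),
   .two (nat_lit 2889875464) (nat_lit 156567076904) (.two (nat_lit 9768534020) (nat_lit 270532994) (.two (nat_lit 2954887171) (nat_lit 166203491472) (.two (nat_lit 2097153) (nat_lit 2353007847) (.one (nat_lit 158144139726) .nil)))),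
   .two (nat_lit 822083597) (nat_lit 12117344299) (.two (nat_lit 13224640517) (nat_lit 11492393247) (.two (nat_lit 822083587) (nat_lit 184419353015) (.two (nat_lit 37748737) (nat_lit 2936014367) (.two (nat_lit 4194304) (nat_lit 16781232) (.one (nat_lit 4199760) .nil))))),
   .two (nat_lit 4194312) (nat_lit 47555018777) (.two (nat_lit 4194308) (nat_lit 158183981348) (.two (nat_lit 2097155) (nat_lit 13224641694) (.two (nat_lit 41943041) (nat_lit 12150900958) (.two (nat_lit 2097152) (nat_lit 12155096427) (.one (nat_lit 159251436137) .nil))))),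
   .two (nat_lit 41943048) (nat_lit 11610882074) (.two (nat_lit 68157444) (nat_lit 183947493749) (.two (nat_lit 9933160451) (nat_lit 156969730762) (.two (nat_lit 4194305) (nat_lit 672138776) (.two (nat_lit 2097152) (nat_lit 2319453486) (.one (nat_lit 4199761) .nil))))),
   .two (nat_lit 4194312) (nat_lit 13195280563) (.two (nat_lit 4194306) (nat_lit 1853883528) (.two (nat_lit 4194305) (nat_lit 1309673972) (.one (nat_lit 4199762) .nil))),
   .two (nat_lit 28693233672) (nat_lit 3539992930) (.two (nat_lit 1916796931) (nat_lit 10385097896) (.two (nat_lit 9768534017) (nat_lit 1191184574) (.two (nat_lit 1048576) (nat_lit 4198321) (.one (nat_lit 4199763) .nil)))),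
   .two (nat_lit 4194312) (nat_lit 28758245420) (.two (nat_lit 272629764) (nat_lit 10504634687) (.two (nat_lit 2956984323) (nat_lit 158144135869) (.two (nat_lit 34603009) (nat_lit 156567078439) (.two (nat_lit 1048576) (nat_lit 205524824) (.one (nat_lit 46977258677) .nil))))),
   .two (nat_lit 169869320) (nat_lit 721420330) (.two (nat_lit 21777874948) (nat_lit 807403702) (.two (nat_lit 705691650) (nat_lit 19597886191) (.two (nat_lit 34603009) (nat_lit 166197201134) (.two (nat_lit 1048576) (nat_lit 16781234) (.one (nat_lit 16782676) .nil))))),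
   .two (nat_lit 813694984) (nat_lit 10385096744) (.two (nat_lit 10385096708) (nat_lit 184987680950) (.two (nat_lit 654311427) (nat_lit 158647452841) (.two (nat_lit 2097153) (nat_lit 645925381) (.one (nat_lit 612372996) .nil)))),
   .two (nat_lit 2969567240) (nat_lit 8388716) (.two (nat_lit 184549380) (nat_lit 28697428700) (.two (nat_lit 16777217) (nat_lit 8390920) (.two (nat_lit 8388608) (nat_lit 16781235) (.one (nat_lit 3531609139) .nil)))),
   .two (nat_lit 9881780232) (nat_lit 4028629018) (.two (nat_lit 46978301956) (nat_lit 13203669705) (.two (nat_lit 2097153) (nat_lit 11559502641) (.two (nat_lit 8388608) (nat_lit 10385101383) .nil))),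
   .two (nat_lit 2902458376) (nat_lit 9906946091) (.two (nat_lit 184549380) (nat_lit 156976021821) (.two (nat_lit 9873391619) (nat_lit 654312979) (.two (nat_lit 16777216) (nat_lit 3024096571) (.one (nat_lit 708841977) .nil)))),
   .two (nat_lit 16777224) (nat_lit 13195280411) (.two (nat_lit 183853121540) (nat_lit 16777655) (.two (nat_lit 41943041) (nat_lit 285213489) (.two (nat_lit 8388608) (nat_lit 16779791) (.one (nat_lit 20711477701) .nil)))),
   .two (nat_lit 713031688) (nat_lit 1212153896) (.two (nat_lit 18928893956) (nat_lit 183953785142) (.two (nat_lit 41943043) (nat_lit 184419353016) (.two (nat_lit 41943041) (nat_lit 3024096527) (.one (nat_lit 310383104) .nil)))),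
   .two (nat_lit 713031688) (nat_lit 46523220019) (.two (nat_lit 117440516) (nat_lit 19033751735) (.two (nat_lit 754974723) (nat_lit 12155094598) (.two (nat_lit 4194304) (nat_lit 183953789427) .nil))),
   .two (nat_lit 721420296) (nat_lit 156532473900) (.two (nat_lit 83886084) (nat_lit 813695357) (.two (nat_lit 209715203) (nat_lit 16777909) (.two (nat_lit 8388609) (nat_lit 2969569535) (.two (nat_lit 16777216) (nat_lit 1779438081) .nil)))),
   .two (nat_lit 169869320) (nat_lit 142606431) (.two (nat_lit 159224168452) (nat_lit 166130090278) (.two (nat_lit 20638072835) (nat_lit 184416207591) (.two (nat_lit 2097153) (nat_lit 34606411) (.one (nat_lit 2102615) .nil)))),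
   .two (nat_lit 2969567240) (nat_lit 13188988974) (.two (nat_lit 9867100164) (nat_lit 184549815) (.two (nat_lit 9766436865) (nat_lit 205524195) (.one (nat_lit 1413485780) .nil))),
   .two (nat_lit 1343225864) (nat_lit 2889875507) (.two (nat_lit 184986632196) (nat_lit 10003415481) (.two (nat_lit 34603009) (nat_lit 3024094777) (.two (nat_lit 16777216) (nat_lit 4198327) (.one (nat_lit 285217938) .nil)))),
   .two (nat_lit 156372041736) (nat_lit 165528207401) (.two (nat_lit 3464495108) (nat_lit 46489665848) (.two (nat_lit 3527409667) (nat_lit 158192370400) (.two (nat_lit 4194305) (nat_lit 11551114800) (.two (nat_lit 4194304) (nat_lit 8392051) (.one (nat_lit 8394072) .nil))))),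
   .two (nat_lit 75497480) (nat_lit 304087083) (.two (nat_lit 11551113220) (nat_lit 1745879336) (.two (nat_lit 2902458371) (nat_lit 1175454135) (.two (nat_lit 16777217) (nat_lit 21207451166) (.two (nat_lit 16777216) (nat_lit 158647454958) (.one (nat_lit 2102617) .nil))))),
   .two (nat_lit 612368392) (nat_lit 20637024543) (.two (nat_lit 16777219) (nat_lit 183845783074) (.two (nat_lit 16777216) (nat_lit 158143089152) (.one (nat_lit 8393912) .nil))),
   .two (nat_lit 183848927240) (nat_lit 12054430136) (.two (nat_lit 156372041729) (nat_lit 20740836575) (.one (nat_lit 4030730835) .nil)),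
   .two (nat_lit 2902458376) (nat_lit 185023332399) (.two (nat_lit 156367847428) (nat_lit 9781116996) (.two (nat_lit 46980399107) (nat_lit 822085140) (.two (nat_lit 4194304) (nat_lit 158662135060) (.one (nat_lit 16782682) .nil)))),
   .two (nat_lit 2887778312) (nat_lit 9772728611) (.two (nat_lit 10385096707) (nat_lit 10335815192) (.two (nat_lit 16777216) (nat_lit 3022000684) .nil)),
   .two (nat_lit 272629768) (nat_lit 184993972249) (.two (nat_lit 4194308) (nat_lit 21785215155) (.two (nat_lit 2894069763) (nat_lit 4195906) (.two (nat_lit 1048576) (nat_lit 4198329) (.one (nat_lit 1054043) .nil)))),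
   .two (nat_lit 620757000) (nat_lit 1853882759) (.two (nat_lit 47555018755) (nat_lit 3539993326) (.two (nat_lit 8388609) (nat_lit 9948890644) (.two (nat_lit 8388608) (nat_lit 83890015) (.one (nat_lit 183953789406) .nil)))),
   .two (nat_lit 176160776) (nat_lit 10437525805) (.two (nat_lit 806354947) (nat_lit 184989778642) (.two (nat_lit 2097153) (nat_lit 12617517270) (.two (nat_lit 2097152) (nat_lit 20707282244) (.one (nat_lit 166197204271) .nil)))),
   .two (nat_lit 16777224) (nat_lit 183853121562) (.two (nat_lit 183853121540) (nat_lit 50332088) (.two (nat_lit 41943041) (nat_lit 50334223) (.one (nat_lit 166237049284) .nil))),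
   .two (nat_lit 620757000) (nat_lit 11544821847) (.two (nat_lit 2969567236) (nat_lit 236978458) (.two (nat_lit 203423747) (nat_lit 16778033) (.two (nat_lit 2097152) (nat_lit 19042142710) (.one (nat_lit 1344278998) .nil)))),
   .two (nat_lit 183848927240) (nat_lit 1753219140) (.two (nat_lit 713031682) (nat_lit 10372514590) (.two (nat_lit 37748737) (nat_lit 21785217285) (.two (nat_lit 4194304) (nat_lit 8392634) (.one (nat_lit 20740837872) .nil)))),
   .two (nat_lit 1291845640) (nat_lit 1847591351) (.two (nat_lit 620756993) (nat_lit 203425962) (.two (nat_lit 2097152) (nat_lit 21827161413) (.one (nat_lit 46407881181) .nil))),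
   .two (nat_lit 176160776) (nat_lit 9781116996) (.two (nat_lit 16777218) (nat_lit 880804537) (.two (nat_lit 8388609) (nat_lit 4613736637) (.two (nat_lit 8388608) (nat_lit 150998776) (.one (nat_lit 10510930984) .nil)))),
   .two (nat_lit 1191182344) (nat_lit 184986632219) (.two (nat_lit 754974724) (nat_lit 1048969) (.two (nat_lit 11492392962) (nat_lit 1049781) (.two (nat_lit 37748737) (nat_lit 10369370612) (.one (nat_lit 1054046) .nil)))),
   .two (nat_lit 272629768) (nat_lit 10385096731) (.two (nat_lit 218103812) (nat_lit 156569174833) (.two (nat_lit 16777216) (nat_lit 184989780475) (.one (nat_lit 4199775) .nil))),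
   .two (nat_lit 21208498184) (nat_lit 3028287529) (.two (nat_lit 159217876996) (nat_lit 10007609524) (.two (nat_lit 176160771) (nat_lit 156365751030) (.two (nat_lit 8388609) (nat_lit 2099465) (.two (nat_lit 2097152) (nat_lit 8392636) (.one (nat_lit 159257727547) .nil))))),
   .two (nat_lit 46978301960) (nat_lit 156569174059) (.two (nat_lit 156569174022) (nat_lit 37247517061) (.two (nat_lit 9768534019) (nat_lit 4028629431) (.two (nat_lit 9768534017) (nat_lit 12148803119) (.two (nat_lit 4194304) (nat_lit 2101181) (.one (nat_lit 28760347853) .nil))))),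
   .two (nat_lit 9934209032) (nat_lit 1379926062) (.two (nat_lit 9934209028) (nat_lit 19532874067) (.two (nat_lit 2097155) (nat_lit 156569174455) (.two (nat_lit 2097153) (nat_lit 156569174833) (.two (nat_lit 1048576) (nat_lit 1916800258) (.one (nat_lit 2101866) .nil))))),
   .two (nat_lit 2887778312) (nat_lit 2894069942) (.two (nat_lit 806354947) (nat_lit 184423547619) (.two (nat_lit 34603009) (nat_lit 20745029170) (.two (nat_lit 1048576) (nat_lit 8392052) (.one (nat_lit 135270901) .nil)))),
   .two (nat_lit 176160776) (nat_lit 19027460134) (.two (nat_lit 46978301956) (nat_lit 880804123) (.two (nat_lit 176160770) (nat_lit 46474986290) (.two (nat_lit 8388608) (nat_lit 10336865621) (.one (nat_lit 2102624) .nil)))),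
   .two (nat_lit 3464495112) (nat_lit 19027460138) (.two (nat_lit 1846542340) (nat_lit 20638073213) (.two (nat_lit 28757196803) (nat_lit 2994733780) (.two (nat_lit 156364701697) (nat_lit 35654971) (.one (nat_lit 1054049) .nil)))),
   .two (nat_lit 1178599432) (nat_lit 117440692) (.two (nat_lit 50331651) (nat_lit 1916797367) (.two (nat_lit 50331649) (nat_lit 19130223119) (.one (nat_lit 10003419638) .nil))),
   .two (nat_lit 2969567240) (nat_lit 3458203733) (.two (nat_lit 117440516) (nat_lit 1779434219) (.two (nat_lit 2097153) (nat_lit 9948891633) (.one (nat_lit 19127079457) .nil))),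
   .two (nat_lit 713031688) (nat_lit 251658285) (.two (nat_lit 20637024260) (nat_lit 10007609412) (.two (nat_lit 2969567235) (nat_lit 46409975347) (.two (nat_lit 4194304) (nat_lit 2902462198) (.one (nat_lit 16782690) .nil)))),
   .two (nat_lit 1277165576) (nat_lit 3464495146) (.two (nat_lit 10343153668) (nat_lit 166230753720) (.two (nat_lit 606076929) (nat_lit 158183982623) (.two (nat_lit 2097152) (nat_lit 12624858340) (.one (nat_lit 3022000603) .nil)))),
   .two (nat_lit 2969567240) (nat_lit 158077026352) (.two (nat_lit 28691136516) (nat_lit 2969567671) (.two (nat_lit 41943041) (nat_lit 1862274528) .nil)),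
   .two (nat_lit 117440520) (nat_lit 158646403114) (.two (nat_lit 158075977732) (nat_lit 1426064161) (.two (nat_lit 605028353) (nat_lit 1291846450) (.two (nat_lit 2097152) (nat_lit 19127079385) .nil))),
   .two (nat_lit 41943048) (nat_lit 174768259126) (.two (nat_lit 46407876612) (nat_lit 12155093302) (.two (nat_lit 4599054339) (nat_lit 1417675939) (.two (nat_lit 50331649) (nat_lit 1913653454) (.two (nat_lit 1048576) (nat_lit 8392641) (.one (nat_lit 16782691) .nil))))),
   .two (nat_lit 272629768) (nat_lit 11525947490) (.two (nat_lit 1795162116) (nat_lit 11580473654) (.two (nat_lit 117440515) (nat_lit 2923430592) (.two (nat_lit 612368385) (nat_lit 28693235936) (.two (nat_lit 16777216) (nat_lit 4198338) (.one (nat_lit 12624859681) .nil))))),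
   .two (nat_lit 41943048) (nat_lit 10452205877) (.two (nat_lit 822083587) (nat_lit 37253808871) (.two (nat_lit 41943041) (nat_lit 285214922) (.two (nat_lit 8388608) (nat_lit 16781252) (.one (nat_lit 8394085) .nil)))),
   .two (nat_lit 11492392968) (nat_lit 775946424) (.two (nat_lit 2889875458) (nat_lit 18941477660) (.two (nat_lit 4194305) (nat_lit 13195283787) (.one (nat_lit 8394086) .nil))),
   .two (nat_lit 2887778312) (nat_lit 12054429876) (.two (nat_lit 806354947) (nat_lit 12054430390) (.two (nat_lit 34603009) (nat_lit 3565159991) (.two (nat_lit 4194304) (nat_lit 2987397594) .nil))),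
   .two (nat_lit 4194312) (nat_lit 4605345828) (.two (nat_lit 8388612) (nat_lit 184417255609) (.two (nat_lit 9933160451) (nat_lit 166237045507) (.two (nat_lit 8388609) (nat_lit 19127077127) (.two (nat_lit 8388608) (nat_lit 270537235) .nil)))),
   .two (nat_lit 620757000) (nat_lit 158647451704) (.two (nat_lit 2969567236) (nat_lit 1176503005) (.two (nat_lit 606076929) (nat_lit 20652755209) (.two (nat_lit 2097152) (nat_lit 2365590760) (.one (nat_lit 9867104769) .nil)))),
   .two (nat_lit 158143086600) (nat_lit 159251431461) (.two (nat_lit 158143086596) (nat_lit 639631746) (.two (nat_lit 10370416643) (nat_lit 1209009294) (.two (nat_lit 8388609) (nat_lit 9934211274) (.two (nat_lit 8388608) (nat_lit 46977257225) (.one (nat_lit 8394087) .nil))))),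
   .two (nat_lit 654311432) (nat_lit 12048138542) (.two (nat_lit 16777218) (nat_lit 10544480965) (.two (nat_lit 2097153) (nat_lit 46514832948) (.two (nat_lit 16777216) (nat_lit 1377832845) (.one (nat_lit 37329310842) .nil)))),
   .two (nat_lit 822083592) (nat_lit 21811429420) (.two (nat_lit 9866051588) (nat_lit 9781116996) (.two (nat_lit 1795162115) (nat_lit 1049782) (.two (nat_lit 50331649) (nat_lit 3020949751) (.two (nat_lit 16777216) (nat_lit 1052616) (.one (nat_lit 1054056) .nil))))),
   .two (nat_lit 2889875464) (nat_lit 10385096743) (.two (nat_lit 117440516) (nat_lit 46510637495) (.two (nat_lit 50331649) (nat_lit 3527410481) (.two (nat_lit 16777216) (nat_lit 4197751) (.one (nat_lit 4199785) .nil)))),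
   .two (nat_lit 822083592) (nat_lit 337641855) (.two (nat_lit 16777219) (nat_lit 673186495) (.two (nat_lit 2097153) (nat_lit 159266113063) (.two (nat_lit 2097152) (nat_lit 184552747) (.one (nat_lit 2101868) .nil)))),
   .two (nat_lit 2902458376) (nat_lit 236978235) (.two (nat_lit 50331652) (nat_lit 11543773570) (.two (nat_lit 11559501827) (nat_lit 20637024970) (.two (nat_lit 9781116929) (nat_lit 2316306579) (.two (nat_lit 2097152) (nat_lit 788532551) (.one (nat_lit 1210061353) .nil))))),
   .two (nat_lit 1178599432) (nat_lit 2969567295) (.two (nat_lit 184986632196) (nat_lit 3560964475) (.two (nat_lit 16777219) (nat_lit 1212154636) (.two (nat_lit 16777217) (nat_lit 166129042992) (.two (nat_lit 8388608) (nat_lit 1052619) (.one (nat_lit 16782700) .nil))))),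
   .two (nat_lit 16777224) (nat_lit 4605345819) (.two (nat_lit 184549380) (nat_lit 10376708282) (.two (nat_lit 158091706371) (nat_lit 8389816) (.two (nat_lit 156367847425) (nat_lit 47547680286) (.two (nat_lit 1048576) (nat_lit 28798093828) (.one (nat_lit 8394093) .nil))))),
   .two (nat_lit 713031688) (nat_lit 174685421604) (.two (nat_lit 75497476) (nat_lit 1309671777) (.two (nat_lit 2969567235) (nat_lit 12624855747) (.two (nat_lit 16777217) (nat_lit 21818771000) (.two (nat_lit 16777216) (nat_lit 8392508) (.one (nat_lit 117445144) .nil))))),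
   .two (nat_lit 639631368) (nat_lit 20644364315) (.two (nat_lit 2887778308) (nat_lit 159224168887) (.two (nat_lit 2097153) (nat_lit 10007610161) (.two (nat_lit 8388608) (nat_lit 159216831715) (.one (nat_lit 4027585044) .nil)))),
   .two (nat_lit 4605345800) (nat_lit 28693233705) (.two (nat_lit 1178599428) (nat_lit 183920230695) (.two (nat_lit 9768534019) (nat_lit 18933088959) (.two (nat_lit 37748737) (nat_lit 10343156209) (.one (nat_lit 8394094) .nil)))),
   .two (nat_lit 184549384) (nat_lit 3458203699) (.two (nat_lit 9948889092) (nat_lit 35652025) (.two (nat_lit 16777217) (nat_lit 2100477) (.one (nat_lit 19545460187) .nil))),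
   .two (nat_lit 10504634376) (nat_lit 19130220587) (.two (nat_lit 166132187142) (nat_lit 21778923838) (.two (nat_lit 1178599427) (nat_lit 673186560) (.two (nat_lit 4194305) (nat_lit 3565160949) (.one (nat_lit 2102639) .nil)))),
   .two (nat_lit 9948889098) (nat_lit 21785215003) (.two (nat_lit 158083317764) (nat_lit 16777716) (.two (nat_lit 21785214979) (nat_lit 4613735158) (.two (nat_lit 612368385) (nat_lit 788531465) (.two (nat_lit 2097152) (nat_lit 156573370884) (.one (nat_lit 8394096) .nil))))),
   .two (nat_lit 822083592) (nat_lit 185023332398) (.two (nat_lit 156367847428) (nat_lit 788529900) (.two (nat_lit 4194305) (nat_lit 1291849023) (.one (nat_lit 16782705) .nil))),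
   .two (nat_lit 18928893960) (nat_lit 352321621) (.two (nat_lit 184419352580) (nat_lit 1761607973) (.two (nat_lit 12117344259) (nat_lit 1862271709) (.two (nat_lit 37748737) (nat_lit 83886898) (.two (nat_lit 1048576) (nat_lit 9936309545) (.one (nat_lit 4199794) .nil))))),
   .two (nat_lit 12117344264) (nat_lit 21827158072) (.two (nat_lit 1916796932) (nat_lit 721420467) (.two (nat_lit 11479810050) (nat_lit 46992982735) (.two (nat_lit 50331649) (nat_lit 3560966328) (.two (nat_lit 16777216) (nat_lit 2889879482) (.one (nat_lit 166211884175) .nil))))),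
   .two (nat_lit 47548727304) (nat_lit 47550824528) (.two (nat_lit 184986632196) (nat_lit 174755676477) (.two (nat_lit 270532611) (nat_lit 1279263436) (.two (nat_lit 9766436865) (nat_lit 235932982) (.one (nat_lit 19529732626) .nil)))),
   .two (nat_lit 620757000) (nat_lit 183949590554) (.two (nat_lit 2969567236) (nat_lit 183949590967) (.two (nat_lit 16777217) (nat_lit 13224643059) (.one (nat_lit 2956987872) .nil))),
   .two (nat_lit 83886088) (nat_lit 158079123553) (.two (nat_lit 11559501828) (nat_lit 675283417) (.two (nat_lit 272629763) (nat_lit 184550563) (.two (nat_lit 612368385) (nat_lit 166232852691) (.two (nat_lit 4194304) (nat_lit 10921971458) (.one (nat_lit 8394100) .nil))))),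
   .two (nat_lit 117440520) (nat_lit 21207449626) (.two (nat_lit 21207449604) (nat_lit 1426064161) (.two (nat_lit 605028353) (nat_lit 1291846450) (.two (nat_lit 2097152) (nat_lit 1052025) (.one (nat_lit 1054069) .nil)))),
   .two (nat_lit 3458203656) (nat_lit 28693233689) (.two (nat_lit 3458203652) (nat_lit 184419352756) (.two (nat_lit 46407876610) (nat_lit 157038937260) (.two (nat_lit 2097153) (nat_lit 608176817) (.two (nat_lit 2097152) (nat_lit 4198349) (.one (nat_lit 4199798) .nil))))),
   .two (nat_lit 11559501832) (nat_lit 183912890395) (.two (nat_lit 184416206852) (nat_lit 19042140470) (.two (nat_lit 12114198531) (nat_lit 11022631672) (.two (nat_lit 34603009) (nat_lit 2936015113) (.two (nat_lit 4194304) (nat_lit 4598010419) .nil)))),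
   .two (nat_lit 28690087944) (nat_lit 37316722729) (.two (nat_lit 156971827204) (nat_lit 156581757746) (.two (nat_lit 4194304) (nat_lit 1913655849) .nil)),
   .two (nat_lit 2889875464) (nat_lit 780140933) (.two (nat_lit 1283457027) (nat_lit 157035791055) (.two (nat_lit 41943041) (nat_lit 839910962) (.two (nat_lit 4194304) (nat_lit 158653745652) (.one (nat_lit 4199021) .nil)))),
   .two (nat_lit 16777224) (nat_lit 101711935) (.two (nat_lit 83886084) (nat_lit 10369368374) (.two (nat_lit 11543773187) (nat_lit 10921968345) (.two (nat_lit 8388609) (nat_lit 101715189) (.one (nat_lit 9866056163) .nil)))),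
   .two (nat_lit 620757000) (nat_lit 20738736154) (.two (nat_lit 9948889092) (nat_lit 20738736567) (.two (nat_lit 16777217) (nat_lit 19597887989) (.one (nat_lit 19128128063) .nil))),
   .two (nat_lit 83886088) (nat_lit 21818769469) (.two (nat_lit 46984593412) (nat_lit 1358954774) (.two (nat_lit 2894069763) (nat_lit 1358956052) (.two (nat_lit 1048576) (nat_lit 16781263) (.one (nat_lit 1054074) .nil)))),
   .two (nat_lit 19532873736) (nat_lit 2332033210) (.two (nat_lit 166132187138) (nat_lit 150995676) (.two (nat_lit 9768534017) (nat_lit 16779404) (.two (nat_lit 2097152) (nat_lit 28772930118) .nil))),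
   .two (nat_lit 639631368) (nat_lit 1175453796) (.two (nat_lit 174752530436) (nat_lit 156533522871) (.two (nat_lit 605028353) (nat_lit 606078496) (.two (nat_lit 1048576) (nat_lit 2101200) (.one (nat_lit 2102651) .nil)))),
   .two (nat_lit 3527409672) (nat_lit 754974747) (.two (nat_lit 9768534020) (nat_lit 1795162292) (.two (nat_lit 721420290) (nat_lit 13191087217) (.two (nat_lit 50331649) (nat_lit 3460303037) (.two (nat_lit 16777216) (nat_lit 28693237082) (.one (nat_lit 156481098965) .nil))))),
   .two (nat_lit 75497480) (nat_lit 1862271286) (.two (nat_lit 16777218) (nat_lit 184993973042) (.two (nat_lit 1048576) (nat_lit 10351544820) (.one (nat_lit 1392514312) .nil))),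
   .two (nat_lit 9781116936) (nat_lit 10439622704) (.two (nat_lit 3460300804) (nat_lit 46422556967) (.two (nat_lit 47550824451) (nat_lit 822084287) (.two (nat_lit 156367847425) (nat_lit 9948891360) (.two (nat_lit 8388608) (nat_lit 2953843163) .nil)))),
   .two (nat_lit 285212680) (nat_lit 156567076923) (.two (nat_lit 1847590916) (nat_lit 16777717) (.two (nat_lit 270532611) (nat_lit 3003123243) (.two (nat_lit 1048576) (nat_lit 169871860) (.one (nat_lit 1054077) .nil)))),
   .two (nat_lit 2961178632) (nat_lit 166230753459) (.two (nat_lit 1847590915) (nat_lit 1049786) (.two (nat_lit 605028353) (nat_lit 183846831642) (.two (nat_lit 1048576) (nat_lit 158077030888) .nil))),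
   .two (nat_lit 166130089992) (nat_lit 12117344283) (.two (nat_lit 19599982596) (nat_lit 19027460275) (.two (nat_lit 183848927234) (nat_lit 2098363) (.two (nat_lit 37748737) (nat_lit 1847593166) (.two (nat_lit 4194304) (nat_lit 2100602) (.one (nat_lit 10003419592) .nil))))),
   .two (nat_lit 47548727304) (nat_lit 13195280421) (.two (nat_lit 13195280388) (nat_lit 47548727620) (.two (nat_lit 18933088259) (nat_lit 673186498) (.two (nat_lit 8388609) (nat_lit 21812479533) (.two (nat_lit 4194304) (nat_lit 28791803152) (.one (nat_lit 2102655) .nil))))),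
   .two (nat_lit 721420296) (nat_lit 13195280411) (.two (nat_lit 721420292) (nat_lit 8389110) (.two (nat_lit 50331651) (nat_lit 1317012593) (.two (nat_lit 620756993) (nat_lit 158083320469) (.two (nat_lit 16777216) (nat_lit 8392658) (.one (nat_lit 8394112) .nil))))),
   .two (nat_lit 11479810056) (nat_lit 1795162151) (.two (nat_lit 654311428) (nat_lit 9969861049) (.two (nat_lit 16777217) (nat_lit 156573371645) (.one (nat_lit 2357203562) .nil))),
   .two (nat_lit 11543773192) (nat_lit 20644364567) (.two (nat_lit 705691650) (nat_lit 10007610902) (.two (nat_lit 1048576) (nat_lit 8392659) (.one (nat_lit 1054081) .nil))),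
   .two (nat_lit 9881780232) (nat_lit 10436476954) (.two (nat_lit 1846542340) (nat_lit 9881780663) (.two (nat_lit 9765388289) (nat_lit 183861513694) .nil)),
   .two (nat_lit 9768534024) (nat_lit 11578376238) (.two (nat_lit 9768534020) (nat_lit 174686470483) (.two (nat_lit 2097155) (nat_lit 11618222519) (.two (nat_lit 2097153) (nat_lit 156472706588) (.two (nat_lit 1048576) (nat_lit 608178004) (.one (nat_lit 1054082) .nil))))),
   .two (nat_lit 203423752) (nat_lit 12155093178) (.two (nat_lit 2954887171) (nat_lit 3028287927) (.two (nat_lit 2097153) (nat_lit 183920232955) (.one (nat_lit 8393328) .nil))),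
   .two (nat_lit 1291845640) (nat_lit 236978202) (.two (nat_lit 3458203652) (nat_lit 9814671801) (.two (nat_lit 2097153) (nat_lit 83887639) (.two (nat_lit 8388608) (nat_lit 2365590770) (.one (nat_lit 2102659) .nil)))),
   .two (nat_lit 4601151496) (nat_lit 2894069941) (.two (nat_lit 176160770) (nat_lit 1049788) (.two (nat_lit 37748737) (nat_lit 672139411) (.two (nat_lit 1048576) (nat_lit 9873395457) (.one (nat_lit 1054084) .nil)))),
   .two (nat_lit 205520904) (nat_lit 2921332836) (.two (nat_lit 9934209028) (nat_lit 1379926198) (.two (nat_lit 270532611) (nat_lit 4195517) (.two (nat_lit 2097153) (nat_lit 4197088) (.two (nat_lit 4194304) (nat_lit 1052630) (.one (nat_lit 1054085) .nil))))),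
   .two (nat_lit 9768534024) (nat_lit 236978219) (.two (nat_lit 205520900) (nat_lit 47582282015) (.two (nat_lit 739246083) (nat_lit 19532874496) (.two (nat_lit 34603009) (nat_lit 71304766) (.two (nat_lit 1048576) (nat_lit 4198359) (.one (nat_lit 4199814) .nil))))),
   .two (nat_lit 176160776) (nat_lit 158144135207) (.two (nat_lit 2954887172) (nat_lit 20644364992) (.two (nat_lit 2097153) (nat_lit 645926240) (.one (nat_lit 183846834657) .nil))),
   .two (nat_lit 276824072) (nat_lit 183949590568) (.two (nat_lit 12114198532) (nat_lit 9969861049) (.two (nat_lit 34603009) (nat_lit 156535621159) (.two (nat_lit 1048576) (nat_lit 46510640427) (.one (nat_lit 1849692658) .nil)))),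
   .two (nat_lit 8388616) (nat_lit 1962934321) (.two (nat_lit 8388612) (nat_lit 1178599793) (.two (nat_lit 8388610) (nat_lit 1782580786) (.two (nat_lit 16777216) (nat_lit 8392664) (.one (nat_lit 8394119) .nil)))),
   .two (nat_lit 28757196808) (nat_lit 645923106) (.two (nat_lit 1276116994) (nat_lit 11484005082) (.two (nat_lit 605028353) (nat_lit 2894071341) (.two (nat_lit 1048576) (nat_lit 8392059) (.one (nat_lit 8394120) .nil)))),
   .two (nat_lit 713031688) (nat_lit 2416967724) (.two (nat_lit 21785214980) (nat_lit 183912890548) (.two (nat_lit 19596836867) (nat_lit 11618222520) (.two (nat_lit 156364701697) (nat_lit 880804658) (.two (nat_lit 1048576) (nat_lit 1920993798) (.one (nat_lit 4027585601) .nil))))),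
   .two (nat_lit 37748744) (nat_lit 880804019) (.two (nat_lit 46414168067) (nat_lit 9936307377) (.two (nat_lit 8388609) (nat_lit 158179790134) (.one (nat_lit 158150431320) .nil))),
   .two (nat_lit 9948889096) (nat_lit 10907287593) (.two (nat_lit 10336862212) (nat_lit 2936013109) (.two (nat_lit 46407876610) (nat_lit 1862272582) (.two (nat_lit 2097152) (nat_lit 218107361) .nil))),
   .two (nat_lit 285212680) (nat_lit 12147753024) (.two (nat_lit 705691652) (nat_lit 285213366) (.two (nat_lit 2097153) (nat_lit 10452207159) (.two (nat_lit 1048576) (nat_lit 1780484596) (.one (nat_lit 102765872) .nil)))),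
   .two (nat_lit 822083592) (nat_lit 9798942767) (.two (nat_lit 754974724) (nat_lit 4598006520) (.two (nat_lit 605028353) (nat_lit 1191183154) (.two (nat_lit 1048576) (nat_lit 318771093) (.one (nat_lit 1054089) .nil)))),
   .two (nat_lit 8388616) (nat_lit 3524264031) (.two (nat_lit 41943044) (nat_lit 156364701877) (.two (nat_lit 10335813635) (nat_lit 10007610041) (.two (nat_lit 605028353) (nat_lit 13237225691) (.two (nat_lit 1048576) (nat_lit 21223182185) (.one (nat_lit 16782730) .nil))))),
   .two (nat_lit 754974728) (nat_lit 10436476953) (.two (nat_lit 3464495108) (nat_lit 83886260) (.two (nat_lit 9765388291) (nat_lit 620757689) (.two (nat_lit 8388609) (nat_lit 10921969819) (.two (nat_lit 8388608) (nat_lit 185035919195) (.one (nat_lit 8394125) .nil))))),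
   .two (nat_lit 13195280392) (nat_lit 183913939127) (.two (nat_lit 8388610) (nat_lit 1344275201) (.two (nat_lit 8388609) (nat_lit 19597888992) .nil)),
   .two (nat_lit 169869320) (nat_lit 50331827) (.two (nat_lit 34603011) (nat_lit 21223179038) (.two (nat_lit 16777217) (nat_lit 46473938458) (.two (nat_lit 1048576) (nat_lit 1862273530) (.one (nat_lit 1054094) .nil)))),
   .two (nat_lit 16777224) (nat_lit 3557818416) (.two (nat_lit 11492392964) (nat_lit 12617515287) (.two (nat_lit 2969567235) (nat_lit 47547679437) (.two (nat_lit 34603009) (nat_lit 822084402) (.two (nat_lit 1048576) (nat_lit 16781275) (.one (nat_lit 20719866353) .nil))))),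
   .two (nat_lit 16777224) (nat_lit 12150898736) (.two (nat_lit 205520900) (nat_lit 2969567517) (.two (nat_lit 2889875458) (nat_lit 10385097896) (.two (nat_lit 4194305) (nat_lit 9915336901) (.two (nat_lit 4194304) (nat_lit 1052636) (.one (nat_lit 1054095) .nil))))),
   .two (nat_lit 1291845640) (nat_lit 19127074864) (.two (nat_lit 10385096708) (nat_lit 19026411704) (.two (nat_lit 705691650) (nat_lit 9915335425) (.two (nat_lit 34603009) (nat_lit 174688570730) (.one (nat_lit 4199658) .nil)))),
   .two (nat_lit 46409973768) (nat_lit 47555018790) (.two (nat_lit 176160772) (nat_lit 9802088887) (.two (nat_lit 8388609) (nat_lit 157038936881) (.two (nat_lit 8388608) (nat_lit 1749028215) (.one (nat_lit 171971059) .nil)))),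
   .two (nat_lit 713031688) (nat_lit 13221495173) (.two (nat_lit 34603011) (nat_lit 1950352560) (.two (nat_lit 41943041) (nat_lit 19529730258) (.two (nat_lit 1048576) (nat_lit 156533526457) (.one (nat_lit 1054102) .nil)))),
   .two (nat_lit 612368392) (nat_lit 336593247) (.two (nat_lit 176160770) (nat_lit 9899606456) (.two (nat_lit 8388609) (nat_lit 13221496346) (.two (nat_lit 8388608) (nat_lit 873466358) (.one (nat_lit 9798947315) .nil)))),
   .two (nat_lit 2889875464) (nat_lit 166203490486) (.two (nat_lit 41943043) (nat_lit 11610882773) (.two (nat_lit 4194305) (nat_lit 11610885452) (.one (nat_lit 1054103) .nil))),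
   .two (nat_lit 11559501832) (nat_lit 11577327660) (.two (nat_lit 9781116932) (nat_lit 1780482232) (.two (nat_lit 218103811) (nat_lit 102761181) (.two (nat_lit 620756993) (nat_lit 9900656861) (.two (nat_lit 2097152) (nat_lit 9798946154) (.one (nat_lit 1054104) .nil))))),
   .two (nat_lit 183853121544) (nat_lit 37316723049) (.two (nat_lit 2956984323) (nat_lit 28697428731) (.two (nat_lit 4194305) (nat_lit 1753220627) (.two (nat_lit 1048576) (nat_lit 11484007663) (.one (nat_lit 8394137) .nil)))),
   .two (nat_lit 37748744) (nat_lit 18925748320) (.two (nat_lit 37748740) (nat_lit 11543773489) (.two (nat_lit 176160770) (nat_lit 339739064) (.two (nat_lit 606076929) (nat_lit 813697283) (.two (nat_lit 8388608) (nat_lit 19094572828) (.one (nat_lit 1350571164) .nil))))),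
   .two (nat_lit 41943048) (nat_lit 21781020718) (.two (nat_lit 713031684) (nat_lit 605029121) (.two (nat_lit 4194305) (nat_lit 2357201400) (.one (nat_lit 11546923572) .nil))),
   .two (nat_lit 8388616) (nat_lit 156365750331) (.two (nat_lit 612368388) (nat_lit 166130090288) (.two (nat_lit 806354947) (nat_lit 19537068745) (.two (nat_lit 34603009) (nat_lit 337643713) (.two (nat_lit 1048576) (nat_lit 8392060) (.one (nat_lit 8394138) .nil))))),
   .two (nat_lit 739246088) (nat_lit 166130090047) (.two (nat_lit 3525312516) (nat_lit 158183981373) (.two (nat_lit 47548727299) (nat_lit 158150427359) (.two (nat_lit 156365750273) (nat_lit 11006905651) (.one (nat_lit 20637028882) .nil)))),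
   .two (nat_lit 2902458376) (nat_lit 28089253954) (.two (nat_lit 166132187140) (nat_lit 1862271745) (.two (nat_lit 16777217) (nat_lit 19537071427) (.one (nat_lit 16782747) .nil))),
   .two (nat_lit 28086108168) (nat_lit 352321873) (.two (nat_lit 1745879043) (nat_lit 2969567929) (.two (nat_lit 605028353) (nat_lit 83889489) (.one (nat_lit 16781937) .nil))),
   .two (nat_lit 9881780232) (nat_lit 13221494966) (.two (nat_lit 1291845634) (nat_lit 1276118200) (.two (nat_lit 605028353) (nat_lit 9948889905) (.two (nat_lit 1048576) (nat_lit 822088200) .nil))),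
   .two (nat_lit 19532873736) (nat_lit 37329305783) (.two (nat_lit 157038936067) (nat_lit 12062819073) (.two (nat_lit 9768534017) (nat_lit 1862274528) .nil)),
   .two (nat_lit 41943048) (nat_lit 13187940444) (.two (nat_lit 12054429700) (nat_lit 184986632981) (.two (nat_lit 605028353) (nat_lit 11551116663) (.one (nat_lit 8393331) .nil))),
   .two (nat_lit 713031688) (nat_lit 10436476954) (.two (nat_lit 1350565892) (nat_lit 10436477367) (.two (nat_lit 41943041) (nat_lit 873465370) (.two (nat_lit 4194304) (nat_lit 34607563) .nil))),
   .two (nat_lit 2969567240) (nat_lit 236978201) (.two (nat_lit 203423748) (nat_lit 16777284) (.two (nat_lit 2887778306) (nat_lit 1929380568) (.two (nat_lit 9766436865) (nat_lit 10552870436) (.two (nat_lit 2097152) (nat_lit 16781280) (.one (nat_lit 2102684) .nil))))),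
   .two (nat_lit 809500680) (nat_lit 10436476967) (.two (nat_lit 9934209028) (nat_lit 19093520774) (.two (nat_lit 708837379) (nat_lit 47547679934) (.two (nat_lit 2097153) (nat_lit 1051363) (.two (nat_lit 2097152) (nat_lit 775950849) .nil)))),
   .two (nat_lit 37748744) (nat_lit 3565158449) (.two (nat_lit 11551113220) (nat_lit 10506731795) (.two (nat_lit 1176502275) (nat_lit 156569175571) (.two (nat_lit 4194304) (nat_lit 4599057723) (.one (nat_lit 2102685) .nil)))),
   .two (nat_lit 2902458376) (nat_lit 159251431706) (.two (nat_lit 285212675) (nat_lit 236978880) (.two (nat_lit 16777217) (nat_lit 19027463511) (.one (nat_lit 28791804393) .nil))),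
   .two (nat_lit 16777224) (nat_lit 19134415030) (.two (nat_lit 16777218) (nat_lit 19033752753) (.two (nat_lit 50331649) (nat_lit 3460303036) (.two (nat_lit 8388608) (nat_lit 156971829760) (.one (nat_lit 1182798354) .nil)))),
   .two (nat_lit 184986632200) (nat_lit 10007609387) (.two (nat_lit 10007609350) (nat_lit 135266484) (.two (nat_lit 41943043) (nat_lit 1376780727) (.two (nat_lit 41943041) (nat_lit 46473939447) (.one (nat_lit 46507495904) .nil)))),
   .two (nat_lit 11584667657) (nat_lit 21811429413) (.two (nat_lit 46409973764) (nat_lit 166237045096) (.two (nat_lit 270532611) (nat_lit 28760343730) (.two (nat_lit 9766436865) (nat_lit 21818771708) (.two (nat_lit 2097152) (nat_lit 1052644) (.one (nat_lit 2102686) .nil))))),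
   .two (nat_lit 11559501832) (nat_lit 11577327659) (.two (nat_lit 185020186629) (nat_lit 1358954935) (.two (nat_lit 34603009) (nat_lit 2936014374) (.two (nat_lit 1048576) (nat_lit 16781285) (.one (nat_lit 1053838) .nil)))),
   .two (nat_lit 3527409672) (nat_lit 156969730232) (.two (nat_lit 2097155) (nat_lit 156569174456) (.two (nat_lit 2097153) (nat_lit 156569174834) (.two (nat_lit 1048576) (nat_lit 156969733346) (.one (nat_lit 2101876) .nil)))),
   .two (nat_lit 3458203656) (nat_lit 9881780260) (.two (nat_lit 3458203652) (nat_lit 721420994) (.two (nat_lit 2097153) (nat_lit 50334193) (.one (nat_lit 606081566) .nil))),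
   .two (nat_lit 721420296) (nat_lit 1846542362) (.two (nat_lit 11559501828) (nat_lit 2349858995) (.two (nat_lit 1358954499) (nat_lit 34603806) (.two (nat_lit 50331649) (nat_lit 158143089965) (.one (nat_lit 1410339271) .nil)))),
   .two (nat_lit 9781116936) (nat_lit 236978214) (.two (nat_lit 754974724) (nat_lit 159216828754) (.two (nat_lit 2097155) (nat_lit 285213490) (.two (nat_lit 1048576) (nat_lit 606080339) (.one (nat_lit 1054111) .nil)))),
   .two (nat_lit 1191182344) (nat_lit 156365750320) (.two (nat_lit 203423748) (nat_lit 174701150581) (.two (nat_lit 9781116931) (nat_lit 874513180) (.two (nat_lit 2097153) (nat_lit 10544482488) (.two (nat_lit 16777216) (nat_lit 8393258) .nil)))),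
   .two (nat_lit 75497480) (nat_lit 183912890393) (.two (nat_lit 12114198532) (nat_lit 184993972497) (.two (nat_lit 739246083) (nat_lit 184993972920) (.two (nat_lit 34603009) (nat_lit 880805395) (.two (nat_lit 1048576) (nat_lit 8392679) (.one (nat_lit 1054112) .nil))))),
   .two (nat_lit 9781116936) (nat_lit 1212153896) (.two (nat_lit 18928893956) (nat_lit 1761608121) (.two (nat_lit 37748737) (nat_lit 12062821852) .nil)),
   .two (nat_lit 11492392968) (nat_lit 2923429913) (.two (nat_lit 46409973764) (nat_lit 285212852) (.two (nat_lit 272629763) (nat_lit 16777913) (.two (nat_lit 4194305) (nat_lit 21793605901) (.two (nat_lit 4194304) (nat_lit 16781288) (.one (nat_lit 16782754) .nil))))),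
   .two (nat_lit 9948889096) (nat_lit 236978218) (.two (nat_lit 9948889092) (nat_lit 10437525885) (.two (nat_lit 721420290) (nat_lit 1175454421) (.two (nat_lit 2097153) (nat_lit 184550194) (.two (nat_lit 1048576) (nat_lit 158177694169) .nil)))),
   .two (nat_lit 3527409672) (nat_lit 873463874) (.two (nat_lit 1913651204) (nat_lit 1379926199) (.two (nat_lit 605028355) (nat_lit 47555019191) (.two (nat_lit 4194305) (nat_lit 158183982643) (.two (nat_lit 4194304) (nat_lit 3020950867) (.one (nat_lit 1054115) .nil))))),
   .two (nat_lit 47563407368) (nat_lit 11477712942) (.two (nat_lit 4194308) (nat_lit 218104198) (.two (nat_lit 2902458371) (nat_lit 47584379595) (.two (nat_lit 50331649) (nat_lit 13221496373) (.two (nat_lit 1048576) (nat_lit 3525315061) (.one (nat_lit 1054116) .nil))))),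
   .two (nat_lit 1291845640) (nat_lit 184416206874) (.two (nat_lit 1291845636) (nat_lit 18926797186) (.two (nat_lit 4599054339) (nat_lit 654312119) (.two (nat_lit 2097153) (nat_lit 46523223375) (.one (nat_lit 1054117) .nil)))),
   .two (nat_lit 2954887176) (nat_lit 47555018777) (.two (nat_lit 2954887172) (nat_lit 159224168627) (.two (nat_lit 169869314) (nat_lit 10007610038) (.two (nat_lit 2097153) (nat_lit 10913580580) (.two (nat_lit 2097152) (nat_lit 8392682) (.one (nat_lit 4632613364) .nil))))),
   .two (nat_lit 176160776) (nat_lit 20753416251) (.two (nat_lit 176160772) (nat_lit 47584379191) (.two (nat_lit 1358954499) (nat_lit 11580474096) (.two (nat_lit 620756993) (nat_lit 28697429530) (.two (nat_lit 16777216) (nat_lit 159224171008) (.one (nat_lit 16782758) .nil))))),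
   .two (nat_lit 37748744) (nat_lit 11618222122) (.two (nat_lit 4601151492) (nat_lit 10947133735) (.two (nat_lit 4194306) (nat_lit 19604177621) (.two (nat_lit 2097153) (nat_lit 742395239) (.one (nat_lit 19530781184) .nil)))),
   .two (nat_lit 2961178632) (nat_lit 10538188843) (.two (nat_lit 4194308) (nat_lit 679477629) (.two (nat_lit 809500675) (nat_lit 158183981799) (.two (nat_lit 37748737) (nat_lit 13187942585) (.two (nat_lit 1048576) (nat_lit 2101227) (.one (nat_lit 1847596100) .nil))))),
   .two (nat_lit 713031688) (nat_lit 12048138319) (.two (nat_lit 822083588) (nat_lit 158077026489) (.two (nat_lit 713031682) (nat_lit 2332033785) (.two (nat_lit 16777217) (nat_lit 166237046320) (.two (nat_lit 2097152) (nat_lit 8392684) (.one (nat_lit 3531608615) .nil))))),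
   .two (nat_lit 9881780232) (nat_lit 176161087) (.two (nat_lit 713031683) (nat_lit 185002361557) (.two (nat_lit 620756993) (nat_lit 1417676990) (.two (nat_lit 4194304) (nat_lit 4613738417) (.one (nat_lit 11614032338) .nil)))),
   .two (nat_lit 159224168456) (nat_lit 3558866970) (.two (nat_lit 2994733062) (nat_lit 9867100490) (.two (nat_lit 2954887171) (nat_lit 8389826) (.two (nat_lit 2097153) (nat_lit 8391398) (.two (nat_lit 1048576) (nat_lit 10437528899) (.one (nat_lit 2102695) .nil))))),
   .two (nat_lit 1291845640) (nat_lit 11577327706) (.two (nat_lit 117440516) (nat_lit 19127075305) (.two (nat_lit 4599054339) (nat_lit 185002361546) (.two (nat_lit 2097153) (nat_lit 16779534) (.two (nat_lit 1048576) (nat_lit 16781293) (.one (nat_lit 2102696) .nil))))),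
   .two (nat_lit 285212680) (nat_lit 19532873764) (.two (nat_lit 218103812) (nat_lit 840958252) (.two (nat_lit 11546918915) (nat_lit 218104501) (.two (nat_lit 606076929) (nat_lit 4195888) (.two (nat_lit 2097152) (nat_lit 19612569506) (.one (nat_lit 2102697) .nil))))),
   .two (nat_lit 9781116936) (nat_lit 12620660762) (.two (nat_lit 184419352580) (nat_lit 21223179001) (.two (nat_lit 37748737) (nat_lit 158662134025) (.two (nat_lit 1048576) (nat_lit 3024097758) .nil))),
   .two (nat_lit 183848927240) (nat_lit 166196150299) (.two (nat_lit 1846542340) (nat_lit 11513364919) (.two (nat_lit 9765388289) (nat_lit 20740834845) (.two (nat_lit 1048576) (nat_lit 171971053) .nil))),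
   .two (nat_lit 46414168072) (nat_lit 10907287593) (.two (nat_lit 10336862212) (nat_lit 156372042167) (.two (nat_lit 2097153) (nat_lit 746589408) (.one (nat_lit 184987685317) .nil))),
   .two (nat_lit 9934209032) (nat_lit 4605345817) (.two (nat_lit 169869316) (nat_lit 13195280563) (.two (nat_lit 209715203) (nat_lit 606078530) (.two (nat_lit 1048576) (nat_lit 606080953) (.one (nat_lit 1053301) .nil)))),
   .two (nat_lit 169869320) (nat_lit 184549401) (.two (nat_lit 169869316) (nat_lit 12633243833) (.two (nat_lit 9948889091) (nat_lit 12115247823) (.two (nat_lit 2097153) (nat_lit 2886731948) (.two (nat_lit 2097152) (nat_lit 12633246206) (.one (nat_lit 158176646354) .nil))))),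
   .two (nat_lit 47563407368) (nat_lit 47555018932) (.two (nat_lit 21785214979) (nat_lit 16778435) (.two (nat_lit 16777217) (nat_lit 46481279204) (.two (nat_lit 1048576) (nat_lit 11484006913) (.one (nat_lit 8393308) .nil)))),
   .two (nat_lit 2887778312) (nat_lit 12050235492) (.two (nat_lit 205520900) (nat_lit 1746927801) (.two (nat_lit 3458203651) (nat_lit 47550825618) (.two (nat_lit 37748737) (nat_lit 10907289800) (.two (nat_lit 4194304) (nat_lit 1052654) (.one (nat_lit 2102698) .nil))))),
   .two (nat_lit 272629768) (nat_lit 10376708189) (.two (nat_lit 13191086084) (nat_lit 157043131153) (.two (nat_lit 8388609) (nat_lit 2990541307) (.one (nat_lit 19096670835) .nil))),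
   .two (nat_lit 11492392968) (nat_lit 166196150299) (.two (nat_lit 117440516) (nat_lit 2349859255) (.two (nat_lit 50331649) (nat_lit 9933163820) (.one (nat_lit 20719866429) .nil))),
   .two (nat_lit 46508539914) (nat_lit 46409973787) (.two (nat_lit 3525312516) (nat_lit 159253528968) (.two (nat_lit 2887778306) (nat_lit 4195524) (.two (nat_lit 9766436865) (nat_lit 10372516000) (.two (nat_lit 2097152) (nat_lit 2923433946) (.one (nat_lit 183916040705) .nil))))),
   .two (nat_lit 218103816) (nat_lit 1212153899) (.two (nat_lit 9781116932) (nat_lit 9802088887) (.two (nat_lit 4194305) (nat_lit 156380432898) (.one (nat_lit 19042145496) .nil))),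
   .two (nat_lit 16777224) (nat_lit 156372041767) (.two (nat_lit 46414168068) (nat_lit 620757060) (.two (nat_lit 8388611) (nat_lit 16778772) (.two (nat_lit 8388608) (nat_lit 16781296) (.one (nat_lit 1182798971) .nil)))),
   .two (nat_lit 169869320) (nat_lit 880803880) (.two (nat_lit 1175453700) (nat_lit 9867100950) (.two (nat_lit 8388609) (nat_lit 47582282546) (.two (nat_lit 2097152) (nat_lit 276827445) (.one (nat_lit 2102700) .nil)))),
   .two (nat_lit 721420296) (nat_lit 4638900272) (.two (nat_lit 1350565892) (nat_lit 721420727) (.two (nat_lit 37748737) (nat_lit 11022632472) (.two (nat_lit 4194304) (nat_lit 16780670) (.one (nat_lit 9982448114) .nil)))),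
   .two (nat_lit 276824072) (nat_lit 11479810133) (.two (nat_lit 2887778308) (nat_lit 157043130738) (.two (nat_lit 28690087939) (nat_lit 2098373) (.two (nat_lit 34603009) (nat_lit 37247518979) (.two (nat_lit 1048576) (nat_lit 19029561224) (.one (nat_lit 1054125) .nil))))),
   .two (nat_lit 169869320) (nat_lit 10506731547) (.two (nat_lit 169869316) (nat_lit 10506731588) (.two (nat_lit 166132187138) (nat_lit 3525313720) (.two (nat_lit 156367847425) (nat_lit 12114200101) (.two (nat_lit 1048576) (nat_lit 203428458) .nil)))),
   .two (nat_lit 2889875464) (nat_lit 3021996082) (.two (nat_lit 2954887172) (nat_lit 10540286133) (.two (nat_lit 46407876610) (nat_lit 10338960088) (.two (nat_lit 156365750273) (nat_lit 2420114980) (.two (nat_lit 2097152) (nat_lit 4198386) (.one (nat_lit 19029562507) .nil))))),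
   .two (nat_lit 11479810056) (nat_lit 46414168104) (.two (nat_lit 606076932) (nat_lit 3028287927) (.two (nat_lit 2097153) (nat_lit 8390216) (.two (nat_lit 2097152) (nat_lit 1379930613) .nil))),
   .two (nat_lit 46978301960) (nat_lit 156569174084) (.two (nat_lit 2889875458) (nat_lit 28087157494) (.two (nat_lit 156365750273) (nat_lit 4196623) (.two (nat_lit 2097152) (nat_lit 4198387) (.one (nat_lit 2102702) .nil)))),
   .two (nat_lit 176160776) (nat_lit 46980399160) (.two (nat_lit 1779433476) (nat_lit 310378797) (.two (nat_lit 9933160451) (nat_lit 19033752693) (.two (nat_lit 605028353) (nat_lit 4030728853) (.two (nat_lit 1048576) (nat_lit 10016001972) (.one (nat_lit 1054127) .nil))))),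
   .two (nat_lit 809500680) (nat_lit 269484081) (.two (nat_lit 809500676) (nat_lit 18925748564) (.two (nat_lit 4194306) (nat_lit 2357199591) (.two (nat_lit 16777217) (nat_lit 28697430516) (.one (nat_lit 8394160) .nil)))),
   .two (nat_lit 205520904) (nat_lit 11584667675) (.two (nat_lit 4194308) (nat_lit 21785215044) (.two (nat_lit 9933160451) (nat_lit 13228835531) (.two (nat_lit 605028353) (nat_lit 47584380443) (.two (nat_lit 1048576) (nat_lit 4197759) (.one (nat_lit 4199857) .nil))))),
   .two (nat_lit 13195280392) (nat_lit 18925748283) (.two (nat_lit 1753219076) (nat_lit 10335813942) (.two (nat_lit 270532611) (nat_lit 183853122703) (.two (nat_lit 2097153) (nat_lit 336596265) (.one (nat_lit 21785220294) .nil)))),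
   .two (nat_lit 612368392) (nat_lit 166229704752) (.two (nat_lit 21777874948) (nat_lit 2357199609) (.two (nat_lit 2097153) (nat_lit 11510222121) (.one (nat_lit 2102709) .nil))),
   .two (nat_lit 16777224) (nat_lit 10370416693) (.two (nat_lit 1780482052) (nat_lit 285213366) (.two (nat_lit 606076929) (nat_lit 156573371747) (.one (nat_lit 10007613918) .nil))),
   .two (nat_lit 47563407368) (nat_lit 4030726239) (.two (nat_lit 205520900) (nat_lit 654311604) (.two (nat_lit 11479810050) (nat_lit 3557819578) (.two (nat_lit 37748737) (nat_lit 166211881148) (.two (nat_lit 1048576) (nat_lit 620759552) (.one (nat_lit 4631564818) .nil))))),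
   .two (nat_lit 713031688) (nat_lit 10436476955) (.two (nat_lit 11551113220) (nat_lit 166196150711) (.two (nat_lit 41943041) (nat_lit 165525063214) (.two (nat_lit 1048576) (nat_lit 19537070582) (.one (nat_lit 1054135) .nil)))),
   .two (nat_lit 16777224) (nat_lit 166199296086) (.two (nat_lit 285212676) (nat_lit 1212154035) (.two (nat_lit 822083587) (nat_lit 166232851151) (.two (nat_lit 37748737) (nat_lit 46523222153) (.two (nat_lit 8388608) (nat_lit 19599985152) (.one (nat_lit 16782778) .nil))))),
   .two (nat_lit 183853121544) (nat_lit 165526110252) (.two (nat_lit 1753219076) (nat_lit 13222543713) (.two (nat_lit 28093448195) (nat_lit 1344275230) (.two (nat_lit 34603009) (nat_lit 10370418213) (.two (nat_lit 1048576) (nat_lit 47588575732) (.one (nat_lit 8394171) .nil))))),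
   .two (nat_lit 46407876616) (nat_lit 1291845672) (.two (nat_lit 1291845636) (nat_lit 166197199340) (.two (nat_lit 2969567235) (nat_lit 174686471351) (.two (nat_lit 2097153) (nat_lit 156481096415) (.two (nat_lit 1048576) (nat_lit 270535975) (.one (nat_lit 1054140) .nil))))),
   .two (nat_lit 4194312) (nat_lit 28758245417) (.two (nat_lit 1343225860) (nat_lit 1914700133) (.two (nat_lit 4601151491) (nat_lit 874513161) (.two (nat_lit 156367847425) (nat_lit 46977254946) (.two (nat_lit 1048576) (nat_lit 843057664) (.one (nat_lit 20737692204) .nil))))),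
   .two (nat_lit 4194312) (nat_lit 3028287530) (.two (nat_lit 169869316) (nat_lit 28697428275) (.two (nat_lit 2097155) (nat_lit 28793897711) (.two (nat_lit 2097153) (nat_lit 2920286708) (.one (nat_lit 166199301234) .nil)))),
   .two (nat_lit 83886088) (nat_lit 12117344312) (.two (nat_lit 158077026308) (nat_lit 4613735113) (.two (nat_lit 37748737) (nat_lit 46422558241) (.two (nat_lit 2097152) (nat_lit 13237226859) (.one (nat_lit 8394173) .nil)))),
   .two (nat_lit 2887778312) (nat_lit 2424307800) (.two (nat_lit 2961178628) (nat_lit 20738736308) (.two (nat_lit 10343153667) (nat_lit 184986633400) (.two (nat_lit 2097153) (nat_lit 19604179180) (.two (nat_lit 1048576) (nat_lit 773851652) (.one (nat_lit 1054142) .nil))))),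
   .two (nat_lit 176160776) (nat_lit 159216828457) (.two (nat_lit 176160772) (nat_lit 10942939448) (.two (nat_lit 10503585795) (nat_lit 183949591221) (.two (nat_lit 8388609) (nat_lit 1749027052) (.two (nat_lit 1048576) (nat_lit 157043134975) .nil)))),
   .two (nat_lit 4194312) (nat_lit 813695026) (.two (nat_lit 169869316) (nat_lit 11614028070) (.two (nat_lit 46414168067) (nat_lit 3524264656) (.two (nat_lit 9765388289) (nat_lit 47588575495) (.two (nat_lit 2097152) (nat_lit 1052032) (.one (nat_lit 47582286441) .nil))))),
   .two (nat_lit 16777224) (nat_lit 21214789680) (.two (nat_lit 184423546884) (nat_lit 16777655) (.two (nat_lit 41943041) (nat_lit 285213489) (.two (nat_lit 16777216) (nat_lit 2100451) (.one (nat_lit 16782783) .nil)))),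
   .two (nat_lit 46980399112) (nat_lit 19093520411) (.two (nat_lit 156367847428) (nat_lit 156465365431) (.two (nat_lit 156367847425) (nat_lit 166196151089) (.two (nat_lit 4194304) (nat_lit 19127078263) (.one (nat_lit 12150903238) .nil)))),
   .two (nat_lit 13195280392) (nat_lit 4634705988) (.two (nat_lit 13191086083) (nat_lit 19100861170) (.two (nat_lit 620756993) (nat_lit 158079126008) (.one (nat_lit 18928898563) .nil))),
   .two (nat_lit 11479810056) (nat_lit 2969567259) (.two (nat_lit 218103812) (nat_lit 19130220983) (.two (nat_lit 16777217) (nat_lit 165528209923) (.one (nat_lit 4199872) .nil))),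
   .two (nat_lit 713031688) (nat_lit 11513364524) (.two (nat_lit 13191086084) (nat_lit 11618222519) (.two (nat_lit 4194305) (nat_lit 28697431275) (.one (nat_lit 2319454668) .nil))),
   .two (nat_lit 16777224) (nat_lit 46414168089) (.two (nat_lit 46414168068) (nat_lit 16777656) (.two (nat_lit 8388609) (nat_lit 285213489) (.two (nat_lit 8388608) (nat_lit 16779793) (.one (nat_lit 16782787) .nil)))),
   .two (nat_lit 1277165576) (nat_lit 11626610752) (.two (nat_lit 822083588) (nat_lit 11543773623) (.two (nat_lit 16777217) (nat_lit 605031732) (.one (nat_lit 1054149) .nil))),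
   .two (nat_lit 1291845640) (nat_lit 174755676212) (.two (nat_lit 713031684) (nat_lit 1291845811) (.two (nat_lit 41943043) (nat_lit 47584379599) (.two (nat_lit 41943041) (nat_lit 809502273) (.two (nat_lit 16777216) (nat_lit 13228837364) (.one (nat_lit 16782790) .nil))))),
   .two (nat_lit 822083592) (nat_lit 11479810100) (.two (nat_lit 46980399108) (nat_lit 10452206316) (.two (nat_lit 4194305) (nat_lit 185002362434) (.two (nat_lit 8388608) (nat_lit 47550829090) .nil))),
   .two (nat_lit 10343153672) (nat_lit 21208498203) (.two (nat_lit 158144135172) (nat_lit 109052345) (.two (nat_lit 606076929) (nat_lit 746587705) (.two (nat_lit 1048576) (nat_lit 10007612789) (.one (nat_lit 2102728) .nil)))),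
   .two (nat_lit 184986632200) (nat_lit 10506731561) (.two (nat_lit 28693233668) (nat_lit 185020187063) (.two (nat_lit 34603009) (nat_lit 339740218) (.two (nat_lit 4194304) (nat_lit 303041766) (.one (nat_lit 839914640) .nil)))),
   .two (nat_lit 184549384) (nat_lit 874512471) (.two (nat_lit 183845781508) (nat_lit 1358954675) (.two (nat_lit 270532611) (nat_lit 83886774) (.two (nat_lit 9766436865) (nat_lit 13221498192) (.one (nat_lit 28790755806) .nil)))),
   .two (nat_lit 176160776) (nat_lit 2316304425) (.two (nat_lit 218103812) (nat_lit 1048869) (.two (nat_lit 176160770) (nat_lit 46473937652) (.two (nat_lit 34603009) (nat_lit 243271882) (.two (nat_lit 1048576) (nat_lit 9873394925) (.one (nat_lit 1054153) .nil))))),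
   .two (nat_lit 3458203656) (nat_lit 3028287878) (.two (nat_lit 8388610) (nat_lit 1176503015) (.two (nat_lit 8388609) (nat_lit 28758247571) (.two (nat_lit 16777216) (nat_lit 46481280768) (.one (nat_lit 28705821225) .nil)))),
   .two (nat_lit 272629768) (nat_lit 176160819) (.two (nat_lit 13191086084) (nat_lit 156573368761) (.two (nat_lit 4194305) (nat_lit 46514832944) (.two (nat_lit 4194304) (nat_lit 157043133811) (.one (nat_lit 4199030) .nil)))),
   .two (nat_lit 11479810056) (nat_lit 46414168091) (.two (nat_lit 11479810052) (nat_lit 4605345971) (.two (nat_lit 13191086083) (nat_lit 343933622) (.two (nat_lit 156367847425) (nat_lit 183846831642) (.two (nat_lit 2097152) (nat_lit 11580476752) (.one (nat_lit 46407881234) .nil))))),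
   .two (nat_lit 9948889096) (nat_lit 673185832) (.two (nat_lit 10336862212) (nat_lit 20753416516) (.two (nat_lit 46407876610) (nat_lit 2969567937) (.two (nat_lit 2097153) (nat_lit 16779761) (.one (nat_lit 654316130) .nil)))),
   .two (nat_lit 9781116936) (nat_lit 740294702) (.two (nat_lit 218103812) (nat_lit 1948254526) (.two (nat_lit 806354947) (nat_lit 20719862474) (.two (nat_lit 2097153) (nat_lit 13203671267) (.two (nat_lit 1048576) (nat_lit 102763817) (.one (nat_lit 2102731) .nil))))),
   .two (nat_lit 16777224) (nat_lit 2894069945) (.two (nat_lit 16777218) (nat_lit 37320918177) (.two (nat_lit 16777217) (nat_lit 184993974933) (.two (nat_lit 8388608) (nat_lit 721424942) .nil))),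
   .two (nat_lit 822083592) (nat_lit 13224640805) (.two (nat_lit 9933160451) (nat_lit 2902459061) (.two (nat_lit 50331649) (nat_lit 9866053157) (.two (nat_lit 4194304) (nat_lit 158158818602) (.one (nat_lit 11543777763) .nil)))),
   .two (nat_lit 205520904) (nat_lit 28093448219) (.two (nat_lit 41943044) (nat_lit 12050235576) (.two (nat_lit 183853121538) (nat_lit 1049802) (.two (nat_lit 4194305) (nat_lit 8391401) (.two (nat_lit 4194304) (nat_lit 46406831331) (.one (nat_lit 21207454794) .nil))))),
   .two (nat_lit 11479810056) (nat_lit 158192370012) (.two (nat_lit 822083587) (nat_lit 12117344695) (.two (nat_lit 9781116929) (nat_lit 10003418419) (.one (nat_lit 10003420249) .nil))),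
   .two (nat_lit 41943048) (nat_lit 9798942763) (.two (nat_lit 218103812) (nat_lit 21214789814) (.two (nat_lit 28086108163) (nat_lit 874513104) (.two (nat_lit 2097153) (nat_lit 352324283) (.two (nat_lit 16777216) (nat_lit 840961311) (.one (nat_lit 174686474857) .nil))))),
   .two (nat_lit 11479810056) (nat_lit 4605345860) (.two (nat_lit 809500675) (nat_lit 13195281078) (.two (nat_lit 37748737) (nat_lit 243271817) (.two (nat_lit 16777216) (nat_lit 159253533220) .nil))),
   .two (nat_lit 2969567240) (nat_lit 2927624248) (.two (nat_lit 83886084) (nat_lit 9873391801) (.two (nat_lit 176160771) (nat_lit 1291846330) (.two (nat_lit 8388609) (nat_lit 46422558871) (.two (nat_lit 8388608) (nat_lit 16780673) (.one (nat_lit 16782800) .nil))))),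
   .two (nat_lit 713031688) (nat_lit 822083652) (.two (nat_lit 16777218) (nat_lit 158150428198) (.two (nat_lit 16777216) (nat_lit 3565160972) (.one (nat_lit 8394193) .nil))),
   .two (nat_lit 9781116936) (nat_lit 28764536883) (.two (nat_lit 75497476) (nat_lit 156581757295) (.two (nat_lit 721420291) (nat_lit 1350566627) (.two (nat_lit 16777217) (nat_lit 310380068) (.two (nat_lit 8388608) (nat_lit 2902462212) (.one (nat_lit 16782802) .nil))))),
   .two (nat_lit 11551113224) (nat_lit 158143086630) (.two (nat_lit 742391812) (nat_lit 243269811) (.two (nat_lit 708837379) (nat_lit 41943776) (.two (nat_lit 606076929) (nat_lit 12050237946) (.one (nat_lit 1054163) .nil)))),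
   .two (nat_lit 754974728) (nat_lit 772800552) (.two (nat_lit 183912890374) (nat_lit 1795162456) (.two (nat_lit 184986632195) (nat_lit 687866297) (.two (nat_lit 34603009) (nat_lit 251659824) (.two (nat_lit 1048576) (nat_lit 28772928883) (.one (nat_lit 1054164) .nil))))),
   .two (nat_lit 169869320) (nat_lit 184549417) (.two (nat_lit 285212676) (nat_lit 28690088271) (.two (nat_lit 9781116931) (nat_lit 168821472) (.two (nat_lit 50331649) (nat_lit 11006903858) (.two (nat_lit 2097152) (nat_lit 1052672) (.one (nat_lit 158091711015) .nil))))),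
   .two (nat_lit 1178599432) (nat_lit 3525312571) (.two (nat_lit 9934209028) (nat_lit 138412217) (.two (nat_lit 13187940355) (nat_lit 12150899427) (.two (nat_lit 34603009) (nat_lit 2990540338) (.two (nat_lit 1048576) (nat_lit 2101249) (.one (nat_lit 9765392935) .nil))))),
   .two (nat_lit 2961178632) (nat_lit 20738736154) (.two (nat_lit 1277165572) (nat_lit 183845781811) (.two (nat_lit 9934209027) (nat_lit 37313578142) (.two (nat_lit 605028353) (nat_lit 156365751832) (.two (nat_lit 1048576) (nat_lit 12048140789) (.one (nat_lit 1053305) .nil))))),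
   .two (nat_lit 721420296) (nat_lit 158177689648) (.two (nat_lit 2887778308) (nat_lit 11559502263) (.two (nat_lit 2097153) (nat_lit 4043310618) (.two (nat_lit 1048576) (nat_lit 10538193479) .nil))),
   .two (nat_lit 16777224) (nat_lit 2956984366) (.two (nat_lit 285212676) (nat_lit 9869197613) (.two (nat_lit 13191086083) (nat_lit 158662132431) (.two (nat_lit 37748737) (nat_lit 47563408962) (.two (nat_lit 4194304) (nat_lit 16781314) (.one (nat_lit 19029561821) .nil))))),
   .two (nat_lit 754974728) (nat_lit 156535619611) (.two (nat_lit 156969730052) (nat_lit 21814575442) (.two (nat_lit 174753579011) (nat_lit 19029557688) (.two (nat_lit 9766436865) (nat_lit 1782580775) (.two (nat_lit 2097152) (nat_lit 4198403) (.one (nat_lit 159253534130) .nil))))),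
   .two (nat_lit 184549384) (nat_lit 46978302008) (.two (nat_lit 1291845636) (nat_lit 1344274617) (.two (nat_lit 10385096707) (nat_lit 2098379) (.two (nat_lit 2097153) (nat_lit 83889464) (.one (nat_lit 12148806091) .nil)))),
   .two (nat_lit 1291845640) (nat_lit 21811429421) (.two (nat_lit 9881780228) (nat_lit 158646403511) (.two (nat_lit 605028353) (nat_lit 2969568050) (.two (nat_lit 16777216) (nat_lit 10503589164) (.one (nat_lit 1054165) .nil)))),
   .two (nat_lit 184549384) (nat_lit 10343153691) (.two (nat_lit 20644364292) (nat_lit 184549815) (.two (nat_lit 612368385) (nat_lit 2332035589) (.one (nat_lit 822088237) .nil))),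
   .two (nat_lit 46978301960) (nat_lit 3028287531) (.two (nat_lit 46978301956) (nat_lit 343933215) (.two (nat_lit 46407876610) (nat_lit 343933367) (.two (nat_lit 8388609) (nat_lit 46474986290) (.two (nat_lit 2097152) (nat_lit 8392066) (.one (nat_lit 1853887792) .nil))))),
   .two (nat_lit 3464495112) (nat_lit 156380430418) (.two (nat_lit 10369368068) (nat_lit 13237223492) (.two (nat_lit 176160771) (nat_lit 46422557447) (.two (nat_lit 605028353) (nat_lit 169870873) (.two (nat_lit 2097152) (nat_lit 1052035) (.one (nat_lit 1054166) .nil))))),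
   .two (nat_lit 2902458376) (nat_lit 21781020854) (.two (nat_lit 46409973763) (nat_lit 158183981808) (.two (nat_lit 4194305) (nat_lit 184431937052) (.two (nat_lit 4194304) (nat_lit 158091709797) (.one (nat_lit 158091711064) .nil)))),
   .two (nat_lit 612368392) (nat_lit 10015998046) (.two (nat_lit 75497476) (nat_lit 21827158508) (.two (nat_lit 176160770) (nat_lit 10385097911) (.two (nat_lit 16777217) (nat_lit 46414170302) (.two (nat_lit 16777216) (nat_lit 772805153) .nil)))),
   .two (nat_lit 16777224) (nat_lit 174688567632) (.two (nat_lit 16777218) (nat_lit 9969861388) (.two (nat_lit 4194305) (nat_lit 9948892506) (.one (nat_lit 4199895) .nil))),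
   .two (nat_lit 713031688) (nat_lit 9881780266) (.two (nat_lit 1291845636) (nat_lit 1417675192) (.two (nat_lit 620756993) (nat_lit 19537070587) (.one (nat_lit 4605350411) .nil))),
   .two (nat_lit 9948889096) (nat_lit 35651632) (.two (nat_lit 46978301956) (nat_lit 157051519369) (.two (nat_lit 165526110211) (nat_lit 184431936207) (.two (nat_lit 8388609) (nat_lit 9867102708) (.one (nat_lit 10437530077) .nil)))),
   .two (nat_lit 1358954504) (nat_lit 46474985498) (.two (nat_lit 3525312516) (nat_lit 166144770337) (.two (nat_lit 2887778306) (nat_lit 11559502263) (.two (nat_lit 2097153) (nat_lit 9814674739) (.one (nat_lit 606081488) .nil)))),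
   .two (nat_lit 169869320) (nat_lit 28693233717) (.two (nat_lit 176160772) (nat_lit 156968681658) (.two (nat_lit 8388610) (nat_lit 158177690798) (.two (nat_lit 606076929) (nat_lit 1050901) (.two (nat_lit 8388608) (nat_lit 2101252) (.one (nat_lit 158647456229) .nil))))),
   .two (nat_lit 165532401672) (nat_lit 20637024298) (.two (nat_lit 158075977732) (nat_lit 109052396) (.two (nat_lit 10343153667) (nat_lit 13203669760) (.two (nat_lit 612368385) (nat_lit 9933162023) (.two (nat_lit 8388608) (nat_lit 1052677) (.one (nat_lit 19596842310) .nil))))),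
   .two (nat_lit 156372041736) (nat_lit 12117344324) (.two (nat_lit 13191086083) (nat_lit 47588573912) (.two (nat_lit 9765388289) (nat_lit 159219976696) (.one (nat_lit 4199896) .nil))),
   .two (nat_lit 620757000) (nat_lit 1779433535) (.two (nat_lit 1358954500) (nat_lit 605028662) (.two (nat_lit 1343225859) (nat_lit 9948889786) (.two (nat_lit 8388609) (nat_lit 9933162023) (.two (nat_lit 8388608) (nat_lit 1052036) (.one (nat_lit 21785219528) .nil))))),
   .two (nat_lit 184549384) (nat_lit 11543773208) (.two (nat_lit 620756996) (nat_lit 303039218) (.two (nat_lit 16777217) (nat_lit 1051370) (.two (nat_lit 16777216) (nat_lit 165525065714) (.one (nat_lit 156481098182) .nil)))),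
   .two (nat_lit 101711880) (nat_lit 159266111556) (.two (nat_lit 11476664322) (nat_lit 174688567735) (.two (nat_lit 34603009) (nat_lit 71306557) (.one (nat_lit 4601156077) .nil))),
   .two (nat_lit 83886088) (nat_lit 34603054) (.two (nat_lit 1358954500) (nat_lit 34603191) (.two (nat_lit 12062818307) (nat_lit 1049804) (.two (nat_lit 156365750273) (nat_lit 1050138) (.two (nat_lit 2097152) (nat_lit 37246470656) (.one (nat_lit 1054169) .nil))))),
   .two (nat_lit 46414168072) (nat_lit 10506731561) (.two (nat_lit 28693233668) (nat_lit 46414168503) (.two (nat_lit 9768534017) (nat_lit 184423548448) (.two (nat_lit 4194304) (nat_lit 1786776066) (.one (nat_lit 46414172758) .nil)))),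
   .two (nat_lit 4613734408) (nat_lit 306184372) (.two (nat_lit 822083587) (nat_lit 4195533) (.two (nat_lit 16777217) (nat_lit 47550826724) (.two (nat_lit 1048576) (nat_lit 4197765) (.one (nat_lit 1749029479) .nil)))),
   .two (nat_lit 754974728) (nat_lit 21778923566) (.two (nat_lit 203423748) (nat_lit 822083652) (.two (nat_lit 2902458370) (nat_lit 12115247884) (.two (nat_lit 9766436865) (nat_lit 37329307171) (.two (nat_lit 4194304) (nat_lit 687870459) .nil)))),
   .two (nat_lit 9934209032) (nat_lit 166132187163) (.two (nat_lit 159217876996) (nat_lit 10506731959) (.two (nat_lit 2097153) (nat_lit 2990541320) (.one (nat_lit 4199898) .nil))),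
   .two (nat_lit 11479810056) (nat_lit 4605345860) (.two (nat_lit 809500675) (nat_lit 19033752292) (.two (nat_lit 37748737) (nat_lit 8390934) (.two (nat_lit 4194304) (nat_lit 8392070) (.one (nat_lit 775950815) .nil)))),
   .two (nat_lit 4194312) (nat_lit 304087132) (.two (nat_lit 3460300804) (nat_lit 1310720276) (.two (nat_lit 270532611) (nat_lit 156367848206) (.two (nat_lit 34603009) (nat_lit 2099479) (.two (nat_lit 1048576) (nat_lit 4198406) (.one (nat_lit 19026416847) .nil))))),
   .two (nat_lit 184549384) (nat_lit 28798091358) (.two (nat_lit 176160772) (nat_lit 183928619739) (.two (nat_lit 8388609) (nat_lit 21827159589) (.two (nat_lit 8388608) (nat_lit 158192374273) .nil))),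
   .two (nat_lit 10370416648) (nat_lit 3527409688) (.two (nat_lit 10538188806) (nat_lit 10506731588) (.two (nat_lit 639631363) (nat_lit 12050236106) (.two (nat_lit 606076929) (nat_lit 156367850816) (.one (nat_lit 183947498596) .nil)))),
   .two (nat_lit 4605345800) (nat_lit 1849688245) (.two (nat_lit 272629763) (nat_lit 880804280) (.two (nat_lit 4194305) (nat_lit 1786776928) (.one (nat_lit 28793901575) .nil))),
   .two (nat_lit 11492392968) (nat_lit 304087095) (.two (nat_lit 1191182340) (nat_lit 158647451991) (.two (nat_lit 9781116931) (nat_lit 2098382) (.two (nat_lit 37748737) (nat_lit 166130090802) (.two (nat_lit 4194304) (nat_lit 11525952109) .nil)))),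
   .two (nat_lit 12114198536) (nat_lit 620757276) (.two (nat_lit 11476664322) (nat_lit 16777913) (.two (nat_lit 9765388289) (nat_lit 12163484937) (.one (nat_lit 16782811) .nil))),
   .two (nat_lit 16777224) (nat_lit 156365750318) (.two (nat_lit 9768534020) (nat_lit 889192516) (.two (nat_lit 2889875458) (nat_lit 9766437305) (.two (nat_lit 16777217) (nat_lit 19597887013) (.two (nat_lit 2097152) (nat_lit 16781321) (.one (nat_lit 2102749) .nil))))),
   .two (nat_lit 9866051592) (nat_lit 612368739) (.two (nat_lit 1343225859) (nat_lit 12624855830) (.two (nat_lit 605028353) (nat_lit 37253809709) (.two (nat_lit 1048576) (nat_lit 8392071) (.one (nat_lit 1054174) .nil)))),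
   .two (nat_lit 9781116936) (nat_lit 1216348212) (.two (nat_lit 9781116932) (nat_lit 19100860782) (.two (nat_lit 117440515) (nat_lit 11484005575) (.two (nat_lit 16777217) (nat_lit 158183982647) (.two (nat_lit 16777216) (nat_lit 8392714) (.one (nat_lit 16782815) .nil))))),
   .two (nat_lit 10336862216) (nat_lit 10385096747) (.two (nat_lit 158077026308) (nat_lit 166144770522) (.two (nat_lit 69206019) (nat_lit 83886782) (.two (nat_lit 2097153) (nat_lit 822085772) (.two (nat_lit 4194304) (nat_lit 10351546955) .nil)))),
   .two (nat_lit 9781116936) (nat_lit 12148801623) (.two (nat_lit 47596961798) (nat_lit 11611930966) (.two (nat_lit 270532611) (nat_lit 285213366) (.two (nat_lit 2097153) (nat_lit 10452207159) (.two (nat_lit 1048576) (nat_lit 2100617) (.one (nat_lit 1054176) .nil))))),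
   .two (nat_lit 822083592) (nat_lit 184423547194) (.two (nat_lit 16777219) (nat_lit 185027527408) (.two (nat_lit 8388609) (nat_lit 20753417764) (.two (nat_lit 8388608) (nat_lit 16781324) (.one (nat_lit 9873396169) .nil)))),
   .two (nat_lit 166132187144) (nat_lit 209715508) (.two (nat_lit 10506731523) (nat_lit 813695766) (.two (nat_lit 37748737) (nat_lit 46481279496) (.one (nat_lit 8393339) .nil))),
   .two (nat_lit 754974728) (nat_lit 37313576997) (.two (nat_lit 28086108164) (nat_lit 3472884445) (.two (nat_lit 605028353) (nat_lit 1224740109) (.one (nat_lit 10955526731) .nil))),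
   .two (nat_lit 11492392968) (nat_lit 9936306227) (.two (nat_lit 46409973764) (nat_lit 788529939) (.two (nat_lit 156367847425) (nat_lit 16780011) (.two (nat_lit 4194304) (nat_lit 12163485460) (.one (nat_lit 4199905) .nil)))),
   .two (nat_lit 285212680) (nat_lit 37249613868) (.two (nat_lit 12050235396) (nat_lit 28101837516) (.two (nat_lit 16777217) (nat_lit 1277167141) (.two (nat_lit 2097152) (nat_lit 16780682) (.one (nat_lit 156567081419) .nil)))),
   .two (nat_lit 11492392968) (nat_lit 19532873766) (.two (nat_lit 10506731524) (nat_lit 1191182776) (.two (nat_lit 4194305) (nat_lit 46992984566) (.one (nat_lit 4199036) .nil))),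
   .two (nat_lit 37748744) (nat_lit 11618222107) (.two (nat_lit 606076932) (nat_lit 174692761786) (.two (nat_lit 21778923523) (nat_lit 1853883596) (.two (nat_lit 4194305) (nat_lit 13195282944) (.one (nat_lit 8394211) .nil)))),
   .two (nat_lit 2954887176) (nat_lit 10338959413) (.two (nat_lit 203423748) (nat_lit 2990538938) (.two (nat_lit 2887778306) (nat_lit 156468511494) (.two (nat_lit 4194305) (nat_lit 158144138586) (.one (nat_lit 2102756) .nil)))),
   .two (nat_lit 4601151496) (nat_lit 19027460123) (.two (nat_lit 156367847428) (nat_lit 11007951550) (.two (nat_lit 4194305) (nat_lit 1948255789) (.two (nat_lit 4194304) (nat_lit 2101262) (.one (nat_lit 46980403796) .nil)))),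
   .two (nat_lit 176160776) (nat_lit 843055142) (.two (nat_lit 176160772) (nat_lit 166232850727) (.two (nat_lit 8388611) (nat_lit 4634706359) (.two (nat_lit 8388609) (nat_lit 138414605) (.one (nat_lit 183920234954) .nil)))),
   .two (nat_lit 2969567240) (nat_lit 673185829) (.two (nat_lit 2969567236) (nat_lit 159217877378) (.two (nat_lit 69206019) (nat_lit 620757810) (.two (nat_lit 16777216) (nat_lit 158077029685) (.one (nat_lit 3460305493) .nil)))),
   .two (nat_lit 16777224) (nat_lit 9934209083) (.two (nat_lit 9948889092) (nat_lit 270532918) (.two (nat_lit 203423747) (nat_lit 19545457349) (.two (nat_lit 2097153) (nat_lit 4043311261) (.two (nat_lit 4194304) (nat_lit 2101264) (.one (nat_lit 158077031680) .nil))))),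
   .two (nat_lit 2902458376) (nat_lit 11544821808) (.two (nat_lit 218103812) (nat_lit 12618564338) (.two (nat_lit 2097153) (nat_lit 16780634) (.one (nat_lit 2102448) .nil))),
   .two (nat_lit 285212680) (nat_lit 28693233690) (.two (nat_lit 28693233668) (nat_lit 19612565797) (.two (nat_lit 1916796931) (nat_lit 150995740) (.two (nat_lit 9768534017) (nat_lit 1862272543) (.two (nat_lit 1048576) (nat_lit 742396379) .nil)))),
   .two (nat_lit 11479810056) (nat_lit 166196150311) (.two (nat_lit 739246084) (nat_lit 10506731798) (.two (nat_lit 11476664322) (nat_lit 12150899427) (.two (nat_lit 34603009) (nat_lit 174688568868) (.two (nat_lit 4194304) (nat_lit 1052690) (.one (nat_lit 156468515325) .nil))))),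
   .two (nat_lit 9781116936) (nat_lit 156971827238) (.two (nat_lit 1916796932) (nat_lit 158662132007) (.two (nat_lit 11479810050) (nat_lit 654312241) (.two (nat_lit 1048576) (nat_lit 37753468) .nil))),
   .two (nat_lit 612368392) (nat_lit 11492393002) (.two (nat_lit 754974724) (nat_lit 28764537125) (.two (nat_lit 11559501827) (nat_lit 28798092060) (.two (nat_lit 50331649) (nat_lit 2894072042) (.two (nat_lit 1048576) (nat_lit 2969570635) (.one (nat_lit 16782823) .nil))))),
   .two (nat_lit 285212680) (nat_lit 19029557274) (.two (nat_lit 166132187140) (nat_lit 37329306316) (.two (nat_lit 9768534017) (nat_lit 185002362411) (.two (nat_lit 4194304) (nat_lit 12062821754) (.one (nat_lit 1413485094) .nil)))),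
   .two (nat_lit 10336862216) (nat_lit 3527409691) (.two (nat_lit 46978301956) (nat_lit 157038936503) (.two (nat_lit 2097153) (nat_lit 708839925) (.one (nat_lit 183916041393) .nil))),
   .two (nat_lit 9781116936) (nat_lit 41943108) (.two (nat_lit 2902458370) (nat_lit 1853883080) (.two (nat_lit 2097153) (nat_lit 746587698) (.two (nat_lit 2097152) (nat_lit 8392077) (.one (nat_lit 8394218) .nil)))),
   .two (nat_lit 169869320) (nat_lit 184549401) (.two (nat_lit 47548727300) (nat_lit 1962934564) (.two (nat_lit 9948889091) (nat_lit 46507492089) (.two (nat_lit 606076929) (nat_lit 28772928895) (.one (nat_lit 2102763) .nil)))),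
   .two (nat_lit 11479810056) (nat_lit 1795162155) (.two (nat_lit 9781116934) (nat_lit 19130220984) (.two (nat_lit 50331649) (nat_lit 47550826010) (.two (nat_lit 16777216) (nat_lit 4197774) (.one (nat_lit 4199917) .nil)))),
   .two (nat_lit 2954887176) (nat_lit 176161111) (.two (nat_lit 2097155) (nat_lit 183853122354) (.two (nat_lit 1048576) (nat_lit 157036842283) (.one (nat_lit 1054191) .nil))),
   .two (nat_lit 276824072) (nat_lit 20638072858) (.two (nat_lit 4605345796) (nat_lit 159217877810) (.two (nat_lit 8388608) (nat_lit 11006904830) (.one (nat_lit 1054192) .nil))),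
   .two (nat_lit 157036838920) (nat_lit 159266111556) (.two (nat_lit 46407876610) (nat_lit 654312241) (.two (nat_lit 4194304) (nat_lit 4647293488) .nil)),
   .two (nat_lit 2887778312) (nat_lit 47550824505) (.two (nat_lit 11551113220) (nat_lit 19127075165) (.two (nat_lit 4599054339) (nat_lit 1749025209) (.two (nat_lit 2097153) (nat_lit 2416969244) (.two (nat_lit 2097152) (nat_lit 21781024131) (.one (nat_lit 4199921) .nil))))),
   .two (nat_lit 203423752) (nat_lit 19100860470) (.two (nat_lit 705691652) (nat_lit 46414168767) (.two (nat_lit 2097153) (nat_lit 4027582624) (.two (nat_lit 1048576) (nat_lit 2887781681) (.one (nat_lit 158143091975) .nil)))),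
   .two (nat_lit 176160776) (nat_lit 10537140271) (.two (nat_lit 218103812) (nat_lit 3020947750) (.two (nat_lit 159224168451) (nat_lit 336593695) (.two (nat_lit 34603009) (nat_lit 2323646722) (.two (nat_lit 1048576) (nat_lit 8392729) (.one (nat_lit 12121543876) .nil))))),
   .two (nat_lit 8388616) (nat_lit 9881780266) (.two (nat_lit 1291845636) (nat_lit 8388932) (.two (nat_lit 9948889091) (nat_lit 1417675455) (.two (nat_lit 620756993) (nat_lit 209716767) (.two (nat_lit 2097152) (nat_lit 9881783601) (.one (nat_lit 16782834) .nil))))),
   .two (nat_lit 9934209032) (nat_lit 46980399130) (.two (nat_lit 47548727300) (nat_lit 46980399377) (.two (nat_lit 2954887171) (nat_lit 46980399800) (.two (nat_lit 2097153) (nat_lit 306185747) (.two (nat_lit 2097152) (nat_lit 4197775) (.one (nat_lit 2102771) .nil))))),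
   .two (nat_lit 47555018760) (nat_lit 37316722734) (.two (nat_lit 4605345796) (nat_lit 13224640580) (.two (nat_lit 46414168066) (nat_lit 28760343332) (.two (nat_lit 9781116929) (nat_lit 158649551350) (.one (nat_lit 4199038) .nil)))),
   .two (nat_lit 285212680) (nat_lit 156468510746) (.two (nat_lit 28693233668) (nat_lit 156481093927) (.two (nat_lit 1916796931) (nat_lit 11492393663) (.two (nat_lit 9768534017) (nat_lit 1291847870) (.two (nat_lit 1048576) (nat_lit 46510641697) .nil)))),
   .two (nat_lit 9934209032) (nat_lit 310378564) (.two (nat_lit 2097155) (nat_lit 28764537548) (.two (nat_lit 34603009) (nat_lit 10913580609) (.two (nat_lit 2097152) (nat_lit 165525064180) (.one (nat_lit 1054196) .nil)))),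
   .two (nat_lit 83886088) (nat_lit 75497566) (.two (nat_lit 12054429700) (nat_lit 10452205863) (.two (nat_lit 184993972227) (nat_lit 1291846336) (.two (nat_lit 41943041) (nat_lit 11492395198) (.two (nat_lit 1048576) (nat_lit 166203493707) (.one (nat_lit 1954551271) .nil))))),
   .two (nat_lit 822083592) (nat_lit 156535619652) (.two (nat_lit 16777218) (nat_lit 28089254603) (.two (nat_lit 4194305) (nat_lit 11626612869) (.two (nat_lit 8388608) (nat_lit 876613368) (.one (nat_lit 2889880640) .nil)))),
   .two (nat_lit 9768534024) (nat_lit 10385096731) (.two (nat_lit 218103812) (nat_lit 159219974585) (.two (nat_lit 16777217) (nat_lit 47550826032) (.two (nat_lit 2097152) (nat_lit 4197776) (.one (nat_lit 4199926) .nil)))),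
   .two (nat_lit 620757000) (nat_lit 185027526704) (.two (nat_lit 2961178628) (nat_lit 1358954935) (.two (nat_lit 8388609) (nat_lit 46992983578) (.two (nat_lit 8388608) (nat_lit 16781344) (.one (nat_lit 46977258824) .nil)))),
   .two (nat_lit 2887778312) (nat_lit 754974762) (.two (nat_lit 117440516) (nat_lit 37314626028) (.two (nat_lit 11476664322) (nat_lit 159266112212) (.two (nat_lit 9765388289) (nat_lit 251661609) (.one (nat_lit 16782839) .nil)))),
   .two (nat_lit 20638072840) (nat_lit 20637024580) (.two (nat_lit 11546918915) (nat_lit 156968682223) (.two (nat_lit 156364701697) (nat_lit 156567078424) (.two (nat_lit 1048576) (nat_lit 12115249653) (.one (nat_lit 34608548) .nil)))),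
   .two (nat_lit 620757000) (nat_lit 19530776603) (.two (nat_lit 9948889092) (nat_lit 1344274614) (.two (nat_lit 184549378) (nat_lit 159251432625) (.two (nat_lit 2097153) (nat_lit 16779761) (.one (nat_lit 158177694169) .nil)))),
   .two (nat_lit 184993972232) (nat_lit 3524264265) (.two (nat_lit 184416206851) (nat_lit 1417675192) (.two (nat_lit 34603009) (nat_lit 166203492870) (.one (nat_lit 1054201) .nil))),
   .two (nat_lit 8388616) (nat_lit 840958246) (.two (nat_lit 8388610) (nat_lit 9799992869) (.two (nat_lit 8388608) (nat_lit 2990543361) .nil)),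
   .two (nat_lit 9934209032) (nat_lit 28093448582) (.two (nat_lit 2097155) (nat_lit 4605346497) (.two (nat_lit 8388609) (nat_lit 169871611) (.two (nat_lit 1048576) (nat_lit 2101281) (.one (nat_lit 1054202) .nil)))),
   .two (nat_lit 721420296) (nat_lit 158075977813) (.two (nat_lit 11559501828) (nat_lit 11006903016) (.two (nat_lit 4194305) (nat_lit 20719865311) .nil)),
   .two (nat_lit 813694984) (nat_lit 34603062) (.two (nat_lit 3525312516) (nat_lit 2994733235) (.two (nat_lit 34603011) (nat_lit 679478393) (.two (nat_lit 612368385) (nat_lit 18926800178) (.one (nat_lit 37247521363) .nil)))),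
   .two (nat_lit 37748744) (nat_lit 3028287928) (.two (nat_lit 2097153) (nat_lit 156539815456) (.two (nat_lit 2097152) (nat_lit 156976024058) (.one (nat_lit 46514835993) .nil))),
   .two (nat_lit 16777224) (nat_lit 183853121578) (.two (nat_lit 12054429700) (nat_lit 16777655) (.two (nat_lit 41943041) (nat_lit 721423843) .nil)),
   .two (nat_lit 4194312) (nat_lit 16777241) (.two (nat_lit 4601151492) (nat_lit 28806480164) (.two (nat_lit 11559501827) (nat_lit 739246858) (.two (nat_lit 37748737) (nat_lit 3557819956) (.two (nat_lit 4194304) (nat_lit 158662134270) (.one (nat_lit 19599987987) .nil))))),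
   .two (nat_lit 754974728) (nat_lit 2953838643) (.two (nat_lit 21207449604) (nat_lit 117441330) (.two (nat_lit 1048576) (nat_lit 117443057) (.one (nat_lit 2886734993) .nil))),
   .two (nat_lit 176160776) (nat_lit 11492393023) (.two (nat_lit 158144135172) (nat_lit 20711473452) (.two (nat_lit 9781116931) (nat_lit 156365750713) (.two (nat_lit 50331649) (nat_lit 2100579) (.one (nat_lit 889197773) .nil)))),
   .two (nat_lit 721420296) (nat_lit 10343153732) (.two (nat_lit 50331651) (nat_lit 813695690) (.two (nat_lit 8388609) (nat_lit 1358955314) (.two (nat_lit 8388608) (nat_lit 10921970182) (.one (nat_lit 8393993) .nil)))),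
   .two (nat_lit 721420296) (nat_lit 156532473900) (.two (nat_lit 1358954500) (nat_lit 806355244) (.two (nat_lit 209715203) (nat_lit 16778772) (.two (nat_lit 1048576) (nat_lit 166144774047) (.one (nat_lit 8394236) .nil)))),
   .two (nat_lit 2902458376) (nat_lit 18926796855) (.two (nat_lit 50331652) (nat_lit 10376708279) (.two (nat_lit 16777218) (nat_lit 11484005103) (.two (nat_lit 16777217) (nat_lit 46978304238) (.two (nat_lit 2097152) (nat_lit 166237047300) (.one (nat_lit 8394143) .nil))))),
   .two (nat_lit 10370416648) (nat_lit 1312817481) (.two (nat_lit 639631363) (nat_lit 3024093917) (.two (nat_lit 606076929) (nat_lit 104859807) (.two (nat_lit 2097152) (nat_lit 71305734) (.one (nat_lit 2102781) .nil)))),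
   .two (nat_lit 41943048) (nat_lit 9768534082) (.two (nat_lit 41943044) (nat_lit 185035915735) (.two (nat_lit 9948889091) (nat_lit 1853883128) (.two (nat_lit 620756993) (nat_lit 8390938) (.two (nat_lit 4194304) (nat_lit 788532579) (.one (nat_lit 46409978367) .nil))))),
   .two (nat_lit 654311432) (nat_lit 11543773237) (.two (nat_lit 705691652) (nat_lit 9781117626) (.two (nat_lit 605028353) (nat_lit 19128126819) (.one (nat_lit 2887782956) .nil))),
   .two (nat_lit 16777224) (nat_lit 10370416693) (.two (nat_lit 218103812) (nat_lit 673186059) (.two (nat_lit 1277165571) (nat_lit 3472885298) (.two (nat_lit 16777216) (nat_lit 8392743) (.one (nat_lit 4034925620) .nil)))),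
   .two (nat_lit 272629768) (nat_lit 2323644479) (.two (nat_lit 218103812) (nat_lit 37316723398) (.two (nat_lit 16777217) (nat_lit 4634706737) (.two (nat_lit 8388608) (nat_lit 11580475918) (.one (nat_lit 183953790088) .nil)))),
   .two (nat_lit 272629768) (nat_lit 46414168109) (.two (nat_lit 4601151492) (nat_lit 3028287927) (.two (nat_lit 4194305) (nat_lit 1216351498) (.one (nat_lit 2357204437) .nil))),
   .two (nat_lit 9781116936) (nat_lit 10007609387) (.two (nat_lit 10504634372) (nat_lit 37253808309) (.two (nat_lit 2887778306) (nat_lit 1786774236) (.two (nat_lit 2097153) (nat_lit 1753221260) (.two (nat_lit 2097152) (nat_lit 165532406312) .nil)))),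
   .two (nat_lit 83886088) (nat_lit 183853121975) (.two (nat_lit 620756993) (nat_lit 4034922030) (.two (nat_lit 8388608) (nat_lit 16781355) (.one (nat_lit 8394239) .nil))),
   .two (nat_lit 754974728) (nat_lit 168820782) (.two (nat_lit 276824068) (nat_lit 28101837560) (.two (nat_lit 16777217) (nat_lit 183853122354) (.two (nat_lit 1048576) (nat_lit 165540792820) (.one (nat_lit 47581237713) .nil)))),
   .two (nat_lit 41943048) (nat_lit 754975160) (.two (nat_lit 50331649) (nat_lit 158150429176) (.one (nat_lit 75502990) .nil)),
   .two (nat_lit 169869320) (nat_lit 19100860477) (.two (nat_lit 705691652) (nat_lit 46514831686) (.two (nat_lit 169869314) (nat_lit 184989778628) (.two (nat_lit 2097153) (nat_lit 71305493) (.two (nat_lit 2097152) (nat_lit 28690091267) (.one (nat_lit 46978306533) .nil))))),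
   .two (nat_lit 16777224) (nat_lit 13187940407) (.two (nat_lit 50331652) (nat_lit 9966715190) (.two (nat_lit 721420291) (nat_lit 806356174) (.two (nat_lit 8388609) (nat_lit 12047090482) (.two (nat_lit 8388608) (nat_lit 1291850193) .nil)))),
   .two (nat_lit 16777224) (nat_lit 21214789680) (.two (nat_lit 218103812) (nat_lit 1377829625) (.two (nat_lit 2097153) (nat_lit 285213489) (.two (nat_lit 2097152) (nat_lit 16781910) .nil))),
   .two (nat_lit 4194312) (nat_lit 880803867) (.two (nat_lit 1350565892) (nat_lit 28790751412) (.two (nat_lit 612368387) (nat_lit 9902752487) (.two (nat_lit 34603009) (nat_lit 28693235932) (.two (nat_lit 1048576) (nat_lit 157043133669) (.one (nat_lit 28690092636) .nil))))),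
   .two (nat_lit 8388616) (nat_lit 4632609077) (.two (nat_lit 8388610) (nat_lit 4028629760) (.two (nat_lit 8388609) (nat_lit 1176503857) (.two (nat_lit 4194304) (nat_lit 1786776907) (.one (nat_lit 2994738224) .nil)))),
   .two (nat_lit 41943048) (nat_lit 9899606059) (.two (nat_lit 183853121542) (nat_lit 21811429663) (.two (nat_lit 12047089667) (nat_lit 343933368) (.two (nat_lit 8388609) (nat_lit 705694948) (.one (nat_lit 166203494866) .nil)))),
   .two (nat_lit 75497480) (nat_lit 3021996211) (.two (nat_lit 9873391619) (nat_lit 773849831) (.two (nat_lit 34603009) (nat_lit 156567078461) (.two (nat_lit 8388608) (nat_lit 3524267395) (.one (nat_lit 1054209) .nil)))),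
   .two (nat_lit 21793603592) (nat_lit 9899606041) (.two (nat_lit 809500676) (nat_lit 352321604) (.two (nat_lit 721420290) (nat_lit 205521640) (.two (nat_lit 50331649) (nat_lit 10503587369) (.two (nat_lit 1048576) (nat_lit 16779794) (.one (nat_lit 3003126992) .nil))))),
   .two (nat_lit 2969567240) (nat_lit 638582825) (.two (nat_lit 41943044) (nat_lit 174752530611) (.two (nat_lit 713031682) (nat_lit 1209008863) (.two (nat_lit 620756993) (nat_lit 10335815233) (.two (nat_lit 16777216) (nat_lit 165525065764) (.one (nat_lit 1054211) .nil))))),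
   .two (nat_lit 205520904) (nat_lit 156380430704) (.two (nat_lit 620756995) (nat_lit 138412751) (.two (nat_lit 8388609) (nat_lit 2936014389) (.two (nat_lit 1048576) (nat_lit 19545460101) (.one (nat_lit 336597485) .nil)))),
   .two (nat_lit 4605345800) (nat_lit 37748784) (.two (nat_lit 10338959364) (nat_lit 4605346231) (.two (nat_lit 4194305) (nat_lit 10443818543) (.two (nat_lit 16777216) (nat_lit 12624858436) (.one (nat_lit 8394244) .nil)))),
   .two (nat_lit 2961178632) (nat_lit 183848927285) (.two (nat_lit 1779433476) (nat_lit 840958137) (.two (nat_lit 47550824451) (nat_lit 156365750713) (.two (nat_lit 4194305) (nat_lit 4599055925) (.two (nat_lit 1048576) (nat_lit 11611934085) (.one (nat_lit 9967768168) .nil))))),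
   .two (nat_lit 11559501832) (nat_lit 4598005812) (.two (nat_lit 46984593412) (nat_lit 3036676887) (.two (nat_lit 8388609) (nat_lit 11492394516) (.two (nat_lit 8388608) (nat_lit 9881784271) (.one (nat_lit 9772732987) .nil)))),
   .two (nat_lit 8388616) (nat_lit 236978499) (.two (nat_lit 10503585795) (nat_lit 37247517400) (.two (nat_lit 156364701697) (nat_lit 183920233853) (.one (nat_lit 8394245) .nil))),
   .two (nat_lit 184549384) (nat_lit 156365750335) (.two (nat_lit 46407876612) (nat_lit 158192370133) (.two (nat_lit 184549378) (nat_lit 11544822201) (.two (nat_lit 2097153) (nat_lit 50332465) (.two (nat_lit 8388608) (nat_lit 638586082) (.one (nat_lit 1053312) .nil))))),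
   .two (nat_lit 639631368) (nat_lit 46414168106) (.two (nat_lit 3464495108) (nat_lit 3021996782) (.two (nat_lit 2097153) (nat_lit 2961182071) (.one (nat_lit 8394246) .nil))),
   .two (nat_lit 16777224) (nat_lit 28790751273) (.two (nat_lit 218103812) (nat_lit 1048869) (.two (nat_lit 184549379) (nat_lit 4027581172) (.two (nat_lit 34603009) (nat_lit 12163483870) (.two (nat_lit 1048576) (nat_lit 9873394925) (.one (nat_lit 2349864394) .nil))))),
   .two (nat_lit 2954887176) (nat_lit 12054429741) (.two (nat_lit 606076932) (nat_lit 880804279) (.two (nat_lit 8388609) (nat_lit 156365752845) (.one (nat_lit 2102793) .nil))),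
   .two (nat_lit 754974729) (nat_lit 12618563633) (.two (nat_lit 1191182340) (nat_lit 35651877) (.two (nat_lit 9781116931) (nat_lit 9766437654) (.two (nat_lit 612368385) (nat_lit 285216000) (.one (nat_lit 16782858) .nil)))),
   .two (nat_lit 159217877000) (nat_lit 158143086629) (.two (nat_lit 20638072838) (nat_lit 2316304743) (.two (nat_lit 184549379) (nat_lit 270533798) (.two (nat_lit 4194305) (nat_lit 16780016) (.two (nat_lit 4194304) (nat_lit 16781367) (.one (nat_lit 16782859) .nil))))),
   .two (nat_lit 101711880) (nat_lit 166230753345) (.two (nat_lit 166196150277) (nat_lit 10336862551) (.two (nat_lit 1779433475) (nat_lit 4632609529) (.two (nat_lit 50331649) (nat_lit 639633610) (.two (nat_lit 16777216) (nat_lit 1052728) (.one (nat_lit 1054220) .nil))))),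
   .two (nat_lit 639631368) (nat_lit 21777874988) (.two (nat_lit 165525061636) (nat_lit 20738736822) (.two (nat_lit 16777217) (nat_lit 19026414068) (.one (nat_lit 1054221) .nil))),
   .two (nat_lit 11559501832) (nat_lit 18925748277) (.two (nat_lit 1745879044) (nat_lit 185002361599) (.two (nat_lit 34603009) (nat_lit 16780625) (.one (nat_lit 83890709) .nil))),
   .two (nat_lit 813694984) (nat_lit 156569174043) (.two (nat_lit 606076932) (nat_lit 10007609412) (.two (nat_lit 69206019) (nat_lit 2424308440) (.two (nat_lit 2097153) (nat_lit 12050236979) (.two (nat_lit 2097152) (nat_lit 165528209921) (.one (nat_lit 8394254) .nil))))),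
   .two (nat_lit 83886088) (nat_lit 157043130549) (.two (nat_lit 184993972227) (nat_lit 16778451) (.two (nat_lit 41943041) (nat_lit 47596963364) (.two (nat_lit 8388608) (nat_lit 46422560122) (.one (nat_lit 8394255) .nil)))),
   .two (nat_lit 1358954504) (nat_lit 156465365018) (.two (nat_lit 28690087940) (nat_lit 165540790565) (.two (nat_lit 1913651203) (nat_lit 174768259868) (.two (nat_lit 9765388289) (nat_lit 19042141727) (.two (nat_lit 2097152) (nat_lit 11476668891) .nil)))),
   .two (nat_lit 2954887176) (nat_lit 9936306225) (.two (nat_lit 47548727300) (nat_lit 28697428695) (.two (nat_lit 37748737) (nat_lit 3021997605) (.two (nat_lit 4194304) (nat_lit 9867103591) (.one (nat_lit 2102800) .nil)))),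
   .two (nat_lit 16777224) (nat_lit 4634705945) (.two (nat_lit 16777220) (nat_lit 641728842) (.two (nat_lit 16777218) (nat_lit 4195540) (.two (nat_lit 16777217) (nat_lit 1178600996) (.two (nat_lit 16777216) (nat_lit 13191090060) (.one (nat_lit 19042145718) .nil))))),
   .two (nat_lit 16777224) (nat_lit 4605345819) (.two (nat_lit 3464495108) (nat_lit 2902458754) (.two (nat_lit 184549379) (nat_lit 37253809355) (.two (nat_lit 2097153) (nat_lit 11525949587) (.two (nat_lit 8388608) (nat_lit 11544825149) (.one (nat_lit 2101891) .nil))))),
   .two (nat_lit 117440520) (nat_lit 12114198555) (.two (nat_lit 4613734404) (nat_lit 18933088435) (.two (nat_lit 16777218) (nat_lit 4638901374) (.two (nat_lit 34603009) (nat_lit 10921969204) (.two (nat_lit 1048576) (nat_lit 1283459578) (.one (nat_lit 156573373047) .nil))))),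
   .two (nat_lit 2902458376) (nat_lit 19532873768) (.two (nat_lit 2902458372) (nat_lit 156535619970) (.two (nat_lit 158150426627) (nat_lit 12633244381) (.two (nat_lit 612368385) (nat_lit 156984412678) (.one (nat_lit 9974060126) .nil)))),
   .two (nat_lit 16777224) (nat_lit 183853121578) (.two (nat_lit 16777220) (nat_lit 1317011837) (.two (nat_lit 2969567235) (nat_lit 47548728020) (.two (nat_lit 41943041) (nat_lit 822084402) (.two (nat_lit 2097152) (nat_lit 10376710644) (.one (nat_lit 11007956049) .nil))))),
   .two (nat_lit 2889875464) (nat_lit 158647451674) (.two (nat_lit 10506731524) (nat_lit 19128123577) (.two (nat_lit 20638072834) (nat_lit 4195541) (.two (nat_lit 9768534017) (nat_lit 37314628309) (.two (nat_lit 2097152) (nat_lit 2990542202) (.one (nat_lit 807408075) .nil))))),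
   .two (nat_lit 1191182344) (nat_lit 166132187162) (.two (nat_lit 1847590916) (nat_lit 9768534405) (.two (nat_lit 10506731523) (nat_lit 12129928368) (.two (nat_lit 9766436865) (nat_lit 21781022886) (.two (nat_lit 2097152) (nat_lit 4198461) (.one (nat_lit 4199954) .nil))))),
   .two (nat_lit 1178599432) (nat_lit 2316304422) (.two (nat_lit 12117344260) (nat_lit 183946445550) (.two (nat_lit 34603009) (nat_lit 28760345083) (.one (nat_lit 158649553364) .nil))),
   .two (nat_lit 159224168456) (nat_lit 272629816) (.two (nat_lit 158143086596) (nat_lit 183916036536) (.two (nat_lit 8388609) (nat_lit 10372516120) (.two (nat_lit 1048576) (nat_lit 8392766) (.one (nat_lit 11618227729) .nil)))),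
   .two (nat_lit 1178599432) (nat_lit 243269717) (.two (nat_lit 12117344260) (nat_lit 1853882661) (.two (nat_lit 11479810050) (nat_lit 8389846) (.two (nat_lit 37748737) (nat_lit 46514833642) (.two (nat_lit 1048576) (nat_lit 11614032385) .nil)))),
   .two (nat_lit 184419352584) (nat_lit 16777252) (.two (nat_lit 184419352580) (nat_lit 117441009) (.two (nat_lit 12117344259) (nat_lit 10519315190) (.two (nat_lit 37748737) (nat_lit 183962176763) (.one (nat_lit 10506737149) .nil)))),
   .two (nat_lit 176160776) (nat_lit 4634705976) (.two (nat_lit 1779433476) (nat_lit 10336862564) (.two (nat_lit 171966467) (nat_lit 1384121057) (.two (nat_lit 605028353) (nat_lit 306185760) (.two (nat_lit 1048576) (nat_lit 156365752826) (.one (nat_lit 8394261) .nil))))),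
   .two (nat_lit 50331656) (nat_lit 20704133211) (.two (nat_lit 50331652) (nat_lit 9933161192) (.two (nat_lit 50331649) (nat_lit 1050909) (.two (nat_lit 2097152) (nat_lit 20719866328) .nil))),
   .two (nat_lit 50331656) (nat_lit 19100860706) (.two (nat_lit 16777218) (nat_lit 159219974871) (.two (nat_lit 8388609) (nat_lit 104859173) (.two (nat_lit 8388608) (nat_lit 1782583809) .nil))),
   .two (nat_lit 1745879048) (nat_lit 2936012860) (.two (nat_lit 1745879044) (nat_lit 4647289330) (.two (nat_lit 183845781506) (nat_lit 184550082) (.two (nat_lit 34603009) (nat_lit 16779761) (.one (nat_lit 352326241) .nil)))),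
   .two (nat_lit 1191182344) (nat_lit 10372513838) (.two (nat_lit 843055110) (nat_lit 1325400246) (.two (nat_lit 12117344259) (nat_lit 20652753615) (.two (nat_lit 156367847425) (nat_lit 156581759236) (.two (nat_lit 4194304) (nat_lit 16781378) (.one (nat_lit 4199959) .nil))))),
   .two (nat_lit 176160776) (nat_lit 1745879078) (.two (nat_lit 612368388) (nat_lit 605028713) (.two (nat_lit 176160770) (nat_lit 101713105) (.two (nat_lit 16777217) (nat_lit 9866052402) (.two (nat_lit 16777216) (nat_lit 3531607421) (.one (nat_lit 11584673149) .nil))))),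
   .two (nat_lit 11559501832) (nat_lit 2316304424) (.two (nat_lit 174752530436) (nat_lit 1358954936) (.two (nat_lit 605028353) (nat_lit 46992984571) (.one (nat_lit 16781956) .nil))),
   .two (nat_lit 8388616) (nat_lit 2923429913) (.two (nat_lit 41943044) (nat_lit 306184525) (.two (nat_lit 2954887171) (nat_lit 18933089481) (.two (nat_lit 2097153) (nat_lit 28793900273) (.one (nat_lit 158647456237) .nil)))),
   .two (nat_lit 16777224) (nat_lit 1379926062) (.two (nat_lit 50331652) (nat_lit 1782579381) (.two (nat_lit 16777218) (nat_lit 4195544) (.two (nat_lit 9768534017) (nat_lit 12163483835) (.two (nat_lit 4194304) (nat_lit 16781380) (.one (nat_lit 612373607) .nil))))),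
   .two (nat_lit 13191086088) (nat_lit 754974763) (.two (nat_lit 272629764) (nat_lit 11559502263) (.two (nat_lit 4194305) (nat_lit 4043310617) (.two (nat_lit 16777216) (nat_lit 28693237680) (.one (nat_lit 185023337574) .nil)))),
   .two (nat_lit 612368392) (nat_lit 37249613873) (.two (nat_lit 612368388) (nat_lit 19530776868) (.two (nat_lit 3525312515) (nat_lit 184423548464) (.two (nat_lit 8388608) (nat_lit 1914702334) (.one (nat_lit 46481281640) .nil)))),
   .two (nat_lit 285212680) (nat_lit 11513364506) (.two (nat_lit 183848927236) (nat_lit 822084024) (.two (nat_lit 37748737) (nat_lit 37329308162) (.one (nat_lit 3460305525) .nil))),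
   .two (nat_lit 754974728) (nat_lit 1846542374) (.two (nat_lit 174752530436) (nat_lit 3003121848) (.two (nat_lit 638582787) (nat_lit 1291846334) (.two (nat_lit 8388609) (nat_lit 183861511725) (.two (nat_lit 1048576) (nat_lit 13203672349) (.one (nat_lit 713036979) .nil))))),
   .two (nat_lit 8388616) (nat_lit 236978202) (.two (nat_lit 8388612) (nat_lit 236978449) (.two (nat_lit 8388611) (nat_lit 236978872) (.two (nat_lit 2097153) (nat_lit 159257725117) (.two (nat_lit 2097152) (nat_lit 8392773) (.one (nat_lit 20745032969) .nil))))),
   .two (nat_lit 166130089992) (nat_lit 18925748277) (.two (nat_lit 10940841988) (nat_lit 235929992) (.two (nat_lit 174753579011) (nat_lit 18925749444) (.two (nat_lit 9766436865) (nat_lit 159216830624) (.two (nat_lit 2097152) (nat_lit 10906242952) (.one (nat_lit 1053998) .nil))))),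
   .two (nat_lit 1277165576) (nat_lit 3464495145) (.two (nat_lit 47555018756) (nat_lit 156466413749) (.two (nat_lit 9934209027) (nat_lit 13228836419) (.two (nat_lit 2097152) (nat_lit 18933091642) (.one (nat_lit 2101893) .nil)))),
   .two (nat_lit 37748744) (nat_lit 1947205677) (.two (nat_lit 11476664324) (nat_lit 2353005262) (.two (nat_lit 2097153) (nat_lit 1749026998) (.two (nat_lit 2097152) (nat_lit 166232855023) .nil))),
   .two (nat_lit 822083592) (nat_lit 203423787) (.two (nat_lit 101711876) (nat_lit 1847591092) (.two (nat_lit 157035790339) (nat_lit 673186988) (.two (nat_lit 16777217) (nat_lit 1846545703) (.one (nat_lit 21207455120) .nil)))),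
   .two (nat_lit 218103816) (nat_lit 183853121820) (.two (nat_lit 2969567235) (nat_lit 156372042425) (.two (nat_lit 16777217) (nat_lit 156372044273) (.one (nat_lit 21785219649) .nil))),
   .two (nat_lit 285212680) (nat_lit 159250382903) (.two (nat_lit 705691652) (nat_lit 285213370) (.two (nat_lit 2097153) (nat_lit 21223179828) (.two (nat_lit 1048576) (nat_lit 740298025) (.one (nat_lit 10370422229) .nil)))),
   .two (nat_lit 721420296) (nat_lit 10436476970) (.two (nat_lit 1358954500) (nat_lit 37246468535) (.two (nat_lit 50331649) (nat_lit 1050136) (.two (nat_lit 16777216) (nat_lit 202379775) .nil))),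
   .two (nat_lit 50331656) (nat_lit 20644364314) (.two (nat_lit 20644364292) (nat_lit 10351542565) (.two (nat_lit 159224168451) (nat_lit 620757695) (.two (nat_lit 612368385) (nat_lit 9781119166) (.two (nat_lit 2097152) (nat_lit 746589409) (.one (nat_lit 8394266) .nil))))),
   .two (nat_lit 176160776) (nat_lit 2097238) (.two (nat_lit 11551113220) (nat_lit 21811429709) (.two (nat_lit 176160770) (nat_lit 3558868091) (.two (nat_lit 606076929) (nat_lit 10335815209) (.two (nat_lit 1048576) (nat_lit 10336865561) (.one (nat_lit 46978306541) .nil))))),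
   .two (nat_lit 16777224) (nat_lit 10335813686) (.two (nat_lit 50331652) (nat_lit 1049083) (.two (nat_lit 721420290) (nat_lit 37313578156) (.two (nat_lit 50331649) (nat_lit 2349861076) (.two (nat_lit 16777216) (nat_lit 68161390) (.one (nat_lit 16782875) .nil))))),
   .two (nat_lit 285212680) (nat_lit 12148801585) (.two (nat_lit 606076932) (nat_lit 822084282) (.two (nat_lit 37748737) (nat_lit 2887779879) (.two (nat_lit 4194304) (nat_lit 11544825685) (.one (nat_lit 2102812) .nil)))),
   .two (nat_lit 2902458376) (nat_lit 11484004739) (.two (nat_lit 41943043) (nat_lit 9781117367) (.two (nat_lit 16777217) (nat_lit 2894072312) (.one (nat_lit 1283461610) .nil))),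
   .two (nat_lit 4194312) (nat_lit 37247516728) (.two (nat_lit 4194308) (nat_lit 37247516975) (.two (nat_lit 176160770) (nat_lit 19529728717) (.two (nat_lit 605028353) (nat_lit 158079125757) (.two (nat_lit 1048576) (nat_lit 13224643849) (.one (nat_lit 1054237) .nil))))),
   .two (nat_lit 8388616) (nat_lit 156466413614) (.two (nat_lit 9766436868) (nat_lit 10909384890) (.two (nat_lit 3525312515) (nat_lit 775947412) (.two (nat_lit 2097153) (nat_lit 12050237576) (.two (nat_lit 8388608) (nat_lit 4198473) (.one (nat_lit 8394270) .nil))))),
   .two (nat_lit 203423752) (nat_lit 34603062) (.two (nat_lit 639631364) (nat_lit 1049084) (.two (nat_lit 10939793411) (nat_lit 2098394) (.two (nat_lit 9766436865) (nat_lit 1050912) (.two (nat_lit 2097152) (nat_lit 20737691597) (.one (nat_lit 1054239) .nil))))),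
   .two (nat_lit 50331656) (nat_lit 46407876936) (.two (nat_lit 157035790339) (nat_lit 9799992888) (.two (nat_lit 4194304) (nat_lit 3003126316) .nil)),
   .two (nat_lit 9781116936) (nat_lit 47588573232) (.two (nat_lit 2969567236) (nat_lit 2894070470) (.two (nat_lit 16777217) (nat_lit 3531606518) (.one (nat_lit 9772732873) .nil))),
   .two (nat_lit 4601151496) (nat_lit 9799991349) (.two (nat_lit 157036838916) (nat_lit 9869198028) (.two (nat_lit 2097153) (nat_lit 3560965675) (.two (nat_lit 2097152) (nat_lit 4198476) (.one (nat_lit 4199968) .nil)))),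
   .two (nat_lit 742391816) (nat_lit 1795162139) (.two (nat_lit 742391812) (nat_lit 20652753081) (.two (nat_lit 1344274435) (nat_lit 1929381060) (.two (nat_lit 37748737) (nat_lit 11626612261) (.two (nat_lit 4194304) (nat_lit 12148805482) (.one (nat_lit 165528212553) .nil))))),
   .two (nat_lit 9948889096) (nat_lit 21778923569) (.two (nat_lit 19530776580) (nat_lit 9915335432) (.two (nat_lit 9766436865) (nat_lit 11492396351) (.one (nat_lit 2902462997) .nil))),
   .two (nat_lit 218103816) (nat_lit 184419352618) (.two (nat_lit 3539992580) (nat_lit 1212154295) (.two (nat_lit 16777217) (nat_lit 166232852002) (.two (nat_lit 1048576) (nat_lit 1749027328) (.one (nat_lit 16782881) .nil)))),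
   .two (nat_lit 156367847432) (nat_lit 174768259260) (.two (nat_lit 157038936068) (nat_lit 37262197492) (.two (nat_lit 4194305) (nat_lit 46992984571) (.one (nat_lit 16781958) .nil))),
   .two (nat_lit 822083592) (nat_lit 9802088888) (.two (nat_lit 4194305) (nat_lit 50332465) (.two (nat_lit 4194304) (nat_lit 19612568806) (.one (nat_lit 12150903258) .nil))),
   .two (nat_lit 713031688) (nat_lit 156566028343) (.two (nat_lit 205520900) (nat_lit 1417675458) (.two (nat_lit 4194305) (nat_lit 10007611889) (.one (nat_lit 156364706258) .nil))),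
   .two (nat_lit 184549384) (nat_lit 10940842029) (.two (nat_lit 184549380) (nat_lit 159217877340) (.two (nat_lit 184549378) (nat_lit 673186231) (.two (nat_lit 2097153) (nat_lit 156548205069) (.one (nat_lit 159250387402) .nil)))),
   .two (nat_lit 10343153672) (nat_lit 352321563) (.two (nat_lit 21214789636) (nat_lit 156481093814) (.two (nat_lit 1283457027) (nat_lit 47563408596) (.two (nat_lit 9768534017) (nat_lit 158091707954) (.two (nat_lit 4194304) (nat_lit 8392783) (.one (nat_lit 4030730881) .nil))))),
   .two (nat_lit 4605345800) (nat_lit 11525947779) (.two (nat_lit 8388610) (nat_lit 1191182775) (.two (nat_lit 8388609) (nat_lit 21793605166) (.two (nat_lit 16777216) (nat_lit 158150429174) (.one (nat_lit 8394275) .nil)))),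
   .two (nat_lit 2969567240) (nat_lit 11551113533) (.two (nat_lit 2887778306) (nat_lit 654312117) (.two (nat_lit 2097153) (nat_lit 13195282692) (.two (nat_lit 8388608) (nat_lit 35654883) (.one (nat_lit 2102821) .nil)))),
   .two (nat_lit 9948889096) (nat_lit 21208498217) (.two (nat_lit 1277165572) (nat_lit 620757431) (.two (nat_lit 9766436865) (nat_lit 2432698873) (.one (nat_lit 16782886) .nil))),
   .two (nat_lit 8388616) (nat_lit 184419352612) (.two (nat_lit 8388612) (nat_lit 183949590795) (.two (nat_lit 8388610) (nat_lit 183949591221) (.two (nat_lit 620756993) (nat_lit 1853884918) (.one (nat_lit 8393351) .nil)))),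
   .two (nat_lit 10343153672) (nat_lit 236978539) (.two (nat_lit 4599054339) (nat_lit 185027527394) (.two (nat_lit 2097153) (nat_lit 8390949) (.two (nat_lit 1048576) (nat_lit 2101329) (.one (nat_lit 11610886719) .nil)))),
   .two (nat_lit 272629768) (nat_lit 158083317805) (.two (nat_lit 37748740) (nat_lit 10007609783) (.two (nat_lit 8388609) (nat_lit 159219976709) (.one (nat_lit 4199976) .nil))),
   .two (nat_lit 169869320) (nat_lit 3028287514) (.two (nat_lit 10369368068) (nat_lit 19597885622) (.two (nat_lit 158144135171) (nat_lit 19529728754) (.two (nat_lit 612368385) (nat_lit 18926798364) (.two (nat_lit 8388608) (nat_lit 19094572419) (.one (nat_lit 19094574550) .nil))))),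
   .two (nat_lit 205520904) (nat_lit 20738736164) (.two (nat_lit 3527409668) (nat_lit 740295021) (.two (nat_lit 270532611) (nat_lit 183848928007) (.two (nat_lit 9765388289) (nat_lit 1847592511) (.two (nat_lit 1048576) (nat_lit 641732533) (.one (nat_lit 1054250) .nil))))),
   .two (nat_lit 2887778312) (nat_lit 20644364314) (.two (nat_lit 203423748) (nat_lit 183953785542) (.two (nat_lit 2097153) (nat_lit 159224169266) (.two (nat_lit 2097152) (nat_lit 28086112006) (.one (nat_lit 21777880485) .nil)))),
   .two (nat_lit 2887778312) (nat_lit 174692761658) (.two (nat_lit 11492392964) (nat_lit 11477713076) (.two (nat_lit 75497475) (nat_lit 12048139026) (.two (nat_lit 605028353) (nat_lit 3021997623) (.two (nat_lit 16777216) (nat_lit 1052054) (.one (nat_lit 16782891) .nil))))),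
   .two (nat_lit 75497480) (nat_lit 2988441637) (.two (nat_lit 47548727300) (nat_lit 13228835205) (.two (nat_lit 612368387) (nat_lit 158177691194) (.two (nat_lit 8388608) (nat_lit 46474988889) (.one (nat_lit 46984597977) .nil)))),
   .two (nat_lit 2902458376) (nat_lit 1176502313) (.two (nat_lit 639631364) (nat_lit 185002361273) (.two (nat_lit 2097153) (nat_lit 11022634283) (.one (nat_lit 3036680690) .nil))),
   .two (nat_lit 8388616) (nat_lit 843055172) (.two (nat_lit 41943043) (nat_lit 4195540) (.two (nat_lit 8388609) (nat_lit 18928895524) (.two (nat_lit 4194304) (nat_lit 10376712137) (.one (nat_lit 20640174556) .nil)))),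
   .two (nat_lit 721420296) (nat_lit 158183981238) (.two (nat_lit 721420290) (nat_lit 21785216197) (.two (nat_lit 8388609) (nat_lit 174701152945) (.two (nat_lit 8388608) (nat_lit 156548206541) (.one (nat_lit 19604182132) .nil)))),
   .two (nat_lit 11559501832) (nat_lit 2316304425) (.two (nat_lit 11559501828) (nat_lit 1175454481) (.two (nat_lit 8388609) (nat_lit 620757810) (.two (nat_lit 1048576) (nat_lit 174768261638) (.one (nat_lit 16782892) .nil)))),
   .two (nat_lit 21785214984) (nat_lit 158176641049) (.two (nat_lit 276824068) (nat_lit 156569174404) (.two (nat_lit 9933160451) (nat_lit 11618222520) (.two (nat_lit 4194305) (nat_lit 11618222898) (.two (nat_lit 4194304) (nat_lit 18925751522) (.one (nat_lit 37754302) .nil))))),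
   .two (nat_lit 1191182344) (nat_lit 1417674795) (.two (nat_lit 11559501828) (nat_lit 343933213) (.two (nat_lit 8388611) (nat_lit 47563408074) (.two (nat_lit 8388609) (nat_lit 822085876) (.two (nat_lit 16777216) (nat_lit 13228839506) .nil)))),
   .two (nat_lit 713031688) (nat_lit 135266343) (.two (nat_lit 713031684) (nat_lit 183946445154) (.two (nat_lit 75497475) (nat_lit 21207450371) (.two (nat_lit 612368385) (nat_lit 10001320157) (.two (nat_lit 2097152) (nat_lit 1052757) (.one (nat_lit 8394285) .nil))))),
   .two (nat_lit 809500680) (nat_lit 165532401703) (.two (nat_lit 4194308) (nat_lit 310379285) (.two (nat_lit 41943041) (nat_lit 46510637874) (.two (nat_lit 1048576) (nat_lit 4197783) (.one (nat_lit 4199982) .nil)))),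
   .two (nat_lit 4194312) (nat_lit 10913579345) (.two (nat_lit 176160770) (nat_lit 2990539922) (.two (nat_lit 34603009) (nat_lit 339740894) (.two (nat_lit 4194304) (nat_lit 156372045599) (.one (nat_lit 9933165709) .nil)))),
   .two (nat_lit 2954887176) (nat_lit 11492392986) (.two (nat_lit 1795162118) (nat_lit 21812478308) (.two (nat_lit 1344274435) (nat_lit 166144771290) (.two (nat_lit 37748737) (nat_lit 11626614083) (.one (nat_lit 46992987199) .nil)))),
   .two (nat_lit 9768534024) (nat_lit 4605345816) (.two (nat_lit 3527409668) (nat_lit 11014243071) (.two (nat_lit 4194305) (nat_lit 184423548459) (.two (nat_lit 4194304) (nat_lit 8392790) (.one (nat_lit 2956988962) .nil)))),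
   .two (nat_lit 2969567240) (nat_lit 158647451699) (.two (nat_lit 157036838916) (nat_lit 19612565687) (.two (nat_lit 754974723) (nat_lit 2953839033) (.two (nat_lit 2097153) (nat_lit 2902459925) (.two (nat_lit 1048576) (nat_lit 16781400) (.one (nat_lit 16782895) .nil))))),
   .two (nat_lit 285212680) (nat_lit 183916036133) (.two (nat_lit 742391812) (nat_lit 822084023) (.two (nat_lit 16777217) (nat_lit 13188990492) (.two (nat_lit 2097152) (nat_lit 46489668932) (.one (nat_lit 16782896) .nil)))),
   .two (nat_lit 156367847432) (nat_lit 20719861944) (.two (nat_lit 46409973762) (nat_lit 822084023) (.two (nat_lit 4194305) (nat_lit 2365591003) .nil)),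
   .two (nat_lit 3525312520) (nat_lit 889192504) (.two (nat_lit 10504634372) (nat_lit 16777725) (.two (nat_lit 166130089987) (nat_lit 10452206785) (.two (nat_lit 2097153) (nat_lit 28101839059) (.two (nat_lit 16777216) (nat_lit 840961993) (.one (nat_lit 16782898) .nil))))),
   .two (nat_lit 41943048) (nat_lit 3527409689) (.two (nat_lit 4601151492) (nat_lit 10007609412) (.two (nat_lit 8388610) (nat_lit 876610275) (.two (nat_lit 8388609) (nat_lit 11010049572) (.two (nat_lit 16777216) (nat_lit 28089256442) (.one (nat_lit 4199048) .nil))))),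
   .two (nat_lit 285212680) (nat_lit 158649548852) (.two (nat_lit 205520900) (nat_lit 1224737538) (.two (nat_lit 4194305) (nat_lit 1051945) (.one (nat_lit 16782901) .nil))),
   .two (nat_lit 742391816) (nat_lit 166196150308) (.two (nat_lit 2889875460) (nat_lit 10538189104) (.two (nat_lit 21777874947) (nat_lit 19530777792) (.two (nat_lit 156364701697) (nat_lit 3460303023) (.two (nat_lit 2097152) (nat_lit 4198491) (.one (nat_lit 174686474754) .nil))))),
   .two (nat_lit 11559501832) (nat_lit 1846542362) (.two (nat_lit 1846542340) (nat_lit 166144770366) (.two (nat_lit 28757196803) (nat_lit 19042141745) (.two (nat_lit 4194304) (nat_lit 12147757601) .nil))),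
   .two (nat_lit 75497480) (nat_lit 47548727355) (.two (nat_lit 3539992580) (nat_lit 156365750713) (.two (nat_lit 16777217) (nat_lit 165525064193) (.one (nat_lit 2988447222) .nil))),
   .two (nat_lit 612368392) (nat_lit 876609715) (.two (nat_lit 806354947) (nat_lit 174688568091) (.two (nat_lit 2097153) (nat_lit 1745880603) (.two (nat_lit 8388608) (nat_lit 156969732602) (.one (nat_lit 2102840) .nil)))),
   .two (nat_lit 176160776) (nat_lit 2923429932) (.two (nat_lit 4601151492) (nat_lit 1954546424) (.two (nat_lit 8388609) (nat_lit 11479812626) (.one (nat_lit 19604181628) .nil))),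
   .two (nat_lit 11479810056) (nat_lit 47581233526) (.two (nat_lit 2889875458) (nat_lit 1049821) (.two (nat_lit 16777217) (nat_lit 157035792890) (.one (nat_lit 4199994) .nil))),
   .two (nat_lit 721420296) (nat_lit 165525061690) (.two (nat_lit 83886084) (nat_lit 1376780682) (.two (nat_lit 721420290) (nat_lit 159250383567) (.two (nat_lit 2097153) (nat_lit 620760368) (.one (nat_lit 168825373) .nil)))),
   .two (nat_lit 721420296) (nat_lit 28693233705) (.two (nat_lit 1178599428) (nat_lit 11559502263) (.two (nat_lit 37748737) (nat_lit 1224740070) (.one (nat_lit 4199996) .nil))),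
   .two (nat_lit 117440520) (nat_lit 156968681538) (.two (nat_lit 117440516) (nat_lit 10540286305) (.two (nat_lit 11492392963) (nat_lit 174755676904) (.two (nat_lit 4194305) (nat_lit 11559502642) (.two (nat_lit 1048576) (nat_lit 4198495) (.one (nat_lit 11614033033) .nil))))),
   .two (nat_lit 1178599432) (nat_lit 68157506) (.two (nat_lit 184419352580) (nat_lit 1175453985) (.two (nat_lit 158143086595) (nat_lit 9936306922) (.two (nat_lit 156364701697) (nat_lit 18928896137) (.two (nat_lit 1048576) (nat_lit 4198497) (.one (nat_lit 269488678) .nil))))),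
   .two (nat_lit 176160776) (nat_lit 184419352601) (.two (nat_lit 176160772) (nat_lit 1916797108) (.two (nat_lit 4194306) (nat_lit 183920231119) (.two (nat_lit 4194305) (nat_lit 12121540799) (.two (nat_lit 8388608) (nat_lit 4198499) (.one (nat_lit 183953789469) .nil))))),
   .two (nat_lit 2902458376) (nat_lit 69206063) (.two (nat_lit 218103812) (nat_lit 10001318606) (.two (nat_lit 9766436865) (nat_lit 9781117746) (.two (nat_lit 2097152) (nat_lit 855641988) (.one (nat_lit 2102845) .nil)))),
   .two (nat_lit 218103816) (nat_lit 10437525542) (.two (nat_lit 28087156740) (nat_lit 11484004644) (.two (nat_lit 2894069763) (nat_lit 9814672132) (.two (nat_lit 9765388289) (nat_lit 9940502700) (.two (nat_lit 1048576) (nat_lit 158077030273) (.one (nat_lit 813700339) .nil))))),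
   .two (nat_lit 12114198536) (nat_lit 10544480310) (.two (nat_lit 46407876612) (nat_lit 2323644764) (.two (nat_lit 1283457027) (nat_lit 1411384006) (.two (nat_lit 34603009) (nat_lit 185021237408) (.two (nat_lit 4194304) (nat_lit 304091176) (.one (nat_lit 10503591033) .nil))))),
   .two (nat_lit 272629768) (nat_lit 4613734581) (.two (nat_lit 16777219) (nat_lit 158649549560) (.two (nat_lit 16777217) (nat_lit 10909387017) (.two (nat_lit 16777216) (nat_lit 21781023976) (.one (nat_lit 10351546931) .nil)))),
   .two (nat_lit 13191086088) (nat_lit 10007609412) (.two (nat_lit 8388610) (nat_lit 138412818) (.two (nat_lit 9781116929) (nat_lit 104860930) (.one (nat_lit 4200000) .nil))),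
   .two (nat_lit 3525312520) (nat_lit 4634705958) (.two (nat_lit 4601151492) (nat_lit 21778924251) (.two (nat_lit 4194305) (nat_lit 10538189618) (.two (nat_lit 8388608) (nat_lit 104861036) (.one (nat_lit 276828757) .nil)))),
   .two (nat_lit 4194312) (nat_lit 19027460155) (.two (nat_lit 75497476) (nat_lit 46473937081) (.two (nat_lit 612368387) (nat_lit 21210596041) (.two (nat_lit 41943041) (nat_lit 156968683049) (.two (nat_lit 1048576) (nat_lit 156976024857) (.one (nat_lit 1853886957) .nil))))),
   .two (nat_lit 272629768) (nat_lit 1176502381) (.two (nat_lit 3527409668) (nat_lit 156365750986) (.two (nat_lit 2097153) (nat_lit 156569174834) (.two (nat_lit 2097152) (nat_lit 3527413603) (.one (nat_lit 19530781184) .nil)))),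
   .two (nat_lit 809500680) (nat_lit 772800554) (.two (nat_lit 104857604) (nat_lit 11577328433) (.two (nat_lit 8388608) (nat_lit 166199300732) .nil)),
   .two (nat_lit 4194312) (nat_lit 10007609383) (.two (nat_lit 169869316) (nat_lit 1216348452) (.two (nat_lit 169869314) (nat_lit 46406828745) (.two (nat_lit 606076929) (nat_lit 2420114985) (.two (nat_lit 2097152) (nat_lit 9902754316) (.one (nat_lit 11511271917) .nil))))),
   .two (nat_lit 16777224) (nat_lit 4030726200) (.two (nat_lit 11492392964) (nat_lit 11546919097) (.two (nat_lit 166144770051) (nat_lit 10540287127) (.two (nat_lit 4194305) (nat_lit 20753418377) (.two (nat_lit 8388608) (nat_lit 158179791307) .nil)))),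
   .two (nat_lit 8388616) (nat_lit 158176641104) (.two (nat_lit 9866051588) (nat_lit 28758245692) (.two (nat_lit 10336862211) (nat_lit 37320917433) (.two (nat_lit 606076929) (nat_lit 11584669835) (.two (nat_lit 1048576) (nat_lit 183920234521) (.one (nat_lit 1054273) .nil))))),
   .two (nat_lit 4194312) (nat_lit 11618222118) (.two (nat_lit 4601151492) (nat_lit 8389005) (.two (nat_lit 2894069763) (nat_lit 9869198082) (.two (nat_lit 34603009) (nat_lit 12121541959) (.one (nat_lit 8394306) .nil)))),
   .two (nat_lit 41943048) (nat_lit 11546918959) (.two (nat_lit 813694980) (nat_lit 1379926771) (.two (nat_lit 2097153) (nat_lit 165528208937) (.two (nat_lit 2097152) (nat_lit 12117347734) (.one (nat_lit 158647456237) .nil)))),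
   .two (nat_lit 176160776) (nat_lit 673185869) (.two (nat_lit 47555018756) (nat_lit 47582282430) (.two (nat_lit 8388609) (nat_lit 4599055905) (.two (nat_lit 2097152) (nat_lit 159257726864) (.one (nat_lit 2102854) .nil)))),
   .two (nat_lit 822083592) (nat_lit 2994733124) (.two (nat_lit 16777218) (nat_lit 156976022239) (.two (nat_lit 50331649) (nat_lit 1410337268) (.one (nat_lit 1054279) .nil))),
   .two (nat_lit 2902458376) (nat_lit 3458203704) (.two (nat_lit 10385096708) (nat_lit 102760633) (.two (nat_lit 83886083) (nat_lit 2418017454) (.two (nat_lit 2097153) (nat_lit 11626612873) (.two (nat_lit 2097152) (nat_lit 3003125857) (.one (nat_lit 185021239755) .nil))))),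
   .two (nat_lit 2889875464) (nat_lit 645922864) (.two (nat_lit 46414168068) (nat_lit 37749066) (.two (nat_lit 272629763) (nat_lit 12155093790) (.two (nat_lit 4194305) (nat_lit 1350567467) (.two (nat_lit 4194304) (nat_lit 8392813) (.one (nat_lit 4200008) .nil))))),
   .two (nat_lit 83886088) (nat_lit 18933088696) (.two (nat_lit 41943041) (nat_lit 46992985384) (.one (nat_lit 10376713326) .nil)),
   .two (nat_lit 218103816) (nat_lit 21208498218) (.two (nat_lit 20638072836) (nat_lit 46422557402) (.two (nat_lit 606076929) (nat_lit 117443887) (.one (nat_lit 16782921) .nil))),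
   .two (nat_lit 183853121544) (nat_lit 19532873768) (.two (nat_lit 19599982598) (nat_lit 37320917173) (.two (nat_lit 157038936067) (nat_lit 18933088695) (.two (nat_lit 9768534017) (nat_lit 20745030148) (.one (nat_lit 8394314) .nil)))),
   .two (nat_lit 46510637065) (nat_lit 236978217) (.two (nat_lit 46474985477) (nat_lit 156971827572) (.two (nat_lit 203423747) (nat_lit 4195551) (.two (nat_lit 606076929) (nat_lit 28089257308) (.one (nat_lit 2102859) .nil)))),
   .two (nat_lit 117440520) (nat_lit 12617515046) (.two (nat_lit 654311428) (nat_lit 1780482398) (.two (nat_lit 806354947) (nat_lit 1191183034) (.two (nat_lit 34603009) (nat_lit 46422558901) (.two (nat_lit 1048576) (nat_lit 2100595) (.one (nat_lit 2101899) .nil))))),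
   .two (nat_lit 285212680) (nat_lit 209715246) (.two (nat_lit 8388612) (nat_lit 822083652) (.two (nat_lit 2902458370) (nat_lit 10947134657) (.two (nat_lit 16777217) (nat_lit 679480058) (.two (nat_lit 16777216) (nat_lit 679481450) (.one (nat_lit 8394318) .nil))))),
   .two (nat_lit 822083592) (nat_lit 9902751792) (.two (nat_lit 46409973764) (nat_lit 10452206344) (.two (nat_lit 4194305) (nat_lit 1929381442) (.two (nat_lit 8388608) (nat_lit 2990543394) .nil))),
   .two (nat_lit 4194312) (nat_lit 184549403) (.two (nat_lit 809500676) (nat_lit 2365587638) (.two (nat_lit 11479810051) (nat_lit 37329306318) (.two (nat_lit 4194305) (nat_lit 68159676) (.two (nat_lit 16777216) (nat_lit 37316726117) (.one (nat_lit 37316727384) .nil))))),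
   .two (nat_lit 754974728) (nat_lit 2416967723) (.two (nat_lit 310378502) (nat_lit 12129927349) (.two (nat_lit 638582787) (nat_lit 19042141734) (.two (nat_lit 1048576) (nat_lit 21223180812) (.one (nat_lit 8394152) .nil)))),
   .two (nat_lit 2889875464) (nat_lit 13195280443) (.two (nat_lit 13191086084) (nat_lit 3464495494) (.two (nat_lit 11484004355) (nat_lit 675283658) (.two (nat_lit 41943041) (nat_lit 339740956) (.two (nat_lit 2097152) (nat_lit 4198514) (.one (nat_lit 2102867) .nil))))),
   .two (nat_lit 16777241) (nat_lit 10000269339) (.two (nat_lit 4194312) (nat_lit 50331716) (.two (nat_lit 169869316) (nat_lit 3573547786) (.two (nat_lit 2097155) (nat_lit 158179788322) (.two (nat_lit 2097153) (nat_lit 156566030839) (.two (nat_lit 1048576) (nat_lit 19128126939) (.one (nat_lit 4598010511) .nil)))))),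
   .two (nat_lit 12054429722) (nat_lit 9948889127) (.two (nat_lit 12054429704) (nat_lit 218104088) (.two (nat_lit 620756996) (nat_lit 1753219511) (.two (nat_lit 620756995) (nat_lit 20644365888) (.two (nat_lit 16777217) (nat_lit 3028290782) (.two (nat_lit 8388608) (nat_lit 4613737949) (.one (nat_lit 16782960) .nil)))))),
   .two (nat_lit 8388632) (nat_lit 46523220019) (.two (nat_lit 1795162120) (nat_lit 612368452) (.two (nat_lit 13195280388) (nat_lit 10003415481) (.two (nat_lit 8388610) (nat_lit 18928895527) (.two (nat_lit 8388609) (nat_lit 184419355947) (.two (nat_lit 8388608) (nat_lit 608178631) (.one (nat_lit 46984599132) .nil)))))),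
   .two (nat_lit 16777240) (nat_lit 165532401705) (.two (nat_lit 10343153672) (nat_lit 50331716) (.two (nat_lit 156372041732) (nat_lit 620757809) (.two (nat_lit 8388609) (nat_lit 620760537) (.one (nat_lit 19142809184) .nil)))),
   .two (nat_lit 11492392987) (nat_lit 773849135) (.two (nat_lit 13203669000) (nat_lit 4605345860) (.two (nat_lit 639631364) (nat_lit 1350566329) (.two (nat_lit 47555018755) (nat_lit 174768260634) (.two (nat_lit 2097153) (nat_lit 174768261622) (.two (nat_lit 2097152) (nat_lit 251662803) (.one (nat_lit 28101842517) .nil)))))),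
   .two (nat_lit 47555018776) (nat_lit 71303220) (.two (nat_lit 46409973768) (nat_lit 679477316) (.two (nat_lit 10519314436) (nat_lit 28793897760) (.two (nat_lit 176160770) (nat_lit 205522471) (.two (nat_lit 8388609) (nat_lit 150997494) (.two (nat_lit 4194304) (nat_lit 4638904858) (.one (nat_lit 4200035) .nil)))))),
   .two (nat_lit 165532401691) (nat_lit 721420326) (.two (nat_lit 83886088) (nat_lit 9873391801) (.two (nat_lit 620756996) (nat_lit 1350566608) (.two (nat_lit 47555018755) (nat_lit 1291847189) (.two (nat_lit 8388609) (nat_lit 855641565) (.one (nat_lit 18941482582) .nil))))),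
   .two (nat_lit 8388632) (nat_lit 11492393002) (.two (nat_lit 754974728) (nat_lit 343932996) (.two (nat_lit 754974724) (nat_lit 880804658) (.two (nat_lit 50331649) (nat_lit 880806384) (.two (nat_lit 16777216) (nat_lit 8392162) (.one (nat_lit 8394353) .nil))))),
   .two (nat_lit 3458203675) (nat_lit 1358954555) (.two (nat_lit 37748744) (nat_lit 50331716) (.two (nat_lit 272629764) (nat_lit 285213475) (.two (nat_lit 19530776579) (nat_lit 13237225006) (.two (nat_lit 2097153) (nat_lit 2365590006) (.two (nat_lit 16777216) (nat_lit 2101816) (.one (nat_lit 4200050) .nil)))))),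
   .two (nat_lit 16777240) (nat_lit 705691674) (.two (nat_lit 4194312) (nat_lit 889192516) (.two (nat_lit 4613734404) (nat_lit 158146233032) (.two (nat_lit 16777218) (nat_lit 4631561774) (.two (nat_lit 2097153) (nat_lit 12114201077) (.two (nat_lit 1048576) (nat_lit 11477716446) (.one (nat_lit 157035795086) .nil)))))),
   .two (nat_lit 12163481627) (nat_lit 1916796981) (.two (nat_lit 1350565896) (nat_lit 117440580) (.two (nat_lit 612368388) (nat_lit 156548203244) (.two (nat_lit 176160771) (nat_lit 2420114225) (.two (nat_lit 8388609) (nat_lit 12117346826) (.two (nat_lit 4194304) (nat_lit 18941481424) (.one (nat_lit 10003420759) .nil)))))),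
   .two (nat_lit 2969567259) (nat_lit 156472705071) (.two (nat_lit 46409973768) (nat_lit 159224168516) (.two (nat_lit 612368388) (nat_lit 11546919353) (.two (nat_lit 75497475) (nat_lit 184989779484) (.two (nat_lit 4194305) (nat_lit 3539995892) (.two (nat_lit 8388608) (nat_lit 156481098195) (.one (nat_lit 11525953108) .nil)))))),
   .two (nat_lit 1291845659) (nat_lit 306184231) (.two (nat_lit 2969567240) (nat_lit 184419352861) (.two (nat_lit 272629764) (nat_lit 9948889527) (.two (nat_lit 272629763) (nat_lit 1795163712) (.two (nat_lit 16777217) (nat_lit 742395357) (.one (nat_lit 4200052) .nil))))),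
   .two (nat_lit 12047089690) (nat_lit 117440555) (.two (nat_lit 11559501832) (nat_lit 3020947807) (.two (nat_lit 11559501828) (nat_lit 10369368782) (.two (nat_lit 184986632195) (nat_lit 50333205) (.two (nat_lit 34603009) (nat_lit 28772928989) (.one (nat_lit 16782968) .nil))))),
   .two (nat_lit 12117344282) (nat_lit 11006902319) (.two (nat_lit 1343225864) (nat_lit 19599982660) (.two (nat_lit 1343225860) (nat_lit 184419353394) (.two (nat_lit 34603009) (nat_lit 13224644057) (.one (nat_lit 4200058) .nil)))),
   .two (nat_lit 8388632) (nat_lit 1410334760) (.two (nat_lit 75497480) (nat_lit 166232850733) (.two (nat_lit 1175453700) (nat_lit 1950352099) (.two (nat_lit 9765388291) (nat_lit 18928895524) (.two (nat_lit 8388609) (nat_lit 157035792890) (.two (nat_lit 4194304) (nat_lit 1853886915) (.one (nat_lit 4200060) .nil)))))),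
   .two (nat_lit 8388632) (nat_lit 10000269353) (.two (nat_lit 612368392) (nat_lit 156532474147) (.two (nat_lit 1175453700) (nat_lit 156535620307) (.two (nat_lit 28760342531) (nat_lit 4027581987) (.two (nat_lit 8388609) (nat_lit 2920286709) (.two (nat_lit 8388608) (nat_lit 3524268496) (.one (nat_lit 2894075515) .nil)))))),
   .two (nat_lit 158143086600) (nat_lit 183846830128) (.two (nat_lit 174753579011) (nat_lit 1050147) (.one (nat_lit 4027584457) .nil)),
   .two (nat_lit 4194312) (nat_lit 3464495129) (.two (nat_lit 4194306) (nat_lit 2424308008) (.two (nat_lit 41943041) (nat_lit 9869200070) (.one (nat_lit 4200079) .nil))),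
   .two (nat_lit 3460300808) (nat_lit 2887778392) (.two (nat_lit 34603011) (nat_lit 28693233844) (.two (nat_lit 606076929) (nat_lit 1052132) (.two (nat_lit 2097152) (nat_lit 1053330) (.one (nat_lit 2102071) .nil)))),
   .two (nat_lit 2889875464) (nat_lit 183845781512) (.two (nat_lit 705691652) (nat_lit 1916796971) (.two (nat_lit 1916796931) (nat_lit 159216828796) (.two (nat_lit 156365750273) (nat_lit 20637025000) (.two (nat_lit 2097152) (nat_lit 1052175) (.one (nat_lit 1054352) .nil))))),
   .two (nat_lit 37748744) (nat_lit 11543773236) (.two (nat_lit 169869314) (nat_lit 13221495118) (.two (nat_lit 16777217) (nat_lit 19128124585) (.two (nat_lit 16777216) (nat_lit 2102006) .nil))),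
   .two (nat_lit 19599982600) (nat_lit 28757196808) (.two (nat_lit 1276116996) (nat_lit 1795162183) (.two (nat_lit 183848927235) (nat_lit 9933160803) (.two (nat_lit 8388609) (nat_lit 10000270974) (.two (nat_lit 8388608) (nat_lit 16780053) (.one (nat_lit 16782993) .nil))))),
   .two (nat_lit 2889875464) (nat_lit 158144135254) (.two (nat_lit 34603011) (nat_lit 10540286133) (.two (nat_lit 34603009) (nat_lit 183916037249) (.two (nat_lit 1048576) (nat_lit 4199059) (.one (nat_lit 1053501) .nil)))),
   .two (nat_lit 117440520) (nat_lit 185020186644) (.two (nat_lit 10385096710) (nat_lit 4027580513) (.two (nat_lit 739246083) (nat_lit 9881780563) (.two (nat_lit 34603009) (nat_lit 16778469) (.two (nat_lit 8388608) (nat_lit 12618566330) (.one (nat_lit 2102080) .nil))))),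
   .two (nat_lit 272629768) (nat_lit 165532401674) (.two (nat_lit 37748740) (nat_lit 159224168492) (.two (nat_lit 1753219075) (nat_lit 19029557972) (.two (nat_lit 2097152) (nat_lit 3460303568) (.one (nat_lit 4199248) .nil)))),
   .two (nat_lit 3464495112) (nat_lit 10940841994) (.two (nat_lit 19530776580) (nat_lit 11551113400) (.two (nat_lit 9765388289) (nat_lit 2994734268) (.two (nat_lit 1048576) (nat_lit 3565161181) (.one (nat_lit 8393553) .nil)))),
   .two (nat_lit 1779433480) (nat_lit 165526110218) (.two (nat_lit 28087156740) (nat_lit 336593612) (.two (nat_lit 2097152) (nat_lit 16780824) (.one (nat_lit 16782994) .nil))),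
   .two (nat_lit 28086108168) (nat_lit 166132187144) (.two (nat_lit 156971827204) (nat_lit 1048688) (.two (nat_lit 1745879043) (nat_lit 171966649) (.two (nat_lit 605028353) (nat_lit 11479811185) (.two (nat_lit 1048576) (nat_lit 641730749) (.one (nat_lit 303042565) .nil))))),
   .two (nat_lit 21207449608) (nat_lit 11007950868) (.two (nat_lit 2097158) (nat_lit 12129927256) (.two (nat_lit 203423747) (nat_lit 183946444984) (.two (nat_lit 16777217) (nat_lit 1051170) (.two (nat_lit 16777216) (nat_lit 1052186) (.one (nat_lit 183947498159) .nil))))),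
   .two (nat_lit 16777224) (nat_lit 1947205652) (.two (nat_lit 166245433350) (nat_lit 11006902326) (.two (nat_lit 47555018755) (nat_lit 202375350) (.two (nat_lit 8388609) (nat_lit 1051171) (.two (nat_lit 1048576) (nat_lit 16781972) (.one (nat_lit 166237049519) .nil))))),
   .two (nat_lit 2887778312) (nat_lit 11559501839) (.two (nat_lit 101711876) (nat_lit 10504634432) (.two (nat_lit 10385096707) (nat_lit 1914700525) (.two (nat_lit 1048576) (nat_lit 2100763) (.one (nat_lit 2102119) .nil)))),
   .two (nat_lit 21785214984) (nat_lit 822083627) (.two (nat_lit 713031682) (nat_lit 3003122390) (.two (nat_lit 8388608) (nat_lit 721423066) (.one (nat_lit 16781527) .nil))),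
   .two (nat_lit 9768534024) (nat_lit 772800522) (.two (nat_lit 184416206852) (nat_lit 10003415481) (.two (nat_lit 1048576) (nat_lit 174755677759) (.one (nat_lit 1053546) .nil))),
   .two (nat_lit 1913651208) (nat_lit 1277165577) (.two (nat_lit 9867100164) (nat_lit 166196150342) (.two (nat_lit 2097155) (nat_lit 343933107) (.two (nat_lit 34603009) (nat_lit 874513131) (.two (nat_lit 4194304) (nat_lit 156968684236) (.one (nat_lit 1054355) .nil))))),
   .two (nat_lit 11479810056) (nat_lit 2416967694) (.two (nat_lit 1178599428) (nat_lit 638582838) (.two (nat_lit 12117344259) (nat_lit 336593403) (.two (nat_lit 156364701697) (nat_lit 46510639344) (.one (nat_lit 1053556) .nil)))),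
   .two (nat_lit 4605345800) (nat_lit 2887778350) (.two (nat_lit 809500675) (nat_lit 46481277285) (.two (nat_lit 606076929) (nat_lit 47550825195) (.two (nat_lit 2097152) (nat_lit 4199061) (.one (nat_lit 2102134) .nil)))),
   .two (nat_lit 10385096712) (nat_lit 184416206856) (.two (nat_lit 9881780228) (nat_lit 605028538) (.two (nat_lit 41943041) (nat_lit 269485169) (.two (nat_lit 1048576) (nat_lit 8392225) (.one (nat_lit 1053369) .nil)))),
   .two (nat_lit 272629768) (nat_lit 28690087955) (.two (nat_lit 37748740) (nat_lit 1779433553) (.two (nat_lit 9934209027) (nat_lit 20704133497) (.two (nat_lit 37748737) (nat_lit 739246854) (.two (nat_lit 1048576) (nat_lit 4197172) (.one (nat_lit 4199298) .nil))))),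
   .two (nat_lit 16777224) (nat_lit 639631368) (.two (nat_lit 2969567236) (nat_lit 4028629369) (.two (nat_lit 50331649) (nat_lit 2099748) (.two (nat_lit 1048576) (nat_lit 2101910) (.one (nat_lit 16782996) .nil)))),
   .two (nat_lit 169869320) (nat_lit 47596961848) (.two (nat_lit 16777219) (nat_lit 3525314085) (.one (nat_lit 2102933) .nil)),
   .two (nat_lit 2961178632) (nat_lit 1411383683) (.two (nat_lit 606076929) (nat_lit 28690089611) (.two (nat_lit 2097152) (nat_lit 8391483) (.one (nat_lit 8393614) .nil))),
   .two (nat_lit 13191086088) (nat_lit 12054429966) (.two (nat_lit 8388609) (nat_lit 37249614598) (.two (nat_lit 4194304) (nat_lit 8392228) (.one (nat_lit 4199312) .nil))),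
   .two (nat_lit 739246088) (nat_lit 10437525513) (.two (nat_lit 28691136516) (nat_lit 12147752985) (.two (nat_lit 11492392963) (nat_lit 20637024969) (.two (nat_lit 1048576) (nat_lit 10510928054) (.one (nat_lit 8394390) .nil)))),
   .two (nat_lit 169869320) (nat_lit 12054429738) (.two (nat_lit 705691650) (nat_lit 9974055636) (.two (nat_lit 1048576) (nat_lit 166237048709) .nil)),
   .two (nat_lit 10506731528) (nat_lit 721420298) (.two (nat_lit 11559501828) (nat_lit 28793897015) (.two (nat_lit 11559501827) (nat_lit 138412502) (.two (nat_lit 605028353) (nat_lit 9768536755) (.one (nat_lit 16782999) .nil)))),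
   .two (nat_lit 1847590920) (nat_lit 1913651220) (.two (nat_lit 156465364998) (nat_lit 11477712944) (.two (nat_lit 28758245379) (nat_lit 1049410) (.two (nat_lit 9765388289) (nat_lit 21812479123) (.two (nat_lit 1048576) (nat_lit 236982983) .nil)))),
   .two (nat_lit 12117344264) (nat_lit 156372041741) (.two (nat_lit 9806282758) (nat_lit 19599982772) (.two (nat_lit 41943041) (nat_lit 11010049181) (.two (nat_lit 16777216) (nat_lit 4197202) (.one (nat_lit 4200088) .nil)))),
   .two (nat_lit 13191086088) (nat_lit 19026411529) (.two (nat_lit 809500676) (nat_lit 839909468) (.two (nat_lit 101711875) (nat_lit 3460301130) (.two (nat_lit 9765388289) (nat_lit 1346372338) (.two (nat_lit 4194304) (nat_lit 1053335) (.one (nat_lit 1053618) .nil))))),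
   .two (nat_lit 2889875464) (nat_lit 183845781512) (.two (nat_lit 9768534020) (nat_lit 9867100206) (.two (nat_lit 272629763) (nat_lit 1913651519) (.two (nat_lit 2097153) (nat_lit 10439623830) (.two (nat_lit 2097152) (nat_lit 183916038463) (.one (nat_lit 4200089) .nil))))),
   .two (nat_lit 3525312520) (nat_lit 165532401674) (.two (nat_lit 183845781508) (nat_lit 11517559108) (.two (nat_lit 605028353) (nat_lit 20711473918) (.two (nat_lit 1048576) (nat_lit 8391515) (.one (nat_lit 8394394) .nil)))),
   .two (nat_lit 612368392) (nat_lit 28087156794) (.two (nat_lit 3525312515) (nat_lit 184993972404) (.two (nat_lit 2097153) (nat_lit 46984595659) (.one (nat_lit 8394395) .nil))),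
   .two (nat_lit 157036838920) (nat_lit 174759870493) (.two (nat_lit 47555018758) (nat_lit 185021235246) (.two (nat_lit 47555018755) (nat_lit 2418017007) (.two (nat_lit 8388608) (nat_lit 156533524672) (.one (nat_lit 2102940) .nil)))),
   .two (nat_lit 169869320) (nat_lit 18941476892) (.two (nat_lit 1291845638) (nat_lit 235929895) (.two (nat_lit 16777217) (nat_lit 303039189) (.two (nat_lit 16777216) (nat_lit 2099564) (.one (nat_lit 2102941) .nil)))),
   .two (nat_lit 46414168078) (nat_lit 3527409754) (.two (nat_lit 21777874947) (nat_lit 713032028) (.two (nat_lit 612368385) (nat_lit 2349861670) (.one (nat_lit 1054366) .nil))),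
   .two (nat_lit 2954887176) (nat_lit 158075977738) (.two (nat_lit 11476664324) (nat_lit 306184218) (.two (nat_lit 21207449603) (nat_lit 13222544156) (.two (nat_lit 2097152) (nat_lit 272632516) (.one (nat_lit 4199362) .nil)))),
   .two (nat_lit 12117344264) (nat_lit 740294667) (.two (nat_lit 47548727300) (nat_lit 47550824531) (.two (nat_lit 46978301955) (nat_lit 12117344524) (.two (nat_lit 9768534017) (nat_lit 2098845) (.two (nat_lit 16777216) (nat_lit 270535477) (.one (nat_lit 2102943) .nil))))),
   .two (nat_lit 18933088266) (nat_lit 20704133194) (.two (nat_lit 28086108163) (nat_lit 11618222842) (.two (nat_lit 1048576) (nat_lit 46481279229) (.one (nat_lit 8393668) .nil))),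
   .two (nat_lit 47548727304) (nat_lit 21207449627) (.two (nat_lit 3458203651) (nat_lit 4598006477) (.two (nat_lit 2097152) (nat_lit 1052203) (.one (nat_lit 1054368) .nil))),
   .two (nat_lit 1779433480) (nat_lit 117440522) (.two (nat_lit 1191182340) (nat_lit 158176641066) (.two (nat_lit 754974723) (nat_lit 166129042616) (.two (nat_lit 16777216) (nat_lit 19127077543) (.one (nat_lit 174752535434) .nil)))),
   .two (nat_lit 12047089672) (nat_lit 158177689610) (.two (nat_lit 9934209028) (nat_lit 806354998) (.two (nat_lit 1779433475) (nat_lit 46508540193) (.two (nat_lit 9765388289) (nat_lit 19128124101) (.two (nat_lit 1048576) (nat_lit 2100781) (.one (nat_lit 1053641) .nil))))),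
   .two (nat_lit 2954887176) (nat_lit 218104087) (.two (nat_lit 606076929) (nat_lit 318768766) (.two (nat_lit 2097152) (nat_lit 16780128) (.one (nat_lit 16782282) .nil))),
   .two (nat_lit 75497480) (nat_lit 10939793418) (.two (nat_lit 184993972228) (nat_lit 10939793446) (.two (nat_lit 156364701699) (nat_lit 159224168627) (.two (nat_lit 16777217) (nat_lit 156573369488) (.two (nat_lit 16777216) (nat_lit 8391522) (.one (nat_lit 8394401) .nil))))),
   .two (nat_lit 117440520) (nat_lit 166196150317) (.two (nat_lit 1779433475) (nat_lit 46523220741) (.two (nat_lit 1048576) (nat_lit 251661660) .nil)),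
   .two (nat_lit 9781116942) (nat_lit 9866051604) (.two (nat_lit 9781116933) (nat_lit 1410334827) (.two (nat_lit 1358954499) (nat_lit 183845782230) (.two (nat_lit 1048576) (nat_lit 16780846) (.one (nat_lit 1054370) .nil)))),
   .two (nat_lit 9934209032) (nat_lit 9974054939) (.two (nat_lit 169869314) (nat_lit 28697428700) (.two (nat_lit 2097152) (nat_lit 19134417089) (.one (nat_lit 8394403) .nil))),
   .two (nat_lit 8388616) (nat_lit 9799991306) (.two (nat_lit 157036838916) (nat_lit 46984593589) (.two (nat_lit 4194305) (nat_lit 20644365054) (.two (nat_lit 4194304) (nat_lit 2100069) (.one (nat_lit 8394404) .nil)))),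
   .two (nat_lit 4601151496) (nat_lit 183853121546) (.two (nat_lit 612368388) (nat_lit 2923429915) (.two (nat_lit 176160771) (nat_lit 2923430168) (.two (nat_lit 8388609) (nat_lit 104858358) (.two (nat_lit 8388608) (nat_lit 4197222) (.one (nat_lit 8393675) .nil))))),
   .two (nat_lit 2969567240) (nat_lit 880803883) (.two (nat_lit 41943043) (nat_lit 9781117630) (.two (nat_lit 8388608) (nat_lit 9915336237) (.one (nat_lit 16782294) .nil))),
   .two (nat_lit 183848927240) (nat_lit 165525061690) (.two (nat_lit 270532611) (nat_lit 166232850615) (.two (nat_lit 34603009) (nat_lit 1312818397) (.two (nat_lit 4194304) (nat_lit 19596839044) (.one (nat_lit 4200101) .nil)))),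
   .two (nat_lit 10385096712) (nat_lit 306184202) (.two (nat_lit 272629764) (nat_lit 9873391682) (.two (nat_lit 50331651) (nat_lit 775946531) (.two (nat_lit 50331649) (nat_lit 19096668991) (.one (nat_lit 8394406) .nil)))),
   .two (nat_lit 20704133130) (nat_lit 209715254) (.two (nat_lit 1343225859) (nat_lit 165532401951) (.two (nat_lit 605028353) (nat_lit 165532402367) (.two (nat_lit 1048576) (nat_lit 8391531) (.one (nat_lit 8393693) .nil)))),
   .two (nat_lit 8388616) (nat_lit 9967763520) (.two (nat_lit 69206019) (nat_lit 19100861595) (.two (nat_lit 4194304) (nat_lit 2101342) .nil)),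
   .two (nat_lit 10343153672) (nat_lit 12117344266) (.two (nat_lit 11479810052) (nat_lit 1283457324) (.two (nat_lit 34603009) (nat_lit 142609118) (.one (nat_lit 4200103) .nil))),
   .two (nat_lit 3558866953) (nat_lit 641728575) (.two (nat_lit 605028355) (nat_lit 3525313285) (.two (nat_lit 4194304) (nat_lit 2100082) (.one (nat_lit 2102249) .nil))),
   .two (nat_lit 16777224) (nat_lit 28089254188) (.two (nat_lit 16777217) (nat_lit 2921333906) (.two (nat_lit 4194304) (nat_lit 2100784) (.one (nat_lit 2102952) .nil))),
   .two (nat_lit 203423752) (nat_lit 1749024778) (.two (nat_lit 3458203652) (nat_lit 158146232432) (.two (nat_lit 46407876610) (nat_lit 4195139) (.two (nat_lit 156367847425) (nat_lit 270535505) (.one (nat_lit 2102257) .nil)))),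
   .two (nat_lit 9781116942) (nat_lit 9866051604) (.two (nat_lit 9781116933) (nat_lit 1410334827) (.two (nat_lit 1358954499) (nat_lit 28790751519) (.two (nat_lit 620756993) (nat_lit 18925748950) (.two (nat_lit 8388608) (nat_lit 158143089392) (.one (nat_lit 1054377) .nil))))),
   .two (nat_lit 46978301960) (nat_lit 158179786856) (.two (nat_lit 272629763) (nat_lit 158177690386) (.two (nat_lit 4194304) (nat_lit 2100091) (.one (nat_lit 2102954) .nil))),
   .two (nat_lit 12047089672) (nat_lit 641728522) (.two (nat_lit 2889875460) (nat_lit 166129041458) (.two (nat_lit 11476664322) (nat_lit 876610371) (.two (nat_lit 9768534017) (nat_lit 158075980513) (.one (nat_lit 873468913) .nil)))),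
   .two (nat_lit 11479810056) (nat_lit 21777874956) (.two (nat_lit 183848927236) (nat_lit 21785215021) (.two (nat_lit 209715203) (nat_lit 184419353015) (.two (nat_lit 1048576) (nat_lit 12117345073) (.one (nat_lit 8394411) .nil)))),
   .two (nat_lit 4194312) (nat_lit 10343153707) (.two (nat_lit 705691650) (nat_lit 713032197) (.two (nat_lit 34603009) (nat_lit 1950352145) (.two (nat_lit 1048576) (nat_lit 4197251) (.one (nat_lit 4198819) .nil)))),
   .two (nat_lit 3527409672) (nat_lit 236978196) (.two (nat_lit 9768534020) (nat_lit 11543773291) (.two (nat_lit 4599054339) (nat_lit 9936306939) (.two (nat_lit 2097152) (nat_lit 2889877739) (.one (nat_lit 4200108) .nil)))),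
   .two (nat_lit 2889875464) (nat_lit 174686470154) (.two (nat_lit 10940841988) (nat_lit 2319450430) (.two (nat_lit 9766436865) (nat_lit 28089255473) (.one (nat_lit 4199431) .nil))),
   .two (nat_lit 2954887176) (nat_lit 10939793429) (.two (nat_lit 3525312516) (nat_lit 739246188) (.two (nat_lit 9934209027) (nat_lit 12147753245) (.two (nat_lit 606076929) (nat_lit 11610884966) (.one (nat_lit 1054381) .nil)))),
   .two (nat_lit 11610882057) (nat_lit 10376708156) (.two (nat_lit 156372041731) (nat_lit 10939793894) (.two (nat_lit 8388609) (nat_lit 1051174) (.two (nat_lit 8388608) (nat_lit 1053336) (.one (nat_lit 1053112) .nil)))),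
   .two (nat_lit 272629768) (nat_lit 3525312520) (.two (nat_lit 272629764) (nat_lit 46474985498) (.two (nat_lit 2887778306) (nat_lit 46510637332) (.two (nat_lit 37748737) (nat_lit 2098421) (.two (nat_lit 4194304) (nat_lit 2101913) (.one (nat_lit 639635276) .nil))))),
   .two (nat_lit 236978186) (nat_lit 19599982609) (.two (nat_lit 3525312516) (nat_lit 12050235455) (.two (nat_lit 50331651) (nat_lit 12048138951) (.two (nat_lit 4194304) (nat_lit 159251432242) (.one (nat_lit 2101694) .nil)))),
   .two (nat_lit 20638072840) (nat_lit 1849688072) (.two (nat_lit 272629764) (nat_lit 37247516735) (.two (nat_lit 612368387) (nat_lit 20638073011) (.two (nat_lit 41943041) (nat_lit 183947494174) (.two (nat_lit 8388608) (nat_lit 2099584) (.one (nat_lit 2102295) .nil))))),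
   .two (nat_lit 2889875464) (nat_lit 35651596) (.two (nat_lit 205520900) (nat_lit 9867100215) (.two (nat_lit 159217876995) (nat_lit 21781020855) (.two (nat_lit 156365750273) (nat_lit 1749025923) (.two (nat_lit 1048576) (nat_lit 2100794) (.one (nat_lit 2102299) .nil))))),
   .two (nat_lit 1277165576) (nat_lit 156367847432) (.two (nat_lit 1780482052) (nat_lit 158079123847) (.two (nat_lit 8388609) (nat_lit 166199297588) (.one (nat_lit 2102958) .nil))),
   .two (nat_lit 272629768) (nat_lit 19529728008) (.two (nat_lit 218103812) (nat_lit 12050236140) (.two (nat_lit 16777216) (nat_lit 28693236013) (.one (nat_lit 4200111) .nil))),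
   .two (nat_lit 19530776584) (nat_lit 158646403098) (.two (nat_lit 10940841988) (nat_lit 37313577139) (.two (nat_lit 174753579011) (nat_lit 13221495503) (.two (nat_lit 9766436865) (nat_lit 47581237793) .nil))),
   .two (nat_lit 713031688) (nat_lit 4601151515) (.two (nat_lit 11551113220) (nat_lit 9936306568) (.two (nat_lit 12121538563) (nat_lit 13191087225) (.two (nat_lit 2097153) (nat_lit 4197079) (.two (nat_lit 4194304) (nat_lit 2101143) (.one (nat_lit 4200345) .nil))))),
   .two (nat_lit 2889875464) (nat_lit 28093448219) (.two (nat_lit 2889875460) (nat_lit 21785215156) (.two (nat_lit 4601151491) (nat_lit 21785216531) (.two (nat_lit 4194304) (nat_lit 12054433575) (.one (nat_lit 4199724) .nil)))),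
   .two (nat_lit 2969567240) (nat_lit 13224640575) (.two (nat_lit 46978301956) (nat_lit 11525948119) (.two (nat_lit 2097153) (nat_lit 4196610) (.two (nat_lit 2097152) (nat_lit 4199129) (.one (nat_lit 2103194) .nil)))),
   .two (nat_lit 9948889096) (nat_lit 183853121562) (.two (nat_lit 47563407364) (nat_lit 18933088435) (.two (nat_lit 13195280387) (nat_lit 19127075557) (.two (nat_lit 41943041) (nat_lit 269485594) (.two (nat_lit 1048576) (nat_lit 16781210) (.one (nat_lit 1054619) .nil))))),
   .two (nat_lit 156372041736) (nat_lit 183916036122) (.two (nat_lit 11479810052) (nat_lit 11551113528) (.two (nat_lit 11543773187) (nat_lit 159219975706) (.two (nat_lit 1048576) (nat_lit 19130223104) (.one (nat_lit 4200348) .nil)))),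
   .two (nat_lit 612368392) (nat_lit 10909384799) (.two (nat_lit 4601151492) (nat_lit 21818769778) (.two (nat_lit 46414168067) (nat_lit 876610273) (.two (nat_lit 16777217) (nat_lit 12114201095) (.one (nat_lit 8394029) .nil)))),
   .two (nat_lit 184416206856) (nat_lit 158083317803) (.two (nat_lit 19596836868) (nat_lit 46984594134) (.two (nat_lit 34603009) (nat_lit 11584669852) (.two (nat_lit 1048576) (nat_lit 20711478332) .nil))),
   .two (nat_lit 4613734408) (nat_lit 156535619970) (.two (nat_lit 158150426627) (nat_lit 10385097410) (.two (nat_lit 612368385) (nat_lit 4043311279) (.two (nat_lit 1048576) (nat_lit 4198299) (.one (nat_lit 16783261) .nil)))),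
   .two (nat_lit 3458203656) (nat_lit 13195280427) (.two (nat_lit 156581756934) (nat_lit 3558867332) (.two (nat_lit 9781116931) (nat_lit 3558867383) (.two (nat_lit 9781116929) (nat_lit 2418017830) (.two (nat_lit 8388608) (nat_lit 2317356359) (.one (nat_lit 285217841) .nil))))),
   .two (nat_lit 46978301960) (nat_lit 10540286009) (.two (nat_lit 4194308) (nat_lit 2350907737) (.two (nat_lit 41943043) (nat_lit 4027581136) (.two (nat_lit 605028353) (nat_lit 4196611) (.two (nat_lit 1048576) (nat_lit 8392040) (.one (nat_lit 8394033) .nil))))),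
   .two (nat_lit 2969567240) (nat_lit 69206199) (.two (nat_lit 10504634371) (nat_lit 16778410) (.two (nat_lit 9766436865) (nat_lit 2902459924) (.two (nat_lit 2097152) (nat_lit 16782042) (.one (nat_lit 28791804383) .nil)))),
   .two (nat_lit 37748744) (nat_lit 10007609382) (.two (nat_lit 203423748) (nat_lit 1916797244) (.two (nat_lit 2954887171) (nat_lit 11517559549) (.two (nat_lit 606076929) (nat_lit 46984595714) (.two (nat_lit 2097152) (nat_lit 8392605) (.one (nat_lit 9936311532) .nil))))),
   .two (nat_lit 46409973768) (nat_lit 47588573237) (.two (nat_lit 4605345797) (nat_lit 28793897267) (.two (nat_lit 8388611) (nat_lit 4195979) (.two (nat_lit 620756993) (nat_lit 156971829430) (.two (nat_lit 16777216) (nat_lit 10443820918) (.one (nat_lit 4200350) .nil))))),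
   .two (nat_lit 41943048) (nat_lit 156465365343) (.two (nat_lit 8388610) (nat_lit 28086109327) (.two (nat_lit 4194305) (nat_lit 28757198373) (.two (nat_lit 1048576) (nat_lit 8393435) (.one (nat_lit 185020191305) .nil)))),
   .two (nat_lit 13191086088) (nat_lit 202375272) (.two (nat_lit 2954887172) (nat_lit 1379926323) (.two (nat_lit 806354947) (nat_lit 158649549555) (.two (nat_lit 9768534017) (nat_lit 28758247591) (.two (nat_lit 4194304) (nat_lit 2100586) (.one (nat_lit 2103199) .nil))))),
   .two (nat_lit 4194312) (nat_lit 183962173483) (.two (nat_lit 4194308) (nat_lit 9781117276) (.two (nat_lit 184549379) (nat_lit 28793898153) (.two (nat_lit 16777217) (nat_lit 159250384421) (.two (nat_lit 1048576) (nat_lit 16782044) (.one (nat_lit 16783264) .nil))))),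
   .two (nat_lit 46407876616) (nat_lit 183853121577) (.two (nat_lit 41943044) (nat_lit 1277165903) (.two (nat_lit 10503585795) (nat_lit 3021996770) (.two (nat_lit 8388609) (nat_lit 1948255794) (.two (nat_lit 2097152) (nat_lit 8392608) (.one (nat_lit 47588577855) .nil))))),
   .two (nat_lit 4605345800) (nat_lit 12129927221) (.two (nat_lit 8388612) (nat_lit 1761608072) (.two (nat_lit 8388610) (nat_lit 16778413) (.two (nat_lit 41943041) (nat_lit 37329307859) (.two (nat_lit 16777216) (nat_lit 8392609) (.one (nat_lit 28772930704) .nil))))),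
   .two (nat_lit 276824072) (nat_lit 1291846338) (.two (nat_lit 8388609) (nat_lit 156465367708) (.two (nat_lit 8388608) (nat_lit 12617518336) (.one (nat_lit 1054015) .nil))),
   .two (nat_lit 9948889096) (nat_lit 47548727323) (.two (nat_lit 3458203652) (nat_lit 166245433680) (.two (nat_lit 1291845635) (nat_lit 2098350) (.two (nat_lit 2097153) (nat_lit 16779525) (.two (nat_lit 2097152) (nat_lit 16781221) (.one (nat_lit 46508544479) .nil))))),
   .two (nat_lit 809500680) (nat_lit 46992982108) (.two (nat_lit 754974724) (nat_lit 46510637874) (.two (nat_lit 16777216) (nat_lit 159219976710) (.one (nat_lit 4200353) .nil))),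
   .two (nat_lit 4601151496) (nat_lit 209715507) (.two (nat_lit 9934209027) (nat_lit 809501415) (.two (nat_lit 41943041) (nat_lit 4196541) (.two (nat_lit 2097152) (nat_lit 8392614) (.one (nat_lit 12618568247) .nil)))),
   .two (nat_lit 4194312) (nat_lit 12054429737) (.two (nat_lit 184993972228) (nat_lit 158143086909) (.two (nat_lit 12054429699) (nat_lit 1050235) (.two (nat_lit 605028353) (nat_lit 20745030323) (.two (nat_lit 1048576) (nat_lit 8392615) (.one (nat_lit 1054626) .nil))))),
   .two (nat_lit 1291845640) (nat_lit 12617515046) (.two (nat_lit 9881780228) (nat_lit 10369368814) (.two (nat_lit 34603009) (nat_lit 37262199302) (.one (nat_lit 16783267) .nil))),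
   .two (nat_lit 46414168072) (nat_lit 11022631620) (.two (nat_lit 8388609) (nat_lit 158177692909) (.one (nat_lit 2103204) .nil)),
   .two (nat_lit 205520904) (nat_lit 158144135193) (.two (nat_lit 705691652) (nat_lit 165528207545) (.two (nat_lit 705691650) (nat_lit 156365751013) (.two (nat_lit 9765388289) (nat_lit 270536527) (.one (nat_lit 1054629) .nil)))),
   .two (nat_lit 2969567240) (nat_lit 12054429735) (.two (nat_lit 16777220) (nat_lit 20644364994) (.two (nat_lit 8388609) (nat_lit 10385098260) (.two (nat_lit 8388608) (nat_lit 16782045) (.one (nat_lit 8394662) .nil)))),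
   .two (nat_lit 822083592) (nat_lit 21778923623) (.two (nat_lit 606076932) (nat_lit 10552869201) (.two (nat_lit 184549378) (nat_lit 156533523129) (.two (nat_lit 156367847425) (nat_lit 183913941147) (.two (nat_lit 16777216) (nat_lit 4198313) (.one (nat_lit 4200359) .nil))))),
   .two (nat_lit 41943048) (nat_lit 83886786) (.two (nat_lit 8388609) (nat_lit 20753418404) (.two (nat_lit 8388608) (nat_lit 11626614643) (.one (nat_lit 8394513) .nil))),
   .two (nat_lit 10504634376) (nat_lit 2969567275) (.two (nat_lit 2954887172) (nat_lit 1392509654) (.two (nat_lit 2097153) (nat_lit 16779994) (.two (nat_lit 2097152) (nat_lit 16781229) (.one (nat_lit 16783272) .nil)))),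
   .two (nat_lit 3525312520) (nat_lit 9881780267) (.two (nat_lit 639631364) (nat_lit 21827158484) (.two (nat_lit 620756995) (nat_lit 28087157456) (.two (nat_lit 620756993) (nat_lit 3458207040) (.one (nat_lit 218109119) .nil)))),
   .two (nat_lit 2961178632) (nat_lit 4028629272) (.two (nat_lit 159224168451) (nat_lit 2098354) (.two (nat_lit 606076929) (nat_lit 1779435693) (.two (nat_lit 1048576) (nat_lit 2101982) (.one (nat_lit 1054633) .nil)))),
   .two (nat_lit 3460300808) (nat_lit 10001317994) (.two (nat_lit 12050235396) (nat_lit 156465365172) (.two (nat_lit 203423747) (nat_lit 1175454427) (.two (nat_lit 2097153) (nat_lit 1050886) (.two (nat_lit 2097152) (nat_lit 4198318) (.one (nat_lit 2103210) .nil))))),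
   .two (nat_lit 1795162120) (nat_lit 183946444879) (.two (nat_lit 1947205637) (nat_lit 28705816893) (.two (nat_lit 12117344259) (nat_lit 156566030537) (.two (nat_lit 4194304) (nat_lit 156968684849) (.one (nat_lit 1054635) .nil)))),
   .two (nat_lit 272629768) (nat_lit 19033751872) (.two (nat_lit 4194306) (nat_lit 880806041) (.two (nat_lit 1048576) (nat_lit 876612928) (.one (nat_lit 876615898) .nil))),
   .two (nat_lit 9768534024) (nat_lit 150995127) (.two (nat_lit 2902458370) (nat_lit 10506731959) (.two (nat_lit 16777217) (nat_lit 9772730873) (.one (nat_lit 4199754) .nil))),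
   .two (nat_lit 184416206856) (nat_lit 9902752500) (.two (nat_lit 4194305) (nat_lit 21777877660) (.two (nat_lit 1048576) (nat_lit 18928897280) (.one (nat_lit 1054636) .nil))),
   .two (nat_lit 184549384) (nat_lit 807403821) (.two (nat_lit 184549378) (nat_lit 3021997231) (.two (nat_lit 16777217) (nat_lit 21812480214) (.two (nat_lit 2097152) (nat_lit 822087002) (.one (nat_lit 11611935977) .nil)))),
   .two (nat_lit 9781116936) (nat_lit 156367847893) (.two (nat_lit 272629763) (nat_lit 754975422) (.two (nat_lit 4194305) (nat_lit 11525948961) (.two (nat_lit 1048576) (nat_lit 20652756227) (.one (nat_lit 16783277) .nil)))),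
   .two (nat_lit 19599982600) (nat_lit 739246428) (.two (nat_lit 1343225859) (nat_lit 9936306617) (.two (nat_lit 8388609) (nat_lit 9802089265) (.two (nat_lit 1048576) (nat_lit 4197744) (.one (nat_lit 4199755) .nil)))),
   .two (nat_lit 21208498184) (nat_lit 1346371638) (.two (nat_lit 620756996) (nat_lit 2990539041) (.two (nat_lit 184549379) (nat_lit 19130220984) (.two (nat_lit 16777217) (nat_lit 19130222102) (.two (nat_lit 16777216) (nat_lit 104861506) (.one (nat_lit 11511272662) .nil))))),
   .two (nat_lit 654311432) (nat_lit 185020186661) (.two (nat_lit 11543773188) (nat_lit 2969567511) (.two (nat_lit 83886083) (nat_lit 21811430081) (.two (nat_lit 620756993) (nat_lit 158646405327) (.two (nat_lit 1048576) (nat_lit 16782047) (.one (nat_lit 16783278) .nil))))),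
   .two (nat_lit 2887778312) (nat_lit 1291846334) (.two (nat_lit 2097153) (nat_lit 9915336225) (.two (nat_lit 2097152) (nat_lit 11626614531) (.one (nat_lit 1054639) .nil))),
   .two (nat_lit 10385096712) (nat_lit 11513364523) (.two (nat_lit 10343153668) (nat_lit 2956984629) (.two (nat_lit 11479810051) (nat_lit 1224738333) (.two (nat_lit 4194304) (nat_lit 184431938037) (.one (nat_lit 16783128) .nil)))),
   .two (nat_lit 1178599432) (nat_lit 174759870645) (.two (nat_lit 11479810050) (nat_lit 12121539736) (.two (nat_lit 37748737) (nat_lit 9974058898) (.one (nat_lit 9974060947) .nil))),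
   .two (nat_lit 822083592) (nat_lit 46980399129) (.two (nat_lit 11007950853) (nat_lit 104858313) (.two (nat_lit 37748737) (nat_lit 2432698615) (.two (nat_lit 2097152) (nat_lit 4198324) (.one (nat_lit 12117349663) .nil)))),
   .two (nat_lit 9768534024) (nat_lit 102760633) (.two (nat_lit 605028355) (nat_lit 639632541) (.two (nat_lit 605028353) (nat_lit 19029560615) (.one (nat_lit 1054640) .nil))),
   .two (nat_lit 3527409672) (nat_lit 1847590950) (.two (nat_lit 166130089988) (nat_lit 166132187954) (.two (nat_lit 2097152) (nat_lit 4197746) (.one (nat_lit 2103217) .nil))),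
   .two (nat_lit 11492392968) (nat_lit 1782579930) (.two (nat_lit 50331649) (nat_lit 4197084) (.two (nat_lit 4194304) (nat_lit 50335060) (.one (nat_lit 156569179424) .nil))),
   .two (nat_lit 203423752) (nat_lit 9881780262) (.two (nat_lit 1291845636) (nat_lit 20738736830) (.two (nat_lit 620756993) (nat_lit 2099933) (.two (nat_lit 16777216) (nat_lit 2101984) (.one (nat_lit 251664742) .nil)))),
   .two (nat_lit 4194312) (nat_lit 10007609380) (.two (nat_lit 68157444) (nat_lit 4638900707) (.two (nat_lit 2894069763) (nat_lit 156468511495) (.two (nat_lit 34603009) (nat_lit 11614029377) (.two (nat_lit 1048576) (nat_lit 4198325) (.one (nat_lit 1054037) .nil))))),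
   .two (nat_lit 2969567240) (nat_lit 13195280428) (.two (nat_lit 183853121540) (nat_lit 28705816865) (.two (nat_lit 184549379) (nat_lit 1283457757) (.two (nat_lit 4194305) (nat_lit 166237048695) (.one (nat_lit 8394070) .nil)))),
   .two (nat_lit 2887778312) (nat_lit 156581756981) (.two (nat_lit 203423748) (nat_lit 21818769591) (.two (nat_lit 2954887171) (nat_lit 9933161641) (.two (nat_lit 2097153) (nat_lit 20737689859) (.two (nat_lit 16777216) (nat_lit 2101174) (.one (nat_lit 16783282) .nil))))),
   .two (nat_lit 620757000) (nat_lit 46474985509) (.two (nat_lit 620756996) (nat_lit 69206777) (.two (nat_lit 16777217) (nat_lit 236980432) (.two (nat_lit 8388608) (nat_lit 740297204) (.one (nat_lit 16783283) .nil)))),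
   .two (nat_lit 612368392) (nat_lit 9814671654) (.two (nat_lit 176160770) (nat_lit 2936013543) (.two (nat_lit 8388609) (nat_lit 11626614563) (.one (nat_lit 8394676) .nil))),
   .two (nat_lit 184549384) (nat_lit 13195280452) (.two (nat_lit 8388610) (nat_lit 13237224569) (.two (nat_lit 620756993) (nat_lit 166203491875) (.two (nat_lit 16777216) (nat_lit 8393441) (.one (nat_lit 19134420095) .nil)))),
   .two (nat_lit 4194312) (nat_lit 166197198892) (.two (nat_lit 156969730052) (nat_lit 9768534335) (.two (nat_lit 705691650) (nat_lit 158647452351) (.two (nat_lit 34603009) (nat_lit 156365751857) (.two (nat_lit 1048576) (nat_lit 2101176) (.one (nat_lit 16783285) .nil))))),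
   .two (nat_lit 276824072) (nat_lit 11513364521) (.two (nat_lit 12114198532) (nat_lit 10540286737) (.two (nat_lit 4194305) (nat_lit 19026414887) (.one (nat_lit 68162746) .nil))),
   .two (nat_lit 4194312) (nat_lit 16777293) (.two (nat_lit 9948889092) (nat_lit 2889875842) (.two (nat_lit 2969567235) (nat_lit 3560964846) (.two (nat_lit 34603009) (nat_lit 185023334557) (.two (nat_lit 1048576) (nat_lit 4199138) (.one (nat_lit 1054044) .nil))))),
   .two (nat_lit 10370416648) (nat_lit 10376708147) (.two (nat_lit 20644364292) (nat_lit 2097984) (.two (nat_lit 639631363) (nat_lit 8389811) (.two (nat_lit 9766436865) (nat_lit 11584670976) (.one (nat_lit 19128128615) .nil)))),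
   .two (nat_lit 2887778312) (nat_lit 10510925878) (.two (nat_lit 2961178628) (nat_lit 3458204395) (.two (nat_lit 34603009) (nat_lit 21814578487) (.one (nat_lit 1054045) .nil))),
   .two (nat_lit 1291845641) (nat_lit 41943067) (.two (nat_lit 9881780228) (nat_lit 166136382157) (.two (nat_lit 620756993) (nat_lit 159224171836) (.one (nat_lit 8394679) .nil))),
   .two (nat_lit 612368392) (nat_lit 11559501869) (.two (nat_lit 721420294) (nat_lit 159224168887) (.two (nat_lit 16777217) (nat_lit 10007614029) .nil)),
   .two (nat_lit 184549384) (nat_lit 876609589) (.two (nat_lit 809500676) (nat_lit 50331828) (.two (nat_lit 272629763) (nat_lit 16778420) (.two (nat_lit 620756993) (nat_lit 4197883) (.two (nat_lit 16777216) (nat_lit 4198240) (.one (nat_lit 18941482124) .nil))))),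
   .two (nat_lit 4194312) (nat_lit 1417674792) (.two (nat_lit 21785214980) (nat_lit 156566028583) (.two (nat_lit 9866051587) (nat_lit 10942939861) (.two (nat_lit 41943041) (nat_lit 10906243549) .nil))),
   .two (nat_lit 13195280392) (nat_lit 2956984629) (.two (nat_lit 11479810051) (nat_lit 28772927620) (.two (nat_lit 4194304) (nat_lit 16781243) (.one (nat_lit 16783288) .nil))),
   .two (nat_lit 822083592) (nat_lit 28693233844) (.two (nat_lit 708837379) (nat_lit 117441209) (.two (nat_lit 4194305) (nat_lit 183913941673) (.two (nat_lit 2097152) (nat_lit 3024097103) (.one (nat_lit 4200377) .nil)))),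
   .two (nat_lit 10370416648) (nat_lit 138412139) (.two (nat_lit 10370416644) (nat_lit 2923430175) (.two (nat_lit 3527409667) (nat_lit 47582282430) (.two (nat_lit 9766436865) (nat_lit 4634707478) (.two (nat_lit 2097152) (nat_lit 4198334) (.one (nat_lit 10942944984) .nil))))),
   .two (nat_lit 2961178632) (nat_lit 10538188837) (.two (nat_lit 11476664324) (nat_lit 3531604150) (.two (nat_lit 2097155) (nat_lit 4034921186) (.two (nat_lit 2097153) (nat_lit 183920231986) (.two (nat_lit 2097152) (nat_lit 8393445) (.one (nat_lit 46407881279) .nil))))),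
   .two (nat_lit 83886088) (nat_lit 184993972267) (.two (nat_lit 18928893956) (nat_lit 8389107) (.two (nat_lit 13195280387) (nat_lit 9936308730) (.one (nat_lit 1782584514) .nil))),
   .two (nat_lit 83886088) (nat_lit 3464495544) (.two (nat_lit 8388609) (nat_lit 9948892500) (.one (nat_lit 8393887) .nil)),
   .two (nat_lit 272629768) (nat_lit 1786774264) (.two (nat_lit 4194305) (nat_lit 12054431254) (.two (nat_lit 4194304) (nat_lit 8392639) (.one (nat_lit 8394682) .nil))),
   .two (nat_lit 1191182344) (nat_lit 1410334779) (.two (nat_lit 158176641030) (nat_lit 10351542713) (.two (nat_lit 34603009) (nat_lit 20652754489) (.two (nat_lit 1048576) (nat_lit 16780661) (.one (nat_lit 16783291) .nil)))),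
   .two (nat_lit 639631368) (nat_lit 11593056363) (.two (nat_lit 3036676102) (nat_lit 46407877358) (.two (nat_lit 156364701697) (nat_lit 2099935) (.two (nat_lit 1048576) (nat_lit 2101990) (.one (nat_lit 1054652) .nil)))),
   .two (nat_lit 822083592) (nat_lit 184419352601) (.two (nat_lit 822083588) (nat_lit 339739382) (.two (nat_lit 4194305) (nat_lit 166144771617) (.two (nat_lit 4194304) (nat_lit 16780662) (.one (nat_lit 4200381) .nil)))),
   .two (nat_lit 176160776) (nat_lit 46508539954) (.two (nat_lit 612368388) (nat_lit 159251431698) (.two (nat_lit 176160770) (nat_lit 159251432121) (.two (nat_lit 156365750273) (nat_lit 142607908) (.two (nat_lit 2097152) (nat_lit 8392643) (.one (nat_lit 2102628) .nil))))),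
   .two (nat_lit 4605345800) (nat_lit 12117344544) (.two (nat_lit 4605345795) (nat_lit 46477083397) (.two (nat_lit 41943041) (nat_lit 46477085340) (.two (nat_lit 4194304) (nat_lit 880806385) (.one (nat_lit 4200383) .nil)))),
   .two (nat_lit 272629768) (nat_lit 1753219252) (.two (nat_lit 4194306) (nat_lit 46514832529) (.two (nat_lit 620756993) (nat_lit 339742627) (.one (nat_lit 46510642302) .nil))),
   .two (nat_lit 11479810056) (nat_lit 11510218931) (.two (nat_lit 16777218) (nat_lit 157036839652) (.two (nat_lit 16777217) (nat_lit 239076912) (.two (nat_lit 1048576) (nat_lit 4198341) (.one (nat_lit 1054656) .nil)))),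
   .two (nat_lit 50331656) (nat_lit 28697428723) (.two (nat_lit 8388609) (nat_lit 1862272543) (.two (nat_lit 8388608) (nat_lit 16781255) (.one (nat_lit 75503319) .nil))),
   .two (nat_lit 8388616) (nat_lit 11476664377) (.two (nat_lit 713031684) (nat_lit 158143087077) (.two (nat_lit 612368387) (nat_lit 1050252) (.two (nat_lit 156365750273) (nat_lit 1384122557) (.two (nat_lit 1048576) (nat_lit 2101993) (.one (nat_lit 2103235) .nil))))),
   .two (nat_lit 11543773192) (nat_lit 251658950) (.two (nat_lit 34603009) (nat_lit 4043310627) (.two (nat_lit 1048576) (nat_lit 16781257) (.one (nat_lit 4200389) .nil))),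
   .two (nat_lit 20644364296) (nat_lit 28690088435) (.two (nat_lit 21777874947) (nat_lit 4638900937) (.two (nat_lit 605028353) (nat_lit 10510928539) (.two (nat_lit 1048576) (nat_lit 156569178052) (.one (nat_lit 1054058) .nil)))),
   .two (nat_lit 117440520) (nat_lit 673186131) (.two (nat_lit 2097155) (nat_lit 11525948114) (.two (nat_lit 34603009) (nat_lit 150996542) (.two (nat_lit 4194304) (nat_lit 2101994) (.one (nat_lit 4200390) .nil)))),
   .two (nat_lit 2887778312) (nat_lit 3527409700) (.two (nat_lit 2889875460) (nat_lit 3458203974) (.two (nat_lit 11479810050) (nat_lit 21812478699) (.two (nat_lit 156364701697) (nat_lit 20740835492) (.two (nat_lit 2097152) (nat_lit 1053419) (.one (nat_lit 9867105477) .nil))))),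
   .two (nat_lit 37748744) (nat_lit 4605345828) (.two (nat_lit 809500676) (nat_lit 158183981348) (.two (nat_lit 713031682) (nat_lit 2098359) (.two (nat_lit 2097153) (nat_lit 847252169) (.two (nat_lit 2097152) (nat_lit 4198346) (.one (nat_lit 2102635) .nil))))),
   .two (nat_lit 654311432) (nat_lit 10001317936) (.two (nat_lit 9766436868) (nat_lit 2969567935) (.two (nat_lit 2097153) (nat_lit 183861511711) (.two (nat_lit 2097152) (nat_lit 16780664) (.one (nat_lit 41948317) .nil)))),
   .two (nat_lit 184549384) (nat_lit 18933088543) (.two (nat_lit 13195280387) (nat_lit 184549815) (.two (nat_lit 41943041) (nat_lit 16780771) .nil)),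
   .two (nat_lit 9940500488) (nat_lit 10437525531) (.two (nat_lit 37748740) (nat_lit 47555019018) (.two (nat_lit 272629763) (nat_lit 184987681905) (.two (nat_lit 4194305) (nat_lit 165526112493) (.two (nat_lit 4194304) (nat_lit 2101196) (.one (nat_lit 2102643) .nil))))),
   .two (nat_lit 754974728) (nat_lit 156532474212) (.two (nat_lit 11543773187) (nat_lit 9982444715) (.two (nat_lit 8388609) (nat_lit 46473939110) (.two (nat_lit 8388608) (nat_lit 1053421) (.one (nat_lit 8394103) .nil)))),
   .two (nat_lit 2969567240) (nat_lit 10504635119) (.two (nat_lit 606076929) (nat_lit 16781168) (.one (nat_lit 16782712) .nil)),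
   .two (nat_lit 2887778312) (nat_lit 3527409689) (.two (nat_lit 2954887172) (nat_lit 1379926198) (.two (nat_lit 11546918915) (nat_lit 739246871) (.two (nat_lit 9768534017) (nat_lit 19127077577) (.two (nat_lit 4194304) (nat_lit 1053422) (.one (nat_lit 4200392) .nil))))),
   .two (nat_lit 721420296) (nat_lit 8388663) (.two (nat_lit 83886084) (nat_lit 12114198847) (.two (nat_lit 3531603971) (nat_lit 46489666251) (.two (nat_lit 8388609) (nat_lit 3557820932) (.one (nat_lit 1054665) .nil)))),
   .two (nat_lit 2887778312) (nat_lit 641728562) (.two (nat_lit 809500676) (nat_lit 11578376374) (.two (nat_lit 1277165570) (nat_lit 202375940) (.two (nat_lit 9765388289) (nat_lit 10540288222) (.two (nat_lit 1048576) (nat_lit 4198350) (.one (nat_lit 1054073) .nil))))),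
   .two (nat_lit 16777224) (nat_lit 1753219117) (.two (nat_lit 18933088262) (nat_lit 10015998020) (.two (nat_lit 47555018755) (nat_lit 50332465) (.two (nat_lit 8388608) (nat_lit 3539996127) .nil))),
   .two (nat_lit 157038936072) (nat_lit 10907287591) (.two (nat_lit 174753579012) (nat_lit 12620661117) (.two (nat_lit 9934209027) (nat_lit 104858766) (.two (nat_lit 9766436865) (nat_lit 4196618) (.two (nat_lit 1048576) (nat_lit 13188992909) (.one (nat_lit 2102652) .nil))))),
   .two (nat_lit 157038936072) (nat_lit 183912890406) (.two (nat_lit 1175453700) (nat_lit 1279263035) (.two (nat_lit 9765388291) (nat_lit 4195981) (.two (nat_lit 4194305) (nat_lit 1050891) (.two (nat_lit 8388608) (nat_lit 166199301478) .nil)))),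
   .two (nat_lit 176160776) (nat_lit 673185837) (.two (nat_lit 673185797) (nat_lit 3028287928) (.two (nat_lit 156365750273) (nat_lit 8392029) (.one (nat_lit 807408774) .nil))),
   .two (nat_lit 1358954504) (nat_lit 37246468383) (.two (nat_lit 1913651203) (nat_lit 83886519) (.two (nat_lit 9765388289) (nat_lit 352324106) (.one (nat_lit 16781934) .nil))),
   .two (nat_lit 713031688) (nat_lit 10503585873) (.two (nat_lit 4194308) (nat_lit 3028287765) (.two (nat_lit 21207449603) (nat_lit 4195513) (.two (nat_lit 605028353) (nat_lit 184989779493) (.two (nat_lit 1048576) (nat_lit 4198353) (.one (nat_lit 1054078) .nil))))),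
   .two (nat_lit 28093448202) (nat_lit 889192516) (.two (nat_lit 10343153667) (nat_lit 721421106) (.two (nat_lit 2097152) (nat_lit 50334193) (.one (nat_lit 16783306) .nil))),
   .two (nat_lit 13191086088) (nat_lit 156968681499) (.two (nat_lit 12050235396) (nat_lit 638583525) (.two (nat_lit 156367847425) (nat_lit 772802762) (.two (nat_lit 4194304) (nat_lit 2101204) (.one (nat_lit 2103243) .nil)))),
   .two (nat_lit 41943048) (nat_lit 158146232366) (.two (nat_lit 4194308) (nat_lit 176161091) (.two (nat_lit 8388610) (nat_lit 9936307774) (.two (nat_lit 1048576) (nat_lit 2101205) (.one (nat_lit 166229710752) .nil)))),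
   .two (nat_lit 822083592) (nat_lit 46980399147) (.two (nat_lit 46980399110) (nat_lit 174768259513) (.two (nat_lit 9768534017) (nat_lit 174752533738) (.one (nat_lit 772805799) .nil))),
   .two (nat_lit 272629768) (nat_lit 174753579052) (.two (nat_lit 272629764) (nat_lit 2350907716) (.two (nat_lit 639631363) (nat_lit 37316723418) (.two (nat_lit 4194305) (nat_lit 2098719) (.two (nat_lit 8388608) (nat_lit 28089259316) .nil)))),
   .two (nat_lit 16777224) (nat_lit 19033751600) (.two (nat_lit 183853121540) (nat_lit 21223178975) (.two (nat_lit 156364701697) (nat_lit 28798094691) (.one (nat_lit 8394701) .nil))),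
   .two (nat_lit 4601151496) (nat_lit 12114198566) (.two (nat_lit 37748740) (nat_lit 705692118) (.two (nat_lit 69206019) (nat_lit 1049790) (.two (nat_lit 16777217) (nat_lit 2100733) (.two (nat_lit 16777216) (nat_lit 2101210) (.one (nat_lit 2102667) .nil))))),
   .two (nat_lit 639631368) (nat_lit 343933018) (.two (nat_lit 1913651204) (nat_lit 11014242487) (.two (nat_lit 2097155) (nat_lit 3028288191) (.two (nat_lit 4194305) (nat_lit 184416210281) (.one (nat_lit 1054672) .nil)))),
   .two (nat_lit 639631368) (nat_lit 18933088346) (.two (nat_lit 639631364) (nat_lit 166237045211) (.two (nat_lit 10385096707) (nat_lit 21207451814) (.two (nat_lit 16777216) (nat_lit 873467709) (.one (nat_lit 1054092) .nil)))),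
   .two (nat_lit 184993972232) (nat_lit 1948254268) (.two (nat_lit 75497476) (nat_lit 169870097) (.two (nat_lit 34603009) (nat_lit 159251433619) (.two (nat_lit 1048576) (nat_lit 156573373509) .nil))),
   .two (nat_lit 822083592) (nat_lit 205521208) (.two (nat_lit 708837379) (nat_lit 117441209) (.two (nat_lit 4194305) (nat_lit 20753420123) (.one (nat_lit 19530782416) .nil))),
   .two (nat_lit 9802088458) (nat_lit 11610882435) (.two (nat_lit 19532873731) (nat_lit 4598006942) (.two (nat_lit 2097153) (nat_lit 68160807) (.one (nat_lit 1054096) .nil))),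
   .two (nat_lit 620757000) (nat_lit 705691701) (.two (nat_lit 11543773188) (nat_lit 50333204) (.two (nat_lit 1048576) (nat_lit 16782064) (.one (nat_lit 21793608983) .nil))),
   .two (nat_lit 12050235400) (nat_lit 37313576996) (.two (nat_lit 2954887172) (nat_lit 235930071) (.two (nat_lit 10504634371) (nat_lit 303039235) (.two (nat_lit 9766436865) (nat_lit 9902753956) (.two (nat_lit 1048576) (nat_lit 4198365) (.one (nat_lit 1054097) .nil))))),
   .two (nat_lit 2961178632) (nat_lit 10538188837) (.two (nat_lit 2887778308) (nat_lit 2894070068) (.two (nat_lit 2097155) (nat_lit 47588573923) (.two (nat_lit 2097153) (nat_lit 183920231986) (.two (nat_lit 8388608) (nat_lit 3525316512) (.one (nat_lit 2102674) .nil))))),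
   .two (nat_lit 21818769418) (nat_lit 21811429403) (.two (nat_lit 158083317764) (nat_lit 303038648) (.two (nat_lit 28093448195) (nat_lit 1049791) (.two (nat_lit 605028353) (nat_lit 8391393) (.two (nat_lit 1048576) (nat_lit 8393457) (.one (nat_lit 1054099) .nil))))),
   .two (nat_lit 639631368) (nat_lit 10343153701) (.two (nat_lit 2887778308) (nat_lit 159224168731) (.two (nat_lit 806354947) (nat_lit 11618223271) (.two (nat_lit 34603009) (nat_lit 8391394) (.two (nat_lit 1048576) (nat_lit 8392670) (.one (nat_lit 1054100) .nil))))),
   .two (nat_lit 612368392) (nat_lit 12617515047) (.two (nat_lit 612368388) (nat_lit 9899606516) (.two (nat_lit 176160770) (nat_lit 1049792) (.two (nat_lit 2097153) (nat_lit 1853884616) (.two (nat_lit 2097152) (nat_lit 158653747713) .nil)))),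
   .two (nat_lit 9768534024) (nat_lit 185020186688) (.two (nat_lit 1913651204) (nat_lit 28760342845) (.two (nat_lit 203423747) (nat_lit 18928894695) (.two (nat_lit 2097153) (nat_lit 9866054961) (.one (nat_lit 3525318007) .nil)))),
   .two (nat_lit 8388616) (nat_lit 21814575158) (.two (nat_lit 28086108164) (nat_lit 156539814181) (.two (nat_lit 8388610) (nat_lit 3524264683) (.two (nat_lit 4194305) (nat_lit 19134417061) (.two (nat_lit 4194304) (nat_lit 269488056) (.one (nat_lit 4200402) .nil))))),
   .two (nat_lit 46407876616) (nat_lit 47550824497) (.two (nat_lit 3460300804) (nat_lit 11007951027) (.two (nat_lit 2956984323) (nat_lit 1344275230) (.two (nat_lit 2097153) (nat_lit 272631333) (.two (nat_lit 1048576) (nat_lit 2102002) (.one (nat_lit 1054675) .nil))))),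
   .two (nat_lit 11543773192) (nat_lit 20638072895) (.two (nat_lit 205520900) (nat_lit 10538188980) (.two (nat_lit 159217876995) (nat_lit 272630967) (.two (nat_lit 156364701697) (nat_lit 184417256986) (.two (nat_lit 1048576) (nat_lit 4198367) (.one (nat_lit 2103252) .nil))))),
   .two (nat_lit 75497480) (nat_lit 4028629031) (.two (nat_lit 75497476) (nat_lit 2097655) (.two (nat_lit 612368387) (nat_lit 12148802750) (.two (nat_lit 34603009) (nat_lit 10443819208) (.two (nat_lit 1048576) (nat_lit 21214794241) .nil)))),
   .two (nat_lit 28093448202) (nat_lit 352321604) (.two (nat_lit 10343153667) (nat_lit 721421106) (.two (nat_lit 1048576) (nat_lit 50334193) (.one (nat_lit 16781938) .nil))),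
   .two (nat_lit 612368392) (nat_lit 4043309148) (.two (nat_lit 9881780228) (nat_lit 343933746) (.two (nat_lit 16777216) (nat_lit 343935473) (.one (nat_lit 880808562) .nil))),
   .two (nat_lit 11559501832) (nat_lit 37246468139) (.two (nat_lit 11559501828) (nat_lit 1049070) (.two (nat_lit 184986632195) (nat_lit 117441329) (.two (nat_lit 1048576) (nat_lit 20753419746) .nil))),
   .two (nat_lit 739246088) (nat_lit 3021996136) (.two (nat_lit 13191086084) (nat_lit 772800693) (.two (nat_lit 8388611) (nat_lit 166129042125) (.two (nat_lit 612368385) (nat_lit 11614030488) (.two (nat_lit 8388608) (nat_lit 1053429) (.one (nat_lit 4200407) .nil))))),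
   .two (nat_lit 1846542344) (nat_lit 19027460139) (.two (nat_lit 166230753286) (nat_lit 739246461) (.two (nat_lit 10370416643) (nat_lit 1343226580) (.two (nat_lit 9766436865) (nat_lit 1051364) (.two (nat_lit 2097152) (nat_lit 1052641) (.one (nat_lit 1054680) .nil))))),
   .two (nat_lit 4601151496) (nat_lit 13187940447) (.two (nat_lit 4194308) (nat_lit 721420568) (.two (nat_lit 822083587) (nat_lit 303039211) (.two (nat_lit 9765388289) (nat_lit 12129929352) (.two (nat_lit 1048576) (nat_lit 16781282) (.one (nat_lit 16783321) .nil))))),
   .two (nat_lit 3525312521) (nat_lit 46510637094) (.two (nat_lit 2887778308) (nat_lit 608174373) (.two (nat_lit 2097155) (nat_lit 1413481195) (.two (nat_lit 34603009) (nat_lit 75499726) (.two (nat_lit 1048576) (nat_lit 2101219) (.one (nat_lit 1054682) .nil))))),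
   .two (nat_lit 2902458376) (nat_lit 157036838968) (.two (nat_lit 2902458372) (nat_lit 773849582) (.two (nat_lit 2902458370) (nat_lit 11544822477) (.two (nat_lit 9781116929) (nat_lit 1344277852) (.one (nat_lit 1914705028) .nil)))),
   .two (nat_lit 285212680) (nat_lit 21785215019) (.two (nat_lit 4613734404) (nat_lit 20644364575) (.two (nat_lit 159224168451) (nat_lit 3472884481) (.two (nat_lit 612368385) (nat_lit 158091707939) (.two (nat_lit 1048576) (nat_lit 343937591) .nil)))),
   .two (nat_lit 47548727304) (nat_lit 10369368123) (.two (nat_lit 4194308) (nat_lit 174686470324) (.two (nat_lit 4194306) (nat_lit 165525062373) (.two (nat_lit 4194305) (nat_lit 2920286889) (.two (nat_lit 4194304) (nat_lit 9933164367) (.one (nat_lit 1054683) .nil))))),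
   .two (nat_lit 654311432) (nat_lit 675283658) (.two (nat_lit 16777217) (nat_lit 4198993) .nil),
   .two (nat_lit 47555018760) (nat_lit 83886123) (.two (nat_lit 2961178628) (nat_lit 184549663) (.two (nat_lit 16777219) (nat_lit 2894070529) (.two (nat_lit 620756993) (nat_lit 2920286375) (.two (nat_lit 8388608) (nat_lit 158075981740) (.one (nat_lit 1224742250) .nil))))),
   .two (nat_lit 19599982600) (nat_lit 10436476972) (.two (nat_lit 28757196804) (nat_lit 10338960109) (.two (nat_lit 9765388289) (nat_lit 28760344095) (.two (nat_lit 1048576) (nat_lit 3560967977) (.one (nat_lit 4200412) .nil)))),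
   .two (nat_lit 742391816) (nat_lit 721420467) (.two (nat_lit 11546918915) (nat_lit 19042140958) (.two (nat_lit 37748737) (nat_lit 807405714) (.two (nat_lit 16777216) (nat_lit 10540288500) (.one (nat_lit 2103261) .nil)))),
   .two (nat_lit 117440520) (nat_lit 166229705044) (.two (nat_lit 806354947) (nat_lit 3036676820) (.two (nat_lit 8388609) (nat_lit 10336865514) (.one (nat_lit 2102689) .nil))),
   .two (nat_lit 156372041736) (nat_lit 166130090040) (.two (nat_lit 1847590916) (nat_lit 4598006253) (.two (nat_lit 3531603971) (nat_lit 2098369) (.two (nat_lit 9765388289) (nat_lit 639632933) (.two (nat_lit 1048576) (nat_lit 2101225) (.one (nat_lit 3557823893) .nil))))),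
   .two (nat_lit 157038936072) (nat_lit 10907287595) (.two (nat_lit 10907287558) (nat_lit 159253528869) (.two (nat_lit 18926796803) (nat_lit 9802088887) (.two (nat_lit 2097153) (nat_lit 9869199873) (.one (nat_lit 708842076) .nil)))),
   .two (nat_lit 46978301960) (nat_lit 158143086630) (.two (nat_lit 158077026308) (nat_lit 68158168) (.two (nat_lit 4194305) (nat_lit 202377359) (.two (nat_lit 4194304) (nat_lit 2100605) (.one (nat_lit 843060256) .nil)))),
   .two (nat_lit 11479810056) (nat_lit 276824127) (.two (nat_lit 1277165572) (nat_lit 10343154003) (.two (nat_lit 9934209027) (nat_lit 185027527381) (.two (nat_lit 37748737) (nat_lit 9772729918) (.two (nat_lit 1048576) (nat_lit 10338964609) .nil)))),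
   .two (nat_lit 272629768) (nat_lit 158083317786) (.two (nat_lit 4194308) (nat_lit 20644364467) (.two (nat_lit 4194306) (nat_lit 19545457413) (.two (nat_lit 16777217) (nat_lit 239076907) (.two (nat_lit 8388608) (nat_lit 739249983) (.one (nat_lit 1054123) .nil))))),
   .two (nat_lit 2954887176) (nat_lit 641728575) (.two (nat_lit 11543773188) (nat_lit 184987681541) (.two (nat_lit 2097153) (nat_lit 20740834876) (.two (nat_lit 1048576) (nat_lit 4198383) (.one (nat_lit 4200414) .nil)))),
   .two (nat_lit 9934209032) (nat_lit 183845781601) (.two (nat_lit 11476664324) (nat_lit 11580473724) (.two (nat_lit 4605345795) (nat_lit 156466414287) (.two (nat_lit 2097153) (nat_lit 336595618) (.two (nat_lit 2097152) (nat_lit 174692765010) (.one (nat_lit 4200415) .nil))))),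
   .two (nat_lit 50331656) (nat_lit 1216348483) (.two (nat_lit 8388610) (nat_lit 11492393663) (.two (nat_lit 41943041) (nat_lit 9899608323) (.two (nat_lit 1048576) (nat_lit 12054433751) (.one (nat_lit 8394720) .nil)))),
   .two (nat_lit 37748744) (nat_lit 4605345818) (.two (nat_lit 809500676) (nat_lit 2317353701) (.two (nat_lit 4194305) (nat_lit 21214792180) (.one (nat_lit 8394721) .nil))),
   .two (nat_lit 9866051592) (nat_lit 12054429737) (.two (nat_lit 184993972228) (nat_lit 1947205912) (.two (nat_lit 1343225859) (nat_lit 11618222519) (.two (nat_lit 605028353) (nat_lit 880804657) (.two (nat_lit 1048576) (nat_lit 310381812) (.one (nat_lit 8394722) .nil))))),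
   .two (nat_lit 272629768) (nat_lit 16777259) (.two (nat_lit 16777222) (nat_lit 809500740) (.two (nat_lit 16777219) (nat_lit 10942939850) (.two (nat_lit 16777217) (nat_lit 10540287544) (.two (nat_lit 2097152) (nat_lit 46489670802) .nil)))),
   .two (nat_lit 2889875465) (nat_lit 1847590953) (.two (nat_lit 156533522437) (nat_lit 3460301140) (.two (nat_lit 171966467) (nat_lit 11618222519) (.two (nat_lit 605028353) (nat_lit 158177692965) (.one (nat_lit 2102706) .nil)))),
   .two (nat_lit 21785214984) (nat_lit 28790751275) (.two (nat_lit 2954887174) (nat_lit 159224168836) (.two (nat_lit 270532611) (nat_lit 159224168887) (.two (nat_lit 2097153) (nat_lit 46984596807) (.one (nat_lit 158176646193) .nil)))),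
   .two (nat_lit 4194312) (nat_lit 2902458410) (.two (nat_lit 9781116932) (nat_lit 4598006053) (.two (nat_lit 4194306) (nat_lit 185035915988) (.two (nat_lit 37748737) (nat_lit 1392513001) (.one (nat_lit 16782771) .nil)))),
   .two (nat_lit 2902458376) (nat_lit 19027460468) (.two (nat_lit 218103811) (nat_lit 1176503005) (.two (nat_lit 16777217) (nat_lit 2921335005) (.two (nat_lit 2097152) (nat_lit 185035918587) (.one (nat_lit 16783332) .nil)))),
   .two (nat_lit 47555018760) (nat_lit 174753579052) (.two (nat_lit 166130089988) (nat_lit 19100860599) (.two (nat_lit 174753579011) (nat_lit 159224168888) (.two (nat_lit 156365750273) (nat_lit 159224170006) (.two (nat_lit 2097152) (nat_lit 8392692) (.one (nat_lit 8394725) .nil))))),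
   .two (nat_lit 285212680) (nat_lit 156567076923) (.two (nat_lit 654311428) (nat_lit 102760758) (.two (nat_lit 270532611) (nat_lit 3003122416) (.two (nat_lit 34603009) (nat_lit 9766438439) (.two (nat_lit 2097152) (nat_lit 16782072) (.one (nat_lit 1410339931) .nil))))),
   .two (nat_lit 11479810056) (nat_lit 1753219108) (.two (nat_lit 11479810052) (nat_lit 9974055267) (.two (nat_lit 809500675) (nat_lit 9906946822) (.two (nat_lit 37748737) (nat_lit 184993973780) (.two (nat_lit 1048576) (nat_lit 21814578475) (.one (nat_lit 4199860) .nil))))),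
   .two (nat_lit 28690087944) (nat_lit 46510637099) (.two (nat_lit 11479810054) (nat_lit 165525062021) (.two (nat_lit 708837379) (nat_lit 10436477367) (.two (nat_lit 37748737) (nat_lit 873466360) (.one (nat_lit 1054134) .nil)))),
   .two (nat_lit 28758245384) (nat_lit 10503585974) (.two (nat_lit 1277165570) (nat_lit 19093521585) (.two (nat_lit 605028353) (nat_lit 9799993575) (.two (nat_lit 1048576) (nat_lit 2101237) (.one (nat_lit 1054694) .nil)))),
   .two (nat_lit 176160776) (nat_lit 4194360) (.two (nat_lit 813694980) (nat_lit 10506731788) (.two (nat_lit 708837379) (nat_lit 37320917778) (.two (nat_lit 4194305) (nat_lit 10007611541) (.two (nat_lit 2097152) (nat_lit 4199127) (.one (nat_lit 4199864) .nil))))),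
   .two (nat_lit 306184201) (nat_lit 28757196854) (.two (nat_lit 2887778308) (nat_lit 3527410035) (.two (nat_lit 12114198531) (nat_lit 10351543431) (.two (nat_lit 34603009) (nat_lit 2099472) (.two (nat_lit 1048576) (nat_lit 16782073) (.one (nat_lit 1054137) .nil))))),
   .two (nat_lit 2902458376) (nat_lit 3558866969) (.two (nat_lit 285212676) (nat_lit 706740575) (.two (nat_lit 218103811) (nat_lit 37247517411) (.two (nat_lit 16777217) (nat_lit 1277167140) (.two (nat_lit 2097152) (nat_lit 1962938273) (.one (nat_lit 159266116099) .nil))))),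
   .two (nat_lit 176160776) (nat_lit 1410334765) (.two (nat_lit 104857604) (nat_lit 10335813988) (.two (nat_lit 10503585795) (nat_lit 10540286719) (.two (nat_lit 16777217) (nat_lit 156968684827) (.one (nat_lit 8394727) .nil)))),
   .two (nat_lit 9934209032) (nat_lit 159253528952) (.two (nat_lit 2097155) (nat_lit 156569174455) (.two (nat_lit 2097153) (nat_lit 28089256440) (.one (nat_lit 2319454694) .nil))),
   .two (nat_lit 75497480) (nat_lit 706740286) (.two (nat_lit 75497476) (nat_lit 673186128) (.two (nat_lit 612368387) (nat_lit 2098374) (.two (nat_lit 41943041) (nat_lit 184417257739) (.two (nat_lit 1048576) (nat_lit 3565162342) (.one (nat_lit 8394728) .nil))))),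
   .two (nat_lit 822083592) (nat_lit 184986632248) (.two (nat_lit 9881780228) (nat_lit 69206317) (.two (nat_lit 3525312515) (nat_lit 37246468845) (.two (nat_lit 2097153) (nat_lit 605029925) (.two (nat_lit 1048576) (nat_lit 1411387340) (.one (nat_lit 1344279681) .nil))))),
   .two (nat_lit 4194312) (nat_lit 158647451996) (.two (nat_lit 605028355) (nat_lit 156567078458) (.two (nat_lit 1048576) (nat_lit 13222546684) (.one (nat_lit 2103273) .nil))),
   .two (nat_lit 21785214984) (nat_lit 12147752999) (.two (nat_lit 3525312516) (nat_lit 183953785132) (.two (nat_lit 13187940355) (nat_lit 157043131082) (.two (nat_lit 156364701697) (nat_lit 12048139824) (.two (nat_lit 2097152) (nat_lit 4605351045) .nil)))),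
   .two (nat_lit 169869320) (nat_lit 11559501863) (.two (nat_lit 9934209028) (nat_lit 10015998271) (.two (nat_lit 16777218) (nat_lit 21778924264) (.two (nat_lit 34603009) (nat_lit 4028632869) (.one (nat_lit 1054698) .nil)))),
   .two (nat_lit 739246088) (nat_lit 142606374) (.two (nat_lit 739246084) (nat_lit 2894070094) (.two (nat_lit 10947133443) (nat_lit 183946445985) (.two (nat_lit 9781116929) (nat_lit 9873393811) (.two (nat_lit 16777216) (nat_lit 235932164) (.one (nat_lit 1054145) .nil))))),
   .two (nat_lit 9948889096) (nat_lit 12047089771) (.two (nat_lit 9881780228) (nat_lit 10369368376) (.two (nat_lit 270532611) (nat_lit 2969568787) (.two (nat_lit 2097152) (nat_lit 16781302) (.one (nat_lit 1054699) .nil)))),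
   .two (nat_lit 4605345800) (nat_lit 4634705945) (.two (nat_lit 46414168068) (nat_lit 183949590861) (.two (nat_lit 13195280387) (nat_lit 1309672168) (.two (nat_lit 156367847425) (nat_lit 1050897) (.two (nat_lit 1048576) (nat_lit 8392695) (.one (nat_lit 8394732) .nil))))),
   .two (nat_lit 184416206857) (nat_lit 1212153894) (.two (nat_lit 37748740) (nat_lit 156380430827) (.two (nat_lit 3472883715) (nat_lit 4028630182) (.two (nat_lit 2097153) (nat_lit 1051298) (.two (nat_lit 2097152) (nat_lit 19042143570) (.one (nat_lit 16783341) .nil))))),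
   .two (nat_lit 2961178632) (nat_lit 183848927285) (.two (nat_lit 1779433476) (nat_lit 840958137) (.two (nat_lit 1276116994) (nat_lit 20711474342) (.two (nat_lit 4194305) (nat_lit 4599055925) (.two (nat_lit 1048576) (nat_lit 1847594750) (.one (nat_lit 1054146) .nil))))),
   .two (nat_lit 101711880) (nat_lit 46409973787) (.two (nat_lit 101711876) (nat_lit 37316723429) (.two (nat_lit 16777217) (nat_lit 158649551348) (.one (nat_lit 166232855023) .nil))),
   .two (nat_lit 157036838920) (nat_lit 83886170) (.two (nat_lit 705691652) (nat_lit 47596962261) (.two (nat_lit 4601151491) (nat_lit 638583502) (.two (nat_lit 605028353) (nat_lit 16779538) (.two (nat_lit 2097152) (nat_lit 156569179221) .nil)))),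
   .two (nat_lit 156372041736) (nat_lit 28086108204) (.two (nat_lit 1753219077) (nat_lit 638583091) (.two (nat_lit 18933088259) (nat_lit 10369369230) (.two (nat_lit 2097153) (nat_lit 873467117) (.one (nat_lit 1343231291) .nil)))),
   .two (nat_lit 4194312) (nat_lit 343932971) (.two (nat_lit 4194308) (nat_lit 176161236) (.two (nat_lit 1178599427) (nat_lit 1049800) (.two (nat_lit 8388609) (nat_lit 4197095) (.two (nat_lit 8388608) (nat_lit 1052664) (.one (nat_lit 19537073514) .nil))))),
   .two (nat_lit 47555018760) (nat_lit 1377829172) (.two (nat_lit 176160770) (nat_lit 203424517) (.two (nat_lit 606076929) (nat_lit 156372044273) (.one (nat_lit 8394180) .nil))),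
   .two (nat_lit 2961178632) (nat_lit 4632608834) (.two (nat_lit 2961178628) (nat_lit 10372514130) (.two (nat_lit 2097155) (nat_lit 1379926457) (.two (nat_lit 2097153) (nat_lit 9798944304) (.two (nat_lit 2097152) (nat_lit 1052665) (.one (nat_lit 1054702) .nil))))),
   .two (nat_lit 11543773192) (nat_lit 12150898753) (.two (nat_lit 184419352580) (nat_lit 183845781685) (.two (nat_lit 10506731523) (nat_lit 28690089139) (.two (nat_lit 34603009) (nat_lit 4196627) (.two (nat_lit 1048576) (nat_lit 4198394) (.one (nat_lit 1054151) .nil))))),
   .two (nat_lit 75497480) (nat_lit 1344274487) (.two (nat_lit 20638072836) (nat_lit 847250155) (.two (nat_lit 50331649) (nat_lit 159251434858) (.one (nat_lit 2103279) .nil))),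
   .two (nat_lit 159217877000) (nat_lit 272630146) (.two (nat_lit 2097155) (nat_lit 46510637496) (.two (nat_lit 2097153) (nat_lit 3460304190) (.one (nat_lit 1054705) .nil))),
   .two (nat_lit 9934209032) (nat_lit 37316722986) (.two (nat_lit 169869314) (nat_lit 10506731959) (.two (nat_lit 2097153) (nat_lit 165528209912) (.one (nat_lit 10909389286) .nil))),
   .two (nat_lit 9934209032) (nat_lit 839909422) (.two (nat_lit 20738736134) (nat_lit 185020187000) (.two (nat_lit 1277165571) (nat_lit 1049801) (.two (nat_lit 606076929) (nat_lit 11610884285) (.two (nat_lit 2097152) (nat_lit 1052669) (.one (nat_lit 10369373317) .nil))))),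
   .two (nat_lit 46414168072) (nat_lit 28757196851) (.two (nat_lit 705691652) (nat_lit 2994733375) (.two (nat_lit 1283457027) (nat_lit 806355749) (.two (nat_lit 4194305) (nat_lit 1050900) (.two (nat_lit 2097152) (nat_lit 28793902237) .nil)))),
   .two (nat_lit 2887778312) (nat_lit 2923430157) (.two (nat_lit 11476664322) (nat_lit 1310720744) (.two (nat_lit 9765388289) (nat_lit 156535622345) (.two (nat_lit 1048576) (nat_lit 2887782346) (.one (nat_lit 4199882) .nil)))),
   .two (nat_lit 813694984) (nat_lit 9781117209) (.two (nat_lit 721420291) (nat_lit 10947135026) (.two (nat_lit 16777216) (nat_lit 1746931015) (.one (nat_lit 11525952914) .nil))),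
   .two (nat_lit 12129927178) (nat_lit 165528207668) (.two (nat_lit 11492392962) (nat_lit 47584380097) (.two (nat_lit 9781116929) (nat_lit 4197096) (.two (nat_lit 4194304) (nat_lit 9948893879) (.one (nat_lit 174688571905) .nil)))),
   .two (nat_lit 16777224) (nat_lit 28093448235) (.two (nat_lit 11584667654) (nat_lit 2969567510) (.two (nat_lit 713031683) (nat_lit 9948889906) (.two (nat_lit 2097152) (nat_lit 156481096963) (.one (nat_lit 2103283) .nil)))),
   .two (nat_lit 47555018760) (nat_lit 855638075) (.two (nat_lit 21785214980) (nat_lit 13187940844) (.two (nat_lit 721420291) (nat_lit 156372042425) (.two (nat_lit 16777217) (nat_lit 3028289765) (.two (nat_lit 1048576) (nat_lit 8392703) (.one (nat_lit 1054708) .nil))))),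
   .two (nat_lit 1358954504) (nat_lit 19529728063) (.two (nat_lit 37313576966) (nat_lit 1795162448) (.two (nat_lit 3531603971) (nat_lit 620757809) (.two (nat_lit 1048576) (nat_lit 10519317005) (.one (nat_lit 16783349) .nil)))),
   .two (nat_lit 11479810056) (nat_lit 1283457084) (.two (nat_lit 117440518) (nat_lit 1178599863) (.two (nat_lit 620756993) (nat_lit 1312819716) (.one (nat_lit 4199884) .nil))),
   .two (nat_lit 9866051592) (nat_lit 10510925878) (.two (nat_lit 4194308) (nat_lit 11618222350) (.two (nat_lit 4605345795) (nat_lit 10909385414) (.two (nat_lit 9765388289) (nat_lit 10909386275) (.two (nat_lit 1048576) (nat_lit 775950073) (.one (nat_lit 1054157) .nil))))),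
   .two (nat_lit 75497480) (nat_lit 37246468137) (.two (nat_lit 1745879044) (nat_lit 20644365847) (.two (nat_lit 1048576) (nat_lit 1786776806) (.one (nat_lit 8394190) .nil))),
   .two (nat_lit 203423752) (nat_lit 19599982637) (.two (nat_lit 1212153862) (nat_lit 21812478247) (.two (nat_lit 3527409667) (nat_lit 10001318613) (.two (nat_lit 156367847425) (nat_lit 184986635498) (.one (nat_lit 1054159) .nil)))),
   .two (nat_lit 721420296) (nat_lit 156372041798) (.two (nat_lit 165532401668) (nat_lit 166144770767) (.two (nat_lit 612368385) (nat_lit 2365592095) .nil)),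
   .two (nat_lit 169869320) (nat_lit 184993972251) (.two (nat_lit 21777874948) (nat_lit 183953785013) (.two (nat_lit 158075977731) (nat_lit 12048138967) (.two (nat_lit 34603009) (nat_lit 157036842854) (.one (nat_lit 2103287) .nil)))),
   .two (nat_lit 46407876616) (nat_lit 3003122016) (.two (nat_lit 4599054339) (nat_lit 10385097409) (.two (nat_lit 612368385) (nat_lit 185020189372) (.two (nat_lit 8388608) (nat_lit 1052679) (.one (nat_lit 1054712) .nil)))),
   .two (nat_lit 612368392) (nat_lit 11610882084) (.two (nat_lit 612368388) (nat_lit 28087157108) (.two (nat_lit 612368387) (nat_lit 20705182853) (.two (nat_lit 41943041) (nat_lit 156365752488) (.two (nat_lit 8388608) (nat_lit 2101256) (.one (nat_lit 2102748) .nil))))),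
   .two (nat_lit 117440520) (nat_lit 9899606041) (.two (nat_lit 158075977732) (nat_lit 1962934596) (.two (nat_lit 1343225859) (nat_lit 2969567933) (.two (nat_lit 605028353) (nat_lit 285214910) (.two (nat_lit 2097152) (nat_lit 638586081) (.one (nat_lit 16783353) .nil))))),
   .two (nat_lit 156367847432) (nat_lit 3525312536) (.two (nat_lit 157038936068) (nat_lit 9867100874) (.two (nat_lit 4194305) (nat_lit 639634752) (.one (nat_lit 2103290) .nil))),
   .two (nat_lit 2961178632) (nat_lit 158647451743) (.two (nat_lit 11476664324) (nat_lit 28093448372) (.two (nat_lit 34603011) (nat_lit 1753219769) (.two (nat_lit 2097153) (nat_lit 11543775451) (.two (nat_lit 2097152) (nat_lit 1052683) (.one (nat_lit 2103291) .nil))))),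
   .two (nat_lit 16777224) (nat_lit 157043130431) (.two (nat_lit 1745879044) (nat_lit 3003121848) (.two (nat_lit 9765388291) (nat_lit 19042141741) (.two (nat_lit 8388608) (nat_lit 1291848974) (.one (nat_lit 16783356) .nil)))),
   .two (nat_lit 47555018760) (nat_lit 10538188870) (.two (nat_lit 166130089988) (nat_lit 159224168627) (.two (nat_lit 10504634371) (nat_lit 343934108) (.two (nat_lit 9766436865) (nat_lit 243271860) (.two (nat_lit 2097152) (nat_lit 8392072) (.one (nat_lit 880808522) .nil))))),
   .two (nat_lit 46978301960) (nat_lit 20644364727) (.two (nat_lit 2097153) (nat_lit 19134416413) (.two (nat_lit 2097152) (nat_lit 209719789) .nil)),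
   .two (nat_lit 47548727304) (nat_lit 9906946129) (.two (nat_lit 4605345797) (nat_lit 9967763524) (.two (nat_lit 8388611) (nat_lit 10907288370) (.two (nat_lit 8388608) (nat_lit 184417257990) (.one (nat_lit 2103293) .nil)))),
   .two (nat_lit 75497480) (nat_lit 21777875012) (.two (nat_lit 612368387) (nat_lit 159250383596) (.two (nat_lit 34603009) (nat_lit 1950353597) (.two (nat_lit 8388608) (nat_lit 1053436) (.one (nat_lit 1054718) .nil)))),
   .two (nat_lit 1358954504) (nat_lit 2923429946) (.two (nat_lit 50331652) (nat_lit 641728857) (.two (nat_lit 16777218) (nat_lit 184989778681) (.two (nat_lit 605028353) (nat_lit 4043311279) (.two (nat_lit 8388608) (nat_lit 12617520293) .nil)))),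
   .two (nat_lit 620757000) (nat_lit 138412080) (.two (nat_lit 9948889092) (nat_lit 158146232761) (.two (nat_lit 16777217) (nat_lit 37316725256) (.one (nat_lit 19029562660) .nil))),
   .two (nat_lit 754974728) (nat_lit 2097261) (.two (nat_lit 2954887172) (nat_lit 117440952) (.two (nat_lit 2097153) (nat_lit 174701151804) (.two (nat_lit 2097152) (nat_lit 37329309638) (.one (nat_lit 2102754) .nil)))),
   .two (nat_lit 4601151496) (nat_lit 12054429721) (.two (nat_lit 12054429700) (nat_lit 9802089142) (.two (nat_lit 8388609) (nat_lit 9802090003) (.two (nat_lit 8388608) (nat_lit 4198413) (.one (nat_lit 4200447) .nil)))),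
   .two (nat_lit 156372041736) (nat_lit 19130220587) (.two (nat_lit 272629766) (nat_lit 1753219350) (.two (nat_lit 272629763) (nat_lit 12054430136) (.two (nat_lit 4194305) (nat_lit 12054430514) (.two (nat_lit 1048576) (nat_lit 8392075) (.one (nat_lit 4200448) .nil))))),
   .two (nat_lit 8388616) (nat_lit 2954887234) (.two (nat_lit 8388612) (nat_lit 19142803927) (.two (nat_lit 16777218) (nat_lit 880804280) (.two (nat_lit 16777217) (nat_lit 2894073193) (.one (nat_lit 8394753) .nil)))),
   .two (nat_lit 50331656) (nat_lit 746586459) (.two (nat_lit 8388610) (nat_lit 50332348) (.two (nat_lit 8388609) (nat_lit 2099948) (.two (nat_lit 2097152) (nat_lit 847253405) (.one (nat_lit 8394754) .nil)))),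
   .two (nat_lit 8388616) (nat_lit 270532655) (.two (nat_lit 41943044) (nat_lit 10909385447) (.two (nat_lit 4194305) (nat_lit 19597887021) (.two (nat_lit 2097152) (nat_lit 4198415) (.one (nat_lit 4200451) .nil)))),
   .two (nat_lit 809500680) (nat_lit 1182793782) (.two (nat_lit 809500676) (nat_lit 9940500952) (.two (nat_lit 4605345795) (nat_lit 306186514) (.two (nat_lit 4194304) (nat_lit 8393469) (.one (nat_lit 8394756) .nil)))),
   .two (nat_lit 8388616) (nat_lit 117440583) (.two (nat_lit 11492392966) (nat_lit 10007610038) (.two (nat_lit 16777217) (nat_lit 10376712735) .nil)),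
   .two (nat_lit 41943048) (nat_lit 135266363) (.two (nat_lit 11543773188) (nat_lit 1283457321) (.two (nat_lit 2902458370) (nat_lit 46984594130) (.two (nat_lit 16777217) (nat_lit 13187941925) (.two (nat_lit 16777216) (nat_lit 68161489) (.one (nat_lit 46422561274) .nil))))),
   .two (nat_lit 11479810056) (nat_lit 12047090154) (.two (nat_lit 11479810050) (nat_lit 37246470356) (.two (nat_lit 1048576) (nat_lit 4199166) (.one (nat_lit 1054725) .nil))),
   .two (nat_lit 1358954504) (nat_lit 46980399162) (.two (nat_lit 20637024260) (nat_lit 10351542606) (.two (nat_lit 21207449603) (nat_lit 10540286671) (.two (nat_lit 606076929) (nat_lit 166232852753) (.two (nat_lit 2097152) (nat_lit 1053439) (.one (nat_lit 1054726) .nil))))),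
   .two (nat_lit 37748744) (nat_lit 1358955198) (.two (nat_lit 4194305) (nat_lit 19128124980) (.two (nat_lit 4194304) (nat_lit 2101265) (.one (nat_lit 2102757) .nil))),
   .two (nat_lit 11559501832) (nat_lit 135266343) (.two (nat_lit 3539992580) (nat_lit 11544822515) (.two (nat_lit 9766436865) (nat_lit 9798946154) (.one (nat_lit 19093525665) .nil))),
   .two (nat_lit 620757000) (nat_lit 20644364331) (.two (nat_lit 2902458374) (nat_lit 2990539090) (.two (nat_lit 721420291) (nat_lit 4601152212) (.two (nat_lit 8388609) (nat_lit 158079126789) (.one (nat_lit 16782822) .nil)))),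
   .two (nat_lit 37748744) (nat_lit 620757030) (.two (nat_lit 809500676) (nat_lit 21223178962) (.two (nat_lit 16777217) (nat_lit 174753583063) (.one (nat_lit 20652758218) .nil))),
   .two (nat_lit 47563407368) (nat_lit 28758245403) (.two (nat_lit 21207449604) (nat_lit 158647451828) (.two (nat_lit 158143086595) (nat_lit 1862271719) (.two (nat_lit 605028353) (nat_lit 4632611027) (.two (nat_lit 1048576) (nat_lit 16782080) (.one (nat_lit 16783367) .nil))))),
   .two (nat_lit 9781116936) (nat_lit 2923429929) (.two (nat_lit 272629764) (nat_lit 156380431940) (.two (nat_lit 4194304) (nat_lit 1392514270) .nil)),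
   .two (nat_lit 176160776) (nat_lit 28705816886) (.two (nat_lit 8388611) (nat_lit 754975907) (.two (nat_lit 16777217) (nat_lit 847251651) (.two (nat_lit 1048576) (nat_lit 9814674747) (.one (nat_lit 1054184) .nil)))),
   .two (nat_lit 19599982600) (nat_lit 269484129) (.two (nat_lit 272629764) (nat_lit 13237223893) (.two (nat_lit 21777874947) (nat_lit 10519315145) (.two (nat_lit 4194305) (nat_lit 721422610) (.two (nat_lit 1048576) (nat_lit 16781331) (.one (nat_lit 28790756437) .nil))))),
   .two (nat_lit 46414168072) (nat_lit 47582281767) (.two (nat_lit 3464495108) (nat_lit 1914701345) (.two (nat_lit 8388608) (nat_lit 10336865560) (.one (nat_lit 2101885) .nil))),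
   .two (nat_lit 12054429704) (nat_lit 3557818697) (.two (nat_lit 28757196803) (nat_lit 183853121975) (.two (nat_lit 156364701697) (nat_lit 13195281201) (.two (nat_lit 1048576) (nat_lit 8391924) (.one (nat_lit 1054728) .nil)))),
   .two (nat_lit 10504634376) (nat_lit 16777275) (.two (nat_lit 159217876996) (nat_lit 9899606309) (.two (nat_lit 721420291) (nat_lit 47581233895) (.two (nat_lit 16777217) (nat_lit 10537141797) (.two (nat_lit 16777216) (nat_lit 1052692) (.one (nat_lit 285218616) .nil))))),
   .two (nat_lit 2969567240) (nat_lit 1210056761) (.two (nat_lit 742391812) (nat_lit 46992982792) (.two (nat_lit 9768534017) (nat_lit 2887779888) (.two (nat_lit 1048576) (nat_lit 159217880337) (.one (nat_lit 2103306) .nil)))),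
   .two (nat_lit 739246088) (nat_lit 185027526745) (.two (nat_lit 12054429700) (nat_lit 11006902458) (.two (nat_lit 10506731523) (nat_lit 46406828775) (.two (nat_lit 34603009) (nat_lit 176163049) (.two (nat_lit 4194304) (nat_lit 235932164) (.one (nat_lit 1054185) .nil))))),
   .two (nat_lit 50331656) (nat_lit 183853121815) (.two (nat_lit 8388610) (nat_lit 11492393663) (.two (nat_lit 8388609) (nat_lit 158091708641) (.two (nat_lit 4194304) (nat_lit 12054435206) .nil))),
   .two (nat_lit 2902458376) (nat_lit 2988441639) (.two (nat_lit 9781116932) (nat_lit 2887778485) (.two (nat_lit 83886083) (nat_lit 9900655300) (.two (nat_lit 16777217) (nat_lit 2099480) (.two (nat_lit 16777216) (nat_lit 2101269) (.one (nat_lit 2103307) .nil))))),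
   .two (nat_lit 721420296) (nat_lit 28757196827) (.two (nat_lit 18928893956) (nat_lit 165525062109) (.two (nat_lit 9768534019) (nat_lit 620757810) (.two (nat_lit 1048576) (nat_lit 16781334) (.one (nat_lit 16783372) .nil)))),
   .two (nat_lit 156367847432) (nat_lit 19100860717) (.two (nat_lit 46409973762) (nat_lit 2894070934) (.two (nat_lit 4194305) (nat_lit 4605349225) (.one (nat_lit 608179512) .nil))),
   .two (nat_lit 1178599432) (nat_lit 10907287629) (.two (nat_lit 184416206852) (nat_lit 1312817334) (.two (nat_lit 9768534019) (nat_lit 159251432126) (.two (nat_lit 37748737) (nat_lit 2418017837) (.two (nat_lit 1048576) (nat_lit 9936309470) (.one (nat_lit 4199916) .nil))))),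
   .two (nat_lit 50331656) (nat_lit 176161569) (.two (nat_lit 8388609) (nat_lit 687868422) (.one (nat_lit 16783376) .nil)),
   .two (nat_lit 28693233672) (nat_lit 158077027036) (.two (nat_lit 9768534017) (nat_lit 174759872697) (.two (nat_lit 4194304) (nat_lit 8392728) (.one (nat_lit 8394769) .nil))),
   .two (nat_lit 9934209032) (nat_lit 1786773552) (.two (nat_lit 159217876996) (nat_lit 46514832158) (.two (nat_lit 2097153) (nat_lit 780143917) (.one (nat_lit 158083323129) .nil))),
   .two (nat_lit 8388616) (nat_lit 158647451674) (.two (nat_lit 8388612) (nat_lit 10001318069) (.two (nat_lit 4601151491) (nat_lit 1277166305) (.two (nat_lit 156367847425) (nat_lit 2350910844) (.one (nat_lit 4200466) .nil)))),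
   .two (nat_lit 721420296) (nat_lit 339738677) (.two (nat_lit 272629764) (nat_lit 16777396) (.two (nat_lit 4194306) (nat_lit 16778896) (.two (nat_lit 50331649) (nat_lit 19532876020) (.two (nat_lit 4194304) (nat_lit 16782082) (.one (nat_lit 156380435596) .nil))))),
   .two (nat_lit 713031688) (nat_lit 37316722873) (.two (nat_lit 713031682) (nat_lit 4195985) (.two (nat_lit 4194305) (nat_lit 176163008) (.two (nat_lit 8388608) (nat_lit 11479814014) (.one (nat_lit 10443821512) .nil)))),
   .two (nat_lit 169869320) (nat_lit 157051519305) (.two (nat_lit 1746927619) (nat_lit 2316305082) (.two (nat_lit 605028353) (nat_lit 20753418502) (.two (nat_lit 1048576) (nat_lit 3036680200) (.one (nat_lit 165540796184) .nil)))),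
   .two (nat_lit 50331656) (nat_lit 165532401708) (.two (nat_lit 10336862212) (nat_lit 10544480549) (.two (nat_lit 4605345795) (nat_lit 19612566645) (.two (nat_lit 2097153) (nat_lit 16780013) (.two (nat_lit 2097152) (nat_lit 16781338) (.one (nat_lit 2103315) .nil))))),
   .two (nat_lit 21785214984) (nat_lit 12114198566) (.two (nat_lit 11476664324) (nat_lit 4034920632) (.two (nat_lit 806354947) (nat_lit 8390290) (.two (nat_lit 156364701697) (nat_lit 47588575435) (.two (nat_lit 4194304) (nat_lit 1052699) (.one (nat_lit 2103316) .nil))))),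
   .two (nat_lit 721420296) (nat_lit 9974054955) (.two (nat_lit 11492392964) (nat_lit 11614028110) (.two (nat_lit 10372513795) (nat_lit 11559503020) (.two (nat_lit 612368385) (nat_lit 272633127) (.one (nat_lit 4200469) .nil)))),
   .two (nat_lit 46414168072) (nat_lit 158144135195) (.two (nat_lit 46414168068) (nat_lit 46508540088) (.two (nat_lit 1746927619) (nat_lit 780141695) (.two (nat_lit 606076929) (nat_lit 156380433074) (.two (nat_lit 8388608) (nat_lit 19612569511) (.one (nat_lit 16783382) .nil))))),
   .two (nat_lit 37748744) (nat_lit 2357198948) (.two (nat_lit 37748740) (nat_lit 873464120) (.two (nat_lit 41943043) (nat_lit 10942939855) (.two (nat_lit 37748737) (nat_lit 174753581267) (.two (nat_lit 8388608) (nat_lit 4198428) (.one (nat_lit 4200471) .nil))))),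
   .two (nat_lit 28086108168) (nat_lit 1916796955) (.two (nat_lit 156968681476) (nat_lit 184419353278) (.two (nat_lit 9765388289) (nat_lit 4197891) (.two (nat_lit 1048576) (nat_lit 4199171) (.one (nat_lit 4200472) .nil)))),
   .two (nat_lit 713031688) (nat_lit 2987393128) (.two (nat_lit 21785214980) (nat_lit 185020186903) (.two (nat_lit 12047089667) (nat_lit 813697275) (.two (nat_lit 8388608) (nat_lit 1053444) (.one (nat_lit 1054745) .nil)))),
   .two (nat_lit 285212680) (nat_lit 28793897007) (.two (nat_lit 156367847428) (nat_lit 21223178951) (.two (nat_lit 4194305) (nat_lit 12062821652) (.one (nat_lit 16782837) .nil))),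
   .two (nat_lit 50331656) (nat_lit 9772728654) (.two (nat_lit 16777218) (nat_lit 28798092451) (.two (nat_lit 37748737) (nat_lit 10552871170) (.two (nat_lit 4194304) (nat_lit 185035919368) (.one (nat_lit 16783386) .nil)))),
   .two (nat_lit 612368392) (nat_lit 1779433523) (.two (nat_lit 184993972228) (nat_lit 4631560633) (.two (nat_lit 16777217) (nat_lit 9798945268) (.one (nat_lit 1054747) .nil))),
   .two (nat_lit 2889875464) (nat_lit 11022630966) (.two (nat_lit 28087156740) (nat_lit 13224640800) (.two (nat_lit 11559501827) (nat_lit 13224641217) (.two (nat_lit 50331649) (nat_lit 843056662) (.two (nat_lit 16777216) (nat_lit 4198429) (.one (nat_lit 2103324) .nil))))),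
   .two (nat_lit 285212680) (nat_lit 13224640553) (.two (nat_lit 11479810052) (nat_lit 174701150968) (.two (nat_lit 9768534017) (nat_lit 9915336870) (.two (nat_lit 4194304) (nat_lit 16781342) (.one (nat_lit 4200477) .nil)))),
   .two (nat_lit 16777224) (nat_lit 9900654638) (.two (nat_lit 16777220) (nat_lit 1317011948) (.two (nat_lit 8388610) (nat_lit 183928619793) (.two (nat_lit 41943041) (nat_lit 12633246387) (.two (nat_lit 2097152) (nat_lit 8392735) (.one (nat_lit 2103326) .nil))))),
   .two (nat_lit 13195280392) (nat_lit 28791799856) (.two (nat_lit 159217876996) (nat_lit 10947133750) (.two (nat_lit 3531603971) (nat_lit 18926799045) (.two (nat_lit 1048576) (nat_lit 156539817948) (.one (nat_lit 8394783) .nil)))),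
   .two (nat_lit 13203669000) (nat_lit 843055374) (.two (nat_lit 2954887171) (nat_lit 3003122401) (.two (nat_lit 2097153) (nat_lit 10372515369) (.two (nat_lit 2097152) (nat_lit 11546921470) (.one (nat_lit 4199928) .nil)))),
   .two (nat_lit 83886088) (nat_lit 2954887194) (.two (nat_lit 1291845636) (nat_lit 19597885622) (.two (nat_lit 21785214979) (nat_lit 47596962517) (.two (nat_lit 612368385) (nat_lit 12115249414) (.two (nat_lit 8388608) (nat_lit 16782085) (.one (nat_lit 16783392) .nil))))),
   .two (nat_lit 1178599432) (nat_lit 166130090011) (.two (nat_lit 1178599428) (nat_lit 11578376375) (.two (nat_lit 9768534019) (nat_lit 11477713659) (.two (nat_lit 2097153) (nat_lit 3460303058) (.two (nat_lit 8388608) (nat_lit 1178602805) (.one (nat_lit 4200481) .nil))))),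
   .two (nat_lit 809500680) (nat_lit 47555018790) (.two (nat_lit 37748740) (nat_lit 3028287928) (.two (nat_lit 4194305) (nat_lit 9906948348) (.two (nat_lit 2097152) (nat_lit 11014245759) (.one (nat_lit 8394786) .nil)))),
   .two (nat_lit 2889875464) (nat_lit 9766436917) (.two (nat_lit 2889875460) (nat_lit 21785215156) (.two (nat_lit 4601151491) (nat_lit 21785215670) (.two (nat_lit 2097153) (nat_lit 19537069623) (.two (nat_lit 2097152) (nat_lit 2319455471) .nil)))),
   .two (nat_lit 11492392968) (nat_lit 157038936103) (.two (nat_lit 46980399108) (nat_lit 1191182776) (.two (nat_lit 4194305) (nat_lit 1191183894) (.two (nat_lit 4194304) (nat_lit 20753420223) (.one (nat_lit 4200483) .nil)))),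
   .two (nat_lit 620757000) (nat_lit 1914699833) (.two (nat_lit 2969567236) (nat_lit 158144135347) (.two (nat_lit 218103811) (nat_lit 11479811191) (.two (nat_lit 16777217) (nat_lit 46477084225) (.two (nat_lit 2097152) (nat_lit 28101840837) (.one (nat_lit 28087162816) .nil))))),
   .two (nat_lit 37748744) (nat_lit 1291845658) (.two (nat_lit 9934209028) (nat_lit 18941477047) (.two (nat_lit 169869314) (nat_lit 20652753647) (.two (nat_lit 2097153) (nat_lit 159266115546) (.one (nat_lit 16783396) .nil)))),
   .two (nat_lit 813694984) (nat_lit 721420575) (.two (nat_lit 8388610) (nat_lit 46489666262) (.two (nat_lit 50331649) (nat_lit 2921335016) (.two (nat_lit 8388608) (nat_lit 16781346) (.one (nat_lit 16783397) .nil)))),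
   .two (nat_lit 285212680) (nat_lit 4030726200) (.two (nat_lit 156968681476) (nat_lit 21827158084) (.two (nat_lit 9933160451) (nat_lit 10519316034) (.two (nat_lit 4194304) (nat_lit 1291849098) (.one (nat_lit 4200486) .nil)))),
   .two (nat_lit 117440520) (nat_lit 68157790) (.two (nat_lit 8388611) (nat_lit 183861511725) (.two (nat_lit 1048576) (nat_lit 19109252368) (.one (nat_lit 1054759) .nil))),
   .two (nat_lit 4194312) (nat_lit 2902458394) (.two (nat_lit 272629764) (nat_lit 46523220147) (.two (nat_lit 2889875459) (nat_lit 873464971) (.two (nat_lit 37748737) (nat_lit 156481095205) (.two (nat_lit 4194304) (nat_lit 16781347) (.one (nat_lit 16783400) .nil))))),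
   .two (nat_lit 158144135176) (nat_lit 839909422) (.two (nat_lit 28757196804) (nat_lit 304087223) (.two (nat_lit 1276116994) (nat_lit 169870487) (.two (nat_lit 605028353) (nat_lit 165526114779) .nil))),
   .two (nat_lit 50331656) (nat_lit 156372041766) (.two (nat_lit 50331652) (nat_lit 8389112) (.two (nat_lit 8388610) (nat_lit 11492393663) (.two (nat_lit 9768534017) (nat_lit 12054433751) (.one (nat_lit 8394793) .nil)))),
   .two (nat_lit 37748744) (nat_lit 83886356) (.two (nat_lit 11492392963) (nat_lit 1312817947) (.two (nat_lit 2097153) (nat_lit 171968065) (.two (nat_lit 2097152) (nat_lit 4198436) (.one (nat_lit 10336867629) .nil)))),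
   .two (nat_lit 9768534024) (nat_lit 806355001) (.two (nat_lit 12114198532) (nat_lit 159219974537) (.two (nat_lit 156364701699) (nat_lit 4195987) (.two (nat_lit 4194305) (nat_lit 1052164) (.two (nat_lit 16777216) (nat_lit 2923434019) (.one (nat_lit 4200490) .nil))))),
   .two (nat_lit 41943048) (nat_lit 4601151512) (.two (nat_lit 13195280388) (nat_lit 843055172) (.two (nat_lit 8388610) (nat_lit 3460301990) (.two (nat_lit 8388609) (nat_lit 20640174077) (.one (nat_lit 4200491) .nil)))),
   .two (nat_lit 10343153672) (nat_lit 20638072872) (.two (nat_lit 10343153668) (nat_lit 47584379169) (.two (nat_lit 46414168066) (nat_lit 20707280412) (.two (nat_lit 8388608) (nat_lit 10909388099) (.one (nat_lit 46510642239) .nil)))),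
   .two (nat_lit 272629768) (nat_lit 35651632) (.two (nat_lit 46978301956) (nat_lit 12050235573) (.two (nat_lit 11479810051) (nat_lit 2098383) (.two (nat_lit 4194305) (nat_lit 2099950) (.two (nat_lit 2097152) (nat_lit 4198437) (.one (nat_lit 4200493) .nil))))),
   .two (nat_lit 16777224) (nat_lit 158144135207) (.two (nat_lit 16777220) (nat_lit 3558867444) (.two (nat_lit 16777218) (nat_lit 11611931840) (.two (nat_lit 41943041) (nat_lit 117442110) (.two (nat_lit 8388608) (nat_lit 46489670145) .nil)))),
   .two (nat_lit 184549384) (nat_lit 156567076929) (.two (nat_lit 2969567236) (nat_lit 11007950916) (.two (nat_lit 2887778306) (nat_lit 185002362434) (.two (nat_lit 16777216) (nat_lit 2102022) (.one (nat_lit 2102779) .nil)))),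
   .two (nat_lit 4194312) (nat_lit 822083652) (.two (nat_lit 4194306) (nat_lit 4043309813) (.two (nat_lit 156367847425) (nat_lit 739248267) (.two (nat_lit 4194304) (nat_lit 1053447) (.one (nat_lit 184986637494) .nil)))),
   .two (nat_lit 2889875464) (nat_lit 10385096743) (.two (nat_lit 1343225860) (nat_lit 1224737075) (.two (nat_lit 620756995) (nat_lit 11580474075) (.two (nat_lit 34603009) (nat_lit 1224740093) (.one (nat_lit 16783406) .nil)))),
   .two (nat_lit 21777874952) (nat_lit 183861510944) (.two (nat_lit 34603009) (nat_lit 4043311620) (.one (nat_lit 16781951) .nil)),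
   .two (nat_lit 41943048) (nat_lit 1291845659) (.two (nat_lit 41943044) (nat_lit 156481093921) (.two (nat_lit 8388610) (nat_lit 21827159214) (.two (nat_lit 34603009) (nat_lit 4605349911) (.one (nat_lit 8394799) .nil)))),
   .two (nat_lit 2961178632) (nat_lit 166230753321) (.two (nat_lit 184993972228) (nat_lit 9933160806) (.two (nat_lit 13187940355) (nat_lit 1920991986) (.two (nat_lit 2097153) (nat_lit 8390937) (.two (nat_lit 2097152) (nat_lit 159216831815) (.one (nat_lit 2103345) .nil))))),
   .two (nat_lit 1343225864) (nat_lit 20705181722) (.two (nat_lit 21207449604) (nat_lit 158144135347) (.two (nat_lit 28086108163) (nat_lit 304087838) (.two (nat_lit 156364701697) (nat_lit 9934211250) (.two (nat_lit 1048576) (nat_lit 2102025) (.one (nat_lit 1779438758) .nil))))),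
   .two (nat_lit 2902458376) (nat_lit 166132187161) (.two (nat_lit 1178599428) (nat_lit 2969567300) (.two (nat_lit 11479810050) (nat_lit 12062819016) (.two (nat_lit 37748737) (nat_lit 183962175012) (.two (nat_lit 4194304) (nat_lit 16781352) (.one (nat_lit 4200498) .nil))))),
   .two (nat_lit 16777224) (nat_lit 46414168103) (.two (nat_lit 16777220) (nat_lit 209715703) (.two (nat_lit 176160770) (nat_lit 37329306312) (.two (nat_lit 34603009) (nat_lit 19134418829) (.one (nat_lit 8394803) .nil)))),
   .two (nat_lit 11479810056) (nat_lit 4034920490) (.two (nat_lit 218103812) (nat_lit 1178599863) (.two (nat_lit 16777217) (nat_lit 1916799488) (.one (nat_lit 4200500) .nil))),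
   .two (nat_lit 9781116936) (nat_lit 2923429914) (.two (nat_lit 46409973764) (nat_lit 19142803780) (.two (nat_lit 4601151491) (nat_lit 285213375) (.two (nat_lit 4194305) (nat_lit 1358956734) (.two (nat_lit 2097152) (nat_lit 10372518978) .nil)))),
   .two (nat_lit 203423752) (nat_lit 3527409688) (.two (nat_lit 10504634372) (nat_lit 3527409732) (.two (nat_lit 2887778306) (nat_lit 10003415794) (.two (nat_lit 2097153) (nat_lit 9902755636) (.one (nat_lit 4200501) .nil)))),
   .two (nat_lit 9948889096) (nat_lit 11007950887) (.two (nat_lit 9948889092) (nat_lit 2097658) (.two (nat_lit 184549378) (nat_lit 11477714110) (.two (nat_lit 2097153) (nat_lit 19142805668) (.two (nat_lit 2097152) (nat_lit 16781353) (.one (nat_lit 2102782) .nil))))),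
   .two (nat_lit 20644364296) (nat_lit 13191086139) (.two (nat_lit 184423546884) (nat_lit 10506731798) (.two (nat_lit 708837379) (nat_lit 780141335) (.two (nat_lit 4194305) (nat_lit 19604179657) (.two (nat_lit 4194304) (nat_lit 8392746) (.one (nat_lit 8394806) .nil))))),
   .two (nat_lit 83886088) (nat_lit 1178599483) (.two (nat_lit 10343153668) (nat_lit 1279262902) (.two (nat_lit 809500675) (nat_lit 184431937069) (.two (nat_lit 8388608) (nat_lit 2969572729) .nil))),
   .two (nat_lit 37748744) (nat_lit 343932953) (.two (nat_lit 606076932) (nat_lit 2357199030) (.two (nat_lit 47555018755) (nat_lit 2317353714) (.two (nat_lit 2097153) (nat_lit 184993974504) (.two (nat_lit 4194304) (nat_lit 21778926962) (.one (nat_lit 8394807) .nil))))),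
   .two (nat_lit 9948889096) (nat_lit 1780482114) (.two (nat_lit 19530776580) (nat_lit 156380431135) (.two (nat_lit 9766436865) (nat_lit 9915338004) (.one (nat_lit 16782848) .nil))),
   .two (nat_lit 75497480) (nat_lit 9881780249) (.two (nat_lit 9768534020) (nat_lit 251658571) (.two (nat_lit 16777219) (nat_lit 713032417) (.two (nat_lit 4194305) (nat_lit 47596965197) (.one (nat_lit 16783416) .nil)))),
   .two (nat_lit 809500680) (nat_lit 46414168103) (.two (nat_lit 4601151492) (nat_lit 20711473658) (.two (nat_lit 46409973763) (nat_lit 19100861630) (.two (nat_lit 8388609) (nat_lit 742394107) (.two (nat_lit 4194304) (nat_lit 8393482) (.one (nat_lit 8394809) .nil))))),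
   .two (nat_lit 158075977736) (nat_lit 28093448631) (.two (nat_lit 605028353) (nat_lit 847252786) (.one (nat_lit 8394810) .nil)),
   .two (nat_lit 184549384) (nat_lit 337641552) (.two (nat_lit 2969567236) (nat_lit 9967763635) (.two (nat_lit 2969567235) (nat_lit 19094569679) (.two (nat_lit 620756993) (nat_lit 2100741) (.two (nat_lit 2097152) (nat_lit 16781356) (.one (nat_lit 2103355) .nil))))),
   .two (nat_lit 16777224) (nat_lit 166230753321) (.two (nat_lit 41943044) (nat_lit 352321860) (.two (nat_lit 11492392963) (nat_lit 2098384) (.two (nat_lit 8388609) (nat_lit 251661607) (.one (nat_lit 2103356) .nil)))),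
   .two (nat_lit 754974728) (nat_lit 20704133159) (.two (nat_lit 1343225860) (nat_lit 18941478468) (.two (nat_lit 1048576) (nat_lit 16780689) (.one (nat_lit 16783421) .nil))),
   .two (nat_lit 46414168072) (nat_lit 21208498218) (.two (nat_lit 20638072836) (nat_lit 156372042167) (.two (nat_lit 606076929) (nat_lit 157043132928) (.one (nat_lit 8394814) .nil))),
   .two (nat_lit 20644364296) (nat_lit 184416206874) (.two (nat_lit 184416206852) (nat_lit 165532402103) (.two (nat_lit 34603009) (nat_lit 174759873024) (.one (nat_lit 8394815) .nil))),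
   .two (nat_lit 10370416648) (nat_lit 775946337) (.two (nat_lit 4194308) (nat_lit 176161091) (.two (nat_lit 9933160451) (nat_lit 9967764646) (.two (nat_lit 156364701697) (nat_lit 28760344122) (.two (nat_lit 8388608) (nat_lit 1052717) (.one (nat_lit 1054785) .nil))))),
   .two (nat_lit 11577327626) (nat_lit 1753219140) (.two (nat_lit 705691650) (nat_lit 1753219889) (.two (nat_lit 1048576) (nat_lit 1283459579) (.one (nat_lit 8394242) .nil))),
   .two (nat_lit 37748744) (nat_lit 10007609626) (.two (nat_lit 20644364291) (nat_lit 706741411) (.two (nat_lit 2097153) (nat_lit 156971828798) (.two (nat_lit 4194304) (nat_lit 2101294) (.one (nat_lit 10372519114) .nil)))),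
   .two (nat_lit 184549384) (nat_lit 184423547647) (.two (nat_lit 16777217) (nat_lit 1753221381) (.two (nat_lit 8388608) (nat_lit 16782091) (.one (nat_lit 13228840197) .nil))),
   .two (nat_lit 11543773192) (nat_lit 165540790326) (.two (nat_lit 184986632196) (nat_lit 47588573534) (.two (nat_lit 12054429699) (nat_lit 47581233593) (.two (nat_lit 612368385) (nat_lit 1052166) (.two (nat_lit 8388608) (nat_lit 16781360) (.one (nat_lit 16783427) .nil))))),
   .two (nat_lit 739246088) (nat_lit 142606374) (.two (nat_lit 11577327621) (nat_lit 9873391977) (.two (nat_lit 184416206851) (nat_lit 8389841) (.two (nat_lit 9781116929) (nat_lit 605031755) (.one (nat_lit 1054788) .nil)))),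
   .two (nat_lit 713031688) (nat_lit 34603062) (.two (nat_lit 75497476) (nat_lit 1276117176) (.two (nat_lit 13187940355) (nat_lit 28798092027) (.two (nat_lit 605028353) (nat_lit 11611933362) (.two (nat_lit 8388608) (nat_lit 807407527) (.one (nat_lit 2103365) .nil))))),
   .two (nat_lit 158075977736) (nat_lit 174686470180) (.two (nat_lit 158144135172) (nat_lit 183845781834) (.two (nat_lit 1277165570) (nat_lit 4598006975) (.two (nat_lit 9766436865) (nat_lit 184416209615) (.two (nat_lit 1048576) (nat_lit 2102028) (.one (nat_lit 1054790) .nil))))),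
   .two (nat_lit 165526110216) (nat_lit 20704133163) (.two (nat_lit 174753579012) (nat_lit 9899606303) (.two (nat_lit 158143086595) (nat_lit 1310720440) (.two (nat_lit 605028353) (nat_lit 2099951) (.two (nat_lit 2097152) (nat_lit 336596840) (.one (nat_lit 1054791) .nil))))),
   .two (nat_lit 11559501832) (nat_lit 2316304411) (.two (nat_lit 12047089668) (nat_lit 352321896) (.two (nat_lit 184986632195) (nat_lit 83886776) (.two (nat_lit 34603009) (nat_lit 4613736723) (.two (nat_lit 1048576) (nat_lit 16781362) (.one (nat_lit 1054792) .nil))))),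
   .two (nat_lit 218103816) (nat_lit 156971827286) (.two (nat_lit 4194308) (nat_lit 1291845812) (.two (nat_lit 171966467) (nat_lit 4613736717) (.two (nat_lit 4194304) (nat_lit 9866054951) (.one (nat_lit 1054793) .nil)))),
   .two (nat_lit 276824072) (nat_lit 239075393) (.two (nat_lit 713031684) (nat_lit 174752530612) (.two (nat_lit 47550824451) (nat_lit 8390292) (.two (nat_lit 34603009) (nat_lit 3024094757) (.two (nat_lit 1048576) (nat_lit 4198451) (.one (nat_lit 158075983330) .nil))))),
   .two (nat_lit 11543773192) (nat_lit 47555018777) (.two (nat_lit 184986632196) (nat_lit 4605345971) (.two (nat_lit 46414168067) (nat_lit 47581234331) (.two (nat_lit 41943041) (nat_lit 12147756821) (.one (nat_lit 1054794) .nil)))),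
   .two (nat_lit 713031688) (nat_lit 156532473902) (.two (nat_lit 21785214980) (nat_lit 157035791134) (.two (nat_lit 41943041) (nat_lit 739248388) (.two (nat_lit 8388608) (nat_lit 1343229980) (.one (nat_lit 1054795) .nil)))),
   .two (nat_lit 1343225864) (nat_lit 50331701) (.two (nat_lit 28758245380) (nat_lit 158075978047) (.two (nat_lit 16777218) (nat_lit 35652771) (.two (nat_lit 16777217) (nat_lit 9966716453) (.two (nat_lit 16777216) (nat_lit 1052724) (.one (nat_lit 1054796) .nil))))),
   .two (nat_lit 4194312) (nat_lit 673185837) (.two (nat_lit 2889875460) (nat_lit 21778923878) (.two (nat_lit 2956984323) (nat_lit 236978875) (.two (nat_lit 9765388289) (nat_lit 2418018461) (.two (nat_lit 2097152) (nat_lit 1053454) (.one (nat_lit 1054215) .nil))))),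
   .two (nat_lit 156367847432) (nat_lit 75497807) (.two (nat_lit 46409973763) (nat_lit 10947134184) (.two (nat_lit 4194305) (nat_lit 276827431) (.one (nat_lit 4200528) .nil))),
   .two (nat_lit 46409973768) (nat_lit 142606684) (.two (nat_lit 746586115) (nat_lit 46980399543) (.two (nat_lit 41943041) (nat_lit 3527410481) (.two (nat_lit 2097152) (nat_lit 2353007984) (.one (nat_lit 9772734530) .nil)))),
   .two (nat_lit 28757196808) (nat_lit 2420114181) (.two (nat_lit 34603009) (nat_lit 4634706738) (.two (nat_lit 1048576) (nat_lit 4197778) (.one (nat_lit 3557823676) .nil))),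
   .two (nat_lit 47555018760) (nat_lit 166230753319) (.two (nat_lit 47555018756) (nat_lit 159217877496) (.two (nat_lit 159217876995) (nat_lit 343933631) (.two (nat_lit 50331649) (nat_lit 8390939) (.two (nat_lit 16777216) (nat_lit 10376712053) (.one (nat_lit 2103377) .nil))))),
   .two (nat_lit 203423752) (nat_lit 37313577069) (.two (nat_lit 285212676) (nat_lit 740294949) (.two (nat_lit 157035790339) (nat_lit 159251432130) (.two (nat_lit 9765388289) (nat_lit 1191185664) (.one (nat_lit 16783442) .nil)))),
   .two (nat_lit 11543773192) (nat_lit 117441330) (.two (nat_lit 1048576) (nat_lit 20753419584) (.one (nat_lit 16782856) .nil)),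
   .two (nat_lit 46414168072) (nat_lit 2886729774) (.two (nat_lit 21777874948) (nat_lit 2994733375) (.two (nat_lit 1283457027) (nat_lit 772801215) (.two (nat_lit 4194305) (nat_lit 1050900) (.two (nat_lit 4194304) (nat_lit 705695682) (.one (nat_lit 28793902237) .nil))))),
   .two (nat_lit 3525312520) (nat_lit 184989778105) (.two (nat_lit 2887778306) (nat_lit 675283702) (.two (nat_lit 2097153) (nat_lit 20707281613) (.two (nat_lit 2097152) (nat_lit 4198453) (.one (nat_lit 2103379) .nil)))),
   .two (nat_lit 28093448202) (nat_lit 46978301978) (.two (nat_lit 46978301956) (nat_lit 174692762344) (.two (nat_lit 9768534017) (nat_lit 243271810) (.two (nat_lit 2097152) (nat_lit 8392758) (.one (nat_lit 8394836) .nil)))),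
   .two (nat_lit 183848927240) (nat_lit 156465365028) (.two (nat_lit 809500676) (nat_lit 839910208) (.two (nat_lit 101711875) (nat_lit 2956985061) (.two (nat_lit 9765388289) (nat_lit 4196636) (.two (nat_lit 1048576) (nat_lit 4199183) (.one (nat_lit 1054805) .nil))))),
   .two (nat_lit 4194312) (nat_lit 19033751649) (.two (nat_lit 9766436868) (nat_lit 47550824795) (.two (nat_lit 1914699779) (nat_lit 1312817913) (.two (nat_lit 34603009) (nat_lit 874515106) (.two (nat_lit 1048576) (nat_lit 37253811538) (.one (nat_lit 8394838) .nil))))),
   .two (nat_lit 9768534024) (nat_lit 168820785) (.two (nat_lit 742391812) (nat_lit 12147753245) (.two (nat_lit 2889875459) (nat_lit 12618564311) (.two (nat_lit 4194305) (nat_lit 12618565877) (.two (nat_lit 4194304) (nat_lit 11578380165) (.one (nat_lit 1847596890) .nil))))),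
   .two (nat_lit 158144135176) (nat_lit 1929379893) (.two (nat_lit 9934209028) (nat_lit 251658423) (.two (nat_lit 169869314) (nat_lit 1929381060) (.two (nat_lit 2097153) (nat_lit 9814673619) (.two (nat_lit 16777216) (nat_lit 12148805577) (.one (nat_lit 2103383) .nil))))),
   .two (nat_lit 9768534024) (nat_lit 772800537) (.two (nat_lit 9768534020) (nat_lit 2886729914) (.two (nat_lit 806354947) (nat_lit 13224641209) (.two (nat_lit 2097153) (nat_lit 19096670043) (.one (nat_lit 1054808) .nil)))),
   .two (nat_lit 16777224) (nat_lit 28093448235) (.two (nat_lit 1780482052) (nat_lit 9948889906) (.two (nat_lit 2097152) (nat_lit 185035918731) (.one (nat_lit 2103385) .nil))),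
   .two (nat_lit 4601151496) (nat_lit 880804116) (.two (nat_lit 4194306) (nat_lit 8389842) (.two (nat_lit 4194305) (nat_lit 8392199) (.two (nat_lit 4194304) (nat_lit 8393488) (.one (nat_lit 9969866523) .nil)))),
   .two (nat_lit 169869320) (nat_lit 10007609403) (.two (nat_lit 276824068) (nat_lit 19532873995) (.two (nat_lit 8388610) (nat_lit 19026412237) (.two (nat_lit 9765388289) (nat_lit 21785217156) (.two (nat_lit 1048576) (nat_lit 8392761) (.one (nat_lit 1054810) .nil))))),
   .two (nat_lit 174752530440) (nat_lit 18933088299) (.two (nat_lit 20637024260) (nat_lit 156372042167) (.two (nat_lit 4194305) (nat_lit 746588660) (.one (nat_lit 8394843) .nil))),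
   .two (nat_lit 28791799818) (nat_lit 158176641051) (.two (nat_lit 1847590916) (nat_lit 1048970) (.two (nat_lit 166130089986) (nat_lit 202376383) (.two (nat_lit 605028353) (nat_lit 2954889953) (.two (nat_lit 1048576) (nat_lit 2102033) (.one (nat_lit 1053313) .nil))))),
   .two (nat_lit 9768534024) (nat_lit 47596961851) (.two (nat_lit 12114198532) (nat_lit 10003415481) (.two (nat_lit 16777217) (nat_lit 2953841354) (.two (nat_lit 16777216) (nat_lit 1052730) (.one (nat_lit 1054812) .nil)))),
   .two (nat_lit 276824072) (nat_lit 28693233708) (.two (nat_lit 11479810052) (nat_lit 2357199570) (.two (nat_lit 34603009) (nat_lit 20707282284) (.one (nat_lit 4200541) .nil))),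
   .two (nat_lit 721420296) (nat_lit 156372042006) (.two (nat_lit 8388611) (nat_lit 185035917475) (.two (nat_lit 8388608) (nat_lit 285216019) (.one (nat_lit 713037677) .nil))),
   .two (nat_lit 822083592) (nat_lit 3565158497) (.two (nat_lit 50331652) (nat_lit 3565158582) (.two (nat_lit 12114198531) (nat_lit 780140984) (.two (nat_lit 34603009) (nat_lit 158083320046) (.two (nat_lit 1048576) (nat_lit 19100864434) (.one (nat_lit 19100865876) .nil))))),
   .two (nat_lit 205520904) (nat_lit 46407876673) (.two (nat_lit 742391812) (nat_lit 1276117173) (.two (nat_lit 11479810050) (nat_lit 2886730500) (.two (nat_lit 9765388289) (nat_lit 639633627) (.two (nat_lit 1048576) (nat_lit 2101307) (.one (nat_lit 2103390) .nil))))),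
   .two (nat_lit 3525312520) (nat_lit 12117344324) (.two (nat_lit 166132187139) (nat_lit 37314626310) (.two (nat_lit 4194305) (nat_lit 673188117) (.two (nat_lit 2097152) (nat_lit 4199186) (.one (nat_lit 4200543) .nil)))),
   .two (nat_lit 218103816) (nat_lit 47588573250) (.two (nat_lit 41943044) (nat_lit 158091707087) (.two (nat_lit 8388609) (nat_lit 174768261331) (.two (nat_lit 16777216) (nat_lit 156573372361) (.one (nat_lit 8394848) .nil)))),
   .two (nat_lit 13195280392) (nat_lit 2954887224) (.two (nat_lit 12114198532) (nat_lit 13188989110) (.two (nat_lit 11476664322) (nat_lit 10538190019) (.two (nat_lit 2097153) (nat_lit 8391409) (.two (nat_lit 1048576) (nat_lit 8392764) (.one (nat_lit 8394257) .nil))))),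
   .two (nat_lit 8388616) (nat_lit 775946279) (.two (nat_lit 11559501828) (nat_lit 46481277663) (.two (nat_lit 50331649) (nat_lit 608177507) (.one (nat_lit 4200545) .nil))),
   .two (nat_lit 285212680) (nat_lit 9967763501) (.two (nat_lit 285212677) (nat_lit 20705182015) (.two (nat_lit 9934209027) (nat_lit 10452206309) (.two (nat_lit 8388609) (nat_lit 156969733392) (.one (nat_lit 2102988) .nil)))),
   .two (nat_lit 10336862216) (nat_lit 3024093891) (.two (nat_lit 2097153) (nat_lit 11614031226) (.one (nat_lit 4200546) .nil)),
   .two (nat_lit 9934209032) (nat_lit 101712063) (.two (nat_lit 12117344260) (nat_lit 10335813990) (.two (nat_lit 806354947) (nat_lit 183848928840) (.two (nat_lit 2097152) (nat_lit 3460304823) (.one (nat_lit 2103395) .nil)))),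
   .two (nat_lit 1343225864) (nat_lit 3021996080) (.two (nat_lit 1780482052) (nat_lit 28790752419) (.two (nat_lit 16777217) (nat_lit 4027583770) (.one (nat_lit 1054227) .nil))),
   .two (nat_lit 2902458376) (nat_lit 1210056770) (.two (nat_lit 654311428) (nat_lit 11511268124) (.two (nat_lit 37748737) (nat_lit 10452207153) (.two (nat_lit 4194304) (nat_lit 9867105328) .nil))),
   .two (nat_lit 159232557064) (nat_lit 183912890394) (.two (nat_lit 12114198532) (nat_lit 166245433663) (.two (nat_lit 117440515) (nat_lit 183912891067) (.two (nat_lit 4194305) (nat_lit 3020949044) (.two (nat_lit 4194304) (nat_lit 158158818687) (.one (nat_lit 16783460) .nil))))),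
   .two (nat_lit 10370416648) (nat_lit 3527409688) (.two (nat_lit 10538188806) (nat_lit 10506731588) (.two (nat_lit 639631363) (nat_lit 1413481164) (.two (nat_lit 606076929) (nat_lit 3024097029) (.one (nat_lit 4199956) .nil)))),
   .two (nat_lit 184986632200) (nat_lit 47584378926) (.two (nat_lit 19599982596) (nat_lit 135266484) (.two (nat_lit 739246083) (nat_lit 10372514590) (.two (nat_lit 34603009) (nat_lit 4196638) (.two (nat_lit 1048576) (nat_lit 4198463) (.one (nat_lit 1749030021) .nil))))),
   .two (nat_lit 176160776) (nat_lit 10537140270) (.two (nat_lit 159224168452) (nat_lit 19093520760) (.two (nat_lit 183845781506) (nat_lit 20711474350) (.two (nat_lit 34603009) (nat_lit 780143259) (.two (nat_lit 8388608) (nat_lit 166196154412) (.one (nat_lit 21214795771) .nil))))),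
   .two (nat_lit 8388616) (nat_lit 37249613887) (.two (nat_lit 2969567236) (nat_lit 46984594212) (.two (nat_lit 16777217) (nat_lit 10007610162) (.two (nat_lit 8388608) (nat_lit 21210599481) (.one (nat_lit 158649554762) .nil)))),
   .two (nat_lit 285212680) (nat_lit 28693233707) (.two (nat_lit 10506731525) (nat_lit 251659040) (.two (nat_lit 37748737) (nat_lit 9948893823) .nil)),
   .two (nat_lit 176160776) (nat_lit 19529728181) (.two (nat_lit 8388611) (nat_lit 1049815) (.two (nat_lit 612368385) (nat_lit 21777878932) (.one (nat_lit 1054230) .nil))),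
   .two (nat_lit 3464495112) (nat_lit 11479810092) (.two (nat_lit 4194308) (nat_lit 10007609524) (.two (nat_lit 13191086083) (nat_lit 19026412264) (.two (nat_lit 37748737) (nat_lit 12617517737) (.two (nat_lit 1048576) (nat_lit 4198464) (.one (nat_lit 4200549) .nil))))),
   .two (nat_lit 8388616) (nat_lit 641728562) (.two (nat_lit 4601151492) (nat_lit 880803908) (.two (nat_lit 4601151491) (nat_lit 158653743856) (.two (nat_lit 4194305) (nat_lit 46414170356) (.two (nat_lit 4194304) (nat_lit 8392769) (.one (nat_lit 9902756326) .nil))))),
   .two (nat_lit 184549384) (nat_lit 46406828086) (.two (nat_lit 159224168452) (nat_lit 157035790517) (.two (nat_lit 176160770) (nat_lit 4631561367) (.two (nat_lit 8388609) (nat_lit 1795166264) (.one (nat_lit 1795167756) .nil)))),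
   .two (nat_lit 11492392968) (nat_lit 3525312565) (.two (nat_lit 11543773188) (nat_lit 10921967798) (.two (nat_lit 705691650) (nat_lit 35652302) (.two (nat_lit 620756993) (nat_lit 174753583002) (.one (nat_lit 2103398) .nil)))),
   .two (nat_lit 272629768) (nat_lit 203423797) (.two (nat_lit 2887778308) (nat_lit 9869197654) (.two (nat_lit 1344274435) (nat_lit 3557820593) (.two (nat_lit 1048576) (nat_lit 2101315) (.one (nat_lit 18926802024) .nil)))),
   .two (nat_lit 2889875464) (nat_lit 46508539946) (.two (nat_lit 3527409668) (nat_lit 2097901) (.two (nat_lit 9766436865) (nat_lit 1384121893) (.two (nat_lit 4194304) (nat_lit 1780485960) (.one (nat_lit 13222548820) .nil)))),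
   .two (nat_lit 16777224) (nat_lit 101711931) (.two (nat_lit 1291845636) (nat_lit 34603318) (.two (nat_lit 11543773187) (nat_lit 16777916) (.two (nat_lit 34603009) (nat_lit 20719864521) (.two (nat_lit 1048576) (nat_lit 183962177578) (.one (nat_lit 8394264) .nil))))),
   .two (nat_lit 11559501832) (nat_lit 13187940401) (.two (nat_lit 156968681476) (nat_lit 1358954675) (.two (nat_lit 19596836867) (nat_lit 50332828) (.two (nat_lit 9765388289) (nat_lit 165540794911) .nil))),
   .two (nat_lit 9940500488) (nat_lit 9866051774) (.two (nat_lit 156372041732) (nat_lit 1048971) (.two (nat_lit 46980399107) (nat_lit 158075978944) (.two (nat_lit 4194305) (nat_lit 1051378) (.two (nat_lit 4194304) (nat_lit 8393491) (.one (nat_lit 4200551) .nil))))),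
   .two (nat_lit 16777224) (nat_lit 1276117037) (.two (nat_lit 205520900) (nat_lit 889192516) (.two (nat_lit 2889875458) (nat_lit 18925748663) (.two (nat_lit 2097153) (nat_lit 1913652763) (.two (nat_lit 2097152) (nat_lit 159250386871) (.one (nat_lit 2102809) .nil))))),
   .two (nat_lit 16777224) (nat_lit 612368727) (.two (nat_lit 16777218) (nat_lit 46481277689) (.two (nat_lit 41943041) (nat_lit 150997510) (.one (nat_lit 16783464) .nil))),
   .two (nat_lit 41943048) (nat_lit 18928894011) (.two (nat_lit 11479810052) (nat_lit 8388957) (.two (nat_lit 218103811) (nat_lit 20640170715) (.two (nat_lit 16777217) (nat_lit 9936309579) (.one (nat_lit 4200553) .nil)))),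
   .two (nat_lit 12050235400) (nat_lit 13187940401) (.two (nat_lit 156968681476) (nat_lit 158079123927) (.two (nat_lit 19596836867) (nat_lit 708838546) (.two (nat_lit 9765388289) (nat_lit 4599057739) (.one (nat_lit 1344279600) .nil)))),
   .two (nat_lit 1753219080) (nat_lit 166196150316) (.two (nat_lit 19530776580) (nat_lit 21818770121) (.two (nat_lit 9766436865) (nat_lit 158653745373) (.two (nat_lit 2097152) (nat_lit 1053460) (.one (nat_lit 1054827) .nil)))),
   .two (nat_lit 272629768) (nat_lit 46406828080) (.two (nat_lit 28690087940) (nat_lit 339738805) (.two (nat_lit 4194306) (nat_lit 11610882756) (.two (nat_lit 37748737) (nat_lit 158143090572) (.one (nat_lit 1054828) .nil)))),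
   .two (nat_lit 183848927240) (nat_lit 184986632241) (.two (nat_lit 156968681476) (nat_lit 9869198039) (.two (nat_lit 9765388289) (nat_lit 11546920485) (.two (nat_lit 1048576) (nat_lit 4198471) (.one (nat_lit 4200557) .nil)))),
   .two (nat_lit 156372041736) (nat_lit 12047089702) (.two (nat_lit 1753219077) (nat_lit 638583091) (.two (nat_lit 18933088259) (nat_lit 1049817) (.two (nat_lit 2097153) (nat_lit 75501532) (.one (nat_lit 8394862) .nil)))),
   .two (nat_lit 156372041736) (nat_lit 184986632219) (.two (nat_lit 18933088262) (nat_lit 19529728181) (.two (nat_lit 18933088259) (nat_lit 11610883238) (.two (nat_lit 8388609) (nat_lit 28690091795) (.one (nat_lit 1309676748) .nil)))),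
   .two (nat_lit 11543773192) (nat_lit 184423546928) (.two (nat_lit 705691652) (nat_lit 46514832082) (.two (nat_lit 2097153) (nat_lit 10544481854) (.two (nat_lit 4194304) (nat_lit 1052744) (.one (nat_lit 4200559) .nil)))),
   .two (nat_lit 158075977736) (nat_lit 174692761971) (.two (nat_lit 13195280387) (nat_lit 809501435) (.two (nat_lit 41943041) (nat_lit 46980401332) (.two (nat_lit 4194304) (nat_lit 16780692) (.one (nat_lit 16783472) .nil)))),
   .two (nat_lit 184549384) (nat_lit 1847590953) (.two (nat_lit 10370416644) (nat_lit 12062819873) (.two (nat_lit 2097152) (nat_lit 1224740702) (.one (nat_lit 16783473) .nil))),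
   .two (nat_lit 8388616) (nat_lit 1212153929) (.two (nat_lit 4605345796) (nat_lit 183949590707) (.two (nat_lit 4605345795) (nat_lit 46477083775) (.two (nat_lit 37748737) (nat_lit 8391411) (.two (nat_lit 4194304) (nat_lit 156976025515) (.one (nat_lit 4200562) .nil))))),
   .two (nat_lit 184986632200) (nat_lit 159224168627) (.two (nat_lit 13187940355) (nat_lit 9940502161) (.two (nat_lit 2097153) (nat_lit 1050913) (.two (nat_lit 2097152) (nat_lit 8392778) (.one (nat_lit 8394868) .nil)))),
   .two (nat_lit 183848927240) (nat_lit 159250382894) (.two (nat_lit 19596836868) (nat_lit 158146232621) (.two (nat_lit 184419352579) (nat_lit 3020948681) (.two (nat_lit 34603009) (nat_lit 708840086) (.two (nat_lit 1048576) (nat_lit 11546922932) (.one (nat_lit 158176646575) .nil))))),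
   .two (nat_lit 2889875464) (nat_lit 12618563632) (.two (nat_lit 203423748) (nat_lit 11513364754) (.two (nat_lit 2887778306) (nat_lit 843055801) (.two (nat_lit 2097153) (nat_lit 46409976509) (.two (nat_lit 2097152) (nat_lit 4198475) (.one (nat_lit 2103413) .nil))))),
   .two (nat_lit 9934209032) (nat_lit 13187940460) (.two (nat_lit 285212676) (nat_lit 46407876936) (.two (nat_lit 1344274435) (nat_lit 174701151411) (.two (nat_lit 50331649) (nat_lit 2099490) (.two (nat_lit 4194304) (nat_lit 3573552545) .nil)))),
   .two (nat_lit 2961178632) (nat_lit 47548727320) (.two (nat_lit 47555018756) (nat_lit 184986632631) (.two (nat_lit 612368385) (nat_lit 839912689) (.one (nat_lit 2103414) .nil))),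
   .two (nat_lit 612368392) (nat_lit 4028629019) (.two (nat_lit 9940500484) (nat_lit 46474985912) (.two (nat_lit 2097153) (nat_lit 343933746) (.two (nat_lit 4194304) (nat_lit 12048140788) (.one (nat_lit 183913944507) .nil)))),
   .two (nat_lit 156367847432) (nat_lit 157036838980) (.two (nat_lit 2887778306) (nat_lit 708838119) (.two (nat_lit 4194305) (nat_lit 21812479540) (.two (nat_lit 4194304) (nat_lit 218109141) .nil))),
   .two (nat_lit 4601151496) (nat_lit 13237223772) (.two (nat_lit 4194306) (nat_lit 21793604310) (.two (nat_lit 37748737) (nat_lit 11559504159) (.two (nat_lit 4194304) (nat_lit 83890246) (.one (nat_lit 16783480) .nil)))),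
   .two (nat_lit 11551113224) (nat_lit 158143086616) (.two (nat_lit 158143086596) (nat_lit 2323644739) (.two (nat_lit 1277165570) (nat_lit 873464524) (.two (nat_lit 606076929) (nat_lit 1410338565) (.one (nat_lit 1410340607) .nil)))),
   .two (nat_lit 11492392968) (nat_lit 158646403115) (.two (nat_lit 1376780293) (nat_lit 1191182776) (.two (nat_lit 605028353) (nat_lit 1325402627) (.one (nat_lit 185035920875) .nil))),
   .two (nat_lit 620757000) (nat_lit 1376780344) (.two (nat_lit 46980399108) (nat_lit 855638195) (.two (nat_lit 605028355) (nat_lit 4647289569) (.two (nat_lit 2097153) (nat_lit 183946446370) (.two (nat_lit 4194304) (nat_lit 1780484602) (.one (nat_lit 2103417) .nil))))),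
   .two (nat_lit 169869320) (nat_lit 83886155) (.two (nat_lit 159217876996) (nat_lit 10369368434) (.two (nat_lit 11492392963) (nat_lit 1847592137) (.two (nat_lit 16777217) (nat_lit 37314627773) (.two (nat_lit 2097152) (nat_lit 16781390) (.one (nat_lit 16782882) .nil))))),
   .two (nat_lit 9866051592) (nat_lit 2319450176) (.two (nat_lit 184419352580) (nat_lit 156364702437) (.two (nat_lit 9765388289) (nat_lit 2319451693) (.two (nat_lit 1048576) (nat_lit 46409977097) (.one (nat_lit 1054842) .nil)))),
   .two (nat_lit 158075977736) (nat_lit 807403841) (.two (nat_lit 1277165570) (nat_lit 4598006975) (.two (nat_lit 156364701697) (nat_lit 3558869269) (.two (nat_lit 1048576) (nat_lit 2102038) (.one (nat_lit 1054843) .nil)))),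
   .two (nat_lit 10370416648) (nat_lit 20737687577) (.two (nat_lit 158144135172) (nat_lit 12624855222) (.two (nat_lit 159216828419) (nat_lit 156365750713) (.two (nat_lit 4194305) (nat_lit 4599055925) (.two (nat_lit 1048576) (nat_lit 1847594750) (.one (nat_lit 9967768168) .nil))))),
   .two (nat_lit 1795162120) (nat_lit 184986632540) (.two (nat_lit 9933160451) (nat_lit 9781118487) (.two (nat_lit 4194304) (nat_lit 3472887043) (.one (nat_lit 4200572) .nil))),
   .two (nat_lit 50331656) (nat_lit 156569174086) (.two (nat_lit 3458203652) (nat_lit 28693233843) (.two (nat_lit 16777218) (nat_lit 4195547) (.two (nat_lit 2097153) (nat_lit 156984412850) (.two (nat_lit 4194304) (nat_lit 150998951) (.one (nat_lit 16783485) .nil))))),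
   .two (nat_lit 158075977736) (nat_lit 19530776603) (.two (nat_lit 158075977732) (nat_lit 1344274614) (.two (nat_lit 21777874947) (nat_lit 183947494601) (.two (nat_lit 605028353) (nat_lit 158177692319) (.two (nat_lit 1048576) (nat_lit 2102039) (.one (nat_lit 1054244) .nil))))),
   .two (nat_lit 9781116936) (nat_lit 1212154137) (.two (nat_lit 2889875459) (nat_lit 10552871075) (.two (nat_lit 4194304) (nat_lit 754978067) (.one (nat_lit 4200574) .nil))),
   .two (nat_lit 47548727304) (nat_lit 1175453877) (.two (nat_lit 169869314) (nat_lit 1049820) (.two (nat_lit 606076929) (nat_lit 9866055679) (.one (nat_lit 1054847) .nil))),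
   .two (nat_lit 1795162120) (nat_lit 156465365274) (.two (nat_lit 11543773187) (nat_lit 20652754470) (.two (nat_lit 1048576) (nat_lit 12062820876) (.one (nat_lit 4027586067) .nil))),
   .two (nat_lit 46409973768) (nat_lit 10001317938) (.two (nat_lit 2954887172) (nat_lit 9902752057) (.two (nat_lit 2889875458) (nat_lit 807404274) (.two (nat_lit 9768534017) (nat_lit 12115248675) (.two (nat_lit 4194304) (nat_lit 2101330) (.one (nat_lit 156535624195) .nil))))),
   .two (nat_lit 1745879048) (nat_lit 19128123681) (.two (nat_lit 28086108163) (nat_lit 174753579447) (.two (nat_lit 34603009) (nat_lit 1914703084) (.one (nat_lit 35656192) .nil))),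
   .two (nat_lit 4194312) (nat_lit 1291845811) (.two (nat_lit 605028355) (nat_lit 46422557391) (.two (nat_lit 34603009) (nat_lit 3560965675) (.two (nat_lit 16777216) (nat_lit 235932982) (.one (nat_lit 4199975) .nil)))),
   .two (nat_lit 9934209032) (nat_lit 157038936091) (.two (nat_lit 169869316) (nat_lit 11614028509) (.two (nat_lit 2097153) (nat_lit 2990540321) (.two (nat_lit 1048576) (nat_lit 2923433230) (.one (nat_lit 4200576) .nil)))),
   .two (nat_lit 620757000) (nat_lit 11479810074) (.two (nat_lit 2969567236) (nat_lit 675283652) (.two (nat_lit 16777217) (nat_lit 184419354836) (.two (nat_lit 16777216) (nat_lit 4198483) (.one (nat_lit 4199977) .nil)))),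
   .two (nat_lit 10504634376) (nat_lit 876609635) (.two (nat_lit 18928893956) (nat_lit 773849379) (.two (nat_lit 12114198531) (nat_lit 304087786) (.two (nat_lit 156364701697) (nat_lit 166199299427) (.one (nat_lit 4200577) .nil)))),
   .two (nat_lit 16777224) (nat_lit 3464495129) (.two (nat_lit 3464495108) (nat_lit 21223178962) (.two (nat_lit 8388609) (nat_lit 9948889906) (.two (nat_lit 2097152) (nat_lit 11551116514) (.one (nat_lit 16783490) .nil)))),
   .two (nat_lit 1350565896) (nat_lit 11559501867) (.two (nat_lit 11479810052) (nat_lit 158192370012) (.two (nat_lit 822083587) (nat_lit 675283664) (.two (nat_lit 37748737) (nat_lit 16780021) (.two (nat_lit 4194304) (nat_lit 37262200889) (.one (nat_lit 16783491) .nil))))),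
   .two (nat_lit 47563407368) (nat_lit 158144135192) (.two (nat_lit 21207449604) (nat_lit 37314626353) (.two (nat_lit 1048576) (nat_lit 9766439438) (.one (nat_lit 2103429) .nil))),
   .two (nat_lit 272629768) (nat_lit 2357198895) (.two (nat_lit 272629764) (nat_lit 880804121) (.two (nat_lit 4194306) (nat_lit 158653743842) (.two (nat_lit 156367847425) (nat_lit 9906948224) (.two (nat_lit 8388608) (nat_lit 4198487) (.one (nat_lit 156573372932) .nil))))),
   .two (nat_lit 169869320) (nat_lit 47555018793) (.two (nat_lit 3464495108) (nat_lit 166197199229) (.two (nat_lit 203423747) (nat_lit 19529728725) (.two (nat_lit 606076929) (nat_lit 158176641842) (.two (nat_lit 8388608) (nat_lit 12618566132) (.one (nat_lit 2102833) .nil))))),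
   .two (nat_lit 620757000) (nat_lit 158183981102) (.two (nat_lit 156372041732) (nat_lit 620757060) (.two (nat_lit 3464495107) (nat_lit 50332341) (.two (nat_lit 8388609) (nat_lit 1325403413) (.one (nat_lit 16783494) .nil)))),
   .two (nat_lit 1277165576) (nat_lit 9974054939) (.two (nat_lit 159251431430) (nat_lit 9772728504) (.two (nat_lit 21208498179) (nat_lit 12624856215) (.two (nat_lit 9766436865) (nat_lit 19100862675) (.two (nat_lit 2097152) (nat_lit 8392793) (.one (nat_lit 1182799977) .nil))))),
   .two (nat_lit 2889875464) (nat_lit 156372042051) (.two (nat_lit 285212675) (nat_lit 21818771698) (.two (nat_lit 16777216) (nat_lit 166199299453) (.one (nat_lit 4199987) .nil))),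
   .two (nat_lit 9948889096) (nat_lit 9967763524) (.two (nat_lit 1277165571) (nat_lit 19109249752) (.two (nat_lit 2097153) (nat_lit 2936015510) (.two (nat_lit 2097152) (nat_lit 16782104) (.one (nat_lit 2102836) .nil)))),
   .two (nat_lit 218103816) (nat_lit 21208498218) (.two (nat_lit 20638072836) (nat_lit 16777978) (.two (nat_lit 606076929) (nat_lit 183962178153) .nil)),
   .two (nat_lit 809500680) (nat_lit 157043130427) (.two (nat_lit 158083317764) (nat_lit 156569174410) (.two (nat_lit 75497475) (nat_lit 156367848571) (.two (nat_lit 8388609) (nat_lit 675285177) (.two (nat_lit 1048576) (nat_lit 4198490) (.one (nat_lit 8394887) .nil))))),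
   .two (nat_lit 20638072840) (nat_lit 20704133146) (.two (nat_lit 20638072836) (nat_lit 4598005943) (.two (nat_lit 21778923523) (nat_lit 20704133559) (.two (nat_lit 9765388289) (nat_lit 21210599157) (.one (nat_lit 10335818260) .nil)))),
   .two (nat_lit 75497480) (nat_lit 9936306224) (.two (nat_lit 10343153669) (nat_lit 4634706253) (.two (nat_lit 713031682) (nat_lit 185023333150) (.two (nat_lit 41943041) (nat_lit 184989781370) (.one (nat_lit 4200584) .nil)))),
   .two (nat_lit 46407876616) (nat_lit 11525947438) (.two (nat_lit 1846542340) (nat_lit 16777612) (.two (nat_lit 13187940355) (nat_lit 20652754113) (.two (nat_lit 2097153) (nat_lit 158075981863) (.one (nat_lit 1054857) .nil)))),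
   .two (nat_lit 9781116941) (nat_lit 2097262) (.two (nat_lit 654311429) (nat_lit 9799991785) (.two (nat_lit 270532611) (nat_lit 158091708917) (.one (nat_lit 16783079) .nil))),
   .two (nat_lit 654311432) (nat_lit 10443817014) (.two (nat_lit 9781116932) (nat_lit 41943388) (.two (nat_lit 8388611) (nat_lit 4613735185) (.two (nat_lit 16777217) (nat_lit 158083319318) (.two (nat_lit 1048576) (nat_lit 158653747010) (.one (nat_lit 1054858) .nil))))),
   .two (nat_lit 285212681) (nat_lit 1277165595) (.two (nat_lit 16777220) (nat_lit 840958684) (.two (nat_lit 16777217) (nat_lit 10538192147) (.one (nat_lit 2102838) .nil))),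
   .two (nat_lit 2954887176) (nat_lit 184993972249) (.two (nat_lit 21785214981) (nat_lit 46978302271) (.two (nat_lit 8388611) (nat_lit 69206738) (.two (nat_lit 8388609) (nat_lit 20738736946) (.two (nat_lit 16777216) (nat_lit 874515708) (.one (nat_lit 8394295) .nil))))),
   .two (nat_lit 176160776) (nat_lit 2887778654) (.two (nat_lit 176160770) (nat_lit 2988442303) (.two (nat_lit 4194305) (nat_lit 21208502295) (.one (nat_lit 2103435) .nil))),
   .two (nat_lit 8388616) (nat_lit 1358954566) (.two (nat_lit 620756996) (nat_lit 1417675446) (.two (nat_lit 16777217) (nat_lit 4034922027) (.two (nat_lit 16777216) (nat_lit 8392796) (.one (nat_lit 184993978092) .nil)))),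
   .two (nat_lit 272629768) (nat_lit 34603066) (.two (nat_lit 1276116996) (nat_lit 9967763524) (.two (nat_lit 806354947) (nat_lit 174755676958) (.two (nat_lit 605028353) (nat_lit 19530778177) (.two (nat_lit 4194304) (nat_lit 174685424116) (.one (nat_lit 2103437) .nil))))),
   .two (nat_lit 10385096712) (nat_lit 4601151514) (.two (nat_lit 4601151492) (nat_lit 2902458643) (.two (nat_lit 183848927235) (nat_lit 218105488) (.two (nat_lit 9781116929) (nat_lit 1950353592) (.two (nat_lit 16777216) (nat_lit 1413484541) (.one (nat_lit 4200590) .nil))))),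
   .two (nat_lit 11543773192) (nat_lit 166197198875) (.two (nat_lit 1343225860) (nat_lit 35652301) (.two (nat_lit 605028353) (nat_lit 2099959) (.two (nat_lit 1048576) (nat_lit 1914703893) (.one (nat_lit 1054267) .nil)))),
   .two (nat_lit 37748744) (nat_lit 1846542399) (.two (nat_lit 8388612) (nat_lit 1410334899) (.two (nat_lit 176160771) (nat_lit 46474986241) (.two (nat_lit 41943041) (nat_lit 2099864) (.two (nat_lit 8388608) (nat_lit 2101341) (.one (nat_lit 8394895) .nil))))),
   .two (nat_lit 8388616) (nat_lit 156365750331) (.two (nat_lit 28790751238) (nat_lit 183947493729) (.two (nat_lit 4599054339) (nat_lit 21214790875) (.two (nat_lit 34603009) (nat_lit 13188991666) (.two (nat_lit 1048576) (nat_lit 2101342) (.one (nat_lit 1209014009) .nil))))),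
   .two (nat_lit 75497480) (nat_lit 772800548) (.two (nat_lit 75497476) (nat_lit 21811429760) (.two (nat_lit 184986632195) (nat_lit 1417675445) (.two (nat_lit 156372041729) (nat_lit 158646405397) (.two (nat_lit 1048576) (nat_lit 8393498) (.one (nat_lit 21207454228) .nil))))),
   .two (nat_lit 3558866953) (nat_lit 165532401691) (.two (nat_lit 3525312516) (nat_lit 1350566608) (.two (nat_lit 2097153) (nat_lit 47555022164) (.one (nat_lit 2103440) .nil))),
   .two (nat_lit 9781116936) (nat_lit 10001317995) (.two (nat_lit 654311428) (nat_lit 166230753567) (.two (nat_lit 9934209027) (nat_lit 3003122422) (.two (nat_lit 16777217) (nat_lit 2099960) (.two (nat_lit 16777216) (nat_lit 159251435463) (.one (nat_lit 2103441) .nil))))),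
   .two (nat_lit 46407876616) (nat_lit 47555018778) (.two (nat_lit 3458203652) (nat_lit 156472705732) (.two (nat_lit 156365750273) (nat_lit 12114200709) (.two (nat_lit 2097152) (nat_lit 1052768) (.one (nat_lit 1054866) .nil)))),
   .two (nat_lit 75497480) (nat_lit 3021996074) (.two (nat_lit 641728516) (nat_lit 9766437178) (.two (nat_lit 1176502275) (nat_lit 9902752490) (.two (nat_lit 37748737) (nat_lit 3525314692) (.two (nat_lit 8388608) (nat_lit 2102043) (.one (nat_lit 4200595) .nil))))),
   .two (nat_lit 285212680) (nat_lit 158083317786) (.two (nat_lit 4613734404) (nat_lit 4638901467) (.two (nat_lit 34603009) (nat_lit 174692763847) (.two (nat_lit 1048576) (nat_lit 721424282) (.one (nat_lit 822089557) .nil)))),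
   .two (nat_lit 11492392968) (nat_lit 708837732) (.two (nat_lit 708837379) (nat_lit 16777913) (.two (nat_lit 2097153) (nat_lit 183861514055) (.one (nat_lit 2103445) .nil))),
   .two (nat_lit 2969567240) (nat_lit 304087089) (.two (nat_lit 174753579012) (nat_lit 2969567411) (.two (nat_lit 10336862211) (nat_lit 165540791035) (.two (nat_lit 606076929) (nat_lit 156380434975) .nil))),
   .two (nat_lit 9934209032) (nat_lit 21818769458) (.two (nat_lit 47548727300) (nat_lit 880804109) (.two (nat_lit 159224168451) (nat_lit 3558867638) (.two (nat_lit 156372041729) (nat_lit 19530778148) (.two (nat_lit 2097152) (nat_lit 8392802) (.one (nat_lit 2103446) .nil))))),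
   .two (nat_lit 18933088264) (nat_lit 239075833) (.two (nat_lit 605028355) (nat_lit 12054430514) (.two (nat_lit 1048576) (nat_lit 8392089) (.one (nat_lit 8394903) .nil))),
   .two (nat_lit 2889875464) (nat_lit 1914699828) (.two (nat_lit 83886084) (nat_lit 19599983356) (.two (nat_lit 50331649) (nat_lit 10338961644) (.two (nat_lit 16777216) (nat_lit 4198500) (.one (nat_lit 16782910) .nil)))),
   .two (nat_lit 9948889096) (nat_lit 10369368103) (.two (nat_lit 620756996) (nat_lit 1379926366) (.two (nat_lit 1358954499) (nat_lit 1379926814) (.two (nat_lit 16777217) (nat_lit 2319451698) (.two (nat_lit 16777216) (nat_lit 4198502) (.one (nat_lit 16783512) .nil))))),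
   .two (nat_lit 2961178632) (nat_lit 20638072859) (.two (nat_lit 612368388) (nat_lit 1410335160) (.two (nat_lit 8388609) (nat_lit 21777877171) (.two (nat_lit 2097152) (nat_lit 8392807) (.one (nat_lit 2103449) .nil)))),
   .two (nat_lit 101711880) (nat_lit 9869197404) (.two (nat_lit 13224640518) (nat_lit 68157754) (.two (nat_lit 46409973763) (nat_lit 2953839817) (.two (nat_lit 37748737) (nat_lit 20737689789) (.two (nat_lit 1048576) (nat_lit 4199197) (.one (nat_lit 4199999) .nil))))),
   .two (nat_lit 10336862216) (nat_lit 150994998) (.two (nat_lit 157036838916) (nat_lit 10552869212) (.two (nat_lit 806354947) (nat_lit 1358956054) (.two (nat_lit 1048576) (nat_lit 1392512834) (.one (nat_lit 1310725215) .nil)))),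
   .two (nat_lit 13203669000) (nat_lit 1317011482) (.two (nat_lit 20644364292) (nat_lit 20753416484) (.two (nat_lit 3458203651) (nat_lit 1182794526) (.two (nat_lit 2097153) (nat_lit 159224170756) (.two (nat_lit 2097152) (nat_lit 8392808) (.one (nat_lit 8394906) .nil))))),
   .two (nat_lit 9948889096) (nat_lit 1343225900) (.two (nat_lit 1358954500) (nat_lit 9798943027) (.two (nat_lit 1291845635) (nat_lit 1049822) (.two (nat_lit 8388609) (nat_lit 12114202588) (.one (nat_lit 16783515) .nil)))),
   .two (nat_lit 754974728) (nat_lit 2886729777) (.two (nat_lit 169869316) (nat_lit 4043310637) (.two (nat_lit 1048576) (nat_lit 2101265) (.one (nat_lit 2103452) .nil))),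
   .two (nat_lit 46409973768) (nat_lit 10538188841) (.two (nat_lit 46980399108) (nat_lit 184987681500) (.two (nat_lit 4194305) (nat_lit 2099494) (.two (nat_lit 2097152) (nat_lit 809504580) (.one (nat_lit 2103453) .nil)))),
   .two (nat_lit 2889875464) (nat_lit 209715915) (.two (nat_lit 4194305) (nat_lit 158183983608) (.one (nat_lit 1853887960) .nil)),
   .two (nat_lit 639631368) (nat_lit 165532401843) (.two (nat_lit 270532611) (nat_lit 159224170744) (.two (nat_lit 1048576) (nat_lit 184993976906) .nil)),
   .two (nat_lit 159224168456) (nat_lit 9798943103) (.two (nat_lit 746586115) (nat_lit 156465365695) (.two (nat_lit 2097153) (nat_lit 19134417061) (.two (nat_lit 2097152) (nat_lit 9765392143) (.one (nat_lit 46414173619) .nil)))),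
   .two (nat_lit 101711880) (nat_lit 13188988982) (.two (nat_lit 2961178628) (nat_lit 10437525973) (.two (nat_lit 18926796803) (nat_lit 19537068742) (.two (nat_lit 50331649) (nat_lit 47581236530) (.one (nat_lit 1054878) .nil)))),
   .two (nat_lit 20638072840) (nat_lit 158143086616) (.two (nat_lit 21208498180) (nat_lit 20704133937) (.two (nat_lit 2097152) (nat_lit 13221497336) (.one (nat_lit 1053322) .nil))),
   .two (nat_lit 809500680) (nat_lit 28690087980) (.two (nat_lit 184419352580) (nat_lit 1048929) (.two (nat_lit 47550824451) (nat_lit 20738737332) (.two (nat_lit 9765388289) (nat_lit 2099961) (.two (nat_lit 4194304) (nat_lit 1052777) (.one (nat_lit 1054879) .nil))))),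
   .two (nat_lit 176160776) (nat_lit 740294743) (.two (nat_lit 3458203652) (nat_lit 28697428684) (.two (nat_lit 612368385) (nat_lit 1210059430) (.two (nat_lit 2097152) (nat_lit 176164929) (.one (nat_lit 2102851) .nil)))),
   .two (nat_lit 8388616) (nat_lit 46422556770) (.two (nat_lit 1291845636) (nat_lit 11584668449) (.two (nat_lit 620756993) (nat_lit 184993974479) (.two (nat_lit 4194304) (nat_lit 16781126) (.one (nat_lit 16782916) .nil)))),
   .two (nat_lit 639631368) (nat_lit 12155093038) (.two (nat_lit 10343153668) (nat_lit 9799991626) (.two (nat_lit 165532401667) (nat_lit 1914701018) (.two (nat_lit 2097153) (nat_lit 8391418) (.two (nat_lit 2097152) (nat_lit 8392810) (.one (nat_lit 2102853) .nil))))),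
   .two (nat_lit 10370416648) (nat_lit 156532473902) (.two (nat_lit 158144135172) (nat_lit 157035790518) (.two (nat_lit 1277165570) (nat_lit 1050261) (.two (nat_lit 34603009) (nat_lit 159251435482) (.one (nat_lit 156532479154) .nil)))),
   .two (nat_lit 1358954504) (nat_lit 2416967717) (.two (nat_lit 1358954500) (nat_lit 1913651586) (.two (nat_lit 9765388291) (nat_lit 1426065571) (.two (nat_lit 1048576) (nat_lit 10385100051) (.one (nat_lit 16783520) .nil)))),
   .two (nat_lit 158083317768) (nat_lit 19596837183) (.two (nat_lit 13187940355) (nat_lit 159224169151) (.two (nat_lit 2097153) (nat_lit 9974057243) (.two (nat_lit 2097152) (nat_lit 1052779) (.one (nat_lit 1054881) .nil)))),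
   .two (nat_lit 1343225864) (nat_lit 13195280422) (.two (nat_lit 21777874948) (nat_lit 880804280) (.two (nat_lit 41943041) (nat_lit 156465368875) (.one (nat_lit 8393939) .nil))),
   .two (nat_lit 50331656) (nat_lit 28764536878) (.two (nat_lit 276824068) (nat_lit 184550079) (.two (nat_lit 8388609) (nat_lit 1224740118) (.one (nat_lit 11476668891) .nil))),
   .two (nat_lit 101711880) (nat_lit 165528207426) (.two (nat_lit 28693233668) (nat_lit 156532474203) (.two (nat_lit 605028355) (nat_lit 10007609783) (.two (nat_lit 4194305) (nat_lit 10443818523) (.two (nat_lit 8388608) (nat_lit 1052730) (.one (nat_lit 4200610) .nil))))),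
   .two (nat_lit 654311432) (nat_lit 1948254254) (.two (nat_lit 10336862212) (nat_lit 654311492) (.two (nat_lit 3458203651) (nat_lit 9948889781) (.two (nat_lit 2097153) (nat_lit 166144773397) (.one (nat_lit 16783523) .nil)))),
   .two (nat_lit 11543773192) (nat_lit 706740272) (.two (nat_lit 21208498180) (nat_lit 1947205812) (.two (nat_lit 20638072834) (nat_lit 159250384046) (.two (nat_lit 605028353) (nat_lit 69208814) (.two (nat_lit 1048576) (nat_lit 10370420834) (.one (nat_lit 1054885) .nil))))),
   .two (nat_lit 9768534024) (nat_lit 10385096747) (.two (nat_lit 9768534020) (nat_lit 16777726) (.two (nat_lit 285212675) (nat_lit 11580474914) (.two (nat_lit 16777216) (nat_lit 10540288512) (.one (nat_lit 16783527) .nil)))),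
   .two (nat_lit 203423752) (nat_lit 2432696367) (.two (nat_lit 9948889092) (nat_lit 2954887986) (.two (nat_lit 16777216) (nat_lit 156567080277) (.one (nat_lit 2103464) .nil))),
   .two (nat_lit 3525312520) (nat_lit 11610882096) (.two (nat_lit 41943044) (nat_lit 28757197299) (.two (nat_lit 102760451) (nat_lit 1175454840) (.two (nat_lit 8388609) (nat_lit 1051388) (.two (nat_lit 8388608) (nat_lit 1052783) (.one (nat_lit 8394316) .nil))))),
   .two (nat_lit 809500680) (nat_lit 721420467) (.two (nat_lit 822083587) (nat_lit 20740833996) (.two (nat_lit 4194305) (nat_lit 185035917490) (.two (nat_lit 4194304) (nat_lit 16781424) (.one (nat_lit 3560969477) .nil)))),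
   .two (nat_lit 9934209032) (nat_lit 19599982678) (.two (nat_lit 705691652) (nat_lit 1916797107) (.two (nat_lit 2097155) (nat_lit 19029558391) (.two (nat_lit 2097153) (nat_lit 46409976012) (.two (nat_lit 1048576) (nat_lit 4198513) (.one (nat_lit 1054285) .nil))))),
   .two (nat_lit 272629768) (nat_lit 11584667707) (.two (nat_lit 2887778308) (nat_lit 339738973) (.two (nat_lit 171966467) (nat_lit 10370417847) (.two (nat_lit 612368385) (nat_lit 21814577348) (.two (nat_lit 4194304) (nat_lit 2102048) (.one (nat_lit 4200618) .nil))))),
   .two (nat_lit 11559501832) (nat_lit 310378533) (.two (nat_lit 721420292) (nat_lit 1283457734) (.two (nat_lit 41943041) (nat_lit 11492395216) (.two (nat_lit 1048576) (nat_lit 47588577017) (.one (nat_lit 16783531) .nil)))),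
   .two (nat_lit 20644364296) (nat_lit 706740414) (.two (nat_lit 10336862212) (nat_lit 1182793910) (.two (nat_lit 3458203651) (nat_lit 19537068783) (.two (nat_lit 2097153) (nat_lit 158150430057) (.one (nat_lit 8394924) .nil)))),
   .two (nat_lit 2954887176) (nat_lit 608174164) (.two (nat_lit 203423748) (nat_lit 19130220820) (.two (nat_lit 3525312515) (nat_lit 809501454) (.two (nat_lit 9766436865) (nat_lit 4197117) (.two (nat_lit 4194304) (nat_lit 2102049) (.one (nat_lit 2101900) .nil))))),
   .two (nat_lit 101711880) (nat_lit 1753219251) (.two (nat_lit 739246083) (nat_lit 612370584) (.two (nat_lit 1048576) (nat_lit 176164153) (.one (nat_lit 4605350474) .nil))),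
   .two (nat_lit 2889875464) (nat_lit 3525312538) (.two (nat_lit 9768534020) (nat_lit 46474985651) (.two (nat_lit 4601151491) (nat_lit 337642646) (.two (nat_lit 4194305) (nat_lit 3558869198) (.two (nat_lit 4194304) (nat_lit 2102050) (.one (nat_lit 4200621) .nil))))),
   .two (nat_lit 46407876616) (nat_lit 1753219113) (.two (nat_lit 28093448196) (nat_lit 10369368430) (.two (nat_lit 1753219075) (nat_lit 10369369230) (.two (nat_lit 612368385) (nat_lit 11510222133) (.one (nat_lit 1054288) .nil)))),
   .two (nat_lit 46409973768) (nat_lit 46474985498) (.two (nat_lit 10338959364) (nat_lit 46474985911) (.two (nat_lit 620756993) (nat_lit 21778925090) (.two (nat_lit 4194304) (nat_lit 2100634) (.one (nat_lit 2102865) .nil)))),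
   .two (nat_lit 272629768) (nat_lit 3464495147) (.two (nat_lit 4605345796) (nat_lit 3527410365) (.two (nat_lit 4194305) (nat_lit 37253810700) (.one (nat_lit 8394559) .nil))),
   .two (nat_lit 16777224) (nat_lit 12054429739) (.two (nat_lit 9906946054) (nat_lit 16777656) (.two (nat_lit 612368385) (nat_lit 19042142709) (.one (nat_lit 1392513579) .nil))),
   .two (nat_lit 28758245384) (nat_lit 873463990) (.two (nat_lit 1277165570) (nat_lit 101712623) (.two (nat_lit 606076929) (nat_lit 2416971113) (.one (nat_lit 1054290) .nil))),
   .two (nat_lit 11543773192) (nat_lit 19134414896) (.two (nat_lit 184986632196) (nat_lit 880803908) (.two (nat_lit 1343225859) (nat_lit 1786775189) (.two (nat_lit 34603009) (nat_lit 880806169) (.two (nat_lit 1048576) (nat_lit 8393507) (.one (nat_lit 10000274996) .nil))))),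
   .two (nat_lit 47548727304) (nat_lit 1417674795) (.two (nat_lit 158083317764) (nat_lit 9967763896) (.two (nat_lit 8388609) (nat_lit 606079488) (.one (nat_lit 2103470) .nil))),
   .two (nat_lit 2969567240) (nat_lit 2353004591) (.two (nat_lit 37748740) (nat_lit 788530321) (.two (nat_lit 606076929) (nat_lit 4647291034) (.two (nat_lit 2097152) (nat_lit 37752739) (.one (nat_lit 4200625) .nil)))),
   .two (nat_lit 9934209032) (nat_lit 21207449627) (.two (nat_lit 20738736134) (nat_lit 46406828216) (.two (nat_lit 1277165571) (nat_lit 9798943433) (.two (nat_lit 2097153) (nat_lit 156566032308) (.one (nat_lit 235935007) .nil)))),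
   .two (nat_lit 47555018779) (nat_lit 19599982635) (.two (nat_lit 156367847432) (nat_lit 159224169265) (.two (nat_lit 4194305) (nat_lit 12155097548) (.one (nat_lit 4601157217) .nil))),
   .two (nat_lit 184993972248) (nat_lit 28772925488) (.two (nat_lit 83886088) (nat_lit 11584667716) (.two (nat_lit 75497476) (nat_lit 1358955313) (.two (nat_lit 41943041) (nat_lit 3472886262) (.two (nat_lit 2097152) (nat_lit 156539818444) (.one (nat_lit 159232563395) .nil))))),
   .two (nat_lit 11559501849) (nat_lit 310378533) (.two (nat_lit 285212680) (nat_lit 11517559088) (.two (nat_lit 50331652) (nat_lit 10947134175) (.two (nat_lit 721420290) (nat_lit 12047091246) (.two (nat_lit 41943041) (nat_lit 4598010404) (.one (nat_lit 1343232189) .nil))))),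
   .two (nat_lit 2416967707) (nat_lit 11626610739) (.two (nat_lit 184549384) (nat_lit 183920230695) (.two (nat_lit 28772925444) (nat_lit 37246468535) (.two (nat_lit 8388611) (nat_lit 183861512703) (.two (nat_lit 1048576) (nat_lit 9873396182) (.one (nat_lit 1055250) .nil))))),
   .two (nat_lit 822083611) (nat_lit 21785215055) (.two (nat_lit 11492392968) (nat_lit 20638073201) (.two (nat_lit 754974724) (nat_lit 166237045479) (.two (nat_lit 20638072835) (nat_lit 46514833555) (.two (nat_lit 8388609) (nat_lit 1426066693) (.two (nat_lit 16777216) (nat_lit 28764541409) (.one (nat_lit 20644370636) .nil)))))),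
   .two (nat_lit 10913579035) (nat_lit 3036676176) (.two (nat_lit 822083592) (nat_lit 159224168516) (.two (nat_lit 612368388) (nat_lit 165540791001) (.two (nat_lit 1291845635) (nat_lit 1746929189) (.two (nat_lit 16777217) (nat_lit 874515683) (.two (nat_lit 2097152) (nat_lit 16782483) (.one (nat_lit 2103827) .nil)))))),
   .two (nat_lit 28758245403) (nat_lit 159219974196) (.two (nat_lit 19532873736) (nat_lit 874512566) (.two (nat_lit 184423546884) (nat_lit 28693234104) (.two (nat_lit 11484004355) (nat_lit 4196567) (.two (nat_lit 156367847425) (nat_lit 3021999327) (.two (nat_lit 4194304) (nat_lit 47548731931) (.one (nat_lit 4200980) .nil)))))),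
   .two (nat_lit 11559501849) (nat_lit 2994733093) (.two (nat_lit 2969567240) (nat_lit 1317011760) (.two (nat_lit 620756996) (nat_lit 4638900962) (.two (nat_lit 174752530435) (nat_lit 1350567463) (.two (nat_lit 612368385) (nat_lit 21777878252) (.two (nat_lit 1048576) (nat_lit 11484008905) (.one (nat_lit 16783893) .nil)))))),
   .two (nat_lit 184549403) (nat_lit 13195280411) (.two (nat_lit 183853121544) (nat_lit 158662131897) (.two (nat_lit 183853121540) (nat_lit 16777655) (.two (nat_lit 183853121538) (nat_lit 1392510510) (.two (nat_lit 41943041) (nat_lit 10955524610) (.two (nat_lit 8388608) (nat_lit 16781881) (.one (nat_lit 813701370) .nil)))))),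
   .two (nat_lit 285212698) (nat_lit 166132187162) (.two (nat_lit 166132187144) (nat_lit 822084402) (.two (nat_lit 9768534017) (nat_lit 185002364381) (.one (nat_lit 1782585532) .nil))),
   .two (nat_lit 11559501848) (nat_lit 4194367) (.two (nat_lit 117440520) (nat_lit 2956984630) (.two (nat_lit 46980399108) (nat_lit 9982444233) (.two (nat_lit 708837379) (nat_lit 1358955313) (.two (nat_lit 37748737) (nat_lit 46422559236) (.two (nat_lit 2097152) (nat_lit 608178659) (.one (nat_lit 21223184656) .nil)))))),
   .two (nat_lit 2969567256) (nat_lit 12617515066) (.two (nat_lit 10385096712) (nat_lit 21811429690) (.two (nat_lit 46407876612) (nat_lit 19109249772) (.two (nat_lit 46978301955) (nat_lit 1175455258) (.two (nat_lit 2097153) (nat_lit 185023334905) (.two (nat_lit 2097152) (nat_lit 1346376152) (.one (nat_lit 2103830) .nil)))))),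
   .two (nat_lit 176160795) (nat_lit 2902458410) (.two (nat_lit 218103816) (nat_lit 20711473893) (.two (nat_lit 2969567235) (nat_lit 19033753132) (.two (nat_lit 16777217) (nat_lit 20711475704) (.two (nat_lit 16777216) (nat_lit 11618226735) (.one (nat_lit 8395287) .nil))))),
   .two (nat_lit 2969567256) (nat_lit 1847591092) (.two (nat_lit 21208498180) (nat_lit 654312118) (.two (nat_lit 158144135171) (nat_lit 654312979) (.two (nat_lit 16777217) (nat_lit 28087160042) (.two (nat_lit 2097152) (nat_lit 285217326) (.one (nat_lit 1344280881) .nil))))),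
   .two (nat_lit 11559501850) (nat_lit 672137280) (.two (nat_lit 21207449608) (nat_lit 4043309238) (.two (nat_lit 21207449604) (nat_lit 1358954936) (.two (nat_lit 158143086595) (nat_lit 251659806) (.two (nat_lit 605028353) (nat_lit 46992984571) (.two (nat_lit 1048576) (nat_lit 1191186955) (.one (nat_lit 16783896) .nil)))))),
   .two (nat_lit 1753219099) (nat_lit 184549419) (.two (nat_lit 158083317768) (nat_lit 20719862486) (.two (nat_lit 21785214979) (nat_lit 13237225628) (.two (nat_lit 16777217) (nat_lit 1182797026) (.two (nat_lit 8388608) (nat_lit 28101841387) (.one (nat_lit 16783897) .nil))))),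
   .two (nat_lit 4634705945) (nat_lit 11492393000) (.two (nat_lit 11492392968) (nat_lit 13224640951) (.two (nat_lit 822083587) (nat_lit 158146233903) (.two (nat_lit 9781116929) (nat_lit 1312821735) (.one (nat_lit 4200986) .nil)))),
   .two (nat_lit 339738649) (nat_lit 28772925497) (.two (nat_lit 4194312) (nat_lit 169869494) (.two (nat_lit 184423546884) (nat_lit 11614028480) (.two (nat_lit 183853121538) (nat_lit 174685424131) (.two (nat_lit 8388608) (nat_lit 11010052585) (.one (nat_lit 159266118017) .nil))))),
   .two (nat_lit 3036676123) (nat_lit 4194391) (.two (nat_lit 165526110216) (nat_lit 46510637814) (.two (nat_lit 10343153667) (nat_lit 183846831680) (.two (nat_lit 606076929) (nat_lit 3028292085) (.one (nat_lit 2103835) .nil)))),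
   .two (nat_lit 117440539) (nat_lit 843055162) (.two (nat_lit 11492392968) (nat_lit 174688567666) (.two (nat_lit 606076932) (nat_lit 10519315167) (.two (nat_lit 169869314) (nat_lit 13228836386) (.two (nat_lit 37748737) (nat_lit 169871866) (.two (nat_lit 4194304) (nat_lit 156539819046) (.one (nat_lit 11479816391) .nil)))))),
   .two (nat_lit 9974054939) (nat_lit 772800554) (.two (nat_lit 20644364296) (nat_lit 2416967958) (.two (nat_lit 20644364292) (nat_lit 2416968119) (.two (nat_lit 159224168451) (nat_lit 159250384418) (.two (nat_lit 612368385) (nat_lit 1209010688) (.two (nat_lit 8388608) (nat_lit 68162025) (.one (nat_lit 1055260) .nil)))))),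
   .two (nat_lit 310378522) (nat_lit 2365587502) (.two (nat_lit 50331656) (nat_lit 174759871171) (.two (nat_lit 8388610) (nat_lit 822084401) (.two (nat_lit 2097153) (nat_lit 166203494860) (.one (nat_lit 270538337) .nil)))),
   .two (nat_lit 3527409688) (nat_lit 9798942761) (.two (nat_lit 166132187144) (nat_lit 19042140465) (.two (nat_lit 11492392964) (nat_lit 21207450039) (.two (nat_lit 12047089667) (nat_lit 37750296) (.two (nat_lit 34603009) (nat_lit 4196878) (.two (nat_lit 4194304) (nat_lit 3557823015) (.one (nat_lit 9768540555) .nil)))))),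
   .two (nat_lit 822083611) (nat_lit 10909384768) (.two (nat_lit 46980399112) (nat_lit 11492393399) (.two (nat_lit 3527409667) (nat_lit 10921969181) (.two (nat_lit 4194305) (nat_lit 50334195) (.two (nat_lit 4194304) (nat_lit 46422561261) (.one (nat_lit 19096672636) .nil))))),
   .two (nat_lit 16777240) (nat_lit 847249476) (.two (nat_lit 184549380) (nat_lit 10001318329) (.two (nat_lit 8388610) (nat_lit 117442702) (.two (nat_lit 8388609) (nat_lit 10940844544) (.two (nat_lit 2097152) (nat_lit 165540794844) (.one (nat_lit 2103487) .nil))))),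
   .two (nat_lit 157036838939) (nat_lit 11546918969) (.two (nat_lit 16777224) (nat_lit 69206197) (.two (nat_lit 184549380) (nat_lit 69206764) (.two (nat_lit 1344274435) (nat_lit 3539994155) (.two (nat_lit 16777217) (nat_lit 10540288500) (.two (nat_lit 16777216) (nat_lit 272634333) (.one (nat_lit 1413486939) .nil)))))),
   .two (nat_lit 183853121561) (nat_lit 9881780265) (.two (nat_lit 1358954506) (nat_lit 46414168244) (.two (nat_lit 83886084) (nat_lit 18933089815) (.two (nat_lit 41943041) (nat_lit 46422559224) (.two (nat_lit 8388608) (nat_lit 16781882) (.one (nat_lit 8395293) .nil))))),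
   .two (nat_lit 183912890393) (nat_lit 10351542334) (.two (nat_lit 157038936072) (nat_lit 19596836932) (.two (nat_lit 12114198532) (nat_lit 166211879665) (.two (nat_lit 46409973762) (nat_lit 19109250599) (.two (nat_lit 4194305) (nat_lit 1052501) (.two (nat_lit 4194304) (nat_lit 1053844) (.one (nat_lit 4200990) .nil)))))),
   .two (nat_lit 285212697) (nat_lit 184419352603) (.two (nat_lit 12117344264) (nat_lit 285213371) (.two (nat_lit 11479810050) (nat_lit 11492395504) (.two (nat_lit 4194304) (nat_lit 3003125213) (.one (nat_lit 10921973957) .nil)))),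
   .two (nat_lit 3003121690) (nat_lit 1310720025) (.two (nat_lit 9948889096) (nat_lit 46508540089) (.two (nat_lit 4194308) (nat_lit 158662132447) (.two (nat_lit 9934209027) (nat_lit 11510220970) (.two (nat_lit 9766436865) (nat_lit 1950353922) (.two (nat_lit 1048576) (nat_lit 11546923525) (.one (nat_lit 37755085) .nil)))))),
   .two (nat_lit 16777243) (nat_lit 12624855088) (.two (nat_lit 9881780232) (nat_lit 1049017) (.two (nat_lit 2894069763) (nat_lit 2969569778) (.two (nat_lit 1048576) (nat_lit 11525950940) (.one (nat_lit 101718280) .nil)))),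
   .two (nat_lit 754974747) (nat_lit 9899606058) (.two (nat_lit 21207449608) (nat_lit 11559502263) (.two (nat_lit 158143086595) (nat_lit 46992983577) (.two (nat_lit 605028353) (nat_lit 721422834) (.two (nat_lit 1048576) (nat_lit 1291850259) (.one (nat_lit 16782963) .nil))))),
   .two (nat_lit 156465365017) (nat_lit 158144135210) (.two (nat_lit 156968681480) (nat_lit 20738736568) (.two (nat_lit 1745879043) (nat_lit 18926798362) (.two (nat_lit 605028353) (nat_lit 13188992229) (.two (nat_lit 1048576) (nat_lit 2102421) (.one (nat_lit 18926803198) .nil))))),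
   .two (nat_lit 21785215003) (nat_lit 1048655) (.two (nat_lit 21785214984) (nat_lit 10504634548) (.two (nat_lit 46407876612) (nat_lit 2961179352) (.two (nat_lit 11476664322) (nat_lit 4632610332) (.two (nat_lit 9765388289) (nat_lit 47588577109) (.two (nat_lit 1048576) (nat_lit 8393878) (.one (nat_lit 1055264) .nil)))))),
   .two (nat_lit 12117344280) (nat_lit 158646403099) (.two (nat_lit 28757196808) (nat_lit 19599982660) (.two (nat_lit 28757196804) (nat_lit 19599983409) (.two (nat_lit 605028353) (nat_lit 708839931) (.two (nat_lit 1048576) (nat_lit 4197853) (.one (nat_lit 4200993) .nil))))),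
   .two (nat_lit 3539992601) (nat_lit 3527409702) (.two (nat_lit 46984593416) (nat_lit 184989778282) (.two (nat_lit 9781116932) (nat_lit 1410335471) (.two (nat_lit 11492392963) (nat_lit 18928895526) (.two (nat_lit 156364701697) (nat_lit 1413483020) (.two (nat_lit 1048576) (nat_lit 4199575) (.one (nat_lit 1055266) .nil)))))),
   .two (nat_lit 3525312536) (nat_lit 159224168489) (.two (nat_lit 20644364296) (nat_lit 46474986290) (.two (nat_lit 2097153) (nat_lit 10007612756) (.two (nat_lit 2097152) (nat_lit 156472709634) (.one (nat_lit 2103843) .nil)))),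
   .two (nat_lit 46474985498) (nat_lit 10939793435) (.two (nat_lit 10504634376) (nat_lit 839909562) (.two (nat_lit 10504634372) (nat_lit 168821468) (.two (nat_lit 2887778306) (nat_lit 269486273) (.two (nat_lit 9766436865) (nat_lit 158075981080) (.two (nat_lit 2097152) (nat_lit 184986636814) (.one (nat_lit 2350913779) .nil)))))),
   .two (nat_lit 21207449626) (nat_lit 46984593456) (.two (nat_lit 3460300808) (nat_lit 165532402103) (.two (nat_lit 171966467) (nat_lit 158183983266) (.two (nat_lit 37748737) (nat_lit 8392534) (.two (nat_lit 1048576) (nat_lit 8393880) (.one (nat_lit 8395300) .nil))))),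
   .two (nat_lit 28758245403) (nat_lit 158083317825) (.two (nat_lit 10940841992) (nat_lit 8388994) (.two (nat_lit 10940841988) (nat_lit 1920991673) (.two (nat_lit 174753579011) (nat_lit 156976023097) (.two (nat_lit 9765388289) (nat_lit 4632613317) (.one (nat_lit 2103845) .nil))))),
   .two (nat_lit 16777240) (nat_lit 2097240) (.two (nat_lit 9948889096) (nat_lit 69206384) (.two (nat_lit 184423546884) (nat_lit 10552869600) (.two (nat_lit 183853121539) (nat_lit 19596839424) (.two (nat_lit 8388608) (nat_lit 1053243) (.one (nat_lit 1055270) .nil))))),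
   .two (nat_lit 3464495129) (nat_lit 9900654618) (.two (nat_lit 3464495112) (nat_lit 775946680) (.two (nat_lit 176160771) (nat_lit 10540287522) (.two (nat_lit 4194305) (nat_lit 10376710654) (.two (nat_lit 4194304) (nat_lit 2101820) (.one (nat_lit 11007957286) .nil))))),
   .two (nat_lit 721420315) (nat_lit 28690087980) (.two (nat_lit 754974728) (nat_lit 174752531189) (.two (nat_lit 11476664322) (nat_lit 1862272567) (.two (nat_lit 34603009) (nat_lit 46523223330) (.two (nat_lit 2097152) (nat_lit 1053245) (.one (nat_lit 166129047833) .nil))))),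
   .two (nat_lit 174753579035) (nat_lit 2416967719) (.two (nat_lit 28086108168) (nat_lit 184987681528) (.two (nat_lit 739246083) (nat_lit 337643042) (.two (nat_lit 605028353) (nat_lit 159251436090) (.one (nat_lit 1055271) .nil)))),
   .two (nat_lit 285212698) (nat_lit 19029557274) (.two (nat_lit 285212680) (nat_lit 171966649) (.two (nat_lit 166132187140) (nat_lit 285213366) (.two (nat_lit 10506731523) (nat_lit 285214227) (.two (nat_lit 50331649) (nat_lit 2353007850) (.two (nat_lit 4194304) (nat_lit 721424942) (.one (nat_lit 16783912) .nil)))))),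
   .two (nat_lit 4601151515) (nat_lit 19027460138) (.two (nat_lit 46409973768) (nat_lit 10940842262) (.two (nat_lit 46409973764) (nat_lit 10940842423) (.two (nat_lit 272629763) (nat_lit 2098714) (.two (nat_lit 9768534017) (nat_lit 2887782889) (.one (nat_lit 2103849) .nil))))),
   .two (nat_lit 183853121561) (nat_lit 184419352601) (.two (nat_lit 183853121544) (nat_lit 183916036164) (.two (nat_lit 639631364) (nat_lit 8389335) (.two (nat_lit 708837379) (nat_lit 2927625764) (.two (nat_lit 2097153) (nat_lit 10003417592) (.two (nat_lit 2097152) (nat_lit 8393881) (.one (nat_lit 2103850) .nil)))))),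
   .two (nat_lit 620757019) (nat_lit 19027460140) (.two (nat_lit 83886088) (nat_lit 2097539) (.two (nat_lit 83886084) (nat_lit 2317353680) (.two (nat_lit 2954887171) (nat_lit 174701151773) (.two (nat_lit 620756993) (nat_lit 102765026) (.one (nat_lit 2103851) .nil))))),
   .two (nat_lit 165532401691) (nat_lit 1209008176) (.two (nat_lit 10343153672) (nat_lit 10503586081) (.two (nat_lit 68157444) (nat_lit 1954547229) (.two (nat_lit 4194305) (nat_lit 18933091636) (.two (nat_lit 4194304) (nat_lit 13187944938) (.one (nat_lit 8395308) .nil))))),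
   .two (nat_lit 158144135195) (nat_lit 12617515052) (.two (nat_lit 101711880) (nat_lit 174753579447) (.two (nat_lit 11476664322) (nat_lit 169870917) (.two (nat_lit 34603009) (nat_lit 166197201417) (.two (nat_lit 1048576) (nat_lit 2101822) (.one (nat_lit 2103853) .nil))))),
   .two (nat_lit 47555018779) (nat_lit 165528207401) (.two (nat_lit 10343153672) (nat_lit 1279263020) (.two (nat_lit 285212676) (nat_lit 4195476) (.two (nat_lit 16777218) (nat_lit 339740808) (.two (nat_lit 4194305) (nat_lit 1954548228) (.two (nat_lit 4194304) (nat_lit 8393279) (.one (nat_lit 4201006) .nil)))))),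
   .two (nat_lit 184993972250) (nat_lit 1846542363) (.two (nat_lit 158143086600) (nat_lit 174692762376) (.two (nat_lit 1276116994) (nat_lit 41944641) (.two (nat_lit 605028353) (nat_lit 165532405048) (.two (nat_lit 16777216) (nat_lit 165525066270) (.one (nat_lit 1055279) .nil))))),
   .two (nat_lit 46407876633) (nat_lit 2923429927) (.two (nat_lit 4613734408) (nat_lit 47550824806) (.two (nat_lit 205520900) (nat_lit 28705817287) (.two (nat_lit 11546918915) (nat_lit 20704134719) (.two (nat_lit 16777217) (nat_lit 9765391698) (.two (nat_lit 16777216) (nat_lit 1053850) (.one (nat_lit 2103856) .nil)))))),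
   .two (nat_lit 183928619034) (nat_lit 183912890395) (.two (nat_lit 754974728) (nat_lit 606077257) (.two (nat_lit 3539992580) (nat_lit 165526110965) (.two (nat_lit 41943043) (nat_lit 2954888755) (.two (nat_lit 612368385) (nat_lit 10452210193) (.one (nat_lit 8395313) .nil))))),
   .two (nat_lit 612368411) (nat_lit 20740833463) (.two (nat_lit 713031684) (nat_lit 47584379615) (.two (nat_lit 41943043) (nat_lit 174688569548) (.two (nat_lit 620756993) (nat_lit 679481906) (.one (nat_lit 8395314) .nil)))),
   .two (nat_lit 9934209051) (nat_lit 37253808185) (.two (nat_lit 1277165576) (nat_lit 37320917288) (.two (nat_lit 46984593412) (nat_lit 156365750980) (.two (nat_lit 1343225859) (nat_lit 21214791883) (.two (nat_lit 605028353) (nat_lit 11511271883) (.one (nat_lit 1055283) .nil))))),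
   .two (nat_lit 285212696) (nat_lit 13191086107) (.two (nat_lit 183848927240) (nat_lit 37329306384) (.two (nat_lit 13191086083) (nat_lit 16779480) (.two (nat_lit 156372041729) (nat_lit 20707283400) (.one (nat_lit 1279269407) .nil)))),
   .two (nat_lit 4601151512) (nat_lit 1417674791) (.two (nat_lit 713031688) (nat_lit 12150899426) (.two (nat_lit 41943043) (nat_lit 159253531142) (.two (nat_lit 8388608) (nat_lit 4199579) (.one (nat_lit 28697434550) .nil)))),
   .two (nat_lit 12163481627) (nat_lit 46409973804) (.two (nat_lit 184549384) (nat_lit 156969730418) (.two (nat_lit 822083588) (nat_lit 174688568053) (.two (nat_lit 1344274435) (nat_lit 28806481444) (.two (nat_lit 9766436865) (nat_lit 158146234870) (.two (nat_lit 2097152) (nat_lit 1279267310) (.one (nat_lit 16783924) .nil)))))),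
   .two (nat_lit 9934209051) (nat_lit 184423547064) (.two (nat_lit 1277165572) (nat_lit 8389781) (.two (nat_lit 9934209027) (nat_lit 1384122522) (.two (nat_lit 605028353) (nat_lit 157036843570) (.one (nat_lit 2103863) .nil)))),
   .two (nat_lit 183853121562) (nat_lit 156968681521) (.two (nat_lit 169869320) (nat_lit 166203490642) (.two (nat_lit 11543773188) (nat_lit 158150427351) (.two (nat_lit 21777874947) (nat_lit 174759872051) (.two (nat_lit 605028353) (nat_lit 20745030138) (.two (nat_lit 8388608) (nat_lit 165525066207) (.one (nat_lit 1055288) .nil)))))),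
   .two (nat_lit 9974054939) (nat_lit 46508539952) (.two (nat_lit 18933088264) (nat_lit 10003415828) (.two (nat_lit 708837379) (nat_lit 1753219889) (.two (nat_lit 37748737) (nat_lit 11484006907) (.two (nat_lit 2097152) (nat_lit 813699575) (.one (nat_lit 8395322) .nil))))),
   .two (nat_lit 10907287579) (nat_lit 16777306) (.two (nat_lit 1358954504) (nat_lit 9966715175) (.two (nat_lit 705691652) (nat_lit 184550079) (.two (nat_lit 34603011) (nat_lit 16779482) (.two (nat_lit 605028353) (nat_lit 11544826322) (.one (nat_lit 1055293) .nil))))),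
   .two (nat_lit 19027460121) (nat_lit 165540790324) (.two (nat_lit 218103816) (nat_lit 3021996217) (.two (nat_lit 16777220) (nat_lit 166237045445) (.two (nat_lit 8388610) (nat_lit 9781117746) (.two (nat_lit 606076929) (nat_lit 156573372936) (.one (nat_lit 8395326) .nil))))),
   .two (nat_lit 4605345817) (nat_lit 2365587502) (.two (nat_lit 50331656) (nat_lit 20745028367) (.two (nat_lit 8388610) (nat_lit 822084401) (.two (nat_lit 612368385) (nat_lit 10001320441) (.two (nat_lit 2097152) (nat_lit 166203494860) (.one (nat_lit 2103871) .nil))))),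
   .two (nat_lit 47563407385) (nat_lit 20738736169) (.two (nat_lit 3460300808) (nat_lit 840958717) (.two (nat_lit 721420291) (nat_lit 1050816) (.two (nat_lit 16777217) (nat_lit 1051959) (.two (nat_lit 1048576) (nat_lit 16782497) (.one (nat_lit 10906245435) .nil))))),
   .two (nat_lit 28693233691) (nat_lit 679477299) (.two (nat_lit 8388616) (nat_lit 10909384993) (.two (nat_lit 813694980) (nat_lit 1916797367) (.two (nat_lit 1344274435) (nat_lit 10007610903) (.two (nat_lit 8388609) (nat_lit 165528209908) (.two (nat_lit 2097152) (nat_lit 165528212003) (.one (nat_lit 2103872) .nil)))))),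
   .two (nat_lit 11559501850) (nat_lit 11006902336) (.two (nat_lit 1846542344) (nat_lit 11559501892) (.two (nat_lit 1846542340) (nat_lit 1358955314) (.two (nat_lit 9765388289) (nat_lit 1358957041) (.two (nat_lit 1048576) (nat_lit 16781889) (.one (nat_lit 46507497689) .nil))))),
   .two (nat_lit 11559501851) (nat_lit 12047089715) (.two (nat_lit 10343153672) (nat_lit 10015998300) (.two (nat_lit 174752530436) (nat_lit 166144770817) (.two (nat_lit 638582787) (nat_lit 10385099251) (.two (nat_lit 8388608) (nat_lit 12062822863) (.one (nat_lit 209721563) .nil))))),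
   .two (nat_lit 174752530459) (nat_lit 4613734448) (.two (nat_lit 620757000) (nat_lit 20711473447) (.two (nat_lit 3464495108) (nat_lit 12633244370) (.two (nat_lit 47555018755) (nat_lit 184431937073) (.two (nat_lit 8388609) (nat_lit 10921970966) (.two (nat_lit 8388608) (nat_lit 168825298) (.one (nat_lit 8395329) .nil)))))),
   .two (nat_lit 20644364313) (nat_lit 721420326) (.two (nat_lit 83886088) (nat_lit 9772729075) (.two (nat_lit 612368387) (nat_lit 2969569777) (.two (nat_lit 8388608) (nat_lit 156548207117) (.one (nat_lit 159257729257) .nil)))),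
   .two (nat_lit 16777240) (nat_lit 47555018796) (.two (nat_lit 3464495112) (nat_lit 156548203210) (.two (nat_lit 47555018755) (nat_lit 620757810) (.two (nat_lit 8388609) (nat_lit 620759537) (.two (nat_lit 8388608) (nat_lit 16781890) (.one (nat_lit 20711479676) .nil))))),
   .two (nat_lit 9781116955) (nat_lit 10007609381) (.two (nat_lit 612368392) (nat_lit 1191182775) (.two (nat_lit 176160771) (nat_lit 10351543832) (.two (nat_lit 8388609) (nat_lit 159266116132) (.one (nat_lit 3472890642) .nil)))),
   .two (nat_lit 184986632216) (nat_lit 9781116969) (.two (nat_lit 184986632200) (nat_lit 654311702) (.two (nat_lit 117440516) (nat_lit 135267121) (.two (nat_lit 34603009) (nat_lit 788531707) (.two (nat_lit 1048576) (nat_lit 9881784843) (.one (nat_lit 1055299) .nil))))),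
   .two (nat_lit 16777240) (nat_lit 9768534069) (.two (nat_lit 16777224) (nat_lit 158079123837) (.two (nat_lit 16777220) (nat_lit 10510926567) (.two (nat_lit 20644364290) (nat_lit 9869198896) (.two (nat_lit 4194305) (nat_lit 813698301) (.two (nat_lit 4194304) (nat_lit 2894074310) (.one (nat_lit 8395332) .nil)))))),
   .two (nat_lit 2988441626) (nat_lit 9881780262) (.two (nat_lit 47548727304) (nat_lit 1358954564) (.two (nat_lit 1291845636) (nat_lit 673186609) (.two (nat_lit 2097153) (nat_lit 2936015350) (.two (nat_lit 16777216) (nat_lit 69210604) (.one (nat_lit 1344280770) .nil))))),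
   .two (nat_lit 11551113241) (nat_lit 185020186664) (.two (nat_lit 713031688) (nat_lit 37247516854) (.two (nat_lit 12114198532) (nat_lit 2921333534) (.two (nat_lit 2956984323) (nat_lit 2099420) (.two (nat_lit 4194305) (nat_lit 21207452149) (.two (nat_lit 1048576) (nat_lit 4199587) (.one (nat_lit 1055301) .nil)))))),
   .two (nat_lit 272629784) (nat_lit 2097333) (.two (nat_lit 4194308) (nat_lit 21778924318) (.two (nat_lit 159216828419) (nat_lit 19530778148) (.two (nat_lit 605028353) (nat_lit 1749028071) (.two (nat_lit 1048576) (nat_lit 11578380784) (.one (nat_lit 28089260353) .nil))))),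
   .two (nat_lit 9881780249) (nat_lit 343932970) (.two (nat_lit 41943048) (nat_lit 1795162551) (.two (nat_lit 713031683) (nat_lit 18941478447) (.two (nat_lit 8388609) (nat_lit 183861513440) (.two (nat_lit 8388608) (nat_lit 10921972273) (.one (nat_lit 1283462743) .nil))))),
   .two (nat_lit 4601151512) (nat_lit 158177689648) (.two (nat_lit 4601151496) (nat_lit 1746927926) (.two (nat_lit 4601151492) (nat_lit 136315602) (.two (nat_lit 47550824451) (nat_lit 159251433662) (.two (nat_lit 605028353) (nat_lit 28760345825) (.two (nat_lit 1048576) (nat_lit 10506736161) (.one (nat_lit 1055303) .nil)))))),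
   .two (nat_lit 16777240) (nat_lit 165532401843) (.two (nat_lit 184549380) (nat_lit 11484005150) (.two (nat_lit 159224168451) (nat_lit 16778771) (.two (nat_lit 16777217) (nat_lit 109055201) (.two (nat_lit 8388608) (nat_lit 3036680716) (.one (nat_lit 276830994) .nil))))),
   .two (nat_lit 721420314) (nat_lit 2097243) (.two (nat_lit 11559501832) (nat_lit 1913651995) (.two (nat_lit 166130089987) (nat_lit 156532475420) (.two (nat_lit 2097153) (nat_lit 156968684867) (.two (nat_lit 2097152) (nat_lit 1053252) (.one (nat_lit 1055306) .nil))))),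
   .two (nat_lit 772800537) (nat_lit 239075376) (.two (nat_lit 46407876616) (nat_lit 1212154295) (.two (nat_lit 806354947) (nat_lit 185023334562) (.two (nat_lit 9765388289) (nat_lit 1178602743) (.two (nat_lit 2097152) (nat_lit 4199593) (.one (nat_lit 4201035) .nil))))),
   .two (nat_lit 9948889115) (nat_lit 4028629031) (.two (nat_lit 47548727304) (nat_lit 10385097143) (.two (nat_lit 169869314) (nat_lit 9781119475) (.two (nat_lit 2097152) (nat_lit 12062822974) (.one (nat_lit 9766443361) .nil)))),
   .two (nat_lit 754974745) (nat_lit 12617515035) (.two (nat_lit 12114198536) (nat_lit 9881780926) (.two (nat_lit 11476664322) (nat_lit 11492395506) (.two (nat_lit 1048576) (nat_lit 20652756446) (.one (nat_lit 3472889443) .nil)))),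
   .two (nat_lit 754974746) (nat_lit 19026411568) (.two (nat_lit 10336862216) (nat_lit 159266111836) (.two (nat_lit 1745879044) (nat_lit 10921968324) (.two (nat_lit 2097155) (nat_lit 721422835) (.two (nat_lit 2097152) (nat_lit 158662135264) (.one (nat_lit 21223184595) .nil))))),
   .two (nat_lit 339738650) (nat_lit 3028287514) (.two (nat_lit 169869320) (nat_lit 156472705207) (.two (nat_lit 37748740) (nat_lit 19100861124) (.two (nat_lit 8388611) (nat_lit 1846544550) (.two (nat_lit 606076929) (nat_lit 1279266106) (.two (nat_lit 2097152) (nat_lit 205525561) (.one (nat_lit 2103885) .nil)))))),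
   .two (nat_lit 1847590937) (nat_lit 2969567274) (.two (nat_lit 9948889096) (nat_lit 21208498878) (.two (nat_lit 10370416643) (nat_lit 620757809) (.two (nat_lit 2097153) (nat_lit 46992986594) (.one (nat_lit 16783674) .nil)))),
   .two (nat_lit 11559501850) (nat_lit 2416967718) (.two (nat_lit 12114198536) (nat_lit 1358954935) (.two (nat_lit 11476664322) (nat_lit 721422834) (.two (nat_lit 1048576) (nat_lit 159266116088) (.one (nat_lit 1055093) .nil)))),
   .two (nat_lit 16777240) (nat_lit 1178599477) (.two (nat_lit 16777224) (nat_lit 205521209) (.two (nat_lit 50331652) (nat_lit 1920991975) (.two (nat_lit 75497475) (nat_lit 1795164302) (.two (nat_lit 37748737) (nat_lit 276827389) (.two (nat_lit 4194304) (nat_lit 11484008902) (.one (nat_lit 8395342) .nil)))))),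
   .two (nat_lit 11559501849) (nat_lit 11577327641) (.two (nat_lit 822083592) (nat_lit 47584379061) (.two (nat_lit 68157444) (nat_lit 721420982) (.two (nat_lit 9933160451) (nat_lit 1962935844) (.two (nat_lit 4194305) (nat_lit 19026414823) (.two (nat_lit 4194304) (nat_lit 157051523568) (.one (nat_lit 2956990757) .nil)))))),
   .two (nat_lit 47555018779) (nat_lit 158179786798) (.two (nat_lit 156367847432) (nat_lit 1350566601) (.two (nat_lit 2902458370) (nat_lit 1346373149) (.two (nat_lit 4194305) (nat_lit 12121543109) (.one (nat_lit 8395189) .nil)))),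
   .two (nat_lit 8388632) (nat_lit 9881780249) (.two (nat_lit 176160776) (nat_lit 46422556854) (.two (nat_lit 9781116932) (nat_lit 166136382156) (.two (nat_lit 83886083) (nat_lit 10007610899) (.two (nat_lit 16777217) (nat_lit 343936337) (.two (nat_lit 16777216) (nat_lit 8393285) (.one (nat_lit 12062824719) .nil)))))),
   .two (nat_lit 11543773211) (nat_lit 46984593592) (.two (nat_lit 169869316) (nat_lit 11618222774) (.two (nat_lit 169869314) (nat_lit 2927626444) (.two (nat_lit 34603009) (nat_lit 46407881251) (.one (nat_lit 68163993) .nil)))),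
   .two (nat_lit 8388632) (nat_lit 19529728045) (.two (nat_lit 75497480) (nat_lit 156968681754) (.two (nat_lit 11551113220) (nat_lit 184986632935) (.two (nat_lit 2902458370) (nat_lit 20737689770) (.two (nat_lit 2097153) (nat_lit 705696203) (.one (nat_lit 1055314) .nil))))),
   .two (nat_lit 3021996057) (nat_lit 12163481652) (.two (nat_lit 37748744) (nat_lit 185035915610) (.two (nat_lit 169869316) (nat_lit 4195478) (.two (nat_lit 754974723) (nat_lit 183916037683) (.two (nat_lit 605028353) (nat_lit 156569177426) (.two (nat_lit 4194304) (nat_lit 2102447) (.one (nat_lit 4201043) .nil)))))),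
   .two (nat_lit 16777240) (nat_lit 183853121561) (.two (nat_lit 184549384) (nat_lit 209715385) (.two (nat_lit 183853121540) (nat_lit 184550070) (.two (nat_lit 41943043) (nat_lit 16778771) (.two (nat_lit 41943041) (nat_lit 19042143509) (.two (nat_lit 8388608) (nat_lit 83890734) (.one (nat_lit 8395351) .nil)))))),
   .two (nat_lit 285212696) (nat_lit 19532873755) (.two (nat_lit 46980399112) (nat_lit 13237223492) (.two (nat_lit 46980399108) (nat_lit 9781117745) (.two (nat_lit 4194305) (nat_lit 185002364381) (.one (nat_lit 16783960) .nil)))),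
   .two (nat_lit 2969567256) (nat_lit 343932955) (.two (nat_lit 176160776) (nat_lit 2969567300) (.two (nat_lit 184549380) (nat_lit 47555019569) (.two (nat_lit 620756993) (nat_lit 11484006902) (.two (nat_lit 16777216) (nat_lit 28798095857) (.one (nat_lit 37253814467) .nil))))),
   .two (nat_lit 843055131) (nat_lit 47581233198) (.two (nat_lit 18928893960) (nat_lit 4631560485) (.two (nat_lit 18928893956) (nat_lit 2886730455) (.two (nat_lit 1358954499) (nat_lit 202376733) (.two (nat_lit 37748737) (nat_lit 47581235705) (.two (nat_lit 1048576) (nat_lit 21814579701) (.one (nat_lit 339745021) .nil)))))),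
   .two (nat_lit 46409973786) (nat_lit 47555018794) (.two (nat_lit 176160776) (nat_lit 4194693) (.two (nat_lit 176160772) (nat_lit 2923430328) (.two (nat_lit 8388611) (nat_lit 4195911) (.two (nat_lit 8388609) (nat_lit 185023334904) (.two (nat_lit 8388608) (nat_lit 12117348922) (.one (nat_lit 4201050) .nil)))))),
   .two (nat_lit 272629784) (nat_lit 11543773233) (.two (nat_lit 46984593416) (nat_lit 184989778724) (.two (nat_lit 158143086595) (nat_lit 184989779493) (.two (nat_lit 37748737) (nat_lit 2920286724) (.two (nat_lit 1048576) (nat_lit 4198983) (.one (nat_lit 1055325) .nil))))),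
   .two (nat_lit 11559501851) (nat_lit 10544480304) (.two (nat_lit 50331656) (nat_lit 13195280452) (.two (nat_lit 41943044) (nat_lit 822084401) (.two (nat_lit 8388609) (nat_lit 158091708918) (.two (nat_lit 8388608) (nat_lit 687870449) (.one (nat_lit 16783967) .nil))))),
   .two (nat_lit 46477082650) (nat_lit 1392508976) (.two (nat_lit 822083592) (nat_lit 46477082692) (.two (nat_lit 1276116996) (nat_lit 47563408504) (.two (nat_lit 9933160451) (nat_lit 11626612869) (.two (nat_lit 605028353) (nat_lit 171970397) (.two (nat_lit 1048576) (nat_lit 16782518) (.one (nat_lit 1055329) .nil)))))),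
   .two (nat_lit 272629784) (nat_lit 2349858852) (.two (nat_lit 11479810056) (nat_lit 166196150340) (.two (nat_lit 809500676) (nat_lit 3020948211) (.two (nat_lit 809500675) (nat_lit 166196151828) (.two (nat_lit 9768534017) (nat_lit 839912724) (.two (nat_lit 1048576) (nat_lit 47550829614) (.one (nat_lit 1175460168) .nil)))))),
   .two (nat_lit 843055131) (nat_lit 9781116966) (.two (nat_lit 285212680) (nat_lit 11513364920) (.two (nat_lit 13191086083) (nat_lit 50333206) (.two (nat_lit 37748737) (nat_lit 654316085) (.one (nat_lit 4201062) .nil)))),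
   .two (nat_lit 721420313) (nat_lit 310378522) (.two (nat_lit 4605345800) (nat_lit 721420566) (.two (nat_lit 4605345796) (nat_lit 721420727) (.two (nat_lit 8388610) (nat_lit 50333205) (.two (nat_lit 8388609) (nat_lit 185002363392) (.two (nat_lit 8388608) (nat_lit 28772930025) (.one (nat_lit 10376714675) .nil)))))),
   .two (nat_lit 8388632) (nat_lit 1346371645) (.two (nat_lit 41943048) (nat_lit 3527409732) (.two (nat_lit 41943044) (nat_lit 10540286755) (.two (nat_lit 13191086083) (nat_lit 10000270887) (.two (nat_lit 8388609) (nat_lit 3024096524) (.two (nat_lit 1048576) (nat_lit 156976026057) (.one (nat_lit 183953791176) .nil)))))),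
   .two (nat_lit 822083611) (nat_lit 19532873769) (.two (nat_lit 156367847432) (nat_lit 1191182775) (.two (nat_lit 46409973762) (nat_lit 10351544823) (.two (nat_lit 4194304) (nat_lit 16781967) .nil))),
   .two (nat_lit 47555018776) (nat_lit 50331688) (.two (nat_lit 50331656) (nat_lit 10343154481) (.two (nat_lit 8388609) (nat_lit 11492395506) (.two (nat_lit 8388608) (nat_lit 156481098221) (.one (nat_lit 8395370) .nil)))),
   .two (nat_lit 1358954523) (nat_lit 2349858860) (.two (nat_lit 158075977736) (nat_lit 1795162551) (.two (nat_lit 21777874947) (nat_lit 18941479415) (.two (nat_lit 1048576) (nat_lit 158662136301) (.one (nat_lit 1175460036) .nil)))),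
   .two (nat_lit 13224640539) (nat_lit 336592950) (.two (nat_lit 11479810056) (nat_lit 9765388469) (.two (nat_lit 11479810052) (nat_lit 46406828740) (.two (nat_lit 47555018755) (nat_lit 9936307774) (.two (nat_lit 8388609) (nat_lit 165528209919) (.two (nat_lit 1048576) (nat_lit 10947138071) (.one (nat_lit 4201067) .nil)))))),
   .two (nat_lit 4194329) (nat_lit 21785215047) (.two (nat_lit 4194312) (nat_lit 21785215155) (.two (nat_lit 1779433478) (nat_lit 13222544103) (.two (nat_lit 605028355) (nat_lit 156365752530) (.two (nat_lit 4194305) (nat_lit 183846833434) (.two (nat_lit 2097152) (nat_lit 1053886) (.one (nat_lit 1055340) .nil)))))),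
   .two (nat_lit 11577327643) (nat_lit 157051519022) (.two (nat_lit 620757000) (nat_lit 157036839236) (.two (nat_lit 47563407364) (nat_lit 807405124) (.two (nat_lit 2097153) (nat_lit 156548205069) (.two (nat_lit 2097152) (nat_lit 3557822916) (.one (nat_lit 9866058208) .nil))))),
   .two (nat_lit 11559501850) (nat_lit 28690087962) (.two (nat_lit 28690087944) (nat_lit 46489666250) (.two (nat_lit 1913651203) (nat_lit 11559502641) (.two (nat_lit 9765388289) (nat_lit 9982447069) (.one (nat_lit 1055341) .nil)))),
   .two (nat_lit 339738649) (nat_lit 158192369716) (.two (nat_lit 822083592) (nat_lit 1410334899) (.two (nat_lit 272629764) (nat_lit 2098330) (.two (nat_lit 754974723) (nat_lit 20705183283) (.two (nat_lit 37748737) (nat_lit 28791802362) (.two (nat_lit 1048576) (nat_lit 16781897) (.one (nat_lit 2103918) .nil)))))),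
   .two (nat_lit 2988441627) (nat_lit 654311461) (.two (nat_lit 654311432) (nat_lit 807404252) (.two (nat_lit 47548727299) (nat_lit 9881781782) (.two (nat_lit 2097153) (nat_lit 754979394) (.one (nat_lit 2103919) .nil)))),
   .two (nat_lit 306184217) (nat_lit 343932968) (.two (nat_lit 4605345800) (nat_lit 306184631) (.two (nat_lit 8388610) (nat_lit 158649550383) (.two (nat_lit 41943041) (nat_lit 158179791335) (.one (nat_lit 20707285310) .nil)))),
   .two (nat_lit 272629784) (nat_lit 218103834) (.two (nat_lit 218103816) (nat_lit 10338960074) (.two (nat_lit 2969567235) (nat_lit 165528209912) (.two (nat_lit 16777216) (nat_lit 184989782498) (.one (nat_lit 4200940) .nil)))),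
   .two (nat_lit 654311451) (nat_lit 1950351408) (.two (nat_lit 4194312) (nat_lit 1291846071) (.two (nat_lit 605028355) (nat_lit 183861511714) (.two (nat_lit 34603009) (nat_lit 11546923498) (.one (nat_lit 4201078) .nil)))),
   .two (nat_lit 2988441627) (nat_lit 166129041450) (.two (nat_lit 50331656) (nat_lit 1048929) (.two (nat_lit 11559501828) (nat_lit 19127075619) (.two (nat_lit 754974723) (nat_lit 28757198401) (.two (nat_lit 2097153) (nat_lit 2349861376) (.two (nat_lit 16777216) (nat_lit 1053889) (.one (nat_lit 1055351) .nil)))))),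
   .two (nat_lit 2969567258) (nat_lit 2097248) (.two (nat_lit 9948889096) (nat_lit 2418016573) (.two (nat_lit 46407876612) (nat_lit 16778396) (.two (nat_lit 806354947) (nat_lit 16778771) (.two (nat_lit 2097153) (nat_lit 184431938799) (.two (nat_lit 2097152) (nat_lit 16781898) (.one (nat_lit 1055242) .nil)))))),
   .two (nat_lit 12114198554) (nat_lit 21785215017) (.two (nat_lit 21785214984) (nat_lit 183912890808) (.two (nat_lit 184416206851) (nat_lit 11618223638) (.two (nat_lit 34603009) (nat_lit 3028292162) (.one (nat_lit 12047096027) .nil)))),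
   .two (nat_lit 1277165594) (nat_lit 183946444848) (.two (nat_lit 1277165576) (nat_lit 12047089999) (.two (nat_lit 742391812) (nat_lit 165525063237) (.two (nat_lit 37748737) (nat_lit 303041017) (.two (nat_lit 1048576) (nat_lit 157036843547) (.one (nat_lit 2103929) .nil))))),
   .two (nat_lit 2969567256) (nat_lit 236978202) (.two (nat_lit 3458203656) (nat_lit 9948889156) (.two (nat_lit 3458203652) (nat_lit 2969568050) (.two (nat_lit 2097153) (nat_lit 19109252573) (.one (nat_lit 16782965) .nil)))),
   .two (nat_lit 47555018777) (nat_lit 19545456701) (.two (nat_lit 83886088) (nat_lit 10343153732) (.two (nat_lit 185002360836) (nat_lit 185027527384) (.two (nat_lit 19597885443) (nat_lit 9906948323) (.two (nat_lit 156365750273) (nat_lit 352324942) (.two (nat_lit 2097152) (nat_lit 8393928) (.one (nat_lit 2103931) .nil)))))),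
   .two (nat_lit 3464495129) (nat_lit 174686470171) (.two (nat_lit 813694984) (nat_lit 1191182515) (.two (nat_lit 8388612) (nat_lit 2332033796) (.two (nat_lit 50331651) (nat_lit 10947135026) (.two (nat_lit 50331649) (nat_lit 2100560) (.two (nat_lit 2097152) (nat_lit 185002365416) (.one (nat_lit 2103932) .nil)))))),
   .two (nat_lit 654311451) (nat_lit 1847590965) (.two (nat_lit 1191182344) (nat_lit 176161072) (.two (nat_lit 1291845636) (nat_lit 1786774276) (.two (nat_lit 12062818307) (nat_lit 8390793) (.two (nat_lit 156365750273) (nat_lit 10343157048) (.two (nat_lit 2097152) (nat_lit 16782537) (.one (nat_lit 2103933) .nil)))))),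
   .two (nat_lit 11559501850) (nat_lit 1846542362) (.two (nat_lit 11559501832) (nat_lit 605028537) (.two (nat_lit 1846542340) (nat_lit 1358955190) (.two (nat_lit 28757196803) (nat_lit 1358956051) (.two (nat_lit 50331649) (nat_lit 19529731306) (.two (nat_lit 1048576) (nat_lit 50336302) (.one (nat_lit 16783998) .nil)))))),
   .two (nat_lit 11559501849) (nat_lit 3020947642) (.two (nat_lit 11476664324) (nat_lit 822084277) (.two (nat_lit 806354947) (nat_lit 166245435529) (.two (nat_lit 2097153) (nat_lit 3020952102) (.one (nat_lit 1055360) .nil)))),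
   .two (nat_lit 2923429914) (nat_lit 1392508976) (.two (nat_lit 822083592) (nat_lit 28760342866) (.two (nat_lit 46409973764) (nat_lit 174768259513) (.two (nat_lit 4601151491) (nat_lit 50333207) (.two (nat_lit 4194305) (nat_lit 156548205069) (.two (nat_lit 1048576) (nat_lit 12150903258) (.one (nat_lit 168827103) .nil)))))),
   .two (nat_lit 2961178649) (nat_lit 47582281770) (.two (nat_lit 612368392) (nat_lit 174685421750) (.two (nat_lit 47548727300) (nat_lit 166129042159) (.two (nat_lit 2894069763) (nat_lit 46508541479) (.two (nat_lit 2097153) (nat_lit 184416209397) (.two (nat_lit 4194304) (nat_lit 2102474) (.one (nat_lit 2103937) .nil)))))),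
   .two (nat_lit 28757196827) (nat_lit 156365750320) (.two (nat_lit 203423752) (nat_lit 1846542515) (.two (nat_lit 203423748) (nat_lit 1410335433) (.two (nat_lit 2887778306) (nat_lit 2987395210) (.two (nat_lit 612368385) (nat_lit 9899609358) (.two (nat_lit 2097152) (nat_lit 1053259) (.one (nat_lit 2103939) .nil)))))),
   .two (nat_lit 11559501848) (nat_lit 2316304411) (.two (nat_lit 12047089672) (nat_lit 1358954564) (.two (nat_lit 12047089668) (nat_lit 1358955313) (.two (nat_lit 34603009) (nat_lit 10519317981) (.one (nat_lit 16784004) .nil)))),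
   .two (nat_lit 2988441627) (nat_lit 46414168141) (.two (nat_lit 41943048) (nat_lit 169869701) (.two (nat_lit 41943044) (nat_lit 236978616) (.two (nat_lit 8388611) (nat_lit 236979734) (.two (nat_lit 8388609) (nat_lit 136317435) (.two (nat_lit 8388608) (nat_lit 28758250048) (.one (nat_lit 2103942) .nil)))))),
   .two (nat_lit 2954887192) (nat_lit 4613734448) (.two (nat_lit 754974728) (nat_lit 639631428) (.two (nat_lit 754974724) (nat_lit 19597886150) (.two (nat_lit 11559501827) (nat_lit 20738736946) (.two (nat_lit 2097153) (nat_lit 20745030883) (.two (nat_lit 8388608) (nat_lit 10437530160) (.one (nat_lit 2103943) .nil)))))),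
   .two (nat_lit 285212696) (nat_lit 10909384761) (.two (nat_lit 9781116936) (nat_lit 11511267709) (.two (nat_lit 12050235396) (nat_lit 3472884499) (.two (nat_lit 184989777923) (nat_lit 3539994178) (.two (nat_lit 37748737) (nat_lit 16780592) (.two (nat_lit 2097152) (nat_lit 10540290503) (.one (nat_lit 35658059) .nil)))))),
   .two (nat_lit 11559501849) (nat_lit 21781020718) (.two (nat_lit 11559501832) (nat_lit 21781020962) (.two (nat_lit 205520900) (nat_lit 1358956055) (.two (nat_lit 16777217) (nat_lit 11546921464) (.two (nat_lit 1048576) (nat_lit 11546923489) (.one (nat_lit 4201098) .nil))))),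
   .two (nat_lit 159217877019) (nat_lit 20719861808) (.two (nat_lit 20638072840) (nat_lit 21223178578) (.two (nat_lit 3539992580) (nat_lit 10907287991) (.two (nat_lit 21777874947) (nat_lit 1862272563) (.two (nat_lit 605028353) (nat_lit 19128127947) (.one (nat_lit 16784011) .nil))))),
   .two (nat_lit 306184217) (nat_lit 754974763) (.two (nat_lit 822083592) (nat_lit 1212154554) (.two (nat_lit 4194306) (nat_lit 4043311611) (.two (nat_lit 4194304) (nat_lit 11559506489) (.one (nat_lit 4201100) .nil)))),
   .two (nat_lit 184993972250) (nat_lit 3020947642) (.two (nat_lit 11476664324) (nat_lit 9772729066) (.two (nat_lit 184416206851) (nat_lit 20745029175) (.two (nat_lit 34603009) (nat_lit 183853124920) (.two (nat_lit 2097152) (nat_lit 4027585060) (.one (nat_lit 1055373) .nil))))),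
   .two (nat_lit 46474985498) (nat_lit 1048673) (.two (nat_lit 101711880) (nat_lit 174701150935) (.two (nat_lit 184549379) (nat_lit 1410336962) (.two (nat_lit 16777217) (nat_lit 10537144818) (.one (nat_lit 2103950) .nil)))),
   .two (nat_lit 4634705945) (nat_lit 184549419) (.two (nat_lit 2969567240) (nat_lit 10942939854) (.two (nat_lit 184549379) (nat_lit 3560965690) (.two (nat_lit 16777217) (nat_lit 37316727292) (.one (nat_lit 46422563256) .nil)))),
   .two (nat_lit 158143086618) (nat_lit 184993972265) (.two (nat_lit 184993972232) (nat_lit 13187940534) (.two (nat_lit 184993972228) (nat_lit 9798943461) (.two (nat_lit 21207449603) (nat_lit 1417676310) (.two (nat_lit 605028353) (nat_lit 10007611889) (.two (nat_lit 1048576) (nat_lit 1753223745) (.one (nat_lit 8395409) .nil)))))),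
   .two (nat_lit 3558866969) (nat_lit 185027526704) (.two (nat_lit 739246088) (nat_lit 19033751843) (.two (nat_lit 203423748) (nat_lit 1920991673) (.two (nat_lit 4599054339) (nat_lit 10007610161) (.two (nat_lit 156365750273) (nat_lit 157035794885) (.one (nat_lit 1410341201) .nil))))),
   .two (nat_lit 285212699) (nat_lit 19532873769) (.two (nat_lit 156367847432) (nat_lit 9781117367) (.two (nat_lit 46409973763) (nat_lit 1191184883) (.two (nat_lit 4194304) (nat_lit 1929384590) .nil))),
   .two (nat_lit 2927624218) (nat_lit 9881780265) (.two (nat_lit 46414168072) (nat_lit 166144770233) (.two (nat_lit 620756996) (nat_lit 156372042167) (.two (nat_lit 184549379) (nat_lit 158183982626) (.two (nat_lit 8388609) (nat_lit 20753419746) (.one (nat_lit 8395412) .nil))))),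
   .two (nat_lit 10343153691) (nat_lit 721420328) (.two (nat_lit 721420296) (nat_lit 165532402103) (.two (nat_lit 159224168451) (nat_lit 4043311619) (.two (nat_lit 8388608) (nat_lit 16781835) (.one (nat_lit 16784021) .nil)))),
   .two (nat_lit 754974745) (nat_lit 71303230) (.two (nat_lit 117440520) (nat_lit 4601151556) (.two (nat_lit 4194308) (nat_lit 11559502642) (.two (nat_lit 605028353) (nat_lit 9936308724) (.two (nat_lit 1048576) (nat_lit 4199644) (.one (nat_lit 742398578) .nil))))),
   .two (nat_lit 19096666139) (nat_lit 1210056745) (.two (nat_lit 654311432) (nat_lit 11611930808) (.two (nat_lit 156971827204) (nat_lit 639632145) (.two (nat_lit 46978301955) (nat_lit 4195864) (.two (nat_lit 2097153) (nat_lit 9936308725) (.two (nat_lit 2097152) (nat_lit 9768538687) (.one (nat_lit 4201110) .nil)))))),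
   .two (nat_lit 1376780315) (nat_lit 20711473195) (.two (nat_lit 16777224) (nat_lit 10338959734) (.two (nat_lit 104857604) (nat_lit 10503587355) (.two (nat_lit 50331649) (nat_lit 158646405632) (.two (nat_lit 8388608) (nat_lit 10503590368) (.one (nat_lit 1055385) .nil))))),
   .two (nat_lit 47555018778) (nat_lit 37748799) (.two (nat_lit 19599982600) (nat_lit 2323644797) (.two (nat_lit 28757196804) (nat_lit 2956985030) (.two (nat_lit 171966467) (nat_lit 12121540122) (.two (nat_lit 4194305) (nat_lit 159257725440) (.two (nat_lit 1048576) (nat_lit 339743184) (.one (nat_lit 1216354635) .nil)))))),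
   .two (nat_lit 158143086616) (nat_lit 10385096769) (.two (nat_lit 28757196808) (nat_lit 158662132070) (.two (nat_lit 158143086596) (nat_lit 1761608457) (.two (nat_lit 1276116994) (nat_lit 1291846450) (.two (nat_lit 156365750273) (nat_lit 269486584) (.two (nat_lit 2097152) (nat_lit 2953843209) (.one (nat_lit 1055388) .nil)))))),
   .two (nat_lit 156535619611) (nat_lit 2954887219) (.two (nat_lit 83886088) (nat_lit 46409974095) (.two (nat_lit 1178599428) (nat_lit 157051519417) (.two (nat_lit 1277165570) (nat_lit 21781022235) (.two (nat_lit 50331649) (nat_lit 708839931) (.two (nat_lit 16777216) (nat_lit 10372518387) (.one (nat_lit 16784030) .nil)))))),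
   .two (nat_lit 3527409688) (nat_lit 21812478009) (.two (nat_lit 169869320) (nat_lit 3527409844) (.two (nat_lit 169869316) (nat_lit 1782579987) (.two (nat_lit 2097155) (nat_lit 1849689666) (.two (nat_lit 2097153) (nat_lit 156569177392) (.two (nat_lit 1048576) (nat_lit 2101794) (.one (nat_lit 2103968) .nil)))))),
   .two (nat_lit 285212697) (nat_lit 3527409690) (.two (nat_lit 10506731528) (nat_lit 37262197496) (.two (nat_lit 2889875458) (nat_lit 2902459925) (.two (nat_lit 4194305) (nat_lit 1291849047) (.two (nat_lit 4194304) (nat_lit 16781901) (.one (nat_lit 1279269163) .nil))))),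
   .two (nat_lit 2969567256) (nat_lit 1847590937) (.two (nat_lit 1847590920) (nat_lit 9948889156) (.two (nat_lit 1847590916) (nat_lit 10385097522) (.two (nat_lit 2097153) (nat_lit 4613737949) (.one (nat_lit 16784036) .nil)))),
   .two (nat_lit 46414168089) (nat_lit 620757035) (.two (nat_lit 46414168072) (nat_lit 10519315158) (.two (nat_lit 8388611) (nat_lit 9781119475) (.two (nat_lit 8388608) (nat_lit 16781902) (.one (nat_lit 8395431) .nil)))),
   .two (nat_lit 2889875482) (nat_lit 174752530528) (.two (nat_lit 2889875464) (nat_lit 166229705015) (.two (nat_lit 46409973764) (nat_lit 11006902999) (.two (nat_lit 157036838915) (nat_lit 46406829620) (.two (nat_lit 156365750273) (nat_lit 1346376231) (.one (nat_lit 2103977) .nil))))),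
   .two (nat_lit 1358954523) (nat_lit 10436476954) (.two (nat_lit 1846542344) (nat_lit 19545457372) (.two (nat_lit 28757196803) (nat_lit 18941479415) (.two (nat_lit 1048576) (nat_lit 183861513694) (.one (nat_lit 46422562403) .nil)))),
   .two (nat_lit 1291845657) (nat_lit 236978203) (.two (nat_lit 1291845640) (nat_lit 740295372) (.two (nat_lit 169869314) (nat_lit 11559503379) (.two (nat_lit 2097153) (nat_lit 156581760313) (.two (nat_lit 2097152) (nat_lit 37329310239) (.one (nat_lit 606083422) .nil))))),
   .two (nat_lit 3458203674) (nat_lit 11626610739) (.two (nat_lit 3458203656) (nat_lit 3003122016) (.two (nat_lit 3458203652) (nat_lit 9814671801) (.two (nat_lit 47548727299) (nat_lit 620758551) (.two (nat_lit 2097153) (nat_lit 10519317005) (.two (nat_lit 8388608) (nat_lit 158177694170) (.one (nat_lit 2103978) .nil)))))),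
   .two (nat_lit 8388632) (nat_lit 10000269355) (.two (nat_lit 176160776) (nat_lit 11010048370) (.two (nat_lit 3460300804) (nat_lit 156365750713) (.two (nat_lit 2097155) (nat_lit 847251645) (.two (nat_lit 2097153) (nat_lit 1051999) (.two (nat_lit 1048576) (nat_lit 2102504) (.one (nat_lit 1055403) .nil)))))),
   .two (nat_lit 8388632) (nat_lit 10351542318) (.two (nat_lit 176160776) (nat_lit 35651766) (.two (nat_lit 176160772) (nat_lit 606077641) (.two (nat_lit 11559501827) (nat_lit 1417675570) (.two (nat_lit 50331649) (nat_lit 8392562) (.two (nat_lit 16777216) (nat_lit 2102505) (.one (nat_lit 10001324513) .nil)))))),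
   .two (nat_lit 343932955) (nat_lit 1048678) (.two (nat_lit 169869320) (nat_lit 343932996) (.two (nat_lit 705691652) (nat_lit 156539814642) (.two (nat_lit 705691650) (nat_lit 183846831664) (.two (nat_lit 2097153) (nat_lit 13187942910) (.two (nat_lit 8388608) (nat_lit 9900659198) (.one (nat_lit 740300394) .nil)))))),
   .two (nat_lit 8388632) (nat_lit 183928619056) (.two (nat_lit 654311432) (nat_lit 8388676) (.two (nat_lit 654311428) (nat_lit 19537068742) (.two (nat_lit 2902458371) (nat_lit 10007610161) (.two (nat_lit 16777217) (nat_lit 12624858591) (.one (nat_lit 165525068081) .nil))))),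
   .two (nat_lit 654311451) (nat_lit 166130090035) (.two (nat_lit 18928893960) (nat_lit 4647289180) (.two (nat_lit 165526110212) (nat_lit 9915335425) (.two (nat_lit 184989777923) (nat_lit 12163483804) (.two (nat_lit 37748737) (nat_lit 4043312608) (.one (nat_lit 16784046) .nil))))),
   .two (nat_lit 21777874971) (nat_lit 157051519022) (.two (nat_lit 47563407368) (nat_lit 10907287991) (.two (nat_lit 184549378) (nat_lit 12115248667) (.two (nat_lit 606076929) (nat_lit 166229709361) (.one (nat_lit 1055407) .nil)))),
   .two (nat_lit 218103833) (nat_lit 13224640552) (.two (nat_lit 654311432) (nat_lit 843055543) (.two (nat_lit 2902458370) (nat_lit 156367849993) (.two (nat_lit 16777216) (nat_lit 2319454701) (.one (nat_lit 4201138) .nil)))),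
   .two (nat_lit 11543773211) (nat_lit 1384120388) (.two (nat_lit 739246084) (nat_lit 20745028360) (.two (nat_lit 1779433475) (nat_lit 10338961908) (.two (nat_lit 4194304) (nat_lit 47581237796) (.one (nat_lit 1055411) .nil)))),
   .two (nat_lit 4601151512) (nat_lit 2886729823) (.two (nat_lit 46409973768) (nat_lit 20638073137) (.two (nat_lit 639631364) (nat_lit 158075978167) (.two (nat_lit 2887778306) (nat_lit 4196594) (.two (nat_lit 9766436865) (nat_lit 46507493880) (.two (nat_lit 1048576) (nat_lit 4030730806) (.one (nat_lit 1745885498) .nil)))))),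
   .two (nat_lit 1376780325) (nat_lit 156535619633) (.two (nat_lit 4194312) (nat_lit 620757060) (.two (nat_lit 4194308) (nat_lit 21223179032) (.two (nat_lit 11559501827) (nat_lit 839910977) (.two (nat_lit 34603009) (nat_lit 641731077) (.two (nat_lit 1048576) (nat_lit 28760347693) (.one (nat_lit 272635495) .nil)))))),
   .two (nat_lit 10506731547) (nat_lit 183853121579) (.two (nat_lit 19532873736) (nat_lit 880804127) (.two (nat_lit 19532873732) (nat_lit 37320917718) (.two (nat_lit 157038936067) (nat_lit 41945244) (.two (nat_lit 8388609) (nat_lit 12620665395) (.one (nat_lit 4201142) .nil))))),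
   .two (nat_lit 285212698) (nat_lit 47555018795) (.two (nat_lit 8388616) (nat_lit 2902459186) (.two (nat_lit 50331649) (nat_lit 109054466) (.two (nat_lit 16777216) (nat_lit 3464499769) (.one (nat_lit 8395447) .nil)))),
   .two (nat_lit 11559501851) (nat_lit 2349858860) (.two (nat_lit 158075977736) (nat_lit 117440951) (.two (nat_lit 21777874947) (nat_lit 3003124221) (.two (nat_lit 1048576) (nat_lit 183861514724) (.one (nat_lit 16784058) .nil)))),
   .two (nat_lit 285212696) (nat_lit 184986632234) (.two (nat_lit 169869320) (nat_lit 822084278) (.two (nat_lit 705691650) (nat_lit 1862272567) (.two (nat_lit 605028353) (nat_lit 1780485973) (.two (nat_lit 1048576) (nat_lit 2954891830) (.one (nat_lit 1055420) .nil))))),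
   .two (nat_lit 4605345816) (nat_lit 11559501866) (.two (nat_lit 721420296) (nat_lit 156372042545) (.two (nat_lit 8388609) (nat_lit 754977266) (.two (nat_lit 16777216) (nat_lit 47588577738) (.one (nat_lit 28798098193) .nil)))),
   .two (nat_lit 2969567256) (nat_lit 174753579078) (.two (nat_lit 10336862216) (nat_lit 18941477580) (.two (nat_lit 165526110211) (nat_lit 3003123266) (.two (nat_lit 2097153) (nat_lit 50336272) (.one (nat_lit 16784062) .nil)))),
   .two (nat_lit 276824089) (nat_lit 4634705959) (.two (nat_lit 713031688) (nat_lit 19530776762) (.two (nat_lit 46409973764) (nat_lit 183845782255) (.two (nat_lit 28760342531) (nat_lit 1948255809) (.two (nat_lit 2097153) (nat_lit 11006905682) (.two (nat_lit 2097152) (nat_lit 1053932) (.one (nat_lit 1055423) .nil)))))),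
   .two (nat_lit 285212697) (nat_lit 11513364507) (.two (nat_lit 285212680) (nat_lit 9802088516) (.two (nat_lit 9781116932) (nat_lit 10372514504) (.two (nat_lit 4194306) (nat_lit 50333203) (.two (nat_lit 4194305) (nat_lit 156581761605) (.one (nat_lit 708844138) .nil))))),
   .two (nat_lit 2969567257) (nat_lit 3524263982) (.two (nat_lit 1291845640) (nat_lit 159250383157) (.two (nat_lit 705691652) (nat_lit 2969568049) (.two (nat_lit 2097153) (nat_lit 168824053) (.two (nat_lit 2097152) (nat_lit 2886734281) (.one (nat_lit 1276123459) .nil))))),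
   .two (nat_lit 1277165594) (nat_lit 158653743152) (.two (nat_lit 1277165576) (nat_lit 12155093281) (.two (nat_lit 46984593412) (nat_lit 18926798361) (.two (nat_lit 606076929) (nat_lit 20745030136) (.two (nat_lit 1048576) (nat_lit 21778928104) (.one (nat_lit 8395457) .nil))))),
   .two (nat_lit 203423771) (nat_lit 10343153707) (.two (nat_lit 2954887176) (nat_lit 165532402367) (.two (nat_lit 169869314) (nat_lit 343935475) (.two (nat_lit 2097152) (nat_lit 158653747689) (.one (nat_lit 21818775784) .nil)))),
   .two (nat_lit 721420313) (nat_lit 46414168091) (.two (nat_lit 4605345800) (nat_lit 83886520) (.two (nat_lit 8388610) (nat_lit 50334195) (.two (nat_lit 8388608) (nat_lit 3539997206) (.one (nat_lit 276830474) .nil)))),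
   .two (nat_lit 16777243) (nat_lit 10544480310) (.two (nat_lit 9948889096) (nat_lit 35652025) (.two (nat_lit 746586115) (nat_lit 721422834) (.two (nat_lit 8388608) (nat_lit 19545460187) (.one (nat_lit 16782969) .nil)))),
   .two (nat_lit 2969567256) (nat_lit 4638900272) (.two (nat_lit 9781116936) (nat_lit 21781020966) (.two (nat_lit 2969567236) (nat_lit 157043131075) (.two (nat_lit 184549378) (nat_lit 1753219889) (.two (nat_lit 16777217) (nat_lit 11614032342) (.one (nat_lit 4201154) .nil))))),
   .two (nat_lit 8388632) (nat_lit 158647451711) (.two (nat_lit 4601151496) (nat_lit 41943108) (.two (nat_lit 183853121540) (nat_lit 9902752528) (.two (nat_lit 4605345795) (nat_lit 11511268912) (.two (nat_lit 156365750273) (nat_lit 9806287363) (.one (nat_lit 807410172) .nil))))),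
   .two (nat_lit 47548727320) (nat_lit 2319450167) (.two (nat_lit 157038936072) (nat_lit 47548727364) (.two (nat_lit 46407876612) (nat_lit 104858314) (.two (nat_lit 705691650) (nat_lit 1916799195) (.two (nat_lit 156365750273) (nat_lit 19529732568) (.one (nat_lit 1055427) .nil))))),
   .two (nat_lit 159224168475) (nat_lit 11577327653) (.two (nat_lit 20644364296) (nat_lit 12617515447) (.two (nat_lit 159224168451) (nat_lit 12617516567) (.two (nat_lit 612368385) (nat_lit 672141886) (.one (nat_lit 1055428) .nil)))),
   .two (nat_lit 12617515033) (nat_lit 83886116) (.two (nat_lit 1745879048) (nat_lit 352321873) (.two (nat_lit 11559501828) (nat_lit 159250383567) (.two (nat_lit 739246083) (nat_lit 16778771) (.two (nat_lit 34603009) (nat_lit 83889489) (.two (nat_lit 1048576) (nat_lit 20753420869) (.one (nat_lit 1055429) .nil)))))),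
   .two (nat_lit 285212698) (nat_lit 1749024949) (.two (nat_lit 46980399108) (nat_lit 184550556) (.two (nat_lit 19532873731) (nat_lit 251660446) (.two (nat_lit 4194305) (nat_lit 28101841439) (.one (nat_lit 205527259) .nil)))),
   .two (nat_lit 2954887192) (nat_lit 28101836854) (.two (nat_lit 4605345800) (nat_lit 21812478262) (.two (nat_lit 157043130372) (nat_lit 47582282545) (.two (nat_lit 2097153) (nat_lit 1954549506) (.two (nat_lit 16777216) (nat_lit 28093452823) (.one (nat_lit 46523226328) .nil))))),
   .two (nat_lit 10336862235) (nat_lit 11626610739) (.two (nat_lit 20638072840) (nat_lit 16777606) (.two (nat_lit 20638072836) (nat_lit 46422557394) (.two (nat_lit 159217876995) (nat_lit 620758551) (.two (nat_lit 606076929) (nat_lit 10519317005) (.two (nat_lit 8388608) (nat_lit 4632613322) (.one (nat_lit 2104007) .nil)))))),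
   .two (nat_lit 2969567256) (nat_lit 159217877019) (.two (nat_lit 20638072840) (nat_lit 2969567300) (.two (nat_lit 20638072836) (nat_lit 183928619722) (.two (nat_lit 10336862211) (nat_lit 1291847903) (.two (nat_lit 606076929) (nat_lit 16781176) (.two (nat_lit 2097152) (nat_lit 16782582) (.one (nat_lit 2104008) .nil)))))),
   .two (nat_lit 2954887192) (nat_lit 37246468161) (.two (nat_lit 9934209032) (nat_lit 158176641387) (.two (nat_lit 174752530436) (nat_lit 1914700491) (.two (nat_lit 166129041410) (nat_lit 2099444) (.two (nat_lit 37748737) (nat_lit 13222547219) (.two (nat_lit 2097152) (nat_lit 775950849) (.one (nat_lit 46978308302) .nil)))))),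
   .two (nat_lit 8388632) (nat_lit 218103834) (.two (nat_lit 218103816) (nat_lit 10007609412) (.two (nat_lit 218103812) (nat_lit 3028288306) (.two (nat_lit 16777217) (nat_lit 12624858589) (.one (nat_lit 10016004361) .nil)))),
   .two (nat_lit 2969567258) (nat_lit 174686470185) (.two (nat_lit 157036838920) (nat_lit 9948889527) (.two (nat_lit 46407876610) (nat_lit 183928621565) (.two (nat_lit 2097152) (nat_lit 12129931918) .nil))),
   .two (nat_lit 2954887192) (nat_lit 165532401702) (.two (nat_lit 2954887176) (nat_lit 20644364564) (.two (nat_lit 2954887172) (nat_lit 10007610044) (.two (nat_lit 169869314) (nat_lit 343935473) (.two (nat_lit 2097152) (nat_lit 8393296) (.one (nat_lit 2104009) .nil))))),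
   .two (nat_lit 4601151514) (nat_lit 754974763) (.two (nat_lit 822083592) (nat_lit 9802088516) (.two (nat_lit 822083588) (nat_lit 641729226) (.two (nat_lit 4194306) (nat_lit 50332465) (.two (nat_lit 4194305) (nat_lit 157051521538) (.two (nat_lit 4194304) (nat_lit 11559506489) (.one (nat_lit 4201162) .nil)))))),
   .two (nat_lit 28093448219) (nat_lit 19596836891) (.two (nat_lit 156968681480) (nat_lit 183953785219) (.two (nat_lit 156968681476) (nat_lit 1753219512) (.two (nat_lit 1913651203) (nat_lit 1350567470) (.two (nat_lit 156364701697) (nat_lit 10544482818) (.two (nat_lit 1048576) (nat_lit 12054434376) (.one (nat_lit 1055436) .nil)))))),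
   .two (nat_lit 2969567257) (nat_lit 183949590568) (.two (nat_lit 11479810056) (nat_lit 1291846330) (.two (nat_lit 184549379) (nat_lit 1916797746) (.two (nat_lit 50331649) (nat_lit 20740835846) (.two (nat_lit 16777216) (nat_lit 4199672) (.one (nat_lit 4201165) .nil))))),
   .two (nat_lit 8388632) (nat_lit 202375217) (.two (nat_lit 8388616) (nat_lit 11580473641) (.two (nat_lit 276824068) (nat_lit 4634706618) (.two (nat_lit 8388610) (nat_lit 174755677748) (.two (nat_lit 156364701697) (nat_lit 19134419465) (.one (nat_lit 1055439) .nil))))),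
   .two (nat_lit 2969567258) (nat_lit 47548727378) (.two (nat_lit 2969567240) (nat_lit 10907287731) (.two (nat_lit 20638072836) (nat_lit 28806481023) (.two (nat_lit 159217876995) (nat_lit 16779512) (.two (nat_lit 16777217) (nat_lit 740297953) (.two (nat_lit 2097152) (nat_lit 4647293452) (.one (nat_lit 337647838) .nil)))))),
   .two (nat_lit 47555018777) (nat_lit 138412080) (.two (nat_lit 4194312) (nat_lit 159224168887) (.two (nat_lit 4194306) (nat_lit 41945271) (.two (nat_lit 41943041) (nat_lit 839913942) (.one (nat_lit 1055441) .nil)))),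
   .two (nat_lit 285212698) (nat_lit 706740303) (.two (nat_lit 16777224) (nat_lit 20705181875) (.two (nat_lit 184549380) (nat_lit 3021996786) (.two (nat_lit 11546918915) (nat_lit 47563408962) (.two (nat_lit 16777217) (nat_lit 10540288500) (.two (nat_lit 2097152) (nat_lit 19029561821) (.one (nat_lit 203430357) .nil)))))),
   .two (nat_lit 11543773210) (nat_lit 10343153709) (.two (nat_lit 1343225864) (nat_lit 156372042010) (.two (nat_lit 1343225860) (nat_lit 3028288192) (.two (nat_lit 705691650) (nat_lit 3028289045) (.two (nat_lit 34603009) (nat_lit 12624859625) (.one (nat_lit 1054901) .nil))))),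
   .two (nat_lit 285212698) (nat_lit 159224168485) (.two (nat_lit 612368392) (nat_lit 2902459186) (.two (nat_lit 8388609) (nat_lit 889195840) (.two (nat_lit 16777216) (nat_lit 8393980) (.one (nat_lit 16784084) .nil)))),
   .two (nat_lit 47555018777) (nat_lit 843055147) (.two (nat_lit 3464495112) (nat_lit 843055389) (.two (nat_lit 3464495108) (nat_lit 28089255026) (.two (nat_lit 176160771) (nat_lit 1413482743) (.two (nat_lit 37748737) (nat_lit 19100863720) (.two (nat_lit 8388608) (nat_lit 4198994) (.one (nat_lit 4201175) .nil)))))),
   .two (nat_lit 2923429915) (nat_lit 117440553) (.two (nat_lit 4601151496) (nat_lit 1795162551) (.two (nat_lit 4194306) (nat_lit 9814673911) (.two (nat_lit 4194304) (nat_lit 157051523552) (.one (nat_lit 16784088) .nil)))),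
   .two (nat_lit 3527409690) (nat_lit 47581233201) (.two (nat_lit 46414168072) (nat_lit 11546919250) (.two (nat_lit 3527409668) (nat_lit 19100861143) (.two (nat_lit 605028355) (nat_lit 47555019569) (.two (nat_lit 4194305) (nat_lit 11484006911) (.two (nat_lit 1048576) (nat_lit 20711477757) (.one (nat_lit 1413487072) .nil)))))),
   .two (nat_lit 13195280411) (nat_lit 775946301) (.two (nat_lit 9768534024) (nat_lit 310378564) (.two (nat_lit 205520900) (nat_lit 21818770194) (.two (nat_lit 19532873731) (nat_lit 8390906) (.two (nat_lit 156367847425) (nat_lit 1350569258) (.two (nat_lit 8388608) (nat_lit 158075982337) (.one (nat_lit 1055457) .nil)))))),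
   .two (nat_lit 4601151512) (nat_lit 10015998003) (.two (nat_lit 13191086088) (nat_lit 855638368) (.two (nat_lit 13191086084) (nat_lit 150995385) (.two (nat_lit 4194306) (nat_lit 184550935) (.two (nat_lit 156372041729) (nat_lit 9814674679) (.two (nat_lit 8388608) (nat_lit 16782591) (.one (nat_lit 4201186) .nil)))))),
   .two (nat_lit 754974745) (nat_lit 46507491382) (.two (nat_lit 822083592) (nat_lit 21814575395) (.two (nat_lit 822083588) (nat_lit 174755676904) (.two (nat_lit 605028355) (nat_lit 721422832) (.two (nat_lit 1048576) (nat_lit 3539996127) (.one (nat_lit 1055460) .nil))))),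
   .two (nat_lit 166196150299) (nat_lit 11513364520) (.two (nat_lit 1846542344) (nat_lit 11513364919) (.two (nat_lit 28757196803) (nat_lit 166232851993) (.two (nat_lit 9765388289) (nat_lit 641731069) (.two (nat_lit 1048576) (nat_lit 171971053) (.one (nat_lit 4201189) .nil))))),
   .two (nat_lit 9934209051) (nat_lit 3560964169) (.two (nat_lit 1277165576) (nat_lit 135266642) (.two (nat_lit 276824068) (nat_lit 20640170713) (.two (nat_lit 184989777923) (nat_lit 184986633774) (.two (nat_lit 156364701697) (nat_lit 159219978762) (.one (nat_lit 1055462) .nil))))),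
   .two (nat_lit 20704133147) (nat_lit 37320917028) (.two (nat_lit 75497480) (nat_lit 13237224160) (.two (nat_lit 713031682) (nat_lit 269485594) (.two (nat_lit 41943041) (nat_lit 68160762) (.two (nat_lit 1048576) (nat_lit 10016002614) (.one (nat_lit 46992988412) .nil))))),
   .two (nat_lit 184993972250) (nat_lit 156465365033) (.two (nat_lit 1913651208) (nat_lit 21785215415) (.two (nat_lit 11476664322) (nat_lit 142608905) (.two (nat_lit 1048576) (nat_lit 21214794382) .nil))),
   .two (nat_lit 11559501850) (nat_lit 10436476954) (.two (nat_lit 11559501832) (nat_lit 2349858995) (.two (nat_lit 1846542340) (nat_lit 16778402) (.two (nat_lit 28757196803) (nat_lit 50333944) (.two (nat_lit 9765388289) (nat_lit 183962176825) (.two (nat_lit 1048576) (nat_lit 28101841439) (.one (nat_lit 16784104) .nil)))))),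
   .two (nat_lit 16777240) (nat_lit 4638900272) (.two (nat_lit 822083592) (nat_lit 10909385014) (.two (nat_lit 1350565892) (nat_lit 50332465) (.two (nat_lit 37748737) (nat_lit 4043311630) (.two (nat_lit 8388608) (nat_lit 159219978804) (.one (nat_lit 2969573809) .nil))))),
   .two (nat_lit 9934209051) (nat_lit 156535619611) (.two (nat_lit 41943048) (nat_lit 3527409732) (.two (nat_lit 1277165572) (nat_lit 12121539001) (.two (nat_lit 1277165570) (nat_lit 3531605543) (.two (nat_lit 9766436865) (nat_lit 9806286069) (.two (nat_lit 2097152) (nat_lit 156976026057) (.one (nat_lit 4201194) .nil)))))),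
   .two (nat_lit 2969567256) (nat_lit 1310720026) (.two (nat_lit 20638072840) (nat_lit 2969567300) (.two (nat_lit 20638072836) (nat_lit 9948889906) (.two (nat_lit 606076929) (nat_lit 1929383389) (.one (nat_lit 16784107) .nil)))),
   .two (nat_lit 183916036122) (nat_lit 2927624245) (.two (nat_lit 2961178632) (nat_lit 876609717) (.two (nat_lit 9866051588) (nat_lit 3024093900) (.two (nat_lit 1343225859) (nat_lit 184989779521) (.two (nat_lit 41943041) (nat_lit 9798947270) (.one (nat_lit 1055468) .nil))))),
   .two (nat_lit 2954887194) (nat_lit 13228834864) (.two (nat_lit 37748744) (nat_lit 3028287927) (.two (nat_lit 169869314) (nat_lit 19033753116) (.two (nat_lit 156372041729) (nat_lit 2317356262) (.two (nat_lit 2097152) (nat_lit 1379930613) (.one (nat_lit 8395501) .nil))))),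
   .two (nat_lit 306184218) (nat_lit 218103846) (.two (nat_lit 4601151496) (nat_lit 2969567509) (.two (nat_lit 285212676) (nat_lit 2923430706) (.two (nat_lit 4194305) (nat_lit 37262200040) (.two (nat_lit 4194304) (nat_lit 16782582) (.one (nat_lit 4201198) .nil))))),
   .two (nat_lit 272629787) (nat_lit 158183981116) (.two (nat_lit 2889875464) (nat_lit 158183981377) (.two (nat_lit 68157444) (nat_lit 3028288181) (.two (nat_lit 272629763) (nat_lit 166237046939) (.two (nat_lit 4194305) (nat_lit 10939796741) (.two (nat_lit 1048576) (nat_lit 876614174) (.one (nat_lit 47550830870) .nil)))))),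
   .two (nat_lit 2969567257) (nat_lit 166232850498) (.two (nat_lit 2969567240) (nat_lit 2420113588) (.two (nat_lit 2969567236) (nat_lit 1312817860) (.two (nat_lit 2902458371) (nat_lit 28693234482) (.two (nat_lit 9768534017) (nat_lit 11559505690) (.two (nat_lit 2097152) (nat_lit 104862262) (.one (nat_lit 2104047) .nil)))))),
   .two (nat_lit 3458203675) (nat_lit 1916796969) (.two (nat_lit 47548727304) (nat_lit 28693234052) (.two (nat_lit 166132187140) (nat_lit 12115248669) (.two (nat_lit 2097153) (nat_lit 2990541304) (.two (nat_lit 2097152) (nat_lit 2353009233) (.one (nat_lit 2104049) .nil))))),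
   .two (nat_lit 654311451) (nat_lit 184419352620) (.two (nat_lit 1916796938) (nat_lit 2969567412) (.two (nat_lit 1178599428) (nat_lit 1224738333) (.two (nat_lit 37748737) (nat_lit 46992985388) (.two (nat_lit 16777216) (nat_lit 708841954) (.one (nat_lit 16784114) .nil))))),
   .two (nat_lit 184549403) (nat_lit 158144135224) (.two (nat_lit 18933088264) (nat_lit 270533358) (.two (nat_lit 69206019) (nat_lit 3472885298) (.two (nat_lit 37748737) (nat_lit 2100580) (.two (nat_lit 4194304) (nat_lit 10007613918) (.one (nat_lit 8395507) .nil))))),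
   .two (nat_lit 8388632) (nat_lit 21207449663) (.two (nat_lit 713031688) (nat_lit 166129041778) (.two (nat_lit 276824068) (nat_lit 184989778707) (.two (nat_lit 21777874947) (nat_lit 20640171568) (.two (nat_lit 41943041) (nat_lit 156968684827) (.two (nat_lit 1048576) (nat_lit 19134419524) (.one (nat_lit 1055479) .nil)))))),
   .two (nat_lit 11543773208) (nat_lit 19027460161) (.two (nat_lit 1343225864) (nat_lit 1914700133) (.two (nat_lit 1276116996) (nat_lit 166230753978) (.two (nat_lit 12117344259) (nat_lit 19094571147) (.two (nat_lit 4194305) (nat_lit 158075981036) (.two (nat_lit 1048576) (nat_lit 19029561836) (.one (nat_lit 1055480) .nil)))))),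
   .two (nat_lit 11559501848) (nat_lit 19026411568) (.two (nat_lit 1291845640) (nat_lit 10370416975) (.two (nat_lit 9948889092) (nat_lit 19597886184) (.two (nat_lit 4599054339) (nat_lit 83887637) (.two (nat_lit 2097153) (nat_lit 83888624) (.two (nat_lit 1048576) (nat_lit 46489669087) (.one (nat_lit 16784121) .nil)))))),
   .two (nat_lit 41943067) (nat_lit 11546919093) (.two (nat_lit 9766436868) (nat_lit 4634706614) (.two (nat_lit 3525312515) (nat_lit 47550826034) (.two (nat_lit 2097153) (nat_lit 183920233808) (.two (nat_lit 2097152) (nat_lit 10443821512) (.one (nat_lit 8395514) .nil))))),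
   .two (nat_lit 158143086618) (nat_lit 183913939005) (.two (nat_lit 37748744) (nat_lit 1209008309) (.two (nat_lit 606076932) (nat_lit 2920284914) (.two (nat_lit 169869314) (nat_lit 1379927600) (.two (nat_lit 9768534017) (nat_lit 37247519997) (.two (nat_lit 4194304) (nat_lit 19094573510) (.one (nat_lit 2104059) .nil)))))),
   .two (nat_lit 16777240) (nat_lit 184423546928) (.two (nat_lit 285212680) (nat_lit 809501007) (.two (nat_lit 2902458372) (nat_lit 2319450856) (.two (nat_lit 158150426627) (nat_lit 16778033) (.two (nat_lit 50331649) (nat_lit 171969763) (.two (nat_lit 4194304) (nat_lit 20753420848) (.one (nat_lit 16784124) .nil)))))),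
   .two (nat_lit 285212697) (nat_lit 20707278945) (.two (nat_lit 156367847432) (nat_lit 174768259362) (.two (nat_lit 11559501828) (nat_lit 269484473) (.two (nat_lit 171966467) (nat_lit 184431938056) (.two (nat_lit 1048576) (nat_lit 12633248243) (.one (nat_lit 1055485) .nil))))),
   .two (nat_lit 352321562) (nat_lit 21214789680) (.two (nat_lit 218103816) (nat_lit 203424545) (.two (nat_lit 1176502275) (nat_lit 285213489) (.two (nat_lit 41943041) (nat_lit 10955524610) (.two (nat_lit 2097152) (nat_lit 16781910) (.one (nat_lit 16784126) .nil))))),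
   .two (nat_lit 218103835) (nat_lit 166130090035) (.two (nat_lit 285212680) (nat_lit 9936306617) (.two (nat_lit 16777218) (nat_lit 11580474943) (.two (nat_lit 16777217) (nat_lit 10372516340) (.two (nat_lit 2097152) (nat_lit 37262200283) (.one (nat_lit 11544828169) .nil))))),
   .two (nat_lit 8388632) (nat_lit 10000269355) (.two (nat_lit 75497480) (nat_lit 185021235672) (.two (nat_lit 101711876) (nat_lit 156365750991) (.two (nat_lit 9765388291) (nat_lit 1914701349) (.two (nat_lit 2097153) (nat_lit 1376783603) (.two (nat_lit 2097152) (nat_lit 1053969) (.one (nat_lit 1055488) .nil)))))),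
   .two (nat_lit 158143086616) (nat_lit 11559501861) (.two (nat_lit 11559501832) (nat_lit 9765389088) (.two (nat_lit 1358954499) (nat_lit 20737689851) (.two (nat_lit 605028353) (nat_lit 620759537) (.two (nat_lit 1048576) (nat_lit 117445185) (.one (nat_lit 9866058078) .nil))))),
   .two (nat_lit 10343153702) (nat_lit 166199296049) (.two (nat_lit 156367847432) (nat_lit 10343153732) (.two (nat_lit 156372041732) (nat_lit 157038936881) (.two (nat_lit 8388609) (nat_lit 184989780470) (.two (nat_lit 8388608) (nat_lit 608178673) (.one (nat_lit 4201218) .nil))))),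
   .two (nat_lit 47555018778) (nat_lit 12117344314) (.two (nat_lit 9768534024) (nat_lit 713032006) (.two (nat_lit 9867100164) (nat_lit 28697428749) (.two (nat_lit 638582787) (nat_lit 2923432136) (.two (nat_lit 605028353) (nat_lit 239079287) (.two (nat_lit 1048576) (nat_lit 239080687) (.one (nat_lit 1055492) .nil)))))),
   .two (nat_lit 276824089) (nat_lit 1191182374) (.two (nat_lit 276824072) (nat_lit 1929380199) (.two (nat_lit 11551113220) (nat_lit 47563408082) (.two (nat_lit 75497475) (nat_lit 3558868546) (.two (nat_lit 2097153) (nat_lit 1846545636) (.two (nat_lit 2097152) (nat_lit 8394004) (.one (nat_lit 3524269677) .nil)))))),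
   .two (nat_lit 4601151512) (nat_lit 37320917040) (.two (nat_lit 612368392) (nat_lit 4601151556) (.two (nat_lit 612368388) (nat_lit 12150899395) (.two (nat_lit 176160770) (nat_lit 843055921) (.two (nat_lit 8388609) (nat_lit 10439626207) (.one (nat_lit 3524270679) .nil))))),
   .two (nat_lit 21208498203) (nat_lit 780140595) (.two (nat_lit 158144135176) (nat_lit 310378882) (.two (nat_lit 158144135172) (nat_lit 109052345) (.two (nat_lit 1277165570) (nat_lit 746587696) (.two (nat_lit 9765388289) (nat_lit 10947136841) (.two (nat_lit 1048576) (nat_lit 706744821) (.one (nat_lit 2104071) .nil)))))),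
   .two (nat_lit 10007609371) (nat_lit 19127074864) (.two (nat_lit 713031688) (nat_lit 184986632516) (.two (nat_lit 75497476) (nat_lit 46473937337) (.two (nat_lit 1916796931) (nat_lit 10906240581) (.two (nat_lit 612368385) (nat_lit 3524266489) (.two (nat_lit 1048576) (nat_lit 239079960) (.one (nat_lit 8395528) .nil)))))),
   .two (nat_lit 10506731547) (nat_lit 174753579035) (.two (nat_lit 1847590920) (nat_lit 1782579930) (.two (nat_lit 28758245379) (nat_lit 71304733) (.two (nat_lit 9766436865) (nat_lit 11546921461) (.two (nat_lit 2097152) (nat_lit 4198999) (.one (nat_lit 4201226) .nil))))),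
   .two (nat_lit 4634705947) (nat_lit 156566028329) (.two (nat_lit 9768534024) (nat_lit 3020947756) (.two (nat_lit 68157444) (nat_lit 11618222773) (.two (nat_lit 156372041731) (nat_lit 20640171550) (.two (nat_lit 4194305) (nat_lit 235932164) (.two (nat_lit 4194304) (nat_lit 20637028842) (.one (nat_lit 21777881865) .nil)))))),
   .two (nat_lit 306184219) (nat_lit 9781116966) (.two (nat_lit 285212680) (nat_lit 1782579933) (.two (nat_lit 4601151491) (nat_lit 50333206) (.two (nat_lit 4194305) (nat_lit 654316085) (.one (nat_lit 185023339190) .nil)))),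
   .two (nat_lit 9781116955) (nat_lit 1950351421) (.two (nat_lit 822083592) (nat_lit 13224640805) (.two (nat_lit 3460300804) (nat_lit 18941477604) (.two (nat_lit 9933160451) (nat_lit 16779519) (.two (nat_lit 37748737) (nat_lit 158158818602) (.two (nat_lit 16777216) (nat_lit 1343230465) (.one (nat_lit 1055499) .nil)))))),
   .two (nat_lit 239075353) (nat_lit 2988441637) (.two (nat_lit 184549384) (nat_lit 20704133301) (.two (nat_lit 2954887172) (nat_lit 4195493) (.two (nat_lit 2889875458) (nat_lit 10437527100) (.two (nat_lit 606076929) (nat_lit 21814577662) (.two (nat_lit 1048576) (nat_lit 16782617) (.one (nat_lit 2104076) .nil)))))),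
   .two (nat_lit 4194312) (nat_lit 19612566686) (.two (nat_lit 34603009) (nat_lit 12048140483) (.two (nat_lit 1048576) (nat_lit 4198294) (.one (nat_lit 4201275) .nil))),
   .two (nat_lit 184993972232) (nat_lit 1376780554) (.two (nat_lit 156968681475) (nat_lit 20745029254) (.two (nat_lit 34603009) (nat_lit 8392185) (.two (nat_lit 1048576) (nat_lit 8394370) (.one (nat_lit 1054646) .nil)))),
   .two (nat_lit 9934209032) (nat_lit 9881780503) (.two (nat_lit 9948889091) (nat_lit 156567077584) (.two (nat_lit 2097153) (nat_lit 16780794) (.two (nat_lit 2097152) (nat_lit 16782051) (.one (nat_lit 2104124) .nil)))),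
   .two (nat_lit 16777224) (nat_lit 3028287766) (.two (nat_lit 16777218) (nat_lit 12121539301) (.two (nat_lit 16777217) (nat_lit 8391390) (.two (nat_lit 8388608) (nat_lit 16782979) (.one (nat_lit 8394475) .nil)))),
   .two (nat_lit 3527409672) (nat_lit 754974763) (.two (nat_lit 272629764) (nat_lit 185035915732) (.two (nat_lit 50331651) (nat_lit 1749025488) (.two (nat_lit 50331649) (nat_lit 1178602747) (.one (nat_lit 37262202607) .nil)))),
   .two (nat_lit 13191086088) (nat_lit 12054429721) (.two (nat_lit 1753219076) (nat_lit 1212154144) (.two (nat_lit 18933088259) (nat_lit 158179787508) (.two (nat_lit 8388609) (nat_lit 4197884) (.two (nat_lit 8388608) (nat_lit 4199140) (.one (nat_lit 4201277) .nil))))),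
   .two (nat_lit 4605345800) (nat_lit 183848927313) (.two (nat_lit 843055109) (nat_lit 813695715) (.two (nat_lit 37748737) (nat_lit 158183983255) (.two (nat_lit 4194304) (nat_lit 8392640) (.one (nat_lit 4200382) .nil)))),
   .two (nat_lit 8388616) (nat_lit 721420575) (.two (nat_lit 8388611) (nat_lit 156548203222) (.two (nat_lit 50331649) (nat_lit 37253809695) (.two (nat_lit 4194304) (nat_lit 83891893) .nil))),
   .two (nat_lit 28757196808) (nat_lit 159251431467) (.two (nat_lit 1846542340) (nat_lit 12115247598) (.two (nat_lit 21208498179) (nat_lit 47547680316) (.two (nat_lit 2097152) (nat_lit 1052614) (.one (nat_lit 1055550) .nil)))),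
   .two (nat_lit 822083592) (nat_lit 9934209083) (.two (nat_lit 9948889092) (nat_lit 11007950916) (.two (nat_lit 157038936067) (nat_lit 156466414321) (.two (nat_lit 37748737) (nat_lit 639633597) (.two (nat_lit 4194304) (nat_lit 2101991) (.one (nat_lit 4200385) .nil))))),
   .two (nat_lit 272629768) (nat_lit 1753219111) (.two (nat_lit 272629764) (nat_lit 159257723230) (.two (nat_lit 176160771) (nat_lit 11546919634) (.two (nat_lit 8388609) (nat_lit 12150900282) (.two (nat_lit 16777216) (nat_lit 4199144) (.one (nat_lit 4200386) .nil))))),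
   .two (nat_lit 46984593416) (nat_lit 174686470182) (.two (nat_lit 10343153668) (nat_lit 174753579398) (.two (nat_lit 4599054339) (nat_lit 10544481055) (.two (nat_lit 2097153) (nat_lit 19537070324) (.two (nat_lit 1048576) (nat_lit 8394372) (.one (nat_lit 1054660) .nil))))),
   .two (nat_lit 620757000) (nat_lit 68157485) (.two (nat_lit 184419352580) (nat_lit 10537140595) (.two (nat_lit 638582787) (nat_lit 1312818331) (.two (nat_lit 8388609) (nat_lit 1276120387) (.one (nat_lit 16784191) .nil)))),
   .two (nat_lit 10385096712) (nat_lit 2988441690) (.two (nat_lit 304087046) (nat_lit 218104096) (.two (nat_lit 4599054339) (nat_lit 218104513) (.two (nat_lit 2097153) (nat_lit 16779471) (.two (nat_lit 8388608) (nat_lit 19529732013) (.one (nat_lit 1054663) .nil))))),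
   .two (nat_lit 8388616) (nat_lit 184419352601) (.two (nat_lit 8388612) (nat_lit 156468511494) (.two (nat_lit 4194305) (nat_lit 8391354) (.two (nat_lit 4194304) (nat_lit 8393452) (.one (nat_lit 4201262) .nil)))),
   .two (nat_lit 2887778312) (nat_lit 184549663) (.two (nat_lit 83886083) (nat_lit 11578378450) (.two (nat_lit 16777216) (nat_lit 11578378740) (.one (nat_lit 1054668) .nil))),
   .two (nat_lit 713031688) (nat_lit 10385097410) (.two (nat_lit 41943041) (nat_lit 16779532) (.two (nat_lit 1048576) (nat_lit 16781273) (.one (nat_lit 16783310) .nil))),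
   .two (nat_lit 16777224) (nat_lit 19127074879) (.two (nat_lit 156365750276) (nat_lit 705691832) (.two (nat_lit 806354947) (nat_lit 9948889528) (.two (nat_lit 8388609) (nat_lit 28790755276) (.one (nat_lit 16784192) .nil)))),
   .two (nat_lit 3460300808) (nat_lit 1210056758) (.two (nat_lit 183845781508) (nat_lit 9802089644) (.two (nat_lit 2097153) (nat_lit 4196621) (.two (nat_lit 1048576) (nat_lit 2101999) (.one (nat_lit 2103247) .nil)))),
   .two (nat_lit 11559501832) (nat_lit 183912890411) (.two (nat_lit 11559501828) (nat_lit 235930094) (.two (nat_lit 184986632195) (nat_lit 11551114390) (.two (nat_lit 41943041) (nat_lit 11476669597) .nil))),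
   .two (nat_lit 13191086088) (nat_lit 11618222123) (.two (nat_lit 11618222086) (nat_lit 1212154138) (.two (nat_lit 176160771) (nat_lit 20740834840) (.two (nat_lit 8388608) (nat_lit 4030729495) (.one (nat_lit 4200401) .nil)))),
   .two (nat_lit 11479810056) (nat_lit 165532401708) (.two (nat_lit 11479810052) (nat_lit 679477572) (.two (nat_lit 8388611) (nat_lit 641729238) (.two (nat_lit 8388609) (nat_lit 3024094751) (.two (nat_lit 1048576) (nat_lit 20711477007) (.one (nat_lit 4199829) .nil))))),
   .two (nat_lit 16777224) (nat_lit 75497796) (.two (nat_lit 184549378) (nat_lit 156365751442) (.two (nat_lit 41943041) (nat_lit 16778034) (.two (nat_lit 2097152) (nat_lit 16782067) (.one (nat_lit 2103253) .nil)))),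
   .two (nat_lit 203423752) (nat_lit 2927624277) (.two (nat_lit 3458203652) (nat_lit 28697428261) (.two (nat_lit 3531603971) (nat_lit 156533523137) (.two (nat_lit 2097153) (nat_lit 8392190) (.two (nat_lit 1048576) (nat_lit 2102004) (.one (nat_lit 2103254) .nil))))),
   .two (nat_lit 3458203656) (nat_lit 1417675448) (.two (nat_lit 156365750273) (nat_lit 8392191) (.two (nat_lit 1048576) (nat_lit 679482541) .nil)),
   .two (nat_lit 4601151496) (nat_lit 21785215020) (.two (nat_lit 165532401668) (nat_lit 156468511444) (.two (nat_lit 605028353) (nat_lit 3024094751) (.two (nat_lit 1048576) (nat_lit 37752770) (.one (nat_lit 4201281) .nil)))),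
   .two (nat_lit 612368392) (nat_lit 11578376289) (.two (nat_lit 9768534020) (nat_lit 2920284635) (.two (nat_lit 34603011) (nat_lit 20711475434) (.two (nat_lit 2097152) (nat_lit 21207453033) (.one (nat_lit 1055554) .nil)))),
   .two (nat_lit 183848927240) (nat_lit 12047089758) (.two (nat_lit 156968681476) (nat_lit 12117344959) (.two (nat_lit 9765388289) (nat_lit 171968031) (.two (nat_lit 1048576) (nat_lit 4198374) (.one (nat_lit 4201283) .nil)))),
   .two (nat_lit 3539992584) (nat_lit 174753579052) (.two (nat_lit 166130089988) (nat_lit 2432696688) (.two (nat_lit 1913651203) (nat_lit 1862271719) (.two (nat_lit 9765388289) (nat_lit 2100736) (.two (nat_lit 1048576) (nat_lit 169875297) .nil)))),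
   .two (nat_lit 272629768) (nat_lit 109052278) (.two (nat_lit 4194306) (nat_lit 880804536) (.two (nat_lit 37748737) (nat_lit 8391397) (.two (nat_lit 4194304) (nat_lit 1054341) (.one (nat_lit 8395588) .nil)))),
   .two (nat_lit 9881780234) (nat_lit 12147753033) (.two (nat_lit 158158815236) (nat_lit 12147753235) (.two (nat_lit 13191086083) (nat_lit 1343227068) (.two (nat_lit 37748737) (nat_lit 1929382590) (.two (nat_lit 1048576) (nat_lit 16782982) (.one (nat_lit 16784197) .nil))))),
   .two (nat_lit 713031688) (nat_lit 1846542417) (.two (nat_lit 713031684) (nat_lit 156566028762) (.two (nat_lit 612368387) (nat_lit 46406828788) (.two (nat_lit 50331649) (nat_lit 1846545737) (.one (nat_lit 8395590) .nil)))),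
   .two (nat_lit 183853121544) (nat_lit 183949590553) (.two (nat_lit 183848927236) (nat_lit 11618222259) (.two (nat_lit 10506731523) (nat_lit 740295419) (.two (nat_lit 612368385) (nat_lit 10370418931) (.two (nat_lit 2097152) (nat_lit 1413485293) (.one (nat_lit 8395591) .nil))))),
   .two (nat_lit 1291845640) (nat_lit 156533522720) (.two (nat_lit 47548727299) (nat_lit 10385097144) (.two (nat_lit 2097153) (nat_lit 10385098262) (.two (nat_lit 2097152) (nat_lit 11022635730) (.one (nat_lit 16783047) .nil)))),
   .two (nat_lit 11517558793) (nat_lit 166196150317) (.two (nat_lit 19604176900) (nat_lit 19596837212) (.two (nat_lit 270532611) (nat_lit 75498196) (.two (nat_lit 2097153) (nat_lit 10343156400) (.two (nat_lit 1048576) (nat_lit 8392689) (.one (nat_lit 2104136) .nil))))),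
   .two (nat_lit 37748744) (nat_lit 1048942) (.two (nat_lit 4194306) (nat_lit 1051167) (.two (nat_lit 16777217) (nat_lit 876612309) (.two (nat_lit 16777216) (nat_lit 2102006) (.one (nat_lit 4201289) .nil)))),
   .two (nat_lit 47555018760) (nat_lit 773849185) (.two (nat_lit 159224168452) (nat_lit 1049407) (.two (nat_lit 270532611) (nat_lit 47555019192) (.two (nat_lit 2097153) (nat_lit 156573369916) (.two (nat_lit 2097152) (nat_lit 1053431) (.one (nat_lit 2103267) .nil))))),
   .two (nat_lit 8388616) (nat_lit 1795162183) (.two (nat_lit 1358954501) (nat_lit 4605345971) (.two (nat_lit 47550824451) (nat_lit 9772729083) (.two (nat_lit 4194305) (nat_lit 209717447) (.two (nat_lit 4194304) (nat_lit 1054343) (.one (nat_lit 4201290) .nil))))),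
   .two (nat_lit 169869320) (nat_lit 1358954771) (.two (nat_lit 34603011) (nat_lit 16778894) (.two (nat_lit 16777217) (nat_lit 1052161) (.two (nat_lit 2097152) (nat_lit 16782984) (.one (nat_lit 16784203) .nil)))),
   .two (nat_lit 2954887176) (nat_lit 13237223922) (.two (nat_lit 2097155) (nat_lit 4647290502) (.two (nat_lit 34603009) (nat_lit 4199056) (.two (nat_lit 1048576) (nat_lit 4199162) (.one (nat_lit 4201292) .nil)))),
   .two (nat_lit 46409973768) (nat_lit 47555019018) (.two (nat_lit 13195280387) (nat_lit 1049799) (.two (nat_lit 156367847425) (nat_lit 28086110445) (.two (nat_lit 1048576) (nat_lit 4199163) (.one (nat_lit 4201293) .nil)))),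
   .two (nat_lit 20644364296) (nat_lit 183947493851) (.two (nat_lit 4599054339) (nat_lit 158083318199) (.two (nat_lit 2097153) (nat_lit 156573369885) (.two (nat_lit 1048576) (nat_lit 687869276) (.one (nat_lit 2104142) .nil)))),
   .two (nat_lit 11543773192) (nat_lit 608174134) (.two (nat_lit 1291845636) (nat_lit 19026412261) (.two (nat_lit 34603009) (nat_lit 13224642070) (.two (nat_lit 1048576) (nat_lit 4200330) .nil))),
   .two (nat_lit 3458203656) (nat_lit 1779433579) (.two (nat_lit 28806479878) (nat_lit 10369368248) (.two (nat_lit 47555018755) (nat_lit 21812478670) (.two (nat_lit 156365750273) (nat_lit 166237049519) (.one (nat_lit 8395599) .nil)))),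
   .two (nat_lit 11479810056) (nat_lit 10369368122) (.two (nat_lit 185020186630) (nat_lit 13224640895) (.two (nat_lit 806354947) (nat_lit 156468511863) (.two (nat_lit 2097153) (nat_lit 809502980) (.two (nat_lit 1048576) (nat_lit 4200073) (.one (nat_lit 1055568) .nil))))),
   .two (nat_lit 205520904) (nat_lit 159251431465) (.two (nat_lit 158144135172) (nat_lit 2987394165) (.two (nat_lit 9765388289) (nat_lit 339740899) (.two (nat_lit 1048576) (nat_lit 4198395) (.one (nat_lit 1054704) .nil)))),
   .two (nat_lit 272629768) (nat_lit 1191182675) (.two (nat_lit 11492392963) (nat_lit 185023333103) (.two (nat_lit 606076929) (nat_lit 2920286906) (.two (nat_lit 1048576) (nat_lit 2101244) (.one (nat_lit 1054706) .nil)))),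
   .two (nat_lit 11559501832) (nat_lit 156465365035) (.two (nat_lit 83886084) (nat_lit 20704133611) (.two (nat_lit 270532611) (nat_lit 1191183894) (.two (nat_lit 1048576) (nat_lit 16781310) (.one (nat_lit 16784209) .nil)))),
   .two (nat_lit 19530776584) (nat_lit 166129041466) (.two (nat_lit 156465364998) (nat_lit 156567077579) (.two (nat_lit 34603009) (nat_lit 706744116) (.one (nat_lit 10437531464) .nil))),
   .two (nat_lit 713031688) (nat_lit 10540286000) (.two (nat_lit 183853121540) (nat_lit 1950352085) (.two (nat_lit 156372041729) (nat_lit 10907289859) (.two (nat_lit 8388608) (nat_lit 159251436278) (.one (nat_lit 2104146) .nil)))),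
   .two (nat_lit 46980399112) (nat_lit 28691136570) (.two (nat_lit 166230753286) (nat_lit 158146233100) (.two (nat_lit 2097153) (nat_lit 4199707) .nil)),
   .two (nat_lit 285212680) (nat_lit 4601151512) (.two (nat_lit 4605345796) (nat_lit 156367848241) (.two (nat_lit 8388608) (nat_lit 1279265272) (.one (nat_lit 4200438) .nil))),
   .two (nat_lit 16777224) (nat_lit 4632608958) (.two (nat_lit 272629764) (nat_lit 21223178962) (.two (nat_lit 16777217) (nat_lit 157038937622) (.two (nat_lit 2097152) (nat_lit 4197772) (.one (nat_lit 2103305) .nil)))),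
   .two (nat_lit 9881780234) (nat_lit 10000269409) (.two (nat_lit 1795162116) (nat_lit 1049409) (.two (nat_lit 1913651203) (nat_lit 16778895) (.two (nat_lit 9765388289) (nat_lit 16780802) (.two (nat_lit 1048576) (nat_lit 16782023) (.one (nat_lit 1055571) .nil))))),
   .two (nat_lit 822083592) (nat_lit 3527409689) (.two (nat_lit 205520900) (nat_lit 9781117631) (.two (nat_lit 4194305) (nat_lit 158662133985) (.two (nat_lit 1048576) (nat_lit 16781335) (.one (nat_lit 16783373) .nil)))),
   .two (nat_lit 2889875464) (nat_lit 9974056124) (.two (nat_lit 4194305) (nat_lit 20745030365) (.two (nat_lit 2097152) (nat_lit 184419356521) (.one (nat_lit 8394766) .nil))),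
   .two (nat_lit 41943048) (nat_lit 1291845659) (.two (nat_lit 2969567236) (nat_lit 21785215416) (.two (nat_lit 2097153) (nat_lit 2994737087) (.one (nat_lit 8395604) .nil))),
   .two (nat_lit 1795162122) (nat_lit 19096666168) (.two (nat_lit 285212676) (nat_lit 12117344959) (.two (nat_lit 16777217) (nat_lit 171968031) (.two (nat_lit 1048576) (nat_lit 11559505201) (.one (nat_lit 4200463) .nil)))),
   .two (nat_lit 612368392) (nat_lit 1291846332) (.two (nat_lit 8388609) (nat_lit 9781119183) (.two (nat_lit 8388608) (nat_lit 16782081) (.one (nat_lit 8394222) .nil))),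
   .two (nat_lit 809500680) (nat_lit 1176502338) (.two (nat_lit 4601151492) (nat_lit 69206305) (.two (nat_lit 184549379) (nat_lit 28758245816) (.two (nat_lit 4194305) (nat_lit 28758246194) (.two (nat_lit 2097152) (nat_lit 4200074) (.one (nat_lit 2104149) .nil))))),
   .two (nat_lit 166132187145) (nat_lit 46474985514) (.two (nat_lit 156971827204) (nat_lit 28087157454) (.two (nat_lit 156367847425) (nat_lit 19597889325) (.one (nat_lit 2104150) .nil))),
   .two (nat_lit 46980399112) (nat_lit 9974054968) (.two (nat_lit 156367847428) (nat_lit 47588573974) (.two (nat_lit 8388609) (nat_lit 843058682) (.two (nat_lit 8388608) (nat_lit 158146237188) (.one (nat_lit 4200492) .nil)))),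
   .two (nat_lit 184986632200) (nat_lit 183853121812) (.two (nat_lit 75497475) (nat_lit 2317353680) (.two (nat_lit 2097153) (nat_lit 8393361) (.two (nat_lit 2097152) (nat_lit 157035795150) (.one (nat_lit 1055575) .nil)))),
   .two (nat_lit 10504634376) (nat_lit 166132187179) (.two (nat_lit 10504634372) (nat_lit 4194809) (.two (nat_lit 46409973763) (nat_lit 102761192) (.two (nat_lit 34603009) (nat_lit 169871527) (.two (nat_lit 1048576) (nat_lit 2101286) (.one (nat_lit 2104152) .nil))))),
   .two (nat_lit 157036838920) (nat_lit 3036676181) (.two (nat_lit 9948889092) (nat_lit 1948254930) (.two (nat_lit 34603009) (nat_lit 706744197) (.one (nat_lit 16784217) .nil))),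
   .two (nat_lit 2902458376) (nat_lit 20705181798) (.two (nat_lit 3539992580) (nat_lit 19027460378) (.two (nat_lit 2954887171) (nat_lit 605028793) (.two (nat_lit 34603009) (nat_lit 9766438439) (.two (nat_lit 1048576) (nat_lit 16782088) (.one (nat_lit 1054768) .nil))))),
   .two (nat_lit 203423752) (nat_lit 11559501895) (.two (nat_lit 83886086) (nat_lit 10538188979) (.two (nat_lit 16777219) (nat_lit 136315599) (.two (nat_lit 16777217) (nat_lit 10001321809) (.one (nat_lit 2103360) .nil)))),
   .two (nat_lit 169869320) (nat_lit 11559501863) (.two (nat_lit 1343225860) (nat_lit 4613734753) (.two (nat_lit 169869314) (nat_lit 251659909) (.two (nat_lit 16777217) (nat_lit 135270311) (.one (nat_lit 1055578) .nil)))),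
   .two (nat_lit 41943048) (nat_lit 1191182381) (.two (nat_lit 10338959364) (nat_lit 13195281201) (.two (nat_lit 4194304) (nat_lit 8392751) (.one (nat_lit 16783426) .nil))),
   .two (nat_lit 169869320) (nat_lit 184993972403) (.two (nat_lit 34603011) (nat_lit 10913580159) (.two (nat_lit 605028353) (nat_lit 2921334315) (.two (nat_lit 1048576) (nat_lit 8392753) (.one (nat_lit 8395611) .nil)))),
   .two (nat_lit 21785214984) (nat_lit 13191086107) (.two (nat_lit 713031684) (nat_lit 1212154035) (.two (nat_lit 13195280387) (nat_lit 19599983286) (.two (nat_lit 34603009) (nat_lit 156472708451) (.one (nat_lit 8394829) .nil)))),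
   .two (nat_lit 9934209032) (nat_lit 20753416511) (.two (nat_lit 47548727299) (nat_lit 10452207237) (.two (nat_lit 156372041729) (nat_lit 304091141) (.one (nat_lit 2103374) .nil))),
   .two (nat_lit 13195280392) (nat_lit 20704133210) (.two (nat_lit 13195280388) (nat_lit 336593371) (.two (nat_lit 272629763) (nat_lit 873464534) (.two (nat_lit 16777217) (nat_lit 46507494094) (.two (nat_lit 4194304) (nat_lit 1053453) (.one (nat_lit 16783439) .nil))))),
   .two (nat_lit 10506731528) (nat_lit 11577327706) (.two (nat_lit 10506731524) (nat_lit 46507491803) (.two (nat_lit 3525312515) (nat_lit 156566029014) (.two (nat_lit 2097153) (nat_lit 21207454390) (.one (nat_lit 4201308) .nil)))),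
   .two (nat_lit 3525312520) (nat_lit 9814671414) (.two (nat_lit 19532873732) (nat_lit 21778924230) (.two (nat_lit 37748737) (nat_lit 16781346) (.one (nat_lit 16784221) .nil))),
   .two (nat_lit 169869320) (nat_lit 2969567411) (.two (nat_lit 2097155) (nat_lit 28806481023) (.two (nat_lit 606076929) (nat_lit 889196593) (.one (nat_lit 16784222) .nil))),
   .two (nat_lit 11479810056) (nat_lit 159266111807) (.two (nat_lit 218103811) (nat_lit 12117344695) (.two (nat_lit 16777217) (nat_lit 18928897268) (.one (nat_lit 16784223) .nil))),
   .two (nat_lit 21777874952) (nat_lit 185035915612) (.two (nat_lit 605028355) (nat_lit 13203669718) (.two (nat_lit 4194305) (nat_lit 16779551) (.two (nat_lit 1048576) (nat_lit 16781382) (.one (nat_lit 16783466) .nil)))),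
   .two (nat_lit 28690087944) (nat_lit 1413480799) (.two (nat_lit 1913651203) (nat_lit 104858318) (.two (nat_lit 9765388289) (nat_lit 166199298214) (.two (nat_lit 4194304) (nat_lit 1175459058) .nil))),
   .two (nat_lit 184419352584) (nat_lit 303038568) (.two (nat_lit 12114198532) (nat_lit 19599983031) (.two (nat_lit 34603009) (nat_lit 171968038) (.two (nat_lit 1048576) (nat_lit 4197781) (.one (nat_lit 1054835) .nil)))),
   .two (nat_lit 4194312) (nat_lit 1216348484) (.two (nat_lit 605028355) (nat_lit 10001319058) (.two (nat_lit 4194305) (nat_lit 2099491) (.two (nat_lit 1048576) (nat_lit 2102923) (.one (nat_lit 2104160) .nil)))),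
   .two (nat_lit 272629768) (nat_lit 158653743189) (.two (nat_lit 4601151492) (nat_lit 184993972512) (.two (nat_lit 4601151491) (nat_lit 158653743894) (.two (nat_lit 156372041729) (nat_lit 19130222100) (.two (nat_lit 4194304) (nat_lit 8393493) (.one (nat_lit 4200567) .nil))))),
   .two (nat_lit 343932937) (nat_lit 3527409701) (.two (nat_lit 4601151492) (nat_lit 10007610049) (.two (nat_lit 620756993) (nat_lit 4197108) (.two (nat_lit 16777216) (nat_lit 4198477) (.one (nat_lit 8395617) .nil)))),
   .two (nat_lit 46409973768) (nat_lit 10940842069) (.two (nat_lit 28691136516) (nat_lit 13224641218) (.two (nat_lit 41943041) (nat_lit 4196644) (.two (nat_lit 2097152) (nat_lit 4200076) (.one (nat_lit 8395618) .nil)))),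
   .two (nat_lit 16777224) (nat_lit 9940500587) (.two (nat_lit 159224168454) (nat_lit 174768259256) (.two (nat_lit 159224168451) (nat_lit 12633244378) (.two (nat_lit 612368385) (nat_lit 156481095213) (.two (nat_lit 8388608) (nat_lit 16781392) (.one (nat_lit 12624860245) .nil))))),
   .two (nat_lit 739246090) (nat_lit 46409973787) (.two (nat_lit 11476664324) (nat_lit 37316723429) (.two (nat_lit 2097153) (nat_lit 1749026998) (.two (nat_lit 2097152) (nat_lit 1052756) (.one (nat_lit 4201315) .nil)))),
   .two (nat_lit 46407876617) (nat_lit 1224736814) (.two (nat_lit 3458203652) (nat_lit 19109249773) (.two (nat_lit 2097153) (nat_lit 46992983583) (.two (nat_lit 8388608) (nat_lit 16782989) (.one (nat_lit 2103428) .nil)))),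
   .two (nat_lit 276824072) (nat_lit 3527409701) (.two (nat_lit 68157444) (nat_lit 3464495380) (.two (nat_lit 2889875458) (nat_lit 166196151016) (.two (nat_lit 34603009) (nat_lit 4197110) (.two (nat_lit 1048576) (nat_lit 4199193) (.one (nat_lit 4200588) .nil))))),
   .two (nat_lit 50331656) (nat_lit 3464495140) (.two (nat_lit 8388612) (nat_lit 9781119244) (.two (nat_lit 8388608) (nat_lit 352325597) (.one (nat_lit 183928624912) .nil))),
   .two (nat_lit 713031688) (nat_lit 46473937084) (.two (nat_lit 713031684) (nat_lit 166196150547) (.two (nat_lit 612368387) (nat_lit 2920284916) (.two (nat_lit 612368385) (nat_lit 183946447007) (.two (nat_lit 8388608) (nat_lit 1052056) (.one (nat_lit 1054265) .nil))))),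
   .two (nat_lit 16777224) (nat_lit 1410334771) (.two (nat_lit 2969567236) (nat_lit 4028629369) (.two (nat_lit 620756995) (nat_lit 2988442344) (.two (nat_lit 620756993) (nat_lit 1846545097) (.two (nat_lit 1048576) (nat_lit 2102044) (.one (nat_lit 2103444) .nil))))),
   .two (nat_lit 10506731528) (nat_lit 11543773291) (.two (nat_lit 4599054342) (nat_lit 1279263483) (.two (nat_lit 2097153) (nat_lit 171968711) (.two (nat_lit 2097152) (nat_lit 4198501) (.one (nat_lit 4201316) .nil)))),
   .two (nat_lit 3527409672) (nat_lit 19027460363) (.two (nat_lit 10506731523) (nat_lit 12617515752) (.two (nat_lit 34603009) (nat_lit 2100744) (.two (nat_lit 1048576) (nat_lit 12148805674) (.one (nat_lit 1055589) .nil)))),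
   .two (nat_lit 9768534024) (nat_lit 19545456744) (.two (nat_lit 1191182340) (nat_lit 68159689) (.two (nat_lit 1048576) (nat_lit 157051525129) .nil)),
   .two (nat_lit 41943048) (nat_lit 3460300885) (.two (nat_lit 46409973764) (nat_lit 12054432273) (.one (nat_lit 20644368907) .nil)),
   .two (nat_lit 41943048) (nat_lit 10338959413) (.two (nat_lit 46409973764) (nat_lit 10544480972) (.two (nat_lit 4194305) (nat_lit 9940502059) (.two (nat_lit 4194304) (nat_lit 8393502) (.one (nat_lit 4200249) .nil)))),
   .two (nat_lit 11543773192) (nat_lit 174753579046) (.two (nat_lit 21777874948) (nat_lit 28758245658) (.two (nat_lit 21777874947) (nat_lit 20738736829) (.two (nat_lit 605028353) (nat_lit 20738737684) (.two (nat_lit 1048576) (nat_lit 2101356) (.one (nat_lit 1055590) .nil))))),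
   .two (nat_lit 3527409672) (nat_lit 11476664373) (.two (nat_lit 12114198532) (nat_lit 9802088628) (.two (nat_lit 184419352579) (nat_lit 1745879814) (.two (nat_lit 9768534017) (nat_lit 37246470421) (.two (nat_lit 1048576) (nat_lit 4199199) (.one (nat_lit 1055591) .nil))))),
   .two (nat_lit 654311432) (nat_lit 183846830134) (.two (nat_lit 11551113220) (nat_lit 654311700) (.two (nat_lit 713031682) (nat_lit 1176503019) (.two (nat_lit 2097153) (nat_lit 8391419) (.two (nat_lit 8388608) (nat_lit 2102926) (.one (nat_lit 2103460) .nil))))),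
   .two (nat_lit 3460300809) (nat_lit 166230753320) (.two (nat_lit 46409973764) (nat_lit 158077026693) (.two (nat_lit 272629763) (nat_lit 1210057445) (.two (nat_lit 9766436865) (nat_lit 2923434025) (.one (nat_lit 2103462) .nil)))),
   .two (nat_lit 184993972232) (nat_lit 166199296300) (.two (nat_lit 50331651) (nat_lit 339740197) (.two (nat_lit 16777216) (nat_lit 4198510) (.one (nat_lit 8395624) .nil))),
   .two (nat_lit 21777874952) (nat_lit 185035915612) (.two (nat_lit 605028355) (nat_lit 13203669718) (.two (nat_lit 34603009) (nat_lit 11022634322) (.one (nat_lit 16783529) .nil))),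
   .two (nat_lit 11559501832) (nat_lit 3560964159) (.two (nat_lit 4601151492) (nat_lit 9982443870) (.two (nat_lit 9873391619) (nat_lit 3472884883) (.two (nat_lit 41943041) (nat_lit 19545459188) (.one (nat_lit 16784233) .nil)))),
   .two (nat_lit 183853121544) (nat_lit 156969730763) (.two (nat_lit 41943041) (nat_lit 3021999458) (.one (nat_lit 2102863) .nil)),
   .two (nat_lit 272629768) (nat_lit 4028629018) (.two (nat_lit 9768534020) (nat_lit 4028629171) (.two (nat_lit 3527409667) (nat_lit 1780483198) (.two (nat_lit 612368385) (nat_lit 1310722724) (.two (nat_lit 8388608) (nat_lit 21812481265) (.one (nat_lit 2104170) .nil))))),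
   .two (nat_lit 276824072) (nat_lit 18941476912) (.two (nat_lit 8388612) (nat_lit 19142803760) (.two (nat_lit 721420291) (nat_lit 166196151016) (.two (nat_lit 34603009) (nat_lit 13203671298) (.two (nat_lit 1048576) (nat_lit 16782116) (.one (nat_lit 1054895) .nil))))),
   .two (nat_lit 41943048) (nat_lit 2332033072) (.two (nat_lit 184549380) (nat_lit 1417675446) (.two (nat_lit 16777217) (nat_lit 21778926985) (.one (nat_lit 2103472) .nil))),
   .two (nat_lit 28758245403) (nat_lit 2316304424) (.two (nat_lit 174752530440) (nat_lit 2887779909) (.two (nat_lit 605028353) (nat_lit 304091592) (.one (nat_lit 2103839) .nil))),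
   .two (nat_lit 174752530459) (nat_lit 11007950889) (.two (nat_lit 174686470154) (nat_lit 873463991) (.two (nat_lit 10940841988) (nat_lit 156566030498) (.two (nat_lit 9766436865) (nat_lit 9866056222) (.one (nat_lit 1055791) .nil)))),
   .two (nat_lit 156372041769) (nat_lit 20638072874) (.two (nat_lit 18928893960) (nat_lit 41944615) (.two (nat_lit 37748737) (nat_lit 337646041) (.one (nat_lit 3560970491) .nil))),
   .two (nat_lit 12617515033) (nat_lit 13222543655) (.two (nat_lit 4194308) (nat_lit 706742483) (.two (nat_lit 4194305) (nat_lit 2101079) (.two (nat_lit 1048576) (nat_lit 2103037) (.one (nat_lit 4201520) .nil)))),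
   .two (nat_lit 2961178649) (nat_lit 156567076910) (.two (nat_lit 2961178632) (nat_lit 11010048730) (.two (nat_lit 176160770) (nat_lit 174686472328) (.two (nat_lit 605028353) (nat_lit 185027530031) (.two (nat_lit 1048576) (nat_lit 166197204093) (.one (nat_lit 1055285) .nil))))),
   .two (nat_lit 2954887195) (nat_lit 166132187162) (.two (nat_lit 203423752) (nat_lit 46477082692) (.two (nat_lit 705691652) (nat_lit 183848928369) (.two (nat_lit 270532611) (nat_lit 4195883) (.two (nat_lit 605028353) (nat_lit 2101951) (.two (nat_lit 1048576) (nat_lit 2102428) (.one (nat_lit 1055286) .nil)))))),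
   .two (nat_lit 285212697) (nat_lit 157038936135) (.two (nat_lit 285212680) (nat_lit 157038936243) (.two (nat_lit 46980399108) (nat_lit 11626611831) (.two (nat_lit 2889875459) (nat_lit 46523223353) (.two (nat_lit 4194304) (nat_lit 184554592) (.one (nat_lit 46510643572) .nil))))),
   .two (nat_lit 4194330) (nat_lit 13228834871) (.two (nat_lit 4194312) (nat_lit 19033751918) (.two (nat_lit 68157444) (nat_lit 19033752718) (.two (nat_lit 612368387) (nat_lit 158649551518) (.two (nat_lit 2097153) (nat_lit 46984595956) (.two (nat_lit 1048576) (nat_lit 9940507025) .nil))))),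
   .two (nat_lit 306184217) (nat_lit 9781116965) (.two (nat_lit 9781116936) (nat_lit 13191086862) (.two (nat_lit 10343153667) (nat_lit 171968065) (.two (nat_lit 612368385) (nat_lit 205524741) (.two (nat_lit 8388608) (nat_lit 4200190) (.one (nat_lit 4201521) .nil))))),
   .two (nat_lit 4634705965) (nat_lit 16777305) (.two (nat_lit 285212680) (nat_lit 2990539226) (.two (nat_lit 4634705925) (nat_lit 10452207153) (.two (nat_lit 156365750273) (nat_lit 4199104) (.two (nat_lit 2097152) (nat_lit 4199581) (.one (nat_lit 4201017) .nil))))),
   .two (nat_lit 1795162139) (nat_lit 135266341) (.two (nat_lit 754974728) (nat_lit 2316304665) (.two (nat_lit 754974724) (nat_lit 1276117742) (.two (nat_lit 739246083) (nat_lit 46422558253) (.two (nat_lit 605028353) (nat_lit 19545459981) (.two (nat_lit 1048576) (nat_lit 16782494) (.one (nat_lit 16784434) .nil)))))),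
   .two (nat_lit 620757033) (nat_lit 10343153753) (.two (nat_lit 83886088) (nat_lit 3464495544) (.two (nat_lit 721420290) (nat_lit 8390873) (.two (nat_lit 8388609) (nat_lit 9948892500) (.two (nat_lit 1048576) (nat_lit 8393887) (.one (nat_lit 8395827) .nil))))),
   .two (nat_lit 3525312538) (nat_lit 20640170278) (.two (nat_lit 9940500484) (nat_lit 9900655310) (.two (nat_lit 272629763) (nat_lit 1411386593) (.two (nat_lit 4194304) (nat_lit 10336867386) (.one (nat_lit 2103867) .nil)))),
   .two (nat_lit 3525312536) (nat_lit 37316723005) (.two (nat_lit 3460300804) (nat_lit 706740940) (.two (nat_lit 47550824451) (nat_lit 3021997611) (.two (nat_lit 4194305) (nat_lit 2100997) (.two (nat_lit 1048576) (nat_lit 2103039) (.one (nat_lit 1055796) .nil))))),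
   .two (nat_lit 11492393002) (nat_lit 12148801587) (.two (nat_lit 639631368) (nat_lit 3539992906) (.two (nat_lit 639631364) (nat_lit 3472884453) (.two (nat_lit 11559501827) (nat_lit 156365751854) (.two (nat_lit 9781116929) (nat_lit 21812480502) (.two (nat_lit 16777216) (nat_lit 9967768072) (.one (nat_lit 2103868) .nil)))))),
   .two (nat_lit 158143086619) (nat_lit 18941476915) (.two (nat_lit 117440520) (nat_lit 18925748405) (.two (nat_lit 21207449604) (nat_lit 20652753694) (.two (nat_lit 158143086595) (nat_lit 16779947) (.two (nat_lit 605028353) (nat_lit 16781144) (.two (nat_lit 1048576) (nat_lit 16782496) (.one (nat_lit 16784437) .nil)))))),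
   .two (nat_lit 28086108187) (nat_lit 158077026355) (.two (nat_lit 1795162120) (nat_lit 19127075169) (.two (nat_lit 2887778308) (nat_lit 285214910) (.two (nat_lit 9766436865) (nat_lit 1947210273) (.one (nat_lit 2104374) .nil)))),
   .two (nat_lit 12147753002) (nat_lit 2894069820) (.two (nat_lit 12114198536) (nat_lit 10007609628) (.two (nat_lit 12114198532) (nat_lit 3028288194) (.two (nat_lit 184416206851) (nat_lit 3531605537) (.two (nat_lit 34603009) (nat_lit 2323649039) (.one (nat_lit 1055799) .nil))))),
   .two (nat_lit 12147753002) (nat_lit 166211878957) (.two (nat_lit 159224168456) (nat_lit 2317353300) (.two (nat_lit 11476664324) (nat_lit 156573368761) (.two (nat_lit 822083587) (nat_lit 28697429533) (.two (nat_lit 50331649) (nat_lit 20637027555) (.two (nat_lit 2097152) (nat_lit 1054464) (.one (nat_lit 16784440) .nil)))))),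
   .two (nat_lit 46414168089) (nat_lit 28101837129) (.two (nat_lit 184549380) (nat_lit 109053487) (.two (nat_lit 8388609) (nat_lit 158091708923) (.two (nat_lit 8388608) (nat_lit 16781888) (.one (nat_lit 3036682445) .nil)))),
   .two (nat_lit 183928619034) (nat_lit 185020186667) (.two (nat_lit 1929379848) (nat_lit 102760786) (.two (nat_lit 19604176900) (nat_lit 1914701347) (.two (nat_lit 8388609) (nat_lit 10504637734) (.two (nat_lit 1048576) (nat_lit 2103041) (.one (nat_lit 1055801) .nil))))),
   .two (nat_lit 9881780249) (nat_lit 9899606296) (.two (nat_lit 11543773188) (nat_lit 83887637) (.two (nat_lit 605028353) (nat_lit 16780631) (.two (nat_lit 1048576) (nat_lit 16783106) (.one (nat_lit 16784442) .nil)))),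
   .two (nat_lit 11559501866) (nat_lit 184416206907) (.two (nat_lit 1358954504) (nat_lit 1048949) (.two (nat_lit 169869316) (nat_lit 1862272543) (.two (nat_lit 34603009) (nat_lit 102763745) (.two (nat_lit 1048576) (nat_lit 158647456298) (.one (nat_lit 2104379) .nil))))),
   .two (nat_lit 47548727322) (nat_lit 166132187162) (.two (nat_lit 47548727304) (nat_lit 156535619652) (.two (nat_lit 47548727300) (nat_lit 2319450847) (.two (nat_lit 612368387) (nat_lit 740297206) (.two (nat_lit 8388608) (nat_lit 35656228) (.one (nat_lit 2104380) .nil))))),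
   .two (nat_lit 285212696) (nat_lit 1379926199) (.two (nat_lit 50331652) (nat_lit 11580474061) (.two (nat_lit 2889875458) (nat_lit 9781118483) (.two (nat_lit 612368385) (nat_lit 12163485509) (.two (nat_lit 4194304) (nat_lit 8394499) (.one (nat_lit 8395330) .nil))))),
   .two (nat_lit 721420314) (nat_lit 13195280411) (.two (nat_lit 721420296) (nat_lit 183853121715) (.two (nat_lit 880803845) (nat_lit 150995707) (.two (nat_lit 156372041731) (nat_lit 16779948) (.two (nat_lit 34603009) (nat_lit 10544484114) (.two (nat_lit 1048576) (nat_lit 8393890) (.one (nat_lit 8395837) .nil)))))),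
   .two (nat_lit 156569174054) (nat_lit 1377828910) (.two (nat_lit 10504634376) (nat_lit 156569174084) (.two (nat_lit 10506731524) (nat_lit 9900655330) (.two (nat_lit 2889875459) (nat_lit 2099885) (.two (nat_lit 4194305) (nat_lit 19094574126) (.one (nat_lit 2104206) .nil))))),
   .two (nat_lit 4601151512) (nat_lit 183853121625) (.two (nat_lit 4601151496) (nat_lit 8388968) (.two (nat_lit 75497476) (nat_lit 20753417328) (.two (nat_lit 9948889091) (nat_lit 8390875) (.two (nat_lit 9781116929) (nat_lit 166136384739) (.two (nat_lit 8388608) (nat_lit 16783108) (.one (nat_lit 16784446) .nil)))))),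
   .two (nat_lit 16777240) (nat_lit 47588573538) (.two (nat_lit 83886084) (nat_lit 11610882761) (.two (nat_lit 8388611) (nat_lit 16778772) (.two (nat_lit 8388609) (nat_lit 3573550331) (.two (nat_lit 1048576) (nat_lit 41949472) .nil)))),
   .two (nat_lit 156372041755) (nat_lit 3021996117) (.two (nat_lit 20644364296) (nat_lit 19027460365) (.two (nat_lit 2954887172) (nat_lit 21818771010) (.two (nat_lit 2097153) (nat_lit 8392537) (.two (nat_lit 8388608) (nat_lit 337647288) (.one (nat_lit 2104383) .nil))))),
   .two (nat_lit 11559501851) (nat_lit 20704133147) (.two (nat_lit 21207449608) (nat_lit 754975160) (.two (nat_lit 158143086595) (nat_lit 10351543837) (.two (nat_lit 605028353) (nat_lit 10385099251) (.two (nat_lit 1048576) (nat_lit 16781891) (.one (nat_lit 4613740743) .nil))))),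
   .two (nat_lit 50331675) (nat_lit 28697428020) (.two (nat_lit 1350565896) (nat_lit 174701151773) (.two (nat_lit 4194305) (nat_lit 1862273525) (.two (nat_lit 16777216) (nat_lit 4199588) (.one (nat_lit 16783942) .nil)))),
   .two (nat_lit 4613734426) (nat_lit 880803877) (.two (nat_lit 41943048) (nat_lit 11544821945) (.two (nat_lit 822083588) (nat_lit 158077027102) (.two (nat_lit 75497475) (nat_lit 1050845) (.two (nat_lit 8388609) (nat_lit 28086112040) (.two (nat_lit 1048576) (nat_lit 16782501) (.one (nat_lit 1055808) .nil)))))),
   .two (nat_lit 721420313) (nat_lit 19130220584) (.two (nat_lit 1178599432) (nat_lit 721420728) (.two (nat_lit 822083587) (nat_lit 12117345074) (.two (nat_lit 50331649) (nat_lit 171969807) (.two (nat_lit 8388608) (nat_lit 3003126237) (.one (nat_lit 4201537) .nil))))),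
   .two (nat_lit 12117344280) (nat_lit 12617515379) (.two (nat_lit 1343225860) (nat_lit 1312817933) (.two (nat_lit 2894069763) (nat_lit 158079125681) (.two (nat_lit 8388609) (nat_lit 166129044733) (.two (nat_lit 4194304) (nat_lit 1054469) (.one (nat_lit 1055304) .nil))))),
   .two (nat_lit 306184217) (nat_lit 20737687603) (.two (nat_lit 41943048) (nat_lit 46977254094) (.two (nat_lit 8388610) (nat_lit 3557820582) (.two (nat_lit 4194305) (nat_lit 605031755) (.two (nat_lit 1048576) (nat_lit 8393894) (.one (nat_lit 1055810) .nil))))),
   .two (nat_lit 183853121561) (nat_lit 1916797216) (.two (nat_lit 183848927236) (nat_lit 183853123095) (.two (nat_lit 9768534017) (nat_lit 156372046377) (.one (nat_lit 174692768623) .nil))),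
   .two (nat_lit 101711899) (nat_lit 12620660779) (.two (nat_lit 205520904) (nat_lit 158144135447) (.two (nat_lit 166130089988) (nat_lit 19130221247) (.two (nat_lit 166130089986) (nat_lit 157035793633) (.two (nat_lit 1048576) (nat_lit 2103046) (.one (nat_lit 2104387) .nil))))),
   .two (nat_lit 41943067) (nat_lit 1212153894) (.two (nat_lit 13191086088) (nat_lit 1283457332) (.two (nat_lit 272629764) (nat_lit 142607109) (.two (nat_lit 19532873731) (nat_lit 176164151) (.two (nat_lit 4194304) (nat_lit 8393895) (.one (nat_lit 156372048130) .nil))))),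
   .two (nat_lit 174753579052) (nat_lit 28697428016) (.two (nat_lit 165532401672) (nat_lit 10940842424) (.two (nat_lit 10504634371) (nat_lit 12121541868) (.two (nat_lit 2097152) (nat_lit 8393225) (.one (nat_lit 8395337) .nil)))),
   .two (nat_lit 10007609371) (nat_lit 2969567322) (.two (nat_lit 176160776) (nat_lit 16778040) (.two (nat_lit 12054429700) (nat_lit 11476665482) (.two (nat_lit 285212675) (nat_lit 46984596798) (.two (nat_lit 1048576) (nat_lit 11618226754) (.one (nat_lit 1055812) .nil))))),
   .two (nat_lit 174686470171) (nat_lit 638582828) (.two (nat_lit 2961178632) (nat_lit 10001318602) (.two (nat_lit 1343225859) (nat_lit 69207604) (.two (nat_lit 156365750273) (nat_lit 235932909) (.two (nat_lit 2097152) (nat_lit 1053864) (.one (nat_lit 2104389) .nil))))),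
   .two (nat_lit 47548727322) (nat_lit 3573547051) (.two (nat_lit 169869320) (nat_lit 620757279) (.two (nat_lit 705691652) (nat_lit 12129927894) (.two (nat_lit 34603011) (nat_lit 12163484322) (.two (nat_lit 620756993) (nat_lit 35655443) (.two (nat_lit 2097152) (nat_lit 16783111) (.one (nat_lit 16784454) .nil)))))),
   .two (nat_lit 1358954523) (nat_lit 156465365045) (.two (nat_lit 184993972232) (nat_lit 3557819136) (.two (nat_lit 28757196803) (nat_lit 10921969184) (.two (nat_lit 620756993) (nat_lit 1410338045) (.two (nat_lit 1048576) (nat_lit 8394504) (.one (nat_lit 8395847) .nil))))),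
   .two (nat_lit 339738650) (nat_lit 2902458412) (.two (nat_lit 4194312) (nat_lit 11022631708) (.two (nat_lit 171966467) (nat_lit 37262200110) (.two (nat_lit 1048576) (nat_lit 4043313650) (.one (nat_lit 1055816) .nil)))),
   .two (nat_lit 2969567257) (nat_lit 3525312593) (.two (nat_lit 21208498184) (nat_lit 4613734581) (.two (nat_lit 21208498180) (nat_lit 9915335386) (.two (nat_lit 1277165571) (nat_lit 788530733) (.two (nat_lit 2097153) (nat_lit 1426066697) (.two (nat_lit 2097152) (nat_lit 16783113) (.one (nat_lit 2103884) .nil)))))),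
   .two (nat_lit 46477082650) (nat_lit 9934209343) (.two (nat_lit 2887778308) (nat_lit 2319451681) (.two (nat_lit 2097153) (nat_lit 1212157198) (.two (nat_lit 4194304) (nat_lit 1054474) (.one (nat_lit 303045570) .nil)))),
   .two (nat_lit 1291845670) (nat_lit 679477300) (.two (nat_lit 75497480) (nat_lit 1795162551) (.two (nat_lit 83886083) (nat_lit 158083320306) (.two (nat_lit 16777216) (nat_lit 2894073310) (.one (nat_lit 41948769) .nil)))),
   .two (nat_lit 754974745) (nat_lit 9974054963) (.two (nat_lit 754974728) (nat_lit 11551113591) (.two (nat_lit 276824068) (nat_lit 754975160) (.two (nat_lit 721420291) (nat_lit 183853122354) (.two (nat_lit 16777217) (nat_lit 337644841) (.two (nat_lit 2097152) (nat_lit 47581237713) (.one (nat_lit 8395849) .nil)))))),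
   .two (nat_lit 47555018777) (nat_lit 3558866985) (.two (nat_lit 47555018760) (nat_lit 156466415162) (.two (nat_lit 2097153) (nat_lit 46414170611) (.two (nat_lit 2097152) (nat_lit 19604181526) (.one (nat_lit 10336868925) .nil)))),
   .two (nat_lit 83886107) (nat_lit 19100860470) (.two (nat_lit 9881780232) (nat_lit 9798943030) (.two (nat_lit 10369368068) (nat_lit 83887637) (.two (nat_lit 8388609) (nat_lit 21207452981) (.two (nat_lit 8388608) (nat_lit 1053866) (.one (nat_lit 1055818) .nil))))),
   .two (nat_lit 4605345817) (nat_lit 19532873771) (.two (nat_lit 156971827208) (nat_lit 2961178805) (.two (nat_lit 156971827204) (nat_lit 12155093722) (.two (nat_lit 18928893955) (nat_lit 158183982637) (.two (nat_lit 4194305) (nat_lit 4605349167) (.two (nat_lit 4194304) (nat_lit 8394507) (.one (nat_lit 4201039) .nil)))))),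
   .two (nat_lit 16777240) (nat_lit 13195280452) (.two (nat_lit 41943044) (nat_lit 1862271688) (.two (nat_lit 620756995) (nat_lit 166203491875) (.two (nat_lit 156372041729) (nat_lit 83889924) (.two (nat_lit 8388608) (nat_lit 16782507) (.one (nat_lit 28764543160) .nil))))),
   .two (nat_lit 4194330) (nat_lit 1291845916) (.two (nat_lit 4194308) (nat_lit 855638801) (.two (nat_lit 46422556675) (nat_lit 10907290268) (.two (nat_lit 2097153) (nat_lit 11577330944) (.two (nat_lit 16777216) (nat_lit 159216833043) (.one (nat_lit 1055819) .nil))))),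
   .two (nat_lit 3464495129) (nat_lit 840958246) (.two (nat_lit 37748740) (nat_lit 1350566608) (.two (nat_lit 4194306) (nat_lit 8390878) (.two (nat_lit 4194305) (nat_lit 2101082) (.two (nat_lit 4194304) (nat_lit 10336868075) (.one (nat_lit 8395852) .nil))))),
   .two (nat_lit 3527409690) (nat_lit 21793603632) (.two (nat_lit 2889875464) (nat_lit 50331933) (.two (nat_lit 11492392964) (nat_lit 3527410481) (.two (nat_lit 50331649) (nat_lit 184989782502) (.one (nat_lit 171972887) .nil)))),
   .two (nat_lit 16777240) (nat_lit 159224168491) (.two (nat_lit 159224168461) (nat_lit 889192516) (.two (nat_lit 10007609349) (nat_lit 1761608450) (.two (nat_lit 21785214979) (nat_lit 16779487) (.two (nat_lit 612368385) (nat_lit 16780632) (.two (nat_lit 2097152) (nat_lit 21818774674) (.one (nat_lit 8395853) .nil)))))),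
   .two (nat_lit 9881780249) (nat_lit 12150898739) (.two (nat_lit 176160776) (nat_lit 117440781) (.two (nat_lit 620756996) (nat_lit 13195281081) (.two (nat_lit 46409973762) (nat_lit 19100862619) (.two (nat_lit 4194305) (nat_lit 8392539) (.two (nat_lit 8388608) (nat_lit 16783116) (.one (nat_lit 4201550) .nil)))))),
   .two (nat_lit 19142803494) (nat_lit 157038936105) (.two (nat_lit 822083592) (nat_lit 809501007) (.two (nat_lit 11492392964) (nat_lit 809501419) (.two (nat_lit 158150426627) (nat_lit 16778034) (.two (nat_lit 16777217) (nat_lit 641731879) (.two (nat_lit 4194304) (nat_lit 721424962) (.one (nat_lit 50338812) .nil)))))),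
   .two (nat_lit 843055149) (nat_lit 18925748275) (.two (nat_lit 10504634376) (nat_lit 1178599892) (.two (nat_lit 10506731525) (nat_lit 2097957) (.two (nat_lit 184419352579) (nat_lit 773851346) (.two (nat_lit 37748737) (nat_lit 1377832218) (.two (nat_lit 4194304) (nat_lit 1054479) (.one (nat_lit 4201552) .nil)))))),
   .two (nat_lit 1847590937) (nat_lit 11610882109) (.two (nat_lit 41943048) (nat_lit 185021235550) (.two (nat_lit 10336862212) (nat_lit 28790751976) (.two (nat_lit 21207449603) (nat_lit 8391342) (.two (nat_lit 605028353) (nat_lit 8393409) (.two (nat_lit 2097152) (nat_lit 8394512) (.one (nat_lit 8395858) .nil)))))),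
   .two (nat_lit 218103834) (nat_lit 12150898730) (.two (nat_lit 9781116936) (nat_lit 159219974326) (.two (nat_lit 218103812) (nat_lit 20640170702) (.two (nat_lit 713031683) (nat_lit 12633245243) (.two (nat_lit 16777217) (nat_lit 4198961) (.one (nat_lit 8395859) .nil))))),
   .two (nat_lit 12054429721) (nat_lit 47563407423) (.two (nat_lit 12054429704) (nat_lit 166245433692) (.two (nat_lit 184993972229) (nat_lit 2936013522) (.two (nat_lit 713031683) (nat_lit 9781118487) (.two (nat_lit 8388609) (nat_lit 3472887034) (.two (nat_lit 4194304) (nat_lit 3472888296) (.one (nat_lit 16784468) .nil)))))),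
   .two (nat_lit 218103833) (nat_lit 158144135210) (.two (nat_lit 218103816) (nat_lit 21208498879) (.two (nat_lit 2902458370) (nat_lit 2099425) (.two (nat_lit 606076929) (nat_lit 2969572493) (.one (nat_lit 2103654) .nil)))),
   .two (nat_lit 4613734426) (nat_lit 183853121823) (.two (nat_lit 4613734404) (nat_lit 47588573910) (.two (nat_lit 2902458370) (nat_lit 12115248702) (.two (nat_lit 50331649) (nat_lit 166130093819) (.two (nat_lit 8388608) (nat_lit 1054482) (.one (nat_lit 8395862) .nil))))),
   .two (nat_lit 285212697) (nat_lit 1413480502) (.two (nat_lit 285212680) (nat_lit 28764537171) (.two (nat_lit 184549380) (nat_lit 1920991988) (.two (nat_lit 1178599427) (nat_lit 13203670584) (.two (nat_lit 4194305) (nat_lit 28101840132) (.two (nat_lit 4194304) (nat_lit 9772734162) (.one (nat_lit 8395344) .nil)))))),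
   .two (nat_lit 157038936109) (nat_lit 2954887225) (.two (nat_lit 9948889096) (nat_lit 2988442303) (.two (nat_lit 69206019) (nat_lit 184550194) (.two (nat_lit 2097153) (nat_lit 19042143503) (.two (nat_lit 4194304) (nat_lit 156466418141) (.one (nat_lit 2104407) .nil))))),
   .two (nat_lit 272629786) (nat_lit 183962173521) (.two (nat_lit 9934209032) (nat_lit 11010048068) (.two (nat_lit 9934209028) (nat_lit 71303877) (.two (nat_lit 50331651) (nat_lit 28760344114) (.two (nat_lit 50331649) (nat_lit 28691139837) (.two (nat_lit 16777216) (nat_lit 2102446) (.one (nat_lit 16783953) .nil)))))),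
   .two (nat_lit 184549401) (nat_lit 10538188843) (.two (nat_lit 184549384) (nat_lit 156365750998) (.two (nat_lit 184549378) (nat_lit 28791803134) (.two (nat_lit 16777216) (nat_lit 69211196) (.one (nat_lit 2104408) .nil)))),
   .two (nat_lit 4634705946) (nat_lit 9866051878) (.two (nat_lit 606076932) (nat_lit 1745880183) (.two (nat_lit 69206019) (nat_lit 157035792542) (.two (nat_lit 37748737) (nat_lit 740299225) (.one (nat_lit 20707285326) .nil)))),
   .two (nat_lit 46474985499) (nat_lit 12150898734) (.two (nat_lit 159232557064) (nat_lit 156533522612) (.two (nat_lit 46409973764) (nat_lit 11578377758) (.two (nat_lit 4194305) (nat_lit 185021237764) (.two (nat_lit 2097152) (nat_lit 4200896) .nil)))),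
   .two (nat_lit 672137259) (nat_lit 174686470188) (.two (nat_lit 10385096712) (nat_lit 10001318241) (.two (nat_lit 705691652) (nat_lit 9781117745) (.two (nat_lit 4194305) (nat_lit 166229709350) (.one (nat_lit 166197205357) .nil)))),
   .two (nat_lit 4605345817) (nat_lit 159251431464) (.two (nat_lit 37748744) (nat_lit 19033752312) (.two (nat_lit 272629763) (nat_lit 37320919710) (.two (nat_lit 4194305) (nat_lit 679481856) (.one (nat_lit 8395865) .nil)))),
   .two (nat_lit 184549401) (nat_lit 9768534084) (.two (nat_lit 184549380) (nat_lit 1312817868) (.two (nat_lit 16777219) (nat_lit 205522498) (.two (nat_lit 612368385) (nat_lit 10552872269) (.two (nat_lit 8388608) (nat_lit 37262201382) (.one (nat_lit 8395348) .nil))))),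
   .two (nat_lit 156569174059) (nat_lit 28690087980) (.two (nat_lit 1913651208) (nat_lit 4194793) (.two (nat_lit 10506731525) (nat_lit 9966715622) (.two (nat_lit 809500675) (nat_lit 159216830000) (.two (nat_lit 37748737) (nat_lit 156364704245) (.two (nat_lit 1048576) (nat_lit 20740839812) .nil))))),
   .two (nat_lit 3558866971) (nat_lit 12150898736) (.two (nat_lit 2954887176) (nat_lit 183848927979) (.two (nat_lit 2097155) (nat_lit 2319451682) (.two (nat_lit 2097153) (nat_lit 156367852041) (.one (nat_lit 4201045) .nil)))),
   .two (nat_lit 28758245413) (nat_lit 11525947441) (.two (nat_lit 2969567240) (nat_lit 19027460374) (.two (nat_lit 2969567236) (nat_lit 13188989688) (.two (nat_lit 639631363) (nat_lit 9781117746) (.two (nat_lit 606076929) (nat_lit 16780633) (.two (nat_lit 2097152) (nat_lit 16783125) (.one (nat_lit 2104410) .nil)))))),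
   .two (nat_lit 754974759) (nat_lit 1954545715) (.two (nat_lit 16777226) (nat_lit 8389098) (.two (nat_lit 285212676) (nat_lit 159257723600) (.two (nat_lit 10385096707) (nat_lit 1216351488) (.two (nat_lit 8388608) (nat_lit 16783126) (.one (nat_lit 4647295384) .nil))))),
   .two (nat_lit 285212696) (nat_lit 10001317928) (.two (nat_lit 37748744) (nat_lit 156548203235) (.two (nat_lit 2889875459) (nat_lit 270534183) (.two (nat_lit 2097153) (nat_lit 16780634) (.two (nat_lit 4194304) (nat_lit 2102448) (.one (nat_lit 16783958) .nil))))),
   .two (nat_lit 158176641062) (nat_lit 4034920499) (.two (nat_lit 11492392968) (nat_lit 1853883087) (.two (nat_lit 822083587) (nat_lit 1410336293) (.two (nat_lit 50331649) (nat_lit 1417678125) (.two (nat_lit 16777216) (nat_lit 8394519) (.one (nat_lit 1055835) .nil))))),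
   .two (nat_lit 21208498202) (nat_lit 19612565558) (.two (nat_lit 1191182344) (nat_lit 28760342823) (.two (nat_lit 3460300804) (nat_lit 11611931799) (.two (nat_lit 171966467) (nat_lit 1358956762) (.two (nat_lit 4194305) (nat_lit 11477717458) (.one (nat_lit 1279269093) .nil))))),
   .two (nat_lit 158144135193) (nat_lit 1920991278) (.two (nat_lit 47555018760) (nat_lit 28758245816) (.two (nat_lit 2097155) (nat_lit 37253811496) (.two (nat_lit 1048576) (nat_lit 165526116925) .nil))),
   .two (nat_lit 156535619611) (nat_lit 37314625587) (.two (nat_lit 19532873736) (nat_lit 1049067) (.two (nat_lit 169869316) (nat_lit 71303885) (.two (nat_lit 12117344259) (nat_lit 1050850) (.two (nat_lit 2097153) (nat_lit 4197723) (.two (nat_lit 1048576) (nat_lit 4198982) (.one (nat_lit 1055836) .nil)))))),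
   .two (nat_lit 9948889115) (nat_lit 184987680950) (.two (nat_lit 813694980) (nat_lit 10385097143) (.two (nat_lit 2887778306) (nat_lit 18941479425) (.two (nat_lit 2097152) (nat_lit 8395209) .nil))),
   .two (nat_lit 184986632218) (nat_lit 46481277238) (.two (nat_lit 1350565892) (nat_lit 772802069) (.two (nat_lit 4194305) (nat_lit 10906242372) (.two (nat_lit 4194304) (nat_lit 156472710314) (.one (nat_lit 1055837) .nil)))),
   .two (nat_lit 11593056281) (nat_lit 1376780332) (.two (nat_lit 185002360840) (nat_lit 46406828325) (.two (nat_lit 3539992580) (nat_lit 3560964803) (.two (nat_lit 2902458370) (nat_lit 4196579) (.two (nat_lit 156364701697) (nat_lit 2887780868) (.two (nat_lit 1048576) (nat_lit 2102449) (.one (nat_lit 2104414) .nil)))))),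
   .two (nat_lit 101711899) (nat_lit 47584378940) (.two (nat_lit 205520904) (nat_lit 47582281908) (.two (nat_lit 205520900) (nat_lit 2098328) (.two (nat_lit 18928893955) (nat_lit 2099428) (.two (nat_lit 9765388289) (nat_lit 183846832644) (.two (nat_lit 1048576) (nat_lit 2103064) (.one (nat_lit 1055839) .nil)))))),
   .two (nat_lit 16777241) (nat_lit 880803883) (.two (nat_lit 183853121544) (nat_lit 16777604) (.two (nat_lit 183853121540) (nat_lit 16777655) (.two (nat_lit 41943043) (nat_lit 158662134264) (.two (nat_lit 8388608) (nat_lit 10452210172) (.one (nat_lit 16783961) .nil))))),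
   .two (nat_lit 2969567258) (nat_lit 20644364352) (.two (nat_lit 176160776) (nat_lit 2432697036) (.two (nat_lit 176160770) (nat_lit 21793605163) (.two (nat_lit 8388609) (nat_lit 159219977526) (.two (nat_lit 4194304) (nat_lit 158083324189) .nil)))),
   .two (nat_lit 37313576987) (nat_lit 156533522473) (.two (nat_lit 166130089992) (nat_lit 1410335433) (.two (nat_lit 10504634371) (nat_lit 158183984410) (.two (nat_lit 1048576) (nat_lit 158150431206) (.one (nat_lit 8395872) .nil)))),
   .two (nat_lit 2902458393) (nat_lit 9768534057) (.two (nat_lit 176160776) (nat_lit 46422556983) (.two (nat_lit 2902458372) (nat_lit 8390275) (.two (nat_lit 12117344259) (nat_lit 19100862619) (.two (nat_lit 37748737) (nat_lit 75501403) (.two (nat_lit 4194304) (nat_lit 8394521) (.one (nat_lit 4201051) .nil)))))),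
   .two (nat_lit 21812477997) (nat_lit 1846542388) (.two (nat_lit 11543773192) (nat_lit 304087355) (.two (nat_lit 11543773188) (nat_lit 184417256195) (.two (nat_lit 739246083) (nat_lit 608176283) (.two (nat_lit 34603009) (nat_lit 809504079) (.two (nat_lit 2097152) (nat_lit 19026416071) (.one (nat_lit 1055324) .nil)))))),
   .two (nat_lit 11559501850) (nat_lit 4634705973) (.two (nat_lit 11559501832) (nat_lit 2920284462) (.two (nat_lit 4194308) (nat_lit 1358956052) (.two (nat_lit 37748737) (nat_lit 1053819) (.one (nat_lit 705698197) .nil)))),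
   .two (nat_lit 2969567257) (nat_lit 11007950930) (.two (nat_lit 184549384) (nat_lit 3458204433) (.two (nat_lit 8388610) (nat_lit 11544825059) (.two (nat_lit 2097152) (nat_lit 8395220) .nil))),
   .two (nat_lit 1795162139) (nat_lit 1913651227) (.two (nat_lit 754974728) (nat_lit 183946445130) (.two (nat_lit 2416967686) (nat_lit 10552869615) (.two (nat_lit 19596836867) (nat_lit 318769287) (.two (nat_lit 9765388289) (nat_lit 822088815) (.one (nat_lit 822090135) .nil))))),
   .two (nat_lit 4613734426) (nat_lit 28093448235) (.two (nat_lit 10336862216) (nat_lit 11584667949) (.two (nat_lit 10336862212) (nat_lit 8389785) (.two (nat_lit 713031683) (nat_lit 1913653909) (.two (nat_lit 2097153) (nat_lit 1052509) (.two (nat_lit 2097152) (nat_lit 1054490) (.one (nat_lit 1055841) .nil)))))),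
   .two (nat_lit 1913651227) (nat_lit 12163481638) (.two (nat_lit 1795162120) (nat_lit 1048760) (.two (nat_lit 28690087940) (nat_lit 183846830805) (.two (nat_lit 1913651203) (nat_lit 20638075074) (.two (nat_lit 9766436865) (nat_lit 13187943730) (.two (nat_lit 1048576) (nat_lit 2102450) (.one (nat_lit 16784482) .nil)))))),
   .two (nat_lit 2969567257) (nat_lit 159250382905) (.two (nat_lit 1291845640) (nat_lit 1309671720) (.two (nat_lit 705691652) (nat_lit 2969567925) (.two (nat_lit 654311427) (nat_lit 12148803120) (.two (nat_lit 2097153) (nat_lit 9966718260) (.two (nat_lit 2097152) (nat_lit 1055189) .nil))))),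
   .two (nat_lit 285212697) (nat_lit 606076987) (.two (nat_lit 2969567240) (nat_lit 156365750453) (.two (nat_lit 1745879044) (nat_lit 158647452088) (.two (nat_lit 2097155) (nat_lit 16779493) (.two (nat_lit 2097153) (nat_lit 721424182) (.two (nat_lit 1048576) (nat_lit 2102451) (.one (nat_lit 2103902) .nil)))))),
   .two (nat_lit 158083317785) (nat_lit 352321574) (.two (nat_lit 158083317768) (nat_lit 352321872) (.two (nat_lit 166129041412) (nat_lit 157051520547) (.two (nat_lit 9765388289) (nat_lit 159257727455) (.one (nat_lit 8395222) .nil)))),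
   .two (nat_lit 159251431465) (nat_lit 28101836861) (.two (nat_lit 1277165576) (nat_lit 16777493) (.two (nat_lit 2969567236) (nat_lit 47582282434) (.two (nat_lit 2902458370) (nat_lit 46978304164) (.two (nat_lit 156364701697) (nat_lit 11578380063) (.two (nat_lit 1048576) (nat_lit 9867104769) (.one (nat_lit 2104419) .nil)))))),
   .two (nat_lit 18933088292) (nat_lit 1175453744) (.two (nat_lit 12047089672) (nat_lit 18933088532) (.two (nat_lit 184993972228) (nat_lit 2886730455) (.two (nat_lit 713031682) (nat_lit 1050854) (.two (nat_lit 16777217) (nat_lit 1053378) (.two (nat_lit 16777216) (nat_lit 1054491) (.one (nat_lit 1055844) .nil)))))),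
   .two (nat_lit 16777240) (nat_lit 28790751291) (.two (nat_lit 721420296) (nat_lit 158083318113) (.two (nat_lit 9881780228) (nat_lit 11006903411) (.two (nat_lit 3531603971) (nat_lit 156581758500) (.two (nat_lit 8388609) (nat_lit 37313579520) (.two (nat_lit 8388608) (nat_lit 1053876) (.one (nat_lit 16784485) .nil)))))),
   .two (nat_lit 1212153895) (nat_lit 156364701753) (.two (nat_lit 183848927240) (nat_lit 159216829159) (.two (nat_lit 10503585795) (nat_lit 4196583) (.two (nat_lit 156364701697) (nat_lit 28793902147) (.one (nat_lit 8395878) .nil)))),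
   .two (nat_lit 2889875482) (nat_lit 19142803499) (.two (nat_lit 2889875464) (nat_lit 166129041695) (.two (nat_lit 2889875460) (nat_lit 873464534) (.two (nat_lit 285212675) (nat_lit 46406829594) (.two (nat_lit 16777217) (nat_lit 158079128082) (.one (nat_lit 4201575) .nil))))),
   .two (nat_lit 4605345816) (nat_lit 19130220588) (.two (nat_lit 46510637066) (nat_lit 13195280452) (.two (nat_lit 3527409668) (nat_lit 13195281201) (.two (nat_lit 4194305) (nat_lit 8392162) (.one (nat_lit 2961185065) .nil)))),
   .two (nat_lit 47588573220) (nat_lit 19027460139) (.two (nat_lit 47588573193) (nat_lit 157036839260) (.two (nat_lit 10343153668) (nat_lit 37247517834) (.two (nat_lit 34603011) (nat_lit 184993974769) (.two (nat_lit 1048576) (nat_lit 8394524) (.one (nat_lit 136322116) .nil))))),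
   .two (nat_lit 10343153691) (nat_lit 285212761) (.two (nat_lit 16777224) (nat_lit 165532401843) (.two (nat_lit 47563407364) (nat_lit 8390276) (.two (nat_lit 159224168451) (nat_lit 9781119129) (.two (nat_lit 612368385) (nat_lit 218107192) (.two (nat_lit 1048576) (nat_lit 19134419403) (.one (nat_lit 8395880) .nil)))))),
   .two (nat_lit 10506731547) (nat_lit 166129041450) (.two (nat_lit 1191182344) (nat_lit 1950351541) (.two (nat_lit 117440516) (nat_lit 34603727) (.two (nat_lit 11492392962) (nat_lit 11577329802) (.two (nat_lit 16777217) (nat_lit 10439625962) (.two (nat_lit 1048576) (nat_lit 4199605) (.one (nat_lit 71309629) .nil)))))),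
   .two (nat_lit 2902458395) (nat_lit 28693233689) (.two (nat_lit 285212680) (nat_lit 12150899018) (.two (nat_lit 28693233668) (nat_lit 166144771224) (.two (nat_lit 1178599427) (nat_lit 184551653) (.two (nat_lit 4194305) (nat_lit 16782461) (.one (nat_lit 4201056) .nil))))),
   .two (nat_lit 158176641049) (nat_lit 822083627) (.two (nat_lit 50331656) (nat_lit 183845782224) (.two (nat_lit 1276116994) (nat_lit 16779952) (.two (nat_lit 9781116929) (nat_lit 10335818213) (.one (nat_lit 1055849) .nil)))),
   .two (nat_lit 4605345817) (nat_lit 104857646) (.two (nat_lit 9940500488) (nat_lit 10369368353) (.two (nat_lit 205520900) (nat_lit 21214790340) (.two (nat_lit 3527409667) (nat_lit 158183982633) (.two (nat_lit 9768534017) (nat_lit 183953788212) (.two (nat_lit 4194304) (nat_lit 1054493) (.one (nat_lit 4201578) .nil)))))),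
   .two (nat_lit 1745879067) (nat_lit 2889875507) (.two (nat_lit 822083592) (nat_lit 1212154560) (.two (nat_lit 2956984323) (nat_lit 50333914) (.two (nat_lit 605028353) (nat_lit 104862768) (.one (nat_lit 1346377957) .nil)))),
   .two (nat_lit 4613734426) (nat_lit 156971827227) (.two (nat_lit 654311432) (nat_lit 1344274742) (.two (nat_lit 46407876612) (nat_lit 11525948123) (.two (nat_lit 2097155) (nat_lit 12062819871) (.two (nat_lit 2097153) (nat_lit 1916800301) (.two (nat_lit 1048576) (nat_lit 183846836622) .nil))))),
   .two (nat_lit 4634705947) (nat_lit 10351542326) (.two (nat_lit 184993972232) (nat_lit 183848927580) (.two (nat_lit 19604176900) (nat_lit 2990539521) (.two (nat_lit 1358954499) (nat_lit 19100862631) (.two (nat_lit 9781116929) (nat_lit 4034923757) (.two (nat_lit 1048576) (nat_lit 8394526) (.one (nat_lit 8395883) .nil)))))),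
   .two (nat_lit 1376780315) (nat_lit 10940842011) (.two (nat_lit 754974728) (nat_lit 11577327796) (.two (nat_lit 12129927172) (nat_lit 19026412695) (.two (nat_lit 2969567235) (nat_lit 1344276638) (.two (nat_lit 9781116929) (nat_lit 2921336623) (.two (nat_lit 1048576) (nat_lit 16782519) (.one (nat_lit 1055852) .nil)))))),
   .two (nat_lit 276824090) (nat_lit 47563407410) (.two (nat_lit 41943048) (nat_lit 1947206807) (.two (nat_lit 50331651) (nat_lit 2099432) (.two (nat_lit 620756993) (nat_lit 166197202179) (.two (nat_lit 2097152) (nat_lit 1054495) (.one (nat_lit 1055853) .nil))))),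
   .two (nat_lit 20753416236) (nat_lit 174753579047) (.two (nat_lit 9948889096) (nat_lit 159217877311) (.two (nat_lit 9948889092) (nat_lit 2098821) (.two (nat_lit 183845781506) (nat_lit 166144773347) (.two (nat_lit 1048576) (nat_lit 788535622) .nil)))),
   .two (nat_lit 272629786) (nat_lit 754974762) (.two (nat_lit 272629768) (nat_lit 11022631206) (.two (nat_lit 272629764) (nat_lit 4043309799) (.two (nat_lit 272629763) (nat_lit 3539994806) (.two (nat_lit 9781116929) (nat_lit 1176507501) (.one (nat_lit 4201582) .nil))))),
   .two (nat_lit 272629787) (nat_lit 218103846) (.two (nat_lit 654311432) (nat_lit 20637025000) (.two (nat_lit 16777219) (nat_lit 2319452676) (.two (nat_lit 1048576) (nat_lit 4200224) (.one (nat_lit 1055330) .nil)))),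
   .two (nat_lit 8388632) (nat_lit 11513364506) (.two (nat_lit 8388616) (nat_lit 156971827523) (.two (nat_lit 176160772) (nat_lit 166232851230) (.two (nat_lit 9948889091) (nat_lit 37316724252) (.two (nat_lit 620756993) (nat_lit 1312819716) (.two (nat_lit 16777216) (nat_lit 4200225) (.one (nat_lit 4043315530) .nil)))))),
   .two (nat_lit 285212697) (nat_lit 156468510775) (.two (nat_lit 822083592) (nat_lit 166132187455) (.two (nat_lit 176160772) (nat_lit 11492393653) (.two (nat_lit 2889875458) (nat_lit 10343156224) (.two (nat_lit 4194304) (nat_lit 9940505087) (.one (nat_lit 4201059) .nil))))),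
   .two (nat_lit 47582281753) (nat_lit 4634705984) (.two (nat_lit 11543773192) (nat_lit 46477082997) (.two (nat_lit 3525312518) (nat_lit 239076907) (.two (nat_lit 156365750273) (nat_lit 3557821750) (.two (nat_lit 1048576) (nat_lit 2102456) (.one (nat_lit 806362215) .nil))))),
   .two (nat_lit 4634705945) (nat_lit 18933088296) (.two (nat_lit 272629768) (nat_lit 209715382) (.two (nat_lit 272629764) (nat_lit 12054430136) (.two (nat_lit 156372041731) (nat_lit 183949592085) (.two (nat_lit 41943041) (nat_lit 20740837948) (.one (nat_lit 4201060) .nil))))),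
   .two (nat_lit 4613734425) (nat_lit 2319450166) (.two (nat_lit 46407876616) (nat_lit 809501018) (.two (nat_lit 2889875462) (nat_lit 102760889) (.two (nat_lit 203423747) (nat_lit 19093521948) (.two (nat_lit 4194305) (nat_lit 37246471934) (.two (nat_lit 16777216) (nat_lit 1053881) (.one (nat_lit 1055855) .nil)))))),
   .two (nat_lit 184993972250) (nat_lit 739246131) (.two (nat_lit 166132187144) (nat_lit 9806283100) (.two (nat_lit 166129041412) (nat_lit 10003415481) (.two (nat_lit 218103811) (nat_lit 4638902791) (.two (nat_lit 1048576) (nat_lit 21785219624) (.one (nat_lit 8395365) .nil))))),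
   .two (nat_lit 3573547035) (nat_lit 10907287593) (.two (nat_lit 2969567240) (nat_lit 69206316) (.two (nat_lit 2969567236) (nat_lit 2887779089) (.two (nat_lit 270532611) (nat_lit 184431938043) (.two (nat_lit 16777216) (nat_lit 269490464) .nil)))),
   .two (nat_lit 203423771) (nat_lit 28793897015) (.two (nat_lit 2954887176) (nat_lit 12050235758) (.two (nat_lit 2954887172) (nat_lit 12050236558) (.two (nat_lit 11479810050) (nat_lit 10335815203) (.two (nat_lit 606076929) (nat_lit 9902754292) (.two (nat_lit 2097152) (nat_lit 166129045976) (.one (nat_lit 28086115316) .nil)))))),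
   .two (nat_lit 203423786) (nat_lit 18941476918) (.two (nat_lit 2887778312) (nat_lit 9772728611) (.two (nat_lit 2887778308) (nat_lit 2927624993) (.two (nat_lit 270532611) (nat_lit 10510927420) (.two (nat_lit 16777217) (nat_lit 336597534) (.one (nat_lit 2103911) .nil))))),
   .two (nat_lit 306184217) (nat_lit 46406828084) (.two (nat_lit 276824072) (nat_lit 641729270) (.two (nat_lit 8388610) (nat_lit 156535621854) (.two (nat_lit 4194305) (nat_lit 19026414887) (.two (nat_lit 1048576) (nat_lit 4199610) (.one (nat_lit 1055336) .nil))))),
   .two (nat_lit 843055131) (nat_lit 3558867007) (.two (nat_lit 1277165576) (nat_lit 37313577293) (.two (nat_lit 9867100164) (nat_lit 21207450745) (.two (nat_lit 1344274435) (nat_lit 1051313) (.two (nat_lit 156367847425) (nat_lit 158647455015) (.two (nat_lit 4194304) (nat_lit 46407881844) (.one (nat_lit 1055856) .nil)))))),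
   .two (nat_lit 21811429416) (nat_lit 69206062) (.two (nat_lit 10504634376) (nat_lit 37246468468) (.two (nat_lit 158143086596) (nat_lit 13188990524) (.two (nat_lit 2097153) (nat_lit 1052510) (.two (nat_lit 2097152) (nat_lit 1054498) (.one (nat_lit 1055857) .nil))))),
   .two (nat_lit 47555018777) (nat_lit 12620660793) (.two (nat_lit 4194312) (nat_lit 159224168627) (.two (nat_lit 46514831366) (nat_lit 4195906) (.two (nat_lit 37748737) (nat_lit 9866054965) (.two (nat_lit 8388608) (nat_lit 1053883) (.one (nat_lit 1055858) .nil))))),
   .two (nat_lit 3527409689) (nat_lit 1410334771) (.two (nat_lit 2887778312) (nat_lit 20640170744) (.two (nat_lit 2097155) (nat_lit 185023334566) (.two (nat_lit 2097153) (nat_lit 183845784873) (.two (nat_lit 1048576) (nat_lit 4200227) (.one (nat_lit 1055859) .nil))))),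
   .two (nat_lit 20644364313) (nat_lit 50331686) (.two (nat_lit 16777224) (nat_lit 159224168728) (.two (nat_lit 20644364292) (nat_lit 20719862510) (.two (nat_lit 612368387) (nat_lit 2969568788) (.two (nat_lit 41943041) (nat_lit 16781151) (.two (nat_lit 1048576) (nat_lit 75503970) .nil))))),
   .two (nat_lit 1745879067) (nat_lit 8388943) (.two (nat_lit 158075977732) (nat_lit 8389355) (.two (nat_lit 21777874947) (nat_lit 8391346) (.two (nat_lit 605028353) (nat_lit 1350569255) (.two (nat_lit 1048576) (nat_lit 1786778752) (.one (nat_lit 1055860) .nil))))),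
   .two (nat_lit 272629802) (nat_lit 16777293) (.two (nat_lit 620757002) (nat_lit 10540286333) (.two (nat_lit 9881780228) (nat_lit 205523145) (.two (nat_lit 16777217) (nat_lit 157035793705) (.two (nat_lit 16777216) (nat_lit 1053884) (.one (nat_lit 1055861) .nil))))),
   .two (nat_lit 184549402) (nat_lit 69206062) (.two (nat_lit 184549384) (nat_lit 807403821) (.two (nat_lit 28690087940) (nat_lit 337642191) (.two (nat_lit 157035790339) (nat_lit 21812480214) (.two (nat_lit 620756993) (nat_lit 156566033564) (.one (nat_lit 2103777) .nil))))),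
   .two (nat_lit 713031706) (nat_lit 9948889125) (.two (nat_lit 620757000) (nat_lit 3531604153) (.two (nat_lit 620756996) (nat_lit 2424308470) (.two (nat_lit 639631363) (nat_lit 20753418442) (.two (nat_lit 16777217) (nat_lit 13228838183) (.two (nat_lit 2097152) (nat_lit 46414173352) (.one (nat_lit 8395894) .nil)))))),
   .two (nat_lit 16777241) (nat_lit 880803883) (.two (nat_lit 183853121544) (nat_lit 46992982403) (.two (nat_lit 183853121540) (nat_lit 50332088) (.two (nat_lit 41943043) (nat_lit 822084401) (.two (nat_lit 612368385) (nat_lit 10955525343) (.two (nat_lit 8388608) (nat_lit 16781896) (.one (nat_lit 16783977) .nil)))))),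
   .two (nat_lit 183853121580) (nat_lit 1048670) (.two (nat_lit 10940841992) (nat_lit 156465365271) (.two (nat_lit 8388612) (nat_lit 1746928360) (.two (nat_lit 8388610) (nat_lit 2099891) (.two (nat_lit 8388609) (nat_lit 1052462) (.two (nat_lit 1048576) (nat_lit 8394532) (.one (nat_lit 1055863) .nil)))))),
   .two (nat_lit 11559501861) (nat_lit 185020186697) (.two (nat_lit 11559501832) (nat_lit 11577327796) (.two (nat_lit 754974724) (nat_lit 37246468858) (.two (nat_lit 21777874947) (nat_lit 11022632495) (.two (nat_lit 605028353) (nat_lit 19042142712) (.two (nat_lit 1048576) (nat_lit 174701154806) (.one (nat_lit 638589508) .nil)))))),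
   .two (nat_lit 285212696) (nat_lit 169869397) (.two (nat_lit 1795162120) (nat_lit 46978302432) (.two (nat_lit 2954887172) (nat_lit 11492393653) (.two (nat_lit 169869314) (nat_lit 46422560021) (.two (nat_lit 16777216) (nat_lit 2103077) (.one (nat_lit 2104440) .nil))))),
   .two (nat_lit 21811429415) (nat_lit 2317353019) (.two (nat_lit 4634705930) (nat_lit 19596837304) (.two (nat_lit 159216828419) (nat_lit 1377830445) (.two (nat_lit 4194305) (nat_lit 9900657949) (.two (nat_lit 4194304) (nat_lit 2103078) (.one (nat_lit 2104442) .nil))))),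
   .two (nat_lit 47555018779) (nat_lit 19027460161) (.two (nat_lit 28757196808) (nat_lit 310379259) (.two (nat_lit 171966467) (nat_lit 10007612686) (.two (nat_lit 1048576) (nat_lit 2103079) (.one (nat_lit 4201595) .nil)))),
   .two (nat_lit 339738650) (nat_lit 9781117203) (.two (nat_lit 4194308) (nat_lit 687866619) (.two (nat_lit 4194306) (nat_lit 4043311303) (.two (nat_lit 620756993) (nat_lit 1312820534) (.two (nat_lit 1048576) (nat_lit 156984414671) (.one (nat_lit 1055869) .nil))))),
   .two (nat_lit 176160794) (nat_lit 12618563914) (.two (nat_lit 46414168068) (nat_lit 2887779023) (.two (nat_lit 721420290) (nat_lit 184419354765) (.two (nat_lit 156365750273) (nat_lit 10385101856) (.one (nat_lit 16784512) .nil)))),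
   .two (nat_lit 12121538604) (nat_lit 2420113459) (.two (nat_lit 1350565896) (nat_lit 18926797183) (.two (nat_lit 18933088260) (nat_lit 11006902980) (.two (nat_lit 10343153667) (nat_lit 168824109) (.two (nat_lit 1048576) (nat_lit 4200235) (.one (nat_lit 1055873) .nil))))),
   .two (nat_lit 16777243) (nat_lit 10504634425) (.two (nat_lit 184549384) (nat_lit 174686470474) (.two (nat_lit 2969567236) (nat_lit 156567079115) (.two (nat_lit 2097153) (nat_lit 4198240) (.two (nat_lit 2097152) (nat_lit 16783148) (.one (nat_lit 4201602) .nil))))),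
   .two (nat_lit 183949590573) (nat_lit 10939793461) (.two (nat_lit 10939793416) (nat_lit 11010049575) (.two (nat_lit 37748737) (nat_lit 352324933) (.two (nat_lit 1048576) (nat_lit 205525464) (.one (nat_lit 4201603) .nil)))),
   .two (nat_lit 47582281755) (nat_lit 156532473897) (.two (nat_lit 203423752) (nat_lit 4598006060) (.two (nat_lit 203423748) (nat_lit 1947206376) (.two (nat_lit 183845781506) (nat_lit 8390889) (.two (nat_lit 156364701697) (nat_lit 156533524992) (.two (nat_lit 1048576) (nat_lit 156365754879) (.one (nat_lit 1055344) .nil)))))),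
   .two (nat_lit 9948889125) (nat_lit 10538188870) (.two (nat_lit 9948889096) (nat_lit 9867101763) (.two (nat_lit 9766436865) (nat_lit 21827161413) (.two (nat_lit 2097152) (nat_lit 16782471) (.one (nat_lit 2103921) .nil)))),
   .two (nat_lit 285212696) (nat_lit 75497499) (.two (nat_lit 176160776) (nat_lit 13237223492) (.two (nat_lit 822083588) (nat_lit 880804537) (.two (nat_lit 16777218) (nat_lit 3464497381) (.two (nat_lit 606076929) (nat_lit 10510930984) (.one (nat_lit 8395908) .nil))))),
   .two (nat_lit 2889875483) (nat_lit 183928619056) (.two (nat_lit 654311432) (nat_lit 13224640951) (.two (nat_lit 2902458370) (nat_lit 21210596893) (.two (nat_lit 16777217) (nat_lit 28793901549) (.one (nat_lit 184416213317) .nil)))),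
   .two (nat_lit 158144135195) (nat_lit 9899606057) (.two (nat_lit 754974728) (nat_lit 12114200103) (.two (nat_lit 34603009) (nat_lit 270535172) (.two (nat_lit 1048576) (nat_lit 840962535) (.one (nat_lit 2104453) .nil)))),
   .two (nat_lit 47555018795) (nat_lit 1325400121) (.two (nat_lit 620757000) (nat_lit 3531604442) (.two (nat_lit 343932933) (nat_lit 1358954935) (.two (nat_lit 4605345795) (nat_lit 19545458223) (.two (nat_lit 8388609) (nat_lit 46992984568) (.two (nat_lit 2097152) (nat_lit 109057160) (.one (nat_lit 8395910) .nil)))))),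
   .two (nat_lit 159224168484) (nat_lit 156466413616) (.two (nat_lit 159224168456) (nat_lit 174686470847) (.two (nat_lit 176160770) (nat_lit 2099434) (.two (nat_lit 156365750273) (nat_lit 13187943719) (.two (nat_lit 1048576) (nat_lit 4599060243) (.one (nat_lit 2104455) .nil))))),
   .two (nat_lit 16777240) (nat_lit 21812478001) (.two (nat_lit 620757000) (nat_lit 156533522500) (.two (nat_lit 620756996) (nat_lit 46407877375) (.two (nat_lit 218103811) (nat_lit 156567078466) (.two (nat_lit 2097153) (nat_lit 16781153) (.two (nat_lit 2097152) (nat_lit 16782528) (.one (nat_lit 2103922) .nil)))))),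
   .two (nat_lit 37246468140) (nat_lit 3460300856) (.two (nat_lit 117440520) (nat_lit 2349859101) (.two (nat_lit 68157444) (nat_lit 9781117745) (.two (nat_lit 4194305) (nat_lit 2953841917) (.two (nat_lit 4194304) (nat_lit 1054510) (.one (nat_lit 166199302389) .nil))))),
   .two (nat_lit 272629784) (nat_lit 19127074861) (.two (nat_lit 272629768) (nat_lit 158150426935) (.two (nat_lit 4601151492) (nat_lit 12121539295) (.two (nat_lit 10335813635) (nat_lit 4601153070) (.two (nat_lit 16777217) (nat_lit 11510223309) (.one (nat_lit 4201608) .nil))))),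
   .two (nat_lit 11618222124) (nat_lit 2097247) (.two (nat_lit 12050235400) (nat_lit 19100861148) (.two (nat_lit 4601151491) (nat_lit 13228836996) (.two (nat_lit 41943041) (nat_lit 4198242) (.two (nat_lit 4194304) (nat_lit 8394543) (.one (nat_lit 8395913) .nil))))),
   .two (nat_lit 12114198554) (nat_lit 1358954572) (.two (nat_lit 117440520) (nat_lit 235930354) (.two (nat_lit 11476664322) (nat_lit 822084402) (.two (nat_lit 34603009) (nat_lit 16781155) (.two (nat_lit 1048576) (nat_lit 16783152) (.one (nat_lit 1055347) .nil))))),
   .two (nat_lit 10007609371) (nat_lit 158075977772) (.two (nat_lit 713031688) (nat_lit 28690088683) (.two (nat_lit 713031682) (nat_lit 3524265496) (.two (nat_lit 41943041) (nat_lit 3524267234) (.two (nat_lit 1048576) (nat_lit 158653747736) (.one (nat_lit 1055348) .nil))))),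
   .two (nat_lit 176160795) (nat_lit 174768259365) (.two (nat_lit 41943044) (nat_lit 1175454409) (.two (nat_lit 184549378) (nat_lit 10443819521) (.two (nat_lit 8388608) (nat_lit 34607590) (.one (nat_lit 1055349) .nil)))),
   .two (nat_lit 272629784) (nat_lit 1795162151) (.two (nat_lit 2889875464) (nat_lit 166245433648) (.two (nat_lit 9866051588) (nat_lit 608174789) (.two (nat_lit 1343225859) (nat_lit 28793899228) (.two (nat_lit 16777217) (nat_lit 9798947270) (.one (nat_lit 1055352) .nil))))),
   .two (nat_lit 46414168135) (nat_lit 19596836919) (.two (nat_lit 47563407368) (nat_lit 3464495284) (.two (nat_lit 47563407364) (nat_lit 8389789) (.two (nat_lit 11492392962) (nat_lit 156532476132) (.two (nat_lit 605028353) (nat_lit 8392014) (.two (nat_lit 1048576) (nat_lit 8393922) (.one (nat_lit 1055882) .nil)))))),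
   .two (nat_lit 11559501848) (nat_lit 183912890411) (.two (nat_lit 11559501832) (nat_lit 19596837332) (.two (nat_lit 185020186629) (nat_lit 117441329) (.two (nat_lit 34603009) (nat_lit 20753419746) (.one (nat_lit 46473943285) .nil)))),
   .two (nat_lit 46409973786) (nat_lit 20644364332) (.two (nat_lit 47555018762) (nat_lit 11546919097) (.two (nat_lit 176160772) (nat_lit 156468512938) (.two (nat_lit 8388609) (nat_lit 11580475894) (.two (nat_lit 8388608) (nat_lit 4199619) (.one (nat_lit 4201611) .nil))))),
   .two (nat_lit 8388632) (nat_lit 2316304447) (.two (nat_lit 713031688) (nat_lit 37313577279) (.two (nat_lit 654311428) (nat_lit 612369202) (.two (nat_lit 16777217) (nat_lit 3457157621) (.two (nat_lit 16777216) (nat_lit 1053892) (.one (nat_lit 1055884) .nil))))),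
   .two (nat_lit 159224168475) (nat_lit 159266111582) (.two (nat_lit 16777224) (nat_lit 20644364728) (.two (nat_lit 612368387) (nat_lit 10385100116) (.two (nat_lit 8388608) (nat_lit 16782533) (.one (nat_lit 8395917) .nil)))),
   .two (nat_lit 2889875483) (nat_lit 18933088296) (.two (nat_lit 272629768) (nat_lit 1786774264) (.two (nat_lit 4194306) (nat_lit 12054431254) (.two (nat_lit 8388609) (nat_lit 37249617206) (.two (nat_lit 4194304) (nat_lit 8394545) (.one (nat_lit 2927630545) .nil))))),
   .two (nat_lit 50331691) (nat_lit 138412078) (.two (nat_lit 9940500488) (nat_lit 9915335130) (.two (nat_lit 13195280388) (nat_lit 171967179) (.two (nat_lit 8388610) (nat_lit 1392511108) (.two (nat_lit 41943041) (nat_lit 16781156) (.two (nat_lit 16777216) (nat_lit 4200242) (.one (nat_lit 16784526) .nil)))))),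
   .two (nat_lit 2969567257) (nat_lit 2988441645) (.two (nat_lit 2969567240) (nat_lit 12048138533) (.two (nat_lit 156969730052) (nat_lit 3557819085) (.two (nat_lit 270532611) (nat_lit 9948890646) (.two (nat_lit 9766436865) (nat_lit 11543777786) (.one (nat_lit 1055887) .nil))))),
   .two (nat_lit 46510637081) (nat_lit 156465365019) (.two (nat_lit 166132187144) (nat_lit 158143086917) (.two (nat_lit 28693233668) (nat_lit 1947206326) (.two (nat_lit 1916796931) (nat_lit 705693250) (.two (nat_lit 2097153) (nat_lit 1052517) (.two (nat_lit 2097152) (nat_lit 1053894) (.one (nat_lit 1055888) .nil)))))),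
   .two (nat_lit 21777874971) (nat_lit 165532401691) (.two (nat_lit 10343153672) (nat_lit 9765388471) (.two (nat_lit 156372041732) (nat_lit 9866052335) (.two (nat_lit 46414168066) (nat_lit 1051318) (.two (nat_lit 605028353) (nat_lit 157043133674) (.two (nat_lit 8388608) (nat_lit 1053895) (.one (nat_lit 1055889) .nil)))))),
   .two (nat_lit 183949590573) (nat_lit 2357198905) (.two (nat_lit 11479810056) (nat_lit 1384121044) (.two (nat_lit 809500675) (nat_lit 1853884584) (.two (nat_lit 9765388289) (nat_lit 37752123) (.two (nat_lit 1048576) (nat_lit 876614704) (.one (nat_lit 4201082) .nil))))),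
   .two (nat_lit 2988441626) (nat_lit 9866051647) (.two (nat_lit 2954887176) (nat_lit 37316723045) (.two (nat_lit 11543773188) (nat_lit 9869198100) (.two (nat_lit 2097155) (nat_lit 4195898) (.two (nat_lit 2097153) (nat_lit 19599986009) (.two (nat_lit 2097152) (nat_lit 9765394862) .nil))))),
   .two (nat_lit 46510637081) (nat_lit 12047089706) (.two (nat_lit 2889875464) (nat_lit 46473937191) (.two (nat_lit 205520900) (nat_lit 28791800516) (.two (nat_lit 2889875458) (nat_lit 174685423829) (.two (nat_lit 9768534017) (nat_lit 37247521256) (.one (nat_lit 4201087) .nil))))),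
   .two (nat_lit 620757019) (nat_lit 18933088283) (.two (nat_lit 721420296) (nat_lit 158150426962) (.two (nat_lit 46414168068) (nat_lit 174701151773) (.two (nat_lit 8388609) (nat_lit 50334195) (.two (nat_lit 1048576) (nat_lit 813699547) (.one (nat_lit 16784530) .nil))))),
   .two (nat_lit 12620660762) (nat_lit 1761607726) (.two (nat_lit 184419352584) (nat_lit 3472884463) (.two (nat_lit 9781116931) (nat_lit 809502269) (.two (nat_lit 16777217) (nat_lit 843058449) (.two (nat_lit 1048576) (nat_lit 47584383435) (.one (nat_lit 4201619) .nil))))),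
   .two (nat_lit 272629784) (nat_lit 28087156783) (.two (nat_lit 2889875464) (nat_lit 28758245761) (.two (nat_lit 2887778308) (nat_lit 20640170730) (.two (nat_lit 2889875458) (nat_lit 158647453249) (.two (nat_lit 34603009) (nat_lit 2350910797) (.two (nat_lit 1048576) (nat_lit 12618568166) (.one (nat_lit 2990546059) .nil)))))),
   .two (nat_lit 2969567277) (nat_lit 9866051626) (.two (nat_lit 9768534024) (nat_lit 605029094) (.two (nat_lit 184549379) (nat_lit 21777876519) (.two (nat_lit 50331649) (nat_lit 1209012691) (.one (nat_lit 1055892) .nil)))),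
   .two (nat_lit 2961178650) (nat_lit 3472883766) (.two (nat_lit 2961178632) (nat_lit 272630133) (.two (nat_lit 9866051588) (nat_lit 183953785558) (.two (nat_lit 1358954499) (nat_lit 4638901821) (.two (nat_lit 9781116929) (nat_lit 1745882419) (.two (nat_lit 1048576) (nat_lit 16782539) (.one (nat_lit 1055893) .nil)))))),
   .two (nat_lit 47548727322) (nat_lit 13195280423) (.two (nat_lit 11551113224) (nat_lit 1276117750) (.two (nat_lit 8388611) (nat_lit 4632612099) (.two (nat_lit 1048576) (nat_lit 4028633619) (.one (nat_lit 1055362) .nil)))),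
   .two (nat_lit 8388632) (nat_lit 2936012858) (.two (nat_lit 21785214984) (nat_lit 19127075128) (.two (nat_lit 20637024260) (nat_lit 11014243032) (.two (nat_lit 2969567235) (nat_lit 158649550366) (.two (nat_lit 16777217) (nat_lit 2920286724) (.two (nat_lit 4194304) (nat_lit 1054516) (.one (nat_lit 16784534) .nil)))))),
   .two (nat_lit 47582281753) (nat_lit 156481093941) (.two (nat_lit 2969567236) (nat_lit 183947494136) (.two (nat_lit 158144135171) (nat_lit 1913653443) (.two (nat_lit 34603009) (nat_lit 2101094) (.two (nat_lit 1048576) (nat_lit 687871048) (.one (nat_lit 1055895) .nil))))),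
   .two (nat_lit 272629784) (nat_lit 310378534) (.two (nat_lit 1350565896) (nat_lit 185020186804) (.two (nat_lit 183853121540) (nat_lit 20707279593) (.two (nat_lit 3531603971) (nat_lit 10942941368) (.two (nat_lit 37748737) (nat_lit 166196152832) (.two (nat_lit 1048576) (nat_lit 9902756326) (.one (nat_lit 19096672623) .nil)))))),
   .two (nat_lit 276824090) (nat_lit 11559501863) (.two (nat_lit 41943048) (nat_lit 740294841) (.two (nat_lit 50331652) (nat_lit 3458204822) (.two (nat_lit 713031683) (nat_lit 11611932872) (.two (nat_lit 8388609) (nat_lit 19093524243) (.two (nat_lit 8388608) (nat_lit 1053900) (.one (nat_lit 1055896) .nil)))))),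
   .two (nat_lit 16777240) (nat_lit 809500715) (.two (nat_lit 184549384) (nat_lit 158079123937) (.two (nat_lit 2954887172) (nat_lit 2353005680) (.two (nat_lit 10506731523) (nat_lit 1411385491) (.two (nat_lit 612368385) (nat_lit 156535624160) (.one (nat_lit 10921974055) .nil))))),
   .two (nat_lit 1291845657) (nat_lit 46977253422) (.two (nat_lit 11543773192) (nat_lit 20652754489) (.two (nat_lit 2097153) (nat_lit 2969571088) (.two (nat_lit 1048576) (nat_lit 2102477) (.one (nat_lit 2104473) .nil)))),
   .two (nat_lit 8388632) (nat_lit 11492393019) (.two (nat_lit 11479810056) (nat_lit 12618563932) (.two (nat_lit 20638072836) (nat_lit 156472705753) (.two (nat_lit 11559501827) (nat_lit 183846831642) (.two (nat_lit 50331649) (nat_lit 20640174610) (.one (nat_lit 16784538) .nil))))),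
   .two (nat_lit 880803880) (nat_lit 101711934) (.two (nat_lit 21777874952) (nat_lit 880804279) (.two (nat_lit 713031683) (nat_lit 183946446394) (.two (nat_lit 41943041) (nat_lit 9866054981) (.two (nat_lit 1048576) (nat_lit 28764541433) (.one (nat_lit 1350572379) .nil))))),
   .two (nat_lit 28806479910) (nat_lit 19026411568) (.two (nat_lit 46407876616) (nat_lit 9814671801) (.two (nat_lit 4599054339) (nat_lit 620758551) (.two (nat_lit 2097153) (nat_lit 352324106) (.two (nat_lit 8388608) (nat_lit 13188995634) .nil)))),
   .two (nat_lit 203423770) (nat_lit 28772925485) (.two (nat_lit 203423752) (nat_lit 46977253724) (.two (nat_lit 183845781508) (nat_lit 2424308440) (.two (nat_lit 285212675) (nat_lit 3457156634) (.two (nat_lit 16777217) (nat_lit 1913653760) (.two (nat_lit 1048576) (nat_lit 69211199) (.one (nat_lit 16784539) .nil)))))),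
   .two (nat_lit 754974746) (nat_lit 1048764) (.two (nat_lit 156465365002) (nat_lit 1358954564) (.two (nat_lit 1846542340) (nat_lit 11559502642) (.two (nat_lit 9765388289) (nat_lit 9881784898) (.one (nat_lit 16784540) .nil)))),
   .two (nat_lit 28093448233) (nat_lit 1916797016) (.two (nat_lit 18933088264) (nat_lit 809501020) (.two (nat_lit 68157444) (nat_lit 1384122890) (.two (nat_lit 1048576) (nat_lit 8393934) (.one (nat_lit 4201629) .nil)))),
   .two (nat_lit 21785215003) (nat_lit 156465365035) (.two (nat_lit 158083317768) (nat_lit 19596837212) (.two (nat_lit 184416206854) (nat_lit 645924396) (.two (nat_lit 2097153) (nat_lit 746589660) (.one (nat_lit 8395397) .nil)))),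
   .two (nat_lit 169869337) (nat_lit 165532401739) (.two (nat_lit 4194312) (nat_lit 165532401938) (.two (nat_lit 705691652) (nat_lit 166132187880) (.two (nat_lit 605028355) (nat_lit 2954889435) (.two (nat_lit 2097153) (nat_lit 1052519) (.two (nat_lit 2097152) (nat_lit 9873396243) (.one (nat_lit 1055902) .nil)))))),
   .two (nat_lit 46474985497) (nat_lit 183920230460) (.two (nat_lit 2887778312) (nat_lit 12054429984) (.two (nat_lit 2887778308) (nat_lit 183853122242) (.two (nat_lit 2097155) (nat_lit 13195282929) (.two (nat_lit 1048576) (nat_lit 156365754910) (.one (nat_lit 156364708124) .nil))))),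
   .two (nat_lit 20738736153) (nat_lit 3464495130) (.two (nat_lit 1277165576) (nat_lit 37320917381) (.two (nat_lit 1277165572) (nat_lit 3464495543) (.two (nat_lit 159217876995) (nat_lit 3028289045) (.two (nat_lit 156365750273) (nat_lit 166203494972) (.one (nat_lit 2103944) .nil))))),
   .two (nat_lit 21207449626) (nat_lit 165526110271) (.two (nat_lit 117440520) (nat_lit 46473937247) (.two (nat_lit 117440516) (nat_lit 183946445518) (.two (nat_lit 159217876995) (nat_lit 46977255594) (.two (nat_lit 50331649) (nat_lit 1913655052) (.two (nat_lit 2097152) (nat_lit 19127079385) (.one (nat_lit 68164483) .nil)))))),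
   .two (nat_lit 184549418) (nat_lit 675283022) (.two (nat_lit 620757000) (nat_lit 13224640879) (.two (nat_lit 2969567236) (nat_lit 46477083425) (.two (nat_lit 2902458370) (nat_lit 306185010) (.two (nat_lit 612368385) (nat_lit 156984412660) (.two (nat_lit 2097152) (nat_lit 8395261) .nil))))),
   .two (nat_lit 620757033) (nat_lit 9933160497) (.two (nat_lit 28690087944) (nat_lit 4647289603) (.two (nat_lit 721420290) (nat_lit 168823289) (.two (nat_lit 16777216) (nat_lit 1053903) (.one (nat_lit 1055903) .nil)))),
   .two (nat_lit 46510637081) (nat_lit 1411383356) (.two (nat_lit 3458203656) (nat_lit 3531604150) (.two (nat_lit 641728516) (nat_lit 159251432121) (.two (nat_lit 4601151491) (nat_lit 2099895) (.two (nat_lit 4194305) (nat_lit 2101958) (.two (nat_lit 2097152) (nat_lit 4200246) (.one (nat_lit 4201633) .nil)))))),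
   .two (nat_lit 218103847) (nat_lit 11513364549) (.two (nat_lit 654311432) (nat_lit 11513364763) (.two (nat_lit 272629764) (nat_lit 9948889906) (.two (nat_lit 4194305) (nat_lit 2902461785) (.two (nat_lit 4194304) (nat_lit 16782545) (.one (nat_lit 4201493) .nil))))),
   .two (nat_lit 880803876) (nat_lit 158146232366) (.two (nat_lit 1350565896) (nat_lit 158176641311) (.two (nat_lit 1350565892) (nat_lit 11510219478) (.two (nat_lit 8388610) (nat_lit 9936307774) (.two (nat_lit 612368385) (nat_lit 1052520) (.two (nat_lit 1048576) (nat_lit 9969866523) (.one (nat_lit 4201634) .nil)))))),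
   .two (nat_lit 2923429915) (nat_lit 839909419) (.two (nat_lit 21207449608) (nat_lit 46978302298) (.two (nat_lit 166130089988) (nat_lit 13221495534) (.two (nat_lit 10504634371) (nat_lit 4196587) (.two (nat_lit 16777217) (nat_lit 12617518323) (.two (nat_lit 4194304) (nat_lit 16783160) (.one (nat_lit 16784547) .nil)))))),
   .two (nat_lit 11559501848) (nat_lit 37246468139) (.two (nat_lit 19599982602) (nat_lit 285212995) (.two (nat_lit 18928893956) (nat_lit 1761608121) (.two (nat_lit 12114198531) (nat_lit 117441329) (.two (nat_lit 34603009) (nat_lit 318770655) (.one (nat_lit 16784009) .nil))))),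
   .two (nat_lit 1916796955) (nat_lit 20737687608) (.two (nat_lit 13195280392) (nat_lit 12117344526) (.two (nat_lit 46409973764) (nat_lit 2961179352) (.two (nat_lit 1343225859) (nat_lit 2956987699) (.two (nat_lit 1048576) (nat_lit 4200249) (.one (nat_lit 19596843604) .nil))))),
   .two (nat_lit 12617515035) (nat_lit 11546918970) (.two (nat_lit 1913651208) (nat_lit 2097644) (.two (nat_lit 1913651204) (nat_lit 166197200507) (.two (nat_lit 9933160451) (nat_lit 2099896) (.two (nat_lit 606076929) (nat_lit 1376785074) (.two (nat_lit 4194304) (nat_lit 706746154) (.one (nat_lit 4201636) .nil)))))),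
   .two (nat_lit 41943067) (nat_lit 20719861944) (.two (nat_lit 75497476) (nat_lit 28791800549) (.two (nat_lit 16777218) (nat_lit 183920232647) (.two (nat_lit 16777217) (nat_lit 337645317) (.two (nat_lit 16777216) (nat_lit 3458210291) .nil)))),
   .two (nat_lit 4605345819) (nat_lit 16777405) (.two (nat_lit 174753579016) (nat_lit 1283457319) (.two (nat_lit 28087156740) (nat_lit 9873393177) (.two (nat_lit 8388609) (nat_lit 20652755468) (.two (nat_lit 2097152) (nat_lit 209719784) (.one (nat_lit 8395941) .nil))))),
   .two (nat_lit 4028629017) (nat_lit 809500766) (.two (nat_lit 37748744) (nat_lit 46422558239) (.two (nat_lit 37748737) (nat_lit 270537217) (.one (nat_lit 2104486) .nil))),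
   .two (nat_lit 50331693) (nat_lit 1846542389) (.two (nat_lit 41943048) (nat_lit 11492393663) (.two (nat_lit 8388610) (nat_lit 251660522) (.two (nat_lit 41943041) (nat_lit 101716474) (.one (nat_lit 1055624) .nil)))),
   .two (nat_lit 183853121572) (nat_lit 166197198899) (.two (nat_lit 9934209032) (nat_lit 156976021862) (.two (nat_lit 169869316) (nat_lit 880804540) (.two (nat_lit 209715203) (nat_lit 840960518) (.two (nat_lit 1048576) (nat_lit 2102482) (.one (nat_lit 2104487) .nil))))),
   .two (nat_lit 3558866970) (nat_lit 19026411556) (.two (nat_lit 46414168074) (nat_lit 19596837167) (.two (nat_lit 705691652) (nat_lit 880804280) (.two (nat_lit 184993972227) (nat_lit 1947207188) (.two (nat_lit 41943041) (nat_lit 156465368875) (.two (nat_lit 2097152) (nat_lit 8393939) (.one (nat_lit 2104488) .nil)))))),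
   .two (nat_lit 11618222118) (nat_lit 158075977772) (.two (nat_lit 184993972232) (nat_lit 10503586099) (.two (nat_lit 184993972228) (nat_lit 1049758) (.two (nat_lit 166130089987) (nat_lit 2349861083) (.two (nat_lit 2097153) (nat_lit 1052521) (.two (nat_lit 2097152) (nat_lit 1054522) (.one (nat_lit 2104489) .nil)))))),
   .two (nat_lit 46978301994) (nat_lit 19532873769) (.two (nat_lit 157036838920) (nat_lit 708837668) (.two (nat_lit 157036838916) (nat_lit 809502942) (.two (nat_lit 2097153) (nat_lit 156566031597) (.two (nat_lit 1048576) (nat_lit 46407881914) (.one (nat_lit 46406834792) .nil))))),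
   .two (nat_lit 21785215003) (nat_lit 156465365035) (.two (nat_lit 158083317768) (nat_lit 19596837212) (.two (nat_lit 184416206854) (nat_lit 109053484) (.two (nat_lit 2097153) (nat_lit 746589660) (.one (nat_lit 8394358) .nil)))),
   .two (nat_lit 739246106) (nat_lit 1753219113) (.two (nat_lit 2887778312) (nat_lit 37320917782) (.two (nat_lit 270532611) (nat_lit 20711474733) (.two (nat_lit 2097153) (nat_lit 13195282929) (.two (nat_lit 1048576) (nat_lit 1377833415) (.one (nat_lit 2920290526) .nil))))),
   .two (nat_lit 12163481642) (nat_lit 166196150317) (.two (nat_lit 117440520) (nat_lit 1049401) (.two (nat_lit 28790751238) (nat_lit 1344275156) (.two (nat_lit 806354947) (nat_lit 251661660) (.two (nat_lit 1048576) (nat_lit 16782548) (.one (nat_lit 1055800) .nil))))),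
   .two (nat_lit 2889875483) (nat_lit 166130090024) (.two (nat_lit 272629768) (nat_lit 13195280452) (.two (nat_lit 37748740) (nat_lit 2424308451) (.two (nat_lit 21778923523) (nat_lit 2424309949) (.two (nat_lit 156365750273) (nat_lit 343936346) (.two (nat_lit 4194304) (nat_lit 2102485) (.one (nat_lit 8395946) .nil)))))),
   .two (nat_lit 2969567257) (nat_lit 2988441645) (.two (nat_lit 2969567240) (nat_lit 3525312831) (.two (nat_lit 3458203652) (nat_lit 18941477573) (.two (nat_lit 2954887171) (nat_lit 2969568788) (.two (nat_lit 2097153) (nat_lit 4647292155) (.two (nat_lit 8388608) (nat_lit 9934215456) .nil))))),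
   .two (nat_lit 3028287530) (nat_lit 1410334765) (.two (nat_lit 13191086088) (nat_lit 10443817687) (.two (nat_lit 21777874947) (nat_lit 876611109) (.two (nat_lit 16777217) (nat_lit 101716514) (.one (nat_lit 1055197) .nil)))),
   .two (nat_lit 1916796955) (nat_lit 37246468136) (.two (nat_lit 156968681480) (nat_lit 205522501) (.two (nat_lit 9765388289) (nat_lit 2990543304) (.one (nat_lit 171973151) .nil))),
   .two (nat_lit 16777240) (nat_lit 166230753339) (.two (nat_lit 2902458376) (nat_lit 20705182015) (.two (nat_lit 2969567236) (nat_lit 236978878) (.two (nat_lit 184549378) (nat_lit 174686472855) (.two (nat_lit 16777217) (nat_lit 158177693522) (.two (nat_lit 8388608) (nat_lit 2103810) .nil))))),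
   .two (nat_lit 2961178650) (nat_lit 1847590953) (.two (nat_lit 9768534024) (nat_lit 156573368696) (.two (nat_lit 2961178628) (nat_lit 13188989369) (.two (nat_lit 171966467) (nat_lit 174692764152) (.two (nat_lit 1048576) (nat_lit 174692766177) (.one (nat_lit 8395947) .nil))))),
   .two (nat_lit 12147752985) (nat_lit 184419352603) (.two (nat_lit 739246088) (nat_lit 156971827380) (.two (nat_lit 12117344260) (nat_lit 21811430073) (.two (nat_lit 12114198531) (nat_lit 28760344734) (.two (nat_lit 34603009) (nat_lit 4199113) (.two (nat_lit 1048576) (nat_lit 4200251) (.one (nat_lit 1055776) .nil)))))),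
   .two (nat_lit 9802088475) (nat_lit 166130090011) (.two (nat_lit 18928893960) (nat_lit 2317353249) (.two (nat_lit 3525312516) (nat_lit 1178600561) (.two (nat_lit 2887778306) (nat_lit 4196589) (.two (nat_lit 9766436865) (nat_lit 156468514579) (.two (nat_lit 2097152) (nat_lit 4199638) (.one (nat_lit 2104492) .nil)))))),
   .two (nat_lit 11559501849) (nat_lit 185020186668) (.two (nat_lit 11559501832) (nat_lit 11577327901) (.two (nat_lit 739246084) (nat_lit 1291847189) (.two (nat_lit 34603009) (nat_lit 28705819148) (.two (nat_lit 1048576) (nat_lit 16782551) (.one (nat_lit 638589539) .nil))))),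
   .two (nat_lit 10506731561) (nat_lit 19597885484) (.two (nat_lit 166132187144) (nat_lit 21778923820) (.two (nat_lit 166130089988) (nat_lit 156367848999) (.two (nat_lit 9766436865) (nat_lit 339741993) (.two (nat_lit 4194304) (nat_lit 158091711611) (.one (nat_lit 183848934289) .nil))))),
   .two (nat_lit 1178599451) (nat_lit 21827158335) (.two (nat_lit 117440516) (nat_lit 46510637495) (.two (nat_lit 11492392962) (nat_lit 2319452667) (.two (nat_lit 2097152) (nat_lit 10552874158) (.one (nat_lit 16784557) .nil)))),
   .two (nat_lit 3558866971) (nat_lit 46477082661) (.two (nat_lit 2954887176) (nat_lit 19029557571) (.two (nat_lit 742391812) (nat_lit 166129042128) (.two (nat_lit 2097155) (nat_lit 20707280444) (.two (nat_lit 34603009) (nat_lit 4634709336) (.two (nat_lit 1048576) (nat_lit 874517043) (.one (nat_lit 2104494) .nil)))))),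
   .two (nat_lit 12150898713) (nat_lit 156465365033) (.two (nat_lit 276824072) (nat_lit 156468511043) (.two (nat_lit 2887778308) (nat_lit 12050236562) (.two (nat_lit 10506731523) (nat_lit 10376710344) (.two (nat_lit 2097153) (nat_lit 184989781287) (.two (nat_lit 1048576) (nat_lit 10372519028) (.one (nat_lit 4201647) .nil)))))),
   .two (nat_lit 4605345816) (nat_lit 183912890458) (.two (nat_lit 46984593416) (nat_lit 4028629695) (.two (nat_lit 3531603971) (nat_lit 69208289) (.two (nat_lit 156364701697) (nat_lit 8393258) (.one (nat_lit 8395952) .nil)))),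
   .two (nat_lit 11559501850) (nat_lit 1209008176) (.two (nat_lit 11543773192) (nat_lit 754975538) (.two (nat_lit 4194305) (nat_lit 16781162) (.two (nat_lit 1048576) (nat_lit 16783164) (.one (nat_lit 4201649) .nil)))),
   .two (nat_lit 1376780315) (nat_lit 156372041767) (.two (nat_lit 184549384) (nat_lit 47588573538) (.two (nat_lit 46414168068) (nat_lit 11476665033) (.two (nat_lit 8388611) (nat_lit 11510221021) (.two (nat_lit 605028353) (nat_lit 10947137314) (.two (nat_lit 1048576) (nat_lit 158091712192) (.one (nat_lit 16784562) .nil)))))),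
   .two (nat_lit 185020186650) (nat_lit 21812477995) (.two (nat_lit 3525312520) (nat_lit 19096666458) (.two (nat_lit 205520900) (nat_lit 156969731203) (.two (nat_lit 41943043) (nat_lit 1050862) (.two (nat_lit 34603009) (nat_lit 8393418) (.two (nat_lit 1048576) (nat_lit 2103101) (.one (nat_lit 8395955) .nil)))))),
   .two (nat_lit 11513364505) (nat_lit 9781116966) (.two (nat_lit 16777224) (nat_lit 9969860942) (.two (nat_lit 285212676) (nat_lit 641729230) (.two (nat_lit 809500675) (nat_lit 50334193) (.two (nat_lit 8388608) (nat_lit 4200970) .nil)))),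
   .two (nat_lit 183912890394) (nat_lit 19094569003) (.two (nat_lit 1913651208) (nat_lit 11511267817) (.two (nat_lit 10385096708) (nat_lit 1846544597) (.two (nat_lit 620756993) (nat_lit 47581237047) (.two (nat_lit 2097152) (nat_lit 1054526) (.one (nat_lit 16784564) .nil))))),
   .two (nat_lit 47555018778) (nat_lit 1962934323) (.two (nat_lit 176160776) (nat_lit 21223179825) (.two (nat_lit 8388609) (nat_lit 158158819113) (.two (nat_lit 1048576) (nat_lit 1426069713) .nil))),
   .two (nat_lit 10343153691) (nat_lit 20704133210) (.two (nat_lit 21214789640) (nat_lit 9899606303) (.two (nat_lit 1849688068) (nat_lit 158075979932) (.two (nat_lit 156364701697) (nat_lit 18933093532) (.one (nat_lit 8395052) .nil)))),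
   .two (nat_lit 11492392985) (nat_lit 157036838963) (.two (nat_lit 1191182344) (nat_lit 9766437216) (.two (nat_lit 606076932) (nat_lit 11492393400) (.two (nat_lit 69206019) (nat_lit 13203670586) (.two (nat_lit 37748737) (nat_lit 2102416) (.one (nat_lit 9802095063) .nil))))),
   .two (nat_lit 13237223461) (nat_lit 157038936105) (.two (nat_lit 19532873738) (nat_lit 10552869189) (.two (nat_lit 156971827204) (nat_lit 16778399) (.two (nat_lit 166132187138) (nat_lit 11022632508) (.two (nat_lit 9768534017) (nat_lit 721424962) (.one (nat_lit 16784566) .nil))))),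
   .two (nat_lit 184993972249) (nat_lit 12147753001) (.two (nat_lit 169869320) (nat_lit 19033753135) (.two (nat_lit 8388609) (nat_lit 19597887990) (.two (nat_lit 1048576) (nat_lit 2102488) (.one (nat_lit 1055375) .nil)))),
   .two (nat_lit 47548727322) (nat_lit 4605345828) (.two (nat_lit 37748744) (nat_lit 142606673) (.two (nat_lit 272629764) (nat_lit 11611931367) (.two (nat_lit 11479810050) (nat_lit 10940844214) (.two (nat_lit 4194305) (nat_lit 3464498978) (.two (nat_lit 8388608) (nat_lit 1847596812) (.one (nat_lit 8395959) .nil)))))),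
   .two (nat_lit 159224168475) (nat_lit 772800552) (.two (nat_lit 20644364296) (nat_lit 672138803) (.two (nat_lit 606076929) (nat_lit 9765392877) (.one (nat_lit 1055928) .nil))),
   .two (nat_lit 10007609387) (nat_lit 158143086651) (.two (nat_lit 4605345800) (nat_lit 3527410365) (.two (nat_lit 4194306) (nat_lit 1283458630) (.two (nat_lit 4194305) (nat_lit 37253810700) (.two (nat_lit 1048576) (nat_lit 8394559) (.one (nat_lit 8395961) .nil))))),
   .two (nat_lit 16777243) (nat_lit 21781020766) (.two (nat_lit 2902458376) (nat_lit 12115247875) (.two (nat_lit 11546918915) (nat_lit 2969568787) (.two (nat_lit 606076929) (nat_lit 1962937606) (.two (nat_lit 2097152) (nat_lit 4199641) (.one (nat_lit 4201658) .nil))))),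
   .two (nat_lit 822083622) (nat_lit 739246122) (.two (nat_lit 639631368) (nat_lit 28086108477) (.two (nat_lit 3539992580) (nat_lit 21812479519) (.two (nat_lit 16777217) (nat_lit 159250386145) (.two (nat_lit 16777216) (nat_lit 101716522) (.one (nat_lit 1055376) .nil))))),
   .two (nat_lit 10538188827) (nat_lit 46409973823) (.two (nat_lit 9866051592) (nat_lit 69206197) (.two (nat_lit 12050235396) (nat_lit 9798943439) (.two (nat_lit 4601151491) (nat_lit 28087159021) (.two (nat_lit 156367847425) (nat_lit 605033628) (.one (nat_lit 4201106) .nil))))),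
   .two (nat_lit 50331688) (nat_lit 166132187205) (.two (nat_lit 50331656) (nat_lit 166132187419) (.two (nat_lit 50331652) (nat_lit 157038936769) (.two (nat_lit 16777218) (nat_lit 9802090006) (.two (nat_lit 4194305) (nat_lit 3036678666) (.two (nat_lit 4194304) (nat_lit 16781900) (.one (nat_lit 19532880093) .nil)))))),
   .two (nat_lit 4605345819) (nat_lit 10338959800) (.two (nat_lit 4601151491) (nat_lit 47547680286) (.two (nat_lit 4194305) (nat_lit 11543776590) (.two (nat_lit 8388608) (nat_lit 166199302453) .nil))),
   .two (nat_lit 46980399129) (nat_lit 1176502327) (.two (nat_lit 742391816) (nat_lit 3539993302) (.two (nat_lit 50331651) (nat_lit 1916799639) (.two (nat_lit 620756993) (nat_lit 3021999874) (.two (nat_lit 2097152) (nat_lit 4200256) (.one (nat_lit 3472890942) .nil))))),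
   .two (nat_lit 8388632) (nat_lit 1913651249) (.two (nat_lit 713031688) (nat_lit 2953838929) (.two (nat_lit 713031684) (nat_lit 285213416) (.two (nat_lit 184549378) (nat_lit 20637025843) (.two (nat_lit 620756993) (nat_lit 8392555) (.two (nat_lit 16777216) (nat_lit 8394561) (.one (nat_lit 16784573) .nil)))))),
   .two (nat_lit 28790751259) (nat_lit 1310720065) (.two (nat_lit 101711880) (nat_lit 21778923877) (.two (nat_lit 8388612) (nat_lit 2921333521) (.two (nat_lit 4599054339) (nat_lit 37253809709) (.two (nat_lit 606076929) (nat_lit 21785218335) (.two (nat_lit 1048576) (nat_lit 159257727547) (.one (nat_lit 8395411) .nil)))))),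
   .two (nat_lit 4634705945) (nat_lit 839909417) (.two (nat_lit 272629768) (nat_lit 9933160739) (.two (nat_lit 272629764) (nat_lit 185020187368) (.two (nat_lit 46409973762) (nat_lit 156969732332) (.two (nat_lit 156364701697) (nat_lit 843057664) (.two (nat_lit 1048576) (nat_lit 675287551) (.one (nat_lit 1055016) .nil)))))),
   .two (nat_lit 705691673) (nat_lit 46481276982) (.two (nat_lit 11543773192) (nat_lit 1746927971) (.two (nat_lit 46984593412) (nat_lit 46978303553) (.two (nat_lit 156372041729) (nat_lit 10942941690) (.two (nat_lit 4194304) (nat_lit 1053915) (.one (nat_lit 4201662) .nil))))),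
   .two (nat_lit 276824089) (nat_lit 2902458647) (.two (nat_lit 16777220) (nat_lit 2317353679) (.two (nat_lit 8388611) (nat_lit 2954889912) (.two (nat_lit 16777217) (nat_lit 10906242365) (.two (nat_lit 1048576) (nat_lit 2103106) (.one (nat_lit 13221501218) .nil))))),
   .two (nat_lit 2954887192) (nat_lit 1384120415) (.two (nat_lit 2954887176) (nat_lit 1753219340) (.two (nat_lit 2954887172) (nat_lit 12054430392) (.two (nat_lit 169869314) (nat_lit 13195281939) (.two (nat_lit 8388609) (nat_lit 20738740065) (.two (nat_lit 8388608) (nat_lit 9967768736) (.one (nat_lit 142612727) .nil)))))),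
   .two (nat_lit 2902458393) (nat_lit 11618222106) (.two (nat_lit 713031688) (nat_lit 11492393140) (.two (nat_lit 16777222) (nat_lit 184993972918) (.two (nat_lit 16777219) (nat_lit 184993973779) (.two (nat_lit 16777217) (nat_lit 159257726192) (.two (nat_lit 8388608) (nat_lit 16783171) (.one (nat_lit 16784576) .nil)))))),
   .two (nat_lit 9881780269) (nat_lit 10343153752) (.two (nat_lit 10385096712) (nat_lit 11544822526) (.two (nat_lit 2954887171) (nat_lit 183861511711) (.two (nat_lit 41943041) (nat_lit 47563410660) (.two (nat_lit 2097152) (nat_lit 16783172) (.one (nat_lit 41949753) .nil))))),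
   .two (nat_lit 16777243) (nat_lit 28093448235) (.two (nat_lit 184549384) (nat_lit 18933088543) (.two (nat_lit 13195280390) (nat_lit 1392510535) (.two (nat_lit 41943041) (nat_lit 2969569778) (.two (nat_lit 8388608) (nat_lit 16780771) (.one (nat_lit 16782967) .nil))))),
   .two (nat_lit 1847590938) (nat_lit 2936012855) (.two (nat_lit 2969567240) (nat_lit 11578376543) (.two (nat_lit 2969567236) (nat_lit 3021996750) (.two (nat_lit 184549378) (nat_lit 270534822) (.two (nat_lit 156367847425) (nat_lit 874515771) (.two (nat_lit 4194304) (nat_lit 1277170746) (.one (nat_lit 2104513) .nil)))))),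
   .two (nat_lit 28758245403) (nat_lit 9802088487) (.two (nat_lit 1847590920) (nat_lit 306184472) (.two (nat_lit 1847590916) (nat_lit 11513365182) (.two (nat_lit 166130089986) (nat_lit 11614029345) (.two (nat_lit 9766436865) (nat_lit 4030729496) (.two (nat_lit 2097152) (nat_lit 156535624206) (.one (nat_lit 4201666) .nil)))))),
   .two (nat_lit 11492392985) (nat_lit 2923429931) (.two (nat_lit 46980399112) (nat_lit 165540790989) (.two (nat_lit 2889875459) (nat_lit 47563410779) (.two (nat_lit 4194304) (nat_lit 21223182821) (.one (nat_lit 4201111) .nil)))),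
   .two (nat_lit 1291845659) (nat_lit 47548727323) (.two (nat_lit 3458203656) (nat_lit 12129927876) (.two (nat_lit 47548727299) (nat_lit 9948891342) (.two (nat_lit 2097153) (nat_lit 16781164) (.two (nat_lit 2097152) (nat_lit 16783173) (.one (nat_lit 16784579) .nil))))),
   .two (nat_lit 183916036122) (nat_lit 183928619066) (.two (nat_lit 12117344264) (nat_lit 16778042) (.two (nat_lit 1916796932) (nat_lit 166144770767) (.two (nat_lit 11479810050) (nat_lit 4043311295) (.two (nat_lit 50331649) (nat_lit 1279266612) (.two (nat_lit 4194304) (nat_lit 16783174) (.one (nat_lit 16784580) .nil)))))),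
   .two (nat_lit 822083625) (nat_lit 174755676240) (.two (nat_lit 11492392968) (nat_lit 12117344436) (.two (nat_lit 156569174021) (nat_lit 10921969176) (.two (nat_lit 9768534017) (nat_lit 47596966409) (.one (nat_lit 16784024) .nil)))),
   .two (nat_lit 11513364505) (nat_lit 28790751277) (.two (nat_lit 19599982600) (nat_lit 1846542804) (.two (nat_lit 1947205637) (nat_lit 1212154295) (.two (nat_lit 1913651203) (nat_lit 9802090995) (.two (nat_lit 1048576) (nat_lit 608178667) (.one (nat_lit 4201114) .nil))))),
   .two (nat_lit 4601151515) (nat_lit 158083318200) (.two (nat_lit 21785214979) (nat_lit 9869198877) (.two (nat_lit 612368385) (nat_lit 10372516341) (.two (nat_lit 8388608) (nat_lit 12150903318) (.one (nat_lit 4201115) .nil)))),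
   .two (nat_lit 606076964) (nat_lit 13187940401) (.two (nat_lit 4601151496) (nat_lit 10437526289) (.two (nat_lit 10504634371) (nat_lit 20707280432) (.two (nat_lit 4194305) (nat_lit 1052525) (.two (nat_lit 2097152) (nat_lit 4200263) (.one (nat_lit 1312823542) .nil))))),
   .two (nat_lit 16777243) (nat_lit 28089253942) (.two (nat_lit 2969567240) (nat_lit 4195131) (.two (nat_lit 156569174022) (nat_lit 28705817295) (.two (nat_lit 809500675) (nat_lit 12062820566) (.two (nat_lit 16777217) (nat_lit 1178603326) (.two (nat_lit 4194304) (nat_lit 1392513530) (.one (nat_lit 12050242194) .nil)))))),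
   .two (nat_lit 236978217) (nat_lit 352321598) (.two (nat_lit 1358954504) (nat_lit 21778923828) (.two (nat_lit 16777220) (nat_lit 10001318678) (.two (nat_lit 169869314) (nat_lit 721421106) (.two (nat_lit 2097153) (nat_lit 9948892505) (.two (nat_lit 2097152) (nat_lit 16782557) (.one (nat_lit 11477719359) .nil)))))),
   .two (nat_lit 4605345817) (nat_lit 1745879067) (.two (nat_lit 158075977736) (nat_lit 46508541504) (.two (nat_lit 605028353) (nat_lit 9867103462) (.two (nat_lit 1048576) (nat_lit 2102494) (.one (nat_lit 2104517) .nil)))),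
   .two (nat_lit 28693233689) (nat_lit 1176502321) (.two (nat_lit 28693233672) (nat_lit 102760631) (.two (nat_lit 1916796933) (nat_lit 28791800516) (.two (nat_lit 3525312515) (nat_lit 19532875988) (.two (nat_lit 2097153) (nat_lit 4198254) (.two (nat_lit 8388608) (nat_lit 9967770079) .nil))))),
   .two (nat_lit 183912890394) (nat_lit 156984410164) (.two (nat_lit 12114198536) (nat_lit 156380430670) (.two (nat_lit 1913651204) (nat_lit 46422557433) (.two (nat_lit 183848927234) (nat_lit 19596837681) (.two (nat_lit 37748737) (nat_lit 159250387422) (.one (nat_lit 1055389) .nil))))),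
   .two (nat_lit 185035915291) (nat_lit 12114198555) (.two (nat_lit 184416206856) (nat_lit 10519315201) (.two (nat_lit 183845781506) (nat_lit 16779503) (.two (nat_lit 34603009) (nat_lit 2902462212) (.two (nat_lit 1048576) (nat_lit 16782559) (.one (nat_lit 16784582) .nil))))),
   .two (nat_lit 159224168475) (nat_lit 2416967719) (.two (nat_lit 20644364296) (nat_lit 183912890648) (.two (nat_lit 184416206852) (nat_lit 813695684) (.two (nat_lit 1753219075) (nat_lit 156566029857) (.two (nat_lit 612368385) (nat_lit 12047093016) (.two (nat_lit 8388608) (nat_lit 21777879566) (.one (nat_lit 1055391) .nil)))))),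
   .two (nat_lit 9934209051) (nat_lit 336592957) (.two (nat_lit 28757196808) (nat_lit 46978302727) (.two (nat_lit 10335813635) (nat_lit 12048139811) (.two (nat_lit 16777217) (nat_lit 46406830591) (.two (nat_lit 16777216) (nat_lit 9934215668) .nil)))),
   .two (nat_lit 8388632) (nat_lit 135266331) (.two (nat_lit 183853121544) (nat_lit 1779433962) (.two (nat_lit 158075977732) (nat_lit 880804533) (.two (nat_lit 183853121538) (nat_lit 158646405332) (.two (nat_lit 612368385) (nat_lit 1052527) (.two (nat_lit 1048576) (nat_lit 8394568) (.one (nat_lit 1055943) .nil)))))),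
   .two (nat_lit 184986632219) (nat_lit 10947133498) (.two (nat_lit 754974728) (nat_lit 10537140406) (.two (nat_lit 739246084) (nat_lit 10452206287) (.two (nat_lit 4605345795) (nat_lit 47596963365) (.two (nat_lit 8388609) (nat_lit 9933163835) (.two (nat_lit 8388608) (nat_lit 1053920) (.one (nat_lit 1055944) .nil)))))),
   .two (nat_lit 2969567256) (nat_lit 20705181722) (.two (nat_lit 2969567240) (nat_lit 10504635119) (.two (nat_lit 639631363) (nat_lit 1224738339) (.two (nat_lit 606076929) (nat_lit 16781168) (.two (nat_lit 2097152) (nat_lit 184554719) (.one (nat_lit 16784033) .nil))))),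
   .two (nat_lit 184549401) (nat_lit 46977253423) (.two (nat_lit 169869320) (nat_lit 50331716) (.two (nat_lit 2954887172) (nat_lit 20753416970) (.two (nat_lit 1358954499) (nat_lit 9933162027) (.two (nat_lit 605028353) (nat_lit 9766439435) (.two (nat_lit 2097152) (nat_lit 1054537) (.one (nat_lit 202380902) .nil)))))),
   .two (nat_lit 2954887192) (nat_lit 47550824500) (.two (nat_lit 2954887176) (nat_lit 158146232791) (.two (nat_lit 2954887172) (nat_lit 28793897704) (.two (nat_lit 169869314) (nat_lit 10338962727) (.two (nat_lit 2097152) (nat_lit 2353009829) (.one (nat_lit 2103970) .nil))))),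
   .two (nat_lit 166132187172) (nat_lit 251658297) (.two (nat_lit 822083592) (nat_lit 157038936333) (.two (nat_lit 742391812) (nat_lit 50332341) (.two (nat_lit 11479810050) (nat_lit 16779504) (.two (nat_lit 37748737) (nat_lit 13237227284) (.two (nat_lit 2097152) (nat_lit 159253533833) (.one (nat_lit 2103971) .nil)))))),
   .two (nat_lit 183853121581) (nat_lit 4194361) (.two (nat_lit 21207449608) (nat_lit 1753219420) (.two (nat_lit 21207449604) (nat_lit 8390279) (.two (nat_lit 41943043) (nat_lit 4197051) (.two (nat_lit 41943041) (nat_lit 157038939480) (.two (nat_lit 1048576) (nat_lit 8394570) (.one (nat_lit 8395977) .nil)))))),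
   .two (nat_lit 1376780333) (nat_lit 47563407410) (.two (nat_lit 1358954504) (nat_lit 1376780568) (.two (nat_lit 1358954500) (nat_lit 11610883194) (.two (nat_lit 1343225859) (nat_lit 620759263) (.two (nat_lit 9765388289) (nat_lit 156481097052) (.two (nat_lit 1048576) (nat_lit 16782561) (.one (nat_lit 16784586) .nil)))))),
   .two (nat_lit 11577327641) (nat_lit 4599054704) (.two (nat_lit 10370416644) (nat_lit 9798943901) (.two (nat_lit 1178599427) (nat_lit 2099441) (.two (nat_lit 9765388289) (nat_lit 21210598627) (.two (nat_lit 1048576) (nat_lit 4199650) (.one (nat_lit 4201675) .nil))))),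
   .two (nat_lit 1795162139) (nat_lit 135266342) (.two (nat_lit 184986632200) (nat_lit 318767862) (.two (nat_lit 705691650) (nat_lit 20652754465) (.two (nat_lit 605028353) (nat_lit 721424915) (.one (nat_lit 1055948) .nil)))),
   .two (nat_lit 47555018776) (nat_lit 183845781546) (.two (nat_lit 50331656) (nat_lit 9806283489) (.two (nat_lit 721420291) (nat_lit 158653745341) (.two (nat_lit 50331649) (nat_lit 1053388) (.two (nat_lit 8388608) (nat_lit 1054539) (.one (nat_lit 8395981) .nil))))),
   .two (nat_lit 754974747) (nat_lit 4194403) (.two (nat_lit 641728522) (nat_lit 11525948122) (.two (nat_lit 721420290) (nat_lit 4197052) (.two (nat_lit 50331649) (nat_lit 46409977152) (.two (nat_lit 4194304) (nat_lit 16782563) (.one (nat_lit 16784590) .nil))))),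
   .two (nat_lit 4605345818) (nat_lit 2923429930) (.two (nat_lit 156367847432) (nat_lit 4605346609) (.two (nat_lit 4194305) (nat_lit 158150431171) (.one (nat_lit 8395429) .nil))),
   .two (nat_lit 156533522459) (nat_lit 2432696366) (.two (nat_lit 9948889096) (nat_lit 19027460535) (.two (nat_lit 184549378) (nat_lit 46407878190) (.two (nat_lit 156367847425) (nat_lit 337644020) (.two (nat_lit 4194304) (nat_lit 9934215474) .nil)))),
   .two (nat_lit 16777243) (nat_lit 1786773792) (.two (nat_lit 713031684) (nat_lit 46409974578) (.two (nat_lit 41943041) (nat_lit 19545459189) (.two (nat_lit 8388608) (nat_lit 46523224639) (.one (nat_lit 16784591) .nil)))),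
   .two (nat_lit 9948889129) (nat_lit 874512463) (.two (nat_lit 620757000) (nat_lit 4598006133) (.two (nat_lit 11476664324) (nat_lit 184550194) (.two (nat_lit 620756993) (nat_lit 156365753649) (.two (nat_lit 1048576) (nat_lit 158177694169) (.one (nat_lit 156533528880) .nil))))),
   .two (nat_lit 4194340) (nat_lit 218103850) (.two (nat_lit 2902458376) (nat_lit 12620661028) (.two (nat_lit 809500676) (nat_lit 9933161172) (.two (nat_lit 11479810050) (nat_lit 156481095205) (.two (nat_lit 9781116929) (nat_lit 1312820555) (.two (nat_lit 4194304) (nat_lit 16782564) (.one (nat_lit 16784592) .nil)))))),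
   .two (nat_lit 2969567257) (nat_lit 2887778657) (.two (nat_lit 713031684) (nat_lit 46992983609) (.two (nat_lit 41943041) (nat_lit 9982446080) (.two (nat_lit 8388608) (nat_lit 16782565) (.one (nat_lit 184417261830) .nil)))),
   .two (nat_lit 1310720039) (nat_lit 20711473209) (.two (nat_lit 159224168456) (nat_lit 156533522717) (.two (nat_lit 158144135172) (nat_lit 184993972992) (.two (nat_lit 10336862211) (nat_lit 3028288306) (.two (nat_lit 606076929) (nat_lit 8392029) (.two (nat_lit 1048576) (nat_lit 807408774) (.one (nat_lit 2104529) .nil)))))),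
   .two (nat_lit 16777241) (nat_lit 185027526704) (.two (nat_lit 159224168456) (nat_lit 37329306308) (.two (nat_lit 176160770) (nat_lit 855640194) (.two (nat_lit 8388609) (nat_lit 183946448109) (.two (nat_lit 16777216) (nat_lit 1054540) (.one (nat_lit 1055398) .nil))))),
   .two (nat_lit 156581756966) (nat_lit 2956984374) (.two (nat_lit 156367847432) (nat_lit 156581756996) (.two (nat_lit 156367847428) (nat_lit 9881780988) (.two (nat_lit 1178599427) (nat_lit 47596963977) (.two (nat_lit 4194305) (nat_lit 16780638) (.two (nat_lit 4194304) (nat_lit 16783181) (.one (nat_lit 8395986) .nil)))))),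
   .two (nat_lit 2961178666) (nat_lit 183928619065) (.two (nat_lit 16777224) (nat_lit 46414168869) (.two (nat_lit 8388611) (nat_lit 185035916837) (.two (nat_lit 2097153) (nat_lit 156976024891) (.two (nat_lit 8388608) (nat_lit 2418021424) (.one (nat_lit 4201683) .nil))))),
   .two (nat_lit 673185868) (nat_lit 2927624249) (.two (nat_lit 37748744) (nat_lit 880804122) (.two (nat_lit 9940500484) (nat_lit 236978880) (.two (nat_lit 20644364291) (nat_lit 20707282235) (.two (nat_lit 2097152) (nat_lit 4199654) (.one (nat_lit 2104532) .nil))))),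
   .two (nat_lit 183949590553) (nat_lit 166196150331) (.two (nat_lit 9866051592) (nat_lit 1350566212) (.two (nat_lit 46409973764) (nat_lit 19033752336) (.two (nat_lit 13191086083) (nat_lit 46406829616) (.two (nat_lit 41943041) (nat_lit 638586164) (.two (nat_lit 1048576) (nat_lit 18928898563) (.one (nat_lit 1055957) .nil)))))),
   .two (nat_lit 10504634395) (nat_lit 12117344283) (.two (nat_lit 19599982600) (nat_lit 69206199) (.two (nat_lit 19599982596) (nat_lit 69206735) (.two (nat_lit 183848927234) (nat_lit 46978305325) (.two (nat_lit 4194304) (nat_lit 156365756835) .nil)))),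
   .two (nat_lit 1779433499) (nat_lit 174753579035) (.two (nat_lit 739246088) (nat_lit 9799991477) (.two (nat_lit 739246084) (nat_lit 9934210205) (.two (nat_lit 28757196803) (nat_lit 4028631269) (.two (nat_lit 9768534017) (nat_lit 37314629467) (.two (nat_lit 4194304) (nat_lit 11006909022) .nil))))),
   .two (nat_lit 21785215003) (nat_lit 2886729780) (.two (nat_lit 158083317768) (nat_lit 156548202877) (.two (nat_lit 184416206852) (nat_lit 9940501210) (.two (nat_lit 21785214979) (nat_lit 620759259) (.two (nat_lit 34603009) (nat_lit 8392561) (.two (nat_lit 1048576) (nat_lit 8393959) (.one (nat_lit 8395432) .nil)))))),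
   .two (nat_lit 2902458393) (nat_lit 158179786846) (.two (nat_lit 9940500488) (nat_lit 158091706658) (.two (nat_lit 176160772) (nat_lit 183928619739) (.two (nat_lit 176160770) (nat_lit 21827159589) (.two (nat_lit 156367847425) (nat_lit 28806484481) (.one (nat_lit 4201686) .nil))))),
   .two (nat_lit 343932973) (nat_lit 2097252) (.two (nat_lit 8388616) (nat_lit 2902458647) (.two (nat_lit 16777220) (nat_lit 46414168767) (.two (nat_lit 16777218) (nat_lit 12155095274) (.two (nat_lit 16777217) (nat_lit 203428394) (.one (nat_lit 8395991) .nil))))),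
   .two (nat_lit 3527409688) (nat_lit 159251431462) (.two (nat_lit 2954887176) (nat_lit 157038936132) (.two (nat_lit 83886084) (nat_lit 12050236114) (.two (nat_lit 620756995) (nat_lit 174753580606) (.two (nat_lit 50331649) (nat_lit 12115250403) (.two (nat_lit 16777216) (nat_lit 183947498619) (.one (nat_lit 352328246) .nil)))))),
   .two (nat_lit 185035915306) (nat_lit 1048677) (.two (nat_lit 21208498184) (nat_lit 1049069) (.two (nat_lit 21207449604) (nat_lit 156567077595) (.two (nat_lit 158144135171) (nat_lit 12617517238) (.two (nat_lit 605028353) (nat_lit 19042143547) (.two (nat_lit 1048576) (nat_lit 157036843521) (.one (nat_lit 13188995254) .nil)))))),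
   .two (nat_lit 2954887195) (nat_lit 3464495131) (.two (nat_lit 203423752) (nat_lit 183920230583) (.two (nat_lit 203423748) (nat_lit 47555019192) (.two (nat_lit 2954887171) (nat_lit 183953786398) (.two (nat_lit 2097153) (nat_lit 183920232955) (.two (nat_lit 2097152) (nat_lit 8393295) (.one (nat_lit 8395992) .nil)))))),
   .two (nat_lit 183912890393) (nat_lit 10385096743) (.two (nat_lit 12114198536) (nat_lit 9948889368) (.two (nat_lit 12114198532) (nat_lit 12062819885) (.two (nat_lit 34603009) (nat_lit 318770523) (.two (nat_lit 1048576) (nat_lit 185035919886) (.one (nat_lit 16784601) .nil))))),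
   .two (nat_lit 16777243) (nat_lit 21814575153) (.two (nat_lit 20644364296) (nat_lit 46409974200) (.two (nat_lit 272629763) (nat_lit 157051520572) (.two (nat_lit 4194305) (nat_lit 10385100620) (.two (nat_lit 8388608) (nat_lit 4200270) (.one (nat_lit 4201690) .nil))))),
   .two (nat_lit 28772925476) (nat_lit 236978218) (.two (nat_lit 46978301960) (nat_lit 83886364) (.two (nat_lit 46978301956) (nat_lit 721420994) (.two (nat_lit 3525312515) (nat_lit 20753418403) (.two (nat_lit 2097153) (nat_lit 50334193) (.two (nat_lit 2097152) (nat_lit 1795166785) (.one (nat_lit 2104539) .nil)))))),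
   .two (nat_lit 159251431451) (nat_lit 37329305654) (.two (nat_lit 2954887176) (nat_lit 16778044) (.two (nat_lit 1795162116) (nat_lit 11578378763) (.two (nat_lit 1048576) (nat_lit 2103119) (.one (nat_lit 2104540) .nil)))),
   .two (nat_lit 16777240) (nat_lit 166132187227) (.two (nat_lit 20638072840) (nat_lit 174688567475) (.two (nat_lit 13203668996) (nat_lit 205521616) (.two (nat_lit 809500675) (nat_lit 184550194) (.two (nat_lit 606076929) (nat_lit 809504518) (.two (nat_lit 2097152) (nat_lit 318771766) (.one (nat_lit 159217884334) .nil)))))),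
   .two (nat_lit 16777254) (nat_lit 19096666169) (.two (nat_lit 50331656) (nat_lit 303039206) (.two (nat_lit 272629763) (nat_lit 9781119200) (.two (nat_lit 605028353) (nat_lit 1782583809) (.one (nat_lit 1055404) .nil)))),
   .two (nat_lit 306184217) (nat_lit 1392508976) (.two (nat_lit 822083592) (nat_lit 1849688248) (.two (nat_lit 4194308) (nat_lit 50332087) (.two (nat_lit 272629763) (nat_lit 10016000521) (.two (nat_lit 1048576) (nat_lit 10921972203) (.one (nat_lit 1055405) .nil))))),
   .two (nat_lit 1291845677) (nat_lit 2097255) (.two (nat_lit 1291845640) (nat_lit 11007951666) (.two (nat_lit 34603009) (nat_lit 156984413462) (.two (nat_lit 1048576) (nat_lit 9766441435) (.one (nat_lit 2103984) .nil)))),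
   .two (nat_lit 11618222124) (nat_lit 19096666168) (.two (nat_lit 4638900234) (nat_lit 183949590967) (.two (nat_lit 8388610) (nat_lit 742394368) (.two (nat_lit 8388608) (nat_lit 46477087291) (.one (nat_lit 4201137) .nil)))),
   .two (nat_lit 4605345816) (nat_lit 3527409703) (.two (nat_lit 3527409674) (nat_lit 156372041796) (.two (nat_lit 272629764) (nat_lit 9940503053) (.two (nat_lit 4194304) (nat_lit 1350569437) (.one (nat_lit 8395997) .nil)))),
   .two (nat_lit 612368411) (nat_lit 28757196881) (.two (nat_lit 184986632200) (nat_lit 343932996) (.two (nat_lit 713031684) (nat_lit 9899606720) (.two (nat_lit 713031682) (nat_lit 21811430194) (.two (nat_lit 41943041) (nat_lit 1052000) (.two (nat_lit 16777216) (nat_lit 156472709601) (.one (nat_lit 8395444) .nil)))))),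
   .two (nat_lit 4601151512) (nat_lit 10437525557) (.two (nat_lit 8388616) (nat_lit 9799992871) (.two (nat_lit 8388609) (nat_lit 3458207019) (.two (nat_lit 8388608) (nat_lit 2990543361) (.one (nat_lit 4201141) .nil)))),
   .two (nat_lit 16777242) (nat_lit 20644364314) (.two (nat_lit 20644364296) (nat_lit 50332088) (.two (nat_lit 159224168451) (nat_lit 28772927997) (.two (nat_lit 8388608) (nat_lit 117445187) (.one (nat_lit 19109255367) .nil)))),
   .two (nat_lit 16777241) (nat_lit 1175453755) (.two (nat_lit 10336862216) (nat_lit 1846542776) (.two (nat_lit 806354947) (nat_lit 12633245229) (.two (nat_lit 2097153) (nat_lit 638588063) (.one (nat_lit 1055417) .nil)))),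
   .two (nat_lit 713031707) (nat_lit 3524264031) (.two (nat_lit 41943048) (nat_lit 185002361123) (.two (nat_lit 218103812) (nat_lit 605029114) (.two (nat_lit 10335813635) (nat_lit 8391357) (.two (nat_lit 9781116929) (nat_lit 28790754650) (.two (nat_lit 1048576) (nat_lit 8394576) (.one (nat_lit 1055967) .nil)))))),
   .two (nat_lit 47548727320) (nat_lit 185023332447) (.two (nat_lit 9940500488) (nat_lit 673187348) (.two (nat_lit 2097153) (nat_lit 4199117) (.two (nat_lit 8388608) (nat_lit 2103121) (.one (nat_lit 10443823752) .nil)))),
   .two (nat_lit 285212697) (nat_lit 9940500543) (.two (nat_lit 184993972232) (nat_lit 37262197491) (.two (nat_lit 16777218) (nat_lit 847251643) (.two (nat_lit 8388609) (nat_lit 285216047) (.two (nat_lit 8388608) (nat_lit 285217320) (.one (nat_lit 8396000) .nil))))),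
   .two (nat_lit 165532401707) (nat_lit 2954887221) (.two (nat_lit 47582281738) (nat_lit 10343153843) (.two (nat_lit 169869316) (nat_lit 746587673) (.two (nat_lit 2097153) (nat_lit 10000272666) (.two (nat_lit 2097152) (nat_lit 672142438) (.one (nat_lit 8395451) .nil))))),
   .two (nat_lit 12129927193) (nat_lit 28790751275) (.two (nat_lit 612368392) (nat_lit 336593385) (.two (nat_lit 9781116932) (nat_lit 159216829142) (.two (nat_lit 2902458370) (nat_lit 159250385570) (.two (nat_lit 2097153) (nat_lit 654314730) (.two (nat_lit 2097152) (nat_lit 1054547) (.one (nat_lit 16784609) .nil)))))),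
   .two (nat_lit 47548727322) (nat_lit 4605345835) (.two (nat_lit 4605345805) (nat_lit 12115247286) (.two (nat_lit 343932933) (nat_lit 156969730761) (.two (nat_lit 4605345795) (nat_lit 4634709301) (.two (nat_lit 4194304) (nat_lit 9799995947) (.one (nat_lit 2104546) .nil))))),
   .two (nat_lit 620757019) (nat_lit 68157486) (.two (nat_lit 721420296) (nat_lit 806355245) (.two (nat_lit 3464495108) (nat_lit 1224737504) (.two (nat_lit 176160771) (nat_lit 10921969819) (.two (nat_lit 8388609) (nat_lit 47596965199) (.two (nat_lit 1048576) (nat_lit 46984598754) (.one (nat_lit 1055201) .nil)))))),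
   .two (nat_lit 11492392986) (nat_lit 1048680) (.two (nat_lit 117440522) (nat_lit 10537140406) (.two (nat_lit 739246084) (nat_lit 822084402) (.two (nat_lit 9765388289) (nat_lit 184554705) (.one (nat_lit 166129048169) .nil)))),
   .two (nat_lit 50331687) (nat_lit 21781020733) (.two (nat_lit 117440520) (nat_lit 156566028470) (.two (nat_lit 4194308) (nat_lit 9915336901) (.two (nat_lit 9768534017) (nat_lit 806358877) (.two (nat_lit 16777216) (nat_lit 10537146077) (.one (nat_lit 4201700) .nil))))),
   .two (nat_lit 4028629019) (nat_lit 9936306270) (.two (nat_lit 10504634376) (nat_lit 3457155543) (.two (nat_lit 10504634372) (nat_lit 11006903016) (.two (nat_lit 2887778306) (nat_lit 68160807) (.two (nat_lit 4194304) (nat_lit 183947498723) (.one (nat_lit 2104549) .nil))))),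
   .two (nat_lit 19093520411) (nat_lit 1384120384) (.two (nat_lit 16777224) (nat_lit 1317012247) (.two (nat_lit 620756995) (nat_lit 11476666589) (.two (nat_lit 50331649) (nat_lit 8392563) (.two (nat_lit 1048576) (nat_lit 8393962) (.one (nat_lit 16784614) .nil))))),
   .two (nat_lit 754974746) (nat_lit 166196150299) (.two (nat_lit 754974728) (nat_lit 158176642624) (.two (nat_lit 50331649) (nat_lit 68161994) (.one (nat_lit 1055421) .nil))),
   .two (nat_lit 11618222124) (nat_lit 807403568) (.two (nat_lit 3458203656) (nat_lit 209715508) (.two (nat_lit 4605345796) (nat_lit 1310720703) (.two (nat_lit 46414168067) (nat_lit 159251432982) (.two (nat_lit 8388609) (nat_lit 10940846657) (.one (nat_lit 2104551) .nil))))),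
   .two (nat_lit 10540285988) (nat_lit 10538188841) (.two (nat_lit 13195280392) (nat_lit 156569174292) (.two (nat_lit 46980399108) (nat_lit 4034921198) (.two (nat_lit 1277165570) (nat_lit 4197054) (.two (nat_lit 8388609) (nat_lit 2101966) (.two (nat_lit 2097152) (nat_lit 8394581) (.one (nat_lit 2104553) .nil)))))),
   .two (nat_lit 4601151514) (nat_lit 343932967) (.two (nat_lit 41943048) (nat_lit 20707279030) (.two (nat_lit 276824068) (nat_lit 306184632) (.two (nat_lit 713031683) (nat_lit 21781022959) (.two (nat_lit 4194305) (nat_lit 1052533) (.two (nat_lit 8388608) (nat_lit 4200278) (.one (nat_lit 4201152) .nil)))))),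
   .two (nat_lit 184419352601) (nat_lit 9933160755) (.two (nat_lit 1310720006) (nat_lit 605029522) (.two (nat_lit 1277165571) (nat_lit 185020188854) (.two (nat_lit 2097153) (nat_lit 1052534) (.two (nat_lit 2097152) (nat_lit 1054551) (.one (nat_lit 2104555) .nil))))),
   .two (nat_lit 19532873766) (nat_lit 337641529) (.two (nat_lit 203423752) (nat_lit 3024093493) (.two (nat_lit 203423748) (nat_lit 3024093926) (.two (nat_lit 1176502275) (nat_lit 876611815) (.two (nat_lit 2097153) (nat_lit 9772731730) (.two (nat_lit 2097152) (nat_lit 4200280) (.one (nat_lit 8396012) .nil)))))),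
   .two (nat_lit 21208498218) (nat_lit 174688567340) (.two (nat_lit 174753579016) (nat_lit 10003415393) (.two (nat_lit 174753579012) (nat_lit 19096666836) (.two (nat_lit 159217876995) (nat_lit 11546922237) (.two (nat_lit 2097152) (nat_lit 13224647027) .nil)))),
   .two (nat_lit 1277165594) (nat_lit 19100860468) (.two (nat_lit 46984593416) (nat_lit 304088609) (.two (nat_lit 156364701697) (nat_lit 28691139856) (.two (nat_lit 1048576) (nat_lit 2102509) (.one (nat_lit 8396013) .nil)))),
   .two (nat_lit 13191086107) (nat_lit 10015998003) (.two (nat_lit 183848927240) (nat_lit 889192754) (.two (nat_lit 183848927236) (nat_lit 150995385) (.two (nat_lit 809500675) (nat_lit 16778033) (.two (nat_lit 37748737) (nat_lit 19109251597) (.two (nat_lit 8388608) (nat_lit 2889880044) (.one (nat_lit 339745172) .nil)))))),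
   .two (nat_lit 205520921) (nat_lit 3458203674) (.two (nat_lit 2961178632) (nat_lit 159217877060) (.two (nat_lit 2961178628) (nat_lit 37247517420) (.two (nat_lit 176160770) (nat_lit 156532475439) (.two (nat_lit 612368385) (nat_lit 20640173407) (.two (nat_lit 8388608) (nat_lit 4199662) (.one (nat_lit 4201710) .nil)))))),
   .two (nat_lit 3527409690) (nat_lit 46406828084) (.two (nat_lit 159224168456) (nat_lit 184986632511) (.two (nat_lit 9906946054) (nat_lit 12147753661) (.two (nat_lit 9873391619) (nat_lit 9899608254) (.two (nat_lit 4194305) (nat_lit 9765392143) (.two (nat_lit 4194304) (nat_lit 21818774017) (.one (nat_lit 142612936) .nil)))))),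
   .two (nat_lit 8388632) (nat_lit 3458203675) (.two (nat_lit 8388616) (nat_lit 9867100341) (.two (nat_lit 612368388) (nat_lit 9967764152) (.two (nat_lit 176160770) (nat_lit 159251432979) (.two (nat_lit 612368385) (nat_lit 2921336048) (.two (nat_lit 2097152) (nat_lit 12121543730) (.one (nat_lit 8395793) .nil)))))),
   .two (nat_lit 8388632) (nat_lit 156365750331) (.two (nat_lit 612368392) (nat_lit 166130090288) (.two (nat_lit 11476664324) (nat_lit 19537068745) (.two (nat_lit 739246083) (nat_lit 337643713) (.two (nat_lit 34603009) (nat_lit 2101111) (.two (nat_lit 1048576) (nat_lit 2102511) (.one (nat_lit 1055983) .nil)))))),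
   .two (nat_lit 3525312536) (nat_lit 10372514084) (.two (nat_lit 3460300804) (nat_lit 706740940) (.two (nat_lit 2956984323) (nat_lit 3021997611) (.two (nat_lit 4194305) (nat_lit 166229707252) (.two (nat_lit 4194304) (nat_lit 1053936) (.one (nat_lit 1055984) .nil))))),
   .two (nat_lit 1916796955) (nat_lit 37313577003) (.two (nat_lit 1745879048) (nat_lit 9936307739) (.two (nat_lit 34603009) (nat_lit 9936310752) (.one (nat_lit 4601158297) .nil))),
   .two (nat_lit 46474985498) (nat_lit 185002360880) (.two (nat_lit 1291845640) (nat_lit 11611931333) (.two (nat_lit 746586115) (nat_lit 21827160197) (.two (nat_lit 612368385) (nat_lit 158177693432) (.two (nat_lit 16777216) (nat_lit 109057083) (.one (nat_lit 2103575) .nil))))),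
   .two (nat_lit 184419352601) (nat_lit 2097218) (.two (nat_lit 157036838920) (nat_lit 184989779526) (.two (nat_lit 2097153) (nat_lit 9969863915) (.two (nat_lit 2097152) (nat_lit 9781121568) (.one (nat_lit 2104006) .nil)))),
   .two (nat_lit 12054429735) (nat_lit 46978302018) (.two (nat_lit 1753219080) (nat_lit 19128124116) (.two (nat_lit 2889875459) (nat_lit 11511269576) (.two (nat_lit 37748737) (nat_lit 35655541) (.two (nat_lit 4194304) (nat_lit 2103130) (.one (nat_lit 37755584) .nil))))),
   .two (nat_lit 754974745) (nat_lit 20704133146) (.two (nat_lit 754974728) (nat_lit 28757196868) (.two (nat_lit 21207449604) (nat_lit 165540790990) (.two (nat_lit 721420291) (nat_lit 605031100) (.two (nat_lit 41943041) (nat_lit 1276120384) (.two (nat_lit 1048576) (nat_lit 8393971) (.one (nat_lit 16784626) .nil)))))),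
   .two (nat_lit 183962173478) (nat_lit 46980399146) (.two (nat_lit 46409973768) (nat_lit 687866147) (.two (nat_lit 46409973764) (nat_lit 352322337) (.two (nat_lit 4601151491) (nat_lit 156380431932) (.two (nat_lit 2097153) (nat_lit 1950355929) (.one (nat_lit 2104563) .nil))))),
   .two (nat_lit 2994733082) (nat_lit 166130090010) (.two (nat_lit 19530776584) (nat_lit 1786774303) (.two (nat_lit 10504634371) (nat_lit 9906949364) (.two (nat_lit 2097152) (nat_lit 1350569437) (.one (nat_lit 8396020) .nil)))),
   .two (nat_lit 156372041755) (nat_lit 10001317941) (.two (nat_lit 20644364296) (nat_lit 1847591181) (.two (nat_lit 2954887172) (nat_lit 28093448886) (.two (nat_lit 169869314) (nat_lit 1753220627) (.two (nat_lit 2097153) (nat_lit 813698288) (.two (nat_lit 8388608) (nat_lit 1176507442) (.one (nat_lit 156365757480) .nil)))))),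
   .two (nat_lit 158176641063) (nat_lit 109051955) (.two (nat_lit 12054429704) (nat_lit 1947205916) (.two (nat_lit 12054429700) (nat_lit 184986632981) (.two (nat_lit 1276116994) (nat_lit 158653744672) (.two (nat_lit 605028353) (nat_lit 9873394166) (.two (nat_lit 1048576) (nat_lit 159224173067) (.one (nat_lit 8396021) .nil)))))),
   .two (nat_lit 11479810074) (nat_lit 12047090045) (.two (nat_lit 11479810052) (nat_lit 156364703283) (.two (nat_lit 37748737) (nat_lit 34607563) (.one (nat_lit 21785221587) .nil))),
   .two (nat_lit 10385096740) (nat_lit 21811429465) (.two (nat_lit 9781116936) (nat_lit 1376780612) (.two (nat_lit 705691652) (nat_lit 9948889781) (.two (nat_lit 3525312515) (nat_lit 9933162023) (.two (nat_lit 2097153) (nat_lit 183946449351) (.one (nat_lit 12618570172) .nil))))),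
   .two (nat_lit 169869337) (nat_lit 1358954567) (.two (nat_lit 21207449610) (nat_lit 10370416986) (.two (nat_lit 166130089988) (nat_lit 13221495534) (.two (nat_lit 166130089986) (nat_lit 4196595) (.two (nat_lit 4194305) (nat_lit 158075982538) (.two (nat_lit 16777216) (nat_lit 1053941) (.one (nat_lit 16784631) .nil)))))),
   .two (nat_lit 11559501848) (nat_lit 37246468139) (.two (nat_lit 11593056265) (nat_lit 1049070) (.two (nat_lit 183912890374) (nat_lit 185002361571) (.two (nat_lit 184986632195) (nat_lit 117441329) (.two (nat_lit 34603009) (nat_lit 20753419746) (.one (nat_lit 16784632) .nil))))),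
   .two (nat_lit 20644364313) (nat_lit 183861510208) (.two (nat_lit 16777224) (nat_lit 20644364728) (.two (nat_lit 16777218) (nat_lit 165532403920) (.two (nat_lit 41943041) (nat_lit 184552764) (.two (nat_lit 8388608) (nat_lit 117445829) (.one (nat_lit 813701362) .nil))))),
   .two (nat_lit 16777240) (nat_lit 12155093052) (.two (nat_lit 721420296) (nat_lit 1309671796) (.two (nat_lit 2961178628) (nat_lit 16778772) (.two (nat_lit 8388609) (nat_lit 16780641) (.two (nat_lit 1048576) (nat_lit 8393975) (.one (nat_lit 8396025) .nil))))),
   .two (nat_lit 620757037) (nat_lit 158653743159) (.two (nat_lit 612368392) (nat_lit 788530719) (.two (nat_lit 8388609) (nat_lit 46422560563) (.two (nat_lit 8388608) (nat_lit 16783196) (.one (nat_lit 19537074600) .nil)))),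
   .two (nat_lit 2994733083) (nat_lit 184987680829) (.two (nat_lit 169869320) (nat_lit 156372042422) (.two (nat_lit 169869314) (nat_lit 18933090453) (.two (nat_lit 606076929) (nat_lit 645926765) (.two (nat_lit 8388608) (nat_lit 2103133) (.one (nat_lit 13221501296) .nil))))),
   .two (nat_lit 9866051610) (nat_lit 9867100218) (.two (nat_lit 158144135182) (nat_lit 174752530771) (.two (nat_lit 9866051588) (nat_lit 2098825) (.two (nat_lit 3458203651) (nat_lit 1051328) (.two (nat_lit 9765388289) (nat_lit 10504638939) (.one (nat_lit 11510225584) .nil))))),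
   .two (nat_lit 1310720038) (nat_lit 158143086636) (.two (nat_lit 21207449608) (nat_lit 159217877315) (.two (nat_lit 21208498180) (nat_lit 101712596) (.two (nat_lit 1277165571) (nat_lit 1050869) (.two (nat_lit 2097153) (nat_lit 12147757774) (.two (nat_lit 16777216) (nat_lit 1175459611) (.one (nat_lit 1055994) .nil)))))),
   .two (nat_lit 158144135192) (nat_lit 2416967723) (.two (nat_lit 28086108168) (nat_lit 606077666) (.two (nat_lit 101711875) (nat_lit 304089590) (.two (nat_lit 1048576) (nat_lit 3558871563) (.one (nat_lit 2104011) .nil)))),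
   .two (nat_lit 19130220571) (nat_lit 37313577001) (.two (nat_lit 2349858826) (nat_lit 13224640692) (.two (nat_lit 156968681476) (nat_lit 46510637495) (.two (nat_lit 272629763) (nat_lit 1050870) (.two (nat_lit 9765388289) (nat_lit 19130225193) (.one (nat_lit 20740840094) .nil))))),
   .two (nat_lit 306184218) (nat_lit 156532473951) (.two (nat_lit 4194312) (nat_lit 83886350) (.two (nat_lit 654311428) (nat_lit 184986632632) (.two (nat_lit 9781116931) (nat_lit 1346373152) (.two (nat_lit 4194305) (nat_lit 1052537) (.two (nat_lit 16777216) (nat_lit 4200286) (.one (nat_lit 4201723) .nil)))))),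
   .two (nat_lit 9974054939) (nat_lit 19109249072) (.two (nat_lit 50331656) (nat_lit 183953785014) (.two (nat_lit 721420292) (nat_lit 2894070501) (.two (nat_lit 159224168451) (nat_lit 1862272543) (.two (nat_lit 605028353) (nat_lit 176165946) (.one (nat_lit 8396028) .nil))))),
   .two (nat_lit 2902458393) (nat_lit 157036838968) (.two (nat_lit 9781116936) (nat_lit 2097981) (.two (nat_lit 9781116932) (nat_lit 159217877765) (.two (nat_lit 117440515) (nat_lit 1344277852) (.two (nat_lit 2097152) (nat_lit 16783199) (.one (nat_lit 673192327) .nil))))),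
   .two (nat_lit 11559501850) (nat_lit 174752530513) (.two (nat_lit 11559501832) (nat_lit 12047090132) (.two (nat_lit 185020186629) (nat_lit 28772927043) (.two (nat_lit 34603009) (nat_lit 1962937650) (.two (nat_lit 1048576) (nat_lit 16783200) (.one (nat_lit 1055438) .nil))))),
   .two (nat_lit 2889875482) (nat_lit 12047089749) (.two (nat_lit 10506731528) (nat_lit 183946445154) (.two (nat_lit 183845781508) (nat_lit 46510637496) (.two (nat_lit 1178599427) (nat_lit 1050871) (.two (nat_lit 2097153) (nat_lit 1052538) (.two (nat_lit 2097152) (nat_lit 37316729288) .nil))))),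
   .two (nat_lit 8388634) (nat_lit 1048766) (.two (nat_lit 285212682) (nat_lit 8388787) (.two (nat_lit 16777220) (nat_lit 8389792) (.two (nat_lit 184549379) (nat_lit 1920993415) (.two (nat_lit 16777217) (nat_lit 1417678125) (.two (nat_lit 16777216) (nat_lit 8393977) (.one (nat_lit 8396029) .nil)))))),
   .two (nat_lit 50331675) (nat_lit 705691694) (.two (nat_lit 721420296) (nat_lit 11610882355) (.two (nat_lit 46414168068) (nat_lit 10452206352) (.two (nat_lit 20644364291) (nat_lit 4043311345) (.two (nat_lit 605028353) (nat_lit 109055203) (.two (nat_lit 1048576) (nat_lit 4034925794) (.one (nat_lit 8396030) .nil)))))),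
   .two (nat_lit 20704133145) (nat_lit 11559501862) (.two (nat_lit 1358954504) (nat_lit 4027581180) (.two (nat_lit 9866051587) (nat_lit 1291847188) (.two (nat_lit 34603009) (nat_lit 16781179) (.two (nat_lit 16777216) (nat_lit 1054562) (.one (nat_lit 101718398) .nil))))),
   .two (nat_lit 272629784) (nat_lit 1795162155) (.two (nat_lit 654311432) (nat_lit 675283658) (.two (nat_lit 721420291) (nat_lit 165528209912) (.two (nat_lit 16777216) (nat_lit 4198993) (.one (nat_lit 4201168) .nil)))),
   .two (nat_lit 11513364505) (nat_lit 11543773243) (.two (nat_lit 3527409672) (nat_lit 2921333529) (.two (nat_lit 10506731523) (nat_lit 156566029851) (.two (nat_lit 605028353) (nat_lit 1279265284) (.two (nat_lit 1048576) (nat_lit 10504638979) (.one (nat_lit 1055999) .nil))))),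
   .two (nat_lit 3028287513) (nat_lit 1291845673) (.two (nat_lit 9948889098) (nat_lit 11618222260) (.two (nat_lit 620756996) (nat_lit 10007610903) (.two (nat_lit 16777217) (nat_lit 46514836031) (.one (nat_lit 8396033) .nil)))),
   .two (nat_lit 9934209051) (nat_lit 12050235440) (.two (nat_lit 41943048) (nat_lit 37316722998) (.two (nat_lit 813694980) (nat_lit 4634706621) (.two (nat_lit 11484004355) (nat_lit 12117346494) (.two (nat_lit 8388609) (nat_lit 174686474785) (.one (nat_lit 8396034) .nil))))),
   .two (nat_lit 47555018778) (nat_lit 19109249072) (.two (nat_lit 50331656) (nat_lit 2894070529) (.two (nat_lit 176160770) (nat_lit 21223179825) (.two (nat_lit 612368385) (nat_lit 11577331019) (.two (nat_lit 8388608) (nat_lit 9765392897) (.one (nat_lit 12624861583) .nil))))),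
   .two (nat_lit 218103834) (nat_lit 1310720026) (.two (nat_lit 20638072840) (nat_lit 654311864) (.two (nat_lit 159217876995) (nat_lit 185002363389) (.two (nat_lit 2097152) (nat_lit 158158819862) (.one (nat_lit 16784082) .nil)))),
   .two (nat_lit 176160794) (nat_lit 20638072874) (.two (nat_lit 176160776) (nat_lit 183947494118) (.two (nat_lit 10336862211) (nat_lit 4197057) (.two (nat_lit 8388609) (nat_lit 156969734657) (.one (nat_lit 2104579) .nil)))),
   .two (nat_lit 158083317787) (nat_lit 2097257) (.two (nat_lit 10336862216) (nat_lit 28093448462) (.two (nat_lit 3464495110) (nat_lit 46508540632) (.two (nat_lit 3464495107) (nat_lit 2099906) (.two (nat_lit 612368385) (nat_lit 2101116) (.two (nat_lit 16777216) (nat_lit 9806287380) (.one (nat_lit 8396036) .nil)))))),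
   .two (nat_lit 184549401) (nat_lit 1950351413) (.two (nat_lit 2902458376) (nat_lit 46477083398) (.two (nat_lit 9768534019) (nat_lit 2969568787) (.two (nat_lit 37748737) (nat_lit 1392512240) (.two (nat_lit 4194304) (nat_lit 16782587) (.one (nat_lit 4201733) .nil))))),
   .two (nat_lit 2969567258) (nat_lit 174753579045) (.two (nat_lit 174753579016) (nat_lit 10955522399) (.two (nat_lit 157036838916) (nat_lit 9948889527) (.two (nat_lit 3458203651) (nat_lit 1291847189) (.two (nat_lit 2097153) (nat_lit 11492397632) (.one (nat_lit 16784083) .nil))))),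
   .two (nat_lit 158176641049) (nat_lit 10907287592) (.two (nat_lit 1779433480) (nat_lit 1176502454) (.two (nat_lit 1779433476) (nat_lit 1310720440) (.two (nat_lit 10336862211) (nat_lit 1410336314) (.two (nat_lit 606076929) (nat_lit 1053394) (.two (nat_lit 2097152) (nat_lit 1054563) (.one (nat_lit 1056006) .nil)))))),
   .two (nat_lit 183916036122) (nat_lit 21811429421) (.two (nat_lit 75497480) (nat_lit 174755676470) (.two (nat_lit 1376780294) (nat_lit 159219974856) (.two (nat_lit 612368387) (nat_lit 174755677753) (.two (nat_lit 41943041) (nat_lit 183949593072) (.two (nat_lit 1048576) (nat_lit 3460304351) (.one (nat_lit 4201173) .nil)))))),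
   .two (nat_lit 739246106) (nat_lit 136314944) (.two (nat_lit 158144135176) (nat_lit 1048967) (.two (nat_lit 101711876) (nat_lit 156567077614) (.two (nat_lit 11543773187) (nat_lit 2099907) (.two (nat_lit 9765388289) (nat_lit 2101117) (.two (nat_lit 1048576) (nat_lit 2103140) (.one (nat_lit 1055446) .nil)))))),
   .two (nat_lit 3525312539) (nat_lit 185002360880) (.two (nat_lit 1291845640) (nat_lit 269484805) (.two (nat_lit 806354947) (nat_lit 46422558239) (.two (nat_lit 8388609) (nat_lit 9766441435) (.one (nat_lit 8395321) .nil)))),
   .two (nat_lit 2902458393) (nat_lit 183913938990) (.two (nat_lit 2902458376) (nat_lit 708838127) (.two (nat_lit 285212675) (nat_lit 2923432128) (.two (nat_lit 16777217) (nat_lit 2923433271) (.two (nat_lit 2097152) (nat_lit 20753420814) (.one (nat_lit 165526116831) .nil))))),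
   .two (nat_lit 12624855076) (nat_lit 19529728053) (.two (nat_lit 156968681480) (nat_lit 183913939232) (.two (nat_lit 1847590916) (nat_lit 185020188872) (.two (nat_lit 9765388289) (nat_lit 10370421249) (.one (nat_lit 1055449) .nil)))),
   .two (nat_lit 47596961830) (nat_lit 11007950886) (.two (nat_lit 9948889096) (nat_lit 1948254517) (.two (nat_lit 2887778308) (nat_lit 184550194) (.two (nat_lit 9766436865) (nat_lit 10537144775) (.one (nat_lit 2104026) .nil)))),
   .two (nat_lit 2969567257) (nat_lit 21785215019) (.two (nat_lit 2969567240) (nat_lit 159257723061) (.two (nat_lit 2969567236) (nat_lit 158083318199) (.two (nat_lit 184549379) (nat_lit 9940502087) (.two (nat_lit 16777217) (nat_lit 10376711399) (.two (nat_lit 16777216) (nat_lit 156573372921) (.one (nat_lit 47588579675) .nil)))))),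
   .two (nat_lit 2954887194) (nat_lit 47555018777) (.two (nat_lit 2954887176) (nat_lit 156976021689) (.two (nat_lit 47548727300) (nat_lit 10007610038) (.two (nat_lit 3458203651) (nat_lit 8390905) (.two (nat_lit 606076929) (nat_lit 8392574) (.two (nat_lit 16777216) (nat_lit 184417259976) (.one (nat_lit 2104027) .nil)))))),
   .two (nat_lit 654311451) (nat_lit 166197198875) (.two (nat_lit 1291845640) (nat_lit 337641654) (.two (nat_lit 156533522438) (nat_lit 159232558234) (.two (nat_lit 10504634371) (nat_lit 11593058439) (.two (nat_lit 9766436865) (nat_lit 47596965165) (.two (nat_lit 2097152) (nat_lit 352326742) (.one (nat_lit 2104028) .nil)))))),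
   .two (nat_lit 41943067) (nat_lit 2923429915) (.two (nat_lit 713031688) (nat_lit 37316722873) (.two (nat_lit 184993972228) (nat_lit 4195489) (.two (nat_lit 713031682) (nat_lit 4197060) (.two (nat_lit 4194305) (nat_lit 185027529962) (.two (nat_lit 8388608) (nat_lit 1312822471) (.one (nat_lit 4201181) .nil)))))),
   .two (nat_lit 1753219110) (nat_lit 775946297) (.two (nat_lit 37748744) (nat_lit 158083318463) (.two (nat_lit 4194306) (nat_lit 183953787114) (.two (nat_lit 2097153) (nat_lit 8391979) (.two (nat_lit 8388608) (nat_lit 19530781184) (.one (nat_lit 2104030) .nil))))),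
   .two (nat_lit 184549401) (nat_lit 4632608817) (.two (nat_lit 184549384) (nat_lit 169870487) (.two (nat_lit 639631363) (nat_lit 352324921) (.two (nat_lit 2097152) (nat_lit 687870495) (.one (nat_lit 16784095) .nil)))),
   .two (nat_lit 10370416667) (nat_lit 11492392996) (.two (nat_lit 713031688) (nat_lit 19042140457) (.two (nat_lit 9881780228) (nat_lit 203424481) (.two (nat_lit 83886083) (nat_lit 166237046320) (.two (nat_lit 2097153) (nat_lit 8393427) (.two (nat_lit 2097152) (nat_lit 16782590) (.one (nat_lit 8395488) .nil)))))),
   .two (nat_lit 9881780251) (nat_lit 28758245429) (.two (nat_lit 10385096712) (nat_lit 28758245444) (.two (nat_lit 8388612) (nat_lit 37314625975) (.two (nat_lit 639631363) (nat_lit 8391365) (.two (nat_lit 8388609) (nat_lit 807406072) (.two (nat_lit 2097152) (nat_lit 11626615350) (.one (nat_lit 8396039) .nil)))))),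
   .two (nat_lit 83886116) (nat_lit 20740833332) (.two (nat_lit 83886088) (nat_lit 20640170318) (.two (nat_lit 754974724) (nat_lit 4634706620) (.two (nat_lit 11492392962) (nat_lit 183949593864) (.two (nat_lit 16777216) (nat_lit 203428933) (.one (nat_lit 19545464069) .nil))))),
   .two (nat_lit 19096666139) (nat_lit 310378540) (.two (nat_lit 9881780232) (nat_lit 176161087) (.two (nat_lit 41943044) (nat_lit 19545457436) (.two (nat_lit 1358954499) (nat_lit 28764539127) (.two (nat_lit 9768534017) (nat_lit 4605349626) (.two (nat_lit 16777216) (nat_lit 47550829634) (.one (nat_lit 16784280) .nil)))))),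
   .two (nat_lit 46510637082) (nat_lit 166197198907) (.two (nat_lit 1277165576) (nat_lit 37320917338) (.two (nat_lit 37748740) (nat_lit 46481277715) (.two (nat_lit 272629763) (nat_lit 2099910) (.two (nat_lit 4194305) (nat_lit 2102335) (.one (nat_lit 2104584) .nil))))),
   .two (nat_lit 16777241) (nat_lit 156532473914) (.two (nat_lit 13195280392) (nat_lit 806355664) (.two (nat_lit 1343225859) (nat_lit 174768260632) (.two (nat_lit 8388609) (nat_lit 10452208132) (.two (nat_lit 1048576) (nat_lit 16782592) (.one (nat_lit 47547685474) .nil))))),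
   .two (nat_lit 13224640539) (nat_lit 1795162397) (.two (nat_lit 50331652) (nat_lit 10909386274) (.two (nat_lit 16777217) (nat_lit 158079128032) (.one (nat_lit 1413486785) .nil))),
   .two (nat_lit 185027526681) (nat_lit 21207449627) (.two (nat_lit 11551113224) (nat_lit 174752530612) (.two (nat_lit 9867100164) (nat_lit 158653743905) (.two (nat_lit 639631363) (nat_lit 28793898554) (.two (nat_lit 605028353) (nat_lit 158647455502) (.two (nat_lit 1048576) (nat_lit 158177694903) (.one (nat_lit 13222549804) .nil)))))),
   .two (nat_lit 822083625) (nat_lit 183946444900) (.two (nat_lit 754974728) (nat_lit 11577328434) (.two (nat_lit 34603009) (nat_lit 174768263740) (.one (nat_lit 1055459) .nil))),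
   .two (nat_lit 620757031) (nat_lit 156969730136) (.two (nat_lit 9948889096) (nat_lit 4028629431) (.two (nat_lit 1291845634) (nat_lit 35654887) (.two (nat_lit 2097152) (nat_lit 1795167314) (.one (nat_lit 1277172018) .nil)))),
   .two (nat_lit 9967763483) (nat_lit 4034920490) (.two (nat_lit 3464495112) (nat_lit 2418016437) (.two (nat_lit 3464495108) (nat_lit 19128124109) (.two (nat_lit 159217876995) (nat_lit 788531700) (.two (nat_lit 2097152) (nat_lit 156984414686) (.one (nat_lit 16784649) .nil))))),
   .two (nat_lit 16777240) (nat_lit 37253808185) (.two (nat_lit 620757000) (nat_lit 10544480609) (.two (nat_lit 3464495108) (nat_lit 12163482357) (.two (nat_lit 47555018755) (nat_lit 158662133303) (.two (nat_lit 8388609) (nat_lit 50335024) (.two (nat_lit 1048576) (nat_lit 3531608610) (.one (nat_lit 1056010) .nil)))))),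
   .two (nat_lit 11559501851) (nat_lit 3457155124) (.two (nat_lit 754974728) (nat_lit 184416207142) (.two (nat_lit 754974724) (nat_lit 12147755227) (.two (nat_lit 50331649) (nat_lit 235933545) (.two (nat_lit 1048576) (nat_lit 8394597) (.one (nat_lit 16784651) .nil))))),
   .two (nat_lit 2961178650) (nat_lit 21223178337) (.two (nat_lit 9768534024) (nat_lit 12114198816) (.two (nat_lit 9768534020) (nat_lit 10436477718) (.two (nat_lit 721420291) (nat_lit 11510220322) (.two (nat_lit 50331649) (nat_lit 34607655) (.one (nat_lit 1056012) .nil))))),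
   .two (nat_lit 2969567257) (nat_lit 2988441626) (.two (nat_lit 2969567240) (nat_lit 47548727364) (.two (nat_lit 19596836868) (nat_lit 46523220711) (.two (nat_lit 2097155) (nat_lit 16779975) (.two (nat_lit 34603009) (nat_lit 16782036) (.two (nat_lit 1048576) (nat_lit 2102529) (.one (nat_lit 1056013) .nil)))))),
   .two (nat_lit 3036676134) (nat_lit 184993972268) (.two (nat_lit 12054429704) (nat_lit 28806480253) (.two (nat_lit 12054429700) (nat_lit 12163482324) (.two (nat_lit 156372041731) (nat_lit 16779976) (.two (nat_lit 41943041) (nat_lit 16781183) (.two (nat_lit 1048576) (nat_lit 813699585) (.one (nat_lit 8396046) .nil)))))),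
   .two (nat_lit 184549415) (nat_lit 156969730099) (.two (nat_lit 620757000) (nat_lit 645923150) (.two (nat_lit 2969567236) (nat_lit 46978302679) (.two (nat_lit 2969567235) (nat_lit 158177691827) (.two (nat_lit 16777217) (nat_lit 2101120) (.two (nat_lit 2097152) (nat_lit 8394598) (.one (nat_lit 16784655) .nil)))))),
   .two (nat_lit 10007609388) (nat_lit 2953838685) (.two (nat_lit 184993972232) (nat_lit 4631560633) (.two (nat_lit 183853121539) (nat_lit 13221496368) (.two (nat_lit 16777217) (nat_lit 47547683293) (.one (nat_lit 8396048) .nil)))),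
   .two (nat_lit 654311451) (nat_lit 1310720025) (.two (nat_lit 1291845640) (nat_lit 37247516853) (.two (nat_lit 165526110212) (nat_lit 352322717) (.two (nat_lit 9934209027) (nat_lit 754976997) (.two (nat_lit 9766436865) (nat_lit 11559505718) (.two (nat_lit 2097152) (nat_lit 16783207) (.one (nat_lit 102767198) .nil)))))),
   .two (nat_lit 285212697) (nat_lit 13224640553) (.two (nat_lit 285212680) (nat_lit 159253529331) (.two (nat_lit 1916796931) (nat_lit 9915336870) (.two (nat_lit 16777217) (nat_lit 46409977143) (.two (nat_lit 4194304) (nat_lit 16782594) (.one (nat_lit 4201377) .nil))))),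
   .two (nat_lit 20705181722) (nat_lit 1376780329) (.two (nat_lit 158075977736) (nat_lit 1914700527) (.two (nat_lit 21777874947) (nat_lit 156539816146) (.two (nat_lit 612368385) (nat_lit 1914704447) (.one (nat_lit 2104593) .nil)))),
   .two (nat_lit 12054429721) (nat_lit 21812478007) (.two (nat_lit 13195280392) (nat_lit 236978520) (.two (nat_lit 169869316) (nat_lit 1283457765) (.two (nat_lit 3531603971) (nat_lit 337643053) (.two (nat_lit 2097153) (nat_lit 8392577) (.two (nat_lit 1048576) (nat_lit 645929563) .nil))))),
   .two (nat_lit 1358954523) (nat_lit 339738677) (.two (nat_lit 4601151496) (nat_lit 183953785163) (.two (nat_lit 3464495108) (nat_lit 2889877057) (.two (nat_lit 41943041) (nat_lit 157038939482) (.two (nat_lit 8388608) (nat_lit 4199683) (.one (nat_lit 4201746) .nil))))),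
   .two (nat_lit 156372041772) (nat_lit 9768534068) (.two (nat_lit 13191086088) (nat_lit 9873393192) (.two (nat_lit 4194305) (nat_lit 10376711391) (.two (nat_lit 4194304) (nat_lit 8393299) (.one (nat_lit 4201747) .nil)))),
   .two (nat_lit 285212696) (nat_lit 20738736155) (.two (nat_lit 9781116936) (nat_lit 20738736408) (.two (nat_lit 2954887172) (nat_lit 9781117746) (.two (nat_lit 2097153) (nat_lit 4647292229) (.two (nat_lit 2097152) (nat_lit 16782596) (.one (nat_lit 2104039) .nil))))),
   .two (nat_lit 272629784) (nat_lit 166130090011) (.two (nat_lit 3525312520) (nat_lit 775946978) (.two (nat_lit 2887778306) (nat_lit 4196603) (.two (nat_lit 2097153) (nat_lit 4197730) (.two (nat_lit 2097152) (nat_lit 4198996) (.one (nat_lit 606083673) .nil))))),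
   .two (nat_lit 754974762) (nat_lit 336592990) (.two (nat_lit 117440520) (nat_lit 185021235692) (.two (nat_lit 101711876) (nat_lit 1344275156) (.two (nat_lit 822083587) (nat_lit 46407879975) (.two (nat_lit 1048576) (nat_lit 2102533) (.one (nat_lit 2104596) .nil))))),
   .two (nat_lit 184993972248) (nat_lit 12147753003) (.two (nat_lit 12147752973) (nat_lit 1753219140) (.two (nat_lit 12147752966) (nat_lit 1753219889) (.two (nat_lit 34603009) (nat_lit 343937679) .nil))),
   .two (nat_lit 184986632219) (nat_lit 2887778352) (.two (nat_lit 16777224) (nat_lit 1914700086) (.two (nat_lit 47563407364) (nat_lit 337643039) (.two (nat_lit 50331649) (nat_lit 68161336) (.two (nat_lit 16777216) (nat_lit 10436481569) (.one (nat_lit 1056021) .nil))))),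
   .two (nat_lit 21777874971) (nat_lit 117440550) (.two (nat_lit 11559501832) (nat_lit 11610882378) (.two (nat_lit 11559501828) (nat_lit 1175454414) (.two (nat_lit 21777874947) (nat_lit 83887638) (.two (nat_lit 50331649) (nat_lit 705695499) (.two (nat_lit 1048576) (nat_lit 654316097) (.one (nat_lit 34609401) .nil)))))),
   .two (nat_lit 236978201) (nat_lit 13191086136) (.two (nat_lit 3458203656) (nat_lit 13191086901) (.two (nat_lit 639631364) (nat_lit 9869199571) (.two (nat_lit 4194305) (nat_lit 2101973) (.two (nat_lit 2097152) (nat_lit 4200296) (.one (nat_lit 2420119811) .nil))))),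
   .two (nat_lit 183949590553) (nat_lit 166130090011) (.two (nat_lit 203423752) (nat_lit 165528207830) (.two (nat_lit 183848927236) (nat_lit 21778924318) (.two (nat_lit 159224168451) (nat_lit 4599057647) (.two (nat_lit 2097152) (nat_lit 1413485792) (.one (nat_lit 4201750) .nil))))),
   .two (nat_lit 19596836891) (nat_lit 10519314498) (.two (nat_lit 1358954504) (nat_lit 873463990) (.two (nat_lit 83886084) (nat_lit 10335814806) (.two (nat_lit 721420290) (nat_lit 68160159) (.two (nat_lit 9765388289) (nat_lit 16782038) (.two (nat_lit 1048576) (nat_lit 16783209) (.one (nat_lit 68163918) .nil)))))),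
   .two (nat_lit 1291845657) (nat_lit 10538189088) (.two (nat_lit 2954887172) (nat_lit 10385098262) (.two (nat_lit 606076929) (nat_lit 11022635730) (.two (nat_lit 2097152) (nat_lit 16783210) (.one (nat_lit 16784663) .nil)))),
   .two (nat_lit 16777240) (nat_lit 880804125) (.two (nat_lit 20644364292) (nat_lit 28772926154) (.two (nat_lit 41943043) (nat_lit 50333204) (.two (nat_lit 41943041) (nat_lit 12163484923) (.two (nat_lit 8388608) (nat_lit 16783211) (.one (nat_lit 8395040) .nil))))),
   .two (nat_lit 754974746) (nat_lit 156367847475) (.two (nat_lit 272629768) (nat_lit 1962934451) (.two (nat_lit 13191086084) (nat_lit 109052631) (.two (nat_lit 4194306) (nat_lit 10376710374) (.two (nat_lit 4194305) (nat_lit 8392578) (.two (nat_lit 16777216) (nat_lit 19537072641) (.one (nat_lit 16784295) .nil)))))),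
   .two (nat_lit 50331687) (nat_lit 10343153739) (.two (nat_lit 16777224) (nat_lit 156372043286) (.two (nat_lit 8388609) (nat_lit 822088268) (.one (nat_lit 83892511) .nil))),
   .two (nat_lit 2969567259) (nat_lit 713031739) (.two (nat_lit 16777224) (nat_lit 165532401942) (.two (nat_lit 16777220) (nat_lit 645923576) (.two (nat_lit 612368387) (nat_lit 4647291043) (.two (nat_lit 2097153) (nat_lit 9948892435) (.two (nat_lit 2097152) (nat_lit 8394605) (.one (nat_lit 1283463776) .nil)))))),
   .two (nat_lit 11559501851) (nat_lit 10436476966) (.two (nat_lit 754974728) (nat_lit 68157790) (.two (nat_lit 165525061636) (nat_lit 1350566638) (.two (nat_lit 8388611) (nat_lit 183861511725) (.two (nat_lit 8388609) (nat_lit 9982448198) (.one (nat_lit 8395497) .nil))))),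
   .two (nat_lit 8388632) (nat_lit 3021996071) (.two (nat_lit 8388616) (nat_lit 156567077166) (.two (nat_lit 4601151492) (nat_lit 1746928057) (.two (nat_lit 1916796931) (nat_lit 19604179112) (.two (nat_lit 2097153) (nat_lit 184423549454) (.two (nat_lit 2097152) (nat_lit 156573374281) (.one (nat_lit 11611936361) .nil)))))),
   .two (nat_lit 1947205709) (nat_lit 159257722946) (.two (nat_lit 184993972232) (nat_lit 1947205912) (.two (nat_lit 158075977732) (nat_lit 156976024054) (.two (nat_lit 1048576) (nat_lit 156539818481) (.one (nat_lit 8396057) .nil)))),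
   .two (nat_lit 156569174053) (nat_lit 1344274478) (.two (nat_lit 46978301960) (nat_lit 71303938) (.two (nat_lit 3525312515) (nat_lit 19130222815) (.two (nat_lit 4194305) (nat_lit 2101123) (.two (nat_lit 2097152) (nat_lit 4199686) (.one (nat_lit 28087163395) .nil))))),
   .two (nat_lit 3028287526) (nat_lit 1410334765) (.two (nat_lit 1350565896) (nat_lit 605029074) (.two (nat_lit 713031682) (nat_lit 19127076389) (.two (nat_lit 16777217) (nat_lit 9806287360) (.one (nat_lit 746592990) .nil)))),
   .two (nat_lit 754974747) (nat_lit 746586158) (.two (nat_lit 11559501832) (nat_lit 12155093174) (.two (nat_lit 83886084) (nat_lit 156372042167) (.two (nat_lit 721420290) (nat_lit 8390908) (.two (nat_lit 8388609) (nat_lit 183861512699) (.two (nat_lit 8388608) (nat_lit 185002367371) .nil))))),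
   .two (nat_lit 11577327641) (nat_lit 12620660762) (.two (nat_lit 184986632200) (nat_lit 10003415378) (.two (nat_lit 12114198532) (nat_lit 10942940314) (.two (nat_lit 158075977731) (nat_lit 46980401391) (.two (nat_lit 34603009) (nat_lit 3527413616) (.two (nat_lit 1048576) (nat_lit 4199687) (.one (nat_lit 272636597) .nil)))))),
   .two (nat_lit 272629786) (nat_lit 183853121563) (.two (nat_lit 4194312) (nat_lit 20711473871) (.two (nat_lit 605028355) (nat_lit 158150428863) (.two (nat_lit 8388609) (nat_lit 184989781235) (.two (nat_lit 4194304) (nat_lit 9940505743) (.one (nat_lit 4201755) .nil))))),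
   .two (nat_lit 285212696) (nat_lit 2923429914) (.two (nat_lit 46409973768) (nat_lit 158158816031) (.two (nat_lit 4601151491) (nat_lit 183962176802) (.two (nat_lit 1048576) (nat_lit 1379930660) (.one (nat_lit 16784668) .nil)))),
   .two (nat_lit 272629784) (nat_lit 1426063454) (.two (nat_lit 117440522) (nat_lit 13224640580) (.two (nat_lit 1191182340) (nat_lit 19130221362) (.two (nat_lit 50331649) (nat_lit 4198276) (.two (nat_lit 16777216) (nat_lit 4200303) (.one (nat_lit 4201757) .nil))))),
   .two (nat_lit 21777874971) (nat_lit 28806479910) (.two (nat_lit 158075977736) (nat_lit 16777711) (.two (nat_lit 158075977732) (nat_lit 16778403) (.two (nat_lit 20637024258) (nat_lit 16779978) (.two (nat_lit 156372041729) (nat_lit 166129044710) (.two (nat_lit 8388608) (nat_lit 1913658095) .nil))))),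
   .two (nat_lit 343932955) (nat_lit 9766436920) (.two (nat_lit 612368392) (nat_lit 1343226159) (.two (nat_lit 612368388) (nat_lit 46473937643) (.two (nat_lit 34603011) (nat_lit 9940502082) (.two (nat_lit 2097153) (nat_lit 1052003) (.two (nat_lit 2097152) (nat_lit 1053960) (.one (nat_lit 2104606) .nil)))))),
   .two (nat_lit 11559501850) (nat_lit 4631560241) (.two (nat_lit 721420296) (nat_lit 2994733124) (.two (nat_lit 721420292) (nat_lit 9806285042) (.two (nat_lit 605028353) (nat_lit 9772730868) (.two (nat_lit 1048576) (nat_lit 8393993) (.one (nat_lit 8395504) .nil))))),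
   .two (nat_lit 184416206875) (nat_lit 11584667686) (.two (nat_lit 10343153672) (nat_lit 19027460375) (.two (nat_lit 46407876612) (nat_lit 1417676990) (.two (nat_lit 612368385) (nat_lit 166229709499) (.two (nat_lit 2097152) (nat_lit 1376784929) (.one (nat_lit 1056031) .nil))))),
   .two (nat_lit 165532401691) (nat_lit 4028629019) (.two (nat_lit 3525312520) (nat_lit 13228835991) (.two (nat_lit 46978301955) (nat_lit 20745029846) (.two (nat_lit 2097153) (nat_lit 209719045) (.two (nat_lit 2097152) (nat_lit 37253814478) .nil)))),
   .two (nat_lit 11559501848) (nat_lit 9899606043) (.two (nat_lit 184986632200) (nat_lit 1358954564) (.two (nat_lit 184986632196) (nat_lit 1358955313) (.two (nat_lit 34603009) (nat_lit 2969571885) (.one (nat_lit 16784674) .nil)))),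
   .two (nat_lit 184993972261) (nat_lit 20719861818) (.two (nat_lit 11492392968) (nat_lit 183920230708) (.two (nat_lit 713031684) (nat_lit 9781117632) (.two (nat_lit 50331651) (nat_lit 19033754118) (.two (nat_lit 8388608) (nat_lit 159232562418) (.one (nat_lit 8396068) .nil))))),
   .two (nat_lit 16777240) (nat_lit 47555018777) (.two (nat_lit 16777224) (nat_lit 28697428723) (.two (nat_lit 176160771) (nat_lit 4043311624) (.two (nat_lit 8388608) (nat_lit 855644555) .nil))),
   .two (nat_lit 28086108187) (nat_lit 46992982108) (.two (nat_lit 12617515018) (nat_lit 46523220305) (.two (nat_lit 12047089668) (nat_lit 46523222180) (.two (nat_lit 34603009) (nat_lit 16779761) (.two (nat_lit 1048576) (nat_lit 16782603) (.one (nat_lit 1056037) .nil))))),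
   .two (nat_lit 1779433499) (nat_lit 2097212) (.two (nat_lit 158177689609) (nat_lit 1947205811) (.two (nat_lit 28087156740) (nat_lit 1209010311) (.two (nat_lit 50331649) (nat_lit 1745882359) (.two (nat_lit 16777216) (nat_lit 1053269) (.one (nat_lit 1056038) .nil))))),
   .two (nat_lit 11618222118) (nat_lit 28793897020) (.two (nat_lit 2961178632) (nat_lit 775947030) (.two (nat_lit 176160771) (nat_lit 166132189391) (.two (nat_lit 8388609) (nat_lit 157038940737) (.one (nat_lit 269490398) .nil)))),
   .two (nat_lit 46414168090) (nat_lit 28086108204) (.two (nat_lit 10343153672) (nat_lit 4631560545) (.two (nat_lit 183845781508) (nat_lit 813697261) (.two (nat_lit 2097153) (nat_lit 11476669498) (.one (nat_lit 1182800178) .nil)))),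
   .two (nat_lit 880803877) (nat_lit 37262196797) (.two (nat_lit 184549384) (nat_lit 184993972922) (.two (nat_lit 8388610) (nat_lit 159253530824) (.two (nat_lit 8388609) (nat_lit 4198277) (.two (nat_lit 4194304) (nat_lit 8394610) (.one (nat_lit 16784679) .nil))))),
   .two (nat_lit 3527409688) (nat_lit 2350907419) (.two (nat_lit 3527409672) (nat_lit 13188989266) (.two (nat_lit 20638072836) (nat_lit 71304739) (.two (nat_lit 606076929) (nat_lit 4198278) (.two (nat_lit 2097152) (nat_lit 4199692) (.one (nat_lit 4201204) .nil))))),
   .two (nat_lit 166211878948) (nat_lit 19026411568) (.two (nat_lit 46407876616) (nat_lit 2969567520) (.two (nat_lit 46407876612) (nat_lit 2969567937) (.two (nat_lit 4599054339) (nat_lit 184550934) (.two (nat_lit 2097153) (nat_lit 16779761) (.two (nat_lit 8388608) (nat_lit 1053214) (.one (nat_lit 68164901) .nil)))))),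
   .two (nat_lit 20705181723) (nat_lit 185020186665) (.two (nat_lit 739246088) (nat_lit 874512722) (.two (nat_lit 739246084) (nat_lit 21208498616) (.two (nat_lit 11476664322) (nat_lit 13222544920) (.two (nat_lit 9765388289) (nat_lit 3558871599) (.one (nat_lit 2104617) .nil))))),
   .two (nat_lit 218103844) (nat_lit 156367847480) (.two (nat_lit 318767113) (nat_lit 339738805) (.two (nat_lit 822083588) (nat_lit 21781022931) (.two (nat_lit 50331649) (nat_lit 4198280) (.two (nat_lit 4194304) (nat_lit 16783221) (.one (nat_lit 156468517123) .nil))))),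
   .two (nat_lit 28758245403) (nat_lit 47555018789) (.two (nat_lit 47555018760) (nat_lit 156567077045) (.two (nat_lit 3464495108) (nat_lit 35652301) (.two (nat_lit 10504634371) (nat_lit 746588385) (.two (nat_lit 156365750273) (nat_lit 10007611889) (.two (nat_lit 2097152) (nat_lit 813700143) (.one (nat_lit 2104296) .nil)))))),
   .two (nat_lit 2969567258) (nat_lit 1847590953) (.two (nat_lit 28758245384) (nat_lit 2969568049) (.two (nat_lit 606076929) (nat_lit 1191185891) (.one (nat_lit 16782971) .nil))),
   .two (nat_lit 285212697) (nat_lit 10370416667) (.two (nat_lit 203423752) (nat_lit 9781116996) (.two (nat_lit 654311428) (nat_lit 2317353698) (.two (nat_lit 1291845635) (nat_lit 1277167140) (.two (nat_lit 2097153) (nat_lit 16781193) (.two (nat_lit 2097152) (nat_lit 16783222) (.one (nat_lit 16784117) .nil)))))),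
   .two (nat_lit 11559501848) (nat_lit 4598005806) (.two (nat_lit 11492392968) (nat_lit 157038936503) (.two (nat_lit 9933160451) (nat_lit 620760547) (.one (nat_lit 272636209) .nil))),
   .two (nat_lit 13191086107) (nat_lit 16777601) (.two (nat_lit 10519314436) (nat_lit 641729220) (.two (nat_lit 9781116931) (nat_lit 205523129) (.two (nat_lit 37748737) (nat_lit 184552798) (.two (nat_lit 8388608) (nat_lit 742396392) (.one (nat_lit 16784682) .nil))))),
   .two (nat_lit 272629786) (nat_lit 158075977776) (.two (nat_lit 272629768) (nat_lit 772800826) (.two (nat_lit 654311428) (nat_lit 28758246944) (.two (nat_lit 16777217) (nat_lit 2101130) (.two (nat_lit 2097152) (nat_lit 16782606) (.one (nat_lit 2104619) .nil))))),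
   .two (nat_lit 847249435) (nat_lit 1358954532) (.two (nat_lit 183853121544) (nat_lit 156984410433) (.two (nat_lit 83886084) (nat_lit 209715913) (.two (nat_lit 156372041731) (nat_lit 16779979) (.two (nat_lit 41943041) (nat_lit 46422560021) (.two (nat_lit 8388608) (nat_lit 16782607) (.one (nat_lit 1384127134) .nil)))))),
   .two (nat_lit 18933088300) (nat_lit 12150898741) (.two (nat_lit 156372041736) (nat_lit 10909386266) (.two (nat_lit 8388609) (nat_lit 156367850806) (.two (nat_lit 8388608) (nat_lit 19029561900) (.one (nat_lit 1849694572) .nil)))),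
   .two (nat_lit 166132187161) (nat_lit 1309671480) (.two (nat_lit 117440520) (nat_lit 166199296297) (.two (nat_lit 822083588) (nat_lit 166132187829) (.two (nat_lit 16777218) (nat_lit 157038938352) (.two (nat_lit 156364701697) (nat_lit 10955525419) (.two (nat_lit 1048576) (nat_lit 16783223) (.one (nat_lit 1055478) .nil)))))),
   .two (nat_lit 11492392985) (nat_lit 9802088628) (.two (nat_lit 272629764) (nat_lit 83886776) (.two (nat_lit 2889875459) (nat_lit 3573549208) (.two (nat_lit 4194305) (nat_lit 1392512785) (.two (nat_lit 8388608) (nat_lit 4199696) (.one (nat_lit 4201772) .nil))))),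
   .two (nat_lit 28790751271) (nat_lit 158077026362) (.two (nat_lit 166229704714) (nat_lit 166230753460) (.two (nat_lit 28757196804) (nat_lit 840958684) (.two (nat_lit 28757196803) (nat_lit 1948256509) (.two (nat_lit 606076929) (nat_lit 235932904) (.two (nat_lit 1048576) (nat_lit 2103160) (.one (nat_lit 19128129782) .nil)))))),
   .two (nat_lit 8388635) (nat_lit 1795162157) (.two (nat_lit 158083317768) (nat_lit 28690088255) (.two (nat_lit 12114198532) (nat_lit 158083318199) (.two (nat_lit 285212675) (nat_lit 1853883932) (.two (nat_lit 16777217) (nat_lit 8392587) (.two (nat_lit 16777216) (nat_lit 8394617) (.one (nat_lit 16784429) .nil)))))),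
   .two (nat_lit 11513364505) (nat_lit 2894069826) (.two (nat_lit 20638072840) (nat_lit 1849688504) (.two (nat_lit 809500675) (nat_lit 184431937069) (.two (nat_lit 606076929) (nat_lit 12129930525) (.two (nat_lit 2097152) (nat_lit 4200314) (.one (nat_lit 4201773) .nil))))),
   .two (nat_lit 4634705964) (nat_lit 11559501877) (.two (nat_lit 2889875464) (nat_lit 35651886) (.two (nat_lit 2889875460) (nat_lit 251658983) (.two (nat_lit 2887778306) (nat_lit 185023334597) (.two (nat_lit 4194305) (nat_lit 184553265) (.two (nat_lit 4194304) (nat_lit 2103163) (.one (nat_lit 2104622) .nil)))))),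
   .two (nat_lit 158646403098) (nat_lit 754974761) (.two (nat_lit 11559501832) (nat_lit 37313577399) (.two (nat_lit 158143086595) (nat_lit 10519316989) (.two (nat_lit 1048576) (nat_lit 2365593172) .nil))),
   .two (nat_lit 4605345818) (nat_lit 184431935554) (.two (nat_lit 41943048) (nat_lit 50332352) (.two (nat_lit 620756995) (nat_lit 158150429176) (.two (nat_lit 4194304) (nat_lit 46992986676) (.one (nat_lit 8396079) .nil)))),
   .two (nat_lit 10007609385) (nat_lit 13187940422) (.two (nat_lit 75497480) (nat_lit 102760790) (.two (nat_lit 21785214980) (nat_lit 235930327) (.two (nat_lit 713031682) (nat_lit 1051340) (.two (nat_lit 605028353) (nat_lit 3565162342) (.two (nat_lit 1048576) (nat_lit 8394620) (.one (nat_lit 8396080) .nil)))))),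
   .two (nat_lit 4605345816) (nat_lit 12117344281) (.two (nat_lit 205520904) (nat_lit 3565158582) (.two (nat_lit 205520900) (nat_lit 4034921187) (.two (nat_lit 9933160451) (nat_lit 310380068) (.two (nat_lit 37748737) (nat_lit 9873394965) (.two (nat_lit 1048576) (nat_lit 4200317) (.one (nat_lit 1056049) .nil)))))),
   .two (nat_lit 754974745) (nat_lit 12155093058) (.two (nat_lit 28690087944) (nat_lit 20652753185) (.two (nat_lit 276824068) (nat_lit 185002362426) (.two (nat_lit 156364701697) (nat_lit 165540792820) (.two (nat_lit 1048576) (nat_lit 8395181) .nil)))),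
   .two (nat_lit 754974745) (nat_lit 343932970) (.two (nat_lit 41943048) (nat_lit 185002362426) (.two (nat_lit 8388609) (nat_lit 620760916) (.two (nat_lit 16777216) (nat_lit 3565163004) (.one (nat_lit 8395181) .nil)))),
   .two (nat_lit 16777240) (nat_lit 19130220582) (.two (nat_lit 16777224) (nat_lit 183949590804) (.two (nat_lit 16777220) (nat_lit 13224641212) (.two (nat_lit 16777218) (nat_lit 843056660) (.two (nat_lit 4194305) (nat_lit 285216649) (.two (nat_lit 4194304) (nat_lit 16783230) (.one (nat_lit 13203675468) .nil)))))),
   .two (nat_lit 19130220582) (nat_lit 1283457084) (.two (nat_lit 809500680) (nat_lit 165532402364) (.two (nat_lit 4194306) (nat_lit 21785217521) (.two (nat_lit 4194304) (nat_lit 3464499777) (.one (nat_lit 4201778) .nil)))),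
   .two (nat_lit 3036676122) (nat_lit 28093448233) (.two (nat_lit 1753219080) (nat_lit 1392509317) (.two (nat_lit 18933088260) (nat_lit 28806482090) (.two (nat_lit 41943041) (nat_lit 822088250) (.one (nat_lit 16784127) .nil)))),
   .two (nat_lit 12114198555) (nat_lit 306184236) (.two (nat_lit 9802088458) (nat_lit 1048968) (.two (nat_lit 157038936068) (nat_lit 159250384410) (.two (nat_lit 4194305) (nat_lit 10537144850) (.one (nat_lit 705698159) .nil)))),
   .two (nat_lit 272629784) (nat_lit 2927624218) (.two (nat_lit 4601151496) (nat_lit 12155093177) (.two (nat_lit 809500676) (nat_lit 21214790390) (.two (nat_lit 11479810050) (nat_lit 174759873212) (.two (nat_lit 156372041729) (nat_lit 742396500) (.one (nat_lit 4201779) .nil))))),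
   .two (nat_lit 16777256) (nat_lit 183947493424) (.two (nat_lit 1277165576) (nat_lit 822084402) (.two (nat_lit 16777217) (nat_lit 2317356260) (.two (nat_lit 2097152) (nat_lit 16783231) (.one (nat_lit 20652759320) .nil)))),
   .two (nat_lit 272629784) (nat_lit 11517558811) (.two (nat_lit 4605345800) (nat_lit 13224640580) (.two (nat_lit 183848927236) (nat_lit 159257723619) (.two (nat_lit 3527409667) (nat_lit 46481279638) (.two (nat_lit 156367847425) (nat_lit 8392588) (.two (nat_lit 4194304) (nat_lit 8394624) (.one (nat_lit 4201780) .nil)))))),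
   .two (nat_lit 272629784) (nat_lit 10385096747) (.two (nat_lit 117440520) (nat_lit 28089255476) (.two (nat_lit 16777217) (nat_lit 2990541320) (.two (nat_lit 4194304) (nat_lit 28757203288) .nil))),
   .two (nat_lit 11618222123) (nat_lit 2953838640) (.two (nat_lit 158075977736) (nat_lit 41943508) (.two (nat_lit 11618222086) (nat_lit 183946445518) (.two (nat_lit 713031683) (nat_lit 101715250) (.two (nat_lit 1048576) (nat_lit 46984598770) (.one (nat_lit 8396085) .nil))))),
   .two (nat_lit 16777240) (nat_lit 679477342) (.two (nat_lit 4605345800) (nat_lit 37750311) (.two (nat_lit 8388609) (nat_lit 4199541) (.one (nat_lit 16784694) .nil))),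
   .two (nat_lit 10007609385) (nat_lit 12147753013) (.two (nat_lit 159224168456) (nat_lit 47582282005) (.two (nat_lit 46407876612) (nat_lit 12624855778) (.two (nat_lit 20638072834) (nat_lit 3457156656) (.two (nat_lit 34603009) (nat_lit 2101133) (.two (nat_lit 1048576) (nat_lit 8394625) (.one (nat_lit 1056055) .nil)))))),
   .two (nat_lit 8388632) (nat_lit 1212153894) (.two (nat_lit 8388616) (nat_lit 11513364756) (.two (nat_lit 8388612) (nat_lit 13224641212) (.two (nat_lit 8388610) (nat_lit 13224642068) (.two (nat_lit 8388609) (nat_lit 158649552104) (.two (nat_lit 4194304) (nat_lit 713037053) (.one (nat_lit 11546925546) .nil)))))),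
   .two (nat_lit 8388632) (nat_lit 11492393004) (.two (nat_lit 822083592) (nat_lit 10007610161) (.two (nat_lit 16777217) (nat_lit 1216353897) .nil)),
   .two (nat_lit 12114198555) (nat_lit 9881780262) (.two (nat_lit 117440520) (nat_lit 157035790644) (.two (nat_lit 1191182340) (nat_lit 21777875717) (.two (nat_lit 9948889091) (nat_lit 1051341) (.two (nat_lit 34603009) (nat_lit 46992985981) (.two (nat_lit 1048576) (nat_lit 16782610) (.one (nat_lit 34609569) .nil)))))),
   .two (nat_lit 2969567259) (nat_lit 11479810074) (.two (nat_lit 218103816) (nat_lit 183949590968) (.two (nat_lit 2969567235) (nat_lit 165528208921) (.two (nat_lit 16777217) (nat_lit 675285501) (.two (nat_lit 16777216) (nat_lit 4199699) (.one (nat_lit 4201785) .nil))))),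
   .two (nat_lit 158144135194) (nat_lit 11546918958) (.two (nat_lit 46980399112) (nat_lit 158144135236) (.two (nat_lit 46980399108) (nat_lit 2921333450) (.two (nat_lit 166130089986) (nat_lit 46409977097) (.two (nat_lit 2097152) (nat_lit 4200324) (.one (nat_lit 158079130497) .nil))))),
   .two (nat_lit 11543773211) (nat_lit 142606374) (.two (nat_lit 184993972232) (nat_lit 4598006152) (.two (nat_lit 19604176900) (nat_lit 19529729175) (.two (nat_lit 10947133443) (nat_lit 183946448106) (.two (nat_lit 16777216) (nat_lit 20637029557) (.one (nat_lit 1055489) .nil))))),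
   .two (nat_lit 2969567258) (nat_lit 19027460141) (.two (nat_lit 19027460110) (nat_lit 2969567300) (.two (nat_lit 156533522437) (nat_lit 9948889906) (.two (nat_lit 606076929) (nat_lit 12062824038) .nil))),
   .two (nat_lit 2969567258) (nat_lit 174753579045) (.two (nat_lit 2969567240) (nat_lit 639631703) (.two (nat_lit 2969567236) (nat_lit 304087801) (.two (nat_lit 102760451) (nat_lit 2432698882) (.two (nat_lit 8388608) (nat_lit 16784083) .nil)))),
   .two (nat_lit 13195280411) (nat_lit 1358954532) (.two (nat_lit 1753219080) (nat_lit 4613734878) (.two (nat_lit 83886084) (nat_lit 209715913) (.two (nat_lit 721420290) (nat_lit 8391375) (.two (nat_lit 16777217) (nat_lit 8392590) (.two (nat_lit 8388608) (nat_lit 16782607) (.one (nat_lit 8395523) .nil)))))),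
   .two (nat_lit 2923429913) (nat_lit 158158815280) (.two (nat_lit 9781116936) (nat_lit 2923430166) (.two (nat_lit 2889875460) (nat_lit 184550077) (.two (nat_lit 272629763) (nat_lit 20652754463) (.two (nat_lit 156365750273) (nat_lit 158179790139) (.two (nat_lit 2097152) (nat_lit 809505850) (.one (nat_lit 4201787) .nil)))))),
   .two (nat_lit 9781116966) (nat_lit 1276117034) (.two (nat_lit 612368392) (nat_lit 19142803779) (.two (nat_lit 285212676) (nat_lit 166136382228) (.two (nat_lit 16777218) (nat_lit 303041773) (.two (nat_lit 8388608) (nat_lit 16783237) (.one (nat_lit 16784700) .nil))))),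
   .two (nat_lit 3028287515) (nat_lit 9768534072) (.two (nat_lit 41943048) (nat_lit 157038936244) (.two (nat_lit 41943044) (nat_lit 272630903) (.two (nat_lit 8388610) (nat_lit 47550826654) (.two (nat_lit 41943041) (nat_lit 11614031671) (.two (nat_lit 4194304) (nat_lit 10510931073) (.one (nat_lit 13228841389) .nil)))))),
   .two (nat_lit 4605345817) (nat_lit 159250382905) (.two (nat_lit 2961178632) (nat_lit 46474985651) (.two (nat_lit 243269638) (nat_lit 1377829662) (.two (nat_lit 746586115) (nat_lit 11510220331) (.two (nat_lit 41943041) (nat_lit 12147756821) (.two (nat_lit 1048576) (nat_lit 2103175) (.one (nat_lit 2104637) .nil)))))),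
   .two (nat_lit 20753416218) (nat_lit 8388714) (.two (nat_lit 83886088) (nat_lit 1182794505) (.two (nat_lit 2894069763) (nat_lit 46422558241) (.two (nat_lit 612368385) (nat_lit 2969570579) (.two (nat_lit 1048576) (nat_lit 2102549) (.one (nat_lit 2104069) .nil))))),
   .two (nat_lit 11492392985) (nat_lit 46510637098) (.two (nat_lit 11492392968) (nat_lit 4634706624) (.two (nat_lit 822083587) (nat_lit 4197072) (.two (nat_lit 9768534017) (nat_lit 21223182821) (.one (nat_lit 4201790) .nil)))),
   .two (nat_lit 3458203675) (nat_lit 12129927216) (.two (nat_lit 2902458376) (nat_lit 9969861335) (.two (nat_lit 2097155) (nat_lit 46422558257) (.two (nat_lit 2097153) (nat_lit 10506734923) (.two (nat_lit 1048576) (nat_lit 11546923521) (.one (nat_lit 1055494) .nil))))),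
   .two (nat_lit 12147752999) (nat_lit 156567076930) (.two (nat_lit 158144135176) (nat_lit 28790751512) (.two (nat_lit 158144135172) (nat_lit 1276118138) (.two (nat_lit 28757196803) (nat_lit 159251433695) (.two (nat_lit 9765388289) (nat_lit 2101135) (.two (nat_lit 1048576) (nat_lit 2102550) (.one (nat_lit 2104639) .nil)))))),
   .two (nat_lit 2969567256) (nat_lit 236978202) (.two (nat_lit 218103816) (nat_lit 158077026634) (.two (nat_lit 46407876612) (nat_lit 1224737514) (.two (nat_lit 4599054339) (nat_lit 21793605163) (.two (nat_lit 2097153) (nat_lit 620760368) (.two (nat_lit 1048576) (nat_lit 4599058978) (.one (nat_lit 1056064) .nil)))))),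
   .two (nat_lit 4638900260) (nat_lit 11477712942) (.two (nat_lit 4194312) (nat_lit 184987681068) (.two (nat_lit 46414168068) (nat_lit 2353005263) (.two (nat_lit 46414168067) (nat_lit 10369370351) (.two (nat_lit 4194305) (nat_lit 880807146) (.two (nat_lit 4194304) (nat_lit 1054600) (.one (nat_lit 4201793) .nil)))))),
   .two (nat_lit 3527409688) (nat_lit 10906239042) (.two (nat_lit 12047089672) (nat_lit 157038936132) (.two (nat_lit 11543773188) (nat_lit 11479811185) (.two (nat_lit 184986632195) (nat_lit 641730749) (.two (nat_lit 156364701697) (nat_lit 2923433306) (.two (nat_lit 4194304) (nat_lit 1054601) (.one (nat_lit 2956991693) .nil)))))),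
   .two (nat_lit 2954887194) (nat_lit 20644364313) (.two (nat_lit 169869320) (nat_lit 46514831545) (.two (nat_lit 165532401668) (nat_lit 11543773623) (.two (nat_lit 270532611) (nat_lit 8391378) (.two (nat_lit 605028353) (nat_lit 3021999424) (.two (nat_lit 1048576) (nat_lit 2103179) (.one (nat_lit 8396099) .nil)))))),
   .two (nat_lit 16777241) (nat_lit 28790751273) (.two (nat_lit 176160776) (nat_lit 2365587638) (.two (nat_lit 176160772) (nat_lit 1929380598) (.two (nat_lit 176160770) (nat_lit 19026414254) (.two (nat_lit 50331649) (nat_lit 1175457040) (.two (nat_lit 1048576) (nat_lit 9881785512) (.one (nat_lit 1384126777) .nil)))))),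
   .two (nat_lit 4605345819) (nat_lit 28086108198) (.two (nat_lit 9781116936) (nat_lit 9966715190) (.two (nat_lit 11543773188) (nat_lit 10955523189) (.two (nat_lit 166144770051) (nat_lit 10906241255) (.two (nat_lit 16777217) (nat_lit 638587971) (.one (nat_lit 156481100043) .nil))))),
   .two (nat_lit 135266347) (nat_lit 166130090050) (.two (nat_lit 1277165576) (nat_lit 174752530751) (.two (nat_lit 9867100164) (nat_lit 10335814770) (.two (nat_lit 1344274435) (nat_lit 46406830327) (.two (nat_lit 9766436865) (nat_lit 806360173) (.one (nat_lit 4201796) .nil))))),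
   .two (nat_lit 11492393001) (nat_lit 21214789685) (.two (nat_lit 822083594) (nat_lit 2894070479) (.two (nat_lit 16777218) (nat_lit 1182796281) (.two (nat_lit 8388608) (nat_lit 16783245) (.one (nat_lit 8396101) .nil)))),
   .two (nat_lit 306184218) (nat_lit 4647288870) (.two (nat_lit 822083592) (nat_lit 4601151556) (.two (nat_lit 1929379844) (nat_lit 202376734) (.two (nat_lit 37748737) (nat_lit 37313579520) (.two (nat_lit 8388608) (nat_lit 839916185) .nil)))),
   .two (nat_lit 10007609389) (nat_lit 159217877036) (.two (nat_lit 20638072840) (nat_lit 11551114378) (.two (nat_lit 159224168451) (nat_lit 183947494936) (.two (nat_lit 606076929) (nat_lit 174692766866) (.one (nat_lit 2103661) .nil)))),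
   .two (nat_lit 8388632) (nat_lit 1749024804) (.two (nat_lit 8388616) (nat_lit 184419352852) (.two (nat_lit 8388612) (nat_lit 183949591228) (.two (nat_lit 8388610) (nat_lit 183949592084) (.two (nat_lit 50331649) (nat_lit 28760345849) (.two (nat_lit 16777216) (nat_lit 4199703) (.one (nat_lit 8396102) .nil)))))),
   .two (nat_lit 117440539) (nat_lit 9899606057) (.two (nat_lit 4194312) (nat_lit 9881780663) (.two (nat_lit 605028355) (nat_lit 2936014362) (.two (nat_lit 4194305) (nat_lit 1224740069) (.two (nat_lit 1048576) (nat_lit 2956988906) (.one (nat_lit 4201225) .nil))))),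
   .two (nat_lit 2969567257) (nat_lit 19604176944) (.two (nat_lit 16777224) (nat_lit 713032004) (.two (nat_lit 713031684) (nat_lit 2969567671) (.two (nat_lit 713031682) (nat_lit 37262198319) (.two (nat_lit 41943041) (nat_lit 10385100560) (.two (nat_lit 8388608) (nat_lit 46980405592) .nil))))),
   .two (nat_lit 306184237) (nat_lit 4638900294) (.two (nat_lit 21777874952) (nat_lit 2994733375) (.two (nat_lit 21214789636) (nat_lit 10335815217) (.two (nat_lit 2097153) (nat_lit 28793901760) (.two (nat_lit 2097152) (nat_lit 28793903673) .nil)))),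
   .two (nat_lit 352321563) (nat_lit 176160862) (.two (nat_lit 20644364296) (nat_lit 10955522760) (.two (nat_lit 159224168451) (nat_lit 16778034) (.two (nat_lit 2097153) (nat_lit 9772733585) (.one (nat_lit 16784711) .nil)))),
   .two (nat_lit 285212696) (nat_lit 37314625587) (.two (nat_lit 9781116936) (nat_lit 2418016565) (.two (nat_lit 169869316) (nat_lit 20719862474) (.two (nat_lit 9781116931) (nat_lit 47582283955) (.two (nat_lit 34603009) (nat_lit 2988445540) (.two (nat_lit 16777216) (nat_lit 12047095575) (.one (nat_lit 37246475449) .nil))))))]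

theorem k3 : chkL tab c3 (nat_lit 6300) = true := by decide +kernel

theorem l3 : c3.length = 2100 := by decide +kernel

end K5

end Pool.Agent.Work.MP_bf01b2_co.MR
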