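import Pool.Agent.Work.MP_bf01b2_co.MR.K5T

/-!
# Five roots in `Q_5`: certificates of the entries 8400 to 10261
-/

set_option autoImplicit false
set_option maxRecDepth 100000

namespace Pool.Agent.Work.MP_bf01b2_co.MR

namespace K5

open JT

/-- certificates of the entries 8400 to 10261 -/
def c4 : List Rc :=
  [.two (nat_lit 46978301978) (nat_lit 8388799) (.two (nat_lit 10336862216) (nat_lit 746586297) (.two (nat_lit 46978301956) (nat_lit 174692762344) (.two (nat_lit 1283457027) (nat_lit 20738739422) (.two (nat_lit 4194304) (nat_lit 19128130308) .nil)))),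
   .two (nat_lit 3464495130) (nat_lit 721420341) (.two (nat_lit 813694984) (nat_lit 9781117628) (.two (nat_lit 721420291) (nat_lit 10947135026) (.two (nat_lit 16777217) (nat_lit 1746931015) (.two (nat_lit 8388608) (nat_lit 2103182) (.one (nat_lit 2104648) .nil))))),
   .two (nat_lit 343932965) (nat_lit 639631422) (.two (nat_lit 47555018760) (nat_lit 159251432122) (.two (nat_lit 165526110211) (nat_lit 19604179128) (.two (nat_lit 8388609) (nat_lit 12618566888) (.two (nat_lit 2097152) (nat_lit 8394008) (.one (nat_lit 1182800536) .nil))))),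
   .two (nat_lit 185002360858) (nat_lit 10343153701) (.two (nat_lit 183848927240) (nat_lit 822083928) (.two (nat_lit 185002360836) (nat_lit 183920231161) (.two (nat_lit 1283457027) (nat_lit 69209383) (.two (nat_lit 2097152) (nat_lit 11513369765) (.one (nat_lit 4201801) .nil))))),
   .two (nat_lit 184993972250) (nat_lit 3458203712) (.two (nat_lit 37748744) (nat_lit 3531604150) (.two (nat_lit 9766436868) (nat_lit 158079124202) (.two (nat_lit 165528207363) (nat_lit 37253809692) (.two (nat_lit 41943041) (nat_lit 9967766016) (.two (nat_lit 16777216) (nat_lit 156539818453) (.one (nat_lit 8396106) .nil)))))),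
   .two (nat_lit 739246106) (nat_lit 1753219113) (.two (nat_lit 2887778312) (nat_lit 12054429984) (.two (nat_lit 2887778308) (nat_lit 183853122242) (.two (nat_lit 270532611) (nat_lit 10913581219) (.two (nat_lit 2097153) (nat_lit 13195282929) (.two (nat_lit 1048576) (nat_lit 1377833415) (.one (nat_lit 2104651) .nil)))))),
   .two (nat_lit 12147753003) (nat_lit 9806282806) (.two (nat_lit 272629768) (nat_lit 4028629359) (.two (nat_lit 1849688068) (nat_lit 1049741) (.two (nat_lit 158083317763) (nat_lit 2099924) (.two (nat_lit 156367847425) (nat_lit 8392593) (.two (nat_lit 1048576) (nat_lit 8394640) (.one (nat_lit 8396108) .nil)))))),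
   .two (nat_lit 306184217) (nat_lit 1191182379) (.two (nat_lit 13191086088) (nat_lit 21793604310) (.two (nat_lit 4194306) (nat_lit 46523222172) (.two (nat_lit 37748737) (nat_lit 46489668862) (.two (nat_lit 4194304) (nat_lit 28705821756) (.one (nat_lit 4201805) .nil))))),
   .two (nat_lit 1384120347) (nat_lit 739246162) (.two (nat_lit 205520904) (nat_lit 2894069946) (.two (nat_lit 4194308) (nat_lit 158083318453) (.two (nat_lit 13195280387) (nat_lit 20640172187) (.two (nat_lit 37748737) (nat_lit 705696980) (.one (nat_lit 1056079) .nil))))),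
   .two (nat_lit 2994733082) (nat_lit 855638075) (.two (nat_lit 184993972232) (nat_lit 37246468455) (.two (nat_lit 19529728004) (nat_lit 2357200024) (.two (nat_lit 721420291) (nat_lit 166136383643) (.two (nat_lit 16777217) (nat_lit 8392594) (.two (nat_lit 16777216) (nat_lit 8394643) (.one (nat_lit 16784721) .nil)))))),
   .two (nat_lit 11543773208) (nat_lit 780140588) (.two (nat_lit 276824072) (nat_lit 13224640692) (.two (nat_lit 3527409668) (nat_lit 1317012199) (.two (nat_lit 2956984323) (nat_lit 8391381) (.two (nat_lit 34603009) (nat_lit 71308428) (.one (nat_lit 4201810) .nil))))),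
   .two (nat_lit 272629786) (nat_lit 156372041767) (.two (nat_lit 46414168072) (nat_lit 46477083347) (.two (nat_lit 11479810051) (nat_lit 8391382) (.two (nat_lit 156367847425) (nat_lit 8392595) (.two (nat_lit 8388608) (nat_lit 4200340) (.one (nat_lit 166203497184) .nil))))),
   .two (nat_lit 822083627) (nat_lit 11614027833) (.two (nat_lit 11479810056) (nat_lit 3003122390) (.two (nat_lit 9781116931) (nat_lit 47550826018) (.two (nat_lit 50331649) (nat_lit 1212159195) (.one (nat_lit 16784723) .nil)))),
   .two (nat_lit 2969567258) (nat_lit 706740284) (.two (nat_lit 2969567240) (nat_lit 706740545) (.two (nat_lit 203423748) (nat_lit 184550069) (.two (nat_lit 2954887171) (nat_lit 1224738993) (.two (nat_lit 2097153) (nat_lit 11525950741) (.two (nat_lit 16777216) (nat_lit 2103190) (.one (nat_lit 2104077) .nil)))))),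
   .two (nat_lit 19027460134) (nat_lit 13187940406) (.two (nat_lit 1847590920) (nat_lit 156465365695) (.two (nat_lit 28757196803) (nat_lit 21778926072) (.two (nat_lit 1048576) (nat_lit 165526114860) (.one (nat_lit 839916934) .nil)))),
   .two (nat_lit 1417674796) (nat_lit 876609601) (.two (nat_lit 13191086088) (nat_lit 10443817716) (.two (nat_lit 176160770) (nat_lit 2990540326) (.two (nat_lit 8388609) (nat_lit 1178602978) (.one (nat_lit 46409980363) .nil)))),
   .two (nat_lit 272629784) (nat_lit 9806282820) (.two (nat_lit 272629764) (nat_lit 166237045465) (.two (nat_lit 46409973763) (nat_lit 243271817) (.two (nat_lit 9781116929) (nat_lit 47584383476) (.one (nat_lit 37755251) .nil)))),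
   .two (nat_lit 11543773208) (nat_lit 10510925878) (.two (nat_lit 4194312) (nat_lit 11618222350) (.two (nat_lit 46414168068) (nat_lit 10909385414) (.two (nat_lit 11476664322) (nat_lit 10909386275) (.two (nat_lit 34603009) (nat_lit 775950073) (.two (nat_lit 1048576) (nat_lit 4199709) (.one (nat_lit 1055502) .nil)))))),
   .two (nat_lit 272629784) (nat_lit 739246128) (.two (nat_lit 809500680) (nat_lit 21207449976) (.two (nat_lit 4194308) (nat_lit 11618222781) (.two (nat_lit 156372041731) (nat_lit 184989780125) (.two (nat_lit 37748737) (nat_lit 269487435) (.two (nat_lit 1048576) (nat_lit 4199710) (.one (nat_lit 4201525) .nil)))))),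
   .two (nat_lit 713031707) (nat_lit 166129041459) (.two (nat_lit 8388616) (nat_lit 2365587949) (.two (nat_lit 8388612) (nat_lit 46992983186) (.two (nat_lit 8388610) (nat_lit 156465367222) (.two (nat_lit 41943041) (nat_lit 19545460598) (.two (nat_lit 8388608) (nat_lit 1053983) (.one (nat_lit 8396117) .nil)))))),
   .two (nat_lit 3573547046) (nat_lit 4028629031) (.two (nat_lit 10385096712) (nat_lit 10001318241) (.two (nat_lit 169869316) (nat_lit 9781117745) (.two (nat_lit 606076929) (nat_lit 2953841917) (.two (nat_lit 1048576) (nat_lit 2103191) (.one (nat_lit 28757203309) .nil))))),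
   .two (nat_lit 8388632) (nat_lit 10385097143) (.two (nat_lit 8388612) (nat_lit 47563408942) (.two (nat_lit 8388610) (nat_lit 19612568811) (.two (nat_lit 8388609) (nat_lit 318771658) (.two (nat_lit 8388608) (nat_lit 21793609916) (.one (nat_lit 176167695) .nil))))),
   .two (nat_lit 13195280411) (nat_lit 37748921) (.two (nat_lit 713031688) (nat_lit 117441329) (.two (nat_lit 721420290) (nat_lit 2894073308) (.two (nat_lit 4194304) (nat_lit 612374113) (.one (nat_lit 159253536086) .nil)))),
   .two (nat_lit 11618222105) (nat_lit 721420575) (.two (nat_lit 713031688) (nat_lit 11559502527) (.two (nat_lit 75497476) (nat_lit 46422558239) (.two (nat_lit 620756995) (nat_lit 46481279480) (.two (nat_lit 50331649) (nat_lit 174692766204) (.two (nat_lit 8388608) (nat_lit 16783734) (.one (nat_lit 1426071008) .nil)))))),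
   .two (nat_lit 16777240) (nat_lit 9772728761) (.two (nat_lit 16777220) (nat_lit 2894072308) (.two (nat_lit 16777217) (nat_lit 3024097753) (.two (nat_lit 4194304) (nat_lit 3036683023) .nil))),
   .two (nat_lit 285212697) (nat_lit 156535619763) (.two (nat_lit 285212680) (nat_lit 171968043) (.two (nat_lit 16777218) (nat_lit 1413483000) (.two (nat_lit 4194305) (nat_lit 746590665) (.two (nat_lit 8388608) (nat_lit 21781027000) (.one (nat_lit 9772735854) .nil))))),
   .two (nat_lit 2969567258) (nat_lit 11578376482) (.two (nat_lit 184549384) (nat_lit 18933088695) (.two (nat_lit 9766436868) (nat_lit 218106354) (.two (nat_lit 2097153) (nat_lit 12062824023) (.one (nat_lit 159257729814) .nil)))),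
   .two (nat_lit 16777243) (nat_lit 165532401948) (.two (nat_lit 184549384) (nat_lit 156372042545) (.two (nat_lit 8388610) (nat_lit 2969570778) (.two (nat_lit 8388608) (nat_lit 21793608334) (.one (nat_lit 166237051665) .nil)))),
   .two (nat_lit 156535619611) (nat_lit 4647288900) (.two (nat_lit 166132187144) (nat_lit 10955522847) (.two (nat_lit 166132187140) (nat_lit 9781117746) (.two (nat_lit 10506731523) (nat_lit 150997506) (.two (nat_lit 9765388289) (nat_lit 3024097738) (.two (nat_lit 4194304) (nat_lit 705698576) .nil))))),
   .two (nat_lit 2969567256) (nat_lit 11007950916) (.two (nat_lit 2969567240) (nat_lit 13222544130) (.two (nat_lit 3525312516) (nat_lit 10385099248) (.two (nat_lit 2097153) (nat_lit 117446244) (.one (nat_lit 21812484881) .nil)))),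
   .two (nat_lit 159224168487) (nat_lit 21827158084) (.two (nat_lit 10385096712) (nat_lit 28089254612) (.two (nat_lit 612368388) (nat_lit 10385098928) (.two (nat_lit 176160771) (nat_lit 159219976694) (.two (nat_lit 8388609) (nat_lit 9768538621) (.two (nat_lit 4194304) (nat_lit 159232563394) (.one (nat_lit 11614035288) .nil)))))),
   .two (nat_lit 3464495129) (nat_lit 11544821942) (.two (nat_lit 813694984) (nat_lit 3003123243) (.two (nat_lit 16777218) (nat_lit 176164102) (.two (nat_lit 16777217) (nat_lit 11611935201) (.two (nat_lit 8388608) (nat_lit 21812484283) (.one (nat_lit 2365594970) .nil))))),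
   .two (nat_lit 16777240) (nat_lit 2350907693) (.two (nat_lit 4194312) (nat_lit 21223178955) (.two (nat_lit 705691652) (nat_lit 37750311) (.two (nat_lit 16777218) (nat_lit 1846545643) (.two (nat_lit 2097153) (nat_lit 11476668877) (.two (nat_lit 1048576) (nat_lit 304092769) (.one (nat_lit 4631567723) .nil)))))),
   .two (nat_lit 10504634395) (nat_lit 2936013118) (.two (nat_lit 10385096712) (nat_lit 174686470583) (.two (nat_lit 673185797) (nat_lit 183861511728) (.two (nat_lit 10504634371) (nat_lit 46422559235) (.two (nat_lit 620756993) (nat_lit 1411387844) (.two (nat_lit 2097152) (nat_lit 16782954) (.one (nat_lit 2104808) .nil)))))),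
   .two (nat_lit 285212696) (nat_lit 46477082692) (.two (nat_lit 285212680) (nat_lit 876610317) (.two (nat_lit 205520900) (nat_lit 9781118483) (.two (nat_lit 10506731523) (nat_lit 12062821615) (.two (nat_lit 605028353) (nat_lit 166199300642) (.two (nat_lit 1048576) (nat_lit 11492399306) (.one (nat_lit 34610546) .nil)))))),
   .two (nat_lit 10506731559) (nat_lit 4043309238) (.two (nat_lit 10506731528) (nat_lit 16778383) (.two (nat_lit 9768534020) (nat_lit 4613735968) (.two (nat_lit 2889875459) (nat_lit 16780602) (.two (nat_lit 37748737) (nat_lit 19612570111) (.two (nat_lit 16777216) (nat_lit 166132193592) (.one (nat_lit 4043316658) .nil)))))),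
   .two (nat_lit 16777240) (nat_lit 20711473447) (.two (nat_lit 16777224) (nat_lit 9940501205) (.two (nat_lit 11559501828) (nat_lit 303040028) (.two (nat_lit 721420290) (nat_lit 605030900) (.two (nat_lit 8388609) (nat_lit 174768262619) (.two (nat_lit 8388608) (nat_lit 605035282) .nil))))),
   .two (nat_lit 28758245403) (nat_lit 47596961860) (.two (nat_lit 1847590920) (nat_lit 156481094347) (.two (nat_lit 1847590916) (nat_lit 10385097522) (.two (nat_lit 174753579011) (nat_lit 12062820856) (.two (nat_lit 9766436865) (nat_lit 4613737949) (.two (nat_lit 1048576) (nat_lit 1277171977) (.one (nat_lit 2104809) .nil)))))),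
   .two (nat_lit 156581756972) (nat_lit 165528207545) (.two (nat_lit 742391816) (nat_lit 3472884510) (.two (nat_lit 12117344260) (nat_lit 889194021) (.two (nat_lit 184419352579) (nat_lit 2100539) (.two (nat_lit 50331649) (nat_lit 165526114779) (.two (nat_lit 4194304) (nat_lit 35658008) (.one (nat_lit 1178606971) .nil)))))),
   .two (nat_lit 721420328) (nat_lit 159224168516) (.two (nat_lit 721420296) (nat_lit 159224169265) (.two (nat_lit 50331651) (nat_lit 12121541112) (.two (nat_lit 620756993) (nat_lit 46514835938) (.two (nat_lit 16777216) (nat_lit 276830482) (.one (nat_lit 8396266) .nil))))),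
   .two (nat_lit 183853121561) (nat_lit 641728694) (.two (nat_lit 166130089992) (nat_lit 2894070468) (.two (nat_lit 2969567236) (nat_lit 606078513) (.two (nat_lit 41943043) (nat_lit 165526112768) (.two (nat_lit 41943041) (nat_lit 35656172) (.two (nat_lit 2097152) (nat_lit 4200823) (.one (nat_lit 8396267) .nil)))))),
   .two (nat_lit 2969567256) (nat_lit 156365750453) (.two (nat_lit 218103816) (nat_lit 2887779012) (.two (nat_lit 21208498180) (nat_lit 654312241) (.two (nat_lit 158144135171) (nat_lit 9814673922) (.two (nat_lit 606076929) (nat_lit 10385102436) (.one (nat_lit 35659103) .nil))))),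
   .two (nat_lit 183845781549) (nat_lit 654311492) (.two (nat_lit 9781116936) (nat_lit 1849689205) (.two (nat_lit 156367847428) (nat_lit 166229706274) (.two (nat_lit 18926796803) (nat_lit 28793900347) (.two (nat_lit 2097153) (nat_lit 21814579674) (.two (nat_lit 2097152) (nat_lit 1055096) (.one (nat_lit 2104092) .nil)))))),
   .two (nat_lit 11610882073) (nat_lit 343932996) (.two (nat_lit 11551113224) (nat_lit 336593690) (.two (nat_lit 11551113220) (nat_lit 10439624240) (.two (nat_lit 713031682) (nat_lit 2317356315) (.two (nat_lit 2097153) (nat_lit 12121543159) (.two (nat_lit 2097152) (nat_lit 1410341067) (.one (nat_lit 183846837018) .nil)))))),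
   .two (nat_lit 16777240) (nat_lit 20740833617) (.two (nat_lit 16777224) (nat_lit 157036839677) (.two (nat_lit 2889875460) (nat_lit 251659841) (.two (nat_lit 2889875458) (nat_lit 12618566919) (.two (nat_lit 620756993) (nat_lit 20640174631) (.two (nat_lit 2097152) (nat_lit 16783739) (.one (nat_lit 2104812) .nil)))))),
   .two (nat_lit 673185836) (nat_lit 46477082692) (.two (nat_lit 165526110216) (nat_lit 12050236106) (.two (nat_lit 165526110212) (nat_lit 3527410482) (.two (nat_lit 10336862211) (nat_lit 4197694) (.two (nat_lit 605028353) (nat_lit 4199530) (.two (nat_lit 1048576) (nat_lit 2103676) (.one (nat_lit 174753586567) .nil)))))),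
   .two (nat_lit 9768534043) (nat_lit 9948889156) (.two (nat_lit 218103816) (nat_lit 675283682) (.two (nat_lit 620756996) (nat_lit 104860160) (.two (nat_lit 16777217) (nat_lit 13224645167) (.two (nat_lit 4194304) (nat_lit 13237229867) (.one (nat_lit 16784877) .nil))))),
   .two (nat_lit 3464495129) (nat_lit 10955522382) (.two (nat_lit 721420298) (nat_lit 605029090) (.two (nat_lit 10369368068) (nat_lit 9948890644) (.two (nat_lit 176160771) (nat_lit 16780552) (.two (nat_lit 8388609) (nat_lit 9966720094) (.two (nat_lit 1048576) (nat_lit 8395134) (.one (nat_lit 8396270) .nil)))))),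
   .two (nat_lit 158083317786) (nat_lit 4194649) (.two (nat_lit 11551113224) (nat_lit 11546920496) (.two (nat_lit 12121538563) (nat_lit 4196877) (.two (nat_lit 605028353) (nat_lit 156365754829) (.two (nat_lit 1048576) (nat_lit 11511273650) (.one (nat_lit 8396271) .nil))))),
   .two (nat_lit 285212696) (nat_lit 1212154296) (.two (nat_lit 183848927236) (nat_lit 285213489) (.two (nat_lit 13191086083) (nat_lit 285215218) (.two (nat_lit 37748737) (nat_lit 28772928989) (.two (nat_lit 4194304) (nat_lit 16782956) (.one (nat_lit 2889883111) .nil))))),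
   .two (nat_lit 1291845657) (nat_lit 11007951028) (.two (nat_lit 1291845640) (nat_lit 11007951666) (.two (nat_lit 2954887171) (nat_lit 9781119475) (.two (nat_lit 2097153) (nat_lit 12062822884) (.two (nat_lit 2097152) (nat_lit 16782957) (.one (nat_lit 2104730) .nil))))),
   .two (nat_lit 46477082651) (nat_lit 13237223492) (.two (nat_lit 46980399112) (nat_lit 28101837584) (.two (nat_lit 46980399108) (nat_lit 9781117745) (.two (nat_lit 3527409667) (nat_lit 150997506) (.two (nat_lit 4194305) (nat_lit 185002364381) (.two (nat_lit 2097152) (nat_lit 4200850) (.one (nat_lit 4201973) .nil)))))),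
   .two (nat_lit 1291845659) (nat_lit 158647451954) (.two (nat_lit 11593056265) (nat_lit 11476665105) (.two (nat_lit 46407876612) (nat_lit 150996507) (.two (nat_lit 2097155) (nat_lit 184431938043) (.two (nat_lit 9765388289) (nat_lit 46992986611) (.two (nat_lit 16777216) (nat_lit 1055125) (.one (nat_lit 1056247) .nil)))))),
   .two (nat_lit 285212696) (nat_lit 19532874012) (.two (nat_lit 285212680) (nat_lit 19532874530) (.two (nat_lit 4601151492) (nat_lit 1191184880) (.two (nat_lit 4194305) (nat_lit 9781120473) (.two (nat_lit 4194304) (nat_lit 4613740130) (.one (nat_lit 16784888) .nil))))),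
   .two (nat_lit 28758245403) (nat_lit 16777500) (.two (nat_lit 19530776584) (nat_lit 13237224213) (.two (nat_lit 2969567236) (nat_lit 2098713) (.two (nat_lit 184549378) (nat_lit 1344277804) (.two (nat_lit 9766436865) (nat_lit 50335193) (.two (nat_lit 2097152) (nat_lit 11492398692) (.one (nat_lit 2104742) .nil)))))),
   .two (nat_lit 1291845657) (nat_lit 3024093479) (.two (nat_lit 83886088) (nat_lit 156976023091) (.two (nat_lit 620756995) (nat_lit 159219976705) (.two (nat_lit 37748737) (nat_lit 855642582) (.two (nat_lit 8388608) (nat_lit 2956990040) (.one (nat_lit 46514838288) .nil))))),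
   .two (nat_lit 185035915291) (nat_lit 37246468535) (.two (nat_lit 28690087940) (nat_lit 158192372233) (.two (nat_lit 9765388289) (nat_lit 285216218) (.two (nat_lit 1048576) (nat_lit 185002365582) (.one (nat_lit 16784890) .nil)))),
   .two (nat_lit 10007609384) (nat_lit 157036838980) (.two (nat_lit 612368392) (nat_lit 102761163) (.two (nat_lit 612368388) (nat_lit 1411384867) (.two (nat_lit 176160770) (nat_lit 21778926072) (.two (nat_lit 50331649) (nat_lit 2954891810) (.two (nat_lit 8388608) (nat_lit 236984691) (.one (nat_lit 2104827) .nil)))))),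
   .two (nat_lit 16777240) (nat_lit 18933088435) (.two (nat_lit 16777224) (nat_lit 1283457822) (.two (nat_lit 1753219076) (nat_lit 12129928747) (.two (nat_lit 13195280387) (nat_lit 183962176825) (.two (nat_lit 41943041) (nat_lit 16781840) (.two (nat_lit 8388608) (nat_lit 654317928) (.one (nat_lit 2961185554) .nil)))))),
   .two (nat_lit 11559501848) (nat_lit 10503586130) (.two (nat_lit 9948889096) (nat_lit 673186231) (.two (nat_lit 1291845636) (nat_lit 12115248668) (.two (nat_lit 2969567235) (nat_lit 183913942323) (.two (nat_lit 2097153) (nat_lit 28705820124) (.two (nat_lit 1048576) (nat_lit 174701155926) (.one (nat_lit 740301586) .nil)))))),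
   .two (nat_lit 184993972248) (nat_lit 156984410295) (.two (nat_lit 184993972232) (nat_lit 184549816) (.two (nat_lit 184993972228) (nat_lit 620758551) (.two (nat_lit 713031682) (nat_lit 12633247200) (.two (nat_lit 1048576) (nat_lit 11551119626) (.one (nat_lit 8396284) .nil))))),
   .two (nat_lit 16777259) (nat_lit 184993972292) (.two (nat_lit 183853121544) (nat_lit 1929380566) (.two (nat_lit 713031684) (nat_lit 1191184883) (.two (nat_lit 41943041) (nat_lit 11593060886) (.two (nat_lit 8388608) (nat_lit 721426740) (.one (nat_lit 16784895) .nil))))),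
   .two (nat_lit 3464495131) (nat_lit 20738736410) (.two (nat_lit 47555018760) (nat_lit 19027460800) (.two (nat_lit 3525312516) (nat_lit 183920231970) (.two (nat_lit 3458203651) (nat_lit 3028290034) (.two (nat_lit 9766436865) (nat_lit 19134419424) (.two (nat_lit 2097152) (nat_lit 8394350) (.one (nat_lit 8396288) .nil)))))),
   .two (nat_lit 11610882073) (nat_lit 880803908) (.two (nat_lit 37748744) (nat_lit 156472705733) (.two (nat_lit 11476664324) (nat_lit 13228836391) (.two (nat_lit 4194306) (nat_lit 9900657156) (.two (nat_lit 2097153) (nat_lit 608178699) (.two (nat_lit 1048576) (nat_lit 337647201) (.one (nat_lit 9766444538) .nil)))))),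
   .two (nat_lit 158083317786) (nat_lit 873464118) (.two (nat_lit 739246088) (nat_lit 1283458611) (.two (nat_lit 11543773187) (nat_lit 2894072323) (.two (nat_lit 16777217) (nat_lit 12155096544) (.two (nat_lit 8388608) (nat_lit 16783773) (.one (nat_lit 156380437962) .nil))))),
   .two (nat_lit 721420313) (nat_lit 18933088436) (.two (nat_lit 721420296) (nat_lit 18933089074) (.two (nat_lit 8388610) (nat_lit 50334195) (.two (nat_lit 8388609) (nat_lit 3539997206) (.two (nat_lit 8388608) (nat_lit 16783774) (.one (nat_lit 8396203) .nil))))),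
   .two (nat_lit 9881780266) (nat_lit 156472705206) (.two (nat_lit 1291845640) (nat_lit 12624855753) (.two (nat_lit 1291845636) (nat_lit 8390854) (.two (nat_lit 9948889091) (nat_lit 2424310269) (.two (nat_lit 605028353) (nat_lit 11484007904) (.two (nat_lit 1048576) (nat_lit 1761614097) (.one (nat_lit 1056258) .nil)))))),
   .two (nat_lit 19599982633) (nat_lit 10376708278) (.two (nat_lit 83886088) (nat_lit 11484005945) (.two (nat_lit 41943043) (nat_lit 156380433883) (.two (nat_lit 4194304) (nat_lit 8395167) (.one (nat_lit 171973392) .nil)))),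
   .two (nat_lit 2902458394) (nat_lit 4638900569) (.two (nat_lit 612368392) (nat_lit 9881781004) (.two (nat_lit 2961178628) (nat_lit 10351544504) (.two (nat_lit 713031682) (nat_lit 1051972) (.two (nat_lit 16777217) (nat_lit 10336867376) (.two (nat_lit 2097152) (nat_lit 1055060) (.one (nat_lit 1847598459) .nil)))))),
   .two (nat_lit 183853121577) (nat_lit 876609715) (.two (nat_lit 4194312) (nat_lit 10940842424) (.two (nat_lit 68157444) (nat_lit 10940842802) (.two (nat_lit 605028355) (nat_lit 11511269894) (.two (nat_lit 4194305) (nat_lit 3557822939) (.two (nat_lit 4194304) (nat_lit 1055140) (.one (nat_lit 4030733721) .nil)))))),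
   .two (nat_lit 343932953) (nat_lit 1191182516) (.two (nat_lit 8388616) (nat_lit 1191183154) (.two (nat_lit 16777218) (nat_lit 4605348338) (.two (nat_lit 16777217) (nat_lit 158150430174) (.two (nat_lit 16777216) (nat_lit 8395173) (.one (nat_lit 8396293) .nil))))),
   .two (nat_lit 2969567256) (nat_lit 13188989222) (.two (nat_lit 9948889096) (nat_lit 156365751847) (.two (nat_lit 8388610) (nat_lit 10385099248) (.two (nat_lit 8388609) (nat_lit 10001322457) (.two (nat_lit 8388608) (nat_lit 1411389691) (.one (nat_lit 2104838) .nil))))),
   .two (nat_lit 2969567256) (nat_lit 1847591352) (.two (nat_lit 1847590916) (nat_lit 654312242) (.two (nat_lit 157036838915) (nat_lit 12062820856) (.two (nat_lit 9766436865) (nat_lit 9781120473) (.two (nat_lit 2097152) (nat_lit 1191188068) (.one (nat_lit 3022003614) .nil))))),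
   .two (nat_lit 16777240) (nat_lit 46414168244) (.two (nat_lit 16777224) (nat_lit 1283457757) (.two (nat_lit 183853121540) (nat_lit 16778033) (.two (nat_lit 183853121538) (nat_lit 156481096184) (.two (nat_lit 41943041) (nat_lit 16780761) (.two (nat_lit 8388608) (nat_lit 2332038749) (.one (nat_lit 10544487190) .nil)))))),
   .two (nat_lit 183848927258) (nat_lit 1761608121) (.two (nat_lit 3539992580) (nat_lit 4195886) (.two (nat_lit 13191086083) (nat_lit 9915338208) (.two (nat_lit 1048576) (nat_lit 2956991250) .nil))),
   .two (nat_lit 156367847451) (nat_lit 16777588) (.two (nat_lit 19599982600) (nat_lit 183962174231) (.two (nat_lit 285212676) (nat_lit 9936307736) (.two (nat_lit 13191086083) (nat_lit 9814674701) (.two (nat_lit 37748737) (nat_lit 620760537) (.two (nat_lit 4194304) (nat_lit 1358960228) (.one (nat_lit 4201991) .nil)))))),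
   .two (nat_lit 47555018778) (nat_lit 69206201) (.two (nat_lit 47555018760) (nat_lit 10538189562) (.two (nat_lit 19530776580) (nat_lit 12121541112) (.two (nat_lit 8388609) (nat_lit 19128128024) (.two (nat_lit 2097152) (nat_lit 21785221455) (.one (nat_lit 28087164334) .nil))))),
   .two (nat_lit 1191182374) (nat_lit 843055172) (.two (nat_lit 822083592) (nat_lit 3560964834) (.two (nat_lit 809500676) (nat_lit 721422832) (.two (nat_lit 4194305) (nat_lit 46489669085) (.two (nat_lit 4194304) (nat_lit 16783786) (.one (nat_lit 28793903889) .nil))))),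
   .two (nat_lit 285212696) (nat_lit 13191086148) (.two (nat_lit 2902458376) (nat_lit 1210058279) (.two (nat_lit 4194306) (nat_lit 46422560032) (.two (nat_lit 4194305) (nat_lit 46508544455) (.two (nat_lit 2097152) (nat_lit 1191188682) (.one (nat_lit 2104841) .nil))))),
   .two (nat_lit 46477082650) (nat_lit 166229704889) (.two (nat_lit 2887778312) (nat_lit 9802089594) (.two (nat_lit 9766436868) (nat_lit 1379927578) (.two (nat_lit 270532611) (nat_lit 2894073075) (.two (nat_lit 2097153) (nat_lit 184419357150) (.two (nat_lit 2097152) (nat_lit 4200875) (.one (nat_lit 12048145762) .nil)))))),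
   .two (nat_lit 620757031) (nat_lit 4605345971) (.two (nat_lit 8388616) (nat_lit 2969568049) (.two (nat_lit 16777219) (nat_lit 20711475704) (.two (nat_lit 8388609) (nat_lit 9915339234) (.two (nat_lit 8388608) (nat_lit 16783788) (.one (nat_lit 8396298) .nil))))),
   .two (nat_lit 2969567258) (nat_lit 10370416957) (.two (nat_lit 620757000) (nat_lit 156472705760) (.two (nat_lit 813694980) (nat_lit 2969569777) (.two (nat_lit 9766436865) (nat_lit 21818773977) (.two (nat_lit 2097152) (nat_lit 8395102) (.one (nat_lit 2104845) .nil))))),
   .two (nat_lit 754974745) (nat_lit 9933160629) (.two (nat_lit 754974728) (nat_lit 1950351801) (.two (nat_lit 68157444) (nat_lit 721422832) (.two (nat_lit 4194305) (nat_lit 159250387402) (.two (nat_lit 1048576) (nat_lit 19545462358) (.one (nat_lit 1178606962) .nil))))),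
   .two (nat_lit 11559501850) (nat_lit 156465365271) (.two (nat_lit 11559501832) (nat_lit 37246468799) (.two (nat_lit 101711876) (nat_lit 721422834) (.two (nat_lit 50331649) (nat_lit 1947210834) (.two (nat_lit 1048576) (nat_lit 889198190) (.one (nat_lit 1056270) .nil))))),
   .two (nat_lit 158176641049) (nat_lit 10385097143) (.two (nat_lit 9948889092) (nat_lit 9798944290) (.two (nat_lit 1343225859) (nat_lit 183861512696) (.two (nat_lit 16777217) (nat_lit 269488581) (.two (nat_lit 1048576) (nat_lit 16783792) (.one (nat_lit 1056271) .nil))))),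
   .two (nat_lit 9881780249) (nat_lit 303038905) (.two (nat_lit 10369368068) (nat_lit 1224738351) (.two (nat_lit 1191182339) (nat_lit 839912701) (.two (nat_lit 8388609) (nat_lit 1929384406) (.two (nat_lit 8388608) (nat_lit 9814677822) (.one (nat_lit 21811436934) .nil))))),
   .two (nat_lit 16777240) (nat_lit 809500954) (.two (nat_lit 16777224) (nat_lit 184417256155) (.two (nat_lit 641728516) (nat_lit 174701152760) (.two (nat_lit 612368385) (nat_lit 740298204) (.two (nat_lit 8388608) (nat_lit 10921973353) (.one (nat_lit 16784913) .nil))))),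
   .two (nat_lit 1779433499) (nat_lit 20753416540) (.two (nat_lit 159224168456) (nat_lit 772800951) (.two (nat_lit 20644364292) (nat_lit 772802071) (.two (nat_lit 2969567235) (nat_lit 12624858339) (.two (nat_lit 16777217) (nat_lit 20637029449) (.two (nat_lit 16777216) (nat_lit 185027533153) (.one (nat_lit 16784914) .nil)))))),
   .two (nat_lit 11577327642) (nat_lit 4194678) (.two (nat_lit 184549384) (nat_lit 156466415138) (.two (nat_lit 184549378) (nat_lit 1309674819) (.two (nat_lit 16777217) (nat_lit 37247521223) (.two (nat_lit 2097152) (nat_lit 10906245367) (.one (nat_lit 184431943104) .nil))))),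
   .two (nat_lit 218103834) (nat_lit 174753579076) (.two (nat_lit 218103816) (nat_lit 1847591730) (.two (nat_lit 21208498179) (nat_lit 158091708920) (.two (nat_lit 9766436865) (nat_lit 3472888290) (.two (nat_lit 16777216) (nat_lit 2103731) (.one (nat_lit 1377836525) .nil))))),
   .two (nat_lit 184419352618) (nat_lit 4647288900) (.two (nat_lit 183848927240) (nat_lit 9781117745) (.two (nat_lit 13191086083) (nat_lit 158091709916) (.two (nat_lit 1048576) (nat_lit 687871578) (.one (nat_lit 171974082) .nil)))),
   .two (nat_lit 772800537) (nat_lit 1325400373) (.two (nat_lit 3539992584) (nat_lit 673186231) (.two (nat_lit 47563407364) (nat_lit 11544823320) (.two (nat_lit 806354947) (nat_lit 28772928989) (.two (nat_lit 1048576) (nat_lit 2103732) (.one (nat_lit 2104851) .nil))))),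
   .two (nat_lit 19532873755) (nat_lit 156548202821) (.two (nat_lit 4613734408) (nat_lit 21814575821) (.two (nat_lit 3460300804) (nat_lit 28772927034) (.two (nat_lit 605028355) (nat_lit 117443057) (.two (nat_lit 34603009) (nat_lit 13224645153) (.two (nat_lit 4194304) (nat_lit 1055158) (.one (nat_lit 184989785487) .nil)))))),
   .two (nat_lit 3036676122) (nat_lit 47550824766) (.two (nat_lit 184549384) (nat_lit 1916797368) (.two (nat_lit 184549380) (nat_lit 12117345815) (.two (nat_lit 16777219) (nat_lit 165528210912) (.two (nat_lit 8388608) (nat_lit 1279268438) (.one (nat_lit 16784157) .nil))))),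
   .two (nat_lit 19127074852) (nat_lit 10001318069) (.two (nat_lit 739246088) (nat_lit 47588573625) (.two (nat_lit 12114198532) (nat_lit 10544481840) (.two (nat_lit 166129041410) (nat_lit 2317356330) (.two (nat_lit 156372041729) (nat_lit 2102390) (.two (nat_lit 2097152) (nat_lit 10000275837) (.one (nat_lit 1056277) .nil)))))),
   .two (nat_lit 2954887192) (nat_lit 156566028469) (.two (nat_lit 159217877000) (nat_lit 9974055649) (.two (nat_lit 10939793412) (nat_lit 2099347) (.two (nat_lit 713031682) (nat_lit 20705185063) (.two (nat_lit 41943041) (nat_lit 2887783540) (.two (nat_lit 2097152) (nat_lit 8395194) (.one (nat_lit 8396312) .nil)))))),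
   .two (nat_lit 11559501865) (nat_lit 10506731588) (.two (nat_lit 721420296) (nat_lit 158079124211) (.two (nat_lit 11492392964) (nat_lit 19532876272) (.two (nat_lit 4194305) (nat_lit 2902462984) (.two (nat_lit 4194304) (nat_lit 16783803) (.one (nat_lit 1950358964) .nil))))),
   .two (nat_lit 8388632) (nat_lit 3472884068) (.two (nat_lit 10385096712) (nat_lit 679478043) (.two (nat_lit 28690087940) (nat_lit 11626612270) (.two (nat_lit 83886083) (nat_lit 12054433087) (.two (nat_lit 620756993) (nat_lit 20644368917) (.two (nat_lit 1048576) (nat_lit 12062824719) (.one (nat_lit 1056281) .nil)))))),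
   .two (nat_lit 183848927258) (nat_lit 21223178578) (.two (nat_lit 183848927240) (nat_lit 9781117746) (.two (nat_lit 13191086083) (nat_lit 174768262619) (.two (nat_lit 1048576) (nat_lit 11546925244) (.one (nat_lit 4202010) .nil)))),
   .two (nat_lit 2969567258) (nat_lit 174686470422) (.two (nat_lit 2969567240) (nat_lit 1344276006) (.two (nat_lit 639631363) (nat_lit 16780762) (.two (nat_lit 2097152) (nat_lit 156481100570) .nil))),
   .two (nat_lit 2954887192) (nat_lit 184423547064) (.two (nat_lit 101711880) (nat_lit 183846831246) (.two (nat_lit 169869316) (nat_lit 343934483) (.two (nat_lit 9765388291) (nat_lit 12048141537) (.two (nat_lit 2097153) (nat_lit 310383116) (.two (nat_lit 2097152) (nat_lit 605034718) (.one (nat_lit 1056283) .nil)))))),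
   .two (nat_lit 705691673) (nat_lit 184993972663) (.two (nat_lit 4194308) (nat_lit 20745029171) (.two (nat_lit 9933160451) (nat_lit 19597887990) (.two (nat_lit 2097153) (nat_lit 775951462) (.two (nat_lit 8388608) (nat_lit 159219980604) (.one (nat_lit 4027588017) .nil))))),
   .two (nat_lit 673185832) (nat_lit 159266111556) (.two (nat_lit 10336862216) (nat_lit 654312241) (.two (nat_lit 46407876610) (nat_lit 18941480411) (.two (nat_lit 4194304) (nat_lit 159266118415) .nil))),
   .two (nat_lit 2969567256) (nat_lit 46508540089) (.two (nat_lit 1291845640) (nat_lit 13224641302) (.two (nat_lit 654311428) (nat_lit 2954888771) (.two (nat_lit 822083587) (nat_lit 183946447348) (.two (nat_lit 4194305) (nat_lit 840962596) (.two (nat_lit 1048576) (nat_lit 639637693) (.one (nat_lit 2104860) .nil)))))),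
   .two (nat_lit 2954887192) (nat_lit 775946424) (.two (nat_lit 37748744) (nat_lit 1417675191) (.two (nat_lit 606076932) (nat_lit 19537069594) (.two (nat_lit 41943043) (nat_lit 10942941693) (.two (nat_lit 2097153) (nat_lit 9902755291) (.two (nat_lit 2097152) (nat_lit 13228841756) .nil))))),
   .two (nat_lit 3558866969) (nat_lit 166211879252) (.two (nat_lit 46523219977) (nat_lit 159251432126) (.two (nat_lit 3539992580) (nat_lit 3558868503) (.two (nat_lit 2902458370) (nat_lit 37247519239) (.two (nat_lit 156365750273) (nat_lit 168825945) (.two (nat_lit 1048576) (nat_lit 8395196) (.one (nat_lit 185027534186) .nil)))))),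
   .two (nat_lit 3539992602) (nat_lit 136315170) (.two (nat_lit 9781116936) (nat_lit 2418017836) (.two (nat_lit 156364701699) (nat_lit 880807224) (.two (nat_lit 2097153) (nat_lit 705696203) (.two (nat_lit 2097152) (nat_lit 12062824784) (.one (nat_lit 16784925) .nil))))),
   .two (nat_lit 10343153691) (nat_lit 21778923820) (.two (nat_lit 713031688) (nat_lit 184431937087) (.two (nat_lit 2902458371) (nat_lit 10510929371) (.two (nat_lit 2097152) (nat_lit 9940505230) (.one (nat_lit 2104734) .nil)))),
   .two (nat_lit 4601151514) (nat_lit 41943108) (.two (nat_lit 8388616) (nat_lit 184417256142) (.two (nat_lit 41943044) (nat_lit 12148803750) (.two (nat_lit 8388610) (nat_lit 28691139060) (.two (nat_lit 2097153) (nat_lit 158146236912) (.two (nat_lit 2097152) (nat_lit 8395201) (.one (nat_lit 2104863) .nil)))))),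
   .two (nat_lit 9802088475) (nat_lit 28101837134) (.two (nat_lit 4613734408) (nat_lit 205521616) (.two (nat_lit 183848927236) (nat_lit 1862272561) (.two (nat_lit 28086108163) (nat_lit 159253531885) (.two (nat_lit 37748737) (nat_lit 68162078) (.two (nat_lit 1048576) (nat_lit 4200898) (.one (nat_lit 1056288) .nil)))))),
   .two (nat_lit 183912890395) (nat_lit 19042140469) (.two (nat_lit 11559501832) (nat_lit 12617515448) (.two (nat_lit 2969567236) (nat_lit 606078533) (.two (nat_lit 184549378) (nat_lit 12148804089) (.two (nat_lit 2097153) (nat_lit 158158818781) (.two (nat_lit 1048576) (nat_lit 2103747) (.one (nat_lit 2887786003) .nil)))))),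
   .two (nat_lit 4194330) (nat_lit 28093448480) (.two (nat_lit 4194312) (nat_lit 1417675191) (.two (nat_lit 4194308) (nat_lit 166136383005) (.two (nat_lit 2097155) (nat_lit 156539816441) (.two (nat_lit 34603009) (nat_lit 183846834628) (.two (nat_lit 2097152) (nat_lit 184416213429) (.one (nat_lit 2104865) .nil)))))),
   .two (nat_lit 174685421613) (nat_lit 102760630) (.two (nat_lit 654311432) (nat_lit 185020187414) (.two (nat_lit 19532873734) (nat_lit 20704134684) (.two (nat_lit 18928893955) (nat_lit 2317356355) (.two (nat_lit 4194305) (nat_lit 20737692103) (.two (nat_lit 2097152) (nat_lit 158649555388) (.one (nat_lit 156971834730) .nil)))))),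
   .two (nat_lit 101711899) (nat_lit 11484004537) (.two (nat_lit 9866051592) (nat_lit 183953786418) (.two (nat_lit 1343225859) (nat_lit 679480582) (.two (nat_lit 605028353) (nat_lit 12054434325) (.two (nat_lit 8388608) (nat_lit 1410341131) (.one (nat_lit 839916310) .nil))))),
   .two (nat_lit 10007609388) (nat_lit 2416967748) (.two (nat_lit 713031688) (nat_lit 2953839352) (.two (nat_lit 713031684) (nat_lit 2886731324) (.two (nat_lit 612368387) (nat_lit 19596840261) (.two (nat_lit 41943041) (nat_lit 158075982345) (.two (nat_lit 1048576) (nat_lit 37253813845) (.one (nat_lit 168827665) .nil)))))),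
   .two (nat_lit 46474985513) (nat_lit 1916796996) (.two (nat_lit 2954887176) (nat_lit 708838117) (.two (nat_lit 3458203652) (nat_lit 3024095736) (.two (nat_lit 156365750273) (nat_lit 165528211938) (.two (nat_lit 2097152) (nat_lit 4200901) (.one (nat_lit 2420120997) .nil))))),
   .two (nat_lit 4605345817) (nat_lit 1048952) (.two (nat_lit 2889875464) (nat_lit 10335814350) (.two (nat_lit 705691652) (nat_lit 4605347351) (.two (nat_lit 270532611) (nat_lit 159257726245) (.two (nat_lit 4194305) (nat_lit 159216833059) (.two (nat_lit 1048576) (nat_lit 1948260562) (.one (nat_lit 2104867) .nil)))))),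
   .two (nat_lit 9781116955) (nat_lit 11584667954) (.two (nat_lit 612368392) (nat_lit 165540791056) (.two (nat_lit 822083588) (nat_lit 47555019570) (.two (nat_lit 16777218) (nat_lit 47555021297) (.two (nat_lit 50331649) (nat_lit 34607559) (.two (nat_lit 1048576) (nat_lit 352328030) (.one (nat_lit 183845789174) .nil)))))),
   .two (nat_lit 3525312554) (nat_lit 156569174084) (.two (nat_lit 1178599432) (nat_lit 185021235943) (.two (nat_lit 742391812) (nat_lit 11510220331) (.two (nat_lit 4194306) (nat_lit 1377832251) (.two (nat_lit 37748737) (nat_lit 12617520215) (.two (nat_lit 2097152) (nat_lit 174755682491) (.one (nat_lit 12147760640) .nil)))))),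
   .two (nat_lit 159224168489) (nat_lit 352321604) (.two (nat_lit 158083317768) (nat_lit 158662132427) (.two (nat_lit 158083317764) (nat_lit 28705818147) (.two (nat_lit 159224168451) (nat_lit 28705819128) (.two (nat_lit 156364701697) (nat_lit 880808500) (.two (nat_lit 8388608) (nat_lit 16783705) (.one (nat_lit 8396326) .nil)))))),
   .two (nat_lit 16777240) (nat_lit 9873391926) (.two (nat_lit 165532401672) (nat_lit 37262197445) (.two (nat_lit 46984593412) (nat_lit 620757809) (.two (nat_lit 75497475) (nat_lit 183928622559) (.two (nat_lit 1048576) (nat_lit 8395207) (.one (nat_lit 1779441096) .nil))))),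
   .two (nat_lit 176160794) (nat_lit 2969567300) (.two (nat_lit 176160776) (nat_lit 9915335456) (.two (nat_lit 184549380) (nat_lit 28697430530) (.two (nat_lit 620756993) (nat_lit 12054434312) (.two (nat_lit 8388608) (nat_lit 16783818) (.one (nat_lit 16784935) .nil))))),
   .two (nat_lit 11559501848) (nat_lit 1410334905) (.two (nat_lit 11559501832) (nat_lit 1846542775) (.two (nat_lit 620756996) (nat_lit 10343154481) (.two (nat_lit 184549379) (nat_lit 12121541110) (.two (nat_lit 8388609) (nat_lit 13203672541) (.two (nat_lit 8388608) (nat_lit 806361326) (.one (nat_lit 1376787798) .nil)))))),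
   .two (nat_lit 11559501848) (nat_lit 2920284462) (.two (nat_lit 117440520) (nat_lit 156566028729) (.two (nat_lit 4194308) (nat_lit 1358956052) (.two (nat_lit 1343225859) (nat_lit 16780618) (.two (nat_lit 37748737) (nat_lit 1053819) (.two (nat_lit 4194304) (nat_lit 705698197) (.one (nat_lit 1056297) .nil)))))),
   .two (nat_lit 50331689) (nat_lit 47555018820) (.two (nat_lit 721420296) (nat_lit 10343154481) (.two (nat_lit 8388611) (nat_lit 754977266) (.two (nat_lit 8388609) (nat_lit 10351547988) (.one (nat_lit 8396330) .nil)))),
   .two (nat_lit 343932954) (nat_lit 19142803775) (.two (nat_lit 8388616) (nat_lit 1862271698) (.two (nat_lit 13203668996) (nat_lit 3028290035) (.two (nat_lit 16777217) (nat_lit 158150430176) (.two (nat_lit 2097152) (nat_lit 8395226) (.one (nat_lit 2921340428) .nil))))),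
   .two (nat_lit 157038936091) (nat_lit 12062818614) (.two (nat_lit 9781116936) (nat_lit 19532874167) (.two (nat_lit 3539992580) (nat_lit 608175640) (.two (nat_lit 10506731523) (nat_lit 9915338208) (.two (nat_lit 1048576) (nat_lit 4647294561) (.one (nat_lit 16784940) .nil))))),
   .two (nat_lit 18928893979) (nat_lit 109052086) (.two (nat_lit 10519314440) (nat_lit 20707280428) (.two (nat_lit 47555018755) (nat_lit 4197708) (.two (nat_lit 4194305) (nat_lit 13228839473) (.two (nat_lit 4194304) (nat_lit 1786779984) (.one (nat_lit 46514839069) .nil))))),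
   .two (nat_lit 2988441627) (nat_lit 1753219354) (.two (nat_lit 75497480) (nat_lit 11544823320) (.two (nat_lit 612368387) (nat_lit 1176504821) (.two (nat_lit 41943041) (nat_lit 9900659243) (.two (nat_lit 8388608) (nat_lit 2103771) (.one (nat_lit 2104877) .nil))))),
   .two (nat_lit 2889875482) (nat_lit 166237044919) (.two (nat_lit 2889875464) (nat_lit 18933089074) (.two (nat_lit 272629763) (nat_lit 20745031132) (.two (nat_lit 4194304) (nat_lit 21785220714) (.one (nat_lit 4202030) .nil)))),
   .two (nat_lit 20738736153) (nat_lit 11010048068) (.two (nat_lit 28758245384) (nat_lit 12620661531) (.two (nat_lit 156969730052) (nat_lit 46409975945) (.two (nat_lit 620756995) (nat_lit 2921335284) (.two (nat_lit 50331649) (nat_lit 102765090) (.two (nat_lit 16777216) (nat_lit 2103773) (.one (nat_lit 10552876492) .nil)))))),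
   .two (nat_lit 272629784) (nat_lit 1325400374) (.two (nat_lit 11559501832) (nat_lit 20640170693) (.two (nat_lit 83886084) (nat_lit 10909386275) (.two (nat_lit 11492392962) (nat_lit 13224643056) (.two (nat_lit 156372041729) (nat_lit 46489670105) (.two (nat_lit 8388608) (nat_lit 318773621) (.one (nat_lit 159253536127) .nil)))))),
   .two (nat_lit 28690087962) (nat_lit 157038936503) (.two (nat_lit 28690087940) (nat_lit 10372515368) (.two (nat_lit 3527409667) (nat_lit 3457158375) (.two (nat_lit 4194305) (nat_lit 10000273882) (.two (nat_lit 1048576) (nat_lit 4200926) (.one (nat_lit 9936313761) .nil))))),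
   .two (nat_lit 158176641049) (nat_lit 721420727) (.two (nat_lit 9866051588) (nat_lit 19042142712) (.two (nat_lit 620756993) (nat_lit 157035794917) (.two (nat_lit 16777216) (nat_lit 1055203) (.one (nat_lit 1056304) .nil)))),
   .two (nat_lit 46980399129) (nat_lit 21207449895) (.two (nat_lit 159224168456) (nat_lit 9798943447) (.two (nat_lit 4601151492) (nat_lit 3457156656) (.two (nat_lit 156367847427) (nat_lit 46977255926) (.two (nat_lit 34603009) (nat_lit 156976026057) (.two (nat_lit 1048576) (nat_lit 8395237) (.one (nat_lit 1056305) .nil)))))),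
   .two (nat_lit 12054429723) (nat_lit 1210056998) (.two (nat_lit 19599982600) (nat_lit 21778924233) (.two (nat_lit 10506731524) (nat_lit 4599055927) (.two (nat_lit 19532873731) (nat_lit 9974058316) (.two (nat_lit 41943041) (nat_lit 4199555) (.two (nat_lit 2097152) (nat_lit 8395238) (.one (nat_lit 2104883) .nil)))))),
   .two (nat_lit 218103834) (nat_lit 3531604277) (.two (nat_lit 612368392) (nat_lit 654311863) (.two (nat_lit 218103812) (nat_lit 4638902791) (.two (nat_lit 8388609) (nat_lit 9814676017) (.two (nat_lit 4194304) (nat_lit 2969574173) .nil)))),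
   .two (nat_lit 4194329) (nat_lit 21785215246) (.two (nat_lit 4194312) (nat_lit 21785215669) (.two (nat_lit 1343225860) (nat_lit 156365751834) (.two (nat_lit 605028355) (nat_lit 185021238571) (.two (nat_lit 2097153) (nat_lit 1053828) (.two (nat_lit 4194304) (nat_lit 1055207) (.one (nat_lit 1056308) .nil)))))),
   .two (nat_lit 218103833) (nat_lit 2319450473) (.two (nat_lit 654311432) (nat_lit 166232851144) (.two (nat_lit 4194308) (nat_lit 4613736002) (.two (nat_lit 822083587) (nat_lit 183946447348) (.two (nat_lit 50331649) (nat_lit 1779438045) (.two (nat_lit 1048576) (nat_lit 2956990787) (.one (nat_lit 1056309) .nil)))))),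
   .two (nat_lit 12054429741) (nat_lit 2969567300) (.two (nat_lit 184549384) (nat_lit 165532403221) (.two (nat_lit 176160771) (nat_lit 218106354) (.two (nat_lit 8388609) (nat_lit 12062821854) (.two (nat_lit 8388608) (nat_lit 16782959) (.one (nat_lit 16784950) .nil))))),
   .two (nat_lit 2969567258) (nat_lit 11010048295) (.two (nat_lit 620757000) (nat_lit 159219975728) (.two (nat_lit 2969567235) (nat_lit 8392013) (.two (nat_lit 16777217) (nat_lit 20740837872) (.two (nat_lit 4194304) (nat_lit 16783851) (.one (nat_lit 8396343) .nil))))),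
   .two (nat_lit 754974745) (nat_lit 166196150711) (.two (nat_lit 754974724) (nat_lit 166196151089) (.two (nat_lit 721420291) (nat_lit 156364704992) (.two (nat_lit 50331649) (nat_lit 13221499340) (.two (nat_lit 1048576) (nat_lit 16783856) (.one (nat_lit 9933168095) .nil))))),
   .two (nat_lit 184549401) (nat_lit 156539814070) (.two (nat_lit 184549384) (nat_lit 166197199287) (.two (nat_lit 184549380) (nat_lit 13222544926) (.two (nat_lit 1277165570) (nat_lit 822086926) (.two (nat_lit 612368385) (nat_lit 10552873486) (.two (nat_lit 2097152) (nat_lit 75503859) (.one (nat_lit 11551120788) .nil)))))),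
   .two (nat_lit 285212698) (nat_lit 19096666292) (.two (nat_lit 16777224) (nat_lit 156567077594) (.two (nat_lit 2902458372) (nat_lit 3024094748) (.two (nat_lit 2902458370) (nat_lit 10540288500) (.two (nat_lit 16777217) (nat_lit 9967768663) (.two (nat_lit 2097152) (nat_lit 641735445) .nil))))),
   .two (nat_lit 11543773208) (nat_lit 3565158715) (.two (nat_lit 2961178632) (nat_lit 159251432117) (.two (nat_lit 21208498180) (nat_lit 839910955) (.two (nat_lit 19530776579) (nat_lit 46406831421) (.two (nat_lit 605028353) (nat_lit 4034925034) (.two (nat_lit 1048576) (nat_lit 8395252) (.one (nat_lit 8396348) .nil)))))),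
   .two (nat_lit 9881780266) (nat_lit 28697428154) (.two (nat_lit 1291845640) (nat_lit 11618222519) (.two (nat_lit 1291845636) (nat_lit 19033753117) (.two (nat_lit 9948889091) (nat_lit 156539816439) (.two (nat_lit 620756993) (nat_lit 10510929371) (.two (nat_lit 2097152) (nat_lit 13203675332) (.one (nat_lit 156472712580) .nil)))))),
   .two (nat_lit 11543773208) (nat_lit 1950351539) (.two (nat_lit 37748744) (nat_lit 28697428697) (.two (nat_lit 4194308) (nat_lit 12048139824) (.two (nat_lit 4194306) (nat_lit 174752533811) (.two (nat_lit 2097153) (nat_lit 1920995850) (.two (nat_lit 1048576) (nat_lit 706745962) (.one (nat_lit 46977260308) .nil)))))),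
   .two (nat_lit 285212696) (nat_lit 9802088516) (.two (nat_lit 9781116936) (nat_lit 10372514504) (.two (nat_lit 4601151492) (nat_lit 16779473) (.two (nat_lit 4194306) (nat_lit 184552767) (.two (nat_lit 37748737) (nat_lit 9781121582) (.two (nat_lit 8388608) (nat_lit 1191188682) (.one (nat_lit 4202045) .nil)))))),
   .two (nat_lit 11543773208) (nat_lit 10510926006) (.two (nat_lit 4194312) (nat_lit 1417675446) (.two (nat_lit 13195280388) (nat_lit 46977254960) (.two (nat_lit 183853121539) (nat_lit 672140595) (.two (nat_lit 4194305) (nat_lit 46977257928) (.two (nat_lit 1048576) (nat_lit 4200951) (.one (nat_lit 11484011963) .nil)))))),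
   .two (nat_lit 20638072859) (nat_lit 158079123774) (.two (nat_lit 2887778312) (nat_lit 13224641205) (.two (nat_lit 158144135172) (nat_lit 9902753328) (.two (nat_lit 46978301955) (nat_lit 20704135680) (.two (nat_lit 605028353) (nat_lit 10504639030) (.two (nat_lit 1048576) (nat_lit 2103800) (.one (nat_lit 1056318) .nil)))))),
   .two (nat_lit 11559501850) (nat_lit 20704133188) (.two (nat_lit 11559501832) (nat_lit 11476665048) (.two (nat_lit 1343225860) (nat_lit 620758547) (.two (nat_lit 1276116994) (nat_lit 3539995888) (.two (nat_lit 9765388289) (nat_lit 3539997810) (.two (nat_lit 16777216) (nat_lit 202381814) (.one (nat_lit 16784959) .nil)))))),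
   .two (nat_lit 11559501850) (nat_lit 37313577028) (.two (nat_lit 11559501832) (nat_lit 9765388995) (.two (nat_lit 28757196804) (nat_lit 13237225609) (.two (nat_lit 1276116994) (nat_lit 16780625) (.two (nat_lit 605028353) (nat_lit 50336302) (.two (nat_lit 1048576) (nat_lit 16783865) (.one (nat_lit 1056320) .nil)))))),
   .two (nat_lit 11559501849) (nat_lit 3020947642) (.two (nat_lit 1358954504) (nat_lit 20637025055) (.two (nat_lit 11476664324) (nat_lit 10552871049) (.two (nat_lit 11476664322) (nat_lit 754978104) (.two (nat_lit 2097153) (nat_lit 3020952102) (.two (nat_lit 2097152) (nat_lit 1055226) (.one (nat_lit 1056322) .nil)))))),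
   .two (nat_lit 272629784) (nat_lit 10537140405) (.two (nat_lit 1350565896) (nat_lit 12147753662) (.two (nat_lit 8388612) (nat_lit 1309673604) (.two (nat_lit 9768534019) (nat_lit 174759873773) (.two (nat_lit 612368385) (nat_lit 21207454222) (.two (nat_lit 4194304) (nat_lit 10947140050) (.one (nat_lit 46477090275) .nil)))))),
   .two (nat_lit 9881780249) (nat_lit 1276117173) (.two (nat_lit 754974728) (nat_lit 4598006530) (.two (nat_lit 1343225860) (nat_lit 83888624) (.two (nat_lit 34603009) (nat_lit 10519317981) (.two (nat_lit 1048576) (nat_lit 11559508280) (.one (nat_lit 1056323) .nil))))),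
   .two (nat_lit 184419352601) (nat_lit 285212740) (.two (nat_lit 285212680) (nat_lit 1279263475) (.two (nat_lit 184419352580) (nat_lit 12062820859) (.two (nat_lit 4194305) (nat_lit 156380436061) (.one (nat_lit 16784964) .nil)))),
   .two (nat_lit 156465365018) (nat_lit 156573368654) (.two (nat_lit 3539992584) (nat_lit 185027527446) (.two (nat_lit 41943044) (nat_lit 158091707939) (.two (nat_lit 16777218) (nat_lit 156372044273) (.two (nat_lit 50331649) (nat_lit 806359535) (.two (nat_lit 8388608) (nat_lit 9798949265) (.one (nat_lit 11510226459) .nil)))))),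
   .two (nat_lit 285212698) (nat_lit 3024093365) (.two (nat_lit 822083592) (nat_lit 13187941069) (.two (nat_lit 1276116996) (nat_lit 16778771) (.two (nat_lit 9933160451) (nat_lit 183962176825) (.two (nat_lit 4194305) (nat_lit 3557823009) (.two (nat_lit 1048576) (nat_lit 205527259) (.one (nat_lit 4202053) .nil)))))),
   .two (nat_lit 47555018777) (nat_lit 11525947739) (.two (nat_lit 47555018760) (nat_lit 21793604337) (.two (nat_lit 10940841988) (nat_lit 679478065) (.two (nat_lit 166130089986) (nat_lit 1920993782) (.two (nat_lit 9766436865) (nat_lit 11484008905) (.two (nat_lit 2097152) (nat_lit 3028293991) (.one (nat_lit 16784967) .nil)))))),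
   .two (nat_lit 16777240) (nat_lit 2894070060) (.two (nat_lit 1291845640) (nat_lit 11544822525) (.two (nat_lit 184423546884) (nat_lit 16778033) (.two (nat_lit 102760451) (nat_lit 16780761) (.two (nat_lit 2097152) (nat_lit 28806485600) (.one (nat_lit 3565165334) .nil))))),
   .two (nat_lit 2954887192) (nat_lit 157038936132) (.two (nat_lit 2954887176) (nat_lit 775947026) (.two (nat_lit 639631364) (nat_lit 37249616009) (.two (nat_lit 2887778306) (nat_lit 19130223953) (.two (nat_lit 2097153) (nat_lit 1212158510) (.two (nat_lit 2097152) (nat_lit 46980405558) (.one (nat_lit 2104905) .nil)))))),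
   .two (nat_lit 2969567258) (nat_lit 10370417001) (.two (nat_lit 83886088) (nat_lit 1410335474) (.two (nat_lit 2887778308) (nat_lit 21223180808) (.two (nat_lit 620756993) (nat_lit 1948258774) (.two (nat_lit 16777216) (nat_lit 68164078) (.one (nat_lit 168828320) .nil))))),
   .two (nat_lit 9768534043) (nat_lit 11618222455) (.two (nat_lit 754974728) (nat_lit 1178599863) (.two (nat_lit 9781116932) (nat_lit 37316724252) (.two (nat_lit 721420291) (nat_lit 4197718) (.two (nat_lit 50331649) (nat_lit 28793902161) (.two (nat_lit 4194304) (nat_lit 16783875) (.one (nat_lit 16784970) .nil)))))),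
   .two (nat_lit 184986632216) (nat_lit 9982443830) (.two (nat_lit 4194312) (nat_lit 721420981) (.two (nat_lit 2969567236) (nat_lit 4030727717) (.two (nat_lit 705691650) (nat_lit 21781024043) (.two (nat_lit 37748737) (nat_lit 1276121578) (.two (nat_lit 1048576) (nat_lit 4200965) (.one (nat_lit 183848934819) .nil)))))),
   .two (nat_lit 185027526692) (nat_lit 21811429444) (.two (nat_lit 169869320) (nat_lit 880804533) (.two (nat_lit 159224168452) (nat_lit 4027582000) (.two (nat_lit 20644364290) (nat_lit 46406830582) (.two (nat_lit 9765388289) (nat_lit 159217881654) (.two (nat_lit 2097152) (nat_lit 1055241) (.one (nat_lit 2104909) .nil)))))),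
   .two (nat_lit 285212696) (nat_lit 337641855) (.two (nat_lit 9781116936) (nat_lit 183947494088) (.two (nat_lit 606076932) (nat_lit 9982446093) (.two (nat_lit 156367847425) (nat_lit 740299209) (.two (nat_lit 4194304) (nat_lit 2103821) (.one (nat_lit 2104911) .nil))))),
   .two (nat_lit 37246468135) (nat_lit 21827158084) (.two (nat_lit 3460300808) (nat_lit 754975160) (.two (nat_lit 3460300804) (nat_lit 18941478460) (.two (nat_lit 9933160451) (nat_lit 11559504369) (.two (nat_lit 4194305) (nat_lit 1053841) (.two (nat_lit 4194304) (nat_lit 2953845174) (.one (nat_lit 1346379165) .nil)))))),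
   .two (nat_lit 9781116972) (nat_lit 21777875012) (.two (nat_lit 1191182344) (nat_lit 157035791051) (.two (nat_lit 68157444) (nat_lit 285215218) (.two (nat_lit 4194305) (nat_lit 20737692106) (.two (nat_lit 4194304) (nat_lit 46507498257) .nil)))),
   .two (nat_lit 11543773208) (nat_lit 10001318073) (.two (nat_lit 612368392) (nat_lit 158077027090) (.two (nat_lit 705691652) (nat_lit 46984594987) (.two (nat_lit 176160770) (nat_lit 1746930927) (.two (nat_lit 8388609) (nat_lit 28086113345) (.two (nat_lit 1048576) (nat_lit 2994739660) (.one (nat_lit 159250390506) .nil)))))),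
   .two (nat_lit 1191182363) (nat_lit 11479810391) (.two (nat_lit 2902458376) (nat_lit 9936306617) (.two (nat_lit 12050235396) (nat_lit 28101839351) (.two (nat_lit 4194305) (nat_lit 50336399) (.one (nat_lit 16784159) .nil)))),
   .two (nat_lit 3527409672) (nat_lit 10001317947) (.two (nat_lit 158144135173) (nat_lit 46477082692) (.two (nat_lit 2097155) (nat_lit 10506733791) (.two (nat_lit 1048576) (nat_lit 1916800344) (.one (nat_lit 4200344) .nil)))),
   .two (nat_lit 16777240) (nat_lit 20738736184) (.two (nat_lit 285212680) (nat_lit 306184260) (.two (nat_lit 8388612) (nat_lit 156567079415) (.two (nat_lit 8388608) (nat_lit 606081528) (.one (nat_lit 2104964) .nil)))),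
   .two (nat_lit 2889875483) (nat_lit 16777403) (.two (nat_lit 11492392970) (nat_lit 28089254600) (.two (nat_lit 11559501827) (nat_lit 46510637874) (.two (nat_lit 50331649) (nat_lit 9969863174) (.two (nat_lit 16777216) (nat_lit 4199596) (.one (nat_lit 205528680) .nil))))),
   .two (nat_lit 4194330) (nat_lit 117441215) (.two (nat_lit 4194306) (nat_lit 16779488) (.two (nat_lit 605028353) (nat_lit 28693237523) (.two (nat_lit 1048576) (nat_lit 2103053) (.one (nat_lit 2104399) .nil)))),
   .two (nat_lit 3464495129) (nat_lit 721420326) (.two (nat_lit 620757000) (nat_lit 159224168718) (.two (nat_lit 3464495108) (nat_lit 3539993326) (.two (nat_lit 176160771) (nat_lit 9948890644) (.two (nat_lit 8388609) (nat_lit 83889963) (.two (nat_lit 8388608) (nat_lit 16783118) (.one (nat_lit 8395106) .nil)))))),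
   .two (nat_lit 47555018778) (nat_lit 4028629019) (.two (nat_lit 8388616) (nat_lit 2902458643) (.two (nat_lit 9881780228) (nat_lit 185021237414) (.two (nat_lit 2097153) (nat_lit 8394433) (.one (nat_lit 2104401) .nil)))),
   .two (nat_lit 843055131) (nat_lit 3464495180) (.two (nat_lit 20644364296) (nat_lit 2956984609) (.two (nat_lit 20644364292) (nat_lit 205521609) (.two (nat_lit 13195280387) (nat_lit 47584380449) (.two (nat_lit 41943041) (nat_lit 4634709279) (.two (nat_lit 4194304) (nat_lit 16784168) (.one (nat_lit 50339434) .nil)))))),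
   .two (nat_lit 159224168475) (nat_lit 2097244) (.two (nat_lit 20738736138) (nat_lit 813695684) (.two (nat_lit 1847590915) (nat_lit 243273015) (.two (nat_lit 2097152) (nat_lit 780145825) (.one (nat_lit 8396421) .nil)))),
   .two (nat_lit 855638052) (nat_lit 276824152) (.two (nat_lit 50331656) (nat_lit 158083318456) (.two (nat_lit 75497475) (nat_lit 2099887) (.two (nat_lit 2097153) (nat_lit 8392540) (.two (nat_lit 2097152) (nat_lit 8393901) (.one (nat_lit 2104966) .nil))))),
   .two (nat_lit 50331684) (nat_lit 2424307760) (.two (nat_lit 41943048) (nat_lit 83886786) (.two (nat_lit 638582787) (nat_lit 20753418404) (.two (nat_lit 605028353) (nat_lit 166237048045) (.two (nat_lit 1048576) (nat_lit 8394513) (.one (nat_lit 1055829) .nil))))),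
   .two (nat_lit 2969567257) (nat_lit 13188988974) (.two (nat_lit 158144135176) (nat_lit 28705816865) (.two (nat_lit 9867100164) (nat_lit 9948890647) (.two (nat_lit 16777217) (nat_lit 2956988879) (.one (nat_lit 4201334) .nil)))),
   .two (nat_lit 654311460) (nat_lit 12618563630) (.two (nat_lit 9934209032) (nat_lit 1291846338) (.two (nat_lit 2902458370) (nat_lit 2418017841) (.two (nat_lit 37748737) (nat_lit 2100519) (.two (nat_lit 4194304) (nat_lit 2103059) (.one (nat_lit 2104967) .nil))))),
   .two (nat_lit 12117344281) (nat_lit 37246468276) (.two (nat_lit 12114198532) (nat_lit 4195479) (.two (nat_lit 183848927235) (nat_lit 10939797304) (.two (nat_lit 1048576) (nat_lit 4201257) (.one (nat_lit 1056392) .nil)))),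
   .two (nat_lit 8388634) (nat_lit 11593056304) (.two (nat_lit 9948889096) (nat_lit 11477714063) (.two (nat_lit 184549378) (nat_lit 873467709) (.two (nat_lit 1048576) (nat_lit 8394516) (.one (nat_lit 1056393) .nil)))),
   .two (nat_lit 236978212) (nat_lit 11476664368) (.two (nat_lit 3458203656) (nat_lit 156566029032) (.two (nat_lit 50331651) (nat_lit 9966716449) (.two (nat_lit 50331649) (nat_lit 157036842240) (.two (nat_lit 1048576) (nat_lit 788534375) (.one (nat_lit 2365594709) .nil))))),
   .two (nat_lit 46980399129) (nat_lit 1847590985) (.two (nat_lit 822083592) (nat_lit 166132187316) (.two (nat_lit 157036838916) (nat_lit 4196555) (.two (nat_lit 2097153) (nat_lit 4200159) (.one (nat_lit 2104970) .nil)))),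
   .two (nat_lit 2969567257) (nat_lit 37320917040) (.two (nat_lit 16777224) (nat_lit 19604178485) (.two (nat_lit 16777217) (nat_lit 28697431263) (.two (nat_lit 8388608) (nat_lit 21793608216) (.one (nat_lit 1056395) .nil)))),
   .two (nat_lit 13224640557) (nat_lit 1048669) (.two (nat_lit 184416206856) (nat_lit 156468511068) (.two (nat_lit 184416206852) (nat_lit 4195970) (.two (nat_lit 1291845635) (nat_lit 11006904820) (.two (nat_lit 16777216) (nat_lit 28757202037) (.one (nat_lit 1056396) .nil))))),
   .two (nat_lit 50331691) (nat_lit 2961178713) (.two (nat_lit 8388616) (nat_lit 721420575) (.two (nat_lit 176160772) (nat_lit 156548203222) (.two (nat_lit 620756995) (nat_lit 37253809695) (.two (nat_lit 37748737) (nat_lit 83891893) (.one (nat_lit 16785037) .nil))))),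
   .two (nat_lit 12163481642) (nat_lit 12617515049) (.two (nat_lit 117440520) (nat_lit 11578376499) (.two (nat_lit 739246084) (nat_lit 3021999419) (.two (nat_lit 1048576) (nat_lit 1862275570) (.one (nat_lit 2104441) .nil)))),
   .two (nat_lit 721420332) (nat_lit 166196150325) (.two (nat_lit 50331656) (nat_lit 10443817262) (.two (nat_lit 8388612) (nat_lit 83886786) (.two (nat_lit 1343225859) (nat_lit 46414171392) (.two (nat_lit 1048576) (nat_lit 8394536) (.one (nat_lit 1055868) .nil))))),
   .two (nat_lit 9768534043) (nat_lit 2987393076) (.two (nat_lit 11510218761) (nat_lit 20640170167) (.two (nat_lit 742391812) (nat_lit 1309672144) (.two (nat_lit 28757196803) (nat_lit 11578377788) (.two (nat_lit 606076929) (nat_lit 1054334) (.two (nat_lit 1048576) (nat_lit 2103081) (.one (nat_lit 2104446) .nil)))))),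
   .two (nat_lit 184986632218) (nat_lit 117440555) (.two (nat_lit 4194312) (nat_lit 28806480340) (.two (nat_lit 1749024772) (nat_lit 174685422288) (.two (nat_lit 9948889091) (nat_lit 28790753499) (.two (nat_lit 9781116929) (nat_lit 10439626548) (.two (nat_lit 1048576) (nat_lit 4199613) (.one (nat_lit 16784511) .nil)))))),
   .two (nat_lit 2961178649) (nat_lit 11559502103) (.two (nat_lit 11492392964) (nat_lit 2920284880) (.two (nat_lit 176160771) (nat_lit 16779956) (.two (nat_lit 8388609) (nat_lit 4199107) (.two (nat_lit 1048576) (nat_lit 8394538) (.one (nat_lit 1056398) .nil))))),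
   .two (nat_lit 28093448230) (nat_lit 839909433) (.two (nat_lit 4194312) (nat_lit 184993972929) (.two (nat_lit 156372041731) (nat_lit 10906243549) (.one (nat_lit 4202127) .nil))),
   .two (nat_lit 612368411) (nat_lit 754974989) (.two (nat_lit 184549380) (nat_lit 174692762398) (.two (nat_lit 158143086595) (nat_lit 3464497290) (.two (nat_lit 16777217) (nat_lit 8393412) (.two (nat_lit 1048576) (nat_lit 8394541) (.one (nat_lit 16785040) .nil))))),
   .two (nat_lit 184986632219) (nat_lit 3036676148) (.two (nat_lit 754974728) (nat_lit 135266483) (.two (nat_lit 754974724) (nat_lit 1049755) (.two (nat_lit 11559501827) (nat_lit 1052148) (.two (nat_lit 37748737) (nat_lit 10369370612) (.two (nat_lit 4194304) (nat_lit 1055748) .nil))))),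
   .two (nat_lit 4601151512) (nat_lit 11484004709) (.two (nat_lit 41943044) (nat_lit 775948515) (.two (nat_lit 8388609) (nat_lit 4030729536) (.two (nat_lit 4194304) (nat_lit 16782527) (.one (nat_lit 4202129) .nil)))),
   .two (nat_lit 4601151514) (nat_lit 12054429741) (.two (nat_lit 12054429710) (nat_lit 9802088516) (.two (nat_lit 183853121542) (nat_lit 9802089265) (.two (nat_lit 8388609) (nat_lit 2956988898) (.one (nat_lit 4202130) .nil)))),
   .two (nat_lit 654311451) (nat_lit 1913651581) (.two (nat_lit 1343225860) (nat_lit 9915335425) (.two (nat_lit 654311427) (nat_lit 3524266490) (.two (nat_lit 16777216) (nat_lit 158146238722) .nil))),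
   .two (nat_lit 1779433499) (nat_lit 740294707) (.two (nat_lit 1847590920) (nat_lit 28790751512) (.two (nat_lit 1847590916) (nat_lit 1276118138) (.two (nat_lit 11543773187) (nat_lit 2099893) (.two (nat_lit 34603009) (nat_lit 2100572) (.two (nat_lit 1048576) (nat_lit 2103091) (.one (nat_lit 270539078) .nil)))))),
   .two (nat_lit 10504634406) (nat_lit 11580473408) (.two (nat_lit 19599982600) (nat_lit 19027460419) (.two (nat_lit 28093448198) (nat_lit 20638073623) (.two (nat_lit 13195280387) (nat_lit 174688570035) (.two (nat_lit 41943041) (nat_lit 174755679527) (.two (nat_lit 8388608) (nat_lit 2104101) (.one (nat_lit 8396435) .nil)))))),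
   .two (nat_lit 343932953) (nat_lit 1212153883) (.two (nat_lit 8388616) (nat_lit 9768535153) (.two (nat_lit 4601151491) (nat_lit 13195281939) (.two (nat_lit 4194305) (nat_lit 8392517) (.two (nat_lit 4194304) (nat_lit 8394549) (.one (nat_lit 8396436) .nil))))),
   .two (nat_lit 11618222107) (nat_lit 158075977813) (.two (nat_lit 183853121544) (nat_lit 1379926316) (.two (nat_lit 1276116996) (nat_lit 183853121975) (.two (nat_lit 47550824451) (nat_lit 8391924) (.two (nat_lit 1048576) (nat_lit 8393936) (.one (nat_lit 1056405) .nil))))),
   .two (nat_lit 158143086616) (nat_lit 10940842023) (.two (nat_lit 46407876616) (nat_lit 13228835130) (.two (nat_lit 3458203652) (nat_lit 158075979965) (.two (nat_lit 9766436865) (nat_lit 8393413) (.two (nat_lit 2097152) (nat_lit 8395562) (.one (nat_lit 2104480) .nil))))),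
   .two (nat_lit 4194329) (nat_lit 21785215264) (.two (nat_lit 4194308) (nat_lit 159217877763) (.two (nat_lit 605028355) (nat_lit 2921335454) (.two (nat_lit 2097153) (nat_lit 4199111) (.two (nat_lit 1048576) (nat_lit 2103095) (.one (nat_lit 4202134) .nil))))),
   .two (nat_lit 1753219099) (nat_lit 18928893990) (.two (nat_lit 13191086088) (nat_lit 9772728502) (.two (nat_lit 272629764) (nat_lit 1182794446) (.two (nat_lit 285212675) (nat_lit 4196588) (.two (nat_lit 16777217) (nat_lit 41947668) (.one (nat_lit 16785047) .nil))))),
   .two (nat_lit 184549401) (nat_lit 12114198591) (.two (nat_lit 184549384) (nat_lit 183913939235) (.two (nat_lit 184549380) (nat_lit 12115247545) (.two (nat_lit 285212675) (nat_lit 156969731637) (.two (nat_lit 9765388289) (nat_lit 184417258744) (.two (nat_lit 1048576) (nat_lit 2104107) (.one (nat_lit 1056408) .nil)))))),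
   .two (nat_lit 3464495140) (nat_lit 12115247164) (.two (nat_lit 46407876617) (nat_lit 645923129) (.two (nat_lit 41943044) (nat_lit 2098822) (.two (nat_lit 1277165571) (nat_lit 8391353) (.two (nat_lit 606076929) (nat_lit 12155097795) (.two (nat_lit 2097152) (nat_lit 8395564) (.one (nat_lit 2104985) .nil)))))),
   .two (nat_lit 4601151515) (nat_lit 109051964) (.two (nat_lit 156367847432) (nat_lit 11584668134) (.two (nat_lit 13195280388) (nat_lit 2889876207) (.two (nat_lit 183853121539) (nat_lit 2889878201) (.two (nat_lit 41943041) (nat_lit 4199112) (.two (nat_lit 8388608) (nat_lit 4201261) (.one (nat_lit 8396442) .nil)))))),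
   .two (nat_lit 306184218) (nat_lit 1048674) (.two (nat_lit 809500680) (nat_lit 1947206098) (.two (nat_lit 166129041412) (nat_lit 158146233036) (.two (nat_lit 218103811) (nat_lit 1052149) (.two (nat_lit 8388609) (nat_lit 4598010943) (.one (nat_lit 16784565) .nil))))),
   .two (nat_lit 11479810075) (nat_lit 46984593493) (.two (nat_lit 272629768) (nat_lit 109052278) (.two (nat_lit 4194308) (nat_lit 880804536) (.two (nat_lit 9933160451) (nat_lit 8391354) (.two (nat_lit 605028353) (nat_lit 8393419) (.two (nat_lit 1048576) (nat_lit 4201262) (.one (nat_lit 1055931) .nil)))))),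
   .two (nat_lit 285212698) (nat_lit 608174140) (.two (nat_lit 285212680) (nat_lit 9802088714) (.two (nat_lit 9768534020) (nat_lit 21223181588) (.two (nat_lit 4194304) (nat_lit 16782554) (.one (nat_lit 16784572) .nil)))),
   .two (nat_lit 236978201) (nat_lit 11484004450) (.two (nat_lit 3458203656) (nat_lit 47550824763) (.two (nat_lit 713031684) (nat_lit 1780482766) (.two (nat_lit 1916796931) (nat_lit 337643058) (.two (nat_lit 9768534017) (nat_lit 8392494) (.two (nat_lit 2097152) (nat_lit 4201263) (.one (nat_lit 8396443) .nil)))))),
   .two (nat_lit 339738649) (nat_lit 9948889376) (.two (nat_lit 4194308) (nat_lit 9948889793) (.two (nat_lit 69206019) (nat_lit 183946447518) (.two (nat_lit 34603009) (nat_lit 876614343) (.two (nat_lit 2097152) (nat_lit 873469751) (.one (nat_lit 4202140) .nil))))),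
   .two (nat_lit 4601151514) (nat_lit 46414168100) (.two (nat_lit 4601151496) (nat_lit 156472705326) (.two (nat_lit 176160772) (nat_lit 9902752539) (.two (nat_lit 47555018755) (nat_lit 19529729584) (.two (nat_lit 34603009) (nat_lit 4200063) (.two (nat_lit 1048576) (nat_lit 8395568) (.one (nat_lit 8395967) .nil)))))),
   .two (nat_lit 46489665561) (nat_lit 12117344695) (.two (nat_lit 11543773187) (nat_lit 813697540) (.two (nat_lit 1048576) (nat_lit 9869202585) (.one (nat_lit 8396445) .nil))),
   .two (nat_lit 47582281770) (nat_lit 19042140250) (.two (nat_lit 9934209032) (nat_lit 1392509654) (.two (nat_lit 169869314) (nat_lit 16780790) (.two (nat_lit 2097153) (nat_lit 159266116657) (.one (nat_lit 18941483604) .nil)))),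
   .two (nat_lit 16777240) (nat_lit 46414168109) (.two (nat_lit 46414168078) (nat_lit 158158815939) (.two (nat_lit 8388611) (nat_lit 28806483199) (.two (nat_lit 8388608) (nat_lit 1914704407) (.one (nat_lit 2103992) .nil)))),
   .two (nat_lit 11559501861) (nat_lit 21811429754) (.two (nat_lit 50331652) (nat_lit 739246853) (.two (nat_lit 1343225859) (nat_lit 50335065) (.two (nat_lit 1048576) (nat_lit 16784177) (.one (nat_lit 1055966) .nil)))),
   .two (nat_lit 16777241) (nat_lit 47555018794) (.two (nat_lit 176160776) (nat_lit 158158815945) (.two (nat_lit 159224168451) (nat_lit 2100727) (.two (nat_lit 2097153) (nat_lit 156573373525) (.one (nat_lit 8396446) .nil)))),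
   .two (nat_lit 4613734425) (nat_lit 47555018778) (.two (nat_lit 16777224) (nat_lit 746586450) (.two (nat_lit 2961178628) (nat_lit 9948889528) (.two (nat_lit 176160770) (nat_lit 269486317) (.two (nat_lit 612368385) (nat_lit 12163485532) (.two (nat_lit 2097152) (nat_lit 1054546) (.one (nat_lit 8396447) .nil)))))),
   .two (nat_lit 46474985497) (nat_lit 1346371766) (.two (nat_lit 46980399108) (nat_lit 1746929905) (.two (nat_lit 2097153) (nat_lit 183962177371) (.two (nat_lit 4194304) (nat_lit 16783188) (.one (nat_lit 2104547) .nil)))),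
   .two (nat_lit 176160795) (nat_lit 46477083116) (.two (nat_lit 8388612) (nat_lit 306184897) (.two (nat_lit 8388610) (nat_lit 4634707478) (.two (nat_lit 8388609) (nat_lit 10942944984) (.one (nat_lit 8395785) .nil)))),
   .two (nat_lit 13195280411) (nat_lit 10335813677) (.two (nat_lit 183912890381) (nat_lit 9814671694) (.two (nat_lit 1929379844) (nat_lit 1050248) (.two (nat_lit 721420290) (nat_lit 1052152) (.two (nat_lit 41943041) (nat_lit 11476669597) (.one (nat_lit 1055976) .nil))))),
   .two (nat_lit 4601151515) (nat_lit 47555018790) (.two (nat_lit 47555018762) (nat_lit 104858308) (.two (nat_lit 8388611) (nat_lit 20707280411) (.two (nat_lit 8388609) (nat_lit 11580475894) (.two (nat_lit 8388608) (nat_lit 4199659) (.one (nat_lit 183949597706) .nil))))),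
   .two (nat_lit 239075367) (nat_lit 166230753552) (.two (nat_lit 184549380) (nat_lit 9969861353) (.two (nat_lit 184549378) (nat_lit 166232852033) (.two (nat_lit 16777217) (nat_lit 2101108) (.two (nat_lit 16777216) (nat_lit 2104114) (.one (nat_lit 16785056) .nil))))),
   .two (nat_lit 184986632218) (nat_lit 19033751917) (.two (nat_lit 272629764) (nat_lit 4598006531) (.two (nat_lit 809500675) (nat_lit 8391359) (.two (nat_lit 37748737) (nat_lit 3524267885) (.two (nat_lit 4194304) (nat_lit 1055539) (.one (nat_lit 4201706) .nil))))),
   .two (nat_lit 16777240) (nat_lit 880803879) (.two (nat_lit 8388616) (nat_lit 721420986) (.two (nat_lit 4605345795) (nat_lit 10519316623) (.two (nat_lit 41943041) (nat_lit 1426067268) (.two (nat_lit 8388608) (nat_lit 16782577) (.one (nat_lit 16785057) .nil))))),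
   .two (nat_lit 272629784) (nat_lit 19545456744) (.two (nat_lit 117440522) (nat_lit 272629828) (.two (nat_lit 1191182340) (nat_lit 156569174834) (.two (nat_lit 50331649) (nat_lit 2920286708) (.two (nat_lit 1048576) (nat_lit 4200281) (.one (nat_lit 1056418) .nil))))),
   .two (nat_lit 673185830) (nat_lit 11614027830) (.two (nat_lit 9799991306) (nat_lit 742392952) (.two (nat_lit 46407876610) (nat_lit 2889877637) (.two (nat_lit 2097153) (nat_lit 4199119) (.two (nat_lit 2097152) (nat_lit 4199666) (.one (nat_lit 2104561) .nil))))),
   .two (nat_lit 343932953) (nat_lit 740294705) (.two (nat_lit 41943048) (nat_lit 1379926389) (.two (nat_lit 41943044) (nat_lit 1312817879) (.two (nat_lit 4605345795) (nat_lit 174755678380) (.two (nat_lit 4194305) (nat_lit 2101968) (.two (nat_lit 4194304) (nat_lit 2103131) (.one (nat_lit 2104995) .nil)))))),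
   .two (nat_lit 159224168492) (nat_lit 46508540000) (.two (nat_lit 2954887176) (nat_lit 10443818619) (.two (nat_lit 1753219075) (nat_lit 169872689) (.two (nat_lit 8388608) (nat_lit 2102516) (.one (nat_lit 2104566) .nil)))),
   .two (nat_lit 9948889115) (nat_lit 12148801640) (.two (nat_lit 46409973768) (nat_lit 19042140637) (.two (nat_lit 1191182340) (nat_lit 3527410367) (.two (nat_lit 10370416643) (nat_lit 608176358) (.two (nat_lit 2097153) (nat_lit 4199121) (.two (nat_lit 2097152) (nat_lit 4201268) (.one (nat_lit 16785060) .nil)))))),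
   .two (nat_lit 13224640555) (nat_lit 11610882094) (.two (nat_lit 183848927240) (nat_lit 183845781877) (.two (nat_lit 285212676) (nat_lit 12117344959) (.two (nat_lit 2902458371) (nat_lit 171968031) (.two (nat_lit 9765388289) (nat_lit 11559505201) (.two (nat_lit 1048576) (nat_lit 4200289) (.one (nat_lit 1056421) .nil)))))),
   .two (nat_lit 2954887192) (nat_lit 37313577023) (.two (nat_lit 10370416648) (nat_lit 2316304703) (.two (nat_lit 50331652) (nat_lit 11006903837) (.two (nat_lit 16777217) (nat_lit 235932149) (.two (nat_lit 16777216) (nat_lit 1053946) (.one (nat_lit 16784640) .nil))))),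
   .two (nat_lit 11618222106) (nat_lit 28757196881) (.two (nat_lit 75497480) (nat_lit 1049406) (.two (nat_lit 75497476) (nat_lit 46406828788) (.two (nat_lit 41943043) (nat_lit 156968683715) (.two (nat_lit 50331649) (nat_lit 10906241529) (.two (nat_lit 1048576) (nat_lit 8393981) (.one (nat_lit 8396454) .nil)))))),
   .two (nat_lit 13191086107) (nat_lit 9781116969) (.two (nat_lit 1191182344) (nat_lit 2353004725) (.two (nat_lit 1191182340) (nat_lit 1950352118) (.two (nat_lit 809500675) (nat_lit 184431937069) (.two (nat_lit 34603009) (nat_lit 620761619) (.one (nat_lit 4202151) .nil))))),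
   .two (nat_lit 18933088294) (nat_lit 46508539961) (.two (nat_lit 169869320) (nat_lit 4605346497) (.two (nat_lit 638582787) (nat_lit 840960518) (.two (nat_lit 1048576) (nat_lit 2103148) (.one (nat_lit 2105000) .nil)))),
   .two (nat_lit 8388632) (nat_lit 18941477229) (.two (nat_lit 16777220) (nat_lit 11618222773) (.two (nat_lit 10506731523) (nat_lit 8391369) (.two (nat_lit 156367847425) (nat_lit 3003125084) (.two (nat_lit 4194304) (nat_lit 16783214) (.one (nat_lit 4201752) .nil))))),
   .two (nat_lit 1913651227) (nat_lit 156380430390) (.two (nat_lit 50331656) (nat_lit 1216348483) (.two (nat_lit 276824068) (nat_lit 9915336223) (.two (nat_lit 612368385) (nat_lit 10503590990) (.one (nat_lit 1056425) .nil)))),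
   .two (nat_lit 11559501851) (nat_lit 2953838638) (.two (nat_lit 184416206856) (nat_lit 47563407544) (.two (nat_lit 184416206852) (nat_lit 11525948161) (.two (nat_lit 34603011) (nat_lit 754976279) (.two (nat_lit 2097153) (nat_lit 3003125063) (.two (nat_lit 1048576) (nat_lit 2101736) (.one (nat_lit 285219929) .nil)))))),
   .two (nat_lit 2994733082) (nat_lit 773849185) (.two (nat_lit 159224168456) (nat_lit 1049407) (.two (nat_lit 705691652) (nat_lit 47555019192) (.two (nat_lit 34603011) (nat_lit 156573369916) (.two (nat_lit 2097153) (nat_lit 12054433637) (.two (nat_lit 16777216) (nat_lit 8395573) (.one (nat_lit 2105002) .nil)))))),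
   .two (nat_lit 11618222105) (nat_lit 159266111812) (.two (nat_lit 16777220) (nat_lit 1417676311) (.two (nat_lit 156364701697) (nat_lit 37320920357) (.two (nat_lit 1048576) (nat_lit 12054435045) (.one (nat_lit 8396058) .nil)))),
   .two (nat_lit 2969567276) (nat_lit 47581233246) (.two (nat_lit 9781116936) (nat_lit 3524264243) (.two (nat_lit 809500676) (nat_lit 156984412328) (.two (nat_lit 4194305) (nat_lit 3524267880) (.two (nat_lit 4194304) (nat_lit 10452210177) (.one (nat_lit 1056032) .nil))))),
   .two (nat_lit 2902458393) (nat_lit 9967763497) (.two (nat_lit 2902458376) (nat_lit 18926797108) (.two (nat_lit 2902458372) (nat_lit 158077027094) (.two (nat_lit 2902458370) (nat_lit 2099453) (.two (nat_lit 606076929) (nat_lit 185035918587) (.two (nat_lit 2097152) (nat_lit 16783216) (.one (nat_lit 2103874) .nil)))))),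
   .two (nat_lit 2988441627) (nat_lit 19026411562) (.two (nat_lit 156548202506) (nat_lit 69206314) (.two (nat_lit 50331652) (nat_lit 1050250) (.two (nat_lit 721420291) (nat_lit 19596839107) (.two (nat_lit 2097153) (nat_lit 3557822325) (.two (nat_lit 2097152) (nat_lit 1054577) (.one (nat_lit 16784673) .nil)))))),
   .two (nat_lit 243269674) (nat_lit 46474985510) (.two (nat_lit 184423546888) (nat_lit 9966716051) (.two (nat_lit 169869314) (nat_lit 336596265) (.two (nat_lit 1048576) (nat_lit 8395574) (.one (nat_lit 8396459) .nil)))),
   .two (nat_lit 4028629030) (nat_lit 10351542366) (.two (nat_lit 117440520) (nat_lit 9899606338) (.two (nat_lit 3539992580) (nat_lit 21812479123) (.two (nat_lit 11543773187) (nat_lit 35654953) (.two (nat_lit 1048576) (nat_lit 16782602) (.one (nat_lit 2104611) .nil))))),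
   .two (nat_lit 272629784) (nat_lit 46473936945) (.two (nat_lit 184549384) (nat_lit 1849688812) (.two (nat_lit 184549378) (nat_lit 183946446375) (.two (nat_lit 16777217) (nat_lit 1212157258) (.two (nat_lit 16777216) (nat_lit 1053965) (.one (nat_lit 1056040) .nil))))),
   .two (nat_lit 343932965) (nat_lit 10372513852) (.two (nat_lit 343932937) (nat_lit 46980399380) (.two (nat_lit 4601151492) (nat_lit 10007610049) (.two (nat_lit 8388610) (nat_lit 28693235919) (.two (nat_lit 41943041) (nat_lit 4198279) (.two (nat_lit 8388608) (nat_lit 4200307) (.one (nat_lit 8396460) .nil)))))),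
   .two (nat_lit 8388632) (nat_lit 184989777965) (.two (nat_lit 813694984) (nat_lit 10506731788) (.two (nat_lit 158077026308) (nat_lit 19134415588) (.two (nat_lit 46407876610) (nat_lit 46980400703) (.two (nat_lit 2097153) (nat_lit 4199127) (.two (nat_lit 4194304) (nat_lit 8394612) (.one (nat_lit 8396461) .nil)))))),
   .two (nat_lit 203423771) (nat_lit 46992982108) (.two (nat_lit 1191182346) (nat_lit 1914700489) (.two (nat_lit 11492392962) (nat_lit 19530779291) (.two (nat_lit 9781116929) (nat_lit 37314629505) (.two (nat_lit 16777216) (nat_lit 2103170) (.one (nat_lit 2105006) .nil))))),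
   .two (nat_lit 158143086618) (nat_lit 1210056751) (.two (nat_lit 11551113224) (nat_lit 46473937660) (.two (nat_lit 639631363) (nat_lit 605029931) (.two (nat_lit 606076929) (nat_lit 1410338565) (.two (nat_lit 2097152) (nat_lit 1054595) (.one (nat_lit 1056056) .nil))))),
   .two (nat_lit 822083658) (nat_lit 13195280449) (.two (nat_lit 156367847434) (nat_lit 13195281201) (.two (nat_lit 4194305) (nat_lit 159257725453) (.two (nat_lit 8388608) (nat_lit 158158821040) (.one (nat_lit 16785071) .nil)))),
   .two (nat_lit 117440585) (nat_lit 3560964159) (.two (nat_lit 822083592) (nat_lit 46477084833) (.two (nat_lit 4194305) (nat_lit 10921972203) (.one (nat_lit 16784698) .nil))),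
   .two (nat_lit 1343225883) (nat_lit 37253808218) (.two (nat_lit 272629768) (nat_lit 109052278) (.two (nat_lit 4194308) (nat_lit 880804536) (.two (nat_lit 1276116994) (nat_lit 8391374) (.two (nat_lit 9765388289) (nat_lit 8394368) (.two (nat_lit 1048576) (nat_lit 8395575) (.one (nat_lit 1055931) .nil)))))),
   .two (nat_lit 4605345818) (nat_lit 46980399149) (.two (nat_lit 46980399112) (nat_lit 21214790350) (.two (nat_lit 12117344259) (nat_lit 174692766228) (.one (nat_lit 1056432) .nil))),
   .two (nat_lit 218103833) (nat_lit 9799991587) (.two (nat_lit 10370416644) (nat_lit 1786774222) (.two (nat_lit 184549379) (nat_lit 159217880359) (.two (nat_lit 8388608) (nat_lit 16784184) (.one (nat_lit 2104920) .nil)))),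
   .two (nat_lit 310378522) (nat_lit 13224640582) (.two (nat_lit 9934209032) (nat_lit 156372041908) (.two (nat_lit 183848927236) (nat_lit 2994735258) (.two (nat_lit 8388609) (nat_lit 158077030167) (.two (nat_lit 2097152) (nat_lit 8394630) (.one (nat_lit 8396465) .nil))))),
   .two (nat_lit 203423771) (nat_lit 1346371769) (.two (nat_lit 9948889092) (nat_lit 1049743) (.two (nat_lit 1291845635) (nat_lit 184987682951) (.two (nat_lit 9781116929) (nat_lit 9766442207) (.one (nat_lit 2105010) .nil)))),
   .two (nat_lit 9948889115) (nat_lit 21814575575) (.two (nat_lit 713031684) (nat_lit 21827159159) (.two (nat_lit 41943043) (nat_lit 28793899222) (.two (nat_lit 9781116929) (nat_lit 156472708451) (.two (nat_lit 4194304) (nat_lit 16784185) (.one (nat_lit 4202163) .nil))))),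
   .two (nat_lit 11543773208) (nat_lit 12150898753) (.two (nat_lit 11543773192) (nat_lit 174688567641) (.two (nat_lit 12114198532) (nat_lit 183949591221) (.two (nat_lit 1916796931) (nat_lit 46406830257) (.two (nat_lit 34603009) (nat_lit 4199128) (.two (nat_lit 1048576) (nat_lit 4201274) (.one (nat_lit 156364708469) .nil)))))),
   .two (nat_lit 739246107) (nat_lit 608174134) (.two (nat_lit 9881780234) (nat_lit 11543773624) (.two (nat_lit 739246083) (nat_lit 4197073) (.two (nat_lit 9781116929) (nat_lit 19127078667) (.two (nat_lit 1048576) (nat_lit 4200330) (.one (nat_lit 1056436) .nil))))),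
   .two (nat_lit 10506731561) (nat_lit 2097259) (.two (nat_lit 28693233672) (nat_lit 46507491803) (.two (nat_lit 304087046) (nat_lit 10003415481) (.two (nat_lit 4599054339) (nat_lit 1749028167) (.two (nat_lit 2097152) (nat_lit 10385101873) (.one (nat_lit 1056066) .nil))))),
   .two (nat_lit 612368411) (nat_lit 11525947450) (.two (nat_lit 20638072840) (nat_lit 10510926579) (.two (nat_lit 721420291) (nat_lit 3021998276) (.two (nat_lit 16777217) (nat_lit 203427127) (.two (nat_lit 2097152) (nat_lit 8394636) (.one (nat_lit 2105013) .nil))))),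
   .two (nat_lit 16777241) (nat_lit 47555018794) (.two (nat_lit 176160776) (nat_lit 184431935669) (.two (nat_lit 165526110212) (nat_lit 880805027) (.two (nat_lit 8388611) (nat_lit 16779518) (.two (nat_lit 606076929) (nat_lit 156573373525) (.one (nat_lit 8396470) .nil))))),
   .two (nat_lit 16777241) (nat_lit 9806282846) (.two (nat_lit 9940500490) (nat_lit 156481095213) (.two (nat_lit 612368385) (nat_lit 1191187683) (.one (nat_lit 243276846) .nil))),
   .two (nat_lit 4601151512) (nat_lit 28690087962) (.two (nat_lit 184419352584) (nat_lit 135266573) (.two (nat_lit 272629764) (nat_lit 705692368) (.two (nat_lit 13191086083) (nat_lit 1051347) (.two (nat_lit 9765388289) (nat_lit 4198288) (.two (nat_lit 1048576) (nat_lit 4200335) (.one (nat_lit 1056439) .nil)))))),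
   .two (nat_lit 12114198554) (nat_lit 706740275) (.two (nat_lit 1913651208) (nat_lit 1411383624) (.two (nat_lit 1913651204) (nat_lit 2098340) (.two (nat_lit 11543773187) (nat_lit 37314627762) (.two (nat_lit 9765388289) (nat_lit 203427604) (.two (nat_lit 1048576) (nat_lit 2103185) (.one (nat_lit 1056440) .nil)))))),
   .two (nat_lit 158144135192) (nat_lit 4027580520) (.two (nat_lit 3460300808) (nat_lit 1847591610) (.two (nat_lit 10939793411) (nat_lit 166199299427) (.two (nat_lit 4194304) (nat_lit 1054610) (.one (nat_lit 1056078) .nil)))),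
   .two (nat_lit 3464495129) (nat_lit 174753579071) (.two (nat_lit 3464495112) (nat_lit 156481093994) (.two (nat_lit 1780482052) (nat_lit 9948889906) (.two (nat_lit 8388609) (nat_lit 2902461785) (.two (nat_lit 2097152) (nat_lit 16782618) (.one (nat_lit 2104656) .nil))))),
   .two (nat_lit 9768534043) (nat_lit 68157496) (.two (nat_lit 272629768) (nat_lit 166230753651) (.two (nat_lit 10336862212) (nat_lit 3460301576) (.two (nat_lit 21207449603) (nat_lit 46477084909) (.two (nat_lit 34603009) (nat_lit 4200065) (.two (nat_lit 1048576) (nat_lit 4200341) (.one (nat_lit 1056441) .nil)))))),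
   .two (nat_lit 3527409690) (nat_lit 1847590937) (.two (nat_lit 1847590920) (nat_lit 11580474056) (.two (nat_lit 2954887171) (nat_lit 183916037668) (.two (nat_lit 2097153) (nat_lit 157038939943) (.two (nat_lit 2097152) (nat_lit 4199707) (.one (nat_lit 4202170) .nil))))),
   .two (nat_lit 8388632) (nat_lit 775946296) (.two (nat_lit 8388616) (nat_lit 47563408191) (.two (nat_lit 2969567236) (nat_lit 1312819716) (.two (nat_lit 16777216) (nat_lit 4199708) (.one (nat_lit 4202171) .nil)))),
   .two (nat_lit 37246468137) (nat_lit 46481276974) (.two (nat_lit 2416967690) (nat_lit 20644364467) (.two (nat_lit 1745879044) (nat_lit 20644365847) (.two (nat_lit 34603009) (nat_lit 209720358) (.one (nat_lit 8396116) .nil)))),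
   .two (nat_lit 46414168104) (nat_lit 3560964392) (.two (nat_lit 41943048) (nat_lit 12150899473) (.two (nat_lit 37748740) (nat_lit 2357201400) (.two (nat_lit 4194305) (nat_lit 2418020805) (.two (nat_lit 4194304) (nat_lit 10336868661) (.one (nat_lit 2921340344) .nil))))),
   .two (nat_lit 285212748) (nat_lit 9969860791) (.two (nat_lit 83886088) (nat_lit 9772729885) (.two (nat_lit 11479810050) (nat_lit 9814674907) (.two (nat_lit 4194304) (nat_lit 847256347) .nil))),
   .two (nat_lit 37313577004) (nat_lit 21827158084) (.two (nat_lit 10939793416) (nat_lit 11525948107) (.two (nat_lit 28690087940) (nat_lit 156380432892) (.two (nat_lit 9765388289) (nat_lit 16780769) (.two (nat_lit 4194304) (nat_lit 1055683) (.one (nat_lit 1056706) .nil))))),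
   .two (nat_lit 13195280411) (nat_lit 46523220285) (.two (nat_lit 184549384) (nat_lit 183853121976) (.two (nat_lit 165525061636) (nat_lit 8390852) (.two (nat_lit 739246083) (nat_lit 16780604) (.two (nat_lit 605028353) (nat_lit 9940506866) (.one (nat_lit 1056707) .nil))))),
   .two (nat_lit 1310720025) (nat_lit 3527410003) (.two (nat_lit 166132187144) (nat_lit 1310720440) (.two (nat_lit 28691136516) (nat_lit 171968031) (.two (nat_lit 9934209027) (nat_lit 159232560371) (.two (nat_lit 41943041) (nat_lit 19545461202) (.two (nat_lit 16777216) (nat_lit 203430113) (.one (nat_lit 8396740) .nil)))))),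
   .two (nat_lit 47596961829) (nat_lit 183846830373) (.two (nat_lit 9781116936) (nat_lit 3560964809) (.two (nat_lit 12050235396) (nat_lit 9814672958) (.two (nat_lit 13191086083) (nat_lit 16781086) (.two (nat_lit 37748737) (nat_lit 16783050) (.two (nat_lit 1048576) (nat_lit 69212427) (.one (nat_lit 2105285) .nil)))))),
   .two (nat_lit 318767129) (nat_lit 1346372372) (.two (nat_lit 21214789636) (nat_lit 9866054133) (.two (nat_lit 37748737) (nat_lit 101716479) (.two (nat_lit 1048576) (nat_lit 2103673) (.one (nat_lit 1056710) .nil)))),
   .two (nat_lit 1291845657) (nat_lit 2921332920) (.two (nat_lit 83886088) (nat_lit 156573369092) (.two (nat_lit 3464495108) (nat_lit 46422558236) (.two (nat_lit 176160771) (nat_lit 3525317170) (.two (nat_lit 2097152) (nat_lit 16784324) (.one (nat_lit 4599062237) .nil))))),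
   .two (nat_lit 20704133161) (nat_lit 2097337) (.two (nat_lit 166130089992) (nat_lit 9899606455) (.two (nat_lit 166130089988) (nat_lit 156566029849) (.two (nat_lit 174753579011) (nat_lit 1175456253) (.two (nat_lit 9766436865) (nat_lit 156968686105) (.two (nat_lit 2097152) (nat_lit 1055098) (.one (nat_lit 1056711) .nil)))))),
   .two (nat_lit 158143086619) (nat_lit 10940842423) (.two (nat_lit 21207449604) (nat_lit 35653149) (.two (nat_lit 20637024258) (nat_lit 2100541) (.two (nat_lit 605028353) (nat_lit 184987687261) (.one (nat_lit 1056712) .nil)))),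
   .two (nat_lit 46477082651) (nat_lit 159251431711) (.two (nat_lit 157038936072) (nat_lit 2098813) (.two (nat_lit 3558866950) (nat_lit 876611104) (.two (nat_lit 203423747) (nat_lit 12150901245) (.two (nat_lit 2097153) (nat_lit 171971044) (.two (nat_lit 2097152) (nat_lit 19532880162) (.one (nat_lit 2105289) .nil)))))),
   .two (nat_lit 158646403099) (nat_lit 608174266) (.two (nat_lit 28757196808) (nat_lit 184419353016) (.two (nat_lit 28757196804) (nat_lit 4195909) (.two (nat_lit 1276116994) (nat_lit 9969863987) (.two (nat_lit 9765388289) (nat_lit 166232853984) (.two (nat_lit 2097152) (nat_lit 12617521408) (.one (nat_lit 1056714) .nil)))))),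
   .two (nat_lit 10907287579) (nat_lit 11476664661) (.two (nat_lit 11559501832) (nat_lit 135266997) (.two (nat_lit 1343225860) (nat_lit 21223179831) (.two (nat_lit 1779433475) (nat_lit 3036679458) (.two (nat_lit 620756993) (nat_lit 304092241) (.two (nat_lit 2097152) (nat_lit 3573553424) (.one (nat_lit 16785355) .nil)))))),
   .two (nat_lit 47596961834) (nat_lit 840958273) (.two (nat_lit 158075977736) (nat_lit 773849794) (.two (nat_lit 21207449604) (nat_lit 174768261284) (.two (nat_lit 21777874947) (nat_lit 16781087) (.two (nat_lit 156364701697) (nat_lit 183962178049) (.two (nat_lit 1048576) (nat_lit 2103677) (.one (nat_lit 1056716) .nil)))))),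
   .two (nat_lit 843055131) (nat_lit 11626611005) (.two (nat_lit 1191182346) (nat_lit 4599055098) (.two (nat_lit 606076932) (nat_lit 50333204) (.two (nat_lit 10385096707) (nat_lit 10540289250) (.two (nat_lit 9766436865) (nat_lit 156569180418) (.one (nat_lit 4202445) .nil))))),
   .two (nat_lit 9899606054) (nat_lit 9969860791) (.two (nat_lit 1745879048) (nat_lit 1916797367) (.two (nat_lit 1745879044) (nat_lit 339741191) (.two (nat_lit 34603009) (nat_lit 3024097765) (.two (nat_lit 8388608) (nat_lit 19026417881) (.one (nat_lit 4202446) .nil))))),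
   .two (nat_lit 20704133165) (nat_lit 159253528761) (.two (nat_lit 158143086600) (nat_lit 156569176224) (.two (nat_lit 184416206851) (nat_lit 184553235) (.two (nat_lit 34603009) (nat_lit 184554591) (.two (nat_lit 16777216) (nat_lit 1055103) (.one (nat_lit 1056719) .nil))))),
   .two (nat_lit 11559501851) (nat_lit 183912890436) (.two (nat_lit 50331656) (nat_lit 10369368808) (.two (nat_lit 1175453700) (nat_lit 47563408939) (.two (nat_lit 8388611) (nat_lit 10369370612) (.two (nat_lit 612368385) (nat_lit 10351546864) (.two (nat_lit 1048576) (nat_lit 8395136) (.one (nat_lit 8396752) .nil)))))),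
   .two (nat_lit 310378523) (nat_lit 12048138420) (.two (nat_lit 46414168072) (nat_lit 159253529289) (.two (nat_lit 12050235396) (nat_lit 645924421) (.two (nat_lit 708837379) (nat_lit 10343156224) (.two (nat_lit 2097153) (nat_lit 8394443) (.two (nat_lit 4194304) (nat_lit 2103681) (.one (nat_lit 8396753) .nil)))))),
   .two (nat_lit 10385096731) (nat_lit 1049051) (.two (nat_lit 158075977736) (nat_lit 46514832082) (.two (nat_lit 174759870468) (nat_lit 9765389873) (.two (nat_lit 1283457027) (nat_lit 46523223274) (.two (nat_lit 612368385) (nat_lit 2332037586) (.two (nat_lit 16777216) (nat_lit 713038049) (.one (nat_lit 4202450) .nil)))))),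
   .two (nat_lit 272629786) (nat_lit 9806283024) (.two (nat_lit 272629768) (nat_lit 28758246145) (.two (nat_lit 3464495108) (nat_lit 156468512286) (.two (nat_lit 184993972227) (nat_lit 47548729856) (.two (nat_lit 156365750273) (nat_lit 12050239967) (.two (nat_lit 4194304) (nat_lit 2103682) (.one (nat_lit 8396755) .nil)))))),
   .two (nat_lit 12054429739) (nat_lit 68157789) (.two (nat_lit 21777874952) (nat_lit 18933088695) (.two (nat_lit 11543773188) (nat_lit 1761610241) (.two (nat_lit 612368385) (nat_lit 20719868163) (.one (nat_lit 16785364) .nil)))),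
   .two (nat_lit 721420315) (nat_lit 3560964455) (.two (nat_lit 13203669002) (nat_lit 11546919622) (.two (nat_lit 50331652) (nat_lit 157038936882) (.two (nat_lit 16777218) (nat_lit 1782581755) (.two (nat_lit 612368385) (nat_lit 19612570097) (.two (nat_lit 8388608) (nat_lit 4200835) (.one (nat_lit 16784880) .nil)))))),
   .two (nat_lit 156567076903) (nat_lit 19142803748) (.two (nat_lit 3460300808) (nat_lit 10015998708) (.two (nat_lit 3525312516) (nat_lit 4631561761) (.two (nat_lit 2887778306) (nat_lit 156968684816) (.two (nat_lit 2097153) (nat_lit 1054412) (.two (nat_lit 4194304) (nat_lit 2104261) (.one (nat_lit 2105301) .nil)))))),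
   .two (nat_lit 2902458393) (nat_lit 174759870648) (.two (nat_lit 8388616) (nat_lit 251659009) (.two (nat_lit 16777222) (nat_lit 880805399) (.two (nat_lit 16777219) (nat_lit 28764540379) (.two (nat_lit 16777216) (nat_lit 1745885980) .nil)))),
   .two (nat_lit 46489665562) (nat_lit 28693234012) (.two (nat_lit 2969567240) (nat_lit 310379259) (.two (nat_lit 9867100164) (nat_lit 8390195) (.two (nat_lit 1344274435) (nat_lit 34606303) (.two (nat_lit 156364701697) (nat_lit 876614716) (.two (nat_lit 1048576) (nat_lit 4201414) (.one (nat_lit 4202454) .nil)))))),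
   .two (nat_lit 169869337) (nat_lit 620757060) (.two (nat_lit 1358954504) (nat_lit 19599984160) (.two (nat_lit 270532611) (nat_lit 19042142716) (.two (nat_lit 2097153) (nat_lit 12633248273) (.two (nat_lit 8388608) (nat_lit 157035795086) (.one (nat_lit 4202455) .nil))))),
   .two (nat_lit 2954887194) (nat_lit 11614027960) (.two (nat_lit 713031688) (nat_lit 20638073535) (.two (nat_lit 1291845636) (nat_lit 183916038656) (.two (nat_lit 612368385) (nat_lit 1392514084) (.two (nat_lit 8388608) (nat_lit 174701156538) (.one (nat_lit 8396760) .nil))))),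
   .two (nat_lit 158646403097) (nat_lit 16777692) (.two (nat_lit 1343225864) (nat_lit 16778771) (.two (nat_lit 9881780227) (nat_lit 1276120855) (.two (nat_lit 34603009) (nat_lit 16783053) (.two (nat_lit 1048576) (nat_lit 16784327) (.one (nat_lit 1056729) .nil))))),
   .two (nat_lit 28093448235) (nat_lit 156969730233) (.two (nat_lit 10343153672) (nat_lit 9967763895) (.two (nat_lit 10343153668) (nat_lit 2098758) (.two (nat_lit 11484004355) (nat_lit 2990541301) (.two (nat_lit 8388609) (nat_lit 2102990) (.two (nat_lit 4194304) (nat_lit 8395140) (.one (nat_lit 2105306) .nil)))))),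
   .two (nat_lit 47563407386) (nat_lit 11007950916) (.two (nat_lit 156367847432) (nat_lit 11510219191) (.two (nat_lit 2887778308) (nat_lit 742393392) (.two (nat_lit 2887778306) (nat_lit 174752532992) (.two (nat_lit 4194305) (nat_lit 1053803) (.two (nat_lit 4194304) (nat_lit 2104264) (.one (nat_lit 4202459) .nil)))))),
   .two (nat_lit 4601151515) (nat_lit 169869497) (.two (nat_lit 46409973768) (nat_lit 2097859) (.two (nat_lit 2969567236) (nat_lit 46508541506) (.two (nat_lit 2954887171) (nat_lit 3573550342) (.two (nat_lit 9766436865) (nat_lit 158146236872) (.two (nat_lit 2097152) (nat_lit 16784329) (.one (nat_lit 16785372) .nil)))))),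
   .two (nat_lit 3527409688) (nat_lit 156481093993) (.two (nat_lit 822083592) (nat_lit 37749517) (.two (nat_lit 11492392964) (nat_lit 28793898546) (.two (nat_lit 2889875458) (nat_lit 16781088) (.two (nat_lit 605028353) (nat_lit 4199532) (.two (nat_lit 1048576) (nat_lit 4200837) (.one (nat_lit 1056241) .nil)))))),
   .two (nat_lit 3021996071) (nat_lit 2357199166) (.two (nat_lit 4194312) (nat_lit 2424308437) (.two (nat_lit 4194308) (nat_lit 4034922023) (.two (nat_lit 171966467) (nat_lit 10947136809) (.two (nat_lit 8388609) (nat_lit 159253533796) (.two (nat_lit 8388608) (nat_lit 28089260290) (.one (nat_lit 101720028) .nil)))))),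
   .two (nat_lit 159266111532) (nat_lit 10001318241) (.two (nat_lit 46407876616) (nat_lit 183861510886) (.two (nat_lit 705691652) (nat_lit 2936014385) (.two (nat_lit 705691650) (nat_lit 16781089) (.two (nat_lit 2097153) (nat_lit 9866056752) (.two (nat_lit 2097152) (nat_lit 1055110) (.one (nat_lit 2105309) .nil)))))),
   .two (nat_lit 10940842023) (nat_lit 1048944) (.two (nat_lit 47563407368) (nat_lit 156533523249) (.two (nat_lit 184549378) (nat_lit 10000272619) (.two (nat_lit 620756993) (nat_lit 168825292) (.two (nat_lit 2097152) (nat_lit 16783751) (.one (nat_lit 2105310) .nil))))),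
   .two (nat_lit 16777240) (nat_lit 174752530747) (.two (nat_lit 184549384) (nat_lit 20737688323) (.two (nat_lit 1175453700) (nat_lit 19094570524) (.two (nat_lit 184549378) (nat_lit 19597888751) (.two (nat_lit 8388609) (nat_lit 46507495880) (.two (nat_lit 8388608) (nat_lit 174685429230) .nil))))),
   .two (nat_lit 19029557274) (nat_lit 2097521) (.two (nat_lit 20644364296) (nat_lit 9869198879) (.two (nat_lit 2097155) (nat_lit 4638902772) (.two (nat_lit 34603009) (nat_lit 9806287346) (.two (nat_lit 1048576) (nat_lit 8395144) (.one (nat_lit 8396767) .nil))))),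
   .two (nat_lit 2969567256) (nat_lit 21208498448) (.two (nat_lit 184549384) (nat_lit 176161495) (.two (nat_lit 183853121540) (nat_lit 4043310642) (.two (nat_lit 639631363) (nat_lit 16780607) (.two (nat_lit 606076929) (nat_lit 1358959125) (.two (nat_lit 8388608) (nat_lit 2104266) (.one (nat_lit 8396274) .nil)))))),
   .two (nat_lit 183853121561) (nat_lit 708837676) (.two (nat_lit 156367847432) (nat_lit 183853122234) (.two (nat_lit 276824068) (nat_lit 4197029) (.two (nat_lit 2956984323) (nat_lit 8392000) (.two (nat_lit 605028353) (nat_lit 2990543326) (.two (nat_lit 1048576) (nat_lit 4200841) (.one (nat_lit 1056736) .nil)))))),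
   .two (nat_lit 9948889115) (nat_lit 840958317) (.two (nat_lit 10385096712) (nat_lit 28791800536) (.two (nat_lit 47548727300) (nat_lit 157051521179) (.two (nat_lit 12054429699) (nat_lit 169872704) (.two (nat_lit 41943041) (nat_lit 28101841960) (.two (nat_lit 8388608) (nat_lit 2103690) (.one (nat_lit 8396769) .nil)))))),
   .two (nat_lit 101711899) (nat_lit 156567077047) (.two (nat_lit 620757000) (nat_lit 9768534721) (.two (nat_lit 11559501828) (nat_lit 37246470292) (.two (nat_lit 1913651203) (nat_lit 158647454208) (.two (nat_lit 16777217) (nat_lit 2102991) (.two (nat_lit 1048576) (nat_lit 16784331) (.one (nat_lit 1056738) .nil)))))),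
   .two (nat_lit 183912890393) (nat_lit 1761608407) (.two (nat_lit 276824068) (nat_lit 18941478429) (.two (nat_lit 9765388291) (nat_lit 183861512707) (.two (nat_lit 41943041) (nat_lit 183861516542) (.one (nat_lit 8396771) .nil)))),
   .two (nat_lit 176160794) (nat_lit 156481093943) (.two (nat_lit 184549384) (nat_lit 183845783724) (.two (nat_lit 171966467) (nat_lit 16781090) (.two (nat_lit 37748737) (nat_lit 8394448) (.two (nat_lit 8388608) (nat_lit 16784332) (.one (nat_lit 8396772) .nil))))),
   .two (nat_lit 285212696) (nat_lit 840958137) (.two (nat_lit 2902458376) (nat_lit 158653743866) (.two (nat_lit 12117344260) (nat_lit 142608896) (.two (nat_lit 612368385) (nat_lit 2102993) (.two (nat_lit 4194304) (nat_lit 184417261864) (.one (nat_lit 4202469) .nil))))),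
   .two (nat_lit 1310720039) (nat_lit 2357199140) (.two (nat_lit 165526110216) (nat_lit 343933626) (.two (nat_lit 641728516) (nat_lit 2099397) (.two (nat_lit 2889875458) (nat_lit 8392483) (.two (nat_lit 4194305) (nat_lit 2102381) (.two (nat_lit 2097152) (nat_lit 4201421) (.one (nat_lit 4202470) .nil)))))),
   .two (nat_lit 12054429721) (nat_lit 4601151556) (.two (nat_lit 4601151496) (nat_lit 10376708851) (.two (nat_lit 46984593412) (nat_lit 2956986875) (.two (nat_lit 605028353) (nat_lit 10372518360) (.two (nat_lit 1048576) (nat_lit 4200843) (.one (nat_lit 2416975840) .nil))))),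
   .two (nat_lit 46414168103) (nat_lit 9869197630) (.two (nat_lit 156367847432) (nat_lit 13187941076) (.two (nat_lit 159224168452) (nat_lit 1343227429) (.two (nat_lit 47555018755) (nat_lit 1052452) (.two (nat_lit 4194305) (nat_lit 1779438081) (.two (nat_lit 4194304) (nat_lit 183920236925) (.one (nat_lit 4202471) .nil)))))),
   .two (nat_lit 19142803483) (nat_lit 4194781) (.two (nat_lit 156367847432) (nat_lit 605028793) (.two (nat_lit 1191182340) (nat_lit 21210597558) (.two (nat_lit 11492392962) (nat_lit 1346374893) (.two (nat_lit 4194305) (nat_lit 1054418) (.two (nat_lit 1048576) (nat_lit 4201422) (.one (nat_lit 1056744) .nil)))))),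
   .two (nat_lit 2961178649) (nat_lit 174753579283) (.two (nat_lit 2961178632) (nat_lit 174753579705) (.two (nat_lit 1276116996) (nat_lit 184417257627) (.two (nat_lit 34603011) (nat_lit 4198181) (.two (nat_lit 2097153) (nat_lit 1054419) (.two (nat_lit 1048576) (nat_lit 2104271) (.one (nat_lit 1056746) .nil)))))),
   .two (nat_lit 2969567259) (nat_lit 1847591190) (.two (nat_lit 218103816) (nat_lit 10940842424) (.two (nat_lit 639631364) (nat_lit 10385099251) (.two (nat_lit 2097153) (nat_lit 1392513558) (.two (nat_lit 2097152) (nat_lit 16783756) (.one (nat_lit 2104819) .nil))))),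
   .two (nat_lit 2969567256) (nat_lit 2887778777) (.two (nat_lit 9781116936) (nat_lit 9936306617) (.two (nat_lit 654311428) (nat_lit 9867102340) (.two (nat_lit 708837379) (nat_lit 1291848178) (.two (nat_lit 4194305) (nat_lit 1761612256) (.two (nat_lit 2097152) (nat_lit 16782955) (.one (nat_lit 16785387) .nil)))))),
   .two (nat_lit 754974747) (nat_lit 19128123697) (.two (nat_lit 4613734408) (nat_lit 20705182136) (.two (nat_lit 705691652) (nat_lit 1426065538) (.two (nat_lit 34603011) (nat_lit 28101840127) (.two (nat_lit 16777217) (nat_lit 47588577791) (.two (nat_lit 1048576) (nat_lit 8395149) (.one (nat_lit 8396780) .nil)))))),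
   .two (nat_lit 4605345817) (nat_lit 158146232505) (.two (nat_lit 4194312) (nat_lit 1847593139) (.two (nat_lit 171966467) (nat_lit 156372045101) (.two (nat_lit 4194305) (nat_lit 9966719442) (.two (nat_lit 4194304) (nat_lit 1055118) (.one (nat_lit 8396781) .nil))))),
   .two (nat_lit 2923429913) (nat_lit 166237045043) (.two (nat_lit 46409973768) (nat_lit 337642214) (.two (nat_lit 156367847428) (nat_lit 1954547262) (.two (nat_lit 46980399107) (nat_lit 2961182011) (.two (nat_lit 156365750273) (nat_lit 46514837862) (.one (nat_lit 4202478) .nil))))),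
   .two (nat_lit 3560964121) (nat_lit 10552869213) (.two (nat_lit 205520904) (nat_lit 10376708809) (.two (nat_lit 3527409668) (nat_lit 1847593090) (.two (nat_lit 1344274435) (nat_lit 142609667) (.two (nat_lit 606076929) (nat_lit 19096670693) (.two (nat_lit 1048576) (nat_lit 2103695) (.one (nat_lit 1056751) .nil)))))),
   .two (nat_lit 285212697) (nat_lit 19033751920) (.two (nat_lit 184993972232) (nat_lit 183928620605) (.two (nat_lit 12062818307) (nat_lit 18925751616) (.two (nat_lit 612368385) (nat_lit 4027586855) (.one (nat_lit 1056752) .nil)))),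
   .two (nat_lit 47582281755) (nat_lit 13228835257) (.two (nat_lit 203423748) (nat_lit 4601153089) (.two (nat_lit 1176502275) (nat_lit 3527413525) (.two (nat_lit 2097153) (nat_lit 713038071) (.one (nat_lit 8396785) .nil)))),
   .two (nat_lit 165532401705) (nat_lit 37316722871) (.two (nat_lit 272629768) (nat_lit 10376708851) (.two (nat_lit 13191086084) (nat_lit 156372043916) (.two (nat_lit 183853121539) (nat_lit 13224643887) (.two (nat_lit 4194305) (nat_lit 847254030) (.two (nat_lit 4194304) (nat_lit 1753225540) (.one (nat_lit 8396786) .nil)))))),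
   .two (nat_lit 4194329) (nat_lit 4605345971) (.two (nat_lit 4194312) (nat_lit 13195281080) (.two (nat_lit 37748740) (nat_lit 156372043929) (.two (nat_lit 2097155) (nat_lit 2889878837) (.two (nat_lit 34603009) (nat_lit 46978307160) (.two (nat_lit 2097152) (nat_lit 4200849) (.one (nat_lit 8396276) .nil)))))),
   .two (nat_lit 9899606041) (nat_lit 183853121976) (.two (nat_lit 158075977732) (nat_lit 13195281202) (.two (nat_lit 21777874947) (nat_lit 8392001) (.two (nat_lit 156364701697) (nat_lit 185027531874) (.two (nat_lit 1048576) (nat_lit 142613908) .nil)))),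
   .two (nat_lit 13195280425) (nat_lit 156581757265) (.two (nat_lit 183853121544) (nat_lit 156581757717) (.two (nat_lit 16777220) (nat_lit 10544481821) (.two (nat_lit 16777218) (nat_lit 1182797030) (.two (nat_lit 16777217) (nat_lit 679481881) (.two (nat_lit 8388608) (nat_lit 16783763) (.one (nat_lit 8396278) .nil)))))),
   .two (nat_lit 156569174043) (nat_lit 9873391958) (.two (nat_lit 1350565896) (nat_lit 10335815222) (.two (nat_lit 156976021507) (nat_lit 47547682040) (.two (nat_lit 34603009) (nat_lit 138416689) (.two (nat_lit 1048576) (nat_lit 4200852) (.one (nat_lit 4202483) .nil))))),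
   .two (nat_lit 1846542362) (nat_lit 673186079) (.two (nat_lit 754974728) (nat_lit 2349860374) (.two (nat_lit 806354947) (nat_lit 1325403432) (.two (nat_lit 2097153) (nat_lit 1053806) (.two (nat_lit 2097152) (nat_lit 4598012129) (.one (nat_lit 2105332) .nil))))),
   .two (nat_lit 11618222122) (nat_lit 34603193) (.two (nat_lit 184993972232) (nat_lit 28790751994) (.two (nat_lit 156968681476) (nat_lit 10947135014) (.two (nat_lit 19596836867) (nat_lit 8392002) (.two (nat_lit 612368385) (nat_lit 10537144856) (.two (nat_lit 1048576) (nat_lit 183853128015) (.one (nat_lit 1055510) .nil)))))),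
   .two (nat_lit 158144135194) (nat_lit 9765388470) (.two (nat_lit 158075977736) (nat_lit 11611931423) (.two (nat_lit 158075977732) (nat_lit 21208498994) (.two (nat_lit 1745879043) (nat_lit 2099702) (.two (nat_lit 605028353) (nat_lit 9766443282) (.one (nat_lit 2105333) .nil))))),
   .two (nat_lit 10907287593) (nat_lit 10939793587) (.two (nat_lit 218103816) (nat_lit 11477713661) (.two (nat_lit 1846542340) (nat_lit 19042142380) (.two (nat_lit 270532611) (nat_lit 620759537) (.two (nat_lit 2097153) (nat_lit 12147757601) (.two (nat_lit 2097152) (nat_lit 1055696) (.one (nat_lit 1056758) .nil)))))),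
   .two (nat_lit 1417674792) (nat_lit 19596836932) (.two (nat_lit 75497480) (nat_lit 34603723) (.two (nat_lit 75497476) (nat_lit 159250384419) (.two (nat_lit 713031682) (nat_lit 1052454) (.two (nat_lit 16777217) (nat_lit 174685426141) (.two (nat_lit 1048576) (nat_lit 8395729) (.one (nat_lit 1056249) .nil)))))),
   .two (nat_lit 11559501849) (nat_lit 185020186912) (.two (nat_lit 11559501832) (nat_lit 185020187330) (.two (nat_lit 9866051588) (nat_lit 11559504369) (.two (nat_lit 50331649) (nat_lit 68162663) (.two (nat_lit 1048576) (nat_lit 16784338) (.one (nat_lit 11543780777) .nil))))),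
   .two (nat_lit 4605345816) (nat_lit 839909745) (.two (nat_lit 183853121544) (nat_lit 11476665048) (.two (nat_lit 203423748) (nat_lit 183953786396) (.two (nat_lit 2887778306) (nat_lit 8392003) (.two (nat_lit 9766436865) (nat_lit 185027531884) (.two (nat_lit 2097152) (nat_lit 185027533189) (.one (nat_lit 185021242865) .nil)))))),
   .two (nat_lit 3558866986) (nat_lit 4194674) (.two (nat_lit 3525312520) (nat_lit 11513365183) (.two (nat_lit 1291845636) (nat_lit 1210060043) (.two (nat_lit 620756993) (nat_lit 28089258519) (.two (nat_lit 16777216) (nat_lit 2103702) (.one (nat_lit 4202487) .nil))))),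
   .two (nat_lit 11559501849) (nat_lit 157035790521) (.two (nat_lit 11559501832) (nat_lit 705692387) (.two (nat_lit 1343225860) (nat_lit 620758547) (.two (nat_lit 705691650) (nat_lit 16781095) (.two (nat_lit 34603009) (nat_lit 16782447) (.two (nat_lit 1048576) (nat_lit 16783767) (.one (nat_lit 1056760) .nil)))))),
   .two (nat_lit 2954887194) (nat_lit 10385097410) (.two (nat_lit 184549380) (nat_lit 19094570529) (.two (nat_lit 16777218) (nat_lit 2101032) (.two (nat_lit 16777217) (nat_lit 158144139795) (.two (nat_lit 2097152) (nat_lit 16783768) (.one (nat_lit 2105337) .nil))))),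
   .two (nat_lit 9967763494) (nat_lit 159266111556) (.two (nat_lit 37748744) (nat_lit 9948889906) (.two (nat_lit 158144135171) (nat_lit 9869200681) (.two (nat_lit 2097153) (nat_lit 4199536) (.two (nat_lit 4194304) (nat_lit 2104275) (.one (nat_lit 2105338) .nil))))),
   .two (nat_lit 3028287531) (nat_lit 754974899) (.two (nat_lit 3028287501) (nat_lit 754975159) (.two (nat_lit 3028287494) (nat_lit 83887680) (.two (nat_lit 176160771) (nat_lit 10351544823) (.two (nat_lit 41943041) (nat_lit 158662136264) (.two (nat_lit 8388608) (nat_lit 16783769) (.one (nat_lit 8396285) .nil)))))),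
   .two (nat_lit 9881780249) (nat_lit 166232850727) (.two (nat_lit 809500680) (nat_lit 9881781783) (.two (nat_lit 2969567235) (nat_lit 239077895) (.two (nat_lit 16777217) (nat_lit 1279266267) (.two (nat_lit 2097152) (nat_lit 183962181074) .nil)))),
   .two (nat_lit 1191182363) (nat_lit 843055385) (.two (nat_lit 2902458376) (nat_lit 19130222144) (.two (nat_lit 2902458370) (nat_lit 1782582508) (.two (nat_lit 4194305) (nat_lit 3472888293) (.two (nat_lit 4194304) (nat_lit 16783770) (.one (nat_lit 4202491) .nil))))),
   .two (nat_lit 9866051610) (nat_lit 1210057014) (.two (nat_lit 2961178632) (nat_lit 159251432981) (.two (nat_lit 8388610) (nat_lit 158077028864) (.two (nat_lit 612368385) (nat_lit 28691141097) (.two (nat_lit 1048576) (nat_lit 2103707) (.one (nat_lit 1056764) .nil))))),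
   .two (nat_lit 1358954534) (nat_lit 21818769757) (.two (nat_lit 11559501832) (nat_lit 1049295) (.two (nat_lit 47563407364) (nat_lit 183853123774) (.two (nat_lit 721420290) (nat_lit 772805153) (.two (nat_lit 1048576) (nat_lit 16783772) (.one (nat_lit 50339660) .nil))))),
   .two (nat_lit 3527409689) (nat_lit 1344274750) (.two (nat_lit 37748744) (nat_lit 10519315158) (.two (nat_lit 3527409668) (nat_lit 12048139838) (.two (nat_lit 69206019) (nat_lit 21793606884) (.two (nat_lit 620756993) (nat_lit 1914706278) (.one (nat_lit 2104830) .nil))))),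
   .two (nat_lit 156372041768) (nat_lit 2921332921) (.two (nat_lit 809500680) (nat_lit 156372042545) (.two (nat_lit 4194306) (nat_lit 10376711643) (.two (nat_lit 4194304) (nat_lit 20638079281) (.one (nat_lit 2105341) .nil)))),
   .two (nat_lit 1178599451) (nat_lit 20637024440) (.two (nat_lit 2889875464) (nat_lit 136315598) (.two (nat_lit 1350565892) (nat_lit 9966716471) (.two (nat_lit 4601151491) (nat_lit 158077028852) (.two (nat_lit 41943041) (nat_lit 18928898610) (.two (nat_lit 2097152) (nat_lit 742398361) (.one (nat_lit 4202494) .nil)))))),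
   .two (nat_lit 19599982630) (nat_lit 159250383140) (.two (nat_lit 276824072) (nat_lit 11513365178) (.two (nat_lit 41943044) (nat_lit 10537141787) (.two (nat_lit 8388610) (nat_lit 46473939460) (.two (nat_lit 8388609) (nat_lit 1053235) (.two (nat_lit 8388608) (nat_lit 1055700) (.one (nat_lit 1056767) .nil)))))),
   .two (nat_lit 10385096744) (nat_lit 156472705206) (.two (nat_lit 10385096712) (nat_lit 12624855753) (.two (nat_lit 1779433476) (nat_lit 9772730874) (.two (nat_lit 605028353) (nat_lit 276828814) (.one (nat_lit 8396289) .nil)))),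
   .two (nat_lit 4194329) (nat_lit 46414168882) (.two (nat_lit 4194306) (nat_lit 4598010398) (.two (nat_lit 4194304) (nat_lit 159251437872) (.one (nat_lit 28086116276) .nil))),
   .two (nat_lit 11492393004) (nat_lit 2357199159) (.two (nat_lit 8388616) (nat_lit 9781117746) (.two (nat_lit 16777218) (nat_lit 11517561354) (.two (nat_lit 8388609) (nat_lit 606081529) (.two (nat_lit 2097152) (nat_lit 8395168) (.one (nat_lit 2104835) .nil))))),
   .two (nat_lit 9802088488) (nat_lit 1746927797) (.two (nat_lit 1291845640) (nat_lit 11007951287) (.two (nat_lit 46978301956) (nat_lit 166144771635) (.two (nat_lit 3525312515) (nat_lit 2936015363) (.two (nat_lit 2097153) (nat_lit 654317163) (.one (nat_lit 203431387) .nil))))),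
   .two (nat_lit 4601151512) (nat_lit 19100860717) (.two (nat_lit 13191086088) (nat_lit 142607087) (.two (nat_lit 3464495108) (nat_lit 4601153728) (.two (nat_lit 47555018755) (nat_lit 138415338) (.two (nat_lit 8388609) (nat_lit 46980405456) (.one (nat_lit 4202497) .nil))))),
   .two (nat_lit 3525312536) (nat_lit 10942939489) (.two (nat_lit 2889875464) (nat_lit 1411384012) (.two (nat_lit 9940500484) (nat_lit 46474986289) (.two (nat_lit 272629763) (nat_lit 28764539380) (.two (nat_lit 4194305) (nat_lit 10947138006) (.two (nat_lit 4194304) (nat_lit 2103714) (.one (nat_lit 2105346) .nil)))))),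
   .two (nat_lit 2961178650) (nat_lit 673186486) (.two (nat_lit 176160772) (nat_lit 19529729570) (.two (nat_lit 8388611) (nat_lit 183946448195) (.two (nat_lit 8388609) (nat_lit 46507495956) (.two (nat_lit 8388608) (nat_lit 156532480389) (.one (nat_lit 1056771) .nil))))),
   .two (nat_lit 47555018796) (nat_lit 889192516) (.two (nat_lit 3464495112) (nat_lit 158158815939) (.two (nat_lit 3464495108) (nat_lit 83886898) (.two (nat_lit 46414168066) (nat_lit 10452208911) (.two (nat_lit 2097153) (nat_lit 20711479676) (.one (nat_lit 8396292) .nil))))),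
   .two (nat_lit 2923429930) (nat_lit 11551113565) (.two (nat_lit 620757000) (nat_lit 28093448895) (.two (nat_lit 75497476) (nat_lit 156481095217) (.two (nat_lit 713031682) (nat_lit 12150902075) (.two (nat_lit 4194305) (nat_lit 11551118384) (.two (nat_lit 4194304) (nat_lit 47596968319) (.one (nat_lit 4202500) .nil)))))),
   .two (nat_lit 10007609371) (nat_lit 28806480164) (.two (nat_lit 50331656) (nat_lit 185027528248) (.two (nat_lit 713031682) (nat_lit 3524267807) (.two (nat_lit 34603009) (nat_lit 16783061) (.two (nat_lit 16777216) (nat_lit 8395734) (.one (nat_lit 16785413) .nil))))),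
   .two (nat_lit 183853121579) (nat_lit 156969730230) (.two (nat_lit 4194312) (nat_lit 11611931332) (.two (nat_lit 68157444) (nat_lit 2098723) (.two (nat_lit 705691650) (nat_lit 10338961924) (.two (nat_lit 34603009) (nat_lit 28093452851) (.two (nat_lit 1048576) (nat_lit 4201433) (.one (nat_lit 1056775) .nil)))))),
   .two (nat_lit 11559501850) (nat_lit 11010048339) (.two (nat_lit 50331656) (nat_lit 3024093891) (.two (nat_lit 50331652) (nat_lit 9969862830) (.two (nat_lit 16777218) (nat_lit 4197616) (.two (nat_lit 50331649) (nat_lit 4199538) (.two (nat_lit 16777216) (nat_lit 4200867) (.one (nat_lit 4202504) .nil)))))),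
   .two (nat_lit 2988441645) (nat_lit 1782579385) (.two (nat_lit 4028629005) (nat_lit 4634706682) (.two (nat_lit 4028628998) (nat_lit 11546920473) (.two (nat_lit 2954887171) (nat_lit 9902755047) (.two (nat_lit 9766436865) (nat_lit 1346376185) (.two (nat_lit 2097152) (nat_lit 4200870) (.one (nat_lit 4202505) .nil)))))),
   .two (nat_lit 4634705962) (nat_lit 10921967984) (.two (nat_lit 809500680) (nat_lit 19042141298) (.two (nat_lit 117440516) (nat_lit 159219976360) (.two (nat_lit 11492392963) (nat_lit 156466416955) (.two (nat_lit 4194305) (nat_lit 10921972820) (.two (nat_lit 4194304) (nat_lit 2103719) (.one (nat_lit 2105354) .nil)))))),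
   .two (nat_lit 47555018777) (nat_lit 706740518) (.two (nat_lit 721420296) (nat_lit 156472705779) (.two (nat_lit 1358954500) (nat_lit 1350568103) (.two (nat_lit 176160771) (nat_lit 2921336113) (.two (nat_lit 2097153) (nat_lit 8394455) (.two (nat_lit 2097152) (nat_lit 8395739) (.one (nat_lit 8396811) .nil)))))),
   .two (nat_lit 16777240) (nat_lit 1417675191) (.two (nat_lit 16777220) (nat_lit 156976024053) (.two (nat_lit 16777217) (nat_lit 276828709) (.two (nat_lit 8388608) (nat_lit 1862277304) (.one (nat_lit 16785159) .nil)))),
   .two (nat_lit 184549401) (nat_lit 19537068327) (.two (nat_lit 176160776) (nat_lit 184549816) (.two (nat_lit 9940500484) (nat_lit 318768698) (.two (nat_lit 285212675) (nat_lit 185027531229) (.two (nat_lit 4194304) (nat_lit 8395176) (.one (nat_lit 4202508) .nil))))),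
   .two (nat_lit 10940842011) (nat_lit 10439623005) (.two (nat_lit 1343225864) (nat_lit 158647452087) (.two (nat_lit 1343225860) (nat_lit 35653150) (.two (nat_lit 705691650) (nat_lit 2100531) (.two (nat_lit 34603009) (nat_lit 807408075) (.two (nat_lit 1048576) (nat_lit 166197205288) (.one (nat_lit 11577335169) .nil)))))),
   .two (nat_lit 11513364505) (nat_lit 19134415141) (.two (nat_lit 11479810056) (nat_lit 13203669718) (.two (nat_lit 183848927236) (nat_lit 10443818558) (.two (nat_lit 9948889091) (nat_lit 2990541300) (.two (nat_lit 612368385) (nat_lit 1862276129) (.two (nat_lit 4194304) (nat_lit 11525953722) (.one (nat_lit 37320924534) .nil)))))),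
   .two (nat_lit 47555018779) (nat_lit 185021235383) (.two (nat_lit 3464495112) (nat_lit 1746928385) (.two (nat_lit 46978301956) (nat_lit 109054465) (.two (nat_lit 2097153) (nat_lit 185027531221) (.two (nat_lit 2097152) (nat_lit 8395740) (.one (nat_lit 2105357) .nil))))),
   .two (nat_lit 13224640539) (nat_lit 2097333) (.two (nat_lit 12047089672) (nat_lit 3458204391) (.two (nat_lit 1178599428) (nat_lit 2099399) (.two (nat_lit 13187940355) (nat_lit 21210598625) (.two (nat_lit 9766436865) (nat_lit 28693238862) (.two (nat_lit 1048576) (nat_lit 159253535004) (.one (nat_lit 4202510) .nil)))))),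
   .two (nat_lit 306184217) (nat_lit 1786773795) (.two (nat_lit 176160776) (nat_lit 2319450863) (.two (nat_lit 176160772) (nat_lit 28793898531) (.two (nat_lit 8388611) (nat_lit 183848929802) (.two (nat_lit 612368385) (nat_lit 183848933755) (.one (nat_lit 1761615308) .nil))))),
   .two (nat_lit 184993972250) (nat_lit 13187940708) (.two (nat_lit 10504634376) (nat_lit 34603725) (.two (nat_lit 37313576965) (nat_lit 46481278519) (.two (nat_lit 13187940355) (nat_lit 2927627577) (.two (nat_lit 2097153) (nat_lit 235934241) (.two (nat_lit 1048576) (nat_lit 8395741) (.one (nat_lit 2104784) .nil)))))),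
   .two (nat_lit 184993972249) (nat_lit 166211879662) (.two (nat_lit 16777220) (nat_lit 276826637) (.two (nat_lit 8388609) (nat_lit 2969571887) (.two (nat_lit 8388608) (nat_lit 16784350) (.one (nat_lit 158183988617) .nil)))),
   .two (nat_lit 1212153897) (nat_lit 13237223492) (.two (nat_lit 156367847432) (nat_lit 184551571) (.two (nat_lit 46409973762) (nat_lit 47563411985) (.two (nat_lit 2097152) (nat_lit 183962179166) (.one (nat_lit 16784904) .nil)))),
   .two (nat_lit 4605345831) (nat_lit 1410334899) (.two (nat_lit 276824072) (nat_lit 10372514553) (.two (nat_lit 606076932) (nat_lit 1050824) (.two (nat_lit 11546918915) (nat_lit 183920233767) (.two (nat_lit 37748737) (nat_lit 2102388) (.two (nat_lit 2097152) (nat_lit 4201441) (.one (nat_lit 2105360) .nil)))))),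
   .two (nat_lit 16777240) (nat_lit 21785215415) (.two (nat_lit 50331652) (nat_lit 3531605530) (.two (nat_lit 16777218) (nat_lit 19537071328) (.two (nat_lit 8388609) (nat_lit 10351546821) (.two (nat_lit 8388608) (nat_lit 318773643) (.one (nat_lit 8396819) .nil))))),
   .two (nat_lit 754974745) (nat_lit 8389086) (.two (nat_lit 3539992584) (nat_lit 159217877716) (.two (nat_lit 276824068) (nat_lit 185002362426) (.two (nat_lit 10385096707) (nat_lit 41946346) (.two (nat_lit 16777217) (nat_lit 1746932210) (.two (nat_lit 1048576) (nat_lit 8395181) (.one (nat_lit 16785428) .nil)))))),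
   .two (nat_lit 174753579035) (nat_lit 21214789985) (.two (nat_lit 41943048) (nat_lit 185002362426) (.two (nat_lit 721420291) (nat_lit 20745030136) (.two (nat_lit 16777217) (nat_lit 1746932210) (.two (nat_lit 2097152) (nat_lit 8395181) (.one (nat_lit 16784907) .nil))))),
   .two (nat_lit 3527409700) (nat_lit 11517559088) (.two (nat_lit 12054429704) (nat_lit 1209009712) (.two (nat_lit 1343225859) (nat_lit 645925366) (.two (nat_lit 9765388289) (nat_lit 46514835913) (.two (nat_lit 1048576) (nat_lit 12050242942) .nil)))),
   .two (nat_lit 156372041764) (nat_lit 46978302295) (.two (nat_lit 9934209032) (nat_lit 18933088956) (.two (nat_lit 169869316) (nat_lit 184993974769) (.two (nat_lit 34603009) (nat_lit 304091591) (.two (nat_lit 1048576) (nat_lit 2103726) (.one (nat_lit 1056268) .nil))))),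
   .two (nat_lit 2902458395) (nat_lit 4194649) (.two (nat_lit 47563407368) (nat_lit 9867100945) (.two (nat_lit 9867100164) (nat_lit 16778033) (.two (nat_lit 171966467) (nat_lit 158662134267) (.two (nat_lit 605028353) (nat_lit 156569178590) (.two (nat_lit 16777216) (nat_lit 10503592328) (.one (nat_lit 2105365) .nil)))))),
   .two (nat_lit 2969567256) (nat_lit 47548727364) (.two (nat_lit 1291845640) (nat_lit 10537140665) (.two (nat_lit 169869316) (nat_lit 889194020) (.two (nat_lit 169869314) (nat_lit 37246470656) (.two (nat_lit 9765388289) (nat_lit 174701154780) (.two (nat_lit 2097152) (nat_lit 16783791) (.one (nat_lit 16785430) .nil)))))),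
   .two (nat_lit 11618222107) (nat_lit 1048949) (.two (nat_lit 47548727304) (nat_lit 2357199581) (.two (nat_lit 166129041412) (nat_lit 159251432242) (.two (nat_lit 28757196803) (nat_lit 184987684646) (.two (nat_lit 8388609) (nat_lit 2103002) (.two (nat_lit 1048576) (nat_lit 2104291) (.one (nat_lit 2105367) .nil)))))),
   .two (nat_lit 880803867) (nat_lit 9799991641) (.two (nat_lit 11551113224) (nat_lit 12147753400) (.two (nat_lit 612368388) (nat_lit 13188990526) (.two (nat_lit 1779433475) (nat_lit 1914703107) (.two (nat_lit 50331649) (nat_lit 28087161329) (.two (nat_lit 16777216) (nat_lit 28757203222) (.one (nat_lit 1056792) .nil)))))),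
   .two (nat_lit 1343225883) (nat_lit 142606618) (.two (nat_lit 2889875464) (nat_lit 183953785581) (.two (nat_lit 276824068) (nat_lit 21210597505) (.two (nat_lit 11559501827) (nat_lit 21210597878) (.two (nat_lit 50331649) (nat_lit 12617519560) (.two (nat_lit 1048576) (nat_lit 4200881) (.one (nat_lit 4202521) .nil)))))),
   .two (nat_lit 20644364315) (nat_lit 11007950916) (.two (nat_lit 47555018760) (nat_lit 3021996770) (.two (nat_lit 46978301956) (nat_lit 4197613) (.two (nat_lit 9768534017) (nat_lit 174759875032) (.two (nat_lit 2097152) (nat_lit 8395748) (.one (nat_lit 8396826) .nil))))),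
   .two (nat_lit 21777874981) (nat_lit 156372042167) (.two (nat_lit 68157444) (nat_lit 10443820263) (.two (nat_lit 8388609) (nat_lit 185020191826) (.two (nat_lit 4194304) (nat_lit 21214797178) .nil))),
   .two (nat_lit 20753416236) (nat_lit 159251431711) (.two (nat_lit 9948889096) (nat_lit 28691137238) (.two (nat_lit 203423750) (nat_lit 19612567064) (.two (nat_lit 2097155) (nat_lit 12163484978) (.two (nat_lit 2097153) (nat_lit 156481098278) (.two (nat_lit 2097152) (nat_lit 10452212077) (.one (nat_lit 2105371) .nil)))))),
   .two (nat_lit 4634705945) (nat_lit 9899606367) (.two (nat_lit 4605345800) (nat_lit 157035790777) (.two (nat_lit 47555018756) (nat_lit 158143088165) (.two (nat_lit 46414168067) (nat_lit 4027582980) (.two (nat_lit 34603009) (nat_lit 156367852035) (.two (nat_lit 1048576) (nat_lit 8395749) (.one (nat_lit 1056272) .nil)))))),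
   .two (nat_lit 9781116967) (nat_lit 11614028093) (.two (nat_lit 2902458376) (nat_lit 12117345073) (.two (nat_lit 285212675) (nat_lit 47584381432) (.two (nat_lit 16777217) (nat_lit 47550829030) (.two (nat_lit 16777216) (nat_lit 13195286708) (.one (nat_lit 4202524) .nil))))),
   .two (nat_lit 272629784) (nat_lit 20704133449) (.two (nat_lit 1350565896) (nat_lit 1209008914) (.two (nat_lit 4605345796) (nat_lit 13221496359) (.two (nat_lit 156372041731) (nat_lit 235932150) (.two (nat_lit 34603009) (nat_lit 1216352771) (.two (nat_lit 1048576) (nat_lit 4200882) (.one (nat_lit 1950358951) .nil)))))),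
   .two (nat_lit 9934209051) (nat_lit 50331827) (.two (nat_lit 822083592) (nat_lit 18926797519) (.two (nat_lit 4613734404) (nat_lit 21778925726) (.two (nat_lit 158143086595) (nat_lit 639634745) (.two (nat_lit 16777217) (nat_lit 183913943583) (.two (nat_lit 1048576) (nat_lit 158158822813) .nil))))),
   .two (nat_lit 46414168108) (nat_lit 156969730230) (.two (nat_lit 2887778312) (nat_lit 10540286737) (.two (nat_lit 68157444) (nat_lit 35653832) (.two (nat_lit 2956984323) (nat_lit 46481280295) (.two (nat_lit 4194305) (nat_lit 34608244) (.two (nat_lit 1048576) (nat_lit 4201446) (.one (nat_lit 1056798) .nil)))))),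
   .two (nat_lit 1753219116) (nat_lit 1948254519) (.two (nat_lit 203423752) (nat_lit 28101837527) (.two (nat_lit 20644364292) (nat_lit 46474986289) (.two (nat_lit 612368387) (nat_lit 3003124963) (.two (nat_lit 620756993) (nat_lit 184993978589) (.one (nat_lit 2105375) .nil))))),
   .two (nat_lit 4647288870) (nat_lit 1178599767) (.two (nat_lit 21214789640) (nat_lit 16777656) (.two (nat_lit 21214789636) (nat_lit 16778034) (.two (nat_lit 2956984323) (nat_lit 16779761) (.two (nat_lit 605028353) (nat_lit 12150903329) (.two (nat_lit 1048576) (nat_lit 4201447) (.one (nat_lit 1056276) .nil)))))),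
   .two (nat_lit 184419352603) (nat_lit 12155093310) (.two (nat_lit 1178599432) (nat_lit 109052345) (.two (nat_lit 28690087942) (nat_lit 1312819705) (.two (nat_lit 34603009) (nat_lit 183953790551) (.one (nat_lit 4202529) .nil)))),
   .two (nat_lit 47555018778) (nat_lit 169869493) (.two (nat_lit 203423752) (nat_lit 813695721) (.two (nat_lit 1795162116) (nat_lit 2099401) (.two (nat_lit 117440515) (nat_lit 2101036) (.two (nat_lit 620756993) (nat_lit 4632613410) (.two (nat_lit 16777216) (nat_lit 2103735) (.one (nat_lit 2105379) .nil)))))),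
   .two (nat_lit 47555018777) (nat_lit 10370416988) (.two (nat_lit 4605345800) (nat_lit 4601152289) (.two (nat_lit 9867100164) (nat_lit 12121540130) (.two (nat_lit 708837379) (nat_lit 174692764150) (.two (nat_lit 2097153) (nat_lit 156976026086) (.two (nat_lit 4194304) (nat_lit 2103736) (.one (nat_lit 2105380) .nil)))))),
   .two (nat_lit 10940842029) (nat_lit 159266111556) (.two (nat_lit 9781116936) (nat_lit 1379926772) (.two (nat_lit 46409973764) (nat_lit 4647291063) (.two (nat_lit 165526110211) (nat_lit 742396358) (.two (nat_lit 2097152) (nat_lit 4201449) (.one (nat_lit 4202535) .nil))))),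
   .two (nat_lit 1212153892) (nat_lit 13237223492) (.two (nat_lit 9781116936) (nat_lit 20740834022) (.two (nat_lit 742391812) (nat_lit 16778772) (.two (nat_lit 11479810050) (nat_lit 721423624) (.two (nat_lit 2097153) (nat_lit 20652758134) (.two (nat_lit 4194304) (nat_lit 16784362) (.one (nat_lit 4202006) .nil)))))),
   .two (nat_lit 843055131) (nat_lit 2332033392) (.two (nat_lit 218103816) (nat_lit 47584379678) (.two (nat_lit 4613734404) (nat_lit 10909386910) (.two (nat_lit 1795162115) (nat_lit 4198191) (.two (nat_lit 34603009) (nat_lit 171971101) (.two (nat_lit 1048576) (nat_lit 4200889) (.one (nat_lit 1056279) .nil)))))),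
   .two (nat_lit 28690087962) (nat_lit 37748921) (.two (nat_lit 3539992584) (nat_lit 708838117) (.two (nat_lit 4613734404) (nat_lit 2956986534) (.two (nat_lit 10506731523) (nat_lit 9933163745) (.two (nat_lit 9765388289) (nat_lit 11479815226) (.two (nat_lit 1048576) (nat_lit 4201394) (.one (nat_lit 1056808) .nil)))))),
   .two (nat_lit 20704133145) (nat_lit 71303521) (.two (nat_lit 9934209032) (nat_lit 28757197240) (.two (nat_lit 169869316) (nat_lit 11513367774) (.two (nat_lit 2097153) (nat_lit 1053236) (.two (nat_lit 2097152) (nat_lit 13221501189) (.one (nat_lit 4202539) .nil))))),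
   .two (nat_lit 11543773208) (nat_lit 10338959541) (.two (nat_lit 276824072) (nat_lit 156569174713) (.two (nat_lit 18928893956) (nat_lit 19033753118) (.two (nat_lit 176160771) (nat_lit 1052465) (.two (nat_lit 41943041) (nat_lit 3457161572) (.one (nat_lit 8396844) .nil))))),
   .two (nat_lit 4605345816) (nat_lit 9802089153) (.two (nat_lit 272629764) (nat_lit 18933089074) (.two (nat_lit 4601151491) (nat_lit 10443819526) (.two (nat_lit 37748737) (nat_lit 37320922210) (.two (nat_lit 8388608) (nat_lit 4201451) (.one (nat_lit 8396845) .nil))))),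
   .two (nat_lit 13191086107) (nat_lit 12163481925) (.two (nat_lit 183848927240) (nat_lit 47581233871) (.two (nat_lit 1795162118) (nat_lit 1745881238) (.two (nat_lit 1795162115) (nat_lit 1052466) (.two (nat_lit 37748737) (nat_lit 605034827) (.one (nat_lit 71310871) .nil))))),
   .two (nat_lit 158144135192) (nat_lit 3020947749) (.two (nat_lit 822083592) (nat_lit 1849688790) (.two (nat_lit 20637024260) (nat_lit 4599056895) (.two (nat_lit 4194305) (nat_lit 2887782864) (.two (nat_lit 1048576) (nat_lit 2103741) (.one (nat_lit 4202542) .nil))))),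
   .two (nat_lit 28806479910) (nat_lit 9899606455) (.two (nat_lit 21811429381) (nat_lit 28705818150) (.two (nat_lit 11559501827) (nat_lit 2953841895) (.two (nat_lit 9781116929) (nat_lit 9765392836) (.two (nat_lit 8388608) (nat_lit 11610888539) (.one (nat_lit 1343233439) .nil))))),
   .two (nat_lit 2316304411) (nat_lit 343932996) (.two (nat_lit 713031688) (nat_lit 183946445558) (.two (nat_lit 12047089668) (nat_lit 10007610162) (.two (nat_lit 183845781506) (nat_lit 8392005) (.two (nat_lit 41943041) (nat_lit 9765392869) (.two (nat_lit 1048576) (nat_lit 21818775795) (.one (nat_lit 20711480731) .nil)))))),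
   .two (nat_lit 47582281753) (nat_lit 37313577139) (.two (nat_lit 809500680) (nat_lit 1049744) (.two (nat_lit 809500676) (nat_lit 2099879) (.two (nat_lit 171966467) (nat_lit 11578379489) (.two (nat_lit 37748737) (nat_lit 1376785504) (.two (nat_lit 1048576) (nat_lit 20707285938) (.one (nat_lit 2319457727) .nil)))))),
   .two (nat_lit 142606380) (nat_lit 2349859255) (.two (nat_lit 21214789636) (nat_lit 168822296) (.two (nat_lit 158150426627) (nat_lit 159216831724) (.two (nat_lit 612368385) (nat_lit 1410339274) (.two (nat_lit 1048576) (nat_lit 2894077300) .nil)))),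
   .two (nat_lit 809500699) (nat_lit 9881780404) (.two (nat_lit 9934209032) (nat_lit 18941477596) (.two (nat_lit 754974724) (nat_lit 20640171549) (.two (nat_lit 9781116931) (nat_lit 159219976695) (.two (nat_lit 2097153) (nat_lit 158079128032) (.two (nat_lit 4194304) (nat_lit 28101844326) .nil))))),
   .two (nat_lit 46474985499) (nat_lit 1312817491) (.two (nat_lit 3460300809) (nat_lit 21812478669) (.two (nat_lit 46409973764) (nat_lit 11578377758) (.two (nat_lit 4601151491) (nat_lit 2100550) (.two (nat_lit 4194305) (nat_lit 2102391) (.two (nat_lit 2097152) (nat_lit 4200896) (.one (nat_lit 4202547) .nil)))))),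
   .two (nat_lit 1291845659) (nat_lit 1410335192) (.two (nat_lit 47555018760) (nat_lit 174701150969) (.two (nat_lit 2961178628) (nat_lit 2332034620) (.two (nat_lit 3464495107) (nat_lit 156481097481) (.two (nat_lit 50331649) (nat_lit 1913655822) (.two (nat_lit 8388608) (nat_lit 788535609) (.one (nat_lit 16785460) .nil)))))),
   .two (nat_lit 3028287528) (nat_lit 20737687734) (.two (nat_lit 4613734408) (nat_lit 19537068793) (.two (nat_lit 4613734404) (nat_lit 8390858) (.two (nat_lit 1914699779) (nat_lit 11577331004) (.two (nat_lit 41943041) (nat_lit 1053816) (.two (nat_lit 16777216) (nat_lit 9906952505) (.one (nat_lit 2105397) .nil)))))),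
   .two (nat_lit 16777240) (nat_lit 2097527) (.two (nat_lit 721420296) (nat_lit 11511268489) (.two (nat_lit 620756996) (nat_lit 840960174) (.two (nat_lit 184549378) (nat_lit 169872624) (.two (nat_lit 620756993) (nat_lit 169874546) (.two (nat_lit 2097152) (nat_lit 16784368) (.one (nat_lit 2105398) .nil)))))),
   .two (nat_lit 174686470188) (nat_lit 10906239263) (.two (nat_lit 46407876616) (nat_lit 156380430777) (.two (nat_lit 705691652) (nat_lit 9781117745) (.two (nat_lit 4601151491) (nat_lit 183913942322) (.two (nat_lit 4194305) (nat_lit 166229709350) (.two (nat_lit 2097152) (nat_lit 166199302389) (.one (nat_lit 306192411) .nil)))))),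
   .two (nat_lit 9881780249) (nat_lit 2349858996) (.two (nat_lit 620757000) (nat_lit 202375941) (.two (nat_lit 1276116996) (nat_lit 46422558263) (.two (nat_lit 9933160451) (nat_lit 16780616) (.two (nat_lit 4194305) (nat_lit 336597465) (.two (nat_lit 8388608) (nat_lit 1346378062) (.one (nat_lit 8396855) .nil)))))),
   .two (nat_lit 12047089690) (nat_lit 13195280452) (.two (nat_lit 16777224) (nat_lit 159216828857) (.two (nat_lit 16777220) (nat_lit 1853884600) (.two (nat_lit 8388610) (nat_lit 2953841140) (.two (nat_lit 34603009) (nat_lit 75502080) (.two (nat_lit 1048576) (nat_lit 8395204) (.one (nat_lit 1962941902) .nil)))))),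
   .two (nat_lit 3527409690) (nat_lit 2317353335) (.two (nat_lit 9940500488) (nat_lit 874512825) (.two (nat_lit 28691136516) (nat_lit 10338960942) (.two (nat_lit 1914699779) (nat_lit 158179790055) (.two (nat_lit 4194305) (nat_lit 46414173803) (.one (nat_lit 8396857) .nil))))),
   .two (nat_lit 2969567258) (nat_lit 12121538870) (.two (nat_lit 184549384) (nat_lit 20644365845) (.two (nat_lit 157035790339) (nat_lit 243273014) (.two (nat_lit 41943041) (nat_lit 21793608216) (.two (nat_lit 16777216) (nat_lit 11577334016) (.one (nat_lit 1056826) .nil))))),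
   .two (nat_lit 46510637092) (nat_lit 251658558) (.two (nat_lit 2889875464) (nat_lit 11559502642) (.two (nat_lit 272629763) (nat_lit 13203672382) (.two (nat_lit 9768534017) (nat_lit 855643234) (.two (nat_lit 2097152) (nat_lit 10552875260) (.one (nat_lit 16785467) .nil))))),
   .two (nat_lit 218103835) (nat_lit 28758245661) (.two (nat_lit 2969567240) (nat_lit 21812479519) (.two (nat_lit 184549378) (nat_lit 2101043) (.two (nat_lit 16777217) (nat_lit 2103009) (.two (nat_lit 16777216) (nat_lit 2104306) (.one (nat_lit 2105404) .nil))))),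
   .two (nat_lit 16777240) (nat_lit 159224168887) (.two (nat_lit 16777220) (nat_lit 1954549043) (.two (nat_lit 50331649) (nat_lit 109056453) (.two (nat_lit 16777216) (nat_lit 184986639718) .nil))),
   .two (nat_lit 184993972268) (nat_lit 37262196918) (.two (nat_lit 12054429704) (nat_lit 184549815) (.two (nat_lit 12054429700) (nat_lit 37262199290) (.two (nat_lit 41943041) (nat_lit 158662136292) (.two (nat_lit 1048576) (nat_lit 4638906585) (.one (nat_lit 8396861) .nil))))),
   .two (nat_lit 1291845657) (nat_lit 2954887492) (.two (nat_lit 37748744) (nat_lit 10519316026) (.two (nat_lit 9781116931) (nat_lit 4632612135) (.two (nat_lit 2097153) (nat_lit 16783074) (.two (nat_lit 16777216) (nat_lit 2104307) (.one (nat_lit 16785470) .nil))))),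
   .two (nat_lit 185020186649) (nat_lit 50331917) (.two (nat_lit 11543773192) (nat_lit 50333204) (.two (nat_lit 705691650) (nat_lit 12163484923) (.two (nat_lit 16777217) (nat_lit 11006906840) (.two (nat_lit 16777216) (nat_lit 1055732) (.one (nat_lit 1056290) .nil))))),
   .two (nat_lit 159224168475) (nat_lit 3539992886) (.two (nat_lit 20644364296) (nat_lit 3020948224) (.two (nat_lit 11559501828) (nat_lit 183912892554) (.two (nat_lit 721420290) (nat_lit 10369371951) (.two (nat_lit 605028353) (nat_lit 9873396855) (.two (nat_lit 1048576) (nat_lit 4034926935) (.one (nat_lit 1056832) .nil)))))),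
   .two (nat_lit 9802088475) (nat_lit 4647288900) (.two (nat_lit 183848927240) (nat_lit 12062819052) (.two (nat_lit 12050235396) (nat_lit 28806481473) (.two (nat_lit 13191086083) (nat_lit 10385100104) (.two (nat_lit 37748737) (nat_lit 16783075) (.two (nat_lit 1048576) (nat_lit 2103627) (.one (nat_lit 4202561) .nil)))))),
   .two (nat_lit 166245433371) (nat_lit 1746927801) (.two (nat_lit 9766436874) (nat_lit 2432697900) (.two (nat_lit 2887778306) (nat_lit 721423582) (.two (nat_lit 2097153) (nat_lit 889197086) (.two (nat_lit 2097152) (nat_lit 16783814) (.one (nat_lit 11626618388) .nil))))),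
   .two (nat_lit 11559501851) (nat_lit 135266770) (.two (nat_lit 50331656) (nat_lit 20644364982) (.two (nat_lit 50331652) (nat_lit 8390860) (.two (nat_lit 28757196803) (nat_lit 159224172302) (.two (nat_lit 50331649) (nat_lit 1053145) (.two (nat_lit 1048576) (nat_lit 9906952439) (.one (nat_lit 1056292) .nil)))))),
   .two (nat_lit 184993972269) (nat_lit 12617515383) (.two (nat_lit 4194312) (nat_lit 11014243018) (.two (nat_lit 8388612) (nat_lit 171968063) (.two (nat_lit 8388611) (nat_lit 159253531931) (.two (nat_lit 8388609) (nat_lit 19532878344) (.two (nat_lit 1048576) (nat_lit 10540292512) (.one (nat_lit 303046038) .nil)))))),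
   .two (nat_lit 3525312538) (nat_lit 46980399448) (.two (nat_lit 205520904) (nat_lit 11578376909) (.two (nat_lit 3525312516) (nat_lit 28089257187) (.two (nat_lit 4194305) (nat_lit 1745883611) (.two (nat_lit 2097152) (nat_lit 2349865380) (.one (nat_lit 183846837613) .nil))))),
   .two (nat_lit 3527409688) (nat_lit 166230753552) (.two (nat_lit 75497480) (nat_lit 840958723) (.two (nat_lit 47548727300) (nat_lit 3024094775) (.two (nat_lit 46978301955) (nat_lit 2956987680) (.two (nat_lit 41943041) (nat_lit 156569178645) (.two (nat_lit 8388608) (nat_lit 19597892554) (.one (nat_lit 2105411) .nil)))))),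
   .two (nat_lit 276824090) (nat_lit 1212154036) (.two (nat_lit 41943048) (nat_lit 157035791054) (.two (nat_lit 21207449606) (nat_lit 4599055927) (.two (nat_lit 638582787) (nat_lit 4028632392) (.two (nat_lit 8388609) (nat_lit 46977257945) (.two (nat_lit 4194304) (nat_lit 1853888846) (.one (nat_lit 8396868) .nil)))))),
   .two (nat_lit 1417674797) (nat_lit 16777593) (.two (nat_lit 158083317768) (nat_lit 1962935061) (.two (nat_lit 16777220) (nat_lit 183953786393) (.two (nat_lit 16777218) (nat_lit 3531607340) (.two (nat_lit 612368385) (nat_lit 50336309) (.two (nat_lit 1048576) (nat_lit 713039350) .nil))))),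
   .two (nat_lit 2902458393) (nat_lit 183949591231) (.two (nat_lit 272629764) (nat_lit 11525948961) (.two (nat_lit 218103811) (nat_lit 10439626537) (.two (nat_lit 4194305) (nat_lit 20652757477) (.two (nat_lit 16777216) (nat_lit 4201461) (.one (nat_lit 4202565) .nil))))),
   .two (nat_lit 158647451674) (nat_lit 68157810) (.two (nat_lit 169869320) (nat_lit 158091707935) (.two (nat_lit 705691650) (nat_lit 28758248749) (.two (nat_lit 34603009) (nat_lit 1344279041) (.two (nat_lit 1048576) (nat_lit 2103752) (.one (nat_lit 1056838) .nil))))),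
   .two (nat_lit 11559501867) (nat_lit 3024093510) (.two (nat_lit 16777224) (nat_lit 20640170739) (.two (nat_lit 16777220) (nat_lit 10540289296) (.two (nat_lit 16777217) (nat_lit 10506736168) (.two (nat_lit 8388608) (nat_lit 4201462) (.one (nat_lit 4202567) .nil))))),
   .two (nat_lit 9948889115) (nat_lit 184987680950) (.two (nat_lit 813694984) (nat_lit 18941478429) (.two (nat_lit 2887778306) (nat_lit 18941479425) (.two (nat_lit 2097153) (nat_lit 746590698) (.two (nat_lit 2097152) (nat_lit 8395209) (.one (nat_lit 8396872) .nil))))),
   .two (nat_lit 183916036123) (nat_lit 889192751) (.two (nat_lit 3460300808) (nat_lit 47563408068) (.two (nat_lit 21207449604) (nat_lit 9936307738) (.two (nat_lit 158143086595) (nat_lit 2956986881) (.two (nat_lit 37748737) (nat_lit 4631564838) (.two (nat_lit 1048576) (nat_lit 1358961071) (.one (nat_lit 3524271588) .nil)))))),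
   .two (nat_lit 184993972248) (nat_lit 185020186909) (.two (nat_lit 184993972232) (nat_lit 806356082) (.two (nat_lit 12047089668) (nat_lit 20644366832) (.two (nat_lit 34603009) (nat_lit 46514835964) (.two (nat_lit 1048576) (nat_lit 8395211) (.one (nat_lit 2357206461) .nil))))),
   .two (nat_lit 4605345817) (nat_lit 16777594) (.two (nat_lit 13195280392) (nat_lit 157051519716) (.two (nat_lit 19532873732) (nat_lit 2927625010) (.two (nat_lit 157038936067) (nat_lit 158091708922) (.two (nat_lit 9768534017) (nat_lit 8393270) (.two (nat_lit 4194304) (nat_lit 8395212) (.one (nat_lit 4202569) .nil)))))),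
   .two (nat_lit 2954887192) (nat_lit 276824392) (.two (nat_lit 20644364296) (nat_lit 10001318641) (.two (nat_lit 169869316) (nat_lit 13228836408) (.two (nat_lit 184986632195) (nat_lit 18926800098) (.two (nat_lit 37748737) (nat_lit 3022000684) (.two (nat_lit 4194304) (nat_lit 1055181) (.one (nat_lit 1056842) .nil)))))),
   .two (nat_lit 12117344283) (nat_lit 713031972) (.two (nat_lit 3464495112) (nat_lit 104859844) (.two (nat_lit 176160771) (nat_lit 1212156416) (.two (nat_lit 8388609) (nat_lit 9768538604) (.two (nat_lit 4194304) (nat_lit 3472890169) (.one (nat_lit 4202571) .nil))))),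
   .two (nat_lit 101711899) (nat_lit 47582282057) (.two (nat_lit 205520904) (nat_lit 47582282425) (.two (nat_lit 156971827204) (nat_lit 9900656776) (.two (nat_lit 174753579011) (nat_lit 46406830596) (.two (nat_lit 9765388289) (nat_lit 2102394) (.two (nat_lit 1048576) (nat_lit 2103758) (.one (nat_lit 1056844) .nil)))))),
   .two (nat_lit 11618222123) (nat_lit 620757325) (.two (nat_lit 12054429704) (nat_lit 174701150925) (.two (nat_lit 12054429700) (nat_lit 166144771610) (.two (nat_lit 176160771) (nat_lit 1224739333) (.two (nat_lit 8388609) (nat_lit 156380434910) (.two (nat_lit 8388608) (nat_lit 16783823) (.one (nat_lit 16785485) .nil)))))),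
   .two (nat_lit 12147753005) (nat_lit 18941477205) (.two (nat_lit 1291845641) (nat_lit 166229705430) (.two (nat_lit 185020186629) (nat_lit 1962936483) (.two (nat_lit 721420290) (nat_lit 1209011428) (.two (nat_lit 34603009) (nat_lit 28772930607) (.two (nat_lit 1048576) (nat_lit 16783824) (.one (nat_lit 1056846) .nil)))))),
   .two (nat_lit 13191086107) (nat_lit 183953785142) (.two (nat_lit 83886088) (nat_lit 3024093908) (.two (nat_lit 1291845636) (nat_lit 156535621159) (.two (nat_lit 620756995) (nat_lit 47550827012) (.two (nat_lit 50331649) (nat_lit 10909389299) (.two (nat_lit 16777216) (nat_lit 4200913) (.one (nat_lit 4202575) .nil)))))),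
   .two (nat_lit 11577327643) (nat_lit 2894070070) (.two (nat_lit 10343153672) (nat_lit 772800951) (.two (nat_lit 21214789636) (nat_lit 12617517554) (.two (nat_lit 8388609) (nat_lit 2886734304) (.two (nat_lit 4194304) (nat_lit 156472711541) (.one (nat_lit 1056848) .nil))))),
   .two (nat_lit 8388652) (nat_lit 2969567300) (.two (nat_lit 176160776) (nat_lit 2432697036) (.two (nat_lit 9940500484) (nat_lit 21793605163) (.two (nat_lit 1283457027) (nat_lit 9915338501) (.two (nat_lit 612368385) (nat_lit 174768263713) (.two (nat_lit 4194304) (nat_lit 158083324189) (.one (nat_lit 1384127933) .nil)))))),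
   .two (nat_lit 46510637081) (nat_lit 645923123) (.two (nat_lit 117440520) (nat_lit 21781021380) (.two (nat_lit 713031684) (nat_lit 10338961540) (.two (nat_lit 754974723) (nat_lit 1379928569) (.two (nat_lit 4194305) (nat_lit 2894074342) (.two (nat_lit 16777216) (nat_lit 19100866764) (.one (nat_lit 8396881) .nil)))))),
   .two (nat_lit 158143086616) (nat_lit 1384120791) (.two (nat_lit 1779433480) (nat_lit 19537068776) (.two (nat_lit 184423546884) (nat_lit 20704133938) (.two (nat_lit 10504634371) (nat_lit 8392009) (.two (nat_lit 605028353) (nat_lit 8394468) (.two (nat_lit 2097152) (nat_lit 1055186) (.one (nat_lit 1056850) .nil)))))),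
   .two (nat_lit 158144135193) (nat_lit 20711473444) (.two (nat_lit 176160776) (nat_lit 174753580155) (.two (nat_lit 9781116932) (nat_lit 28697430518) (.two (nat_lit 16777217) (nat_lit 4599060803) (.one (nat_lit 2104872) .nil)))),
   .two (nat_lit 156569174053) (nat_lit 10335813944) (.two (nat_lit 1350565896) (nat_lit 185020187323) (.two (nat_lit 10343153668) (nat_lit 46977254937) (.two (nat_lit 156372041731) (nat_lit 138414597) (.two (nat_lit 4194305) (nat_lit 168825383) (.two (nat_lit 1048576) (nat_lit 4200915) (.one (nat_lit 1056851) .nil)))))),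
   .two (nat_lit 2969567258) (nat_lit 28087157047) (.two (nat_lit 184549384) (nat_lit 3458204433) (.two (nat_lit 4605345796) (nat_lit 270534181) (.two (nat_lit 8388610) (nat_lit 11544825059) (.two (nat_lit 41943041) (nat_lit 2102396) (.two (nat_lit 2097152) (nat_lit 8395220) (.one (nat_lit 2105428) .nil)))))),
   .two (nat_lit 1795162139) (nat_lit 2416967748) (.two (nat_lit 754974728) (nat_lit 3457155826) (.two (nat_lit 1745879044) (nat_lit 318769287) (.two (nat_lit 11559501827) (nat_lit 1052468) (.two (nat_lit 34603009) (nat_lit 822090135) (.one (nat_lit 1913659300) .nil))))),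
   .two (nat_lit 10940842027) (nat_lit 11010048068) (.two (nat_lit 822083592) (nat_lit 10506732337) (.two (nat_lit 16777218) (nat_lit 184989780472) (.two (nat_lit 16777217) (nat_lit 740301045) (.one (nat_lit 2105429) .nil)))),
   .two (nat_lit 3464495129) (nat_lit 19545457008) (.two (nat_lit 12054429704) (nat_lit 4030726584) (.two (nat_lit 12054429700) (nat_lit 1346373804) (.two (nat_lit 713031683) (nat_lit 21814579659) (.two (nat_lit 4194304) (nat_lit 654317999) (.one (nat_lit 16785494) .nil))))),
   .two (nat_lit 843055131) (nat_lit 158083318042) (.two (nat_lit 183848927240) (nat_lit 209716767) (.two (nat_lit 41943043) (nat_lit 1782581749) (.two (nat_lit 41943041) (nat_lit 11546923492) (.two (nat_lit 4194304) (nat_lit 8395767) (.one (nat_lit 46514838885) .nil))))),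
   .two (nat_lit 9948889115) (nat_lit 9966715206) (.two (nat_lit 654311432) (nat_lit 1914700542) (.two (nat_lit 10385096708) (nat_lit 12148803120) (.two (nat_lit 47548727299) (nat_lit 806357498) (.two (nat_lit 2097153) (nat_lit 1054437) (.two (nat_lit 2097152) (nat_lit 1055189) (.one (nat_lit 2105431) .nil)))))),
   .two (nat_lit 218103835) (nat_lit 174753579076) (.two (nat_lit 2969567240) (nat_lit 3021996760) (.two (nat_lit 47563407364) (nat_lit 3021998264) (.two (nat_lit 28086108163) (nat_lit 4043311617) (.two (nat_lit 34603009) (nat_lit 1277170230) (.two (nat_lit 1048576) (nat_lit 102766986) (.one (nat_lit 1056856) .nil)))))),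
   .two (nat_lit 158083317785) (nat_lit 19127075109) (.two (nat_lit 12047089672) (nat_lit 11484006910) (.two (nat_lit 34603009) (nat_lit 159257727455) (.two (nat_lit 1048576) (nat_lit 8395222) (.one (nat_lit 1056857) .nil)))),
   .two (nat_lit 46980399146) (nat_lit 69206337) (.two (nat_lit 203423752) (nat_lit 12633245233) (.two (nat_lit 19532873731) (nat_lit 37329308909) (.two (nat_lit 4194305) (nat_lit 11578382717) (.one (nat_lit 11580481484) .nil)))),
   .two (nat_lit 46474985517) (nat_lit 11010048068) (.two (nat_lit 46474985486) (nat_lit 4195108) (.two (nat_lit 46474985477) (nat_lit 46980399922) (.two (nat_lit 3458203651) (nat_lit 4198197) (.two (nat_lit 606076929) (nat_lit 4200166) (.two (nat_lit 16777216) (nat_lit 2103767) (.one (nat_lit 2104875) .nil)))))),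
   .two (nat_lit 166132187163) (nat_lit 4613734759) (.two (nat_lit 10540285962) (nat_lit 174701150917) (.two (nat_lit 285212676) (nat_lit 157038936881) (.two (nat_lit 2889875458) (nat_lit 184431938043) (.two (nat_lit 50331649) (nat_lit 9869201905) (.two (nat_lit 2097152) (nat_lit 3539999107) (.one (nat_lit 4202586) .nil)))))),
   .two (nat_lit 2954887195) (nat_lit 11525947710) (.two (nat_lit 203423752) (nat_lit 2936013531) (.two (nat_lit 1291845636) (nat_lit 18926798381) (.two (nat_lit 2887778306) (nat_lit 16780619) (.two (nat_lit 4194305) (nat_lit 251664742) (.one (nat_lit 2105435) .nil))))),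
   .two (nat_lit 809500699) (nat_lit 166130090271) (.two (nat_lit 11479810056) (nat_lit 185021236767) (.two (nat_lit 50331651) (nat_lit 1344279087) (.two (nat_lit 4194304) (nat_lit 16783832) (.one (nat_lit 2105436) .nil)))),
   .two (nat_lit 185035915291) (nat_lit 1417675128) (.two (nat_lit 50331656) (nat_lit 2961179362) (.two (nat_lit 8388612) (nat_lit 10452208136) (.two (nat_lit 41943041) (nat_lit 83890733) (.two (nat_lit 8388608) (nat_lit 16783833) (.one (nat_lit 18941484399) .nil))))),
   .two (nat_lit 19532873772) (nat_lit 13195280452) (.two (nat_lit 157038936072) (nat_lit 13195281201) (.two (nat_lit 4601151491) (nat_lit 183853124082) (.two (nat_lit 4194305) (nat_lit 1317017193) (.one (nat_lit 8396893) .nil)))),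
   .two (nat_lit 4647288858) (nat_lit 12150899018) (.two (nat_lit 28693233672) (nat_lit 20719862468) (.two (nat_lit 157038936068) (nat_lit 16779469) (.two (nat_lit 1178599427) (nat_lit 16781110) (.two (nat_lit 4194305) (nat_lit 16782461) (.two (nat_lit 4194304) (nat_lit 16783836) (.one (nat_lit 4202590) .nil)))))),
   .two (nat_lit 11543773211) (nat_lit 28705816894) (.two (nat_lit 620757000) (nat_lit 20637024976) (.two (nat_lit 101711876) (nat_lit 11022633127) (.two (nat_lit 13191086083) (nat_lit 156364705027) (.two (nat_lit 37748737) (nat_lit 156364706277) (.two (nat_lit 4194304) (nat_lit 1795168608) (.one (nat_lit 1056863) .nil)))))),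
   .two (nat_lit 183853121563) (nat_lit 34603313) (.two (nat_lit 184993972232) (nat_lit 739246803) (.two (nat_lit 9768534020) (nat_lit 12114199346) (.two (nat_lit 2889875458) (nat_lit 21214793461) (.two (nat_lit 156367847425) (nat_lit 28697432615) (.two (nat_lit 4194304) (nat_lit 8395768) (.one (nat_lit 4202592) .nil)))))),
   .two (nat_lit 47548727320) (nat_lit 28093448545) (.two (nat_lit 612368392) (nat_lit 184986633009) (.two (nat_lit 176160770) (nat_lit 46507493878) (.two (nat_lit 8388609) (nat_lit 2887784866) (.one (nat_lit 2887786498) .nil)))),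
   .two (nat_lit 156971827227) (nat_lit 2953838777) (.two (nat_lit 46407876616) (nat_lit 775948493) (.two (nat_lit 806354947) (nat_lit 1916800301) (.two (nat_lit 34603009) (nat_lit 270537170) (.two (nat_lit 1048576) (nat_lit 183846836622) (.one (nat_lit 4202593) .nil))))),
   .two (nat_lit 1376780315) (nat_lit 37314625715) (.two (nat_lit 47563407368) (nat_lit 2098321) (.two (nat_lit 47563407364) (nat_lit 1344276638) (.two (nat_lit 46992982019) (nat_lit 2101047) (.two (nat_lit 605028353) (nat_lit 16782462) (.two (nat_lit 1048576) (nat_lit 3003128237) (.one (nat_lit 1056866) .nil)))))),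
   .two (nat_lit 2416967719) (nat_lit 156365750454) (.two (nat_lit 1350565896) (nat_lit 185021235998) (.two (nat_lit 20637024260) (nat_lit 69207604) (.two (nat_lit 11479810051) (nat_lit 2987395596) (.two (nat_lit 612368385) (nat_lit 138418564) (.one (nat_lit 4202595) .nil))))),
   .two (nat_lit 11559501849) (nat_lit 10335814365) (.two (nat_lit 739246084) (nat_lit 9881781042) (.two (nat_lit 184986632195) (nat_lit 11626614080) (.two (nat_lit 34603009) (nat_lit 16782463) (.two (nat_lit 1048576) (nat_lit 16784377) (.one (nat_lit 156532481877) .nil))))),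
   .two (nat_lit 272629784) (nat_lit 11022631206) (.two (nat_lit 272629768) (nat_lit 1344275156) (.two (nat_lit 272629764) (nat_lit 721422537) (.two (nat_lit 4194306) (nat_lit 11593060140) (.two (nat_lit 50331649) (nat_lit 19096670762) (.two (nat_lit 16777216) (nat_lit 2104314) (.one (nat_lit 4202596) .nil)))))),
   .two (nat_lit 156372041767) (nat_lit 4601151556) (.two (nat_lit 46414168072) (nat_lit 9802089146) (.two (nat_lit 13191086084) (nat_lit 772802728) (.two (nat_lit 8388611) (nat_lit 4631563561) (.two (nat_lit 156364701697) (nat_lit 10510932293) (.one (nat_lit 1056869) .nil))))),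
   .two (nat_lit 13191086107) (nat_lit 880803908) (.two (nat_lit 18928893960) (nat_lit 46481277635) (.two (nat_lit 19604176900) (nat_lit 239077561) (.two (nat_lit 9948889091) (nat_lit 174688570615) (.two (nat_lit 620756993) (nat_lit 4200167) (.two (nat_lit 16777216) (nat_lit 8395771) (.one (nat_lit 16785510) .nil)))))),
   .two (nat_lit 352321562) (nat_lit 4605345972) (.two (nat_lit 183853121544) (nat_lit 166211879620) (.two (nat_lit 880803845) (nat_lit 16779470) (.two (nat_lit 184549379) (nat_lit 8392504) (.two (nat_lit 16777217) (nat_lit 243274203) (.two (nat_lit 8388608) (nat_lit 16783568) (.one (nat_lit 8396903) .nil)))))),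
   .two (nat_lit 11618222120) (nat_lit 775946610) (.two (nat_lit 8388616) (nat_lit 9969861385) (.two (nat_lit 4194308) (nat_lit 1417675570) (.two (nat_lit 8388610) (nat_lit 2889878026) (.two (nat_lit 41943041) (nat_lit 303044884) (.one (nat_lit 13187948035) .nil))))),
   .two (nat_lit 3525312550) (nat_lit 156569174084) (.two (nat_lit 11543773192) (nat_lit 46409974487) (.two (nat_lit 2887778308) (nat_lit 239076907) (.two (nat_lit 34603011) (nat_lit 158079126753) (.two (nat_lit 2097153) (nat_lit 12150903338) (.two (nat_lit 1048576) (nat_lit 2988448029) (.one (nat_lit 1056872) .nil)))))),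
   .two (nat_lit 46414168102) (nat_lit 184419352755) (.two (nat_lit 272629768) (nat_lit 1786774264) (.two (nat_lit 13191086084) (nat_lit 12054431254) (.two (nat_lit 47555018755) (nat_lit 20740836575) (.two (nat_lit 8388609) (nat_lit 675287529) (.two (nat_lit 8388608) (nat_lit 184989784358) (.one (nat_lit 4202601) .nil)))))),
   .two (nat_lit 47555018776) (nat_lit 9934209372) (.two (nat_lit 159224168456) (nat_lit 158177690762) (.two (nat_lit 1846542340) (nat_lit 3531605539) (.two (nat_lit 270532611) (nat_lit 20644366834) (.two (nat_lit 2097153) (nat_lit 19134420570) (.one (nat_lit 2105450) .nil))))),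
   .two (nat_lit 16777243) (nat_lit 12048138561) (.two (nat_lit 46409973768) (nat_lit 19530777729) (.two (nat_lit 639631364) (nat_lit 2365589022) (.two (nat_lit 184549378) (nat_lit 2101049) (.two (nat_lit 16777217) (nat_lit 874517544) (.two (nat_lit 2097152) (nat_lit 166211885249) (.one (nat_lit 4202603) .nil)))))),
   .two (nat_lit 4601151515) (nat_lit 156581757251) (.two (nat_lit 13203669000) (nat_lit 104858318) (.two (nat_lit 156971827204) (nat_lit 28087158985) (.two (nat_lit 272629763) (nat_lit 16779761) (.two (nat_lit 2097153) (nat_lit 11580477935) (.two (nat_lit 2097152) (nat_lit 708843769) (.one (nat_lit 2105452) .nil)))))),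
   .two (nat_lit 3028287531) (nat_lit 620757060) (.two (nat_lit 3028287501) (nat_lit 721421106) (.two (nat_lit 176160771) (nat_lit 184551922) (.two (nat_lit 8388609) (nat_lit 1862275523) (.two (nat_lit 8388608) (nat_lit 156481099366) (.one (nat_lit 83894075) .nil))))),
   .two (nat_lit 20704133145) (nat_lit 10907287731) (.two (nat_lit 158143086600) (nat_lit 1277167169) (.two (nat_lit 754974723) (nat_lit 11477716781) (.two (nat_lit 620756993) (nat_lit 156566033497) (.two (nat_lit 2097152) (nat_lit 16783839) (.one (nat_lit 16785517) .nil))))),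
   .two (nat_lit 158646403098) (nat_lit 138412211) (.two (nat_lit 12050235400) (nat_lit 13221495501) (.two (nat_lit 3539992580) (nat_lit 2956985913) (.two (nat_lit 171966467) (nat_lit 855640589) (.two (nat_lit 37748737) (nat_lit 156566032842) (.two (nat_lit 2097152) (nat_lit 1055200) (.one (nat_lit 269491919) .nil)))))),
   .two (nat_lit 3464495129) (nat_lit 3573547369) (.two (nat_lit 10519314440) (nat_lit 46980399544) (.two (nat_lit 19604176900) (nat_lit 9768536260) (.two (nat_lit 176160771) (nat_lit 50335050) (.two (nat_lit 4194305) (nat_lit 8395106) (.one (nat_lit 4202607) .nil))))),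
   .two (nat_lit 1962934299) (nat_lit 1175454173) (.two (nat_lit 11559501832) (nat_lit 1745880197) (.two (nat_lit 1358954500) (nat_lit 235931830) (.two (nat_lit 721420290) (nat_lit 1051885) (.two (nat_lit 41943041) (nat_lit 605032902) (.two (nat_lit 1048576) (nat_lit 16783844) (.one (nat_lit 1056883) .nil)))))),
   .two (nat_lit 1291845674) (nat_lit 1048955) (.two (nat_lit 1358954504) (nat_lit 705692386) (.two (nat_lit 11476664324) (nat_lit 46992983583) (.two (nat_lit 3525312515) (nat_lit 3020950843) (.two (nat_lit 2097153) (nat_lit 739251258) (.two (nat_lit 2097152) (nat_lit 11525954554) (.one (nat_lit 1056884) .nil)))))),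
   .two (nat_lit 8388635) (nat_lit 50332354) (.two (nat_lit 184549380) (nat_lit 21785218364) (.two (nat_lit 16777217) (nat_lit 19033756162) (.two (nat_lit 8388608) (nat_lit 1291852184) (.one (nat_lit 41951120) .nil)))),
   .two (nat_lit 2902458393) (nat_lit 157035791054) (.two (nat_lit 37748740) (nat_lit 50333849) (.two (nat_lit 2097155) (nat_lit 4198205) (.two (nat_lit 2097153) (nat_lit 37755098) (.one (nat_lit 874520278) .nil)))),
   .two (nat_lit 9802088488) (nat_lit 4647289012) (.two (nat_lit 156367847432) (nat_lit 21223179806) (.two (nat_lit 46407876610) (nat_lit 822088224) (.two (nat_lit 2097152) (nat_lit 16781967) (.one (nat_lit 16785526) .nil)))),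
   .two (nat_lit 184986632219) (nat_lit 10351542566) (.two (nat_lit 10343153672) (nat_lit 889193266) (.two (nat_lit 11543773187) (nat_lit 620759536) (.two (nat_lit 8388609) (nat_lit 37262202454) (.one (nat_lit 1056306) .nil)))),
   .two (nat_lit 19130220588) (nat_lit 13228834995) (.two (nat_lit 9768534024) (nat_lit 174759871262) (.two (nat_lit 20637024260) (nat_lit 156539816459) (.two (nat_lit 4194305) (nat_lit 1309675972) (.two (nat_lit 2097152) (nat_lit 4201471) (.one (nat_lit 4202615) .nil))))),
   .two (nat_lit 16777240) (nat_lit 11618222367) (.two (nat_lit 16777224) (nat_lit 157043131094) (.two (nat_lit 880803846) (nat_lit 889195018) (.two (nat_lit 16777217) (nat_lit 276830680) (.one (nat_lit 352329233) .nil)))),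
   .two (nat_lit 4194329) (nat_lit 13195280452) (.two (nat_lit 809500680) (nat_lit 19127075255) (.two (nat_lit 11479810052) (nat_lit 673187360) (.two (nat_lit 10343153667) (nat_lit 158146234878) (.two (nat_lit 2097153) (nat_lit 1053239) (.two (nat_lit 2097152) (nat_lit 174752536968) (.one (nat_lit 2923437436) .nil)))))),
   .two (nat_lit 11513364505) (nat_lit 2332033392) (.two (nat_lit 4613734408) (nat_lit 12150900290) (.two (nat_lit 11479810050) (nat_lit 3557822923) (.two (nat_lit 1048576) (nat_lit 166232856831) (.one (nat_lit 1056279) .nil)))),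
   .two (nat_lit 41943067) (nat_lit 158075977907) (.two (nat_lit 713031688) (nat_lit 10369368818) (.two (nat_lit 1350565892) (nat_lit 20637025858) (.two (nat_lit 612368387) (nat_lit 2353007092) (.two (nat_lit 34603009) (nat_lit 4199557) (.two (nat_lit 1048576) (nat_lit 8395240) (.one (nat_lit 8396920) .nil)))))),
   .two (nat_lit 3464495129) (nat_lit 159251431603) (.two (nat_lit 3464495112) (nat_lit 10504636553) (.two (nat_lit 3525312515) (nat_lit 8392510) (.two (nat_lit 2097153) (nat_lit 8394474) (.two (nat_lit 8388608) (nat_lit 2103785) (.one (nat_lit 2894077792) .nil))))),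
   .two (nat_lit 2954887192) (nat_lit 184549663) (.two (nat_lit 1277165576) (nat_lit 183928619734) (.two (nat_lit 218103814) (nat_lit 47582282546) (.two (nat_lit 83886083) (nat_lit 2418018808) (.two (nat_lit 16777217) (nat_lit 37314631975) (.one (nat_lit 606084936) .nil))))),
   .two (nat_lit 3527409705) (nat_lit 2097532) (.two (nat_lit 3525312520) (nat_lit 46510637754) (.two (nat_lit 46409973764) (nat_lit 10538191050) (.two (nat_lit 1914699779) (nat_lit 158079126760) (.two (nat_lit 41943041) (nat_lit 874517043) (.two (nat_lit 8388608) (nat_lit 2103786) (.one (nat_lit 2105465) .nil)))))),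
   .two (nat_lit 47563407386) (nat_lit 46474985540) (.two (nat_lit 184549384) (nat_lit 21781021818) (.two (nat_lit 272629764) (nat_lit 158176642588) (.two (nat_lit 639631363) (nat_lit 1950353914) (.two (nat_lit 620756993) (nat_lit 272636295) (.one (nat_lit 19532881276) .nil))))),
   .two (nat_lit 16777243) (nat_lit 46978302244) (.two (nat_lit 158144135176) (nat_lit 183928619739) (.two (nat_lit 2969567236) (nat_lit 46508542155) (.two (nat_lit 166130089987) (nat_lit 9948891648) (.two (nat_lit 9768534017) (nat_lit 50338271) (.one (nat_lit 16785531) .nil))))),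
   .two (nat_lit 2969567269) (nat_lit 10940842164) (.two (nat_lit 184549384) (nat_lit 840958669) (.two (nat_lit 184549380) (nat_lit 13188991169) (.two (nat_lit 639631363) (nat_lit 10452210148) (.two (nat_lit 2097152) (nat_lit 18941483386) (.one (nat_lit 16785532) .nil))))),
   .two (nat_lit 47555018778) (nat_lit 174768259379) (.two (nat_lit 13203669000) (nat_lit 10343154481) (.two (nat_lit 184549379) (nat_lit 9974057482) (.two (nat_lit 2097153) (nat_lit 2894076098) (.one (nat_lit 8396925) .nil)))),
   .two (nat_lit 1376780331) (nat_lit 9806283121) (.two (nat_lit 4601151498) (nat_lit 184993972929) (.two (nat_lit 156372041734) (nat_lit 174755677731) (.two (nat_lit 28093448195) (nat_lit 1052479) (.two (nat_lit 41943041) (nat_lit 1053830) (.two (nat_lit 1048576) (nat_lit 8395776) (.one (nat_lit 1056894) .nil)))))),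
   .two (nat_lit 47548727323) (nat_lit 4194489) (.two (nat_lit 13203669000) (nat_lit 3560965698) (.two (nat_lit 272629763) (nat_lit 16781120) (.two (nat_lit 9768534017) (nat_lit 2954893696) (.one (nat_lit 2105471) .nil)))),
   .two (nat_lit 880803879) (nat_lit 19029557553) (.two (nat_lit 1350565896) (nat_lit 174685422326) (.two (nat_lit 276824068) (nat_lit 13224641330) (.two (nat_lit 13195280387) (nat_lit 28089257231) (.two (nat_lit 37748737) (nat_lit 1209014665) (.one (nat_lit 4202624) .nil))))),
   .two (nat_lit 3558866969) (nat_lit 1795162552) (.two (nat_lit 620756996) (nat_lit 136316450) (.two (nat_lit 2954887171) (nat_lit 21827161413) (.two (nat_lit 2097153) (nat_lit 16782471) (.two (nat_lit 2097152) (nat_lit 16784385) (.one (nat_lit 2105473) .nil))))),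
   .two (nat_lit 8388635) (nat_lit 13237223492) (.two (nat_lit 176160776) (nat_lit 21827158752) (.two (nat_lit 612368388) (nat_lit 11544823322) (.two (nat_lit 1746927619) (nat_lit 10343157558) (.two (nat_lit 2097153) (nat_lit 10510930984) (.two (nat_lit 8388608) (nat_lit 9900660929) (.one (nat_lit 16785538) .nil)))))),
   .two (nat_lit 9768534043) (nat_lit 1291846338) (.two (nat_lit 285212676) (nat_lit 28089256437) (.two (nat_lit 16777217) (nat_lit 21781025279) (.two (nat_lit 4194304) (nat_lit 16784386) (.one (nat_lit 4202627) .nil)))),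
   .two (nat_lit 21811429416) (nat_lit 840958138) (.two (nat_lit 1343225864) (nat_lit 19597886191) (.two (nat_lit 20704133125) (nat_lit 2921334341) (.two (nat_lit 158075977731) (nat_lit 35654963) (.two (nat_lit 34603009) (nat_lit 337646024) (.two (nat_lit 16777216) (nat_lit 156466420028) (.one (nat_lit 1056312) .nil)))))),
   .two (nat_lit 158144135193) (nat_lit 9798943038) (.two (nat_lit 28757196808) (nat_lit 102762054) (.two (nat_lit 806354947) (nat_lit 2990542074) (.two (nat_lit 9765388289) (nat_lit 2990543336) (.two (nat_lit 4194304) (nat_lit 1055027) (.one (nat_lit 3524272015) .nil))))),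
   .two (nat_lit 1916796955) (nat_lit 10519314611) (.two (nat_lit 156372041736) (nat_lit 4601152636) (.two (nat_lit 19529728004) (nat_lit 9768537417) (.two (nat_lit 16777217) (nat_lit 21210599987) (.two (nat_lit 1048576) (nat_lit 16784391) (.one (nat_lit 4202629) .nil))))),
   .two (nat_lit 16777240) (nat_lit 12155093287) (.two (nat_lit 16777224) (nat_lit 13228835541) (.two (nat_lit 176160772) (nat_lit 620757809) (.two (nat_lit 8388611) (nat_lit 166144772600) (.two (nat_lit 612368385) (nat_lit 1053832) (.two (nat_lit 1048576) (nat_lit 166203496693) (.one (nat_lit 1056902) .nil)))))),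
   .two (nat_lit 272629784) (nat_lit 19027460415) (.two (nat_lit 3464495112) (nat_lit 10504635091) (.two (nat_lit 46414168068) (nat_lit 166232852033) (.two (nat_lit 3464495107) (nat_lit 158649551364) (.two (nat_lit 4194305) (nat_lit 10336866819) (.two (nat_lit 4194304) (nat_lit 9940507058) (.one (nat_lit 209723227) .nil)))))),
   .two (nat_lit 11618222124) (nat_lit 174755676472) (.two (nat_lit 813694984) (nat_lit 19130221246) (.two (nat_lit 813694980) (nat_lit 166199297569) (.two (nat_lit 8388610) (nat_lit 10506734879) (.two (nat_lit 4194305) (nat_lit 21214794200) (.two (nat_lit 4194304) (nat_lit 158183987446) (.one (nat_lit 4202632) .nil)))))),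
   .two (nat_lit 41943067) (nat_lit 156367847747) (.two (nat_lit 37748744) (nat_lit 46984594128) (.two (nat_lit 11551113220) (nat_lit 166232851999) (.two (nat_lit 713031682) (nat_lit 169872689) (.two (nat_lit 2097153) (nat_lit 813701353) (.one (nat_lit 2105481) .nil))))),
   .two (nat_lit 158075977754) (nat_lit 20644364728) (.two (nat_lit 165532401668) (nat_lit 1779435690) (.two (nat_lit 10343153667) (nat_lit 202378475) (.two (nat_lit 612368385) (nat_lit 806359492) (.two (nat_lit 8388608) (nat_lit 1209014750) (.one (nat_lit 1056313) .nil))))),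
   .two (nat_lit 1343225883) (nat_lit 8388989) (.two (nat_lit 9866051592) (nat_lit 159257723598) (.two (nat_lit 28757196804) (nat_lit 3565159984) (.two (nat_lit 1343225859) (nat_lit 8392513) (.two (nat_lit 605028353) (nat_lit 174759874013) (.two (nat_lit 16777216) (nat_lit 303045398) .nil))))),
   .two (nat_lit 4634705957) (nat_lit 1291845906) (.two (nat_lit 272629768) (nat_lit 12633245229) (.two (nat_lit 4194306) (nat_lit 184552764) (.two (nat_lit 37748737) (nat_lit 1224741378) (.two (nat_lit 4194304) (nat_lit 16783853) (.one (nat_lit 4202634) .nil))))),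
   .two (nat_lit 176160795) (nat_lit 174768259365) (.two (nat_lit 2969567240) (nat_lit 166203491012) (.two (nat_lit 620756996) (nat_lit 10443819521) (.two (nat_lit 41943041) (nat_lit 34607590) (.two (nat_lit 8388608) (nat_lit 16784392) (.one (nat_lit 1056907) .nil))))),
   .two (nat_lit 47548727323) (nat_lit 13203669373) (.two (nat_lit 11543773192) (nat_lit 822084277) (.two (nat_lit 9881780228) (nat_lit 2317354547) (.two (nat_lit 1343225859) (nat_lit 304090420) (.two (nat_lit 605028353) (nat_lit 706746085) (.two (nat_lit 2097152) (nat_lit 1055214) (.one (nat_lit 1056314) .nil)))))),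
   .two (nat_lit 9948889115) (nat_lit 21207449917) (.two (nat_lit 1291845640) (nat_lit 46507492055) (.two (nat_lit 10385096708) (nat_lit 3524266490) (.two (nat_lit 34603009) (nat_lit 742396444) (.two (nat_lit 16777216) (nat_lit 37249620425) (.one (nat_lit 1056908) .nil))))),
   .two (nat_lit 4601151512) (nat_lit 4613734770) (.two (nat_lit 285212680) (nat_lit 1212154554) (.two (nat_lit 21214789636) (nat_lit 50332466) (.two (nat_lit 4194306) (nat_lit 50334193) (.two (nat_lit 37748737) (nat_lit 21793608205) (.two (nat_lit 8388608) (nat_lit 339745001) (.one (nat_lit 4202637) .nil)))))),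
   .two (nat_lit 9866051611) (nat_lit 654311492) (.two (nat_lit 11543773192) (nat_lit 1350567475) (.two (nat_lit 705691650) (nat_lit 8392014) (.two (nat_lit 50331649) (nat_lit 3464501727) (.one (nat_lit 8396943) .nil)))),
   .two (nat_lit 4605345818) (nat_lit 641728693) (.two (nat_lit 12117344264) (nat_lit 9772729083) (.two (nat_lit 11492392966) (nat_lit 12121540151) (.two (nat_lit 721420291) (nat_lit 780143878) (.two (nat_lit 16777217) (nat_lit 12050241755) (.one (nat_lit 4202640) .nil))))),
   .two (nat_lit 11559501848) (nat_lit 184416207316) (.two (nat_lit 12147752974) (nat_lit 183861510944) (.two (nat_lit 185020186629) (nat_lit 117441329) (.two (nat_lit 184986632195) (nat_lit 4043311606) (.two (nat_lit 50331649) (nat_lit 158075984135) (.one (nat_lit 1056913) .nil))))),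
   .two (nat_lit 184993972248) (nat_lit 10537140581) (.two (nat_lit 101711880) (nat_lit 157043131116) (.two (nat_lit 28757196804) (nat_lit 3531605556) (.two (nat_lit 2097155) (nat_lit 3531607316) (.two (nat_lit 34603009) (nat_lit 880809052) (.two (nat_lit 1048576) (nat_lit 8395787) (.one (nat_lit 2921340297) .nil)))))),
   .two (nat_lit 13191086107) (nat_lit 9906946396) (.two (nat_lit 183848927240) (nat_lit 8390272) (.two (nat_lit 13195280390) (nat_lit 1279264285) (.two (nat_lit 13195280387) (nat_lit 9936308727) (.two (nat_lit 41943041) (nat_lit 2956988877) (.two (nat_lit 8388608) (nat_lit 4201484) (.one (nat_lit 4202642) .nil)))))),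
   .two (nat_lit 2969567256) (nat_lit 20738736832) (.two (nat_lit 2954887172) (nat_lit 1291848176) (.two (nat_lit 16777217) (nat_lit 166130096390) (.one (nat_lit 2105491) .nil))),
   .two (nat_lit 159217877019) (nat_lit 158192370431) (.two (nat_lit 165526110212) (nat_lit 1276118567) (.two (nat_lit 1846542339) (nat_lit 3525315820) (.two (nat_lit 9765388289) (nat_lit 46474990033) (.two (nat_lit 2097152) (nat_lit 1055217) (.one (nat_lit 1056916) .nil))))),
   .two (nat_lit 4605345819) (nat_lit 19599983294) (.two (nat_lit 809500676) (nat_lit 156372043287) (.two (nat_lit 4194306) (nat_lit 18933090803) (.two (nat_lit 4194305) (nat_lit 11618227821) (.one (nat_lit 3460308493) .nil)))),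
   .two (nat_lit 889192485) (nat_lit 21214790011) (.two (nat_lit 156968681480) (nat_lit 1780483645) (.two (nat_lit 2894069763) (nat_lit 1191185712) (.two (nat_lit 9766436865) (nat_lit 158176645681) (.two (nat_lit 2097152) (nat_lit 46507497876) (.one (nat_lit 2105494) .nil))))),
   .two (nat_lit 11559501851) (nat_lit 10369368409) (.two (nat_lit 21207449610) (nat_lit 156380431063) (.two (nat_lit 20637024260) (nat_lit 11022632475) (.two (nat_lit 171966467) (nat_lit 10385099251) (.two (nat_lit 4194305) (nat_lit 158183985625) (.two (nat_lit 4194304) (nat_lit 209721563) (.one (nat_lit 880812176) .nil)))))),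
   .two (nat_lit 20705181723) (nat_lit 9866051908) (.two (nat_lit 2961178632) (nat_lit 13222544925) (.two (nat_lit 638582787) (nat_lit 1210060026) (.two (nat_lit 605028353) (nat_lit 706746561) (.one (nat_lit 1056919) .nil)))),
   .two (nat_lit 754974745) (nat_lit 183947493670) (.two (nat_lit 37748744) (nat_lit 3539993334) (.two (nat_lit 822083588) (nat_lit 10003416603) (.two (nat_lit 11492392963) (nat_lit 156569177396) (.two (nat_lit 2097153) (nat_lit 10909389272) (.two (nat_lit 2097152) (nat_lit 4200946) (.one (nat_lit 2105496) .nil)))))),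
   .two (nat_lit 21208498219) (nat_lit 2969567300) (.two (nat_lit 21208498189) (nat_lit 9915335456) (.two (nat_lit 9967763461) (nat_lit 654312241) (.two (nat_lit 9934209027) (nat_lit 1929384590) (.one (nat_lit 16784158) .nil)))),
   .two (nat_lit 306184218) (nat_lit 4613734725) (.two (nat_lit 9781116936) (nat_lit 3560964803) (.two (nat_lit 654311428) (nat_lit 19597887627) (.two (nat_lit 1344274435) (nat_lit 16781123) (.two (nat_lit 4194305) (nat_lit 9867104769) (.two (nat_lit 2097152) (nat_lit 4200947) (.one (nat_lit 2105497) .nil)))))),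
   .two (nat_lit 8388634) (nat_lit 772800860) (.two (nat_lit 8388616) (nat_lit 1276117714) (.two (nat_lit 41943044) (nat_lit 10506733118) (.two (nat_lit 183848927234) (nat_lit 1853884932) (.two (nat_lit 156367847425) (nat_lit 9940506967) (.one (nat_lit 8396954) .nil))))),
   .two (nat_lit 46474985513) (nat_lit 4194686) (.two (nat_lit 9940500488) (nat_lit 3558867642) (.two (nat_lit 4601151492) (nat_lit 3021997607) (.two (nat_lit 46978301955) (nat_lit 156472707588) (.two (nat_lit 8388609) (nat_lit 20740837897) (.two (nat_lit 8388608) (nat_lit 2104333) (.one (nat_lit 2104891) .nil)))))),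
   .two (nat_lit 3028287531) (nat_lit 620757060) (.two (nat_lit 3464495112) (nat_lit 10519315146) (.two (nat_lit 3464495108) (nat_lit 28705819128) (.two (nat_lit 8388609) (nat_lit 12129930717) (.two (nat_lit 8388608) (nat_lit 16783861) (.one (nat_lit 8396228) .nil))))),
   .two (nat_lit 4605345816) (nat_lit 13224640786) (.two (nat_lit 46409973768) (nat_lit 4605346485) (.two (nat_lit 18933088260) (nat_lit 1051305) (.two (nat_lit 46409973762) (nat_lit 8392015) (.two (nat_lit 156367847425) (nat_lit 1053833) (.two (nat_lit 1048576) (nat_lit 272636230) (.one (nat_lit 4202651) .nil)))))),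
   .two (nat_lit 184986632218) (nat_lit 12155093175) (.two (nat_lit 10343153672) (nat_lit 183946445515) (.two (nat_lit 184986632196) (nat_lit 46414170317) (.two (nat_lit 705691650) (nat_lit 157043133674) (.two (nat_lit 8388609) (nat_lit 1053834) (.two (nat_lit 8388608) (nat_lit 1055222) (.one (nat_lit 1056924) .nil)))))),
   .two (nat_lit 306184235) (nat_lit 174759870813) (.two (nat_lit 2889875464) (nat_lit 46481277671) (.two (nat_lit 203423748) (nat_lit 19033753782) (.two (nat_lit 2889875458) (nat_lit 3028290891) (.two (nat_lit 2097153) (nat_lit 156976028071) (.one (nat_lit 8396957) .nil))))),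
   .two (nat_lit 16777240) (nat_lit 1417675191) (.two (nat_lit 16777220) (nat_lit 10510927384) (.two (nat_lit 16777218) (nat_lit 28697432551) (.two (nat_lit 8388608) (nat_lit 16784398) (.one (nat_lit 41950669) .nil)))),
   .two (nat_lit 2988441627) (nat_lit 159266111556) (.two (nat_lit 4028629001) (nat_lit 2936013515) (.two (nat_lit 3458203652) (nat_lit 2969568050) (.two (nat_lit 165526110211) (nat_lit 788531704) (.two (nat_lit 2097153) (nat_lit 19109252573) (.two (nat_lit 4194304) (nat_lit 9934215433) (.one (nat_lit 2105502) .nil)))))),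
   .two (nat_lit 4605345817) (nat_lit 28705816868) (.two (nat_lit 83886088) (nat_lit 10376708825) (.two (nat_lit 28087156740) (nat_lit 11517560356) (.two (nat_lit 20638072834) (nat_lit 1795164672) (.two (nat_lit 606076929) (nat_lit 8393867) (.two (nat_lit 16777216) (nat_lit 11578382516) (.one (nat_lit 2105503) .nil)))))),
   .two (nat_lit 742391833) (nat_lit 705691829) (.two (nat_lit 742391816) (nat_lit 2953839364) (.two (nat_lit 4605345796) (nat_lit 2987395268) (.two (nat_lit 713031682) (nat_lit 4198212) (.two (nat_lit 605028353) (nat_lit 4200173) (.two (nat_lit 1048576) (nat_lit 4201487) (.one (nat_lit 4202656) .nil)))))),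
   .two (nat_lit 2954887192) (nat_lit 209715492) (.two (nat_lit 11479810056) (nat_lit 184987682330) (.two (nat_lit 11479810050) (nat_lit 159217880347) (.two (nat_lit 2097153) (nat_lit 185023336994) (.two (nat_lit 4194304) (nat_lit 606083418) (.one (nat_lit 2105505) .nil))))),
   .two (nat_lit 1291845657) (nat_lit 184987680950) (.two (nat_lit 1291845640) (nat_lit 136315632) (.two (nat_lit 9766436868) (nat_lit 4613736633) (.two (nat_lit 620756995) (nat_lit 2100560) (.two (nat_lit 620756993) (nat_lit 1954550256) (.two (nat_lit 2097152) (nat_lit 8395792) (.one (nat_lit 2105506) .nil)))))),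
   .two (nat_lit 11492392986) (nat_lit 176161072) (.two (nat_lit 166130089992) (nat_lit 1317012274) (.two (nat_lit 10504634371) (nat_lit 183861512698) (.two (nat_lit 620756993) (nat_lit 807408164) (.two (nat_lit 2097152) (nat_lit 165532408239) (.one (nat_lit 2105507) .nil))))),
   .two (nat_lit 16777240) (nat_lit 10942939320) (.two (nat_lit 285212680) (nat_lit 37316724279) (.two (nat_lit 16777218) (nat_lit 156971830600) (.two (nat_lit 605028353) (nat_lit 28760347737) (.two (nat_lit 1048576) (nat_lit 1950357867) (.one (nat_lit 1056932) .nil))))),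
   .two (nat_lit 11479810075) (nat_lit 183920230695) (.two (nat_lit 272629768) (nat_lit 18933088959) (.two (nat_lit 4194308) (nat_lit 3028290035) (.two (nat_lit 37748737) (nat_lit 37253812712) (.two (nat_lit 1048576) (nat_lit 185027533032) (.one (nat_lit 1056933) .nil))))),
   .two (nat_lit 9948889126) (nat_lit 9766437243) (.two (nat_lit 285212680) (nat_lit 9867100904) (.two (nat_lit 606076932) (nat_lit 16778033) (.two (nat_lit 69206019) (nat_lit 19109251597) (.two (nat_lit 2097153) (nat_lit 1950356017) (.two (nat_lit 2097152) (nat_lit 9936312656) (.one (nat_lit 2104897) .nil)))))),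
   .two (nat_lit 721420313) (nat_lit 21214789816) (.two (nat_lit 721420296) (nat_lit 9873393187) (.two (nat_lit 8388610) (nat_lit 50334195) (.two (nat_lit 8388609) (nat_lit 3539997206) (.two (nat_lit 1048576) (nat_lit 276830474) (.one (nat_lit 352329482) .nil))))),
   .two (nat_lit 12163481644) (nat_lit 638582970) (.two (nat_lit 822083592) (nat_lit 205521634) (.two (nat_lit 4194308) (nat_lit 50332465) (.two (nat_lit 171966467) (nat_lit 11022633477) (.two (nat_lit 605028353) (nat_lit 159219978804) (.two (nat_lit 1048576) (nat_lit 1224744303) .nil))))),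
   .two (nat_lit 12620660762) (nat_lit 1048883) (.two (nat_lit 3539992584) (nat_lit 19599983031) (.two (nat_lit 184419352580) (nat_lit 1050834) (.two (nat_lit 12117344259) (nat_lit 156465368373) (.two (nat_lit 37748737) (nat_lit 873468359) (.two (nat_lit 1048576) (nat_lit 3472890351) (.one (nat_lit 1056934) .nil)))))),
   .two (nat_lit 12150898713) (nat_lit 2902458655) (.two (nat_lit 184549384) (nat_lit 4599055896) (.two (nat_lit 16777219) (nat_lit 184417258802) (.two (nat_lit 16777217) (nat_lit 46984598657) (.two (nat_lit 2097152) (nat_lit 11546925362) (.one (nat_lit 157043138472) .nil))))),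
   .two (nat_lit 47548727322) (nat_lit 1410334905) (.two (nat_lit 47548727304) (nat_lit 19134416414) (.two (nat_lit 169869314) (nat_lit 166136384822) (.two (nat_lit 2097153) (nat_lit 20711477804) (.two (nat_lit 2097152) (nat_lit 8395259) (.one (nat_lit 2105511) .nil))))),
   .two (nat_lit 183949590553) (nat_lit 8389091) (.two (nat_lit 9866051592) (nat_lit 156468511423) (.two (nat_lit 1749024772) (nat_lit 159216829989) (.two (nat_lit 1343225859) (nat_lit 16780626) (.two (nat_lit 9765388289) (nat_lit 28772930596) (.two (nat_lit 1048576) (nat_lit 9814677690) (.one (nat_lit 1056936) .nil)))))),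
   .two (nat_lit 285212697) (nat_lit 4632609068) (.two (nat_lit 285212680) (nat_lit 1377829608) (.two (nat_lit 9781116932) (nat_lit 270534177) (.two (nat_lit 16777219) (nat_lit 174692764967) (.two (nat_lit 16777217) (nat_lit 11007955475) (.two (nat_lit 16777216) (nat_lit 166136387936) (.one (nat_lit 8396969) .nil)))))),
   .two (nat_lit 8388632) (nat_lit 270532789) (.two (nat_lit 176160776) (nat_lit 11477713668) (.two (nat_lit 2961178628) (nat_lit 159251432979) (.two (nat_lit 176160770) (nat_lit 1914703087) (.two (nat_lit 612368385) (nat_lit 839914546) (.two (nat_lit 1048576) (nat_lit 8395793) (.one (nat_lit 19026419182) .nil)))))),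
   .two (nat_lit 639631387) (nat_lit 46422556981) (.two (nat_lit 1277165576) (nat_lit 2961180197) (.two (nat_lit 83886083) (nat_lit 3022000603) (.two (nat_lit 16777216) (nat_lit 159217883403) (.one (nat_lit 2105071) .nil)))),
   .two (nat_lit 310378534) (nat_lit 4634705988) (.two (nat_lit 183853121544) (nat_lit 20707279593) (.two (nat_lit 12054429700) (nat_lit 1051306) (.two (nat_lit 3531603971) (nat_lit 20707282740) (.two (nat_lit 37748737) (nat_lit 1053836) (.two (nat_lit 1048576) (nat_lit 4201490) (.one (nat_lit 1056938) .nil)))))),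
   .two (nat_lit 272629786) (nat_lit 1962934596) (.two (nat_lit 117440520) (nat_lit 184417257972) (.two (nat_lit 50331649) (nat_lit 203428386) (.two (nat_lit 16777216) (nat_lit 1310726365) (.one (nat_lit 2105515) .nil)))),
   .two (nat_lit 4030726187) (nat_lit 673185860) (.two (nat_lit 4601151496) (nat_lit 2098322) (.two (nat_lit 20637024260) (nat_lit 169871549) (.two (nat_lit 2956984323) (nat_lit 185021239032) (.two (nat_lit 4194305) (nat_lit 156465370149) (.two (nat_lit 1048576) (nat_lit 1950357697) (.one (nat_lit 9866059197) .nil)))))),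
   .two (nat_lit 3527409690) (nat_lit 12048138531) (.two (nat_lit 203423752) (nat_lit 742392562) (.two (nat_lit 9766436868) (nat_lit 11580475896) (.two (nat_lit 2097153) (nat_lit 184989782502) (.two (nat_lit 2097152) (nat_lit 1413486992) (.one (nat_lit 2105516) .nil))))),
   .two (nat_lit 272629784) (nat_lit 12618563932) (.two (nat_lit 4605345800) (nat_lit 4601152225) (.two (nat_lit 28087156740) (nat_lit 9902754308) (.two (nat_lit 50331649) (nat_lit 10336866784) (.two (nat_lit 16777216) (nat_lit 2103804) (.one (nat_lit 4202670) .nil))))),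
   .two (nat_lit 75497499) (nat_lit 705692018) (.two (nat_lit 654311432) (nat_lit 9866052402) (.two (nat_lit 285212675) (nat_lit 37253810682) (.two (nat_lit 9781116929) (nat_lit 21214794207) (.two (nat_lit 16777216) (nat_lit 2424314245) (.one (nat_lit 2432703985) .nil))))),
   .two (nat_lit 8388632) (nat_lit 1849688248) (.two (nat_lit 9866051592) (nat_lit 679477991) (.two (nat_lit 276824068) (nat_lit 205522498) (.two (nat_lit 2894069763) (nat_lit 166199299888) (.two (nat_lit 9765388289) (nat_lit 142612784) (.one (nat_lit 1056943) .nil))))),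
   .two (nat_lit 8388632) (nat_lit 9781117216) (.two (nat_lit 713031688) (nat_lit 28101837566) (.two (nat_lit 16777220) (nat_lit 343933745) (.two (nat_lit 16777218) (nat_lit 713034250) (.two (nat_lit 50331649) (nat_lit 183920235006) (.two (nat_lit 16777216) (nat_lit 75503995) (.one (nat_lit 11544830008) .nil)))))),
   .two (nat_lit 780140571) (nat_lit 184416207196) (.two (nat_lit 822083592) (nat_lit 10007610161) (.two (nat_lit 16777218) (nat_lit 156976025052) (.two (nat_lit 8388608) (nat_lit 1343232245) (.one (nat_lit 1056944) .nil)))),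
   .two (nat_lit 4605345819) (nat_lit 10336862387) (.two (nat_lit 46414168072) (nat_lit 37262197497) (.two (nat_lit 1291845638) (nat_lit 158144137354) (.two (nat_lit 1291845635) (nat_lit 12618567474) (.two (nat_lit 2097153) (nat_lit 11584672276) (.two (nat_lit 2097152) (nat_lit 11551119694) (.one (nat_lit 8396977) .nil)))))),
   .two (nat_lit 184549418) (nat_lit 1782579578) (.two (nat_lit 218103816) (nat_lit 21210596093) (.two (nat_lit 10519314436) (nat_lit 306185010) (.two (nat_lit 21785214979) (nat_lit 156984412660) (.two (nat_lit 2097153) (nat_lit 183928623577) (.two (nat_lit 2097152) (nat_lit 8395261) (.one (nat_lit 8396978) .nil)))))),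
   .two (nat_lit 4601151514) (nat_lit 13237223772) (.two (nat_lit 4194312) (nat_lit 3573549212) (.two (nat_lit 171966467) (nat_lit 3539995902) (.two (nat_lit 4194305) (nat_lit 1862276156) (.two (nat_lit 4194304) (nat_lit 2365594566) (.one (nat_lit 2365595606) .nil))))),
   .two (nat_lit 183912890413) (nat_lit 13191086449) (.two (nat_lit 158083317768) (nat_lit 2886731292) (.two (nat_lit 20644364290) (nat_lit 11006904820) (.two (nat_lit 156372041729) (nat_lit 28690094386) (.one (nat_lit 1056947) .nil)))),
   .two (nat_lit 46510637081) (nat_lit 1411383617) (.two (nat_lit 9940500488) (nat_lit 159251432121) (.two (nat_lit 46978301956) (nat_lit 165528209554) (.two (nat_lit 3527409667) (nat_lit 2101063) (.two (nat_lit 156367847425) (nat_lit 2994737718) (.two (nat_lit 2097152) (nat_lit 4201492) (.one (nat_lit 4202676) .nil)))))),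
   .two (nat_lit 21208498202) (nat_lit 158662132081) (.two (nat_lit 9781116936) (nat_lit 12115247847) (.two (nat_lit 742391812) (nat_lit 158662133303) (.two (nat_lit 157038936067) (nat_lit 2101065) (.two (nat_lit 9768534017) (nat_lit 2101789) (.two (nat_lit 1048576) (nat_lit 35658059) (.one (nat_lit 4202678) .nil)))))),
   .two (nat_lit 159251431451) (nat_lit 1795162552) (.two (nat_lit 620756996) (nat_lit 1746930165) (.two (nat_lit 16777217) (nat_lit 35656133) (.two (nat_lit 2097152) (nat_lit 16783870) (.one (nat_lit 2104902) .nil)))),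
   .two (nat_lit 47588573220) (nat_lit 159251431492) (.two (nat_lit 184986632202) (nat_lit 847250131) (.two (nat_lit 46984593412) (nat_lit 136317088) (.two (nat_lit 10343153667) (nat_lit 2920286710) (.two (nat_lit 34603009) (nat_lit 9934213673) (.two (nat_lit 1048576) (nat_lit 47582288251) (.one (nat_lit 605036406) .nil)))))),
   .two (nat_lit 11559501850) (nat_lit 1049060) (.two (nat_lit 1358954504) (nat_lit 166203491047) (.two (nat_lit 10369368068) (nat_lit 251659831) (.two (nat_lit 1276116994) (nat_lit 8392019) (.two (nat_lit 9766436865) (nat_lit 158176645681) (.two (nat_lit 2097152) (nat_lit 1055231) (.one (nat_lit 2105527) .nil)))))),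
   .two (nat_lit 184549417) (nat_lit 19604177266) (.two (nat_lit 16777224) (nat_lit 20644364728) (.two (nat_lit 285212676) (nat_lit 156472707239) (.two (nat_lit 612368387) (nat_lit 1795165500) (.two (nat_lit 9768534017) (nat_lit 10955527288) (.two (nat_lit 4194304) (nat_lit 813701362) (.one (nat_lit 8396984) .nil)))))),
   .two (nat_lit 185020186664) (nat_lit 46984593778) (.two (nat_lit 4194312) (nat_lit 10007609784) (.two (nat_lit 104857604) (nat_lit 2987395590) (.two (nat_lit 37748737) (nat_lit 2424312313) (.two (nat_lit 4194304) (nat_lit 8395801) (.one (nat_lit 4202683) .nil))))),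
   .two (nat_lit 16777240) (nat_lit 4605346485) (.two (nat_lit 83886084) (nat_lit 166203492497) (.two (nat_lit 176160771) (nat_lit 19042143509) (.two (nat_lit 16777217) (nat_lit 8394480) (.two (nat_lit 16777216) (nat_lit 8395802) (.one (nat_lit 8396547) .nil))))),
   .two (nat_lit 1417674792) (nat_lit 4601151556) (.two (nat_lit 75497480) (nat_lit 641729226) (.two (nat_lit 75497476) (nat_lit 11513365298) (.two (nat_lit 612368387) (nat_lit 47584381435) (.two (nat_lit 41943041) (nat_lit 156569179752) (.one (nat_lit 4202056) .nil))))),
   .two (nat_lit 159217877019) (nat_lit 1761608121) (.two (nat_lit 20638072836) (nat_lit 10351543876) (.two (nat_lit 159217876995) (nat_lit 158091708931) (.two (nat_lit 605028353) (nat_lit 19128127947) (.two (nat_lit 1048576) (nat_lit 1277172017) (.one (nat_lit 3558874917) .nil))))),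
   .two (nat_lit 1417674792) (nat_lit 2902458635) (.two (nat_lit 75497480) (nat_lit 654313969) (.two (nat_lit 41943041) (nat_lit 721426835) (.one (nat_lit 713039350) .nil))),
   .two (nat_lit 11492393004) (nat_lit 12620661041) (.two (nat_lit 16777224) (nat_lit 10510926551) (.two (nat_lit 272629764) (nat_lit 251659825) (.two (nat_lit 4194306) (nat_lit 13195283787) (.two (nat_lit 37748737) (nat_lit 9873396225) (.two (nat_lit 8388608) (nat_lit 4201499) (.one (nat_lit 8396989) .nil)))))),
   .two (nat_lit 184549401) (nat_lit 183853122240) (.two (nat_lit 184549380) (nat_lit 20644366526) (.two (nat_lit 8388610) (nat_lit 16780628) (.two (nat_lit 8388609) (nat_lit 16782477) (.two (nat_lit 8388608) (nat_lit 16784412) (.one (nat_lit 8396990) .nil))))),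
   .two (nat_lit 11543773211) (nat_lit 1350566213) (.two (nat_lit 2887778312) (nat_lit 37320917782) (.two (nat_lit 169869316) (nat_lit 13195282929) (.two (nat_lit 606076929) (nat_lit 10906243545) (.two (nat_lit 2097152) (nat_lit 1055773) (.one (nat_lit 165525069212) .nil))))),
   .two (nat_lit 272629786) (nat_lit 847249476) (.two (nat_lit 37748744) (nat_lit 2424308451) (.two (nat_lit 3464495108) (nat_lit 1849689648) (.two (nat_lit 46414168066) (nat_lit 12620664131) (.two (nat_lit 8388609) (nat_lit 4200177) (.two (nat_lit 4194304) (nat_lit 8395264) (.one (nat_lit 4202687) .nil)))))),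
   .two (nat_lit 4601151514) (nat_lit 156481093979) (.two (nat_lit 13224640522) (nat_lit 150995673) (.two (nat_lit 285212676) (nat_lit 2923430706) (.two (nat_lit 4194306) (nat_lit 16781130) (.two (nat_lit 156372041729) (nat_lit 104862193) (.two (nat_lit 8388608) (nat_lit 205527234) (.one (nat_lit 4202688) .nil)))))),
   .two (nat_lit 9967763483) (nat_lit 156380430638) (.two (nat_lit 156372041736) (nat_lit 102762025) (.two (nat_lit 11484004355) (nat_lit 2365590760) (.two (nat_lit 8388609) (nat_lit 9867104769) (.two (nat_lit 8388608) (nat_lit 2103810) (.one (nat_lit 16785601) .nil))))),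
   .two (nat_lit 47582281770) (nat_lit 156481093944) (.two (nat_lit 47563407368) (nat_lit 9967763895) (.two (nat_lit 2969567236) (nat_lit 740296220) (.two (nat_lit 3458203651) (nat_lit 11006906146) (.two (nat_lit 606076929) (nat_lit 1054451) (.two (nat_lit 2097152) (nat_lit 2969573767) (.one (nat_lit 2105538) .nil)))))),
   .two (nat_lit 10436476953) (nat_lit 9799991662) (.two (nat_lit 1277165576) (nat_lit 19529728753) (.two (nat_lit 159217876996) (nat_lit 158653744679) (.two (nat_lit 746586115) (nat_lit 156968684864) (.two (nat_lit 41943041) (nat_lit 185021240420) (.two (nat_lit 8388608) (nat_lit 2103812) (.one (nat_lit 2104907) .nil)))))),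
   .two (nat_lit 16777242) (nat_lit 46514831669) (.two (nat_lit 16777224) (nat_lit 847250132) (.two (nat_lit 9940500484) (nat_lit 721422835) (.two (nat_lit 37748737) (nat_lit 11551119713) (.one (nat_lit 16785603) .nil)))),
   .two (nat_lit 2969567256) (nat_lit 28087156917) (.two (nat_lit 1291845640) (nat_lit 9867100868) (.two (nat_lit 46978301956) (nat_lit 12163483172) (.two (nat_lit 3525312515) (nat_lit 16781131) (.two (nat_lit 2097153) (nat_lit 285217903) (.two (nat_lit 2097152) (nat_lit 1795168566) (.one (nat_lit 2988449144) .nil)))))),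
   .two (nat_lit 37313577003) (nat_lit 158177689979) (.two (nat_lit 639631368) (nat_lit 1358955264) (.two (nat_lit 47563407364) (nat_lit 46474986290) (.two (nat_lit 184549378) (nat_lit 672140585) (.two (nat_lit 16777217) (nat_lit 10537144818) (.two (nat_lit 16777216) (nat_lit 2103814) (.one (nat_lit 2105540) .nil)))))),
   .two (nat_lit 3525312536) (nat_lit 68157621) (.two (nat_lit 166130089992) (nat_lit 28086109305) (.two (nat_lit 3458203652) (nat_lit 1050835) (.two (nat_lit 1276116994) (nat_lit 12148805428) (.two (nat_lit 9766436865) (nat_lit 12147758205) (.two (nat_lit 2097152) (nat_lit 12147759580) (.one (nat_lit 2105541) .nil)))))),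
   .two (nat_lit 4601151512) (nat_lit 1224737042) (.two (nat_lit 156367847432) (nat_lit 1277166356) (.two (nat_lit 2969567236) (nat_lit 10942940720) (.two (nat_lit 1847590915) (nat_lit 1279265269) (.two (nat_lit 606076929) (nat_lit 4601156137) (.two (nat_lit 2097152) (nat_lit 843061627) (.one (nat_lit 2105544) .nil)))))),
   .two (nat_lit 12117344282) (nat_lit 12617515290) (.two (nat_lit 12047089672) (nat_lit 3460301514) (.two (nat_lit 12047089668) (nat_lit 12117345074) (.two (nat_lit 1779433475) (nat_lit 2990541304) (.two (nat_lit 156367847425) (nat_lit 1343231025) (.two (nat_lit 1048576) (nat_lit 4200967) (.one (nat_lit 1056969) .nil)))))),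
   .two (nat_lit 8388632) (nat_lit 158075977907) (.two (nat_lit 1350565896) (nat_lit 11510219472) (.two (nat_lit 276824068) (nat_lit 13224641330) (.two (nat_lit 8388610) (nat_lit 1913655046) (.two (nat_lit 41943041) (nat_lit 12150903350) (.two (nat_lit 1048576) (nat_lit 8395809) (.one (nat_lit 1056970) .nil)))))),
   .two (nat_lit 721420313) (nat_lit 10007609783) (.two (nat_lit 176160772) (nat_lit 28705818150) (.two (nat_lit 8388611) (nat_lit 183928622416) (.two (nat_lit 8388609) (nat_lit 156984414695) (.two (nat_lit 8388608) (nat_lit 16784418) (.one (nat_lit 8397003) .nil))))),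
   .two (nat_lit 174688567334) (nat_lit 158144135450) (.two (nat_lit 174688567306) (nat_lit 2098323) (.two (nat_lit 19530776580) (nat_lit 156569174833) (.two (nat_lit 50331651) (nat_lit 2921335284) (.two (nat_lit 50331649) (nat_lit 673190423) (.two (nat_lit 16777216) (nat_lit 2103816) (.one (nat_lit 16784972) .nil)))))),
   .two (nat_lit 721420315) (nat_lit 8388927) (.two (nat_lit 11551113224) (nat_lit 1862272546) (.two (nat_lit 176160771) (nat_lit 2887781603) (.two (nat_lit 8388609) (nat_lit 2103031) (.two (nat_lit 2097152) (nat_lit 16784419) (.one (nat_lit 2105548) .nil))))),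
   .two (nat_lit 1745879067) (nat_lit 109052272) (.two (nat_lit 28772925448) (nat_lit 37313579148) (.two (nat_lit 9881780227) (nat_lit 185020189966) (.two (nat_lit 605028353) (nat_lit 8394488) (.two (nat_lit 1048576) (nat_lit 16784420) (.one (nat_lit 16785613) .nil))))),
   .two (nat_lit 2969567258) (nat_lit 9967763834) (.two (nat_lit 2969567240) (nat_lit 46508541059) (.two (nat_lit 9967763461) (nat_lit 16779476) (.two (nat_lit 9934209027) (nat_lit 183962176825) (.two (nat_lit 606076929) (nat_lit 13237228044) (.two (nat_lit 2097152) (nat_lit 16784421) (.one (nat_lit 2104910) .nil)))))),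
   .two (nat_lit 11513364506) (nat_lit 352321885) (.two (nat_lit 10519314440) (nat_lit 608174840) (.two (nat_lit 21214789636) (nat_lit 50332466) (.two (nat_lit 809500675) (nat_lit 50334193) (.two (nat_lit 8388609) (nat_lit 2990543343) (.two (nat_lit 8388608) (nat_lit 4200970) (.one (nat_lit 4202702) .nil)))))),
   .two (nat_lit 4030726170) (nat_lit 673186494) (.two (nat_lit 2954887172) (nat_lit 641730094) (.two (nat_lit 2887778306) (nat_lit 21814577666) (.two (nat_lit 9766436865) (nat_lit 1279267318) (.two (nat_lit 2097152) (nat_lit 4200971) (.one (nat_lit 4202703) .nil))))),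
   .two (nat_lit 20738736153) (nat_lit 8389095) (.two (nat_lit 28772925448) (nat_lit 672137657) (.two (nat_lit 10385096708) (nat_lit 10906241530) (.two (nat_lit 50331649) (nat_lit 1053839) (.two (nat_lit 1048576) (nat_lit 10921973946) (.one (nat_lit 16785616) .nil))))),
   .two (nat_lit 10436476953) (nat_lit 16777600) (.two (nat_lit 620757000) (nat_lit 101714052) (.two (nat_lit 806354947) (nat_lit 721424942) (.two (nat_lit 2097152) (nat_lit 1055244) (.one (nat_lit 269491586) .nil)))),
   .two (nat_lit 9768534043) (nat_lit 10385097144) (.two (nat_lit 83886084) (nat_lit 104860160) (.two (nat_lit 50331649) (nat_lit 13224645167) (.two (nat_lit 16777216) (nat_lit 4201510) (.one (nat_lit 4202705) .nil)))),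
   .two (nat_lit 20638072859) (nat_lit 28697428697) (.two (nat_lit 2961178628) (nat_lit 2887779906) (.two (nat_lit 209715203) (nat_lit 2101070) (.two (nat_lit 606076929) (nat_lit 1350571141) (.two (nat_lit 2097152) (nat_lit 1343232488) (.one (nat_lit 1056978) .nil))))),
   .two (nat_lit 184986632218) (nat_lit 10343153843) (.two (nat_lit 156372041736) (nat_lit 13221495491) (.two (nat_lit 18933088262) (nat_lit 28757198372) (.two (nat_lit 705691650) (nat_lit 1182797025) (.two (nat_lit 8388609) (nat_lit 9798949070) (.one (nat_lit 1056979) .nil))))),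
   .two (nat_lit 1277165595) (nat_lit 9881780560) (.two (nat_lit 2954887176) (nat_lit 2353004984) (.two (nat_lit 606076932) (nat_lit 1954547850) (.two (nat_lit 169869314) (nat_lit 176164658) (.two (nat_lit 156367847425) (nat_lit 166245438567) (.two (nat_lit 4194304) (nat_lit 8395815) (.one (nat_lit 822091693) .nil)))))),
   .two (nat_lit 285212696) (nat_lit 46984593878) (.two (nat_lit 41943048) (nat_lit 2902459186) (.two (nat_lit 16777218) (nat_lit 4605348337) (.two (nat_lit 16777217) (nat_lit 21785219637) (.two (nat_lit 4194304) (nat_lit 620763317) (.one (nat_lit 16785621) .nil))))),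
   .two (nat_lit 11492392985) (nat_lit 2097640) (.two (nat_lit 2954887176) (nat_lit 11492393400) (.two (nat_lit 10385096708) (nat_lit 9900657159) (.two (nat_lit 37748737) (nat_lit 2102416) (.two (nat_lit 1048576) (nat_lit 9802095063) (.one (nat_lit 9802096171) .nil))))),
   .two (nat_lit 157038936105) (nat_lit 157036839091) (.two (nat_lit 9948889096) (nat_lit 4028629432) (.two (nat_lit 19532873732) (nat_lit 2099413) (.two (nat_lit 19599982595) (nat_lit 69209313) (.two (nat_lit 9768534017) (nat_lit 203430107) (.one (nat_lit 16785622) .nil))))),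
   .two (nat_lit 156569174056) (nat_lit 9806282820) (.two (nat_lit 9768534024) (nat_lit 1350566602) (.two (nat_lit 9768534020) (nat_lit 46414168882) (.two (nat_lit 166132187139) (nat_lit 1853884930) (.two (nat_lit 4194305) (nat_lit 176166494) (.one (nat_lit 8396368) .nil))))),
   .two (nat_lit 4634705962) (nat_lit 19537068412) (.two (nat_lit 37748744) (nat_lit 184993972922) (.two (nat_lit 4601151492) (nat_lit 3531605556) (.two (nat_lit 46980399107) (nat_lit 10001322550) (.two (nat_lit 4194304) (nat_lit 2103822) (.one (nat_lit 2105560) .nil))))),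
   .two (nat_lit 184993972268) (nat_lit 10003415419) (.two (nat_lit 184993972232) (nat_lit 184989778686) (.two (nat_lit 3460300804) (nat_lit 183853123774) (.two (nat_lit 183853121538) (nat_lit 13221498081) (.two (nat_lit 9765388289) (nat_lit 183953789441) (.two (nat_lit 1048576) (nat_lit 4201513) (.one (nat_lit 4202713) .nil)))))),
   .two (nat_lit 1847590956) (nat_lit 2969567300) (.two (nat_lit 28758245384) (nat_lit 11525949942) (.two (nat_lit 606076929) (nat_lit 12163487337) (.one (nat_lit 16785626) .nil))),
   .two (nat_lit 9866051610) (nat_lit 69206197) (.two (nat_lit 12117344264) (nat_lit 9798943439) (.two (nat_lit 205520900) (nat_lit 2099414) (.two (nat_lit 47550824451) (nat_lit 2101072) (.two (nat_lit 605028353) (nat_lit 2103034) (.two (nat_lit 2097152) (nat_lit 739252712) (.one (nat_lit 2105563) .nil)))))),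
   .two (nat_lit 158144135195) (nat_lit 158646403351) (.two (nat_lit 9866051592) (nat_lit 2887779022) (.two (nat_lit 1846542340) (nat_lit 35653147) (.two (nat_lit 166129041410) (nat_lit 4632613394) (.two (nat_lit 2097152) (nat_lit 1055247) (.one (nat_lit 1056988) .nil))))),
   .two (nat_lit 46414168091) (nat_lit 159217877810) (.two (nat_lit 46414168067) (nat_lit 156532476417) (.two (nat_lit 8388609) (nat_lit 10001323139) (.two (nat_lit 8388608) (nat_lit 2988448175) (.one (nat_lit 8397022) .nil)))),
   .two (nat_lit 9934209051) (nat_lit 708837558) (.two (nat_lit 1277165576) (nat_lit 171967171) (.two (nat_lit 10370416644) (nat_lit 159253530798) (.two (nat_lit 639631363) (nat_lit 339741936) (.two (nat_lit 9766436865) (nat_lit 13224645166) (.two (nat_lit 2097152) (nat_lit 4200976) (.one (nat_lit 2105567) .nil)))))),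
   .two (nat_lit 272629784) (nat_lit 310378564) (.two (nat_lit 272629768) (nat_lit 813695729) (.two (nat_lit 4194308) (nat_lit 20711475351) (.two (nat_lit 4194306) (nat_lit 10443820292) (.two (nat_lit 156364701697) (nat_lit 10003419657) (.two (nat_lit 4194304) (nat_lit 1055249) (.one (nat_lit 1056992) .nil)))))),
   .two (nat_lit 46477082650) (nat_lit 2954887236) (.two (nat_lit 742391816) (nat_lit 46977254122) (.two (nat_lit 21777874948) (nat_lit 2988443830) (.two (nat_lit 28693233667) (nat_lit 3458207043) (.two (nat_lit 9765388289) (nat_lit 183846834662) (.two (nat_lit 1048576) (nat_lit 2104364) (.one (nat_lit 2105569) .nil)))))),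
   .two (nat_lit 272629784) (nat_lit 102760629) (.two (nat_lit 37748744) (nat_lit 343933625) (.two (nat_lit 20644364292) (nat_lit 1914701362) (.two (nat_lit 183853121538) (nat_lit 158647455043) (.two (nat_lit 4194305) (nat_lit 8395048) (.one (nat_lit 2105570) .nil))))),
   .two (nat_lit 809500699) (nat_lit 713032037) (.two (nat_lit 11479810056) (nat_lit 28798092025) (.two (nat_lit 18933088262) (nat_lit 1312818714) (.two (nat_lit 18933088259) (nat_lit 28089257267) (.two (nat_lit 2097153) (nat_lit 184989783159) (.two (nat_lit 2097152) (nat_lit 205527383) (.one (nat_lit 185021243473) .nil)))))),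
   .two (nat_lit 272629784) (nat_lit 1291845919) (.two (nat_lit 2889875464) (nat_lit 855638742) (.two (nat_lit 654311430) (nat_lit 13224641329) (.two (nat_lit 9948889091) (nat_lit 4601154804) (.two (nat_lit 620756993) (nat_lit 2889881198) (.one (nat_lit 9781125226) .nil))))),
   .two (nat_lit 47548727323) (nat_lit 4638900594) (.two (nat_lit 813694984) (nat_lit 185023334597) (.two (nat_lit 46407876610) (nat_lit 47588577059) (.two (nat_lit 4194305) (nat_lit 2103036) (.two (nat_lit 4194304) (nat_lit 8395822) (.one (nat_lit 2105571) .nil))))),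
   .two (nat_lit 654311465) (nat_lit 158146232502) (.two (nat_lit 37748744) (nat_lit 9814673911) (.two (nat_lit 2097153) (nat_lit 2956988906) (.two (nat_lit 16777216) (nat_lit 158146238864) (.one (nat_lit 4202724) .nil)))),
   .two (nat_lit 16777284) (nat_lit 41943345) (.two (nat_lit 16777240) (nat_lit 1954546436) (.two (nat_lit 50331656) (nat_lit 12121540137) (.two (nat_lit 1753219076) (nat_lit 742394356) (.two (nat_lit 2889875458) (nat_lit 285217301) (.two (nat_lit 41943041) (nat_lit 822089930) (.two (nat_lit 4194304) (nat_lit 8396215) (.one (nat_lit 4202824) .nil))))))),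
   .two (nat_lit 620757060) (nat_lit 310378564) (.two (nat_lit 16777240) (nat_lit 10947134175) (.two (nat_lit 721420296) (nat_lit 11610884596) (.two (nat_lit 2894069763) (nat_lit 184554000) (.two (nat_lit 41943041) (nat_lit 705698578) (.one (nat_lit 739254509) .nil))))),
   .two (nat_lit 2969567300) (nat_lit 9799991592) (.two (nat_lit 2969567256) (nat_lit 166197199584) (.two (nat_lit 37748744) (nat_lit 620758547) (.two (nat_lit 2902458372) (nat_lit 46508542452) (.two (nat_lit 4194306) (nat_lit 620761621) (.two (nat_lit 4194305) (nat_lit 10385103050) (.two (nat_lit 4194304) (nat_lit 2887785237) (.one (nat_lit 2889883890) .nil))))))),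
   .two (nat_lit 285212740) (nat_lit 10001318067) (.two (nat_lit 285212696) (nat_lit 1410335159) (.two (nat_lit 4194312) (nat_lit 1358956686) (.two (nat_lit 2969567236) (nat_lit 11543775744) (.two (nat_lit 705691650) (nat_lit 10506736069) (.two (nat_lit 4194305) (nat_lit 69212360) (.two (nat_lit 1048576) (nat_lit 641736023) (.one (nat_lit 202383593) .nil))))))),
   .two (nat_lit 352321604) (nat_lit 18933088435) (.two (nat_lit 847249435) (nat_lit 21223178975) (.two (nat_lit 83886088) (nat_lit 10007611530) (.two (nat_lit 10343153669) (nat_lit 1276119540) (.two (nat_lit 156372041731) (nat_lit 3557822937) (.two (nat_lit 34603009) (nat_lit 2961185554) (.one (nat_lit 1343234297) .nil)))))),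
   .two (nat_lit 1384120388) (nat_lit 9798942901) (.two (nat_lit 3539992601) (nat_lit 11614028574) (.two (nat_lit 184993972232) (nat_lit 13187941915) (.two (nat_lit 1350565892) (nat_lit 336595460) (.two (nat_lit 158091706371) (nat_lit 1053222) (.two (nat_lit 41943041) (nat_lit 1055037) (.two (nat_lit 4194304) (nat_lit 1056184) (.one (nat_lit 1057097) .nil))))))),
   .two (nat_lit 9781116996) (nat_lit 13191086148) (.two (nat_lit 2902458395) (nat_lit 1312817947) (.two (nat_lit 37748744) (nat_lit 16778771) (.two (nat_lit 9781116932) (nat_lit 12115249656) (.two (nat_lit 183848927235) (nat_lit 304091682) (.two (nat_lit 2097153) (nat_lit 9781123274) (.two (nat_lit 2097152) (nat_lit 742398741) (.one (nat_lit 69214498) .nil))))))),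
   .two (nat_lit 4647288900) (nat_lit 19599982771) (.two (nat_lit 184419352602) (nat_lit 10552869601) (.two (nat_lit 28086108168) (nat_lit 9936307738) (.two (nat_lit 28086108164) (nat_lit 11580476689) (.two (nat_lit 171966467) (nat_lit 50336272) (.two (nat_lit 605028353) (nat_lit 641735442) (.one (nat_lit 1779441944) .nil)))))),
   .two (nat_lit 9781116996) (nat_lit 47584379061) (.two (nat_lit 11559501848) (nat_lit 2886730457) (.two (nat_lit 1191182344) (nat_lit 10372515355) (.two (nat_lit 117440516) (nat_lit 9869199876) (.two (nat_lit 11543773187) (nat_lit 50336277) (.two (nat_lit 4194305) (nat_lit 605034767) (.two (nat_lit 1048576) (nat_lit 4201947) (.one (nat_lit 4202858) .nil))))))),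
   .two (nat_lit 2961178649) (nat_lit 639632125) (.two (nat_lit 184549380) (nat_lit 19027462280) (.two (nat_lit 176160771) (nat_lit 1376784910) (.two (nat_lit 1048576) (nat_lit 158653749572) (.one (nat_lit 1056745) .nil)))),
   .two (nat_lit 3527409689) (nat_lit 3525312580) (.two (nat_lit 3525312520) (nat_lit 4030727716) (.two (nat_lit 739246083) (nat_lit 807408102) (.two (nat_lit 1048576) (nat_lit 2103696) (.one (nat_lit 2105768) .nil)))),
   .two (nat_lit 13195280427) (nat_lit 1212154179) (.two (nat_lit 272629768) (nat_lit 8391196) (.two (nat_lit 156581756934) (nat_lit 166199298572) (.two (nat_lit 41943041) (nat_lit 4200148) (.two (nat_lit 8388608) (nat_lit 4202080) (.one (nat_lit 8397225) .nil))))),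
   .two (nat_lit 672137261) (nat_lit 807404308) (.two (nat_lit 1745879044) (nat_lit 10001320452) (.two (nat_lit 8388609) (nat_lit 166196154821) (.two (nat_lit 1048576) (nat_lit 2104277) (.one (nat_lit 1057194) .nil)))),
   .two (nat_lit 2349858854) (nat_lit 47563408159) (.two (nat_lit 28757196804) (nat_lit 1358955314) (.two (nat_lit 1276116994) (nat_lit 1358957041) (.two (nat_lit 605028353) (nat_lit 754981165) (.one (nat_lit 1056768) .nil)))),
   .two (nat_lit 3558866989) (nat_lit 16777587) (.two (nat_lit 46407876617) (nat_lit 889193195) (.two (nat_lit 19532873734) (nat_lit 1344275997) (.two (nat_lit 18928893955) (nat_lit 12618568756) (.two (nat_lit 4194304) (nat_lit 2103713) (.one (nat_lit 2105771) .nil))))),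
   .two (nat_lit 4613734425) (nat_lit 813695734) (.two (nat_lit 75497476) (nat_lit 1310723859) (.two (nat_lit 41943041) (nat_lit 1310725215) (.two (nat_lit 1048576) (nat_lit 2104929) (.one (nat_lit 1057196) .nil)))),
   .two (nat_lit 183949590568) (nat_lit 788529859) (.two (nat_lit 11479810052) (nat_lit 3573550401) (.two (nat_lit 9768534017) (nat_lit 3573554580) .nil)),
   .two (nat_lit 184549401) (nat_lit 13195280737) (.two (nat_lit 9781116936) (nat_lit 104858328) (.two (nat_lit 176160772) (nat_lit 37752128) (.two (nat_lit 4194305) (nat_lit 16784161) (.two (nat_lit 8388608) (nat_lit 4202082) (.one (nat_lit 4202925) .nil))))),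
   .two (nat_lit 19599982628) (nat_lit 142606673) (.two (nat_lit 4605345800) (nat_lit 166132187829) (.two (nat_lit 272629764) (nat_lit 8392177) (.two (nat_lit 8388610) (nat_lit 2956987669) (.two (nat_lit 4194305) (nat_lit 8395554) (.two (nat_lit 4194304) (nat_lit 8396387) (.one (nat_lit 4202502) .nil)))))),
   .two (nat_lit 285212696) (nat_lit 1916797211) (.two (nat_lit 19599982600) (nat_lit 166211879627) (.two (nat_lit 19532873732) (nat_lit 159232559247) (.two (nat_lit 9768534019) (nat_lit 10921970920) (.two (nat_lit 37748737) (nat_lit 16782449) (.two (nat_lit 4194304) (nat_lit 16784343) (.one (nat_lit 4202327) .nil)))))),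
   .two (nat_lit 272629784) (nat_lit 37262197049) (.two (nat_lit 9781116936) (nat_lit 20640170694) (.two (nat_lit 1795162116) (nat_lit 158079125027) (.two (nat_lit 4194306) (nat_lit 16782007) (.two (nat_lit 16777217) (nat_lit 4200150) (.two (nat_lit 16777216) (nat_lit 4201432) (.one (nat_lit 4202887) .nil)))))),
   .two (nat_lit 9974054939) (nat_lit 156533522500) (.two (nat_lit 3525312520) (nat_lit 75498223) (.two (nat_lit 3525312516) (nat_lit 47588575367) (.two (nat_lit 2887778306) (nat_lit 11584671021) (.two (nat_lit 2097153) (nat_lit 8393814) (.two (nat_lit 2097152) (nat_lit 8395738) (.one (nat_lit 8397230) .nil)))))),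
   .two (nat_lit 4601151514) (nat_lit 3565158756) (.two (nat_lit 41943048) (nat_lit 46977254094) (.two (nat_lit 276824068) (nat_lit 11010050200) (.two (nat_lit 183853121539) (nat_lit 11543776565) (.two (nat_lit 8388609) (nat_lit 1055663) (.one (nat_lit 1057199) .nil))))),
   .two (nat_lit 3558866989) (nat_lit 641728808) (.two (nat_lit 11559501832) (nat_lit 4195966) (.two (nat_lit 183962173446) (nat_lit 28693235222) (.two (nat_lit 721420291) (nat_lit 4198185) (.two (nat_lit 2097153) (nat_lit 4200152) (.two (nat_lit 2097152) (nat_lit 4202084) (.one (nat_lit 4202928) .nil)))))),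
   .two (nat_lit 9899606041) (nat_lit 1210057445) (.two (nat_lit 158075977732) (nat_lit 165526112452) (.two (nat_lit 101711875) (nat_lit 1210060000) (.two (nat_lit 605028353) (nat_lit 1210061330) (.two (nat_lit 1048576) (nat_lit 2103721) (.one (nat_lit 2105777) .nil))))),
   .two (nat_lit 276824089) (nat_lit 156569174291) (.two (nat_lit 276824072) (nat_lit 156569174712) (.two (nat_lit 68157444) (nat_lit 243271233) (.two (nat_lit 1916796931) (nat_lit 46407880003) (.two (nat_lit 2097153) (nat_lit 183845786130) (.two (nat_lit 1048576) (nat_lit 2104287) (.one (nat_lit 1056783) .nil)))))),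
   .two (nat_lit 9974054939) (nat_lit 166230753553) (.two (nat_lit 10370416648) (nat_lit 20640170731) (.two (nat_lit 847249414) (nat_lit 37750338) (.two (nat_lit 708837379) (nat_lit 8392490) (.two (nat_lit 4194305) (nat_lit 10001323085) (.two (nat_lit 2097152) (nat_lit 4201440) (.one (nat_lit 8397234) .nil)))))),
   .two (nat_lit 184993972251) (nat_lit 28757197101) (.two (nat_lit 16777224) (nat_lit 183953785601) (.two (nat_lit 183845781508) (nat_lit 2323646662) (.two (nat_lit 270532611) (nat_lit 2432699670) (.two (nat_lit 2097153) (nat_lit 12633248856) (.two (nat_lit 1048576) (nat_lit 69213106) (.one (nat_lit 2105189) .nil)))))),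
   .two (nat_lit 13191086107) (nat_lit 780140868) (.two (nat_lit 184993972232) (nat_lit 156535620732) (.two (nat_lit 18933088260) (nat_lit 9936308729) (.two (nat_lit 41943041) (nat_lit 4199539) (.two (nat_lit 8388608) (nat_lit 16784997) (.one (nat_lit 174768266627) .nil))))),
   .two (nat_lit 12117344326) (nat_lit 158143086893) (.two (nat_lit 4194312) (nat_lit 9948889856) (.two (nat_lit 68157444) (nat_lit 606078501) (.two (nat_lit 171966467) (nat_lit 21223181594) (.two (nat_lit 4194305) (nat_lit 235937197) .nil)))),
   .two (nat_lit 705691673) (nat_lit 156539814203) (.two (nat_lit 4194312) (nat_lit 47588573934) (.two (nat_lit 12054429700) (nat_lit 28758247559) (.two (nat_lit 3531603971) (nat_lit 21210597876) (.two (nat_lit 8388609) (nat_lit 12147758161) (.two (nat_lit 4194304) (nat_lit 4605352234) (.one (nat_lit 2105779) .nil)))))),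
   .two (nat_lit 2969567275) (nat_lit 2887778488) (.two (nat_lit 1745879048) (nat_lit 4632609485) (.two (nat_lit 1277165574) (nat_lit 158662135264) (.two (nat_lit 4194304) (nat_lit 11022638571) .nil))),
   .two (nat_lit 285212708) (nat_lit 20644364572) (.two (nat_lit 285212680) (nat_lit 20644365090) (.two (nat_lit 8388612) (nat_lit 1426066697) (.two (nat_lit 41943041) (nat_lit 16783065) (.two (nat_lit 8388608) (nat_lit 16784354) (.one (nat_lit 8396817) .nil))))),
   .two (nat_lit 3527409689) (nat_lit 20638073167) (.two (nat_lit 2887778312) (nat_lit 19532874430) (.two (nat_lit 2887778308) (nat_lit 2319451681) (.two (nat_lit 2097155) (nat_lit 47584382760) (.two (nat_lit 2097153) (nat_lit 28693238900) (.two (nat_lit 1048576) (nat_lit 2104934) (.one (nat_lit 1056786) .nil)))))),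
   .two (nat_lit 721420314) (nat_lit 19100860718) (.two (nat_lit 1350565896) (nat_lit 50332466) (.two (nat_lit 8388610) (nat_lit 1279265268) (.two (nat_lit 8388609) (nat_lit 4199541) (.two (nat_lit 1048576) (nat_lit 4202087) (.one (nat_lit 1057204) .nil))))),
   .two (nat_lit 156569174056) (nat_lit 606077298) (.two (nat_lit 10506731528) (nat_lit 47582283286) (.two (nat_lit 11559501827) (nat_lit 156969734649) (.two (nat_lit 2097152) (nat_lit 4202088) (.one (nat_lit 2105781) .nil)))),
   .two (nat_lit 318767130) (nat_lit 183953786406) (.two (nat_lit 270532611) (nat_lit 12121541949) (.two (nat_lit 50331649) (nat_lit 185021242878) .nil)),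
   .two (nat_lit 46980399146) (nat_lit 2097631) (.two (nat_lit 46407876616) (nat_lit 9802088887) (.two (nat_lit 46407876612) (nat_lit 1950353917) (.two (nat_lit 2097153) (nat_lit 185023336922) (.two (nat_lit 1048576) (nat_lit 2103733) (.one (nat_lit 1056797) .nil))))),
   .two (nat_lit 4194330) (nat_lit 46992983583) (.two (nat_lit 2097155) (nat_lit 4199096) (.two (nat_lit 2097153) (nat_lit 4200155) (.two (nat_lit 1048576) (nat_lit 840965017) (.one (nat_lit 1057206) .nil)))),
   .two (nat_lit 11584667674) (nat_lit 21811429648) (.two (nat_lit 4194312) (nat_lit 21785215672) (.two (nat_lit 12114198532) (nat_lit 10544482470) (.two (nat_lit 3464495107) (nat_lit 10503589179) (.two (nat_lit 4194305) (nat_lit 1054428) (.two (nat_lit 1048576) (nat_lit 4202089) (.one (nat_lit 1057207) .nil)))))),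
   .two (nat_lit 20644364313) (nat_lit 174685421885) (.two (nat_lit 1929379848) (nat_lit 18925749014) (.two (nat_lit 880803846) (nat_lit 184431937076) (.two (nat_lit 41943043) (nat_lit 16781099) (.two (nat_lit 34603009) (nat_lit 75503970) (.one (nat_lit 8396832) .nil))))),
   .two (nat_lit 843055149) (nat_lit 165525062363) (.two (nat_lit 13224640518) (nat_lit 12047091237) (.two (nat_lit 270532611) (nat_lit 12150902518) (.two (nat_lit 37748737) (nat_lit 2987397575) (.two (nat_lit 1048576) (nat_lit 2350913798) (.one (nat_lit 1056802) .nil))))),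
   .two (nat_lit 46477082650) (nat_lit 174753579188) (.two (nat_lit 159217877000) (nat_lit 18925748965) (.two (nat_lit 1276116996) (nat_lit 2099878) (.two (nat_lit 2954887171) (nat_lit 1052461) (.two (nat_lit 2097153) (nat_lit 1054429) (.two (nat_lit 1048576) (nat_lit 2104938) (.one (nat_lit 1057208) .nil)))))),
   .two (nat_lit 1291845677) (nat_lit 8389088) (.two (nat_lit 8388616) (nat_lit 10385098260) (.two (nat_lit 50331651) (nat_lit 3028292115) (.two (nat_lit 8388608) (nat_lit 16785003) (.one (nat_lit 8396837) .nil)))),
   .two (nat_lit 2994733093) (nat_lit 156567077045) (.two (nat_lit 3464495112) (nat_lit 11611931379) (.two (nat_lit 10940841988) (nat_lit 166203491900) (.two (nat_lit 4599054339) (nat_lit 10007611889) (.two (nat_lit 2097153) (nat_lit 813700143) (.two (nat_lit 1048576) (nat_lit 2104296) (.one (nat_lit 8396838) .nil)))))),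
   .two (nat_lit 679477275) (nat_lit 706740979) (.two (nat_lit 10336862212) (nat_lit 3531606182) (.two (nat_lit 165526110211) (nat_lit 713035072) (.two (nat_lit 2097153) (nat_lit 20644370640) (.one (nat_lit 9934216689) .nil)))),
   .two (nat_lit 166197198875) (nat_lit 156465365271) (.two (nat_lit 46407876616) (nat_lit 18933088962) (.two (nat_lit 612368388) (nat_lit 740296888) (.two (nat_lit 176160770) (nat_lit 1052462) (.two (nat_lit 2097153) (nat_lit 8394425) (.two (nat_lit 2097152) (nat_lit 8396685) .nil))))),
   .two (nat_lit 184419352614) (nat_lit 10436477108) (.two (nat_lit 19599982600) (nat_lit 605029082) (.two (nat_lit 28086108164) (nat_lit 2956985887) (.two (nat_lit 809500675) (nat_lit 9966718760) (.two (nat_lit 37748737) (nat_lit 1276122215) (.two (nat_lit 1048576) (nat_lit 2889883028) .nil))))),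
   .two (nat_lit 1847590937) (nat_lit 46992982333) (.two (nat_lit 620757000) (nat_lit 184987681484) (.two (nat_lit 2969567236) (nat_lit 9799992898) (.two (nat_lit 184549378) (nat_lit 2101040) (.two (nat_lit 156367847425) (nat_lit 304092863) (.two (nat_lit 4194304) (nat_lit 19142809896) (.one (nat_lit 2105385) .nil)))))),
   .two (nat_lit 75497516) (nat_lit 721420994) (.two (nat_lit 1846542340) (nat_lit 11525950691) (.two (nat_lit 9765388289) (nat_lit 8394982) (.one (nat_lit 1056810) .nil))),
   .two (nat_lit 2954887194) (nat_lit 2902458655) (.two (nat_lit 2954887176) (nat_lit 1392509654) (.two (nat_lit 10385096710) (nat_lit 28087158304) (.two (nat_lit 203423747) (nat_lit 159266116657) (.two (nat_lit 2097152) (nat_lit 16783806) (.one (nat_lit 2105391) .nil))))),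
   .two (nat_lit 46980399129) (nat_lit 11544821942) (.two (nat_lit 4601151496) (nat_lit 2953839333) (.two (nat_lit 272629764) (nat_lit 12148804255) (.two (nat_lit 156971827203) (nat_lit 2887781699) (.two (nat_lit 37748737) (nat_lit 1054403) (.two (nat_lit 1048576) (nat_lit 2104300) (.one (nat_lit 2105392) .nil)))))),
   .two (nat_lit 19130220587) (nat_lit 3472884040) (.two (nat_lit 822083592) (nat_lit 28693235222) (.two (nat_lit 272629763) (nat_lit 117443057) (.two (nat_lit 4194305) (nat_lit 16781877) (.two (nat_lit 4194304) (nat_lit 16784365) (.one (nat_lit 1950358992) .nil))))),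
   .two (nat_lit 28758245403) (nat_lit 3539993053) (.two (nat_lit 9948889096) (nat_lit 1847592470) (.two (nat_lit 270532611) (nat_lit 11492396348) (.two (nat_lit 34603009) (nat_lit 169875698) (.one (nat_lit 2105393) .nil)))),
   .two (nat_lit 83886120) (nat_lit 1947205811) (.two (nat_lit 83886088) (nat_lit 1947206071) (.two (nat_lit 83886084) (nat_lit 3457156637) (.two (nat_lit 11476664322) (nat_lit 1279265274) (.two (nat_lit 50331649) (nat_lit 159250387437) (.two (nat_lit 1048576) (nat_lit 4201454) (.one (nat_lit 4202546) .nil)))))),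
   .two (nat_lit 11007950918) (nat_lit 10372514149) (.two (nat_lit 50331656) (nat_lit 2956985081) (.two (nat_lit 822083588) (nat_lit 156971828018) (.two (nat_lit 708837379) (nat_lit 1224740070) (.two (nat_lit 4194305) (nat_lit 10504638959) (.two (nat_lit 2097152) (nat_lit 46422563246) (.one (nat_lit 2104862) .nil)))))),
   .two (nat_lit 2969567258) (nat_lit 2097633) (.two (nat_lit 157038936072) (nat_lit 16779805) (.two (nat_lit 11479810054) (nat_lit 9948891633) (.two (nat_lit 37748737) (nat_lit 654316645) (.two (nat_lit 2097152) (nat_lit 16783807) (.one (nat_lit 9967771593) .nil))))),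
   .two (nat_lit 9948889124) (nat_lit 20738736467) (.two (nat_lit 713031688) (nat_lit 2953839312) (.two (nat_lit 16777220) (nat_lit 166203492520) (.two (nat_lit 713031682) (nat_lit 806358311) (.two (nat_lit 16777217) (nat_lit 20745032193) (.two (nat_lit 1048576) (nat_lit 8396704) .nil))))),
   .two (nat_lit 46980399129) (nat_lit 168820922) (.two (nat_lit 184416206856) (nat_lit 156468511865) (.two (nat_lit 203423750) (nat_lit 156535621824) (.two (nat_lit 34603011) (nat_lit 4199097) (.two (nat_lit 2097153) (nat_lit 1054430) (.two (nat_lit 1048576) (nat_lit 2104940) (.one (nat_lit 1057209) .nil)))))),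
   .two (nat_lit 11626610726) (nat_lit 46414168351) (.two (nat_lit 620757000) (nat_lit 11551113942) (.two (nat_lit 343932933) (nat_lit 1358956055) (.two (nat_lit 4605345795) (nat_lit 185002364682) (.two (nat_lit 8388609) (nat_lit 46422561219) (.two (nat_lit 2097152) (nat_lit 183920238028) .nil))))),
   .two (nat_lit 4605345817) (nat_lit 1346372025) (.two (nat_lit 4605345796) (nat_lit 2990540351) (.two (nat_lit 8388610) (nat_lit 4197703) (.two (nat_lit 9765388289) (nat_lit 713036832) (.two (nat_lit 1048576) (nat_lit 4201455) (.one (nat_lit 235937638) .nil))))),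
   .two (nat_lit 46980399129) (nat_lit 19027460276) (.two (nat_lit 19532873741) (nat_lit 1862272142) (.two (nat_lit 46978301956) (nat_lit 4196555) (.two (nat_lit 721420291) (nat_lit 2101946) (.two (nat_lit 2097153) (nat_lit 4200159) (.two (nat_lit 2097152) (nat_lit 4202093) (.one (nat_lit 2105786) .nil)))))),
   .two (nat_lit 184549401) (nat_lit 809500740) (.two (nat_lit 184549384) (nat_lit 1317012592) (.two (nat_lit 184549380) (nat_lit 4030727745) (.two (nat_lit 285212675) (nat_lit 4634709296) (.two (nat_lit 156372041729) (nat_lit 37262201382) (.two (nat_lit 2097152) (nat_lit 8395761) (.one (nat_lit 8396856) .nil)))))),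
   .two (nat_lit 272629786) (nat_lit 847249476) (.two (nat_lit 37748744) (nat_lit 13195281939) (.two (nat_lit 46414168066) (nat_lit 2319453491) (.two (nat_lit 2097153) (nat_lit 8394464) (.two (nat_lit 2097152) (nat_lit 156372048773) (.one (nat_lit 8397243) .nil))))),
   .two (nat_lit 2969567268) (nat_lit 13221495082) (.two (nat_lit 285212680) (nat_lit 1209008846) (.two (nat_lit 721420292) (nat_lit 873466360) (.two (nat_lit 50331649) (nat_lit 10000273916) (.two (nat_lit 8388608) (nat_lit 2349866520) .nil)))),
   .two (nat_lit 236978201) (nat_lit 1317011804) (.two (nat_lit 50331656) (nat_lit 12048138981) (.two (nat_lit 50331652) (nat_lit 20638075046) (.two (nat_lit 721420291) (nat_lit 235932154) (.two (nat_lit 41943041) (nat_lit 185021240428) (.two (nat_lit 2097152) (nat_lit 9873398698) (.one (nat_lit 1056831) .nil)))))),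
   .two (nat_lit 4194329) (nat_lit 13195280657) (.two (nat_lit 4194312) (nat_lit 13195281080) (.two (nat_lit 10506731524) (nat_lit 10443819679) (.two (nat_lit 12054429699) (nat_lit 239078723) (.two (nat_lit 2097153) (nat_lit 8395555) (.two (nat_lit 1048576) (nat_lit 2104942) (.one (nat_lit 47584387120) .nil)))))),
   .two (nat_lit 4028629017) (nat_lit 4598005943) (.two (nat_lit 101711880) (nat_lit 166197200507) (.two (nat_lit 158077026308) (nat_lit 1745881240) (.two (nat_lit 171966467) (nat_lit 2101947) (.two (nat_lit 37748737) (nat_lit 1846548165) (.two (nat_lit 1048576) (nat_lit 2104943) (.one (nat_lit 4202562) .nil)))))),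
   .two (nat_lit 46510637081) (nat_lit 2317353701) (.two (nat_lit 9940500484) (nat_lit 2100722) (.two (nat_lit 4601151491) (nat_lit 158077028852) (.two (nat_lit 2097153) (nat_lit 4199545) (.two (nat_lit 2097152) (nat_lit 4202096) (.one (nat_lit 4202940) .nil))))),
   .two (nat_lit 159257722925) (nat_lit 28758245815) (.two (nat_lit 641728516) (nat_lit 3021997637) (.two (nat_lit 2889875458) (nat_lit 13188991489) (.two (nat_lit 4194305) (nat_lit 18926801443) (.two (nat_lit 2097152) (nat_lit 156535625938) (.one (nat_lit 2104869) .nil))))),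
   .two (nat_lit 19530776619) (nat_lit 11546919222) (.two (nat_lit 1191182344) (nat_lit 47581234314) (.two (nat_lit 3460300804) (nat_lit 11492395187) (.two (nat_lit 2097155) (nat_lit 46992985384) (.two (nat_lit 4194305) (nat_lit 11477717458) (.two (nat_lit 1048576) (nat_lit 1279269093) (.one (nat_lit 2105789) .nil)))))),
   .two (nat_lit 47596961834) (nat_lit 20738736413) (.two (nat_lit 21207449608) (nat_lit 102761172) (.two (nat_lit 46978301956) (nat_lit 28705819875) (.two (nat_lit 2097153) (nat_lit 166129046628) (.two (nat_lit 1048576) (nat_lit 788535622) (.one (nat_lit 10939801429) .nil))))),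
   .two (nat_lit 166230753319) (nat_lit 1049058) (.two (nat_lit 20737687561) (nat_lit 3558867762) (.two (nat_lit 158075977731) (nat_lit 2350910744) (.two (nat_lit 2097153) (nat_lit 1054440) (.two (nat_lit 2097152) (nat_lit 1056369) (.one (nat_lit 1056878) .nil))))),
   .two (nat_lit 318767146) (nat_lit 272630095) (.two (nat_lit 2902458376) (nat_lit 159253529342) (.two (nat_lit 21214789636) (nat_lit 1344277801) (.two (nat_lit 2097153) (nat_lit 3560968737) (.two (nat_lit 2097152) (nat_lit 16784380) (.one (nat_lit 2104879) .nil))))),
   .two (nat_lit 156971827272) (nat_lit 28690088275) (.two (nat_lit 19596836872) (nat_lit 11546921151) (.two (nat_lit 184986632195) (nat_lit 159253533217) (.two (nat_lit 1048576) (nat_lit 1178606518) (.one (nat_lit 18925755866) .nil)))),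
   .two (nat_lit 9781116968) (nat_lit 2921333032) (.two (nat_lit 9781116936) (nat_lit 1210057447) (.two (nat_lit 606076932) (nat_lit 16779471) (.two (nat_lit 169869314) (nat_lit 16781114) (.two (nat_lit 2097153) (nat_lit 4199552) (.two (nat_lit 2097152) (nat_lit 4202098) (.one (nat_lit 4202608) .nil)))))),
   .two (nat_lit 754974765) (nat_lit 28089254195) (.two (nat_lit 754974734) (nat_lit 28760343277) (.two (nat_lit 11492392966) (nat_lit 158079125016) (.two (nat_lit 184549379) (nat_lit 4634710562) (.two (nat_lit 16777216) (nat_lit 4202531) .nil)))),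
   .two (nat_lit 11007950875) (nat_lit 21207449780) (.two (nat_lit 1846542344) (nat_lit 807405714) (.two (nat_lit 184549378) (nat_lit 2101948) (.two (nat_lit 620756993) (nat_lit 1053825) (.two (nat_lit 1048576) (nat_lit 2103777) (.one (nat_lit 1056881) .nil))))),
   .two (nat_lit 156465365017) (nat_lit 156971827905) (.two (nat_lit 11479810052) (nat_lit 3457156668) (.two (nat_lit 11479810050) (nat_lit 1052475) (.two (nat_lit 37748737) (nat_lit 1053826) (.two (nat_lit 1048576) (nat_lit 4202099) (.one (nat_lit 1056882) .nil))))),
   .two (nat_lit 183853121581) (nat_lit 20719862049) (.two (nat_lit 183853121544) (nat_lit 16778879) (.two (nat_lit 880803846) (nat_lit 16779472) (.two (nat_lit 41943043) (nat_lit 1325402616) (.two (nat_lit 41943041) (nat_lit 20753420809) (.two (nat_lit 8388608) (nat_lit 16783842) (.one (nat_lit 16785854) .nil)))))),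
   .two (nat_lit 12617515049) (nat_lit 13203669302) (.two (nat_lit 2887778312) (nat_lit 11559502527) (.two (nat_lit 739246084) (nat_lit 3021999419) (.two (nat_lit 34603009) (nat_lit 706745454) (.two (nat_lit 1048576) (nat_lit 1411389720) (.one (nat_lit 2105461) .nil))))),
   .two (nat_lit 8388632) (nat_lit 285212948) (.two (nat_lit 285212680) (nat_lit 156364702137) (.two (nat_lit 16777220) (nat_lit 21818771000) (.two (nat_lit 50331651) (nat_lit 8392508) (.two (nat_lit 50331649) (nat_lit 8395556) (.two (nat_lit 16777216) (nat_lit 8396404) (.one (nat_lit 1057215) .nil)))))),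
   .two (nat_lit 673185832) (nat_lit 876610281) (.two (nat_lit 10336862212) (nat_lit 3527410482) (.two (nat_lit 165526110211) (nat_lit 708840719) (.two (nat_lit 2097153) (nat_lit 4199522) (.two (nat_lit 2097152) (nat_lit 4201469) (.one (nat_lit 4202944) .nil))))),
   .two (nat_lit 721420314) (nat_lit 4605345860) (.two (nat_lit 721420296) (nat_lit 109052703) (.two (nat_lit 8388612) (nat_lit 12129929728) (.two (nat_lit 41943041) (nat_lit 28772930025) (.two (nat_lit 8388608) (nat_lit 16784382) (.one (nat_lit 8397249) .nil))))),
   .two (nat_lit 12114198554) (nat_lit 3527409940) (.two (nat_lit 4194312) (nat_lit 46414168764) (.two (nat_lit 713031684) (nat_lit 1051304) (.two (nat_lit 184993972227) (nat_lit 1053373) (.two (nat_lit 37748737) (nat_lit 1054441) (.two (nat_lit 1048576) (nat_lit 4202101) (.one (nat_lit 4202946) .nil)))))),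
   .two (nat_lit 243269659) (nat_lit 21208498878) (.two (nat_lit 50331652) (nat_lit 20644365845) (.two (nat_lit 18926796803) (nat_lit 10343157520) (.two (nat_lit 2097153) (nat_lit 9873398054) (.one (nat_lit 2105795) .nil)))),
   .two (nat_lit 1947205675) (nat_lit 185035915332) (.two (nat_lit 1947205645) (nat_lit 9982444227) (.two (nat_lit 1947205638) (nat_lit 46992983587) (.two (nat_lit 1343225859) (nat_lit 304091671) (.two (nat_lit 1048576) (nat_lit 9814677691) (.one (nat_lit 2105466) .nil))))),
   .two (nat_lit 16777241) (nat_lit 37253808310) (.two (nat_lit 176160776) (nat_lit 37247517416) (.two (nat_lit 21208498180) (nat_lit 9873394925) (.two (nat_lit 2097153) (nat_lit 8394475) (.two (nat_lit 2097152) (nat_lit 8395779) (.one (nat_lit 8397252) .nil))))),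
   .two (nat_lit 3527409689) (nat_lit 19027460378) (.two (nat_lit 3527409672) (nat_lit 19027460797) (.two (nat_lit 37748740) (nat_lit 3036678339) (.two (nat_lit 46978301955) (nat_lit 1178602747) (.two (nat_lit 50331649) (nat_lit 19530783008) (.one (nat_lit 156466421454) .nil))))),
   .two (nat_lit 306184265) (nat_lit 4647288900) (.two (nat_lit 11479810056) (nat_lit 10452207159) (.two (nat_lit 11479810050) (nat_lit 10369370612) (.two (nat_lit 34603009) (nat_lit 16783084) (.two (nat_lit 4194304) (nat_lit 1055748) (.one (nat_lit 1057221) .nil))))),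
   .two (nat_lit 4601151514) (nat_lit 310378863) (.two (nat_lit 4605345800) (nat_lit 156535621156) (.two (nat_lit 28093448195) (nat_lit 21210599160) (.two (nat_lit 41943041) (nat_lit 12150905111) (.one (nat_lit 4202950) .nil)))),
   .two (nat_lit 4605345835) (nat_lit 2936013092) (.two (nat_lit 620757000) (nat_lit 11551113942) (.two (nat_lit 343932933) (nat_lit 2936016146) (.two (nat_lit 8388609) (nat_lit 4043313603) (.two (nat_lit 2097152) (nat_lit 183920236886) (.one (nat_lit 8396932) .nil))))),
   .two (nat_lit 20644364328) (nat_lit 37247516968) (.two (nat_lit 2961178632) (nat_lit 174686470847) (.two (nat_lit 46407876612) (nat_lit 18933090511) (.two (nat_lit 46407876610) (nat_lit 18933092154) (.two (nat_lit 605028353) (nat_lit 156365755520) (.two (nat_lit 2097152) (nat_lit 1055749) (.one (nat_lit 18925756528) .nil)))))),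
   .two (nat_lit 218103834) (nat_lit 1849688771) (.two (nat_lit 218103812) (nat_lit 156569174833) (.two (nat_lit 169869314) (nat_lit 158079126776) (.two (nat_lit 2097153) (nat_lit 184989782498) (.two (nat_lit 2097152) (nat_lit 4200940) (.one (nat_lit 4202951) .nil))))),
   .two (nat_lit 12054429721) (nat_lit 1950352074) (.two (nat_lit 12054429700) (nat_lit 11546921467) (.two (nat_lit 8388609) (nat_lit 2956988898) (.two (nat_lit 8388608) (nat_lit 4201478) (.one (nat_lit 4202952) .nil)))),
   .two (nat_lit 16777240) (nat_lit 28798091566) (.two (nat_lit 176160776) (nat_lit 158662133298) (.two (nat_lit 176160770) (nat_lit 1276120317) (.two (nat_lit 34603009) (nat_lit 10007615189) (.two (nat_lit 1048576) (nat_lit 343940991) .nil)))),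
   .two (nat_lit 4601151515) (nat_lit 185002361302) (.two (nat_lit 285212680) (nat_lit 2956985050) (.two (nat_lit 10343153668) (nat_lit 1950353913) (.two (nat_lit 8388609) (nat_lit 19130226946) (.one (nat_lit 4202631) .nil)))),
   .two (nat_lit 3464495146) (nat_lit 809500740) (.two (nat_lit 809500680) (nat_lit 185027527370) (.two (nat_lit 37748740) (nat_lit 47555019569) (.two (nat_lit 708837379) (nat_lit 12155095544) (.two (nat_lit 4194305) (nat_lit 37253812706) (.two (nat_lit 2097152) (nat_lit 165532408122) (.one (nat_lit 8397257) .nil)))))),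
   .two (nat_lit 343932953) (nat_lit 156367847747) (.two (nat_lit 8388616) (nat_lit 4196894) (.two (nat_lit 813694980) (nat_lit 4634707478) (.two (nat_lit 8388610) (nat_lit 4198210) (.two (nat_lit 8388609) (nat_lit 10942944984) (.two (nat_lit 4194304) (nat_lit 8395785) (.one (nat_lit 2105802) .nil)))))),
   .two (nat_lit 16777258) (nat_lit 4030726436) (.two (nat_lit 50331656) (nat_lit 47584379623) (.two (nat_lit 285212676) (nat_lit 166232852019) (.two (nat_lit 272629763) (nat_lit 183861513999) (.two (nat_lit 4194305) (nat_lit 10452210119) (.two (nat_lit 16777216) (nat_lit 2103791) (.one (nat_lit 16785550) .nil)))))),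
   .two (nat_lit 46510637081) (nat_lit 183946444979) (.two (nat_lit 3458203656) (nat_lit 19596838427) (.two (nat_lit 4601151491) (nat_lit 156466416963) (.two (nat_lit 9766436865) (nat_lit 12624859666) (.two (nat_lit 2097152) (nat_lit 1055754) (.one (nat_lit 1057227) .nil))))),
   .two (nat_lit 11543773208) (nat_lit 12121538865) (.two (nat_lit 3539992584) (nat_lit 158653743873) (.two (nat_lit 654311428) (nat_lit 101712689) (.two (nat_lit 218103811) (nat_lit 21777879558) (.two (nat_lit 16777216) (nat_lit 68164051) (.one (nat_lit 8396949) .nil))))),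
   .two (nat_lit 47582281771) (nat_lit 16777599) (.two (nat_lit 3458203656) (nat_lit 183962174187) (.two (nat_lit 3458203652) (nat_lit 184431938813) (.two (nat_lit 2097153) (nat_lit 156581761545) (.two (nat_lit 1048576) (nat_lit 10955528422) (.one (nat_lit 166211887715) .nil))))),
   .two (nat_lit 16777240) (nat_lit 174759870755) (.two (nat_lit 8388616) (nat_lit 46507492898) (.two (nat_lit 8388610) (nat_lit 10537144798) (.two (nat_lit 8388608) (nat_lit 19127081353) (.one (nat_lit 1056941) .nil)))),
   .two (nat_lit 158077026340) (nat_lit 13195281089) (.two (nat_lit 3464495108) (nat_lit 174755679527) (.two (nat_lit 8388609) (nat_lit 2104101) (.two (nat_lit 4194304) (nat_lit 2104950) (.one (nat_lit 4202956) .nil)))),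
   .two (nat_lit 176160795) (nat_lit 158146232621) (.two (nat_lit 8388616) (nat_lit 4196541) (.two (nat_lit 4194306) (nat_lit 8392517) (.two (nat_lit 4194305) (nat_lit 166237049985) (.two (nat_lit 4194304) (nat_lit 8395795) (.one (nat_lit 4030734129) .nil))))),
   .two (nat_lit 754974745) (nat_lit 303038647) (.two (nat_lit 754974728) (nat_lit 269484743) (.two (nat_lit 20637024260) (nat_lit 612370584) (.two (nat_lit 184549379) (nat_lit 1052486) (.two (nat_lit 4194305) (nat_lit 1054446) (.two (nat_lit 4194304) (nat_lit 20637030618) (.one (nat_lit 16785869) .nil)))))),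
   .two (nat_lit 1913651227) (nat_lit 1862271337) (.two (nat_lit 1291845640) (nat_lit 2098817) (.two (nat_lit 185002360836) (nat_lit 68160159) (.two (nat_lit 10504634371) (nat_lit 34605562) (.two (nat_lit 9765388289) (nat_lit 3022003114) (.one (nat_lit 68166014) .nil))))),
   .two (nat_lit 13195280425) (nat_lit 11546919203) (.two (nat_lit 3460300808) (nat_lit 9873394166) (.two (nat_lit 156364701697) (nat_lit 159224173067) (.two (nat_lit 1048576) (nat_lit 8396407) (.one (nat_lit 1057230) .nil)))),
   .two (nat_lit 218103847) (nat_lit 239075698) (.two (nat_lit 306184201) (nat_lit 1291846331) (.two (nat_lit 37748740) (nat_lit 9948889906) (.two (nat_lit 157036838915) (nat_lit 1392514094) (.two (nat_lit 2097152) (nat_lit 4201493) (.one (nat_lit 2105807) .nil))))),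
   .two (nat_lit 4605345818) (nat_lit 20740833654) (.two (nat_lit 37748744) (nat_lit 13195281080) (.two (nat_lit 1749024772) (nat_lit 20705183938) (.two (nat_lit 183848927234) (nat_lit 2101064) (.two (nat_lit 2097153) (nat_lit 8395558) (.two (nat_lit 16777216) (nat_lit 2104342) (.one (nat_lit 2105808) .nil)))))),
   .two (nat_lit 4638900263) (nat_lit 12117344544) (.two (nat_lit 46414168072) (nat_lit 10439623446) (.two (nat_lit 19532873732) (nat_lit 37247518914) (.two (nat_lit 157038936067) (nat_lit 2988445512) (.two (nat_lit 9766436865) (nat_lit 19033756162) (.two (nat_lit 2097152) (nat_lit 8395799) (.one (nat_lit 337649199) .nil)))))),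
   .two (nat_lit 46523220006) (nat_lit 20640170313) (.two (nat_lit 12050235401) (nat_lit 1761608121) (.two (nat_lit 183848927236) (nat_lit 28101838360) (.two (nat_lit 184986632195) (nat_lit 4043311606) (.two (nat_lit 34603009) (nat_lit 318770655) (.two (nat_lit 1048576) (nat_lit 16784408) (.one (nat_lit 1056949) .nil)))))),
   .two (nat_lit 679477286) (nat_lit 1210056999) (.two (nat_lit 159217877000) (nat_lit 1954546105) (.two (nat_lit 185023332358) (nat_lit 158183982640) (.two (nat_lit 69206019) (nat_lit 2424311111) (.two (nat_lit 37748737) (nat_lit 1954550272) (.two (nat_lit 16777216) (nat_lit 740301174) (.one (nat_lit 2105809) .nil)))))),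
   .two (nat_lit 8388646) (nat_lit 2969567511) (.two (nat_lit 654311432) (nat_lit 174752531159) (.two (nat_lit 9881780228) (nat_lit 28764540141) (.two (nat_lit 16777217) (nat_lit 183845786113) (.two (nat_lit 1048576) (nat_lit 8396408) (.one (nat_lit 1057234) .nil))))),
   .two (nat_lit 41943067) (nat_lit 20719861944) (.two (nat_lit 713031688) (nat_lit 740295822) (.two (nat_lit 285212676) (nat_lit 183846832274) (.two (nat_lit 16777218) (nat_lit 3022000634) (.two (nat_lit 8388608) (nat_lit 19094575310) (.one (nat_lit 2105529) .nil))))),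
   .two (nat_lit 772800556) (nat_lit 19612565805) (.two (nat_lit 1795162120) (nat_lit 10503586525) (.two (nat_lit 1343225860) (nat_lit 12062820853) (.two (nat_lit 34603009) (nat_lit 1426067993) (.two (nat_lit 1048576) (nat_lit 157051525498) (.one (nat_lit 16785594) .nil))))),
   .two (nat_lit 75497516) (nat_lit 1291846335) (.two (nat_lit 612368388) (nat_lit 788530719) (.two (nat_lit 209715203) (nat_lit 9781122130) (.two (nat_lit 1048576) (nat_lit 8396286) .nil))),
   .two (nat_lit 47548727338) (nat_lit 880804540) (.two (nat_lit 158083317764) (nat_lit 20737689125) (.two (nat_lit 209715203) (nat_lit 840960518) (.two (nat_lit 2097153) (nat_lit 1054447) (.two (nat_lit 1048576) (nat_lit 2104953) (.one (nat_lit 1057235) .nil))))),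
   .two (nat_lit 11577327661) (nat_lit 8389093) (.two (nat_lit 10385096712) (nat_lit 10335815197) (.two (nat_lit 654311427) (nat_lit 159250388019) (.two (nat_lit 16777216) (nat_lit 159250389238) (.one (nat_lit 8397268) .nil)))),
   .two (nat_lit 9974054939) (nat_lit 4634706273) (.two (nat_lit 285212680) (nat_lit 46980402506) (.two (nat_lit 4194305) (nat_lit 746592712) (.one (nat_lit 4202684) .nil))),
   .two (nat_lit 4605345817) (nat_lit 156535619939) (.two (nat_lit 19599982600) (nat_lit 28757197936) (.two (nat_lit 4194308) (nat_lit 183853122354) (.two (nat_lit 4194306) (nat_lit 8392021) (.two (nat_lit 41943041) (nat_lit 4201255) (.two (nat_lit 1048576) (nat_lit 4202106) (.one (nat_lit 1057390) .nil)))))),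
   .two (nat_lit 2969567256) (nat_lit 9967763736) (.two (nat_lit 20638072840) (nat_lit 183861510853) (.two (nat_lit 19530776580) (nat_lit 788531366) (.two (nat_lit 9934209027) (nat_lit 46523223291) (.two (nat_lit 16777217) (nat_lit 2103026) (.two (nat_lit 2097152) (nat_lit 16784414) (.one (nat_lit 28791807357) .nil)))))),
   .two (nat_lit 9967763501) (nat_lit 269484742) (.two (nat_lit 159251431430) (nat_lit 1050147) (.two (nat_lit 639631363) (nat_lit 46507495921) (.two (nat_lit 2097152) (nat_lit 1055233) (.one (nat_lit 1057237) .nil)))),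
   .two (nat_lit 11543773208) (nat_lit 159253528762) (.two (nat_lit 159224168456) (nat_lit 166196152502) (.two (nat_lit 19596836867) (nat_lit 809504034) (.two (nat_lit 8388609) (nat_lit 13221499436) (.two (nat_lit 1048576) (nat_lit 8395807) (.one (nat_lit 8397270) .nil))))),
   .two (nat_lit 47548727322) (nat_lit 10007609622) (.two (nat_lit 28772925448) (nat_lit 19128125606) (.two (nat_lit 4605345795) (nat_lit 46978305853) (.two (nat_lit 9781116929) (nat_lit 19094574830) (.two (nat_lit 2097152) (nat_lit 8396411) (.one (nat_lit 8397271) .nil))))),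
   .two (nat_lit 4601151514) (nat_lit 8389094) (.two (nat_lit 4638900233) (nat_lit 20740834001) (.two (nat_lit 8388612) (nat_lit 158179788323) (.two (nat_lit 183853121539) (nat_lit 4199102) (.two (nat_lit 41943041) (nat_lit 4200180) (.two (nat_lit 8388608) (nat_lit 4202108) (.one (nat_lit 8397272) .nil)))))),
   .two (nat_lit 12117344282) (nat_lit 336593237) (.two (nat_lit 12047089672) (nat_lit 47550825246) (.two (nat_lit 184416206852) (nat_lit 28760344734) (.two (nat_lit 156364701699) (nat_lit 47584382775) (.two (nat_lit 16777217) (nat_lit 1054453) (.two (nat_lit 16777216) (nat_lit 1055776) (.one (nat_lit 1057241) .nil)))))),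
   .two (nat_lit 16777254) (nat_lit 184423547192) (.two (nat_lit 50331656) (nat_lit 28697428723) (.two (nat_lit 2961178628) (nat_lit 1862272543) (.two (nat_lit 176160771) (nat_lit 16781132) (.two (nat_lit 34603009) (nat_lit 75503319) (.two (nat_lit 1048576) (nat_lit 16785021) (.one (nat_lit 1057242) .nil)))))),
   .two (nat_lit 11559501849) (nat_lit 739246404) (.two (nat_lit 11559501832) (nat_lit 19127075960) (.two (nat_lit 739246084) (nat_lit 1291847189) (.two (nat_lit 9765388291) (nat_lit 1962937650) (.two (nat_lit 8388609) (nat_lit 1053838) (.two (nat_lit 1048576) (nat_lit 16785022) (.one (nat_lit 16785606) .nil)))))),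
   .two (nat_lit 156569174056) (nat_lit 28791800116) (.two (nat_lit 9768534024) (nat_lit 4028629765) (.two (nat_lit 166130089988) (nat_lit 156367848999) (.two (nat_lit 10504634371) (nat_lit 339741993) (.two (nat_lit 4194305) (nat_lit 166197205508) (.one (nat_lit 2105543) .nil))))),
   .two (nat_lit 3036676123) (nat_lit 46414168770) (.two (nat_lit 184993972228) (nat_lit 184550933) (.two (nat_lit 713031682) (nat_lit 9915337208) (.two (nat_lit 41943041) (nat_lit 9982450183) (.one (nat_lit 9781124632) .nil)))),
   .two (nat_lit 183853121574) (nat_lit 104857914) (.two (nat_lit 156372041736) (nat_lit 1782581389) (.two (nat_lit 4194306) (nat_lit 13195284291) (.two (nat_lit 4194305) (nat_lit 8394486) (.two (nat_lit 4194304) (nat_lit 8396415) (.one (nat_lit 4202328) .nil))))),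
   .two (nat_lit 3539992601) (nat_lit 171968031) (.two (nat_lit 3531603971) (nat_lit 11559505201) (.two (nat_lit 37748737) (nat_lit 8394424) (.two (nat_lit 1048576) (nat_lit 8395666) (.one (nat_lit 1057243) .nil)))),
   .two (nat_lit 2923429915) (nat_lit 1745879523) (.two (nat_lit 2969567240) (nat_lit 174688568023) (.two (nat_lit 1175453700) (nat_lit 156984411696) (.two (nat_lit 83886083) (nat_lit 4198221) (.two (nat_lit 8388609) (nat_lit 4598010943) (.two (nat_lit 8388608) (nat_lit 10351548904) (.one (nat_lit 16785884) .nil)))))),
   .two (nat_lit 3558866989) (nat_lit 11614028081) (.two (nat_lit 2887778312) (nat_lit 138412746) (.two (nat_lit 742391812) (nat_lit 28790752050) (.two (nat_lit 28758245379) (nat_lit 4631563516) (.two (nat_lit 2097153) (nat_lit 1053800) (.two (nat_lit 4194304) (nat_lit 605035533) (.one (nat_lit 1056980) .nil)))))),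
   .two (nat_lit 46510637083) (nat_lit 740294963) (.two (nat_lit 50331656) (nat_lit 1849688777) (.two (nat_lit 822083588) (nat_lit 840961363) (.two (nat_lit 2097153) (nat_lit 46510641705) (.two (nat_lit 16777216) (nat_lit 174753585433) (.one (nat_lit 4202973) .nil))))),
   .two (nat_lit 11559501849) (nat_lit 28757197124) (.two (nat_lit 28757196808) (nat_lit 1279263438) (.two (nat_lit 272629764) (nat_lit 13237225633) (.two (nat_lit 11479810051) (nat_lit 183962178643) (.two (nat_lit 1048576) (nat_lit 4202112) (.one (nat_lit 1056983) .nil))))),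
   .two (nat_lit 47555018777) (nat_lit 174753579276) (.two (nat_lit 47555018760) (nat_lit 174753579701) (.two (nat_lit 8388612) (nat_lit 16780787) (.two (nat_lit 16777218) (nat_lit 2101071) (.two (nat_lit 16777217) (nat_lit 165526116080) (.two (nat_lit 8388608) (nat_lit 16785025) (.one (nat_lit 8397278) .nil)))))),
   .two (nat_lit 285212699) (nat_lit 158146232647) (.two (nat_lit 184549384) (nat_lit 11614028946) (.two (nat_lit 742391812) (nat_lit 2969568787) (.two (nat_lit 1344274435) (nat_lit 1392512240) (.two (nat_lit 606076929) (nat_lit 1379930568) (.two (nat_lit 2097152) (nat_lit 4201512) (.one (nat_lit 4202975) .nil)))))),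
   .two (nat_lit 11543773208) (nat_lit 20740833464) (.two (nat_lit 4194312) (nat_lit 880804536) (.two (nat_lit 3464495108) (nat_lit 9966718727) (.two (nat_lit 4194305) (nat_lit 1054457) (.two (nat_lit 8388608) (nat_lit 1056386) (.one (nat_lit 9966722849) .nil))))),
   .two (nat_lit 2969567258) (nat_lit 10940842260) (.two (nat_lit 2969567240) (nat_lit 10907288252) (.two (nat_lit 9766436868) (nat_lit 11022633474) (.two (nat_lit 41943041) (nat_lit 46992986611) (.two (nat_lit 8388608) (nat_lit 2104362) (.one (nat_lit 16785888) .nil))))),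
   .two (nat_lit 13191086107) (nat_lit 16777601) (.two (nat_lit 218103816) (nat_lit 47584379678) (.two (nat_lit 10519314436) (nat_lit 1212156110) (.two (nat_lit 822083587) (nat_lit 4198225) (.two (nat_lit 156372041729) (nat_lit 742396392) (.two (nat_lit 8388608) (nat_lit 4200889) (.one (nat_lit 4202717) .nil)))))),
   .two (nat_lit 10940842022) (nat_lit 876610335) (.two (nat_lit 19530776580) (nat_lit 19532874546) (.two (nat_lit 50331651) (nat_lit 4198226) (.two (nat_lit 4194305) (nat_lit 16783099) (.two (nat_lit 2097152) (nat_lit 16785027) (.one (nat_lit 16785889) .nil))))),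
   .two (nat_lit 8388632) (nat_lit 166129041781) (.two (nat_lit 47563407368) (nat_lit 343933626) (.two (nat_lit 620756996) (nat_lit 1209010681) (.two (nat_lit 620756993) (nat_lit 1384124982) (.two (nat_lit 16777216) (nat_lit 1055787) (.one (nat_lit 1057250) .nil))))),
   .two (nat_lit 11543773210) (nat_lit 16778039) (.two (nat_lit 4613734408) (nat_lit 304087781) (.two (nat_lit 285212676) (nat_lit 11006903837) (.two (nat_lit 16777218) (nat_lit 1052499) (.two (nat_lit 16777217) (nat_lit 10335818206) (.two (nat_lit 16777216) (nat_lit 21207457668) .nil))))),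
   .two (nat_lit 1384120347) (nat_lit 28690088255) (.two (nat_lit 1795162126) (nat_lit 28086109756) (.two (nat_lit 285212675) (nat_lit 1052500) (.two (nat_lit 4194305) (nat_lit 16782482) (.two (nat_lit 4194304) (nat_lit 16784429) (.one (nat_lit 16785891) .nil))))),
   .two (nat_lit 310378564) (nat_lit 158158815945) (.two (nat_lit 16777224) (nat_lit 159216829976) (.two (nat_lit 276824068) (nat_lit 37329309147) (.two (nat_lit 2097153) (nat_lit 168827669) (.one (nat_lit 10000277742) .nil)))),
   .two (nat_lit 11559502109) (nat_lit 37253808314) (.two (nat_lit 713031707) (nat_lit 1358955193) (.two (nat_lit 8388616) (nat_lit 46422558253) (.two (nat_lit 822083588) (nat_lit 183920234981) (.two (nat_lit 16777217) (nat_lit 8395067) (.two (nat_lit 8388608) (nat_lit 16785165) (.one (nat_lit 8397455) .nil)))))),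
   .two (nat_lit 1291845917) (nat_lit 2920284342) (.two (nat_lit 9866051610) (nat_lit 4043310641) (.two (nat_lit 285212676) (nat_lit 1279266070) (.two (nat_lit 1913651203) (nat_lit 855643184) (.two (nat_lit 50331649) (nat_lit 3457161441) (.two (nat_lit 1048576) (nat_lit 16785166) (.one (nat_lit 1057424) .nil)))))),
   .two (nat_lit 19130220822) (nat_lit 28101836983) (.two (nat_lit 2902458393) (nat_lit 19130220983) (.two (nat_lit 2902458376) (nat_lit 19130222103) (.two (nat_lit 285212677) (nat_lit 28089256437) (.two (nat_lit 16777219) (nat_lit 4198949) (.two (nat_lit 156364701697) (nat_lit 4200764) (.two (nat_lit 1048576) (nat_lit 4202255) (.one (nat_lit 4203153) .nil))))))),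
   .two (nat_lit 1753219140) (nat_lit 2923430327) (.two (nat_lit 75497480) (nat_lit 1346373144) (.two (nat_lit 75497476) (nat_lit 876614181) (.two (nat_lit 4194305) (nat_lit 3531609685) (.two (nat_lit 4194304) (nat_lit 9772736742) .nil)))),
   .two (nat_lit 159266111556) (nat_lit 2987393465) (.two (nat_lit 184549384) (nat_lit 183845783077) (.two (nat_lit 1175453700) (nat_lit 788531704) (.two (nat_lit 8388611) (nat_lit 156481098218) (.two (nat_lit 34603009) (nat_lit 13195286835) (.two (nat_lit 4194304) (nat_lit 28697436425) .nil))))),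
   .two (nat_lit 11577327684) (nat_lit 13203669712) (.two (nat_lit 11543773192) (nat_lit 10921970957) (.two (nat_lit 1343225859) (nat_lit 46992986597) (.two (nat_lit 16777217) (nat_lit 34609446) (.two (nat_lit 1048576) (nat_lit 16785168) (.one (nat_lit 20737696020) .nil))))),
   .two (nat_lit 2988441668) (nat_lit 158091706686) (.two (nat_lit 47548727320) (nat_lit 28772926189) (.two (nat_lit 2969567240) (nat_lit 4632611336) (.two (nat_lit 169869314) (nat_lit 1325403612) (.two (nat_lit 606076929) (nat_lit 20753423731) (.one (nat_lit 20753424695) .nil))))),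
   .two (nat_lit 10336862276) (nat_lit 8388943) (.two (nat_lit 13237223451) (nat_lit 11614028498) (.two (nat_lit 47548727304) (nat_lit 2894071320) (.two (nat_lit 47548727300) (nat_lit 159219977452) (.two (nat_lit 69206019) (nat_lit 3472888294) (.two (nat_lit 2097153) (nat_lit 4200766) (.two (nat_lit 8388608) (nat_lit 251665839) (.one (nat_lit 2106002) .nil))))))),
   .two (nat_lit 21785215044) (nat_lit 12047089988) (.two (nat_lit 1779433515) (nat_lit 2432697076) (.two (nat_lit 184993972232) (nat_lit 156984412342) (.two (nat_lit 12047089668) (nat_lit 276827615) (.two (nat_lit 16777217) (nat_lit 47581239541) (.two (nat_lit 1048576) (nat_lit 8396561) (.one (nat_lit 16786067) .nil)))))),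
   .two (nat_lit 20704133400) (nat_lit 10351542455) (.two (nat_lit 11559501851) (nat_lit 10436477630) (.two (nat_lit 754974728) (nat_lit 37313578519) (.two (nat_lit 21207449604) (nat_lit 47563411925) (.two (nat_lit 2097153) (nat_lit 34610527) (.one (nat_lit 739254578) .nil))))),
   .two (nat_lit 13237223492) (nat_lit 156971827639) (.two (nat_lit 822083592) (nat_lit 742393390) (.two (nat_lit 13203668996) (nat_lit 159219977451) (.two (nat_lit 1916796931) (nat_lit 28772930190) (.two (nat_lit 4194304) (nat_lit 11559510267) .nil)))),
   .two (nat_lit 166196150340) (nat_lit 645923001) (.two (nat_lit 12129927193) (nat_lit 10000270042) (.two (nat_lit 13195280392) (nat_lit 9933162045) (.two (nat_lit 813694980) (nat_lit 3557821662) (.two (nat_lit 10504634371) (nat_lit 3557822984) (.two (nat_lit 41943041) (nat_lit 1055039) (.two (nat_lit 2097152) (nat_lit 9899613559) (.one (nat_lit 1057428) .nil))))))),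
   .two (nat_lit 3464495284) (nat_lit 16777552) (.two (nat_lit 159224168475) (nat_lit 174768259513) (.two (nat_lit 50331656) (nat_lit 11484005913) (.two (nat_lit 20644364292) (nat_lit 9982446087) (.two (nat_lit 159224168451) (nat_lit 10452209120) (.two (nat_lit 612368385) (nat_lit 165540795994) (.two (nat_lit 1048576) (nat_lit 2894076690) (.one (nat_lit 16786069) .nil))))))),
   .two (nat_lit 1417675037) (nat_lit 46507491511) (.two (nat_lit 9899606041) (nat_lit 1786774300) (.two (nat_lit 158083317768) (nat_lit 135268851) (.two (nat_lit 75497475) (nat_lit 11525951944) (.two (nat_lit 612368385) (nat_lit 1358960862) (.two (nat_lit 1048576) (nat_lit 8396217) (.one (nat_lit 1057430) .nil)))))),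
   .two (nat_lit 21208498458) (nat_lit 158091706549) (.two (nat_lit 20753416219) (nat_lit 673186496) (.two (nat_lit 166130089992) (nat_lit 10372515354) (.two (nat_lit 166130089988) (nat_lit 11525949941) (.two (nat_lit 809500675) (nat_lit 19042143712) (.two (nat_lit 16777217) (nat_lit 2104215) (.two (nat_lit 2097152) (nat_lit 16785170) (.one (nat_lit 16786071) .nil))))))),
   .two (nat_lit 156971827379) (nat_lit 2953838778) (.two (nat_lit 1916796955) (nat_lit 37246468535) (.two (nat_lit 28690087944) (nat_lit 171968026) (.two (nat_lit 166129041412) (nat_lit 10372517114) (.two (nat_lit 10503585795) (nat_lit 2990543304) (.two (nat_lit 8388609) (nat_lit 4200768) (.two (nat_lit 1048576) (nat_lit 4202259) (.one (nat_lit 1057432) .nil))))))),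
   .two (nat_lit 352321716) (nat_lit 20711473447) (.two (nat_lit 889192475) (nat_lit 166203491031) (.two (nat_lit 3464495112) (nat_lit 28705818142) (.two (nat_lit 10369368068) (nat_lit 50334195) (.two (nat_lit 34603011) (nat_lit 3472887264) (.two (nat_lit 2097153) (nat_lit 9940508073) (.one (nat_lit 2106009) .nil)))))),
   .two (nat_lit 37313577028) (nat_lit 20738736567) (.two (nat_lit 158144135176) (nat_lit 2886732290) (.two (nat_lit 1745879043) (nat_lit 12618568158) (.two (nat_lit 606076929) (nat_lit 1055041) (.two (nat_lit 1048576) (nat_lit 2104762) (.one (nat_lit 1057434) .nil))))),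
   .two (nat_lit 28757196868) (nat_lit 174686470846) (.two (nat_lit 158143086600) (nat_lit 1411384877) (.two (nat_lit 9766436868) (nat_lit 806357496) (.two (nat_lit 2097155) (nat_lit 1350570485) (.two (nat_lit 606076929) (nat_lit 1853889302) (.one (nat_lit 2106011) .nil))))),
   .two (nat_lit 28758245444) (nat_lit 772801218) (.two (nat_lit 1779433480) (nat_lit 174753579825) (.two (nat_lit 1779433476) (nat_lit 2099701) (.two (nat_lit 1277165570) (nat_lit 2987397634) (.two (nat_lit 605028353) (nat_lit 2102886) (.two (nat_lit 1048576) (nat_lit 2105108) (.one (nat_lit 2106012) .nil)))))),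
   .two (nat_lit 3527409732) (nat_lit 156380430630) (.two (nat_lit 11559501848) (nat_lit 171967213) (.two (nat_lit 1191182344) (nat_lit 156971829424) (.two (nat_lit 620756996) (nat_lit 21781023997) (.two (nat_lit 184549379) (nat_lit 3024097750) (.two (nat_lit 8388609) (nat_lit 185023339281) (.one (nat_lit 4202826) .nil)))))),
   .two (nat_lit 19093520664) (nat_lit 165528207545) (.two (nat_lit 12117344281) (nat_lit 2953840172) (.two (nat_lit 12117344260) (nat_lit 3020950021) (.two (nat_lit 46409973763) (nat_lit 605032998) (.two (nat_lit 37748737) (nat_lit 1055042) (.two (nat_lit 1048576) (nat_lit 4202261) (.one (nat_lit 1057437) .nil)))))),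
   .two (nat_lit 20704133188) (nat_lit 874512569) (.two (nat_lit 12129927193) (nat_lit 166196150712) (.two (nat_lit 12129927176) (nat_lit 166196151090) (.two (nat_lit 11551113220) (nat_lit 150997492) (.two (nat_lit 21777874947) (nat_lit 12048142811) (.two (nat_lit 16777217) (nat_lit 1055640) (.two (nat_lit 2097152) (nat_lit 1056534) (.one (nat_lit 16786078) .nil))))))),
   .two (nat_lit 10538188868) (nat_lit 339738809) (.two (nat_lit 156535619611) (nat_lit 3021997624) (.two (nat_lit 606076932) (nat_lit 3531606523) (.two (nat_lit 169869314) (nat_lit 158079128063) (.two (nat_lit 156365750273) (nat_lit 1182800053) (.two (nat_lit 2097152) (nat_lit 8396567) (.one (nat_lit 4203167) .nil)))))),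
   .two (nat_lit 272629828) (nat_lit 184987680950) (.two (nat_lit 4638900250) (nat_lit 2990539539) (.two (nat_lit 4194312) (nat_lit 1317013057) (.two (nat_lit 37748740) (nat_lit 20637026804) (.two (nat_lit 169869314) (nat_lit 1053759) (.two (nat_lit 9768534017) (nat_lit 68163865) (.two (nat_lit 1048576) (nat_lit 2104763) (.one (nat_lit 2106016) .nil))))))),
   .two (nat_lit 185035915332) (nat_lit 2357199591) (.two (nat_lit 612368392) (nat_lit 9881781042) (.two (nat_lit 11626610694) (nat_lit 9772730882) (.two (nat_lit 11492392963) (nat_lit 8393204) (.two (nat_lit 156365750273) (nat_lit 185002367294) (.two (nat_lit 2097152) (nat_lit 8396568) (.one (nat_lit 8397131) .nil)))))),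
   .two (nat_lit 20644364467) (nat_lit 806355254) (.two (nat_lit 20644364314) (nat_lit 13221495506) (.two (nat_lit 9768534024) (nat_lit 9933162010) (.two (nat_lit 641728516) (nat_lit 34606330) (.two (nat_lit 21785214979) (nat_lit 156566031840) (.two (nat_lit 156372041729) (nat_lit 68163783) (.two (nat_lit 8388608) (nat_lit 775954705) .nil)))))),
   .two (nat_lit 9948889156) (nat_lit 183946444979) (.two (nat_lit 2887778329) (nat_lit 218104501) (.two (nat_lit 9948889096) (nat_lit 184986634398) (.two (nat_lit 12050235396) (nat_lit 11584670994) (.two (nat_lit 156367847427) (nat_lit 11544825312) (.two (nat_lit 37748737) (nat_lit 2350913735) (.two (nat_lit 4194304) (nat_lit 1056537) (.one (nat_lit 1057441) .nil))))))),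
   .two (nat_lit 12114198596) (nat_lit 2323644595) (.two (nat_lit 4613734425) (nat_lit 47588573942) (.two (nat_lit 158083317768) (nat_lit 1847592480) (.two (nat_lit 11476664324) (nat_lit 8392454) (.two (nat_lit 8388611) (nat_lit 807408158) (.two (nat_lit 612368385) (nat_lit 203430166) (.two (nat_lit 1048576) (nat_lit 2105114) (.one (nat_lit 2106018) .nil))))))),
   .two (nat_lit 10015998020) (nat_lit 19604177077) (.two (nat_lit 3464495129) (nat_lit 28806480608) (.two (nat_lit 10343153672) (nat_lit 9869198896) (.two (nat_lit 184993972229) (nat_lit 809503989) (.two (nat_lit 713031683) (nat_lit 1950355911) (.two (nat_lit 8388609) (nat_lit 46422563098) (.two (nat_lit 4194304) (nat_lit 75505079) (.one (nat_lit 75505923) .nil))))))),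
   .two (nat_lit 306184260) (nat_lit 8388945) (.two (nat_lit 20644364313) (nat_lit 10942939851) (.two (nat_lit 18933088264) (nat_lit 19029558820) (.two (nat_lit 75497476) (nat_lit 159253532408) (.two (nat_lit 612368387) (nat_lit 4199488) (.two (nat_lit 37748737) (nat_lit 8395673) (.two (nat_lit 8388608) (nat_lit 4202267) (.one (nat_lit 8397475) .nil))))))),
   .two (nat_lit 184993972507) (nat_lit 11477713078) (.two (nat_lit 20638072858) (nat_lit 183853121976) (.two (nat_lit 721420296) (nat_lit 813696570) (.two (nat_lit 10385096708) (nat_lit 337645024) (.two (nat_lit 612368385) (nat_lit 166230760845) (.one (nat_lit 2106020) .nil))))),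
   .two (nat_lit 19029557428) (nat_lit 2097490) (.two (nat_lit 12054429721) (nat_lit 47584379602) (.two (nat_lit 1277165577) (nat_lit 1224738328) (.two (nat_lit 1780482052) (nat_lit 1346374145) (.two (nat_lit 183853121539) (nat_lit 166232853984) (.two (nat_lit 606076929) (nat_lit 11546925310) (.two (nat_lit 2097152) (nat_lit 4202268) (.one (nat_lit 2106021) .nil))))))),
   .two (nat_lit 156372041796) (nat_lit 166199296300) (.two (nat_lit 4030726170) (nat_lit 21214790386) (.two (nat_lit 8388616) (nat_lit 104859184) (.two (nat_lit 9948889092) (nat_lit 158150429188) (.two (nat_lit 8388610) (nat_lit 11614032350) (.two (nat_lit 156367847425) (nat_lit 183861516549) (.two (nat_lit 4194304) (nat_lit 8396573) (.one (nat_lit 8397478) .nil))))))),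
   .two (nat_lit 10343153732) (nat_lit 16777555) (.two (nat_lit 822083611) (nat_lit 3024093915) (.two (nat_lit 721420296) (nat_lit 10343154481) (.two (nat_lit 9940500484) (nat_lit 10351545819) (.two (nat_lit 8388609) (nat_lit 1413486843) (.two (nat_lit 2097152) (nat_lit 1413488036) (.one (nat_lit 4202828) .nil)))))),
   .two (nat_lit 185035915332) (nat_lit 10436477367) (.two (nat_lit 11559501832) (nat_lit 1745880637) (.two (nat_lit 185002360836) (nat_lit 68161994) (.two (nat_lit 9765388289) (nat_lit 35657924) (.two (nat_lit 2097152) (nat_lit 34611532) .nil)))),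
   .two (nat_lit 847249476) (nat_lit 10372513977) (.two (nat_lit 156971827227) (nat_lit 1216348978) (.two (nat_lit 813694980) (nat_lit 1178603995) (.two (nat_lit 8388609) (nat_lit 19027466448) (.two (nat_lit 2097152) (nat_lit 8396574) (.one (nat_lit 8397479) .nil))))),
   .two (nat_lit 3525312580) (nat_lit 272630052) (.two (nat_lit 28693233689) (nat_lit 11510219191) (.two (nat_lit 3460300808) (nat_lit 19042141735) (.two (nat_lit 183845781508) (nat_lit 708839934) (.two (nat_lit 34603011) (nat_lit 10540290527) (.two (nat_lit 9768534017) (nat_lit 28791806207) (.two (nat_lit 1048576) (nat_lit 2105119) (.one (nat_lit 2106024) .nil))))))),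
   .two (nat_lit 19027460375) (nat_lit 1929380022) (.two (nat_lit 2921332761) (nat_lit 339739382) (.two (nat_lit 157038936072) (nat_lit 9881782432) (.two (nat_lit 9867100164) (nat_lit 806358311) (.two (nat_lit 159216828419) (nat_lit 9982448129) (.two (nat_lit 4194305) (nat_lit 16784282) (.two (nat_lit 1048576) (nat_lit 4202272) (.one (nat_lit 1057449) .nil))))))),
   .two (nat_lit 158083318041) (nat_lit 9933160629) (.two (nat_lit 158075977755) (nat_lit 28093448897) (.two (nat_lit 184986632200) (nat_lit 4197022) (.two (nat_lit 75497476) (nat_lit 4198151) (.two (nat_lit 13195280387) (nat_lit 1053761) (.two (nat_lit 156372041729) (nat_lit 1055643) (.two (nat_lit 1048576) (nat_lit 4202273) (.one (nat_lit 8397482) .nil))))))),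
   .two (nat_lit 2353004723) (nat_lit 9899606298) (.two (nat_lit 158646403117) (nat_lit 876610255) (.two (nat_lit 4613734408) (nat_lit 157038936881) (.two (nat_lit 641728516) (nat_lit 202378493) (.two (nat_lit 739246083) (nat_lit 272634397) (.two (nat_lit 34603009) (nat_lit 4200771) (.two (nat_lit 8388608) (nat_lit 4202274) (.one (nat_lit 1057451) .nil))))))),
   .two (nat_lit 19096666180) (nat_lit 37313577139) (.two (nat_lit 21207449626) (nat_lit 1212155002) (.two (nat_lit 28086108168) (nat_lit 4196536) (.two (nat_lit 104857604) (nat_lit 1051873) (.two (nat_lit 1782579203) (nat_lit 1053762) (.two (nat_lit 37748737) (nat_lit 1055644) (.two (nat_lit 8388608) (nat_lit 12047098179) .nil)))))),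
   .two (nat_lit 12117344536) (nat_lit 873463989) (.two (nat_lit 184419352601) (nat_lit 34603738) (.two (nat_lit 3525312520) (nat_lit 157038938775) (.two (nat_lit 639631364) (nat_lit 4198152) (.two (nat_lit 46409973762) (nat_lit 2102339) (.two (nat_lit 4194305) (nat_lit 1055645) (.two (nat_lit 1048576) (nat_lit 2105123) (.one (nat_lit 1057452) .nil))))))),
   .two (nat_lit 343932996) (nat_lit 235929937) (.two (nat_lit 11618222105) (nat_lit 166197199613) (.two (nat_lit 46407876616) (nat_lit 28697429539) (.two (nat_lit 156372041732) (nat_lit 156532476414) (.two (nat_lit 46407876610) (nat_lit 1053223) (.two (nat_lit 41943041) (nat_lit 20738742529) (.two (nat_lit 1048576) (nat_lit 2105124) (.one (nat_lit 1057453) .nil))))))),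
   .two (nat_lit 159266111556) (nat_lit 706740407) (.two (nat_lit 10504634395) (nat_lit 10942939575) (.two (nat_lit 9948889096) (nat_lit 18926798397) (.two (nat_lit 19532873732) (nat_lit 606079479) (.two (nat_lit 1283457027) (nat_lit 13188993572) (.two (nat_lit 9768534017) (nat_lit 9934215357) (.two (nat_lit 4194304) (nat_lit 2104764) (.one (nat_lit 2106030) .nil))))))),
   .two (nat_lit 13195280452) (nat_lit 4194644) (.two (nat_lit 159266111515) (nat_lit 28764537273) (.two (nat_lit 1291845640) (nat_lit 2994734653) (.two (nat_lit 1291845636) (nat_lit 11484008190) (.two (nat_lit 171966467) (nat_lit 166237048283) (.two (nat_lit 4194305) (nat_lit 9940506203) (.two (nat_lit 4194304) (nat_lit 16785189) (.one (nat_lit 1057455) .nil))))))),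
   .two (nat_lit 142606404) (nat_lit 1048917) (.two (nat_lit 10436476967) (nat_lit 47563407801) (.two (nat_lit 4613734408) (nat_lit 21785217521) (.two (nat_lit 156364701699) (nat_lit 310383119) (.two (nat_lit 50331649) (nat_lit 12617521353) (.two (nat_lit 1048576) (nat_lit 16785190) (.one (nat_lit 1057101) .nil)))))),
   .two (nat_lit 218103988) (nat_lit 159217877311) (.two (nat_lit 9948889115) (nat_lit 1847591614) (.two (nat_lit 1291845640) (nat_lit 174753580567) (.two (nat_lit 46407876612) (nat_lit 184431938037) (.two (nat_lit 2097155) (nat_lit 11559505370) (.two (nat_lit 2097153) (nat_lit 10519319182) (.two (nat_lit 1048576) (nat_lit 1914706715) (.one (nat_lit 2105678) .nil))))))),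
   .two (nat_lit 1343225924) (nat_lit 2097494) (.two (nat_lit 4194329) (nat_lit 21214790352) (.two (nat_lit 4194312) (nat_lit 19537069620) (.two (nat_lit 205520900) (nat_lit 874515708) (.two (nat_lit 2097155) (nat_lit 12050239960) (.two (nat_lit 50331649) (nat_lit 10503590542) (.two (nat_lit 16777216) (nat_lit 159219982575) .nil)))))),
   .two (nat_lit 10015998131) (nat_lit 8388951) (.two (nat_lit 10343153701) (nat_lit 20637024696) (.two (nat_lit 3539992584) (nat_lit 28760344127) (.two (nat_lit 1749024772) (nat_lit 1052425) (.two (nat_lit 171966467) (nat_lit 2936017395) (.two (nat_lit 4194305) (nat_lit 16784286) (.two (nat_lit 1048576) (nat_lit 4202279) (.one (nat_lit 1057103) .nil))))))),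
   .two (nat_lit 9781116996) (nat_lit 156532474165) (.two (nat_lit 3003121700) (nat_lit 4028629431) (.two (nat_lit 1191182344) (nat_lit 10906240568) (.two (nat_lit 705691652) (nat_lit 174768262376) (.two (nat_lit 1291845635) (nat_lit 166229709289) (.two (nat_lit 50331649) (nat_lit 166229710425) (.two (nat_lit 2097152) (nat_lit 12114207016) .nil)))))),
   .two (nat_lit 156569174084) (nat_lit 1913651379) (.two (nat_lit 12114198554) (nat_lit 183916036833) (.two (nat_lit 21785214984) (nat_lit 10503587378) (.two (nat_lit 28093448198) (nat_lit 9902754296) (.two (nat_lit 156372041731) (nat_lit 4027584998) (.two (nat_lit 9781116929) (nat_lit 3457160792) (.two (nat_lit 16777216) (nat_lit 20637032703) .nil)))))),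
   .two (nat_lit 10437525684) (nat_lit 183912890808) (.two (nat_lit 101711880) (nat_lit 270534170) (.two (nat_lit 101711876) (nat_lit 807406081) (.two (nat_lit 9781116931) (nat_lit 2102340) (.two (nat_lit 9781116929) (nat_lit 1846548747) (.two (nat_lit 1048576) (nat_lit 2105128) (.one (nat_lit 1057104) .nil)))))),
   .two (nat_lit 19530776755) (nat_lit 1346371767) (.two (nat_lit 3527409691) (nat_lit 158647452411) (.two (nat_lit 46980399112) (nat_lit 2099385) (.two (nat_lit 12129927172) (nat_lit 1051950) (.two (nat_lit 47550824451) (nat_lit 639635962) (.two (nat_lit 9766436865) (nat_lit 1947211958) (.two (nat_lit 2097152) (nat_lit 1056553) (.one (nat_lit 1057456) .nil))))))),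
   .two (nat_lit 3527409944) (nat_lit 28791799993) (.two (nat_lit 46980399129) (nat_lit 4028629432) (.two (nat_lit 12050235400) (nat_lit 156364703263) (.two (nat_lit 157036838916) (nat_lit 339741939) (.two (nat_lit 183848927234) (nat_lit 156466418139) (.two (nat_lit 37748737) (nat_lit 2350913803) (.two (nat_lit 2097152) (nat_lit 4202282) (.one (nat_lit 2106033) .nil))))))),
   .two (nat_lit 47596961860) (nat_lit 1746927801) (.two (nat_lit 3525312538) (nat_lit 205522493) (.two (nat_lit 159232557060) (nat_lit 102763763) (.two (nat_lit 46409973762) (nat_lit 2332037583) (.two (nat_lit 2097153) (nat_lit 1055647) (.two (nat_lit 2097152) (nat_lit 16785195) (.one (nat_lit 16786098) .nil)))))),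
   .two (nat_lit 1795162397) (nat_lit 156466413753) (.two (nat_lit 185035915307) (nat_lit 21811430082) (.two (nat_lit 654311432) (nat_lit 19597887995) (.two (nat_lit 2902458370) (nat_lit 156969734647) (.two (nat_lit 9781116929) (nat_lit 2350913780) (.two (nat_lit 1048576) (nat_lit 2104765) (.one (nat_lit 2886738595) .nil)))))),
   .two (nat_lit 9967763524) (nat_lit 159266111668) (.two (nat_lit 47596961819) (nat_lit 2887779042) (.two (nat_lit 169869320) (nat_lit 12633245229) (.two (nat_lit 169869316) (nat_lit 16780591) (.two (nat_lit 169869314) (nat_lit 16781864) (.two (nat_lit 2097153) (nat_lit 16783684) (.two (nat_lit 1048576) (nat_lit 2105132) (.one (nat_lit 16786099) .nil))))))),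
   .two (nat_lit 13195280452) (nat_lit 16777560) (.two (nat_lit 4605345817) (nat_lit 19545457405) (.two (nat_lit 620757000) (nat_lit 3565160599) (.two (nat_lit 276824068) (nat_lit 47596965144) (.two (nat_lit 166129041410) (nat_lit 184431940659) (.two (nat_lit 156364701697) (nat_lit 184431941878) (.two (nat_lit 1048576) (nat_lit 8396589) (.one (nat_lit 8397492) .nil))))))),
   .two (nat_lit 159224168516) (nat_lit 10538189085) (.two (nat_lit 9934209051) (nat_lit 21818770146) (.two (nat_lit 10370416648) (nat_lit 185027528847) (.two (nat_lit 1277165572) (nat_lit 158183983611) (.two (nat_lit 1277165570) (nat_lit 12054434315) (.two (nat_lit 606076929) (nat_lit 47555024484) (.two (nat_lit 2097152) (nat_lit 243277237) (.one (nat_lit 2105681) .nil))))))),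
   .two (nat_lit 156581756996) (nat_lit 4194649) (.two (nat_lit 3003121689) (nat_lit 1780482833) (.two (nat_lit 156367847432) (nat_lit 47588575748) (.two (nat_lit 171966467) (nat_lit 3022000587) (.two (nat_lit 4194305) (nat_lit 813702517) (.one (nat_lit 740303107) .nil))))),
   .two (nat_lit 3527409732) (nat_lit 156533522748) (.two (nat_lit 876609572) (nat_lit 780141335) (.two (nat_lit 9934209032) (nat_lit 9806284939) (.two (nat_lit 184423546884) (nat_lit 11580476692) (.two (nat_lit 10370416643) (nat_lit 8393797) (.two (nat_lit 156365750273) (nat_lit 4201376) (.two (nat_lit 4194304) (nat_lit 2105134) (.one (nat_lit 8397138) .nil))))))),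
   .two (nat_lit 10907287836) (nat_lit 1962934458) (.two (nat_lit 3460300825) (nat_lit 3525313303) (.two (nat_lit 2887778312) (nat_lit 16779450) (.two (nat_lit 10504634372) (nat_lit 12150901252) (.two (nat_lit 11476664322) (nat_lit 2102342) (.two (nat_lit 4194305) (nat_lit 1055649) (.two (nat_lit 16777216) (nat_lit 4202287) (.one (nat_lit 4203189) .nil))))))),
   .two (nat_lit 1358954564) (nat_lit 159216828747) (.two (nat_lit 11559501848) (nat_lit 1947206772) (.two (nat_lit 9881780232) (nat_lit 47581234714) (.two (nat_lit 2887778308) (nat_lit 158091709717) (.two (nat_lit 20637024258) (nat_lit 2102343) (.two (nat_lit 605028353) (nat_lit 1344282016) (.one (nat_lit 16786102) .nil)))))),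
   .two (nat_lit 117440580) (nat_lit 9966715190) (.two (nat_lit 11559501848) (nat_lit 11577328317) (.two (nat_lit 11543773192) (nat_lit 1358956052) (.two (nat_lit 1175453700) (nat_lit 159266114811) (.two (nat_lit 46414168066) (nat_lit 1053768) (.two (nat_lit 8388609) (nat_lit 1055045) (.two (nat_lit 8388608) (nat_lit 1410342606) (.one (nat_lit 8397495) .nil))))))),
   .two (nat_lit 4634705988) (nat_lit 673186536) (.two (nat_lit 1291845640) (nat_lit 20640171572) (.two (nat_lit 754974724) (nat_lit 183846834726) (.two (nat_lit 4194305) (nat_lit 2104226) (.two (nat_lit 2097152) (nat_lit 4202288) (.one (nat_lit 2105683) .nil))))),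
   .two (nat_lit 809500740) (nat_lit 21223178532) (.two (nat_lit 272629784) (nat_lit 10376708837) (.two (nat_lit 721420296) (nat_lit 46407878828) (.two (nat_lit 11492392964) (nat_lit 19033754116) (.two (nat_lit 1862270979) (nat_lit 740299816) (.two (nat_lit 9781116929) (nat_lit 46481283314) (.two (nat_lit 2097152) (nat_lit 8396594) (.one (nat_lit 8397496) .nil))))))),
   .two (nat_lit 4601151556) (nat_lit 20711473444) (.two (nat_lit 1343225883) (nat_lit 608174800) (.two (nat_lit 46414168072) (nat_lit 156968683059) (.two (nat_lit 218103812) (nat_lit 21785218291) (.two (nat_lit 2902458370) (nat_lit 8393802) (.two (nat_lit 16777217) (nat_lit 8395078) (.two (nat_lit 1048576) (nat_lit 8396595) (.one (nat_lit 16786105) .nil))))))),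
   .two (nat_lit 880803908) (nat_lit 4194650) (.two (nat_lit 166230753316) (nat_lit 1209008861) (.two (nat_lit 1779433480) (nat_lit 21208500387) (.two (nat_lit 1779433476) (nat_lit 1377833491) (.two (nat_lit 605028353) (nat_lit 8395684) (.two (nat_lit 1048576) (nat_lit 2105140) (.one (nat_lit 2106042) .nil)))))),
   .two (nat_lit 9781116996) (nat_lit 9900654773) (.two (nat_lit 639631387) (nat_lit 822084277) (.two (nat_lit 1277165576) (nat_lit 2349861376) (.two (nat_lit 3472883715) (nat_lit 2102347) (.two (nat_lit 9765388289) (nat_lit 2103623) (.two (nat_lit 1048576) (nat_lit 2105141) (.one (nat_lit 1057467) .nil)))))),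
   .two (nat_lit 3028287667) (nat_lit 20637024435) (.two (nat_lit 343932955) (nat_lit 2432697033) (.two (nat_lit 2969567240) (nat_lit 19604179447) (.two (nat_lit 184549378) (nat_lit 12121543125) (.two (nat_lit 8388609) (nat_lit 788535605) (.two (nat_lit 16777216) (nat_lit 8396222) (.one (nat_lit 16785748) .nil)))))),
   .two (nat_lit 13203669171) (nat_lit 880804118) (.two (nat_lit 46407876633) (nat_lit 166237045496) (.two (nat_lit 1310720010) (nat_lit 10906240561) (.two (nat_lit 46481276934) (nat_lit 46474988017) (.two (nat_lit 1191182339) (nat_lit 158150431186) (.two (nat_lit 9781116929) (nat_lit 174759878044) (.one (nat_lit 174692770109) .nil)))))),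
   .two (nat_lit 352321604) (nat_lit 183853121976) (.two (nat_lit 16777224) (nat_lit 109053500) (.two (nat_lit 183853121540) (nat_lit 2432698886) (.two (nat_lit 41943043) (nat_lit 50335193) (.two (nat_lit 612368385) (nat_lit 185035920990) (.two (nat_lit 1048576) (nat_lit 612376858) .nil))))),
   .two (nat_lit 639631428) (nat_lit 21210596092) (.two (nat_lit 813694984) (nat_lit 28089257236) (.two (nat_lit 46409973762) (nat_lit 874517001) (.two (nat_lit 2097153) (nat_lit 4200776) (.two (nat_lit 2097152) (nat_lit 645930380) (.one (nat_lit 2106044) .nil))))),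
   .two (nat_lit 880803908) (nat_lit 11611931330) (.two (nat_lit 12050235400) (nat_lit 10443818531) (.two (nat_lit 156367847428) (nat_lit 12115250439) (.two (nat_lit 157036838915) (nat_lit 8393257) (.two (nat_lit 8388609) (nat_lit 2103625) (.two (nat_lit 2097152) (nat_lit 8396598) (.one (nat_lit 8397501) .nil)))))),
   .two (nat_lit 2923430168) (nat_lit 1350566072) (.two (nat_lit 306184217) (nat_lit 3565159169) (.two (nat_lit 46414168072) (nat_lit 843056663) (.two (nat_lit 46414168068) (nat_lit 4198154) (.two (nat_lit 11479810050) (nat_lit 1053772) (.two (nat_lit 612368385) (nat_lit 1055050) (.two (nat_lit 8388608) (nat_lit 1056567) (.one (nat_lit 1057470) .nil))))))),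
   .two (nat_lit 4605345860) (nat_lit 166132187421) (.two (nat_lit 310378522) (nat_lit 158079124211) (.two (nat_lit 4194313) (nat_lit 156372042545) (.two (nat_lit 272629764) (nat_lit 18933090800) (.two (nat_lit 4194306) (nat_lit 156372045273) (.two (nat_lit 4194305) (nat_lit 2961184354) (.two (nat_lit 4194304) (nat_lit 8396600) (.one (nat_lit 4203199) .nil))))))),
   .two (nat_lit 20644364467) (nat_lit 2097499) (.two (nat_lit 10343153691) (nat_lit 20738736829) (.two (nat_lit 165532401672) (nat_lit 4632610335) (.two (nat_lit 2887778308) (nat_lit 12121541109) (.two (nat_lit 4599054339) (nat_lit 12121543140) (.two (nat_lit 34603009) (nat_lit 184417261793) (.two (nat_lit 1048576) (nat_lit 2105145) (.one (nat_lit 8397504) .nil))))))),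
   .two (nat_lit 285212740) (nat_lit 1212154128) (.two (nat_lit 285212696) (nat_lit 9802089143) (.two (nat_lit 46980399112) (nat_lit 47563408939) (.two (nat_lit 272629764) (nat_lit 16780592) (.two (nat_lit 159217876995) (nat_lit 4199501) (.two (nat_lit 4194305) (nat_lit 2103627) (.two (nat_lit 2097152) (nat_lit 4202298) (.one (nat_lit 4202756) .nil))))))),
   .two (nat_lit 157038936243) (nat_lit 28772925622) (.two (nat_lit 46980399130) (nat_lit 47581233893) (.two (nat_lit 157036838920) (nat_lit 1050790) (.two (nat_lit 46980399108) (nat_lit 1052427) (.two (nat_lit 2097155) (nat_lit 158179791321) (.two (nat_lit 2097153) (nat_lit 1054969) (.two (nat_lit 1048576) (nat_lit 2104767) (.one (nat_lit 1057473) .nil))))))),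
   .two (nat_lit 37246468383) (nat_lit 251658423) (.two (nat_lit 12163481626) (nat_lit 37246468535) (.two (nat_lit 1846542344) (nat_lit 3539994144) (.two (nat_lit 28690087940) (nat_lit 47563409917) (.two (nat_lit 1913651203) (nat_lit 165540794839) (.two (nat_lit 9765388289) (nat_lit 1392515859) (.one (nat_lit 1392517359) .nil)))))),
   .two (nat_lit 3527409732) (nat_lit 10376708279) (.two (nat_lit 183853121561) (nat_lit 185023333085) (.two (nat_lit 2889875464) (nat_lit 28764538395) (.two (nat_lit 203423748) (nat_lit 166136384759) (.two (nat_lit 2954887171) (nat_lit 184989783084) (.two (nat_lit 2097153) (nat_lit 3024100762) (.one (nat_lit 4202768) .nil)))))),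
   .two (nat_lit 16777284) (nat_lit 8388956) (.two (nat_lit 10007609387) (nat_lit 3573547765) (.two (nat_lit 10007609357) (nat_lit 50332466) (.two (nat_lit 41943046) (nat_lit 184551922) (.two (nat_lit 41943043) (nat_lit 166144773596) (.two (nat_lit 41943041) (nat_lit 1795168533) (.two (nat_lit 2097152) (nat_lit 16785211) (.one (nat_lit 2106050) .nil))))))),
   .two (nat_lit 47596961860) (nat_lit 706740980) (.two (nat_lit 11543773192) (nat_lit 654313969) (.two (nat_lit 721420290) (nat_lit 47547683330) (.two (nat_lit 605028353) (nat_lit 639638953) (.one (nat_lit 21208506704) .nil)))),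
   .two (nat_lit 4634705988) (nat_lit 8388957) (.two (nat_lit 713031707) (nat_lit 2889876241) (.two (nat_lit 159232557064) (nat_lit 343934484) (.two (nat_lit 2969567236) (nat_lit 10909387260) (.two (nat_lit 184549378) (nat_lit 12050239978) (.two (nat_lit 16777217) (nat_lit 4200780) (.two (nat_lit 16777216) (nat_lit 4202300) (.one (nat_lit 21793612069) .nil))))))),
   .two (nat_lit 843055172) (nat_lit 28772925621) (.two (nat_lit 1191182363) (nat_lit 1312817892) (.two (nat_lit 2902458376) (nat_lit 205522475) (.two (nat_lit 654311428) (nat_lit 20740836577) (.two (nat_lit 2902458370) (nat_lit 4198954) (.two (nat_lit 4194305) (nat_lit 16784293) (.two (nat_lit 4194304) (nat_lit 16785213) (.one (nat_lit 16785974) .nil))))))),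
   .two (nat_lit 158646403351) (nat_lit 156548202678) (.two (nat_lit 705691673) (nat_lit 83886785) (.two (nat_lit 11559501832) (nat_lit 166132189344) (.two (nat_lit 28757196804) (nat_lit 158146235692) (.two (nat_lit 754974723) (nat_lit 12150903297) (.two (nat_lit 620756993) (nat_lit 3525318862) (.two (nat_lit 2097152) (nat_lit 16785214) (.one (nat_lit 4203203) .nil))))))),
   .two (nat_lit 20644364565) (nat_lit 184431935673) (.two (nat_lit 83886107) (nat_lit 2927624915) (.two (nat_lit 184549384) (nat_lit 183953787031) (.two (nat_lit 612368388) (nat_lit 2936015355) (.two (nat_lit 183853121539) (nat_lit 11492397576) (.two (nat_lit 8388609) (nat_lit 16783693) (.two (nat_lit 8388608) (nat_lit 16785216) (.one (nat_lit 8397508) .nil))))))),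
   .two (nat_lit 13195280452) (nat_lit 20719862473) (.two (nat_lit 16777224) (nat_lit 18933089074) (.two (nat_lit 41943044) (nat_lit 174768262619) (.two (nat_lit 8388609) (nat_lit 28757203739) (.one (nat_lit 101720382) .nil)))),
   .two (nat_lit 156971827379) (nat_lit 185027526838) (.two (nat_lit 28693233689) (nat_lit 1049736) (.two (nat_lit 156367847432) (nat_lit 1051295) (.two (nat_lit 46414168068) (nat_lit 1052428) (.two (nat_lit 8388611) (nat_lit 3524268527) (.two (nat_lit 4194305) (nat_lit 1055054) (.two (nat_lit 1048576) (nat_lit 4202306) (.one (nat_lit 1057477) .nil))))))),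
   .two (nat_lit 2969567300) (nat_lit 10942939854) (.two (nat_lit 272629768) (nat_lit 184551920) (.two (nat_lit 4194306) (nat_lit 183928622557) (.two (nat_lit 4194305) (nat_lit 16783695) (.two (nat_lit 4194304) (nat_lit 285221188) .nil)))),
   .two (nat_lit 117440691) (nat_lit 839909686) (.two (nat_lit 11559501851) (nat_lit 839910961) (.two (nat_lit 754974724) (nat_lit 47581236502) (.two (nat_lit 705691650) (nat_lit 46514835935) (.two (nat_lit 50331649) (nat_lit 1343232179) (.two (nat_lit 1048576) (nat_lit 8396617) (.one (nat_lit 8397141) .nil)))))),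
   .two (nat_lit 156533522500) (nat_lit 3036676421) (.two (nat_lit 184993972251) (nat_lit 706740967) (.two (nat_lit 639631368) (nat_lit 11492396336) (.two (nat_lit 83886083) (nat_lit 37247521322) (.two (nat_lit 2097153) (nat_lit 16784296) (.two (nat_lit 2097152) (nat_lit 8396618) (.one (nat_lit 2106054) .nil)))))),
   .two (nat_lit 156367847492) (nat_lit 3464495544) (.two (nat_lit 272629768) (nat_lit 184431937069) (.two (nat_lit 1191182340) (nat_lit 174755678728) (.two (nat_lit 46414168066) (nat_lit 10519318982) (.two (nat_lit 8388609) (nat_lit 183848934821) (.one (nat_lit 4203207) .nil))))),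
   .two (nat_lit 21207449780) (nat_lit 874512566) (.two (nat_lit 28758245403) (nat_lit 780142140) (.two (nat_lit 47563407364) (nat_lit 236982817) (.two (nat_lit 16777217) (nat_lit 2104233) (.two (nat_lit 1048576) (nat_lit 16785228) (.one (nat_lit 1057480) .nil))))),
   .two (nat_lit 184993972292) (nat_lit 184549815) (.two (nat_lit 184549384) (nat_lit 209718750) (.two (nat_lit 16777217) (nat_lit 645928532) (.two (nat_lit 16777216) (nat_lit 4605354296) .nil))),
   .two (nat_lit 10007609412) (nat_lit 9781117633) (.two (nat_lit 8388616) (nat_lit 654312982) (.two (nat_lit 16777220) (nat_lit 3028290032) (.two (nat_lit 16777218) (nat_lit 184423550429) (.two (nat_lit 16777217) (nat_lit 13195286117) (.two (nat_lit 16777216) (nat_lit 8396621) (.one (nat_lit 8397513) .nil)))))),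
   .two (nat_lit 101711940) (nat_lit 840958134) (.two (nat_lit 276824089) (nat_lit 13224640951) (.two (nat_lit 276824072) (nat_lit 13224641329) (.two (nat_lit 705691652) (nat_lit 47550827817) (.two (nat_lit 2889875458) (nat_lit 156472709652) (.two (nat_lit 2097153) (nat_lit 12050241731) (.two (nat_lit 1048576) (nat_lit 2104769) (.one (nat_lit 2105686) .nil))))))),
   .two (nat_lit 352321604) (nat_lit 156372042432) (.two (nat_lit 183853121544) (nat_lit 620757809) (.two (nat_lit 183853121540) (nat_lit 166144772597) (.two (nat_lit 41943043) (nat_lit 19545462362) (.two (nat_lit 1048576) (nat_lit 8396226) (.one (nat_lit 8397514) .nil))))),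
   .two (nat_lit 184419352755) (nat_lit 9866051919) (.two (nat_lit 772800538) (nat_lit 10540286665) (.two (nat_lit 184419352584) (nat_lit 638584345) (.two (nat_lit 46407876612) (nat_lit 47584383437) (.two (nat_lit 2097153) (nat_lit 9869203645) (.two (nat_lit 4194304) (nat_lit 9933168928) .nil))))),
   .two (nat_lit 822083652) (nat_lit 3527409732) (.two (nat_lit 285212698) (nat_lit 4601152263) (.two (nat_lit 822083592) (nat_lit 183848928804) (.two (nat_lit 3458203652) (nat_lit 1346376161) (.two (nat_lit 2097153) (nat_lit 2923436240) (.two (nat_lit 2097152) (nat_lit 742398741) (.one (nat_lit 4203211) .nil)))))),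
   .two (nat_lit 37313577028) (nat_lit 4638900408) (.two (nat_lit 285212699) (nat_lit 2927625767) (.two (nat_lit 612368388) (nat_lit 21793608149) (.two (nat_lit 8388609) (nat_lit 158091712698) (.two (nat_lit 1048576) (nat_lit 11626619165) .nil)))),
   .two (nat_lit 822083652) (nat_lit 9806283541) (.two (nat_lit 50331656) (nat_lit 156372045273) (.two (nat_lit 8388609) (nat_lit 16784819) (.one (nat_lit 46422565106) .nil))),
   .two (nat_lit 47596961860) (nat_lit 19027460535) (.two (nat_lit 2969567240) (nat_lit 46407878190) (.two (nat_lit 47563407364) (nat_lit 11544825067) (.two (nat_lit 10504634371) (nat_lit 788533734) (.two (nat_lit 605028353) (nat_lit 706746564) (.two (nat_lit 1048576) (nat_lit 2104771) (.one (nat_lit 16786124) .nil)))))),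
   .two (nat_lit 620757060) (nat_lit 8389077) (.two (nat_lit 3464495129) (nat_lit 21223178955) (.two (nat_lit 16777224) (nat_lit 8390843) (.two (nat_lit 3464495108) (nat_lit 28705819128) (.two (nat_lit 713031683) (nat_lit 12129930717) (.two (nat_lit 9766436865) (nat_lit 9772734755) (.two (nat_lit 2097152) (nat_lit 8396228) (.one (nat_lit 2106061) .nil))))))),
   .two (nat_lit 10538188868) (nat_lit 1379926198) (.two (nat_lit 3527409689) (nat_lit 3558867384) (.two (nat_lit 2887778312) (nat_lit 4634706737) (.two (nat_lit 2887778308) (nat_lit 21781023234) (.two (nat_lit 806354947) (nat_lit 9902756342) (.two (nat_lit 34603009) (nat_lit 156567083258) (.two (nat_lit 1048576) (nat_lit 2104773) (.one (nat_lit 1057111) .nil))))))),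
   .two (nat_lit 1795162390) (nat_lit 156472705206) (.two (nat_lit 176160794) (nat_lit 158091707961) (.two (nat_lit 9881780228) (nat_lit 156472707578) (.two (nat_lit 83886083) (nat_lit 19604181646) (.two (nat_lit 1048576) (nat_lit 19134421785) (.one (nat_lit 1057112) .nil))))),
   .two (nat_lit 156372041796) (nat_lit 46980399866) (.two (nat_lit 272629768) (nat_lit 156372042545) (.two (nat_lit 272629764) (nat_lit 183853124082) (.two (nat_lit 4194306) (nat_lit 174759875214) (.two (nat_lit 4194304) (nat_lit 10007617852) .nil)))),
   .two (nat_lit 16777284) (nat_lit 158083318458) (.two (nat_lit 184549384) (nat_lit 243271204) (.two (nat_lit 184549380) (nat_lit 156573371624) (.two (nat_lit 176160771) (nat_lit 1291851364) (.two (nat_lit 8388608) (nat_lit 16784838) (.one (nat_lit 16785753) .nil))))),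
   .two (nat_lit 3527409952) (nat_lit 28101836982) (.two (nat_lit 285212699) (nat_lit 165528208947) (.two (nat_lit 612368388) (nat_lit 11525950944) (.two (nat_lit 16777217) (nat_lit 1413487376) (.one (nat_lit 37757197) .nil)))),
   .two (nat_lit 10015998020) (nat_lit 156372041796) (.two (nat_lit 4605345816) (nat_lit 19545457352) (.two (nat_lit 16777224) (nat_lit 1786775681) (.two (nat_lit 4605345796) (nat_lit 3539996127) (.two (nat_lit 8388609) (nat_lit 13237229150) (.two (nat_lit 4194304) (nat_lit 158183987985) (.one (nat_lit 16786126) .nil)))))),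
   .two (nat_lit 19599982660) (nat_lit 20745027922) (.two (nat_lit 46414168089) (nat_lit 2956985053) (.two (nat_lit 9781116936) (nat_lit 28693234482) (.two (nat_lit 620756996) (nat_lit 183953788384) (.two (nat_lit 16777217) (nat_lit 183848934827) (.one (nat_lit 8397519) .nil))))),
   .two (nat_lit 9802088516) (nat_lit 11544821942) (.two (nat_lit 754974747) (nat_lit 270533357) (.two (nat_lit 37748744) (nat_lit 4043311611) (.two (nat_lit 4194306) (nat_lit 10385101323) (.two (nat_lit 16777217) (nat_lit 1344280771) (.two (nat_lit 2097152) (nat_lit 4201927) (.one (nat_lit 2105690) .nil)))))),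
   .two (nat_lit 21785215044) (nat_lit 11546919201) (.two (nat_lit 1178599451) (nat_lit 9881780663) (.two (nat_lit 75497480) (nat_lit 28793898530) (.two (nat_lit 75497476) (nat_lit 47584383455) (.two (nat_lit 4194305) (nat_lit 3036683681) (.one (nat_lit 11517567243) .nil))))),
   .two (nat_lit 11559501892) (nat_lit 10000269630) (.two (nat_lit 11559501848) (nat_lit 156465365432) (.two (nat_lit 28093448200) (nat_lit 605030572) (.two (nat_lit 50331652) (nat_lit 1283459573) (.two (nat_lit 8388611) (nat_lit 9781120473) (.two (nat_lit 8388609) (nat_lit 1962939998) (.two (nat_lit 1048576) (nat_lit 46514838921) (.one (nat_lit 1057115) .nil))))))),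
   .two (nat_lit 9802088516) (nat_lit 158077027022) (.two (nat_lit 3525312520) (nat_lit 306186737) (.two (nat_lit 18928893955) (nat_lit 1377833468) (.two (nat_lit 9768534017) (nat_lit 28691142930) (.two (nat_lit 2097152) (nat_lit 4202809) .nil)))),
   .two (nat_lit 2954887236) (nat_lit 157038936243) (.two (nat_lit 185020186650) (nat_lit 183947494090) (.two (nat_lit 639631368) (nat_lit 339740226) (.two (nat_lit 1343225860) (nat_lit 4030729499) (.two (nat_lit 605028355) (nat_lit 28087161386) (.two (nat_lit 34603009) (nat_lit 10370423031) (.two (nat_lit 1048576) (nat_lit 166230761749) .nil)))))),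
   .two (nat_lit 184986632260) (nat_lit 46514831657) (.two (nat_lit 11551113241) (nat_lit 166229705490) (.two (nat_lit 75497480) (nat_lit 37247518234) (.two (nat_lit 1745879044) (nat_lit 19597888793) (.two (nat_lit 9873391619) (nat_lit 2102353) (.two (nat_lit 9766436865) (nat_lit 12050241791) (.two (nat_lit 2097152) (nat_lit 1056590) (.one (nat_lit 2106064) .nil))))))),
   .two (nat_lit 47555019029) (nat_lit 12115247287) (.two (nat_lit 2988441625) (nat_lit 9873393201) (.two (nat_lit 158144135172) (nat_lit 185027529955) (.two (nat_lit 3531603971) (nat_lit 19094573564) (.two (nat_lit 34603009) (nat_lit 184987687203) (.two (nat_lit 1048576) (nat_lit 1411390909) (.one (nat_lit 1057489) .nil)))))),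
   .two (nat_lit 166132187316) (nat_lit 1780482233) (.two (nat_lit 3527409691) (nat_lit 11007951287) (.two (nat_lit 46978301960) (nat_lit 1346374145) (.two (nat_lit 3525312515) (nat_lit 184989782472) (.two (nat_lit 2097153) (nat_lit 742398272) (.two (nat_lit 2097152) (nat_lit 4201928) (.one (nat_lit 16786131) .nil)))))),
   .two (nat_lit 183853121815) (nat_lit 12129927353) (.two (nat_lit 1426063387) (nat_lit 18933088959) (.two (nat_lit 4605345800) (nat_lit 1279264280) (.two (nat_lit 41943044) (nat_lit 2432699867) (.two (nat_lit 8388609) (nat_lit 809507121) (.two (nat_lit 4194304) (nat_lit 1795170607) .nil))))),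
   .two (nat_lit 236978463) (nat_lit 101712058) (.two (nat_lit 3003121689) (nat_lit 19128124959) (.two (nat_lit 47563407364) (nat_lit 4197681) (.two (nat_lit 46992982019) (nat_lit 272634410) (.two (nat_lit 2097153) (nat_lit 1055659) (.two (nat_lit 4194304) (nat_lit 1056592) (.one (nat_lit 1057493) .nil)))))),
   .two (nat_lit 13237223492) (nat_lit 19537068332) (.two (nat_lit 4613734425) (nat_lit 10343154481) (.two (nat_lit 612368388) (nat_lit 166229709350) (.two (nat_lit 2097153) (nat_lit 1276124577) (.one (nat_lit 1057495) .nil)))),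
   .two (nat_lit 166132187315) (nat_lit 19530776755) (.two (nat_lit 157036838939) (nat_lit 21814576668) (.two (nat_lit 13203668996) (nat_lit 809505316) (.two (nat_lit 9766436865) (nat_lit 12150906234) (.one (nat_lit 12618572099) .nil)))),
   .two (nat_lit 9948889369) (nat_lit 19026411701) (.two (nat_lit 1343225883) (nat_lit 2969568050) (.two (nat_lit 620756996) (nat_lit 10335816181) (.two (nat_lit 1358954499) (nat_lit 13187943902) (.two (nat_lit 16777217) (nat_lit 1055058) (.two (nat_lit 1048576) (nat_lit 16784843) (.one (nat_lit 1057116) .nil)))))),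
   .two (nat_lit 46477082692) (nat_lit 1344274741) (.two (nat_lit 318767130) (nat_lit 157038936762) (.two (nat_lit 46407876616) (nat_lit 641730104) (.two (nat_lit 205520900) (nat_lit 639635968) (.two (nat_lit 16777217) (nat_lit 840964421) (.two (nat_lit 1048576) (nat_lit 2105169) (.one (nat_lit 1057497) .nil)))))),
   .two (nat_lit 47582281796) (nat_lit 1954546425) (.two (nat_lit 813694984) (nat_lit 104859202) (.two (nat_lit 13195280388) (nat_lit 28691139060) (.two (nat_lit 46409973763) (nat_lit 158647456276) (.two (nat_lit 2097153) (nat_lit 156468517136) (.two (nat_lit 2097152) (nat_lit 4202322) (.one (nat_lit 2106074) .nil)))))),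
   .two (nat_lit 2969567411) (nat_lit 3458203991) (.two (nat_lit 2969567258) (nat_lit 156533522871) (.two (nat_lit 184549384) (nat_lit 270534207) (.two (nat_lit 2969567236) (nat_lit 2887782154) (.two (nat_lit 1277165570) (nat_lit 873468383) (.two (nat_lit 606076929) (nat_lit 1055059) (.two (nat_lit 2097152) (nat_lit 1056595) (.one (nat_lit 1057499) .nil))))))),
   .two (nat_lit 10015998020) (nat_lit 28697428261) (.two (nat_lit 156465365017) (nat_lit 251659001) (.two (nat_lit 1358954504) (nat_lit 873465377) (.two (nat_lit 46414168068) (nat_lit 3524267244) (.two (nat_lit 46409973762) (nat_lit 101716474) (.two (nat_lit 4194305) (nat_lit 1376787855) (.one (nat_lit 158083326288) .nil)))))),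
   .two (nat_lit 19026411699) (nat_lit 46474985751) (.two (nat_lit 285212696) (nat_lit 159216829142) (.two (nat_lit 612368392) (nat_lit 1779436021) (.two (nat_lit 713031682) (nat_lit 10552873514) (.two (nat_lit 2097153) (nat_lit 1055060) (.two (nat_lit 2097152) (nat_lit 1056596) (.one (nat_lit 1057500) .nil)))))),
   .two (nat_lit 159224168516) (nat_lit 13222543653) (.two (nat_lit 13237223451) (nat_lit 10510926265) (.two (nat_lit 612368392) (nat_lit 37329307164) (.two (nat_lit 47555018756) (nat_lit 1191185713) (.two (nat_lit 822083587) (nat_lit 174692765152) (.two (nat_lit 2097153) (nat_lit 3472890642) (.one (nat_lit 46422565125) .nil)))))),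
   .two (nat_lit 10015998020) (nat_lit 209715510) (.two (nat_lit 18933088300) (nat_lit 788529927) (.two (nat_lit 3464495112) (nat_lit 11022633483) (.two (nat_lit 176160771) (nat_lit 37329309147) (.two (nat_lit 8388609) (nat_lit 2365593178) (.two (nat_lit 4194304) (nat_lit 2105625) .nil))))),
   .two (nat_lit 50331716) (nat_lit 2357199140) (.two (nat_lit 46414168089) (nat_lit 104858041) (.two (nat_lit 176160776) (nat_lit 184431937074) (.two (nat_lit 3527409668) (nat_lit 11584672276) (.two (nat_lit 4194305) (nat_lit 310384966) (.two (nat_lit 4194304) (nat_lit 8396634) (.one (nat_lit 4203233) .nil)))))),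
   .two (nat_lit 272629828) (nat_lit 183853121855) (.two (nat_lit 158177689625) (nat_lit 1209008914) (.two (nat_lit 3458203656) (nat_lit 9798945273) (.two (nat_lit 21778923523) (nat_lit 142610947) (.two (nat_lit 156365750273) (nat_lit 46406833751) (.two (nat_lit 1048576) (nat_lit 2105179) (.one (nat_lit 1057506) .nil)))))),
   .two (nat_lit 9948889156) (nat_lit 19604177080) (.two (nat_lit 3028287513) (nat_lit 9948889527) (.two (nat_lit 176160776) (nat_lit 3573549578) (.two (nat_lit 176160770) (nat_lit 12633248195) (.two (nat_lit 16777217) (nat_lit 184423554454) (.one (nat_lit 47547687197) .nil))))),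
   .two (nat_lit 1950351539) (nat_lit 11577327894) (.two (nat_lit 4638900249) (nat_lit 11513365184) (.two (nat_lit 184986632200) (nat_lit 2988443783) (.two (nat_lit 21214789636) (nat_lit 4027582964) (.two (nat_lit 3531603971) (nat_lit 2102359) (.two (nat_lit 4194305) (nat_lit 1055063) (.two (nat_lit 2097152) (nat_lit 1056604) (.one (nat_lit 1057507) .nil))))))),
   .two (nat_lit 159251431492) (nat_lit 303038646) (.two (nat_lit 306184217) (nat_lit 158075978471) (.two (nat_lit 2887778312) (nat_lit 4634707475) (.two (nat_lit 1913651204) (nat_lit 156468514054) (.two (nat_lit 270532611) (nat_lit 13191090700) (.two (nat_lit 2097153) (nat_lit 2920291740) (.one (nat_lit 1057508) .nil)))))),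
   .two (nat_lit 159257723059) (nat_lit 156533522871) (.two (nat_lit 813694984) (nat_lit 47584380479) (.two (nat_lit 11476664324) (nat_lit 10510928385) (.two (nat_lit 34603011) (nat_lit 19033755099) (.two (nat_lit 2097153) (nat_lit 47547685129) (.two (nat_lit 2097152) (nat_lit 158079130389) (.one (nat_lit 4203238) .nil)))))),
   .two (nat_lit 4634706099) (nat_lit 251658549) (.two (nat_lit 4634705946) (nat_lit 9781117631) (.two (nat_lit 272629768) (nat_lit 21223179807) (.two (nat_lit 11492392964) (nat_lit 37316725251) (.two (nat_lit 2969567235) (nat_lit 2102360) (.two (nat_lit 37748737) (nat_lit 183962179763) (.two (nat_lit 2097152) (nat_lit 16785246) (.one (nat_lit 2106087) .nil))))))),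
   .two (nat_lit 47555019030) (nat_lit 9867100345) (.two (nat_lit 47555018777) (nat_lit 236978615) (.two (nat_lit 721420296) (nat_lit 156472706584) (.two (nat_lit 721420292) (nat_lit 2357201396) (.two (nat_lit 721420290) (nat_lit 158653747670) (.two (nat_lit 8388609) (nat_lit 16783704) (.two (nat_lit 16777216) (nat_lit 2105183) (.one (nat_lit 2106088) .nil))))))),
   .two (nat_lit 166196150340) (nat_lit 50331932) (.two (nat_lit 156465365017) (nat_lit 12163482391) (.two (nat_lit 158143086600) (nat_lit 822085140) (.two (nat_lit 11559501828) (nat_lit 605030907) (.two (nat_lit 11492392962) (nat_lit 12147757579) (.two (nat_lit 50331649) (nat_lit 1376786765) (.two (nat_lit 1048576) (nat_lit 83893702) (.one (nat_lit 10000277809) .nil))))))),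
   .two (nat_lit 156533522712) (nat_lit 185002361016) (.two (nat_lit 2969567259) (nat_lit 19027460536) (.two (nat_lit 218103816) (nat_lit 174686471703) (.two (nat_lit 165526110212) (nat_lit 183861512693) (.two (nat_lit 639631363) (nat_lit 285216218) (.two (nat_lit 606076929) (nat_lit 47563412110) (.two (nat_lit 1048576) (nat_lit 1344282958) .nil)))))),
   .two (nat_lit 8388676) (nat_lit 10385097404) (.two (nat_lit 713031688) (nat_lit 12147755175) (.two (nat_lit 285212676) (nat_lit 1417677296) (.two (nat_lit 16777218) (nat_lit 1384126046) (.two (nat_lit 8388608) (nat_lit 46406835625) (.one (nat_lit 159216836865) .nil))))),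
   .two (nat_lit 721420467) (nat_lit 10007609622) (.two (nat_lit 721420313) (nat_lit 10007609783) (.two (nat_lit 176160776) (nat_lit 46992985566) (.two (nat_lit 8388609) (nat_lit 4043315414) (.two (nat_lit 16777216) (nat_lit 12121546161) (.one (nat_lit 813703402) .nil))))),
   .two (nat_lit 620757060) (nat_lit 10947133778) (.two (nat_lit 16777240) (nat_lit 10007609783) (.two (nat_lit 16777224) (nat_lit 37253809698) (.two (nat_lit 176160772) (nat_lit 28705819128) (.two (nat_lit 16777218) (nat_lit 166136386023) (.two (nat_lit 8388609) (nat_lit 16783705) (.two (nat_lit 1048576) (nat_lit 8396237) (.one (nat_lit 34611793) .nil))))))),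
   .two (nat_lit 352321604) (nat_lit 1753219512) (.two (nat_lit 183853121544) (nat_lit 620757809) (.two (nat_lit 183853121540) (nat_lit 352324106) (.two (nat_lit 13195280387) (nat_lit 28705820124) (.two (nat_lit 16777217) (nat_lit 3531610401) (.two (nat_lit 1048576) (nat_lit 109060403) .nil))))),
   .two (nat_lit 83886358) (nat_lit 46977253558) (.two (nat_lit 11543773210) (nat_lit 83886519) (.two (nat_lit 4194312) (nat_lit 157051520559) (.two (nat_lit 4194308) (nat_lit 16781072) (.two (nat_lit 822083587) (nat_lit 12047094306) (.two (nat_lit 34603009) (nat_lit 4200039) (.two (nat_lit 1048576) (nat_lit 4201934) (.one (nat_lit 4203241) .nil))))))),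
   .two (nat_lit 20704133188) (nat_lit 28772925765) (.two (nat_lit 2923429915) (nat_lit 806355691) (.two (nat_lit 11559501832) (nat_lit 806356532) (.two (nat_lit 4194308) (nat_lit 620759537) (.two (nat_lit 4194306) (nat_lit 12147757601) (.two (nat_lit 37748737) (nat_lit 1779439834) (.two (nat_lit 1048576) (nat_lit 4201935) (.one (nat_lit 1057515) .nil))))))),
   .two (nat_lit 183916036164) (nat_lit 1947205812) (.two (nat_lit 9866051611) (nat_lit 9766437605) (.two (nat_lit 46978301960) (nat_lit 13191088265) (.two (nat_lit 11543773188) (nat_lit 2100531) (.two (nat_lit 705691650) (nat_lit 2102361) (.two (nat_lit 605028353) (nat_lit 166197205288) (.two (nat_lit 1048576) (nat_lit 2105184) (.one (nat_lit 11006910695) .nil))))))),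
   .two (nat_lit 13195280662) (nat_lit 10439622840) (.two (nat_lit 4605345817) (nat_lit 843055543) (.two (nat_lit 4601151496) (nat_lit 159257725447) (.two (nat_lit 8388611) (nat_lit 1176506847) (.two (nat_lit 4194305) (nat_lit 18926803278) (.two (nat_lit 2097152) (nat_lit 46409981389) (.one (nat_lit 28793905898) .nil)))))),
   .two (nat_lit 343932996) (nat_lit 2956984501) (.two (nat_lit 306184218) (nat_lit 1182794500) (.two (nat_lit 8388616) (nat_lit 19596840231) (.two (nat_lit 8388610) (nat_lit 4027585057) (.two (nat_lit 41943041) (nat_lit 11479816460) (.two (nat_lit 8388608) (nat_lit 2920291740) (.one (nat_lit 13221503723) .nil)))))),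
   .two (nat_lit 10343153843) (nat_lit 11544822051) (.two (nat_lit 47555018779) (nat_lit 11007951288) (.two (nat_lit 10385096712) (nat_lit 21812479514) (.two (nat_lit 3458203652) (nat_lit 21818773973) (.two (nat_lit 620756993) (nat_lit 1176508716) (.two (nat_lit 8388608) (nat_lit 183913946470) (.one (nat_lit 2105693) .nil)))))),
   .two (nat_lit 889192516) (nat_lit 3464495543) (.two (nat_lit 16777224) (nat_lit 1954547229) (.two (nat_lit 46414168068) (nat_lit 166144772600) (.two (nat_lit 4605345795) (nat_lit 166144773596) (.two (nat_lit 8388609) (nat_lit 37262202458) (.two (nat_lit 2097152) (nat_lit 1350574315) .nil))))),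
   .two (nat_lit 12147753239) (nat_lit 35651766) (.two (nat_lit 10437525530) (nat_lit 12147753663) (.two (nat_lit 754974728) (nat_lit 10503587377) (.two (nat_lit 1343225860) (nat_lit 35654138) (.two (nat_lit 1343225859) (nat_lit 251662883) (.two (nat_lit 605028353) (nat_lit 159266117916) (.two (nat_lit 1048576) (nat_lit 2105185) (.one (nat_lit 2106092) .nil))))))),
   .two (nat_lit 654311492) (nat_lit 9967763636) (.two (nat_lit 2988441627) (nat_lit 11551113657) (.two (nat_lit 3458203656) (nat_lit 109053488) (.two (nat_lit 156372041732) (nat_lit 19094572339) (.two (nat_lit 4605345795) (nat_lit 2101804) (.two (nat_lit 8388609) (nat_lit 2103601) (.two (nat_lit 2097152) (nat_lit 8396642) (.one (nat_lit 8397550) .nil))))))),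
   .two (nat_lit 654311492) (nat_lit 1344274742) (.two (nat_lit 21208498201) (nat_lit 2432697032) (.two (nat_lit 46407876616) (nat_lit 9814672920) (.two (nat_lit 46407876612) (nat_lit 156481096200) (.two (nat_lit 2097155) (nat_lit 620760537) (.two (nat_lit 2097153) (nat_lit 158192375390) (.two (nat_lit 1048576) (nat_lit 1224744297) (.one (nat_lit 605036850) .nil))))))),
   .two (nat_lit 1384120388) (nat_lit 10015998725) (.two (nat_lit 285212681) (nat_lit 158083318578) (.two (nat_lit 50331652) (nat_lit 11584670218) (.two (nat_lit 16777218) (nat_lit 8393818) (.two (nat_lit 8388609) (nat_lit 16784304) (.two (nat_lit 4194304) (nat_lit 158183988617) (.one (nat_lit 16786159) .nil)))))),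
   .two (nat_lit 1358954675) (nat_lit 1947205910) (.two (nat_lit 11559501849) (nat_lit 1947206071) (.two (nat_lit 83886088) (nat_lit 156364703270) (.two (nat_lit 11559501828) (nat_lit 28790753779) (.two (nat_lit 620756995) (nat_lit 1053787) (.two (nat_lit 34603009) (nat_lit 11559508180) (.two (nat_lit 1048576) (nat_lit 16784849) (.one (nat_lit 1057118) .nil))))))),
   .two (nat_lit 9948889156) (nat_lit 156533522612) (.two (nat_lit 2969567256) (nat_lit 156533523129) (.two (nat_lit 2954887176) (nat_lit 9781118483) (.two (nat_lit 183848927236) (nat_lit 270537260) (.two (nat_lit 37748737) (nat_lit 270539057) (.two (nat_lit 2097152) (nat_lit 809508706) (.one (nat_lit 4203249) .nil)))))),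
   .two (nat_lit 159266111556) (nat_lit 612368732) (.two (nat_lit 2323644443) (nat_lit 9798943489) (.two (nat_lit 3036676105) (nat_lit 165532404211) (.two (nat_lit 184549378) (nat_lit 158183984608) (.two (nat_lit 156367847425) (nat_lit 1426069753) (.two (nat_lit 4194304) (nat_lit 34610544) (.one (nat_lit 8397554) .nil)))))),
   .two (nat_lit 822083652) (nat_lit 157035791067) (.two (nat_lit 83886088) (nat_lit 9966716461) (.two (nat_lit 68157444) (nat_lit 20719865309) (.two (nat_lit 16777217) (nat_lit 158143092967) (.two (nat_lit 4194304) (nat_lit 1276124504) (.one (nat_lit 1057119) .nil))))),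
   .two (nat_lit 4647288900) (nat_lit 156539814596) (.two (nat_lit 713031688) (nat_lit 183913942322) (.two (nat_lit 2902458370) (nat_lit 1746932202) (.two (nat_lit 2097153) (nat_lit 4613740810) (.two (nat_lit 1048576) (nat_lit 2105669) .nil)))),
   .two (nat_lit 1753219251) (nat_lit 158179787046) (.two (nat_lit 11479810075) (nat_lit 109052345) (.two (nat_lit 272629768) (nat_lit 746587705) (.two (nat_lit 4194308) (nat_lit 165532404211) (.two (nat_lit 4194306) (nat_lit 158183984608) (.two (nat_lit 4194305) (nat_lit 2927631784) (.one (nat_lit 1057523) .nil)))))),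
   .two (nat_lit 11559501892) (nat_lit 4194658) (.two (nat_lit 889192475) (nat_lit 1413481213) (.two (nat_lit 9899606029) (nat_lit 2420114225) (.two (nat_lit 205520900) (nat_lit 166144772603) (.two (nat_lit 171966467) (nat_lit 285217291) (.two (nat_lit 34603009) (nat_lit 1950358964) (.one (nat_lit 4203252) .nil)))))),
   .two (nat_lit 880804116) (nat_lit 20740833463) (.two (nat_lit 11513364505) (nat_lit 1417675458) (.two (nat_lit 343932937) (nat_lit 2956986537) (.two (nat_lit 46414168068) (nat_lit 28760345077) (.two (nat_lit 1283457027) (nat_lit 185035920433) (.two (nat_lit 37748737) (nat_lit 16784307) (.two (nat_lit 4194304) (nat_lit 16785254) (.one (nat_lit 16786110) .nil))))))),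
   .two (nat_lit 46474985540) (nat_lit 18941477047) (.two (nat_lit 1291845657) (nat_lit 11007951550) (.two (nat_lit 1291845640) (nat_lit 11007951666) (.two (nat_lit 606076932) (nat_lit 318771734) (.two (nat_lit 2097153) (nat_lit 20719868119) (.two (nat_lit 4194304) (nat_lit 2104730) (.one (nat_lit 2106101) .nil)))))),
   .two (nat_lit 16777284) (nat_lit 9806283221) (.two (nat_lit 16777240) (nat_lit 183853122238) (.two (nat_lit 721420296) (nat_lit 12155094561) (.two (nat_lit 46414168068) (nat_lit 4043311611) (.two (nat_lit 8388611) (nat_lit 50335193) (.two (nat_lit 612368385) (nat_lit 336599830) (.one (nat_lit 46507499790) .nil)))))),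
   .two (nat_lit 4605345860) (nat_lit 83886519) (.two (nat_lit 721420296) (nat_lit 156372042545) (.two (nat_lit 8388612) (nat_lit 11559505370) (.two (nat_lit 8388609) (nat_lit 159232561806) (.two (nat_lit 8388608) (nat_lit 285221180) .nil)))),
   .two (nat_lit 13224640691) (nat_lit 158143086893) (.two (nat_lit 318767130) (nat_lit 13224640951) (.two (nat_lit 285212680) (nat_lit 19597887988) (.two (nat_lit 159216828419) (nat_lit 1176506819) (.two (nat_lit 4194305) (nat_lit 687873453) (.one (nat_lit 1057527) .nil))))),
   .two (nat_lit 21827158084) (nat_lit 135266591) (.two (nat_lit 13191086107) (nat_lit 1761608121) (.two (nat_lit 9781116936) (nat_lit 1950352928) (.two (nat_lit 46523219974) (nat_lit 166232852996) (.two (nat_lit 13191086083) (nat_lit 9915338208) (.two (nat_lit 34603009) (nat_lit 2956991250) (.one (nat_lit 1057528) .nil)))))),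
   .two (nat_lit 843055172) (nat_lit 159250383565) (.two (nat_lit 4194312) (nat_lit 185035917464) (.two (nat_lit 11543773188) (nat_lit 809504039) (.two (nat_lit 117440515) (nat_lit 11580477996) (.two (nat_lit 4194305) (nat_lit 605034724) (.two (nat_lit 1048576) (nat_lit 4202344) (.one (nat_lit 1057529) .nil)))))),
   .two (nat_lit 117440692) (nat_lit 20737687906) (.two (nat_lit 11492392987) (nat_lit 2923430328) (.two (nat_lit 11559501832) (nat_lit 2316305943) (.two (nat_lit 1358954500) (nat_lit 1309675274) (.two (nat_lit 9933160451) (nat_lit 16780762) (.two (nat_lit 4194305) (nat_lit 11593061991) (.two (nat_lit 4194304) (nat_lit 638591310) .nil)))))),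
   .two (nat_lit 46508540083) (nat_lit 4634706186) (.two (nat_lit 21812477995) (nat_lit 12147753653) (.two (nat_lit 10338959370) (nat_lit 19094570554) (.two (nat_lit 18928893956) (nat_lit 2317355514) (.two (nat_lit 183848927234) (nat_lit 10437530088) (.two (nat_lit 9766436865) (nat_lit 19134421238) (.two (nat_lit 2097152) (nat_lit 8396649) (.one (nat_lit 2106106) .nil))))))),
   .two (nat_lit 8388676) (nat_lit 158146232502) (.two (nat_lit 276824089) (nat_lit 13224640951) (.two (nat_lit 169869320) (nat_lit 174692763171) (.two (nat_lit 705691652) (nat_lit 20640172532) (.two (nat_lit 176160770) (nat_lit 3524268490) (.two (nat_lit 2097153) (nat_lit 184423554393) (.one (nat_lit 165528215790) .nil)))))),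
   .two (nat_lit 1376780356) (nat_lit 28806480195) (.two (nat_lit 21207449626) (nat_lit 19128124980) (.two (nat_lit 169869316) (nat_lit 620759537) (.two (nat_lit 169869314) (nat_lit 183946449369) (.two (nat_lit 2097153) (nat_lit 34609401) (.two (nat_lit 1048576) (nat_lit 35659199) (.one (nat_lit 11476672767) .nil)))))),
   .two (nat_lit 285212740) (nat_lit 12115247545) (.two (nat_lit 169869320) (nat_lit 21223180792) (.two (nat_lit 2097155) (nat_lit 1862275554) (.two (nat_lit 16777217) (nat_lit 4632614499) (.two (nat_lit 16777216) (nat_lit 183913947484) .nil)))),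
   .two (nat_lit 19027460276) (nat_lit 18941477154) (.two (nat_lit 1291845658) (nat_lit 4028629432) (.two (nat_lit 46978301960) (nat_lit 10452208924) (.two (nat_lit 3525312515) (nat_lit 4613738965) (.two (nat_lit 4194305) (nat_lit 69213535) (.one (nat_lit 16786171) .nil))))),
   .two (nat_lit 1847591194) (nat_lit 318767285) (.two (nat_lit 1310720025) (nat_lit 20652754472) (.two (nat_lit 20638072836) (nat_lit 183861512693) (.two (nat_lit 9934209027) (nat_lit 285216218) (.two (nat_lit 606076929) (nat_lit 1392515859) (.one (nat_lit 16785760) .nil))))),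
   .two (nat_lit 822083652) (nat_lit 9966715624) (.two (nat_lit 11559501832) (nat_lit 10939795619) (.two (nat_lit 721420292) (nat_lit 37253811495) (.two (nat_lit 1358954499) (nat_lit 46473941506) (.two (nat_lit 8388609) (nat_lit 4631567126) (.one (nat_lit 303046995) .nil))))),
   .two (nat_lit 843055172) (nat_lit 19142803775) (.two (nat_lit 2969567256) (nat_lit 156969730755) (.two (nat_lit 37748744) (nat_lit 620759536) (.two (nat_lit 708837379) (nat_lit 1929383389) (.two (nat_lit 2097153) (nat_lit 4613742004) (.one (nat_lit 19128131814) .nil))))),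
   .two (nat_lit 50331716) (nat_lit 8388956) (.two (nat_lit 16777242) (nat_lit 157043131094) (.two (nat_lit 166130089992) (nat_lit 19612567064) (.two (nat_lit 13203668996) (nat_lit 21818772708) (.two (nat_lit 16777218) (nat_lit 11584672804) (.two (nat_lit 16777217) (nat_lit 19537074362) (.two (nat_lit 8388608) (nat_lit 1780489672) (.one (nat_lit 2106108) .nil))))))),
   .two (nat_lit 11513364660) (nat_lit 157036839092) (.two (nat_lit 46978301979) (nat_lit 1782579933) (.two (nat_lit 156367847432) (nat_lit 2350909628) (.two (nat_lit 3460300804) (nat_lit 19530779145) (.two (nat_lit 159216828419) (nat_lit 18926801389) (.two (nat_lit 9766436865) (nat_lit 12117350580) (.two (nat_lit 1048576) (nat_lit 2105194) (.one (nat_lit 2106110) .nil))))))),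
   .two (nat_lit 8388676) (nat_lit 654311864) (.two (nat_lit 8388616) (nat_lit 166211880506) (.two (nat_lit 16777220) (nat_lit 1920994779) (.two (nat_lit 50331649) (nat_lit 873470738) (.one (nat_lit 4598014213) .nil)))),
   .two (nat_lit 50331716) (nat_lit 10510926265) (.two (nat_lit 50331656) (nat_lit 3531605530) (.two (nat_lit 50331652) (nat_lit 10544483635) (.two (nat_lit 176160770) (nat_lit 46508544501) (.two (nat_lit 16777217) (nat_lit 11544829286) (.one (nat_lit 2106112) .nil))))),
   .two (nat_lit 673185860) (nat_lit 1346371766) (.two (nat_lit 11559501849) (nat_lit 37249614567) (.two (nat_lit 37748744) (nat_lit 721422834) (.two (nat_lit 4194306) (nat_lit 19545460187) (.two (nat_lit 2097153) (nat_lit 37755070) (.two (nat_lit 2097152) (nat_lit 4202795) .nil))))),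
   .two (nat_lit 1384120499) (nat_lit 1309671777) (.two (nat_lit 46489665572) (nat_lit 156539814329) (.two (nat_lit 3539992584) (nat_lit 9772729884) (.two (nat_lit 47563407364) (nat_lit 183853124080) (.two (nat_lit 156367847427) (nat_lit 1309676065) (.two (nat_lit 37748737) (nat_lit 156364709294) (.one (nat_lit 4202849) .nil)))))),
   .two (nat_lit 16777284) (nat_lit 28093448632) (.two (nat_lit 16777224) (nat_lit 2961180206) (.two (nat_lit 20644364292) (nat_lit 16779762) (.two (nat_lit 159224168451) (nat_lit 158158819982) (.two (nat_lit 8388608) (nat_lit 159266118423) (.one (nat_lit 16785762) .nil))))),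
   .two (nat_lit 10552868932) (nat_lit 2097508) (.two (nat_lit 21208498201) (nat_lit 12163482340) (.two (nat_lit 174752530440) (nat_lit 166130091587) (.two (nat_lit 12047089670) (nat_lit 28705819916) (.two (nat_lit 12047089667) (nat_lit 12115251748) (.two (nat_lit 605028353) (nat_lit 102766863) (.two (nat_lit 8388608) (nat_lit 1056210) (.one (nat_lit 1057537) .nil))))))),
   .two (nat_lit 285212740) (nat_lit 4030726490) (.two (nat_lit 1310720025) (nat_lit 9936306947) (.two (nat_lit 2902458376) (nat_lit 1210058279) (.two (nat_lit 272629764) (nat_lit 46422560032) (.two (nat_lit 9934209027) (nat_lit 50336277) (.two (nat_lit 9766436865) (nat_lit 1191188682) (.two (nat_lit 4194304) (nat_lit 10370424163) (.one (nat_lit 2105699) .nil))))))),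
   .two (nat_lit 159224168516) (nat_lit 11477713081) (.two (nat_lit 185002360857) (nat_lit 159224169265) (.two (nat_lit 50331652) (nat_lit 156573370891) (.two (nat_lit 16777218) (nat_lit 10003419593) (.two (nat_lit 8388609) (nat_lit 2103645) (.two (nat_lit 2097152) (nat_lit 4201939) (.one (nat_lit 4203266) .nil)))))),
   .two (nat_lit 822083652) (nat_lit 184986632495) (.two (nat_lit 13237223451) (nat_lit 1346372303) (.two (nat_lit 11492392968) (nat_lit 2923432448) (.two (nat_lit 11559501827) (nat_lit 1346376230) (.two (nat_lit 4194305) (nat_lit 9933168032) (.one (nat_lit 272638244) .nil))))),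
   .two (nat_lit 159266111556) (nat_lit 174686470583) (.two (nat_lit 2969567240) (nat_lit 158177691168) (.two (nat_lit 218103812) (nat_lit 1411385860) (.two (nat_lit 184549378) (nat_lit 1411387844) (.two (nat_lit 16777217) (nat_lit 2887784713) (.two (nat_lit 4194304) (nat_lit 11611939045) .nil))))),
   .two (nat_lit 47582281796) (nat_lit 20740833460) (.two (nat_lit 11610882073) (nat_lit 1417675450) (.two (nat_lit 169869320) (nat_lit 4638901816) (.two (nat_lit 47548727300) (nat_lit 156364704994) (.two (nat_lit 12121538563) (nat_lit 156968686083) (.two (nat_lit 156364701697) (nat_lit 3024098913) (.two (nat_lit 2097152) (nat_lit 4598013333) (.one (nat_lit 2105700) .nil))))))),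
   .two (nat_lit 10015998020) (nat_lit 174759870645) (.two (nat_lit 13191086107) (nat_lit 9806283191) (.two (nat_lit 46414168072) (nat_lit 10372516346) (.two (nat_lit 13191086083) (nat_lit 28764541384) (.two (nat_lit 8388609) (nat_lit 205527829) (.one (nat_lit 16786179) .nil))))),
   .two (nat_lit 285212851) (nat_lit 46980399426) (.two (nat_lit 4647288858) (nat_lit 9802090005) (.two (nat_lit 285212676) (nat_lit 2956986892) (.two (nat_lit 809500675) (nat_lit 158158819982) (.two (nat_lit 4194304) (nat_lit 19109255955) (.one (nat_lit 16785765) .nil))))),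
   .two (nat_lit 13195280452) (nat_lit 156984410406) (.two (nat_lit 310378522) (nat_lit 10003415759) (.two (nat_lit 721420296) (nat_lit 20745029783) (.two (nat_lit 41943044) (nat_lit 166144772616) (.two (nat_lit 8388610) (nat_lit 16781869) (.two (nat_lit 9768534017) (nat_lit 1392516471) (.one (nat_lit 16786180) .nil)))))),
   .two (nat_lit 183949590707) (nat_lit 159232557381) (.two (nat_lit 9768534043) (nat_lit 9881780664) (.two (nat_lit 11479810056) (nat_lit 165540791868) (.two (nat_lit 9781116932) (nat_lit 12117346802) (.two (nat_lit 2902458370) (nat_lit 47550827998) (.two (nat_lit 37748737) (nat_lit 11559508275) (.two (nat_lit 1048576) (nat_lit 4201940) (.one (nat_lit 4203269) .nil))))))),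
   .two (nat_lit 2420113476) (nat_lit 1954545971) (.two (nat_lit 9881780249) (nat_lit 183953785575) (.two (nat_lit 3539992584) (nat_lit 2956986879) (.two (nat_lit 1191182339) (nat_lit 339743184) (.two (nat_lit 8388609) (nat_lit 4634712351) (.two (nat_lit 1048576) (nat_lit 4201941) (.one (nat_lit 4203270) .nil)))))),
   .two (nat_lit 2969567300) (nat_lit 2424307896) (.two (nat_lit 8388635) (nat_lit 654312242) (.two (nat_lit 184549380) (nat_lit 19100863963) (.two (nat_lit 9781116929) (nat_lit 1216354550) (.two (nat_lit 4194304) (nat_lit 1182802268) .nil)))),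
   .two (nat_lit 16777284) (nat_lit 20640170318) (.two (nat_lit 236978202) (nat_lit 10385097477) (.two (nat_lit 285212680) (nat_lit 183949593864) (.two (nat_lit 2889875458) (nat_lit 1780486641) (.two (nat_lit 156365750273) (nat_lit 1191188738) (.two (nat_lit 2097152) (nat_lit 16785260) (.one (nat_lit 2106119) .nil)))))),
   .two (nat_lit 174752530612) (nat_lit 740294838) (.two (nat_lit 165526110235) (nat_lit 11593056697) (.two (nat_lit 3458203656) (nat_lit 10000270891) (.two (nat_lit 1276116996) (nat_lit 10437528837) (.two (nat_lit 806354947) (nat_lit 1950355911) (.two (nat_lit 156367847425) (nat_lit 773855569) (.two (nat_lit 2097152) (nat_lit 1056104) (.one (nat_lit 4202854) .nil))))))),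
   .two (nat_lit 11559501892) (nat_lit 158143086660) (.two (nat_lit 12163481627) (nat_lit 1049360) (.two (nat_lit 754974728) (nat_lit 156468512302) (.two (nat_lit 1276116996) (nat_lit 855641328) (.two (nat_lit 9933160451) (nat_lit 16781870) (.two (nat_lit 9765388289) (nat_lit 46422563098) (.two (nat_lit 1048576) (nat_lit 4201942) (.one (nat_lit 4202855) .nil))))))),
   .two (nat_lit 46474985750) (nat_lit 1920991414) (.two (nat_lit 310378522) (nat_lit 28760343250) (.two (nat_lit 37748744) (nat_lit 46414170611) (.two (nat_lit 4194306) (nat_lit 10947136992) (.two (nat_lit 37748737) (nat_lit 183846836497) (.two (nat_lit 2097152) (nat_lit 8396653) (.one (nat_lit 2106120) .nil)))))),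
   .two (nat_lit 10506731588) (nat_lit 10921967798) (.two (nat_lit 11492392985) (nat_lit 184989778653) (.two (nat_lit 11492392968) (nat_lit 19532874546) (.two (nat_lit 9768534020) (nat_lit 251661792) (.two (nat_lit 4194305) (nat_lit 807409937) (.two (nat_lit 2097152) (nat_lit 2889883051) (.one (nat_lit 352330457) .nil)))))),
   .two (nat_lit 9948889268) (nat_lit 10007609688) (.two (nat_lit 285212699) (nat_lit 18933089024) (.two (nat_lit 713031688) (nat_lit 1761610231) (.two (nat_lit 9873391619) (nat_lit 2432700955) (.two (nat_lit 16777217) (nat_lit 343939349) (.two (nat_lit 4194304) (nat_lit 10376715607) (.one (nat_lit 8397577) .nil)))))),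
   .two (nat_lit 306184260) (nat_lit 10351542579) (.two (nat_lit 4634705960) (nat_lit 46422557456) (.two (nat_lit 272629768) (nat_lit 1358955313) (.two (nat_lit 11492392964) (nat_lit 2923432434) (.two (nat_lit 4194306) (nat_lit 166144774652) (.two (nat_lit 41943041) (nat_lit 11546925250) (.two (nat_lit 8388608) (nat_lit 4201943) (.one (nat_lit 4202856) .nil))))))),
   .two (nat_lit 9948889156) (nat_lit 46978302275) (.two (nat_lit 310378522) (nat_lit 1224737545) (.two (nat_lit 620757000) (nat_lit 47582283327) (.two (nat_lit 203423748) (nat_lit 2969569777) (.two (nat_lit 2954887171) (nat_lit 21818773977) (.two (nat_lit 2097153) (nat_lit 8395102) (.two (nat_lit 8388608) (nat_lit 2105198) (.one (nat_lit 2106122) .nil))))))),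
   .two (nat_lit 2969567300) (nat_lit 740294990) (.two (nat_lit 47548727322) (nat_lit 159266112270) (.two (nat_lit 169869320) (nat_lit 28705819924) (.two (nat_lit 169869314) (nat_lit 16782428) (.two (nat_lit 606076929) (nat_lit 21793610056) (.two (nat_lit 1048576) (nat_lit 2104792) (.one (nat_lit 11543781736) .nil)))))),
   .two (nat_lit 159217877060) (nat_lit 10552868932) (.two (nat_lit 47548727322) (nat_lit 10942939575) (.two (nat_lit 37748744) (nat_lit 46422558258) (.two (nat_lit 47548727300) (nat_lit 183953787385) (.two (nat_lit 169869314) (nat_lit 11479814627) (.two (nat_lit 156372041729) (nat_lit 183947499110) (.two (nat_lit 8388608) (nat_lit 9766444375) (.one (nat_lit 2106123) .nil))))))),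
   .two (nat_lit 889192628) (nat_lit 28093448470) (.two (nat_lit 2316304425) (nat_lit 9906946488) (.two (nat_lit 1745879048) (nat_lit 16779936) (.two (nat_lit 46984593412) (nat_lit 159232559616) (.two (nat_lit 9765388291) (nat_lit 16781871) (.two (nat_lit 34603009) (nat_lit 209721605) (.two (nat_lit 1048576) (nat_lit 8396655) (.one (nat_lit 8397580) .nil))))))),
   .two (nat_lit 159224168516) (nat_lit 47563407713) (.two (nat_lit 1291845657) (nat_lit 10003415783) (.two (nat_lit 1191182344) (nat_lit 171968052) (.two (nat_lit 83886084) (nat_lit 4638903775) (.two (nat_lit 50331649) (nat_lit 2990545681) (.one (nat_lit 876618058) .nil))))),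
   .two (nat_lit 46474985651) (nat_lit 10372514139) (.two (nat_lit 184993972250) (nat_lit 10437526231) (.two (nat_lit 4601151496) (nat_lit 1377830434) (.two (nat_lit 4601151492) (nat_lit 156976026132) (.two (nat_lit 2097153) (nat_lit 276831610) (.one (nat_lit 1786782019) .nil))))),
   .two (nat_lit 11559501892) (nat_lit 12047089987) (.two (nat_lit 11559501848) (nat_lit 46507492037) (.two (nat_lit 3460300808) (nat_lit 3472886276) (.two (nat_lit 605028355) (nat_lit 156548206045) (.two (nat_lit 34603009) (nat_lit 19545462358) (.two (nat_lit 1048576) (nat_lit 641736949) .nil))))),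
   .two (nat_lit 1947205700) (nat_lit 1795162814) (.two (nat_lit 11559501832) (nat_lit 183845785053) (.two (nat_lit 50331649) (nat_lit 10436483407) (.two (nat_lit 16777216) (nat_lit 9866059496) (.one (nat_lit 1057549) .nil)))),
   .two (nat_lit 156465365275) (nat_lit 46992982198) (.two (nat_lit 158192369691) (nat_lit 135267862) (.two (nat_lit 739246084) (nat_lit 721422834) (.two (nat_lit 11476664322) (nat_lit 166144773598) (.two (nat_lit 620756993) (nat_lit 2987400113) (.two (nat_lit 1048576) (nat_lit 16785264) (.one (nat_lit 2969575727) .nil)))))),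
   .two (nat_lit 9948889156) (nat_lit 11477713652) (.two (nat_lit 9881780232) (nat_lit 10504637696) (.two (nat_lit 3525312515) (nat_lit 2936017404) (.two (nat_lit 2097153) (nat_lit 16782952) (.two (nat_lit 2097152) (nat_lit 16784857) (.one (nat_lit 169877795) .nil))))),
   .two (nat_lit 12047089843) (nat_lit 1182794062) (.two (nat_lit 10343153702) (nat_lit 184986632886) (.two (nat_lit 47548727304) (nat_lit 9899607618) (.two (nat_lit 47548727300) (nat_lit 2420115957) (.two (nat_lit 11546918915) (nat_lit 12155097542) (.two (nat_lit 2097153) (nat_lit 10372520193) (.two (nat_lit 2097152) (nat_lit 8396657) (.one (nat_lit 4203278) .nil))))))),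
   .two (nat_lit 13224640580) (nat_lit 11517558963) (.two (nat_lit 46510637081) (nat_lit 166237045534) (.two (nat_lit 18933088264) (nat_lit 12618565154) (.two (nat_lit 18933088260) (nat_lit 2100532) (.two (nat_lit 156372041731) (nat_lit 2102365) (.two (nat_lit 156372041729) (nat_lit 641734988) (.two (nat_lit 8388608) (nat_lit 2105202) (.one (nat_lit 2106127) .nil))))))),
   .two (nat_lit 754974899) (nat_lit 1209008442) (.two (nat_lit 754974745) (nat_lit 9966715678) (.two (nat_lit 739246088) (nat_lit 822085139) (.two (nat_lit 10939793412) (nat_lit 2365592097) (.two (nat_lit 34603009) (nat_lit 183861516494) (.two (nat_lit 1048576) (nat_lit 16785267) (.one (nat_lit 1057552) .nil)))))),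
   .two (nat_lit 4634705988) (nat_lit 1411383617) (.two (nat_lit 184993972249) (nat_lit 9902752468) (.two (nat_lit 176160776) (nat_lit 47584380453) (.two (nat_lit 159224168452) (nat_lit 2353009095) (.two (nat_lit 4194305) (nat_lit 2103647) (.two (nat_lit 4194304) (nat_lit 2105204) (.one (nat_lit 4203281) .nil)))))),
   .two (nat_lit 47582281796) (nat_lit 46477083064) (.two (nat_lit 37748744) (nat_lit 184423548459) (.two (nat_lit 9867100164) (nat_lit 10913582381) (.two (nat_lit 4194306) (nat_lit 2350911965) (.two (nat_lit 8388609) (nat_lit 775952663) (.two (nat_lit 2097152) (nat_lit 4201946) (.one (nat_lit 2105705) .nil)))))),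
   .two (nat_lit 11577327901) (nat_lit 156539814074) (.two (nat_lit 2969567259) (nat_lit 21214790363) (.two (nat_lit 218103816) (nat_lit 157043132583) (.two (nat_lit 28086108166) (nat_lit 847252745) (.two (nat_lit 156364701699) (nat_lit 156573372930) (.two (nat_lit 16777217) (nat_lit 1055072) (.two (nat_lit 1048576) (nat_lit 8396661) (.one (nat_lit 1057554) .nil))))))),
   .two (nat_lit 8388676) (nat_lit 4647289623) (.two (nat_lit 101711880) (nat_lit 46514832948) (.two (nat_lit 285212676) (nat_lit 1417677296) (.two (nat_lit 16777218) (nat_lit 2927629920) (.two (nat_lit 8388608) (nat_lit 166229713191) .nil)))),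
   .two (nat_lit 809500740) (nat_lit 165540790572) (.two (nat_lit 4634705946) (nat_lit 83886846) (.two (nat_lit 10519314440) (nat_lit 773851638) (.two (nat_lit 2969567235) (nat_lit 1210060251) (.two (nat_lit 37748737) (nat_lit 21812485035) (.two (nat_lit 16777216) (nat_lit 2105206) (.one (nat_lit 2106131) .nil)))))),
   .two (nat_lit 306184260) (nat_lit 158150426916) (.two (nat_lit 11618222105) (nat_lit 10519314873) (.two (nat_lit 713031688) (nat_lit 184431937675) (.two (nat_lit 754974724) (nat_lit 37253812702) (.two (nat_lit 9781116929) (nat_lit 10947139814) (.two (nat_lit 8388608) (nat_lit 4202359) (.one (nat_lit 8397588) .nil)))))),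
   .two (nat_lit 620757060) (nat_lit 806355229) (.two (nat_lit 9940500519) (nat_lit 183928619743) (.two (nat_lit 184549384) (nat_lit 1947207813) (.two (nat_lit 612368388) (nat_lit 174701153756) (.two (nat_lit 8388609) (nat_lit 1054313) (.two (nat_lit 8388608) (nat_lit 1056632) (.one (nat_lit 16786197) .nil)))))),
   .two (nat_lit 880803908) (nat_lit 20737687862) (.two (nat_lit 272629784) (nat_lit 12617515799) (.two (nat_lit 713031688) (nat_lit 185023333925) (.two (nat_lit 184993972228) (nat_lit 71306539) (.two (nat_lit 12054429699) (nat_lit 3024098385) (.two (nat_lit 37748737) (nat_lit 11551119692) (.two (nat_lit 4194304) (nat_lit 1056634) (.one (nat_lit 1057559) .nil))))))),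
   .two (nat_lit 285212740) (nat_lit 13191086404) (.two (nat_lit 285212696) (nat_lit 9802089266) (.two (nat_lit 4194308) (nat_lit 16779760) (.two (nat_lit 4194306) (nat_lit 174768262619) (.two (nat_lit 4194305) (nat_lit 20719867481) (.two (nat_lit 1048576) (nat_lit 1950359867) .nil))))),
   .two (nat_lit 13224640580) (nat_lit 21214789816) (.two (nat_lit 4605345817) (nat_lit 19130221246) (.two (nat_lit 4605345800) (nat_lit 19130221362) (.two (nat_lit 4194308) (nat_lit 343935474) (.two (nat_lit 4194306) (nat_lit 1853885915) (.two (nat_lit 41943041) (nat_lit 11476670811) (.two (nat_lit 8388608) (nat_lit 9798951159) .nil)))))),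
   .two (nat_lit 46474985540) (nat_lit 675283297) (.two (nat_lit 2889875482) (nat_lit 159250383289) (.two (nat_lit 2889875464) (nat_lit 2316305983) (.two (nat_lit 68157444) (nat_lit 28691139072) (.two (nat_lit 272629763) (nat_lit 672141782) (.two (nat_lit 4194305) (nat_lit 11006908677) (.two (nat_lit 2097152) (nat_lit 4202363) (.one (nat_lit 2106136) .nil))))))),
   .two (nat_lit 156581756996) (nat_lit 9802088516) (.two (nat_lit 306184217) (nat_lit 46489666289) (.two (nat_lit 18933088264) (nat_lit 10519316997) (.two (nat_lit 156372041731) (nat_lit 9814675972) (.two (nat_lit 41943041) (nat_lit 4200682) (.two (nat_lit 8388608) (nat_lit 4202364) (.one (nat_lit 813703495) .nil)))))),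
   .two (nat_lit 4028629171) (nat_lit 28697428270) (.two (nat_lit 203423771) (nat_lit 8389355) (.two (nat_lit 46414168072) (nat_lit 46508541477) (.two (nat_lit 104857604) (nat_lit 740297209) (.two (nat_lit 21778923523) (nat_lit 209719781) (.two (nat_lit 9768534017) (nat_lit 37247523048) (.two (nat_lit 4194304) (nat_lit 35660022) .nil)))))),
   .two (nat_lit 343932996) (nat_lit 1279263054) (.two (nat_lit 2954887192) (nat_lit 46980399895) (.two (nat_lit 813694984) (nat_lit 4634707476) (.two (nat_lit 4605345796) (nat_lit 11513367816) (.two (nat_lit 46414168067) (nat_lit 2102366) (.two (nat_lit 2097153) (nat_lit 276830540) (.two (nat_lit 2097152) (nat_lit 4202365) (.one (nat_lit 2106137) .nil))))))),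
   .two (nat_lit 11559501892) (nat_lit 1846542659) (.two (nat_lit 174688567323) (nat_lit 20753416919) (.two (nat_lit 12114198536) (nat_lit 46422558260) (.two (nat_lit 754974724) (nat_lit 159219978003) (.two (nat_lit 9933160451) (nat_lit 11593061423) (.two (nat_lit 4194305) (nat_lit 1055073) (.two (nat_lit 1048576) (nat_lit 4202366) (.one (nat_lit 4203048) .nil))))))),
   .two (nat_lit 889192516) (nat_lit 209715930) (.two (nat_lit 46414168072) (nat_lit 2902460563) (.two (nat_lit 9948889092) (nat_lit 12148804089) (.two (nat_lit 4605345795) (nat_lit 3539997201) (.two (nat_lit 2097153) (nat_lit 1954552598) (.one (nat_lit 1182802177) .nil))))),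
   .two (nat_lit 41943108) (nat_lit 1795162397) (.two (nat_lit 1795162155) (nat_lit 1746928057) (.two (nat_lit 13203669000) (nat_lit 10007611888) (.two (nat_lit 16777218) (nat_lit 8393264) (.two (nat_lit 50331649) (nat_lit 276830505) (.two (nat_lit 2097152) (nat_lit 16785280) (.one (nat_lit 2106139) .nil)))))),
   .two (nat_lit 10007609412) (nat_lit 20719861944) (.two (nat_lit 285212697) (nat_lit 10007610161) (.two (nat_lit 176160772) (nat_lit 3021999341) (.two (nat_lit 16777218) (nat_lit 343936474) (.two (nat_lit 8388609) (nat_lit 11544828134) (.two (nat_lit 8388608) (nat_lit 10336870691) .nil))))),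
   .two (nat_lit 16777284) (nat_lit 28093448465) (.two (nat_lit 1426063387) (nat_lit 1853883131) (.two (nat_lit 184549384) (nat_lit 813697209) (.two (nat_lit 20644364292) (nat_lit 16781077) (.two (nat_lit 159224168451) (nat_lit 16782432) (.two (nat_lit 16777217) (nat_lit 8395702) (.two (nat_lit 8388608) (nat_lit 16785281) (.one (nat_lit 8397163) .nil))))))),
   .two (nat_lit 822083652) (nat_lit 612368707) (.two (nat_lit 1417674790) (nat_lit 16778019) (.two (nat_lit 639631368) (nat_lit 9915336244) (.two (nat_lit 50331652) (nat_lit 4605348337) (.two (nat_lit 721420291) (nat_lit 2418020847) (.two (nat_lit 50331649) (nat_lit 18926803193) (.two (nat_lit 2097152) (nat_lit 16785282) (.one (nat_lit 2105708) .nil))))))),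
   .two (nat_lit 3525312580) (nat_lit 12117344324) (.two (nat_lit 12117344281) (nat_lit 773849833) (.two (nat_lit 11543773192) (nat_lit 9969863160) (.two (nat_lit 705691650) (nat_lit 706744816) (.two (nat_lit 605028353) (nat_lit 46474991818) (.two (nat_lit 1048576) (nat_lit 4201949) (.one (nat_lit 174752538869) .nil)))))),
   .two (nat_lit 4194483) (nat_lit 183962173777) (.two (nat_lit 620757028) (nat_lit 9798943480) (.two (nat_lit 3539992584) (nat_lit 843056659) (.two (nat_lit 9881780228) (nat_lit 2101014) (.two (nat_lit 2902458370) (nat_lit 1053793) (.two (nat_lit 2097153) (nat_lit 19529734498) (.two (nat_lit 2097152) (nat_lit 1056645) (.one (nat_lit 1057565) .nil))))))),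
   .two (nat_lit 47582281796) (nat_lit 4194774) (.two (nat_lit 47548727322) (nat_lit 28793897704) (.two (nat_lit 3525312520) (nat_lit 4634708465) (.two (nat_lit 18928893955) (nat_lit 773853686) (.two (nat_lit 2097153) (nat_lit 4200803) (.two (nat_lit 16777216) (nat_lit 156466422085) .nil))))),
   .two (nat_lit 183946444979) (nat_lit 46510637338) (.two (nat_lit 158177689625) (nat_lit 156465365696) (.two (nat_lit 3527409672) (nat_lit 2886733101) (.two (nat_lit 20638072834) (nat_lit 1954550870) (.two (nat_lit 4194305) (nat_lit 1055671) (.two (nat_lit 8388608) (nat_lit 1056647) (.one (nat_lit 1057568) .nil)))))),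
   .two (nat_lit 654311492) (nat_lit 1344274742) (.two (nat_lit 21208498201) (nat_lit 9982444323) (.two (nat_lit 46407876616) (nat_lit 9814672920) (.two (nat_lit 46407876612) (nat_lit 12062820854) (.two (nat_lit 2097155) (nat_lit 1291851364) (.two (nat_lit 1048576) (nat_lit 1914708269) .nil))))),
   .two (nat_lit 285212740) (nat_lit 159219974326) (.two (nat_lit 183916036122) (nat_lit 28101837512) (.two (nat_lit 285212680) (nat_lit 2353006144) (.two (nat_lit 16777220) (nat_lit 10338962656) (.two (nat_lit 16777218) (nat_lit 4198961) (.two (nat_lit 16777217) (nat_lit 20640176464) (.two (nat_lit 4194304) (nat_lit 8396254) (.one (nat_lit 8397601) .nil))))))),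
   .two (nat_lit 1291845811) (nat_lit 2097510) (.two (nat_lit 1291845657) (nat_lit 304088633) (.two (nat_lit 10343153669) (nat_lit 28705819883) (.two (nat_lit 50331651) (nat_lit 1216353312) (.two (nat_lit 41943041) (nat_lit 35658027) (.two (nat_lit 8388608) (nat_lit 2104799) (.one (nat_lit 8397602) .nil)))))),
   .two (nat_lit 285212740) (nat_lit 4194777) (.two (nat_lit 11626610715) (nat_lit 9772728761) (.two (nat_lit 822083592) (nat_lit 104859780) (.two (nat_lit 21214789636) (nat_lit 1325402613) (.two (nat_lit 184549379) (nat_lit 11479815200) (.two (nat_lit 37748737) (nat_lit 185002365582) (.two (nat_lit 4194304) (nat_lit 158192376599) (.one (nat_lit 16786211) .nil))))))),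
   .two (nat_lit 9881780404) (nat_lit 4194663) (.two (nat_lit 754974745) (nat_lit 1950352085) (.two (nat_lit 809500680) (nat_lit 9781119116) (.two (nat_lit 218103812) (nat_lit 20640172537) (.two (nat_lit 11546918915) (nat_lit 46422561253) (.two (nat_lit 16777217) (nat_lit 1914706148) (.two (nat_lit 2097152) (nat_lit 1413488886) .nil)))))),
   .two (nat_lit 11559501892) (nat_lit 1379926323) (.two (nat_lit 11626610714) (nat_lit 4195467) (.two (nat_lit 205520904) (nat_lit 174701152770) (.two (nat_lit 822083587) (nat_lit 4197853) (.two (nat_lit 9765388289) (nat_lit 1950358964) (.one (nat_lit 4203300) .nil))))),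
   .two (nat_lit 156968681651) (nat_lit 28693233942) (.two (nat_lit 28690087962) (nat_lit 4195468) (.two (nat_lit 205520904) (nat_lit 16779454) (.two (nat_lit 9768534020) (nat_lit 9933163745) (.two (nat_lit 2889875458) (nat_lit 9933165634) (.two (nat_lit 4194305) (nat_lit 68164530) (.two (nat_lit 1048576) (nat_lit 4202183) (.one (nat_lit 1057573) .nil))))))),
   .two (nat_lit 11007950916) (nat_lit 847249743) (.two (nat_lit 41943067) (nat_lit 16777922) (.two (nat_lit 721420296) (nat_lit 156976023085) (.two (nat_lit 639631364) (nat_lit 1283460391) (.two (nat_lit 721420290) (nat_lit 156472709634) (.two (nat_lit 620756993) (nat_lit 37314631932) (.two (nat_lit 2097152) (nat_lit 8396688) (.one (nat_lit 2105906) .nil))))))),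
   .two (nat_lit 843055172) (nat_lit 4647289623) (.two (nat_lit 4601151496) (nat_lit 1795163668) (.two (nat_lit 285212676) (nat_lit 166232852996) (.two (nat_lit 4194306) (nat_lit 620760537) (.two (nat_lit 4194305) (nat_lit 654319046) (.one (nat_lit 3024101697) .nil))))),
   .two (nat_lit 8388676) (nat_lit 1795162380) (.two (nat_lit 9881780249) (nat_lit 10335814073) (.two (nat_lit 101711880) (nat_lit 156573369908) (.two (nat_lit 184416206852) (nat_lit 4613736948) (.two (nat_lit 16777219) (nat_lit 1417679381) (.two (nat_lit 34603009) (nat_lit 12062824719) (.two (nat_lit 1048576) (nat_lit 352329611) (.one (nat_lit 12047098101) .nil))))))),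
   .two (nat_lit 10538188868) (nat_lit 46477082803) (.two (nat_lit 4030726171) (nat_lit 773849800) (.two (nat_lit 742391816) (nat_lit 28790752050) (.two (nat_lit 169869316) (nat_lit 775950098) (.two (nat_lit 11479810050) (nat_lit 158077030873) (.two (nat_lit 2097153) (nat_lit 1055673) (.two (nat_lit 2097152) (nat_lit 4202387) (.one (nat_lit 2106150) .nil))))))),
   .two (nat_lit 620757060) (nat_lit 156472705207) (.two (nat_lit 16777240) (nat_lit 10007609783) (.two (nat_lit 16777224) (nat_lit 171968034) (.two (nat_lit 16777220) (nat_lit 10003417594) (.two (nat_lit 16777218) (nat_lit 28089258472) (.two (nat_lit 9768534017) (nat_lit 166203496693) (.two (nat_lit 4194304) (nat_lit 8396237) (.one (nat_lit 4203303) .nil))))))),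
   .two (nat_lit 19027460276) (nat_lit 1761607866) (.two (nat_lit 9948889115) (nat_lit 2097882) (.two (nat_lit 1291845640) (nat_lit 11544823325) (.two (nat_lit 46978301956) (nat_lit 9814673911) (.two (nat_lit 46407876610) (nat_lit 2936017357) (.two (nat_lit 2097153) (nat_lit 4043315988) (.one (nat_lit 1277174017) .nil)))))),
   .two (nat_lit 159224168516) (nat_lit 47563407713) (.two (nat_lit 47555018776) (nat_lit 608174823) (.two (nat_lit 9781116936) (nat_lit 171968052) (.two (nat_lit 612368388) (nat_lit 318770655) (.two (nat_lit 8388609) (nat_lit 47584385809) (.one (nat_lit 4202862) .nil))))),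
   .two (nat_lit 13191086148) (nat_lit 21785215155) (.two (nat_lit 4601151514) (nat_lit 1786774267) (.two (nat_lit 75497480) (nat_lit 3560965675) (.two (nat_lit 1780482052) (nat_lit 4198167) (.two (nat_lit 69206019) (nat_lit 19100865057) (.two (nat_lit 2097153) (nat_lit 157043137298) (.one (nat_lit 2106152) .nil)))))),
   .two (nat_lit 10015998020) (nat_lit 13195281087) (.two (nat_lit 16777224) (nat_lit 9873393183) (.two (nat_lit 3464495108) (nat_lit 1862273528) (.two (nat_lit 21223178243) (nat_lit 1216353329) (.two (nat_lit 156367847425) (nat_lit 318773533) (.two (nat_lit 4194304) (nat_lit 8396256) (.one (nat_lit 8397609) .nil)))))),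
   .two (nat_lit 21785215155) (nat_lit 21223178549) (.two (nat_lit 285212697) (nat_lit 10510926265) (.two (nat_lit 50331656) (nat_lit 142608905) (.two (nat_lit 2902458371) (nat_lit 28697432603) (.two (nat_lit 41943041) (nat_lit 46422564220) (.one (nat_lit 2106154) .nil))))),
   .two (nat_lit 9948889268) (nat_lit 183947493678) (.two (nat_lit 218103833) (nat_lit 304087771) (.two (nat_lit 809500680) (nat_lit 19142805667) (.two (nat_lit 9867100164) (nat_lit 1224741378) (.two (nat_lit 4194305) (nat_lit 2103654) (.two (nat_lit 2097152) (nat_lit 16785300) (.one (nat_lit 2106155) .nil)))))),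
   .two (nat_lit 174686470323) (nat_lit 156472705208) (.two (nat_lit 243269659) (nat_lit 337642191) (.two (nat_lit 47555018760) (nat_lit 2099391) (.two (nat_lit 176160772) (nat_lit 12148806177) (.two (nat_lit 156365750273) (nat_lit 3464502181) (.two (nat_lit 2097152) (nat_lit 8396693) (.one (nat_lit 2106156) .nil)))))),
   .two (nat_lit 8388676) (nat_lit 10385096984) (.two (nat_lit 218103833) (nat_lit 10335814073) (.two (nat_lit 4613734408) (nat_lit 184423550429) (.two (nat_lit 41943041) (nat_lit 11006908742) (.two (nat_lit 1048576) (nat_lit 16785302) (.one (nat_lit 1795170971) .nil))))),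
   .two (nat_lit 166230753460) (nat_lit 8388969) (.two (nat_lit 2954887194) (nat_lit 847250132) (.two (nat_lit 37748744) (nat_lit 1417677299) (.two (nat_lit 69206019) (nat_lit 813699606) (.two (nat_lit 2097153) (nat_lit 71309516) (.two (nat_lit 2097152) (nat_lit 4202391) (.one (nat_lit 4203309) .nil)))))),
   .two (nat_lit 13237223492) (nat_lit 19599983032) (.two (nat_lit 2902458376) (nat_lit 20707281568) (.two (nat_lit 606076932) (nat_lit 47563410909) (.two (nat_lit 2097153) (nat_lit 708843708) (.two (nat_lit 2097152) (nat_lit 1346380083) .nil)))),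
   .two (nat_lit 13195280452) (nat_lit 37247516855) (.two (nat_lit 339738649) (nat_lit 158653743832) (.two (nat_lit 809500680) (nat_lit 21207451180) (.two (nat_lit 156372041733) (nat_lit 158146234878) (.two (nat_lit 47550824451) (nat_lit 8393827) (.two (nat_lit 605028353) (nat_lit 8395706) (.two (nat_lit 2097152) (nat_lit 1056665) (.one (nat_lit 1057582) .nil))))))),
   .two (nat_lit 47596961860) (nat_lit 19128123574) (.two (nat_lit 159217877019) (nat_lit 13203669746) (.two (nat_lit 654311432) (nat_lit 2954888771) (.two (nat_lit 1376780293) (nat_lit 174686473459) (.two (nat_lit 9933160451) (nat_lit 21778928162) (.two (nat_lit 9765388289) (nat_lit 639637693) (.two (nat_lit 1048576) (nat_lit 2104801) (.one (nat_lit 1057583) .nil))))))),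
   .two (nat_lit 1753219140) (nat_lit 101712178) (.two (nat_lit 184416206874) (nat_lit 184423547633) (.two (nat_lit 4613734408) (nat_lit 209717399) (.two (nat_lit 12047089668) (nat_lit 10376711428) (.two (nat_lit 713031682) (nat_lit 269488649) (.two (nat_lit 34603009) (nat_lit 16783719) (.two (nat_lit 1048576) (nat_lit 16784866) (.one (nat_lit 1057337) .nil))))))),
   .two (nat_lit 1358954564) (nat_lit 183912890436) (.two (nat_lit 11559501850) (nat_lit 269484772) (.two (nat_lit 11559501832) (nat_lit 183946446402) (.two (nat_lit 739246084) (nat_lit 3472887072) (.two (nat_lit 11543773187) (nat_lit 184554000) (.two (nat_lit 34603009) (nat_lit 16783720) (.two (nat_lit 4194304) (nat_lit 705698578) (.one (nat_lit 1057135) .nil))))))),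
   .two (nat_lit 117440580) (nat_lit 1276117345) (.two (nat_lit 11559501850) (nat_lit 9933161159) (.two (nat_lit 276824072) (nat_lit 11492395504) (.two (nat_lit 176160771) (nat_lit 10537144778) (.two (nat_lit 8388609) (nat_lit 605034734) (.two (nat_lit 1048576) (nat_lit 9940507408) (.one (nat_lit 3524272440) .nil)))))),
   .two (nat_lit 2969567411) (nat_lit 2097514) (.two (nat_lit 47596961818) (nat_lit 1176503865) (.two (nat_lit 12050235396) (nat_lit 158662134275) (.two (nat_lit 16777218) (nat_lit 10370421792) (.two (nat_lit 4194305) (nat_lit 156481100570) (.one (nat_lit 840966445) .nil))))),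
   .two (nat_lit 9948889156) (nat_lit 10370416988) (.two (nat_lit 2969567256) (nat_lit 2988442303) (.two (nat_lit 9948889096) (nat_lit 1176503839) (.two (nat_lit 12050235396) (nat_lit 1426066738) (.two (nat_lit 203423747) (nat_lit 12129930719) (.two (nat_lit 37748737) (nat_lit 740300996) (.two (nat_lit 4194304) (nat_lit 9934216672) (.one (nat_lit 1279271676) .nil))))))),
   .two (nat_lit 47582281796) (nat_lit 11010048068) (.two (nat_lit 3527409688) (nat_lit 3558867642) (.two (nat_lit 46978301960) (nat_lit 28089256087) (.two (nat_lit 156365750276) (nat_lit 9902755048) (.two (nat_lit 50331651) (nat_lit 13188993564) (.two (nat_lit 50331649) (nat_lit 13222549829) (.two (nat_lit 16777216) (nat_lit 2105243) (.one (nat_lit 10519323206) .nil))))))),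
   .two (nat_lit 183912890436) (nat_lit 46422557006) (.two (nat_lit 11626610714) (nat_lit 2953839353) (.two (nat_lit 11559501832) (nat_lit 873465394) (.two (nat_lit 46984593412) (nat_lit 3036679469) (.two (nat_lit 3531603971) (nat_lit 166245438550) (.two (nat_lit 8388609) (nat_lit 1055081) (.two (nat_lit 8388608) (nat_lit 1056669) (.one (nat_lit 1057584) .nil))))))),
   .two (nat_lit 2954887236) (nat_lit 157038936132) (.two (nat_lit 3558866969) (nat_lit 12150899416) (.two (nat_lit 10370416648) (nat_lit 10439624835) (.two (nat_lit 2887778308) (nat_lit 165528210709) (.two (nat_lit 4599054339) (nat_lit 1212158510) (.two (nat_lit 2097153) (nat_lit 809507118) (.two (nat_lit 2097152) (nat_lit 11510226390) (.one (nat_lit 1057136) .nil))))))),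
   .two (nat_lit 4634706099) (nat_lit 11525947750) (.two (nat_lit 4634705945) (nat_lit 788530745) (.two (nat_lit 809500676) (nat_lit 10452208120) (.two (nat_lit 285212675) (nat_lit 37316727292) (.two (nat_lit 156372041729) (nat_lit 37316729027) (.two (nat_lit 8388608) (nat_lit 1379933536) (.one (nat_lit 4202865) .nil)))))),
   .two (nat_lit 343932996) (nat_lit 3524264122) (.two (nat_lit 21777874971) (nat_lit 343933626) (.two (nat_lit 2902458376) (nat_lit 156364703261) (.two (nat_lit 2902458372) (nat_lit 1209010681) (.two (nat_lit 10343153667) (nat_lit 1846546958) (.two (nat_lit 9781116929) (nat_lit 158653750683) (.one (nat_lit 1057138) .nil)))))),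
   .two (nat_lit 47596961860) (nat_lit 11010048743) (.two (nat_lit 620757000) (nat_lit 159219975728) (.two (nat_lit 47563407364) (nat_lit 47584382259) (.two (nat_lit 2902458370) (nat_lit 12121543212) (.two (nat_lit 16777217) (nat_lit 4200811) (.two (nat_lit 1048576) (nat_lit 11546927435) .nil))))),
   .two (nat_lit 2969567300) (nat_lit 2887778656) (.two (nat_lit 2969567256) (nat_lit 158144135873) (.two (nat_lit 10370416648) (nat_lit 9948891633) (.two (nat_lit 21778923523) (nat_lit 21793608802) (.two (nat_lit 37748737) (nat_lit 1277173161) (.one (nat_lit 2106163) .nil))))),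
   .two (nat_lit 10007609523) (nat_lit 16777579) (.two (nat_lit 75497499) (nat_lit 12062819897) (.two (nat_lit 612368388) (nat_lit 20652755468) (.two (nat_lit 721420291) (nat_lit 47555022298) (.two (nat_lit 50331649) (nat_lit 41949975) (.one (nat_lit 8397171) .nil))))),
   .two (nat_lit 20644364468) (nat_lit 18928894131) (.two (nat_lit 156367847451) (nat_lit 746586845) (.two (nat_lit 10519314440) (nat_lit 10540288509) (.two (nat_lit 2902458371) (nat_lit 239079979) (.two (nat_lit 37748737) (nat_lit 28798098198) (.one (nat_lit 4203316) .nil))))),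
   .two (nat_lit 9948889156) (nat_lit 10538189239) (.two (nat_lit 2969567240) (nat_lit 166230754837) (.two (nat_lit 620756996) (nat_lit 183846834663) (.two (nat_lit 2097153) (nat_lit 9881786679) (.two (nat_lit 2097152) (nat_lit 16785310) (.one (nat_lit 158177698057) .nil))))),
   .two (nat_lit 1417674931) (nat_lit 13203669337) (.two (nat_lit 612368411) (nat_lit 10351542713) (.two (nat_lit 713031688) (nat_lit 184431937087) (.two (nat_lit 3539992580) (nat_lit 156539816439) (.two (nat_lit 2902458371) (nat_lit 10510929371) (.two (nat_lit 16777217) (nat_lit 9940505230) (.two (nat_lit 1048576) (nat_lit 2104734) (.one (nat_lit 8397623) .nil))))))),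
   .two (nat_lit 183916036164) (nat_lit 156465365172) (.two (nat_lit 12617515033) (nat_lit 28693234358) (.two (nat_lit 184416206856) (nat_lit 18928896137) (.two (nat_lit 183845781508) (nat_lit 4198168) (.two (nat_lit 203423747) (nat_lit 157035794988) (.two (nat_lit 2097153) (nat_lit 1055085) (.two (nat_lit 2097152) (nat_lit 1056675) (.one (nat_lit 2106168) .nil))))))),
   .two (nat_lit 10007609412) (nat_lit 47548727736) (.two (nat_lit 813694984) (nat_lit 4634707475) (.two (nat_lit 41943044) (nat_lit 2101017) (.two (nat_lit 8388610) (nat_lit 37314630109) (.two (nat_lit 2097153) (nat_lit 4201404) (.two (nat_lit 2097152) (nat_lit 8396708) (.one (nat_lit 2106169) .nil)))))),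
   .two (nat_lit 183916036276) (nat_lit 158646403252) (.two (nat_lit 19096666139) (nat_lit 34603741) (.two (nat_lit 21785214984) (nat_lit 1050817) (.two (nat_lit 1350565892) (nat_lit 183946449397) (.two (nat_lit 41943041) (nat_lit 1379932498) (.two (nat_lit 4194304) (nat_lit 2953846118) (.one (nat_lit 1057594) .nil)))))),
   .two (nat_lit 11559501892) (nat_lit 10503585973) (.two (nat_lit 11559501848) (nat_lit 46977254148) (.two (nat_lit 739246088) (nat_lit 813696560) (.two (nat_lit 176160772) (nat_lit 16781082) (.two (nat_lit 176160770) (nat_lit 1053796) (.two (nat_lit 156364701697) (nat_lit 8395709) (.two (nat_lit 1048576) (nat_lit 8396711) (.one (nat_lit 1057596) .nil))))))),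
   .two (nat_lit 20753416372) (nat_lit 174686470583) (.two (nat_lit 16777224) (nat_lit 9873393190) (.two (nat_lit 183853121540) (nat_lit 1426065929) (.two (nat_lit 41943043) (nat_lit 285216218) (.two (nat_lit 612368385) (nat_lit 47563412110) (.two (nat_lit 2097152) (nat_lit 1392515859) (.one (nat_lit 16785780) .nil)))))),
   .two (nat_lit 20704133188) (nat_lit 10552869207) (.two (nat_lit 21207449627) (nat_lit 11022631677) (.two (nat_lit 11559501832) (nat_lit 10000270898) (.two (nat_lit 9866051588) (nat_lit 620759537) (.two (nat_lit 1343225859) (nat_lit 16782437) (.two (nat_lit 8388609) (nat_lit 34609401) (.two (nat_lit 8388608) (nat_lit 1056682) (.one (nat_lit 1057599) .nil))))))),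
   .two (nat_lit 2969567300) (nat_lit 10909385004) (.two (nat_lit 10552868891) (nat_lit 19029557975) (.two (nat_lit 4194312) (nat_lit 9948889905) (.two (nat_lit 4194308) (nat_lit 28705819131) (.two (nat_lit 11543773187) (nat_lit 71307747) (.two (nat_lit 9781116929) (nat_lit 2956990659) (.two (nat_lit 4194304) (nat_lit 158192377629) (.one (nat_lit 10003424004) .nil))))))),
   .two (nat_lit 159251431492) (nat_lit 21214789811) (.two (nat_lit 2954887192) (nat_lit 21793604335) (.two (nat_lit 203423752) (nat_lit 50333856) (.two (nat_lit 203423748) (nat_lit 10955525431) (.two (nat_lit 1358954499) (nat_lit 46481281493) (.two (nat_lit 2097153) (nat_lit 813701353) (.two (nat_lit 2097152) (nat_lit 4202411) (.one (nat_lit 4203329) .nil))))))),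
   .two (nat_lit 306184260) (nat_lit 1761607987) (.two (nat_lit 2994733083) (nat_lit 18928894391) (.two (nat_lit 50331656) (nat_lit 1749026952) (.two (nat_lit 272629764) (nat_lit 3573551664) (.two (nat_lit 8388609) (nat_lit 9869203775) (.two (nat_lit 8388608) (nat_lit 21814582741) (.one (nat_lit 4203330) .nil)))))),
   .two (nat_lit 158083318046) (nat_lit 9765388471) (.two (nat_lit 21777874971) (nat_lit 20644364727) (.two (nat_lit 158075977736) (nat_lit 645924396) (.two (nat_lit 165532401668) (nat_lit 2349862161) (.two (nat_lit 10343153667) (nat_lit 1053234) (.two (nat_lit 156364701697) (nat_lit 11517565151) (.two (nat_lit 1048576) (nat_lit 8396260) (.one (nat_lit 1057603) .nil))))))),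
   .two (nat_lit 822083652) (nat_lit 1379926309) (.two (nat_lit 285212696) (nat_lit 2990539485) (.two (nat_lit 9781116936) (nat_lit 9969862849) (.two (nat_lit 11479810052) (nat_lit 10921971163) (.two (nat_lit 16777217) (nat_lit 46409981286) (.one (nat_lit 16786244) .nil))))),
   .two (nat_lit 2902458652) (nat_lit 1853882550) (.two (nat_lit 8388634) (nat_lit 9781117634) (.two (nat_lit 2969567240) (nat_lit 21812479519) (.two (nat_lit 83886084) (nat_lit 37253810677) (.two (nat_lit 184549378) (nat_lit 2102374) (.two (nat_lit 41943041) (nat_lit 1277171942) (.two (nat_lit 8388608) (nat_lit 2105260) (.one (nat_lit 2317361657) .nil))))))),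
   .two (nat_lit 37313577028) (nat_lit 28758245816) (.two (nat_lit 158144135176) (nat_lit 166196152817) (.two (nat_lit 166130089987) (nat_lit 19127080034) (.two (nat_lit 9765388289) (nat_lit 2104254) (.two (nat_lit 1048576) (nat_lit 2105261) (.one (nat_lit 1057606) .nil))))),
   .two (nat_lit 1358954564) (nat_lit 10000269494) (.two (nat_lit 1913651227) (nat_lit 13237225025) (.two (nat_lit 158158815236) (nat_lit 1052444) (.two (nat_lit 21223178243) (nat_lit 1175458298) (.two (nat_lit 9765388289) (nat_lit 654317928) (.two (nat_lit 4194304) (nat_lit 1343234411) .nil))))),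
   .two (nat_lit 352321604) (nat_lit 157043130549) (.two (nat_lit 11626610715) (nat_lit 10376708851) (.two (nat_lit 12054429704) (nat_lit 28705818164) (.two (nat_lit 46984593412) (nat_lit 1862273526) (.two (nat_lit 713031683) (nat_lit 158192375390) (.two (nat_lit 1048576) (nat_lit 158183989585) .nil))))),
   .two (nat_lit 10385096883) (nat_lit 1847591234) (.two (nat_lit 10552868891) (nat_lit 174686471701) (.two (nat_lit 10385096708) (nat_lit 102763020) (.two (nat_lit 203423747) (nat_lit 11559505370) (.two (nat_lit 2097153) (nat_lit 47596968727) (.one (nat_lit 159266120051) .nil))))),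
   .two (nat_lit 10940842163) (nat_lit 754975071) (.two (nat_lit 158646403098) (nat_lit 16778381) (.two (nat_lit 19530776584) (nat_lit 16779940) (.two (nat_lit 19027460102) (nat_lit 11476666868) (.two (nat_lit 34603011) (nat_lit 165540794911) (.two (nat_lit 2097153) (nat_lit 16784320) (.two (nat_lit 2097152) (nat_lit 1056687) (.one (nat_lit 1057609) .nil))))))),
   .two (nat_lit 13195280669) (nat_lit 21223178425) (.two (nat_lit 16777241) (nat_lit 46481278518) (.two (nat_lit 16777220) (nat_lit 166237047301) (.two (nat_lit 184549379) (nat_lit 2994737673) (.two (nat_lit 16777217) (nat_lit 8395118) (.two (nat_lit 8388608) (nat_lit 16785328) (.one (nat_lit 8397173) .nil)))))),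
   .two (nat_lit 2988441668) (nat_lit 10385096883) (.two (nat_lit 9948889115) (nat_lit 10504635142) (.two (nat_lit 1795162120) (nat_lit 9900656829) (.two (nat_lit 2954887172) (nat_lit 2332037663) (.two (nat_lit 2097153) (nat_lit 16784321) (.two (nat_lit 2097152) (nat_lit 16785329) (.one (nat_lit 2105718) .nil)))))),
   .two (nat_lit 1753219252) (nat_lit 1392509253) (.two (nat_lit 2969567257) (nat_lit 21778924253) (.two (nat_lit 2969567240) (nat_lit 174686470962) (.two (nat_lit 713031684) (nat_lit 1862274528) (.two (nat_lit 612368385) (nat_lit 102768026) (.one (nat_lit 28791808272) .nil))))),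
   .two (nat_lit 612368452) (nat_lit 3472883898) (.two (nat_lit 117440539) (nat_lit 1749025209) (.two (nat_lit 8388616) (nat_lit 3472885275) (.two (nat_lit 1291845636) (nat_lit 47550829014) (.two (nat_lit 8388609) (nat_lit 285219074) (.two (nat_lit 16777216) (nat_lit 780149032) .nil))))),
   .two (nat_lit 156372042016) (nat_lit 12115247289) (.two (nat_lit 339738649) (nat_lit 343933367) (.two (nat_lit 4605345800) (nat_lit 166199297569) (.two (nat_lit 37748740) (nat_lit 10443819514) (.two (nat_lit 605028355) (nat_lit 21208503370) (.two (nat_lit 41943041) (nat_lit 28791806289) (.two (nat_lit 1048576) (nat_lit 2105267) (.one (nat_lit 1057611) .nil))))))),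
   .two (nat_lit 654311492) (nat_lit 270532918) (.two (nat_lit 13237223451) (nat_lit 9869198077) (.two (nat_lit 12050235400) (nat_lit 12062820868) (.two (nat_lit 69206019) (nat_lit 16780761) (.two (nat_lit 2097153) (nat_lit 21827163744) (.two (nat_lit 4194304) (nat_lit 151002473) (.one (nat_lit 1178607861) .nil)))))),
   .two (nat_lit 10538189084) (nat_lit 185023332534) (.two (nat_lit 639631387) (nat_lit 742392526) (.two (nat_lit 46980399112) (nat_lit 19597887021) (.two (nat_lit 158144135172) (nat_lit 11479813430) (.two (nat_lit 1277165570) (nat_lit 28793901586) (.two (nat_lit 9766436865) (nat_lit 4200815) (.two (nat_lit 2097152) (nat_lit 4202421) (.one (nat_lit 2105932) .nil))))))),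
   .two (nat_lit 183916036275) (nat_lit 1048941) (.two (nat_lit 21811429412) (nat_lit 185027527096) (.two (nat_lit 612368392) (nat_lit 185023334559) (.two (nat_lit 10336862212) (nat_lit 303041022) (.two (nat_lit 183845781506) (nat_lit 2102376) (.two (nat_lit 8388609) (nat_lit 2103664) (.two (nat_lit 4194304) (nat_lit 8396726) (.one (nat_lit 8397646) .nil))))))),
   .two (nat_lit 285212740) (nat_lit 10338959653) (.two (nat_lit 4601151514) (nat_lit 19142804274) (.two (nat_lit 272629764) (nat_lit 11578378742) (.two (nat_lit 2969567235) (nat_lit 28760347078) (.two (nat_lit 4194305) (nat_lit 2103665) (.two (nat_lit 4194304) (nat_lit 2105272) (.one (nat_lit 16786256) .nil)))))),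
   .two (nat_lit 8388676) (nat_lit 11492393663) (.two (nat_lit 50331656) (nat_lit 880806385) (.two (nat_lit 612368387) (nat_lit 101716474) (.two (nat_lit 50331649) (nat_lit 873471389) (.one (nat_lit 28086116904) .nil)))),
   .two (nat_lit 352321604) (nat_lit 165532402368) (.two (nat_lit 11559501832) (nat_lit 303040028) (.two (nat_lit 3464495108) (nat_lit 4043313662) (.two (nat_lit 8388609) (nat_lit 9948894821) (.two (nat_lit 1048576) (nat_lit 612376002) (.one (nat_lit 34611481) .nil))))),
   .two (nat_lit 13224640580) (nat_lit 10504634807) (.two (nat_lit 37748744) (nat_lit 11584669833) (.two (nat_lit 13191086084) (nat_lit 158077028852) (.two (nat_lit 3458203651) (nat_lit 21814579748) (.two (nat_lit 2097153) (nat_lit 4200819) (.two (nat_lit 2097152) (nat_lit 4201958) (.one (nat_lit 2106194) .nil)))))),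
   .two (nat_lit 16777284) (nat_lit 746586586) (.two (nat_lit 20644364333) (nat_lit 9982444259) (.two (nat_lit 16777224) (nat_lit 8390851) (.two (nat_lit 285212676) (nat_lit 11551117046) (.two (nat_lit 41943043) (nat_lit 12129931918) (.two (nat_lit 8388608) (nat_lit 28806486807) (.one (nat_lit 16786259) .nil)))))),
   .two (nat_lit 1962934340) (nat_lit 9933161178) (.two (nat_lit 10906238986) (nat_lit 251659824) (.two (nat_lit 174752530436) (nat_lit 156581761524) (.two (nat_lit 605028353) (nat_lit 83893666) (.one (nat_lit 1057025) .nil)))),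
   .two (nat_lit 156581756996) (nat_lit 9802088887) (.two (nat_lit 285212680) (nat_lit 28793898530) (.two (nat_lit 822083588) (nat_lit 10372516341) (.two (nat_lit 16777218) (nat_lit 876614181) (.two (nat_lit 4194305) (nat_lit 352328472) (.one (nat_lit 28793905381) .nil))))),
   .two (nat_lit 156569174084) (nat_lit 3021996342) (.two (nat_lit 158176641050) (nat_lit 19599983365) (.two (nat_lit 9768534024) (nat_lit 10537141797) (.two (nat_lit 12117344260) (nat_lit 9900657140) (.two (nat_lit 20638072834) (nat_lit 158646408279) (.two (nat_lit 605028353) (nat_lit 4200791) (.two (nat_lit 1048576) (nat_lit 4202427) (.one (nat_lit 1057620) .nil))))))),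
   .two (nat_lit 159251431492) (nat_lit 19100860598) (.two (nat_lit 46414168091) (nat_lit 9766437632) (.two (nat_lit 169869320) (nat_lit 343934483) (.two (nat_lit 174753579012) (nat_lit 46977255926) (.two (nat_lit 165526110211) (nat_lit 20637028840) (.two (nat_lit 605028353) (nat_lit 780146960) (.two (nat_lit 1048576) (nat_lit 8396732) (.one (nat_lit 1057621) .nil))))))),
   .two (nat_lit 822083652) (nat_lit 10007609523) (.two (nat_lit 343932955) (nat_lit 1795162805) (.two (nat_lit 176160776) (nat_lit 889194633) (.two (nat_lit 13203668996) (nat_lit 8391993) (.two (nat_lit 16777219) (nat_lit 166237049375) (.two (nat_lit 156365750273) (nat_lit 16783732) (.two (nat_lit 2097152) (nat_lit 11492401429) .nil)))))),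
   .two (nat_lit 285212740) (nat_lit 174755676460) (.two (nat_lit 11513364505) (nat_lit 185002361539) (.two (nat_lit 156372041736) (nat_lit 166199297564) (.two (nat_lit 11479810052) (nat_lit 46523224624) (.two (nat_lit 8388609) (nat_lit 4200821) (.two (nat_lit 4194304) (nat_lit 16785341) (.one (nat_lit 2889884183) .nil)))))),
   .two (nat_lit 9948889156) (nat_lit 156539814190) (.two (nat_lit 11559501849) (nat_lit 19100861193) (.two (nat_lit 2969567240) (nat_lit 18926798373) (.two (nat_lit 8388612) (nat_lit 10385099248) (.two (nat_lit 8388610) (nat_lit 13203672541) (.two (nat_lit 16777217) (nat_lit 2103547) (.two (nat_lit 2097152) (nat_lit 47588580788) (.one (nat_lit 35660064) .nil))))))),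
   .two (nat_lit 4601151556) (nat_lit 184993972512) (.two (nat_lit 46409973786) (nat_lit 158653743894) (.two (nat_lit 158083317769) (nat_lit 19532875923) (.two (nat_lit 20644364292) (nat_lit 19127079366) (.two (nat_lit 156364701697) (nat_lit 156535625312) (.two (nat_lit 1048576) (nat_lit 4202430) (.one (nat_lit 1057622) .nil)))))),
   .two (nat_lit 9899606303) (nat_lit 9982443705) (.two (nat_lit 754974746) (nat_lit 183946445526) (.two (nat_lit 654311432) (nat_lit 11477714461) (.two (nat_lit 28087156740) (nat_lit 10906242276) (.two (nat_lit 21777874947) (nat_lit 159232561621) (.two (nat_lit 16777217) (nat_lit 840964445) (.two (nat_lit 1048576) (nat_lit 185021243676) .nil)))))),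
   .two (nat_lit 352321604) (nat_lit 165532402104) (.two (nat_lit 16777224) (nat_lit 28697429564) (.two (nat_lit 75497476) (nat_lit 19612569051) (.two (nat_lit 41943041) (nat_lit 19109254745) (.two (nat_lit 1048576) (nat_lit 8396263) (.one (nat_lit 8397177) .nil))))),
   .two (nat_lit 218103988) (nat_lit 13222543662) (.two (nat_lit 1291845657) (nat_lit 183947494103) (.two (nat_lit 11479810056) (nat_lit 158091707949) (.two (nat_lit 742391812) (nat_lit 12062822885) (.two (nat_lit 2097153) (nat_lit 4201410) (.two (nat_lit 2097152) (nat_lit 4202433) (.one (nat_lit 16786263) .nil)))))),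
   .two (nat_lit 352321604) (nat_lit 1417675191) (.two (nat_lit 16777224) (nat_lit 10510927384) (.two (nat_lit 713031684) (nat_lit 166144772600) (.two (nat_lit 16777218) (nat_lit 28697432551) (.two (nat_lit 41943041) (nat_lit 16783705) (.two (nat_lit 1048576) (nat_lit 41950669) (.one (nat_lit 8397656) .nil)))))),
   .two (nat_lit 2969567300) (nat_lit 880804279) (.two (nat_lit 2969567257) (nat_lit 174692763174) (.two (nat_lit 8388616) (nat_lit 9781119472) (.two (nat_lit 16777220) (nat_lit 4605349338) (.two (nat_lit 16777219) (nat_lit 2961183374) (.two (nat_lit 16777217) (nat_lit 21818776339) (.two (nat_lit 16777216) (nat_lit 21818777839) (.one (nat_lit 75506523) .nil))))))),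
   .two (nat_lit 612368452) (nat_lit 654312241) (.two (nat_lit 8388616) (nat_lit 4196852) (.two (nat_lit 41943044) (nat_lit 1413484996) (.two (nat_lit 184549378) (nat_lit 343937677) (.two (nat_lit 16777217) (nat_lit 339745554) (.two (nat_lit 4194304) (nat_lit 183861518568) (.one (nat_lit 176169820) .nil)))))),
   .two (nat_lit 47555018820) (nat_lit 3003122449) (.two (nat_lit 11559501848) (nat_lit 10335815219) (.two (nat_lit 176160776) (nat_lit 1191184880) (.two (nat_lit 50331652) (nat_lit 109055451) (.two (nat_lit 46422556675) (nat_lit 109057620) (.two (nat_lit 16777217) (nat_lit 8396208) (.two (nat_lit 1048576) (nat_lit 1283465458) (.one (nat_lit 8397665) .nil))))))),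
   .two (nat_lit 9948889156) (nat_lit 10947134171) (.two (nat_lit 2969567256) (nat_lit 156365751845) (.two (nat_lit 8388616) (nat_lit 10385099248) (.two (nat_lit 620756996) (nat_lit 1283460572) (.two (nat_lit 12062818307) (nat_lit 1283462741) (.two (nat_lit 16777217) (nat_lit 183853129123) (.two (nat_lit 2097152) (nat_lit 11484012786) (.one (nat_lit 1283466073) .nil))))))),
   .two (nat_lit 822083652) (nat_lit 9806283541) (.two (nat_lit 159224168484) (nat_lit 822084401) (.two (nat_lit 50331656) (nat_lit 156372045273) (.two (nat_lit 8388611) (nat_lit 158091712085) (.two (nat_lit 8388609) (nat_lit 16784819) (.two (nat_lit 8388608) (nat_lit 16785716) (.one (nat_lit 47563416410) .nil)))))),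
   .two (nat_lit 4601151556) (nat_lit 20638074436) (.two (nat_lit 4601151492) (nat_lit 11610884611) (.two (nat_lit 4194306) (nat_lit 1053769) (.two (nat_lit 4194305) (nat_lit 1055651) (.two (nat_lit 1048576) (nat_lit 4202289) (.one (nat_lit 4203424) .nil))))),
   .two (nat_lit 46508540083) (nat_lit 19130220724) (.two (nat_lit 11610882087) (nat_lit 12121539329) (.two (nat_lit 158144135176) (nat_lit 1947206450) (.two (nat_lit 4194308) (nat_lit 21778926874) (.two (nat_lit 3531603971) (nat_lit 2887782925) (.two (nat_lit 156372041729) (nat_lit 165528213762) (.two (nat_lit 2097152) (nat_lit 4202303) (.one (nat_lit 4203425) .nil))))))),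
   .two (nat_lit 174752530500) (nat_lit 706740979) (.two (nat_lit 28757196808) (nat_lit 166144771636) (.two (nat_lit 28757196804) (nat_lit 2954891014) (.two (nat_lit 34603011) (nat_lit 4613739567) (.two (nat_lit 2097153) (nat_lit 34610934) (.one (nat_lit 1057698) .nil))))),
   .two (nat_lit 159224168734) (nat_lit 174701150529) (.two (nat_lit 47555018778) (nat_lit 3036676887) (.two (nat_lit 176160776) (nat_lit 156380433677) (.two (nat_lit 16777218) (nat_lit 1384124953) (.two (nat_lit 612368385) (nat_lit 2432702750) (.two (nat_lit 8388608) (nat_lit 16785217) (.one (nat_lit 8397731) .nil)))))),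
   .two (nat_lit 3573547187) (nat_lit 10907287732) (.two (nat_lit 46523219994) (nat_lit 19530777319) (.two (nat_lit 169869320) (nat_lit 10452207774) (.two (nat_lit 169869316) (nat_lit 16781069) (.two (nat_lit 34603011) (nat_lit 16783035) (.two (nat_lit 2097153) (nat_lit 16784978) (.two (nat_lit 1048576) (nat_lit 2105155) (.one (nat_lit 1057700) .nil))))))),
   .two (nat_lit 47555018820) (nat_lit 1344275154) (.two (nat_lit 10385096712) (nat_lit 158077028488) (.two (nat_lit 3458203652) (nat_lit 2894072328) (.two (nat_lit 50331651) (nat_lit 156976026082) (.two (nat_lit 2097153) (nat_lit 8395686) (.two (nat_lit 2097152) (nat_lit 8396612) (.one (nat_lit 2106277) .nil)))))),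
   .two (nat_lit 10015998020) (nat_lit 8389076) (.two (nat_lit 3028287531) (nat_lit 20719862495) (.two (nat_lit 47555018766) (nat_lit 37750311) (.two (nat_lit 47555018757) (nat_lit 2956987689) (.two (nat_lit 46414168067) (nat_lit 2956988914) (.two (nat_lit 8388609) (nat_lit 4201361) (.two (nat_lit 8388608) (nat_lit 4202309) (.one (nat_lit 4203430) .nil))))))),
   .two (nat_lit 1947205811) (nat_lit 675283125) (.two (nat_lit 739246106) (nat_lit 9936306923) (.two (nat_lit 156971827208) (nat_lit 158075979928) (.two (nat_lit 739246084) (nat_lit 16781070) (.two (nat_lit 11476664322) (nat_lit 16782414) (.two (nat_lit 16777217) (nat_lit 1055655) (.two (nat_lit 4194304) (nat_lit 1056582) (.one (nat_lit 16786343) .nil))))))),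
   .two (nat_lit 19027460276) (nat_lit 4194654) (.two (nat_lit 3525312539) (nat_lit 1279264324) (.two (nat_lit 1849688068) (nat_lit 28691141070) (.two (nat_lit 2097153) (nat_lit 4200784) (.two (nat_lit 2097152) (nat_lit 4202311) (.one (nat_lit 4203432) .nil))))),
   .two (nat_lit 9768534084) (nat_lit 28772926166) (.two (nat_lit 4601151496) (nat_lit 156976023071) (.two (nat_lit 47555018756) (nat_lit 876612096) (.two (nat_lit 4194306) (nat_lit 16783029) (.two (nat_lit 16777217) (nat_lit 4200733) (.two (nat_lit 8388608) (nat_lit 4202312) (.one (nat_lit 4203399) .nil)))))),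
   .two (nat_lit 11492393140) (nat_lit 37316722871) (.two (nat_lit 272629786) (nat_lit 654313612) (.two (nat_lit 2902458372) (nat_lit 2923433233) (.two (nat_lit 2889875459) (nat_lit 3472888293) (.two (nat_lit 4194305) (nat_lit 1795168580) (.two (nat_lit 16777216) (nat_lit 4202893) (.one (nat_lit 4203433) .nil)))))),
   .two (nat_lit 41943108) (nat_lit 46992982344) (.two (nat_lit 285212697) (nat_lit 639631799) (.two (nat_lit 50331656) (nat_lit 159217878574) (.two (nat_lit 11559501828) (nat_lit 158077028852) (.two (nat_lit 83886083) (nat_lit 1746932807) (.two (nat_lit 612368385) (nat_lit 352327978) (.two (nat_lit 2097152) (nat_lit 8396619) (.one (nat_lit 2106282) .nil))))))),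
   .two (nat_lit 10506731588) (nat_lit 2418016573) (.two (nat_lit 184416206891) (nat_lit 166132187830) (.two (nat_lit 10336862216) (nat_lit 2886731296) (.two (nat_lit 10336862212) (nat_lit 10503589143) (.two (nat_lit 806354947) (nat_lit 12620667183) (.two (nat_lit 2097152) (nat_lit 4202894) (.one (nat_lit 1057707) .nil)))))),
   .two (nat_lit 673185971) (nat_lit 608174371) (.two (nat_lit 3458203674) (nat_lit 10003415481) (.two (nat_lit 822083592) (nat_lit 3024095747) (.two (nat_lit 16777218) (nat_lit 4199503) (.two (nat_lit 16777217) (nat_lit 4201341) (.two (nat_lit 2097152) (nat_lit 4201920) (.one (nat_lit 4203436) .nil)))))),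
   .two (nat_lit 4605346078) (nat_lit 156969730230) (.two (nat_lit 4194329) (nat_lit 4605346232) (.two (nat_lit 1350565896) (nat_lit 303040062) (.two (nat_lit 1350565892) (nat_lit 2101007) (.two (nat_lit 2956984323) (nat_lit 2424312285) (.two (nat_lit 612368385) (nat_lit 306190634) (.two (nat_lit 2097152) (nat_lit 8397199) (.one (nat_lit 2106285) .nil))))))),
   .two (nat_lit 343932996) (nat_lit 117441209) (.two (nat_lit 285212680) (nat_lit 4034922027) (.two (nat_lit 16777220) (nat_lit 1182798367) (.two (nat_lit 8388609) (nat_lit 754981797) (.two (nat_lit 8388608) (nat_lit 218111805) (.one (nat_lit 184558218) .nil))))),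
   .two (nat_lit 11618222260) (nat_lit 9867100342) (.two (nat_lit 4613734426) (nat_lit 10007610903) (.two (nat_lit 50331652) (nat_lit 1853885682) (.two (nat_lit 721420291) (nat_lit 1053776) (.two (nat_lit 2097153) (nat_lit 1055658) (.two (nat_lit 1048576) (nat_lit 8397200) (.one (nat_lit 1057710) .nil)))))),
   .two (nat_lit 2954887236) (nat_lit 3003121848) (.two (nat_lit 28093448219) (nat_lit 159250383574) (.two (nat_lit 10385096717) (nat_lit 174753581200) (.two (nat_lit 9766436868) (nat_lit 16782002) (.two (nat_lit 13187940355) (nat_lit 8394428) (.two (nat_lit 2097153) (nat_lit 8396371) (.two (nat_lit 1048576) (nat_lit 2105745) (.one (nat_lit 1057490) .nil))))))),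
   .two (nat_lit 47555018820) (nat_lit 156533522715) (.two (nat_lit 2994733082) (nat_lit 12148802335) (.two (nat_lit 10343153672) (nat_lit 19597887629) (.two (nat_lit 3525312516) (nat_lit 156573370886) (.two (nat_lit 46407876610) (nat_lit 3028293220) (.two (nat_lit 2097152) (nat_lit 8396233) (.one (nat_lit 8397524) .nil)))))),
   .two (nat_lit 620757060) (nat_lit 1049398) (.two (nat_lit 772800537) (nat_lit 37247517111) (.two (nat_lit 1753219080) (nat_lit 9765389865) (.two (nat_lit 1291845636) (nat_lit 270535939) (.two (nat_lit 176160771) (nat_lit 156566032862) (.two (nat_lit 8388609) (nat_lit 1055057) (.two (nat_lit 1048576) (nat_lit 16785231) (.one (nat_lit 8397743) .nil))))))),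
   .two (nat_lit 21827158084) (nat_lit 166229705430) (.two (nat_lit 83886088) (nat_lit 8390844) (.two (nat_lit 21793603588) (nat_lit 1053363) (.two (nat_lit 184986632195) (nat_lit 4034925021) (.two (nat_lit 34603009) (nat_lit 41949403) (.two (nat_lit 1048576) (nat_lit 8396234) (.one (nat_lit 1057494) .nil)))))),
   .two (nat_lit 1376780468) (nat_lit 16777567) (.two (nat_lit 158083317785) (nat_lit 11006903002) (.two (nat_lit 739246088) (nat_lit 10510928038) (.two (nat_lit 739246084) (nat_lit 713035531) (.two (nat_lit 8388611) (nat_lit 4043314243) (.two (nat_lit 8388609) (nat_lit 16784300) (.two (nat_lit 1048576) (nat_lit 16785810) (.one (nat_lit 16786136) .nil))))))),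
   .two (nat_lit 4028629171) (nat_lit 174688567475) (.two (nat_lit 10506731547) (nat_lit 11007951288) (.two (nat_lit 9948889096) (nat_lit 185021236765) (.two (nat_lit 46978301956) (nat_lit 183916039423) (.two (nat_lit 47548727299) (nat_lit 608178642) (.two (nat_lit 2097153) (nat_lit 9869203747) (.two (nat_lit 4194304) (nat_lit 10940850802) .nil)))))),
   .two (nat_lit 9781117215) (nat_lit 1279263042) (.two (nat_lit 2889875494) (nat_lit 9781117631) (.two (nat_lit 822083592) (nat_lit 11614029350) (.two (nat_lit 11492392964) (nat_lit 28089256460) (.two (nat_lit 171966467) (nat_lit 16782418) (.two (nat_lit 606076929) (nat_lit 4647295185) (.two (nat_lit 1048576) (nat_lit 1191190278) (.one (nat_lit 2106077) .nil))))))),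
   .two (nat_lit 156365750451) (nat_lit 1417675019) (.two (nat_lit 236978201) (nat_lit 3020948176) (.two (nat_lit 612368392) (nat_lit 37313580275) (.two (nat_lit 16777218) (nat_lit 1054397) (.two (nat_lit 2097153) (nat_lit 1056340) (.two (nat_lit 1048576) (nat_lit 2105747) (.one (nat_lit 1057712) .nil)))))),
   .two (nat_lit 3527409732) (nat_lit 28791800521) (.two (nat_lit 2954887176) (nat_lit 9869199544) (.two (nat_lit 2954887172) (nat_lit 168825915) (.two (nat_lit 2097153) (nat_lit 1056341) (.two (nat_lit 1048576) (nat_lit 2105173) (.one (nat_lit 1057713) .nil))))),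
   .two (nat_lit 285212740) (nat_lit 4194656) (.two (nat_lit 75497515) (nat_lit 9781117746) (.two (nat_lit 11479810052) (nat_lit 19134418142) (.two (nat_lit 16777218) (nat_lit 8393811) (.two (nat_lit 37748737) (nat_lit 8395093) (.two (nat_lit 4194304) (nat_lit 8397204) (.one (nat_lit 8397746) .nil)))))),
   .two (nat_lit 4601151556) (nat_lit 46474986245) (.two (nat_lit 20638072840) (nat_lit 1346373151) (.two (nat_lit 276824068) (nat_lit 2100530) (.two (nat_lit 1343225859) (nat_lit 2102356) (.two (nat_lit 605028353) (nat_lit 2104237) (.two (nat_lit 1048576) (nat_lit 2105749) (.one (nat_lit 1057715) .nil)))))),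
   .two (nat_lit 4634706099) (nat_lit 16777569) (.two (nat_lit 183848927259) (nat_lit 1417675454) (.two (nat_lit 754974728) (nat_lit 174688570634) (.two (nat_lit 8388610) (nat_lit 4030730744) (.two (nat_lit 9781116929) (nat_lit 158079129938) (.two (nat_lit 4194304) (nat_lit 8396630) (.one (nat_lit 8397534) .nil)))))),
   .two (nat_lit 13237223492) (nat_lit 1916797211) (.two (nat_lit 28693233702) (nat_lit 166211879627) (.two (nat_lit 12050235400) (nat_lit 20753419520) (.two (nat_lit 16777219) (nat_lit 4199509) (.two (nat_lit 606076929) (nat_lit 159253534900) (.two (nat_lit 2097152) (nat_lit 4202327) (.one (nat_lit 4203444) .nil)))))),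
   .two (nat_lit 156372042004) (nat_lit 28760342835) (.two (nat_lit 2927624230) (nat_lit 10439623394) (.two (nat_lit 156372041736) (nat_lit 1782581389) (.two (nat_lit 28757196804) (nat_lit 10540289319) (.two (nat_lit 28093448195) (nat_lit 4200126) (.two (nat_lit 605028353) (nat_lit 28760349589) (.two (nat_lit 1048576) (nat_lit 4202328) (.one (nat_lit 4203445) .nil))))))),
   .two (nat_lit 809500740) (nat_lit 10015998753) (.two (nat_lit 169869320) (nat_lit 339741993) (.two (nat_lit 2097155) (nat_lit 4634710569) (.two (nat_lit 2097153) (nat_lit 1055062) (.two (nat_lit 2097152) (nat_lit 1056204) (.one (nat_lit 1057718) .nil))))),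
   .two (nat_lit 306184260) (nat_lit 21785215248) (.two (nat_lit 11618222105) (nat_lit 158146233031) (.two (nat_lit 184993972232) (nat_lit 742393387) (.two (nat_lit 654311430) (nat_lit 174759873767) (.two (nat_lit 654311427) (nat_lit 19033756121) (.two (nat_lit 4194305) (nat_lit 16784982) (.two (nat_lit 8388608) (nat_lit 16785814) (.one (nat_lit 16786359) .nil))))))),
   .two (nat_lit 50331716) (nat_lit 20640170727) (.two (nat_lit 176160776) (nat_lit 158179791307) (.two (nat_lit 8388609) (nat_lit 13191094015) (.one (nat_lit 4203448) .nil))),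
   .two (nat_lit 158646403252) (nat_lit 11614028525) (.two (nat_lit 1846542344) (nat_lit 159253530136) (.two (nat_lit 285212676) (nat_lit 28760345077) (.two (nat_lit 16777218) (nat_lit 4198955) (.two (nat_lit 9765388289) (nat_lit 4201361) (.two (nat_lit 1048576) (nat_lit 4202329) (.one (nat_lit 16786143) .nil)))))),
   .two (nat_lit 46474985540) (nat_lit 109052205) (.two (nat_lit 10343153691) (nat_lit 1277166291) (.two (nat_lit 20644364296) (nat_lit 13188991153) (.two (nat_lit 2954887172) (nat_lit 11584671021) (.two (nat_lit 169869314) (nat_lit 8393814) (.two (nat_lit 2097153) (nat_lit 8395694) (.two (nat_lit 2097152) (nat_lit 176169353) (.one (nat_lit 2106080) .nil))))))),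
   .two (nat_lit 185035915443) (nat_lit 2316304563) (.two (nat_lit 135266331) (nat_lit 840958713) (.two (nat_lit 158075977736) (nat_lit 251660434) (.two (nat_lit 156533522437) (nat_lit 11476666868) (.two (nat_lit 9934209027) (nat_lit 46507495897) (.two (nat_lit 9766436865) (nat_lit 2886737308) (.one (nat_lit 2106297) .nil)))))),
   .two (nat_lit 3558867231) (nat_lit 185023332535) (.two (nat_lit 46980399130) (nat_lit 28087157462) (.two (nat_lit 46980399112) (nat_lit 156567080190) (.two (nat_lit 2954887171) (nat_lit 184989782472) (.two (nat_lit 9766436865) (nat_lit 185023338813) (.two (nat_lit 2097152) (nat_lit 4202333) (.one (nat_lit 2106085) .nil)))))),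
   .two (nat_lit 184549662) (nat_lit 1212154207) (.two (nat_lit 184549401) (nat_lit 3028287928) (.two (nat_lit 612368392) (nat_lit 318768698) (.two (nat_lit 612368388) (nat_lit 708841228) (.two (nat_lit 285212675) (nat_lit 185027531229) (.two (nat_lit 612368385) (nat_lit 20640176432) (.two (nat_lit 4194304) (nat_lit 8397207) (.one (nat_lit 8397546) .nil))))))),
   .two (nat_lit 4634705988) (nat_lit 11551113528) (.two (nat_lit 20704133145) (nat_lit 2956985884) (.two (nat_lit 1343225860) (nat_lit 19130223104) (.two (nat_lit 12047089667) (nat_lit 158079128093) (.two (nat_lit 34603009) (nat_lit 4200794) (.two (nat_lit 4194304) (nat_lit 165525069229) (.one (nat_lit 1057722) .nil)))))),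
   .two (nat_lit 184993972492) (nat_lit 3524264118) (.two (nat_lit 4601151514) (nat_lit 21785215672) (.two (nat_lit 276824072) (nat_lit 11010050200) (.two (nat_lit 276824068) (nat_lit 4198161) (.two (nat_lit 183853121539) (nat_lit 11510223949) (.two (nat_lit 8388609) (nat_lit 1055663) (.two (nat_lit 1048576) (nat_lit 675291522) (.one (nat_lit 1057723) .nil))))))),
   .two (nat_lit 19130220724) (nat_lit 11544821945) (.two (nat_lit 272629786) (nat_lit 174701150996) (.two (nat_lit 12163481610) (nat_lit 2987394620) (.two (nat_lit 822083588) (nat_lit 19597887988) (.two (nat_lit 159216828419) (nat_lit 46508544503) (.two (nat_lit 9781116929) (nat_lit 174753585433) (.two (nat_lit 4194304) (nat_lit 654318973) (.one (nat_lit 1057724) .nil))))))),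
   .two (nat_lit 2349858996) (nat_lit 2956984503) (.two (nat_lit 12620660762) (nat_lit 13187941085) (.two (nat_lit 28757196808) (nat_lit 1782581414) (.two (nat_lit 9866051588) (nat_lit 1279267321) (.two (nat_lit 9765388289) (nat_lit 3560970514) (.two (nat_lit 1048576) (nat_lit 28760351303) .nil))))),
   .two (nat_lit 159266111556) (nat_lit 11007951288) (.two (nat_lit 3458203656) (nat_lit 184989781227) (.two (nat_lit 47548727299) (nat_lit 158091712099) (.two (nat_lit 4194304) (nat_lit 1962941863) (.one (nat_lit 16786365) .nil)))),
   .two (nat_lit 13191086148) (nat_lit 159224169153) (.two (nat_lit 176160776) (nat_lit 10372515363) (.two (nat_lit 156372041732) (nat_lit 18928896522) (.two (nat_lit 11546918915) (nat_lit 47596966961) (.two (nat_lit 606076929) (nat_lit 37329313155) (.one (nat_lit 788538295) .nil))))),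
   .two (nat_lit 46510637342) (nat_lit 166129041695) (.two (nat_lit 310378534) (nat_lit 46510637496) (.two (nat_lit 20644364297) (nat_lit 158075979963) (.two (nat_lit 12054429700) (nat_lit 28793902157) (.two (nat_lit 9781116929) (nat_lit 21777881429) (.two (nat_lit 1048576) (nat_lit 4201936) (.one (nat_lit 1057517) .nil)))))),
   .two (nat_lit 158144135347) (nat_lit 1846542672) (.two (nat_lit 9899606041) (nat_lit 1210057445) (.two (nat_lit 158144135176) (nat_lit 9899607574) (.two (nat_lit 28086108164) (nat_lit 11511270623) (.two (nat_lit 1745879043) (nat_lit 1210061330) (.two (nat_lit 606076929) (nat_lit 1055665) (.two (nat_lit 1048576) (nat_lit 2105187) (.one (nat_lit 1057520) .nil))))))),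
   .two (nat_lit 285212960) (nat_lit 2357199142) (.two (nat_lit 50331688) (nat_lit 159216829991) (.two (nat_lit 50331652) (nat_lit 156364705065) (.two (nat_lit 721420291) (nat_lit 10000273906) (.two (nat_lit 612368385) (nat_lit 158091712792) (.two (nat_lit 16777216) (nat_lit 20637032261) (.one (nat_lit 11577336349) .nil)))))),
   .two (nat_lit 1343225924) (nat_lit 10001318073) (.two (nat_lit 47588573210) (nat_lit 156533523987) (.two (nat_lit 9940500484) (nat_lit 1746930927) (.two (nat_lit 47548727299) (nat_lit 1053759) (.two (nat_lit 4194305) (nat_lit 1055067) (.two (nat_lit 1048576) (nat_lit 2105188) (.one (nat_lit 2106302) .nil)))))),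
   .two (nat_lit 156372041907) (nat_lit 19093520735) (.two (nat_lit 46414168090) (nat_lit 4631560910) (.two (nat_lit 46409973768) (nat_lit 2953840806) (.two (nat_lit 46409973764) (nat_lit 1052434) (.two (nat_lit 8388611) (nat_lit 705696826) (.two (nat_lit 4194305) (nat_lit 1055666) (.two (nat_lit 1048576) (nat_lit 4202341) (.one (nat_lit 605037031) .nil))))))),
   .two (nat_lit 28093448477) (nat_lit 2097507) (.two (nat_lit 218103833) (nat_lit 20738736567) (.two (nat_lit 218103816) (nat_lit 304089612) (.two (nat_lit 184549379) (nat_lit 740299813) (.two (nat_lit 9781116929) (nat_lit 1417681240) (.two (nat_lit 4194304) (nat_lit 2105191) (.one (nat_lit 16786166) .nil)))))),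
   .two (nat_lit 285212740) (nat_lit 11513364761) (.two (nat_lit 285212696) (nat_lit 205521634) (.two (nat_lit 285212680) (nat_lit 3024095373) (.two (nat_lit 272629764) (nat_lit 158158818781) (.two (nat_lit 9781116929) (nat_lit 156535626027) (.two (nat_lit 4194304) (nat_lit 16786060) .nil))))),
   .two (nat_lit 4605345860) (nat_lit 843055283) (.two (nat_lit 4634705946) (nat_lit 1384121056) (.two (nat_lit 37748744) (nat_lit 13195281939) (.two (nat_lit 10343153668) (nat_lit 171969809) (.two (nat_lit 165532401667) (nat_lit 2102975) (.two (nat_lit 4194305) (nat_lit 142612727) (.two (nat_lit 2097152) (nat_lit 4202904) (.one (nat_lit 2106109) .nil))))))),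
   .two (nat_lit 10940842164) (nat_lit 184419352927) (.two (nat_lit 46477082650) (nat_lit 10940842686) (.two (nat_lit 3527409672) (nat_lit 156533525143) (.two (nat_lit 10504634372) (nat_lit 1212157198) (.two (nat_lit 166130089987) (nat_lit 2886734933) (.two (nat_lit 2097153) (nat_lit 4200796) (.two (nat_lit 1048576) (nat_lit 2105195) (.one (nat_lit 1057535) .nil))))))),
   .two (nat_lit 13195280452) (nat_lit 156367848241) (.two (nat_lit 41943044) (nat_lit 4634710565) (.two (nat_lit 4194305) (nat_lit 28764543160) (.two (nat_lit 4194304) (nat_lit 310386486) (.one (nat_lit 4203455) .nil)))),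
   .two (nat_lit 3527409732) (nat_lit 740295364) (.two (nat_lit 2889875464) (nat_lit 840960661) (.two (nat_lit 11492392964) (nat_lit 185023334904) (.two (nat_lit 2889875458) (nat_lit 11511272485) (.two (nat_lit 2097153) (nat_lit 171972887) (.two (nat_lit 2097152) (nat_lit 708845299) (.one (nat_lit 16786198) .nil)))))),
   .two (nat_lit 620757060) (nat_lit 18926797527) (.two (nat_lit 8388616) (nat_lit 46508544479) (.two (nat_lit 2097153) (nat_lit 8395700) (.two (nat_lit 2097152) (nat_lit 8396665) (.one (nat_lit 2106304) .nil)))),
   .two (nat_lit 184986632371) (nat_lit 12054429972) (.two (nat_lit 184986632218) (nat_lit 8390266) (.two (nat_lit 184993972232) (nat_lit 1051297) (.two (nat_lit 46414168068) (nat_lit 1052435) (.two (nat_lit 8388611) (nat_lit 1053791) (.two (nat_lit 605028353) (nat_lit 8395701) (.two (nat_lit 8388608) (nat_lit 1057177) (.one (nat_lit 1057729) .nil))))))),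
   .two (nat_lit 4605345860) (nat_lit 174688568053) (.two (nat_lit 8388616) (nat_lit 4196541) (.two (nat_lit 37748740) (nat_lit 8392468) (.two (nat_lit 9934209027) (nat_lit 4200128) (.two (nat_lit 606076929) (nat_lit 272636230) (.two (nat_lit 4194304) (nat_lit 2105754) (.one (nat_lit 2106306) .nil)))))),
   .two (nat_lit 8388676) (nat_lit 721420565) (.two (nat_lit 50331686) (nat_lit 28697428697) (.two (nat_lit 16777224) (nat_lit 20711474738) (.two (nat_lit 101711876) (nat_lit 813698821) (.two (nat_lit 184549378) (nat_lit 10335818182) (.two (nat_lit 34603009) (nat_lit 11559508883) (.two (nat_lit 1048576) (nat_lit 16785279) (.one (nat_lit 1057562) .nil))))))),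
   .two (nat_lit 3573547187) (nat_lit 673186059) (.two (nat_lit 10907287588) (nat_lit 4034920888) (.two (nat_lit 156372041736) (nat_lit 806356538) (.two (nat_lit 158144135172) (nat_lit 1350568442) (.two (nat_lit 713031683) (nat_lit 1344279033) (.two (nat_lit 9765388289) (nat_lit 8396552) (.one (nat_lit 1057564) .nil)))))),
   .two (nat_lit 12054429968) (nat_lit 2097509) (.two (nat_lit 41943083) (nat_lit 11492393400) (.two (nat_lit 47548727304) (nat_lit 183853123094) (.two (nat_lit 10385096708) (nat_lit 19530779146) (.two (nat_lit 1291845634) (nat_lit 158647456858) (.two (nat_lit 612368385) (nat_lit 687872276) (.two (nat_lit 8388608) (nat_lit 16784860) (.one (nat_lit 2106307) .nil))))))),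
   .two (nat_lit 9967763742) (nat_lit 117440828) (.two (nat_lit 28772925476) (nat_lit 2988442417) (.two (nat_lit 2954887172) (nat_lit 50334193) (.two (nat_lit 159217876995) (nat_lit 174701154818) (.two (nat_lit 612368385) (nat_lit 169876943) (.one (nat_lit 2105709) .nil))))),
   .two (nat_lit 1384120388) (nat_lit 21811429648) (.two (nat_lit 4601151530) (nat_lit 184993972917) (.two (nat_lit 11543773192) (nat_lit 19130223104) (.two (nat_lit 705691650) (nat_lit 1749029406) (.two (nat_lit 4194305) (nat_lit 2886736216) (.two (nat_lit 4194304) (nat_lit 1056643) (.one (nat_lit 11510227582) .nil)))))),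
   .two (nat_lit 843055387) (nat_lit 713031972) (.two (nat_lit 243269658) (nat_lit 16778875) (.two (nat_lit 10519314440) (nat_lit 46980400662) (.two (nat_lit 1753219076) (nat_lit 184552753) (.two (nat_lit 11479810051) (nat_lit 183953789406) (.two (nat_lit 4194305) (nat_lit 8395106) (.two (nat_lit 4194304) (nat_lit 8396676) (.one (nat_lit 4203460) .nil))))))),
   .two (nat_lit 3028287667) (nat_lit 46489665721) (.two (nat_lit 721420313) (nat_lit 3028287927) (.two (nat_lit 176160776) (nat_lit 28806483199) (.two (nat_lit 721420290) (nat_lit 174692766152) (.two (nat_lit 612368385) (nat_lit 11477719270) (.two (nat_lit 8388608) (nat_lit 2105222) (.one (nat_lit 8397598) .nil)))))),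
   .two (nat_lit 10343153732) (nat_lit 28087157886) (.two (nat_lit 10385096712) (nat_lit 1753220670) (.two (nat_lit 10385096708) (nat_lit 8391989) (.two (nat_lit 169869314) (nat_lit 8394433) (.two (nat_lit 2097153) (nat_lit 16784983) (.two (nat_lit 16777216) (nat_lit 2105755) (.one (nat_lit 2106309) .nil)))))),
   .two (nat_lit 158143086660) (nat_lit 174753579188) (.two (nat_lit 183916036122) (nat_lit 10000270099) (.two (nat_lit 158144135176) (nat_lit 1950352947) (.two (nat_lit 159217876996) (nat_lit 4199092) (.two (nat_lit 166130089987) (nat_lit 20740838440) (.two (nat_lit 2097153) (nat_lit 1055076) (.two (nat_lit 2097152) (nat_lit 4202908) (.one (nat_lit 2106143) .nil))))))),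
   .two (nat_lit 9948889156) (nat_lit 8389079) (.two (nat_lit 2969567258) (nat_lit 2098313) (.two (nat_lit 620757000) (nat_lit 3464498451) (.two (nat_lit 1277165570) (nat_lit 19537072647) (.two (nat_lit 606076929) (nat_lit 185002367218) (.two (nat_lit 2097152) (nat_lit 8396680) (.one (nat_lit 8397766) .nil)))))),
   .two (nat_lit 620757060) (nat_lit 612368732) (.two (nat_lit 12054429721) (nat_lit 2365588168) (.two (nat_lit 1745879048) (nat_lit 19134416416) (.two (nat_lit 1745879044) (nat_lit 1426067211) (.two (nat_lit 176160771) (nat_lit 46489669085) (.two (nat_lit 8388609) (nat_lit 1358960951) (.two (nat_lit 1048576) (nat_lit 16785821) (.one (nat_lit 168829634) .nil))))))),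
   .two (nat_lit 339738803) (nat_lit 13195280660) (.two (nat_lit 276824089) (nat_lit 9768534789) (.two (nat_lit 4601151496) (nat_lit 158646405280) (.two (nat_lit 742391812) (nat_lit 183920233767) (.two (nat_lit 21785214979) (nat_lit 158179793124) (.two (nat_lit 1048576) (nat_lit 2105225) (.one (nat_lit 1057735) .nil)))))),
   .two (nat_lit 20705181876) (nat_lit 166196150550) (.two (nat_lit 20704133146) (nat_lit 3458204797) (.two (nat_lit 2887778312) (nat_lit 8391330) (.two (nat_lit 158143086596) (nat_lit 2101941) (.two (nat_lit 34603011) (nat_lit 813700143) (.two (nat_lit 2097153) (nat_lit 1055672) (.two (nat_lit 1048576) (nat_lit 8396682) (.one (nat_lit 1057736) .nil))))))),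
   .two (nat_lit 889192516) (nat_lit 158083318456) (.two (nat_lit 10336862216) (nat_lit 2936014379) (.two (nat_lit 46978301956) (nat_lit 276826612) (.two (nat_lit 8388611) (nat_lit 620761621) (.two (nat_lit 2097153) (nat_lit 9940506888) (.two (nat_lit 2097152) (nat_lit 8396683) (.one (nat_lit 8397769) .nil)))))),
   .two (nat_lit 21785215044) (nat_lit 158077026770) (.two (nat_lit 2323644443) (nat_lit 10940842750) (.two (nat_lit 46984593416) (nat_lit 2099360) (.two (nat_lit 11543773188) (nat_lit 874514933) (.two (nat_lit 184986632195) (nat_lit 158647456297) (.two (nat_lit 605028353) (nat_lit 21208504577) (.two (nat_lit 1048576) (nat_lit 2105228) (.one (nat_lit 1057738) .nil))))))),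
   .two (nat_lit 20705181876) (nat_lit 156465365269) (.two (nat_lit 4599054380) (nat_lit 18933088962) (.two (nat_lit 158143086600) (nat_lit 69207604) (.two (nat_lit 10336862212) (nat_lit 159216831783) (.two (nat_lit 34603011) (nat_lit 8394425) (.two (nat_lit 2097153) (nat_lit 1056344) (.two (nat_lit 2097152) (nat_lit 8396685) (.one (nat_lit 2106315) .nil))))))),
   .two (nat_lit 10343153843) (nat_lit 4194776) (.two (nat_lit 3464495130) (nat_lit 4195466) (.two (nat_lit 9781116936) (nat_lit 18928896156) (.two (nat_lit 159232557060) (nat_lit 11484008933) (.two (nat_lit 8388609) (nat_lit 2990545238) (.two (nat_lit 16777216) (nat_lit 4203143) .nil))))),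
   .two (nat_lit 11513364659) (nat_lit 3028287804) (.two (nat_lit 13191086107) (nat_lit 11618222780) (.two (nat_lit 276824072) (nat_lit 11513366039) (.two (nat_lit 1175453700) (nat_lit 28760345077) (.two (nat_lit 209715203) (nat_lit 21210599935) (.two (nat_lit 34603009) (nat_lit 10909391727) (.two (nat_lit 1048576) (nat_lit 4202382) (.one (nat_lit 4203468) .nil))))))),
   .two (nat_lit 1753219251) (nat_lit 1048936) (.two (nat_lit 12054429721) (nat_lit 157035791058) (.two (nat_lit 184986632200) (nat_lit 11484005939) (.two (nat_lit 68157444) (nat_lit 3472888296) (.two (nat_lit 4194305) (nat_lit 3524270387) (.two (nat_lit 4194304) (nat_lit 1056655) (.one (nat_lit 4203469) .nil)))))),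
   .two (nat_lit 10506731588) (nat_lit 4028629810) (.two (nat_lit 9768534020) (nat_lit 28087160577) (.two (nat_lit 2887778306) (nat_lit 4199522) (.two (nat_lit 2097153) (nat_lit 4200805) (.two (nat_lit 2097152) (nat_lit 4202385) (.one (nat_lit 2106318) .nil))))),
   .two (nat_lit 156569174084) (nat_lit 157036839184) (.two (nat_lit 3021996057) (nat_lit 13228836410) (.two (nat_lit 20644364292) (nat_lit 1209011461) (.two (nat_lit 159216828419) (nat_lit 19537072583) (.two (nat_lit 605028353) (nat_lit 156971833648) (.two (nat_lit 1048576) (nat_lit 4202386) (.one (nat_lit 4203471) .nil)))))),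
   .two (nat_lit 11559502004) (nat_lit 159257723352) (.two (nat_lit 2969567258) (nat_lit 807405728) (.two (nat_lit 620756996) (nat_lit 20745031136) (.two (nat_lit 16777217) (nat_lit 236984576) (.two (nat_lit 2097152) (nat_lit 2894078188) .nil)))),
   .two (nat_lit 3560964275) (nat_lit 1847591351) (.two (nat_lit 9940500488) (nat_lit 1746929209) (.two (nat_lit 20637024260) (nat_lit 2101707) (.two (nat_lit 8388609) (nat_lit 336599303) (.two (nat_lit 4194304) (nat_lit 47555026770) (.one (nat_lit 2106320) .nil))))),
   .two (nat_lit 12117344324) (nat_lit 12062818485) (.two (nat_lit 285212697) (nat_lit 1916797368) (.two (nat_lit 285212680) (nat_lit 1746932207) (.two (nat_lit 4194305) (nat_lit 11477719282) (.two (nat_lit 2097152) (nat_lit 20719869707) (.one (nat_lit 2106321) .nil))))),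
   .two (nat_lit 4605345860) (nat_lit 675283240) (.two (nat_lit 310378522) (nat_lit 19599983288) (.two (nat_lit 37748744) (nat_lit 156372043283) (.two (nat_lit 13191086084) (nat_lit 176164102) (.two (nat_lit 11479810051) (nat_lit 2102978) (.two (nat_lit 2097153) (nat_lit 612375406) (.two (nat_lit 2097152) (nat_lit 4202392) (.one (nat_lit 2106322) .nil))))))),
   .two (nat_lit 12117344324) (nat_lit 19596837043) (.two (nat_lit 11513364505) (nat_lit 47581233871) (.two (nat_lit 218103816) (nat_lit 1849690301) (.two (nat_lit 11479810052) (nat_lit 168825373) (.two (nat_lit 34603009) (nat_lit 183848933623) (.two (nat_lit 1048576) (nat_lit 4202394) (.one (nat_lit 1057747) .nil)))))),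
   .two (nat_lit 2953838772) (nat_lit 16777503) (.two (nat_lit 2902458411) (nat_lit 21811430519) (.two (nat_lit 13191086088) (nat_lit 4631562400) (.two (nat_lit 2961178628) (nat_lit 16782006) (.two (nat_lit 12054429699) (nat_lit 183946449360) (.two (nat_lit 4194305) (nat_lit 16784985) (.two (nat_lit 8388608) (nat_lit 1057182) (.one (nat_lit 16786388) .nil))))))),
   .two (nat_lit 47596961860) (nat_lit 2097626) (.two (nat_lit 4028629037) (nat_lit 11525948104) (.two (nat_lit 184416206856) (nat_lit 9814672920) (.two (nat_lit 3539992580) (nat_lit 169873142) (.two (nat_lit 2097155) (nat_lit 184431939038) (.two (nat_lit 2097153) (nat_lit 185035921001) (.two (nat_lit 1048576) (nat_lit 2105244) (.one (nat_lit 16786389) .nil))))))),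
   .two (nat_lit 3525312580) (nat_lit 1346371766) (.two (nat_lit 3003121690) (nat_lit 337642259) (.two (nat_lit 4601151496) (nat_lit 46489667133) (.two (nat_lit 156533522437) (nat_lit 1950353914) (.two (nat_lit 1344274435) (nat_lit 1054403) (.two (nat_lit 37748737) (nat_lit 1056346) (.two (nat_lit 1048576) (nat_lit 4202911) (.one (nat_lit 4203313) .nil))))))),
   .two (nat_lit 159224168627) (nat_lit 3458203931) (.two (nat_lit 10436476953) (nat_lit 1312818312) (.two (nat_lit 20638072840) (nat_lit 8391331) (.two (nat_lit 1846542340) (nat_lit 19134418699) (.two (nat_lit 270532611) (nat_lit 713036895) (.two (nat_lit 9766436865) (nat_lit 21818776469) (.two (nat_lit 8388608) (nat_lit 4202912) (.one (nat_lit 1057750) .nil))))))),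
   .two (nat_lit 13191086148) (nat_lit 174759870776) (.two (nat_lit 310378534) (nat_lit 339739427) (.two (nat_lit 13195280392) (nat_lit 46507492890) (.two (nat_lit 813694980) (nat_lit 1051958) (.two (nat_lit 9933160451) (nat_lit 2102980) (.two (nat_lit 156372041729) (nat_lit 12150905749) (.two (nat_lit 4194304) (nat_lit 2105761) (.one (nat_lit 2106327) .nil))))))),
   .two (nat_lit 28757196868) (nat_lit 10351542989) (.two (nat_lit 754974728) (nat_lit 158646403890) (.two (nat_lit 10369368068) (nat_lit 12633248229) (.two (nat_lit 8388609) (nat_lit 16783722) (.two (nat_lit 8388608) (nat_lit 605035931) (.one (nat_lit 16786226) .nil))))),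
   .two (nat_lit 183949590795) (nat_lit 9966715222) (.two (nat_lit 343932971) (nat_lit 2416968438) (.two (nat_lit 46414168072) (nat_lit 1050816) (.two (nat_lit 46414168068) (nat_lit 1051959) (.two (nat_lit 21785214979) (nat_lit 3527414834) (.two (nat_lit 2097153) (nat_lit 1056347) (.two (nat_lit 2097152) (nat_lit 8396703) (.one (nat_lit 8397784) .nil))))))),
   .two (nat_lit 10385096992) (nat_lit 2097516) (.two (nat_lit 47563407396) (nat_lit 10544480983) (.two (nat_lit 9948889096) (nat_lit 136316465) (.two (nat_lit 11551113220) (nat_lit 806358311) (.two (nat_lit 10335813635) (nat_lit 20745032193) (.two (nat_lit 34603009) (nat_lit 2104251) (.two (nat_lit 1048576) (nat_lit 8396704) (.one (nat_lit 2106329) .nil))))))),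
   .two (nat_lit 156367847492) (nat_lit 880804280) (.two (nat_lit 8388616) (nat_lit 855641334) (.two (nat_lit 8388610) (nat_lit 20740837878) (.two (nat_lit 41943041) (nat_lit 775952627) (.two (nat_lit 8388608) (nat_lit 4201955) (.one (nat_lit 4203317) .nil))))),
   .two (nat_lit 272629939) (nat_lit 687866149) (.two (nat_lit 272629786) (nat_lit 156984411253) (.two (nat_lit 654311432) (nat_lit 158079125020) (.two (nat_lit 2902458372) (nat_lit 174755680719) (.two (nat_lit 37748737) (nat_lit 156472711459) (.two (nat_lit 4194304) (nat_lit 10443824873) (.one (nat_lit 4203318) .nil)))))),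
   .two (nat_lit 13237223492) (nat_lit 10506731792) (.two (nat_lit 46474985499) (nat_lit 9881780973) (.two (nat_lit 2889875464) (nat_lit 158647454981) (.two (nat_lit 19599982595) (nat_lit 9967768613) (.two (nat_lit 9768534017) (nat_lit 2103660) (.two (nat_lit 2097152) (nat_lit 4202401) (.one (nat_lit 4203482) .nil)))))),
   .two (nat_lit 10506731699) (nat_lit 19596837043) (.two (nat_lit 12114198555) (nat_lit 10506731959) (.two (nat_lit 285212680) (nat_lit 158079125016) (.two (nat_lit 9768534020) (nat_lit 839913230) (.two (nat_lit 9781116931) (nat_lit 159253533733) (.two (nat_lit 4194305) (nat_lit 28757203244) (.two (nat_lit 4194304) (nat_lit 1056674) (.one (nat_lit 1057755) .nil))))))),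
   .two (nat_lit 21827158084) (nat_lit 156465365171) (.two (nat_lit 12117344283) (nat_lit 9966716444) (.two (nat_lit 184419352580) (nat_lit 705694196) (.two (nat_lit 12117344259) (nat_lit 158143093040) (.two (nat_lit 1048576) (nat_lit 16785317) (.one (nat_lit 1057756) .nil))))),
   .two (nat_lit 1212154130) (nat_lit 10376708282) (.two (nat_lit 272629784) (nat_lit 12054430842) (.two (nat_lit 46414168072) (nat_lit 3460302379) (.two (nat_lit 46984593412) (nat_lit 2990542597) (.two (nat_lit 171966467) (nat_lit 8394437) (.two (nat_lit 37748737) (nat_lit 1417681794) (.two (nat_lit 1048576) (nat_lit 3527417688) (.one (nat_lit 1057757) .nil))))))),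
   .two (nat_lit 1947205906) (nat_lit 1312817336) (.two (nat_lit 12620660763) (nat_lit 1947206329) (.two (nat_lit 10506731528) (nat_lit 21777877660) (.two (nat_lit 12047089668) (nat_lit 165528209932) (.two (nat_lit 11479810050) (nat_lit 1054406) (.two (nat_lit 34603009) (nat_lit 4202076) (.two (nat_lit 1048576) (nat_lit 4202406) (.one (nat_lit 1057595) .nil))))))),
   .two (nat_lit 174686470416) (nat_lit 10552869203) (.two (nat_lit 620757019) (nat_lit 11511268489) (.two (nat_lit 2969567240) (nat_lit 11007952403) (.two (nat_lit 1847590916) (nat_lit 11626614061) (.two (nat_lit 83886083) (nat_lit 37247521856) (.two (nat_lit 620756993) (nat_lit 673192144) (.two (nat_lit 16777216) (nat_lit 2105256) (.one (nat_lit 2106173) .nil))))))),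
   .two (nat_lit 156533522500) (nat_lit 166132187316) (.two (nat_lit 46980399129) (nat_lit 19027460790) (.two (nat_lit 822083592) (nat_lit 166130093351) (.two (nat_lit 3527409667) (nat_lit 10370422465) (.two (nat_lit 4194305) (nat_lit 28806487807) (.one (nat_lit 2106334) .nil))))),
   .two (nat_lit 2332033298) (nat_lit 135266744) (.two (nat_lit 19532873736) (nat_lit 1050818) (.two (nat_lit 9881780228) (nat_lit 1052443) (.two (nat_lit 809500675) (nat_lit 10537144775) (.two (nat_lit 34603009) (nat_lit 876615913) (.two (nat_lit 1048576) (nat_lit 16785321) (.one (nat_lit 1057598) .nil)))))),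
   .two (nat_lit 272629828) (nat_lit 16777396) (.two (nat_lit 50331675) (nat_lit 1343226295) (.two (nat_lit 721420296) (nat_lit 235931166) (.two (nat_lit 205520900) (nat_lit 11593059562) (.two (nat_lit 721420290) (nat_lit 876614186) (.two (nat_lit 34603009) (nat_lit 10955528557) (.two (nat_lit 16777216) (nat_lit 19596844874) (.one (nat_lit 16786240) .nil))))))),
   .two (nat_lit 306184260) (nat_lit 12114198707) (.two (nat_lit 12114198554) (nat_lit 809501395) (.two (nat_lit 1913651208) (nat_lit 156567078424) (.two (nat_lit 101711876) (nat_lit 11477715460) (.two (nat_lit 10504634371) (nat_lit 873469021) (.two (nat_lit 9765388289) (nat_lit 2104925) (.two (nat_lit 1048576) (nat_lit 2105762) (.one (nat_lit 2106335) .nil))))))),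
   .two (nat_lit 156367847492) (nat_lit 136315169) (.two (nat_lit 339738650) (nat_lit 13203669718) (.two (nat_lit 4194312) (nat_lit 166211882238) (.two (nat_lit 21223178243) (nat_lit 773854292) (.two (nat_lit 9781116929) (nat_lit 4027586802) (.two (nat_lit 1048576) (nat_lit 251667003) .nil))))),
   .two (nat_lit 1913651380) (nat_lit 843055392) (.two (nat_lit 306184233) (nat_lit 28791800538) (.two (nat_lit 203423752) (nat_lit 68160807) (.two (nat_lit 270532611) (nat_lit 4199527) (.two (nat_lit 9766436865) (nat_lit 12117350580) (.two (nat_lit 4194304) (nat_lit 1343233746) (.one (nat_lit 2106181) .nil)))))),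
   .two (nat_lit 158646403345) (nat_lit 11022631094) (.two (nat_lit 754974747) (nat_lit 158646403512) (.two (nat_lit 21207449608) (nat_lit 1929381443) (.two (nat_lit 21207449604) (nat_lit 11022633466) (.two (nat_lit 1746927619) (nat_lit 19026416078) (.two (nat_lit 606076929) (nat_lit 2886736656) (.one (nat_lit 16786400) .nil)))))),
   .two (nat_lit 184993972500) (nat_lit 20719862072) (.two (nat_lit 19027460121) (nat_lit 19604177618) (.two (nat_lit 11551113224) (nat_lit 9781117746) (.two (nat_lit 16777220) (nat_lit 156372044273) (.two (nat_lit 8388611) (nat_lit 3022000601) (.two (nat_lit 606076929) (nat_lit 4613742031) (.one (nat_lit 2106183) .nil)))))),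
   .two (nat_lit 639631539) (nat_lit 50332348) (.two (nat_lit 28772925448) (nat_lit 740297218) (.two (nat_lit 75497475) (nat_lit 11544826324) (.two (nat_lit 2097153) (nat_lit 8395711) (.two (nat_lit 2097152) (nat_lit 8396718) (.one (nat_lit 8397640) .nil))))),
   .two (nat_lit 12117344435) (nat_lit 166211879094) (.two (nat_lit 4613734426) (nat_lit 21210596088) (.two (nat_lit 50331656) (nat_lit 20738738354) (.two (nat_lit 68157444) (nat_lit 158144139002) (.two (nat_lit 2956984323) (nat_lit 10452210119) (.two (nat_lit 2097153) (nat_lit 2987399431) (.two (nat_lit 16777216) (nat_lit 4028637010) (.one (nat_lit 1057761) .nil))))))),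
   .two (nat_lit 20753416371) (nat_lit 10538189506) (.two (nat_lit 37748744) (nat_lit 10385098262) (.two (nat_lit 10385096708) (nat_lit 1212157184) (.two (nat_lit 4194306) (nat_lit 16783047) (.two (nat_lit 2097153) (nat_lit 4202078) (.two (nat_lit 2097152) (nat_lit 20753424102) (.one (nat_lit 2106338) .nil)))))),
   .two (nat_lit 236978355) (nat_lit 10376708456) (.two (nat_lit 236978201) (nat_lit 2894070482) (.two (nat_lit 50331656) (nat_lit 3457157311) (.two (nat_lit 174759870468) (nat_lit 235932154) (.two (nat_lit 16777218) (nat_lit 1054408) (.two (nat_lit 16777217) (nat_lit 1377835935) (.two (nat_lit 2097152) (nat_lit 16785330) (.one (nat_lit 1057763) .nil))))))),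
   .two (nat_lit 166230753459) (nat_lit 1846542515) (.two (nat_lit 20738736154) (nat_lit 839910537) (.two (nat_lit 1277165576) (nat_lit 10443818556) (.two (nat_lit 1277165572) (nat_lit 10000273955) (.two (nat_lit 606076929) (nat_lit 10000276242) (.one (nat_lit 2106186) .nil))))),
   .two (nat_lit 3464495284) (nat_lit 174685422290) (.two (nat_lit 1191182344) (nat_lit 158075979954) (.two (nat_lit 11543773188) (nat_lit 19134417412) (.two (nat_lit 20644364290) (nat_lit 20719866957) (.two (nat_lit 34603009) (nat_lit 4034926935) (.two (nat_lit 8388608) (nat_lit 1056692) (.one (nat_lit 1057764) .nil)))))),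
   .two (nat_lit 1947205700) (nat_lit 1210057430) (.two (nat_lit 19599982600) (nat_lit 20637025847) (.two (nat_lit 156971827204) (nat_lit 37320919546) (.two (nat_lit 46414168067) (nat_lit 1054409) (.two (nat_lit 34603009) (nat_lit 2104927) (.two (nat_lit 1048576) (nat_lit 2105763) (.one (nat_lit 2106341) .nil)))))),
   .two (nat_lit 159251431492) (nat_lit 276824534) (.two (nat_lit 203423771) (nat_lit 16778876) (.two (nat_lit 159217877000) (nat_lit 343935473) (.two (nat_lit 1358954499) (nat_lit 12048142817) (.two (nat_lit 620756993) (nat_lit 673192117) (.two (nat_lit 16777216) (nat_lit 2104805) (.one (nat_lit 2106188) .nil)))))),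
   .two (nat_lit 21827158084) (nat_lit 184416207316) (.two (nat_lit 12147753005) (nat_lit 47596962528) (.two (nat_lit 12147752974) (nat_lit 10385098928) (.two (nat_lit 18928893956) (nat_lit 1052445) (.two (nat_lit 184986632195) (nat_lit 2936017382) (.two (nat_lit 37748737) (nat_lit 46473943285) (.two (nat_lit 1048576) (nat_lit 37756770) (.one (nat_lit 1057613) .nil))))))),
   .two (nat_lit 4647288900) (nat_lit 11513364659) (.two (nat_lit 9781116955) (nat_lit 3460301950) (.two (nat_lit 11479810056) (nat_lit 21223179831) (.two (nat_lit 742391812) (nat_lit 16780600) (.two (nat_lit 1916796931) (nat_lit 2102377) (.two (nat_lit 9768534017) (nat_lit 2103627) (.two (nat_lit 1048576) (nat_lit 2105764) (.one (nat_lit 4203494) .nil))))))),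
   .two (nat_lit 11007950916) (nat_lit 4598005943) (.two (nat_lit 20704133146) (nat_lit 706740940) (.two (nat_lit 28757196808) (nat_lit 3021997611) (.two (nat_lit 46510637062) (nat_lit 46406831414) (.two (nat_lit 1344274435) (nat_lit 1846548165) (.two (nat_lit 37748737) (nat_lit 1277172628) (.two (nat_lit 4194304) (nat_lit 1057189) (.one (nat_lit 4203343) .nil))))))),
   .two (nat_lit 50331827) (nat_lit 9806283058) (.two (nat_lit 16777241) (nat_lit 19100860857) (.two (nat_lit 16777224) (nat_lit 46414169623) (.two (nat_lit 176160772) (nat_lit 285215218) (.two (nat_lit 176160770) (nat_lit 21223181790) (.two (nat_lit 37748737) (nat_lit 2432703840) (.one (nat_lit 8397175) .nil)))))),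
   .two (nat_lit 3573547187) (nat_lit 4632608953) (.two (nat_lit 159217877019) (nat_lit 158192370431) (.two (nat_lit 185002360840) (nat_lit 68159034) (.two (nat_lit 3539992580) (nat_lit 3458207031) (.two (nat_lit 1343225859) (nat_lit 1176506822) (.two (nat_lit 605028353) (nat_lit 1914706150) (.two (nat_lit 1048576) (nat_lit 2105271) (.one (nat_lit 1057767) .nil))))))),
   .two (nat_lit 13224640691) (nat_lit 184423547244) (.two (nat_lit 185027526698) (nat_lit 185020187323) (.two (nat_lit 4194312) (nat_lit 2894071949) (.two (nat_lit 1175453700) (nat_lit 28089256438) (.two (nat_lit 176160770) (nat_lit 158649553351) (.two (nat_lit 34603009) (nat_lit 1413487983) (.one (nat_lit 4202872) .nil)))))),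
   .two (nat_lit 156535619652) (nat_lit 166230753552) (.two (nat_lit 47555018825) (nat_lit 10437526260) (.two (nat_lit 47582281737) (nat_lit 4196509) (.two (nat_lit 47548727300) (nat_lit 11010051362) (.two (nat_lit 1176502275) (nat_lit 13224645166) (.two (nat_lit 41943041) (nat_lit 46978309986) (.one (nat_lit 8397649) .nil)))))),
   .two (nat_lit 1947205812) (nat_lit 4194670) (.two (nat_lit 185020186649) (nat_lit 4195470) (.two (nat_lit 184416206856) (nat_lit 158179789318) (.two (nat_lit 28760342531) (nat_lit 1054406) (.two (nat_lit 156372041729) (nat_lit 336599963) (.two (nat_lit 8388608) (nat_lit 1056697) (.one (nat_lit 1057768) .nil)))))),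
   .two (nat_lit 612368452) (nat_lit 102760630) (.two (nat_lit 46510637081) (nat_lit 12048138954) (.two (nat_lit 9768534024) (nat_lit 159217878564) (.two (nat_lit 9768534020) (nat_lit 21818772711) (.two (nat_lit 1916796931) (nat_lit 1384124893) (.two (nat_lit 4194305) (nat_lit 2103666) (.two (nat_lit 4194304) (nat_lit 2105274) (.one (nat_lit 2106345) .nil))))))),
   .two (nat_lit 10007609412) (nat_lit 1426063708) (.two (nat_lit 218103833) (nat_lit 156365750713) (.two (nat_lit 218103816) (nat_lit 21778925707) (.two (nat_lit 10370416644) (nat_lit 612372235) (.two (nat_lit 184549379) (nat_lit 156365754822) (.two (nat_lit 50331649) (nat_lit 159224174903) (.two (nat_lit 2097152) (nat_lit 8397222) (.one (nat_lit 11611939522) .nil))))))),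
   .two (nat_lit 4601151556) (nat_lit 13195280563) (.two (nat_lit 276824090) (nat_lit 158146233066) (.two (nat_lit 41943048) (nat_lit 11510220349) (.two (nat_lit 46409973764) (nat_lit 46406831884) (.two (nat_lit 46409973762) (nat_lit 3457159641) (.two (nat_lit 4194305) (nat_lit 1846549379) (.two (nat_lit 8388608) (nat_lit 2105767) (.one (nat_lit 4203498) .nil))))))),
   .two (nat_lit 19130220723) (nat_lit 13222543634) (.two (nat_lit 46508539940) (nat_lit 19130220983) (.two (nat_lit 2887778312) (nat_lit 159219975704) (.two (nat_lit 12047089668) (nat_lit 10338962729) (.two (nat_lit 809500675) (nat_lit 136320704) (.two (nat_lit 34603009) (nat_lit 9902758765) (.two (nat_lit 1048576) (nat_lit 4202431) (.one (nat_lit 2106347) .nil))))))),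
   .two (nat_lit 21785215156) (nat_lit 16777583) (.two (nat_lit 9798942765) (nat_lit 21781021399) (.two (nat_lit 16777224) (nat_lit 21785215794) (.two (nat_lit 276824068) (nat_lit 641733121) (.two (nat_lit 9765388289) (nat_lit 1279269123) (.two (nat_lit 1048576) (nat_lit 4202432) (.one (nat_lit 1343234781) .nil)))))),
   .two (nat_lit 184986632260) (nat_lit 10519315145) (.two (nat_lit 4194329) (nat_lit 721422834) (.two (nat_lit 4194308) (nat_lit 19545460187) (.two (nat_lit 34603011) (nat_lit 46523225697) (.two (nat_lit 2097153) (nat_lit 46473944406) (.two (nat_lit 2097152) (nat_lit 9765396755) (.one (nat_lit 1057957) .nil)))))),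
   .two (nat_lit 47555018820) (nat_lit 807404249) (.two (nat_lit 3525312539) (nat_lit 3024095378) (.two (nat_lit 46414168072) (nat_lit 183949593088) (.two (nat_lit 46978301956) (nat_lit 9969865163) (.two (nat_lit 69206019) (nat_lit 8395022) (.two (nat_lit 37748737) (nat_lit 21778931104) (.two (nat_lit 2097152) (nat_lit 4202780) (.one (nat_lit 2106534) .nil))))))),
   .two (nat_lit 185035915332) (nat_lit 1050141) (.two (nat_lit 754974728) (nat_lit 3020950009) (.two (nat_lit 185002360836) (nat_lit 873468356) (.two (nat_lit 28757196803) (nat_lit 13203673742) (.two (nat_lit 9765388289) (nat_lit 721428751) (.one (nat_lit 1057959) .nil))))),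
   .two (nat_lit 654311492) (nat_lit 4195458) (.two (nat_lit 1310720025) (nat_lit 1950352930) (.two (nat_lit 158075977736) (nat_lit 10370419207) (.two (nat_lit 4194308) (nat_lit 9881784853) (.two (nat_lit 2956984323) (nat_lit 2103567) (.two (nat_lit 9766436865) (nat_lit 11476671253) (.two (nat_lit 1048576) (nat_lit 2105629) (.one (nat_lit 4203688) .nil))))))),
   .two (nat_lit 822083652) (nat_lit 10510926265) (.two (nat_lit 9974054939) (nat_lit 2099372) (.two (nat_lit 75497480) (nat_lit 3003125215) (.two (nat_lit 16777219) (nat_lit 11484010083) (.two (nat_lit 16777217) (nat_lit 2105067) (.two (nat_lit 2097152) (nat_lit 8397086) (.one (nat_lit 8397993) .nil)))))),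
   .two (nat_lit 1745879108) (nat_lit 159224169265) (.two (nat_lit 16777224) (nat_lit 4598008308) (.two (nat_lit 285212676) (nat_lit 11510223318) (.two (nat_lit 1795162115) (nat_lit 19100866756) (.two (nat_lit 612368385) (nat_lit 28101843734) (.two (nat_lit 8388608) (nat_lit 183928627445) (.one (nat_lit 1057962) .nil)))))),
   .two (nat_lit 183912890436) (nat_lit 746586839) (.two (nat_lit 11492392985) (nat_lit 8390829) (.two (nat_lit 822083592) (nat_lit 156364704254) (.two (nat_lit 11543773188) (nat_lit 746590665) (.two (nat_lit 50331651) (nat_lit 8395024) (.two (nat_lit 50331649) (nat_lit 183920237984) (.two (nat_lit 8388608) (nat_lit 16785695) (.one (nat_lit 8397995) .nil))))))),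
   .two (nat_lit 889192516) (nat_lit 9772728761) (.two (nat_lit 156372041769) (nat_lit 47582283296) (.two (nat_lit 16777224) (nat_lit 166230756580) (.two (nat_lit 16777220) (nat_lit 9934214177) (.two (nat_lit 11546918915) (nat_lit 352328463) (.two (nat_lit 2097152) (nat_lit 876617957) (.one (nat_lit 69215069) .nil)))))),
   .two (nat_lit 352321604) (nat_lit 18933088695) (.two (nat_lit 847249435) (nat_lit 620757809) (.two (nat_lit 16777224) (nat_lit 20745030148) (.two (nat_lit 47563407364) (nat_lit 20745032132) (.two (nat_lit 739246083) (nat_lit 352328463) (.two (nat_lit 1048576) (nat_lit 166237053157) (.one (nat_lit 1057964) .nil)))))),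
   .two (nat_lit 352321604) (nat_lit 28093448631) (.two (nat_lit 352321562) (nat_lit 2894071321) (.two (nat_lit 184549384) (nat_lit 19134417401) (.two (nat_lit 18925748228) (nat_lit 9806287367) (.two (nat_lit 21785214979) (nat_lit 158158819982) (.two (nat_lit 34603009) (nat_lit 46514839781) (.one (nat_lit 16786605) .nil)))))),
   .two (nat_lit 174686470323) (nat_lit 165540791046) (.two (nat_lit 156465365017) (nat_lit 205523450) (.two (nat_lit 3460300804) (nat_lit 2102329) (.two (nat_lit 639631363) (nat_lit 185023339286) (.two (nat_lit 4194304) (nat_lit 11543781635) (.one (nat_lit 2106542) .nil))))),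
   .two (nat_lit 185035915332) (nat_lit 2316304824) (.two (nat_lit 20753416236) (nat_lit 12115248667) (.two (nat_lit 158075977736) (nat_lit 46992985359) (.two (nat_lit 12129927172) (nat_lit 2953843754) (.two (nat_lit 159217876995) (nat_lit 1054993) (.two (nat_lit 606076929) (nat_lit 13221502372) (.two (nat_lit 1048576) (nat_lit 1780490502) (.one (nat_lit 1057967) .nil))))))),
   .two (nat_lit 28757196868) (nat_lit 69207577) (.two (nat_lit 1779433480) (nat_lit 69208564) (.two (nat_lit 813694980) (nat_lit 13187944904) (.two (nat_lit 1914699779) (nat_lit 806360661) (.two (nat_lit 8388609) (nat_lit 12148809443) (.two (nat_lit 1048576) (nat_lit 2105632) (.one (nat_lit 1057968) .nil)))))),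
   .two (nat_lit 10506731588) (nat_lit 19027460798) (.two (nat_lit 4028629017) (nat_lit 608176642) (.two (nat_lit 46978301956) (nat_lit 339742173) (.two (nat_lit 203423747) (nat_lit 4200722) (.two (nat_lit 2097153) (nat_lit 4202220) (.two (nat_lit 2097152) (nat_lit 4203090) (.one (nat_lit 2106545) .nil)))))),
   .two (nat_lit 156533522500) (nat_lit 166132187576) (.two (nat_lit 46474985497) (nat_lit 239076896) (.two (nat_lit 3525312520) (nat_lit 71305730) (.two (nat_lit 10336862212) (nat_lit 21781025255) (.two (nat_lit 9768534019) (nat_lit 169875730) (.two (nat_lit 9768534017) (nat_lit 169877228) (.two (nat_lit 2097152) (nat_lit 4203091) (.one (nat_lit 2106546) .nil))))))),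
   .two (nat_lit 11584667716) (nat_lit 1049285) (.two (nat_lit 20704133146) (nat_lit 3021997597) (.two (nat_lit 47563407368) (nat_lit 20644366832) (.two (nat_lit 11551113220) (nat_lit 873468382) (.two (nat_lit 1914699779) (nat_lit 873470189) (.two (nat_lit 605028353) (nat_lit 788536081) (.two (nat_lit 2097152) (nat_lit 605036822) (.one (nat_lit 1057971) .nil))))))),
   .two (nat_lit 10001318067) (nat_lit 184993972922) (.two (nat_lit 11476664345) (nat_lit 12117345073) (.two (nat_lit 169869320) (nat_lit 166132189696) (.two (nat_lit 705691652) (nat_lit 3460305393) (.two (nat_lit 1753219075) (nat_lit 21812484368) (.two (nat_lit 605028353) (nat_lit 9799998811) (.two (nat_lit 1048576) (nat_lit 2105940) (.one (nat_lit 1947214928) .nil))))))),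
   .two (nat_lit 50331716) (nat_lit 3524264656) (.two (nat_lit 184986632216) (nat_lit 1325401658) (.two (nat_lit 3527409673) (nat_lit 10537142777) (.two (nat_lit 2889875460) (nat_lit 9765392923) (.two (nat_lit 1191182339) (nat_lit 156533528780) (.two (nat_lit 9781116929) (nat_lit 46508548351) (.one (nat_lit 1057972) .nil)))))),
   .two (nat_lit 1962934451) (nat_lit 166196151089) (.two (nat_lit 754974728) (nat_lit 3020950021) (.two (nat_lit 276824068) (nat_lit 4613738985) (.two (nat_lit 8388610) (nat_lit 12147759360) (.two (nat_lit 50331649) (nat_lit 303045393) (.two (nat_lit 1048576) (nat_lit 165540798747) (.one (nat_lit 8398005) .nil)))))),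
   .two (nat_lit 185035915332) (nat_lit 18925748931) (.two (nat_lit 158143086616) (nat_lit 16779438) (.two (nat_lit 2961178632) (nat_lit 10385099248) (.two (nat_lit 185002360836) (nat_lit 4631564748) (.two (nat_lit 20638072834) (nat_lit 10369374400) (.two (nat_lit 606076929) (nat_lit 873472230) (.one (nat_lit 8398006) .nil)))))),
   .two (nat_lit 10540286131) (nat_lit 19027460796) (.two (nat_lit 4194329) (nat_lit 1753220630) (.two (nat_lit 4194312) (nat_lit 1753221617) (.two (nat_lit 809500676) (nat_lit 336597467) (.two (nat_lit 1343225859) (nat_lit 171972866) (.two (nat_lit 4194305) (nat_lit 1056493) (.two (nat_lit 1048576) (nat_lit 4203093) (.one (nat_lit 1057975) .nil))))))),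
   .two (nat_lit 9806282820) (nat_lit 166232851154) (.two (nat_lit 156533522477) (nat_lit 4613735961) (.two (nat_lit 12620660745) (nat_lit 46414170608) (.two (nat_lit 12050235396) (nat_lit 1954549211) (.two (nat_lit 708837379) (nat_lit 183861517074) (.two (nat_lit 2097152) (nat_lit 12062826757) (.one (nat_lit 136324184) .nil)))))),
   .two (nat_lit 157038936132) (nat_lit 169870110) (.two (nat_lit 165532401703) (nat_lit 10370418244) (.two (nat_lit 20644364296) (nat_lit 203426293) (.two (nat_lit 19530776580) (nat_lit 9940505095) (.two (nat_lit 1344274435) (nat_lit 28798097625) (.two (nat_lit 4194305) (nat_lit 158144143613) (.one (nat_lit 8398008) .nil)))))),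
   .two (nat_lit 11584667716) (nat_lit 2349859255) (.two (nat_lit 11584667674) (nat_lit 101713469) (.two (nat_lit 11551113224) (nat_lit 1410339274) (.two (nat_lit 10336862211) (nat_lit 158075984137) (.two (nat_lit 606076929) (nat_lit 605035940) (.two (nat_lit 1048576) (nat_lit 8397398) (.one (nat_lit 2106553) .nil)))))),
   .two (nat_lit 1962934340) (nat_lit 20707279289) (.two (nat_lit 12129927193) (nat_lit 2923432434) (.two (nat_lit 272629764) (nat_lit 203428351) (.two (nat_lit 183853121538) (nat_lit 10504640750) (.two (nat_lit 41943041) (nat_lit 169876897) (.two (nat_lit 8388608) (nat_lit 183846838537) (.one (nat_lit 2106554) .nil)))))),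
   .two (nat_lit 9948889156) (nat_lit 672137934) (.two (nat_lit 2887778329) (nat_lit 2969568787) (.two (nat_lit 620757000) (nat_lit 165525066258) (.two (nat_lit 806354947) (nat_lit 1291852003) (.two (nat_lit 606076929) (nat_lit 705699225) (.two (nat_lit 2097152) (nat_lit 1057057) (.one (nat_lit 1057979) .nil)))))),
   .two (nat_lit 159266111556) (nat_lit 880804279) (.two (nat_lit 343932954) (nat_lit 1291846450) (.two (nat_lit 8388616) (nat_lit 47596964362) (.two (nat_lit 159232557060) (nat_lit 2961183374) (.two (nat_lit 16777217) (nat_lit 20711480084) (.two (nat_lit 4194304) (nat_lit 10016006411) (.one (nat_lit 8398012) .nil)))))),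
   .two (nat_lit 9948889156) (nat_lit 166199296708) (.two (nat_lit 3021996057) (nat_lit 889194020) (.two (nat_lit 169869320) (nat_lit 158662135052) (.two (nat_lit 606076932) (nat_lit 806359497) (.two (nat_lit 1277165571) (nat_lit 16783635) (.two (nat_lit 9765388289) (nat_lit 9936313710) (.two (nat_lit 1048576) (nat_lit 4203095) (.one (nat_lit 1057981) .nil))))))),
   .two (nat_lit 3525312580) (nat_lit 156971827639) (.two (nat_lit 3525312536) (nat_lit 9768535613) (.two (nat_lit 10504634376) (nat_lit 2353007104) (.two (nat_lit 2887778308) (nat_lit 11614032346) (.two (nat_lit 270532611) (nat_lit 4200724) (.two (nat_lit 34603009) (nat_lit 876617058) (.two (nat_lit 4194304) (nat_lit 203432196) (.one (nat_lit 2106558) .nil))))))),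
   .two (nat_lit 183916036164) (nat_lit 2961179337) (.two (nat_lit 11551113242) (nat_lit 21827160586) (.two (nat_lit 11551113220) (nat_lit 2936017382) (.two (nat_lit 1782579203) (nat_lit 35657911) (.two (nat_lit 50331649) (nat_lit 12048146717) (.one (nat_lit 2106559) .nil))))),
   .two (nat_lit 158144135236) (nat_lit 46977254103) (.two (nat_lit 12147752986) (nat_lit 10909386891) (.two (nat_lit 46980399112) (nat_lit 166230755824) (.two (nat_lit 11476664324) (nat_lit 158079128066) (.two (nat_lit 1779433475) (nat_lit 157036845300) (.two (nat_lit 34603009) (nat_lit 37314633125) (.two (nat_lit 1048576) (nat_lit 46407885076) (.one (nat_lit 1057984) .nil))))))),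
   .two (nat_lit 11559501892) (nat_lit 19100860857) (.two (nat_lit 822083611) (nat_lit 10338960933) (.two (nat_lit 176160776) (nat_lit 46422560220) (.two (nat_lit 8388611) (nat_lit 16783637) (.two (nat_lit 8388609) (nat_lit 11626618279) (.two (nat_lit 4194304) (nat_lit 8397090) (.one (nat_lit 8398017) .nil)))))),
   .two (nat_lit 11543773252) (nat_lit 754975423) (.two (nat_lit 11543773208) (nat_lit 166144771633) (.two (nat_lit 721420296) (nat_lit 10335816184) (.two (nat_lit 721420292) (nat_lit 13187944958) (.two (nat_lit 34603011) (nat_lit 21827164339) (.two (nat_lit 9781116929) (nat_lit 184417263900) (.one (nat_lit 2106562) .nil)))))),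
   .two (nat_lit 156581756996) (nat_lit 158649549532) (.two (nat_lit 18933088300) (nat_lit 1782580765) (.two (nat_lit 156372041736) (nat_lit 1950353913) (.two (nat_lit 46409973764) (nat_lit 1350570438) (.two (nat_lit 47555018755) (nat_lit 4200698) (.two (nat_lit 8388609) (nat_lit 4201902) (.two (nat_lit 8388608) (nat_lit 4202787) (.one (nat_lit 4203715) .nil))))))),
   .two (nat_lit 47596961860) (nat_lit 18926797522) (.two (nat_lit 28093448235) (nat_lit 1276118553) (.two (nat_lit 46407876616) (nat_lit 184431938037) (.two (nat_lit 1780482052) (nat_lit 19612569051) (.two (nat_lit 2097155) (nat_lit 19612571226) (.two (nat_lit 41943041) (nat_lit 9933168921) (.one (nat_lit 1057988) .nil)))))),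
   .two (nat_lit 184986632260) (nat_lit 19109249768) (.two (nat_lit 3464495129) (nat_lit 1780484599) (.two (nat_lit 3458203652) (nat_lit 3557822987) (.two (nat_lit 28093448195) (nat_lit 21812484274) (.two (nat_lit 2097153) (nat_lit 1056175) (.two (nat_lit 2097152) (nat_lit 8397092) (.one (nat_lit 16786629) .nil)))))),
   .two (nat_lit 4634705988) (nat_lit 1913651640) (.two (nat_lit 3525312538) (nat_lit 12620662337) (.two (nat_lit 11479810056) (nat_lit 2100993) (.two (nat_lit 742391812) (nat_lit 1053215) (.two (nat_lit 11546918915) (nat_lit 1343232268) (.two (nat_lit 37748737) (nat_lit 773856668) (.two (nat_lit 1048576) (nat_lit 4203096) (.one (nat_lit 1057990) .nil))))))),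
   .two (nat_lit 13237223492) (nat_lit 1376781032) (.two (nat_lit 4028629018) (nat_lit 19532875939) (.two (nat_lit 205520904) (nat_lit 9766441502) (.two (nat_lit 2889875458) (nat_lit 2103574) (.two (nat_lit 2097153) (nat_lit 4202222) (.two (nat_lit 2097152) (nat_lit 4202789) (.one (nat_lit 2106567) .nil)))))),
   .two (nat_lit 183946444979) (nat_lit 46510637755) (.two (nat_lit 3560964121) (nat_lit 3558868500) (.two (nat_lit 12050235400) (nat_lit 109056520) (.two (nat_lit 28760342531) (nat_lit 2349865141) (.two (nat_lit 156365750273) (nat_lit 336600464) (.two (nat_lit 1048576) (nat_lit 4203097) (.one (nat_lit 1057992) .nil)))))),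
   .two (nat_lit 272629828) (nat_lit 159224169220) (.two (nat_lit 11543773208) (nat_lit 608175649) (.two (nat_lit 11543773192) (nat_lit 1178602768) (.two (nat_lit 68157444) (nat_lit 83890677) (.two (nat_lit 754974723) (nat_lit 184417262356) (.two (nat_lit 1048576) (nat_lit 2105946) (.one (nat_lit 1057993) .nil)))))),
   .two (nat_lit 3525312580) (nat_lit 1749025481) (.two (nat_lit 46980399131) (nat_lit 11477714468) (.two (nat_lit 205520904) (nat_lit 166237047284) (.two (nat_lit 46407876612) (nat_lit 46409978362) (.two (nat_lit 46407876610) (nat_lit 159216834827) (.two (nat_lit 2097153) (nat_lit 1056495) (.two (nat_lit 4194304) (nat_lit 1057371) (.one (nat_lit 2106570) .nil))))))),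
   .two (nat_lit 8388676) (nat_lit 1962934999) (.two (nat_lit 11618222105) (nat_lit 183928621228) (.two (nat_lit 184549384) (nat_lit 9798945271) (.two (nat_lit 184549380) (nat_lit 1053216) (.two (nat_lit 9948889091) (nat_lit 12155099380) (.two (nat_lit 620756993) (nat_lit 13224648101) (.two (nat_lit 4194304) (nat_lit 16786012) (.one (nat_lit 185035924584) .nil))))))),
   .two (nat_lit 809500740) (nat_lit 1049731) (.two (nat_lit 46489665561) (nat_lit 165528209916) (.two (nat_lit 3539992580) (nat_lit 18926800347) (.two (nat_lit 83886083) (nat_lit 158649555732) (.two (nat_lit 16777216) (nat_lit 2105950) (.one (nat_lit 1057996) .nil))))),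
   .two (nat_lit 46510637235) (nat_lit 2969568004) (.two (nat_lit 183928619033) (nat_lit 742393410) (.two (nat_lit 83886088) (nat_lit 156533525747) (.two (nat_lit 1191182340) (nat_lit 46407881163) (.two (nat_lit 166130089986) (nat_lit 1317017821) (.two (nat_lit 4194305) (nat_lit 16785138) (.two (nat_lit 2097152) (nat_lit 50340370) (.one (nat_lit 2106573) .nil))))))),
   .two (nat_lit 352321604) (nat_lit 46978303533) (.two (nat_lit 2961178632) (nat_lit 47550829088) (.two (nat_lit 209715203) (nat_lit 159253534299) (.two (nat_lit 9781116929) (nat_lit 165532409534) (.two (nat_lit 8388608) (nat_lit 1057062) (.one (nat_lit 4203726) .nil))))),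
   .two (nat_lit 880803908) (nat_lit 10503586553) (.two (nat_lit 158143086618) (nat_lit 2099375) (.two (nat_lit 47555018760) (nat_lit 672140583) (.two (nat_lit 10504634372) (nat_lit 13228839389) (.two (nat_lit 166130089986) (nat_lit 1384126683) (.two (nat_lit 612368385) (nat_lit 20705189289) (.two (nat_lit 8388608) (nat_lit 2105639) (.one (nat_lit 20705191058) .nil))))))),
   .two (nat_lit 12163481780) (nat_lit 135266743) (.two (nat_lit 21827158043) (nat_lit 34604601) (.two (nat_lit 1291845640) (nat_lit 1052418) (.two (nat_lit 46984593412) (nat_lit 1224741355) (.two (nat_lit 183853121539) (nat_lit 166229711638) (.two (nat_lit 1048576) (nat_lit 16786016) (.one (nat_lit 16786639) .nil)))))),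
   .two (nat_lit 9781116996) (nat_lit 28793897670) (.two (nat_lit 285212696) (nat_lit 2923430706) (.two (nat_lit 37748744) (nat_lit 16780761) (.two (nat_lit 708837379) (nat_lit 285218404) (.two (nat_lit 2097153) (nat_lit 2956992756) (.one (nat_lit 2106576) .nil))))),
   .two (nat_lit 9974054980) (nat_lit 13188989727) (.two (nat_lit 47555018776) (nat_lit 19094571165) (.two (nat_lit 37748744) (nat_lit 3028290032) (.two (nat_lit 12050235396) (nat_lit 2424311261) (.two (nat_lit 18928893955) (nat_lit 19100866757) (.two (nat_lit 2097153) (nat_lit 10909391633) (.two (nat_lit 2097152) (nat_lit 8397096) (.one (nat_lit 2106577) .nil))))))),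
   .two (nat_lit 4605345971) (nat_lit 11610882487) (.two (nat_lit 4605345817) (nat_lit 156465366556) (.two (nat_lit 176160776) (nat_lit 11543775744) (.two (nat_lit 2889875460) (nat_lit 28764541458) (.two (nat_lit 9873391619) (nat_lit 157036845303) (.two (nat_lit 612368385) (nat_lit 2353012983) (.one (nat_lit 8398034) .nil)))))),
   .two (nat_lit 13191086148) (nat_lit 9940500921) (.two (nat_lit 4601151512) (nat_lit 9967765020) (.two (nat_lit 13191086088) (nat_lit 10504637713) (.two (nat_lit 37748740) (nat_lit 159257727431) (.two (nat_lit 11479810051) (nat_lit 209721620) (.two (nat_lit 4194305) (nat_lit 12054437249) (.two (nat_lit 4194304) (nat_lit 8397097) (.one (nat_lit 2106579) .nil))))))),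
   .two (nat_lit 166197198916) (nat_lit 1947206335) (.two (nat_lit 158144135192) (nat_lit 839910961) (.two (nat_lit 169869320) (nat_lit 13228838116) (.two (nat_lit 10369368068) (nat_lit 13188993538) (.two (nat_lit 705691650) (nat_lit 2103576) (.two (nat_lit 8388609) (nat_lit 10537147757) (.two (nat_lit 1048576) (nat_lit 8397409) (.one (nat_lit 1058004) .nil))))))),
   .two (nat_lit 10015998020) (nat_lit 12054430398) (.two (nat_lit 3036676123) (nat_lit 183953786401) (.two (nat_lit 50331656) (nat_lit 8392451) (.two (nat_lit 21214789636) (nat_lit 21223182844) (.two (nat_lit 75497475) (nat_lit 20753421920) (.two (nat_lit 4194305) (nat_lit 19134421782) (.two (nat_lit 4194304) (nat_lit 8397098) (.one (nat_lit 4203599) .nil))))))),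
   .two (nat_lit 1376780356) (nat_lit 10519315145) (.two (nat_lit 11559501849) (nat_lit 11006903841) (.two (nat_lit 4194312) (nat_lit 721422834) (.two (nat_lit 272629764) (nat_lit 28705820124) (.two (nat_lit 2889875459) (nat_lit 4043314787) (.two (nat_lit 4194305) (nat_lit 10552876432) (.two (nat_lit 1048576) (nat_lit 4202795) (.one (nat_lit 2420122655) .nil))))))),
   .two (nat_lit 2994733124) (nat_lit 166144770767) (.two (nat_lit 183912890393) (nat_lit 813697524) (.two (nat_lit 2961178628) (nat_lit 2365592095) (.two (nat_lit 11476664322) (nat_lit 9940506843) (.two (nat_lit 34603009) (nat_lit 28764544399) (.two (nat_lit 1048576) (nat_lit 8397100) (.one (nat_lit 8398038) .nil)))))),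
   .two (nat_lit 174685421747) (nat_lit 10940842423) (.two (nat_lit 46489665561) (nat_lit 706741807) (.two (nat_lit 156372041736) (nat_lit 20737690116) (.two (nat_lit 46984593412) (nat_lit 337646027) (.two (nat_lit 721420290) (nat_lit 2317359290) (.two (nat_lit 2097153) (nat_lit 34611481) (.one (nat_lit 1058007) .nil)))))),
   .two (nat_lit 303038644) (nat_lit 159224168887) (.two (nat_lit 4613734426) (nat_lit 10007611888) (.two (nat_lit 285212676) (nat_lit 1745883647) (.two (nat_lit 1914699779) (nat_lit 185035921638) (.two (nat_lit 50331649) (nat_lit 337649955) (.one (nat_lit 1058008) .nil))))),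
   .two (nat_lit 612368452) (nat_lit 855638742) (.two (nat_lit 4605345818) (nat_lit 166232852017) (.two (nat_lit 1350565896) (nat_lit 28772928740) (.two (nat_lit 9940500484) (nat_lit 21223183393) (.two (nat_lit 176160770) (nat_lit 183861516474) (.two (nat_lit 8388609) (nat_lit 1291853174) (.two (nat_lit 16777216) (nat_lit 3460309226) (.one (nat_lit 4203737) .nil))))))),
   .two (nat_lit 13237223492) (nat_lit 10372514522) (.two (nat_lit 1916796955) (nat_lit 16779440) (.two (nat_lit 158158815240) (nat_lit 270535157) (.two (nat_lit 28693233668) (nat_lit 166211883537) (.two (nat_lit 157038936067) (nat_lit 16783641) (.two (nat_lit 9768534017) (nat_lit 169877770) (.one (nat_lit 2106586) .nil)))))),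
   .two (nat_lit 343932996) (nat_lit 9969861351) (.two (nat_lit 183949590553) (nat_lit 28764538394) (.two (nat_lit 176160776) (nat_lit 272633093) (.two (nat_lit 47555018756) (nat_lit 1847595541) (.two (nat_lit 10506731523) (nat_lit 2103578) (.two (nat_lit 8388609) (nat_lit 46980406675) (.two (nat_lit 2097152) (nat_lit 28764545548) (.one (nat_lit 8398044) .nil))))))),
   .two (nat_lit 20705181764) (nat_lit 11006902991) (.two (nat_lit 185020186649) (nat_lit 10003416606) (.two (nat_lit 158075977736) (nat_lit 159219976708) (.two (nat_lit 2887778308) (nat_lit 1279267359) (.two (nat_lit 13187940355) (nat_lit 2889881868) (.two (nat_lit 2097153) (nat_lit 4202232) (.two (nat_lit 1048576) (nat_lit 4202798) (.one (nat_lit 1058014) .nil))))))),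
   .two (nat_lit 156372041796) (nat_lit 2956985051) (.two (nat_lit 4605345816) (nat_lit 708838963) (.two (nat_lit 620757000) (nat_lit 209717755) (.two (nat_lit 41943044) (nat_lit 156380433883) (.two (nat_lit 8388610) (nat_lit 9814677078) (.two (nat_lit 8388609) (nat_lit 4202776) (.one (nat_lit 8398048) .nil)))))),
   .two (nat_lit 174759870643) (nat_lit 174686470584) (.two (nat_lit 12150898713) (nat_lit 9781117745) (.two (nat_lit 742391816) (nat_lit 21223180799) (.two (nat_lit 742391812) (nat_lit 2994737647) (.two (nat_lit 184989777923) (nat_lit 12062824642) (.two (nat_lit 16777217) (nat_lit 2105081) (.two (nat_lit 2097152) (nat_lit 8397417) (.one (nat_lit 2106593) .nil))))))),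
   .two (nat_lit 1962934340) (nat_lit 37313577663) (.two (nat_lit 11626610732) (nat_lit 183920231966) (.two (nat_lit 11559501832) (nat_lit 183920233697) (.two (nat_lit 9866051588) (nat_lit 687869403) (.two (nat_lit 638582787) (nat_lit 16782949) (.two (nat_lit 605028353) (nat_lit 9873398546) (.two (nat_lit 8388608) (nat_lit 16785711) (.one (nat_lit 1058019) .nil))))))),
   .two (nat_lit 780140724) (nat_lit 166199296743) (.two (nat_lit 205520921) (nat_lit 1358955313) (.two (nat_lit 2961178632) (nat_lit 18941479417) (.two (nat_lit 1276116996) (nat_lit 156976026119) (.two (nat_lit 171966467) (nat_lit 16783647) (.two (nat_lit 9765388289) (nat_lit 4638907152) (.two (nat_lit 1048576) (nat_lit 8397104) (.one (nat_lit 8398053) .nil))))))),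
   .two (nat_lit 47596961860) (nat_lit 13222544068) (.two (nat_lit 9967763483) (nat_lit 806356504) (.two (nat_lit 2902458376) (nat_lit 28760345867) (.two (nat_lit 4194308) (nat_lit 166144773596) (.two (nat_lit 47550824451) (nat_lit 183928625351) (.two (nat_lit 4194305) (nat_lit 69213557) (.two (nat_lit 1048576) (nat_lit 13222551830) (.one (nat_lit 1058024) .nil))))))),
   .two (nat_lit 10007609412) (nat_lit 2098309) (.two (nat_lit 12147752999) (nat_lit 874513945) (.two (nat_lit 46407876616) (nat_lit 4034923997) (.two (nat_lit 183845781506) (nat_lit 11014248025) (.two (nat_lit 34603009) (nat_lit 2104754) (.two (nat_lit 1048576) (nat_lit 2105649) (.one (nat_lit 2106601) .nil)))))),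
   .two (nat_lit 16777284) (nat_lit 1920991673) (.two (nat_lit 16777240) (nat_lit 109053468) (.two (nat_lit 16777224) (nat_lit 10510929179) (.two (nat_lit 721420292) (nat_lit 158653748263) (.two (nat_lit 16777218) (nat_lit 1055009) (.two (nat_lit 50331649) (nat_lit 2953846118) (.two (nat_lit 1048576) (nat_lit 16786028) (.one (nat_lit 1058027) .nil))))))),
   .two (nat_lit 11007951126) (nat_lit 10906239415) (.two (nat_lit 11593056281) (nat_lit 202376751) (.two (nat_lit 9781116936) (nat_lit 21811432676) (.two (nat_lit 158077026308) (nat_lit 1053155) (.two (nat_lit 34603011) (nat_lit 158192375392) (.two (nat_lit 2097153) (nat_lit 739253634) (.two (nat_lit 1048576) (nat_lit 2105650) (.one (nat_lit 806363997) .nil))))))),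
   .two (nat_lit 1962934340) (nat_lit 135266744) (.two (nat_lit 28086108187) (nat_lit 1224738951) (.two (nat_lit 183853121544) (nat_lit 1276120288) (.two (nat_lit 183853121540) (nat_lit 20737692122) (.two (nat_lit 41943043) (nat_lit 806361276) (.two (nat_lit 612368385) (nat_lit 159250390436) (.two (nat_lit 8388608) (nat_lit 1057075) (.one (nat_lit 8398060) .nil))))))),
   .two (nat_lit 10343153732) (nat_lit 11476665033) (.two (nat_lit 2902458393) (nat_lit 839911924) (.two (nat_lit 184549380) (nat_lit 183845786054) (.two (nat_lit 176160770) (nat_lit 806361877) (.two (nat_lit 8388608) (nat_lit 739254557) (.one (nat_lit 1058029) .nil))))),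
   .two (nat_lit 11543773252) (nat_lit 272630531) (.two (nat_lit 3558866971) (nat_lit 9802090672) (.two (nat_lit 159217877000) (nat_lit 9798946089) (.two (nat_lit 705691652) (nat_lit 21814579714) (.two (nat_lit 20638072835) (nat_lit 9802094873) (.two (nat_lit 2097153) (nat_lit 1209016586) (.one (nat_lit 1058030) .nil)))))),
   .two (nat_lit 159266111556) (nat_lit 9967764273) (.two (nat_lit 285212680) (nat_lit 9936308727) (.two (nat_lit 285212676) (nat_lit 205525461) (.two (nat_lit 11559501827) (nat_lit 2956990650) (.two (nat_lit 2097153) (nat_lit 104866029) (.one (nat_lit 1279272025) .nil))))),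
   .two (nat_lit 157036838980) (nat_lit 1920991673) (.two (nat_lit 4613734426) (nat_lit 11618224626) (.two (nat_lit 4613734404) (nat_lit 166136384987) (.two (nat_lit 11492392963) (nat_lit 336599309) (.two (nat_lit 16777217) (nat_lit 2987400612) (.two (nat_lit 16777216) (nat_lit 1057033) (.one (nat_lit 2106611) .nil)))))),
   .two (nat_lit 16777284) (nat_lit 184993973041) (.two (nat_lit 184549384) (nat_lit 10376710658) (.two (nat_lit 713031684) (nat_lit 50335193) (.two (nat_lit 41943043) (nat_lit 721426020) (.two (nat_lit 620756993) (nat_lit 10544487792) (.two (nat_lit 8388608) (nat_lit 16785717) (.one (nat_lit 8398069) .nil)))))),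
   .two (nat_lit 156372041796) (nat_lit 19545457352) (.two (nat_lit 310378522) (nat_lit 318768696) (.two (nat_lit 18928893960) (nat_lit 21818771961) (.two (nat_lit 4605345796) (nat_lit 3539996127) (.two (nat_lit 8388610) (nat_lit 183962179166) (.two (nat_lit 37748737) (nat_lit 276832523) (.one (nat_lit 16786678) .nil)))))),
   .two (nat_lit 10015998020) (nat_lit 18933088695) (.two (nat_lit 16777240) (nat_lit 11484005945) (.two (nat_lit 183853121544) (nat_lit 4043311624) (.two (nat_lit 183853121540) (nat_lit 37262200283) (.two (nat_lit 41943043) (nat_lit 4647295759) (.two (nat_lit 4194304) (nat_lit 8397110) (.one (nat_lit 8397815) .nil)))))),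
   .two (nat_lit 9948889156) (nat_lit 183920231122) (.two (nat_lit 1962934299) (nat_lit 3565160621) (.two (nat_lit 612368392) (nat_lit 46422559227) (.two (nat_lit 620756996) (nat_lit 746589660) (.two (nat_lit 174752530435) (nat_lit 13237230363) (.two (nat_lit 1048576) (nat_lit 8397111) (.one (nat_lit 8398071) .nil)))))),
   .two (nat_lit 142606404) (nat_lit 2923430327) (.two (nat_lit 272629787) (nat_lit 9814672925) (.two (nat_lit 75497480) (nat_lit 11580477972) (.two (nat_lit 713031682) (nat_lit 4200741) (.two (nat_lit 4194305) (nat_lit 3036683681) (.two (nat_lit 16777216) (nat_lit 11517567243) (.one (nat_lit 4203768) .nil)))))),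
   .two (nat_lit 1962934340) (nat_lit 156465365810) (.two (nat_lit 4613734408) (nat_lit 1283459573) (.two (nat_lit 620756996) (nat_lit 1053173) (.two (nat_lit 8388611) (nat_lit 3036681824) (.two (nat_lit 8388609) (nat_lit 3557825302) (.two (nat_lit 1048576) (nat_lit 1761616120) (.one (nat_lit 8398073) .nil)))))),
   .two (nat_lit 11559501892) (nat_lit 46510637495) (.two (nat_lit 50331675) (nat_lit 2319451682) (.two (nat_lit 721420296) (nat_lit 4634709265) (.two (nat_lit 721420292) (nat_lit 2319454669) (.two (nat_lit 822083587) (nat_lit 1749029518) (.two (nat_lit 9781116929) (nat_lit 184989784852) (.two (nat_lit 4194304) (nat_lit 16785720) (.one (nat_lit 4203770) .nil))))))),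
   .two (nat_lit 9802088516) (nat_lit 158077027022) (.two (nat_lit 46474985497) (nat_lit 2923431446) (.two (nat_lit 3525312520) (nat_lit 306186737) (.two (nat_lit 19599982596) (nat_lit 1377833490) (.two (nat_lit 1178599427) (nat_lit 2103590) (.two (nat_lit 2097153) (nat_lit 4202236) (.two (nat_lit 2097152) (nat_lit 4202809) (.one (nat_lit 156969739451) .nil))))))),
   .two (nat_lit 47582281796) (nat_lit 10003415748) (.two (nat_lit 166132187161) (nat_lit 136316441) (.two (nat_lit 813694984) (nat_lit 156569176563) (.two (nat_lit 606076932) (nat_lit 174692766147) (.two (nat_lit 8388610) (nat_lit 9766443225) (.two (nat_lit 8388609) (nat_lit 304094618) (.two (nat_lit 4194304) (nat_lit 166136389879) (.one (nat_lit 183846839388) .nil))))))),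
   .two (nat_lit 1358954564) (nat_lit 174752531233) (.two (nat_lit 11559501848) (nat_lit 135267122) (.two (nat_lit 754974728) (nat_lit 158179789300) (.two (nat_lit 11543773188) (nat_lit 11022634459) (.two (nat_lit 605028355) (nat_lit 11022636628) (.two (nat_lit 4194305) (nat_lit 1057075) (.one (nat_lit 1058043) .nil)))))),
   .two (nat_lit 47582281796) (nat_lit 13228835257) (.two (nat_lit 4028629019) (nat_lit 12117346446) (.two (nat_lit 183853121544) (nat_lit 28691139060) (.two (nat_lit 183853121540) (nat_lit 2101794) (.two (nat_lit 46409973762) (nat_lit 8395048) (.two (nat_lit 2097153) (nat_lit 8396543) (.two (nat_lit 2097152) (nat_lit 37253816843) (.one (nat_lit 8398077) .nil))))))),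
   .two (nat_lit 11007950916) (nat_lit 4631561761) (.two (nat_lit 156367847432) (nat_lit 10921971164) (.two (nat_lit 46980399107) (nat_lit 168826453) (.two (nat_lit 9768534017) (nat_lit 269491598) (.two (nat_lit 2097152) (nat_lit 4203121) (.one (nat_lit 2106622) .nil))))),
   .two (nat_lit 10538188868) (nat_lit 1749025475) (.two (nat_lit 9906946075) (nat_lit 4196531) (.two (nat_lit 37748744) (nat_lit 183920232968) (.two (nat_lit 2954887172) (nat_lit 19134419427) (.two (nat_lit 8388610) (nat_lit 4200745) (.two (nat_lit 2097153) (nat_lit 4201908) (.two (nat_lit 2097152) (nat_lit 4202810) (.one (nat_lit 8398079) .nil))))))),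
   .two (nat_lit 10504634436) (nat_lit 2319450910) (.two (nat_lit 4634705947) (nat_lit 3525313330) (.two (nat_lit 2889875464) (nat_lit 1317014809) (.two (nat_lit 1350565892) (nat_lit 158177694162) (.two (nat_lit 2889875458) (nat_lit 8395050) (.two (nat_lit 2097153) (nat_lit 158146239866) (.two (nat_lit 2097152) (nat_lit 4203122) (.one (nat_lit 2106625) .nil))))))),
   .two (nat_lit 847249476) (nat_lit 166132187954) (.two (nat_lit 3527409672) (nat_lit 874515753) (.two (nat_lit 813694980) (nat_lit 876614133) (.two (nat_lit 46980399107) (nat_lit 3022002372) (.two (nat_lit 4194305) (nat_lit 183853129123) (.two (nat_lit 2097152) (nat_lit 138420496) (.one (nat_lit 4203780) .nil)))))),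
   .two (nat_lit 2969567300) (nat_lit 184987681209) (.two (nat_lit 2969567256) (nat_lit 156533523991) (.two (nat_lit 184549384) (nat_lit 21778926845) (.two (nat_lit 639631364) (nat_lit 1761611227) (.two (nat_lit 1277165570) (nat_lit 788534871) (.two (nat_lit 606076929) (nat_lit 20737694486) (.two (nat_lit 1048576) (nat_lit 2105972) (.one (nat_lit 1058054) .nil))))))),
   .two (nat_lit 13195280452) (nat_lit 9936306953) (.two (nat_lit 4605345816) (nat_lit 28693234482) (.two (nat_lit 9966714894) (nat_lit 10376710649) (.two (nat_lit 3460300804) (nat_lit 2961182173) (.two (nat_lit 183848927235) (nat_lit 10376713818) (.two (nat_lit 605028353) (nat_lit 876617076) (.two (nat_lit 1048576) (nat_lit 4202811) (.one (nat_lit 4203783) .nil))))))),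
   .two (nat_lit 117440580) (nat_lit 10503586525) (.two (nat_lit 184986632218) (nat_lit 46992984566) (.two (nat_lit 1191182340) (nat_lit 1175458293) (.two (nat_lit 705691650) (nat_lit 13203673742) (.two (nat_lit 34603009) (nat_lit 3472890650) (.two (nat_lit 1048576) (nat_lit 16785724) (.one (nat_lit 16786697) .nil)))))),
   .two (nat_lit 21827158084) (nat_lit 37246468914) (.two (nat_lit 1846542344) (nat_lit 46422559222) (.two (nat_lit 101711876) (nat_lit 46422560220) (.two (nat_lit 11476664322) (nat_lit 10351547994) (.two (nat_lit 156367847425) (nat_lit 159266119056) (.two (nat_lit 4194304) (nat_lit 1410343227) (.one (nat_lit 1058060) .nil)))))),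
   .two (nat_lit 4605345860) (nat_lit 3003122401) (.two (nat_lit 9802088484) (nat_lit 9806283569) (.two (nat_lit 156367847432) (nat_lit 185002365418) (.two (nat_lit 158083317763) (nat_lit 20740839604) (.two (nat_lit 4194305) (nat_lit 8396547) (.two (nat_lit 4194304) (nat_lit 8397434) (.one (nat_lit 4203645) .nil)))))),
   .two (nat_lit 157036838980) (nat_lit 2923430328) (.two (nat_lit 46978301979) (nat_lit 1782581420) (.two (nat_lit 203423752) (nat_lit 16779761) (.two (nat_lit 156367847428) (nat_lit 9982448070) (.two (nat_lit 18928893955) (nat_lit 156567083293) (.two (nat_lit 4194305) (nat_lit 9867108641) (.one (nat_lit 2106637) .nil)))))),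
   .two (nat_lit 3028287667) (nat_lit 19545457405) (.two (nat_lit 75497499) (nat_lit 9948889905) (.two (nat_lit 176160776) (nat_lit 2936017406) (.two (nat_lit 46992982019) (nat_lit 184423553202) (.two (nat_lit 16777217) (nat_lit 184423554454) (.two (nat_lit 8388608) (nat_lit 10000277792) (.one (nat_lit 8398094) .nil)))))),
   .two (nat_lit 159251431492) (nat_lit 1413482014) (.two (nat_lit 2887778312) (nat_lit 9869201951) (.two (nat_lit 270532611) (nat_lit 11479816460) (.two (nat_lit 2097153) (nat_lit 2920291740) (.two (nat_lit 2097152) (nat_lit 37757230) (.one (nat_lit 1058063) .nil))))),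
   .two (nat_lit 159224168516) (nat_lit 50332087) (.two (nat_lit 16777241) (nat_lit 20644366835) (.two (nat_lit 16777220) (nat_lit 276827613) (.two (nat_lit 176160771) (nat_lit 21223185172) (.two (nat_lit 16777216) (nat_lit 47555027256) (.one (nat_lit 10016007007) .nil))))),
   .two (nat_lit 9802088516) (nat_lit 35652292) (.two (nat_lit 19027460121) (nat_lit 9869199866) (.two (nat_lit 37748740) (nat_lit 166144774605) (.two (nat_lit 1344274435) (nat_lit 19042146518) (.two (nat_lit 4194305) (nat_lit 304093979) (.two (nat_lit 2097152) (nat_lit 4202814) (.one (nat_lit 2106640) .nil)))))),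
   .two (nat_lit 4634705988) (nat_lit 11022631639) (.two (nat_lit 3527409690) (nat_lit 21812479537) (.two (nat_lit 11492392968) (nat_lit 165528210908) (.two (nat_lit 11492392962) (nat_lit 183913945339) (.two (nat_lit 9781116929) (nat_lit 28691144938) (.one (nat_lit 46477091878) .nil))))),
   .two (nat_lit 28757196868) (nat_lit 166230753976) (.two (nat_lit 1310720025) (nat_lit 1745880641) (.two (nat_lit 21207449608) (nat_lit 2994736423) (.two (nat_lit 1780482052) (nat_lit 47581237791) (.two (nat_lit 8388610) (nat_lit 2103596) (.two (nat_lit 156365750273) (nat_lit 158653750685) (.two (nat_lit 8388608) (nat_lit 159250391571) (.one (nat_lit 8398100) .nil))))))),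
   .two (nat_lit 166197198916) (nat_lit 16778018) (.two (nat_lit 156548202532) (nat_lit 174753579825) (.two (nat_lit 10519314440) (nat_lit 304089590) (.two (nat_lit 2969567236) (nat_lit 1283461578) (.two (nat_lit 11484004355) (nat_lit 721426020) (.two (nat_lit 2097153) (nat_lit 158150435117) (.one (nat_lit 1344283488) .nil)))))),
   .two (nat_lit 889192516) (nat_lit 209715930) (.two (nat_lit 156548202532) (nat_lit 11007952407) (.two (nat_lit 10519314440) (nat_lit 69208565) (.two (nat_lit 46414168068) (nat_lit 3539997201) (.two (nat_lit 203423747) (nat_lit 166245439072) (.two (nat_lit 2097153) (nat_lit 1954552598) (.two (nat_lit 2097152) (nat_lit 1182802177) (.one (nat_lit 2106645) .nil))))))),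
   .two (nat_lit 13237223492) (nat_lit 19532874422) (.two (nat_lit 3527409688) (nat_lit 47596963393) (.two (nat_lit 156367847432) (nat_lit 169871860) (.two (nat_lit 9768534020) (nat_lit 2902462997) (.two (nat_lit 2889875458) (nat_lit 606083858) (.two (nat_lit 4194304) (nat_lit 706748697) (.one (nat_lit 4203798) .nil)))))),
   .two (nat_lit 10007609412) (nat_lit 28772926153) (.two (nat_lit 8388635) (nat_lit 4613736578) (.two (nat_lit 13203669000) (nat_lit 343936474) (.two (nat_lit 16777218) (nat_lit 21214794382) (.two (nat_lit 16777217) (nat_lit 10336870667) (.one (nat_lit 2106531) .nil))))),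
   .two (nat_lit 50331716) (nat_lit 10007610903) (.two (nat_lit 16777224) (nat_lit 12624859670) (.two (nat_lit 75497475) (nat_lit 285218405) (.two (nat_lit 8388609) (nat_lit 184431943089) (.two (nat_lit 8388608) (nat_lit 16785727) (.one (nat_lit 3003131022) .nil))))),
   .two (nat_lit 620757060) (nat_lit 156539814596) (.two (nat_lit 16777240) (nat_lit 166136383005) (.two (nat_lit 16777224) (nat_lit 156976024053) (.two (nat_lit 713031684) (nat_lit 19042144742) (.two (nat_lit 1176502275) (nat_lit 1862277304) (.two (nat_lit 2097153) (nat_lit 16785159) (.two (nat_lit 8388608) (nat_lit 2105985) (.one (nat_lit 35660964) .nil))))))),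
   .two (nat_lit 352321604) (nat_lit 1753219512) (.two (nat_lit 11584667675) (nat_lit 705693223) (.two (nat_lit 183853121544) (nat_lit 1862273526) (.two (nat_lit 47563407364) (nat_lit 1182798890) (.two (nat_lit 12114198531) (nat_lit 46481283257) (.two (nat_lit 34603009) (nat_lit 318774667) (.two (nat_lit 1048576) (nat_lit 109060403) (.one (nat_lit 8398103) .nil))))))),
   .two (nat_lit 2349858995) (nat_lit 156466414007) (.two (nat_lit 174752530459) (nat_lit 47582283292) (.two (nat_lit 19530776584) (nat_lit 11610884599) (.two (nat_lit 2961178628) (nat_lit 10001322439) (.two (nat_lit 12121538563) (nat_lit 9933166820) (.two (nat_lit 9765388289) (nat_lit 203432233) (.one (nat_lit 2106649) .nil)))))),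
   .two (nat_lit 11543773252) (nat_lit 2894070469) (.two (nat_lit 11543773208) (nat_lit 13188990490) (.two (nat_lit 169869320) (nat_lit 156976024853) (.two (nat_lit 11543773188) (nat_lit 28087161374) (.two (nat_lit 2097155) (nat_lit 8395054) (.two (nat_lit 2097153) (nat_lit 10906246525) (.two (nat_lit 1048576) (nat_lit 2105665) (.one (nat_lit 183846839129) .nil))))))),
   .two (nat_lit 1317011636) (nat_lit 4028629431) (.two (nat_lit 10913579035) (nat_lit 773850692) (.two (nat_lit 10385096712) (nat_lit 2921335296) (.two (nat_lit 3458203652) (nat_lit 21818773973) (.two (nat_lit 12062818307) (nat_lit 21818775730) (.two (nat_lit 620756993) (nat_lit 1780489570) (.two (nat_lit 2097152) (nat_lit 8397444) (.one (nat_lit 304096258) .nil))))))),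
   .two (nat_lit 20704133188) (nat_lit 156539814329) (.two (nat_lit 183853121563) (nat_lit 166199297587) (.two (nat_lit 4605345800) (nat_lit 2353007111) (.two (nat_lit 1350565892) (nat_lit 156364706300) (.two (nat_lit 12054429699) (nat_lit 13221500504) (.two (nat_lit 41943041) (nat_lit 1379932944) (.two (nat_lit 1048576) (nat_lit 4202818) (.one (nat_lit 1058076) .nil))))))),
   .two (nat_lit 654311492) (nat_lit 11476665064) (.two (nat_lit 117440539) (nat_lit 159250384434) (.two (nat_lit 9881780232) (nat_lit 158177692148) (.two (nat_lit 705691652) (nat_lit 16781840) (.two (nat_lit 2954887171) (nat_lit 1175460626) (.two (nat_lit 1048576) (nat_lit 11544830233) (.one (nat_lit 1058078) .nil)))))),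
   .two (nat_lit 4601151556) (nat_lit 41944183) (.two (nat_lit 184993972250) (nat_lit 3557819934) (.two (nat_lit 184986632200) (nat_lit 310381851) (.two (nat_lit 3460300804) (nat_lit 8393790) (.two (nat_lit 12047089667) (nat_lit 8395056) (.two (nat_lit 605028353) (nat_lit 10376715642) (.two (nat_lit 1048576) (nat_lit 8397123) (.one (nat_lit 1058079) .nil))))))),
   .two (nat_lit 4647288900) (nat_lit 156539814596) (.two (nat_lit 612368411) (nat_lit 9933162008) (.two (nat_lit 713031688) (nat_lit 28791802372) (.two (nat_lit 3539992580) (nat_lit 1746932202) (.two (nat_lit 34603011) (nat_lit 4613740810) (.two (nat_lit 2097153) (nat_lit 8396554) (.two (nat_lit 1048576) (nat_lit 2105669) (.one (nat_lit 8398113) .nil))))))),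
   .two (nat_lit 157036838980) (nat_lit 156976022217) (.two (nat_lit 2969567257) (nat_lit 1317013057) (.two (nat_lit 176160776) (nat_lit 639634727) (.two (nat_lit 13203668996) (nat_lit 9772732959) (.two (nat_lit 620756995) (nat_lit 46407882971) (.two (nat_lit 16777217) (nat_lit 11611938550) (.two (nat_lit 2097152) (nat_lit 16786058) (.one (nat_lit 2106658) .nil))))))),
   .two (nat_lit 28093448371) (nat_lit 158075978167) (.two (nat_lit 158083317785) (nat_lit 10537141788) (.two (nat_lit 156372041736) (nat_lit 10369371367) (.two (nat_lit 156372041732) (nat_lit 1053220) (.two (nat_lit 75497475) (nat_lit 1055026) (.two (nat_lit 8388609) (nat_lit 1846550851) (.one (nat_lit 1057866) .nil)))))),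
   .two (nat_lit 620757060) (nat_lit 165525062363) (.two (nat_lit 16777240) (nat_lit 12047091237) (.two (nat_lit 2887778312) (nat_lit 1392512240) (.two (nat_lit 1358954500) (nat_lit 706744776) (.two (nat_lit 270532611) (nat_lit 16783670) (.two (nat_lit 2097153) (nat_lit 1056182) (.two (nat_lit 2097152) (nat_lit 13221503297) (.one (nat_lit 168829785) .nil))))))),
   .two (nat_lit 9948889156) (nat_lit 11611931333) (.two (nat_lit 16777240) (nat_lit 9873393197) (.two (nat_lit 620757000) (nat_lit 1786776814) (.two (nat_lit 9766436868) (nat_lit 16780761) (.two (nat_lit 2887778306) (nat_lit 1962940000) (.two (nat_lit 2097153) (nat_lit 612376874) (.one (nat_lit 2106659) .nil)))))),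
   .two (nat_lit 4605345860) (nat_lit 19109250592) (.two (nat_lit 4605345800) (nat_lit 166144772603) (.two (nat_lit 8388612) (nat_lit 10519319182) (.two (nat_lit 8388609) (nat_lit 46422563610) (.two (nat_lit 8388608) (nat_lit 285221180) (.one (nat_lit 16786724) .nil))))),
   .two (nat_lit 10007609412) (nat_lit 3472884481) (.two (nat_lit 285212697) (nat_lit 10007610161) (.two (nat_lit 713031688) (nat_lit 11610885357) (.two (nat_lit 285212676) (nat_lit 156976025052) (.two (nat_lit 2902458371) (nat_lit 165532408085) (.two (nat_lit 16777217) (nat_lit 37253815060) (.two (nat_lit 8388608) (nat_lit 1745887523) (.one (nat_lit 34612301) .nil))))))),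
   .two (nat_lit 654311492) (nat_lit 19128124175) (.two (nat_lit 20753416218) (nat_lit 2099381) (.two (nat_lit 159217877000) (nat_lit 1358957832) (.two (nat_lit 606076932) (nat_lit 620760537) (.two (nat_lit 809500675) (nat_lit 13237229152) (.two (nat_lit 9766436865) (nat_lit 157051527416) (.one (nat_lit 11546928377) .nil)))))),
   .two (nat_lit 159266111556) (nat_lit 158177690755) (.two (nat_lit 236978201) (nat_lit 1346373146) (.two (nat_lit 10940841992) (nat_lit 104860148) (.two (nat_lit 2988441605) (nat_lit 21814579659) (.two (nat_lit 2954887171) (nat_lit 104864530) (.two (nat_lit 4194304) (nat_lit 11544830233) (.one (nat_lit 2106662) .nil)))))),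
   .two (nat_lit 4647288900) (nat_lit 19599983031) (.two (nat_lit 285212696) (nat_lit 11546920505) (.two (nat_lit 3460300808) (nat_lit 21223180789) (.two (nat_lit 184419352580) (nat_lit 28101840347) (.two (nat_lit 171966467) (nat_lit 16781965) (.two (nat_lit 4194305) (nat_lit 12163488527) (.two (nat_lit 1048576) (nat_lit 1178607926) (.one (nat_lit 1058087) .nil))))))),
   .two (nat_lit 3003121843) (nat_lit 174753579447) (.two (nat_lit 3003121690) (nat_lit 270534170) (.two (nat_lit 3460300808) (nat_lit 21223180789) (.two (nat_lit 3460300804) (nat_lit 4632613323) (.two (nat_lit 9933160451) (nat_lit 1176509202) (.two (nat_lit 2097152) (nat_lit 806363417) (.one (nat_lit 68166950) .nil)))))),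
   .two (nat_lit 822083652) (nat_lit 9966715624) (.two (nat_lit 18933088300) (nat_lit 9765389853) (.two (nat_lit 9866051592) (nat_lit 50334192) (.two (nat_lit 10369368068) (nat_lit 28772928989) (.two (nat_lit 638582787) (nat_lit 16783671) (.two (nat_lit 8388609) (nat_lit 4631567126) (.two (nat_lit 8388608) (nat_lit 158158823700) (.one (nat_lit 1058091) .nil))))))),
   .two (nat_lit 654311492) (nat_lit 3024093927) (.two (nat_lit 2969567257) (nat_lit 4196534) (.two (nat_lit 612368392) (nat_lit 318770655) (.two (nat_lit 184549379) (nat_lit 9969867537) (.two (nat_lit 8388608) (nat_lit 4202775) (.one (nat_lit 4203820) .nil))))),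
   .two (nat_lit 16777284) (nat_lit 11484005121) (.two (nat_lit 218103835) (nat_lit 270534189) (.two (nat_lit 2969567240) (nat_lit 840961266) (.two (nat_lit 11551113220) (nat_lit 158158819982) (.two (nat_lit 2097153) (nat_lit 28705823508) (.two (nat_lit 8388608) (nat_lit 2954895617) (.one (nat_lit 2106671) .nil)))))),
   .two (nat_lit 46477082692) (nat_lit 822084023) (.two (nat_lit 285212698) (nat_lit 166132187954) (.two (nat_lit 285212680) (nat_lit 46477085194) (.two (nat_lit 205520900) (nat_lit 3539997326) (.two (nat_lit 4194305) (nat_lit 10452212500) (.two (nat_lit 1048576) (nat_lit 9768542475) (.one (nat_lit 117449782) .nil)))))),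
   .two (nat_lit 41943108) (nat_lit 117440952) (.two (nat_lit 754974745) (nat_lit 12048140788) (.two (nat_lit 50331652) (nat_lit 10510929371) (.two (nat_lit 16777218) (nat_lit 10947139160) (.two (nat_lit 16777217) (nat_lit 337648402) (.two (nat_lit 2097152) (nat_lit 1761616179) (.one (nat_lit 2106491) .nil)))))),
   .two (nat_lit 50331716) (nat_lit 10510926265) (.two (nat_lit 16777240) (nat_lit 8390839) (.two (nat_lit 612368392) (nat_lit 46992984571) (.two (nat_lit 612368388) (nat_lit 3539997175) (.two (nat_lit 176160770) (nat_lit 16783674) (.two (nat_lit 16777217) (nat_lit 11544829286) (.two (nat_lit 8388608) (nat_lit 2105671) (.one (nat_lit 2106673) .nil))))))),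
   .two (nat_lit 352321604) (nat_lit 28791800944) (.two (nat_lit 4605345818) (nat_lit 156566030839) (.two (nat_lit 4194308) (nat_lit 9934213600) (.two (nat_lit 47550824451) (nat_lit 4043315444) (.two (nat_lit 4194305) (nat_lit 1056496) (.two (nat_lit 1048576) (nat_lit 4203101) (.one (nat_lit 1058157) .nil)))))),
   .two (nat_lit 880803908) (nat_lit 1782579998) (.two (nat_lit 46510637081) (nat_lit 47588574763) (.two (nat_lit 8388616) (nat_lit 9936309473) (.two (nat_lit 713031684) (nat_lit 205525498) (.two (nat_lit 8388610) (nat_lit 4201342) (.two (nat_lit 4194305) (nat_lit 8396529) (.two (nat_lit 4194304) (nat_lit 11618230805) (.one (nat_lit 4203723) .nil))))))),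
   .two (nat_lit 10506731588) (nat_lit 1277166295) (.two (nat_lit 3527409688) (nat_lit 807405697) (.two (nat_lit 205520904) (nat_lit 183947497208) (.two (nat_lit 157036838916) (nat_lit 21814579676) (.two (nat_lit 2097155) (nat_lit 4200727) (.two (nat_lit 2097153) (nat_lit 1056499) (.two (nat_lit 1048576) (nat_lit 2105951) (.one (nat_lit 1058158) .nil))))))),
   .two (nat_lit 620757060) (nat_lit 47547679433) (.two (nat_lit 276824089) (nat_lit 1279264304) (.two (nat_lit 83886088) (nat_lit 46407879921) (.two (nat_lit 41943044) (nat_lit 10538193374) (.two (nat_lit 8388610) (nat_lit 1055615) (.two (nat_lit 2097153) (nat_lit 4202228) (.two (nat_lit 1048576) (nat_lit 2106235) (.one (nat_lit 1058159) .nil))))))),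
   .two (nat_lit 159224168731) (nat_lit 28793897677) (.two (nat_lit 50331675) (nat_lit 1350567482) (.two (nat_lit 11492392968) (nat_lit 11614031328) (.two (nat_lit 50331651) (nat_lit 1782586730) (.two (nat_lit 8388608) (nat_lit 10372522220) (.one (nat_lit 16786645) .nil))))),
   .two (nat_lit 21785215155) (nat_lit 12115247823) (.two (nat_lit 46978301995) (nat_lit 47550826039) (.two (nat_lit 10506731528) (nat_lit 174752533799) (.two (nat_lit 19596836868) (nat_lit 874516975) (.two (nat_lit 1176502275) (nat_lit 1055616) (.two (nat_lit 2097153) (nat_lit 1057148) (.two (nat_lit 8388608) (nat_lit 1057660) (.one (nat_lit 4203888) .nil))))))),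
   .two (nat_lit 4601151556) (nat_lit 46414169620) (.two (nat_lit 4194312) (nat_lit 176164091) (.two (nat_lit 12054429700) (nat_lit 9899610643) (.two (nat_lit 713031682) (nat_lit 1055617) (.two (nat_lit 34603009) (nat_lit 239083214) (.two (nat_lit 1048576) (nat_lit 4203389) (.one (nat_lit 1058161) .nil)))))),
   .two (nat_lit 10907287731) (nat_lit 8389764) (.two (nat_lit 47555018777) (nat_lit 156567079421) (.two (nat_lit 47555018756) (nat_lit 46407881166) (.two (nat_lit 159217876995) (nat_lit 8394931) (.two (nat_lit 8388609) (nat_lit 2104753) (.two (nat_lit 2097152) (nat_lit 8397694) (.one (nat_lit 19094578183) .nil)))))),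
   .two (nat_lit 16777284) (nat_lit 18926797598) (.two (nat_lit 16777243) (nat_lit 1411386006) (.two (nat_lit 620757000) (nat_lit 46978305325) (.two (nat_lit 2969567236) (nat_lit 1277170188) (.two (nat_lit 184549378) (nat_lit 158647458060) (.two (nat_lit 16777217) (nat_lit 2105077) (.two (nat_lit 2097152) (nat_lit 16786018) (.one (nat_lit 12115256366) .nil))))))),
   .two (nat_lit 880803908) (nat_lit 1346372302) (.two (nat_lit 184549401) (nat_lit 158079125018) (.two (nat_lit 184549384) (nat_lit 9902756299) (.two (nat_lit 176160770) (nat_lit 16784258) (.two (nat_lit 4194305) (nat_lit 8397181) (.two (nat_lit 4194304) (nat_lit 8397695) (.one (nat_lit 4203890) .nil)))))),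
   .two (nat_lit 2349859094) (nat_lit 13228835557) (.two (nat_lit 16777243) (nat_lit 159224169265) (.two (nat_lit 184549384) (nat_lit 746589660) (.two (nat_lit 9765388291) (nat_lit 185002368363) (.two (nat_lit 1048576) (nat_lit 183861519361) .nil)))),
   .two (nat_lit 2987393312) (nat_lit 840958712) (.two (nat_lit 1310720025) (nat_lit 11010048818) (.two (nat_lit 158144135176) (nat_lit 13221497338) (.two (nat_lit 1277165572) (nat_lit 13224645128) (.two (nat_lit 28758245379) (nat_lit 183946451728) (.two (nat_lit 1048576) (nat_lit 2105645) (.one (nat_lit 4203891) .nil)))))),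
   .two (nat_lit 1291845910) (nat_lit 239076069) (.two (nat_lit 1291845657) (nat_lit 10909387252) (.two (nat_lit 713031684) (nat_lit 185023336927) (.two (nat_lit 620756995) (nat_lit 9802094814) (.two (nat_lit 37748737) (nat_lit 19537075562) (.two (nat_lit 4194304) (nat_lit 352330287) (.one (nat_lit 4203739) .nil)))))),
   .two (nat_lit 10370416820) (nat_lit 19042140929) (.two (nat_lit 203423771) (nat_lit 13191088294) (.two (nat_lit 158158815240) (nat_lit 12115249655) (.two (nat_lit 1795162116) (nat_lit 156466418133) (.two (nat_lit 8388611) (nat_lit 20707285250) (.two (nat_lit 620756993) (nat_lit 10907295446) (.two (nat_lit 2097152) (nat_lit 4203107) (.one (nat_lit 4203892) .nil))))))),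
   .two (nat_lit 158144135236) (nat_lit 168821491) (.two (nat_lit 174752530459) (nat_lit 11477716228) (.two (nat_lit 169869316) (nat_lit 4613739567) (.two (nat_lit 1779433475) (nat_lit 10370423002) (.two (nat_lit 34603009) (nat_lit 2105078) (.two (nat_lit 1048576) (nat_lit 2105956) (.one (nat_lit 1058165) .nil)))))),
   .two (nat_lit 21785215044) (nat_lit 16778871) (.two (nat_lit 352321563) (nat_lit 1753220628) (.two (nat_lit 1350565898) (nat_lit 10921970957) (.two (nat_lit 612368388) (nat_lit 3573551630) (.two (nat_lit 176160771) (nat_lit 16783643) (.two (nat_lit 8388609) (nat_lit 117448415) (.two (nat_lit 8388608) (nat_lit 16786304) (.one (nat_lit 16786806) .nil))))))),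
   .two (nat_lit 9802088627) (nat_lit 28101837541) (.two (nat_lit 3539992602) (nat_lit 11479812248) (.two (nat_lit 218103816) (nat_lit 1053359) (.two (nat_lit 272629766) (nat_lit 1954550233) (.two (nat_lit 272629763) (nat_lit 8395651) (.two (nat_lit 4194305) (nat_lit 1057150) (.two (nat_lit 1048576) (nat_lit 4203393) (.one (nat_lit 1058167) .nil))))))),
   .two (nat_lit 1291845914) (nat_lit 612369202) (.two (nat_lit 9881780232) (nat_lit 156364704250) (.two (nat_lit 2902458372) (nat_lit 156472709575) (.two (nat_lit 16777219) (nat_lit 18925755152) (.two (nat_lit 1048576) (nat_lit 16786021) (.one (nat_lit 8398045) .nil))))),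
   .two (nat_lit 4605345971) (nat_lit 1279263462) (.two (nat_lit 612368422) (nat_lit 285214230) (.two (nat_lit 183848927240) (nat_lit 185027531241) (.two (nat_lit 8388610) (nat_lit 4201348) (.two (nat_lit 8388609) (nat_lit 16785143) (.two (nat_lit 4194304) (nat_lit 16786306) (.one (nat_lit 4203896) .nil)))))),
   .two (nat_lit 47555018820) (nat_lit 1344275154) (.two (nat_lit 47582281753) (nat_lit 158079125038) (.two (nat_lit 47548727304) (nat_lit 4196868) (.two (nat_lit 47548727300) (nat_lit 2424312337) (.two (nat_lit 50331651) (nat_lit 4030732534) (.two (nat_lit 2097153) (nat_lit 4202879) (.two (nat_lit 2097152) (nat_lit 4203110) (.one (nat_lit 4203897) .nil))))))),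
   .two (nat_lit 20704133188) (nat_lit 19042140873) (.two (nat_lit 185035915290) (nat_lit 1050801) (.two (nat_lit 158143086600) (nat_lit 16781060) (.two (nat_lit 822083588) (nat_lit 156968686043) (.two (nat_lit 1343225859) (nat_lit 16784261) (.two (nat_lit 50331649) (nat_lit 1057152) (.two (nat_lit 1048576) (nat_lit 16786307) (.one (nat_lit 16786810) .nil))))))),
   .two (nat_lit 4605345860) (nat_lit 3036676869) (.two (nat_lit 1358954534) (nat_lit 8390834) (.two (nat_lit 8388616) (nat_lit 20652755451) (.two (nat_lit 721420292) (nat_lit 28798096980) (.two (nat_lit 8388609) (nat_lit 11022638813) (.two (nat_lit 8388608) (nat_lit 16786023) (.one (nat_lit 1426072712) .nil)))))),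
   .two (nat_lit 13237223492) (nat_lit 166132187838) (.two (nat_lit 13237223451) (nat_lit 28793898529) (.two (nat_lit 46978301960) (nat_lit 1379929326) (.two (nat_lit 46978301956) (nat_lit 184989782469) (.two (nat_lit 708837379) (nat_lit 165540795997) (.two (nat_lit 2097153) (nat_lit 13191094525) (.one (nat_lit 16786655) .nil)))))),
   .two (nat_lit 12117344436) (nat_lit 156984410880) (.two (nat_lit 1779433499) (nat_lit 2936014391) (.two (nat_lit 739246088) (nat_lit 4196852) (.two (nat_lit 620756996) (nat_lit 1053217) (.two (nat_lit 11543773187) (nat_lit 4201350) (.two (nat_lit 16777217) (nat_lit 1057153) (.two (nat_lit 1048576) (nat_lit 4203396) (.one (nat_lit 1058171) .nil))))))),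
   .two (nat_lit 352321604) (nat_lit 20644364984) (.two (nat_lit 20644364313) (nat_lit 203425331) (.two (nat_lit 4613734408) (nat_lit 8393392) (.two (nat_lit 2887778308) (nat_lit 1350572296) (.two (nat_lit 612368385) (nat_lit 159250389782) (.two (nat_lit 1048576) (nat_lit 203432181) (.one (nat_lit 2106748) .nil)))))),
   .two (nat_lit 46414168244) (nat_lit 28086108599) (.two (nat_lit 13195280411) (nat_lit 11476666868) (.two (nat_lit 21811429381) (nat_lit 10544484825) (.two (nat_lit 13195280387) (nat_lit 1055004) (.two (nat_lit 41943041) (nat_lit 739254533) (.one (nat_lit 16786813) .nil))))),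
   .two (nat_lit 19130220724) (nat_lit 9933161204) (.two (nat_lit 46523220011) (nat_lit 47550826039) (.two (nat_lit 28690087944) (nat_lit 174759874300) (.two (nat_lit 4194308) (nat_lit 10376712735) (.two (nat_lit 721420291) (nat_lit 34609374) (.two (nat_lit 4194305) (nat_lit 276831992) (.two (nat_lit 1048576) (nat_lit 4203397) (.one (nat_lit 4203902) .nil))))))),
   .two (nat_lit 10015998020) (nat_lit 20644364984) (.two (nat_lit 20644364313) (nat_lit 21814576672) (.two (nat_lit 20644364302) (nat_lit 20740835844) (.two (nat_lit 10007609350) (nat_lit 4198942) (.two (nat_lit 41943043) (nat_lit 1962940656) (.two (nat_lit 16777217) (nat_lit 4202882) (.two (nat_lit 4194304) (nat_lit 8397416) (.one (nat_lit 4203903) .nil))))))),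
   .two (nat_lit 16777395) (nat_lit 47550824889) (.two (nat_lit 16777242) (nat_lit 159219975728) (.two (nat_lit 16777224) (nat_lit 19130223104) (.two (nat_lit 11479810052) (nat_lit 269490425) (.two (nat_lit 9765388289) (nat_lit 813702557) (.two (nat_lit 1048576) (nat_lit 4203398) (.one (nat_lit 16786816) .nil)))))),
   .two (nat_lit 272629828) (nat_lit 28772926166) (.two (nat_lit 754974765) (nat_lit 156968683076) (.two (nat_lit 28086108170) (nat_lit 28089257185) (.two (nat_lit 4194308) (nat_lit 16783029) (.two (nat_lit 184549379) (nat_lit 4200733) (.two (nat_lit 50331649) (nat_lit 37246475645) (.two (nat_lit 1048576) (nat_lit 4203399) (.one (nat_lit 4203905) .nil))))))),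
   .two (nat_lit 19093520564) (nat_lit 142607153) (.two (nat_lit 713031688) (nat_lit 1191186965) (.two (nat_lit 184549378) (nat_lit 8395655) (.two (nat_lit 34603009) (nat_lit 2894077344) (.two (nat_lit 1048576) (nat_lit 8397963) .nil)))),
   .two (nat_lit 1947205917) (nat_lit 9906946488) (.two (nat_lit 46414168089) (nat_lit 3539995943) (.two (nat_lit 620756996) (nat_lit 12155096544) (.two (nat_lit 8388611) (nat_lit 1947211956) (.two (nat_lit 605028353) (nat_lit 10007616909) (.two (nat_lit 1048576) (nat_lit 8397418) (.one (nat_lit 1058178) .nil)))))),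
   .two (nat_lit 9967763524) (nat_lit 11610882756) (.two (nat_lit 10436476953) (nat_lit 2921334318) (.two (nat_lit 21208498184) (nat_lit 156968684809) (.two (nat_lit 2954887172) (nat_lit 183946449397) (.two (nat_lit 159217876995) (nat_lit 1055006) (.two (nat_lit 606076929) (nat_lit 34610926) (.two (nat_lit 2097152) (nat_lit 34611493) (.one (nat_lit 1058018) .nil))))))),
   .two (nat_lit 9967763635) (nat_lit 9765389014) (.two (nat_lit 4194330) (nat_lit 788532520) (.two (nat_lit 705691652) (nat_lit 104862171) (.two (nat_lit 34603011) (nat_lit 1749032315) (.two (nat_lit 1048576) (nat_lit 2106248) (.one (nat_lit 1058020) .nil))))),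
   .two (nat_lit 183912890436) (nat_lit 158647452088) (.two (nat_lit 203423771) (nat_lit 251659821) (.two (nat_lit 739246088) (nat_lit 3003125021) (.two (nat_lit 739246084) (nat_lit 11477719282) (.two (nat_lit 620756993) (nat_lit 10537147803) (.two (nat_lit 1048576) (nat_lit 2105963) (.one (nat_lit 2106598) .nil)))))),
   .two (nat_lit 156581757107) (nat_lit 183949592085) (.two (nat_lit 272629768) (nat_lit 47588576493) (.two (nat_lit 13191086084) (nat_lit 352326138) (.two (nat_lit 16777219) (nat_lit 2927630545) (.two (nat_lit 37748737) (nat_lit 75505349) (.two (nat_lit 16777216) (nat_lit 183853130626) (.one (nat_lit 16786819) .nil)))))),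
   .two (nat_lit 337641756) (nat_lit 18933088695) (.two (nat_lit 3021996068) (nat_lit 1283458586) (.two (nat_lit 169869320) (nat_lit 10007612638) (.two (nat_lit 20638072836) (nat_lit 209719768) (.two (nat_lit 41943043) (nat_lit 1055008) (.two (nat_lit 34603009) (nat_lit 2105082) (.two (nat_lit 1048576) (nat_lit 8397705) (.one (nat_lit 2106756) .nil))))))),
   .two (nat_lit 75497754) (nat_lit 754975423) (.two (nat_lit 310378533) (nat_lit 12117345073) (.two (nat_lit 4605345800) (nat_lit 166144774614) (.two (nat_lit 8388610) (nat_lit 1950357789) (.two (nat_lit 8388609) (nat_lit 158662139270) (.two (nat_lit 1048576) (nat_lit 174692770318) (.one (nat_lit 4203751) .nil)))))),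
   .two (nat_lit 3525312580) (nat_lit 166132187830) (.two (nat_lit 3525312550) (nat_lit 10540287554) (.two (nat_lit 9768534024) (nat_lit 2100997) (.two (nat_lit 739246086) (nat_lit 104862202) (.two (nat_lit 34603011) (nat_lit 4201352) (.two (nat_lit 2097153) (nat_lit 4202883) (.two (nat_lit 1048576) (nat_lit 2106250) (.one (nat_lit 1058181) .nil))))))),
   .two (nat_lit 1962934340) (nat_lit 10436477696) (.two (nat_lit 21785215003) (nat_lit 740297204) (.two (nat_lit 183845781508) (nat_lit 813701356) (.two (nat_lit 2097153) (nat_lit 9873399140) (.two (nat_lit 1048576) (nat_lit 807411961) (.one (nat_lit 16786822) .nil))))),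
   .two (nat_lit 16777284) (nat_lit 46984594134) (.two (nat_lit 16777240) (nat_lit 11584669852) (.two (nat_lit 50331656) (nat_lit 1350569214) (.two (nat_lit 165525061636) (nat_lit 9873396769) (.two (nat_lit 41943043) (nat_lit 2886736656) (.two (nat_lit 8388608) (nat_lit 3524272371) (.one (nat_lit 16786666) .nil)))))),
   .two (nat_lit 37246468378) (nat_lit 13228835557) (.two (nat_lit 9881780250) (nat_lit 10000270879) (.two (nat_lit 620757000) (nat_lit 12155096544) (.two (nat_lit 184549378) (nat_lit 1209014489) (.two (nat_lit 16777217) (nat_lit 746593713) (.two (nat_lit 1048576) (nat_lit 1795170904) (.one (nat_lit 1058183) .nil)))))),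
   .two (nat_lit 47596961860) (nat_lit 874513967) (.two (nat_lit 10370416648) (nat_lit 151000662) (.two (nat_lit 605028353) (nat_lit 46508548361) (.one (nat_lit 16786824) .nil))),
   .two (nat_lit 19093520664) (nat_lit 708838102) (.two (nat_lit 46414168089) (nat_lit 1782580760) (.two (nat_lit 11559501832) (nat_lit 638586115) (.two (nat_lit 46414168068) (nat_lit 10452210150) (.two (nat_lit 1178599427) (nat_lit 336599830) (.two (nat_lit 4194304) (nat_lit 1410343143) (.one (nat_lit 1058031) .nil)))))),
   .two (nat_lit 9806282820) (nat_lit 1212154296) (.two (nat_lit 11513364505) (nat_lit 18933089074) (.two (nat_lit 1350565896) (nat_lit 50334195) (.two (nat_lit 41943044) (nat_lit 46992985568) (.two (nat_lit 8388611) (nat_lit 608180497) (.two (nat_lit 37748737) (nat_lit 8396203) (.two (nat_lit 4194304) (nat_lit 8397688) (.one (nat_lit 4203760) .nil))))))),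
   .two (nat_lit 306184469) (nat_lit 159250383565) (.two (nat_lit 12617515033) (nat_lit 166232852017) (.two (nat_lit 9933160462) (nat_lit 16779763) (.two (nat_lit 205520900) (nat_lit 2432700907) (.two (nat_lit 605028355) (nat_lit 16783650) (.two (nat_lit 9781116929) (nat_lit 183845789050) (.two (nat_lit 1048576) (nat_lit 16786029) (.one (nat_lit 166211888178) .nil))))))),
   .two (nat_lit 2969567517) (nat_lit 19026412261) (.two (nat_lit 272629786) (nat_lit 1862272561) (.two (nat_lit 4194312) (nat_lit 158662135080) (.two (nat_lit 11492392964) (nat_lit 19029561839) (.two (nat_lit 11492392962) (nat_lit 20707285776) (.two (nat_lit 4194304) (nat_lit 20719870186) (.one (nat_lit 1058185) .nil)))))),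
   .two (nat_lit 19596837043) (nat_lit 19130221246) (.two (nat_lit 184419352601) (nat_lit 46507493514) (.two (nat_lit 272629768) (nat_lit 21811434017) (.two (nat_lit 4194306) (nat_lit 1055011) (.two (nat_lit 4194305) (nat_lit 1056507) (.two (nat_lit 1048576) (nat_lit 159219982874) (.one (nat_lit 1058033) .nil)))))),
   .two (nat_lit 8388676) (nat_lit 28705818157) (.two (nat_lit 176160776) (nat_lit 184552723) (.two (nat_lit 612368388) (nat_lit 37262201346) (.two (nat_lit 721420290) (nat_lit 2316310710) (.two (nat_lit 34603009) (nat_lit 166144778535) (.one (nat_lit 1058034) .nil))))),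
   .two (nat_lit 47582282010) (nat_lit 156364702414) (.two (nat_lit 339738650) (nat_lit 20644366835) (.two (nat_lit 4194308) (nat_lit 174692765152) (.two (nat_lit 2097155) (nat_lit 11513370846) (.two (nat_lit 2097153) (nat_lit 18925756685) (.one (nat_lit 1058036) .nil))))),
   .two (nat_lit 13195280664) (nat_lit 183913939685) (.two (nat_lit 4194329) (nat_lit 46414168882) (.two (nat_lit 4601151496) (nat_lit 4598010398) (.two (nat_lit 184419352579) (nat_lit 10940849530) (.two (nat_lit 1048576) (nat_lit 2105966) (.one (nat_lit 1058186) .nil))))),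
   .two (nat_lit 19599982660) (nat_lit 2927624632) (.two (nat_lit 4647288859) (nat_lit 28693234482) (.two (nat_lit 12117344264) (nat_lit 9873394985) (.two (nat_lit 184549380) (nat_lit 1749029339) (.two (nat_lit 16777219) (nat_lit 8395044) (.two (nat_lit 16777217) (nat_lit 183848934827) (.two (nat_lit 4194304) (nat_lit 8397423) (.one (nat_lit 8398219) .nil))))))),
   .two (nat_lit 3458203828) (nat_lit 46414168765) (.two (nat_lit 159217877019) (nat_lit 20745029169) (.two (nat_lit 11551113224) (nat_lit 1962937588) (.two (nat_lit 612368388) (nat_lit 19128127947) (.two (nat_lit 9934209027) (nat_lit 165532408029) (.two (nat_lit 8388609) (nat_lit 2105085) (.two (nat_lit 16777216) (nat_lit 8397424) (.one (nat_lit 2902467713) .nil))))))),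
   .two (nat_lit 2969567300) (nat_lit 10913579779) (.two (nat_lit 2969567256) (nat_lit 8391324) (.two (nat_lit 184549384) (nat_lit 1283459579) (.two (nat_lit 713031684) (nat_lit 12062821854) (.two (nat_lit 16777219) (nat_lit 8395047) (.two (nat_lit 16777217) (nat_lit 8396542) (.two (nat_lit 16777216) (nat_lit 10544488679) (.one (nat_lit 8398076) .nil))))))),
   .two (nat_lit 2923430169) (nat_lit 3565159126) (.two (nat_lit 13195280427) (nat_lit 12148803103) (.two (nat_lit 13195280397) (nat_lit 1358957796) (.two (nat_lit 1780482052) (nat_lit 21814579654) (.two (nat_lit 4194306) (nat_lit 8395657) (.two (nat_lit 156372041729) (nat_lit 46477090207) (.two (nat_lit 2097152) (nat_lit 8397707) (.one (nat_lit 2106764) .nil))))))),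
   .two (nat_lit 11626610868) (nat_lit 18933088959) (.two (nat_lit 184419352601) (nat_lit 1962935847) (.two (nat_lit 46414168072) (nat_lit 47584381444) (.two (nat_lit 41943044) (nat_lit 2432699867) (.two (nat_lit 11479810051) (nat_lit 1350572228) (.two (nat_lit 4194305) (nat_lit 1795170607) (.one (nat_lit 8398221) .nil)))))),
   .two (nat_lit 11007950916) (nat_lit 156976022211) (.two (nat_lit 3558866983) (nat_lit 19134416419) (.two (nat_lit 639631368) (nat_lit 158183984889) (.two (nat_lit 3525312516) (nat_lit 11014246925) (.two (nat_lit 46407876610) (nat_lit 1954551389) (.two (nat_lit 2097153) (nat_lit 8396213) (.two (nat_lit 2097152) (nat_lit 8397708) (.one (nat_lit 8398222) .nil))))))),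
   .two (nat_lit 1916797108) (nat_lit 16778374) (.two (nat_lit 306184218) (nat_lit 156984411710) (.two (nat_lit 285212680) (nat_lit 11513367026) (.two (nat_lit 809500676) (nat_lit 11525950940) (.two (nat_lit 4194306) (nat_lit 19612571226) (.two (nat_lit 8388609) (nat_lit 104866029) (.one (nat_lit 708846774) .nil)))))),
   .two (nat_lit 13224640778) (nat_lit 2886730499) (.two (nat_lit 9899606041) (nat_lit 12050238708) (.two (nat_lit 28086108164) (nat_lit 1862275572) (.two (nat_lit 101711875) (nat_lit 171974048) (.two (nat_lit 1048576) (nat_lit 318776165) (.one (nat_lit 1058048) .nil))))),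
   .two (nat_lit 158646403351) (nat_lit 21827158834) (.two (nat_lit 28757196808) (nat_lit 270535162) (.two (nat_lit 9866051588) (nat_lit 102766841) (.two (nat_lit 606076929) (nat_lit 101719770) (.two (nat_lit 1048576) (nat_lit 2106253) (.one (nat_lit 16786831) .nil))))),
   .two (nat_lit 843055172) (nat_lit 276825215) (.two (nat_lit 847249435) (nat_lit 1312818724) (.two (nat_lit 4194312) (nat_lit 9873394913) (.two (nat_lit 4194308) (nat_lit 8393786) (.two (nat_lit 156372041731) (nat_lit 3539999599) (.two (nat_lit 4194305) (nat_lit 1056512) (.two (nat_lit 1048576) (nat_lit 4203406) (.one (nat_lit 16786832) .nil))))))),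
   .two (nat_lit 11577327684) (nat_lit 18941477582) (.two (nat_lit 9881780249) (nat_lit 47581234748) (.two (nat_lit 20644364297) (nat_lit 1862275550) (.two (nat_lit 8388611) (nat_lit 1055019) (.two (nat_lit 8388609) (nat_lit 1057156) (.two (nat_lit 16777216) (nat_lit 8397711) (.one (nat_lit 251667476) .nil)))))),
   .two (nat_lit 46474985540) (nat_lit 8390264) (.two (nat_lit 2994733082) (nat_lit 1377831063) (.two (nat_lit 3021996042) (nat_lit 20711475707) (.two (nat_lit 9934209028) (nat_lit 185027531241) (.two (nat_lit 169869314) (nat_lit 75503855) (.two (nat_lit 2097153) (nat_lit 8396545) (.two (nat_lit 2097152) (nat_lit 8397427) (.one (nat_lit 75506785) .nil))))))),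
   .two (nat_lit 46474985540) (nat_lit 608174788) (.two (nat_lit 3525312536) (nat_lit 10439624834) (.two (nat_lit 203423752) (nat_lit 608178642) (.two (nat_lit 2887778306) (nat_lit 9869203747) (.two (nat_lit 9768534017) (nat_lit 10001325434) (.two (nat_lit 4194304) (nat_lit 673194584) (.one (nat_lit 2106769) .nil)))))),
   .two (nat_lit 1753219140) (nat_lit 12150899410) (.two (nat_lit 1753219109) (nat_lit 166230754878) (.two (nat_lit 18933088264) (nat_lit 773852459) (.two (nat_lit 641728516) (nat_lit 47582286344) (.two (nat_lit 46978301955) (nat_lit 4605352194) (.two (nat_lit 156372041729) (nat_lit 2954894703) (.two (nat_lit 2097152) (nat_lit 8397712) (.one (nat_lit 2106626) .nil))))))),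
   .two (nat_lit 1310720276) (nat_lit 10913579447) (.two (nat_lit 679477275) (nat_lit 11626612915) (.two (nat_lit 11551113224) (nat_lit 2969569777) (.two (nat_lit 9934209028) (nat_lit 159257729257) (.two (nat_lit 2097153) (nat_lit 20745035492) (.two (nat_lit 2097152) (nat_lit 8397713) (.one (nat_lit 8398083) .nil)))))),
   .two (nat_lit 19530776755) (nat_lit 157038937623) (.two (nat_lit 46980399112) (nat_lit 706742778) (.two (nat_lit 46980399108) (nat_lit 2101795) (.two (nat_lit 708837379) (nat_lit 285218405) (.two (nat_lit 4194305) (nat_lit 20705190141) (.one (nat_lit 2106629) .nil))))),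
   .two (nat_lit 1426063539) (nat_lit 10544481397) (.two (nat_lit 3539992601) (nat_lit 742393402) (.two (nat_lit 1358954504) (nat_lit 638586115) (.two (nat_lit 46414168068) (nat_lit 46473941457) (.two (nat_lit 171966467) (nat_lit 11484011885) (.two (nat_lit 4194304) (nat_lit 158143095037) (.one (nat_lit 16786834) .nil)))))),
   .two (nat_lit 4601151556) (nat_lit 166203491076) (.two (nat_lit 183853121561) (nat_lit 12114201077) (.two (nat_lit 713031684) (nat_lit 2953844995) (.two (nat_lit 4194305) (nat_lit 8397189) (.two (nat_lit 1048576) (nat_lit 4203410) (.one (nat_lit 4203923) .nil))))),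
   .two (nat_lit 4601151556) (nat_lit 1853883145) (.two (nat_lit 880803877) (nat_lit 19127076381) (.two (nat_lit 713031688) (nat_lit 183928621572) (.two (nat_lit 276824068) (nat_lit 46992986582) (.two (nat_lit 1913651203) (nat_lit 2424314068) (.two (nat_lit 9765388289) (nat_lit 174768266629) (.two (nat_lit 1048576) (nat_lit 8397429) (.one (nat_lit 1058196) .nil))))))),
   .two (nat_lit 3525312580) (nat_lit 10506732338) (.two (nat_lit 3525312520) (nat_lit 158649552124) (.two (nat_lit 272629764) (nat_lit 1053755) (.two (nat_lit 4194306) (nat_lit 1055626) (.two (nat_lit 156365750273) (nat_lit 12620669417) (.one (nat_lit 2106773) .nil))))),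
   .two (nat_lit 10506731793) (nat_lit 183962174258) (.two (nat_lit 2889875464) (nat_lit 11551117800) (.two (nat_lit 2889875458) (nat_lit 16784267) (.two (nat_lit 4194305) (nat_lit 8396546) (.two (nat_lit 4194304) (nat_lit 8397430) (.one (nat_lit 8398230) .nil))))),
   .two (nat_lit 13191086148) (nat_lit 2927624632) (.two (nat_lit 306184217) (nat_lit 158653745323) (.two (nat_lit 46414168072) (nat_lit 183947495925) (.two (nat_lit 176160772) (nat_lit 2350911981) (.two (nat_lit 117440515) (nat_lit 9900661003) (.two (nat_lit 612368385) (nat_lit 2954894715) (.two (nat_lit 2097152) (nat_lit 4203127) (.one (nat_lit 8398231) .nil))))))),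
   .two (nat_lit 654311604) (nat_lit 1279263426) (.two (nat_lit 218103835) (nat_lit 19134417060) (.two (nat_lit 4605345800) (nat_lit 3560967466) (.two (nat_lit 21785214980) (nat_lit 21827162625) (.two (nat_lit 183848927235) (nat_lit 8395660) (.two (nat_lit 4194305) (nat_lit 16785798) (.two (nat_lit 4194304) (nat_lit 8397715) (.one (nat_lit 8398088) .nil))))))),
   .two (nat_lit 1916797211) (nat_lit 4647289650) (.two (nat_lit 12050235400) (nat_lit 20753419520) (.two (nat_lit 18928893956) (nat_lit 1780486616) (.two (nat_lit 184549378) (nat_lit 2104205) (.two (nat_lit 9768534017) (nat_lit 12115254668) (.two (nat_lit 2097152) (nat_lit 4203412) (.one (nat_lit 2106776) .nil)))))),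
   .two (nat_lit 10538188868) (nat_lit 1312817858) (.two (nat_lit 9781116964) (nat_lit 9934209841) (.two (nat_lit 9781116936) (nat_lit 3525317126) (.two (nat_lit 184549378) (nat_lit 2104206) (.two (nat_lit 2097153) (nat_lit 4202887) (.two (nat_lit 2097152) (nat_lit 16786325) (.one (nat_lit 2106777) .nil)))))),
   .two (nat_lit 809500740) (nat_lit 10015998753) (.two (nat_lit 654311461) (nat_lit 28691138073) (.two (nat_lit 169869320) (nat_lit 339741993) (.two (nat_lit 9781116932) (nat_lit 156968686055) (.two (nat_lit 169869314) (nat_lit 1055631) (.two (nat_lit 2097153) (nat_lit 47547686277) (.two (nat_lit 2097152) (nat_lit 12163490421) (.one (nat_lit 16786698) .nil))))))),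
   .two (nat_lit 156367847492) (nat_lit 156976022223) (.two (nat_lit 18928893990) (nat_lit 8390836) (.two (nat_lit 47555018760) (nat_lit 20740836577) (.two (nat_lit 1749024772) (nat_lit 2424312274) (.two (nat_lit 165528207363) (nat_lit 8395664) (.two (nat_lit 612368385) (nat_lit 4202888) (.two (nat_lit 16777216) (nat_lit 4203128) (.one (nat_lit 8398234) .nil))))))),
   .two (nat_lit 50331716) (nat_lit 165528208087) (.two (nat_lit 11559501849) (nat_lit 19096667685) (.two (nat_lit 176160776) (nat_lit 158179791307) (.two (nat_lit 4605345795) (nat_lit 183848933672) (.two (nat_lit 8388609) (nat_lit 166232859147) (.one (nat_lit 4203787) .nil))))),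
   .two (nat_lit 158646403252) (nat_lit 11614028525) (.two (nat_lit 10436476953) (nat_lit 11010049575) (.two (nat_lit 4613734408) (nat_lit 28760345077) (.two (nat_lit 11559501828) (nat_lit 806359525) (.two (nat_lit 11543773187) (nat_lit 4201361) (.two (nat_lit 37748737) (nat_lit 28806487749) (.two (nat_lit 1048576) (nat_lit 4203129) (.one (nat_lit 4203931) .nil))))))),
   .two (nat_lit 46474985540) (nat_lit 75498223) (.two (nat_lit 9974054939) (nat_lit 13188991153) (.two (nat_lit 20644364296) (nat_lit 270535957) (.two (nat_lit 75497476) (nat_lit 2102968) (.two (nat_lit 41943043) (nat_lit 2104210) (.two (nat_lit 2097153) (nat_lit 8397193) (.two (nat_lit 2097152) (nat_lit 8397718) (.one (nat_lit 8398236) .nil))))))),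
   .two (nat_lit 4647289012) (nat_lit 11513365248) (.two (nat_lit 1317011499) (nat_lit 46407878786) (.two (nat_lit 157036838920) (nat_lit 889195745) (.two (nat_lit 46978301956) (nat_lit 46422561315) (.two (nat_lit 75497475) (nat_lit 185002367175) (.two (nat_lit 2097153) (nat_lit 2894077340) (.two (nat_lit 2097152) (nat_lit 8397117) (.one (nat_lit 8398237) .nil))))))),
   .two (nat_lit 2988441668) (nat_lit 11626611459) (.two (nat_lit 2988441625) (nat_lit 16779933) (.two (nat_lit 2954887176) (nat_lit 1325402619) (.two (nat_lit 83886084) (nat_lit 18926801958) (.two (nat_lit 620756995) (nat_lit 606083287) (.two (nat_lit 2097153) (nat_lit 16785156) (.two (nat_lit 16777216) (nat_lit 2105979) (.one (nat_lit 20753425544) .nil))))))),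
   .two (nat_lit 11578376372) (nat_lit 21811430076) (.two (nat_lit 11593056281) (nat_lit 12114200740) (.two (nat_lit 3539992584) (nat_lit 21210598660) (.two (nat_lit 218103812) (nat_lit 12115252281) (.two (nat_lit 806354947) (nat_lit 16784275) (.two (nat_lit 2097153) (nat_lit 1056517) (.two (nat_lit 2097152) (nat_lit 1057687) (.one (nat_lit 2106782) .nil))))))),
   .two (nat_lit 157038936132) (nat_lit 28087157462) (.two (nat_lit 3527409688) (nat_lit 203425948) (.two (nat_lit 3527409672) (nat_lit 156567080190) (.two (nat_lit 3527409668) (nat_lit 2102332) (.two (nat_lit 2954887171) (nat_lit 71308884) (.two (nat_lit 2097153) (nat_lit 11546925844) (.two (nat_lit 2097152) (nat_lit 4203132) (.one (nat_lit 2106641) .nil))))))),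
   .two (nat_lit 159257723059) (nat_lit 184987682333) (.two (nat_lit 9940500488) (nat_lit 773852917) (.two (nat_lit 1276116996) (nat_lit 2101727) (.two (nat_lit 9933160451) (nat_lit 21214796069) (.two (nat_lit 4194305) (nat_lit 2987400612) (.two (nat_lit 2097152) (nat_lit 1057405) (.one (nat_lit 8398239) .nil)))))),
   .two (nat_lit 21827158196) (nat_lit 158646403775) (.two (nat_lit 159217877019) (nat_lit 12062820852) (.two (nat_lit 9866051588) (nat_lit 165540793819) (.two (nat_lit 158143086595) (nat_lit 156548208933) (.two (nat_lit 606076929) (nat_lit 705700074) (.one (nat_lit 1058066) .nil))))),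
   .two (nat_lit 1426063539) (nat_lit 18933089074) (.two (nat_lit 1350565896) (nat_lit 50334195) (.two (nat_lit 41943044) (nat_lit 19042144719) (.two (nat_lit 8388611) (nat_lit 608180497) (.two (nat_lit 4194305) (nat_lit 8396203) (.two (nat_lit 4194304) (nat_lit 16786328) (.one (nat_lit 4203760) .nil)))))),
   .two (nat_lit 10007609412) (nat_lit 158158815945) (.two (nat_lit 16777241) (nat_lit 10007610161) (.two (nat_lit 16777224) (nat_lit 10443820274) (.two (nat_lit 50331652) (nat_lit 174692766182) (.two (nat_lit 2969567235) (nat_lit 19027466461) (.two (nat_lit 8388609) (nat_lit 2105738) (.two (nat_lit 16777216) (nat_lit 2105982) (.one (nat_lit 8398240) .nil))))))),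
   .two (nat_lit 13237223604) (nat_lit 2923430589) (.two (nat_lit 183916036140) (nat_lit 839910942) (.two (nat_lit 12117344264) (nat_lit 158091708932) (.two (nat_lit 205520900) (nat_lit 183861514733) (.two (nat_lit 171966467) (nat_lit 285219106) (.two (nat_lit 34603009) (nat_lit 775953799) (.two (nat_lit 16777216) (nat_lit 1057407) (.one (nat_lit 166211888178) .nil))))))),
   .two (nat_lit 184993972292) (nat_lit 1276117790) (.two (nat_lit 276824090) (nat_lit 46523222149) (.two (nat_lit 184549384) (nat_lit 1853885692) (.two (nat_lit 41943044) (nat_lit 19127079457) (.two (nat_lit 11476664322) (nat_lit 11477719299) (.two (nat_lit 8388609) (nat_lit 1343233787) (.two (nat_lit 8388608) (nat_lit 1057408) (.one (nat_lit 1058067) .nil))))))),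
   .two (nat_lit 20638073012) (nat_lit 47555019191) (.two (nat_lit 47555018777) (nat_lit 183947494940) (.two (nat_lit 8388616) (nat_lit 1176505569) (.two (nat_lit 1358954500) (nat_lit 706744855) (.two (nat_lit 2954887171) (nat_lit 1426069713) (.two (nat_lit 2097153) (nat_lit 16785158) (.two (nat_lit 8388608) (nat_lit 2106265) (.one (nat_lit 8398241) .nil))))))),
   .two (nat_lit 2317353139) (nat_lit 37246469655) (.two (nat_lit 12050235400) (nat_lit 11626615279) (.two (nat_lit 171966467) (nat_lit 28772931161) (.two (nat_lit 4194305) (nat_lit 336599830) (.two (nat_lit 2097152) (nat_lit 12633252095) (.one (nat_lit 4203938) .nil))))),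
   .two (nat_lit 352321604) (nat_lit 10913581212) (.two (nat_lit 620757000) (nat_lit 37320920318) (.two (nat_lit 47563407364) (nat_lit 158150431777) (.two (nat_lit 159224168451) (nat_lit 10955527764) (.two (nat_lit 156364701697) (nat_lit 174692769130) (.two (nat_lit 1048576) (nat_lit 343942232) .nil))))),
   .two (nat_lit 101712051) (nat_lit 1191183892) (.two (nat_lit 4613734408) (nat_lit 13195282929) (.two (nat_lit 16777220) (nat_lit 10906243545) (.two (nat_lit 184549378) (nat_lit 156364708089) (.two (nat_lit 8388609) (nat_lit 1056520) (.two (nat_lit 1048576) (nat_lit 8397120) (.one (nat_lit 1058211) .nil)))))),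
   .two (nat_lit 50331928) (nat_lit 11479810488) (.two (nat_lit 809500699) (nat_lit 855639610) (.two (nat_lit 9881780234) (nat_lit 11580476659) (.two (nat_lit 1291845636) (nat_lit 20640174535) (.two (nat_lit 9948889091) (nat_lit 174688573663) (.two (nat_lit 9781116929) (nat_lit 19029565700) (.one (nat_lit 4203940) .nil)))))),
   .two (nat_lit 20704133188) (nat_lit 183861510893) (.two (nat_lit 158646403099) (nat_lit 3460303016) (.two (nat_lit 3539992584) (nat_lit 158649551366) (.two (nat_lit 4194308) (nat_lit 4613739567) (.two (nat_lit 9933160451) (nat_lit 16783661) (.two (nat_lit 37748737) (nat_lit 34610934) (.two (nat_lit 1048576) (nat_lit 339747405) (.one (nat_lit 4203800) .nil))))))),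
   .two (nat_lit 1384120388) (nat_lit 1376780984) (.two (nat_lit 11577327641) (nat_lit 159219975706) (.two (nat_lit 11543773192) (nat_lit 19130223104) (.two (nat_lit 184986632196) (nat_lit 1749029406) (.two (nat_lit 11476664322) (nat_lit 8395668) (.two (nat_lit 605028353) (nat_lit 306192089) (.two (nat_lit 8388608) (nat_lit 10939802480) (.one (nat_lit 1212163466) .nil))))))),
   .two (nat_lit 847249476) (nat_lit 9969862191) (.two (nat_lit 183848927240) (nat_lit 174759876185) (.two (nat_lit 9768534017) (nat_lit 46407884528) (.two (nat_lit 2097152) (nat_lit 37757479) (.one (nat_lit 8398245) .nil)))),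
   .two (nat_lit 47548727364) (nat_lit 9772729075) (.two (nat_lit 20644364313) (nat_lit 158143089964) (.two (nat_lit 169869316) (nat_lit 176165339) (.two (nat_lit 169869314) (nat_lit 9772734684) (.two (nat_lit 41943041) (nat_lit 606084523) (.two (nat_lit 1048576) (nat_lit 2105986) (.one (nat_lit 1058074) .nil)))))),
   .two (nat_lit 1291845915) (nat_lit 243270375) (.two (nat_lit 184549401) (nat_lit 21818772773) (.two (nat_lit 184549380) (nat_lit 11014246870) (.two (nat_lit 41943043) (nat_lit 339744985) (.two (nat_lit 37748737) (nat_lit 19042147690) (.two (nat_lit 4194304) (nat_lit 1350574338) (.one (nat_lit 4203803) .nil)))))),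
   .two (nat_lit 21785215044) (nat_lit 822084730) (.two (nat_lit 16777243) (nat_lit 19537069623) (.two (nat_lit 159266111498) (nat_lit 20745031429) (.two (nat_lit 9948889092) (nat_lit 8393789) (.two (nat_lit 184549378) (nat_lit 8395055) (.two (nat_lit 16777217) (nat_lit 4202249) (.two (nat_lit 4194304) (nat_lit 8397443) (.one (nat_lit 8398246) .nil))))))),
   .two (nat_lit 843055172) (nat_lit 343933730) (.two (nat_lit 156372041767) (nat_lit 1178600996) (.two (nat_lit 46414168072) (nat_lit 174755679508) (.two (nat_lit 158083317764) (nat_lit 156468517163) (.two (nat_lit 4194305) (nat_lit 8397195) (.two (nat_lit 8388608) (nat_lit 4203418) (.one (nat_lit 4203943) .nil)))))),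
   .two (nat_lit 158143086660) (nat_lit 847250159) (.two (nat_lit 46409973787) (nat_lit 10007610899) (.two (nat_lit 8388616) (nat_lit 19596840231) (.two (nat_lit 276824068) (nat_lit 1279267359) (.two (nat_lit 8388610) (nat_lit 13224646883) (.two (nat_lit 8388609) (nat_lit 4202232) (.two (nat_lit 1048576) (nat_lit 4638908966) (.one (nat_lit 4638909753) .nil))))))),
   .two (nat_lit 28758245555) (nat_lit 46477083064) (.two (nat_lit 310378522) (nat_lit 166132188693) (.two (nat_lit 12117344264) (nat_lit 4638902784) (.two (nat_lit 9766436868) (nat_lit 158079128057) (.two (nat_lit 708837379) (nat_lit 19537074970) (.two (nat_lit 8388608) (nat_lit 157036847663) (.one (nat_lit 4203944) .nil)))))),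
   .two (nat_lit 10015998020) (nat_lit 46414168503) (.two (nat_lit 721420314) (nat_lit 813696579) (.two (nat_lit 184549384) (nat_lit 11484008941) (.two (nat_lit 4605345795) (nat_lit 159253534971) (.two (nat_lit 8388609) (nat_lit 1782586733) (.two (nat_lit 4194304) (nat_lit 11551121643) (.one (nat_lit 16786717) .nil)))))),
   .two (nat_lit 352321604) (nat_lit 165532402368) (.two (nat_lit 174752530459) (nat_lit 9881783595) (.two (nat_lit 47563407364) (nat_lit 75503878) (.two (nat_lit 8388609) (nat_lit 47596969392) (.two (nat_lit 1048576) (nat_lit 75506845) .nil)))),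
   .two (nat_lit 2350907571) (nat_lit 11577329174) (.two (nat_lit 1343225864) (nat_lit 158144138541) (.two (nat_lit 1343225860) (nat_lit 1176506856) (.two (nat_lit 270532611) (nat_lit 788535590) (.two (nat_lit 9766436865) (nat_lit 185020194566) (.two (nat_lit 1048576) (nat_lit 2105989) (.one (nat_lit 2106793) .nil)))))),
   .two (nat_lit 9802088733) (nat_lit 28101837510) (.two (nat_lit 156367847451) (nat_lit 158662133920) (.two (nat_lit 19532873736) (nat_lit 10452209401) (.two (nat_lit 11479810052) (nat_lit 2332038749) (.two (nat_lit 9768534017) (nat_lit 47596969397) (.two (nat_lit 4194304) (nat_lit 16786331) (.one (nat_lit 16786858) .nil)))))),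
   .two (nat_lit 159251431492) (nat_lit 12121539277) (.two (nat_lit 3464495131) (nat_lit 9766438466) (.two (nat_lit 159217877000) (nat_lit 235934241) (.two (nat_lit 176160770) (nat_lit 168827776) (.two (nat_lit 156364701697) (nat_lit 4605353701) (.two (nat_lit 2097152) (nat_lit 21777883766) (.one (nat_lit 1058219) .nil)))))),
   .two (nat_lit 889192516) (nat_lit 158083318456) (.two (nat_lit 2988441627) (nat_lit 2936014379) (.two (nat_lit 1417674765) (nat_lit 10437528837) (.two (nat_lit 343932934) (nat_lit 12148806091) (.two (nat_lit 8388611) (nat_lit 2103601) (.two (nat_lit 2097153) (nat_lit 41951848) (.one (nat_lit 8398252) .nil)))))),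
   .two (nat_lit 174753579276) (nat_lit 28806480639) (.two (nat_lit 20705181723) (nat_lit 184431937076) (.two (nat_lit 174752530440) (nat_lit 270535162) (.two (nat_lit 2097158) (nat_lit 1291851364) (.two (nat_lit 34603009) (nat_lit 2887785232) (.two (nat_lit 1048576) (nat_lit 1914708269) (.one (nat_lit 16786720) .nil)))))),
   .two (nat_lit 285212740) (nat_lit 1916797368) (.two (nat_lit 2902458409) (nat_lit 2956985884) (.two (nat_lit 11479810056) (nat_lit 687868418) (.two (nat_lit 16777220) (nat_lit 2990543303) (.two (nat_lit 184549379) (nat_lit 20640176404) (.two (nat_lit 37748737) (nat_lit 158183988617) (.two (nat_lit 4194304) (nat_lit 8397446) (.one (nat_lit 8398253) .nil))))))),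
   .two (nat_lit 13188989216) (nat_lit 18933088962) (.two (nat_lit 20704133157) (nat_lit 46407878787) (.two (nat_lit 46407876617) (nat_lit 159216831783) (.two (nat_lit 705691652) (nat_lit 8394425) (.two (nat_lit 713031682) (nat_lit 2104213) (.two (nat_lit 2097153) (nat_lit 1057164) (.two (nat_lit 2097152) (nat_lit 8397724) (.one (nat_lit 8398254) .nil))))))),
   .two (nat_lit 2969567300) (nat_lit 12048139005) (.two (nat_lit 3573547035) (nat_lit 2098721) (.two (nat_lit 9948889096) (nat_lit 20705185048) (.two (nat_lit 9867100164) (nat_lit 11593059805) (.two (nat_lit 21778923523) (nat_lit 21793610002) (.two (nat_lit 37748737) (nat_lit 13188996454) (.two (nat_lit 2097152) (nat_lit 16785732) (.one (nat_lit 2106799) .nil))))))),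
   .two (nat_lit 159266111556) (nat_lit 8390265) (.two (nat_lit 11584667675) (nat_lit 166129043586) (.two (nat_lit 3036676105) (nat_lit 165532404211) (.two (nat_lit 47563407364) (nat_lit 11484008933) (.two (nat_lit 13191086083) (nat_lit 1426069753) (.two (nat_lit 37748737) (nat_lit 34610544) (.two (nat_lit 1048576) (nat_lit 4203143) (.one (nat_lit 8398256) .nil))))))),
   .two (nat_lit 11525947676) (nat_lit 876610286) (.two (nat_lit 1277165606) (nat_lit 1191183892) (.two (nat_lit 1178599432) (nat_lit 184987683318) (.two (nat_lit 1178599428) (nat_lit 606081521) (.two (nat_lit 184989777923) (nat_lit 10016004395) (.two (nat_lit 37748737) (nat_lit 11477720431) (.two (nat_lit 4194304) (nat_lit 2105992) (.one (nat_lit 20640179332) .nil))))))),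
   .two (nat_lit 2969567300) (nat_lit 158144135607) (.two (nat_lit 218103834) (nat_lit 337643067) (.two (nat_lit 2902458376) (nat_lit 1210060000) (.two (nat_lit 1277165572) (nat_lit 21793608334) (.two (nat_lit 606076929) (nat_lit 184431942420) (.two (nat_lit 1048576) (nat_lit 16786057) (.one (nat_lit 16786865) .nil)))))),
   .two (nat_lit 9899606301) (nat_lit 2420114225) (.two (nat_lit 205520904) (nat_lit 166144772603) (.two (nat_lit 101711876) (nat_lit 4634710536) (.two (nat_lit 11476664322) (nat_lit 1950358964) (.two (nat_lit 1048576) (nat_lit 16786059) (.one (nat_lit 16786866) .nil))))),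
   .two (nat_lit 620757279) (nat_lit 46407877330) (.two (nat_lit 1358954541) (nat_lit 2416969278) (.two (nat_lit 9866051592) (nat_lit 16782001) (.two (nat_lit 705691652) (nat_lit 16783034) (.two (nat_lit 16777219) (nat_lit 1055027) (.two (nat_lit 620756993) (nat_lit 1780489594) (.two (nat_lit 16777216) (nat_lit 183947502207) (.one (nat_lit 2106803) .nil))))))),
   .two (nat_lit 46474985540) (nat_lit 16778375) (.two (nat_lit 1291845657) (nat_lit 1746929185) (.two (nat_lit 47548727304) (nat_lit 28772928000) (.two (nat_lit 606076932) (nat_lit 3472888300) (.two (nat_lit 169869314) (nat_lit 16783668) (.two (nat_lit 37748737) (nat_lit 2104730) (.two (nat_lit 2097152) (nat_lit 16786333) (.one (nat_lit 16786868) .nil))))))),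
   .two (nat_lit 11618222364) (nat_lit 13221495497) (.two (nat_lit 21777874971) (nat_lit 11517560995) (.two (nat_lit 12054429704) (nat_lit 19529732585) (.two (nat_lit 8388610) (nat_lit 1055029) (.two (nat_lit 605028353) (nat_lit 1786782281) (.one (nat_lit 174692770799) .nil))))),
   .two (nat_lit 8388676) (nat_lit 9881780920) (.two (nat_lit 9881780249) (nat_lit 4027581982) (.two (nat_lit 12047089672) (nat_lit 21223182882) (.two (nat_lit 16777219) (nat_lit 873470257) (.two (nat_lit 34603009) (nat_lit 889201256) (.one (nat_lit 1058229) .nil))))),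
   .two (nat_lit 28806480158) (nat_lit 705692374) (.two (nat_lit 156535619611) (nat_lit 21223179824) (.two (nat_lit 158158815240) (nat_lit 184416212017) (.two (nat_lit 2969567235) (nat_lit 21781027125) (.two (nat_lit 9765388289) (nat_lit 205529368) (.one (nat_lit 1058085) .nil))))),
   .two (nat_lit 620757060) (nat_lit 46481277697) (.two (nat_lit 16777240) (nat_lit 157043132935) (.two (nat_lit 16777220) (nat_lit 10909389279) (.two (nat_lit 285212675) (nat_lit 1749031205) (.two (nat_lit 9768534017) (nat_lit 184416214403) (.two (nat_lit 8388608) (nat_lit 2349868030) .nil))))),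
   .two (nat_lit 1847591194) (nat_lit 156481094345) (.two (nat_lit 3573547035) (nat_lit 673187349) (.two (nat_lit 166130089992) (nat_lit 12633246212) (.two (nat_lit 20638072836) (nat_lit 21827164391) (.two (nat_lit 9766436865) (nat_lit 19109255955) (.two (nat_lit 2097152) (nat_lit 16785734) (.one (nat_lit 16786728) .nil)))))),
   .two (nat_lit 1847591194) (nat_lit 11593056964) (.two (nat_lit 1310720025) (nat_lit 20652754472) (.two (nat_lit 218103816) (nat_lit 2099724) (.two (nat_lit 166130089988) (nat_lit 1962938905) (.two (nat_lit 9934209027) (nat_lit 9982450451) (.two (nat_lit 2097152) (nat_lit 1392517359) (.one (nat_lit 16786729) .nil)))))),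
   .two (nat_lit 159224168516) (nat_lit 28772926158) (.two (nat_lit 16777241) (nat_lit 47555020310) (.two (nat_lit 16777224) (nat_lit 47555021297) (.two (nat_lit 612368388) (nat_lit 185002365457) (.two (nat_lit 1779433475) (nat_lit 11626617076) (.two (nat_lit 34603009) (nat_lit 46984601913) (.one (nat_lit 1058090) .nil)))))),
   .two (nat_lit 156535619652) (nat_lit 2988442296) (.two (nat_lit 2988441625) (nat_lit 4601153089) (.two (nat_lit 184993972232) (nat_lit 28791803111) (.two (nat_lit 166130089990) (nat_lit 4634710544) (.two (nat_lit 12054429699) (nat_lit 11511273756) (.two (nat_lit 2097153) (nat_lit 157043137298) (.two (nat_lit 8388608) (nat_lit 157036847720) (.one (nat_lit 2106669) .nil))))))),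
   .two (nat_lit 11513364763) (nat_lit 28101837510) (.two (nat_lit 306184229) (nat_lit 165540791843) (.two (nat_lit 184419352584) (nat_lit 1862274809) (.two (nat_lit 272629764) (nat_lit 158158818781) (.two (nat_lit 4194306) (nat_lit 16783672) (.two (nat_lit 156367847425) (nat_lit 13237231361) (.two (nat_lit 4194304) (nat_lit 16786060) (.one (nat_lit 16786870) .nil))))))),
   .two (nat_lit 10015998020) (nat_lit 13195281087) (.two (nat_lit 306184219) (nat_lit 813696551) (.two (nat_lit 46409973768) (nat_lit 209718569) (.two (nat_lit 46409973764) (nat_lit 318773533) (.two (nat_lit 4194305) (nat_lit 19537075590) (.two (nat_lit 8388608) (nat_lit 4202787) (.one (nat_lit 8398126) .nil)))))),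
   .two (nat_lit 21785215155) (nat_lit 174685422319) (.two (nat_lit 4613734426) (nat_lit 19033754105) (.two (nat_lit 75497476) (nat_lit 1948258777) (.two (nat_lit 1176502275) (nat_lit 352329128) (.two (nat_lit 1048576) (nat_lit 2105997) (.one (nat_lit 16786871) .nil))))),
   .two (nat_lit 12117344436) (nat_lit 11578376923) (.two (nat_lit 28693233689) (nat_lit 4598007356) (.two (nat_lit 10504634376) (nat_lit 11513367822) (.two (nat_lit 705691652) (nat_lit 239079925) (.two (nat_lit 28757196803) (nat_lit 1746934014) (.two (nat_lit 2097153) (nat_lit 4202251) (.two (nat_lit 2097152) (nat_lit 1057694) (.one (nat_lit 159217886619) .nil))))))),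
   .two (nat_lit 889192627) (nat_lit 158083319316) (.two (nat_lit 16777224) (nat_lit 157036842220) (.two (nat_lit 8388612) (nat_lit 156581761550) (.two (nat_lit 8388610) (nat_lit 2103609) (.two (nat_lit 2097153) (nat_lit 8396556) (.two (nat_lit 2097152) (nat_lit 8397727) (.one (nat_lit 2106808) .nil)))))),
   .two (nat_lit 156569174196) (nat_lit 156567077632) (.two (nat_lit 4634705945) (nat_lit 739247653) (.two (nat_lit 9934209032) (nat_lit 1779438043) (.two (nat_lit 4599054339) (nat_lit 4201366) (.two (nat_lit 2097153) (nat_lit 306192106) (.two (nat_lit 1048576) (nat_lit 2105998) (.one (nat_lit 1058096) .nil)))))),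
   .two (nat_lit 28772925880) (nat_lit 2097950) (.two (nat_lit 9974054980) (nat_lit 3573548609) (.two (nat_lit 16777243) (nat_lit 2323647745) (.two (nat_lit 28693233672) (nat_lit 166230757855) (.two (nat_lit 9940500484) (nat_lit 606083858) (.two (nat_lit 8388609) (nat_lit 203432185) (.two (nat_lit 2097152) (nat_lit 4203609) (.one (nat_lit 2106883) .nil))))))),
   .two (nat_lit 50332087) (nat_lit 37320917731) (.two (nat_lit 16777284) (nat_lit 1417677299) (.two (nat_lit 16777224) (nat_lit 276828814) (.two (nat_lit 16777218) (nat_lit 11551120747) (.two (nat_lit 8388609) (nat_lit 47596970224) (.two (nat_lit 8388608) (nat_lit 47563416556) (.one (nat_lit 183953794355) .nil)))))),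
   .two (nat_lit 1962934711) (nat_lit 2349859256) (.two (nat_lit 4605345860) (nat_lit 184431937072) (.two (nat_lit 28757196827) (nat_lit 645925364) (.two (nat_lit 620757000) (nat_lit 2323650142) (.two (nat_lit 8388610) (nat_lit 889199987) (.two (nat_lit 8388609) (nat_lit 1191191093) (.two (nat_lit 1048576) (nat_lit 4613743450) (.one (nat_lit 3020956978) .nil))))))),
   .two (nat_lit 218104247) (nat_lit 46508540649) (.two (nat_lit 285212740) (nat_lit 159253531137) (.two (nat_lit 16777224) (nat_lit 9766441496) (.two (nat_lit 50331652) (nat_lit 10372520122) (.two (nat_lit 2969567235) (nat_lit 1782586139) (.two (nat_lit 37748737) (nat_lit 337649893) (.two (nat_lit 4194304) (nat_lit 4632618291) .nil)))))),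
   .two (nat_lit 28758245815) (nat_lit 1426064094) (.two (nat_lit 2969567300) (nat_lit 4632611318) (.two (nat_lit 2969567240) (nat_lit 2988446216) (.two (nat_lit 16777220) (nat_lit 2103531) (.two (nat_lit 2969567235) (nat_lit 1411390809) (.two (nat_lit 16777217) (nat_lit 807411975) (.two (nat_lit 16777216) (nat_lit 2106458) (.one (nat_lit 69215540) .nil))))))),
   .two (nat_lit 165532402103) (nat_lit 28087157175) (.two (nat_lit 10015998020) (nat_lit 1283458617) (.two (nat_lit 20644364313) (nat_lit 1780485365) (.two (nat_lit 2969567240) (nat_lit 1916802084) (.two (nat_lit 2969567236) (nat_lit 675289274) (.two (nat_lit 184549378) (nat_lit 673193350) (.two (nat_lit 37748737) (nat_lit 10001326309) (.two (nat_lit 4194304) (nat_lit 176169975) (.one (nat_lit 10372523457) .nil)))))))),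
   .two (nat_lit 28086108599) (nat_lit 9873392326) (.two (nat_lit 28086108339) (nat_lit 1283458595) (.two (nat_lit 158075977754) (nat_lit 11611933172) (.two (nat_lit 13195280392) (nat_lit 839913967) (.two (nat_lit 276824068) (nat_lit 158158820953) (.two (nat_lit 1343225859) (nat_lit 706747154) (.two (nat_lit 605028353) (nat_lit 740303085) (.two (nat_lit 2097152) (nat_lit 1057883) (.one (nat_lit 1058308) .nil)))))))),
   .two (nat_lit 754975159) (nat_lit 101712647) (.two (nat_lit 11559501892) (nat_lit 2920286726) (.two (nat_lit 9881780232) (nat_lit 10369372649) (.two (nat_lit 9866051588) (nat_lit 16781965) (.two (nat_lit 21777874947) (nat_lit 46992988954) (.two (nat_lit 50331649) (nat_lit 1057043) (.two (nat_lit 16777216) (nat_lit 10000278615) (.one (nat_lit 1058309) .nil))))))),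
   .two (nat_lit 11517559223) (nat_lit 28693234103) (.two (nat_lit 10504634436) (nat_lit 3024094745) (.two (nat_lit 20644364313) (nat_lit 1344276995) (.two (nat_lit 20644364296) (nat_lit 69209566) (.two (nat_lit 46978301956) (nat_lit 11546925851) (.two (nat_lit 9768534017) (nat_lit 1786781939) (.two (nat_lit 2097152) (nat_lit 8397917) (.one (nat_lit 2106886) .nil))))))),
   .two (nat_lit 10436477367) (nat_lit 184989778679) (.two (nat_lit 183916036164) (nat_lit 21207452170) (.two (nat_lit 1779433480) (nat_lit 272634377) (.two (nat_lit 742391812) (nat_lit 1054957) (.two (nat_lit 101711875) (nat_lit 4201877) (.two (nat_lit 605028353) (nat_lit 4203065) (.two (nat_lit 2097152) (nat_lit 1057886) (.one (nat_lit 1058311) .nil))))))),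
   .two (nat_lit 37246468536) (nat_lit 2350907831) (.two (nat_lit 185035915332) (nat_lit 37246468914) (.two (nat_lit 12114198552) (nat_lit 169872607) (.two (nat_lit 2887778312) (nat_lit 47563410909) (.two (nat_lit 2887778308) (nat_lit 165540795988) (.two (nat_lit 4599054339) (nat_lit 184556945) (.two (nat_lit 34603009) (nat_lit 9867108614) (.two (nat_lit 1048576) (nat_lit 2106463) (.one (nat_lit 2106888) .nil)))))))),
   .two (nat_lit 9982443959) (nat_lit 1310720440) (.two (nat_lit 185035915332) (nat_lit 157035791923) (.two (nat_lit 10336862235) (nat_lit 1224739316) (.two (nat_lit 272629768) (nat_lit 46489669087) (.two (nat_lit 4613734404) (nat_lit 9869203034) (.two (nat_lit 10336862211) (nat_lit 13221501712) (.two (nat_lit 606076929) (nat_lit 10372522226) (.two (nat_lit 1048576) (nat_lit 807413042) .nil))))))),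
   .two (nat_lit 37313577399) (nat_lit 4195103) (.two (nat_lit 19096666180) (nat_lit 13221496354) (.two (nat_lit 19096666149) (nat_lit 34605557) (.two (nat_lit 28086108168) (nat_lit 4198940) (.two (nat_lit 104857604) (nat_lit 1054958) (.two (nat_lit 10939793411) (nat_lit 4201878) (.two (nat_lit 612368385) (nat_lit 4631568653) (.two (nat_lit 8388608) (nat_lit 4631569484) (.one (nat_lit 1058313) .nil)))))))),
   .two (nat_lit 1426063799) (nat_lit 4034921174) (.two (nat_lit 11618222367) (nat_lit 183848928050) (.two (nat_lit 880803883) (nat_lit 166144772602) (.two (nat_lit 21793603592) (nat_lit 8393777) (.two (nat_lit 641728516) (nat_lit 166245439711) (.two (nat_lit 620756995) (nat_lit 21785222518) (.two (nat_lit 37748737) (nat_lit 157051527399) (.two (nat_lit 8388608) (nat_lit 16786528) (.one (nat_lit 16786954) .nil)))))))),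
   .two (nat_lit 11584668087) (nat_lit 183845782242) (.two (nat_lit 21811429444) (nat_lit 20705182514) (.two (nat_lit 11543773208) (nat_lit 4638903526) (.two (nat_lit 276824072) (nat_lit 166130094555) (.two (nat_lit 169869316) (nat_lit 8394991) (.two (nat_lit 158075977731) (nat_lit 2961186167) (.two (nat_lit 8388609) (nat_lit 303046914) (.two (nat_lit 1048576) (nat_lit 8397921) (.one (nat_lit 1058315) .nil)))))))),
   .two (nat_lit 4034920888) (nat_lit 874513154) (.two (nat_lit 184986632260) (nat_lit 2936014388) (.two (nat_lit 47548727322) (nat_lit 34606306) (.two (nat_lit 169869320) (nat_lit 19142809184) (.two (nat_lit 169869314) (nat_lit 75504991) (.two (nat_lit 8388609) (nat_lit 269492458) (.two (nat_lit 2097152) (nat_lit 16786530) (.one (nat_lit 2106892) .nil))))))),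
   .two (nat_lit 9802088888) (nat_lit 158091707095) (.two (nat_lit 3527409732) (nat_lit 10552870439) (.two (nat_lit 847249452) (nat_lit 3024095752) (.two (nat_lit 183853121544) (nat_lit 184431940097) (.two (nat_lit 2889875460) (nat_lit 9940506820) (.two (nat_lit 41943043) (nat_lit 1950358294) (.two (nat_lit 4194305) (nat_lit 8397370) (.two (nat_lit 4194304) (nat_lit 8397924) (.one (nat_lit 16786957) .nil)))))))),
   .two (nat_lit 10540286391) (nat_lit 20738736822) (.two (nat_lit 11543773252) (nat_lit 159219975706) (.two (nat_lit 47582281754) (nat_lit 9768536576) (.two (nat_lit 11543773192) (nat_lit 13188993554) (.two (nat_lit 705691652) (nat_lit 8394992) (.two (nat_lit 34603011) (nat_lit 8396183) (.two (nat_lit 2097153) (nat_lit 1209016567) (.two (nat_lit 2097152) (nat_lit 20640179033) (.one (nat_lit 35661289) .nil)))))))),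
   .two (nat_lit 855638455) (nat_lit 19134415560) (.two (nat_lit 9974054980) (nat_lit 183846831652) (.two (nat_lit 4613734425) (nat_lit 156372044272) (.two (nat_lit 46407876616) (nat_lit 11551118940) (.two (nat_lit 10506731523) (nat_lit 202382699) (.two (nat_lit 156367847425) (nat_lit 18941485915) (.one (nat_lit 8398350) .nil)))))),
   .two (nat_lit 813695415) (nat_lit 1782579915) (.two (nat_lit 11010048068) (nat_lit 46473938478) (.two (nat_lit 169869337) (nat_lit 19537070581) (.two (nat_lit 4194312) (nat_lit 12121543166) (.two (nat_lit 10338959364) (nat_lit 156364708029) (.two (nat_lit 11484004355) (nat_lit 46473943830) (.two (nat_lit 620756993) (nat_lit 10909393134) (.two (nat_lit 16777216) (nat_lit 19134423899) (.one (nat_lit 1058319) .nil)))))))),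
   .two (nat_lit 8389047) (nat_lit 19109249814) (.two (nat_lit 1753219140) (nat_lit 21811430194) (.two (nat_lit 184993972248) (nat_lit 47547681286) (.two (nat_lit 117440520) (nat_lit 156472709601) (.two (nat_lit 184986632196) (nat_lit 9806288480) (.two (nat_lit 822083587) (nat_lit 1056152) (.two (nat_lit 50331649) (nat_lit 159216836852) (.two (nat_lit 1048576) (nat_lit 8397926) (.one (nat_lit 13187950072) .nil)))))))),
   .two (nat_lit 10439623096) (nat_lit 839910109) (.two (nat_lit 4601151556) (nat_lit 10343154481) (.two (nat_lit 2961178649) (nat_lit 18941479415) (.two (nat_lit 2961178632) (nat_lit 19612570080) (.two (nat_lit 19604176900) (nat_lit 46406834966) (.two (nat_lit 620756993) (nat_lit 11510227175) (.two (nat_lit 1048576) (nat_lit 4203623) (.one (nat_lit 185020196295) .nil))))))),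
   .two (nat_lit 1913651639) (nat_lit 19532874546) (.two (nat_lit 46980399130) (nat_lit 174752533740) (.two (nat_lit 205520904) (nat_lit 28798095838) (.two (nat_lit 3460300804) (nat_lit 10376713821) (.two (nat_lit 46409973762) (nat_lit 235936534) (.two (nat_lit 34603009) (nat_lit 28089262324) (.two (nat_lit 1048576) (nat_lit 8397930) (.one (nat_lit 1058321) .nil))))))),
   .two (nat_lit 236978875) (nat_lit 11551113657) (.two (nat_lit 9967763524) (nat_lit 2961180199) (.two (nat_lit 9766436900) (nat_lit 184551920) (.two (nat_lit 813694984) (nat_lit 19109252573) (.two (nat_lit 41943044) (nat_lit 2432702661) (.two (nat_lit 8388610) (nat_lit 2887785844) (.two (nat_lit 8388609) (nat_lit 16785981) (.two (nat_lit 16777216) (nat_lit 8397932) (.one (nat_lit 8398354) .nil)))))))),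
   .two (nat_lit 9974055351) (nat_lit 10907288258) (.two (nat_lit 13191086148) (nat_lit 8390819) (.two (nat_lit 3527409688) (nat_lit 46481280295) (.two (nat_lit 37748744) (nat_lit 109056514) (.two (nat_lit 75497476) (nat_lit 174686476468) (.two (nat_lit 2954887171) (nat_lit 156472711958) (.two (nat_lit 2097153) (nat_lit 4202772) (.two (nat_lit 2097152) (nat_lit 4203630) (.one (nat_lit 2418025970) .nil)))))))),
   .two (nat_lit 20638073271) (nat_lit 46414168770) (.two (nat_lit 13191086148) (nat_lit 8390820) (.two (nat_lit 4601151512) (nat_lit 35654893) (.two (nat_lit 11517558794) (nat_lit 19096670735) (.two (nat_lit 11551113220) (nat_lit 4200691) (.two (nat_lit 746586115) (nat_lit 809508244) (.two (nat_lit 4194305) (nat_lit 2105919) (.two (nat_lit 4194304) (nat_lit 21778932718) (.one (nat_lit 28791809516) .nil)))))))),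
   .two (nat_lit 156971827640) (nat_lit 21778923961) (.two (nat_lit 4605345860) (nat_lit 19599983410) (.two (nat_lit 4605345816) (nat_lit 20640172550) (.two (nat_lit 742391816) (nat_lit 9873396242) (.two (nat_lit 9934209028) (nat_lit 1413486788) (.two (nat_lit 169869314) (nat_lit 4201886) (.two (nat_lit 2097153) (nat_lit 165528215796) (.two (nat_lit 2097152) (nat_lit 4203631) (.one (nat_lit 2106899) .nil)))))))),
   .two (nat_lit 11007951287) (nat_lit 4027581118) (.two (nat_lit 11022631092) (nat_lit 21812479522) (.two (nat_lit 46414168089) (nat_lit 1277168117) (.two (nat_lit 47563407368) (nat_lit 102765016) (.two (nat_lit 11476664324) (nat_lit 10552874592) (.two (nat_lit 20644364290) (nat_lit 28772932955) (.two (nat_lit 605028353) (nat_lit 713040131) (.two (nat_lit 2097152) (nat_lit 1057904) (.one (nat_lit 8398357) .nil)))))))),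
   .two (nat_lit 28806480311) (nat_lit 2349859255) (.two (nat_lit 21785215044) (nat_lit 158662133299) (.two (nat_lit 184549401) (nat_lit 37253811680) (.two (nat_lit 620756996) (nat_lit 1182799450) (.two (nat_lit 176160770) (nat_lit 184431942420) (.two (nat_lit 620756993) (nat_lit 1410343147) (.two (nat_lit 1048576) (nat_lit 889201499) (.one (nat_lit 605037874) .nil))))))),
   .two (nat_lit 165526110647) (nat_lit 13195281078) (.two (nat_lit 4605345860) (nat_lit 19094570524) (.two (nat_lit 11618222107) (nat_lit 174753581568) (.two (nat_lit 8388616) (nat_lit 2101789) (.two (nat_lit 184549380) (nat_lit 8394999) (.two (nat_lit 9948889091) (nat_lit 28697435535) (.two (nat_lit 8388609) (nat_lit 16785685) (.two (nat_lit 8388608) (nat_lit 2106481) (.one (nat_lit 2106902) .nil)))))))),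
   .two (nat_lit 9781117367) (nat_lit 4195097) (.two (nat_lit 285212740) (nat_lit 19599983410) (.two (nat_lit 285212696) (nat_lit 1212156400) (.two (nat_lit 285212680) (nat_lit 205524445) (.two (nat_lit 4194308) (nat_lit 16781965) (.two (nat_lit 809500675) (nat_lit 185035922191) (.two (nat_lit 605028353) (nat_lit 171974888) (.two (nat_lit 1048576) (nat_lit 46523229019) (.one (nat_lit 13221504310) .nil)))))))),
   .two (nat_lit 10336862647) (nat_lit 109052345) (.two (nat_lit 185035915332) (nat_lit 34604601) (.two (nat_lit 4034920473) (nat_lit 1344277728) (.two (nat_lit 28093448200) (nat_lit 158177694148) (.two (nat_lit 3458203652) (nat_lit 11543779566) (.two (nat_lit 806354947) (nat_lit 3036683023) (.two (nat_lit 2097153) (nat_lit 1410343141) (.two (nat_lit 1048576) (nat_lit 16786546) (.one (nat_lit 176170427) .nil)))))))),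
   .two (nat_lit 19530777015) (nat_lit 21781021384) (.two (nat_lit 13237223492) (nat_lit 46984594983) (.two (nat_lit 3527409690) (nat_lit 1411385847) (.two (nat_lit 9940500488) (nat_lit 21812482526) (.two (nat_lit 13203668996) (nat_lit 28798097605) (.two (nat_lit 46409973762) (nat_lit 1325406993) (.two (nat_lit 4194305) (nat_lit 2105622) (.two (nat_lit 2097152) (nat_lit 4203635) (.one (nat_lit 4204056) .nil)))))))),
   .two (nat_lit 3036676536) (nat_lit 10376708828) (.two (nat_lit 156581756996) (nat_lit 10372515373) (.two (nat_lit 4647288858) (nat_lit 13224643854) (.two (nat_lit 9781116936) (nat_lit 46477087246) (.two (nat_lit 158083317764) (nat_lit 4200698) (.two (nat_lit 1178599427) (nat_lit 16784802) (.two (nat_lit 612368385) (nat_lit 71311617) (.two (nat_lit 4194304) (nat_lit 16786548) (.one (nat_lit 4204030) .nil)))))))),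
   .two (nat_lit 156465365431) (nat_lit 2323644855) (.two (nat_lit 11559501892) (nat_lit 20711474739) (.two (nat_lit 3028287513) (nat_lit 10452209120) (.two (nat_lit 50331652) (nat_lit 276828814) (.two (nat_lit 16777219) (nat_lit 12121545492) (.two (nat_lit 612368385) (nat_lit 705700075) (.two (nat_lit 1048576) (nat_lit 41952095) (.one (nat_lit 1058330) .nil))))))),
   .two (nat_lit 1849688504) (nat_lit 2097952) (.two (nat_lit 11007950916) (nat_lit 4195865) (.two (nat_lit 3525312536) (nat_lit 37751290) (.two (nat_lit 813694984) (nat_lit 9781120473) (.two (nat_lit 9766436868) (nat_lit 19142809182) (.two (nat_lit 2887778306) (nat_lit 21781027611) (.two (nat_lit 612368385) (nat_lit 2887786763) (.two (nat_lit 4194304) (nat_lit 209724250) (.one (nat_lit 3022005766) .nil)))))))),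
   .two (nat_lit 19599983032) (nat_lit 9915335383) (.two (nat_lit 185035915550) (nat_lit 135267122) (.two (nat_lit 4647288874) (nat_lit 2956986875) (.two (nat_lit 4613734408) (nat_lit 2956988898) (.two (nat_lit 4194308) (nat_lit 174701155924) (.two (nat_lit 4194306) (nat_lit 16784803) (.two (nat_lit 16777217) (nat_lit 4027588881) (.two (nat_lit 16777216) (nat_lit 10372523100) (.one (nat_lit 1058331) .nil)))))))),
   .two (nat_lit 184993972664) (nat_lit 12148802249) (.two (nat_lit 142606404) (nat_lit 638584369) (.two (nat_lit 4613734426) (nat_lit 184993974769) (.two (nat_lit 75497480) (nat_lit 1343230464) (.two (nat_lit 1846542340) (nat_lit 2424314064) (.two (nat_lit 4599054339) (nat_lit 12062825885) (.two (nat_lit 2097153) (nat_lit 12047098114) (.two (nat_lit 1048576) (nat_lit 13203678272) (.one (nat_lit 3022005743) .nil)))))))),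
   .two (nat_lit 10336862648) (nat_lit 10947134209) (.two (nat_lit 889192516) (nat_lit 1050791) (.two (nat_lit 46489665562) (nat_lit 69208565) (.two (nat_lit 2969567240) (nat_lit 235934150) (.two (nat_lit 185002360836) (nat_lit 638588515) (.two (nat_lit 1358954499) (nat_lit 1176509211) (.two (nat_lit 156365750273) (nat_lit 34611455) (.two (nat_lit 1048576) (nat_lit 2106489) (.one (nat_lit 1058334) .nil)))))))),
   .two (nat_lit 2424308152) (nat_lit 135266743) (.two (nat_lit 174685421747) (nat_lit 10907289109) (.two (nat_lit 184423546905) (nat_lit 2953841887) (.two (nat_lit 12054429704) (nat_lit 158177694148) (.two (nat_lit 12047089668) (nat_lit 10376714469) (.two (nat_lit 2954887171) (nat_lit 168827666) (.two (nat_lit 8388609) (nat_lit 1343234310) (.two (nat_lit 1048576) (nat_lit 8397946) (.one (nat_lit 1058335) .nil)))))))),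
   .two (nat_lit 11513364919) (nat_lit 1209008567) (.two (nat_lit 4647288900) (nat_lit 20740835841) (.two (nat_lit 2969567240) (nat_lit 11477716443) (.two (nat_lit 169869316) (nat_lit 10955527770) (.two (nat_lit 2902458370) (nat_lit 171973403) (.two (nat_lit 2097153) (nat_lit 205529323) (.two (nat_lit 1048576) (nat_lit 47584388402) .nil)))))),
   .two (nat_lit 46980399544) (nat_lit 19596837303) (.two (nat_lit 4647288900) (nat_lit 46980399922) (.two (nat_lit 46980399131) (nat_lit 47581235716) (.two (nat_lit 156367847432) (nat_lit 10369372632) (.two (nat_lit 205520900) (nat_lit 16782948) (.two (nat_lit 739246083) (nat_lit 10003421974) (.two (nat_lit 34603009) (nat_lit 171974900) (.two (nat_lit 4194304) (nat_lit 11476673373) (.one (nat_lit 1058336) .nil)))))))),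
   .two (nat_lit 117440952) (nat_lit 1175454135) (.two (nat_lit 157036838980) (nat_lit 3565159999) (.two (nat_lit 754974745) (nat_lit 12048140788) (.two (nat_lit 4613734408) (nat_lit 10510929371) (.two (nat_lit 50331652) (nat_lit 12048145170) (.two (nat_lit 16777217) (nat_lit 3457163499) (.two (nat_lit 1048576) (nat_lit 2106491) (.one (nat_lit 1058337) .nil))))))),
   .two (nat_lit 184993972664) (nat_lit 159266112225) (.two (nat_lit 16777284) (nat_lit 21785216535) (.two (nat_lit 16777240) (nat_lit 37253811680) (.two (nat_lit 721420292) (nat_lit 4638906567) (.two (nat_lit 176160771) (nat_lit 1862277908) (.two (nat_lit 41943041) (nat_lit 11543781633) (.two (nat_lit 16777216) (nat_lit 1057916) (.one (nat_lit 1058338) .nil))))))),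
   .two (nat_lit 1358954935) (nat_lit 2418016983) (.two (nat_lit 620757060) (nat_lit 9799993511) (.two (nat_lit 16777240) (nat_lit 21778926819) (.two (nat_lit 101711880) (nat_lit 183947497973) (.two (nat_lit 620756996) (nat_lit 174752536806) (.two (nat_lit 184416206851) (nat_lit 184987688294) (.two (nat_lit 2097153) (nat_lit 1057350) (.two (nat_lit 1048576) (nat_lit 2106493) (.one (nat_lit 1058339) .nil)))))))),
   .two (nat_lit 11513365182) (nat_lit 606077369) (.two (nat_lit 13237223492) (nat_lit 2956985901) (.two (nat_lit 2923429913) (nat_lit 2100521) (.two (nat_lit 2902458376) (nat_lit 156535624206) (.two (nat_lit 654311428) (nat_lit 2103550) (.two (nat_lit 272629763) (nat_lit 2104742) (.two (nat_lit 9766436865) (nat_lit 3024101650) (.two (nat_lit 2097152) (nat_lit 4203646) (.one (nat_lit 4204068) .nil)))))))),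
   .two (nat_lit 12117344949) (nat_lit 158150427065) (.two (nat_lit 19599982660) (nat_lit 46481278503) (.two (nat_lit 3525312536) (nat_lit 4197674) (.two (nat_lit 157036838920) (nat_lit 19537072585) (.two (nat_lit 4601151492) (nat_lit 2103551) (.two (nat_lit 46407876610) (nat_lit 156976029088) (.two (nat_lit 2097153) (nat_lit 8397384) (.two (nat_lit 2097152) (nat_lit 8397953) (.one (nat_lit 165532411322) .nil)))))))),
   .two (nat_lit 12163482040) (nat_lit 37246468535) (.two (nat_lit 184993972292) (nat_lit 174701151771) (.two (nat_lit 11626610715) (nat_lit 18933090800) (.two (nat_lit 16777224) (nat_lit 2961182173) (.two (nat_lit 713031684) (nat_lit 185002365582) (.two (nat_lit 41943043) (nat_lit 10016004887) (.two (nat_lit 9765388289) (nat_lit 813703412) (.two (nat_lit 1048576) (nat_lit 10016007003) (.one (nat_lit 16786982) .nil)))))))),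
   .two (nat_lit 3573547448) (nat_lit 19027460536) (.two (nat_lit 2969567300) (nat_lit 156365751845) (.two (nat_lit 156533522459) (nat_lit 185027529209) (.two (nat_lit 8388616) (nat_lit 9781120473) (.two (nat_lit 620756996) (nat_lit 746591843) (.two (nat_lit 16777219) (nat_lit 8396199) (.two (nat_lit 9766436865) (nat_lit 1350574346) (.two (nat_lit 2097152) (nat_lit 11551122266) (.one (nat_lit 8398377) .nil)))))))),
   .two (nat_lit 772800951) (nat_lit 9906946785) (.two (nat_lit 10343153732) (nat_lit 46507492892) (.two (nat_lit 11492392986) (nat_lit 184423550189) (.two (nat_lit 16777224) (nat_lit 672141771) (.two (nat_lit 176160772) (nat_lit 9933167381) (.two (nat_lit 50331649) (nat_lit 109060326) (.two (nat_lit 1048576) (nat_lit 8397965) (.one (nat_lit 185002370356) .nil))))))),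
   .two (nat_lit 4605346232) (nat_lit 9869198041) (.two (nat_lit 4601151556) (nat_lit 183853124083) (.two (nat_lit 4601151496) (nat_lit 2357202400) (.two (nat_lit 13195280388) (nat_lit 1279268442) (.two (nat_lit 4194306) (nat_lit 8396200) (.two (nat_lit 605028353) (nat_lit 157043138794) (.two (nat_lit 1048576) (nat_lit 4203662) (.one (nat_lit 4204075) .nil))))))),
   .two (nat_lit 1178599863) (nat_lit 1291846335) (.two (nat_lit 612368452) (nat_lit 788530719) (.two (nat_lit 156367847451) (nat_lit 10007611889) (.two (nat_lit 176160776) (nat_lit 708841985) (.two (nat_lit 176160772) (nat_lit 4200707) (.two (nat_lit 1191182339) (nat_lit 3531611546) (.two (nat_lit 9781116929) (nat_lit 4034928912) (.two (nat_lit 4194304) (nat_lit 16786575) (.one (nat_lit 4204076) .nil)))))))),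
   .two (nat_lit 843055543) (nat_lit 109052702) (.two (nat_lit 2969567300) (nat_lit 9902753307) (.two (nat_lit 2889875483) (nat_lit 620759536) (.two (nat_lit 50331656) (nat_lit 18928898574) (.two (nat_lit 50331652) (nat_lit 2353010920) (.two (nat_lit 285212675) (nat_lit 1178606359) (.two (nat_lit 8388609) (nat_lit 1178608475) (.one (nat_lit 4204078) .nil))))))),
   .two (nat_lit 10939793847) (nat_lit 174686470838) (.two (nat_lit 156533522500) (nat_lit 1050138) (.two (nat_lit 19027460123) (nat_lit 37246470656) (.two (nat_lit 2887778312) (nat_lit 16781840) (.two (nat_lit 639631364) (nat_lit 68164370) (.two (nat_lit 2097153) (nat_lit 1057049) (.two (nat_lit 1048576) (nat_lit 2106515) (.one (nat_lit 1058351) .nil))))))),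
   .two (nat_lit 673186232) (nat_lit 174752530871) (.two (nat_lit 47596961860) (nat_lit 673186610) (.two (nat_lit 156968681499) (nat_lit 16780587) (.two (nat_lit 169869320) (nat_lit 12129930717) (.two (nat_lit 169869316) (nat_lit 10452211285) (.two (nat_lit 1291845634) (nat_lit 184987688344) (.two (nat_lit 2097153) (nat_lit 1057051) (.two (nat_lit 1048576) (nat_lit 2106520) (.one (nat_lit 1058354) .nil)))))))),
   .two (nat_lit 19596837303) (nat_lit 71303945) (.two (nat_lit 773849268) (nat_lit 202376751) (.two (nat_lit 4028629017) (nat_lit 1051948) (.two (nat_lit 165526110216) (nat_lit 1053752) (.two (nat_lit 2097158) (nat_lit 21827163744) (.two (nat_lit 2956984323) (nat_lit 151002473) (.two (nat_lit 34603009) (nat_lit 2105601) (.two (nat_lit 2097152) (nat_lit 16786585) (.one (nat_lit 1058355) .nil)))))))),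
   .two (nat_lit 9781117367) (nat_lit 2353005296) (.two (nat_lit 285212740) (nat_lit 184419354135) (.two (nat_lit 285212696) (nat_lit 11513367026) (.two (nat_lit 2902458376) (nat_lit 28760348245) (.two (nat_lit 4194306) (nat_lit 4647295768) (.two (nat_lit 4194305) (nat_lit 352329968) (.two (nat_lit 4194304) (nat_lit 16786586) (.one (nat_lit 166232859955) .nil))))))),
   .two (nat_lit 721420727) (nat_lit 166203491099) (.two (nat_lit 50331716) (nat_lit 165532402482) (.two (nat_lit 16777240) (nat_lit 2894072315) (.two (nat_lit 83886088) (nat_lit 11618226699) (.two (nat_lit 612368388) (nat_lit 16781965) (.two (nat_lit 11492392962) (nat_lit 780148070) (.two (nat_lit 50331649) (nat_lit 1182802195) (.two (nat_lit 1048576) (nat_lit 8397664) (.one (nat_lit 8398388) .nil)))))))),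
   .two (nat_lit 166196150711) (nat_lit 10376708814) (.two (nat_lit 174752530500) (nat_lit 8390826) (.two (nat_lit 176160795) (nat_lit 9915338208) (.two (nat_lit 41943044) (nat_lit 4613740743) (.two (nat_lit 721420291) (nat_lit 873471327) (.two (nat_lit 50331649) (nat_lit 158075986187) (.two (nat_lit 1048576) (nat_lit 8397979) (.one (nat_lit 28101846518) .nil))))))),
   .two (nat_lit 822084023) (nat_lit 4599055056) (.two (nat_lit 158144135236) (nat_lit 158183983604) (.two (nat_lit 8388616) (nat_lit 4632613323) (.two (nat_lit 50331652) (nat_lit 158150432343) (.two (nat_lit 16777218) (nat_lit 874519922) (.two (nat_lit 8388609) (nat_lit 3573555467) (.two (nat_lit 2097152) (nat_lit 8397980) (.one (nat_lit 3003131188) .nil))))))),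
   .two (nat_lit 12163482040) (nat_lit 2349859255) (.two (nat_lit 2994733124) (nat_lit 13203671552) (.two (nat_lit 16777224) (nat_lit 276827613) (.two (nat_lit 612368388) (nat_lit 47563412110) (.two (nat_lit 612368387) (nat_lit 10016004887) (.two (nat_lit 9765388289) (nat_lit 813703412) (.two (nat_lit 1048576) (nat_lit 10016007007) (.one (nat_lit 8398389) .nil))))))),
   .two (nat_lit 11010048439) (nat_lit 4028629686) (.two (nat_lit 159266111556) (nat_lit 156969731650) (.two (nat_lit 306184219) (nat_lit 11544824312) (.two (nat_lit 156367847432) (nat_lit 185021239782) (.two (nat_lit 203423748) (nat_lit 4200712) (.two (nat_lit 174753579011) (nat_lit 158079131002) (.two (nat_lit 2097153) (nat_lit 16786000) (.two (nat_lit 4194304) (nat_lit 2106527) (.one (nat_lit 2106934) .nil)))))))),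
   .two (nat_lit 46980399543) (nat_lit 69206728) (.two (nat_lit 46474985540) (nat_lit 158179789305) (.two (nat_lit 3525312520) (nat_lit 10372518380) (.two (nat_lit 3525312516) (nat_lit 742398130) (.two (nat_lit 2887778306) (nat_lit 4201898) (.two (nat_lit 9766436865) (nat_lit 1950359830) (.two (nat_lit 4194304) (nat_lit 1948263539) (.one (nat_lit 1948263960) .nil))))))),
   .two (nat_lit 18933088695) (nat_lit 156535620311) (.two (nat_lit 156581756996) (nat_lit 47584380442) (.two (nat_lit 12117344283) (nat_lit 9940503775) (.two (nat_lit 50331656) (nat_lit 28764541408) (.two (nat_lit 10519314436) (nat_lit 608180409) (.two (nat_lit 13191086083) (nat_lit 10376715024) (.two (nat_lit 37748737) (nat_lit 1182802182) (.two (nat_lit 4194304) (nat_lit 47588582710) .nil))))))),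
   .two (nat_lit 2988442040) (nat_lit 158662132471) (.two (nat_lit 159266111556) (nat_lit 10336864778) (.two (nat_lit 2902458376) (nat_lit 10372518351) (.two (nat_lit 158158815236) (nat_lit 183913945325) (.two (nat_lit 69206019) (nat_lit 16784812) (.two (nat_lit 2097153) (nat_lit 104866029) (.two (nat_lit 4194304) (nat_lit 183913948254) (.one (nat_lit 2106937) .nil))))))),
   .two (nat_lit 10007609783) (nat_lit 11510219192) (.two (nat_lit 10007609412) (nat_lit 28757199014) (.two (nat_lit 4613734426) (nat_lit 343936474) (.two (nat_lit 4613734404) (nat_lit 21214794382) (.two (nat_lit 2902458371) (nat_lit 2987400612) (.two (nat_lit 2097153) (nat_lit 21777883393) (.two (nat_lit 1048576) (nat_lit 2106531) (.one (nat_lit 1058362) .nil))))))),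
   .two (nat_lit 3028287928) (nat_lit 18925748663) (.two (nat_lit 352321604) (nat_lit 28697429533) (.two (nat_lit 4613734426) (nat_lit 19537070581) (.two (nat_lit 1358954504) (nat_lit 185027531227) (.two (nat_lit 612368388) (nat_lit 1054989) (.two (nat_lit 176160770) (nat_lit 1056173) (.two (nat_lit 2097153) (nat_lit 1057361) (.two (nat_lit 2097152) (nat_lit 1057956) (.one (nat_lit 1058363) .nil)))))))),
   .two (nat_lit 183916036535) (nat_lit 37246468536) (.two (nat_lit 37246468382) (nat_lit 20705182513) (.two (nat_lit 19596836891) (nat_lit 21778928135) (.two (nat_lit 1178599428) (nat_lit 2103532) (.two (nat_lit 9768534019) (nat_lit 2105039) (.two (nat_lit 156364701697) (nat_lit 183846838545) (.two (nat_lit 1048576) (nat_lit 2106460) (.one (nat_lit 2106991) .nil))))))),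
   .two (nat_lit 11492393399) (nat_lit 19537068788) (.two (nat_lit 9866051764) (nat_lit 822084401) (.two (nat_lit 11543773211) (nat_lit 251660795) (.two (nat_lit 176160776) (nat_lit 21207454173) (.two (nat_lit 9768534022) (nat_lit 251664579) (.two (nat_lit 809500675) (nat_lit 705699161) (.two (nat_lit 16777217) (nat_lit 3457163495) (.two (nat_lit 1048576) (nat_lit 16786531) (.one (nat_lit 1058416) .nil)))))))),
   .two (nat_lit 1847591352) (nat_lit 28757197503) (.two (nat_lit 2994733335) (nat_lit 11477714500) (.two (nat_lit 28758245403) (nat_lit 46510640356) (.two (nat_lit 28086108168) (nat_lit 69210570) (.two (nat_lit 20637024260) (nat_lit 874518711) (.two (nat_lit 174753579011) (nat_lit 135273862) (.two (nat_lit 156365750273) (nat_lit 156535628798) (.one (nat_lit 2106993) .nil))))))),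
   .two (nat_lit 12117344949) (nat_lit 4631560898) (.two (nat_lit 185020186890) (nat_lit 20705182513) (.two (nat_lit 12147752996) (nat_lit 840960501) (.two (nat_lit 12147752969) (nat_lit 183947497936) (.two (nat_lit 46409973764) (nat_lit 1055604) (.two (nat_lit 166129041410) (nat_lit 156969737598) (.two (nat_lit 2097153) (nat_lit 1057636) (.two (nat_lit 1048576) (nat_lit 4203848) (.one (nat_lit 1058418) .nil)))))))),
   .two (nat_lit 1212154295) (nat_lit 3020948189) (.two (nat_lit 3525312692) (nat_lit 9936307759) (.two (nat_lit 20638072858) (nat_lit 705694957) (.two (nat_lit 19532873736) (nat_lit 1780486633) (.two (nat_lit 276824068) (nat_lit 270538948) (.two (nat_lit 11546918915) (nat_lit 1779441013) (.two (nat_lit 156364701697) (nat_lit 1176510969) (.two (nat_lit 1048576) (nat_lit 2106469) (.one (nat_lit 2106995) .nil)))))))),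
   .two (nat_lit 156535620023) (nat_lit 21778924230) (.two (nat_lit 157036838980) (nat_lit 4196514) (.two (nat_lit 3527409689) (nat_lit 606079490) (.two (nat_lit 3527409672) (nat_lit 11511271944) (.two (nat_lit 156365750276) (nat_lit 3024099516) (.two (nat_lit 708837379) (nat_lit 9982450454) (.two (nat_lit 4194305) (nat_lit 1761616109) (.two (nat_lit 4194304) (nat_lit 16786761) (.one (nat_lit 16787060) .nil)))))))),
   .two (nat_lit 159266111927) (nat_lit 673187349) (.two (nat_lit 19027460121) (nat_lit 158179789314) (.two (nat_lit 822083592) (nat_lit 742395357) (.two (nat_lit 272629764) (nat_lit 1862276695) (.two (nat_lit 272629763) (nat_lit 156481100570) (.two (nat_lit 16777217) (nat_lit 46407885065) (.two (nat_lit 2097152) (nat_lit 19142812507) (.one (nat_lit 2106997) .nil))))))),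
   .two (nat_lit 50332341) (nat_lit 2350908148) (.two (nat_lit 1312817426) (nat_lit 673187347) (.two (nat_lit 754974746) (nat_lit 2100987) (.two (nat_lit 46978301960) (nat_lit 3539997183) (.two (nat_lit 2889875460) (nat_lit 16784245) (.two (nat_lit 2969567235) (nat_lit 4202192) (.two (nat_lit 2097153) (nat_lit 4203365) (.two (nat_lit 2097152) (nat_lit 4203850) (.one (nat_lit 2106998) .nil)))))))),
   .two (nat_lit 12050235832) (nat_lit 19134415620) (.two (nat_lit 10343153843) (nat_lit 1376782492) (.two (nat_lit 3464495129) (nat_lit 185020189950) (.two (nat_lit 158143086600) (nat_lit 2956988921) (.two (nat_lit 1276116996) (nat_lit 2103537) (.two (nat_lit 2097155) (nat_lit 4201881) (.two (nat_lit 2097153) (nat_lit 4203366) (.two (nat_lit 4194304) (nat_lit 2106699) (.one (nat_lit 4204151) .nil)))))))),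
   .two (nat_lit 28691136952) (nat_lit 156535620320) (.two (nat_lit 156367847492) (nat_lit 11544823327) (.two (nat_lit 306184217) (nat_lit 1947208958) (.two (nat_lit 156372041736) (nat_lit 156566032864) (.two (nat_lit 4194308) (nat_lit 2103538) (.two (nat_lit 705691650) (nat_lit 12148809416) (.two (nat_lit 2097153) (nat_lit 1057339) (.two (nat_lit 1048576) (nat_lit 8397928) (.one (nat_lit 2107000) .nil)))))))),
   .two (nat_lit 183962173879) (nat_lit 157038936504) (.two (nat_lit 47596961972) (nat_lit 11007951666) (.two (nat_lit 46477082651) (nat_lit 157051522270) (.two (nat_lit 2887778312) (nat_lit 641733083) (.two (nat_lit 203423748) (nat_lit 159232563432) (.two (nat_lit 9933160451) (nat_lit 2104730) (.two (nat_lit 9765388289) (nat_lit 3022004496) (.two (nat_lit 4194304) (nat_lit 28087165946) (.one (nat_lit 16786960) .nil)))))))),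
   .two (nat_lit 47563407799) (nat_lit 183853122232) (.two (nat_lit 166211879091) (nat_lit 11577329171) (.two (nat_lit 13195280411) (nat_lit 21814577662) (.two (nat_lit 2889875464) (nat_lit 11610886623) (.two (nat_lit 2889875460) (nat_lit 1055606) (.two (nat_lit 41943043) (nat_lit 4202193) (.two (nat_lit 4194305) (nat_lit 8397671) (.two (nat_lit 1048576) (nat_lit 4203852) (.one (nat_lit 4204153) .nil)))))))),
   .two (nat_lit 1929380280) (nat_lit 4195454) (.two (nat_lit 19130220723) (nat_lit 10504635923) (.two (nat_lit 11543773211) (nat_lit 69208573) (.two (nat_lit 11492392968) (nat_lit 1309675981) (.two (nat_lit 2961178628) (nat_lit 185035921629) (.two (nat_lit 11543773187) (nat_lit 174686477714) (.two (nat_lit 37748737) (nat_lit 174752538878) (.two (nat_lit 16777216) (nat_lit 20637033540) (.one (nat_lit 1058426) .nil)))))))),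
   .two (nat_lit 2923430328) (nat_lit 2097890) (.two (nat_lit 10504634436) (nat_lit 9936307772) (.two (nat_lit 20753416218) (nat_lit 1746930184) (.two (nat_lit 165532401672) (nat_lit 37329310197) (.two (nat_lit 203423748) (nat_lit 16784247) (.two (nat_lit 272629763) (nat_lit 2104731) (.two (nat_lit 4194305) (nat_lit 16785980) (.two (nat_lit 2097152) (nat_lit 8398157) (.one (nat_lit 8398459) .nil)))))))),
   .two (nat_lit 2923430327) (nat_lit 2317353690) (.two (nat_lit 10504634548) (nat_lit 2923431447) (.two (nat_lit 165526110235) (nat_lit 21811432721) (.two (nat_lit 205520904) (nat_lit 21778928081) (.two (nat_lit 19599982598) (nat_lit 9867107094) (.two (nat_lit 9768534017) (nat_lit 20705190145) (.two (nat_lit 1048576) (nat_lit 2106473) (.one (nat_lit 1058428) .nil))))))),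
   .two (nat_lit 9948889783) (nat_lit 1746928382) (.two (nat_lit 654311492) (nat_lit 4027582610) (.two (nat_lit 1358954523) (nat_lit 10335816943) (.two (nat_lit 2954887176) (nat_lit 159250389214) (.two (nat_lit 169869314) (nat_lit 1056156) (.two (nat_lit 606076929) (nat_lit 21793612827) (.one (nat_lit 1058429) .nil)))))),
   .two (nat_lit 165532402104) (nat_lit 174701150941) (.two (nat_lit 352321716) (nat_lit 1753219889) (.two (nat_lit 889192475) (nat_lit 11484006907) (.two (nat_lit 3458203656) (nat_lit 2894074350) (.two (nat_lit 75497476) (nat_lit 28791806742) (.two (nat_lit 2097153) (nat_lit 9772736787) (.two (nat_lit 2097152) (nat_lit 16786539) (.one (nat_lit 8398462) .nil))))))),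
   .two (nat_lit 10907288245) (nat_lit 318767834) (.two (nat_lit 4030726324) (nat_lit 2954889353) (.two (nat_lit 166132187161) (nat_lit 3525315874) (.two (nat_lit 1358954504) (nat_lit 2102322) (.two (nat_lit 2954887172) (nat_lit 721426659) (.two (nat_lit 169869314) (nat_lit 4201885) (.two (nat_lit 2097153) (nat_lit 4203070) (.two (nat_lit 4194304) (nat_lit 2106477) (.one (nat_lit 2107007) .nil)))))))),
   .two (nat_lit 184423547320) (nat_lit 2923430581) (.two (nat_lit 843055172) (nat_lit 102762042) (.two (nat_lit 4601151514) (nat_lit 10538192115) (.two (nat_lit 11492392968) (nat_lit 4605350389) (.two (nat_lit 612368388) (nat_lit 2103540) (.two (nat_lit 176160770) (nat_lit 4202194) (.two (nat_lit 2097153) (nat_lit 4203368) (.two (nat_lit 2097152) (nat_lit 8398158) (.one (nat_lit 2107008) .nil)))))))),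
   .two (nat_lit 28772925880) (nat_lit 46978302675) (.two (nat_lit 843055172) (nat_lit 117442692) (.two (nat_lit 47548727320) (nat_lit 11626613990) (.two (nat_lit 1291845640) (nat_lit 156372046338) (.two (nat_lit 41943044) (nat_lit 46992988351) (.two (nat_lit 8388610) (nat_lit 16785107) (.two (nat_lit 8388609) (nat_lit 21781029375) (.two (nat_lit 2097152) (nat_lit 4203855) (.one (nat_lit 2107009) .nil)))))))),
   .two (nat_lit 847249847) (nat_lit 3527411219) (.two (nat_lit 4601151515) (nat_lit 20711476463) (.two (nat_lit 19530776584) (nat_lit 11584672221) (.two (nat_lit 28693233668) (nat_lit 109059450) (.two (nat_lit 2097153) (nat_lit 4203072) (.two (nat_lit 2097152) (nat_lit 8398160) (.one (nat_lit 8398466) .nil)))))),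
   .two (nat_lit 37247517112) (nat_lit 166229705848) (.two (nat_lit 19033751732) (nat_lit 337643039) (.two (nat_lit 46489665561) (nat_lit 2100520) (.two (nat_lit 1277165576) (nat_lit 1054385) (.two (nat_lit 28757196804) (nat_lit 10921973989) (.two (nat_lit 638582787) (nat_lit 2105044) (.two (nat_lit 8388609) (nat_lit 1057641) (.two (nat_lit 2097152) (nat_lit 1058129) (.one (nat_lit 2107011) .nil)))))))),
   .two (nat_lit 46984594104) (nat_lit 809501395) (.two (nat_lit 306184260) (nat_lit 159257725076) (.two (nat_lit 156372041764) (nat_lit 10000271859) (.two (nat_lit 156372041736) (nat_lit 10503590379) (.two (nat_lit 28093448196) (nat_lit 13191092451) (.two (nat_lit 4194306) (nat_lit 2105045) (.two (nat_lit 2097153) (nat_lit 1057642) (.two (nat_lit 1048576) (nat_lit 16786770) (.one (nat_lit 1058436) .nil)))))))),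
   .two (nat_lit 10338960056) (nat_lit 47555019453) (.two (nat_lit 12115247284) (nat_lit 3527410481) (.two (nat_lit 12129927193) (nat_lit 46507494645) (.two (nat_lit 12129927176) (nat_lit 158653747719) (.two (nat_lit 276824068) (nat_lit 2103541) (.two (nat_lit 166130089986) (nat_lit 2936020318) (.two (nat_lit 16777217) (nat_lit 1057643) (.two (nat_lit 1048576) (nat_lit 2106707) (.one (nat_lit 1058437) .nil)))))))),
   .two (nat_lit 37249614263) (nat_lit 11006902994) (.two (nat_lit 185035915332) (nat_lit 1050789) (.two (nat_lit 337641517) (nat_lit 46422559220) (.two (nat_lit 9781116936) (nat_lit 185023335904) (.two (nat_lit 705691652) (nat_lit 71310096) (.two (nat_lit 2097153) (nat_lit 183946453261) (.two (nat_lit 2097152) (nat_lit 705700892) (.one (nat_lit 2106900) .nil))))))),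
   .two (nat_lit 4613734839) (nat_lit 28093448895) (.two (nat_lit 184986632260) (nat_lit 20745029169) (.two (nat_lit 184986632216) (nat_lit 47548730593) (.two (nat_lit 3458203656) (nat_lit 46422561281) (.two (nat_lit 705691652) (nat_lit 28093454557) (.two (nat_lit 612368387) (nat_lit 2104735) (.two (nat_lit 2097153) (nat_lit 1057644) (.two (nat_lit 2097152) (nat_lit 1058132) (.one (nat_lit 1058438) .nil)))))))),
   .two (nat_lit 11551113655) (nat_lit 4631560911) (.two (nat_lit 639631428) (nat_lit 1209010334) (.two (nat_lit 339738649) (nat_lit 352324903) (.two (nat_lit 9781116936) (nat_lit 46473941461) (.two (nat_lit 47563407364) (nat_lit 337647860) (.two (nat_lit 184549378) (nat_lit 1056470) (.two (nat_lit 2097153) (nat_lit 1057645) (.two (nat_lit 1048576) (nat_lit 2106709) (.one (nat_lit 1058439) .nil)))))))),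
   .two (nat_lit 165525062072) (nat_lit 847250131) (.two (nat_lit 8388676) (nat_lit 708838977) (.two (nat_lit 343932953) (nat_lit 9765390841) (.two (nat_lit 8388616) (nat_lit 1053747) (.two (nat_lit 8388612) (nat_lit 1054966) (.two (nat_lit 9781116931) (nat_lit 1056140) (.two (nat_lit 50331649) (nat_lit 1279271423) (.two (nat_lit 1048576) (nat_lit 8398166) (.one (nat_lit 8398472) .nil)))))))),
   .two (nat_lit 47582282430) (nat_lit 47581233858) (.two (nat_lit 2987393312) (nat_lit 19597887021) (.two (nat_lit 775946276) (nat_lit 185020189971) (.two (nat_lit 3460300808) (nat_lit 2102962) (.two (nat_lit 166132187140) (nat_lit 2104184) (.two (nat_lit 28758245379) (nat_lit 1056471) (.two (nat_lit 156365750273) (nat_lit 843063833) (.two (nat_lit 2097152) (nat_lit 1058135) (.one (nat_lit 2107017) .nil)))))))),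
   .two (nat_lit 37314625975) (nat_lit 739246854) (.two (nat_lit 11559501892) (nat_lit 1309673608) (.two (nat_lit 639631387) (nat_lit 11476667645) (.two (nat_lit 9866051592) (nat_lit 270537161) (.two (nat_lit 1291845636) (nat_lit 46978308974) (.two (nat_lit 101711875) (nat_lit 2104736) (.two (nat_lit 605028353) (nat_lit 16785985) (.two (nat_lit 1048576) (nat_lit 2106712) (.one (nat_lit 2107018) .nil)))))))),
   .two (nat_lit 1325400768) (nat_lit 4632609490) (.two (nat_lit 158158815411) (nat_lit 874513982) (.two (nat_lit 318767130) (nat_lit 1782582531) (.two (nat_lit 20644364296) (nat_lit 3557821920) (.two (nat_lit 46978301956) (nat_lit 1417681109) (.two (nat_lit 2097155) (nat_lit 4202200) (.two (nat_lit 2097153) (nat_lit 1057346) (.two (nat_lit 1048576) (nat_lit 2106713) (.one (nat_lit 2107019) .nil)))))))),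
   .two (nat_lit 21208498615) (nat_lit 11492393723) (.two (nat_lit 166136381620) (nat_lit 9969863162) (.two (nat_lit 3539992584) (nat_lit 10510930372) (.two (nat_lit 11543773190) (nat_lit 184989784295) (.two (nat_lit 721420291) (nat_lit 4202201) (.two (nat_lit 2097153) (nat_lit 4203374) (.two (nat_lit 1048576) (nat_lit 4203866) (.one (nat_lit 4204172) .nil))))))),
   .two (nat_lit 10436477368) (nat_lit 69206742) (.two (nat_lit 352321604) (nat_lit 8390817) (.two (nat_lit 3028287531) (nat_lit 184986635537) (.two (nat_lit 19596836872) (nat_lit 21208503345) (.two (nat_lit 176160774) (nat_lit 156984415834) (.two (nat_lit 176160771) (nat_lit 202382098) (.two (nat_lit 2097153) (nat_lit 11610890471) (.two (nat_lit 2097152) (nat_lit 705700917) (.one (nat_lit 169879140) .nil)))))))),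
   .two (nat_lit 243270071) (nat_lit 1847591352) (.two (nat_lit 156533522715) (nat_lit 10939794226) (.two (nat_lit 1847590937) (nat_lit 11551115769) (.two (nat_lit 46407876616) (nat_lit 276828649) (.two (nat_lit 10336862212) (nat_lit 28086114547) (.two (nat_lit 34603011) (nat_lit 343940497) (.two (nat_lit 2097153) (nat_lit 612377091) (.two (nat_lit 1048576) (nat_lit 8398171) (.one (nat_lit 1058445) .nil)))))))),
   .two (nat_lit 12047090103) (nat_lit 18933088696) (.two (nat_lit 158144135236) (nat_lit 9933162038) (.two (nat_lit 28086108187) (nat_lit 8392444) (.two (nat_lit 183853121544) (nat_lit 1053748) (.two (nat_lit 1277165572) (nat_lit 1054968) (.two (nat_lit 13195280387) (nat_lit 1056161) (.two (nat_lit 34603009) (nat_lit 10370425092) (.two (nat_lit 8388608) (nat_lit 69215262) (.one (nat_lit 1058446) .nil)))))))),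
   .two (nat_lit 183962173879) (nat_lit 28793897729) (.two (nat_lit 46474985540) (nat_lit 8390822) (.two (nat_lit 10506731547) (nat_lit 75500775) (.two (nat_lit 203423752) (nat_lit 46514835929) (.two (nat_lit 203423748) (nat_lit 8395001) (.two (nat_lit 41943043) (nat_lit 2105050) (.two (nat_lit 2097153) (nat_lit 9940509159) (.two (nat_lit 4194304) (nat_lit 2894079050) (.one (nat_lit 8398359) .nil)))))))),
   .two (nat_lit 612368824) (nat_lit 2432697076) (.two (nat_lit 184993972292) (nat_lit 156364703281) (.two (nat_lit 46984593433) (nat_lit 272632330) (.two (nat_lit 654311432) (nat_lit 19596841499) (.two (nat_lit 4194308) (nat_lit 1216353888) (.two (nat_lit 10335813635) (nat_lit 1413487971) (.two (nat_lit 16777217) (nat_lit 10338968074) (.two (nat_lit 4194304) (nat_lit 9806292011) (.one (nat_lit 8398479) .nil)))))))),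
   .two (nat_lit 37246468536) (nat_lit 159266112239) (.two (nat_lit 20704133188) (nat_lit 47563408928) (.two (nat_lit 285212697) (nat_lit 11543776512) (.two (nat_lit 822083592) (nat_lit 156968686043) (.two (nat_lit 9866051588) (nat_lit 3539997326) (.two (nat_lit 50331651) (nat_lit 28690095508) (.two (nat_lit 9765388289) (nat_lit 156548210927) (.two (nat_lit 1048576) (nat_lit 16786549) (.one (nat_lit 16786969) .nil)))))))),
   .two (nat_lit 19130220983) (nat_lit 185027527375) (.two (nat_lit 157043130547) (nat_lit 1916797745) (.two (nat_lit 9768534043) (nat_lit 10385099248) (.two (nat_lit 612368392) (nat_lit 318770655) (.two (nat_lit 620756996) (nat_lit 13228840539) (.two (nat_lit 184549379) (nat_lit 9969867537) (.two (nat_lit 8388609) (nat_lit 4202775) (.two (nat_lit 8388608) (nat_lit 12150908411) .nil))))))),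
   .two (nat_lit 721420728) (nat_lit 3531604694) (.two (nat_lit 11010048068) (nat_lit 1277167777) (.two (nat_lit 9934209067) (nat_lit 166144772611) (.two (nat_lit 1358954504) (nat_lit 47582286897) (.two (nat_lit 157036838918) (nat_lit 21814580826) (.two (nat_lit 639631363) (nat_lit 742399381) (.two (nat_lit 37748737) (nat_lit 8397379) (.two (nat_lit 4194304) (nat_lit 8398172) (.one (nat_lit 8398480) .nil)))))))),
   .two (nat_lit 13237223864) (nat_lit 205522499) (.two (nat_lit 166132187162) (nat_lit 1309674726) (.two (nat_lit 4613734408) (nat_lit 4198858) (.two (nat_lit 12047089668) (nat_lit 4200699) (.two (nat_lit 184986632195) (nat_lit 4201892) (.two (nat_lit 9768534017) (nat_lit 9866060336) (.two (nat_lit 1048576) (nat_lit 16786550) (.one (nat_lit 16787089) .nil))))))),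
   .two (nat_lit 156367847864) (nat_lit 13195281087) (.two (nat_lit 165525061811) (nat_lit 9873393183) (.two (nat_lit 46409973786) (nat_lit 158091709665) (.two (nat_lit 9866051592) (nat_lit 47588577753) (.two (nat_lit 1276116996) (nat_lit 10376714436) (.two (nat_lit 176160771) (nat_lit 4631567126) (.two (nat_lit 41943041) (nat_lit 876617998) (.two (nat_lit 4194304) (nat_lit 168830037) (.one (nat_lit 8398482) .nil)))))))),
   .two (nat_lit 13195280824) (nat_lit 28086108600) (.two (nat_lit 843055284) (nat_lit 9806283570) (.two (nat_lit 18928893979) (nat_lit 1410338018) (.two (nat_lit 8388616) (nat_lit 11543777755) (.two (nat_lit 18933088260) (nat_lit 21814581490) (.two (nat_lit 156372041731) (nat_lit 1056475) (.two (nat_lit 4194305) (nat_lit 1276125718) (.two (nat_lit 1048576) (nat_lit 10947142650) (.one (nat_lit 1058451) .nil)))))))),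
   .two (nat_lit 1358954936) (nat_lit 1175454135) (.two (nat_lit 8388676) (nat_lit 1358956054) (.two (nat_lit 4613734425) (nat_lit 156976024056) (.two (nat_lit 721420296) (nat_lit 10907292126) (.two (nat_lit 2887778308) (nat_lit 352327889) (.two (nat_lit 218103811) (nat_lit 8396197) (.two (nat_lit 620756993) (nat_lit 20711481906) (.two (nat_lit 2097152) (nat_lit 185020195896) (.one (nat_lit 1058452) .nil)))))))),
   .two (nat_lit 3573547448) (nat_lit 12115247831) (.two (nat_lit 1426063540) (nat_lit 10343154482) (.two (nat_lit 3036676123) (nat_lit 156472707590) (.two (nat_lit 50331656) (nat_lit 21214794253) (.two (nat_lit 16777220) (nat_lit 8395004) (.two (nat_lit 708837379) (nat_lit 9873399194) (.two (nat_lit 4194305) (nat_lit 21818777872) (.two (nat_lit 2097152) (nat_lit 10376717307) (.one (nat_lit 8398485) .nil)))))))),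
   .two (nat_lit 75497911) (nat_lit 50332345) (.two (nat_lit 156367847492) (nat_lit 184993973779) (.two (nat_lit 272629784) (nat_lit 713035047) (.two (nat_lit 713031688) (nat_lit 10351547432) (.two (nat_lit 165532401668) (nat_lit 11580479694) (.two (nat_lit 2902458370) (nat_lit 4202204) (.two (nat_lit 4194305) (nat_lit 1358963254) (.two (nat_lit 8388608) (nat_lit 4030735379) (.one (nat_lit 4204182) .nil)))))))),
   .two (nat_lit 75497911) (nat_lit 16777918) (.two (nat_lit 9768534084) (nat_lit 3472885281) (.two (nat_lit 272629784) (nat_lit 2969570574) (.two (nat_lit 11492392968) (nat_lit 2353008093) (.two (nat_lit 754974724) (nat_lit 46481284450) (.two (nat_lit 4194305) (nat_lit 8397380) (.two (nat_lit 4194304) (nat_lit 8397943) (.one (nat_lit 8398364) .nil))))))),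
   .two (nat_lit 3028287927) (nat_lit 183848927672) (.two (nat_lit 183848927505) (nat_lit 19100861999) (.two (nat_lit 28690087963) (nat_lit 3527413006) (.two (nat_lit 721420296) (nat_lit 1379930613) (.two (nat_lit 721420292) (nat_lit 4200701) (.two (nat_lit 620756995) (nat_lit 159253536102) (.two (nat_lit 34603009) (nat_lit 4203077) (.two (nat_lit 1048576) (nat_lit 4203640) (.one (nat_lit 4204183) .nil)))))))),
   .two (nat_lit 174753579448) (nat_lit 158176641803) (.two (nat_lit 158143086660) (nat_lit 174753580566) (.two (nat_lit 705691673) (nat_lit 1325403432) (.two (nat_lit 754974728) (nat_lit 185021239771) (.two (nat_lit 272629764) (nat_lit 21777881313) (.two (nat_lit 11492392962) (nat_lit 166132194703) (.two (nat_lit 37748737) (nat_lit 158144143902) (.two (nat_lit 1048576) (nat_lit 183861519678) (.one (nat_lit 16786973) .nil)))))))),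
   .two (nat_lit 1962934711) (nat_lit 2316305941) (.two (nat_lit 352321562) (nat_lit 165532404208) (.two (nat_lit 16777224) (nat_lit 276827613) (.two (nat_lit 612368388) (nat_lit 47563412110) (.two (nat_lit 176160771) (nat_lit 159266118423) (.two (nat_lit 34603009) (nat_lit 10016007007) (.one (nat_lit 8398488) .nil)))))),
   .two (nat_lit 9766437304) (nat_lit 9948889790) (.two (nat_lit 8388676) (nat_lit 16779927) (.two (nat_lit 4613734426) (nat_lit 184423550429) (.two (nat_lit 16777220) (nat_lit 2987399958) (.two (nat_lit 50331649) (nat_lit 136323303) (.two (nat_lit 1048576) (nat_lit 9934218780) .nil))))),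
   .two (nat_lit 166245433784) (nat_lit 4028629697) (.two (nat_lit 13237223492) (nat_lit 641730719) (.two (nat_lit 19027460134) (nat_lit 708839937) (.two (nat_lit 19027460105) (nat_lit 4198872) (.two (nat_lit 166230753286) (nat_lit 19612571222) (.two (nat_lit 10370416643) (nat_lit 9936314625) (.two (nat_lit 2097152) (nat_lit 339747917) (.one (nat_lit 2107033) .nil))))))),
   .two (nat_lit 176161208) (nat_lit 9881781783) (.two (nat_lit 8388635) (nat_lit 3539995143) (.two (nat_lit 176160776) (nat_lit 11580477972) (.two (nat_lit 176160772) (nat_lit 641735542) (.two (nat_lit 83886083) (nat_lit 19033759068) (.two (nat_lit 16777217) (nat_lit 1954554099) (.two (nat_lit 4194304) (nat_lit 8397951) (.one (nat_lit 4204186) .nil))))))),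
   .two (nat_lit 158144135607) (nat_lit 19596837639) (.two (nat_lit 158144135236) (nat_lit 20704133938) (.two (nat_lit 158143086618) (nat_lit 19128125947) (.two (nat_lit 10370416648) (nat_lit 1054387) (.two (nat_lit 166130089988) (nat_lit 28690094298) (.two (nat_lit 639631363) (nat_lit 1056477) (.two (nat_lit 605028353) (nat_lit 2105927) (.two (nat_lit 1048576) (nat_lit 2106717) (.one (nat_lit 1058459) .nil)))))))),
   .two (nat_lit 2988442039) (nat_lit 11484005060) (.two (nat_lit 157036839091) (nat_lit 2923430706) (.two (nat_lit 158158815258) (nat_lit 11544824322) (.two (nat_lit 822083592) (nat_lit 37247521241) (.two (nat_lit 28093448196) (nat_lit 2887784035) (.two (nat_lit 1753219075) (nat_lit 159253536150) (.two (nat_lit 16777217) (nat_lit 4601160234) (.two (nat_lit 8388608) (nat_lit 2106496) (.one (nat_lit 2107036) .nil)))))))),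
   .two (nat_lit 165532402362) (nat_lit 4195105) (.two (nat_lit 11626610868) (nat_lit 183953787031) (.two (nat_lit 352321563) (nat_lit 156573371652) (.two (nat_lit 9940500488) (nat_lit 10519319017) (.two (nat_lit 2902458372) (nat_lit 10003420758) (.two (nat_lit 176160771) (nat_lit 16785118) (.two (nat_lit 9781116929) (nat_lit 13228843253) (.two (nat_lit 4194304) (nat_lit 16786782) (.one (nat_lit 4204069) .nil)))))))),
   .two (nat_lit 183853122237) (nat_lit 158158816001) (.two (nat_lit 21785215044) (nat_lit 16779928) (.two (nat_lit 184993972248) (nat_lit 16781053) (.two (nat_lit 156372041736) (nat_lit 16782389) (.two (nat_lit 612368388) (nat_lit 16784249) (.two (nat_lit 176160770) (nat_lit 16785119) (.two (nat_lit 8388609) (nat_lit 16786287) (.two (nat_lit 8388608) (nat_lit 16786783) (.one (nat_lit 16787101) .nil)))))))),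
   .two (nat_lit 185020187064) (nat_lit 46422557399) (.two (nat_lit 21811429444) (nat_lit 16779432) (.two (nat_lit 11559501868) (nat_lit 11618224650) (.two (nat_lit 1191182344) (nat_lit 156976027885) (.two (nat_lit 9866051587) (nat_lit 10510933395) (.two (nat_lit 605028353) (nat_lit 679485700) (.two (nat_lit 1048576) (nat_lit 8398176) (.one (nat_lit 1058462) .nil))))))),
   .two (nat_lit 352321976) (nat_lit 1920991959) (.two (nat_lit 13191086259) (nat_lit 9940502053) (.two (nat_lit 20644364326) (nat_lit 9802091017) (.two (nat_lit 37748744) (nat_lit 788533711) (.two (nat_lit 10343153668) (nat_lit 251664615) (.two (nat_lit 75497475) (nat_lit 606084500) (.two (nat_lit 8388609) (nat_lit 157051528209) (.one (nat_lit 4204191) .nil))))))),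
   .two (nat_lit 185020187326) (nat_lit 11022631622) (.two (nat_lit 1358954564) (nat_lit 10335815213) (.two (nat_lit 1343225883) (nat_lit 11559504369) (.two (nat_lit 1392508938) (nat_lit 4027585026) (.two (nat_lit 620756996) (nat_lit 1054976) (.two (nat_lit 721420291) (nat_lit 1056480) (.two (nat_lit 50331649) (nat_lit 1057353) (.two (nat_lit 1048576) (nat_lit 16786562) (.one (nat_lit 1058464) .nil)))))))),
   .two (nat_lit 47596962231) (nat_lit 3558867650) (.two (nat_lit 47596961971) (nat_lit 47548729508) (.two (nat_lit 166230753316) (nat_lit 12129929721) (.two (nat_lit 10370416648) (nat_lit 1209013294) (.two (nat_lit 174753579012) (nat_lit 1343232246) (.two (nat_lit 101711875) (nat_lit 16785121) (.two (nat_lit 605028353) (nat_lit 159251440696) (.one (nat_lit 1058465) .nil))))))),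
   .two (nat_lit 20704133814) (nat_lit 166232851182) (.two (nat_lit 174752530500) (nat_lit 10504636570) (.two (nat_lit 159251431451) (nat_lit 16781054) (.two (nat_lit 620757000) (nat_lit 2920288719) (.two (nat_lit 2969567236) (nat_lit 46977259744) (.two (nat_lit 218103811) (nat_lit 1056482) (.two (nat_lit 9766436865) (nat_lit 183928627447) (.two (nat_lit 1048576) (nat_lit 16786785) (.one (nat_lit 2107042) .nil)))))))),
   .two (nat_lit 47582282167) (nat_lit 19142804186) (.two (nat_lit 174768259252) (nat_lit 47582282545) (.two (nat_lit 20719861786) (nat_lit 174753583624) (.two (nat_lit 1291845636) (nat_lit 46407882339) (.two (nat_lit 9948889091) (nat_lit 9969868182) (.two (nat_lit 620756993) (nat_lit 1411392000) (.two (nat_lit 16777216) (nat_lit 2106499) (.one (nat_lit 2107043) .nil))))))),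
   .two (nat_lit 183912890808) (nat_lit 3024093950) (.two (nat_lit 185035915444) (nat_lit 2987395575) (.two (nat_lit 739246088) (nat_lit 46422561231) (.two (nat_lit 1749024772) (nat_lit 20637030578) (.two (nat_lit 809500675) (nat_lit 1056483) (.two (nat_lit 34603009) (nat_lit 4203082) (.two (nat_lit 1048576) (nat_lit 4203652) (.one (nat_lit 4204071) .nil))))))),
   .two (nat_lit 2988442039) (nat_lit 109052625) (.two (nat_lit 159224168516) (nat_lit 1780483616) (.two (nat_lit 47548727322) (nat_lit 12624858589) (.two (nat_lit 3525312516) (nat_lit 46984599795) (.two (nat_lit 159224168451) (nat_lit 11511275229) (.two (nat_lit 2097153) (nat_lit 11484012818) (.two (nat_lit 2097152) (nat_lit 156976030810) (.one (nat_lit 2106920) .nil))))))),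
   .two (nat_lit 166196150711) (nat_lit 156380431046) (.two (nat_lit 11559501892) (nat_lit 46406829592) (.two (nat_lit 185035915291) (nat_lit 839911940) (.two (nat_lit 1358954504) (nat_lit 3020952063) (.two (nat_lit 721420292) (nat_lit 1410341052) (.two (nat_lit 21207449603) (nat_lit 11022639367) (.two (nat_lit 1048576) (nat_lit 11525956695) (.one (nat_lit 16787108) .nil))))))),
   .two (nat_lit 19142803896) (nat_lit 46980399806) (.two (nat_lit 13237223492) (nat_lit 11546920493) (.two (nat_lit 166132187161) (nat_lit 10001320441) (.two (nat_lit 12050235400) (nat_lit 12062822852) (.two (nat_lit 156569174022) (nat_lit 174768264790) (.two (nat_lit 9768534019) (nat_lit 807411969) (.two (nat_lit 2097152) (nat_lit 4203653) (.one (nat_lit 2107045) .nil))))))),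
   .two (nat_lit 13237223863) (nat_lit 2889876257) (.two (nat_lit 889192516) (nat_lit 9873393197) (.two (nat_lit 46474985498) (nat_lit 157043134983) (.two (nat_lit 9766436868) (nat_lit 21827163744) (.two (nat_lit 2887778306) (nat_lit 8396127) (.two (nat_lit 4194305) (nat_lit 2105588) (.two (nat_lit 2097152) (nat_lit 8398178) (.one (nat_lit 2107046) .nil))))))),
   .two (nat_lit 9781117367) (nat_lit 156976022260) (.two (nat_lit 1277165748) (nat_lit 9781117745) (.two (nat_lit 2954887195) (nat_lit 8393245) (.two (nat_lit 3458203652) (nat_lit 2961184347) (.two (nat_lit 10372513795) (nat_lit 13188996448) (.two (nat_lit 4194305) (nat_lit 874520855) (.two (nat_lit 2097152) (nat_lit 1350575148) (.one (nat_lit 612378230) .nil))))))),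
   .two (nat_lit 11559502263) (nat_lit 174688568052) (.two (nat_lit 608174368) (nat_lit 11559503383) (.two (nat_lit 11559501849) (nat_lit 156569177344) (.two (nat_lit 4194312) (nat_lit 16782390) (.two (nat_lit 20753416198) (nat_lit 9866057929) (.two (nat_lit 16777218) (nat_lit 9802096353) (.two (nat_lit 4194305) (nat_lit 16785995) (.two (nat_lit 16777216) (nat_lit 4203654) (.one (nat_lit 4204199) .nil)))))))),
   .two (nat_lit 47581233858) (nat_lit 13222544148) (.two (nat_lit 1753219355) (nat_lit 28691138077) (.two (nat_lit 1310720041) (nat_lit 47581236499) (.two (nat_lit 46414168074) (nat_lit 10436481477) (.two (nat_lit 47555018756) (nat_lit 2103553) (.two (nat_lit 46414168066) (nat_lit 1746935180) (.two (nat_lit 2097153) (nat_lit 1057356) (.two (nat_lit 2097152) (nat_lit 1058147) (.one (nat_lit 2106922) .nil)))))))),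
   .two (nat_lit 10015998392) (nat_lit 8389759) (.two (nat_lit 46414168244) (nat_lit 10015998770) (.two (nat_lit 13195280411) (nat_lit 11476666868) (.two (nat_lit 1753219080) (nat_lit 11593060858) (.two (nat_lit 183853121540) (nat_lit 16784250) (.two (nat_lit 13195280387) (nat_lit 2886737308) (.two (nat_lit 41943041) (nat_lit 12147762233) (.one (nat_lit 1058472) .nil))))))),
   .two (nat_lit 156569174456) (nat_lit 183947494082) (.two (nat_lit 183947493650) (nat_lit 156569174834) (.two (nat_lit 3021996071) (nat_lit 10007611889) (.two (nat_lit 184993972232) (nat_lit 12620665345) (.two (nat_lit 4601151492) (nat_lit 8395643) (.two (nat_lit 4194306) (nat_lit 2105060) (.two (nat_lit 2097153) (nat_lit 4203085) (.two (nat_lit 4194304) (nat_lit 2106724) (.one (nat_lit 4204201) .nil)))))))),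
   .two (nat_lit 11626611128) (nat_lit 20644364984) (.two (nat_lit 47555019022) (nat_lit 1279264281) (.two (nat_lit 159224168520) (nat_lit 9869199861) (.two (nat_lit 20644364296) (nat_lit 4199479) (.two (nat_lit 18933088260) (nat_lit 11525953764) (.two (nat_lit 612368387) (nat_lit 1178606947) (.two (nat_lit 16777217) (nat_lit 8397680) (.two (nat_lit 8388608) (nat_lit 4203655) (.one (nat_lit 4204202) .nil)))))))),
   .two (nat_lit 19599983031) (nat_lit 174759871199) (.two (nat_lit 4605345860) (nat_lit 708838963) (.two (nat_lit 12620660762) (nat_lit 12062821673) (.two (nat_lit 21793603592) (nat_lit 209719804) (.two (nat_lit 8388612) (nat_lit 9814677078) (.two (nat_lit 12117344259) (nat_lit 16784781) (.two (nat_lit 8388609) (nat_lit 4202776) (.two (nat_lit 4194304) (nat_lit 8397960) (.one (nat_lit 8398507) .nil)))))))),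
   .two (nat_lit 1216348599) (nat_lit 21781021449) (.two (nat_lit 2994733236) (nat_lit 2099369) (.two (nat_lit 742391833) (nat_lit 13237225994) (.two (nat_lit 11551113224) (nat_lit 16783028) (.two (nat_lit 285212676) (nat_lit 2103554) (.two (nat_lit 708837379) (nat_lit 2936020361) (.two (nat_lit 4194305) (nat_lit 2105934) (.two (nat_lit 4194304) (nat_lit 2106505) (.one (nat_lit 2107052) .nil)))))))),
   .two (nat_lit 13237223863) (nat_lit 239076118) (.two (nat_lit 46474985540) (nat_lit 13224642728) (.two (nat_lit 3525312536) (nat_lit 19532877563) (.two (nat_lit 203423752) (nat_lit 10003421401) (.two (nat_lit 21223178243) (nat_lit 2350914964) (.two (nat_lit 156367847425) (nat_lit 12148810001) (.two (nat_lit 2097152) (nat_lit 4203658) (.one (nat_lit 28693243459) .nil))))))),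
   .two (nat_lit 2961179064) (nat_lit 158158815958) (.two (nat_lit 50331935) (nat_lit 1276118551) (.two (nat_lit 11559501869) (nat_lit 12114201095) (.two (nat_lit 4194312) (nat_lit 16783029) (.two (nat_lit 166129041412) (nat_lit 4201340) (.two (nat_lit 184549379) (nat_lit 4202213) (.two (nat_lit 8388609) (nat_lit 16786289) (.two (nat_lit 8388608) (nat_lit 16786789) (.one (nat_lit 4204205) .nil)))))))),
   .two (nat_lit 1962934711) (nat_lit 19093521081) (.two (nat_lit 19093520564) (nat_lit 142607153) (.two (nat_lit 12617515033) (nat_lit 10510928374) (.two (nat_lit 713031688) (nat_lit 1191186965) (.two (nat_lit 11543773188) (nat_lit 4647295216) (.two (nat_lit 705691650) (nat_lit 2894077344) (.two (nat_lit 605028353) (nat_lit 1384129096) (.two (nat_lit 1048576) (nat_lit 8397963) (.one (nat_lit 1058478) .nil)))))))),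
   .two (nat_lit 19027460536) (nat_lit 46514832080) (.two (nat_lit 11007950916) (nat_lit 4197017) (.two (nat_lit 9974054939) (nat_lit 10504636938) (.two (nat_lit 20644364296) (nat_lit 3558872756) (.two (nat_lit 3527409668) (nat_lit 166237051063) (.two (nat_lit 2889875459) (nat_lit 1317019041) (.two (nat_lit 37748737) (nat_lit 1384129061) (.two (nat_lit 4194304) (nat_lit 2106508) (.one (nat_lit 2107055) .nil)))))))),
   .two (nat_lit 9781117368) (nat_lit 4027581149) (.two (nat_lit 9934209204) (nat_lit 9781117746) (.two (nat_lit 9866051611) (nat_lit 3022000601) (.two (nat_lit 1191182340) (nat_lit 2317359346) (.two (nat_lit 654311427) (nat_lit 157036846501) (.two (nat_lit 9766436865) (nat_lit 21827166697) (.two (nat_lit 1048576) (nat_lit 2106726) (.one (nat_lit 1058480) .nil))))))),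
   .two (nat_lit 174686470584) (nat_lit 11010048439) (.two (nat_lit 159266111556) (nat_lit 174686470962) (.two (nat_lit 46980399129) (nat_lit 19545461256) (.two (nat_lit 639631364) (nat_lit 171972796) (.two (nat_lit 2889875459) (nat_lit 169876852) (.two (nat_lit 2097153) (nat_lit 16786290) (.two (nat_lit 4194304) (nat_lit 16786791) (.one (nat_lit 4204209) .nil))))))),
   .two (nat_lit 11559502264) (nat_lit 1049728) (.two (nat_lit 645922996) (nat_lit 1358955313) (.two (nat_lit 1276117017) (nat_lit 18941479417) (.two (nat_lit 19093520394) (nat_lit 71307786) (.two (nat_lit 1175453700) (nat_lit 285218997) (.two (nat_lit 11476664322) (nat_lit 4638907152) (.two (nat_lit 4194305) (nat_lit 16786291) (.two (nat_lit 1048576) (nat_lit 8397968) (.one (nat_lit 8398514) .nil)))))))),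
   .two (nat_lit 1212154554) (nat_lit 1780482817) (.two (nat_lit 9802088516) (nat_lit 19027462808) (.two (nat_lit 2923429913) (nat_lit 2100991) (.two (nat_lit 46409973768) (nat_lit 2102966) (.two (nat_lit 203423748) (nat_lit 4200708) (.two (nat_lit 46980399107) (nat_lit 4028636895) (.two (nat_lit 2097153) (nat_lit 4203380) (.two (nat_lit 4194304) (nat_lit 2106728) (.one (nat_lit 2106925) .nil)))))))),
   .two (nat_lit 174753579713) (nat_lit 713032436) (.two (nat_lit 156539814176) (nat_lit 20738737687) (.two (nat_lit 19026411556) (nat_lit 19597887989) (.two (nat_lit 158075977736) (nat_lit 1411387905) (.two (nat_lit 21207449604) (nat_lit 3022002435) (.two (nat_lit 159217876995) (nat_lit 8396518) (.two (nat_lit 41943041) (nat_lit 1057653) (.two (nat_lit 2097152) (nat_lit 1057937) (.one (nat_lit 8398515) .nil)))))))),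
   .two (nat_lit 18933088695) (nat_lit 336593602) (.two (nat_lit 336593170) (nat_lit 9873393190) (.two (nat_lit 3021996068) (nat_lit 19604179456) (.two (nat_lit 169869320) (nat_lit 8393246) (.two (nat_lit 746586118) (nat_lit 184986638537) (.two (nat_lit 41943043) (nat_lit 1056169) (.two (nat_lit 612368385) (nat_lit 1057026) (.two (nat_lit 8388608) (nat_lit 1057938) (.one (nat_lit 1058484) .nil)))))))),
   .two (nat_lit 3527410103) (nat_lit 310379201) (.two (nat_lit 156535619652) (nat_lit 1411384862) (.two (nat_lit 3525312538) (nat_lit 876614128) (.two (nat_lit 9940500484) (nat_lit 166245439697) (.two (nat_lit 2887778306) (nat_lit 10540293861) (.two (nat_lit 2097153) (nat_lit 37253816846) (.two (nat_lit 2097152) (nat_lit 156367856677) (.one (nat_lit 2107061) .nil))))))),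
   .two (nat_lit 184419353015) (nat_lit 158183981811) (.two (nat_lit 157051519156) (nat_lit 184419354135) (.two (nat_lit 46489665562) (nat_lit 775948800) (.two (nat_lit 41943048) (nat_lit 11546923521) (.two (nat_lit 276824068) (nat_lit 104864003) (.two (nat_lit 8388610) (nat_lit 10921975171) (.two (nat_lit 8388609) (nat_lit 1947214337) (.two (nat_lit 4194304) (nat_lit 1058153) (.one (nat_lit 12633253454) .nil)))))))),
   .two (nat_lit 28693234103) (nat_lit 1344274873) (.two (nat_lit 13237223492) (nat_lit 3024095747) (.two (nat_lit 9781116936) (nat_lit 11546923501) (.two (nat_lit 9781116932) (nat_lit 4201341) (.two (nat_lit 47548727299) (nat_lit 608182541) (.two (nat_lit 2097152) (nat_lit 4203668) (.one (nat_lit 4204080) .nil)))))),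
   .two (nat_lit 142606776) (nat_lit 12147753661) (.two (nat_lit 185020186901) (nat_lit 874513945) (.two (nat_lit 4599054380) (nat_lit 11618224624) (.two (nat_lit 46407876616) (nat_lit 4034923997) (.two (nat_lit 1745879044) (nat_lit 11014248025) (.two (nat_lit 1276116994) (nat_lit 2105063) (.two (nat_lit 2097153) (nat_lit 3020956735) (.one (nat_lit 2107062) .nil))))))),
   .two (nat_lit 13195280824) (nat_lit 2889876190) (.two (nat_lit 4605345860) (nat_lit 843055921) (.two (nat_lit 4601151512) (nat_lit 21214793181) (.two (nat_lit 184993972228) (nat_lit 775952627) (.two (nat_lit 4194306) (nat_lit 8396520) (.two (nat_lit 4194305) (nat_lit 8397686) (.two (nat_lit 4194304) (nat_lit 8397973) (.one (nat_lit 4204034) .nil))))))),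
   .two (nat_lit 158083318200) (nat_lit 102760889) (.two (nat_lit 889192516) (nat_lit 158083319318) (.two (nat_lit 158083317785) (nat_lit 2100992) (.two (nat_lit 184549384) (nat_lit 8394423) (.two (nat_lit 46414168068) (nat_lit 2103557) (.two (nat_lit 8388611) (nat_lit 46508547486) (.two (nat_lit 2097153) (nat_lit 8397082) (.two (nat_lit 2097152) (nat_lit 8397974) (.one (nat_lit 2107063) .nil)))))))),
   .two (nat_lit 654311864) (nat_lit 156365750713) (.two (nat_lit 41943108) (nat_lit 654312982) (.two (nat_lit 285212709) (nat_lit 46407879156) (.two (nat_lit 285212680) (nat_lit 4599058902) (.two (nat_lit 16777220) (nat_lit 28697433690) (.two (nat_lit 822083587) (nat_lit 310386087) (.two (nat_lit 50331649) (nat_lit 10336870970) (.two (nat_lit 2097152) (nat_lit 8397975) (.one (nat_lit 2106929) .nil)))))))),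
   .two (nat_lit 166230753980) (nat_lit 28705817289) (.two (nat_lit 28758245444) (nat_lit 16779930) (.two (nat_lit 3573547035) (nat_lit 158144137713) (.two (nat_lit 639631368) (nat_lit 318771689) (.two (nat_lit 10504634372) (nat_lit 889198831) (.two (nat_lit 166130089986) (nat_lit 37262205159) (.two (nat_lit 16777216) (nat_lit 47582291074) (.one (nat_lit 2107064) .nil))))))),
   .two (nat_lit 889192888) (nat_lit 156372042432) (.two (nat_lit 12054429978) (nat_lit 889193266) (.two (nat_lit 183853121581) (nat_lit 2416970240) (.two (nat_lit 20644364296) (nat_lit 654316040) (.two (nat_lit 47563407364) (nat_lit 8395014) (.two (nat_lit 41943043) (nat_lit 28772933003) (.two (nat_lit 156364701697) (nat_lit 8397370) (.two (nat_lit 1048576) (nat_lit 8397981) (.one (nat_lit 1058489) .nil)))))))),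
   .two (nat_lit 2416968120) (nat_lit 276824505) (.two (nat_lit 28806480051) (nat_lit 1050795) (.two (nat_lit 12114198555) (nat_lit 9772730868) (.two (nat_lit 28772925448) (nat_lit 1053738) (.two (nat_lit 3539992580) (nat_lit 8395015) (.two (nat_lit 41943043) (nat_lit 638590309) (.two (nat_lit 34603009) (nat_lit 8397391) (.two (nat_lit 8388608) (nat_lit 1057950) (.one (nat_lit 1058490) .nil)))))))),
   .two (nat_lit 822084024) (nat_lit 10001318659) (.two (nat_lit 18925748403) (nat_lit 880806387) (.two (nat_lit 713031688) (nat_lit 12148806090) (.two (nat_lit 47563407364) (nat_lit 47548733689) (.two (nat_lit 612368387) (nat_lit 1780489935) (.two (nat_lit 2097153) (nat_lit 158150435070) (.two (nat_lit 1048576) (nat_lit 46978311264) (.one (nat_lit 2107067) .nil))))))),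
   .two (nat_lit 2902458807) (nat_lit 184423547611) (.two (nat_lit 159224168516) (nat_lit 1051291) (.two (nat_lit 2902458393) (nat_lit 235934231) (.two (nat_lit 184549380) (nat_lit 18925754564) (.two (nat_lit 176160770) (nat_lit 806361877) (.two (nat_lit 8388609) (nat_lit 101721159) (.one (nat_lit 1058359) .nil)))))),
   .two (nat_lit 9948889527) (nat_lit 8389761) (.two (nat_lit 9948889156) (nat_lit 37320918560) (.two (nat_lit 612368411) (nat_lit 12062821852) (.two (nat_lit 713031684) (nat_lit 336599275) (.two (nat_lit 41943043) (nat_lit 855645589) (.two (nat_lit 16777217) (nat_lit 276832495) (.two (nat_lit 1048576) (nat_lit 8397984) (.one (nat_lit 4605355535) .nil))))))),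
   .two (nat_lit 47582282168) (nat_lit 4195091) (.two (nat_lit 46477082692) (nat_lit 47582283286) (.two (nat_lit 21812477997) (nat_lit 101714442) (.two (nat_lit 19532873736) (nat_lit 11510223918) (.two (nat_lit 11476664324) (nat_lit 12150904418) (.two (nat_lit 19530776579) (nat_lit 1209016586) (.two (nat_lit 1048576) (nat_lit 19530785942) (.one (nat_lit 1058492) .nil))))))),
   .two (nat_lit 1216348599) (nat_lit 166232851142) (.two (nat_lit 4601151556) (nat_lit 1954547232) (.two (nat_lit 183853121561) (nat_lit 12114201077) (.two (nat_lit 3460300808) (nat_lit 3472888281) (.two (nat_lit 4194308) (nat_lit 8395017) (.two (nat_lit 41943043) (nat_lit 4631567126) (.two (nat_lit 37748737) (nat_lit 16786295) (.two (nat_lit 8388608) (nat_lit 1058154) (.one (nat_lit 1058493) .nil)))))))),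
   .two (nat_lit 9806283191) (nat_lit 185023333074) (.two (nat_lit 2420113690) (nat_lit 873465377) (.two (nat_lit 343932971) (nat_lit 11010050560) (.two (nat_lit 46984593416) (nat_lit 1224741341) (.two (nat_lit 104857604) (nat_lit 336599830) (.two (nat_lit 4194305) (nat_lit 1410343143) (.two (nat_lit 1048576) (nat_lit 4203681) (.one (nat_lit 1058494) .nil))))))),
   .two (nat_lit 18933088696) (nat_lit 1426063799) (.two (nat_lit 13195280452) (nat_lit 47563408960) (.two (nat_lit 11551113255) (nat_lit 50334195) (.two (nat_lit 11551113226) (nat_lit 46992985568) (.two (nat_lit 41943044) (nat_lit 4200714) (.two (nat_lit 4194306) (nat_lit 8396203) (.two (nat_lit 4194305) (nat_lit 8397688) (.two (nat_lit 4194304) (nat_lit 16786795) (.one (nat_lit 4204223) .nil)))))))),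
   .two (nat_lit 184419353279) (nat_lit 156566029050) (.two (nat_lit 156581757108) (nat_lit 3024094751) (.two (nat_lit 37249613862) (nat_lit 12114201097) (.two (nat_lit 11479810056) (nat_lit 11593060841) (.two (nat_lit 11479810052) (nat_lit 4631566594) (.two (nat_lit 809500675) (nat_lit 20652760444) (.two (nat_lit 37748737) (nat_lit 1057313) (.two (nat_lit 1048576) (nat_lit 37316731911) (.one (nat_lit 16787136) .nil)))))))),
   .two (nat_lit 18933088696) (nat_lit 156367848241) (.two (nat_lit 183853121561) (nat_lit 18941481480) (.two (nat_lit 713031684) (nat_lit 2956990652) (.two (nat_lit 41943043) (nat_lit 205528436) (.two (nat_lit 4194305) (nat_lit 687874539) (.two (nat_lit 8388608) (nat_lit 809509878) (.one (nat_lit 4204088) .nil)))))),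
   .two (nat_lit 9766437304) (nat_lit 184550079) (.two (nat_lit 156365750451) (nat_lit 47555020311) (.two (nat_lit 47555018777) (nat_lit 10537142772) (.two (nat_lit 8388616) (nat_lit 11544826322) (.two (nat_lit 2961178628) (nat_lit 185035921618) (.two (nat_lit 746586115) (nat_lit 166211887338) (.two (nat_lit 1048576) (nat_lit 8397986) (.one (nat_lit 1058497) .nil))))))),
   .two (nat_lit 9766437304) (nat_lit 2969567933) (.two (nat_lit 19109249203) (nat_lit 156532475437) (.two (nat_lit 1779433499) (nat_lit 11477717467) (.two (nat_lit 8388612) (nat_lit 2103563) (.two (nat_lit 8388610) (nat_lit 1056489) (.two (nat_lit 2097153) (nat_lit 1057657) (.two (nat_lit 1048576) (nat_lit 156533531671) (.one (nat_lit 19094578795) .nil))))))),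
   .two (nat_lit 654312121) (nat_lit 28697428678) (.two (nat_lit 654311604) (nat_lit 166136383011) (.two (nat_lit 285212697) (nat_lit 8391981) (.two (nat_lit 4605345800) (nat_lit 19142808027) (.two (nat_lit 16777220) (nat_lit 8395020) (.two (nat_lit 8388610) (nat_lit 16785130) (.two (nat_lit 8388609) (nat_lit 16786298) (.two (nat_lit 8388608) (nat_lit 16786796) (.one (nat_lit 8398530) .nil)))))))),
   .two (nat_lit 1216348599) (nat_lit 19599983409) (.two (nat_lit 16777284) (nat_lit 46514834699) (.two (nat_lit 16777240) (nat_lit 2894073308) (.two (nat_lit 16777224) (nat_lit 1283462755) (.two (nat_lit 713031684) (nat_lit 4647295759) (.two (nat_lit 41943043) (nat_lit 47584387301) (.two (nat_lit 37748737) (nat_lit 3565167923) (.one (nat_lit 2889885382) .nil))))))),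
   .two (nat_lit 10436477368) (nat_lit 142607153) (.two (nat_lit 352321604) (nat_lit 20644366832) (.two (nat_lit 16777240) (nat_lit 746589660) (.two (nat_lit 721420296) (nat_lit 156364708028) (.two (nat_lit 75497476) (nat_lit 12163488527) (.two (nat_lit 713031682) (nat_lit 873472229) (.two (nat_lit 50331649) (nat_lit 4631569392) (.two (nat_lit 1048576) (nat_lit 46514840883) (.one (nat_lit 1058500) .nil)))))))),
   .two (nat_lit 1847591352) (nat_lit 174688568114) (.two (nat_lit 156535619652) (nat_lit 270535157) (.two (nat_lit 37314625563) (nat_lit 4198936) (.two (nat_lit 156367847432) (nat_lit 10001324228) (.two (nat_lit 19530776580) (nat_lit 8395547) (.two (nat_lit 713031682) (nat_lit 4202760) (.two (nat_lit 4194305) (nat_lit 304096240) (.two (nat_lit 2097152) (nat_lit 876619058) (.one (nat_lit 4204274) .nil)))))))),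
   .two (nat_lit 166211879351) (nat_lit 2416968497) (.two (nat_lit 1384120388) (nat_lit 1051147) (.two (nat_lit 20719861785) (nat_lit 168825334) (.two (nat_lit 276824072) (nat_lit 1761613402) (.two (nat_lit 1350565892) (nat_lit 47581240081) (.two (nat_lit 11476664322) (nat_lit 71311595) (.two (nat_lit 34603009) (nat_lit 306193392) (.two (nat_lit 4194304) (nat_lit 1058101) (.one (nat_lit 1058547) .nil)))))))),
   .two (nat_lit 3573547447) (nat_lit 156533523249) (.two (nat_lit 174752530500) (nat_lit 1344276982) (.two (nat_lit 47596961819) (nat_lit 605032983) (.two (nat_lit 16777224) (nat_lit 1746933956) (.two (nat_lit 639631364) (nat_lit 168827664) (.two (nat_lit 1795162115) (nat_lit 2317361387) (.two (nat_lit 50331649) (nat_lit 706749424) (.two (nat_lit 2097152) (nat_lit 788538676) (.one (nat_lit 2107124) .nil)))))))),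
   .two (nat_lit 9899606456) (nat_lit 9772729898) (.two (nat_lit 46489665715) (nat_lit 171969014) (.two (nat_lit 3539992601) (nat_lit 641732061) (.two (nat_lit 10343153672) (nat_lit 4631566514) (.two (nat_lit 46984593412) (nat_lit 156481100561) (.two (nat_lit 638582787) (nat_lit 1782587634) (.two (nat_lit 8388609) (nat_lit 269493554) (.one (nat_lit 1058551) .nil))))))),
   .two (nat_lit 19109249463) (nat_lit 1050180) (.two (nat_lit 47596961860) (nat_lit 1344276991) (.two (nat_lit 2921332761) (nat_lit 12624859598) (.two (nat_lit 713031688) (nat_lit 2953845522) (.two (nat_lit 270532611) (nat_lit 1786781945) (.two (nat_lit 156372041729) (nat_lit 10452214798) (.two (nat_lit 1048576) (nat_lit 3022005556) (.one (nat_lit 68167367) .nil))))))),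
   .two (nat_lit 185035915704) (nat_lit 2953840196) (.two (nat_lit 4647288900) (nat_lit 11513367026) (.two (nat_lit 285212696) (nat_lit 1782582748) (.two (nat_lit 809500680) (nat_lit 16781965) (.two (nat_lit 4194308) (nat_lit 184431942420) (.two (nat_lit 4194306) (nat_lit 16785679) (.two (nat_lit 4194305) (nat_lit 16786510) (.two (nat_lit 1048576) (nat_lit 166232859955) (.one (nat_lit 1058555) .nil)))))))),
   .two (nat_lit 13237223863) (nat_lit 171968025) (.two (nat_lit 159266111556) (nat_lit 19027462642) (.two (nat_lit 46474985499) (nat_lit 11525951982) (.two (nat_lit 9781116936) (nat_lit 20640176321) (.two (nat_lit 639631364) (nat_lit 46523226895) (.two (nat_lit 2887778306) (nat_lit 3024101605) (.two (nat_lit 9768534017) (nat_lit 1411392819) (.one (nat_lit 2107132) .nil))))))),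
   .two (nat_lit 12163482040) (nat_lit 183912891185) (.two (nat_lit 142606404) (nat_lit 605030902) (.two (nat_lit 11584667674) (nat_lit 10452210134) (.two (nat_lit 12047089672) (nat_lit 47563414288) (.two (nat_lit 8388611) (nat_lit 3573555460) (.two (nat_lit 16777217) (nat_lit 9966724172) (.two (nat_lit 1048576) (nat_lit 3472893236) (.one (nat_lit 1058558) .nil))))))),
   .two (nat_lit 174759870903) (nat_lit 156533523249) (.two (nat_lit 159266111556) (nat_lit 1344276991) (.two (nat_lit 158158815257) (nat_lit 2101786) (.two (nat_lit 16777224) (nat_lit 47588578907) (.two (nat_lit 639631364) (nat_lit 1182800658) (.two (nat_lit 1916796931) (nat_lit 21778931975) (.two (nat_lit 2097153) (nat_lit 4203596) (.two (nat_lit 4194304) (nat_lit 3022005556) (.one (nat_lit 2107135) .nil)))))))),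
   .two (nat_lit 37320917432) (nat_lit 2886731293) (.two (nat_lit 19096666180) (nat_lit 2886732289) (.two (nat_lit 10439622681) (nat_lit 1053211) (.two (nat_lit 3460300808) (nat_lit 1325406394) (.two (nat_lit 104857604) (nat_lit 269490960) (.two (nat_lit 1782579203) (nat_lit 2953847046) (.two (nat_lit 612368385) (nat_lit 4631569718) (.one (nat_lit 318777054) .nil))))))),
   .two (nat_lit 12617515704) (nat_lit 11517560387) (.two (nat_lit 20644364467) (nat_lit 1780484602) (.two (nat_lit 46474985499) (nat_lit 156465369550) (.two (nat_lit 10336862216) (nat_lit 1054944) (.two (nat_lit 739246086) (nat_lit 276830994) (.two (nat_lit 34603011) (nat_lit 8397061) (.two (nat_lit 2097153) (nat_lit 166237053992) (.two (nat_lit 2097152) (nat_lit 638592474) (.one (nat_lit 1058617) .nil)))))))),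
   .two (nat_lit 843055807) (nat_lit 2987394619) (.two (nat_lit 21827158298) (nat_lit 37246470643) (.two (nat_lit 158646403097) (nat_lit 174768263680) (.two (nat_lit 1191182344) (nat_lit 1054945) (.two (nat_lit 10519314436) (nat_lit 21811436918) (.two (nat_lit 2889875459) (nat_lit 1057030) (.two (nat_lit 4194305) (nat_lit 16786744) (.two (nat_lit 4194304) (nat_lit 1058291) (.one (nat_lit 1058544) .nil)))))))),
   .two (nat_lit 21818769847) (nat_lit 873465379) (.two (nat_lit 28757196868) (nat_lit 2921336056) (.two (nat_lit 11551113242) (nat_lit 184431940047) (.two (nat_lit 28086108170) (nat_lit 19537074387) (.two (nat_lit 165525061636) (nat_lit 304094576) (.two (nat_lit 10335813635) (nat_lit 165528215807) (.two (nat_lit 606076929) (nat_lit 183946454028) (.two (nat_lit 1048576) (nat_lit 8398407) (.one (nat_lit 1058618) .nil)))))))),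
   .two (nat_lit 20738736567) (nat_lit 336594467) (.two (nat_lit 166196150340) (nat_lit 11511270648) (.two (nat_lit 1277165594) (nat_lit 1053740) (.two (nat_lit 166129041417) (nat_lit 156567083196) (.two (nat_lit 28086108164) (nat_lit 840965488) (.two (nat_lit 639631363) (nat_lit 1057031) (.two (nat_lit 606076929) (nat_lit 46507500556) (.two (nat_lit 2097152) (nat_lit 1058376) (.one (nat_lit 34613050) .nil)))))))),
   .two (nat_lit 3021996472) (nat_lit 8390812) (.two (nat_lit 28757196868) (nat_lit 2099711) (.two (nat_lit 1847590937) (nat_lit 1053741) (.two (nat_lit 1846542344) (nat_lit 2103522) (.two (nat_lit 20637024260) (nat_lit 12121546090) (.two (nat_lit 605028355) (nat_lit 8397349) (.two (nat_lit 156364701697) (nat_lit 880813054) (.two (nat_lit 4194304) (nat_lit 1058377) (.one (nat_lit 8398651) .nil)))))))),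
   .two (nat_lit 2921333176) (nat_lit 9802090003) (.two (nat_lit 158143086660) (nat_lit 47596965109) (.two (nat_lit 46523219995) (nat_lit 156465369566) (.two (nat_lit 4194312) (nat_lit 16783587) (.two (nat_lit 28758245381) (nat_lit 2889882993) (.two (nat_lit 270532611) (nat_lit 4203046) (.two (nat_lit 2097153) (nat_lit 4203833) (.two (nat_lit 1048576) (nat_lit 4204106) (.one (nat_lit 1058620) .nil)))))))),
   .two (nat_lit 18928894392) (nat_lit 184993973041) (.two (nat_lit 18928894225) (nat_lit 9906948618) (.two (nat_lit 20738736153) (nat_lit 11614032345) (.two (nat_lit 19532873736) (nat_lit 606081678) (.two (nat_lit 183853121540) (nat_lit 13222550288) (.two (nat_lit 159217876995) (nat_lit 608182519) (.two (nat_lit 37748737) (nat_lit 2106436) (.two (nat_lit 1048576) (nat_lit 641738187) (.one (nat_lit 2107197) .nil)))))))),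
   .two (nat_lit 236978616) (nat_lit 4196509) (.two (nat_lit 3527409732) (nat_lit 270535157) (.two (nat_lit 4601151515) (nat_lit 10947138029) (.two (nat_lit 157036838920) (nat_lit 104862350) (.two (nat_lit 11551113220) (nat_lit 28760350038) (.two (nat_lit 1176502275) (nat_lit 21814583526) (.two (nat_lit 2097153) (nat_lit 4203589) (.two (nat_lit 8388608) (nat_lit 1178609383) .nil))))))),
   .two (nat_lit 876609976) (nat_lit 343933746) (.two (nat_lit 4634705988) (nat_lit 174752532981) (.two (nat_lit 205520921) (nat_lit 136319484) (.two (nat_lit 184423546888) (nat_lit 28690093665) (.two (nat_lit 3460300804) (nat_lit 19537074961) (.two (nat_lit 2097155) (nat_lit 4203047) (.two (nat_lit 156367847425) (nat_lit 47548736543) (.two (nat_lit 4194304) (nat_lit 1058292) (.one (nat_lit 1058545) .nil)))))))),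
   .two (nat_lit 156365750712) (nat_lit 28093449010) (.two (nat_lit 1745879219) (nat_lit 8391974) (.two (nat_lit 772800537) (nat_lit 183947497934) (.two (nat_lit 46407876616) (nat_lit 16784237) (.two (nat_lit 75497476) (nat_lit 2105030) (.two (nat_lit 18926796803) (nat_lit 166129050092) (.two (nat_lit 2097153) (nat_lit 1058106) (.two (nat_lit 1048576) (nat_lit 4204107) (.one (nat_lit 4204350) .nil)))))))),
   .two (nat_lit 1212154554) (nat_lit 11578377763) (.two (nat_lit 306184260) (nat_lit 2100985) (.two (nat_lit 12117344280) (nat_lit 2102318) (.two (nat_lit 239075337) (nat_lit 706745949) (.two (nat_lit 28693233668) (nat_lit 9967771331) (.two (nat_lit 166132187138) (nat_lit 174753587743) (.two (nat_lit 4194305) (nat_lit 2106438) (.two (nat_lit 4194304) (nat_lit 2106956) (.one (nat_lit 10942949158) .nil)))))))),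
   .two (nat_lit 4638900664) (nat_lit 19130222101) (.two (nat_lit 874512659) (nat_lit 11618224626) (.two (nat_lit 3560964121) (nat_lit 1746932220) (.two (nat_lit 46407876616) (nat_lit 19537073751) (.two (nat_lit 705691652) (nat_lit 4201238) (.two (nat_lit 4601151491) (nat_lit 1057033) (.two (nat_lit 8388609) (nat_lit 672146415) (.two (nat_lit 1048576) (nat_lit 2106957) (.one (nat_lit 4204351) .nil)))))))),
   .two (nat_lit 46489665976) (nat_lit 1310720818) (.two (nat_lit 1962934340) (nat_lit 2418020818) (.two (nat_lit 37748744) (nat_lit 184993979791) (.two (nat_lit 10503585795) (nat_lit 10506740253) (.two (nat_lit 8388609) (nat_lit 205530607) (.one (nat_lit 1058624) .nil))))),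
   .two (nat_lit 21214790072) (nat_lit 2099358) (.two (nat_lit 236978355) (nat_lit 1346374134) (.two (nat_lit 721420314) (nat_lit 183916040669) (.two (nat_lit 612368394) (nat_lit 1358960867) (.two (nat_lit 9940500484) (nat_lit 184987688335) (.two (nat_lit 1283457027) (nat_lit 2105896) (.two (nat_lit 2097153) (nat_lit 675292646) (.one (nat_lit 2107201) .nil))))))),
   .two (nat_lit 3003122103) (nat_lit 1210058289) (.two (nat_lit 12048138420) (nat_lit 2424310279) (.two (nat_lit 11593056281) (nat_lit 156364706282) (.two (nat_lit 8388616) (nat_lit 1054948) (.two (nat_lit 3460300804) (nat_lit 183913946499) (.two (nat_lit 184431935491) (nat_lit 11577336337) (.two (nat_lit 4194305) (nat_lit 8398139) (.two (nat_lit 1048576) (nat_lit 2106958) (.one (nat_lit 4204354) .nil)))))))),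
   .two (nat_lit 185027527096) (nat_lit 20704134676) (.two (nat_lit 159251431700) (nat_lit 775948791) (.two (nat_lit 20738736168) (nat_lit 166199300600) (.two (nat_lit 156365750282) (nat_lit 18925754551) (.two (nat_lit 10336862212) (nat_lit 37246475639) (.two (nat_lit 1914699779) (nat_lit 4203049) (.two (nat_lit 4194305) (nat_lit 1058108) (.two (nat_lit 4194304) (nat_lit 1058383) (.one (nat_lit 8398659) .nil)))))))),
   .two (nat_lit 10007609784) (nat_lit 156968683053) (.two (nat_lit 158144135236) (nat_lit 12624857594) (.two (nat_lit 46508539929) (nat_lit 4199471) (.two (nat_lit 10939793416) (nat_lit 47584385224) (.two (nat_lit 174753579013) (nat_lit 184993979767) (.two (nat_lit 176160770) (nat_lit 1057322) (.two (nat_lit 612368385) (nat_lit 183845790723) (.two (nat_lit 1048576) (nat_lit 8398325) (.one (nat_lit 1058628) .nil)))))))),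
   .two (nat_lit 37320917432) (nat_lit 11577328433) (.two (nat_lit 2921332915) (nat_lit 13224643854) (.two (nat_lit 21214789657) (nat_lit 10537144801) (.two (nat_lit 158083317768) (nat_lit 21814581426) (.two (nat_lit 21214789636) (nat_lit 166211886448) (.two (nat_lit 8388611) (nat_lit 2105899) (.two (nat_lit 2097153) (nat_lit 1058109) (.two (nat_lit 1048576) (nat_lit 2106960) (.one (nat_lit 8398661) .nil)))))))),
   .two (nat_lit 4605346231) (nat_lit 156567078424) (.two (nat_lit 13191086148) (nat_lit 46414170611) (.two (nat_lit 4605345817) (nat_lit 11546924643) (.two (nat_lit 4601151492) (nat_lit 158077034754) (.two (nat_lit 4194305) (nat_lit 19094578183) (.two (nat_lit 2097152) (nat_lit 1350575557) (.one (nat_lit 1210066670) .nil)))))),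
   .two (nat_lit 21777875383) (nat_lit 4605347347) (.two (nat_lit 1343225924) (nat_lit 11551117818) (.two (nat_lit 8388616) (nat_lit 10909391054) (.two (nat_lit 3464495108) (nat_lit 2953846138) (.two (nat_lit 9933160451) (nat_lit 8397356) (.two (nat_lit 156367847425) (nat_lit 1309680667) (.two (nat_lit 4194304) (nat_lit 19134424796) .nil)))))),
   .two (nat_lit 813695416) (nat_lit 3560966279) (.two (nat_lit 158176641204) (nat_lit 10003418588) (.two (nat_lit 276824072) (nat_lit 19094575326) (.two (nat_lit 183848927236) (nat_lit 9966721814) (.two (nat_lit 156367847427) (nat_lit 672145639) (.two (nat_lit 34603009) (nat_lit 10003424089) (.two (nat_lit 1048576) (nat_lit 21778933210) (.one (nat_lit 1058630) .nil))))))),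
   .two (nat_lit 10942939576) (nat_lit 10336864412) (.two (nat_lit 174759870643) (nat_lit 2921336062) (.two (nat_lit 10907287595) (nat_lit 1212158431) (.two (nat_lit 11626610697) (nat_lit 183953791770) (.two (nat_lit 3525312515) (nat_lit 713040370) (.two (nat_lit 2097153) (nat_lit 13195289654) (.two (nat_lit 2097152) (nat_lit 4204113) (.one (nat_lit 2107207) .nil))))))),
   .two (nat_lit 352321975) (nat_lit 1753220627) (.two (nat_lit 184993972292) (nat_lit 19545459190) (.two (nat_lit 12054429722) (nat_lit 37262201326) (.two (nat_lit 721420296) (nat_lit 8395630) (.two (nat_lit 713031684) (nat_lit 11476671250) (.two (nat_lit 184986632195) (nat_lit 1350574630) (.two (nat_lit 34603009) (nat_lit 21223187504) (.two (nat_lit 1048576) (nat_lit 8398418) (.one (nat_lit 1058632) .nil)))))))),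
   .two (nat_lit 4030726583) (nat_lit 2098743) (.two (nat_lit 21827158084) (nat_lit 2317356285) (.two (nat_lit 46980399130) (nat_lit 3020952003) (.two (nat_lit 2887778312) (nat_lit 104864530) (.two (nat_lit 2887778306) (nat_lit 9768542445) (.two (nat_lit 2097153) (nat_lit 166144779312) (.two (nat_lit 4194304) (nat_lit 28087166398) (.one (nat_lit 1058633) .nil))))))),
   .two (nat_lit 654311864) (nat_lit 46406829599) (.two (nat_lit 158143086660) (nat_lit 620761623) (.two (nat_lit 218103816) (nat_lit 608180440) (.two (nat_lit 1276116996) (nat_lit 156380437856) (.two (nat_lit 171966467) (nat_lit 37329314055) (.two (nat_lit 37748737) (nat_lit 788538676) (.one (nat_lit 1058634) .nil)))))),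
   .two (nat_lit 19027460536) (nat_lit 18925749817) (.two (nat_lit 2994733124) (nat_lit 706742785) (.two (nat_lit 101711899) (nat_lit 165540793819) (.two (nat_lit 50331656) (nat_lit 13187947282) (.two (nat_lit 41943043) (nat_lit 705700074) (.two (nat_lit 50331649) (nat_lit 3457164787) (.one (nat_lit 46422566636) .nil)))))),
   .two (nat_lit 68158136) (nat_lit 1291847188) (.two (nat_lit 169869491) (nat_lit 117443848) (.two (nat_lit 775946265) (nat_lit 2424312321) (.two (nat_lit 2954887176) (nat_lit 159257730449) (.two (nat_lit 8388611) (nat_lit 1057325) (.two (nat_lit 50331649) (nat_lit 8398142) (.two (nat_lit 2097152) (nat_lit 8398419) (.one (nat_lit 2107211) .nil))))))),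
   .two (nat_lit 158083318456) (nat_lit 156367848241) (.two (nat_lit 184993972494) (nat_lit 1950353922) (.two (nat_lit 21785215003) (nat_lit 156481098196) (.two (nat_lit 3464495113) (nat_lit 13221501106) (.two (nat_lit 822083588) (nat_lit 37313584515) (.two (nat_lit 8388611) (nat_lit 19127083255) (.two (nat_lit 8388609) (nat_lit 1057863) (.two (nat_lit 1048576) (nat_lit 4204116) (.one (nat_lit 16787276) .nil)))))))),
   .two (nat_lit 156971827639) (nat_lit 2099359) (.two (nat_lit 840958240) (nat_lit 205523463) (.two (nat_lit 11510218788) (nat_lit 889197039) (.two (nat_lit 10336862216) (nat_lit 4201327) (.two (nat_lit 11476664324) (nat_lit 28793904521) (.two (nat_lit 34603011) (nat_lit 4202762) (.two (nat_lit 4194305) (nat_lit 3036685379) (.two (nat_lit 2097152) (nat_lit 4204117) (.one (nat_lit 4204365) .nil)))))))),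
   .two (nat_lit 19130221242) (nat_lit 156567078422) (.two (nat_lit 336593076) (nat_lit 880806385) (.two (nat_lit 20719861785) (nat_lit 2317357553) (.two (nat_lit 1795162122) (nat_lit 9902758676) (.two (nat_lit 50331651) (nat_lit 840966383) (.two (nat_lit 8388609) (nat_lit 16786751) (.two (nat_lit 1048576) (nat_lit 2106966) (.one (nat_lit 1058638) .nil))))))),
   .two (nat_lit 1929380536) (nat_lit 184419354134) (.two (nat_lit 159253528851) (nat_lit 4599056895) (.two (nat_lit 1309671449) (nat_lit 102765053) (.two (nat_lit 9866051594) (nat_lit 2994739385) (.two (nat_lit 1276116996) (nat_lit 159224175958) (.two (nat_lit 1276116994) (nat_lit 46477091059) (.two (nat_lit 37748737) (nat_lit 705700927) (.two (nat_lit 1048576) (nat_lit 2106967) (.one (nat_lit 2107215) .nil)))))))),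
   .two (nat_lit 1849688504) (nat_lit 174686471703) (.two (nat_lit 1317011738) (nat_lit 9867102727) (.two (nat_lit 21214789677) (nat_lit 3036680687) (.two (nat_lit 8388617) (nat_lit 156380437273) (.two (nat_lit 11546918915) (nat_lit 8397067) (.two (nat_lit 37748737) (nat_lit 2969576502) (.two (nat_lit 1048576) (nat_lit 2106870) (.one (nat_lit 2107216) .nil))))))),
   .two (nat_lit 10506731960) (nat_lit 19093522954) (.two (nat_lit 12163481626) (nat_lit 1947209177) (.two (nat_lit 754974728) (nat_lit 28690093662) (.two (nat_lit 16777220) (nat_lit 1056147) (.two (nat_lit 184549379) (nat_lit 21777883396) (.two (nat_lit 9768534017) (nat_lit 10351551500) (.two (nat_lit 4194304) (nat_lit 1058295) (.one (nat_lit 1058641) .nil))))))),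
   .two (nat_lit 184416207287) (nat_lit 16779424) (.two (nat_lit 109052084) (nat_lit 822086129) (.two (nat_lit 742391833) (nat_lit 156532478447) (.two (nat_lit 16777224) (nat_lit 2104176) (.two (nat_lit 2887778308) (nat_lit 46481284495) (.two (nat_lit 2097155) (nat_lit 4202764) (.two (nat_lit 605028353) (nat_lit 156573377601) (.two (nat_lit 1048576) (nat_lit 2106968) (.one (nat_lit 1058642) .nil)))))))),
   .two (nat_lit 158158815671) (nat_lit 158647453249) (.two (nat_lit 47555018932) (nat_lit 185035918590) (.two (nat_lit 1291845657) (nat_lit 46977257935) (.two (nat_lit 1291845640) (nat_lit 2104177) (.two (nat_lit 46407876612) (nat_lit 183861518567) (.two (nat_lit 34603009) (nat_lit 2106688) (.two (nat_lit 1048576) (nat_lit 2106969) (.one (nat_lit 2107219) .nil))))))),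
   .two (nat_lit 721420727) (nat_lit 12047091241) (.two (nat_lit 679477316) (nat_lit 185020189924) (.two (nat_lit 205520921) (nat_lit 11559505370) (.two (nat_lit 2961178632) (nat_lit 10372520132) (.two (nat_lit 10369368068) (nat_lit 3036684540) (.two (nat_lit 2097153) (nat_lit 2969576503) (.two (nat_lit 8388608) (nat_lit 1779443157) (.one (nat_lit 1914709712) .nil))))))),
   .two (nat_lit 47563407800) (nat_lit 21785215794) (.two (nat_lit 13191086260) (nat_lit 166237047302) (.two (nat_lit 47563407386) (nat_lit 185027531277) (.two (nat_lit 713031688) (nat_lit 855643740) (.two (nat_lit 68157444) (nat_lit 3565165329) (.two (nat_lit 28760342531) (nat_lit 1224745498) (.two (nat_lit 16777217) (nat_lit 1921000443) (.two (nat_lit 1048576) (nat_lit 4204122) (.one (nat_lit 4204372) .nil)))))))),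
   .two (nat_lit 12114198967) (nat_lit 156971828758) (.two (nat_lit 28693233932) (nat_lit 20637026809) (.two (nat_lit 3527409702) (nat_lit 168825288) (.two (nat_lit 3458203656) (nat_lit 2316310745) (.two (nat_lit 68157444) (nat_lit 35659120) (.two (nat_lit 34603011) (nat_lit 4203054) (.two (nat_lit 9766436865) (nat_lit 4203592) (.two (nat_lit 1048576) (nat_lit 2106971) (.one (nat_lit 1058645) .nil)))))))),
   .two (nat_lit 4605346232) (nat_lit 46523221555) (.two (nat_lit 4601151556) (nat_lit 158653745661) (.two (nat_lit 2969567258) (nat_lit 4034925042) (.two (nat_lit 276824072) (nat_lit 28705823509) (.two (nat_lit 8388610) (nat_lit 1057327) (.two (nat_lit 8388609) (nat_lit 12147762196) (.two (nat_lit 4194304) (nat_lit 8398428) (.one (nat_lit 4204374) .nil))))))),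
   .two (nat_lit 1309671864) (nat_lit 156533523250) (.two (nat_lit 47596961860) (nat_lit 740297222) (.two (nat_lit 46474985498) (nat_lit 19529732615) (.two (nat_lit 203423752) (nat_lit 101719391) (.two (nat_lit 272629763) (nat_lit 2886738177) (.two (nat_lit 9768534017) (nat_lit 156567086138) (.two (nat_lit 1048576) (nat_lit 2106872) (.one (nat_lit 1058647) .nil))))))),
   .two (nat_lit 9948889527) (nat_lit 158176643228) (.two (nat_lit 13191086148) (nat_lit 46406832603) (.two (nat_lit 41943048) (nat_lit 183946451127) (.two (nat_lit 276824068) (nat_lit 2936019730) (.two (nat_lit 8388610) (nat_lit 46507499755) (.two (nat_lit 16777217) (nat_lit 807412793) (.two (nat_lit 2097152) (nat_lit 687875803) .nil)))))),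
   .two (nat_lit 3464495803) (nat_lit 19597887029) (.two (nat_lit 13191086148) (nat_lit 10343156209) (.two (nat_lit 813695012) (nat_lit 11546923498) (.two (nat_lit 4605345800) (nat_lit 11010053726) (.two (nat_lit 8388612) (nat_lit 184431943042) (.two (nat_lit 2887778306) (nat_lit 156976029940) (.two (nat_lit 8388609) (nat_lit 183848936515) (.two (nat_lit 2097152) (nat_lit 285222461) (.one (nat_lit 2107125) .nil)))))))),
   .two (nat_lit 1779433911) (nat_lit 10452207149) (.two (nat_lit 8388676) (nat_lit 166245436696) (.two (nat_lit 184549401) (nat_lit 156566032903) (.two (nat_lit 2902458376) (nat_lit 183912896729) (.two (nat_lit 158075977732) (nat_lit 12062825837) (.two (nat_lit 166144770051) (nat_lit 19529736726) (.two (nat_lit 9781116929) (nat_lit 158150435834) (.two (nat_lit 1048576) (nat_lit 8398429) (.one (nat_lit 1058550) .nil)))))))),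
   .two (nat_lit 9881780663) (nat_lit 2987394613) (.two (nat_lit 2954887236) (nat_lit 10519319045) (.two (nat_lit 2887778312) (nat_lit 9768539745) (.two (nat_lit 11476664324) (nat_lit 10552875803) (.two (nat_lit 809500675) (nat_lit 158647460394) (.two (nat_lit 2097153) (nat_lit 4203593) (.two (nat_lit 1048576) (nat_lit 2106873) (.one (nat_lit 2107224) .nil))))))),
   .two (nat_lit 37749176) (nat_lit 1325401649) (.two (nat_lit 11517558963) (nat_lit 10372516351) (.two (nat_lit 156372041755) (nat_lit 2953843150) (.two (nat_lit 3525312521) (nat_lit 9881786589) (.two (nat_lit 4194308) (nat_lit 2105031) (.two (nat_lit 605028355) (nat_lit 9766445543) (.two (nat_lit 34603009) (nat_lit 2106442) (.two (nat_lit 1048576) (nat_lit 4204126) (.one (nat_lit 1058649) .nil)))))))),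
   .two (nat_lit 19529728440) (nat_lit 10540288519) (.two (nat_lit 4034920473) (nat_lit 1782583752) (.two (nat_lit 11479810056) (nat_lit 1054949) (.two (nat_lit 12129927172) (nat_lit 174752537987) (.two (nat_lit 8388611) (nat_lit 1057328) (.two (nat_lit 8388609) (nat_lit 1058113) (.two (nat_lit 2097152) (nat_lit 1058399) (.one (nat_lit 16787290) .nil))))))),
   .two (nat_lit 880804533) (nat_lit 183845783062) (.two (nat_lit 889192627) (nat_lit 28757199360) (.two (nat_lit 16777241) (nat_lit 303043094) (.two (nat_lit 9768534024) (nat_lit 174768265427) (.two (nat_lit 159224168452) (nat_lit 12117351786) (.two (nat_lit 2969567235) (nat_lit 4203057) (.two (nat_lit 4194305) (nat_lit 1058114) (.two (nat_lit 4194304) (nat_lit 16787040) (.one (nat_lit 16787291) .nil)))))))),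
   .two (nat_lit 46508540344) (nat_lit 2923432078) (.two (nat_lit 157038936132) (nat_lit 50334974) (.two (nat_lit 218103835) (nat_lit 12047094245) (.two (nat_lit 10504634376) (nat_lit 28705822911) (.two (nat_lit 620756996) (nat_lit 1056456) (.two (nat_lit 2097155) (nat_lit 4203058) (.two (nat_lit 2097153) (nat_lit 4203595) (.two (nat_lit 1048576) (nat_lit 2106977) (.one (nat_lit 1058652) .nil)))))))),
   .two (nat_lit 4638900664) (nat_lit 19532875284) (.two (nat_lit 3527409732) (nat_lit 10913581557) (.two (nat_lit 3525312536) (nat_lit 19134419436) (.two (nat_lit 276824072) (nat_lit 2103526) (.two (nat_lit 4194308) (nat_lit 8396489) (.two (nat_lit 8388610) (nat_lit 1057331) (.two (nat_lit 2097153) (nat_lit 8398147) (.two (nat_lit 1048576) (nat_lit 8398434) (.one (nat_lit 2107229) .nil)))))))),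
   .two (nat_lit 185035915704) (nat_lit 20704133937) (.two (nat_lit 2969567300) (nat_lit 37751296) (.two (nat_lit 2889875483) (nat_lit 620760537) (.two (nat_lit 272629768) (nat_lit 9814677085) (.two (nat_lit 809500676) (nat_lit 3020954390) (.two (nat_lit 1276116994) (nat_lit 641736970) (.two (nat_lit 9765388289) (nat_lit 318776816) (.one (nat_lit 10439632608) .nil))))))),
   .two (nat_lit 772800952) (nat_lit 4613735960) (.two (nat_lit 21785215044) (nat_lit 47581235705) (.two (nat_lit 184549401) (nat_lit 37253811680) (.two (nat_lit 184549384) (nat_lit 19134420570) (.two (nat_lit 612368388) (nat_lit 9765395807) (.two (nat_lit 713031682) (nat_lit 9765396716) (.two (nat_lit 34603009) (nat_lit 889201499) (.two (nat_lit 1048576) (nat_lit 8398330) (.one (nat_lit 9933170423) .nil)))))))),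
   .two (nat_lit 10015998391) (nat_lit 20745029153) (.two (nat_lit 2969567300) (nat_lit 37751296) (.two (nat_lit 2889875483) (nat_lit 156581762656) (.two (nat_lit 16777220) (nat_lit 71311606) (.two (nat_lit 8388609) (nat_lit 318776816) (.one (nat_lit 4204280) .nil))))),
   .two (nat_lit 183853121976) (nat_lit 9765390839) (.two (nat_lit 183853121561) (nat_lit 3557822929) (.two (nat_lit 272629770) (nat_lit 10552874592) (.two (nat_lit 4194308) (nat_lit 10955529577) (.two (nat_lit 41943043) (nat_lit 1057025) (.two (nat_lit 16777217) (nat_lit 8398148) (.two (nat_lit 1048576) (nat_lit 4204131) (.one (nat_lit 8398686) .nil))))))),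
   .two (nat_lit 1212154295) (nat_lit 1745880613) (.two (nat_lit 21827158084) (nat_lit 873466371) (.two (nat_lit 183848927258) (nat_lit 605032921) (.two (nat_lit 3539992584) (nat_lit 9969866941) (.two (nat_lit 218103812) (nat_lit 4202186) (.two (nat_lit 13191086083) (nat_lit 1057037) (.two (nat_lit 37748737) (nat_lit 1057868) (.two (nat_lit 1048576) (nat_lit 71313095) .nil))))))),
   .two (nat_lit 12163482040) (nat_lit 13187941921) (.two (nat_lit 156367847604) (nat_lit 11618224624) (.two (nat_lit 11559501851) (nat_lit 184989782519) (.two (nat_lit 158075977736) (nat_lit 3460307728) (.two (nat_lit 21777874947) (nat_lit 4030734579) (.two (nat_lit 37748737) (nat_lit 11610891327) (.two (nat_lit 1048576) (nat_lit 4204027) (.one (nat_lit 4204383) .nil))))))),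
   .two (nat_lit 880804280) (nat_lit 157051520565) (.two (nat_lit 4601151556) (nat_lit 880806384) (.two (nat_lit 4601151512) (nat_lit 158653746655) (.two (nat_lit 83886088) (nat_lit 1745886578) (.two (nat_lit 4194306) (nat_lit 16785972) (.two (nat_lit 50331649) (nat_lit 28760351729) (.two (nat_lit 1048576) (nat_lit 1426073049) (.one (nat_lit 1058656) .nil))))))),
   .two (nat_lit 1745879479) (nat_lit 8390817) (.two (nat_lit 12163481879) (nat_lit 2316306931) (.two (nat_lit 3464495149) (nat_lit 202379794) (.two (nat_lit 83886088) (nat_lit 2104178) (.two (nat_lit 2927624198) (nat_lit 21812485474) (.two (nat_lit 184993972227) (nat_lit 806363372) (.two (nat_lit 41943041) (nat_lit 10369377333) (.two (nat_lit 1048576) (nat_lit 2106980) (.one (nat_lit 1058657) .nil)))))))),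
   .two (nat_lit 174685422008) (nat_lit 2418017837) (.two (nat_lit 8388676) (nat_lit 2100519) (.two (nat_lit 4613734425) (nat_lit 10007612889) (.two (nat_lit 4613734408) (nat_lit 9974060638) (.two (nat_lit 285212676) (nat_lit 11578383126) (.two (nat_lit 16777219) (nat_lit 1057038) (.two (nat_lit 2097153) (nat_lit 1057869) (.two (nat_lit 1048576) (nat_lit 9915344370) (.one (nat_lit 1058658) .nil)))))))),
   .two (nat_lit 11618222520) (nat_lit 739247667) (.two (nat_lit 16777284) (nat_lit 10443820274) (.two (nat_lit 16777240) (nat_lit 46481280480) (.two (nat_lit 713031688) (nat_lit 202382098) (.two (nat_lit 713031682) (nat_lit 269492473) (.two (nat_lit 34603009) (nat_lit 157051528205) (.two (nat_lit 1048576) (nat_lit 2107118) .nil)))))),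
   .two (nat_lit 11618222520) (nat_lit 156532475436) (.two (nat_lit 352321604) (nat_lit 10443820274) (.two (nat_lit 11618222105) (nat_lit 20737692122) (.two (nat_lit 713031688) (nat_lit 1054943) (.two (nat_lit 11551113220) (nat_lit 156532482302) (.two (nat_lit 34603009) (nat_lit 2350916606) (.two (nat_lit 1048576) (nat_lit 2106876) (.one (nat_lit 1058659) .nil))))))),
   .two (nat_lit 46474985912) (nat_lit 109053466) (.two (nat_lit 9948889156) (nat_lit 184987683322) (.two (nat_lit 184549401) (nat_lit 166203494871) (.two (nat_lit 8388616) (nat_lit 1929384590) (.two (nat_lit 41943044) (nat_lit 185002367763) (.two (nat_lit 10370416643) (nat_lit 1786781965) (.two (nat_lit 2097153) (nat_lit 1392518171) (.two (nat_lit 16777216) (nat_lit 713041390) (.one (nat_lit 8398585) .nil)))))))),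
   .two (nat_lit 19532874168) (nat_lit 9806283569) (.two (nat_lit 4605345860) (nat_lit 16781050) (.two (nat_lit 157038936091) (nat_lit 713036285) (.two (nat_lit 184549384) (nat_lit 9806288478) (.two (nat_lit 16777220) (nat_lit 46514838905) (.two (nat_lit 713031682) (nat_lit 16785973) (.two (nat_lit 156367847425) (nat_lit 185002369882) (.two (nat_lit 4194304) (nat_lit 8398333) (.one (nat_lit 8398586) .nil)))))))),
   .two (nat_lit 183962173879) (nat_lit 2353006722) (.two (nat_lit 9974054980) (nat_lit 166130092554) (.two (nat_lit 156535619611) (nat_lit 2961183194) (.two (nat_lit 203423752) (nat_lit 46422563027) (.two (nat_lit 203423748) (nat_lit 11614035312) (.two (nat_lit 620756995) (nat_lit 28087165163) (.two (nat_lit 2097153) (nat_lit 13203678261) (.two (nat_lit 2097152) (nat_lit 11593065936) (.one (nat_lit 2107133) .nil)))))))),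
   .two (nat_lit 352321976) (nat_lit 183953786401) (.two (nat_lit 174768259252) (nat_lit 28791802365) (.two (nat_lit 158083317785) (nat_lit 2101785) (.two (nat_lit 156372041736) (nat_lit 2103527) (.two (nat_lit 156367847428) (nat_lit 2105035) (.two (nat_lit 75497475) (nat_lit 71311617) (.two (nat_lit 2097153) (nat_lit 4203599) (.two (nat_lit 2097152) (nat_lit 4204030) (.one (nat_lit 4204388) .nil)))))))),
   .two (nat_lit 1849688504) (nat_lit 740296221) (.two (nat_lit 4647289012) (nat_lit 11614031328) (.two (nat_lit 156372041736) (nat_lit 4200680) (.two (nat_lit 156365750276) (nat_lit 1782586730) (.two (nat_lit 75497475) (nat_lit 10370425089) (.two (nat_lit 8388609) (nat_lit 2889885124) (.one (nat_lit 4204389) .nil)))))),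
   .two (nat_lit 4605346232) (nat_lit 3539994163) (.two (nat_lit 156367847492) (nat_lit 183853124083) (.two (nat_lit 4605345817) (nat_lit 20740836827) (.two (nat_lit 4605345800) (nat_lit 1279268438) (.two (nat_lit 184549380) (nat_lit 158150434154) (.two (nat_lit 8388610) (nat_lit 10519322861) (.two (nat_lit 4194305) (nat_lit 8397904) (.two (nat_lit 16777216) (nat_lit 9940510149) (.one (nat_lit 4204390) .nil)))))))),
   .two (nat_lit 13237223863) (nat_lit 10506732338) (.two (nat_lit 3527409732) (nat_lit 10001320450) (.two (nat_lit 166132187162) (nat_lit 11014246904) (.two (nat_lit 2889875464) (nat_lit 185002366553) (.two (nat_lit 16777220) (nat_lit 20638080365) (.two (nat_lit 16777218) (nat_lit 4202768) (.two (nat_lit 2097153) (nat_lit 8397905) (.two (nat_lit 2097152) (nat_lit 4204133) (.one (nat_lit 8398592) .nil)))))))),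
   .two (nat_lit 3527410103) (nat_lit 158647453220) (.two (nat_lit 46474985540) (nat_lit 9902754297) (.two (nat_lit 272629787) (nat_lit 606081490) (.two (nat_lit 3458203656) (nat_lit 4601159029) (.two (nat_lit 272629763) (nat_lit 11544830437) (.two (nat_lit 4194305) (nat_lit 2106450) (.two (nat_lit 4194304) (nat_lit 2106879) (.one (nat_lit 2107239) .nil))))))),
   .two (nat_lit 166132187576) (nat_lit 1417676350) (.two (nat_lit 159224168516) (nat_lit 185021237753) (.two (nat_lit 3464495129) (nat_lit 706744811) (.two (nat_lit 3458203656) (nat_lit 8394950) (.two (nat_lit 9940500484) (nat_lit 10538196369) (.two (nat_lit 2954887171) (nat_lit 19134423270) (.two (nat_lit 2097153) (nat_lit 4203603) (.two (nat_lit 2097152) (nat_lit 4203830) (.one (nat_lit 2107240) .nil)))))))),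
   .two (nat_lit 159266111927) (nat_lit 1277167777) (.two (nat_lit 156535619652) (nat_lit 20719865069) (.two (nat_lit 9768534054) (nat_lit 166144773596) (.two (nat_lit 285212680) (nat_lit 21814580826) (.two (nat_lit 612368390) (nat_lit 19142811024) (.two (nat_lit 1914699779) (nat_lit 9814679814) (.two (nat_lit 41943041) (nat_lit 807412717) (.two (nat_lit 2097152) (nat_lit 16786944) (.one (nat_lit 16787305) .nil)))))))),
   .two (nat_lit 673186485) (nat_lit 47596962610) (.two (nat_lit 306184260) (nat_lit 8391175) (.two (nat_lit 3464495129) (nat_lit 10955527768) (.two (nat_lit 606076932) (nat_lit 1350572821) (.two (nat_lit 713031683) (nat_lit 742400255) (.two (nat_lit 4194305) (nat_lit 8397908) (.two (nat_lit 4194304) (nat_lit 8398438) (.one (nat_lit 2107242) .nil))))))),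
   .two (nat_lit 236978869) (nat_lit 166245434162) (.two (nat_lit 46474985540) (nat_lit 171969022) (.two (nat_lit 11513364505) (nat_lit 185021239747) (.two (nat_lit 742391817) (nat_lit 1780488981) (.two (nat_lit 1277165570) (nat_lit 251666959) (.two (nat_lit 2097153) (nat_lit 4203605) (.two (nat_lit 4194304) (nat_lit 2106983) (.one (nat_lit 2107243) .nil))))))),
   .two (nat_lit 822084023) (nat_lit 1384122500) (.two (nat_lit 10504634436) (nat_lit 156984413410) (.two (nat_lit 11559501849) (nat_lit 11578380742) (.two (nat_lit 203423752) (nat_lit 12129931918) (.two (nat_lit 203423748) (nat_lit 10452212500) (.two (nat_lit 612368387) (nat_lit 11544830221) (.two (nat_lit 2097153) (nat_lit 16786518) (.two (nat_lit 8388608) (nat_lit 1761617351) (.one (nat_lit 8398593) .nil)))))))),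
   .two (nat_lit 13195280824) (nat_lit 156367848242) (.two (nat_lit 4605345860) (nat_lit 605032967) (.two (nat_lit 8388616) (nat_lit 185020192985) (.two (nat_lit 4194308) (nat_lit 8396180) (.two (nat_lit 4194306) (nat_lit 1057041) (.two (nat_lit 37748737) (nat_lit 10947142650) (.two (nat_lit 4194304) (nat_lit 1058408) (.one (nat_lit 1058668) .nil))))))),
   .two (nat_lit 11476664760) (nat_lit 1358956054) (.two (nat_lit 13203669171) (nat_lit 46481279496) (.two (nat_lit 1317011483) (nat_lit 4027584987) (.two (nat_lit 176160776) (nat_lit 2104179) (.two (nat_lit 50331654) (nat_lit 135273853) (.two (nat_lit 218103811) (nat_lit 158143095042) (.two (nat_lit 606076929) (nat_lit 185020195896) (.two (nat_lit 1048576) (nat_lit 156984420048) .nil))))))),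
   .two (nat_lit 3458204353) (nat_lit 10343154482) (.two (nat_lit 1426063540) (nat_lit 28697430534) (.two (nat_lit 156468510747) (nat_lit 174768263623) (.two (nat_lit 46978301960) (nat_lit 3472890087) (.two (nat_lit 641728516) (nat_lit 1344281957) (.two (nat_lit 166144770051) (nat_lit 608182810) (.two (nat_lit 2097153) (nat_lit 10376717307) (.two (nat_lit 2097152) (nat_lit 8398441) (.one (nat_lit 2107245) .nil)))))))),
   .two (nat_lit 843055544) (nat_lit 2953841141) (.two (nat_lit 1343225883) (nat_lit 13237229150) (.two (nat_lit 272629764) (nat_lit 269492481) (.two (nat_lit 4194305) (nat_lit 16786757) (.two (nat_lit 16777216) (nat_lit 269493864) (.one (nat_lit 1058670) .nil))))),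
   .two (nat_lit 176161208) (nat_lit 46992983585) (.two (nat_lit 9768534084) (nat_lit 28806484494) (.two (nat_lit 11593056266) (nat_lit 11580479684) (.two (nat_lit 104857604) (nat_lit 151002814) (.two (nat_lit 11492392962) (nat_lit 156976029943) (.two (nat_lit 4194305) (nat_lit 21223187439) (.two (nat_lit 4194304) (nat_lit 8398442) (.one (nat_lit 4204399) .nil))))))),
   .two (nat_lit 46523220408) (nat_lit 13224642067) (.two (nat_lit 1916796996) (nat_lit 251661555) (.two (nat_lit 8388635) (nat_lit 10351547432) (.two (nat_lit 1795162120) (nat_lit 843061456) (.two (nat_lit 176160772) (nat_lit 4202188) (.two (nat_lit 176160770) (nat_lit 16785974) (.two (nat_lit 4194305) (nat_lit 243278871) (.two (nat_lit 4194304) (nat_lit 8398443) (.one (nat_lit 4204400) .nil)))))))),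
   .two (nat_lit 9768534455) (nat_lit 166144771633) (.two (nat_lit 1853882548) (nat_lit 28691139838) (.two (nat_lit 1178599451) (nat_lit 8393776) (.two (nat_lit 50331656) (nat_lit 4200681) (.two (nat_lit 50331652) (nat_lit 4202189) (.two (nat_lit 12121538563) (nat_lit 9969869338) (.two (nat_lit 4194305) (nat_lit 2106694) (.two (nat_lit 2097152) (nat_lit 4204140) (.one (nat_lit 2107249) .nil)))))))),
   .two (nat_lit 18928894391) (nat_lit 157043132546) (.two (nat_lit 47596961860) (nat_lit 37316725252) (.two (nat_lit 2889875483) (nat_lit 19612569051) (.two (nat_lit 272629768) (nat_lit 1055506) (.two (nat_lit 16777218) (nat_lit 184416215297) (.two (nat_lit 8388609) (nat_lit 4631569718) (.one (nat_lit 156566038213) .nil)))))),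
   .two (nat_lit 12163482040) (nat_lit 135268851) (.two (nat_lit 218103833) (nat_lit 28764541382) (.two (nat_lit 41943048) (nat_lit 19127081750) (.two (nat_lit 8388610) (nat_lit 101720321) (.two (nat_lit 8388609) (nat_lit 28772934725) (.two (nat_lit 8388608) (nat_lit 47596971502) (.one (nat_lit 1058562) .nil)))))),
   .two (nat_lit 10552869304) (nat_lit 11007952403) (.two (nat_lit 46474985540) (nat_lit 1175457018) (.two (nat_lit 3036676134) (nat_lit 10336866779) (.two (nat_lit 3036676106) (nat_lit 10940848336) (.two (nat_lit 203423748) (nat_lit 68164370) (.two (nat_lit 270532611) (nat_lit 11492401685) (.two (nat_lit 9765388289) (nat_lit 156481102896) (.two (nat_lit 1048576) (nat_lit 69215725) (.one (nat_lit 28790761177) .nil)))))))),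
   .two (nat_lit 156533522872) (nat_lit 18941478435) (.two (nat_lit 2969567300) (nat_lit 156466416128) (.two (nat_lit 203423770) (nat_lit 9781120473) (.two (nat_lit 46407876617) (nat_lit 21793609916) (.two (nat_lit 1358954500) (nat_lit 12048145776) (.two (nat_lit 16777219) (nat_lit 2105911) (.two (nat_lit 16777217) (nat_lit 2106455) (.two (nat_lit 16777216) (nat_lit 185021245000) (.one (nat_lit 2107109) .nil)))))))),
   .two (nat_lit 10015998392) (nat_lit 12054432242) (.two (nat_lit 183853121561) (nat_lit 12633248218) (.two (nat_lit 713031688) (nat_lit 1175460036) (.two (nat_lit 713031684) (nat_lit 269490960) (.two (nat_lit 713031682) (nat_lit 303046899) (.two (nat_lit 605028353) (nat_lit 183953794130) (.two (nat_lit 1048576) (nat_lit 8398337) (.one (nat_lit 8398595) .nil))))))),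
   .two (nat_lit 13195280824) (nat_lit 2886731298) (.two (nat_lit 4601151556) (nat_lit 21214793181) (.two (nat_lit 4601151496) (nat_lit 166203496022) (.two (nat_lit 8388612) (nat_lit 174752537985) (.two (nat_lit 1745879043) (nat_lit 4202761) (.two (nat_lit 156364701697) (nat_lit 28760351729) (.two (nat_lit 1048576) (nat_lit 4204034) (.one (nat_lit 11610891994) .nil))))))),
   .two (nat_lit 612368823) (nat_lit 20753418396) (.two (nat_lit 612368452) (nat_lit 158158818558) (.two (nat_lit 4605345817) (nat_lit 166232853980) (.two (nat_lit 4601151496) (nat_lit 28764542554) (.two (nat_lit 8388612) (nat_lit 1325407594) (.two (nat_lit 612368387) (nat_lit 28806488613) (.two (nat_lit 4194305) (nat_lit 16786520) (.two (nat_lit 16777216) (nat_lit 4204034) (.one (nat_lit 4204292) .nil)))))))),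
   .two (nat_lit 159251432130) (nat_lit 18941478435) (.two (nat_lit 2969567300) (nat_lit 19530779928) (.two (nat_lit 16777240) (nat_lit 159217881563) (.two (nat_lit 620757000) (nat_lit 46978308297) (.two (nat_lit 10504634372) (nat_lit 28705824089) (.two (nat_lit 16777219) (nat_lit 2105618) (.two (nat_lit 156365750273) (nat_lit 28705825786) (.two (nat_lit 2097152) (nat_lit 16787053) (.one (nat_lit 2988451573) .nil)))))))),
   .two (nat_lit 10015998391) (nat_lit 4605347348) (.two (nat_lit 4605345860) (nat_lit 19042142716) (.two (nat_lit 4605345817) (nat_lit 608178692) (.two (nat_lit 8388616) (nat_lit 4200682) (.two (nat_lit 16777220) (nat_lit 4202190) (.two (nat_lit 4194306) (nat_lit 16785976) (.two (nat_lit 16777217) (nat_lit 4203847) (.two (nat_lit 4194304) (nat_lit 16787054) (.one (nat_lit 4204293) .nil)))))))),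
   .two (nat_lit 159266112305) (nat_lit 673186609) (.two (nat_lit 159266111927) (nat_lit 21812480520) (.two (nat_lit 13237223492) (nat_lit 9802091993) (.two (nat_lit 285212696) (nat_lit 11479815776) (.two (nat_lit 2902458376) (nat_lit 71310697) (.two (nat_lit 272629764) (nat_lit 11559510267) (.two (nat_lit 47548727299) (nat_lit 13237232475) (.two (nat_lit 2097153) (nat_lit 608183744) (.two (nat_lit 2097152) (nat_lit 1279272648) (.one (nat_lit 2887788403) .nil))))))))),
   .two (nat_lit 47548728113) (nat_lit 1426064935) (.two (nat_lit 9781117367) (nat_lit 156532476409) (.two (nat_lit 822083652) (nat_lit 13222547931) (.two (nat_lit 4194329) (nat_lit 16781965) (.two (nat_lit 169869320) (nat_lit 37755666) (.two (nat_lit 4194308) (nat_lit 11559510267) (.two (nat_lit 705691650) (nat_lit 19142812508) (.two (nat_lit 34603009) (nat_lit 13222552882) (.two (nat_lit 1048576) (nat_lit 2107105) (.one (nat_lit 9765398386) .nil))))))))),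
   .two (nat_lit 4601152306) (nat_lit 9873393203) (.two (nat_lit 165532402103) (nat_lit 20638075378) (.two (nat_lit 156535619652) (nat_lit 740299209) (.two (nat_lit 10343153691) (nat_lit 2102881) (.two (nat_lit 37748744) (nat_lit 276830994) (.two (nat_lit 606076932) (nat_lit 19134423269) (.two (nat_lit 169869314) (nat_lit 46523229020) (.two (nat_lit 16777217) (nat_lit 11477722584) (.two (nat_lit 2097152) (nat_lit 4204258) (.one (nat_lit 2107257) .nil))))))))),
   .two (nat_lit 13237224241) (nat_lit 310380083) (.two (nat_lit 13228835255) (nat_lit 1761610230) (.two (nat_lit 11584667716) (nat_lit 183949595077) (.two (nat_lit 3525312536) (nat_lit 171971214) (.two (nat_lit 13203669000) (nat_lit 873471346) (.two (nat_lit 46407876612) (nat_lit 352329970) (.two (nat_lit 4599054339) (nat_lit 1761616729) (.two (nat_lit 156365750273) (nat_lit 68167112) (.two (nat_lit 2097152) (nat_lit 1058531) (.one (nat_lit 2107259) .nil))))))))),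
   .two (nat_lit 156581757746) (nat_lit 156569176563) (.two (nat_lit 4647288900) (nat_lit 4198934) (.two (nat_lit 9768534043) (nat_lit 11593061977) (.two (nat_lit 11479810056) (nat_lit 68164368) (.two (nat_lit 1178599428) (nat_lit 4598014195) (.two (nat_lit 13191086083) (nat_lit 705701170) (.two (nat_lit 1048576) (nat_lit 9902761675) (.one (nat_lit 4204474) .nil))))))),
   .two (nat_lit 166196151089) (nat_lit 1277168135) (.two (nat_lit 612368656) (nat_lit 9781120473) (.two (nat_lit 19027460121) (nat_lit 1054934) (.two (nat_lit 2961178632) (nat_lit 1761615209) (.two (nat_lit 813694980) (nat_lit 202383617) (.two (nat_lit 639631363) (nat_lit 9873400666) (.two (nat_lit 606076929) (nat_lit 68167365) (.one (nat_lit 1058747) .nil))))))),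
   .two (nat_lit 822084401) (nat_lit 21777877124) (.two (nat_lit 46474985912) (nat_lit 1051125) (.two (nat_lit 16777284) (nat_lit 184987685318) (.two (nat_lit 158143086619) (nat_lit 157051525905) (.two (nat_lit 2887778308) (nat_lit 47596970224) (.two (nat_lit 34603011) (nat_lit 185002370028) (.two (nat_lit 34603009) (nat_lit 3036685753) (.two (nat_lit 16777216) (nat_lit 336602827) (.one (nat_lit 1058682) .nil)))))))),
   .two (nat_lit 135267121) (nat_lit 18928895555) (.two (nat_lit 2921333176) (nat_lit 11513367027) (.two (nat_lit 318767283) (nat_lit 2353009174) (.two (nat_lit 318767130) (nat_lit 4200663) (.two (nat_lit 285212680) (nat_lit 4201874) (.two (nat_lit 19529728004) (nat_lit 47584387308) (.two (nat_lit 46980399107) (nat_lit 9867109385) (.two (nat_lit 4194305) (nat_lit 9933170131) (.two (nat_lit 1048576) (nat_lit 4204328) (.one (nat_lit 185023342494) .nil))))))))),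
   .two (nat_lit 2994733873) (nat_lit 2099351) (.two (nat_lit 10940842682) (nat_lit 269486591) (.two (nat_lit 28758245444) (nat_lit 1745883645) (.two (nat_lit 158143086616) (nat_lit 11014248642) (.two (nat_lit 2887778312) (nat_lit 8396482) (.two (nat_lit 612368388) (nat_lit 1057026) (.two (nat_lit 2097155) (nat_lit 8397884) (.two (nat_lit 605028353) (nat_lit 18933097962) (.two (nat_lit 8388608) (nat_lit 1058601) (.one (nat_lit 1058748) .nil))))))))),
   .two (nat_lit 156569174834) (nat_lit 183946446359) (.two (nat_lit 4638900664) (nat_lit 2990541320) (.two (nat_lit 3525312580) (nat_lit 3460305413) (.two (nat_lit 46477082650) (nat_lit 18926802527) (.two (nat_lit 4194312) (nat_lit 337648402) (.two (nat_lit 1350565892) (nat_lit 20638081277) (.two (nat_lit 10503585795) (nat_lit 11611939828) (.two (nat_lit 4194305) (nat_lit 2987402546) (.two (nat_lit 1048576) (nat_lit 2107178) (.one (nat_lit 165532411794) .nil))))))))),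
   .two (nat_lit 174752531987) (nat_lit 174753580567) (.two (nat_lit 46489665975) (nat_lit 2100498) (.two (nat_lit 185002361011) (nat_lit 37253812722) (.two (nat_lit 12050235417) (nat_lit 176167122) (.two (nat_lit 3464495112) (nat_lit 742399338) (.two (nat_lit 1277165574) (nat_lit 1786781931) (.two (nat_lit 13187940355) (nat_lit 239084577) (.two (nat_lit 2097153) (nat_lit 1058285) (.two (nat_lit 8388608) (nat_lit 1058532) (.one (nat_lit 1058749) .nil))))))))),
   .two (nat_lit 174752531250) (nat_lit 174753580567) (.two (nat_lit 243270071) (nat_lit 2100498) (.two (nat_lit 28757196868) (nat_lit 4199466) (.two (nat_lit 2994733083) (nat_lit 708843730) (.two (nat_lit 10343153672) (nat_lit 71310723) (.two (nat_lit 1277165574) (nat_lit 9873400043) (.two (nat_lit 2097155) (nat_lit 4203581) (.two (nat_lit 2097153) (nat_lit 1058368) (.two (nat_lit 2097152) (nat_lit 8398635) (.one (nat_lit 1058750) .nil))))))))),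
   .two (nat_lit 185035916082) (nat_lit 158176642583) (.two (nat_lit 12054430135) (nat_lit 19127077370) (.two (nat_lit 4601151556) (nat_lit 1283460576) (.two (nat_lit 10503585835) (nat_lit 205525646) (.two (nat_lit 809500680) (nat_lit 1846549878) (.two (nat_lit 4194308) (nat_lit 46481285374) (.two (nat_lit 1291845634) (nat_lit 11484013570) (.two (nat_lit 156364701697) (nat_lit 46980409041) (.one (nat_lit 1058751) .nil)))))))),
   .two (nat_lit 117441329) (nat_lit 19094570533) (.two (nat_lit 47596962231) (nat_lit 35654146) (.two (nat_lit 11007950916) (nat_lit 34607606) (.two (nat_lit 28758245403) (nat_lit 19109255362) (.two (nat_lit 639631368) (nat_lit 705698576) (.two (nat_lit 620756996) (nat_lit 10335822059) (.two (nat_lit 83886083) (nat_lit 46407885814) (.two (nat_lit 2097153) (nat_lit 605037876) (.two (nat_lit 1048576) (nat_lit 2107109) (.one (nat_lit 1058684) .nil))))))))),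
   .two (nat_lit 9781117746) (nat_lit 185020188805) (.two (nat_lit 166132187834) (nat_lit 184416209394) (.two (nat_lit 3525312580) (nat_lit 1178604029) (.two (nat_lit 12114198552) (nat_lit 37247523028) (.two (nat_lit 742391816) (nat_lit 13221501713) (.two (nat_lit 101711876) (nat_lit 706748650) (.two (nat_lit 16777218) (nat_lit 1057854) (.two (nat_lit 156365750273) (nat_lit 37262206688) (.one (nat_lit 1058752) .nil)))))))),
   .two (nat_lit 1916797745) (nat_lit 28101838395) (.two (nat_lit 809501375) (nat_lit 754977266) (.two (nat_lit 3525312580) (nat_lit 16781847) (.two (nat_lit 822083611) (nat_lit 1054936) (.two (nat_lit 9768534024) (nat_lit 185021242129) (.two (nat_lit 2887778308) (nat_lit 251666686) (.two (nat_lit 1358954499) (nat_lit 11543782398) (.two (nat_lit 4194305) (nat_lit 1325409588) (.two (nat_lit 1048576) (nat_lit 2107180) (.one (nat_lit 1058753) .nil))))))))),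
   .two (nat_lit 156372042546) (nat_lit 1050776) (.two (nat_lit 3003122103) (nat_lit 166237047284) (.two (nat_lit 3525312580) (nat_lit 713036267) (.two (nat_lit 2887778329) (nat_lit 171972796) (.two (nat_lit 813694984) (nat_lit 269490962) (.two (nat_lit 1276116996) (nat_lit 109060333) (.two (nat_lit 2889875459) (nat_lit 269493083) (.two (nat_lit 37748737) (nat_lit 21827167676) (.two (nat_lit 4194304) (nat_lit 1058534) (.one (nat_lit 1310730116) .nil))))))))),
   .two (nat_lit 9974055730) (nat_lit 174686472691) (.two (nat_lit 28757196979) (nat_lit 28791804438) (.two (nat_lit 21208498202) (nat_lit 28764543157) (.two (nat_lit 2961178632) (nat_lit 159251438993) (.two (nat_lit 1779433476) (nat_lit 706748657) (.two (nat_lit 1753219075) (nat_lit 4599063559) (.two (nat_lit 2097153) (nat_lit 8398318) (.two (nat_lit 1048576) (nat_lit 8398567) (.one (nat_lit 1058754) .nil)))))))),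
   .two (nat_lit 185035916082) (nat_lit 9899607572) (.two (nat_lit 168821442) (nat_lit 83888624) (.two (nat_lit 11577327684) (nat_lit 9768538621) (.two (nat_lit 855638055) (nat_lit 4200034) (.two (nat_lit 205520904) (nat_lit 16785091) (.two (nat_lit 101711876) (nat_lit 809509114) (.two (nat_lit 4194306) (nat_lit 1057855) (.two (nat_lit 4194305) (nat_lit 16787009) (.two (nat_lit 16777216) (nat_lit 1058605) (.one (nat_lit 1058755) .nil))))))))),
   .two (nat_lit 174759872023) (nat_lit 21812479543) (.two (nat_lit 9806283191) (nat_lit 1343228416) (.two (nat_lit 13191086148) (nat_lit 158091710932) (.two (nat_lit 46414168089) (nat_lit 806359694) (.two (nat_lit 2954887176) (nat_lit 272638188) (.two (nat_lit 11492392962) (nat_lit 47588582398) (.two (nat_lit 8388609) (nat_lit 11611940329) (.two (nat_lit 1048576) (nat_lit 8398638) (.one (nat_lit 1058756) .nil)))))))),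
   .two (nat_lit 20753417010) (nat_lit 21812479543) (.two (nat_lit 2988442293) (nat_lit 166196152841) (.two (nat_lit 11007950916) (nat_lit 269488591) (.two (nat_lit 11543773210) (nat_lit 337648406) (.two (nat_lit 2954887172) (nat_lit 8397059) (.two (nat_lit 2097155) (nat_lit 12163490835) (.two (nat_lit 2097153) (nat_lit 209724890) (.two (nat_lit 1048576) (nat_lit 2107183) (.one (nat_lit 1058757) .nil)))))))),
   .two (nat_lit 156971828018) (nat_lit 11510220311) (.two (nat_lit 318767544) (nat_lit 1413483010) (.two (nat_lit 3525312580) (nat_lit 641733125) (.two (nat_lit 156535619611) (nat_lit 9866057913) (.two (nat_lit 2887778312) (nat_lit 3024100113) (.two (nat_lit 1178599428) (nat_lit 202383595) (.two (nat_lit 11476664322) (nat_lit 4043318110) (.two (nat_lit 9765388289) (nat_lit 165540799930) (.two (nat_lit 1048576) (nat_lit 1948264234) (.one (nat_lit 1058758) .nil))))))))),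
   .two (nat_lit 4601152306) (nat_lit 746587703) (.two (nat_lit 46414168758) (nat_lit 673188361) (.two (nat_lit 156367847492) (nat_lit 11544826312) (.two (nat_lit 1358954523) (nat_lit 1786779830) (.two (nat_lit 1753219080) (nat_lit 2954894715) (.two (nat_lit 1749024772) (nat_lit 2105888) (.two (nat_lit 708837379) (nat_lit 8397888) (.two (nat_lit 2097153) (nat_lit 16787010) (.two (nat_lit 4194304) (nat_lit 2107184) (.one (nat_lit 2107335) .nil))))))))),
   .two (nat_lit 13191086898) (nat_lit 1753221617) (.two (nat_lit 13191086260) (nat_lit 176165391) (.two (nat_lit 4601151512) (nat_lit 1054937) (.two (nat_lit 2961178632) (nat_lit 9936313712) (.two (nat_lit 1343225860) (nat_lit 3024101623) (.two (nat_lit 638582787) (nat_lit 71312396) (.two (nat_lit 4194305) (nat_lit 1058371) (.two (nat_lit 1048576) (nat_lit 4204264) (.one (nat_lit 1058704) .nil)))))))),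
   .two (nat_lit 612369201) (nat_lit 16779417) (.two (nat_lit 83886776) (nat_lit 9799993847) (.two (nat_lit 156367847492) (nat_lit 706744779) (.two (nat_lit 8388632) (nat_lit 4200666) (.two (nat_lit 176160776) (nat_lit 2105028) (.two (nat_lit 156367847428) (nat_lit 1325408487) (.two (nat_lit 9948889091) (nat_lit 2106433) (.two (nat_lit 620756993) (nat_lit 37758438) (.two (nat_lit 2097152) (nat_lit 4204337) (.one (nat_lit 4204488) .nil))))))))),
   .two (nat_lit 20644365106) (nat_lit 18925749782) (.two (nat_lit 10540286391) (nat_lit 37247520016) (.two (nat_lit 185035915332) (nat_lit 37253812690) (.two (nat_lit 47548727323) (nat_lit 1947211989) (.two (nat_lit 9940500488) (nat_lit 28758252943) (.two (nat_lit 68157444) (nat_lit 2105889) (.two (nat_lit 270532611) (nat_lit 9940509760) (.two (nat_lit 2097153) (nat_lit 4204015) (.two (nat_lit 2097152) (nat_lit 1058610) (.one (nat_lit 1058761) .nil))))))))),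
   .two (nat_lit 13191086897) (nat_lit 8390810) (.two (nat_lit 2923430582) (nat_lit 156533525001) (.two (nat_lit 156581756996) (nat_lit 183913943513) (.two (nat_lit 4605345819) (nat_lit 12115252821) (.two (nat_lit 37748744) (nat_lit 11551120146) (.two (nat_lit 272629764) (nat_lit 9934217465) (.two (nat_lit 4194306) (nat_lit 156573377576) (.two (nat_lit 8388609) (nat_lit 10538198749) (.one (nat_lit 2107338) .nil)))))))),
   .two (nat_lit 2969568050) (nat_lit 4605347970) (.two (nat_lit 46414168504) (nat_lit 10000271859) (.two (nat_lit 4601151556) (nat_lit 185021239761) (.two (nat_lit 169869337) (nat_lit 8394971) (.two (nat_lit 4194312) (nat_lit 203432194) (.two (nat_lit 4194306) (nat_lit 12155102235) (.two (nat_lit 4194305) (nat_lit 705701359) (.two (nat_lit 4194304) (nat_lit 203433744) (.one (nat_lit 3560974248) .nil)))))))),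
   .two (nat_lit 4601152305) (nat_lit 209716769) (.two (nat_lit 159232557495) (nat_lit 1384123672) (.two (nat_lit 843055172) (nat_lit 9866056171) (.two (nat_lit 9806282779) (nat_lit 20719868117) (.two (nat_lit 713031688) (nat_lit 28793905382) (.two (nat_lit 46409973762) (nat_lit 20753425403) (.two (nat_lit 4194305) (nat_lit 1058372) (.two (nat_lit 8388608) (nat_lit 269493984) (.one (nat_lit 156481103778) .nil)))))))),
   .two (nat_lit 11584668465) (nat_lit 1050779) (.two (nat_lit 1753219765) (nat_lit 772803081) (.two (nat_lit 272629828) (nat_lit 639635969) (.two (nat_lit 272629784) (nat_lit 13222549686) (.two (nat_lit 612368392) (nat_lit 174752537979) (.two (nat_lit 18933088260) (nat_lit 12114206979) (.two (nat_lit 166129041410) (nat_lit 13222552409) (.two (nat_lit 8388609) (nat_lit 1846552006) (.two (nat_lit 1048576) (nat_lit 2107187) (.one (nat_lit 1058763) .nil))))))))),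
   .two (nat_lit 4634706737) (nat_lit 1847593090) (.two (nat_lit 2902459069) (nat_lit 11510221315) (.two (nat_lit 272629828) (nat_lit 740299227) (.two (nat_lit 2889875482) (nat_lit 2103516) (.two (nat_lit 612368392) (nat_lit 174753586555) (.two (nat_lit 9781116932) (nat_lit 184417263875) (.two (nat_lit 176160770) (nat_lit 1057858) (.two (nat_lit 8388609) (nat_lit 1847600582) (.two (nat_lit 1048576) (nat_lit 2107188) (.one (nat_lit 1058764) .nil))))))))),
   .two (nat_lit 343933745) (nat_lit 608176280) (.two (nat_lit 16777919) (nat_lit 9765390835) (.two (nat_lit 159232557235) (nat_lit 1853886932) (.two (nat_lit 9867100185) (nat_lit 16783581) (.two (nat_lit 620757000) (nat_lit 705699213) (.two (nat_lit 620756996) (nat_lit 2105890) (.two (nat_lit 721420290) (nat_lit 18933097514) (.two (nat_lit 2097153) (nat_lit 1058373) (.two (nat_lit 8388608) (nat_lit 2107189) (.one (nat_lit 10016008099) .nil))))))))),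
   .two (nat_lit 1417675570) (nat_lit 117442708) (.two (nat_lit 205521336) (nat_lit 620760339) (.two (nat_lit 612368452) (nat_lit 16782379) (.two (nat_lit 352321562) (nat_lit 1054942) (.two (nat_lit 8388616) (nat_lit 1056453) (.two (nat_lit 1178599428) (nat_lit 8397347) (.two (nat_lit 9768534019) (nat_lit 2994742254) (.two (nat_lit 37748737) (nat_lit 880813548) (.two (nat_lit 4194304) (nat_lit 8398646) (.one (nat_lit 1058765) .nil))))))))),
   .two (nat_lit 3527410481) (nat_lit 3003123251) (.two (nat_lit 13237223863) (nat_lit 2923432432) (.two (nat_lit 3527409732) (nat_lit 28806484463) (.two (nat_lit 4647288858) (nat_lit 158179792474) (.two (nat_lit 37748744) (nat_lit 156481100564) (.two (nat_lit 285212676) (nat_lit 156969738474) (.two (nat_lit 2887778306) (nat_lit 19142812507) (.two (nat_lit 37748737) (nat_lit 1761617351) (.two (nat_lit 2097152) (nat_lit 4204265) (.one (nat_lit 2107342) .nil))))))))),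
   .two (nat_lit 4030726962) (nat_lit 10907290096) (.two (nat_lit 673185860) (nat_lit 1929384408) (.two (nat_lit 4647288858) (nat_lit 809506400) (.two (nat_lit 742391816) (nat_lit 1929388271) (.two (nat_lit 2889875458) (nat_lit 10552877915) (.two (nat_lit 2097153) (nat_lit 4204016) (.two (nat_lit 2097152) (nat_lit 4204266) (.one (nat_lit 2107261) .nil))))))),
   .two (nat_lit 780141362) (nat_lit 135268851) (.two (nat_lit 142606404) (nat_lit 1276121577) (.two (nat_lit 3036676123) (nat_lit 166237050458) (.two (nat_lit 41943048) (nat_lit 19127081750) (.two (nat_lit 41943044) (nat_lit 101720321) (.two (nat_lit 11492392962) (nat_lit 2894078983) (.two (nat_lit 50331649) (nat_lit 166229714373) (.two (nat_lit 1048576) (nat_lit 8398571) (.one (nat_lit 47588583319) .nil)))))))),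
   .two (nat_lit 4647289650) (nat_lit 157038936882) (.two (nat_lit 157038936504) (nat_lit 166130092530) (.two (nat_lit 3527409732) (nat_lit 706743774) (.two (nat_lit 3525312536) (nat_lit 4200035) (.two (nat_lit 813694984) (nat_lit 104865140) (.two (nat_lit 2889875460) (nat_lit 1411391718) (.two (nat_lit 11484004355) (nat_lit 2889884662) (.two (nat_lit 2097153) (nat_lit 4204102) (.two (nat_lit 2097152) (nat_lit 8398572) (.one (nat_lit 2107343) .nil))))))))),
   .two (nat_lit 3036676914) (nat_lit 2894071341) (.two (nat_lit 20644364990) (nat_lit 16779786) (.two (nat_lit 19545456914) (nat_lit 306187738) (.two (nat_lit 272629786) (nat_lit 156581762656) (.two (nat_lit 10519314440) (nat_lit 641736943) (.two (nat_lit 176160771) (nat_lit 205529946) (.two (nat_lit 8388609) (nat_lit 318777066) (.one (nat_lit 4204496) .nil))))))),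
   .two (nat_lit 46474986290) (nat_lit 2927625795) (.two (nat_lit 184416207287) (nat_lit 183953787380) (.two (nat_lit 47596961860) (nat_lit 158077030864) (.two (nat_lit 713031706) (nat_lit 2953845522) (.two (nat_lit 2887778308) (nat_lit 11551121645) (.two (nat_lit 2097155) (nat_lit 8397663) (.two (nat_lit 34603009) (nat_lit 185002370761) (.one (nat_lit 1058769) .nil))))))),
   .two (nat_lit 157038936881) (nat_lit 1417676350) (.two (nat_lit 673186231) (nat_lit 1346374143) (.two (nat_lit 9974054980) (nat_lit 2887782889) (.two (nat_lit 47548727323) (nat_lit 876616464) (.two (nat_lit 612368388) (nat_lit 807411953) (.two (nat_lit 47548727299) (nat_lit 3024102708) (.two (nat_lit 2097152) (nat_lit 4204343) (.one (nat_lit 2107346) .nil))))))),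
   .two (nat_lit 4601152306) (nat_lit 343934483) (.two (nat_lit 3464495798) (nat_lit 19597887998) (.two (nat_lit 4605345860) (nat_lit 2887782879) (.two (nat_lit 4601151512) (nat_lit 28087163669) (.two (nat_lit 13191086084) (nat_lit 2105892) (.two (nat_lit 169869314) (nat_lit 28693242879) (.two (nat_lit 2097153) (nat_lit 4204017) (.two (nat_lit 2097152) (nat_lit 4204344) (.one (nat_lit 2107347) .nil)))))))),
   .two (nat_lit 2323645234) (nat_lit 10335815213) (.two (nat_lit 185020187326) (nat_lit 184419355146) (.two (nat_lit 4601151556) (nat_lit 880807385) (.two (nat_lit 4601151512) (nat_lit 11584673374) (.two (nat_lit 158075977736) (nat_lit 3460307728) (.two (nat_lit 158075977732) (nat_lit 11614036212) (.two (nat_lit 13191086083) (nat_lit 8397891) (.two (nat_lit 37748737) (nat_lit 1058290) (.two (nat_lit 1048576) (nat_lit 4204269) (.one (nat_lit 1058772) .nil))))))))),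
   .two (nat_lit 10007610901) (nat_lit 1276118553) (.two (nat_lit 11618222520) (nat_lit 10369370625) (.two (nat_lit 352321604) (nat_lit 19537072591) (.two (nat_lit 713031706) (nat_lit 202382098) (.two (nat_lit 2887778308) (nat_lit 276832491) (.two (nat_lit 159224168451) (nat_lit 10906248178) (.two (nat_lit 34603009) (nat_lit 11484014063) (.two (nat_lit 1048576) (nat_lit 2107118) (.one (nat_lit 1058773) .nil)))))))),
   .two (nat_lit 10015998769) (nat_lit 10947135031) (.two (nat_lit 4605346486) (nat_lit 10540288514) (.two (nat_lit 4605345860) (nat_lit 270537173) (.two (nat_lit 176160795) (nat_lit 4200671) (.two (nat_lit 12050235400) (nat_lit 10955529594) (.two (nat_lit 41943044) (nat_lit 4202756) (.two (nat_lit 47555018755) (nat_lit 337650753) (.two (nat_lit 4194305) (nat_lit 13228844518) (.two (nat_lit 2097152) (nat_lit 4204271) (.one (nat_lit 2107350) .nil))))))))),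
   .two (nat_lit 158143087410) (nat_lit 158144136723) (.two (nat_lit 21208498870) (nat_lit 183920232961) (.two (nat_lit 8388676) (nat_lit 9766441426) (.two (nat_lit 159251431451) (nat_lit 13228841153) (.two (nat_lit 20638072840) (nat_lit 47581240719) (.two (nat_lit 166130089988) (nat_lit 9873400352) (.two (nat_lit 8388610) (nat_lit 1175462893) (.two (nat_lit 605028353) (nat_lit 1786783452) (.one (nat_lit 605038504) .nil)))))))),
   .two (nat_lit 2969568050) (nat_lit 183912893683) (.two (nat_lit 705692088) (nat_lit 16781965) (.two (nat_lit 169869337) (nat_lit 47596968728) (.two (nat_lit 4194312) (nat_lit 337649893) (.two (nat_lit 272629764) (nat_lit 807412727) (.two (nat_lit 4194306) (nat_lit 1191192031) (.two (nat_lit 4194305) (nat_lit 202385092) (.two (nat_lit 1048576) (nat_lit 9768544215) .nil))))))),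
   .two (nat_lit 157038936882) (nat_lit 9933163001) (.two (nat_lit 855638455) (nat_lit 9802091993) (.two (nat_lit 3527409732) (nat_lit 9866057913) (.two (nat_lit 4194340) (nat_lit 2104082) (.two (nat_lit 46978301960) (nat_lit 71311608) (.two (nat_lit 2887778308) (nat_lit 3540001626) (.two (nat_lit 2887778306) (nat_lit 4631569714) (.two (nat_lit 34603009) (nat_lit 156567086789) (.two (nat_lit 1048576) (nat_lit 2107255) (.one (nat_lit 1058808) .nil))))))))),
   .two (nat_lit 2988442417) (nat_lit 2894072317) (.two (nat_lit 606077368) (nat_lit 2936016348) (.two (nat_lit 68157619) (nat_lit 11022636634) (.two (nat_lit 11543773210) (nat_lit 608181010) (.two (nat_lit 2954887176) (nat_lit 2886738155) (.two (nat_lit 641728516) (nat_lit 159250392370) (.two (nat_lit 2097153) (nat_lit 4204254) (.two (nat_lit 1048576) (nat_lit 2107311) (.one (nat_lit 1058809) .nil)))))))),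
   .two (nat_lit 4647289650) (nat_lit 9902754310) (.two (nat_lit 157038936504) (nat_lit 69209563) (.two (nat_lit 184993972292) (nat_lit 4200658) (.two (nat_lit 780140571) (nat_lit 12150906213) (.two (nat_lit 46409973768) (nat_lit 3472892762) (.two (nat_lit 8388610) (nat_lit 4204007) (.two (nat_lit 2097153) (nat_lit 4204255) (.two (nat_lit 2097152) (nat_lit 4204464) (.one (nat_lit 2107386) .nil)))))))),
   .two (nat_lit 3525313330) (nat_lit 4601154793) (.two (nat_lit 13237223863) (nat_lit 135270856) (.two (nat_lit 157038936132) (nat_lit 10443823891) (.two (nat_lit 3525312520) (nat_lit 1182802153) (.two (nat_lit 2887778308) (nat_lit 2894078810) (.two (nat_lit 12047089667) (nat_lit 713041347) (.two (nat_lit 2097153) (nat_lit 9866061517) (.two (nat_lit 2097152) (nat_lit 156367857526) (.one (nat_lit 1058811) .nil)))))))),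
   .two (nat_lit 185035916819) (nat_lit 156566030851) (.two (nat_lit 19604177336) (nat_lit 1346375131) (.two (nat_lit 46477082692) (nat_lit 2103507) (.two (nat_lit 19027460121) (nat_lit 13221501712) (.two (nat_lit 16777224) (nat_lit 2105886) (.two (nat_lit 20644364292) (nat_lit 104866828) (.two (nat_lit 41943043) (nat_lit 13221504306) (.two (nat_lit 37748737) (nat_lit 2323654420) (.two (nat_lit 1048576) (nat_lit 2107313) (.one (nat_lit 2107388) .nil))))))))),
   .two (nat_lit 2420114226) (nat_lit 28790754593) (.two (nat_lit 874513081) (nat_lit 10007612889) (.two (nat_lit 874512564) (nat_lit 156573374045) (.two (nat_lit 679477275) (nat_lit 1782586764) (.two (nat_lit 46407876616) (nat_lit 13191094522) (.two (nat_lit 184986632196) (nat_lit 165528216410) (.two (nat_lit 18928893955) (nat_lit 10001327579) (.two (nat_lit 4194305) (nat_lit 184416216780) (.two (nat_lit 1048576) (nat_lit 46514841497) (.one (nat_lit 156968691686) .nil))))))))),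
   .two (nat_lit 9802090003) (nat_lit 9798945267) (.two (nat_lit 4030726583) (nat_lit 645927386) (.two (nat_lit 158143086660) (nat_lit 2994739389) (.two (nat_lit 169869337) (nat_lit 1350572818) (.two (nat_lit 156372041736) (nat_lit 9902760188) (.two (nat_lit 4194308) (nat_lit 2106421) (.two (nat_lit 176160771) (nat_lit 1058280) (.two (nat_lit 8388609) (nat_lit 606086866) (.two (nat_lit 1048576) (nat_lit 2107314) (.one (nat_lit 4634716127) .nil))))))))),
   .two (nat_lit 46414168882) (nat_lit 9948891648) (.two (nat_lit 1350566328) (nat_lit 21793608334) (.two (nat_lit 9934209051) (nat_lit 708844304) (.two (nat_lit 159232557064) (nat_lit 3022004461) (.two (nat_lit 620756996) (nat_lit 10907296808) (.two (nat_lit 184549378) (nat_lit 10909394387) (.two (nat_lit 4194305) (nat_lit 11611940551) (.two (nat_lit 2097152) (nat_lit 4204408) (.one (nat_lit 4204541) .nil)))))))),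
   .two (nat_lit 159224169266) (nat_lit 185020189950) (.two (nat_lit 12050235832) (nat_lit 109055451) (.two (nat_lit 2961178803) (nat_lit 10519319182) (.two (nat_lit 2961178650) (nat_lit 46422563610) (.two (nat_lit 2961178632) (nat_lit 19042148607) (.two (nat_lit 174753579012) (nat_lit 876618764) (.two (nat_lit 2097155) (nat_lit 4203828) (.two (nat_lit 4194305) (nat_lit 4599064271) (.two (nat_lit 1048576) (nat_lit 2107315) (.one (nat_lit 1058814) .nil))))))))),
   .two (nat_lit 21811430931) (nat_lit 1948256755) (.two (nat_lit 10001318328) (nat_lit 21785219605) (.two (nat_lit 2969567502) (nat_lit 4599059086) (.two (nat_lit 9948889115) (nat_lit 46406834964) (.two (nat_lit 10385096712) (nat_lit 19026419967) (.two (nat_lit 11492392964) (nat_lit 1057846) (.two (nat_lit 50331651) (nat_lit 1058281) (.two (nat_lit 9765388289) (nat_lit 11614037777) (.two (nat_lit 1048576) (nat_lit 2107316) (.one (nat_lit 16787454) .nil))))))))),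
   .two (nat_lit 165532402482) (nat_lit 11543776510) (.two (nat_lit 158077027000) (nat_lit 813698525) (.two (nat_lit 1279262900) (nat_lit 10519319182) (.two (nat_lit 2961178649) (nat_lit 47563414291) (.two (nat_lit 18928893960) (nat_lit 847258125) (.two (nat_lit 612368388) (nat_lit 16786487) (.two (nat_lit 34603011) (nat_lit 11614037300) (.two (nat_lit 34603009) (nat_lit 708847477) (.one (nat_lit 2889885676) .nil)))))))),
   .two (nat_lit 4605347347) (nat_lit 1051145) (.two (nat_lit 11610882488) (nat_lit 47555023381) (.two (nat_lit 9948889357) (nat_lit 159216833166) (.two (nat_lit 9948889115) (nat_lit 2920291098) (.two (nat_lit 83886088) (nat_lit 12047098098) (.two (nat_lit 2961178628) (nat_lit 10942948397) (.two (nat_lit 721420290) (nat_lit 71312873) (.two (nat_lit 34603009) (nat_lit 11611940570) (.two (nat_lit 1048576) (nat_lit 2107317) (.one (nat_lit 1058815) .nil))))))))),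
   .two (nat_lit 46978302770) (nat_lit 1782582548) (.two (nat_lit 706740930) (nat_lit 16780761) (.two (nat_lit 10506731588) (nat_lit 3003128002) (.two (nat_lit 46978301979) (nat_lit 687873420) (.two (nat_lit 37748744) (nat_lit 16785951) (.two (nat_lit 50331652) (nat_lit 2106424) (.two (nat_lit 1178599427) (nat_lit 16786922) (.two (nat_lit 2097153) (nat_lit 4204326) (.two (nat_lit 2097152) (nat_lit 4204470) (.one (nat_lit 156380440559) .nil))))))))),
   .two (nat_lit 47582283283) (nat_lit 37751298) (.two (nat_lit 21214790072) (nat_lit 159217881612) (.two (nat_lit 156367847492) (nat_lit 28087163666) (.two (nat_lit 47548727304) (nat_lit 3036684525) (.two (nat_lit 606076932) (nat_lit 16786489) (.two (nat_lit 3458203651) (nat_lit 183853131213) (.two (nat_lit 4194305) (nat_lit 11007960795) (.two (nat_lit 2097152) (nat_lit 4204471) (.one (nat_lit 2107392) .nil)))))))),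
   .two (nat_lit 4605346610) (nat_lit 12115249653) (.two (nat_lit 1350566328) (nat_lit 16780761) (.two (nat_lit 2954887348) (nat_lit 1962940000) (.two (nat_lit 9934209051) (nat_lit 272637279) (.two (nat_lit 41943048) (nat_lit 2105601) (.two (nat_lit 184549380) (nat_lit 4203578) (.two (nat_lit 4194306) (nat_lit 28798100942) (.two (nat_lit 4194305) (nat_lit 2887788250) (.two (nat_lit 2097152) (nat_lit 4204472) (.one (nat_lit 4204545) .nil))))))))),
   .two (nat_lit 10015998769) (nat_lit 3028290824) (.two (nat_lit 13195281077) (nat_lit 2886733278) (.two (nat_lit 620757060) (nat_lit 4200660) (.two (nat_lit 21818769444) (nat_lit 28705823505) (.two (nat_lit 41943048) (nat_lit 1916805376) (.two (nat_lit 41943044) (nat_lit 1057851) (.two (nat_lit 713031682) (nat_lit 1058283) (.two (nat_lit 4194305) (nat_lit 1058528) (.two (nat_lit 1048576) (nat_lit 4204473) (.one (nat_lit 1058818) .nil))))))))),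
   .two (nat_lit 28757197618) (nat_lit 174753581553) (.two (nat_lit 168821442) (nat_lit 1325403616) (.two (nat_lit 158144135236) (nat_lit 4200661) (.two (nat_lit 169869337) (nat_lit 16784785) (.two (nat_lit 2887778312) (nat_lit 174701158646) (.two (nat_lit 203423748) (nat_lit 18925757434) (.two (nat_lit 2969567235) (nat_lit 4204012) (.two (nat_lit 2097153) (nat_lit 4204327) (.two (nat_lit 4194304) (nat_lit 10385106833) (.one (nat_lit 16787459) .nil)))))))))]

theorem k4 : chkL tab c4 (nat_lit 8400) = true := by decide +kernel

theorem l4 : c4.length = 1862 := by decide +kernel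

end K5

end Pool.Agent.Work.MP_bf01b2_co.MR
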