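import Pool.Agent.Work.MP_bf01b2_co.MR.K5P0
import Pool.Agent.Work.MP_bf01b2_co.MR.K5P1

/-!
# Five roots in `Q_5`: total size 20

All forests with five roots and at most 20 vertices embed in `Q_5` (for all positions of the roots),
except that nothing is claimed if a root with at least 3 vertices has four roots among its
neighbours, or if a root with at least 7 vertices has three roots with at least 3 vertices among
its neighbours.
-/

set_option autoImplicit false

namespace Pool.Agent.Work.MP_bf01b2_co.MR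

namespace K5

open Tab Exc

theorem all5 {b c d e : ℕ} (h0 : 0 < b) (hbc : b < c) (hcd : c < d) (hde : d < e)
    (he : e < 32) : CB Bd (maskL [0, b, c, d, e]) 20 := by
  have hb : b < 29 := by omega
  interval_cases b
  · exact qd_ok Bd_inv rep_ok qq1 hbc hcd hde he
  · exact qd_ok Bd_inv rep_ok qq2 hbc hcd hde he
  · exact qd_ok Bd_inv rep_ok qq3 hbc hcd hde he
  · exact qd_ok Bd_inv rep_ok qq4 hbc hcd hde he
  · exact qd_ok Bd_inv rep_ok qq5 hbc hcd hde he
  · exact qd_ok Bd_inv rep_ok qq6 hbc hcd hde he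
  · exact qd_ok Bd_inv rep_ok qq7 hbc hcd hde he
  · exact qd_ok Bd_inv rep_ok qq8 hbc hcd hde he
  · exact qd_ok Bd_inv rep_ok qq9 hbc hcd hde he
  · exact qd_ok Bd_inv rep_ok qq10 hbc hcd hde he
  · exact qd_ok Bd_inv rep_ok qq11 hbc hcd hde he
  · exact qd_ok Bd_inv rep_ok qq12 hbc hcd hde he
  · exact qd_ok Bd_inv rep_ok qq13 hbc hcd hde he
  · exact qd_ok Bd_inv rep_ok qq14 hbc hcd hde he
  · exact qd_ok Bd_inv rep_ok qq15 hbc hcd hde he
  · exact qd_ok Bd_inv rep_ok qq16 hbc hcd hde he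
  · exact qd_ok Bd_inv rep_ok qq17 hbc hcd hde he
  · exact qd_ok Bd_inv rep_ok qq18 hbc hcd hde he
  · exact qd_ok Bd_inv rep_ok qq19 hbc hcd hde he
  · exact qd_ok Bd_inv rep_ok qq20 hbc hcd hde he
  · exact qd_ok Bd_inv rep_ok qq21 hbc hcd hde he
  · exact qd_ok Bd_inv rep_ok qq22 hbc hcd hde he
  · exact qd_ok Bd_inv rep_ok qq23 hbc hcd hde he
  · exact qd_ok Bd_inv rep_ok qq24 hbc hcd hde he
  · exact qd_ok Bd_inv rep_ok qq25 hbc hcd hde he
  · exact qd_ok Bd_inv rep_ok qq26 hbc hcd hde he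
  · exact qd_ok Bd_inv rep_ok qq27 hbc hcd hde he
  · exact qd_ok Bd_inv rep_ok qq28 hbc hcd hde he

/-- the exceptions of a list of marks -/
theorem Bd_list {ms : List ((Fin 5 → Bool) × ℕ)} {k : ℕ → ℕ}
    (hk : ∀ a ∈ ms, k (encV a.1) + 1 = a.2)
    (h : Bd (maskL (ms.map fun a => encV a.1)) k) : BdL ms := by
  classical
  have hmem : ∀ z, (maskL (ms.map fun a => encV a.1)).testBit z = true →
      ∃ a ∈ ms, encV a.1 = z := by
    intro z hz
    rw [testBit_maskL] at hz
    exact List.mem_map.1 hz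
  have hdec : ∀ a : (Fin 5 → Bool), decV 5 (encV a) = a := fun a => dec_enc a
  have hcard : ∀ Z : Finset ℕ, (∀ z ∈ Z, (maskL (ms.map fun a => encV a.1)).testBit z = true) →
      (Z.image (decV 5)).card = Z.card := by
    intro Z hZ
    apply Finset.card_image_of_injOn
    intro x hx y hy hxy
    obtain ⟨a, _, rfl⟩ := hmem x (hZ x hx)
    obtain ⟨b, _, rfl⟩ := hmem y (hZ y hy)
    rw [hdec, hdec] at hxy
    rw [hxy]
  rcases h with ⟨c, h1, h2, Z, h3, h4⟩ | ⟨c, h1, h2, Z, h3, h4⟩
  · left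
    obtain ⟨a, ha, rfl⟩ := hmem c h1
    refine ⟨a, ha, by have := hk a ha; omega, Z.image (decV 5), ?_, ?_⟩
    · rw [hcard Z fun z hz => (h4 z hz).1, h3]
    · intro z hz
      obtain ⟨y, hy, rfl⟩ := Finset.mem_image.1 hz
      obtain ⟨h5, h6⟩ := h4 y hy
      obtain ⟨b, hb, rfl⟩ := hmem y h5
      have h7 := cadj_dec h6
      rw [hdec] at h7
      refine ⟨h7, b.2, ?_⟩
      rw [hdec]
      exact hb
  · right
    obtain ⟨a, ha, rfl⟩ := hmem c h1
    refine ⟨a, ha, by have := hk a ha; omega, Z.image (decV 5), ?_, ?_⟩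
    · rw [hcard Z fun z hz => (h4 z hz).1, h3]
    · intro z hz
      obtain ⟨y, hy, rfl⟩ := Finset.mem_image.1 hz
      obtain ⟨h5, h6, h8⟩ := h4 y hy
      obtain ⟨b, hb, rfl⟩ := hmem y h5
      have h7 := cadj_dec h6
      rw [hdec] at h7
      refine ⟨h7, b.2, by have := hk b hb; omega, ?_⟩
      rw [hdec]
      exact hb

end K5

open K5 Exc Tab in
/-- **Five roots in `Q_5`.** -/
theorem hf5_five (ms : List ((Fin 5 → Bool) × ℕ)) (hnd : (ms.map Prod.fst).Nodup)
    (hlen : ms.length = 5) (hN : (ms.map Prod.snd).sum ≤ 20) (hb : ¬ BdL ms) :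
    HF (cadj 5) Finset.univ ms := by
  have hinj : Function.Injective (encV (m := 5)) := fun a b hab => by
    rw [← dec_enc a, hab, dec_enc]
  have hnd' : (ms.map fun a => encV a.1).Nodup := by
    have : ms.map (fun a => encV a.1) = (ms.map Prod.fst).map encV := by
      rw [List.map_map]; rfl
    rw [this]
    exact hnd.map hinj
  have hlt : ∀ z ∈ ms.map (fun a => encV a.1), z < 32 := by
    intro z hz
    obtain ⟨a, _, rfl⟩ := List.mem_map.mp hz
    exact encV_lt a.1
  have hCB : CB Bd (maskL (ms.map fun a => encV a.1)) 20 := by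
    match ms, hlen, hnd', hlt with
    | [a, b, c, d, e], _, hnd', hlt =>
      exact quint_ok Bd_inv (fun b c d e => all5) hnd' hlt
  exact CB.toHF hCB (maskL_lt hlt) ms hnd (fun _ => testBit_maskL.symm) hN
    (fun k hk h => hb (Bd_list hk h))

end Pool.Agent.Work.MP_bf01b2_co.MR
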