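import Pool.Agent.Work.MP_bf01b2_co.MR.K5S
import Pool.Agent.Work.MP_bf01b2_co.MR.K5D0
import Pool.Agent.Work.MP_bf01b2_co.MR.K5D1
import Pool.Agent.Work.MP_bf01b2_co.MR.K5D2
import Pool.Agent.Work.MP_bf01b2_co.MR.K5D3

/-!
# Five roots in `Q_5`: all classes of positions
-/

set_option autoImplicit false
set_option maxRecDepth 100000

namespace Pool.Agent.Work.MP_bf01b2_co.MR

namespace K5

open Tab Exc

/-- the masks of the representatives, 32 bits each -/
def repm : ℕ := nat_lit 0x2408041018080810118800100828401008181010018a00100189001001882010018810100186001001828010018240100168001000a9001000a6001000a50010009a00100099001000960010008a011000890110008824100088111000870010008304100082441000822410008214100082121000780010006a0010006900100068011000680030006600100062041000620090003c0010003800500034009000340030002c0810002c0410002c00500028881000284810002844100028241000281810002814100028045000280150002488100024481000244410002428100024241000241810002414100024029000240190002400d00022881000218810002148100021441000208910002068100020581000204a100020491000204610002038100020341000202c1000202850002024900020229000188810001828100018241000181810001808300018029000180190001800b000180070001288100011881000108a100010891000108830001068100010381000102c10001028900010285000102490001024300010229000101890001018300010129000101190000188900001681000009a10000099100000781000006a10000069100000661000003c1000002c500000299000002950000026900000259000002550000022d000001a9000001990000018b00000187000001690000012d0000011b000001170000006b0000003d0000001f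

/-- all representatives -/
def repl : List (List ℕ) := reps0 ++ reps1 ++ reps2 ++ reps3

theorem repl_ok : ∀ zs ∈ repl, CB Bd (maskL zs) 20 := by
  intro zs hz
  unfold repl at hz
  simp only [List.mem_append] at hz
  rcases hz with ((h | h) | h) | h
  · exact all0 zs h
  · exact all1 zs h
  · exact all2 zs h
  · exact all3 zs h

theorem rep_chk : ((List.range 131).all fun i => repl.any fun zs => Nat.beq (rep repm i) (maskL zs)) =
    true := by decide +kernel

theorem rep_ok : ∀ i < 131, CB Bd (rep repm i) 20 := by
  intro i hi
  have h1 := List.all_eq_true.1 rep_chk i (List.mem_range.2 hi)
  obtain ⟨zs, h2, h3⟩ := List.any_eq_true.1 h1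
  rw [Nat.eq_of_beq_eq_true h3]
  exact repl_ok zs h2

end K5

end Pool.Agent.Work.MP_bf01b2_co.MR
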