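import Pool.Agent.Work.MP_bf01b2_co.MR.K5B

/-!
# Five roots in `Q_5`: the exceptions

The exceptional forests: a root with four roots among its neighbours and at least `3` vertices, or
a root with at least `7` vertices and three roots with at least `3` vertices among its neighbours.
-/

set_option autoImplicit false

namespace Pool.Agent.Work.MP_bf01b2_co.MR

namespace K5

open Tab Exc

/-- the exceptions -/
def Bd (S : ℕ) (k : ℕ → ℕ) : Prop :=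
  (∃ c, S.testBit c = true ∧ 2 ≤ k c ∧ ∃ Z : Finset ℕ, Z.card = 4 ∧
    ∀ z ∈ Z, S.testBit z = true ∧ ncadj 5 c z) ∨
  (∃ c, S.testBit c = true ∧ 6 ≤ k c ∧ ∃ Z : Finset ℕ, Z.card = 3 ∧
    ∀ z ∈ Z, S.testBit z = true ∧ ncadj 5 c z ∧ 2 ≤ k z)

theorem Bd_inv : AInv Bd := by
  intro e he S S' k _ _ hS h
  rcases h with ⟨c, h1, h2, Z, h3, h4⟩ | ⟨c, h1, h2, Z, h3, h4⟩
  · left
    refine ⟨e c, by rw [hS]; exact h1, h2, Z.map e.toEmbedding, by rw [Finset.card_map, h3], ?_⟩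
    intro z hz
    obtain ⟨y, hy, rfl⟩ := Finset.mem_map.1 hz
    obtain ⟨h5, h6⟩ := h4 y hy
    refine ⟨?_, he _ _ h6⟩
    show S'.testBit (e y) = true
    rw [hS]
    exact h5
  · right
    refine ⟨e c, by rw [hS]; exact h1, h2, Z.map e.toEmbedding, by rw [Finset.card_map, h3], ?_⟩
    intro z hz
    obtain ⟨y, hy, rfl⟩ := Finset.mem_map.1 hz
    obtain ⟨h5, h6, h7⟩ := h4 y hy
    refine ⟨?_, he _ _ h6, h7⟩
    show S'.testBit (e y) = true
    rw [hS]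
    exact h5

/-- the fact for a class, from its certificate -/
theorem cb {T lim : ℕ} (hT : ∀ i < lim, Good T i) {sp : List ℕ → Bool} {z0 : ℕ} {zs Ps : List ℕ}
    {M N D : ℕ} (h : Bm.cls T lim sp (z0 :: zs) Ps M N D = true)
    (hPs : Ps = (z0 :: zs).map fun _ => 0) (hnd : (z0 :: zs).Nodup)
    (hz : ∀ z ∈ z0 :: zs, z < 32) (hM : M ≤ 512) {B : ℕ → (ℕ → ℕ) → Prop}
    (hsp : ∀ (k : ℕ → ℕ) (n0 : ℕ), k z0 + 1 ≤ n0 →
      sp (n0 :: (zs.map fun z => k z + 1).reverse) = true →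
      NF 5 FULL 0 (mkL k (z0 :: zs)) ∨ B (maskL (z0 :: zs)) k) :
    CB B (maskL (z0 :: zs)) N := by
  refine CB.of_cls hnd hz fun k hk hb => ?_
  rcases Bm.cls_ok hT hPs hz hM h k hk with h1 | ⟨n0, h1, h2⟩
  · exact h1
  · rcases hsp k n0 h1 h2 with h3 | h3
    · exact h3
    · exact absurd h3 hb

/-- classes without exceptions -/
theorem cb0 {T lim : ℕ} (hT : ∀ i < lim, Good T i) {z0 : ℕ} {zs Ps : List ℕ} {M N D : ℕ}
    (h : Bm.cls T lim (fun _ => false) (z0 :: zs) Ps M N D = true)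
    (hPs : Ps = (z0 :: zs).map fun _ => 0) (hnd : (z0 :: zs).Nodup)
    (hz : ∀ z ∈ z0 :: zs, z < 32) (hM : M ≤ 512) (B : ℕ → (ℕ → ℕ) → Prop) :
    CB B (maskL (z0 :: zs)) N :=
  cb hT h hPs hnd hz hM (fun _ _ _ h => absurd h (by simp))

/-- the list `[_, a, b, c, d]` with `3 ≤ d` -/
noncomputable def bad4 (l : List ℕ) : Bool := Nat.ble 3 (l.getD 4 0)

/-- the list `[_, a, b, c, d]` with `7 ≤ d` and `3 ≤ a, b, c` -/
noncomputable def bad3 (l : List ℕ) : Bool :=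
  nd (Nat.ble 7 (l.getD 4 0)) (nd (Nat.ble 3 (l.getD 1 0)) (nd (Nat.ble 3 (l.getD 2 0))
    (Nat.ble 3 (l.getD 3 0))))

theorem bad3_ok {k : ℕ → ℕ} {n0 z0 p a b c : ℕ}
    (h : bad3 (n0 :: ([p, a, b, c].map fun z => k z + 1).reverse) = true)
    (ha : ncadj 5 p a) (hb : ncadj 5 p b) (hc : ncadj 5 p c) (hn : [a, b, c].Nodup) :
    Bd (maskL [z0, p, a, b, c]) k := by
  have h' : nd (Nat.ble 7 (k p + 1)) (nd (Nat.ble 3 (k c + 1)) (nd (Nat.ble 3 (k b + 1))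
    (Nat.ble 3 (k a + 1)))) = true := h
  rw [nd_iff, nd_iff, nd_iff] at h'
  obtain ⟨h1, h2, h3, h4⟩ := h'
  have h1 := Nat.le_of_ble_eq_true h1
  have h2 := Nat.le_of_ble_eq_true h2
  have h3 := Nat.le_of_ble_eq_true h3
  have h4 := Nat.le_of_ble_eq_true h4
  right
  refine ⟨p, testBit_maskL.2 (by simp), by omega, [a, b, c].toFinset,
    List.toFinset_card_of_nodup hn, ?_⟩
  intro z hz
  rw [List.mem_toFinset, List.mem_cons, List.mem_cons, List.mem_singleton] at hz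
  refine ⟨testBit_maskL.2 ?_, ?_⟩
  · simp only [List.mem_cons]
    tauto
  · rcases hz with rfl | rfl | rfl
    · exact ⟨ha, by omega⟩
    · exact ⟨hb, by omega⟩
    · exact ⟨hc, by omega⟩

theorem bad4_ok {k : ℕ → ℕ} {n0 p a b c d : ℕ}
    (h : bad4 (n0 :: ([p, a, b, c].map fun z => k z + 1).reverse) = true)
    (ha : ncadj 5 p a) (hb : ncadj 5 p b) (hc : ncadj 5 p c) (hd : ncadj 5 p d)
    (hn : [a, b, c, d].Nodup) : Bd (maskL [d, p, a, b, c]) k := by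
  have h1 : Nat.ble 3 (k p + 1) = true := h
  have h1 := Nat.le_of_ble_eq_true h1
  left
  refine ⟨p, testBit_maskL.2 (by simp), by omega, [a, b, c, d].toFinset,
    List.toFinset_card_of_nodup hn, ?_⟩
  intro z hz
  rw [List.mem_toFinset, List.mem_cons, List.mem_cons, List.mem_cons, List.mem_singleton] at hz
  refine ⟨testBit_maskL.2 ?_, ?_⟩
  · simp only [List.mem_cons]
    tauto
  · rcases hz with rfl | rfl | rfl | rfl <;> assumption

theorem adj0 {i : ℕ} (hi : i < 5) : ncadj 5 0 (2 ^ i) := ⟨i, hi, by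
  show 2 ^ i = 0 ^^^ 2 ^ i
  rw [Nat.zero_xor]⟩

theorem reo {a b c d e : ℕ} (h : GF FULL [0, 3, 4, 8, 16] [a, b, c, d, e]) :
    GF FULL [3, 16, 8, 4, 0] [b, e, d, c, a] := by
  intro k hk
  obtain ⟨h1, h2, h3, h4, h5, _⟩ := hk
  refine NF.congr ?_ (h k ⟨h5, h1, h4, h3, h2, trivial⟩)
  intro m
  rw [mem_mkL, mem_mkL]
  simp only [List.mem_cons, List.not_mem_nil, or_false]
  tauto

/-- list version of the exceptions -/
def BdL (ms : List ((Fin 5 → Bool) × ℕ)) : Prop :=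
  (∃ a ∈ ms, 3 ≤ a.2 ∧ ∃ Z : Finset (Fin 5 → Bool), Z.card = 4 ∧
    ∀ z ∈ Z, cadj 5 a.1 z ∧ ∃ s, (z, s) ∈ ms) ∨
  (∃ a ∈ ms, 7 ≤ a.2 ∧ ∃ Z : Finset (Fin 5 → Bool), Z.card = 3 ∧
    ∀ z ∈ Z, cadj 5 a.1 z ∧ ∃ s, 3 ≤ s ∧ (z, s) ∈ ms)

end K5

end Pool.Agent.Work.MP_bf01b2_co.MR
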