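import Pool.Agent.Work.MP_bf01b2_co.MR.K6T

/-!
# Stars in `Q_5`: certificates of the entries 0 to 299
-/

set_option autoImplicit false
set_option maxRecDepth 100000

namespace Pool.Agent.Work.MP_bf01b2_co.MR

namespace K6

open JT

/-- certificates of the entries 0 to 299 -/
def c0 : List Rc :=
  [.nil,
   .one (nat_lit 1048576) .nil,
   .two (nat_lit 1048576) (nat_lit 2097153) .nil,
   .two (nat_lit 4194304) (nat_lit 34603009) .nil,
   .two (nat_lit 1048576) (nat_lit 2097153) (.one (nat_lit 34603011) .nil),
   .two (nat_lit 8388608) (nat_lit 705691650) .nil,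
   .two (nat_lit 4194304) (nat_lit 11543773187) .nil,
   .two (nat_lit 4194304) (nat_lit 3525312515) .nil,
   .two (nat_lit 2097153) (nat_lit 605028353) (.two (nat_lit 2097152) (nat_lit 705691650) (.one (nat_lit 705691652) .nil)),
   .two (nat_lit 2097153) (nat_lit 9765388289) (.two (nat_lit 1048576) (nat_lit 2954887171) (.one (nat_lit 806354950) .nil)),
   .two (nat_lit 2097153) (nat_lit 9765388289) (.two (nat_lit 2097152) (nat_lit 11543773187) (.one (nat_lit 11543773190) .nil)),
   .two (nat_lit 16777217) (nat_lit 156372041729) (.two (nat_lit 8388608) (nat_lit 1191182339) (.one (nat_lit 11492392967) .nil)),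
   .two (nat_lit 41943041) (nat_lit 10506731523) (.one (nat_lit 20707278855) .nil),
   .two (nat_lit 37748737) (nat_lit 739246084) .nil,
   .two (nat_lit 34603009) (nat_lit 612368385) (.two (nat_lit 8388608) (nat_lit 11543773188) .nil),
   .two (nat_lit 2097153) (nat_lit 620756993) (.two (nat_lit 16777216) (nat_lit 9934209028) .nil),
   .two (nat_lit 16777217) (nat_lit 612368385) (.two (nat_lit 8388608) (nat_lit 50331652) .nil),
   .two (nat_lit 4194305) (nat_lit 9781116929) (.two (nat_lit 16777216) (nat_lit 4601151492) .nil),
   .two (nat_lit 2097153) (nat_lit 41943041) (.two (nat_lit 8388608) (nat_lit 159217876996) .nil),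
   .two (nat_lit 4194305) (nat_lit 9765388289) (.two (nat_lit 4194304) (nat_lit 19093520389) .nil),
   .two (nat_lit 4194305) (nat_lit 156365750273) (.two (nat_lit 2097152) (nat_lit 46980399108) .nil),
   .two (nat_lit 605028353) (nat_lit 159217876995) (.one (nat_lit 47548727303) .nil),
   .two (nat_lit 2097153) (nat_lit 37748737) (.two (nat_lit 4194304) (nat_lit 639631367) .nil),
   .two (nat_lit 2097153) (nat_lit 4194308) (.one (nat_lit 705691656) .nil),
   .two (nat_lit 605028353) (nat_lit 169869314) (.two (nat_lit 8388608) (nat_lit 705691656) .nil),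
   .two (nat_lit 605028353) (nat_lit 2954887172) (.one (nat_lit 705691656) .nil),
   .two (nat_lit 37748737) (nat_lit 11543773188) (.one (nat_lit 68157448) .nil),
   .two (nat_lit 4194305) (nat_lit 156365750273) (.two (nat_lit 2097152) (nat_lit 4634705925) .nil),
   .two (nat_lit 4194305) (nat_lit 156365750273) (.two (nat_lit 2097152) (nat_lit 156535619591) .nil),
   .two (nat_lit 8388609) (nat_lit 705691652) (.one (nat_lit 270532621) .nil),
   .two (nat_lit 2097153) (nat_lit 1343225862) (.one (nat_lit 11543773193) .nil),
   .two (nat_lit 37748737) (nat_lit 11543773190) (.one (nat_lit 2954887177) .nil),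
   .two (nat_lit 8388609) (nat_lit 169869316) (.one (nat_lit 705691662) .nil),
   .two (nat_lit 2097153) (nat_lit 1343225859) (.two (nat_lit 2097152) (nat_lit 11543773192) .nil),
   .two (nat_lit 4194305) (nat_lit 739246088) .nil,
   .two (nat_lit 606076929) (nat_lit 739246088) .nil,
   .two (nat_lit 37748737) (nat_lit 739246088) .nil,
   .two (nat_lit 34603009) (nat_lit 272629763) (.two (nat_lit 4194304) (nat_lit 11543773192) .nil),
   .two (nat_lit 612368385) (nat_lit 11543773192) .nil,
   .two (nat_lit 156367847425) (nat_lit 10385096710) (.one (nat_lit 16777228) .nil),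
   .two (nat_lit 9765388289) (nat_lit 713031684) (.one (nat_lit 165532401676) .nil),
   .two (nat_lit 606076929) (nat_lit 1753219076) (.one (nat_lit 3028287500) .nil),
   .two (nat_lit 156365750273) (nat_lit 9866051592) .nil,
   .two (nat_lit 2097153) (nat_lit 11492392964) (.one (nat_lit 184417255442) .nil),
   .two (nat_lit 16777217) (nat_lit 20644364290) (.two (nat_lit 1048576) (nat_lit 174759870468) (.one (nat_lit 9948889108) .nil)),
   .two (nat_lit 2097153) (nat_lit 171966467) (.two (nat_lit 1048576) (nat_lit 1411383302) (.one (nat_lit 4194325) .nil)),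
   .two (nat_lit 4194305) (nat_lit 9934209027) (.two (nat_lit 8388608) (nat_lit 606076933) (.one (nat_lit 3021996047) .nil)),
   .two (nat_lit 8388609) (nat_lit 166132187140) (.one (nat_lit 3560964114) .nil),
   .two (nat_lit 16777217) (nat_lit 11479810056) .nil,
   .two (nat_lit 612368385) (nat_lit 46409973768) .nil,
   .two (nat_lit 16777217) (nat_lit 21208498180) (.one (nat_lit 337641484) .nil),
   .two (nat_lit 41943041) (nat_lit 705691652) (.one (nat_lit 1048598) .nil),
   .two (nat_lit 16777217) (nat_lit 184416206851) (.two (nat_lit 16777216) (nat_lit 1745879048) .nil),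
   .two (nat_lit 2097153) (nat_lit 809500675) (.two (nat_lit 1048576) (nat_lit 606076932) (.one (nat_lit 47548727305) .nil)),
   .two (nat_lit 34603009) (nat_lit 19599982600) .nil,
   .two (nat_lit 156364701697) (nat_lit 165526110212) (.one (nat_lit 3458203670) .nil),
   .two (nat_lit 620756993) (nat_lit 9934209032) .nil,
   .two (nat_lit 4194306) (nat_lit 806354947) (.two (nat_lit 2097153) (nat_lit 605028357) (.two (nat_lit 1048576) (nat_lit 606076936) (.one (nat_lit 705691672) .nil))),
   .two (nat_lit 8388609) (nat_lit 705691657) .nil,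
   .two (nat_lit 8388609) (nat_lit 169869322) .nil,
   .two (nat_lit 41943041) (nat_lit 705691657) .nil,
   .two (nat_lit 41943041) (nat_lit 169869322) .nil,
   .two (nat_lit 41943041) (nat_lit 4194314) .nil,
   .two (nat_lit 2097153) (nat_lit 809500675) (.two (nat_lit 4194304) (nat_lit 2954887172) (.one (nat_lit 708837390) .nil)),
   .two (nat_lit 8388609) (nat_lit 809500682) .nil,
   .two (nat_lit 50331649) (nat_lit 28757196803) (.two (nat_lit 1048576) (nat_lit 620756996) (.one (nat_lit 3524263956) .nil)),
   .two (nat_lit 620756993) (nat_lit 183949590537) .nil,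
   .two (nat_lit 34603009) (nat_lit 10519314436) (.one (nat_lit 638582800) .nil),
   .two (nat_lit 606076929) (nat_lit 1753219076) (.one (nat_lit 184417255441) .nil),
   .two (nat_lit 16777217) (nat_lit 2988441605) (.one (nat_lit 9900654608) .nil),
   .two (nat_lit 34603009) (nat_lit 46409973763) (.two (nat_lit 8388608) (nat_lit 10000269318) (.one (nat_lit 1048604) .nil)),
   .two (nat_lit 156367847425) (nat_lit 21223178251) .nil,
   .two (nat_lit 612368385) (nat_lit 21223178251) .nil,
   .two (nat_lit 37748737) (nat_lit 13221494789) (.one (nat_lit 46406828052) .nil),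
   .two (nat_lit 9765388289) (nat_lit 19033751563) .nil,
   .two (nat_lit 606076929) (nat_lit 4613734411) .nil,
   .two (nat_lit 16777217) (nat_lit 1279262732) .nil,
   .two (nat_lit 9781116929) (nat_lit 339738634) .nil,
   .two (nat_lit 41943041) (nat_lit 19597885451) .nil,
   .two (nat_lit 41943041) (nat_lit 184987680780) .nil,
   .two (nat_lit 8388609) (nat_lit 11610882057) .nil,
   .two (nat_lit 16777217) (nat_lit 205520906) .nil,
   .two (nat_lit 34603009) (nat_lit 46984593419) .nil,
   .two (nat_lit 37748737) (nat_lit 19093520389) (.one (nat_lit 183845781520) .nil),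
   .two (nat_lit 169869314) (nat_lit 1779433476) (.two (nat_lit 1048576) (nat_lit 169869322) (.one (nat_lit 705691677) .nil)),
   .two (nat_lit 4194306) (nat_lit 2887778306) (.two (nat_lit 2097153) (nat_lit 272629764) (.two (nat_lit 2097152) (nat_lit 4194314) (.one (nat_lit 169869344) .nil))),
   .two (nat_lit 9948889091) (nat_lit 9768534019) (.two (nat_lit 37748737) (nat_lit 158158815242) (.one (nat_lit 4647288871) .nil)),
   .two (nat_lit 176160771) (nat_lit 9781116932) (.two (nat_lit 8388608) (nat_lit 12062818315) (.one (nat_lit 2936012840) .nil)),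
   .two (nat_lit 705691650) (nat_lit 11479810050) (.two (nat_lit 34603009) (nat_lit 809500676) (.two (nat_lit 1048576) (nat_lit 28760342539) (.one (nat_lit 1849688108) .nil))),
   .two (nat_lit 183853121538) (nat_lit 165526110211) (.two (nat_lit 2097153) (nat_lit 2424307722) (.one (nat_lit 1350565938) .nil)),
   .two (nat_lit 9948889091) (nat_lit 1745879043) (.two (nat_lit 605028353) (nat_lit 184549380) (.two (nat_lit 16777216) (nat_lit 806354955) (.one (nat_lit 10921967662) .nil))),
   .two (nat_lit 1277165570) (nat_lit 159224168451) (.two (nat_lit 606076929) (nat_lit 75497476) (.two (nat_lit 2097152) (nat_lit 3531603979) (.one (nat_lit 2988441641) .nil))),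
   .two (nat_lit 620756993) (nat_lit 158075977745) .nil,
   .two (nat_lit 156367847425) (nat_lit 2969567251) .nil,
   .two (nat_lit 9781116929) (nat_lit 270532627) .nil,
   .two (nat_lit 34603011) (nat_lit 1283457027) (.two (nat_lit 2097153) (nat_lit 9933160454) (.two (nat_lit 2097152) (nat_lit 2956984333) (.one (nat_lit 35651643) .nil))),
   .two (nat_lit 4194306) (nat_lit 1175453700) (.two (nat_lit 8388608) (nat_lit 68157448) (.one (nat_lit 2956984356) .nil)),
   .two (nat_lit 4194306) (nat_lit 8388611) (.two (nat_lit 8388609) (nat_lit 606076936) (.one (nat_lit 608174144) .nil)),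
   .two (nat_lit 272629763) (nat_lit 639631363) (.two (nat_lit 605028353) (nat_lit 1344274438) (.two (nat_lit 1048576) (nat_lit 69206030) (.one (nat_lit 1048638) .nil))),
   .two (nat_lit 270532611) (nat_lit 809500675) (.two (nat_lit 34603009) (nat_lit 1344274438) (.two (nat_lit 1048576) (nat_lit 708837414) .nil)),
   .two (nat_lit 41943043) (nat_lit 606076932) (.two (nat_lit 4194304) (nat_lit 11484004390) .nil),
   .two (nat_lit 41943043) (nat_lit 169869314) (.two (nat_lit 41943041) (nat_lit 169869322) (.one (nat_lit 11484004390) .nil)),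
   .two (nat_lit 605028355) (nat_lit 11484004355) (.two (nat_lit 8388609) (nat_lit 11543773193) (.one (nat_lit 2097212) .nil)),
   .two (nat_lit 169869314) (nat_lit 101711878) (.two (nat_lit 1048576) (nat_lit 2954887176) (.one (nat_lit 270532666) .nil)),
   .two (nat_lit 9933160451) (nat_lit 9934209027) (.two (nat_lit 605028353) (nat_lit 9934209030) (.two (nat_lit 1048576) (nat_lit 9934209037) (.one (nat_lit 705691707) .nil))),
   .two (nat_lit 809500675) (nat_lit 11476664324) (.two (nat_lit 1048576) (nat_lit 2954887176) (.one (nat_lit 68157501) .nil)),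
   .two (nat_lit 809500675) (nat_lit 101711875) (.two (nat_lit 605028353) (nat_lit 809500678) (.two (nat_lit 1048576) (nat_lit 809500682) (.one (nat_lit 68157500) .nil))),
   .two (nat_lit 8388611) (nat_lit 68157444) (.two (nat_lit 4194304) (nat_lit 11543773192) (.one (nat_lit 2956984356) .nil)),
   .two (nat_lit 809500675) (nat_lit 1175453700) (.two (nat_lit 4194304) (nat_lit 739246088) (.one (nat_lit 276824102) .nil)),
   .two (nat_lit 9934209027) (nat_lit 1779433480) (.one (nat_lit 1343225882) .nil),
   .two (nat_lit 809500675) (nat_lit 2887778306) (.two (nat_lit 37748737) (nat_lit 203423752) (.one (nat_lit 9934209055) .nil)),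
   .two (nat_lit 2954887171) (nat_lit 18928893960) (.one (nat_lit 20638072866) .nil),
   .two (nat_lit 809500675) (nat_lit 46407876612) (.two (nat_lit 1048576) (nat_lit 9902751793) .nil),
   .two (nat_lit 9768534019) (nat_lit 3525312515) (.two (nat_lit 2097153) (nat_lit 1178599432) (.one (nat_lit 1277165604) .nil)),
   .two (nat_lit 176160770) (nat_lit 1277165570) (.two (nat_lit 606076929) (nat_lit 612368392) (.one (nat_lit 1920991275) .nil)),
   .two (nat_lit 9781116931) (nat_lit 1847590915) (.two (nat_lit 606076929) (nat_lit 117440520) (.one (nat_lit 620757039) .nil)),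
   .two (nat_lit 9934209027) (nat_lit 12114198531) (.two (nat_lit 34603009) (nat_lit 1277165572) (.two (nat_lit 1048576) (nat_lit 2988441609) (.one (nat_lit 639631405) .nil))),
   .two (nat_lit 16777219) (nat_lit 20638072834) (.two (nat_lit 16777217) (nat_lit 165526110212) (.two (nat_lit 1048576) (nat_lit 28087156744) (.one (nat_lit 2097223) .nil))),
   .two (nat_lit 9948889091) (nat_lit 21777874947) (.two (nat_lit 605028353) (nat_lit 2969567236) (.two (nat_lit 1048576) (nat_lit 156481093643) (.one (nat_lit 1276117057) .nil))),
   .two (nat_lit 285212675) (nat_lit 47548727299) (.two (nat_lit 2097153) (nat_lit 28772925451) (.one (nat_lit 183947493423) .nil)),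
   .two (nat_lit 10370416643) (nat_lit 28093448200) (.one (nat_lit 184993972247) .nil),
   .two (nat_lit 11479810050) (nat_lit 1291845639) (.two (nat_lit 4194304) (nat_lit 158083317768) (.one (nat_lit 158079123527) .nil)),
   .two (nat_lit 806354947) (nat_lit 19599982600) (.one (nat_lit 2097206) .nil),
   .two (nat_lit 12047089667) (nat_lit 10940841988) (.two (nat_lit 1048576) (nat_lit 157036838920) (.one (nat_lit 2097219) .nil)),
   .two (nat_lit 184549378) (nat_lit 184993972227) (.two (nat_lit 41943041) (nat_lit 47563407364) (.two (nat_lit 1048576) (nat_lit 184993972278) .nil)),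
   .two (nat_lit 8388610) (nat_lit 11479810050) (.two (nat_lit 37748737) (nat_lit 276824068) (.two (nat_lit 1048576) (nat_lit 1350565939) .nil)),
   .two (nat_lit 270532611) (nat_lit 184419352580) (.two (nat_lit 1048576) (nat_lit 10003415089) .nil),
   .two (nat_lit 2097155) (nat_lit 184549379) (.two (nat_lit 34603009) (nat_lit 28087156740) (.two (nat_lit 1048576) (nat_lit 12062818318) (.one (nat_lit 16777271) .nil))),
   .two (nat_lit 9948889091) (nat_lit 10336862216) (.one (nat_lit 165526110242) .nil),
   .two (nat_lit 171966467) (nat_lit 2887778306) (.two (nat_lit 4194305) (nat_lit 2887778308) (.two (nat_lit 16777216) (nat_lit 21811429431) .nil)),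
   .two (nat_lit 2097155) (nat_lit 1916796933) (.two (nat_lit 1048576) (nat_lit 1916796936) (.one (nat_lit 337641526) .nil)),
   .two (nat_lit 270532611) (nat_lit 13191086083) (.two (nat_lit 34603009) (nat_lit 185021235207) (.two (nat_lit 1048576) (nat_lit 4194319) (.one (nat_lit 4194360) .nil))),
   .two (nat_lit 16777219) (nat_lit 28758245379) (.two (nat_lit 9765388289) (nat_lit 9799991301) (.two (nat_lit 1048576) (nat_lit 2097168) (.one (nat_lit 2097224) .nil))),
   .two (nat_lit 2902458371) (nat_lit 3458203651) (.two (nat_lit 2097153) (nat_lit 285212680) (.one (nat_lit 9799991329) .nil)),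
   .two (nat_lit 721420290) (nat_lit 19596836867) (.two (nat_lit 9765388289) (nat_lit 822083592) (.one (nat_lit 16777289) .nil)),
   .two (nat_lit 16777218) (nat_lit 2954887171) (.two (nat_lit 16777217) (nat_lit 3458203656) (.one (nat_lit 12618563627) .nil)),
   .two (nat_lit 612368387) (nat_lit 11479810051) (.two (nat_lit 4194305) (nat_lit 184993972228) (.two (nat_lit 8388608) (nat_lit 47550824459) (.one (nat_lit 4194378) .nil))),
   .two (nat_lit 285212675) (nat_lit 19530776579) (.two (nat_lit 2097153) (nat_lit 117440520) (.one (nat_lit 28758245425) .nil)),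
   .two (nat_lit 1344274435) (nat_lit 1795162116) (.two (nat_lit 2097152) (nat_lit 16777228) (.one (nat_lit 4194379) .nil)),
   .two (nat_lit 612368387) (nat_lit 117440520) (.one (nat_lit 47596961858) .nil),
   .two (nat_lit 272629763) (nat_lit 10336862211) (.two (nat_lit 605028353) (nat_lit 159217876998) (.two (nat_lit 1048576) (nat_lit 159217877005) (.one (nat_lit 2097228) .nil))),
   .two (nat_lit 705691650) (nat_lit 19530776580) (.two (nat_lit 1048576) (nat_lit 3458203656) (.one (nat_lit 2886729777) .nil)),
   .two (nat_lit 1176502275) (nat_lit 28086108164) (.two (nat_lit 8388608) (nat_lit 10503585804) (.one (nat_lit 156365750328) .nil)),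
   .two (nat_lit 2097155) (nat_lit 1178599427) (.two (nat_lit 4194305) (nat_lit 46407876612) (.two (nat_lit 1048576) (nat_lit 19128123408) (.one (nat_lit 1376780343) .nil))),
   .two (nat_lit 176160770) (nat_lit 2887778306) (.two (nat_lit 2097153) (nat_lit 4605345800) (.one (nat_lit 28093448239) .nil)),
   .two (nat_lit 11479810050) (nat_lit 183853121540) (.two (nat_lit 4194304) (nat_lit 184993972232) (.one (nat_lit 10343153711) .nil)),
   .two (nat_lit 9934209027) (nat_lit 46409973762) (.two (nat_lit 41943041) (nat_lit 4601151496) (.one (nat_lit 1948254262) .nil)),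
   .two (nat_lit 2956984323) (nat_lit 1753219076) (.two (nat_lit 1048576) (nat_lit 1849688072) (.one (nat_lit 2353004600) .nil)),
   .two (nat_lit 176160770) (nat_lit 46409973768) (.one (nat_lit 10540286003) .nil),
   .two (nat_lit 16777219) (nat_lit 11479810050) (.two (nat_lit 37748737) (nat_lit 184549384) (.one (nat_lit 18928893994) .nil)),
   .two (nat_lit 159216828419) (nat_lit 159217876995) (.two (nat_lit 605028353) (nat_lit 159217876998) (.two (nat_lit 1048576) (nat_lit 2097169) (.one (nat_lit 2097229) .nil))),
   .two (nat_lit 159216828419) (nat_lit 28093448200) (.one (nat_lit 2956984374) .nil),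
   .two (nat_lit 806354947) (nat_lit 11479810052) (.two (nat_lit 1048576) (nat_lit 4194322) (.one (nat_lit 4194382) .nil)),
   .two (nat_lit 11476664322) (nat_lit 236978183) (.two (nat_lit 1048576) (nat_lit 46978301960) (.one (nat_lit 1048655) .nil)),
   .two (nat_lit 2954887171) (nat_lit 159216828419) (.two (nat_lit 2097153) (nat_lit 21777874950) (.two (nat_lit 2097152) (nat_lit 156364701708) (.one (nat_lit 2097232) .nil))),
   .two (nat_lit 9934209027) (nat_lit 28093448196) (.two (nat_lit 1048576) (nat_lit 28791799850) .nil),
   .two (nat_lit 171966467) (nat_lit 612368387) (.two (nat_lit 16777217) (nat_lit 205520900) (.two (nat_lit 8388608) (nat_lit 10369368079) (.one (nat_lit 1048657) .nil))),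
   .two (nat_lit 1176502275) (nat_lit 28086108164) (.two (nat_lit 8388608) (nat_lit 1411383344) .nil),
   .two (nat_lit 176160770) (nat_lit 18925748228) (.two (nat_lit 16777216) (nat_lit 8388627) (.one (nat_lit 8388691) .nil)),
   .two (nat_lit 169869314) (nat_lit 1779433480) (.two (nat_lit 2097152) (nat_lit 11543773207) (.one (nat_lit 11543773241) .nil)),
   .two (nat_lit 639631363) (nat_lit 1343225864) (.two (nat_lit 2097152) (nat_lit 11543773209) (.one (nat_lit 11543773268) .nil)),
   .two (nat_lit 713031683) (nat_lit 174753579016) (.two (nat_lit 8388608) (nat_lit 158144135191) (.one (nat_lit 166197198905) .nil)),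
   .two (nat_lit 612368387) (nat_lit 46409973768) (.one (nat_lit 47588573240) .nil),
   .two (nat_lit 4194306) (nat_lit 83886083) (.two (nat_lit 16777217) (nat_lit 174755676204) .nil),
   .two (nat_lit 9948889091) (nat_lit 183845781506) (.two (nat_lit 34603009) (nat_lit 9881780232) (.one (nat_lit 3524263985) .nil)),
   .two (nat_lit 171966467) (nat_lit 75497475) (.two (nat_lit 8388609) (nat_lit 10000269318) (.two (nat_lit 8388608) (nat_lit 1048603) (.one (nat_lit 3028287543) .nil))),
   .two (nat_lit 9781116931) (nat_lit 12114198531) (.two (nat_lit 34603009) (nat_lit 117440520) (.one (nat_lit 157035790374) .nil)),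
   .two (nat_lit 184549379) (nat_lit 2954887175) (.two (nat_lit 8388608) (nat_lit 10552868939) .nil),
   .two (nat_lit 10336862211) (nat_lit 20637024258) (.two (nat_lit 605028353) (nat_lit 19027460114) (.one (nat_lit 2097245) .nil)),
   .two (nat_lit 159216828419) (nat_lit 20638072834) (.two (nat_lit 605028353) (nat_lit 20638072842) (.one (nat_lit 4194359) .nil)),
   .two (nat_lit 713031683) (nat_lit 272629763) (.two (nat_lit 4194305) (nat_lit 184993972228) (.two (nat_lit 16777216) (nat_lit 1782579214) (.one (nat_lit 4194386) .nil))),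
   .two (nat_lit 16777218) (nat_lit 28760342531) (.two (nat_lit 612368385) (nat_lit 21223178251) (.one (nat_lit 12050235448) .nil)),
   .two (nat_lit 605028355) (nat_lit 75497475) (.two (nat_lit 8388609) (nat_lit 159216828421) (.two (nat_lit 8388608) (nat_lit 1048596) (.one (nat_lit 166196150327) .nil))),
   .two (nat_lit 16777219) (nat_lit 2954887171) (.two (nat_lit 2097153) (nat_lit 184549384) (.one (nat_lit 183846830128) .nil)),
   .two (nat_lit 270532611) (nat_lit 183848927234) (.two (nat_lit 34603009) (nat_lit 1377828869) (.two (nat_lit 1048576) (nat_lit 13191086099) (.one (nat_lit 1048670) .nil))),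
   .two (nat_lit 4194306) (nat_lit 11476664324) (.two (nat_lit 8388609) (nat_lit 605028378) (.one (nat_lit 168820833) .nil)),
   .two (nat_lit 4194306) (nat_lit 11476664328) (.two (nat_lit 1048576) (nat_lit 169869344) (.one (nat_lit 34603104) .nil)),
   .two (nat_lit 4194306) (nat_lit 2887778308) (.two (nat_lit 34603009) (nat_lit 69206054) (.one (nat_lit 1048661) .nil)),
   .two (nat_lit 41943043) (nat_lit 705691656) (.two (nat_lit 1048576) (nat_lit 11484004390) (.one (nat_lit 269484133) .nil)),
   .two (nat_lit 4194306) (nat_lit 9766436868) (.two (nat_lit 2097153) (nat_lit 1283457062) (.one (nat_lit 1344274540) .nil)),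
   .two (nat_lit 4194306) (nat_lit 739246089) (.two (nat_lit 8388608) (nat_lit 169869396) .nil),
   .two (nat_lit 8388611) (nat_lit 11543773193) (.two (nat_lit 2097152) (nat_lit 2956984356) (.one (nat_lit 9866051682) .nil)),
   .two (nat_lit 4194306) (nat_lit 639631370) (.two (nat_lit 4194304) (nat_lit 639631391) (.one (nat_lit 9934209129) .nil)),
   .two (nat_lit 9934209027) (nat_lit 1779433480) (.two (nat_lit 2097152) (nat_lit 11543773269) .nil),
   .two (nat_lit 809500675) (nat_lit 203423754) (.two (nat_lit 1048576) (nat_lit 9934209055) (.one (nat_lit 1277165674) .nil)),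
   .two (nat_lit 41943043) (nat_lit 9934209034) (.two (nat_lit 4194304) (nat_lit 639631391) (.one (nat_lit 1277165672) .nil)),
   .two (nat_lit 9781116931) (nat_lit 1849688068) (.two (nat_lit 50331649) (nat_lit 1849688072) (.two (nat_lit 8388608) (nat_lit 16777263) (.one (nat_lit 156573368407) .nil))),
   .two (nat_lit 2097155) (nat_lit 50331652) (.two (nat_lit 606076929) (nat_lit 18925748232) (.two (nat_lit 1048576) (nat_lit 3472883752) (.one (nat_lit 1048711) .nil))),
   .two (nat_lit 50331651) (nat_lit 843055109) (.two (nat_lit 37748737) (nat_lit 721420296) (.two (nat_lit 2097152) (nat_lit 12050235427) (.one (nat_lit 807403607) .nil))),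
   .two (nat_lit 809500675) (nat_lit 21785214983) (.two (nat_lit 37748737) (nat_lit 713031690) (.two (nat_lit 2097152) (nat_lit 8388656) (.one (nat_lit 2097288) .nil))),
   .two (nat_lit 1916796931) (nat_lit 10940841992) (.two (nat_lit 4194304) (nat_lit 46508539993) .nil),
   .two (nat_lit 713031682) (nat_lit 10921967627) (.two (nat_lit 2097152) (nat_lit 19033751595) (.one (nat_lit 156466413652) .nil)),
   .two (nat_lit 809500675) (nat_lit 28806479882) (.two (nat_lit 16777216) (nat_lit 8388674) (.one (nat_lit 12050235509) .nil)),
   .two (nat_lit 708837379) (nat_lit 1358954504) (.two (nat_lit 4194304) (nat_lit 1224736811) (.one (nat_lit 174701150295) .nil)),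
   .two (nat_lit 721420290) (nat_lit 183853121544) (.two (nat_lit 8388608) (nat_lit 1325400108) (.one (nat_lit 8388745) .nil)),
   .two (nat_lit 620756995) (nat_lit 11551113220) (.two (nat_lit 41943041) (nat_lit 2936012811) (.two (nat_lit 2097152) (nat_lit 3028287529) (.one (nat_lit 8388746) .nil))),
   .two (nat_lit 1916796931) (nat_lit 1753219077) (.two (nat_lit 8388609) (nat_lit 156468510745) (.one (nat_lit 4194443) .nil)),
   .two (nat_lit 721420290) (nat_lit 166199296005) (.two (nat_lit 37748737) (nat_lit 37329305646) (.one (nat_lit 46414168153) .nil)),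
   .two (nat_lit 184549379) (nat_lit 2988441605) (.two (nat_lit 16777217) (nat_lit 102760492) (.one (nat_lit 16777357) .nil)),
   .two (nat_lit 11479810050) (nat_lit 158075977736) (.two (nat_lit 1048576) (nat_lit 843055136) (.one (nat_lit 4194446) .nil)),
   .two (nat_lit 2954887171) (nat_lit 18928893960) (.two (nat_lit 2097152) (nat_lit 11513364505) (.one (nat_lit 174688567386) .nil)),
   .two (nat_lit 605028355) (nat_lit 2969567236) (.two (nat_lit 34603009) (nat_lit 10909384738) (.one (nat_lit 2990538840) .nil)),
   .two (nat_lit 2894069763) (nat_lit 21812477957) (.two (nat_lit 8388609) (nat_lit 9867100168) (.two (nat_lit 1048576) (nat_lit 158177689624) (.one (nat_lit 4194395) .nil))),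
   .two (nat_lit 184549378) (nat_lit 10336862212) (.two (nat_lit 2097153) (nat_lit 1358954525) (.one (nat_lit 16777359) .nil)),
   .two (nat_lit 8388610) (nat_lit 11479810052) (.two (nat_lit 8388609) (nat_lit 9867100168) (.two (nat_lit 2097152) (nat_lit 1782579237) (.one (nat_lit 1344274520) .nil))),
   .two (nat_lit 34603011) (nat_lit 11479810052) (.two (nat_lit 612368385) (nat_lit 11610882072) (.one (nat_lit 2097240) .nil)),
   .two (nat_lit 1191182339) (nat_lit 19599982600) (.two (nat_lit 4194304) (nat_lit 9881780248) (.one (nat_lit 156581757018) .nil)),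
   .two (nat_lit 11546918915) (nat_lit 12054429700) (.two (nat_lit 37748737) (nat_lit 75497480) (.two (nat_lit 2097152) (nat_lit 343932974) (.one (nat_lit 10001317978) .nil))),
   .two (nat_lit 176160770) (nat_lit 2887778308) (.two (nat_lit 612368385) (nat_lit 11476664328) (.two (nat_lit 1048576) (nat_lit 304087080) (.one (nat_lit 1048720) .nil))),
   .two (nat_lit 83886083) (nat_lit 21214789636) (.two (nat_lit 16777217) (nat_lit 1849688072) (.two (nat_lit 1048576) (nat_lit 1413480535) .nil)),
   .two (nat_lit 41943043) (nat_lit 606076932) (.two (nat_lit 2097153) (nat_lit 104857608) (.two (nat_lit 4194304) (nat_lit 1780482077) (.one (nat_lit 2961178738) .nil))),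
   .two (nat_lit 2097155) (nat_lit 4634705926) (.two (nat_lit 2097153) (nat_lit 809500680) (.two (nat_lit 1048576) (nat_lit 270532648) (.one (nat_lit 1846542422) .nil))),
   .two (nat_lit 2097155) (nat_lit 46409973764) (.two (nat_lit 41943041) (nat_lit 10000269338) (.one (nat_lit 873463896) .nil)),
   .two (nat_lit 713031682) (nat_lit 12050235396) (.two (nat_lit 156367847425) (nat_lit 1780482056) (.two (nat_lit 1048576) (nat_lit 156567076954) .nil)),
   .two (nat_lit 11546918915) (nat_lit 12054429700) (.two (nat_lit 8388609) (nat_lit 9867100168) (.two (nat_lit 2097152) (nat_lit 28793896994) (.one (nat_lit 2097297) .nil))),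
   .two (nat_lit 11559501827) (nat_lit 46409973768) (.two (nat_lit 4194304) (nat_lit 19042140204) (.one (nat_lit 16777362) .nil)),
   .two (nat_lit 2097155) (nat_lit 1350565892) (.two (nat_lit 2097153) (nat_lit 104857608) (.two (nat_lit 1048576) (nat_lit 46409973846) .nil)),
   .two (nat_lit 169869314) (nat_lit 12054429704) (.two (nat_lit 8388608) (nat_lit 158144135192) (.one (nat_lit 2097299) .nil)),
   .two (nat_lit 176160770) (nat_lit 3460300804) (.two (nat_lit 37748737) (nat_lit 10369368072) (.two (nat_lit 8388608) (nat_lit 1048625) (.one (nat_lit 1048724) .nil))),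
   .two (nat_lit 174753579011) (nat_lit 3036676106) (.two (nat_lit 1048576) (nat_lit 11626610719) (.one (nat_lit 16777366) .nil)),
   .two (nat_lit 2956984323) (nat_lit 1795162120) (.two (nat_lit 1048576) (nat_lit 1849688088) (.one (nat_lit 9940500598) .nil)),
   .two (nat_lit 4194306) (nat_lit 19093520391) (.two (nat_lit 2097153) (nat_lit 272629768) (.two (nat_lit 1048576) (nat_lit 169869347) (.one (nat_lit 12115247191) .nil))),
   .two (nat_lit 158144135171) (nat_lit 1753219082) (.two (nat_lit 2097152) (nat_lit 8388658) (.one (nat_lit 142606452) .nil)),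
   .two (nat_lit 12047089667) (nat_lit 28691136516) (.two (nat_lit 34603009) (nat_lit 19530776584) (.two (nat_lit 8388608) (nat_lit 2097219) (.one (nat_lit 639631492) .nil))),
   .two (nat_lit 16777218) (nat_lit 12050235396) (.two (nat_lit 16777217) (nat_lit 641728556) (.one (nat_lit 21778923608) .nil)),
   .two (nat_lit 184549378) (nat_lit 21785214980) (.two (nat_lit 16777217) (nat_lit 183953784843) (.two (nat_lit 1048576) (nat_lit 13228834860) (.one (nat_lit 16777367) .nil))),
   .two (nat_lit 11479810050) (nat_lit 276824068) (.two (nat_lit 37748737) (nat_lit 41943048) (.two (nat_lit 1048576) (nat_lit 3464495151) (.one (nat_lit 8388760) .nil))),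
   .two (nat_lit 9948889091) (nat_lit 10336862216) (.two (nat_lit 2097152) (nat_lit 721420312) (.one (nat_lit 352321621) .nil)),
   .two (nat_lit 2887778306) (nat_lit 3028287498) (.two (nat_lit 2097152) (nat_lit 343932958) (.one (nat_lit 8388762) .nil)),
   .two (nat_lit 16777218) (nat_lit 46409973768) (.two (nat_lit 16777216) (nat_lit 4194356) (.one (nat_lit 843055215) .nil)),
   .two (nat_lit 9768534019) (nat_lit 117440516) (.two (nat_lit 37748737) (nat_lit 174759870472) (.two (nat_lit 8388608) (nat_lit 2902458409) (.one (nat_lit 10443817045) .nil))),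
   .two (nat_lit 721420290) (nat_lit 28086108164) (.two (nat_lit 50331649) (nat_lit 165525061642) (.two (nat_lit 1048576) (nat_lit 1358954525) (.one (nat_lit 11626610831) .nil))),
   .two (nat_lit 612368387) (nat_lit 21778923525) (.two (nat_lit 2097153) (nat_lit 21814575150) (.one (nat_lit 2424307803) .nil)),
   .two (nat_lit 21207449603) (nat_lit 50331656) (.two (nat_lit 1048576) (nat_lit 3036676122) (.one (nat_lit 10015998037) .nil)),
   .two (nat_lit 11479810050) (nat_lit 28691136516) (.two (nat_lit 41943041) (nat_lit 21812477966) (.two (nat_lit 1048576) (nat_lit 1954545749) .nil)),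
   .two (nat_lit 605028355) (nat_lit 612368388) (.two (nat_lit 34603009) (nat_lit 641728520) (.two (nat_lit 4194304) (nat_lit 2961178675) (.one (nat_lit 1279262805) .nil))),
   .two (nat_lit 721420290) (nat_lit 12047089672) (.two (nat_lit 1048576) (nat_lit 16777269) (.one (nat_lit 166144770169) .nil)),
   .two (nat_lit 176160770) (nat_lit 1358954500) (.two (nat_lit 8388609) (nat_lit 10942939144) (.two (nat_lit 4194304) (nat_lit 4638900268) (.one (nat_lit 166199296088) .nil))),
   .two (nat_lit 37748740) (nat_lit 101711880) (.two (nat_lit 2097153) (nat_lit 1343225882) (.two (nat_lit 2097152) (nat_lit 1343225913) (.one (nat_lit 169869471) .nil))),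
   .two (nat_lit 272629764) (nat_lit 2887778308) (.two (nat_lit 4194306) (nat_lit 203423754) (.two (nat_lit 4194305) (nat_lit 2954887198) (.two (nat_lit 4194304) (nat_lit 11543773268) (.one (nat_lit 37748896) .nil)))),
   .two (nat_lit 9768534019) (nat_lit 11618222086) (.two (nat_lit 8388609) (nat_lit 1178599432) (.two (nat_lit 4194304) (nat_lit 11618222111) (.one (nat_lit 8388748) .nil))),
   .two (nat_lit 16777219) (nat_lit 174753579013) (.two (nat_lit 2097153) (nat_lit 11559501848) (.one (nat_lit 16777328) .nil)),
   .two (nat_lit 270532611) (nat_lit 11479810052) (.two (nat_lit 2097153) (nat_lit 742391818) (.two (nat_lit 1048576) (nat_lit 9867100189) (.one (nat_lit 2097317) .nil))),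
   .two (nat_lit 4194306) (nat_lit 102760453) (.two (nat_lit 2097153) (nat_lit 4601151496) (.two (nat_lit 8388608) (nat_lit 1178599550) .nil)),
   .two (nat_lit 806354947) (nat_lit 11492392968) (.two (nat_lit 1048576) (nat_lit 46992982063) (.one (nat_lit 2097318) .nil)),
   .two (nat_lit 4194306) (nat_lit 10370416646) (.two (nat_lit 2097153) (nat_lit 809500680) (.two (nat_lit 8388608) (nat_lit 4194420) .nil)),
   .two (nat_lit 620756995) (nat_lit 21811429381) (.two (nat_lit 50331649) (nat_lit 20637024266) (.two (nat_lit 2097152) (nat_lit 10335813669) (.one (nat_lit 1048725) .nil))),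
   .two (nat_lit 184416206851) (nat_lit 174753579016) (.two (nat_lit 4194304) (nat_lit 1344274556) .nil),
   .two (nat_lit 2097155) (nat_lit 4030726151) (.two (nat_lit 34603009) (nat_lit 2418016296) (.one (nat_lit 4194471) .nil)),
   .two (nat_lit 270532611) (nat_lit 12117344260) (.two (nat_lit 2097153) (nat_lit 104857610) (.two (nat_lit 1048576) (nat_lit 28760342662) .nil)),
   .two (nat_lit 4601151491) (nat_lit 158144135194) (.one (nat_lit 1176502359) .nil),
   .two (nat_lit 34603011) (nat_lit 11479810052) (.two (nat_lit 34603009) (nat_lit 9867100168) (.two (nat_lit 2097152) (nat_lit 4194355) (.one (nat_lit 1176502397) .nil))),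
   .two (nat_lit 3527409667) (nat_lit 159217877000) (.two (nat_lit 2097152) (nat_lit 306184223) (.one (nat_lit 4194457) .nil)),
   .two (nat_lit 184416206851) (nat_lit 11559501847) (.one (nat_lit 11559501881) .nil),
   .two (nat_lit 2097155) (nat_lit 158083317768) (.two (nat_lit 1048576) (nat_lit 4194372) (.one (nat_lit 4194459) .nil)),
   .two (nat_lit 4194306) (nat_lit 10370416646) (.two (nat_lit 2097153) (nat_lit 809500680) (.two (nat_lit 8388608) (nat_lit 874512430) (.one (nat_lit 2097308) .nil))),
   .two (nat_lit 184549378) (nat_lit 20638072836) (.two (nat_lit 16777217) (nat_lit 158077026314) (.two (nat_lit 1048576) (nat_lit 1746927653) (.one (nat_lit 16777385) .nil))),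
   .two (nat_lit 16777219) (nat_lit 174753579012) (.two (nat_lit 2097153) (nat_lit 285212696) (.one (nat_lit 1426063486) .nil)),
   .two (nat_lit 272629763) (nat_lit 19128123403) (.two (nat_lit 2097152) (nat_lit 13224640541) (.one (nat_lit 18928894081) .nil)),
   .two (nat_lit 41943043) (nat_lit 47548727303) (.two (nat_lit 50331649) (nat_lit 1780482056) (.two (nat_lit 16777216) (nat_lit 243269671) (.one (nat_lit 2097322) .nil))),
   .two (nat_lit 713031682) (nat_lit 158075977736) (.two (nat_lit 8388608) (nat_lit 3557818417) (.one (nat_lit 4194461) .nil)),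
   .two (nat_lit 16777218) (nat_lit 158144135172) (.two (nat_lit 9765388289) (nat_lit 11578376238) (.one (nat_lit 2097323) .nil)),
   .two (nat_lit 11476664322) (nat_lit 165526110212) (.two (nat_lit 50331649) (nat_lit 11476664328) (.two (nat_lit 16777216) (nat_lit 10504634499) .nil)),
   .two (nat_lit 176160771) (nat_lit 46409973768) (.two (nat_lit 2097152) (nat_lit 10540286003) (.one (nat_lit 4194462) .nil)),
   .two (nat_lit 1277165570) (nat_lit 11577327622) (.two (nat_lit 34603009) (nat_lit 9867100169) (.two (nat_lit 1048576) (nat_lit 9967763485) (.one (nat_lit 2097324) .nil))),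
   .two (nat_lit 16777219) (nat_lit 11479810052) (.two (nat_lit 37748737) (nat_lit 184549384) (.two (nat_lit 16777216) (nat_lit 4194373) (.one (nat_lit 4194477) .nil))),
   .two (nat_lit 183848927234) (nat_lit 822083592) (.two (nat_lit 1048576) (nat_lit 21793603635) (.one (nat_lit 16777390) .nil)),
   .two (nat_lit 83886083) (nat_lit 272629768) (.two (nat_lit 16777216) (nat_lit 174755676204) (.one (nat_lit 18928894074) .nil)),
   .two (nat_lit 1358954499) (nat_lit 1745879044) (.two (nat_lit 34603009) (nat_lit 9881780232) (.two (nat_lit 1048576) (nat_lit 16777286) (.one (nat_lit 1795162267) .nil))),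
   .two (nat_lit 37748740) (nat_lit 101711876) (.two (nat_lit 4194306) (nat_lit 11476664328) (.two (nat_lit 2097153) (nat_lit 2953838655) (.two (nat_lit 2097152) (nat_lit 168820836) (.one (nat_lit 1048755) .nil)))),
   .two (nat_lit 37748740) (nat_lit 1175453700) (.two (nat_lit 4194306) (nat_lit 739246089) (.two (nat_lit 4194305) (nat_lit 1343225919) (.two (nat_lit 4194304) (nat_lit 1343225955) (.one (nat_lit 68157618) .nil)))),
   .two (nat_lit 4194308) (nat_lit 8388616) (.two (nat_lit 4194305) (nat_lit 739246105) (.two (nat_lit 4194304) (nat_lit 101711929) (.one (nat_lit 11543773361) .nil))),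
   .two (nat_lit 1343225860) (nat_lit 639631366) (.two (nat_lit 41943043) (nat_lit 705691656) (.two (nat_lit 41943041) (nat_lit 11543773209) (.two (nat_lit 8388608) (nat_lit 11543773268) (.one (nat_lit 9934209208) .nil)))),
   .two (nat_lit 2954887172) (nat_lit 1779433482) (.two (nat_lit 2097153) (nat_lit 1343225882) (.two (nat_lit 8388608) (nat_lit 2954887327) .nil)),
   .two (nat_lit 83886084) (nat_lit 1916796936) (.two (nat_lit 50331649) (nat_lit 19599982649) (.one (nat_lit 12150898896) .nil)),
   .two (nat_lit 11479810052) (nat_lit 10940841992) (.two (nat_lit 37748737) (nat_lit 166197198874) (.two (nat_lit 4194304) (nat_lit 158144135225) (.one (nat_lit 4194465) .nil))),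
   .two (nat_lit 754974724) (nat_lit 713031686) (.two (nat_lit 713031683) (nat_lit 754974728) (.two (nat_lit 8388609) (nat_lit 10437525529) (.two (nat_lit 16777216) (nat_lit 69206103) (.one (nat_lit 16777438) .nil)))),
   .two (nat_lit 713031684) (nat_lit 9881780232) (.two (nat_lit 41943041) (nat_lit 158192369689) (.two (nat_lit 16777216) (nat_lit 184993972281) (.one (nat_lit 28806480031) .nil))),
   .two (nat_lit 18933088260) (nat_lit 28693233672) (.two (nat_lit 9768534017) (nat_lit 159257722967) (.one (nat_lit 8388832) .nil)),
   .two (nat_lit 9948889092) (nat_lit 104857605) (.two (nat_lit 713031682) (nat_lit 10338959368) (.two (nat_lit 4194305) (nat_lit 13228834860) (.two (nat_lit 8388608) (nat_lit 4194428) (.one (nat_lit 4194529) .nil)))),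
   .two (nat_lit 721420292) (nat_lit 28093448200) (.two (nat_lit 612368385) (nat_lit 11559501881) (.one (nat_lit 28101837024) .nil)),
   .two (nat_lit 813694980) (nat_lit 1916796936) (.two (nat_lit 8388609) (nat_lit 46407876652) (.two (nat_lit 4194304) (nat_lit 8388734) (.one (nat_lit 20740833478) .nil))),
   .two (nat_lit 9881780228) (nat_lit 157036838916) (.two (nat_lit 117440515) (nat_lit 10336862216) (.two (nat_lit 2097153) (nat_lit 11559501881) (.one (nat_lit 9915334874) .nil))),
   .two (nat_lit 713031684) (nat_lit 174753579016) (.two (nat_lit 41943041) (nat_lit 20705181722) (.two (nat_lit 2097152) (nat_lit 156573368406) (.one (nat_lit 11584667807) .nil))),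
   .two (nat_lit 4613734404) (nat_lit 183848927240) (.two (nat_lit 37748737) (nat_lit 352321567) (.two (nat_lit 1048576) (nat_lit 4194432) (.one (nat_lit 4194531) .nil))),
   .two (nat_lit 612368388) (nat_lit 2887778308) (.two (nat_lit 806354947) (nat_lit 184993972233) (.two (nat_lit 34603009) (nat_lit 8388653) (.two (nat_lit 1048576) (nat_lit 8388737) (.one (nat_lit 1048804) .nil)))),
   .two (nat_lit 176160772) (nat_lit 1277165576) (.two (nat_lit 8388609) (nat_lit 1277165593) (.two (nat_lit 2097152) (nat_lit 10007609401) (.one (nat_lit 10370416799) .nil))),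
   .two (nat_lit 158144135172) (nat_lit 166132187140) (.two (nat_lit 1277165570) (nat_lit 156971827208) (.two (nat_lit 606076929) (nat_lit 3560964185) (.one (nat_lit 156535619785) .nil))),
   .two (nat_lit 1191182340) (nat_lit 21785214984) (.two (nat_lit 50331649) (nat_lit 1753219129) (.one (nat_lit 343933142) .nil)),
   .two (nat_lit 754974724) (nat_lit 9867100164) (.two (nat_lit 11559501827) (nat_lit 28758245384) (.two (nat_lit 37748737) (nat_lit 10437525529) (.two (nat_lit 4194304) (nat_lit 37314625593) (.one (nat_lit 2097382) .nil)))),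
   .two (nat_lit 9866051588) (nat_lit 12117344260) (.two (nat_lit 1343225859) (nat_lit 1178599432) (.two (nat_lit 605028353) (nat_lit 183949590552) (.two (nat_lit 1048576) (nat_lit 13224640569) (.one (nat_lit 19130220756) .nil)))),
   .two (nat_lit 1291845636) (nat_lit 174753579016) (.two (nat_lit 606076929) (nat_lit 1358954553) (.one (nat_lit 46407876769) .nil)),
   .two (nat_lit 11559501828) (nat_lit 20637024260) (.two (nat_lit 11559501827) (nat_lit 20637024264) (.two (nat_lit 605028353) (nat_lit 16777262) (.two (nat_lit 1048576) (nat_lit 3036676227) (.one (nat_lit 4194535) .nil)))),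
   .two (nat_lit 11492392964) (nat_lit 19599982600) (.two (nat_lit 37748737) (nat_lit 11559501881) (.one (nat_lit 16777448) .nil)),
   .two (nat_lit 184549380) (nat_lit 2988441606) (.two (nat_lit 184549378) (nat_lit 3458203656) (.two (nat_lit 2097153) (nat_lit 10015997983) (.two (nat_lit 4194304) (nat_lit 9967763567) (.one (nat_lit 2097385) .nil)))),
   .two (nat_lit 11479810052) (nat_lit 10336862216) (.two (nat_lit 37748737) (nat_lit 165526110234) (.two (nat_lit 4194304) (nat_lit 9967763513) (.one (nat_lit 10940842202) .nil))),
   .two (nat_lit 158158815236) (nat_lit 10940841992) (.two (nat_lit 9766436865) (nat_lit 21827158073) (.one (nat_lit 16777450) .nil)),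
   .two (nat_lit 285212676) (nat_lit 183853121544) (.two (nat_lit 16777217) (nat_lit 11517558809) (.two (nat_lit 16777216) (nat_lit 8388741) (.one (nat_lit 1216348319) .nil))),
   .two (nat_lit 169869316) (nat_lit 713031688) (.two (nat_lit 34603009) (nat_lit 1277165593) (.two (nat_lit 1048576) (nat_lit 639631417) (.one (nat_lit 2097387) .nil))),
   .two (nat_lit 12054429700) (nat_lit 159217877000) (.two (nat_lit 156372041729) (nat_lit 158144135192) (.two (nat_lit 8388608) (nat_lit 1847591000) (.one (nat_lit 304087265) .nil)))]

theorem k0 : chkL tab c0 (nat_lit 0) = true := by decide +kernel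

theorem l0 : c0.length = 300 := by decide +kernel

end K6

end Pool.Agent.Work.MP_bf01b2_co.MR
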