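import Pool.Agent.Work.MP_bf01b2_co.MR.K6T

/-!
# Stars in `Q_5`: certificates of the entries 300 to 499
-/

set_option autoImplicit false
set_option maxRecDepth 100000

namespace Pool.Agent.Work.MP_bf01b2_co.MR

namespace K6

open JT

/-- certificates of the entries 300 to 499 -/
def c1 : List Rc :=
  [.two (nat_lit 11559501828) (nat_lit 10370416648) (.two (nat_lit 50331649) (nat_lit 158144135193) (.two (nat_lit 16777216) (nat_lit 28758245433) (.one (nat_lit 2097389) .nil))),
   .two (nat_lit 184549379) (nat_lit 806354958) (.two (nat_lit 16777216) (nat_lit 2097244) (.one (nat_lit 16777384) .nil)),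
   .two (nat_lit 184549379) (nat_lit 34603021) (.two (nat_lit 4194304) (nat_lit 16777384) .nil),
   .two (nat_lit 11559501828) (nat_lit 165532401672) (.two (nat_lit 50331649) (nat_lit 165532401697) (.two (nat_lit 8388608) (nat_lit 117440569) (.one (nat_lit 46422556858) .nil))),
   .two (nat_lit 4613734404) (nat_lit 19599982600) (.two (nat_lit 4194305) (nat_lit 1411383336) (.two (nat_lit 1048576) (nat_lit 12048138325) (.one (nat_lit 16777464) .nil))),
   .two (nat_lit 1291845638) (nat_lit 11007950853) (.two (nat_lit 16777219) (nat_lit 174753579016) (.two (nat_lit 16777217) (nat_lit 20738736168) (.two (nat_lit 2097152) (nat_lit 117440597) (.one (nat_lit 16777465) .nil)))),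
   .two (nat_lit 21208498180) (nat_lit 13224640519) (.two (nat_lit 272629763) (nat_lit 21208498184) (.two (nat_lit 4194305) (nat_lit 1310720033) (.two (nat_lit 2097152) (nat_lit 4194427) (.one (nat_lit 4194527) .nil)))),
   .two (nat_lit 1847590916) (nat_lit 10506731525) (.two (nat_lit 9768534019) (nat_lit 1847590920) (.two (nat_lit 9766436865) (nat_lit 11513364520) (.two (nat_lit 1048576) (nat_lit 158079123671) .nil))),
   .two (nat_lit 4194308) (nat_lit 185002360836) (.two (nat_lit 9933160451) (nat_lit 1746927653) (.two (nat_lit 2097152) (nat_lit 1950351555) .nil)),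
   .two (nat_lit 18933088260) (nat_lit 1358954501) (.two (nat_lit 83886083) (nat_lit 18933088289) (.two (nat_lit 8388608) (nat_lit 16777341) (.one (nat_lit 16777442) .nil))),
   .two (nat_lit 83886084) (nat_lit 11511267339) (.two (nat_lit 50331649) (nat_lit 156466413608) (.two (nat_lit 16777216) (nat_lit 2420113524) (.one (nat_lit 16777466) .nil))),
   .two (nat_lit 16777220) (nat_lit 19599982600) (.two (nat_lit 37748737) (nat_lit 50331705) (.one (nat_lit 16777467) .nil)),
   .two (nat_lit 705691652) (nat_lit 12117344264) (.two (nat_lit 2097153) (nat_lit 306184216) (.two (nat_lit 1048576) (nat_lit 37316722775) (.one (nat_lit 1048828) .nil))),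
   .two (nat_lit 9867100164) (nat_lit 159224168456) (.two (nat_lit 8388609) (nat_lit 156569174050) (.two (nat_lit 4194304) (nat_lit 176160880) (.one (nat_lit 1413480651) .nil))),
   .two (nat_lit 9881780228) (nat_lit 839909382) (.two (nat_lit 4599054339) (nat_lit 9881780248) (.two (nat_lit 1048576) (nat_lit 185035915321) (.one (nat_lit 2097405) .nil))),
   .two (nat_lit 16777220) (nat_lit 158083317768) (.two (nat_lit 612368385) (nat_lit 1358954525) (.two (nat_lit 8388608) (nat_lit 16777346) (.one (nat_lit 16777470) .nil))),
   .two (nat_lit 157036838916) (nat_lit 620756997) (.two (nat_lit 9948889091) (nat_lit 10907287586) (.two (nat_lit 2097152) (nat_lit 721420391) (.one (nat_lit 16777471) .nil))),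
   .two (nat_lit 620756996) (nat_lit 34603014) (.two (nat_lit 2097155) (nat_lit 10338959368) (.two (nat_lit 2097153) (nat_lit 159216828442) (.two (nat_lit 1048576) (nat_lit 158079123541) (.one (nat_lit 4194560) .nil)))),
   .two (nat_lit 16777220) (nat_lit 12117344260) (.two (nat_lit 2956984323) (nat_lit 185002360841) (.two (nat_lit 37748737) (nat_lit 10335813666) (.two (nat_lit 1048576) (nat_lit 352321666) (.one (nat_lit 1048805) .nil)))),
   .two (nat_lit 276824068) (nat_lit 1344274437) (.two (nat_lit 8388610) (nat_lit 9867100174) (.two (nat_lit 34603009) (nat_lit 1780482132) (.one (nat_lit 2316304580) .nil))),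
   .two (nat_lit 11492392964) (nat_lit 184986632198) (.two (nat_lit 2969567235) (nat_lit 3458203656) (.two (nat_lit 2097153) (nat_lit 19109249067) (.two (nat_lit 1048576) (nat_lit 2921332852) (.one (nat_lit 1048833) .nil)))),
   .two (nat_lit 13224640517) (nat_lit 9899606022) (.two (nat_lit 9866051587) (nat_lit 843055117) (.two (nat_lit 37748737) (nat_lit 174685421655) (.one (nat_lit 1048834) .nil))),
   .two (nat_lit 11551113220) (nat_lit 19599982596) (.two (nat_lit 270532611) (nat_lit 37249613869) (.two (nat_lit 1048576) (nat_lit 156567076954) (.one (nat_lit 4194563) .nil))),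
   .two (nat_lit 11551113220) (nat_lit 4601151496) (.two (nat_lit 2097153) (nat_lit 28760342572) (.two (nat_lit 8388608) (nat_lit 10370416766) (.one (nat_lit 2097412) .nil))),
   .two (nat_lit 813694980) (nat_lit 1916796932) (.two (nat_lit 69206019) (nat_lit 41943048) (.two (nat_lit 2097153) (nat_lit 11580473384) (.two (nat_lit 4194304) (nat_lit 8388739) (.one (nat_lit 47550824642) .nil)))),
   .two (nat_lit 83886084) (nat_lit 9867100164) (.two (nat_lit 708837379) (nat_lit 83886088) (.two (nat_lit 4194305) (nat_lit 156567076908) (.two (nat_lit 2097152) (nat_lit 4194436) (.one (nat_lit 4194565) .nil)))),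
   .two (nat_lit 809500676) (nat_lit 46407876612) (.two (nat_lit 34603011) (nat_lit 11479810056) (.two (nat_lit 9768534017) (nat_lit 159216828456) (.two (nat_lit 1048576) (nat_lit 169869428) (.one (nat_lit 156532474050) .nil)))),
   .two (nat_lit 184986632196) (nat_lit 156367847430) (.two (nat_lit 11479810050) (nat_lit 158075977754) (.two (nat_lit 16777216) (nat_lit 1209008331) .nil)),
   .two (nat_lit 21208498180) (nat_lit 4634705925) (.two (nat_lit 4601151491) (nat_lit 1310720010) (.two (nat_lit 4194305) (nat_lit 9967763490) (.two (nat_lit 2097152) (nat_lit 13224640615) (.one (nat_lit 4194566) .nil)))),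
   .two (nat_lit 11492392964) (nat_lit 4601151514) (.two (nat_lit 4194304) (nat_lit 19109249113) (.one (nat_lit 4194540) .nil)),
   .two (nat_lit 176160772) (nat_lit 159216828421) (.two (nat_lit 176160770) (nat_lit 1410334762) (.two (nat_lit 8388608) (nat_lit 1048738) (.one (nat_lit 1048839) .nil))),
   .two (nat_lit 4601151492) (nat_lit 10370416646) (.two (nat_lit 1176502275) (nat_lit 809500680) (.two (nat_lit 41943041) (nat_lit 3021996064) (.two (nat_lit 8388608) (nat_lit 4194420) (.one (nat_lit 4194568) .nil)))),
   .two (nat_lit 83886084) (nat_lit 21811429381) (.two (nat_lit 159217876995) (nat_lit 165525061640) (.two (nat_lit 605028353) (nat_lit 1746927653) (.two (nat_lit 2097152) (nat_lit 184986632305) (.one (nat_lit 1048841) .nil)))),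
   .two (nat_lit 203423748) (nat_lit 3464495108) (.two (nat_lit 47555018755) (nat_lit 2954887194) (.two (nat_lit 2097152) (nat_lit 19033751638) (.one (nat_lit 203423904) .nil))),
   .two (nat_lit 285212676) (nat_lit 21778923525) (.two (nat_lit 285212675) (nat_lit 158077026312) (.two (nat_lit 37748737) (nat_lit 1210056741) (.two (nat_lit 4194304) (nat_lit 2097286) (.one (nat_lit 2097418) .nil)))),
   .two (nat_lit 11479810052) (nat_lit 165525061636) (.two (nat_lit 713031682) (nat_lit 158075977736) (.two (nat_lit 16777217) (nat_lit 1212153902) (.two (nat_lit 8388608) (nat_lit 1048739) (.one (nat_lit 1048843) .nil)))),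
   .two (nat_lit 1291845636) (nat_lit 21777874950) (.two (nat_lit 11492392963) (nat_lit 46409973768) (.two (nat_lit 156364701697) (nat_lit 1426063402) (.two (nat_lit 1048576) (nat_lit 4194468) (.one (nat_lit 4194572) .nil)))),
   .two (nat_lit 8388612) (nat_lit 705691673) (.two (nat_lit 4194305) (nat_lit 813695136) (.one (nat_lit 11543773453) .nil)),
   .two (nat_lit 4194308) (nat_lit 639631370) (.two (nat_lit 2097155) (nat_lit 612368420) (.two (nat_lit 2097153) (nat_lit 1178599530) (.two (nat_lit 1048576) (nat_lit 1277165751) (.one (nat_lit 606077200) .nil)))),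
   .two (nat_lit 4194308) (nat_lit 639631368) (.two (nat_lit 4194306) (nat_lit 739246115) (.two (nat_lit 4194305) (nat_lit 739246239) (.one (nat_lit 11543773422) .nil))),
   .two (nat_lit 4194308) (nat_lit 8388633) (.two (nat_lit 4194305) (nat_lit 739246240) (.one (nat_lit 11543773423) .nil)),
   .two (nat_lit 83886084) (nat_lit 158083317785) (.two (nat_lit 612368385) (nat_lit 1358954553) (.two (nat_lit 8388608) (nat_lit 9814671546) (.one (nat_lit 310378770) .nil))),
   .two (nat_lit 742391812) (nat_lit 1753219080) (.two (nat_lit 11546918915) (nat_lit 184993972250) (.two (nat_lit 37748737) (nat_lit 11584667705) (.two (nat_lit 2097152) (nat_lit 3531604154) (.one (nat_lit 4632609042) .nil)))),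
   .two (nat_lit 1358954500) (nat_lit 166237044747) (.two (nat_lit 12121538563) (nat_lit 9881780250) (.two (nat_lit 41943041) (nat_lit 185035915321) (.two (nat_lit 2097152) (nat_lit 16777423) (.one (nat_lit 2961178904) .nil)))),
   .two (nat_lit 11559501828) (nat_lit 1916796936) (.two (nat_lit 11546918915) (nat_lit 9881780250) (.two (nat_lit 37748737) (nat_lit 318767219) (.two (nat_lit 2097152) (nat_lit 21827158175) (.one (nat_lit 16777503) .nil)))),
   .two (nat_lit 1350565892) (nat_lit 9881780249) (.two (nat_lit 620756993) (nat_lit 1384120377) (.two (nat_lit 4194304) (nat_lit 28806480031) (.one (nat_lit 4194592) .nil))),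
   .two (nat_lit 11551113220) (nat_lit 754974728) (.two (nat_lit 9934209027) (nat_lit 142606372) (.two (nat_lit 41943041) (nat_lit 10437525589) (.two (nat_lit 8388608) (nat_lit 12148801740) (.one (nat_lit 8388897) .nil)))),
   .two (nat_lit 4194308) (nat_lit 612368392) (.two (nat_lit 171966467) (nat_lit 4605345832) (.two (nat_lit 8388609) (nat_lit 272629817) (.two (nat_lit 1048576) (nat_lit 4194512) (.one (nat_lit 8388898) .nil)))),
   .two (nat_lit 721420292) (nat_lit 28758245384) (.two (nat_lit 50331651) (nat_lit 158144135192) (.two (nat_lit 2097153) (nat_lit 9814671446) (.two (nat_lit 16777216) (nat_lit 2097361) (.one (nat_lit 9915334946) .nil)))),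
   .two (nat_lit 822083588) (nat_lit 156367847432) (.two (nat_lit 1191182339) (nat_lit 18928893989) (.two (nat_lit 4194305) (nat_lit 352321593) (.two (nat_lit 1048576) (nat_lit 16777428) (.one (nat_lit 1947205910) .nil)))),
   .two (nat_lit 117440516) (nat_lit 20740833291) (.two (nat_lit 11492392963) (nat_lit 339738665) (.two (nat_lit 37748737) (nat_lit 185035915321) (.two (nat_lit 2097152) (nat_lit 16777429) (.one (nat_lit 2097445) .nil)))),
   .two (nat_lit 9881780228) (nat_lit 673185802) (.two (nat_lit 1291845634) (nat_lit 10907287586) (.two (nat_lit 2097153) (nat_lit 11559501881) (.two (nat_lit 2097152) (nat_lit 156380430528) (.one (nat_lit 10552869156) .nil)))),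
   .two (nat_lit 721420292) (nat_lit 28691136523) (.two (nat_lit 620756995) (nat_lit 2988441624) (.two (nat_lit 620756993) (nat_lit 9967763513) (.two (nat_lit 16777216) (nat_lit 1914699985) (.one (nat_lit 19042140440) .nil)))),
   .two (nat_lit 10385096708) (nat_lit 10940841992) (.two (nat_lit 654311427) (nat_lit 780140580) (.two (nat_lit 41943041) (nat_lit 185035915321) (.two (nat_lit 2097152) (nat_lit 16777430) (.one (nat_lit 8388904) .nil)))),
   .two (nat_lit 713031684) (nat_lit 174753579016) (.two (nat_lit 41943043) (nat_lit 158647451673) (.two (nat_lit 606076929) (nat_lit 276824153) (.two (nat_lit 2097152) (nat_lit 209715396) (.one (nat_lit 20705181935) .nil)))),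
   .two (nat_lit 37748740) (nat_lit 713031688) (.two (nat_lit 9873391619) (nat_lit 2954887193) (.two (nat_lit 2097153) (nat_lit 343933039) (.two (nat_lit 8388608) (nat_lit 166130090185) (.one (nat_lit 4194602) .nil)))),
   .two (nat_lit 184549380) (nat_lit 13191086088) (.two (nat_lit 4194306) (nat_lit 352321562) (.two (nat_lit 16777217) (nat_lit 843055161) (.two (nat_lit 16777216) (nat_lit 608174268) (.one (nat_lit 46409973999) .nil)))),
   .two (nat_lit 285212676) (nat_lit 156367847432) (.two (nat_lit 46409973762) (nat_lit 285212697) (.two (nat_lit 4194305) (nat_lit 16777273) (.two (nat_lit 4194304) (nat_lit 37262196933) (.one (nat_lit 19042140439) .nil)))),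
   .two (nat_lit 9934209028) (nat_lit 1753219080) (.two (nat_lit 169869314) (nat_lit 780140569) (.two (nat_lit 156372041729) (nat_lit 158144135225) (.two (nat_lit 8388608) (nat_lit 2097372) (.one (nat_lit 8388908) .nil)))),
   .two (nat_lit 612368388) (nat_lit 203423752) (.two (nat_lit 176160770) (nat_lit 2954887194) (.two (nat_lit 2097153) (nat_lit 343932985) (.two (nat_lit 2097152) (nat_lit 8388829) (.one (nat_lit 8388847) .nil)))),
   .two (nat_lit 46409973764) (nat_lit 21208498180) (.two (nat_lit 9933160451) (nat_lit 158077026314) (.two (nat_lit 9765388289) (nat_lit 21778923554) (.two (nat_lit 1048576) (nat_lit 4194431) (.one (nat_lit 4194605) .nil)))),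
   .two (nat_lit 176160772) (nat_lit 28758245381) (.two (nat_lit 2887778306) (nat_lit 47555018760) (.two (nat_lit 2097153) (nat_lit 47555018847) (.one (nat_lit 8388910) .nil))),
   .two (nat_lit 83886084) (nat_lit 1277165576) (.two (nat_lit 41943041) (nat_lit 673185991) .nil),
   .two (nat_lit 721420292) (nat_lit 1753219106) (.two (nat_lit 612368385) (nat_lit 11559501881) (.two (nat_lit 8388608) (nat_lit 156380430533) (.one (nat_lit 16777540) .nil))),
   .two (nat_lit 20644364292) (nat_lit 28758245384) (.two (nat_lit 1277165570) (nat_lit 158083317795) (.two (nat_lit 606076929) (nat_lit 10544480448) (.one (nat_lit 8388933) .nil))),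
   .two (nat_lit 272629764) (nat_lit 21785214984) (.two (nat_lit 4194306) (nat_lit 1417674785) (.two (nat_lit 41943041) (nat_lit 156569174254) .nil)),
   .two (nat_lit 11492392964) (nat_lit 183848927240) (.two (nat_lit 822083587) (nat_lit 4194347) (.two (nat_lit 37748737) (nat_lit 11559501881) (.two (nat_lit 4194304) (nat_lit 16777426) (.one (nat_lit 4194586) .nil)))),
   .two (nat_lit 12129927172) (nat_lit 19599982600) (.two (nat_lit 2097155) (nat_lit 21827158073) (.two (nat_lit 1048576) (nat_lit 2317353119) (.one (nat_lit 4194595) .nil))),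
   .two (nat_lit 9948889092) (nat_lit 10336862216) (.two (nat_lit 46407876610) (nat_lit 83886114) (.two (nat_lit 2097153) (nat_lit 620757049) (.two (nat_lit 2097152) (nat_lit 16777427) (.one (nat_lit 16777542) .nil)))),
   .two (nat_lit 1178599428) (nat_lit 46414168072) (.two (nat_lit 11479810050) (nat_lit 3464495188) (.two (nat_lit 4194304) (nat_lit 47555018928) (.one (nat_lit 142606654) .nil))),
   .two (nat_lit 158083317764) (nat_lit 19530776584) (.two (nat_lit 10343153667) (nat_lit 46407876651) (.two (nat_lit 156365750273) (nat_lit 1753219129) (.two (nat_lit 1048576) (nat_lit 46407876890) .nil))),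
   .two (nat_lit 4605345798) (nat_lit 19130220554) (.two (nat_lit 11479810050) (nat_lit 47555018788) (.two (nat_lit 37748737) (nat_lit 3028287648) (.one (nat_lit 8388935) .nil))),
   .two (nat_lit 83886084) (nat_lit 47548727304) (.two (nat_lit 169869314) (nat_lit 721420312) (.two (nat_lit 606076929) (nat_lit 3539992663) (.two (nat_lit 16777216) (nat_lit 11477713082) (.one (nat_lit 2097444) .nil)))),
   .two (nat_lit 16777220) (nat_lit 1411383309) (.two (nat_lit 16777218) (nat_lit 10000269348) (.two (nat_lit 2097153) (nat_lit 3457155157) (.two (nat_lit 1048576) (nat_lit 12048138422) (.one (nat_lit 1048870) .nil)))),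
   .two (nat_lit 13195280388) (nat_lit 1916796936) (.two (nat_lit 28693233667) (nat_lit 880803873) (.two (nat_lit 37748737) (nat_lit 184993972383) (.one (nat_lit 8388903) .nil))),
   .two (nat_lit 11551113220) (nat_lit 285212695) (.two (nat_lit 8388609) (nat_lit 20738736248) (.two (nat_lit 2097152) (nat_lit 4613734603) (.one (nat_lit 2097449) .nil))),
   .two (nat_lit 754974724) (nat_lit 166132187160) (.two (nat_lit 37748737) (nat_lit 1358954553) (.two (nat_lit 4194304) (nat_lit 11626610875) (.one (nat_lit 183928619293) .nil))),
   .two (nat_lit 1358954500) (nat_lit 18933088264) (.two (nat_lit 721420290) (nat_lit 18933088289) (.two (nat_lit 41943041) (nat_lit 754974959) .nil)),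
   .two (nat_lit 11559501828) (nat_lit 46414168072) (.two (nat_lit 721420290) (nat_lit 156372041812) (.two (nat_lit 8388608) (nat_lit 1426063563) (.one (nat_lit 83886365) .nil))),
   .two (nat_lit 11559501828) (nat_lit 158075977736) (.two (nat_lit 21777874947) (nat_lit 21812477992) (.two (nat_lit 156364701697) (nat_lit 773849199) (.two (nat_lit 1048576) (nat_lit 2097367) (.one (nat_lit 2097481) .nil)))),
   .two (nat_lit 176160772) (nat_lit 809500680) (.two (nat_lit 4194306) (nat_lit 3028287513) (.two (nat_lit 4194305) (nat_lit 12624855127) (.two (nat_lit 8388608) (nat_lit 158079123642) (.one (nat_lit 165532401939) .nil)))),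
   .two (nat_lit 822083588) (nat_lit 19599982600) (.two (nat_lit 184419352579) (nat_lit 754974751) (.two (nat_lit 37748737) (nat_lit 11559501881) (.two (nat_lit 4194304) (nat_lit 16777432) (.one (nat_lit 16777538) .nil)))),
   .two (nat_lit 11479810052) (nat_lit 169869323) (.two (nat_lit 809500675) (nat_lit 2097196) (.two (nat_lit 34603009) (nat_lit 2097273) (.two (nat_lit 1048576) (nat_lit 4194521) (.one (nat_lit 4194603) .nil)))),
   .two (nat_lit 2887778308) (nat_lit 183848927240) (.two (nat_lit 183848927234) (nat_lit 21778923607) (.two (nat_lit 1048576) (nat_lit 2097370) (.one (nat_lit 2097482) .nil))),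
   .two (nat_lit 1358954502) (nat_lit 673185802) (.two (nat_lit 9948889091) (nat_lit 10907287586) (.two (nat_lit 2097153) (nat_lit 721420391) (.two (nat_lit 2097152) (nat_lit 16777461) (.one (nat_lit 16777547) .nil)))),
   .two (nat_lit 620756996) (nat_lit 2097165) (.two (nat_lit 171966467) (nat_lit 156365750314) (.two (nat_lit 2097153) (nat_lit 47550824536) (.two (nat_lit 2097152) (nat_lit 4194550) (.one (nat_lit 4194636) .nil)))),
   .two (nat_lit 12117344260) (nat_lit 18925748232) (.two (nat_lit 721420290) (nat_lit 339738666) (.two (nat_lit 9768534017) (nat_lit 156380430436) (.two (nat_lit 1048576) (nat_lit 4194523) (.one (nat_lit 168821030) .nil)))),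
   .two (nat_lit 11476664324) (nat_lit 104857608) (.two (nat_lit 11546918915) (nat_lit 839909416) (.two (nat_lit 34603009) (nat_lit 1780482132) (.two (nat_lit 4194304) (nat_lit 159216828610) (.one (nat_lit 1048909) .nil)))),
   .two (nat_lit 11551113220) (nat_lit 4601151496) (.two (nat_lit 713031682) (nat_lit 159217877023) (.two (nat_lit 612368385) (nat_lit 104857817) (.one (nat_lit 2097487) .nil))),
   .two (nat_lit 11492392964) (nat_lit 159217877000) (.two (nat_lit 11492392962) (nat_lit 47548727321) (.two (nat_lit 9781116929) (nat_lit 673185849) (.two (nat_lit 16777216) (nat_lit 874512573) (.one (nat_lit 2097488) .nil)))),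
   .two (nat_lit 8388616) (nat_lit 605028378) (.two (nat_lit 4194306) (nat_lit 1175453780) (.two (nat_lit 2097153) (nat_lit 641728672) (.two (nat_lit 2097152) (nat_lit 205521169) (.one (nat_lit 2097492) .nil)))),
   .two (nat_lit 272629768) (nat_lit 11476664328) (.two (nat_lit 2887778308) (nat_lit 272629783) (.two (nat_lit 2887778306) (nat_lit 272629817) (.two (nat_lit 2097153) (nat_lit 9768534255) (.one (nat_lit 11543773523) .nil)))),
   .two (nat_lit 21793603592) (nat_lit 158083317785) (.two (nat_lit 11479810050) (nat_lit 1962934329) (.two (nat_lit 37748737) (nat_lit 2323644575) (.two (nat_lit 4194304) (nat_lit 158192369903) (.one (nat_lit 4194657) .nil)))),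
   .two (nat_lit 11551113224) (nat_lit 754974728) (.two (nat_lit 754974724) (nat_lit 9867100185) (.two (nat_lit 158150426627) (nat_lit 37314625593) (.two (nat_lit 37748737) (nat_lit 19109249184) (.two (nat_lit 16777216) (nat_lit 4194587) (.one (nat_lit 4194658) .nil))))),
   .two (nat_lit 9940500488) (nat_lit 1277165576) (.two (nat_lit 37748740) (nat_lit 8388631) (.two (nat_lit 4194306) (nat_lit 41943097) (.two (nat_lit 4194305) (nat_lit 10370416799) (.two (nat_lit 2097152) (nat_lit 9768534254) (.one (nat_lit 9869197667) .nil))))),
   .two (nat_lit 620757000) (nat_lit 272629769) (.two (nat_lit 20638072836) (nat_lit 20637024281) (.two (nat_lit 46422556675) (nat_lit 13191086137) (.two (nat_lit 605028353) (nat_lit 28087156896) (.two (nat_lit 1048576) (nat_lit 9766437141) (.one (nat_lit 1048932) .nil))))),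
   .two (nat_lit 276824072) (nat_lit 1178599432) (.two (nat_lit 1178599428) (nat_lit 11476664345) (.two (nat_lit 2097155) (nat_lit 612368441) (.two (nat_lit 34603009) (nat_lit 1780482207) (.two (nat_lit 1048576) (nat_lit 4194590) (.one (nat_lit 1048935) .nil))))),
   .two (nat_lit 705691652) (nat_lit 12117344264) (.two (nat_lit 2097155) (nat_lit 843055163) (.two (nat_lit 2097153) (nat_lit 843055188) (.two (nat_lit 2097152) (nat_lit 1209008369) (.one (nat_lit 1048904) .nil)))),
   .two (nat_lit 272629764) (nat_lit 11559501847) (.two (nat_lit 50331649) (nat_lit 1212153961) (.two (nat_lit 16777216) (nat_lit 4194548) (.one (nat_lit 272630042) .nil))),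
   .two (nat_lit 713031684) (nat_lit 9781116936) (.two (nat_lit 713031682) (nat_lit 16777256) (.two (nat_lit 16777217) (nat_lit 184993972281) (.two (nat_lit 4194304) (nat_lit 183920230618) (.one (nat_lit 8388942) .nil)))),
   .two (nat_lit 2887778308) (nat_lit 3028287497) (.two (nat_lit 612368387) (nat_lit 68157481) (.two (nat_lit 2097153) (nat_lit 343933109) (.one (nat_lit 1048937) .nil))),
   .two (nat_lit 50331652) (nat_lit 9867100168) (.two (nat_lit 16777219) (nat_lit 166199296040) (.two (nat_lit 2097153) (nat_lit 16777338) (.two (nat_lit 4194304) (nat_lit 16777463) (.one (nat_lit 4194666) .nil)))),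
   .two (nat_lit 18928893960) (nat_lit 158083317794) (.two (nat_lit 612368387) (nat_lit 19599982751) (.two (nat_lit 8388608) (nat_lit 19599982830) (.one (nat_lit 4194679) .nil))),
   .two (nat_lit 165526110216) (nat_lit 166132187171) (.two (nat_lit 10336862211) (nat_lit 156971827359) (.two (nat_lit 2097152) (nat_lit 10506731867) .nil)),
   .two (nat_lit 117440520) (nat_lit 11513364490) (.two (nat_lit 12129927172) (nat_lit 184419352601) (.two (nat_lit 11492392962) (nat_lit 171966550) (.two (nat_lit 37748737) (nat_lit 156984410305) (.two (nat_lit 2097152) (nat_lit 2923430163) (.one (nat_lit 2097528) .nil))))),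
   .two (nat_lit 1291845640) (nat_lit 10940841992) (.two (nat_lit 184423546884) (nat_lit 10385096765) (.two (nat_lit 12121538563) (nat_lit 1795162197) (.two (nat_lit 41943041) (nat_lit 1795162288) (.two (nat_lit 8388608) (nat_lit 46992982295) (.one (nat_lit 2097529) .nil))))),
   .two (nat_lit 721420296) (nat_lit 1753219080) (.two (nat_lit 1753219076) (nat_lit 721420313) (.two (nat_lit 183853121538) (nat_lit 721420448) (.two (nat_lit 8388608) (nat_lit 11559502062) (.one (nat_lit 16777571) .nil)))),
   .two (nat_lit 721420296) (nat_lit 28758245384) (.two (nat_lit 9867100164) (nat_lit 721420321) (.two (nat_lit 28089253891) (nat_lit 10940842143) (.two (nat_lit 2097152) (nat_lit 174768259354) (.one (nat_lit 28793897325) .nil)))),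
   .two (nat_lit 754974728) (nat_lit 166132187144) (.two (nat_lit 1191182340) (nat_lit 28693233699) (.two (nat_lit 10506731523) (nat_lit 16777330) (.two (nat_lit 9768534017) (nat_lit 10921967807) (.two (nat_lit 4194304) (nat_lit 16777529) (.one (nat_lit 4194682) .nil))))),
   .two (nat_lit 50331656) (nat_lit 183853121561) (.two (nat_lit 13195280387) (nat_lit 822083743) (.two (nat_lit 8388608) (nat_lit 822083822) (.one (nat_lit 10510926189) .nil))),
   .two (nat_lit 1358954504) (nat_lit 337641508) (.two (nat_lit 12047089667) (nat_lit 20740833367) (.two (nat_lit 605028353) (nat_lit 1312817350) (.two (nat_lit 1048576) (nat_lit 2097436) (.one (nat_lit 4194683) .nil)))),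
   .two (nat_lit 754974728) (nat_lit 157038936072) (.two (nat_lit 11492392964) (nat_lit 9802088481) (.two (nat_lit 46409973762) (nat_lit 1358954581) (.two (nat_lit 4194305) (nat_lit 1358954734) (.one (nat_lit 165540790618) .nil)))),
   .two (nat_lit 809500680) (nat_lit 159224168456) (.two (nat_lit 1916796932) (nat_lit 8388650) (.two (nat_lit 2894069763) (nat_lit 156569174073) (.two (nat_lit 9765388289) (nat_lit 3560964283) (.two (nat_lit 1048576) (nat_lit 4194589) (.one (nat_lit 1048956) .nil))))),
   .two (nat_lit 12050235400) (nat_lit 1795162126) (.two (nat_lit 822083588) (nat_lit 156971827226) (.two (nat_lit 16777218) (nat_lit 4194419) (.two (nat_lit 16777217) (nat_lit 37314625696) (.two (nat_lit 2097152) (nat_lit 2956984600) (.one (nat_lit 2097533) .nil))))),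
   .two (nat_lit 2954887176) (nat_lit 21785214984) (.two (nat_lit 169869316) (nat_lit 1417674783) (.two (nat_lit 20644364291) (nat_lit 2954887225) (.two (nat_lit 9765388289) (nat_lit 10913579290) (.one (nat_lit 8388991) .nil)))),
   .two (nat_lit 822083592) (nat_lit 183848927240) (.two (nat_lit 4613734404) (nat_lit 4194347) (.two (nat_lit 156971827203) (nat_lit 16777332) (.two (nat_lit 37748737) (nat_lit 16777458) (.two (nat_lit 1048576) (nat_lit 4194620) (.one (nat_lit 4194688) .nil))))),
   .two (nat_lit 742391816) (nat_lit 156372041736) (.two (nat_lit 46984593412) (nat_lit 20705181731) (.two (nat_lit 11546918915) (nat_lit 8388725) (.two (nat_lit 606076929) (nat_lit 21785215181) (.two (nat_lit 1048576) (nat_lit 236978454) (.one (nat_lit 4194668) .nil))))),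
   .two (nat_lit 21793603592) (nat_lit 28086108168) (.two (nat_lit 10519314436) (nat_lit 46409973791) (.two (nat_lit 171966467) (nat_lit 16777273) (.two (nat_lit 156372041729) (nat_lit 165525061791) (.two (nat_lit 8388608) (nat_lit 11510219104) .nil)))),
   .two (nat_lit 20644364296) (nat_lit 19127074826) (.two (nat_lit 101711876) (nat_lit 1753219129) (.two (nat_lit 34603009) (nat_lit 20644364463) (.two (nat_lit 1048576) (nat_lit 8388925) (.one (nat_lit 8388993) .nil)))),
   .two (nat_lit 4613734408) (nat_lit 183848927240) (.two (nat_lit 11479810052) (nat_lit 156365750356) (.two (nat_lit 34603009) (nat_lit 1749024928) (.two (nat_lit 1048576) (nat_lit 2097470) (.one (nat_lit 2097538) .nil)))),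
   .two (nat_lit 2902458376) (nat_lit 10907287588) (.two (nat_lit 2902458370) (nat_lit 673185951) (.two (nat_lit 2097152) (nat_lit 1795162459) .nil)),
   .two (nat_lit 285212680) (nat_lit 156367847432) (.two (nat_lit 11492392964) (nat_lit 12620660779) (.two (nat_lit 47550824451) (nat_lit 285212729) (.two (nat_lit 605028353) (nat_lit 620757197) (.two (nat_lit 1048576) (nat_lit 19042140439) (.one (nat_lit 1048933) .nil))))),
   .two (nat_lit 620757002) (nat_lit 876609546) (.two (nat_lit 4601151492) (nat_lit 83886116) (.two (nat_lit 4194306) (nat_lit 16777304) (.two (nat_lit 37748737) (nat_lit 19612565698) (.two (nat_lit 16777216) (nat_lit 4194624) (.one (nat_lit 28705816917) .nil))))),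
   .two (nat_lit 620757000) (nat_lit 157036838920) (.two (nat_lit 620756996) (nat_lit 606076971) (.two (nat_lit 169869314) (nat_lit 16777273) (.two (nat_lit 2097153) (nat_lit 654311705) (.one (nat_lit 21778923867) .nil)))),
   .two (nat_lit 620757000) (nat_lit 157036838920) (.two (nat_lit 822083588) (nat_lit 4601151514) (.two (nat_lit 184549378) (nat_lit 2097270) (.two (nat_lit 2097153) (nat_lit 156367847583) (.two (nat_lit 4194304) (nat_lit 10437525852) .nil)))),
   .two (nat_lit 158158815240) (nat_lit 174753579016) (.two (nat_lit 822083588) (nat_lit 339738665) (.two (nat_lit 11546918915) (nat_lit 11559501881) (.two (nat_lit 16777217) (nat_lit 2097358) (.two (nat_lit 2097152) (nat_lit 16777538) (.one (nat_lit 28691136864) .nil))))),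
   .two (nat_lit 16777224) (nat_lit 19599982600) (.two (nat_lit 16777220) (nat_lit 4194347) (.two (nat_lit 11492392963) (nat_lit 4194423) (.two (nat_lit 37748737) (nat_lit 10385096985) (.one (nat_lit 19029557596) .nil)))),
   .two (nat_lit 9881780232) (nat_lit 3458203656) (.two (nat_lit 1291845636) (nat_lit 2988441688) (.two (nat_lit 2097153) (nat_lit 16777459) (.two (nat_lit 2097152) (nat_lit 16777539) (.one (nat_lit 16777604) .nil)))),
   .two (nat_lit 50331656) (nat_lit 157038936072) (.two (nat_lit 1358954500) (nat_lit 9899606041) (.two (nat_lit 272629763) (nat_lit 352321593) (.two (nat_lit 50331649) (nat_lit 11510218993) (.two (nat_lit 4194304) (nat_lit 1913651474) (.one (nat_lit 101712248) .nil))))),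
   .two (nat_lit 101711880) (nat_lit 165532401672) (.two (nat_lit 11476664324) (nat_lit 159224168474) (.two (nat_lit 20644364290) (nat_lit 1048696) (.two (nat_lit 2097153) (nat_lit 47555018990) (.one (nat_lit 1384120669) .nil)))),
   .two (nat_lit 46407876616) (nat_lit 4194347) (.two (nat_lit 156971827203) (nat_lit 2097242) (.two (nat_lit 156364701697) (nat_lit 1849688346) (.one (nat_lit 4194693) .nil))),
   .two (nat_lit 4194312) (nat_lit 41943097) (.two (nat_lit 4194306) (nat_lit 1175453855) (.two (nat_lit 2097153) (nat_lit 9768534254) (.two (nat_lit 1048576) (nat_lit 1277165907) (.one (nat_lit 11543773575) .nil)))),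
   .two (nat_lit 742391816) (nat_lit 11559501881) (.two (nat_lit 50331651) (nat_lit 166197199008) (.two (nat_lit 37748737) (nat_lit 1962934511) (.two (nat_lit 2097152) (nat_lit 46477082968) (.one (nat_lit 158179787146) .nil)))),
   .two (nat_lit 1291845640) (nat_lit 174753579016) (.two (nat_lit 37748740) (nat_lit 1358954553) (.two (nat_lit 9781116929) (nat_lit 1746927815) (.two (nat_lit 2097152) (nat_lit 4194618) (.one (nat_lit 2097550) .nil)))),
   .two (nat_lit 50331656) (nat_lit 9906946074) (.two (nat_lit 16777219) (nat_lit 166203490418) (.two (nat_lit 2097153) (nat_lit 1929380038) (.two (nat_lit 8388608) (nat_lit 2097467) (.one (nat_lit 16777598) .nil)))),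
   .two (nat_lit 285212680) (nat_lit 1753219080) (.two (nat_lit 50331652) (nat_lit 156372041758) (.two (nat_lit 46414168067) (nat_lit 754974900) (.two (nat_lit 8388608) (nat_lit 16777535) (.one (nat_lit 16777603) .nil)))),
   .two (nat_lit 158083317768) (nat_lit 19530776584) (.two (nat_lit 46984593412) (nat_lit 46407876651) (.two (nat_lit 10336862211) (nat_lit 1753219129) (.two (nat_lit 9765388289) (nat_lit 46407876890) (.one (nat_lit 2097551) .nil)))),
   .two (nat_lit 272629768) (nat_lit 20644364298) (.two (nat_lit 809500676) (nat_lit 47555018783) (.two (nat_lit 4194306) (nat_lit 3028287648) (.two (nat_lit 4194304) (nat_lit 8388929) (.one (nat_lit 4194704) .nil)))),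
   .two (nat_lit 822083592) (nat_lit 159217877000) (.two (nat_lit 159217876996) (nat_lit 285212707) (.two (nat_lit 169869314) (nat_lit 16777376) (.two (nat_lit 2097152) (nat_lit 3036676417) (.one (nat_lit 1962934620) .nil)))),
   .two (nat_lit 12117344264) (nat_lit 2097163) (.two (nat_lit 46407876612) (nat_lit 183916036121) (.two (nat_lit 270532611) (nat_lit 4194393) (.two (nat_lit 2097153) (nat_lit 2956984516) (.two (nat_lit 1048576) (nat_lit 166197199087) (.one (nat_lit 4194662) .nil))))),
   .two (nat_lit 183853121544) (nat_lit 1916796936) (.two (nat_lit 742391812) (nat_lit 47588573271) (.two (nat_lit 2097153) (nat_lit 2894070039) (.one (nat_lit 8389009) .nil))),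
   .two (nat_lit 822083592) (nat_lit 20638072869) (.two (nat_lit 169869316) (nat_lit 50331705) (.two (nat_lit 117440515) (nat_lit 12047089823) (.two (nat_lit 606076929) (nat_lit 28757197074) (.two (nat_lit 1048576) (nat_lit 2097501) (.one (nat_lit 1048999) .nil))))),
   .two (nat_lit 822083592) (nat_lit 10000269348) (.two (nat_lit 156367847428) (nat_lit 158192369750) (.two (nat_lit 754974723) (nat_lit 10538188990) (.two (nat_lit 2097153) (nat_lit 19127075093) (.two (nat_lit 4194304) (nat_lit 156466413916) (.one (nat_lit 1049000) .nil))))),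
   .two (nat_lit 1191182344) (nat_lit 19096666138) (.two (nat_lit 1350565892) (nat_lit 117440569) (.two (nat_lit 713031682) (nat_lit 16777420) (.two (nat_lit 156367847425) (nat_lit 2902458643) (.two (nat_lit 4194304) (nat_lit 8388958) (.one (nat_lit 8389033) .nil))))),
   .two (nat_lit 1358954504) (nat_lit 3460300838) (.two (nat_lit 28086108164) (nat_lit 138412116) (.two (nat_lit 708837379) (nat_lit 16777421) (.two (nat_lit 605028353) (nat_lit 2097463) (.two (nat_lit 1048576) (nat_lit 9766437205) (.one (nat_lit 2097578) .nil))))),
   .two (nat_lit 742391816) (nat_lit 183845781539) (.two (nat_lit 11479810052) (nat_lit 156365750356) (.two (nat_lit 11479810050) (nat_lit 18925748384) (.two (nat_lit 9768534017) (nat_lit 166196150550) (.two (nat_lit 1048576) (nat_lit 4194656) (.one (nat_lit 16777646) .nil))))),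
   .two (nat_lit 285212680) (nat_lit 2323644453) (.two (nat_lit 50331652) (nat_lit 18933088340) (.two (nat_lit 16777218) (nat_lit 8388811) (.two (nat_lit 16777217) (nat_lit 2097461) (.two (nat_lit 8388608) (nat_lit 69206379) (.one (nat_lit 2097587) .nil))))),
   .two (nat_lit 50331656) (nat_lit 183853121696) (.two (nat_lit 41943041) (nat_lit 157051519318) (.one (nat_lit 8389028) .nil)),
   .two (nat_lit 285212680) (nat_lit 158083317863) (.two (nat_lit 16777218) (nat_lit 10343153902) (.two (nat_lit 8388608) (nat_lit 11559502171) (.one (nat_lit 8389029) .nil))),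
   .two (nat_lit 11492392968) (nat_lit 21785215014) (.two (nat_lit 721420292) (nat_lit 12054429878) (.two (nat_lit 8388609) (nat_lit 16777497) (.two (nat_lit 16777216) (nat_lit 8389023) .nil))),
   .two (nat_lit 1291845640) (nat_lit 174753579167) (.two (nat_lit 606076929) (nat_lit 9814671752) .nil),
   .two (nat_lit 20644364296) (nat_lit 21208498202) (.two (nat_lit 184423546884) (nat_lit 156971827382) (.two (nat_lit 4194305) (nat_lit 8388918) (.two (nat_lit 2097152) (nat_lit 4194674) (.one (nat_lit 4194740) .nil)))),
   .two (nat_lit 9948889096) (nat_lit 156365750312) (.two (nat_lit 165525061636) (nat_lit 4601151599) (.two (nat_lit 46422556675) (nat_lit 9802088686) (.two (nat_lit 1048576) (nat_lit 337641837) (.one (nat_lit 1048998) .nil)))),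
   .two (nat_lit 754974728) (nat_lit 9802088479) (.two (nat_lit 11492392964) (nat_lit 9802088686) (.two (nat_lit 16777216) (nat_lit 9936306581) .nil)),
   .two (nat_lit 1178599432) (nat_lit 11618222120) (.two (nat_lit 742391812) (nat_lit 20644364373) (.two (nat_lit 1344274435) (nat_lit 20644364464) (.two (nat_lit 37748737) (nat_lit 41943348) (.two (nat_lit 4194304) (nat_lit 4028629394) .nil)))),
   .two (nat_lit 272629768) (nat_lit 184993972248) (.two (nat_lit 4194308) (nat_lit 159224168532) (.two (nat_lit 46414168067) (nat_lit 3024093385) (.two (nat_lit 4194305) (nat_lit 8388968) (.two (nat_lit 4194304) (nat_lit 1048947) (.one (nat_lit 1049013) .nil))))),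
   .two (nat_lit 183848927240) (nat_lit 11510218777) (.two (nat_lit 169869316) (nat_lit 11559501908) (.two (nat_lit 1291845635) (nat_lit 2097353) (.two (nat_lit 156364701697) (nat_lit 10540286255) (.two (nat_lit 1048576) (nat_lit 4194676) (.one (nat_lit 1049014) .nil))))),
   .two (nat_lit 50331656) (nat_lit 28791799841) (.two (nat_lit 184993972228) (nat_lit 16777328) (.two (nat_lit 16777218) (nat_lit 20705181856) (.two (nat_lit 16777217) (nat_lit 20705181935) (.two (nat_lit 8388608) (nat_lit 4647289180) (.one (nat_lit 16777655) .nil))))),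
   .two (nat_lit 156372041736) (nat_lit 11559501856) (.two (nat_lit 156372041732) (nat_lit 16777329) (.two (nat_lit 46414168066) (nat_lit 117440694) (.two (nat_lit 8388609) (nat_lit 1191182673) (.one (nat_lit 16777612) .nil)))),
   .two (nat_lit 2902458376) (nat_lit 21208498211) (.two (nat_lit 2902458372) (nat_lit 47548727407) (.two (nat_lit 218103811) (nat_lit 10907287711) (.two (nat_lit 37748737) (nat_lit 822083822) (.two (nat_lit 4194304) (nat_lit 47596962141) (.one (nat_lit 1411383714) .nil))))),
   .two (nat_lit 12047089672) (nat_lit 21827158073) (.two (nat_lit 184986632195) (nat_lit 21223178441) (.two (nat_lit 34603009) (nat_lit 4194586) (.two (nat_lit 1048576) (nat_lit 4194655) (.one (nat_lit 4194731) .nil)))),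
   .two (nat_lit 1358954504) (nat_lit 310378527) (.two (nat_lit 41943044) (nat_lit 11559501881) (.two (nat_lit 8388611) (nat_lit 687866042) (.two (nat_lit 8388609) (nat_lit 3539992852) (.two (nat_lit 1048576) (nat_lit 20711473499) (.one (nat_lit 16777656) .nil))))),
   .two (nat_lit 2887778312) (nat_lit 165532401748) (.two (nat_lit 270532611) (nat_lit 10343153933) (.two (nat_lit 1048576) (nat_lit 8388981) (.one (nat_lit 159216828822) .nil))),
   .two (nat_lit 620757002) (nat_lit 21208498205) (.two (nat_lit 9934209028) (nat_lit 620757049) (.two (nat_lit 169869314) (nat_lit 47596961979) (.two (nat_lit 2097153) (nat_lit 16777528) (.two (nat_lit 2097152) (nat_lit 16777613) (.one (nat_lit 2097580) .nil))))),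
   .two (nat_lit 11492392968) (nat_lit 2316304420) (.two (nat_lit 12129927172) (nat_lit 135266463) (.two (nat_lit 2097153) (nat_lit 285212910) (.two (nat_lit 1048576) (nat_lit 69206427) .nil))),
   .two (nat_lit 713031688) (nat_lit 117440569) (.two (nat_lit 41943043) (nat_lit 1224736959) (.two (nat_lit 50331649) (nat_lit 184993972462) (.two (nat_lit 8388608) (nat_lit 16777590) (.one (nat_lit 3573547415) .nil)))),
   .two (nat_lit 272629768) (nat_lit 3464495209) (.two (nat_lit 4194306) (nat_lit 47555018990) (.two (nat_lit 4194304) (nat_lit 18933088603) (.one (nat_lit 4194733) .nil))),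
   .two (nat_lit 285212680) (nat_lit 4601151514) (.two (nat_lit 218103812) (nat_lit 158177689687) (.two (nat_lit 2902458370) (nat_lit 9900654790) (.two (nat_lit 2097153) (nat_lit 1782579480) (.two (nat_lit 4194304) (nat_lit 10437525852) (.one (nat_lit 606077355) .nil))))),
   .two (nat_lit 754974746) (nat_lit 1948254234) (.two (nat_lit 11551113224) (nat_lit 21827158073) (.two (nat_lit 742391812) (nat_lit 3472883898) (.two (nat_lit 11479810050) (nat_lit 4599054610) (.two (nat_lit 41943041) (nat_lit 270532949) (.two (nat_lit 2097152) (nat_lit 2956984712) (.one (nat_lit 203424176) .nil)))))),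
   .two (nat_lit 1847590938) (nat_lit 8388647) (.two (nat_lit 11551113224) (nat_lit 1358954553) (.two (nat_lit 165532401668) (nat_lit 28691136699) (.two (nat_lit 620756995) (nat_lit 2097430) (.two (nat_lit 612368385) (nat_lit 1377829211) (.two (nat_lit 2097152) (nat_lit 8389021) (.one (nat_lit 2097595) .nil)))))),
   .two (nat_lit 117440538) (nat_lit 159224168480) (.two (nat_lit 9881780232) (nat_lit 46414168172) (.two (nat_lit 612368388) (nat_lit 1795162271) (.two (nat_lit 713031683) (nat_lit 19612565778) (.two (nat_lit 620756993) (nat_lit 156472705417) (.one (nat_lit 8389052) .nil))))),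
   .two (nat_lit 4605345817) (nat_lit 4194345) (.two (nat_lit 742391816) (nat_lit 183853121621) (.two (nat_lit 742391812) (nat_lit 183853121775) (.two (nat_lit 8388609) (nat_lit 136315249) (.two (nat_lit 2097152) (nat_lit 8389027) (.one (nat_lit 8389053) .nil))))),
   .two (nat_lit 721420312) (nat_lit 158177689625) (.two (nat_lit 721420296) (nat_lit 28791799892) (.two (nat_lit 11551113220) (nat_lit 4194545) (.two (nat_lit 9948889091) (nat_lit 2097431) (.two (nat_lit 612368385) (nat_lit 4194652) (.two (nat_lit 2097152) (nat_lit 4194738) (.one (nat_lit 4194761) .nil)))))),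
   .two (nat_lit 166132187160) (nat_lit 11492392995) (.two (nat_lit 1191182344) (nat_lit 19532873887) (.two (nat_lit 9768534019) (nat_lit 9881780563) (.two (nat_lit 4194304) (nat_lit 16777610) (.one (nat_lit 4194762) .nil)))),
   .two (nat_lit 184993972249) (nat_lit 822083615) (.two (nat_lit 50331656) (nat_lit 12054429935) (.two (nat_lit 41943041) (nat_lit 687866199) (.two (nat_lit 8388608) (nat_lit 16777630) (.one (nat_lit 8389067) .nil)))),
   .two (nat_lit 11559501847) (nat_lit 337641508) (.two (nat_lit 117440520) (nat_lit 10000269420) (.two (nat_lit 1745879044) (nat_lit 2317353119) (.two (nat_lit 12047089667) (nat_lit 3558867222) (.two (nat_lit 34603009) (nat_lit 2097518) (.two (nat_lit 1048576) (nat_lit 2097567) (.one (nat_lit 2097612) .nil)))))),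
   .two (nat_lit 21208498202) (nat_lit 218103872) (.two (nat_lit 1291845640) (nat_lit 174753579246) (.two (nat_lit 606076929) (nat_lit 9814671752) (.one (nat_lit 166245433785) .nil))),
   .two (nat_lit 11559501848) (nat_lit 2097192) (.two (nat_lit 813694984) (nat_lit 117440569) (.two (nat_lit 41943044) (nat_lit 16777418) (.two (nat_lit 8388611) (nat_lit 2097432) (.two (nat_lit 2097153) (nat_lit 8388975) (.two (nat_lit 2097152) (nat_lit 16777632) (.one (nat_lit 2097613) .nil)))))),
   .two (nat_lit 272629783) (nat_lit 165532401698) (.two (nat_lit 272629768) (nat_lit 28093448372) (.two (nat_lit 4194306) (nat_lit 20644364625) (.two (nat_lit 4194304) (nat_lit 8389003) (.one (nat_lit 4194766) .nil)))),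
   .two (nat_lit 13191086106) (nat_lit 9799991354) (.two (nat_lit 11492392968) (nat_lit 165526110318) (.two (nat_lit 183848927236) (nat_lit 158176641220) (.two (nat_lit 270532611) (nat_lit 10372514072) (.two (nat_lit 2097153) (nat_lit 4194672) (.two (nat_lit 1048576) (nat_lit 2097569) (.one (nat_lit 4194767) .nil)))))),
   .two (nat_lit 4601151513) (nat_lit 218103844) (.two (nat_lit 13191086088) (nat_lit 654311509) (.two (nat_lit 4601151492) (nat_lit 10351542462) (.two (nat_lit 4194306) (nat_lit 19612565781) (.two (nat_lit 4194305) (nat_lit 156984410453) (.two (nat_lit 16777216) (nat_lit 1379926419) (.one (nat_lit 4194768) .nil)))))),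
   .two (nat_lit 47555018776) (nat_lit 185035915294) (.two (nat_lit 11559501832) (nat_lit 159224168505) (.two (nat_lit 612368388) (nat_lit 12062818505) (.two (nat_lit 176160770) (nat_lit 47548727570) (.two (nat_lit 620756993) (nat_lit 47582282130) (.one (nat_lit 2097617) .nil))))),
   .two (nat_lit 11479810073) (nat_lit 8388673) (.two (nat_lit 272629768) (nat_lit 1753219129) (.two (nat_lit 4194308) (nat_lit 159224168623) (.two (nat_lit 4194306) (nat_lit 8388916) (.two (nat_lit 37748737) (nat_lit 1048945) (.two (nat_lit 1048576) (nat_lit 4194722) (.one (nat_lit 1049042) .nil)))))),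
   .two (nat_lit 285212697) (nat_lit 10000269348) (.two (nat_lit 9781116936) (nat_lit 159217877175) (.two (nat_lit 2097155) (nat_lit 19042140439) (.two (nat_lit 4194305) (nat_lit 10369368405) (.two (nat_lit 1048576) (nat_lit 2956984729) (.one (nat_lit 1049043) .nil))))),
   .two (nat_lit 28093448218) (nat_lit 46992982103) (.two (nat_lit 721420296) (nat_lit 47588573378) (.two (nat_lit 1291845636) (nat_lit 174753579246) (.two (nat_lit 9948889091) (nat_lit 185021235542) (.two (nat_lit 41943041) (nat_lit 9814671752) (.two (nat_lit 2097152) (nat_lit 8389058) (.one (nat_lit 8389084) .nil)))))),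
   .two (nat_lit 11479810073) (nat_lit 1358954553) (.two (nat_lit 75497480) (nat_lit 28772925627) (.two (nat_lit 1929379844) (nat_lit 1916797197) (.two (nat_lit 13191086083) (nat_lit 16777580) (.two (nat_lit 37748737) (nat_lit 8389041) (.two (nat_lit 4194304) (nat_lit 16777667) (.one (nat_lit 4194781) .nil)))))),
   .two (nat_lit 3028287519) (nat_lit 9881780308) (.two (nat_lit 612368392) (nat_lit 1291845791) (.two (nat_lit 620756997) (nat_lit 20644364559) (.two (nat_lit 46414168067) (nat_lit 16777581) (.two (nat_lit 620756993) (nat_lit 166237045129) (.two (nat_lit 16777216) (nat_lit 8389060) (.one (nat_lit 16777694) .nil)))))),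
   .two (nat_lit 156581756954) (nat_lit 8388719) (.two (nat_lit 41943048) (nat_lit 1191182495) (.two (nat_lit 13237223430) (nat_lit 21785215248) (.two (nat_lit 822083587) (nat_lit 183853121876) (.two (nat_lit 50331649) (nat_lit 1786773896) (.two (nat_lit 2097152) (nat_lit 8389049) (.one (nat_lit 8389087) .nil)))))),
   .two (nat_lit 21208498211) (nat_lit 675283028) (.two (nat_lit 117440520) (nat_lit 28793897146) (.two (nat_lit 4194308) (nat_lit 1358954734) (.two (nat_lit 21777874947) (nat_lit 19094569325) (.two (nat_lit 4194305) (nat_lit 2097563) (.two (nat_lit 1048576) (nat_lit 2097605) (.one (nat_lit 1049056) .nil)))))),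
   .two (nat_lit 159224168480) (nat_lit 21827158073) (.two (nat_lit 10385096712) (nat_lit 9869197512) (.two (nat_lit 47555018756) (nat_lit 2956984661) (.two (nat_lit 37748737) (nat_lit 4613734805) (.two (nat_lit 4194304) (nat_lit 16777670) (.one (nat_lit 4194785) .nil))))),
   .two (nat_lit 184549411) (nat_lit 21785215033) (.two (nat_lit 620757000) (nat_lit 20644364468) (.two (nat_lit 612368388) (nat_lit 9948889326) (.two (nat_lit 176160771) (nat_lit 16777563) (.two (nat_lit 8388609) (nat_lit 16777628) (.two (nat_lit 8388608) (nat_lit 16777671) (.one (nat_lit 16777698) .nil)))))),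
   .two (nat_lit 285212695) (nat_lit 20644364395) (.two (nat_lit 285212680) (nat_lit 158083318030) (.two (nat_lit 16777218) (nat_lit 156372042118) (.two (nat_lit 16777216) (nat_lit 8389050) (.one (nat_lit 8389091) .nil)))),
   .two (nat_lit 343932959) (nat_lit 11559501881) (.two (nat_lit 41943048) (nat_lit 156380430533) (.two (nat_lit 721420292) (nat_lit 183853121873) (.two (nat_lit 50331649) (nat_lit 19134415241) (.two (nat_lit 16777216) (nat_lit 8389064) (.one (nat_lit 16777687) .nil))))),
   .two (nat_lit 679477332) (nat_lit 606077015) (.two (nat_lit 1847590937) (nat_lit 8388809) (.two (nat_lit 46414168072) (nat_lit 16777523) (.two (nat_lit 176160772) (nat_lit 2097515) (.two (nat_lit 183861510147) (nat_lit 8389018) (.two (nat_lit 8388609) (nat_lit 2097601) (.two (nat_lit 2097152) (nat_lit 8389083) (.one (nat_lit 2097644) .nil))))))),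
   .two (nat_lit 185035915321) (nat_lit 2994733254) (.two (nat_lit 713031688) (nat_lit 174701150484) (.two (nat_lit 185002360836) (nat_lit 184993972563) (.two (nat_lit 41943043) (nat_lit 2097560) (.two (nat_lit 50331649) (nat_lit 304087510) (.one (nat_lit 2097641) .nil))))),
   .two (nat_lit 156971827284) (nat_lit 2097239) (.two (nat_lit 156533522458) (nat_lit 156971827359) (.two (nat_lit 1317011466) (nat_lit 11611930901) (.two (nat_lit 847249414) (nat_lit 608174421) (.two (nat_lit 13195280387) (nat_lit 4194713) (.two (nat_lit 41943041) (nat_lit 4194751) (.two (nat_lit 2097152) (nat_lit 4194778) (.one (nat_lit 2097642) .nil))))))),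
   .two (nat_lit 822083641) (nat_lit 8388719) (.two (nat_lit 285212695) (nat_lit 8388808) (.two (nat_lit 41943048) (nat_lit 2365587802) (.two (nat_lit 16777218) (nat_lit 9772728712) (.two (nat_lit 8388609) (nat_lit 2097600) (.two (nat_lit 16777216) (nat_lit 69206486) (.one (nat_lit 2097643) .nil)))))),
   .two (nat_lit 1916796985) (nat_lit 8388806) (.two (nat_lit 13195280410) (nat_lit 156971827439) (.two (nat_lit 183853121544) (nat_lit 1346371928) (.two (nat_lit 12050235396) (nat_lit 109052336) (.two (nat_lit 37748737) (nat_lit 2097622) (.two (nat_lit 2097152) (nat_lit 4194791) (.one (nat_lit 11511267824) .nil)))))),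
   .two (nat_lit 1358954553) (nat_lit 8388807) (.two (nat_lit 1291845656) (nat_lit 8388914) (.two (nat_lit 83886088) (nat_lit 20644364625) (.two (nat_lit 21793603588) (nat_lit 166237045129) (.two (nat_lit 176160771) (nat_lit 4194750) (.two (nat_lit 8388609) (nat_lit 46422557142) (.two (nat_lit 4194304) (nat_lit 8389096) (.one (nat_lit 4194797) .nil))))))),
   .two (nat_lit 11559501984) (nat_lit 2097392) (.two (nat_lit 3028287573) (nat_lit 4194609) (.two (nat_lit 713031705) (nat_lit 9881780563) (.two (nat_lit 713031688) (nat_lit 4599054738) (.two (nat_lit 83886084) (nat_lit 1920991664) (.two (nat_lit 41943043) (nat_lit 2097625) (.two (nat_lit 37748737) (nat_lit 2097638) (.two (nat_lit 2097152) (nat_lit 4194800) (.one (nat_lit 2097650) .nil))))))))]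

theorem k1 : chkL tab c1 (nat_lit 300) = true := by decide +kernel

theorem l1 : c1.length = 200 := by decide +kernel

end K6

end Pool.Agent.Work.MP_bf01b2_co.MR
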