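import Pool.Agent.Work.MP_bf01b2_co.MR.K6D

/-!
# Stars in `Q_5`

* Five roots and 20 vertices: all forests embed, except that nothing is claimed if a root with at
  least 3 vertices has four roots among its neighbours, or if a root with at least 7 vertices has
  three roots with at least 3 vertices among its neighbours and there is a root at distance two.
* Six roots and 22 vertices, one root has size one and is adjacent to the five others: all forests
  embed, except for the sizes `9, 3, 3, 3, 3, 1`.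
-/

set_option autoImplicit false

namespace Pool.Agent.Work.MP_bf01b2_co.MR

open K6 K4 Exc Tab

theorem K6.enc_flip : ∀ (p : Fin 5 → Bool) (j : Fin 5),
    encV (flip j p) = encV p ^^^ 2 ^ (j : ℕ) := by decide +kernel

theorem K6.ncadj_enc {p q : Fin 5 → Bool} (h : cadj 5 p q) : ncadj 5 (encV p) (encV q) := by
  obtain ⟨j, rfl⟩ := cadj_iff.1 h
  exact ⟨j, j.2, K6.enc_flip p j⟩

/-- **Five roots and 20 vertices in `Q_5`**, with fewer exceptions. -/
theorem hf5_five2 (ms : List ((Fin 5 → Bool) × ℕ)) (hnd : (ms.map Prod.fst).Nodup)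
    (hlen : ms.length = 5) (hN : (ms.map Prod.snd).sum ≤ 20) (hb : ¬ BdL2 ms) :
    HF (cadj 5) Finset.univ ms := by
  have h1 := enc_nodup hnd
  have h2 := enc_lt (ms := ms)
  have hCB : CB Bd2 (maskL (ms.map fun a => encV a.1)) 20 := by
    match ms, hlen, h1, h2 with
    | [a, b, c, d, e], _, h1, h2 => exact quint_ok Bd2_inv (fun b c d e => K6.all5) h1 h2
  exact CB.toHF hCB (maskL_lt enc_lt) ms hnd (fun _ => testBit_maskL.symm) hN
    (fun k hk h => hb (Bd2_list hk h))

/-- **Six roots and 22 vertices in `Q_5`**: a root of size one and its five neighbours. -/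
theorem hf5_star6 (ms : List ((Fin 5 → Bool) × ℕ)) (hnd : (ms.map Prod.fst).Nodup)
    (hlen : ms.length = 6) (hN : (ms.map Prod.snd).sum ≤ 22) {c : (Fin 5 → Bool) × ℕ}
    (_hc : c ∈ ms) (hc1 : c.2 = 1) (hadj : ∀ z ∈ ms, z ≠ c → cadj 5 c.1 z.1)
    (hb : szL ms ≠ {9, 3, 3, 3, 3, 1}) :
    HF (cadj 5) Finset.univ ms := by
  classical
  have h1 := enc_nodup hnd
  have h2 := enc_lt (ms := ms)
  have hp : encV c.1 < 32 := encV_lt c.1
  have hadj' : ∀ z ∈ ms, z ≠ c → ncadj 5 (encV c.1) (encV z.1) := fun z hz hne =>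
    ncadj_enc (hadj z hz hne)
  set l := ms.map fun a => encV a.1 with hl
  have hL : ∀ z, z ∈ l ↔ z ∈ [encV c.1, encV c.1 ^^^ 1, encV c.1 ^^^ 2, encV c.1 ^^^ 4,
      encV c.1 ^^^ 8, encV c.1 ^^^ 16] := by
    have hsub : l.toFinset ⊆ [encV c.1, encV c.1 ^^^ 1, encV c.1 ^^^ 2, encV c.1 ^^^ 4,
      encV c.1 ^^^ 8, encV c.1 ^^^ 16].toFinset := by
      intro z hz
      rw [List.mem_toFinset] at hz ⊢
      obtain ⟨a, ha, rfl⟩ := List.mem_map.1 hz
      by_cases hac : a = c
      · rw [hac]
        exact List.mem_cons_self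
      · obtain ⟨i, hi, he⟩ := hadj' a ha hac
        rw [he]
        interval_cases i <;> simp
    have hcard : l.toFinset.card = 6 := by
      rw [List.toFinset_card_of_nodup h1, hl, List.length_map, hlen]
    have heq := Finset.eq_of_subset_of_card_le hsub (by
      rw [hcard]
      exact (List.toFinset_card_le _).trans (by simp))
    intro z
    rw [← List.mem_toFinset, heq, List.mem_toFinset]
  have hmask : maskL l = maskL (encV c.1 :: [encV c.1 ^^^ 1, encV c.1 ^^^ 2, encV c.1 ^^^ 4,
      encV c.1 ^^^ 8, encV c.1 ^^^ 16]) := maskL_congr hL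
  have hx : ∀ j, (encV c.1 ^^^ j) ^^^ encV c.1 = j := by
    intro j
    rw [Nat.xor_comm (encV c.1) j, Nat.xor_assoc, Nat.xor_self, Nat.xor_zero]
  have hCB : CB B6 (maskL l) 22 := by
    rw [hmask]
    refine CB.shift B6_inv hp ?_ ?_
    · intro q hq
      refine h2 q ((hL q).2 (List.mem_cons_of_mem _ hq))
    · simp only [List.map_cons, List.map_nil, hx]
      exact fS
  refine CB.toHF hCB (maskL_lt enc_lt) ms hnd (fun _ => testBit_maskL.symm) hN
    (fun k hk h => ?_)
  rcases h with ⟨c', h3, h4, h5⟩ | h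
  · obtain ⟨a, ha, rfl⟩ := mem_mask h3
    by_cases hac : a = c
    · have := hk a ha
      rw [hac, hc1] at this
      rw [hac] at h5
      omega
    · -- two centres: impossible, because the graph has no triangle
      obtain ⟨i, hi, he⟩ := hadj' a ha hac
      obtain ⟨j, hj, hji⟩ : ∃ j, j < 5 ∧ j ≠ i := by
        by_cases h0 : i = 0
        · exact ⟨1, by norm_num, by omega⟩
        · exact ⟨0, by norm_num, fun h => h0 h.symm⟩
      have h6 : encV c.1 ^^^ 2 ^ j ∈ l := by
        rw [hL]
        interval_cases j <;> simp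
      have hne : encV c.1 ^^^ 2 ^ j ≠ encV a.1 := by
        rw [he]
        intro h0
        have h7 := Nat.xor_right_injective h0
        exact hji (Nat.pow_right_injective le_rfl h7)
      obtain ⟨i', hi', he'⟩ := h4 _ (testBit_maskL.2 h6) hne
      rw [he, Nat.xor_assoc] at he'
      have h8 : 2 ^ j = 2 ^ i ^^^ 2 ^ i' := Nat.xor_right_injective he'
      have h9 : ∀ i < 5, ∀ i' < 5, ∀ j < 5, 2 ^ j ≠ 2 ^ i ^^^ 2 ^ i' := by decide +kernel
      exact h9 i hi i' hi' j hj h8
  · rw [szs_list hnd hk] at h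
    exact hb h

end Pool.Agent.Work.MP_bf01b2_co.MR
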