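import Pool.Agent.Work.MP_bf01b2_co.MR.K5F
import Pool.Agent.Work.MP_bf01b2_co.MR.K4F

/-!
# Stars in `Q_5`: tools
-/

set_option autoImplicit false

namespace Pool.Agent.Work.MP_bf01b2_co.MR

namespace K6

open Tab Exc K4

/-! ### Six roots: a root with one vertex and its five neighbours -/

/-- vectors which need no cover: the centre is not a single vertex, or the first tree is not the
largest one, or the exception -/
noncomputable def spS (l : List ℕ) : Bool :=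
  JT.ro (Nat.ble 2 (l.getD 1 0)) (JT.ro (Nat.ble (Nat.succ (l.getD 0 0)) (l.getD 2 0))
    (JT.ro (Nat.ble (Nat.succ (l.getD 0 0)) (l.getD 3 0))
      (JT.ro (Nat.ble (Nat.succ (l.getD 0 0)) (l.getD 4 0))
        (JT.ro (Nat.ble (Nat.succ (l.getD 0 0)) (l.getD 5 0)) (eqL l [9, 1, 3, 3, 3, 3])))))

theorem star_max {T lim M D : ℕ} (hT : ∀ i < lim, Tab.Good T i)
    (h : Bm.cls T lim spS [1, 2, 4, 8, 16, 0] [0, 0, 0, 0, 0, 0] M 22 D = true) (hM : M ≤ 512)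
    (h8 : GF FULL [1, 2, 4, 8, 16, 0] [8, 3, 3, 3, 3, 1]) (k : ℕ → ℕ) (hk0 : k 0 = 0)
    (hs : k 1 + k 2 + k 4 + k 8 + k 16 ≤ 16) (k2 : k 2 ≤ k 1) (k4 : k 4 ≤ k 1) (k8 : k 8 ≤ k 1)
    (k16 : k 16 ≤ k 1) (hne : ¬ (k 1 = 8 ∧ k 2 = 2 ∧ k 4 = 2 ∧ k 8 = 2 ∧ k 16 = 2)) :
    NF 5 FULL 0 (mkL k [1, 2, 4, 8, 16, 0]) := by
  rcases Bm.cls_ok hT rfl (by decide) hM h k (by
    simp only [List.map_cons, List.map_nil, List.sum_cons, List.sum_nil]
    omega) with h1 | ⟨n0, h1, h2⟩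
  · exact h1
  · have h2' : JT.ro (Nat.ble 2 (k 0 + 1)) (JT.ro (Nat.ble (Nat.succ n0) (k 16 + 1))
        (JT.ro (Nat.ble (Nat.succ n0) (k 8 + 1))
          (JT.ro (Nat.ble (Nat.succ n0) (k 4 + 1))
            (JT.ro (Nat.ble (Nat.succ n0) (k 2 + 1))
              (eqL [n0, k 0 + 1, k 16 + 1, k 8 + 1, k 4 + 1, k 2 + 1]
                [9, 1, 3, 3, 3, 3]))))) = true := h2
    simp only [JT.ro_iff] at h2'
    rcases h2' with h3 | h3 | h3 | h3 | h3 | h3
    · have := Nat.le_of_ble_eq_true h3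
      omega
    · have : n0 + 1 ≤ k 16 + 1 := Nat.le_of_ble_eq_true h3
      omega
    · have : n0 + 1 ≤ k 8 + 1 := Nat.le_of_ble_eq_true h3
      omega
    · have : n0 + 1 ≤ k 4 + 1 := Nat.le_of_ble_eq_true h3
      omega
    · have : n0 + 1 ≤ k 2 + 1 := Nat.le_of_ble_eq_true h3
      omega
    · have h4 := eqL_ok h3
      simp only [List.cons.injEq] at h4
      obtain ⟨h5, _, h6, h7, h8', h9, _⟩ := h4
      refine h8 k ⟨?_, by omega, by omega, by omega, by omega, by omega, trivial⟩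
      by_contra hc
      exact hne ⟨by omega, by omega, by omega, by omega, by omega⟩

theorem swap_nf {i : ℕ} (hi : 0 < i) (hi5 : i < 5) {k : ℕ → ℕ}
    (h : NF 5 FULL 0 (mkL (fun z => k (swapV 0 i z)) [1, 2, 4, 8, 16, 0])) :
    NF 5 FULL 0 (mkL k [0, 1, 2, 4, 8, 16]) := by
  have h1 := NF.swap hi hi5 (by decide) (by norm_num) h
  have h2 : swapM 0 i 0xFFFFFFFF = 0xFFFFFFFF := by
    have : ∀ i < 5, 0 < i → swapM 0 i 0xFFFFFFFF = 0xFFFFFFFF := by decide +kernel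
    exact this i hi5 hi
  have h3 : swapM 0 i 0 = 0 := by
    have : ∀ i < 5, 0 < i → swapM 0 i 0 = 0 := by decide +kernel
    exact this i hi5 hi
  have e : FULL = 0xFFFFFFFF := rfl
  rw [e] at h1 ⊢
  rw [h2, h3] at h1
  have h4 : ∀ i < 5, ∀ z ∈ [0, 1, 2, 4, 8, 16], swapV 0 i z ∈ [0, 1, 2, 4, 8, 16] := by
    decide +kernel
  have h5 : ∀ z, z ∈ [1, 2, 4, 8, 16, 0] ↔ z ∈ [0, 1, 2, 4, 8, 16] := by
    intro z
    simp only [List.mem_cons, List.not_mem_nil, or_false]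
    tauto
  refine NF.congr ?_ h1
  intro m
  rw [mem_mkL (zs := [0, 1, 2, 4, 8, 16]), List.mem_map]
  constructor
  · rintro ⟨y, hy, rfl⟩
    rw [mem_mkL] at hy
    obtain ⟨h6, h7⟩ := hy
    refine ⟨h4 i hi5 _ ((h5 _).1 h6), ?_⟩
    rw [h7]
    rfl
  · rintro ⟨h6, h7⟩
    refine ⟨⟨swapV 0 i m.p, k m.p, 0⟩, ?_, ?_⟩
    · rw [mem_mkL]
      refine ⟨(h5 _).2 (h4 i hi5 _ h6), ?_⟩
      show (⟨swapV 0 i m.p, k m.p, 0⟩ : Mk ℕ) =
        ⟨swapV 0 i m.p, k (swapV 0 i (swapV 0 i m.p)), 0⟩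
      rw [swapV_swapV]
    · rw [h7]
      show (⟨swapV 0 i (swapV 0 i m.p), k m.p, 0⟩ : Mk ℕ) = ⟨m.p, k m.p, 0⟩
      rw [swapV_swapV]

/-- the exceptions for the star -/
def B6 (S : ℕ) (k : ℕ → ℕ) : Prop :=
  (∃ c, S.testBit c = true ∧ (∀ z, S.testBit z = true → z ≠ c → ncadj 5 c z) ∧ 1 ≤ k c) ∨
    szs S k = {9, 3, 3, 3, 3, 1}

theorem B6_inv : AInv B6 := by
  intro e he S S' k hS hS' hSe h
  have hb : ∀ z, S'.testBit z = true → S.testBit (e.symm z) = true := by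
    intro z hz
    rw [← hSe, e.apply_symm_apply]
    exact hz
  unfold B6 at h ⊢
  rw [szs_map hS hS' hSe]
  rcases h with ⟨c, h1, h2, h3⟩ | h
  · refine Or.inl ⟨e c, by rw [hSe]; exact h1, fun z hz hne => ?_, h3⟩
    have h5 := he _ _ (h2 _ (hb z hz) (fun h0 => hne (by rw [← h0, e.apply_symm_apply])))
    rwa [e.apply_symm_apply] at h5
  · exact Or.inr h

theorem szs6 {k : ℕ → ℕ} {n0 n1 n2 n4 n8 n16 : ℕ} (h0 : k 0 + 1 = n0) (h1 : k 1 + 1 = n1)
    (h2 : k 2 + 1 = n2) (h4 : k 4 + 1 = n4) (h8 : k 8 + 1 = n8) (h16 : k 16 + 1 = n16) :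
    szs (maskL [0, 1, 2, 4, 8, 16]) k = (([n0, n1, n2, n4, n8, n16] : List ℕ) : Multiset ℕ) := by
  rw [szs_maskL (by decide) (by decide)]
  simp only [List.map_cons, List.map_nil, h0, h1, h2, h4, h8, h16]

theorem star_cb (H : ∀ k : ℕ → ℕ, k 0 = 0 → k 1 + k 2 + k 4 + k 8 + k 16 ≤ 16 → k 2 ≤ k 1 →
      k 4 ≤ k 1 → k 8 ≤ k 1 → k 16 ≤ k 1 →
      ¬ (k 1 = 8 ∧ k 2 = 2 ∧ k 4 = 2 ∧ k 8 = 2 ∧ k 16 = 2) →
      NF 5 FULL 0 (mkL k [1, 2, 4, 8, 16, 0])) : CB B6 (maskL [0, 1, 2, 4, 8, 16]) 22 := by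
  refine CB.of_cls (by decide) (by decide) fun k hk hb => ?_
  have h0 : k 0 = 0 := by
    by_contra hc
    refine hb (Or.inl ⟨0, by decide, fun z hz hne => ?_, by omega⟩)
    have hz := testBit_maskL.1 hz
    simp only [List.mem_cons, List.not_mem_nil, or_false] at hz
    rcases hz with rfl | rfl | rfl | rfl | rfl | rfl
    · exact absurd rfl hne
    · exact ⟨0, by norm_num, by decide⟩
    · exact ⟨1, by norm_num, by decide⟩
    · exact ⟨2, by norm_num, by decide⟩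
    · exact ⟨3, by norm_num, by decide⟩
    · exact ⟨4, by norm_num, by decide⟩
  simp only [List.map_cons, List.map_nil, List.sum_cons, List.sum_nil] at hk
  have hx : ∀ {n1 n2 n4 n8 n16 : ℕ}, k 1 + 1 = n1 → k 2 + 1 = n2 → k 4 + 1 = n4 →
      k 8 + 1 = n8 → k 16 + 1 = n16 →
      (([1, n1, n2, n4, n8, n16] : List ℕ) : Multiset ℕ) = {9, 3, 3, 3, 3, 1} → False := by
    intro n1 n2 n4 n8 n16 h1 h2 h4 h8 h16 he
    refine hb (Or.inr ?_)
    rw [szs6 (by rw [h0]) h1 h2 h4 h8 h16]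
    exact he
  have hsw : ∀ i, 0 < i → i < 5 → (k 1 ≤ k (2 ^ i) ∧ k 2 ≤ k (2 ^ i) ∧ k 4 ≤ k (2 ^ i) ∧
      k 8 ≤ k (2 ^ i) ∧ k 16 ≤ k (2 ^ i)) → NF 5 FULL 0 (mkL k [0, 1, 2, 4, 8, 16]) := by
    intro i hi hi5 ⟨m1, m2, m4, m8, m16⟩
    apply swap_nf hi hi5
    have e0 : ∀ i < 5, swapV 0 i 0 = 0 := by decide +kernel
    interval_cases i
    · have e1 : swapV 0 1 1 = 2 := by decide +kernel
      have e2 : swapV 0 1 2 = 1 := by decide +kernel
      have e4 : swapV 0 1 4 = 4 := by decide +kernel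
      have e8 : swapV 0 1 8 = 8 := by decide +kernel
      have e16 : swapV 0 1 16 = 16 := by decide +kernel
      refine H _ ?_ ?_ ?_ ?_ ?_ ?_ ?_ <;> simp only [e1, e2, e4, e8, e16, e0 1 (by norm_num)]
      · exact h0
      · omega
      · exact m1
      · exact m4
      · exact m8
      · exact m16
      · rintro ⟨a1, a2, a4, a8, a16⟩
        exact hx (n1 := 3) (n2 := 9) (n4 := 3) (n8 := 3) (n16 := 3) (by omega) (by omega)
          (by omega) (by omega) (by omega) (by decide)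
    · have e1 : swapV 0 2 1 = 4 := by decide +kernel
      have e2 : swapV 0 2 2 = 2 := by decide +kernel
      have e4 : swapV 0 2 4 = 1 := by decide +kernel
      have e8 : swapV 0 2 8 = 8 := by decide +kernel
      have e16 : swapV 0 2 16 = 16 := by decide +kernel
      refine H _ ?_ ?_ ?_ ?_ ?_ ?_ ?_ <;> simp only [e1, e2, e4, e8, e16, e0 2 (by norm_num)]
      · exact h0
      · omega
      · exact m2
      · exact m1
      · exact m8
      · exact m16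
      · rintro ⟨a1, a2, a4, a8, a16⟩
        exact hx (n1 := 3) (n2 := 3) (n4 := 9) (n8 := 3) (n16 := 3) (by omega) (by omega)
          (by omega) (by omega) (by omega) (by decide)
    · have e1 : swapV 0 3 1 = 8 := by decide +kernel
      have e2 : swapV 0 3 2 = 2 := by decide +kernel
      have e4 : swapV 0 3 4 = 4 := by decide +kernel
      have e8 : swapV 0 3 8 = 1 := by decide +kernel
      have e16 : swapV 0 3 16 = 16 := by decide +kernel
      refine H _ ?_ ?_ ?_ ?_ ?_ ?_ ?_ <;> simp only [e1, e2, e4, e8, e16, e0 3 (by norm_num)]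
      · exact h0
      · omega
      · exact m2
      · exact m4
      · exact m1
      · exact m16
      · rintro ⟨a1, a2, a4, a8, a16⟩
        exact hx (n1 := 3) (n2 := 3) (n4 := 3) (n8 := 9) (n16 := 3) (by omega) (by omega)
          (by omega) (by omega) (by omega) (by decide)
    · have e1 : swapV 0 4 1 = 16 := by decide +kernel
      have e2 : swapV 0 4 2 = 2 := by decide +kernel
      have e4 : swapV 0 4 4 = 4 := by decide +kernel
      have e8 : swapV 0 4 8 = 8 := by decide +kernel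
      have e16 : swapV 0 4 16 = 1 := by decide +kernel
      refine H _ ?_ ?_ ?_ ?_ ?_ ?_ ?_ <;> simp only [e1, e2, e4, e8, e16, e0 4 (by norm_num)]
      · exact h0
      · omega
      · exact m2
      · exact m4
      · exact m8
      · exact m1
      · rintro ⟨a1, a2, a4, a8, a16⟩
        exact hx (n1 := 3) (n2 := 3) (n4 := 3) (n8 := 3) (n16 := 9) (by omega) (by omega)
          (by omega) (by omega) (by omega) (by decide)
  by_cases c1 : k 2 ≤ k 1 ∧ k 4 ≤ k 1 ∧ k 8 ≤ k 1 ∧ k 16 ≤ k 1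
  · obtain ⟨m2, m4, m8, m16⟩ := c1
    refine NF.congr ?_ (H k h0 (by omega) m2 m4 m8 m16 ?_)
    · intro m
      rw [mem_mkL, mem_mkL]
      simp only [List.mem_cons, List.not_mem_nil, or_false]
      tauto
    · rintro ⟨a1, a2, a4, a8, a16⟩
      exact hx (n1 := 9) (n2 := 3) (n4 := 3) (n8 := 3) (n16 := 3) (by omega) (by omega)
        (by omega) (by omega) (by omega) (by decide)
  · by_cases c2 : k 1 ≤ k 2 ∧ k 4 ≤ k 2 ∧ k 8 ≤ k 2 ∧ k 16 ≤ k 2
    · exact hsw 1 (by norm_num) (by norm_num) ⟨c2.1, le_rfl, c2.2.1, c2.2.2.1, c2.2.2.2⟩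
    · by_cases c4 : k 1 ≤ k 4 ∧ k 2 ≤ k 4 ∧ k 8 ≤ k 4 ∧ k 16 ≤ k 4
      · exact hsw 2 (by norm_num) (by norm_num) ⟨c4.1, c4.2.1, le_rfl, c4.2.2.1, c4.2.2.2⟩
      · by_cases c8 : k 1 ≤ k 8 ∧ k 2 ≤ k 8 ∧ k 4 ≤ k 8 ∧ k 16 ≤ k 8
        · exact hsw 3 (by norm_num) (by norm_num) ⟨c8.1, c8.2.1, c8.2.2.1, le_rfl, c8.2.2.2⟩
        · exact hsw 4 (by norm_num) (by norm_num) ⟨by
            show k 1 ≤ k 16
            omega, by
            show k 2 ≤ k 16
            omega, by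
            show k 4 ≤ k 16
            omega, by
            show k 8 ≤ k 16
            omega, le_rfl⟩

/-! ### Five roots: the fifth root is at distance two from the centre -/

/-- the exceptions for five roots and 20 vertices -/
def Bd2 (S : ℕ) (k : ℕ → ℕ) : Prop :=
  (∃ c, S.testBit c = true ∧ 2 ≤ k c ∧ ∃ Z : Finset ℕ, Z.card = 4 ∧
    ∀ z ∈ Z, S.testBit z = true ∧ ncadj 5 c z) ∨
  (∃ c, S.testBit c = true ∧ 6 ≤ k c ∧ (∃ Z : Finset ℕ, Z.card = 3 ∧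
    ∀ z ∈ Z, S.testBit z = true ∧ ncadj 5 c z ∧ 2 ≤ k z) ∧
    ∃ x y, S.testBit x = true ∧ x ≠ c ∧ ncadj 5 c y ∧ ncadj 5 y x)

theorem Bd2_inv : AInv Bd2 := by
  intro e he S S' k _ _ hS h
  rcases h with ⟨c, h1, h2, Z, h3, h4⟩ | ⟨c, h1, h2, ⟨Z, h3, h4⟩, x, y, h5, h6, h7, h8⟩
  · left
    refine ⟨e c, by rw [hS]; exact h1, h2, Z.map e.toEmbedding, by rw [Finset.card_map, h3], ?_⟩
    intro z hz
    obtain ⟨y, hy, rfl⟩ := Finset.mem_map.1 hz
    obtain ⟨h5, h6⟩ := h4 y hy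
    refine ⟨?_, he _ _ h6⟩
    show S'.testBit (e y) = true
    rw [hS]
    exact h5
  · right
    refine ⟨e c, by rw [hS]; exact h1, h2, ⟨Z.map e.toEmbedding, by rw [Finset.card_map, h3], ?_⟩,
      e x, e y, by rw [hS]; exact h5, fun h => h6 (e.injective h), he _ _ h7, he _ _ h8⟩
    intro z hz
    obtain ⟨y, hy, rfl⟩ := Finset.mem_map.1 hz
    obtain ⟨h5, h6, h7⟩ := h4 y hy
    refine ⟨?_, he _ _ h6, h7⟩
    show S'.testBit (e y) = true
    rw [hS]
    exact h5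

/-- adjacency, decidable -/
def adjB (c z : ℕ) : Bool := (List.range 5).any fun i => z == c ^^^ 2 ^ i

theorem adjB_iff {c z : ℕ} : adjB c z = true ↔ ncadj 5 c z := by
  unfold adjB ncadj
  rw [List.any_eq_true]
  constructor
  · rintro ⟨i, h1, h2⟩
    exact ⟨i, List.mem_range.1 h1, by simpa using h2⟩
  · rintro ⟨i, h1, h2⟩
    exact ⟨i, List.mem_range.2 h1, by simpa using h2⟩

/-- no new facts are needed for these positions -/
def okS (zs : List ℕ) : Bool := zs.all fun c =>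
  decide ((zs.filter fun z => adjB c z).length ≤ 2) ||
    decide (4 ≤ (zs.filter fun z => adjB c z).length) ||
      zs.any fun x => x != c && (List.range 5).any fun i => adjB (c ^^^ 2 ^ i) x

theorem card_Z {zs : List ℕ} {c : ℕ} {Z : Finset ℕ}
    (hZ : ∀ z ∈ Z, (maskL zs).testBit z = true ∧ ncadj 5 c z) :
    Z ⊆ (zs.filter fun z => adjB c z).toFinset := by
  intro z hz
  obtain ⟨h1, h2⟩ := hZ z hz
  rw [List.mem_toFinset, List.mem_filter]
  exact ⟨testBit_maskL.1 h1, adjB_iff.2 h2⟩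

theorem bd_imp {zs : List ℕ} (hnd : zs.Nodup) (h : okS zs = true) {k : ℕ → ℕ}
    (hb : K5.Bd (maskL zs) k) : Bd2 (maskL zs) k := by
  rcases hb with hb | ⟨c, h1, h2, Z, h3, h4⟩
  · exact Or.inl hb
  · have h5 := List.all_eq_true.1 h c (testBit_maskL.1 h1)
    have h6 := card_Z fun z hz => ⟨(h4 z hz).1, (h4 z hz).2.1⟩
    have h7 := Finset.card_le_card h6
    have h8 : (zs.filter fun z => adjB c z).toFinset.card =
        (zs.filter fun z => adjB c z).length := List.toFinset_card_of_nodup (hnd.filter _)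
    simp only [Bool.or_eq_true, decide_eq_true_eq] at h5
    rcases h5 with (h5 | h5) | h5
    · omega
    · left
      rw [← h8] at h5
      obtain ⟨Z', hZ', hc⟩ := Finset.exists_subset_card_eq h5
      refine ⟨c, h1, by omega, Z', hc, fun z hz => ?_⟩
      have h9 := hZ' hz
      rw [List.mem_toFinset, List.mem_filter] at h9
      exact ⟨testBit_maskL.2 h9.1, adjB_iff.1 h9.2⟩
    · obtain ⟨x, hx, h9⟩ := List.any_eq_true.1 h5
      rw [Bool.and_eq_true] at h9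
      obtain ⟨i, hi, h10⟩ := List.any_eq_true.1 h9.2
      exact Or.inr ⟨c, h1, h2, ⟨Z, h3, h4⟩, x, c ^^^ 2 ^ i, testBit_maskL.2 hx,
        by simpa using h9.1, ⟨i, List.mem_range.1 hi, rfl⟩, adjB_iff.1 h10⟩

/-- weakening of the exceptions -/
theorem cb_imp {B B' : ℕ → (ℕ → ℕ) → Prop} {S N : ℕ} (h : CB B S N) (hi : ∀ k, B S k → B' S k) :
    CB B' S N := fun k hk hb => h k hk fun hb' => hb (hi k hb')

/-- the new positions -/
theorem five_new {zs : List ℕ} (hnd : zs.Nodup) (hz : ∀ z ∈ zs, z < 32) {c0 a b d : ℕ}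
    (hc : (zs.all fun c => c == c0 || decide ((zs.filter fun z => adjB c z).length ≤ 2)) = true)
    (hn : (zs.filter fun z => adjB c0 z) = [a, b, d]) (old : CB K5.Bd (maskL zs) 20)
    (F : ∀ k : ℕ → ℕ, (zs.map fun z => k z + 1).sum ≤ 20 → 6 ≤ k c0 → 2 ≤ k a → 2 ≤ k b →
      2 ≤ k d → NF 5 FULL 0 (mkL k zs)) : CB Bd2 (maskL zs) 20 := by
  refine CB.of_cls hnd hz fun k hk hb => ?_
  by_cases hbd : K5.Bd (maskL zs) k
  · rcases hbd with hbd | ⟨c, h1, h2, Z, h3, h4⟩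
    · exact absurd (Or.inl hbd) hb
    · have h6 := card_Z fun z hz => ⟨(h4 z hz).1, (h4 z hz).2.1⟩
      have h7 := Finset.card_le_card h6
      have h8 : (zs.filter fun z => adjB c z).toFinset.card =
        (zs.filter fun z => adjB c z).length := List.toFinset_card_of_nodup (hnd.filter _)
      have h5 := List.all_eq_true.1 hc c (testBit_maskL.1 h1)
      simp only [Bool.or_eq_true, decide_eq_true_eq, beq_iff_eq] at h5
      rcases h5 with rfl | h5
      · rw [hn] at h6 h8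
        have h9 : Z = [a, b, d].toFinset :=
          Finset.eq_of_subset_of_card_le h6 (by rw [h8, h3]; rfl)
        have h10 : ∀ z ∈ [a, b, d], 2 ≤ k z := fun z hz => (h4 z (by
          rw [h9, List.mem_toFinset]
          exact hz)).2.2
        exact F k hk h2 (h10 a (by simp)) (h10 b (by simp)) (h10 d (by simp))
      · omega
  · exact CB.to_list old zs hnd (fun _ => testBit_maskL.symm) (maskL_lt hz) k hk hbd

/-- some entry is below its bound -/
noncomputable def sp5 (b0 b1 b2 b3 b4 : ℕ) (l : List ℕ) : Bool :=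
  JT.ro (Nat.ble (Nat.succ (l.getD 0 0)) b0) (JT.ro (Nat.ble (Nat.succ (l.getD 1 0)) b1)
    (JT.ro (Nat.ble (Nat.succ (l.getD 2 0)) b2) (JT.ro (Nat.ble (Nat.succ (l.getD 3 0)) b3)
      (Nat.ble (Nat.succ (l.getD 4 0)) b4))))

theorem five_F {T lim M D z0 z1 z2 z3 z4 b0 b1 b2 b3 b4 : ℕ} (hT : ∀ i < lim, Tab.Good T i)
    (hz : ∀ z ∈ [z0, z1, z2, z3, z4], z < 32)
    (h : Bm.cls T lim (sp5 b0 b1 b2 b3 b4) [z0, z1, z2, z3, z4] [0, 0, 0, 0, 0] M 20 D = true)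
    (hM : M ≤ 512) (k : ℕ → ℕ) (hk : ([z0, z1, z2, z3, z4].map fun z => k z + 1).sum ≤ 20)
    (h0 : b0 ≤ k z0 + 1) (h4 : b1 ≤ k z4 + 1) (h3 : b2 ≤ k z3 + 1) (h2 : b3 ≤ k z2 + 1)
    (h1 : b4 ≤ k z1 + 1) : NF 5 FULL 0 (mkL k [z0, z1, z2, z3, z4]) := by
  rcases Bm.cls_ok hT rfl hz hM h k hk with h5 | ⟨n0, h5, h6⟩
  · exact h5
  · have h6' : JT.ro (Nat.ble (Nat.succ n0) b0) (JT.ro (Nat.ble (Nat.succ (k z4 + 1)) b1)
      (JT.ro (Nat.ble (Nat.succ (k z3 + 1)) b2) (JT.ro (Nat.ble (Nat.succ (k z2 + 1)) b3)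
      (Nat.ble (Nat.succ (k z1 + 1)) b4)))) = true := h6
    simp only [JT.ro_iff] at h6'
    rcases h6' with h7 | h7 | h7 | h7 | h7
    · have : n0 + 1 ≤ b0 := Nat.le_of_ble_eq_true h7
      omega
    · have : k z4 + 1 + 1 ≤ b1 := Nat.le_of_ble_eq_true h7
      omega
    · have : k z3 + 1 + 1 ≤ b2 := Nat.le_of_ble_eq_true h7
      omega
    · have : k z2 + 1 + 1 ≤ b3 := Nat.le_of_ble_eq_true h7
      omega
    · have : k z1 + 1 + 1 ≤ b4 := Nat.le_of_ble_eq_true h7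
      omega

/-- list version of the exceptions for five roots and 20 vertices -/
def BdL2 (ms : List ((Fin 5 → Bool) × ℕ)) : Prop :=
  (∃ a ∈ ms, 3 ≤ a.2 ∧ ∃ Z : Finset (Fin 5 → Bool), Z.card = 4 ∧
    ∀ z ∈ Z, cadj 5 a.1 z ∧ ∃ s, (z, s) ∈ ms) ∨
  (∃ a ∈ ms, 7 ≤ a.2 ∧ (∃ Z : Finset (Fin 5 → Bool), Z.card = 3 ∧
    ∀ z ∈ Z, cadj 5 a.1 z ∧ ∃ s, 3 ≤ s ∧ (z, s) ∈ ms) ∧
    ∃ x ∈ ms, ∃ y, x.1 ≠ a.1 ∧ cadj 5 a.1 y ∧ cadj 5 y x.1)

theorem Bd2_list {ms : List ((Fin 5 → Bool) × ℕ)} {k : ℕ → ℕ}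
    (hk : ∀ a ∈ ms, k (encV a.1) + 1 = a.2)
    (h : Bd2 (maskL (ms.map fun a => encV a.1)) k) : BdL2 ms := by
  classical
  have hmem : ∀ z, (maskL (ms.map fun a => encV a.1)).testBit z = true →
      ∃ a ∈ ms, encV a.1 = z := fun z hz => mem_mask hz
  have hdec : ∀ a : (Fin 5 → Bool), decV 5 (encV a) = a := fun a => dec_enc a
  have hcard : ∀ Z : Finset ℕ, (∀ z ∈ Z, (maskL (ms.map fun a => encV a.1)).testBit z = true) →
      (Z.image (decV 5)).card = Z.card := by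
    intro Z hZ
    apply Finset.card_image_of_injOn
    intro x hx y hy hxy
    obtain ⟨a, _, rfl⟩ := hmem x (hZ x hx)
    obtain ⟨b, _, rfl⟩ := hmem y (hZ y hy)
    rw [hdec, hdec] at hxy
    rw [hxy]
  rcases h with ⟨c, h1, h2, Z, h3, h4⟩ | ⟨c, h1, h2, ⟨Z, h3, h4⟩, x, y, h5, h6, h7, h8⟩
  · left
    obtain ⟨a, ha, rfl⟩ := hmem c h1
    refine ⟨a, ha, by have := hk a ha; omega, Z.image (decV 5), ?_, ?_⟩
    · rw [hcard Z fun z hz => (h4 z hz).1, h3]
    · intro z hz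
      obtain ⟨y, hy, rfl⟩ := Finset.mem_image.1 hz
      obtain ⟨h5, h6⟩ := h4 y hy
      obtain ⟨b, hb, rfl⟩ := hmem y h5
      have h7 := cadj_dec h6
      rw [hdec] at h7
      refine ⟨h7, b.2, ?_⟩
      rw [hdec]
      exact hb
  · right
    obtain ⟨a, ha, rfl⟩ := hmem c h1
    obtain ⟨x, hx, rfl⟩ := hmem x h5
    refine ⟨a, ha, by have := hk a ha; omega, ⟨Z.image (decV 5), ?_, ?_⟩, x, hx, decV 5 y,
      ?_, ?_, ?_⟩
    · rw [hcard Z fun z hz => (h4 z hz).1, h3]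
    · intro z hz
      obtain ⟨y, hy, rfl⟩ := Finset.mem_image.1 hz
      obtain ⟨h5, h6, h8⟩ := h4 y hy
      obtain ⟨b, hb, rfl⟩ := hmem y h5
      have h7 := cadj_dec h6
      rw [hdec] at h7
      refine ⟨h7, b.2, by have := hk b hb; omega, ?_⟩
      rw [hdec]
      exact hb
    · intro h
      exact h6 (by rw [h])
    · have h9 := cadj_dec h7
      rwa [hdec] at h9
    · have h9 := cadj_dec h8
      rwa [hdec] at h9

end K6

end Pool.Agent.Work.MP_bf01b2_co.MR
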