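import Pool.Agent.Work.MP_bf01b2_co.MR.PaO
import Pool.Agent.Work.MP_bf01b2_co.MR.J24B
import Pool.Agent.Work.MP_bf01b2_co.MR.EndsBase

/-!
# The facts of `Q_5` with at most one soft position, as a list
-/

set_option autoImplicit false

namespace Pool.Agent.Work.MP_bf01b2_co.MR

/-- no soft position: total sizes `24, 23, 22, 21` for `1, 2, 3, 4` trees -/
theorem q5_baseO0 : BaseO 5 [(1, 0, 24), (2, 0, 23), (3, 0, 22), (4, 0, 21)] := by
  refine BaseO.cons (BaseO.cons (BaseO.cons (BaseO.cons BaseO.nil ?_) ?_) ?_) ?_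
  · intro s w hl hs
    exact (Gd.base5 (by omega) s).toO
  · intro s w hl hs
    exact (Gd.base5 (by omega) s).toO
  · intro s w hl hs
    exact (Gd.base5 (by omega) s).toO
  · intro s w hl hs
    match w, hl with
    | [a], _ =>
      have ha : a ≤ 24 := by simpa using hs
      rcases Nat.eq_zero_or_pos a with h0 | h0
      · exact GdO.of_zero (by simp [h0])
      rcases Nat.lt_or_eq_of_le ha with h1 | h1
      · exact (Gd.base5 (Or.inr (Or.inl ⟨rfl, by simpa using (by omega : a ≤ 23)⟩)) s).toO
      · subst h1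
        exact (Gd.soft_of_hard (D := 0) (s := s) (v := [24]) (by simpa using gd5_one)
          (by omega)).toO

/-- the facts of `Q_5` with at most one soft position -/
theorem q5_base : BaseO 5 [(1, 0, 24), (2, 0, 23), (3, 0, 22), (4, 0, 21),
    (1, 1, 23), (2, 1, 23), (3, 1, 22), (4, 1, 21)] :=
  q5_baseO0.append q5_baseO1

end Pool.Agent.Work.MP_bf01b2_co.MR
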