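import Pool.Agent.Work.MP_bf01b2_co.MR.Kn9
import Pool.Agent.Work.MP_bf01b2_co.MR.K2F
import Pool.Agent.Work.MP_bf01b2_co.MR.K4F
import Pool.Agent.Work.MP_bf01b2_co.MR.K5F
import Pool.Agent.Work.MP_bf01b2_co.MR.Q5Base

/-!
# The facts of `Q_5` without specials, all with their exact exceptions
-/

set_option autoImplicit false

namespace Pool.Agent.Work.MP_bf01b2_co.MR

theorem Kn.hfacts : Kn.HFacts where
  h1 := fun ms hnd hl hs => Tab.base5b ms hnd (Or.inr (Or.inl ⟨hl, hs⟩))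
  h2 := fun ms hnd hl hs hb => hf5_two ms hnd hl hs fun h => hb ⟨Multiset.coe_eq_coe.1 h.1, h.2⟩
  h3 := fun ms hnd hl hs hb => by
    refine hf5_three ms hnd hl hs ?_
    rintro ⟨a, ha, b, hb', hab, h⟩
    refine hb ⟨?_, a, ha, b, hb', hab⟩
    rcases h with h | h | h | h | h | h
    · exact ⟨_, by simp [Kn.E3], Multiset.coe_eq_coe.1 h.1⟩
    · exact ⟨[12, 7, 4], by simp [Kn.E3], Multiset.coe_eq_coe.1 h.1⟩
    · exact ⟨[15, 4, 4], by simp [Kn.E3], Multiset.coe_eq_coe.1 h.1⟩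
    · exact ⟨[15, 7, 1], by simp [Kn.E3], Multiset.coe_eq_coe.1 h.1⟩
    · exact ⟨[19, 3, 1], by simp [Kn.E3], Multiset.coe_eq_coe.1 h.1⟩
    · exact ⟨[21, 1, 1], by simp [Kn.E3], Multiset.coe_eq_coe.1 h.1⟩
  h4 := fun ms hnd hl hs hb hb' => by
    refine hf5_four ms hnd hl hs ?_
    rintro (⟨h, hp⟩ | ⟨c, hc, hz, h⟩)
    · refine hb ⟨?_, hp⟩
      rcases h with h | h | h
      · exact ⟨[19, 1, 1, 1], by simp [Kn.E4a], Multiset.coe_eq_coe.1 h⟩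
      · exact ⟨[7, 7, 7, 1], by simp [Kn.E4a], Multiset.coe_eq_coe.1 h⟩
      · exact ⟨[7, 7, 4, 4], by simp [Kn.E4a], Multiset.coe_eq_coe.1 h⟩
    · refine hb' ⟨?_, c, hc, hz⟩
      rcases h with ⟨-, h⟩ | ⟨-, h⟩
      · exact ⟨[9, 7, 3, 3], by simp [Kn.E4b],
          (Multiset.coe_eq_coe.1 h).trans (List.Perm.swap _ _ _)⟩
      · exact ⟨[13, 3, 3, 3], by simp [Kn.E4b], Multiset.coe_eq_coe.1 h⟩
  h5 := fun ms hnd hl hs hb => hf5_five ms hnd hl hs hb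

end Pool.Agent.Work.MP_bf01b2_co.MR
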