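import Pool.Agent.Work.MP_bf01b2_co.MR.DirO2
import Pool.Agent.Work.MP_bf01b2_co.MR.B5Fin

/-!
# Facts with given positions of the roots and the cut of a forest without labels

The roots of both sides stay at their (known) positions, the new roots of the second side are
unknown.
-/

set_option autoImplicit false

namespace Pool.Agent.Work.MP_bf01b2_co.MR

section
variable {m : ℕ}

/-- no labels -/
def NL {V : Type*} (T : LRT V) : Prop := ∀ F ∈ T.labs, F = ∅

theorem LT.top_of_labs {V : Type*} {t : LT V} (h : ∀ F ∈ t.labs, F = ∅) : t.top = ∅ := by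
  cases t with
  | nil => rfl
  | hole F => exact h F (by simp [LT.labs])
  | node _ _ => rfl

theorem NL.left {V : Type*} {T : LRT V} (h : NL T) : ∀ F ∈ T.l.labs, F = ∅ :=
  fun F hF => h F (by simp [LRT.labs, hF])

theorem NL.right {V : Type*} {T : LRT V} (h : NL T) : ∀ F ∈ T.r.labs, F = ∅ :=
  fun F hF => h F (by simp [LRT.labs, hF])

theorem NL.ok {V : Type*} {T : LRT V} (h : NL T) : RootOK T := by
  constructor
  · rw [LT.top_of_labs h.left]
    exact Finset.notMem_empty _
  · rw [LT.top_of_labs h.right]
    exact Finset.notMem_empty _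

/-- **Facts with given positions**: all labels are inside of the roots. -/
def XF (m : ℕ) (ps : List (Fin m → Bool)) (v : List ℕ) : Prop :=
  ∀ Ts : List (LRT (Fin m → Bool)), Ts.map LRT.pos = ps → (∀ T ∈ Ts, RootOK T) →
    List.Forall₂ (fun T n => LRT.size T ≤ n) Ts v → softs Ts ⊆ poss Ts → ∃ S, Emb (cadj m) Ts S

theorem XF.of_HF {ps : List (Fin m → Bool)} {v : List ℕ}
    (h : HF (cadj m) Finset.univ (ps.zip v)) : XF m ps v := by
  intro Ts h1 h2 h3 h4
  subst h1
  obtain ⟨S, -, hS⟩ := emb_of_HF (adj := cadj m) (X := Finset.univ) (Ts := Ts) (O := []) h2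
    (fun y hy hy' => absurd (h4 hy) hy') (by
      rw [List.map_nil, List.append_nil]
      refine HF.mono h (Finset.Subset.refl _) ?_
      clear h h2 h4
      induction h3 with
      | nil => exact .nil
      | cons h _ ih => exact .cons ⟨rfl, h⟩ ih)
  exact ⟨S, hS⟩

theorem XF.of_GdO {s : ℕ} {ps : List (Fin m → Bool)} {v : List ℕ} (hnd : ps.Nodup)
    (h : GdO m 0 s v) : XF m ps v := by
  intro Ts h1 h2 h3 h4
  have h5 : Gd m 0 (nspec Ts) v := h.toGd
  refine h5 Ts (by rw [h1]; exact hnd) h2 h3 ?_ le_rfl
  rw [Finset.sdiff_eq_empty_iff_subset.2 h4]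
  simp

theorem XF.zero {ps : List (Fin m → Bool)} {v : List ℕ} (h : 0 ∈ v) : XF m ps v := by
  intro Ts h1 h2 h3 h4
  exfalso
  obtain ⟨T, _, hT⟩ : ∃ T ∈ Ts, LRT.size T ≤ 0 := by
    clear h1 h2 h4
    induction h3 with
    | nil => simp at h
    | @cons T n Ts v h5 _ ih =>
      rcases List.mem_cons.1 h with h6 | h6
      · exact ⟨T, List.mem_cons_self, by rw [h6]; exact h5⟩
      · obtain ⟨U, hU, hU'⟩ := ih h6
        exact ⟨U, List.mem_cons_of_mem _ hU, hU'⟩
  have : T.size = T.l.size + T.r.size + 1 := rfl
  omega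

end

/-- **The cut of a forest without labels.** -/
theorem cut_known {m : ℕ} {Q : HT → Prop} (j : Fin (m + 1)) (b : Bool)
    {TX TY : List (LRT (Fin (m + 1) → Bool))}
    (hnd : ((TX ++ TY).map LRT.pos).Nodup)
    (hlX : ∀ T ∈ TX, NL T) (hlY : ∀ T ∈ TY, NL T)
    (hTX : ∀ T ∈ TX, T.pos j = b) (hTY : ∀ T ∈ TY, T.pos j = !b)
    {sz : List ℕ} {us : List HT} (hcut : FCutQ Q (TX.map (cdatP j (poss TY))) sz us)
    (hX0 : us = [] ∨ poss TY ⊆ (poss TX).image (flip j) →
      XF m (TX.map fun T => del j T.pos) sz)
    (hX1 : us ≠ [] → ¬ poss TY ⊆ (poss TX).image (flip j) → (∀ h, Q h → h.pth) ∧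
      GdO m (poss TY \ (poss TX).image (flip j)).card us.length sz)
    (hY : ∀ ps : List (Fin m → Bool), ps.length = us.length →
      (ps ++ TY.map fun T => del j T.pos).Nodup →
      XF m (ps ++ TY.map fun T => del j T.pos) (us.map HT.size ++ TY.map LRT.size)) :
    ∃ S, Emb (cadj (m + 1)) (TX ++ TY) S := by
  classical
  have hent : TX.map (cdatP j (poss TY)) = TX.map (cdatK j b ∅ (poss TY)) := by
    apply List.map_congr_left
    intro U hU
    have hrel : ∀ F ∈ U.labs, relK j b ∅ F = false := by
      intro F hF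
      apply relK_false
      intro y hy
      rw [hlX U hU F hF] at hy
      exact absurd hy (Finset.notMem_empty _)
    have el : U.l.core (fun _ => false) = U.l.core (relK j b ∅) :=
      LT.core_congr fun F hF => (hrel F (by simp [LRT.labs, hF])).symm
    have er : U.r.core (fun _ => false) = U.r.core (relK j b ∅) :=
      LT.core_congr fun F hF => (hrel F (by simp [LRT.labs, hF])).symm
    simp only [cdatP, cdatK, el, er, Finset.union_empty]
  rw [hent] at hcut
  obtain ⟨Us', L, c1, c2, c3, c4, c5, c6⟩ := FCutQ.lift j b ∅ (TY := TY) hTX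
    (fun U hU => (hlX U hU).ok) hcut
  have hlen : (pieces L).length = us.length := by rw [← c2, List.length_map]
  have hUs'pos : Us'.map LRT.pos = TX.map LRT.pos := c1.poss
  have hposs : poss Us' = poss TX := by unfold poss; rw [hUs'pos]
  have hUb : ∀ U ∈ Us', U.pos j = b := by
    intro U hU
    have h1 : U.pos ∈ Us'.map LRT.pos := List.mem_map_of_mem hU
    rw [hUs'pos] at h1
    obtain ⟨W, hW, hWU⟩ := List.mem_map.1 h1
    rw [← hWU]
    exact hTX W hW
  have hlabs : TX.flatMap LRT.labs = L.flatMap LT.labs := c1.graft.labs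
  have hTXl : ∀ F ∈ TX.flatMap LRT.labs, F = ∅ := by
    intro F hF
    obtain ⟨T, hT, hFT⟩ := List.mem_flatMap.1 hF
    exact hlX T hT F hFT
  obtain ⟨FX, hFX⟩ : ∃ FX, FX = Us'.map (resT j b) := ⟨_, rfl⟩
  have hFXpos : FX.map LRT.pos = TX.map fun T => del j T.pos := by
    have e1 : FX.map LRT.pos = (Us'.map LRT.pos).map (del j) := by
      rw [hFX, List.map_map, List.map_map]
      rfl
    rw [e1, hUs'pos, List.map_map]
    rfl
  have hFXlabs : FX.flatMap LRT.labs = (Us'.flatMap LRT.labs).map (resL j b) := by
    rw [hFX]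
    unfold resT
    rw [flatMap_mapL]
  have hUlab : ∀ F ∈ Us'.flatMap LRT.labs, F = ∅ ∨ ∃ u ∈ pieces L, F = nlab j TY u := by
    intro F hF
    rcases mem_rel c1.rel F hF with h1 | ⟨u, hu, hFu⟩
    · exact Or.inl (hTXl F (by rw [hlabs]; exact mem_olds h1))
    · exact Or.inr ⟨u, hu, hFu⟩
  have hnlab : ∀ u ∈ pieces L, ∀ x, ins j b x ∈ nlab j TY u → flip j (ins j b x) ∈ poss TY := by
    intro u hu x hx
    have h1 := nlab_sub (c3 u hu) ins_self hx
    rw [Finset.union_empty] at h1
    obtain ⟨w, hw, hwx⟩ := Finset.mem_image.1 h1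
    rwa [← hwx, flip_flip]
  have hsoftX : ∀ x ∈ softs FX, us ≠ [] ∧ flip j (ins j b x) ∈ poss TY := by
    intro x hx
    unfold softs at hx
    rw [hFXlabs] at hx
    obtain ⟨F', hF', hxF⟩ := mem_foldr_union.1 hx
    obtain ⟨F, hF, rfl⟩ := List.mem_map.1 hF'
    rcases hUlab F hF with rfl | ⟨u, hu, rfl⟩
    · rw [mem_resL] at hxF
      exact absurd hxF (Finset.notMem_empty _)
    · refine ⟨?_, hnlab u hu x (mem_resL.1 hxF)⟩
      rintro rfl
      rw [List.length_nil, List.length_eq_zero_iff] at hlen
      rw [hlen] at hu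
      simp at hu
  have hmemX : ∀ x, x ∈ poss FX ↔ ins j b x ∈ poss TX := by
    intro x
    rw [hFX, mem_poss_res hUb, hposs]
  have hszX : List.Forall₂ (fun T n => LRT.size T ≤ n) FX sz := by
    rw [hFX, ← c4, List.forall₂_map_left_iff, List.forall₂_map_right_iff, List.forall₂_same]
    intro U _
    rw [resT_size]
  have hokX : ∀ T ∈ FX, RootOK T := by
    intro T hT
    rw [hFX] at hT
    obtain ⟨U, hU, rfl⟩ := List.mem_map.1 hT
    exact resT_ok (hUb U hU) (c5 U hU)
  have hndX : (FX.map LRT.pos).Nodup := by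
    rw [hFX]
    refine nodup_res hUb ?_
    rw [hUs'pos]
    rw [List.map_append, List.nodup_append] at hnd
    exact hnd.1
  refine step j b hTX hTY c1 ?_ ?_
  · -- first side
    rw [← hFX]
    by_cases hcase : us = [] ∨ poss TY ⊆ (poss TX).image (flip j)
    · refine hX0 hcase FX hFXpos hokX hszX ?_
      intro x hx
      obtain ⟨h1, h2⟩ := hsoftX x hx
      rcases hcase with h | h
      · exact absurd h h1
      · rw [hmemX]
        obtain ⟨w, hw, hwx⟩ := Finset.mem_image.1 (h h2)
        rwa [← flip_injective j hwx]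
    · rw [not_or] at hcase
      obtain ⟨hQ, g⟩ := hX1 hcase.1 hcase.2
      refine g.emb hndX hokX hszX ?_ ?_ ?_
      · have hsub : ((softs FX \ poss FX).map (ins j b)).image (flip j) ⊆
            poss TY \ (poss TX).image (flip j) := by
          intro z hz
          obtain ⟨y, hy, rfl⟩ := Finset.mem_image.1 hz
          obtain ⟨x, hx, rfl⟩ := Finset.mem_map.1 hy
          rw [Finset.mem_sdiff] at hx ⊢
          refine ⟨(hsoftX x hx.1).2, fun h => hx.2 ?_⟩
          rw [hmemX]
          obtain ⟨w, hw, hwx⟩ := Finset.mem_image.1 h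
          rwa [← flip_injective j hwx]
        have h1 := Finset.card_le_card hsub
        rwa [Finset.card_image_of_injective _ (flip_injective j), Finset.card_map] at h1
      · have h1 : nspecO (poss FX) FX ≤
            (olds L).countP (fun F => decide (¬ resL j b F ⊆ poss FX)) + us.length := by
          unfold nspecO
          rw [hFXlabs, List.countP_map, ← hlen]
          exact countP_rel (fun F => decide (¬ resL j b F ⊆ poss FX)) c1.rel
        have h2 : (olds L).countP (fun F => decide (¬ resL j b F ⊆ poss FX)) = 0 := by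
          rw [List.countP_eq_zero]
          intro F hF
          rw [hTXl F (by rw [hlabs]; exact mem_olds hF), resL_empty]
          simp
        omega
      · intro T hT x _
        rw [hFX] at hT
        obtain ⟨U, hU, rfl⟩ := List.mem_map.1 hT
        rw [PT_res]
        obtain ⟨h', h1, h2⟩ := c6 U hU
        refine (h2 _ fun F hF => ?_).pth (hQ h' h1)
        rw [hTXl F hF, resL_empty, hasL_false]
        exact Finset.notMem_empty _
  · -- second side
    intro Ps hP1 hP2 hP3
    have hYb : ∀ T ∈ Ps ++ TY, T.pos j = !b := by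
      intro T hT
      rcases List.mem_append.1 hT with h | h
      · exact (hP3 T h).1
      · exact hTY T h
    have hPlen : Ps.length = us.length := by
      rw [← hlen, ← hP1, List.length_map]
    have hpos : ((Ps ++ TY).map (resT j (!b))).map LRT.pos =
        (Ps.map fun T => del j T.pos) ++ TY.map fun T => del j T.pos := by
      rw [List.map_map, List.map_append]
      rfl
    have hnd2 : (((Ps ++ TY).map (resT j (!b))).map LRT.pos).Nodup := by
      refine nodup_res hYb ?_
      rw [List.map_append, List.nodup_append]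
      rw [List.map_append, List.nodup_append] at hnd
      refine ⟨hP2, hnd.2.1, ?_⟩
      intro x hx y hy hxy
      subst hxy
      obtain ⟨P, hP, rfl⟩ := List.mem_map.1 hx
      apply (hP3 P hP).2.1
      unfold poss
      exact List.mem_toFinset.2 hy
    refine hY (Ps.map fun T => del j T.pos) (by rw [List.length_map, hPlen]) ?_ _ hpos ?_ ?_ ?_
    · rw [← hpos]
      exact hnd2
    · intro T hT
      obtain ⟨U, hU, rfl⟩ := List.mem_map.1 hT
      refine resT_ok (hYb U hU) ?_
      rcases List.mem_append.1 hU with h | h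
      · exact (hP3 U h).2.2
      · exact (hlY U h).ok
    · rw [List.forall₂_map_left_iff]
      refine forall₂_append' ?_ ?_
      · have e1 : us.map HT.size = Ps.map LRT.size := by
          rw [← c2, ← hP1, List.map_map, List.map_map]
          refine List.map_congr_left fun P _ => ?_
          simp only [Function.comp, LT.core_size]
          rfl
        rw [e1, List.forall₂_map_right_iff, List.forall₂_same]
        intro P _
        rw [resT_size]
      · rw [List.forall₂_map_right_iff, List.forall₂_same]
        intro T _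
        rw [resT_size]
    · intro x hx
      exfalso
      unfold softs resT at hx
      rw [flatMap_mapL] at hx
      obtain ⟨F', hF', hxF⟩ := mem_foldr_union.1 hx
      obtain ⟨F, hF, rfl⟩ := List.mem_map.1 hF'
      have hF0 : F = ∅ := by
        rw [List.flatMap_append, List.mem_append] at hF
        rcases hF with h | h
        · obtain ⟨P, hP, hFP⟩ := List.mem_flatMap.1 h
          apply hTXl
          rw [hlabs]
          have h1 : P.tree ∈ pieces L := by
            rw [← hP1]
            exact List.mem_map_of_mem hP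
          exact List.mem_flatMap.2 ⟨P.tree, mem_pieces h1, hFP⟩
        · obtain ⟨T, hT, hFT⟩ := List.mem_flatMap.1 h
          exact hlY T hT F hFT
      rw [hF0, mem_resL] at hxF
      exact absurd hxF (Finset.notMem_empty _)

end Pool.Agent.Work.MP_bf01b2_co.MR
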