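import Pool.Agent.Work.MP_bf01b2_co.MR.Kn1

/-!
# The cut with known positions: numbers

An entry `(c, s, f)` describes a root: `c` = code of its position in the side, `s` = size,
`f = 0`: free, `f = 1`: the opposite position is occupied, `f ≥ 2`: the same and the left child is
missing.
-/

set_option autoImplicit false

namespace Pool.Agent.Work.MP_bf01b2_co.MR

/-- an entry -/
abbrev KE := ℕ × ℕ × ℕ

/-- the tree is described by the entry -/
def ME {m : ℕ} (j : Fin (m + 1)) (b : Bool) (T : LRT (Fin (m + 1) → Bool)) (e : KE) : Prop :=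
  T.pos j = b ∧ encV (del j T.pos) = e.1 ∧ T.size = e.2.1 ∧ NL T ∧ (2 ≤ e.2.2 → T.l.size = 0)

/-- nominal size of the active subtree -/
def actE (e : KE) : ℕ := if e.2.2 = 0 then e.2.1 else if e.2.2 = 1 then e.2.1 / 2 else e.2.1 - 1

/-- number of the changed sizes -/
def chg : List ℕ → List KE → ℕ
  | w :: ws, e :: es => (if w = e.2.1 then 0 else 1) + chg ws es
  | _, _ => 0

/-- A row of bounds `(x_n, y_n)` of the totals of both sides with `n` pieces. -/
def RowK (m : ℕ) (EX EY : List KE) (ν : ℕ) (row : List (ℕ × ℕ)) : Prop :=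
  row ≠ [] ∧ (∀ i, (row.getD (i + 1) (0, 0)).1 ≤ (row.getD i (0, 0)).1) ∧
  (∀ i, (row.getD (i + 1) (0, 0)).2 ≤ (row.getD i (0, 0)).2) ∧
  ∀ n < row.length,
    (∀ w : List ℕ, List.Forall₂ (fun a (e : KE) => a ≤ e.2.1) w EX → chg w EX ≤ n →
      (EX.map fun e => decV m e.1).Nodup →
      w.sum ≤ (row.getD n (0, 0)).1 →
      ((n = 0 ∨ ν = 0) → XF m (EX.map fun e => decV m e.1) w) ∧
      (n ≠ 0 → ν ≠ 0 → GdO m ν n w)) ∧
    (∀ (ps : List (Fin m → Bool)) (us : List ℕ), ps.length = n → us.length = n →
      (ps ++ EY.map fun e => decV m e.1).Nodup →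
      us.sum + (EY.map fun e => e.2.1).sum ≤ (row.getD n (0, 0)).2 →
      XF m (ps ++ EY.map fun e => decV m e.1) (us ++ EY.map fun e => e.2.1))

section
variable {m : ℕ} {j : Fin (m + 1)} {b : Bool}

theorem ME.dec {T : LRT (Fin (m + 1) → Bool)} {e : KE} (h : ME j b T e) :
    decV m e.1 = del j T.pos := by rw [← h.2.1, dec_enc]

theorem me_pos {TX : List (LRT (Fin (m + 1) → Bool))} {EX : List KE}
    (h : List.Forall₂ (ME j b) TX EX) :
    (TX.map fun T => del j T.pos) = EX.map fun e => decV m e.1 := by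
  induction h with
  | nil => rfl
  | cons h _ ih => rw [List.map_cons, List.map_cons, ih, h.dec]

theorem me_size {TX : List (LRT (Fin (m + 1) → Bool))} {EX : List KE}
    (h : List.Forall₂ (ME j b) TX EX) : TX.map LRT.size = EX.map fun e => e.2.1 := by
  induction h with
  | nil => rfl
  | cons h _ ih => rw [List.map_cons, List.map_cons, ih, h.2.2.1]

theorem me_mem {TX : List (LRT (Fin (m + 1) → Bool))} {EX : List KE}
    (h : List.Forall₂ (ME j b) TX EX) : ∀ T ∈ TX, ∃ e ∈ EX, ME j b T e := by
  induction h with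
  | nil => simp
  | @cons T e TX EX h _ ih =>
    intro U hU
    rcases List.mem_cons.1 hU with rfl | hU
    · exact ⟨e, List.mem_cons_self, h⟩
    · obtain ⟨e', h1, h2⟩ := ih U hU
      exact ⟨e', List.mem_cons_of_mem _ h1, h2⟩

theorem me_mem' {TX : List (LRT (Fin (m + 1) → Bool))} {EX : List KE}
    (h : List.Forall₂ (ME j b) TX EX) : ∀ e ∈ EX, ∃ T ∈ TX, ME j b T e := by
  induction h with
  | nil => simp
  | @cons T e TX EX h _ ih =>
    intro U hU
    rcases List.mem_cons.1 hU with rfl | hU
    · exact ⟨T, List.mem_cons_self, h⟩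
    · obtain ⟨e', h1, h2⟩ := ih U hU
      exact ⟨e', List.mem_cons_of_mem _ h1, h2⟩

theorem del_flip (x : Fin (m + 1) → Bool) : del j (flip j x) = del j x := by
  unfold del
  funext k
  exact flip_apply_of_ne (Fin.succAbove_ne j k) _

/-- codes determine the partner -/
theorem me_flip {T U : LRT (Fin (m + 1) → Bool)} {e e' : KE} (hT : ME j b T e)
    (hU : ME j (!b) U e') : e.1 = e'.1 ↔ flip j T.pos = U.pos := by
  rw [← hT.2.1, ← hU.2.1]
  constructor
  · intro h
    have h1 : del j T.pos = del j U.pos := by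
      have := congrArg (decV m) h
      rwa [dec_enc, dec_enc] at this
    have h2 : ins j b (del j T.pos) = T.pos := ins_del hT.1
    have h3 : ins j (!b) (del j U.pos) = U.pos := ins_del hU.1
    have h4 : (flip j T.pos) j = !b := by rw [flip_apply_self, hT.1]
    rw [← ins_del h4, del_flip, h1, h3]
  · intro h
    rw [← h, del_flip]

/-- sizes and number of the changed trees -/
theorem fcut_chg {Q : HT → Prop} {Z : Finset (Fin (m + 1) → Bool)} :
    ∀ {TX : List (LRT (Fin (m + 1) → Bool))} {EX : List KE} {sz : List ℕ} {us : List HT},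
      List.Forall₂ (ME j b) TX EX → FCutQ Q (TX.map (cdatP j Z)) sz us →
      List.Forall₂ (fun a (e : KE) => a ≤ e.2.1) sz EX ∧ chg sz EX ≤ us.length
  | [], _, sz, us, h1, h2 => by
    cases h1
    rw [List.map_nil] at h2
    cases h2
    exact ⟨.nil, Nat.zero_le _⟩
  | T :: TX, _, sz, us, h1, h2 => by
    rw [List.map_cons] at h2
    unfold cdatP at h2
    cases h1 with
    | @cons _ e _ EX h1 h3 =>
      cases h2 with
      | @cons _ _ _ l' r' ps qs us' _ sz' hl hr hok hρ hq h =>
        obtain ⟨g1, g2⟩ := fcut_chg h3 h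
        have e7 := hl.size
        have e8 := hr.size
        rw [LT.core_size] at e7 e8
        have e9 : T.size = T.l.size + T.r.size + 1 := rfl
        have e10 := h1.2.2.1
        refine ⟨.cons (by omega) g1, ?_⟩
        unfold chg
        rw [List.length_append, List.length_append]
        by_cases h4 : l'.size + r'.size + 1 = e.2.1
        · rw [if_pos h4]
          omega
        · rw [if_neg h4]
          have h5 : ps.length + qs.length ≠ 0 := by
            intro h6
            have h7 : ps = [] := List.length_eq_zero_iff.1 (by omega)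
            have h8 : qs = [] := List.length_eq_zero_iff.1 (by omega)
            rw [h7] at e7
            rw [h8] at e8
            simp only [tot_nil] at e7 e8
            omega
          omega

/-- the final step: the cutting is known -/
theorem kn_fin {Q : HT → Prop} {TX TY : List (LRT (Fin (m + 1) → Bool))} {EX EY : List KE}
    (hnd : ((TX ++ TY).map LRT.pos).Nodup)
    (hX : List.Forall₂ (ME j b) TX EX) (hY : List.Forall₂ (ME j (!b)) TY EY)
    {ν : ℕ} (hν : (poss TY \ (poss TX).image (flip j)).card = ν)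
    {row : List (ℕ × ℕ)} (hrow : RowK m EX EY ν row)
    (hQ : (∀ h, Q h → h.pth) ∨ ν = 0)
    {sz : List ℕ} {us : List HT} (hcut : FCutQ Q (TX.map (cdatP j (poss TY))) sz us)
    {n t : ℕ} (c2 : us.length = n) (c3 : tot us = t) (c4 : sz.length = TX.length)
    (c5 : sz.sum + t = (TX.map LRT.size).sum)
    (g2 : (EX.map fun e => e.2.1).sum ≤ (row.getD n (0, 0)).1 + t)
    (g3 : n = 0 ∨ (EY.map fun e => e.2.1).sum + t ≤ (row.getD n (0, 0)).2)
    (hy : (EY.map fun e => e.2.1).sum ≤ (row.getD 0 (0, 0)).2) (h0 : n = 0 → t = 0)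
    (hX0 : TX = [] → n = 0) : ∃ S, Emb (cadj (m + 1)) (TX ++ TY) S := by
  classical
  obtain ⟨hne, hm1, hm2, hfact⟩ := hrow
  have hsX := me_size hX
  have hsY := me_size hY
  have hszs : sz.sum ≤ (row.getD n (0, 0)).1 := by rw [hsX] at c5; omega
  have hlen : n < row.length := by
    refine row_lt (t := t) hne hcut.pos hszs fun h => hX0 ?_
    rw [h] at c4
    exact List.length_eq_zero_iff.1 c4.symm
  obtain ⟨fX, fY⟩ := hfact n hlen
  have hyn : (EY.map fun e => e.2.1).sum + t ≤ (row.getD n (0, 0)).2 := by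
    rcases g3 with g3 | g3
    · rw [h0 g3, g3]
      exact hy
    · exact g3
  obtain ⟨k1, k2⟩ := fcut_chg hX hcut
  have hTXj : ∀ T ∈ TX, T.pos j = b := fun T hT => by
    obtain ⟨e, _, he⟩ := me_mem hX T hT
    exact he.1
  have hTYj : ∀ T ∈ TY, T.pos j = !b := fun T hT => by
    obtain ⟨e, _, he⟩ := me_mem hY T hT
    exact he.1
  have hndX : (EX.map fun e => decV m e.1).Nodup := by
    rw [← me_pos hX]
    have h1 : ((TX.map (resT j b)).map LRT.pos).Nodup := by
      refine nodup_res hTXj ?_
      rw [List.map_append, List.nodup_append] at hnd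
      exact hnd.1
    rw [List.map_map] at h1
    exact h1
  obtain ⟨fX1, fX2⟩ := fX sz k1 (by rw [← c2]; exact k2) hndX hszs
  refine cut_known (Q := Q) j b hnd (fun T hT => ?_) (fun T hT => ?_) hTXj hTYj hcut ?_ ?_ ?_
  · obtain ⟨e, _, he⟩ := me_mem hX T hT
    exact he.2.2.2.1
  · obtain ⟨e, _, he⟩ := me_mem hY T hT
    exact he.2.2.2.1
  · intro h
    rw [me_pos hX]
    apply fX1
    rcases h with h | h
    · left
      rw [← c2, h]
      rfl
    · right
      rw [← hν, Finset.card_eq_zero, Finset.sdiff_eq_empty_iff_subset]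
      exact h
  · intro h1 h2
    have h3 : n ≠ 0 := by
      intro h
      rw [h, List.length_eq_zero_iff] at c2
      exact h1 c2
    have h4 : ν ≠ 0 := by
      intro h
      rw [← hν, Finset.card_eq_zero, Finset.sdiff_eq_empty_iff_subset] at h
      exact h2 h
    refine ⟨hQ.resolve_right h4, ?_⟩
    rw [hν, c2]
    exact fX2 h3 h4
  · intro ps h1 h2
    rw [me_pos hY] at h2 ⊢
    rw [hsY]
    refine fY ps _ (by rw [h1, c2]) (by rw [List.length_map, c2]) h2 ?_
    have h3 : (us.map HT.size).sum = t := c3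
    omega

/-- the partners -/
theorem me_nu {TX TY : List (LRT (Fin (m + 1) → Bool))} {EX EY : List KE}
    (hnd : (TY.map LRT.pos).Nodup)
    (hX : List.Forall₂ (ME j b) TX EX) (hY : List.Forall₂ (ME j (!b)) TY EY) :
    (poss TY \ (poss TX).image (flip j)).card =
      (EY.countP fun e => decide (e.1 ∉ EX.map Prod.fst)) := by
  classical
  have h1 : poss TY \ (poss TX).image (flip j) =
      ((TY.filter fun U => decide (U.pos ∉ (poss TX).image (flip j))).map LRT.pos).toFinset := by
    ext x
    rw [Finset.mem_sdiff, List.mem_toFinset, List.mem_map, mem_poss]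
    constructor
    · rintro ⟨⟨T, hT, rfl⟩, h⟩
      exact ⟨T, List.mem_filter.2 ⟨hT, by simpa using h⟩, rfl⟩
    · rintro ⟨T, hT, rfl⟩
      obtain ⟨h1, h2⟩ := List.mem_filter.1 hT
      exact ⟨⟨T, h1, rfl⟩, by simpa using h2⟩
  rw [h1, List.toFinset_card_of_nodup, List.length_map, ← List.countP_eq_length_filter]
  · clear h1 hnd
    induction hY with
    | nil => rfl
    | @cons U e TY EY h _ ih =>
      rw [List.countP_cons, List.countP_cons, ih]
      congr 1
      have key : (U.pos ∈ (poss TX).image (flip j)) ↔ e.1 ∈ EX.map Prod.fst := by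
        constructor
        · intro h3
          obtain ⟨w, hw, hwx⟩ := Finset.mem_image.1 h3
          obtain ⟨T, hT, rfl⟩ := mem_poss.1 hw
          obtain ⟨e', he', h4⟩ := me_mem hX T hT
          rw [← (me_flip h4 h).2 hwx]
          exact List.mem_map_of_mem he'
        · intro h3
          obtain ⟨e', he', h4⟩ := List.mem_map.1 h3
          obtain ⟨T, hT, h5⟩ := me_mem' hX e' he'
          refine Finset.mem_image.2 ⟨T.pos, mem_poss.2 ⟨T, hT, rfl⟩, (me_flip h5 h).1 h4⟩
      simp only [key]
  · refine List.Nodup.sublist ?_ hnd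
    exact List.Sublist.map _ List.filter_sublist

/-- flags -/
def prF (TX : List (LRT (Fin (m + 1) → Bool))) (EX : List KE) :
    List (LRT (Fin (m + 1) → Bool) × Bool) :=
  List.zipWith (fun T (e : KE) => (T, decide (e.2.2 ≠ 0))) TX EX

theorem prF_fst {TX : List (LRT (Fin (m + 1) → Bool))} {EX : List KE}
    (h : List.Forall₂ (ME j b) TX EX) : (prF TX EX).map Prod.fst = TX := by
  unfold prF
  induction h with
  | nil => rfl
  | cons _ _ ih => rw [List.zipWith_cons_cons, List.map_cons, ih]

theorem prF_mem {TX : List (LRT (Fin (m + 1) → Bool))} {EX : List KE}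
    (h : List.Forall₂ (ME j b) TX EX) : ∀ p ∈ prF TX EX, ∃ e ∈ EX, ME j b p.1 e ∧
      p.2 = decide (e.2.2 ≠ 0) := by
  unfold prF
  induction h with
  | nil => simp
  | @cons T e TX EX h _ ih =>
    intro p hp
    rw [List.zipWith_cons_cons] at hp
    rcases List.mem_cons.1 hp with rfl | hp
    · exact ⟨e, List.mem_cons_self, h, rfl⟩
    · obtain ⟨e', h1, h2⟩ := ih p hp
      exact ⟨e', List.mem_cons_of_mem _ h1, h2⟩

theorem actE_ok {T : LRT (Fin (m + 1) → Bool)} {e : KE} (h : ME j b T e) :
    actE e - (actT (decide (e.2.2 ≠ 0)) T).size = 0 := by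
  have e9 : T.size = T.l.size + T.r.size + 1 := rfl
  have h1 := h.2.2.1
  unfold actE actT
  by_cases h0 : e.2.2 = 0
  · simp only [h0, if_true, ne_eq, not_true_eq_false, decide_false, Bool.false_eq_true, if_false,
      HT.size, LT.core_size]
    omega
  · rw [if_neg h0]
    have hd : decide (e.2.2 ≠ 0) = true := by simpa using h0
    rw [hd, if_pos rfl]
    by_cases h2 : e.2.2 = 1
    · rw [if_pos h2]
      split_ifs with h3
      · simp only [LT.core_size] at h3 ⊢
        omega
      · simp only [LT.core_size] at h3 ⊢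
        omega
    · rw [if_neg h2]
      have h4 := h.2.2.2.2 (by omega)
      split_ifs with h3
      · simp only [LT.core_size] at h3 ⊢
        omega
      · simp only [LT.core_size] at h3 ⊢
        omega

theorem dfc_prF {TX : List (LRT (Fin (m + 1) → Bool))} {EX : List KE}
    (h : List.Forall₂ (ME j b) TX EX) :
    dfc (EX.map actE) ((prF TX EX).map fun p => actT p.2 p.1) = 0 := by
  unfold prF
  induction h with
  | nil => rfl
  | cons h _ ih =>
    rw [List.zipWith_cons_cons, List.map_cons, List.map_cons]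
    simp only [dfc]
    rw [ih, actE_ok h]

theorem prF_length {TX : List (LRT (Fin (m + 1) → Bool))} {EX : List KE}
    (h : List.Forall₂ (ME j b) TX EX) : (prF TX EX).length = EX.length := by
  unfold prF
  rw [List.length_zipWith, h.length_eq, Nat.min_self]

/-- **One active subtree for every root of the first side.** -/
theorem kn_emb {TX TY : List (LRT (Fin (m + 1) → Bool))} {EX EY : List KE}
    (hnd : ((TX ++ TY).map LRT.pos).Nodup)
    (hX : List.Forall₂ (ME j b) TX EX) (hY : List.Forall₂ (ME j (!b)) TY EY)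
    (hfl : ∀ e ∈ EX, e.2.2 = 0 → e.1 ∉ EY.map Prod.fst)
    {row : List (ℕ × ℕ)}
    (hrow : RowK m EX EY (EY.countP fun e => decide (e.1 ∉ EX.map Prod.fst)) row)
    {A : List ℕ} (hA : A.Perm (EX.map actE)) {sX sY : ℕ}
    (hsX : sX = (EX.map fun e => e.2.1).sum) (hsY : sY = (EY.map fun e => e.2.1).sum)
    (hy : sY ≤ (row.getD 0 (0, 0)).2)
    (hg : gm (mkW (sX + sY) (row.getD 0 (0, 0)).2 (row.drop 1))
      (sX + sY - (row.getD 0 (0, 0)).1) sY A = true) :
    ∃ S, Emb (cadj (m + 1)) (TX ++ TY) S := by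
  classical
  have hnd' := hnd
  rw [List.map_append, List.nodup_append] at hnd'
  have hfl' : ∀ p ∈ prF TX EX, flip j p.1.pos ∈ poss TY → p.2 = true := by
    intro p hp hf
    obtain ⟨e, he, h1, h2⟩ := prF_mem hX p hp
    rw [h2, decide_eq_true_iff]
    intro h3
    obtain ⟨U, hU, hUp⟩ := mem_poss.1 hf
    obtain ⟨e', he', h4⟩ := me_mem hY U hU
    apply hfl e he h3
    rw [(me_flip h1 h4).2 hUp.symm]
    exact List.mem_map_of_mem he'
  obtain ⟨n, t, g1, g2, g3⟩ := game_data hrow.2.1 hrow.2.2.1 hg hA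
    (ys := (prF TX EX).map fun p => actT p.2 p.1)
    (by rw [List.length_map, List.length_map, prF_length hX]) (by
      intro y hy
      obtain ⟨p, _, rfl⟩ := List.mem_map.1 hy
      exact actT_holes _ _) (SX := sX) (SY := sY) le_rfl (by rw [dfc_prF hX, Nat.zero_add])
  obtain ⟨sz, us, c1, c2, c3, c4, c5⟩ := fcut_of_mc (j := j) (Z := poss TY) hfl' g1
  rw [prF_fst hX] at c1 c5
  refine kn_fin hnd hX hY (me_nu hnd'.2.1 hX hY) hrow (Or.inl fun _ h => h)
    c1.toPth c2 c3 (by rw [c4, prF_length hX, hX.length_eq]) c5 (by rw [← hsX]; exact g2)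
    (by rw [← hsY]; exact g3) (by rw [← hsY]; exact hy) ?_ ?_
  · rintro rfl
    exact g1.zero
  · intro h
    rw [h] at g1
    obtain ⟨zs, k1, k2, k3⟩ := g1
    cases k1
    simpa using k2.symm

/-- **Two active subtrees for one restricted root**; all roots of the second side are matched. -/
theorem kn_emb2 {T0 : LRT (Fin (m + 1) → Bool)} {e0 : KE}
    {TX TY : List (LRT (Fin (m + 1) → Bool))} {EX EY : List KE}
    (hnd : (((T0 :: TX) ++ TY).map LRT.pos).Nodup) (h0 : ME j b T0 e0)
    (hX : List.Forall₂ (ME j b) TX EX) (hY : List.Forall₂ (ME j (!b)) TY EY)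
    (hfl : ∀ e ∈ EX, e.2.2 = 0 → e.1 ∉ EY.map Prod.fst)
    {row : List (ℕ × ℕ)}
    (hν : (EY.countP fun e => decide (e.1 ∉ (e0 :: EX).map Prod.fst)) = 0)
    (hrow : RowK m (e0 :: EX) EY 0 row)
    {A : List ℕ} (hA : A.Perm (EX.map actE)) {sX sY : ℕ}
    (hsX : sX = ((e0 :: EX).map fun e => e.2.1).sum) (hsY : sY = (EY.map fun e => e.2.1).sum)
    (hy : sY ≤ (row.getD 0 (0, 0)).2)
    (hg : ∀ c, e0.2.1 / 2 ≤ c → c < e0.2.1 →
      gm (mkW (sX + sY) (row.getD 0 (0, 0)).2 (row.drop 1))
      (sX + sY - (row.getD 0 (0, 0)).1) sY (insL c (insL (e0.2.1 - 1 - c) A)) = true) :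
    ∃ S, Emb (cadj (m + 1)) ((T0 :: TX) ++ TY) S := by
  classical
  have hnd' := hnd
  rw [List.map_append, List.nodup_append] at hnd'
  have hX2 : List.Forall₂ (ME j b) (T0 :: TX) (e0 :: EX) := .cons h0 hX
  have hfl' : ∀ p ∈ prF TX EX, flip j p.1.pos ∈ poss TY → p.2 = true := by
    intro p hp hf
    obtain ⟨e, he, h1, h2⟩ := prF_mem hX p hp
    rw [h2, decide_eq_true_iff]
    intro h3
    obtain ⟨U, hU, hUp⟩ := mem_poss.1 hf
    obtain ⟨e', he', h4⟩ := me_mem hY U hU
    apply hfl e he h3
    rw [(me_flip h1 h4).2 hUp.symm]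
    exact List.mem_map_of_mem he'
  have e9 : T0.size = T0.l.size + T0.r.size + 1 := rfl
  have e10 := h0.2.2.1
  have key : ∃ n t, MC (T0.l.core (fun _ => false) :: T0.r.core (fun _ => false) ::
      (prF TX EX).map fun p => actT p.2 p.1) n t ∧ sX ≤ (row.getD n (0, 0)).1 + t ∧
      (n = 0 ∨ sY + t ≤ (row.getD n (0, 0)).2) := by
    have hpc : ∀ c1 c2 : ℕ, (insL c1 (insL c2 A)).Perm (c1 :: c2 :: EX.map actE) :=
      fun c1 c2 => (insL_perm c1 _).symm.trans (((insL_perm c2 A).symm.trans (hA.cons _)).cons _)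
    have hhol : ∀ y ∈ (prF TX EX).map (fun p => actT p.2 p.1), y.holes = 0 := by
      intro y hy
      obtain ⟨p, _, rfl⟩ := List.mem_map.1 hy
      exact actT_holes _ _
    have hlen : ((prF TX EX).map fun p => actT p.2 p.1).length = (EX.map actE).length := by
      rw [List.length_map, List.length_map, prF_length hX]
    rcases le_total T0.r.size T0.l.size with hlr | hlr
    · have hc := hg T0.l.size (by omega) (by omega)
      exact game_data hrow.2.1 hrow.2.2.1 hc (hpc _ _)
        (ys := T0.l.core (fun _ => false) :: T0.r.core (fun _ => false) ::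
          (prF TX EX).map fun p => actT p.2 p.1) (by
          simp only [List.length_cons, hlen]) (by
          intro y hy
          rcases List.mem_cons.1 hy with rfl | hy
          · exact LT.core_false_holes _
          rcases List.mem_cons.1 hy with rfl | hy
          · exact LT.core_false_holes _
          · exact hhol y hy) (SX := sX) (SY := sY) le_rfl (by
          simp only [dfc, LT.core_size, dfc_prF hX]
          omega)
    · have hc := hg T0.r.size (by omega) (by omega)
      obtain ⟨n, t, g1, g2, g3⟩ := game_data hrow.2.1 hrow.2.2.1 hc (hpc _ _)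
        (ys := T0.r.core (fun _ => false) :: T0.l.core (fun _ => false) ::
          (prF TX EX).map fun p => actT p.2 p.1) (by
          simp only [List.length_cons, hlen]) (by
          intro y hy
          rcases List.mem_cons.1 hy with rfl | hy
          · exact LT.core_false_holes _
          rcases List.mem_cons.1 hy with rfl | hy
          · exact LT.core_false_holes _
          · exact hhol y hy) (SX := sX) (SY := sY) le_rfl (by
          simp only [dfc, LT.core_size, dfc_prF hX]
          omega)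
      exact ⟨n, t, g1.perm (List.Perm.swap _ _ _), g2, g3⟩
  obtain ⟨n, t, g1, g2, g3⟩ := key
  obtain ⟨sz, us, c1, c2, c3, c4, c5⟩ := fcut_of_mc2 (j := j) (Z := poss TY) hfl' g1
  rw [prF_fst hX] at c1 c4 c5
  have hnu : (poss TY \ (poss (T0 :: TX)).image (flip j)).card = 0 := by
    rw [me_nu hnd'.2.1 hX2 hY, hν]
  refine kn_fin hnd hX2 hY hnu hrow (Or.inr rfl)
    c1 c2 c3 c4 c5 (by rw [← hsX]; exact g2)
    (by rw [← hsY]; exact g3) (by rw [← hsY]; exact hy) ?_ ?_
  · rintro rfl
    exact g1.zero
  · intro h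
    cases h

end

end Pool.Agent.Work.MP_bf01b2_co.MR
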