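import Pool.Agent.Work.MP_bf01b2_co.MR.Kn2

/-!
# Known positions: hops, exact sizes
-/

set_option autoImplicit false

namespace Pool.Agent.Work.MP_bf01b2_co.MR

/-! ### Padding -/

section
variable {V : Type*} [DecidableEq V]

/-- add `n` vertices to a tree without holes -/
def HT.pad : HT → ℕ → HT
  | .nil, 0 => .nil
  | .nil, n + 1 => .node .nil (HT.pad .nil n)
  | .hole, _ => .hole
  | .node l r, n => .node (l.pad n) r

theorem HT.pad_nil_size : ∀ n : ℕ, (HT.pad .nil n).size = n
  | 0 => by simp [HT.pad, HT.size]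
  | n + 1 => by rw [HT.pad, HT.size, HT.size, HT.pad_nil_size n]; omega

theorem HT.pad_nil_holes : ∀ n : ℕ, (HT.pad .nil n).holes = 0
  | 0 => by simp [HT.pad, HT.holes]
  | n + 1 => by rw [HT.pad, HT.holes, HT.holes, HT.pad_nil_holes n]

theorem HT.pad_size : ∀ (t : HT) (n : ℕ), t.holes = 0 → (t.pad n).size = t.size + n
  | .nil, n, _ => by rw [HT.pad_nil_size, HT.size]; omega
  | .hole, n, h => by simp [HT.holes] at h
  | .node l r, n, h => by
    rw [HT.holes] at h
    rw [HT.pad, HT.size, HT.size, HT.pad_size l n (by omega)]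
    omega

theorem HT.pad_holes : ∀ (t : HT) (n : ℕ), t.holes = 0 → (t.pad n).holes = 0
  | .nil, n, _ => HT.pad_nil_holes n
  | .hole, n, h => by simp [HT.holes] at h
  | .node l r, n, h => by
    rw [HT.holes] at h
    rw [HT.pad, HT.holes, HT.pad_holes l n (by omega)]
    omega

theorem slot_pad {adj : V → V → Prop} : ∀ {t : HT} {n : ℕ} {v : V} {S : Finset V} {p : List V},
    t.holes = 0 → Slot adj (t.pad n) v S p → ∃ S' ⊆ S, ∃ p', Slot adj t v S' p'
  | .nil, _, _, _, _, _, _ => ⟨∅, Finset.empty_subset _, [], rfl, rfl⟩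
  | .hole, _, _, _, _, h, _ => by simp [HT.holes] at h
  | .node l r, n, v, S, p, h0, h => by
    rw [HT.holes] at h0
    rw [HT.pad] at h
    obtain ⟨x, hvx, A, B, pa, pb, hA, hB, hx, hx', hd, rfl, rfl⟩ := h
    obtain ⟨A', hA', p1, h1⟩ := slot_pad (t := l) (by omega) hA
    refine ⟨insert x (A' ∪ B), ?_, _, x, hvx, A', B, p1, pb, h1, hB, fun h => hx (hA' h), hx',
      Finset.disjoint_of_subset_left hA' hd, rfl, rfl⟩
    exact Finset.insert_subset_insert _ (Finset.union_subset_union_left hA')

/-- add `n` vertices -/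
def RT.pad (T : RT V) (n : ℕ) : RT V := ⟨T.pos, T.l.pad n, T.r⟩

theorem forest_pad {adj : V → V → Prop} : ∀ {Ts Us : List (RT V)},
    List.Forall₂ (fun (T U : RT V) => T.holes = 0 ∧ ∃ n, U = T.pad n) Ts Us →
    ∀ {S : Finset V} {p : List V}, Forest adj Us S p → ∃ S' ⊆ S, ∃ p', Forest adj Ts S' p'
  | _, _, .nil, S, p, h => ⟨S, Finset.Subset.refl _, p, h⟩
  | _, _, .cons (a := T) (b := U) h1 h2, S, p, h => by
    obtain ⟨h0, n, rfl⟩ := h1
    obtain ⟨A, B, pa, pb, ⟨A1, A2, p1, p2, hA1, hA2, hx, hx', hd1, rfl, rfl⟩, hB, hd, rfl, rfl⟩ := h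
    obtain ⟨B', hB', q, h3⟩ := forest_pad h2 hB
    have e0 : T.l.holes = 0 := by unfold RT.holes at h0; omega
    obtain ⟨A', hA', p1', h4⟩ := slot_pad e0 hA1
    have h5 : insert T.pos (A' ∪ A2) ⊆ insert (T.pad n).pos (A1 ∪ A2) :=
      Finset.insert_subset_insert _ (Finset.union_subset_union_left hA')
    refine ⟨insert T.pos (A' ∪ A2) ∪ B', Finset.union_subset_union h5 hB', _,
      insert T.pos (A' ∪ A2), B', _, q, ⟨A', A2, p1', p2, h4, hA2, fun h => hx (hA' h), hx',
        Finset.disjoint_of_subset_left hA' hd1, rfl, rfl⟩, h3, ?_, rfl, rfl⟩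
    exact Finset.disjoint_of_subset_left h5 (Finset.disjoint_of_subset_right hB' hd)

/-- It is enough to prove a hard fact for labelled forests with empty labels and exact sizes. -/
theorem HF_of_exact {adj : V → V → Prop} {ms : List (V × ℕ)} [Fintype V]
    (h : ∀ Ts : List (LRT V), List.Forall₂ (fun (T : LRT V) (m : V × ℕ) =>
      T.pos = m.1 ∧ T.size = m.2 ∧ NL T) Ts ms → ∃ S, Emb adj Ts S) :
    HF adj Finset.univ ms := by
  refine HF_of_clear fun Ts h0 hTs => ?_
  obtain ⟨Us, hU1, hU2⟩ : ∃ Us : List (RT V),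
      List.Forall₂ (fun (T U : RT V) => T.holes = 0 ∧ ∃ n, U = T.pad n) Ts Us ∧
      List.Forall₂ (fun (U : RT V) (m : V × ℕ) => U.pos = m.1 ∧ U.size = m.2) Us ms := by
    clear h
    induction hTs with
    | nil => exact ⟨[], .nil, .nil⟩
    | @cons T m Ts ms h1 _ ih =>
      obtain ⟨Us, h3, h4⟩ := ih fun T hT => h0 T (List.mem_cons_of_mem _ hT)
      have h5 := h0 T List.mem_cons_self
      refine ⟨T.pad (m.2 - T.size) :: Us, .cons ⟨h5, _, rfl⟩ h3, .cons ⟨h1.1, ?_⟩ h4⟩
      have h6 : T.l.holes = 0 := by unfold RT.holes at h5; omega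
      have h7 : (T.pad (m.2 - T.size)).size = (T.l.pad (m.2 - T.size)).size + T.r.size + 1 := rfl
      have h8 : T.size = T.l.size + T.r.size + 1 := rfl
      rw [h7, HT.pad_size _ _ h6]
      have := h1.2
      omega
  obtain ⟨S, p, hS, -⟩ := h (Us.map fun U => ⟨U.pos, U.l.lab, U.r.lab⟩) (by
    rw [List.forall₂_map_left_iff]
    refine hU2.imp fun U m hm => ⟨hm.1, ?_, ?_⟩
    · have h1 : (LRT.mk U.pos U.l.lab U.r.lab : LRT V).size = U.size := by
        have e1 : (U.l.lab : LT V).size = U.l.size := by unfold LT.size; rw [HT.lab_shape]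
        have e2 : (U.r.lab : LT V).size = U.r.size := by unfold LT.size; rw [HT.lab_shape]
        have e3 : (LRT.mk U.pos U.l.lab U.r.lab : LRT V).size =
          (U.l.lab : LT V).size + (U.r.lab : LT V).size + 1 := rfl
        rw [e3, e1, e2]
        rfl
      rw [h1]
      exact hm.2
    · intro F hF
      simp only [LRT.labs, List.mem_append] at hF
      rcases hF with hF | hF
      · exact HT.lab_labs _ F hF
      · exact HT.lab_labs _ F hF)
  have e : (Us.map fun U => (⟨U.pos, U.l.lab, U.r.lab⟩ : LRT V)).map LRT.shape = Us := by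
    rw [List.map_map]
    conv_rhs => rw [← List.map_id Us]
    refine List.map_congr_left fun U _ => ?_
    simp only [Function.comp, LRT.shape, HT.lab_shape, id]
  rw [e] at hS
  obtain ⟨S', hS', p', h5⟩ := forest_pad hU1 hS
  exact ⟨S', p', h5, Finset.subset_univ _⟩

end

/-! ### Forests described by entries -/

/-- all forests described by the entries embed -/
def KW {m : ℕ} (j : Fin (m + 1)) (b : Bool) (EA EB : List KE) : Prop :=
  ∀ TA TB : List (LRT (Fin (m + 1) → Bool)), ((TA ++ TB).map LRT.pos).Nodup →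
    List.Forall₂ (ME j b) TA EA → List.Forall₂ (ME j (!b)) TB EB →
    ∃ S, Emb (cadj (m + 1)) (TA ++ TB) S

section
variable {m : ℕ} {j : Fin (m + 1)} {b : Bool}

theorem KW.symm {EA EB : List KE} (h : KW j (!b) EB EA) : KW j b EA EB := by
  intro TA TB h1 h2 h3
  have h4 : ((TB ++ TA).map LRT.pos).Nodup := by
    rw [(List.perm_append_comm.map LRT.pos).nodup_iff]
    exact h1
  obtain ⟨S, hS⟩ := h TB TA h4 h3 (by rw [Bool.not_not]; exact h2)
  exact ⟨S, hS.perm List.perm_append_comm⟩

theorem KW.perm {EA EA' EB : List KE} (hp : EA.Perm EA') (h : KW j b EA EB) : KW j b EA' EB := by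
  intro TA TB h1 h2 h3
  obtain ⟨TA', h4, h5⟩ := List.perm_comp_forall₂ hp (h2.flip : List.Forall₂
    (fun (e : KE) (T : LRT (Fin (m + 1) → Bool)) => ME j b T e) EA' TA)
  have h6 : (TA' ++ TB).Perm (TA ++ TB) := h5.append_right TB
  obtain ⟨S, hS⟩ := h TA' TB (by rw [(h6.map LRT.pos).nodup_iff]; exact h1) h4.flip h3
  exact ⟨S, hS.perm h6⟩

theorem ME.swap {T : LRT (Fin (m + 1) → Bool)} {e : KE} (h : ME j b T e) (he : e.2.2 ≤ 1) :
    ME j b T.swap e := by
  refine ⟨h.1, h.2.1, ?_, ?_, fun h1 => by omega⟩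
  · have e1 : T.size = T.l.size + T.r.size + 1 := rfl
    have e2 : T.swap.size = T.r.size + T.l.size + 1 := rfl
    have := h.2.2.1
    omega
  · intro F hF
    apply h.2.2.2.1 F
    simp only [LRT.labs, LRT.swap, List.mem_append] at hF ⊢
    tauto

/-- **A hop** of a child of a root, for every splitting one of both children. -/
theorem KW.hop {E1 E2 EB : List KE} {c W : ℕ} (hW : 2 ≤ W) (hc : c ∉ EB.map Prod.fst)
    (h : ∀ c1, W / 2 ≤ c1 → c1 < W →
      KW j b (E1 ++ (c, W - c1, 2) :: E2) (EB ++ [(c, c1, 1)]) ∨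
      (1 ≤ W - 1 - c1 ∧
        KW j b (E1 ++ (c, W - (W - 1 - c1), 2) :: E2) (EB ++ [(c, W - 1 - c1, 1)]))) :
    KW j b (E1 ++ (c, W, 0) :: E2) EB := by
  intro TA TB hnd hA hB
  obtain ⟨L1, LT', hL1, hL2, rfl⟩ : ∃ L1 LT', List.Forall₂ (ME j b) L1 E1 ∧
      List.Forall₂ (ME j b) LT' ((c, W, 0) :: E2) ∧ TA = L1 ++ LT' := by
    clear h hnd hB hc
    induction E1 generalizing TA with
    | nil => exact ⟨[], TA, .nil, hA, rfl⟩
    | cons e E1 ih =>
      cases hA with
      | cons h1 h2 =>
        obtain ⟨L1, LT', h3, h4, rfl⟩ := ih _ h2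
        exact ⟨_ :: L1, LT', .cons h1 h3, h4, rfl⟩
  cases hL2 with
  | @cons T _ L2 _ hT hL2 =>
    -- the main step, the left child hops
    have key : ∀ T : LRT (Fin (m + 1) → Bool), ME j b T (c, W, 0) → 1 ≤ T.l.size →
        (((L1 ++ T :: L2) ++ TB).map LRT.pos).Nodup →
        KW j b (E1 ++ (c, W - T.l.size, 2) :: E2) (EB ++ [(c, T.l.size, 1)]) →
        ∃ S, Emb (cadj (m + 1)) (T :: (L1 ++ L2 ++ TB)) S := by
      intro T hT hl hnd h
      have hTl : ∃ x y, T.l = .node x y := by
        cases hTl : T.l with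
        | nil => rw [hTl] at hl; simp at hl
        | hole F => rw [hTl] at hl; simp at hl
        | node x y => exact ⟨x, y, rfl⟩
      have e9 : T.size = T.l.size + T.r.size + 1 := rfl
      have hsz := hT.2.2.1
      have hR : ME j b (hopR T) (c, W - T.l.size, 2) := by
        refine ⟨hT.1, hT.2.1, ?_, ?_, fun _ => rfl⟩
        · have e1 : (hopR T).size = 0 + T.r.size + 1 := rfl
          show (hopR T).size = W - T.l.size
          have : T.size = W := hsz
          omega
        · intro F hF
          simp only [hopR, LRT.labs, LT.labs, List.mem_append, List.mem_singleton] at hF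
          rcases hF with rfl | hF
          · rfl
          · exact hT.2.2.2.1.right F hF
      have hH : ME j (!b) (hopT (flip j T.pos) T) (c, T.l.size, 1) := by
        obtain ⟨x, y, hxy⟩ := hTl
        have e1 : hopT (flip j T.pos) T = ⟨flip j T.pos, x, y⟩ := by unfold hopT; rw [hxy]
        rw [e1]
        refine ⟨?_, ?_, ?_, ?_, fun h => absurd h (by simp)⟩
        · show (flip j T.pos) j = !b
          rw [flip_apply_self, hT.1]
        · show encV (del j (flip j T.pos)) = c
          rw [del_flip]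
          exact hT.2.1
        · show (LRT.mk (flip j T.pos) x y).size = T.l.size
          have e2 : (LRT.mk (flip j T.pos) x y).size = x.size + y.size + 1 := rfl
          have e3 : T.l.size = x.size + y.size + 1 := by rw [hxy]; rfl
          rw [e2, e3]
        · intro F hF
          apply hT.2.2.2.1.left F
          rw [hxy]
          simpa [LRT.labs, LT.labs] using hF
      have hnot : flip j T.pos ∉ TB.map LRT.pos := by
        intro h1
        obtain ⟨U, hU, hUp⟩ := List.mem_map.1 h1
        obtain ⟨e', he', h2⟩ := me_mem hB U hU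
        apply hc
        have h3 := (me_flip hT h2).2 hUp.symm
        simp only at h3
        rw [h3]
        exact List.mem_map_of_mem he'
      have hposH : (hopT (flip j T.pos) T).pos = flip j T.pos := by
        obtain ⟨x, y, hxy⟩ := hTl
        unfold hopT
        rw [hxy]
      obtain ⟨S, hS⟩ := h (L1 ++ hopR T :: L2) (TB ++ [hopT (flip j T.pos) T]) (by
        rw [← List.append_assoc, List.map_append, List.nodup_append]
        refine ⟨?_, by simp, ?_⟩
        · have e2 : ((L1 ++ hopR T :: L2) ++ TB).map LRT.pos =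
              ((L1 ++ T :: L2) ++ TB).map LRT.pos := by
            simp [hopR]
          rw [e2]
          exact hnd
        · intro x hx y hy hxy
          subst hxy
          simp only [List.map_cons, List.map_nil, List.mem_singleton] at hy
          rw [hposH] at hy
          rw [hy, List.map_append, List.mem_append] at hx
          rcases hx with hx | hx
          · obtain ⟨U, hU, hUp⟩ := List.mem_map.1 hx
            have hUj : U.pos j = b := by
              rcases List.mem_append.1 hU with h1 | h1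
              · obtain ⟨e', _, h2⟩ := me_mem hL1 U h1
                exact h2.1
              · rcases List.mem_cons.1 h1 with rfl | h1
                · exact hT.1
                · obtain ⟨e', _, h2⟩ := me_mem hL2 U h1
                  exact h2.1
            rw [hUp, flip_apply_self, hT.1] at hUj
            cases b <;> cases hUj
          · exact hnot hx) (by
        refine forall₂_append' hL1 (.cons hR hL2)) (by
        refine forall₂_append' hB (.cons hH .nil))
      have h6 : Emb (cadj (m + 1)) (hopT (flip j T.pos) T :: hopR T :: (L1 ++ L2 ++ TB)) S := by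
        refine Emb.perm ?_ hS
        have p1 : ((L1 ++ hopR T :: L2) ++ (TB ++ [hopT (flip j T.pos) T])).Perm
            (hopT (flip j T.pos) T :: ((L1 ++ hopR T :: L2) ++ TB)) := by
          rw [← List.append_assoc]
          exact List.perm_append_singleton _ _
        refine p1.trans (List.Perm.cons _ ?_)
        rw [List.append_assoc, List.append_assoc]
        exact List.perm_middle
      exact ⟨S, emb_merge' (cadj_flip j) hTl h6⟩
    have e9 : T.size = T.l.size + T.r.size + 1 := rfl
    have hsz : T.size = W := hT.2.2.1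
    have hfin : (∃ S, Emb (cadj (m + 1)) (T :: (L1 ++ L2 ++ TB)) S) →
        ∃ S, Emb (cadj (m + 1)) ((L1 ++ T :: L2) ++ TB) S := by
      rintro ⟨S, hS⟩
      refine ⟨S, Emb.perm ?_ hS⟩
      rw [← Multiset.coe_eq_coe]
      simp only [← Multiset.coe_add, ← Multiset.cons_coe, ← Multiset.singleton_add]
      abel
    apply hfin
    have hsw : ∀ S, Emb (cadj (m + 1)) (T.swap :: (L1 ++ L2 ++ TB)) S →
        Emb (cadj (m + 1)) (T :: (L1 ++ L2 ++ TB)) S := fun S hS => by
      have h1 : Emb (cadj (m + 1)) (⟨T.pos, T.r, T.l⟩ :: (L1 ++ L2 ++ TB)) S := hS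
      exact emb_swap h1
    have hndS : (((L1 ++ T.swap :: L2) ++ TB).map LRT.pos).Nodup := by
      have e2 : ((L1 ++ T.swap :: L2) ++ TB).map LRT.pos =
          ((L1 ++ T :: L2) ++ TB).map LRT.pos := by
        simp [LRT.swap]
      rw [e2]
      exact hnd
    have hTs := hT.swap (by simp)
    have keyL : 1 ≤ T.l.size →
        KW j b (E1 ++ (c, W - T.l.size, 2) :: E2) (EB ++ [(c, T.l.size, 1)]) →
        ∃ S, Emb (cadj (m + 1)) (T :: (L1 ++ L2 ++ TB)) S := fun h1 h2 => key T hT h1 hnd h2
    have keyR : 1 ≤ T.r.size →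
        KW j b (E1 ++ (c, W - T.r.size, 2) :: E2) (EB ++ [(c, T.r.size, 1)]) →
        ∃ S, Emb (cadj (m + 1)) (T :: (L1 ++ L2 ++ TB)) S := fun h1 h2 => by
      obtain ⟨S, hS⟩ := key T.swap hTs h1 hndS h2
      exact ⟨S, hsw S hS⟩
    rcases le_total T.r.size T.l.size with hlr | hlr
    · rcases h T.l.size (by omega) (by omega) with h1 | ⟨h2, h1⟩
      · exact keyL (by omega) h1
      · have e1 : W - 1 - T.l.size = T.r.size := by omega
        rw [e1] at h1 h2
        exact keyR h2 h1
    · rcases h T.r.size (by omega) (by omega) with h1 | ⟨h2, h1⟩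
      · exact keyR (by omega) h1
      · have e1 : W - 1 - T.r.size = T.l.size := by omega
        rw [e1] at h1 h2
        exact keyL h2 h1

/-- from the entries to the hard fact, splitting in the direction `j` -/
theorem HF_of_KW {ms : List ((Fin (m + 1) → Bool) × ℕ)} (hnd : (ms.map Prod.fst).Nodup)
    {EA EB : List KE}
    (hA : List.Forall₂ (fun (a : (Fin (m + 1) → Bool) × ℕ) (e : KE) =>
      encV (del j a.1) = e.1 ∧ a.2 = e.2.1 ∧ e.2.2 ≤ 1) (ms.filter fun a => a.1 j == b) EA)
    (hB : List.Forall₂ (fun (a : (Fin (m + 1) → Bool) × ℕ) (e : KE) =>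
      encV (del j a.1) = e.1 ∧ a.2 = e.2.1 ∧ e.2.2 ≤ 1) (ms.filter fun a => !(a.1 j == b)) EB)
    (h : KW j b EA EB) : HF (cadj (m + 1)) Finset.univ ms := by
  refine HF_of_exact fun Ts hTs => ?_
  have hfil : ∀ (f : (Fin (m + 1) → Bool) → Bool), List.Forall₂
      (fun (T : LRT (Fin (m + 1) → Bool)) (m' : (Fin (m + 1) → Bool) × ℕ) =>
        (T.pos = m'.1 ∧ T.size = m'.2 ∧ NL T) ∧ f m'.1 = true)
      (Ts.filter fun T => f T.pos) (ms.filter fun a => f a.1) := by
    intro f
    clear hnd hA hB
    induction hTs with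
    | nil => exact .nil
    | @cons T a Ts ms h1 _ ih =>
      rw [List.filter_cons, List.filter_cons, h1.1]
      split_ifs with h2
      · exact .cons ⟨h1, h2⟩ ih
      · exact ih
  have hcomb : ∀ (c : Bool) (L : List (LRT (Fin (m + 1) → Bool)))
      (M : List ((Fin (m + 1) → Bool) × ℕ)) (E : List KE),
      List.Forall₂ (fun (T : LRT (Fin (m + 1) → Bool)) (m' : (Fin (m + 1) → Bool) × ℕ) =>
        (T.pos = m'.1 ∧ T.size = m'.2 ∧ NL T) ∧ (m'.1 j == c) = true) L M →
      List.Forall₂ (fun (a : (Fin (m + 1) → Bool) × ℕ) (e : KE) =>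
        encV (del j a.1) = e.1 ∧ a.2 = e.2.1 ∧ e.2.2 ≤ 1) M E →
      List.Forall₂ (ME j c) L E := by
    intro c L M E h1 h2
    induction h1 generalizing E with
    | nil => cases h2; exact .nil
    | cons h3 _ ih =>
      cases h2 with
      | cons h4 h5 =>
        obtain ⟨⟨g1, g2, g3⟩, g4⟩ := h3
        refine .cons ⟨?_, ?_, ?_, g3, fun h => by omega⟩ (ih _ h5)
        · rw [g1]
          exact beq_iff_eq.1 g4
        · rw [g1]
          exact h4.1
        · rw [g2]
          exact h4.2.1
  have hA' : List.Forall₂ (ME j b) (Ts.filter fun T => T.pos j == b) EA :=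
    hcomb b _ _ _ (hfil fun x => x j == b) hA
  have hB' : List.Forall₂ (ME j (!b)) (Ts.filter fun T => !(T.pos j == b)) EB := by
    refine hcomb (!b) _ _ _ ((hfil fun x => !(x j == b)).imp fun T a h => ⟨h.1, ?_⟩) hB
    have h1 := h.2
    cases hb : b <;> cases hx : a.1 j <;> rw [hb, hx] at h1 <;> first | rfl | cases h1
  have hpos : Ts.map LRT.pos = ms.map Prod.fst := by
    clear hnd hA hB hfil hcomb hA' hB'
    induction hTs with
    | nil => rfl
    | cons h1 _ ih => rw [List.map_cons, List.map_cons, ih, h1.1]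
  have hperm : ((Ts.filter fun T => T.pos j == b) ++ (Ts.filter fun T => !(T.pos j == b))).Perm Ts :=
    List.filter_append_perm _ _
  obtain ⟨S, hS⟩ := h _ _ (by rw [(hperm.map LRT.pos).nodup_iff, hpos]; exact hnd) hA' hB'
  exact ⟨S, hS.perm hperm⟩

end

end Pool.Agent.Work.MP_bf01b2_co.MR
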