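import Pool.Agent.Work.MP_bf01b2_co.MR.StateO
import Pool.Agent.Work.MP_bf01b2_co.MR.AllC
import Pool.Agent.Work.MP_bf01b2_co.MR.Harden

/-!
# Checking the tables; all vectors; lists of facts
-/

set_option autoImplicit false

namespace Pool.Agent.Work.MP_bf01b2_co.MR

/-- facts `(k, D, cap)`: all states with `k` trees of total size at most `cap` and at most `D` soft
positions, any number of specials -/
def BaseO (m : ℕ) (L : List (ℕ × ℕ × ℕ)) : Prop :=
  ∀ e ∈ L, ∀ (s : ℕ) (w : List ℕ), w.length = e.1 → w.sum ≤ e.2.2 → GdO m e.2.1 s w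

theorem BaseO.nil {m : ℕ} : BaseO m [] := by
  intro e he
  simp at he

theorem BaseO.cons {m k D cap : ℕ} {L : List (ℕ × ℕ × ℕ)} (h : BaseO m L)
    (h1 : ∀ (s : ℕ) (w : List ℕ), w.length = k → w.sum ≤ cap → GdO m D s w) :
    BaseO m ((k, D, cap) :: L) := by
  intro e he
  rcases List.mem_cons.1 he with rfl | he
  · exact h1
  · exact h e he

theorem BaseO.append {m : ℕ} {L L' : List (ℕ × ℕ × ℕ)} (h : BaseO m L) (h' : BaseO m L') :
    BaseO m (L ++ L') := by
  intro e he
  rcases List.mem_append.1 he with he | he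
  · exact h e he
  · exact h' e he

theorem GdO.of_small {m D s : ℕ} {w : List ℕ} (h : w.sum < w.length) : GdO m D s w :=
  GdO.of_zero (zero_mem_of_sum h)

theorem BaseO.cap {m : ℕ} {L : List (ℕ × ℕ × ℕ)} (h : BaseO m L) (s k D : ℕ) (w : List ℕ)
    (hw : w.length = k) (hs : w.sum ≤ capL L k D) : GdO m D s w := by
  rcases capL_spec (k := k) (D := D) (L := L) with h1 | ⟨e, he, h1, h2, h3⟩
  · cases w with
    | nil => exact GdO.nil
    | cons a l => exact GdO.of_small (by rw [List.length_cons]; omega)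
  · exact (h e he s w (by rw [hw, h1]) (by rw [← h3]; exact hs)).mono h2 le_rfl (forall₂_le_refl w)

/-- the entry of a table of caps -/
def capT (c : List (List ℕ)) (k D : ℕ) : ℕ := (c.getD k []).getD D 0

/-- a table of caps, the entry `(k, D)` for `k` trees and `D` soft positions -/
def CapO (m : ℕ) (c : List (List ℕ)) : Prop :=
  ∀ (k D s : ℕ) (w : List ℕ), w.length = k → w.sum ≤ capT c k D → GdO m D s w

/-- the table follows from the list (monotonicity in `D`, hardening) -/
def capChk (m : ℕ) (L : List (ℕ × ℕ × ℕ)) (c : List (List ℕ)) : Bool :=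
  (List.range c.length).all fun k => (List.range (c.getD k []).length).all fun D =>
    decide (capT c k D < k) || decide (k = 0) ||
    (List.range (D + 1)).any fun x =>
      decide (capT c k D + x ≤ capL L (k + x) (D - x)) && decide (k + x ≤ 2 ^ m)

theorem BaseO.capO {m : ℕ} {L : List (ℕ × ℕ × ℕ)} (h : BaseO m L) {c : List (List ℕ)}
    (hc : capChk m L c = true) : CapO m c := by
  intro k D s w hw hs
  cases hk0 : k with
  | zero =>
    rw [hk0] at hw
    rw [List.length_eq_zero_iff.1 hw]
    exact GdO.nil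
  | succ k' =>
    by_cases hz : capT c k D = 0
    · exact GdO.of_small (by omega)
    · have h1 : k < c.length := by
        by_contra hcon
        apply hz
        unfold capT
        rw [List.getD_eq_default c [] (by omega)]
        simp
      have h2 : D < (c.getD k []).length := by
        by_contra hcon
        apply hz
        unfold capT
        rw [List.getD_eq_default _ 0 (by omega)]
      unfold capChk at hc
      rw [List.all_eq_true] at hc
      have h3 := hc k (List.mem_range.2 h1)
      rw [List.all_eq_true] at h3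
      have h4 := h3 D (List.mem_range.2 h2)
      rw [Bool.or_eq_true, Bool.or_eq_true, decide_eq_true_eq, decide_eq_true_eq,
        List.any_eq_true] at h4
      rcases h4 with (h4 | h4) | ⟨x, hx, h4⟩
      · exact GdO.of_small (by omega)
      · omega
      · rw [Bool.and_eq_true, decide_eq_true_eq, decide_eq_true_eq] at h4
        have hx' := List.mem_range.1 hx
        have h5 : GdO m (D - x) s (w ++ List.replicate x 1) := by
          refine h.cap s (k + x) (D - x) _ ?_ ?_
          · rw [List.length_append, List.length_replicate, hw]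
          · rw [List.sum_append, List.sum_replicate, smul_eq_mul, mul_one]
            omega
        have h6 := h5.harden (by rw [hw]; exact h4.2)
        rwa [Nat.sub_add_cancel (by omega)] at h6

/-- the check of one row -/
def rowOC (c : List (List ℕ)) (kX dX kY dY η ν : ℕ) (row : List (ℕ × ℕ)) : Bool :=
  !row.isEmpty &&
  (List.range row.length).all (fun i =>
    decide ((row.getD (i + 1) (0, 0)).1 ≤ (row.getD i (0, 0)).1) &&
    decide ((row.getD (i + 1) (0, 0)).2 ≤ (row.getD i (0, 0)).2)) &&
  decide (η ≤ dX) &&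
  (List.range row.length).all (fun n =>
    (decide ((row.getD n (0, 0)).1 < kX) ||
      ((decide (n = 0) || (decide (ν = 0) && decide (η = 0))) &&
        (decide (kX = 0) || decide ((row.getD n (0, 0)).1 ≤ capT c kX dX))) ||
      (List.range (dX + 1)).any (fun η' => decide (η ≤ η') &&
        decide ((row.getD n (0, 0)).1 + η' ≤ capT c (kX + η') (dX - η' + ν)))) &&
    (decide ((row.getD n (0, 0)).2 < n + kY) || decide (n + kY = 0) ||
      decide ((row.getD n (0, 0)).2 ≤ capT c (n + kY) dY)))

theorem rowOC_ok {m s kX dX kY dY η ν : ℕ} {c : List (List ℕ)} (hc : CapO m c)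
    {row : List (ℕ × ℕ)} (h : rowOC c kX dX kY dY η ν row = true) :
    RowO m s kX dX kY dY η ν row := by
  unfold rowOC at h
  simp only [Bool.and_eq_true, List.all_eq_true, List.mem_range, Bool.or_eq_true,
    decide_eq_true_eq, Bool.not_eq_true', List.isEmpty_eq_false_iff, List.any_eq_true] at h
  obtain ⟨⟨⟨h1, h2⟩, hη⟩, h3⟩ := h
  have hout : ∀ i, row.length ≤ i → row.getD i (0, 0) = (0, 0) := fun i hi =>
    List.getD_eq_default _ _ hi
  refine ⟨h1, fun i => ?_, fun i => ?_, fun n hn => ⟨fun w hw hs => ?_, fun w hw hs => ?_⟩⟩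
  · by_cases hi : i < row.length
    · exact (h2 i hi).1
    · rw [hout (i + 1) (by omega)]; exact Nat.zero_le _
  · by_cases hi : i < row.length
    · exact (h2 i hi).2
    · rw [hout (i + 1) (by omega)]; exact Nat.zero_le _
  · rcases (h3 n hn).1 with (h4 | ⟨h4, h5⟩) | ⟨η', h4, h5, h6⟩
    · refine Or.inr ⟨η, le_rfl, hη, ?_⟩
      exact GdO.of_zero (List.mem_append_left _ (zero_mem_of_sum (by omega)))
    · refine Or.inl ⟨h4, ?_⟩
      rcases h5 with h5 | h5
      · rw [h5] at hw
        rw [List.length_eq_zero_iff.1 hw]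
        exact GdO.nil
      · exact hc kX dX s w hw (hs.trans h5)
    · refine Or.inr ⟨η', h5, by omega, ?_⟩
      refine hc (kX + η') (dX - η' + ν) _ _ ?_ ?_
      · rw [List.length_append, List.length_replicate, hw]
      · rw [List.sum_append, List.sum_replicate, smul_eq_mul, mul_one]
        omega
  · rcases (h3 n hn).2 with (h4 | h4) | h4
    · exact GdO.of_small (by omega)
    · rw [h4] at hw
      rw [List.length_eq_zero_iff.1 hw]
      exact GdO.nil
    · exact hc _ dY s w hw (hs.trans h4)

/-- the check of the condition for two active subtrees -/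
def fullC (c : List (List ℕ)) (kX dX : ℕ) (row : List (ℕ × ℕ)) : Bool :=
  (List.range row.length).all fun n =>
    decide ((row.getD n (0, 0)).1 < kX) || decide ((row.getD n (0, 0)).1 ≤ capT c kX dX)

theorem fullC_ok {m s kX dX : ℕ} {c : List (List ℕ)} (hc : CapO m c)
    {row : List (ℕ × ℕ)} (h : fullC c kX dX row = true) : ∀ n < row.length, ∀ w : List ℕ,
      w.length = kX → w.sum ≤ (row.getD n (0, 0)).1 → GdO m dX s w := by
  intro n hn w hw hs
  unfold fullC at h
  rw [List.all_eq_true] at h
  have h1 := h n (List.mem_range.2 hn)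
  rw [Bool.or_eq_true, decide_eq_true_eq, decide_eq_true_eq] at h1
  rcases h1 with h1 | h1
  · exact GdO.of_small (by omega)
  · exact hc kX dX s w hw (hs.trans h1)

/-- the check of one class -/
def clsC (c : List (List ℕ)) (K D kX dX kY dY : ℕ) (cl : List (ℕ × ℕ) × Bool × List ℕ) : Bool :=
  match cl.2.2 with
  | [] => true
  | R :: Rs => (rowOC c kX dX kY dY (cnt R K D) (kY + dY - (cnt R 0 K + cnt R K D)) cl.1 &&
      (!cl.2.1 || (decide (cnt R K D = 0) && decide (kY + dY - (cnt R 0 K + cnt R K D) = 0) &&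
        fullC c kX dX cl.1))) &&
      Rs.all fun R' => decide (cnt R' 0 K = cnt R 0 K) && decide (cnt R' K D = cnt R K D)

/-- the check of one side -/
def sideC (c : List (List ℕ)) (K D g : ℕ) (x : Bool) (sd : SideT) : Bool :=
  (decide (sd.2.2.1 < 2 ^ (K + D)) &&
  (List.range (K + D)).all fun i => sd.2.2.1.testBit i == ((2 * g).testBit i == x)) &&
  (List.range (sft K D g x + 1)).all (fun h =>
    decide ((bitsG K g).count (!x) + sft K D g (!x) < h) ||
    rowOC c ((bitsG K g).count x) (sft K D g x) ((bitsG K g).count (!x)) (sft K D g (!x)) h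
      ((bitsG K g).count (!x) + sft K D g (!x) - h) sd.1) &&
  rowOC c ((bitsG K g).count x) (sft K D g x) ((bitsG K g).count (!x)) (sft K D g (!x)) 0
      ((bitsG K g).count (!x) + sft K D g (!x)) sd.2.1 &&
  sd.2.2.2.all (clsC c K D ((bitsG K g).count x) (sft K D g x) ((bitsG K g).count (!x))
    (sft K D g (!x)))

theorem sideC_ok {m s K D g : ℕ} {x : Bool} {c : List (List ℕ)} (hc : CapO m c) {sd : SideT}
    (h : sideC c K D g x sd = true) : SideOK m s K D g x sd := by
  unfold sideC at h
  rw [Bool.and_eq_true, Bool.and_eq_true, Bool.and_eq_true, Bool.and_eq_true, decide_eq_true_eq,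
    List.all_eq_true, List.all_eq_true, List.all_eq_true] at h
  obtain ⟨⟨⟨⟨h1, h2⟩, h3⟩, h4⟩, h5⟩ := h
  refine ⟨fun i => ?_, fun η h6 h7 => ?_, rowOC_ok hc h4, fun cl hcl R hR => ?_⟩
  · by_cases hi : i < K + D
    · have h6 := h2 i (List.mem_range.2 hi)
      rw [beq_iff_eq] at h6
      rw [h6, beq_iff_eq]
      exact ⟨fun h => ⟨hi, h⟩, fun h => h.2⟩
    · have h6 : sd.2.2.1.testBit i = false :=
        Nat.testBit_lt_two_pow (h1.trans_le (Nat.pow_le_pow_right (by omega) (by omega)))
      rw [h6]
      constructor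
      · intro h; cases h
      · rintro ⟨h, -⟩
        exact absurd h hi
  · have h8 := h3 η (List.mem_range.2 (by omega))
    rw [Bool.or_eq_true, decide_eq_true_eq] at h8
    rcases h8 with h8 | h8
    · omega
    · exact rowOC_ok hc h8
  · have h6 := h5 cl hcl
    unfold clsC at h6
    cases hRs : cl.2.2 with
    | nil => rw [hRs] at hR; simp at hR
    | cons R0 Rs =>
      rw [hRs] at h6 hR
      simp only [Bool.and_eq_true, List.all_eq_true, decide_eq_true_eq, Bool.or_eq_true,
        Bool.not_eq_true'] at h6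
      obtain ⟨⟨h7, h8⟩, h9⟩ := h6
      have h10 : cnt R 0 K = cnt R0 0 K ∧ cnt R K D = cnt R0 K D := by
        rcases List.mem_cons.1 hR with rfl | hR
        · exact ⟨rfl, rfl⟩
        · exact h9 R hR
      rw [h10.1, h10.2]
      refine ⟨rowOC_ok hc h7, fun htw => ?_⟩
      rcases h8 with h8 | ⟨⟨h11, h12⟩, h13⟩
      · rw [htw] at h8; cases h8
      · exact ⟨h11, h12, fullC_ok hc h13⟩

/-- the check of the table -/
def tabOC (c : List (List ℕ)) (K D : ℕ) (tab : List EntO) : Bool :=
  decide (tab.length = 2 ^ (K + D - 1)) &&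
  (List.range (2 ^ (K + D - 1))).all (fun g =>
    decide ((tab.getD g ([], ([], [], 0, []), ([], [], 0, []))).1 = bitsG K g) &&
    sideC c K D g false (tab.getD g ([], ([], [], 0, []), ([], [], 0, []))).2.1 &&
    sideC c K D g true (tab.getD g ([], ([], [], 0, []), ([], [], 0, []))).2.2)

theorem tabOC_ok {m s K D : ℕ} {c : List (List ℕ)} (hc : CapO m c)
    {tab : List EntO} (h : tabOC c K D tab = true) :
    tab.length = 2 ^ (K + D - 1) ∧ TabO m s K D tab := by
  unfold tabOC at h
  rw [Bool.and_eq_true, List.all_eq_true, decide_eq_true_eq] at h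
  refine ⟨h.1, fun g hg e he => ?_⟩
  have h1 : tab.getD g ([], ([], [], 0, []), ([], [], 0, [])) = e := by
    rw [List.getD_eq_getElem?_getD, he]
    rfl
  have h2 := h.2 g (List.mem_range.2 hg)
  rw [Bool.and_eq_true, Bool.and_eq_true, decide_eq_true_eq, h1] at h2
  obtain ⟨⟨h3, h4⟩, h5⟩ := h2
  refine ⟨h3, fun x => ?_⟩
  cases x
  · exact sideC_ok hc h4
  · exact sideC_ok hc h5

/-- the check `f` covers all sorted vectors with `k + 1` entries, sum `S`, first entry in
`[lo, hi]` -/
def Cov (k S lo hi : ℕ) (f : List ℕ → Bool) : Prop :=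
  ∀ (x : ℕ) (v : List ℕ), v.length = k → x + v.sum = S → (∀ y ∈ v, 1 ≤ y) →
      (∀ y ∈ v, y ≤ x) → v.Pairwise (fun a b => b ≤ a) → lo ≤ x → x ≤ hi →
      ∃ u : List ℕ, List.Forall₂ (· ≤ ·) (x :: v) u ∧ f u = true

theorem Cov.run {c : Ct} {k S a hi : ℕ} {f : List ℕ → Bool} (hk : 1 ≤ k)
    (h : runC c k S a hi f = true) : Cov k S a hi f :=
  fun x v h1 h2 h3 h4 h5 h6 h7 => runC_sound c h hk x v h1 h2 h3 h4 h5 h6 h7

theorem Cov.join {k S a b c : ℕ} {f : List ℕ → Bool} (h1 : Cov k S a b f)
    (h2 : Cov k S (b + 1) c f) : Cov k S a c f := by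
  intro x v e1 e2 e3 e4 e5 e6 e7
  by_cases hx : x ≤ b
  · exact h1 x v e1 e2 e3 e4 e5 e6 hx
  · exact h2 x v e1 e2 e3 e4 e5 (by omega) e7

theorem Cov.one {S lo hi : ℕ} {f : List ℕ → Bool} (h : f [S] = true) : Cov 0 S lo hi f := by
  intro x v e1 e2 _ _ _ _ _
  rw [List.length_eq_zero_iff.1 e1] at e2 ⊢
  refine ⟨[S], .cons (by simp at e2; omega) .nil, h⟩

/-- a block `[a, a1]` of the first entry, the other entries are treated separately -/
theorem Cov.blk {k S a a1 S1 lo h1 : ℕ} {f : List ℕ → Bool} (hS1 : S1 = min (S - a) ((k + 1) * a1))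
    (hlo : lo * (k + 1) ≤ S1 + k) (hh : min a1 (S1 - k) ≤ h1)
    (h : Cov k S1 lo h1 (fun l => f (a1 :: l))) : Cov (k + 1) S a a1 f := by
  intro x v e1 e2 e3 e4 e5 e6 e7
  have hvM : ∀ y ∈ v, y ≤ a1 := fun y hy => (e4 y hy).trans e7
  have hvs : v.sum ≤ (k + 1) * a1 := by
    have := sum_le_mul hvM
    rwa [e1] at this
  obtain ⟨u, f1, f2, f3, f4⟩ := raise (M := a1) (S := S1) e5 hvM (by omega) (by
    rw [e1]; omega)
  have f5 : u.length = k + 1 := by rw [← f1.length_eq, e1]
  have f6 : ∀ y ∈ u, 1 ≤ y := by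
    clear f2 f3 f4 f5 e4 e5 hvM hvs e1 e2
    induction f1 with
    | nil => simp
    | cons h _ ih =>
      intro y hy
      rcases List.mem_cons.1 hy with rfl | hy
      · exact (e3 _ List.mem_cons_self).trans h
      · exact ih (fun z hz => e3 z (List.mem_cons_of_mem _ hz)) y hy
  match u, f5 with
  | y :: r, f5 =>
    have f7 : r.length = k := by simpa using f5
    rw [List.pairwise_cons] at f3
    rw [List.sum_cons] at f2
    have f8 : r.sum ≤ k * y := by
      rw [← f7]
      exact sum_le_mul f3.1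
    have f9 : k ≤ r.sum := by
      rw [← f7]
      exact len_le_sum (fun z hz => f6 z (List.mem_cons_of_mem _ hz))
    have f10 := f4 y List.mem_cons_self
    have f11 : lo ≤ y := by
      by_contra hcon
      have : (y + 1) * (k + 1) ≤ lo * (k + 1) := Nat.mul_le_mul_right _ (by omega)
      have e : (y + 1) * (k + 1) = k * y + y + k + 1 := by ring
      omega
    obtain ⟨u', q1, q2⟩ := h y r f7 f2
      (fun z hz => f6 z (List.mem_cons_of_mem _ hz)) f3.1 f3.2 f11 (by omega)
    exact ⟨a1 :: u', .cons e7 (forall₂_le_trans f1 q1), q2⟩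

/-- from the sorted vectors with sum `T` to all vectors with sum at most `T` -/
theorem GdO.of_cov {m s D k T lo hi : ℕ} {f : List ℕ → Bool}
    (hf : ∀ u : List ℕ, u.length = k + 1 → f u = true → GdO m D s u) (h : Cov k T lo hi f)
    (hlo : lo * (k + 1) ≤ T + k) (hhi : T - k ≤ hi) {w : List ℕ}
    (hw : w.length = k + 1) (hs : w.sum ≤ T) : GdO m D s w := by
  by_cases h0 : 0 ∈ w
  · exact GdO.of_zero h0
  obtain ⟨u, hu⟩ : ∃ u, u = w.insertionSort (fun a b => b ≤ a) := ⟨_, rfl⟩
  have hp : u.Perm w := by rw [hu]; exact List.perm_insertionSort _ w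
  have hsort : u.Pairwise (fun a b => b ≤ a) := by
    rw [hu]
    exact List.pairwise_insertionSort (r := fun a b : ℕ => b ≤ a) w
  have hul : u.length = k + 1 := by rw [hp.length_eq, hw]
  have hus : u.sum ≤ T := by rw [hp.sum_eq]; exact hs
  have hu0 : 0 ∉ u := fun h => h0 (hp.mem_iff.1 h)
  refine GdO.perm hp ?_
  match u, hul with
  | a :: l, hul =>
    have hl : l.length = k := by simpa using hul
    rw [List.sum_cons] at hus
    rw [List.pairwise_cons] at hsort
    have hl1 : ∀ y ∈ l, 1 ≤ y := by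
      intro y hy
      have : y ≠ 0 := fun h => hu0 (by rw [h] at hy; exact List.mem_cons_of_mem _ hy)
      omega
    have f8 : l.sum ≤ k * a := by
      rw [← hl]
      exact sum_le_mul hsort.1
    have f9 : k ≤ l.sum := by
      rw [← hl]
      exact len_le_sum hl1
    obtain ⟨u', q1, q2⟩ := h (T - l.sum) l hl (by omega) hl1
      (fun y hy => (hsort.1 y hy).trans (by omega)) hsort.2 (by
        by_contra hcon
        have h5 : (T - l.sum + 1) * (k + 1) ≤ lo * (k + 1) := Nat.mul_le_mul_right _ (by omega)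
        have h6 : (T - l.sum + 1) * (k + 1) = k * (T - l.sum) + (T - l.sum) + k + 1 := by ring
        have h7 : k * a ≤ k * (T - l.sum) := Nat.mul_le_mul_left _ (by omega)
        omega) (by omega)
    have q3 : u'.length = k + 1 := by rw [← q1.length_eq, List.length_cons, hl]
    refine (hf u' q3 q2).mono le_rfl le_rfl (forall₂_le_trans ?_ q1)
    exact .cons (by omega) (forall₂_le_refl l)

/-- **All vectors of one state.** -/
theorem stateO_all {m K D T lo hi : ℕ} (hN : K + 1 + D ≤ m + 1) {c : List (List ℕ)}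
    (hc : CapO m c) {tab : List EntO} (htab : tabOC c (K + 1) D tab = true)
    {G : List (ℕ × List (ℕ × ℕ))} {sn full : ℕ}
    (hG : Adv.groups (K + 1 + D) (K + 1 + D) = G) (hsn : Adv.sen (K + 1 + D) = sn)
    (hfull : Adv.fullN (K + 1 + D) = full) (h : Cov K T lo hi (chkO G sn full tab))
    (hlo : lo * (K + 1) ≤ T + K) (hhi : T - K ≤ hi) (s : ℕ) (w : List ℕ)
    (hw : w.length = K + 1) (hs : w.sum ≤ T) : GdO (m + 1) D s w := by
  obtain ⟨h1, h2⟩ := tabOC_ok (s := s) hc htab
  refine GdO.of_cov (fun u hu hf => ?_) h hlo hhi hw hs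
  refine stateO_emb (by omega) hN h1 h2 hu ?_
  rw [hG, hsn, hfull]
  exact hf

end Pool.Agent.Work.MP_bf01b2_co.MR
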