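import Pool.Agent.Work.MP_bf01b2_co.MR.Kn3
import Pool.Agent.Work.MP_bf01b2_co.MR.TabsO

/-!
# Known positions: the kernel functions for one cut and for plans of hops, `Q_6`
-/

set_option autoImplicit false

namespace Pool.Agent.Work.MP_bf01b2_co.MR

namespace Kn

open Adv (nd rr fB nd_iff rr_iff fB_eq)

/-- `if b then x else y` -/
@[reducible] def bI (b : Bool) (x y : ℕ) : ℕ := Bool.rec (motive := fun _ => ℕ) y x b

theorem bI_true (x y : ℕ) : bI true x y = x := rfl
theorem bI_false (x y : ℕ) : bI false x y = y := rfl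

/-! ### Adjacency -/

/-- adjacency of codes -/
noncomputable def adjC (a b : ℕ) : Bool :=
  fB (Nat.xor a b) fun x => rr (Nat.beq x 1) (rr (Nat.beq x 2) (rr (Nat.beq x 4)
    (rr (Nat.beq x 8) (Nat.beq x 16))))

theorem adjC_iff {a b : ℕ} : adjC a b = true ↔ a ^^^ b = 1 ∨ a ^^^ b = 2 ∨ a ^^^ b = 4 ∨
    a ^^^ b = 8 ∨ a ^^^ b = 16 := by
  unfold adjC
  simp only [fB_eq, rr_iff, Nat.beq_eq]
  rfl

theorem adjC_comm (a b : ℕ) : adjC a b = adjC b a := by
  unfold adjC
  have : Nat.xor a b = Nat.xor b a := Nat.xor_comm a b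
  rw [this]

theorem adj_dec : ∀ p q : Fin 5 → Bool, hammingDist p q = 1 → (encV p ^^^ encV q = 1 ∨
    encV p ^^^ encV q = 2 ∨ encV p ^^^ encV q = 4 ∨ encV p ^^^ encV q = 8 ∨
    encV p ^^^ encV q = 16) := by
  decide +kernel

theorem adjC_of {p q : Fin 5 → Bool} (h : cadj 5 p q) : adjC (encV p) (encV q) = true :=
  adjC_iff.2 (adj_dec p q h)

theorem anti_dec : ∀ p q : Fin 5 → Bool, (∀ i, p i ≠ q i) → encV p ^^^ encV q = 31 := by
  decide +kernel

/-! ### The exceptions of five roots -/

/-- the exceptions of five roots -/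
def Bd5 (ms : List ((Fin 5 → Bool) × ℕ)) : Prop :=
  (∃ a ∈ ms, 3 ≤ a.2 ∧ ∃ Z : Finset (Fin 5 → Bool), Z.card = 4 ∧
    ∀ z ∈ Z, cadj 5 a.1 z ∧ ∃ s, (z, s) ∈ ms) ∨
  (∃ a ∈ ms, 7 ≤ a.2 ∧ ∃ Z : Finset (Fin 5 → Bool), Z.card = 3 ∧
    ∀ z ∈ Z, cadj 5 a.1 z ∧ ∃ s, 3 ≤ s ∧ (z, s) ∈ ms)

/-- size at the code `c` -/
noncomputable def szAt (c d : ℕ) : List KE → ℕ :=
  List.rec (motive := fun _ => ℕ) d (fun e _ ih => bI (Nat.beq e.1 c) e.2.1 ih)

/-- number of the entries which are not at `c` and not adjacent to `c` -/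
noncomputable def cnN (c : ℕ) : List KE → ℕ :=
  List.rec (motive := fun _ => ℕ) 0
    (fun e _ ih => bI (rr (Nat.beq e.1 c) (adjC e.1 c)) ih (Nat.succ ih))

/-- number of the entries which are not at `c`, and not adjacent to `c` or smaller than `3` -/
noncomputable def cn3 (c : ℕ) : List KE → ℕ :=
  List.rec (motive := fun _ => ℕ) 0
    (fun e _ ih => bI (rr (Nat.beq e.1 c) (nd (adjC e.1 c) (Nat.ble 3 e.2.1))) ih (Nat.succ ih))

/-- no exceptional forest with the entries `L` and `u` unknown roots -/
noncomputable def nobd (L : List KE) (u : ℕ) : Bool :=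
  allF (fun c => fB (szAt c (bI (Nat.beq u 0) 0 99) L) fun z =>
    nd (rr (Nat.ble z 2) (Nat.ble 1 (cnN c L))) (rr (Nat.ble z 6) (Nat.ble 2 (cn3 c L)))) 0 32

theorem szAt_not {c d : ℕ} : ∀ {L : List KE}, (∀ e ∈ L, e.1 ≠ c) → szAt c d L = d
  | [], _ => rfl
  | e :: L, h => by
    have e1 : szAt c d (e :: L) = bI (Nat.beq e.1 c) e.2.1 (szAt c d L) := rfl
    have h1 : Nat.beq e.1 c = false := by
      rw [← Bool.not_eq_true, Nat.beq_eq]
      exact h e List.mem_cons_self
    rw [e1, h1, bI_false]
    exact szAt_not fun e he => h e (List.mem_cons_of_mem _ he)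

theorem szAt_mem {d : ℕ} : ∀ {L : List KE}, (L.map Prod.fst).Nodup → ∀ e ∈ L,
    szAt e.1 d L = e.2.1
  | [], _, _, h => absurd h List.not_mem_nil
  | a :: L, hnd, e, h => by
    have e1 : szAt e.1 d (a :: L) = bI (Nat.beq a.1 e.1) a.2.1 (szAt e.1 d L) := rfl
    rw [List.map_cons, List.nodup_cons] at hnd
    rcases List.mem_cons.1 h with rfl | h
    · have h1 : Nat.beq e.1 e.1 = true := by rw [Nat.beq_eq]
      rw [e1, h1, bI_true]
    · have h1 : Nat.beq a.1 e.1 = false := by
        rw [← Bool.not_eq_true, Nat.beq_eq]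
        intro h2
        apply hnd.1
        rw [h2]
        exact List.mem_map_of_mem h
      rw [e1, h1, bI_false]
      exact szAt_mem hnd.2 e h

theorem cnN_zero {c : ℕ} : ∀ {L : List KE}, (∀ e ∈ L, e.1 = c ∨ adjC e.1 c = true) → cnN c L = 0
  | [], _ => rfl
  | e :: L, h => by
    have e1 : cnN c (e :: L) = bI (rr (Nat.beq e.1 c) (adjC e.1 c)) (cnN c L)
      (Nat.succ (cnN c L)) := rfl
    have h1 : rr (Nat.beq e.1 c) (adjC e.1 c) = true := by
      rw [rr_iff, Nat.beq_eq]
      exact h e List.mem_cons_self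
    rw [e1, h1, bI_true]
    exact cnN_zero fun e he => h e (List.mem_cons_of_mem _ he)

theorem cn3_eq (c : ℕ) : ∀ L : List KE, cn3 c L =
    (L.filter fun e => !(rr (Nat.beq e.1 c) (nd (adjC e.1 c) (Nat.ble 3 e.2.1)))).length
  | [] => rfl
  | e :: L => by
    have e1 : cn3 c (e :: L) = bI (rr (Nat.beq e.1 c) (nd (adjC e.1 c) (Nat.ble 3 e.2.1)))
      (cn3 c L) (Nat.succ (cn3 c L)) := rfl
    rw [e1, cn3_eq c L, List.filter_cons]
    cases rr (Nat.beq e.1 c) (nd (adjC e.1 c) (Nat.ble 3 e.2.1))
    · rw [bI_false]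
      simp
    · rw [bI_true]
      simp

theorem cadj_irrefl {m : ℕ} (x : Fin m → Bool) : ¬ cadj m x x := by
  unfold cadj
  rw [hammingDist_self]
  omega

theorem zip_pos {ps qs : List (Fin 5 → Bool)} {us w : List ℕ} (h1 : ps.length = us.length)
    (h2 : qs.length = w.length) :
    ((ps ++ qs).zip (us ++ w)).map Prod.fst = ps ++ qs ∧
    ((ps ++ qs).zip (us ++ w)).map Prod.snd = us ++ w := by
  constructor
  · rw [List.map_fst_zip]
    rw [List.length_append, List.length_append]
    omega
  · rw [List.map_snd_zip]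
    rw [List.length_append, List.length_append]
    omega

theorem nobd_ok {L : List KE} {u : ℕ} (h : nobd L u = true) (hlt : ∀ e ∈ L, e.1 < 32)
    {ps : List (Fin 5 → Bool)} {us w : List ℕ} (hps : ps.length = u) (hus : us.length = u)
    (hw : List.Forall₂ (fun a (e : KE) => a ≤ e.2.1) w L) (hlen : u + L.length = 5)
    (hnd : (ps ++ L.map fun e => decV 5 e.1).Nodup) :
    ¬ Bd5 ((ps ++ L.map fun e => decV 5 e.1).zip (us ++ w)) := by
  classical
  obtain ⟨ms, hms⟩ : ∃ ms, ms = (ps ++ L.map fun e => decV 5 e.1).zip (us ++ w) := ⟨_, rfl⟩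
  obtain ⟨z1, z2⟩ := zip_pos (ps := ps) (qs := L.map fun e => decV 5 e.1) (us := us) (w := w)
    (by rw [hps, hus]) (by rw [List.length_map, hw.length_eq])
  rw [← hms] at z1 z2 ⊢
  have hndm : (ms.map Prod.fst).Nodup := by rw [z1]; exact hnd
  have hml : ms.length = 5 := by
    have := congrArg List.length z1
    rw [List.length_map, List.length_append, List.length_map] at this
    omega
  have hzip : ms = ps.zip us ++ (L.map fun e => decV 5 e.1).zip w := by
    rw [hms, List.zip_append]
    rw [hps, hus]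
  -- elements of the second part
  have hL2 : ∀ a ∈ (L.map fun e => decV 5 e.1).zip w, ∃ e ∈ L, a.1 = decV 5 e.1 ∧ a.2 ≤ e.2.1 := by
    clear hnd h hlt hps hus hlen hms z1 z2 hndm hml hzip
    induction hw with
    | nil => simp
    | @cons x e w L h1 _ ih =>
      intro a ha
      rw [List.map_cons, List.zip_cons_cons] at ha
      rcases List.mem_cons.1 ha with rfl | ha
      · exact ⟨e, List.mem_cons_self, rfl, h1⟩
      · obtain ⟨e', h2, h3⟩ := ih a ha
        exact ⟨e', List.mem_cons_of_mem _ h2, h3⟩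
  have hnd2 := hnd
  rw [List.nodup_append] at hnd2
  obtain ⟨n1, n2, n3⟩ := hnd2
  have hndc : (L.map Prod.fst).Nodup := by
    have h1 : (L.map fun e => decV 5 e.1) = (L.map Prod.fst).map (decV 5) := by
      rw [List.map_map]; rfl
    rw [h1] at n2
    exact n2.of_map _
  have hcode : ∀ e ∈ L, encV (decV 5 e.1) = e.1 := fun e he => enc_dec (hlt e he)
  -- the size at the centre
  have hsz : ∀ a ∈ ms, a.2 ≤ szAt (encV a.1) (bI (Nat.beq u 0) 0 99) L ∨
      99 ≤ szAt (encV a.1) (bI (Nat.beq u 0) 0 99) L := by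
    intro a ha
    rw [hzip] at ha
    rcases List.mem_append.1 ha with ha | ha
    · right
      have ha1 : a.1 ∈ ps := (List.of_mem_zip ha).1
      have hu : u ≠ 0 := by
        intro h0
        rw [h0, List.length_eq_zero_iff] at hps
        rw [hps] at ha1
        exact absurd ha1 List.not_mem_nil
      have hb : Nat.beq u 0 = false := by
        rw [← Bool.not_eq_true, Nat.beq_eq]
        exact hu
      rw [hb, bI_false, szAt_not]
      intro e he hec
      refine n3 a.1 ha1 (decV 5 e.1) (List.mem_map_of_mem he) ?_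
      rw [hec, dec_enc]
    · left
      obtain ⟨e, he, h1, h2⟩ := hL2 a ha
      rw [h1, hcode e he, szAt_mem hndc e he]
      exact h2
  have hposm : ∀ e ∈ L, decV 5 e.1 ∈ (ms.map Prod.fst).toFinset := by
    intro e he
    rw [List.mem_toFinset, z1]
    exact List.mem_append_right _ (List.mem_map_of_mem he)
  have hcard : (ms.map Prod.fst).toFinset.card = 5 := by
    rw [List.toFinset_card_of_nodup hndm, List.length_map, hml]
  rintro (⟨a, ha, ha3, Z, hZ, hZ'⟩ | ⟨a, ha, ha7, Z, hZ, hZ'⟩)
  · have hc : encV a.1 < 32 := encV_lt a.1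
    have h1 := allF_iff _ _ h (encV a.1) (Nat.zero_le _) (by omega)
    rw [fB_eq, nd_iff, rr_iff, rr_iff] at h1
    have h2 : insert a.1 Z = (ms.map Prod.fst).toFinset := by
      apply Finset.eq_of_subset_of_card_le
      · intro x hx
        rw [List.mem_toFinset]
        rcases Finset.mem_insert.1 hx with rfl | hx
        · exact List.mem_map_of_mem ha
        · obtain ⟨_, s, hs⟩ := hZ' x hx
          exact List.mem_map.2 ⟨_, hs, rfl⟩
      · rw [hcard, Finset.card_insert_of_notMem, hZ]
        intro hx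
        exact cadj_irrefl _ (hZ' _ hx).1
    rcases h1.1 with h3 | h3
    · have h4 := Nat.le_of_ble_eq_true h3
      rcases hsz a ha with h5 | h5 <;> omega
    · have h4 := Nat.le_of_ble_eq_true h3
      rw [cnN_zero] at h4
      · omega
      · intro e he
        have h5 := hposm e he
        rw [← h2] at h5
        rcases Finset.mem_insert.1 h5 with h6 | h6
        · left
          rw [← h6, hcode e he]
        · right
          rw [adjC_comm, ← hcode e he]
          exact adjC_of (hZ' _ h6).1
  · have hc : encV a.1 < 32 := encV_lt a.1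
    have h1 := allF_iff _ _ h (encV a.1) (Nat.zero_le _) (by omega)
    rw [fB_eq, nd_iff, rr_iff, rr_iff] at h1
    rcases h1.2 with h3 | h3
    · have h4 := Nat.le_of_ble_eq_true h3
      rcases hsz a ha with h5 | h5 <;> omega
    · have h4 := Nat.le_of_ble_eq_true h3
      rw [cn3_eq] at h4
      have hsub : ((L.filter fun e => !(rr (Nat.beq e.1 (encV a.1)) (nd (adjC e.1 (encV a.1))
          (Nat.ble 3 e.2.1)))).map fun e => decV 5 e.1).toFinset ⊆
          (ms.map Prod.fst).toFinset \ insert a.1 Z := by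
        intro x hx
        rw [List.mem_toFinset] at hx
        obtain ⟨e, he, rfl⟩ := List.mem_map.1 hx
        obtain ⟨he1, he2⟩ := List.mem_filter.1 he
        rw [Bool.not_eq_true', ← Bool.not_eq_true, rr_iff, nd_iff, not_or, not_and,
          Nat.beq_eq] at he2
        rw [Finset.mem_sdiff]
        refine ⟨hposm e he1, fun h5 => ?_⟩
        rcases Finset.mem_insert.1 h5 with h6 | h6
        · apply he2.1
          rw [← h6, hcode e he1]
        · obtain ⟨h7, s, hs, h8⟩ := hZ' _ h6
          refine he2.2 ?_ ?_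
          · rw [adjC_comm, ← hcode e he1]
            exact adjC_of h7
          · -- the size
            rw [hzip] at h8
            rcases List.mem_append.1 h8 with h9 | h9
            · exfalso
              exact n3 _ (List.of_mem_zip h9).1 _ (List.mem_map_of_mem he1) rfl
            · obtain ⟨e', he', h10, h11⟩ := hL2 _ h9
              have h12 : e'.1 = e.1 := by
                have h13 := congrArg encV h10
                simp only at h13
                rw [hcode e he1, hcode e' he'] at h13
                exact h13.symm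
              have h14 : e' = e := List.inj_on_of_nodup_map hndc he' he1 h12
              rw [h14] at h11
              exact Nat.ble_eq_true_of_le (hs.trans h11)
      have h5 := Finset.card_le_card hsub
      rw [List.toFinset_card_of_nodup, List.length_map, Finset.card_sdiff_of_subset,
        hcard, Finset.card_insert_of_notMem, hZ] at h5
      · omega
      · intro hx
        exact cadj_irrefl _ (hZ' _ hx).1
      · intro x hx
        rw [List.mem_toFinset]
        rcases Finset.mem_insert.1 hx with rfl | hx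
        · exact List.mem_map_of_mem ha
        · obtain ⟨_, s, _, hs⟩ := hZ' x hx
          exact List.mem_map.2 ⟨_, hs, rfl⟩
      · exact List.Nodup.sublist (List.Sublist.map _ List.filter_sublist) n2

/-! ### Can exceptional sizes be reached? -/

/-- append -/
noncomputable def appR {α : Type} (l t : List α) : List α :=
  List.rec (motive := fun _ => List α) t (fun a _ ih => a :: ih) l

theorem appR_eq {α : Type} (t : List α) : ∀ l : List α, appR l t = l ++ t
  | [] => rfl
  | a :: l => by
    have e : appR (a :: l) t = a :: appR l t := rfl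
    rw [e, appR_eq t l]
    rfl

/-- one element and the others -/
noncomputable def ex1 {α : Type} (f : α → List α → Bool) : List α → List α → Bool :=
  List.rec (motive := fun _ => List α → Bool) (fun _ => false)
    (fun a t ih pre => rr (f a (appR pre t)) (ih (a :: pre)))

theorem ex1_of {α : Type} {f : α → List α → Bool} {x : α} : ∀ {E pre : List α}, x ∈ E →
    (∀ R', (x :: R').Perm (pre ++ E) → f x R' = true) → ex1 f E pre = true
  | [], _, h, _ => absurd h List.not_mem_nil
  | a :: t, pre, h, hf => by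
    have e : ex1 f (a :: t) pre = rr (f a (appR pre t)) (ex1 f t (a :: pre)) := rfl
    rw [e, rr_iff, appR_eq]
    rcases List.mem_cons.1 h with rfl | h
    · left
      exact hf _ List.perm_middle.symm
    · right
      refine ex1_of h fun R' hR' => hf R' (hR'.trans ?_)
      exact List.perm_middle.symm

theorem ex1_spec {α : Type} {f : α → List α → Bool} : ∀ {E pre : List α}, ex1 f E pre = true →
    ∃ x R, (x :: R).Perm (pre ++ E) ∧ f x R = true
  | [], _, h => by cases h
  | a :: t, pre, h => by
    have e : ex1 f (a :: t) pre = rr (f a (appR pre t)) (ex1 f t (a :: pre)) := rfl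
    rw [e, rr_iff, appR_eq] at h
    rcases h with h | h
    · exact ⟨a, _, List.perm_middle.symm, h⟩
    · obtain ⟨x, R, h1, h2⟩ := ex1_spec h
      exact ⟨x, R, h1.trans List.perm_middle.symm, h2⟩

/-- can the sizes `E` be reached from the entries by `n` changes (other sizes are free)? -/
noncomputable def reachB : List KE → List ℕ → ℕ → Bool :=
  List.rec (motive := fun _ => List ℕ → ℕ → Bool) (fun _ _ => true)
    (fun e _ ih E n => ex1 (fun x R => nd (Nat.ble x e.2.1)
      (rr (nd (Nat.beq x e.2.1) (ih R n)) (nd (Nat.ble 1 n) (fB (Nat.sub n 1) fun n' => ih R n')))) E [])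

theorem reach_of : ∀ {L : List KE} {w E R : List ℕ} {n : ℕ},
    List.Forall₂ (fun a (e : KE) => a ≤ e.2.1) w L → (w ++ R).Perm E → chg w L ≤ n →
    reachB L E n = true
  | [], _, _, _, _, _, _, _ => rfl
  | e :: L, _, E, R, n, .cons (a := a) (l₁ := w) h1 h2, hp, hc => by
    have e1 : reachB (e :: L) E n = ex1 (fun x R => nd (Nat.ble x e.2.1)
      (rr (nd (Nat.beq x e.2.1) (reachB L R n)) (nd (Nat.ble 1 n)
        (fB (Nat.sub n 1) fun n' => reachB L R n')))) E [] := rfl
    rw [e1]
    have ha : a ∈ E := hp.mem_iff.1 (List.mem_append_left _ List.mem_cons_self)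
    refine ex1_of ha fun R' hR' => ?_
    rw [List.nil_append] at hR'
    have h3 : (w ++ R).Perm R' := by
      have h4 : (a :: (w ++ R)).Perm (a :: R') := by
        rw [← List.cons_append]
        exact hp.trans hR'.symm
      exact h4.cons_inv
    have e2 : chg (a :: w) (e :: L) = (if a = e.2.1 then 0 else 1) + chg w L := rfl
    rw [e2] at hc
    simp only [nd_iff, rr_iff, fB_eq]
    refine ⟨Nat.ble_eq_true_of_le h1, ?_⟩
    by_cases h5 : a = e.2.1
    · left
      rw [if_pos h5] at hc
      refine ⟨?_, reach_of h2 h3 (by omega)⟩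
      rw [Nat.beq_eq]
      exact h5
    · right
      rw [if_neg h5] at hc
      refine ⟨Nat.ble_eq_true_of_le (by omega), reach_of h2 h3 ?_⟩
      show chg w L ≤ n - 1
      omega

/-- some sizes of the list can be reached -/
noncomputable def anyE (L : List KE) (n : ℕ) : List (List ℕ) → Bool :=
  List.rec (motive := fun _ => Bool) false (fun E _ ih => rr (reachB L E n) ih)

theorem anyE_of {L : List KE} {n : ℕ} {E : List ℕ} (h : reachB L E n = true) :
    ∀ {Es : List (List ℕ)}, E ∈ Es → anyE L n Es = true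
  | [], hE => absurd hE List.not_mem_nil
  | E' :: Es, hE => by
    have e : anyE L n (E' :: Es) = rr (reachB L E' n) (anyE L n Es) := rfl
    rw [e, rr_iff]
    rcases List.mem_cons.1 hE with rfl | hE
    · exact Or.inl h
    · exact Or.inr (anyE_of h hE)

/-- some entry -/
noncomputable def anyK (f : KE → Bool) (L : List KE) : Bool :=
  List.rec (motive := fun _ => Bool) false (fun e _ ih => rr (f e) ih) L

theorem anyK_of {f : KE → Bool} {e : KE} (h : f e = true) : ∀ {L : List KE}, e ∈ L →
    anyK f L = true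
  | [], he => absurd he List.not_mem_nil
  | a :: L, he => by
    have e1 : anyK f (a :: L) = rr (f a) (anyK f L) := rfl
    rw [e1, rr_iff]
    rcases List.mem_cons.1 he with rfl | he
    · exact Or.inl h
    · exact Or.inr (anyK_of h he)

/-- all entries -/
noncomputable def allK (f : KE → Bool) (L : List KE) : Bool :=
  List.rec (motive := fun _ => Bool) true (fun e _ ih => nd (f e) ih) L

theorem allK_of {f : KE → Bool} : ∀ {L : List KE}, (∀ e ∈ L, f e = true) → allK f L = true
  | [], _ => rfl
  | a :: L, h => by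
    have e1 : allK f (a :: L) = nd (f a) (allK f L) := rfl
    rw [e1, nd_iff]
    exact ⟨h a List.mem_cons_self, allK_of fun e he => h e (List.mem_cons_of_mem _ he)⟩

/-- parity of a vertex -/
def par (p : Fin 5 → Bool) : Bool := xor (p 0) (xor (p 1) (xor (p 2) (xor (p 3) (p 4))))

/-- parity of a code -/
noncomputable def parC (c : ℕ) : ℕ := Nat.land (Nat.shiftRight 2523490710 c) 1

theorem parC_dec : ∀ p q : Fin 5 → Bool, par p = par q → parC (encV p) = parC (encV q) := by
  decide +kernel

/-- two adjacent entries -/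
noncomputable def adjP (L : List KE) : Bool := anyK (fun e => anyK (fun e' => adjC e.1 e'.1) L) L

/-- all entries have the same parity -/
noncomputable def parA (L : List KE) : Bool :=
  allK (fun e => allK (fun e' => Nat.beq (parC e.1) (parC e'.1)) L) L

/-- some entry is adjacent to all others -/
noncomputable def cenA (L : List KE) : Bool :=
  anyK (fun e => allK (fun e' => rr (Nat.beq e'.1 e.1) (adjC e.1 e'.1)) L) L

/-- exceptional sizes, two roots -/
def E2 : List (List ℕ) := [[23, 1]]
/-- exceptional sizes, three roots -/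
def E3 : List (List ℕ) := [[9, 7, 7], [12, 7, 4], [15, 4, 4], [15, 7, 1], [19, 3, 1], [21, 1, 1]]
/-- exceptional sizes, four roots, same parity -/
def E4a : List (List ℕ) := [[19, 1, 1, 1], [7, 7, 7, 1], [7, 7, 4, 4]]
/-- exceptional sizes, four roots, stars -/
def E4b : List (List ℕ) := [[9, 7, 3, 3], [13, 3, 3, 3]]

/-- The facts of `Q_5` without specials. -/
structure HFacts : Prop where
  h1 : ∀ ms : List ((Fin 5 → Bool) × ℕ), (ms.map Prod.fst).Nodup → ms.length = 1 →
    (ms.map Prod.snd).sum ≤ 24 → HF (cadj 5) Finset.univ ms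
  h2 : ∀ ms : List ((Fin 5 → Bool) × ℕ), (ms.map Prod.fst).Nodup → ms.length = 2 →
    (ms.map Prod.snd).sum ≤ 24 →
    ¬ ((ms.map Prod.snd).Perm [23, 1] ∧ ∀ a ∈ ms, ∀ b ∈ ms, a ≠ b → ∀ i, a.1 i ≠ b.1 i) →
    HF (cadj 5) Finset.univ ms
  h3 : ∀ ms : List ((Fin 5 → Bool) × ℕ), (ms.map Prod.fst).Nodup → ms.length = 3 →
    (ms.map Prod.snd).sum ≤ 23 →
    ¬ ((∃ E ∈ E3, (ms.map Prod.snd).Perm E) ∧ ∃ a ∈ ms, ∃ b ∈ ms, cadj 5 a.1 b.1) →
    HF (cadj 5) Finset.univ ms
  h4 : ∀ ms : List ((Fin 5 → Bool) × ℕ), (ms.map Prod.fst).Nodup → ms.length = 4 →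
    (ms.map Prod.snd).sum ≤ 22 →
    ¬ ((∃ E ∈ E4a, (ms.map Prod.snd).Perm E) ∧ ∀ a ∈ ms, ∀ b ∈ ms, par a.1 = par b.1) →
    ¬ ((∃ E ∈ E4b, (ms.map Prod.snd).Perm E) ∧ ∃ c ∈ ms, ∀ z ∈ ms, z ≠ c → cadj 5 c.1 z.1) →
    HF (cadj 5) Finset.univ ms
  h5 : ∀ ms : List ((Fin 5 → Bool) × ℕ), (ms.map Prod.fst).Nodup → ms.length = 5 →
    (ms.map Prod.snd).sum ≤ 20 → ¬ Bd5 ms → HF (cadj 5) Finset.univ ms

/-- exclusive or of all codes -/
noncomputable def xorK : List KE → ℕ :=
  List.rec (motive := fun _ => ℕ) 0 (fun e _ ih => Nat.xor e.1 ih)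

/-- the bound for a side without softs: `L` the known roots, `u` unknown roots, `n` cuts -/
noncomputable def capHk (k : ℕ) (L : List KE) (u n : ℕ) : ℕ :=
  bI (Nat.beq k 0) 999 (bI (Nat.beq k 1) 24
    (bI (Nat.beq k 2) (bI (nd (Nat.beq u 0) (Nat.ble (xorK L) 30)) 24 (bI (anyE L n E2) 23 24))
      (bI (Nat.beq k 3) (bI (nd (rr (Nat.ble 1 u) (adjP L)) (anyE L n E3)) 22 23)
        (bI (Nat.beq k 4) (bI (rr (nd (parA L) (anyE L n E4a))
            (nd (rr (Nat.ble 1 u) (cenA L)) (anyE L n E4b))) 21 22)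
          (bI (nd (Nat.beq k 5) (nobd L u)) 20 0)))))

theorem beq_false {a b : ℕ} (h : a ≠ b) : Nat.beq a b = false := by
  rw [← Bool.not_eq_true, Nat.beq_eq]
  exact h

theorem beq_true {a b : ℕ} (h : a = b) : Nat.beq a b = true := by
  rw [Nat.beq_eq]
  exact h

theorem XF.nil {m : ℕ} : XF m [] [] := by
  intro Ts h1 _ _ _
  have : Ts = [] := List.map_eq_nil_iff.1 h1
  subst this
  exact ⟨∅, emb_nil⟩

theorem capHk_ok (F : HFacts) {L : List KE} {k u n : ℕ} (hlt : ∀ e ∈ L, e.1 < 32)
    {ps : List (Fin 5 → Bool)} {us w : List ℕ} (hps : ps.length = u) (hus : us.length = u)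
    (hw : List.Forall₂ (fun a (e : KE) => a ≤ e.2.1) w L) (hc : chg w L ≤ n)
    (hk : k = u + L.length)
    (hnd : (ps ++ L.map fun e => decV 5 e.1).Nodup) (hs : us.sum + w.sum ≤ capHk k L u n) :
    XF 5 (ps ++ L.map fun e => decV 5 e.1) (us ++ w) := by
  obtain ⟨z1, z2⟩ := zip_pos (ps := ps) (qs := L.map fun e => decV 5 e.1) (us := us) (w := w)
    (by rw [hps, hus]) (by rw [List.length_map, hw.length_eq])
  have hlen : ((ps ++ L.map fun e => decV 5 e.1).zip (us ++ w)).length = k := by
    have h := congrArg List.length z1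
    rw [List.length_map, List.length_append, List.length_map, hps] at h
    omega
  have hwl : (us ++ w).length = k := by
    rw [List.length_append, hus, hw.length_eq, hk]
  have hndz : (((ps ++ L.map fun e => decV 5 e.1).zip (us ++ w)).map Prod.fst).Nodup := by
    rw [z1]; exact hnd
  have hsum : (((ps ++ L.map fun e => decV 5 e.1).zip (us ++ w)).map Prod.snd).sum =
      us.sum + w.sum := by rw [z2, List.sum_append]
  have hreach : ∀ E : List ℕ, (((ps ++ L.map fun e => decV 5 e.1).zip (us ++ w)).map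
      Prod.snd).Perm E → reachB L E n = true := by
    intro E hE
    rw [z2] at hE
    exact reach_of hw (List.perm_append_comm.trans hE) hc
  unfold capHk at hs
  by_cases k0 : k = 0
  · have h1 : us ++ w = [] := List.length_eq_zero_iff.1 (by rw [hwl, k0])
    have h2 : (ps ++ L.map fun e => decV 5 e.1) = [] := by
      apply List.length_eq_zero_iff.1
      rw [List.length_append, List.length_map]
      omega
    rw [h1, h2]
    exact XF.nil
  rw [beq_false k0, bI_false] at hs
  by_cases k1 : k = 1
  · rw [beq_true k1, bI_true] at hs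
    exact XF.of_HF (F.h1 _ hndz (hlen.trans k1) (by rw [hsum]; exact hs))
  rw [beq_false k1, bI_false] at hs
  by_cases k2 : k = 2
  · rw [beq_true k2, bI_true] at hs
    cases hb1 : nd (Nat.beq u 0) (Nat.ble (xorK L) 30)
    · rw [hb1, bI_false] at hs
      cases hb : anyE L n E2
      · rw [hb, bI_false] at hs
        refine XF.of_HF (F.h2 _ hndz (hlen.trans k2) (by rw [hsum]; exact hs) ?_)
        rintro ⟨h3, -⟩
        rw [anyE_of (hreach _ h3) (by simp [E2])] at hb
        cases hb
      · rw [hb, bI_true] at hs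
        refine XF.of_HF (F.h2 _ hndz (hlen.trans k2) (by rw [hsum]; omega) ?_)
        rintro ⟨h3, -⟩
        have h4 := h3.sum_eq
        rw [hsum] at h4
        simp only [List.sum_cons, List.sum_nil] at h4
        omega
    · rw [hb1, bI_true] at hs
      rw [nd_iff, Nat.beq_eq] at hb1
      obtain ⟨hu, hx⟩ := hb1
      refine XF.of_HF (F.h2 _ hndz (hlen.trans k2) (by rw [hsum]; exact hs) ?_)
      rintro ⟨-, h3⟩
      have h4 := Nat.le_of_ble_eq_true hx
      have hL : L.length = 2 := by omega
      have hps0 : ps = [] := List.length_eq_zero_iff.1 (by omega)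
      have hus0 : us = [] := List.length_eq_zero_iff.1 (by omega)
      obtain ⟨e1, e2, rfl⟩ := List.length_eq_two.1 hL
      obtain ⟨a1, a2, rfl⟩ := List.length_eq_two.1 (hw.length_eq.trans hL)
      · subst hps0 hus0
        have h5 := h3 (decV 5 e1.1, a1) (by simp) (decV 5 e2.1, a2) (by simp) (by
          intro h6
          simp only [List.nil_append, List.map_cons, List.map_nil, List.nodup_cons,
            List.mem_singleton] at hnd
          exact hnd.1 (congrArg Prod.fst h6))
        have h6 := anti_dec _ _ h5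
        have c1 := hlt e1 (by simp)
        have c2 := hlt e2 (by simp)
        simp only at h6
        rw [enc_dec c1, enc_dec c2] at h6
        have h7 : xorK [e1, e2] = e1.1 ^^^ (e2.1 ^^^ 0) := rfl
        rw [h7, Nat.xor_zero] at h4
        omega
  rw [beq_false k2, bI_false] at hs
  have hndc : (L.map Prod.fst).Nodup := by
    have h1 : (L.map fun e => decV 5 e.1) = (L.map Prod.fst).map (decV 5) := by
      rw [List.map_map]; rfl
    rw [List.nodup_append] at hnd
    have h2 := hnd.2.1
    rw [h1] at h2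
    exact h2.of_map _
  have hzip : (ps ++ L.map fun e => decV 5 e.1).zip (us ++ w) =
      ps.zip us ++ (L.map fun e => decV 5 e.1).zip w := by
    rw [List.zip_append]
    rw [hps, hus]
  have hz0 : u = 0 → ps.zip us = [] := by
    intro h0
    rw [List.length_eq_zero_iff.1 (hps.trans h0), List.zip_nil_left]
  -- positions of the second part
  have hL2 : ∀ a ∈ (L.map fun e => decV 5 e.1).zip w, ∃ e ∈ L, encV a.1 = e.1 := by
    intro a ha
    obtain ⟨e, he, h1⟩ := List.mem_map.1 (List.of_mem_zip ha).1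
    exact ⟨e, he, by rw [← h1, enc_dec (hlt e he)]⟩
  have hL3 : ∀ e ∈ L, ∃ a ∈ (ps ++ L.map fun e => decV 5 e.1).zip (us ++ w),
      encV a.1 = e.1 := by
    intro e he
    have h1 : decV 5 e.1 ∈ ((ps ++ L.map fun e => decV 5 e.1).zip (us ++ w)).map Prod.fst := by
      rw [z1]
      exact List.mem_append_right _ (List.mem_map_of_mem he)
    obtain ⟨a, ha, h2⟩ := List.mem_map.1 h1
    exact ⟨a, ha, by rw [h2, enc_dec (hlt e he)]⟩
  by_cases k3 : k = 3
  · rw [beq_true k3, bI_true] at hs
    cases hb : nd (rr (Nat.ble 1 u) (adjP L)) (anyE L n E3)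
    · rw [hb, bI_false] at hs
      refine XF.of_HF (F.h3 _ hndz (hlen.trans k3) (by rw [hsum]; exact hs) ?_)
      rintro ⟨⟨E, hE, h3⟩, a, ha, b, hb1, hab⟩
      rw [← Bool.not_eq_true, nd_iff, not_and] at hb
      refine hb ?_ (anyE_of (hreach _ h3) hE)
      rw [rr_iff]
      by_cases hu : u = 0
      · right
        rw [hzip, hz0 hu, List.nil_append] at ha hb1
        obtain ⟨e, he, h4⟩ := hL2 a ha
        obtain ⟨e', he', h5⟩ := hL2 b hb1
        refine anyK_of (e := e) ?_ he
        refine anyK_of (e := e') ?_ he'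
        rw [← h4, ← h5]
        exact adjC_of hab
      · left
        exact Nat.ble_eq_true_of_le (by omega)
    · rw [hb, bI_true] at hs
      refine XF.of_HF (F.h3 _ hndz (hlen.trans k3) (by rw [hsum]; omega) ?_)
      rintro ⟨⟨E, hE, h3⟩, -⟩
      have h4 := h3.sum_eq
      rw [hsum] at h4
      have h5 : ∀ E ∈ E3, E.sum = 23 := by decide
      rw [h5 E hE] at h4
      omega
  rw [beq_false k3, bI_false] at hs
  by_cases k4 : k = 4
  · rw [beq_true k4, bI_true] at hs
    cases hb : rr (nd (parA L) (anyE L n E4a)) (nd (rr (Nat.ble 1 u) (cenA L)) (anyE L n E4b))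
    · rw [hb, bI_false] at hs
      rw [← Bool.not_eq_true, rr_iff, not_or, nd_iff, nd_iff, not_and, not_and] at hb
      refine XF.of_HF (F.h4 _ hndz (hlen.trans k4) (by rw [hsum]; exact hs) ?_ ?_)
      · rintro ⟨⟨E, hE, h3⟩, hpar⟩
        refine hb.1 ?_ (anyE_of (hreach _ h3) hE)
        refine allK_of fun e he => allK_of fun e' he' => ?_
        rw [Nat.beq_eq]
        obtain ⟨a, ha, h4⟩ := hL3 e he
        obtain ⟨b, hb', h5⟩ := hL3 e' he'
        rw [← h4, ← h5]
        exact parC_dec _ _ (hpar a ha b hb')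
      · rintro ⟨⟨E, hE, h3⟩, a, ha, hcen⟩
        refine hb.2 ?_ (anyE_of (hreach _ h3) hE)
        rw [rr_iff]
        by_cases hu : u = 0
        · right
          have ha' := ha
          rw [hzip, hz0 hu, List.nil_append] at ha'
          obtain ⟨e, he, h4⟩ := hL2 a ha'
          refine anyK_of (e := e) ?_ he
          refine allK_of fun e' he' => ?_
          rw [rr_iff, Nat.beq_eq]
          obtain ⟨b, hb', h5⟩ := hL3 e' he'
          by_cases hba : b = a
          · left
            rw [← h5, hba, h4]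
          · right
            rw [← h4, ← h5]
            exact adjC_of (hcen b hb' hba)
        · left
          exact Nat.ble_eq_true_of_le (by omega)
    · rw [hb, bI_true] at hs
      have h5 : ∀ E ∈ E4a ++ E4b, E.sum = 22 := by decide
      refine XF.of_HF (F.h4 _ hndz (hlen.trans k4) (by rw [hsum]; omega) ?_ ?_)
      · rintro ⟨⟨E, hE, h3⟩, -⟩
        have h4 := h3.sum_eq
        rw [hsum, h5 E (List.mem_append_left _ hE)] at h4
        omega
      · rintro ⟨⟨E, hE, h3⟩, -⟩
        have h4 := h3.sum_eq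
        rw [hsum, h5 E (List.mem_append_right _ hE)] at h4
        omega
  rw [beq_false k4, bI_false] at hs
  cases hb : nd (Nat.beq k 5) (nobd L u)
  · rw [hb, bI_false] at hs
    refine XF.zero (zero_mem_of_sum ?_)
    rw [List.sum_append, hwl]
    omega
  · rw [hb, bI_true] at hs
    rw [nd_iff, Nat.beq_eq] at hb
    refine XF.of_HF (F.h5 _ hndz (hlen.trans hb.1) (by rw [hsum]; exact hs) ?_)
    exact nobd_ok hb.2 hlt hps hus hw (by omega) hnd

end Kn

end Pool.Agent.Work.MP_bf01b2_co.MR
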