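import Pool.Agent.Work.MP_bf01b2_co.MR.Kn4

/-!
# Known positions: one cut, plans of hops
-/

set_option autoImplicit false

namespace Pool.Agent.Work.MP_bf01b2_co.MR

namespace Kn

open Adv (nd rr fB nd_iff rr_iff fB_eq)

/-! ### Rows -/

/-- the row of bounds (fuel, number of pieces, running minima) -/
def rowG (cX cY : ℕ → ℕ) (kX kY : ℕ) : ℕ → ℕ → ℕ → ℕ → List (ℕ × ℕ)
  | 0, _, _, _ => []
  | f + 1, n, mx, my =>
    if min mx (cX n) < kX ∨ min my (cY n) < n + kY then []
    else (min mx (cX n), min my (cY n)) :: rowG cX cY kX kY f (n + 1) (min mx (cX n))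
      (min my (cY n))

theorem rowG_spec {cX cY : ℕ → ℕ} {kX kY : ℕ} : ∀ {f n mx my : ℕ},
    (∀ i, ((rowG cX cY kX kY f n mx my).getD (i + 1) (0, 0)).1 ≤
      ((rowG cX cY kX kY f n mx my).getD i (0, 0)).1) ∧
    (∀ i, ((rowG cX cY kX kY f n mx my).getD (i + 1) (0, 0)).2 ≤
      ((rowG cX cY kX kY f n mx my).getD i (0, 0)).2) ∧
    (∀ i < (rowG cX cY kX kY f n mx my).length,
      ((rowG cX cY kX kY f n mx my).getD i (0, 0)).1 ≤ cX (n + i) ∧
      ((rowG cX cY kX kY f n mx my).getD i (0, 0)).2 ≤ cY (n + i)) ∧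
    ((rowG cX cY kX kY f n mx my).getD 0 (0, 0)).1 ≤ mx ∧
    ((rowG cX cY kX kY f n mx my).getD 0 (0, 0)).2 ≤ my
  | 0, n, mx, my => by
    unfold rowG
    refine ⟨fun i => by simp, fun i => by simp, fun i hi => ?_, by simp, by simp⟩
    simp at hi
  | f + 1, n, mx, my => by
    unfold rowG
    split_ifs with h
    · refine ⟨fun i => by simp, fun i => by simp, fun i hi => ?_, by simp, by simp⟩
      simp at hi
    · obtain ⟨h1, h2, h3, h4, h5⟩ := rowG_spec (cX := cX) (cY := cY) (kX := kX) (kY := kY)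
        (f := f) (n := n + 1) (mx := min mx (cX n)) (my := min my (cY n))
      refine ⟨?_, ?_, ?_, ?_, ?_⟩
      · intro i
        cases i with
        | zero =>
          rw [List.getD_cons_succ, List.getD_cons_zero]
          exact h4
        | succ i =>
          rw [List.getD_cons_succ, List.getD_cons_succ]
          exact h1 i
      · intro i
        cases i with
        | zero =>
          rw [List.getD_cons_succ, List.getD_cons_zero]
          exact h5
        | succ i =>
          rw [List.getD_cons_succ, List.getD_cons_succ]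
          exact h2 i
      · intro i hi
        cases i with
        | zero =>
          rw [List.getD_cons_zero]
          exact ⟨min_le_right _ _, min_le_right _ _⟩
        | succ i =>
          rw [List.getD_cons_succ]
          have h6 := h3 i (by simpa using hi)
          rw [show n + 1 + i = n + (i + 1) by omega] at h6
          exact h6
      · rw [List.getD_cons_zero]
        exact min_le_left _ _
      · rw [List.getD_cons_zero]
        exact min_le_left _ _

/-- the row of bounds, kernel version -/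
noncomputable def rowKr (cX cY : ℕ → ℕ) (kX kY : ℕ) :
    ℕ → ℕ → ℕ → ℕ → (List (ℕ × ℕ) → Bool) → Bool :=
  Nat.rec (motive := fun _ => ℕ → ℕ → ℕ → (List (ℕ × ℕ) → Bool) → Bool)
    (fun _ _ _ K => K [])
    (fun _ ih n mx my K => fB (cX n) fun x0 => fB (bI (Nat.ble mx x0) mx x0) fun x =>
      fB (cY n) fun y0 => fB (bI (Nat.ble my y0) my y0) fun y =>
        Bool.rec (motive := fun _ => Bool)
          (fB (Nat.succ n) fun n' => ih n' x y fun R => K ((x, y) :: R)) (K [])
          (rr (Nat.ble (Nat.succ x) kX) (Nat.ble (Nat.succ y) (Nat.add n kY))))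

theorem bI_min (a b : ℕ) : bI (Nat.ble a b) a b = min a b := by
  cases h : Nat.ble a b
  · have : ¬ a ≤ b := fun h1 => by rw [Nat.ble_eq_true_of_le h1] at h; cases h
    rw [bI_false]
    omega
  · have := Nat.le_of_ble_eq_true h
    rw [bI_true]
    omega

theorem rowKr_eq (cX cY : ℕ → ℕ) (kX kY : ℕ) : ∀ (f n mx my : ℕ) (K : List (ℕ × ℕ) → Bool),
    rowKr cX cY kX kY f n mx my K = K (rowG cX cY kX kY f n mx my)
  | 0, _, _, _, _ => rfl
  | f + 1, n, mx, my, K => by
    have e : rowKr cX cY kX kY (f + 1) n mx my K = fB (cX n) fun x0 =>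
      fB (bI (Nat.ble mx x0) mx x0) fun x =>
      fB (cY n) fun y0 => fB (bI (Nat.ble my y0) my y0) fun y =>
        Bool.rec (motive := fun _ => Bool)
          (fB (Nat.succ n) fun n' => rowKr cX cY kX kY f n' x y fun R => K ((x, y) :: R)) (K [])
          (rr (Nat.ble (Nat.succ x) kX) (Nat.ble (Nat.succ y) (Nat.add n kY))) := rfl
    rw [e]
    simp only [fB_eq, bI_min]
    unfold rowG
    cases hb : rr (Nat.ble (Nat.succ (min mx (cX n))) kX)
      (Nat.ble (Nat.succ (min my (cY n))) (Nat.add n kY))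
    · rw [← Bool.not_eq_true, rr_iff, not_or] at hb
      rw [if_neg, rowKr_eq cX cY kX kY f]
      rintro (h | h)
      · exact hb.1 (Nat.ble_eq_true_of_le h)
      · exact hb.2 (Nat.ble_eq_true_of_le h)
    · rw [rr_iff] at hb
      rw [if_pos]
      rcases hb with h | h
      · exact Or.inl (Nat.le_of_ble_eq_true h)
      · exact Or.inr (Nat.le_of_ble_eq_true h)

/-- the row is correct -/
theorem rowG_ok {m : ℕ} {EX EY : List KE} {ν : ℕ} {cX cY : ℕ → ℕ} {kX kY f mx my : ℕ}
    (hne : rowG cX cY kX kY f 0 mx my ≠ [])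
    (hX : ∀ (n : ℕ) (w : List ℕ), List.Forall₂ (fun a (e : KE) => a ≤ e.2.1) w EX →
      chg w EX ≤ n → (EX.map fun e => decV m e.1).Nodup → w.sum ≤ cX n →
      ((n = 0 ∨ ν = 0) → XF m (EX.map fun e => decV m e.1) w) ∧
      (n ≠ 0 → ν ≠ 0 → GdO m ν n w))
    (hY : ∀ (n : ℕ) (ps : List (Fin m → Bool)) (us : List ℕ), ps.length = n → us.length = n →
      (ps ++ EY.map fun e => decV m e.1).Nodup →
      us.sum + (EY.map fun e => e.2.1).sum ≤ cY n →
      XF m (ps ++ EY.map fun e => decV m e.1) (us ++ EY.map fun e => e.2.1)) :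
    RowK m EX EY ν (rowG cX cY kX kY f 0 mx my) := by
  obtain ⟨h1, h2, h3, -, -⟩ := rowG_spec (cX := cX) (cY := cY) (kX := kX) (kY := kY)
    (f := f) (n := 0) (mx := mx) (my := my)
  refine ⟨hne, h1, h2, fun n hn => ⟨fun w hw hc hnd hs => ?_, fun ps us hps hus hnd hs => ?_⟩⟩
  · have h4 := (h3 n hn).1
    rw [Nat.zero_add] at h4
    exact hX n w hw hc hnd (hs.trans h4)
  · have h4 := (h3 n hn).2
    rw [Nat.zero_add] at h4
    exact hY n ps us hps hus hnd (hs.trans h4)

/-! ### Small functions -/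

/-- the code does not occur -/
noncomputable def notIn (c : ℕ) : List KE → Bool :=
  List.rec (motive := fun _ => Bool) true
    (fun e _ ih => Bool.rec (motive := fun _ => Bool) ih false (Nat.beq e.1 c))

theorem notIn_iff {c : ℕ} : ∀ {L : List KE}, notIn c L = true ↔ c ∉ L.map Prod.fst
  | [] => by
    have e : notIn c [] = true := rfl
    simp [e]
  | e :: L => by
    have e1 : notIn c (e :: L) = Bool.rec (motive := fun _ => Bool) (notIn c L) false
      (Nat.beq e.1 c) := rfl
    rw [e1, List.map_cons, List.mem_cons, not_or, ← notIn_iff (L := L)]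
    by_cases h : e.1 = c
    · rw [beq_true h]
      simp [h]
    · rw [beq_false h]
      constructor
      · intro h1
        exact ⟨fun h2 => h h2.symm, h1⟩
      · intro h1
        exact h1.2

/-- free roots have no partner -/
noncomputable def flk (EY : List KE) : List KE → Bool :=
  List.rec (motive := fun _ => Bool) true
    (fun e _ ih => nd (rr (Nat.ble 1 e.2.2) (notIn e.1 EY)) ih)

theorem flk_iff {EY : List KE} : ∀ {EX : List KE}, flk EY EX = true →
    ∀ e ∈ EX, e.2.2 = 0 → e.1 ∉ EY.map Prod.fst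
  | [], _, e, he, _ => absurd he List.not_mem_nil
  | a :: EX, h, e, he, h0 => by
    have e1 : flk EY (a :: EX) = nd (rr (Nat.ble 1 a.2.2) (notIn a.1 EY)) (flk EY EX) := rfl
    rw [e1, nd_iff, rr_iff] at h
    rcases List.mem_cons.1 he with rfl | he
    · rcases h.1 with h1 | h1
      · have := Nat.le_of_ble_eq_true h1
        omega
      · exact notIn_iff.1 h1
    · exact flk_iff h.2 e he h0

/-- number of the entries of the second side without partner -/
noncomputable def nuR (EX : List KE) : List KE → ℕ :=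
  List.rec (motive := fun _ => ℕ) 0 (fun e _ ih => bI (notIn e.1 EX) (Nat.succ ih) ih)

theorem nuR_eq (EX : List KE) : ∀ EY : List KE,
    nuR EX EY = EY.countP fun e => decide (e.1 ∉ EX.map Prod.fst)
  | [] => rfl
  | e :: EY => by
    have e1 : nuR EX (e :: EY) = bI (notIn e.1 EX) (Nat.succ (nuR EX EY)) (nuR EX EY) := rfl
    rw [e1, List.countP_cons, ← nuR_eq EX EY]
    by_cases h : e.1 ∈ EX.map Prod.fst
    · have h1 : notIn e.1 EX = false := by
        rw [← Bool.not_eq_true, notIn_iff]
        exact fun h2 => h2 h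
      rw [h1, bI_false, if_neg, Nat.add_zero]
      simp [h]
    · have h1 : notIn e.1 EX = true := notIn_iff.2 h
      rw [h1, bI_true, if_pos]
      simp [h]

/-- sum of the sizes -/
noncomputable def sumK : List KE → ℕ :=
  List.rec (motive := fun _ => ℕ) 0 (fun e _ ih => Nat.add e.2.1 ih)

theorem sumK_eq : ∀ L : List KE, sumK L = (L.map fun e => e.2.1).sum
  | [] => rfl
  | e :: L => by
    have e1 : sumK (e :: L) = e.2.1 + sumK L := rfl
    rw [e1, sumK_eq L, List.map_cons, List.sum_cons]

/-- length -/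
noncomputable def lenK : List KE → ℕ :=
  List.rec (motive := fun _ => ℕ) 0 (fun _ _ ih => Nat.succ ih)

theorem lenK_eq : ∀ L : List KE, lenK L = L.length
  | [] => rfl
  | e :: L => by
    have e1 : lenK (e :: L) = Nat.succ (lenK L) := rfl
    rw [e1, lenK_eq L, List.length_cons]

/-- the active sizes, sorted -/
noncomputable def actK : List KE → List ℕ :=
  List.rec (motive := fun _ => List ℕ) []
    (fun e _ ih => actL.fB' (bI (Nat.beq e.2.2 0) e.2.1
      (bI (Nat.beq e.2.2 1) (Nat.div e.2.1 2) (Nat.sub e.2.1 1))) fun a => insL a ih)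

theorem actK_perm : ∀ L : List KE, (actK L).Perm (L.map actE)
  | [] => List.Perm.refl _
  | e :: L => by
    have e1 : actK (e :: L) = actL.fB' (bI (Nat.beq e.2.2 0) e.2.1
      (bI (Nat.beq e.2.2 1) (Nat.div e.2.1 2) (Nat.sub e.2.1 1))) fun a => insL a (actK L) := rfl
    have e2 : bI (Nat.beq e.2.2 0) e.2.1
      (bI (Nat.beq e.2.2 1) (Nat.div e.2.1 2) (Nat.sub e.2.1 1)) = actE e := by
      unfold actE
      by_cases h0 : e.2.2 = 0
      · rw [beq_true h0, bI_true, if_pos h0]
      · rw [beq_false h0, bI_false, if_neg h0]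
        by_cases h1 : e.2.2 = 1
        · rw [beq_true h1, bI_true, if_pos h1]
          rfl
        · rw [beq_false h1, bI_false, if_neg h1]
          rfl
    rw [e1, fB'_eq, e2, List.map_cons]
    exact (insL_perm _ _).symm.trans ((actK_perm L).cons _)

/-- the entry `(k, D)` of the table of caps -/
noncomputable def nth (c : List ℕ) (D : ℕ) : ℕ :=
  List.rec (motive := fun _ => ℕ → ℕ) (fun _ => 0)
    (fun a _ ih D => Nat.rec (motive := fun _ => ℕ) a (fun D' _ => ih D') D) c D

theorem nth_eq : ∀ (c : List ℕ) (D : ℕ), nth c D = c.getD D 0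
  | [], D => by simp [nth]
  | a :: c, 0 => rfl
  | a :: c, D + 1 => by
    have e : nth (a :: c) (D + 1) = nth c D := rfl
    rw [e, nth_eq c D, List.getD_cons_succ]

/-- the entry `(k, D)` of the table of caps -/
noncomputable def nth2 (c : List (List ℕ)) (k D : ℕ) : ℕ :=
  List.rec (motive := fun _ => ℕ → ℕ) (fun _ => 0)
    (fun a _ ih k => Nat.rec (motive := fun _ => ℕ) (nth a D) (fun k' _ => ih k') k) c k

theorem nth2_eq (D : ℕ) : ∀ (c : List (List ℕ)) (k : ℕ), nth2 c k D = capT c k D
  | [], k => by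
    unfold capT
    simp [nth2]
  | a :: c, 0 => by
    have e : nth2 (a :: c) 0 D = nth a D := rfl
    rw [e, nth_eq]
    rfl
  | a :: c, k + 1 => by
    have e : nth2 (a :: c) (k + 1) D = nth2 c k D := rfl
    rw [e, nth2_eq D c k]
    unfold capT
    rw [List.getD_cons_succ]

/-! ### One cut -/

/-- the game for a row which is computed -/
noncomputable def gmR (cX cY : ℕ → ℕ) (kX kY f sX sY : ℕ) (g : (List (ℕ × ℕ × ℕ) → ℕ → Bool)) :
    Bool :=
  rowKr cX cY kX kY f 0 999 999 fun R => List.rec (motive := fun _ => Bool) false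
    (fun r T _ => nd (Nat.ble sY r.2) (fB (Nat.add sX sY) fun N => fB (Nat.sub N r.1) fun z =>
      g (mkR N T r.2) z)) R

theorem gmR_spec {cX cY : ℕ → ℕ} {kX kY f sX sY : ℕ} {g : List (ℕ × ℕ × ℕ) → ℕ → Bool}
    (h : gmR cX cY kX kY f sX sY g = true) :
    rowG cX cY kX kY f 0 999 999 ≠ [] ∧
    sY ≤ ((rowG cX cY kX kY f 0 999 999).getD 0 (0, 0)).2 ∧
    g (mkW (sX + sY) ((rowG cX cY kX kY f 0 999 999).getD 0 (0, 0)).2
      ((rowG cX cY kX kY f 0 999 999).drop 1))
      (sX + sY - ((rowG cX cY kX kY f 0 999 999).getD 0 (0, 0)).1) = true := by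
  unfold gmR at h
  rw [rowKr_eq] at h
  cases hr : rowG cX cY kX kY f 0 999 999 with
  | nil => rw [hr] at h; cases h
  | cons r T =>
    rw [hr] at h
    have e : (List.rec (motive := fun _ => Bool) false
      (fun r T _ => nd (Nat.ble sY r.2) (fB (Nat.add sX sY) fun N => fB (Nat.sub N r.1) fun z =>
      g (mkR N T r.2) z)) (r :: T) : Bool) = nd (Nat.ble sY r.2) (fB (Nat.add sX sY) fun N =>
        fB (Nat.sub N r.1) fun z => g (mkR N T r.2) z) := rfl
    rw [e, nd_iff, fB_eq, fB_eq, mkR_eq] at h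
    exact ⟨by simp, Nat.le_of_ble_eq_true h.1, h.2⟩

/-- the bound of the first side -/
noncomputable def cXf (c : List (List ℕ)) (EX : List KE) (kX ν n : ℕ) : ℕ :=
  bI (rr (Nat.beq n 0) (Nat.beq ν 0)) (capHk kX EX 0 n) (nth2 c kX ν)

/-- the bound of the second side -/
noncomputable def cYf (EY : List KE) (kY n : ℕ) : ℕ := fN (Nat.add n kY) fun k => capHk k EY n 0
where
  /-- evaluation of the argument before the call -/
  fN (n : ℕ) (f : ℕ → ℕ) : ℕ := Nat.rec (motive := fun _ => ℕ) (f 0) (fun m _ => f (Nat.succ m)) n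

theorem fN_eq (n : ℕ) (f : ℕ → ℕ) : cYf.fN n f = f n := by cases n <;> rfl

/-- one cut, one active subtree for every root -/
noncomputable def fin1 (c : List (List ℕ)) (f : ℕ) (EX EY : List KE) : Bool :=
  nd (flk EY EX) (fB (lenK EX) fun kX => fB (lenK EY) fun kY => fB (nuR EX EY) fun ν =>
    fB (sumK EX) fun sX => fB (sumK EY) fun sY =>
      gmR (cXf c EX kX ν) (cYf EY kY) kX kY f sX sY fun W z => gm W z sY (actK EX))

/-- one cut, two active subtrees for the root `e0`, all roots of the second side are matched -/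
noncomputable def fin2 (c : List (List ℕ)) (f : ℕ) (EY : List KE) (e0 : KE) (EX : List KE) : Bool :=
  nd (flk EY EX) (fB (lenK EX) fun kX' => fB (Nat.succ kX') fun kX => fB (lenK EY) fun kY =>
    nd (Nat.beq (nuR (e0 :: EX) EY) 0)
      (fB (sumK (e0 :: EX)) fun sX => fB (sumK EY) fun sY =>
      gmR (cXf c (e0 :: EX) kX 0) (cYf EY kY) kX kY f sX sY fun W z =>
        fB (Nat.div e0.2.1 2) fun h => allF (fun x => fB (Nat.sub (Nat.sub e0.2.1 1) x) fun d =>
          gm W z sY (insL x (insL d (actK EX)))) h (Nat.sub e0.2.1 h)))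

section
variable {b : Bool} {j : Fin 6} {c : List (List ℕ)}

theorem me_lt {TX : List (LRT (Fin 6 → Bool))} {EX : List KE}
    (h : List.Forall₂ (ME j b) TX EX) : ∀ e ∈ EX, e.1 < 32 := by
  intro e he
  obtain ⟨T, _, hT⟩ := me_mem' h e he
  rw [← hT.2.1]
  exact encV_lt _

theorem row_hX (F : HFacts) (hc : CapO 5 c) {EX : List KE} (hlt : ∀ e ∈ EX, e.1 < 32) {ν : ℕ}
    (n : ℕ) (w : List ℕ) (hw : List.Forall₂ (fun a (e : KE) => a ≤ e.2.1) w EX)
    (hch : chg w EX ≤ n) (hnd : (EX.map fun e => decV 5 e.1).Nodup)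
    (hs : w.sum ≤ cXf c EX EX.length ν n) :
    ((n = 0 ∨ ν = 0) → XF 5 (EX.map fun e => decV 5 e.1) w) ∧
      (n ≠ 0 → ν ≠ 0 → GdO 5 ν n w) := by
  unfold cXf at hs
  constructor
  · intro h
    have h1 : rr (Nat.beq n 0) (Nat.beq ν 0) = true := by
      rw [rr_iff, Nat.beq_eq, Nat.beq_eq]
      exact h
    rw [h1, bI_true] at hs
    have h2 := capHk_ok F hlt (ps := []) (us := []) (u := 0) (n := n) (k := EX.length) rfl rfl hw
      hch (by omega) (by simpa using hnd) (by simpa using hs)
    simpa using h2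
  · intro h1 h2
    have h3 : rr (Nat.beq n 0) (Nat.beq ν 0) = false := by
      rw [← Bool.not_eq_true, rr_iff, Nat.beq_eq, Nat.beq_eq]
      omega
    rw [h3, bI_false, nth2_eq] at hs
    exact hc _ _ _ _ hw.length_eq hs

theorem row_hY (F : HFacts) {EY : List KE} (hlt : ∀ e ∈ EY, e.1 < 32)
    (n : ℕ) (ps : List (Fin 5 → Bool)) (us : List ℕ) (hps : ps.length = n) (hus : us.length = n)
    (hnd : (ps ++ EY.map fun e => decV 5 e.1).Nodup)
    (hs : us.sum + (EY.map fun e => e.2.1).sum ≤ cYf EY EY.length n) :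
    XF 5 (ps ++ EY.map fun e => decV 5 e.1) (us ++ EY.map fun e => e.2.1) := by
  unfold cYf at hs
  rw [fN_eq] at hs
  have hw : List.Forall₂ (fun a (e : KE) => a ≤ e.2.1) (EY.map fun e => e.2.1) EY := by
    rw [List.forall₂_map_left_iff, List.forall₂_same]
    exact fun _ _ => le_rfl
  have hch : ∀ L : List KE, chg (L.map fun e => e.2.1) L = 0 := by
    intro L
    induction L with
    | nil => rfl
    | cons e L ih =>
      have e1 : chg ((e :: L).map fun e => e.2.1) (e :: L) =
        (if e.2.1 = e.2.1 then 0 else 1) + chg (L.map fun e => e.2.1) L := rfl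
      rw [e1, ih, if_pos rfl]
  exact capHk_ok F hlt hps hus hw (hch EY).le rfl hnd hs

theorem fin1_ok (F : HFacts) (hc : CapO 5 c) {f : ℕ} {EX EY : List KE}
    (h : fin1 c f EX EY = true) : KW j b EX EY := by
  unfold fin1 at h
  simp only [nd_iff, fB_eq] at h
  obtain ⟨h1, h2⟩ := h
  obtain ⟨g1, g2, g3⟩ := gmR_spec h2
  intro TA TB hnd hA hB
  refine kn_emb hnd hA hB (flk_iff h1) (row := rowG (cXf c EX (lenK EX) (nuR EX EY))
    (cYf EY (lenK EY)) (lenK EX) (lenK EY) f 0 999 999) ?_ (actK_perm EX) (sumK_eq EX) (sumK_eq EY)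
    g2 g3
  refine rowG_ok g1 ?_ ?_
  · rw [← nuR_eq, lenK_eq]
    exact row_hX F hc (me_lt hA)
  · rw [lenK_eq]
    exact row_hY F (me_lt hB)

theorem fin2_ok (F : HFacts) (hc : CapO 5 c) {f : ℕ} {e0 : KE} {EX EY : List KE}
    (h : fin2 c f EY e0 EX = true) : KW j b (e0 :: EX) EY := by
  unfold fin2 at h
  simp only [nd_iff, fB_eq] at h
  obtain ⟨h1, h0, h2⟩ := h
  rw [Nat.beq_eq, nuR_eq] at h0
  obtain ⟨g1, g2, g3⟩ := gmR_spec h2
  intro TA TB hnd hA hB
  have hA' := hA
  cases hA with
  | @cons T0 _ TX _ hT0 hTX =>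
    refine kn_emb2 hnd hT0 hTX hB (flk_iff h1) (row := rowG (cXf c (e0 :: EX) (Nat.succ (lenK EX)) 0)
      (cYf EY (lenK EY)) (Nat.succ (lenK EX)) (lenK EY) f 0 999 999) h0 ?_ (actK_perm EX)
      (sumK_eq _) (sumK_eq EY) g2 ?_
    · refine rowG_ok g1 ?_ ?_
      · rw [lenK_eq]
        exact row_hX F hc (me_lt hA')
      · rw [lenK_eq]
        exact row_hY F (me_lt hB)
    · intro x hx1 hx2
      have h4 := allF_iff _ _ g3 x hx1 (by
        have e1 : Nat.sub e0.2.1 (Nat.div e0.2.1 2) = e0.2.1 - e0.2.1 / 2 := rfl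
        have e2 : Nat.div e0.2.1 2 = e0.2.1 / 2 := rfl
        rw [e1, e2]
        omega)
      exact h4

end

/-- one cut from the first side, everything is tried -/
noncomputable def finA (c : List (List ℕ)) (EX EY : List KE) : Bool :=
  rr (fin1 c 7 EX EY) (ex1 (fun e0 R => nd (nd (Nat.beq e0.2.2 1) (Nat.ble 3 e0.2.1))
    (fin2 c 7 EY e0 R)) EX [])

/-- one cut, from both sides -/
noncomputable def finB (c : List (List ℕ)) (EA EB : List KE) : Bool :=
  rr (fin1 c 1 EA EB) (rr (finA c EA EB) (finA c EB EA))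

section
variable {b : Bool} {j : Fin 6} {c : List (List ℕ)}

theorem finA_ok (F : HFacts) (hc : CapO 5 c) {EX EY : List KE}
    (h : finA c EX EY = true) : KW j b EX EY := by
  unfold finA at h
  rw [rr_iff] at h
  rcases h with h | h
  · exact fin1_ok F hc h
  · obtain ⟨e0, R, h1, h2⟩ := ex1_spec h
    rw [nd_iff] at h2
    exact KW.perm h1 (fin2_ok F hc h2.2)

theorem finB_ok (F : HFacts) (hc : CapO 5 c) {EA EB : List KE}
    (h : finB c EA EB = true) : KW j b EA EB := by
  unfold finB at h
  rw [rr_iff, rr_iff] at h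
  rcases h with h | h | h
  · exact fin1_ok F hc h
  · exact finA_ok F hc h
  · exact KW.symm (finA_ok F hc h)

end

/-! ### Hops -/

/-- all splittings of the root with the code `c` in the first list; `k` gets the new lists -/
noncomputable def hopK (c : ℕ) (EB : List KE) (k : List KE → List KE → Bool) :
    List KE → List KE → Bool :=
  List.rec (motive := fun _ => List KE → Bool) (fun _ => false)
    (fun e t ih pre => Bool.rec (motive := fun _ => Bool) (ih (appR pre [e]))
      (nd (nd (Nat.beq e.2.2 0) (Nat.ble 2 e.2.1)) (nd (notIn c EB)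
        (fB (Nat.div e.2.1 2) fun h => allF (fun x =>
          rr (fB (Nat.sub e.2.1 x) fun r => k (appR pre ((e.1, r, 2) :: t)) (appR EB [(e.1, x, 1)]))
            (fB (Nat.sub (Nat.sub e.2.1 1) x) fun y => nd (Nat.ble 1 y)
              (fB (Nat.sub e.2.1 y) fun r => k (appR pre ((e.1, r, 2) :: t))
                (appR EB [(e.1, y, 1)])))) h (Nat.sub e.2.1 h))))
      (Nat.beq e.1 c))

theorem hopK_ok {b : Bool} {j : Fin 6} {c : ℕ} {EB : List KE} {k : List KE → List KE → Bool}
    (hk : ∀ A B, k A B = true → KW j b A B) : ∀ {E pre : List KE}, hopK c EB k E pre = true →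
    KW j b (pre ++ E) EB
  | [], _, h => by cases h
  | e :: t, pre, h => by
    have e1 : hopK c EB k (e :: t) pre = Bool.rec (motive := fun _ => Bool)
      (hopK c EB k t (appR pre [e]))
      (nd (nd (Nat.beq e.2.2 0) (Nat.ble 2 e.2.1)) (nd (notIn c EB)
        (fB (Nat.div e.2.1 2) fun h => allF (fun x =>
          rr (fB (Nat.sub e.2.1 x) fun r => k (appR pre ((e.1, r, 2) :: t)) (appR EB [(e.1, x, 1)]))
            (fB (Nat.sub (Nat.sub e.2.1 1) x) fun y => nd (Nat.ble 1 y)
              (fB (Nat.sub e.2.1 y) fun r => k (appR pre ((e.1, r, 2) :: t))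
                (appR EB [(e.1, y, 1)])))) h (Nat.sub e.2.1 h))))
      (Nat.beq e.1 c) := rfl
    rw [e1] at h
    by_cases hec : e.1 = c
    · rw [beq_true hec] at h
      simp only [nd_iff, fB_eq, appR_eq] at h
      obtain ⟨⟨h1, h2⟩, h3, h4⟩ := h
      rw [Nat.beq_eq] at h1
      have h2' := Nat.le_of_ble_eq_true h2
      rw [notIn_iff] at h3
      obtain ⟨c', W, fl⟩ := e
      simp only at hec h1 h2' h4
      subst hec h1
      refine KW.hop h2' h3 fun c1 hc1 hc2 => ?_
      have h5 := allF_iff _ _ h4 c1 hc1 (by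
        have e1 : Nat.sub W (Nat.div W 2) = W - W / 2 := rfl
        have e2 : Nat.div W 2 = W / 2 := rfl
        rw [e1, e2]
        omega)
      rw [rr_iff] at h5
      rcases h5 with h5 | h5
      · exact Or.inl (hk _ _ h5)
      · rw [nd_iff] at h5
        exact Or.inr ⟨Nat.le_of_ble_eq_true h5.1, hk _ _ h5.2⟩
    · rw [beq_false hec] at h
      have h1 : hopK c EB k t (appR pre [e]) = true := h
      rw [appR_eq] at h1
      have h2 := hopK_ok hk h1
      rwa [List.append_assoc] at h2

/-- a plan: roots which may hop -/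
noncomputable def kwP (c : List (List ℕ)) : List (Bool × ℕ) → List KE → List KE → Bool :=
  List.rec (motive := fun _ => List KE → List KE → Bool) (finB c)
    (fun p _ ih A B => rr (ih A B) (Bool.rec (motive := fun _ => Bool)
      (hopK p.2 B ih A []) (hopK p.2 A (fun B' A' => ih A' B') B []) p.1))

theorem kwP_ok {b : Bool} {j : Fin 6} {c : List (List ℕ)} (F : HFacts) (hc : CapO 5 c) :
    ∀ {P : List (Bool × ℕ)} {A B : List KE}, kwP c P A B = true → KW j b A B := by
  intro P
  induction P generalizing b with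
  | nil => exact fun h => finB_ok F hc h
  | cons p P ih =>
    intro A B h
    have e1 : kwP c (p :: P) A B = rr (kwP c P A B) (Bool.rec (motive := fun _ => Bool)
      (hopK p.2 B (kwP c P) A []) (hopK p.2 A (fun B' A' => kwP c P A' B') B []) p.1) := rfl
    rw [e1, rr_iff] at h
    rcases h with h | h
    · exact ih h
    · cases hp : p.1
      · rw [hp] at h
        have h1 : hopK p.2 B (kwP c P) A [] = true := h
        exact hopK_ok (fun A B h => ih h) h1
      · rw [hp] at h
        have h1 : hopK p.2 A (fun B' A' => kwP c P A' B') B [] = true := h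
        refine KW.symm (hopK_ok (fun B' A' h => ?_) h1)
        refine KW.symm ?_
        rw [Bool.not_not]
        exact ih h

end Kn

end Pool.Agent.Work.MP_bf01b2_co.MR
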