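import Pool.Agent.Work.MP_bf01b2_co.MR.Kn5

/-!
# All positions of the roots: columns, exact matched sets, the leaf rule
-/

set_option autoImplicit false

namespace Pool.Agent.Work.MP_bf01b2_co.MR

namespace Kn

open Adv (nd rr fB nd_iff rr_iff fB_eq)

/-! ### Unions -/

/-- union -/
def or1 : List ℕ → ℕ
  | [] => 0
  | s :: l => s ||| or1 l

/-- the elements which occur at least twice -/
def or2 : List ℕ → ℕ
  | [] => 0
  | s :: l => or2 l ||| (or1 l &&& s)

theorem or1_bit {q : ℕ} : ∀ {l : List ℕ}, (or1 l).testBit q = true ↔ ∃ s ∈ l, s.testBit q = true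
  | [] => by simp [or1]
  | s :: l => by
    have e : or1 (s :: l) = s ||| or1 l := rfl
    rw [e, Nat.testBit_or, Bool.or_eq_true, or1_bit (l := l)]
    simp

theorem or2_le {q : ℕ} : ∀ {l : List ℕ}, (or2 l).testBit q = true → (or1 l).testBit q = true
  | [], h => by simp [or2] at h
  | s :: l, h => by
    have e : or2 (s :: l) = or2 l ||| (or1 l &&& s) := rfl
    have e' : or1 (s :: l) = s ||| or1 l := rfl
    rw [e, Nat.testBit_or, Bool.or_eq_true, Nat.testBit_and, Bool.and_eq_true] at h
    rw [e', Nat.testBit_or, Bool.or_eq_true]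
    rcases h with h | h
    · exact Or.inr (or2_le h)
    · exact Or.inr h.1

theorem or2_split {s q : ℕ} (h : s.testBit q = true) {l2 : List ℕ} : ∀ {l1 : List ℕ},
    (or2 (l1 ++ s :: l2)).testBit q = true ↔ ∃ t ∈ l1 ++ l2, t.testBit q = true
  | [] => by
    have e : or2 ([] ++ s :: l2) = or2 l2 ||| (or1 l2 &&& s) := rfl
    rw [e, Nat.testBit_or, Bool.or_eq_true, Nat.testBit_and, Bool.and_eq_true, List.nil_append,
      ← or1_bit]
    constructor
    · rintro (h1 | h1)
      · exact or2_le h1
      · exact h1.1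
    · exact fun h1 => Or.inr ⟨h1, h⟩
  | a :: l1 => by
    have e : or2 ((a :: l1) ++ s :: l2) = or2 (l1 ++ s :: l2) ||| (or1 (l1 ++ s :: l2) &&& a) := rfl
    have h1 : (or1 (l1 ++ s :: l2)).testBit q = true := or1_bit.2 ⟨s, by simp, h⟩
    rw [e, Nat.testBit_or, Bool.or_eq_true, Nat.testBit_and, Bool.and_eq_true,
      or2_split h (l1 := l1), h1]
    simp only [List.cons_append, List.mem_cons, true_and, exists_eq_or_imp]
    exact or_comm

theorem or2_append {q : ℕ} {l : List ℕ} (h : (or2 l).testBit q = true) : ∀ {l1 : List ℕ},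
    (or2 (l1 ++ l)).testBit q = true
  | [] => h
  | a :: l1 => by
    have e : or2 ((a :: l1) ++ l) = or2 (l1 ++ l) ||| (or1 (l1 ++ l) &&& a) := rfl
    rw [e, Nat.testBit_or, Bool.or_eq_true]
    exact Or.inl (or2_append h)

/-- difference -/
def dif (s t : ℕ) : ℕ := Nat.xor s (Nat.land s t)

theorem dif_bit {s t q : ℕ} : (dif s t).testBit q = true ↔ s.testBit q = true ∧
    t.testBit q = false := by
  have e : dif s t = s ^^^ (s &&& t) := rfl
  rw [e, Nat.testBit_xor, Nat.testBit_and]
  cases s.testBit q <;> cases t.testBit q <;> simp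

/-! ### Codes -/

/-- the code of the mark `i` for the columns `L` -/
noncomputable def codeK (L : List ℕ) (i : ℕ) : ℕ :=
  List.rec (motive := fun _ => ℕ) 0
    (fun g _ ih => Nat.add (Nat.land (Nat.shiftRight (Nat.mul 2 g) i) 1) (Nat.mul 2 ih)) L

theorem codeK_cons (g : ℕ) (L : List ℕ) (i : ℕ) :
    codeK (g :: L) i = Nat.bit ((2 * g).testBit i) (codeK L i) := by
  have e : codeK (g :: L) i = (((2 * g) >>> i) &&& 1) + 2 * codeK L i := rfl
  rw [e, Nat.and_one_is_mod, Nat.shiftRight_eq_div_pow, ← Nat.toNat_testBit, Nat.bit_val]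
  cases (2 * g).testBit i <;> simp <;> omega

theorem codeK_lt : ∀ (L : List ℕ) (i : ℕ), codeK L i < 2 ^ L.length
  | [], _ => by
    show 0 < 2 ^ 0
    norm_num
  | g :: L, i => by
    rw [codeK_cons, List.length_cons, pow_succ, Nat.bit_val]
    have := codeK_lt L i
    cases (2 * g).testBit i <;> simp <;> omega

theorem codeK_bit : ∀ (L : List ℕ) (i k : ℕ), (codeK L i).testBit k = (2 * L.getD k 0).testBit i
  | [], i, k => by
    have e : codeK [] i = 0 := rfl
    rw [e]
    simp
  | g :: L, i, 0 => by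
    rw [codeK_cons, Nat.testBit_bit_zero, List.getD_cons_zero]
  | g :: L, i, k + 1 => by
    rw [codeK_cons, Nat.testBit_bit_succ, List.getD_cons_succ, codeK_bit L i k]

theorem codeK_eq {a b : ℕ} : ∀ {L : List ℕ}, codeK L a = codeK L b ↔
    ∀ h ∈ L, (2 * h).testBit a = (2 * h).testBit b
  | [] => by
    have e : codeK [] a = codeK [] b := rfl
    simp [e]
  | g :: L => by
    have key : ∀ (x y : Bool) (m n : ℕ), Nat.bit x m = Nat.bit y n ↔ x = y ∧ m = n := by
      intro x y m n
      rw [Nat.bit_val, Nat.bit_val]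
      cases x <;> cases y <;> simp <;> omega
    rw [codeK_cons, codeK_cons, key, codeK_eq (L := L)]
    simp

/-- the position of the mark `i` for the columns `L` -/
def cpos (n : ℕ) (L : List ℕ) (i : ℕ) : Fin n → Bool := fun k => (2 * L.getD k 0).testBit i

theorem cpos_dec (n : ℕ) (L : List ℕ) (i : ℕ) : decV n (codeK L i) = cpos n L i := by
  funext k
  exact codeK_bit L i k

theorem enc_cpos {n : ℕ} {L : List ℕ} (h : L.length = n) (i : ℕ) :
    encV (cpos n L i) = codeK L i := by
  rw [← cpos_dec, enc_dec]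
  rw [← h]
  exact codeK_lt L i

theorem cpos_at {m : ℕ} {pre post : List ℕ} {g : ℕ} (hj : pre.length < m + 1) (i : ℕ) :
    cpos (m + 1) (pre ++ g :: post) i ⟨pre.length, hj⟩ = (2 * g).testBit i := by
  unfold cpos
  simp only
  rw [List.getD_append_right _ _ _ _ le_rfl, Nat.sub_self, List.getD_cons_zero]

theorem cpos_del {m : ℕ} {pre post : List ℕ} {g : ℕ} (hj : pre.length < m + 1) (i : ℕ) :
    del ⟨pre.length, hj⟩ (cpos (m + 1) (pre ++ g :: post) i) = cpos m (pre ++ post) i := by
  funext k
  unfold del cpos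
  congr 2
  by_cases h : (k : ℕ) < pre.length
  · have e : ((⟨pre.length, hj⟩ : Fin (m + 1)).succAbove k : ℕ) = k := by
      rw [Fin.succAbove_of_castSucc_lt _ _ (by
        rw [Fin.lt_def]
        exact h)]
      rfl
    rw [e, List.getD_append _ _ _ _ h, List.getD_append _ _ _ _ h]
  · have e : ((⟨pre.length, hj⟩ : Fin (m + 1)).succAbove k : ℕ) = k + 1 := by
      rw [Fin.succAbove_of_le_castSucc _ _ (by
        rw [Fin.le_def]
        exact not_lt.1 h)]
      rfl
    rw [e, List.getD_append_right _ _ _ _ (by omega), List.getD_append_right _ _ _ _ (by omega),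
      show (k : ℕ) + 1 - pre.length = (k - pre.length) + 1 by omega, List.getD_cons_succ]

/-- the marks with sizes -/
def msL (n : ℕ) (L : List ℕ) (i : ℕ) (v : List ℕ) : List ((Fin n → Bool) × ℕ) :=
  (v.zipIdx i).map fun p => (cpos n L p.2, p.1)

theorem msL_cons (n : ℕ) (L : List ℕ) (i a : ℕ) (v : List ℕ) :
    msL n L i (a :: v) = (cpos n L i, a) :: msL n L (i + 1) v := rfl

theorem msL_snd (n : ℕ) (L : List ℕ) : ∀ (i : ℕ) (v : List ℕ), (msL n L i v).map Prod.snd = v
  | _, [] => rfl
  | i, a :: v => by rw [msL_cons, List.map_cons, msL_snd n L (i + 1) v]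

/-! ### Entries -/

/-- the entries of the side `x`, flags `fl` -/
noncomputable def entF (g : ℕ) (rest : List ℕ) (x : Bool) (fl : ℕ → ℕ) (i : ℕ) (v : List ℕ) : List KE :=
  ((v.zipIdx i).filter fun p => (2 * g).testBit p.2 == x).map fun p => (codeK rest p.2, p.1, fl p.2)

theorem entF_cons (g : ℕ) (rest : List ℕ) (x : Bool) (fl : ℕ → ℕ) (i a : ℕ) (v : List ℕ) :
    entF g rest x fl i (a :: v) = if (2 * g).testBit i = x then
      (codeK rest i, a, fl i) :: entF g rest x fl (i + 1) v else entF g rest x fl (i + 1) v := by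
  unfold entF
  rw [List.zipIdx_cons, List.filter_cons]
  by_cases h : (2 * g).testBit i = x
  · rw [if_pos (by simpa using h), if_pos h, List.map_cons]
  · rw [if_neg (by simpa using h), if_neg h]

theorem entF_mem {g : ℕ} {rest : List ℕ} {x : Bool} {fl : ℕ → ℕ} {v : List ℕ} {e : KE}
    (h : e ∈ entF g rest x fl 0 v) : ∃ i < v.length, (2 * g).testBit i = x ∧
      e.1 = codeK rest i ∧ e.2.2 = fl i := by
  unfold entF at h
  obtain ⟨p, hp, rfl⟩ := List.mem_map.1 h
  obtain ⟨h1, h2⟩ := List.mem_filter.1 hp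
  refine ⟨p.2, ?_, by simpa using h2, rfl, rfl⟩
  obtain ⟨a, i⟩ := p
  have := List.snd_lt_of_mem_zipIdx h1
  simpa using this

theorem entF_mem' {g : ℕ} {rest : List ℕ} {x : Bool} {fl : ℕ → ℕ} {v : List ℕ} {i : ℕ}
    (hi : i < v.length) (hx : (2 * g).testBit i = x) :
    codeK rest i ∈ (entF g rest x fl 0 v).map Prod.fst := by
  unfold entF
  rw [List.map_map, List.mem_map]
  refine ⟨(v[i], i), List.mem_filter.2 ⟨?_, by simpa using hx⟩, rfl⟩
  rw [List.mem_zipIdx_iff_getElem?]
  simp [hi]

/-- the relation between the marks and the entries -/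
def RE {m : ℕ} (j : Fin (m + 1)) (a : (Fin (m + 1) → Bool) × ℕ) (e : KE) : Prop :=
  encV (del j a.1) = e.1 ∧ a.2 = e.2.1 ∧ e.2.2 ≤ 1

theorem entF_rel {m g : ℕ} {pre post : List ℕ} (hl : (pre ++ post).length = m)
    (hj : pre.length < m + 1) {x : Bool} {fl : ℕ → ℕ} (hfl : ∀ i, fl i ≤ 1) : ∀ (i : ℕ)
    (v : List ℕ), List.Forall₂ (RE ⟨pre.length, hj⟩)
      ((msL (m + 1) (pre ++ g :: post) i v).filter fun a => a.1 ⟨pre.length, hj⟩ == x)
      (entF g (pre ++ post) x fl i v)
  | _, [] => .nil
  | i, a :: v => by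
    have ih := entF_rel (g := g) hl hj (x := x) hfl (i + 1) v
    rw [msL_cons, entF_cons, List.filter_cons]
    simp only [cpos_at]
    by_cases h : (2 * g).testBit i = x
    · rw [if_pos (by simpa using h), if_pos h]
      refine .cons ⟨?_, rfl, hfl i⟩ ih
      rw [cpos_del, enc_cpos hl]
    · rw [if_neg (by simpa using h), if_neg h]
      exact ih

/-- **From the entries to the fact.** -/
theorem HF_of_ent {m g : ℕ} {pre post v : List ℕ} (hl : (pre ++ post).length = m)
    (hj : pre.length < m + 1)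
    (hnd : ((msL (m + 1) (pre ++ g :: post) 0 v).map Prod.fst).Nodup) {EA EB : List KE}
    (hA : List.Forall₂ (RE ⟨pre.length, hj⟩)
      ((msL (m + 1) (pre ++ g :: post) 0 v).filter fun a => a.1 ⟨pre.length, hj⟩ == false) EA)
    (hB : List.Forall₂ (RE ⟨pre.length, hj⟩)
      ((msL (m + 1) (pre ++ g :: post) 0 v).filter fun a => a.1 ⟨pre.length, hj⟩ == true) EB)
    (h : KW ⟨pre.length, hj⟩ false EA EB) :
    HF (cadj (m + 1)) Finset.univ (msL (m + 1) (pre ++ g :: post) 0 v) := by
  refine HF_of_KW hnd hA ?_ h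
  have e : (fun a : (Fin (m + 1) → Bool) × ℕ => !(a.1 ⟨pre.length, hj⟩ == false)) =
      fun a => a.1 ⟨pre.length, hj⟩ == true := by
    funext a
    cases a.1 ⟨pre.length, hj⟩ <;> rfl
  rw [e]
  exact hB

/-! ### The leaf rule -/

/-- evaluation of the codes and sizes -/
noncomputable def forceK : List KE → (List KE → Bool) → Bool :=
  List.rec (motive := fun _ => (List KE → Bool) → Bool) (fun k => k [])
    (fun e _ ih k => fB e.1 fun c => fB e.2.1 fun s => fB e.2.2 fun f => ih fun L =>
      k ((c, s, f) :: L))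

theorem forceK_eq : ∀ (L : List KE) (k : List KE → Bool), forceK L k = k L
  | [], _ => rfl
  | e :: L, k => by
    have e1 : forceK (e :: L) k = fB e.1 fun c => fB e.2.1 fun s => fB e.2.2 fun f =>
      forceK L fun L => k ((c, s, f) :: L) := rfl
    rw [e1]
    simp only [fB_eq, forceK_eq L]

/-- the bit of the mark `i` -/
noncomputable def bitK (g i : ℕ) : Bool := Nat.beq (Nat.land (Nat.shiftRight (Nat.mul 2 g) i) 1) 1

theorem bitK_eq (g i : ℕ) : bitK g i = (2 * g).testBit i := by
  have e : bitK g i = Nat.beq (((2 * g) >>> i) &&& 1) 1 := rfl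
  rw [e, Nat.and_one_is_mod, Nat.shiftRight_eq_div_pow, ← Nat.toNat_testBit]
  cases (2 * g).testBit i <;> rfl

/-- the entries of the side with the bit `x`, no flags -/
noncomputable def entK (g : ℕ) (rest : List ℕ) (x : Bool) : List ℕ → ℕ → List KE :=
  List.rec (motive := fun _ => ℕ → List KE) (fun _ => [])
    (fun a _ ih i => Bool.rec (motive := fun _ => List KE) (ih (Nat.succ i))
      ((codeK rest i, a, 0) :: ih (Nat.succ i)) (eqB (bitK g i) x))

theorem entK_eq (g : ℕ) (rest : List ℕ) (x : Bool) : ∀ (v : List ℕ) (i : ℕ),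
    entK g rest x v i = entF g rest x (fun _ => 0) i v
  | [], _ => rfl
  | a :: v, i => by
    have e : entK g rest x (a :: v) i = Bool.rec (motive := fun _ => List KE)
      (entK g rest x v (i + 1))
      ((codeK rest i, a, 0) :: entK g rest x v (i + 1)) (eqB (bitK g i) x) := rfl
    rw [e, entF_cons, bitK_eq, entK_eq g rest x v (i + 1)]
    cases (2 * g).testBit i <;> cases x <;> rfl

/-- flags -/
noncomputable def flgK (O : List KE) : List KE → List KE :=
  List.rec (motive := fun _ => List KE) []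
    (fun e _ ih => (e.1, e.2.1, bI (notIn e.1 O) 0 1) :: ih)

theorem flgK_rel {m : ℕ} {j : Fin (m + 1)} {O : List KE} {ms : List ((Fin (m + 1) → Bool) × ℕ)}
    {E : List KE} (h : List.Forall₂ (RE j) ms E) : List.Forall₂ (RE j) ms (flgK O E) := by
  induction h with
  | nil => exact .nil
  | @cons a e ms E h _ ih =>
    refine .cons ⟨h.1, h.2.1, ?_⟩ ih
    show bI (notIn e.1 O) 0 1 ≤ 1
    cases notIn e.1 O
    · exact le_rfl
    · exact Nat.zero_le _

/-- the roots which may hop, in the order of the marks -/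
noncomputable def planK (g : ℕ) (rest : List ℕ) (A B : List KE) :
    List ℕ → ℕ → List (Bool × ℕ) :=
  List.rec (motive := fun _ => ℕ → List (Bool × ℕ)) (fun _ => [])
    (fun a _ ih i => Bool.rec (motive := fun _ => List (Bool × ℕ)) (ih (Nat.succ i))
      ((bitK g i, codeK rest i) :: ih (Nat.succ i))
      (nd (Nat.ble 2 a) (Bool.rec (motive := fun _ => Bool) (notIn (codeK rest i) B)
        (notIn (codeK rest i) A) (bitK g i))))

/-- take -/
noncomputable def takeR {α : Type} : ℕ → List α → List α :=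
  Nat.rec (motive := fun _ => List α → List α) (fun _ => [])
    (fun _ ih l => List.rec (motive := fun _ => List α) [] (fun a t _ => a :: ih t) l)

/-- the leaf rule for one direction, `mh` roots may hop -/
noncomputable def leafAt (c : List (List ℕ)) (v : List ℕ) (mh g : ℕ) (rest : List ℕ) : Bool :=
  forceK (entK g rest false v 0) fun A0 => forceK (entK g rest true v 0) fun B0 =>
    forceK (flgK B0 A0) fun A => forceK (flgK A0 B0) fun B =>
      kwP c (takeR mh (planK g rest A0 B0 v 0)) A B

/-- the leaf rule, all directions -/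
noncomputable def leafR (c : List (List ℕ)) (v : List ℕ) (mh : ℕ) : List ℕ → List ℕ → Bool :=
  List.rec (motive := fun _ => List ℕ → Bool) (fun _ => false)
    (fun g t ih pre => rr (leafAt c v mh g (appR pre t)) (ih (appR pre [g])))

/-- the leaf rule: no hop, one root, two roots, … -/
noncomputable def leafM (c : List (List ℕ)) (v : List ℕ) (L : List ℕ) : ℕ → Bool :=
  Nat.rec (motive := fun _ => Bool) (leafR c v 0 L [])
    (fun n ih => rr ih (leafR c v (Nat.succ n) L []))

theorem leafAt_ok (F : HFacts) {c : List (List ℕ)} (hc : CapO 5 c) {v : List ℕ} {mh g : ℕ}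
    {pre post : List ℕ} (hl : (pre ++ g :: post).length = 6)
    (hnd : ((msL 6 (pre ++ g :: post) 0 v).map Prod.fst).Nodup)
    (h : leafAt c v mh g (pre ++ post) = true) :
    HF (cadj 6) Finset.univ (msL 6 (pre ++ g :: post) 0 v) := by
  unfold leafAt at h
  rw [forceK_eq, forceK_eq, forceK_eq, forceK_eq] at h
  have hl' : (pre ++ post).length = 5 := by
    rw [List.length_append] at hl ⊢
    rw [List.length_cons] at hl
    omega
  have hj : pre.length < 5 + 1 := by
    rw [List.length_append] at hl'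
    omega
  refine HF_of_ent (m := 5) hl' hj hnd ?_ ?_ (kwP_ok F hc h)
  · refine flgK_rel ?_
    rw [entK_eq]
    exact entF_rel hl' hj (fun _ => Nat.zero_le _) 0 v
  · refine flgK_rel ?_
    rw [entK_eq]
    exact entF_rel hl' hj (fun _ => Nat.zero_le _) 0 v

theorem leafR_ok (F : HFacts) {c : List (List ℕ)} (hc : CapO 5 c) {v : List ℕ} {mh : ℕ} :
    ∀ {post pre : List ℕ}, (pre ++ post).length = 6 →
    ((msL 6 (pre ++ post) 0 v).map Prod.fst).Nodup → leafR c v mh post pre = true →
    HF (cadj 6) Finset.univ (msL 6 (pre ++ post) 0 v)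
  | [], _, _, _, h => by cases h
  | g :: t, pre, hl, hnd, h => by
    have e : leafR c v mh (g :: t) pre = rr (leafAt c v mh g (appR pre t))
      (leafR c v mh t (appR pre [g])) := rfl
    rw [e, rr_iff, appR_eq, appR_eq] at h
    rcases h with h | h
    · exact leafAt_ok F hc hl hnd h
    · have e2 : pre ++ g :: t = (pre ++ [g]) ++ t := by simp
      rw [e2] at hl hnd ⊢
      exact leafR_ok F hc hl hnd h

theorem leafM_ok (F : HFacts) {c : List (List ℕ)} (hc : CapO 5 c) {v L : List ℕ} (hl : L.length = 6)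
    (hnd : ((msL 6 L 0 v).map Prod.fst).Nodup) : ∀ {n : ℕ}, leafM c v L n = true →
    HF (cadj 6) Finset.univ (msL 6 L 0 v)
  | 0, h => leafR_ok F hc (pre := []) hl hnd h
  | n + 1, h => by
    have e : leafM c v L (n + 1) = rr (leafM c v L n) (leafR c v (n + 1) L []) := rfl
    rw [e, rr_iff] at h
    rcases h with h | h
    · exact leafM_ok F hc hl hnd h
    · exact leafR_ok F hc (pre := []) hl hnd h

end Kn

end Pool.Agent.Work.MP_bf01b2_co.MR
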