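import Pool.Agent.Work.MP_bf01b2_co.MR.Kn6
import Pool.Agent.Work.MP_bf01b2_co.MR.StateO
import Pool.Agent.Work.MP_bf01b2_co.MR.B5Red

/-!
# All positions of the roots: the search through all lists of columns
-/

set_option autoImplicit false

namespace Pool.Agent.Work.MP_bf01b2_co.MR

namespace Kn

open Adv (nd rr fB nd_iff rr_iff fB_eq)
open Tab (maskL testBit_maskL)

/-! ### Pairs of marks -/

/-- does the column `g` separate the marks of the pair `q`? -/
def sepQ (K g q : ℕ) : Bool :=
  decide (q / K < q % K) && ((2 * g).testBit (q / K) != (2 * g).testBit (q % K))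

/-- the separated pairs -/
def pairsG (K g : ℕ) : List ℕ := (List.range (K * K)).filter (sepQ K g)

/-- the separated pairs as a bit mask -/
noncomputable def sOf (K g : ℕ) : ℕ := maskL (pairsG K g)

/-- all pairs -/
noncomputable def fullQ (K : ℕ) : ℕ :=
  maskL ((List.range (K * K)).filter fun q => decide (q / K < q % K))

theorem sOf_bit {K g q : ℕ} : (sOf K g).testBit q = true ↔ q < K * K ∧ q / K < q % K ∧
    (2 * g).testBit (q / K) ≠ (2 * g).testBit (q % K) := by
  unfold sOf pairsG sepQ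
  rw [testBit_maskL, List.mem_filter, List.mem_range, Bool.and_eq_true, decide_eq_true_eq,
    bne_iff_ne]

/-- disjoint pairs -/
def dj (K q r : ℕ) : Prop := q / K ≠ r / K ∧ q / K ≠ r % K ∧ q % K ≠ r / K ∧ q % K ≠ r % K

instance (K q r : ℕ) : Decidable (dj K q r) := by unfold dj; infer_instance

/-- all possible exact matched sets of the column `g`, with their marks -/
noncomputable def mtAll (K g : ℕ) : List (ℕ × ℕ) :=
  ((pairsG K g).sublists.filter fun l => decide (l.Pairwise (dj K))).map fun l =>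
    (maskL l, maskL (l.flatMap fun q => [q / K, q % K]))

/-- number of the unmatched marks of the side `x` -/
def cnt0 (K g : ℕ) (x : Bool) (R : ℕ) : ℕ :=
  (List.range K).countP fun i => (2 * g).testBit i == x && !R.testBit i

/-! ### The basic rule -/

/-- the rows of one side: everything restricted, groups (row, two actives?, matched sets) -/
abbrev SdK := List (ℕ × ℕ) × List (List (ℕ × ℕ) × Bool × List (ℕ × ℕ))

/-- a column: number, separated pairs, bits, both sides -/
abbrev RcK := ℕ × ℕ × List Bool × SdK × SdK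

/-- the side `x` -/
def sdK (e : RcK) (x : Bool) : SdK := if x then e.2.2.2.2 else e.2.2.2.1

/-- the losing matched sets of the groups -/
noncomputable def loseG (X : List (ℕ × ℕ)) (sX sY : ℕ) :
    List (List (ℕ × ℕ) × Bool × List (ℕ × ℕ)) → List ℕ :=
  List.rec (motive := fun _ => List ℕ) []
    (fun gr _ ih => List.rec (motive := fun _ => List ℕ) ih
      (fun t _ ih2 => Bool.rec (motive := fun _ => List ℕ) (t.1 :: ih2) ih2
        (rr (tstR gr.1 X sX sY t.2) (nd gr.2.1 (tst2 gr.1 X sX sY t.2)))) gr.2.2)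

/-- the losing matched sets of one side -/
noncomputable def loseS (X : List (ℕ × ℕ)) (sX sY al : ℕ) (sd : SdK) : List ℕ :=
  Bool.rec (motive := fun _ => List ℕ) (loseG X sX sY sd.2) [] (tstR sd.1 X sX sY al)

/-- the losing matched sets of a column -/
noncomputable def loseK (v : List ℕ) (al : ℕ) (e : RcK) : List ℕ :=
  actL.fB' (sumF (selB false e.2.2.1 v 1)) fun s0 => actL.fB' (sumF (selB true e.2.2.1 v 1)) fun s1 =>
    Bool.rec (motive := fun _ => List ℕ)
      (loseS (selB true e.2.2.1 v 1) s1 s0 al e.2.2.2.2)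
      (loseS (selB false e.2.2.1 v 1) s0 s1 al e.2.2.2.1) (Nat.ble s1 s0)

/-- the test of one group -/
def TstG (X : List (ℕ × ℕ)) (sX sY : ℕ) (gr : List (ℕ × ℕ) × Bool × List (ℕ × ℕ)) (R : ℕ) : Prop :=
  tstR gr.1 X sX sY R = true ∨ (gr.2.1 = true ∧ tst2 gr.1 X sX sY R = true)

theorem loseG_spec {X : List (ℕ × ℕ)} {sX sY M R : ℕ} {gr : List (ℕ × ℕ) × Bool × List (ℕ × ℕ)} :
    ∀ {G : List (List (ℕ × ℕ) × Bool × List (ℕ × ℕ))}, M ∉ loseG X sX sY G → gr ∈ G →
      (M, R) ∈ gr.2.2 → TstG X sX sY gr R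
  | [], _, h, _ => absurd h List.not_mem_nil
  | g0 :: G, h, hg, hM => by
    have e : loseG X sX sY (g0 :: G) = List.rec (motive := fun _ => List ℕ) (loseG X sX sY G)
      (fun t _ ih2 => Bool.rec (motive := fun _ => List ℕ) (t.1 :: ih2) ih2
        (rr (tstR g0.1 X sX sY t.2) (nd g0.2.1 (tst2 g0.1 X sX sY t.2)))) g0.2.2 := rfl
    rw [e] at h
    have key : ∀ Rs : List (ℕ × ℕ), M ∉ (List.rec (motive := fun _ => List ℕ) (loseG X sX sY G)
      (fun t _ ih2 => Bool.rec (motive := fun _ => List ℕ) (t.1 :: ih2) ih2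
        (rr (tstR g0.1 X sX sY t.2) (nd g0.2.1 (tst2 g0.1 X sX sY t.2)))) Rs : List ℕ) →
        M ∉ loseG X sX sY G ∧ ((M, R) ∈ Rs → TstG X sX sY g0 R) := by
      intro Rs
      induction Rs with
      | nil => exact fun h => ⟨h, fun h => absurd h List.not_mem_nil⟩
      | cons t Rs ih =>
        intro h
        simp only at h
        cases hb : rr (tstR g0.1 X sX sY t.2) (nd g0.2.1 (tst2 g0.1 X sX sY t.2))
        · rw [hb] at h
          obtain ⟨h1, h2⟩ := ih fun h3 => h (List.mem_cons_of_mem _ h3)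
          refine ⟨h1, fun h3 => ?_⟩
          rcases List.mem_cons.1 h3 with h4 | h4
          · exfalso
            apply h
            show M ∈ t.1 :: _
            rw [← h4]
            exact List.mem_cons_self
          · exact h2 h4
        · rw [hb] at h
          obtain ⟨h1, h2⟩ := ih h
          refine ⟨h1, fun h3 => ?_⟩
          rcases List.mem_cons.1 h3 with h4 | h4
          · rw [rr_iff, nd_iff, ← h4] at hb
            exact hb
          · exact h2 h4
    obtain ⟨h1, h2⟩ := key _ h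
    rcases List.mem_cons.1 hg with rfl | hg
    · exact h2 hM
    · exact loseG_spec h1 hg hM

theorem loseK_spec {v : List ℕ} {al : ℕ} {e : RcK} {M : ℕ} (h : M ∉ loseK v al e) :
    ∃ x : Bool, tstR (sdK e x).1 (selB x e.2.2.1 v 1) (sumF (selB x e.2.2.1 v 1))
      (sumF (selB (!x) e.2.2.1 v 1)) al = true ∨
      ∀ gr ∈ (sdK e x).2, ∀ R, (M, R) ∈ gr.2.2 → TstG (selB x e.2.2.1 v 1)
        (sumF (selB x e.2.2.1 v 1)) (sumF (selB (!x) e.2.2.1 v 1)) gr R := by
  unfold loseK at h
  rw [fB'_eq, fB'_eq] at h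
  cases hb : Nat.ble (sumF (selB true e.2.2.1 v 1)) (sumF (selB false e.2.2.1 v 1))
  · rw [hb] at h
    refine ⟨true, ?_⟩
    have h' : M ∉ loseS (selB true e.2.2.1 v 1) (sumF (selB true e.2.2.1 v 1))
      (sumF (selB false e.2.2.1 v 1)) al e.2.2.2.2 := h
    unfold loseS at h'
    cases h1 : tstR (sdK e true).1 (selB true e.2.2.1 v 1) (sumF (selB true e.2.2.1 v 1))
      (sumF (selB (!true) e.2.2.1 v 1)) al
    · right
      have h2 : tstR e.2.2.2.2.1 (selB true e.2.2.1 v 1) (sumF (selB true e.2.2.1 v 1))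
        (sumF (selB false e.2.2.1 v 1)) al = false := h1
      rw [h2] at h'
      exact fun gr hgr R hR => loseG_spec h' hgr hR
    · exact Or.inl rfl
  · rw [hb] at h
    refine ⟨false, ?_⟩
    have h' : M ∉ loseS (selB false e.2.2.1 v 1) (sumF (selB false e.2.2.1 v 1))
      (sumF (selB true e.2.2.1 v 1)) al e.2.2.2.1 := h
    unfold loseS at h'
    cases h1 : tstR (sdK e false).1 (selB false e.2.2.1 v 1) (sumF (selB false e.2.2.1 v 1))
      (sumF (selB (!false) e.2.2.1 v 1)) al
    · right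
      have h2 : tstR e.2.2.2.1.1 (selB false e.2.2.1 v 1) (sumF (selB false e.2.2.1 v 1))
        (sumF (selB true e.2.2.1 v 1)) al = false := h1
      rw [h2] at h'
      exact fun gr hgr R hR => loseG_spec h' hgr hR
    · exact Or.inl rfl

/-- a row for all positions is a row for the entries -/
theorem RowK.of_RowO {m kX kY ν₀ ν : ℕ} {row : List (ℕ × ℕ)} (h : RowO m 0 kX 0 kY 0 0 ν₀ row)
    {EX EY : List KE} (hX : EX.length = kX) (hY : EY.length = kY) (hν : ν ≤ ν₀) :
    RowK m EX EY ν row := by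
  obtain ⟨a1, a2, a3, a4⟩ := h.mono le_rfl hν
  refine ⟨a1, a2, a3, fun n hn => ⟨fun w hw _ hnd hs => ?_, fun ps us hps hus hnd hs => ?_⟩⟩
  · rcases (a4 n hn).1 w (hw.length_eq.trans hX) hs with ⟨h1, h2⟩ | ⟨η', h1, h2, h3⟩
    · refine ⟨fun _ => XF.of_GdO hnd h2, fun h3 h4 => ?_⟩
      rcases h1 with h1 | h1
      · exact absurd h1 h3
      · exact absurd h1.1 h4
    · have hη : η' = 0 := by omega
      subst hη
      rw [if_pos rfl, List.replicate_zero, List.append_nil] at h3
      have h4 : (0 - 0 + ν : ℕ) = ν := by omega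
      rw [h4] at h3
      refine ⟨fun _ => XF.of_GdO hnd (h3.mono (Nat.zero_le _) le_rfl (forall₂_le_refl _)),
        fun _ _ => h3⟩
  · refine XF.of_GdO hnd ((a4 n hn).2 _ ?_ ?_)
    · rw [List.length_append, List.length_map, hus, hY]
    · rw [List.sum_append]
      exact hs

/-- flags of a set of marks -/
def flR (R i : ℕ) : ℕ := if R.testBit i = true then 1 else 0

theorem flR_le (R i : ℕ) : flR R i ≤ 1 := by unfold flR; split_ifs <;> omega

/-- weights and entries -/
def RS (R : ℕ) (p : ℕ × ℕ) (e : KE) : Prop :=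
  p.1 = e.2.1 ∧ inR R p.2 = decide (e.2.2 ≠ 0) ∧ e.2.2 ≤ 1

theorem selB_ent (g : ℕ) (rest : List ℕ) (x : Bool) (R : ℕ) : ∀ (v : List ℕ) (i : ℕ),
    List.Forall₂ (RS R) (selB x ((List.range' i v.length).map fun k => (2 * g).testBit k) v (2 ^ i))
      (entF g rest x (flR R) i v)
  | [], i => by
    rw [List.length_nil]
    exact .nil
  | a :: v, i => by
    rw [List.length_cons, List.range'_succ, List.map_cons, selB_cons, entF_cons]
    have ih := selB_ent g rest x R v (i + 1)
    rw [show 2 ^ i + 2 ^ i = 2 ^ (i + 1) by rw [pow_succ]; omega]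
    by_cases h : (2 * g).testBit i = x
    · rw [if_pos h, if_pos h]
      refine .cons ⟨rfl, ?_, flR_le R i⟩ ih
      show inR R (2 ^ i) = decide (flR R i ≠ 0)
      unfold flR
      by_cases h1 : R.testBit i = true
      · rw [if_pos h1, bit_land.2 h1]
        rfl
      · rw [if_neg h1]
        have h2 : inR R (2 ^ i) = false := by
          rw [← Bool.not_eq_true, bit_land]
          exact h1
        rw [h2]
        rfl
    · rw [if_neg h, if_neg h]
      exact ih

theorem selB_ent0 {K g : ℕ} (rest : List ℕ) (x : Bool) (R : ℕ) {v : List ℕ} (hv : v.length = K) :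
    List.Forall₂ (RS R) (selB x (bitsG K g) v 1) (entF g rest x (flR R) 0 v) := by
  have h := selB_ent g rest x R v 0
  rw [hv, ← List.range_eq_range'] at h
  exact h

theorem RS.sum {R : ℕ} {X : List (ℕ × ℕ)} {E : List KE} (h : List.Forall₂ (RS R) X E) :
    sumF X = (E.map fun e => e.2.1).sum := by
  rw [sumF_eq]
  induction h with
  | nil => rfl
  | cons h _ ih => rw [List.map_cons, List.map_cons, List.sum_cons, List.sum_cons, ih, h.1]

theorem RS.act {R : ℕ} {X : List (ℕ × ℕ)} {E : List KE} (h : List.Forall₂ (RS R) X E) :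
    (X.map fun p => actN (inR R p.2) p.1) = E.map actE := by
  induction h with
  | nil => rfl
  | @cons p e X E h _ ih =>
    rw [List.map_cons, List.map_cons, ih]
    congr 1
    obtain ⟨h1, h2, h3⟩ := h
    rw [h2, h1]
    unfold actN actE
    by_cases h0 : e.2.2 = 0
    · simp [h0]
    · have h4 : e.2.2 = 1 := by omega
      simp [h4]

/-- **The basic rule.** -/
theorem kw_tst {m : ℕ} {j : Fin (m + 1)} {b : Bool} {R ν₀ kX kY : ℕ} {row X : List (ℕ × ℕ)}
    {EX EY : List KE} (hX : List.Forall₂ (RS R) X EX) {sY : ℕ}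
    (hfl : ∀ e ∈ EX, e.2.2 = 0 → e.1 ∉ EY.map Prod.fst)
    (hν : (EY.countP fun e => decide (e.1 ∉ EX.map Prod.fst)) ≤ ν₀)
    (hrow : RowO m 0 kX 0 kY 0 0 ν₀ row) (hkX : EX.length = kX) (hkY : EY.length = kY)
    (hsY : sY = (EY.map fun e => e.2.1).sum) (h : tstR row X (sumF X) sY R = true) :
    KW j b EX EY := by
  obtain ⟨h1, h2⟩ := tstR_iff h
  intro TA TB hnd hA hB
  refine kn_emb hnd hA hB hfl (RowK.of_RowO hrow hkX hkY hν) (A := actR R X) ?_ (RS.sum hX) hsY h1 h2
  rw [← RS.act hX]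
  exact actR_perm R X

theorem kw_tst2 {m : ℕ} {j : Fin (m + 1)} {b : Bool} {R kX kY : ℕ} {row X : List (ℕ × ℕ)}
    {EX EY : List KE} (hX : List.Forall₂ (RS R) X EX) {sY : ℕ}
    (hfl : ∀ e ∈ EX, e.2.2 = 0 → e.1 ∉ EY.map Prod.fst)
    (hν : (EY.countP fun e => decide (e.1 ∉ EX.map Prod.fst)) = 0)
    (hrow : RowO m 0 kX 0 kY 0 0 0 row) (hkX : EX.length = kX) (hkY : EY.length = kY)
    (hsY : sY = (EY.map fun e => e.2.1).sum) (h : tst2 row X (sumF X) sY R = true) :
    KW j b EX EY := by
  obtain ⟨h1, L1, p, L2, A, h3, h4, h5, h6⟩ := tst2_iff h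
  rw [h3] at hX
  obtain ⟨U1, hU1⟩ : ∃ U1, U1 = EX.take L1.length := ⟨_, rfl⟩
  obtain ⟨U2, hU2⟩ : ∃ U2, U2 = EX.drop L1.length := ⟨_, rfl⟩
  have hf1 : List.Forall₂ (RS R) L1 U1 := by
    have := List.forall₂_take L1.length hX
    rwa [List.take_left, ← hU1] at this
  have hf2 : List.Forall₂ (RS R) (p :: L2) U2 := by
    have := List.forall₂_drop L1.length hX
    rwa [List.drop_left, ← hU2] at this
  have hUU : EX = U1 ++ U2 := by rw [hU1, hU2, List.take_append_drop]
  cases hf2 with
  | @cons _ e0 _ U3 hu0 hf3 =>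
    have hp : (e0 :: (U1 ++ U3)).Perm EX := by
      rw [hUU]
      exact List.perm_middle.symm
    refine KW.perm hp ?_
    intro TA TB hnd hA hB
    cases hA with
    | @cons T0 _ TX _ hT0 hTX =>
      have hcount : (EY.countP fun e => decide (e.1 ∉ (e0 :: (U1 ++ U3)).map Prod.fst)) = 0 := by
        rw [← hν]
        congr 1
        funext e
        have : (e.1 ∈ (e0 :: (U1 ++ U3)).map Prod.fst) ↔ e.1 ∈ EX.map Prod.fst :=
          (hp.map Prod.fst).mem_iff
        simp only [this]
      have hf4 : List.Forall₂ (RS R) (L1 ++ L2) (U1 ++ U3) := forall₂_append' hf1 hf3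
      have hsX : sumF X = ((e0 :: (U1 ++ U3)).map fun e => e.2.1).sum := by
        rw [((hp.map fun e => e.2.1).sum_eq), h3]
        rw [h3] at *
        exact RS.sum hX
      refine kn_emb2 hnd hT0 hTX hB ?_ hcount
        (RowK.of_RowO hrow (by rw [hp.length_eq, hkX]) hkY le_rfl) (A := A) ?_
        hsX hsY h1 ?_
      · intro e he
        exact hfl e (hp.mem_iff.1 (List.mem_cons_of_mem _ he))
      · rw [← RS.act hf4]
        exact h5
      · intro c hc1 hc2
        rw [← hu0.1] at hc1 hc2 ⊢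
        exact h6 c hc1 hc2

end Kn

end Pool.Agent.Work.MP_bf01b2_co.MR
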