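import Pool.Agent.Work.MP_bf01b2_co.MR.Kn7

/-!
# All positions of the roots: the search, soundness
-/

set_option autoImplicit false

namespace Pool.Agent.Work.MP_bf01b2_co.MR

namespace Kn

open Adv (nd rr fB nd_iff rr_iff fB_eq)
open Tab (maskL testBit_maskL)

/-! ### Exact matched sets -/

/-- the marks are determined by side and code -/
def Inj (K g : ℕ) (rest : List ℕ) : Prop :=
  ∀ a < K, ∀ b < K, (2 * g).testBit a = (2 * g).testBit b → codeK rest a = codeK rest b → a = b

theorem Inj.of_nodup {n : ℕ} {pre post v : List ℕ} {g : ℕ}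
    (hnd : ((msL n (pre ++ g :: post) 0 v).map Prod.fst).Nodup) : Inj v.length g (pre ++ post) := by
  intro a ha b hb h1 h2
  have h3 : cpos n (pre ++ g :: post) a = cpos n (pre ++ g :: post) b := by
    funext k
    unfold cpos
    by_cases hk : (k : ℕ) < (pre ++ g :: post).length
    · rw [List.getD_eq_getElem _ _ hk]
      have h4 : (pre ++ g :: post)[(k : ℕ)] ∈ pre ++ g :: post := List.getElem_mem hk
      rw [List.mem_append, List.mem_cons] at h4
      rcases h4 with h4 | h4 | h4
      · exact codeK_eq.1 h2 _ (List.mem_append_left _ h4)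
      · rw [h4]
        exact h1
      · exact codeK_eq.1 h2 _ (List.mem_append_right _ h4)
    · rw [List.getD_eq_default _ _ (not_lt.1 hk)]
      simp
  have h5 : (msL n (pre ++ g :: post) 0 v).map Prod.fst =
      (List.range v.length).map (cpos n (pre ++ g :: post)) := by
    unfold msL
    rw [List.map_map, List.range_eq_range', ← List.zipIdx_map_snd 0 v, List.map_map]
    rfl
  rw [h5] at hnd
  exact (List.nodup_map_iff_inj_on (List.nodup_range)).1 hnd a (List.mem_range.2 ha) b
    (List.mem_range.2 hb) h3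

/-- the exact matched set as a property -/
def Exa (K g : ℕ) (rest : List ℕ) (M : ℕ) : Prop :=
  ∀ q, M.testBit q = true ↔ q < K * K ∧ q / K < q % K ∧
    (2 * g).testBit (q / K) ≠ (2 * g).testBit (q % K) ∧ codeK rest (q / K) = codeK rest (q % K)

theorem exa_of {K g : ℕ} {l l' : List ℕ} : Exa K g (l ++ l')
    (dif (sOf K g) (or2 ((l ++ g :: l').map (sOf K)))) := by
  intro q
  rw [dif_bit]
  by_cases hs : (sOf K g).testBit q = true
  · have h1 := sOf_bit.1 hs
    rw [List.map_append, List.map_cons, ← Bool.not_eq_true, or2_split hs, ← List.map_append,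
      codeK_eq]
    constructor
    · rintro ⟨-, h2⟩
      refine ⟨h1.1, h1.2.1, h1.2.2, fun h hh => ?_⟩
      by_contra hcon
      exact h2 ⟨sOf K h, List.mem_map_of_mem hh, sOf_bit.2 ⟨h1.1, h1.2.1, hcon⟩⟩
    · rintro ⟨-, -, -, h2⟩
      refine ⟨hs, ?_⟩
      rintro ⟨t, ht, htq⟩
      obtain ⟨h, hh, rfl⟩ := List.mem_map.1 ht
      exact (sOf_bit.1 htq).2.2 (h2 h hh)
  · constructor
    · exact fun h => absurd h.1 hs
    · exact fun h => absurd (sOf_bit.2 ⟨h.1, h.2.1, h.2.2.1⟩) hs

/-- the marks of a set of pairs -/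
def Mks (K M R : ℕ) : Prop :=
  ∀ i, R.testBit i = true ↔ ∃ q, M.testBit q = true ∧ (i = q / K ∨ i = q % K)

theorem exa_mem {K g M : ℕ} {rest : List ℕ} (hinj : Inj K g rest) (hM : Exa K g rest M) :
    ∃ R, (M, R) ∈ mtAll K g ∧ Mks K M R := by
  obtain ⟨lq, hlq⟩ : ∃ lq, lq = (pairsG K g).filter fun q => M.testBit q := ⟨_, rfl⟩
  have hmem : ∀ q, q ∈ lq ↔ M.testBit q = true := by
    intro q
    rw [hlq, List.mem_filter]
    constructor
    · exact fun h => h.2
    · intro h
      refine ⟨?_, h⟩
      obtain ⟨h1, h2, h3, -⟩ := (hM q).1 h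
      have := sOf_bit.2 ⟨h1, h2, h3⟩
      unfold sOf at this
      exact testBit_maskL.1 this
  have hmask : maskL lq = M := by
    apply Nat.eq_of_testBit_eq
    intro q
    rw [Bool.eq_iff_iff, testBit_maskL]
    exact hmem q
  have hlt : ∀ q ∈ lq, q / K < q % K ∧ q % K < K := by
    intro q hq
    obtain ⟨h1, h2, -, -⟩ := (hM q).1 ((hmem q).1 hq)
    exact ⟨h2, Nat.mod_lt _ (by
      rcases Nat.eq_zero_or_pos K with h | h
      · rw [h] at h1; simp at h1
      · exact h)⟩
  have hbb : ∀ x y z : Bool, x ≠ y → z ≠ y → x = z := by decide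
  have hpw : lq.Pairwise (dj K) := by
    have hnd : lq.Nodup := by
      rw [hlq]
      exact (List.nodup_range.filter _).filter _
    refine hnd.pairwise_of_forall_ne fun q hq r hr hne => ?_
    obtain ⟨-, -, q3, q4⟩ := (hM q).1 ((hmem q).1 hq)
    obtain ⟨-, -, r3, r4⟩ := (hM r).1 ((hmem r).1 hr)
    obtain ⟨q1, q2⟩ := hlt q hq
    obtain ⟨r1, r2⟩ := hlt r hr
    have hqe := Nat.div_add_mod q K
    have hre := Nat.div_add_mod r K
    refine ⟨fun h => ?_, fun h => ?_, fun h => ?_, fun h => ?_⟩
    · apply hne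
      have h5 : q % K = r % K := by
        apply hinj _ q2 _ r2
        · rw [h] at q3
          exact hbb _ _ _ q3.symm r3.symm
        · rw [← q4, ← r4, h]
      rw [← hqe, ← hre, h, h5]
    · have h5 : q % K = r / K := by
        apply hinj _ q2 _ (r1.trans r2)
        · rw [h] at q3
          exact hbb _ _ _ q3.symm r3
        · rw [← q4, r4, h]
      omega
    · have h5 : q / K = r % K := by
        apply hinj _ (q1.trans q2) _ r2
        · rw [h] at q3
          exact hbb _ _ _ q3 r3.symm
        · rw [q4, ← r4, h]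
      omega
    · apply hne
      have h5 : q / K = r / K := by
        apply hinj _ (q1.trans q2) _ (r1.trans r2)
        · rw [h] at q3
          exact hbb _ _ _ q3 r3
        · rw [q4, r4, h]
      rw [← hqe, ← hre, h, h5]
  refine ⟨maskL (lq.flatMap fun q => [q / K, q % K]), ?_, ?_⟩
  · unfold mtAll
    rw [List.mem_map]
    refine ⟨lq, List.mem_filter.2 ⟨?_, by simpa using hpw⟩, by rw [hmask]⟩
    rw [List.mem_sublists, hlq]
    exact List.filter_sublist
  · intro i
    rw [testBit_maskL, List.mem_flatMap]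
    constructor
    · rintro ⟨q, hq, hi⟩
      exact ⟨q, (hmem q).1 hq, by simpa using hi⟩
    · rintro ⟨q, hq, hi⟩
      exact ⟨q, (hmem q).2 hq, by simpa using hi⟩

/-- the marks with a partner -/
theorem mks_iff {K g M R : ℕ} {rest : List ℕ} (hM : Exa K g rest M) (hR : Mks K M R) {i : ℕ}
    (hi : i < K) : R.testBit i = true ↔ ∃ k < K, (2 * g).testBit i ≠ (2 * g).testBit k ∧
      codeK rest i = codeK rest k := by
  have hK : 0 < K := by omega
  rw [hR]
  constructor
  · rintro ⟨q, hq, h⟩
    obtain ⟨h1, h2, h3, h4⟩ := (hM q).1 hq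
    have h5 : q % K < K := Nat.mod_lt _ hK
    rcases h with rfl | rfl
    · exact ⟨q % K, h5, h3, h4⟩
    · exact ⟨q / K, h2.trans h5, h3.symm, h4.symm⟩
  · rintro ⟨k, hk, h1, h2⟩
    have hne : i ≠ k := fun h => h1 (by rw [h])
    rcases Nat.lt_or_gt_of_ne hne with hlt | hlt
    · have e1 : (i * K + k) / K = i := by
        rw [mul_comm, Nat.mul_add_div hK, Nat.div_eq_of_lt hk, Nat.add_zero]
      have e2 : (i * K + k) % K = k := by
        rw [mul_comm, Nat.mul_add_mod, Nat.mod_eq_of_lt hk]
      refine ⟨i * K + k, (hM _).2 ⟨?_, ?_, ?_, ?_⟩, Or.inl e1.symm⟩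
      · have : (i + 1) * K ≤ K * K := Nat.mul_le_mul_right _ (by omega)
        rw [add_mul] at this
        omega
      · rw [e1, e2]; exact hlt
      · rw [e1, e2]; exact h1
      · rw [e1, e2]; exact h2
    · have e1 : (k * K + i) / K = k := by
        rw [mul_comm, Nat.mul_add_div hK, Nat.div_eq_of_lt hi, Nat.add_zero]
      have e2 : (k * K + i) % K = i := by
        rw [mul_comm, Nat.mul_add_mod, Nat.mod_eq_of_lt hi]
      refine ⟨k * K + i, (hM _).2 ⟨?_, ?_, ?_, ?_⟩, Or.inr e2.symm⟩
      · have : (k + 1) * K ≤ K * K := Nat.mul_le_mul_right _ (by omega)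
        rw [add_mul] at this
        omega
      · rw [e1, e2]; exact hlt
      · rw [e1, e2]; exact h1.symm
      · rw [e1, e2]; exact h2.symm

/-! ### The table -/

/-- the check of one side -/
noncomputable def sdC (c : List (List ℕ)) (K g : ℕ) (x : Bool) (sd : SdK) : Bool :=
  rowOC c ((bitsG K g).count x) 0 ((bitsG K g).count (!x)) 0 0 ((bitsG K g).count (!x)) sd.1 &&
  (mtAll K g).all (fun t => sd.2.any fun gr => decide (t ∈ gr.2.2)) &&
  sd.2.all fun gr => gr.2.2.all fun t =>
    rowOC c ((bitsG K g).count x) 0 ((bitsG K g).count (!x)) 0 0 (cnt0 K g (!x) t.2) gr.1 &&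
    (!gr.2.1 || decide (cnt0 K g (!x) t.2 = 0))

/-- the check of one record -/
noncomputable def rcC (c : List (List ℕ)) (K : ℕ) (e : RcK) : Bool :=
  decide (e.2.1 = sOf K e.1) && decide (e.2.2.1 = bitsG K e.1) &&
  sdC c K e.1 false (sdK e false) && sdC c K e.1 true (sdK e true)

/-- the check of the table -/
noncomputable def tabK (c : List (List ℕ)) (K al full : ℕ) (T : List RcK) : Bool :=
  decide (T.map Prod.fst = (List.range (2 ^ (K - 1))).reverse) &&
  ((List.range K).all fun i => al.testBit i) && decide (full = fullQ K) && T.all (rcC c K)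

theorem ent_length {K g : ℕ} (rest : List ℕ) (x : Bool) (R : ℕ) {v : List ℕ} (hv : v.length = K) :
    (entF g rest x (flR R) 0 v).length = (bitsG K g).count x := by
  rw [← (selB_ent0 rest x R hv).length_eq, selB_length]
  rw [bitsG_length, hv]

theorem countP_ent {K g : ℕ} {rest : List ℕ} {x : Bool} {R : ℕ} {v : List ℕ} (hv : v.length = K)
    {p : ℕ → Bool} {f : ℕ → ℕ} (hp : ∀ i < K, (2 * g).testBit i = x → p (codeK rest i) = true →
      R.testBit i = false) :
    (entF g rest x f 0 v).countP (fun e => p e.1) ≤ cnt0 K g x R := by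
  unfold entF cnt0
  rw [List.countP_map, List.countP_filter]
  have h1 : (List.range K) = (v.zipIdx 0).map Prod.snd := by
    rw [List.zipIdx_map_snd, hv, List.range_eq_range']
  rw [h1, List.countP_map]
  refine List.countP_mono_left fun q hq h2 => ?_
  simp only [Function.comp, Bool.and_eq_true, beq_iff_eq, Bool.not_eq_true'] at h2 ⊢
  have hq2 : q.2 < K := by
    have := List.snd_lt_of_mem_zipIdx hq
    omega
  exact ⟨h2.2, hp q.2 hq2 h2.2 h2.1⟩

/-- **A column wins at its exact matched set.** -/
theorem col_win {c : List (List ℕ)} (hc : CapO 5 c) {K : ℕ} {v : List ℕ} (hv : v.length = K)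
    {al : ℕ} (hal : ∀ i < K, al.testBit i = true) {e : RcK} (he : rcC c K e = true)
    {pre post : List ℕ} (hl : (pre ++ e.1 :: post).length = 6)
    (hnd : ((msL 6 (pre ++ e.1 :: post) 0 v).map Prod.fst).Nodup) {M : ℕ}
    (hM : Exa K e.1 (pre ++ post) M) (hlose : M ∉ loseK v al e) :
    HF (cadj 6) Finset.univ (msL 6 (pre ++ e.1 :: post) 0 v) := by
  unfold rcC at he
  simp only [Bool.and_eq_true, decide_eq_true_eq] at he
  obtain ⟨⟨⟨-, hbits⟩, hs0⟩, hs1⟩ := he
  have hinj : Inj K e.1 (pre ++ post) := by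
    rw [← hv]
    exact Inj.of_nodup hnd
  obtain ⟨R, hR1, hR2⟩ := exa_mem hinj hM
  have hl' : (pre ++ post).length = 5 := by
    rw [List.length_append] at hl ⊢
    rw [List.length_cons] at hl
    omega
  have hj : pre.length < 5 + 1 := by
    rw [List.length_append] at hl'
    omega
  obtain ⟨rest, hrest⟩ : ∃ rest, rest = pre ++ post := ⟨_, rfl⟩
  obtain ⟨x, hx⟩ := loseK_spec hlose
  rw [hbits] at hx
  have hsd : sdC c K e.1 x (sdK e x) = true := by cases x <;> assumption
  unfold sdC at hsd
  simp only [Bool.and_eq_true, List.all_eq_true, List.any_eq_true, decide_eq_true_eq,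
    Bool.or_eq_true, Bool.not_eq_true'] at hsd
  obtain ⟨⟨h1, h2⟩, h3⟩ := hsd
  -- from the side `x` to the conclusion
  have fin : ∀ (fx fy : ℕ), (∀ b : Bool, KW (m := 5) ⟨pre.length, hj⟩ b
      (entF e.1 rest x (flR fx) 0 v) (entF e.1 rest (!x) (flR fy) 0 v)) →
      HF (cadj 6) Finset.univ (msL 6 (pre ++ e.1 :: post) 0 v) := by
    intro fx fy h
    rw [hrest] at h
    cases x
    · exact HF_of_ent (m := 5) hl' hj hnd (entF_rel hl' hj (flR_le _) 0 v)
        (entF_rel hl' hj (flR_le _) 0 v) (h false)
    · exact HF_of_ent (m := 5) hl' hj hnd (entF_rel hl' hj (flR_le _) 0 v)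
        (entF_rel hl' hj (flR_le _) 0 v) (KW.symm (h true))
  have hsY : ∀ R', sumF (selB (!x) (bitsG K e.1) v 1) =
      ((entF e.1 rest (!x) (flR R') 0 v).map fun e => e.2.1).sum := fun R' =>
    RS.sum (selB_ent0 rest (!x) R' hv)
  rcases hx with hx | hx
  · -- everything restricted
    refine fin al al fun b => kw_tst (selB_ent0 rest x al hv) ?_ ?_ (rowOC_ok hc h1)
      (ent_length rest x al hv) (ent_length rest (!x) al hv) (hsY al) hx
    · intro e' he' h0
      obtain ⟨i, hi, -, -, h5⟩ := entF_mem he'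
      rw [h0] at h5
      unfold flR at h5
      rw [if_pos (hal i (by omega))] at h5
      omega
    · exact List.countP_le_length.trans (ent_length rest (!x) al hv).le
  · obtain ⟨gr, hgr, hgM⟩ := h2 _ hR1
    have h4 := h3 gr hgr _ hgM
    have hflag : ∀ e' ∈ entF e.1 rest x (flR R) 0 v, e'.2.2 = 0 →
        e'.1 ∉ (entF e.1 rest (!x) (flR R) 0 v).map Prod.fst := by
      intro e' he' h0 hcon
      obtain ⟨i, hi, hix, h5, h6⟩ := entF_mem he'
      obtain ⟨e2, he2, h7⟩ := List.mem_map.1 hcon
      obtain ⟨k, hk, hkx, h8, -⟩ := entF_mem he2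
      have h9 : R.testBit i = true := by
        rw [mks_iff hM hR2 (by omega)]
        refine ⟨k, by omega, ?_, ?_⟩
        · rw [hix, hkx]
          cases x <;> simp
        · rw [← hrest, ← h5, ← h7, h8]
      rw [h0] at h6
      unfold flR at h6
      rw [if_pos h9] at h6
      omega
    have hnu : ((entF e.1 rest (!x) (flR R) 0 v).countP fun e' =>
        decide (e'.1 ∉ (entF e.1 rest x (flR R) 0 v).map Prod.fst)) ≤ cnt0 K e.1 (!x) R := by
      refine countP_ent (p := fun z => decide (z ∉ (entF e.1 rest x (flR R) 0 v).map Prod.fst))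
        hv fun i hi hix h5 => ?_
      rw [← Bool.not_eq_true, mks_iff hM hR2 hi]
      rintro ⟨k, hk, h6, h7⟩
      rw [decide_eq_true_eq] at h5
      apply h5
      rw [hrest, h7, ← hrest]
      refine entF_mem' (by omega) ?_
      rw [hix] at h6
      cases x <;> cases hb : (2 * e.1).testBit k <;> rw [hb] at h6 <;> first | rfl | exact absurd rfl h6
    rcases hx gr hgr R hgM with h5 | ⟨h5, h6⟩
    · exact fin R R fun b => kw_tst (selB_ent0 rest x R hv) hflag hnu (rowOC_ok hc h4.1)
        (ent_length rest x R hv) (ent_length rest (!x) R hv) (hsY R) h5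
    · have h7 : cnt0 K e.1 (!x) R = 0 := by
        rcases h4.2 with h8 | h8
        · rw [h5] at h8; cases h8
        · exact h8
      refine fin R R fun b => kw_tst2 (selB_ent0 rest x R hv) hflag (by omega) ?_
        (ent_length rest x R hv) (ent_length rest (!x) R hv) (hsY R) h6
      have h8 := rowOC_ok (m := 5) (s := 0) hc h4.1
      rw [h7] at h8
      exact h8

/-! ### The search -/

/-- a candidate: number, separated pairs, losing matched sets -/
abbrev CdK := ℕ × ℕ × List ℕ

/-- member -/
noncomputable def memR (M : ℕ) (l : List ℕ) : Bool :=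
  List.rec (motive := fun _ => Bool) false (fun a _ ih => rr (Nat.beq a M) ih) l

theorem memR_iff {M : ℕ} : ∀ {l : List ℕ}, memR M l = true ↔ M ∈ l
  | [] => by
    have e : memR M [] = false := rfl
    simp [e]
  | a :: l => by
    have e : memR M (a :: l) = rr (Nat.beq a M) (memR M l) := rfl
    rw [e, rr_iff, Nat.beq_eq, memR_iff (l := l), List.mem_cons, eq_comm]

/-- some chosen column wins -/
noncomputable def anyWin (S2 : ℕ) (ch : List CdK) : Bool :=
  List.rec (motive := fun _ => Bool) false (fun c _ ih => rr (fB (dif c.2.1 S2) fun M =>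
    Bool.rec (motive := fun _ => Bool) true false (memR M c.2.2)) ih) ch

theorem anyWin_iff {S2 : ℕ} : ∀ {ch : List CdK}, anyWin S2 ch = true →
    ∃ c ∈ ch, dif c.2.1 S2 ∉ c.2.2
  | [], h => by cases h
  | c :: ch, h => by
    have e : anyWin S2 (c :: ch) = rr (fB (dif c.2.1 S2) fun M =>
      Bool.rec (motive := fun _ => Bool) true false (memR M c.2.2)) (anyWin S2 ch) := rfl
    rw [e, rr_iff, fB_eq] at h
    rcases h with h | h
    · refine ⟨c, List.mem_cons_self, fun h1 => ?_⟩
      rw [memR_iff.2 h1] at h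
      cases h
    · obtain ⟨c', h1, h2⟩ := anyWin_iff h
      exact ⟨c', List.mem_cons_of_mem _ h1, h2⟩

/-- every element meets `S2` -/
noncomputable def allHit (S2 : ℕ) (l : List ℕ) : Bool :=
  List.rec (motive := fun _ => Bool) true
    (fun M _ ih => Bool.rec (motive := fun _ => Bool) ih false (Nat.beq (Nat.land M S2) 0)) l

theorem allHit_iff {S2 : ℕ} : ∀ {l : List ℕ}, allHit S2 l = true → ∀ M ∈ l, M &&& S2 ≠ 0
  | [], _, M, hM => absurd hM List.not_mem_nil
  | a :: l, h, M, hM => by
    have e : allHit S2 (a :: l) = Bool.rec (motive := fun _ => Bool) (allHit S2 l) false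
      (Nat.beq (Nat.land a S2) 0) := rfl
    rw [e] at h
    cases hb : Nat.beq (Nat.land a S2) 0
    · rw [hb] at h
      rcases List.mem_cons.1 hM with rfl | hM
      · rw [← Bool.not_eq_true, Nat.beq_eq] at hb
        exact hb
      · exact allHit_iff h M hM
    · rw [hb] at h
      cases h

/-- some chosen column wins in any case -/
noncomputable def anyHit (S2 : ℕ) (ch : List CdK) : Bool :=
  List.rec (motive := fun _ => Bool) false (fun c _ ih => rr (allHit S2 c.2.2) ih) ch

theorem anyHit_iff {S2 : ℕ} : ∀ {ch : List CdK}, anyHit S2 ch = true →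
    ∃ c ∈ ch, ∀ M ∈ c.2.2, M &&& S2 ≠ 0
  | [], h => by cases h
  | c :: ch, h => by
    have e : anyHit S2 (c :: ch) = rr (allHit S2 c.2.2) (anyHit S2 ch) := rfl
    rw [e, rr_iff] at h
    rcases h with h | h
    · exact ⟨c, List.mem_cons_self, allHit_iff h⟩
    · obtain ⟨c', h1, h2⟩ := anyHit_iff h
      exact ⟨c', List.mem_cons_of_mem _ h1, h2⟩

/-- the loop over the candidates -/
noncomputable def loopK (S1 S2 : ℕ) (k : List CdK → CdK → ℕ → ℕ → Bool) : List CdK → Bool :=
  List.rec (motive := fun _ => Bool) true (fun c t ih => nd (fB (Nat.lor c.2.1 S1) fun S1' =>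
    fB (Nat.lor S2 (Nat.land S1 c.2.1)) fun S2' => k (c :: t) c S1' S2') ih)

theorem loopK_iff {S1 S2 : ℕ} {k : List CdK → CdK → ℕ → ℕ → Bool} {c : CdK} {B : List CdK} :
    ∀ {A : List CdK}, loopK S1 S2 k (A ++ c :: B) = true →
      k (c :: B) c (c.2.1 ||| S1) (S2 ||| (S1 &&& c.2.1)) = true
  | [], h => by
    have e : loopK S1 S2 k ([] ++ c :: B) = nd (fB (Nat.lor c.2.1 S1) fun S1' =>
      fB (Nat.lor S2 (Nat.land S1 c.2.1)) fun S2' => k (c :: B) c S1' S2') (loopK S1 S2 k B) := rfl
    rw [e, nd_iff, fB_eq, fB_eq] at h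
    exact h.1
  | a :: A, h => by
    have e : loopK S1 S2 k ((a :: A) ++ c :: B) = nd (fB (Nat.lor a.2.1 S1) fun S1' =>
      fB (Nat.lor S2 (Nat.land S1 a.2.1)) fun S2' => k (a :: (A ++ c :: B)) a S1' S2')
        (loopK S1 S2 k (A ++ c :: B)) := rfl
    rw [e, nd_iff] at h
    exact loopK_iff h.2

/-- The search. -/
noncomputable def dfsK (lf : List ℕ → Bool) (full : ℕ) :
    ℕ → List CdK → List CdK → ℕ → ℕ → Bool :=
  Nat.rec (motive := fun _ => List CdK → List CdK → ℕ → ℕ → Bool)
    (fun _ ch S1 S2 => rr (Bool.rec (motive := fun _ => Bool) true false (Nat.beq S1 full))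
      (rr (anyWin S2 ch) (lf (mapR Prod.fst ch))))
    (fun _ ih cs ch S1 S2 => rr (anyHit S2 ch)
      (loopK S1 S2 (fun t c S1' S2' => ih t (c :: ch) S1' S2') cs))

theorem dfsK_ok {lf : List ℕ → Bool} {full n : ℕ} {Good : List CdK → Prop}
    (h1 : ∀ (l : List CdK) (c : CdK) (l' : List CdK), (l ++ c :: l').length = n →
      dif c.2.1 (or2 ((l ++ c :: l').map fun c => c.2.1)) ∉ c.2.2 → Good (l ++ c :: l'))
    (h2 : ∀ l : List CdK, l.length = n → or1 (l.map fun c => c.2.1) ≠ full → Good l)
    (h3 : ∀ l : List CdK, l.length = n → lf (l.map Prod.fst) = true → Good l) :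
    ∀ (rem : ℕ) (cs ch : List CdK), (cs.map Prod.fst).Pairwise (fun a b => b < a) →
      rem + ch.length = n →
      dfsK lf full rem cs ch (or1 (ch.map fun c => c.2.1)) (or2 (ch.map fun c => c.2.1)) = true →
      ∀ pre : List CdK, pre.length = rem → (∀ c ∈ pre, c ∈ cs) →
        pre.Pairwise (fun a b => a.1 ≤ b.1) → Good (pre ++ ch)
  | 0, cs, ch, hcs, hn, h, pre, hp, hm, hpw => by
    rw [List.length_eq_zero_iff.1 hp, List.nil_append]
    have e : dfsK lf full 0 cs ch (or1 (ch.map fun c => c.2.1)) (or2 (ch.map fun c => c.2.1)) =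
      rr (Bool.rec (motive := fun _ => Bool) true false
        (Nat.beq (or1 (ch.map fun c => c.2.1)) full))
      (rr (anyWin (or2 (ch.map fun c => c.2.1)) ch) (lf (mapR Prod.fst ch))) := rfl
    rw [e, rr_iff, rr_iff, mapR_eq] at h
    rcases h with h | h | h
    · apply h2 ch (by omega)
      intro h4
      rw [beq_true h4] at h
      cases h
    · obtain ⟨c, hc, h4⟩ := anyWin_iff h
      obtain ⟨l, l', rfl⟩ := List.append_of_mem hc
      exact h1 l c l' (by omega) h4
    · exact h3 ch (by omega) h
  | rem + 1, cs, ch, hcs, hn, h, pre, hp, hm, hpw => by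
    have e : dfsK lf full (rem + 1) cs ch (or1 (ch.map fun c => c.2.1))
        (or2 (ch.map fun c => c.2.1)) =
      rr (anyHit (or2 (ch.map fun c => c.2.1)) ch)
      (loopK (or1 (ch.map fun c => c.2.1)) (or2 (ch.map fun c => c.2.1))
        (fun t c S1' S2' => dfsK lf full rem t (c :: ch) S1' S2') cs) := rfl
    rw [e, rr_iff] at h
    rcases h with h | h
    · obtain ⟨c, hc, h4⟩ := anyHit_iff h
      obtain ⟨l, l', rfl⟩ := List.append_of_mem hc
      rw [← List.append_assoc]
      refine h1 (pre ++ l) c l' ?_ ?_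
      · rw [List.append_assoc, List.length_append]
        omega
      · intro h5
        apply h4 _ h5
        apply Nat.eq_of_testBit_eq
        intro q
        rw [Nat.testBit_and, Nat.zero_testBit]
        by_contra hcon
        rw [Bool.not_eq_false, Bool.and_eq_true, dif_bit] at hcon
        obtain ⟨⟨-, h6⟩, h7⟩ := hcon
        have h8 := or2_append h7 (l1 := pre.map fun c => c.2.1)
        rw [← List.map_append, ← List.append_assoc, h6] at h8
        cases h8
    · obtain ⟨pre', x, rfl⟩ : ∃ pre' x, pre = pre' ++ [x] := by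
        rcases List.eq_nil_or_concat pre with h4 | ⟨pre', x, h4⟩
        · rw [h4] at hp
          simp at hp
        · exact ⟨pre', x, by simpa using h4⟩
      have hx : x ∈ cs := hm x (by simp)
      obtain ⟨A, B, rfl⟩ := List.append_of_mem hx
      have h4 := loopK_iff h
      rw [List.append_assoc, List.singleton_append]
      rw [List.pairwise_append] at hpw
      refine dfsK_ok h1 h2 h3 rem (x :: B) (x :: ch) ?_ (by rw [List.length_cons]; omega) h4 pre'
        (by simpa using hp) ?_ hpw.1
      · rw [List.map_append, List.pairwise_append] at hcs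
        exact hcs.2.1
      · intro y hy
        have h5 := hm y (List.mem_append_left _ hy)
        rcases List.mem_append.1 h5 with h6 | h6
        · exfalso
          have h7 := hpw.2.2 y hy x (by simp)
          rw [List.map_append, List.pairwise_append] at hcs
          have h8 := hcs.2.2 y.1 (List.mem_map_of_mem h6) x.1 (by simp)
          omega
        · exact h6

/-- evaluation of a list -/
noncomputable def forceL : List ℕ → (List ℕ → Bool) → Bool :=
  List.rec (motive := fun _ => (List ℕ → Bool) → Bool) (fun k => k [])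
    (fun a _ ih k => fB a fun a' => ih fun L => k (a' :: L))

theorem forceL_eq : ∀ (L : List ℕ) (k : List ℕ → Bool), forceL L k = k L
  | [], _ => rfl
  | a :: L, k => by
    have e1 : forceL (a :: L) k = fB a fun a' => forceL L fun L => k (a' :: L) := rfl
    rw [e1, fB_eq, forceL_eq L]

/-- the candidates -/
noncomputable def bldC (v : List ℕ) (al : ℕ) : List RcK → (List CdK → Bool) → Bool :=
  List.rec (motive := fun _ => (List CdK → Bool) → Bool) (fun k => k [])
    (fun e _ ih k => forceL (loseK v al e) fun l => ih fun C => k ((e.1, e.2.1, l) :: C))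

theorem bldC_eq (v : List ℕ) (al : ℕ) : ∀ (T : List RcK) (k : List CdK → Bool),
    bldC v al T k = k (T.map fun e => (e.1, e.2.1, loseK v al e))
  | [], _ => rfl
  | e :: T, k => by
    have e1 : bldC v al (e :: T) k = forceL (loseK v al e) fun l => bldC v al T fun C =>
      k ((e.1, e.2.1, l) :: C) := rfl
    rw [e1, forceL_eq, bldC_eq v al T]
    rfl

/-- **The check of all positions**, `6` columns. -/
noncomputable def fullChk (c : List (List ℕ)) (mh al full : ℕ) (T : List RcK) (v : List ℕ) : Bool :=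
  bldC v al T fun C => dfsK (fun L => leafM c v L mh) full 6 C [] 0 0

theorem fullChk_ok (F : HFacts) {c : List (List ℕ)} (hc : CapO 5 c) {K al full mh : ℕ}
    {T : List RcK} (hT : tabK c K al full T = true) {v : List ℕ} (hv : v.length = K)
    (h : fullChk c mh al full T v = true) {L : List ℕ} (hL : L.length = 6)
    (hs : L.Pairwise (· ≤ ·)) (hlt : ∀ g ∈ L, g < 2 ^ (K - 1))
    (hnd : ((msL 6 L 0 v).map Prod.fst).Nodup) :
    HF (cadj 6) Finset.univ (msL 6 L 0 v) := by
  unfold fullChk at h
  rw [bldC_eq] at h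
  unfold tabK at hT
  simp only [Bool.and_eq_true, decide_eq_true_eq, List.all_eq_true, List.mem_range] at hT
  obtain ⟨⟨⟨hTm, hal⟩, hfull⟩, hrc⟩ := hT
  obtain ⟨C, hC⟩ : ∃ C, C = T.map fun e => (e.1, e.2.1, loseK v al e) := ⟨_, rfl⟩
  rw [← hC] at h
  have hCm : C.map Prod.fst = (List.range (2 ^ (K - 1))).reverse := by
    rw [hC, List.map_map, ← hTm]
    rfl
  have hCe : ∀ c ∈ C, ∃ e ∈ T, c = (e.1, e.2.1, loseK v al e) := by
    intro c hc
    rw [hC] at hc
    obtain ⟨e, he, rfl⟩ := List.mem_map.1 hc
    exact ⟨e, he, rfl⟩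
  have hsm : ∀ l : List CdK, (∀ c ∈ l, c ∈ C) → (l.map fun c => c.2.1) =
      (l.map Prod.fst).map (sOf K) := by
    intro l hl
    rw [List.map_map]
    refine List.map_congr_left fun c hc => ?_
    obtain ⟨e, he, rfl⟩ := hCe c (hl c hc)
    have h1 := hrc e he
    unfold rcC at h1
    simp only [Bool.and_eq_true, decide_eq_true_eq] at h1
    exact h1.1.1.1
  -- the list of the records
  obtain ⟨pre, hp1, hp2⟩ : ∃ pre : List CdK, pre.map Prod.fst = L ∧ ∀ c ∈ pre, c ∈ C := by
    clear hs hnd hL
    induction L with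
    | nil => exact ⟨[], rfl, fun _ h => absurd h List.not_mem_nil⟩
    | cons g L ih =>
      obtain ⟨pre, h1, h2⟩ := ih fun g hg => hlt g (List.mem_cons_of_mem _ hg)
      have h3 : g ∈ C.map Prod.fst := by
        rw [hCm, List.mem_reverse, List.mem_range]
        exact hlt g List.mem_cons_self
      obtain ⟨c, hc, rfl⟩ := List.mem_map.1 h3
      refine ⟨c :: pre, by rw [List.map_cons, h1], fun c' hc' => ?_⟩
      rcases List.mem_cons.1 hc' with rfl | hc'
      · exact hc
      · exact h2 c' hc'
  have key := dfsK_ok (lf := fun L => leafM c v L mh) (full := full) (n := 6)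
    (Good := fun l => (∀ c ∈ l, c ∈ C) → ((msL 6 (l.map Prod.fst) 0 v).map Prod.fst).Nodup →
      HF (cadj 6) Finset.univ (msL 6 (l.map Prod.fst) 0 v)) ?_ ?_ ?_ 6 C [] ?_ rfl h pre ?_ hp2 ?_
  · rw [List.append_nil] at key
    rw [hp1] at key
    exact key hp2 hnd
  · -- a winning column
    intro l c' l' hlen hw hmem hnd'
    rw [hsm _ hmem] at hw
    obtain ⟨e, he, rfl⟩ := hCe c' (hmem _ (by simp))
    have h1 := hrc e he
    have hse : e.2.1 = sOf K e.1 := by
      unfold rcC at h1
      simp only [Bool.and_eq_true, decide_eq_true_eq] at h1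
      exact h1.1.1.1
    rw [List.map_append, List.map_cons] at hnd' hw ⊢
    simp only at hw hnd' ⊢
    rw [hse] at hw
    exact col_win hc hv hal h1 (by
      rw [List.length_append, List.length_cons] at hlen ⊢
      rw [List.length_map, List.length_map]
      exact hlen) hnd' exa_of hw
  · -- not everything is separated
    intro l hlen hne hmem hnd'
    exfalso
    apply hne
    rw [hsm _ hmem, hfull]
    apply Nat.eq_of_testBit_eq
    intro q
    rw [Bool.eq_iff_iff, or1_bit]
    unfold fullQ
    rw [testBit_maskL, List.mem_filter, List.mem_range, decide_eq_true_eq]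
    constructor
    · rintro ⟨s, hs1, hs2⟩
      obtain ⟨g, _, rfl⟩ := List.mem_map.1 hs1
      have := sOf_bit.1 hs2
      exact ⟨this.1, this.2.1⟩
    · rintro ⟨hq1, hq2⟩
      by_contra hcon
      have hK : 0 < K := by
        rcases Nat.eq_zero_or_pos K with h | h
        · rw [h] at hq1; simp at hq1
        · exact h
      have hq3 : q % K < K := Nat.mod_lt _ hK
      -- the marks have the same position
      have h4 : cpos 6 (l.map Prod.fst) (q / K) = cpos 6 (l.map Prod.fst) (q % K) := by
        funext k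
        unfold cpos
        have hk : (k : ℕ) < (l.map Prod.fst).length := by
          rw [List.length_map, hlen]
          exact k.2
        rw [List.getD_eq_getElem _ _ hk]
        by_contra hcon2
        exact hcon ⟨sOf K (l.map Prod.fst)[(k : ℕ)], List.mem_map_of_mem (List.getElem_mem hk),
          sOf_bit.2 ⟨hq1, hq2, hcon2⟩⟩
      have h5 : (msL 6 (l.map Prod.fst) 0 v).map Prod.fst =
          (List.range v.length).map (cpos 6 (l.map Prod.fst)) := by
        unfold msL
        rw [List.map_map, List.range_eq_range', ← List.zipIdx_map_snd 0 v, List.map_map]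
        rfl
      rw [h5] at hnd'
      have h6 := (List.nodup_map_iff_inj_on (List.nodup_range)).1 hnd' (q / K)
        (List.mem_range.2 (by omega)) (q % K) (List.mem_range.2 (by omega)) h4
      omega
  · intro l hlen hlf hmem hnd'
    exact leafM_ok F hc (by rw [List.length_map]; exact hlen) hnd' hlf
  · rw [hCm]
    rw [List.pairwise_reverse]
    exact List.pairwise_lt_range
  · have := congrArg List.length hp1
    rw [List.length_map] at this
    omega
  · rw [← hp1, List.pairwise_map] at hs
    exact hs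

end Kn

end Pool.Agent.Work.MP_bf01b2_co.MR
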