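import Pool.Agent.Work.MP_bf01b2_co.MR.Kn8

/-!
# All positions of the roots: from the sorted lists of columns to all positions
-/

set_option autoImplicit false

namespace Pool.Agent.Work.MP_bf01b2_co.MR

namespace Kn

/-- permutation of the coordinates and translation -/
def autP {n : ℕ} (σ : Equiv.Perm (Fin n)) (t : Fin n → Bool) :
    (Fin n → Bool) ≃ (Fin n → Bool) where
  toFun y := fun k => xor (y (σ.symm k)) (t k)
  invFun y := fun k => xor (y (σ k)) (t (σ k))
  left_inv y := by
    funext k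
    simp only [Equiv.symm_apply_apply, Bool.xor_assoc, Bool.xor_self, Bool.xor_false]
  right_inv y := by
    funext k
    simp only [Equiv.apply_symm_apply, Bool.xor_assoc, Bool.xor_self, Bool.xor_false]

theorem autP_adj {n : ℕ} (σ : Equiv.Perm (Fin n)) (t : Fin n → Bool) (a b : Fin n → Bool)
    (h : cadj n a b) : cadj n (autP σ t a) (autP σ t b) := by
  unfold cadj hammingDist at h ⊢
  rw [← h]
  refine Finset.card_bij (fun k _ => σ.symm k) ?_ ?_ ?_
  · intro k hk
    rw [Finset.mem_filter] at hk ⊢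
    refine ⟨Finset.mem_univ _, fun h1 => hk.2 ?_⟩
    show xor (a (σ.symm k)) (t k) = xor (b (σ.symm k)) (t k)
    rw [h1]
  · intro k _ k' _ h1
    exact σ.symm.injective h1
  · intro k hk
    rw [Finset.mem_filter] at hk
    refine ⟨σ k, ?_, σ.symm_apply_apply k⟩
    rw [Finset.mem_filter]
    refine ⟨Finset.mem_univ _, fun h1 => hk.2 ?_⟩
    have h2 : xor (a (σ.symm (σ k))) (t (σ k)) = xor (b (σ.symm (σ k))) (t (σ k)) := h1
    rw [σ.symm_apply_apply] at h2
    cases ha : a k <;> cases hb : b k <;> rw [ha, hb] at h2 <;> cases ht : t (σ k) <;>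
      rw [ht] at h2 <;> first | rfl | cases h2

/-- the number of a column -/
def colN {n : ℕ} (K : ℕ) (P : ℕ → Fin n → Bool) (k : Fin n) : ℕ :=
  Nat.ofBits fun i : Fin (K - 1) => xor (P (i + 1) k) (P 0 k)

theorem colN_lt {n K : ℕ} (P : ℕ → Fin n → Bool) (k : Fin n) : colN K P k < 2 ^ (K - 1) :=
  Nat.ofBits_lt_two_pow _

theorem colN_bit {n K : ℕ} (P : ℕ → Fin n → Bool) (k : Fin n) {i : ℕ} (hi : i < K) :
    (2 * colN K P k).testBit i = xor (P i k) (P 0 k) := by
  cases i with
  | zero =>
    rw [Bool.xor_self, Nat.testBit_zero]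
    simp
  | succ i =>
    have h1 : (2 * colN K P k).testBit (i + 1) = (colN K P k).testBit i := by
      rw [Nat.testBit_succ]
      congr 1
      omega
    rw [h1]
    unfold colN
    rw [Nat.testBit_ofBits_lt _ _ (by omega)]

/-- **All positions.** -/
theorem all_pos {K : ℕ} {v : List ℕ} (hv : v.length = K)
    (h : ∀ L : List ℕ, L.length = 6 → L.Pairwise (· ≤ ·) → (∀ g ∈ L, g < 2 ^ (K - 1)) →
      ((msL 6 L 0 v).map Prod.fst).Nodup → HF (cadj 6) Finset.univ (msL 6 L 0 v))
    {ps : List (Fin 6 → Bool)} (hnd : ps.Nodup) (hl : ps.length = v.length) :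
    HF (cadj 6) Finset.univ (ps.zip v) := by
  obtain ⟨P, hP⟩ : ∃ P : ℕ → Fin 6 → Bool, P = fun i => ps.getD i (fun _ => false) := ⟨_, rfl⟩
  obtain ⟨σ, hσ⟩ : ∃ σ : Equiv.Perm (Fin 6), σ = Tuple.sort (colN K P) := ⟨_, rfl⟩
  have hmono : Monotone (colN K P ∘ σ) := by
    rw [hσ]
    exact Tuple.monotone_sort _
  obtain ⟨L, hL⟩ : ∃ L, L = List.ofFn (colN K P ∘ σ) := ⟨_, rfl⟩
  have hLl : L.length = 6 := by rw [hL, List.length_ofFn]
  have hpos : ∀ i < K, autP σ (P 0) (cpos 6 L i) = P i := by
    intro i hi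
    funext k
    show xor (cpos 6 L i (σ.symm k)) (P 0 k) = P i k
    unfold cpos
    have h1 : ((σ.symm k : Fin 6) : ℕ) < L.length := by
      rw [hLl]
      exact (σ.symm k).2
    rw [List.getD_eq_getElem _ _ h1]
    have h2 : L[((σ.symm k : Fin 6) : ℕ)] = colN K P k := by
      subst hL
      rw [List.getElem_ofFn]
      simp
    rw [h2, colN_bit P k hi, Bool.xor_assoc, Bool.xor_self, Bool.xor_false]
  have hzip : ps.zip v = (msL 6 L 0 v).map fun a => (autP σ (P 0) a.1, a.2) := by
    have h1 : ∀ (qs : List (Fin 6 → Bool)) (w : List ℕ) (i : ℕ), qs.length = w.length →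
        (∀ k < w.length, autP σ (P 0) (cpos 6 L (i + k)) = qs.getD k (fun _ => false)) →
        qs.zip w = (msL 6 L i w).map fun a => (autP σ (P 0) a.1, a.2) := by
      intro qs w
      induction w generalizing qs with
      | nil =>
        intro i hq _
        rw [List.zip_nil_right]
        rfl
      | cons a w ih =>
        intro i hq hk
        cases qs with
        | nil => simp at hq
        | cons q qs =>
          rw [List.zip_cons_cons, msL_cons, List.map_cons, ih qs (i + 1) (by simpa using hq) ?_]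
          · have := hk 0 (by simp)
            rw [Nat.add_zero, List.getD_cons_zero] at this
            simp only [this]
          · intro k hk'
            have := hk (k + 1) (by simpa using hk')
            rw [List.getD_cons_succ, show i + (k + 1) = i + 1 + k by omega] at this
            exact this
    refine h1 ps v 0 hl fun k hk => ?_
    rw [Nat.zero_add, hpos k (by omega), hP]
  rw [hzip]
  refine HF_equiv (autP σ (P 0)) (autP_adj σ (P 0)) (fun _ _ => Finset.mem_univ _)
    (h L hLl ?_ ?_ ?_)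
  · rw [hL, List.pairwise_ofFn]
    exact fun i j hij => hmono hij.le
  · intro g hg
    rw [hL, List.mem_ofFn] at hg
    obtain ⟨k, rfl⟩ := hg
    exact colN_lt P _
  · have h2 : ((msL 6 L 0 v).map fun a => (autP σ (P 0) a.1, a.2)).map Prod.fst =
        ((msL 6 L 0 v).map Prod.fst).map (autP σ (P 0)) := by
      rw [List.map_map, List.map_map]
      rfl
    have h3 : (((msL 6 L 0 v).map Prod.fst).map (autP σ (P 0))).Nodup := by
      rw [← h2, ← hzip, List.map_fst_zip hl.le]
      exact hnd
    exact h3.of_map _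

/-- all sorted vectors with the sum `T` and the first entry `lo`, …, `lo + n - 1` -/
noncomputable def avR (K T lo n : ℕ) (f : List ℕ → Bool) : Bool :=
  allF (fun a => Adv.fB (Nat.sub T a) fun T' => av K T' a (fun l => f (a :: l))) lo n

theorem avR_cov {K T lo n hi : ℕ} {f : List ℕ → Bool} (h : avR K T lo n f = true)
    (hn : hi < lo + n) : Cov K T lo hi f := by
  intro x v h1 h2 h3 h4 h5 h6 h7
  have h8 := allF_iff _ _ h x h6 (by omega)
  rw [Adv.fB_eq] at h8
  have e : Nat.sub T x = T - x := rfl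
  rw [e] at h8
  exact ⟨x :: v, forall₂_le_refl _, av_sound K h8 v h1 (by omega) h3 h5 h4⟩

/-- a fact for all positions -/
theorem GdO.of_pos {m s : ℕ} {v : List ℕ} (h : ∀ ps : List (Fin m → Bool), ps.Nodup →
    ps.length = v.length → HF (cadj m) Finset.univ (ps.zip v)) : GdO m 0 s v := by
  intro Ts h1 h2 h3 h4 _ _
  refine XF.of_HF (h (Ts.map LRT.pos) h1 (by rw [List.length_map, h3.length_eq])) Ts rfl h2 h3 ?_
  rw [← Finset.sdiff_eq_empty_iff_subset, ← Finset.card_eq_zero]
  omega

/-- **One vector.** -/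
theorem full_vec (F : HFacts) {c : List (List ℕ)} (hc : CapO 5 c) {K al full mh : ℕ}
    {T : List RcK} (hT : tabK c K al full T = true) {v : List ℕ} (hv : v.length = K)
    (h : fullChk c mh al full T v = true) (s : ℕ) : GdO 6 0 s v :=
  GdO.of_pos fun _ hnd hl => all_pos hv (fun _ h1 h2 h3 h4 => fullChk_ok F hc hT hv h h1 h2 h3 h4)
    hnd hl

/-- **All vectors.** -/
theorem full_all (F : HFacts) {c : List (List ℕ)} (hc : CapO 5 c) {K al full mh S lo hi : ℕ}
    {T : List RcK} (hT : tabK c (K + 1) al full T = true)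
    (h : Cov K S lo hi (fullChk c mh al full T)) (hlo : lo * (K + 1) ≤ S + K) (hhi : S - K ≤ hi)
    (s : ℕ) (w : List ℕ) (hw : w.length = K + 1) (hs : w.sum ≤ S) : GdO 6 0 s w :=
  GdO.of_cov (fun _ hu hf => full_vec F hc hT hu hf s) h hlo hhi hw hs

end Kn

end Pool.Agent.Work.MP_bf01b2_co.MR
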