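import Pool.Agent.Work.MP_bf01b2_co.MR.Kn9

set_option autoImplicit false

namespace Pool.Agent.Work.MP_bf01b2_co.MR

namespace Kn

/-- the caps of `Q_5` -/
def cu4 : List (List ℕ) := [[], [24, 23, 22, 20, 18], [23, 23, 21, 19], [22, 22, 20], [21, 21], []]

/-- the table for `4` roots -/
def Tu4 : List RcK :=
  [(7, 14, [false, true, true, true], ([(24, 22), (20, 21)], [([(24, 22), (20, 21)], false, [(0, 0)]), ([(24, 22), (22, 21)], false, [(2, 3), (4, 5), (8, 9)])]),
    ([(22, 24), (22, 23), (22, 22), (22, 21)], [([(22, 24), (22, 23), (22, 22), (22, 21)], false, [(0, 0)]), ([(22, 24), (22, 23), (22, 22), (22, 21)], true, [(2, 3), (4, 5), (8, 9)])])),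
  (6, 204, [false, false, true, true], ([(23, 23), (21, 22), (21, 21)], [([(23, 23), (21, 22), (21, 21)], false, [(0, 0)]), ([(23, 23), (23, 22), (23, 21)], false, [(4, 5), (8, 9), (64, 6), (128, 10)]), ([(23, 23), (23, 22), (23, 21)], true, [(132, 15), (72, 15)])]),
    ([(23, 23), (21, 22), (21, 21)], [([(23, 23), (21, 22), (21, 21)], false, [(0, 0)]), ([(23, 23), (23, 22), (23, 21)], false, [(4, 5), (8, 9), (64, 6), (128, 10)]), ([(23, 23), (23, 22), (23, 21)], true, [(132, 15), (72, 15)])])),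
  (5, 2122, [false, true, false, true], ([(23, 23), (21, 22), (21, 21)], [([(23, 23), (21, 22), (21, 21)], false, [(0, 0)]), ([(23, 23), (23, 22), (23, 21)], false, [(2, 3), (8, 9), (64, 6), (2048, 12)]), ([(23, 23), (23, 22), (23, 21)], true, [(2050, 15), (72, 15)])]),
    ([(23, 23), (21, 22), (21, 21)], [([(23, 23), (21, 22), (21, 21)], false, [(0, 0)]), ([(23, 23), (23, 22), (23, 21)], false, [(2, 3), (8, 9), (64, 6), (2048, 12)]), ([(23, 23), (23, 22), (23, 21)], true, [(2050, 15), (72, 15)])])),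
  (4, 2184, [false, false, false, true], ([(22, 24), (22, 23), (22, 22), (22, 21)], [([(22, 24), (22, 23), (22, 22), (22, 21)], false, [(0, 0)]), ([(22, 24), (22, 23), (22, 22), (22, 21)], true, [(8, 9), (128, 10), (2048, 12)])]),
    ([(24, 22), (20, 21)], [([(24, 22), (20, 21)], false, [(0, 0)]), ([(24, 22), (22, 21)], false, [(8, 9), (128, 10), (2048, 12)])])),
  (3, 2182, [false, true, true, false], ([(23, 23), (21, 22), (21, 21)], [([(23, 23), (21, 22), (21, 21)], false, [(0, 0)]), ([(23, 23), (23, 22), (23, 21)], false, [(2, 3), (4, 5), (128, 10), (2048, 12)]), ([(23, 23), (23, 22), (23, 21)], true, [(2050, 15), (132, 15)])]),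
    ([(23, 23), (21, 22), (21, 21)], [([(23, 23), (21, 22), (21, 21)], false, [(0, 0)]), ([(23, 23), (23, 22), (23, 21)], false, [(2, 3), (4, 5), (128, 10), (2048, 12)]), ([(23, 23), (23, 22), (23, 21)], true, [(2050, 15), (132, 15)])])),
  (2, 2116, [false, false, true, false], ([(22, 24), (22, 23), (22, 22), (22, 21)], [([(22, 24), (22, 23), (22, 22), (22, 21)], false, [(0, 0)]), ([(22, 24), (22, 23), (22, 22), (22, 21)], true, [(4, 5), (64, 6), (2048, 12)])]),
    ([(24, 22), (20, 21)], [([(24, 22), (20, 21)], false, [(0, 0)]), ([(24, 22), (22, 21)], false, [(4, 5), (64, 6), (2048, 12)])])),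
  (1, 194, [false, true, false, false], ([(22, 24), (22, 23), (22, 22), (22, 21)], [([(22, 24), (22, 23), (22, 22), (22, 21)], false, [(0, 0)]), ([(22, 24), (22, 23), (22, 22), (22, 21)], true, [(2, 3), (64, 6), (128, 10)])]),
    ([(24, 22), (20, 21)], [([(24, 22), (20, 21)], false, [(0, 0)]), ([(24, 22), (22, 21)], false, [(2, 3), (64, 6), (128, 10)])])),
  (0, 0, [false, false, false, false], ([(21, 99), (21, 24), (21, 23), (21, 22), (21, 21)], [([(21, 99), (21, 24), (21, 23), (21, 22), (21, 21)], true, [(0, 0)])]),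
    ([(0, 0)], [([(0, 0)], false, [(0, 0)])]))]

theorem Tu4_ok : tabK cu4 4 15 2254 Tu4 = true := by
  decide +kernel

end Kn

end Pool.Agent.Work.MP_bf01b2_co.MR
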