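import Pool.Agent.Work.MP_bf01b2_co.MR.Kn9

set_option autoImplicit false

namespace Pool.Agent.Work.MP_bf01b2_co.MR

namespace Kn

/-- the caps of `Q_5` -/
def cu5 : List (List ℕ) := [[], [24, 23, 22, 20, 18], [23, 23, 21, 19], [22, 22, 20], [21, 21], []]

/-- the table for `5` roots -/
def Tu5 : List RcK :=
  [(15, 30, [false, true, true, true, true], ([(24, 21)], [([(24, 21)], false, [(0, 0)]), ([(24, 21)], false, [(2, 3), (4, 5), (8, 9), (16, 17)])]),
    ([(21, 24), (21, 23), (21, 22), (21, 21)], [([(21, 24), (21, 23), (21, 22), (21, 21)], false, [(0, 0)]), ([(21, 24), (21, 23), (21, 22), (21, 21)], true, [(2, 3), (4, 5), (8, 9), (16, 17)])])),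
  (14, 924, [false, false, true, true, true], ([(23, 22), (19, 21)], [([(23, 22), (19, 21)], false, [(0, 0)]), ([(23, 22), (21, 21)], false, [(4, 5), (8, 9), (16, 17), (128, 6), (256, 10), (512, 18)]), ([(23, 22), (23, 21)], false, [(260, 15), (516, 23), (136, 15), (520, 27), (144, 23), (272, 27)])]),
    ([(22, 23), (20, 22), (20, 21)], [([(22, 23), (20, 22), (20, 21)], false, [(0, 0)]), ([(22, 23), (22, 22), (22, 21)], false, [(4, 5), (8, 9), (16, 17), (128, 6), (256, 10), (512, 18)]), ([(22, 23), (22, 22), (22, 21)], true, [(260, 15), (516, 23), (136, 15), (520, 27), (144, 23), (272, 27)])])),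
  (13, 24730, [false, true, false, true, true], ([(23, 22), (19, 21)], [([(23, 22), (19, 21)], false, [(0, 0)]), ([(23, 22), (21, 21)], false, [(2, 3), (8, 9), (16, 17), (128, 6), (8192, 12), (16384, 20)]), ([(23, 22), (23, 21)], false, [(8194, 15), (16386, 23), (136, 15), (16392, 29), (144, 23), (8208, 29)])]),
    ([(22, 23), (20, 22), (20, 21)], [([(22, 23), (20, 22), (20, 21)], false, [(0, 0)]), ([(22, 23), (22, 22), (22, 21)], false, [(2, 3), (8, 9), (16, 17), (128, 6), (8192, 12), (16384, 20)]), ([(22, 23), (22, 22), (22, 21)], true, [(8194, 15), (16386, 23), (136, 15), (16392, 29), (144, 23), (8208, 29)])])),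
  (12, 25368, [false, false, false, true, true], ([(22, 23), (20, 22), (20, 21)], [([(22, 23), (20, 22), (20, 21)], false, [(0, 0)]), ([(22, 23), (22, 22), (22, 21)], false, [(8, 9), (16, 17), (256, 10), (512, 18), (8192, 12), (16384, 20)]), ([(22, 23), (22, 22), (22, 21)], true, [(520, 27), (16392, 29), (272, 27), (8208, 29), (16640, 30), (8704, 30)])]),
    ([(23, 22), (19, 21)], [([(23, 22), (19, 21)], false, [(0, 0)]), ([(23, 22), (21, 21)], false, [(8, 9), (16, 17), (256, 10), (512, 18), (8192, 12), (16384, 20)]), ([(23, 22), (23, 21)], false, [(520, 27), (16392, 29), (272, 27), (8208, 29), (16640, 30), (8704, 30)])])),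
  (11, 532758, [false, true, true, false, true], ([(23, 22), (19, 21)], [([(23, 22), (19, 21)], false, [(0, 0)]), ([(23, 22), (21, 21)], false, [(2, 3), (4, 5), (16, 17), (256, 10), (8192, 12), (524288, 24)]), ([(23, 22), (23, 21)], false, [(8194, 15), (524290, 27), (260, 15), (524292, 29), (272, 27), (8208, 29)])]),
    ([(22, 23), (20, 22), (20, 21)], [([(22, 23), (20, 22), (20, 21)], false, [(0, 0)]), ([(22, 23), (22, 22), (22, 21)], false, [(2, 3), (4, 5), (16, 17), (256, 10), (8192, 12), (524288, 24)]), ([(22, 23), (22, 22), (22, 21)], true, [(8194, 15), (524290, 27), (260, 15), (524292, 29), (272, 27), (8208, 29)])])),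
  (10, 533140, [false, false, true, false, true], ([(22, 23), (20, 22), (20, 21)], [([(22, 23), (20, 22), (20, 21)], false, [(0, 0)]), ([(22, 23), (22, 22), (22, 21)], false, [(4, 5), (16, 17), (128, 6), (512, 18), (8192, 12), (524288, 24)]), ([(22, 23), (22, 22), (22, 21)], true, [(516, 23), (524292, 29), (144, 23), (8208, 29), (524416, 30), (8704, 30)])]),
    ([(23, 22), (19, 21)], [([(23, 22), (19, 21)], false, [(0, 0)]), ([(23, 22), (21, 21)], false, [(4, 5), (16, 17), (128, 6), (512, 18), (8192, 12), (524288, 24)]), ([(23, 22), (23, 21)], false, [(516, 23), (524292, 29), (144, 23), (8208, 29), (524416, 30), (8704, 30)])])),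
  (9, 541074, [false, true, false, false, true], ([(22, 23), (20, 22), (20, 21)], [([(22, 23), (20, 22), (20, 21)], false, [(0, 0)]), ([(22, 23), (22, 22), (22, 21)], false, [(2, 3), (16, 17), (128, 6), (256, 10), (16384, 20), (524288, 24)]), ([(22, 23), (22, 22), (22, 21)], true, [(16386, 23), (524290, 27), (144, 23), (272, 27), (524416, 30), (16640, 30)])]),
    ([(23, 22), (19, 21)], [([(23, 22), (19, 21)], false, [(0, 0)]), ([(23, 22), (21, 21)], false, [(2, 3), (16, 17), (128, 6), (256, 10), (16384, 20), (524288, 24)]), ([(23, 22), (23, 21)], false, [(16386, 23), (524290, 27), (144, 23), (272, 27), (524416, 30), (16640, 30)])])),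
  (8, 541200, [false, false, false, false, true], ([(21, 24), (21, 23), (21, 22), (21, 21)], [([(21, 24), (21, 23), (21, 22), (21, 21)], false, [(0, 0)]), ([(21, 24), (21, 23), (21, 22), (21, 21)], true, [(16, 17), (512, 18), (16384, 20), (524288, 24)])]),
    ([(24, 21)], [([(24, 21)], false, [(0, 0)]), ([(24, 21)], false, [(16, 17), (512, 18), (16384, 20), (524288, 24)])])),
  (7, 541198, [false, true, true, true, false], ([(23, 22), (19, 21)], [([(23, 22), (19, 21)], false, [(0, 0)]), ([(23, 22), (21, 21)], false, [(2, 3), (4, 5), (8, 9), (512, 18), (16384, 20), (524288, 24)]), ([(23, 22), (23, 21)], false, [(16386, 23), (524290, 27), (516, 23), (524292, 29), (520, 27), (16392, 29)])]),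
    ([(22, 23), (20, 22), (20, 21)], [([(22, 23), (20, 22), (20, 21)], false, [(0, 0)]), ([(22, 23), (22, 22), (22, 21)], false, [(2, 3), (4, 5), (8, 9), (512, 18), (16384, 20), (524288, 24)]), ([(22, 23), (22, 22), (22, 21)], true, [(16386, 23), (524290, 27), (516, 23), (524292, 29), (520, 27), (16392, 29)])])),
  (6, 541068, [false, false, true, true, false], ([(22, 23), (20, 22), (20, 21)], [([(22, 23), (20, 22), (20, 21)], false, [(0, 0)]), ([(22, 23), (22, 22), (22, 21)], false, [(4, 5), (8, 9), (128, 6), (256, 10), (16384, 20), (524288, 24)]), ([(22, 23), (22, 22), (22, 21)], true, [(260, 15), (524292, 29), (136, 15), (16392, 29), (524416, 30), (16640, 30)])]),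
    ([(23, 22), (19, 21)], [([(23, 22), (19, 21)], false, [(0, 0)]), ([(23, 22), (21, 21)], false, [(4, 5), (8, 9), (128, 6), (256, 10), (16384, 20), (524288, 24)]), ([(23, 22), (23, 21)], false, [(260, 15), (524292, 29), (136, 15), (16392, 29), (524416, 30), (16640, 30)])])),
  (5, 533130, [false, true, false, true, false], ([(22, 23), (20, 22), (20, 21)], [([(22, 23), (20, 22), (20, 21)], false, [(0, 0)]), ([(22, 23), (22, 22), (22, 21)], false, [(2, 3), (8, 9), (128, 6), (512, 18), (8192, 12), (524288, 24)]), ([(22, 23), (22, 22), (22, 21)], true, [(8194, 15), (524290, 27), (136, 15), (520, 27), (524416, 30), (8704, 30)])]),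
    ([(23, 22), (19, 21)], [([(23, 22), (19, 21)], false, [(0, 0)]), ([(23, 22), (21, 21)], false, [(2, 3), (8, 9), (128, 6), (512, 18), (8192, 12), (524288, 24)]), ([(23, 22), (23, 21)], false, [(8194, 15), (524290, 27), (136, 15), (520, 27), (524416, 30), (8704, 30)])])),
  (4, 532744, [false, false, false, true, false], ([(21, 24), (21, 23), (21, 22), (21, 21)], [([(21, 24), (21, 23), (21, 22), (21, 21)], false, [(0, 0)]), ([(21, 24), (21, 23), (21, 22), (21, 21)], true, [(8, 9), (256, 10), (8192, 12), (524288, 24)])]),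
    ([(24, 21)], [([(24, 21)], false, [(0, 0)]), ([(24, 21)], false, [(8, 9), (256, 10), (8192, 12), (524288, 24)])])),
  (3, 25350, [false, true, true, false, false], ([(22, 23), (20, 22), (20, 21)], [([(22, 23), (20, 22), (20, 21)], false, [(0, 0)]), ([(22, 23), (22, 22), (22, 21)], false, [(2, 3), (4, 5), (256, 10), (512, 18), (8192, 12), (16384, 20)]), ([(22, 23), (22, 22), (22, 21)], true, [(8194, 15), (16386, 23), (260, 15), (516, 23), (16640, 30), (8704, 30)])]),
    ([(23, 22), (19, 21)], [([(23, 22), (19, 21)], false, [(0, 0)]), ([(23, 22), (21, 21)], false, [(2, 3), (4, 5), (256, 10), (512, 18), (8192, 12), (16384, 20)]), ([(23, 22), (23, 21)], false, [(8194, 15), (16386, 23), (260, 15), (516, 23), (16640, 30), (8704, 30)])])),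
  (2, 24708, [false, false, true, false, false], ([(21, 24), (21, 23), (21, 22), (21, 21)], [([(21, 24), (21, 23), (21, 22), (21, 21)], false, [(0, 0)]), ([(21, 24), (21, 23), (21, 22), (21, 21)], true, [(4, 5), (128, 6), (8192, 12), (16384, 20)])]),
    ([(24, 21)], [([(24, 21)], false, [(0, 0)]), ([(24, 21)], false, [(4, 5), (128, 6), (8192, 12), (16384, 20)])])),
  (1, 898, [false, true, false, false, false], ([(21, 24), (21, 23), (21, 22), (21, 21)], [([(21, 24), (21, 23), (21, 22), (21, 21)], false, [(0, 0)]), ([(21, 24), (21, 23), (21, 22), (21, 21)], true, [(2, 3), (128, 6), (256, 10), (512, 18)])]),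
    ([(24, 21)], [([(24, 21)], false, [(0, 0)]), ([(24, 21)], false, [(2, 3), (128, 6), (256, 10), (512, 18)])])),
  (0, 0, [false, false, false, false, false], ([(0, 0)], [([(0, 0)], true, [(0, 0)])]),
    ([(0, 0)], [([(0, 0)], false, [(0, 0)])]))]

theorem Tu5_ok : tabK cu5 5 31 549790 Tu5 = true := by
  decide +kernel

end Kn

end Pool.Agent.Work.MP_bf01b2_co.MR
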