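import Pool.Agent.Work.MP_bf01b2_co.MR.Ku4

set_option autoImplicit false

namespace Pool.Agent.Work.MP_bf01b2_co.MR

namespace Kn

theorem v4a : avR 3 39 10 27 (fullChk cu4 2 15 2254 Tu4) = true := by decide +kernel

end Kn

end Pool.Agent.Work.MP_bf01b2_co.MR
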