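import Pool.Agent.Work.MP_bf01b2_co.MR.Ku5

set_option autoImplicit false

namespace Pool.Agent.Work.MP_bf01b2_co.MR

namespace Kn

theorem v5a : avR 4 35 7 4 (fullChk cu5 2 31 549790 Tu5) = true := by decide +kernel
theorem v5b : avR 4 35 11 3 (fullChk cu5 2 31 549790 Tu5) = true := by decide +kernel
theorem v5c : avR 4 35 14 5 (fullChk cu5 2 31 549790 Tu5) = true := by decide +kernel
theorem v5d : avR 4 35 19 13 (fullChk cu5 2 31 549790 Tu5) = true := by decide +kernel

end Kn

end Pool.Agent.Work.MP_bf01b2_co.MR
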