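import Pool.Agent.Work.MP_bf01b2_co.MR.Level2

/-!
# Marks recursion: the level lemma in copy mode, for hole free cores

All soft positions of the second side are copied; the cuttings are given for the trees without any
holes (`core0`), by the relation `Cuts`.
-/

set_option autoImplicit false

namespace Pool.Agent.Work.MP_bf01b2_co.MR

/-- the tree without holes -/
def core0 {V : Type*} (U : LRT V) : HT := U.tree.core fun _ => false

theorem core0_holes {V : Type*} (U : LRT V) : (core0 U).holes = 0 := LT.core_false_holes _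

theorem core0_size {V : Type*} (U : LRT V) : (core0 U).size = U.size := by
  unfold core0
  rw [LT.core_size]
  rfl

/-- the root has no hole child -/
def HT.noCh : HT → Prop
  | .node l r => l ≠ .hole ∧ r ≠ .hole
  | _ => True

theorem LT.core_congr {V : Type*} {R R' : Finset V → Bool} : ∀ {t : LT V},
    (∀ F ∈ t.labs, R F = R' F) → t.core R = t.core R'
  | .nil, _ => rfl
  | .hole F, h => by
    unfold LT.core
    rw [h F (by simp [LT.labs])]
  | .node l r, h => by
    simp only [LT.core]
    rw [LT.core_congr (t := l) fun F hF => h F (by simp [LT.labs, hF]),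
      LT.core_congr (t := r) fun F hF => h F (by simp [LT.labs, hF])]

/-- cuttings of the trees without holes -/
theorem FCutQ.of_cuts {m : ℕ} {Q : HT → Prop} {j : Fin (m + 1)} {b : Bool}
    {K Z : Finset (Fin (m + 1) → Bool)} :
    ∀ {Us : List (LRT (Fin (m + 1) → Bool))} {Cs : List (HT × List HT)},
      (∀ U ∈ Us, ∀ F ∈ U.labs, ∀ y ∈ F, y j = (!b) → y ∈ K) →
      List.Forall₂ (fun U (c : HT × List HT) => Cuts (core0 U) c.1 c.2 ∧ c.1.ok ∧ c.1 ≠ .hole ∧
        (flip j U.pos ∈ Z ∪ K → c.1.noCh) ∧ Q c.1) Us Cs →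
      FCutQ Q (Us.map (cdatK j b K Z)) (Cs.map fun c => c.1.size) (Cs.flatMap Prod.snd)
  | [], [], _, _ => .nil
  | U :: Us, (t', ps) :: Cs, hK, h => by
    rw [List.forall₂_cons] at h
    obtain ⟨⟨h1, h2, h3, h4, h5⟩, h6⟩ := h
    have ih := FCutQ.of_cuts (fun W hW => hK W (List.mem_cons_of_mem _ hW)) h6
    simp only at h1 h2 h3 h4 h5
    have e0 : core0 U = .node (U.l.core fun _ => false) (U.r.core fun _ => false) := rfl
    rw [e0] at h1
    have hU := hK U List.mem_cons_self
    have el : U.l.core (relK j b K) = U.l.core fun _ => false :=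
      LT.core_congr fun F hF => relK_false (hU F (by simp [LRT.labs, hF]))
    have er : U.r.core (relK j b K) = U.r.core fun _ => false :=
      LT.core_congr fun F hF => relK_false (hU F (by simp [LRT.labs, hF]))
    cases h1 with
    | cut => exact absurd rfl h3
    | @node _ _ l' r' ps qs a1 a2 =>
      rw [List.map_cons, List.map_cons, List.flatMap_cons]
      unfold cdatK
      rw [el, er]
      refine .cons (a1.toR (LT.core_false_holes _)) (a2.toR (LT.core_false_holes _)) h2 ?_ h5 ih
      intro hρ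
      exact h4 (by simpa using hρ)

/-- **The level lemma in copy mode.** The forest is clean (labels disjoint from the roots). `Cs` = cut
trees and pieces of the trees of the first side; a root of the first side whose partner is a root or
a soft position of the second side loses no child. -/
theorem levelC {m : ℕ} {Q : HT → Prop} (j : Fin (m + 1)) (b : Bool)
    {TX TH TY : List (LRT (Fin (m + 1) → Bool))}
    (hnd : ((TX ++ (TH ++ TY)).map LRT.pos).Nodup)
    (hok : ∀ T ∈ TX ++ (TH ++ TY), RootOK T)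
    (hpth : ∀ T ∈ TX ++ (TH ++ TY), T.tree.pth)
    (hclean : ∀ T ∈ TX ++ (TH ++ TY), ∀ F ∈ T.labs, Disjoint F (poss (TX ++ (TH ++ TY))))
    (hTX : ∀ T ∈ TX, T.pos j = b) (hTH : ∀ T ∈ TH, T.pos j = !b)
    (hTHl : ∀ T ∈ TH, ∃ x y, T.l = .node x y)
    (hTHr : ∀ T ∈ TH, RootOK (hopT (flip j T.pos) T))
    (hTHm : ∀ T ∈ TH, flip j T.pos ∉ poss TX)
    (hTY : ∀ T ∈ TY, T.pos j = !b) {Cs : List (HT × List HT)}
    (hcut : List.Forall₂ (fun U (c : HT × List HT) => Cuts (core0 U) c.1 c.2 ∧ c.1.ok ∧
      c.1 ≠ .hole ∧ (flip j U.pos ∈ poss TH ∪ poss TY ∪ softs (TX ++ (TH ++ TY)) → c.1.noCh) ∧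
        Q c.1) (TX ++ TH.map (fun T => hopT (flip j T.pos) T)) Cs)
    {dX dY new s : ℕ}
    (hdX : ((softs (TX ++ (TH ++ TY)) \ poss (TX ++ (TH ++ TY))).filter (fun x => x j = b)).card
      ≤ dX)
    (hdY : ((softs (TX ++ (TH ++ TY)) \ poss (TX ++ (TH ++ TY))).filter (fun x => x j = !b)).card
      ≤ dY)
    (hs : nspec (TX ++ (TH ++ TY)) ≤ s)
    (hnew : (poss TY \ ((poss TX).image (flip j) ∪ poss TH)).card + dY ≤ new)
    (hXY : ∀ a c, a + c ≤ s →
      (((Cs.flatMap Prod.snd = [] ∨ new = 0) ∧
          GdP m dX (if dX = 0 then 0 else a) (Cs.map fun c => c.1.size)) ∨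
        ((∀ h, Q h → h.pth) ∧ Cs.length + dX ≤ 2 ^ m ∧
          GdP m (if Cs.flatMap Prod.snd = [] then 0 else new)
            (if new = 0 then 0 else (Cs.flatMap Prod.snd).length)
            ((Cs.map fun c => c.1.size) ++ List.replicate dX 1)) ∨
        Gd m (dX + (if Cs.flatMap Prod.snd = [] then 0 else new))
          ((if dX = 0 then 0 else a) + (if new = 0 then 0 else (Cs.flatMap Prod.snd).length))
          (Cs.map fun c => c.1.size)) ∧
      GdP m dY (if dY = 0 then 0 else c)
        ((Cs.flatMap Prod.snd).map HT.size ++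
          (TH.map (fun T => (hopR T).size) ++ TY.map LRT.size))) :
    ∃ S, Emb (cadj (m + 1)) (TX ++ (TH ++ TY)) S := by
  obtain ⟨TT, hTT⟩ : ∃ TT, TT = TX ++ (TH ++ TY) := ⟨_, rfl⟩
  have hdisj : ∀ x ∈ softs TT, x ∉ poss TT := by
    intro x hx
    rw [hTT] at hx ⊢
    obtain ⟨T, hT, F, hF, hxF⟩ := mem_softs.1 hx
    exact Finset.disjoint_left.1 (hclean T hT F hF) hxF
  obtain ⟨K, hK⟩ : ∃ K, K = (softs TT \ poss TT).filter (fun x => x j = !b) := ⟨_, rfl⟩
  refine levelP j b K hnd hok hpth hTX hTH hTHl hTHr hTHm hTY (Q := Q)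
    (sz := Cs.map fun c => c.1.size) (us := Cs.flatMap Prod.snd)
    (FCutQ.of_cuts ?_ ?_) hdX hdY hs ?_ (by
      intro a c hac
      have h := hXY a c hac
      rwa [← List.length_map (f := fun c : HT × List HT => c.1.size) (as := Cs)] at h)
  · -- all labels of the first side are copied
    intro U hU F hF y hy hyb
    have h1 : y ∈ softs TT := by
      rw [hTT]
      rcases List.mem_append.1 hU with h | h
      · exact mem_softs.2 ⟨U, List.mem_append_left _ h, F, hF, hy⟩
      · obtain ⟨T, hT, rfl⟩ := List.mem_map.1 h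
        exact mem_softs.2 ⟨T, List.mem_append_right _ (List.mem_append_left _ hT), F,
          mem_hop_labs (hTHl T hT) hF, hy⟩
    rw [hK, Finset.mem_filter, Finset.mem_sdiff]
    exact ⟨⟨h1, hdisj y h1⟩, hyb⟩
  · refine hcut.imp fun U c hc => ⟨hc.1, hc.2.1, hc.2.2.1, fun h => hc.2.2.2.1 ?_, hc.2.2.2.2⟩
    rcases Finset.mem_union.1 h with h | h
    · exact Finset.mem_union_left _ h
    · apply Finset.mem_union_right
      rw [hK, Finset.mem_filter, Finset.mem_sdiff] at h
      rw [← hTT]
      exact h.1.1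
  · intro _
    refine le_trans ?_ hnew
    have h1 : ((poss TY ∪ K) \ ((poss TX).image (flip j) ∪ poss TH)) ⊆
        (poss TY \ ((poss TX).image (flip j) ∪ poss TH)) ∪ K := by
      intro x hx
      rw [Finset.mem_sdiff, Finset.mem_union] at hx
      rw [Finset.mem_union, Finset.mem_sdiff]
      rcases hx.1 with h | h
      · exact Or.inl ⟨h, hx.2⟩
      · exact Or.inr h
    refine (Finset.card_le_card h1).trans ((Finset.card_union_le _ _).trans ?_)
    refine Nat.add_le_add_left ?_ _
    rw [hK, hTT]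
    exact hdY

end Pool.Agent.Work.MP_bf01b2_co.MR
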