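import Pool.Agent.Work.MP_bf01b2_co.MR.OT

/-!
# One tree per soft position: the level lemma, structural form
-/

set_option autoImplicit false

namespace Pool.Agent.Work.MP_bf01b2_co.MR

section tree
variable {V : Type*}

/-- the labels of the holes directly below the root are emptied -/
def LT.z2 : LT V → LT V
  | .nil => .nil
  | .hole F => .hole F
  | .node l r => .node l.z r.z

theorem LRT.z_tree (T : LRT V) : T.z.tree = T.tree.z2 := rfl

theorem LT.mem_z2_labs {t : LT V} {F : Finset V} (h : F ∈ t.z2.labs) : F = ∅ ∨ F ∈ t.labs := by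
  cases t with
  | nil => exact Or.inr h
  | hole G => exact Or.inr h
  | node l r =>
    rcases List.mem_append.1 h with h1 | h1
    · rcases LT.mem_z_labs h1 with h2 | h2
      · exact Or.inl h2
      · exact Or.inr (List.mem_append_left _ h2)
    · rcases LT.mem_z_labs h1 with h2 | h2
      · exact Or.inl h2
      · exact Or.inr (List.mem_append_right _ h2)

/-- labels of the pieces -/
theorem LCut.piece_labs {nl : LT V → Finset V} {t t' : LT V} {L : List (LT V)}
    (h : LCut nl t t' L) : ∀ u ∈ pieces L, ∀ F ∈ u.labs, F ∈ t.labs := by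
  intro u hu F hF
  rw [h.graft.labs]
  exact List.mem_flatMap.2 ⟨u, mem_pieces hu, hF⟩

/-- At most one piece of a path tree has relevant labels. -/
theorem LCut.one {nl : LT V → Finset V} {t t' : LT V} {L : List (LT V)} (R : Finset V → Bool)
    (h : LCut nl t t' L) : (t.core R).pth → (pieces L).Pairwise fun u w =>
      (∀ F ∈ u.labs, R F = false) ∨ (∀ F ∈ w.labs, R F = false) := by
  induction h with
  | nil => intro _; simp [pieces]
  | hole F => intro _; simp [pieces]
  | cut l r => intro _; simp [pieces]
  | @node l r l' r' L M h1 h2 _ ih1 ih2 =>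
    intro ht
    have hp : (HT.node (l.core R) (r.core R)).pth := ht
    have hoff : ∀ {s s' : LT V} {N : List (LT V)}, LCut nl s s' N → (s.core R).off →
        ∀ u ∈ pieces N, ∀ F ∈ u.labs, R F = false := by
      intro s s' N hs ho u hu F hF
      rcases ho with ho | ho
      · cases hs with
        | nil => simp [pieces] at hu
        | hole G => simp [pieces] at hu
        | cut _ _ => simp [LT.core] at ho
        | node _ _ _ => simp [LT.core] at ho
      · rw [LT.core_holes, List.countP_eq_zero] at ho
        have := ho F (hs.piece_labs u hu F hF)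
        simpa using this
    rw [pieces_append, List.pairwise_append]
    refine ⟨ih1 hp.left, ih2 hp.right, ?_⟩
    intro u hu w hw
    rcases hp with hp | hp
    · exact Or.inl (hoff h1 hp.1 u hu)
    · exact Or.inr (hoff h2 hp.2 w hw)

end tree

section sf
variable {V : Type*} [DecidableEq V]

/-- the positions in the labels of a subtree -/
def LT.sf (t : LT V) : Finset V := t.labs.foldr (· ∪ ·) ∅

theorem LT.mem_sf {t : LT V} {x : V} : x ∈ t.sf ↔ ∃ F ∈ t.labs, x ∈ F := mem_foldr_union

/-- path condition for subtrees -/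
def pcL (pm : Bool) (t : LT V) : Prop :=
  if pm = true then (t.core nonE).pth else ∀ x, (t.core (hasL x)).pth

theorem pcT_iff {pm : Bool} {T : LRT V} : pcT pm T ↔ pcL pm T.tree := Iff.rfl

theorem pcL.has {pm : Bool} {t : LT V} (h : pcL pm t) (x : V) : (t.core (hasL x)).pth := by
  unfold pcL at h
  split_ifs at h
  · refine (LT.core_le fun F _ hF => ?_).pth h
    rw [hasL_iff] at hF
    unfold nonE
    rw [decide_eq_true_iff]
    exact Finset.ne_empty_of_mem hF
  · exact h x

/-- per tree data of a cutting: the cut tree, the entries of the left and of the right subtree -/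
def C1 (nl : LT V → Finset V) (U : LRT V) (c : LRT V × List (LT V) × List (LT V)) : Prop :=
  c.1.pos = U.pos ∧ LCut nl U.l c.1.l c.2.1 ∧ LCut nl U.r c.1.r c.2.2 ∧
    ¬ ((∃ x y, c.2.1 = [.node x y] ∧ ∃ F, c.1.l = .hole F) ∧
        (∃ x y, c.2.2 = [.node x y] ∧ ∃ F, c.1.r = .hole F))

/-- the pieces of one tree -/
def pcs (c : LRT V × List (LT V) × List (LT V)) : List (LT V) := pieces c.2.1 ++ pieces c.2.2

omit [DecidableEq V] in
theorem C1.lcut {nl : LT V → Finset V} {U : LRT V} {c : LRT V × List (LT V) × List (LT V)}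
    (h : C1 nl U c) : LCut nl U.tree c.1.tree (c.2.1 ++ c.2.2) := .node h.2.1 h.2.2.1 h.2.2.2

omit [DecidableEq V] in
theorem C1.piece_labs {nl : LT V → Finset V} {U : LRT V} {c : LRT V × List (LT V) × List (LT V)}
    (h : C1 nl U c) {u : LT V} (hu : u ∈ pcs c) {F : Finset V} (hF : F ∈ u.labs) : F ∈ U.labs := by
  refine h.lcut.piece_labs u ?_ F hF
  rw [pieces_append]
  exact hu

theorem C1.piece_pc {nl : LT V → Finset V} {U : LRT V} {c : LRT V × List (LT V) × List (LT V)}
    {pm : Bool} (h : C1 nl U c) (hU : pcT pm U) {u : LT V} (hu : u ∈ pcs c) : pcL pm u := by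
  have hu' : u ∈ pieces (c.2.1 ++ c.2.2) := by rw [pieces_append]; exact hu
  rw [pcT_iff] at hU
  unfold pcL at hU ⊢
  split_ifs at hU ⊢
  · exact h.lcut.pth _ hU u hu'
  · exact fun x => h.lcut.pth _ (hU x) u hu'

theorem C1.piece_disj {nl : LT V → Finset V} {U : LRT V} {c : LRT V × List (LT V) × List (LT V)}
    {pm : Bool} (h : C1 nl U c) (hU : pcT pm U) :
    (pcs c).Pairwise fun u w => Disjoint u.sf w.sf := by
  have key : ∀ x : V, (pcs c).Pairwise fun u w => x ∉ u.sf ∨ x ∉ w.sf := by
    intro x
    have h1 := h.lcut.one (hasL x) ((pcT_iff.1 hU).has x)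
    rw [pieces_append] at h1
    refine h1.imp fun {u w} hh => ?_
    rcases hh with hh | hh
    · left
      intro hx
      obtain ⟨F, hF, hxF⟩ := LT.mem_sf.1 hx
      exact hasL_false.1 (hh F hF) hxF
    · right
      intro hx
      obtain ⟨F, hF, hxF⟩ := LT.mem_sf.1 hx
      exact hasL_false.1 (hh F hF) hxF
  have h2 : (pcs c).Pairwise fun u w => ∀ x, x ∉ u.sf ∨ x ∉ w.sf := by
    rw [List.pairwise_iff_getElem]
    intro i j hi hj hij x
    exact (List.pairwise_iff_getElem.1 (key x)) i j hi hj hij
  refine h2.imp fun {u w} hh => ?_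
  rw [Finset.disjoint_left]
  intro x hx hx'
  rcases hh x with h3 | h3
  · exact h3 hx
  · exact h3 hx'

omit [DecidableEq V] in
theorem C1.fcut {nl : LT V → Finset V} : ∀ {Us : List (LRT V)}
    {Cs : List (LRT V × List (LT V) × List (LT V))}, List.Forall₂ (C1 nl) Us Cs →
    LFCut nl Us (Cs.map fun c => c.1) (Cs.flatMap fun c => c.2.1 ++ c.2.2)
  | [], [], .nil => .nil
  | _ :: _, _ :: _, .cons h1 h2 => by
    rw [List.map_cons, List.flatMap_cons]
    exact .cons h1.1 h1.lcut (C1.fcut h2)

omit [DecidableEq V] in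
theorem pieces_flatMap : ∀ Cs : List (LRT V × List (LT V) × List (LT V)),
    pieces (Cs.flatMap fun c => c.2.1 ++ c.2.2) = Cs.flatMap pcs
  | [] => rfl
  | c :: Cs => by
    rw [List.flatMap_cons, pieces_append, pieces_append, pieces_flatMap Cs, List.flatMap_cons]
    rfl

theorem pairwise_of_forall₂ {α β : Type*} {R : α → β → Prop} {S : α → α → Prop}
    {S' : β → β → Prop} (hRS : ∀ a b a' b', R a b → R a' b' → S a a' → S' b b') :
    ∀ {l : List α} {l' : List β}, List.Forall₂ R l l' → l.Pairwise S → l'.Pairwise S'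
  | [], [], .nil, _ => .nil
  | a :: l, b :: l', .cons h1 h2, h => by
    rw [List.pairwise_cons] at h ⊢
    refine ⟨fun b' hb' => ?_, pairwise_of_forall₂ hRS h2 h.2⟩
    obtain ⟨a', ha', hab⟩ : ∃ a' ∈ l, R a' b' := by
      clear h
      induction h2 with
      | nil => simp at hb'
      | cons h3 _ ih =>
        rcases List.mem_cons.1 hb' with rfl | hb'
        · exact ⟨_, List.mem_cons_self, h3⟩
        · obtain ⟨a', h4, h5⟩ := ih hb'
          exact ⟨a', List.mem_cons_of_mem _ h4, h5⟩
    exact hRS _ _ _ _ h1 hab (h.1 a' ha')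

theorem forall₂_mem_right {α β : Type*} {R : α → β → Prop} {l : List α} {l' : List β}
    (h : List.Forall₂ R l l') {b : β} (hb : b ∈ l') : ∃ a ∈ l, R a b := by
  induction h with
  | nil => simp at hb
  | cons h3 _ ih =>
    rcases List.mem_cons.1 hb with rfl | hb
    · exact ⟨_, List.mem_cons_self, h3⟩
    · obtain ⟨a', h4, h5⟩ := ih hb
      exact ⟨a', List.mem_cons_of_mem _ h4, h5⟩

theorem hop_sfs {v : V} {T : LRT V} (h : ∃ x y, T.l = .node x y) : sfs (hopT v T) = T.l.sf := by
  obtain ⟨x, y, hxy⟩ := h
  ext z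
  rw [mem_sfs, LT.mem_sf]
  unfold hopT LRT.labs
  simp only [hxy, LT.labs]

theorem hopR_sfs (T : LRT V) : sfs (hopR T) = T.r.sf := by
  ext z
  rw [mem_sfs, LT.mem_sf]
  simp [hopR, LRT.labs, LT.labs]

theorem lsf_sub {T : LRT V} : T.l.sf ⊆ sfs T := by
  intro x hx
  obtain ⟨F, hF, hxF⟩ := LT.mem_sf.1 hx
  exact mem_sfs.2 ⟨F, List.mem_append_left _ hF, hxF⟩

theorem rsf_sub {T : LRT V} : T.r.sf ⊆ sfs T := by
  intro x hx
  obtain ⟨F, hF, hxF⟩ := LT.mem_sf.1 hx
  exact mem_sfs.2 ⟨F, List.mem_append_right _ hF, hxF⟩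

/-- the two parts of a hopping tree have different soft positions -/
theorem hop_disj {pm : Bool} {T : LRT V} (h : ∃ x y, T.l = .node x y) (hz : T.zz)
    (hp : pcT pm T) : Disjoint T.l.sf T.r.sf := by
  rw [Finset.disjoint_left]
  intro x hx hx'
  obtain ⟨a, b, hab⟩ := h
  obtain ⟨F, hF, hxF⟩ := LT.mem_sf.1 hx
  obtain ⟨G, hG, hxG⟩ := LT.mem_sf.1 hx'
  have h1 : (HT.node (T.l.core (hasL x)) (T.r.core (hasL x))).pth := (pcT_iff.1 hp).has x
  have key : ∀ (t : LT V) (F : Finset V), F ∈ t.labs → x ∈ F → (t.core (hasL x)).off →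
      ∃ G, t = .hole G := by
    intro t F hF hxF ho
    rcases ho with ho | ho
    · cases t with
      | nil => simp [LT.core] at ho
      | hole G => exact ⟨G, rfl⟩
      | node _ _ => simp [LT.core] at ho
    · rw [LT.core_holes, List.countP_eq_zero] at ho
      exact absurd (hasL_iff.2 hxF) (ho F hF)
  rcases h1 with h1 | h1
  · obtain ⟨G', hG'⟩ := key _ F hF hxF h1.1
    rw [hab] at hG'
    simp at hG'
  · obtain ⟨G', hG'⟩ := key _ G hG hxG h1.2
    have h2 := hz.2
    rw [hG'] at h2 hG
    simp only [LT.labs, List.mem_singleton] at hG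
    have h3 : G' = ∅ := h2
    rw [hG, h3] at hxG
    exact absurd hxG (Finset.notMem_empty x)

end sf

section level
variable {m : ℕ}

theorem pcL_res {pm : Bool} {j : Fin (m + 1)} {c : Bool} {P : Finset (Fin m → Bool)}
    {W : LRT (Fin (m + 1) → Bool)} (h : pcT pm W) : pcT pm (cln P (resT j c W)) := by
  have hg : ∀ (R : Finset (Fin m → Bool) → Bool) (R' : Finset (Fin (m + 1) → Bool) → Bool),
      R ∅ = false → (∀ F, R ((resL j c F) \ P) = true → R' F = true) → PT R' W →
      PT R (cln P (resT j c W)) := by
    intro R R' hR hRR hW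
    unfold cln
    refine PT.z hR ?_
    unfold PT
    have h7 : (stripT P (resT j c W)).tree =
      (W.tree.mapL (resL j c)).mapL (fun F => F \ P) := rfl
    rw [h7, LT.core_mapL, LT.core_mapL]
    exact (LT.core_le fun F _ hF => hRR F hF).pth hW
  unfold pcT at h ⊢
  split_ifs at h ⊢
  · refine hg _ _ (by simp [nonE]) (fun F hF => ?_) h
    unfold nonE at hF ⊢
    rw [decide_eq_true_iff] at hF ⊢
    rintro rfl
    rw [resL_empty] at hF
    simp at hF
  · intro x
    refine hg _ (hasL (ins j c x)) (by simp [hasL]) (fun F hF => ?_) (h _)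
    rw [hasL_iff] at hF ⊢
    exact mem_resL.1 (Finset.mem_sdiff.1 hF).1

theorem resT_labs {j : Fin (m + 1)} {c : Bool} (W : LRT (Fin (m + 1) → Bool)) :
    (resT j c W).labs = W.labs.map (resL j c) := by
  unfold resT LRT.labs
  simp only [LRT.mapL, LT.mapL_labs, List.map_append]

theorem resT_z_labs {j : Fin (m + 1)} {c : Bool} (W : LRT (Fin (m + 1) → Bool)) :
    (resT j c W).z.labs = W.z.labs.map (resL j c) := by
  have key : ∀ t : LT (Fin (m + 1) → Bool), (t.mapL (resL j c)).z.labs = t.z.labs.map (resL j c) := by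
    intro t
    cases t with
    | nil => rfl
    | hole F =>
      simp only [LT.mapL, LT.z, LT.labs, List.map_cons, List.map_nil]
      rw [resL_empty]
    | node l r =>
      have e1 : (LT.node l r).z.labs = (LT.node l r).labs := rfl
      rw [e1, ← LT.mapL_labs]
      rfl
  have e1 : (resT j c W).z.labs = (W.l.mapL (resL j c)).z.labs ++ (W.r.mapL (resL j c)).z.labs := rfl
  rw [e1, key, key, ← List.map_append]
  rfl

/-- the profile of a subtree on the side `c`: size, soft positions, special holes -/
def prP (j : Fin (m + 1)) (c : Bool) (t : LT (Fin (m + 1) → Bool)) : ℕ × ℕ × ℕ :=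
  (t.size, (resL j c t.z2.sf).card, t.z2.labs.countP (fun F => decide (resL j c F ≠ ∅)))

theorem res_sfs_sub {j : Fin (m + 1)} {c : Bool} {P : Finset (Fin m → Bool)}
    (W : LRT (Fin (m + 1) → Bool)) : sfs (cln P (resT j c W)) ⊆ resL j c W.tree.z2.sf := by
  rw [sfs_cln]
  intro x hx
  obtain ⟨F, hF, hxF⟩ := mem_sfs.1 (Finset.mem_sdiff.1 hx).1
  rw [resT_z_labs] at hF
  obtain ⟨G, hG, rfl⟩ := List.mem_map.1 hF
  exact mem_resL.2 (LT.mem_sf.2 ⟨G, hG, mem_resL.1 hxF⟩)

theorem res_nsp_le {j : Fin (m + 1)} {c : Bool} {P : Finset (Fin m → Bool)}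
    (W : LRT (Fin (m + 1) → Bool)) :
    nsp (cln P (resT j c W)) ≤ W.tree.z2.labs.countP (fun F => decide (resL j c F ≠ ∅)) := by
  rw [nsp_cln, resT_z_labs, List.countP_map]
  refine List.countP_mono_left fun F _ hF => ?_
  simp only [Function.comp, decide_eq_true_eq] at hF ⊢
  intro h
  rw [h] at hF
  exact hF (Finset.empty_subset _)

theorem resL_mono {j : Fin (m + 1)} {c : Bool} {F G : Finset (Fin (m + 1) → Bool)} (h : F ⊆ G) :
    resL j c F ⊆ resL j c G := by
  intro x hx
  exact mem_resL.2 (h (mem_resL.1 hx))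

theorem resL_disj {j : Fin (m + 1)} {c : Bool} {F G : Finset (Fin (m + 1) → Bool)}
    (h : Disjoint F G) : Disjoint (resL j c F) (resL j c G) := by
  rw [Finset.disjoint_left]
  intro x hx hx'
  exact Finset.disjoint_left.1 h (mem_resL.1 hx) (mem_resL.1 hx')

theorem z2_sf_sub {V : Type*} [DecidableEq V] (t : LT V) : t.z2.sf ⊆ t.sf := by
  intro x hx
  obtain ⟨F, hF, hxF⟩ := LT.mem_sf.1 hx
  rcases LT.mem_z2_labs hF with rfl | h
  · exact absurd hxF (Finset.notMem_empty x)
  · exact LT.mem_sf.2 ⟨F, h, hxF⟩

/-- **The level lemma, structural form.** -/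
theorem levelT {pm : Bool} (j : Fin (m + 1)) (b : Bool)
    {TX TH TY : List (LRT (Fin (m + 1) → Bool))}
    (hnd : ((TX ++ (TH ++ TY)).map LRT.pos).Nodup)
    (hzz : ∀ T ∈ TX ++ (TH ++ TY), T.zz)
    (hot : (TX ++ (TH ++ TY)).Pairwise (fun T U => Disjoint (sfs T) (sfs U)))
    (hpc : ∀ T ∈ TX ++ (TH ++ TY), pcT pm T)
    (hTX : ∀ T ∈ TX, T.pos j = b) (hTH : ∀ T ∈ TH, T.pos j = !b)
    (hTHl : ∀ T ∈ TH, ∃ x y, T.l = .node x y)
    (hTHm : ∀ T ∈ TH, flip j T.pos ∉ poss TX)
    (hTY : ∀ T ∈ TY, T.pos j = !b)
    {Cs : List (LRT (Fin (m + 1) → Bool) × List (LT (Fin (m + 1) → Bool)) ×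
      List (LT (Fin (m + 1) → Bool)))}
    (hC : List.Forall₂ (C1 (nlab j (TH.map hopR ++ TY)))
      (TX ++ TH.map (fun T => hopT (flip j T.pos) T)) Cs)
    (hCok : ∀ c ∈ Cs, RootOK c.1)
    (H : Finset (Fin m → Bool)) {P : Finset (Fin m → Bool)}
    (hHA : Disjoint H (resL j b (poss TX))) (hHh : Disjoint H (resL j (!b) (poss TH)))
    (hP : P = (resL j b (poss TX) ∪ resL j (!b) (poss TH)) ∪ H)
    (hotX : Cs.Pairwise (fun c d =>
      Disjoint (sfs (cln P (resT j b c.1))) (sfs (cln P (resT j b d.1)))))
    (hpcX : ∀ c ∈ Cs, pcT pm (cln P (resT j b c.1)))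
    (gX : GdT m pm (Cs.map (fun c => (c.1.size, (sfs (cln P (resT j b c.1))).card,
      nsp (cln P (resT j b c.1)))) ++ List.replicate H.card (1, 0, 0)))
    (gY : GdT m pm ((Cs.flatMap pcs).map (prP j (!b)) ++
      (TH.map (fun T => prP j (!b) (hopR T).tree) ++ TY.map (fun T => prP j (!b) T.tree)))) :
    ∃ S, Emb (cadj (m + 1)) (TX ++ (TH ++ TY)) S := by
  have hpos : Cs.map (fun c => c.1.pos) =
      (TX ++ TH.map (fun T => hopT (flip j T.pos) T)).map LRT.pos := by
    have := (C1.fcut hC).poss
    rw [List.map_map] at this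
    exact this
  have hhpos : ∀ T ∈ TH, (hopT (flip j T.pos) T).pos = flip j T.pos := by
    intro T hT
    obtain ⟨x, y, hxy⟩ := hTHl T hT
    unfold hopT
    rw [hxy]
  have hCb : ∀ c ∈ Cs, c.1.pos j = b := by
    intro c hc
    have h1 : c.1.pos ∈ Cs.map (fun c => c.1.pos) := List.mem_map.2 ⟨c, hc, rfl⟩
    rw [hpos] at h1
    obtain ⟨U, hU, hUc⟩ := List.mem_map.1 h1
    rw [← hUc]
    rcases List.mem_append.1 hU with h | h
    · exact hTX U h
    · obtain ⟨T, hT, rfl⟩ := List.mem_map.1 h
      rw [hhpos T hT, flip_apply_self, hTH T hT, Bool.not_not]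
  have hCb' : ∀ U ∈ Cs.map (fun c => c.1), U.pos j = b := by
    intro U hU
    obtain ⟨c, hc, rfl⟩ := List.mem_map.1 hU
    exact hCb c hc
  have hflip : ∀ x : Fin m → Bool, flip j (ins j b x) = ins j (!b) x := by
    intro x
    have e1 : flip j (ins j b x) j = !b := by rw [flip_apply_self, ins_self]
    rw [← ins_del e1]
    congr 1
    funext i
    unfold del
    rw [flip_apply_of_ne (Fin.succAbove_ne j i), ins_succ]
  have hpossX : poss ((Cs.map fun c => c.1).map (resT j b)) =
      resL j b (poss TX) ∪ resL j (!b) (poss TH) := by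
    ext x
    rw [mem_poss_res hCb', Finset.mem_union, mem_resL, mem_resL]
    have e1 : ins j b x ∈ poss (Cs.map fun c => c.1) ↔
        ins j b x ∈ (TX ++ TH.map (fun T => hopT (flip j T.pos) T)).map LRT.pos := by
      rw [← hpos]
      unfold poss
      rw [List.mem_toFinset, List.map_map]
      rfl
    rw [e1, List.map_append, List.mem_append]
    refine or_congr ?_ ?_
    · unfold poss
      rw [List.mem_toFinset]
    · rw [mem_poss]
      constructor
      · intro h
        obtain ⟨U, hU, hUx⟩ := List.mem_map.1 h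
        obtain ⟨T, hT, rfl⟩ := List.mem_map.1 hU
        refine ⟨T, hT, ?_⟩
        rw [hhpos T hT] at hUx
        rw [← flip_flip j T.pos, hUx, hflip]
      · rintro ⟨T, hT, hTx⟩
        refine List.mem_map.2 ⟨_, List.mem_map_of_mem hT, ?_⟩
        rw [hhpos T hT, hTx, ← hflip, flip_flip]
  have hndU : ((TX ++ TH.map (fun T => hopT (flip j T.pos) T)).map LRT.pos).Nodup := by
    rw [List.map_append, List.map_map, List.nodup_append]
    rw [List.map_append, List.nodup_append, List.map_append, List.nodup_append] at hnd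
    have e1 : TH.map (LRT.pos ∘ fun T => hopT (flip j T.pos) T) =
        (TH.map LRT.pos).map (flip j) := by
      rw [List.map_map]
      refine List.map_congr_left fun T hT => ?_
      exact hhpos T hT
    refine ⟨hnd.1, ?_, ?_⟩
    · rw [e1]
      exact hnd.2.1.1.map (flip_injective j)
    · intro x hx y hy hxy
      subst hxy
      rw [e1] at hy
      obtain ⟨z, hz, rfl⟩ := List.mem_map.1 hy
      obtain ⟨T, hT, rfl⟩ := List.mem_map.1 hz
      apply hTHm T hT
      unfold poss
      exact List.mem_toFinset.2 hx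
  refine step_hop j b hTX hTH hTHl hTY (TX' := Cs.map fun c => c.1)
    (L := Cs.flatMap fun c => c.2.1 ++ c.2.2) (C1.fcut hC) ?_ ?_
  · -- first side
    refine gX.emb_harden H (P := P) ?_ ?_ ?_ ?_ ?_ ?_ ?_
    · rw [hpossX, Finset.disjoint_union_right]
      exact ⟨hHA, hHh⟩
    · rw [hpossX]
      exact hP
    · refine nodup_res hCb' ?_
      rw [List.map_map]
      have : Cs.map (LRT.pos ∘ fun c => c.1) = Cs.map (fun c => c.1.pos) := rfl
      rw [this, hpos]
      exact hndU
    · intro T hT
      obtain ⟨U, hU, rfl⟩ := List.mem_map.1 hT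
      obtain ⟨c, hc, rfl⟩ := List.mem_map.1 hU
      exact resT_ok (hCb c hc) (hCok c hc)
    · rw [List.map_map, List.forall₂_map_left_iff, List.forall₂_map_right_iff, List.forall₂_same]
      intro c _
      exact ⟨(resT_size c.1).le, le_rfl, le_rfl⟩
    · rw [List.map_map, List.pairwise_map]
      exact hotX
    · intro T hT
      obtain ⟨U, hU, rfl⟩ := List.mem_map.1 hT
      obtain ⟨c, hc, rfl⟩ := List.mem_map.1 hU
      exact hpcX c hc
  · -- second side
    intro Ps hP1 hP2 hP3
    rw [pieces_flatMap] at hP1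
    have hYb : ∀ T ∈ Ps ++ (TH.map hopR ++ TY), T.pos j = !b := by
      intro T hT
      rcases List.mem_append.1 hT with h | h
      · exact (hP3 T h).1
      · rcases List.mem_append.1 h with h | h
        · obtain ⟨W, hW, rfl⟩ := List.mem_map.1 h
          exact hTH W hW
        · exact hTY T h
    -- soft positions of the trees of the second side
    have hall : (Ps ++ (TH.map hopR ++ TY)).Pairwise (fun T U => Disjoint T.tree.sf U.tree.sf) := by
      have hsub : ∀ U ∈ TX ++ TH.map (fun T => hopT (flip j T.pos) T), ∃ T ∈ TX ++ TH,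
          sfs U ⊆ sfs T ∧ (T ∈ TH → sfs U = T.l.sf) := by
        intro U hU
        rcases List.mem_append.1 hU with h | h
        · refine ⟨U, List.mem_append_left _ h, Finset.Subset.refl _, fun h2 => ?_⟩
          exact absurd (hTX U h) (by rw [hTH U h2]; cases b <;> simp)
        · obtain ⟨T, hT, rfl⟩ := List.mem_map.1 h
          refine ⟨T, List.mem_append_right _ hT, ?_, fun _ => hop_sfs (hTHl T hT)⟩
          rw [hop_sfs (hTHl T hT)]
          exact lsf_sub
      have hUp : ∀ U ∈ TX ++ TH.map (fun T => hopT (flip j T.pos) T), pcT pm U := by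
        intro U hU
        rcases List.mem_append.1 hU with h | h
        · exact hpc U (List.mem_append_left _ h)
        · obtain ⟨T, hT, rfl⟩ := List.mem_map.1 h
          have h1 := hpc T (List.mem_append_right _ (List.mem_append_left _ hT))
          obtain ⟨x, y, hxy⟩ := hTHl T hT
          rw [pcT_iff] at h1 ⊢
          have h2 : (hopT (flip j T.pos) T).tree = T.l := by
            unfold hopT
            rw [hxy]
            rfl
          rw [h2]
          unfold pcL at h1 ⊢
          split_ifs at h1 ⊢
          · exact HT.pth.left (r := T.r.core nonE) h1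
          · exact fun z => HT.pth.left (r := T.r.core (hasL z)) (h1 z)
      have hUd : (TX ++ TH.map (fun T => hopT (flip j T.pos) T)).Pairwise
          (fun T U => Disjoint (sfs T) (sfs U)) := by
        rw [List.pairwise_append] at hot ⊢
        obtain ⟨o1, o2, o3⟩ := hot
        rw [List.pairwise_append] at o2
        refine ⟨o1, ?_, ?_⟩
        · rw [List.pairwise_map]
          refine List.Pairwise.imp_of_mem (fun {a c} ha hc h => ?_) o2.1
          rw [hop_sfs (hTHl a ha), hop_sfs (hTHl c hc)]
          exact (h.mono_left lsf_sub).mono_right lsf_sub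
        · intro T hT U hU
          obtain ⟨W, hW, rfl⟩ := List.mem_map.1 hU
          rw [hop_sfs (hTHl W hW)]
          exact (o3 T hT W (List.mem_append_left _ hW)).mono_right lsf_sub
      have hpd : (Cs.flatMap pcs).Pairwise (fun u w => Disjoint u.sf w.sf) := by
        rw [List.pairwise_flatMap]
        constructor
        · intro c hc
          obtain ⟨U, hU, hUc⟩ := forall₂_mem_right hC hc
          exact hUc.piece_disj (hUp U hU)
        · refine pairwise_of_forall₂ (fun U c U' c' h1 h2 h3 u hu w hw => ?_) hC hUd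
          refine (h3.mono_left ?_).mono_right ?_
          · intro x hx
            obtain ⟨F, hF, hxF⟩ := LT.mem_sf.1 hx
            exact mem_sfs.2 ⟨F, h1.piece_labs hu hF, hxF⟩
          · intro x hx
            obtain ⟨F, hF, hxF⟩ := LT.mem_sf.1 hx
            exact mem_sfs.2 ⟨F, h2.piece_labs hw hF, hxF⟩
      rw [List.pairwise_append]
      refine ⟨?_, ?_, ?_⟩
      · have h1 : (Ps.map LRT.tree).Pairwise (fun u w => Disjoint u.sf w.sf) := by
          rw [hP1]
          exact hpd
        rwa [List.pairwise_map] at h1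
      · rw [List.pairwise_append] at hot
        obtain ⟨-, o2, -⟩ := hot
        rw [List.pairwise_append] at o2 ⊢
        refine ⟨?_, o2.2.1, ?_⟩
        · rw [List.pairwise_map]
          refine o2.1.imp fun {a c} h => ?_
          have e1 : (hopR a).tree.sf = sfs (hopR a) := rfl
          have e2 : (hopR c).tree.sf = sfs (hopR c) := rfl
          rw [e1, e2, hopR_sfs, hopR_sfs]
          exact (h.mono_left rsf_sub).mono_right rsf_sub
        · intro T hT U hU
          obtain ⟨W, hW, rfl⟩ := List.mem_map.1 hT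
          have e1 : (hopR W).tree.sf = sfs (hopR W) := rfl
          rw [e1, hopR_sfs]
          exact (o2.2.2 W hW U hU).mono_left rsf_sub
      · intro T hT U hU
        have h1 : T.tree ∈ Cs.flatMap pcs := by
          rw [← hP1]
          exact List.mem_map_of_mem hT
        obtain ⟨c, hc, hTc⟩ := List.mem_flatMap.1 h1
        obtain ⟨W, hW, hWc⟩ := forall₂_mem_right hC hc
        have h2 : T.tree.sf ⊆ sfs W := by
          intro x hx
          obtain ⟨F, hF, hxF⟩ := LT.mem_sf.1 hx
          exact mem_sfs.2 ⟨F, hWc.piece_labs hTc hF, hxF⟩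
        refine Disjoint.mono_left h2 ?_
        obtain ⟨T0, hT0, s1, s2⟩ := hsub W hW
        have hdd : ∀ T1 ∈ TX ++ TH, ∀ U1 ∈ TH ++ TY, T1 ≠ U1 → Disjoint (sfs T1) (sfs U1) := by
          intro T1 h3 U1 h4 hne
          have hsym : ∀ a ∈ TX ++ (TH ++ TY), ∀ c ∈ TX ++ (TH ++ TY), a ≠ c →
              Disjoint (sfs a) (sfs c) := by
            intro a ha c hc hac
            have o1 : (TX ++ (TH ++ TY)).Pairwise (fun a c => a ≠ c → Disjoint (sfs a) (sfs c)) :=
              hot.imp fun {a c} (h : Disjoint (sfs a) (sfs c)) (_ : a ≠ c) => h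
            have o2 : (TX ++ (TH ++ TY)).Pairwise
                (_root_.flip fun a c => a ≠ c → Disjoint (sfs a) (sfs c)) :=
              hot.imp fun {a c} (h : Disjoint (sfs a) (sfs c)) (_ : c ≠ a) => h.symm
            exact List.Pairwise.forall_of_forall_of_flip (fun a _ h => absurd rfl h) o1 o2 ha hc hac
          refine hsym T1 ?_ U1 (List.mem_append_right _ h4) hne
          rcases List.mem_append.1 h3 with h3 | h3
          · exact List.mem_append_left _ h3
          · exact List.mem_append_right _ (List.mem_append_left _ h3)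
        rcases List.mem_append.1 hU with h3 | h3
        · obtain ⟨V0, hV0, rfl⟩ := List.mem_map.1 h3
          have e1 : (hopR V0).tree.sf = sfs (hopR V0) := rfl
          rw [e1, hopR_sfs]
          by_cases heq : T0 = V0
          · subst heq
            rw [s2 hV0]
            exact hop_disj (hTHl T0 hV0)
              (hzz T0 (List.mem_append_right _ (List.mem_append_left _ hV0)))
              (hpc T0 (List.mem_append_right _ (List.mem_append_left _ hV0)))
          · exact ((hdd T0 hT0 V0 (List.mem_append_left _ hV0) heq).mono_left s1).mono_right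
              rsf_sub
        · have e1 : U.tree.sf = sfs U := rfl
          rw [e1]
          refine Disjoint.mono_left s1 (hdd T0 hT0 U (List.mem_append_right _ h3) ?_)
          rintro rfl
          rcases List.mem_append.1 hT0 with h4 | h4
          · exact absurd (hTX T0 h4) (by rw [hTY T0 h3]; cases b <;> simp)
          · -- the same tree in `TH` and `TY`: positions are different
            rw [List.map_append, List.nodup_append, List.map_append, List.nodup_append] at hnd
            exact hnd.2.1.2.2 T0.pos (List.mem_map_of_mem h4) T0.pos (List.mem_map_of_mem h3) rfl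
    refine gY.emb (Ts := (Ps ++ (TH.map hopR ++ TY)).map (resT j (!b))) ?_ ?_ ?_ ?_ ?_
    · refine nodup_res hYb ?_
      rw [List.map_append, List.nodup_append]
      rw [List.map_append, List.nodup_append] at hnd
      have e1 : (TH.map hopR ++ TY).map LRT.pos = (TH ++ TY).map LRT.pos := by
        rw [List.map_append, List.map_append, List.map_map]
        rfl
      refine ⟨hP2, by rw [e1]; exact hnd.2.1, ?_⟩
      intro x hx y hy hxy
      subst hxy
      obtain ⟨P, hP, rfl⟩ := List.mem_map.1 hx
      obtain ⟨-, h1, h2, -⟩ := hP3 P hP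
      rw [e1, List.map_append, List.mem_append] at hy
      rcases hy with hy | hy
      · exact h1 (by unfold poss; exact List.mem_toFinset.2 hy)
      · exact h2 (by unfold poss; exact List.mem_toFinset.2 hy)
    · intro T hT
      obtain ⟨U, hU, rfl⟩ := List.mem_map.1 hT
      refine resT_ok (hYb U hU) ?_
      rcases List.mem_append.1 hU with h | h
      · exact (hP3 U h).2.2.2
      · rcases List.mem_append.1 h with h | h
        · obtain ⟨W, hW, rfl⟩ := List.mem_map.1 h
          exact ⟨by simp [hopR, LT.top],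
            (hzz W (List.mem_append_right _ (List.mem_append_left _ hW))).ok.2⟩
        · exact (hzz U (List.mem_append_right _ (List.mem_append_right _ h))).ok
    · have e1 : (Cs.flatMap pcs).map (prP j (!b)) = Ps.map (fun T => prP j (!b) T.tree) := by
        rw [← hP1, List.map_map]
        rfl
      have e2 : TH.map (fun T => prP j (!b) (hopR T).tree) =
          (TH.map hopR).map (fun T => prP j (!b) T.tree) := by
        rw [List.map_map]
        rfl
      rw [e1, e2, ← List.map_append, ← List.map_append, List.forall₂_map_left_iff,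
        List.forall₂_map_right_iff, List.forall₂_same]
      intro W _
      exact ⟨(resT_size W).le, Finset.card_le_card (res_sfs_sub W), res_nsp_le W⟩
    · rw [List.pairwise_map]
      refine hall.imp fun {T U} h => ?_
      refine ((resL_disj (j := j) (c := !b) h).mono_left ?_).mono_right ?_
      · exact (res_sfs_sub T).trans (resL_mono (z2_sf_sub _))
      · exact (res_sfs_sub U).trans (resL_mono (z2_sf_sub _))
    · intro T hT
      obtain ⟨W, hW, rfl⟩ := List.mem_map.1 hT
      refine pcL_res ?_
      rcases List.mem_append.1 hW with h | h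
      · have h1 : W.tree ∈ Cs.flatMap pcs := by
          rw [← hP1]
          exact List.mem_map_of_mem h
        obtain ⟨c, hc, hTc⟩ := List.mem_flatMap.1 h1
        obtain ⟨U, hU, hUc⟩ := forall₂_mem_right hC hc
        refine pcT_iff.2 (hUc.piece_pc ?_ hTc)
        rcases List.mem_append.1 hU with h | h
        · exact hpc U (List.mem_append_left _ h)
        · obtain ⟨T, hT, rfl⟩ := List.mem_map.1 h
          have h1 := hpc T (List.mem_append_right _ (List.mem_append_left _ hT))
          obtain ⟨x, y, hxy⟩ := hTHl T hT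
          rw [pcT_iff] at h1 ⊢
          have h2 : (hopT (flip j T.pos) T).tree = T.l := by
            unfold hopT
            rw [hxy]
            rfl
          rw [h2]
          unfold pcL at h1 ⊢
          split_ifs at h1 ⊢
          · exact HT.pth.left (r := T.r.core nonE) h1
          · exact fun z => HT.pth.left (r := T.r.core (hasL z)) (h1 z)
      · rcases List.mem_append.1 h with h | h
        · obtain ⟨T, hTH', rfl⟩ := List.mem_map.1 h
          have h1 := hpc T (List.mem_append_right _ (List.mem_append_left _ hTH'))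
          rw [pcT_iff] at h1 ⊢
          have h2 : ∀ R : Finset (Fin (m + 1) → Bool) → Bool, R ∅ = false →
              (HT.node (T.l.core R) (T.r.core R)).pth → ((hopR T).tree.core R).pth := by
            intro R hR h3
            have h4 : (hopR T).tree.core R = HT.node .nil (T.r.core R) := by
              simp [hopR, LRT.tree, LT.core, hR]
            rw [h4]
            exact Or.inl ⟨Or.inr rfl, h3.right⟩
          unfold pcL at h1 ⊢
          split_ifs at h1 ⊢
          · exact h2 _ (by simp [nonE]) h1
          · exact fun z => h2 _ (by simp [hasL]) (h1 z)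
        · exact hpc W (List.mem_append_right _ (List.mem_append_right _ h))

end level

end Pool.Agent.Work.MP_bf01b2_co.MR
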