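import Pool.Agent.Work.MP_bf01b2_co.MR.LevelO
import Pool.Agent.Work.MP_bf01b2_co.MR.LevelT

/-!
# Marks recursion: one tree is cut, the old soft positions of the first side are hardened

Then the first side is a state `GdT` where only the cut tree carries soft positions, its special
holes lie on one descending path.
-/

set_option autoImplicit false

namespace Pool.Agent.Work.MP_bf01b2_co.MR

/-- path condition of the first side from a condition on the restricted labels -/
theorem PT.cln_res {m : ℕ} {j : Fin (m + 1)} {c : Bool} {P : Finset (Fin m → Bool)}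
    {W : LRT (Fin (m + 1) → Bool)} (h : PT (fun F => decide (resL j c F \ P ≠ ∅)) W) :
    PT nonE (cln P (resT j c W)) := by
  unfold cln
  refine PT.z (by simp [nonE]) ?_
  unfold PT
  have h7 : (stripT P (resT j c W)).tree =
    (W.tree.mapL (resL j c)).mapL (fun F => F \ P) := rfl
  rw [h7, LT.core_mapL, LT.core_mapL]
  exact (LT.core_le fun F _ hF => hF).pth h

theorem nsp_cln_le {m : ℕ} {j : Fin (m + 1)} {c : Bool} {P : Finset (Fin m → Bool)}
    {W : LRT (Fin (m + 1) → Bool)} :
    nsp (cln P (resT j c W)) ≤ W.labs.countP (fun F => decide (¬ resL j c F ⊆ P)) := by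
  rw [nsp_cln]
  have e1 : (resT j c W).z.labs = (resT j c W).l.z.labs ++ (resT j c W).r.z.labs := rfl
  have e2 : W.labs.countP (fun F => decide (¬ resL j c F ⊆ P)) =
      (resT j c W).labs.countP (fun F => decide (¬ F ⊆ P)) := by
    rw [resT_labs, List.countP_map]
    rfl
  rw [e1, e2, List.countP_append]
  have e3 : (resT j c W).labs = (resT j c W).l.labs ++ (resT j c W).r.labs := rfl
  rw [e3, List.countP_append]
  exact Nat.add_le_add (LT.z_countP (by simp) _) (LT.z_countP (by simp) _)

theorem mem_sfs_cln_res {m : ℕ} {j : Fin (m + 1)} {c : Bool} {P : Finset (Fin m → Bool)}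
    {W : LRT (Fin (m + 1) → Bool)} {x : Fin m → Bool} (h : x ∈ sfs (cln P (resT j c W))) :
    x ∉ P ∧ ∃ F ∈ W.labs, ins j c x ∈ F := by
  constructor
  · rw [sfs_cln] at h
    exact (Finset.mem_sdiff.1 h).2
  · have h1 := mem_resL.1 (res_sfs_sub W h)
    obtain ⟨F, hF, hx⟩ := LT.mem_sf.1 (z2_sf_sub _ h1)
    exact ⟨F, hF, hx⟩

/-- **Level lemma, one tree is cut, the old soft positions of the first side are hardened.** -/
theorem levelM {m : ℕ} (j : Fin (m + 1)) (b : Bool)
    {W : LRT (Fin (m + 1) → Bool)} {TX TY : List (LRT (Fin (m + 1) → Bool))}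
    (O : Finset (Fin (m + 1) → Bool))
    (hnd : (((W :: TX) ++ TY).map LRT.pos).Nodup)
    (hok : ∀ T ∈ (W :: TX) ++ TY, RootOK T)
    (honp : ∀ T ∈ (W :: TX) ++ TY, ∀ x, T.tree.onp x)
    (hclean : ∀ T ∈ (W :: TX) ++ TY, ∀ F ∈ T.labs, Disjoint F (poss ((W :: TX) ++ TY)))
    (hTX : ∀ T ∈ W :: TX, T.pos j = b) (hTY : ∀ T ∈ TY, T.pos j = !b)
    {z : ℕ} {us : List HT}
    (hcut : FCutQ HT.pth [cdatK j b (O.filter (fun x => x j = !b)) (poss TY) W] [z] us)
    (hO : softs ((W :: TX) ++ TY) \ poss ((W :: TX) ++ TY) ⊆ O)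
    (hOd : Disjoint O (poss ((W :: TX) ++ TY)))
    {s : ℕ} (hs : nspec ((W :: TX) ++ TY) ≤ s)
    (gX : GdT m true (((z, (newM j b (W :: TX) [] TY O).card, us.length) ::
      TX.map (fun T => (T.size, 0, 0))) ++
      List.replicate (O.filter (fun x => x j = b)).card (1, 0, 0)))
    (gY : GdO m (O.filter (fun x => x j = !b)).card s (us.map HT.size ++ TY.map LRT.size)) :
    ∃ S, Emb (cadj (m + 1)) ((W :: TX) ++ TY) S := by
  classical
  obtain ⟨OY, hOY⟩ : ∃ OY, OY = O.filter (fun x => x j = !b) := ⟨_, rfl⟩
  obtain ⟨OX, hOX⟩ : ∃ OX, OX = O.filter (fun x => x j = b) := ⟨_, rfl⟩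
  rw [← hOX] at gX
  rw [← hOY] at hcut gY
  obtain ⟨TT, hTT⟩ : ∃ TT, TT = (W :: TX) ++ TY := ⟨_, rfl⟩
  rw [← hTT] at hO hs hclean honp hok hOd
  obtain ⟨Us', L0, c1, c2, c3, c4, c5, c6⟩ := FCutQ.lift j b OY (TY := TY) (Us := [W])
    (by
      intro U hU
      rw [List.mem_singleton] at hU
      exact hTX U (by rw [hU]; exact List.mem_cons_self))
    (by
      intro U hU
      rw [List.mem_singleton] at hU
      exact hok U (by rw [hU, hTT]; exact List.mem_append_left _ List.mem_cons_self)) hcut
  obtain ⟨W', rfl⟩ : ∃ W', Us' = [W'] := by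
    cases c1 with
    | cons _ _ h => cases h; exact ⟨_, rfl⟩
  have hWpos : W'.pos = W.pos := by
    cases c1 with
    | cons h _ _ => exact h
  have hlabs : W.labs = L0.flatMap LT.labs := by
    have := c1.graft.labs
    simpa using this
  obtain ⟨M, r1, r2⟩ := LFCut.refl (nlab j TY) TX
  have cc : LFCut (nlab j TY) (W :: TX) (W' :: TX) (L0 ++ M) := by
    have := c1.append r1
    simpa using this
  have hpc : pieces (L0 ++ M) = pieces L0 := by rw [pieces_append, r2, List.append_nil]
  -- soft positions
  have hsoft : ∀ T ∈ TT, ∀ F ∈ T.labs, ∀ x ∈ F, x ∈ O := by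
    intro T hT F hF x hxF
    refine hO (Finset.mem_sdiff.2 ⟨mem_softs.2 ⟨T, hT, F, hF, hxF⟩, ?_⟩)
    exact Finset.disjoint_left.1 (hclean T hT F hF) hxF
  have hlab0 : ∀ T ∈ TT, ∀ F ∈ T.labs, ∀ x, ins j b x ∈ F → ins j b x ∈ OX := by
    intro T hT F hF x hx
    have h1 := hsoft T hT F hF _ hx
    rw [hOX]
    exact Finset.mem_filter.2 ⟨h1, ins_self⟩
  have hWT : W ∈ TT := by rw [hTT]; exact List.mem_append_left _ List.mem_cons_self
  have hXT : ∀ T ∈ TX, T ∈ TT := by
    intro T hT
    rw [hTT]
    exact List.mem_append_left _ (List.mem_cons_of_mem _ hT)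
  have hYT : ∀ T ∈ TY, T ∈ TT := by
    intro T hT
    rw [hTT]
    exact List.mem_append_right _ hT
  have holds0 : ∀ F ∈ olds L0, F ∈ W.labs := fun F hF => by
    rw [hlabs]; exact mem_olds hF
  have hW'lab : ∀ F ∈ W'.labs, F ∈ W.labs ∨ ∃ u ∈ pieces L0, F = nlab j TY u := by
    intro F hF
    have h1 := mem_rel c1.rel F (by simpa using hF)
    rcases h1 with h1 | h1
    · exact Or.inl (holds0 F h1)
    · exact Or.inr h1
  have hXb : ∀ T ∈ W' :: TX, T.pos j = b := by
    intro T hT
    rcases List.mem_cons.1 hT with rfl | hT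
    · rw [hWpos]
      exact hTX W List.mem_cons_self
    · exact hTX T (List.mem_cons_of_mem _ hT)
  -- the hardened positions
  obtain ⟨H, hH⟩ : ∃ H : Finset (Fin m → Bool), H = OX.image (del j) := ⟨_, rfl⟩
  have hOXb : ∀ y ∈ OX, y j = b := by
    intro y hy
    rw [hOX, Finset.mem_filter] at hy
    exact hy.2
  have hmemH : ∀ x, x ∈ H ↔ ins j b x ∈ OX := by
    intro x
    rw [hH, Finset.mem_image]
    constructor
    · rintro ⟨y, hy, rfl⟩
      rwa [ins_del (hOXb y hy)]
    · intro h
      exact ⟨_, h, del_ins⟩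
  have hcardH : H.card = OX.card := by
    rw [hH]
    apply Finset.card_image_of_injOn
    intro x hx y hy hxy
    rw [← ins_del (hOXb x hx), ← ins_del (hOXb y hy), hxy]
  obtain ⟨P, hP⟩ : ∃ P, P = poss ((W' :: TX).map (resT j b)) ∪ H := ⟨_, rfl⟩
  have hmemF : ∀ x, x ∈ poss ((W' :: TX).map (resT j b)) ↔ ins j b x ∈ poss (W :: TX) := by
    intro x
    rw [mem_poss_res hXb]
    have : poss (W' :: TX) = poss (W :: TX) := by
      unfold poss
      rw [cc.poss]
    rw [this]
  have hmemP : ∀ x, x ∈ P ↔ ins j b x ∈ poss (W :: TX) ∨ ins j b x ∈ OX := by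
    intro x
    rw [hP, Finset.mem_union, hmemH, hmemF]
  have hres0 : ∀ T ∈ TT, ∀ F ∈ T.labs, resL j b F ⊆ P := by
    intro T hT F hF x hx
    rw [hmemP]
    exact Or.inr (hlab0 T hT F hF x (mem_resL.1 hx))
  have hcard : us.length = (pieces L0).length := by rw [← c2, List.length_map]
  have hother : ∀ T ∈ TX, sfs (cln P (resT j b T)) = ∅ := by
    intro T hT
    rw [Finset.eq_empty_iff_forall_notMem]
    intro x hx
    obtain ⟨hxP, F, hF, hxF⟩ := mem_sfs_cln_res hx
    exact hxP ((hmemP x).2 (Or.inr (hlab0 T (hXT T hT) F hF x hxF)))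
  refine step_hop j b (TX := W :: TX) (TH := []) (TY := TY) (TX' := W' :: TX) (L := L0 ++ M) hTX
    (by simp) (by simp) hTY (by simpa using cc) ?_ ?_
  · -- the first side
    refine GdT.emb_harden H (P := P) (v := (z, (newM j b (W :: TX) [] TY O).card, us.length) ::
      TX.map (fun T => (T.size, 0, 0))) (by rw [hcardH]; exact gX) ?_ hP ?_ ?_ ?_ ?_ ?_
    · rw [Finset.disjoint_left]
      intro x hx hx'
      have h1 := (hmemH x).1 hx
      rw [hOX, Finset.mem_filter] at h1
      refine Finset.disjoint_left.1 hOd h1.1 ?_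
      rw [hTT, poss_append]
      exact Finset.mem_union_left _ ((hmemF x).1 hx')
    · refine nodup_res hXb ?_
      rw [cc.poss]
      rw [List.map_append, List.nodup_append] at hnd
      exact hnd.1
    · intro T hT
      obtain ⟨U, hU, rfl⟩ := List.mem_map.1 hT
      refine resT_ok (hXb U hU) ?_
      rcases List.mem_cons.1 hU with rfl | hU
      · exact c5 _ (List.mem_singleton.2 rfl)
      · exact hok U (hXT U hU)
    · rw [List.map_cons]
      refine .cons ⟨?_, ?_, ?_⟩ ?_
      · rw [resT_size]
        have h1 : [W'.size] = [z] := c4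
        simp only [List.cons.injEq, and_true] at h1
        exact h1.le
      · rw [← Finset.card_map (ins j b)]
        refine le_trans (Finset.card_le_card (t := (newM j b (W :: TX) [] TY O).image (flip j)) ?_)
          Finset.card_image_le
        intro y hy
        obtain ⟨x, hx, rfl⟩ := Finset.mem_map.1 hy
        obtain ⟨hxP, F, hF, hxF⟩ := mem_sfs_cln_res hx
        rcases hW'lab F hF with h1 | ⟨u, hu, rfl⟩
        · exact absurd ((hmemP x).2 (Or.inr (hlab0 W hWT F h1 x hxF))) hxP
        · have h1 := nlab_sub (c3 u hu) ins_self hxF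
          obtain ⟨w, hw, hwx⟩ := Finset.mem_image.1 h1
          refine Finset.mem_image.2 ⟨w, ?_, hwx⟩
          unfold newM
          rw [Finset.mem_sdiff, ← hOY, ← hOX]
          refine ⟨hw, fun h => ?_⟩
          have e0 : poss ([] : List (LRT (Fin (m + 1) → Bool))) = ∅ := rfl
          rw [e0, Finset.union_empty] at h
          obtain ⟨v, hv, hvw⟩ := Finset.mem_image.1 h
          apply hxP
          rw [hmemP, ← hwx, ← hvw, flip_flip]
          exact Finset.mem_union.1 hv
      · refine nsp_cln_le.trans ?_
        have h1 := countP_rel (fun F => decide (¬ resL j b F ⊆ P)) c1.rel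
        have h2 : (olds L0).countP (fun F => decide (¬ resL j b F ⊆ P)) = 0 := by
          rw [List.countP_eq_zero]
          intro F hF
          rw [decide_eq_true_iff, not_not]
          exact hres0 W hWT F (holds0 F hF)
        rw [h2, ← hcard] at h1
        simpa using h1
      · rw [List.forall₂_map_left_iff, List.forall₂_map_right_iff, List.forall₂_same]
        intro T hT
        refine ⟨(resT_size T).le, ?_, ?_⟩
        · rw [hother T hT]
          simp
        · unfold nsp
          rw [Nat.le_zero, List.countP_eq_zero]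
          intro F hF
          rw [sfs_mem_of_pth (hother T hT) F hF]
          simp
    · rw [List.map_cons, List.pairwise_cons]
      constructor
      · intro U hU
        obtain ⟨T, hT, rfl⟩ := List.mem_map.1 hU
        rw [hother T hT]
        exact Finset.disjoint_empty_right _
      · rw [List.pairwise_map]
        refine List.Pairwise.imp_of_mem (R := fun _ _ => True) (fun {a c} ha _ _ => ?_)
          (List.pairwise_of_forall fun _ _ => trivial)
        rw [hother a ha]
        exact Finset.disjoint_empty_left _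
    · intro T hT
      obtain ⟨U, hU, rfl⟩ := List.mem_map.1 hT
      rcases List.mem_cons.1 hU with rfl | hU
      · obtain ⟨h', h1, h2⟩ := c6 U (List.mem_singleton.2 rfl)
        have h3 : PT (fun F => decide (resL j b F \ P ≠ ∅)) U := by
          refine (h2 _ fun F hF => ?_).pth h1
          have hF' : F ∈ W.labs := by simpa using hF
          rw [decide_eq_false_iff_not, not_not, Finset.sdiff_eq_empty_iff_subset]
          exact hres0 W hWT F hF'
        exact (PT.cln_res h3 : pcT true _)
      · exact pcT.clean (hother U hU)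
  · -- the second side
    intro Ps hP1 hP2 hP3
    rw [hpc] at hP1
    have hYb : ∀ T ∈ Ps ++ TY, T.pos j = !b := by
      intro T hT
      rcases List.mem_append.1 hT with h | h
      · exact (hP3 T h).1
      · exact hTY T h
    have hPlab : Ps.flatMap LRT.labs = (pieces L0).flatMap LT.labs := by
      rw [← hP1, List.flatMap_map]
      rfl
    have hPW : ∀ F ∈ (pieces L0).flatMap LT.labs, F ∈ W.labs := by
      intro F hF
      obtain ⟨u, hu, hFu⟩ := List.mem_flatMap.1 hF
      rw [hlabs]
      exact List.mem_flatMap.2 ⟨u, mem_pieces hu, hFu⟩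
    have hYlab : ∀ F ∈ (Ps ++ TY).flatMap LRT.labs, ∀ x ∈ F, x ∈ O := by
      intro F hF x hx
      rw [List.flatMap_append, List.mem_append, hPlab] at hF
      rcases hF with h | h
      · exact hsoft W hWT F (hPW F h) x hx
      · obtain ⟨T, hT, hFT⟩ := List.mem_flatMap.1 h
        exact hsoft T (hYT T hT) F hFT x hx
    have m5 : ((Ps ++ TY).map (resT j (!b))).flatMap LRT.labs =
        ((Ps ++ TY).flatMap LRT.labs).map (resL j (!b)) := by
      unfold resT
      rw [flatMap_mapL]
    have e0 : Ps ++ (([] : List (LRT (Fin (m + 1) → Bool))).map hopR ++ TY) = Ps ++ TY := by simp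
    rw [e0]
    refine gY.emb (Ts := (Ps ++ TY).map (resT j (!b))) ?_ ?_ ?_ ?_ ?_ ?_
    · refine nodup_res hYb ?_
      rw [List.map_append, List.nodup_append]
      rw [List.map_append, List.nodup_append] at hnd
      refine ⟨hP2, hnd.2.1, ?_⟩
      intro x hx y hy hxy
      subst hxy
      obtain ⟨Q, hQ, rfl⟩ := List.mem_map.1 hx
      obtain ⟨-, -, h2, -⟩ := hP3 Q hQ
      exact h2 (by unfold poss; exact List.mem_toFinset.2 hy)
    · intro T hT
      obtain ⟨U, hU, rfl⟩ := List.mem_map.1 hT
      refine resT_ok (hYb U hU) ?_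
      rcases List.mem_append.1 hU with h | h
      · exact (hP3 U h).2.2.2
      · exact hok U (hYT U h)
    · rw [List.forall₂_map_left_iff]
      refine forall₂_append' ?_ ?_
      · have e1 : us.map HT.size = Ps.map LRT.size := by
          rw [← c2, ← hP1, List.map_map, List.map_map]
          refine List.map_congr_left fun P _ => ?_
          simp only [Function.comp, LT.core_size]
          rfl
        rw [e1, List.forall₂_map_right_iff, List.forall₂_same]
        intro P _
        rw [resT_size]
      · rw [List.forall₂_map_right_iff, List.forall₂_same]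
        intro T _
        rw [resT_size]
    · rw [← Finset.card_map (ins j (!b))]
      refine Finset.card_le_card ?_
      intro y hy
      obtain ⟨x, hx, rfl⟩ := Finset.mem_map.1 hy
      rw [Finset.mem_sdiff] at hx
      have hx1 := hx.1
      unfold softs at hx1
      rw [m5] at hx1
      obtain ⟨F', hF', hxF⟩ := mem_foldr_union.1 hx1
      obtain ⟨F, hF, rfl⟩ := List.mem_map.1 hF'
      rw [hOY, Finset.mem_filter]
      exact ⟨hYlab F hF _ (mem_resL.1 hxF), ins_self⟩
    · unfold nspecO
      rw [m5, List.countP_map, List.flatMap_append, List.countP_append, hPlab]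
      have hne : ∀ (F : Finset (Fin (m + 1) → Bool)),
          ((fun F => decide (¬ F ⊆ poss ((Ps ++ TY).map (resT j (!b))))) ∘ resL j (!b)) F = true →
            decide (F ≠ ∅) = true := by
        intro F hF
        simp only [Function.comp] at hF
        rw [decide_eq_true_iff] at hF ⊢
        rintro rfl
        rw [resL_empty] at hF
        exact hF (Finset.empty_subset _)
      have h1 : ((pieces L0).flatMap LT.labs).countP ((fun F =>
          decide (¬ F ⊆ poss ((Ps ++ TY).map (resT j (!b))))) ∘ resL j (!b)) ≤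
          W.labs.countP (fun F => decide (F ≠ ∅)) := by
        have e1 := countP_split (fun F : Finset (Fin (m + 1) → Bool) => decide (F ≠ ∅)) L0
        rw [← hlabs] at e1
        have e2 := List.countP_mono_left (l := (pieces L0).flatMap LT.labs) (fun F _ hF => hne F hF)
        omega
      have h2 : (TY.flatMap LRT.labs).countP ((fun F =>
          decide (¬ F ⊆ poss ((Ps ++ TY).map (resT j (!b))))) ∘ resL j (!b)) ≤ nspec TY :=
        List.countP_mono_left (fun F _ hF => hne F hF)
      have h3 : nspec TT = W.labs.countP (fun F => decide (F ≠ ∅)) + nspec TX + nspec TY := by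
        rw [hTT, nspec_append]
        congr 1
        have : W :: TX = [W] ++ TX := rfl
        rw [this, nspec_append]
        congr 1
        unfold nspec
        simp
      omega
    · intro T hT x hx
      obtain ⟨U, hU, rfl⟩ := List.mem_map.1 hT
      have hRe : (fun F : Finset (Fin (m + 1) → Bool) => hasL x (resL j (!b) F)) =
          hasL (ins j (!b) x) := by
        funext F
        unfold hasL
        rw [decide_eq_decide]
        exact mem_resL
      rw [PT_res, hRe]
      rcases List.mem_append.1 hU with h | h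
      · have h1 : U.tree ∈ pieces L0 := by
          rw [← hP1]
          exact List.mem_map_of_mem h
        refine c1.pth (hasL (ins j (!b) x)) (fun T hT => ?_) U.tree h1
        rw [List.mem_singleton] at hT
        rw [hT]
        exact (onp_iff_PT _ W).1 (honp W hWT _)
      · exact (onp_iff_PT _ U).1 (honp U (hYT U h) _)

end Pool.Agent.Work.MP_bf01b2_co.MR
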