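import Pool.Agent.Work.MP_bf01b2_co.MR.GnO

/-!
# Marks recursion: the level lemma for path states with bounded multiplicity

`K` = copied soft positions of the second side (`K = ∅`: non copy, the roots of the pieces are not
parents of relevant specials). New positions of the first side: the partners of the roots `TY` and of
the positions in `K` (outside of the roots). `H` = positions of the first side which are replaced by
trees with one vertex. Either the new holes of every cut tree are on one descending path, or all new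
positions are in `H`. Old soft positions which are new positions as well have to be in `H`.
-/

set_option autoImplicit false

namespace Pool.Agent.Work.MP_bf01b2_co.MR

/-- the new positions of the first side -/
def newP {m : ℕ} (j : Fin (m + 1)) (TX TH TY : List (LRT (Fin (m + 1) → Bool)))
    (K : Finset (Fin (m + 1) → Bool)) (us : List HT) : Finset (Fin (m + 1) → Bool) :=
  if us = [] then ∅ else
    ((poss TY ∪ K).image (flip j)) \ (poss TX ∪ (poss TH).image (flip j))

theorem levelNO {m ν : ℕ} {Q : HT → Prop} (j : Fin (m + 1)) (b : Bool)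
    {TX TH TY : List (LRT (Fin (m + 1) → Bool))} (O K : Finset (Fin (m + 1) → Bool))
    (hnd : ((TX ++ (TH ++ TY)).map LRT.pos).Nodup)
    (hok : ∀ T ∈ TX ++ (TH ++ TY), RootOK T)
    (honp : ∀ T ∈ TX ++ (TH ++ TY), ∀ x, T.tree.onp x)
    (hmul : ∀ x, mult (TX ++ (TH ++ TY)) x ≤ ν)
    (hclean : ∀ T ∈ TX ++ (TH ++ TY), ∀ F ∈ T.labs, Disjoint F (poss (TX ++ (TH ++ TY))))
    (hTX : ∀ T ∈ TX, T.pos j = b) (hTH : ∀ T ∈ TH, T.pos j = !b)
    (hTHl : ∀ T ∈ TH, ∃ x y, T.l = .node x y)
    (hTHr : ∀ T ∈ TH, RootOK (hopT (flip j T.pos) T))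
    (hTHm : ∀ T ∈ TH, flip j T.pos ∉ poss TX)
    (hTY : ∀ T ∈ TY, T.pos j = !b) {sz : List ℕ} {us : List HT}
    (hcut : FCutQ Q ((TX ++ TH.map (fun T => hopT (flip j T.pos) T)).map
      (cdatK j b K (poss TH ∪ poss TY))) sz us)
    (hus : us.length ≤ ν)
    (hO : softs (TX ++ (TH ++ TY)) \ poss (TX ++ (TH ++ TY)) ⊆ O)
    (H : Finset (Fin (m + 1) → Bool)) (hHb : ∀ x ∈ H, x j = b)
    (hHd : ∀ x ∈ H, x ∉ poss TX ∧ x ∉ (poss TH).image (flip j))
    (hHm : ∀ x ∈ newP j TX TH TY K us, x ∈ O → x ∈ H)
    (hHp : (∀ h, Q h → h.pth) ∨ newP j TX TH TY K us ⊆ H)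
    (gX : GnO m (((O.filter (fun x => x j = b)) ∪ newP j TX TH TY K us) \ H).card ν
      (sz ++ List.replicate H.card 1))
    (gY : GnO m (O.filter (fun x => x j = !b)).card ν
      (us.map HT.size ++ (TH.map (fun T => (hopR T).size) ++ TY.map LRT.size))) :
    ∃ S, Emb (cadj (m + 1)) (TX ++ (TH ++ TY)) S := by
  classical
  obtain ⟨Us', L, c1, c2, hlen, hUb, n1, n2, n3, n4, n5, n6, n7⟩ :=
    step_data j b K hnd hok hTX hTH hTHl hTHr hTHm hTY hcut
  obtain ⟨TT, hTT⟩ : ∃ TT, TT = TX ++ (TH ++ TY) := ⟨_, rfl⟩
  obtain ⟨Us, hUs⟩ : ∃ Us, Us = TX ++ TH.map (fun T => hopT (flip j T.pos) T) := ⟨_, rfl⟩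
  obtain ⟨FX, hFX⟩ : ∃ FX, FX = Us'.map (resT j b) := ⟨_, rfl⟩
  obtain ⟨NP, hNP⟩ : ∃ NP, NP = newP j TX TH TY K us := ⟨_, rfl⟩
  rw [← hNP] at hHm hHp gX
  rw [← hTT] at hO hclean honp hmul ⊢
  rw [← hUs] at c1 n6
  rw [← hFX] at n1 n2 n3 n4 n7
  have hlabs : Us.flatMap LRT.labs = L.flatMap LT.labs := c1.graft.labs
  -- soft positions
  have hsoft : ∀ x ∈ softs TT, x ∈ O := by
    intro x hx
    refine hO (Finset.mem_sdiff.2 ⟨hx, ?_⟩)
    obtain ⟨T, hT, F, hF, hxF⟩ := mem_softs.1 hx
    exact Finset.disjoint_left.1 (hclean T hT F hF) hxF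
  have hUslab : ∀ F ∈ Us.flatMap LRT.labs, F ∈ TT.flatMap LRT.labs := by
    intro F hF
    obtain ⟨U, hU, hFU⟩ := List.mem_flatMap.1 hF
    rw [hUs] at hU
    rw [hTT]
    rcases List.mem_append.1 hU with h | h
    · exact List.mem_flatMap.2 ⟨U, List.mem_append_left _ h, hFU⟩
    · obtain ⟨T, hT, rfl⟩ := List.mem_map.1 h
      exact List.mem_flatMap.2 ⟨T, List.mem_append_right _ (List.mem_append_left _ hT),
        mem_hop_labs (hTHl T hT) hFU⟩
  have holdlab : ∀ F ∈ Us.flatMap LRT.labs, ∀ x ∈ F, x ∈ O := by
    intro F hF x hx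
    obtain ⟨T, hT, hFT⟩ := List.mem_flatMap.1 (hUslab F hF)
    exact hsoft x (mem_softs.2 ⟨T, hT, F, hFT, hx⟩)
  -- paths of the trees of the first side
  have hUsP : ∀ T ∈ Us, ∀ x, PT (hasL x) T := by
    intro T hT x
    rw [hUs] at hT
    rcases List.mem_append.1 hT with h | h
    · refine (onp_iff_PT x T).1 (honp T ?_ x)
      rw [hTT]
      exact List.mem_append_left _ h
    · obtain ⟨W, hW, rfl⟩ := List.mem_map.1 h
      obtain ⟨y, z, hyz⟩ := hTHl W hW
      refine (onp_iff_PT x _).1 ?_
      have h1 : W.tree.onp x := honp W (by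
        rw [hTT]
        exact List.mem_append_right _ (List.mem_append_left _ hW)) x
      have h2 : (LT.node W.l W.r).onp x := h1
      have h3 := LT.onp_left h2
      unfold hopT
      rw [hyz] at h3 ⊢
      exact h3
  have hpieces : us = [] → pieces L = [] := by
    intro h
    rw [h, List.length_nil, List.length_eq_zero_iff] at hlen
    exact hlen
  have holds : ∀ F ∈ olds L, F ∈ Us.flatMap LRT.labs := fun F hF => by
    rw [hlabs]; exact mem_olds hF
  have hUlab : ∀ F ∈ Us'.flatMap LRT.labs, F ∈ Us.flatMap LRT.labs ∨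
      ∃ u ∈ pieces L, F = nlab j (TH.map hopR ++ TY) u := by
    intro F hF
    rcases mem_rel c1.rel F hF with h1 | ⟨u, hu, hFu⟩
    · exact Or.inl (holds F h1)
    · exact Or.inr ⟨u, hu, hFu⟩
  -- the new labels, outside of the roots
  have hnlab : ∀ u ∈ pieces L, ∀ x, x ∉ poss FX →
      ins j b x ∈ nlab j (TH.map hopR ++ TY) u → ins j b x ∈ NP := by
    intro u hu x hx hxu
    have h1 := n5 u hu _ ins_self hxu
    have h2 : us ≠ [] := by
      intro h
      rw [hpieces h] at hu
      simp at hu
    rw [n4, Finset.mem_union, not_or] at hx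
    rw [hNP]
    unfold newP
    rw [if_neg h2, Finset.mem_sdiff, Finset.mem_union, not_or]
    refine ⟨?_, hx⟩
    obtain ⟨w, hw, hwx⟩ := Finset.mem_image.1 h1
    rw [Finset.union_assoc] at hw
    rcases Finset.mem_union.1 hw with hw | hw
    · exact absurd (Finset.mem_image.2 ⟨w, hw, hwx⟩) hx.2
    · exact Finset.mem_image.2 ⟨w, hw, hwx⟩
  have hFXlabs : FX.flatMap LRT.labs = (Us'.flatMap LRT.labs).map (resL j b) := by
    rw [hFX]
    unfold resT
    rw [flatMap_mapL]
  -- paths in the first side
  have hpathX : ∀ T ∈ FX, ∀ x, x ∉ poss FX → ins j b x ∉ H → PT (hasL x) T := by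
    intro T hT x hx hxH
    rw [hFX] at hT
    obtain ⟨U, hU, rfl⟩ := List.mem_map.1 hT
    rw [PT_res]
    have hRe : (fun F : Finset (Fin (m + 1) → Bool) => hasL x (resL j b F)) =
        hasL (ins j b x) := by
      funext F
      unfold hasL
      rw [decide_eq_decide]
      exact mem_resL
    rw [hRe]
    by_cases hnew : ins j b x ∈ NP
    · -- a new soft position, not an old one
      have hQ : ∀ h, Q h → h.pth := by
        rcases hHp with h | h
        · exact h
        · exact absurd (h hnew) hxH
      have hnone : ∀ F ∈ Us.flatMap LRT.labs, hasL (ins j b x) F = false := by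
        intro F hF
        rw [hasL_false]
        exact fun h => hxH (hHm _ hnew (holdlab F hF _ h))
      obtain ⟨h', h1, h2⟩ := n6 U hU
      exact (h2 _ hnone).pth (hQ h' h1)
    · -- not a new position
      refine c1.pth' _ (fun u hu => ?_) (fun T hT => hUsP T hT _) U hU
      rw [hasL_false]
      exact fun h => hnew (hnlab u hu x hx h)
  -- multiplicities
  have hcount : ∀ x : Fin (m + 1) → Bool,
      (olds L).countP (fun F => decide (x ∈ F)) +
        (((pieces L).flatMap LT.labs).countP (fun F => decide (x ∈ F)) +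
          ((TH.map hopR).flatMap LRT.labs).countP (fun F => decide (x ∈ F))) =
        (TX.flatMap LRT.labs).countP (fun F => decide (x ∈ F)) +
          (TH.flatMap LRT.labs).countP (fun F => decide (x ∈ F)) := by
    intro x
    have e1 := countP_split (fun F : Finset (Fin (m + 1) → Bool) => decide (x ∈ F)) L
    rw [← hlabs, hUs, List.flatMap_append, List.countP_append] at e1
    have e2 := hops_labs (σ := flip j) (fun F : Finset (Fin (m + 1) → Bool) => decide (x ∈ F))
      (by simp) hTHl
    omega
  have hmulT : ∀ x, mult TT x = (TX.flatMap LRT.labs).countP (fun F => decide (x ∈ F)) +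
      ((TH.flatMap LRT.labs).countP (fun F => decide (x ∈ F)) +
        (TY.flatMap LRT.labs).countP (fun F => decide (x ∈ F))) := by
    intro x
    rw [hTT, mult_append, mult_append]
    rfl
  rw [← hTT] at n7
  refine n7 ?_ ?_
  · -- the first side
    obtain ⟨H', hH'⟩ : ∃ H' : Finset (Fin m → Bool), H' = H.image (del j) := ⟨_, rfl⟩
    have hmemH : ∀ x, x ∈ H' ↔ ins j b x ∈ H := by
      intro x
      rw [hH', Finset.mem_image]
      constructor
      · rintro ⟨y, hy, rfl⟩
        rwa [ins_del (hHb y hy)]
      · intro h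
        exact ⟨_, h, del_ins⟩
    have hcardH : H'.card = H.card := by
      rw [hH']
      apply Finset.card_image_of_injOn
      intro x hx y hy hxy
      rw [← ins_del (hHb x hx), ← ins_del (hHb y hy), hxy]
    have hdis : Disjoint H' (poss FX) := by
      rw [Finset.disjoint_left]
      intro x hx hxP
      have h1 := (hmemH x).1 hx
      rw [n4, Finset.mem_union] at hxP
      rcases hxP with h4 | h4
      · exact (hHd _ h1).1 h4
      · exact (hHd _ h1).2 h4
    refine GnO.emb_harden H' (by rw [hcardH]; exact gX) hdis n1 n2 n3 ?_ ?_ ?_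
    · have hsub : (softs FX \ (poss FX ∪ H')).map (ins j b) ⊆
          ((O.filter (fun x => x j = b)) ∪ NP) \ H := by
        intro y hy
        obtain ⟨x, hx, rfl⟩ := Finset.mem_map.1 hy
        rw [Finset.mem_sdiff, Finset.mem_union, not_or, hmemH] at hx
        obtain ⟨hx1, hx2, hx3⟩ := hx
        rw [Finset.mem_sdiff, Finset.mem_union]
        refine ⟨?_, hx3⟩
        unfold softs at hx1
        rw [hFXlabs] at hx1
        obtain ⟨F', hF', hxF⟩ := mem_foldr_union.1 hx1
        obtain ⟨F, hF, rfl⟩ := List.mem_map.1 hF'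
        rcases hUlab F hF with h1 | ⟨u, hu, rfl⟩
        · left
          rw [Finset.mem_filter]
          exact ⟨holdlab F h1 _ (mem_resL.1 hxF), ins_self⟩
        · right
          exact hnlab u hu x hx2 (mem_resL.1 hxF)
      rw [← Finset.card_map (ins j b)]
      exact Finset.card_le_card hsub
    · intro x hx
      rw [Finset.mem_union, not_or, hmemH] at hx
      have e0 : mult FX x = (Us'.flatMap LRT.labs).countP (fun F => decide (ins j b x ∈ F)) := by
        rw [hFX, mult_res]
        rfl
      rw [e0]
      by_cases hnew : ins j b x ∈ NP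
      · have h1 : (olds L).countP (fun F => decide (ins j b x ∈ F)) = 0 := by
          rw [List.countP_eq_zero]
          intro F hF
          rw [decide_eq_true_iff]
          exact fun h => hx.2 (hHm _ hnew (holdlab F (holds F hF) _ h))
        have h2 := countP_rel (fun F => decide (ins j b x ∈ F)) c1.rel
        rw [hlen] at h2
        omega
      · have h2 := countP_rel_of (fun F => decide (ins j b x ∈ F)) c1.rel (by
          intro u hu
          rw [decide_eq_false_iff_not]
          exact fun h => hnew (hnlab u hu x hx.1 h))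
        have h3 := hcount (ins j b x)
        have h4 := hmul (ins j b x)
        rw [hmulT] at h4
        omega
    · intro T hT x hx
      rw [Finset.mem_union, not_or, hmemH] at hx
      exact hpathX T hT x hx.1 hx.2
  · -- the second side
    intro FY m1 m2 m3 m4 m5 m6
    have hYlab : ∀ F ∈ (pieces L).flatMap LT.labs ++ (TH.map hopR ++ TY).flatMap LRT.labs,
        ∀ x ∈ F, x ∈ O := by
      intro F hF x hx
      rcases List.mem_append.1 hF with h | h
      · refine holdlab F ?_ x hx
        rw [hlabs]
        obtain ⟨u, hu, hFu⟩ := List.mem_flatMap.1 h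
        exact List.mem_flatMap.2 ⟨u, mem_pieces hu, hFu⟩
      · apply hsoft
        obtain ⟨T, hT, hFT⟩ := List.mem_flatMap.1 h
        rw [hTT]
        rcases List.mem_append.1 hT with h | h
        · obtain ⟨W, hW, rfl⟩ := List.mem_map.1 h
          rcases mem_hopR_labs hFT with rfl | hF
          · exact absurd hx (Finset.notMem_empty _)
          · exact mem_softs.2 ⟨W, List.mem_append_right _ (List.mem_append_left _ hW), F, hF, hx⟩
        · exact mem_softs.2 ⟨T, List.mem_append_right _ (List.mem_append_right _ h), F, hFT, hx⟩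
    refine gY.emb m1 m2 m3 ?_ ?_ ?_
    · rw [← Finset.card_map (ins j (!b))]
      refine Finset.card_le_card ?_
      intro y hy
      obtain ⟨x, hx, rfl⟩ := Finset.mem_map.1 hy
      rw [Finset.mem_sdiff] at hx
      have hx1 := hx.1
      unfold softs at hx1
      rw [m5] at hx1
      obtain ⟨F', hF', hxF⟩ := mem_foldr_union.1 hx1
      obtain ⟨F, hF, rfl⟩ := List.mem_map.1 hF'
      rw [Finset.mem_filter]
      exact ⟨hYlab F hF _ (mem_resL.1 hxF), ins_self⟩
    · intro x _
      have e0 : mult FY x = ((pieces L).flatMap LT.labs ++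
          (TH.map hopR ++ TY).flatMap LRT.labs).countP (fun F => decide (ins j (!b) x ∈ F)) := by
        unfold mult
        rw [m5, List.countP_map]
        congr 1
        funext F
        simp only [Function.comp, mem_resL]
      rw [e0, List.countP_append, List.flatMap_append, List.countP_append]
      have h3 := hcount (ins j (!b) x)
      have h4 := hmul (ins j (!b) x)
      rw [hmulT] at h4
      omega
    · intro T hT x hx
      have hRe : (fun F : Finset (Fin (m + 1) → Bool) => hasL x (resL j (!b) F)) =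
          hasL (ins j (!b) x) := by
        funext F
        unfold hasL
        rw [decide_eq_decide]
        exact mem_resL
      rcases m6 T hT with ⟨u, hu, hTu⟩ | ⟨W, hW, rfl⟩ | ⟨W, hW, rfl⟩
      · unfold PT
        rw [hTu, LT.core_mapL, hRe]
        exact c1.pth _ (fun T hT => hUsP T hT _) u hu
      · rw [PT_res, hRe]
        refine (onp_iff_PT _ _).1 ?_
        have h1 : W.tree.onp (ins j (!b) x) := honp W (by
          rw [hTT]
          exact List.mem_append_right _ (List.mem_append_left _ hW)) _
        have h2 : (LT.node W.l W.r).onp (ins j (!b) x) := h1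
        exact Or.inl ⟨Or.inl ⟨∅, rfl⟩, LT.onp_right h2⟩
      · rw [PT_res, hRe]
        refine (onp_iff_PT _ W).1 (honp W ?_ _)
        rw [hTT]
        exact List.mem_append_right _ (List.mem_append_right _ hW)

end Pool.Agent.Work.MP_bf01b2_co.MR
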