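import Pool.Agent.Work.MP_bf01b2_co.MR.Level

/-!
# Marks recursion: the level lemma in terms of forests

The same step as `level`, but the hypotheses speak about the two forests which have to be embedded:
sizes, positions of the roots, and for every position the number of labels which contain it.
-/

set_option autoImplicit false

namespace Pool.Agent.Work.MP_bf01b2_co.MR

section
variable {V : Type*} [DecidableEq V]

/-- number of holes whose label contains `x` -/
def mult (Ts : List (LRT V)) (x : V) : ℕ :=
  (Ts.flatMap LRT.labs).countP (fun F => decide (x ∈ F))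

theorem mult_append (Ts Us : List (LRT V)) (x : V) :
    mult (Ts ++ Us) x = mult Ts x + mult Us x := by
  unfold mult
  rw [List.flatMap_append, List.countP_append]

theorem mult_perm {Ts Us : List (LRT V)} (h : Ts.Perm Us) (x : V) : mult Ts x = mult Us x := by
  unfold mult
  exact (h.flatMap_right _).countP_eq _

theorem mult_eq_zero {Ts : List (LRT V)} {x : V} (h : x ∉ softs Ts) : mult Ts x = 0 := by
  unfold mult
  rw [List.countP_eq_zero]
  intro F hF hx
  obtain ⟨T, hT, hF⟩ := List.mem_flatMap.1 hF
  exact h (mem_softs.2 ⟨T, hT, F, hF, of_decide_eq_true hx⟩)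

theorem mem_softs_of_mult {Ts : List (LRT V)} {x : V} (h : mult Ts x ≠ 0) : x ∈ softs Ts := by
  by_contra hx
  exact h (mult_eq_zero hx)

theorem mult_pos {Ts : List (LRT V)} {x : V} (h : x ∈ softs Ts) : 0 < mult Ts x := by
  obtain ⟨T, hT, F, hF, hx⟩ := mem_softs.1 h
  unfold mult
  rw [List.countP_pos_iff]
  exact ⟨F, List.mem_flatMap.2 ⟨T, hT, hF⟩, by simpa using hx⟩

/-- if no new label is counted -/
theorem countP_rel_of {nl : LT V → Finset V} (c : Finset V → Bool) : ∀ {ls : List (Finset V)}
    {L : List (LT V)}, List.Forall₂ (HoleRel nl) ls L → (∀ u ∈ pieces L, c (nl u) = false) →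
    ls.countP c ≤ (olds L).countP c
  | [], [], _, _ => by simp
  | F :: ls, u :: L, h, hc => by
    rw [List.forall₂_cons] at h
    rcases h.1 with rfl | ⟨l, r, rfl, hF⟩
    · have ih := countP_rel_of c h.2 (fun w hw => hc w (by simpa [pieces] using hw))
      simp only [olds, List.countP_cons]
      omega
    · have ih := countP_rel_of c h.2 (fun w hw => hc w (by simp [pieces, hw]))
      have h1 := hc (.node l r) (by simp [pieces])
      simp only [olds, List.countP_cons, hF, h1]
      simpa using ih

end

section
variable {m : ℕ} {j : Fin (m + 1)} {b : Bool}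

theorem mult_res (Ts : List (LRT (Fin (m + 1) → Bool))) (x : Fin m → Bool) :
    mult (Ts.map (resT j b)) x = mult Ts (ins j b x) := by
  unfold mult resT
  rw [flatMap_mapL, List.countP_map]
  congr 1
  ext F
  simp only [Function.comp, mem_resL]

end

/-- **The level lemma, raw form.** -/
theorem level_raw {m : ℕ} (j : Fin (m + 1)) (b : Bool)
    {TX TH TY : List (LRT (Fin (m + 1) → Bool))}
    (hnd : ((TX ++ (TH ++ TY)).map LRT.pos).Nodup)
    (hok : ∀ T ∈ TX ++ (TH ++ TY), RootOK T)
    (hTX : ∀ T ∈ TX, T.pos j = b) (hTH : ∀ T ∈ TH, T.pos j = !b)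
    (hTHl : ∀ T ∈ TH, ∃ x y, T.l = .node x y)
    (hTHr : ∀ T ∈ TH, RootOK (hopT (flip j T.pos) T))
    (hTHm : ∀ T ∈ TH, flip j T.pos ∉ poss TX)
    (hTY : ∀ T ∈ TY, T.pos j = !b) {sz : List ℕ} {us : List HT}
    (hcut : FCutR ((TX ++ TH.map (fun T => hopT (flip j T.pos) T)).map
      (cdat j b (poss TH ∪ poss TY))) sz us)
    (hX : ∀ FX : List (LRT (Fin m → Bool)), (FX.map LRT.pos).Nodup → (∀ T ∈ FX, RootOK T) →
      List.Forall₂ (fun T n => LRT.size T ≤ n) FX sz →
      (∀ x, x ∈ poss FX ↔ ins j b x ∈ poss TX ∪ (poss TH).image (flip j)) →
      (∀ x, mult FX x ≤ mult (TX ++ TH) (ins j b x) +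
        if ins j b x ∈ (poss TH ∪ poss TY).image (flip j) then us.length else 0) →
      ∃ S, Emb (cadj m) FX S)
    (hY : ∀ FY : List (LRT (Fin m → Bool)), (FY.map LRT.pos).Nodup → (∀ T ∈ FY, RootOK T) →
      List.Forall₂ (fun T n => LRT.size T ≤ n) FY
        (us.map HT.size ++ (TH.map (fun T => (hopR T).size) ++ TY.map LRT.size)) →
      (∀ x, ins j (!b) x ∈ poss TH ∪ poss TY → x ∈ poss FY) →
      (∀ x, mult FY x ≤ mult (TX ++ (TH ++ TY)) (ins j (!b) x)) →
      ∃ S, Emb (cadj m) FY S) :
    ∃ S, Emb (cadj (m + 1)) (TX ++ (TH ++ TY)) S := by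
  classical
  obtain ⟨Us, hUs⟩ : ∃ Us, Us = TX ++ TH.map (fun T => hopT (flip j T.pos) T) := ⟨_, rfl⟩
  have hUb : ∀ U ∈ Us, U.pos j = b := by
    intro U hU
    rw [hUs] at hU
    rcases List.mem_append.1 hU with h | h
    · exact hTX U h
    · obtain ⟨T, hT, rfl⟩ := List.mem_map.1 h
      obtain ⟨x, y, hxy⟩ := hTHl T hT
      unfold hopT
      rw [hxy]
      simp only
      rw [flip_apply_self, hTH T hT, Bool.not_not]
  have hUok : ∀ U ∈ Us, RootOK U := by
    intro U hU
    rw [hUs] at hU
    rcases List.mem_append.1 hU with h | h
    · exact hok U (List.mem_append_left _ h)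
    · obtain ⟨T, hT, rfl⟩ := List.mem_map.1 h
      exact hTHr T hT
  have hhpos : ∀ T ∈ TH, (hopT (flip j T.pos) T).pos = flip j T.pos := by
    intro T hT
    obtain ⟨x, y, hxy⟩ := hTHl T hT
    unfold hopT
    rw [hxy]
  have hposR : poss (TH.map hopR ++ TY) = poss TH ∪ poss TY := by
    rw [poss_append]
    congr 1
    unfold poss
    rw [List.map_map]
    rfl
  obtain ⟨Us', L, c1, c2, c3, c4, c5⟩ := FCutR.lift j b (TY := TH.map hopR ++ TY) hUb hUok (by
    rw [hposR, hUs]; exact hcut)
  have hlen : (pieces L).length = us.length := by rw [← c2, List.length_map]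
  -- counts of the labels
  have hlabs : Us.flatMap LRT.labs = L.flatMap LT.labs := c1.graft.labs
  have hcount : ∀ c : Finset (Fin (m + 1) → Bool) → Bool, c ∅ = false →
      (olds L).countP c + (((pieces L).flatMap LT.labs).countP c +
        ((TH.map hopR).flatMap LRT.labs).countP c) =
          (TX.flatMap LRT.labs).countP c + (TH.flatMap LRT.labs).countP c := by
    intro c hc
    have e1 := countP_split c L
    rw [← hlabs, hUs, List.flatMap_append, List.countP_append] at e1
    have e2 := hops_labs (σ := flip j) c hc hTHl
    omega
  have hUs'pos : Us'.map LRT.pos = Us.map LRT.pos := c1.poss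
  have hUs'b : ∀ U ∈ Us', U.pos j = b := by
    intro U hU
    have h1 : U.pos ∈ Us'.map LRT.pos := List.mem_map_of_mem hU
    rw [hUs'pos] at h1
    obtain ⟨W, hW, hWU⟩ := List.mem_map.1 h1
    rw [← hWU]
    exact hUb W hW
  have hUs'poss : poss Us' = poss TX ∪ (poss TH).image (flip j) := by
    have e1 : poss Us' = poss Us := by unfold poss; rw [hUs'pos]
    rw [e1, hUs, poss_append]
    congr 1
    ext x
    rw [mem_poss, Finset.mem_image]
    constructor
    · rintro ⟨U, hU, rfl⟩
      obtain ⟨T, hT, rfl⟩ := List.mem_map.1 hU
      exact ⟨T.pos, mem_poss.2 ⟨T, hT, rfl⟩, (hhpos T hT).symm⟩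
    · rintro ⟨y, hy, rfl⟩
      obtain ⟨T, hT, rfl⟩ := mem_poss.1 hy
      exact ⟨_, List.mem_map_of_mem hT, hhpos T hT⟩
  refine step_hop j b hTX hTH hTHl hTY (TX' := Us') (L := L) (by rw [← hUs]; exact c1) ?_ ?_
  · -- first side
    apply hX (Us'.map (resT j b))
    · refine nodup_res hUs'b ?_
      rw [hUs'pos, hUs, List.map_append, List.map_map, List.nodup_append]
      rw [List.map_append, List.nodup_append, List.map_append, List.nodup_append] at hnd
      have e1 : TH.map (LRT.pos ∘ fun T => hopT (flip j T.pos) T) =
          (TH.map LRT.pos).map (flip j) := by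
        rw [List.map_map]
        refine List.map_congr_left fun T hT => ?_
        exact hhpos T hT
      refine ⟨hnd.1, ?_, ?_⟩
      · rw [e1]
        exact hnd.2.1.1.map (flip_injective j)
      · intro x hx y hy hxy
        subst hxy
        rw [e1] at hy
        obtain ⟨z, hz, rfl⟩ := List.mem_map.1 hy
        obtain ⟨T, hT, rfl⟩ := List.mem_map.1 hz
        apply hTHm T hT
        unfold poss
        exact List.mem_toFinset.2 hx
    · intro T hT
      obtain ⟨U, hU, rfl⟩ := List.mem_map.1 hT
      exact resT_ok (hUs'b U hU) (c5 U hU)
    · rw [← c4, List.forall₂_map_left_iff, List.forall₂_map_right_iff, List.forall₂_same]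
      intro U _
      rw [resT_size]
    · intro x
      rw [mem_poss_res hUs'b, hUs'poss]
    · -- labels
      intro x
      rw [mult_res]
      have e3 := hcount (fun F => decide (ins j b x ∈ F)) (by simp)
      have e4 : mult (TX ++ TH) (ins j b x) =
          (TX.flatMap LRT.labs).countP (fun F => decide (ins j b x ∈ F)) +
            (TH.flatMap LRT.labs).countP (fun F => decide (ins j b x ∈ F)) := by
        rw [mult_append]; rfl
      split_ifs with hx
      · have e5 := countP_rel (fun F => decide (ins j b x ∈ F)) c1.rel
        unfold mult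
        rw [hlen] at e5
        unfold mult at e4
        omega
      · have e5 := countP_rel_of (fun F => decide (ins j b x ∈ F)) c1.rel (by
          intro u hu
          rw [decide_eq_false_iff_not]
          intro hxF
          unfold nlab at hxF
          obtain ⟨z, hz, hzx⟩ := Finset.mem_image.1 hxF
          have hzj : z j = !b := by
            have : z = flip j (ins j b x) := by rw [← hzx, flip_flip]
            rw [this, flip_apply_self, ins_self]
          rcases Finset.mem_union.1 hz with hz | hz
          · rw [hposR] at hz
            exact hx (Finset.mem_image.2 ⟨z, hz, hzx⟩)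
          · have h6 := c3 u hu
            cases u with
            | nil => simp [LT.rootLab] at hz
            | hole _ => simp [LT.rootLab] at hz
            | node x' y' =>
              obtain ⟨h7, h8⟩ := h6 x' y' rfl
              simp only [LT.rootLab, Finset.mem_union] at hz
              rcases hz with hz | hz
              · cases x' with
                | nil => simp [LT.top] at hz
                | node _ _ => simp [LT.top] at hz
                | hole G =>
                  simp only [LT.top] at hz
                  have h9 := h7 G rfl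
                  unfold meets at h9
                  rw [decide_eq_false_iff_not] at h9
                  exact h9 ⟨z, hz, hzj⟩
              · cases y' with
                | nil => simp [LT.top] at hz
                | node _ _ => simp [LT.top] at hz
                | hole G =>
                  simp only [LT.top] at hz
                  have h9 := h8 G rfl
                  unfold meets at h9
                  rw [decide_eq_false_iff_not] at h9
                  exact h9 ⟨z, hz, hzj⟩)
        unfold mult
        unfold mult at e4
        omega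
  · -- second side
    intro Ps hP1 hP2 hP3
    have hYb : ∀ T ∈ Ps ++ (TH.map hopR ++ TY), T.pos j = !b := by
      intro T hT
      rcases List.mem_append.1 hT with h | h
      · exact (hP3 T h).1
      · rcases List.mem_append.1 h with h | h
        · obtain ⟨W, hW, rfl⟩ := List.mem_map.1 h
          exact hTH W hW
        · exact hTY T h
    have hPlab : Ps.flatMap LRT.labs = (pieces L).flatMap LT.labs := by
      rw [← hP1, List.flatMap_map]
      rfl
    apply hY ((Ps ++ (TH.map hopR ++ TY)).map (resT j (!b)))
    · refine nodup_res hYb ?_
      rw [List.map_append, List.nodup_append]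
      rw [List.map_append, List.nodup_append] at hnd
      have e1 : (TH.map hopR ++ TY).map LRT.pos = (TH ++ TY).map LRT.pos := by
        rw [List.map_append, List.map_append, List.map_map]
        rfl
      refine ⟨hP2, by rw [e1]; exact hnd.2.1, ?_⟩
      intro x hx y hy hxy
      subst hxy
      obtain ⟨P, hP, rfl⟩ := List.mem_map.1 hx
      obtain ⟨-, h1, h2, -⟩ := hP3 P hP
      rw [e1, List.map_append, List.mem_append] at hy
      rcases hy with hy | hy
      · exact h1 (by unfold poss; exact List.mem_toFinset.2 hy)
      · exact h2 (by unfold poss; exact List.mem_toFinset.2 hy)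
    · intro T hT
      obtain ⟨U, hU, rfl⟩ := List.mem_map.1 hT
      refine resT_ok (hYb U hU) ?_
      rcases List.mem_append.1 hU with h | h
      · exact (hP3 U h).2.2.2
      · rcases List.mem_append.1 h with h | h
        · obtain ⟨W, hW, rfl⟩ := List.mem_map.1 h
          exact ⟨by simp [hopR, LT.top],
            (hok W (List.mem_append_right _ (List.mem_append_left _ hW))).2⟩
        · exact hok U (List.mem_append_right _ (List.mem_append_right _ h))
    · rw [List.forall₂_map_left_iff]
      refine forall₂_append' ?_ (forall₂_append' ?_ ?_)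
      · have e1 : us.map HT.size = Ps.map LRT.size := by
          rw [← c2, ← hP1, List.map_map, List.map_map]
          refine List.map_congr_left fun P _ => ?_
          simp only [Function.comp, LT.core_size]
          rfl
        rw [e1, List.forall₂_map_right_iff, List.forall₂_same]
        intro P _
        rw [resT_size]
      · rw [List.forall₂_map_left_iff, List.forall₂_map_right_iff, List.forall₂_same]
        intro T _
        rw [resT_size]
      · rw [List.forall₂_map_right_iff, List.forall₂_same]
        intro T _
        rw [resT_size]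
    · intro x hx
      rw [mem_poss_res hYb, poss_append, hposR]
      exact Finset.mem_union_right _ hx
    · intro x
      rw [mult_res, mult_append, mult_append, mult_append, mult_append]
      have e3 := hcount (fun F => decide (ins j (!b) x ∈ F)) (by simp)
      unfold mult
      rw [hPlab]
      omega

end Pool.Agent.Work.MP_bf01b2_co.MR
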