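import Pool.Agent.Work.MP_bf01b2_co.MR.Clean

/-!
# Marks recursion: the lifting lemma and the step with copied soft positions

`K` is a set of (soft) positions of the second side which are copied: the label of a piece may contain
positions of `K`, the label of the new hole contains their projections. `FCutQ Q`: cutting of a forest
such that every cut tree satisfies `Q` (for example `HT.pth`).
-/

set_option autoImplicit false

namespace Pool.Agent.Work.MP_bf01b2_co.MR

/-- does the label contain a position of the side `!b` outside of `K`? -/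
def relK {m : ℕ} (j : Fin (m + 1)) (b : Bool) (K F : Finset (Fin (m + 1) → Bool)) : Bool :=
  decide (∃ y ∈ F, y j = (!b) ∧ y ∉ K)

theorem relK_empty {m : ℕ} (j : Fin (m + 1)) (b : Bool) : relK j b ∅ = meets j (!b) := by
  funext F
  simp [relK, meets]

theorem relK_false {m : ℕ} {j : Fin (m + 1)} {b : Bool} {K F : Finset (Fin (m + 1) → Bool)}
    (h : ∀ y ∈ F, y j = (!b) → y ∈ K) : relK j b K F = false := by
  unfold relK
  rw [decide_eq_false_iff_not]
  rintro ⟨y, h1, h2, h3⟩
  exact h3 (h y h1 h2)

/-- the entry of a root for the cutting, with copied positions `K` -/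
def cdatK {m : ℕ} (j : Fin (m + 1)) (b : Bool) (K Z : Finset (Fin (m + 1) → Bool))
    (U : LRT (Fin (m + 1) → Bool)) : Bool × HT × HT :=
  (decide (flip j U.pos ∈ Z ∪ K), U.l.core (relK j b K), U.r.core (relK j b K))

theorem cdatK_empty {m : ℕ} (j : Fin (m + 1)) (b : Bool) (Z : Finset (Fin (m + 1) → Bool)) :
    cdatK j b ∅ Z = cdat j b Z := by
  funext U
  simp only [cdatK, cdat, relK_empty, Finset.union_empty]

/-- no relevant holes -/
theorem LT.core_none {V : Type*} {R : Finset V → Bool} {t : LT V} (h : ∀ F ∈ t.labs, R F = false) :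
    (t.core R).holes = 0 := by
  rw [LT.core_holes, List.countP_eq_zero]
  intro F hF
  simp [h F hF]

/-- Cutting of a forest, cores only, with a condition `Q` for the cut trees; see `FCutR`. -/
inductive FCutQ (Q : HT → Prop) : List (Bool × HT × HT) → List ℕ → List HT → Prop
  | nil : FCutQ Q [] [] []
  | cons {ρ : Bool} {l r l' r' : HT} {ps qs us : List HT} {rest : List (Bool × HT × HT)}
      {sz : List ℕ} (hl : CutsR l l' ps) (hr : CutsR r r' qs) (hok : (HT.node l' r').ok)
      (hρ : ρ = true → l' ≠ .hole ∧ r' ≠ .hole) (hq : Q (.node l' r')) (h : FCutQ Q rest sz us) :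
      FCutQ Q ((ρ, l, r) :: rest) ((l'.size + r'.size + 1) :: sz) (ps ++ qs ++ us)

theorem FCutR.toQ {d : List (Bool × HT × HT)} {sz : List ℕ} {us : List HT} (h : FCutR d sz us) :
    FCutQ (fun _ => True) d sz us := by
  induction h with
  | nil => exact .nil
  | cons hl hr hok hρ _ ih => exact .cons hl hr hok hρ trivial ih

theorem FCutQ.toR {Q : HT → Prop} {d : List (Bool × HT × HT)} {sz : List ℕ} {us : List HT}
    (h : FCutQ Q d sz us) : FCutR d sz us := by
  induction h with
  | nil => exact .nil
  | cons hl hr hok hρ _ _ ih => exact .cons hl hr hok hρ ih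

theorem FCutQ.mono {Q Q' : HT → Prop} (hQ : ∀ h, Q h → Q' h) {d : List (Bool × HT × HT)}
    {sz : List ℕ} {us : List HT} (h : FCutQ Q d sz us) : FCutQ Q' d sz us := by
  induction h with
  | nil => exact .nil
  | cons hl hr hok hρ hq _ ih => exact .cons hl hr hok hρ (hQ _ hq) ih

section
variable {V : Type*}

/-- **Lifting**, with the shape of the new holes. -/
theorem lift_cut2 (nl : LT V → Finset V) (rel : Finset V → Bool) : ∀ (t : LT V) {h' : HT}
    {ps : List HT}, CutsR (t.core rel) h' ps → h'.ok →
    ∃ t' L, LCut nl t t' L ∧ (pieces L).map (LT.core rel) = ps ∧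
      (∀ u ∈ pieces L, Free rel u) ∧
      ((∃ x y, L = [.node x y] ∧ ∃ F, t' = .hole F) → h' = .hole) ∧ t'.size = h'.size ∧
      ∀ R : Finset V → Bool, (∀ F ∈ t.labs, R F = false) → HT.Le (t'.core R) h'
  | .nil, h', ps, h, _ => by
    cases h
    exact ⟨.nil, [], .nil, rfl, by simp [pieces], by simp, rfl, fun _ _ => .nil⟩
  | .hole F, h', ps, h, _ => by
    unfold LT.core at h
    have key : ∀ R : Finset V → Bool, (∀ G ∈ (LT.hole F).labs, R G = false) →
        HT.Le ((LT.hole F).core R) .nil := by
      intro R hR
      have h1 := hR F (by simp [LT.labs])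
      unfold LT.core
      rw [h1]
      exact .nil
    split_ifs at h with hF
    · cases h
      exact ⟨.hole F, [.hole F], .hole F, rfl, by simp [pieces], by simp, rfl, key⟩
    · cases h
      exact ⟨.hole F, [.hole F], .hole F, rfl, by simp [pieces], by simp, rfl, key⟩
  | .node l r, h', ps, h, hok => by
    cases h with
    | cut _ _ hl hr =>
      refine ⟨.hole (nl (.node l r)), [.node l r], .cut l r, rfl, ?_, by simp, rfl, ?_⟩
      · intro u hu
        simp only [pieces, List.mem_singleton] at hu
        subst hu
        intro x y hxy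
        cases hxy
        exact ⟨LT.core_ne_hole hl, LT.core_ne_hole hr⟩
      · intro R _
        simp only [LT.core]
        split_ifs
        · exact .hole
        · exact .nh
    | @node _ _ l' r' ps qs h1 h2 =>
      obtain ⟨hne, hok1, hok2⟩ := hok
      obtain ⟨t1, L1, c1, e1, f1, g1, s1, w1⟩ := lift_cut2 nl rel l h1 hok1
      obtain ⟨t2, L2, c2, e2, f2, g2, s2, w2⟩ := lift_cut2 nl rel r h2 hok2
      refine ⟨.node t1 t2, L1 ++ L2, .node c1 c2 ?_, ?_, ?_, ?_, ?_, ?_⟩
      · rintro ⟨⟨x, y, hL1, F, hF⟩, ⟨x', y', hL2, F', hF'⟩⟩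
        exact hne ⟨g1 ⟨x, y, hL1, F, hF⟩, g2 ⟨x', y', hL2, F', hF'⟩⟩
      · rw [pieces_append, List.map_append, e1, e2]
      · intro u hu
        rw [pieces_append, List.mem_append] at hu
        rcases hu with hu | hu
        · exact f1 u hu
        · exact f2 u hu
      · rintro ⟨x, y, -, F, hF⟩
        simp at hF
      · rw [LT.size_node, HT.size, s1, s2]
      · intro R hR
        exact .node (w1 R fun F hF => hR F (by simp [LT.labs, hF]))
          (w2 R fun F hF => hR F (by simp [LT.labs, hF]))

/-- pieces of path trees are path trees -/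
theorem LCut.pth {nl : LT V → Finset V} {t t' : LT V} {L : List (LT V)} (R : Finset V → Bool)
    (h : LCut nl t t' L) : (t.core R).pth → ∀ u ∈ pieces L, (u.core R).pth := by
  induction h with
  | nil => simp [pieces]
  | hole F => simp [pieces]
  | cut l r =>
    intro ht u hu
    simp only [pieces, List.mem_singleton] at hu
    subst hu
    exact ht
  | node _ _ _ ih1 ih2 =>
    intro ht u hu
    rw [pieces_append, List.mem_append] at hu
    have ht' : (HT.node (LT.core R _) (LT.core R _)).pth := ht
    rcases hu with hu | hu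
    · exact ih1 ht'.left u hu
    · exact ih2 ht'.right u hu

theorem LFCut.pth {nl : LT V → Finset V} {Ts Ts' : List (LRT V)} {L : List (LT V)}
    (R : Finset V → Bool) (h : LFCut nl Ts Ts' L) : (∀ T ∈ Ts, PT R T) →
    ∀ u ∈ pieces L, (u.core R).pth := by
  induction h with
  | nil => simp [pieces]
  | cons hp h _ ih =>
    intro ht u hu
    rw [pieces_append, List.mem_append] at hu
    rcases hu with hu | hu
    · exact h.pth R (ht _ List.mem_cons_self) u hu
    · exact ih (fun T hT => ht T (List.mem_cons_of_mem _ hT)) u hu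

/-- if there are no pieces then nothing is cut -/
theorem LCut.eq_of_pieces {nl : LT V → Finset V} {t t' : LT V} {L : List (LT V)}
    (h : LCut nl t t' L) : pieces L = [] → t' = t := by
  induction h with
  | nil => intro _; rfl
  | hole F => intro _; rfl
  | cut l r => intro h; simp [pieces] at h
  | node _ _ _ ih1 ih2 =>
    intro h
    rw [pieces_append, List.append_eq_nil_iff] at h
    rw [ih1 h.1, ih2 h.2]

theorem LFCut.eq_of_pieces {nl : LT V → Finset V} {Ts Ts' : List (LRT V)} {L : List (LT V)}
    (h : LFCut nl Ts Ts' L) : pieces L = [] → Ts' = Ts := by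
  induction h with
  | nil => intro _; rfl
  | @cons T T' Ts Ts' L M hp h _ ih =>
    intro h1
    rw [pieces_append, List.append_eq_nil_iff] at h1
    have e1 := h.eq_of_pieces h1.1
    rw [ih h1.2]
    congr 1
    obtain ⟨p, l, r⟩ := T
    obtain ⟨p', l', r'⟩ := T'
    simp only [LRT.tree, LT.node.injEq] at e1
    simp only at hp
    rw [hp, e1.1, e1.2]

end

/-- lifting of a cutting of the cores -/
theorem FCutQ.lift {m : ℕ} {Q : HT → Prop} (j : Fin (m + 1)) (b : Bool)
    (K : Finset (Fin (m + 1) → Bool)) {TY : List (LRT (Fin (m + 1) → Bool))} :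
    ∀ {Us : List (LRT (Fin (m + 1) → Bool))} {sz : List ℕ} {us : List HT},
      (∀ U ∈ Us, U.pos j = b) → (∀ U ∈ Us, RootOK U) →
      FCutQ Q (Us.map (cdatK j b K (poss TY))) sz us →
      ∃ Us' L, LFCut (nlab j TY) Us Us' L ∧ (pieces L).map (LT.core (relK j b K)) = us ∧
        (∀ u ∈ pieces L, Free (relK j b K) u) ∧ Us'.map LRT.size = sz ∧ (∀ U ∈ Us', RootOK U) ∧
        ∀ U ∈ Us', ∃ h', Q h' ∧ ∀ R : Finset (Fin (m + 1) → Bool) → Bool,
          (∀ F ∈ Us.flatMap LRT.labs, R F = false) → HT.Le (U.tree.core R) h'
  | [], sz, us, _, _, h => by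
    rw [List.map_nil] at h
    cases h
    exact ⟨[], [], .nil, rfl, by simp [pieces], rfl, by simp, by simp⟩
  | U :: Us, sz, us, hb, hr, h => by
    rw [List.map_cons] at h
    unfold cdatK at h
    cases h with
    | @cons _ _ _ l' r' ps qs us' _ sz' hl hrr hok hρ hq h =>
      obtain ⟨Us', L, c1, c2, c3, c4, c5, c6⟩ := FCutQ.lift j b K
        (fun V hV => hb V (List.mem_cons_of_mem _ hV))
        (fun V hV => hr V (List.mem_cons_of_mem _ hV)) h
      obtain ⟨hne, hok1, hok2⟩ := hok
      obtain ⟨t1, L1, d1, e1, f1, g1, s1, w1⟩ := lift_cut2 (nlab j TY) _ U.l hl hok1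
      obtain ⟨t2, L2, d2, e2, f2, g2, s2, w2⟩ := lift_cut2 (nlab j TY) _ U.r hrr hok2
      refine ⟨⟨U.pos, t1, t2⟩ :: Us', (L1 ++ L2) ++ L, .cons rfl (.node d1 d2 ?_) c1, ?_, ?_, ?_,
        ?_, ?_⟩
      · rintro ⟨⟨x, y, hL1, F, hF⟩, ⟨x', y', hL2, F', hF'⟩⟩
        exact hne ⟨g1 ⟨x, y, hL1, F, hF⟩, g2 ⟨x', y', hL2, F', hF'⟩⟩
      · rw [pieces_append, pieces_append, List.map_append, List.map_append, e1, e2, c2]
      · intro u hu
        rw [pieces_append, pieces_append, List.mem_append, List.mem_append] at hu
        rcases hu with (hu | hu) | hu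
        · exact f1 u hu
        · exact f2 u hu
        · exact c3 u hu
      · rw [List.map_cons, c4]
        congr 1
        simp only [LRT.size, s1, s2]
      · intro W hW
        rcases List.mem_cons.1 hW with rfl | hW
        · have hUb := hb U List.mem_cons_self
          have hUr := hr U List.mem_cons_self
          -- a new hole below the root
          have key : ∀ (t t' : LT (Fin (m + 1) → Bool)) (h' : HT) (M : List (LT (Fin (m + 1) → Bool))),
              U.pos ∉ t.top → LCut (nlab j TY) t t' M →
              ((∃ x y, M = [.node x y] ∧ ∃ F, t' = .hole F) → h' = .hole) →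
              (∀ u ∈ pieces M, Free (relK j b K) u) →
              (decide (flip j U.pos ∈ poss TY ∪ K) = true → h' ≠ .hole) → U.pos ∉ t'.top := by
            intro t t' h' M ht hc hg hf hρ' hmem
            cases t' with
            | nil => simp [LT.top] at hmem
            | node _ _ => simp [LT.top] at hmem
            | hole F =>
              simp only [LT.top] at hmem
              rcases hc.hole_inv with ⟨rfl, rfl⟩ | ⟨x, y, rfl, rfl, rfl⟩
              · exact ht hmem
              · have h1 : h' = .hole := hg ⟨x, y, rfl, _, rfl⟩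
                have h2 : flip j U.pos ∉ poss TY ∪ K := by
                  intro h3
                  exact hρ' (by simpa using h3) h1
                rw [Finset.mem_union, not_or] at h2
                unfold nlab at hmem
                obtain ⟨z, hz, hzU⟩ := Finset.mem_image.1 hmem
                have h4 : z = flip j U.pos := by rw [← hzU, flip_flip]
                rcases Finset.mem_union.1 hz with h5 | h5
                · exact h2.1 (h4 ▸ h5)
                · have h6 := hf (.node x y) (by simp [pieces]) x y rfl
                  have h7 : z j = !b := by rw [h4, flip_apply_self, hUb]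
                  have h8 : z ∉ K := h4 ▸ h2.2
                  have h9 : ∀ G : Finset (Fin (m + 1) → Bool), relK j b K G = false → z ∉ G := by
                    intro G hG hz
                    unfold relK at hG
                    rw [decide_eq_false_iff_not] at hG
                    exact hG ⟨z, hz, h7, h8⟩
                  simp only [LT.rootLab, Finset.mem_union] at h5
                  rcases h5 with h5 | h5
                  · cases x with
                    | nil => simp [LT.top] at h5
                    | node _ _ => simp [LT.top] at h5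
                    | hole G => exact h9 G (h6.1 G rfl) h5
                  · cases y with
                    | nil => simp [LT.top] at h5
                    | node _ _ => simp [LT.top] at h5
                    | hole G => exact h9 G (h6.2 G rfl) h5
          exact ⟨key U.l t1 l' L1 hUr.1 d1 g1 f1 (fun h => (hρ h).1),
            key U.r t2 r' L2 hUr.2 d2 g2 f2 (fun h => (hρ h).2)⟩
        · exact c5 W hW
      · intro W hW
        rcases List.mem_cons.1 hW with rfl | hW
        · refine ⟨_, hq, fun R hR => ?_⟩
          exact .node (w1 R fun F hF => hR F (by simp [LRT.labs, hF]))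
            (w2 R fun F hF => hR F (by simp [LRT.labs, hF]))
        · obtain ⟨h', h1, h2⟩ := c6 W hW
          exact ⟨h', h1, fun R hR => h2 R fun F hF => hR F (by
            rw [List.flatMap_cons]
            exact List.mem_append_right _ hF)⟩

/-- position labels of a new hole in the first side -/
theorem nlab_sub {m : ℕ} {j : Fin (m + 1)} {b : Bool} {K : Finset (Fin (m + 1) → Bool)}
    {TY : List (LRT (Fin (m + 1) → Bool))} {u : LT (Fin (m + 1) → Bool)}
    (hu : Free (relK j b K) u) {x : Fin (m + 1) → Bool} (hx : x j = b) (hxu : x ∈ nlab j TY u) :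
    x ∈ (poss TY ∪ K).image (flip j) := by
  unfold nlab at hxu
  obtain ⟨z, hz, hzx⟩ := Finset.mem_image.1 hxu
  have hzj : z j = !b := by
    have : z = flip j x := by rw [← hzx, flip_flip]
    rw [this, flip_apply_self, hx]
  refine Finset.mem_image.2 ⟨z, ?_, hzx⟩
  rcases Finset.mem_union.1 hz with hz | hz
  · exact Finset.mem_union_left _ hz
  · have h9 : ∀ G : Finset (Fin (m + 1) → Bool), relK j b K G = false → z ∈ G → z ∈ K := by
      intro G hG hzG
      unfold relK at hG
      rw [decide_eq_false_iff_not] at hG
      by_contra hcon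
      exact hG ⟨z, hzG, hzj, hcon⟩
    apply Finset.mem_union_right
    cases u with
    | nil => simp [LT.rootLab] at hz
    | hole _ => simp [LT.rootLab] at hz
    | node x' y' =>
      obtain ⟨h7, h8⟩ := hu x' y' rfl
      simp only [LT.rootLab, Finset.mem_union] at hz
      rcases hz with hz | hz
      · cases x' with
        | nil => simp [LT.top] at hz
        | node _ _ => simp [LT.top] at hz
        | hole G => exact h9 G (h7 G rfl) hz
      · cases y' with
        | nil => simp [LT.top] at hz
        | node _ _ => simp [LT.top] at hz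
        | hole G => exact h9 G (h8 G rfl) hz

/-- **The step, raw data.** -/
theorem step_data {m : ℕ} {Q : HT → Prop} (j : Fin (m + 1)) (b : Bool)
    (K : Finset (Fin (m + 1) → Bool))
    {TX TH TY : List (LRT (Fin (m + 1) → Bool))}
    (hnd : ((TX ++ (TH ++ TY)).map LRT.pos).Nodup)
    (hok : ∀ T ∈ TX ++ (TH ++ TY), RootOK T)
    (hTX : ∀ T ∈ TX, T.pos j = b) (hTH : ∀ T ∈ TH, T.pos j = !b)
    (hTHl : ∀ T ∈ TH, ∃ x y, T.l = .node x y)
    (hTHr : ∀ T ∈ TH, RootOK (hopT (flip j T.pos) T))
    (hTHm : ∀ T ∈ TH, flip j T.pos ∉ poss TX)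
    (hTY : ∀ T ∈ TY, T.pos j = !b) {sz : List ℕ} {us : List HT}
    (hcut : FCutQ Q ((TX ++ TH.map (fun T => hopT (flip j T.pos) T)).map
      (cdatK j b K (poss TH ∪ poss TY))) sz us) :
    ∃ (Us' : List (LRT (Fin (m + 1) → Bool))) (L : List (LT (Fin (m + 1) → Bool))),
      LFCut (nlab j (TH.map hopR ++ TY)) (TX ++ TH.map (fun T => hopT (flip j T.pos) T)) Us' L ∧
      (pieces L).map (LT.core (relK j b K)) = us ∧ (pieces L).length = us.length ∧
      (∀ U ∈ Us', U.pos j = b) ∧
      ((Us'.map (resT j b)).map LRT.pos).Nodup ∧ (∀ T ∈ Us'.map (resT j b), RootOK T) ∧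
      List.Forall₂ (fun T n => LRT.size T ≤ n) (Us'.map (resT j b)) sz ∧
      (∀ x, x ∈ poss (Us'.map (resT j b)) ↔
        ins j b x ∈ poss TX ∪ (poss TH).image (flip j)) ∧
      (∀ u ∈ pieces L, ∀ x, x j = b → x ∈ nlab j (TH.map hopR ++ TY) u →
        x ∈ (poss TH ∪ poss TY ∪ K).image (flip j)) ∧
      (∀ U ∈ Us', ∃ h', Q h' ∧ ∀ R : Finset (Fin (m + 1) → Bool) → Bool,
        (∀ F ∈ (TX ++ TH.map (fun T => hopT (flip j T.pos) T)).flatMap LRT.labs, R F = false) →
          HT.Le (U.tree.core R) h') ∧
      ((∃ S, Emb (cadj m) (Us'.map (resT j b)) S) →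
        (∀ FY : List (LRT (Fin m → Bool)), (FY.map LRT.pos).Nodup → (∀ T ∈ FY, RootOK T) →
          List.Forall₂ (fun T n => LRT.size T ≤ n) FY
            (us.map HT.size ++ (TH.map (fun T => (hopR T).size) ++ TY.map LRT.size)) →
          (∀ x, ins j (!b) x ∈ poss TH ∪ poss TY → x ∈ poss FY) →
          FY.flatMap LRT.labs = (((pieces L).flatMap LT.labs ++
            (TH.map hopR ++ TY).flatMap LRT.labs).map (resL j (!b))) →
          (∀ T ∈ FY, (∃ u ∈ pieces L, T.tree = u.mapL (resL j (!b))) ∨
            (∃ W ∈ TH, T = resT j (!b) (hopR W)) ∨ ∃ W ∈ TY, T = resT j (!b) W) →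
          ∃ S, Emb (cadj m) FY S) →
        ∃ S, Emb (cadj (m + 1)) (TX ++ (TH ++ TY)) S) := by
  classical
  obtain ⟨Us, hUs⟩ : ∃ Us, Us = TX ++ TH.map (fun T => hopT (flip j T.pos) T) := ⟨_, rfl⟩
  have hUb : ∀ U ∈ Us, U.pos j = b := by
    intro U hU
    rw [hUs] at hU
    rcases List.mem_append.1 hU with h | h
    · exact hTX U h
    · obtain ⟨T, hT, rfl⟩ := List.mem_map.1 h
      obtain ⟨x, y, hxy⟩ := hTHl T hT
      unfold hopT
      rw [hxy]
      simp only
      rw [flip_apply_self, hTH T hT, Bool.not_not]
  have hUok : ∀ U ∈ Us, RootOK U := by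
    intro U hU
    rw [hUs] at hU
    rcases List.mem_append.1 hU with h | h
    · exact hok U (List.mem_append_left _ h)
    · obtain ⟨T, hT, rfl⟩ := List.mem_map.1 h
      exact hTHr T hT
  have hhpos : ∀ T ∈ TH, (hopT (flip j T.pos) T).pos = flip j T.pos := by
    intro T hT
    obtain ⟨x, y, hxy⟩ := hTHl T hT
    unfold hopT
    rw [hxy]
  have hposR : poss (TH.map hopR ++ TY) = poss TH ∪ poss TY := by
    rw [poss_append]
    congr 1
    unfold poss
    rw [List.map_map]
    rfl
  obtain ⟨Us', L, c1, c2, c3, c4, c5, c6⟩ := FCutQ.lift j b K (TY := TH.map hopR ++ TY) hUb hUok (by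
    rw [hposR, hUs]; exact hcut)
  have hUs'pos : Us'.map LRT.pos = Us.map LRT.pos := c1.poss
  have hUs'b : ∀ U ∈ Us', U.pos j = b := by
    intro U hU
    have h1 : U.pos ∈ Us'.map LRT.pos := List.mem_map_of_mem hU
    rw [hUs'pos] at h1
    obtain ⟨W, hW, hWU⟩ := List.mem_map.1 h1
    rw [← hWU]
    exact hUb W hW
  have hUs'poss : poss Us' = poss TX ∪ (poss TH).image (flip j) := by
    have e1 : poss Us' = poss Us := by unfold poss; rw [hUs'pos]
    rw [e1, hUs, poss_append]
    congr 1
    ext x
    rw [mem_poss, Finset.mem_image]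
    constructor
    · rintro ⟨U, hU, rfl⟩
      obtain ⟨T, hT, rfl⟩ := List.mem_map.1 hU
      exact ⟨T.pos, mem_poss.2 ⟨T, hT, rfl⟩, (hhpos T hT).symm⟩
    · rintro ⟨y, hy, rfl⟩
      obtain ⟨T, hT, rfl⟩ := mem_poss.1 hy
      exact ⟨_, List.mem_map_of_mem hT, hhpos T hT⟩
  refine ⟨Us', L, by rw [← hUs]; exact c1, c2, by rw [← c2, List.length_map], hUs'b, ?_, ?_, ?_, ?_,
    ?_, by rw [← hUs]; exact c6, ?_⟩
  · refine nodup_res hUs'b ?_
    rw [hUs'pos, hUs, List.map_append, List.map_map, List.nodup_append]
    rw [List.map_append, List.nodup_append, List.map_append, List.nodup_append] at hnd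
    have e1 : TH.map (LRT.pos ∘ fun T => hopT (flip j T.pos) T) =
        (TH.map LRT.pos).map (flip j) := by
      rw [List.map_map]
      refine List.map_congr_left fun T hT => ?_
      exact hhpos T hT
    refine ⟨hnd.1, ?_, ?_⟩
    · rw [e1]
      exact hnd.2.1.1.map (flip_injective j)
    · intro x hx y hy hxy
      subst hxy
      rw [e1] at hy
      obtain ⟨z, hz, rfl⟩ := List.mem_map.1 hy
      obtain ⟨T, hT, rfl⟩ := List.mem_map.1 hz
      apply hTHm T hT
      unfold poss
      exact List.mem_toFinset.2 hx
  · intro T hT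
    obtain ⟨U, hU, rfl⟩ := List.mem_map.1 hT
    exact resT_ok (hUs'b U hU) (c5 U hU)
  · rw [← c4, List.forall₂_map_left_iff, List.forall₂_map_right_iff, List.forall₂_same]
    intro U _
    rw [resT_size]
  · intro x
    rw [mem_poss_res hUs'b, hUs'poss]
  · intro u hu x hx hxu
    have := nlab_sub (c3 u hu) hx hxu
    rwa [hposR] at this
  · intro hX hY
    refine step_hop j b hTX hTH hTHl hTY (TX' := Us') (L := L) (by rw [← hUs]; exact c1) hX ?_
    intro Ps hP1 hP2 hP3
    have hYb : ∀ T ∈ Ps ++ (TH.map hopR ++ TY), T.pos j = !b := by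
      intro T hT
      rcases List.mem_append.1 hT with h | h
      · exact (hP3 T h).1
      · rcases List.mem_append.1 h with h | h
        · obtain ⟨W, hW, rfl⟩ := List.mem_map.1 h
          exact hTH W hW
        · exact hTY T h
    have hPlab : Ps.flatMap LRT.labs = (pieces L).flatMap LT.labs := by
      rw [← hP1, List.flatMap_map]
      rfl
    apply hY ((Ps ++ (TH.map hopR ++ TY)).map (resT j (!b)))
    · refine nodup_res hYb ?_
      rw [List.map_append, List.nodup_append]
      rw [List.map_append, List.nodup_append] at hnd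
      have e1 : (TH.map hopR ++ TY).map LRT.pos = (TH ++ TY).map LRT.pos := by
        rw [List.map_append, List.map_append, List.map_map]
        rfl
      refine ⟨hP2, by rw [e1]; exact hnd.2.1, ?_⟩
      intro x hx y hy hxy
      subst hxy
      obtain ⟨P, hP, rfl⟩ := List.mem_map.1 hx
      obtain ⟨-, h1, h2, -⟩ := hP3 P hP
      rw [e1, List.map_append, List.mem_append] at hy
      rcases hy with hy | hy
      · exact h1 (by unfold poss; exact List.mem_toFinset.2 hy)
      · exact h2 (by unfold poss; exact List.mem_toFinset.2 hy)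
    · intro T hT
      obtain ⟨U, hU, rfl⟩ := List.mem_map.1 hT
      refine resT_ok (hYb U hU) ?_
      rcases List.mem_append.1 hU with h | h
      · exact (hP3 U h).2.2.2
      · rcases List.mem_append.1 h with h | h
        · obtain ⟨W, hW, rfl⟩ := List.mem_map.1 h
          exact ⟨by simp [hopR, LT.top],
            (hok W (List.mem_append_right _ (List.mem_append_left _ hW))).2⟩
        · exact hok U (List.mem_append_right _ (List.mem_append_right _ h))
    · rw [List.forall₂_map_left_iff]
      refine forall₂_append' ?_ (forall₂_append' ?_ ?_)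
      · have e1 : us.map HT.size = Ps.map LRT.size := by
          rw [← c2, ← hP1, List.map_map, List.map_map]
          refine List.map_congr_left fun P _ => ?_
          simp only [Function.comp, LT.core_size]
          rfl
        rw [e1, List.forall₂_map_right_iff, List.forall₂_same]
        intro P _
        rw [resT_size]
      · rw [List.forall₂_map_left_iff, List.forall₂_map_right_iff, List.forall₂_same]
        intro T _
        rw [resT_size]
      · rw [List.forall₂_map_right_iff, List.forall₂_same]
        intro T _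
        rw [resT_size]
    · intro x hx
      rw [mem_poss_res hYb, poss_append, hposR]
      exact Finset.mem_union_right _ hx
    · unfold resT
      rw [flatMap_mapL, List.flatMap_append, hPlab]
    · intro T hT
      obtain ⟨U, hU, rfl⟩ := List.mem_map.1 hT
      rcases List.mem_append.1 hU with h | h
      · left
        refine ⟨U.tree, ?_, rfl⟩
        rw [← hP1]
        exact List.mem_map_of_mem h
      · right
        rcases List.mem_append.1 h with h | h
        · left
          obtain ⟨W, hW, rfl⟩ := List.mem_map.1 h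
          exact ⟨W, hW, rfl⟩
        · right
          exact ⟨U, h, rfl⟩

end Pool.Agent.Work.MP_bf01b2_co.MR
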