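import Pool.Agent.Work.MP_bf01b2_co.MR.LpProg
import Mathlib

/-!
# Decision trees with Farkas leaves: soundness of the kernel program

`Sys` is the data of a game: states `s` with a number `nv s` of variables and a predicate `W s x` for
an integer vector `x`. A rule of the state `s` has finitely many branches (`s'`, rows); it says: if
for every branch `W s' x'` holds for all `x'` which agree with `x` on the first `nv s` variables and
satisfy all the rows (`≤ 0`), then `W s x`.
-/

set_option autoImplicit false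

namespace Pool.Agent.Work.MP_bf01b2_co.MR.Lp

/-! ## Rows -/

/-- value of the first `n` digits -/
def rv : ℕ → ℕ → (ℕ → ℤ) → ℤ
  | 0, _, _ => 0
  | n + 1, P, y => ((P % 281474976710656 : ℕ) : ℤ) * y 0 +
      rv n (P / 281474976710656) (fun i => y (i + 1))

/-- sum of the first `n` variables -/
def sy : ℕ → (ℕ → ℤ) → ℤ
  | 0, _ => 0
  | n + 1, y => y 0 + sy n (fun i => y (i + 1))

/-- the row of the form zero -/
def off : ℕ → ℕ
  | 0 => 1
  | n + 1 => 2097152 + 281474976710656 * off n

/-- full rows -/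
def fr : ℕ → ℕ → Prop
  | 0, P => P = 1
  | n + 1, P => P % 281474976710656 < 4194304 ∧ fr n (P / 281474976710656)

/-- the variables with the constant `1` -/
def yy (x : ℕ → ℤ) : ℕ → ℤ
  | 0 => 1
  | i + 1 => x i

/-- value of a row -/
def ev (P : ℕ) (x : ℕ → ℤ) : ℤ := rv 19 P (yy x) - 2097152 * sy 19 (yy x)

theorem digit_unique {W A a X Y : ℕ} (hA : A < W) (ha : a < W) (h : A + W * X = a + W * Y) :
    A = a ∧ X = Y := by
  have h1 : (A + W * X) % W = (a + W * Y) % W := by rw [h]
  rw [Nat.add_mul_mod_self_left, Nat.add_mul_mod_self_left, Nat.mod_eq_of_lt hA,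
    Nat.mod_eq_of_lt ha] at h1
  refine ⟨h1, ?_⟩
  subst h1
  have h2 : W * X = W * Y := by omega
  have hW : 0 < W := by omega
  exact Nat.eq_of_mul_eq_mul_left hW h2

theorem sum_split (L : List (ℕ × ℕ)) (W : ℕ) :
    (L.map fun p => p.1 * p.2).sum = (L.map fun p => p.1 * (p.2 % W)).sum +
      W * (L.map fun p => p.1 * (p.2 / W)).sum := by
  induction L with
  | nil => simp
  | cons p L ih =>
    simp only [List.map_cons, List.sum_cons]
    rw [ih]
    have h := Nat.mod_add_div p.2 W
    have h2 : p.1 * p.2 = p.1 * (p.2 % W) + W * (p.1 * (p.2 / W)) := by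
      conv_lhs => rw [← h]
      ring
    rw [h2]; ring

theorem sum_mod_le (L : List (ℕ × ℕ)) (W D : ℕ) (h : ∀ p ∈ L, p.2 % W < D) :
    (L.map fun p => p.1 * (p.2 % W)).sum + (L.map Prod.fst).sum ≤ (L.map Prod.fst).sum * D := by
  induction L with
  | nil => simp
  | cons p L ih =>
    simp only [List.map_cons, List.sum_cons]
    have h1 := ih (fun q hq => h q (List.mem_cons_of_mem _ hq))
    have h2 : p.2 % W + 1 ≤ D := h p List.mem_cons_self
    have h3 : p.1 * (p.2 % W) + p.1 ≤ p.1 * D := by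
      calc p.1 * (p.2 % W) + p.1 = p.1 * (p.2 % W + 1) := by ring
        _ ≤ p.1 * D := Nat.mul_le_mul_left _ h2
    rw [add_mul]
    omega

theorem nc (n : ℕ) : ∀ (L : List (ℕ × ℕ)) (Λ κ : ℕ) (y : ℕ → ℤ), (∀ p ∈ L, fr n p.2) →
    (L.map Prod.fst).sum ≤ 67108864 → Λ ≤ 67108864 → κ ≤ 1099511627776 →
    (n = 0 → κ = 0) →
    (L.map fun p => p.1 * p.2).sum = Λ * off n + κ →
    (L.map Prod.fst).sum = Λ ∧ (L.map fun p => (p.1 : ℤ) * rv n p.2 y).sum =
      Λ * 2097152 * sy n y + κ * y 0 := by
  induction n with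
  | zero =>
    intro L Λ κ y hL _ _ _ h0 h
    have hκ := h0 rfl
    subst hκ
    have h1 : (L.map fun p => p.1 * p.2).sum = (L.map Prod.fst).sum := by
      congr 1
      apply List.map_congr_left
      intro p hp
      have : p.2 = 1 := hL p hp
      rw [this, mul_one]
    have h2 : (L.map fun p => (p.1 : ℤ) * rv 0 p.2 y).sum = 0 := by
      have : (L.map fun p => (p.1 : ℤ) * rv 0 p.2 y) = L.map fun _ => (0 : ℤ) := by
        apply List.map_congr_left
        intro p _
        simp [rv]
      rw [this]; simp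
    rw [h1, off, mul_one] at h
    refine ⟨by omega, ?_⟩
    rw [h2]; simp [sy]
  | succ n ih =>
    intro L Λ κ y hL hT hΛ hκ _ h
    rw [sum_split L 281474976710656, off] at h
    have hle := sum_mod_le L 281474976710656 4194304 (fun p hp => (hL p hp).1)
    have hA : (L.map fun p => p.1 * (p.2 % 281474976710656)).sum < 281474976710656 := by
      by_cases h0 : (L.map Prod.fst).sum = 0
      · rw [h0] at hle; omega
      · omega
    have ha : Λ * 2097152 + κ < 281474976710656 := by omega
    have h3 : (L.map fun p => p.1 * (p.2 % 281474976710656)).sum + 281474976710656 *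
        (L.map fun p => p.1 * (p.2 / 281474976710656)).sum = (Λ * 2097152 + κ) +
          281474976710656 * (Λ * off n) := by
      rw [h]; ring
    obtain ⟨h4, h5⟩ := digit_unique hA ha h3
    have key := ih (L.map fun p => (p.1, p.2 / 281474976710656)) Λ 0 (fun i => y (i + 1))
      (by
        intro p hp
        rw [List.mem_map] at hp
        obtain ⟨q, hq, rfl⟩ := hp
        exact (hL q hq).2)
      (by rw [List.map_map]; exact hT) hΛ (by omega) (fun _ => rfl)
      (by rw [List.map_map, Nat.add_zero]; exact h5)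
    rw [List.map_map, List.map_map] at key
    obtain ⟨k1, k2⟩ := key
    refine ⟨k1, ?_⟩
    have h6 : (L.map fun p => (p.1 : ℤ) * rv (n + 1) p.2 y).sum =
        ((L.map fun p => p.1 * (p.2 % 281474976710656)).sum : ℕ) * y 0 +
        (L.map ((fun p => (p.1 : ℤ) * rv n p.2 (fun i => y (i + 1))) ∘
          fun p : ℕ × ℕ => (p.1, p.2 / 281474976710656))).sum := by
      clear h h3 h4 h5 hA ha hle hL hT k1 k2
      induction L with
      | nil => simp
      | cons p L ih2 =>
        simp only [List.map_cons, List.sum_cons, Function.comp_apply] at ih2 ⊢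
        rw [ih2, rv]
        push_cast
        ring
    rw [h6, k2, h4, sy]
    push_cast
    ring

theorem fr_ge (n : ℕ) : ∀ P, fr n P → 281474976710656 ^ n ≤ P ∧ P < 2 * 281474976710656 ^ n := by
  induction n with
  | zero =>
    intro P h
    have : P = 1 := h
    subst this
    norm_num
  | succ n ih =>
    intro P h
    obtain ⟨h1, h2⟩ := ih _ h.2
    have h3 := Nat.mod_add_div P 281474976710656
    have h4 : P % 281474976710656 < 281474976710656 := Nat.mod_lt _ (by norm_num)
    rw [pow_succ]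
    constructor
    · calc 281474976710656 ^ n * 281474976710656 ≤ P / 281474976710656 * 281474976710656 :=
          Nat.mul_le_mul_right _ h1
        _ ≤ P := by omega
    · have h5 : (P / 281474976710656 + 1) * 281474976710656 ≤
          2 * 281474976710656 ^ n * 281474976710656 := Nat.mul_le_mul_right _ h2
      have h6 : P < (P / 281474976710656 + 1) * 281474976710656 := by omega
      calc P < (P / 281474976710656 + 1) * 281474976710656 := h6
        _ ≤ _ := h5
        _ = 2 * (281474976710656 ^ n * 281474976710656) := by ring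

/-- the heart of the matter: a combination of full rows which is a positive constant -/
theorem farkas (L : List (ℕ × ℕ)) (x : ℕ → ℤ) (a : ℕ) (hL : ∀ p ∈ L, fr 19 p.2)
    (ha : (L.map fun p => p.1 * p.2).sum = a)
    (h1 : a / 2 ^ 912 * off 19 < a) (h2 : a ≤ a / 2 ^ 912 * off 19 + 1099511627776)
    (h3 : a / 2 ^ 912 ≤ 67108864) : ∃ p ∈ L, 0 < ev p.2 x := by
  by_contra hcon
  push Not at hcon
  have hT : (L.map Prod.fst).sum ≤ a / 2 ^ 912 := by
    rw [Nat.le_div_iff_mul_le (by positivity), ← ha]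
    clear ha h1 h2 h3 hcon
    induction L with
    | nil => simp
    | cons p L ih =>
      simp only [List.map_cons, List.sum_cons]
      have h4 := ih (fun q hq => hL q (List.mem_cons_of_mem _ hq))
      have h5 : (2 : ℕ) ^ 912 ≤ p.2 := by
        have := (fr_ge 19 _ (hL p List.mem_cons_self)).1
        have e1 : (281474976710656 : ℕ) = 2 ^ 48 := by norm_num
        have e2 : (2 : ℕ) ^ 912 = (2 ^ 48) ^ 19 := by rw [← pow_mul]
        rw [e2, ← e1]
        exact this
      have h6 : p.1 * 2 ^ 912 ≤ p.1 * p.2 := Nat.mul_le_mul_left _ h5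
      rw [add_mul]
      omega
  obtain ⟨κ, hκ⟩ : ∃ κ, a = a / 2 ^ 912 * off 19 + κ := ⟨a - a / 2 ^ 912 * off 19, by omega⟩
  have key := nc 19 L (a / 2 ^ 912) κ (yy x) hL (hT.trans h3) h3 (by omega) (by norm_num)
    (by rw [ha]; exact hκ)
  obtain ⟨k1, k2⟩ := key
  have h7 : (L.map fun p => (p.1 : ℤ) * ev p.2 x).sum = κ := by
    have : (L.map fun p => (p.1 : ℤ) * ev p.2 x).sum =
        (L.map fun p => (p.1 : ℤ) * rv 19 p.2 (yy x)).sum -
          ((L.map Prod.fst).sum : ℕ) * 2097152 * sy 19 (yy x) := by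
      clear k1 k2 hκ h1 h2 h3 hT hcon ha hL
      induction L with
      | nil => simp
      | cons p L ih =>
        simp only [List.map_cons, List.sum_cons]
        rw [ih, ev]
        push_cast
        ring
    rw [this, k2, k1]
    simp only [yy]
    ring
  have h8 : (L.map fun p => (p.1 : ℤ) * ev p.2 x).sum ≤ 0 := by
    clear k1 k2 hκ h1 h2 h3 hT h7 ha hL
    induction L with
    | nil => simp
    | cons p L ih =>
      simp only [List.map_cons, List.sum_cons]
      have h9 := ih (fun q hq => hcon q (List.mem_cons_of_mem _ hq))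
      have h10 : (p.1 : ℤ) * ev p.2 x ≤ 0 :=
        mul_nonpos_of_nonneg_of_nonpos (by positivity) (hcon p List.mem_cons_self)
      omega
  omega

/-! ## Contexts -/

/-- the context with the given rows and junk -/
def mkc : List (ℕ × ℕ) → ℕ
  | [] => 0
  | p :: L => 18446744073709551616 * p.1 + p.2 + 2 ^ 1024 * mkc L

/-- the slots are small -/
def Sm (C : List (ℕ × ℕ)) : Prop := ∀ p ∈ C, p.2 < 4294967296 ∧ fr 19 p.1

theorem pow48 : (281474976710656 : ℕ) ^ 19 = 2 ^ 912 := by
  have e1 : (281474976710656 : ℕ) = 2 ^ 48 := by norm_num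
  rw [e1, ← pow_mul]

theorem row_lt {P : ℕ} (h : fr 19 P) : P < 2 ^ 913 := by
  have := (fr_ge 19 _ h).2
  rw [pow48] at this
  calc P < 2 * 2 ^ 912 := this
    _ = 2 ^ 913 := by rw [← pow_succ']

theorem slot_lt {p : ℕ × ℕ} (h : p.2 < 4294967296 ∧ fr 19 p.1) :
    18446744073709551616 * p.1 + p.2 < 2 ^ 1024 := by
  have h1 := row_lt h.2
  have h2 : 18446744073709551616 * (p.1 + 1) ≤ 18446744073709551616 * 2 ^ 913 :=
    Nat.mul_le_mul_left _ h1
  have h3 : (18446744073709551616 : ℕ) * 2 ^ 913 = 2 ^ 977 := by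
    have : (18446744073709551616 : ℕ) = 2 ^ 64 := by norm_num
    rw [this, ← pow_add]
  have h4 : (2 : ℕ) ^ 977 ≤ 2 ^ 1024 := Nat.pow_le_pow_right (by norm_num) (by norm_num)
  have h5 := h.1
  omega

theorem mk_div (C : List (ℕ × ℕ)) (hC : Sm C) (i : ℕ) : mkc C / 2 ^ (1024 * i) = mkc (C.drop i) := by
  induction C generalizing i with
  | nil => simp [mkc]
  | cons p L ih =>
    cases i with
    | zero => simp
    | succ i =>
      have h1 : (2 : ℕ) ^ (1024 * (i + 1)) = 2 ^ 1024 * 2 ^ (1024 * i) := by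
        rw [← pow_add]; congr 1; ring
      rw [h1, ← Nat.div_div_eq_div_mul, mkc]
      have h2 := slot_lt (hC p List.mem_cons_self)
      rw [Nat.add_mul_div_left _ _ (by positivity), Nat.div_eq_of_lt h2, zero_add,
        ih (fun q hq => hC q (List.mem_cons_of_mem _ hq)) i, List.drop_succ_cons]

/-- the first slot -/
def hd : List (ℕ × ℕ) → ℕ × ℕ
  | [] => (0, 0)
  | p :: _ => p

theorem mk_hd (C : List (ℕ × ℕ)) : ∃ t, mkc C = 18446744073709551616 * (hd C).1 + (hd C).2 +
    2 ^ 1024 * t := by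
  cases C with
  | nil => exact ⟨0, by simp [mkc, hd]⟩
  | cons p L => exact ⟨mkc L, rfl⟩

theorem hd_drop (C : List (ℕ × ℕ)) (i : ℕ) : hd (C.drop i) = (0, 0) ∨ hd (C.drop i) ∈ C := by
  rcases h : C.drop i with _ | ⟨p, L⟩
  · left; rfl
  · right
    have : p ∈ C.drop i := by rw [h]; exact List.mem_cons_self
    exact List.mem_of_mem_drop this

/-! ## Leaves -/

/-- the pairs (multiplier, index) of a tape -/
def prs : ℕ → ℕ → List (ℕ × ℕ)
  | 0, _ => []
  | m + 1, T => (T % 2 ^ 25, T / 2 ^ 25 % 2 ^ 7) :: prs m (T / 2 ^ 32)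

theorem land_low (T : ℕ) : Nat.land T 33554431 = T % 2 ^ 25 :=
  Nat.and_two_pow_sub_one_eq_mod T 25

theorem land_idx (T : ℕ) :
    Nat.land (Nat.shiftRight T 15) 130048 = 1024 * (T / 2 ^ 25 % 2 ^ 7) := by
  have h0 : (130048 : ℕ) = (2 ^ 7 - 1) <<< 10 := by decide
  have h1 : 1024 * (T / 2 ^ 25 % 2 ^ 7) = ((T >>> 25) % 2 ^ 7) <<< 10 := by
    rw [Nat.shiftLeft_eq, Nat.shiftRight_eq_div_pow]; ring
  rw [h1, h0]
  change (T >>> 15) &&& _ = _
  apply Nat.eq_of_testBit_eq
  intro i
  rw [Nat.testBit_and, Nat.testBit_shiftRight, Nat.testBit_shiftLeft, Nat.testBit_shiftLeft,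
    Nat.testBit_two_pow_sub_one, Nat.testBit_mod_two_pow, Nat.testBit_shiftRight]
  by_cases hi : 10 ≤ i
  · have e : 25 + (i - 10) = 15 + i := by omega
    rw [e]
    simp only [hi, decide_true, ge_iff_le, Bool.true_and]
    rw [Bool.and_comm]
  · simp [hi]

theorem comb_eq (ctx : ℕ) (F : ℕ → ℕ → Bool) (m : ℕ) : ∀ T acc, comb ctx F m T acc =
    F (T / 2 ^ (32 * m)) (acc + ((prs m T).map fun p => p.1 * (ctx / 2 ^ (1024 * p.2))).sum) := by
  induction m with
  | zero => intro T acc; simp [comb, prs]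
  | succ m ih =>
    intro T acc
    have h : comb ctx F (m + 1) T acc = comb ctx F m (Nat.shiftRight T 32)
        (Nat.add acc (Nat.mul (Nat.land T 33554431)
          (Nat.shiftRight ctx (Nat.land (Nat.shiftRight T 15) 130048)))) := rfl
    rw [h, ih, land_low, land_idx]
    have e1 : Nat.shiftRight T 32 = T / 2 ^ 32 := Nat.shiftRight_eq_div_pow T 32
    have e2 : Nat.shiftRight ctx (1024 * (T / 2 ^ 25 % 2 ^ 7)) =
        ctx / 2 ^ (1024 * (T / 2 ^ 25 % 2 ^ 7)) := Nat.shiftRight_eq_div_pow _ _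
    rw [e1, e2]
    have e3 : T / 2 ^ 32 / 2 ^ (32 * m) = T / 2 ^ (32 * (m + 1)) := by
      rw [Nat.div_div_eq_div_mul, ← pow_add]; congr 2; ring
    rw [e3, prs, List.map_cons, List.sum_cons]
    congr 1
    change acc + _ * _ + _ = _
    ring

theorem prs_length (m T : ℕ) : (prs m T).length = m := by
  induction m generalizing T with
  | zero => rfl
  | succ m ih => simp [prs, ih]

theorem prs_lt (m T : ℕ) : ∀ p ∈ prs m T, p.1 < 33554432 := by
  induction m generalizing T with
  | zero => intro p hp; simp [prs] at hp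
  | succ m ih =>
    intro p hp
    rw [prs, List.mem_cons] at hp
    rcases hp with rfl | hp
    · have : T % 2 ^ 25 < 2 ^ 25 := Nat.mod_lt _ (by norm_num)
      simpa using this
    · exact ih _ p hp

theorem sum_le_mul {α : Type} (L : List α) (f : α → ℕ) (b : ℕ) (h : ∀ p ∈ L, f p ≤ b) :
    (L.map f).sum ≤ L.length * b := by
  induction L with
  | nil => simp
  | cons p L ih =>
    simp only [List.map_cons, List.sum_cons, List.length_cons]
    have h1 := ih (fun q hq => h q (List.mem_cons_of_mem _ hq))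
    have h2 := h p List.mem_cons_self
    rw [add_mul, one_mul]
    omega

/-- a valid leaf refutes the context -/
theorem leaf_sound (C : List (ℕ × ℕ)) (hC : Sm C) (m T a OFF : ℕ) (hm : m < 32)
    (hO : OFF = off 19)
    (ha : a = ((prs m T).map fun p => p.1 * (mkc C / 2 ^ (1024 * p.2))).sum /
      18446744073709551616 % 2 ^ 960)
    (hf : fin OFF a (a / 2 ^ 912) = true) (x : ℕ → ℤ) : ∃ p ∈ C, 0 < ev p.1 x := by
  set L := prs m T with hL
  have hlen : L.length = m := prs_length m T
  have hlt : ∀ p ∈ L, p.1 < 33554432 := prs_lt m T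
  -- the rows
  have hrow : ∀ i, (hd (C.drop i)).1 < 2 ^ 913 ∧ (hd (C.drop i)).2 < 4294967296 := by
    intro i
    rcases hd_drop C i with h | h
    · rw [h]; exact ⟨by positivity, by norm_num⟩
    · exact ⟨row_lt (hC _ h).2, (hC _ h).1⟩
  obtain ⟨t, ht⟩ : ∃ t, (L.map fun p => p.1 * (mkc C / 2 ^ (1024 * p.2))).sum =
      18446744073709551616 * (L.map fun p => p.1 * (hd (C.drop p.2)).1).sum +
      (L.map fun p => p.1 * (hd (C.drop p.2)).2).sum + 2 ^ 1024 * t := by
    clear hlen hlt hL ha
    induction L with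
    | nil => exact ⟨0, by simp⟩
    | cons p L ih =>
      obtain ⟨t, ht⟩ := ih
      obtain ⟨t', ht'⟩ := mk_hd (C.drop p.2)
      refine ⟨p.1 * t' + t, ?_⟩
      simp only [List.map_cons, List.sum_cons]
      rw [ht, mk_div C hC, ht']
      ring
  have hj : (L.map fun p => p.1 * (hd (C.drop p.2)).2).sum < 18446744073709551616 := by
    have h1 := sum_le_mul L (fun p => p.1 * (hd (C.drop p.2)).2) (33554432 * 4294967296)
      (fun p hp => Nat.mul_le_mul (hlt p hp).le (hrow p.2).2.le)
    rw [hlen] at h1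
    have h2 : m * (33554432 * 4294967296) ≤ 31 * (33554432 * 4294967296) :=
      Nat.mul_le_mul_right _ (by omega)
    omega
  have hs : (L.map fun p => p.1 * (hd (C.drop p.2)).1).sum < 2 ^ 960 := by
    have h1 := sum_le_mul L (fun p => p.1 * (hd (C.drop p.2)).1) (33554432 * 2 ^ 913)
      (fun p hp => Nat.mul_le_mul (hlt p hp).le (hrow p.2).1.le)
    rw [hlen] at h1
    have h2 : m * (33554432 * 2 ^ 913) ≤ 31 * (33554432 * 2 ^ 913) :=
      Nat.mul_le_mul_right _ (by omega)
    have h3 : 31 * (33554432 * 2 ^ 913) < 2 ^ 960 := by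
      have e1 : (2 : ℕ) ^ 960 = 2 ^ 47 * 2 ^ 913 := by rw [← pow_add]
      rw [e1, ← mul_assoc]
      exact Nat.mul_lt_mul_of_pos_right (by norm_num) (by positivity)
    omega
  have hS : a = (L.map fun p => p.1 * (hd (C.drop p.2)).1).sum := by
    rw [ha, ht]
    have e1 : 18446744073709551616 * (L.map fun p => p.1 * (hd (C.drop p.2)).1).sum +
        (L.map fun p => p.1 * (hd (C.drop p.2)).2).sum + 2 ^ 1024 * t =
        (L.map fun p => p.1 * (hd (C.drop p.2)).2).sum + 18446744073709551616 *
          ((L.map fun p => p.1 * (hd (C.drop p.2)).1).sum + 2 ^ 960 * t) := by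
      have : (2 : ℕ) ^ 1024 = 18446744073709551616 * 2 ^ 960 := by
        have e2 : (18446744073709551616 : ℕ) = 2 ^ 64 := by norm_num
        rw [e2, ← pow_add]
      rw [this]; ring
    rw [e1, Nat.add_mul_div_left _ _ (by norm_num), Nat.div_eq_of_lt hj, zero_add,
      Nat.add_mul_mod_self_left, Nat.mod_eq_of_lt hs]
  -- remove the absent rows
  set L' := (L.map fun p => (p.1, (hd (C.drop p.2)).1)).filter (fun q => decide (q.2 ≠ 0)) with hL'
  have hS' : (L'.map fun p => p.1 * p.2).sum = a := by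
    rw [hS, hL']
    clear hL' hS hs hj ht ha hlt hlen hL hf
    induction L with
    | nil => simp
    | cons p L ih =>
      simp only [List.map_cons, List.sum_cons, List.filter_cons]
      by_cases h0 : (hd (C.drop p.2)).1 = 0
      · simp only [h0, ne_eq, not_true_eq_false, decide_false, Bool.false_eq_true, if_false,
          mul_zero, zero_add]
        exact ih
      · simp only [h0, ne_eq, not_false_eq_true, decide_true, if_true, List.map_cons,
          List.sum_cons]
        rw [ih]
  have hmem : ∀ q ∈ L', ∃ p ∈ C, p.1 = q.2 := by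
    intro q hq
    rw [hL', List.mem_filter, List.mem_map] at hq
    obtain ⟨⟨p, hp, rfl⟩, h0⟩ := hq
    rcases hd_drop C p.2 with h | h
    · rw [h] at h0; simp at h0
    · exact ⟨_, h, rfl⟩
  have hfr : ∀ q ∈ L', fr 19 q.2 := by
    intro q hq
    obtain ⟨p, hp, he⟩ := hmem q hq
    rw [← he]
    exact (hC p hp).2
  unfold fin at hf
  simp only [Bool.and_eq_true] at hf
  obtain ⟨f1, f2, f3⟩ := hf
  have g1 : a / 2 ^ 912 * off 19 < a := by
    rw [← hO]; exact Nat.le_of_ble_eq_true f1
  have g2 : a ≤ a / 2 ^ 912 * off 19 + 1099511627776 := by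
    rw [← hO]; exact Nat.le_of_ble_eq_true f2
  have g3 : a / 2 ^ 912 ≤ 67108864 := Nat.le_of_ble_eq_true f3
  obtain ⟨q, hq, hpos⟩ := farkas L' x a hfr hS' g1 g2 g3
  obtain ⟨p, hp, he⟩ := hmem q hq
  exact ⟨p, hp, by rw [he]; exact hpos⟩

end Pool.Agent.Work.MP_bf01b2_co.MR.Lp
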