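import Mathlib.Data.Nat.Notation

/-!
# Kernel program for decision trees with Farkas leaves

A row (linear form `g`, asserted `g ≤ 0`) is a number in base `2 ^ 48`: the digits `0, ..., 18` are
the constant and the coefficients of `x 0, ..., x 17`, each plus `2 ^ 21`; digit `19` is `1`.
A context is a number in base `2 ^ 1024`, one digit for each row, the newest row first; such a
digit is `2 ^ 64` times the row plus a number less than `2 ^ 32` without meaning (it makes the hash
values of the contexts different).
A certificate is a list of tapes; a tape is a number which is read from the low bits: 5 bits `m`; if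
`m = 0` then the path of a rule in the table of rules (16 bits); otherwise `m` pairs (multiplier, 25
bits; index of a row, 7 bits).
-/

set_option autoImplicit false

namespace Pool.Agent.Work.MP_bf01b2_co.MR.Lp

/-- forced evaluation -/
noncomputable def fk {α : Type} (n : ℕ) (f : ℕ → α) : α :=
  Nat.rec (motive := fun _ => α) (f 0) (fun k _ => f k) (Nat.add n 1)

/-- the branches of a rule: new state, `1024` times the number of new rows, new rows -/
inductive Brs
  | nil : Brs
  | cons (s k rows : ℕ) (t : Brs) : Brs

/-- the table of the rules, the index is read from the low bit on; a rule has a state and branches -/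
inductive RT
  | L (s : ℕ) (b : Brs) : RT
  | N (l r : RT) : RT

/-- the open goals: state and context -/
inductive Stk
  | nil : Stk
  | cons (s ctx : ℕ) (t : Stk) : Stk

/-- a list of tapes: number of tokens, a number without meaning, tape -/
inductive Tp
  | nil : Tp
  | cons (n c T : ℕ) (t : Tp) : Tp

/-- entry of the table of rules -/
noncomputable def getR (t : RT) : ℕ → (ℕ → Brs → Bool) → Bool :=
  RT.rec (motive := fun _ => ℕ → (ℕ → Brs → Bool) → Bool) (fun s b _ f => f s b)
    (fun _ _ gl gr i f => Bool.rec (motive := fun _ => Bool) (gr (Nat.shiftRight i 1) f)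
      (gl (Nat.shiftRight i 1) f) (Nat.beq (Nat.land i 1) 0)) t

/-- new goals -/
noncomputable def push (b : Brs) (c ctx : ℕ) (st : Stk) : Stk :=
  Brs.rec (motive := fun _ => Stk) st
    (fun s k rows _ ih => Stk.cons s (Nat.add (Nat.shiftLeft ctx k) (Nat.add rows c)) ih) b

/-- the combination of the rows: `m` pairs, tape `T`, sum of the rows -/
noncomputable def comb (ctx : ℕ) (F : ℕ → ℕ → Bool) (m : ℕ) : ℕ → ℕ → Bool :=
  Nat.rec (motive := fun _ => ℕ → ℕ → Bool) F
    (fun _ ih T acc => ih (Nat.shiftRight T 32) (Nat.add acc (Nat.mul (Nat.land T 33554431)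
      (Nat.shiftRight ctx (Nat.land (Nat.shiftRight T 15) 130048))))) m

/-- the combination (with sum `lam` of the multipliers) is a positive constant -/
def fin (OFF acc lam : ℕ) : Bool :=
  and (Nat.ble (Nat.succ (Nat.mul lam OFF)) acc)
    (and (Nat.ble acc (Nat.add (Nat.mul lam OFF) 1099511627776)) (Nat.ble lam 67108864))

/-- the machine -/
noncomputable def run (M OFF : ℕ) (tab : RT) (F : Stk → Bool) (c n : ℕ) : ℕ → Stk → Bool :=
  Nat.rec (motive := fun _ => ℕ → Stk → Bool) (fun _ st => F st)
    (fun k ih T st => Stk.rec (motive := fun _ => Bool) false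
      (fun s ctx st' _ => fk ctx fun ctx => fk (Nat.land T 31) fun m =>
        Bool.rec (motive := fun _ => Bool)
          (comb ctx (fun T' acc => fk (Nat.land (Nat.shiftRight acc 64) M) fun a =>
            and (fin OFF a (Nat.shiftRight a 912)) (fk T' fun T' => ih T' st')) m
              (Nat.shiftRight T 5) 0)
          (getR tab (Nat.land (Nat.shiftRight T 5) 65535) fun s' b =>
            and (Nat.beq s' s) (fk (Nat.shiftRight T 21) fun T' =>
              ih T' (push b (Nat.add c k) ctx st')))
          (Nat.beq m 0)) st) n

/-- equality of stacks -/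
noncomputable def eqS (st₀ : Stk) : Stk → Bool :=
  Stk.rec (motive := fun _ => Stk → Bool)
    (fun st => Stk.rec (motive := fun _ => Bool) true (fun _ _ _ _ => false) st)
    (fun s ctx _ ih st => Stk.rec (motive := fun _ => Bool) false
      (fun s' ctx' t' _ => and (Nat.beq s s') (and (Nat.beq ctx ctx') (ih t'))) st) st₀

/-- the machine with a list of tapes and final stack `st₀` -/
noncomputable def runs (M OFF : ℕ) (tab : RT) (st₀ : Stk) (t : Tp) : Stk → Bool :=
  Tp.rec (motive := fun _ => Stk → Bool) (eqS st₀)
    (fun n c T _ ih st => and (Nat.ble (Nat.add c n) 4294967296) (run M OFF tab ih c n T st)) t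

/-- `2 ^ 960 - 1` -/
def cM : ℕ := 0xffffffffffffffffffffffffffffffffffffffffffffffffffffffffffffffffffffffffffffffffffffffffffffffffffffffffffffffffffffffffffffffffffffffffffffffffffffffffffffffffffffffffffffffffffffffffffffffffffffffffffffffffffffffffffffffffffffffffffffffff

/-- the row zero -/
def cO : ℕ := 0x1000000200000000000200000000000200000000000200000000000200000000000200000000000200000000000200000000000200000000000200000000000200000000000200000000000200000000000200000000000200000000000200000000000200000000000200000000000200000

end Pool.Agent.Work.MP_bf01b2_co.MR.Lp
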