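import Pool.Agent.Work.MP_bf01b2_co.MR.Lp

/-!
# Decision trees with Farkas leaves: games, soundness of the machine

How to use this file. `S : Sys` is a game: `S.nv s` variables in the state `s`, the predicate
`S.W s x` for an integer vector `x`. A linear form is a list of integers `[c, a0, a1, ...]`, its
value is `evL [c, a0, a1, ...] x = c + a0 * x 0 + a1 * x 1 + ...`. A rule of the state `s` is a list
`H : BH` of branches (new state, rows), `S.Rule s H` says that it is sound: if for every branch
`(s', R)` the predicate `S.W s' x'` holds for all `x'` which agree with `x` on the first `S.nv s`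
variables and satisfy all rows of `R` (`≤ 0`), then `S.W s x`. The table of the rules is a tree
`t : RTH`; the theorem `final` turns a run of the kernel program into `∀ x, rows → S.W s x`.
-/

set_option autoImplicit false

namespace Pool.Agent.Work.MP_bf01b2_co.MR.Lp

theorem fk_eq {α : Type} (n : ℕ) (f : ℕ → α) : fk n f = f n := rfl

/-! ## Rows as lists of integers -/

/-- packed row -/
def pk : ℕ → List ℤ → ℕ
  | 0, _ => 1
  | n + 1, [] => 2097152 + 281474976710656 * pk n []
  | n + 1, c :: l => (c + 2097152).toNat + 281474976710656 * pk n l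

/-- scalar product -/
def evd : List ℤ → (ℕ → ℤ) → ℤ
  | [], _ => 0
  | c :: l, y => c * y 0 + evd l (fun i => y (i + 1))

/-- value of the form `[c, a0, a1, ...]`: `c + a0 * x 0 + a1 * x 1 + ...` -/
def evL (l : List ℤ) (x : ℕ → ℤ) : ℤ := evd l (yy x)

/-- small coefficients -/
def smL (l : List ℤ) : Prop := ∀ c ∈ l, -2097152 ≤ c ∧ c < 2097152

theorem pk_spec (n : ℕ) : ∀ (l : List ℤ) (y : ℕ → ℤ), smL l → l.length ≤ n →
    fr n (pk n l) ∧ rv n (pk n l) y = evd l y + 2097152 * sy n y := by
  induction n with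
  | zero =>
    intro l y _ hl
    have : l = [] := List.eq_nil_of_length_eq_zero (by omega)
    subst this
    exact ⟨rfl, by simp [rv, evd, sy]⟩
  | succ n ih =>
    intro l y hs hl
    cases l with
    | nil =>
      obtain ⟨h1, h2⟩ := ih [] (fun i => y (i + 1)) (fun c hc => by simp at hc) (by simp)
      have e1 : (2097152 + 281474976710656 * pk n []) % 281474976710656 = 2097152 := by
        rw [Nat.add_mul_mod_self_left]
      have e2 : (2097152 + 281474976710656 * pk n []) / 281474976710656 = pk n [] := by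
        rw [Nat.add_mul_div_left _ _ (by norm_num)]; simp
      refine ⟨⟨?_, ?_⟩, ?_⟩
      · rw [pk, e1]; norm_num
      · rw [pk, e2]; exact h1
      · rw [pk, rv, e1, e2, h2, sy, evd, evd]; push_cast; ring
    | cons c l =>
      have hc := hs c List.mem_cons_self
      obtain ⟨h1, h2⟩ := ih l (fun i => y (i + 1)) (fun c hc => hs c (List.mem_cons_of_mem _ hc))
        (by simpa using hl)
      have e0 : ((c + 2097152).toNat : ℤ) = c + 2097152 := Int.toNat_of_nonneg (by omega)
      have e3 : (c + 2097152).toNat < 4194304 := by omega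
      have e1 : ((c + 2097152).toNat + 281474976710656 * pk n l) % 281474976710656 =
          (c + 2097152).toNat := by
        rw [Nat.add_mul_mod_self_left, Nat.mod_eq_of_lt (by omega)]
      have e2 : ((c + 2097152).toNat + 281474976710656 * pk n l) / 281474976710656 = pk n l := by
        rw [Nat.add_mul_div_left _ _ (by norm_num), Nat.div_eq_of_lt (by omega), zero_add]
      refine ⟨⟨?_, ?_⟩, ?_⟩
      · rw [pk, e1]; exact e3
      · rw [pk, e2]; exact h1
      · rw [pk, rv, e1, e2, h2, sy, evd, e0]; ring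

theorem ev_pk (l : List ℤ) (x : ℕ → ℤ) (hs : smL l) (hl : l.length ≤ 19) :
    ev (pk 19 l) x = evL l x := by
  rw [ev, (pk_spec 19 l (yy x) hs hl).2, evL]; ring

theorem evd_congr (l : List ℤ) : ∀ y y' : ℕ → ℤ, (∀ i, i < l.length → y i = y' i) →
    evd l y = evd l y' := by
  induction l with
  | nil => intro y y' _; rfl
  | cons c l ih =>
    intro y y' h
    rw [evd, evd, h 0 (by simp), ih _ _ (fun i hi => h (i + 1) (by simpa using hi))]

/-- the value of the row depends only on the first `n` variables -/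
def Supp (n P : ℕ) : Prop := ∀ x x' : ℕ → ℤ, (∀ i, i < n → x i = x' i) → ev P x = ev P x'

theorem supp_pk (n : ℕ) (l : List ℤ) (hs : smL l) (hl : l.length ≤ 19) (hn : l.length ≤ n + 1) :
    Supp n (pk 19 l) := by
  intro x x' h
  rw [ev_pk l x hs hl, ev_pk l x' hs hl, evL, evL]
  apply evd_congr
  intro i hi
  cases i with
  | zero => rfl
  | succ i => exact h i (by omega)

theorem supp_mono {n n' P : ℕ} (h : Supp n P) (hn : n ≤ n') : Supp n' P :=
  fun x x' hx => h x x' (fun i hi => hx i (by omega))

/-! ## Games -/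

/-- the data of a game -/
structure Sys where
  /-- number of variables -/
  nv : ℕ → ℕ
  /-- the predicate -/
  W : ℕ → (ℕ → ℤ) → Prop

/-- branches: new state, rows -/
abbrev BH := List (ℕ × List (List ℤ))

/-- the rows are good rows in `n` variables -/
def okR (n : ℕ) (l : List ℤ) : Bool :=
  Nat.ble l.length (n + 1) && (Nat.ble l.length 19 &&
    l.all (fun c => decide (-2097152 ≤ c) && decide (c < 2097152)))

/-- packed rows -/
def pkRows (R : List (List ℤ)) : ℕ := mkc (R.map fun l => (pk 19 l, 0))

/-- packed branches -/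
def pkB : BH → Brs
  | [] => .nil
  | h :: H => .cons h.1 (1024 * h.2.length) (pkRows h.2) (pkB H)

/-- the table of the rules -/
inductive RTH
  | L (s : ℕ) (H : BH) : RTH
  | N (l r : RTH) : RTH

/-- the packed table of rules -/
def RTH.pack : RTH → RT
  | .L s H => .L s (pkB H)
  | .N l r => .N l.pack r.pack

/-- the branches are well formed -/
def okB (nv : ℕ → ℕ) (s : ℕ) (H : BH) : Bool :=
  H.all (fun h => Nat.ble (nv s) (nv h.1) && (!h.2.isEmpty && h.2.all (okR (nv h.1))))

/-- the table is well formed -/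
def okT (nv : ℕ → ℕ) : RTH → Bool
  | .L s H => okB nv s H
  | .N l r => okT nv l && okT nv r

/-- the rule is sound -/
def Sys.Rule (S : Sys) (s : ℕ) (H : BH) : Prop :=
  ∀ x : ℕ → ℤ, (∀ h ∈ H, ∀ x' : ℕ → ℤ, (∀ i, i < S.nv s → x' i = x i) →
    (∀ l ∈ h.2, evL l x' ≤ 0) → S.W h.1 x') → S.W s x

/-- all rules of the table are sound -/
def Sys.Sound (S : Sys) : RTH → Prop
  | .L s H => S.Rule s H
  | .N l r => S.Sound l ∧ S.Sound r

/-- the packed rule is sound -/
def Sys.SRule (S : Sys) (s : ℕ) (b : Brs) : Prop :=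
  ∃ H : BH, b = pkB H ∧ okB S.nv s H = true ∧ S.Rule s H

/-- the packed table is sound -/
def Sys.Tab (S : Sys) : RT → Prop
  | .L s b => S.SRule s b
  | .N l r => S.Tab l ∧ S.Tab r

theorem Sys.tab_of (S : Sys) (t : RTH) (h1 : okT S.nv t = true) (h2 : S.Sound t) :
    S.Tab t.pack := by
  induction t with
  | L s H => exact ⟨H, rfl, h1, h2⟩
  | N l r ihl ihr =>
    rw [okT, Bool.and_eq_true] at h1
    exact ⟨ihl h1.1 h2.1, ihr h1.2 h2.2⟩

/-- the rows of the context are good and hold at `x` -/
def Hold (n : ℕ) (C : List (ℕ × ℕ)) (x : ℕ → ℤ) : Prop :=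
  ∀ p ∈ C, (p.2 < 4294967296 ∧ fr 19 p.1) ∧ Supp n p.1 ∧ ev p.1 x ≤ 0

/-- the goal `(s, ctx)` is true -/
def Sys.V (S : Sys) (s ctx : ℕ) : Prop := ∀ C x, ctx = mkc C → Hold (S.nv s) C x → S.W s x

/-- all goals are true -/
def Sys.AllV (S : Sys) : Stk → Prop
  | .nil => True
  | .cons s ctx t => S.V s ctx ∧ S.AllV t

theorem okR_iff {n : ℕ} {l : List ℤ} (h : okR n l = true) :
    smL l ∧ l.length ≤ 19 ∧ l.length ≤ n + 1 := by
  unfold okR at h
  rw [Bool.and_eq_true, Bool.and_eq_true] at h
  obtain ⟨h1, h2, h3⟩ := h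
  refine ⟨?_, Nat.le_of_ble_eq_true h2, Nat.le_of_ble_eq_true h1⟩
  intro c hc
  have := List.all_eq_true.1 h3 c hc
  simpa using this

theorem mk_append (A C : List (ℕ × ℕ)) : mkc (A ++ C) = mkc A + 2 ^ (1024 * A.length) * mkc C := by
  induction A with
  | nil => simp [mkc]
  | cons p A ih =>
    rw [List.cons_append, mkc, mkc, ih, List.length_cons]
    have : (2 : ℕ) ^ (1024 * (A.length + 1)) = 2 ^ 1024 * 2 ^ (1024 * A.length) := by
      rw [← pow_add]; congr 1; ring
    rw [this]; ring

theorem hold_rows {n : ℕ} {x : ℕ → ℤ} {R : List (List ℤ)} (h : R.all (okR n) = true)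
    (hx : ∀ l ∈ R, evL l x ≤ 0) : Hold n (R.map fun l => (pk 19 l, 0)) x := by
  intro p hp
  rw [List.mem_map] at hp
  obtain ⟨l, hl, rfl⟩ := hp
  obtain ⟨h1, h2, h3⟩ := okR_iff (List.all_eq_true.1 h l hl)
  refine ⟨⟨by norm_num, (pk_spec 19 l (yy x) h1 h2).1⟩, supp_pk n l h1 h2 h3, ?_⟩
  rw [ev_pk l x h1 h2]
  exact hx l hl

/-- extension of a context -/
theorem ext_ctx (C : List (ℕ × ℕ)) (R : List (List ℤ)) (hR : R ≠ []) (c : ℕ) :
    ∃ A : List (ℕ × ℕ), Nat.add (Nat.shiftLeft (mkc C) (1024 * R.length)) (Nat.add (pkRows R) c) =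
      mkc (A ++ C) ∧ ∀ (n : ℕ) (x : ℕ → ℤ), c < 4294967296 → R.all (okR n) = true →
        (∀ l ∈ R, evL l x ≤ 0) → Hold n A x := by
  cases R with
  | nil => exact absurd rfl hR
  | cons l R =>
    refine ⟨(pk 19 l, c) :: R.map fun l => (pk 19 l, 0), ?_, ?_⟩
    · rw [mk_append, mkc, pkRows, List.map_cons, mkc]
      have e1 : Nat.shiftLeft (mkc C) (1024 * (l :: R).length) =
          mkc C * 2 ^ (1024 * (l :: R).length) := Nat.shiftLeft_eq _ _
      rw [e1]
      simp only [List.length_cons, List.length_map]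
      change _ + (_ + c) = _
      ring
    · intro n x hc h hx
      have h0 := hold_rows h hx
      intro p hp
      rw [List.mem_cons] at hp
      rcases hp with rfl | hp
      · have := h0 (pk 19 l, 0) (by simp)
        exact ⟨⟨hc, this.1.2⟩, this.2⟩
      · exact h0 p (by rw [List.map_cons]; exact List.mem_cons_of_mem _ hp)

theorem Sys.push_sound (S : Sys) (H : BH) (c ctx : ℕ) (st : Stk)
    (h : S.AllV (push (pkB H) c ctx st)) :
    (∀ b ∈ H, S.V b.1 (Nat.add (Nat.shiftLeft ctx (1024 * b.2.length))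
      (Nat.add (pkRows b.2) c))) ∧ S.AllV st := by
  induction H with
  | nil => exact ⟨fun b hb => by simp at hb, h⟩
  | cons b H ih =>
    have h1 : S.V b.1 (Nat.add (Nat.shiftLeft ctx (1024 * b.2.length))
      (Nat.add (pkRows b.2) c)) ∧ S.AllV (push (pkB H) c ctx st) := h
    obtain ⟨h2, h3⟩ := ih h1.2
    refine ⟨?_, h3⟩
    intro b' hb'
    rw [List.mem_cons] at hb'
    rcases hb' with rfl | hb'
    · exact h1.1
    · exact h2 b' hb'

theorem Sys.rule_sound (S : Sys) (s : ℕ) (H : BH) (hok : okB S.nv s H = true) (hR : S.Rule s H)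
    (c ctx : ℕ) (hc : c < 4294967296)
    (h : ∀ b ∈ H, S.V b.1 (Nat.add (Nat.shiftLeft ctx (1024 * b.2.length))
      (Nat.add (pkRows b.2) c))) : S.V s ctx := by
  intro C x hC hx
  subst hC
  apply hR
  intro b hb x' hag hrows
  have hok' := List.all_eq_true.1 hok b hb
  rw [Bool.and_eq_true, Bool.and_eq_true] at hok'
  obtain ⟨ok1, ok2, ok3⟩ := hok'
  have hne : b.2 ≠ [] := by
    intro h0
    rw [h0] at ok2
    simp at ok2
  obtain ⟨A, hA1, hA2⟩ := ext_ctx C b.2 hne c
  have hA := hA2 (S.nv b.1) x' hc ok3 hrows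
  refine h b hb (A ++ C) x' hA1 ?_
  intro p hp
  rw [List.mem_append] at hp
  rcases hp with hp | hp
  · exact hA p hp
  · obtain ⟨h1, h2, h3⟩ := hx p hp
    refine ⟨h1, supp_mono h2 (Nat.le_of_ble_eq_true ok1), ?_⟩
    rw [h2 x' x hag]
    exact h3

theorem Sys.getR_sound (S : Sys) (tab : RT) (hT : S.Tab tab) : ∀ (i : ℕ) (f : ℕ → Brs → Bool),
    getR tab i f = true → ∃ s b, S.SRule s b ∧ f s b = true := by
  induction tab with
  | L s b => intro i f h; exact ⟨s, b, hT, h⟩
  | N l r ihl ihr =>
    intro i f h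
    have h' : (Bool.rec (motive := fun _ => Bool) (getR r (Nat.shiftRight i 1) f)
      (getR l (Nat.shiftRight i 1) f) (Nat.beq (Nat.land i 1) 0)) = true := h
    cases hb : Nat.beq (Nat.land i 1) 0 with
    | true => rw [hb] at h'; exact ihl hT.1 _ _ h'
    | false => rw [hb] at h'; exact ihr hT.2 _ _ h'

theorem Sys.run_sound (S : Sys) (M OFF : ℕ) (tab : RT) (F : Stk → Bool) (c : ℕ)
    (hM : M = 2 ^ 960 - 1) (hO : OFF = off 19) (hT : S.Tab tab)
    (hF : ∀ st, F st = true → S.AllV st) (n : ℕ) : c + n ≤ 4294967296 →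
    ∀ T st, run M OFF tab F c n T st = true → S.AllV st := by
  induction n with
  | zero => intro _ T st h; exact hF st h
  | succ n ih =>
    intro hc T st h
    cases st with
    | nil => exact trivial
    | cons s ctx st' =>
      have ih' := ih (by omega)
      have h' : (Bool.rec (motive := fun _ => Bool)
          (comb ctx (fun T' acc => fk (Nat.land (Nat.shiftRight acc 64) M) fun a =>
            and (fin OFF a (Nat.shiftRight a 912)) (fk T' fun T' => run M OFF tab F c n T' st'))
              (Nat.land T 31) (Nat.shiftRight T 5) 0)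
          (getR tab (Nat.land (Nat.shiftRight T 5) 65535) fun s' b =>
            and (Nat.beq s' s) (fk (Nat.shiftRight T 21) fun T' =>
              run M OFF tab F c n T' (push b (Nat.add c n) ctx st')))
          (Nat.beq (Nat.land T 31) 0)) = true := h
      cases hb : Nat.beq (Nat.land T 31) 0 with
      | true =>
        rw [hb] at h'
        obtain ⟨s0, b, hsr, hf⟩ := S.getR_sound tab hT _ _ h'
        rw [Bool.and_eq_true] at hf
        obtain ⟨hf1, hf2⟩ := hf
        have hs : s0 = s := Nat.eq_of_beq_eq_true hf1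
        subst hs
        rw [fk_eq] at hf2
        have h1 := ih' _ _ hf2
        obtain ⟨H, rfl, hok, hR⟩ := hsr
        obtain ⟨h2, h3⟩ := S.push_sound H _ _ _ h1
        refine ⟨S.rule_sound s0 H hok hR (Nat.add c n) ctx ?_ h2, h3⟩
        change c + n < _
        omega
      | false =>
        rw [hb] at h'
        have h1 := h'
        change comb ctx _ _ _ _ = true at h1
        rw [comb_eq, fk_eq, Bool.and_eq_true, fk_eq] at h1
        obtain ⟨h2, h3⟩ := h1
        refine ⟨?_, ih' _ _ h3⟩
        intro C x hC hx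
        exfalso
        have hm : Nat.land T 31 < 32 := by
          have := Nat.and_two_pow_sub_one_eq_mod T 5
          change T &&& 31 < 32
          rw [show (31 : ℕ) = 2 ^ 5 - 1 by norm_num, this]
          exact Nat.mod_lt _ (by norm_num)
        subst hC
        have e1 : ∀ a, Nat.shiftRight a 912 = a / 2 ^ 912 :=
          fun a => Nat.shiftRight_eq_div_pow a 912
        have e2 : ∀ a, Nat.land (Nat.shiftRight a 64) M = a / 18446744073709551616 % 2 ^ 960 := by
          intro a
          rw [hM]
          change (a >>> 64) &&& (2 ^ 960 - 1) = _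
          rw [Nat.and_two_pow_sub_one_eq_mod, Nat.shiftRight_eq_div_pow]
        rw [e1, e2, zero_add] at h2
        obtain ⟨p, hp, hpos⟩ := leaf_sound C (fun p hp => (hx p hp).1) (Nat.land T 31) _ _ OFF hm
          hO rfl h2 x
        have := (hx p hp).2.2
        omega

theorem eqS_sound (st₀ : Stk) : ∀ st, eqS st₀ st = true → st = st₀ := by
  induction st₀ with
  | nil =>
    intro st h
    cases st with
    | nil => rfl
    | cons s ctx t => exact absurd h Bool.false_ne_true
  | cons s ctx t ih =>
    intro st h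
    cases st with
    | nil => exact absurd h Bool.false_ne_true
    | cons s' ctx' t' =>
      have h' : and (Nat.beq s s') (and (Nat.beq ctx ctx') (eqS t t')) = true := h
      rw [Bool.and_eq_true, Bool.and_eq_true] at h'
      obtain ⟨h1, h2, h3⟩ := h'
      rw [Nat.eq_of_beq_eq_true h1, Nat.eq_of_beq_eq_true h2, ih t' h3]

theorem Sys.runs_sound (S : Sys) (M OFF : ℕ) (tab : RT) (st₀ : Stk) (hM : M = 2 ^ 960 - 1)
    (hO : OFF = off 19) (hT : S.Tab tab) (h0 : S.AllV st₀) (t : Tp) :
    ∀ st, runs M OFF tab st₀ t st = true → S.AllV st := by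
  induction t with
  | nil =>
    intro st h
    rw [eqS_sound st₀ st h]
    exact h0
  | cons n c T t ih =>
    intro st h
    have h' : and (Nat.ble (Nat.add c n) 4294967296)
      (run M OFF tab (runs M OFF tab st₀ t) c n T st) = true := h
    rw [Bool.and_eq_true] at h'
    exact S.run_sound M OFF tab _ c hM hO hT ih n (Nat.le_of_ble_eq_true h'.1) T st h'.2

/-- the result for the initial goal -/
theorem Sys.final (S : Sys) (s : ℕ) (R : List (List ℤ)) (hR : R.all (okR (S.nv s)) = true)
    (h : S.V s (pkRows R)) (x : ℕ → ℤ) (hx : ∀ l ∈ R, evL l x ≤ 0) : S.W s x :=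
  h _ x rfl (hold_rows hR hx)

/-- the stack of a list of goals -/
def pkG : BH → Stk
  | [] => .nil
  | g :: G => .cons g.1 (pkRows g.2) (pkG G)

/-- the result for a list of initial goals -/
theorem Sys.finalG (S : Sys) (G : BH) (hG : G.all (fun g => g.2.all (okR (S.nv g.1))) = true)
    (h : S.AllV (pkG G)) : ∀ g ∈ G, ∀ x : ℕ → ℤ, (∀ l ∈ g.2, evL l x ≤ 0) → S.W g.1 x := by
  induction G with
  | nil => intro g hg; simp at hg
  | cons g0 G ih =>
    rw [List.all_cons, Bool.and_eq_true] at hG
    have h' : S.V g0.1 (pkRows g0.2) ∧ S.AllV (pkG G) := h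
    intro g hg
    rw [List.mem_cons] at hg
    rcases hg with rfl | hg
    · exact fun x hx => S.final g.1 g.2 hG.1 h'.1 x hx
    · exact ih hG.2 h'.2 g hg

/-- a property of all rules of a table -/
def allT (valid : ℕ → BH → Bool) : RTH → Bool
  | .L s H => valid s H
  | .N l r => allT valid l && allT valid r

/-- rules which are recognised by a sound function -/
theorem Sys.sound_of_all (S : Sys) (valid : ℕ → BH → Bool)
    (hv : ∀ s H, valid s H = true → S.Rule s H) (t : RTH) (ht : allT valid t = true) :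
    S.Sound t := by
  induction t with
  | L s H => exact hv s H ht
  | N l r ihl ihr =>
    rw [allT, Bool.and_eq_true] at ht
    exact ⟨ihl ht.1, ihr ht.2⟩

/-- the negation of `f ≤ 0` for integers -/
def negL : List ℤ → List ℤ
  | [] => [1]
  | c :: l => (1 - c) :: l.map (fun a => -a)

theorem evd_neg (l : List ℤ) : ∀ y : ℕ → ℤ, evd (l.map (fun a => -a)) y = - evd l y := by
  induction l with
  | nil => intro y; simp [evd]
  | cons c l ih => intro y; rw [List.map_cons, evd, evd, ih]; ring

theorem evL_neg (l : List ℤ) (x : ℕ → ℤ) : evL (negL l) x = 1 - evL l x := by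
  cases l with
  | nil => simp [negL, evL, evd, yy]
  | cons c l => rw [negL, evL, evL, evd, evd, evd_neg]; simp only [yy]; ring

/-- case distinction `f ≤ 0` or `f ≥ 1` is a sound rule of every state -/
theorem Sys.rule_split (S : Sys) (s : ℕ) (f : List ℤ) : S.Rule s [(s, [f]), (s, [negL f])] := by
  intro x h
  by_cases hf : evL f x ≤ 0
  · exact h (s, [f]) (by simp) x (fun _ _ => rfl) (by simpa using hf)
  · refine h (s, [negL f]) (by simp) x (fun _ _ => rfl) ?_
    intro l hl
    rw [List.mem_singleton] at hl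
    rw [hl, evL_neg]
    omega

/-- win rule: if the forms `gs` are all `≤ 0` then `W s x` -/
theorem Sys.rule_win (S : Sys) (s : ℕ) (gs : List (List ℤ))
    (hw : ∀ x : ℕ → ℤ, (∀ g ∈ gs, evL g x ≤ 0) → S.W s x) :
    S.Rule s (gs.map fun g => (s, [negL g])) := by
  intro x h
  by_contra hcon
  apply hcon
  apply hw
  intro g hg
  by_contra hg0
  apply hcon
  refine h (s, [negL g]) (List.mem_map.2 ⟨g, hg, rfl⟩) x (fun _ _ => rfl) ?_
  intro l hl
  rw [List.mem_singleton] at hl
  rw [hl, evL_neg]
  omega

/-! ## Constants and equality of packed tables -/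

theorem cM_eq : cM = 2 ^ 960 - 1 := by decide +kernel

theorem cO_eq : cO = off 19 := by decide +kernel

/-- equality of branches -/
def eqB : Brs → Brs → Bool
  | .nil, .nil => true
  | .cons s k r t, .cons s' k' r' t' => Nat.beq s s' && (Nat.beq k k' && (Nat.beq r r' && eqB t t'))
  | _, _ => false

/-- equality of tables -/
def eqT : RT → RT → Bool
  | .L s b, .L s' b' => Nat.beq s s' && eqB b b'
  | .N l r, .N l' r' => eqT l l' && eqT r r'
  | _, _ => false

theorem eqB_sound : ∀ b b', eqB b b' = true → b = b' := by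
  intro b
  induction b with
  | nil => intro b' h; cases b' with
    | nil => rfl
    | cons => simp [eqB] at h
  | cons s k r t ih =>
    intro b' h
    cases b' with
    | nil => simp [eqB] at h
    | cons s' k' r' t' =>
      rw [eqB, Bool.and_eq_true, Bool.and_eq_true, Bool.and_eq_true] at h
      obtain ⟨h1, h2, h3, h4⟩ := h
      rw [Nat.eq_of_beq_eq_true h1, Nat.eq_of_beq_eq_true h2, Nat.eq_of_beq_eq_true h3, ih t' h4]

theorem eqT_sound : ∀ t t', eqT t t' = true → t = t' := by
  intro t
  induction t with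
  | L s b =>
    intro t' h
    cases t' with
    | L s' b' =>
      rw [eqT, Bool.and_eq_true] at h
      rw [Nat.eq_of_beq_eq_true h.1, eqB_sound b b' h.2]
    | N => simp [eqT] at h
  | N l r ihl ihr =>
    intro t' h
    cases t' with
    | L => simp [eqT] at h
    | N l' r' =>
      rw [eqT, Bool.and_eq_true] at h
      rw [ihl l' h.1, ihr r' h.2]

/-- the packed table (literals) is sound -/
theorem Sys.tab_lit (S : Sys) (t : RTH) (tab : RT) (h0 : eqT t.pack tab = true)
    (h1 : okT S.nv t = true) (h2 : S.Sound t) : S.Tab tab := by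
  rw [← eqT_sound _ _ h0]
  exact S.tab_of t h1 h2

/-- the machine with the right constants -/
theorem Sys.run_lit (S : Sys) (t : RTH) (tab : RT) (h0 : eqT t.pack tab = true)
    (h1 : okT S.nv t = true) (h2 : S.Sound t) (st₀ : Stk) (hst : S.AllV st₀) (tp : Tp) (st : Stk)
    (h : runs cM cO tab st₀ tp st = true) : S.AllV st :=
  S.runs_sound cM cO tab st₀ cM_eq cO_eq (S.tab_lit t tab h0 h1 h2) hst tp st h

end Pool.Agent.Work.MP_bf01b2_co.MR.Lp
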