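import Pool.Agent.Work.MP_bf01b2_co.MR.Dir
import Pool.Agent.Work.MP_bf01b2_co.MR.LevelF

/-!
# The level lemma in the form `LvlP`
-/

set_option autoImplicit false

namespace Pool.Agent.Work.MP_bf01b2_co.MR

theorem lvlP (m : ℕ) : LvlP m := by
  intro j b TX TY O s sz us hnd hok hpth hs hTX hTY hO hOd _ hcut hX0 hX1 hY
  refine levelF j b O (un := TY.length) hnd hok hpth hs hTX hTY hO hOd (sz := sz) (us := us) ?_
    (unmatched_le j TX TY) hX0 ?_ hY
  · have e : (fun U : LRT (Fin (m + 1) → Bool) => (decide (flip j U.pos ∈ poss TY ∨ flip j U.pos ∈ O),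
        U.l.core (fun _ => false), U.r.core (fun _ => false))) = cdatP j (poss TY ∪ O) := by
      funext U
      simp only [cdatP, Finset.mem_union]
    rw [e]
    exact hcut
  · intro hus
    rcases hX1 hus with h | ⟨h1, h2, h3⟩
    · exact Or.inl h
    · exact Or.inr ⟨by rw [h1]; rfl, Finset.card_eq_zero.1 h2, h3⟩

end Pool.Agent.Work.MP_bf01b2_co.MR
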