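import Pool.Agent.Work.MP_bf01b2_co.MR.Calc

/-!
# Marks recursion: facts about bit masks (regions of `Q_5` are numbers below `2 ^ 32`)
-/

namespace Pool.Agent.Work.MP_bf01b2_co.MR

/-- adjacency of the cube `Q_d` on natural numbers (bit strings) -/
def ncadj (d : ℕ) (x y : ℕ) : Prop := ∃ i, i < d ∧ y = x ^^^ 2 ^ i

/-- the set coded by a bit mask -/
def msk (X : ℕ) : Set ℕ := {v | X.testBit v = true}

theorem mem_msk {X v : ℕ} : v ∈ msk X ↔ X.testBit v = true := Iff.rfl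

/-- facts for bit masks -/
def NF (d X O : ℕ) (ms : List (Mk ℕ)) : Prop := SF (ncadj d) (msk X) (msk O) ms

theorem msk_zero : msk 0 = ∅ := by
  ext v; simp [msk]

theorem msk_eq_empty {O : ℕ} : msk O = ∅ ↔ O = 0 := by
  constructor
  · intro h
    apply Nat.eq_of_testBit_eq
    intro i
    by_contra hne
    have : O.testBit i = true := by simpa using hne
    have h' : i ∈ msk O := this
    rw [h] at h'
    exact h'
  · rintro rfl
    exact msk_zero

theorem msk_disjoint {X Y : ℕ} (h : X &&& Y = 0) : Disjoint (msk X) (msk Y) := by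
  rw [Set.disjoint_left]
  intro v hv hv'
  have : (X &&& Y).testBit v = true := by
    rw [Nat.testBit_and, mem_msk.mp hv, mem_msk.mp hv']; rfl
  rw [h] at this
  simp at this

theorem msk_subset {X Y : ℕ} (h : X &&& Y = X) : msk X ⊆ msk Y := by
  intro v hv
  have h1 : (X &&& Y).testBit v = true := by rw [h]; exact hv
  rw [Nat.testBit_and, Bool.and_eq_true] at h1
  exact h1.2

theorem msk_and (X Y : ℕ) : msk (X &&& Y) = msk X ∩ msk Y := by
  ext v; simp [msk, Nat.testBit_and]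

theorem msk_or (X Y : ℕ) : msk (X ||| Y) = msk X ∪ msk Y := by
  ext v; simp [msk, Nat.testBit_or]

theorem msk_single (p : ℕ) : msk (2 ^ p) = {p} := by
  ext v
  rw [mem_msk, Nat.testBit_two_pow, Set.mem_singleton_iff]
  simp [eq_comm]

theorem msk_erase {X p : ℕ} (h : X.testBit p = true) : msk (X ^^^ 2 ^ p) = msk X \ {p} := by
  ext v
  rw [mem_msk, Nat.testBit_xor, Nat.testBit_two_pow, Set.mem_diff, mem_msk,
    Set.mem_singleton_iff]
  by_cases hv : v = p
  · subst hv; simp [h]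
  · have : ¬ p = v := fun h => hv h.symm
    simp [hv, this]

/-! ### Automorphisms -/

/-- flip the bit `i` of a vertex -/
def flipV (i v : ℕ) : ℕ := v ^^^ 2 ^ i

theorem flipV_flipV (i v : ℕ) : flipV i (flipV i v) = v := by
  simp [flipV, Nat.xor_assoc]

/-- flip as an equivalence -/
def flipE (i : ℕ) : ℕ ≃ ℕ := ⟨flipV i, flipV i, flipV_flipV i, flipV_flipV i⟩

/-- exchange the bits `i` and `j` of a vertex -/
def swapV (i j v : ℕ) : ℕ :=
  if v.testBit i = v.testBit j then v else v ^^^ (2 ^ i ^^^ 2 ^ j)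

theorem testBit_swapV (i j v k : ℕ) : (swapV i j v).testBit k =
    if k = i then v.testBit j else if k = j then v.testBit i else v.testBit k := by
  unfold swapV
  by_cases h : v.testBit i = v.testBit j
  · rw [if_pos h]
    split_ifs with h1 h2
    · rw [h1, h]
    · rw [h2, h]
    · rfl
  · rw [if_neg h]
    have hij : i ≠ j := fun e => h (by rw [e])
    rw [Nat.testBit_xor, Nat.testBit_xor, Nat.testBit_two_pow, Nat.testBit_two_pow]
    split_ifs with h1 h2
    · subst h1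
      have : ¬ j = k := fun e => hij e.symm
      cases h3 : v.testBit k <;> cases h4 : v.testBit j <;> simp_all
    · subst h2
      cases h3 : v.testBit i <;> cases h4 : v.testBit k <;> simp_all
    · have h5 : ¬ i = k := fun e => h1 e.symm
      have h6 : ¬ j = k := fun e => h2 e.symm
      simp [h5, h6]

theorem swapV_swapV (i j v : ℕ) : swapV i j (swapV i j v) = v := by
  apply Nat.eq_of_testBit_eq
  intro k
  rw [testBit_swapV, testBit_swapV, testBit_swapV, testBit_swapV]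
  by_cases h1 : k = i
  · subst h1
    by_cases h2 : j = k
    · subst h2; simp
    · simp [h2]
  · by_cases h2 : k = j
    · subst h2; simp [h1]
    · simp [h1, h2]

/-- swap as an equivalence -/
def swapE (i j : ℕ) : ℕ ≃ ℕ := ⟨swapV i j, swapV i j, swapV_swapV i j, swapV_swapV i j⟩

theorem ncadj_flip {d i : ℕ} {a b : ℕ} (h : ncadj d a b) : ncadj d (flipE i a) (flipE i b) := by
  obtain ⟨k, hk, rfl⟩ := h
  refine ⟨k, hk, ?_⟩
  show flipV i (a ^^^ 2 ^ k) = flipV i a ^^^ 2 ^ k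
  unfold flipV
  rw [Nat.xor_assoc, Nat.xor_assoc, Nat.xor_comm (2 ^ k)]

theorem swapV_xor (i j a b : ℕ) : swapV i j (a ^^^ b) = swapV i j a ^^^ swapV i j b := by
  apply Nat.eq_of_testBit_eq
  intro k
  rw [Nat.testBit_xor, testBit_swapV, testBit_swapV, testBit_swapV]
  split_ifs <;> rw [Nat.testBit_xor]

theorem swapV_two_pow (i j k : ℕ) :
    swapV i j (2 ^ k) = 2 ^ (if k = i then j else if k = j then i else k) := by
  apply Nat.eq_of_testBit_eq
  intro l
  rw [testBit_swapV, Nat.testBit_two_pow, Nat.testBit_two_pow, Nat.testBit_two_pow,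
    Nat.testBit_two_pow]
  by_cases h1 : k = i <;> by_cases h2 : k = j <;> by_cases h3 : l = i <;> by_cases h4 : l = j <;>
    simp_all <;> (try omega) <;> (try (constructor <;> intro h <;> omega))

theorem ncadj_swap {d i j : ℕ} (hi : i < d) (hj : j < d) {a b : ℕ} (h : ncadj d a b) :
    ncadj d (swapE i j a) (swapE i j b) := by
  obtain ⟨k, hk, rfl⟩ := h
  refine ⟨if k = i then j else if k = j then i else k, by split_ifs <;> assumption, ?_⟩
  show swapV i j (a ^^^ 2 ^ k) = swapV i j a ^^^ _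
  rw [swapV_xor, swapV_two_pow]

/-- mask of the vertices `v < 32` whose bit `i` is `0` -/
def lowM : ℕ → ℕ
  | 0 => 0x55555555
  | 1 => 0x33333333
  | 2 => 0x0F0F0F0F
  | 3 => 0x00FF00FF
  | _ => 0x0000FFFF

/-- image of a 32 bit mask under the flip of bit `i` -/
def flipM (i X : ℕ) : ℕ :=
  ((X >>> 2 ^ i) &&& (lowM i)) ||| ((X &&& (lowM i)) <<< 2 ^ i)

theorem testBit_ge {X v : ℕ} (hX : X < 2 ^ 32) (hv : 32 ≤ v) : X.testBit v = false :=
  Nat.testBit_lt_two_pow (lt_of_lt_of_le hX (Nat.pow_le_pow_right (by norm_num) hv))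

theorem lowM_lt (i : ℕ) : lowM i < 2 ^ 32 := by
  unfold lowM; split <;> norm_num

theorem flipV_ge {i v : ℕ} (hi : i < 5) (hv : 32 ≤ v) : 32 ≤ flipV i v := by
  by_contra hc
  push Not at hc
  have h1 : flipV i (flipV i v) < 2 ^ 5 :=
    Nat.xor_lt_two_pow hc (Nat.pow_lt_pow_right (by norm_num) hi)
  rw [flipV_flipV] at h1
  omega

theorem lowM_tb : ∀ i < 5, ∀ w < 64, (lowM i).testBit w = (decide (w < 32) && !(w.testBit i)) := by
  decide +kernel

theorem testBit_flipM {i : ℕ} (hi : i < 5) {X : ℕ} (hX : X < 2 ^ 32) (v : ℕ) :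
    (flipM i X).testBit (flipV i v) = X.testBit v := by
  have hw : ∀ w, (flipM i X).testBit w = ((X.testBit (2 ^ i + w) && (lowM i).testBit w) ||
      (decide (2 ^ i ≤ w) && (X.testBit (w - 2 ^ i) && (lowM i).testBit (w - 2 ^ i)))) := by
    intro w
    unfold flipM
    rw [Nat.testBit_or, Nat.testBit_and, Nat.testBit_shiftRight, Nat.testBit_shiftLeft,
      Nat.testBit_and]
  by_cases hv : v < 32
  · have key : ∀ i < 5, ∀ v < 32, 
        (v.testBit i = true → 2 ^ i + flipV i v = v ∧ (lowM i).testBit (flipV i v) = true ∧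
          (decide (2 ^ i ≤ flipV i v) && (lowM i).testBit (flipV i v - 2 ^ i)) = false) ∧
        (v.testBit i = false → flipV i v - 2 ^ i = v ∧ (lowM i).testBit (flipV i v) = false ∧
          2 ^ i ≤ flipV i v ∧ (lowM i).testBit v = true) := by
      decide +kernel
    rw [hw]
    cases hb : v.testBit i with
    | true =>
      obtain ⟨h1, h2, h3⟩ := (key i hi v hv).1 hb
      rw [h1, h2, Bool.and_true]
      rw [Bool.and_comm (X.testBit (flipV i v - 2 ^ i)), ← Bool.and_assoc, h3, Bool.false_and,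
        Bool.or_false]
    | false =>
      obtain ⟨h1, h2, h3, h4⟩ := (key i hi v hv).2 hb
      rw [h1, h2, Bool.and_false, Bool.false_or, h4, Bool.and_true, decide_eq_true h3,
        Bool.true_and]
  · push Not at hv
    rw [testBit_ge hX hv, hw]
    have h1 := flipV_ge hi hv
    generalize flipV i v = w at h1
    rw [testBit_ge (lowM_lt i) h1, Bool.and_false, Bool.false_or]
    by_cases h2 : w < 64
    · have key : ∀ i < 5, ∀ w < 64, 32 ≤ w → 32 ≤ w - 2 ^ i ∨ (lowM i).testBit (w - 2 ^ i) = false := by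
        decide +kernel
      rcases key i hi w h2 h1 with h3 | h3
      · rw [testBit_ge hX h3]; simp
      · rw [h3]; simp
    · have h3 : 2 ^ i ≤ 16 := by interval_cases i <;> norm_num
      rw [testBit_ge hX (by omega)]; simp

/-- mask of the vertices below `32` with equal bits `i` and `j` -/
def fixM : ℕ → ℕ → ℕ
  | 0, 1 => 0x99999999
  | 0, 2 => 0xA5A5A5A5
  | 0, 3 => 0xAA55AA55
  | 0, 4 => 0xAAAA5555
  | 1, 2 => 0xC3C3C3C3
  | 1, 3 => 0xCC33CC33
  | 1, 4 => 0xCCCC3333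
  | 2, 3 => 0xF00FF00F
  | 2, 4 => 0xF0F00F0F
  | 3, 4 => 0xFF0000FF
  | _, _ => 0xFFFFFFFF

/-- mask of the vertices below `32` with bit `i` equal to one and bit `j` equal to zero -/
def tenM : ℕ → ℕ → ℕ
  | 0, 1 => 0x22222222
  | 0, 2 => 0x0A0A0A0A
  | 0, 3 => 0x00AA00AA
  | 0, 4 => 0x0000AAAA
  | 1, 2 => 0x0C0C0C0C
  | 1, 3 => 0x00CC00CC
  | 1, 4 => 0x0000CCCC
  | 2, 3 => 0x00F000F0
  | 2, 4 => 0x0000F0F0
  | 3, 4 => 0x0000FF00
  | _, _ => 0

/-- image of a 32 bit mask under the exchange of the bits `i < j` -/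
def swapM (i j X : ℕ) : ℕ :=
  (X &&& fixM i j) ||| ((X &&& tenM i j) <<< (2 ^ j - 2 ^ i)) |||
    ((X >>> (2 ^ j - 2 ^ i)) &&& tenM i j)

theorem swapV_ge {i j v : ℕ} (hi : i < 5) (hj : j < 5) (hv : 32 ≤ v) : 32 ≤ swapV i j v := by
  by_contra hc
  push Not at hc
  unfold swapV at hc
  split_ifs at hc with h2
  · omega
  · have h1 : (v ^^^ (2 ^ i ^^^ 2 ^ j)) ^^^ (2 ^ i ^^^ 2 ^ j) < 2 ^ 5 :=
      Nat.xor_lt_two_pow hc
        (Nat.xor_lt_two_pow (Nat.pow_lt_pow_right (by norm_num) hi)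
          (Nat.pow_lt_pow_right (by norm_num) hj))
    rw [Nat.xor_assoc, Nat.xor_self, Nat.xor_zero] at h1
    omega

/-- auxiliary check -/
def swChk (i j v : ℕ) : Bool :=
  (swapV i j v == v && (fixM i j).testBit v &&
    !(decide (2 ^ j - 2 ^ i ≤ v) && (tenM i j).testBit (v - (2 ^ j - 2 ^ i))) &&
    !((tenM i j).testBit v)) ||
  (!((fixM i j).testBit (swapV i j v)) && decide (2 ^ j - 2 ^ i ≤ swapV i j v) &&
    (swapV i j v - (2 ^ j - 2 ^ i) == v) && (tenM i j).testBit v &&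
    !((tenM i j).testBit (swapV i j v))) ||
  (!((fixM i j).testBit (swapV i j v)) &&
    !(decide (2 ^ j - 2 ^ i ≤ swapV i j v) &&
      (tenM i j).testBit (swapV i j v - (2 ^ j - 2 ^ i))) &&
    (2 ^ j - 2 ^ i + swapV i j v == v) && (tenM i j).testBit (swapV i j v))

theorem swChk_true : ∀ j < 5, ∀ i < j, ∀ v < 32, swChk i j v = true := by decide +kernel

theorem ten_tb : ∀ j < 5, ∀ i < j, ∀ w < 64, 32 ≤ w →
    (32 ≤ w - (2 ^ j - 2 ^ i) ∨ (tenM i j).testBit (w - (2 ^ j - 2 ^ i)) = false) := by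
  decide +kernel

theorem testBit_swapM {i j : ℕ} (hij : i < j) (hj : j < 5) {X : ℕ} (hX : X < 2 ^ 32) (v : ℕ) :
    (swapM i j X).testBit (swapV i j v) = X.testBit v := by
  have hw : ∀ w, (swapM i j X).testBit w = ((X.testBit w && (fixM i j).testBit w) ||
      (decide (2 ^ j - 2 ^ i ≤ w) && (X.testBit (w - (2 ^ j - 2 ^ i)) &&
        (tenM i j).testBit (w - (2 ^ j - 2 ^ i)))) ||
      (X.testBit (2 ^ j - 2 ^ i + w) && (tenM i j).testBit w)) := by
    intro w
    unfold swapM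
    rw [Nat.testBit_or, Nat.testBit_or, Nat.testBit_and, Nat.testBit_and,
      Nat.testBit_shiftRight, Nat.testBit_shiftLeft, Nat.testBit_and]
  by_cases hv : v < 32
  · have key := swChk_true j hj i hij v hv
    unfold swChk at key
    rw [Bool.or_eq_true, Bool.or_eq_true] at key
    simp only [Bool.and_eq_true, beq_iff_eq, Bool.not_eq_true'] at key
    rw [hw]
    rcases key with (⟨⟨⟨h1, h2⟩, h3⟩, h4⟩ | ⟨⟨⟨⟨h1, h2⟩, h3⟩, h4⟩, h5⟩) | ⟨⟨⟨h1, h2⟩, h3⟩, h4⟩
    · rw [h1, h2, h4, Bool.and_comm (X.testBit (v - (2 ^ j - 2 ^ i))), ← Bool.and_assoc, h3]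
      simp
    · rw [h1, h3, h4, h5, h2]
      simp
    · rw [h1, h3, h4, Bool.and_comm (X.testBit (swapV i j v - (2 ^ j - 2 ^ i))),
        ← Bool.and_assoc, h2]
      simp
  · push Not at hv
    rw [testBit_ge hX hv, hw]
    have h1 := swapV_ge (lt_trans hij hj) hj hv
    generalize swapV i j v = w at h1
    have h3 : tenM i j < 2 ^ 32 := by unfold tenM; split <;> norm_num
    rw [testBit_ge hX h1, testBit_ge h3 h1, Bool.false_and, Bool.false_or, Bool.and_false,
      Bool.or_false]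
    by_cases h2 : w < 64
    · rcases ten_tb j hj i hij w h2 h1 with h4 | h4
      · rw [testBit_ge hX h4]; simp
      · rw [h4]; simp
    · have h5 : ∀ j < 5, (2 : ℕ) ^ j ≤ 16 := by decide
      have h4 : (2 : ℕ) ^ j ≤ 16 := h5 j hj
      have h6 : (2 : ℕ) ^ j - 2 ^ i ≤ 16 := le_trans (Nat.sub_le _ _) h4
      rw [testBit_ge hX (show 32 ≤ w - (2 ^ j - 2 ^ i) by omega)]
      simp

theorem image_msk (e : ℕ ≃ ℕ) {X Y : ℕ} (h : ∀ v, Y.testBit (e v) = X.testBit v) :
    e '' msk X = msk Y := by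
  ext w
  constructor
  · rintro ⟨v, hv, rfl⟩
    show Y.testBit (e v) = true
    rw [h]; exact hv
  · intro hw
    refine ⟨e.symm w, ?_, e.apply_symm_apply w⟩
    show X.testBit (e.symm w) = true
    rw [← h, e.apply_symm_apply]; exact hw

theorem NF.flip {i : ℕ} (hi : i < 5) {X O : ℕ} (hX : X < 2 ^ 32) (hO : O < 2 ^ 32)
    {ms : List (Mk ℕ)} (h : NF 5 X O ms) :
    NF 5 (flipM i X) (flipM i O) (ms.map (Mk.map (flipV i))) := by
  have h1 := SF.map (adj' := ncadj 5) (flipE i) (fun a b hab => ncadj_flip hab) h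
  rw [image_msk (flipE i) (testBit_flipM hi hX), image_msk (flipE i) (testBit_flipM hi hO)] at h1
  exact h1

theorem NF.swap {i j : ℕ} (hij : i < j) (hj : j < 5) {X O : ℕ} (hX : X < 2 ^ 32)
    (hO : O < 2 ^ 32) {ms : List (Mk ℕ)} (h : NF 5 X O ms) :
    NF 5 (swapM i j X) (swapM i j O) (ms.map (Mk.map (swapV i j))) := by
  have h1 := SF.map (adj' := ncadj 5) (swapE i j)
    (fun a b hab => ncadj_swap (lt_trans hij hj) hj hab) h
  rw [image_msk (swapE i j) (testBit_swapM hij hj hX),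
    image_msk (swapE i j) (testBit_swapM hij hj hO)] at h1
  exact h1

/-! ### The rules for bit masks -/

/-- Boolean form of domination -/
def Mk.domB (O O' : ℕ) (m m' : Mk ℕ) : Bool :=
  m.k.ble m'.k && (O' == 0 || (!(O == 0) && m.s.ble m'.s &&
    (!(O'.testBit m.p) || O.testBit m.p || m.s == 0)))

theorem Mk.domB_sound {O O' : ℕ} {m m' : Mk ℕ} (h : m.domB O O' m' = true) :
    m.Dom (msk O) (msk O') m' := by
  unfold Mk.domB at h
  rw [Bool.and_eq_true] at h
  refine ⟨Nat.le_of_ble_eq_true h.1, ?_⟩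
  have h2 := h.2
  simp only [Bool.or_eq_true, Bool.and_eq_true, beq_iff_eq, Bool.not_eq_true'] at h2
  rcases h2 with h2 | ⟨⟨h2, h3⟩, h4⟩
  · exact Or.inl (msk_eq_empty.mpr h2)
  · refine Or.inr ⟨fun e => ?_, Nat.le_of_ble_eq_true h3, fun hm => ?_⟩
    · rw [msk_eq_empty] at e
      rw [e] at h2
      simp at h2
    · rcases h4 with (h4 | h4) | h4
      · rw [mem_msk] at hm; rw [hm] at h4; simp at h4
      · exact Or.inl h4
      · exact Or.inr h4

/-- a state: region, soft positions, marks -/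
structure St where
  /-- region -/
  X : ℕ
  /-- soft positions -/
  O : ℕ
  /-- marks -/
  ms : List (Mk ℕ)

/-- the fact of a state -/
def St.Ok (d : ℕ) (S : St) : Prop := NF d S.X S.O S.ms

/-- Boolean form of the cover rule: the regions of `refs` are successively removed from `X` -/
def coverB (O : ℕ) (ms : List (Mk ℕ)) : ℕ → List St → Bool
  | _, [] => true
  | X, r :: rs => (X &&& r.X) == r.X && ((O &&& r.X) &&& r.O) == (O &&& r.X) &&
      coverB O ms (X ^^^ r.X) rs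

/-- every mark is served -/
def servedB (O : ℕ) (refs : List St) (m : Mk ℕ) : Bool :=
  refs.any fun r => (r.ms.any fun m' => m'.p == m.p) &&
    r.ms.all fun m' => !(m'.p == m.p) || m.domB O r.O m'

theorem xor_and_disj {X Y : ℕ} (h : X &&& Y = Y) : (X ^^^ Y) &&& Y = 0 ∧
    (X ^^^ Y) &&& X = X ^^^ Y := by
  have hb : ∀ i, (X.testBit i && Y.testBit i) = Y.testBit i := by
    intro i
    rw [← Nat.testBit_and, h]
  constructor
  · apply Nat.eq_of_testBit_eq
    intro i
    have := hb i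
    rw [Nat.testBit_and, Nat.testBit_xor]
    cases h1 : X.testBit i <;> cases h2 : Y.testBit i <;> simp_all
  · apply Nat.eq_of_testBit_eq
    intro i
    have := hb i
    rw [Nat.testBit_and, Nat.testBit_xor]
    cases h1 : X.testBit i <;> cases h2 : Y.testBit i <;> simp_all

theorem coverB_sound {O : ℕ} {ms : List (Mk ℕ)} : ∀ {refs : List St} {X : ℕ},
    coverB O ms X refs = true →
      refs.Pairwise (fun r r' => Disjoint (msk r.X) (msk r'.X)) ∧
      (∀ r ∈ refs, msk r.X ⊆ msk X) ∧ (∀ r ∈ refs, ∀ v ∈ msk r.X, v ∈ msk O → v ∈ msk r.O)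
  | [], _, _ => by simp
  | r :: rs, X, h => by
    unfold coverB at h
    simp only [Bool.and_eq_true, beq_iff_eq] at h
    obtain ⟨⟨h1, h2⟩, h3⟩ := h
    obtain ⟨i1, i2, i3⟩ := coverB_sound h3
    obtain ⟨e1, e2⟩ := xor_and_disj h1
    refine ⟨?_, ?_, ?_⟩
    · rw [List.pairwise_cons]
      refine ⟨fun r' hr' => ?_, i1⟩
      exact ((msk_disjoint e1).mono_left (i2 r' hr')).symm
    · intro r' hr'
      rcases List.mem_cons.mp hr' with rfl | hr'
      · exact msk_subset (by rw [Nat.land_comm]; exact h1)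
      · exact (i2 r' hr').trans (msk_subset e2)
    · intro r' hr' v hv hvO
      rcases List.mem_cons.mp hr' with rfl | hr'
      · have h4 : v ∈ msk ((O &&& r'.X) &&& r'.O) := by
          rw [h2, msk_and]; exact ⟨hvO, hv⟩
        rw [msk_and] at h4
        exact h4.2
      · exact i3 r' hr' v hv hvO

/-- **Cover rule for bit masks.** -/
theorem NF.cover {d X O : ℕ} {ms : List (Mk ℕ)} {refs : List St} (h : ∀ r ∈ refs, r.Ok d)
    (h1 : coverB O ms X refs = true) (h2 : ms.all (servedB O refs) = true) : NF d X O ms := by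
  obtain ⟨c1, c2, c3⟩ := coverB_sound h1
  refine SF.cover (refs.map fun r => (msk r.X, msk r.O, r.ms)) ?_ ?_ ?_ ?_ ?_
  · intro r hr
    obtain ⟨r', hr', rfl⟩ := List.mem_map.mp hr
    exact h r' hr'
  · rw [List.pairwise_map]
    exact c1
  · intro r hr
    obtain ⟨r', hr', rfl⟩ := List.mem_map.mp hr
    exact c2 r' hr'
  · intro r hr
    obtain ⟨r', hr', rfl⟩ := List.mem_map.mp hr
    exact c3 r' hr'
  · intro m hm
    rw [List.all_eq_true] at h2
    have h3 := h2 m hm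
    unfold servedB at h3
    rw [List.any_eq_true] at h3
    obtain ⟨r, hr, h4⟩ := h3
    rw [Bool.and_eq_true, List.any_eq_true, List.all_eq_true] at h4
    obtain ⟨⟨m', hm', e⟩, h5⟩ := h4
    refine ⟨_, List.mem_map_of_mem hr, ⟨m', hm', by simpa using e⟩, ?_⟩
    intro m2 hm2 e2
    have h6 := h5 m2 hm2
    rw [Bool.or_eq_true] at h6
    rcases h6 with h6 | h6
    · rw [e2] at h6; simp at h6
    · exact Mk.domB_sound h6

/-- single vertices -/
theorem St.ok_single (d p s O : ℕ) : St.Ok d ⟨2 ^ p, O, [⟨p, 0, s⟩]⟩ := by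
  unfold St.Ok NF
  simp only
  rw [msk_single]
  exact SF.single p s (msk O)

/-- **Expansion rule for bit masks.** The mark `⟨p, k, s⟩` of the state is expanded. `X' = X ^^^ 2 ^ p`
is the region without the root. -/
theorem NF.expand {d X O p k s : ℕ} {ms : List (Mk ℕ)} (hk : 1 ≤ k) (hp : X.testBit p = true)
    (hpm : ∀ m ∈ ms, m.p ≠ p)
    (h0 : ∃ i, i < d ∧ (∀ m ∈ ms, m.p ≠ p ^^^ 2 ^ i) ∧ (O.testBit (p ^^^ 2 ^ i) = false ∨ s = 0) ∧
      NF d (X ^^^ 2 ^ p) O (⟨p ^^^ 2 ^ i, k - 1, s⟩ :: ms))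
    (h1 : ∀ b, 1 ≤ b → 2 * b ≤ k → ∀ sb ≤ s, ∃ i j, i < d ∧ j < d ∧ i ≠ j ∧
      (∀ m ∈ ms, m.p ≠ p ^^^ 2 ^ i ∧ m.p ≠ p ^^^ 2 ^ j) ∧
      (O.testBit (p ^^^ 2 ^ i) = false ∨ s - sb = 0) ∧
      (O.testBit (p ^^^ 2 ^ j) = false ∨ sb = 0) ∧
      NF d (X ^^^ 2 ^ p) O (⟨p ^^^ 2 ^ i, k - b - 1, s - sb⟩ :: ⟨p ^^^ 2 ^ j, b - 1, sb⟩ :: ms)) :
    NF d X O (⟨p, k, s⟩ :: ms) := by
  have hN : ∀ x, O.testBit x = false → x ∉ msk O := by
    intro x hx hx'
    rw [mem_msk, hx] at hx'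
    simp at hx'
  unfold NF at *
  rw [msk_erase hp] at h0
  refine SF.expand hk hp hpm ?_ ?_
  · obtain ⟨i, hi, a1, a2, a3⟩ := h0
    exact ⟨p ^^^ 2 ^ i, ⟨i, hi, rfl⟩, a1, a2.imp (hN _) id, a3⟩
  · intro b hb hb2 sb hsb
    obtain ⟨i, j, hi, hj, hij, a1, a2, a3, a4⟩ := h1 b hb hb2 sb hsb
    rw [msk_erase hp] at a4
    refine ⟨p ^^^ 2 ^ i, p ^^^ 2 ^ j, ⟨i, hi, rfl⟩, ⟨j, hj, rfl⟩, ?_, a1, a2.imp (hN _) id,
      a3.imp (hN _) id, a4⟩
    intro e
    apply hij
    have : 2 ^ i = 2 ^ j := Nat.xor_right_injective e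
    exact Nat.pow_right_injective (le_refl 2) this

/-- only the set of marks matters -/
theorem NF.congr {d X O : ℕ} {ms ms' : List (Mk ℕ)} (h : ∀ m, m ∈ ms ↔ m ∈ ms')
    (hF : NF d X O ms) : NF d X O ms' := by
  intro τ hτ
  obtain ⟨A, q, h1, h2⟩ := hF τ (fun m hm => hτ m ((h m).mp hm))
  exact ⟨A, q, fun m hm => h1 m ((h m).mpr hm),
    fun m hm m' hm' => h2 m ((h m).mpr hm) m' ((h m').mpr hm')⟩

end Pool.Agent.Work.MP_bf01b2_co.MR
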