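import Pool.Agent.Work.MP_bf01b2_co.MR.GnO

/-!
# One tree per soft position

`GdT m pm v`, `v` a list of `(size, d, s)`: every labelled forest on `Q_m` whose trees have at most
these sizes, at most `d` soft positions and at most `s` special holes each, such that the soft
positions of different trees are different and the special holes of every tree lie on one descending
path (`pm = true`) or, for every soft position, its special holes lie on one descending path
(`pm = false`), embeds. Holes directly below a root and positions of roots do not count.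
-/

set_option autoImplicit false

namespace Pool.Agent.Work.MP_bf01b2_co.MR

section basic
variable {V : Type*}

/-- the label of a hole is emptied, other trees do not change -/
def LT.z : LT V → LT V
  | .nil => .nil
  | .hole _ => .hole ∅
  | .node l r => .node l r

theorem LT.z_shape : ∀ t : LT V, t.z.shape = t.shape
  | .nil => rfl
  | .hole _ => rfl
  | .node _ _ => rfl

theorem LT.z_top : ∀ t : LT V, t.z.top = ∅
  | .nil => rfl
  | .hole _ => rfl
  | .node _ _ => rfl

theorem LT.z_size (t : LT V) : t.z.size = t.size := by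
  unfold LT.size
  rw [LT.z_shape]

theorem LT.mem_z_labs : ∀ {t : LT V} {F : Finset V}, F ∈ t.z.labs → F = ∅ ∨ F ∈ t.labs
  | .nil, F, h => by simp [LT.z, LT.labs] at h
  | .hole G, F, h => by
    simp only [LT.z, LT.labs, List.mem_singleton] at h
    exact Or.inl h
  | .node l r, F, h => Or.inr h

theorem LT.z_countP {c : Finset V → Bool} (hc : c ∅ = false) : ∀ t : LT V,
    t.z.labs.countP c ≤ t.labs.countP c
  | .nil => le_rfl
  | .hole F => by simp [LT.z, LT.labs, hc]
  | .node _ _ => le_rfl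

/-- The labels of the holes directly below the root are emptied. -/
def LRT.z (T : LRT V) : LRT V := ⟨T.pos, T.l.z, T.r.z⟩

theorem LRT.z_size (T : LRT V) : T.z.size = T.size := by
  simp only [LRT.z, LRT.size, LT.z_size]

/-- the holes directly below the root have empty labels -/
def LRT.zz (T : LRT V) : Prop := T.l.top = ∅ ∧ T.r.top = ∅

theorem LRT.z_zz (T : LRT V) : T.z.zz := ⟨LT.z_top T.l, LT.z_top T.r⟩

theorem LT.z_of_top : ∀ {t : LT V}, t.top = ∅ → t.z = t
  | .nil, _ => rfl
  | .hole F, h => by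
    have : F = ∅ := h
    rw [this]
    rfl
  | .node _ _, _ => rfl

theorem LRT.zz.ok {T : LRT V} (h : T.zz) : RootOK T := by
  unfold RootOK
  rw [h.1, h.2]
  exact ⟨Finset.notMem_empty _, Finset.notMem_empty _⟩

theorem z_core {R : Finset V → Bool} (hR : R ∅ = false) : ∀ t : LT V,
    HT.Le (t.z.core R) (t.core R)
  | .nil => .nil
  | .hole F => by
    have h1 : (LT.hole F : LT V).z.core R = .nil := by
      unfold LT.z LT.core
      rw [hR]
      rfl
    rw [h1]
    unfold LT.core
    split_ifs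
    · exact .nh
    · exact .nil
  | .node l r => HT.Le.refl _

theorem PT.z {R : Finset V → Bool} (hR : R ∅ = false) {T : LRT V} (h : PT R T) : PT R T.z := by
  have h1 : HT.Le (T.z.tree.core R) (T.tree.core R) := .node (z_core hR T.l) (z_core hR T.r)
  exact h1.pth h

theorem off_of_z {R : Finset V → Bool} : ∀ {t : LT V},
    (t.z.core R).off → (t.core R).off
  | .nil, h => h
  | .hole F, _ => by
    unfold LT.core
    split_ifs
    · exact Or.inl rfl
    · exact Or.inr rfl
  | .node _ _, h => h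

theorem pth_of_z {R : Finset V → Bool} : ∀ {t : LT V},
    (t.z.core R).pth → (t.core R).pth
  | .nil, h => h
  | .hole F, _ => by
    unfold LT.core
    split_ifs <;> trivial
  | .node _ _, h => h

theorem PT.of_z {R : Finset V → Bool} {T : LRT V} (h : PT R T.z) : PT R T := by
  rcases h with h | h
  · exact Or.inl ⟨off_of_z h.1, pth_of_z h.2⟩
  · exact Or.inr ⟨pth_of_z h.1, off_of_z h.2⟩

variable [DecidableEq V]

/-- the soft positions of one tree -/
def sfs (T : LRT V) : Finset V := T.labs.foldr (· ∪ ·) ∅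

theorem mem_sfs {T : LRT V} {x : V} : x ∈ sfs T ↔ ∃ F ∈ T.labs, x ∈ F := mem_foldr_union

/-- number of special holes of one tree -/
def nsp (T : LRT V) : ℕ := T.labs.countP (fun F => decide (F ≠ ∅))

theorem sfs_subset_softs {Ts : List (LRT V)} {T : LRT V} (hT : T ∈ Ts) : sfs T ⊆ softs Ts := by
  intro x hx
  obtain ⟨F, hF, hxF⟩ := mem_sfs.1 hx
  exact mem_softs.2 ⟨T, hT, F, hF, hxF⟩

theorem mem_softs_sfs {Ts : List (LRT V)} {x : V} : x ∈ softs Ts ↔ ∃ T ∈ Ts, x ∈ sfs T := by
  rw [mem_softs]
  exact exists_congr fun T => and_congr_right fun _ => mem_sfs.symm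

theorem card_softs_le : ∀ Ts : List (LRT V), (softs Ts).card ≤ (Ts.map fun T => (sfs T).card).sum
  | [] => by simp [softs]
  | T :: Ts => by
    have h1 : softs (T :: Ts) = sfs T ∪ softs Ts := by
      ext x
      rw [Finset.mem_union, mem_softs_sfs, mem_softs_sfs]
      simp
    rw [h1, List.map_cons, List.sum_cons]
    exact (Finset.card_union_le _ _).trans (Nat.add_le_add_left (card_softs_le Ts) _)

/-- a clean forest with the holes below the roots emptied embeds if the forest does -/
theorem emb_of_z {adj : V → V → Prop} {Ts : List (LRT V)} (hr : ∀ T ∈ Ts, RootOK T)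
    {S : Finset V} (h : Emb adj (Ts.map LRT.z) S) : Emb adj Ts S := by
  have key : ∀ (t : LT V) {v : V} {A : Finset V} {p : List V}, v ∉ t.top →
      Slot adj t.z.shape v A p → List.Forall₂ (fun F x => x ∉ F) t.z.labs p →
      Slot adj t.shape v A p ∧ List.Forall₂ (fun F x => x ∉ F) t.labs p := by
    intro t v A p hv h1 h2
    rw [LT.z_shape] at h1
    refine ⟨h1, ?_⟩
    cases t with
    | nil => exact h2
    | node _ _ => exact h2
    | hole F =>
      obtain ⟨-, rfl⟩ := h1
      exact .cons hv .nil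
  induction Ts generalizing S with
  | nil => exact h
  | cons T Ts ih =>
    obtain ⟨p, h1, h2⟩ := h
    obtain ⟨A, B, pa, pb, hA, hB, hd, rfl, rfl⟩ := h1
    rw [List.map_cons, List.flatMap_cons] at h2
    have hlen : (LRT.labs T.z).length = pa.length := by
      rw [LRT.labs_length, (root_length hA).1]
      rfl
    rw [forall₂_append_iff hlen] at h2
    obtain ⟨pb', h3, h4⟩ := ih (fun U hU => hr U (List.mem_cons_of_mem _ hU)) (S := B)
      ⟨pb, hB, h2.2⟩
    obtain ⟨C, D, pc, pd, hC, hD, hx, hx', hCD, rfl, rfl⟩ := hA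
    have h5 := h2.1
    have hlen1 : (LT.labs T.l.z).length = pc.length := by
      rw [LT.labs_length]
      exact (slot_length hC).1.symm
    have h6 : T.z.labs = T.l.z.labs ++ T.r.z.labs := rfl
    rw [h6, forall₂_append_iff hlen1] at h5
    have hrT := hr T List.mem_cons_self
    obtain ⟨a1, a2⟩ := key T.l hrT.1 hC h5.1
    obtain ⟨b1, b2⟩ := key T.r hrT.2 hD h5.2
    refine ⟨(pc ++ pd) ++ pb', ⟨_, B, pc ++ pd, pb', ⟨C, D, pc, pd, a1, b1, hx, hx', hCD, rfl, rfl⟩,
      h3, hd, rfl, rfl⟩, ?_⟩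
    rw [List.flatMap_cons]
    exact forall₂_append' (forall₂_append' a2 b2) h4

/-- The labels without the positions of `P`, the labels below the root emptied. -/
def cln (P : Finset V) (T : LRT V) : LRT V := (stripT P T).z

theorem cln_pos (P : Finset V) (T : LRT V) : (cln P T).pos = T.pos := rfl

theorem cln_size (P : Finset V) (T : LRT V) : (cln P T).size = T.size := by
  unfold cln
  rw [LRT.z_size, stripT_size]

theorem cln_poss (P : Finset V) (Ts : List (LRT V)) :
    (Ts.map (cln P)).map LRT.pos = Ts.map LRT.pos := by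
  rw [List.map_map]
  rfl

theorem cln_poss' (P : Finset V) (Ts : List (LRT V)) : poss (Ts.map (cln P)) = poss Ts := by
  unfold poss
  rw [cln_poss]

theorem mem_cln_labs {P : Finset V} {T : LRT V} {F : Finset V} (h : F ∈ (cln P T).labs) :
    F = ∅ ∨ ∃ G ∈ T.labs, F = G \ P := by
  have key : ∀ t : LT V, F ∈ (t.mapL (fun F => F \ P)).z.labs → F = ∅ ∨ ∃ G ∈ t.labs, F = G \ P := by
    intro t ht
    rcases LT.mem_z_labs ht with h1 | h1
    · exact Or.inl h1
    · rw [LT.mapL_labs] at h1
      obtain ⟨G, hG, rfl⟩ := List.mem_map.1 h1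
      exact Or.inr ⟨G, hG, rfl⟩
  rcases List.mem_append.1 h with h1 | h1
  · rcases key T.l h1 with h2 | ⟨G, h2, h3⟩
    · exact Or.inl h2
    · exact Or.inr ⟨G, List.mem_append_left _ h2, h3⟩
  · rcases key T.r h1 with h2 | ⟨G, h2, h3⟩
    · exact Or.inl h2
    · exact Or.inr ⟨G, List.mem_append_right _ h2, h3⟩

theorem sfs_cln (P : Finset V) (T : LRT V) : sfs (cln P T) = sfs T.z \ P := by
  have key : ∀ (t : LT V) (x : V), (∃ F ∈ (t.mapL (fun F => F \ P)).z.labs, x ∈ F) ↔
      (∃ F ∈ t.z.labs, x ∈ F) ∧ x ∉ P := by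
    intro t x
    cases t with
    | nil => simp [LT.mapL, LT.z, LT.labs]
    | hole F => simp [LT.mapL, LT.z, LT.labs]
    | node l r =>
      have e1 : ((LT.node l r).mapL (fun F => F \ P)).z.labs =
          (LT.node l r).labs.map (fun F => F \ P) := by
        rw [← LT.mapL_labs]
        rfl
      have e2 : (LT.node l r).z.labs = (LT.node l r).labs := rfl
      rw [e1, e2]
      constructor
      · rintro ⟨F, hF, hx⟩
        obtain ⟨G, hG, rfl⟩ := List.mem_map.1 hF
        exact ⟨⟨G, hG, (Finset.mem_sdiff.1 hx).1⟩, (Finset.mem_sdiff.1 hx).2⟩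
      · rintro ⟨⟨G, hG, hx⟩, hxP⟩
        exact ⟨_, List.mem_map_of_mem hG, Finset.mem_sdiff.2 ⟨hx, hxP⟩⟩
  ext x
  rw [Finset.mem_sdiff, mem_sfs, mem_sfs]
  have e1 : (cln P T).labs = (T.l.mapL (fun F => F \ P)).z.labs ++
    (T.r.mapL (fun F => F \ P)).z.labs := rfl
  have e2 : T.z.labs = T.l.z.labs ++ T.r.z.labs := rfl
  rw [e1, e2]
  have h1 := key T.l x
  have h2 := key T.r x
  simp only [List.mem_append, or_and_right, exists_or]
  rw [h1, h2]

theorem nsp_cln (P : Finset V) (T : LRT V) :
    nsp (cln P T) = T.z.labs.countP (fun F => decide (¬ F ⊆ P)) := by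
  have key : ∀ t : LT V, (t.mapL (fun F => F \ P)).z.labs.countP (fun F => decide (F ≠ ∅)) =
      t.z.labs.countP (fun F => decide (¬ F ⊆ P)) := by
    intro t
    cases t with
    | nil => rfl
    | hole F => simp [LT.mapL, LT.z, LT.labs]
    | node l r =>
      have e1 : ((LT.node l r).mapL (fun F => F \ P)).z.labs =
          (LT.node l r).labs.map (fun F => F \ P) := by
        rw [← LT.mapL_labs]
        rfl
      have e2 : (LT.node l r).z.labs = (LT.node l r).labs := rfl
      rw [e1, e2, List.countP_map]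
      congr 1
      ext F
      simp only [Function.comp, ne_eq, Finset.sdiff_eq_empty_iff_subset]
  unfold nsp
  have e1 : (cln P T).labs = (T.l.mapL (fun F => F \ P)).z.labs ++
    (T.r.mapL (fun F => F \ P)).z.labs := rfl
  have e2 : T.z.labs = T.l.z.labs ++ T.r.z.labs := rfl
  rw [e1, e2, List.countP_append, List.countP_append, key, key]

theorem emb_of_cln {adj : V → V → Prop} {Ts : List (LRT V)} (hr : ∀ T ∈ Ts, RootOK T)
    {S : Finset V} (h : Emb adj (Ts.map (cln (poss Ts))) S) : Emb adj Ts S := by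
  refine emb_of_strip hr (emb_of_z (fun T hT => ?_) ?_)
  · obtain ⟨U, hU, rfl⟩ := List.mem_map.1 hT
    exact strip_ok (hr U hU)
  · rw [List.map_map]
    exact h

/-- The path condition: one path for the tree (`true`), one path for every soft position (`false`). -/
def pcT (pm : Bool) (T : LRT V) : Prop :=
  if pm = true then PT nonE T else ∀ x, PT (hasL x) T

theorem pcT.has {pm : Bool} {T : LRT V} (h : pcT pm T) (x : V) : PT (hasL x) T := by
  unfold pcT at h
  split_ifs at h
  · refine PT.mono (fun F _ hF => ?_) h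
    rw [hasL_iff] at hF
    unfold nonE
    rw [decide_eq_true_iff]
    exact Finset.ne_empty_of_mem hF
  · exact h x

theorem pcT.weak {T : LRT V} {pm : Bool} (h : pcT pm T) : pcT false T := by
  unfold pcT
  rw [if_neg (by simp)]
  exact h.has

theorem pcT.clean {pm : Bool} {T : LRT V} (h : sfs T = ∅) : pcT pm T := by
  have h1 : ∀ F ∈ T.labs, F = ∅ := by
    intro F hF
    by_contra hne
    obtain ⟨x, hx⟩ := Finset.nonempty_iff_ne_empty.2 hne
    have : x ∈ sfs T := mem_sfs.2 ⟨F, hF, hx⟩
    rw [h] at this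
    exact absurd this (Finset.notMem_empty x)
  unfold pcT
  split_ifs
  · refine PT.of_none fun F hF => ?_
    rw [h1 F hF]
    simp [nonE]
  · refine fun x => PT.of_none fun F hF => ?_
    rw [h1 F hF, hasL_false]
    exact Finset.notMem_empty x

end basic

/-- The states with one tree per soft position. -/
def GdT (m : ℕ) (pm : Bool) (v : List (ℕ × ℕ × ℕ)) : Prop :=
  ∀ Ts : List (LRT (Fin m → Bool)), (Ts.map LRT.pos).Nodup → (∀ T ∈ Ts, T.zz) →
    (∀ T ∈ Ts, Disjoint (sfs T) (poss Ts)) →
    List.Forall₂ (fun T p => LRT.size T ≤ p.1 ∧ (sfs T).card ≤ p.2.1 ∧ nsp T ≤ p.2.2) Ts v →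
    Ts.Pairwise (fun T U => Disjoint (sfs T) (sfs U)) → (∀ T ∈ Ts, pcT pm T) →
    ∃ S, Emb (cadj m) Ts S

section
variable {m : ℕ} {pm : Bool}

theorem poss_perm' {V : Type*} [DecidableEq V] {Ts Us : List (LRT V)} (h : Ts.Perm Us) :
    poss Ts = poss Us := by
  ext x
  rw [mem_poss, mem_poss]
  exact exists_congr fun T => and_congr_left fun _ => h.mem_iff

theorem GdT.weak {v : List (ℕ × ℕ × ℕ)} (h : GdT m false v) : GdT m pm v :=
  fun Ts h1 h2 h3 h4 h5 h6 => h Ts h1 h2 h3 h4 h5 fun T hT => (h6 T hT).weak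

theorem GdT.mono {v w : List (ℕ × ℕ × ℕ)}
    (hv : List.Forall₂ (fun p q => p.1 ≤ q.1 ∧ p.2.1 ≤ q.2.1 ∧ p.2.2 ≤ q.2.2) v w)
    (h : GdT m pm w) : GdT m pm v := by
  intro Ts h1 h2 h3 h4 h5 h6
  refine h Ts h1 h2 h3 ?_ h5 h6
  clear h1 h2 h3 h5 h6 h
  induction h4 generalizing w with
  | nil => cases hv; exact .nil
  | cons h3 _ ih =>
    cases hv with
    | cons h6 h7 =>
      exact .cons ⟨h3.1.trans h6.1, h3.2.1.trans h6.2.1, h3.2.2.trans h6.2.2⟩ (ih h7)

theorem GdT.perm {v w : List (ℕ × ℕ × ℕ)} (hvw : v.Perm w) (h : GdT m pm v) : GdT m pm w := by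
  intro Ts h1 h2 h3 h4 h5 h6
  obtain ⟨Us, h7, h8⟩ := List.perm_comp_forall₂ hvw (h4.flip : List.Forall₂
    (fun (p : ℕ × ℕ × ℕ) (T : LRT (Fin m → Bool)) =>
      LRT.size T ≤ p.1 ∧ (sfs T).card ≤ p.2.1 ∧ nsp T ≤ p.2.2) w Ts)
  obtain ⟨S, hS⟩ := h Us (by rw [(h8.map LRT.pos).nodup_iff]; exact h1)
    (fun T hT => h2 T (h8.mem_iff.1 hT))
    (fun T hT => by rw [poss_perm' h8]; exact h3 T (h8.mem_iff.1 hT)) h7.flip
    ((h8.pairwise_iff fun {T U} hTU => hTU.symm).2 h5)
    (fun T hT => h6 T (h8.mem_iff.1 hT))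
  exact ⟨S, hS.perm h8⟩

/-- **Application of a state to a forest.** -/
theorem GdT.emb {v : List (ℕ × ℕ × ℕ)} (h : GdT m pm v) {Ts : List (LRT (Fin m → Bool))}
    (h1 : (Ts.map LRT.pos).Nodup) (h2 : ∀ T ∈ Ts, RootOK T)
    (h3 : List.Forall₂ (fun T p => LRT.size T ≤ p.1 ∧ (sfs (cln (poss Ts) T)).card ≤ p.2.1 ∧
      nsp (cln (poss Ts) T) ≤ p.2.2) Ts v)
    (h4 : Ts.Pairwise (fun T U => Disjoint (sfs (cln (poss Ts) T)) (sfs (cln (poss Ts) U))))
    (h5 : ∀ T ∈ Ts, pcT pm (cln (poss Ts) T)) : ∃ S, Emb (cadj m) Ts S := by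
  obtain ⟨S, hS⟩ := h (Ts.map (cln (poss Ts))) (by rw [cln_poss]; exact h1) (by
    intro T hT
    obtain ⟨U, _, rfl⟩ := List.mem_map.1 hT
    exact LRT.z_zz _) (by
    intro T hT
    obtain ⟨U, _, rfl⟩ := List.mem_map.1 hT
    rw [sfs_cln, cln_poss']
    exact Finset.sdiff_disjoint) (by
    rw [List.forall₂_map_left_iff]
    exact h3.imp fun T p hp => by rw [cln_size]; exact hp) (by
    rw [List.pairwise_map]
    exact h4) (by
    intro T hT
    obtain ⟨U, hU, rfl⟩ := List.mem_map.1 hT
    exact h5 U hU)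
  exact ⟨S, emb_of_cln h2 hS⟩

/-- **Application with hardening**: the positions of `O` become trees with one vertex. -/
theorem GdT.emb_harden {v : List (ℕ × ℕ × ℕ)} {Ts : List (LRT (Fin m → Bool))}
    (O : Finset (Fin m → Bool)) (h : GdT m pm (v ++ List.replicate O.card (1, 0, 0)))
    (hO : Disjoint O (poss Ts)) {P : Finset (Fin m → Bool)} (hP : P = poss Ts ∪ O)
    (h1 : (Ts.map LRT.pos).Nodup) (h2 : ∀ T ∈ Ts, RootOK T)
    (h3 : List.Forall₂ (fun T p => LRT.size T ≤ p.1 ∧ (sfs (cln P T)).card ≤ p.2.1 ∧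
      nsp (cln P T) ≤ p.2.2) Ts v)
    (h4 : Ts.Pairwise (fun T U => Disjoint (sfs (cln P T)) (sfs (cln P U))))
    (h5 : ∀ T ∈ Ts, pcT pm (cln P T)) : ∃ S, Emb (cadj m) Ts S := by
  have hp : poss (Ts ++ O.toList.map dummy) = P := by
    rw [poss_dummies, Finset.toList_toFinset, hP]
  have hd : ∀ o ∈ O.toList, ∀ Q : Finset (Fin m → Bool), sfs (cln Q (dummy o)) = ∅ ∧
      nsp (cln Q (dummy o)) = 0 := by
    intro o _ Q
    constructor
    · rw [sfs_cln]
      simp [sfs, dummy, LRT.z, LT.z, LRT.labs, LT.labs]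
    · rw [nsp_cln]
      simp [dummy, LRT.z, LT.z, LRT.labs, LT.labs]
  obtain ⟨S, hS⟩ := h.emb (Ts := Ts ++ O.toList.map dummy)
    (nodup_dummies h1 (Finset.nodup_toList O) (fun o ho =>
      Finset.disjoint_left.1 hO (Finset.mem_toList.1 ho))) (by
    intro T hT
    rcases List.mem_append.1 hT with hT | hT
    · exact h2 T hT
    · obtain ⟨o, _, rfl⟩ := List.mem_map.1 hT
      exact rootOK_dummy o) (by
    rw [hp]
    refine forall₂_append' h3 ?_
    have e1 : O.card = O.toList.length := (Finset.length_toList O).symm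
    rw [e1]
    clear h h3 h4 h5 hp hO hP
    generalize O.toList = lo at hd
    induction lo with
    | nil => exact .nil
    | cons o os ih =>
      rw [List.map_cons, List.length_cons, List.replicate_succ]
      refine .cons ?_ (ih fun o' ho' => hd o' (List.mem_cons_of_mem _ ho'))
      obtain ⟨a1, a2⟩ := hd o List.mem_cons_self P
      rw [a1, a2]
      exact ⟨by simp [dummy, LRT.size], by simp, le_rfl⟩) (by
    rw [hp, List.pairwise_append]
    refine ⟨h4, ?_, ?_⟩
    · rw [List.pairwise_map]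
      refine List.Pairwise.imp_of_mem (R := fun _ _ => True) (fun {a b} ha _ _ => ?_)
        (List.pairwise_of_forall fun _ _ => trivial)
      rw [(hd a ha P).1]
      exact Finset.disjoint_empty_left _
    · intro T _ U hU
      obtain ⟨o, ho, rfl⟩ := List.mem_map.1 hU
      rw [(hd o ho P).1]
      exact Finset.disjoint_empty_right _) (by
    rw [hp]
    intro T hT
    rcases List.mem_append.1 hT with hT | hT
    · exact h5 T hT
    · obtain ⟨o, ho, rfl⟩ := List.mem_map.1 hT
      exact pcT.clean (hd o ho P).1)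
  obtain ⟨A, B, hA, -⟩ := emb_append.1 hS
  exact ⟨A, hA⟩

theorem sfs_mem_of_pth {V : Type*} [DecidableEq V] {T : LRT V} (h : sfs T = ∅) :
    ∀ F ∈ T.labs, F = ∅ := by
  intro F hF
  by_contra hne
  obtain ⟨x, hx⟩ := Finset.nonempty_iff_ne_empty.2 hne
  have : x ∈ sfs T := mem_sfs.2 ⟨F, hF, hx⟩
  rw [h] at this
  exact absurd this (Finset.notMem_empty x)

/-- from the states with any trees for the soft positions -/
theorem GdT.of_GdO {D : ℕ} {v : List (ℕ × ℕ × ℕ)} (hD : (v.map fun p => p.2.1).sum ≤ D)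
    (h : ∀ s, GdO m D s (v.map Prod.fst)) : GdT m pm v := by
  intro Ts h1 h2 h3 h4 h5 h6
  refine (h (nspec Ts)).emb (D := D) (s := nspec Ts) h1 (fun T hT => (h2 T hT).ok) ?_ ?_
    (nspecO_le _ _) ?_
  · rw [List.forall₂_map_right_iff]
    exact h4.imp fun T p hp => hp.1
  · refine (Finset.card_le_card Finset.sdiff_subset).trans ((card_softs_le Ts).trans
      (le_trans ?_ hD))
    clear h1 h2 h3 h5 h6 hD h
    induction h4 with
    | nil => exact le_rfl
    | cons h3 _ ih =>
      rw [List.map_cons, List.map_cons, List.sum_cons, List.sum_cons]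
      exact Nat.add_le_add h3.2.1 ih
  · intro T hT x _
    exact (h6 T hT).has x

/-- from the states with bounded multiplicity -/
theorem GdT.of_GnO {D ν : ℕ} {v : List (ℕ × ℕ × ℕ)} (hD : (v.map fun p => p.2.1).sum ≤ D)
    (hν : ∀ p ∈ v, p.2.2 ≤ ν) (h : GnO m D ν (v.map Prod.fst)) : GdT m pm v := by
  intro Ts h1 h2 h3 h4 h5 h6
  refine h.emb h1 (fun T hT => (h2 T hT).ok) ?_ ?_ ?_ ?_
  · rw [List.forall₂_map_right_iff]
    exact h4.imp fun T p hp => hp.1
  · refine (Finset.card_le_card Finset.sdiff_subset).trans ((card_softs_le Ts).trans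
      (le_trans ?_ hD))
    clear h1 h2 h3 h5 h6 hD h hν
    induction h4 with
    | nil => exact le_rfl
    | cons h3 _ ih =>
      rw [List.map_cons, List.map_cons, List.sum_cons, List.sum_cons]
      exact Nat.add_le_add h3.2.1 ih
  · intro x hxP
    clear h1 h2 h3 h6 hD h hxP
    induction h4 with
    | nil => simp [mult]
    | @cons T p Ts v hp _ ih =>
      have e1 : mult (T :: Ts) x = mult [T] x + mult Ts x := mult_append [T] Ts x
      rw [e1]
      rw [List.pairwise_cons] at h5
      have ih' := ih (fun q hq => hν q (List.mem_cons_of_mem _ hq)) h5.2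
      by_cases hx : x ∈ sfs T
      · have h7 : mult Ts x = 0 := by
          apply mult_eq_zero
          intro hc
          obtain ⟨U, hU, hxU⟩ := mem_softs_sfs.1 hc
          exact Finset.disjoint_left.1 (h5.1 U hU) hx hxU
        have h8 : mult [T] x ≤ nsp T := by
          unfold mult nsp
          rw [List.flatMap_cons, List.flatMap_nil, List.append_nil]
          refine List.countP_mono_left fun F _ hF => ?_
          rw [decide_eq_true_iff] at hF ⊢
          exact Finset.ne_empty_of_mem hF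
        have h9 := hν p List.mem_cons_self
        have h10 := hp.2.2
        omega
      · have h7 : mult [T] x = 0 := by
          apply mult_eq_zero
          intro hc
          obtain ⟨U, hU, hxU⟩ := mem_softs_sfs.1 hc
          rw [List.mem_singleton] at hU
          exact hx (hU ▸ hxU)
        omega
  · intro T hT x _
    exact (h6 T hT).has x

/-- without soft positions: the hard states -/
theorem GdT.toGd {s : ℕ} {v : List ℕ} (h : GdT m pm (v.map fun n => (n, 0, 0))) : Gd m 0 s v := by
  intro Ts h1 h2 h3 h4 _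
  have e1 : softs Ts \ poss Ts = ∅ := Finset.card_eq_zero.1 (Nat.le_zero.1 h4)
  have e2 : ∀ T ∈ Ts, sfs (cln (poss Ts) T) = ∅ := by
    intro T hT
    rw [sfs_cln, Finset.sdiff_eq_empty_iff_subset]
    intro x hx
    by_contra hxP
    have hx1 : x ∈ softs Ts := by
      refine sfs_subset_softs hT ?_
      obtain ⟨F, hF, hxF⟩ := mem_sfs.1 hx
      rcases List.mem_append.1 hF with h5 | h5
      · rcases LT.mem_z_labs h5 with rfl | h6
        · exact absurd hxF (Finset.notMem_empty x)
        · exact mem_sfs.2 ⟨F, List.mem_append_left _ h6, hxF⟩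
      · rcases LT.mem_z_labs h5 with rfl | h6
        · exact absurd hxF (Finset.notMem_empty x)
        · exact mem_sfs.2 ⟨F, List.mem_append_right _ h6, hxF⟩
    have : x ∈ softs Ts \ poss Ts := Finset.mem_sdiff.2 ⟨hx1, hxP⟩
    rw [e1] at this
    exact absurd this (Finset.notMem_empty x)
  have e3 : ∀ T ∈ Ts, nsp (cln (poss Ts) T) = 0 := by
    intro T hT
    unfold nsp
    rw [List.countP_eq_zero]
    intro F hF
    rw [sfs_mem_of_pth (e2 T hT) F hF]
    simp
  refine h.emb h1 h2 ?_ ?_ fun T hT => pcT.clean (e2 T hT)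
  · rw [List.forall₂_map_right_iff]
    exact (List.forall₂_and_left (p := fun T => T ∈ Ts) Ts v).2 ⟨fun T hT => hT, h3⟩ |>.imp
      fun T n hn => ⟨hn.2, by rw [e2 T hn.1]; simp, (e3 T hn.1).le⟩
  · refine List.Pairwise.imp_of_mem (R := fun _ _ => True) (fun {a b} ha _ _ => ?_)
        (List.pairwise_of_forall fun _ _ => trivial)
    rw [e2 a ha]
    exact Finset.disjoint_empty_left _

theorem GdT.nil : GdT m pm [] := by
  intro Ts _ _ _ h4 _ _
  cases h4
  exact ⟨∅, emb_nil⟩

/-- a state with an empty tree is vacuous -/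
theorem GdT.of_zero {v : List (ℕ × ℕ × ℕ)} (h : ∃ p ∈ v, p.1 = 0) : GdT m pm v := by
  intro Ts _ _ _ h4 _ _
  exfalso
  obtain ⟨p, hp, hp0⟩ := h
  clear * - h4 hp hp0
  induction h4 with
  | nil => simp at hp
  | @cons T q _ _ h1 _ ih =>
    rcases List.mem_cons.1 hp with rfl | hp
    · have : 1 ≤ T.size := by unfold LRT.size; omega
      have := h1.1
      omega
    · exact ih hp

end

end Pool.Agent.Work.MP_bf01b2_co.MR
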