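import Mathlib

/-!
# A permutation of the coordinates which moves few vertices off few others

`exists_perm`: if `P`, `O` are sets of vertices of the cube of dimension `M`, `|P| + |O| ≤ M`, and
no constant vertex is in both, then some permutation of the coordinates moves `P` off `O`.

Proof by induction on `M` for lists of classes `(P_c, O_c)` with
`∑ (|P_c| + |O_c| - 1) < M` (sum over the classes with two nonempty sides).
-/

set_option autoImplicit false

namespace Pool.Agent.Work.MP_bf01b2_co.MR

namespace PermX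

/-- A class: the elements to be moved and the forbidden places. -/
abbrev Cl (M : ℕ) : Type := Finset (Fin M → Bool) × Finset (Fin M → Bool)

/-- The elements with value `b` at `x`, without the coordinate `x`. -/
def half {M : ℕ} (x : Fin (M + 1)) (b : Bool) (P : Finset (Fin (M + 1) → Bool)) :
    Finset (Fin M → Bool) :=
  (P.filter fun p => p x = b).image fun p i => p (x.succAbove i)

theorem mem_half {M : ℕ} {x : Fin (M + 1)} {b : Bool} {P : Finset (Fin (M + 1) → Bool)}
    {q : Fin M → Bool} : q ∈ half x b P ↔ ∃ p ∈ P, p x = b ∧ (fun i => p (x.succAbove i)) = q := by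
  simp only [half, Finset.mem_image, Finset.mem_filter, and_assoc]

theorem fun_ext_above {M : ℕ} {x : Fin (M + 1)} {p q : Fin (M + 1) → Bool} (h : p x = q x)
    (h' : ∀ i, p (x.succAbove i) = q (x.succAbove i)) : p = q := by
  funext j
  rcases eq_or_ne j x with rfl | hj
  · exact h
  · obtain ⟨i, rfl⟩ := Fin.exists_succAbove_eq hj
    exact h' i

theorem card_half {M : ℕ} (x : Fin (M + 1)) (P : Finset (Fin (M + 1) → Bool)) :
    (half x true P).card + (half x false P).card = P.card := by
  have key : ∀ b, (half x b P).card = (P.filter fun p => p x = b).card := by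
    intro b
    refine Finset.card_image_of_injOn ?_
    intro p hp q hq hpq
    rw [Finset.coe_filter] at hp hq
    exact fun_ext_above (hp.2.trans hq.2.symm) fun i => congrFun hpq i
  rw [key, key]
  have h := Finset.card_filter_add_card_filter_not (s := P) (fun p => p x = true)
  rw [← h]
  congr 2
  ext p
  simp

/-- The weight of a class. -/
def wt {M : ℕ} (c : Cl M) : ℕ :=
  if c.1.card = 0 ∨ c.2.card = 0 then 0 else c.1.card + c.2.card - 1

/-- The two halves of a class. -/
def two {M : ℕ} (x y : Fin (M + 1)) (c : Cl (M + 1)) : List (Cl M) :=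
  [(half x true c.1, half y true c.2), (half x false c.1, half y false c.2)]

theorem two_le {M : ℕ} (x y : Fin (M + 1)) (c : Cl (M + 1)) :
    ((two x y c).map wt).sum ≤ wt c := by
  have h1 := card_half x c.1
  have h2 := card_half y c.2
  simp only [two, List.map_cons, List.map_nil, List.sum_cons, List.sum_nil, wt]
  split_ifs <;> omega

theorem two_lt {M : ℕ} (x y : Fin (M + 1)) (c : Cl (M + 1)) {p o : Fin (M + 1) → Bool}
    (hp : p ∈ c.1) (ho : o ∈ c.2) (hpo : p x ≠ o y) :
    ((two x y c).map wt).sum + 1 ≤ wt c := by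
  have h1 := card_half x c.1
  have h2 := card_half y c.2
  have h3 : 0 < (half x (p x) c.1).card :=
    Finset.card_pos.2 ⟨_, mem_half.2 ⟨p, hp, rfl, rfl⟩⟩
  have h4 : 0 < (half y (o y) c.2).card :=
    Finset.card_pos.2 ⟨_, mem_half.2 ⟨o, ho, rfl, rfl⟩⟩
  have h5 : 0 < c.1.card := Finset.card_pos.2 ⟨p, hp⟩
  have h6 : 0 < c.2.card := Finset.card_pos.2 ⟨o, ho⟩
  simp only [two, List.map_cons, List.map_nil, List.sum_cons, List.sum_nil, wt]
  cases e : p x <;> cases e' : o y <;> rw [e] at h3 hpo <;> rw [e'] at h4 hpo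
  · exact absurd rfl hpo
  · split_ifs <;> omega
  · split_ifs <;> omega
  · exact absurd rfl hpo

theorem sum_le {M : ℕ} (x y : Fin (M + 1)) : ∀ L : List (Cl (M + 1)),
    ((L.flatMap (two x y)).map wt).sum ≤ (L.map wt).sum
  | [] => le_rfl
  | c :: L => by
    rw [List.flatMap_cons, List.map_append, List.sum_append, List.map_cons, List.sum_cons]
    exact add_le_add (two_le x y c) (sum_le x y L)

theorem sum_lt {M : ℕ} (x y : Fin (M + 1)) {c : Cl (M + 1)} {p o : Fin (M + 1) → Bool}
    (hp : p ∈ c.1) (ho : o ∈ c.2) (hpo : p x ≠ o y) : ∀ L : List (Cl (M + 1)), c ∈ L →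
    ((L.flatMap (two x y)).map wt).sum + 1 ≤ (L.map wt).sum
  | [], h => absurd h (List.not_mem_nil)
  | d :: L, h => by
    rw [List.flatMap_cons, List.map_append, List.sum_append, List.map_cons, List.sum_cons]
    rcases List.mem_cons.1 h with rfl | h
    · have := two_lt x y c hp ho hpo
      have := sum_le x y L
      omega
    · have := two_le x y d
      have := sum_lt x y hp ho hpo L h
      omega

/-- All elements of classes with a nonempty set of forbidden places. -/
def un {M : ℕ} : List (Cl M) → Finset (Fin M → Bool)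
  | [] => ∅
  | c :: L => (if c.2.card = 0 then ∅ else c.1) ∪ un L

theorem card_un {M : ℕ} : ∀ L : List (Cl M), (un L).card ≤ (L.map wt).sum
  | [] => le_rfl
  | c :: L => by
    rw [un, List.map_cons, List.sum_cons]
    refine (Finset.card_union_le _ _).trans (add_le_add ?_ (card_un L))
    by_cases h2 : c.2.card = 0
    · rw [if_pos h2, Finset.card_empty]
      exact Nat.zero_le _
    · rw [if_neg h2]
      by_cases h1 : c.1.card = 0
      · rw [h1]
        exact Nat.zero_le _
      · rw [wt, if_neg (by tauto)]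
        omega

theorem mem_un {M : ℕ} {c : Cl M} {p : Fin M → Bool} (hp : p ∈ c.1) (hc : c.2.card ≠ 0) :
    ∀ L : List (Cl M), c ∈ L → p ∈ un L
  | [], h => absurd h (List.not_mem_nil)
  | d :: L, h => by
    rw [un, Finset.mem_union]
    rcases List.mem_cons.1 h with rfl | h
    · left; rw [if_neg hc]; exact hp
    · right; exact mem_un hp hc L h

/-- The class with its two sides exchanged. -/
def sw {M : ℕ} (c : Cl M) : Cl M := (c.2, c.1)

theorem wt_sw {M : ℕ} (c : Cl M) : wt (sw c) = wt c := by
  have e : (sw c).1.card = c.2.card ∧ (sw c).2.card = c.1.card := ⟨rfl, rfl⟩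
  unfold wt
  rw [e.1, e.2]
  by_cases h1 : c.1.card = 0 <;> by_cases h2 : c.2.card = 0
  · rw [if_pos (Or.inl h2), if_pos (Or.inl h1)]
  · rw [if_pos (Or.inr h1), if_pos (Or.inl h1)]
  · rw [if_pos (Or.inl h2), if_pos (Or.inr h2)]
  · rw [if_neg (by tauto), if_neg (by tauto), add_comm]

/-- All coordinates but `x` have the opposite value. -/
def thin {M : ℕ} (p : Fin M → Bool) (x : Fin M) : Prop := ∀ i, i ≠ x → p i = !(p x)

theorem thin_inj {M : ℕ} (hM : 3 ≤ M) {p : Fin M → Bool} {x y : Fin M} (hx : thin p x)
    (hy : thin p y) : x = y := by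
  by_contra hne
  obtain ⟨z, hz⟩ : ∃ z : Fin M, z ∉ ({x, y} : Finset (Fin M)) := by
    by_contra hcon
    push Not at hcon
    have h1 : (Finset.univ : Finset (Fin M)) ⊆ {x, y} := fun z _ => hcon z
    have h2 := Finset.card_le_card h1
    rw [Finset.card_univ, Fintype.card_fin] at h2
    have h3 := Finset.card_le_two (a := x) (b := y)
    omega
  simp only [Finset.mem_insert, Finset.mem_singleton, not_or] at hz
  have h1 := hx z hz.1
  have h2 := hy z hz.2
  have h3 := hx y (fun h => hne h.symm)
  rw [h1, h3] at h2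
  cases e : p x <;> rw [e] at h2 <;> simp at h2

theorem exists_not_thin {M : ℕ} (hM : 3 ≤ M) (L : List (Cl M)) (hL : (L.map wt).sum < M) :
    ∃ x : Fin M, ∀ c ∈ L, c.2.card ≠ 0 → ∀ p ∈ c.1, ¬ thin p x := by
  by_contra hcon
  push Not at hcon
  have h1 : ∀ x : Fin M, ∃ p ∈ un L, thin p x := by
    intro x
    obtain ⟨c, hc, hc', p, hp, ht⟩ := hcon x
    exact ⟨p, mem_un hp hc' L hc, ht⟩
  choose f hf hf' using h1
  have h2 : (Finset.univ : Finset (Fin M)).card ≤ (un L).card := by
    refine Finset.card_le_card_of_injOn f (fun x _ => hf x) ?_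
    intro x _ y _ hxy
    exact thin_inj hM (hf' x) (by rw [hxy]; exact hf' y)
  rw [Finset.card_univ, Fintype.card_fin] at h2
  have := card_un L
  omega

/-- The permutation of `Fin (M + 1)` which sends `x` to `y` and is `σ` elsewhere. -/
def lift {M : ℕ} (x y : Fin (M + 1)) (σ : Equiv.Perm (Fin M)) : Equiv.Perm (Fin (M + 1)) :=
  (finSuccEquiv' x).trans ((Equiv.optionCongr σ).trans (finSuccEquiv' y).symm)

theorem lift_at {M : ℕ} (x y : Fin (M + 1)) (σ : Equiv.Perm (Fin M)) : lift x y σ x = y := by
  simp [lift]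

theorem lift_above {M : ℕ} (x y : Fin (M + 1)) (σ : Equiv.Perm (Fin M)) (i : Fin M) :
    lift x y σ (x.succAbove i) = y.succAbove (σ i) := by
  simp [lift]

theorem pack : ∀ (M : ℕ) (L : List (Cl M)),
    ((L.map wt).sum = 0 ∨ ((L.map wt).sum < M ∧
      ∀ c ∈ L, ∀ k : Bool, (fun _ => k) ∈ c.1 → (fun _ => k) ∉ c.2)) →
    ∃ σ : Equiv.Perm (Fin M), ∀ c ∈ L, ∀ p ∈ c.1, ∀ o ∈ c.2, p ≠ fun i => o (σ i) := by
  intro M
  induction M with
  | zero =>
    intro L h
    refine ⟨1, fun c hc p hp o ho => ?_⟩
    have h0 : (L.map wt).sum = 0 := by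
      rcases h with h | h
      · exact h
      · omega
    have h1 : wt c = 0 := List.sum_eq_zero_iff.1 h0 _ (List.mem_map_of_mem hc)
    have h5 : 0 < c.1.card := Finset.card_pos.2 ⟨p, hp⟩
    have h6 : 0 < c.2.card := Finset.card_pos.2 ⟨o, ho⟩
    unfold wt at h1
    split_ifs at h1 <;> omega
  | succ M ih =>
    intro L h
    by_cases h0 : (L.map wt).sum = 0
    · refine ⟨1, fun c hc p hp o ho => ?_⟩
      have h1 : wt c = 0 := List.sum_eq_zero_iff.1 h0 _ (List.mem_map_of_mem hc)
      have h5 : 0 < c.1.card := Finset.card_pos.2 ⟨p, hp⟩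
      have h6 : 0 < c.2.card := Finset.card_pos.2 ⟨o, ho⟩
      unfold wt at h1
      split_ifs at h1 <;> omega
    obtain ⟨hlt, hk⟩ := h.resolve_left h0
    -- an active class
    obtain ⟨c₀, hc₀, hw⟩ : ∃ c ∈ L, wt c ≠ 0 := by
      by_contra hcon
      push Not at hcon
      apply h0
      rw [List.sum_eq_zero_iff]
      intro n hn
      obtain ⟨c, hc, rfl⟩ := List.mem_map.1 hn
      exact hcon c hc
    have hne : c₀.1.card ≠ 0 ∧ c₀.2.card ≠ 0 := by
      unfold wt at hw
      split_ifs at hw with h1
      · exact absurd rfl hw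
      · push Not at h1; exact h1
    obtain ⟨p₀, hp₀⟩ := Finset.card_pos.1 (Nat.pos_of_ne_zero hne.1)
    obtain ⟨o₀, ho₀⟩ := Finset.card_pos.1 (Nat.pos_of_ne_zero hne.2)
    -- the coordinates
    obtain ⟨x, y, hxy, hcc⟩ : ∃ x y : Fin (M + 1), p₀ x ≠ o₀ y ∧ (M = 1 ∨
        ∀ c ∈ L, ∀ b k : Bool, (fun _ => k) ∈ half x b c.1 → (fun _ => k) ∉ half y b c.2) := by
      by_cases hM : M + 1 < 3
      · have hM1 : M = 1 := by
          have : 0 < (L.map wt).sum := Nat.pos_of_ne_zero h0
          omega
        subst hM1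
        by_contra hcon
        push Not at hcon
        have h1 : ∀ x y, p₀ x = o₀ y := by
          intro x y
          by_contra h2
          exact absurd rfl (hcon x y h2).1
        apply hk c₀ hc₀ (p₀ 0)
        · have : (fun _ => p₀ 0) = p₀ := by
            funext i; rw [h1 0 0, h1 i 0]
          rw [this]; exact hp₀
        · have : (fun _ => p₀ 0) = o₀ := by
            funext i; rw [h1 0 i]
          rw [this]; exact ho₀
      · have hM3 : 3 ≤ M + 1 := by omega
        -- bad pairs
        have hbad : ∀ x y : Fin (M + 1),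
            ((∀ c ∈ L, c.2.card ≠ 0 → ∀ p ∈ c.1, ¬ thin p x) ∨
              (∀ c ∈ L, c.1.card ≠ 0 → ∀ o ∈ c.2, ¬ thin o y)) →
            ∀ c ∈ L, ∀ b k : Bool, (fun _ => k) ∈ half x b c.1 →
              (fun _ => k) ∉ half y b c.2 := by
          intro x y hor c hc b k h1 h2
          obtain ⟨p, hp, hpx, hpk⟩ := mem_half.1 h1
          obtain ⟨o, ho, hoy, hok⟩ := mem_half.1 h2
          have hpk' : ∀ i, p (x.succAbove i) = k := fun i => congrFun hpk i
          have hok' : ∀ i, o (y.succAbove i) = k := fun i => congrFun hok i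
          by_cases hbk : b = k
          · subst hbk
            have e1 : (fun _ => b) = p := (fun_ext_above (x := x) (by rw [hpx])
              (fun i => by rw [hpk']))
            have e2 : (fun _ => b) = o := (fun_ext_above (x := y) (by rw [hoy])
              (fun i => by rw [hok']))
            refine hk c hc b ?_ ?_
            · rw [e1]; exact hp
            · rw [e2]; exact ho
          · have hkb : k = !b := by
              cases k <;> cases b <;> simp_all
            have t1 : thin p x := by
              intro i hi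
              obtain ⟨j, rfl⟩ := Fin.exists_succAbove_eq hi
              rw [hpk', hpx, hkb]
            have t2 : thin o y := by
              intro i hi
              obtain ⟨j, rfl⟩ := Fin.exists_succAbove_eq hi
              rw [hok', hoy, hkb]
            rcases hor with hor | hor
            · exact hor c hc (Finset.card_pos.2 ⟨o, ho⟩).ne' p hp t1
            · exact hor c hc (Finset.card_pos.2 ⟨p, hp⟩).ne' o ho t2
        obtain ⟨x₀, hx₀⟩ := exists_not_thin hM3 L hlt
        obtain ⟨y₀, hy₀⟩ := exists_not_thin hM3 (L.map sw) (by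
          rw [List.map_map]
          have : (wt ∘ sw : Cl (M + 1) → ℕ) = wt := funext wt_sw
          rw [this]
          exact hlt)
        have hy₀' : ∀ c ∈ L, c.1.card ≠ 0 → ∀ o ∈ c.2, ¬ thin o y₀ :=
          fun c hc h1 o ho => hy₀ (sw c) (List.mem_map_of_mem hc) h1 o ho
        by_cases h1 : ∃ y, p₀ x₀ ≠ o₀ y
        · obtain ⟨y, hy⟩ := h1
          exact ⟨x₀, y, hy, Or.inr (hbad x₀ y (Or.inl hx₀))⟩
        · push Not at h1
          have h2 : ∃ x, p₀ x ≠ o₀ y₀ := by
            by_contra hcon
            push Not at hcon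
            apply hk c₀ hc₀ (p₀ x₀)
            · have : (fun _ => p₀ x₀) = p₀ := by
                funext i; rw [hcon x₀, hcon i]
              rw [this]; exact hp₀
            · have : (fun _ => p₀ x₀) = o₀ := by
                funext i; rw [h1 i]
              rw [this]; exact ho₀
          obtain ⟨x, hx⟩ := h2
          exact ⟨x, y₀, hx, Or.inr (hbad x y₀ (Or.inr hy₀'))⟩
    have hs := sum_lt x y hp₀ ho₀ hxy L hc₀
    obtain ⟨σ, hσ⟩ := ih (L.flatMap (two x y)) (by
      rcases hcc with hM1 | hcc
      · left; omega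
      · by_cases h1 : ((L.flatMap (two x y)).map wt).sum = 0
        · exact Or.inl h1
        · right
          refine ⟨by omega, ?_⟩
          intro d hd k
          obtain ⟨c, hc, hd⟩ := List.mem_flatMap.1 hd
          simp only [two, List.mem_cons, List.not_mem_nil, or_false] at hd
          rcases hd with rfl | rfl
          · exact hcc c hc true k
          · exact hcc c hc false k)
    refine ⟨lift x y σ, fun c hc p hp o ho he => ?_⟩
    have h1 : p x = o y := by
      rw [he]; simp only [lift_at]
    have h2 : ∀ i, p (x.succAbove i) = o (y.succAbove (σ i)) := by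
      intro i
      rw [he]; simp only [lift_above]
    have h3 : (fun i => p (x.succAbove i)) ∈ half x (p x) c.1 := mem_half.2 ⟨p, hp, rfl, rfl⟩
    have h4 : (fun i => o (y.succAbove i)) ∈ half y (p x) c.2 :=
      mem_half.2 ⟨o, ho, h1.symm, rfl⟩
    have h5 : ((half x (p x) c.1, half y (p x) c.2) : Cl M) ∈ L.flatMap (two x y) := by
      refine List.mem_flatMap.2 ⟨c, hc, ?_⟩
      simp only [two, List.mem_cons, List.not_mem_nil, or_false]
      cases p x
      · right; rfl
      · left; rfl
    exact hσ _ h5 _ h3 _ h4 (funext h2)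

end PermX

/-- **Few vertices can be moved off few others.** -/
theorem exists_perm {M : ℕ} (P O : Finset (Fin M → Bool)) (hc : P.card + O.card ≤ M)
    (h0 : ∀ k : Bool, (fun _ => k) ∈ P → (fun _ => k) ∉ O) :
    ∃ σ : Equiv.Perm (Fin M), ∀ p ∈ P, (fun i => p (σ i)) ∉ O := by
  obtain ⟨σ, hσ⟩ := PermX.pack M [(P, O)] (by
    simp only [List.map_cons, List.map_nil, List.sum_cons, List.sum_nil, add_zero,
      List.mem_singleton, forall_eq]
    by_cases h1 : PermX.wt (P, O) = 0
    · exact Or.inl h1
    · right
      refine ⟨?_, h0⟩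
      unfold PermX.wt at h1 ⊢
      simp only at h1 ⊢
      split_ifs at h1 ⊢ <;> omega)
  refine ⟨σ⁻¹, fun p hp ho => ?_⟩
  refine hσ (P, O) (List.mem_singleton_self _) p hp _ ho ?_
  funext i
  simp

end Pool.Agent.Work.MP_bf01b2_co.MR
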