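import Pool.Agent.Work.MP_bf01b2_co.MR.State
import Pool.Agent.Work.MP_bf01b2_co.MR.Perm

/-!
# Marks recursion: softs of a forest with one tree are free, except at the antipode of the root

`emb_one_inter`: if a labelled tree embeds after all its labels are intersected with the antipode of
the root, and the number of holes with non-empty label plus the number of soft positions (without
the root and its antipode) is at most the dimension, then it embeds. `emb_one`: the same from the
hard state, if the antipode is not a soft position.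
-/

set_option autoImplicit false

namespace Pool.Agent.Work.MP_bf01b2_co.MR

/-! ### The permutation of the coordinates around a vertex -/

/-- the antipode -/
def anti {m : ℕ} (v : Fin m → Bool) : Fin m → Bool := fun i => !v i

/-- permutation of the coordinates around `h` -/
def permAt {m : ℕ} (h : Fin m → Bool) (σ : Equiv.Perm (Fin m)) :
    (Fin m → Bool) ≃ (Fin m → Bool) where
  toFun v i := xor (xor (v (σ i)) (h (σ i))) (h i)
  invFun v i := xor (xor (v (σ.symm i)) (h (σ.symm i))) (h i)
  left_inv v := by
    funext i
    simp only [Equiv.apply_symm_apply]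
    cases v i <;> cases h i <;> cases h (σ.symm i) <;> rfl
  right_inv v := by
    funext i
    simp only [Equiv.symm_apply_apply]
    cases v i <;> cases h i <;> cases h (σ i) <;> rfl

theorem permAt_apply {m : ℕ} (h : Fin m → Bool) (σ : Equiv.Perm (Fin m)) (v : Fin m → Bool)
    (i : Fin m) : permAt h σ v i = xor (xor (v (σ i)) (h (σ i))) (h i) := rfl

theorem permAt_self {m : ℕ} (h : Fin m → Bool) (σ : Equiv.Perm (Fin m)) : permAt h σ h = h := by
  funext i
  rw [permAt_apply]
  cases h i <;> cases h (σ i) <;> rfl

theorem permAt_anti {m : ℕ} (h : Fin m → Bool) (σ : Equiv.Perm (Fin m)) :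
    permAt h σ (anti h) = anti h := by
  funext i
  rw [permAt_apply]
  unfold anti
  cases h i <;> cases h (σ i) <;> rfl

theorem permAt_adj {m : ℕ} (h : Fin m → Bool) (σ : Equiv.Perm (Fin m)) (x y : Fin m → Bool)
    (hxy : cadj m x y) : cadj m (permAt h σ x) (permAt h σ y) := by
  obtain ⟨j, rfl⟩ := cadj_iff.1 hxy
  rw [cadj_iff]
  refine ⟨σ.symm j, ?_⟩
  funext i
  by_cases hi : i = σ.symm j
  · subst hi
    rw [flip_apply_self, permAt_apply, permAt_apply, Equiv.apply_symm_apply, flip_apply_self]
    cases x j <;> cases h j <;> cases h (σ.symm j) <;> rfl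
  · have hj : σ i ≠ j := fun h' => hi (by rw [← h', Equiv.symm_apply_apply])
    rw [flip_apply_of_ne hi, permAt_apply, permAt_apply, flip_apply_of_ne hj]

/-- the position relative to `h` -/
def rel {m : ℕ} (h v : Fin m → Bool) : Fin m → Bool := fun i => xor (v i) (h i)

theorem rel_inj {m : ℕ} {h v w : Fin m → Bool} (e : rel h v = rel h w) : v = w := by
  funext i
  have := congrFun e i
  unfold rel at this
  revert this
  cases v i <;> cases w i <;> cases h i <;> simp

theorem rel_self {m : ℕ} (h : Fin m → Bool) : rel h h = fun _ => false := by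
  funext i
  unfold rel
  cases h i <;> rfl

theorem rel_anti {m : ℕ} (h : Fin m → Bool) : rel h (anti h) = fun _ => true := by
  funext i
  unfold rel anti
  cases h i <;> rfl

theorem rel_permAt {m : ℕ} (h : Fin m → Bool) (σ : Equiv.Perm (Fin m)) (v : Fin m → Bool) :
    rel h (permAt h σ v) = fun i => rel h v (σ i) := by
  funext i
  unfold rel
  rw [permAt_apply]
  cases v (σ i) <;> cases h i <;> cases h (σ i) <;> rfl

/-! ### Labels and positions of the holes -/

section labels
variable {V : Type*} [DecidableEq V]

/-- the labels are intersected with a set -/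
def LT.inter (K : Finset V) : LT V → LT V
  | .nil => .nil
  | .hole F => .hole (F ∩ K)
  | .node l r => .node (l.inter K) (r.inter K)

theorem LT.shape_inter (K : Finset V) : ∀ t : LT V, (t.inter K).shape = t.shape
  | .nil => rfl
  | .hole _ => rfl
  | .node l r => by rw [LT.inter, LT.shape, LT.shape, LT.shape_inter K l, LT.shape_inter K r]

theorem LT.labs_inter (K : Finset V) : ∀ t : LT V, (t.inter K).labs = t.labs.map (· ∩ K)
  | .nil => rfl
  | .hole _ => rfl
  | .node l r => by
    rw [LT.inter, LT.labs, LT.labs, LT.labs_inter K l, LT.labs_inter K r, List.map_append]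

/-- the labels are intersected with a set -/
def LRT.inter (K : Finset V) (T : LRT V) : LRT V := ⟨T.pos, T.l.inter K, T.r.inter K⟩

theorem LRT.shape_inter (K : Finset V) (T : LRT V) : (T.inter K).shape = T.shape := by
  unfold LRT.inter LRT.shape
  rw [LT.shape_inter, LT.shape_inter]

theorem LRT.labs_inter (K : Finset V) (T : LRT V) :
    (T.inter K).labs = T.labs.map (· ∩ K) := by
  unfold LRT.inter LRT.labs
  rw [LT.labs_inter, LT.labs_inter, List.map_append]

/-- a hole below `v` whose parent is `v` is directly below `v` -/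
theorem slot_sep {adj : V → V → Prop} {t : LT V} {v : V} {S : Finset V} {p : List V}
    (h : Slot adj t.shape v S p) (hv : v ∉ S) (ht : v ∉ t.top) :
    List.Forall₂ (fun F y => y = v → v ∉ F) t.labs p := by
  cases t with
  | nil =>
    obtain ⟨rfl, rfl⟩ := h
    exact .nil
  | hole F =>
    obtain ⟨rfl, rfl⟩ := h
    exact .cons (fun _ => ht) .nil
  | node l r =>
    rw [List.forall₂_iff_zip]
    refine ⟨?_, ?_⟩
    · obtain ⟨x, _, A, B, pa, pb, hA, hB, _, _, _, rfl, rfl⟩ := h
      rw [LT.labs, List.length_append, List.length_append, LT.labs_length, LT.labs_length,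
        (slot_length hA).1, (slot_length hB).1]
    · intro F y hFy hy
      exfalso
      have h1 : y ∈ p := (List.of_mem_zip hFy).2
      rcases slot_mem h y h1 with ⟨_, h2⟩ | h2
      · simp [LT.shape] at h2
      · exact hv (hy ▸ h2)

theorem root_sep {adj : V → V → Prop} {T : LRT V} {S : Finset V} {p : List V}
    (h : Root adj T.l.shape T.r.shape T.pos S p) (hr : RootOK T) :
    List.Forall₂ (fun F y => y = T.pos → T.pos ∉ F) T.labs p := by
  obtain ⟨A, B, pa, pb, hA, hB, h1, h2, _, rfl, rfl⟩ := h
  exact forall₂_append' (slot_sep hA h1 hr.1) (slot_sep hB h2 hr.2)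

theorem zip_filter_le {α β : Type*} (q : α → Bool) (r : α × β → Bool)
    (hqr : ∀ z, r z = true → q z.1 = true) : ∀ (L : List α) (p : List β),
    ((L.zip p).filter r).length ≤ L.countP q
  | [], _ => by simp
  | _ :: _, [] => by simp
  | a :: L, b :: p => by
    rw [List.zip_cons_cons, List.filter_cons, List.countP_cons]
    have ih := zip_filter_le q r hqr L p
    by_cases h : r (a, b) = true
    · rw [if_pos h, List.length_cons, if_pos (hqr _ h)]
      omega
    · rw [if_neg h]
      omega

end labels

/-! ### The result -/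

/-- **Softs of one tree are free, except at the antipode of the root.** -/
theorem emb_one_inter {m : ℕ} {T : LRT (Fin m → Bool)} (hr : RootOK T)
    (hT : ∃ S, Emb (cadj m) [T.inter {anti T.pos}] S)
    (hc : nspec [T] + (softs [T] \ {T.pos, anti T.pos}).card ≤ m) :
    ∃ S, Emb (cadj m) [T] S := by
  obtain ⟨S, p, hF, hlab⟩ := hT
  have hF' : Forest (cadj m) [T.shape] S p := by
    have : ([T.inter {anti T.pos}] : List (LRT (Fin m → Bool))).map LRT.shape = [T.shape] := by
      rw [List.map_singleton, LRT.shape_inter]
    rwa [this] at hF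
  obtain ⟨A, B, pa, pb, hR, hnil, hd, rfl, rfl⟩ := hF'
  obtain ⟨rfl, rfl⟩ := hnil
  rw [List.append_nil] at hlab
  have hlab' : List.Forall₂ (fun F x => x ∉ F ∩ {anti T.pos}) T.labs pa := by
    have h1 : ([T.inter {anti T.pos}] : List (LRT (Fin m → Bool))).flatMap LRT.labs =
        T.labs.map (· ∩ {anti T.pos}) := by
      rw [List.flatMap_singleton, LRT.labs_inter]
    rw [h1, List.forall₂_map_left_iff] at hlab
    exact hlab
  have hsep := root_sep hR hr
  -- the two sets
  let r : Finset (Fin m → Bool) × (Fin m → Bool) → Bool :=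
    fun z => decide (z.1 ≠ ∅) && decide (z.2 ≠ T.pos)
  let P : Finset (Fin m → Bool) :=
    (((T.labs.zip pa).filter r).map fun z => rel T.pos z.2).toFinset
  let O : Finset (Fin m → Bool) := (softs [T] \ {T.pos, anti T.pos}).image (rel T.pos)
  have hPc : P.card ≤ nspec [T] := by
    refine (List.toFinset_card_le _).trans ?_
    rw [List.length_map]
    have h1 : nspec [T] = T.labs.countP (fun F => decide (F ≠ ∅)) := by
      unfold nspec
      rw [List.flatMap_singleton]
    rw [h1]
    refine zip_filter_le _ _ ?_ _ _
    intro z hz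
    simp only [r, Bool.and_eq_true] at hz
    exact hz.1
  have hOc : O.card ≤ (softs [T] \ {T.pos, anti T.pos}).card := Finset.card_image_le
  have hO : ∀ k : Bool, (fun _ => k) ∉ O := by
    intro k hk
    obtain ⟨v, hv, hvk⟩ := Finset.mem_image.1 hk
    rw [Finset.mem_sdiff, Finset.mem_insert, Finset.mem_singleton, not_or] at hv
    cases k with
    | false => exact hv.2.1 (rel_inj (by rw [hvk, rel_self]))
    | true => exact hv.2.2 (rel_inj (by rw [hvk, rel_anti]))
  obtain ⟨σ, hσ⟩ := exists_perm P O (by omega) (fun k _ => hO k)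
  let φ := permAt T.pos σ
  refine ⟨A.map φ.toEmbedding, pa.map φ, ?_, ?_⟩
  · rw [List.map_singleton]
    have h2 := root_map φ.toEmbedding (permAt_adj T.pos σ) hR
    have h3 : φ.toEmbedding T.shape.pos = T.shape.pos := permAt_self T.pos σ
    rw [h3] at h2
    exact ⟨_, ∅, _, [], h2, ⟨rfl, rfl⟩, Finset.disjoint_empty_right _, by simp, by simp⟩
  · rw [List.flatMap_singleton, List.forall₂_map_right_iff, List.forall₂_iff_zip]
    refine ⟨hsep.length_eq, ?_⟩
    intro F y hFy hyF
    have hyF : φ y ∈ F := hyF
    have hs : φ y ∈ softs [T] :=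
      mem_softs.2 ⟨T, List.mem_singleton_self T, F, (List.of_mem_zip hFy).1, hyF⟩
    by_cases hy : y = T.pos
    · subst hy
      have h4 : φ T.pos = T.pos := permAt_self T.pos σ
      rw [h4] at hyF
      exact (List.forall₂_iff_zip.1 hsep).2 hFy rfl hyF
    · have hyP : rel T.pos y ∈ P := by
        rw [List.mem_toFinset, List.mem_map]
        refine ⟨(F, y), List.mem_filter.2 ⟨hFy, ?_⟩, rfl⟩
        simp only [r, Bool.and_eq_true, decide_eq_true_eq]
        exact ⟨fun h => by rw [h] at hyF; exact absurd hyF (Finset.notMem_empty _), hy⟩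
      have h5 := hσ _ hyP
      have h6 : rel T.pos (φ y) ∉ O := by
        rw [rel_permAt]; exact h5
      have h7 : φ y = T.pos ∨ φ y = anti T.pos := by
        by_contra hcon
        apply h6
        refine Finset.mem_image_of_mem _ (Finset.mem_sdiff.2 ⟨hs, ?_⟩)
        rw [Finset.mem_insert, Finset.mem_singleton]
        exact hcon
      rcases h7 with h7 | h7
      · apply hy
        apply φ.injective
        rw [h7]
        exact (permAt_self T.pos σ).symm
      · have h8 : y = anti T.pos := by
          apply φ.injective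
          rw [h7]
          exact (permAt_anti T.pos σ).symm
        rw [h7] at hyF
        have h9 := (List.forall₂_iff_zip.1 hlab').2 hFy
        apply h9
        rw [h8]
        exact Finset.mem_inter.2 ⟨hyF, Finset.mem_singleton_self _⟩

/-- **One tree, no soft at the antipode of the root.** -/
theorem emb_one {m N : ℕ} (h : Gd m 0 0 [N]) {T : LRT (Fin m → Bool)} (hr : RootOK T)
    (hs : LRT.size T ≤ N) (ha : anti T.pos ∉ softs [T])
    (hc : nspec [T] + (softs [T] \ {T.pos}).card ≤ m) : ∃ S, Emb (cadj m) [T] S := by
  refine emb_one_inter hr ?_ (le_trans (Nat.add_le_add_left (Finset.card_le_card ?_) _) hc)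
  · obtain ⟨S, p, hF, -⟩ := h.toHF (ms := [(T.pos, N)]) rfl (by simp) [T.shape]
      (.cons ⟨rfl, hs⟩ .nil)
    refine ⟨S, p, ?_, ?_⟩
    · rw [List.map_singleton, LRT.shape_inter]
      exact hF
    · rw [List.flatMap_singleton, LRT.labs_inter, List.forall₂_map_left_iff,
        List.forall₂_iff_zip]
      refine ⟨?_, ?_⟩
      · obtain ⟨A, B, pa, pb, hR, hnil, hd, rfl, rfl⟩ := hF
        obtain ⟨rfl, rfl⟩ := hnil
        rw [List.append_nil]
        exact (root_sep hR hr).length_eq
      · intro F y hFy hy
        rw [Finset.mem_inter, Finset.mem_singleton] at hy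
        apply ha
        rw [← hy.2]
        exact mem_softs.2 ⟨T, List.mem_singleton_self T, F, (List.of_mem_zip hFy).1, hy.1⟩
  · intro v hv
    rw [Finset.mem_sdiff, Finset.mem_insert, not_or] at hv
    exact Finset.mem_sdiff.2 ⟨hv.1, by simpa using hv.2.1⟩

end Pool.Agent.Work.MP_bf01b2_co.MR
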