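import Pool.Agent.Work.MP_bf01b2_co.MR.Pa1R0
import Pool.Agent.Work.MP_bf01b2_co.MR.Pa1R1

namespace Pool.Agent.Work.MP_bf01b2_co.MR

namespace Pt

theorem Pa1_ok : ∀ j < 2387, GoodP 1 Pa1T j := by
  have h : ∀ j < 0, GoodP 1 Pa1T j := fun j hj => absurd hj (Nat.not_lt_zero j)
  replace h := Pa1_step0 h
  replace h := Pa1_step1 h
  replace h := Pa1_step2 h
  replace h := Pa1_step3 h
  replace h := Pa1_step4 h
  replace h := Pa1_step5 h
  replace h := Pa1_step6 h
  replace h := Pa1_step7 h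
  replace h := Pa1_step8 h
  exact h

end Pt

end Pool.Agent.Work.MP_bf01b2_co.MR
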