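import Pool.Agent.Work.MP_bf01b2_co.MR.Pa2R0
import Pool.Agent.Work.MP_bf01b2_co.MR.Pa2R1
import Pool.Agent.Work.MP_bf01b2_co.MR.Pa2R2
import Pool.Agent.Work.MP_bf01b2_co.MR.Pa2R3

namespace Pool.Agent.Work.MP_bf01b2_co.MR

namespace Pt

theorem Pa2_ok : ∀ j < 7136, GoodP 1 Pa2T j := by
  have h : ∀ j < 0, GoodP 1 Pa2T j := fun j hj => absurd hj (Nat.not_lt_zero j)
  replace h := Pa2_step0 h
  replace h := Pa2_step1 h
  replace h := Pa2_step2 h
  replace h := Pa2_step3 h
  replace h := Pa2_step4 h
  replace h := Pa2_step5 h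
  replace h := Pa2_step6 h
  replace h := Pa2_step7 h
  replace h := Pa2_step8 h
  replace h := Pa2_step9 h
  replace h := Pa2_step10 h
  replace h := Pa2_step11 h
  replace h := Pa2_step12 h
  replace h := Pa2_step13 h
  replace h := Pa2_step14 h
  replace h := Pa2_step15 h
  replace h := Pa2_step16 h
  replace h := Pa2_step17 h
  replace h := Pa2_step18 h
  replace h := Pa2_step19 h
  replace h := Pa2_step20 h
  replace h := Pa2_step21 h
  replace h := Pa2_step22 h
  replace h := Pa2_step23 h
  replace h := Pa2_step24 h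
  replace h := Pa2_step25 h
  replace h := Pa2_step26 h
  replace h := Pa2_step27 h
  replace h := Pa2_step28 h
  replace h := Pa2_step29 h
  exact h

end Pt

end Pool.Agent.Work.MP_bf01b2_co.MR
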