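import Pool.Agent.Work.MP_bf01b2_co.MR.Pa3R0
import Pool.Agent.Work.MP_bf01b2_co.MR.Pa3R1
import Pool.Agent.Work.MP_bf01b2_co.MR.Pa3R2
import Pool.Agent.Work.MP_bf01b2_co.MR.Pa3R3
import Pool.Agent.Work.MP_bf01b2_co.MR.Pa3R4
import Pool.Agent.Work.MP_bf01b2_co.MR.Pa3R5
import Pool.Agent.Work.MP_bf01b2_co.MR.Pa3R6
import Pool.Agent.Work.MP_bf01b2_co.MR.Pa3R7
import Pool.Agent.Work.MP_bf01b2_co.MR.Pa3R8

namespace Pool.Agent.Work.MP_bf01b2_co.MR

namespace Pt

theorem Pa3_ok : ∀ j < 14936, GoodP 1 Pa3T j := by
  have h : ∀ j < 0, GoodP 1 Pa3T j := fun j hj => absurd hj (Nat.not_lt_zero j)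
  replace h := Pa3_step0 h
  replace h := Pa3_step1 h
  replace h := Pa3_step2 h
  replace h := Pa3_step3 h
  replace h := Pa3_step4 h
  replace h := Pa3_step5 h
  replace h := Pa3_step6 h
  replace h := Pa3_step7 h
  replace h := Pa3_step8 h
  replace h := Pa3_step9 h
  replace h := Pa3_step10 h
  replace h := Pa3_step11 h
  replace h := Pa3_step12 h
  replace h := Pa3_step13 h
  replace h := Pa3_step14 h
  replace h := Pa3_step15 h
  replace h := Pa3_step16 h
  replace h := Pa3_step17 h
  replace h := Pa3_step18 h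
  replace h := Pa3_step19 h
  replace h := Pa3_step20 h
  replace h := Pa3_step21 h
  replace h := Pa3_step22 h
  replace h := Pa3_step23 h
  replace h := Pa3_step24 h
  replace h := Pa3_step25 h
  replace h := Pa3_step26 h
  replace h := Pa3_step27 h
  replace h := Pa3_step28 h
  replace h := Pa3_step29 h
  replace h := Pa3_step30 h
  replace h := Pa3_step31 h
  replace h := Pa3_step32 h
  replace h := Pa3_step33 h
  replace h := Pa3_step34 h
  replace h := Pa3_step35 h
  replace h := Pa3_step36 h
  replace h := Pa3_step37 h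
  replace h := Pa3_step38 h
  replace h := Pa3_step39 h
  replace h := Pa3_step40 h
  replace h := Pa3_step41 h
  replace h := Pa3_step42 h
  replace h := Pa3_step43 h
  replace h := Pa3_step44 h
  replace h := Pa3_step45 h
  replace h := Pa3_step46 h
  replace h := Pa3_step47 h
  replace h := Pa3_step48 h
  replace h := Pa3_step49 h
  replace h := Pa3_step50 h
  replace h := Pa3_step51 h
  replace h := Pa3_step52 h
  replace h := Pa3_step53 h
  replace h := Pa3_step54 h
  replace h := Pa3_step55 h
  replace h := Pa3_step56 h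
  replace h := Pa3_step57 h
  replace h := Pa3_step58 h
  replace h := Pa3_step59 h
  replace h := Pa3_step60 h
  replace h := Pa3_step61 h
  replace h := Pa3_step62 h
  replace h := Pa3_step63 h
  replace h := Pa3_step64 h
  replace h := Pa3_step65 h
  exact h

end Pt

end Pool.Agent.Work.MP_bf01b2_co.MR
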