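import Pool.Agent.Work.MP_bf01b2_co.MR.Pa4R0
import Pool.Agent.Work.MP_bf01b2_co.MR.Pa4R1
import Pool.Agent.Work.MP_bf01b2_co.MR.Pa4R2
import Pool.Agent.Work.MP_bf01b2_co.MR.Pa4R3
import Pool.Agent.Work.MP_bf01b2_co.MR.Pa4R4
import Pool.Agent.Work.MP_bf01b2_co.MR.Pa4R5
import Pool.Agent.Work.MP_bf01b2_co.MR.Pa4R6
import Pool.Agent.Work.MP_bf01b2_co.MR.Pa4R7
import Pool.Agent.Work.MP_bf01b2_co.MR.Pa4R8
import Pool.Agent.Work.MP_bf01b2_co.MR.Pa4R9
import Pool.Agent.Work.MP_bf01b2_co.MR.Pa4R10

namespace Pool.Agent.Work.MP_bf01b2_co.MR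

namespace Pt

theorem Pa4_ok : ∀ j < 19420, GoodP 1 Pa4T j := by
  have h : ∀ j < 0, GoodP 1 Pa4T j := fun j hj => absurd hj (Nat.not_lt_zero j)
  replace h := Pa4_step0 h
  replace h := Pa4_step1 h
  replace h := Pa4_step2 h
  replace h := Pa4_step3 h
  replace h := Pa4_step4 h
  replace h := Pa4_step5 h
  replace h := Pa4_step6 h
  replace h := Pa4_step7 h
  replace h := Pa4_step8 h
  replace h := Pa4_step9 h
  replace h := Pa4_step10 h
  replace h := Pa4_step11 h
  replace h := Pa4_step12 h
  replace h := Pa4_step13 h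
  replace h := Pa4_step14 h
  replace h := Pa4_step15 h
  replace h := Pa4_step16 h
  replace h := Pa4_step17 h
  replace h := Pa4_step18 h
  replace h := Pa4_step19 h
  replace h := Pa4_step20 h
  replace h := Pa4_step21 h
  replace h := Pa4_step22 h
  replace h := Pa4_step23 h
  replace h := Pa4_step24 h
  replace h := Pa4_step25 h
  replace h := Pa4_step26 h
  replace h := Pa4_step27 h
  replace h := Pa4_step28 h
  replace h := Pa4_step29 h
  replace h := Pa4_step30 h
  replace h := Pa4_step31 h
  replace h := Pa4_step32 h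
  replace h := Pa4_step33 h
  replace h := Pa4_step34 h
  replace h := Pa4_step35 h
  replace h := Pa4_step36 h
  replace h := Pa4_step37 h
  replace h := Pa4_step38 h
  replace h := Pa4_step39 h
  replace h := Pa4_step40 h
  replace h := Pa4_step41 h
  replace h := Pa4_step42 h
  replace h := Pa4_step43 h
  replace h := Pa4_step44 h
  replace h := Pa4_step45 h
  replace h := Pa4_step46 h
  replace h := Pa4_step47 h
  replace h := Pa4_step48 h
  replace h := Pa4_step49 h
  replace h := Pa4_step50 h
  replace h := Pa4_step51 h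
  replace h := Pa4_step52 h
  replace h := Pa4_step53 h
  replace h := Pa4_step54 h
  replace h := Pa4_step55 h
  replace h := Pa4_step56 h
  replace h := Pa4_step57 h
  replace h := Pa4_step58 h
  replace h := Pa4_step59 h
  replace h := Pa4_step60 h
  replace h := Pa4_step61 h
  replace h := Pa4_step62 h
  replace h := Pa4_step63 h
  replace h := Pa4_step64 h
  replace h := Pa4_step65 h
  replace h := Pa4_step66 h
  replace h := Pa4_step67 h
  replace h := Pa4_step68 h
  replace h := Pa4_step69 h
  replace h := Pa4_step70 h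
  replace h := Pa4_step71 h
  replace h := Pa4_step72 h
  replace h := Pa4_step73 h
  replace h := Pa4_step74 h
  replace h := Pa4_step75 h
  replace h := Pa4_step76 h
  replace h := Pa4_step77 h
  replace h := Pa4_step78 h
  replace h := Pa4_step79 h
  replace h := Pa4_step80 h
  replace h := Pa4_step81 h
  replace h := Pa4_step82 h
  replace h := Pa4_step83 h
  replace h := Pa4_step84 h
  replace h := Pa4_step85 h
  replace h := Pa4_step86 h
  exact h

end Pt

end Pool.Agent.Work.MP_bf01b2_co.MR
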