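import Pool.Agent.Work.MP_bf01b2_co.MR.PaYR0
import Pool.Agent.Work.MP_bf01b2_co.MR.PaYR1
import Pool.Agent.Work.MP_bf01b2_co.MR.PaYR2

namespace Pool.Agent.Work.MP_bf01b2_co.MR

namespace Pt

theorem PaY_ok : ∀ j < 4515, GoodP 1 PaYT j := by
  have h : ∀ j < 0, GoodP 1 PaYT j := fun j hj => absurd hj (Nat.not_lt_zero j)
  replace h := PaY_step0 h
  replace h := PaY_step1 h
  replace h := PaY_step2 h
  replace h := PaY_step3 h
  replace h := PaY_step4 h
  replace h := PaY_step5 h
  replace h := PaY_step6 h
  replace h := PaY_step7 h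
  replace h := PaY_step8 h
  replace h := PaY_step9 h
  replace h := PaY_step10 h
  replace h := PaY_step11 h
  replace h := PaY_step12 h
  replace h := PaY_step13 h
  replace h := PaY_step14 h
  replace h := PaY_step15 h
  replace h := PaY_step16 h
  exact h

end Pt

end Pool.Agent.Work.MP_bf01b2_co.MR
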