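import Pool.Agent.Work.MP_bf01b2_co.MR.PfQ
import Pool.Agent.Work.MP_bf01b2_co.MR.PaYAll

set_option maxRecDepth 100000

namespace Pool.Agent.Work.MP_bf01b2_co.MR

namespace Pt

theorem Yv_0 : VOK [0, 3] 31 [1, 22] :=
  vok_pat (T := PaYT) (M := 4515) (f := 79) PaY_ok (by decide) (by decide) rfl
    (tk := [nat_lit 2, nat_lit 1, nat_lit 0, nat_lit 2, nat_lit 8, nat_lit 7669566, nat_lit 1966147865, nat_lit 0, nat_lit 0, nat_lit 2, nat_lit 4, nat_lit 124061503, nat_lit 1966147865, nat_lit 0, nat_lit 0, nat_lit 8, nat_lit 16, nat_lit 173081469, nat_lit 658192, nat_lit 0, nat_lit 0, nat_lit 16, nat_lit 2, nat_lit 1966146428, nat_lit 7473937, nat_lit 0, nat_lit 0, nat_lit 4, nat_lit 1, nat_lit 141689394, nat_lit 7409156, nat_lit 0, nat_lit 0, nat_lit 2, nat_lit 4, nat_lit 6357555, nat_lit 396799, nat_lit 0, nat_lit 0, nat_lit 2, nat_lit 4, nat_lit 524432, nat_lit 528260, nat_lit 0, nat_lit 0, nat_lit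 2, nat_lit 1, nat_lit 1966145680, nat_lit 3979, nat_lit 0, nat_lit 0, nat_lit 2, nat_lit 4, nat_lit 7733314, nat_lit 6623306, nat_lit 0, nat_lit 0, nat_lit 1, nat_lit 4, nat_lit 70320194, nat_lit 3280963, nat_lit 0, nat_lit 0, nat_lit 16, nat_lit 1, nat_lit 174194699, nat_lit 7672033, nat_lit 0, nat_lit 0, nat_lit 1, nat_lit 16, nat_lit 11, nat_lit 176230606, nat_lit 0, nat_lit 0, nat_lit 8, nat_lit 1, nat_lit 5439492, nat_lit 139530540, nat_lit 0, nat_lit 0, nat_lit 16, nat_lit 1, nat_lit 6422532, nat_lit 4421, nat_lit 0, nat_lit 0, nat_lit 2, nat_lit 16, nat_lit 6422530, nat_lit 1966149995, nat_lit 0, nat_lit 0, nat_lit 4, nat_lit 16, nat_lit 2, nat_lit 659821, nat_lit 0, nat_lit 0, nat_lit 8, nat_lit 16, nat_lit 139526145, nat_lit 2518749579, nat_lit 0, nat_lit 0, nat_lit 4, nat_lit 1, nat_lit 5308417, nat_lit 4486, nat_lit 0, nat_lit 0, nat_lit 4, nat_lit 2, nat_lit 0, nat_lit 4504, nat_lit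 0, nat_lit 0, nat_lit 2, nat_lit 8, nat_lit 0, nat_lit 70039, nat_lit 0, nat_lit 2, nat_lit 2, nat_lit 0, nat_lit 1, nat_lit 8, nat_lit 16, nat_lit 1852, nat_lit 526147, nat_lit 0, nat_lit 0, nat_lit 4, nat_lit 8, nat_lit 1, nat_lit 2216757053, nat_lit 4261694, nat_lit 0, nat_lit 0, nat_lit 1, nat_lit 16, nat_lit 8, nat_lit 328573, nat_lit 67864, nat_lit 0, nat_lit 0, nat_lit 4, nat_lit 16, nat_lit 8, nat_lit 590716, nat_lit 154208886, nat_lit 0, nat_lit 0, nat_lit 4, nat_lit 16, nat_lit 2, nat_lit 8716851, nat_lit 8719121, nat_lit 0, nat_lit 0, nat_lit 16, nat_lit 8, nat_lit 2, nat_lit 10814003, nat_lit 658192, nat_lit 0, nat_lit 0, nat_lit 2, nat_lit 8, nat_lit 4, nat_lit 159449232, nat_lit 3588, nat_lit 0, nat_lit 0, nat_lit 16, nat_lit 2, nat_lit 1, nat_lit 70385808, nat_lit 176230013, nat_lit 0, nat_lit 0, nat_lit 4, nat_lit 1, nat_lit 16, nat_lit 64, nat_lit 10817410, nat_lit 0, nat_lit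 0, nat_lit 2, nat_lit 4, nat_lit 8, nat_lit 64, nat_lit 5312382, nat_lit 0, nat_lit 0, nat_lit 8, nat_lit 1, nat_lit 16, nat_lit 327691, nat_lit 4238, nat_lit 0, nat_lit 0, nat_lit 4, nat_lit 2, nat_lit 8, nat_lit 11, nat_lit 135251, nat_lit 0, nat_lit 0, nat_lit 4, nat_lit 1, nat_lit 8, nat_lit 2790326276, nat_lit 4346, nat_lit 0, nat_lit 0, nat_lit 4, nat_lit 2, nat_lit 8, nat_lit 131076, nat_lit 3215566, nat_lit 0, nat_lit 0, nat_lit 1, nat_lit 8, nat_lit 4, nat_lit 8716290, nat_lit 397608, nat_lit 0, nat_lit 0, nat_lit 4, nat_lit 1, nat_lit 8, nat_lit 327682, nat_lit 6623528, nat_lit 0, nat_lit 0, nat_lit 16, nat_lit 8, nat_lit 4, nat_lit 139526145, nat_lit 10817900, nat_lit 0, nat_lit 0, nat_lit 16, nat_lit 2, nat_lit 1, nat_lit 65537, nat_lit 2823885157, nat_lit 0, nat_lit 2, nat_lit 4, nat_lit 0, nat_lit 4, nat_lit 2, nat_lit 16, nat_lit 1, nat_lit 16, nat_lit 0, nat_lit 105972605,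 nat_lit 5309723, nat_lit 0, nat_lit 0, nat_lit 8, nat_lit 4, nat_lit 16, nat_lit 8, nat_lit 2, nat_lit 0, nat_lit 174392188, nat_lit 2823881596, nat_lit 0, nat_lit 0, nat_lit 16, nat_lit 2, nat_lit 8, nat_lit 8, nat_lit 16, nat_lit 0, nat_lit 87097906, nat_lit 132959, nat_lit 0, nat_lit 0, nat_lit 4, nat_lit 2, nat_lit 16, nat_lit 1, nat_lit 16, nat_lit 0, nat_lit 328242, nat_lit 87099571, nat_lit 0, nat_lit 0, nat_lit 2, nat_lit 8, nat_lit 16, nat_lit 16, nat_lit 4, nat_lit 0, nat_lit 524432, nat_lit 8718622, nat_lit 0, nat_lit 0, nat_lit 1, nat_lit 4, nat_lit 16, nat_lit 16, nat_lit 8, nat_lit 0, nat_lit 144, nat_lit 102828817, nat_lit 0, nat_lit 0, nat_lit 4, nat_lit 16, nat_lit 1, nat_lit 4, nat_lit 2, nat_lit 0, nat_lit 2518745189, nat_lit 3453, nat_lit 0, nat_lit 0, nat_lit 2, nat_lit 8, nat_lit 16, nat_lit 16, nat_lit 2, nat_lit 0, nat_lit 327746, nat_lit 7408402, nat_lit 0, nat_lit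 0, nat_lit 1, nat_lit 8, nat_lit 16, nat_lit 2, nat_lit 4, nat_lit 0, nat_lit 10878987, nat_lit 3595, nat_lit 0, nat_lit 0, nat_lit 2, nat_lit 4, nat_lit 8, nat_lit 2, nat_lit 16, nat_lit 0, nat_lit 2162699, nat_lit 9965059, nat_lit 0, nat_lit 0, nat_lit 4, nat_lit 8, nat_lit 1, nat_lit 2, nat_lit 4, nat_lit 0, nat_lit 4, nat_lit 8458110, nat_lit 0, nat_lit 0, nat_lit 8, nat_lit 16, nat_lit 1, nat_lit 8, nat_lit 2, nat_lit 0, nat_lit 327684, nat_lit 2771455896, nat_lit 0, nat_lit 2, nat_lit 8, nat_lit 0, nat_lit 4, nat_lit 16, nat_lit 2, nat_lit 8, nat_lit 1, nat_lit 4, nat_lit 2, nat_lit 0, nat_lit 2790326275, nat_lit 124059792, nat_lit 174129445, nat_lit 0, nat_lit 0, nat_lit 16, nat_lit 8, nat_lit 4, nat_lit 4, nat_lit 16, nat_lit 1, nat_lit 2, nat_lit 0, nat_lit 2, nat_lit 123797648, nat_lit 7471573, nat_lit 0, nat_lit 0, nat_lit 1, nat_lit 16, nat_lit 4, nat_lit 1, nat_lit 4, nat_lit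 8, nat_lit 2, nat_lit 0, nat_lit 8716291, nat_lit 1966145601, nat_lit 10879538, nat_lit 0, nat_lit 0, nat_lit 8, nat_lit 2, nat_lit 16, nat_lit 4, nat_lit 16, nat_lit 2, nat_lit 16, nat_lit 0, nat_lit 8716290, nat_lit 524352, nat_lit 2555446071, nat_lit 0, nat_lit 0, nat_lit 1, nat_lit 8, nat_lit 16, nat_lit 1, nat_lit 2, nat_lit 16, nat_lit 4, nat_lit 0, nat_lit 9830403, nat_lit 524299, nat_lit 3278105, nat_lit 0, nat_lit 0, nat_lit 1, nat_lit 16, nat_lit 8, nat_lit 2, nat_lit 1, nat_lit 4, nat_lit 1, nat_lit 0, nat_lit 6356995, nat_lit 102825995, nat_lit 159450948, nat_lit 0, nat_lit 0, nat_lit 8, nat_lit 16, nat_lit 2, nat_lit 1, nat_lit 2, nat_lit 4, nat_lit 16, nat_lit 0, nat_lit 8716290, nat_lit 131076, nat_lit 9963340, nat_lit 0, nat_lit 0, nat_lit 4, nat_lit 8, nat_lit 16, nat_lit 16, nat_lit 2, nat_lit 1, nat_lit 4, nat_lit 0, nat_lit 3, nat_lit 9830404, nat_lit 120653633, nat_lit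 0, nat_lit 0, nat_lit 8, nat_lit 2, nat_lit 4, nat_lit 4, nat_lit 16, nat_lit 16, nat_lit 8, nat_lit 0, nat_lit 2162691, nat_lit 2, nat_lit 3017, nat_lit 0, nat_lit 0, nat_lit 2, nat_lit 4, nat_lit 16, nat_lit 2, nat_lit 8, nat_lit 1, nat_lit 16, nat_lit 0, nat_lit 327682, nat_lit 2, nat_lit 124062325, nat_lit 0, nat_lit 0, nat_lit 8, nat_lit 16, nat_lit 2, nat_lit 4, nat_lit 8, nat_lit 8, nat_lit 16, nat_lit 0, nat_lit 2, nat_lit 1, nat_lit 3454, nat_lit 0, nat_lit 0, nat_lit 4, nat_lit 8, nat_lit 2, nat_lit 4, nat_lit 2, nat_lit 16, nat_lit 1, nat_lit 0, nat_lit 3, nat_lit 65537, nat_lit 69121, nat_lit 0, nat_lit 0, nat_lit 2, nat_lit 4, nat_lit 16, nat_lit 1, nat_lit 2, nat_lit 16, nat_lit 2, nat_lit 0, nat_lit 9633795, nat_lit 0, nat_lit 3779, nat_lit 0, nat_lit 0, nat_lit 16, nat_lit 4, nat_lit 1, nat_lit 1, nat_lit 2, nat_lit 8, nat_lit 2, nat_lit 0, nat_lit 2790326275, nat_lit 0, nat_lit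 11013632, nat_lit 0, nat_lit 0, nat_lit 4, nat_lit 8, nat_lit 2, nat_lit 1, nat_lit 4, nat_lit 8, nat_lit 0, nat_lit 2162691, nat_lit 5443458, nat_lit 0, nat_lit 0, nat_lit 16, nat_lit 4, nat_lit 1, nat_lit 8, nat_lit 16, nat_lit 0, nat_lit 2, nat_lit 173084740, nat_lit 0, nat_lit 0, nat_lit 2, nat_lit 4, nat_lit 8, nat_lit 16, nat_lit 8, nat_lit 0, nat_lit 1, nat_lit 2235633909, nat_lit 0, nat_lit 0, nat_lit 1, nat_lit 16, nat_lit 4, nat_lit 1, nat_lit 4, nat_lit 0, nat_lit 1, nat_lit 173084876, nat_lit 0, nat_lit 0, nat_lit 8, nat_lit 4, nat_lit 1, nat_lit 8, nat_lit 1, nat_lit 0, nat_lit 0, nat_lit 4422, nat_lit 0, nat_lit 0, nat_lit 16, nat_lit 4, nat_lit 1, nat_lit 16, nat_lit 1, nat_lit 0, nat_lit 0, nat_lit 463205, nat_lit 0, nat_lit 0, nat_lit 4, nat_lit 8, nat_lit 16, nat_lit 1, nat_lit 0, nat_lit 2267091305, nat_lit 0, nat_lit 0, nat_lit 16, nat_lit 4, nat_lit 8, nat_lit 0, nat_lit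 141693319, nat_lit 0, nat_lit 0, nat_lit 2, nat_lit 16, nat_lit 463260, nat_lit 0])
    (by decide +kernel)

theorem Yv_1 : VOK [0, 3] 28 [22, 1] :=
  vok_pat (T := PaYT) (M := 4515) (f := 79) PaY_ok (by decide) (by decide) rfl
    (tk := [nat_lit 1, nat_lit 1, nat_lit 0, nat_lit 16, nat_lit 2, nat_lit 0, nat_lit 1985021759, nat_lit 8849694, nat_lit 0, nat_lit 1, nat_lit 16, nat_lit 0, nat_lit 1126238014, nat_lit 104991001, nat_lit 0, nat_lit 2, nat_lit 8, nat_lit 0, nat_lit 7668604, nat_lit 123800337, nat_lit 0, nat_lit 16, nat_lit 8, nat_lit 0, nat_lit 5309309, nat_lit 2832, nat_lit 0, nat_lit 1, nat_lit 2, nat_lit 0, nat_lit 6423090, nat_lit 8457727, nat_lit 0, nat_lit 1, nat_lit 8, nat_lit 0, nat_lit 3277363, nat_lit 6622719, nat_lit 0, nat_lit 1, nat_lit 16, nat_lit 0, nat_lit 144, nat_lit 4027, nat_lit 0, nat_lit 8, nat_lit 4, nat_lit 0, nat_lit 524432, nat_lit 5312382, nat_lit 0, nat_lit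 2, nat_lit 8, nat_lit 0, nat_lit 124059714, nat_lit 6623306, nat_lit 0, nat_lit 8, nat_lit 2, nat_lit 0, nat_lit 1985019971, nat_lit 397379, nat_lit 0, nat_lit 4, nat_lit 1, nat_lit 0, nat_lit 102825995, nat_lit 7737569, nat_lit 0, nat_lit 8, nat_lit 1, nat_lit 0, nat_lit 6422539, nat_lit 5312716, nat_lit 0, nat_lit 8, nat_lit 2, nat_lit 0, nat_lit 6422532, nat_lit 8524076, nat_lit 0, nat_lit 1, nat_lit 8, nat_lit 0, nat_lit 4, nat_lit 8720680, nat_lit 0, nat_lit 1, nat_lit 4, nat_lit 0, nat_lit 122880003, nat_lit 6558059, nat_lit 0, nat_lit 1, nat_lit 8, nat_lit 0, nat_lit 65539, nat_lit 159519077, nat_lit 0, nat_lit 8, nat_lit 4, nat_lit 0, nat_lit 1, nat_lit 4495, nat_lit 0, nat_lit 16, nat_lit 2, nat_lit 0, nat_lit 5308417, nat_lit 159519111, nat_lit 0, nat_lit 8, nat_lit 4, nat_lit 0, nat_lit 0, nat_lit 4510, nat_lit 0, nat_lit 4, nat_lit 16, nat_lit 0, nat_lit 0, nat_lit 11014558, nat_lit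 1, nat_lit 2, nat_lit 0, nat_lit 2, nat_lit 16, nat_lit 4, nat_lit 0, nat_lit 9963324, nat_lit 591683, nat_lit 0, nat_lit 8, nat_lit 16, nat_lit 2, nat_lit 0, nat_lit 7669565, nat_lit 124061502, nat_lit 0, nat_lit 2, nat_lit 4, nat_lit 16, nat_lit 0, nat_lit 892, nat_lit 526970, nat_lit 0, nat_lit 2, nat_lit 4, nat_lit 16, nat_lit 0, nat_lit 892, nat_lit 2681, nat_lit 0, nat_lit 8, nat_lit 16, nat_lit 2, nat_lit 0, nat_lit 328243, nat_lit 330513, nat_lit 0, nat_lit 16, nat_lit 4, nat_lit 1, nat_lit 0, nat_lit 2552300083, nat_lit 9964304, nat_lit 0, nat_lit 4, nat_lit 1, nat_lit 8, nat_lit 0, nat_lit 10551440, nat_lit 176229891, nat_lit 0, nat_lit 16, nat_lit 8, nat_lit 2, nat_lit 0, nat_lit 123797648, nat_lit 9637501, nat_lit 0, nat_lit 2, nat_lit 16, nat_lit 8, nat_lit 0, nat_lit 64, nat_lit 5312417, nat_lit 0, nat_lit 4, nat_lit 16, nat_lit 8, nat_lit 0, nat_lit 64, nat_lit 4028, nat_lit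 0, nat_lit 8, nat_lit 4, nat_lit 16, nat_lit 0, nat_lit 327691, nat_lit 4306, nat_lit 0, nat_lit 1, nat_lit 8, nat_lit 4, nat_lit 0, nat_lit 524299, nat_lit 331861, nat_lit 0, nat_lit 4, nat_lit 2, nat_lit 16, nat_lit 0, nat_lit 3276804, nat_lit 10555642, nat_lit 0, nat_lit 4, nat_lit 1, nat_lit 8, nat_lit 0, nat_lit 5308420, nat_lit 397518, nat_lit 0, nat_lit 16, nat_lit 4, nat_lit 2, nat_lit 0, nat_lit 6422530, nat_lit 4423, nat_lit 0, nat_lit 8, nat_lit 2, nat_lit 4, nat_lit 0, nat_lit 2, nat_lit 4442, nat_lit 0, nat_lit 8, nat_lit 4, nat_lit 1, nat_lit 0, nat_lit 65537, nat_lit 2552303979, nat_lit 0, nat_lit 16, nat_lit 4, nat_lit 1, nat_lit 0, nat_lit 65537, nat_lit 7475592, nat_lit 1, nat_lit 4, nat_lit 0, nat_lit 16, nat_lit 4, nat_lit 1, nat_lit 2, nat_lit 16, nat_lit 0, nat_lit 0, nat_lit 139527037, nat_lit 6357885, nat_lit 0, nat_lit 4, nat_lit 8, nat_lit 2, nat_lit 16, nat_lit 4,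 nat_lit 0, nat_lit 0, nat_lit 11010940, nat_lit 328992, nat_lit 0, nat_lit 1, nat_lit 4, nat_lit 8, nat_lit 16, nat_lit 1, nat_lit 0, nat_lit 0, nat_lit 2552300083, nat_lit 2259, nat_lit 0, nat_lit 2, nat_lit 16, nat_lit 8, nat_lit 2, nat_lit 1, nat_lit 0, nat_lit 0, nat_lit 123863602, nat_lit 124061977, nat_lit 0, nat_lit 4, nat_lit 16, nat_lit 2, nat_lit 1, nat_lit 2, nat_lit 0, nat_lit 0, nat_lit 6357136, nat_lit 3018, nat_lit 0, nat_lit 4, nat_lit 16, nat_lit 2, nat_lit 1, nat_lit 2, nat_lit 0, nat_lit 0, nat_lit 105971856, nat_lit 1985022589, nat_lit 0, nat_lit 2, nat_lit 8, nat_lit 16, nat_lit 16, nat_lit 2, nat_lit 0, nat_lit 0, nat_lit 327746, nat_lit 105974893, nat_lit 0, nat_lit 1, nat_lit 4, nat_lit 16, nat_lit 8, nat_lit 16, nat_lit 0, nat_lit 0, nat_lit 65, nat_lit 174197521, nat_lit 0, nat_lit 1, nat_lit 8, nat_lit 16, nat_lit 16, nat_lit 2, nat_lit 0, nat_lit 0, nat_lit 327691,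 nat_lit 159714981, nat_lit 0, nat_lit 2, nat_lit 16, nat_lit 4, nat_lit 1, nat_lit 4, nat_lit 0, nat_lit 0, nat_lit 524299, nat_lit 2555449000, nat_lit 0, nat_lit 2, nat_lit 16, nat_lit 8, nat_lit 1, nat_lit 2, nat_lit 0, nat_lit 0, nat_lit 5308420, nat_lit 4029, nat_lit 0, nat_lit 8, nat_lit 16, nat_lit 4, nat_lit 8, nat_lit 2, nat_lit 0, nat_lit 0, nat_lit 327684, nat_lit 1981878285, nat_lit 1, nat_lit 8, nat_lit 0, nat_lit 8, nat_lit 16, nat_lit 1, nat_lit 4, nat_lit 1, nat_lit 8, nat_lit 2, nat_lit 0, nat_lit 0, nat_lit 6356995, nat_lit 7667856, nat_lit 2468413855, nat_lit 0, nat_lit 8, nat_lit 16, nat_lit 1, nat_lit 4, nat_lit 2, nat_lit 8, nat_lit 2, nat_lit 0, nat_lit 0, nat_lit 157351939, nat_lit 141885584, nat_lit 8847653, nat_lit 0, nat_lit 2, nat_lit 4, nat_lit 8, nat_lit 16, nat_lit 8, nat_lit 1, nat_lit 8, nat_lit 0, nat_lit 0, nat_lit 327683, nat_lit 64, nat_lit 131895, nat_lit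 0, nat_lit 8, nat_lit 1, nat_lit 2, nat_lit 2, nat_lit 16, nat_lit 4, nat_lit 16, nat_lit 0, nat_lit 0, nat_lit 8716290, nat_lit 6619202, nat_lit 197459, nat_lit 0, nat_lit 8, nat_lit 2, nat_lit 16, nat_lit 4, nat_lit 16, nat_lit 2, nat_lit 16, nat_lit 0, nat_lit 0, nat_lit 8716290, nat_lit 139526155, nat_lit 2000, nat_lit 0, nat_lit 2, nat_lit 8, nat_lit 16, nat_lit 4, nat_lit 2, nat_lit 2, nat_lit 1, nat_lit 0, nat_lit 0, nat_lit 174391299, nat_lit 2787180555, nat_lit 141691087, nat_lit 0, nat_lit 1, nat_lit 4, nat_lit 16, nat_lit 16, nat_lit 1, nat_lit 2, nat_lit 1, nat_lit 0, nat_lit 0, nat_lit 8454147, nat_lit 102825988, nat_lit 460612, nat_lit 0, nat_lit 4, nat_lit 8, nat_lit 1, nat_lit 1, nat_lit 16, nat_lit 16, nat_lit 2, nat_lit 0, nat_lit 0, nat_lit 65539, nat_lit 5308420, nat_lit 2260, nat_lit 0, nat_lit 2, nat_lit 8, nat_lit 4, nat_lit 16, nat_lit 4, nat_lit 8, nat_lit 2, nat_lit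 0, nat_lit 0, nat_lit 327683, nat_lit 3, nat_lit 3019, nat_lit 0, nat_lit 4, nat_lit 1, nat_lit 8, nat_lit 2, nat_lit 16, nat_lit 1, nat_lit 16, nat_lit 0, nat_lit 0, nat_lit 105971715, nat_lit 3, nat_lit 10685067, nat_lit 0, nat_lit 4, nat_lit 1, nat_lit 2, nat_lit 8, nat_lit 2, nat_lit 16, nat_lit 4, nat_lit 0, nat_lit 0, nat_lit 122880003, nat_lit 139526145, nat_lit 2166084, nat_lit 0, nat_lit 4, nat_lit 2, nat_lit 16, nat_lit 1, nat_lit 8, nat_lit 2, nat_lit 16, nat_lit 0, nat_lit 0, nat_lit 327682, nat_lit 1, nat_lit 176295148, nat_lit 0, nat_lit 8, nat_lit 4, nat_lit 2, nat_lit 16, nat_lit 1, nat_lit 4, nat_lit 8, nat_lit 0, nat_lit 0, nat_lit 6356995, nat_lit 0, nat_lit 3780, nat_lit 0, nat_lit 4, nat_lit 16, nat_lit 2, nat_lit 4, nat_lit 2, nat_lit 8, nat_lit 2, nat_lit 0, nat_lit 0, nat_lit 6619139, nat_lit 0, nat_lit 2771455622, nat_lit 0, nat_lit 8, nat_lit 2, nat_lit 16, nat_lit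 1, nat_lit 4, nat_lit 4, nat_lit 0, nat_lit 0, nat_lit 8454147, nat_lit 4030, nat_lit 0, nat_lit 16, nat_lit 4, nat_lit 8, nat_lit 8, nat_lit 1, nat_lit 0, nat_lit 0, nat_lit 171048963, nat_lit 173215814, nat_lit 0, nat_lit 1, nat_lit 4, nat_lit 8, nat_lit 16, nat_lit 8, nat_lit 0, nat_lit 0, nat_lit 65537, nat_lit 141693173, nat_lit 0, nat_lit 1, nat_lit 4, nat_lit 16, nat_lit 1, nat_lit 2, nat_lit 0, nat_lit 0, nat_lit 1, nat_lit 176230604, nat_lit 0, nat_lit 2, nat_lit 4, nat_lit 16, nat_lit 2, nat_lit 1, nat_lit 0, nat_lit 0, nat_lit 0, nat_lit 10621228, nat_lit 0, nat_lit 8, nat_lit 4, nat_lit 1, nat_lit 8, nat_lit 2, nat_lit 0, nat_lit 0, nat_lit 0, nat_lit 4424, nat_lit 0, nat_lit 16, nat_lit 4, nat_lit 8, nat_lit 1, nat_lit 0, nat_lit 0, nat_lit 1981878633, nat_lit 0, nat_lit 8, nat_lit 16, nat_lit 4, nat_lit 0, nat_lit 0, nat_lit 123867527, nat_lit 0, nat_lit 1, nat_lit 16, nat_lit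 0, nat_lit 4264348])
    (by decide +kernel)

theorem Yv_2 : VOK [0, 15] 16 [1, 22] :=
  vok_pat (T := PaYT) (M := 4515) (f := 64) PaY_ok (by decide) (by decide) rfl
    (tk := [nat_lit 2, nat_lit 1, nat_lit 0, nat_lit 4, nat_lit 2, nat_lit 9963327, nat_lit 156305688, nat_lit 0, nat_lit 0, nat_lit 1, nat_lit 2, nat_lit 70387519, nat_lit 264472, nat_lit 0, nat_lit 0, nat_lit 1, nat_lit 2, nat_lit 7406461, nat_lit 52497170, nat_lit 0, nat_lit 0, nat_lit 16, nat_lit 4, nat_lit 156304661, nat_lit 1985022738, nat_lit 0, nat_lit 0, nat_lit 16, nat_lit 2, nat_lit 10879538, nat_lit 3781, nat_lit 0, nat_lit 0, nat_lit 1, nat_lit 4, nat_lit 176226866, nat_lit 3596, nat_lit 0, nat_lit 0, nat_lit 1, nat_lit 16, nat_lit 10551440, nat_lit 170987449, nat_lit 0, nat_lit 0, nat_lit 4, nat_lit 8, nat_lit 11010192, nat_lit 173084597, nat_lit 0, nat_lit 0, nat_lit 16, nat_lit 2, nat_lit 174391360, nat_lit 174133322,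 nat_lit 0, nat_lit 0, nat_lit 2, nat_lit 4, nat_lit 9830495, nat_lit 9637958, nat_lit 0, nat_lit 0, nat_lit 16, nat_lit 4, nat_lit 11, nat_lit 4347, nat_lit 0, nat_lit 0, nat_lit 8, nat_lit 4, nat_lit 11, nat_lit 4310, nat_lit 0, nat_lit 0, nat_lit 1, nat_lit 4, nat_lit 65540, nat_lit 69943, nat_lit 0, nat_lit 0, nat_lit 1, nat_lit 4, nat_lit 65540, nat_lit 10555749, nat_lit 0, nat_lit 0, nat_lit 1, nat_lit 2, nat_lit 2790326275, nat_lit 4474, nat_lit 0, nat_lit 0, nat_lit 8, nat_lit 4, nat_lit 2, nat_lit 4462, nat_lit 0, nat_lit 0, nat_lit 8, nat_lit 1, nat_lit 65537, nat_lit 7737742, nat_lit 0, nat_lit 0, nat_lit 2, nat_lit 8, nat_lit 1, nat_lit 8458633, nat_lit 0, nat_lit 0, nat_lit 4, nat_lit 16, nat_lit 0, nat_lit 4511, nat_lit 0, nat_lit 0, nat_lit 16, nat_lit 8, nat_lit 0, nat_lit 2823885213, nat_lit 0, nat_lit 2, nat_lit 2, nat_lit 0, nat_lit 1, nat_lit 16, nat_lit 2, nat_lit 460604,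 nat_lit 123864894, nat_lit 0, nat_lit 0, nat_lit 4, nat_lit 1, nat_lit 2, nat_lit 7472956, nat_lit 7538494, nat_lit 0, nat_lit 0, nat_lit 1, nat_lit 8, nat_lit 2, nat_lit 174392189, nat_lit 2820737313, nat_lit 0, nat_lit 0, nat_lit 2, nat_lit 8, nat_lit 1, nat_lit 2736849789, nat_lit 10881307, nat_lit 0, nat_lit 0, nat_lit 8, nat_lit 16, nat_lit 2, nat_lit 6619906, nat_lit 2832, nat_lit 0, nat_lit 0, nat_lit 4, nat_lit 16, nat_lit 2, nat_lit 393986, nat_lit 2832, nat_lit 0, nat_lit 0, nat_lit 16, nat_lit 2, nat_lit 4, nat_lit 11010192, nat_lit 2521894403, nat_lit 0, nat_lit 0, nat_lit 4, nat_lit 16, nat_lit 2, nat_lit 174391440, nat_lit 173084164, nat_lit 0, nat_lit 0, nat_lit 4, nat_lit 1, nat_lit 8, nat_lit 7667778, nat_lit 462743, nat_lit 0, nat_lit 0, nat_lit 1, nat_lit 4, nat_lit 8, nat_lit 11010113, nat_lit 87101323, nat_lit 0, nat_lit 0, nat_lit 4, nat_lit 2, nat_lit 1, nat_lit 102825995,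 nat_lit 6623337, nat_lit 0, nat_lit 0, nat_lit 2, nat_lit 1, nat_lit 4, nat_lit 8454155, nat_lit 528587, nat_lit 0, nat_lit 0, nat_lit 2, nat_lit 8, nat_lit 1, nat_lit 2736848900, nat_lit 4348, nat_lit 0, nat_lit 0, nat_lit 1, nat_lit 2, nat_lit 4, nat_lit 524292, nat_lit 8458443, nat_lit 0, nat_lit 0, nat_lit 2, nat_lit 1, nat_lit 4, nat_lit 2, nat_lit 10555705, nat_lit 0, nat_lit 0, nat_lit 16, nat_lit 1, nat_lit 4, nat_lit 2, nat_lit 4425, nat_lit 0, nat_lit 0, nat_lit 2, nat_lit 4, nat_lit 8, nat_lit 1, nat_lit 3215721, nat_lit 0, nat_lit 0, nat_lit 2, nat_lit 8, nat_lit 16, nat_lit 1, nat_lit 4475, nat_lit 0, nat_lit 2, nat_lit 4, nat_lit 0, nat_lit 16, nat_lit 8, nat_lit 4, nat_lit 16, nat_lit 1, nat_lit 0, nat_lit 1679885181, nat_lit 1679885596, nat_lit 0, nat_lit 0, nat_lit 16, nat_lit 1, nat_lit 4, nat_lit 4, nat_lit 2, nat_lit 0, nat_lit 7668604, nat_lit 1931543843, nat_lit 0, nat_lit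 0, nat_lit 8, nat_lit 16, nat_lit 1, nat_lit 1, nat_lit 2, nat_lit 0, nat_lit 1412497970, nat_lit 4261703, nat_lit 0, nat_lit 0, nat_lit 4, nat_lit 1, nat_lit 16, nat_lit 16, nat_lit 8, nat_lit 0, nat_lit 10814002, nat_lit 2513, nat_lit 0, nat_lit 0, nat_lit 2, nat_lit 4, nat_lit 8, nat_lit 16, nat_lit 2, nat_lit 0, nat_lit 141885584, nat_lit 2781, nat_lit 0, nat_lit 0, nat_lit 1, nat_lit 4, nat_lit 2, nat_lit 16, nat_lit 8, nat_lit 0, nat_lit 174391440, nat_lit 3213970, nat_lit 0, nat_lit 0, nat_lit 2, nat_lit 1, nat_lit 8, nat_lit 16, nat_lit 4, nat_lit 0, nat_lit 136380483, nat_lit 2832, nat_lit 0, nat_lit 0, nat_lit 2, nat_lit 16, nat_lit 4, nat_lit 8, nat_lit 1, nat_lit 0, nat_lit 169934914, nat_lit 176229470, nat_lit 0, nat_lit 0, nat_lit 2, nat_lit 8, nat_lit 4, nat_lit 2, nat_lit 1, nat_lit 0, nat_lit 3211275, nat_lit 200191, nat_lit 0, nat_lit 0, nat_lit 8, nat_lit 1, nat_lit 4, nat_lit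 4, nat_lit 16, nat_lit 0, nat_lit 176226315, nat_lit 2521894403, nat_lit 0, nat_lit 0, nat_lit 8, nat_lit 1, nat_lit 16, nat_lit 8, nat_lit 4, nat_lit 0, nat_lit 8716292, nat_lit 331769, nat_lit 0, nat_lit 0, nat_lit 16, nat_lit 8, nat_lit 4, nat_lit 4, nat_lit 2, nat_lit 0, nat_lit 8716292, nat_lit 4110, nat_lit 0, nat_lit 0, nat_lit 8, nat_lit 16, nat_lit 2, nat_lit 8, nat_lit 4, nat_lit 0, nat_lit 176226307, nat_lit 88150087, nat_lit 0, nat_lit 0, nat_lit 2, nat_lit 16, nat_lit 4, nat_lit 2, nat_lit 8, nat_lit 0, nat_lit 171048963, nat_lit 106172485, nat_lit 0, nat_lit 0, nat_lit 2, nat_lit 8, nat_lit 1, nat_lit 2, nat_lit 16, nat_lit 0, nat_lit 1, nat_lit 4349, nat_lit 0, nat_lit 0, nat_lit 1, nat_lit 4, nat_lit 16, nat_lit 1, nat_lit 2, nat_lit 0, nat_lit 5308417, nat_lit 2771456220, nat_lit 0, nat_lit 0, nat_lit 1, nat_lit 8, nat_lit 16, nat_lit 2, nat_lit 16, nat_lit 0, nat_lit 0, nat_lit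 8851770, nat_lit 0, nat_lit 0, nat_lit 8, nat_lit 16, nat_lit 2, nat_lit 8, nat_lit 2, nat_lit 0, nat_lit 0, nat_lit 154276152, nat_lit 0, nat_lit 0, nat_lit 8, nat_lit 4, nat_lit 2, nat_lit 8, nat_lit 0, nat_lit 4476, nat_lit 0, nat_lit 0, nat_lit 4, nat_lit 16, nat_lit 2, nat_lit 0, nat_lit 10621319, nat_lit 0, nat_lit 0, nat_lit 16, nat_lit 8, nat_lit 4512, nat_lit 0])
    (by decide +kernel)

theorem Yv_3 : VOK [0, 15] 23 [1, 22] :=
  vok_pat (T := PaYT) (M := 4515) (f := 64) PaY_ok (by decide) (by decide) rfl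
    (tk := [nat_lit 2, nat_lit 1, nat_lit 0, nat_lit 2, nat_lit 16, nat_lit 124061502, nat_lit 7407896, nat_lit 0, nat_lit 0, nat_lit 8, nat_lit 2, nat_lit 657215, nat_lit 2823883032, nat_lit 0, nat_lit 0, nat_lit 1, nat_lit 4, nat_lit 138543997, nat_lit 3186, nat_lit 0, nat_lit 0, nat_lit 1, nat_lit 2, nat_lit 7406461, nat_lit 52497170, nat_lit 0, nat_lit 0, nat_lit 16, nat_lit 4, nat_lit 156303922, nat_lit 3782, nat_lit 0, nat_lit 0, nat_lit 1, nat_lit 8, nat_lit 9503282, nat_lit 527884, nat_lit 0, nat_lit 0, nat_lit 4, nat_lit 8, nat_lit 11010192, nat_lit 173084597, nat_lit 0, nat_lit 0, nat_lit 16, nat_lit 8, nat_lit 301, nat_lit 170987395, nat_lit 0, nat_lit 0, nat_lit 16, nat_lit 8, nat_lit 9961537, nat_lit 159715395, nat_lit 0, nat_lit 0, nat_lit 4, nat_lit 2, nat_lit 141885535, nat_lit 122884166, nat_lit 0, nat_lit 0, nat_lit 8, nat_lit 16, nat_lit 8716299, nat_lit 8851698, nat_lit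 0, nat_lit 0, nat_lit 2, nat_lit 4, nat_lit 11, nat_lit 8458444, nat_lit 0, nat_lit 0, nat_lit 2, nat_lit 16, nat_lit 8716292, nat_lit 4443, nat_lit 0, nat_lit 0, nat_lit 2, nat_lit 1, nat_lit 131076, nat_lit 10621285, nat_lit 0, nat_lit 0, nat_lit 2, nat_lit 8, nat_lit 11010051, nat_lit 156307816, nat_lit 0, nat_lit 0, nat_lit 8, nat_lit 1, nat_lit 65539, nat_lit 4463, nat_lit 0, nat_lit 0, nat_lit 8, nat_lit 16, nat_lit 139526145, nat_lit 2518749578, nat_lit 0, nat_lit 0, nat_lit 16, nat_lit 1, nat_lit 65537, nat_lit 4496, nat_lit 0, nat_lit 0, nat_lit 8, nat_lit 2, nat_lit 0, nat_lit 136384923, nat_lit 0, nat_lit 0, nat_lit 1, nat_lit 16, nat_lit 0, nat_lit 2823885212, nat_lit 0, nat_lit 2, nat_lit 2, nat_lit 0, nat_lit 4, nat_lit 1, nat_lit 2, nat_lit 7669565, nat_lit 7538494, nat_lit 0, nat_lit 0, nat_lit 1, nat_lit 8, nat_lit 2, nat_lit 174196542, nat_lit 176490300, nat_lit 0, nat_lit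 0, nat_lit 2, nat_lit 1, nat_lit 8, nat_lit 11010941, nat_lit 2339, nat_lit 0, nat_lit 0, nat_lit 1, nat_lit 4, nat_lit 2, nat_lit 7668604, nat_lit 2771454625, nat_lit 0, nat_lit 0, nat_lit 2, nat_lit 16, nat_lit 1, nat_lit 66307, nat_lit 330512, nat_lit 0, nat_lit 0, nat_lit 4, nat_lit 16, nat_lit 8, nat_lit 770, nat_lit 2832, nat_lit 0, nat_lit 0, nat_lit 2, nat_lit 4, nat_lit 8, nat_lit 176226448, nat_lit 2166418, nat_lit 0, nat_lit 0, nat_lit 2, nat_lit 1, nat_lit 4, nat_lit 156303504, nat_lit 2503020228, nat_lit 0, nat_lit 0, nat_lit 8, nat_lit 4, nat_lit 1, nat_lit 2820735041, nat_lit 10686341, nat_lit 0, nat_lit 0, nat_lit 1, nat_lit 2, nat_lit 4, nat_lit 11010114, nat_lit 2820738967, nat_lit 0, nat_lit 0, nat_lit 8, nat_lit 1, nat_lit 16, nat_lit 11, nat_lit 4239, nat_lit 0, nat_lit 0, nat_lit 16, nat_lit 8, nat_lit 2, nat_lit 327691, nat_lit 4240, nat_lit 0, nat_lit 0, nat_lit 2,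 nat_lit 4, nat_lit 8, nat_lit 176226308, nat_lit 8524028, nat_lit 0, nat_lit 0, nat_lit 1, nat_lit 2, nat_lit 8, nat_lit 4, nat_lit 69835, nat_lit 0, nat_lit 0, nat_lit 1, nat_lit 16, nat_lit 8, nat_lit 176488451, nat_lit 157356343, nat_lit 0, nat_lit 0, nat_lit 16, nat_lit 2, nat_lit 4, nat_lit 2, nat_lit 69961, nat_lit 0, nat_lit 0, nat_lit 2, nat_lit 16, nat_lit 8, nat_lit 2823880705, nat_lit 4477, nat_lit 0, nat_lit 0, nat_lit 16, nat_lit 4, nat_lit 1, nat_lit 65537, nat_lit 463224, nat_lit 0, nat_lit 2, nat_lit 4, nat_lit 0, nat_lit 1, nat_lit 4, nat_lit 16, nat_lit 1, nat_lit 8, nat_lit 0, nat_lit 2790327165, nat_lit 2790327579, nat_lit 0, nat_lit 0, nat_lit 4, nat_lit 8, nat_lit 16, nat_lit 1, nat_lit 2, nat_lit 0, nat_lit 1966146428, nat_lit 5506334, nat_lit 0, nat_lit 0, nat_lit 8, nat_lit 2, nat_lit 4, nat_lit 8, nat_lit 1, nat_lit 0, nat_lit 10682930, nat_lit 174393625, nat_lit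 0, nat_lit 0, nat_lit 8, nat_lit 16, nat_lit 1, nat_lit 1, nat_lit 4, nat_lit 0, nat_lit 70320690, nat_lit 88147783, nat_lit 0, nat_lit 0, nat_lit 8, nat_lit 16, nat_lit 4, nat_lit 8, nat_lit 2, nat_lit 0, nat_lit 105971856, nat_lit 88148610, nat_lit 0, nat_lit 0, nat_lit 1, nat_lit 16, nat_lit 8, nat_lit 1, nat_lit 4, nat_lit 0, nat_lit 139526288, nat_lit 7539330, nat_lit 0, nat_lit 0, nat_lit 4, nat_lit 16, nat_lit 1, nat_lit 2, nat_lit 4, nat_lit 0, nat_lit 7733314, nat_lit 1966148702, nat_lit 0, nat_lit 0, nat_lit 1, nat_lit 2, nat_lit 4, nat_lit 16, nat_lit 8, nat_lit 0, nat_lit 327747, nat_lit 2832, nat_lit 0, nat_lit 0, nat_lit 16, nat_lit 4, nat_lit 2, nat_lit 1, nat_lit 8, nat_lit 0, nat_lit 2736848907, nat_lit 4263573, nat_lit 0, nat_lit 0, nat_lit 1, nat_lit 16, nat_lit 2, nat_lit 1, nat_lit 8, nat_lit 0, nat_lit 52494347, nat_lit 2166470, nat_lit 0, nat_lit 0, nat_lit 1, nat_lit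 8, nat_lit 16, nat_lit 1, nat_lit 16, nat_lit 0, nat_lit 4, nat_lit 4031, nat_lit 0, nat_lit 0, nat_lit 1, nat_lit 2, nat_lit 8, nat_lit 16, nat_lit 8, nat_lit 0, nat_lit 176488452, nat_lit 4032, nat_lit 0, nat_lit 0, nat_lit 1, nat_lit 16, nat_lit 4, nat_lit 1, nat_lit 8, nat_lit 0, nat_lit 2790326275, nat_lit 1931546693, nat_lit 0, nat_lit 0, nat_lit 2, nat_lit 16, nat_lit 4, nat_lit 2, nat_lit 1, nat_lit 0, nat_lit 2790326275, nat_lit 10883139, nat_lit 0, nat_lit 0, nat_lit 8, nat_lit 4, nat_lit 1, nat_lit 8, nat_lit 16, nat_lit 0, nat_lit 5308417, nat_lit 7475420, nat_lit 0, nat_lit 0, nat_lit 2, nat_lit 16, nat_lit 8, nat_lit 1, nat_lit 8, nat_lit 0, nat_lit 1, nat_lit 9507021, nat_lit 0, nat_lit 0, nat_lit 1, nat_lit 16, nat_lit 4, nat_lit 8, nat_lit 1, nat_lit 0, nat_lit 0, nat_lit 4444, nat_lit 0, nat_lit 0, nat_lit 8, nat_lit 4, nat_lit 2, nat_lit 8, nat_lit 1, nat_lit 0, nat_lit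 0, nat_lit 135526, nat_lit 0, nat_lit 0, nat_lit 8, nat_lit 1, nat_lit 16, nat_lit 2, nat_lit 0, nat_lit 141693291, nat_lit 0, nat_lit 0, nat_lit 2, nat_lit 16, nat_lit 8, nat_lit 0, nat_lit 2552304007, nat_lit 0, nat_lit 0, nat_lit 1, nat_lit 8, nat_lit 159715737, nat_lit 0])
    (by decide +kernel)

theorem Yv_4 : VOK [0, 15] 27 [1, 22] :=
  vok_pat (T := PaYT) (M := 4515) (f := 64) PaY_ok (by decide) (by decide) rfl
    (tk := [nat_lit 2, nat_lit 1, nat_lit 0, nat_lit 2, nat_lit 1, nat_lit 1985021759, nat_lit 7407896, nat_lit 0, nat_lit 0, nat_lit 8, nat_lit 1, nat_lit 173082431, nat_lit 2823883032, nat_lit 0, nat_lit 0, nat_lit 2, nat_lit 1, nat_lit 1966146428, nat_lit 2267090019, nat_lit 0, nat_lit 0, nat_lit 4, nat_lit 1, nat_lit 154207100, nat_lit 157420643, nat_lit 0, nat_lit 0, nat_lit 2, nat_lit 1, nat_lit 174195250, nat_lit 174132740, nat_lit 0, nat_lit 0, nat_lit 1, nat_lit 4,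 nat_lit 176226866, nat_lit 3596, nat_lit 0, nat_lit 0, nat_lit 16, nat_lit 4, nat_lit 11010192, nat_lit 176492611, nat_lit 0, nat_lit 0, nat_lit 8, nat_lit 2, nat_lit 174391440, nat_lit 4033, nat_lit 0, nat_lit 0, nat_lit 16, nat_lit 1, nat_lit 173080643, nat_lit 10817603, nat_lit 0, nat_lit 0, nat_lit 8, nat_lit 2, nat_lit 7667807, nat_lit 1966149702, nat_lit 0, nat_lit 0, nat_lit 2, nat_lit 1, nat_lit 174194699, nat_lit 174133476, nat_lit 0, nat_lit 0, nat_lit 8, nat_lit 1, nat_lit 2162699, nat_lit 4310, nat_lit 0, nat_lit 0, nat_lit 16, nat_lit 4, nat_lit 176488452, nat_lit 7409976, nat_lit 0, nat_lit 0, nat_lit 1, nat_lit 16, nat_lit 4, nat_lit 176230718, nat_lit 0, nat_lit 0, nat_lit 8, nat_lit 4, nat_lit 11010051, nat_lit 141627752, nat_lit 0, nat_lit 0, nat_lit 2, nat_lit 1, nat_lit 5308419, nat_lit 10621285, nat_lit 0, nat_lit 0, nat_lit 2, nat_lit 16, nat_lit 5308417, nat_lit 173216141,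 nat_lit 0, nat_lit 0, nat_lit 16, nat_lit 4, nat_lit 1, nat_lit 5312912, nat_lit 0, nat_lit 0, nat_lit 4, nat_lit 1, nat_lit 0, nat_lit 332187, nat_lit 0, nat_lit 0, nat_lit 4, nat_lit 16, nat_lit 0, nat_lit 2787185052, nat_lit 0, nat_lit 2, nat_lit 2, nat_lit 0, nat_lit 4, nat_lit 1, nat_lit 2, nat_lit 7669565, nat_lit 7538494, nat_lit 0, nat_lit 0, nat_lit 1, nat_lit 2, nat_lit 4, nat_lit 141690686, nat_lit 460604, nat_lit 0, nat_lit 0, nat_lit 4, nat_lit 8, nat_lit 2, nat_lit 10879869, nat_lit 10815770, nat_lit 0, nat_lit 0, nat_lit 16, nat_lit 4, nat_lit 8, nat_lit 590716, nat_lit 9505423, nat_lit 0, nat_lit 0, nat_lit 2, nat_lit 16, nat_lit 8, nat_lit 328450, nat_lit 8719120, nat_lit 0, nat_lit 0, nat_lit 2, nat_lit 16, nat_lit 8, nat_lit 328450, nat_lit 2832, nat_lit 0, nat_lit 0, nat_lit 2, nat_lit 8, nat_lit 4, nat_lit 11010192, nat_lit 3783, nat_lit 0, nat_lit 0, nat_lit 1, nat_lit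 8, nat_lit 2, nat_lit 2790326416, nat_lit 5312199, nat_lit 0, nat_lit 0, nat_lit 16, nat_lit 8, nat_lit 4, nat_lit 524352, nat_lit 4034, nat_lit 0, nat_lit 0, nat_lit 8, nat_lit 4, nat_lit 16, nat_lit 64, nat_lit 4035, nat_lit 0, nat_lit 0, nat_lit 4, nat_lit 8, nat_lit 16, nat_lit 11, nat_lit 88281229, nat_lit 0, nat_lit 0, nat_lit 4, nat_lit 1, nat_lit 8, nat_lit 5308427, nat_lit 331979, nat_lit 0, nat_lit 0, nat_lit 2, nat_lit 1, nat_lit 4, nat_lit 176226308, nat_lit 174395596, nat_lit 0, nat_lit 0, nat_lit 1, nat_lit 16, nat_lit 8, nat_lit 4, nat_lit 4350, nat_lit 0, nat_lit 0, nat_lit 8, nat_lit 1, nat_lit 4, nat_lit 2518745091, nat_lit 4426, nat_lit 0, nat_lit 0, nat_lit 16, nat_lit 2, nat_lit 8, nat_lit 2, nat_lit 8458569, nat_lit 0, nat_lit 0, nat_lit 4, nat_lit 8, nat_lit 16, nat_lit 1, nat_lit 332155, nat_lit 0, nat_lit 0, nat_lit 16, nat_lit 1, nat_lit 2, nat_lit 1, nat_lit 2820739447,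 nat_lit 0, nat_lit 2, nat_lit 4, nat_lit 0, nat_lit 8, nat_lit 2, nat_lit 16, nat_lit 1, nat_lit 4, nat_lit 0, nat_lit 9634685, nat_lit 1733, nat_lit 0, nat_lit 0, nat_lit 2, nat_lit 4, nat_lit 16, nat_lit 1, nat_lit 8, nat_lit 0, nat_lit 2736849788, nat_lit 8652062, nat_lit 0, nat_lit 0, nat_lit 1, nat_lit 8, nat_lit 16, nat_lit 2, nat_lit 1, nat_lit 0, nat_lit 7471666, nat_lit 141887769, nat_lit 0, nat_lit 0, nat_lit 2, nat_lit 8, nat_lit 16, nat_lit 16, nat_lit 1, nat_lit 0, nat_lit 4391474, nat_lit 5442001, nat_lit 0, nat_lit 0, nat_lit 1, nat_lit 4, nat_lit 2, nat_lit 16, nat_lit 1, nat_lit 0, nat_lit 154206352, nat_lit 68221, nat_lit 0, nat_lit 0, nat_lit 2, nat_lit 1, nat_lit 4, nat_lit 2, nat_lit 8, nat_lit 0, nat_lit 11010192, nat_lit 2782, nat_lit 0, nat_lit 0, nat_lit 2, nat_lit 1, nat_lit 16, nat_lit 8, nat_lit 4, nat_lit 0, nat_lit 11010112, nat_lit 10816273, nat_lit 0, nat_lit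 0, nat_lit 8, nat_lit 4, nat_lit 16, nat_lit 8, nat_lit 1, nat_lit 0, nat_lit 171049027, nat_lit 10816273, nat_lit 0, nat_lit 0, nat_lit 2, nat_lit 8, nat_lit 16, nat_lit 1, nat_lit 4, nat_lit 0, nat_lit 154206219, nat_lit 1679887874, nat_lit 0, nat_lit 0, nat_lit 1, nat_lit 8, nat_lit 2, nat_lit 4, nat_lit 16, nat_lit 0, nat_lit 524299, nat_lit 3784, nat_lit 0, nat_lit 0, nat_lit 16, nat_lit 2, nat_lit 4, nat_lit 4, nat_lit 16, nat_lit 0, nat_lit 327684, nat_lit 169938837, nat_lit 0, nat_lit 0, nat_lit 1, nat_lit 4, nat_lit 16, nat_lit 8, nat_lit 16, nat_lit 0, nat_lit 136380420, nat_lit 4111, nat_lit 0, nat_lit 0, nat_lit 4, nat_lit 16, nat_lit 1, nat_lit 4, nat_lit 8, nat_lit 0, nat_lit 11010051, nat_lit 141692999, nat_lit 0, nat_lit 0, nat_lit 1, nat_lit 16, nat_lit 4, nat_lit 1, nat_lit 8, nat_lit 0, nat_lit 2790326275, nat_lit 1931546693, nat_lit 0, nat_lit 0, nat_lit 16, nat_lit 2,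 nat_lit 8, nat_lit 1, nat_lit 4, nat_lit 0, nat_lit 65537, nat_lit 4383, nat_lit 0, nat_lit 0, nat_lit 4, nat_lit 2, nat_lit 16, nat_lit 8, nat_lit 16, nat_lit 0, nat_lit 1, nat_lit 2521895158, nat_lit 0, nat_lit 0, nat_lit 4, nat_lit 16, nat_lit 1, nat_lit 4, nat_lit 1, nat_lit 0, nat_lit 0, nat_lit 174133560, nat_lit 0, nat_lit 0, nat_lit 2, nat_lit 16, nat_lit 4, nat_lit 4, nat_lit 2, nat_lit 0, nat_lit 0, nat_lit 169939247, nat_lit 0, nat_lit 0, nat_lit 4, nat_lit 2, nat_lit 16, nat_lit 8, nat_lit 0, nat_lit 2771456363, nat_lit 0, nat_lit 0, nat_lit 2, nat_lit 16, nat_lit 4, nat_lit 0, nat_lit 169939335, nat_lit 0, nat_lit 0, nat_lit 2, nat_lit 4, nat_lit 169939353, nat_lit 0])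
    (by decide +kernel)

theorem Yv_5 : VOK [0, 15] 29 [1, 22] :=
  vok_pat (T := PaYT) (M := 4515) (f := 64) PaY_ok (by decide) (by decide) rfl
    (tk := [nat_lit 2, nat_lit 1, nat_lit 0, nat_lit 16, nat_lit 2, nat_lit 7407421, nat_lit 124061977, nat_lit 0, nat_lit 0, nat_lit 4, nat_lit 2, nat_lit 9963327, nat_lit 156305688, nat_lit 0, nat_lit 0, nat_lit 4, nat_lit 1, nat_lit 154207100, nat_lit 157420643, nat_lit 0, nat_lit 0, nat_lit 2, nat_lit 16, nat_lit 124060540, nat_lit 1931545695, nat_lit 0, nat_lit 0, nat_lit 2, nat_lit 4, nat_lit 176292402, nat_lit 2736852487, nat_lit 0, nat_lit 0, nat_lit 4, nat_lit 2, nat_lit 174391858, nat_lit 5312012, nat_lit 0, nat_lit 0, nat_lit 4, nat_lit 16, nat_lit 144, nat_lit 4112, nat_lit 0, nat_lit 0, nat_lit 8, nat_lit 16, nat_lit 6619280, nat_lit 6623248, nat_lit 0, nat_lit 0, nat_lit 16, nat_lit 4, nat_lit 169934915, nat_lit 659523, nat_lit 0, nat_lit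 0, nat_lit 1, nat_lit 2, nat_lit 1966145631, nat_lit 2270236742, nat_lit 0, nat_lit 0, nat_lit 1, nat_lit 4, nat_lit 170983435, nat_lit 10686692, nat_lit 0, nat_lit 0, nat_lit 4, nat_lit 16, nat_lit 327691, nat_lit 463090, nat_lit 0, nat_lit 0, nat_lit 1, nat_lit 4, nat_lit 170983428, nat_lit 4427, nat_lit 0, nat_lit 0, nat_lit 8, nat_lit 4, nat_lit 4, nat_lit 5312879, nat_lit 0, nat_lit 0, nat_lit 4, nat_lit 2, nat_lit 11010051, nat_lit 4464, nat_lit 0, nat_lit 0, nat_lit 4, nat_lit 8, nat_lit 2, nat_lit 528750, nat_lit 0, nat_lit 0, nat_lit 8, nat_lit 2, nat_lit 2823880705, nat_lit 154276237, nat_lit 0, nat_lit 0, nat_lit 2, nat_lit 1, nat_lit 65537, nat_lit 659848, nat_lit 0, nat_lit 0, nat_lit 2, nat_lit 4, nat_lit 0, nat_lit 135579, nat_lit 0, nat_lit 0, nat_lit 8, nat_lit 16, nat_lit 0, nat_lit 157421980, nat_lit 0, nat_lit 2, nat_lit 2, nat_lit 0, nat_lit 8, nat_lit 1, nat_lit 16, nat_lit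 1126238014, nat_lit 2235631420, nat_lit 0, nat_lit 0, nat_lit 4, nat_lit 2, nat_lit 16, nat_lit 7735102, nat_lit 7472956, nat_lit 0, nat_lit 0, nat_lit 16, nat_lit 4, nat_lit 2, nat_lit 9831292, nat_lit 157354639, nat_lit 0, nat_lit 0, nat_lit 1, nat_lit 16, nat_lit 2, nat_lit 7669017, nat_lit 141887771, nat_lit 0, nat_lit 0, nat_lit 8, nat_lit 16, nat_lit 1, nat_lit 52495106, nat_lit 330512, nat_lit 0, nat_lit 0, nat_lit 4, nat_lit 16, nat_lit 1, nat_lit 3212034, nat_lit 2832, nat_lit 0, nat_lit 0, nat_lit 4, nat_lit 1, nat_lit 2, nat_lit 7405712, nat_lit 120655556, nat_lit 0, nat_lit 0, nat_lit 4, nat_lit 8, nat_lit 2, nat_lit 302, nat_lit 331463, nat_lit 0, nat_lit 0, nat_lit 8, nat_lit 16, nat_lit 2, nat_lit 141885505, nat_lit 4036, nat_lit 0, nat_lit 0, nat_lit 1, nat_lit 16, nat_lit 2, nat_lit 174391360, nat_lit 10882948, nat_lit 0, nat_lit 0, nat_lit 2, nat_lit 4, nat_lit 1, nat_lit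 176291851, nat_lit 659544, nat_lit 0, nat_lit 0, nat_lit 1, nat_lit 4, nat_lit 8, nat_lit 11, nat_lit 5312715, nat_lit 0, nat_lit 0, nat_lit 4, nat_lit 8, nat_lit 2, nat_lit 2790326276, nat_lit 2167036, nat_lit 0, nat_lit 0, nat_lit 2, nat_lit 4, nat_lit 1, nat_lit 52494340, nat_lit 3281099, nat_lit 0, nat_lit 0, nat_lit 1, nat_lit 2, nat_lit 16, nat_lit 2, nat_lit 4428, nat_lit 0, nat_lit 0, nat_lit 8, nat_lit 2, nat_lit 16, nat_lit 2, nat_lit 4429, nat_lit 0, nat_lit 0, nat_lit 16, nat_lit 4, nat_lit 1, nat_lit 2823880705, nat_lit 10883447, nat_lit 0, nat_lit 0, nat_lit 4, nat_lit 1, nat_lit 16, nat_lit 1, nat_lit 4478, nat_lit 0, nat_lit 2, nat_lit 4, nat_lit 0, nat_lit 16, nat_lit 8, nat_lit 2, nat_lit 2, nat_lit 4, nat_lit 0, nat_lit 9634685, nat_lit 156435740, nat_lit 0, nat_lit 0, nat_lit 1, nat_lit 2, nat_lit 4, nat_lit 1, nat_lit 8, nat_lit 0, nat_lit 176227197, nat_lit 10552603,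 nat_lit 0, nat_lit 0, nat_lit 1, nat_lit 16, nat_lit 4, nat_lit 4, nat_lit 1, nat_lit 0, nat_lit 2552300082, nat_lit 156436295, nat_lit 0, nat_lit 0, nat_lit 1, nat_lit 2, nat_lit 16, nat_lit 8, nat_lit 4, nat_lit 0, nat_lit 8847922, nat_lit 1679886461, nat_lit 0, nat_lit 0, nat_lit 8, nat_lit 16, nat_lit 2, nat_lit 4, nat_lit 1, nat_lit 0, nat_lit 154206352, nat_lit 2555447576, nat_lit 0, nat_lit 0, nat_lit 4, nat_lit 8, nat_lit 16, nat_lit 16, nat_lit 2, nat_lit 0, nat_lit 6619430, nat_lit 2329, nat_lit 0, nat_lit 0, nat_lit 2, nat_lit 1, nat_lit 4, nat_lit 8, nat_lit 2, nat_lit 0, nat_lit 174129219, nat_lit 2270235410, nat_lit 0, nat_lit 0, nat_lit 1, nat_lit 4, nat_lit 2, nat_lit 16, nat_lit 2, nat_lit 0, nat_lit 141885507, nat_lit 141888740, nat_lit 0, nat_lit 0, nat_lit 8, nat_lit 4, nat_lit 1, nat_lit 1, nat_lit 2, nat_lit 0, nat_lit 1966145547, nat_lit 3785, nat_lit 0, nat_lit 0, nat_lit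 4, nat_lit 8, nat_lit 16, nat_lit 4, nat_lit 2, nat_lit 0, nat_lit 6422539, nat_lit 331415, nat_lit 0, nat_lit 0, nat_lit 2, nat_lit 4, nat_lit 8, nat_lit 1, nat_lit 16, nat_lit 0, nat_lit 2162692, nat_lit 4113, nat_lit 0, nat_lit 0, nat_lit 2, nat_lit 16, nat_lit 1, nat_lit 1, nat_lit 2, nat_lit 0, nat_lit 5308420, nat_lit 4114, nat_lit 0, nat_lit 0, nat_lit 4, nat_lit 16, nat_lit 8, nat_lit 4, nat_lit 2, nat_lit 0, nat_lit 122880003, nat_lit 139726917, nat_lit 0, nat_lit 0, nat_lit 1, nat_lit 16, nat_lit 8, nat_lit 1, nat_lit 4, nat_lit 0, nat_lit 157351939, nat_lit 1931546693, nat_lit 0, nat_lit 0, nat_lit 1, nat_lit 2, nat_lit 4, nat_lit 16, nat_lit 1, nat_lit 0, nat_lit 2823880705, nat_lit 9507046, nat_lit 0, nat_lit 0, nat_lit 16, nat_lit 4, nat_lit 1, nat_lit 16, nat_lit 8, nat_lit 0, nat_lit 1, nat_lit 174395628, nat_lit 0, nat_lit 0, nat_lit 8, nat_lit 16, nat_lit 1, nat_lit 2, nat_lit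 8, nat_lit 0, nat_lit 0, nat_lit 102830428, nat_lit 0, nat_lit 0, nat_lit 8, nat_lit 16, nat_lit 4, nat_lit 2, nat_lit 1, nat_lit 0, nat_lit 0, nat_lit 4430, nat_lit 0, nat_lit 0, nat_lit 2, nat_lit 1, nat_lit 16, nat_lit 4, nat_lit 0, nat_lit 153162091, nat_lit 0, nat_lit 0, nat_lit 8, nat_lit 16, nat_lit 4, nat_lit 0, nat_lit 1981878663, nat_lit 0, nat_lit 0, nat_lit 4, nat_lit 2, nat_lit 10621337, nat_lit 0])
    (by decide +kernel)

theorem Yv_6 : VOK [0, 15] 30 [1, 22] :=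
  vok_pat (T := PaYT) (M := 4515) (f := 64) PaY_ok (by decide) (by decide) rfl
    (tk := [nat_lit 2, nat_lit 1, nat_lit 0, nat_lit 1, nat_lit 2, nat_lit 7407421, nat_lit 1966147865, nat_lit 0, nat_lit 0, nat_lit 8, nat_lit 1, nat_lit 10553151, nat_lit 2823883032, nat_lit 0, nat_lit 0, nat_lit 8, nat_lit 2, nat_lit 174392188, nat_lit 2787183715, nat_lit 0, nat_lit 0, nat_lit 8, nat_lit 1, nat_lit 2736849788, nat_lit 2787183715, nat_lit 0, nat_lit 0, nat_lit 1, nat_lit 2, nat_lit 174129714, nat_lit 11013639, nat_lit 0, nat_lit 0, nat_lit 2, nat_lit 8, nat_lit 176292403, nat_lit 141627078, nat_lit 0, nat_lit 0, nat_lit 8, nat_lit 1, nat_lit 2736849040, nat_lit 69569, nat_lit 0, nat_lit 0, nat_lit 16, nat_lit 8, nat_lit 11010192, nat_lit 170987590, nat_lit 0, nat_lit 0, nat_lit 16, nat_lit 2, nat_lit 655427, nat_lit 10555459, nat_lit 0, nat_lit 0, nat_lit 16, nat_lit 8, nat_lit 524353, nat_lit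 528457, nat_lit 0, nat_lit 0, nat_lit 8, nat_lit 4, nat_lit 10878987, nat_lit 7409892, nat_lit 0, nat_lit 0, nat_lit 1, nat_lit 4, nat_lit 65547, nat_lit 528588, nat_lit 0, nat_lit 0, nat_lit 1, nat_lit 2, nat_lit 173211652, nat_lit 120656220, nat_lit 0, nat_lit 0, nat_lit 8, nat_lit 2, nat_lit 327684, nat_lit 69999, nat_lit 0, nat_lit 0, nat_lit 2, nat_lit 1, nat_lit 2790326275, nat_lit 5312880, nat_lit 0, nat_lit 0, nat_lit 1, nat_lit 2, nat_lit 327682, nat_lit 173085029, nat_lit 0, nat_lit 0, nat_lit 8, nat_lit 16, nat_lit 1, nat_lit 2521895309, nat_lit 0, nat_lit 0, nat_lit 16, nat_lit 4, nat_lit 1, nat_lit 5312912, nat_lit 0, nat_lit 0, nat_lit 1, nat_lit 2, nat_lit 0, nat_lit 70043, nat_lit 0, nat_lit 0, nat_lit 2, nat_lit 4, nat_lit 0, nat_lit 2167194, nat_lit 0, nat_lit 2, nat_lit 2, nat_lit 0, nat_lit 8, nat_lit 4, nat_lit 1, nat_lit 2468415294, nat_lit 2518746940, nat_lit 0, nat_lit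 0, nat_lit 1, nat_lit 2, nat_lit 8, nat_lit 176490300, nat_lit 174196542, nat_lit 0, nat_lit 0, nat_lit 16, nat_lit 2, nat_lit 8, nat_lit 7668604, nat_lit 122751631, nat_lit 0, nat_lit 0, nat_lit 2, nat_lit 4, nat_lit 16, nat_lit 197500, nat_lit 169937583, nat_lit 0, nat_lit 0, nat_lit 8, nat_lit 16, nat_lit 1, nat_lit 52495106, nat_lit 2165520, nat_lit 0, nat_lit 0, nat_lit 1, nat_lit 16, nat_lit 8, nat_lit 8717059, nat_lit 2832, nat_lit 0, nat_lit 0, nat_lit 4, nat_lit 8, nat_lit 1, nat_lit 2736849040, nat_lit 2166471, nat_lit 0, nat_lit 0, nat_lit 2, nat_lit 8, nat_lit 1, nat_lit 5308718, nat_lit 134855, nat_lit 0, nat_lit 0, nat_lit 16, nat_lit 8, nat_lit 1, nat_lit 52494400, nat_lit 2166722, nat_lit 0, nat_lit 0, nat_lit 4, nat_lit 8, nat_lit 2, nat_lit 176488513, nat_lit 154275717, nat_lit 0, nat_lit 0, nat_lit 2, nat_lit 1, nat_lit 8, nat_lit 176226315, nat_lit 4241, nat_lit 0, nat_lit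 0, nat_lit 4, nat_lit 1, nat_lit 16, nat_lit 65547, nat_lit 4242, nat_lit 0, nat_lit 0, nat_lit 8, nat_lit 2, nat_lit 1, nat_lit 9633796, nat_lit 9507020, nat_lit 0, nat_lit 0, nat_lit 1, nat_lit 4, nat_lit 2, nat_lit 6619140, nat_lit 105976011, nat_lit 0, nat_lit 0, nat_lit 1, nat_lit 4, nat_lit 16, nat_lit 2, nat_lit 11014468, nat_lit 0, nat_lit 0, nat_lit 1, nat_lit 16, nat_lit 8, nat_lit 2, nat_lit 4431, nat_lit 0, nat_lit 0, nat_lit 2, nat_lit 16, nat_lit 1, nat_lit 2823880705, nat_lit 3281277, nat_lit 0, nat_lit 0, nat_lit 8, nat_lit 4, nat_lit 2, nat_lit 1, nat_lit 10817895, nat_lit 0, nat_lit 2, nat_lit 4, nat_lit 0, nat_lit 4, nat_lit 2, nat_lit 1, nat_lit 16, nat_lit 4, nat_lit 0, nat_lit 9831292, nat_lit 2001, nat_lit 0, nat_lit 0, nat_lit 8, nat_lit 2, nat_lit 4, nat_lit 4, nat_lit 1, nat_lit 0, nat_lit 1352, nat_lit 1351, nat_lit 0, nat_lit 0, nat_lit 8, nat_lit 16, nat_lit 4,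 nat_lit 4, nat_lit 8, nat_lit 0, nat_lit 9962034, nat_lit 153159495, nat_lit 0, nat_lit 0, nat_lit 8, nat_lit 2, nat_lit 16, nat_lit 4, nat_lit 8, nat_lit 0, nat_lit 157614642, nat_lit 154208537, nat_lit 0, nat_lit 0, nat_lit 16, nat_lit 8, nat_lit 1, nat_lit 4, nat_lit 16, nat_lit 0, nat_lit 159449381, nat_lit 2555447576, nat_lit 0, nat_lit 0, nat_lit 4, nat_lit 1, nat_lit 16, nat_lit 4, nat_lit 8, nat_lit 0, nat_lit 174391440, nat_lit 1966148235, nat_lit 0, nat_lit 0, nat_lit 4, nat_lit 1, nat_lit 8, nat_lit 16, nat_lit 2, nat_lit 0, nat_lit 6422595, nat_lit 2832, nat_lit 0, nat_lit 0, nat_lit 2, nat_lit 1, nat_lit 8, nat_lit 2, nat_lit 16, nat_lit 0, nat_lit 6619200, nat_lit 3214098, nat_lit 0, nat_lit 0, nat_lit 1, nat_lit 8, nat_lit 2, nat_lit 1, nat_lit 4, nat_lit 0, nat_lit 120651787, nat_lit 87101044, nat_lit 0, nat_lit 0, nat_lit 2, nat_lit 4, nat_lit 16, nat_lit 2, nat_lit 1, nat_lit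 0, nat_lit 52494347, nat_lit 8523415, nat_lit 0, nat_lit 0, nat_lit 16, nat_lit 8, nat_lit 4, nat_lit 16, nat_lit 1, nat_lit 0, nat_lit 136380420, nat_lit 9506830, nat_lit 0, nat_lit 0, nat_lit 16, nat_lit 4, nat_lit 2, nat_lit 8, nat_lit 2, nat_lit 0, nat_lit 393220, nat_lit 4115, nat_lit 0, nat_lit 0, nat_lit 2, nat_lit 16, nat_lit 1, nat_lit 2, nat_lit 4, nat_lit 0, nat_lit 11010051, nat_lit 2787184709, nat_lit 0, nat_lit 0, nat_lit 2, nat_lit 16, nat_lit 1, nat_lit 2, nat_lit 4, nat_lit 0, nat_lit 11010051, nat_lit 174133317, nat_lit 0, nat_lit 0, nat_lit 4, nat_lit 1, nat_lit 2, nat_lit 8, nat_lit 4, nat_lit 0, nat_lit 2823880705, nat_lit 528630, nat_lit 0, nat_lit 0, nat_lit 1, nat_lit 16, nat_lit 2, nat_lit 8, nat_lit 4, nat_lit 0, nat_lit 65537, nat_lit 88281310, nat_lit 0, nat_lit 0, nat_lit 16, nat_lit 1, nat_lit 8, nat_lit 4, nat_lit 8, nat_lit 0, nat_lit 0, nat_lit 141889851, nat_lit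 0, nat_lit 0, nat_lit 2, nat_lit 4, nat_lit 8, nat_lit 8, nat_lit 1, nat_lit 0, nat_lit 0, nat_lit 169939246, nat_lit 0, nat_lit 0, nat_lit 1, nat_lit 4, nat_lit 16, nat_lit 2, nat_lit 0, nat_lit 463211, nat_lit 0, nat_lit 0, nat_lit 8, nat_lit 16, nat_lit 2, nat_lit 0, nat_lit 159519111, nat_lit 0, nat_lit 0, nat_lit 8, nat_lit 1, nat_lit 2555449753, nat_lit 0])
    (by decide +kernel)

theorem Yv_7 : VOK [0, 15] 31 [1, 22] :=
  vok_pat (T := PaYT) (M := 4515) (f := 94) PaY_ok (by decide) (by decide) rfl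
    (tk := [nat_lit 2, nat_lit 1, nat_lit 0, nat_lit 2, nat_lit 16, nat_lit 124061502, nat_lit 7407896, nat_lit 0, nat_lit 0, nat_lit 16, nat_lit 4, nat_lit 156305213, nat_lit 9963801, nat_lit 0, nat_lit 0, nat_lit 8, nat_lit 1, nat_lit 2736849788, nat_lit 102829170, nat_lit 0, nat_lit 0, nat_lit 1, nat_lit 4, nat_lit 156304253, nat_lit 3279634, nat_lit 0, nat_lit 0, nat_lit 4, nat_lit 1, nat_lit 2820735538, nat_lit 2823884292, nat_lit 0, nat_lit 0, nat_lit 2, nat_lit 4, nat_lit 11010610, nat_lit 69132, nat_lit 0, nat_lit 0, nat_lit 8, nat_lit 16, nat_lit 524432, nat_lit 528400, nat_lit 0, nat_lit 0, nat_lit 16, nat_lit 8, nat_lit 11010192, nat_lit 170987590, nat_lit 0, nat_lit 2, nat_lit 2, nat_lit 0, nat_lit 8, nat_lit 4, nat_lit 4, nat_lit 16, nat_lit 655426, nat_lit 9961616, nat_lit 139723170, nat_lit 0, nat_lit 0, nat_lit 16, nat_lit 8, nat_lit 2, nat_lit 8, nat_lit 6619201, nat_lit 144,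 nat_lit 2790326416, nat_lit 0, nat_lit 0, nat_lit 16, nat_lit 1, nat_lit 2, nat_lit 1, nat_lit 2162753, nat_lit 6422593, nat_lit 6423351, nat_lit 0, nat_lit 0, nat_lit 1, nat_lit 8, nat_lit 8, nat_lit 16, nat_lit 3211331, nat_lit 65600, nat_lit 6619700, nat_lit 0, nat_lit 0, nat_lit 1, nat_lit 4, nat_lit 16, nat_lit 8, nat_lit 3211329, nat_lit 176291851, nat_lit 8520989, nat_lit 0, nat_lit 0, nat_lit 2, nat_lit 1, nat_lit 16, nat_lit 1, nat_lit 105971779, nat_lit 173211659, nat_lit 156436303, nat_lit 0, nat_lit 0, nat_lit 8, nat_lit 16, nat_lit 4, nat_lit 2, nat_lit 524352, nat_lit 8716292, nat_lit 2518746940, nat_lit 0, nat_lit 0, nat_lit 2, nat_lit 4, nat_lit 16, nat_lit 8, nat_lit 393281, nat_lit 157614084, nat_lit 2164542, nat_lit 0, nat_lit 0, nat_lit 16, nat_lit 4, nat_lit 8, nat_lit 4, nat_lit 393281, nat_lit 327683, nat_lit 123866029, nat_lit 0, nat_lit 0, nat_lit 1, nat_lit 8, nat_lit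 16, nat_lit 4, nat_lit 52494401, nat_lit 52494339, nat_lit 2832, nat_lit 0, nat_lit 0, nat_lit 4, nat_lit 1, nat_lit 8, nat_lit 16, nat_lit 136380481, nat_lit 1, nat_lit 87100781, nat_lit 0, nat_lit 0, nat_lit 16, nat_lit 1, nat_lit 2, nat_lit 1, nat_lit 2162753, nat_lit 65537, nat_lit 3455, nat_lit 0, nat_lit 0, nat_lit 8, nat_lit 16, nat_lit 1, nat_lit 4, nat_lit 70320229, nat_lit 0, nat_lit 3786, nat_lit 0, nat_lit 0, nat_lit 1, nat_lit 4, nat_lit 4, nat_lit 8, nat_lit 1126236227, nat_lit 0, nat_lit 5443071, nat_lit 0, nat_lit 0, nat_lit 2, nat_lit 1, nat_lit 8, nat_lit 6422593, nat_lit 6360962, nat_lit 0, nat_lit 0, nat_lit 16, nat_lit 2, nat_lit 327745, nat_lit 331849, nat_lit 0, nat_lit 0, nat_lit 1, nat_lit 16, nat_lit 11, nat_lit 9507052, nat_lit 0, nat_lit 0, nat_lit 8, nat_lit 1, nat_lit 2162699, nat_lit 4310, nat_lit 0, nat_lit 0, nat_lit 2, nat_lit 1, nat_lit 131076, nat_lit 6426950,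 nat_lit 0, nat_lit 0, nat_lit 4, nat_lit 8, nat_lit 4, nat_lit 528750, nat_lit 0, nat_lit 0, nat_lit 1, nat_lit 2, nat_lit 2790326275, nat_lit 176296297, nat_lit 0, nat_lit 0, nat_lit 8, nat_lit 4, nat_lit 2, nat_lit 4462, nat_lit 0, nat_lit 0, nat_lit 8, nat_lit 4, nat_lit 1, nat_lit 4497, nat_lit 0, nat_lit 0, nat_lit 2, nat_lit 1, nat_lit 65537, nat_lit 659848, nat_lit 0, nat_lit 0, nat_lit 8, nat_lit 4, nat_lit 0, nat_lit 157421980, nat_lit 0, nat_lit 0, nat_lit 2, nat_lit 1, nat_lit 0, nat_lit 70042, nat_lit 0, nat_lit 2, nat_lit 2, nat_lit 0, nat_lit 2, nat_lit 16, nat_lit 8, nat_lit 11011901, nat_lit 10815294, nat_lit 0, nat_lit 0, nat_lit 8, nat_lit 2, nat_lit 1, nat_lit 120719166, nat_lit 141690684, nat_lit 0, nat_lit 0, nat_lit 4, nat_lit 1, nat_lit 8, nat_lit 10879869, nat_lit 657695, nat_lit 0, nat_lit 0, nat_lit 4, nat_lit 1, nat_lit 8, nat_lit 174392189, nat_lit 330019, nat_lit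 0, nat_lit 0, nat_lit 8, nat_lit 16, nat_lit 4, nat_lit 525058, nat_lit 156306194, nat_lit 0, nat_lit 0, nat_lit 8, nat_lit 16, nat_lit 1, nat_lit 52495106, nat_lit 2832, nat_lit 0, nat_lit 0, nat_lit 4, nat_lit 16, nat_lit 8, nat_lit 2790326416, nat_lit 3787, nat_lit 0, nat_lit 0, nat_lit 1, nat_lit 4, nat_lit 2, nat_lit 7405712, nat_lit 2267090628, nat_lit 0, nat_lit 0, nat_lit 16, nat_lit 1, nat_lit 4, nat_lit 524354, nat_lit 4037, nat_lit 0, nat_lit 0, nat_lit 4, nat_lit 8, nat_lit 2, nat_lit 176488513, nat_lit 154275717, nat_lit 0, nat_lit 0, nat_lit 16, nat_lit 1, nat_lit 4, nat_lit 65547, nat_lit 2166888, nat_lit 0, nat_lit 0, nat_lit 4, nat_lit 1, nat_lit 16, nat_lit 11, nat_lit 4243, nat_lit 0, nat_lit 0, nat_lit 1, nat_lit 2, nat_lit 8, nat_lit 11010052, nat_lit 9572557, nat_lit 0, nat_lit 0, nat_lit 4, nat_lit 16, nat_lit 2, nat_lit 327684, nat_lit 4303, nat_lit 0, nat_lit 0, nat_lit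 4, nat_lit 16, nat_lit 1, nat_lit 65539, nat_lit 69953, nat_lit 0, nat_lit 0, nat_lit 2, nat_lit 16, nat_lit 1, nat_lit 5308419, nat_lit 659760, nat_lit 0, nat_lit 0, nat_lit 1, nat_lit 2, nat_lit 8, nat_lit 1, nat_lit 4465, nat_lit 0, nat_lit 0, nat_lit 16, nat_lit 8, nat_lit 4, nat_lit 1, nat_lit 1698763128, nat_lit 0, nat_lit 2, nat_lit 4, nat_lit 0, nat_lit 16, nat_lit 1, nat_lit 4, nat_lit 4, nat_lit 8, nat_lit 0, nat_lit 174392188, nat_lit 173212963, nat_lit 0, nat_lit 0, nat_lit 4, nat_lit 16, nat_lit 2, nat_lit 1, nat_lit 8, nat_lit 0, nat_lit 2790327164, nat_lit 11011370, nat_lit 0, nat_lit 0, nat_lit 2, nat_lit 4, nat_lit 16, nat_lit 8, nat_lit 16, nat_lit 0, nat_lit 562, nat_lit 70322320, nat_lit 0, nat_lit 0, nat_lit 1, nat_lit 8, nat_lit 2, nat_lit 16, nat_lit 2, nat_lit 0, nat_lit 10879538, nat_lit 2787182401, nat_lit 0, nat_lit 0, nat_lit 4, nat_lit 1, nat_lit 8, nat_lit 16,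 nat_lit 4, nat_lit 0, nat_lit 9633936, nat_lit 87100052, nat_lit 0, nat_lit 0, nat_lit 1, nat_lit 2, nat_lit 16, nat_lit 4, nat_lit 16, nat_lit 0, nat_lit 6619280, nat_lit 156306037, nat_lit 0, nat_lit 0, nat_lit 16, nat_lit 4, nat_lit 2, nat_lit 1, nat_lit 2, nat_lit 0, nat_lit 7536705, nat_lit 141692285, nat_lit 0, nat_lit 0, nat_lit 4, nat_lit 8, nat_lit 1, nat_lit 16, nat_lit 4, nat_lit 0, nat_lit 136380483, nat_lit 2832, nat_lit 0, nat_lit 0, nat_lit 1, nat_lit 16, nat_lit 8, nat_lit 4, nat_lit 8, nat_lit 0, nat_lit 6619147, nat_lit 7736839, nat_lit 0, nat_lit 0, nat_lit 1, nat_lit 8, nat_lit 2, nat_lit 2, nat_lit 4, nat_lit 0, nat_lit 8716299, nat_lit 136383999, nat_lit 0, nat_lit 0, nat_lit 2, nat_lit 1, nat_lit 16, nat_lit 4, nat_lit 8, nat_lit 0, nat_lit 4, nat_lit 528272, nat_lit 0, nat_lit 0, nat_lit 2, nat_lit 1, nat_lit 4, nat_lit 16, nat_lit 4, nat_lit 0, nat_lit 2820734980,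 nat_lit 8458176, nat_lit 0, nat_lit 2, nat_lit 8, nat_lit 0, nat_lit 4, nat_lit 16, nat_lit 2, nat_lit 4, nat_lit 8, nat_lit 8, nat_lit 1, nat_lit 0, nat_lit 2, nat_lit 2736849040, nat_lit 2823880848, nat_lit 0, nat_lit 0, nat_lit 4, nat_lit 16, nat_lit 8, nat_lit 4, nat_lit 8, nat_lit 1, nat_lit 2, nat_lit 0, nat_lit 2, nat_lit 7405712, nat_lit 123863509, nat_lit 0, nat_lit 0, nat_lit 8, nat_lit 2, nat_lit 4, nat_lit 16, nat_lit 8, nat_lit 1, nat_lit 2, nat_lit 0, nat_lit 171048963, nat_lit 6619200, nat_lit 88277787, nat_lit 0, nat_lit 0, nat_lit 2, nat_lit 4, nat_lit 8, nat_lit 1, nat_lit 2, nat_lit 2, nat_lit 16, nat_lit 0, nat_lit 9633795, nat_lit 6619201, nat_lit 2518745876, nat_lit 0, nat_lit 0, nat_lit 16, nat_lit 2, nat_lit 8, nat_lit 8, nat_lit 1, nat_lit 4, nat_lit 16, nat_lit 0, nat_lit 136380418, nat_lit 65547, nat_lit 157353798, nat_lit 0, nat_lit 0, nat_lit 16, nat_lit 4, nat_lit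 1, nat_lit 8, nat_lit 2, nat_lit 2, nat_lit 4, nat_lit 0, nat_lit 3, nat_lit 10878987, nat_lit 460086, nat_lit 0, nat_lit 0, nat_lit 8, nat_lit 2, nat_lit 16, nat_lit 4, nat_lit 8, nat_lit 2, nat_lit 8, nat_lit 0, nat_lit 9830403, nat_lit 2823880708, nat_lit 138479425, nat_lit 0, nat_lit 0, nat_lit 4, nat_lit 16, nat_lit 1, nat_lit 8, nat_lit 2, nat_lit 1, nat_lit 4, nat_lit 0, nat_lit 171048963, nat_lit 10682372, nat_lit 2514, nat_lit 0, nat_lit 0, nat_lit 16, nat_lit 8, nat_lit 4, nat_lit 4, nat_lit 1, nat_lit 16, nat_lit 1, nat_lit 0, nat_lit 2521890819, nat_lit 52494339, nat_lit 199309, nat_lit 0, nat_lit 0, nat_lit 2, nat_lit 8, nat_lit 1, nat_lit 2, nat_lit 16, nat_lit 1, nat_lit 16, nat_lit 0, nat_lit 6356995, nat_lit 3, nat_lit 3020, nat_lit 0, nat_lit 0, nat_lit 4, nat_lit 1, nat_lit 16, nat_lit 4, nat_lit 16, nat_lit 8, nat_lit 16, nat_lit 0, nat_lit 8454147, nat_lit 1, nat_lit 3456,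 nat_lit 0, nat_lit 0, nat_lit 16, nat_lit 1, nat_lit 2, nat_lit 8, nat_lit 4, nat_lit 16, nat_lit 4, nat_lit 0, nat_lit 2, nat_lit 65537, nat_lit 3457, nat_lit 0, nat_lit 0, nat_lit 2, nat_lit 8, nat_lit 1, nat_lit 4, nat_lit 2, nat_lit 8, nat_lit 2, nat_lit 0, nat_lit 11010051, nat_lit 0, nat_lit 3588, nat_lit 0, nat_lit 0, nat_lit 4, nat_lit 1, nat_lit 16, nat_lit 4, nat_lit 16, nat_lit 8, nat_lit 2, nat_lit 0, nat_lit 5308419, nat_lit 0, nat_lit 174198391, nat_lit 0, nat_lit 0, nat_lit 8, nat_lit 4, nat_lit 2, nat_lit 8, nat_lit 16, nat_lit 1, nat_lit 0, nat_lit 3276803, nat_lit 4038, nat_lit 0, nat_lit 0, nat_lit 8, nat_lit 16, nat_lit 2, nat_lit 8, nat_lit 4, nat_lit 0, nat_lit 176226307, nat_lit 88150087, nat_lit 0, nat_lit 0, nat_lit 1, nat_lit 4, nat_lit 8, nat_lit 2, nat_lit 1, nat_lit 0, nat_lit 139526145, nat_lit 4351, nat_lit 0, nat_lit 0, nat_lit 1, nat_lit 4, nat_lit 2, nat_lit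 16, nat_lit 2, nat_lit 0, nat_lit 1, nat_lit 4334, nat_lit 0, nat_lit 0, nat_lit 16, nat_lit 2, nat_lit 1, nat_lit 4, nat_lit 8, nat_lit 0, nat_lit 0, nat_lit 4445, nat_lit 0, nat_lit 0, nat_lit 1, nat_lit 8, nat_lit 16, nat_lit 1, nat_lit 2, nat_lit 0, nat_lit 0, nat_lit 2503020847, nat_lit 0, nat_lit 0, nat_lit 1, nat_lit 16, nat_lit 2, nat_lit 8, nat_lit 0, nat_lit 157618537, nat_lit 0, nat_lit 0, nat_lit 8, nat_lit 16, nat_lit 1, nat_lit 0, nat_lit 2555449735, nat_lit 0, nat_lit 0, nat_lit 1, nat_lit 16, nat_lit 4513, nat_lit 0])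
    (by decide +kernel)

theorem Yv_8 : VOK [0, 15] 16 [22, 1] :=
  vok_pat (T := PaYT) (M := 4515) (f := 94) PaY_ok (by decide) (by decide) rfl
    (tk := [nat_lit 1, nat_lit 1, nat_lit 0, nat_lit 8, nat_lit 1, nat_lit 0, nat_lit 10553151, nat_lit 2823883032, nat_lit 0, nat_lit 16, nat_lit 2, nat_lit 0, nat_lit 7407421, nat_lit 124061977, nat_lit 0, nat_lit 8, nat_lit 1, nat_lit 0, nat_lit 2736849788, nat_lit 102829170, nat_lit 0, nat_lit 16, nat_lit 2, nat_lit 0, nat_lit 7406461, nat_lit 159451922, nat_lit 0, nat_lit 2, nat_lit 4, nat_lit 0, nat_lit 10879538, nat_lit 2787184132, nat_lit 0, nat_lit 16, nat_lit 2, nat_lit 0, nat_lit 10814002, nat_lit 3788, nat_lit 0, nat_lit 8, nat_lit 1, nat_lit 0, nat_lit 2736849040, nat_lit 4039, nat_lit 0, nat_lit 2, nat_lit 8, nat_lit 0, nat_lit 11010192, nat_lit 2820738969, nat_lit 1, nat_lit 2, nat_lit 0, nat_lit 16, nat_lit 4, nat_lit 8, nat_lit 2,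 nat_lit 0, nat_lit 327747, nat_lit 6619280, nat_lit 1931542943, nat_lit 0, nat_lit 8, nat_lit 2, nat_lit 2, nat_lit 4, nat_lit 0, nat_lit 176488514, nat_lit 141885584, nat_lit 2771452319, nat_lit 0, nat_lit 4, nat_lit 8, nat_lit 2, nat_lit 8, nat_lit 0, nat_lit 11010112, nat_lit 157614145, nat_lit 2820735811, nat_lit 0, nat_lit 8, nat_lit 16, nat_lit 4, nat_lit 16, nat_lit 0, nat_lit 64, nat_lit 64, nat_lit 525058, nat_lit 0, nat_lit 16, nat_lit 1, nat_lit 8, nat_lit 1, nat_lit 0, nat_lit 2162753, nat_lit 2162699, nat_lit 10880300, nat_lit 0, nat_lit 16, nat_lit 4, nat_lit 2, nat_lit 1, nat_lit 0, nat_lit 65, nat_lit 6422539, nat_lit 122881314, nat_lit 0, nat_lit 1, nat_lit 16, nat_lit 8, nat_lit 16, nat_lit 0, nat_lit 2736848962, nat_lit 154206212, nat_lit 10881111, nat_lit 0, nat_lit 2, nat_lit 16, nat_lit 8, nat_lit 16, nat_lit 0, nat_lit 174391362, nat_lit 9830404, nat_lit 170985559, nat_lit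 0, nat_lit 4, nat_lit 2, nat_lit 2, nat_lit 16, nat_lit 0, nat_lit 524355, nat_lit 327682, nat_lit 1985022612, nat_lit 0, nat_lit 8, nat_lit 1, nat_lit 1, nat_lit 16, nat_lit 0, nat_lit 65603, nat_lit 136380418, nat_lit 4393620, nat_lit 0, nat_lit 2, nat_lit 16, nat_lit 1, nat_lit 4, nat_lit 0, nat_lit 64, nat_lit 1, nat_lit 3458, nat_lit 0, nat_lit 2, nat_lit 16, nat_lit 1, nat_lit 4, nat_lit 0, nat_lit 64, nat_lit 1, nat_lit 3458, nat_lit 0, nat_lit 8, nat_lit 1, nat_lit 2, nat_lit 16, nat_lit 0, nat_lit 122880103, nat_lit 0, nat_lit 69322, nat_lit 0, nat_lit 8, nat_lit 4, nat_lit 2, nat_lit 1, nat_lit 0, nat_lit 655425, nat_lit 0, nat_lit 3583, nat_lit 0, nat_lit 1, nat_lit 2, nat_lit 16, nat_lit 0, nat_lit 87097409, nat_lit 87101372, nat_lit 0, nat_lit 1, nat_lit 8, nat_lit 0, nat_lit 2736848991, nat_lit 2790330438, nat_lit 0, nat_lit 4, nat_lit 16, nat_lit 0, nat_lit 11, nat_lit 4352,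 nat_lit 0, nat_lit 16, nat_lit 1, nat_lit 0, nat_lit 2162699, nat_lit 4347, nat_lit 0, nat_lit 1, nat_lit 2, nat_lit 0, nat_lit 5308420, nat_lit 87101766, nat_lit 0, nat_lit 8, nat_lit 4, nat_lit 0, nat_lit 4, nat_lit 5312879, nat_lit 0, nat_lit 1, nat_lit 4, nat_lit 0, nat_lit 176226307, nat_lit 2787185001, nat_lit 0, nat_lit 1, nat_lit 2, nat_lit 0, nat_lit 327682, nat_lit 173085029, nat_lit 0, nat_lit 2, nat_lit 1, nat_lit 0, nat_lit 65537, nat_lit 4491, nat_lit 0, nat_lit 8, nat_lit 2, nat_lit 0, nat_lit 1, nat_lit 139530633, nat_lit 0, nat_lit 4, nat_lit 16, nat_lit 0, nat_lit 0, nat_lit 2787185052, nat_lit 0, nat_lit 4, nat_lit 2, nat_lit 0, nat_lit 0, nat_lit 135578, nat_lit 1, nat_lit 2, nat_lit 0, nat_lit 4, nat_lit 8, nat_lit 16, nat_lit 0, nat_lit 657214, nat_lit 174196540, nat_lit 0, nat_lit 2, nat_lit 16, nat_lit 8, nat_lit 0, nat_lit 11011901, nat_lit 10815294, nat_lit 0, nat_lit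 1, nat_lit 16, nat_lit 8, nat_lit 0, nat_lit 176489341, nat_lit 2783, nat_lit 0, nat_lit 2, nat_lit 16, nat_lit 8, nat_lit 0, nat_lit 11010941, nat_lit 2736851227, nat_lit 0, nat_lit 4, nat_lit 16, nat_lit 2, nat_lit 0, nat_lit 393986, nat_lit 2832, nat_lit 0, nat_lit 4, nat_lit 16, nat_lit 1, nat_lit 0, nat_lit 3212034, nat_lit 2832, nat_lit 0, nat_lit 16, nat_lit 8, nat_lit 1, nat_lit 0, nat_lit 154206352, nat_lit 9637375, nat_lit 0, nat_lit 4, nat_lit 16, nat_lit 1, nat_lit 0, nat_lit 2736849040, nat_lit 10620420, nat_lit 0, nat_lit 1, nat_lit 8, nat_lit 2, nat_lit 0, nat_lit 7667777, nat_lit 136384395, nat_lit 0, nat_lit 1, nat_lit 4, nat_lit 16, nat_lit 0, nat_lit 65600, nat_lit 176492474, nat_lit 0, nat_lit 4, nat_lit 1, nat_lit 16, nat_lit 0, nat_lit 11, nat_lit 4243, nat_lit 0, nat_lit 1, nat_lit 2, nat_lit 16, nat_lit 0, nat_lit 2162699, nat_lit 2166931, nat_lit 0, nat_lit 8, nat_lit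 2, nat_lit 4, nat_lit 0, nat_lit 157351940, nat_lit 6426876, nat_lit 0, nat_lit 4, nat_lit 2, nat_lit 8, nat_lit 0, nat_lit 5308420, nat_lit 2166987, nat_lit 0, nat_lit 1, nat_lit 4, nat_lit 2, nat_lit 0, nat_lit 327682, nat_lit 4392, nat_lit 0, nat_lit 1, nat_lit 2, nat_lit 4, nat_lit 0, nat_lit 2, nat_lit 332072, nat_lit 0, nat_lit 8, nat_lit 16, nat_lit 2, nat_lit 0, nat_lit 1, nat_lit 397676, nat_lit 0, nat_lit 4, nat_lit 16, nat_lit 1, nat_lit 0, nat_lit 65537, nat_lit 173085063, nat_lit 1, nat_lit 4, nat_lit 0, nat_lit 2, nat_lit 4, nat_lit 8, nat_lit 1, nat_lit 2, nat_lit 0, nat_lit 0, nat_lit 2270233469, nat_lit 123798811, nat_lit 0, nat_lit 16, nat_lit 4, nat_lit 2, nat_lit 8, nat_lit 1, nat_lit 0, nat_lit 0, nat_lit 70386557, nat_lit 104924458, nat_lit 0, nat_lit 2, nat_lit 16, nat_lit 1, nat_lit 8, nat_lit 2, nat_lit 0, nat_lit 0, nat_lit 5308978, nat_lit 157354091, nat_lit 0, nat_lit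 16, nat_lit 1, nat_lit 2, nat_lit 16, nat_lit 2, nat_lit 0, nat_lit 0, nat_lit 87097906, nat_lit 5441652, nat_lit 0, nat_lit 8, nat_lit 16, nat_lit 4, nat_lit 4, nat_lit 2, nat_lit 0, nat_lit 0, nat_lit 9830544, nat_lit 592507, nat_lit 0, nat_lit 16, nat_lit 2, nat_lit 4, nat_lit 4, nat_lit 8, nat_lit 0, nat_lit 0, nat_lit 144, nat_lit 3021, nat_lit 0, nat_lit 1, nat_lit 4, nat_lit 16, nat_lit 2, nat_lit 1, nat_lit 0, nat_lit 0, nat_lit 122880067, nat_lit 9505554, nat_lit 0, nat_lit 2, nat_lit 16, nat_lit 4, nat_lit 8, nat_lit 1, nat_lit 0, nat_lit 0, nat_lit 2736848960, nat_lit 169938019, nat_lit 0, nat_lit 1, nat_lit 16, nat_lit 2, nat_lit 4, nat_lit 1, nat_lit 0, nat_lit 0, nat_lit 2162699, nat_lit 658951, nat_lit 0, nat_lit 4, nat_lit 1, nat_lit 16, nat_lit 2, nat_lit 16, nat_lit 0, nat_lit 0, nat_lit 136380427, nat_lit 9637383, nat_lit 0, nat_lit 8, nat_lit 1, nat_lit 16, nat_lit 16,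 nat_lit 2, nat_lit 0, nat_lit 0, nat_lit 393220, nat_lit 8720281, nat_lit 0, nat_lit 16, nat_lit 4, nat_lit 2, nat_lit 16, nat_lit 1, nat_lit 0, nat_lit 0, nat_lit 2162692, nat_lit 176492457, nat_lit 1, nat_lit 8, nat_lit 0, nat_lit 1, nat_lit 16, nat_lit 8, nat_lit 1, nat_lit 8, nat_lit 4, nat_lit 2, nat_lit 0, nat_lit 0, nat_lit 2, nat_lit 7405712, nat_lit 157352080, nat_lit 0, nat_lit 8, nat_lit 16, nat_lit 2, nat_lit 8, nat_lit 1, nat_lit 4, nat_lit 2, nat_lit 0, nat_lit 0, nat_lit 122880003, nat_lit 124059792, nat_lit 157417765, nat_lit 0, nat_lit 1, nat_lit 16, nat_lit 2, nat_lit 1, nat_lit 8, nat_lit 4, nat_lit 8, nat_lit 0, nat_lit 0, nat_lit 3211267, nat_lit 2736848962, nat_lit 159515458, nat_lit 0, nat_lit 2, nat_lit 8, nat_lit 4, nat_lit 4, nat_lit 1, nat_lit 2, nat_lit 16, nat_lit 0, nat_lit 0, nat_lit 8454147, nat_lit 6619202, nat_lit 141689725, nat_lit 0, nat_lit 1, nat_lit 4,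 nat_lit 2, nat_lit 2, nat_lit 8, nat_lit 16, nat_lit 1, nat_lit 0, nat_lit 0, nat_lit 171048963, nat_lit 196619, nat_lit 6358845, nat_lit 0, nat_lit 2, nat_lit 4, nat_lit 16, nat_lit 1, nat_lit 8, nat_lit 2, nat_lit 16, nat_lit 0, nat_lit 0, nat_lit 5308419, nat_lit 524299, nat_lit 1734, nat_lit 0, nat_lit 8, nat_lit 2, nat_lit 4, nat_lit 1, nat_lit 16, nat_lit 16, nat_lit 2, nat_lit 0, nat_lit 0, nat_lit 8454147, nat_lit 5439492, nat_lit 105973589, nat_lit 0, nat_lit 1, nat_lit 16, nat_lit 8, nat_lit 4, nat_lit 1, nat_lit 16, nat_lit 8, nat_lit 0, nat_lit 0, nat_lit 6356995, nat_lit 65540, nat_lit 2270234433, nat_lit 0, nat_lit 1, nat_lit 8, nat_lit 2, nat_lit 1, nat_lit 2, nat_lit 16, nat_lit 4, nat_lit 0, nat_lit 0, nat_lit 9830403, nat_lit 8716291, nat_lit 67868, nat_lit 0, nat_lit 1, nat_lit 16, nat_lit 4, nat_lit 8, nat_lit 1, nat_lit 4, nat_lit 1, nat_lit 0, nat_lit 0, nat_lit 5308419,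 nat_lit 2823880707, nat_lit 3022, nat_lit 0, nat_lit 1, nat_lit 4, nat_lit 16, nat_lit 16, nat_lit 8, nat_lit 8, nat_lit 1, nat_lit 0, nat_lit 0, nat_lit 3, nat_lit 65537, nat_lit 3459, nat_lit 0, nat_lit 16, nat_lit 2, nat_lit 1, nat_lit 1, nat_lit 16, nat_lit 8, nat_lit 4, nat_lit 0, nat_lit 0, nat_lit 3, nat_lit 1, nat_lit 104926922, nat_lit 0, nat_lit 8, nat_lit 16, nat_lit 2, nat_lit 8, nat_lit 4, nat_lit 4, nat_lit 2, nat_lit 0, nat_lit 0, nat_lit 176226307, nat_lit 0, nat_lit 176295427, nat_lit 0, nat_lit 2, nat_lit 1, nat_lit 8, nat_lit 16, nat_lit 8, nat_lit 1, nat_lit 2, nat_lit 0, nat_lit 0, nat_lit 176226307, nat_lit 0, nat_lit 2552303108, nat_lit 0, nat_lit 1, nat_lit 2, nat_lit 8, nat_lit 4, nat_lit 1, nat_lit 2, nat_lit 0, nat_lit 0, nat_lit 3276803, nat_lit 528258, nat_lit 0, nat_lit 8, nat_lit 16, nat_lit 2, nat_lit 8, nat_lit 1, nat_lit 0, nat_lit 0, nat_lit 176226307, nat_lit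 9769027, nat_lit 0, nat_lit 1, nat_lit 8, nat_lit 2, nat_lit 1, nat_lit 16, nat_lit 0, nat_lit 0, nat_lit 139526145, nat_lit 156438748, nat_lit 0, nat_lit 2, nat_lit 8, nat_lit 1, nat_lit 16, nat_lit 1, nat_lit 0, nat_lit 0, nat_lit 65537, nat_lit 8458478, nat_lit 0, nat_lit 2, nat_lit 16, nat_lit 4, nat_lit 4, nat_lit 1, nat_lit 0, nat_lit 0, nat_lit 0, nat_lit 2267091266, nat_lit 0, nat_lit 1, nat_lit 16, nat_lit 8, nat_lit 4, nat_lit 8, nat_lit 0, nat_lit 0, nat_lit 0, nat_lit 104927600, nat_lit 0, nat_lit 4, nat_lit 16, nat_lit 2, nat_lit 8, nat_lit 0, nat_lit 0, nat_lit 1698763113, nat_lit 0, nat_lit 1, nat_lit 16, nat_lit 8, nat_lit 0, nat_lit 0, nat_lit 159715719, nat_lit 0, nat_lit 8, nat_lit 1, nat_lit 0, nat_lit 169939353])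
    (by decide +kernel)

theorem Yv_9 : VOK [0, 15] 17 [22, 1] :=
  vok_pat (T := PaYT) (M := 4515) (f := 64) PaY_ok (by decide) (by decide) rfl
    (tk := [nat_lit 1, nat_lit 1, nat_lit 0, nat_lit 1, nat_lit 2, nat_lit 0, nat_lit 7407421, nat_lit 1966147865, nat_lit 0, nat_lit 8, nat_lit 16, nat_lit 0, nat_lit 657214, nat_lit 2823883032, nat_lit 0, nat_lit 8, nat_lit 4, nat_lit 0, nat_lit 11010940, nat_lit 176295011, nat_lit 0, nat_lit 4, nat_lit 8, nat_lit 0, nat_lit 174130045, nat_lit 139528978, nat_lit 0, nat_lit 2, nat_lit 16, nat_lit 0, nat_lit 655922, nat_lit 10686075, nat_lit 0, nat_lit 1, nat_lit 2, nat_lit 0, nat_lit 2790326834, nat_lit 331276, nat_lit 0, nat_lit 16, nat_lit 1, nat_lit 0, nat_lit 2736849040, nat_lit 170987587, nat_lit 0, nat_lit 16, nat_lit 8, nat_lit 0, nat_lit 11010192, nat_lit 170987590, nat_lit 0, nat_lit 16, nat_lit 1, nat_lit 0, nat_lit 169934913, nat_lit 10555459,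 nat_lit 0, nat_lit 16, nat_lit 2, nat_lit 0, nat_lit 327745, nat_lit 331849, nat_lit 0, nat_lit 4, nat_lit 8, nat_lit 0, nat_lit 157614091, nat_lit 141627620, nat_lit 0, nat_lit 4, nat_lit 2, nat_lit 0, nat_lit 327691, nat_lit 105976012, nat_lit 0, nat_lit 4, nat_lit 8, nat_lit 0, nat_lit 157614084, nat_lit 105976139, nat_lit 0, nat_lit 1, nat_lit 16, nat_lit 0, nat_lit 2162692, nat_lit 8458587, nat_lit 0, nat_lit 2, nat_lit 1, nat_lit 0, nat_lit 2790326275, nat_lit 5312880, nat_lit 0, nat_lit 4, nat_lit 1, nat_lit 0, nat_lit 65539, nat_lit 169939301, nat_lit 0, nat_lit 8, nat_lit 1, nat_lit 0, nat_lit 2823880705, nat_lit 2521895309, nat_lit 0, nat_lit 16, nat_lit 1, nat_lit 0, nat_lit 65537, nat_lit 4496, nat_lit 0, nat_lit 1, nat_lit 8, nat_lit 0, nat_lit 0, nat_lit 139530651, nat_lit 0, nat_lit 1, nat_lit 4, nat_lit 0, nat_lit 0, nat_lit 332186, nat_lit 1, nat_lit 2, nat_lit 0, nat_lit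 8, nat_lit 4, nat_lit 16, nat_lit 0, nat_lit 9963326, nat_lit 2518746940, nat_lit 0, nat_lit 4, nat_lit 8, nat_lit 1, nat_lit 0, nat_lit 170985278, nat_lit 174196540, nat_lit 0, nat_lit 4, nat_lit 2, nat_lit 8, nat_lit 0, nat_lit 7668604, nat_lit 8849691, nat_lit 0, nat_lit 16, nat_lit 4, nat_lit 8, nat_lit 0, nat_lit 590716, nat_lit 9505423, nat_lit 0, nat_lit 8, nat_lit 16, nat_lit 1, nat_lit 0, nat_lit 52495106, nat_lit 2165520, nat_lit 0, nat_lit 8, nat_lit 16, nat_lit 2, nat_lit 0, nat_lit 6619906, nat_lit 2832, nat_lit 0, nat_lit 8, nat_lit 16, nat_lit 1, nat_lit 0, nat_lit 154206352, nat_lit 159518212, nat_lit 0, nat_lit 2, nat_lit 16, nat_lit 4, nat_lit 0, nat_lit 11010192, nat_lit 10554884, nat_lit 0, nat_lit 2, nat_lit 8, nat_lit 1, nat_lit 0, nat_lit 69271617, nat_lit 8720267, nat_lit 0, nat_lit 8, nat_lit 16, nat_lit 4, nat_lit 0, nat_lit 9830465, nat_lit 331716, nat_lit 0, nat_lit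 1, nat_lit 4, nat_lit 2, nat_lit 0, nat_lit 2823880715, nat_lit 10555480, nat_lit 0, nat_lit 8, nat_lit 2, nat_lit 4, nat_lit 0, nat_lit 139526155, nat_lit 136384715, nat_lit 0, nat_lit 2, nat_lit 4, nat_lit 1, nat_lit 0, nat_lit 2736848900, nat_lit 176230604, nat_lit 0, nat_lit 8, nat_lit 16, nat_lit 2, nat_lit 0, nat_lit 8716292, nat_lit 528591, nat_lit 0, nat_lit 2, nat_lit 1, nat_lit 16, nat_lit 0, nat_lit 2, nat_lit 69964, nat_lit 0, nat_lit 2, nat_lit 8, nat_lit 16, nat_lit 0, nat_lit 327683, nat_lit 4446, nat_lit 0, nat_lit 1, nat_lit 2, nat_lit 16, nat_lit 0, nat_lit 1, nat_lit 176492916, nat_lit 0, nat_lit 4, nat_lit 2, nat_lit 8, nat_lit 0, nat_lit 1, nat_lit 9965927, nat_lit 1, nat_lit 4, nat_lit 0, nat_lit 8, nat_lit 16, nat_lit 4, nat_lit 8, nat_lit 1, nat_lit 0, nat_lit 0, nat_lit 1679885181, nat_lit 106169628, nat_lit 0, nat_lit 16, nat_lit 1, nat_lit 2, nat_lit 2, nat_lit 4,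 nat_lit 0, nat_lit 0, nat_lit 590716, nat_lit 154273059, nat_lit 0, nat_lit 16, nat_lit 2, nat_lit 4, nat_lit 16, nat_lit 8, nat_lit 0, nat_lit 0, nat_lit 562, nat_lit 52496476, nat_lit 0, nat_lit 16, nat_lit 4, nat_lit 8, nat_lit 1, nat_lit 16, nat_lit 0, nat_lit 0, nat_lit 70320690, nat_lit 70387992, nat_lit 0, nat_lit 16, nat_lit 1, nat_lit 4, nat_lit 8, nat_lit 16, nat_lit 0, nat_lit 0, nat_lit 169935141, nat_lit 657688, nat_lit 0, nat_lit 16, nat_lit 1, nat_lit 4, nat_lit 8, nat_lit 2, nat_lit 0, nat_lit 0, nat_lit 105971856, nat_lit 8719054, nat_lit 0, nat_lit 4, nat_lit 1, nat_lit 2, nat_lit 4, nat_lit 8, nat_lit 0, nat_lit 0, nat_lit 157614181, nat_lit 7539819, nat_lit 0, nat_lit 8, nat_lit 16, nat_lit 2, nat_lit 1, nat_lit 2, nat_lit 0, nat_lit 0, nat_lit 1412497474, nat_lit 1679887454, nat_lit 0, nat_lit 8, nat_lit 16, nat_lit 2, nat_lit 1, nat_lit 4, nat_lit 0, nat_lit 0, nat_lit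 6357003, nat_lit 3904, nat_lit 0, nat_lit 4, nat_lit 16, nat_lit 1, nat_lit 4, nat_lit 8, nat_lit 0, nat_lit 0, nat_lit 524299, nat_lit 3782, nat_lit 0, nat_lit 2, nat_lit 1, nat_lit 16, nat_lit 4, nat_lit 16, nat_lit 0, nat_lit 0, nat_lit 136380420, nat_lit 4116, nat_lit 0, nat_lit 2, nat_lit 16, nat_lit 1, nat_lit 4, nat_lit 2, nat_lit 0, nat_lit 0, nat_lit 6422532, nat_lit 4172, nat_lit 0, nat_lit 2, nat_lit 16, nat_lit 8, nat_lit 2, nat_lit 1, nat_lit 0, nat_lit 0, nat_lit 9633795, nat_lit 157421637, nat_lit 0, nat_lit 1, nat_lit 16, nat_lit 2, nat_lit 1, nat_lit 8, nat_lit 0, nat_lit 0, nat_lit 176226307, nat_lit 154275909, nat_lit 0, nat_lit 2, nat_lit 16, nat_lit 1, nat_lit 4, nat_lit 2, nat_lit 0, nat_lit 0, nat_lit 1, nat_lit 176230627, nat_lit 0, nat_lit 2, nat_lit 4, nat_lit 1, nat_lit 2, nat_lit 16, nat_lit 0, nat_lit 0, nat_lit 1, nat_lit 528637, nat_lit 0, nat_lit 1, nat_lit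 16, nat_lit 4, nat_lit 8, nat_lit 1, nat_lit 0, nat_lit 0, nat_lit 0, nat_lit 8851817, nat_lit 0, nat_lit 16, nat_lit 2, nat_lit 4, nat_lit 8, nat_lit 4, nat_lit 0, nat_lit 0, nat_lit 0, nat_lit 69275963, nat_lit 0, nat_lit 1, nat_lit 4, nat_lit 16, nat_lit 8, nat_lit 0, nat_lit 0, nat_lit 10883435, nat_lit 0, nat_lit 1, nat_lit 16, nat_lit 2, nat_lit 0, nat_lit 0, nat_lit 659847, nat_lit 0, nat_lit 4, nat_lit 1, nat_lit 0, nat_lit 173085081])
    (by decide +kernel)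

theorem Yv_10 : VOK [0, 15] 18 [22, 1] :=
  vok_pat (T := PaYT) (M := 4515) (f := 64) PaY_ok (by decide) (by decide) rfl
    (tk := [nat_lit 1, nat_lit 1, nat_lit 0, nat_lit 4, nat_lit 8, nat_lit 0, nat_lit 2823882557, nat_lit 11012377, nat_lit 0, nat_lit 4, nat_lit 1, nat_lit 0, nat_lit 159450943, nat_lit 156305688, nat_lit 0, nat_lit 4, nat_lit 16, nat_lit 0, nat_lit 9962364, nat_lit 154274911, nat_lit 0, nat_lit 8, nat_lit 2, nat_lit 0, nat_lit 174392188, nat_lit 2787183715, nat_lit 0, nat_lit 8, nat_lit 2, nat_lit 0, nat_lit 176489010, nat_lit 3789, nat_lit 0, nat_lit 1, nat_lit 2, nat_lit 0, nat_lit 2790326834, nat_lit 331276, nat_lit 0, nat_lit 1, nat_lit 16, nat_lit 0, nat_lit 144, nat_lit 10555309, nat_lit 0, nat_lit 1, nat_lit 8, nat_lit 0, nat_lit 11010192, nat_lit 154275717, nat_lit 0, nat_lit 16, nat_lit 2, nat_lit 0, nat_lit 10813505, nat_lit 659523, nat_lit 0, nat_lit 8, nat_lit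 2, nat_lit 0, nat_lit 7667807, nat_lit 1966149702, nat_lit 0, nat_lit 1, nat_lit 2, nat_lit 0, nat_lit 2823880715, nat_lit 10555608, nat_lit 0, nat_lit 2, nat_lit 8, nat_lit 0, nat_lit 524299, nat_lit 69836, nat_lit 0, nat_lit 2, nat_lit 4, nat_lit 0, nat_lit 174129156, nat_lit 157421916, nat_lit 0, nat_lit 4, nat_lit 2, nat_lit 0, nat_lit 327684, nat_lit 10817893, nat_lit 0, nat_lit 4, nat_lit 2, nat_lit 0, nat_lit 11010051, nat_lit 4464, nat_lit 0, nat_lit 1, nat_lit 2, nat_lit 0, nat_lit 327682, nat_lit 173085029, nat_lit 0, nat_lit 8, nat_lit 2, nat_lit 0, nat_lit 2823880705, nat_lit 154276237, nat_lit 0, nat_lit 2, nat_lit 1, nat_lit 0, nat_lit 65537, nat_lit 659848, nat_lit 0, nat_lit 2, nat_lit 1, nat_lit 0, nat_lit 0, nat_lit 4507, nat_lit 0, nat_lit 4, nat_lit 8, nat_lit 0, nat_lit 0, nat_lit 6427034, nat_lit 1, nat_lit 2, nat_lit 0, nat_lit 8, nat_lit 2, nat_lit 4, nat_lit 0, nat_lit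 9832253, nat_lit 157615934, nat_lit 0, nat_lit 4, nat_lit 8, nat_lit 1, nat_lit 0, nat_lit 170985278, nat_lit 174196540, nat_lit 0, nat_lit 4, nat_lit 8, nat_lit 16, nat_lit 0, nat_lit 52495228, nat_lit 123865775, nat_lit 0, nat_lit 16, nat_lit 4, nat_lit 1, nat_lit 0, nat_lit 154207100, nat_lit 157354639, nat_lit 0, nat_lit 4, nat_lit 16, nat_lit 8, nat_lit 0, nat_lit 770, nat_lit 8719120, nat_lit 0, nat_lit 2, nat_lit 16, nat_lit 8, nat_lit 0, nat_lit 328450, nat_lit 2832, nat_lit 0, nat_lit 16, nat_lit 1, nat_lit 2, nat_lit 0, nat_lit 2790326416, nat_lit 174394879, nat_lit 0, nat_lit 8, nat_lit 16, nat_lit 4, nat_lit 0, nat_lit 141885584, nat_lit 123801092, nat_lit 0, nat_lit 1, nat_lit 4, nat_lit 16, nat_lit 0, nat_lit 64, nat_lit 176492474, nat_lit 0, nat_lit 4, nat_lit 8, nat_lit 16, nat_lit 0, nat_lit 65600, nat_lit 4117, nat_lit 0, nat_lit 1, nat_lit 2, nat_lit 4, nat_lit 0, nat_lit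 11010059, nat_lit 8458385, nat_lit 0, nat_lit 8, nat_lit 4, nat_lit 2, nat_lit 0, nat_lit 8716299, nat_lit 528587, nat_lit 0, nat_lit 8, nat_lit 4, nat_lit 2, nat_lit 0, nat_lit 157351940, nat_lit 136384764, nat_lit 0, nat_lit 4, nat_lit 8, nat_lit 1, nat_lit 0, nat_lit 2162692, nat_lit 4299, nat_lit 0, nat_lit 4, nat_lit 16, nat_lit 2, nat_lit 0, nat_lit 174194691, nat_lit 2736853303, nat_lit 0, nat_lit 8, nat_lit 2, nat_lit 4, nat_lit 0, nat_lit 327683, nat_lit 4392, nat_lit 0, nat_lit 16, nat_lit 8, nat_lit 4, nat_lit 0, nat_lit 2823880705, nat_lit 1698763127, nat_lit 0, nat_lit 2, nat_lit 16, nat_lit 1, nat_lit 0, nat_lit 65537, nat_lit 176230773, nat_lit 1, nat_lit 4, nat_lit 0, nat_lit 8, nat_lit 1, nat_lit 4, nat_lit 8, nat_lit 2, nat_lit 0, nat_lit 0, nat_lit 141886332, nat_lit 7734555, nat_lit 0, nat_lit 4, nat_lit 8, nat_lit 16, nat_lit 16, nat_lit 2, nat_lit 0, nat_lit 0, nat_lit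 2164040, nat_lit 122881325, nat_lit 0, nat_lit 16, nat_lit 4, nat_lit 8, nat_lit 8, nat_lit 1, nat_lit 0, nat_lit 0, nat_lit 2820735538, nat_lit 11012212, nat_lit 0, nat_lit 8, nat_lit 1, nat_lit 2, nat_lit 4, nat_lit 2, nat_lit 0, nat_lit 0, nat_lit 2503017010, nat_lit 9832729, nat_lit 0, nat_lit 4, nat_lit 16, nat_lit 8, nat_lit 1, nat_lit 2, nat_lit 0, nat_lit 0, nat_lit 105971856, nat_lit 141888353, nat_lit 0, nat_lit 4, nat_lit 1, nat_lit 16, nat_lit 16, nat_lit 2, nat_lit 0, nat_lit 0, nat_lit 102826278, nat_lit 52496665, nat_lit 0, nat_lit 2, nat_lit 16, nat_lit 1, nat_lit 1, nat_lit 8, nat_lit 0, nat_lit 0, nat_lit 5505127, nat_lit 6425981, nat_lit 0, nat_lit 1, nat_lit 16, nat_lit 4, nat_lit 1, nat_lit 2, nat_lit 0, nat_lit 0, nat_lit 1412497473, nat_lit 9964306, nat_lit 0, nat_lit 8, nat_lit 1, nat_lit 4, nat_lit 8, nat_lit 2, nat_lit 0, nat_lit 0, nat_lit 9830411, nat_lit 3790,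 nat_lit 0, nat_lit 16, nat_lit 2, nat_lit 8, nat_lit 8, nat_lit 16, nat_lit 0, nat_lit 0, nat_lit 8716299, nat_lit 2552303227, nat_lit 0, nat_lit 8, nat_lit 2, nat_lit 16, nat_lit 4, nat_lit 16, nat_lit 0, nat_lit 0, nat_lit 8716292, nat_lit 4118, nat_lit 0, nat_lit 2, nat_lit 1, nat_lit 4, nat_lit 2, nat_lit 8, nat_lit 0, nat_lit 0, nat_lit 4, nat_lit 397184, nat_lit 0, nat_lit 1, nat_lit 16, nat_lit 8, nat_lit 1, nat_lit 2, nat_lit 0, nat_lit 0, nat_lit 157351939, nat_lit 2503020613, nat_lit 0, nat_lit 1, nat_lit 16, nat_lit 8, nat_lit 1, nat_lit 2, nat_lit 0, nat_lit 0, nat_lit 157351939, nat_lit 154275909, nat_lit 0, nat_lit 2, nat_lit 1, nat_lit 16, nat_lit 4, nat_lit 8, nat_lit 0, nat_lit 0, nat_lit 1, nat_lit 87101659, nat_lit 0, nat_lit 8, nat_lit 1, nat_lit 4, nat_lit 8, nat_lit 2, nat_lit 0, nat_lit 0, nat_lit 1, nat_lit 4299, nat_lit 0, nat_lit 16, nat_lit 4, nat_lit 2, nat_lit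 1, nat_lit 2, nat_lit 0, nat_lit 0, nat_lit 0, nat_lit 171053371, nat_lit 0, nat_lit 4, nat_lit 16, nat_lit 2, nat_lit 2, nat_lit 1, nat_lit 0, nat_lit 0, nat_lit 0, nat_lit 157421890, nat_lit 0, nat_lit 2, nat_lit 4, nat_lit 16, nat_lit 8, nat_lit 0, nat_lit 0, nat_lit 170987883, nat_lit 0, nat_lit 1, nat_lit 16, nat_lit 4, nat_lit 0, nat_lit 0, nat_lit 10817927, nat_lit 0, nat_lit 4, nat_lit 2, nat_lit 0, nat_lit 10621337])
    (by decide +kernel)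

theorem Yv_11 : VOK [0, 15] 20 [22, 1] :=
  vok_pat (T := PaYT) (M := 4515) (f := 64) PaY_ok (by decide) (by decide) rfl
    (tk := [nat_lit 1, nat_lit 1, nat_lit 0, nat_lit 2, nat_lit 8, nat_lit 0, nat_lit 2823882557, nat_lit 174393625, nat_lit 0, nat_lit 16, nat_lit 1, nat_lit 0, nat_lit 263997, nat_lit 1126238489, nat_lit 0, nat_lit 2, nat_lit 4, nat_lit 0, nat_lit 156304253, nat_lit 105974546, nat_lit 0, nat_lit 8, nat_lit 4, nat_lit 0, nat_lit 11010940, nat_lit 176295011, nat_lit 0, nat_lit 16, nat_lit 1, nat_lit 0, nat_lit 10617394, nat_lit 5312204, nat_lit 0, nat_lit 2, nat_lit 16, nat_lit 0, nat_lit 655922, nat_lit 10686075, nat_lit 0, nat_lit 2, nat_lit 4, nat_lit 0, nat_lit 11010192, nat_lit 174133125, nat_lit 0, nat_lit 8, nat_lit 4, nat_lit 0, nat_lit 301, nat_lit 4040, nat_lit 0, nat_lit 16, nat_lit 2, nat_lit 0, nat_lit 10616899, nat_lit 10817603, nat_lit 0, nat_lit 16, nat_lit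 1, nat_lit 0, nat_lit 2162753, nat_lit 2166857, nat_lit 0, nat_lit 1, nat_lit 8, nat_lit 0, nat_lit 120717323, nat_lit 1931546852, nat_lit 0, nat_lit 1, nat_lit 4, nat_lit 0, nat_lit 65547, nat_lit 528588, nat_lit 0, nat_lit 1, nat_lit 16, nat_lit 0, nat_lit 327684, nat_lit 2790330686, nat_lit 0, nat_lit 4, nat_lit 16, nat_lit 0, nat_lit 4, nat_lit 6623579, nat_lit 0, nat_lit 2, nat_lit 4, nat_lit 0, nat_lit 11010051, nat_lit 2823885160, nat_lit 0, nat_lit 1, nat_lit 4, nat_lit 0, nat_lit 2, nat_lit 10555749, nat_lit 0, nat_lit 16, nat_lit 2, nat_lit 0, nat_lit 2823880705, nat_lit 4498, nat_lit 0, nat_lit 1, nat_lit 16, nat_lit 0, nat_lit 1, nat_lit 176492938, nat_lit 0, nat_lit 4, nat_lit 2, nat_lit 0, nat_lit 0, nat_lit 2167195, nat_lit 0, nat_lit 1, nat_lit 16, nat_lit 0, nat_lit 0, nat_lit 2823885212, nat_lit 1, nat_lit 2, nat_lit 0, nat_lit 2, nat_lit 1, nat_lit 16, nat_lit 0, nat_lit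 1412499262, nat_lit 4261692, nat_lit 0, nat_lit 8, nat_lit 4, nat_lit 16, nat_lit 0, nat_lit 9963326, nat_lit 2518746940, nat_lit 0, nat_lit 1, nat_lit 8, nat_lit 2, nat_lit 0, nat_lit 174392189, nat_lit 170985755, nat_lit 0, nat_lit 4, nat_lit 1, nat_lit 8, nat_lit 0, nat_lit 174392189, nat_lit 330019, nat_lit 0, nat_lit 1, nat_lit 16, nat_lit 8, nat_lit 0, nat_lit 8717059, nat_lit 136383248, nat_lit 0, nat_lit 1, nat_lit 16, nat_lit 8, nat_lit 0, nat_lit 8717059, nat_lit 2832, nat_lit 0, nat_lit 2, nat_lit 16, nat_lit 4, nat_lit 0, nat_lit 11010192, nat_lit 10554884, nat_lit 0, nat_lit 8, nat_lit 1, nat_lit 4, nat_lit 0, nat_lit 139526446, nat_lit 139529874, nat_lit 0, nat_lit 1, nat_lit 8, nat_lit 16, nat_lit 0, nat_lit 64, nat_lit 2166805, nat_lit 0, nat_lit 2, nat_lit 8, nat_lit 16, nat_lit 0, nat_lit 65600, nat_lit 331797, nat_lit 0, nat_lit 2, nat_lit 4, nat_lit 1, nat_lit 0, nat_lit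 2736848907, nat_lit 3281041, nat_lit 0, nat_lit 16, nat_lit 1, nat_lit 2, nat_lit 0, nat_lit 139526155, nat_lit 136384616, nat_lit 0, nat_lit 2, nat_lit 8, nat_lit 4, nat_lit 0, nat_lit 176226308, nat_lit 135420, nat_lit 0, nat_lit 1, nat_lit 16, nat_lit 8, nat_lit 0, nat_lit 4, nat_lit 4350, nat_lit 0, nat_lit 4, nat_lit 8, nat_lit 16, nat_lit 0, nat_lit 2, nat_lit 4447, nat_lit 0, nat_lit 8, nat_lit 4, nat_lit 1, nat_lit 0, nat_lit 65539, nat_lit 332072, nat_lit 0, nat_lit 2, nat_lit 16, nat_lit 4, nat_lit 0, nat_lit 2823880705, nat_lit 528765, nat_lit 0, nat_lit 1, nat_lit 8, nat_lit 4, nat_lit 0, nat_lit 1, nat_lit 124064103, nat_lit 1, nat_lit 4, nat_lit 0, nat_lit 2, nat_lit 16, nat_lit 8, nat_lit 2, nat_lit 4, nat_lit 0, nat_lit 0, nat_lit 154207100, nat_lit 2503017756, nat_lit 0, nat_lit 16, nat_lit 1, nat_lit 4, nat_lit 16, nat_lit 8, nat_lit 0, nat_lit 0, nat_lit 174392188, nat_lit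 2771453219, nat_lit 0, nat_lit 16, nat_lit 8, nat_lit 4, nat_lit 4, nat_lit 1, nat_lit 0, nat_lit 0, nat_lit 153158194, nat_lit 591988, nat_lit 0, nat_lit 16, nat_lit 2, nat_lit 8, nat_lit 8, nat_lit 1, nat_lit 0, nat_lit 0, nat_lit 174195250, nat_lit 174393460, nat_lit 0, nat_lit 16, nat_lit 8, nat_lit 4, nat_lit 4, nat_lit 1, nat_lit 0, nat_lit 0, nat_lit 52494480, nat_lit 3214285, nat_lit 0, nat_lit 2, nat_lit 1, nat_lit 8, nat_lit 2, nat_lit 4, nat_lit 0, nat_lit 0, nat_lit 141623589, nat_lit 1966147865, nat_lit 0, nat_lit 2, nat_lit 16, nat_lit 1, nat_lit 8, nat_lit 1, nat_lit 0, nat_lit 0, nat_lit 169934914, nat_lit 2736852062, nat_lit 0, nat_lit 2, nat_lit 4, nat_lit 1, nat_lit 16, nat_lit 1, nat_lit 0, nat_lit 0, nat_lit 2216755267, nat_lit 2216758500, nat_lit 0, nat_lit 4, nat_lit 1, nat_lit 16, nat_lit 4, nat_lit 8, nat_lit 0, nat_lit 0, nat_lit 327691, nat_lit 8457879, nat_lit 0,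 nat_lit 8, nat_lit 16, nat_lit 1, nat_lit 1, nat_lit 8, nat_lit 0, nat_lit 0, nat_lit 11010059, nat_lit 157617671, nat_lit 0, nat_lit 1, nat_lit 16, nat_lit 2, nat_lit 1, nat_lit 4, nat_lit 0, nat_lit 0, nat_lit 65540, nat_lit 4041, nat_lit 0, nat_lit 2, nat_lit 8, nat_lit 1, nat_lit 2, nat_lit 1, nat_lit 0, nat_lit 0, nat_lit 170983428, nat_lit 4119, nat_lit 0, nat_lit 8, nat_lit 16, nat_lit 2, nat_lit 8, nat_lit 4, nat_lit 0, nat_lit 0, nat_lit 154206211, nat_lit 266309, nat_lit 0, nat_lit 8, nat_lit 16, nat_lit 4, nat_lit 8, nat_lit 1, nat_lit 0, nat_lit 0, nat_lit 2790326275, nat_lit 462915, nat_lit 0, nat_lit 1, nat_lit 4, nat_lit 8, nat_lit 16, nat_lit 1, nat_lit 0, nat_lit 0, nat_lit 2823880705, nat_lit 2790330598, nat_lit 0, nat_lit 4, nat_lit 16, nat_lit 2, nat_lit 2, nat_lit 1, nat_lit 0, nat_lit 0, nat_lit 5308417, nat_lit 2790330616, nat_lit 0, nat_lit 1, nat_lit 16, nat_lit 2,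 nat_lit 4, nat_lit 1, nat_lit 0, nat_lit 0, nat_lit 0, nat_lit 8720732, nat_lit 0, nat_lit 2, nat_lit 16, nat_lit 4, nat_lit 1, nat_lit 8, nat_lit 0, nat_lit 0, nat_lit 0, nat_lit 6361422, nat_lit 0, nat_lit 4, nat_lit 8, nat_lit 16, nat_lit 1, nat_lit 0, nat_lit 0, nat_lit 1698763115, nat_lit 0, nat_lit 1, nat_lit 16, nat_lit 2, nat_lit 0, nat_lit 0, nat_lit 659847, nat_lit 0, nat_lit 8, nat_lit 4, nat_lit 0, nat_lit 1981878681])
    (by decide +kernel)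

theorem Yv_12 : VOK [0, 15] 24 [22, 1] :=
  vok_pat (T := PaYT) (M := 4515) (f := 64) PaY_ok (by decide) (by decide) rfl
    (tk := [nat_lit 1, nat_lit 1, nat_lit 0, nat_lit 2, nat_lit 4, nat_lit 0, nat_lit 156305213, nat_lit 9832729, nat_lit 0, nat_lit 8, nat_lit 1, nat_lit 0, nat_lit 10553151, nat_lit 2823883032, nat_lit 0, nat_lit 2, nat_lit 16, nat_lit 0, nat_lit 124060540, nat_lit 1931545695, nat_lit 0, nat_lit 8, nat_lit 4, nat_lit 0, nat_lit 11010940, nat_lit 176295011, nat_lit 0, nat_lit 1, nat_lit 4, nat_lit 0, nat_lit 2270233138, nat_lit 396812, nat_lit 0, nat_lit 1, nat_lit 8, nat_lit 0, nat_lit 9503282, nat_lit 527884, nat_lit 0, nat_lit 4, nat_lit 16, nat_lit 0, nat_lit 6619280, nat_lit 397328, nat_lit 0, nat_lit 2, nat_lit 4, nat_lit 0, nat_lit 11010192, nat_lit 174133125, nat_lit 0, nat_lit 16, nat_lit 2, nat_lit 0, nat_lit 159514691, nat_lit 159715395, nat_lit 0, nat_lit 8,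 nat_lit 4, nat_lit 0, nat_lit 589919, nat_lit 154210374, nat_lit 0, nat_lit 8, nat_lit 1, nat_lit 0, nat_lit 157417483, nat_lit 159715544, nat_lit 0, nat_lit 4, nat_lit 16, nat_lit 0, nat_lit 11, nat_lit 4352, nat_lit 0, nat_lit 1, nat_lit 16, nat_lit 0, nat_lit 8716292, nat_lit 157356350, nat_lit 0, nat_lit 1, nat_lit 8, nat_lit 0, nat_lit 4, nat_lit 4454, nat_lit 0, nat_lit 4, nat_lit 8, nat_lit 0, nat_lit 11010051, nat_lit 7410024, nat_lit 0, nat_lit 4, nat_lit 1, nat_lit 0, nat_lit 65539, nat_lit 169939301, nat_lit 0, nat_lit 1, nat_lit 16, nat_lit 0, nat_lit 139526145, nat_lit 157421965, nat_lit 0, nat_lit 2, nat_lit 8, nat_lit 0, nat_lit 1, nat_lit 8458633, nat_lit 0, nat_lit 8, nat_lit 2, nat_lit 0, nat_lit 0, nat_lit 136384923, nat_lit 0, nat_lit 16, nat_lit 8, nat_lit 0, nat_lit 0, nat_lit 2823885213, nat_lit 1, nat_lit 2, nat_lit 0, nat_lit 1, nat_lit 4, nat_lit 16, nat_lit 0, nat_lit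 2552301374, nat_lit 9766716, nat_lit 0, nat_lit 2, nat_lit 8, nat_lit 1, nat_lit 0, nat_lit 2771453758, nat_lit 2820736828, nat_lit 0, nat_lit 4, nat_lit 8, nat_lit 16, nat_lit 0, nat_lit 6620028, nat_lit 1412500143, nat_lit 0, nat_lit 1, nat_lit 2, nat_lit 4, nat_lit 0, nat_lit 590716, nat_lit 170986145, nat_lit 0, nat_lit 4, nat_lit 16, nat_lit 2, nat_lit 0, nat_lit 393986, nat_lit 2832, nat_lit 0, nat_lit 4, nat_lit 16, nat_lit 2, nat_lit 0, nat_lit 393986, nat_lit 2832, nat_lit 0, nat_lit 1, nat_lit 16, nat_lit 8, nat_lit 0, nat_lit 11010192, nat_lit 2166475, nat_lit 0, nat_lit 1, nat_lit 16, nat_lit 8, nat_lit 0, nat_lit 327982, nat_lit 2166475, nat_lit 0, nat_lit 4, nat_lit 8, nat_lit 16, nat_lit 0, nat_lit 6619200, nat_lit 7475130, nat_lit 0, nat_lit 16, nat_lit 2, nat_lit 4, nat_lit 0, nat_lit 524354, nat_lit 69573, nat_lit 0, nat_lit 4, nat_lit 8, nat_lit 1, nat_lit 0, nat_lit 1966145547,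 nat_lit 5443729, nat_lit 0, nat_lit 8, nat_lit 4, nat_lit 2, nat_lit 0, nat_lit 8716299, nat_lit 528587, nat_lit 0, nat_lit 1, nat_lit 2, nat_lit 8, nat_lit 0, nat_lit 11010052, nat_lit 9834700, nat_lit 0, nat_lit 2, nat_lit 4, nat_lit 8, nat_lit 0, nat_lit 65540, nat_lit 135371, nat_lit 0, nat_lit 16, nat_lit 1, nat_lit 8, nat_lit 0, nat_lit 2, nat_lit 528713, nat_lit 0, nat_lit 8, nat_lit 2, nat_lit 4, nat_lit 0, nat_lit 327683, nat_lit 4392, nat_lit 0, nat_lit 16, nat_lit 4, nat_lit 1, nat_lit 0, nat_lit 2823880705, nat_lit 463223, nat_lit 0, nat_lit 2, nat_lit 16, nat_lit 1, nat_lit 0, nat_lit 65537, nat_lit 176230773, nat_lit 1, nat_lit 4, nat_lit 0, nat_lit 4, nat_lit 16, nat_lit 1, nat_lit 1, nat_lit 2, nat_lit 0, nat_lit 0, nat_lit 1679885181, nat_lit 70386556, nat_lit 0, nat_lit 4, nat_lit 2, nat_lit 16, nat_lit 1, nat_lit 8, nat_lit 0, nat_lit 0, nat_lit 102827336, nat_lit 526021,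 nat_lit 0, nat_lit 1, nat_lit 2, nat_lit 16, nat_lit 16, nat_lit 8, nat_lit 0, nat_lit 0, nat_lit 10551858, nat_lit 2165201, nat_lit 0, nat_lit 16, nat_lit 1, nat_lit 2, nat_lit 16, nat_lit 2, nat_lit 0, nat_lit 0, nat_lit 87097906, nat_lit 5441652, nat_lit 0, nat_lit 16, nat_lit 4, nat_lit 8, nat_lit 16, nat_lit 2, nat_lit 0, nat_lit 0, nat_lit 6619280, nat_lit 174131916, nat_lit 0, nat_lit 4, nat_lit 1, nat_lit 8, nat_lit 16, nat_lit 4, nat_lit 0, nat_lit 0, nat_lit 154206352, nat_lit 6621842, nat_lit 0, nat_lit 4, nat_lit 1, nat_lit 16, nat_lit 2, nat_lit 4, nat_lit 0, nat_lit 0, nat_lit 2270232643, nat_lit 9505554, nat_lit 0, nat_lit 2, nat_lit 8, nat_lit 4, nat_lit 1, nat_lit 16, nat_lit 0, nat_lit 0, nat_lit 3276864, nat_lit 8719122, nat_lit 0, nat_lit 8, nat_lit 4, nat_lit 1, nat_lit 1, nat_lit 16, nat_lit 0, nat_lit 0, nat_lit 2736848907, nat_lit 106171907, nat_lit 0, nat_lit 1, nat_lit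 2, nat_lit 8, nat_lit 16, nat_lit 4, nat_lit 0, nat_lit 0, nat_lit 524299, nat_lit 173215238, nat_lit 0, nat_lit 2, nat_lit 16, nat_lit 1, nat_lit 4, nat_lit 2, nat_lit 0, nat_lit 0, nat_lit 8716292, nat_lit 4042, nat_lit 0, nat_lit 1, nat_lit 8, nat_lit 4, nat_lit 2, nat_lit 4, nat_lit 0, nat_lit 0, nat_lit 176488452, nat_lit 141889472, nat_lit 0, nat_lit 1, nat_lit 16, nat_lit 4, nat_lit 1, nat_lit 8, nat_lit 0, nat_lit 0, nat_lit 2790326275, nat_lit 1931546693, nat_lit 0, nat_lit 4, nat_lit 16, nat_lit 1, nat_lit 4, nat_lit 2, nat_lit 0, nat_lit 0, nat_lit 11010051, nat_lit 176492611, nat_lit 0, nat_lit 1, nat_lit 16, nat_lit 4, nat_lit 8, nat_lit 1, nat_lit 0, nat_lit 0, nat_lit 139526145, nat_lit 141627616, nat_lit 0, nat_lit 16, nat_lit 1, nat_lit 4, nat_lit 8, nat_lit 4, nat_lit 0, nat_lit 0, nat_lit 65537, nat_lit 4345, nat_lit 0, nat_lit 2, nat_lit 16, nat_lit 4, nat_lit 8, nat_lit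 2, nat_lit 0, nat_lit 0, nat_lit 0, nat_lit 69980, nat_lit 0, nat_lit 16, nat_lit 8, nat_lit 1, nat_lit 2, nat_lit 1, nat_lit 0, nat_lit 0, nat_lit 0, nat_lit 157356347, nat_lit 0, nat_lit 8, nat_lit 2, nat_lit 16, nat_lit 1, nat_lit 0, nat_lit 0, nat_lit 2235634027, nat_lit 0, nat_lit 4, nat_lit 16, nat_lit 8, nat_lit 0, nat_lit 0, nat_lit 123867527, nat_lit 0, nat_lit 4, nat_lit 8, nat_lit 0, nat_lit 123867545])
    (by decide +kernel)

theorem Yv_13 : VOK [0, 15] 31 [22, 1] :=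
  vok_pat (T := PaYT) (M := 4515) (f := 64) PaY_ok (by decide) (by decide) rfl
    (tk := [nat_lit 1, nat_lit 1, nat_lit 0, nat_lit 1, nat_lit 8, nat_lit 0, nat_lit 2823882557, nat_lit 2736851225, nat_lit 0, nat_lit 4, nat_lit 16, nat_lit 0, nat_lit 9963326, nat_lit 156305688, nat_lit 0, nat_lit 8, nat_lit 4, nat_lit 0, nat_lit 2521891709, nat_lit 5311250, nat_lit 0, nat_lit 4, nat_lit 8, nat_lit 0, nat_lit 590716, nat_lit 9571427, nat_lit 0, nat_lit 1, nat_lit 2, nat_lit 0, nat_lit 2790326834, nat_lit 3597, nat_lit 0, nat_lit 8, nat_lit 16, nat_lit 0, nat_lit 655922, nat_lit 3791, nat_lit 0, nat_lit 1, nat_lit 2, nat_lit 0, nat_lit 2790326416, nat_lit 174198672, nat_lit 0, nat_lit 16, nat_lit 8, nat_lit 0, nat_lit 11010192, nat_lit 170987590, nat_lit 0, nat_lit 16, nat_lit 4, nat_lit 0, nat_lit 11010112, nat_lit 2823884874, nat_lit 0, nat_lit 16, nat_lit 1, nat_lit 0, nat_lit 2162753, nat_lit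 2166857, nat_lit 0, nat_lit 16, nat_lit 4, nat_lit 0, nat_lit 11, nat_lit 4347, nat_lit 0, nat_lit 8, nat_lit 1, nat_lit 0, nat_lit 2162699, nat_lit 4310, nat_lit 0, nat_lit 2, nat_lit 4, nat_lit 0, nat_lit 4, nat_lit 4407, nat_lit 0, nat_lit 8, nat_lit 16, nat_lit 0, nat_lit 4, nat_lit 4448, nat_lit 0, nat_lit 8, nat_lit 1, nat_lit 0, nat_lit 136380418, nat_lit 3281276, nat_lit 0, nat_lit 1, nat_lit 2, nat_lit 0, nat_lit 327682, nat_lit 173085029, nat_lit 0, nat_lit 4, nat_lit 8, nat_lit 0, nat_lit 1, nat_lit 88281486, nat_lit 0, nat_lit 8, nat_lit 1, nat_lit 0, nat_lit 65537, nat_lit 139530633, nat_lit 0, nat_lit 16, nat_lit 4, nat_lit 0, nat_lit 0, nat_lit 4514, nat_lit 0, nat_lit 2, nat_lit 16, nat_lit 0, nat_lit 0, nat_lit 176296348, nat_lit 1, nat_lit 2, nat_lit 0, nat_lit 4, nat_lit 2, nat_lit 1, nat_lit 0, nat_lit 7538494, nat_lit 7472956, nat_lit 0, nat_lit 2, nat_lit 8, nat_lit 16,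 nat_lit 0, nat_lit 10815294, nat_lit 2820736828, nat_lit 0, nat_lit 16, nat_lit 1, nat_lit 4, nat_lit 0, nat_lit 8651645, nat_lit 2235632271, nat_lit 0, nat_lit 8, nat_lit 16, nat_lit 2, nat_lit 0, nat_lit 2270233468, nat_lit 122882331, nat_lit 0, nat_lit 4, nat_lit 16, nat_lit 8, nat_lit 0, nat_lit 770, nat_lit 527120, nat_lit 0, nat_lit 4, nat_lit 16, nat_lit 8, nat_lit 0, nat_lit 770, nat_lit 2832, nat_lit 0, nat_lit 2, nat_lit 16, nat_lit 1, nat_lit 0, nat_lit 171049104, nat_lit 169938436, nat_lit 0, nat_lit 4, nat_lit 2, nat_lit 8, nat_lit 0, nat_lit 2790326416, nat_lit 134802, nat_lit 0, nat_lit 1, nat_lit 16, nat_lit 4, nat_lit 0, nat_lit 11010112, nat_lit 171052990, nat_lit 0, nat_lit 4, nat_lit 1, nat_lit 8, nat_lit 0, nat_lit 174391361, nat_lit 4043, nat_lit 0, nat_lit 1, nat_lit 2, nat_lit 16, nat_lit 0, nat_lit 11, nat_lit 4244, nat_lit 0, nat_lit 16, nat_lit 8, nat_lit 2, nat_lit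 0, nat_lit 327691, nat_lit 4240, nat_lit 0, nat_lit 8, nat_lit 2, nat_lit 1, nat_lit 0, nat_lit 1966145540, nat_lit 52498684, nat_lit 0, nat_lit 1, nat_lit 2, nat_lit 4, nat_lit 0, nat_lit 524292, nat_lit 8458443, nat_lit 0, nat_lit 4, nat_lit 2, nat_lit 16, nat_lit 0, nat_lit 2, nat_lit 528717, nat_lit 0, nat_lit 1, nat_lit 16, nat_lit 2, nat_lit 0, nat_lit 327682, nat_lit 6623567, nat_lit 0, nat_lit 2, nat_lit 8, nat_lit 16, nat_lit 0, nat_lit 65537, nat_lit 2468417908, nat_lit 0, nat_lit 1, nat_lit 2, nat_lit 8, nat_lit 0, nat_lit 1, nat_lit 159715687, nat_lit 1, nat_lit 4, nat_lit 0, nat_lit 16, nat_lit 1, nat_lit 4, nat_lit 8, nat_lit 2, nat_lit 0, nat_lit 0, nat_lit 124060540, nat_lit 141690154, nat_lit 0, nat_lit 16, nat_lit 4, nat_lit 1, nat_lit 1, nat_lit 8, nat_lit 0, nat_lit 0, nat_lit 2790327164, nat_lit 2823882019, nat_lit 0, nat_lit 16, nat_lit 4, nat_lit 2, nat_lit 8, nat_lit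 1, nat_lit 0, nat_lit 0, nat_lit 1412497970, nat_lit 2823882896, nat_lit 0, nat_lit 1, nat_lit 4, nat_lit 16, nat_lit 16, nat_lit 2, nat_lit 0, nat_lit 0, nat_lit 1985020466, nat_lit 6425041, nat_lit 0, nat_lit 2, nat_lit 4, nat_lit 1, nat_lit 1, nat_lit 16, nat_lit 0, nat_lit 0, nat_lit 196752, nat_lit 1126239144, nat_lit 0, nat_lit 4, nat_lit 16, nat_lit 8, nat_lit 2, nat_lit 1, nat_lit 0, nat_lit 0, nat_lit 171049104, nat_lit 123865741, nat_lit 0, nat_lit 16, nat_lit 2, nat_lit 8, nat_lit 1, nat_lit 8, nat_lit 0, nat_lit 0, nat_lit 4325443, nat_lit 2787183714, nat_lit 0, nat_lit 2, nat_lit 1, nat_lit 16, nat_lit 4, nat_lit 2, nat_lit 0, nat_lit 0, nat_lit 157352003, nat_lit 122751762, nat_lit 0, nat_lit 8, nat_lit 4, nat_lit 1, nat_lit 2, nat_lit 8, nat_lit 0, nat_lit 0, nat_lit 11, nat_lit 8720065, nat_lit 0, nat_lit 4, nat_lit 1, nat_lit 16, nat_lit 2, nat_lit 4, nat_lit 0, nat_lit 0,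 nat_lit 136380427, nat_lit 200199, nat_lit 0, nat_lit 16, nat_lit 1, nat_lit 2, nat_lit 2, nat_lit 4, nat_lit 0, nat_lit 0, nat_lit 8454148, nat_lit 4018, nat_lit 0, nat_lit 2, nat_lit 1, nat_lit 4, nat_lit 8, nat_lit 4, nat_lit 0, nat_lit 0, nat_lit 2820734980, nat_lit 173084550, nat_lit 0, nat_lit 2, nat_lit 16, nat_lit 4, nat_lit 2, nat_lit 8, nat_lit 0, nat_lit 0, nat_lit 2790326275, nat_lit 104927303, nat_lit 0, nat_lit 8, nat_lit 16, nat_lit 1, nat_lit 8, nat_lit 2, nat_lit 0, nat_lit 0, nat_lit 11010051, nat_lit 9769027, nat_lit 0, nat_lit 16, nat_lit 1, nat_lit 8, nat_lit 4, nat_lit 2, nat_lit 0, nat_lit 0, nat_lit 1, nat_lit 5312799, nat_lit 0, nat_lit 1, nat_lit 8, nat_lit 4, nat_lit 4, nat_lit 2, nat_lit 0, nat_lit 0, nat_lit 139526145, nat_lit 2166988, nat_lit 0, nat_lit 4, nat_lit 2, nat_lit 16, nat_lit 4, nat_lit 8, nat_lit 0, nat_lit 0, nat_lit 0, nat_lit 173216060, nat_lit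 0, nat_lit 8, nat_lit 16, nat_lit 2, nat_lit 4, nat_lit 2, nat_lit 0, nat_lit 0, nat_lit 0, nat_lit 170987888, nat_lit 0, nat_lit 8, nat_lit 2, nat_lit 4, nat_lit 8, nat_lit 0, nat_lit 0, nat_lit 332156, nat_lit 0, nat_lit 1, nat_lit 16, nat_lit 4, nat_lit 0, nat_lit 0, nat_lit 10817927, nat_lit 0, nat_lit 16, nat_lit 8, nat_lit 0, nat_lit 4512])
    (by decide +kernel)

theorem Yv_14 : VOK [0, 1, 2, 4] 31 [12, 3, 3, 3] :=
  vok_pat (T := PaYT) (M := 4515) (f := 37) PaY_ok (by decide) (by decide) rfl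
    (tk := [nat_lit 1, nat_lit 1, nat_lit 0, nat_lit 8, nat_lit 16, nat_lit 157351939, nat_lit 6356995, nat_lit 2162690, nat_lit 11, nat_lit 10682515, nat_lit 0, nat_lit 8, nat_lit 16, nat_lit 157351939, nat_lit 6356995, nat_lit 2162690, nat_lit 11, nat_lit 2823880803, nat_lit 0, nat_lit 8, nat_lit 16, nat_lit 9633795, nat_lit 6356995, nat_lit 2162690, nat_lit 4, nat_lit 174129445, nat_lit 0, nat_lit 8, nat_lit 16, nat_lit 9633795, nat_lit 6356995, nat_lit 2162690, nat_lit 4, nat_lit 174129714, nat_lit 1, nat_lit 2, nat_lit 0, nat_lit 16, nat_lit 8, nat_lit 8, nat_lit 4, nat_lit 8716290, nat_lit 1966145539, nat_lit 2736848899, nat_lit 2, nat_lit 2, nat_lit 524308, nat_lit 0, nat_lit 16, nat_lit 8, nat_lit 2, nat_lit 1, nat_lit 157351939, nat_lit 6422530, nat_lit 2162690, nat_lit 11010051, nat_lit 2162690, nat_lit 102825995, nat_lit 0, nat_lit 16, nat_lit 8, nat_lit 2, nat_lit 4, nat_lit 8716290,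 nat_lit 6422530, nat_lit 2736848899, nat_lit 11010051, nat_lit 1, nat_lit 8716308, nat_lit 0, nat_lit 16, nat_lit 8, nat_lit 8, nat_lit 2, nat_lit 157351939, nat_lit 6422531, nat_lit 171048963, nat_lit 2, nat_lit 1, nat_lit 64, nat_lit 1, nat_lit 4, nat_lit 0, nat_lit 16, nat_lit 8, nat_lit 1, nat_lit 8, nat_lit 2, nat_lit 4, nat_lit 157351939, nat_lit 1966145539, nat_lit 2162690, nat_lit 2, nat_lit 0, nat_lit 139526145, nat_lit 6356998, nat_lit 0, nat_lit 16, nat_lit 8, nat_lit 8, nat_lit 2, nat_lit 4, nat_lit 1, nat_lit 157351939, nat_lit 6422531, nat_lit 171048963, nat_lit 2, nat_lit 0, nat_lit 65537, nat_lit 9961538, nat_lit 0, nat_lit 16, nat_lit 8, nat_lit 8, nat_lit 4, nat_lit 1, nat_lit 4, nat_lit 8716290, nat_lit 1966145539, nat_lit 2736848899, nat_lit 2, nat_lit 0, nat_lit 0, nat_lit 65542, nat_lit 0, nat_lit 16, nat_lit 8, nat_lit 4, nat_lit 1, nat_lit 2, nat_lit 8, nat_lit 139526147,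 nat_lit 122880003, nat_lit 2162690, nat_lit 11010051, nat_lit 0, nat_lit 0, nat_lit 393282, nat_lit 1, nat_lit 8, nat_lit 0, nat_lit 8, nat_lit 16, nat_lit 1, nat_lit 4, nat_lit 16, nat_lit 2, nat_lit 4, nat_lit 154206211, nat_lit 157351939, nat_lit 2162690, nat_lit 5, nat_lit 0, nat_lit 1, nat_lit 1, nat_lit 0, nat_lit 8, nat_lit 16, nat_lit 1, nat_lit 16, nat_lit 4, nat_lit 2, nat_lit 16, nat_lit 9633795, nat_lit 6356995, nat_lit 2162690, nat_lit 65829, nat_lit 0, nat_lit 1, nat_lit 2823880705, nat_lit 0, nat_lit 16, nat_lit 8, nat_lit 2, nat_lit 4, nat_lit 1, nat_lit 8, nat_lit 4, nat_lit 8716290, nat_lit 6422530, nat_lit 2736848899, nat_lit 11010051, nat_lit 0, nat_lit 0, nat_lit 327682, nat_lit 0, nat_lit 16, nat_lit 8, nat_lit 2, nat_lit 1, nat_lit 8, nat_lit 4, nat_lit 1, nat_lit 157351939, nat_lit 6422530, nat_lit 2162690, nat_lit 11010051, nat_lit 0, nat_lit 0, nat_lit 524299, nat_lit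 1, nat_lit 16, nat_lit 0, nat_lit 16, nat_lit 8, nat_lit 8, nat_lit 1, nat_lit 4, nat_lit 1, nat_lit 16, nat_lit 4, nat_lit 2823880707, nat_lit 157351939, nat_lit 2162690, nat_lit 131075, nat_lit 0, nat_lit 0, nat_lit 65537, nat_lit 0, nat_lit 16, nat_lit 8, nat_lit 1, nat_lit 8, nat_lit 2, nat_lit 4, nat_lit 8, nat_lit 2, nat_lit 154206211, nat_lit 157351939, nat_lit 2162690, nat_lit 174391362, nat_lit 0, nat_lit 0, nat_lit 1, nat_lit 1, nat_lit 32, nat_lit 0, nat_lit 8, nat_lit 16, nat_lit 16, nat_lit 4, nat_lit 2, nat_lit 4, nat_lit 1, nat_lit 8, nat_lit 4, nat_lit 9830403, nat_lit 6356995, nat_lit 52494339, nat_lit 4, nat_lit 0, nat_lit 0, nat_lit 0, nat_lit 0, nat_lit 16, nat_lit 8, nat_lit 2, nat_lit 4, nat_lit 1, nat_lit 4, nat_lit 8, nat_lit 4, nat_lit 2, nat_lit 8716290, nat_lit 6356995, nat_lit 2736848899, nat_lit 2823880708, nat_lit 0, nat_lit 0, nat_lit 0, nat_lit 0, nat_lit 16,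 nat_lit 8, nat_lit 2, nat_lit 8, nat_lit 1, nat_lit 8, nat_lit 16, nat_lit 4, nat_lit 176488450, nat_lit 6422530, nat_lit 2736848899, nat_lit 10878979, nat_lit 0, nat_lit 65537, nat_lit 0, nat_lit 16, nat_lit 8, nat_lit 8, nat_lit 4, nat_lit 8716290, nat_lit 1966145539, nat_lit 2736848899, nat_lit 2, nat_lit 0, nat_lit 64, nat_lit 0, nat_lit 16, nat_lit 8, nat_lit 4, nat_lit 8716290, nat_lit 1966145539, nat_lit 2736848899, nat_lit 2, nat_lit 6423301, nat_lit 0, nat_lit 8, nat_lit 16, nat_lit 9633795, nat_lit 6356995, nat_lit 2162690, nat_lit 2, nat_lit 174129714, nat_lit 0, nat_lit 16, nat_lit 8, nat_lit 157351939, nat_lit 6356995, nat_lit 2162690, nat_lit 1, nat_lit 526142, nat_lit 0, nat_lit 8, nat_lit 16, nat_lit 9633795, nat_lit 6356995, nat_lit 2162690, nat_lit 1, nat_lit 7670487, nat_lit 0, nat_lit 8, nat_lit 16, nat_lit 9633795, nat_lit 6356995, nat_lit 2162690, nat_lit 0, nat_lit 174196915,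 nat_lit 0, nat_lit 16, nat_lit 8, nat_lit 157351939, nat_lit 6356995, nat_lit 2162690, nat_lit 0, nat_lit 2165521, nat_lit 0, nat_lit 16, nat_lit 157351939, nat_lit 6356995, nat_lit 2162690, nat_lit 2784])
    (by decide +kernel)

theorem Yv_15 : VOK [0, 1, 2, 4] 31 [7, 3, 3, 8] :=
  vok_pat (T := PaYT) (M := 4515) (f := 26) PaY_ok (by decide) (by decide) rfl
    (tk := [nat_lit 4, nat_lit 1, nat_lit 0, nat_lit 2, nat_lit 8, nat_lit 176488450, nat_lit 9830404, nat_lit 2521890819, nat_lit 3211267, nat_lit 141885737, nat_lit 0, nat_lit 16, nat_lit 2, nat_lit 8716290, nat_lit 524292, nat_lit 2521890819, nat_lit 3211267, nat_lit 141689125, nat_lit 0, nat_lit 1, nat_lit 16, nat_lit 1, nat_lit 2552299540, nat_lit 174129155, nat_lit 136380418, nat_lit 176488936, nat_lit 0, nat_lit 16, nat_lit 1, nat_lit 139526145, nat_lit 524299, nat_lit 6356995, nat_lit 52494339, nat_lit 9569574, nat_lit 4, nat_lit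 2, nat_lit 0, nat_lit 16, nat_lit 1, nat_lit 2, nat_lit 8, nat_lit 0, nat_lit 1, nat_lit 524291, nat_lit 6356995, nat_lit 52494339, nat_lit 393780, nat_lit 0, nat_lit 8, nat_lit 2, nat_lit 16, nat_lit 2, nat_lit 0, nat_lit 1, nat_lit 2, nat_lit 157351939, nat_lit 2162690, nat_lit 1728, nat_lit 0, nat_lit 1, nat_lit 2, nat_lit 16, nat_lit 8, nat_lit 0, nat_lit 0, nat_lit 8454150, nat_lit 157351939, nat_lit 52494339, nat_lit 141623693, nat_lit 0, nat_lit 8, nat_lit 2, nat_lit 2, nat_lit 16, nat_lit 0, nat_lit 0, nat_lit 176488452, nat_lit 157351939, nat_lit 2162690, nat_lit 2552300547, nat_lit 4, nat_lit 4, nat_lit 0, nat_lit 16, nat_lit 2, nat_lit 2, nat_lit 8, nat_lit 1, nat_lit 0, nat_lit 65537, nat_lit 65537, nat_lit 157351939, nat_lit 2162690, nat_lit 157614863, nat_lit 0, nat_lit 8, nat_lit 1, nat_lit 1, nat_lit 16, nat_lit 2, nat_lit 0, nat_lit 5308417, nat_lit 1, nat_lit 1966145539,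 nat_lit 52494339, nat_lit 2468414774, nat_lit 0, nat_lit 1, nat_lit 2, nat_lit 8, nat_lit 16, nat_lit 2, nat_lit 0, nat_lit 0, nat_lit 2, nat_lit 157351939, nat_lit 52494339, nat_lit 132236, nat_lit 0, nat_lit 8, nat_lit 2, nat_lit 1, nat_lit 2, nat_lit 16, nat_lit 0, nat_lit 0, nat_lit 176488450, nat_lit 157351939, nat_lit 2162690, nat_lit 120718121, nat_lit 4, nat_lit 8, nat_lit 0, nat_lit 2, nat_lit 1, nat_lit 16, nat_lit 8, nat_lit 2, nat_lit 4, nat_lit 0, nat_lit 0, nat_lit 1, nat_lit 157351939, nat_lit 52494339, nat_lit 197104, nat_lit 0, nat_lit 8, nat_lit 2, nat_lit 16, nat_lit 2, nat_lit 16, nat_lit 8, nat_lit 0, nat_lit 0, nat_lit 1, nat_lit 157351939, nat_lit 2162690, nat_lit 1728, nat_lit 4, nat_lit 16, nat_lit 0, nat_lit 1, nat_lit 16, nat_lit 16, nat_lit 2, nat_lit 8, nat_lit 16, nat_lit 1, nat_lit 0, nat_lit 0, nat_lit 0, nat_lit 6356995, nat_lit 52494339, nat_lit 156304678,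 nat_lit 0, nat_lit 8, nat_lit 16, nat_lit 1, nat_lit 2, nat_lit 16, nat_lit 2, nat_lit 1, nat_lit 0, nat_lit 0, nat_lit 0, nat_lit 6356995, nat_lit 2162690, nat_lit 159516484, nat_lit 0, nat_lit 16, nat_lit 1, nat_lit 1, nat_lit 2, nat_lit 1, nat_lit 8, nat_lit 0, nat_lit 65537, nat_lit 6356995, nat_lit 52494339, nat_lit 393780, nat_lit 0, nat_lit 8, nat_lit 1, nat_lit 0, nat_lit 11010114, nat_lit 174129155, nat_lit 52494339, nat_lit 1679885347, nat_lit 0, nat_lit 8, nat_lit 10813831, nat_lit 327682, nat_lit 174194690, nat_lit 9961905])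
    (by decide +kernel)

theorem Yv_16 : VOK [0, 1, 2, 4] 31 [7, 3, 8, 3] :=
  vok_pat (T := PaYT) (M := 4515) (f := 26) PaY_ok (by decide) (by decide) rfl
    (tk := [nat_lit 3, nat_lit 1, nat_lit 0, nat_lit 4, nat_lit 16, nat_lit 157351939, nat_lit 393219, nat_lit 9830404, nat_lit 3211267, nat_lit 104989126, nat_lit 0, nat_lit 8, nat_lit 4, nat_lit 2521890819, nat_lit 176488450, nat_lit 174391300, nat_lit 87097347, nat_lit 157417765, nat_lit 0, nat_lit 16, nat_lit 4, nat_lit 157351939, nat_lit 139526145, nat_lit 327700, nat_lit 2162690, nat_lit 2518745381, nat_lit 0, nat_lit 1, nat_lit 16, nat_lit 136380418, nat_lit 1, nat_lit 1966145547, nat_lit 6422530, nat_lit 159516833, nat_lit 3, nat_lit 2, nat_lit 0, nat_lit 1, nat_lit 4, nat_lit 4, nat_lit 8, nat_lit 2521890819, nat_lit 0, nat_lit 2823880705, nat_lit 157351939, nat_lit 6422530, nat_lit 591391, nat_lit 0, nat_lit 4, nat_lit 16, nat_lit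 16, nat_lit 8, nat_lit 157351939, nat_lit 0, nat_lit 1, nat_lit 524291, nat_lit 2162690, nat_lit 7406884, nat_lit 0, nat_lit 16, nat_lit 4, nat_lit 8, nat_lit 4, nat_lit 2521890819, nat_lit 0, nat_lit 0, nat_lit 6, nat_lit 2162690, nat_lit 672, nat_lit 0, nat_lit 16, nat_lit 4, nat_lit 8, nat_lit 4, nat_lit 157351939, nat_lit 0, nat_lit 0, nat_lit 327684, nat_lit 2162690, nat_lit 1375, nat_lit 3, nat_lit 4, nat_lit 0, nat_lit 4, nat_lit 8, nat_lit 1, nat_lit 8, nat_lit 16, nat_lit 157351939, nat_lit 0, nat_lit 1, nat_lit 1, nat_lit 3211267, nat_lit 9962779, nat_lit 0, nat_lit 8, nat_lit 16, nat_lit 16, nat_lit 1, nat_lit 4, nat_lit 139526147, nat_lit 0, nat_lit 65537, nat_lit 65537, nat_lit 2162690, nat_lit 673, nat_lit 0, nat_lit 1, nat_lit 16, nat_lit 16, nat_lit 8, nat_lit 4, nat_lit 139526147, nat_lit 0, nat_lit 0, nat_lit 327683, nat_lit 3276803, nat_lit 156434834, nat_lit 0, nat_lit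 8, nat_lit 4, nat_lit 1, nat_lit 16, nat_lit 4, nat_lit 157351939, nat_lit 0, nat_lit 0, nat_lit 327683, nat_lit 2162690, nat_lit 656032, nat_lit 3, nat_lit 8, nat_lit 0, nat_lit 8, nat_lit 4, nat_lit 4, nat_lit 1, nat_lit 4, nat_lit 16, nat_lit 157351939, nat_lit 0, nat_lit 0, nat_lit 2823880705, nat_lit 2162690, nat_lit 198829, nat_lit 0, nat_lit 16, nat_lit 1, nat_lit 1, nat_lit 4, nat_lit 8, nat_lit 2, nat_lit 139526147, nat_lit 0, nat_lit 0, nat_lit 1, nat_lit 3276803, nat_lit 10814299, nat_lit 3, nat_lit 16, nat_lit 0, nat_lit 8, nat_lit 16, nat_lit 4, nat_lit 1, nat_lit 16, nat_lit 1, nat_lit 2, nat_lit 139526147, nat_lit 0, nat_lit 0, nat_lit 0, nat_lit 2162690, nat_lit 2552301114, nat_lit 0, nat_lit 16, nat_lit 4, nat_lit 1, nat_lit 4, nat_lit 8, nat_lit 2, nat_lit 4, nat_lit 157351939, nat_lit 0, nat_lit 0, nat_lit 0, nat_lit 2162690, nat_lit 120718913, nat_lit 0, nat_lit 8, nat_lit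 16, nat_lit 4, nat_lit 16, nat_lit 2, nat_lit 1, nat_lit 139526147, nat_lit 0, nat_lit 5308417, nat_lit 2162690, nat_lit 2790327214, nat_lit 0, nat_lit 1, nat_lit 16, nat_lit 2823880707, nat_lit 0, nat_lit 1966145602, nat_lit 6422530, nat_lit 518, nat_lit 0, nat_lit 1, nat_lit 2518745090, nat_lit 1985020295, nat_lit 6422530, nat_lit 5439886])
    (by decide +kernel)

theorem Yv_17 : VOK [0, 1, 2, 4] 31 [7, 8, 3, 3] :=
  vok_pat (T := PaYT) (M := 4515) (f := 26) PaY_ok (by decide) (by decide) rfl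
    (tk := [nat_lit 2, nat_lit 1, nat_lit 0, nat_lit 8, nat_lit 4, nat_lit 154271747, nat_lit 6422531, nat_lit 2820734978, nat_lit 2736848900, nat_lit 2503016741, nat_lit 0, nat_lit 8, nat_lit 2, nat_lit 176488450, nat_lit 6422530, nat_lit 174194690, nat_lit 2736848900, nat_lit 1966146382, nat_lit 0, nat_lit 2, nat_lit 4, nat_lit 157351939, nat_lit 174129155, nat_lit 2823880705, nat_lit 123863060, nat_lit 674, nat_lit 0, nat_lit 16, nat_lit 4, nat_lit 9633795, nat_lit 327682, nat_lit 139526145, nat_lit 52494347, nat_lit 138478351, nat_lit 2, nat_lit 2, nat_lit 0, nat_lit 16, nat_lit 8, nat_lit 2, nat_lit 8, nat_lit 8716290, nat_lit 327682, nat_lit 0, nat_lit 5308417, nat_lit 105971715, nat_lit 2235630131, nat_lit 0, nat_lit 8, nat_lit 4, nat_lit 4, nat_lit 2, nat_lit 2521890819, nat_lit 327682, nat_lit 0, nat_lit 2823880705, nat_lit 176226307, nat_lit 157614889, nat_lit 0, nat_lit 16, nat_lit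 2, nat_lit 4, nat_lit 2, nat_lit 8716290, nat_lit 105971715, nat_lit 0, nat_lit 0, nat_lit 139526150, nat_lit 2771452419, nat_lit 0, nat_lit 4, nat_lit 8, nat_lit 16, nat_lit 2, nat_lit 157351939, nat_lit 393219, nat_lit 0, nat_lit 0, nat_lit 136380420, nat_lit 591137, nat_lit 2, nat_lit 4, nat_lit 0, nat_lit 16, nat_lit 2, nat_lit 2, nat_lit 8, nat_lit 4, nat_lit 8716290, nat_lit 105971715, nat_lit 0, nat_lit 1, nat_lit 1, nat_lit 459584, nat_lit 0, nat_lit 4, nat_lit 16, nat_lit 16, nat_lit 2, nat_lit 8, nat_lit 157351939, nat_lit 327682, nat_lit 0, nat_lit 1, nat_lit 1, nat_lit 9570121, nat_lit 0, nat_lit 2, nat_lit 16, nat_lit 4, nat_lit 16, nat_lit 8, nat_lit 8716290, nat_lit 6356995, nat_lit 0, nat_lit 0, nat_lit 8716291, nat_lit 141886286, nat_lit 0, nat_lit 8, nat_lit 4, nat_lit 4, nat_lit 16, nat_lit 2, nat_lit 9633795, nat_lit 327682, nat_lit 0, nat_lit 0, nat_lit 2, nat_lit 2555447108,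 nat_lit 2, nat_lit 8, nat_lit 0, nat_lit 8, nat_lit 4, nat_lit 2, nat_lit 4, nat_lit 8, nat_lit 16, nat_lit 157351939, nat_lit 6422531, nat_lit 0, nat_lit 0, nat_lit 2823880705, nat_lit 159450395, nat_lit 0, nat_lit 2, nat_lit 8, nat_lit 16, nat_lit 8, nat_lit 4, nat_lit 16, nat_lit 9830403, nat_lit 105971715, nat_lit 0, nat_lit 0, nat_lit 1, nat_lit 104990267, nat_lit 2, nat_lit 16, nat_lit 0, nat_lit 2, nat_lit 4, nat_lit 8, nat_lit 16, nat_lit 4, nat_lit 16, nat_lit 8, nat_lit 157351939, nat_lit 105971715, nat_lit 0, nat_lit 0, nat_lit 0, nat_lit 9504287, nat_lit 0, nat_lit 4, nat_lit 8, nat_lit 2, nat_lit 8, nat_lit 16, nat_lit 1, nat_lit 8, nat_lit 157351939, nat_lit 393219, nat_lit 0, nat_lit 0, nat_lit 0, nat_lit 156305235, nat_lit 0, nat_lit 2, nat_lit 4, nat_lit 8, nat_lit 16, nat_lit 2, nat_lit 4, nat_lit 157351939, nat_lit 105971715, nat_lit 0, nat_lit 1, nat_lit 2503016892, nat_lit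 0, nat_lit 16, nat_lit 4, nat_lit 157351939, nat_lit 327682, nat_lit 0, nat_lit 52494402, nat_lit 9831209, nat_lit 0, nat_lit 4, nat_lit 2518745090, nat_lit 8716290, nat_lit 159449479, nat_lit 157418034])
    (by decide +kernel)


end Pt

end Pool.Agent.Work.MP_bf01b2_co.MR
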