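import Pool.Agent.Work.MP_bf01b2_co.MR.PaXV
import Pool.Agent.Work.MP_bf01b2_co.MR.PaYV

/-!
# Exceptional vectors of the classes
-/

namespace Pool.Agent.Work.MP_bf01b2_co.MR

namespace Pt

theorem VOK.w {zs vs : List ℕ} {x : ℕ} (h : VOK zs x vs) : VOK zs 32 vs := by
  intro k hk
  refine PF.weak (h k hk) ?_ ?_ ?_
  · intro v
    rw [rts_mkP, rts_mkP]
  · intro m hm
    obtain ⟨h1, h2⟩ := mem_mkP.1 hm
    refine ⟨⟨m.p, k m.p, {32}⟩, mem_mkP.2 ⟨h1, rfl⟩, rfl, ?_, ?_⟩
    · show k m.p ≤ m.k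
      rw [h2]
    · intro y hy hy'
      have h3 : y = 32 := hy'
      subst h3
      have h4 := FULL_tb.1 hy
      omega
  · intro m hm
    obtain ⟨h1, h2⟩ := mem_mkP.1 hm
    exact ⟨⟨m.p, k m.p, {x}⟩, mem_mkP.2 ⟨h1, rfl⟩, rfl⟩

theorem hm_w {zs vs : List ℕ} {m m' x : ℕ} (hx : x < 33) (hb : m.testBit x = true)
    (h : ∀ x < 33, m.testBit x = true → VOK zs x vs)
    (hm : ∀ x < 32, m'.testBit x = true → m.testBit x = true) :
    ∀ x < 33, m'.testBit x = true → VOK zs x vs := by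
  intro y hy hyb
  by_cases h1 : y = 32
  · subst h1
    exact (h x hx hb).w
  · exact h y hy (hm y (by omega) hyb)

theorem hm_l {zs vs : List ℕ} {m : ℕ} (L : List ℕ) (hL : ∀ x < 33, m.testBit x = true → x ∈ L)
    (h : ∀ x ∈ L, VOK zs x vs) : ∀ x < 33, m.testBit x = true → VOK zs x vs :=
  fun x hx hb => h x (hL x hx hb)

theorem Pa2_ex0 : ExOK [0, 1] [(2063, 3900867112), (3848, 3561046292)] :=
  (ExOK.cons (ExOK.cons (ExOK.nil _) (ws := [15, 8]) rfl (by decide) rfl
    Xv_1) (ws := [8, 15]) rfl (by decide) rfl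
    Xv_0)

theorem Pa2_ex1 : ExOK [0, 3] [(278, 2147483648), (2063, 8589934582), (3848, 8589934582), (5633, 268435456)] :=
  (ExOK.cons (ExOK.cons (ExOK.cons (ExOK.cons (ExOK.nil _) (ws := [22, 1]) rfl (by decide) rfl
    (hm_l [28] (by decide) (by
      intro x hx
      rw [List.mem_singleton] at hx
      subst hx
      exact Yv_1))) (ws := [15, 8]) rfl (by decide) rfl
    (hm_w (x := 1) (by norm_num) (by decide) Xv_3 (by decide))) (ws := [8, 15]) rfl (by decide) rfl
    (hm_w (x := 1) (by norm_num) (by decide) Xv_2 (by decide))) (ws := [1, 22]) rfl (by decide) rfl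
    (hm_l [31] (by decide) (by
      intro x hx
      rw [List.mem_singleton] at hx
      subst hx
      exact Yv_0)))

theorem Pa2_ex2 : ExOK [0, 7] [(2063, 3900735488), (3848, 385941760)] :=
  (ExOK.cons (ExOK.cons (ExOK.nil _) (ws := [15, 8]) rfl (by decide) rfl
    Xv_5) (ws := [8, 15]) rfl (by decide) rfl
    Xv_4)

theorem Pa2_ex3 : ExOK [0, 15] [(278, 3900768256), (1043, 2147483648), (2063, 8589901822), (3848, 8589901822), (4868, 65536), (5633, 2165768192)] :=
  (ExOK.cons (ExOK.cons (ExOK.cons (ExOK.cons (ExOK.cons (ExOK.cons (ExOK.nil _) (ws := [22, 1]) rfl (by decide) rfl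
    (hm_l [16, 17, 18, 20, 24, 31] (by decide) (by
      intro x hx
      simp only [List.mem_cons, List.not_mem_nil, or_false] at hx
      rcases hx with rfl | rfl | rfl | rfl | rfl | rfl
      · exact Yv_8
      · exact Yv_9
      · exact Yv_10
      · exact Yv_11
      · exact Yv_12
      · exact Yv_13))) (ws := [19, 4]) rfl (by decide) rfl
    Xv_9) (ws := [15, 8]) rfl (by decide) rfl
    (hm_w (x := 1) (by norm_num) (by decide) Xv_8 (by decide))) (ws := [8, 15]) rfl (by decide) rfl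
    (hm_w (x := 1) (by norm_num) (by decide) Xv_7 (by decide))) (ws := [4, 19]) rfl (by decide) rfl
    Xv_6) (ws := [1, 22]) rfl (by decide) rfl
    (hm_l [16, 23, 27, 29, 30, 31] (by decide) (by
      intro x hx
      simp only [List.mem_cons, List.not_mem_nil, or_false] at hx
      rcases hx with rfl | rfl | rfl | rfl | rfl | rfl
      · exact Yv_2
      · exact Yv_3
      · exact Yv_4
      · exact Yv_5
      · exact Yv_6
      · exact Yv_7)))

theorem Pa2_ex4 : ExOK [0, 31] [(1553, 65814), (2063, 1753251840), (3848, 65814), (4358, 1753251840)] :=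
  (ExOK.cons (ExOK.cons (ExOK.cons (ExOK.cons (ExOK.nil _) (ws := [17, 6]) rfl (by decide) rfl
    Xv_13) (ws := [15, 8]) rfl (by decide) rfl
    Xv_12) (ws := [8, 15]) rfl (by decide) rfl
    Xv_11) (ws := [6, 17]) rfl (by decide) rfl
    Xv_10)

theorem Pa3_ex1 : ExOK [0, 1, 6] [(658177, 16777216)] :=
  (ExOK.cons (ExOK.nil _) (ws := [10, 11, 1]) rfl (by decide) rfl
    Xv_14)

theorem Pa3_ex3 : ExOK [0, 1, 30] [(658177, 65812)] :=
  (ExOK.cons (ExOK.nil _) (ws := [10, 11, 1]) rfl (by decide) rfl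
    Xv_15)

theorem Pa3_ex5 : ExOK [0, 3, 12] [(852232, 458752), (854017, 17891328)] :=
  (ExOK.cons (ExOK.cons (ExOK.nil _) (ws := [13, 8, 1]) rfl (by decide) rfl
    Xv_17) (ws := [13, 1, 8]) rfl (by decide) rfl
    Xv_16)

theorem Pa4_ex1 : ExOK [0, 1, 2, 4] [(117637896, 2147483648), (117639171, 2147483648), (117965571, 2147483648), (151060746, 134217728), (151061511, 65792), (151062276, 65792), (151063041, 536870912), (151257351, 65792), (151258116, 65792), (151258881, 65792), (151453956, 65792), (151454721, 65792), (151650561, 1073741824), (201523971, 2147483648)] :=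
  (ExOK.cons (ExOK.cons (ExOK.cons (ExOK.cons (ExOK.cons (ExOK.cons (ExOK.cons (ExOK.cons (ExOK.cons (ExOK.cons (ExOK.cons (ExOK.cons (ExOK.cons (ExOK.cons (ExOK.nil _) (ws := [12, 3, 3, 3]) rfl (by decide) rfl
    (hm_l [31] (by decide) (by
      intro x hx
      rw [List.mem_singleton] at hx
      subst hx
      exact Yv_14))) (ws := [9, 10, 1, 1]) rfl (by decide) rfl
    Xv_27) (ws := [9, 7, 4, 1]) rfl (by decide) rfl
    Xv_26) (ws := [9, 7, 1, 4]) rfl (by decide) rfl
    Xv_25) (ws := [9, 4, 7, 1]) rfl (by decide) rfl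
    Xv_24) (ws := [9, 4, 4, 4]) rfl (by decide) rfl
    Xv_23) (ws := [9, 4, 1, 7]) rfl (by decide) rfl
    Xv_22) (ws := [9, 1, 10, 1]) rfl (by decide) rfl
    Xv_21) (ws := [9, 1, 7, 4]) rfl (by decide) rfl
    Xv_20) (ws := [9, 1, 4, 7]) rfl (by decide) rfl
    Xv_19) (ws := [9, 1, 1, 10]) rfl (by decide) rfl
    Xv_18) (ws := [7, 8, 3, 3]) rfl (by decide) rfl
    (hm_l [31] (by decide) (by
      intro x hx
      rw [List.mem_singleton] at hx
      subst hx
      exact Yv_17))) (ws := [7, 3, 8, 3]) rfl (by decide) rfl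
    (hm_l [31] (by decide) (by
      intro x hx
      rw [List.mem_singleton] at hx
      subst hx
      exact Yv_16))) (ws := [7, 3, 3, 8]) rfl (by decide) rfl
    (hm_l [31] (by decide) (by
      intro x hx
      rw [List.mem_singleton] at hx
      subst hx
      exact Yv_15)))

theorem Pa4_ex4 : ExOK [0, 1, 2, 12] [(117638406, 2147483648), (117703686, 2147483648), (117768966, 2147483648), (134415366, 2147483648), (134480646, 2147483648)] :=
  (ExOK.cons (ExOK.cons (ExOK.cons (ExOK.cons (ExOK.cons (ExOK.nil _) (ws := [8, 4, 3, 6]) rfl (by decide) rfl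
    Xv_32) (ws := [8, 3, 4, 6]) rfl (by decide) rfl
    Xv_31) (ws := [7, 5, 3, 6]) rfl (by decide) rfl
    Xv_30) (ws := [7, 4, 4, 6]) rfl (by decide) rfl
    Xv_29) (ws := [7, 3, 5, 6]) rfl (by decide) rfl
    Xv_28)

theorem Pa4_ex7 : ExOK [0, 1, 2, 28] [(151063041, 572530688), (151650561, 1145061376)] :=
  (ExOK.cons (ExOK.cons (ExOK.nil _) (ws := [9, 10, 1, 1]) rfl (by decide) rfl
    Xv_34) (ws := [9, 1, 10, 1]) rfl (by decide) rfl
    Xv_33)

theorem Pa4_ex15 : ExOK [0, 1, 6, 24] [(151650561, 8573157308)] :=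
  (ExOK.cons (ExOK.nil _) (ws := [9, 10, 1, 1]) rfl (by decide) rfl
    (hm_w (x := 2) (by norm_num) (by decide) Xv_35 (by decide)))


end Pt

end Pool.Agent.Work.MP_bf01b2_co.MR
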