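import Pool.Agent.Work.MP_bf01b2_co.MR.PfO
import Pool.Agent.Work.MP_bf01b2_co.MR.Pa1All
import Pool.Agent.Work.MP_bf01b2_co.MR.Pa2All
import Pool.Agent.Work.MP_bf01b2_co.MR.Pa3All
import Pool.Agent.Work.MP_bf01b2_co.MR.Pa4All
import Pool.Agent.Work.MP_bf01b2_co.MR.PaE
import Pool.Agent.Work.MP_bf01b2_co.MR.Pa2C0
import Pool.Agent.Work.MP_bf01b2_co.MR.Pa3C0
import Pool.Agent.Work.MP_bf01b2_co.MR.Pa3C1
import Pool.Agent.Work.MP_bf01b2_co.MR.Pa4C0
import Pool.Agent.Work.MP_bf01b2_co.MR.Pa4C1
import Pool.Agent.Work.MP_bf01b2_co.MR.Pa4C10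
import Pool.Agent.Work.MP_bf01b2_co.MR.Pa4C11
import Pool.Agent.Work.MP_bf01b2_co.MR.Pa4C2
import Pool.Agent.Work.MP_bf01b2_co.MR.Pa4C3
import Pool.Agent.Work.MP_bf01b2_co.MR.Pa4C4
import Pool.Agent.Work.MP_bf01b2_co.MR.Pa4C5
import Pool.Agent.Work.MP_bf01b2_co.MR.Pa4C6
import Pool.Agent.Work.MP_bf01b2_co.MR.Pa4C7
import Pool.Agent.Work.MP_bf01b2_co.MR.Pa4C8
import Pool.Agent.Work.MP_bf01b2_co.MR.Pa4C9

/-!
# The facts of `Q_5` with one soft position
-/

set_option maxRecDepth 100000

namespace Pool.Agent.Work.MP_bf01b2_co.MR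

namespace Pt

open Tab

/-- representatives -/
def paR2 : ℕ := nat_lit 0x8000000100008001000000810000000900000003

theorem pc2_0 : CP 1 (maskL [0, 1]) 23 :=
  CP.of_list (zs := [0, 1]) (by decide) (by decide) (Pa2_c0 Pa2_ok Pa2_ex0)

theorem pc2_1 : CP 1 (maskL [0, 3]) 23 :=
  CP.of_list (zs := [0, 3]) (by decide) (by decide) (Pa2_c1 Pa2_ok Pa2_ex1)

theorem pc2_2 : CP 1 (maskL [0, 7]) 23 :=
  CP.of_list (zs := [0, 7]) (by decide) (by decide) (Pa2_c2 Pa2_ok Pa2_ex2)

theorem pc2_3 : CP 1 (maskL [0, 15]) 23 :=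
  CP.of_list (zs := [0, 15]) (by decide) (by decide) (Pa2_c3 Pa2_ok Pa2_ex3)

theorem pc2_4 : CP 1 (maskL [0, 31]) 23 :=
  CP.of_list (zs := [0, 31]) (by decide) (by decide) (Pa2_c4 Pa2_ok Pa2_ex4)

theorem paR2_ok : ∀ i < 5, CP 1 (rep paR2 i) 23 := by
  intro i hi
  have e : ∀ i < 5, rep paR2 i = [maskL [0, 1], maskL [0, 3], maskL [0, 7], maskL [0, 15], maskL [0, 31]].getD i 0 := by decide +kernel
  rw [e i hi]
  interval_cases i
  · exact pc2_0
  · exact pc2_1
  · exact pc2_2
  · exact pc2_3
  · exact pc2_4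

/-- codes of all position sets -/
def paA2 : List ℕ :=
  [nat_lit 0, nat_lit 64, nat_lit 1, nat_lit 128, nat_lit 321, nat_lit 129, nat_lit 2, nat_lit 192, nat_lit 385, nat_lit 193, nat_lit 514, nat_lit 5313, nat_lit 386, nat_lit 194, nat_lit 3, nat_lit 256, nat_lit 449, nat_lit 257, nat_lit 578, nat_lit 5377, nat_lit 450, nat_lit 258, nat_lit 643, nat_lit 6401, nat_lit 8642, nat_lit 8450, nat_lit 579, nat_lit 6402, nat_lit 451, nat_lit 259, nat_lit 4]

theorem paA2_ok : all2 paR2 5 paA2 = true := by decide +kernel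

/-- representatives -/
def paR3 : ℕ := nat_lit 0x2000081200000091000000900002009000010090000002940000003000040030000004300000007

theorem pc3_0 : CP 1 (maskL [0, 1, 2]) 22 :=
  CP.of_list (zs := [0, 1, 2]) (by decide) (by decide) (Pa3_c0 Pa3_ok (ExOK.nil _))

theorem pc3_1 : CP 1 (maskL [0, 1, 6]) 22 :=
  CP.of_list (zs := [0, 1, 6]) (by decide) (by decide) (Pa3_c1 Pa3_ok Pa3_ex1)

theorem pc3_2 : CP 1 (maskL [0, 1, 14]) 22 :=
  CP.of_list (zs := [0, 1, 14]) (by decide) (by decide) (Pa3_c2 Pa3_ok (ExOK.nil _))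

theorem pc3_3 : CP 1 (maskL [0, 1, 30]) 22 :=
  CP.of_list (zs := [0, 1, 30]) (by decide) (by decide) (Pa3_c3 Pa3_ok Pa3_ex3)

theorem pc3_4 : CP 1 (maskL [0, 3, 5]) 22 :=
  CP.of_list (zs := [0, 3, 5]) (by decide) (by decide) (Pa3_c4 Pa3_ok (ExOK.nil _))

theorem pc3_5 : CP 1 (maskL [0, 3, 12]) 22 :=
  CP.of_list (zs := [0, 3, 12]) (by decide) (by decide) (Pa3_c5 Pa3_ok Pa3_ex5)

theorem pc3_6 : CP 1 (maskL [0, 3, 13]) 22 :=
  CP.of_list (zs := [0, 3, 13]) (by decide) (by decide) (Pa3_c6 Pa3_ok (ExOK.nil _))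

theorem pc3_7 : CP 1 (maskL [0, 3, 28]) 22 :=
  CP.of_list (zs := [0, 3, 28]) (by decide) (by decide) (Pa3_c7 Pa3_ok (ExOK.nil _))

theorem pc3_8 : CP 1 (maskL [0, 3, 29]) 22 :=
  CP.of_list (zs := [0, 3, 29]) (by decide) (by decide) (Pa3_c8 Pa3_ok (ExOK.nil _))

theorem pc3_9 : CP 1 (maskL [0, 7, 25]) 22 :=
  CP.of_list (zs := [0, 7, 25]) (by decide) (by decide) (Pa3_c9 Pa3_ok (ExOK.nil _))

theorem paR3_ok : ∀ i < 10, CP 1 (rep paR3 i) 22 := by
  intro i hi
  have e : ∀ i < 10, rep paR3 i = [maskL [0, 1, 2], maskL [0, 1, 6], maskL [0, 1, 14], maskL [0, 1, 30], maskL [0, 3, 5], maskL [0, 3, 12], maskL [0, 3, 13], maskL [0, 3, 28], maskL [0, 3, 29], maskL [0, 7, 25]].getD i 0 := by decide +kernel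
  rw [e i hi]
  interval_cases i
  · exact pc3_0
  · exact pc3_1
  · exact pc3_2
  · exact pc3_3
  · exact pc3_4
  · exact pc3_5
  · exact pc3_6
  · exact pc3_7
  · exact pc3_8
  · exact pc3_9

/-- codes of all position sets -/
def paA3 : List (List ℕ) :=
  [[nat_lit 0, nat_lit 4194304, nat_lit 320, nat_lit 4194624, nat_lit 1, nat_lit 4194305, nat_lit 384, nat_lit 4194688, nat_lit 513, nat_lit 4194817, nat_lit 385, nat_lit 4194689, nat_lit 2, nat_lit 4194306, nat_lit 448, nat_lit 4194752, nat_lit 577, nat_lit 4194881, nat_lit 449, nat_lit 4194753, nat_lit 642, nat_lit 4194946, nat_lit 8641, nat_lit 4202945, nat_lit 578, nat_lit 4194882, nat_lit 450, nat_lit 4194754, nat_lit 3, nat_lit 4194307],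
   [nat_lit 8388608, nat_lit 128, nat_lit 65, nat_lit 8388736, nat_lit 8388673, nat_lit 192, nat_lit 8257, nat_lit 8388800, nat_lit 8396865, nat_lit 3137, nat_lit 66, nat_lit 8391745, nat_lit 8388674, nat_lit 256, nat_lit 9281, nat_lit 8388864, nat_lit 8397889, nat_lit 4161, nat_lit 10306, nat_lit 8392769, nat_lit 8398914, nat_lit 135233, nat_lit 9282, nat_lit 8523841, nat_lit 8397890, nat_lit 4162, nat_lit 67, nat_lit 8392770, nat_lit 8388675],
   [nat_lit 129, nat_lit 4, nat_lit 68, nat_lit 12583041, nat_lit 8321, nat_lit 516, nat_lit 8260, nat_lit 12591233, nat_lit 5, nat_lit 6, nat_lit 70, nat_lit 12582917, nat_lit 9345, nat_lit 580, nat_lit 9284, nat_lit 12592257, nat_lit 645, nat_lit 646, nat_lit 10310, nat_lit 12583557, nat_lit 581, nat_lit 582, nat_lit 9286, nat_lit 12583493, nat_lit 7, nat_lit 8, nat_lit 72, nat_lit 12582919],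
   [nat_lit 16777536, nat_lit 16777344, nat_lit 16777345, nat_lit 5312, nat_lit 6273, nat_lit 3201, nat_lit 130, nat_lit 16782528, nat_lit 16783489, nat_lit 16780417, nat_lit 16777346, nat_lit 5376, nat_lit 7297, nat_lit 4225, nat_lit 10370, nat_lit 16782592, nat_lit 16784513, nat_lit 16781441, nat_lit 16787586, nat_lit 102529, nat_lit 7298, nat_lit 4226, nat_lit 131, nat_lit 16879745, nat_lit 16784514, nat_lit 16781442, nat_lit 16777347],
   [nat_lit 132, nat_lit 20971585, nat_lit 6209, nat_lit 388, nat_lit 197, nat_lit 326, nat_lit 6276, nat_lit 20977729, nat_lit 5190, nat_lit 20971717, nat_lit 7233, nat_lit 452, nat_lit 10437, nat_lit 10566, nat_lit 7300, nat_lit 20978753, nat_lit 169030, nat_lit 20981957, nat_lit 7365, nat_lit 7494, nat_lit 327, nat_lit 328, nat_lit 119878, nat_lit 20978885, nat_lit 5192, nat_lit 20971847],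
   [nat_lit 25165825, nat_lit 193, nat_lit 133, nat_lit 3140, nat_lit 2118, nat_lit 3204, nat_lit 134, nat_lit 25166017, nat_lit 25165957, nat_lit 257, nat_lit 10373, nat_lit 4164, nat_lit 165958, nat_lit 4228, nat_lit 10374, nat_lit 25166081, nat_lit 25176197, nat_lit 4229, nat_lit 135, nat_lit 67654, nat_lit 2120, nat_lit 4230, nat_lit 136, nat_lit 25170053, nat_lit 25165959],
   [nat_lit 194, nat_lit 390, nat_lit 3142, nat_lit 29366406, nat_lit 6278, nat_lit 29363270, nat_lit 29360518, nat_lit 29360322, nat_lit 10434, nat_lit 10630, nat_lit 166982, nat_lit 29530246, nat_lit 170118, nat_lit 29527110, nat_lit 29370758, nat_lit 29370562, nat_lit 6407, nat_lit 9, nat_lit 73, nat_lit 29360265, nat_lit 137, nat_lit 29360201, nat_lit 29360137, nat_lit 29366535],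
   [nat_lit 33554816, nat_lit 33554624, nat_lit 33562753, nat_lit 33559744, nat_lit 33560641, nat_lit 33554625, nat_lit 33554626, nat_lit 6400, nat_lit 138369, nat_lit 9409, nat_lit 9410, nat_lit 7361, nat_lit 7362, nat_lit 4290, nat_lit 195, nat_lit 33560832, nat_lit 33692801, nat_lit 33563841, nat_lit 33563842, nat_lit 33561793, nat_lit 33561794, nat_lit 33558722, nat_lit 33554627],
   [nat_lit 8324, nat_lit 37756993, nat_lit 6212, nat_lit 37755009, nat_lit 6214, nat_lit 37748869, nat_lit 138305, nat_lit 8644, nat_lit 9349, nat_lit 9606, nat_lit 7301, nat_lit 7558, nat_lit 391, nat_lit 392, nat_lit 138372, nat_lit 37887041, nat_lit 153670, nat_lit 37758085, nat_lit 120902, nat_lit 37756037, nat_lit 6216, nat_lit 37749127],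
   [nat_lit 41943553, nat_lit 196, nat_lit 198, nat_lit 41946241, nat_lit 41943237, nat_lit 8449, nat_lit 9413, nat_lit 135236, nat_lit 150598, nat_lit 4293, nat_lit 199, nat_lit 68678, nat_lit 3144, nat_lit 9412, nat_lit 9414, nat_lit 41951489, nat_lit 41952453, nat_lit 4294, nat_lit 200, nat_lit 41947333, nat_lit 41943239],
   [nat_lit 5318, nat_lit 46139462, nat_lit 46137670, nat_lit 46137474, nat_lit 9346, nat_lit 9542, nat_lit 149574, nat_lit 46290118, nat_lit 5383, nat_lit 457, nat_lit 4169, nat_lit 46144713, nat_lit 152774, nat_lit 46286918, nat_lit 46146886, nat_lit 46146690, nat_lit 7369, nat_lit 46141513, nat_lit 46137801, nat_lit 46142727],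
   [nat_lit 50332033, nat_lit 50334785, nat_lit 50331653, nat_lit 6401, nat_lit 453, nat_lit 261, nat_lit 5319, nat_lit 102532, nat_lit 120966, nat_lit 102534, nat_lit 6280, nat_lit 7364, nat_lit 120006, nat_lit 86214, nat_lit 5320, nat_lit 50338049, nat_lit 50332101, nat_lit 50331909, nat_lit 50336967],
   [nat_lit 54525958, nat_lit 54526018, nat_lit 7234, nat_lit 454, nat_lit 263, nat_lit 393, nat_lit 7302, nat_lit 54533318, nat_lit 4233, nat_lit 54532169, nat_lit 7366, nat_lit 54533254, nat_lit 6217, nat_lit 54530185, nat_lit 54526406, nat_lit 54533186, nat_lit 54526345, nat_lit 54526215],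
   [nat_lit 58720258, nat_lit 258, nat_lit 455, nat_lit 4166, nat_lit 3145, nat_lit 86086, nat_lit 3209, nat_lit 58822726, nat_lit 58720457, nat_lit 102470, nat_lit 201, nat_lit 58806342, nat_lit 58723465, nat_lit 58724422, nat_lit 58723401, nat_lit 58720514, nat_lit 58720711],
   [nat_lit 259, nat_lit 456, nat_lit 4168, nat_lit 79698185, nat_lit 7304, nat_lit 88087625, nat_lit 92274953, nat_lit 62921928, nat_lit 7368, nat_lit 104857865, nat_lit 109059145, nat_lit 62921864, nat_lit 117446921, nat_lit 62918728, nat_lit 62915016, nat_lit 62914819],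
   [nat_lit 67109312, nat_lit 67109120, nat_lit 67118209, nat_lit 67114240, nat_lit 67116097, nat_lit 67109121, nat_lit 67119298, nat_lit 67115264, nat_lit 67247169, nat_lit 67117313, nat_lit 67118210, nat_lit 67115265, nat_lit 67116098, nat_lit 67109122, nat_lit 67109123],
   [nat_lit 9348, nat_lit 71312449, nat_lit 7236, nat_lit 71310465, nat_lit 170054, nat_lit 71313541, nat_lit 138308, nat_lit 71441537, nat_lit 152646, nat_lit 71312581, nat_lit 7238, nat_lit 71303621, nat_lit 7240, nat_lit 71303623],
   [nat_lit 75498049, nat_lit 260, nat_lit 10438, nat_lit 75501697, nat_lit 75507909, nat_lit 8452, nat_lit 9350, nat_lit 75506881, nat_lit 75506821, nat_lit 262, nat_lit 264, nat_lit 75497733, nat_lit 75497735],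
   [nat_lit 169158, nat_lit 79857734, nat_lit 79702342, nat_lit 79702146, nat_lit 153734, nat_lit 79842374, nat_lit 79701382, nat_lit 79701186, nat_lit 6409, nat_lit 79694921, nat_lit 79692169, nat_lit 79697095],
   [nat_lit 83886529, nat_lit 83890241, nat_lit 83886725, nat_lit 6404, nat_lit 116806, nat_lit 5382, nat_lit 5384, nat_lit 83893441, nat_lit 83893381, nat_lit 83890373, nat_lit 83891463],
   [nat_lit 88081030, nat_lit 88090690, nat_lit 117830, nat_lit 88201350, nat_lit 7241, nat_lit 88083593, nat_lit 88087942, nat_lit 88087746, nat_lit 88080841, nat_lit 88080583],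
   [nat_lit 92275330, nat_lit 6406, nat_lit 265, nat_lit 92377222, nat_lit 92278921, nat_lit 92343366, nat_lit 92278857, nat_lit 92278978, nat_lit 92275079],
   [nat_lit 6408, nat_lit 104857801, nat_lit 109058121, nat_lit 96475272, nat_lit 117447881, nat_lit 96472136, nat_lit 96469384, nat_lit 96469187],
   [nat_lit 100671937, nat_lit 100798529, nat_lit 100663877, nat_lit 100765825, nat_lit 100670661, nat_lit 100667525, nat_lit 100669703],
   [nat_lit 104858182, nat_lit 104866882, nat_lit 104865094, nat_lit 104864898, nat_lit 104857609, nat_lit 104857735],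
   [nat_lit 109052482, nat_lit 109119558, nat_lit 109051977, nat_lit 109056130, nat_lit 109052231],
   [nat_lit 117440649, nat_lit 113248328, nat_lit 113246536, nat_lit 113246339],
   [nat_lit 117440962, nat_lit 117444674, nat_lit 117440519],
   [nat_lit 121634824, nat_lit 121634883],
   [nat_lit 125829123],
   []]

theorem paA3_ok : all3 paR3 10 paA3 = true := by decide +kernel

/-- representatives -/
def paR4 : ℕ := nat_lit 0x4200008160000009900000094000200910002009004020090020200900006009800010090080100900201009000090094000002904000029020000290100002900004029000004290000022900000069c0000003800040034000400300804003004040030000c00380000043400000430800004304000043020000430100004300008043000040430000084300000443000000c38000000720000007100000070000800700002007000010070000008700000027000000170000000f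

theorem pc4_0 : CP 1 (maskL [0, 1, 2, 3]) 21 :=
  CP.of_list (zs := [0, 1, 2, 3]) (by decide) (by decide) (Pa4_c0 Pa4_ok (ExOK.nil _))

theorem pc4_1 : CP 1 (maskL [0, 1, 2, 4]) 21 :=
  CP.of_list (zs := [0, 1, 2, 4]) (by decide) (by decide) (Pa4_c1 Pa4_ok Pa4_ex1)

theorem pc4_2 : CP 1 (maskL [0, 1, 2, 5]) 21 :=
  CP.of_list (zs := [0, 1, 2, 5]) (by decide) (by decide) (Pa4_c2 Pa4_ok (ExOK.nil _))

theorem pc4_3 : CP 1 (maskL [0, 1, 2, 7]) 21 :=
  CP.of_list (zs := [0, 1, 2, 7]) (by decide) (by decide) (Pa4_c3 Pa4_ok (ExOK.nil _))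

theorem pc4_4 : CP 1 (maskL [0, 1, 2, 12]) 21 :=
  CP.of_list (zs := [0, 1, 2, 12]) (by decide) (by decide) (Pa4_c4 Pa4_ok Pa4_ex4)

theorem pc4_5 : CP 1 (maskL [0, 1, 2, 13]) 21 :=
  CP.of_list (zs := [0, 1, 2, 13]) (by decide) (by decide) (Pa4_c5 Pa4_ok (ExOK.nil _))

theorem pc4_6 : CP 1 (maskL [0, 1, 2, 15]) 21 :=
  CP.of_list (zs := [0, 1, 2, 15]) (by decide) (by decide) (Pa4_c6 Pa4_ok (ExOK.nil _))

theorem pc4_7 : CP 1 (maskL [0, 1, 2, 28]) 21 :=
  CP.of_list (zs := [0, 1, 2, 28]) (by decide) (by decide) (Pa4_c7 Pa4_ok Pa4_ex7)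

theorem pc4_8 : CP 1 (maskL [0, 1, 2, 29]) 21 :=
  CP.of_list (zs := [0, 1, 2, 29]) (by decide) (by decide) (Pa4_c8 Pa4_ok (ExOK.nil _))

theorem pc4_9 : CP 1 (maskL [0, 1, 2, 31]) 21 :=
  CP.of_list (zs := [0, 1, 2, 31]) (by decide) (by decide) (Pa4_c9 Pa4_ok (ExOK.nil _))

theorem pc4_10 : CP 1 (maskL [0, 1, 6, 7]) 21 :=
  CP.of_list (zs := [0, 1, 6, 7]) (by decide) (by decide) (Pa4_c10 Pa4_ok (ExOK.nil _))

theorem pc4_11 : CP 1 (maskL [0, 1, 6, 10]) 21 :=
  CP.of_list (zs := [0, 1, 6, 10]) (by decide) (by decide) (Pa4_c11 Pa4_ok (ExOK.nil _))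

theorem pc4_12 : CP 1 (maskL [0, 1, 6, 11]) 21 :=
  CP.of_list (zs := [0, 1, 6, 11]) (by decide) (by decide) (Pa4_c12 Pa4_ok (ExOK.nil _))

theorem pc4_13 : CP 1 (maskL [0, 1, 6, 14]) 21 :=
  CP.of_list (zs := [0, 1, 6, 14]) (by decide) (by decide) (Pa4_c13 Pa4_ok (ExOK.nil _))

theorem pc4_14 : CP 1 (maskL [0, 1, 6, 15]) 21 :=
  CP.of_list (zs := [0, 1, 6, 15]) (by decide) (by decide) (Pa4_c14 Pa4_ok (ExOK.nil _))

theorem pc4_15 : CP 1 (maskL [0, 1, 6, 24]) 21 :=
  CP.of_list (zs := [0, 1, 6, 24]) (by decide) (by decide) (Pa4_c15 Pa4_ok Pa4_ex15)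

theorem pc4_16 : CP 1 (maskL [0, 1, 6, 25]) 21 :=
  CP.of_list (zs := [0, 1, 6, 25]) (by decide) (by decide) (Pa4_c16 Pa4_ok (ExOK.nil _))

theorem pc4_17 : CP 1 (maskL [0, 1, 6, 26]) 21 :=
  CP.of_list (zs := [0, 1, 6, 26]) (by decide) (by decide) (Pa4_c17 Pa4_ok (ExOK.nil _))

theorem pc4_18 : CP 1 (maskL [0, 1, 6, 27]) 21 :=
  CP.of_list (zs := [0, 1, 6, 27]) (by decide) (by decide) (Pa4_c18 Pa4_ok (ExOK.nil _))

theorem pc4_19 : CP 1 (maskL [0, 1, 6, 30]) 21 :=
  CP.of_list (zs := [0, 1, 6, 30]) (by decide) (by decide) (Pa4_c19 Pa4_ok (ExOK.nil _))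

theorem pc4_20 : CP 1 (maskL [0, 1, 6, 31]) 21 :=
  CP.of_list (zs := [0, 1, 6, 31]) (by decide) (by decide) (Pa4_c20 Pa4_ok (ExOK.nil _))

theorem pc4_21 : CP 1 (maskL [0, 1, 14, 15]) 21 :=
  CP.of_list (zs := [0, 1, 14, 15]) (by decide) (by decide) (Pa4_c21 Pa4_ok (ExOK.nil _))

theorem pc4_22 : CP 1 (maskL [0, 1, 14, 22]) 21 :=
  CP.of_list (zs := [0, 1, 14, 22]) (by decide) (by decide) (Pa4_c22 Pa4_ok (ExOK.nil _))

theorem pc4_23 : CP 1 (maskL [0, 1, 14, 23]) 21 :=
  CP.of_list (zs := [0, 1, 14, 23]) (by decide) (by decide) (Pa4_c23 Pa4_ok (ExOK.nil _))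

theorem pc4_24 : CP 1 (maskL [0, 1, 14, 30]) 21 :=
  CP.of_list (zs := [0, 1, 14, 30]) (by decide) (by decide) (Pa4_c24 Pa4_ok (ExOK.nil _))

theorem pc4_25 : CP 1 (maskL [0, 1, 14, 31]) 21 :=
  CP.of_list (zs := [0, 1, 14, 31]) (by decide) (by decide) (Pa4_c25 Pa4_ok (ExOK.nil _))

theorem pc4_26 : CP 1 (maskL [0, 1, 30, 31]) 21 :=
  CP.of_list (zs := [0, 1, 30, 31]) (by decide) (by decide) (Pa4_c26 Pa4_ok (ExOK.nil _))

theorem pc4_27 : CP 1 (maskL [0, 3, 5, 6]) 21 :=
  CP.of_list (zs := [0, 3, 5, 6]) (by decide) (by decide) (Pa4_c27 Pa4_ok (ExOK.nil _))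

theorem pc4_28 : CP 1 (maskL [0, 3, 5, 9]) 21 :=
  CP.of_list (zs := [0, 3, 5, 9]) (by decide) (by decide) (Pa4_c28 Pa4_ok (ExOK.nil _))

theorem pc4_29 : CP 1 (maskL [0, 3, 5, 10]) 21 :=
  CP.of_list (zs := [0, 3, 5, 10]) (by decide) (by decide) (Pa4_c29 Pa4_ok (ExOK.nil _))

theorem pc4_30 : CP 1 (maskL [0, 3, 5, 14]) 21 :=
  CP.of_list (zs := [0, 3, 5, 14]) (by decide) (by decide) (Pa4_c30 Pa4_ok (ExOK.nil _))

theorem pc4_31 : CP 1 (maskL [0, 3, 5, 24]) 21 :=
  CP.of_list (zs := [0, 3, 5, 24]) (by decide) (by decide) (Pa4_c31 Pa4_ok (ExOK.nil _))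

theorem pc4_32 : CP 1 (maskL [0, 3, 5, 25]) 21 :=
  CP.of_list (zs := [0, 3, 5, 25]) (by decide) (by decide) (Pa4_c32 Pa4_ok (ExOK.nil _))

theorem pc4_33 : CP 1 (maskL [0, 3, 5, 26]) 21 :=
  CP.of_list (zs := [0, 3, 5, 26]) (by decide) (by decide) (Pa4_c33 Pa4_ok (ExOK.nil _))

theorem pc4_34 : CP 1 (maskL [0, 3, 5, 30]) 21 :=
  CP.of_list (zs := [0, 3, 5, 30]) (by decide) (by decide) (Pa4_c34 Pa4_ok (ExOK.nil _))

theorem pc4_35 : CP 1 (maskL [0, 3, 12, 15]) 21 :=
  CP.of_list (zs := [0, 3, 12, 15]) (by decide) (by decide) (Pa4_c35 Pa4_ok (ExOK.nil _))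

theorem pc4_36 : CP 1 (maskL [0, 3, 12, 21]) 21 :=
  CP.of_list (zs := [0, 3, 12, 21]) (by decide) (by decide) (Pa4_c36 Pa4_ok (ExOK.nil _))

theorem pc4_37 : CP 1 (maskL [0, 3, 12, 23]) 21 :=
  CP.of_list (zs := [0, 3, 12, 23]) (by decide) (by decide) (Pa4_c37 Pa4_ok (ExOK.nil _))

theorem pc4_38 : CP 1 (maskL [0, 3, 12, 31]) 21 :=
  CP.of_list (zs := [0, 3, 12, 31]) (by decide) (by decide) (Pa4_c38 Pa4_ok (ExOK.nil _))

theorem pc4_39 : CP 1 (maskL [0, 3, 13, 14]) 21 :=
  CP.of_list (zs := [0, 3, 13, 14]) (by decide) (by decide) (Pa4_c39 Pa4_ok (ExOK.nil _))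

theorem pc4_40 : CP 1 (maskL [0, 3, 13, 21]) 21 :=
  CP.of_list (zs := [0, 3, 13, 21]) (by decide) (by decide) (Pa4_c40 Pa4_ok (ExOK.nil _))

theorem pc4_41 : CP 1 (maskL [0, 3, 13, 22]) 21 :=
  CP.of_list (zs := [0, 3, 13, 22]) (by decide) (by decide) (Pa4_c41 Pa4_ok (ExOK.nil _))

theorem pc4_42 : CP 1 (maskL [0, 3, 13, 28]) 21 :=
  CP.of_list (zs := [0, 3, 13, 28]) (by decide) (by decide) (Pa4_c42 Pa4_ok (ExOK.nil _))

theorem pc4_43 : CP 1 (maskL [0, 3, 13, 30]) 21 :=
  CP.of_list (zs := [0, 3, 13, 30]) (by decide) (by decide) (Pa4_c43 Pa4_ok (ExOK.nil _))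

theorem pc4_44 : CP 1 (maskL [0, 3, 28, 31]) 21 :=
  CP.of_list (zs := [0, 3, 28, 31]) (by decide) (by decide) (Pa4_c44 Pa4_ok (ExOK.nil _))

theorem pc4_45 : CP 1 (maskL [0, 3, 29, 30]) 21 :=
  CP.of_list (zs := [0, 3, 29, 30]) (by decide) (by decide) (Pa4_c45 Pa4_ok (ExOK.nil _))

theorem pc4_46 : CP 1 (maskL [0, 7, 25, 30]) 21 :=
  CP.of_list (zs := [0, 7, 25, 30]) (by decide) (by decide) (Pa4_c46 Pa4_ok (ExOK.nil _))

theorem paR4_ok : ∀ i < 47, CP 1 (rep paR4 i) 21 := by
  intro i hi
  have e : ∀ i < 47, rep paR4 i = [maskL [0, 1, 2, 3], maskL [0, 1, 2, 4], maskL [0, 1, 2, 5], maskL [0, 1, 2, 7], maskL [0, 1, 2, 12], maskL [0, 1, 2, 13], maskL [0, 1, 2, 15], maskL [0, 1, 2, 28], maskL [0, 1, 2, 29], maskL [0, 1, 2, 31], maskL [0, 1, 6, 7], maskL [0, 1, 6, 10], maskL [0, 1, 6, 11], maskL [0, 1, 6, 14], maskL [0, 1, 6, 15], maskL [0, 1, 6, 24], maskL [0, 1, 6, 25], maskL [0, 1, 6, 26], maskL [0, 1, 6, 27], maskL [0, 1, 6, 30], maskL [0, 1, 6, 31], maskL [0, 1, 14, 15], maskL [0, 1, 14, 22], maskL [0, 1,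 14, 23], maskL [0, 1, 14, 30], maskL [0, 1, 14, 31], maskL [0, 1, 30, 31], maskL [0, 3, 5, 6], maskL [0, 3, 5, 9], maskL [0, 3, 5, 10], maskL [0, 3, 5, 14], maskL [0, 3, 5, 24], maskL [0, 3, 5, 25], maskL [0, 3, 5, 26], maskL [0, 3, 5, 30], maskL [0, 3, 12, 15], maskL [0, 3, 12, 21], maskL [0, 3, 12, 23], maskL [0, 3, 12, 31], maskL [0, 3, 13, 14], maskL [0, 3, 13, 21], maskL [0, 3, 13, 22], maskL [0, 3, 13, 28], maskL [0, 3, 13, 30], maskL [0, 3, 28, 31], maskL [0, 3, 29, 30], maskL [0, 7, 25, 30]].getD i 0 := by decide +kernel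
  rw [e i hi]
  interval_cases i
  · exact pc4_0
  · exact pc4_1
  · exact pc4_2
  · exact pc4_3
  · exact pc4_4
  · exact pc4_5
  · exact pc4_6
  · exact pc4_7
  · exact pc4_8
  · exact pc4_9
  · exact pc4_10
  · exact pc4_11
  · exact pc4_12
  · exact pc4_13
  · exact pc4_14
  · exact pc4_15
  · exact pc4_16
  · exact pc4_17
  · exact pc4_18
  · exact pc4_19
  · exact pc4_20
  · exact pc4_21
  · exact pc4_22
  · exact pc4_23
  · exact pc4_24
  · exact pc4_25
  · exact pc4_26
  · exact pc4_27
  · exact pc4_28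
  · exact pc4_29
  · exact pc4_30
  · exact pc4_31
  · exact pc4_32
  · exact pc4_33
  · exact pc4_34
  · exact pc4_35
  · exact pc4_36
  · exact pc4_37
  · exact pc4_38
  · exact pc4_39
  · exact pc4_40
  · exact pc4_41
  · exact pc4_42
  · exact pc4_43
  · exact pc4_44
  · exact pc4_45
  · exact pc4_46

/-- codes of all position sets -/
def paA4 : List (List (List ℕ)) :=
  [[[nat_lit 0, nat_lit 1, nat_lit 2, nat_lit 66, nat_lit 3, nat_lit 513, nat_lit 514, nat_lit 8258, nat_lit 515, nat_lit 4, nat_lit 5, nat_lit 69, nat_lit 6, nat_lit 577, nat_lit 578, nat_lit 9282, nat_lit 579, nat_lit 644, nat_lit 645, nat_lit 10309, nat_lit 646, nat_lit 580, nat_lit 581, nat_lit 9285, nat_lit 582, nat_lit 7, nat_lit 8, nat_lit 72, nat_lit 9],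
    [nat_lit 322, nat_lit 4194305, nat_lit 4194307, nat_lit 4194370, nat_lit 8514, nat_lit 4194817, nat_lit 4194819, nat_lit 4202562, nat_lit 4194309, nat_lit 4194308, nat_lit 4194310, nat_lit 4194373, nat_lit 9538, nat_lit 4194881, nat_lit 4194883, nat_lit 4203586, nat_lit 4194949, nat_lit 4194948, nat_lit 4194950, nat_lit 4204613, nat_lit 4194885, nat_lit 4194884, nat_lit 4194886, nat_lit 4203589, nat_lit 4194312, nat_lit 4194311, nat_lit 4194313, nat_lit 4194376],
    [nat_lit 320, nat_lit 5186, nat_lit 323, nat_lit 385, nat_lit 6466, nat_lit 324, nat_lit 325, nat_lit 103490, nat_lit 6467, nat_lit 5189, nat_lit 326, nat_lit 449, nat_lit 7490, nat_lit 10564, nat_lit 10565, nat_lit 119874, nat_lit 7491, nat_lit 169029, nat_lit 10566, nat_lit 7492, nat_lit 7493, nat_lit 327, nat_lit 328, nat_lit 119877, nat_lit 7494, nat_lit 5192, nat_lit 329],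
    [nat_lit 4194627, nat_lit 4199490, nat_lit 386, nat_lit 4194689, nat_lit 4194629, nat_lit 4194628, nat_lit 4200771, nat_lit 4297794, nat_lit 4194630, nat_lit 4199493, nat_lit 450, nat_lit 4194753, nat_lit 4204869, nat_lit 4204868, nat_lit 4201795, nat_lit 4314178, nat_lit 4204870, nat_lit 4363333, nat_lit 4201797, nat_lit 4201796, nat_lit 4194632, nat_lit 4194631, nat_lit 4201798, nat_lit 4314181, nat_lit 4194633, nat_lit 4199496],
    [nat_lit 10, nat_lit 388, nat_lit 4194693, nat_lit 11, nat_lit 12, nat_lit 331, nat_lit 332, nat_lit 13, nat_lit 14, nat_lit 10628, nat_lit 4204933, nat_lit 651, nat_lit 652, nat_lit 10571, nat_lit 10572, nat_lit 653, nat_lit 654, nat_lit 15, nat_lit 16, nat_lit 17, nat_lit 18, nat_lit 337, nat_lit 338, nat_lit 19, nat_lit 20],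
    [nat_lit 389, nat_lit 4194692, nat_lit 524, nat_lit 4194315, nat_lit 6476, nat_lit 4194635, nat_lit 4194318, nat_lit 4194317, nat_lit 10629, nat_lit 4204932, nat_lit 10764, nat_lit 4194955, nat_lit 170316, nat_lit 4204875, nat_lit 4194958, nat_lit 4194957, nat_lit 8656, nat_lit 4194319, nat_lit 4194322, nat_lit 4194321, nat_lit 4194642, nat_lit 4194641, nat_lit 4194324, nat_lit 4194323],
    [nat_lit 384, nat_lit 136258, nat_lit 8515, nat_lit 6210, nat_lit 387, nat_lit 6213, nat_lit 390, nat_lit 8641, nat_lit 9602, nat_lit 9604, nat_lit 9605, nat_lit 7556, nat_lit 7557, nat_lit 391, nat_lit 392, nat_lit 153666, nat_lit 9603, nat_lit 153669, nat_lit 9606, nat_lit 120901, nat_lit 7558, nat_lit 6216, nat_lit 393],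
    [nat_lit 4202819, nat_lit 4330562, nat_lit 4194691, nat_lit 4200514, nat_lit 4194694, nat_lit 4200517, nat_lit 8642, nat_lit 4202945, nat_lit 4203909, nat_lit 4203908, nat_lit 4201861, nat_lit 4201860, nat_lit 4194696, nat_lit 4194695, nat_lit 4203907, nat_lit 4347970, nat_lit 4203910, nat_lit 4347973, nat_lit 4201862, nat_lit 4315205, nat_lit 4194697, nat_lit 4200520],
    [nat_lit 522, nat_lit 395, nat_lit 8524, nat_lit 525, nat_lit 526, nat_lit 9540, nat_lit 4203845, nat_lit 587, nat_lit 9740, nat_lit 463, nat_lit 528, nat_lit 529, nat_lit 530, nat_lit 9611, nat_lit 155980, nat_lit 9741, nat_lit 9742, nat_lit 8529, nat_lit 8530, nat_lit 531, nat_lit 532],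
    [nat_lit 396, nat_lit 4194699, nat_lit 4194830, nat_lit 4194829, nat_lit 9541, nat_lit 4203844, nat_lit 588, nat_lit 4194891, nat_lit 464, nat_lit 4194767, nat_lit 4194834, nat_lit 4194833, nat_lit 9612, nat_lit 4203915, nat_lit 4204046, nat_lit 4204045, nat_lit 4202834, nat_lit 4202833, nat_lit 4194836, nat_lit 4194835],
    [nat_lit 394, nat_lit 397, nat_lit 398, nat_lit 452, nat_lit 4194757, nat_lit 399, nat_lit 400, nat_lit 7499, nat_lit 121164, nat_lit 6481, nat_lit 6482, nat_lit 7563, nat_lit 7564, nat_lit 401, nat_lit 402, nat_lit 7565, nat_lit 7566, nat_lit 403, nat_lit 404],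
    [nat_lit 4194702, nat_lit 4194701, nat_lit 453, nat_lit 4194756, nat_lit 592, nat_lit 4194703, nat_lit 7500, nat_lit 4201803, nat_lit 4200786, nat_lit 4200785, nat_lit 138572, nat_lit 4201867, nat_lit 4194706, nat_lit 4194705, nat_lit 4201870, nat_lit 4201869, nat_lit 4194708, nat_lit 4194707],
    [nat_lit 21, nat_lit 455, nat_lit 4194760, nat_lit 593, nat_lit 4194898, nat_lit 7505, nat_lit 4201810, nat_lit 22, nat_lit 23, nat_lit 9617, nat_lit 4203922, nat_lit 534, nat_lit 535, nat_lit 406, nat_lit 407, nat_lit 24, nat_lit 25],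
    [nat_lit 456, nat_lit 4194759, nat_lit 594, nat_lit 4194897, nat_lit 7506, nat_lit 4201809, nat_lit 663, nat_lit 4194326, nat_lit 9618, nat_lit 4203921, nat_lit 9751, nat_lit 4194838, nat_lit 7575, nat_lit 4194710, nat_lit 4194329, nat_lit 4194328],
    [nat_lit 448, nat_lit 152642, nat_lit 9539, nat_lit 7234, nat_lit 451, nat_lit 170053, nat_lit 10630, nat_lit 138306, nat_lit 8643, nat_lit 152645, nat_lit 9542, nat_lit 7237, nat_lit 454, nat_lit 7240, nat_lit 457],
    [nat_lit 4203843, nat_lit 4346946, nat_lit 4194755, nat_lit 4201538, nat_lit 4204934, nat_lit 4364357, nat_lit 4202947, nat_lit 4332610, nat_lit 4203846, nat_lit 4346949, nat_lit 4194758, nat_lit 4201541, nat_lit 4194761, nat_lit 4201544],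
    [nat_lit 586, nat_lit 10635, nat_lit 172364, nat_lit 10765, nat_lit 10766, nat_lit 9547, nat_lit 9548, nat_lit 589, nat_lit 590, nat_lit 9553, nat_lit 9554, nat_lit 595, nat_lit 596],
    [nat_lit 10636, nat_lit 4204939, nat_lit 4205070, nat_lit 4205069, nat_lit 153932, nat_lit 4203851, nat_lit 4194894, nat_lit 4194893, nat_lit 4203858, nat_lit 4203857, nat_lit 4194900, nat_lit 4194899],
    [nat_lit 458, nat_lit 10637, nat_lit 10638, nat_lit 459, nat_lit 460, nat_lit 465, nat_lit 466, nat_lit 461, nat_lit 462, nat_lit 467, nat_lit 468],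
    [nat_lit 4204942, nat_lit 4204941, nat_lit 8652, nat_lit 4194763, nat_lit 4194770, nat_lit 4194769, nat_lit 4194766, nat_lit 4194765, nat_lit 4194772, nat_lit 4194771],
    [nat_lit 661, nat_lit 8657, nat_lit 4202962, nat_lit 598, nat_lit 10775, nat_lit 470, nat_lit 10647, nat_lit 664, nat_lit 665],
    [nat_lit 8658, nat_lit 4202961, nat_lit 599, nat_lit 4194902, nat_lit 471, nat_lit 4194774, nat_lit 4194969, nat_lit 4194968],
    [nat_lit 8650, nat_lit 9613, nat_lit 9614, nat_lit 8653, nat_lit 8654, nat_lit 8659, nat_lit 8660],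
    [nat_lit 4203918, nat_lit 4203917, nat_lit 4202958, nat_lit 4202957, nat_lit 4202964, nat_lit 4202963],
    [nat_lit 597, nat_lit 8662, nat_lit 9623, nat_lit 600, nat_lit 601],
    [nat_lit 8663, nat_lit 4202966, nat_lit 4194905, nat_lit 4194904],
    [nat_lit 469, nat_lit 472, nat_lit 473],
    [nat_lit 4194777, nat_lit 4194776],
    [nat_lit 26],
    []],
   [[nat_lit 2114, nat_lit 8388611, nat_lit 8388609, nat_lit 8388610, nat_lit 133186, nat_lit 8389123, nat_lit 8389121, nat_lit 8389122, nat_lit 8388677, nat_lit 8388614, nat_lit 8388612, nat_lit 8388613, nat_lit 149570, nat_lit 8389187, nat_lit 8389185, nat_lit 8389186, nat_lit 8398917, nat_lit 8389254, nat_lit 8389252, nat_lit 8389253, nat_lit 8397893, nat_lit 8389190, nat_lit 8389188, nat_lit 8389189, nat_lit 8388680, nat_lit 8388617, nat_lit 8388615, nat_lit 8388616],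
    [nat_lit 130, nat_lit 128, nat_lit 131, nat_lit 193, nat_lit 132, nat_lit 51266, nat_lit 2117, nat_lit 3202, nat_lit 133, nat_lit 3203, nat_lit 134, nat_lit 257, nat_lit 10372, nat_lit 67650, nat_lit 165957, nat_lit 4226, nat_lit 10373, nat_lit 4227, nat_lit 10374, nat_lit 4228, nat_lit 135, nat_lit 67653, nat_lit 2120, nat_lit 4229, nat_lit 136, nat_lit 4230, nat_lit 137],
    [nat_lit 8388739, nat_lit 74, nat_lit 196, nat_lit 75, nat_lit 8391749, nat_lit 76, nat_lit 2123, nat_lit 77, nat_lit 2124, nat_lit 78, nat_lit 10436, nat_lit 10315, nat_lit 8555589, nat_lit 10316, nat_lit 165963, nat_lit 10317, nat_lit 165964, nat_lit 10318, nat_lit 79, nat_lit 81, nat_lit 80, nat_lit 82, nat_lit 2129, nat_lit 83, nat_lit 2130, nat_lit 84],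
    [nat_lit 8388738, nat_lit 3138, nat_lit 8390725, nat_lit 8388801, nat_lit 8388740, nat_lit 8391811, nat_lit 8388742, nat_lit 8391810, nat_lit 8388741, nat_lit 4162, nat_lit 8554565, nat_lit 8388865, nat_lit 8398980, nat_lit 8392835, nat_lit 8398982, nat_lit 8392834, nat_lit 8398981, nat_lit 8456261, nat_lit 8390728, nat_lit 8392836, nat_lit 8388743, nat_lit 8392838, nat_lit 8388745, nat_lit 8392837, nat_lit 8388744],
    [nat_lit 3141, nat_lit 8268, nat_lit 8388804, nat_lit 8388683, nat_lit 51276, nat_lit 8388686, nat_lit 8390731, nat_lit 8388685, nat_lit 166981, nat_lit 172108, nat_lit 8399044, nat_lit 8398923, nat_lit 2672716, nat_lit 8398926, nat_lit 8554571, nat_lit 8398925, nat_lit 135248, nat_lit 8388690, nat_lit 8388687, nat_lit 8388689, nat_lit 8390738, nat_lit 8388692, nat_lit 8390737, nat_lit 8388691],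
    [nat_lit 8322, nat_lit 192, nat_lit 8323, nat_lit 194, nat_lit 197, nat_lit 195, nat_lit 198, nat_lit 8449, nat_lit 9412, nat_lit 150594, nat_lit 150597, nat_lit 4292, nat_lit 199, nat_lit 68677, nat_lit 3144, nat_lit 9410, nat_lit 9413, nat_lit 9411, nat_lit 9414, nat_lit 4293, nat_lit 200, nat_lit 4294, nat_lit 201],
    [nat_lit 8396931, nat_lit 8266, nat_lit 3147, nat_lit 8269, nat_lit 133196, nat_lit 8270, nat_lit 9348, nat_lit 9291, nat_lit 8538181, nat_lit 155724, nat_lit 4175, nat_lit 8273, nat_lit 8272, nat_lit 8274, nat_lit 150603, nat_lit 155725, nat_lit 2492492, nat_lit 155726, nat_lit 133201, nat_lit 8275, nat_lit 133202, nat_lit 8276],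
    [nat_lit 8396930, nat_lit 8388803, nat_lit 8388806, nat_lit 8388802, nat_lit 8388805, nat_lit 135234, nat_lit 8539205, nat_lit 8397057, nat_lit 8398020, nat_lit 8457285, nat_lit 8391752, nat_lit 8392900, nat_lit 8388807, nat_lit 8398019, nat_lit 8398022, nat_lit 8398018, nat_lit 8398021, nat_lit 8392902, nat_lit 8388809, nat_lit 8392901, nat_lit 8388808],
    [nat_lit 3148, nat_lit 8396878, nat_lit 8391755, nat_lit 8396877, nat_lit 149573, nat_lit 9292, nat_lit 8397956, nat_lit 8397899, nat_lit 4176, nat_lit 8396882, nat_lit 8392783, nat_lit 8396881, nat_lit 150604, nat_lit 8544334, nat_lit 8539211, nat_lit 8544333, nat_lit 8521810, nat_lit 8396884, nat_lit 8521809, nat_lit 8396883],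
    [nat_lit 3149, nat_lit 3146, nat_lit 3150, nat_lit 260, nat_lit 3151, nat_lit 8392773, nat_lit 3152, nat_lit 67659, nat_lit 51281, nat_lit 1099852, nat_lit 51282, nat_lit 68683, nat_lit 3153, nat_lit 68684, nat_lit 3154, nat_lit 68685, nat_lit 3155, nat_lit 68686, nat_lit 3156],
    [nat_lit 8391758, nat_lit 85, nat_lit 263, nat_lit 9297, nat_lit 8392776, nat_lit 8397906, nat_lit 67665, nat_lit 86, nat_lit 8456274, nat_lit 87, nat_lit 150609, nat_lit 8278, nat_lit 8539218, nat_lit 8279, nat_lit 3158, nat_lit 88, nat_lit 3159, nat_lit 89],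
    [nat_lit 8391757, nat_lit 4165, nat_lit 9296, nat_lit 8388868, nat_lit 8391759, nat_lit 67660, nat_lit 8439890, nat_lit 8456267, nat_lit 8439889, nat_lit 2164812, nat_lit 8391762, nat_lit 8457291, nat_lit 8391761, nat_lit 8457294, nat_lit 8391764, nat_lit 8457293, nat_lit 8391763],
    [nat_lit 4168, nat_lit 9298, nat_lit 8388871, nat_lit 8397905, nat_lit 67666, nat_lit 10327, nat_lit 8456273, nat_lit 8388694, nat_lit 150610, nat_lit 155735, nat_lit 8539217, nat_lit 8396886, nat_lit 68695, nat_lit 8388697, nat_lit 8391766, nat_lit 8388696],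
    [nat_lit 9346, nat_lit 256, nat_lit 9347, nat_lit 258, nat_lit 10437, nat_lit 259, nat_lit 10438, nat_lit 8450, nat_lit 9349, nat_lit 8451, nat_lit 9350, nat_lit 261, nat_lit 264, nat_lit 262, nat_lit 265],
    [nat_lit 8397955, nat_lit 9290, nat_lit 166987, nat_lit 172109, nat_lit 2754636, nat_lit 172110, nat_lit 149579, nat_lit 9293, nat_lit 149580, nat_lit 9294, nat_lit 149585, nat_lit 9299, nat_lit 149586, nat_lit 9300],
    [nat_lit 8397954, nat_lit 8388867, nat_lit 8399046, nat_lit 8388866, nat_lit 8399045, nat_lit 8397059, nat_lit 8397958, nat_lit 8397058, nat_lit 8397957, nat_lit 8388870, nat_lit 8388873, nat_lit 8388869, nat_lit 8388872],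
    [nat_lit 166988, nat_lit 8560718, nat_lit 8555595, nat_lit 8560717, nat_lit 2410572, nat_lit 8397902, nat_lit 8538187, nat_lit 8397901, nat_lit 8538194, nat_lit 8397908, nat_lit 8538193, nat_lit 8397907],
    [nat_lit 166989, nat_lit 4170, nat_lit 166990, nat_lit 4171, nat_lit 4177, nat_lit 4172, nat_lit 4178, nat_lit 4173, nat_lit 4179, nat_lit 4174, nat_lit 4180],
    [nat_lit 8555598, nat_lit 10325, nat_lit 135249, nat_lit 9302, nat_lit 8523858, nat_lit 172119, nat_lit 4182, nat_lit 10328, nat_lit 166999, nat_lit 10329],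
    [nat_lit 8555597, nat_lit 135244, nat_lit 8392786, nat_lit 8392779, nat_lit 8392785, nat_lit 8392782, nat_lit 8392788, nat_lit 8392781, nat_lit 8392787],
    [nat_lit 135250, nat_lit 9303, nat_lit 8523857, nat_lit 8397910, nat_lit 4183, nat_lit 8398937, nat_lit 8392790, nat_lit 8398936],
    [nat_lit 150605, nat_lit 135242, nat_lit 150606, nat_lit 135245, nat_lit 135251, nat_lit 135246, nat_lit 135252],
    [nat_lit 8539214, nat_lit 9301, nat_lit 135254, nat_lit 9304, nat_lit 150615, nat_lit 9305],
    [nat_lit 8539213, nat_lit 8523854, nat_lit 8523860, nat_lit 8523853, nat_lit 8523859],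
    [nat_lit 135255, nat_lit 8397913, nat_lit 8523862, nat_lit 8397912],
    [nat_lit 4184, nat_lit 4181, nat_lit 4185],
    [nat_lit 8392793, nat_lit 90],
    [nat_lit 8392792],
    []],
   [[nat_lit 16777539, nat_lit 16777347, nat_lit 138, nat_lit 5316, nat_lit 5195, nat_lit 139, nat_lit 141, nat_lit 16783493, nat_lit 5196, nat_lit 140, nat_lit 142, nat_lit 169156, nat_lit 169035, nat_lit 10379, nat_lit 10381, nat_lit 16947333, nat_lit 169036, nat_lit 10380, nat_lit 10382, nat_lit 143, nat_lit 5201, nat_lit 145, nat_lit 147, nat_lit 144, nat_lit 5202, nat_lit 146, nat_lit 148],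
    [nat_lit 27, nat_lit 29360259, nat_lit 6219, nat_lit 28, nat_lit 29, nat_lit 12583115, nat_lit 349, nat_lit 20976843, nat_lit 30, nat_lit 12585053, nat_lit 170059, nat_lit 668, nat_lit 669, nat_lit 12593355, nat_lit 10589, nat_lit 21140683, nat_lit 670, nat_lit 12748893, nat_lit 31, nat_lit 32, nat_lit 33, nat_lit 12583007, nat_lit 353, nat_lit 20971679, nat_lit 34, nat_lit 12585057],
    [nat_lit 29360451, nat_lit 203, nat_lit 93, nat_lit 92, nat_lit 12589131, nat_lit 2141, nat_lit 94, nat_lit 25171147, nat_lit 12583261, nat_lit 10443, nat_lit 10333, nat_lit 10332, nat_lit 12752971, nat_lit 165981, nat_lit 10334, nat_lit 25334987, nat_lit 12593501, nat_lit 95, nat_lit 97, nat_lit 96, nat_lit 12582943, nat_lit 2145, nat_lit 98, nat_lit 25165983, nat_lit 12583265],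
    [nat_lit 8333, nat_lit 12583051, nat_lit 12588107, nat_lit 12588228, nat_lit 12583054, nat_lit 12583052, nat_lit 12588108, nat_lit 29366405, nat_lit 172173, nat_lit 12593291, nat_lit 12751947, nat_lit 12752068, nat_lit 12593294, nat_lit 12593292, nat_lit 12751948, nat_lit 29530245, nat_lit 12583059, nat_lit 12583057, nat_lit 12588113, nat_lit 12583055, nat_lit 12583060, nat_lit 12583058, nat_lit 12588114, nat_lit 12583056],
    [nat_lit 33562947, nat_lit 33562755, nat_lit 8330, nat_lit 33559749, nat_lit 136268, nat_lit 8332, nat_lit 8334, nat_lit 152772, nat_lit 153675, nat_lit 9419, nat_lit 155789, nat_lit 7375, nat_lit 136273, nat_lit 8337, nat_lit 8339, nat_lit 33707205, nat_lit 2495564, nat_lit 155788, nat_lit 155790, nat_lit 8336, nat_lit 136274, nat_lit 8338, nat_lit 8340],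
    [nat_lit 539, nat_lit 46145667, nat_lit 6237, nat_lit 37755019, nat_lit 542, nat_lit 12583133, nat_lit 152651, nat_lit 604, nat_lit 9309, nat_lit 12592267, nat_lit 543, nat_lit 544, nat_lit 545, nat_lit 12591199, nat_lit 153693, nat_lit 37902475, nat_lit 9758, nat_lit 12592349, nat_lit 8545, nat_lit 37757087, nat_lit 546, nat_lit 12716129],
    [nat_lit 46145859, nat_lit 221, nat_lit 8286, nat_lit 41949323, nat_lit 12589149, nat_lit 9355, nat_lit 605, nat_lit 9308, nat_lit 12735563, nat_lit 8287, nat_lit 8289, nat_lit 8288, nat_lit 12583455, nat_lit 9437, nat_lit 155742, nat_lit 42096779, nat_lit 12736605, nat_lit 133217, nat_lit 8290, nat_lit 41951391, nat_lit 12591457],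
    [nat_lit 12591246, nat_lit 12591244, nat_lit 12719180, nat_lit 46142661, nat_lit 9357, nat_lit 12592331, nat_lit 12736587, nat_lit 12735684, nat_lit 12591251, nat_lit 12591249, nat_lit 12719185, nat_lit 12590287, nat_lit 12738702, nat_lit 12738700, nat_lit 15078476, nat_lit 46290117, nat_lit 12591252, nat_lit 12591250, nat_lit 12719186, nat_lit 12591248],
    [nat_lit 50332046, nat_lit 50334798, nat_lit 35, nat_lit 6415, nat_lit 607, nat_lit 9311, nat_lit 12592275, nat_lit 102559, nat_lit 36, nat_lit 100, nat_lit 37, nat_lit 7391, nat_lit 548, nat_lit 5348, nat_lit 549, nat_lit 50338067, nat_lit 6309, nat_lit 5349, nat_lit 38],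
    [nat_lit 39, nat_lit 62917710, nat_lit 152657, nat_lit 608, nat_lit 9313, nat_lit 12592273, nat_lit 676, nat_lit 40, nat_lit 41, nat_lit 12593252, nat_lit 9764, nat_lit 552, nat_lit 553, nat_lit 12735716, nat_lit 42, nat_lit 54532374, nat_lit 43, nat_lit 12583018],
    [nat_lit 62914958, nat_lit 9361, nat_lit 609, nat_lit 9312, nat_lit 12735569, nat_lit 10340, nat_lit 105, nat_lit 104, nat_lit 12583588, nat_lit 152804, nat_lit 8297, nat_lit 8296, nat_lit 12592676, nat_lit 106, nat_lit 107, nat_lit 58726678, nat_lit 12582954],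
    [nat_lit 9363, nat_lit 12592223, nat_lit 12583519, nat_lit 12589327, nat_lit 677, nat_lit 12583012, nat_lit 12582948, nat_lit 12685471, nat_lit 9765, nat_lit 12588260, nat_lit 12583460, nat_lit 12590303, nat_lit 12582950, nat_lit 12588261, nat_lit 12589221, nat_lit 62920979],
    [nat_lit 67118403, nat_lit 67118211, nat_lit 9354, nat_lit 67278021, nat_lit 2757708, nat_lit 172172, nat_lit 172174, nat_lit 67262597, nat_lit 152652, nat_lit 9356, nat_lit 9358, nat_lit 9360, nat_lit 152658, nat_lit 9362, nat_lit 9364],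
    [nat_lit 603, nat_lit 79701123, nat_lit 170077, nat_lit 71473291, nat_lit 10782, nat_lit 12593373, nat_lit 9565, nat_lit 71455947, nat_lit 606, nat_lit 12732509, nat_lit 9569, nat_lit 71312543, nat_lit 610, nat_lit 12732513],
    [nat_lit 79701315, nat_lit 10461, nat_lit 172126, nat_lit 75667595, nat_lit 12752989, nat_lit 149597, nat_lit 9310, nat_lit 75650251, nat_lit 12592477, nat_lit 149601, nat_lit 9314, nat_lit 75506847, nat_lit 12592481],
    [nat_lit 12755086, nat_lit 12755084, nat_lit 15340620, nat_lit 79860933, nat_lit 12592270, nat_lit 12592268, nat_lit 12735564, nat_lit 79845509, nat_lit 12592276, nat_lit 12592274, nat_lit 12735570, nat_lit 12592272],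
    [nat_lit 83896718, nat_lit 84053070, nat_lit 675, nat_lit 6431, nat_lit 10788, nat_lit 169188, nat_lit 10789, nat_lit 83893459, nat_lit 170149, nat_lit 169189, nat_lit 678],
    [nat_lit 679, nat_lit 96635982, nat_lit 612, nat_lit 616, nat_lit 9321, nat_lit 12592228, nat_lit 682, nat_lit 88087766, nat_lit 683, nat_lit 12593258],
    [nat_lit 96479630, nat_lit 9316, nat_lit 617, nat_lit 9320, nat_lit 12583524, nat_lit 10346, nat_lit 10347, nat_lit 92282070, nat_lit 12583594],
    [nat_lit 613, nat_lit 12752100, nat_lit 12593700, nat_lit 12589343, nat_lit 12583590, nat_lit 12752101, nat_lit 12753061, nat_lit 96476371],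
    [nat_lit 100672910, nat_lit 100813902, nat_lit 611, nat_lit 100765843, nat_lit 153765, nat_lit 152805, nat_lit 614],
    [nat_lit 615, nat_lit 113396814, nat_lit 618, nat_lit 104960150, nat_lit 619, nat_lit 12592234],
    [nat_lit 113255822, nat_lit 9322, nat_lit 9323, nat_lit 109154454, nat_lit 12583530],
    [nat_lit 12583526, nat_lit 12735717, nat_lit 12736677, nat_lit 113348755],
    [nat_lit 117440985, nat_lit 117444697, nat_lit 44],
    [nat_lit 45, nat_lit 130027609],
    [nat_lit 130023897],
    []],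
   [[nat_lit 16777217, nat_lit 16777538, nat_lit 6274, nat_lit 16783683, nat_lit 16782405, nat_lit 16777542, nat_lit 16777601, nat_lit 16783682, nat_lit 16777540, nat_lit 16777541, nat_lit 7298, nat_lit 16784707, nat_lit 16946245, nat_lit 16787782, nat_lit 16777665, nat_lit 16784706, nat_lit 16787780, nat_lit 16787781, nat_lit 16897093, nat_lit 16784710, nat_lit 16782408, nat_lit 16777545, nat_lit 16784708, nat_lit 16784709, nat_lit 16777543, nat_lit 16777544],
    [nat_lit 16779330, nat_lit 85058, nat_lit 16777349, nat_lit 16780419, nat_lit 16777350, nat_lit 16777409, nat_lit 16777348, nat_lit 16828482, nat_lit 16779333, nat_lit 86082, nat_lit 16787589, nat_lit 16781443, nat_lit 16787590, nat_lit 16777473, nat_lit 16787588, nat_lit 16844866, nat_lit 16943173, nat_lit 16781445, nat_lit 16777352, nat_lit 16781446, nat_lit 16777353, nat_lit 16781444, nat_lit 16777351, nat_lit 16844869, nat_lit 16779336],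
    [nat_lit 6277, nat_lit 103500, nat_lit 3212, nat_lit 16777358, nat_lit 16782532, nat_lit 16782411, nat_lit 16777355, nat_lit 16777357, nat_lit 170117, nat_lit 2724940, nat_lit 167052, nat_lit 16787598, nat_lit 16946372, nat_lit 16946251, nat_lit 16787595, nat_lit 16787597, nat_lit 102544, nat_lit 16782418, nat_lit 16777362, nat_lit 16777364, nat_lit 16777359, nat_lit 16782417, nat_lit 16777361, nat_lit 16777363],
    [nat_lit 100418, nat_lit 5314, nat_lit 5317, nat_lit 5312, nat_lit 6275, nat_lit 5315, nat_lit 5318, nat_lit 6401, nat_lit 120004, nat_lit 86212, nat_lit 5319, nat_lit 102530, nat_lit 120965, nat_lit 102533, nat_lit 6280, nat_lit 120002, nat_lit 120005, nat_lit 86213, nat_lit 5320, nat_lit 102531, nat_lit 120006, nat_lit 86214, nat_lit 5321],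
    [nat_lit 6283, nat_lit 6285, nat_lit 16783491, nat_lit 6282, nat_lit 6284, nat_lit 6286, nat_lit 7300, nat_lit 119883, nat_lit 4239, nat_lit 103505, nat_lit 16784517, nat_lit 1938508, nat_lit 6288, nat_lit 103506, nat_lit 120971, nat_lit 120973, nat_lit 6289, nat_lit 6291, nat_lit 120972, nat_lit 120974, nat_lit 6290, nat_lit 6292],
    [nat_lit 3213, nat_lit 16782531, nat_lit 85068, nat_lit 3210, nat_lit 3214, nat_lit 5380, nat_lit 3215, nat_lit 4235, nat_lit 3217, nat_lit 16863301, nat_lit 3216, nat_lit 68748, nat_lit 3218, nat_lit 102539, nat_lit 85073, nat_lit 68749, nat_lit 3219, nat_lit 1379404, nat_lit 85074, nat_lit 68750, nat_lit 3220],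
    [nat_lit 16782534, nat_lit 16783502, nat_lit 16780430, nat_lit 149, nat_lit 5383, nat_lit 119889, nat_lit 4241, nat_lit 150, nat_lit 16784520, nat_lit 16897106, nat_lit 16781458, nat_lit 151, nat_lit 102545, nat_lit 6294, nat_lit 3222, nat_lit 152, nat_lit 16879762, nat_lit 6295, nat_lit 3223, nat_lit 153],
    [nat_lit 16877634, nat_lit 16782530, nat_lit 16782533, nat_lit 117890, nat_lit 16898181, nat_lit 16879749, nat_lit 16783496, nat_lit 16783617, nat_lit 16897220, nat_lit 16863428, nat_lit 16782535, nat_lit 16879747, nat_lit 16897222, nat_lit 16863430, nat_lit 16782537, nat_lit 16897218, nat_lit 16897221, nat_lit 16863429, nat_lit 16782536],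
    [nat_lit 16783499, nat_lit 16783501, nat_lit 7301, nat_lit 119884, nat_lit 4240, nat_lit 16880722, nat_lit 16784516, nat_lit 16897099, nat_lit 16781455, nat_lit 16880721, nat_lit 1920076, nat_lit 16898190, nat_lit 16783506, nat_lit 16783508, nat_lit 16898187, nat_lit 16898189, nat_lit 16783505, nat_lit 16783507],
    [nat_lit 16780429, nat_lit 86085, nat_lit 7312, nat_lit 4236, nat_lit 16780434, nat_lit 16782596, nat_lit 16780431, nat_lit 16781451, nat_lit 16780433, nat_lit 102540, nat_lit 16862290, nat_lit 16845966, nat_lit 16780436, nat_lit 16879755, nat_lit 16862289, nat_lit 16845965, nat_lit 16780435],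
    [nat_lit 7304, nat_lit 119890, nat_lit 4242, nat_lit 10391, nat_lit 16782599, nat_lit 16897105, nat_lit 16781457, nat_lit 16777366, nat_lit 102546, nat_lit 120983, nat_lit 68759, nat_lit 16777369, nat_lit 16879761, nat_lit 16783510, nat_lit 16780438, nat_lit 16777368],
    [nat_lit 116802, nat_lit 5378, nat_lit 169157, nat_lit 5376, nat_lit 7299, nat_lit 5379, nat_lit 169158, nat_lit 103682, nat_lit 116805, nat_lit 5381, nat_lit 5384, nat_lit 103683, nat_lit 7302, nat_lit 5382, nat_lit 5385],
    [nat_lit 170123, nat_lit 170125, nat_lit 16784515, nat_lit 7306, nat_lit 170124, nat_lit 170126, nat_lit 7307, nat_lit 7309, nat_lit 7313, nat_lit 7315, nat_lit 7308, nat_lit 7310, nat_lit 7314, nat_lit 7316],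
    [nat_lit 167053, nat_lit 16782595, nat_lit 2706508, nat_lit 4234, nat_lit 167054, nat_lit 86091, nat_lit 86097, nat_lit 4237, nat_lit 4243, nat_lit 86092, nat_lit 86098, nat_lit 4238, nat_lit 4244],
    [nat_lit 16946374, nat_lit 16947342, nat_lit 16944270, nat_lit 10389, nat_lit 117905, nat_lit 7318, nat_lit 4246, nat_lit 10392, nat_lit 16895122, nat_lit 170135, nat_lit 167063, nat_lit 10393],
    [nat_lit 16894018, nat_lit 16782594, nat_lit 16946373, nat_lit 16880899, nat_lit 16784518, nat_lit 16782598, nat_lit 16782601, nat_lit 16880898, nat_lit 16894021, nat_lit 16782597, nat_lit 16782600],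
    [nat_lit 16947339, nat_lit 16947341, nat_lit 117900, nat_lit 16784526, nat_lit 16784530, nat_lit 16784532, nat_lit 16784523, nat_lit 16784525, nat_lit 16784529, nat_lit 16784531],
    [nat_lit 16944269, nat_lit 1658956, nat_lit 16863314, nat_lit 16781454, nat_lit 16781460, nat_lit 16863307, nat_lit 16863313, nat_lit 16781453, nat_lit 16781459],
    [nat_lit 117906, nat_lit 7319, nat_lit 4247, nat_lit 16787609, nat_lit 16895121, nat_lit 16784534, nat_lit 16781462, nat_lit 16787608],
    [nat_lit 117901, nat_lit 102541, nat_lit 102547, nat_lit 102538, nat_lit 117902, nat_lit 102542, nat_lit 102548],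
    [nat_lit 102550, nat_lit 7320, nat_lit 16895118, nat_lit 7317, nat_lit 117911, nat_lit 7321],
    [nat_lit 4248, nat_lit 16879758, nat_lit 102551, nat_lit 4245, nat_lit 4249],
    [nat_lit 16879764, nat_lit 16784537, nat_lit 16781465, nat_lit 154],
    [nat_lit 16895117, nat_lit 16879757, nat_lit 16879763],
    [nat_lit 16879766, nat_lit 16784536],
    [nat_lit 16781464],
    []],
   [[nat_lit 29360131, nat_lit 5323, nat_lit 5213, nat_lit 157, nat_lit 158, nat_lit 156, nat_lit 20977739, nat_lit 25166027, nat_lit 20971549, nat_lit 169163, nat_lit 169053, nat_lit 10397, nat_lit 10398, nat_lit 10396, nat_lit 21141579, nat_lit 25176267, nat_lit 20972189, nat_lit 159, nat_lit 5217, nat_lit 161, nat_lit 162, nat_lit 160, nat_lit 20971551, nat_lit 25165919, nat_lit 20971553],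
    [nat_lit 6221, nat_lit 20973643, nat_lit 20971598, nat_lit 20973644, nat_lit 20971595, nat_lit 20971716, nat_lit 20971596, nat_lit 29363269, nat_lit 170061, nat_lit 21137483, nat_lit 20981838, nat_lit 21137484, nat_lit 20981835, nat_lit 20981956, nat_lit 20981836, nat_lit 29527109, nat_lit 20971603, nat_lit 20973649, nat_lit 20971604, nat_lit 20973650, nat_lit 20971601, nat_lit 20971599, nat_lit 20971602, nat_lit 20971600],
    [nat_lit 33554819, nat_lit 33554629, nat_lit 6220, nat_lit 33560707, nat_lit 6218, nat_lit 100428, nat_lit 6222, nat_lit 7364, nat_lit 120907, nat_lit 6223, nat_lit 6225, nat_lit 120011, nat_lit 120909, nat_lit 100433, nat_lit 6227, nat_lit 33561797, nat_lit 120908, nat_lit 6224, nat_lit 6226, nat_lit 1935436, nat_lit 120910, nat_lit 100434, nat_lit 6228],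
    [nat_lit 413, nat_lit 37751883, nat_lit 411, nat_lit 54532227, nat_lit 414, nat_lit 20976861, nat_lit 7243, nat_lit 476, nat_lit 415, nat_lit 416, nat_lit 119901, nat_lit 21088331, nat_lit 6497, nat_lit 20977823, nat_lit 7581, nat_lit 37866571, nat_lit 417, nat_lit 37754975, nat_lit 7582, nat_lit 21091549, nat_lit 418, nat_lit 20977825],
    [nat_lit 41943566, nat_lit 5341, nat_lit 20977742, nat_lit 41946254, nat_lit 227, nat_lit 7247, nat_lit 479, nat_lit 135263, nat_lit 356, nat_lit 7327, nat_lit 20978771, nat_lit 3172, nat_lit 357, nat_lit 9439, nat_lit 6500, nat_lit 41951507, nat_lit 8357, nat_lit 228, nat_lit 6501, nat_lit 229, nat_lit 230],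
    [nat_lit 6302, nat_lit 21071948, nat_lit 359, nat_lit 62917774, nat_lit 7249, nat_lit 480, nat_lit 10596, nat_lit 360, nat_lit 119905, nat_lit 21088337, nat_lit 361, nat_lit 21138532, nat_lit 121188, nat_lit 6504, nat_lit 362, nat_lit 46145814, nat_lit 6505, nat_lit 20978916, nat_lit 363, nat_lit 20976746],
    [nat_lit 54526339, nat_lit 50334795, nat_lit 20971933, nat_lit 116811, nat_lit 7517, nat_lit 6303, nat_lit 103521, nat_lit 7324, nat_lit 20978763, nat_lit 6304, nat_lit 20971935, nat_lit 120029, nat_lit 120990, nat_lit 6305, nat_lit 6306, nat_lit 50449483, nat_lit 20979101, nat_lit 50337887, nat_lit 20971937],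
    [nat_lit 20977740, nat_lit 54526149, nat_lit 7245, nat_lit 21091531, nat_lit 20977747, nat_lit 21071953, nat_lit 21092427, nat_lit 20978884, nat_lit 20977745, nat_lit 20977743, nat_lit 21092430, nat_lit 22906956, nat_lit 20977748, nat_lit 21071954, nat_lit 21092428, nat_lit 54533317, nat_lit 20977746, nat_lit 20977744],
    [nat_lit 62915086, nat_lit 116817, nat_lit 7521, nat_lit 167012, nat_lit 5225, nat_lit 7328, nat_lit 20978769, nat_lit 5224, nat_lit 20982116, nat_lit 7396, nat_lit 103529, nat_lit 5226, nat_lit 5227, nat_lit 103528, nat_lit 21092708, nat_lit 58728726, nat_lit 20971882],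
    [nat_lit 7251, nat_lit 20978847, nat_lit 10597, nat_lit 20974692, nat_lit 20971999, nat_lit 20978767, nat_lit 20971876, nat_lit 21106783, nat_lit 121189, nat_lit 20971748, nat_lit 20971750, nat_lit 20971749, nat_lit 20978020, nat_lit 20980959, nat_lit 20979877, nat_lit 62923027],
    [nat_lit 67109315, nat_lit 67119301, nat_lit 170060, nat_lit 67116163, nat_lit 7242, nat_lit 2721868, nat_lit 170062, nat_lit 67226693, nat_lit 7244, nat_lit 7248, nat_lit 7250, nat_lit 116812, nat_lit 7246, nat_lit 116818, nat_lit 7252],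
    [nat_lit 10653, nat_lit 71470155, nat_lit 475, nat_lit 88087683, nat_lit 10654, nat_lit 21140701, nat_lit 477, nat_lit 71310539, nat_lit 481, nat_lit 71310431, nat_lit 478, nat_lit 20978845, nat_lit 482, nat_lit 20978849],
    [nat_lit 75508238, nat_lit 169181, nat_lit 21141582, nat_lit 75664526, nat_lit 10467, nat_lit 8479, nat_lit 170340, nat_lit 75506899, nat_lit 172197, nat_lit 10468, nat_lit 170341, nat_lit 10469, nat_lit 10470],
    [nat_lit 170142, nat_lit 23693388, nat_lit 10599, nat_lit 96636046, nat_lit 7524, nat_lit 7528, nat_lit 10602, nat_lit 79701206, nat_lit 119913, nat_lit 21089380, nat_lit 10603, nat_lit 21140586],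
    [nat_lit 88080835, nat_lit 84053067, nat_lit 20982173, nat_lit 7325, nat_lit 7326, nat_lit 7329, nat_lit 7330, nat_lit 83893451, nat_lit 20971997, nat_lit 83893343, nat_lit 20972001],
    [nat_lit 21141580, nat_lit 88090821, nat_lit 20978766, nat_lit 21088332, nat_lit 20978772, nat_lit 21088338, nat_lit 20978764, nat_lit 88198213, nat_lit 20978770, nat_lit 20978768],
    [nat_lit 96479758, nat_lit 117860, nat_lit 7529, nat_lit 169066, nat_lit 169067, nat_lit 119912, nat_lit 20979044, nat_lit 92284118, nat_lit 20982122],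
    [nat_lit 7525, nat_lit 20981988, nat_lit 20981990, nat_lit 20981989, nat_lit 21141860, nat_lit 20979999, nat_lit 21143717, nat_lit 96478419],
    [nat_lit 100671950, nat_lit 100798547, nat_lit 138405, nat_lit 100781198, nat_lit 7395, nat_lit 7397, nat_lit 7398],
    [nat_lit 7530, nat_lit 104992854, nat_lit 7527, nat_lit 121752718, nat_lit 7531, nat_lit 21091434],
    [nat_lit 109052505, nat_lit 119914, nat_lit 20978918, nat_lit 109056153, nat_lit 364],
    [nat_lit 119915, nat_lit 20978917, nat_lit 365, nat_lit 130027673],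
    [nat_lit 121643470, nat_lit 117575766, nat_lit 20979050],
    [nat_lit 21109925, nat_lit 121770067],
    [nat_lit 130024025],
    []],
   [[nat_lit 205, nat_lit 25165838, nat_lit 25166155, nat_lit 25166156, nat_lit 25165835, nat_lit 25165836, nat_lit 25166212, nat_lit 29360517, nat_lit 10445, nat_lit 25166478, nat_lit 25176395, nat_lit 25176396, nat_lit 25166475, nat_lit 25166476, nat_lit 25176452, nat_lit 29370757, nat_lit 25165843, nat_lit 25165844, nat_lit 25166161, nat_lit 25166162, nat_lit 25165841, nat_lit 25165842, nat_lit 25165839, nat_lit 25165840],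
    [nat_lit 33560645, nat_lit 33554627, nat_lit 204, nat_lit 33559747, nat_lit 5324, nat_lit 202, nat_lit 206, nat_lit 6404, nat_lit 207, nat_lit 4299, nat_lit 209, nat_lit 86219, nat_lit 5329, nat_lit 4301, nat_lit 211, nat_lit 33656901, nat_lit 208, nat_lit 4300, nat_lit 210, nat_lit 86220, nat_lit 5330, nat_lit 4302, nat_lit 212],
    [nat_lit 3165, nat_lit 37757006, nat_lit 85085, nat_lit 37755022, nat_lit 25166030, nat_lit 163, nat_lit 271, nat_lit 8671, nat_lit 4191, nat_lit 2148, nat_lit 4255, nat_lit 164, nat_lit 25166099, nat_lit 165, nat_lit 138399, nat_lit 37887059, nat_lit 51300, nat_lit 8549, nat_lit 3236, nat_lit 421, nat_lit 3237, nat_lit 166],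
    [nat_lit 41943435, nat_lit 219, nat_lit 3166, nat_lit 58725571, nat_lit 25250909, nat_lit 267, nat_lit 3167, nat_lit 4188, nat_lit 3168, nat_lit 4253, nat_lit 51297, nat_lit 25171211, nat_lit 25169055, nat_lit 68701, nat_lit 3169, nat_lit 41949451, nat_lit 41943263, nat_lit 68702, nat_lit 3170, nat_lit 26545245, nat_lit 25250913],
    [nat_lit 3230, nat_lit 167, nat_lit 25171148, nat_lit 62920846, nat_lit 273, nat_lit 165988, nat_lit 4192, nat_lit 2152, nat_lit 4257, nat_lit 2153, nat_lit 25171217, nat_lit 25176228, nat_lit 1099876, nat_lit 2154, nat_lit 51304, nat_lit 46275670, nat_lit 51305, nat_lit 2155, nat_lit 25234596, nat_lit 25165994],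
    [nat_lit 50332043, nat_lit 58720451, nat_lit 25168989, nat_lit 5387, nat_lit 3231, nat_lit 67677, nat_lit 3233, nat_lit 4252, nat_lit 3232, nat_lit 25166091, nat_lit 25168991, nat_lit 1379421, nat_lit 85089, nat_lit 68766, nat_lit 3234, nat_lit 50338059, nat_lit 50331871, nat_lit 25234525, nat_lit 25168993],
    [nat_lit 25166028, nat_lit 62922830, nat_lit 5393, nat_lit 10404, nat_lit 67681, nat_lit 169, nat_lit 4256, nat_lit 168, nat_lit 25166097, nat_lit 25331812, nat_lit 68772, nat_lit 170, nat_lit 3241, nat_lit 171, nat_lit 3240, nat_lit 54664278, nat_lit 26265700, nat_lit 25167978],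
    [nat_lit 58726469, nat_lit 269, nat_lit 25166035, nat_lit 25252043, nat_lit 25171153, nat_lit 25170123, nat_lit 25166033, nat_lit 25172228, nat_lit 25166031, nat_lit 25170126, nat_lit 25166036, nat_lit 25252044, nat_lit 25171154, nat_lit 25170124, nat_lit 25166034, nat_lit 58822725, nat_lit 25166032],
    [nat_lit 275, nat_lit 10405, nat_lit 25170079, nat_lit 25165988, nat_lit 25170015, nat_lit 25167972, nat_lit 25166095, nat_lit 25174495, nat_lit 68773, nat_lit 25165990, nat_lit 25169060, nat_lit 25166245, nat_lit 25217124, nat_lit 25174373, nat_lit 25304223, nat_lit 63052883],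
    [nat_lit 67278917, nat_lit 67109123, nat_lit 10444, nat_lit 67114243, nat_lit 169164, nat_lit 266, nat_lit 10446, nat_lit 67115269, nat_lit 272, nat_lit 268, nat_lit 274, nat_lit 5388, nat_lit 5394, nat_lit 270, nat_lit 276],
    [nat_lit 167005, nat_lit 71475278, nat_lit 2706525, nat_lit 71473294, nat_lit 25176270, nat_lit 10403, nat_lit 138335, nat_lit 71441555, nat_lit 2672740, nat_lit 172389, nat_lit 167076, nat_lit 10661, nat_lit 167077, nat_lit 10406],
    [nat_lit 75508107, nat_lit 283, nat_lit 167006, nat_lit 92280067, nat_lit 27872349, nat_lit 4189, nat_lit 4193, nat_lit 75599947, nat_lit 75497759, nat_lit 4190, nat_lit 4194, nat_lit 25251933, nat_lit 25251937],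
    [nat_lit 167070, nat_lit 10407, nat_lit 25334988, nat_lit 96639118, nat_lit 67684, nat_lit 165994, nat_lit 67688, nat_lit 79830166, nat_lit 4265, nat_lit 165995, nat_lit 25170084, nat_lit 25176234],
    [nat_lit 83896715, nat_lit 92274947, nat_lit 25332829, nat_lit 86109, nat_lit 86113, nat_lit 4254, nat_lit 4258, nat_lit 83988555, nat_lit 83886367, nat_lit 25170013, nat_lit 25170017],
    [nat_lit 25176268, nat_lit 96641102, nat_lit 4260, nat_lit 10410, nat_lit 67689, nat_lit 10411, nat_lit 4264, nat_lit 88218774, nat_lit 25233508, nat_lit 25331818],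
    [nat_lit 92444741, nat_lit 25166094, nat_lit 25166100, nat_lit 25171212, nat_lit 25171218, nat_lit 25166092, nat_lit 25166098, nat_lit 92281093, nat_lit 25166096],
    [nat_lit 4261, nat_lit 25176230, nat_lit 25332900, nat_lit 25176485, nat_lit 27838564, nat_lit 25338213, nat_lit 25304159, nat_lit 96607379],
    [nat_lit 100671955, nat_lit 100798542, nat_lit 136485, nat_lit 100765838, nat_lit 6437, nat_lit 4259, nat_lit 4262],
    [nat_lit 67690, nat_lit 104866905, nat_lit 4266, nat_lit 104864921, nat_lit 25170086, nat_lit 172],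
    [nat_lit 109060566, nat_lit 4263, nat_lit 67691, nat_lit 125931662, nat_lit 25170090],
    [nat_lit 4267, nat_lit 173, nat_lit 25172261, nat_lit 130030745],
    [nat_lit 117449174, nat_lit 125964366, nat_lit 25233514],
    [nat_lit 25302309, nat_lit 130032729],
    [nat_lit 125837779],
    []],
   [[nat_lit 33554822, nat_lit 33554630, nat_lit 33562766, nat_lit 33559750, nat_lit 33560654, nat_lit 33554638, nat_lit 213, nat_lit 6407, nat_lit 153681, nat_lit 9425, nat_lit 8342, nat_lit 120017, nat_lit 6230, nat_lit 214, nat_lit 216, nat_lit 33561800, nat_lit 33708114, nat_lit 33563858, nat_lit 8343, nat_lit 33674450, nat_lit 6231, nat_lit 215, nat_lit 217],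
    [nat_lit 8350, nat_lit 37881932, nat_lit 6238, nat_lit 37755020, nat_lit 423, nat_lit 62914766, nat_lit 138321, nat_lit 8672, nat_lit 149604, nat_lit 8552, nat_lit 7332, nat_lit 424, nat_lit 426, nat_lit 29360406, nat_lit 153697, nat_lit 37902481, nat_lit 8553, nat_lit 40159332, nat_lit 425, nat_lit 37866660, nat_lit 427, nat_lit 29462634],
    [nat_lit 41951564, nat_lit 222, nat_lit 231, nat_lit 42028108, nat_lit 62920782, nat_lit 8465, nat_lit 9572, nat_lit 135264, nat_lit 133224, nat_lit 68708, nat_lit 3178, nat_lit 3176, nat_lit 29367382, nat_lit 9441, nat_lit 133225, nat_lit 42079505, nat_lit 42096996, nat_lit 3177, nat_lit 3179, nat_lit 41947364, nat_lit 29367530],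
    [nat_lit 5351, nat_lit 29360350, nat_lit 29366366, nat_lit 62919878, nat_lit 9366, nat_lit 9576, nat_lit 149608, nat_lit 29462688, nat_lit 170154, nat_lit 29364324, nat_lit 29360612, nat_lit 29463825, nat_lit 152810, nat_lit 46223588, nat_lit 46146020, nat_lit 46143761, nat_lit 29366443, nat_lit 29445225, nat_lit 29366441, nat_lit 29480161],
    [nat_lit 50332044, nat_lit 50334796, nat_lit 62922894, nat_lit 103697, nat_lit 484, nat_lit 4196, nat_lit 6314, nat_lit 102560, nat_lit 6312, nat_lit 85096, nat_lit 29369494, nat_lit 120033, nat_lit 6313, nat_lit 85097, nat_lit 6315, nat_lit 50338065, nat_lit 50340324, nat_lit 50417892, nat_lit 29512938],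
    [nat_lit 29368478, nat_lit 62914758, nat_lit 7254, nat_lit 488, nat_lit 167018, nat_lit 29428836, nat_lit 7336, nat_lit 29495392, nat_lit 29369700, nat_lit 29368593, nat_lit 7402, nat_lit 54530276, nat_lit 29363307, nat_lit 29363305, nat_lit 54679908, nat_lit 54662417, nat_lit 29493353, nat_lit 29369569],
    [nat_lit 62914950, nat_lit 278, nat_lit 10666, nat_lit 4200, nat_lit 29367460, nat_lit 86120, nat_lit 29509732, nat_lit 29368800, nat_lit 29498449, nat_lit 102506, nat_lit 29360555, nat_lit 58838180, nat_lit 29360553, nat_lit 61130852, nat_lit 29368681, nat_lit 58874001, nat_lit 29513825],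
    [nat_lit 10456, nat_lit 29360342, nat_lit 29366358, nat_lit 29480145, nat_lit 29368470, nat_lit 29369553, nat_lit 29513809, nat_lit 29366535, nat_lit 29360345, nat_lit 29360343, nat_lit 29366359, nat_lit 63034578, nat_lit 29368471, nat_lit 62923986, nat_lit 63068242, nat_lit 62921928],
    [nat_lit 67119494, nat_lit 67119302, nat_lit 67281038, nat_lit 67278022, nat_lit 67278926, nat_lit 67119310, nat_lit 10453, nat_lit 67115272, nat_lit 67247186, nat_lit 67117330, nat_lit 172183, nat_lit 67212562, nat_lit 170071, nat_lit 10455, nat_lit 10457],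
    [nat_lit 172190, nat_lit 74057804, nat_lit 170078, nat_lit 71473292, nat_lit 10663, nat_lit 96479438, nat_lit 138337, nat_lit 71441553, nat_lit 152681, nat_lit 71453796, nat_lit 7273, nat_lit 71310436, nat_lit 10667, nat_lit 29366570],
    [nat_lit 75669836, nat_lit 10462, nat_lit 10471, nat_lit 78203980, nat_lit 96639054, nat_lit 8481, nat_lit 9385, nat_lit 75650257, nat_lit 75506852, nat_lit 297, nat_lit 167019, nat_lit 75497764, nat_lit 29477994],
    [nat_lit 169191, nat_lit 29370590, nat_lit 29530206, nat_lit 96638150, nat_lit 153770, nat_lit 79697188, nat_lit 79808612, nat_lit 79699153, nat_lit 29530283, nat_lit 29365545, nat_lit 29476969, nat_lit 29463841],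
    [nat_lit 83896716, nat_lit 84053068, nat_lit 96641166, nat_lit 103713, nat_lit 116841, nat_lit 5417, nat_lit 170155, nat_lit 83893457, nat_lit 84002916, nat_lit 83891492, nat_lit 29513898],
    [nat_lit 29532318, nat_lit 96479430, nat_lit 117866, nat_lit 88080676, nat_lit 29527147, nat_lit 29360425, nat_lit 88089764, nat_lit 88233169, nat_lit 29369513, nat_lit 29368609],
    [nat_lit 96479622, nat_lit 6442, nat_lit 29370795, nat_lit 92281956, nat_lit 29367401, nat_lit 92425316, nat_lit 29512809, nat_lit 92413073, nat_lit 29498465],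
    [nat_lit 29370585, nat_lit 29370583, nat_lit 29530199, nat_lit 96572690, nat_lit 29532311, nat_lit 96477458, nat_lit 96607314, nat_lit 96475400],
    [nat_lit 100671956, nat_lit 100798548, nat_lit 100663910, nat_lit 100765844, nat_lit 100670694, nat_lit 100667558, nat_lit 6444],
    [nat_lit 104858219, nat_lit 105008215, nat_lit 104865131, nat_lit 104975511, nat_lit 46, nat_lit 130027686],
    [nat_lit 109061527, nat_lit 109119595, nat_lit 110, nat_lit 109154455, nat_lit 130030822],
    [nat_lit 174, nat_lit 113250475, nat_lit 113366123, nat_lit 130125972],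
    [nat_lit 117449175, nat_lit 117575767, nat_lit 130024038],
    [nat_lit 121644139, nat_lit 130158676],
    [nat_lit 130032084],
    []],
   [[nat_lit 33554945, nat_lit 33562946, nat_lit 33554817, nat_lit 33554818, nat_lit 33554820, nat_lit 33554821, nat_lit 138370, nat_lit 33564035, nat_lit 33708101, nat_lit 33564038, nat_lit 33675333, nat_lit 33561990, nat_lit 33560648, nat_lit 33554825, nat_lit 33563073, nat_lit 33564034, nat_lit 33564036, nat_lit 33564037, nat_lit 33561988, nat_lit 33561989, nat_lit 33554823, nat_lit 33554824],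
    [nat_lit 33687618, nat_lit 33554625, nat_lit 33554628, nat_lit 33557570, nat_lit 33557573, nat_lit 152770, nat_lit 33563845, nat_lit 33563843, nat_lit 33563846, nat_lit 33558725, nat_lit 33554632, nat_lit 33558726, nat_lit 33554633, nat_lit 33562881, nat_lit 33563844, nat_lit 33705026, nat_lit 33705029, nat_lit 33558724, nat_lit 33554631, nat_lit 33623109, nat_lit 33557576],
    [nat_lit 33559748, nat_lit 33560651, nat_lit 33554635, nat_lit 33562765, nat_lit 152773, nat_lit 153676, nat_lit 9420, nat_lit 33710222, nat_lit 7376, nat_lit 33690706, nat_lit 33562770, nat_lit 33562772, nat_lit 33707204, nat_lit 33708107, nat_lit 33563851, nat_lit 33710221, nat_lit 33561807, nat_lit 33690705, nat_lit 33562769, nat_lit 33562771],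
    [nat_lit 33560706, nat_lit 33639490, nat_lit 33560709, nat_lit 7362, nat_lit 33674437, nat_lit 33640645, nat_lit 33559752, nat_lit 33656963, nat_lit 33674438, nat_lit 33640646, nat_lit 33559753, nat_lit 33560833, nat_lit 33674436, nat_lit 33640644, nat_lit 33559751, nat_lit 33656962, nat_lit 33675397, nat_lit 33656965, nat_lit 33560712],
    [nat_lit 33559755, nat_lit 33560653, nat_lit 7365, nat_lit 2217036, nat_lit 9424, nat_lit 33560658, nat_lit 120012, nat_lit 33675342, nat_lit 33654866, nat_lit 33560660, nat_lit 33561796, nat_lit 33675339, nat_lit 33560655, nat_lit 33560657, nat_lit 33674443, nat_lit 33675341, nat_lit 33654865, nat_lit 33560659],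
    [nat_lit 33554637, nat_lit 102469, nat_lit 138384, nat_lit 135308, nat_lit 33554642, nat_lit 1640524, nat_lit 33559762, nat_lit 33558734, nat_lit 33554644, nat_lit 33560836, nat_lit 33554639, nat_lit 33558731, nat_lit 33554641, nat_lit 33640651, nat_lit 33559761, nat_lit 33558733, nat_lit 33554643],
    [nat_lit 7368, nat_lit 153682, nat_lit 9426, nat_lit 155799, nat_lit 120018, nat_lit 120919, nat_lit 4311, nat_lit 33554649, nat_lit 33560839, nat_lit 33708113, nat_lit 33563857, nat_lit 33562774, nat_lit 33674449, nat_lit 33560662, nat_lit 33554646, nat_lit 33554648],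
    [nat_lit 153730, nat_lit 136450, nat_lit 153733, nat_lit 6402, nat_lit 117829, nat_lit 6405, nat_lit 6408, nat_lit 6400, nat_lit 138371, nat_lit 136451, nat_lit 152774, nat_lit 6403, nat_lit 7366, nat_lit 6406, nat_lit 6409],
    [nat_lit 152779, nat_lit 153677, nat_lit 7371, nat_lit 138381, nat_lit 138385, nat_lit 138387, nat_lit 33692803, nat_lit 138378, nat_lit 2459724, nat_lit 153678, nat_lit 138380, nat_lit 138382, nat_lit 138386, nat_lit 138388],
    [nat_lit 9421, nat_lit 102475, nat_lit 152785, nat_lit 135309, nat_lit 9427, nat_lit 33690883, nat_lit 152780, nat_lit 9418, nat_lit 9422, nat_lit 2183244, nat_lit 152786, nat_lit 135310, nat_lit 9428],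
    [nat_lit 7377, nat_lit 138390, nat_lit 9430, nat_lit 9432, nat_lit 33707206, nat_lit 33708110, nat_lit 33563854, nat_lit 9429, nat_lit 33561810, nat_lit 153687, nat_lit 9431, nat_lit 9433],
    [nat_lit 7373, nat_lit 102477, nat_lit 7379, nat_lit 33560835, nat_lit 7372, nat_lit 102476, nat_lit 7378, nat_lit 7370, nat_lit 7374, nat_lit 102478, nat_lit 7380],
    [nat_lit 7382, nat_lit 7384, nat_lit 33561798, nat_lit 33692814, nat_lit 33707218, nat_lit 138391, nat_lit 33561806, nat_lit 7381, nat_lit 7383, nat_lit 7385],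
    [nat_lit 4312, nat_lit 33560838, nat_lit 33692818, nat_lit 33689742, nat_lit 135319, nat_lit 33656910, nat_lit 102487, nat_lit 4309, nat_lit 4313],
    [nat_lit 33560841, nat_lit 33692820, nat_lit 33563860, nat_lit 33563865, nat_lit 33561812, nat_lit 33561817, nat_lit 33558745, nat_lit 218],
    [nat_lit 33708162, nat_lit 33690882, nat_lit 33708165, nat_lit 33560834, nat_lit 33672261, nat_lit 33560837, nat_lit 33560840],
    [nat_lit 33707211, nat_lit 33708109, nat_lit 33561803, nat_lit 33692813, nat_lit 33692817, nat_lit 33692819],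
    [nat_lit 33563853, nat_lit 33656907, nat_lit 33707217, nat_lit 33689741, nat_lit 33563859],
    [nat_lit 33561809, nat_lit 33692822, nat_lit 33563862, nat_lit 33563864],
    [nat_lit 33561805, nat_lit 33656909, nat_lit 33561811],
    [nat_lit 33561814, nat_lit 33561816],
    [nat_lit 33558744],
    []],
   [[nat_lit 46137859, nat_lit 220, nat_lit 37753931, nat_lit 41943179, nat_lit 37748829, nat_lit 153739, nat_lit 9629, nat_lit 150621, nat_lit 155806, nat_lit 8351, nat_lit 136289, nat_lit 8353, nat_lit 8354, nat_lit 9436, nat_lit 37901387, nat_lit 41952395, nat_lit 37758045, nat_lit 8352, nat_lit 37749279, nat_lit 41951327, nat_lit 37749281],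
    [nat_lit 37748811, nat_lit 37748868, nat_lit 37757004, nat_lit 46139461, nat_lit 153741, nat_lit 37899339, nat_lit 37904462, nat_lit 40241228, nat_lit 37757011, nat_lit 37881937, nat_lit 37757012, nat_lit 37881938, nat_lit 37758027, nat_lit 37758084, nat_lit 37904460, nat_lit 46286917, nat_lit 37757009, nat_lit 37752911, nat_lit 37757010, nat_lit 37757008],
    [nat_lit 54532419, nat_lit 50333771, nat_lit 37753949, nat_lit 117835, nat_lit 120925, nat_lit 6239, nat_lit 6241, nat_lit 1920093, nat_lit 120926, nat_lit 100449, nat_lit 6242, nat_lit 7388, nat_lit 37755979, nat_lit 6240, nat_lit 37749151, nat_lit 50448459, nat_lit 37868637, nat_lit 50337951, nat_lit 37755233],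
    [nat_lit 37852236, nat_lit 54526085, nat_lit 138317, nat_lit 37869707, nat_lit 37755027, nat_lit 37755025, nat_lit 37869710, nat_lit 37869708, nat_lit 37755028, nat_lit 37755026, nat_lit 37868619, nat_lit 37756036, nat_lit 37852241, nat_lit 37752975, nat_lit 39687244, nat_lit 54533253, nat_lit 37852242, nat_lit 37755024],
    [nat_lit 62914574, nat_lit 153745, nat_lit 9633, nat_lit 2410596, nat_lit 136297, nat_lit 117924, nat_lit 6249, nat_lit 6250, nat_lit 6251, nat_lit 138400, nat_lit 37887057, nat_lit 136296, nat_lit 37898340, nat_lit 6248, nat_lit 37756068, nat_lit 58720534, nat_lit 37749162],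
    [nat_lit 138323, nat_lit 37887135, nat_lit 156005, nat_lit 37800036, nat_lit 7589, nat_lit 37751972, nat_lit 37748902, nat_lit 37751973, nat_lit 37757407, nat_lit 37749007, nat_lit 37750884, nat_lit 37752927, nat_lit 37748900, nat_lit 37752991, nat_lit 37748901, nat_lit 62914835],
    [nat_lit 67117507, nat_lit 67118213, nat_lit 2462796, nat_lit 67225669, nat_lit 138316, nat_lit 138320, nat_lit 138322, nat_lit 67247235, nat_lit 138314, nat_lit 153740, nat_lit 153742, nat_lit 2213964, nat_lit 138318, nat_lit 153746, nat_lit 138324],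
    [nat_lit 152669, nat_lit 71452747, nat_lit 7261, nat_lit 71310475, nat_lit 8673, nat_lit 71441503, nat_lit 8667, nat_lit 104995971, nat_lit 9630, nat_lit 40193117, nat_lit 8670, nat_lit 37866589, nat_lit 8674, nat_lit 37887137],
    [nat_lit 75498062, nat_lit 287, nat_lit 9380, nat_lit 75501715, nat_lit 9381, nat_lit 2444381, nat_lit 37902478, nat_lit 75506894, nat_lit 9379, nat_lit 150692, nat_lit 9637, nat_lit 150693, nat_lit 9382],
    [nat_lit 116836, nat_lit 9640, nat_lit 9642, nat_lit 79696022, nat_lit 153694, nat_lit 37902476, nat_lit 9639, nat_lit 113255630, nat_lit 9641, nat_lit 39635044, nat_lit 9643, nat_lit 37902442],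
    [nat_lit 83886542, nat_lit 83890259, nat_lit 7333, nat_lit 117853, nat_lit 37887054, nat_lit 1886308, nat_lit 138597, nat_lit 83893454, nat_lit 7331, nat_lit 117925, nat_lit 7334],
    [nat_lit 7594, nat_lit 88084566, nat_lit 138398, nat_lit 39962700, nat_lit 138601, nat_lit 37899428, nat_lit 7591, nat_lit 121642190, nat_lit 7595, nat_lit 37869674],
    [nat_lit 92275353, nat_lit 138401, nat_lit 37887060, nat_lit 153706, nat_lit 37758118, nat_lit 120938, nat_lit 37756070, nat_lit 92279001, nat_lit 428],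
    [nat_lit 138402, nat_lit 37902482, nat_lit 153707, nat_lit 37899429, nat_lit 120939, nat_lit 37866661, nat_lit 429, nat_lit 130027737],
    [nat_lit 104866243, nat_lit 100812875, nat_lit 37901405, nat_lit 100670603, nat_lit 37755997, nat_lit 100801631, nat_lit 37757409],
    [nat_lit 40211532, nat_lit 104866949, nat_lit 37887052, nat_lit 104974405, nat_lit 37887058, nat_lit 37887056],
    [nat_lit 113246798, nat_lit 153704, nat_lit 37865572, nat_lit 109056150, nat_lit 37758378],
    [nat_lit 37758116, nat_lit 37749023, nat_lit 37758117, nat_lit 113250451],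
    [nat_lit 121635278, nat_lit 117444694, nat_lit 37756330],
    [nat_lit 37756069, nat_lit 121638995],
    [nat_lit 130024089],
    []],
   [[nat_lit 41943051, nat_lit 41943564, nat_lit 41943364, nat_lit 46137669, nat_lit 150669, nat_lit 41952782, nat_lit 41952651, nat_lit 42099020, nat_lit 41943571, nat_lit 41943572, nat_lit 41951569, nat_lit 41951570, nat_lit 41943627, nat_lit 41952780, nat_lit 41952580, nat_lit 46146885, nat_lit 41943569, nat_lit 41943570, nat_lit 41943503, nat_lit 41943568],
    [nat_lit 50331979, nat_lit 58723459, nat_lit 41943197, nat_lit 6411, nat_lit 223, nat_lit 4317, nat_lit 225, nat_lit 86237, nat_lit 5345, nat_lit 4318, nat_lit 226, nat_lit 4316, nat_lit 224, nat_lit 41943307, nat_lit 41946207, nat_lit 50337035, nat_lit 50334879, nat_lit 41947293, nat_lit 41994337],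
    [nat_lit 41946252, nat_lit 62914638, nat_lit 136465, nat_lit 153956, nat_lit 150625, nat_lit 8361, nat_lit 4324, nat_lit 234, nat_lit 233, nat_lit 235, nat_lit 9440, nat_lit 8360, nat_lit 41951505, nat_lit 41952612, nat_lit 232, nat_lit 54533206, nat_lit 42011748, nat_lit 41946218],
    [nat_lit 58725445, nat_lit 8461, nat_lit 41946259, nat_lit 42045579, nat_lit 42028113, nat_lit 42011790, nat_lit 41946260, nat_lit 43322444, nat_lit 42028114, nat_lit 41947275, nat_lit 41946257, nat_lit 41948420, nat_lit 41946255, nat_lit 42011788, nat_lit 41946258, nat_lit 58806341, nat_lit 41946256],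
    [nat_lit 8467, nat_lit 155813, nat_lit 41952479, nat_lit 41949540, nat_lit 4325, nat_lit 41943270, nat_lit 41943268, nat_lit 41949541, nat_lit 42078303, nat_lit 41943396, nat_lit 41950287, nat_lit 41943519, nat_lit 41946212, nat_lit 41943397, nat_lit 41950367, nat_lit 62921811],
    [nat_lit 67261509, nat_lit 67117315, nat_lit 150668, nat_lit 67114245, nat_lit 8464, nat_lit 8460, nat_lit 8466, nat_lit 67245315, nat_lit 2444364, nat_lit 8458, nat_lit 150670, nat_lit 136460, nat_lit 136466, nat_lit 8462, nat_lit 8468],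
    [nat_lit 9373, nat_lit 71312462, nat_lit 7263, nat_lit 71310483, nat_lit 150628, nat_lit 9573, nat_lit 152797, nat_lit 71456846, nat_lit 42093710, nat_lit 9443, nat_lit 9444, nat_lit 153957, nat_lit 9445, nat_lit 9446],
    [nat_lit 75507019, nat_lit 285, nat_lit 135265, nat_lit 75583563, nat_lit 75505951, nat_lit 8475, nat_lit 150622, nat_lit 109188355, nat_lit 42095837, nat_lit 135262, nat_lit 135266, nat_lit 41949469, nat_lit 42095841],
    [nat_lit 5412, nat_lit 150634, nat_lit 150632, nat_lit 79699094, nat_lit 9438, nat_lit 9447, nat_lit 44387404, nat_lit 113399886, nat_lit 135337, nat_lit 150635, nat_lit 42046756, nat_lit 41952490],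
    [nat_lit 83886547, nat_lit 83890254, nat_lit 5413, nat_lit 6429, nat_lit 103716, nat_lit 41951502, nat_lit 135333, nat_lit 83988558, nat_lit 103717, nat_lit 4323, nat_lit 4326],
    [nat_lit 68714, nat_lit 88090713, nat_lit 152801, nat_lit 9450, nat_lit 41951508, nat_lit 41952486, nat_lit 4330, nat_lit 88087769, nat_lit 41947366, nat_lit 236],
    [nat_lit 92275158, nat_lit 135326, nat_lit 9449, nat_lit 42079500, nat_lit 41952484, nat_lit 4327, nat_lit 68715, nat_lit 125931598, nat_lit 41947370],
    [nat_lit 9442, nat_lit 9451, nat_lit 42079506, nat_lit 42096997, nat_lit 4331, nat_lit 237, nat_lit 42046757, nat_lit 130030809],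
    [nat_lit 100672843, nat_lit 109060355, nat_lit 41952413, nat_lit 100749387, nat_lit 100671775, nat_lit 41943325, nat_lit 42078305],
    [nat_lit 42093708, nat_lit 113255502, nat_lit 9448, nat_lit 104864918, nat_lit 41948452, nat_lit 42093674],
    [nat_lit 109204549, nat_lit 41951500, nat_lit 41951506, nat_lit 109057285, nat_lit 41951504],
    [nat_lit 42093668, nat_lit 41952613, nat_lit 41950303, nat_lit 113253523],
    [nat_lit 117440982, nat_lit 125833294, nat_lit 42011754],
    [nat_lit 41948453, nat_lit 130033753],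
    [nat_lit 125829587],
    []],
   [[nat_lit 50338124, nat_lit 50382924, nat_lit 62914702, nat_lit 6417, nat_lit 8676, nat_lit 86244, nat_lit 5354, nat_lit 102561, nat_lit 100457, nat_lit 5353, nat_lit 5355, nat_lit 7392, nat_lit 100456, nat_lit 5352, nat_lit 46146710, nat_lit 50435345, nat_lit 50332132, nat_lit 50335844, nat_lit 46307498],
    [nat_lit 46137502, nat_lit 62914694, nat_lit 138326, nat_lit 8680, nat_lit 149610, nat_lit 47237220, nat_lit 7338, nat_lit 54594724, nat_lit 46139499, nat_lit 46188649, nat_lit 138408, nat_lit 46141536, nat_lit 46303332, nat_lit 46137617, nat_lit 54536356, nat_lit 54531345, nat_lit 46139497, nat_lit 46141601],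
    [nat_lit 62914886, nat_lit 8470, nat_lit 9578, nat_lit 135272, nat_lit 46258532, nat_lit 86122, nat_lit 46137707, nat_lit 58727652, nat_lit 46143849, nat_lit 152808, nat_lit 46147940, nat_lit 46137824, nat_lit 46144593, nat_lit 58887268, nat_lit 46137705, nat_lit 58837073, nat_lit 46257249],
    [nat_lit 9368, nat_lit 46140566, nat_lit 46143638, nat_lit 46239889, nat_lit 46137497, nat_lit 46140567, nat_lit 46143639, nat_lit 63017106, nat_lit 46137494, nat_lit 46141585, nat_lit 46257233, nat_lit 46142727, nat_lit 46137495, nat_lit 62918802, nat_lit 63034450, nat_lit 62921864],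
    [nat_lit 67118406, nat_lit 67118214, nat_lit 67118222, nat_lit 67114248, nat_lit 67116114, nat_lit 67109138, nat_lit 9367, nat_lit 67261638, nat_lit 67262606, nat_lit 67259534, nat_lit 9365, nat_lit 67115282, nat_lit 153751, nat_lit 150679, nat_lit 9369],
    [nat_lit 9374, nat_lit 71452748, nat_lit 7265, nat_lit 71310481, nat_lit 9577, nat_lit 73975908, nat_lit 153758, nat_lit 73762892, nat_lit 9575, nat_lit 113396878, nat_lit 138345, nat_lit 71423204, nat_lit 9579, nat_lit 46142762],
    [nat_lit 75507020, nat_lit 289, nat_lit 149609, nat_lit 75583569, nat_lit 75667812, nat_lit 150686, nat_lit 9383, nat_lit 75650252, nat_lit 113399950, nat_lit 8489, nat_lit 149611, nat_lit 75505956, nat_lit 46254186],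
    [nat_lit 169194, nat_lit 79759460, nat_lit 79699300, nat_lit 79809681, nat_lit 152807, nat_lit 46288030, nat_lit 46291102, nat_lit 113398982, nat_lit 46290155, nat_lit 46273833, nat_lit 48351337, nat_lit 46143777],
    [nat_lit 83886548, nat_lit 83890260, nat_lit 83886758, nat_lit 6433, nat_lit 116842, nat_lit 5418, nat_lit 46146713, nat_lit 83893460, nat_lit 83893414, nat_lit 83890406, nat_lit 5420],
    [nat_lit 88081067, nat_lit 88247383, nat_lit 2213993, nat_lit 104866084, nat_lit 46146923, nat_lit 46288023, nat_lit 88087979, nat_lit 88087767, nat_lit 494, nat_lit 130027750],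
    [nat_lit 92285335, nat_lit 136489, nat_lit 46286955, nat_lit 109171940, nat_lit 46291095, nat_lit 92343403, nat_lit 4206, nat_lit 92377175, nat_lit 130030758],
    [nat_lit 152811, nat_lit 46145833, nat_lit 46275689, nat_lit 113252626, nat_lit 7406, nat_lit 96473323, nat_lit 96589931, nat_lit 130030804],
    [nat_lit 100817228, nat_lit 103073868, nat_lit 113255566, nat_lit 100781201, nat_lit 100670820, nat_lit 100730980, nat_lit 46306538],
    [nat_lit 46146718, nat_lit 113255558, nat_lit 105027940, nat_lit 104943697, nat_lit 46286953, nat_lit 46137633],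
    [nat_lit 113255750, nat_lit 111724644, nat_lit 46146921, nat_lit 109059217, nat_lit 46144609],
    [nat_lit 46146711, nat_lit 113246482, nat_lit 113253458, nat_lit 113251592],
    [nat_lit 117440983, nat_lit 117444695, nat_lit 130024102],
    [nat_lit 121645163, nat_lit 130027604],
    [nat_lit 130023892],
    []],
   [[nat_lit 50331652, nat_lit 54525957, nat_lit 117837, nat_lit 50339214, nat_lit 50332051, nat_lit 50332052, nat_lit 50339211, nat_lit 50339212, nat_lit 50332049, nat_lit 50332050, nat_lit 50339147, nat_lit 50452812, nat_lit 50338129, nat_lit 50338130, nat_lit 50332100, nat_lit 54526405, nat_lit 50332047, nat_lit 50332048],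
    [nat_lit 58720325, nat_lit 6413, nat_lit 50334803, nat_lit 50400334, nat_lit 50334804, nat_lit 50400331, nat_lit 50334801, nat_lit 50400332, nat_lit 50334802, nat_lit 50399307, nat_lit 50382929, nat_lit 51431500, nat_lit 50382930, nat_lit 50331908, nat_lit 50334799, nat_lit 58724421, nat_lit 50334800],
    [nat_lit 6419, nat_lit 120997, nat_lit 86245, nat_lit 50331686, nat_lit 50339039, nat_lit 50332196, nat_lit 50336996, nat_lit 50332197, nat_lit 50434207, nat_lit 50331684, nat_lit 50331748, nat_lit 50331685, nat_lit 50338063, nat_lit 50332255, nat_lit 50340959, nat_lit 62923923],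
    [nat_lit 67116101, nat_lit 67109125, nat_lit 6416, nat_lit 67212547, nat_lit 1886284, nat_lit 103692, nat_lit 103698, nat_lit 67115267, nat_lit 117836, nat_lit 6412, nat_lit 6418, nat_lit 6410, nat_lit 117838, nat_lit 6414, nat_lit 6420],
    [nat_lit 9375, nat_lit 71312467, nat_lit 116829, nat_lit 71310478, nat_lit 7268, nat_lit 485, nat_lit 7389, nat_lit 71441550, nat_lit 120036, nat_lit 8677, nat_lit 50449486, nat_lit 483, nat_lit 120037, nat_lit 486],
    [nat_lit 75498067, nat_lit 5405, nat_lit 292, nat_lit 75501710, nat_lit 293, nat_lit 102493, nat_lit 8484, nat_lit 75632782, nat_lit 8485, nat_lit 50338062, nat_lit 102565, nat_lit 291, nat_lit 294],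
    [nat_lit 117921, nat_lit 121002, nat_lit 102570, nat_lit 79702169, nat_lit 7393, nat_lit 120042, nat_lit 86250, nat_lit 79701209, nat_lit 50338068, nat_lit 50332134, nat_lit 50331942, nat_lit 5356],
    [nat_lit 83886539, nat_lit 83890251, nat_lit 83892511, nat_lit 6427, nat_lit 117918, nat_lit 102558, nat_lit 102562, nat_lit 117446915, nat_lit 50339037, nat_lit 50434141, nat_lit 50339041],
    [nat_lit 102568, nat_lit 88089686, nat_lit 7390, nat_lit 120039, nat_lit 1640553, nat_lit 121003, nat_lit 50449484, nat_lit 121773198, nat_lit 50340132, nat_lit 50451690],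
    [nat_lit 92275286, nat_lit 102494, nat_lit 102569, nat_lit 86247, nat_lit 102571, nat_lit 50338060, nat_lit 50451684, nat_lit 125964430, nat_lit 50417898],
    [nat_lit 7394, nat_lit 120043, nat_lit 86251, nat_lit 5357, nat_lit 50338066, nat_lit 50340325, nat_lit 50340133, nat_lit 130032857],
    [nat_lit 100663755, nat_lit 100667467, nat_lit 100669727, nat_lit 117544195, nat_lit 50448477, nat_lit 50337053, nat_lit 50449569],
    [nat_lit 120040, nat_lit 104866902, nat_lit 52217932, nat_lit 121642126, nat_lit 50331940, nat_lit 50452650],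
    [nat_lit 109052502, nat_lit 50435340, nat_lit 50338916, nat_lit 125833358, nat_lit 50434218],
    [nat_lit 50435346, nat_lit 50332133, nat_lit 50331941, nat_lit 130033817],
    [nat_lit 117447749, nat_lit 117440773, nat_lit 50338064],
    [nat_lit 50341023, nat_lit 121644115],
    [nat_lit 125829715],
    []],
   [[nat_lit 62914566, nat_lit 6422, nat_lit 490, nat_lit 4202, nat_lit 54525995, nat_lit 117928, nat_lit 54535716, nat_lit 58873060, nat_lit 54526505, nat_lit 7400, nat_lit 54526628, nat_lit 58730596, nat_lit 54525993, nat_lit 54526560, nat_lit 54678609, nat_lit 58729617, nat_lit 54535265],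
    [nat_lit 7256, nat_lit 54529110, nat_lit 54526041, nat_lit 54529111, nat_lit 54534230, nat_lit 54676561, nat_lit 54534231, nat_lit 63065170, nat_lit 54526038, nat_lit 54593617, nat_lit 54526039, nat_lit 62982226, nat_lit 54535249, nat_lit 54526215, nat_lit 62923858, nat_lit 62918728],
    [nat_lit 67109318, nat_lit 67109128, nat_lit 67261522, nat_lit 67116166, nat_lit 67116110, nat_lit 67114258, nat_lit 7255, nat_lit 67116230, nat_lit 67247182, nat_lit 67245330, nat_lit 138327, nat_lit 67226702, nat_lit 7253, nat_lit 117847, nat_lit 7257],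
    [nat_lit 152673, nat_lit 71452753, nat_lit 7262, nat_lit 71310476, nat_lit 489, nat_lit 71470244, nat_lit 138334, nat_lit 71441548, nat_lit 8681, nat_lit 71312612, nat_lit 487, nat_lit 121752654, nat_lit 491, nat_lit 54526250],
    [nat_lit 75498068, nat_lit 5409, nat_lit 10474, nat_lit 75501716, nat_lit 75507942, nat_lit 136481, nat_lit 9386, nat_lit 75506900, nat_lit 75506854, nat_lit 298, nat_lit 54533209, nat_lit 75497766, nat_lit 300],
    [nat_lit 7337, nat_lit 88084644, nat_lit 79702379, nat_lit 79858839, nat_lit 138409, nat_lit 104961316, nat_lit 79701419, nat_lit 79701207, nat_lit 54526443, nat_lit 54643799, nat_lit 430, nat_lit 130023718],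
    [nat_lit 83886540, nat_lit 83890257, nat_lit 83896868, nat_lit 117854, nat_lit 7335, nat_lit 103721, nat_lit 7339, nat_lit 83893452, nat_lit 121773134, nat_lit 83989796, nat_lit 54535338],
    [nat_lit 88080996, nat_lit 88215633, nat_lit 7399, nat_lit 54643806, nat_lit 54533355, nat_lit 54532393, nat_lit 54664286, nat_lit 121642182, nat_lit 54664361, nat_lit 54662433],
    [nat_lit 92285463, nat_lit 6441, nat_lit 54533291, nat_lit 92377259, nat_lit 4270, nat_lit 117449956, nat_lit 54664279, nat_lit 92410007, nat_lit 130032806],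
    [nat_lit 7403, nat_lit 54629673, nat_lit 6254, nat_lit 96555243, nat_lit 54534633, nat_lit 121771282, nat_lit 96622699, nat_lit 130032852],
    [nat_lit 100671948, nat_lit 100798545, nat_lit 100663908, nat_lit 100781196, nat_lit 121642062, nat_lit 100667556, nat_lit 54536426],
    [nat_lit 104868388, nat_lit 104861777, nat_lit 54533214, nat_lit 121642118, nat_lit 54533289, nat_lit 54531361],
    [nat_lit 109052503, nat_lit 117607588, nat_lit 54533207, nat_lit 109056151, nat_lit 130033894],
    [nat_lit 54526441, nat_lit 121640210, nat_lit 113415275, nat_lit 130027668],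
    [nat_lit 121635270, nat_lit 117590097, nat_lit 54678625],
    [nat_lit 121787474, nat_lit 121635080],
    [nat_lit 130024020],
    []],
   [[nat_lit 280, nat_lit 58720281, nat_lit 58720662, nat_lit 58720663, nat_lit 58720790, nat_lit 58720791, nat_lit 58729873, nat_lit 62924178, nat_lit 58720278, nat_lit 58720279, nat_lit 58727761, nat_lit 62922066, nat_lit 58720849, nat_lit 62915154, nat_lit 58720711, nat_lit 62915016],
    [nat_lit 67116104, nat_lit 67109126, nat_lit 67118226, nat_lit 67114246, nat_lit 67225682, nat_lit 67109134, nat_lit 279, nat_lit 67115270, nat_lit 67262610, nat_lit 67117326, nat_lit 8471, nat_lit 67115278, nat_lit 6423, nat_lit 277, nat_lit 281],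
    [nat_lit 9377, nat_lit 71312468, nat_lit 116833, nat_lit 71310484, nat_lit 170090, nat_lit 71313574, nat_lit 153761, nat_lit 71441556, nat_lit 152682, nat_lit 71312614, nat_lit 7274, nat_lit 71303654, nat_lit 58720537, nat_lit 492],
    [nat_lit 75507025, nat_lit 286, nat_lit 4201, nat_lit 75583564, nat_lit 75507940, nat_lit 8478, nat_lit 135273, nat_lit 77680716, nat_lit 75648164, nat_lit 295, nat_lit 4203, nat_lit 125835534, nat_lit 58727530],
    [nat_lit 86121, nat_lit 79857771, nat_lit 92392548, nat_lit 79861911, nat_lit 2183273, nat_lit 79842411, nat_lit 110938212, nat_lit 79845463, nat_lit 58724459, nat_lit 3182, nat_lit 58726679, nat_lit 130023910],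
    [nat_lit 83886545, nat_lit 83890252, nat_lit 84055268, nat_lit 6430, nat_lit 1658985, nat_lit 5415, nat_lit 86123, nat_lit 83988556, nat_lit 85772388, nat_lit 125837582, nat_lit 58872938],
    [nat_lit 92284004, nat_lit 88252503, nat_lit 102505, nat_lit 88201387, nat_lit 58806379, nat_lit 3246, nat_lit 117591204, nat_lit 88218775, nat_lit 58728727, nat_lit 130032870],
    [nat_lit 92283345, nat_lit 6439, nat_lit 58822763, nat_lit 58726686, nat_lit 58822761, nat_lit 58728734, nat_lit 60903529, nat_lit 125835526, nat_lit 58874017],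
    [nat_lit 102507, nat_lit 238, nat_lit 60379241, nat_lit 96589035, nat_lit 58855529, nat_lit 96478443, nat_lit 125982866, nat_lit 130161812],
    [nat_lit 100671953, nat_lit 100798540, nat_lit 100672612, nat_lit 102322252, nat_lit 100781156, nat_lit 125829390, nat_lit 58890346],
    [nat_lit 109221092, nat_lit 104866903, nat_lit 117450980, nat_lit 104864919, nat_lit 58720535, nat_lit 130033830],
    [nat_lit 109052369, nat_lit 58720542, nat_lit 58806377, nat_lit 125834502, nat_lit 58837089],
    [nat_lit 58724457, nat_lit 113256619, nat_lit 125945938, nat_lit 130030740],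
    [nat_lit 117450065, nat_lit 125829382, nat_lit 58729633],
    [nat_lit 125838482, nat_lit 130032724],
    [nat_lit 125836360],
    []],
   [[nat_lit 67109321, nat_lit 67109129, nat_lit 67118228, nat_lit 67114249, nat_lit 67116116, nat_lit 67109140, nat_lit 67119321, nat_lit 67115273, nat_lit 67247188, nat_lit 67117332, nat_lit 67118233, nat_lit 67115284, nat_lit 67116121, nat_lit 67109145, nat_lit 282],
    [nat_lit 9378, nat_lit 71452754, nat_lit 7266, nat_lit 71310482, nat_lit 170091, nat_lit 71470245, nat_lit 138338, nat_lit 71441554, nat_lit 152683, nat_lit 71312613, nat_lit 7275, nat_lit 71423205, nat_lit 493, nat_lit 130023705],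
    [nat_lit 75507026, nat_lit 290, nat_lit 10475, nat_lit 75583570, nat_lit 75667813, nat_lit 8482, nat_lit 9387, nat_lit 75650258, nat_lit 75507109, nat_lit 299, nat_lit 301, nat_lit 75600037, nat_lit 130030681],
    [nat_lit 169195, nat_lit 79696041, nat_lit 79811689, nat_lit 96586898, nat_lit 153771, nat_lit 79827113, nat_lit 79701417, nat_lit 113253586, nat_lit 6446, nat_lit 62914859, nat_lit 62921835, nat_lit 130029844],
    [nat_lit 83886546, nat_lit 83890258, nat_lit 83896869, nat_lit 6434, nat_lit 116843, nat_lit 5419, nat_lit 5421, nat_lit 83893458, nat_lit 84024677, nat_lit 84021413, nat_lit 130032793],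
    [nat_lit 88089705, nat_lit 96604242, nat_lit 117867, nat_lit 89720937, nat_lit 7278, nat_lit 62919979, nat_lit 88218985, nat_lit 121787602, nat_lit 63067243, nat_lit 130031892],
    [nat_lit 96477650, nat_lit 6443, nat_lit 302, nat_lit 92377257, nat_lit 63031403, nat_lit 92284137, nat_lit 62923947, nat_lit 125967506, nat_lit 130161748],
    [nat_lit 6445, nat_lit 62921003, nat_lit 63032427, nat_lit 62920994, nat_lit 63068331, nat_lit 62923042, nat_lit 63052898, nat_lit 130029833],
    [nat_lit 100671954, nat_lit 100798546, nat_lit 100663909, nat_lit 100781202, nat_lit 100670821, nat_lit 100667557, nat_lit 130033881],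
    [nat_lit 104858217, nat_lit 113250386, nat_lit 104865129, nat_lit 121720914, nat_lit 63084651, nat_lit 130023700],
    [nat_lit 113246674, nat_lit 109119593, nat_lit 62925035, nat_lit 125836434, nat_lit 130030676],
    [nat_lit 63083755, nat_lit 62914850, nat_lit 62921826, nat_lit 130028809],
    [nat_lit 121644370, nat_lit 125978706, nat_lit 130032788],
    [nat_lit 62923938, nat_lit 130023689],
    [nat_lit 130023881],
    []],
   [[nat_lit 67109441, nat_lit 67118402, nat_lit 67109313, nat_lit 67109314, nat_lit 67119492, nat_lit 67119493, nat_lit 67117505, nat_lit 67117506, nat_lit 67118404, nat_lit 67118405, nat_lit 67109316, nat_lit 67109317, nat_lit 67109319, nat_lit 67109320],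
    [nat_lit 67258434, nat_lit 67109121, nat_lit 67119300, nat_lit 67113026, nat_lit 67275845, nat_lit 67117313, nat_lit 67118212, nat_lit 67244098, nat_lit 67258437, nat_lit 67109124, nat_lit 67109127, nat_lit 67113029, nat_lit 67113032],
    [nat_lit 67278020, nat_lit 67278923, nat_lit 67119307, nat_lit 67281037, nat_lit 67261636, nat_lit 67261515, nat_lit 67118219, nat_lit 67118221, nat_lit 67115279, nat_lit 67261521, nat_lit 67118225, nat_lit 67118227],
    [nat_lit 67116162, nat_lit 67194946, nat_lit 67278981, nat_lit 67115265, nat_lit 67116164, nat_lit 67114244, nat_lit 67114247, nat_lit 67226754, nat_lit 67116165, nat_lit 67194949, nat_lit 67116168],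
    [nat_lit 67278027, nat_lit 67278925, nat_lit 67116228, nat_lit 67116107, nat_lit 67116111, nat_lit 67116113, nat_lit 67225675, nat_lit 67116109, nat_lit 67225681, nat_lit 67116115],
    [nat_lit 67119309, nat_lit 67115268, nat_lit 67109135, nat_lit 67109131, nat_lit 67109137, nat_lit 67114251, nat_lit 67114257, nat_lit 67109133, nat_lit 67109139],
    [nat_lit 67115271, nat_lit 67247185, nat_lit 67117329, nat_lit 67118230, nat_lit 67212561, nat_lit 67116118, nat_lit 67109142, nat_lit 67119320],
    [nat_lit 67247234, nat_lit 67261634, nat_lit 67261637, nat_lit 67116226, nat_lit 67116229, nat_lit 67211333, nat_lit 67116232],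
    [nat_lit 67262603, nat_lit 67262605, nat_lit 67226699, nat_lit 67247181, nat_lit 67262609, nat_lit 67247187],
    [nat_lit 67259533, nat_lit 67115275, nat_lit 67245329, nat_lit 67117325, nat_lit 67117331],
    [nat_lit 67115281, nat_lit 67247190, nat_lit 67117334, nat_lit 67118232],
    [nat_lit 67226701, nat_lit 67115277, nat_lit 67115283],
    [nat_lit 67115286, nat_lit 67116120],
    [nat_lit 67109144],
    []],
   [[nat_lit 79692355, nat_lit 10460, nat_lit 71472203, nat_lit 75507851, nat_lit 71313501, nat_lit 9372, nat_lit 71456843, nat_lit 75506891, nat_lit 71303773, nat_lit 9376, nat_lit 71303775, nat_lit 75506783, nat_lit 71303777],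
    [nat_lit 71313483, nat_lit 71313540, nat_lit 71475276, nat_lit 79857733, nat_lit 71312459, nat_lit 71312580, nat_lit 71312460, nat_lit 79842373, nat_lit 71312465, nat_lit 71306319, nat_lit 71312466, nat_lit 71312464],
    [nat_lit 88087875, nat_lit 84052043, nat_lit 71472221, nat_lit 7260, nat_lit 71424075, nat_lit 7264, nat_lit 71303647, nat_lit 84006091, nat_lit 71310685, nat_lit 83893407, nat_lit 71310689],
    [nat_lit 74028108, nat_lit 88090757, nat_lit 71423051, nat_lit 71423172, nat_lit 71423057, nat_lit 71306383, nat_lit 71423052, nat_lit 88201349, nat_lit 71423058, nat_lit 71310480],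
    [nat_lit 96469646, nat_lit 138336, nat_lit 71456849, nat_lit 152680, nat_lit 71312740, nat_lit 7272, nat_lit 71303652, nat_lit 92274902, nat_lit 71313834],
    [nat_lit 71311839, nat_lit 71303375, nat_lit 71469156, nat_lit 71306335, nat_lit 71313572, nat_lit 71306399, nat_lit 71313573, nat_lit 96469203],
    [nat_lit 104867203, nat_lit 100813899, nat_lit 71312797, nat_lit 100784267, nat_lit 71424093, nat_lit 100801695, nat_lit 71312801],
    [nat_lit 71456844, nat_lit 104867013, nat_lit 73520204, nat_lit 104977605, nat_lit 71456850, nat_lit 71441552],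
    [nat_lit 113255950, nat_lit 138344, nat_lit 71311844, nat_lit 109055126, nat_lit 71312746],
    [nat_lit 71457124, nat_lit 71303391, nat_lit 71458981, nat_lit 113249427],
    [nat_lit 121642382, nat_lit 117443670, nat_lit 71303658],
    [nat_lit 71424165, nat_lit 121637971],
    [nat_lit 130023449],
    []],
   [[nat_lit 75498123, nat_lit 75508236, nat_lit 75508036, nat_lit 79702341, nat_lit 75498059, nat_lit 75498060, nat_lit 75507076, nat_lit 79701381, nat_lit 75498065, nat_lit 75498066, nat_lit 75497871, nat_lit 75498064],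
    [nat_lit 83896651, nat_lit 92278915, nat_lit 75507869, nat_lit 284, nat_lit 288, nat_lit 75501771, nat_lit 75501663, nat_lit 83972299, nat_lit 83890335, nat_lit 75565149, nat_lit 75565153],
    [nat_lit 75664524, nat_lit 96479310, nat_lit 8480, nat_lit 9384, nat_lit 75506897, nat_lit 75647076, nat_lit 296, nat_lit 88086614, nat_lit 75501668, nat_lit 75664490],
    [nat_lit 92443717, nat_lit 75501707, nat_lit 75501713, nat_lit 75583684, nat_lit 75501711, nat_lit 75501708, nat_lit 75501714, nat_lit 92377221, nat_lit 75501712],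
    [nat_lit 75632735, nat_lit 75508068, nat_lit 75503695, nat_lit 75497887, nat_lit 75664484, nat_lit 75508069, nat_lit 75503775, nat_lit 96475219],
    [nat_lit 100672907, nat_lit 109061315, nat_lit 75648093, nat_lit 100765835, nat_lit 100672735, nat_lit 75501789, nat_lit 75648097],
    [nat_lit 75506892, nat_lit 113401934, nat_lit 8488, nat_lit 104863894, nat_lit 75583716, nat_lit 75647082],
    [nat_lit 109205573, nat_lit 75632780, nat_lit 75506898, nat_lit 109138117, nat_lit 75506896],
    [nat_lit 77908068, nat_lit 75653477, nat_lit 75503711, nat_lit 113252499],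
    [nat_lit 117440918, nat_lit 125897806, nat_lit 75501674],
    [nat_lit 75583717, nat_lit 130023513],
    [nat_lit 125829523],
    []],
   [[nat_lit 84056396, nat_lit 86558796, nat_lit 96479374, nat_lit 6432, nat_lit 116840, nat_lit 5416, nat_lit 79700118, nat_lit 84006097, nat_lit 83893412, nat_lit 83954788, nat_lit 79698090],
    [nat_lit 79702174, nat_lit 96479366, nat_lit 153768, nat_lit 79694944, nat_lit 79693924, nat_lit 79691985, nat_lit 88080548, nat_lit 88085713, nat_lit 79691945, nat_lit 79695009],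
    [nat_lit 96479558, nat_lit 136488, nat_lit 79692132, nat_lit 79692192, nat_lit 79698001, nat_lit 92277860, nat_lit 79697001, nat_lit 92375121, nat_lit 79795297],
    [nat_lit 79691926, nat_lit 79694993, nat_lit 79795281, nat_lit 79697095, nat_lit 79702167, nat_lit 96472210, nat_lit 96572498, nat_lit 96475272],
    [nat_lit 100672908, nat_lit 100813900, nat_lit 113401998, nat_lit 100765841, nat_lit 100784484, nat_lit 101763172, nat_lit 79697130],
    [nat_lit 79847582, nat_lit 113255622, nat_lit 104864100, nat_lit 104942673, nat_lit 79700137, nat_lit 79692001],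
    [nat_lit 113255814, nat_lit 109103204, nat_lit 79828073, nat_lit 109058193, nat_lit 79698017],
    [nat_lit 79847575, nat_lit 113246418, nat_lit 113252434, nat_lit 113251528],
    [nat_lit 117448087, nat_lit 117509207, nat_lit 130023462],
    [nat_lit 121634923, nat_lit 130026580],
    [nat_lit 130023828],
    []],
   [[nat_lit 83886724, nat_lit 88081029, nat_lit 83893579, nat_lit 83893580, nat_lit 83893585, nat_lit 83893586, nat_lit 83893636, nat_lit 88087941, nat_lit 83886543, nat_lit 83886544],
    [nat_lit 92284997, nat_lit 83953739, nat_lit 83953745, nat_lit 83953740, nat_lit 83953746, nat_lit 83890372, nat_lit 83890255, nat_lit 92343365, nat_lit 83890256],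
    [nat_lit 83988639, nat_lit 83886756, nat_lit 83896420, nat_lit 83886757, nat_lit 83893455, nat_lit 83886623, nat_lit 83894367, nat_lit 96477331],
    [nat_lit 100670859, nat_lit 100731979, nat_lit 100670687, nat_lit 117543043, nat_lit 85806173, nat_lit 83972317, nat_lit 83988641],
    [nat_lit 103720, nat_lit 104865878, nat_lit 84006092, nat_lit 121755790, nat_lit 83890404, nat_lit 83893418],
    [nat_lit 109052438, nat_lit 85526604, nat_lit 84004004, nat_lit 125897870, nat_lit 83972202],
    [nat_lit 84006098, nat_lit 83893669, nat_lit 83890405, nat_lit 130023577],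
    [nat_lit 117561413, nat_lit 117444805, nat_lit 83893456],
    [nat_lit 83894431, nat_lit 121643091],
    [nat_lit 125829651],
    []],
   [[nat_lit 96469638, nat_lit 6440, nat_lit 88080420, nat_lit 92274788, nat_lit 88080489, nat_lit 88080928, nat_lit 88216657, nat_lit 92283025, nat_lit 88088673],
    [nat_lit 88080470, nat_lit 88131665, nat_lit 88090711, nat_lit 96520274, nat_lit 88088657, nat_lit 88080583, nat_lit 96477266, nat_lit 96472136],
    [nat_lit 100801868, nat_lit 100813905, nat_lit 100673060, nat_lit 102583372, nat_lit 121755726, nat_lit 100732068, nat_lit 88080618],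
    [nat_lit 104858148, nat_lit 104860753, nat_lit 88201310, nat_lit 121754822, nat_lit 88180841, nat_lit 88085729],
    [nat_lit 109061655, nat_lit 117443748, nat_lit 88201303, nat_lit 109120663, nat_lit 130023654],
    [nat_lit 88086633, nat_lit 121640146, nat_lit 113251435, nat_lit 130026644],
    [nat_lit 121642374, nat_lit 117573713, nat_lit 88216673],
    [nat_lit 121771090, nat_lit 121635016],
    [nat_lit 130023956],
    []],
   [[nat_lit 92274710, nat_lit 92275351, nat_lit 92281169, nat_lit 96475474, nat_lit 92275217, nat_lit 96469522, nat_lit 92275079, nat_lit 96469384],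
    [nat_lit 100672913, nat_lit 102828108, nat_lit 100816100, nat_lit 100765836, nat_lit 100670692, nat_lit 125833422, nat_lit 92280938],
    [nat_lit 109057252, nat_lit 105013335, nat_lit 117440740, nat_lit 104978583, nat_lit 92278999, nat_lit 130023590],
    [nat_lit 109052305, nat_lit 92279006, nat_lit 92280041, nat_lit 125915334, nat_lit 92375137],
    [nat_lit 92274921, nat_lit 113246379, nat_lit 125929554, nat_lit 130029716],
    [nat_lit 117449041, nat_lit 125833414, nat_lit 92283041],
    [nat_lit 125837458, nat_lit 130031700],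
    [nat_lit 125835336],
    []],
   [[nat_lit 100672914, nat_lit 100813906, nat_lit 100673061, nat_lit 100765842, nat_lit 100784485, nat_lit 100732069, nat_lit 130023641],
    [nat_lit 104865897, nat_lit 113249362, nat_lit 104961129, nat_lit 121719890, nat_lit 96475243, nat_lit 130023636],
    [nat_lit 113246610, nat_lit 109055145, nat_lit 96469227, nat_lit 125835410, nat_lit 130029652],
    [nat_lit 96474347, nat_lit 96469218, nat_lit 96475234, nat_lit 130028745],
    [nat_lit 121643346, nat_lit 125962322, nat_lit 130031764],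
    [nat_lit 96477346, nat_lit 130023625],
    [nat_lit 130023817],
    []],
   [[nat_lit 100663876, nat_lit 104858181, nat_lit 100670788, nat_lit 104865093, nat_lit 100663311, nat_lit 100671952],
    [nat_lit 109061189, nat_lit 100667524, nat_lit 100663375, nat_lit 109119557, nat_lit 100798544],
    [nat_lit 100663439, nat_lit 100663327, nat_lit 100663391, nat_lit 113246355],
    [nat_lit 117560389, nat_lit 117444741, nat_lit 100765840],
    [nat_lit 100663455, nat_lit 121634899],
    [nat_lit 125829139],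
    []],
   [[nat_lit 113246790, nat_lit 104857632, nat_lit 104862801, nat_lit 109052049, nat_lit 104857697],
    [nat_lit 104857681, nat_lit 104857735, nat_lit 113246290, nat_lit 113248328],
    [nat_lit 121642310, nat_lit 117442641, nat_lit 104862817],
    [nat_lit 121640018, nat_lit 121634952],
    [nat_lit 130023444],
    []],
   [[nat_lit 109051921, nat_lit 113246226, nat_lit 109052231, nat_lit 113246536],
    [nat_lit 117440849, nat_lit 125833350, nat_lit 109052065],
    [nat_lit 125829266, nat_lit 130023508],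
    [nat_lit 125834312],
    []],
   [[nat_lit 121635154, nat_lit 125831250, nat_lit 130023572],
    [nat_lit 113246370, nat_lit 130023561],
    [nat_lit 130023753],
    []],
   [[nat_lit 117440519, nat_lit 121634824],
    [nat_lit 125829192],
    []],
   [[nat_lit 130023433],
    []],
   [[]],
   []]

theorem paA4_ok : all4 paR4 47 paA4 = true := by decide +kernel

theorem CF.oneS {T M i N : ℕ} {S : List ℕ} (hT : ∀ j < M, GoodP 1 T j) (hi' : i < M)
    (hN : N ≤ tN T i) (h : ∀ x < 32, x ≠ 0 → lo (sw4p (S.getD x 0) (tZ T i)) = FULL ∧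
      (hi (sw4p (S.getD x 0) (tZ T i))).testBit x = true) : CF 1 [0] N := by
  intro k hk R hR
  simp only [List.map_cons, List.map_nil, List.sum_cons, List.sum_nil] at hk
  by_cases hex : ∃ x ∈ R, x < 32 ∧ x ≠ 0
  · obtain ⟨x, hx, hx32, hx0⟩ := hex
    obtain ⟨h1, h2⟩ := h x hx32 hx0
    have g := (GZ.sw4 (s := S.getD x 0) (tZ_lt T i) (hT i hi')).2
    have g2 := g.1 (k 0) R (by omega) hR (by
      intro y hy _
      have : y = x := Finset.card_le_one.1 hR y hy x hx
      rw [this]
      exact h2)
    rw [h1] at g2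
    exact g2
  · obtain ⟨h1, h2⟩ := h 1 (by norm_num) (by norm_num)
    have g := (GZ.sw4 (s := S.getD 1 0) (tZ_lt T i) (hT i hi')).2
    have g2 := g.1 (k 0) ∅ (by omega) (by simp) (by
      intro y hy
      exact absurd hy (Finset.notMem_empty _))
    rw [h1] at g2
    refine weakR (k := k) (zs := [0]) g2 ?_
    intro y hy hyR
    right
    have h3 := FULL_tb.1 hy
    by_cases hy0 : y = 0
    · rw [hy0]; simp
    · exact absurd ⟨y, hyR, h3, hy0⟩ hex

theorem pa1 : CF 1 [0] 23 :=
  CF.oneS (T := Pa1T) (i := 2386) (S := [0, 0, 1, 0, 2, 5, 2, 0, 3, 6, 3, 8, 83, 6, 3, 0, 4, 7, 4, 9, 84, 7,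
    4, 10, 100, 135, 132, 9, 100, 7, 4, 0]) Pa1_ok (by norm_num) (by decide +kernel)
    (by decide +kernel)

theorem q5_11 (s : ℕ) (w : List ℕ) (hl : w.length = 1) (hs : w.sum ≤ 23) : GdO 5 1 s w := by
  match w, hl with
  | [n], _ => exact gdO_one pa1 (by simpa using hs)

theorem q5_21 (s : ℕ) (w : List ℕ) (hl : w.length = 2) (hs : w.sum ≤ 23) : GdO 5 1 s w :=
  gdO_two (fun _ h0 hb => (CP.cl 1 23).all2 paR2_ok paA2_ok h0 hb) hl hs

theorem q5_31 (s : ℕ) (w : List ℕ) (hl : w.length = 3) (hs : w.sum ≤ 22) : GdO 5 1 s w :=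
  gdO_three (fun _ _ h0 h1 h2 => (CP.cl 1 22).all3 paR3_ok paA3_ok h0 h1 h2) hl hs

theorem q5_41 (s : ℕ) (w : List ℕ) (hl : w.length = 4) (hs : w.sum ≤ 21) : GdO 5 1 s w :=
  gdO_four (fun _ _ _ h0 h1 h2 h3 => (CP.cl 1 21).all4 paR4_ok paA4_ok h0 h1 h2 h3) hl hs

end Pt

end Pool.Agent.Work.MP_bf01b2_co.MR
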