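import Pool.Agent.Work.MP_bf01b2_co.MR.PaF
import Pool.Agent.Work.MP_bf01b2_co.MR.TabsO

/-!
# The facts of `Q_5` with one soft position, as a list
-/

set_option autoImplicit false

namespace Pool.Agent.Work.MP_bf01b2_co.MR

/-- one soft position: total sizes `23, 23, 22, 21` for `1, 2, 3, 4` trees -/
theorem q5_baseO1 : BaseO 5 [(1, 1, 23), (2, 1, 23), (3, 1, 22), (4, 1, 21)] :=
  (((BaseO.nil.cons Pt.q5_41).cons Pt.q5_31).cons Pt.q5_21).cons Pt.q5_11

end Pool.Agent.Work.MP_bf01b2_co.MR
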