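import Pool.Agent.Work.MP_bf01b2_co.MR.PaXR0

namespace Pool.Agent.Work.MP_bf01b2_co.MR

namespace Pt

theorem PaX_ok : ∀ j < 2179, GoodP 1 PaXT j := by
  have h : ∀ j < 0, GoodP 1 PaXT j := fun j hj => absurd hj (Nat.not_lt_zero j)
  replace h := PaX_step0 h
  replace h := PaX_step1 h
  replace h := PaX_step2 h
  replace h := PaX_step3 h
  replace h := PaX_step4 h
  replace h := PaX_step5 h
  replace h := PaX_step6 h
  replace h := PaX_step7 h
  exact h

end Pt

end Pool.Agent.Work.MP_bf01b2_co.MR
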