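import Pool.Agent.Work.MP_bf01b2_co.MR.PathG
import Pool.Agent.Work.MP_bf01b2_co.MR.Mask

/-!
# Marks recursion: the calculus of facts for labelled trees

`LT.onp x t`: the holes of `t` whose label contains `x` have their parents on one descending path.
A fact `PF adj X ms` says: all forests of labelled trees with roots at the positions of the marks
`ms`, whose sizes are bounded, whose labels contain inside of `X` only positions of `m.R` (or roots)
and whose labels lie on paths, embed in `X` such that the parents of the holes avoid the labels.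
-/

set_option autoImplicit false
set_option linter.unusedSectionVars false

namespace Pool.Agent.Work.MP_bf01b2_co.MR

section labels
variable {V : Type*}

/-- a hole, or no label contains `x` -/
def LT.clr (x : V) (t : LT V) : Prop := (∃ F, t = .hole F) ∨ ∀ F ∈ t.labs, x ∉ F

/-- the parents of the holes whose label contains `x` lie on one descending path -/
def LT.onp (x : V) : LT V → Prop
  | .nil => True
  | .hole _ => True
  | .node l r => (l.clr x ∧ r.onp x) ∨ (r.clr x ∧ l.onp x)

theorem LT.onp_of_not_mem {x : V} : ∀ {t : LT V}, (∀ F ∈ t.labs, x ∉ F) → t.onp x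
  | .nil, _ => trivial
  | .hole _, _ => trivial
  | .node l r, h => Or.inl ⟨Or.inr fun F hF => h F (by simp [LT.labs, hF]),
      LT.onp_of_not_mem fun F hF => h F (by simp [LT.labs, hF])⟩

theorem LT.onp_of_clr {x : V} {t : LT V} (h : t.clr x) : t.onp x := by
  rcases h with ⟨F, rfl⟩ | h
  · trivial
  · exact LT.onp_of_not_mem h

theorem LT.onp_symm {x : V} {l r : LT V} (h : (LT.node l r).onp x) : (LT.node r l).onp x := by
  rcases h with h | h
  · exact Or.inr h
  · exact Or.inl h

theorem LT.onp_left {x : V} {l r : LT V} (h : (LT.node l r).onp x) : l.onp x := by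
  rcases h with ⟨h, -⟩ | ⟨-, h⟩
  · exact LT.onp_of_clr h
  · exact h

theorem LT.onp_right {x : V} {l r : LT V} (h : (LT.node l r).onp x) : r.onp x :=
  LT.onp_left (LT.onp_symm h)

theorem LT.side.clr {t : LT V} (h : t.side) (x : V) : t.clr x := by
  rcases h with h | h
  · exact Or.inl h
  · right
    intro F hF
    rw [h F hF]
    exact Finset.notMem_empty x

theorem LT.pth.onp : ∀ {t : LT V}, t.pth → ∀ x, t.onp x
  | .nil, _, _ => trivial
  | .hole _, _, _ => trivial
  | .node _ _, h, x => by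
    rcases h with ⟨h1, h2⟩ | ⟨h1, h2⟩
    · exact Or.inl ⟨h1.clr x, h2.onp x⟩
    · exact Or.inr ⟨h1.clr x, h2.onp x⟩

/-- the two subtrees of a tree -/
def LT.ch : LT V → LT V × LT V
  | .nil => (.nil, .nil)
  | .hole _ => (.nil, .nil)
  | .node l r => (l, r)

theorem LT.ch_size (t : LT V) : t.ch.1.size + t.ch.2.size ≤ t.size - 1 := by
  cases t <;> simp [LT.ch]

theorem LT.ch_labs (t : LT V) : ∀ F ∈ t.ch.1.labs ++ t.ch.2.labs, F ∈ t.labs := by
  cases t <;> simp [LT.ch, LT.labs]

theorem LT.ch_onp {x : V} {t : LT V} (h : t.onp x) : (LT.node t.ch.1 t.ch.2).onp x := by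
  cases t with
  | nil => exact LT.onp_of_not_mem (by simp [LT.ch, LT.labs])
  | hole F => exact LT.onp_of_not_mem (by simp [LT.ch, LT.labs])
  | node l r => exact h

end labels

section facts

variable {V : Type*} [DecidableEq V]

/-- A mark: position of the root, bound `k` for the number of the other vertices, set `R` of the
positions which may occur in the labels. -/
structure PM (V : Type*) where
  /-- position of the root -/
  p : V
  /-- bound for the number of vertices other than the root -/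
  k : ℕ
  /-- positions which may occur in the labels -/
  R : Set V

/-- positions of the roots -/
def rts (ms : List (PM V)) : Set V := {v | ∃ m ∈ ms, m.p = v}

/-- the pair `t` of subtrees is admissible for the mark `m` in the region `X` -/
def LAdm (X Rt : Set V) (m : PM V) (t : LT V × LT V) : Prop :=
  t.1.size + t.2.size ≤ m.k ∧
  (∀ F ∈ t.1.labs ++ t.2.labs, ∀ x ∈ F, x ∈ X → x ∈ m.R ∨ x ∈ Rt) ∧
  (∀ x ∈ X, x ∉ Rt → (LT.node t.1 t.2).onp x) ∧
  (∀ F, t.1 = .hole F → m.p ∉ F) ∧ (∀ F, t.2 = .hole F → m.p ∉ F)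

/-- embedding of a labelled tree -/
def REmb (adj : V → V → Prop) (t : LT V × LT V) (p : V) (A : Finset V) (q : List V) : Prop :=
  Root adj t.1.shape t.2.shape p A q ∧
    List.Forall₂ (fun F x => x ∉ F) (t.1.labs ++ t.2.labs) q

/-- Facts for labelled trees. -/
def PF (adj : V → V → Prop) (X : Set V) (ms : List (PM V)) : Prop :=
  ∀ τ : V → LT V × LT V, (∀ m ∈ ms, LAdm X (rts ms) m (τ m.p)) →
    ∃ (A : V → Finset V) (q : V → List V),
      (∀ m ∈ ms, REmb adj (τ m.p) m.p (A m.p) (q m.p) ∧ ∀ v ∈ A m.p, v ∈ X) ∧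
      ∀ m ∈ ms, ∀ m' ∈ ms, m.p ≠ m'.p → Disjoint (A m.p) (A m'.p)

variable {adj : V → V → Prop}

theorem rts_cons (m : PM V) (ms : List (PM V)) : rts (m :: ms) = insert m.p (rts ms) := by
  ext v
  show (∃ m' ∈ m :: ms, m'.p = v) ↔ (v = m.p ∨ ∃ m' ∈ ms, m'.p = v)
  simp only [List.mem_cons, exists_eq_or_imp]
  constructor
  · rintro (h | h)
    · exact Or.inl h.symm
    · exact Or.inr h
  · rintro (h | h)
    · exact Or.inl h.symm
    · exact Or.inr h

theorem rts_single (m : PM V) : rts [m] = {m.p} := by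
  rw [rts_cons]
  ext v
  simp [rts]

theorem mem_rts {ms : List (PM V)} {m : PM V} (h : m ∈ ms) : m.p ∈ rts ms := ⟨m, h, rfl⟩

theorem ladm_nil (X Rt : Set V) (m : PM V) : LAdm X Rt m (.nil, .nil) :=
  ⟨by simp, by simp [LT.labs], fun x _ _ => LT.onp_of_not_mem (by simp [LT.labs]), by simp, by simp⟩

theorem PF.nil (X : Set V) : PF adj X [] := fun _ _ =>
  ⟨fun _ => ∅, fun _ => [], by simp, by simp⟩

theorem forall₂_of_all {α β : Type*} {R : α → β → Prop} : ∀ {a : List α} {b : List β},
    a.length = b.length → (∀ x ∈ a, ∀ y ∈ b, R x y) → List.Forall₂ R a b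
  | [], [], _, _ => List.Forall₂.nil
  | [], _ :: _, h, _ => by simp at h
  | _ :: _, [], h, _ => by simp at h
  | x :: a, y :: b, h, hR => List.Forall₂.cons (hR x (by simp) y (by simp))
      (forall₂_of_all (by simpa using h) fun x' hx y' hy => hR x' (by simp [hx]) y' (by simp [hy]))

/-- the parents of the holes of a slot avoid the labels -/
theorem slot_avl {t : LT V} {p : V} {S : Finset V} {q : List V}
    (h : Slot adj t.shape p S q) (h1 : ∀ F, t = .hole F → p ∉ F)
    (h2 : ∀ F ∈ t.labs, ∀ v ∈ S, v ∉ F) : List.Forall₂ (fun F x => x ∉ F) t.labs q := by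
  by_cases ht : ∃ F, t = .hole F
  · obtain ⟨F, rfl⟩ := ht
    obtain ⟨rfl, rfl⟩ := h
    exact List.Forall₂.cons (h1 F rfl) List.Forall₂.nil
  · refine forall₂_of_all ?_ ?_
    · rw [LT.labs_length, (slot_length h).1]
    · intro F hF v hv
      rcases slot_mem h v hv with ⟨_, h3⟩ | h3
      · exfalso
        apply ht
        cases t with
        | nil => simp [LT.shape] at h3
        | hole F => exact ⟨F, rfl⟩
        | node l r => simp [LT.shape] at h3
      · exact h2 F hF v h3

/-- **Facts without soft positions give facts for labelled trees.** -/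
theorem PF.of_SF {X : Set V} {p : V} {k s : ℕ} (h : SF adj X ∅ [⟨p, k, s⟩]) (R : Set V)
    (hR : ∀ x ∈ R, x ∈ X → x = p) : PF adj X [⟨p, k, R⟩] := by
  intro τ hτ
  obtain ⟨h1, h2, h3, h4, h5⟩ := hτ ⟨p, k, R⟩ (by simp)
  rw [rts_single] at h2 h3
  obtain ⟨A, q, hA, -⟩ := h (fun v => ((τ v).1.shape, (τ v).2.shape)) (by
    intro m hm
    rw [List.mem_singleton] at hm
    subst hm
    exact ⟨h1, Or.inl rfl, fun h => absurd h (Set.notMem_empty _)⟩)
  obtain ⟨a1, a2, -⟩ := hA ⟨p, k, s⟩ (by simp)
  refine ⟨A, q, ?_, ?_⟩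
  · intro m hm
    rw [List.mem_singleton] at hm
    subst hm
    refine ⟨⟨a1, ?_⟩, a2⟩
    obtain ⟨B, C, pa, pb, hB, hC, hx, hx', hd, e1, e2⟩ := a1
    show List.Forall₂ _ _ (q p)
    rw [show q p = pa ++ pb from e2]
    have key : ∀ F ∈ (τ p).1.labs ++ (τ p).2.labs, ∀ v ∈ B ∪ C, v ∉ F := by
      intro F hF v hv hvF
      have hvX : v ∈ X := a2 v (by
        show v ∈ A p
        rw [show A p = insert p (B ∪ C) from e1]
        exact Finset.mem_insert_of_mem hv)
      have hvp : v = p := by
        rcases h2 F hF v hvF hvX with h6 | h6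
        · exact hR v h6 hvX
        · exact h6
      subst hvp
      rcases Finset.mem_union.1 hv with h7 | h7
      · exact hx h7
      · exact hx' h7
    refine forall₂_append' (slot_avl hB h4 fun F hF v hv => ?_)
      (slot_avl hC h5 fun F hF v hv => ?_)
    · exact key F (List.mem_append_left _ hF) v (Finset.mem_union_left _ hv)
    · exact key F (List.mem_append_right _ hF) v (Finset.mem_union_right _ hv)
  · intro m hm m' hm' hne
    rw [List.mem_singleton] at hm hm'
    subst hm; subst hm'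
    exact absurd rfl hne

/-- **Cover rule**: one more region. -/
theorem PF.cons {X Y Z : Set V} {p : V} {k k' : ℕ} {R R' : Set V} {ms : List (PM V)}
    (hY : PF adj Y [⟨p, k', R'⟩]) (hk : k ≤ k') (hR : ∀ x ∈ Y, x ∈ R → x ∈ R' ∨ x = p)
    (hYX : Y ⊆ X) (hZX : Z ⊆ X) (hd : Disjoint Y Z) (hp : p ∉ Z) (hms : ∀ m ∈ ms, m.p ∉ Y)
    (h : PF adj Z ms) : PF adj X (⟨p, k, R⟩ :: ms) := by
  classical
  intro τ hτ
  have hpm : ∀ m ∈ ms, m.p ≠ p := by
    intro m hm e
    -- the root `p` lies in `Y`
    obtain ⟨A, q, hA, -⟩ := hY (fun _ => (.nil, .nil)) (fun m _ => ladm_nil _ _ _)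
    obtain ⟨a1, a2⟩ := hA ⟨p, k', R'⟩ (by simp)
    apply hms m hm
    rw [e]
    exact a2 p (root_mem a1.1).2
  obtain ⟨A1, q1, hA1, -⟩ := hY τ (by
    intro m hm
    rw [List.mem_singleton] at hm
    subst hm
    obtain ⟨h1, h2, h3, h4, h5⟩ := hτ ⟨p, k, R⟩ (by simp)
    rw [rts_cons] at h2 h3
    rw [rts_single]
    have hno : ∀ x ∈ Y, x ∉ rts ms := by
      rintro x hx ⟨m, hm, rfl⟩
      exact hms m hm hx
    refine ⟨h1.trans hk, ?_, ?_, h4, h5⟩
    · intro F hF x hx hxY
      rcases h2 F hF x hx (hYX hxY) with h6 | h6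
      · exact hR x hxY h6
      · rcases h6 with h6 | h6
        · exact Or.inr h6
        · exact absurd h6 (hno x hxY)
    · intro x hxY hxp
      refine h3 x (hYX hxY) ?_
      rintro (h6 | h6)
      · exact hxp h6
      · exact hno x hxY h6)
  obtain ⟨A2, q2, hA2, hd2⟩ := h τ (by
    intro m hm
    obtain ⟨h1, h2, h3, h4, h5⟩ := hτ m (List.mem_cons_of_mem _ hm)
    rw [rts_cons] at h2 h3
    refine ⟨h1, ?_, ?_, h4, h5⟩
    · intro F hF x hx hxZ
      rcases h2 F hF x hx (hZX hxZ) with h6 | h6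
      · exact Or.inl h6
      · rcases h6 with h6 | h6
        · exact absurd (show p ∈ Z by rw [show p = x from h6.symm]; exact hxZ) hp
        · exact Or.inr h6
    · intro x hxZ hxr
      refine h3 x (hZX hxZ) ?_
      rintro (h6 | h6)
      · exact hp (by rw [show p = x from h6.symm]; exact hxZ)
      · exact hxr h6)
  obtain ⟨b1, b2⟩ := hA1 ⟨p, k', R'⟩ (by simp)
  refine ⟨Function.update A2 p (A1 p), Function.update q2 p (q1 p), ?_, ?_⟩
  · intro m hm
    rcases List.mem_cons.1 hm with rfl | hm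
    · simp only [Function.update_self]
      exact ⟨b1, fun v hv => hYX (b2 v hv)⟩
    · rw [Function.update_of_ne (hpm m hm), Function.update_of_ne (hpm m hm)]
      obtain ⟨c1, c2⟩ := hA2 m hm
      exact ⟨c1, fun v hv => hZX (c2 v hv)⟩
  · have key : ∀ m ∈ ms, Disjoint (A1 p) (A2 m.p) := by
      intro m hm
      rw [Finset.disjoint_left]
      intro v hv hv'
      exact Set.disjoint_left.1 hd (b2 v hv) ((hA2 m hm).2 v hv')
    intro m hm m' hm' hne
    rcases List.mem_cons.1 hm with rfl | hm <;> rcases List.mem_cons.1 hm' with rfl | hm'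
    · exact absurd rfl hne
    · simp only [Function.update_self]
      rw [Function.update_of_ne (hpm m' hm')]
      exact key m' hm'
    · simp only [Function.update_self]
      rw [Function.update_of_ne (hpm m hm)]
      exact (key m hm).symm
    · rw [Function.update_of_ne (hpm m hm), Function.update_of_ne (hpm m' hm')]
      exact hd2 m hm m' hm' hne

/-- one region -/
theorem PF.mono {X Y : Set V} {p : V} {k k' : ℕ} {R R' : Set V}
    (hY : PF adj Y [⟨p, k', R'⟩]) (hk : k ≤ k') (hR : ∀ x ∈ Y, x ∈ R → x ∈ R' ∨ x = p)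
    (hYX : Y ⊆ X) : PF adj X [⟨p, k, R⟩] :=
  PF.cons (Z := ∅) hY hk hR hYX (Set.empty_subset _) (by simp) (Set.notMem_empty _) (by simp)
    (PF.nil _)

/-- the root lies in the region -/
theorem PF.mem {X : Set V} {ms : List (PM V)} (h : PF adj X ms) {m : PM V} (hm : m ∈ ms) :
    m.p ∈ X := by
  obtain ⟨A, q, hA, -⟩ := h (fun _ => (.nil, .nil)) (fun m _ => ladm_nil _ _ _)
  obtain ⟨a1, a2⟩ := hA m hm
  exact a2 m.p (root_mem a1.1).2

/-- **Single vertex.** -/
theorem PF.single (p : V) (R : Set V) : PF adj {p} [⟨p, 0, R⟩] := by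
  refine PF.of_SF (SF.single p 0 ∅) R ?_
  intro x _ hx
  exact hx

theorem lslot_zero {c : LT V} (hc : c.size = 0) (p : V) (h1 : ∀ F, c = .hole F → p ∉ F) :
    ∃ q', Slot adj c.shape p ∅ q' ∧ List.Forall₂ (fun F x => x ∉ F) c.labs q' := by
  cases c with
  | nil => exact ⟨[], ⟨rfl, rfl⟩, List.Forall₂.nil⟩
  | hole F => exact ⟨[p], ⟨rfl, rfl⟩, List.Forall₂.cons (h1 F rfl) List.Forall₂.nil⟩
  | node l r => simp at hc

theorem lslot_child {c : LT V} {p x : V} (hx : adj p x) {S : Finset V} {qs : List V}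
    (h1 : ∀ F, c = .hole F → p ∉ F) (h : REmb adj c.ch x S qs) :
    ∃ S' ⊆ S, ∃ q', Slot adj c.shape p S' q' ∧ List.Forall₂ (fun F x => x ∉ F) c.labs q' := by
  by_cases hc : c.size = 0
  · obtain ⟨q', h2, h3⟩ := lslot_zero (adj := adj) hc p h1
    exact ⟨∅, Finset.empty_subset _, q', h2, h3⟩
  · cases c with
    | nil => simp at hc
    | hole F => simp at hc
    | node l r => exact ⟨S, Finset.Subset.refl _, qs, ⟨x, hx, h.1⟩, h.2⟩

theorem REmb.swap {l r : LT V} {x : V} {S : Finset V} {p : List V} (h : REmb adj (l, r) x S p) :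
    ∃ p', REmb adj (r, l) x S p' := by
  obtain ⟨⟨A, B, pa, pb, hA, hB, hx, hx', hd, rfl, rfl⟩, h2⟩ := h
  simp only at h2
  rw [forall₂_append_iff (by rw [LT.labs_length, (slot_length hA).1])] at h2
  exact ⟨pb ++ pa, ⟨B, A, pb, pa, hB, hA, hx', hx, hd.symm, by rw [Finset.union_comm], rfl⟩,
    forall₂_append' h2.2 h2.1⟩

/-- **Expansion rule.** -/
theorem PF.expand {X : Set V} {p : V} {k : ℕ} {R : Set V} {ms : List (PM V)} (hk : 1 ≤ k)
    (hp : p ∈ X) (hpm : ∀ m ∈ ms, m.p ≠ p)
    (h0 : ∃ x, adj p x ∧ (∀ m ∈ ms, m.p ≠ x) ∧ x ∉ R ∧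
      PF adj (X \ {p}) (⟨x, k - 1, R⟩ :: ms))
    (h1 : ∀ b, 1 ≤ b → 2 * b ≤ k → ∀ Ra Rb : Set V, Ra ⊆ R → Rb ⊆ R → Disjoint Ra Rb →
      ∃ x y, adj p x ∧ adj p y ∧ x ≠ y ∧ (∀ m ∈ ms, m.p ≠ x ∧ m.p ≠ y) ∧ x ∉ Ra ∧ y ∉ Rb ∧
      PF adj (X \ {p}) (⟨x, k - b - 1, Ra⟩ :: ⟨y, b - 1, Rb⟩ :: ms)) :
    PF adj X (⟨p, k, R⟩ :: ms) := by
  classical
  intro τ hτ
  -- the conditions for the other trees
  have hoth : ∀ (L : List (PM V)), (∀ v, v ∈ rts ms → v ∈ rts L) → ∀ m ∈ ms,
      LAdm (X \ {p}) (rts L) m (τ m.p) := by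
    intro L hL m hm
    obtain ⟨h1, h2, h3, h4, h5⟩ := hτ m (List.mem_cons_of_mem _ hm)
    rw [rts_cons] at h2 h3
    refine ⟨h1, ?_, ?_, h4, h5⟩
    · intro F hF x hx hxX
      rcases h2 F hF x hx hxX.1 with h6 | h6
      · exact Or.inl h6
      · rcases h6 with h6 | h6
        · exact absurd h6 hxX.2
        · exact Or.inr (hL x h6)
    · intro x hxX hxr
      refine h3 x hxX.1 ?_
      rintro (h6 | h6)
      · exact hxX.2 h6
      · exact hxr (hL x h6)
  -- main construction, for the two children in the order (big, small)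
  have main : ∀ c d : LT V, d.size ≤ c.size → LAdm X (insert p (rts ms)) ⟨p, k, R⟩ (c, d) →
      ∃ (A : V → Finset V) (q : V → List V) (S : Finset V) (qs : List V),
        (∀ m ∈ ms, REmb adj (τ m.p) m.p (A m.p) (q m.p) ∧ ∀ v ∈ A m.p, v ∈ X) ∧
        (∀ m ∈ ms, ∀ m' ∈ ms, m.p ≠ m'.p → Disjoint (A m.p) (A m'.p)) ∧
        REmb adj (c, d) p S qs ∧ (∀ v ∈ S, v ∈ X) ∧ ∀ m ∈ ms, Disjoint S (A m.p) := by
    intro c d hcd hadm
    obtain ⟨hsz, hlab, honp, hhc, hhd⟩ := hadm
    simp only at hsz hlab honp hhc hhd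
    -- admissibility of a child
    have hchild : ∀ (t : LT V) (x : V) (k' : ℕ) (Q : Set V) (L : List (PM V)),
        (∀ v, v ∈ rts ms → v ∈ rts L) → t.size - 1 ≤ k' → (∀ F ∈ t.labs, F ∈ c.labs ++ d.labs) →
        (∀ F ∈ t.labs, ∀ z ∈ F, z ∈ X → z ∉ rts ms → z ≠ p → z ∈ R → z ∈ Q) →
        (∀ z ∈ X, z ≠ p → z ∉ rts ms → t.onp z) → x ∉ Q → x ∈ X → x ≠ p → (∀ m ∈ ms, m.p ≠ x) →
        LAdm (X \ {p}) (rts L) ⟨x, k', Q⟩ t.ch := by
      intro t x k' Q L hL hts hl hQ ho hxQ hxX hxp hxm
      have hxr : x ∉ rts ms := by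
        rintro ⟨m, hm, e⟩
        exact hxm m hm e
      have top : ∀ F ∈ t.labs, x ∉ F := by
        intro F hF hxF
        rcases hlab F (hl F hF) x hxF hxX with h6 | h6
        · exact hxQ (hQ F hF x hxF hxX hxr hxp h6)
        · rcases h6 with h6 | h6
          · exact hxp h6
          · exact hxr h6
      refine ⟨t.ch_size.trans hts, ?_, ?_, ?_, ?_⟩
      · intro F hF z hz hzX
        have hF' := t.ch_labs F hF
        rcases hlab F (hl F hF') z hz hzX.1 with h6 | h6
        · by_cases hzr : z ∈ rts ms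
          · exact Or.inr (hL z hzr)
          · exact Or.inl (hQ F hF' z hz hzX.1 hzr hzX.2 h6)
        · rcases h6 with h6 | h6
          · exact absurd h6 hzX.2
          · exact Or.inr (hL z h6)
      · intro z hzX hzr
        exact LT.ch_onp (ho z hzX.1 hzX.2 fun h6 => hzr (hL z h6))
      · intro F hF
        exact top F (t.ch_labs F (by rw [hF]; simp [LT.labs]))
      · intro F hF
        exact top F (t.ch_labs F (by rw [hF]; simp [LT.labs]))
    by_cases hd0 : d.size = 0
    · obtain ⟨x, hx, hxm, hxR, hF⟩ := h0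
      have hxX := PF.mem hF (m := ⟨x, k - 1, R⟩) (by simp)
      obtain ⟨A, q, hA, hAd⟩ := hF (Function.update τ x c.ch) (by
        intro m hm
        rcases List.mem_cons.mp hm with rfl | hm
        · rw [Function.update_self]
          refine hchild c x (k - 1) R _ (fun v hv => by rw [rts_cons]; exact Or.inr hv) (by omega)
            (fun F hF => List.mem_append_left _ hF) (fun _ _ _ _ _ _ _ h => h) ?_ hxR hxX.1 hxX.2 hxm
          intro z hz hzp hzr
          refine LT.onp_left (honp z hz ?_)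
          rintro (h6 | h6)
          · exact hzp h6
          · exact hzr h6
        · rw [Function.update_of_ne (hxm m hm)]
          exact hoth _ (fun v hv => by rw [rts_cons]; exact Or.inr hv) m hm)
      have hAx := hA ⟨x, k - 1, R⟩ (by simp)
      simp only [Function.update_self] at hAx
      obtain ⟨S', hS', q1, hq1, hq1'⟩ := lslot_child hx hhc hAx.1
      obtain ⟨q2, hq2, hq2'⟩ := lslot_zero (adj := adj) hd0 p hhd
      have hpS : p ∉ S' := fun h => (hAx.2 p (hS' h)).2 rfl
      refine ⟨A, q, insert p (S' ∪ ∅), q1 ++ q2, ?_, ?_, ⟨?_, ?_⟩, ?_, ?_⟩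
      · intro m hm
        have h' := hA m (List.mem_cons_of_mem _ hm)
        rw [Function.update_of_ne (hxm m hm)] at h'
        exact ⟨h'.1, fun v hv => (h'.2 v hv).1⟩
      · intro m hm m' hm' hne
        exact hAd m (List.mem_cons_of_mem _ hm) m' (List.mem_cons_of_mem _ hm') hne
      · exact ⟨S', ∅, q1, q2, hq1, hq2, hpS, by simp, by simp, rfl, rfl⟩
      · exact forall₂_append' hq1' hq2'
      · intro v hv
        rw [Finset.union_empty, Finset.mem_insert] at hv
        rcases hv with rfl | hv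
        · exact hp
        · exact (hAx.2 v (hS' hv)).1
      · intro m hm
        have h' := hA m (List.mem_cons_of_mem _ hm)
        have h'' := hAd ⟨x, k - 1, R⟩ (by simp) m (List.mem_cons_of_mem _ hm) (hxm m hm).symm
        rw [Finset.union_empty, Finset.disjoint_insert_left]
        exact ⟨fun h => (h'.2 p h).2 rfl, Finset.disjoint_of_subset_left hS' h''⟩
    · have hb : 1 ≤ d.size := Nat.one_le_iff_ne_zero.mpr hd0
      have hcnh : ∀ F, c ≠ .hole F := by
        rintro F rfl
        simp at hcd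
        omega
      have hdnh : ∀ F, d ≠ .hole F := by
        rintro F rfl
        simp at hd0
      -- the softs which occur in the small child
      let Rb : Set V := {z | z ∈ R ∧ ∃ F ∈ d.labs, z ∈ F}
      obtain ⟨x, y, hx, hy, hxy, hxm, hxR, hyR, hF⟩ := h1 d.size hb (by omega) (R \ Rb) Rb
        Set.sdiff_subset (fun z hz => hz.1) Set.disjoint_sdiff_left
      have hxX := PF.mem hF (m := ⟨x, k - d.size - 1, R \ Rb⟩) (by simp)
      have hyX := PF.mem hF (m := ⟨y, d.size - 1, Rb⟩) (by simp)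
      have hL2 : ∀ v, v ∈ rts ms →
          v ∈ rts (⟨x, k - d.size - 1, R \ Rb⟩ :: ⟨y, d.size - 1, Rb⟩ :: ms) := by
        intro v hv
        rw [rts_cons, rts_cons]
        exact Or.inr (Or.inr hv)
      obtain ⟨A, q, hA, hAd⟩ := hF (Function.update (Function.update τ x c.ch) y d.ch) (by
        intro m hm
        rcases List.mem_cons.mp hm with rfl | hm
        · show LAdm _ _ _ (Function.update (Function.update τ x c.ch) y d.ch x)
          rw [Function.update_of_ne hxy, Function.update_self]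
          refine hchild c x _ _ _ hL2 (by omega) (fun F hF => List.mem_append_left _ hF) ?_ ?_ hxR
            hxX.1 hxX.2 (fun m hm => (hxm m hm).1)
          · intro F hF z hz hzX hzr hzp hzR
            refine ⟨hzR, ?_⟩
            rintro ⟨-, G, hG, hzG⟩
            have h6 := honp z hzX (by
              rintro (h6 | h6)
              · exact hzp h6
              · exact hzr h6)
            rcases h6 with ⟨h6, -⟩ | ⟨h6, -⟩
            · rcases h6 with ⟨F', h6⟩ | h6
              · exact hcnh F' h6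
              · exact h6 F hF hz
            · rcases h6 with ⟨F', h6⟩ | h6
              · exact hdnh F' h6
              · exact h6 G hG hzG
          · intro z hz hzp hzr
            refine LT.onp_left (honp z hz ?_)
            rintro (h6 | h6)
            · exact hzp h6
            · exact hzr h6
        · rcases List.mem_cons.mp hm with rfl | hm
          · show LAdm _ _ _ (Function.update (Function.update τ x c.ch) y d.ch y)
            rw [Function.update_self]
            refine hchild d y _ _ _ hL2 (by omega) (fun F hF => List.mem_append_right _ hF) ?_ ?_ hyR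
              hyX.1 hyX.2 (fun m hm => (hxm m hm).2)
            · intro F hF z hz _ _ _ hzR
              exact ⟨hzR, F, hF, hz⟩
            · intro z hz hzp hzr
              refine LT.onp_right (honp z hz ?_)
              rintro (h6 | h6)
              · exact hzp h6
              · exact hzr h6
          · rw [Function.update_of_ne (hxm m hm).2, Function.update_of_ne (hxm m hm).1]
            exact hoth _ hL2 m hm)
      have hAx := hA ⟨x, k - d.size - 1, R \ Rb⟩ (by simp)
      have hAy := hA ⟨y, d.size - 1, Rb⟩ (by simp)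
      simp only [Function.update_self, Function.update_of_ne hxy] at hAx hAy
      obtain ⟨S1, hS1, q1, hq1, hq1'⟩ := lslot_child hx hhc hAx.1
      obtain ⟨S2, hS2, q2, hq2, hq2'⟩ := lslot_child hy hhd hAy.1
      have hpS1 : p ∉ S1 := fun h => (hAx.2 p (hS1 h)).2 rfl
      have hpS2 : p ∉ S2 := fun h => (hAy.2 p (hS2 h)).2 rfl
      have hd12 := hAd ⟨x, k - d.size - 1, R \ Rb⟩ (by simp) ⟨y, d.size - 1, Rb⟩ (by simp) hxy
      refine ⟨A, q, insert p (S1 ∪ S2), q1 ++ q2, ?_, ?_, ⟨?_, ?_⟩, ?_, ?_⟩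
      · intro m hm
        have h' := hA m (List.mem_cons_of_mem _ (List.mem_cons_of_mem _ hm))
        rw [Function.update_of_ne (hxm m hm).2, Function.update_of_ne (hxm m hm).1] at h'
        exact ⟨h'.1, fun v hv => (h'.2 v hv).1⟩
      · intro m hm m' hm' hne
        exact hAd m (List.mem_cons_of_mem _ (List.mem_cons_of_mem _ hm)) m'
          (List.mem_cons_of_mem _ (List.mem_cons_of_mem _ hm')) hne
      · exact ⟨S1, S2, q1, q2, hq1, hq2, hpS1, hpS2,
          Finset.disjoint_of_subset_left hS1 (Finset.disjoint_of_subset_right hS2 hd12), rfl, rfl⟩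
      · exact forall₂_append' hq1' hq2'
      · intro v hv
        rw [Finset.mem_insert, Finset.mem_union] at hv
        rcases hv with rfl | hv | hv
        · exact hp
        · exact (hAx.2 v (hS1 hv)).1
        · exact (hAy.2 v (hS2 hv)).1
      · intro m hm
        have hmm := List.mem_cons_of_mem (⟨x, k - d.size - 1, R \ Rb⟩ : PM V)
          (List.mem_cons_of_mem (⟨y, d.size - 1, Rb⟩ : PM V) hm)
        have h' := hA m hmm
        have g1 := hAd ⟨x, k - d.size - 1, R \ Rb⟩ (by simp) m hmm (hxm m hm).1.symm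
        have g2 := hAd ⟨y, d.size - 1, Rb⟩ (by simp) m hmm (hxm m hm).2.symm
        rw [Finset.disjoint_insert_left, Finset.disjoint_union_left]
        exact ⟨fun h => (h'.2 p h).2 rfl, Finset.disjoint_of_subset_left hS1 g1,
          Finset.disjoint_of_subset_left hS2 g2⟩
  have hadm := hτ ⟨p, k, R⟩ (by simp)
  rw [rts_cons] at hadm
  -- assemble
  have fin : ∀ (A : V → Finset V) (q : V → List V) (S : Finset V) (qs : List V),
      (∀ m ∈ ms, REmb adj (τ m.p) m.p (A m.p) (q m.p) ∧ ∀ v ∈ A m.p, v ∈ X) →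
      (∀ m ∈ ms, ∀ m' ∈ ms, m.p ≠ m'.p → Disjoint (A m.p) (A m'.p)) →
      REmb adj (τ p) p S qs → (∀ v ∈ S, v ∈ X) → (∀ m ∈ ms, Disjoint S (A m.p)) →
      ∃ (A : V → Finset V) (q : V → List V),
        (∀ m ∈ (⟨p, k, R⟩ :: ms : List (PM V)),
          REmb adj (τ m.p) m.p (A m.p) (q m.p) ∧ ∀ v ∈ A m.p, v ∈ X) ∧
        ∀ m ∈ (⟨p, k, R⟩ :: ms : List (PM V)), ∀ m' ∈ (⟨p, k, R⟩ :: ms : List (PM V)),
          m.p ≠ m'.p → Disjoint (A m.p) (A m'.p) := by
    intro A q S qs g1 g2 g3 g4 g6
    refine ⟨Function.update A p S, Function.update q p qs, ?_, ?_⟩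
    · intro m hm
      rcases List.mem_cons.mp hm with rfl | hm
      · simp only [Function.update_self]
        exact ⟨g3, g4⟩
      · rw [Function.update_of_ne (hpm m hm), Function.update_of_ne (hpm m hm)]
        exact g1 m hm
    · intro m hm m' hm' hne
      rcases List.mem_cons.mp hm with rfl | hm <;> rcases List.mem_cons.mp hm' with rfl | hm'
      · exact absurd rfl hne
      · simp only [Function.update_self]
        rw [Function.update_of_ne (hpm m' hm')]
        exact g6 m' hm'
      · simp only [Function.update_self]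
        rw [Function.update_of_ne (hpm m hm)]
        exact (g6 m hm).symm
      · rw [Function.update_of_ne (hpm m hm), Function.update_of_ne (hpm m' hm')]
        exact g2 m hm m' hm' hne
  rcases le_total (τ p).2.size (τ p).1.size with hle | hle
  · obtain ⟨A, q, S, qs, g1, g2, g3, g4, g6⟩ := main (τ p).1 (τ p).2 hle hadm
    exact fin A q S qs g1 g2 g3 g4 g6
  · obtain ⟨e1, e2, e3, e4, e5⟩ := hadm
    obtain ⟨A, q, S, qs, g1, g2, g3, g4, g6⟩ := main (τ p).2 (τ p).1 hle
      ⟨by simp only at e1 ⊢; omega, fun F hF => e2 F (by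
        simp only [List.mem_append] at hF ⊢; exact hF.symm), fun x hx hx' => LT.onp_symm (e3 x hx hx'),
        e5, e4⟩
    obtain ⟨qs', g3'⟩ := g3.swap
    exact fin A q S qs' g1 g2 g3' g4 g6

end facts

end Pool.Agent.Work.MP_bf01b2_co.MR
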