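import Pool.Agent.Work.MP_bf01b2_co.MR.PfC

/-!
# Classes, packed form
-/

set_option autoImplicit false

namespace Pool.Agent.Work.MP_bf01b2_co.MR

namespace Pt

open Tab

theorem CF.twoB {T M N a b D : ℕ} {Cs : List ℕ} {ex : List (ℕ × ℕ)} (hT : ∀ i < M, GoodP 1 T i)
    (hex : ExOK [a, b] ex) (ha : a < 32) (hb : b < 32) (hN : N < 128)
    (h : fB (covO T M [a, b] 64 16 Cs 0) (fun P => cl2 P N ex (demK [a, b]) D) = true) :
    CF 1 [a, b] N := by
  rw [fB_eq] at h
  refine CF.two ha hb (covO_ok hT (by simp) ?_ (by simp) Cs 0 (AllE_zero 1 (by simp))) hex hN h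
  intro z hz
  simp only [List.mem_cons, List.not_mem_nil, or_false] at hz
  rcases hz with rfl | rfl <;> assumption

theorem CF.threeB {T M N a b c : ℕ} {Cs Ds : List ℕ} {ex : List (ℕ × ℕ)}
    (hT : ∀ i < M, GoodP 1 T i)
    (hex : ExOK [a, b, c] ex) (ha : a < 32) (hb : b < 32) (hc : c < 32) (hN : N < 128)
    (h : fB (covO T M [a, b, c] 96 16 Cs 0) (fun P => cl3 P N ex (demK [a, b, c]) Ds) = true) :
    CF 1 [a, b, c] N := by
  rw [fB_eq] at h
  refine CF.three ha hb hc (covO_ok hT (by simp) ?_ (by simp) Cs 0 (AllE_zero 1 (by simp))) hex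
    hN h
  intro z hz
  simp only [List.mem_cons, List.not_mem_nil, or_false] at hz
  rcases hz with rfl | rfl | rfl <;> assumption

theorem CF.fourB {T M N a b c d : ℕ} {Cs Ds : List ℕ} {ex : List (ℕ × ℕ)}
    (hT : ∀ i < M, GoodP 1 T i)
    (hex : ExOK [a, b, c, d] ex) (ha : a < 32) (hb : b < 32) (hc : c < 32) (hd : d < 32)
    (hN : N < 128)
    (h : fB (covO T M [a, b, c, d] 128 16 Cs 0)
      (fun P => cl4 P N ex (demK [a, b, c, d]) Ds) = true) :
    CF 1 [a, b, c, d] N := by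
  rw [fB_eq] at h
  refine CF.four ha hb hc hd (covO_ok hT (by simp) ?_ (by simp) Cs 0 (AllE_zero 1 (by simp)))
    hex hN h
  intro z hz
  simp only [List.mem_cons, List.not_mem_nil, or_false] at hz
  rcases hz with rfl | rfl | rfl | rfl <;> assumption

end Pt

end Pool.Agent.Work.MP_bf01b2_co.MR
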