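import Pool.Agent.Work.MP_bf01b2_co.MR.PfR
import Pool.Agent.Work.MP_bf01b2_co.MR.B5SfC

/-!
# Facts of `Q_5` with several roots and relevant positions: covers and classes

A cover of a class with roots `zs` is a list of references (32 bits each: index, exchanges). It is
evaluated once: the tolerated positions (32 bits and the bit 32) and the size bounds (8 bits each,
from bit 40 on) are packed in 80 bits. Every size vector refers to a list of covers which tolerate
together all positions.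
-/

set_option autoImplicit false

namespace Pool.Agent.Work.MP_bf01b2_co.MR

section lemmas

variable {V : Type*} [DecidableEq V] {adj : V → V → Prop}

/-- other sets of relevant positions, smaller bounds -/
theorem PF.weak {X : Set V} {ms ms' : List (PM V)} (h : PF adj X ms)
    (hp : ∀ v, v ∈ rts ms ↔ v ∈ rts ms')
    (hm : ∀ m ∈ ms, ∃ m' ∈ ms', m'.p = m.p ∧ m'.k ≤ m.k ∧
      ∀ x ∈ X, x ∈ m'.R → x ∈ m.R ∨ x ∈ rts ms)
    (hm' : ∀ m' ∈ ms', ∃ m ∈ ms, m.p = m'.p) : PF adj X ms' := by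
  intro τ hτ
  obtain ⟨A, q, hA, hd⟩ := h τ (by
    intro m hmm
    obtain ⟨m', h1, h2, h3, h4⟩ := hm m hmm
    obtain ⟨e1, e2, e3, e4, e5⟩ := hτ m' h1
    rw [h2] at e1 e2 e3 e4 e5
    refine ⟨e1.trans h3, ?_, ?_, e4, e5⟩
    · intro F hF x hx hxX
      rcases e2 F hF x hx hxX with h5 | h5
      · exact h4 x hxX h5
      · exact Or.inr ((hp x).2 h5)
    · intro x hxX hxr
      exact e3 x hxX fun h5 => hxr ((hp x).2 h5))
  refine ⟨A, q, ?_, ?_⟩
  · intro m' h1
    obtain ⟨m, h2, h3⟩ := hm' m' h1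
    have := hA m h2
    rwa [h3] at this
  · intro m1 h1 m2 h2 hne
    obtain ⟨n1, g1, g2⟩ := hm' m1 h1
    obtain ⟨n2, g3, g4⟩ := hm' m2 h2
    have := hd n1 g1 n2 g3 (by rw [g2, g4]; exact hne)
    rwa [g2, g4] at this

end lemmas

namespace Pt

open Tab
open Sf (bo FULL_lt)

/-- the marks at the positions `zs` -/
def mkP (k : ℕ → ℕ) (R : Set ℕ) (zs : List ℕ) : List (PM ℕ) := zs.map fun z => ⟨z, k z, R⟩

theorem mem_mkP {k : ℕ → ℕ} {R : Set ℕ} {zs : List ℕ} {m : PM ℕ} :
    m ∈ mkP k R zs ↔ m.p ∈ zs ∧ m = ⟨m.p, k m.p, R⟩ := by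
  unfold mkP
  rw [List.mem_map]
  constructor
  · rintro ⟨z, hz, rfl⟩
    exact ⟨hz, rfl⟩
  · rintro ⟨h1, h2⟩
    exact ⟨m.p, h1, h2.symm⟩

theorem rts_mkP {k : ℕ → ℕ} {R : Set ℕ} {zs : List ℕ} {v : ℕ} : v ∈ rts (mkP k R zs) ↔ v ∈ zs := by
  constructor
  · rintro ⟨m, hm, rfl⟩
    exact (mem_mkP.1 hm).1
  · intro hv
    exact ⟨⟨v, k v, R⟩, mem_mkP.2 ⟨hv, rfl⟩, rfl⟩

theorem weakR {X : Set ℕ} {k : ℕ → ℕ} {R R' : Set ℕ} {zs : List ℕ}
    (h : PF (ncadj 5) X (mkP k R zs)) (hR : ∀ x ∈ X, x ∈ R' → x ∈ R ∨ x ∈ zs) :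
    PF (ncadj 5) X (mkP k R' zs) := by
  refine PF.weak h (fun v => by rw [rts_mkP, rts_mkP]) ?_ ?_
  · intro m hm
    obtain ⟨h1, h2⟩ := mem_mkP.1 hm
    refine ⟨⟨m.p, k m.p, R'⟩, mem_mkP.2 ⟨h1, rfl⟩, rfl, ?_, ?_⟩
    · rw [h2]
    · intro x hx hxR
      rw [h2]
      rcases hR x hx hxR with h3 | h3
      · exact Or.inl h3
      · exact Or.inr (rts_mkP.2 h3)
  · intro m hm
    obtain ⟨h1, h2⟩ := mem_mkP.1 hm
    exact ⟨⟨m.p, k m.p, R⟩, mem_mkP.2 ⟨h1, rfl⟩, rfl⟩

/-- Facts with bounds for the sizes; the relevant positions inside of `X` lie in `T` or are roots. -/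
def GP (D X : ℕ) (zs ns : List ℕ) (T : ℕ) : Prop := ∀ k : ℕ → ℕ, CapsL k zs ns →
  ∀ R : Finset ℕ, R.card ≤ D → (∀ x ∈ R, X.testBit x = true → T.testBit x = true ∨ x ∈ zs) →
    PF (ncadj 5) (msk X) (mkP k (R : Set ℕ) zs)

theorem GP_cons {D X Z z n T : ℕ} {zs ns : List ℕ} (hZ : GZ D Z z n) (hX : X &&& lo Z = lo Z)
    (h : GP D (X ^^^ lo Z) zs ns T) : GP D X (z :: zs) (n :: ns) (hi Z &&& T) := by
  intro k hk R hR hRT
  obtain ⟨hk1, hk2⟩ := hk
  have hn : 1 ≤ n := by omega
  have hzY := hZ.1.mem hn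
  have hsub : msk (lo Z) ⊆ msk X := msk_subset (by rw [Nat.land_comm]; exact hX)
  have hsub2 : msk (X ^^^ lo Z) ⊆ msk X := msk_subset (xor_and_disj hX).2
  have hdis : Disjoint (msk (lo Z)) (msk (X ^^^ lo Z)) :=
    msk_disjoint (by rw [Nat.land_comm]; exact (xor_and_disj hX).1)
  -- the tail without relevant positions
  have h0 := h k hk2 ∅ (by simp) (by simp)
  have hzs : ∀ y ∈ zs, y ∉ msk (lo Z) := by
    intro y hy hyZ
    have h1 := PF.mem h0 (m := ⟨y, k y, ((∅ : Finset ℕ) : Set ℕ)⟩) (mem_mkP.2 ⟨hy, rfl⟩)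
    exact Set.disjoint_left.1 hdis hyZ h1
  have htail := h k hk2 R hR (by
    intro x hx hxX
    rcases hRT x hx (hsub2 hxX) with h1 | h1
    · rw [Nat.testBit_and, Bool.and_eq_true] at h1
      exact Or.inl h1.2
    · rcases List.mem_cons.1 h1 with rfl | h1
      · exact absurd hxX (Set.disjoint_left.1 hdis hzY)
      · exact Or.inr h1)
  obtain ⟨g1, g2, g3⟩ := hZ.use (k := k z) (R := R.erase z) hk1
    ((Finset.card_erase_le).trans hR) (by
      intro x hx hxY
      rw [Finset.mem_erase] at hx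
      rcases hRT x hx.2 (hsub hxY) with h1 | h1
      · rw [Nat.testBit_and, Bool.and_eq_true] at h1
        exact h1.1
      · rcases List.mem_cons.1 h1 with h1 | h1
        · exact absurd h1 hx.1
        · exact absurd hxY (hzs x h1))
  refine PF.cons (Y := msk (lo Z)) (Z := msk (X ^^^ lo Z)) g3 le_rfl ?_ hsub hsub2 hdis
    (Set.disjoint_left.1 hdis hzY) ?_ htail
  · intro x _ hx
    by_cases hxz : x = z
    · exact Or.inr hxz
    · left
      have : x ∈ R := hx
      exact_mod_cast Finset.mem_erase.2 ⟨hxz, this⟩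
  · intro m hm
    exact hzs m.p (mem_mkP.1 hm).1

/-! ### Packed numbers -/

/-- packed list of bytes -/
def pk8 (c : ℕ) (ns : List ℕ) : ℕ := ns.foldl (fun c n => 256 * c + n) c

theorem pk8_cons (c n : ℕ) (ns : List ℕ) : pk8 c (n :: ns) = pk8 (256 * c + n) ns := rfl

theorem pk8_lt : ∀ {ns : List ℕ} {c a : ℕ}, (∀ n ∈ ns, n < 128) → c < 2 ^ (8 * a) →
    pk8 c ns < 2 ^ (8 * (a + ns.length))
  | [], c, a, _, h => by simpa [pk8] using h
  | n :: ns, c, a, hn, h => by
    rw [pk8_cons]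
    have h1 := pk8_lt (ns := ns) (c := 256 * c + n) (a := a + 1)
      (fun m hm => hn m (List.mem_cons_of_mem _ hm)) (by
        have h2 := hn n List.mem_cons_self
        have h3 : 2 ^ (8 * (a + 1)) = 256 * 2 ^ (8 * a) := by
          rw [show 8 * (a + 1) = 8 * a + 8 by ring, pow_add]; ring
        rw [h3]
        omega)
    rw [List.length_cons, show a + (ns.length + 1) = a + 1 + ns.length by ring]
    exact h1

theorem cmp8 : ∀ (ns vs : List ℕ) (c d h : ℕ), ns.length = vs.length → (∀ n ∈ ns, n < 128) →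
    (∀ v ∈ vs, v < 128) → d ≤ c + h →
    (pk8 c ns + pk8 h (vs.map fun _ => 128) - pk8 d vs) &&& pk8 h (vs.map fun _ => 128) =
      pk8 h (vs.map fun _ => 128) → (c + h - d) &&& h = h ∧ List.Forall₂ (· ≤ ·) vs ns
  | [], [], c, d, h, _, _, _, _, he => ⟨he, .nil⟩
  | [], _ :: _, _, _, _, hl, _, _, _, _ => by simp at hl
  | _ :: _, [], _, _, _, hl, _, _, _, _ => by simp at hl
  | n :: ns, v :: vs, c, d, h, hl, hn, hv, hd, he => by
    have hn1 := hn n List.mem_cons_self
    have hv1 := hv v List.mem_cons_self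
    rw [List.map_cons, pk8_cons, pk8_cons, pk8_cons] at he
    obtain ⟨h1, h2⟩ := cmp8 ns vs (256 * c + n) (256 * d + v) (256 * h + 128) (by simpa using hl)
      (fun m hm => hn m (List.mem_cons_of_mem _ hm)) (fun m hm => hv m (List.mem_cons_of_mem _ hm))
      (by omega) he
    have h3 : 256 * c + n + (256 * h + 128) - (256 * d + v) = 256 * (c + h - d) + (n + 128 - v) := by
      omega
    rw [h3] at h1
    generalize c + h - d = A at *
    have h4 : (n + 128 - v) < 256 := by omega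
    generalize hr : n + 128 - v = r at *
    have e1 := congrArg (fun z => z / 2 ^ 8) h1
    have e2 := congrArg (fun z => z % 2 ^ 8) h1
    simp only [Nat.and_div_two_pow, Nat.and_mod_two_pow] at e1 e2
    rw [show (256 * A + r) / 2 ^ 8 = A by omega, show (256 * h + 128) / 2 ^ 8 = h by omega] at e1
    rw [show (256 * A + r) % 2 ^ 8 = r by omega, show (256 * h + 128) % 2 ^ 8 = 128 by omega] at e2
    have e3 : r &&& 128 ≤ r := Nat.and_le_left
    exact ⟨e1, .cons (by omega) h2⟩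

theorem CapsL_mono {k : ℕ → ℕ} : ∀ {zs vs ns : List ℕ}, List.Forall₂ (· ≤ ·) vs ns →
    CapsL k zs vs → CapsL k zs ns
  | [], _, _, _, _ => trivial
  | _ :: _, _, _, .nil, h => h.elim
  | _ :: _, _, _, .cons h1 h2, h => ⟨h.1.trans h1, CapsL_mono h2 h.2⟩

/-! ### Evaluation of covers -/

/-- `2 ^ 80 - 1` -/
def M80 : ℕ := 1208925819614629174706175

/-- evaluation of a cover -/
noncomputable def covA (T M : ℕ) (zs : List ℕ) : ℕ → ℕ → ℕ → ℕ → ℕ :=
  List.rec (motive := fun _ => ℕ → ℕ → ℕ → ℕ → ℕ)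
    (fun _ _ t c => Nat.lor (Nat.lor t 4294967296) (Nat.shiftLeft c 40))
    (fun z _ ih D X t c =>
      fN (trp z (sw4p (Nat.land (Nat.shiftRight D 16) 65535) (tZ T (ri D)))) fun Z =>
        Bool.rec (motive := fun _ => ℕ) 0
          (ih (Nat.shiftRight D 32) (Nat.xor X (lo Z)) (Nat.land t (hi Z))
            (Nat.add (Nat.mul 256 c) (tN T (ri D))))
          (nd (Nat.ble (Nat.succ (ri D)) M) (nd (Nat.ble (tN T (ri D)) 127)
            (Nat.beq (Nat.land X (lo Z)) (lo Z))))) zs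

theorem covA_ok {d T M : ℕ} (hT : ∀ i < M, GoodP d T i) : ∀ (zs : List ℕ) (D X t c : ℕ),
    (∀ z ∈ zs, z < 32) → covA T M zs D X t c = 0 ∨ ∃ ns T', ns.length = zs.length ∧
      (∀ n ∈ ns, n < 128) ∧ GP d X zs ns T' ∧
        covA T M zs D X t c = ((t &&& T') ||| 4294967296) ||| (pk8 c ns <<< 40)
  | [], D, X, t, c, _ => by
    right
    refine ⟨[], t, rfl, by simp, ?_, ?_⟩
    · intro k _ R _ _
      exact PF.nil _
    · rw [Nat.and_self]
      rfl
  | z :: zs, D, X, t, c, hz => by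
    have e : covA T M (z :: zs) D X t c =
        (fun Z => (Bool.rec (motive := fun _ => ℕ) 0
          (covA T M zs (Nat.shiftRight D 32) (Nat.xor X (lo Z)) (Nat.land t (hi Z))
            (Nat.add (Nat.mul 256 c) (tN T (ri D))))
          (nd (Nat.ble (Nat.succ (ri D)) M) (nd (Nat.ble (tN T (ri D)) 127)
            (Nat.beq (Nat.land X (lo Z)) (lo Z)))) : ℕ))
          (trp z (sw4p (Nat.land (Nat.shiftRight D 16) 65535) (tZ T (ri D)))) := by
      have e0 : covA T M (z :: zs) D X t c =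
        fN (trp z (sw4p (Nat.land (Nat.shiftRight D 16) 65535) (tZ T (ri D)))) (fun Z =>
        (Bool.rec (motive := fun _ => ℕ) 0
          (covA T M zs (Nat.shiftRight D 32) (Nat.xor X (lo Z)) (Nat.land t (hi Z))
            (Nat.add (Nat.mul 256 c) (tN T (ri D))))
          (nd (Nat.ble (Nat.succ (ri D)) M) (nd (Nat.ble (tN T (ri D)) 127)
            (Nat.beq (Nat.land X (lo Z)) (lo Z)))) : ℕ)) := rfl
      rw [e0, fN_eq]
    rw [e]
    generalize hZ : trp z (sw4p (Nat.land (Nat.shiftRight D 16) 65535) (tZ T (ri D))) = Z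
    show (Bool.rec (motive := fun _ => ℕ) 0
          (covA T M zs (Nat.shiftRight D 32) (Nat.xor X (lo Z)) (Nat.land t (hi Z))
            (Nat.add (Nat.mul 256 c) (tN T (ri D))))
          (nd (Nat.ble (Nat.succ (ri D)) M) (nd (Nat.ble (tN T (ri D)) 127)
            (Nat.beq (Nat.land X (lo Z)) (lo Z)))) : ℕ) = 0 ∨ ∃ ns T', ns.length = (z :: zs).length ∧
      (∀ n ∈ ns, n < 128) ∧ GP d X (z :: zs) ns T' ∧
        (Bool.rec (motive := fun _ => ℕ) 0
          (covA T M zs (Nat.shiftRight D 32) (Nat.xor X (lo Z)) (Nat.land t (hi Z))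
            (Nat.add (Nat.mul 256 c) (tN T (ri D))))
          (nd (Nat.ble (Nat.succ (ri D)) M) (nd (Nat.ble (tN T (ri D)) 127)
            (Nat.beq (Nat.land X (lo Z)) (lo Z)))) : ℕ) =
          ((t &&& T') ||| 4294967296) ||| (pk8 c ns <<< 40)
    cases hc : (nd (Nat.ble (Nat.succ (ri D)) M) (nd (Nat.ble (tN T (ri D)) 127)
            (Nat.beq (Nat.land X (lo Z)) (lo Z)))) with
    | false => exact Or.inl rfl
    | true =>
      rw [nd_iff, nd_iff] at hc
      obtain ⟨a1, a2, a3⟩ := hc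
      have g := hT _ (lt_of_succ_ble a1)
      have b2 : tN T (ri D) ≤ 127 := Nat.le_of_ble_eq_true a2
      have b3 : X &&& lo Z = lo Z := Nat.eq_of_beq_eq_true a3
      have h1 := GZ.sw4 (s := Nat.land (Nat.shiftRight D 16) 65535) (tZ_lt T (ri D)) g
      have h2 := GZ.tr (hz z List.mem_cons_self) h1.1 h1.2
      rw [hZ] at h2
      show covA T M zs _ _ _ _ = 0 ∨ _
      rcases covA_ok hT zs (Nat.shiftRight D 32) (Nat.xor X (lo Z)) (Nat.land t (hi Z))
        (Nat.add (Nat.mul 256 c) (tN T (ri D))) (fun y hy => hz y (List.mem_cons_of_mem _ hy)) with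
        h3 | ⟨ns, T', h4, h5, h6, h7⟩
      · exact Or.inl h3
      · right
        refine ⟨tN T (ri D) :: ns, hi Z &&& T', by rw [List.length_cons, List.length_cons, h4],
          ?_, GP_cons h2 b3 h6, ?_⟩
        · intro n hn
          rcases List.mem_cons.1 hn with rfl | hn
          · omega
          · exact h5 n hn
        · show covA T M zs _ _ _ _ = _
          rw [h7, pk8_cons, ← Nat.land_assoc]
          rfl

/-- the packed evaluation of a cover is true -/
def GoodE (d : ℕ) (zs : List ℕ) (e : ℕ) : Prop := ∃ ns : List ℕ, ns.length = zs.length ∧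
  (∀ n ∈ ns, n < 128) ∧ Nat.shiftRight e 40 = pk8 0 ns ∧ ∀ k : ℕ → ℕ, CapsL k zs ns →
    ∀ R : Finset ℕ, R.card ≤ d → (∀ x ∈ R, x < 32 → e.testBit x = true ∨ x ∈ zs) →
      PF (ncadj 5) (msk FULL) (mkP k (R : Set ℕ) zs)

theorem pk8_zeros : ∀ m : ℕ, pk8 0 (List.replicate m 0) = 0
  | 0 => rfl
  | m + 1 => by rw [List.replicate_succ, pk8_cons]; exact pk8_zeros m

theorem GoodE_zero (d : ℕ) {zs : List ℕ} (hzs : zs ≠ []) : GoodE d zs 0 := by
  refine ⟨List.replicate zs.length 0, by simp, ?_, ?_, ?_⟩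
  · intro n hn
    rw [List.eq_of_mem_replicate hn]; norm_num
  · rw [pk8_zeros]; rfl
  · intro k hk
    cases zs with
    | nil => exact absurd rfl hzs
    | cons z zs =>
      rw [List.length_cons, List.replicate_succ] at hk
      exact absurd hk.1 (by omega)

theorem FULL_tb {x : ℕ} : FULL.testBit x = true ↔ x < 32 := by
  unfold FULL
  rw [show (4294967295 : ℕ) = 2 ^ 32 - 1 by norm_num, Nat.testBit_two_pow_sub_one]
  simp

theorem covA_good {d T M D : ℕ} (hT : ∀ i < M, GoodP d T i) {zs : List ℕ} (hzs : zs ≠ [])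
    (hz : ∀ z ∈ zs, z < 32) (hl : zs.length ≤ 5) :
    covA T M zs D FULL 4294967295 0 < 2 ^ 80 ∧ GoodE d zs (covA T M zs D FULL 4294967295 0) := by
  rcases covA_ok hT zs D FULL 4294967295 0 hz with h | ⟨ns, T', h1, h2, h3, h4⟩
  · rw [h]
    exact ⟨by norm_num, GoodE_zero d hzs⟩
  · rw [h4]
    have hlow : (4294967295 &&& T') ||| 4294967296 < 2 ^ 40 := by
      refine Nat.or_lt_two_pow ?_ (by norm_num)
      exact lt_of_le_of_lt Nat.and_le_left (by norm_num)
    have hpk : pk8 0 ns < 2 ^ 40 := by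
      have h5 := pk8_lt (ns := ns) (c := 0) (a := 0) h2 (by norm_num)
      refine lt_of_lt_of_le h5 (Nat.pow_le_pow_right (by norm_num) ?_)
      rw [h1]; omega
    refine ⟨?_, ns, h1, h2, ?_, ?_⟩
    · refine Nat.or_lt_two_pow (lt_trans hlow (by norm_num)) ?_
      rw [Nat.shiftLeft_eq]
      calc pk8 0 ns * 2 ^ 40 < 2 ^ 40 * 2 ^ 40 := Nat.mul_lt_mul_of_pos_right hpk (by norm_num)
        _ = 2 ^ 80 := by norm_num
    · show (((4294967295 &&& T') ||| 4294967296) ||| (pk8 0 ns <<< 40)) >>> 40 = _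
      rw [Nat.shiftRight_or_distrib, Nat.shiftRight_eq_div_pow, Nat.div_eq_of_lt hlow,
        Nat.shiftLeft_shiftRight, Nat.zero_or]
    · intro k hk R hR hRT
      refine h3 k hk R hR ?_
      intro x hx hxX
      have hx32 := FULL_tb.1 hxX
      rcases hRT x hx hx32 with h5 | h5
      · left
        rw [Nat.testBit_or, Nat.testBit_or, Nat.testBit_and, Nat.testBit_shiftLeft,
          show (4294967296 : ℕ) = 2 ^ 32 by norm_num, Nat.testBit_two_pow] at h5
        have e1 : decide (32 = x) = false := by simp; omega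
        have e2 : decide (x ≥ 40) = false := by simp; omega
        rw [e1, e2, Bool.false_and, Bool.or_false, Bool.or_false, Bool.and_eq_true] at h5
        exact h5.2
      · exact Or.inr h5

/-- all entries are true -/
def AllE (d : ℕ) (zs : List ℕ) (P : ℕ) : Prop :=
  ∀ j, GoodE d zs (Nat.land (Nat.shiftRight P (Nat.mul 80 j)) M80)

theorem land_M80 {e : ℕ} (h : e < 2 ^ 80) : Nat.land e M80 = e := by
  show e &&& M80 = e
  rw [show M80 = 2 ^ 80 - 1 from rfl, Nat.and_two_pow_sub_one_eq_mod, Nat.mod_eq_of_lt h]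

theorem AllE_zero (d : ℕ) {zs : List ℕ} (hzs : zs ≠ []) : AllE d zs 0 := by
  intro j
  have : Nat.land (Nat.shiftRight 0 (Nat.mul 80 j)) M80 = 0 := by
    show (0 >>> (80 * j)) &&& M80 = 0
    rw [Nat.zero_shiftRight, Nat.zero_and]
  rw [this]
  exact GoodE_zero d hzs

theorem AllE_push {d P e : ℕ} {zs : List ℕ} (h : AllE d zs P) (he : GoodE d zs e)
    (he' : e < 2 ^ 80) : AllE d zs (Nat.lor (Nat.shiftLeft P 80) e) := by
  intro j
  cases j with
  | zero =>
    have : Nat.land (Nat.shiftRight (Nat.lor (Nat.shiftLeft P 80) e) (Nat.mul 80 0)) M80 = e := by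
      show (((P <<< 80) ||| e) >>> 0) &&& M80 = e
      rw [Nat.shiftRight_zero, show M80 = 2 ^ 80 - 1 from rfl, Nat.and_two_pow_sub_one_eq_mod,
        Nat.or_mod_two_pow, Nat.shiftLeft_eq, Nat.mul_mod_left, Nat.zero_or, Nat.mod_eq_of_lt he']
    rw [this]
    exact he
  | succ j =>
    have : Nat.shiftRight (Nat.lor (Nat.shiftLeft P 80) e) (Nat.mul 80 (j + 1)) =
        Nat.shiftRight P (Nat.mul 80 j) := by
      show ((P <<< 80) ||| e) >>> (80 * (j + 1)) = P >>> (80 * j)
      rw [show 80 * (j + 1) = 80 + 80 * j by ring, Nat.shiftRight_add, Nat.shiftRight_or_distrib,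
        Nat.shiftLeft_shiftRight, Nat.shiftRight_eq_div_pow e, Nat.div_eq_of_lt he', Nat.or_zero]
    rw [this]
    exact h j

/-- evaluation of the covers of a chunk -/
noncomputable def covI (T M : ℕ) (zs : List ℕ) (w f : ℕ) : ℕ → ℕ → ℕ :=
  Nat.rec (motive := fun _ => ℕ → ℕ → ℕ) (fun _ P => P)
    (fun _ ih C P => fN (Nat.lor (Nat.shiftLeft P 80) (covA T M zs C FULL 4294967295 0)) fun P' =>
      ih (Nat.shiftRight C w) P') f

theorem covI_ok {d T M w : ℕ} (hT : ∀ i < M, GoodP d T i) {zs : List ℕ} (hzs : zs ≠ [])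
    (hz : ∀ z ∈ zs, z < 32) (hl : zs.length ≤ 5) : ∀ (f C P : ℕ), AllE d zs P →
      AllE d zs (covI T M zs w f C P)
  | 0, _, _, h => h
  | f + 1, C, P, h => by
    have e : covI T M zs w (f + 1) C P = covI T M zs w f (Nat.shiftRight C w)
        (Nat.lor (Nat.shiftLeft P 80) (covA T M zs C FULL 4294967295 0)) := by
      show fN _ _ = _
      rw [fN_eq]
      rfl
    rw [e]
    obtain ⟨h1, h2⟩ := covA_good (D := C) hT hzs hz hl
    exact covI_ok hT hzs hz hl f _ _ (AllE_push h h2 h1)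

/-- evaluation of all covers -/
noncomputable def covO (T M : ℕ) (zs : List ℕ) (w f : ℕ) (Cs : List ℕ) : ℕ → ℕ :=
  List.rec (motive := fun _ => ℕ → ℕ) (fun P => P)
    (fun C _ ih P => fN (covI T M zs w f C P) fun P' => ih P') Cs

theorem covO_ok {d T M w f : ℕ} (hT : ∀ i < M, GoodP d T i) {zs : List ℕ} (hzs : zs ≠ [])
    (hz : ∀ z ∈ zs, z < 32) (hl : zs.length ≤ 5) : ∀ (Cs : List ℕ) (P : ℕ), AllE d zs P →
      AllE d zs (covO T M zs w f Cs P)
  | [], _, h => h
  | C :: Cs, P, h => by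
    have e : covO T M zs w f (C :: Cs) P = covO T M zs w f Cs (covI T M zs w f C P) := by
      show fN _ _ = _
      rw [fN_eq]
      rfl
    rw [e]
    exact covO_ok hT hzs hz hl Cs _ (covI_ok hT hzs hz hl f C P h)

/-! ### Size vectors, one relevant position -/

/-- the fact for the size vector `vs` and the relevant position `x` -/
def VOK (zs : List ℕ) (x : ℕ) (vs : List ℕ) : Prop := ∀ k : ℕ → ℕ, CapsL k zs vs →
  PF (ncadj 5) (msk FULL) (mkP k {x} zs)

/-- one size vector: `D` lists the covers (12 bits each, ends with zero) -/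
noncomputable def vck (P vp H dem f : ℕ) : ℕ → ℕ → (ℕ → Bool) → Bool :=
  Nat.rec (motive := fun _ => ℕ → ℕ → (ℕ → Bool) → Bool) (fun _ _ _ => false)
    (fun _ ih D acc nx =>
      Bool.rec (motive := fun _ => Bool)
        (fB (Nat.land (Nat.shiftRight P (Nat.mul 80 (Nat.pred (Nat.land D 4095)))) M80) fun e =>
          nd (Nat.beq (Nat.land (Nat.sub (Nat.add (Nat.shiftRight e 40) H) vp) H) H)
            (ih (Nat.shiftRight D 12) (Nat.lor acc e) nx))
        (nd (sb dem acc) (nx (Nat.shiftRight D 12)))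
        (Nat.beq (Nat.land D 4095) 0)) f

theorem vck_ok {P dem : ℕ} {zs vs : List ℕ} (hP : AllE 1 zs P) (hv : ∀ v ∈ vs, v < 128)
    (hl : vs.length = zs.length) : ∀ (f D acc : ℕ) (nx : ℕ → Bool),
    vck P (pk8 0 vs) (pk8 0 (vs.map fun _ => 128)) dem f D acc nx = true →
    (∀ x < 33, acc.testBit x = true → VOK zs x vs) →
      (∀ x < 33, dem.testBit x = true → VOK zs x vs) ∧ ∃ D', nx D' = true
  | 0, D, acc, nx, h, _ => by
    have h' : false = true := h
    exact absurd h' (by simp)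
  | f + 1, D, acc, nx, h, hacc => by
    have h' : Bool.rec (motive := fun _ => Bool)
        (fB (Nat.land (Nat.shiftRight P (Nat.mul 80 (Nat.pred (Nat.land D 4095)))) M80) fun e =>
          nd (Nat.beq (Nat.land (Nat.sub (Nat.add (Nat.shiftRight e 40)
            (pk8 0 (vs.map fun _ => 128))) (pk8 0 vs)) (pk8 0 (vs.map fun _ => 128)))
              (pk8 0 (vs.map fun _ => 128)))
            (vck P (pk8 0 vs) (pk8 0 (vs.map fun _ => 128)) dem f (Nat.shiftRight D 12)
              (Nat.lor acc e) nx))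
        (nd (sb dem acc) (nx (Nat.shiftRight D 12)))
        (Nat.beq (Nat.land D 4095) 0) = true := h
    cases hc : Nat.beq (Nat.land D 4095) 0 with
    | true =>
      rw [hc] at h'
      rw [nd_iff] at h'
      exact ⟨fun x hx hd => hacc x hx (sb_ok h'.1 hd), _, h'.2⟩
    | false =>
      rw [hc] at h'
      have hE := hP (Nat.pred (Nat.land D 4095))
      rw [fB_eq, nd_iff] at h'
      generalize Nat.land (Nat.shiftRight P (Nat.mul 80 (Nat.pred (Nat.land D 4095)))) M80 = e at *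
      obtain ⟨h1, h2⟩ := h'
      obtain ⟨ns, g1, g2, g3, g4⟩ := hE
      rw [g3] at h1
      have h3 := Nat.eq_of_beq_eq_true h1
      obtain ⟨-, h4⟩ := cmp8 ns vs 0 0 0 (by rw [g1, hl]) g2 hv le_rfl h3
      refine vck_ok hP hv hl f _ _ nx h2 ?_
      intro x hx hxa
      have e1 : Nat.lor acc e = acc ||| e := rfl
      rw [e1, Nat.testBit_or, Bool.or_eq_true] at hxa
      rcases hxa with hxa | hxa
      · exact hacc x hx hxa
      · intro k hk
        have h5 := g4 k (CapsL_mono h4 hk) {x} (by simp) (by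
          intro y hy hy32
          rw [Finset.mem_singleton] at hy
          rw [hy]; exact Or.inl hxa)
        simpa using h5

/-- masks of the exceptional positions -/
noncomputable def exm (ex : List (ℕ × ℕ)) (vp : ℕ) : ℕ :=
  List.rec (motive := fun _ => ℕ) 0
    (fun pm _ ih => Bool.rec (motive := fun _ => ℕ) ih pm.2 (Nat.beq pm.1 vp)) ex

theorem exm_mem : ∀ {ex : List (ℕ × ℕ)} {vp x : ℕ}, (exm ex vp).testBit x = true →
    ∃ m, (vp, m) ∈ ex ∧ m.testBit x = true
  | [], vp, x, h => by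
    have h' : (0 : ℕ).testBit x = true := h
    simp at h'
  | pm :: ex, vp, x, h => by
    have e : exm (pm :: ex) vp =
      Bool.rec (motive := fun _ => ℕ) (exm ex vp) pm.2 (Nat.beq pm.1 vp) := rfl
    rw [e] at h
    cases hc : Nat.beq pm.1 vp with
    | false =>
      rw [hc] at h
      obtain ⟨m, h1, h2⟩ := exm_mem h
      exact ⟨m, List.mem_cons_of_mem _ h1, h2⟩
    | true =>
      rw [hc] at h
      have : pm.1 = vp := Nat.eq_of_beq_eq_true hc
      refine ⟨pm.2, ?_, h⟩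
      rw [← this]
      exact List.mem_cons_self

/-- the exceptional facts -/
def ExOK (zs : List ℕ) (ex : List (ℕ × ℕ)) : Prop := ∀ p ∈ ex, ∀ vs : List ℕ,
  vs.length = zs.length → (∀ v ∈ vs, v < 128) → pk8 0 vs = p.1 →
    ∀ x < 33, p.2.testBit x = true → VOK zs x vs

/-- loop over a stream -/
noncomputable def lpS (body : ℕ → ℕ → (ℕ → Bool) → Bool) (f : ℕ) : ℕ → ℕ → (ℕ → Bool) → Bool :=
  Nat.rec (motive := fun _ => ℕ → ℕ → (ℕ → Bool) → Bool) (fun _ D nx => nx D)
    (fun _ ih i D nx => body i D fun D' => ih (Nat.succ i) D' nx) f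

theorem lpS_ok {body : ℕ → ℕ → (ℕ → Bool) → Bool} {Q : ℕ → Prop} {B : ℕ}
    (hb : ∀ i, 1 ≤ i → i < B → ∀ D nx, body i D nx = true → Q i ∧ ∃ D', nx D' = true) :
    ∀ (f i D : ℕ) (nx : ℕ → Bool), 1 ≤ i → i + f ≤ B → lpS body f i D nx = true →
      (∀ j, i ≤ j → j < i + f → Q j) ∧ ∃ D', nx D' = true
  | 0, i, D, nx, _, _, h => ⟨fun j h1 h2 => by omega, D, h⟩
  | f + 1, i, D, nx, hi1, hB, h => by
    have h' : body i D (fun D' => lpS body f (Nat.succ i) D' nx) = true := h
    obtain ⟨h1, D', h2⟩ := hb i hi1 (by omega) D _ h'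
    obtain ⟨h3, h4⟩ := lpS_ok hb f (Nat.succ i) D' nx (Nat.succ_le_succ (Nat.zero_le _))
      (by show i + 1 + f ≤ B; omega) h2
    refine ⟨fun j hj1 hj2 => ?_, h4⟩
    by_cases hij : j = i
    · rw [hij]; exact h1
    · exact h3 j (by show i + 1 ≤ j; omega) (by show j < i + 1 + f; omega)

/-- demanded positions of a class -/
noncomputable def demK (zs : List ℕ) : ℕ := Nat.lor (Nat.xor FULL (maskL zs)) 4294967296

/-- all size vectors with two entries and sum `N` -/
noncomputable def cl2 (P N : ℕ) (ex : List (ℕ × ℕ)) (dem D : ℕ) : Bool :=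
  lpS (fun a D nx => fB (Nat.add (Nat.mul 256 a) (Nat.sub N a)) fun vp =>
    vck P vp 32896 dem 63 D (exm ex vp) nx) (Nat.pred N) 1 D fun _ => true

/-- all size vectors with three entries and sum `N` -/
noncomputable def cl3 (P N : ℕ) (ex : List (ℕ × ℕ)) (dem : ℕ) (Ds : List ℕ) : Bool :=
  lp (Nat.pred N) (fun D a =>
    lpS (fun b D nx => fB (Nat.add (Nat.mul 256 (Nat.add (Nat.mul 256 a) b))
        (Nat.sub (Nat.sub N a) b)) fun vp => vck P vp 8421504 dem 63 D (exm ex vp) nx)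
      (Nat.pred (Nat.sub N a)) 1 D fun _ => true) Ds 1

/-- all size vectors with four entries and sum `N` -/
noncomputable def cl4 (P N : ℕ) (ex : List (ℕ × ℕ)) (dem : ℕ) (Ds : List ℕ) : Bool :=
  lp (Nat.pred (Nat.pred N)) (fun D a =>
    lpS (fun b D nx => lpS (fun c D nx =>
        fB (Nat.add (Nat.mul 256 (Nat.add (Nat.mul 256 (Nat.add (Nat.mul 256 a) b)) c))
          (Nat.sub (Nat.sub (Nat.sub N a) b) c)) fun vp =>
            vck P vp 2155905152 dem 63 D (exm ex vp) nx)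
        (Nat.pred (Nat.sub (Nat.sub N a) b)) 1 D nx)
      (Nat.pred (Nat.pred (Nat.sub N a))) 1 D fun _ => true) Ds 1

theorem vck_use {P dem vp D : ℕ} {zs vs : List ℕ} {ex : List (ℕ × ℕ)} {nx : ℕ → Bool}
    (hP : AllE 1 zs P) (hex : ExOK zs ex) (hv : ∀ v ∈ vs, v < 128) (hl : vs.length = zs.length)
    (hvp : vp = pk8 0 vs) {H : ℕ} (hH : H = pk8 0 (vs.map fun _ => 128))
    (h : vck P vp H dem 63 D (exm ex vp) nx = true) :
    (∀ x < 33, dem.testBit x = true → VOK zs x vs) ∧ ∃ D', nx D' = true := by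
  subst hvp; subst hH
  refine vck_ok hP hv hl 63 D _ nx h ?_
  intro x hx hxe
  obtain ⟨m, h1, h2⟩ := exm_mem hxe
  exact hex _ h1 vs hl hv rfl x hx h2

theorem cl2_ok {P N D dem a₀ b₀ : ℕ} {ex : List (ℕ × ℕ)} (hP : AllE 1 [a₀, b₀] P)
    (hex : ExOK [a₀, b₀] ex) (hN : N < 128) (h : cl2 P N ex dem D = true) {a b : ℕ}
    (ha : 1 ≤ a) (hb : 1 ≤ b) (hab : a + b = N) :
    ∀ x < 33, dem.testBit x = true → VOK [a₀, b₀] x [a, b] := by
  have h1 := (lpS_ok (B := N) (Q := fun a => ∀ x < 33, dem.testBit x = true →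
    VOK [a₀, b₀] x [a, N - a]) (by
      intro i hi1 hi D nx h2
      rw [fB_eq] at h2
      exact vck_use (vs := [i, N - i]) hP hex (by
        intro v hv
        simp only [List.mem_cons, List.not_mem_nil, or_false] at hv
        omega) rfl (by
          show 256 * i + (N - i) = 256 * (256 * 0 + i) + (N - i)
          ring) rfl h2) (Nat.pred N) 1 D _ le_rfl (by show 1 + (N - 1) ≤ N; omega) h).1 a ha
            (by show a < 1 + (N - 1); omega)
  rw [show N - a = b by omega] at h1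
  exact h1

theorem cl3_ok {P N dem a₀ b₀ c₀ : ℕ} {Ds : List ℕ} {ex : List (ℕ × ℕ)}
    (hP : AllE 1 [a₀, b₀, c₀] P)
    (hex : ExOK [a₀, b₀, c₀] ex) (hN : N < 128) (h : cl3 P N ex dem Ds = true) {a b c : ℕ}
    (ha : 1 ≤ a) (hb : 1 ≤ b) (hc : 1 ≤ c) (hab : a + b + c = N) :
    ∀ x < 33, dem.testBit x = true → VOK [a₀, b₀, c₀] x [a, b, c] := by
  obtain ⟨D, hD⟩ := lp_ok h a ha (by show a < N - 1; omega)
  have h1 := (lpS_ok (B := N - a) (Q := fun b => ∀ x < 33, dem.testBit x = true →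
    VOK [a₀, b₀, c₀] x [a, b, N - a - b]) (by
      intro i hi1 hi D nx h2
      rw [fB_eq] at h2
      exact vck_use (vs := [a, i, N - a - i]) hP hex (by
        intro v hv
        simp only [List.mem_cons, List.not_mem_nil, or_false] at hv
        omega) rfl (by
          show 256 * (256 * a + i) + (N - a - i) = 256 * (256 * (256 * 0 + a) + i) + (N - a - i)
          ring) rfl h2) (Nat.pred (Nat.sub N a)) 1 D _ le_rfl
            (by show 1 + (N - a - 1) ≤ N - a; omega) hD).1 b hb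
            (by show b < 1 + (N - a - 1); omega)
  rw [show N - a - b = c by omega] at h1
  exact h1

theorem cl4_ok {P N dem a₀ b₀ c₀ d₀ : ℕ} {Ds : List ℕ} {ex : List (ℕ × ℕ)}
    (hP : AllE 1 [a₀, b₀, c₀, d₀] P)
    (hex : ExOK [a₀, b₀, c₀, d₀] ex) (hN : N < 128) (h : cl4 P N ex dem Ds = true) {a b c d : ℕ}
    (ha : 1 ≤ a) (hb : 1 ≤ b) (hc : 1 ≤ c) (hd : 1 ≤ d) (hab : a + b + c + d = N) :
    ∀ x < 33, dem.testBit x = true → VOK [a₀, b₀, c₀, d₀] x [a, b, c, d] := by
  obtain ⟨D, hD⟩ := lp_ok h a ha (by show a < N - 1 - 1; omega)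
  have h1 := (lpS_ok (B := N - a - 1) (Q := fun b => ∀ c, 1 ≤ c → c < N - a - b →
    ∀ x < 33, dem.testBit x = true →
    VOK [a₀, b₀, c₀, d₀] x [a, b, c, N - a - b - c]) (by
      intro i hi1 hi D nx h2
      obtain ⟨h3, h4⟩ := lpS_ok (B := N - a - i) (Q := fun c => ∀ x < 33, dem.testBit x = true →
        VOK [a₀, b₀, c₀, d₀] x [a, i, c, N - a - i - c]) (by
          intro j hj1 hj D nx h2
          rw [fB_eq] at h2
          exact vck_use (vs := [a, i, j, N - a - i - j]) hP hex (by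
            intro v hv
            simp only [List.mem_cons, List.not_mem_nil, or_false] at hv
            omega) rfl (by
              show 256 * (256 * (256 * a + i) + j) + (N - a - i - j) =
                256 * (256 * (256 * (256 * 0 + a) + i) + j) + (N - a - i - j)
              ring) (by simp [pk8]) h2) (Nat.pred (Nat.sub (Nat.sub N a) i)) 1 D _ le_rfl
                (by show 1 + (N - a - i - 1) ≤ N - a - i; omega) h2
      exact ⟨fun c hc1 hc2 => h3 c hc1 (by show c < 1 + (N - a - i - 1); omega), h4⟩)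
    (Nat.pred (Nat.pred (Nat.sub N a))) 1 D _ le_rfl
            (by show 1 + (N - a - 1 - 1) ≤ N - a - 1; omega) hD).1 b hb
            (by show b < 1 + (N - a - 1 - 1); omega) c hc (by omega)
  rw [show N - a - b - c = d by omega] at h1
  exact h1

/-! ### Facts of a class -/

/-- `CF D zs N`: all forests with roots at the positions `zs`, of total size at most `N`, at most
`D` relevant positions -/
def CF (D : ℕ) (zs : List ℕ) (N : ℕ) : Prop := ∀ k : ℕ → ℕ, (zs.map fun z => k z + 1).sum ≤ N →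
  ∀ R : Finset ℕ, R.card ≤ D → PF (ncadj 5) (msk FULL) (mkP k (R : Set ℕ) zs)

theorem demK_ok {zs : List ℕ} {x : ℕ} (hx : x ∉ zs) (hx32 : x < 33) :
    (demK zs).testBit x = true := by
  show ((FULL ^^^ maskL zs) ||| 4294967296).testBit x = true
  rw [Nat.testBit_or, Nat.testBit_xor, show (4294967296 : ℕ) = 2 ^ 32 by norm_num,
    Nat.testBit_two_pow]
  have h1 : (maskL zs).testBit x = false := by
    cases h : (maskL zs).testBit x with
    | false => rfl
    | true => exact absurd (testBit_maskL.1 h) hx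
  rw [h1, Bool.xor_false]
  by_cases h : x < 32
  · rw [FULL_tb.2 h, Bool.true_or]
  · have : x = 32 := by omega
    subst this
    simp

/-- from the size vectors to the fact of the class -/
theorem CF.of_VOK {zs vs : List ℕ} {k : ℕ → ℕ} (hz : ∀ z ∈ zs, z < 32) (hk : CapsL k zs vs)
    (h : ∀ x < 33, (demK zs).testBit x = true → VOK zs x vs) {R : Finset ℕ} (hR : R.card ≤ 1) :
    PF (ncadj 5) (msk FULL) (mkP k (R : Set ℕ) zs) := by
  have h0 := h 32 (by norm_num) (demK_ok (fun h => absurd (hz 32 h) (by norm_num)) (by norm_num)) k hk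
  by_cases hx : ∃ x ∈ R, x < 32 ∧ x ∉ zs
  · obtain ⟨x, hx, hx32, hxz⟩ := hx
    have h1 := h x (by omega) (demK_ok hxz (by omega)) k hk
    refine weakR h1 ?_
    intro y _ hy
    left
    have hy' : y ∈ R := hy
    exact Finset.card_le_one.1 hR y hy' x hx
  · push Not at hx
    refine weakR h0 ?_
    intro y hyX hy
    right
    exact hx y hy (FULL_tb.1 hyX)

theorem CF.two {P N D a₀ b₀ : ℕ} {ex : List (ℕ × ℕ)} (ha₀ : a₀ < 32) (hb₀ : b₀ < 32)
    (hP : AllE 1 [a₀, b₀] P) (hex : ExOK [a₀, b₀] ex) (hN : N < 128)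
    (h : cl2 P N ex (demK [a₀, b₀]) D = true) : CF 1 [a₀, b₀] N := by
  intro k hk R hR
  simp only [List.map_cons, List.map_nil, List.sum_cons, List.sum_nil] at hk
  refine CF.of_VOK (vs := [k a₀ + 1, N - (k a₀ + 1)]) ?_ ?_ ?_ hR
  · intro z hz
    simp only [List.mem_cons, List.not_mem_nil, or_false] at hz
    rcases hz with rfl | rfl <;> assumption
  · exact ⟨le_rfl, by omega, trivial⟩
  · exact cl2_ok hP hex hN h (by omega) (by omega) (by omega)

theorem CF.three {P N a₀ b₀ c₀ : ℕ} {Ds : List ℕ} {ex : List (ℕ × ℕ)} (ha₀ : a₀ < 32)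
    (hb₀ : b₀ < 32) (hc₀ : c₀ < 32)
    (hP : AllE 1 [a₀, b₀, c₀] P) (hex : ExOK [a₀, b₀, c₀] ex) (hN : N < 128)
    (h : cl3 P N ex (demK [a₀, b₀, c₀]) Ds = true) : CF 1 [a₀, b₀, c₀] N := by
  intro k hk R hR
  simp only [List.map_cons, List.map_nil, List.sum_cons, List.sum_nil] at hk
  refine CF.of_VOK (vs := [k a₀ + 1, k b₀ + 1, N - (k a₀ + 1) - (k b₀ + 1)]) ?_ ?_ ?_ hR
  · intro z hz
    simp only [List.mem_cons, List.not_mem_nil, or_false] at hz
    rcases hz with rfl | rfl | rfl <;> assumption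
  · exact ⟨le_rfl, le_rfl, by omega, trivial⟩
  · exact cl3_ok hP hex hN h (by omega) (by omega) (by omega) (by omega)

theorem CF.four {P N a₀ b₀ c₀ d₀ : ℕ} {Ds : List ℕ} {ex : List (ℕ × ℕ)} (ha₀ : a₀ < 32)
    (hb₀ : b₀ < 32) (hc₀ : c₀ < 32) (hd₀ : d₀ < 32)
    (hP : AllE 1 [a₀, b₀, c₀, d₀] P) (hex : ExOK [a₀, b₀, c₀, d₀] ex) (hN : N < 128)
    (h : cl4 P N ex (demK [a₀, b₀, c₀, d₀]) Ds = true) : CF 1 [a₀, b₀, c₀, d₀] N := by
  intro k hk R hR
  simp only [List.map_cons, List.map_nil, List.sum_cons, List.sum_nil] at hk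
  refine CF.of_VOK (vs := [k a₀ + 1, k b₀ + 1, k c₀ + 1,
    N - (k a₀ + 1) - (k b₀ + 1) - (k c₀ + 1)]) ?_ ?_ ?_ hR
  · intro z hz
    simp only [List.mem_cons, List.not_mem_nil, or_false] at hz
    rcases hz with rfl | rfl | rfl | rfl <;> assumption
  · exact ⟨le_rfl, le_rfl, le_rfl, by omega, trivial⟩
  · exact cl4_ok hP hex hN h (by omega) (by omega) (by omega) (by omega) (by omega)

/-- one root -/
theorem CF.one {T M i N : ℕ} (hT : ∀ i < M, GoodP 1 T i)
    (h : nd (Nat.ble (Nat.succ i) M) (nd (Nat.beq (lo (tZ T i)) FULL) (nd (Nat.ble N (tN T i))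
      (Nat.beq (hi (tZ T i)) 4294967294))) = true) : CF 1 [0] N := by
  intro k hk R hR
  simp only [List.map_cons, List.map_nil, List.sum_cons, List.sum_nil] at hk
  rw [nd_iff, nd_iff, nd_iff] at h
  obtain ⟨h1, h2, h3, h4⟩ := h
  have g := hT _ (lt_of_succ_ble h1)
  unfold GoodP at g
  have e1 : lo (tZ T i) = FULL := Nat.eq_of_beq_eq_true h2
  have e3 : hi (tZ T i) = 4294967294 := Nat.eq_of_beq_eq_true h4
  have e2 : N ≤ tN T i := Nat.le_of_ble_eq_true h3
  have g2 := (g.1 (k 0) (R.erase 0) (by omega) ((Finset.card_erase_le).trans hR) (by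
    intro x hx hxX
    rw [e1] at hxX
    rw [e3]
    have hx32 := FULL_tb.1 hxX
    have hx0 : x ≠ 0 := (Finset.mem_erase.1 hx).1
    have : ∀ x < 32, x ≠ 0 → (4294967294 : ℕ).testBit x = true := by decide +kernel
    exact this x hx32 hx0))
  rw [e1] at g2
  refine weakR (k := k) (zs := [0]) g2 ?_
  intro y _ hy
  by_cases hy0 : y = 0
  · right; simp [hy0]
  · left
    have : y ∈ R := hy
    exact_mod_cast Finset.mem_erase.2 ⟨hy0, this⟩

end Pt

end Pool.Agent.Work.MP_bf01b2_co.MR
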