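import Pool.Agent.Work.MP_bf01b2_co.MR.PfC

/-!
# From facts for labelled trees to states with path specials
-/

set_option autoImplicit false
set_option linter.unusedSectionVars false

namespace Pool.Agent.Work.MP_bf01b2_co.MR

theorem forall₂_and_right {α β : Type*} {P : α → β → Prop} {Q : β → Prop} {a : List α} {b : List β}
    (h : List.Forall₂ P a b) (hQ : ∀ y ∈ b, Q y) : List.Forall₂ (fun x y => P x y ∧ Q y) a b := by
  induction h with
  | nil => exact .nil
  | cons h1 _ ih =>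
    exact .cons ⟨h1, hQ _ List.mem_cons_self⟩ (ih fun y hy => hQ y (List.mem_cons_of_mem _ hy))

section mapOn

variable {V W : Type*} [DecidableEq V] [DecidableEq W]

/-- image of a mark under a map -/
def PM.mapF (f : V → W) (m : PM V) : PM W := ⟨f m.p, m.k, f '' m.R⟩

/-- Transport of facts along a map which is injective on `D`. -/
theorem PF.mapOn {adj : V → V → Prop} {adj' : W → W → Prop}
    (f : V → W) (g : W → V) (hf : ∀ a b, adj a b → adj' (f a) (f b)) (D : Set V)
    (hgf : ∀ v ∈ D, g (f v) = v) {X : Set V} (hX : X ⊆ D)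
    {ms : List (PM V)} (hms : ∀ m ∈ ms, m.p ∈ D ∧ m.R ⊆ D)
    (h : PF adj X ms) : PF adj' (f '' X) (ms.map (PM.mapF f)) := by
  intro τ hτ
  have hinj : Set.InjOn f D := fun a ha b hb hab => by
    rw [← hgf a ha, ← hgf b hb, hab]
  let gl : Finset W → Finset V := fun F => (F.image g).filter (fun x => f x ∈ F)
  have hg1 : ∀ F x, x ∈ gl F → f x ∈ F := fun F x hx => (Finset.mem_filter.1 hx).2
  have hg2 : ∀ F, ∀ x ∈ D, f x ∈ F → x ∈ gl F := by
    intro F x hx hxF
    exact Finset.mem_filter.2 ⟨Finset.mem_image.2 ⟨f x, hxF, hgf x hx⟩, hxF⟩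
  have hr : ∀ v ∈ D, f v ∈ rts (ms.map (PM.mapF f)) ↔ v ∈ rts ms := by
    intro v hv
    constructor
    · rintro ⟨m', hm', e'⟩
      obtain ⟨m, hm, rfl⟩ := List.mem_map.1 hm'
      exact ⟨m, hm, hinj (hms m hm).1 hv e'⟩
    · rintro ⟨m, hm, rfl⟩
      exact ⟨_, List.mem_map_of_mem hm, rfl⟩
  obtain ⟨A, q, hA, hAd⟩ := h (fun v => ((τ (f v)).1.mapL gl, (τ (f v)).2.mapL gl)) (by
    intro m hm
    obtain ⟨h1, h2, h3, h4, h5⟩ := hτ (m.mapF f) (List.mem_map_of_mem hm)
    have key : ∀ F ∈ ((τ (f m.p)).1.labs ++ (τ (f m.p)).2.labs), ∀ x, f x ∈ F → x ∈ X →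
        x ∈ m.R ∨ x ∈ rts ms := by
      intro F hF x hx hxX
      rcases h2 F hF (f x) hx ⟨x, hxX, rfl⟩ with h6 | h6
      · left
        obtain ⟨y, hy, e'⟩ := h6
        rwa [← hinj ((hms m hm).2 hy) (hX hxX) e']
      · exact Or.inr ((hr x (hX hxX)).1 h6)
    refine ⟨?_, ?_, ?_, ?_, ?_⟩
    · show (LT.mapL gl _).size + (LT.mapL gl _).size ≤ m.k
      rw [LT.mapL_size, LT.mapL_size]
      exact h1
    · intro F hF x hx hxX
      simp only [LT.mapL_labs, ← List.map_append] at hF
      obtain ⟨G, hG, rfl⟩ := List.mem_map.1 hF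
      exact key G hG x (hg1 G x hx) hxX
    · intro x hxX hxr
      have h6 := h3 (f x) ⟨x, hxX, rfl⟩ (fun h => hxr ((hr x (hX hxX)).1 h))
      exact LT.onp_mapL (t := .node (τ (f m.p)).1 (τ (f m.p)).2) (g := gl) (x := f x) (y := x)
        (fun F hF => hg1 F x hF) h6
    · intro F hF
      obtain ⟨G, hG, rfl⟩ := LT.mapL_eq_hole hF
      intro h6
      exact h4 G hG (hg1 G m.p h6)
    · intro F hF
      obtain ⟨G, hG, rfl⟩ := LT.mapL_eq_hole hF
      intro h6
      exact h5 G hG (hg1 G m.p h6))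
  refine ⟨fun w => (A (g w)).image f, fun w => (q (g w)).map f, ?_, ?_⟩
  · intro m' hm'
    obtain ⟨m, hm, rfl⟩ := List.mem_map.mp hm'
    obtain ⟨⟨h1, h1'⟩, h2⟩ := hA m hm
    have hAD : Set.InjOn f (A m.p) := hinj.mono fun a ha => hX (h2 a ha)
    show REmb adj' (τ (f m.p)) (f m.p) ((A (g (f m.p))).image f) ((q (g (f m.p))).map f) ∧
      ∀ v ∈ (A (g (f m.p))).image f, v ∈ f '' X
    rw [hgf _ (hms m hm).1]
    refine ⟨⟨?_, ?_⟩, ?_⟩
    · have h3 := root_mapOn (adj' := adj') f hf hAD h1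
      simp only [LT.mapL_shape] at h3
      exact h3
    · simp only [LT.mapL_labs, ← List.map_append] at h1'
      have h3 := forall₂_and_right (Q := fun x => x ∈ D) h1' fun y hy =>
        hX (h2 y ((root_mem h1).1 y hy))
      rw [List.forall₂_map_left_iff] at h3
      rw [List.forall₂_map_right_iff]
      exact h3.imp fun F x hx hx' => hx.1 (hg2 F x hx.2 hx')
    · intro v hv
      obtain ⟨w, hw, rfl⟩ := Finset.mem_image.mp hv
      exact ⟨w, h2 w hw, rfl⟩
  · intro m1' hm1' m2' hm2' hne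
    obtain ⟨m1, hm1, rfl⟩ := List.mem_map.mp hm1'
    obtain ⟨m2, hm2, rfl⟩ := List.mem_map.mp hm2'
    show Disjoint ((A (g (f m1.p))).image f) ((A (g (f m2.p))).image f)
    rw [hgf _ (hms m1 hm1).1, hgf _ (hms m2 hm2).1]
    have h3 := hAd m1 hm1 m2 hm2 (fun h => hne (congrArg f h))
    rw [Finset.disjoint_left]
    intro w hw hw'
    obtain ⟨a, ha, rfl⟩ := Finset.mem_image.mp hw
    obtain ⟨b, hb, hab⟩ := Finset.mem_image.mp hw'
    have := hinj (hX ((hA m2 hm2).2 b hb)) (hX ((hA m1 hm1).2 a ha)) hab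
    exact Finset.disjoint_left.mp h3 ha (this ▸ hb)

end mapOn

section toEmb

variable {V : Type*} [DecidableEq V] {adj : V → V → Prop}

theorem lforest_of {A : V → Finset V} {q : V → List V} : ∀ (Ts : List (LRT V)),
    (Ts.map LRT.pos).Nodup →
    (∀ T ∈ Ts, REmb adj (T.l, T.r) T.pos (A T.pos) (q T.pos)) →
    (∀ T ∈ Ts, ∀ U ∈ Ts, T.pos ≠ U.pos → Disjoint (A T.pos) (A U.pos)) →
    ∃ S p, LForest adj Ts S p ∧ ∀ v ∈ S, ∃ T ∈ Ts, v ∈ A T.pos
  | [], _, _, _ => ⟨∅, [], ⟨⟨rfl, rfl⟩, .nil⟩, by simp⟩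
  | T :: Ts, hnd, hA, hd => by
    rw [List.map_cons, List.nodup_cons] at hnd
    obtain ⟨S, p, ⟨h1, h2⟩, h3⟩ := lforest_of Ts hnd.2
      (fun U hU => hA U (List.mem_cons_of_mem _ hU))
      (fun U hU W hW => hd U (List.mem_cons_of_mem _ hU) W (List.mem_cons_of_mem _ hW))
    obtain ⟨h4, h5⟩ := hA T List.mem_cons_self
    refine ⟨A T.pos ∪ S, q T.pos ++ p, ⟨?_, ?_⟩, ?_⟩
    · refine ⟨A T.pos, S, q T.pos, p, h4, h1, ?_, rfl, rfl⟩
      rw [Finset.disjoint_left]
      intro v hv hvS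
      obtain ⟨U, hU, hvU⟩ := h3 v hvS
      have hne : T.pos ≠ U.pos := by
        intro e
        exact hnd.1 (e ▸ List.mem_map_of_mem hU)
      exact Finset.disjoint_left.1 (hd T List.mem_cons_self U (List.mem_cons_of_mem _ hU) hne) hv hvU
    · rw [List.flatMap_cons]
      exact forall₂_append' h5 h2
    · intro v hv
      rcases Finset.mem_union.1 hv with hv | hv
      · exact ⟨T, List.mem_cons_self, hv⟩
      · obtain ⟨U, hU, hvU⟩ := h3 v hv
        exact ⟨U, List.mem_cons_of_mem _ hU, hvU⟩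

/-- A fact embeds forests given as lists. -/
theorem PF.toEmb {X : Set V} {ms : List (PM V)} (h : PF adj X ms) {Ts : List (LRT V)}
    (hnd : (Ts.map LRT.pos).Nodup) (hok : ∀ T ∈ Ts, RootOK T)
    (h1 : ∀ T ∈ Ts, ∃ m ∈ ms, m.p = T.pos)
    (h2 : ∀ m ∈ ms, ∃ T ∈ Ts, T.pos = m.p ∧ T.size ≤ m.k + 1 ∧
      (∀ F ∈ T.labs, ∀ x ∈ F, x ∈ X → x ∈ m.R ∨ x ∈ rts ms) ∧
      (∀ x ∈ X, x ∉ rts ms → T.tree.onp x)) : ∃ S, Emb adj Ts S := by
  classical
  let τ : V → LT V × LT V := fun v =>
    match Ts.find? (fun T => T.pos = v) with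
    | some T => (T.l, T.r)
    | none => (.nil, .nil)
  have hτ : ∀ T ∈ Ts, τ T.pos = (T.l, T.r) := by
    intro T hT
    have h3 : ∃ T', Ts.find? (fun U => decide (U.pos = T.pos)) = some T' := by
      cases hf : Ts.find? (fun U => decide (U.pos = T.pos)) with
      | none =>
        rw [List.find?_eq_none] at hf
        exact absurd (hf T hT) (by simp)
      | some T' => exact ⟨T', rfl⟩
    obtain ⟨T', hT'⟩ := h3
    have h4 : T'.pos = T.pos := by simpa using List.find?_some hT'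
    have h5 : T' ∈ Ts := List.mem_of_find?_eq_some hT'
    have h6 : T' = T := List.inj_on_of_nodup_map hnd h5 hT h4
    show (match Ts.find? (fun U => decide (U.pos = T.pos)) with
      | some T => (T.l, T.r)
      | none => (.nil, .nil)) = (T.l, T.r)
    rw [hT', h6]
  obtain ⟨A, q, hA, hAd⟩ := h τ (by
    intro m hm
    obtain ⟨T, hT, e, h3, h4, h5⟩ := h2 m hm
    have e2 := hτ T hT
    rw [e] at e2
    rw [e2]
    refine ⟨?_, h4, h5, ?_, ?_⟩
    · have h6 : T.size = T.l.size + T.r.size + 1 := rfl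
      show T.l.size + T.r.size ≤ m.k
      omega
    · intro F hF
      have h6 := (hok T hT).1
      have hF' : T.l = .hole F := hF
      rw [hF', e] at h6
      exact h6
    · intro F hF
      have h6 := (hok T hT).2
      have hF' : T.r = .hole F := hF
      rw [hF', e] at h6
      exact h6)
  obtain ⟨S, p, h3, -⟩ := lforest_of (adj := adj) (A := A) (q := q) Ts hnd (by
    intro T hT
    obtain ⟨m, hm, e⟩ := h1 T hT
    have h4 := (hA m hm).1
    rw [e, hτ T hT] at h4
    exact h4) (by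
    intro T hT U hU hne
    obtain ⟨m, hm, e⟩ := h1 T hT
    obtain ⟨m', hm', e'⟩ := h1 U hU
    have h4 := hAd m hm m' hm' (by rw [e, e']; exact hne)
    rwa [e, e'] at h4)
  exact ⟨S, p, h3⟩

end toEmb

namespace Pt

open Tab

theorem sum_size_le {V : Type*} {Ts : List (LRT V)} {v : List ℕ}
    (h : List.Forall₂ (fun T n => LRT.size T ≤ n) Ts v) : (Ts.map LRT.size).sum ≤ v.sum := by
  induction h with
  | nil => exact le_rfl
  | cons h5 _ ih =>
    rw [List.map_cons, List.sum_cons, List.sum_cons]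
    exact Nat.add_le_add h5 ih

/-- **From classes to states.** -/
theorem gdP_of_CF {D N s : ℕ} {v : List ℕ} (hv : v.sum ≤ N)
    (h : ∀ zs : List ℕ, zs.Nodup → (∀ z ∈ zs, z < 32) → zs.length = v.length → CF D zs N) :
    GdP 5 D s v := by
  classical
  intro Ts h1 h2 h3 h4 _ h6
  have hinj : Function.Injective (encV (m := 5)) := fun a b hab => by
    rw [← dec_enc a, hab, dec_enc]
  let zs : List ℕ := Ts.map fun T => encV T.pos
  let k : ℕ → ℕ := fun z => match Ts.find? (fun T => encV T.pos = z) with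
    | some T => T.size - 1
    | none => 0
  have hzs : zs = (Ts.map LRT.pos).map encV := by
    simp only [zs, List.map_map]
    rfl
  have hznd : zs.Nodup := by
    rw [hzs]
    exact h1.map hinj
  have hk : ∀ T ∈ Ts, k (encV T.pos) + 1 = T.size := by
    intro T hT
    have h7 : ∃ U, Ts.find? (fun U => decide (encV U.pos = encV T.pos)) = some U := by
      cases hf : Ts.find? (fun U => decide (encV U.pos = encV T.pos)) with
      | none =>
        rw [List.find?_eq_none] at hf
        exact absurd (hf T hT) (by simp)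
      | some U => exact ⟨U, rfl⟩
    obtain ⟨U, hU⟩ := h7
    have h8 : U.pos = T.pos := hinj (by simpa using List.find?_some hU)
    have h9 : U = T := List.inj_on_of_nodup_map h1 (List.mem_of_find?_eq_some hU) hT h8
    show (match Ts.find? (fun U => decide (encV U.pos = encV T.pos)) with
      | some T => T.size - 1
      | none => 0) + 1 = T.size
    rw [hU, h9]
    show T.size - 1 + 1 = T.size
    have : T.size = T.l.size + T.r.size + 1 := rfl
    omega
  have hsum : (zs.map fun z => k z + 1).sum ≤ N := by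
    refine le_trans ?_ hv
    have e : zs.map (fun z => k z + 1) = Ts.map LRT.size := by
      simp only [zs, List.map_map]
      exact List.map_congr_left fun T hT => hk T hT
    rw [e]
    exact sum_size_le h3
  have hlen : zs.length = v.length := by
    simp only [zs, List.length_map]
    exact h3.length_eq
  let R : Finset ℕ := (softs Ts \ poss Ts).image encV
  have hR : R.card ≤ D := Finset.card_image_le.trans h4
  have hz32 : ∀ z ∈ zs, z < 32 := by
    intro z hz
    obtain ⟨T, _, rfl⟩ := List.mem_map.1 hz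
    exact encV_lt T.pos
  have hR32 : ∀ x ∈ R, x < 32 := by
    intro x hx
    obtain ⟨y, _, rfl⟩ := Finset.mem_image.1 hx
    exact encV_lt y
  have hF := h zs hznd hz32 hlen k hsum R hR
  have hF2 := PF.mapOn (decV 5) encV (adj' := cadj 5) (fun a b => cadj_dec) {x | x < 32}
    (fun x hx => enc_dec (m := 5) hx) (X := msk FULL) (fun x hx => FULL_tb.1 hx)
    (ms := mkP k (R : Set ℕ) zs) (by
      intro m hm
      obtain ⟨g1, g2⟩ := mem_mkP.1 hm
      refine ⟨hz32 _ g1, ?_⟩
      rw [g2]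
      intro x hx
      exact hR32 x hx) hF
  have hmem : ∀ T ∈ Ts, (⟨T.pos, k (encV T.pos), decV 5 '' (R : Set ℕ)⟩ : PM (Fin 5 → Bool)) ∈
      (mkP k (R : Set ℕ) zs).map (PM.mapF (decV 5)) := by
    intro T hT
    refine List.mem_map.2 ⟨⟨encV T.pos, k (encV T.pos), R⟩, mem_mkP.2
      ⟨List.mem_map_of_mem hT, rfl⟩, ?_⟩
    simp only [PM.mapF, dec_enc]
  refine PF.toEmb hF2 h1 h2 ?_ ?_
  · intro T hT
    exact ⟨_, hmem T hT, rfl⟩
  · intro m hm
    obtain ⟨m', hm', rfl⟩ := List.mem_map.1 hm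
    obtain ⟨g1, g2⟩ := mem_mkP.1 hm'
    obtain ⟨T, hT, e⟩ := List.mem_map.1 g1
    refine ⟨T, hT, ?_, ?_, ?_, ?_⟩
    · show T.pos = decV 5 m'.p
      rw [← e, dec_enc]
    · show T.size ≤ m'.k + 1
      have e2 : m'.k = k m'.p := congrArg PM.k g2
      rw [e2, ← e]
      exact (hk T hT).ge
    · intro F hF x hx _
      by_cases hxp : x ∈ poss Ts
      · right
        obtain ⟨U, hU, rfl⟩ := mem_poss.1 hxp
        exact ⟨_, hmem U hU, rfl⟩
      · left
        have e2 : m'.R = (R : Set ℕ) := congrArg PM.R g2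
        show x ∈ decV 5 '' m'.R
        rw [e2]
        refine ⟨encV x, ?_, dec_enc x⟩
        have : encV x ∈ R := Finset.mem_image_of_mem _
          (Finset.mem_sdiff.2 ⟨mem_softs.2 ⟨T, hT, F, hF, hx⟩, hxp⟩)
        exact this
    · intro x _ _
      exact (h6 T hT).onp x

end Pt

end Pool.Agent.Work.MP_bf01b2_co.MR
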