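import Pool.Agent.Work.MP_bf01b2_co.MR.Pf
import Pool.Agent.Work.MP_bf01b2_co.MR.B5Sf

/-!
# Facts for labelled trees in bit masks

`NP X ms` for regions of `Q_5`; automorphisms; tolerance: `Tl D X T p n`: every tree of size at most
`n` with its root at `p` embeds in `X`, if at most `D` soft positions occur in the labels and those
inside of `X` lie in `T`.
-/

set_option autoImplicit false
set_option linter.unusedSectionVars false

namespace Pool.Agent.Work.MP_bf01b2_co.MR

section map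

variable {V : Type*} [DecidableEq V]

theorem LT.onp_mapL {W : Type*} {g : Finset V → Finset W} {x : V} {y : W}
    (hg : ∀ F, y ∈ g F → x ∈ F) : ∀ {t : LT V}, t.onp x → (t.mapL g).onp y
  | .nil, _ => trivial
  | .hole _, _ => trivial
  | .node l r, h => by
    have hc : ∀ t : LT V, t.clr x → (t.mapL g).clr y := by
      intro t ht
      rcases ht with ⟨F, rfl⟩ | ht
      · exact Or.inl ⟨g F, rfl⟩
      · right
        intro F hF
        rw [LT.mapL_labs] at hF
        obtain ⟨G, hG, rfl⟩ := List.mem_map.1 hF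
        exact fun h => ht G hG (hg G h)
    rcases h with ⟨h1, h2⟩ | ⟨h1, h2⟩
    · exact Or.inl ⟨hc l h1, LT.onp_mapL hg h2⟩
    · exact Or.inr ⟨hc r h1, LT.onp_mapL hg h2⟩

theorem LT.mapL_size {W : Type*} (g : Finset V → Finset W) (t : LT V) :
    (t.mapL g).size = t.size := by
  unfold LT.size
  rw [LT.mapL_shape]

theorem LT.mapL_eq_hole {W : Type*} {g : Finset V → Finset W} {t : LT V} {F : Finset W}
    (h : t.mapL g = .hole F) : ∃ G, t = .hole G ∧ g G = F := by
  cases t with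
  | nil => simp [LT.mapL] at h
  | hole G => exact ⟨G, rfl, by simpa [LT.mapL] using h⟩
  | node l r => simp [LT.mapL] at h

/-- image of a mark -/
def PM.map {W : Type*} (e : V ≃ W) (m : PM V) : PM W := ⟨e m.p, m.k, e '' m.R⟩

/-- **Automorphisms.** -/
theorem PF.map {W : Type*} [DecidableEq W] {adj : V → V → Prop} {adj' : W → W → Prop} (e : V ≃ W)
    (he : ∀ a b, adj a b → adj' (e a) (e b)) {X : Set V} {ms : List (PM V)}
    (h : PF adj X ms) : PF adj' (e '' X) (ms.map (PM.map e)) := by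
  intro τ hτ
  let g : Finset W → Finset V := fun F => F.map e.symm.toEmbedding
  have hg : ∀ F x, x ∈ g F ↔ e x ∈ F := by
    intro F x
    simp only [g, Finset.mem_map_equiv, Equiv.symm_symm]
  have hr : ∀ v, e v ∈ rts (ms.map (PM.map e)) ↔ v ∈ rts ms := by
    intro v
    constructor
    · rintro ⟨m', hm', e'⟩
      obtain ⟨m, hm, rfl⟩ := List.mem_map.1 hm'
      exact ⟨m, hm, e.injective e'⟩
    · rintro ⟨m, hm, rfl⟩
      exact ⟨_, List.mem_map_of_mem hm, rfl⟩
  have hX : ∀ v, e v ∈ e '' X ↔ v ∈ X := by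
    intro v
    constructor
    · rintro ⟨w, hw, e'⟩
      rwa [← e.injective e']
    · intro hv
      exact ⟨v, hv, rfl⟩
  obtain ⟨A, q, hA, hAd⟩ := h (fun v => ((τ (e v)).1.mapL g, (τ (e v)).2.mapL g)) (by
    intro m hm
    obtain ⟨h1, h2, h3, h4, h5⟩ := hτ (m.map e) (List.mem_map_of_mem hm)
    have key : ∀ F ∈ ((τ (e m.p)).1.labs ++ (τ (e m.p)).2.labs), ∀ x, e x ∈ F → x ∈ X →
        x ∈ m.R ∨ x ∈ rts ms := by
      intro F hF x hx hxX
      rcases h2 F hF (e x) hx ((hX x).2 hxX) with h6 | h6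
      · left
        obtain ⟨y, hy, e'⟩ := h6
        rwa [← e.injective e']
      · exact Or.inr ((hr x).1 h6)
    refine ⟨?_, ?_, ?_, ?_, ?_⟩
    · show (LT.mapL g _).size + (LT.mapL g _).size ≤ m.k
      rw [LT.mapL_size, LT.mapL_size]
      exact h1
    · intro F hF x hx hxX
      simp only [LT.mapL_labs, ← List.map_append] at hF
      obtain ⟨G, hG, rfl⟩ := List.mem_map.1 hF
      exact key G hG x ((hg G x).1 hx) hxX
    · intro x hxX hxr
      have h6 := h3 (e x) ((hX x).2 hxX) (fun h => hxr ((hr x).1 h))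
      exact LT.onp_mapL (t := .node (τ (e m.p)).1 (τ (e m.p)).2) (g := g) (x := e x) (y := x)
        (fun F hF => (hg F x).1 hF) h6
    · intro F hF
      obtain ⟨G, hG, rfl⟩ := LT.mapL_eq_hole hF
      intro h6
      exact h4 G hG ((hg G m.p).1 h6)
    · intro F hF
      obtain ⟨G, hG, rfl⟩ := LT.mapL_eq_hole hF
      intro h6
      exact h5 G hG ((hg G m.p).1 h6))
  refine ⟨fun w => (A (e.symm w)).map e.toEmbedding, fun w => (q (e.symm w)).map e, ?_, ?_⟩
  · intro m' hm'
    obtain ⟨m, hm, rfl⟩ := List.mem_map.mp hm'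
    obtain ⟨⟨h1, h1'⟩, h2⟩ := hA m hm
    show REmb adj' (τ (e m.p)) (e m.p) ((A (e.symm (e m.p))).map e.toEmbedding)
      ((q (e.symm (e m.p))).map e) ∧ ∀ v ∈ (A (e.symm (e m.p))).map e.toEmbedding, v ∈ e '' X
    rw [Equiv.symm_apply_apply]
    refine ⟨⟨?_, ?_⟩, ?_⟩
    · have h3 := root_map (adj' := adj') e.toEmbedding (fun a b hab => he a b hab) h1
      simp only [LT.mapL_shape] at h3
      exact h3
    · simp only [LT.mapL_labs, ← List.map_append] at h1'
      rw [List.forall₂_map_left_iff] at h1'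
      rw [List.forall₂_map_right_iff]
      exact h1'.imp fun F x hx hx' => hx ((hg F x).2 hx')
    · intro v hv
      obtain ⟨w, hw, rfl⟩ := Finset.mem_map.mp hv
      exact ⟨w, h2 w hw, rfl⟩
  · intro m1' hm1' m2' hm2' hne
    obtain ⟨m1, hm1, rfl⟩ := List.mem_map.mp hm1'
    obtain ⟨m2, hm2, rfl⟩ := List.mem_map.mp hm2'
    show Disjoint ((A (e.symm (e m1.p))).map e.toEmbedding) ((A (e.symm (e m2.p))).map e.toEmbedding)
    rw [Equiv.symm_apply_apply, Equiv.symm_apply_apply, Finset.disjoint_map]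
    exact hAd m1 hm1 m2 hm2 (fun h => hne (congrArg e h))

end map

/-! ### Tolerance -/

/-- Every tree with at most `n` vertices (root at `p`) embeds in `X`, if the labels contain inside
of `X` only positions of a set `R` with at most `D` elements, `R ∩ X ⊆ T`. -/
def Tl (D X T p n : ℕ) : Prop := ∀ (k : ℕ) (R : Finset ℕ), k + 1 ≤ n → R.card ≤ D →
  (∀ x ∈ R, X.testBit x = true → T.testBit x = true) →
    PF (ncadj 5) (msk X) [⟨p, k, (R : Set ℕ)⟩]

theorem Tl.mem {D X T p n : ℕ} (h : Tl D X T p n) (hn : 1 ≤ n) : X.testBit p = true := by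
  have := h 0 ∅ hn (by simp) (by simp)
  exact PF.mem this (m := ⟨p, 0, ((∅ : Finset ℕ) : Set ℕ)⟩) (by simp)

theorem Tl.map {D X T p n X' T' : ℕ} (e : ℕ ≃ ℕ) (he : ∀ a b, ncadj 5 a b → ncadj 5 (e a) (e b))
    (hX : ∀ v, X'.testBit (e v) = X.testBit v) (hT : ∀ v, T'.testBit (e v) = T.testBit v)
    (h : Tl D X T p n) : Tl D X' T' (e p) n := by
  intro k R hk hR hRT
  have h1 := h k (R.map e.symm.toEmbedding) hk (by rw [Finset.card_map]; exact hR) (by
    intro x hx hxX
    rw [Finset.mem_map_equiv, Equiv.symm_symm] at hx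
    rw [← hT]
    exact hRT _ hx (by rw [hX]; exact hxX))
  have h2 := PF.map (adj' := ncadj 5) e he h1
  rw [image_msk e hX] at h2
  have h3 : List.map (PM.map e) [(⟨p, k, ((R.map e.symm.toEmbedding : Finset ℕ) : Set ℕ)⟩ : PM ℕ)] =
      [⟨e p, k, (R : Set ℕ)⟩] := by
    simp only [List.map_cons, List.map_nil, PM.map]
    congr 2
    ext x
    simp only [Finset.coe_map, Equiv.coe_toEmbedding, Set.mem_image, Finset.mem_coe]
    constructor
    · rintro ⟨y, ⟨z, hz, rfl⟩, rfl⟩
      simpa using hz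
    · intro hx
      exact ⟨e.symm x, ⟨x, hx, rfl⟩, by simp⟩
  rwa [h3] at h2

theorem Tl.flip {D X T p n i : ℕ} (hi : i < 5) (hX : X < 2 ^ 32) (hT : T < 2 ^ 32)
    (h : Tl D X T p n) : Tl D (flipM i X) (flipM i T) (flipV i p) n :=
  h.map (flipE i) (fun _ _ => ncadj_flip) (testBit_flipM hi hX) (testBit_flipM hi hT)

theorem Tl.swap {D X T p n i j : ℕ} (hij : i < j) (hj : j < 5) (hX : X < 2 ^ 32) (hT : T < 2 ^ 32)
    (h : Tl D X T p n) : Tl D (swapM i j X) (swapM i j T) (swapV i j p) n :=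
  h.map (swapE i j) (fun _ _ => ncadj_swap (lt_trans hij hj) hj) (testBit_swapM hij hj hX)
    (testBit_swapM hij hj hT)

/-- a hard fact -/
theorem Tl.of_NF {D X T p n s : ℕ} (h : NF 5 X 0 [⟨p, n - 1, s⟩])
    (hT : ∀ x, T.testBit x = true → X.testBit x = true → x = p) : Tl D X T p n := by
  intro k R hk _ hRT
  unfold NF at h
  rw [msk_zero] at h
  have h1 := PF.of_SF h (R : Set ℕ) (fun x hx hxX => hT x (hRT x hx hxX) hxX)
  exact PF.mono h1 (by omega) (fun x _ hx => Or.inl hx) (Set.Subset.refl _)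

end Pool.Agent.Work.MP_bf01b2_co.MR
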