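import Pool.Agent.Work.MP_bf01b2_co.MR.PfX

/-!
# Patterns: trees whose top part is known

A pattern describes the top part of a tree whose root has a prescribed position; the other vertices
get their positions only when the pattern is placed.
-/

set_option autoImplicit false

namespace Pool.Agent.Work.MP_bf01b2_co.MR

/-- Patterns. `U k R`: at most `k` vertices other than the root, labels in `R`, one descending path
for every position; `N1 R P`: at most one child, of pattern `P`, the other child may be a hole with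
label in `R`; `N2 P Q`: two children of patterns `P` and `Q`. -/
inductive Pat : Type
  | U (k R : ℕ)
  | N1 (R : ℕ) (P : Pat)
  | N2 (P Q : Pat)

namespace Pat

/-- `s` has no vertices; the label of a hole is allowed -/
def nov (X Rt : Set ℕ) (R : ℕ) (s : LT ℕ) : Prop :=
  s.size = 0 ∧ ∀ F ∈ s.labs, ∀ x ∈ F, x ∈ X → x ∈ msk R ∨ x ∈ Rt

/-- the pair of subtrees `t` matches the pattern -/
def Mt (X Rt : Set ℕ) : Pat → LT ℕ × LT ℕ → Prop
  | .U k R, t => t.1.size + t.2.size ≤ k ∧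
      (∀ F ∈ t.1.labs ++ t.2.labs, ∀ x ∈ F, x ∈ X → x ∈ msk R ∨ x ∈ Rt) ∧
      (∀ x ∈ X, x ∉ Rt → (LT.node t.1 t.2).onp x)
  | .N1 R P, t => ∃ s h, (t = (s, h) ∨ t = (h, s)) ∧ nov X Rt R h ∧
      (nov X Rt R s ∨ (1 ≤ s.size ∧ P.Mt X Rt s.ch))
  | .N2 P Q, t => ∃ c d, (t = (c, d) ∨ t = (d, c)) ∧ 1 ≤ c.size ∧ 1 ≤ d.size ∧
      P.Mt X Rt c.ch ∧ Q.Mt X Rt d.ch

/-- the root may be placed at `x` -/
def hc (x : ℕ) : Pat → Prop
  | .U _ R => R.testBit x = false
  | .N1 R _ => R.testBit x = false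
  | .N2 _ _ => True

theorem nov_top {X Rt : Set ℕ} {R x : ℕ} {s : LT ℕ} (h : nov X Rt R s)
    (hc : R.testBit x = false) (hx : x ∈ X) (hxr : x ∉ Rt) : ∀ F, s = .hole F → x ∉ F := by
  rintro F rfl hxF
  rcases h.2 F (by simp [LT.labs]) x hxF hx with h1 | h1
  · have h2 : R.testBit x = true := h1
    rw [hc] at h2
    exact absurd h2 (by simp)
  · exact hxr h1

theorem Mt.top {X Rt : Set ℕ} {x : ℕ} : ∀ {P : Pat} {t : LT ℕ × LT ℕ}, P.Mt X Rt t → P.hc x →
    x ∈ X → x ∉ Rt → (∀ F, t.1 = .hole F → x ∉ F) ∧ (∀ F, t.2 = .hole F → x ∉ F)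
  | .U k R, t, h, hc, hx, hxr => by
    obtain ⟨-, h2, -⟩ := h
    have key : ∀ F ∈ t.1.labs ++ t.2.labs, x ∉ F := by
      intro F hF hxF
      rcases h2 F hF x hxF hx with h3 | h3
      · have h4 : R.testBit x = true := h3
        have h5 : R.testBit x = false := hc
        rw [h5] at h4
        exact absurd h4 (by simp)
      · exact hxr h3
    exact ⟨fun F hF => key F (by rw [hF]; simp [LT.labs]),
      fun F hF => key F (by rw [hF]; simp [LT.labs])⟩
  | .N1 R P, t, h, hc, hx, hxr => by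
    obtain ⟨s, h, ht, h1, h2⟩ := h
    have a1 := nov_top h1 hc hx hxr
    have a2 : ∀ F, s = .hole F → x ∉ F := by
      rcases h2 with h2 | ⟨h2, -⟩
      · exact nov_top h2 hc hx hxr
      · rintro F rfl
        simp at h2
    rcases ht with rfl | rfl
    · exact ⟨a2, a1⟩
    · exact ⟨a1, a2⟩
  | .N2 P Q, t, h, _, hx, hxr => by
    obtain ⟨c, d, ht, h1, h2, -, -⟩ := h
    have key : ∀ e : LT ℕ, 1 ≤ e.size → ∀ F, e = .hole F → x ∉ F := by
      rintro e he F rfl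
      simp at he
    rcases ht with rfl | rfl
    · exact ⟨key _ h1, key _ h2⟩
    · exact ⟨key _ h2, key _ h1⟩

/-- a tree without holes which matches -/
def dft : Pat → LT ℕ × LT ℕ
  | .U _ _ => (.nil, .nil)
  | .N1 _ _ => (.nil, .nil)
  | .N2 P Q => (.node P.dft.1 P.dft.2, .node Q.dft.1 Q.dft.2)

theorem dft_nh : ∀ (P : Pat) (F : Finset ℕ), P.dft.1 ≠ .hole F ∧ P.dft.2 ≠ .hole F
  | .U _ _, F => ⟨by simp [dft], by simp [dft]⟩
  | .N1 _ _, F => ⟨by simp [dft], by simp [dft]⟩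
  | .N2 _ _, F => ⟨by simp [dft], by simp [dft]⟩

theorem dft_ok (X Rt : Set ℕ) : ∀ P : Pat, P.Mt X Rt P.dft
  | .U _ _ => ⟨by simp [dft], by simp [dft, LT.labs],
      fun x _ _ => LT.onp_of_not_mem (by simp [dft, LT.labs])⟩
  | .N1 _ _ => ⟨.nil, .nil, Or.inl rfl, ⟨by simp, by simp [LT.labs]⟩,
      Or.inl ⟨by simp, by simp [LT.labs]⟩⟩
  | .N2 P Q => ⟨_, _, Or.inl rfl, by simp, by simp, dft_ok X Rt P, dft_ok X Rt Q⟩

theorem nov_mono {X X' Rt Rt' : Set ℕ} {R : ℕ} {s : LT ℕ} (hX : X' ⊆ X)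
    (hR : ∀ x ∈ X', x ∈ Rt → x ∈ Rt') (h : nov X Rt R s) : nov X' Rt' R s := by
  refine ⟨h.1, fun F hF x hx hxX => ?_⟩
  rcases h.2 F hF x hx (hX hxX) with h1 | h1
  · exact Or.inl h1
  · exact Or.inr (hR x hxX h1)

theorem Mt.mono {X X' Rt Rt' : Set ℕ} (hX : X' ⊆ X) (hR : ∀ x ∈ X', x ∈ Rt → x ∈ Rt') :
    ∀ {P : Pat} {t : LT ℕ × LT ℕ}, P.Mt X Rt t → P.Mt X' Rt' t
  | .U k R, t, ⟨h1, h2, h3⟩ => by
    refine ⟨h1, fun F hF x hx hxX => ?_, fun x hx hxr => h3 x (hX hx) fun h => hxr (hR x hx h)⟩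
    rcases h2 F hF x hx (hX hxX) with h4 | h4
    · exact Or.inl h4
    · exact Or.inr (hR x hxX h4)
  | .N1 R P, t, ⟨s, h, ht, h1, h2⟩ => by
    refine ⟨s, h, ht, nov_mono hX hR h1, ?_⟩
    rcases h2 with h2 | ⟨h2, h3⟩
    · exact Or.inl (nov_mono hX hR h2)
    · exact Or.inr ⟨h2, Mt.mono hX hR h3⟩
  | .N2 P Q, t, ⟨c, d, ht, h1, h2, h3, h4⟩ =>
    ⟨c, d, ht, h1, h2, Mt.mono hX hR h3, Mt.mono hX hR h4⟩

/-! ### Revealing one vertex -/

/-- replacement of a subpattern -/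
def sub (Q : Pat) : List Bool → Pat → Pat
  | [], _ => Q
  | _ :: _, .U k R => .U k R
  | _ :: π, .N1 R P => .N1 R (sub Q π P)
  | false :: π, .N2 P P' => .N2 (sub Q π P) P'
  | true :: π, .N2 P P' => .N2 P (sub Q π P')

/-- the subpattern `U k R` at a place -/
def get : List Bool → Pat → Option (ℕ × ℕ)
  | [], .U k R => some (k, R)
  | [], .N1 _ _ => none
  | [], .N2 _ _ => none
  | _ :: _, .U _ _ => none
  | _ :: π, .N1 _ P => get π P
  | false :: π, .N2 P _ => get π P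
  | true :: π, .N2 _ P' => get π P'

theorem exists_sub (p : ℕ → Prop) (R : ℕ) :
    ∃ Q : ℕ, ∀ x, Q.testBit x = true ↔ (R.testBit x = true ∧ p x) := by
  classical
  induction R using Nat.strong_induction_on generalizing p with
  | _ R ih =>
    by_cases hR : R = 0
    · exact ⟨0, by simp [hR]⟩
    · obtain ⟨Q, hQ⟩ := ih (R / 2) (by omega) (fun x => p (x + 1))
      refine ⟨2 * Q + (if R.testBit 0 = true ∧ p 0 then 1 else 0), ?_⟩
      intro x
      cases x with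
      | zero =>
        rw [Nat.testBit_zero]
        split_ifs with h
        · simp only [h, and_self, iff_true]
          simp
        · simp only [h, iff_false]
          simp
      | succ x =>
        rw [Nat.testBit_succ]
        have e : (2 * Q + (if R.testBit 0 = true ∧ p 0 then 1 else 0)) / 2 = Q := by
          split_ifs <;> omega
        rw [e, hQ x, Nat.testBit_succ]

theorem split_masks (p : ℕ → Prop) (R : ℕ) : ∃ Ra Rb : ℕ, Ra ||| Rb = R ∧ Ra &&& Rb = 0 ∧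
    (∀ x, Ra.testBit x = true ↔ (R.testBit x = true ∧ ¬ p x)) ∧
    (∀ x, Rb.testBit x = true ↔ (R.testBit x = true ∧ p x)) := by
  obtain ⟨Ra, ha⟩ := exists_sub (fun x => ¬ p x) R
  obtain ⟨Rb, hb⟩ := exists_sub p R
  refine ⟨Ra, Rb, ?_, ?_, ha, hb⟩
  · apply Nat.eq_of_testBit_eq
    intro x
    rw [Nat.testBit_or, Bool.eq_iff_iff, Bool.or_eq_true, ha, hb]
    tauto
  · apply Nat.eq_of_testBit_eq
    intro x
    rw [Nat.testBit_and, Bool.eq_iff_iff, Bool.and_eq_true, ha, hb, Nat.zero_testBit]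
    simp only [Bool.false_eq_true, iff_false]
    tauto

/-- the alternatives -/
def Alt (k R : ℕ) (Q : Pat) : Prop :=
  Q = .N1 R (.U (k - 1) R) ∨ ∃ b, 1 ≤ b ∧ 2 * b ≤ k ∧ ∃ Ra Rb : ℕ, Ra ||| Rb = R ∧
    Ra &&& Rb = 0 ∧ Q = .N2 (.U (k - b - 1) Ra) (.U (b - 1) Rb)

theorem Mt.rev {X Rt : Set ℕ} {k R : ℕ} (hk : 1 ≤ k) : ∀ {π : List Bool} {P : Pat}
    {t : LT ℕ × LT ℕ}, P.get π = some (k, R) → P.Mt X Rt t →
      ∃ Q, Alt k R Q ∧ (sub Q π P).Mt X Rt t
  | [], .U k' R', t, hg, h => by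
    have e1 : (k', R') = (k, R) := Option.some.inj hg
    obtain ⟨rfl, rfl⟩ := Prod.mk.inj e1
    obtain ⟨h1, h2, h3⟩ := h
    -- one vertex
    have one : ∀ s h : LT ℕ, (t = (s, h) ∨ t = (h, s)) → h.size = 0 → s.size ≤ k' →
        (∀ F ∈ s.labs ++ h.labs, ∀ x ∈ F, x ∈ X → x ∈ msk R' ∨ x ∈ Rt) →
        (∀ x ∈ X, x ∉ Rt → s.onp x) → ∃ Q, Alt k' R' Q ∧ (sub Q [] (Pat.U k' R')).Mt X Rt t := by
      intro s h ht hh hs hl ho
      refine ⟨_, Or.inl rfl, s, h, ht, ⟨hh, fun F hF => hl F (List.mem_append_right _ hF)⟩, ?_⟩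
      by_cases hs0 : s.size = 0
      · exact Or.inl ⟨hs0, fun F hF => hl F (List.mem_append_left _ hF)⟩
      · refine Or.inr ⟨Nat.one_le_iff_ne_zero.2 hs0, s.ch_size.trans (by omega), ?_, ?_⟩
        · intro F hF
          exact hl F (List.mem_append_left _ (s.ch_labs F hF))
        · intro x hx hxr
          exact LT.ch_onp (ho x hx hxr)
    have two : ∀ c d : LT ℕ, (t = (c, d) ∨ t = (d, c)) → 1 ≤ d.size → d.size ≤ c.size →
        c.size + d.size ≤ k' →
        (∀ F ∈ c.labs ++ d.labs, ∀ x ∈ F, x ∈ X → x ∈ msk R' ∨ x ∈ Rt) →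
        (∀ x ∈ X, x ∉ Rt → (LT.node c d).onp x) →
          ∃ Q, Alt k' R' Q ∧ (sub Q [] (Pat.U k' R')).Mt X Rt t := by
      intro c d ht hd hcd hs hl ho
      obtain ⟨Ra, Rb, e1, e2, e3, e4⟩ := split_masks (fun x => ∃ F ∈ d.labs, x ∈ F) R'
      refine ⟨_, Or.inr ⟨d.size, hd, by omega, Ra, Rb, e1, e2, rfl⟩, c, d, ht, by omega, hd, ?_, ?_⟩
      · refine ⟨c.ch_size.trans (by omega), ?_, fun x hx hxr =>
          LT.ch_onp (LT.onp_left (ho x hx hxr))⟩
        intro F hF x hx hxX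
        have hF' := c.ch_labs F hF
        rcases hl F (List.mem_append_left _ hF') x hx hxX with h4 | h4
        · by_cases hxr : x ∈ Rt
          · exact Or.inr hxr
          · left
            show Ra.testBit x = true
            rw [e3]
            refine ⟨h4, ?_⟩
            rintro ⟨G, hG, hxG⟩
            rcases ho x hxX hxr with ⟨h5, -⟩ | ⟨h5, -⟩
            · rcases h5 with ⟨F', h5⟩ | h5
              · rw [h5] at hcd
                simp at hcd
                omega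
              · exact h5 F hF' hx
            · rcases h5 with ⟨F', h5⟩ | h5
              · rw [h5] at hd
                simp at hd
              · exact h5 G hG hxG
        · exact Or.inr h4
      · refine ⟨d.ch_size.trans (by omega), ?_, fun x hx hxr =>
          LT.ch_onp (LT.onp_right (ho x hx hxr))⟩
        intro F hF x hx hxX
        have hF' := d.ch_labs F hF
        rcases hl F (List.mem_append_right _ hF') x hx hxX with h4 | h4
        · left
          show Rb.testBit x = true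
          rw [e4]
          exact ⟨h4, F, hF', hx⟩
        · exact Or.inr h4
    by_cases hd0 : t.2.size = 0
    · exact one t.1 t.2 (Or.inl rfl) hd0 (by omega) h2 (fun x hx hxr => LT.onp_left (h3 x hx hxr))
    · by_cases hc0 : t.1.size = 0
      · exact one t.2 t.1 (Or.inr rfl) hc0 (by omega) (fun F hF => h2 F (by
          simp only [List.mem_append] at hF ⊢; exact hF.symm))
          (fun x hx hxr => LT.onp_right (h3 x hx hxr))
      · rcases le_total t.2.size t.1.size with hle | hle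
        · exact two t.1 t.2 (Or.inl rfl) (by omega) hle (by omega) h2 h3
        · exact two t.2 t.1 (Or.inr rfl) (by omega) hle (by omega) (fun F hF => h2 F (by
            simp only [List.mem_append] at hF ⊢; exact hF.symm))
            (fun x hx hxr => LT.onp_symm (h3 x hx hxr))
  | [], .N1 _ _, _, hg, _ => by cases hg
  | [], .N2 _ _, _, hg, _ => by cases hg
  | _ :: _, .U _ _, _, hg, _ => by cases hg
  | _ :: π, .N1 R' P, t, hg, h => by
    have hg' : P.get π = some (k, R) := by simpa [get] using hg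
    obtain ⟨s, h, ht, h1, h2⟩ := h
    rcases h2 with h2 | ⟨h2, h3⟩
    · refine ⟨_, Or.inl rfl, ?_⟩
      show (Pat.N1 R' _).Mt X Rt t
      exact ⟨s, h, ht, h1, Or.inl h2⟩
    · obtain ⟨Q, hQ, h4⟩ := Mt.rev hk hg' h3
      refine ⟨Q, hQ, ?_⟩
      show (Pat.N1 R' _).Mt X Rt t
      exact ⟨s, h, ht, h1, Or.inr ⟨h2, h4⟩⟩
  | false :: π, .N2 P P', t, hg, h => by
    have hg' : P.get π = some (k, R) := hg
    obtain ⟨c, d, ht, h1, h2, h3, h4⟩ := h
    obtain ⟨Q, hQ, h5⟩ := Mt.rev hk hg' h3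
    exact ⟨Q, hQ, c, d, ht, h1, h2, h5, h4⟩
  | true :: π, .N2 P P', t, hg, h => by
    have hg' : P'.get π = some (k, R) := hg
    obtain ⟨c, d, ht, h1, h2, h3, h4⟩ := h
    obtain ⟨Q, hQ, h5⟩ := Mt.rev hk hg' h4
    exact ⟨Q, hQ, c, d, ht, h1, h2, h3, h5⟩

end Pat

/-! ### Facts for patterns -/

/-- the trees `τ z` for `z ∈ zs` embed -/
def ES (adj : ℕ → ℕ → Prop) (X : Set ℕ) (zs : List ℕ) (τ : ℕ → LT ℕ × LT ℕ) : Prop :=
  ∃ (A : ℕ → Finset ℕ) (q : ℕ → List ℕ),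
    (∀ z ∈ zs, REmb adj (τ z) z (A z) (q z) ∧ ∀ v ∈ A z, v ∈ X) ∧
    ∀ z ∈ zs, ∀ z' ∈ zs, z ≠ z' → Disjoint (A z) (A z')

/-- admissible trees -/
def PAdm (X Rt : Set ℕ) (m : ℕ × Pat) (t : LT ℕ × LT ℕ) : Prop :=
  m.2.Mt X Rt t ∧ (∀ F, t.1 = .hole F → m.1 ∉ F) ∧ (∀ F, t.2 = .hole F → m.1 ∉ F)

/-- facts for patterns -/
def PP (adj : ℕ → ℕ → Prop) (X : Set ℕ) (ms : List (ℕ × Pat)) : Prop :=
  ∀ τ : ℕ → LT ℕ × LT ℕ,
    (∀ m ∈ ms, PAdm X {v | v ∈ ms.map Prod.fst} m (τ m.1)) → ES adj X (ms.map Prod.fst) τ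

variable {adj : ℕ → ℕ → Prop}

theorem ES.congr {X : Set ℕ} {zs zs' : List ℕ} {τ : ℕ → LT ℕ × LT ℕ}
    (h : ∀ z, z ∈ zs ↔ z ∈ zs') (hE : ES adj X zs τ) : ES adj X zs' τ := by
  obtain ⟨A, q, h1, h2⟩ := hE
  exact ⟨A, q, fun z hz => h1 z ((h z).2 hz), fun z hz z' hz' => h2 z ((h z).2 hz) z' ((h z').2 hz')⟩

theorem PP.congr {X : Set ℕ} {ms ms' : List (ℕ × Pat)} (h : ∀ m, m ∈ ms ↔ m ∈ ms')
    (hP : PP adj X ms) : PP adj X ms' := by
  intro τ hτ
  have hz : ∀ z, z ∈ ms.map Prod.fst ↔ z ∈ ms'.map Prod.fst := by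
    intro z
    simp only [List.mem_map]
    constructor
    · rintro ⟨m, hm, e⟩
      exact ⟨m, (h m).1 hm, e⟩
    · rintro ⟨m, hm, e⟩
      exact ⟨m, (h m).2 hm, e⟩
  have e : ({v | v ∈ ms.map Prod.fst} : Set ℕ) = {v | v ∈ ms'.map Prod.fst} := by
    ext v
    exact hz v
  refine ES.congr hz (hP τ fun m hm => ?_)
  rw [e]
  exact hτ m ((h m).1 hm)

/-- unknown trees -/
theorem PP.of_PF {X : Set ℕ} {L : List (ℕ × ℕ × ℕ)}
    (h : PF adj X (L.map fun e => ⟨e.1, e.2.1, msk e.2.2⟩)) :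
    PP adj X (L.map fun e => (e.1, Pat.U e.2.1 e.2.2)) := by
  intro τ hτ
  have hr : ∀ v, v ∈ rts (L.map fun e => (⟨e.1, e.2.1, msk e.2.2⟩ : PM ℕ)) ↔
      v ∈ (L.map fun e => (e.1, Pat.U e.2.1 e.2.2)).map Prod.fst := by
    intro v
    unfold rts
    simp only [Set.mem_ofPred_eq, List.mem_map, exists_exists_and_eq_and]
  obtain ⟨A, q, h1, h2⟩ := h τ (by
    intro m hm
    obtain ⟨e, he, rfl⟩ := List.mem_map.1 hm
    obtain ⟨⟨a1, a2, a3⟩, a4, a5⟩ := hτ (e.1, Pat.U e.2.1 e.2.2) (List.mem_map.2 ⟨e, he, rfl⟩)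
    refine ⟨a1, fun F hF x hx hxX => ?_, fun x hx hxr => a3 x hx fun h => hxr ((hr x).2 h), a4, a5⟩
    rcases a2 F hF x hx hxX with h3 | h3
    · exact Or.inl h3
    · exact Or.inr ((hr x).2 h3))
  refine ⟨A, q, ?_, ?_⟩
  · intro z hz
    obtain ⟨m, hm, rfl⟩ := (hr z).2 hz
    exact h1 m hm
  · intro z hz z' hz' hne
    obtain ⟨m, hm, rfl⟩ := (hr z).2 hz
    obtain ⟨m', hm', rfl⟩ := (hr z').2 hz'
    exact h2 m hm m' hm' hne

theorem PF.of_PP {X : Set ℕ} {L : List (ℕ × ℕ × ℕ)}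
    (h : PP adj X (L.map fun e => (e.1, Pat.U e.2.1 e.2.2))) :
    PF adj X (L.map fun e => ⟨e.1, e.2.1, msk e.2.2⟩) := by
  intro τ hτ
  have hr : ∀ v, v ∈ rts (L.map fun e => (⟨e.1, e.2.1, msk e.2.2⟩ : PM ℕ)) ↔
      v ∈ (L.map fun e => (e.1, Pat.U e.2.1 e.2.2)).map Prod.fst := by
    intro v
    unfold rts
    simp only [Set.mem_ofPred_eq, List.mem_map, exists_exists_and_eq_and]
  obtain ⟨A, q, h1, h2⟩ := h τ (by
    intro m hm
    obtain ⟨e, he, rfl⟩ := List.mem_map.1 hm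
    obtain ⟨a1, a2, a3, a4, a5⟩ := hτ ⟨e.1, e.2.1, msk e.2.2⟩ (List.mem_map.2 ⟨e, he, rfl⟩)
    refine ⟨⟨a1, fun F hF x hx hxX => ?_, fun x hx hxr => a3 x hx fun h => hxr ((hr x).1 h)⟩, a4, a5⟩
    rcases a2 F hF x hx hxX with h3 | h3
    · exact Or.inl h3
    · exact Or.inr ((hr x).1 h3))
  refine ⟨A, q, ?_, ?_⟩
  · intro m hm
    exact h1 m.p ((hr m.p).1 (mem_rts hm))
  · intro m hm m' hm' hne
    exact h2 m.p ((hr m.p).1 (mem_rts hm)) m'.p ((hr m'.p).1 (mem_rts hm')) hne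

/-- one more placed vertex -/
theorem ES.add {X : Set ℕ} {z : ℕ} {zs : List ℕ} {τ : ℕ → LT ℕ × LT ℕ} (hzz : z ∉ zs)
    {A : ℕ → Finset ℕ} {q : ℕ → List ℕ} {S : Finset ℕ} {qs : List ℕ}
    (g1 : ∀ v ∈ zs, REmb adj (τ v) v (A v) (q v) ∧ ∀ w ∈ A v, w ∈ X)
    (g2 : ∀ v ∈ zs, ∀ v' ∈ zs, v ≠ v' → Disjoint (A v) (A v'))
    (g3 : REmb adj (τ z) z S qs) (g4 : ∀ w ∈ S, w ∈ X) (g5 : ∀ v ∈ zs, Disjoint S (A v)) :
    ES adj X (z :: zs) τ := by
  classical
  refine ⟨Function.update A z S, Function.update q z qs, ?_, ?_⟩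
  · intro v hv
    rcases List.mem_cons.1 hv with rfl | hv
    · simp only [Function.update_self]
      exact ⟨g3, g4⟩
    · have : v ≠ z := fun e => hzz (e ▸ hv)
      rw [Function.update_of_ne this, Function.update_of_ne this]
      exact g1 v hv
  · intro v hv v' hv' hne
    rcases List.mem_cons.1 hv with rfl | w1 <;> rcases List.mem_cons.1 hv' with rfl | w2
    · exact absurd rfl hne
    · have : v' ≠ v := fun e => hzz (e ▸ w2)
      simp only [Function.update_self]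
      rw [Function.update_of_ne this]
      exact g5 v' w2
    · simp only [Function.update_self]
      rw [Function.update_of_ne hne]
      exact (g5 v w1).symm
    · have h1 : v ≠ z := fun e => hzz (e ▸ w1)
      have h2 : v' ≠ z := fun e => hzz (e ▸ w2)
      rw [Function.update_of_ne h1, Function.update_of_ne h2]
      exact g2 v w1 v' w2 hne

theorem ES.one {X : Set ℕ} {z x : ℕ} {zs : List ℕ} {τ σ : ℕ → LT ℕ × LT ℕ} {c d : LT ℕ}
    (hz : z ∈ X) (hzz : z ∉ zs) (hxz : x ∉ zs) (hadj : adj z x)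
    (h : ES adj (X \ {z}) (x :: zs) σ) (hσ : ∀ v ∈ zs, σ v = τ v)
    (hc0 : c.size = 0 ∨ σ x = c.ch) (hd0 : d.size = 0) (hhc : ∀ F, c = .hole F → z ∉ F)
    (hhd : ∀ F, d = .hole F → z ∉ F) (hτ : τ z = (c, d) ∨ τ z = (d, c)) :
    ES adj X (z :: zs) τ := by
  obtain ⟨A, q, hA, hAd⟩ := h
  obtain ⟨S', hS', q1, hq1, hq1'⟩ : ∃ S' ⊆ A x, ∃ q', Slot adj c.shape z S' q' ∧
      List.Forall₂ (fun F x => x ∉ F) c.labs q' := by
    rcases hc0 with hc0 | hc0
    · obtain ⟨q', h2, h3⟩ := lslot_zero (adj := adj) hc0 z hhc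
      exact ⟨∅, Finset.empty_subset _, q', h2, h3⟩
    · refine lslot_child hadj hhc (qs := q x) ?_
      have := (hA x List.mem_cons_self).1
      rwa [hc0] at this
  obtain ⟨q2, hq2, hq2'⟩ := lslot_zero (adj := adj) hd0 z hhd
  have hAx := hA x List.mem_cons_self
  have hzS : z ∉ S' := fun h => (hAx.2 z (hS' h)).2 rfl
  have hE : REmb adj (c, d) z (insert z (S' ∪ ∅)) (q1 ++ q2) :=
    ⟨⟨S', ∅, q1, q2, hq1, hq2, hzS, by simp, by simp, rfl, rfl⟩, forall₂_append' hq1' hq2'⟩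
  obtain ⟨qs, hE'⟩ : ∃ qs, REmb adj (τ z) z (insert z (S' ∪ ∅)) qs := by
    rcases hτ with e | e
    · exact ⟨_, by rw [e]; exact hE⟩
    · rw [e]; exact hE.swap
  refine ES.add hzz (A := A) (q := q) ?_ ?_ hE' ?_ ?_
  · intro v hv
    have h' := hA v (List.mem_cons_of_mem _ hv)
    rw [hσ v hv] at h'
    exact ⟨h'.1, fun w hw => (h'.2 w hw).1⟩
  · intro v hv v' hv' hne
    exact hAd v (List.mem_cons_of_mem _ hv) v' (List.mem_cons_of_mem _ hv') hne
  · intro w hw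
    rw [Finset.union_empty, Finset.mem_insert] at hw
    rcases hw with rfl | hw
    · exact hz
    · exact (hAx.2 w (hS' hw)).1
  · intro v hv
    have h' := hA v (List.mem_cons_of_mem _ hv)
    have h'' := hAd x List.mem_cons_self v (List.mem_cons_of_mem _ hv) (fun e => hxz (e ▸ hv))
    rw [Finset.union_empty, Finset.disjoint_insert_left]
    exact ⟨fun h => (h'.2 z h).2 rfl, Finset.disjoint_of_subset_left hS' h''⟩

theorem ES.two {X : Set ℕ} {z x y : ℕ} {zs : List ℕ} {τ σ : ℕ → LT ℕ × LT ℕ} {c d : LT ℕ}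
    (hz : z ∈ X) (hzz : z ∉ zs) (hxy : x ≠ y) (hxz : x ∉ zs) (hyz : y ∉ zs) (hadj : adj z x)
    (hadj' : adj z y)
    (h : ES adj (X \ {z}) (x :: y :: zs) σ) (hσ : ∀ v ∈ zs, σ v = τ v)
    (hc : σ x = c.ch) (hd : σ y = d.ch) (hhc : ∀ F, c = .hole F → z ∉ F)
    (hhd : ∀ F, d = .hole F → z ∉ F) (hτ : τ z = (c, d) ∨ τ z = (d, c)) :
    ES adj X (z :: zs) τ := by
  obtain ⟨A, q, hA, hAd⟩ := h
  have hAx := hA x List.mem_cons_self
  have hAy := hA y (List.mem_cons_of_mem _ List.mem_cons_self)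
  rw [hc] at hAx
  rw [hd] at hAy
  obtain ⟨S1, hS1, q1, hq1, hq1'⟩ := lslot_child hadj hhc hAx.1
  obtain ⟨S2, hS2, q2, hq2, hq2'⟩ := lslot_child hadj' hhd hAy.1
  have hzS1 : z ∉ S1 := fun h => (hAx.2 z (hS1 h)).2 rfl
  have hzS2 : z ∉ S2 := fun h => (hAy.2 z (hS2 h)).2 rfl
  have hd12 := hAd x List.mem_cons_self y (List.mem_cons_of_mem _ List.mem_cons_self) hxy
  have hE : REmb adj (c, d) z (insert z (S1 ∪ S2)) (q1 ++ q2) :=
    ⟨⟨S1, S2, q1, q2, hq1, hq2, hzS1, hzS2,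
      Finset.disjoint_of_subset_left hS1 (Finset.disjoint_of_subset_right hS2 hd12), rfl, rfl⟩,
      forall₂_append' hq1' hq2'⟩
  obtain ⟨qs, hE'⟩ : ∃ qs, REmb adj (τ z) z (insert z (S1 ∪ S2)) qs := by
    rcases hτ with e | e
    · exact ⟨_, by rw [e]; exact hE⟩
    · rw [e]; exact hE.swap
  have hmm : ∀ v ∈ zs, v ∈ x :: y :: zs := fun v hv =>
    List.mem_cons_of_mem _ (List.mem_cons_of_mem _ hv)
  refine ES.add hzz (A := A) (q := q) ?_ ?_ hE' ?_ ?_
  · intro v hv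
    have h' := hA v (hmm v hv)
    rw [hσ v hv] at h'
    exact ⟨h'.1, fun w hw => (h'.2 w hw).1⟩
  · intro v hv v' hv' hne
    exact hAd v (hmm v hv) v' (hmm v' hv') hne
  · intro w hw
    rw [Finset.mem_insert, Finset.mem_union] at hw
    rcases hw with rfl | hw | hw
    · exact hz
    · exact (hAx.2 w (hS1 hw)).1
    · exact (hAy.2 w (hS2 hw)).1
  · intro v hv
    have h' := hA v (hmm v hv)
    have g1 := hAd x List.mem_cons_self v (hmm v hv) (fun e => hxz (e ▸ hv))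
    have g2 := hAd y (List.mem_cons_of_mem _ List.mem_cons_self) v (hmm v hv)
      (fun e => hyz (e ▸ hv))
    rw [Finset.disjoint_insert_left, Finset.disjoint_union_left]
    exact ⟨fun h => (h'.2 z h).2 rfl, Finset.disjoint_of_subset_left hS1 g1,
      Finset.disjoint_of_subset_left hS2 g2⟩

/-- conditions for the other trees -/
theorem PAdm.oth {X : Set ℕ} {z : ℕ} {zs zs' : List ℕ} (h : ∀ v ∈ zs, v ∈ zs')
    {m : ℕ × Pat} {t : LT ℕ × LT ℕ} (hm : PAdm X {v | v ∈ z :: zs} m t) :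
    PAdm (X \ {z}) {v | v ∈ zs'} m t := by
  refine ⟨hm.1.mono Set.sdiff_subset ?_, hm.2⟩
  intro x hx hxr
  rcases List.mem_cons.1 hxr with h1 | h1
  · exact absurd h1 hx.2
  · exact h x h1

theorem PP.place1 {X : Set ℕ} {z x R : ℕ} {P : Pat} {ms : List (ℕ × Pat)} (hz : z ∈ X)
    (hzz : z ∉ ms.map Prod.fst) (hxz : x ∉ ms.map Prod.fst) (hx : x ∈ X) (hne : x ≠ z)
    (hadj : adj z x) (hc : P.hc x) (h : PP adj (X \ {z}) ((x, P) :: ms)) :
    PP adj X ((z, .N1 R P) :: ms) := by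
  classical
  intro τ hτ
  obtain ⟨⟨s, d, ht, hd, hs⟩, h1, h2⟩ := hτ (z, .N1 R P) List.mem_cons_self
  simp only [List.map_cons] at hd hs hτ
  have hmem : ∀ v ∈ ms.map Prod.fst, v ≠ x := fun v hv e => hxz (e ▸ hv)
  have hhs : ∀ F, s = .hole F → z ∉ F := by
    intro F hF
    rcases ht with ht | ht
    · exact h1 F (by rw [ht]; exact hF)
    · exact h2 F (by rw [ht]; exact hF)
  have hhd : ∀ F, d = .hole F → z ∉ F := by
    intro F hF
    rcases ht with ht | ht
    · exact h2 F (by rw [ht]; exact hF)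
    · exact h1 F (by rw [ht]; exact hF)
  have hRt : ∀ v ∈ X \ {z}, v ∈ ({v | v ∈ z :: ms.map Prod.fst} : Set ℕ) →
      v ∈ ({v | v ∈ x :: ms.map Prod.fst} : Set ℕ) := by
    intro v hv hvr
    rcases List.mem_cons.1 hvr with h3 | h3
    · exact absurd h3 hv.2
    · exact List.mem_cons_of_mem _ h3
  refine ES.one (σ := Function.update τ x (if s.size = 0 then P.dft else s.ch)) (c := s) (d := d)
    hz hzz hxz hadj (h _ ?_) ?_ ?_ hd.1 hhs hhd ht
  · intro m hm
    simp only [List.map_cons]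
    rcases List.mem_cons.1 hm with rfl | hm
    · simp only [Function.update_self]
      by_cases hs0 : s.size = 0
      · rw [if_pos hs0]
        exact ⟨P.dft_ok _ _, fun F hF => absurd hF (P.dft_nh F).1,
          fun F hF => absurd hF (P.dft_nh F).2⟩
      · rw [if_neg hs0]
        rcases hs with hs | ⟨-, hs⟩
        · exact absurd hs.1 hs0
        · refine ⟨hs.mono Set.sdiff_subset hRt, hs.top hc hx ?_⟩
          intro hxr
          rcases List.mem_cons.1 hxr with h3 | h3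
          · exact hne h3
          · exact hxz h3
    · rw [Function.update_of_ne (hmem m.1 (List.mem_map_of_mem hm))]
      exact PAdm.oth (fun v hv => List.mem_cons_of_mem _ hv) (hτ m (List.mem_cons_of_mem _ hm))
  · intro v hv
    exact Function.update_of_ne (hmem v hv) _ _
  · by_cases hs0 : s.size = 0
    · exact Or.inl hs0
    · right
      rw [Function.update_self, if_neg hs0]

theorem PP.place2 {X : Set ℕ} {z x y : ℕ} {P Q : Pat} {ms : List (ℕ × Pat)} (hz : z ∈ X)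
    (hzz : z ∉ ms.map Prod.fst) (hxz : x ∉ ms.map Prod.fst) (hyz : y ∉ ms.map Prod.fst)
    (hxy : x ≠ y) (hx : x ∈ X) (hy : y ∈ X) (hne : x ≠ z) (hne' : y ≠ z)
    (hadj : adj z x) (hadj' : adj z y) (hc : P.hc x) (hc' : Q.hc y)
    (h : PP adj (X \ {z}) ((x, P) :: (y, Q) :: ms)) : PP adj X ((z, .N2 P Q) :: ms) := by
  classical
  intro τ hτ
  obtain ⟨⟨c, d, ht, hc1, hd1, hcP, hdQ⟩, h1, h2⟩ := hτ (z, .N2 P Q) List.mem_cons_self
  simp only [List.map_cons] at hcP hdQ hτ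
  have hmem : ∀ v ∈ ms.map Prod.fst, v ≠ x := fun v hv e => hxz (e ▸ hv)
  have hmem' : ∀ v ∈ ms.map Prod.fst, v ≠ y := fun v hv e => hyz (e ▸ hv)
  have hhc : ∀ F, c = .hole F → z ∉ F := by
    rintro F rfl
    simp at hc1
  have hhd : ∀ F, d = .hole F → z ∉ F := by
    rintro F rfl
    simp at hd1
  have hRt : ∀ v ∈ X \ {z}, v ∈ ({v | v ∈ z :: ms.map Prod.fst} : Set ℕ) →
      v ∈ ({v | v ∈ x :: y :: ms.map Prod.fst} : Set ℕ) := by
    intro v hv hvr
    rcases List.mem_cons.1 hvr with h3 | h3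
    · exact absurd h3 hv.2
    · exact List.mem_cons_of_mem _ (List.mem_cons_of_mem _ h3)
  have ex : Function.update (Function.update τ x c.ch) y d.ch x = c.ch := by
    rw [Function.update_of_ne hxy, Function.update_self]
  have ey : Function.update (Function.update τ x c.ch) y d.ch y = d.ch := by
    rw [Function.update_self]
  refine ES.two (σ := Function.update (Function.update τ x c.ch) y d.ch) (c := c) (d := d)
    hz hzz hxy hxz hyz hadj hadj' (h _ ?_) ?_ ex ey hhc hhd ht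
  · intro m hm
    simp only [List.map_cons]
    rcases List.mem_cons.1 hm with rfl | hm
    · show PAdm _ _ _ (Function.update (Function.update τ x c.ch) y d.ch x)
      rw [ex]
      refine ⟨hcP.mono Set.sdiff_subset hRt, hcP.top hc hx ?_⟩
      intro hxr
      rcases List.mem_cons.1 hxr with h3 | h3
      · exact hne h3
      · exact hxz h3
    · rcases List.mem_cons.1 hm with rfl | hm
      · show PAdm _ _ _ (Function.update (Function.update τ x c.ch) y d.ch y)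
        rw [ey]
        refine ⟨hdQ.mono Set.sdiff_subset hRt, hdQ.top hc' hy ?_⟩
        intro hyr
        rcases List.mem_cons.1 hyr with h3 | h3
        · exact hne' h3
        · exact hyz h3
      · rw [Function.update_of_ne (hmem' m.1 (List.mem_map_of_mem hm)),
          Function.update_of_ne (hmem m.1 (List.mem_map_of_mem hm))]
        exact PAdm.oth (fun v hv => List.mem_cons_of_mem _ (List.mem_cons_of_mem _ hv))
          (hτ m (List.mem_cons_of_mem _ hm))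
  · intro v hv
    rw [Function.update_of_ne (hmem' v hv), Function.update_of_ne (hmem v hv)]

/-- replacement in a state -/
def updS (π : List Bool) (Q : Pat) : ℕ → List (ℕ × Pat) → List (ℕ × Pat)
  | _, [] => []
  | 0, m :: ms => (m.1, Pat.sub Q π m.2) :: ms
  | i + 1, m :: ms => m :: updS π Q i ms

/-- the unknown part at a place -/
def getS (π : List Bool) : ℕ → List (ℕ × Pat) → Option (ℕ × ℕ)
  | _, [] => none
  | 0, m :: _ => m.2.get π
  | i + 1, _ :: ms => getS π i ms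

theorem updS_fst {π : List Bool} {Q : Pat} : ∀ {i : ℕ} {ms : List (ℕ × Pat)},
    (updS π Q i ms).map Prod.fst = ms.map Prod.fst
  | _, [] => by cases ‹ℕ› <;> rfl
  | 0, m :: ms => rfl
  | i + 1, m :: ms => by
    show m.1 :: (updS π Q i ms).map Prod.fst = _
    rw [updS_fst]
    rfl

theorem getS_spec {π : List Bool} {k R : ℕ} : ∀ {i : ℕ} {ms : List (ℕ × Pat)},
    getS π i ms = some (k, R) → ∃ m ∈ ms, m.2.get π = some (k, R) ∧
      ∀ Q, ∀ m' ∈ updS π Q i ms, m' ∈ ms ∨ m' = (m.1, Pat.sub Q π m.2)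
  | i, [], h => by cases i <;> cases h
  | 0, m :: ms, h => by
    refine ⟨m, List.mem_cons_self, h, fun Q m' hm' => ?_⟩
    rcases List.mem_cons.1 hm' with rfl | hm'
    · exact Or.inr rfl
    · exact Or.inl (List.mem_cons_of_mem _ hm')
  | i + 1, m :: ms, h => by
    obtain ⟨n, hn, h1, h2⟩ := getS_spec (i := i) (ms := ms) h
    refine ⟨n, List.mem_cons_of_mem _ hn, h1, fun Q m' hm' => ?_⟩
    rcases List.mem_cons.1 hm' with rfl | hm'
    · exact Or.inl List.mem_cons_self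
    · rcases h2 Q m' hm' with h3 | h3
      · exact Or.inl (List.mem_cons_of_mem _ h3)
      · exact Or.inr h3

/-- **Revealing.** -/
theorem PP.reveal {X : Set ℕ} {π : List Bool} {i k R : ℕ} {ms : List (ℕ × Pat)}
    (hg : getS π i ms = some (k, R)) (hk : 1 ≤ k)
    (h : ∀ Q, Pat.Alt k R Q → PP adj X (updS π Q i ms)) : PP adj X ms := by
  intro τ hτ
  obtain ⟨m, hm, h1, h2⟩ := getS_spec hg
  obtain ⟨a1, a2⟩ := hτ m hm
  obtain ⟨Q, hQ, h3⟩ := Pat.Mt.rev hk h1 a1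
  have h4 := h Q hQ τ (by
    intro m' hm'
    rw [updS_fst]
    rcases h2 Q m' hm' with h5 | rfl
    · exact hτ m' h5
    · exact ⟨h3, a2⟩)
  rwa [updS_fst] at h4

end Pool.Agent.Work.MP_bf01b2_co.MR
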