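import Pool.Agent.Work.MP_bf01b2_co.MR.PfP

/-!
# Checker for certificates with patterns, one relevant position
-/

set_option autoImplicit false

namespace Pool.Agent.Work.MP_bf01b2_co.MR

namespace Pt

open Tab
open Sf (bo)

/-- is `z` in the mask -/
@[reducible] noncomputable def inM (X z : ℕ) : Bool := Nat.beq (Nat.land X (Nat.pow 2 z)) (Nat.pow 2 z)

/-- is `z` not in the mask -/
@[reducible] noncomputable def niM (X z : ℕ) : Bool := Nat.beq (Nat.land X (Nat.pow 2 z)) 0

theorem inM_ok {X z : ℕ} (h : inM X z = true) : X.testBit z = true := by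
  have h1 : X &&& 2 ^ z = 2 ^ z := Nat.eq_of_beq_eq_true h
  rw [Nat.and_two_pow] at h1
  cases hb : X.testBit z with
  | true => rfl
  | false =>
    rw [hb] at h1
    have : 0 < 2 ^ z := Nat.two_pow_pos z
    simp only [Bool.toNat_false, zero_mul] at h1
    omega

theorem niM_ok {X z : ℕ} (h : niM X z = true) : X.testBit z = false := by
  have h1 : X &&& 2 ^ z = 0 := Nat.eq_of_beq_eq_true h
  rw [Nat.and_two_pow] at h1
  cases hb : X.testBit z with
  | false => rfl
  | true =>
    rw [hb] at h1
    have : 0 < 2 ^ z := Nat.two_pow_pos z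
    simp only [Bool.toNat_true, one_mul] at h1
    omega

/-- the mask is empty or the position `o` -/
noncomputable def isR (o R : ℕ) : Bool := bo (Nat.beq R 0) (Nat.beq R (Nat.pow 2 o))

theorem isR_ok {o R : ℕ} (h : isR o R = true) : R = 0 ∨ R = 2 ^ o := by
  unfold isR at h
  rw [Sf.bo_iff] at h
  rcases h with h | h
  · exact Or.inl (Nat.eq_of_beq_eq_true h)
  · exact Or.inr (Nat.eq_of_beq_eq_true h)

/-- the splits -/
noncomputable def spl (k R b : ℕ) : List Pat :=
  Nat.rec (motive := fun _ => List Pat) [Pat.N1 R (.U (Nat.pred k) R)]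
    (fun b ih => Bool.rec (motive := fun _ => List Pat)
      (Pat.N2 (.U (Nat.pred (Nat.sub k (Nat.succ b))) R) (.U b 0) ::
        Pat.N2 (.U (Nat.pred (Nat.sub k (Nat.succ b))) 0) (.U b R) :: ih)
      (Pat.N2 (.U (Nat.pred (Nat.sub k (Nat.succ b))) 0) (.U b 0) :: ih) (Nat.beq R 0)) b

theorem masks_two {o Ra Rb : ℕ} (h1 : Ra ||| Rb = 2 ^ o) (h2 : Ra &&& Rb = 0) :
    (Ra = 2 ^ o ∧ Rb = 0) ∨ (Ra = 0 ∧ Rb = 2 ^ o) := by
  have e1 : ∀ x, (Ra.testBit x || Rb.testBit x) = decide (o = x) := by
    intro x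
    rw [← Nat.testBit_or, h1, Nat.testBit_two_pow]
  have e2 : ∀ x, (Ra.testBit x && Rb.testBit x) = false := by
    intro x
    rw [← Nat.testBit_and, h2, Nat.zero_testBit]
  have e3 := e1 o
  have e4 := e2 o
  simp only [decide_true] at e3
  by_cases ha : Ra.testBit o = true
  · left
    rw [ha, Bool.true_and] at e4
    constructor
    · apply Nat.eq_of_testBit_eq
      intro x
      rw [Nat.testBit_two_pow]
      by_cases hx : o = x
      · subst hx; simp [ha]
      · have := e1 x
        simp only [hx, decide_false, Bool.or_eq_false_iff] at this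
        simp [this.1, hx]
    · apply Nat.eq_of_testBit_eq
      intro x
      rw [Nat.zero_testBit]
      by_cases hx : o = x
      · subst hx; exact e4
      · have := e1 x
        simp only [hx, decide_false, Bool.or_eq_false_iff] at this
        exact this.2
  · right
    have ha' : Ra.testBit o = false := by simpa using ha
    rw [ha', Bool.false_or] at e3
    constructor
    · apply Nat.eq_of_testBit_eq
      intro x
      rw [Nat.zero_testBit]
      by_cases hx : o = x
      · subst hx; exact ha'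
      · have := e1 x
        simp only [hx, decide_false, Bool.or_eq_false_iff] at this
        exact this.1
    · apply Nat.eq_of_testBit_eq
      intro x
      rw [Nat.testBit_two_pow]
      by_cases hx : o = x
      · subst hx; simp [e3]
      · have := e1 x
        simp only [hx, decide_false, Bool.or_eq_false_iff] at this
        simp [this.2, hx]

theorem spl_zero (k R : ℕ) : spl k R 0 = [Pat.N1 R (.U (k - 1) R)] := rfl

theorem spl_succ0 (k b : ℕ) : spl k 0 (b + 1) =
    Pat.N2 (.U (k - (b + 1) - 1) 0) (.U b 0) :: spl k 0 b := rfl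

theorem spl_succ1 (k b : ℕ) {R : ℕ} (hR : Nat.beq R 0 = false) : spl k R (b + 1) =
    Pat.N2 (.U (k - (b + 1) - 1) R) (.U b 0) :: Pat.N2 (.U (k - (b + 1) - 1) 0) (.U b R) ::
      spl k R b := by
  have h : spl k R (b + 1) = Bool.rec (motive := fun _ => List Pat)
      (Pat.N2 (.U (Nat.pred (Nat.sub k (Nat.succ b))) R) (.U b 0) ::
        Pat.N2 (.U (Nat.pred (Nat.sub k (Nat.succ b))) 0) (.U b R) :: spl k R b)
      (Pat.N2 (.U (Nat.pred (Nat.sub k (Nat.succ b))) 0) (.U b 0) :: spl k R b)
      (Nat.beq R 0) := rfl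
  rw [h, hR]
  rfl

theorem spl_one {k R : ℕ} : ∀ b, Pat.N1 R (.U (k - 1) R) ∈ spl k R b
  | 0 => by rw [spl_zero]; exact List.mem_cons_self
  | b + 1 => by
    cases hR : Nat.beq R 0 with
    | true =>
      have : R = 0 := Nat.eq_of_beq_eq_true hR
      subst this
      rw [spl_succ0]
      exact List.mem_cons_of_mem _ (spl_one b)
    | false =>
      rw [spl_succ1 k b hR]
      exact List.mem_cons_of_mem _ (List.mem_cons_of_mem _ (spl_one b))

theorem spl_two {k R o Ra Rb c : ℕ} (hR : R = 0 ∨ R = 2 ^ o) (h1 : Ra ||| Rb = R)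
    (h2 : Ra &&& Rb = 0) (hc : 1 ≤ c) : ∀ b, c ≤ b →
      Pat.N2 (.U (k - c - 1) Ra) (.U (c - 1) Rb) ∈ spl k R b
  | 0, h => by omega
  | b + 1, h => by
    rcases Nat.lt_or_ge b c with hbc | hbc
    · have : c = b + 1 := by omega
      subst this
      rw [Nat.add_sub_cancel]
      rcases hR with rfl | rfl
      · have ha : Ra = 0 := by
          apply Nat.eq_of_testBit_eq
          intro x
          have := congrArg (fun z => z.testBit x) h1
          simp only [Nat.testBit_or, Nat.zero_testBit, Bool.or_eq_false_iff] at this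
          rw [Nat.zero_testBit]
          exact this.1
        have hb : Rb = 0 := by
          apply Nat.eq_of_testBit_eq
          intro x
          have := congrArg (fun z => z.testBit x) h1
          simp only [Nat.testBit_or, Nat.zero_testBit, Bool.or_eq_false_iff] at this
          rw [Nat.zero_testBit]
          exact this.2
        rw [ha, hb, spl_succ0]
        exact List.mem_cons_self
      · have hR0 : Nat.beq (2 ^ o) 0 = false := by
          cases hh : Nat.beq (2 ^ o) 0 with
          | false => rfl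
          | true =>
            have := Nat.eq_of_beq_eq_true hh
            have h3 : 0 < 2 ^ o := Nat.two_pow_pos o
            omega
        rw [spl_succ1 k b hR0]
        rcases masks_two h1 h2 with ⟨rfl, rfl⟩ | ⟨rfl, rfl⟩
        · exact List.mem_cons_self
        · exact List.mem_cons_of_mem _ List.mem_cons_self
    · have ih := spl_two (k := k) hR h1 h2 hc b hbc
      cases hR' : Nat.beq R 0 with
      | true =>
        have : R = 0 := Nat.eq_of_beq_eq_true hR'
        subst this
        rw [spl_succ0]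
        exact List.mem_cons_of_mem _ ih
      | false =>
        rw [spl_succ1 k b hR']
        exact List.mem_cons_of_mem _ (List.mem_cons_of_mem _ ih)

theorem spl_ok {k R o : ℕ} (hR : R = 0 ∨ R = 2 ^ o) {Q : Pat} (hQ : Pat.Alt k R Q) :
    Q ∈ spl k R (Nat.shiftRight k 1) := by
  rcases hQ with rfl | ⟨b, hb, hbk, Ra, Rb, h1, h2, rfl⟩
  · exact spl_one _
  · refine spl_two hR h1 h2 hb _ ?_
    have : Nat.shiftRight k 1 = k / 2 := rfl
    rw [this]
    omega

/-- a code of a place: the lowest bit is the first step, leading bit `1` -/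
noncomputable def pth (f : ℕ) : ℕ → List Bool :=
  Nat.rec (motive := fun _ => ℕ → List Bool) (fun _ => [])
    (fun _ ih c => Bool.rec (motive := fun _ => List Bool)
      (Nat.beq (Nat.land c 1) 1 :: ih (Nat.shiftRight c 1)) [] (Nat.beq c 1)) f

/-- the final cover: one reference (32 bits) for every root -/
noncomputable def cv (T M o : ℕ) (done : List (ℕ × ℕ × ℕ)) :
    ℕ → List ℕ → (List ℕ → Bool) → Bool :=
  List.rec (motive := fun _ => ℕ → List ℕ → (List ℕ → Bool) → Bool) (fun _ tk nx => nx tk)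
    (fun e _ ih X tk nx => List.rec (motive := fun _ => Bool) false
      (fun D tk' _ => nd (Nat.ble (Nat.succ (ri D)) M) (nd (Nat.ble (Nat.succ e.2.1) (tN T (ri D)))
        (nd (isR o e.2.2) (fB (zI T e.1 D) fun Z =>
          nd (Nat.beq (Nat.land X (lo Z)) (lo Z))
            (nd (Nat.beq (Nat.land (Nat.land e.2.2 (lo Z)) (hi Z)) (Nat.land e.2.2 (lo Z)))
              (ih (Nat.xor X (lo Z)) tk' nx)))))) tk) done

/-- marks of unknown trees -/
def toPM (e : ℕ × ℕ × ℕ) : PM ℕ := ⟨e.1, e.2.1, msk e.2.2⟩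

/-- patterns of unknown trees -/
def toU (e : ℕ × ℕ × ℕ) : ℕ × Pat := (e.1, .U e.2.1 e.2.2)

theorem cv_ok {T M o : ℕ} (hT : ∀ i < M, GoodP 1 T i) : ∀ (done : List (ℕ × ℕ × ℕ)) (X : ℕ)
    (tk : List ℕ) (nx : List ℕ → Bool), (∀ e ∈ done, e.1 < 32) → cv T M o done X tk nx = true →
      ∃ tk', nx tk' = true ∧ PF (ncadj 5) (msk X) (done.map toPM)
  | [], X, tk, nx, _, h => ⟨tk, h, PF.nil _⟩
  | e :: done, X, [], nx, _, h => by
    have h' : false = true := h
    exact absurd h' (by simp)
  | e :: done, X, D :: tk, nx, hz, h => by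
    have h' : nd (Nat.ble (Nat.succ (ri D)) M) (nd (Nat.ble (Nat.succ e.2.1) (tN T (ri D)))
        (nd (isR o e.2.2) (fB (zI T e.1 D) fun Z =>
          nd (Nat.beq (Nat.land X (lo Z)) (lo Z))
            (nd (Nat.beq (Nat.land (Nat.land e.2.2 (lo Z)) (hi Z)) (Nat.land e.2.2 (lo Z)))
              (cv T M o done (Nat.xor X (lo Z)) tk nx))))) = true := h
    rw [fB_eq, nd_iff, nd_iff, nd_iff, nd_iff, nd_iff] at h'
    obtain ⟨a1, a2, a3, a4, a5, a6⟩ := h'
    have g := zI_ok (hT _ (lt_of_succ_ble a1)) (hz e List.mem_cons_self)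
    have b2 : e.2.1 + 1 ≤ tN T (ri D) := Nat.le_of_ble_eq_true a2
    have b4 : X &&& lo (zI T e.1 D) = lo (zI T e.1 D) := Nat.eq_of_beq_eq_true a4
    have b5 : (e.2.2 &&& lo (zI T e.1 D)) &&& hi (zI T e.1 D) = e.2.2 &&& lo (zI T e.1 D) :=
      Nat.eq_of_beq_eq_true a5
    obtain ⟨tk', h1, h2⟩ := cv_ok hT done _ tk nx (fun y hy => hz y (List.mem_cons_of_mem _ hy)) a6
    refine ⟨tk', h1, ?_⟩
    obtain ⟨R, hR1, hR2⟩ : ∃ R : Finset ℕ, R.card ≤ 1 ∧ (R : Set ℕ) = msk e.2.2 := by
      rcases isR_ok a3 with h3 | h3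
      · refine ⟨∅, by simp, ?_⟩
        ext v
        rw [h3, mem_msk, Nat.zero_testBit]
        simp
      · refine ⟨{o}, by simp, ?_⟩
        ext v
        rw [h3, mem_msk, Nat.testBit_two_pow]
        simp [eq_comm]
    have hR : ∀ y ∈ R, (lo (zI T e.1 D)).testBit y = true → (hi (zI T e.1 D)).testBit y = true := by
      intro y hy hyl
      have h3 : e.2.2.testBit y = true := by
        have : y ∈ (R : Set ℕ) := hy
        rw [hR2] at this
        exact this
      have h4 := congrArg (fun z => z.testBit y) b5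
      simp only [Nat.testBit_and, h3, hyl, Bool.and_self, Bool.true_and] at h4
      exact h4
    have h3 := (consX (k := e.2.1) g b4 b2 hR1 hR h2).1
    rw [hR2] at h3
    exact h3

/-- may the root of the pattern be placed at `x` -/
noncomputable def hcB (x : ℕ) (P : Pat) : Bool :=
  Pat.rec (motive := fun _ => Bool) (fun _ R => niM R x) (fun R _ _ => niM R x)
    (fun _ _ _ _ => true) P

theorem hcB_ok {x : ℕ} : ∀ {P : Pat}, hcB x P = true → P.hc x
  | .U _ _, h => niM_ok h
  | .N1 _ _, h => niM_ok h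
  | .N2 _ _, _ => trivial

/-- conditions for a child at `x` -/
noncomputable def chk1 (X occ x : ℕ) (P : Pat) : Bool :=
  nd (niM occ x) (nd (inM X x) (hcB x P))

/-- a leaf of the certificate: placement of the patterns, then the cover -/
noncomputable def lf (T M o f : ℕ) : ℕ → ℕ → List (ℕ × Pat) → List (ℕ × ℕ × ℕ) → List ℕ →
    (List ℕ → Bool) → Bool :=
  Nat.rec (motive := fun _ => ℕ → ℕ → List (ℕ × Pat) → List (ℕ × ℕ × ℕ) → List ℕ →
      (List ℕ → Bool) → Bool) (fun _ _ _ _ _ _ => false)
    (fun _ ih X occ pend done tk nx =>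
      List.rec (motive := fun _ => Bool) (cv T M o done X tk nx)
        (fun m pend' _ => Pat.rec (motive := fun _ => Bool)
          (fun k R => ih X occ pend' ((m.1, k, R) :: done) tk nx)
          (fun _ P _ => List.rec (motive := fun _ => Bool) false
            (fun d tk' _ => nd (isDir d) (nd (inM X m.1) (nd (chk1 X occ (Nat.xor m.1 d) P)
              (ih (Nat.xor X (Nat.pow 2 m.1)) (Nat.lor occ (Nat.pow 2 (Nat.xor m.1 d)))
                ((Nat.xor m.1 d, P) :: pend') done tk' nx)))) tk)
          (fun P Q _ _ => List.rec (motive := fun _ => Bool) false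
            (fun d tk' _ => List.rec (motive := fun _ => Bool) false
              (fun e tk'' _ => nd (isDir d) (nd (isDir e) (nd (inM X m.1)
                (nd (chk1 X occ (Nat.xor m.1 d) P)
                (nd (chk1 X (Nat.lor occ (Nat.pow 2 (Nat.xor m.1 d))) (Nat.xor m.1 e) Q)
                (ih (Nat.xor X (Nat.pow 2 m.1)) (Nat.lor (Nat.lor occ (Nat.pow 2 (Nat.xor m.1 d)))
                  (Nat.pow 2 (Nat.xor m.1 e)))
                ((Nat.xor m.1 d, P) :: (Nat.xor m.1 e, Q) :: pend') done tk'' nx)))))) tk') tk)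
          m.2) pend) f

theorem testBit_lor_pow {X z v : ℕ} :
    (Nat.lor X (Nat.pow 2 z)).testBit v = true ↔ (X.testBit v = true ∨ v = z) := by
  have e : Nat.lor X (Nat.pow 2 z) = X ||| 2 ^ z := rfl
  rw [e, Nat.testBit_or, Nat.testBit_two_pow, Bool.or_eq_true, decide_eq_true_eq]
  constructor
  · rintro (h | h)
    · exact Or.inl h
    · exact Or.inr h.symm
  · rintro (h | h)
    · exact Or.inl h
    · exact Or.inr h.symm

theorem lf_ok {T M o : ℕ} (hT : ∀ i < M, GoodP 1 T i) : ∀ (f X occ : ℕ)
    (pend : List (ℕ × Pat)) (done : List (ℕ × ℕ × ℕ)) (tk : List ℕ) (nx : List ℕ → Bool),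
    ((pend ++ done.map toU).map Prod.fst).Nodup →
    (∀ v ∈ (pend ++ done.map toU).map Prod.fst, occ.testBit v = true ∧ v < 32) →
    lf T M o f X occ pend done tk nx = true →
      ∃ tk', nx tk' = true ∧ PP (ncadj 5) (msk X) (pend ++ done.map toU)
  | 0, X, occ, pend, done, tk, nx, _, _, h => by
    have h' : false = true := h
    exact absurd h' (by simp)
  | f + 1, X, occ, [], done, tk, nx, hnd, hocc, h => by
    have h' : cv T M o done X tk nx = true := h
    obtain ⟨tk', h1, h2⟩ := cv_ok hT done X tk nx (by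
      intro e he
      exact (hocc e.1 (by
        rw [List.nil_append, List.map_map]
        exact List.mem_map.2 ⟨e, he, rfl⟩)).2) h'
    exact ⟨tk', h1, PP.of_PF h2⟩
  | f + 1, X, occ, (z, .U k R) :: pend, done, tk, nx, hnd, hocc, h => by
    have h' : lf T M o f X occ pend ((z, k, R) :: done) tk nx = true := h
    have hmem : ∀ m, m ∈ pend ++ ((z, k, R) :: done).map toU ↔
        m ∈ ((z, .U k R) :: pend) ++ done.map toU := by
      intro m
      simp only [List.map_cons, List.mem_append, List.mem_cons, toU]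
      tauto
    have hperm : (pend ++ ((z, k, R) :: done).map toU).Perm
        (((z, .U k R) :: pend) ++ done.map toU) := by
      rw [List.map_cons]
      exact List.perm_middle
    obtain ⟨tk', h1, h2⟩ := lf_ok hT f X occ pend ((z, k, R) :: done) tk nx (by
      rw [(hperm.map Prod.fst).nodup_iff]
      exact hnd) (by
      intro v hv
      exact hocc v ((hperm.map Prod.fst).mem_iff.1 hv)) h'
    exact ⟨tk', h1, h2.congr hmem⟩
  | f + 1, X, occ, (z, .N1 R P) :: pend, done, [], nx, hnd, hocc, h => by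
    have h' : false = true := h
    exact absurd h' (by simp)
  | f + 1, X, occ, (z, .N1 R P) :: pend, done, d :: tk, nx, hnd, hocc, h => by
    have h' : nd (isDir d) (nd (inM X z) (nd (chk1 X occ (Nat.xor z d) P)
      (lf T M o f (Nat.xor X (Nat.pow 2 z)) (Nat.lor occ (Nat.pow 2 (Nat.xor z d)))
        ((Nat.xor z d, P) :: pend) done tk nx))) = true := h
    rw [nd_iff, nd_iff, nd_iff] at h'
    obtain ⟨a1, a2, a3, a4⟩ := h'
    unfold chk1 at a3
    rw [nd_iff, nd_iff] at a3
    obtain ⟨b1, b2, b3⟩ := a3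
    obtain ⟨i, hi, hd⟩ := isDir_ok a1
    have c1 := niM_ok b1
    have c2 := inM_ok b2
    have c3 := hcB_ok b3
    have hX := inM_ok a2
    simp only [List.cons_append, List.map_cons, List.nodup_cons] at hnd
    have hz := hocc z (by simp)
    have hx32 : Nat.xor z d < 32 := by rw [hd]; exact xor_dir_lt hz.2 hi
    have hxr : Nat.xor z d ∉ (pend ++ done.map toU).map Prod.fst := by
      intro hc
      have := (hocc _ (List.mem_cons_of_mem _ hc)).1
      rw [c1] at this
      exact absurd this (by simp)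
    have hxz : Nat.xor z d ≠ z := by
      intro e
      rw [e, hz.1] at c1
      exact absurd c1 (by simp)
    obtain ⟨tk', h1, h2⟩ := lf_ok hT f _ _ ((Nat.xor z d, P) :: pend) done tk nx (by
      simp only [List.cons_append, List.map_cons, List.nodup_cons]
      exact ⟨hxr, hnd.2⟩) (by
      intro v hv
      simp only [List.cons_append, List.map_cons] at hv
      rw [testBit_lor_pow]
      rcases List.mem_cons.1 hv with rfl | hv
      · exact ⟨Or.inr rfl, hx32⟩
      · have := hocc v (List.mem_cons_of_mem _ hv)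
        exact ⟨Or.inl this.1, this.2⟩) a4
    refine ⟨tk', h1, ?_⟩
    have e : Nat.xor X (Nat.pow 2 z) = X ^^^ 2 ^ z := rfl
    rw [e, msk_erase hX] at h2
    exact PP.place1 hX hnd.1 hxr c2 hxz ⟨i, hi, by rw [hd]; rfl⟩ c3 h2
  | f + 1, X, occ, (z, .N2 P Q) :: pend, done, [], nx, hnd, hocc, h => by
    have h' : false = true := h
    exact absurd h' (by simp)
  | f + 1, X, occ, (z, .N2 P Q) :: pend, done, [d], nx, hnd, hocc, h => by
    have h' : false = true := h
    exact absurd h' (by simp)
  | f + 1, X, occ, (z, .N2 P Q) :: pend, done, d :: e :: tk, nx, hnd, hocc, h => by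
    have h' : nd (isDir d) (nd (isDir e) (nd (inM X z)
                (nd (chk1 X occ (Nat.xor z d) P)
                (nd (chk1 X (Nat.lor occ (Nat.pow 2 (Nat.xor z d))) (Nat.xor z e) Q)
                (lf T M o f (Nat.xor X (Nat.pow 2 z)) (Nat.lor (Nat.lor occ (Nat.pow 2 (Nat.xor z d)))
                  (Nat.pow 2 (Nat.xor z e)))
                ((Nat.xor z d, P) :: (Nat.xor z e, Q) :: pend) done tk nx))))) = true := h
    rw [nd_iff, nd_iff, nd_iff, nd_iff, nd_iff] at h'
    obtain ⟨a1, a1', a2, a3, a3', a4⟩ := h'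
    unfold chk1 at a3 a3'
    rw [nd_iff, nd_iff] at a3 a3'
    obtain ⟨b1, b2, b3⟩ := a3
    obtain ⟨b1', b2', b3'⟩ := a3'
    obtain ⟨i, hi, hd⟩ := isDir_ok a1
    obtain ⟨j, hj, he⟩ := isDir_ok a1'
    have c1 := niM_ok b1
    have c2 := inM_ok b2
    have c3 := hcB_ok b3
    have c1' := niM_ok b1'
    have c2' := inM_ok b2'
    have c3' := hcB_ok b3'
    have hX := inM_ok a2
    simp only [List.cons_append, List.map_cons, List.nodup_cons] at hnd
    have hz := hocc z (by simp)
    have hx32 : Nat.xor z d < 32 := by rw [hd]; exact xor_dir_lt hz.2 hi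
    have hy32 : Nat.xor z e < 32 := by rw [he]; exact xor_dir_lt hz.2 hj
    have d1 : ∀ v, occ.testBit v = true → v ≠ Nat.xor z e ∧ v ≠ Nat.xor z d := by
      intro v hv
      refine ⟨?_, ?_⟩
      · rintro rfl
        have := (testBit_lor_pow (X := occ) (z := Nat.xor z d) (v := Nat.xor z e)).2 (Or.inl hv)
        rw [c1'] at this
        exact absurd this (by simp)
      · rintro rfl
        rw [c1] at hv
        exact absurd hv (by simp)
    have hxr : Nat.xor z d ∉ (pend ++ done.map toU).map Prod.fst := by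
      intro hc
      exact (d1 _ (hocc _ (List.mem_cons_of_mem _ hc)).1).2 rfl
    have hyr : Nat.xor z e ∉ (pend ++ done.map toU).map Prod.fst := by
      intro hc
      exact (d1 _ (hocc _ (List.mem_cons_of_mem _ hc)).1).1 rfl
    have hxy : Nat.xor z d ≠ Nat.xor z e := by
      intro e'
      have := (testBit_lor_pow (X := occ) (z := Nat.xor z d) (v := Nat.xor z e)).2 (Or.inr e'.symm)
      rw [c1'] at this
      exact absurd this (by simp)
    obtain ⟨tk', h1, h2⟩ := lf_ok hT f _ _ ((Nat.xor z d, P) :: (Nat.xor z e, Q) :: pend) done tk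
      nx (by
      simp only [List.cons_append, List.map_cons, List.nodup_cons, List.mem_cons, not_or]
      exact ⟨⟨hxy, hxr⟩, hyr, hnd.2⟩) (by
      intro v hv
      simp only [List.cons_append, List.map_cons] at hv
      rw [testBit_lor_pow, testBit_lor_pow]
      rcases List.mem_cons.1 hv with rfl | hv
      · exact ⟨Or.inl (Or.inr rfl), hx32⟩
      · rcases List.mem_cons.1 hv with rfl | hv
        · exact ⟨Or.inr rfl, hy32⟩
        · have := hocc v (List.mem_cons_of_mem _ hv)
          exact ⟨Or.inl (Or.inl this.1), this.2⟩) a4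
    refine ⟨tk', h1, ?_⟩
    have e1 : Nat.xor X (Nat.pow 2 z) = X ^^^ 2 ^ z := rfl
    rw [e1, msk_erase hX] at h2
    exact PP.place2 hX hnd.1 hxr hyr hxy c2 c2' (d1 z hz.1).2.symm (d1 z hz.1).1.symm
      ⟨i, hi, by rw [hd]; rfl⟩ ⟨j, hj, by rw [he]; rfl⟩ c3 c3' h2

/-- the reveal step -/
noncomputable def rvl (o : ℕ) (g : Option (ℕ × ℕ)) (nx : List Pat → Bool) : Bool :=
  Option.rec (motive := fun _ => Bool) false
    (fun e => nd (Nat.ble 1 e.1) (nd (isR o e.2) (nx (spl e.1 e.2 (Nat.shiftRight e.1 1))))) g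

/-- the checker: stack of states, tokens: `0` and the data of a leaf, or `i + 1`, place -/
noncomputable def run (T M o f : ℕ) : List (List (ℕ × Pat)) → List ℕ → Bool :=
  Nat.rec (motive := fun _ => List (List (ℕ × Pat)) → List ℕ → Bool) (fun _ _ => false)
    (fun _ ih ss tk => List.rec (motive := fun _ => Bool) true
      (fun s ss' _ => List.rec (motive := fun _ => Bool) false
        (fun c tk' _ => Nat.rec (motive := fun _ => Bool)
          (lf T M o 64 FULL (maskL (s.map Prod.fst)) s [] tk' fun tk'' => ih ss' tk'')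
          (fun i _ => List.rec (motive := fun _ => Bool) false
            (fun pc tk'' _ => rvl o (getS (pth 40 pc) i s) fun Qs =>
              ih (Qs.map (fun Q => updS (pth 40 pc) Q i s) ++ ss') tk'') tk') c) tk) ss) f

theorem run_ok {T M o : ℕ} (hT : ∀ i < M, GoodP 1 T i) : ∀ (f : ℕ)
    (ss : List (List (ℕ × Pat))) (tk : List ℕ),
    (∀ s ∈ ss, (s.map Prod.fst).Nodup ∧ ∀ v ∈ s.map Prod.fst, v < 32) →
    run T M o f ss tk = true → ∀ s ∈ ss, PP (ncadj 5) (msk FULL) s
  | 0, ss, tk, _, h => by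
    have h' : false = true := h
    exact absurd h' (by simp)
  | f + 1, [], tk, _, h => by intro s hs; simp at hs
  | f + 1, s :: ss, [], _, h => by
    have h' : false = true := h
    exact absurd h' (by simp)
  | f + 1, s :: ss, 0 :: tk, hs, h => by
    have h' : lf T M o 64 FULL (maskL (s.map Prod.fst)) s [] tk (fun tk'' => run T M o f ss tk'') =
      true := h
    obtain ⟨g1, g2⟩ := hs s List.mem_cons_self
    obtain ⟨tk', h1, h2⟩ := lf_ok hT 64 FULL _ s [] tk _ (by simpa using g1) (by
      intro v hv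
      have hv' : v ∈ s.map Prod.fst := by simpa using hv
      exact ⟨testBit_maskL.2 hv', g2 v hv'⟩) h'
    have h3 := run_ok hT f ss tk' (fun s hs' => hs s (List.mem_cons_of_mem _ hs')) h1
    intro s' hs'
    rcases List.mem_cons.1 hs' with rfl | hs'
    · simpa using h2
    · exact h3 s' hs'
  | f + 1, s :: ss, (i + 1) :: [], _, h => by
    have h' : false = true := h
    exact absurd h' (by simp)
  | f + 1, s :: ss, (i + 1) :: pc :: tk, hs, h => by
    have h' : rvl o (getS (pth 40 pc) i s) (fun Qs =>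
        run T M o f (Qs.map (fun Q => updS (pth 40 pc) Q i s) ++ ss) tk) = true := h
    cases hg : getS (pth 40 pc) i s with
    | none =>
      rw [hg] at h'
      have h'' : false = true := h'
      exact absurd h'' (by simp)
    | some e =>
      rw [hg] at h'
      have h'' : nd (Nat.ble 1 e.1) (nd (isR o e.2)
        (run T M o f ((spl e.1 e.2 (Nat.shiftRight e.1 1)).map (fun Q => updS (pth 40 pc) Q i s) ++
          ss) tk)) = true := h'
      rw [nd_iff, nd_iff] at h''
      obtain ⟨a1, a2, a3⟩ := h''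
      have hk : 1 ≤ e.1 := Nat.le_of_ble_eq_true a1
      obtain ⟨g1, g2⟩ := hs s List.mem_cons_self
      have h3 := run_ok hT f _ tk (by
        intro s' hs'
        rcases List.mem_append.1 hs' with hs' | hs'
        · obtain ⟨Q, _, rfl⟩ := List.mem_map.1 hs'
          rw [updS_fst]
          exact ⟨g1, g2⟩
        · exact hs s' (List.mem_cons_of_mem _ hs')) a3
      intro s' hs'
      rcases List.mem_cons.1 hs' with rfl | hs'
      · refine PP.reveal (k := e.1) (R := e.2) hg hk fun Q hQ => ?_
        exact h3 _ (List.mem_append_left _ (List.mem_map_of_mem (spl_ok (isR_ok a2) hQ)))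
      · exact h3 s' (List.mem_append_right _ hs')

/-- the initial state -/
def ini (x : ℕ) : List ℕ → List ℕ → List (ℕ × Pat)
  | z :: zs, v :: vs => (z, .U (v - 1) (2 ^ x)) :: ini x zs vs
  | _, _ => []

theorem ini_fst {x : ℕ} : ∀ {zs vs : List ℕ}, zs.length = vs.length →
    (ini x zs vs).map Prod.fst = zs
  | [], [], _ => rfl
  | z :: zs, v :: vs, h => by
    show z :: (ini x zs vs).map Prod.fst = _
    rw [ini_fst (by simpa using h)]

theorem ini_toU {x : ℕ} : ∀ (zs vs : List ℕ), zs.length = vs.length → ∃ L : List (ℕ × ℕ × ℕ),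
    ini x zs vs = L.map toU ∧ L.map Prod.fst = zs ∧ ∀ k : ℕ → ℕ, CapsL k zs vs →
      ∀ e ∈ L, k e.1 ≤ e.2.1 ∧ e.2.2 = 2 ^ x
  | [], [], _ => ⟨[], rfl, rfl, by simp⟩
  | z :: zs, v :: vs, h => by
    obtain ⟨L, h1, h2, h3⟩ := ini_toU (x := x) zs vs (by simpa using h)
    refine ⟨(z, v - 1, 2 ^ x) :: L, ?_, by rw [List.map_cons, h2], ?_⟩
    · show (z, Pat.U (v - 1) (2 ^ x)) :: ini x zs vs = _
      rw [h1]
      rfl
    · rintro k ⟨hk1, hk2⟩ e he
      rcases List.mem_cons.1 he with rfl | he
      · refine ⟨?_, rfl⟩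
        show k z ≤ v - 1
        omega
      · exact h3 k hk2 e he

/-- **Exceptional vectors by patterns.** -/
theorem vok_pat {T M x f : ℕ} {zs vs tk : List ℕ} (hT : ∀ i < M, GoodP 1 T i)
    (hnd : zs.Nodup) (hz : ∀ z ∈ zs, z < 32) (hl : zs.length = vs.length)
    (h : run T M x f [ini x zs vs] tk = true) : VOK zs x vs := by
  intro k hk
  have h1 := run_ok hT f _ tk (by
    intro s hs
    rw [List.mem_singleton] at hs
    subst hs
    rw [ini_fst hl]
    exact ⟨hnd, hz⟩) h _ (List.mem_singleton.2 rfl)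
  obtain ⟨L, e1, e2, e3⟩ := ini_toU (x := x) zs vs hl
  rw [e1] at h1
  have h2 := PF.of_PP (L := L) h1
  have hL : ∀ z, z ∈ zs ↔ ∃ e ∈ L, e.1 = z := by
    intro z
    rw [← e2, List.mem_map]
  refine PF.weak h2 ?_ ?_ ?_
  · intro v
    rw [rts_mkP, hL]
    constructor
    · rintro ⟨m, hm, e⟩
      obtain ⟨e', he', rfl⟩ := List.mem_map.1 hm
      exact ⟨e', he', e⟩
    · rintro ⟨e', he', e⟩
      exact ⟨_, List.mem_map.2 ⟨e', he', rfl⟩, e⟩
  · intro m hm
    obtain ⟨e, he, rfl⟩ := List.mem_map.1 hm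
    obtain ⟨g1, g2⟩ := e3 k hk e he
    refine ⟨⟨e.1, k e.1, {x}⟩, mem_mkP.2 ⟨(hL _).2 ⟨e, he, rfl⟩, rfl⟩, rfl, g1, ?_⟩
    intro y _ hy
    left
    show y ∈ msk e.2.2
    rw [g2, mem_msk, Nat.testBit_two_pow]
    have : y = x := hy
    simp [this]
  · intro m hm
    obtain ⟨h3, h4⟩ := mem_mkP.1 hm
    obtain ⟨e, he, e5⟩ := (hL _).1 h3
    exact ⟨_, List.mem_map.2 ⟨e, he, rfl⟩, e5⟩

end Pt

end Pool.Agent.Work.MP_bf01b2_co.MR
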