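import Pool.Agent.Work.MP_bf01b2_co.MR.PfT

/-!
# Kernel checker for tables of tolerance facts on `Q_5`: the rows

A certificate of a row is a natural number, 88 bits for every pair of regions: 8 bits of flags (bit 0:
last pair of the block, bit 1: there is no smaller child), the reference of the smaller child and the
reference of the larger child (40 bits each: index 16 bits, exchanges 16 bits, direction 8 bits). The
pairs of a block serve together an interval of splits.
-/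

set_option autoImplicit false

namespace Pool.Agent.Work.MP_bf01b2_co.MR

namespace Pt

open Tab
open Sf (bo)

/-- the split `b` is served, if the relevant positions are distributed as `Ra`, `Rb` -/
def Svd (Y k b : ℕ) (Ra Rb : Finset ℕ) : Prop :=
  (b = 0 → 1 ≤ k → ∃ i, i < 5 ∧ 2 ^ i ∉ Ra ∧
    PF (ncadj 5) (msk Y) [⟨2 ^ i, k - 1, (Ra : Set ℕ)⟩]) ∧
  (1 ≤ b → 2 * b ≤ k → ∃ i j, i < 5 ∧ j < 5 ∧ i ≠ j ∧ 2 ^ i ∉ Ra ∧ 2 ^ j ∉ Rb ∧
    PF (ncadj 5) (msk Y) [⟨2 ^ i, k - b - 1, (Ra : Set ℕ)⟩, ⟨2 ^ j, b - 1, (Rb : Set ℕ)⟩])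

theorem GZ.use {D Z p n k : ℕ} {R : Finset ℕ} (h : GZ D Z p n) (hk : k + 1 ≤ n) (hR : R.card ≤ D)
    (hRT : ∀ x ∈ R, (lo Z).testBit x = true → (hi Z).testBit x = true) :
    p ∉ R ∧ (lo Z).testBit p = true ∧ PF (ncadj 5) (msk (lo Z)) [⟨p, k, (R : Set ℕ)⟩] := by
  have h1 := h.1.mem (by omega)
  refine ⟨?_, h1, h.1 k R hk hR hRT⟩
  intro hp
  have h2 := hRT p hp h1
  rw [h.2] at h2
  exact absurd h2 (by simp)

theorem one_ok {D Y k b nH ZH i : ℕ} {Ra Rb : Finset ℕ} (hi' : i < 5) (hH : GZ D ZH (2 ^ i) nH)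
    (hYH : Y &&& lo ZH = lo ZH) (hk : k ≤ nH) (hb : b = 0) (ha : Ra.card ≤ D)
    (hRa : ∀ x ∈ Ra, (lo ZH).testBit x = true → (hi ZH).testBit x = true) :
    Svd Y k b Ra Rb := by
  subst hb
  refine ⟨fun _ hk1 => ?_, fun h => absurd h (by omega)⟩
  obtain ⟨h1, h2, h3⟩ := hH.use (k := k - 1) (by omega) ha hRa
  exact ⟨i, hi', h1, PF.mono h3 le_rfl (fun x _ hx => Or.inl hx)
    (msk_subset (by rw [Nat.land_comm]; exact hYH))⟩

theorem pair_ok {D Y k b nL nH ZL ZH i j : ℕ} {Ra Rb : Finset ℕ} (hi' : i < 5) (hj' : j < 5)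
    (hH : GZ D ZH (2 ^ i) nH) (hL : GZ D ZL (2 ^ j) nL) (h8 : Y &&& lo ZL = lo ZL)
    (h9 : (Y ^^^ lo ZL) &&& lo ZH = lo ZH) (hbL : b ≤ nL) (hkH : k ≤ nH + b)
    (ha : Ra.card ≤ D) (hb : Rb.card ≤ D)
    (hRa : ∀ x ∈ Ra, (lo ZH).testBit x = true → (hi ZH).testBit x = true)
    (hRb : 1 ≤ b → ∀ x ∈ Rb, (lo ZL).testBit x = true → (hi ZL).testBit x = true) :
    Svd Y k b Ra Rb := by
  have hYH : Y &&& lo ZH = lo ZH := by
    have e2 : (Y ^^^ lo ZL) &&& Y = Y ^^^ lo ZL := (xor_and_disj h8).2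
    calc Y &&& lo ZH = Y &&& ((Y ^^^ lo ZL) &&& lo ZH) := by rw [h9]
      _ = ((Y ^^^ lo ZL) &&& Y) &&& lo ZH := by
        rw [← Nat.land_assoc, Nat.land_comm Y]
      _ = lo ZH := by rw [e2, h9]
  refine ⟨fun hb0 hk1 => ?_, fun hb1 hbk => ?_⟩
  · exact (one_ok (Rb := Rb) hi' hH hYH (by omega) hb0 ha hRa).1 hb0 hk1
  · obtain ⟨h1, h2, h3⟩ := hH.use (k := k - b - 1) (by omega) ha hRa
    obtain ⟨h4, h5, h6⟩ := hL.use (k := b - 1) (by omega) hb (hRb hb1)
    have hdis : Disjoint (msk (lo ZH)) (msk (lo ZL)) := by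
      rw [Set.disjoint_left]
      intro v hv hv'
      have e1 : ((Y ^^^ lo ZL) &&& lo ZL).testBit v = false := by
        rw [(xor_and_disj h8).1]; simp
      have e2 : ((Y ^^^ lo ZL) &&& lo ZH).testBit v = true := by rw [h9]; exact hv
      rw [Nat.testBit_and, mem_msk.mp hv', Bool.and_true] at e1
      rw [Nat.testBit_and, e1] at e2
      simp at e2
    have hij : i ≠ j := by
      rintro rfl
      exact Set.disjoint_left.1 hdis h2 h5
    refine ⟨i, j, hi', hj', hij, h1, h4, ?_⟩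
    refine PF.cons (Y := msk (lo ZH)) (Z := msk (lo ZL)) h3 le_rfl (fun x _ hx => Or.inl hx)
      (msk_subset (by rw [Nat.land_comm]; exact hYH))
      (msk_subset (by rw [Nat.land_comm]; exact h8)) hdis ?_ ?_ h6
    · exact Set.disjoint_left.1 hdis h2
    · intro m hm
      rw [List.mem_singleton] at hm
      subst hm
      exact fun h => Set.disjoint_left.1 hdis h h5

/-! ### References -/

/-- index of a reference -/
noncomputable def ri (r : ℕ) : ℕ := Nat.land r 65535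

/-- direction of a reference -/
noncomputable def rd (r : ℕ) : ℕ := Nat.land (Nat.shiftRight r 32) 255

/-- region and tolerated positions of a child -/
noncomputable def rZ (T r : ℕ) : ℕ :=
  fldp (rd r) (sw4p (Nat.land (Nat.shiftRight r 16) 65535) (tZ T (ri r)))

theorem rZ_ok {D T r : ℕ} (h : GoodP D T (ri r)) (hd : isDir (rd r) = true) :
    ∃ i, i < 5 ∧ GZ D (rZ T r) (2 ^ i) (tN T (ri r)) := by
  obtain ⟨e, he, hr⟩ := isDir_ok hd
  refine ⟨e, he, ?_⟩
  have h1 := GZ.sw4 (s := Nat.land (Nat.shiftRight r 16) 65535) (tZ_lt T (ri r)) h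
  have h2 := GZ.fld he h1.1 h1.2
  unfold rZ
  rw [hr]
  exact h2

/-- evaluation of the argument before the call -/
noncomputable def fB (n : ℕ) (f : ℕ → Bool) : Bool := Nat.rec (f 0) (fun m _ => f (Nat.succ m)) n

theorem fB_eq (n : ℕ) (f : ℕ → Bool) : fB n f = f n := by cases n <;> rfl

/-- is `A` contained in `B` -/
@[reducible] noncomputable def sb (A B : ℕ) : Bool := Nat.beq (Nat.land A B) A

theorem sb_ok {A B x : ℕ} (h : sb A B = true) (hx : A.testBit x = true) : B.testBit x = true := by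
  have h1 : A &&& B = A := Nat.eq_of_beq_eq_true h
  rw [← h1, Nat.testBit_and, Bool.and_eq_true] at hx
  exact hx.2

/-! ### One relevant position -/

/-- end of a pair -/
noncomputable def fin1 (dem : ℕ) (nx : ℕ → ℕ → ℕ → ℕ → Bool) (c t u aH aL : ℕ) : Bool :=
  Bool.rec (motive := fun _ => Bool) (nx t u aH aL)
    (nd (sb dem aH) (nd (bo (Nat.ble t 1) (sb dem aL)) (nx u 0 0 0)))
    (Nat.beq (Nat.land c 1) 1)

/-- one pair -/
noncomputable def stp1 (T lim Y dem k c L H t u aH aL : ℕ) (nx : ℕ → ℕ → ℕ → ℕ → Bool) : Bool :=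
  nd (Nat.ble (Nat.succ (ri H)) lim) (nd (isDir (rd H))
    (fB (rZ T H) fun ZH =>
      Bool.rec (motive := fun _ => Bool)
        (nd (Nat.ble (Nat.succ (ri L)) lim) (nd (isDir (rd L))
          (nd (Nat.ble t (Nat.succ (tN T (ri L))))
          (fB (rZ T L) fun ZL =>
            nd (Nat.beq (Nat.land Y (lo ZL)) (lo ZL))
            (nd (Nat.beq (Nat.land (Nat.xor Y (lo ZL)) (lo ZH)) (lo ZH))
            (fin1 dem nx c t (Nat.add u (Nat.sub (Nat.sub k (tN T (ri H))) u))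
              (Nat.lor aH (hi ZH)) (Nat.lor aL (hi ZL))))))))
        (nd (Nat.ble t 1) (nd (Nat.beq (Nat.land Y (lo ZH)) (lo ZH))
          (fin1 dem nx c t (Nat.add u (Nat.sub (Nat.sub k (tN T (ri H))) u))
            (Nat.lor aH (hi ZH)) aL)))
        (Nat.beq (Nat.land c 2) 2)))

/-- loop over the pairs -/
noncomputable def lp1 (T lim Y dem k f : ℕ) : ℕ → ℕ → ℕ → ℕ → ℕ → Bool :=
  Nat.rec (motive := fun _ => ℕ → ℕ → ℕ → ℕ → ℕ → Bool) (fun _ _ _ _ _ => false)
    (fun _ ih C t u aH aL =>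
      bo (Nat.beq t 0)
        (stp1 T lim Y dem k (Nat.land C 255) (Nat.land (Nat.shiftRight C 8) 1099511627775)
          (Nat.land (Nat.shiftRight C 48) 1099511627775) t u aH aL (ih (Nat.shiftRight C 88)))) f

/-- what the loop proves -/
def Cl1 (Y dem k t u aH aL : ℕ) : Prop := ∀ b < t, ∀ Ra Rb : Finset ℕ, Ra.card + Rb.card ≤ 1 →
  (∀ x ∈ Ra, Y.testBit x = true → dem.testBit x = true) →
  (∀ x ∈ Rb, Y.testBit x = true → dem.testBit x = true) →
  Svd Y k b Ra Rb ∨ (u ≤ b ∧ ((∃ x ∈ Ra, Y.testBit x = true ∧ aH.testBit x = true) ∨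
    (1 ≤ b ∧ ∃ x ∈ Rb, Y.testBit x = true ∧ aL.testBit x = true)))

/-- a pair which serves -/
def Pr1 (Y k t u TH TL : ℕ) : Prop := ∀ b < t, u ≤ b → ∀ Ra Rb : Finset ℕ,
  Ra.card + Rb.card ≤ 1 →
  (∀ x ∈ Ra, Y.testBit x = true → TH.testBit x = true) →
  (1 ≤ b → ∀ x ∈ Rb, Y.testBit x = true → TL.testBit x = true) → Svd Y k b Ra Rb

theorem fin1_ok {Y dem k c t u u0 aH aL TH TL : ℕ} {nx : ℕ → ℕ → ℕ → ℕ → Bool}
    (hnx : ∀ t u aH aL, nx t u aH aL = true → Cl1 Y dem k t u aH aL)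
    (hp : Pr1 Y k t u TH TL) (hu : u0 ≤ u)
    (h : fin1 dem nx c t u (Nat.lor aH TH) (Nat.lor aL TL) = true) :
    Cl1 Y dem k t u0 aH aL := by
  intro b hb Ra Rb hc hRa hRb
  -- one relevant position, covered by the accumulated masks
  have key : u ≤ b → ((∃ x ∈ Ra, Y.testBit x = true ∧ (Nat.lor aH TH).testBit x = true) ∨
      (1 ≤ b ∧ ∃ x ∈ Rb, Y.testBit x = true ∧ (Nat.lor aL TL).testBit x = true)) →
      Svd Y k b Ra Rb ∨ (u0 ≤ b ∧ ((∃ x ∈ Ra, Y.testBit x = true ∧ aH.testBit x = true) ∨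
        (1 ≤ b ∧ ∃ x ∈ Rb, Y.testBit x = true ∧ aL.testBit x = true))) := by
    intro hub hx
    have e1 : ∀ a b : ℕ, Nat.lor a b = a ||| b := fun _ _ => rfl
    rcases hx with ⟨x, hx, hxY, hxa⟩ | ⟨hb1, x, hx, hxY, hxa⟩
    · rw [e1, Nat.testBit_or, Bool.or_eq_true] at hxa
      rcases hxa with hxa | hxa
      · exact Or.inr ⟨by omega, Or.inl ⟨x, hx, hxY, hxa⟩⟩
      · left
        have h1 : 1 ≤ Ra.card := Finset.card_pos.2 ⟨x, hx⟩
        have hRa1 : Ra = {x} := by
          obtain ⟨y, hy⟩ := Finset.card_eq_one.1 (by omega : Ra.card = 1)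
          rw [hy] at hx ⊢
          rw [Finset.mem_singleton.1 hx]
        have hRb0 : Rb = ∅ := Finset.card_eq_zero.1 (by omega)
        refine hp b hb hub Ra Rb hc ?_ ?_
        · intro y hy _
          rw [hRa1, Finset.mem_singleton] at hy
          rw [hy]; exact hxa
        · intro _ y hy
          rw [hRb0] at hy
          simp at hy
    · rw [e1, Nat.testBit_or, Bool.or_eq_true] at hxa
      rcases hxa with hxa | hxa
      · exact Or.inr ⟨by omega, Or.inr ⟨hb1, x, hx, hxY, hxa⟩⟩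
      · left
        have h1 : 1 ≤ Rb.card := Finset.card_pos.2 ⟨x, hx⟩
        have hRb1 : Rb = {x} := by
          obtain ⟨y, hy⟩ := Finset.card_eq_one.1 (by omega : Rb.card = 1)
          rw [hy] at hx ⊢
          rw [Finset.mem_singleton.1 hx]
        have hRa0 : Ra = ∅ := Finset.card_eq_zero.1 (by omega)
        refine hp b hb hub Ra Rb hc ?_ ?_
        · intro y hy
          rw [hRa0] at hy
          simp at hy
        · intro _ y hy _
          rw [hRb1, Finset.mem_singleton] at hy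
          rw [hy]; exact hxa
  unfold fin1 at h
  cases hl : Nat.beq (Nat.land c 1) 1 with
  | false =>
    rw [hl] at h
    rcases hnx _ _ _ _ h b hb Ra Rb hc hRa hRb with h1 | ⟨h1, h2⟩
    · exact Or.inl h1
    · exact key h1 h2
  | true =>
    rw [hl] at h
    rw [nd_iff, nd_iff, Sf.bo_iff] at h
    obtain ⟨h1, h2, h3⟩ := h
    by_cases hbu : b < u
    · rcases hnx _ _ _ _ h3 b hbu Ra Rb hc hRa hRb with h4 | ⟨_, h4⟩
      · exact Or.inl h4
      · rcases h4 with ⟨x, _, _, hx⟩ | ⟨_, x, _, _, hx⟩ <;> simp at hx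
    · by_cases hA : ∃ x ∈ Ra, Y.testBit x = true
      · obtain ⟨x, hx, hxY⟩ := hA
        exact key (by omega) (Or.inl ⟨x, hx, hxY, sb_ok h1 (hRa x hx hxY)⟩)
      · by_cases hB : 1 ≤ b ∧ ∃ x ∈ Rb, Y.testBit x = true
        · obtain ⟨hb1, x, hx, hxY⟩ := hB
          rcases h2 with h2 | h2
          · have : t ≤ 1 := Nat.le_of_ble_eq_true h2
            omega
          · exact key (by omega) (Or.inr ⟨hb1, x, hx, hxY, sb_ok h2 (hRb x hx hxY)⟩)
        · left
          refine hp b hb (by omega) Ra Rb hc ?_ ?_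
          · intro x hx hxY
            exact absurd ⟨x, hx, hxY⟩ hA
          · intro hb1 x hx hxY
            exact absurd ⟨hb1, x, hx, hxY⟩ hB

theorem stp1_ok {T lim Y dem k c L H t u aH aL : ℕ} (hT : ∀ i < lim, GoodP 1 T i)
    {nx : ℕ → ℕ → ℕ → ℕ → Bool}
    (hnx : ∀ t u aH aL, nx t u aH aL = true → Cl1 Y dem k t u aH aL)
    (h : stp1 T lim Y dem k c L H t u aH aL nx = true) : Cl1 Y dem k t u aH aL := by
  unfold stp1 at h
  simp only [nd_iff, fB_eq] at h
  obtain ⟨a1, a2, a3⟩ := h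
  obtain ⟨i, hi', gH⟩ := rZ_ok (hT _ (lt_of_succ_ble a1)) a2
  have eu : Nat.add u (Nat.sub (Nat.sub k (tN T (ri H))) u) = u + (k - tN T (ri H) - u) := rfl
  rw [eu] at a3
  cases hc : Nat.beq (Nat.land c 2) 2 with
  | false =>
    rw [hc] at a3
    simp only [nd_iff] at a3
    obtain ⟨b1, b2, b3, b4, b5, b6⟩ := a3
    obtain ⟨j, hj', gL⟩ := rZ_ok (hT _ (lt_of_succ_ble b1)) b2
    have b3' : t ≤ tN T (ri L) + 1 := Nat.le_of_ble_eq_true b3
    have b4' : Y &&& lo (rZ T L) = lo (rZ T L) := Nat.eq_of_beq_eq_true b4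
    have b5' : (Y ^^^ lo (rZ T L)) &&& lo (rZ T H) = lo (rZ T H) := Nat.eq_of_beq_eq_true b5
    refine fin1_ok hnx ?_ (by omega) b6
    intro b hb hub Ra Rb hcard hRa hRb
    have hYL : ∀ x, (lo (rZ T L)).testBit x = true → Y.testBit x = true := by
      intro x hx
      rw [← b4', Nat.testBit_and, Bool.and_eq_true] at hx
      exact hx.1
    have hYH : ∀ x, (lo (rZ T H)).testBit x = true → Y.testBit x = true := by
      intro x hx
      have e2 : (Y ^^^ lo (rZ T L)) &&& Y = Y ^^^ lo (rZ T L) := (xor_and_disj b4').2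
      rw [← b5', Nat.testBit_and, Bool.and_eq_true, ← e2, Nat.testBit_and, Bool.and_eq_true] at hx
      exact hx.1.2
    exact pair_ok hi' hj' gH gL b4' b5' (by omega) (by omega) (by omega) (by omega)
      (fun x hx hxX => hRa x hx (hYH x hxX)) (fun hb1 x hx hxX => hRb hb1 x hx (hYL x hxX))
  | true =>
    rw [hc] at a3
    simp only [nd_iff] at a3
    obtain ⟨b1, b2, b3⟩ := a3
    have b1' : t ≤ 1 := Nat.le_of_ble_eq_true b1
    have b2' : Y &&& lo (rZ T H) = lo (rZ T H) := Nat.eq_of_beq_eq_true b2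
    have e0 : aL = Nat.lor aL 0 := (Nat.or_zero aL).symm
    rw [e0] at b3
    refine fin1_ok (TL := 0) hnx ?_ (by omega) b3
    intro b hb hub Ra Rb hcard hRa hRb
    have hYH : ∀ x, (lo (rZ T H)).testBit x = true → Y.testBit x = true := by
      intro x hx
      rw [← b2', Nat.testBit_and, Bool.and_eq_true] at hx
      exact hx.1
    exact one_ok hi' gH b2' (by omega) (by omega) (by omega) (fun x hx hxX => hRa x hx (hYH x hxX))

theorem lp1_ok {T lim Y dem k : ℕ} (hT : ∀ i < lim, GoodP 1 T i) : ∀ (f C t u aH aL : ℕ),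
    lp1 T lim Y dem k f C t u aH aL = true → Cl1 Y dem k t u aH aL
  | 0, C, t, u, aH, aL, h => by
    have h' : false = true := h
    exact absurd h' (by simp)
  | f + 1, C, t, u, aH, aL, h => by
    have h' : bo (Nat.beq t 0)
        (stp1 T lim Y dem k (Nat.land C 255) (Nat.land (Nat.shiftRight C 8) 1099511627775)
          (Nat.land (Nat.shiftRight C 48) 1099511627775) t u aH aL
          (lp1 T lim Y dem k f (Nat.shiftRight C 88))) = true := h
    rw [Sf.bo_iff] at h'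
    rcases h' with h' | h'
    · have : t = 0 := Nat.eq_of_beq_eq_true h'
      intro b hb
      omega
    · exact stp1_ok hT (fun t u aH aL => lp1_ok hT f _ t u aH aL) h'

/-- check of the entry `i` with the certificate `C` -/
noncomputable def chkR (T i C : ℕ) : Bool :=
  fB (tZ T i) fun Z =>
    nd (Nat.beq (Nat.land Z 1) 1) (nd (Nat.beq (Nat.land (Nat.shiftRight Z 32) 1) 0)
      (bo (Nat.ble (tN T i) 1)
        (fB (Nat.pred (tN T i)) fun k =>
          lp1 T i (Nat.xor (lo Z) 1) (Nat.land (hi Z) (lo Z)) k 1023 C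
            (Nat.succ (Nat.shiftRight k 1)) 0 0 0)))

theorem lo_bit0 {Z : ℕ} (h : Nat.land Z 1 = 1) : (lo Z).testBit 0 = true := by
  have h1 := testBit_zero_of h
  show (Z &&& 4294967295).testBit 0 = true
  rw [Nat.testBit_and, h1]
  rfl

theorem hi_bit0 {Z : ℕ} (h : Nat.land (Nat.shiftRight Z 32) 1 = 0) : (hi Z).testBit 0 = false :=
  Sf.bit0_of h

theorem chkR_ok {T i C : ℕ} (hT : ∀ j < i, GoodP 1 T j) (h : chkR T i C = true) :
    GoodP 1 T i := by
  unfold chkR at h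
  simp only [fB_eq, nd_iff, Sf.bo_iff] at h
  obtain ⟨h1, h2, h3⟩ := h
  have h1' : Nat.land (tZ T i) 1 = 1 := Nat.eq_of_beq_eq_true h1
  have h2' : Nat.land (Nat.shiftRight (tZ T i) 32) 1 = 0 := Nat.eq_of_beq_eq_true h2
  refine ⟨?_, hi_bit0 h2'⟩
  have hb0 := lo_bit0 h1'
  generalize lo (tZ T i) = X at *
  generalize hi (tZ T i) = E at *
  generalize tN T i = n at *
  intro k R hk hR hRE
  by_cases h5 : n ≤ 1
  · have e : k = 0 := by omega
    subst e
    refine PF.mono (PF.single 0 (R : Set ℕ)) le_rfl (fun x _ hx => Or.inl hx) ?_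
    intro v hv
    rw [Set.mem_singleton_iff] at hv
    rw [hv]; exact hb0
  · rcases h3 with h3 | h3
    · exact absurd (Nat.le_of_ble_eq_true h3) h5
    have h6 := lp1_ok hT _ _ _ _ _ _ h3
    have e2 : Nat.shiftRight (Nat.pred n) 1 = (n - 1) / 2 := rfl
    have e1 : Nat.pred n = n - 1 := rfl
    have e3 : Nat.land E X = E &&& X := rfl
    have e4 : Nat.xor X 1 = X ^^^ 2 ^ 0 := rfl
    rw [e2, e1, e3, e4] at h6
    have hY : ∀ x, (X ^^^ 2 ^ 0).testBit x = true → X.testBit x = true := by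
      intro x hx
      have : x ∈ msk (X ^^^ 2 ^ 0) := hx
      rw [msk_erase hb0] at this
      exact this.1
    have h7 : ∀ b, 2 * b ≤ n - 1 → ∀ Ra Rb : Finset ℕ, Ra ⊆ R → Rb ⊆ R → Disjoint Ra Rb →
        Svd (X ^^^ 2 ^ 0) (n - 1) b Ra Rb := by
      intro b hb Ra Rb hRa hRb hd
      have hcard : Ra.card + Rb.card ≤ 1 := by
        rw [← Finset.card_union_of_disjoint hd]
        exact (Finset.card_le_card (Finset.union_subset hRa hRb)).trans hR
      rcases h6 b (by omega) Ra Rb hcard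
        (fun x hx hxY => by
          rw [Nat.testBit_and, hRE x (hRa hx) (hY x hxY), hY x hxY]; rfl)
        (fun x hx hxY => by
          rw [Nat.testBit_and, hRE x (hRb hx) (hY x hxY), hY x hxY]; rfl) with h8 | ⟨_, h8⟩
      · exact h8
      · rcases h8 with ⟨x, _, _, hx⟩ | ⟨_, x, _, _, hx⟩ <;> simp at hx
    have h9 : PF (ncadj 5) (msk X) [⟨0, n - 1, (R : Set ℕ)⟩] := by
      refine PF.expand (by omega) hb0 (by simp) ?_ ?_
      · obtain ⟨j, hj, h8, h9⟩ := (h7 0 (by omega) R ∅ (Finset.Subset.refl _)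
          (Finset.empty_subset _) (Finset.disjoint_empty_right _)).1 rfl (by omega)
        refine ⟨2 ^ j, ⟨j, hj, by rw [Nat.zero_xor]⟩, by simp, by exact_mod_cast h8, ?_⟩
        rw [← msk_erase hb0]
        exact h9
      · intro b hb hb2 Ra Rb hRa hRb hd
        classical
        obtain ⟨i', j, hi, hj, hij, h8, h9, h10⟩ := (h7 b hb2 (R.filter (· ∈ Ra)) (R.filter (· ∈ Rb))
          (Finset.filter_subset _ _) (Finset.filter_subset _ _) (by
            rw [Finset.disjoint_left]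
            intro x hx hx'
            exact Set.disjoint_left.1 hd (Finset.mem_filter.1 hx).2 (Finset.mem_filter.1 hx').2)).2
              hb (by omega)
        have ea : ((R.filter (· ∈ Ra) : Finset ℕ) : Set ℕ) = Ra := by
          ext x
          simp only [Finset.coe_filter, Set.mem_setOf_eq]
          exact ⟨fun h => h.2, fun h => ⟨by exact_mod_cast hRa h, h⟩⟩
        have eb : ((R.filter (· ∈ Rb) : Finset ℕ) : Set ℕ) = Rb := by
          ext x
          simp only [Finset.coe_filter, Set.mem_setOf_eq]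
          exact ⟨fun h => h.2, fun h => ⟨by exact_mod_cast hRb h, h⟩⟩
        rw [ea, eb] at h10
        have ha' : (2 ^ i' : ℕ) ∉ Ra := by rw [← ea]; exact_mod_cast h8
        have hb' : (2 ^ j : ℕ) ∉ Rb := by rw [← eb]; exact_mod_cast h9
        refine ⟨2 ^ i', 2 ^ j, ⟨i', hi, by rw [Nat.zero_xor]⟩, ⟨j, hj, by rw [Nat.zero_xor]⟩,
          fun e => hij (Nat.pow_right_injective le_rfl e), by simp, ha', hb', ?_⟩
        rw [← msk_erase hb0]
        exact h10
    exact PF.mono h9 (by omega) (fun x _ hx => Or.inl hx) (Set.Subset.refl _)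

/-- check of a list of consecutive entries -/
noncomputable def chkL (T : ℕ) (cs : List ℕ) : ℕ → Bool :=
  List.rec (motive := fun _ => ℕ → Bool) (fun _ => true)
    (fun c _ ih i => nd (chkR T i c) (ih (Nat.succ i))) cs

theorem chkL_ok {T : ℕ} : ∀ (cs : List ℕ) (i : ℕ),
    (∀ j < i, GoodP 1 T j) → chkL T cs i = true → ∀ j < i + cs.length, GoodP 1 T j
  | [], i, hT, _, j, hj => hT j (by simpa using hj)
  | c :: cs, i, hT, h, j, hj => by
    have h' : (nd (chkR T i c) (chkL T cs (Nat.succ i))) = true := h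
    rw [nd_iff] at h'
    refine chkL_ok cs (i + 1) ?_ h'.2 j (by rw [List.length_cons] at hj; omega)
    intro l hl
    rcases Nat.lt_succ_iff_lt_or_eq.mp hl with hl | rfl
    · exact hT l hl
    · exact chkR_ok hT h'.1

end Pt

end Pool.Agent.Work.MP_bf01b2_co.MR
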