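import Pool.Agent.Work.MP_bf01b2_co.MR.PfG

/-!
# Reduction of the position sets to representatives, for labelled trees
-/

set_option autoImplicit false

namespace Pool.Agent.Work.MP_bf01b2_co.MR

namespace Pt

open Tab
open Sf (FULL_lt FULL_flip FULL_swap sum_pos32)

/-- a property of masks which is invariant under automorphisms -/
structure Cl (P : ℕ → Prop) : Prop where
  /-- flips -/
  flip : ∀ i < 5, ∀ S < 2 ^ 32, P S → P (flipM i S)
  /-- exchanges -/
  swap : ∀ i j, i < j → j < 5 → ∀ S < 2 ^ 32, P S → P (swapM i j S)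

section
variable {P : ℕ → Prop}

theorem Cl.sw1 (hP : Cl P) {S v : ℕ} (hv : v < 16) (hS : S < 2 ^ 32) (h : P S) :
    Tab.sw1 v S < 2 ^ 32 ∧ P (Tab.sw1 v S) := by
  by_cases h1 : 1 ≤ v ∧ v ≤ 10
  · obtain ⟨i, j, hij, hj, hs⟩ := sw1_swap v h1.1 h1.2
    rw [hs S]
    exact ⟨Tab.swapM_lt hij hj, hP.swap i j hij hj S hS h⟩
  · rw [sw1_id (by omega) hv hS]
    exact ⟨hS, h⟩

theorem Cl.sw4 (hP : Cl P) {S s : ℕ} (hS : S < 2 ^ 32) (h : P S) :
    Tab.sw4 s S < 2 ^ 32 ∧ P (Tab.sw4 s S) := by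
  have h1 := hP.sw1 (land15_lt s) hS h
  have h2 := hP.sw1 (land15_lt (Nat.shiftRight s 4)) h1.1 h1.2
  have h3 := hP.sw1 (land15_lt (Nat.shiftRight s 8)) h2.1 h2.2
  exact hP.sw1 (land15_lt (Nat.shiftRight s 12)) h3.1 h3.2

theorem Cl.fl1 (hP : Cl P) {S r i : ℕ} (hi : i < 5) (hS : S < 2 ^ 32) (h : P S) :
    Tab.fl1 (lowM i) (2 ^ i) r S < 2 ^ 32 ∧ P (Tab.fl1 (lowM i) (2 ^ i) r S) ∧
      ∀ zs, S = maskL zs → Tab.fl1 (lowM i) (2 ^ i) r S =
        maskL (zs.map fun z => z ^^^ (r &&& 2 ^ i)) := by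
  have e0 : Nat.land r (2 ^ i) = r &&& 2 ^ i := rfl
  rcases and_two_pow_cases r i with h1 | h1
  · have e : Tab.fl1 (lowM i) (2 ^ i) r S = S := by
      unfold Tab.fl1
      rw [e0, h1]
      rfl
    rw [e]
    refine ⟨hS, h, ?_⟩
    intro zs hzs
    rw [h1, hzs]
    congr 1
    conv_lhs => rw [← List.map_id zs]
    refine List.map_congr_left fun z _ => by rw [Nat.xor_zero]; rfl
  · have e : Tab.fl1 (lowM i) (2 ^ i) r S = flipM i S := by
      unfold Tab.fl1
      have h2 : Nat.beq (2 ^ i) 0 = false := by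
        have : 2 ^ i ≠ 0 := by positivity
        cases h3 : Nat.beq (2 ^ i) 0 with
        | false => rfl
        | true => exact absurd (Nat.eq_of_beq_eq_true h3) this
      rw [e0, h1, h2]
      rfl
    rw [e]
    refine ⟨Tab.flipM_lt hi, hP.flip i hi S hS h, ?_⟩
    intro zs hzs
    rw [h1]
    apply Nat.eq_of_testBit_eq
    intro v
    rw [Bool.eq_iff_iff, testBit_maskL]
    have h2 := testBit_flipM hi hS (flipV i v)
    rw [flipV_flipV] at h2
    rw [h2, hzs, testBit_maskL, List.mem_map]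
    constructor
    · intro h3
      exact ⟨_, h3, by
        show flipV i (flipV i v) = v
        exact flipV_flipV i v⟩
    · rintro ⟨z, hz, rfl⟩
      have : flipV i (z ^^^ 2 ^ i) = z := flipV_flipV i z
      rw [this]; exact hz

theorem Cl.tr (hP : Cl P) {S r : ℕ} (hr : r < 32) (hS : S < 2 ^ 32) (h : P S) :
    Tab.tr r S < 2 ^ 32 ∧ P (Tab.tr r S) ∧ ∀ zs, (∀ z ∈ zs, z < 32) → S = maskL zs →
      Tab.tr r S = maskL (zs.map fun z => z ^^^ r) := by
  have h1 := hP.fl1 (i := 0) (r := r) (by norm_num) hS h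
  have h2 := hP.fl1 (i := 1) (r := r) (by norm_num) h1.1 h1.2.1
  have h3 := hP.fl1 (i := 2) (r := r) (by norm_num) h2.1 h2.2.1
  have h4 := hP.fl1 (i := 3) (r := r) (by norm_num) h3.1 h3.2.1
  have h5 := hP.fl1 (i := 4) (r := r) (by norm_num) h4.1 h4.2.1
  refine ⟨h5.1, h5.2.1, ?_⟩
  intro zs hz hzs
  have e := h5.2.2 _ (h4.2.2 _ (h3.2.2 _ (h2.2.2 _ (h1.2.2 zs hzs))))
  rw [List.map_map, List.map_map, List.map_map, List.map_map] at e
  refine e.trans ?_
  congr 1
  refine List.map_congr_left fun z hz' => ?_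
  exact xor_parts r hr z (hz z hz')

theorem Cl.gd (hP : Cl P) {R M : ℕ} (hR : ∀ i < M, P (rep R i)) {zs : List ℕ} {e : ℕ}
    (h : Tab.gd R M zs e = true) : P (maskL zs) := by
  unfold Tab.gd at h
  rw [cj_iff, cj_iff] at h
  obtain ⟨h1, h2, h3⟩ := h
  have h4 := hP.sw4 (s := Nat.land (Nat.shiftRight e 6) 65535) (rep_lt R _)
    (hR _ (lt_of_succ_ble h1))
  have h5 := hP.tr (lt_of_succ_ble h2) h4.1 h4.2
  rw [← Nat.eq_of_beq_eq_true h3]
  exact h5.2.1

theorem Cl.all2 (hP : Cl P) {R M : ℕ} (hR : ∀ i < M, P (rep R i)) {D : List ℕ}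
    (h : Tab.all2 R M D = true) {b : ℕ} (h0 : 0 < b) (hb : b < 32) : P (maskL [0, b]) := by
  obtain ⟨e, he⟩ := lp_ok h b h0 hb
  exact hP.gd hR he

theorem Cl.all3 (hP : Cl P) {R M : ℕ} (hR : ∀ i < M, P (rep R i)) {D : List (List ℕ)}
    (h : Tab.all3 R M D = true) {b c : ℕ} (h0 : 0 < b) (hbc : b < c) (hc : c < 32) :
    P (maskL [0, b, c]) := by
  obtain ⟨D', hD'⟩ := lp_ok h b h0 (by omega)
  obtain ⟨e, he⟩ := lp_ok hD' c hbc hc
  exact hP.gd hR he

theorem Cl.all4 (hP : Cl P) {R M : ℕ} (hR : ∀ i < M, P (rep R i)) {D : List (List (List ℕ))}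
    (h : Tab.all4 R M D = true) {b c d : ℕ} (h0 : 0 < b) (hbc : b < c) (hcd : c < d) (hd : d < 32) :
    P (maskL [0, b, c, d]) := by
  obtain ⟨D', hD'⟩ := lp_ok h b h0 (by omega)
  obtain ⟨D'', hD''⟩ := lp_ok hD' c hbc (by omega)
  obtain ⟨e, he⟩ := lp_ok hD'' d hcd hd
  exact hP.gd hR he

/-- translation to the origin -/
theorem Cl.shift (hP : Cl P) {p : ℕ} (hp : p < 32) {qs : List ℕ} (hq : ∀ q ∈ qs, q < 32)
    (h : P (maskL (0 :: qs.map fun q => q ^^^ p))) : P (maskL (p :: qs)) := by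
  have hz : ∀ z ∈ 0 :: qs.map (fun q => q ^^^ p), z < 32 := by
    intro z hz
    rcases List.mem_cons.mp hz with rfl | hz
    · norm_num
    · obtain ⟨q, hq', rfl⟩ := List.mem_map.mp hz
      exact Nat.xor_lt_two_pow (n := 5) (hq q hq') hp
  obtain ⟨_, h1, h2⟩ := hP.tr hp (maskL_lt hz) h
  have h3 := h2 _ hz rfl
  rw [h3] at h1
  rw [List.map_cons, List.map_map, Nat.zero_xor] at h1
  have h4 : qs.map ((fun z => z ^^^ p) ∘ fun q => q ^^^ p) = qs := by
    conv_rhs => rw [← List.map_id qs]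
    refine List.map_congr_left fun q _ => ?_
    show (q ^^^ p) ^^^ p = q
    rw [Nat.xor_assoc, Nat.xor_self, Nat.xor_zero]
  rwa [h4] at h1

theorem Cl.one (hP : Cl P) (h : P (maskL [0])) {p : ℕ} (hp : p < 32) : P (maskL [p]) :=
  hP.shift (qs := []) hp (by simp) h

theorem Cl.pair (hP : Cl P) (h : ∀ b, 0 < b → b < 32 → P (maskL [0, b])) {p q : ℕ} (hp : p < 32)
    (hq : q < 32) (hpq : q ≠ p) : P (maskL [p, q]) := by
  refine hP.shift (qs := [q]) hp (by simpa using hq) ?_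
  exact h _ (xor_pos hpq) (Nat.xor_lt_two_pow (n := 5) hq hp)

theorem Cl.triple (hP : Cl P) (h : ∀ b c, 0 < b → b < c → c < 32 → P (maskL [0, b, c]))
    {p q r : ℕ} (hp : p < 32) (hq : q < 32) (hr : r < 32) (hpq : q ≠ p) (hpr : r ≠ p)
    (hqr : q ≠ r) : P (maskL [p, q, r]) := by
  refine hP.shift (qs := [q, r]) hp (by
    intro z hz
    simp only [List.mem_cons, List.not_mem_nil, or_false] at hz
    rcases hz with rfl | rfl <;> assumption) ?_
  show P (maskL [0, q ^^^ p, r ^^^ p])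
  have a1 := xor_pos hpq
  have a2 := xor_pos hpr
  have b1 := Nat.xor_lt_two_pow (n := 5) hq hp
  have b2 := Nat.xor_lt_two_pow (n := 5) hr hp
  have c1 := xor_ne (p := p) hqr
  generalize q ^^^ p = x at *
  generalize r ^^^ p = y at *
  rcases lt_or_gt_of_ne c1 with h1 | h1
  · exact h x y a1 h1 b2
  · rw [maskL_congr (zs' := [0, y, x]) (by
      intro z; simp only [List.mem_cons, List.not_mem_nil]; tauto)]
    exact h y x a2 h1 b1

theorem Cl.quad (hP : Cl P)
    (h : ∀ b c d, 0 < b → b < c → c < d → d < 32 → P (maskL [0, b, c, d]))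
    {p q r s : ℕ} (hp : p < 32) (hq : q < 32) (hr : r < 32) (hs : s < 32) (hpq : q ≠ p)
    (hpr : r ≠ p) (hps : s ≠ p) (hqr : q ≠ r) (hqs : q ≠ s) (hrs : r ≠ s) :
    P (maskL [p, q, r, s]) := by
  refine hP.shift (qs := [q, r, s]) hp (by
    intro z hz
    simp only [List.mem_cons, List.not_mem_nil, or_false] at hz
    rcases hz with rfl | rfl | rfl <;> assumption) ?_
  show P (maskL [0, q ^^^ p, r ^^^ p, s ^^^ p])
  have a1 := xor_pos hpq
  have a2 := xor_pos hpr
  have a3 := xor_pos hps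
  have b1 := Nat.xor_lt_two_pow (n := 5) hq hp
  have b2 := Nat.xor_lt_two_pow (n := 5) hr hp
  have b3 := Nat.xor_lt_two_pow (n := 5) hs hp
  have c1 := xor_ne (p := p) hqr
  have c2 := xor_ne (p := p) hqs
  have c3 := xor_ne (p := p) hrs
  generalize q ^^^ p = x at *
  generalize r ^^^ p = y at *
  generalize s ^^^ p = w at *
  rcases lt_or_gt_of_ne c1 with h1 | h1 <;> rcases lt_or_gt_of_ne c2 with h2 | h2 <;>
    rcases lt_or_gt_of_ne c3 with h3 | h3
  · exact h x y w a1 h1 h3 b3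
  · rw [maskL_congr (zs' := [0, x, w, y]) (by
      intro z; simp only [List.mem_cons, List.not_mem_nil]; tauto)]
    exact h x w y a1 h2 h3 b2
  · omega
  · rw [maskL_congr (zs' := [0, w, x, y]) (by
      intro z; simp only [List.mem_cons, List.not_mem_nil]; tauto)]
    exact h w x y a3 h2 h1 b2
  · rw [maskL_congr (zs' := [0, y, x, w]) (by
      intro z; simp only [List.mem_cons, List.not_mem_nil]; tauto)]
    exact h y x w a2 h1 h2 b3
  · omega
  · rw [maskL_congr (zs' := [0, y, w, x]) (by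
      intro z; simp only [List.mem_cons, List.not_mem_nil]; tauto)]
    exact h y w x a2 h3 h2 b1
  · rw [maskL_congr (zs' := [0, w, y, x]) (by
      intro z; simp only [List.mem_cons, List.not_mem_nil]; tauto)]
    exact h w y x a3 h3 h1 b1

end

/-! ### Facts for masks of roots -/

/-- `CP D S N`: all forests with roots at the positions of the mask `S`, of total size at most `N`
and at most `D` relevant positions -/
def CP (D S N : ℕ) : Prop := ∀ k : ℕ → ℕ, (∑ z ∈ pos32 S, (k z + 1)) ≤ N →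
  ∀ R : Finset ℕ, R.card ≤ D → ∀ ms : List (PM ℕ),
    (∀ m, m ∈ ms ↔ S.testBit m.p = true ∧ m = ⟨m.p, k m.p, (R : Set ℕ)⟩) →
      PF (ncadj 5) (msk FULL) ms

theorem map_symm_map (e : ℕ ≃ ℕ) (m : PM ℕ) : PM.map e (PM.map e.symm m) = m := by
  show (⟨e (e.symm m.p), m.k, e '' (e.symm '' m.R)⟩ : PM ℕ) = m
  rw [e.apply_symm_apply, ← Set.image_comp]
  have : (e ∘ e.symm : ℕ → ℕ) = id := by ext x; simp
  rw [this, Set.image_id]

theorem CP.equiv {D S S' N : ℕ} (hS : S < 2 ^ 32) (hS' : S' < 2 ^ 32) (e : ℕ ≃ ℕ)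
    (he : ∀ v, S'.testBit (e v) = S.testBit v)
    (hN : ∀ ms : List (PM ℕ), PF (ncadj 5) (msk FULL) ms →
      PF (ncadj 5) (msk FULL) (ms.map (PM.map e)))
    (h : CP D S N) : CP D S' N := by
  intro k hk R hR ms hms
  have h1 := h (fun z => k (e z)) (by rw [sum_pos32 hS hS' e he (fun z => k z + 1)]; exact hk)
    (R.map e.symm.toEmbedding) (by rw [Finset.card_map]; exact hR) (ms.map (PM.map e.symm)) (by
    intro m
    constructor
    · intro hm
      obtain ⟨m', hm', rfl⟩ := List.mem_map.mp hm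
      obtain ⟨h2, h3⟩ := (hms m').mp hm'
      have e1 : (PM.map e.symm m').p = e.symm m'.p := rfl
      rw [e1, ← he, e.apply_symm_apply]
      refine ⟨h2, ?_⟩
      have h4 : m'.k = k m'.p := congrArg PM.k h3
      have h5 : m'.R = (R : Set ℕ) := congrArg PM.R h3
      show (⟨e.symm m'.p, m'.k, e.symm '' m'.R⟩ : PM ℕ) = ⟨e.symm m'.p, _, _⟩
      rw [h4, h5]
      congr 1
      rw [Finset.coe_map]
      rfl
    · rintro ⟨h2, h3⟩
      refine List.mem_map.mpr ⟨⟨e m.p, k (e m.p), (R : Set ℕ)⟩, (hms _).mpr ⟨?_, rfl⟩, ?_⟩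
      · show S'.testBit (e m.p) = true
        rw [he]; exact h2
      · rw [h3]
        show (⟨e.symm (e m.p), _, _⟩ : PM ℕ) = _
        rw [e.symm_apply_apply]
        congr 1
        rw [Finset.coe_map]
        rfl)
  have h2 := hN _ h1
  rw [List.map_map] at h2
  have h3 : ms.map (PM.map e ∘ PM.map e.symm) = ms := by
    conv_rhs => rw [← List.map_id ms]
    exact List.map_congr_left fun m _ => map_symm_map e m
  rwa [h3] at h2

theorem CP.cl (D N : ℕ) : Cl (fun S => CP D S N) := by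
  refine ⟨?_, ?_⟩
  · intro i hi S hS h
    refine CP.equiv hS (MR.flipM_lt hi hS) (flipE i) (testBit_flipM hi hS) ?_ h
    intro ms hms
    have h1 := PF.map (adj' := ncadj 5) (flipE i) (fun _ _ => ncadj_flip) hms
    rwa [image_msk (flipE i) (Y := FULL) (by
      intro v
      have := testBit_flipM hi FULL_lt v
      rwa [FULL_flip hi] at this)] at h1
  · intro i j hij hj S hS h
    refine CP.equiv hS (MR.swapM_lt hij hj hS) (swapE i j) (testBit_swapM hij hj hS) ?_ h
    intro ms hms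
    have h1 := PF.map (adj' := ncadj 5) (swapE i j)
      (fun _ _ => ncadj_swap (lt_trans hij hj) hj) hms
    rwa [image_msk (swapE i j) (Y := FULL) (by
      intro v
      have := testBit_swapM hij hj FULL_lt v
      rwa [FULL_swap hij hj] at this)] at h1

theorem PF.congr' {X : Set ℕ} {ms ms' : List (PM ℕ)} (h : ∀ m, m ∈ ms ↔ m ∈ ms')
    (hF : PF (ncadj 5) X ms) : PF (ncadj 5) X ms' := by
  have hr : ∀ v, v ∈ rts ms ↔ v ∈ rts ms' := by
    intro v
    constructor
    · rintro ⟨m, hm, e⟩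
      exact ⟨m, (h m).1 hm, e⟩
    · rintro ⟨m, hm, e⟩
      exact ⟨m, (h m).2 hm, e⟩
  exact PF.weak hF hr (fun m hm => ⟨m, (h m).1 hm, rfl, le_rfl, fun x _ hx => Or.inl hx⟩)
    (fun m hm => ⟨m, (h m).2 hm, rfl⟩)

theorem sum_list_mask {zs : List ℕ} (hnd : zs.Nodup) (hz : ∀ z ∈ zs, z < 32) (f : ℕ → ℕ) :
    (zs.map f).sum = ∑ z ∈ pos32 (maskL zs), f z := by
  rw [← List.sum_toFinset _ hnd]
  apply Finset.sum_congr _ (fun _ _ => rfl)
  ext z
  rw [List.mem_toFinset, mem_pos32 (maskL_lt hz), testBit_maskL]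

/-- from lists of positions to masks -/
theorem CP.of_list {D N : ℕ} {zs : List ℕ} (hnd : zs.Nodup) (hz : ∀ z ∈ zs, z < 32)
    (h : CF D zs N) : CP D (maskL zs) N := by
  intro k hk R hR ms hms
  refine PF.congr' ?_ (h k (by rw [sum_list_mask hnd hz]; exact hk) R hR)
  intro m
  rw [hms, mem_mkP, testBit_maskL]

/-- back to lists of positions -/
theorem CP.to_list {D N : ℕ} {zs : List ℕ} (h : CP D (maskL zs) N) (hnd : zs.Nodup)
    (hz : ∀ z ∈ zs, z < 32) : CF D zs N := by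
  intro k hk R hR
  refine h k (by rw [← sum_list_mask hnd hz]; exact hk) R hR _ ?_
  intro m
  rw [mem_mkP, testBit_maskL]

/-- One root. -/
theorem gdP_one {D N s n : ℕ} (h : CF D [0] N) (hn : n ≤ N) : GdP 5 D s [n] := by
  refine gdP_of_CF (N := N) (by simpa using hn) ?_
  intro zs hnd hz hl
  match zs, hl with
  | [p], _ =>
    exact CP.to_list ((CP.cl D N).one (CP.of_list (by simp) (by simp) h) (hz p (by simp))) hnd hz

/-- Two roots. -/
theorem gdP_two {D N s : ℕ} {v : List ℕ} (h : ∀ b, 0 < b → b < 32 → CP D (maskL [0, b]) N)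
    (hl : v.length = 2) (hv : v.sum ≤ N) : GdP 5 D s v := by
  refine gdP_of_CF hv ?_
  intro zs hnd hz hl'
  rw [hl] at hl'
  match zs, hl' with
  | [p, q], _ =>
    refine CP.to_list ((CP.cl D N).pair h (hz p (by simp)) (hz q (by simp)) ?_) hnd hz
    simp only [List.nodup_cons, List.mem_cons, List.not_mem_nil, or_false] at hnd
    exact fun e => hnd.1 e.symm

/-- Three roots. -/
theorem gdP_three {D N s : ℕ} {v : List ℕ}
    (h : ∀ b c, 0 < b → b < c → c < 32 → CP D (maskL [0, b, c]) N)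
    (hl : v.length = 3) (hv : v.sum ≤ N) : GdP 5 D s v := by
  refine gdP_of_CF hv ?_
  intro zs hnd hz hl'
  rw [hl] at hl'
  match zs, hl' with
  | [p, q, r], _ =>
    simp only [List.nodup_cons, List.mem_cons, List.not_mem_nil, or_false, not_or] at hnd
    refine CP.to_list ((CP.cl D N).triple h (hz p (by simp)) (hz q (by simp)) (hz r (by simp))
      (fun e => hnd.1.1 e.symm) (fun e => hnd.1.2 e.symm) hnd.2.1) (by
        simp only [List.nodup_cons, List.mem_cons, List.not_mem_nil, or_false, not_or]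
        exact hnd) hz

/-- Four roots. -/
theorem gdP_four {D N s : ℕ} {v : List ℕ}
    (h : ∀ b c d, 0 < b → b < c → c < d → d < 32 → CP D (maskL [0, b, c, d]) N)
    (hl : v.length = 4) (hv : v.sum ≤ N) : GdP 5 D s v := by
  refine gdP_of_CF hv ?_
  intro zs hnd hz hl'
  rw [hl] at hl'
  match zs, hl' with
  | [p, q, r, t], _ =>
    simp only [List.nodup_cons, List.mem_cons, List.not_mem_nil, or_false, not_or] at hnd
    refine CP.to_list ((CP.cl D N).quad h (hz p (by simp)) (hz q (by simp)) (hz r (by simp))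
      (hz t (by simp)) (fun e => hnd.1.1 e.symm) (fun e => hnd.1.2.1 e.symm)
      (fun e => hnd.1.2.2 e.symm) hnd.2.1.1 hnd.2.1.2 hnd.2.2.1) (by
        simp only [List.nodup_cons, List.mem_cons, List.not_mem_nil, or_false, not_or]
        exact hnd) hz

end Pt

end Pool.Agent.Work.MP_bf01b2_co.MR
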