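import Pool.Agent.Work.MP_bf01b2_co.MR.PfM
import Pool.Agent.Work.MP_bf01b2_co.MR.B5SfC

/-!
# Kernel checker for tables of tolerance facts on `Q_5` (one soft position)

The table is a natural number `T`; entry `i` occupies 72 bits: the region `X` (32 bits, it contains the
vertex `0`), the tolerated positions (32 bits, all positions outside of `X` and some inside), a size
bound `n` (8 bits). Region and tolerated positions are moved together as one number of 64 bits.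
-/

set_option autoImplicit false

namespace Pool.Agent.Work.MP_bf01b2_co.MR

namespace Pt

open Tab

/-! ### Two lanes -/

/-- region and tolerated positions -/
def pk (X T : ℕ) : ℕ := X ||| T <<< 32

theorem pk_tb {X T : ℕ} (hX : X < 2 ^ 32) (i : ℕ) :
    (pk X T).testBit i = if i < 32 then X.testBit i else T.testBit (i - 32) := by
  unfold pk
  rw [Nat.testBit_or, Nat.testBit_shiftLeft]
  split_ifs with h
  · have : ¬ (32 ≤ i) := by omega
    simp [this]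
  · have h1 : X.testBit i = false := testBit_ge hX (by omega)
    simp [h1, show 32 ≤ i by omega]

theorem pk_and (X T F G : ℕ) (hX : X < 2 ^ 32) (hF : F < 2 ^ 32) :
    pk X T &&& pk F G = pk (X &&& F) (T &&& G) := by
  apply Nat.eq_of_testBit_eq
  intro i
  rw [Nat.testBit_and, pk_tb hX, pk_tb hF, pk_tb (and_lt hF)]
  split_ifs <;> rw [Nat.testBit_and]

theorem pk_or (X T F G : ℕ) : pk X T ||| pk F G = pk (X ||| F) (T ||| G) := by
  unfold pk
  rw [Nat.shiftLeft_or_distrib]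
  generalize T <<< 32 = a
  generalize G <<< 32 = b
  ac_rfl

theorem pk_shl (X T s : ℕ) : pk X T <<< s = pk (X <<< s) (T <<< s) := by
  unfold pk
  rw [Nat.shiftLeft_or_distrib, ← Nat.shiftLeft_add, ← Nat.shiftLeft_add, Nat.add_comm]

theorem pk_shr {X T s N : ℕ} (hX : X < 2 ^ 32) (hN : N < 2 ^ 32) (hs : N <<< s < 2 ^ 32) :
    (pk X T >>> s) &&& pk N N = pk ((X >>> s) &&& N) ((T >>> s) &&& N) := by
  apply Nat.eq_of_testBit_eq
  intro i
  rw [Nat.testBit_and, Nat.testBit_shiftRight, pk_tb hX, pk_tb hN, pk_tb (and_lt hN)]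
  by_cases hi : i < 32
  · rw [if_pos hi, if_pos hi, Nat.testBit_and, Nat.testBit_shiftRight]
    by_cases h2 : s + i < 32
    · rw [if_pos h2]
    · rw [if_neg h2]
      have h3 : N.testBit i = false := by
        have h4 := testBit_ge hs (show 32 ≤ s + i by omega)
        rw [Nat.testBit_shiftLeft] at h4
        have h5 : decide (s + i ≥ s) = true := by simp
        rw [h5, Bool.true_and, Nat.add_sub_cancel_left] at h4
        exact h4
      rw [h3, Bool.and_false, Bool.and_false]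
  · rw [if_neg hi, if_neg hi, if_neg (show ¬ s + i < 32 by omega), Nat.testBit_and,
      Nat.testBit_shiftRight, show s + i - 32 = s + (i - 32) by omega]

theorem pk_lo {X T : ℕ} (hX : X < 2 ^ 32) : Nat.land (pk X T) 4294967295 = X := by
  apply Nat.eq_of_testBit_eq
  intro i
  show (pk X T &&& 4294967295).testBit i = _
  rw [show (4294967295 : ℕ) = 2 ^ 32 - 1 by norm_num, Nat.testBit_and, pk_tb hX,
    Nat.testBit_two_pow_sub_one]
  split_ifs with h
  · simp [h]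
  · simp [h, testBit_ge hX (show 32 ≤ i by omega)]

theorem pk_hi {X T : ℕ} (hX : X < 2 ^ 32) : Nat.shiftRight (pk X T) 32 = T := by
  apply Nat.eq_of_testBit_eq
  intro i
  show (pk X T >>> 32).testBit i = _
  rw [Nat.testBit_shiftRight, pk_tb hX]
  simp

/-- the exchange of a pair -/
theorem pk_swap {X T F N s : ℕ} (hX : X < 2 ^ 32) (hF : F < 2 ^ 32) (hN : N < 2 ^ 32)
    (hs : N <<< s < 2 ^ 32) :
    (pk X T &&& pk F F) ||| ((pk X T &&& pk N N) <<< s) ||| ((pk X T >>> s) &&& pk N N) =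
      pk ((X &&& F) ||| ((X &&& N) <<< s) ||| ((X >>> s) &&& N))
        ((T &&& F) ||| ((T &&& N) <<< s) ||| ((T >>> s) &&& N)) := by
  rw [pk_and X T F F hX hF, pk_and X T N N hX hN, pk_shl, pk_shr hX hN hs, pk_or, pk_or]

theorem pk_flip {X T N s : ℕ} (hX : X < 2 ^ 32) (hN : N < 2 ^ 32) (hs : N <<< s < 2 ^ 32) :
    ((pk X T >>> s) &&& pk N N) ||| ((pk X T &&& pk N N) <<< s) =
      pk (((X >>> s) &&& N) ||| ((X &&& N) <<< s)) (((T >>> s) &&& N) ||| ((T &&& N) <<< s)) := by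
  rw [pk_shr hX hN hs, pk_and X T N N hX hN, pk_shl, pk_or]

/-! ### Exchanges -/

/-- masks of the fixed vertices, 64 bits for every nibble -/
def FIX2 : ℕ := 0xffffffffffffffffffffffffffffffffffffffffffffffffffffffffffffffffffffffffffffffffff0000ffff0000fff0f00f0ff0f00f0ff00ff00ff00ff00fcccc3333cccc3333cc33cc33cc33cc33c3c3c3c3c3c3c3c3aaaa5555aaaa5555aa55aa55aa55aa55a5a5a5a5a5a5a5a59999999999999999ffffffffffffffff

/-- masks of the vertices moved up -/
def TEN2 : ℕ := 0xff000000ff000000f0f00000f0f000f000f000f000f00000cccc0000cccc00cc00cc00cc00cc0c0c0c0c0c0c0c0c0000aaaa0000aaaa00aa00aa00aa00aa0a0a0a0a0a0a0a0a22222222222222220000000000000000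

/-- `2 ^ 64 - 1` -/
def M64 : ℕ := 18446744073709551615

/-- the exchange number `v` -/
noncomputable def swp (v Z : ℕ) : ℕ :=
  Bool.rec (Nat.lor
      (Nat.lor (Nat.land Z (Nat.land (Nat.shiftRight FIX2 (Nat.mul 64 v)) M64))
        (Nat.shiftLeft (Nat.land Z (Nat.land (Nat.shiftRight TEN2 (Nat.mul 64 v)) M64))
          (Nat.land (Nat.shiftRight SHT (Nat.mul 4 v)) 15)))
      (Nat.land (Nat.shiftRight Z (Nat.land (Nat.shiftRight SHT (Nat.mul 4 v)) 15))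
        (Nat.land (Nat.shiftRight TEN2 (Nat.mul 64 v)) M64))) Z (Nat.beq v 0)

theorem masks_ok : ∀ v < 16,
    Nat.land (Nat.shiftRight FIX2 (Nat.mul 64 v)) M64 =
      pk (Nat.land (Nat.shiftRight FIXT (Nat.mul 32 v)) 4294967295)
        (Nat.land (Nat.shiftRight FIXT (Nat.mul 32 v)) 4294967295) ∧
    Nat.land (Nat.shiftRight TEN2 (Nat.mul 64 v)) M64 =
      pk (Nat.land (Nat.shiftRight TENT (Nat.mul 32 v)) 4294967295)
        (Nat.land (Nat.shiftRight TENT (Nat.mul 32 v)) 4294967295) ∧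
    Nat.land (Nat.shiftRight FIXT (Nat.mul 32 v)) 4294967295 < 2 ^ 32 ∧
    Nat.land (Nat.shiftRight TENT (Nat.mul 32 v)) 4294967295 < 2 ^ 32 ∧
    (Nat.land (Nat.shiftRight TENT (Nat.mul 32 v)) 4294967295) <<<
      (Nat.land (Nat.shiftRight SHT (Nat.mul 4 v)) 15) < 2 ^ 32 := by
  decide +kernel

theorem swp_pk {v X T : ℕ} (hv : v < 16) (hX : X < 2 ^ 32) :
    swp v (pk X T) = pk (sw1 v X) (sw1 v T) := by
  obtain ⟨h1, h2, h3, h4, h5⟩ := masks_ok v hv
  unfold swp sw1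
  rw [h1, h2]
  cases Nat.beq v 0
  · exact pk_swap hX h3 h4 h5
  · rfl

/-- four exchanges -/
noncomputable def sw4p (s Z : ℕ) : ℕ :=
  swp (Nat.land (Nat.shiftRight s 12) 15)
    (swp (Nat.land (Nat.shiftRight s 8) 15)
      (swp (Nat.land (Nat.shiftRight s 4) 15) (swp (Nat.land s 15) Z)))

theorem sw1_lt {v X : ℕ} (hv : v < 16) (hX : X < 2 ^ 32) : sw1 v X < 2 ^ 32 := by
  by_cases h1 : 1 ≤ v ∧ v ≤ 10
  · obtain ⟨i, j, hij, hj, hs⟩ := sw1_swap v h1.1 h1.2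
    rw [hs X]
    exact Tab.swapM_lt hij hj
  · rw [sw1_id (by omega) hv hX]
    exact hX

theorem sw4p_pk {s X T : ℕ} (hX : X < 2 ^ 32) : sw4p s (pk X T) = pk (sw4 s X) (sw4 s T) := by
  unfold sw4p sw4
  have h1 := sw1_lt (land15_lt s) hX
  have h2 := sw1_lt (land15_lt (Nat.shiftRight s 4)) h1
  have h3 := sw1_lt (land15_lt (Nat.shiftRight s 8)) h2
  rw [swp_pk (land15_lt _) hX, swp_pk (land15_lt _) h1, swp_pk (land15_lt _) h2,
    swp_pk (land15_lt _) h3]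

/-! ### Flips -/

/-- flip in the direction `s = 2 ^ i` -/
def fldp (s Z : ℕ) : ℕ :=
  Nat.lor (Nat.land (Nat.shiftRight Z s) (Nat.div M64 (Nat.succ (Nat.pow 2 s))))
    (Nat.shiftLeft (Nat.land Z (Nat.div M64 (Nat.succ (Nat.pow 2 s)))) s)

theorem lowp_ok : ∀ i < 5, Nat.div M64 (Nat.succ (Nat.pow 2 (2 ^ i))) = pk (lowM i) (lowM i) ∧
    lowM i < 2 ^ 32 ∧ (lowM i) <<< (2 ^ i) < 2 ^ 32 := by decide +kernel

theorem fldp_pk {i X T : ℕ} (hi : i < 5) (hX : X < 2 ^ 32) :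
    fldp (2 ^ i) (pk X T) = pk (flipM i X) (flipM i T) := by
  obtain ⟨h1, h2, h3⟩ := lowp_ok i hi
  unfold fldp
  rw [h1]
  exact pk_flip hX h2 h3

/-- conditional flip -/
noncomputable def fl1p (m s r Z : ℕ) : ℕ :=
  Bool.rec (Nat.lor (Nat.land (Nat.shiftRight Z s) m) (Nat.shiftLeft (Nat.land Z m) s)) Z
    (Nat.beq (Nat.land r s) 0)

theorem fl1p_pk {i r X T : ℕ} (hi : i < 5) (hX : X < 2 ^ 32) :
    fl1p (pk (lowM i) (lowM i)) (2 ^ i) r (pk X T) =
      pk (fl1 (lowM i) (2 ^ i) r X) (fl1 (lowM i) (2 ^ i) r T) := by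
  obtain ⟨h1, h2, h3⟩ := lowp_ok i hi
  unfold fl1p fl1
  cases Nat.beq (Nat.land r (2 ^ i)) 0
  · exact pk_flip hX h2 h3
  · rfl

/-- translation by `r` -/
noncomputable def trp (r Z : ℕ) : ℕ :=
  fl1p 0x0000FFFF0000FFFF 16 r (fl1p 0x00FF00FF00FF00FF 8 r (fl1p 0x0F0F0F0F0F0F0F0F 4 r
    (fl1p 0x3333333333333333 2 r (fl1p 0x5555555555555555 1 r Z))))

theorem fl1_lt {i r X : ℕ} (hi : i < 5) (hX : X < 2 ^ 32) :
    fl1 (lowM i) (2 ^ i) r X < 2 ^ 32 := (Sf.fl1_tb (v := 0) hi hX).1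

theorem trp_pk {r X T : ℕ} (hX : X < 2 ^ 32) : trp r (pk X T) = pk (tr r X) (tr r T) := by
  have e0 := fl1p_pk (r := r) (T := T) (show 0 < 5 by norm_num) hX
  have l0 := fl1_lt (r := r) (show 0 < 5 by norm_num) hX
  have e1 := fl1p_pk (r := r) (T := fl1 (lowM 0) (2 ^ 0) r T) (show 1 < 5 by norm_num) l0
  have l1 := fl1_lt (r := r) (show 1 < 5 by norm_num) l0
  have e2 := fl1p_pk (r := r) (T := fl1 (lowM 1) (2 ^ 1) r (fl1 (lowM 0) (2 ^ 0) r T))
    (show 2 < 5 by norm_num) l1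
  have l2 := fl1_lt (r := r) (show 2 < 5 by norm_num) l1
  have e3 := fl1p_pk (r := r) (T := fl1 (lowM 2) (2 ^ 2) r (fl1 (lowM 1) (2 ^ 1) r
    (fl1 (lowM 0) (2 ^ 0) r T))) (show 3 < 5 by norm_num) l2
  have l3 := fl1_lt (r := r) (show 3 < 5 by norm_num) l2
  have e4 := fl1p_pk (r := r) (T := fl1 (lowM 3) (2 ^ 3) r (fl1 (lowM 2) (2 ^ 2) r
    (fl1 (lowM 1) (2 ^ 1) r (fl1 (lowM 0) (2 ^ 0) r T)))) (show 4 < 5 by norm_num) l3
  rw [← e0] at e1
  rw [← e1] at e2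
  rw [← e2] at e3
  rw [← e3] at e4
  exact e4

/-! ### Entries -/

/-- `2 ^ 2304 - 1` -/
def MB2 : ℕ := nat_lit 0xffffffffffffffffffffffffffffffffffffffffffffffffffffffffffffffffffffffffffffffffffffffffffffffffffffffffffffffffffffffffffffffffffffffffffffffffffffffffffffffffffffffffffffffffffffffffffffffffffffffffffffffffffffffffffffffffffffffffffffffffffffffffffffffffffffffffffffffffffffffffffffffffffffffffffffffffffffffffffffffffffffffffffffffffffffffffffffffffffffffffffffffffffffffffffffffffffffffffffffffffffffffffffffffffffffffffffffffffffffffffffffffffffffffffffffffffffffffffffffffffffffffffffffffffffffffffffffffffffffffffffffffffffffffffffffffffffffffffffffffffffffffffffffffff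

/-- block number `b` of the table (32 entries) -/
def blk (T b : ℕ) : ℕ := Nat.land (Nat.shiftRight T (Nat.mul 2304 b)) MB2

/-- region and tolerated positions of the entry `i` -/
noncomputable def tZ (T i : ℕ) : ℕ :=
  Nat.land (Nat.shiftRight (fN (Nat.shiftRight i 5) (blk T)) (Nat.mul 72 (Nat.land i 31))) M64

/-- size bound of the entry `i` -/
noncomputable def tN (T i : ℕ) : ℕ :=
  Nat.land (Nat.shiftRight (fN (Nat.shiftRight i 5) (blk T))
    (Nat.add (Nat.mul 72 (Nat.land i 31)) 64)) 255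

/-- region of a pair -/
def lo (Z : ℕ) : ℕ := Nat.land Z 4294967295

/-- tolerated positions of a pair -/
def hi (Z : ℕ) : ℕ := Nat.shiftRight Z 32

theorem lo_lt (Z : ℕ) : lo Z < 2 ^ 32 := by
  have h : Nat.land Z 4294967295 ≤ 4294967295 := Nat.and_le_right
  unfold lo
  omega

theorem hi_lt {Z : ℕ} (h : Z < 2 ^ 64) : hi Z < 2 ^ 32 := by
  show Z >>> 32 < 2 ^ 32
  rw [Nat.shiftRight_eq_div_pow]
  exact Nat.div_lt_of_lt_mul (by omega)

theorem pk_lohi (Z : ℕ) : pk (lo Z) (hi Z) = Z := by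
  apply Nat.eq_of_testBit_eq
  intro i
  rw [pk_tb (lo_lt Z)]
  unfold lo hi
  split_ifs with h
  · show (Z &&& 4294967295).testBit i = _
    rw [show (4294967295 : ℕ) = 2 ^ 32 - 1 by norm_num, Nat.testBit_and,
      Nat.testBit_two_pow_sub_one]
    simp [h]
  · show (Z >>> 32).testBit (i - 32) = _
    rw [Nat.testBit_shiftRight, show 32 + (i - 32) = i by omega]

theorem tZ_lt (T i : ℕ) : tZ T i < 2 ^ 64 := by
  unfold tZ
  have h : Nat.land (Nat.shiftRight (fN (Nat.shiftRight i 5) (blk T))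
    (Nat.mul 72 (Nat.land i 31))) M64 ≤ M64 := Nat.and_le_right
  have : M64 = 18446744073709551615 := rfl
  omega

/-- the number `Z` (region, tolerated positions) is good for the root `p` and the size `n` -/
def GZ (D Z p n : ℕ) : Prop := Tl D (lo Z) (hi Z) p n ∧ (hi Z).testBit p = false

/-- the entry `i` is true -/
def GoodP (D T i : ℕ) : Prop := GZ D (tZ T i) 0 (tN T i)

/-! ### Images -/

theorem GZ.swp {D Z n v : ℕ} (hv : v < 16) (hZ : Z < 2 ^ 64) (h : GZ D Z 0 n) :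
    Pt.swp v Z < 2 ^ 64 ∧ GZ D (Pt.swp v Z) 0 n := by
  obtain ⟨h1, h2⟩ := h
  have hl := lo_lt Z
  have hh := hi_lt hZ
  have e : Pt.swp v Z = pk (sw1 v (lo Z)) (sw1 v (hi Z)) := by
    rw [← swp_pk hv hl, pk_lohi]
  have l1 := sw1_lt hv hl
  have l2 := sw1_lt hv hh
  have b1 : Pt.swp v Z < 2 ^ 64 := by
    rw [e]
    unfold pk
    have : sw1 v (hi Z) <<< 32 < 2 ^ 64 := by
      rw [Nat.shiftLeft_eq]
      calc sw1 v (hi Z) * 2 ^ 32 < 2 ^ 32 * 2 ^ 32 := by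
            exact Nat.mul_lt_mul_of_pos_right l2 (by norm_num)
        _ = 2 ^ 64 := by norm_num
    exact Nat.or_lt_two_pow (by omega) this
  have e1 : lo (Pt.swp v Z) = sw1 v (lo Z) := by rw [e]; exact pk_lo l1
  have e2 : hi (Pt.swp v Z) = sw1 v (hi Z) := by rw [e]; exact pk_hi l1
  refine ⟨b1, ?_⟩
  unfold GZ
  rw [e1, e2]
  by_cases hc : 1 ≤ v ∧ v ≤ 10
  · obtain ⟨i, j, hij, hj, hs⟩ := sw1_swap v hc.1 hc.2
    rw [hs, hs]
    have h3 := Tl.swap hij hj hl hh h1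
    rw [swapV_zero] at h3
    refine ⟨h3, ?_⟩
    have h4 := testBit_swapM hij hj hh 0
    rw [swapV_zero] at h4
    rw [h4]
    exact h2
  · rw [sw1_id (by omega) hv hl, sw1_id (by omega) hv hh]
    exact ⟨h1, h2⟩

theorem GZ.sw4 {D Z n s : ℕ} (hZ : Z < 2 ^ 64) (h : GZ D Z 0 n) :
    sw4p s Z < 2 ^ 64 ∧ GZ D (sw4p s Z) 0 n := by
  have h1 := GZ.swp (land15_lt s) hZ h
  have h2 := GZ.swp (land15_lt (Nat.shiftRight s 4)) h1.1 h1.2
  have h3 := GZ.swp (land15_lt (Nat.shiftRight s 8)) h2.1 h2.2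
  exact GZ.swp (land15_lt (Nat.shiftRight s 12)) h3.1 h3.2

theorem GZ.fld {D Z n i : ℕ} (hi' : i < 5) (hZ : Z < 2 ^ 64) (h : GZ D Z 0 n) :
    GZ D (fldp (2 ^ i) Z) (2 ^ i) n := by
  obtain ⟨h1, h2⟩ := h
  have hl := lo_lt Z
  have hh := hi_lt hZ
  have e : fldp (2 ^ i) Z = pk (flipM i (lo Z)) (flipM i (hi Z)) := by
    rw [← fldp_pk hi' hl, pk_lohi]
  have l1 : flipM i (lo Z) < 2 ^ 32 := Tab.flipM_lt hi'
  have e1 : lo (fldp (2 ^ i) Z) = flipM i (lo Z) := by rw [e]; exact pk_lo l1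
  have e2 : hi (fldp (2 ^ i) Z) = flipM i (hi Z) := by rw [e]; exact pk_hi l1
  have h8 : flipV i 0 = 2 ^ i := by simp [flipV]
  unfold GZ
  rw [e1, e2]
  have h3 := Tl.flip hi' hl hh h1
  rw [h8] at h3
  refine ⟨h3, ?_⟩
  have h4 := testBit_flipM hi' hh 0
  rw [h8] at h4
  rw [h4]
  exact h2

theorem GZ.fl1 {D Z n p i r : ℕ} (hi' : i < 5) (hZ : Z < 2 ^ 64) (h : GZ D Z p n) :
    fl1p (pk (lowM i) (lowM i)) (2 ^ i) r Z < 2 ^ 64 ∧
      GZ D (fl1p (pk (lowM i) (lowM i)) (2 ^ i) r Z) (p ^^^ (r &&& 2 ^ i)) n := by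
  obtain ⟨h1, h2⟩ := h
  have hl := lo_lt Z
  have hh := hi_lt hZ
  have e : fl1p (pk (lowM i) (lowM i)) (2 ^ i) r Z =
      pk (Tab.fl1 (lowM i) (2 ^ i) r (lo Z)) (Tab.fl1 (lowM i) (2 ^ i) r (hi Z)) := by
    rw [← fl1p_pk hi' hl, pk_lohi]
  have l1 := fl1_lt (r := r) hi' hl
  have l2 := fl1_lt (r := r) hi' hh
  have b1 : fl1p (pk (lowM i) (lowM i)) (2 ^ i) r Z < 2 ^ 64 := by
    rw [e]
    unfold pk
    have : Tab.fl1 (lowM i) (2 ^ i) r (hi Z) <<< 32 < 2 ^ 64 := by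
      rw [Nat.shiftLeft_eq]
      calc Tab.fl1 (lowM i) (2 ^ i) r (hi Z) * 2 ^ 32 < 2 ^ 32 * 2 ^ 32 := by
            exact Nat.mul_lt_mul_of_pos_right l2 (by norm_num)
        _ = 2 ^ 64 := by norm_num
    exact Nat.or_lt_two_pow (by omega) this
  have e1 : lo (fl1p (pk (lowM i) (lowM i)) (2 ^ i) r Z) = Tab.fl1 (lowM i) (2 ^ i) r (lo Z) := by
    rw [e]; exact pk_lo l1
  have e2 : hi (fl1p (pk (lowM i) (lowM i)) (2 ^ i) r Z) = Tab.fl1 (lowM i) (2 ^ i) r (hi Z) := by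
    rw [e]; exact pk_hi l1
  refine ⟨b1, ?_⟩
  unfold GZ
  rw [e1, e2]
  have e0 : Nat.land r (2 ^ i) = r &&& 2 ^ i := rfl
  rcases and_two_pow_cases r i with h3 | h3
  · have e3 : ∀ X, Tab.fl1 (lowM i) (2 ^ i) r X = X := by
      intro X
      unfold Tab.fl1
      rw [e0, h3]
      rfl
    rw [e3, e3, h3, Nat.xor_zero]
    exact ⟨h1, h2⟩
  · have e3 : ∀ X, Tab.fl1 (lowM i) (2 ^ i) r X = flipM i X := by
      intro X
      unfold Tab.fl1
      have h4 : Nat.beq (2 ^ i) 0 = false := by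
        have : 2 ^ i ≠ 0 := by positivity
        cases h5 : Nat.beq (2 ^ i) 0 with
        | false => rfl
        | true => exact absurd (Nat.eq_of_beq_eq_true h5) this
      rw [e0, h3, h4]
      rfl
    rw [e3, e3, h3]
    have h4 := Tl.flip hi' hl hh h1
    refine ⟨h4, ?_⟩
    have h5 := testBit_flipM hi' hh p
    show (flipM i (hi Z)).testBit (flipV i p) = false
    rw [h5]
    exact h2

theorem xor_parts0 : ∀ r < 32, 0 ^^^ (r &&& 2 ^ 0) ^^^ (r &&& 2 ^ 1) ^^^ (r &&& 2 ^ 2) ^^^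
    (r &&& 2 ^ 3) ^^^ (r &&& 2 ^ 4) = r := by decide +kernel

theorem GZ.tr {D Z n r : ℕ} (hr : r < 32) (hZ : Z < 2 ^ 64) (h : GZ D Z 0 n) :
    GZ D (trp r Z) r n := by
  have h1 := GZ.fl1 (i := 0) (r := r) (by norm_num) hZ h
  have h2 := GZ.fl1 (i := 1) (r := r) (by norm_num) h1.1 h1.2
  have h3 := GZ.fl1 (i := 2) (r := r) (by norm_num) h2.1 h2.2
  have h4 := GZ.fl1 (i := 3) (r := r) (by norm_num) h3.1 h3.2
  have h5 := GZ.fl1 (i := 4) (r := r) (by norm_num) h4.1 h4.2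
  have h6 := h5.2
  rw [xor_parts0 r hr] at h6
  exact h6

end Pt

end Pool.Agent.Work.MP_bf01b2_co.MR
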