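import Pool.Agent.Work.MP_bf01b2_co.MR.PfRed

/-!
# Exceptional size vectors: expansion of one root

The fact for the roots `p :: zs'` and the sizes `n :: ns'` is reduced to covers by three or more
regions: the two children of `p` (at neighbours of `p`) and the other roots.
-/

set_option autoImplicit false

namespace Pool.Agent.Work.MP_bf01b2_co.MR

namespace Pt

open Tab
open Sf (bo)

/-- region of a reference (32 bits: index, exchanges) with root `z` -/
noncomputable def zI (T z D : ℕ) : ℕ :=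
  trp z (sw4p (Nat.land (Nat.shiftRight D 16) 65535) (tZ T (ri D)))

theorem zI_ok {d T z D : ℕ} (h : GoodP d T (ri D)) (hz : z < 32) :
    GZ d (zI T z D) z (tN T (ri D)) := by
  have h1 := GZ.sw4 (s := Nat.land (Nat.shiftRight D 16) 65535) (tZ_lt T (ri D)) h
  exact GZ.tr hz h1.1 h1.2

/-- the regions of the other roots -/
noncomputable def oth (T M : ℕ) (zs : List ℕ) : List ℕ → ℕ → ℕ → ℕ → (ℕ → Bool) → Bool :=
  List.rec (motive := fun _ => List ℕ → ℕ → ℕ → ℕ → (ℕ → Bool) → Bool)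
    (fun _ _ _ t nx => nx t)
    (fun z _ ih ns D X t nx => List.rec (motive := fun _ => Bool) false
      (fun n ns' _ => fB (zI T z D) fun Z =>
        nd (Nat.ble (Nat.succ (ri D)) M) (nd (Nat.ble n (tN T (ri D)))
          (nd (Nat.beq (Nat.land X (lo Z)) (lo Z))
            (ih ns' (Nat.shiftRight D 32) (Nat.xor X (lo Z)) (Nat.land t (hi Z)) nx)))) ns) zs

theorem oth_ok {d T M : ℕ} (hT : ∀ i < M, GoodP d T i) : ∀ (zs ns : List ℕ) (D X t : ℕ)
    (nx : ℕ → Bool), (∀ z ∈ zs, z < 32) → oth T M zs ns D X t nx = true →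
      ∃ T', GP d X zs ns T' ∧ nx (t &&& T') = true
  | [], ns, D, X, t, nx, _, h => by
    refine ⟨t, fun k _ R _ _ => PF.nil _, ?_⟩
    rw [Nat.and_self]
    exact h
  | z :: zs, [], D, X, t, nx, _, h => by
    have h' : false = true := h
    exact absurd h' (by simp)
  | z :: zs, n :: ns, D, X, t, nx, hz, h => by
    have h' : fB (zI T z D) (fun Z =>
        nd (Nat.ble (Nat.succ (ri D)) M) (nd (Nat.ble n (tN T (ri D)))
          (nd (Nat.beq (Nat.land X (lo Z)) (lo Z))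
            (oth T M zs ns (Nat.shiftRight D 32) (Nat.xor X (lo Z)) (Nat.land t (hi Z)) nx)))) =
              true := h
    rw [fB_eq, nd_iff, nd_iff, nd_iff] at h'
    obtain ⟨a1, a2, a3, a4⟩ := h'
    have g := zI_ok (hT _ (lt_of_succ_ble a1)) (hz z List.mem_cons_self)
    have b2 : n ≤ tN T (ri D) := Nat.le_of_ble_eq_true a2
    have b3 : X &&& lo (zI T z D) = lo (zI T z D) := Nat.eq_of_beq_eq_true a3
    obtain ⟨T', h1, h2⟩ := oth_ok hT zs ns _ _ _ nx
      (fun y hy => hz y (List.mem_cons_of_mem _ hy)) a4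
    refine ⟨hi (zI T z D) &&& T', ?_, ?_⟩
    · have h3 := GP_cons g b3 h1
      intro k hk
      exact h3 k ⟨hk.1.trans b2, hk.2⟩
    · rw [← Nat.land_assoc]
      exact h2

/-- the split `b` is served, the children get the relevant positions `Ra`, `Rb` -/
def SvX (p k x b : ℕ) (zs ns : List ℕ) (Ra Rb : Finset ℕ) : Prop := ∀ ks : ℕ → ℕ,
  CapsL ks zs ns →
  (b = 0 → 1 ≤ k → ∃ i, i < 5 ∧ p ^^^ 2 ^ i ∉ Ra ∧ p ^^^ 2 ^ i ∉ zs ∧
    PF (ncadj 5) (msk (FULL ^^^ 2 ^ p)) (⟨p ^^^ 2 ^ i, k - 1, (Ra : Set ℕ)⟩ :: mkP ks {x} zs)) ∧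
  (1 ≤ b → 2 * b ≤ k → ∃ i j, i < 5 ∧ j < 5 ∧ i ≠ j ∧ p ^^^ 2 ^ i ∉ Ra ∧ p ^^^ 2 ^ j ∉ Rb ∧
    p ^^^ 2 ^ i ∉ zs ∧ p ^^^ 2 ^ j ∉ zs ∧
    PF (ncadj 5) (msk (FULL ^^^ 2 ^ p)) (⟨p ^^^ 2 ^ i, k - b - 1, (Ra : Set ℕ)⟩ ::
      ⟨p ^^^ 2 ^ j, b - 1, (Rb : Set ℕ)⟩ :: mkP ks {x} zs))

/-- what the loop proves -/
def ClX (p k dem : ℕ) (zs ns : List ℕ) (t u aH aL : ℕ) : Prop := ∀ b < t, ∀ x < 33,
  dem.testBit x = true → (SvX p k x b zs ns {x} ∅ ∨ (u ≤ b ∧ aH.testBit x = true)) ∧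
    (1 ≤ b → SvX p k x b zs ns ∅ {x} ∨ (u ≤ b ∧ aL.testBit x = true))

/-- a cover which serves -/
def PrX (p k : ℕ) (zs ns : List ℕ) (t u TH TL : ℕ) : Prop := ∀ b < t, u ≤ b → ∀ x < 33,
  (TH.testBit x = true → SvX p k x b zs ns {x} ∅) ∧
    (1 ≤ b → TL.testBit x = true → SvX p k x b zs ns ∅ {x})

theorem fin1_okX {p k dem c t u u0 aH aL TH TL : ℕ} {zs ns : List ℕ}
    {nx : ℕ → ℕ → ℕ → ℕ → Bool}
    (hnx : ∀ t u aH aL, nx t u aH aL = true → ClX p k dem zs ns t u aH aL)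
    (hp : PrX p k zs ns t u TH TL) (hu : u0 ≤ u)
    (h : fin1 dem nx c t u (Nat.lor aH TH) (Nat.lor aL TL) = true) :
    ClX p k dem zs ns t u0 aH aL := by
  intro b hb x hx hd
  have e1 : ∀ a b : ℕ, Nat.lor a b = a ||| b := fun _ _ => rfl
  have kH : u ≤ b → (Nat.lor aH TH).testBit x = true →
      SvX p k x b zs ns {x} ∅ ∨ (u0 ≤ b ∧ aH.testBit x = true) := by
    intro hub hxa
    rw [e1, Nat.testBit_or, Bool.or_eq_true] at hxa
    rcases hxa with hxa | hxa
    · exact Or.inr ⟨by omega, hxa⟩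
    · exact Or.inl ((hp b hb hub x hx).1 hxa)
  have kL : 1 ≤ b → u ≤ b → (Nat.lor aL TL).testBit x = true →
      SvX p k x b zs ns ∅ {x} ∨ (u0 ≤ b ∧ aL.testBit x = true) := by
    intro hb1 hub hxa
    rw [e1, Nat.testBit_or, Bool.or_eq_true] at hxa
    rcases hxa with hxa | hxa
    · exact Or.inr ⟨by omega, hxa⟩
    · exact Or.inl ((hp b hb hub x hx).2 hb1 hxa)
  unfold fin1 at h
  cases hl : Nat.beq (Nat.land c 1) 1 with
  | false =>
    rw [hl] at h
    obtain ⟨h1, h2⟩ := hnx _ _ _ _ h b hb x hx hd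
    refine ⟨?_, fun hb1 => ?_⟩
    · rcases h1 with h1 | ⟨h1, h3⟩
      · exact Or.inl h1
      · exact kH h1 h3
    · rcases h2 hb1 with h1 | ⟨h1, h3⟩
      · exact Or.inl h1
      · exact kL hb1 h1 h3
  | true =>
    rw [hl] at h
    rw [nd_iff, nd_iff, Sf.bo_iff] at h
    obtain ⟨h1, h2, h3⟩ := h
    by_cases hbu : b < u
    · obtain ⟨g1, g2⟩ := hnx _ _ _ _ h3 b hbu x hx hd
      refine ⟨?_, fun hb1 => ?_⟩
      · rcases g1 with g1 | ⟨_, g1⟩
        · exact Or.inl g1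
        · simp at g1
      · rcases g2 hb1 with g1 | ⟨_, g1⟩
        · exact Or.inl g1
        · simp at g1
    · refine ⟨kH (by omega) (sb_ok h1 hd), fun hb1 => ?_⟩
      rcases h2 with h2 | h2
      · have : t ≤ 1 := Nat.le_of_ble_eq_true h2
        omega
      · exact kL hb1 (by omega) (sb_ok h2 hd)

/-- one cover: `c` flags, `H` and `L` references (40 bits: index, exchanges, direction), `D` the
references of the other roots -/
noncomputable def stpX (T M p k dem : ℕ) (zs ns : List ℕ) (c L H D t u aH aL : ℕ)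
    (nx : ℕ → ℕ → ℕ → ℕ → Bool) : Bool :=
  nd (Nat.ble (Nat.succ (ri H)) M) (nd (isDir (rd H))
    (fB (zI T (Nat.xor p (rd H)) H) fun ZH =>
      Bool.rec (motive := fun _ => Bool)
        (nd (Nat.ble (Nat.succ (ri L)) M) (nd (isDir (rd L))
          (nd (Nat.ble t (Nat.succ (tN T (ri L))))
          (fB (zI T (Nat.xor p (rd L)) L) fun ZL =>
            nd (Nat.beq (Nat.land (Nat.xor FULL (Nat.pow 2 p)) (lo ZL)) (lo ZL))
            (nd (Nat.beq (Nat.land (Nat.xor (Nat.xor FULL (Nat.pow 2 p)) (lo ZL)) (lo ZH)) (lo ZH))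
            (oth T M zs ns D (Nat.xor (Nat.xor (Nat.xor FULL (Nat.pow 2 p)) (lo ZL)) (lo ZH))
              8589934591 fun tt =>
              fin1 dem nx c t (Nat.add u (Nat.sub (Nat.sub k (tN T (ri H))) u))
                (Nat.lor aH (Nat.land (Nat.lor (hi ZH) 4294967296) tt))
                (Nat.lor aL (Nat.land (Nat.lor (hi ZL) 4294967296) tt))))))))
        (nd (Nat.ble t 1)
          (nd (Nat.beq (Nat.land (Nat.xor FULL (Nat.pow 2 p)) (lo ZH)) (lo ZH))
          (oth T M zs ns D (Nat.xor (Nat.xor FULL (Nat.pow 2 p)) (lo ZH)) 8589934591 fun tt =>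
            fin1 dem nx c t (Nat.add u (Nat.sub (Nat.sub k (tN T (ri H))) u))
              (Nat.lor aH (Nat.land (Nat.lor (hi ZH) 4294967296) tt)) (Nat.lor aL 0))))
        (Nat.beq (Nat.land c 2) 2)))

theorem xor_dir_lt {p i : ℕ} (hp : p < 32) (hi' : i < 5) : p ^^^ 2 ^ i < 32 :=
  Nat.xor_lt_two_pow (n := 5) hp (by interval_cases i <;> norm_num)

theorem hi_or {Z tt x : ℕ} (h : (Nat.land (Nat.lor (hi Z) 4294967296) tt).testBit x = true)
    (hx : x < 32) : (hi Z).testBit x = true ∧ tt.testBit x = true := by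
  have h' : (((hi Z) ||| 4294967296) &&& tt).testBit x = true := h
  rw [Nat.testBit_and, Nat.testBit_or, show (4294967296 : ℕ) = 2 ^ 32 by norm_num,
    Nat.testBit_two_pow, Bool.and_eq_true] at h'
  have e : decide (32 = x) = false := by simp; omega
  rw [e, Bool.or_false] at h'
  exact h'

theorem hi_or2 {Z tt x : ℕ} (h : (Nat.land (Nat.lor (hi Z) 4294967296) tt).testBit x = true) :
    tt.testBit x = true := by
  have h' : (((hi Z) ||| 4294967296) &&& tt).testBit x = true := h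
  rw [Nat.testBit_and, Bool.and_eq_true] at h'
  exact h'.2

theorem PF.larger {X Y : Set ℕ} {ms : List (PM ℕ)} (h : PF (ncadj 5) X ms) (hXY : X ⊆ Y) :
    PF (ncadj 5) Y ms := by
  intro τ hτ
  obtain ⟨A, q, hA, hd⟩ := h τ (by
    intro m hm
    obtain ⟨h1, h2, h3, h4, h5⟩ := hτ m hm
    exact ⟨h1, fun F hF x hx hxX => h2 F hF x hx (hXY hxX), fun x hx => h3 x (hXY hx), h4, h5⟩)
  exact ⟨A, q, fun m hm => ⟨(hA m hm).1, fun v hv => hXY ((hA m hm).2 v hv)⟩, hd⟩

/-- one more region -/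
theorem consX {X Z z n k : ℕ} {R : Finset ℕ} {ms : List (PM ℕ)} (hZ : GZ 1 Z z n)
    (hX : X &&& lo Z = lo Z) (hk : k + 1 ≤ n) (hR : R.card ≤ 1)
    (hRT : ∀ y ∈ R, (lo Z).testBit y = true → (hi Z).testBit y = true)
    (h : PF (ncadj 5) (msk (X ^^^ lo Z)) ms) :
    PF (ncadj 5) (msk X) (⟨z, k, (R : Set ℕ)⟩ :: ms) ∧ z ∉ R ∧ ∀ m ∈ ms, m.p ≠ z := by
  obtain ⟨h1, h2, h3⟩ := hZ.use hk hR hRT
  have hdis : Disjoint (msk (lo Z)) (msk (X ^^^ lo Z)) :=
    msk_disjoint (by rw [Nat.land_comm]; exact (xor_and_disj hX).1)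
  have hms : ∀ m ∈ ms, m.p ∉ msk (lo Z) := fun m hm hmY =>
    Set.disjoint_left.1 hdis hmY (PF.mem h hm)
  refine ⟨?_, h1, fun m hm e => hms m hm (by rw [e]; exact h2)⟩
  exact PF.cons (Y := msk (lo Z)) (Z := msk (X ^^^ lo Z)) h3 le_rfl (fun y _ hy => Or.inl hy)
    (msk_subset (by rw [Nat.land_comm]; exact hX)) (msk_subset (xor_and_disj hX).2) hdis
    (Set.disjoint_left.1 hdis h2) hms h

theorem sub_lt32 {X Y : ℕ} (hX : X &&& Y = Y) {p : ℕ} (hp : p < 32)
    (hXp : ∀ y, X.testBit y = true → (FULL ^^^ 2 ^ p).testBit y = true) {y : ℕ}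
    (hy : (X ^^^ Y).testBit y = true) : (FULL ^^^ 2 ^ p).testBit y = true ∧ y < 32 := by
  have h1 : X.testBit y = true := msk_subset (xor_and_disj hX).2 hy
  have h2 := hXp y h1
  refine ⟨h2, ?_⟩
  by_contra hc
  have h3 : FULL ^^^ 2 ^ p < 2 ^ 32 := Nat.xor_lt_two_pow (by unfold FULL; norm_num)
    (Nat.pow_lt_pow_right (by norm_num) hp)
  rw [testBit_ge h3 (by omega)] at h2
  simp at h2

theorem one_okX {T' p k b nH x : ℕ} {zs ns : List ℕ} {ZH i : ℕ} (hp : p < 32) (hi' : i < 5)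
    (hH : GZ 1 ZH (p ^^^ 2 ^ i) nH) (hX : (FULL ^^^ 2 ^ p) &&& lo ZH = lo ZH)
    (hG : GP 1 ((FULL ^^^ 2 ^ p) ^^^ lo ZH) zs ns T')
    (hTo : x < 32 → T'.testBit x = true) (hk : k ≤ nH)
    {Ra : Finset ℕ} (hRa : Ra ⊆ {x}) (hTH : x ∈ Ra → x < 32 → (hi ZH).testBit x = true)
    (hb : b = 0) (Rb : Finset ℕ) : SvX p k x b zs ns Ra Rb := by
  intro ks hks
  refine ⟨fun _ hk1 => ?_, fun h => absurd h (by omega)⟩
  have h32 : ∀ y, (lo ZH).testBit y = true → y < 32 := by
    intro y hy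
    by_contra hc
    rw [testBit_ge (lo_lt ZH) (by omega)] at hy
    simp at hy
  have htail := hG ks hks {x} (by simp) (by
    intro y hy hyX
    rw [Finset.mem_singleton] at hy
    subst hy
    exact Or.inl (hTo (sub_lt32 hX hp (fun _ h => h) hyX).2))
  obtain ⟨g1, g2, g3⟩ := consX (k := k - 1) (R := Ra) hH hX (by omega)
    ((Finset.card_le_card hRa).trans (by simp)) (by
      intro y hy hyX
      have : y = x := Finset.mem_singleton.1 (hRa hy)
      subst this
      exact hTH hy (h32 _ hyX)) htail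
  refine ⟨i, hi', g2, ?_, by simpa using g1⟩
  intro hz
  exact g3 ⟨p ^^^ 2 ^ i, ks (p ^^^ 2 ^ i), _⟩ (mem_mkP.2 ⟨hz, rfl⟩) rfl

theorem pair_okX {T' p k b nH nL x : ℕ} {zs ns : List ℕ} {ZH ZL i j : ℕ} (hp : p < 32)
    (hi' : i < 5) (hj' : j < 5)
    (hH : GZ 1 ZH (p ^^^ 2 ^ i) nH) (hL : GZ 1 ZL (p ^^^ 2 ^ j) nL)
    (hXL : (FULL ^^^ 2 ^ p) &&& lo ZL = lo ZL)
    (hXH : ((FULL ^^^ 2 ^ p) ^^^ lo ZL) &&& lo ZH = lo ZH)
    (hG : GP 1 (((FULL ^^^ 2 ^ p) ^^^ lo ZL) ^^^ lo ZH) zs ns T')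
    (hTo : x < 32 → T'.testBit x = true) (hbL : b ≤ nL) (hkH : k ≤ nH + b)
    {Ra Rb : Finset ℕ} (hRa : Ra ⊆ {x}) (hTH : x ∈ Ra → x < 32 → (hi ZH).testBit x = true)
    (hRb : Rb ⊆ {x}) (hTL : 1 ≤ b → x ∈ Rb → x < 32 → (hi ZL).testBit x = true) :
    SvX p k x b zs ns Ra Rb := by
  intro ks hks
  have h32 : ∀ Z y, (lo Z).testBit y = true → y < 32 := by
    intro Z y hy
    by_contra hc
    rw [testBit_ge (lo_lt Z) (by omega)] at hy
    simp at hy
  have htail := hG ks hks {x} (by simp) (by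
    intro y hy hyX
    rw [Finset.mem_singleton] at hy
    subst hy
    exact Or.inl (hTo (sub_lt32 hXH hp
      (fun _ h => msk_subset (xor_and_disj hXL).2 h) hyX).2))
  have hHH : ∀ k', k' + 1 ≤ nH → _ := fun k' hk' => consX (k := k') (R := Ra) hH hXH hk'
    ((Finset.card_le_card hRa).trans (by simp)) (by
      intro y hy hyX
      have : y = x := Finset.mem_singleton.1 (hRa hy)
      subst this
      exact hTH hy (h32 _ _ hyX)) htail
  refine ⟨fun hb0 hk1 => ?_, fun hb1 hbk => ?_⟩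
  · obtain ⟨g1, g2, g3⟩ := hHH (k - 1) (by omega)
    refine ⟨i, hi', g2, ?_, ?_⟩
    · intro hz
      exact g3 ⟨p ^^^ 2 ^ i, ks (p ^^^ 2 ^ i), _⟩ (mem_mkP.2 ⟨hz, rfl⟩) rfl
    · have g4 : PF (ncadj 5) (msk ((FULL ^^^ 2 ^ p) ^^^ lo ZL))
          (⟨p ^^^ 2 ^ i, k - 1, (Ra : Set ℕ)⟩ :: mkP ks {x} zs) := by simpa using g1
      exact PF.larger g4 (msk_subset (xor_and_disj hXL).2)
  · obtain ⟨g1, g2, g3⟩ := hHH (k - b - 1) (by omega)
    obtain ⟨g4, g5, g6⟩ := consX (k := b - 1) (R := Rb) hL hXL (by omega)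
      ((Finset.card_le_card hRb).trans (by simp)) (by
        intro y hy hyX
        have : y = x := Finset.mem_singleton.1 (hRb hy)
        subst this
        exact hTL hb1 hy (h32 _ _ hyX)) g1
    have e6 : p ^^^ 2 ^ i ≠ p ^^^ 2 ^ j :=
      g6 ⟨p ^^^ 2 ^ i, k - b - 1, (Ra : Set ℕ)⟩ List.mem_cons_self
    refine ⟨i, j, hi', hj', ?_, g2, g5, ?_, ?_, ?_⟩
    · rintro rfl
      exact e6 rfl
    · intro hz
      exact g3 ⟨p ^^^ 2 ^ i, ks (p ^^^ 2 ^ i), _⟩ (mem_mkP.2 ⟨hz, rfl⟩) rfl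
    · intro hz
      exact g6 ⟨p ^^^ 2 ^ j, ks (p ^^^ 2 ^ j), _⟩
        (List.mem_cons_of_mem _ (mem_mkP.2 ⟨hz, rfl⟩)) rfl
    · refine PF.congr' ?_ g4
      intro m
      simp only [List.mem_cons, Finset.coe_singleton]
      tauto

theorem stpX_ok {T M p k dem c L H D t u aH aL : ℕ} {zs ns : List ℕ}
    (hT : ∀ i < M, GoodP 1 T i) (hp : p < 32) (hz : ∀ z ∈ zs, z < 32)
    {nx : ℕ → ℕ → ℕ → ℕ → Bool}
    (hnx : ∀ t u aH aL, nx t u aH aL = true → ClX p k dem zs ns t u aH aL)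
    (h : stpX T M p k dem zs ns c L H D t u aH aL nx = true) :
    ClX p k dem zs ns t u aH aL := by
  unfold stpX at h
  simp only [nd_iff, fB_eq] at h
  obtain ⟨a1, a2, a3⟩ := h
  obtain ⟨i, hi', hrH⟩ := isDir_ok a2
  have eF : Nat.xor FULL (Nat.pow 2 p) = FULL ^^^ 2 ^ p := rfl
  have eH : Nat.xor p (rd H) = p ^^^ 2 ^ i := by rw [hrH]; rfl
  have gH := zI_ok (z := p ^^^ 2 ^ i) (hT _ (lt_of_succ_ble a1)) (xor_dir_lt hp hi')
  rw [eH, eF] at a3
  have eu : Nat.add u (Nat.sub (Nat.sub k (tN T (ri H))) u) = u + (k - tN T (ri H) - u) := rfl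
  rw [eu] at a3
  cases hc : Nat.beq (Nat.land c 2) 2 with
  | false =>
    rw [hc] at a3
    simp only [nd_iff] at a3
    obtain ⟨b1, b2, b3, b4, b5, b6⟩ := a3
    obtain ⟨j, hj', hrL⟩ := isDir_ok b2
    have eL : Nat.xor p (rd L) = p ^^^ 2 ^ j := by rw [hrL]; rfl
    have gL := zI_ok (z := p ^^^ 2 ^ j) (hT _ (lt_of_succ_ble b1)) (xor_dir_lt hp hj')
    rw [eL] at b4 b5 b6
    have b3' : t ≤ tN T (ri L) + 1 := Nat.le_of_ble_eq_true b3
    have b4' := Nat.eq_of_beq_eq_true b4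
    have b5' := Nat.eq_of_beq_eq_true b5
    obtain ⟨T', hG, hf⟩ := oth_ok hT zs ns _ _ _ _ hz b6
    refine fin1_okX hnx ?_ (by omega) hf
    intro b hb hub x hx
    have hTo : ∀ Z : ℕ, (Nat.land (Nat.lor (hi Z) 4294967296) (8589934591 &&& T')).testBit x =
        true → x < 32 → T'.testBit x = true := by
      intro Z h1 _
      have h2 := hi_or2 h1
      rw [Nat.testBit_and, Bool.and_eq_true] at h2
      exact h2.2
    refine ⟨fun h1 => ?_, fun hb1 h1 => ?_⟩
    · exact pair_okX hp hi' hj' gH gL b4' b5' hG (hTo _ h1) (by omega) (by omega)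
        (Finset.Subset.refl _) (fun _ h32 => (hi_or h1 h32).1) (Finset.empty_subset _)
        (fun _ h => absurd h (Finset.notMem_empty _))
    · exact pair_okX hp hi' hj' gH gL b4' b5' hG (hTo _ h1) (by omega) (by omega)
        (Finset.empty_subset _) (fun h => absurd h (Finset.notMem_empty _))
        (Finset.Subset.refl _) (fun _ _ h32 => (hi_or h1 h32).1)
  | true =>
    rw [hc] at a3
    simp only [nd_iff] at a3
    obtain ⟨b1, b2, b3⟩ := a3
    have b1' : t ≤ 1 := Nat.le_of_ble_eq_true b1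
    have b2' := Nat.eq_of_beq_eq_true b2
    obtain ⟨T', hG, hf⟩ := oth_ok hT zs ns _ _ _ _ hz b3
    refine fin1_okX (TL := 0) hnx ?_ (by omega) hf
    intro b hb hub x hx
    refine ⟨fun h1 => ?_, fun hb1 h1 => ?_⟩
    · exact one_okX hp hi' gH b2' hG (fun _ => by
        have h2 := hi_or2 h1
        rw [Nat.testBit_and, Bool.and_eq_true] at h2
        exact h2.2) (by omega) (Finset.Subset.refl _) (fun _ h32 => (hi_or h1 h32).1) (by omega) ∅
    · omega

/-- loop over the covers; `w` is the number of bits of a cover -/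
noncomputable def lpX (T M p k dem w : ℕ) (zs ns : List ℕ) (f : ℕ) :
    ℕ → ℕ → ℕ → ℕ → ℕ → Bool :=
  Nat.rec (motive := fun _ => ℕ → ℕ → ℕ → ℕ → ℕ → Bool) (fun _ _ _ _ _ => false)
    (fun _ ih C t u aH aL =>
      bo (Nat.beq t 0)
        (stpX T M p k dem zs ns (Nat.land C 255) (Nat.land (Nat.shiftRight C 8) 1099511627775)
          (Nat.land (Nat.shiftRight C 48) 1099511627775) (Nat.shiftRight C 88) t u aH aL
            (ih (Nat.shiftRight C w)))) f

theorem lpX_ok {T M p k dem w : ℕ} {zs ns : List ℕ} (hT : ∀ i < M, GoodP 1 T i) (hp : p < 32)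
    (hz : ∀ z ∈ zs, z < 32) : ∀ (f C t u aH aL : ℕ),
    lpX T M p k dem w zs ns f C t u aH aL = true → ClX p k dem zs ns t u aH aL
  | 0, C, t, u, aH, aL, h => by
    have h' : false = true := h
    exact absurd h' (by simp)
  | f + 1, C, t, u, aH, aL, h => by
    have h' : bo (Nat.beq t 0)
        (stpX T M p k dem zs ns (Nat.land C 255) (Nat.land (Nat.shiftRight C 8) 1099511627775)
          (Nat.land (Nat.shiftRight C 48) 1099511627775) (Nat.shiftRight C 88) t u aH aL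
          (lpX T M p k dem w zs ns f (Nat.shiftRight C w))) = true := h
    rw [Sf.bo_iff] at h'
    rcases h' with h' | h'
    · have : t = 0 := Nat.eq_of_beq_eq_true h'
      intro b hb
      omega
    · exact stpX_ok hT hp hz (fun t u aH aL => lpX_ok hT hp hz f _ t u aH aL) h'

theorem CapsL_zip {k : ℕ → ℕ} : ∀ {zs ns : List ℕ}, zs.length = ns.length →
    (CapsL k zs ns ↔ ∀ e ∈ zs.zip ns, k e.1 + 1 ≤ e.2)
  | [], [], _ => by simp [CapsL]
  | z :: zs, n :: ns, h => by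
    have ih := CapsL_zip (k := k) (zs := zs) (ns := ns) (by simpa using h)
    show (k z + 1 ≤ n ∧ CapsL k zs ns) ↔ _
    rw [ih]
    simp

/-- **Exceptional size vectors.** -/
theorem vok_exp {T M p n dem w C : ℕ} {zs ns zs₀ vs₀ : List ℕ} (hT : ∀ i < M, GoodP 1 T i)
    (hp : p < 32) (hz : ∀ z ∈ zs, z < 32) (hn : 2 ≤ n) (hpz : p ∉ zs)
    (hl : zs.length = ns.length) (hl₀ : zs₀.length = vs₀.length)
    (hperm : (zs₀.zip vs₀).Perm ((p, n) :: zs.zip ns)) (hzs : ∀ z, z ∈ zs₀ ↔ z ∈ p :: zs)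
    (h : lpX T M p (Nat.pred n) dem w zs ns 255 C
      (Nat.succ (Nat.shiftRight (Nat.pred n) 1)) 0 0 0 = true) :
    ∀ x < 33, dem.testBit x = true → VOK zs₀ x vs₀ := by
  intro x hx hd k hk
  have h1 := lpX_ok hT hp hz _ _ _ _ _ _ h
  have e2 : Nat.shiftRight (Nat.pred n) 1 = (n - 1) / 2 := rfl
  have e1 : Nat.pred n = n - 1 := rfl
  rw [e2, e1] at h1
  have hk' : CapsL k (p :: zs) (n :: ns) := by
    rw [CapsL_zip (by simpa using hl)]
    rw [CapsL_zip hl₀] at hk
    intro e he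
    exact hk e (hperm.mem_iff.2 (by simpa using he))
  obtain ⟨hk1, hk2⟩ := hk'
  have hFp : FULL.testBit p = true := FULL_tb.2 hp
  have key : PF (ncadj 5) (msk FULL) (⟨p, n - 1, {x}⟩ :: mkP k {x} zs) := by
    refine PF.expand (by omega) hFp ?_ ?_ ?_
    · intro m hm e
      exact hpz (by rw [← e]; exact (mem_mkP.1 hm).1)
    · obtain ⟨h2, -⟩ := h1 0 (by omega) x hx hd
      rcases h2 with h2 | ⟨_, h2⟩
      · obtain ⟨i, hi, g1, g2, g3⟩ := (h2 k hk2).1 rfl (by omega)
        refine ⟨p ^^^ 2 ^ i, ⟨i, hi, rfl⟩, ?_, ?_, ?_⟩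
        · intro m hm e
          exact g2 (by rw [← e]; exact (mem_mkP.1 hm).1)
        · simpa using g1
        · rw [← msk_erase hFp]
          simpa using g3
      · simp at h2
    · intro b hb1 hb2 Ra Rb hRa hRb hd'
      obtain ⟨h2, h3⟩ := h1 b (by omega) x hx hd
      -- one of the two sets is empty
      by_cases hxb : x ∈ Rb
      · have hxa : x ∉ Ra := fun h => Set.disjoint_left.1 hd' h hxb
        have ea : Ra = ∅ := by
          ext y
          constructor
          · intro hy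
            have := hRa hy
            rw [Set.mem_singleton_iff] at this
            subst this
            exact absurd hy hxa
          · intro hy; exact absurd hy (Set.notMem_empty _)
        have eb : Rb = {x} := by
          ext y
          constructor
          · intro hy; exact hRb hy
          · intro hy
            rw [Set.mem_singleton_iff] at hy
            subst hy
            exact hxb
        rcases h3 hb1 with h3 | ⟨_, h3⟩
        · obtain ⟨i, j, hi, hj, hij, g1, g2, g3, g4, g5⟩ := (h3 k hk2).2 hb1 (by omega)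
          refine ⟨p ^^^ 2 ^ i, p ^^^ 2 ^ j, ⟨i, hi, rfl⟩, ⟨j, hj, rfl⟩, ?_, ?_, ?_, ?_, ?_⟩
          · intro e
            exact hij (Nat.pow_right_injective le_rfl (Nat.xor_right_injective e))
          · intro m hm
            have hm1 := (mem_mkP.1 hm).1
            exact ⟨fun e => g3 (by rw [← e]; exact hm1), fun e => g4 (by rw [← e]; exact hm1)⟩
          · rw [ea]; exact Set.notMem_empty _
          · rw [eb]; simpa using g2
          · rw [← msk_erase hFp, ea, eb]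
            simpa using g5
        · simp at h3
      · have eb : Rb = ∅ := by
          ext y
          constructor
          · intro hy
            have := hRb hy
            rw [Set.mem_singleton_iff] at this
            subst this
            exact absurd hy hxb
          · intro hy; exact absurd hy (Set.notMem_empty _)
        rcases h2 with h2 | ⟨_, h2⟩
        · obtain ⟨i, j, hi, hj, hij, g1, g2, g3, g4, g5⟩ := (h2 k hk2).2 hb1 (by omega)
          refine ⟨p ^^^ 2 ^ i, p ^^^ 2 ^ j, ⟨i, hi, rfl⟩, ⟨j, hj, rfl⟩, ?_, ?_, ?_, ?_, ?_⟩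
          · intro e
            exact hij (Nat.pow_right_injective le_rfl (Nat.xor_right_injective e))
          · intro m hm
            have hm1 := (mem_mkP.1 hm).1
            exact ⟨fun e => g3 (by rw [← e]; exact hm1), fun e => g4 (by rw [← e]; exact hm1)⟩
          · intro hy
            exact g1 (by
              have := hRa hy
              simpa using this)
          · rw [eb]; exact Set.notMem_empty _
          · rw [← msk_erase hFp, eb]
            refine PF.weak g5 ?_ ?_ ?_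
            · intro v
              rw [rts_cons, rts_cons, rts_cons, rts_cons]
            · intro m hm
              rcases List.mem_cons.1 hm with rfl | hm
              · exact ⟨_, List.mem_cons_self, rfl, le_rfl, fun y _ hy => Or.inl (by
                  simpa using hRa hy)⟩
              · rcases List.mem_cons.1 hm with rfl | hm
                · exact ⟨_, List.mem_cons_of_mem _ List.mem_cons_self, rfl, le_rfl,
                    fun y _ hy => absurd hy (Set.notMem_empty _)⟩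
                · exact ⟨m, List.mem_cons_of_mem _ (List.mem_cons_of_mem _ hm), rfl, le_rfl,
                    fun y _ hy => Or.inl hy⟩
            · intro m hm
              rcases List.mem_cons.1 hm with rfl | hm
              · exact ⟨_, List.mem_cons_self, rfl⟩
              · rcases List.mem_cons.1 hm with rfl | hm
                · exact ⟨_, List.mem_cons_of_mem _ List.mem_cons_self, rfl⟩
                · exact ⟨m, List.mem_cons_of_mem _ (List.mem_cons_of_mem _ hm), rfl⟩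
        · simp at h2
  refine PF.weak key ?_ ?_ ?_
  · intro v
    rw [rts_cons, rts_mkP, hzs]
    show v = p ∨ v ∈ rts (mkP k {x} zs) ↔ _
    rw [rts_mkP, List.mem_cons]
  · intro m hm
    rcases List.mem_cons.1 hm with rfl | hm
    · refine ⟨⟨p, k p, {x}⟩, mem_mkP.2 ⟨(hzs p).2 List.mem_cons_self, rfl⟩, rfl, ?_,
        fun y _ hy => Or.inl hy⟩
      show k p ≤ n - 1
      omega
    · obtain ⟨h2, h3⟩ := mem_mkP.1 hm
      exact ⟨m, mem_mkP.2 ⟨(hzs _).2 (List.mem_cons_of_mem _ h2), h3⟩, rfl, le_rfl,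
        fun y _ hy => Or.inl hy⟩
  · intro m hm
    obtain ⟨h2, h3⟩ := mem_mkP.1 hm
    rcases List.mem_cons.1 ((hzs _).1 h2) with h4 | h4
    · exact ⟨_, List.mem_cons_self, h4.symm⟩
    · exact ⟨m, List.mem_cons_of_mem _ (mem_mkP.2 ⟨h4, h3⟩), rfl⟩

theorem pk8_inj : ∀ {vs ws : List ℕ} {c d : ℕ}, vs.length = ws.length → (∀ v ∈ vs, v < 128) →
    (∀ v ∈ ws, v < 128) → pk8 c vs = pk8 d ws → c = d ∧ vs = ws
  | [], [], c, d, _, _, _, h => ⟨h, rfl⟩
  | v :: vs, w :: ws, c, d, hl, hv, hw, h => by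
    rw [pk8_cons, pk8_cons] at h
    obtain ⟨h1, h2⟩ := pk8_inj (by simpa using hl) (fun x hx => hv x (List.mem_cons_of_mem _ hx))
      (fun x hx => hw x (List.mem_cons_of_mem _ hx)) h
    have h3 := hv v List.mem_cons_self
    have h4 := hw w List.mem_cons_self
    have h5 : c = d := by omega
    have h6 : v = w := by omega
    exact ⟨h5, by rw [h2, h6]⟩

theorem ExOK.nil (zs : List ℕ) : ExOK zs [] := by
  intro p hp
  simp at hp

theorem ExOK.cons {zs ws : List ℕ} {ex : List (ℕ × ℕ)} {vp m : ℕ} (h : ExOK zs ex)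
    (hl : ws.length = zs.length) (hw : ∀ v ∈ ws, v < 128) (hvp : pk8 0 ws = vp)
    (hm : ∀ x < 33, m.testBit x = true → VOK zs x ws) : ExOK zs ((vp, m) :: ex) := by
  intro p hp vs h1 h2 h3
  rcases List.mem_cons.1 hp with rfl | hp
  · obtain ⟨-, h4⟩ := pk8_inj (by rw [h1, hl]) h2 hw (h3.trans hvp.symm)
    rw [h4]
    exact hm
  · exact h p hp vs h1 h2 h3

end Pt

end Pool.Agent.Work.MP_bf01b2_co.MR
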