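import Pool.Agent.Work.MP_bf01b2_co.MR.TSx_1_1

set_option autoImplicit false

namespace Pool.Agent.Work.MP_bf01b2_co.MR

theorem cSx_1_1_0 : Cov 0 43 43 43 FSx_1_1 :=
  Cov.one (by decide +kernel)

/-- `1` trees, `1` soft positions, total size `43` on `Q_6` -/
theorem qSx_1_1 (h : BaseO 5 LSx) (s : ℕ) (w : List ℕ) (hw : w.length = 1)
    (hs : w.sum ≤ 43) : GdO 6 1 s w :=
  stateO_all (m := 5) (K := 0) (D := 1) (T := 43) (by decide) (CSx_ok h)
    TSx_1_1_ok GSx_2_ok GSx_2_sen GSx_2_full cSx_1_1_0 (by decide) (by decide) s w hw hs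

end Pool.Agent.Work.MP_bf01b2_co.MR
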