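import Pool.Agent.Work.MP_bf01b2_co.MR.TSx_1_3

set_option autoImplicit false

namespace Pool.Agent.Work.MP_bf01b2_co.MR

theorem cSx_1_3_0 : Cov 0 38 38 38 FSx_1_3 :=
  Cov.one (by decide +kernel)

/-- `1` trees, `3` soft positions, total size `38` on `Q_6` -/
theorem qSx_1_3 (h : BaseO 5 LSx) (s : ℕ) (w : List ℕ) (hw : w.length = 1)
    (hs : w.sum ≤ 38) : GdO 6 3 s w :=
  stateO_all (m := 5) (K := 0) (D := 3) (T := 38) (by decide) (CSx_ok h)
    TSx_1_3_ok GSx_4_ok GSx_4_sen GSx_4_full cSx_1_3_0 (by decide) (by decide) s w hw hs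

end Pool.Agent.Work.MP_bf01b2_co.MR
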