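import Pool.Agent.Work.MP_bf01b2_co.MR.TSx_2_0

set_option autoImplicit false

namespace Pool.Agent.Work.MP_bf01b2_co.MR

theorem cSx_2_0_0 : Cov 1 42 21 41 FSx_2_0 := by
  refine Cov.run (c := (.blk 3 .lf (.blk 2 .lf (.blk 2 .lf (.blk 2 .lf (.blk 1 .lf (.blk 1 .lf (.blk 1 .lf (.blk 1 .lf 
.lf))))))))) (by decide) ?_
  decide +kernel

/-- `2` trees, `0` soft positions, total size `42` on `Q_6` -/
theorem qSx_2_0 (h : BaseO 5 LSx) (s : ℕ) (w : List ℕ) (hw : w.length = 2)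
    (hs : w.sum ≤ 42) : GdO 6 0 s w :=
  stateO_all (m := 5) (K := 1) (D := 0) (T := 42) (by decide) (CSx_ok h)
    TSx_2_0_ok GSx_2_ok GSx_2_sen GSx_2_full cSx_2_0_0 (by decide) (by decide) s w hw hs

end Pool.Agent.Work.MP_bf01b2_co.MR
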