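import Pool.Agent.Work.MP_bf01b2_co.MR.TSx_3_0

set_option autoImplicit false

namespace Pool.Agent.Work.MP_bf01b2_co.MR

theorem cSx_3_0_0 : Cov 2 42 14 40 FSx_3_0 := by
  refine Cov.run (c := (.blk 1 (.blk 1 .lf .lf) (.blk 1 (.blk 1 .lf (.blk 1 .lf (.blk 0 .lf .lf))) (.blk 1 (.blk 1 .lf (.blk 1 .lf (.blk 2 .lf (.blk 0 .lf .lf)))) (.blk 1 (.blk 1 .lf (.blk 1 .lf (.blk 1 .lf (.blk 2 .lf (.blk 1 .lf .lf))))) (.blk 1 (.blk 0 .lf (.blk 1 .lf (.blk 1 .lf (.blk 1 .lf (.blk 2 .lf .lf))))) (.blk 0 (.blk 2 .lf (.blk 2 .lf (.blk 2 .lf .lf))) (.blk 1 (.blk 0 .lf (.blk 0 .lf (.blk 0 .lf (.blk 0 .lf (.blk 0 .lf (.blk 0 .lf (.blk 0 .lf (.blk 0 .lf 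
.lf)))))))) (.blk 0 (.blk 1 .lf (.blk 1 .lf (.blk 1 .lf (.blk 0 .lf .lf)))) 
(.blk 0 (.blk 1 .lf (.blk 1 .lf (.blk 1 .lf (.blk 0 .lf .lf)))) (.blk 0 (.blk 1 .lf (.blk 1 .lf (.blk 1 .lf .lf))) (.blk 0 (.blk 1 .lf (.blk 1 .lf (.blk 1 .lf .lf))) (.blk 0 (.blk 1 .lf (.blk 1 .lf (.blk 0 .lf .lf))) (.blk 0 (.blk 1 .lf (.blk 1 .lf (.blk 0 .lf .lf))) (.blk 0 (.blk 1 .lf (.blk 1 .lf .lf)) (.blk 0 (.blk 1 .lf (.blk 1 .lf .lf)) (.blk 0 (.blk 1 .lf (.blk 0 .lf .lf)) 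
(.blk 0 (.blk 1 .lf (.blk 0 .lf .lf)) (.blk 0 (.blk 1 .lf .lf) (.blk 0 (.blk 1 .lf .lf) (.blk 0 (.blk 0 .lf .lf) (.blk 0 (.blk 0 .lf .lf) .lf)))))))))))))))))))))) (by decide) ?_
  decide +kernel

/-- `3` trees, `0` soft positions, total size `42` on `Q_6` -/
theorem qSx_3_0 (h : BaseO 5 LSx) (s : ℕ) (w : List ℕ) (hw : w.length = 3)
    (hs : w.sum ≤ 42) : GdO 6 0 s w :=
  stateO_all (m := 5) (K := 2) (D := 0) (T := 42) (by decide) (CSx_ok h)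
    TSx_3_0_ok GSx_3_ok GSx_3_sen GSx_3_full cSx_3_0_0 (by decide) (by decide) s w hw hs

end Pool.Agent.Work.MP_bf01b2_co.MR
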