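import Pool.Agent.Work.MP_bf01b2_co.MR.TSx_3_2

set_option autoImplicit false

namespace Pool.Agent.Work.MP_bf01b2_co.MR

theorem cSx_3_2_0 : Cov 2 35 12 33 FSx_3_2 := by
  refine Cov.run (c := (.blk 1 (.blk 1 .lf .lf) (.blk 2 (.blk 3 .lf (.blk 1 .lf .lf)) (.blk 1 (.blk 3 .lf (.blk 4 .lf .lf)) (.blk 2 (.blk 2 .lf (.blk 2 .lf (.blk 1 .lf .lf))) (.blk 1 (.blk 3 .lf (.blk 1 .lf .lf)) (.blk 1 (.blk 2 .lf (.blk 1 .lf .lf)) (.blk 1 (.blk 1 .lf (.blk 1 .lf .lf)) (.blk 0 (.blk 2 .lf .lf) 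
(.blk 1 (.blk 0 .lf (.blk 0 .lf (.blk 0 .lf .lf))) (.blk 0 (.blk 1 .lf .lf) (.blk 0 (.blk 0 .lf .lf) (.blk 0 (.blk 0 .lf .lf) .lf))))))))))))) (by decide) ?_
  decide +kernel

/-- `3` trees, `2` soft positions, total size `35` on `Q_6` -/
theorem qSx_3_2 (h : BaseO 5 LSx) (s : ℕ) (w : List ℕ) (hw : w.length = 3)
    (hs : w.sum ≤ 35) : GdO 6 2 s w :=
  stateO_all (m := 5) (K := 2) (D := 2) (T := 35) (by decide) (CSx_ok h)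
    TSx_3_2_ok GSx_5_ok GSx_5_sen GSx_5_full cSx_3_2_0 (by decide) (by decide) s w hw hs

end Pool.Agent.Work.MP_bf01b2_co.MR
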