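import Pool.Agent.Work.MP_bf01b2_co.MR.TSx_4_0

set_option autoImplicit false

namespace Pool.Agent.Work.MP_bf01b2_co.MR

theorem cSx_4_0_0 : Cov 3 38 10 35 FSx_4_0 := by
  refine Cov.run (c := (.blk 1 (.blk 1 (.blk 2 .lf .lf) .lf) (.blk 1 (.blk 1 (.blk 1 .lf .lf) (.blk 2 (.blk 2 .lf (.blk 1 .lf (.blk 0 .lf .lf))) .lf)) (.blk 2 (.blk 0 (.blk 0 .lf .lf) (.blk 0 (.blk 1 .lf .lf) (.blk 0 (.blk 2 .lf (.blk 0 .lf .lf)) (.blk 0 (.blk 2 .lf (.blk 1 .lf .lf)) (.blk 1 (.blk 1 .lf (.blk 1 .lf (.blk 0 .lf (.blk 0 .lf .lf)))) (.blk 1 (.blk 2 .lf (.blk 1 .lf .lf)) (.blk 0 (.blk 3 .lf .lf) .lf))))))) (.blk 1 (.blk 1 (.blk 1 .lf .lf) (.blk 1 (.blk 1 .lf (.blk 1 .lf (.blk 0 .lf .lf))) (.blk 2 (.blk 1 .lf (.blk 0 .lf (.blk 0 .lf (.blk 0 .lf .lf)))) (.blk 3 (.blk 1 .lf (.blk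 0 .lf .lf)) (.blk 0 (.blk 0 .lf .lf) .lf))))) (.blk 1 (.blk 1 (.blk 1 .lf (.blk 0 .lf .lf)) (.blk 1 (.blk 1 .lf (.blk 1 .lf (.blk 0 .lf .lf))) (.blk 2 (.blk 1 .lf (.blk 0 .lf (.blk 0 .lf .lf))) (.blk 2 (.blk 1 .lf .lf) (.blk 0 (.blk 0 .lf .lf) .lf))))) (.blk 1 (.blk 0 (.blk 0 .lf .lf) (.blk 0 (.blk 1 .lf (.blk 0 .lf .lf)) (.blk 0 (.blk 1 .lf (.blk 1 .lf .lf)) (.blk 1 (.blk 1 .lf (.blk 0 .lf (.blk 0 .lf .lf))) (.blk 1 (.blk 1 .lf (.blk 0 .lf .lf)) (.blk 2 (.blk 1 .lf .lf) .lf)))))) (.blk 1 (.blk 0 (.blk 0 .lf .lf) (.blk 0 (.blk 1 .lf .lf) (.blk 0 (.blk 1 .lf (.blk 1 .lf .lf)) (.blk 1 (.blk 0 .lf (.blk 0 .lf (.blk 0 .lf .lf))) (.blk 1 (.blk 1 .lf .lf) (.blk 1 (.blk 0 .lf .lf) .lf)))))) (.blk 1 (.blk 0 (.blk 1 .lf .lf) (.blk 0 (.blk 1 .lf (.blk 0 .lf .lf))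 (.blk 1 (.blk 0 .lf (.blk 0 .lf (.blk 0 .lf .lf))) (.blk 1 (.blk 0 .lf (.blk 0 .lf .lf)) (.blk 0 (.blk 0 .lf .lf) .lf))))) 
(.blk 1 (.blk 0 (.blk 0 .lf .lf) (.blk 0 (.blk 0 .lf (.blk 0 .lf (.blk 0 .lf .lf))) (.blk 0 (.blk 0 .lf (.blk 0 .lf .lf)) (.blk 0 (.blk 1 .lf .lf) (.blk 1 (.blk 0 .lf .lf) .lf))))) (.blk 1 (.blk 0 (.blk 0 .lf .lf) (.blk 0 (.blk 0 .lf (.blk 0 .lf .lf)) (.blk 0 (.blk 0 .lf (.blk 0 .lf .lf)) (.blk 0 (.blk 0 .lf .lf) (.blk 0 (.blk 0 .lf .lf) .lf))))) (.blk 0 (.blk 0 (.blk 1 .lf .lf) (.blk 1 (.blk 0 .lf .lf) .lf)) (.blk 0 (.blk 0 (.blk 0 .lf .lf) (.blk 1 (.blk 0 .lf .lf) .lf)) (.blk 0 (.blk 0 (.blk 0 .lf .lf) (.blk 0 (.blk 0 .lf .lf) .lf)) (.blk 0 (.blk 0 (.blk 0 .lf .lf) .lf) (.blk 0 (.blk 0 (.blk 0 .lf .lf) .lf) .lf)))))))))))))))) (by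 decide) ?_
  decide +kernel

/-- `4` trees, `0` soft positions, total size `38` on `Q_6` -/
theorem qSx_4_0 (h : BaseO 5 LSx) (s : ℕ) (w : List ℕ) (hw : w.length = 4)
    (hs : w.sum ≤ 38) : GdO 6 0 s w :=
  stateO_all (m := 5) (K := 3) (D := 0) (T := 38) (by decide) (CSx_ok h)
    TSx_4_0_ok GSx_4_ok GSx_4_sen GSx_4_full cSx_4_0_0 (by decide) (by decide) s w hw hs

end Pool.Agent.Work.MP_bf01b2_co.MR
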