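import Pool.Agent.Work.MP_bf01b2_co.MR.TSx_5_0

set_option autoImplicit false

namespace Pool.Agent.Work.MP_bf01b2_co.MR

theorem cSx_5_0_0 : Cov 4 31 7 27 FSx_5_0 := by
  refine Cov.run (c := (.blk 1 (.blk 2 (.blk 2 (.blk 2 .lf .lf) .lf) .lf) (.blk 3 (.blk 2 (.blk 2 (.blk 1 .lf (.blk 1 .lf .lf)) .lf) (.blk 3 (.blk 0 (.blk 1 .lf .lf) (.blk 1 (.blk 2 .lf .lf) (.blk 1 (.blk 1 .lf .lf) (.blk 1 (.blk 0 .lf .lf) .lf)))) .lf)) (.blk 3 (.blk 1 (.blk 1 (.blk 1 .lf (.blk 0 .lf .lf)) .lf) (.blk 2 (.blk 0 (.blk 0 .lf .lf) (.blk 1 (.blk 2 .lf .lf) (.blk 2 (.blk 1 .lf .lf) .lf))) (.blk 5 (.blk 1 (.blk 1 .lf .lf) (.blk 1 (.blk 0 .lf .lf) .lf)) .lf))) (.blk 3 (.blk 0 (.blk 0 (.blk 1 .lf .lf) .lf) (.blk 2 (.blk 0 (.blk 0 .lf .lf) (.blk 0 (.blk 0 .lf (.blk 0 .lf .lf)) (.blk 2 (.blk 1 .lf .lf)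 .lf))) (.blk 2 (.blk 1 (.blk 1 .lf .lf) (.blk 0 (.blk 0 .lf .lf) .lf)) (.blk 0 (.blk 0 (.blk 0 .lf .lf) .lf) .lf)))) (.blk 1 (.blk 1 (.blk 1 (.blk 1 .lf .lf) .lf) (.blk 2 (.blk 0 (.blk 0 .lf .lf) (.blk 0 (.blk 0 .lf .lf) .lf)) .lf)) (.blk 1 (.blk 1 (.blk 0 (.blk 0 .lf .lf) (.blk 0 (.blk 0 .lf .lf) .lf)) (.blk 1 (.blk 0 (.blk 0 .lf .lf) .lf) .lf)) (.blk 1 (.blk 1 (.blk 0 (.blk 0 .lf .lf) .lf) .lf) (.blk 0 (.blk 0 (.blk 0 (.blk 0 .lf .lf) .lf) .lf) 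
.lf))))))))) (by decide) ?_
  decide +kernel

/-- `5` trees, `0` soft positions, total size `31` on `Q_6` -/
theorem qSx_5_0 (h : BaseO 5 LSx) (s : ℕ) (w : List ℕ) (hw : w.length = 5)
    (hs : w.sum ≤ 31) : GdO 6 0 s w :=
  stateO_all (m := 5) (K := 4) (D := 0) (T := 31) (by decide) (CSx_ok h)
    TSx_5_0_ok GSx_5_ok GSx_5_sen GSx_5_full cSx_5_0_0 (by decide) (by decide) s w hw hs

end Pool.Agent.Work.MP_bf01b2_co.MR
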