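import Pool.Agent.Work.MP_bf01b2_co.MR.QSx_1_0
import Pool.Agent.Work.MP_bf01b2_co.MR.QSx_1_1
import Pool.Agent.Work.MP_bf01b2_co.MR.QSx_1_2
import Pool.Agent.Work.MP_bf01b2_co.MR.QSx_1_3
import Pool.Agent.Work.MP_bf01b2_co.MR.QSx_1_4
import Pool.Agent.Work.MP_bf01b2_co.MR.QSx_2_0
import Pool.Agent.Work.MP_bf01b2_co.MR.QSx_2_1
import Pool.Agent.Work.MP_bf01b2_co.MR.QSx_2_2
import Pool.Agent.Work.MP_bf01b2_co.MR.QSx_2_3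
import Pool.Agent.Work.MP_bf01b2_co.MR.QSx_3_0
import Pool.Agent.Work.MP_bf01b2_co.MR.QSx_3_1
import Pool.Agent.Work.MP_bf01b2_co.MR.QSx_3_2
import Pool.Agent.Work.MP_bf01b2_co.MR.QSx_4_0
import Pool.Agent.Work.MP_bf01b2_co.MR.QSx_4_1
import Pool.Agent.Work.MP_bf01b2_co.MR.QSx_5_0

set_option autoImplicit false

namespace Pool.Agent.Work.MP_bf01b2_co.MR

/-- the facts of `Q_6` -/
def RSx : List (ℕ × ℕ × ℕ) :=
  [(1, 0, 45), (1, 1, 43), (1, 2, 42), (1, 3, 38), (1, 4, 33), (2, 0, 42), (2, 1, 41), (2, 2, 39), (2, 3, 34), (3, 0, 42), (3, 1, 37), (3, 2, 35), (4, 0, 38), (4, 1, 36), (5, 0, 31)]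

theorem RSx_ok (h : BaseO 5 LSx) : BaseO 6 RSx := by
  unfold RSx
  refine BaseO.cons ?_ (qSx_1_0 h)
  refine BaseO.cons ?_ (qSx_1_1 h)
  refine BaseO.cons ?_ (qSx_1_2 h)
  refine BaseO.cons ?_ (qSx_1_3 h)
  refine BaseO.cons ?_ (qSx_1_4 h)
  refine BaseO.cons ?_ (qSx_2_0 h)
  refine BaseO.cons ?_ (qSx_2_1 h)
  refine BaseO.cons ?_ (qSx_2_2 h)
  refine BaseO.cons ?_ (qSx_2_3 h)
  refine BaseO.cons ?_ (qSx_3_0 h)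
  refine BaseO.cons ?_ (qSx_3_1 h)
  refine BaseO.cons ?_ (qSx_3_2 h)
  refine BaseO.cons ?_ (qSx_4_0 h)
  refine BaseO.cons ?_ (qSx_4_1 h)
  refine BaseO.cons ?_ (qSx_5_0 h)
  exact BaseO.nil

end Pool.Agent.Work.MP_bf01b2_co.MR
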