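import Pool.Agent.Work.MP_bf01b2_co.MR.Q5Base
import Pool.Agent.Work.MP_bf01b2_co.MR.RSx

/-!
# Facts of `Q_6` (generic table step, unconditional)
-/

set_option autoImplicit false

namespace Pool.Agent.Work.MP_bf01b2_co.MR

/-- facts of `Q_6`: `(K, D, cap)` = any `K` trees of total size at most `cap`, at most `D` soft
positions -/
theorem q6_base : BaseO 6 [(5, 0, 31), (4, 1, 36), (4, 0, 38), (3, 2, 35), (3, 1, 37), (3, 0, 42),
    (2, 3, 34), (2, 2, 39), (2, 1, 41), (2, 0, 42), (1, 4, 33), (1, 3, 38), (1, 2, 42), (1, 1, 43),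
    (1, 0, 45)] := by
  intro e he
  refine RSx_ok q5_base e ?_
  unfold RSx
  simp only [List.mem_cons, List.not_mem_nil, or_false] at he ⊢
  tauto

end Pool.Agent.Work.MP_bf01b2_co.MR
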