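import Pool.Agent.Work.MP_bf01b2_co.MR.Kf
import Pool.Agent.Work.MP_bf01b2_co.MR.Kv4
import Pool.Agent.Work.MP_bf01b2_co.MR.Kv5

/-!
# Four and five roots in `Q_6`, all positions

From the facts of `Q_5` with their exact exceptions.
-/

set_option autoImplicit false

namespace Pool.Agent.Work.MP_bf01b2_co.MR

namespace Kn

/-- the facts of `Q_5` which are used -/
def Lu : List (ℕ × ℕ × ℕ) := [(1, 0, 24), (2, 0, 23), (3, 0, 22), (4, 0, 21),
    (1, 1, 23), (2, 1, 23), (3, 1, 22), (4, 1, 21)]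

theorem cu4_ok : CapO 5 cu4 :=
  BaseO.capO q5_base (by decide +kernel : capChk 5 Lu cu4 = true)

theorem cu5_ok : CapO 5 cu5 :=
  BaseO.capO q5_base (by decide +kernel : capChk 5 Lu cu5 = true)

theorem q6_four (s : ℕ) (w : List ℕ) (hw : w.length = 4) (hs : w.sum ≤ 39) : GdO 6 0 s w :=
  full_all hfacts cu4_ok (hi := 36) Tu4_ok (avR_cov v4a (by norm_num)) (by norm_num) (by norm_num)
    s w hw hs

theorem q6_five (s : ℕ) (w : List ℕ) (hw : w.length = 5) (hs : w.sum ≤ 35) : GdO 6 0 s w :=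
  full_all hfacts cu5_ok (hi := 31) Tu5_ok
    ((((avR_cov v5a (hi := 10) (by norm_num)).join (avR_cov v5b (hi := 13) (by norm_num))).join
      (avR_cov v5c (hi := 18) (by norm_num))).join (avR_cov v5d (hi := 31) (by norm_num)))
    (by norm_num) (by norm_num) s w hw hs

end Kn

/-- **Four and five roots in `Q_6`.** -/
theorem q6_baseK : BaseO 6 [(4, 0, 39), (5, 0, 35)] :=
  BaseO.cons (BaseO.cons BaseO.nil fun s w h1 h2 => Kn.q6_five s w h1 h2)
    fun s w h1 h2 => Kn.q6_four s w h1 h2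

end Pool.Agent.Work.MP_bf01b2_co.MR
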