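import Pool.Agent.Work.MP_bf01b2_co.MR.TSy_1_1

set_option autoImplicit false

namespace Pool.Agent.Work.MP_bf01b2_co.MR

theorem cSy_1_1_0 : Cov 0 79 79 79 FSy_1_1 :=
  Cov.one (by decide +kernel)

/-- `1` trees, `1` soft positions, total size `79` on `Q_7` -/
theorem qSy_1_1 (h : BaseO 6 LSy) (s : ℕ) (w : List ℕ) (hw : w.length = 1)
    (hs : w.sum ≤ 79) : GdO 7 1 s w :=
  stateO_all (m := 6) (K := 0) (D := 1) (T := 79) (by decide) (CSy_ok h)
    TSy_1_1_ok GSy_2_ok GSy_2_sen GSy_2_full cSy_1_1_0 (by decide) (by decide) s w hw hs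

end Pool.Agent.Work.MP_bf01b2_co.MR
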