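import Pool.Agent.Work.MP_bf01b2_co.MR.TSy_1_3

set_option autoImplicit false

namespace Pool.Agent.Work.MP_bf01b2_co.MR

theorem cSy_1_3_0 : Cov 0 71 71 71 FSy_1_3 :=
  Cov.one (by decide +kernel)

/-- `1` trees, `3` soft positions, total size `71` on `Q_7` -/
theorem qSy_1_3 (h : BaseO 6 LSy) (s : ℕ) (w : List ℕ) (hw : w.length = 1)
    (hs : w.sum ≤ 71) : GdO 7 3 s w :=
  stateO_all (m := 6) (K := 0) (D := 3) (T := 71) (by decide) (CSy_ok h)
    TSy_1_3_ok GSy_4_ok GSy_4_sen GSy_4_full cSy_1_3_0 (by decide) (by decide) s w hw hs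

end Pool.Agent.Work.MP_bf01b2_co.MR
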