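import Pool.Agent.Work.MP_bf01b2_co.MR.TSy_2_1

set_option autoImplicit false

namespace Pool.Agent.Work.MP_bf01b2_co.MR

theorem cSy_2_1_0 : Cov 1 76 38 75 FSy_2_1 := by
  refine Cov.run (c := (.blk 7 .lf (.blk 3 .lf (.blk 2 .lf (.blk 2 .lf (.blk 1 .lf (.blk 1 .lf (.blk 1 .lf (.blk 1 .lf 
(.blk 1 .lf (.blk 1 .lf (.blk 1 .lf (.blk 1 .lf (.blk 0 .lf (.blk 0 .lf (.blk 0 .lf (.blk 0 .lf 
.lf))))))))))))))))) (by decide) ?_
  decide +kernel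

/-- `2` trees, `1` soft positions, total size `76` on `Q_7` -/
theorem qSy_2_1 (h : BaseO 6 LSy) (s : ℕ) (w : List ℕ) (hw : w.length = 2)
    (hs : w.sum ≤ 76) : GdO 7 1 s w :=
  stateO_all (m := 6) (K := 1) (D := 1) (T := 76) (by decide) (CSy_ok h)
    TSy_2_1_ok GSy_3_ok GSy_3_sen GSy_3_full cSy_2_1_0 (by decide) (by decide) s w hw hs

end Pool.Agent.Work.MP_bf01b2_co.MR
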