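import Pool.Agent.Work.MP_bf01b2_co.MR.TSy_3_0

set_option autoImplicit false

namespace Pool.Agent.Work.MP_bf01b2_co.MR

theorem cSy_3_0_0 : Cov 2 76 26 74 FSy_3_0 := by
  refine Cov.run (c := (.blk 3 (.blk 0 .lf (.blk 1 .lf (.blk 1 .lf .lf))) (.blk 2 (.blk 1 .lf (.blk 2 .lf (.blk 3 .lf (.blk 0 .lf .lf)))) (.blk 2 (.blk 1 .lf (.blk 1 .lf (.blk 2 .lf (.blk 3 .lf (.blk 2 .lf .lf))))) (.blk 1 (.blk 2 .lf (.blk 2 .lf (.blk 3 .lf (.blk 5 .lf (.blk 1 .lf .lf))))) (.blk 2 (.blk 1 .lf (.blk 1 .lf (.blk 1 .lf (.blk 2 .lf (.blk 3 .lf (.blk 4 .lf (.blk 0 .lf .lf))))))) (.blk 2 (.blk 1 .lf (.blk 1 .lf (.blk 1 .lf (.blk 1 .lf (.blk 2 .lf (.blk 3 .lf (.blk 1 .lf .lf))))))) (.blk 1 (.blk 1 .lf (.blk 2 .lf (.blk 2 .lf (.blk 3 .lf (.blk 3 .lf .lf))))) (.blk 1 (.blk 1 .lf (.blk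 2 .lf (.blk 2 .lf (.blk 2 .lf (.blk 3 .lf .lf))))) 
(.blk 1 (.blk 1 .lf (.blk 1 .lf (.blk 1 .lf (.blk 2 .lf (.blk 2 .lf (.blk 1 .lf .lf)))))) (.blk 1 (.blk 1 .lf (.blk 1 .lf (.blk 1 .lf (.blk 2 .lf (.blk 2 .lf (.blk 0 .lf .lf)))))) (.blk 1 (.blk 1 .lf (.blk 1 .lf (.blk 1 .lf (.blk 1 .lf (.blk 1 .lf (.blk 1 .lf .lf)))))) (.blk 1 (.blk 0 .lf (.blk 1 .lf (.blk 1 .lf (.blk 1 .lf (.blk 1 .lf (.blk 1 .lf .lf)))))) (.blk 0 (.blk 1 .lf (.blk 1 .lf (.blk 1 .lf (.blk 1 .lf (.blk 1 .lf .lf))))) (.blk 1 (.blk 0 .lf (.blk 0 .lf (.blk 0 .lf (.blk 0 .lf (.blk 0 .lf (.blk 0 .lf (.blk 0 .lf (.blk 0 .lf 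
(.blk 0 .lf .lf))))))))) (.blk 0 (.blk 1 .lf (.blk 1 .lf (.blk 0 .lf (.blk 0 .lf (.blk 0 .lf (.blk 0 .lf .lf)))))) (.blk 0 (.blk 1 .lf (.blk 1 .lf (.blk 0 .lf (.blk 0 .lf (.blk 0 .lf (.blk 0 .lf .lf)))))) 
(.blk 0 (.blk 1 .lf (.blk 1 .lf (.blk 0 .lf (.blk 0 .lf (.blk 0 .lf .lf))))) (.blk 0 (.blk 1 .lf (.blk 1 .lf (.blk 0 .lf (.blk 0 .lf (.blk 0 .lf .lf))))) (.blk 0 (.blk 1 .lf (.blk 0 .lf (.blk 0 .lf (.blk 0 .lf (.blk 0 .lf .lf))))) (.blk 0 (.blk 1 .lf (.blk 0 .lf (.blk 0 .lf (.blk 0 .lf (.blk 0 .lf .lf))))) (.blk 0 (.blk 1 .lf (.blk 0 .lf (.blk 0 .lf (.blk 0 .lf .lf)))) (.blk 0 (.blk 1 .lf (.blk 0 .lf (.blk 0 .lf (.blk 0 .lf .lf)))) (.blk 0 (.blk 0 .lf (.blk 0 .lf (.blk 0 .lf (.blk 0 .lf .lf)))) (.blk 0 (.blk 0 .lf (.blk 0 .lf (.blk 0 .lf (.blk 0 .lf .lf))))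 
(.blk 0 (.blk 0 .lf (.blk 0 .lf (.blk 0 .lf .lf))) (.blk 0 (.blk 0 .lf (.blk 0 .lf (.blk 0 .lf .lf))) (.blk 0 (.blk 0 .lf (.blk 0 .lf .lf)) (.blk 0 (.blk 0 .lf (.blk 0 .lf .lf)) (.blk 0 (.blk 0 .lf .lf) (.blk 0 (.blk 0 .lf .lf) .lf))))))))))))))))))))))))))))))) (by decide) ?_
  decide +kernel

/-- `3` trees, `0` soft positions, total size `76` on `Q_7` -/
theorem qSy_3_0 (h : BaseO 6 LSy) (s : ℕ) (w : List ℕ) (hw : w.length = 3)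
    (hs : w.sum ≤ 76) : GdO 7 0 s w :=
  stateO_all (m := 6) (K := 2) (D := 0) (T := 76) (by decide) (CSy_ok h)
    TSy_3_0_ok GSy_3_ok GSy_3_sen GSy_3_full cSy_3_0_0 (by decide) (by decide) s w hw hs

end Pool.Agent.Work.MP_bf01b2_co.MR
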