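import Pool.Agent.Work.MP_bf01b2_co.MR.TSy_3_1

set_option autoImplicit false

namespace Pool.Agent.Work.MP_bf01b2_co.MR

theorem cSy_3_1_0 : Cov 2 69 23 67 FSy_3_1 := by
  refine Cov.run (c := (.blk 3 (.blk 3 .lf .lf) (.blk 2 (.blk 4 .lf (.blk 3 .lf .lf)) (.blk 1 (.blk 5 .lf (.blk 5 .lf .lf)) (.blk 3 (.blk 3 .lf (.blk 3 .lf (.blk 4 .lf (.blk 3 .lf .lf)))) (.blk 2 (.blk 3 .lf (.blk 4 .lf (.blk 5 .lf (.blk 0 .lf .lf)))) (.blk 3 (.blk 2 .lf (.blk 2 .lf (.blk 3 .lf (.blk 3 .lf (.blk 0 .lf .lf))))) (.blk 1 (.blk 4 .lf (.blk 5 .lf (.blk 1 .lf .lf))) (.blk 2 (.blk 2 .lf (.blk 2 .lf (.blk 2 .lf (.blk 2 .lf .lf)))) 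
(.blk 2 (.blk 2 .lf (.blk 2 .lf (.blk 2 .lf (.blk 0 .lf .lf)))) (.blk 2 (.blk 2 .lf (.blk 2 .lf (.blk 2 .lf .lf))) (.blk 2 (.blk 2 .lf (.blk 1 .lf (.blk 1 .lf .lf))) (.blk 1 (.blk 2 .lf (.blk 1 .lf (.blk 0 .lf .lf))) (.blk 1 (.blk 1 .lf (.blk 1 .lf (.blk 0 .lf .lf))) (.blk 1 (.blk 0 .lf (.blk 0 .lf (.blk 0 .lf (.blk 0 .lf .lf)))) (.blk 0 (.blk 1 .lf (.blk 0 .lf .lf)) (.blk 0 (.blk 0 .lf (.blk 0 .lf .lf)) 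
(.blk 0 (.blk 0 .lf (.blk 0 .lf .lf)) (.blk 0 (.blk 0 .lf .lf) (.blk 0 (.blk 0 .lf .lf) .lf)))))))))))))))))))) (by decide) ?_
  decide +kernel

/-- `3` trees, `1` soft positions, total size `69` on `Q_7` -/
theorem qSy_3_1 (h : BaseO 6 LSy) (s : ℕ) (w : List ℕ) (hw : w.length = 3)
    (hs : w.sum ≤ 69) : GdO 7 1 s w :=
  stateO_all (m := 6) (K := 2) (D := 1) (T := 69) (by decide) (CSy_ok h)
    TSy_3_1_ok GSy_4_ok GSy_4_sen GSy_4_full cSy_3_1_0 (by decide) (by decide) s w hw hs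

end Pool.Agent.Work.MP_bf01b2_co.MR
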