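import Pool.Agent.Work.MP_bf01b2_co.MR.TSy_3_2

set_option autoImplicit false

namespace Pool.Agent.Work.MP_bf01b2_co.MR

theorem cSy_3_2_0 : Cov 2 62 21 60 FSy_3_2 := by
  refine Cov.run (c := (.blk 2 (.blk 2 .lf .lf) (.blk 3 (.blk 4 .lf (.blk 3 .lf .lf)) (.blk 2 (.blk 5 .lf (.blk 7 .lf .lf)) (.blk 3 (.blk 4 .lf (.blk 3 .lf (.blk 5 .lf .lf))) (.blk 3 (.blk 3 .lf (.blk 3 .lf (.blk 3 .lf (.blk 0 .lf .lf)))) (.blk 3 (.blk 3 .lf (.blk 3 .lf (.blk 2 .lf .lf))) (.blk 1 (.blk 3 .lf (.blk 3 .lf (.blk 0 .lf .lf))) (.blk 1 (.blk 3 .lf (.blk 3 .lf .lf)) 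
(.blk 2 (.blk 1 .lf (.blk 1 .lf (.blk 1 .lf (.blk 0 .lf .lf)))) (.blk 1 (.blk 1 .lf (.blk 1 .lf (.blk 1 .lf .lf))) (.blk 0 (.blk 2 .lf (.blk 1 .lf .lf)) (.blk 1 (.blk 0 .lf (.blk 0 .lf (.blk 0 .lf (.blk 0 .lf .lf)))) (.blk 0 (.blk 1 .lf (.blk 0 .lf .lf)) (.blk 0 (.blk 0 .lf (.blk 0 .lf (.blk 0 .lf .lf))) (.blk 0 (.blk 0 .lf (.blk 0 .lf .lf)) (.blk 0 (.blk 0 .lf (.blk 0 .lf .lf)) 
(.blk 0 (.blk 0 .lf .lf) (.blk 0 (.blk 0 .lf .lf) .lf))))))))))))))))))) (by decide) ?_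
  decide +kernel

/-- `3` trees, `2` soft positions, total size `62` on `Q_7` -/
theorem qSy_3_2 (h : BaseO 6 LSy) (s : ℕ) (w : List ℕ) (hw : w.length = 3)
    (hs : w.sum ≤ 62) : GdO 7 2 s w :=
  stateO_all (m := 6) (K := 2) (D := 2) (T := 62) (by decide) (CSy_ok h)
    TSy_3_2_ok GSy_5_ok GSy_5_sen GSy_5_full cSy_3_2_0 (by decide) (by decide) s w hw hs

end Pool.Agent.Work.MP_bf01b2_co.MR
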