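import Pool.Agent.Work.MP_bf01b2_co.MR.TSy_4_1

set_option autoImplicit false

namespace Pool.Agent.Work.MP_bf01b2_co.MR

theorem cSy_4_1_0 : Cov 3 62 16 59 FSy_4_1 := by
  refine Cov.run (c := (.blk 1 (.blk 1 (.blk 2 .lf .lf) .lf) (.blk 0 (.blk 3 (.blk 3 .lf .lf) .lf) (.blk 2 (.blk 3 (.blk 3 .lf (.blk 0 .lf .lf)) (.blk 2 (.blk 4 .lf (.blk 4 .lf .lf)) .lf)) (.blk 1 (.blk 2 (.blk 3 .lf .lf) (.blk 2 (.blk 5 .lf (.blk 1 .lf .lf)) (.blk 3 (.blk 5 .lf (.blk 3 .lf .lf)) .lf))) (.blk 3 (.blk 3 (.blk 2 .lf (.blk 0 .lf .lf)) (.blk 0 (.blk 4 .lf (.blk 1 .lf .lf)) (.blk 2 (.blk 3 .lf (.blk 2 .lf (.blk 0 .lf (.blk 0 .lf (.blk 0 .lf .lf))))) (.blk 3 (.blk 3 .lf (.blk 2 .lf (.blk 0 .lf .lf))) (.blk 1 (.blk 5 .lf .lf) (.blk 0 (.blk 4 .lf .lf) .lf)))))) (.blk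 2 (.blk 1 (.blk 2 .lf .lf) (.blk 0 (.blk 4 .lf .lf) (.blk 1 (.blk 4 .lf (.blk 1 .lf .lf)) (.blk 3 (.blk 3 .lf (.blk 2 .lf (.blk 0 .lf .lf))) (.blk 5 (.blk 2 .lf (.blk 2 .lf .lf)) (.blk 3 (.blk 2 .lf .lf) .lf)))))) (.blk 2 (.blk 1 (.blk 2 .lf .lf) (.blk 1 (.blk 5 .lf .lf) (.blk 2 (.blk 3 .lf (.blk 2 .lf (.blk 0 .lf .lf))) (.blk 3 (.blk 2 .lf (.blk 1 .lf (.blk 0 .lf .lf))) (.blk 3 (.blk 3 .lf .lf) (.blk 3 (.blk 1 .lf .lf) .lf)))))) (.blk 3 (.blk 0 (.blk 1 .lf .lf) (.blk 2 (.blk 0 .lf (.blk 1 .lf (.blk 1 .lf .lf))) (.blk 2 (.blk 1 .lf (.blk 1 .lf (.blk 1 .lf (.blk 0 .lf .lf)))) (.blk 2 (.blk 1 .lf (.blk 0 .lf (.blk 0 .lf (.blk 0 .lf .lf)))) (.blk 2 (.blk 1 .lf (.blk 1 .lf .lf)) (.blk 2 (.blk 1 .lf .lf) (.blk 0 (.blk 0 .lf .lf) .lf))))))) 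
(.blk 2 (.blk 1 (.blk 1 .lf .lf) (.blk 1 (.blk 2 .lf (.blk 1 .lf .lf)) (.blk 2 (.blk 1 .lf (.blk 1 .lf (.blk 1 .lf .lf))) (.blk 1 (.blk 2 .lf (.blk 0 .lf .lf)) (.blk 1 (.blk 2 .lf .lf) (.blk 3 (.blk 1 .lf .lf) .lf)))))) (.blk 1 (.blk 1 (.blk 1 .lf .lf) (.blk 1 (.blk 2 .lf (.blk 1 .lf .lf)) (.blk 1 (.blk 3 .lf (.blk 0 .lf .lf)) (.blk 2 (.blk 1 .lf (.blk 1 .lf .lf)) (.blk 3 (.blk 1 .lf .lf) .lf))))) (.blk 0 (.blk 1 (.blk 2 .lf .lf) (.blk 3 (.blk 1 .lf (.blk 2 .lf .lf)) (.blk 2 (.blk 2 .lf .lf) (.blk 1 (.blk 0 .lf .lf) .lf)))) (.blk 1 (.blk 0 (.blk 0 .lf .lf) (.blk 0 (.blk 1 .lf .lf) (.blk 0 (.blk 2 .lf (.blk 0 .lf .lf)) (.blk 1 (.blk 1 .lf (.blk 1 .lf .lf)) (.blk 2 (.blk 1 .lf (.blk 0 .lf .lf)) (.blk 1 (.blk 1 .lf .lf) (.blk 0 (.blk 0 .lf .lf)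 .lf))))))) (.blk 1 (.blk 0 (.blk 1 .lf .lf) (.blk 1 (.blk 1 .lf (.blk 0 .lf (.blk 0 .lf .lf))) (.blk 1 (.blk 1 .lf (.blk 0 .lf .lf)) (.blk 1 (.blk 1 .lf .lf) (.blk 1 (.blk 0 .lf .lf) .lf))))) (.blk 1 (.blk 0 (.blk 0 .lf .lf) (.blk 0 (.blk 1 .lf (.blk 0 .lf .lf)) (.blk 1 (.blk 0 .lf (.blk 0 .lf (.blk 0 .lf .lf))) (.blk 1 (.blk 1 .lf .lf) (.blk 1 (.blk 0 .lf .lf) .lf))))) (.blk 1 (.blk 0 (.blk 0 .lf .lf) (.blk 0 (.blk 1 .lf .lf) (.blk 1 (.blk 0 .lf (.blk 0 .lf (.blk 0 .lf .lf))) (.blk 0 (.blk 1 .lf .lf) (.blk 1 (.blk 0 .lf .lf) .lf))))) (.blk 0 (.blk 0 (.blk 1 .lf .lf) (.blk 1 (.blk 1 .lf .lf) (.blk 1 (.blk 0 .lf .lf) .lf))) 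
(.blk 1 (.blk 0 (.blk 0 .lf .lf) (.blk 0 (.blk 0 .lf (.blk 0 .lf .lf)) (.blk 0 (.blk 0 .lf (.blk 0 .lf .lf)) (.blk 1 (.blk 0 .lf .lf) .lf)))) (.blk 1 (.blk 0 (.blk 0 .lf (.blk 0 .lf .lf)) (.blk 0 (.blk 0 .lf .lf) (.blk 0 (.blk 0 .lf .lf) .lf))) (.blk 0 (.blk 1 (.blk 0 .lf .lf) .lf) (.blk 0 (.blk 0 (.blk 0 .lf .lf) .lf) (.blk 0 (.blk 0 (.blk 0 .lf .lf) .lf) .lf)))))))))))))))))))))) (by decide) ?_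
  decide +kernel

/-- `4` trees, `1` soft positions, total size `62` on `Q_7` -/
theorem qSy_4_1 (h : BaseO 6 LSy) (s : ℕ) (w : List ℕ) (hw : w.length = 4)
    (hs : w.sum ≤ 62) : GdO 7 1 s w :=
  stateO_all (m := 6) (K := 3) (D := 1) (T := 62) (by decide) (CSy_ok h)
    TSy_4_1_ok GSy_5_ok GSy_5_sen GSy_5_full cSy_4_1_0 (by decide) (by decide) s w hw hs

end Pool.Agent.Work.MP_bf01b2_co.MR
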