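import Pool.Agent.Work.MP_bf01b2_co.MR.QSy_1_0
import Pool.Agent.Work.MP_bf01b2_co.MR.QSy_1_1
import Pool.Agent.Work.MP_bf01b2_co.MR.QSy_1_2
import Pool.Agent.Work.MP_bf01b2_co.MR.QSy_1_3
import Pool.Agent.Work.MP_bf01b2_co.MR.QSy_1_4
import Pool.Agent.Work.MP_bf01b2_co.MR.QSy_2_0
import Pool.Agent.Work.MP_bf01b2_co.MR.QSy_2_1
import Pool.Agent.Work.MP_bf01b2_co.MR.QSy_2_2
import Pool.Agent.Work.MP_bf01b2_co.MR.QSy_2_3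
import Pool.Agent.Work.MP_bf01b2_co.MR.QSy_3_0
import Pool.Agent.Work.MP_bf01b2_co.MR.QSy_3_1
import Pool.Agent.Work.MP_bf01b2_co.MR.QSy_3_2
import Pool.Agent.Work.MP_bf01b2_co.MR.QSy_4_0
import Pool.Agent.Work.MP_bf01b2_co.MR.QSy_4_1
import Pool.Agent.Work.MP_bf01b2_co.MR.QSy_5_0

set_option autoImplicit false

namespace Pool.Agent.Work.MP_bf01b2_co.MR

/-- the facts of `Q_7` -/
def RSy : List (ℕ × ℕ × ℕ) :=
  [(1, 0, 83), (1, 1, 79), (1, 2, 77), (1, 3, 71), (1, 4, 60), (2, 0, 78), (2, 1, 76), (2, 2, 71), (2, 3, 61), (3, 0, 76), (3, 1, 69), (3, 2, 62), (4, 0, 70), (4, 1, 62), (5, 0, 60)]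

theorem RSy_ok (h : BaseO 6 LSy) : BaseO 7 RSy := by
  unfold RSy
  refine BaseO.cons ?_ (qSy_1_0 h)
  refine BaseO.cons ?_ (qSy_1_1 h)
  refine BaseO.cons ?_ (qSy_1_2 h)
  refine BaseO.cons ?_ (qSy_1_3 h)
  refine BaseO.cons ?_ (qSy_1_4 h)
  refine BaseO.cons ?_ (qSy_2_0 h)
  refine BaseO.cons ?_ (qSy_2_1 h)
  refine BaseO.cons ?_ (qSy_2_2 h)
  refine BaseO.cons ?_ (qSy_2_3 h)
  refine BaseO.cons ?_ (qSy_3_0 h)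
  refine BaseO.cons ?_ (qSy_3_1 h)
  refine BaseO.cons ?_ (qSy_3_2 h)
  refine BaseO.cons ?_ (qSy_4_0 h)
  refine BaseO.cons ?_ (qSy_4_1 h)
  refine BaseO.cons ?_ (qSy_5_0 h)
  exact BaseO.nil

end Pool.Agent.Work.MP_bf01b2_co.MR
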