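import Pool.Agent.Work.MP_bf01b2_co.MR.Q6Base
import Pool.Agent.Work.MP_bf01b2_co.MR.RSy

/-!
# Facts of `Q_7` (generic table step, unconditional)
-/

set_option autoImplicit false

namespace Pool.Agent.Work.MP_bf01b2_co.MR

theorem q7_base : BaseO 7 RSy := by
  refine RSy_ok fun e he => q6_base e ?_
  unfold LSy at he
  simp only [List.mem_cons, List.not_mem_nil, or_false] at he ⊢
  tauto

end Pool.Agent.Work.MP_bf01b2_co.MR
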