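import Pool.Agent.Work.MP_bf01b2_co.MR.TSy_2_3

set_option autoImplicit false

namespace Pool.Agent.Work.MP_bf01b2_co.MR

theorem cSy_2_3_0 : Cov 1 61 31 60 FSy_2_3 := by
  refine Cov.run (c := (.blk 11 .lf (.blk 4 .lf (.blk 3 .lf (.blk 2 .lf (.blk 1 .lf (.blk 1 .lf (.blk 0 .lf (.blk 0 .lf 
.lf))))))))) (by decide) ?_
  decide +kernel

/-- `2` trees, `3` soft positions, total size `61` on `Q_7` -/
theorem qSy_2_3 (h : BaseO 6 LSy) (s : ℕ) (w : List ℕ) (hw : w.length = 2)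
    (hs : w.sum ≤ 61) : GdO 7 3 s w :=
  stateO_all (m := 6) (K := 1) (D := 3) (T := 61) (by decide) (CSy_ok h)
    TSy_2_3_ok GSy_5_ok GSy_5_sen GSy_5_full cSy_2_3_0 (by decide) (by decide) s w hw hs

end Pool.Agent.Work.MP_bf01b2_co.MR
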