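import Pool.Agent.Work.MP_bf01b2_co.MR.Cube

/-!
# Marks recursion: labelled holes (soft positions) and the two-way step

Every hole carries a finite set of positions which its parent must avoid.
-/

set_option autoImplicit false

namespace Pool.Agent.Work.MP_bf01b2_co.MR

/-- Trees with labelled holes: the parent of a hole must avoid the positions of its label. -/
inductive LT (V : Type*) : Type _
  | nil : LT V
  | hole (F : Finset V) : LT V
  | node (l r : LT V) : LT V

namespace LT
variable {V : Type*}

/-- forget the labels -/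
def shape : LT V → HT
  | nil => .nil
  | hole _ => .hole
  | node l r => .node l.shape r.shape

/-- the labels, from left to right -/
def labs : LT V → List (Finset V)
  | nil => []
  | hole F => [F]
  | node l r => l.labs ++ r.labs

/-- number of vertices -/
def size (t : LT V) : ℕ := t.shape.size

/-- number of holes -/
def holes (t : LT V) : ℕ := t.shape.holes

theorem labs_length : ∀ t : LT V, t.labs.length = t.shape.holes
  | nil => rfl
  | hole _ => rfl
  | node l r => by simp [labs, shape, HT.holes, labs_length l, labs_length r]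

@[simp] theorem size_nil : (nil : LT V).size = 0 := rfl
@[simp] theorem size_hole (F : Finset V) : (hole F).size = 0 := rfl
@[simp] theorem size_node (l r : LT V) : (node l r).size = l.size + r.size + 1 := rfl

end LT

/-- A labelled tree with prescribed root. -/
structure LRT (V : Type*) where
  /-- position of the root -/
  pos : V
  /-- left subtree -/
  l : LT V
  /-- right subtree -/
  r : LT V

namespace LRT
variable {V : Type*}

/-- forget the labels -/
def shape (T : LRT V) : RT V := ⟨T.pos, T.l.shape, T.r.shape⟩

/-- the labels -/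
def labs (T : LRT V) : List (Finset V) := T.l.labs ++ T.r.labs

/-- the tree -/
def tree (T : LRT V) : LT V := .node T.l T.r

/-- number of vertices -/
def size (T : LRT V) : ℕ := T.l.size + T.r.size + 1

theorem shape_size (T : LRT V) : T.shape.size = T.size := rfl

theorem shape_tree (T : LRT V) : T.shape.tree = T.tree.shape := rfl

end LRT

/-- grafting into labelled trees -/
inductive LGraft {V : Type*} : LT V → List (LT V) → LT V → Prop
  | nil : LGraft .nil [] .nil
  | hole (F : Finset V) (u : LT V) : LGraft (.hole F) [u] u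
  | node {l r l' r' : LT V} {L M : List (LT V)} (h1 : LGraft l L l') (h2 : LGraft r M r') :
      LGraft (.node l r) (L ++ M) (.node l' r')

section
variable {V : Type*}

theorem LGraft.shape {t t' : LT V} {L : List (LT V)} (h : LGraft t L t') :
    Graft t.shape (L.map LT.shape) t'.shape := by
  induction h with
  | nil => exact Graft.nil
  | hole F u => exact Graft.hole _
  | node h1 h2 ih1 ih2 =>
    rw [List.map_append]
    exact Graft.node ih1 ih2

theorem LGraft.labs {t t' : LT V} {L : List (LT V)} (h : LGraft t L t') :
    t'.labs = L.flatMap LT.labs := by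
  induction h with
  | nil => rfl
  | hole F u => simp
  | node h1 h2 ih1 ih2 => simp [LT.labs, ih1, ih2]

/-- grafting into labelled forests -/
inductive LFGraft : List (LRT V) → List (LT V) → List (LRT V) → Prop
  | nil : LFGraft [] [] []
  | cons {T T' : LRT V} {Ts Ts' : List (LRT V)} {L M N : List (LT V)} (hp : T'.pos = T.pos)
      (h1 : LGraft T.l L T'.l) (h2 : LGraft T.r M T'.r) (h3 : LFGraft Ts N Ts') :
      LFGraft (T :: Ts) (L ++ M ++ N) (T' :: Ts')

theorem LFGraft.shape {Ts Ts' : List (LRT V)} {L : List (LT V)} (h : LFGraft Ts L Ts') :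
    FGraft (Ts.map LRT.shape) (L.map LT.shape) (Ts'.map LRT.shape) := by
  induction h with
  | nil => exact FGraft.nil
  | cons hp h1 h2 _ ih =>
    simp only [List.map_append, List.map_cons]
    exact FGraft.cons hp h1.shape h2.shape ih

theorem LFGraft.labs {Ts Ts' : List (LRT V)} {L : List (LT V)} (h : LFGraft Ts L Ts') :
    Ts'.flatMap LRT.labs = L.flatMap LT.labs := by
  induction h with
  | nil => rfl
  | cons hp h1 h2 _ ih =>
    simp only [List.flatMap_cons, LRT.labs, h1.labs, h2.labs, ih, List.flatMap_append]

/-- `t'` arises from `t` by cutting off some subtrees; `L` has one entry for every hole of `t'`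
(from left to right): `hole F` for an old hole, the piece for a new hole. The label of the new hole
is `nl piece`. No vertex is the parent of two new holes. -/
inductive LCut (nl : LT V → Finset V) : LT V → LT V → List (LT V) → Prop
  | nil : LCut nl .nil .nil []
  | hole (F : Finset V) : LCut nl (.hole F) (.hole F) [.hole F]
  | cut (l r : LT V) : LCut nl (.node l r) (.hole (nl (.node l r))) [.node l r]
  | node {l r l' r' : LT V} {L M : List (LT V)} (h1 : LCut nl l l' L) (h2 : LCut nl r r' M)
      (h3 : ¬ ((∃ x y, L = [.node x y] ∧ ∃ F, l' = .hole F) ∧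
        (∃ x y, M = [.node x y] ∧ ∃ F, r' = .hole F))) :
      LCut nl (.node l r) (.node l' r') (L ++ M)

theorem LCut.graft {nl : LT V → Finset V} {t t' : LT V} {L : List (LT V)}
    (h : LCut nl t t' L) : LGraft t' L t := by
  induction h with
  | nil => exact LGraft.nil
  | hole F => exact LGraft.hole F _
  | cut l r => exact LGraft.hole _ _
  | node _ _ _ ih1 ih2 => exact LGraft.node ih1 ih2

/-- relation between the label of a hole of the cut tree and its entry -/
def HoleRel (nl : LT V → Finset V) (F : Finset V) (u : LT V) : Prop :=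
  u = .hole F ∨ (∃ l r, u = .node l r ∧ F = nl u)

theorem forall₂_append' {α β : Type*} {R : α → β → Prop} {a c : List α} {b d : List β}
    (h1 : List.Forall₂ R a b) (h2 : List.Forall₂ R c d) : List.Forall₂ R (a ++ c) (b ++ d) := by
  induction h1 with
  | nil => exact h2
  | cons h _ ih => exact List.Forall₂.cons h ih

theorem LCut.rel {nl : LT V → Finset V} {t t' : LT V} {L : List (LT V)}
    (h : LCut nl t t' L) : List.Forall₂ (HoleRel nl) t'.labs L := by
  induction h with
  | nil => exact List.Forall₂.nil
  | hole F => exact List.Forall₂.cons (Or.inl rfl) List.Forall₂.nil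
  | cut l r => exact List.Forall₂.cons (Or.inr ⟨l, r, rfl, rfl⟩) List.Forall₂.nil
  | node _ _ _ ih1 ih2 => exact forall₂_append' ih1 ih2

/-- positions of the parents of the new holes -/
def npos : List (LT V) → List V → List V
  | .node _ _ :: L, v :: p => v :: npos L p
  | _ :: L, _ :: p => npos L p
  | _, _ => []

/-- the pieces, placed at the images under `σ` of their parents -/
def pick (σ : V → V) : List (LT V) → List V → List (LRT V)
  | .node l r :: L, v :: p => ⟨σ v, l, r⟩ :: pick σ L p
  | _ :: L, _ :: p => pick σ L p
  | _, _ => []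

theorem pick_pos (σ : V → V) : ∀ (L : List (LT V)) (p : List V),
    (pick σ L p).map LRT.pos = (npos L p).map σ
  | [], p => by simp [pick, npos]
  | a :: L, [] => by cases a <;> simp [pick, npos]
  | .nil :: L, v :: p => by simpa [pick, npos] using pick_pos σ L p
  | .hole F :: L, v :: p => by simpa [pick, npos] using pick_pos σ L p
  | .node l r :: L, v :: p => by simpa [pick, npos] using pick_pos σ L p

theorem npos_append : ∀ {L M : List (LT V)} {p q : List V}, L.length = p.length →
    npos (L ++ M) (p ++ q) = npos L p ++ npos M q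
  | [], M, p, q, h => by
    have : p = [] := by simpa using h.symm
    subst this
    simp [npos]
  | a :: L, M, [], q, h => by simp at h
  | .nil :: L, M, v :: p, q, h => by
    simpa [npos] using npos_append (L := L) (M := M) (p := p) (q := q) (by simpa using h)
  | .hole F :: L, M, v :: p, q, h => by
    simpa [npos] using npos_append (L := L) (M := M) (p := p) (q := q) (by simpa using h)
  | .node l r :: L, M, v :: p, q, h => by
    simpa [npos] using npos_append (L := L) (M := M) (p := p) (q := q) (by simpa using h)

theorem pick_append (σ : V → V) : ∀ {L M : List (LT V)} {p q : List V}, L.length = p.length →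
    pick σ (L ++ M) (p ++ q) = pick σ L p ++ pick σ M q
  | [], M, p, q, h => by
    have : p = [] := by simpa using h.symm
    subst this
    simp [pick]
  | a :: L, M, [], q, h => by simp at h
  | .nil :: L, M, v :: p, q, h => by
    simpa [pick] using pick_append σ (L := L) (M := M) (p := p) (q := q) (by simpa using h)
  | .hole F :: L, M, v :: p, q, h => by
    simpa [pick] using pick_append σ (L := L) (M := M) (p := p) (q := q) (by simpa using h)
  | .node l r :: L, M, v :: p, q, h => by
    simpa [pick] using pick_append σ (L := L) (M := M) (p := p) (q := q) (by simpa using h)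

theorem npos_subset : ∀ {L : List (LT V)} {p : List V} {v : V}, v ∈ npos L p → v ∈ p
  | [], p, v, h => by simp [npos] at h
  | a :: L, [], v, h => by cases a <;> simp [npos] at h
  | .nil :: L, w :: p, v, h => List.mem_cons_of_mem _ (npos_subset (L := L) (by simpa [npos] using h))
  | .hole F :: L, w :: p, v, h =>
    List.mem_cons_of_mem _ (npos_subset (L := L) (by simpa [npos] using h))
  | .node l r :: L, w :: p, v, h => by
    rw [npos, List.mem_cons] at h
    rcases h with rfl | h
    · exact List.mem_cons_self
    · exact List.mem_cons_of_mem _ (npos_subset h)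

end

section emb

variable {V : Type*} [DecidableEq V]

/-- New holes have different parents. -/
theorem LCut.npos_nodup {adj : V → V → Prop} {nl : LT V → Finset V} {t t' : LT V}
    {L : List (LT V)} (h : LCut nl t t' L) :
    ∀ {v : V} {S : Finset V} {p : List V}, Slot adj t'.shape v S p → v ∉ S →
      (npos L p).Nodup ∧ ((∃ w ∈ npos L p, w ∉ S) →
        (∃ x y, L = [.node x y] ∧ ∃ F, t' = .hole F)) ∧ ∀ w ∈ npos L p, w = v ∨ w ∈ S := by
  induction h with
  | nil =>
    rintro v S p ⟨rfl, rfl⟩ -
    simp [npos]
  | hole F =>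
    rintro v S p ⟨rfl, rfl⟩ -
    simp [npos]
  | cut l r =>
    rintro v S p ⟨rfl, rfl⟩ -
    simp [npos]
  | @node l r l' r' L M h1 h2 h3 ih1 ih2 =>
    rintro v S p ⟨x, hvx, A, B, pa, pb, hA, hB, hx, hx', hd, rfl, rfl⟩ hv
    obtain ⟨a1, a2, a3⟩ := ih1 hA hx
    obtain ⟨b1, b2, b3⟩ := ih2 hB hx'
    have hlen : L.length = pa.length := by
      have e1 := h1.graft.shape.length
      rw [List.length_map] at e1
      rw [e1, (slot_length hA).1]
    rw [npos_append hlen]
    refine ⟨?_, ?_, ?_⟩
    · rw [List.nodup_append]
      refine ⟨a1, b1, ?_⟩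
      intro a ha b hb hab
      subst hab
      by_cases haA : a ∈ A
      · rcases b3 a hb with h | h
        · rw [h] at haA; exact hx haA
        · exact (Finset.disjoint_left.mp hd haA) h
      · have hax : a = x := (a3 a ha).resolve_right haA
        have h4 := a2 ⟨a, ha, haA⟩
        have h5 := b2 ⟨a, hb, by rw [hax]; exact hx'⟩
        exact h3 ⟨h4, h5⟩
    · rintro ⟨w, hw, hwS⟩
      exfalso
      apply hwS
      rcases List.mem_append.1 hw with h | h
      · rcases a3 w h with h | h <;> simp [h]
      · rcases b3 w h with h | h <;> simp [h]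
    · intro w hw
      right
      rcases List.mem_append.1 hw with h | h
      · rcases a3 w h with h | h <;> simp [h]
      · rcases b3 w h with h | h <;> simp [h]

/-- Embedding of a labelled forest: the parents of the holes avoid the labels. -/
def LForest (adj : V → V → Prop) (Ts : List (LRT V)) (S : Finset V) (p : List V) : Prop :=
  Forest adj (Ts.map LRT.shape) S p ∧ List.Forall₂ (fun F x => x ∉ F) (Ts.flatMap LRT.labs) p

theorem forall₂_split {α β : Type*} {R : α → β → Prop} : ∀ {a c : List α} {b : List β},
    List.Forall₂ R (a ++ c) b → ∃ b1 b2, b = b1 ++ b2 ∧ List.Forall₂ R a b1 ∧ List.Forall₂ R c b2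
  | [], c, b, h => ⟨[], b, rfl, List.Forall₂.nil, h⟩
  | x :: a, c, b, h => by
    cases h with
    | cons h1 h2 =>
      obtain ⟨b1, b2, rfl, h3, h4⟩ := forall₂_split h2
      exact ⟨_ :: b1, b2, rfl, List.Forall₂.cons h1 h3, h4⟩

theorem forall₂_append_iff {α β : Type*} {R : α → β → Prop} {a c : List α} {b d : List β}
    (hl : a.length = b.length) :
    List.Forall₂ R (a ++ c) (b ++ d) ↔ List.Forall₂ R a b ∧ List.Forall₂ R c d := by
  constructor
  · intro h
    obtain ⟨b1, b2, h1, h2, h3⟩ := forall₂_split h
    have h4 : b.length = b1.length := by rw [← hl, h2.length_eq]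
    obtain ⟨rfl, rfl⟩ := List.append_inj h1 h4
    exact ⟨h2, h3⟩
  · rintro ⟨h1, h2⟩
    exact forall₂_append' h1 h2

theorem root_length {adj : V → V → Prop} {l r : HT} {x : V} {S : Finset V} {p : List V}
    (h : Root adj l r x S p) : p.length = l.holes + r.holes ∧ S.card = l.size + r.size + 1 := by
  obtain ⟨A, B, pa, pb, hA, hB, hx, hx', hd, rfl, rfl⟩ := h
  have h1 := slot_length hA
  have h2 := slot_length hB
  refine ⟨by rw [List.length_append, h1.1, h2.1], ?_⟩
  rw [Finset.card_insert_of_notMem (by simp [hx, hx']), Finset.card_union_of_disjoint hd,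
    h1.2, h2.2]

theorem forest_length {adj : V → V → Prop} : ∀ {Ts : List (RT V)} {S : Finset V} {p : List V},
    Forest adj Ts S p → p.length = (Ts.map RT.holes).sum ∧ S.card = (Ts.map RT.size).sum
  | [], S, p, h => by rw [h.1, h.2]; simp
  | T :: Ts, S, p, h => by
    obtain ⟨A, B, pa, pb, hA, hB, hd, rfl, rfl⟩ := h
    have h1 := root_length hA
    have h2 := forest_length hB
    refine ⟨?_, ?_⟩
    · rw [List.length_append, h1.1, h2.1]; rfl
    · rw [Finset.card_union_of_disjoint hd, h1.2, h2.2]; rfl

theorem LRT.labs_length (T : LRT V) : T.labs.length = T.shape.holes := by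
  simp [LRT.labs, LRT.shape, RT.holes, LT.labs_length]

theorem flatMap_labs_length : ∀ Ts : List (LRT V),
    (Ts.flatMap LRT.labs).length = ((Ts.map LRT.shape).map RT.holes).sum
  | [] => rfl
  | T :: Ts => by
    simp only [List.flatMap_cons, List.length_append, List.map_cons, List.sum_cons]
    rw [flatMap_labs_length Ts, LRT.labs_length]

/-- The pieces in the second side give the slots for all entries of `L`. -/
theorem slots_pick {adj : V → V → Prop} {σ : V → V} (hσ : ∀ v, adj v (σ v))
    {nl : LT V → Finset V} : ∀ {L : List (LT V)} {ls : List (Finset V)} {p : List V},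
    List.Forall₂ (HoleRel nl) ls L → List.Forall₂ (fun F x => x ∉ F) ls p →
    ∀ {U : Finset V} {q : List V}, LForest adj (pick σ L p) U q →
      ∃ q', Slots adj ((L.map LT.shape).zip p) U q' ∧
        List.Forall₂ (fun F x => x ∉ F) (L.flatMap LT.labs) q'
  | [], [], [], _, _, U, q, h => by
    obtain ⟨⟨rfl, rfl⟩, -⟩ := h
    exact ⟨[], ⟨rfl, rfl⟩, List.Forall₂.nil⟩
  | u :: L, F :: ls, v :: p, hL, hp, U, q, h => by
    rw [List.forall₂_cons] at hL hp
    obtain ⟨hu, hL⟩ := hL
    obtain ⟨hv, hp⟩ := hp
    rcases hu with rfl | ⟨l, r, rfl, rfl⟩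
    · have h1 : LForest adj (pick σ L p) U q := h
      obtain ⟨q', h2, h3⟩ := slots_pick hσ hL hp h1
      exact ⟨[v] ++ q', ⟨∅, U, [v], q', ⟨rfl, rfl⟩, h2, by simp, by simp, rfl⟩,
        List.Forall₂.cons hv h3⟩
    · have h1 : LForest adj (⟨σ v, l, r⟩ :: pick σ L p) U q := h
      obtain ⟨⟨A, B, qa, qb, hA, hB, hd, rfl, rfl⟩, h2⟩ := h1
      simp only [List.flatMap_cons] at h2
      have hlen : (LRT.labs (⟨σ v, l, r⟩ : LRT V)).length = qa.length := by
        rw [LRT.labs_length, (root_length hA).1]
        rfl
      rw [forall₂_append_iff hlen] at h2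
      obtain ⟨q', h3, h4⟩ := slots_pick hσ hL hp (U := B) (q := qb) ⟨hB, h2.2⟩
      refine ⟨qa ++ q', ⟨A, B, qa, q', ⟨σ v, hσ v, hA⟩, h3, hd, rfl, rfl⟩, ?_⟩
      rw [List.flatMap_cons]
      exact forall₂_append' h2.1 h4

/-- **Two-way step with soft positions.** `Ts'` (the cut forest of the first side) is embedded with
the labels, afterwards the pieces and the trees `Gs` of the second side. -/
theorem two_way_soft {adj : V → V → Prop} {σ : V → V} (hσ : ∀ v, adj v (σ v))
    {nl : LT V → Finset V} {Ts Ts' Gs : List (LRT V)} {L : List (LT V)}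
    (hg : LFGraft Ts' L Ts) (hrel : List.Forall₂ (HoleRel nl) (Ts'.flatMap LRT.labs) L)
    {S S' : Finset V} {p q : List V} (hF : LForest adj Ts' S p)
    (hG : LForest adj (pick σ L p ++ Gs) S' q) (hd : Disjoint S S') :
    ∃ q', LForest adj (Ts ++ Gs) (S ∪ S') q' := by
  obtain ⟨hG1, hG2⟩ := hG
  rw [List.map_append] at hG1
  obtain ⟨A, B, qa, qb, hA, hB, hdAB, rfl, rfl⟩ := forest_append.1 hG1
  rw [List.flatMap_append, forall₂_append_iff (by
    rw [flatMap_labs_length, (forest_length hA).1])] at hG2
  obtain ⟨q1, h1, h2⟩ := slots_pick hσ hrel hF.2 (U := A) (q := qa) ⟨hA, hG2.1⟩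
  rw [Finset.disjoint_union_right] at hd
  have h3 := forest_graft hg.shape hF.1 h1 hd.1
  refine ⟨q1 ++ qb, ?_, ?_⟩
  · rw [List.map_append]
    refine forest_append.2 ⟨S ∪ A, B, q1, qb, h3, hB, ?_, ?_, rfl⟩
    · rw [Finset.disjoint_union_left]; exact ⟨hd.2, hdAB⟩
    · rw [Finset.union_assoc]
  · rw [List.flatMap_append, hg.labs]
    exact forall₂_append' h2 hG2.2

end emb

end Pool.Agent.Work.MP_bf01b2_co.MR
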