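import Pool.Agent.Work.MP_bf01b2_co.MR.Dir2M
import Pool.Agent.Work.MP_bf01b2_co.MR.StateO

/-!
# One state, with rows for cuttings of one tree: soundness of the check
-/

set_option autoImplicit false

namespace Pool.Agent.Work.MP_bf01b2_co.MR

open Adv (nd rr fB nd_iff rr_iff fB_eq)

/-- **Soundness of the check of one state.** -/
theorem stateM_aux {m s K D : ℕ} (hK : 1 ≤ K) (hN : K + D ≤ m + 1)
    {tab : List EntM} (htl : tab.length = 2 ^ (K + D - 1)) (htab : TabM m s K D tab)
    {w : List (ℕ × ℕ) → ℕ → ℕ → SideM → List (ℕ × ℕ)}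
    (hw : ∀ {X : List (ℕ × ℕ)} {sX sY : ℕ} {sd : SideM} {q : ℕ × ℕ}, q ∈ w X sX sY sd →
      GoodM X sX sY sd q)
    {v : List ℕ} (hv : v.length = K)
    (hchk : Adv.check2 (Adv.groups (K + D) (K + D)) (Adv.sen (K + D)) (Adv.fullN (K + D))
      (mapR (wmM w v) tab) = true) :
    GdO (m + 1) D s v := by
  classical
  refine GdO.of_clean fun Ts hnd hok hsz hsoft hspec hpth hclean => ?_
  have hTl : Ts.length = K := by rw [hsz.length_eq, hv]
  -- the soft positions
  have hcardU : (Finset.univ : Finset (Fin (m + 1) → Bool)).card = 2 ^ (m + 1) := by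
    rw [Finset.card_univ]; simp
  have hposs : (poss Ts).card = K := by
    unfold poss
    rw [List.toFinset_card_of_nodup hnd, List.length_map, hTl]
  obtain ⟨O, hO1, hO2, hO3⟩ := Finset.exists_subsuperset_card_eq
    (s := softs Ts \ poss Ts) (t := Finset.univ \ poss Ts) (n := D)
    (fun x hx => Finset.mem_sdiff.2 ⟨Finset.mem_univ x, (Finset.mem_sdiff.1 hx).2⟩) hsoft (by
      rw [Finset.card_sdiff_of_subset (Finset.subset_univ _), hcardU, hposs]
      have : m + 1 < 2 ^ (m + 1) := Nat.lt_two_pow_self
      omega)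
  have hOd : ∀ x ∈ O, x ∉ poss Ts := fun x hx => (Finset.mem_sdiff.1 (hO2 hx)).2
  obtain ⟨Pl, hPl⟩ : ∃ Pl, Pl = Ts.map LRT.pos ++ O.toList := ⟨_, rfl⟩
  have hPll : Pl.length = K + D := by
    rw [hPl, List.length_append, List.length_map, hTl, Finset.length_toList, hO3]
  have hPnd : Pl.Nodup := by
    rw [hPl, List.nodup_append]
    refine ⟨hnd, Finset.nodup_toList O, ?_⟩
    intro a ha b hb hab
    subst hab
    refine hOd a (Finset.mem_toList.1 hb) ?_
    unfold poss
    exact List.mem_toFinset.2 ha
  let P : ℕ → Fin (m + 1) → Bool := fun i => Pl.getD i (fun _ => false)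
  have hP : ∀ i (hi : i < Pl.length), P i = Pl[i] := fun i hi => by
    simp only [P]
    rw [List.getD_eq_getElem _ _ hi]
  have hPinj : ∀ a b, a < b → b < K + D → P a ≠ P b := by
    intro a b hab hb h
    rw [hP a (by omega), hP b (by omega)] at h
    have := (hPnd.getElem_inj_iff).1 h
    omega
  have hPT : ∀ i T, Ts[i]? = some T → i < K ∧ P i = T.pos := by
    intro i T h
    have h1 : i < Ts.length := by
      by_contra hc
      rw [List.getElem?_eq_none (by omega)] at h
      cases h
    refine ⟨by omega, ?_⟩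
    rw [hP i (by omega)]
    simp only [hPl]
    rw [List.getElem_append_left (by rw [List.length_map]; exact h1), List.getElem_map]
    rw [List.getElem?_eq_getElem h1] at h
    simp only [Option.some.injEq] at h
    rw [h]
  have hPO : ∀ i (hi : i < O.toList.length), P (K + i) = O.toList[i] := by
    intro i hi
    have hi' : i < D := by rwa [Finset.length_toList, hO3] at hi
    rw [hP (K + i) (by omega)]
    simp only [hPl]
    rw [List.getElem_append_right (by rw [List.length_map]; omega)]
    congr 1
    rw [List.length_map, hTl]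
    omega
  obtain ⟨j, g, hg, Dm, q, hq, hDq, hmask, hDm⟩ := Adv.dir2 (n := m + 1) (N := K + D)
    (by omega) hN P hPinj _ hchk
  rw [mapR_eq] at hq
  have hgl : g < tab.length := by rw [htl]; exact hg
  have hget : (tab.map (wmM w v)).getD g [] = wmM w v tab[g] := by
    rw [List.getD_eq_getElem _ _ (by rw [List.length_map]; exact hgl), List.getElem_map]
  rw [hget] at hq
  obtain ⟨e, he⟩ : ∃ e, e = tab[g] := ⟨_, rfl⟩
  rw [← he] at hq
  obtain ⟨hbits, hside0⟩ := htab g hg e (by rw [he]; exact List.getElem?_eq_getElem hgl)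
  obtain ⟨x, hx⟩ := wmM_spec hw hq
  rw [hbits] at hx
  obtain ⟨hxm, hrowA, hrowAS, hrow0, hrow0S, hrowC⟩ := hside0 x
  obtain ⟨sd, hsd⟩ : ∃ sd, sd = e.side x := ⟨_, rfl⟩
  rw [← hsd] at hx hxm hrowA hrowAS hrow0 hrow0S hrowC
  obtain ⟨bs, hbs⟩ : ∃ bs, bs = bitsG K g := ⟨_, rfl⟩
  rw [← hbs] at hx hrowA hrowAS hrow0 hrow0S hrowC
  have hbl : bs.length = Ts.length := by rw [hbs, bitsG_length, hTl]
  have hblv : bs.length = v.length := by rw [hbs, bitsG_length, hv]
  let b : Bool := P 0 j ^^ x
  have hside : ∀ i, i < K + D → ∀ y : Bool, (2 * g).testBit i = (y ^^ x) → P i j = (y ^^ b) := by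
    intro i hi y h
    rw [hmask i hi] at h
    exact bool_aux1 _ _ _ _ h
  have hside' : ∀ i, i < K + D → ∀ y : Bool, P i j = (y ^^ b) → (2 * g).testBit i = (y ^^ x) := by
    intro i hi y h
    rw [hmask i hi, h]
    exact bool_aux2 _ _ _
  have hpos : ∀ y : Bool, ∀ p ∈ selB (y ^^ x) bs Ts 1, p.1.pos j = (y ^^ b) ∧
      ∃ i < K, P i = p.1.pos ∧ p.2 = 2 ^ i := by
    intro y p hp
    obtain ⟨i, h1, h2, h3⟩ := selB_mem (y ^^ x) bs Ts 0 (by simpa using hp)
    rw [hbs] at h1
    obtain ⟨h4, h5⟩ := bitsG_get h1
    obtain ⟨h6, h7⟩ := hPT i _ h2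
    exact ⟨by rw [← h7]; exact hside i (by omega) y h5, i, h6, h7, by simpa using h3⟩
  have hx0 : (false ^^ x) = x := by cases x <;> rfl
  have hx1 : (true ^^ x) = !x := by cases x <;> rfl
  have hb0 : (false ^^ b) = b := by cases b <;> rfl
  have hb1 : (true ^^ b) = !b := by cases b <;> rfl
  let TY : List (LRT (Fin (m + 1) → Bool)) := (selB (!x) bs Ts 1).map Prod.fst
  obtain ⟨TX, hTXd⟩ : ∃ TX : List (LRT (Fin (m + 1) → Bool)),
    TX = (selB x bs Ts 1).map Prod.fst := ⟨_, rfl⟩
  have hperm : (TX ++ TY).Perm Ts := by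
    rw [hTXd]
    exact selB_perm x bs Ts 1 hbl
  have hcount : ∀ y : Bool, (O.filter fun z => z j = (y ^^ b)).card = sft K D g (y ^^ x) := by
    intro y
    unfold sft
    refine card_side j (y ^^ b) hO3 (f := fun i => (2 * g).testBit (K + i)) ?_
    intro i hi
    have hi' : i < D := by rwa [Finset.length_toList, hO3] at hi
    rw [← hPO i hi]
    exact ⟨fun h => hside' (K + i) (by omega) y h, fun h => hside (K + i) (by omega) y h⟩
  have hYV : List.Forall₂ (fun (T : LRT (Fin (m + 1) → Bool)) n => LRT.size T ≤ n) TY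
      ((selB (!x) bs v 1).map Prod.fst) := by
    simp only [TY]
    rw [List.forall₂_map_left_iff, List.forall₂_map_right_iff]
    exact (selB_forall₂ (!x) bs hsz 1).imp fun _ _ h => h.1
  have hcX : (O.filter fun z => z j = b).card = sft K D g x := by
    have := hcount false
    rwa [hb0, hx0] at this
  have hcY : (O.filter fun z => z j = !b).card = sft K D g (!x) := by
    have := hcount true
    rwa [hb1, hx1] at this
  have hTYl : TY.length = bs.count (!x) := by
    simp only [TY]
    rw [List.length_map, selB_length (!x) bs Ts 1 hbl]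
  have hTXl : TX.length = bs.count x := by
    rw [hTXd, List.length_map, selB_length x bs Ts 1 hbl]
  -- marks
  have hOP : ∀ y ∈ O, ∃ i < D, P (K + i) = y := by
    intro y hy
    obtain ⟨k, hk, h5⟩ := List.getElem_of_mem (Finset.mem_toList.2 hy)
    have hk' : k < D := by rwa [Finset.length_toList, hO3] at hk
    exact ⟨k, hk', by rw [hPO k hk, h5]⟩
  have hmark : ∀ y ∈ poss TY ∪ O, ∃ a < K + D, P a = y := by
    intro y hy
    rcases Finset.mem_union.1 hy with h4 | h4
    · obtain ⟨T, hT, h5⟩ := mem_poss.1 h4
      obtain ⟨p2, hp2, rfl⟩ := List.mem_map.1 hT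
      obtain ⟨-, i2, hi2, h6, -⟩ := hpos true p2 (by rw [hx1]; exact hp2)
      exact ⟨i2, by omega, by rw [h6]; exact h5⟩
    · obtain ⟨i, hi, h5⟩ := hOP y h4
      exact ⟨K + i, by omega, h5⟩
  have hmarkY : ∀ a < K + D, P a j = (!b) → P a ∈ poss TY ∪ O.filter (fun z => z j = !b) := by
    intro a ha hab
    by_cases haK : a < K
    · apply Finset.mem_union_left
      have h1 : a < Ts.length := by omega
      have h2 : P a = Ts[a].pos := (hPT a Ts[a] (List.getElem?_eq_getElem h1)).2
      have h3 : Ts[a] ∈ TX ++ TY := hperm.mem_iff.2 (List.getElem_mem h1)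
      rcases List.mem_append.1 h3 with h4 | h4
      · exfalso
        rw [hTXd] at h4
        obtain ⟨p, hp, h5⟩ := List.mem_map.1 h4
        have h6 := (hpos false p (by rw [hx0]; exact hp)).1
        rw [h5, ← h2, hab, hb0] at h6
        cases hbb : b <;> rw [hbb] at h6 <;> cases h6
      · exact mem_poss.2 ⟨_, h4, h2.symm⟩
    · apply Finset.mem_union_right
      have h1 : a - K < O.toList.length := by rw [Finset.length_toList, hO3]; omega
      have h2 := hPO (a - K) h1
      rw [show K + (a - K) = a by omega] at h2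
      rw [Finset.mem_filter]
      exact ⟨by rw [h2]; exact Finset.mem_toList.1 (List.getElem_mem h1), hab⟩
  -- the matched marks of the first side
  obtain ⟨Rs, hRs⟩ : ∃ Rs, Rs = Dm &&& sd.2.2.1 := ⟨_, rfl⟩
  have hRbit : ∀ a, Rs.testBit a = true ↔ a < K + D ∧ P a j = b ∧
      ∃ c < K + D, P c = flip j (P a) := by
    intro a
    rw [hRs, Nat.testBit_and, Bool.and_eq_true, hDm, hxm]
    constructor
    · rintro ⟨⟨h1, h2⟩, -, h3⟩
      have h4 := hside a h1 false (by rw [h3, hx0])
      rw [hb0] at h4
      exact ⟨h1, h4, h2⟩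
    · rintro ⟨h1, h2, h3⟩
      have h4 := hside' a h1 false (by rw [h2, hb0])
      rw [hx0] at h4
      exact ⟨⟨h1, h3⟩, h1, h4⟩
  have hη : ((O.filter (fun z => z j = b)).filter (fun z => flip j z ∈ poss TY ∪ O)).card ≤
      cnt Rs K D := by
    refine eta_le j b hOP ?_
    intro i hi h1 h2
    rw [hRbit]
    exact ⟨by omega, h1, hmark _ h2⟩
  have hYc : (poss TY ∪ O.filter (fun z => z j = !b)).card ≤ bs.count (!x) + sft K D g (!x) := by
    refine (Finset.card_union_le _ _).trans ?_
    rw [hcY]
    have h1 : (poss TY).card ≤ bs.count (!x) := by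
      rw [← hTYl]
      unfold poss
      refine (List.toFinset_card_le _).trans ?_
      rw [List.length_map]
    omega
  obtain ⟨MX, hMX⟩ : ∃ MX, MX = (((((List.range (K + D)).filter fun i => Rs.testBit i).map
    P).toFinset).image (flip j)) := ⟨_, rfl⟩
  have hMXc : MX.card = cnt Rs 0 K + cnt Rs K D := by
    rw [hMX, matched_card j hPinj, cnt_add]
  have hMXs : MX ⊆ poss TY ∪ O.filter (fun z => z j = !b) := by
    intro y hy
    rw [hMX, Finset.mem_image] at hy
    obtain ⟨z, hz, rfl⟩ := hy
    rw [List.mem_toFinset, List.mem_map] at hz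
    obtain ⟨a, ha, rfl⟩ := hz
    obtain ⟨-, h2⟩ := List.mem_filter.1 ha
    obtain ⟨-, h3, c, hc, h4⟩ := (hRbit a).1 h2
    rw [← h4]
    refine hmarkY c hc ?_
    rw [h4, flip_apply_self, h3]
  have hrhc : cnt Rs 0 K + cnt Rs K D ≤ bs.count (!x) + sft K D g (!x) := by
    rw [← hMXc]
    exact (Finset.card_le_card hMXs).trans hYc
  have hν : (newM j b TX [] TY O).card ≤
      bs.count (!x) + sft K D g (!x) - (cnt Rs 0 K + cnt Rs K D) := by
    have h1 : newM j b TX [] TY O ⊆ (poss TY ∪ O.filter (fun z => z j = !b)) \ MX := by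
      intro y hy
      unfold newM at hy
      rw [Finset.mem_sdiff] at hy
      obtain ⟨h2, h3⟩ := hy
      rw [Finset.mem_union, not_or] at h3
      replace h3 := h3.1
      refine Finset.mem_sdiff.2 ⟨h2, fun h4 => h3 ?_⟩
      rw [hMX, Finset.mem_image] at h4
      obtain ⟨z, hz, rfl⟩ := h4
      rw [List.mem_toFinset, List.mem_map] at hz
      obtain ⟨a, ha, rfl⟩ := hz
      obtain ⟨-, h5⟩ := List.mem_filter.1 ha
      obtain ⟨h6, h7, -⟩ := (hRbit a).1 h5
      refine Finset.mem_image_of_mem _ ?_
      by_cases haK : a < K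
      · apply Finset.mem_union_left
        have h8 : a < Ts.length := by omega
        have h9 : P a = Ts[a].pos := (hPT a Ts[a] (List.getElem?_eq_getElem h8)).2
        have h10 : Ts[a] ∈ TX ++ TY := hperm.mem_iff.2 (List.getElem_mem h8)
        rcases List.mem_append.1 h10 with h11 | h11
        · exact mem_poss.2 ⟨_, h11, h9.symm⟩
        · exfalso
          simp only [TY] at h11
          obtain ⟨p, hp, h12⟩ := List.mem_map.1 h11
          have h13 := (hpos true p (by rw [hx1]; exact hp)).1
          rw [h12, ← h9, h7, hb1] at h13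
          cases hbb : b <;> rw [hbb] at h13 <;> cases h13
      · apply Finset.mem_union_right
        have h8 : a - K < O.toList.length := by rw [Finset.length_toList, hO3]; omega
        have h9 := hPO (a - K) h8
        rw [show K + (a - K) = a by omega] at h9
        rw [Finset.mem_filter]
        exact ⟨by rw [h9]; exact Finset.mem_toList.1 (List.getElem_mem h8), h7⟩
    refine (Finset.card_le_card h1).trans ?_
    rw [Finset.card_sdiff_of_subset hMXs, hMXc]
    omega
  -- common data of the forest
  have hndp : ((TX ++ TY).map LRT.pos).Nodup := by rw [(hperm.map LRT.pos).nodup_iff]; exact hnd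
  have hTXj : ∀ T ∈ TX, T.pos j = b := by
    intro T hT
    rw [hTXd] at hT
    obtain ⟨p, hp, rfl⟩ := List.mem_map.1 hT
    have := (hpos false p (by rw [hx0]; exact hp)).1
    rwa [hb0] at this
  have hTYj : ∀ T ∈ TY, T.pos j = !b := by
    intro T hT
    obtain ⟨p, hp, rfl⟩ := List.mem_map.1 hT
    have := (hpos true p (by rw [hx1]; exact hp)).1
    rwa [hb1] at this
  have hflag : ∀ R : ℕ, (∀ i, Rs.testBit i = true → R.testBit i = true) →
      ∀ p ∈ selB x bs Ts 1, flip j p.1.pos ∈ poss TY ∪ O → inR R p.2 = true := by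
    intro R hR p hp hflip
    obtain ⟨h0, i, hi, h1, h2⟩ := hpos false p (by rw [hx0]; exact hp)
    rw [h2, bit_land]
    apply hR
    rw [hRbit]
    refine ⟨by omega, by rw [h1, h0, hb0], ?_⟩
    rw [h1]
    exact hmark _ hflip
  -- the standard test
  have hstd : ∀ (R : ℕ) (row : List (ℕ × ℕ)), (∀ i, Rs.testBit i = true → R.testBit i = true) →
      RowO m s (bs.count x) (sft K D g x) (bs.count (!x)) (sft K D g (!x)) (cnt Rs K D)
        (bs.count (!x) + sft K D g (!x) - (cnt Rs 0 K + cnt Rs K D)) row →
      tstR row (selB x bs v 1) (sumF (selB x bs v 1)) (sumF (selB (!x) bs v 1)) R = true →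
      ∃ S, Emb (cadj (m + 1)) Ts S := by
    intro R row hR hrow htst
    obtain ⟨hy, hgm⟩ := tstR_iff htst
    let PX : List (LRT (Fin (m + 1) → Bool) × Bool) :=
      (selB x bs Ts 1).map fun p => (p.1, inR R p.2)
    have hPXf : PX.map Prod.fst = TX := by
      simp only [PX, hTXd, List.map_map]
      rfl
    have hXV : List.Forall₂ (fun (p : LRT (Fin (m + 1) → Bool) × Bool) n => LRT.size p.1 ≤ n) PX
        ((selB x bs v 1).map Prod.fst) := by
      simp only [PX]
      rw [List.forall₂_map_left_iff, List.forall₂_map_right_iff]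
      exact (selB_forall₂ x bs hsz 1).imp fun _ _ h => h.1
    have hA : (actR R (selB x bs v 1)).Perm (List.zipWith
        (fun (p : LRT (Fin (m + 1) → Bool) × Bool) n => actN p.2 n) PX
          ((selB x bs v 1).map Prod.fst)) := by
      have h1 : List.zipWith (fun (p : LRT (Fin (m + 1) → Bool) × Bool) n => actN p.2 n) PX
          ((selB x bs v 1).map Prod.fst) =
          (selB x bs v 1).map fun p => actN (inR R p.2) p.1 := by
        have h2 := selB_forall₂ x bs hsz 1
        simp only [PX]
        generalize selB x bs Ts 1 = L1 at h2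
        generalize selB x bs v 1 = L2 at h2
        induction h2 with
        | nil => rfl
        | cons h _ ih =>
          simp only [List.map_cons, List.zipWith_cons_cons, h.2]
          rw [ih]
      rw [h1]
      exact actR_perm R _
    obtain ⟨S, hS⟩ := dirO_emb (s := s) (η := cnt Rs K D)
      (ν := bs.count (!x) + sft K D g (!x) - (cnt Rs 0 K + cnt Rs K D))
      j b (PX := PX) (TY := TY) (O := O)
      (by rw [hPXf]; exact hndp)
      (fun T hT => hok T (hperm.mem_iff.1 (by rw [hPXf] at hT; exact hT)))
      (fun T hT => hpth T (hperm.mem_iff.1 (by rw [hPXf] at hT; exact hT)))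
      (by
        rw [hPXf]
        intro T hT F hF
        rw [poss_perm hperm]
        exact hclean T (hperm.mem_iff.1 hT) F hF)
      (by rw [hPXf, nspec_perm hperm]; exact hspec)
      (by rw [hPXf]; exact hTXj) hTYj
      (by rw [hPXf, softs_perm hperm, poss_perm hperm]; exact hO1)
      (by
        rw [hPXf, poss_perm hperm, Finset.disjoint_left]
        exact hOd)
      (by
        intro p hp hflip
        obtain ⟨p', hp', rfl⟩ := List.mem_map.1 hp
        exact hflag R hR p' hp' hflip)
      hη (by rw [hPXf]; exact hν) hXV hYV (row := row) (by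
        rw [hcX, hcY, List.length_map, List.length_map, selB_length x bs v 1 hblv,
          selB_length (!x) bs v 1 hblv]
        exact hrow) hA (by rw [← sumF_eq]; exact hy) (by rw [← sumF_eq, ← sumF_eq]; exact hgm)
    rw [hPXf] at hS
    exact ⟨S, hS.perm hperm⟩
  -- the test for cuttings of one tree
  have hstdS : ∀ (R : ℕ) (row : List (ℕ × ℕ)) (ν : ℕ),
      (∀ i, Rs.testBit i = true → R.testBit i = true) →
      bs.count (!x) + sft K D g (!x) - (cnt Rs 0 K + cnt Rs K D) ≤ ν →
      (row ≠ [] → RowS m s (bs.count x) (sft K D g x) (bs.count (!x)) (sft K D g (!x)) ν row) →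
      tstS row (selB x bs v 1) (sumF (selB x bs v 1)) (sumF (selB (!x) bs v 1)) R = true →
      ∃ S, Emb (cadj (m + 1)) Ts S := by
    intro R row ν hR hνν hrow' htst
    obtain ⟨hne, hy, L1, p0, L2, hX, hgm⟩ := tstS_iff htst
    have hrow := hrow' hne
    have hsel := selB_forall₂ x bs hsz 1
    rw [hX] at hsel
    obtain ⟨U1, hU1⟩ : ∃ U1, U1 = (selB x bs Ts 1).take L1.length := ⟨_, rfl⟩
    obtain ⟨U2, hU2⟩ : ∃ U2, U2 = (selB x bs Ts 1).drop L1.length := ⟨_, rfl⟩
    have hf1 := List.forall₂_take_append _ _ _ hsel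
    have hf2 := List.forall₂_drop_append _ _ _ hsel
    rw [← hU1] at hf1
    rw [← hU2] at hf2
    have hUU : selB x bs Ts 1 = U1 ++ U2 := by
      rw [hU1, hU2, List.take_append_drop]
    cases hf2 with
    | @cons u0 _ U3 _ hu0 hf3 =>
      have hpX : (u0.1 :: (U1 ++ U3).map Prod.fst).Perm TX := by
        rw [hTXd, hUU, List.map_append, List.map_append, List.map_cons]
        exact List.perm_middle.symm
      have hperm' : ((u0.1 :: (U1 ++ U3).map Prod.fst) ++ TY).Perm Ts :=
        (hpX.append_right TY).trans hperm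
      have hf4 : List.Forall₂ (fun (a : LRT (Fin (m + 1) → Bool) × ℕ) (b : ℕ × ℕ) =>
          LRT.size a.1 ≤ b.1 ∧ a.2 = b.2) (U1 ++ U3) (L1 ++ L2) := forall₂_append' hf1 hf3
      have hXV : List.Forall₂ (fun (T : LRT (Fin (m + 1) → Bool)) n => LRT.size T ≤ n)
          ((U1 ++ U3).map Prod.fst) ((L1 ++ L2).map Prod.fst) := by
        rw [List.forall₂_map_left_iff, List.forall₂_map_right_iff]
        exact hf4.imp fun _ _ h => h.1
      have hsumX : sumF (selB x bs v 1) = p0.1 + ((L1 ++ L2).map Prod.fst).sum := by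
        rw [sumF_eq, hX]
        simp only [List.map_append, List.map_cons, List.sum_append, List.sum_cons]
        omega
      have hlenX : ((L1 ++ L2).map Prod.fst).length + 1 = bs.count x := by
        have h1 := selB_length x bs v 1 hblv
        rw [hX] at h1
        simp only [List.length_append, List.length_cons, List.length_map] at h1 ⊢
        omega
      have hmemU : u0 ∈ selB x bs Ts 1 := by
        rw [hUU]
        exact List.mem_append_right _ List.mem_cons_self
      have hposX : poss (u0.1 :: (U1 ++ U3).map Prod.fst) = poss TX := poss_perm hpX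
      obtain ⟨S, hS⟩ := dirS_emb (s := s) (ν := ν) j b (W := u0.1)
        (TX := (U1 ++ U3).map Prod.fst) (TY := TY) (O := O)
        (by rw [(hperm'.map LRT.pos).nodup_iff]; exact hnd)
        (fun T hT => hok T (hperm'.mem_iff.1 hT))
        (fun T hT => hpth T (hperm'.mem_iff.1 hT))
        (by
          intro T hT F hF
          rw [poss_perm hperm']
          exact hclean T (hperm'.mem_iff.1 hT) F hF)
        (by rw [nspec_perm hperm']; exact hspec)
        (fun T hT => hTXj T (hpX.mem_iff.1 hT)) hTYj
        (by rw [softs_perm hperm', poss_perm hperm']; exact hO1)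
        (by
          rw [poss_perm hperm', Finset.disjoint_left]
          exact hOd)
        (fl := inR R p0.2)
        (by
          intro hflip
          rw [← hu0.2]
          exact hflag R hR u0 hmemU hflip)
        (by
          have h1 : newM j b (u0.1 :: (U1 ++ U3).map Prod.fst) [] TY O = newM j b TX [] TY O := by
            unfold newM
            rw [hposX]
          rw [h1]
          exact hν.trans hνν)
        (vW := p0.1) hu0.1 hXV hYV (row := row) (by
          rw [hcX, hcY, hlenX, List.length_map, selB_length (!x) bs v 1 hblv]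
          exact hrow) (by rw [← sumF_eq]; exact hy) (by
          rw [hsumX, sumF_eq] at hgm
          exact hgm)
      exact ⟨S, hS.perm hperm'⟩
  rcases hx with ⟨hq1, htst⟩ | ⟨hq1, htst⟩ | ⟨c, hc, R, hR, hq1, htst⟩ |
    ⟨c, hc, R, hR, hq1, htw, htst⟩
  · -- everything restricted
    have hRR : ∀ i, Rs.testBit i = true → sd.2.2.1.testBit i = true := by
      intro i hi
      rw [hRs, Nat.testBit_and, Bool.and_eq_true] at hi
      exact hi.2
    unfold tstP at htst
    rw [rr_iff] at htst
    rcases htst with htst | htst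
    · refine hstd sd.2.2.1 sd.1.1 hRR ?_ htst
      refine (hrowA (cnt Rs K D) ?_ (by omega)).mono le_rfl (by omega)
      apply cnt_le_sft
      intro i hi
      rw [hRs, Nat.testBit_and, Bool.and_eq_true] at hi
      exact (hxm i).1 hi.2
    · exact hstdS sd.2.2.1 sd.1.2 _ hRR (Nat.sub_le _ _) hrowAS htst
  · -- nothing matched
    have h0 : Rs = 0 := by
      rw [hRs]
      rw [hq1] at hDq
      exact hDq
    have hc0 : ∀ lo n, cnt Rs lo n = 0 := by
      intro lo n
      rw [h0]
      simp [cnt]
    unfold tstP at htst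
    rw [rr_iff] at htst
    rcases htst with htst | htst
    · refine hstd 0 sd.2.1.1 ?_ ?_ htst
      · rw [h0]
        exact fun _ h => h
      · rw [hc0, hc0]
        simpa using hrow0
    · exact hstdS 0 sd.2.1.2 _ (by rw [h0]; exact fun _ h => h) (Nat.sub_le _ _) hrow0S htst
  · have h0 : Rs = R := by
      rw [hRs]
      rw [hq1] at hDq
      exact hDq
    unfold tstP at htst
    rw [rr_iff] at htst
    rcases htst with htst | htst
    · refine hstd R c.1.1 (by rw [h0]; exact fun _ h => h) ?_ htst
      rw [h0]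
      exact (hrowC c hc R hR).1
    · refine hstdS R c.1.2 _ (by rw [h0]; exact fun _ h => h) ?_ (hrowC c hc R hR).2.2 htst
      rw [h0]
  · -- two active subtrees
    have h0 : Rs = R := by
      rw [hRs]
      rw [hq1] at hDq
      exact hDq
    obtain ⟨hrow, htwo, -⟩ := hrowC c hc R hR
    obtain ⟨hη0, hν0, hfull⟩ := htwo htw
    obtain ⟨hy, L1, p0, L2, A, hX, hp0, hA, hgm⟩ := tst2_iff htst
    have hsel := selB_forall₂ x bs hsz 1
    rw [hX] at hsel
    obtain ⟨U1, hU1⟩ : ∃ U1, U1 = (selB x bs Ts 1).take L1.length := ⟨_, rfl⟩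
    obtain ⟨U2, hU2⟩ : ∃ U2, U2 = (selB x bs Ts 1).drop L1.length := ⟨_, rfl⟩
    have hf1 := List.forall₂_take_append _ _ _ hsel
    have hf2 := List.forall₂_drop_append _ _ _ hsel
    rw [← hU1] at hf1
    rw [← hU2] at hf2
    have hUU : selB x bs Ts 1 = U1 ++ U2 := by
      rw [hU1, hU2, List.take_append_drop]
    cases hf2 with
    | @cons u0 _ U3 _ hu0 hf3 =>
      let PX : List (LRT (Fin (m + 1) → Bool) × Bool) :=
        (U1 ++ U3).map fun p => (p.1, inR R p.2)
      have hPXf : PX.map Prod.fst = (U1 ++ U3).map Prod.fst := by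
        simp only [PX, List.map_map]
        rfl
      have hpX : (u0.1 :: PX.map Prod.fst).Perm TX := by
        rw [hPXf, hTXd, hUU, List.map_append, List.map_append, List.map_cons]
        exact List.perm_middle.symm
      have hperm' : ((u0.1 :: PX.map Prod.fst) ++ TY).Perm Ts :=
        (hpX.append_right TY).trans hperm
      have hf4 : List.Forall₂ (fun (a : LRT (Fin (m + 1) → Bool) × ℕ) (b : ℕ × ℕ) =>
          LRT.size a.1 ≤ b.1 ∧ a.2 = b.2) (U1 ++ U3) (L1 ++ L2) := forall₂_append' hf1 hf3
      have hXV : List.Forall₂ (fun (p : LRT (Fin (m + 1) → Bool) × Bool) n => LRT.size p.1 ≤ n) PX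
          ((L1 ++ L2).map Prod.fst) := by
        simp only [PX]
        rw [List.forall₂_map_left_iff, List.forall₂_map_right_iff]
        exact hf4.imp fun _ _ h => h.1
      have hA' : A.Perm (List.zipWith
          (fun (p : LRT (Fin (m + 1) → Bool) × Bool) n => actN p.2 n) PX
            ((L1 ++ L2).map Prod.fst)) := by
        have h1 : List.zipWith (fun (p : LRT (Fin (m + 1) → Bool) × Bool) n => actN p.2 n) PX
            ((L1 ++ L2).map Prod.fst) = (L1 ++ L2).map fun p => actN (inR R p.2) p.1 := by
          simp only [PX]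
          generalize U1 ++ U3 = V1 at hf4
          generalize L1 ++ L2 = V2 at hf4
          induction hf4 with
          | nil => rfl
          | cons h _ ih =>
            simp only [List.map_cons, List.zipWith_cons_cons, h.2]
            rw [ih]
        rw [h1]
        exact hA
      have hsumX : sumF (selB x bs v 1) = p0.1 + ((L1 ++ L2).map Prod.fst).sum := by
        rw [sumF_eq, hX]
        simp only [List.map_append, List.map_cons, List.sum_append, List.sum_cons]
        omega
      have hlenX : ((L1 ++ L2).map Prod.fst).length + 1 = bs.count x := by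
        have h1 := selB_length x bs v 1 hblv
        rw [hX] at h1
        simp only [List.length_append, List.length_cons, List.length_map] at h1 ⊢
        omega
      have hmemU : ∀ p ∈ U1 ++ U3, p ∈ selB x bs Ts 1 := by
        intro p hp
        rw [hUU]
        rcases List.mem_append.1 hp with h | h
        · exact List.mem_append_left _ h
        · exact List.mem_append_right _ (List.mem_cons_of_mem _ h)
      have hposX : poss (u0.1 :: PX.map Prod.fst) = poss TX := poss_perm hpX
      obtain ⟨S, hS⟩ := dirO_emb2 (s := s) j b (T0 := u0.1) (PX := PX) (TY := TY) (O := O)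
        (by rw [(hperm'.map LRT.pos).nodup_iff]; exact hnd)
        (fun T hT => hok T (hperm'.mem_iff.1 hT))
        (fun T hT => hpth T (hperm'.mem_iff.1 hT))
        (by
          intro T hT F hF
          rw [poss_perm hperm']
          exact hclean T (hperm'.mem_iff.1 hT) F hF)
        (by rw [nspec_perm hperm']; exact hspec)
        (fun T hT => hTXj T (hpX.mem_iff.1 hT)) hTYj
        (by rw [softs_perm hperm', poss_perm hperm']; exact hO1)
        (by
          rw [poss_perm hperm', Finset.disjoint_left]
          exact hOd)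
        (by
          intro p hp hflip
          obtain ⟨p', hp', rfl⟩ := List.mem_map.1 hp
          exact hflag R (by rw [h0]; exact fun _ h => h) p' (hmemU p' hp') hflip)
        (by
          refine hη.trans ?_
          rw [h0, hη0])
        (by
          have h1 : newM j b (u0.1 :: PX.map Prod.fst) [] TY O = newM j b TX [] TY O := by
            unfold newM
            rw [hposX]
          rw [h1]
          refine hν.trans ?_
          rw [h0]
          exact hν0.le)
        (W := p0.1) hu0.1 hXV hYV (row := c.1.1) (by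
          rw [hcX, hcY, hlenX, List.length_map, selB_length (!x) bs v 1 hblv]
          rw [hη0] at hrow
          rw [hη0] at hν0
          rw [hν0] at hrow
          exact hrow) (by
          rw [hcX, hlenX]
          exact hfull) hA' (by rw [← sumF_eq]; exact hy) (by
          intro c1 h1 h2
          have h3 := hgm c1 h1 h2
          rw [hsumX, sumF_eq] at h3
          exact h3)
      exact ⟨S, hS.perm hperm'⟩

/-- **Soundness of the check of one state.** -/
theorem stateM_emb {m s K D : ℕ} (hK : 1 ≤ K) (hN : K + D ≤ m + 1)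
    {tab : List EntM} (htl : tab.length = 2 ^ (K + D - 1)) (htab : TabM m s K D tab)
    {v : List ℕ} (hv : v.length = K)
    (hchk : chkM (Adv.groups (K + D) (K + D)) (Adv.sen (K + D)) (Adv.fullN (K + D)) tab v = true) :
    GdO (m + 1) D s v := by
  unfold chkM at hchk
  rw [rr_iff] at hchk
  rcases hchk with h | h
  · exact stateM_aux hK hN htl htab w1m_spec hv h
  · exact stateM_aux hK hN htl htab w2m_spec hv h

end Pool.Agent.Work.MP_bf01b2_co.MR
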