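import Pool.Agent.Work.MP_bf01b2_co.MR.LevelRaw

/-!
# Marks recursion: states with persistent soft positions, counted in units

`mult Ts x` is the number of holes whose label contains `x`. With a parameter `ν` (the largest number
of pieces of one step) a soft position `x` outside of the roots costs `⌈mult Ts x / ν⌉` units.
`Gn m D ν v`: every labelled forest on `Q_m` with sizes at most `v` and at most `D` units embeds.
A step with at most `ν` pieces adds at most one unit for every root of the second side, and at most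
`ν * D_Y` holes are relevant for the cutting.
-/

set_option autoImplicit false

namespace Pool.Agent.Work.MP_bf01b2_co.MR

/-! ### Labels may be assumed to be disjoint from the roots -/

section strip
variable {V : Type*} [DecidableEq V]

/-- remove the positions of `O` from all labels -/
def stripT (O : Finset V) : LRT V → LRT V := LRT.mapL id (fun F => F \ O)

theorem stripT_pos (O : Finset V) (T : LRT V) : (stripT O T).pos = T.pos := rfl

theorem stripT_size (O : Finset V) (T : LRT V) : (stripT O T).size = T.size := by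
  simp only [stripT, LRT.mapL, LRT.size, LT.size, LT.mapL_shape]

theorem strip_poss (O : Finset V) (Ts : List (LRT V)) : poss (Ts.map (stripT O)) = poss Ts := by
  unfold poss
  rw [List.map_map]
  rfl

theorem strip_poss' (O : Finset V) (Ts : List (LRT V)) :
    (Ts.map (stripT O)).map LRT.pos = Ts.map LRT.pos := by
  rw [List.map_map]
  rfl

theorem strip_labs (O : Finset V) (Ts : List (LRT V)) :
    (Ts.map (stripT O)).flatMap LRT.labs = (Ts.flatMap LRT.labs).map (fun F => F \ O) := by
  unfold stripT
  rw [flatMap_mapL]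

theorem mapL_top_subset {g : Finset V → Finset V} (hg : ∀ F, g F ⊆ F) (t : LT V) :
    (t.mapL g).top ⊆ t.top := by
  cases t with
  | nil => simp [LT.mapL, LT.top]
  | hole F => exact hg F
  | node _ _ => simp [LT.mapL, LT.top]

theorem mapL_rootOK {g : Finset V → Finset V} (hg : ∀ F, g F ⊆ F) {T : LRT V} (h : RootOK T) :
    RootOK (LRT.mapL id g T) :=
  ⟨fun h1 => h.1 (mapL_top_subset hg T.l h1), fun h1 => h.2 (mapL_top_subset hg T.r h1)⟩

theorem strip_ok {O : Finset V} {T : LRT V} (h : RootOK T) : RootOK (stripT O T) :=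
  mapL_rootOK (fun _ => Finset.sdiff_subset) h

theorem mult_strip {O : Finset V} {Ts : List (LRT V)} {x : V} :
    mult (Ts.map (stripT O)) x = if x ∈ O then 0 else mult Ts x := by
  unfold mult
  rw [strip_labs, List.countP_map]
  split_ifs with h
  · rw [List.countP_eq_zero]
    intro F _ hF
    simp [h] at hF
  · congr 1
    ext F
    simp [h]

theorem mem_softs_iff {Ts : List (LRT V)} {x : V} : x ∈ softs Ts ↔ mult Ts x ≠ 0 :=
  ⟨fun h => (mult_pos h).ne', mem_softs_of_mult⟩

theorem map_shape_mapL (g : Finset V → Finset V) (Ts : List (LRT V)) :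
    (Ts.map (LRT.mapL id g)).map LRT.shape = Ts.map LRT.shape := by
  rw [List.map_map]
  refine List.map_congr_left fun T _ => ?_
  simp only [Function.comp, LRT.mapL, LRT.shape, LT.mapL_shape, id]

/-- Positions of roots in the labels do no harm. -/
theorem emb_of_strip {adj : V → V → Prop} {Ts : List (LRT V)} (hr : ∀ T ∈ Ts, RootOK T)
    {S : Finset V} (h : Emb adj (Ts.map (stripT (poss Ts))) S) : Emb adj Ts S := by
  obtain ⟨p, h1, h2⟩ := h
  have h1' : Forest adj (Ts.map LRT.shape) S p := by
    have := map_shape_mapL (fun F => F \ poss Ts) Ts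
    unfold stripT at h1
    rwa [this] at h1
  refine ⟨p, h1', ?_⟩
  have h3 := forest_avoid (O := poss Ts) (Ts := Ts.map (LRT.mapL id (fun F => F ∩ poss Ts)))
    (S := S) (p := p) (by rw [map_shape_mapL]; exact h1') (by
      intro y _ hy
      have : poss (Ts.map (LRT.mapL id (fun F => F ∩ poss Ts))) = poss Ts := by
        unfold poss
        rw [List.map_map]
        rfl
      rw [this]
      exact hy) (by
      intro T hT
      obtain ⟨U, hU, rfl⟩ := List.mem_map.1 hT
      exact mapL_rootOK (fun _ => Finset.inter_subset_left) (hr U hU)) (by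
      intro T hT F hF
      obtain ⟨U, hU, rfl⟩ := List.mem_map.1 hT
      have h4 : F ∈ (U.labs).map (fun F => F ∩ poss Ts) := by
        simpa only [LRT.labs, LRT.mapL, LT.mapL_labs, List.map_append] using hF
      obtain ⟨G, _, rfl⟩ := List.mem_map.1 h4
      exact Finset.inter_subset_right)
  rw [flatMap_mapL, List.forall₂_map_left_iff] at h3
  rw [strip_labs, List.forall₂_map_left_iff] at h2
  clear h1 h1' hr
  generalize Ts.flatMap LRT.labs = ls at h2 h3
  induction h2 with
  | nil => exact .nil
  | @cons F x ls p h4 _ ih =>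
    rw [List.forall₂_cons] at h3
    refine .cons ?_ (ih h3.2)
    intro hx
    by_cases hxP : x ∈ poss Ts
    · exact h3.1 (Finset.mem_inter.2 ⟨hx, hxP⟩)
    · exact h4 (Finset.mem_sdiff.2 ⟨hx, hxP⟩)

end strip

/-! ### Units -/

/-- `⌈a / ν⌉` -/
def cdv (a ν : ℕ) : ℕ := (a + ν - 1) / ν

theorem cdv_zero {ν : ℕ} (h : 0 < ν) : cdv 0 ν = 0 := by
  unfold cdv
  rw [Nat.div_eq_zero_iff]
  omega

theorem cdv_mono {a b ν : ℕ} (h : a ≤ b) : cdv a ν ≤ cdv b ν :=
  Nat.div_le_div_right (by omega)

theorem le_mul_cdv {a ν : ℕ} (h : 0 < ν) : a ≤ ν * cdv a ν := by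
  unfold cdv
  have h1 := Nat.div_add_mod (a + ν - 1) ν
  have h2 := Nat.mod_lt (a + ν - 1) h
  omega

theorem cdv_add {a c ν : ℕ} (h : 0 < ν) (hc : c ≤ ν) : cdv (a + c) ν ≤ cdv a ν + 1 := by
  unfold cdv
  have : (a + ν - 1) / ν + 1 = (a + ν - 1 + ν) / ν := (Nat.add_div_right _ h).symm
  rw [this]
  exact Nat.div_le_div_right (by omega)

theorem cdv_pos {a ν : ℕ} (h : 0 < ν) (ha : 0 < a) : 0 < cdv a ν := by
  unfold cdv
  exact Nat.div_pos (by omega) h

theorem cdv_le {a ν : ℕ} (h : 0 < ν) : cdv a ν ≤ a := by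
  rcases Nat.eq_zero_or_pos a with rfl | ha
  · rw [cdv_zero h]
  · unfold cdv
    rw [Nat.div_le_iff_le_mul_add_pred h]
    have : a ≤ ν * a := Nat.le_mul_of_pos_left _ h
    omega

section units
variable {V : Type*} [DecidableEq V]

/-- number of units of the soft positions outside of the roots, restricted to the positions with
`c x` -/
def units (ν : ℕ) (c : V → Bool) (Ts : List (LRT V)) : ℕ :=
  ∑ x ∈ (softs Ts \ poss Ts).filter (fun x => c x = true), cdv (mult Ts x) ν

theorem units_split (ν : ℕ) (c : V → Bool) (Ts : List (LRT V)) :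
    units ν (fun _ => true) Ts = units ν c Ts + units ν (fun x => !c x) Ts := by
  unfold units
  rw [← Finset.sum_filter_add_sum_filter_not _ (fun x => c x = true)]
  congr 1
  · rw [Finset.filter_filter]
    congr 1
    ext x
    simp
  · rw [Finset.filter_filter]
    congr 1
    ext x
    simp

theorem units_perm {ν : ℕ} {c : V → Bool} {Ts Us : List (LRT V)} (h : Ts.Perm Us) :
    units ν c Ts = units ν c Us := by
  unfold units
  rw [softs_perm h, poss_perm h]
  exact Finset.sum_congr rfl fun x _ => by rw [mult_perm h]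

theorem units_le_of {ν : ℕ} {c : V → Bool} {Ts Us : List (LRT V)}
    (hp : ∀ x, x ∈ poss Us → x ∈ poss Ts) (hm : ∀ x, x ∉ poss Ts → mult Ts x ≤ mult Us x) :
    units ν c Ts ≤ units ν c Us := by
  unfold units
  have h1 : ∑ x ∈ (softs Ts \ poss Ts).filter (fun x => c x = true), cdv (mult Ts x) ν ≤
      ∑ x ∈ (softs Ts \ poss Ts).filter (fun x => c x = true), cdv (mult Us x) ν := by
    refine Finset.sum_le_sum fun x hx => ?_
    rw [Finset.mem_filter, Finset.mem_sdiff] at hx
    exact cdv_mono (hm x hx.1.2)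
  refine h1.trans (Finset.sum_le_sum_of_subset fun x hx => ?_)
  rw [Finset.mem_filter, Finset.mem_sdiff, mem_softs_iff] at hx
  rw [Finset.mem_filter, Finset.mem_sdiff, mem_softs_iff]
  refine ⟨⟨?_, fun h => hx.1.2 (hp x h)⟩, hx.2⟩
  have := hm x hx.1.2
  have := hx.1.1
  omega

/-- number of labels which meet the set given by `c` -/
theorem countP_meet_le {c : V → Bool} : ∀ (ls : List (Finset V)) (Z : Finset V),
    (∀ F ∈ ls, ∀ x ∈ F, c x = true → x ∈ Z) →
    ls.countP (fun F => decide (∃ x ∈ F, c x = true)) ≤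
      ∑ x ∈ Z.filter (fun x => c x = true), ls.countP (fun F => decide (x ∈ F))
  | [], Z, _ => by simp
  | F :: ls, Z, h => by
    have ih := countP_meet_le (c := c) ls Z (fun G hG => h G (List.mem_cons_of_mem _ hG))
    simp only [List.countP_cons]
    rw [Finset.sum_add_distrib]
    refine Nat.add_le_add ih ?_
    split_ifs with h1
    · obtain ⟨x, hx, hcx⟩ := of_decide_eq_true h1
      have hxZ : x ∈ Z.filter (fun x => c x = true) :=
        Finset.mem_filter.2 ⟨h F List.mem_cons_self x hx hcx, hcx⟩
      refine le_trans ?_ (Finset.single_le_sum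
        (f := fun x => if decide (x ∈ F) = true then 1 else 0) (fun _ _ => Nat.zero_le _) hxZ)
      simp [hx]
    · exact Nat.zero_le _

/-- the relevant labels -/
theorem rel_le {ν : ℕ} (hν : 0 < ν) {c : V → Bool} {Ts : List (LRT V)}
    (hd : ∀ x ∈ poss Ts, mult Ts x = 0) :
    (Ts.flatMap LRT.labs).countP (fun F => decide (∃ x ∈ F, c x = true)) ≤ ν * units ν c Ts := by
  refine (countP_meet_le (c := c) (Ts.flatMap LRT.labs) (softs Ts) ?_).trans ?_
  · intro F hF x hx _
    obtain ⟨T, hT, hF⟩ := List.mem_flatMap.1 hF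
    exact mem_softs.2 ⟨T, hT, F, hF, hx⟩
  · unfold units
    rw [Finset.mul_sum]
    have e1 : (softs Ts).filter (fun x => c x = true) =
        (softs Ts \ poss Ts).filter (fun x => c x = true) := by
      ext x
      rw [Finset.mem_filter, Finset.mem_filter, Finset.mem_sdiff]
      constructor
      · rintro ⟨h1, h2⟩
        refine ⟨⟨h1, fun h3 => ?_⟩, h2⟩
        exact (mem_softs_iff.1 h1) (hd x h3)
      · rintro ⟨⟨h1, -⟩, h2⟩
        exact ⟨h1, h2⟩
    rw [e1]
    exact Finset.sum_le_sum fun x _ => le_mul_cdv hν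

theorem mult_strip_poss {Ts : List (LRT V)} :
    ∀ x ∈ poss (Ts.map (stripT (poss Ts))), mult (Ts.map (stripT (poss Ts))) x = 0 := by
  intro x hx
  rw [strip_poss] at hx
  rw [mult_strip, if_pos hx]

theorem units_strip {ν : ℕ} {c : V → Bool} {Ts : List (LRT V)} :
    units ν c (Ts.map (stripT (poss Ts))) = units ν c Ts := by
  unfold units
  rw [strip_poss]
  have e1 : softs (Ts.map (stripT (poss Ts))) \ poss Ts = softs Ts \ poss Ts := by
    ext x
    rw [Finset.mem_sdiff, Finset.mem_sdiff, mem_softs_iff, mem_softs_iff, mult_strip]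
    constructor
    · rintro ⟨h1, h2⟩
      rw [if_neg h2] at h1
      exact ⟨h1, h2⟩
    · rintro ⟨h1, h2⟩
      rw [if_neg h2]
      exact ⟨h1, h2⟩
  rw [e1]
  refine Finset.sum_congr rfl fun x hx => ?_
  rw [mult_strip, if_neg (Finset.mem_sdiff.1 (Finset.mem_filter.1 hx).1).2]

end units

/-! ### The states -/

/-- The states of the induction with persistent soft positions. -/
def Gn (m D ν : ℕ) (v : List ℕ) : Prop :=
  ∀ Ts : List (LRT (Fin m → Bool)), (Ts.map LRT.pos).Nodup → (∀ T ∈ Ts, RootOK T) →
    List.Forall₂ (fun T n => LRT.size T ≤ n) Ts v → units ν (fun _ => true) Ts ≤ D →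
      ∃ S, Emb (cadj m) Ts S

/-- It is enough to look at forests whose labels are disjoint from the roots. -/
theorem Gn.of_strip {m D ν : ℕ} {v : List ℕ}
    (h : ∀ Ts : List (LRT (Fin m → Bool)), (Ts.map LRT.pos).Nodup → (∀ T ∈ Ts, RootOK T) →
      List.Forall₂ (fun T n => LRT.size T ≤ n) Ts v → units ν (fun _ => true) Ts ≤ D →
      (∀ x ∈ poss Ts, mult Ts x = 0) → ∃ S, Emb (cadj m) Ts S) : Gn m D ν v := by
  intro Ts h1 h2 h3 h4
  obtain ⟨S, hS⟩ := h (Ts.map (stripT (poss Ts))) (by rw [strip_poss']; exact h1) (by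
    intro T hT
    obtain ⟨U, hU, rfl⟩ := List.mem_map.1 hT
    exact strip_ok (h2 U hU)) (by
    rw [List.forall₂_map_left_iff]
    exact h3.imp fun T n hTn => by rw [stripT_size]; exact hTn) (by rw [units_strip]; exact h4)
    mult_strip_poss
  exact ⟨S, emb_of_strip h2 hS⟩

theorem Gn.mono {m D D' ν : ℕ} {v w : List ℕ} (hD : D ≤ D')
    (hv : List.Forall₂ (· ≤ ·) v w) (h : Gn m D' ν w) : Gn m D ν v := by
  intro Ts h1 h2 h3 h4
  refine h Ts h1 h2 ?_ (h4.trans hD)
  clear h1 h2 h4 h
  induction h3 generalizing w with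
  | nil => cases hv; exact .nil
  | cons h3 _ ih =>
    cases hv with
    | cons h6 h7 => exact .cons (h3.trans h6) (ih h7)

theorem Gn.monoD {m D D' ν : ℕ} {v : List ℕ} (hD : D ≤ D') (h : Gn m D' ν v) : Gn m D ν v :=
  h.mono hD (forall₂_le_refl v)

theorem Gn.perm {m D ν : ℕ} {v w : List ℕ} (hvw : v.Perm w) (h : Gn m D ν v) :
    Gn m D ν w := by
  intro Ts h1 h2 h3 h4
  have h6 : List.Forall₂ (fun n T => LRT.size T ≤ n) w Ts := h3.flip
  obtain ⟨Us, h7, h8⟩ := List.perm_comp_forall₂ hvw h6
  have h9 : List.Forall₂ (fun T n => LRT.size T ≤ n) Us v := h7.flip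
  obtain ⟨S, hS⟩ := h Us ((h8.map LRT.pos).nodup_iff.2 h1) (fun T hT => h2 T (h8.mem_iff.1 hT)) h9
    (by rw [units_perm h8]; exact h4)
  exact ⟨S, hS.perm h8⟩

/-- from the states with a bounded number of special holes -/
theorem Gn.of_Gd {m D ν : ℕ} (hν : 0 < ν) {v : List ℕ} (h : Gd m D (ν * D) v) : Gn m D ν v := by
  refine Gn.of_strip fun Ts h1 h2 h3 h4 h5 => h Ts h1 h2 h3 ?_ ?_
  · refine le_trans ?_ h4
    unfold units
    rw [Finset.card_eq_sum_ones]
    have e1 : (softs Ts \ poss Ts).filter (fun _ => (true : Bool) = true) = softs Ts \ poss Ts := by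
      simp
    rw [e1]
    refine Finset.sum_le_sum fun x hx => cdv_pos hν ?_
    exact mult_pos (Finset.mem_sdiff.1 hx).1
  · refine le_trans ?_ (Nat.mul_le_mul_left ν h4)
    refine le_trans ?_ (rel_le hν (c := fun _ => true) h5)
    unfold nspec
    refine List.countP_mono_left fun F _ hF => ?_
    obtain ⟨x, hx⟩ := Finset.nonempty_iff_ne_empty.2 (of_decide_eq_true hF)
    exact decide_eq_true ⟨x, hx, rfl⟩

/-- without soft positions the two kinds of states are the same -/
theorem Gn.toGd {m ν s : ℕ} {v : List ℕ} (h : Gn m 0 ν v) : Gd m 0 s v := by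
  intro Ts h1 h2 h3 h4 _
  refine h Ts h1 h2 h3 ?_
  have e1 : softs Ts \ poss Ts = ∅ := Finset.card_eq_zero.1 (Nat.le_zero.1 h4)
  unfold units
  rw [e1]
  simp

theorem Gn.of_hard {m D ν : ℕ} (hν : 0 < ν) {v : List ℕ}
    (h : Gd m 0 0 (v ++ List.replicate D 1)) (hlen : v.length + D ≤ 2 ^ m) : Gn m D ν v :=
  Gn.of_Gd hν (Gd.soft_of_hard h hlen)

/-- **The level lemma with units.** First side `b` with the trees `TX`, second side with the trees
`TH` (which send their left child to the first side) and `TY`. -/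
theorem levelN {m ν : ℕ} (hν : 0 < ν) (j : Fin (m + 1)) (b : Bool)
    {TX TH TY : List (LRT (Fin (m + 1) → Bool))}
    (hnd : ((TX ++ (TH ++ TY)).map LRT.pos).Nodup)
    (hok : ∀ T ∈ TX ++ (TH ++ TY), RootOK T)
    (hTX : ∀ T ∈ TX, T.pos j = b) (hTH : ∀ T ∈ TH, T.pos j = !b)
    (hTHl : ∀ T ∈ TH, ∃ x y, T.l = .node x y)
    (hTHr : ∀ T ∈ TH, RootOK (hopT (flip j T.pos) T))
    (hTHm : ∀ T ∈ TH, flip j T.pos ∉ poss TX)
    (hTY : ∀ T ∈ TY, T.pos j = !b) {sz : List ℕ} {us : List HT}
    (hcut : FCutR ((TX ++ TH.map (fun T => hopT (flip j T.pos) T)).map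
      (cdat j b (poss TH ∪ poss TY))) sz us) (hus : us.length ≤ ν)
    {DX DY : ℕ}
    (hDX : units ν (fun x => decide (x j = b)) (TX ++ (TH ++ TY)) +
      (if us = [] then 0 else (poss TY \ (poss TX).image (flip j)).card) ≤ DX)
    (hDY : units ν (fun x => decide (x j = !b)) (TX ++ (TH ++ TY)) ≤ DY)
    (gX : Gn m DX ν sz)
    (gY : Gn m DY ν (us.map HT.size ++ (TH.map (fun T => (hopR T).size) ++ TY.map LRT.size))) :
    ∃ S, Emb (cadj (m + 1)) (TX ++ (TH ++ TY)) S := by
  classical
  have hposs : poss (TX ++ (TH ++ TY)) = poss TX ∪ (poss TH ∪ poss TY) := by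
    rw [poss_append, poss_append]
  have hsideX : ∀ x ∈ poss TX, x j = b := by
    intro x hx
    obtain ⟨T, hT, rfl⟩ := mem_poss.1 hx
    exact hTX T hT
  have hsideH : ∀ x ∈ poss TH, x j = !b := by
    intro x hx
    obtain ⟨T, hT, rfl⟩ := mem_poss.1 hx
    exact hTH T hT
  have hsideY : ∀ x ∈ poss TY, x j = !b := by
    intro x hx
    obtain ⟨T, hT, rfl⟩ := mem_poss.1 hx
    exact hTY T hT
  have hbb : ∀ c : Bool, c ≠ !c := by decide
  refine level_raw j b hnd hok hTX hTH hTHl hTHr hTHm hTY hcut ?_ ?_
  · intro FX f1 f2 f3 f4 f5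
    refine gX FX f1 f2 f3 (le_trans ?_ hDX)
    -- the new soft positions
    obtain ⟨Nw, hNw⟩ : ∃ Nw : Finset (Fin (m + 1) → Bool), Nw = if us = [] then ∅ else
      (poss TY \ (poss TX).image (flip j)).image (flip j) := ⟨_, rfl⟩
    have hNwc : Nw.card ≤ if us = [] then 0 else (poss TY \ (poss TX).image (flip j)).card := by
      rw [hNw]
      split_ifs
      · simp
      · exact Finset.card_image_le
    refine le_trans ?_ (Nat.add_le_add_left hNwc _)
    obtain ⟨Z, hZ⟩ : ∃ Z : Finset (Fin (m + 1) → Bool), Z = (softs (TX ++ (TH ++ TY)) \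
      poss (TX ++ (TH ++ TY))).filter (fun x => decide (x j = b) = true) := ⟨_, rfl⟩
    have e1 : units ν (fun x => decide (x j = b)) (TX ++ (TH ++ TY)) =
        ∑ x ∈ Z, cdv (mult (TX ++ (TH ++ TY)) x) ν := by
      unfold units
      rw [hZ]
    -- outside of the roots
    have hout : ∀ x, x ∉ poss FX → ins j b x ∉ poss TX ∧ ins j b x ∉ (poss TH).image (flip j) := by
      intro x hx
      rw [f4, Finset.mem_union, not_or] at hx
      exact hx
    have hout' : ∀ x, x ∉ poss FX → ins j b x ∉ poss (TX ++ (TH ++ TY)) := by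
      intro x hx
      rw [hposs, Finset.mem_union, Finset.mem_union]
      rintro (h | h | h)
      · exact (hout x hx).1 h
      · have := hsideH _ h
        rw [ins_self] at this
        exact hbb _ this
      · have := hsideY _ h
        rw [ins_self] at this
        exact hbb _ this
    have hmle : ∀ x, mult (TX ++ TH) (ins j b x) ≤ mult (TX ++ (TH ++ TY)) (ins j b x) := by
      intro x
      rw [mult_append, mult_append, mult_append]
      omega
    have hnew : ∀ x, x ∉ poss FX → us ≠ [] →
        ins j b x ∈ (poss TH ∪ poss TY).image (flip j) → ins j b x ∈ Nw := by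
      intro x hx hus0 h
      rw [hNw, if_neg hus0]
      obtain ⟨z, hz, hzx⟩ := Finset.mem_image.1 h
      rcases Finset.mem_union.1 hz with hz | hz
      · exact absurd (Finset.mem_image.2 ⟨z, hz, hzx⟩) (hout x hx).2
      · refine Finset.mem_image.2 ⟨z, Finset.mem_sdiff.2 ⟨hz, fun h2 => ?_⟩, hzx⟩
        obtain ⟨w, hw, hwz⟩ := Finset.mem_image.1 h2
        apply (hout x hx).1
        rw [← hzx, ← hwz, flip_flip]
        exact hw
    -- pointwise bound
    have hpt : ∀ x, x ∉ poss FX → cdv (mult FX x) ν ≤
        (if ins j b x ∈ Z then cdv (mult (TX ++ (TH ++ TY)) (ins j b x)) ν else 0) +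
          (if ins j b x ∈ Nw then 1 else 0) := by
      intro x hx
      have h1 := f5 x
      have h2 := hmle x
      have hZx : mult (TX ++ (TH ++ TY)) (ins j b x) ≠ 0 → ins j b x ∈ Z := by
        intro h3
        rw [hZ, Finset.mem_filter, Finset.mem_sdiff]
        exact ⟨⟨mem_softs_of_mult h3, hout' x hx⟩, by simp [ins_self]⟩
      have hA : cdv (mult (TX ++ (TH ++ TY)) (ins j b x)) ν ≤
          (if ins j b x ∈ Z then cdv (mult (TX ++ (TH ++ TY)) (ins j b x)) ν else 0) := by
        split_ifs with h3
        · exact le_rfl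
        · have : mult (TX ++ (TH ++ TY)) (ins j b x) = 0 := by
            by_contra h4
            exact h3 (hZx h4)
          rw [this, cdv_zero hν]
      by_cases hus0 : us = []
      · have h3 : mult FX x ≤ mult (TX ++ (TH ++ TY)) (ins j b x) := by
          rw [hus0] at h1
          simp only [List.length_nil, ite_self, add_zero] at h1
          omega
        exact (cdv_mono h3).trans (hA.trans (Nat.le_add_right _ _))
      · by_cases h4 : ins j b x ∈ (poss TH ∪ poss TY).image (flip j)
        · rw [if_pos h4] at h1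
          rw [if_pos (hnew x hx hus0 h4)]
          refine le_trans ?_ (Nat.add_le_add_right hA 1)
          refine (cdv_mono (h1.trans (Nat.add_le_add_right h2 _))).trans (cdv_add hν hus)
        · rw [if_neg h4, add_zero] at h1
          exact (cdv_mono (h1.trans h2)).trans (hA.trans (Nat.le_add_right _ _))
    rw [e1]
    unfold units
    have hinj : Set.InjOn (fun x => ins j b x)
        ((softs FX \ poss FX).filter (fun _ => (true : Bool) = true) : Set (Fin m → Bool)) :=
      fun x _ y _ h => (ins j b).injective h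
    calc ∑ x ∈ (softs FX \ poss FX).filter (fun _ => (true : Bool) = true), cdv (mult FX x) ν
        ≤ ∑ x ∈ (softs FX \ poss FX).filter (fun _ => (true : Bool) = true),
          ((if ins j b x ∈ Z then cdv (mult (TX ++ (TH ++ TY)) (ins j b x)) ν else 0) +
          (if ins j b x ∈ Nw then 1 else 0)) := by
            refine Finset.sum_le_sum fun x hx => hpt x ?_
            exact (Finset.mem_sdiff.1 (Finset.mem_filter.1 hx).1).2
      _ = ∑ y ∈ ((softs FX \ poss FX).filter (fun _ => (true : Bool) = true)).image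
            (fun x => ins j b x),
          ((if y ∈ Z then cdv (mult (TX ++ (TH ++ TY)) y) ν else 0) +
          (if y ∈ Nw then 1 else 0)) := by
            rw [Finset.sum_image hinj]
      _ ≤ (∑ y ∈ Z, cdv (mult (TX ++ (TH ++ TY)) y) ν) + Nw.card := by
            rw [Finset.sum_add_distrib]
            refine Nat.add_le_add ?_ ?_
            · rw [← Finset.sum_filter]
              exact Finset.sum_le_sum_of_subset fun y hy => (Finset.mem_filter.1 hy).2
            · rw [← Finset.sum_filter, ← Finset.card_eq_sum_ones]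
              exact Finset.card_le_card fun y hy => (Finset.mem_filter.1 hy).2
  · intro FY f1 f2 f3 f4 f5
    refine gY FY f1 f2 f3 (le_trans ?_ hDY)
    unfold units
    have hinj : Set.InjOn (fun x => ins j (!b) x)
        ((softs FY \ poss FY).filter (fun _ => (true : Bool) = true) : Set (Fin m → Bool)) :=
      fun x _ y _ h => (ins j (!b)).injective h
    calc ∑ x ∈ (softs FY \ poss FY).filter (fun _ => (true : Bool) = true), cdv (mult FY x) ν
        ≤ ∑ x ∈ (softs FY \ poss FY).filter (fun _ => (true : Bool) = true),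
          cdv (mult (TX ++ (TH ++ TY)) (ins j (!b) x)) ν :=
            Finset.sum_le_sum fun x _ => cdv_mono (f5 x)
      _ = ∑ y ∈ ((softs FY \ poss FY).filter (fun _ => (true : Bool) = true)).image
            (fun x => ins j (!b) x), cdv (mult (TX ++ (TH ++ TY)) y) ν := by
            rw [Finset.sum_image hinj]
      _ ≤ _ := by
            refine Finset.sum_le_sum_of_subset ?_
            intro y hy
            obtain ⟨x, hx, rfl⟩ := Finset.mem_image.1 hy
            rw [Finset.mem_filter, Finset.mem_sdiff] at hx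
            rw [Finset.mem_filter, Finset.mem_sdiff]
            refine ⟨⟨?_, ?_⟩, by simp [ins_self]⟩
            · apply mem_softs_of_mult
              have h1 := mult_pos hx.1.1
              have h2 := f5 x
              omega
            · intro h
              rw [hposs, Finset.mem_union] at h
              rcases h with h | h
              · have := hsideX _ h
                rw [ins_self] at this
                exact hbb _ this.symm
              · exact hx.1.2 (f4 x h)

end Pool.Agent.Work.MP_bf01b2_co.MR
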