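import Pool.Agent.Work.MP_bf01b2_co.MR.CutsR

/-!
# Marks recursion: the step from `Q_m` to `Q_(m+1)`
-/

set_option autoImplicit false

namespace Pool.Agent.Work.MP_bf01b2_co.MR

section
variable {V : Type*}

/-- Cutting a labelled forest; the roots stay. -/
inductive LFCut (nl : LT V → Finset V) : List (LRT V) → List (LRT V) → List (LT V) → Prop
  | nil : LFCut nl [] [] []
  | cons {T T' : LRT V} {Ts Ts' : List (LRT V)} {L M : List (LT V)} (hp : T'.pos = T.pos)
      (h : LCut nl T.tree T'.tree L) (hs : LFCut nl Ts Ts' M) :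
      LFCut nl (T :: Ts) (T' :: Ts') (L ++ M)

theorem LCut.node_inv {nl : LT V → Finset V} {l r l' r' : LT V} {N : List (LT V)}
    (h : LCut nl (.node l r) (.node l' r') N) : ∃ L M, LCut nl l l' L ∧ LCut nl r r' M ∧
      N = L ++ M ∧ ¬ ((∃ x y, L = [.node x y] ∧ ∃ F, l' = .hole F) ∧
        (∃ x y, M = [.node x y] ∧ ∃ F, r' = .hole F)) := by
  cases h with
  | node h1 h2 h3 => exact ⟨_, _, h1, h2, rfl, h3⟩

theorem LFCut.graft {nl : LT V → Finset V} {Ts Ts' : List (LRT V)} {L : List (LT V)}
    (h : LFCut nl Ts Ts' L) : LFGraft Ts' L Ts := by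
  induction h with
  | nil => exact .nil
  | cons hp h _ ih =>
    obtain ⟨L1, M1, h1, h2, rfl, -⟩ := LCut.node_inv h
    exact .cons hp.symm h1.graft h2.graft ih

theorem LFCut.rel {nl : LT V → Finset V} {Ts Ts' : List (LRT V)} {L : List (LT V)}
    (h : LFCut nl Ts Ts' L) : List.Forall₂ (HoleRel nl) (Ts'.flatMap LRT.labs) L := by
  induction h with
  | nil => exact .nil
  | cons hp h _ ih =>
    rw [List.flatMap_cons]
    exact forall₂_append' h.rel ih

theorem LFCut.poss {nl : LT V → Finset V} {Ts Ts' : List (LRT V)} {L : List (LT V)}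
    (h : LFCut nl Ts Ts' L) : Ts'.map LRT.pos = Ts.map LRT.pos := by
  induction h with
  | nil => rfl
  | cons hp h _ ih => simp [hp, ih]

theorem LFCut.append {nl : LT V → Finset V} {Ts Ts' Us Us' : List (LRT V)} {L M : List (LT V)}
    (h : LFCut nl Ts Ts' L) (h' : LFCut nl Us Us' M) : LFCut nl (Ts ++ Us) (Ts' ++ Us') (L ++ M) := by
  induction h with
  | nil => exact h'
  | cons hp h _ ih =>
    have := LFCut.cons hp h ih
    simpa [List.append_assoc] using this

/-- nothing is cut -/
theorem LCut.refl (nl : LT V → Finset V) : ∀ t : LT V, ∃ L, LCut nl t t L ∧ pieces L = []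
  | .nil => ⟨[], .nil, rfl⟩
  | .hole F => ⟨[.hole F], .hole F, rfl⟩
  | .node l r => by
    obtain ⟨L, h1, h2⟩ := LCut.refl nl l
    obtain ⟨M, h3, h4⟩ := LCut.refl nl r
    refine ⟨L ++ M, .node h1 h3 ?_, by rw [pieces_append, h2, h4]; rfl⟩
    rintro ⟨⟨x, y, rfl, -⟩, -⟩
    simp [pieces] at h2

theorem LFCut.refl (nl : LT V → Finset V) : ∀ Ts : List (LRT V), ∃ L, LFCut nl Ts Ts L ∧
    pieces L = []
  | [] => ⟨[], .nil, rfl⟩
  | T :: Ts => by
    obtain ⟨L, h1, h2⟩ := LCut.refl nl T.tree
    obtain ⟨M, h3, h4⟩ := LFCut.refl nl Ts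
    exact ⟨L ++ M, .cons rfl h1 h3, by rw [pieces_append, h2, h4]; rfl⟩

variable [DecidableEq V]

theorem LFCut.npos_nodup {adj : V → V → Prop} {nl : LT V → Finset V} {Ts Ts' : List (LRT V)}
    {L : List (LT V)} (h : LFCut nl Ts Ts' L) :
    ∀ {S : Finset V} {p : List V}, Forest adj (Ts'.map LRT.shape) S p →
      (npos L p).Nodup ∧ ∀ w ∈ npos L p, w ∈ S := by
  induction h with
  | nil =>
    rintro S p ⟨rfl, rfl⟩
    simp [npos]
  | @cons T T' Ts Ts' L M hp h _ ih =>
    rintro S p ⟨A, B, pa, pb, hA, hB, hd, rfl, rfl⟩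
    obtain ⟨b1, b2⟩ := ih hB
    have hlen : L.length = pa.length := by
      have e1 := h.graft.shape.length
      rw [List.length_map] at e1
      rw [e1, (root_length hA).1]
      rfl
    rw [npos_append hlen]
    -- the root is embedded: use a slot at an arbitrary neighbour
    have key : (npos L pa).Nodup ∧ ∀ w ∈ npos L pa, w ∈ A := by
      obtain ⟨L1, M1, h1, h2, rfl, h3⟩ := LCut.node_inv h
      obtain ⟨C, D, pc, pd, hC, hD, hx, hx', hCD, rfl, rfl⟩ := hA
      obtain ⟨x1, x2, x3⟩ := h1.npos_nodup hC hx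
      obtain ⟨y1, y2, y3⟩ := h2.npos_nodup hD hx'
      have hlen1 : L1.length = pc.length := by
        have e1 := h1.graft.shape.length
        rw [List.length_map] at e1
        rw [e1, (slot_length hC).1]
        rfl
      rw [npos_append hlen1]
      refine ⟨?_, ?_⟩
      · rw [List.nodup_append]
        refine ⟨x1, y1, ?_⟩
        intro a ha b hb hab
        subst hab
        by_cases haC : a ∈ C
        · rcases y3 a hb with h | h
          · rw [h] at haC; exact hx haC
          · exact (Finset.disjoint_left.mp hCD haC) h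
        · have hax := (x3 a ha).resolve_right haC
          have h4 := x2 ⟨a, ha, haC⟩
          have h5 := y2 ⟨a, hb, by rw [hax]; exact hx'⟩
          exact h3 ⟨h4, h5⟩
      · intro w hw
        rcases List.mem_append.1 hw with h | h
        · rcases x3 w h with h | h <;> simp [h]
        · rcases y3 w h with h | h <;> simp [h]
    refine ⟨?_, ?_⟩
    · rw [List.nodup_append]
      refine ⟨key.1, b1, ?_⟩
      intro a ha b hb hab
      subst hab
      exact Finset.disjoint_left.1 hd (key.2 a ha) (b2 a hb)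
    · intro w hw
      rcases List.mem_append.1 hw with h | h
      · exact Finset.mem_union_left _ (key.2 w h)
      · exact Finset.mem_union_right _ (b2 w h)

theorem pick_spec {σ : V → V} {nl : LT V → Finset V} : ∀ {L : List (LT V)}
    {ls : List (Finset V)} {p : List V}, List.Forall₂ (HoleRel nl) ls L →
    List.Forall₂ (fun F x => x ∉ F) ls p → (pick σ L p).map LRT.tree = pieces L ∧
      ∀ P ∈ pick σ L p, ∃ v ∈ npos L p, P.pos = σ v ∧ v ∉ nl P.tree
  | [], [], [], _, _ => ⟨rfl, by simp [pick]⟩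
  | u :: L, F :: ls, v :: p, hL, hp => by
    rw [List.forall₂_cons] at hL hp
    obtain ⟨h1, h2⟩ := pick_spec (σ := σ) hL.2 hp.2
    rcases hL.1 with rfl | ⟨l, r, rfl, rfl⟩
    · exact ⟨h1, h2⟩
    · refine ⟨by simp only [pick, List.map_cons, LRT.tree, pieces, h1], ?_⟩
      intro P hP
      simp only [pick, List.mem_cons] at hP
      rcases hP with rfl | hP
      · exact ⟨v, by simp [npos], rfl, hp.1⟩
      · obtain ⟨w, h3, h4⟩ := h2 P hP
        exact ⟨w, by simp [npos, h3], h4⟩

end

/-- labels of the new holes: the projections of the roots of the second side and of the label of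
the root of the piece -/
def nlab {m : ℕ} (j : Fin m) (TY : List (LRT (Fin m → Bool))) (q : LT (Fin m → Bool)) :
    Finset (Fin m → Bool) := (poss TY ∪ q.rootLab).image (flip j)

/-- **The step.** First side `{x | x j = b}` with the trees `TX`, second side with the trees
`TY`. -/
theorem step {m : ℕ} (j : Fin (m + 1)) (b : Bool) {TX TY TX' : List (LRT (Fin (m + 1) → Bool))}
    {L : List (LT (Fin (m + 1) → Bool))} (hTX : ∀ T ∈ TX, T.pos j = b)
    (hTY : ∀ T ∈ TY, T.pos j = !b) (hcut : LFCut (nlab j TY) TX TX' L)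
    (hX : ∃ S, Emb (cadj m) (TX'.map (resT j b)) S)
    (hY : ∀ Ps : List (LRT (Fin (m + 1) → Bool)), Ps.map LRT.tree = pieces L →
      (Ps.map LRT.pos).Nodup → (∀ P ∈ Ps, P.pos j = (!b) ∧ P.pos ∉ poss TY ∧ RootOK P) →
      ∃ S, Emb (cadj m) ((Ps ++ TY).map (resT j (!b))) S) :
    ∃ S, Emb (cadj (m + 1)) (TX ++ TY) S := by
  have hTX' : ∀ T ∈ TX', T.pos j = b := by
    intro T hT
    have h1 : T.pos ∈ TX'.map LRT.pos := List.mem_map_of_mem hT
    rw [hcut.poss] at h1
    obtain ⟨U, hU, hUT⟩ := List.mem_map.1 h1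
    rw [← hUT]
    exact hTX U hU
  obtain ⟨S0, h0⟩ := hX
  obtain ⟨S1, hS1, p, hp⟩ := emb_side j b hTX' h0
  obtain ⟨e1, e2⟩ := pick_spec (σ := flip j) hcut.rel hp.2
  obtain ⟨e3, e4⟩ := hcut.npos_nodup hp.1
  have hPs : ∀ P ∈ pick (flip j) L p, P.pos j = (!b) ∧ P.pos ∉ poss TY ∧ RootOK P := by
    intro P hP
    obtain ⟨v, hv, hPv, hn⟩ := e2 P hP
    have hvb : v j = b := mem_side.1 (hS1 (e4 v hv))
    have h5 : flip j P.pos = v := by rw [hPv, flip_flip]
    refine ⟨by rw [hPv, flip_apply_self, hvb], ?_, ?_⟩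
    · intro h
      apply hn
      rw [← h5]
      exact Finset.mem_image_of_mem _ (Finset.mem_union_left _ h)
    · constructor
      · intro h
        apply hn
        rw [← h5]
        exact Finset.mem_image_of_mem _ (Finset.mem_union_right _ (by
          simp only [LRT.tree, LT.rootLab, Finset.mem_union]
          exact Or.inl h))
      · intro h
        apply hn
        rw [← h5]
        exact Finset.mem_image_of_mem _ (Finset.mem_union_right _ (by
          simp only [LRT.tree, LT.rootLab, Finset.mem_union]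
          exact Or.inr h))
  obtain ⟨S2, h2⟩ := hY _ e1 (by
    rw [pick_pos]
    exact e3.map (flip_injective j)) hPs
  obtain ⟨S3, hS3, q, hq⟩ := emb_side j (!b) (Ts := pick (flip j) L p ++ TY) (by
    intro T hT
    rcases List.mem_append.1 hT with h | h
    · exact (hPs T h).1
    · exact hTY T h) h2
  have hd : Disjoint S1 S3 := by
    have := side_disjoint j b
    exact Finset.disjoint_of_subset_left hS1 (Finset.disjoint_of_subset_right hS3 this)
  obtain ⟨q', hq'⟩ := two_way_soft (cadj_flip j) hcut.graft hcut.rel hp hq hd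
  exact ⟨_, q', hq'⟩

end Pool.Agent.Work.MP_bf01b2_co.MR
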