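import Pool.Agent.Work.MP_bf01b2_co.MR.BSx

set_option autoImplicit false

namespace Pool.Agent.Work.MP_bf01b2_co.MR

def rSx_1_0_0 : List (ℕ × ℕ) := [(24, 999), (24, 24), (24, 23), (24, 22), (24, 21)]

def TSx_1_0 : List EntO :=
  [([false],
    (rSx_1_0_0, rSx_1_0_0, 1, [(rSx_1_0_0, false, [0])]),
    ([(0, 0)], [(0, 0)], 0, []))]

theorem TSx_1_0_ok : tabOC CSx 1 0 TSx_1_0 = true := by
  decide +kernel

/-- the check -/
noncomputable def FSx_1_0 : List ℕ → Bool := chkO GSx_1 2 2 TSx_1_0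

end Pool.Agent.Work.MP_bf01b2_co.MR
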