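import Pool.Agent.Work.MP_bf01b2_co.MR.BSx

set_option autoImplicit false

namespace Pool.Agent.Work.MP_bf01b2_co.MR

def rSx_1_2_0 : List (ℕ × ℕ) := [(22, 999), (22, 24), (22, 23), (22, 22), (22, 21)]
def rSx_1_2_1 : List (ℕ × ℕ) := [(23, 999), (22, 23), (22, 23), (22, 22), (22, 21)]
def rSx_1_2_2 : List (ℕ × ℕ) := [(23, 999), (23, 23), (23, 23), (23, 22), (23, 21)]
def rSx_1_2_3 : List (ℕ × ℕ) := [(24, 999), (22, 22), (22, 21), (22, 20)]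
def rSx_1_2_4 : List (ℕ × ℕ) := [(24, 999), (23, 22), (23, 21), (23, 20)]

def TSx_1_2 : List EntO :=
  [([false],
    (rSx_1_2_0, rSx_1_2_0, 7, [(rSx_1_2_0, false, [0])]),
    ([(0, 0)], [(0, 0)], 0, [])),
  ([false],
    (rSx_1_2_1, rSx_1_2_1, 5, [(rSx_1_2_1, false, [0]), (rSx_1_2_1, false, [4]), (rSx_1_2_2, true, [1])]),
    ([(0, 0)], [(0, 0)], 2, [])),
  ([false],
    (rSx_1_2_1, rSx_1_2_1, 3, [(rSx_1_2_1, false, [0]), (rSx_1_2_1, false, [2]), (rSx_1_2_2, true, [1])]),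
    ([(0, 0)], [(0, 0)], 4, [])),
  ([false],
    (rSx_1_2_3, rSx_1_2_3, 1, [(rSx_1_2_3, false, [0]), (rSx_1_2_4, false, [1])]),
    ([(0, 0)], [(0, 0)], 6, []))]

theorem TSx_1_2_ok : tabOC CSx 1 2 TSx_1_2 = true := by
  decide +kernel

/-- the check -/
noncomputable def FSx_1_2 : List ℕ → Bool := chkO GSx_3 512 712 TSx_1_2

end Pool.Agent.Work.MP_bf01b2_co.MR
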