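import Pool.Agent.Work.MP_bf01b2_co.MR.BSx

set_option autoImplicit false

namespace Pool.Agent.Work.MP_bf01b2_co.MR

def rSx_1_3_0 : List (ℕ × ℕ) := [(20, 999), (20, 24), (20, 23), (20, 22), (20, 21)]
def rSx_1_3_1 : List (ℕ × ℕ) := [(22, 999), (20, 23), (20, 23), (20, 22), (20, 21)]
def rSx_1_3_2 : List (ℕ × ℕ) := [(22, 999), (22, 23), (22, 23), (22, 22), (22, 21)]
def rSx_1_3_3 : List (ℕ × ℕ) := [(23, 999), (20, 22), (20, 21), (20, 20)]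
def rSx_1_3_4 : List (ℕ × ℕ) := [(23, 999), (22, 22), (22, 21), (22, 20)]
def rSx_1_3_5 : List (ℕ × ℕ) := [(24, 999), (20, 20), (20, 19)]
def rSx_1_3_6 : List (ℕ × ℕ) := [(24, 999), (22, 20), (22, 19)]

def TSx_1_3 : List EntO :=
  [([false],
    (rSx_1_3_0, rSx_1_3_0, 15, [(rSx_1_3_0, false, [0])]),
    ([(0, 0)], [(0, 0)], 0, [])),
  ([false],
    (rSx_1_3_1, rSx_1_3_1, 13, [(rSx_1_3_1, false, [0]), (rSx_1_3_2, false, [4, 8]), (rSx_1_3_2, true, [1])]),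
    ([(0, 0)], [(0, 0)], 2, [])),
  ([false],
    (rSx_1_3_1, rSx_1_3_1, 11, [(rSx_1_3_1, false, [0]), (rSx_1_3_2, false, [2, 8]), (rSx_1_3_2, true, [1])]),
    ([(0, 0)], [(0, 0)], 4, [])),
  ([false],
    (rSx_1_3_3, rSx_1_3_3, 9, [(rSx_1_3_3, false, [0]), (rSx_1_3_4, false, [8]), (rSx_1_3_4, false, [1]), (rSx_1_3_4, false, [9])]),
    ([(0, 0)], [(0, 0)], 6, [])),
  ([false],
    (rSx_1_3_1, rSx_1_3_1, 7, [(rSx_1_3_1, false, [0]), (rSx_1_3_2, false, [2, 4]), (rSx_1_3_2, true, [1])]),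
    ([(0, 0)], [(0, 0)], 8, [])),
  ([false],
    (rSx_1_3_3, rSx_1_3_3, 5, [(rSx_1_3_3, false, [0]), (rSx_1_3_4, false, [4]), (rSx_1_3_4, false, [1]), (rSx_1_3_4, false, [5])]),
    ([(0, 0)], [(0, 0)], 10, [])),
  ([false],
    (rSx_1_3_3, rSx_1_3_3, 3, [(rSx_1_3_3, false, [0]), (rSx_1_3_4, false, [2]), (rSx_1_3_4, false, [1]), (rSx_1_3_4, false, [3])]),
    ([(0, 0)], [(0, 0)], 12, [])),
  ([false],
    (rSx_1_3_5, rSx_1_3_5, 1, [(rSx_1_3_5, false, [0]), (rSx_1_3_6, false, [1])]),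
    ([(0, 0)], [(0, 0)], 14, []))]

theorem TSx_1_3_ok : tabOC CSx 1 3 TSx_1_3 = true := by
  decide +kernel

/-- the check -/
noncomputable def FSx_1_3 : List ℕ → Bool := chkO GSx_4 65536 94992 TSx_1_3

end Pool.Agent.Work.MP_bf01b2_co.MR
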