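import Pool.Agent.Work.MP_bf01b2_co.MR.BSx

set_option autoImplicit false

namespace Pool.Agent.Work.MP_bf01b2_co.MR

def rSx_1_4_0 : List (ℕ × ℕ) := [(18, 999), (18, 24), (18, 23), (18, 22), (18, 21)]
def rSx_1_4_1 : List (ℕ × ℕ) := [(20, 999), (18, 23), (18, 23), (18, 22), (18, 21)]
def rSx_1_4_2 : List (ℕ × ℕ) := [(20, 999), (20, 23), (20, 23), (20, 22), (20, 21)]
def rSx_1_4_3 : List (ℕ × ℕ) := [(22, 999), (18, 22), (18, 21), (18, 20)]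
def rSx_1_4_4 : List (ℕ × ℕ) := [(22, 999), (20, 22), (20, 21), (20, 20)]
def rSx_1_4_5 : List (ℕ × ℕ) := [(22, 999), (22, 22), (22, 21), (22, 20)]
def rSx_1_4_6 : List (ℕ × ℕ) := [(23, 999), (18, 20), (18, 19)]
def rSx_1_4_7 : List (ℕ × ℕ) := [(23, 999), (20, 20), (20, 19)]
def rSx_1_4_8 : List (ℕ × ℕ) := [(23, 999), (22, 20), (22, 19)]
def rSx_1_4_9 : List (ℕ × ℕ) := [(24, 999), (18, 18)]
def rSx_1_4_10 : List (ℕ × ℕ) := [(24, 999), (20, 18)]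

def TSx_1_4 : List EntO :=
  [([false],
    (rSx_1_4_0, rSx_1_4_0, 31, [(rSx_1_4_0, false, [0])]),
    ([(0, 0)], [(0, 0)], 0, [])),
  ([false],
    (rSx_1_4_1, rSx_1_4_1, 29, [(rSx_1_4_1, false, [0]), (rSx_1_4_2, false, [4, 8, 16]), (rSx_1_4_2, true, [1])]),
    ([(0, 0)], [(0, 0)], 2, [])),
  ([false],
    (rSx_1_4_1, rSx_1_4_1, 27, [(rSx_1_4_1, false, [0]), (rSx_1_4_2, false, [2, 8, 16]), (rSx_1_4_2, true, [1])]),
    ([(0, 0)], [(0, 0)], 4, [])),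
  ([false],
    (rSx_1_4_3, rSx_1_4_3, 25, [(rSx_1_4_3, false, [0]), (rSx_1_4_4, false, [8, 16]), (rSx_1_4_4, false, [24]), (rSx_1_4_4, false, [1]), (rSx_1_4_5, false, [9, 17])]),
    ([(0, 0)], [(0, 0)], 6, [])),
  ([false],
    (rSx_1_4_1, rSx_1_4_1, 23, [(rSx_1_4_1, false, [0]), (rSx_1_4_2, false, [2, 4, 16]), (rSx_1_4_2, true, [1])]),
    ([(0, 0)], [(0, 0)], 8, [])),
  ([false],
    (rSx_1_4_3, rSx_1_4_3, 21, [(rSx_1_4_3, false, [0]), (rSx_1_4_4, false, [4, 16]), (rSx_1_4_4, false, [20]), (rSx_1_4_4, false, [1]), (rSx_1_4_5, false, [5, 17])]),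
    ([(0, 0)], [(0, 0)], 10, [])),
  ([false],
    (rSx_1_4_3, rSx_1_4_3, 19, [(rSx_1_4_3, false, [0]), (rSx_1_4_4, false, [2, 16]), (rSx_1_4_4, false, [18]), (rSx_1_4_4, false, [1]), (rSx_1_4_5, false, [3, 17])]),
    ([(0, 0)], [(0, 0)], 12, [])),
  ([false],
    (rSx_1_4_6, rSx_1_4_6, 17, [(rSx_1_4_6, false, [0]), (rSx_1_4_7, false, [16]), (rSx_1_4_7, false, [1]), (rSx_1_4_8, false, [17])]),
    ([(0, 0)], [(0, 0)], 14, [])),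
  ([false],
    (rSx_1_4_1, rSx_1_4_1, 15, [(rSx_1_4_1, false, [0]), (rSx_1_4_2, false, [2, 4, 8]), (rSx_1_4_2, true, [1])]),
    ([(0, 0)], [(0, 0)], 16, [])),
  ([false],
    (rSx_1_4_3, rSx_1_4_3, 13, [(rSx_1_4_3, false, [0]), (rSx_1_4_4, false, [4, 8]), (rSx_1_4_4, false, [12]), (rSx_1_4_4, false, [1]), (rSx_1_4_5, false, [5, 9])]),
    ([(0, 0)], [(0, 0)], 18, [])),
  ([false],
    (rSx_1_4_3, rSx_1_4_3, 11, [(rSx_1_4_3, false, [0]), (rSx_1_4_4, false, [2, 8]), (rSx_1_4_4, false, [10]), (rSx_1_4_4, false, [1]), (rSx_1_4_5, false, [3, 9])]),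
    ([(0, 0)], [(0, 0)], 20, [])),
  ([false],
    (rSx_1_4_6, rSx_1_4_6, 9, [(rSx_1_4_6, false, [0]), (rSx_1_4_7, false, [8]), (rSx_1_4_7, false, [1]), (rSx_1_4_8, false, [9])]),
    ([(0, 0)], [(0, 0)], 22, [])),
  ([false],
    (rSx_1_4_3, rSx_1_4_3, 7, [(rSx_1_4_3, false, [0]), (rSx_1_4_4, false, [2, 4]), (rSx_1_4_4, false, [6]), (rSx_1_4_4, false, [1]), (rSx_1_4_5, false, [3, 5])]),
    ([(0, 0)], [(0, 0)], 24, [])),
  ([false],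
    (rSx_1_4_6, rSx_1_4_6, 5, [(rSx_1_4_6, false, [0]), (rSx_1_4_7, false, [4]), (rSx_1_4_7, false, [1]), (rSx_1_4_8, false, [5])]),
    ([(0, 0)], [(0, 0)], 26, [])),
  ([false],
    (rSx_1_4_6, rSx_1_4_6, 3, [(rSx_1_4_6, false, [0]), (rSx_1_4_7, false, [2]), (rSx_1_4_7, false, [1]), (rSx_1_4_8, false, [3])]),
    ([(0, 0)], [(0, 0)], 28, [])),
  ([false],
    (rSx_1_4_9, rSx_1_4_9, 1, [(rSx_1_4_9, false, [0]), (rSx_1_4_10, false, [1])]),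
    ([(0, 0)], [(0, 0)], 30, []))]

theorem TSx_1_4_ok : tabOC CSx 1 4 TSx_1_4 = true := by
  decide +kernel

/-- the check -/
noncomputable def FSx_1_4 : List ℕ → Bool := chkO GSx_5 33554432 49515552 TSx_1_4

end Pool.Agent.Work.MP_bf01b2_co.MR
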