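import Pool.Agent.Work.MP_bf01b2_co.MR.BSx

set_option autoImplicit false

namespace Pool.Agent.Work.MP_bf01b2_co.MR

def rSx_2_1_0 : List (ℕ × ℕ) := [(23, 999), (23, 24), (23, 23), (23, 22), (23, 21)]
def rSx_2_1_1 : List (ℕ × ℕ) := [(23, 24), (22, 23), (22, 22), (22, 21)]
def rSx_2_1_2 : List (ℕ × ℕ) := [(23, 24), (23, 23), (23, 22), (23, 21)]
def rSx_2_1_3 : List (ℕ × ℕ) := [(24, 23), (22, 23), (22, 22), (22, 21)]
def rSx_2_1_4 : List (ℕ × ℕ) := [(24, 23), (23, 23), (23, 22), (23, 21)]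
def rSx_2_1_5 : List (ℕ × ℕ) := [(23, 999), (23, 23), (23, 23), (23, 22), (23, 21)]

def TSx_2_1 : List EntO :=
  [([false, false],
    (rSx_2_1_0, rSx_2_1_0, 7, [(rSx_2_1_0, false, [0])]),
    ([(0, 0)], [(0, 0)], 0, [])),
  ([false, true],
    (rSx_2_1_1, rSx_2_1_1, 5, [(rSx_2_1_1, false, [0]), (rSx_2_1_1, false, [4]), (rSx_2_1_2, true, [1])]),
    (rSx_2_1_3, rSx_2_1_3, 2, [(rSx_2_1_3, false, [0]), (rSx_2_1_4, false, [2])])),
  ([false, false],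
    (rSx_2_1_5, rSx_2_1_5, 3, [(rSx_2_1_5, false, [0]), (rSx_2_1_5, true, [1, 2])]),
    ([(0, 0)], [(0, 0)], 4, [])),
  ([false, true],
    (rSx_2_1_3, rSx_2_1_3, 1, [(rSx_2_1_3, false, [0]), (rSx_2_1_4, false, [1])]),
    (rSx_2_1_1, rSx_2_1_1, 6, [(rSx_2_1_1, false, [0]), (rSx_2_1_1, false, [4]), (rSx_2_1_2, true, [2])]))]

theorem TSx_2_1_ok : tabOC CSx 2 1 TSx_2_1 = true := by
  decide +kernel

/-- the check -/
noncomputable def FSx_2_1 : List ℕ → Bool := chkO GSx_3 512 712 TSx_2_1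

end Pool.Agent.Work.MP_bf01b2_co.MR
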