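import Pool.Agent.Work.MP_bf01b2_co.MR.BSx

set_option autoImplicit false

namespace Pool.Agent.Work.MP_bf01b2_co.MR

def rSx_2_2_0 : List (ℕ × ℕ) := [(21, 999), (21, 24), (21, 23), (21, 22), (21, 21)]
def rSx_2_2_1 : List (ℕ × ℕ) := [(22, 24), (20, 23), (20, 22), (20, 21)]
def rSx_2_2_2 : List (ℕ × ℕ) := [(22, 24), (22, 23), (22, 22), (22, 21)]
def rSx_2_2_3 : List (ℕ × ℕ) := [(24, 22), (20, 21), (20, 20)]
def rSx_2_2_4 : List (ℕ × ℕ) := [(24, 22), (22, 21), (22, 20)]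
def rSx_2_2_5 : List (ℕ × ℕ) := [(23, 999), (21, 23), (21, 23), (21, 22), (21, 21)]
def rSx_2_2_6 : List (ℕ × ℕ) := [(23, 999), (23, 23), (23, 23), (23, 22), (23, 21)]
def rSx_2_2_7 : List (ℕ × ℕ) := [(23, 23), (20, 23), (20, 22), (20, 21)]
def rSx_2_2_8 : List (ℕ × ℕ) := [(23, 23), (22, 23), (22, 22), (22, 21)]
def rSx_2_2_9 : List (ℕ × ℕ) := [(23, 999), (21, 22), (21, 21), (21, 20)]
def rSx_2_2_10 : List (ℕ × ℕ) := [(23, 999), (23, 22), (23, 21), (23, 20)]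

def TSx_2_2 : List EntO :=
  [([false, false],
    (rSx_2_2_0, rSx_2_2_0, 15, [(rSx_2_2_0, false, [0])]),
    ([(0, 0)], [(0, 0)], 0, [])),
  ([false, true],
    (rSx_2_2_1, rSx_2_2_1, 13, [(rSx_2_2_1, false, [0]), (rSx_2_2_2, false, [4, 8]), (rSx_2_2_2, true, [1])]),
    (rSx_2_2_3, rSx_2_2_3, 2, [(rSx_2_2_3, false, [0]), (rSx_2_2_4, false, [2])])),
  ([false, false],
    (rSx_2_2_5, rSx_2_2_5, 11, [(rSx_2_2_5, false, [0]), (rSx_2_2_5, false, [8]), (rSx_2_2_6, true, [1, 2])]),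
    ([(0, 0)], [(0, 0)], 4, [])),
  ([false, true],
    (rSx_2_2_7, rSx_2_2_7, 9, [(rSx_2_2_7, false, [0]), (rSx_2_2_8, false, [8]), (rSx_2_2_8, false, [1]), (rSx_2_2_8, false, [9])]),
    (rSx_2_2_7, rSx_2_2_7, 6, [(rSx_2_2_7, false, [0]), (rSx_2_2_8, false, [4]), (rSx_2_2_8, false, [2]), (rSx_2_2_8, false, [6])])),
  ([false, false],
    (rSx_2_2_5, rSx_2_2_5, 7, [(rSx_2_2_5, false, [0]), (rSx_2_2_5, false, [4]), (rSx_2_2_6, true, [1, 2])]),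
    ([(0, 0)], [(0, 0)], 8, [])),
  ([false, true],
    (rSx_2_2_7, rSx_2_2_7, 5, [(rSx_2_2_7, false, [0]), (rSx_2_2_8, false, [4]), (rSx_2_2_8, false, [1]), (rSx_2_2_8, false, [5])]),
    (rSx_2_2_7, rSx_2_2_7, 10, [(rSx_2_2_7, false, [0]), (rSx_2_2_8, false, [8]), (rSx_2_2_8, false, [2]), (rSx_2_2_8, false, [10])])),
  ([false, false],
    (rSx_2_2_9, rSx_2_2_9, 3, [(rSx_2_2_9, false, [0]), (rSx_2_2_10, false, [1, 2]), (rSx_2_2_10, true, [3])]),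
    ([(0, 0)], [(0, 0)], 12, [])),
  ([false, true],
    (rSx_2_2_3, rSx_2_2_3, 1, [(rSx_2_2_3, false, [0]), (rSx_2_2_4, false, [1])]),
    (rSx_2_2_1, rSx_2_2_1, 14, [(rSx_2_2_1, false, [0]), (rSx_2_2_2, false, [4, 8]), (rSx_2_2_2, true, [2])]))]

theorem TSx_2_2_ok : tabOC CSx 2 2 TSx_2_2 = true := by
  decide +kernel

/-- the check -/
noncomputable def FSx_2_2 : List ℕ → Bool := chkO GSx_4 65536 94992 TSx_2_2

end Pool.Agent.Work.MP_bf01b2_co.MR
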