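import Pool.Agent.Work.MP_bf01b2_co.MR.BSx

set_option autoImplicit false

namespace Pool.Agent.Work.MP_bf01b2_co.MR

def rSx_2_3_0 : List (ℕ × ℕ) := [(19, 999), (19, 24), (19, 23), (19, 22), (19, 21)]
def rSx_2_3_1 : List (ℕ × ℕ) := [(20, 24), (18, 23), (18, 22), (18, 21)]
def rSx_2_3_2 : List (ℕ × ℕ) := [(20, 24), (20, 23), (20, 22), (20, 21)]
def rSx_2_3_3 : List (ℕ × ℕ) := [(24, 20), (18, 19)]
def rSx_2_3_4 : List (ℕ × ℕ) := [(24, 20), (20, 19)]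
def rSx_2_3_5 : List (ℕ × ℕ) := [(21, 999), (19, 23), (19, 23), (19, 22), (19, 21)]
def rSx_2_3_6 : List (ℕ × ℕ) := [(21, 999), (21, 23), (21, 23), (21, 22), (21, 21)]
def rSx_2_3_7 : List (ℕ × ℕ) := [(22, 23), (18, 23), (18, 22), (18, 21)]
def rSx_2_3_8 : List (ℕ × ℕ) := [(22, 23), (20, 23), (20, 22), (20, 21)]
def rSx_2_3_9 : List (ℕ × ℕ) := [(22, 23), (22, 23), (22, 22), (22, 21)]
def rSx_2_3_10 : List (ℕ × ℕ) := [(23, 22), (18, 21), (18, 20)]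
def rSx_2_3_11 : List (ℕ × ℕ) := [(23, 22), (20, 21), (20, 20)]
def rSx_2_3_12 : List (ℕ × ℕ) := [(23, 22), (22, 21), (22, 20)]
def rSx_2_3_13 : List (ℕ × ℕ) := [(23, 999), (19, 22), (19, 21), (19, 20)]
def rSx_2_3_14 : List (ℕ × ℕ) := [(23, 999), (21, 22), (21, 21), (21, 20)]
def rSx_2_3_15 : List (ℕ × ℕ) := [(23, 999), (23, 22), (23, 21), (23, 20)]
def rSx_2_3_16 : List (ℕ × ℕ) := [(23, 999), (19, 20), (19, 19)]
def rSx_2_3_17 : List (ℕ × ℕ) := [(23, 999), (21, 20), (21, 19)]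
def rSx_2_3_18 : List (ℕ × ℕ) := [(23, 999), (23, 20), (23, 19)]

def TSx_2_3 : List EntO :=
  [([false, false],
    (rSx_2_3_0, rSx_2_3_0, 31, [(rSx_2_3_0, false, [0])]),
    ([(0, 0)], [(0, 0)], 0, [])),
  ([false, true],
    (rSx_2_3_1, rSx_2_3_1, 29, [(rSx_2_3_1, false, [0]), (rSx_2_3_2, false, [4, 8, 16]), (rSx_2_3_2, true, [1])]),
    (rSx_2_3_3, rSx_2_3_3, 2, [(rSx_2_3_3, false, [0]), (rSx_2_3_4, false, [2])])),
  ([false, false],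
    (rSx_2_3_5, rSx_2_3_5, 27, [(rSx_2_3_5, false, [0]), (rSx_2_3_6, false, [8, 16]), (rSx_2_3_6, true, [1, 2])]),
    ([(0, 0)], [(0, 0)], 4, [])),
  ([false, true],
    (rSx_2_3_7, rSx_2_3_7, 25, [(rSx_2_3_7, false, [0]), (rSx_2_3_8, false, [8, 16]), (rSx_2_3_8, false, [24]), (rSx_2_3_8, false, [1]), (rSx_2_3_9, false, [9, 17])]),
    (rSx_2_3_10, rSx_2_3_10, 6, [(rSx_2_3_10, false, [0]), (rSx_2_3_11, false, [4]), (rSx_2_3_11, false, [2]), (rSx_2_3_12, false, [6])])),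
  ([false, false],
    (rSx_2_3_5, rSx_2_3_5, 23, [(rSx_2_3_5, false, [0]), (rSx_2_3_6, false, [4, 16]), (rSx_2_3_6, true, [1, 2])]),
    ([(0, 0)], [(0, 0)], 8, [])),
  ([false, true],
    (rSx_2_3_7, rSx_2_3_7, 21, [(rSx_2_3_7, false, [0]), (rSx_2_3_8, false, [4, 16]), (rSx_2_3_8, false, [20]), (rSx_2_3_8, false, [1]), (rSx_2_3_9, false, [5, 17])]),
    (rSx_2_3_10, rSx_2_3_10, 10, [(rSx_2_3_10, false, [0]), (rSx_2_3_11, false, [8]), (rSx_2_3_11, false, [2]), (rSx_2_3_12, false, [10])])),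
  ([false, false],
    (rSx_2_3_13, rSx_2_3_13, 19, [(rSx_2_3_13, false, [0]), (rSx_2_3_14, false, [16]), (rSx_2_3_14, false, [1, 2]), (rSx_2_3_14, false, [17, 18]), (rSx_2_3_15, true, [3])]),
    ([(0, 0)], [(0, 0)], 12, [])),
  ([false, true],
    (rSx_2_3_10, rSx_2_3_10, 17, [(rSx_2_3_10, false, [0]), (rSx_2_3_11, false, [16]), (rSx_2_3_11, false, [1]), (rSx_2_3_12, false, [17])]),
    (rSx_2_3_7, rSx_2_3_7, 14, [(rSx_2_3_7, false, [0]), (rSx_2_3_8, false, [4, 8]), (rSx_2_3_8, false, [12]), (rSx_2_3_8, false, [2]), (rSx_2_3_9, false, [6, 10])])),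
  ([false, false],
    (rSx_2_3_5, rSx_2_3_5, 15, [(rSx_2_3_5, false, [0]), (rSx_2_3_6, false, [4, 8]), (rSx_2_3_6, true, [1, 2])]),
    ([(0, 0)], [(0, 0)], 16, [])),
  ([false, true],
    (rSx_2_3_7, rSx_2_3_7, 13, [(rSx_2_3_7, false, [0]), (rSx_2_3_8, false, [4, 8]), (rSx_2_3_8, false, [12]), (rSx_2_3_8, false, [1]), (rSx_2_3_9, false, [5, 9])]),
    (rSx_2_3_10, rSx_2_3_10, 18, [(rSx_2_3_10, false, [0]), (rSx_2_3_11, false, [16]), (rSx_2_3_11, false, [2]), (rSx_2_3_12, false, [18])])),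
  ([false, false],
    (rSx_2_3_13, rSx_2_3_13, 11, [(rSx_2_3_13, false, [0]), (rSx_2_3_14, false, [8]), (rSx_2_3_14, false, [1, 2]), (rSx_2_3_14, false, [9, 10]), (rSx_2_3_15, true, [3])]),
    ([(0, 0)], [(0, 0)], 20, [])),
  ([false, true],
    (rSx_2_3_10, rSx_2_3_10, 9, [(rSx_2_3_10, false, [0]), (rSx_2_3_11, false, [8]), (rSx_2_3_11, false, [1]), (rSx_2_3_12, false, [9])]),
    (rSx_2_3_7, rSx_2_3_7, 22, [(rSx_2_3_7, false, [0]), (rSx_2_3_8, false, [4, 16]), (rSx_2_3_8, false, [20]), (rSx_2_3_8, false, [2]), (rSx_2_3_9, false, [6, 18])])),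
  ([false, false],
    (rSx_2_3_13, rSx_2_3_13, 7, [(rSx_2_3_13, false, [0]), (rSx_2_3_14, false, [4]), (rSx_2_3_14, false, [1, 2]), (rSx_2_3_14, false, [5, 6]), (rSx_2_3_15, true, [3])]),
    ([(0, 0)], [(0, 0)], 24, [])),
  ([false, true],
    (rSx_2_3_10, rSx_2_3_10, 5, [(rSx_2_3_10, false, [0]), (rSx_2_3_11, false, [4]), (rSx_2_3_11, false, [1]), (rSx_2_3_12, false, [5])]),
    (rSx_2_3_7, rSx_2_3_7, 26, [(rSx_2_3_7, false, [0]), (rSx_2_3_8, false, [8, 16]), (rSx_2_3_8, false, [24]), (rSx_2_3_8, false, [2]), (rSx_2_3_9, false, [10, 18])])),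
  ([false, false],
    (rSx_2_3_16, rSx_2_3_16, 3, [(rSx_2_3_16, false, [0]), (rSx_2_3_17, false, [1, 2]), (rSx_2_3_18, false, [3])]),
    ([(0, 0)], [(0, 0)], 28, [])),
  ([false, true],
    (rSx_2_3_3, rSx_2_3_3, 1, [(rSx_2_3_3, false, [0]), (rSx_2_3_4, false, [1])]),
    (rSx_2_3_1, rSx_2_3_1, 30, [(rSx_2_3_1, false, [0]), (rSx_2_3_2, false, [4, 8, 16]), (rSx_2_3_2, true, [2])]))]

theorem TSx_2_3_ok : tabOC CSx 2 3 TSx_2_3 = true := by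
  decide +kernel

/-- the check -/
noncomputable def FSx_2_3 : List ℕ → Bool := chkO GSx_5 33554432 49515552 TSx_2_3

end Pool.Agent.Work.MP_bf01b2_co.MR
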