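import Pool.Agent.Work.MP_bf01b2_co.MR.BSx

set_option autoImplicit false

namespace Pool.Agent.Work.MP_bf01b2_co.MR

def rSx_3_0_0 : List (ℕ × ℕ) := [(22, 999), (22, 24), (22, 23), (22, 22), (22, 21)]
def rSx_3_0_1 : List (ℕ × ℕ) := [(23, 24), (23, 23), (23, 22), (23, 21)]
def rSx_3_0_2 : List (ℕ × ℕ) := [(24, 23), (22, 22), (22, 21)]
def rSx_3_0_3 : List (ℕ × ℕ) := [(24, 23), (23, 22), (23, 21)]

def TSx_3_0 : List EntO :=
  [([false, false, false],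
    (rSx_3_0_0, rSx_3_0_0, 7, [(rSx_3_0_0, false, [0])]),
    ([(0, 0)], [(0, 0)], 0, [])),
  ([false, true, false],
    (rSx_3_0_1, rSx_3_0_1, 5, [(rSx_3_0_1, false, [0]), (rSx_3_0_1, true, [1, 4])]),
    (rSx_3_0_2, rSx_3_0_2, 2, [(rSx_3_0_2, false, [0]), (rSx_3_0_3, false, [2])])),
  ([false, false, true],
    (rSx_3_0_1, rSx_3_0_1, 3, [(rSx_3_0_1, false, [0]), (rSx_3_0_1, true, [1, 2])]),
    (rSx_3_0_2, rSx_3_0_2, 4, [(rSx_3_0_2, false, [0]), (rSx_3_0_3, false, [4])])),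
  ([false, true, true],
    (rSx_3_0_2, rSx_3_0_2, 1, [(rSx_3_0_2, false, [0]), (rSx_3_0_3, false, [1])]),
    (rSx_3_0_1, rSx_3_0_1, 6, [(rSx_3_0_1, false, [0]), (rSx_3_0_1, true, [2, 4])]))]

theorem TSx_3_0_ok : tabOC CSx 3 0 TSx_3_0 = true := by
  decide +kernel

/-- the check -/
noncomputable def FSx_3_0 : List ℕ → Bool := chkO GSx_3 512 712 TSx_3_0

end Pool.Agent.Work.MP_bf01b2_co.MR
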