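import Pool.Agent.Work.MP_bf01b2_co.MR.BSx

set_option autoImplicit false

namespace Pool.Agent.Work.MP_bf01b2_co.MR

def rSx_3_1_0 : List (ℕ × ℕ) := [(22, 999), (22, 24), (22, 23), (22, 22), (22, 21)]
def rSx_3_1_1 : List (ℕ × ℕ) := [(23, 24), (21, 23), (21, 22), (21, 21)]
def rSx_3_1_2 : List (ℕ × ℕ) := [(23, 24), (23, 23), (23, 22), (23, 21)]
def rSx_3_1_3 : List (ℕ × ℕ) := [(24, 23), (20, 22), (20, 21)]
def rSx_3_1_4 : List (ℕ × ℕ) := [(24, 23), (22, 22), (22, 21)]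
def rSx_3_1_5 : List (ℕ × ℕ) := [(23, 23), (20, 22), (20, 21)]
def rSx_3_1_6 : List (ℕ × ℕ) := [(23, 23), (22, 22), (22, 21)]
def rSx_3_1_7 : List (ℕ × ℕ) := [(23, 23), (21, 23), (21, 22), (21, 21)]
def rSx_3_1_8 : List (ℕ × ℕ) := [(23, 23), (23, 23), (23, 22), (23, 21)]
def rSx_3_1_9 : List (ℕ × ℕ) := [(22, 999), (22, 23), (22, 23), (22, 22), (22, 21)]

def TSx_3_1 : List EntO :=
  [([false, false, false],
    (rSx_3_1_0, rSx_3_1_0, 15, [(rSx_3_1_0, false, [0])]),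
    ([(0, 0)], [(0, 0)], 0, [])),
  ([false, true, false],
    (rSx_3_1_1, rSx_3_1_1, 13, [(rSx_3_1_1, false, [0]), (rSx_3_1_1, false, [8]), (rSx_3_1_2, true, [1, 4])]),
    (rSx_3_1_3, rSx_3_1_3, 2, [(rSx_3_1_3, false, [0]), (rSx_3_1_4, false, [2])])),
  ([false, false, true],
    (rSx_3_1_1, rSx_3_1_1, 11, [(rSx_3_1_1, false, [0]), (rSx_3_1_1, false, [8]), (rSx_3_1_2, true, [1, 2])]),
    (rSx_3_1_3, rSx_3_1_3, 4, [(rSx_3_1_3, false, [0]), (rSx_3_1_4, false, [4])])),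
  ([false, true, true],
    (rSx_3_1_5, rSx_3_1_5, 9, [(rSx_3_1_5, false, [0]), (rSx_3_1_6, false, [8]), (rSx_3_1_6, false, [1]), (rSx_3_1_6, false, [9])]),
    (rSx_3_1_7, rSx_3_1_7, 6, [(rSx_3_1_7, false, [0]), (rSx_3_1_8, false, [2, 4]), (rSx_3_1_8, true, [6])])),
  ([false, false, false],
    (rSx_3_1_9, rSx_3_1_9, 7, [(rSx_3_1_9, false, [0]), (rSx_3_1_9, true, [1, 2, 4])]),
    ([(0, 0)], [(0, 0)], 8, [])),
  ([false, true, false],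
    (rSx_3_1_7, rSx_3_1_7, 5, [(rSx_3_1_7, false, [0]), (rSx_3_1_8, false, [1, 4]), (rSx_3_1_8, true, [5])]),
    (rSx_3_1_5, rSx_3_1_5, 10, [(rSx_3_1_5, false, [0]), (rSx_3_1_6, false, [8]), (rSx_3_1_6, false, [2]), (rSx_3_1_6, false, [10])])),
  ([false, false, true],
    (rSx_3_1_7, rSx_3_1_7, 3, [(rSx_3_1_7, false, [0]), (rSx_3_1_8, false, [1, 2]), (rSx_3_1_8, true, [3])]),
    (rSx_3_1_5, rSx_3_1_5, 12, [(rSx_3_1_5, false, [0]), (rSx_3_1_6, false, [8]), (rSx_3_1_6, false, [4]), (rSx_3_1_6, false, [12])])),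
  ([false, true, true],
    (rSx_3_1_3, rSx_3_1_3, 1, [(rSx_3_1_3, false, [0]), (rSx_3_1_4, false, [1])]),
    (rSx_3_1_1, rSx_3_1_1, 14, [(rSx_3_1_1, false, [0]), (rSx_3_1_1, false, [8]), (rSx_3_1_2, true, [2, 4])]))]

theorem TSx_3_1_ok : tabOC CSx 3 1 TSx_3_1 = true := by
  decide +kernel

/-- the check -/
noncomputable def FSx_3_1 : List ℕ → Bool := chkO GSx_4 65536 94992 TSx_3_1

end Pool.Agent.Work.MP_bf01b2_co.MR
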