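import Pool.Agent.Work.MP_bf01b2_co.MR.BSx

set_option autoImplicit false

namespace Pool.Agent.Work.MP_bf01b2_co.MR

def rSx_3_2_0 : List (ℕ × ℕ) := [(20, 999), (20, 24), (20, 23), (20, 22), (20, 21)]
def rSx_3_2_1 : List (ℕ × ℕ) := [(21, 24), (19, 23), (19, 22), (19, 21)]
def rSx_3_2_2 : List (ℕ × ℕ) := [(21, 24), (21, 23), (21, 22), (21, 21)]
def rSx_3_2_3 : List (ℕ × ℕ) := [(24, 21), (18, 20)]
def rSx_3_2_4 : List (ℕ × ℕ) := [(24, 21), (20, 20)]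
def rSx_3_2_5 : List (ℕ × ℕ) := [(22, 23), (18, 22), (18, 21)]
def rSx_3_2_6 : List (ℕ × ℕ) := [(22, 23), (20, 22), (20, 21)]
def rSx_3_2_7 : List (ℕ × ℕ) := [(22, 23), (22, 22), (22, 21)]
def rSx_3_2_8 : List (ℕ × ℕ) := [(23, 22), (19, 21), (19, 20)]
def rSx_3_2_9 : List (ℕ × ℕ) := [(23, 22), (21, 21), (21, 20)]
def rSx_3_2_10 : List (ℕ × ℕ) := [(23, 22), (23, 21), (23, 20)]
def rSx_3_2_11 : List (ℕ × ℕ) := [(22, 999), (20, 23), (20, 23), (20, 22), (20, 21)]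
def rSx_3_2_12 : List (ℕ × ℕ) := [(22, 999), (22, 23), (22, 23), (22, 22), (22, 21)]
def rSx_3_2_13 : List (ℕ × ℕ) := [(23, 23), (19, 23), (19, 22), (19, 21)]
def rSx_3_2_14 : List (ℕ × ℕ) := [(23, 23), (21, 23), (21, 22), (21, 21)]
def rSx_3_2_15 : List (ℕ × ℕ) := [(23, 23), (23, 23), (23, 22), (23, 21)]
def rSx_3_2_16 : List (ℕ × ℕ) := [(23, 23), (18, 22), (18, 21)]
def rSx_3_2_17 : List (ℕ × ℕ) := [(23, 23), (20, 22), (20, 21)]
def rSx_3_2_18 : List (ℕ × ℕ) := [(23, 23), (22, 22), (22, 21)]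
def rSx_3_2_19 : List (ℕ × ℕ) := [(22, 999), (20, 22), (20, 21), (20, 20)]
def rSx_3_2_20 : List (ℕ × ℕ) := [(22, 999), (22, 22), (22, 21), (22, 20)]

def TSx_3_2 : List EntO :=
  [([false, false, false],
    (rSx_3_2_0, rSx_3_2_0, 31, [(rSx_3_2_0, false, [0])]),
    ([(0, 0)], [(0, 0)], 0, [])),
  ([false, true, false],
    (rSx_3_2_1, rSx_3_2_1, 29, [(rSx_3_2_1, false, [0]), (rSx_3_2_2, false, [8, 16]), (rSx_3_2_2, true, [1, 4])]),
    (rSx_3_2_3, rSx_3_2_3, 2, [(rSx_3_2_3, false, [0]), (rSx_3_2_4, false, [2])])),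
  ([false, false, true],
    (rSx_3_2_1, rSx_3_2_1, 27, [(rSx_3_2_1, false, [0]), (rSx_3_2_2, false, [8, 16]), (rSx_3_2_2, true, [1, 2])]),
    (rSx_3_2_3, rSx_3_2_3, 4, [(rSx_3_2_3, false, [0]), (rSx_3_2_4, false, [4])])),
  ([false, true, true],
    (rSx_3_2_5, rSx_3_2_5, 25, [(rSx_3_2_5, false, [0]), (rSx_3_2_6, false, [8, 16]), (rSx_3_2_6, false, [24]), (rSx_3_2_6, false, [1]), (rSx_3_2_7, false, [9, 17])]),
    (rSx_3_2_8, rSx_3_2_8, 6, [(rSx_3_2_8, false, [0]), (rSx_3_2_9, false, [2, 4]), (rSx_3_2_10, false, [6])])),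
  ([false, false, false],
    (rSx_3_2_11, rSx_3_2_11, 23, [(rSx_3_2_11, false, [0]), (rSx_3_2_11, false, [16]), (rSx_3_2_12, true, [1, 2, 4])]),
    ([(0, 0)], [(0, 0)], 8, [])),
  ([false, true, false],
    (rSx_3_2_13, rSx_3_2_13, 21, [(rSx_3_2_13, false, [0]), (rSx_3_2_14, false, [16]), (rSx_3_2_14, false, [1, 4]), (rSx_3_2_14, false, [17, 20]), (rSx_3_2_15, true, [5])]),
    (rSx_3_2_16, rSx_3_2_16, 10, [(rSx_3_2_16, false, [0]), (rSx_3_2_17, false, [8]), (rSx_3_2_17, false, [2]), (rSx_3_2_18, false, [10])])),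
  ([false, false, true],
    (rSx_3_2_13, rSx_3_2_13, 19, [(rSx_3_2_13, false, [0]), (rSx_3_2_14, false, [16]), (rSx_3_2_14, false, [1, 2]), (rSx_3_2_14, false, [17, 18]), (rSx_3_2_15, true, [3])]),
    (rSx_3_2_16, rSx_3_2_16, 12, [(rSx_3_2_16, false, [0]), (rSx_3_2_17, false, [8]), (rSx_3_2_17, false, [4]), (rSx_3_2_18, false, [12])])),
  ([false, true, true],
    (rSx_3_2_16, rSx_3_2_16, 17, [(rSx_3_2_16, false, [0]), (rSx_3_2_17, false, [16]), (rSx_3_2_17, false, [1]), (rSx_3_2_18, false, [17])]),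
    (rSx_3_2_13, rSx_3_2_13, 14, [(rSx_3_2_13, false, [0]), (rSx_3_2_14, false, [8]), (rSx_3_2_14, false, [2, 4]), (rSx_3_2_14, false, [10, 12]), (rSx_3_2_15, true, [6])])),
  ([false, false, false],
    (rSx_3_2_11, rSx_3_2_11, 15, [(rSx_3_2_11, false, [0]), (rSx_3_2_11, false, [8]), (rSx_3_2_12, true, [1, 2, 4])]),
    ([(0, 0)], [(0, 0)], 16, [])),
  ([false, true, false],
    (rSx_3_2_13, rSx_3_2_13, 13, [(rSx_3_2_13, false, [0]), (rSx_3_2_14, false, [8]), (rSx_3_2_14, false, [1, 4]), (rSx_3_2_14, false, [9, 12]), (rSx_3_2_15, true, [5])]),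
    (rSx_3_2_16, rSx_3_2_16, 18, [(rSx_3_2_16, false, [0]), (rSx_3_2_17, false, [16]), (rSx_3_2_17, false, [2]), (rSx_3_2_18, false, [18])])),
  ([false, false, true],
    (rSx_3_2_13, rSx_3_2_13, 11, [(rSx_3_2_13, false, [0]), (rSx_3_2_14, false, [8]), (rSx_3_2_14, false, [1, 2]), (rSx_3_2_14, false, [9, 10]), (rSx_3_2_15, true, [3])]),
    (rSx_3_2_16, rSx_3_2_16, 20, [(rSx_3_2_16, false, [0]), (rSx_3_2_17, false, [16]), (rSx_3_2_17, false, [4]), (rSx_3_2_18, false, [20])])),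
  ([false, true, true],
    (rSx_3_2_16, rSx_3_2_16, 9, [(rSx_3_2_16, false, [0]), (rSx_3_2_17, false, [8]), (rSx_3_2_17, false, [1]), (rSx_3_2_18, false, [9])]),
    (rSx_3_2_13, rSx_3_2_13, 22, [(rSx_3_2_13, false, [0]), (rSx_3_2_14, false, [16]), (rSx_3_2_14, false, [2, 4]), (rSx_3_2_14, false, [18, 20]), (rSx_3_2_15, true, [6])])),
  ([false, false, false],
    (rSx_3_2_19, rSx_3_2_19, 7, [(rSx_3_2_19, false, [0]), (rSx_3_2_20, false, [1, 2, 4]), (rSx_3_2_20, true, [3, 5, 6])]),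
    ([(0, 0)], [(0, 0)], 24, [])),
  ([false, true, false],
    (rSx_3_2_8, rSx_3_2_8, 5, [(rSx_3_2_8, false, [0]), (rSx_3_2_9, false, [1, 4]), (rSx_3_2_10, false, [5])]),
    (rSx_3_2_5, rSx_3_2_5, 26, [(rSx_3_2_5, false, [0]), (rSx_3_2_6, false, [8, 16]), (rSx_3_2_6, false, [24]), (rSx_3_2_6, false, [2]), (rSx_3_2_7, false, [10, 18])])),
  ([false, false, true],
    (rSx_3_2_8, rSx_3_2_8, 3, [(rSx_3_2_8, false, [0]), (rSx_3_2_9, false, [1, 2]), (rSx_3_2_10, false, [3])]),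
    (rSx_3_2_5, rSx_3_2_5, 28, [(rSx_3_2_5, false, [0]), (rSx_3_2_6, false, [8, 16]), (rSx_3_2_6, false, [24]), (rSx_3_2_6, false, [4]), (rSx_3_2_7, false, [12, 20])])),
  ([false, true, true],
    (rSx_3_2_3, rSx_3_2_3, 1, [(rSx_3_2_3, false, [0]), (rSx_3_2_4, false, [1])]),
    (rSx_3_2_1, rSx_3_2_1, 30, [(rSx_3_2_1, false, [0]), (rSx_3_2_2, false, [8, 16]), (rSx_3_2_2, true, [2, 4])]))]

theorem TSx_3_2_ok : tabOC CSx 3 2 TSx_3_2 = true := by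
  decide +kernel

/-- the check -/
noncomputable def FSx_3_2 : List ℕ → Bool := chkO GSx_5 33554432 49515552 TSx_3_2

end Pool.Agent.Work.MP_bf01b2_co.MR
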