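import Pool.Agent.Work.MP_bf01b2_co.MR.BSx

set_option autoImplicit false

namespace Pool.Agent.Work.MP_bf01b2_co.MR

def rSx_4_0_0 : List (ℕ × ℕ) := [(21, 999), (21, 24), (21, 23), (21, 22), (21, 21)]
def rSx_4_0_1 : List (ℕ × ℕ) := [(22, 24), (22, 23), (22, 22), (22, 21)]
def rSx_4_0_2 : List (ℕ × ℕ) := [(24, 22), (20, 21)]
def rSx_4_0_3 : List (ℕ × ℕ) := [(24, 22), (22, 21)]
def rSx_4_0_4 : List (ℕ × ℕ) := [(23, 23), (21, 22), (21, 21)]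
def rSx_4_0_5 : List (ℕ × ℕ) := [(23, 23), (23, 22), (23, 21)]

def TSx_4_0 : List EntO :=
  [([false, false, false, false],
    (rSx_4_0_0, rSx_4_0_0, 15, [(rSx_4_0_0, false, [0])]),
    ([(0, 0)], [(0, 0)], 0, [])),
  ([false, true, false, false],
    (rSx_4_0_1, rSx_4_0_1, 13, [(rSx_4_0_1, false, [0]), (rSx_4_0_1, true, [1, 4, 8])]),
    (rSx_4_0_2, rSx_4_0_2, 2, [(rSx_4_0_2, false, [0]), (rSx_4_0_3, false, [2])])),
  ([false, false, true, false],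
    (rSx_4_0_1, rSx_4_0_1, 11, [(rSx_4_0_1, false, [0]), (rSx_4_0_1, true, [1, 2, 8])]),
    (rSx_4_0_2, rSx_4_0_2, 4, [(rSx_4_0_2, false, [0]), (rSx_4_0_3, false, [4])])),
  ([false, true, true, false],
    (rSx_4_0_4, rSx_4_0_4, 9, [(rSx_4_0_4, false, [0]), (rSx_4_0_5, false, [1, 8]), (rSx_4_0_5, true, [9])]),
    (rSx_4_0_4, rSx_4_0_4, 6, [(rSx_4_0_4, false, [0]), (rSx_4_0_5, false, [2, 4]), (rSx_4_0_5, true, [6])])),
  ([false, false, false, true],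
    (rSx_4_0_1, rSx_4_0_1, 7, [(rSx_4_0_1, false, [0]), (rSx_4_0_1, true, [1, 2, 4])]),
    (rSx_4_0_2, rSx_4_0_2, 8, [(rSx_4_0_2, false, [0]), (rSx_4_0_3, false, [8])])),
  ([false, true, false, true],
    (rSx_4_0_4, rSx_4_0_4, 5, [(rSx_4_0_4, false, [0]), (rSx_4_0_5, false, [1, 4]), (rSx_4_0_5, true, [5])]),
    (rSx_4_0_4, rSx_4_0_4, 10, [(rSx_4_0_4, false, [0]), (rSx_4_0_5, false, [2, 8]), (rSx_4_0_5, true, [10])])),
  ([false, false, true, true],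
    (rSx_4_0_4, rSx_4_0_4, 3, [(rSx_4_0_4, false, [0]), (rSx_4_0_5, false, [1, 2]), (rSx_4_0_5, true, [3])]),
    (rSx_4_0_4, rSx_4_0_4, 12, [(rSx_4_0_4, false, [0]), (rSx_4_0_5, false, [4, 8]), (rSx_4_0_5, true, [12])])),
  ([false, true, true, true],
    (rSx_4_0_2, rSx_4_0_2, 1, [(rSx_4_0_2, false, [0]), (rSx_4_0_3, false, [1])]),
    (rSx_4_0_1, rSx_4_0_1, 14, [(rSx_4_0_1, false, [0]), (rSx_4_0_1, true, [2, 4, 8])]))]

theorem TSx_4_0_ok : tabOC CSx 4 0 TSx_4_0 = true := by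
  decide +kernel

/-- the check -/
noncomputable def FSx_4_0 : List ℕ → Bool := chkO GSx_4 65536 94992 TSx_4_0

end Pool.Agent.Work.MP_bf01b2_co.MR
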