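import Pool.Agent.Work.MP_bf01b2_co.MR.BSx

set_option autoImplicit false

namespace Pool.Agent.Work.MP_bf01b2_co.MR

def rSx_4_1_0 : List (ℕ × ℕ) := [(21, 999), (21, 24), (21, 23), (21, 22), (21, 21)]
def rSx_4_1_1 : List (ℕ × ℕ) := [(22, 24), (20, 23), (20, 22), (20, 21)]
def rSx_4_1_2 : List (ℕ × ℕ) := [(22, 24), (22, 23), (22, 22), (22, 21)]
def rSx_4_1_3 : List (ℕ × ℕ) := [(24, 22), (18, 21)]
def rSx_4_1_4 : List (ℕ × ℕ) := [(24, 22), (20, 21)]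
def rSx_4_1_5 : List (ℕ × ℕ) := [(23, 23), (19, 22), (19, 21)]
def rSx_4_1_6 : List (ℕ × ℕ) := [(23, 23), (21, 22), (21, 21)]
def rSx_4_1_7 : List (ℕ × ℕ) := [(23, 23), (23, 22), (23, 21)]
def rSx_4_1_8 : List (ℕ × ℕ) := [(23, 22), (18, 21)]
def rSx_4_1_9 : List (ℕ × ℕ) := [(23, 22), (20, 21)]
def rSx_4_1_10 : List (ℕ × ℕ) := [(23, 22), (22, 21)]
def rSx_4_1_11 : List (ℕ × ℕ) := [(22, 23), (20, 23), (20, 22), (20, 21)]
def rSx_4_1_12 : List (ℕ × ℕ) := [(22, 23), (22, 23), (22, 22), (22, 21)]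
def rSx_4_1_13 : List (ℕ × ℕ) := [(21, 999), (21, 23), (21, 23), (21, 22), (21, 21)]

def TSx_4_1 : List EntO :=
  [([false, false, false, false],
    (rSx_4_1_0, rSx_4_1_0, 31, [(rSx_4_1_0, false, [0])]),
    ([(0, 0)], [(0, 0)], 0, [])),
  ([false, true, false, false],
    (rSx_4_1_1, rSx_4_1_1, 29, [(rSx_4_1_1, false, [0]), (rSx_4_1_1, false, [16]), (rSx_4_1_2, true, [1, 4, 8])]),
    (rSx_4_1_3, rSx_4_1_3, 2, [(rSx_4_1_3, false, [0]), (rSx_4_1_4, false, [2])])),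
  ([false, false, true, false],
    (rSx_4_1_1, rSx_4_1_1, 27, [(rSx_4_1_1, false, [0]), (rSx_4_1_1, false, [16]), (rSx_4_1_2, true, [1, 2, 8])]),
    (rSx_4_1_3, rSx_4_1_3, 4, [(rSx_4_1_3, false, [0]), (rSx_4_1_4, false, [4])])),
  ([false, true, true, false],
    (rSx_4_1_5, rSx_4_1_5, 25, [(rSx_4_1_5, false, [0]), (rSx_4_1_6, false, [16]), (rSx_4_1_6, false, [1, 8]), (rSx_4_1_6, false, [17, 24]), (rSx_4_1_7, true, [9])]),
    (rSx_4_1_5, rSx_4_1_5, 6, [(rSx_4_1_5, false, [0]), (rSx_4_1_6, false, [2, 4]), (rSx_4_1_7, false, [6])])),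
  ([false, false, false, true],
    (rSx_4_1_1, rSx_4_1_1, 23, [(rSx_4_1_1, false, [0]), (rSx_4_1_1, false, [16]), (rSx_4_1_2, true, [1, 2, 4])]),
    (rSx_4_1_3, rSx_4_1_3, 8, [(rSx_4_1_3, false, [0]), (rSx_4_1_4, false, [8])])),
  ([false, true, false, true],
    (rSx_4_1_5, rSx_4_1_5, 21, [(rSx_4_1_5, false, [0]), (rSx_4_1_6, false, [16]), (rSx_4_1_6, false, [1, 4]), (rSx_4_1_6, false, [17, 20]), (rSx_4_1_7, true, [5])]),
    (rSx_4_1_5, rSx_4_1_5, 10, [(rSx_4_1_5, false, [0]), (rSx_4_1_6, false, [2, 8]), (rSx_4_1_7, false, [10])])),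
  ([false, false, true, true],
    (rSx_4_1_5, rSx_4_1_5, 19, [(rSx_4_1_5, false, [0]), (rSx_4_1_6, false, [16]), (rSx_4_1_6, false, [1, 2]), (rSx_4_1_6, false, [17, 18]), (rSx_4_1_7, true, [3])]),
    (rSx_4_1_5, rSx_4_1_5, 12, [(rSx_4_1_5, false, [0]), (rSx_4_1_6, false, [4, 8]), (rSx_4_1_7, false, [12])])),
  ([false, true, true, true],
    (rSx_4_1_8, rSx_4_1_8, 17, [(rSx_4_1_8, false, [0]), (rSx_4_1_9, false, [16]), (rSx_4_1_9, false, [1]), (rSx_4_1_10, false, [17])]),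
    (rSx_4_1_11, rSx_4_1_11, 14, [(rSx_4_1_11, false, [0]), (rSx_4_1_12, false, [2, 4, 8]), (rSx_4_1_12, true, [6, 10, 12])])),
  ([false, false, false, false],
    (rSx_4_1_13, rSx_4_1_13, 15, [(rSx_4_1_13, false, [0]), (rSx_4_1_13, true, [1, 2, 4, 8])]),
    ([(0, 0)], [(0, 0)], 16, [])),
  ([false, true, false, false],
    (rSx_4_1_11, rSx_4_1_11, 13, [(rSx_4_1_11, false, [0]), (rSx_4_1_12, false, [1, 4, 8]), (rSx_4_1_12, true, [5, 9, 12])]),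
    (rSx_4_1_8, rSx_4_1_8, 18, [(rSx_4_1_8, false, [0]), (rSx_4_1_9, false, [16]), (rSx_4_1_9, false, [2]), (rSx_4_1_10, false, [18])])),
  ([false, false, true, false],
    (rSx_4_1_11, rSx_4_1_11, 11, [(rSx_4_1_11, false, [0]), (rSx_4_1_12, false, [1, 2, 8]), (rSx_4_1_12, true, [3, 9, 10])]),
    (rSx_4_1_8, rSx_4_1_8, 20, [(rSx_4_1_8, false, [0]), (rSx_4_1_9, false, [16]), (rSx_4_1_9, false, [4]), (rSx_4_1_10, false, [20])])),
  ([false, true, true, false],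
    (rSx_4_1_5, rSx_4_1_5, 9, [(rSx_4_1_5, false, [0]), (rSx_4_1_6, false, [1, 8]), (rSx_4_1_7, false, [9])]),
    (rSx_4_1_5, rSx_4_1_5, 22, [(rSx_4_1_5, false, [0]), (rSx_4_1_6, false, [16]), (rSx_4_1_6, false, [2, 4]), (rSx_4_1_6, false, [18, 20]), (rSx_4_1_7, true, [6])])),
  ([false, false, false, true],
    (rSx_4_1_11, rSx_4_1_11, 7, [(rSx_4_1_11, false, [0]), (rSx_4_1_12, false, [1, 2, 4]), (rSx_4_1_12, true, [3, 5, 6])]),
    (rSx_4_1_8, rSx_4_1_8, 24, [(rSx_4_1_8, false, [0]), (rSx_4_1_9, false, [16]), (rSx_4_1_9, false, [8]), (rSx_4_1_10, false, [24])])),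
  ([false, true, false, true],
    (rSx_4_1_5, rSx_4_1_5, 5, [(rSx_4_1_5, false, [0]), (rSx_4_1_6, false, [1, 4]), (rSx_4_1_7, false, [5])]),
    (rSx_4_1_5, rSx_4_1_5, 26, [(rSx_4_1_5, false, [0]), (rSx_4_1_6, false, [16]), (rSx_4_1_6, false, [2, 8]), (rSx_4_1_6, false, [18, 24]), (rSx_4_1_7, true, [10])])),
  ([false, false, true, true],
    (rSx_4_1_5, rSx_4_1_5, 3, [(rSx_4_1_5, false, [0]), (rSx_4_1_6, false, [1, 2]), (rSx_4_1_7, false, [3])]),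
    (rSx_4_1_5, rSx_4_1_5, 28, [(rSx_4_1_5, false, [0]), (rSx_4_1_6, false, [16]), (rSx_4_1_6, false, [4, 8]), (rSx_4_1_6, false, [20, 24]), (rSx_4_1_7, true, [12])])),
  ([false, true, true, true],
    (rSx_4_1_3, rSx_4_1_3, 1, [(rSx_4_1_3, false, [0]), (rSx_4_1_4, false, [1])]),
    (rSx_4_1_1, rSx_4_1_1, 30, [(rSx_4_1_1, false, [0]), (rSx_4_1_1, false, [16]), (rSx_4_1_2, true, [2, 4, 8])]))]

theorem TSx_4_1_ok : tabOC CSx 4 1 TSx_4_1 = true := by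
  decide +kernel

/-- the check -/
noncomputable def FSx_4_1 : List ℕ → Bool := chkO GSx_5 33554432 49515552 TSx_4_1

end Pool.Agent.Work.MP_bf01b2_co.MR
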