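import Pool.Agent.Work.MP_bf01b2_co.MR.BSx

set_option autoImplicit false

namespace Pool.Agent.Work.MP_bf01b2_co.MR

def rSx_5_0_0 : List (ℕ × ℕ) := [(0, 999)]
def rSx_5_0_1 : List (ℕ × ℕ) := [(21, 24), (21, 23), (21, 22), (21, 21)]
def rSx_5_0_2 : List (ℕ × ℕ) := [(24, 21)]
def rSx_5_0_3 : List (ℕ × ℕ) := [(22, 23), (20, 22), (20, 21)]
def rSx_5_0_4 : List (ℕ × ℕ) := [(22, 23), (22, 22), (22, 21)]
def rSx_5_0_5 : List (ℕ × ℕ) := [(23, 22), (19, 21)]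
def rSx_5_0_6 : List (ℕ × ℕ) := [(23, 22), (21, 21)]
def rSx_5_0_7 : List (ℕ × ℕ) := [(23, 22), (23, 21)]

def TSx_5_0 : List EntO :=
  [([false, false, false, false, false],
    (rSx_5_0_0, rSx_5_0_0, 31, [(rSx_5_0_0, false, [0])]),
    ([(0, 0)], [(0, 0)], 0, [])),
  ([false, true, false, false, false],
    (rSx_5_0_1, rSx_5_0_1, 29, [(rSx_5_0_1, false, [0]), (rSx_5_0_1, true, [1, 4, 8, 16])]),
    (rSx_5_0_2, rSx_5_0_2, 2, [(rSx_5_0_2, false, [0]), (rSx_5_0_2, false, [2])])),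
  ([false, false, true, false, false],
    (rSx_5_0_1, rSx_5_0_1, 27, [(rSx_5_0_1, false, [0]), (rSx_5_0_1, true, [1, 2, 8, 16])]),
    (rSx_5_0_2, rSx_5_0_2, 4, [(rSx_5_0_2, false, [0]), (rSx_5_0_2, false, [4])])),
  ([false, true, true, false, false],
    (rSx_5_0_3, rSx_5_0_3, 25, [(rSx_5_0_3, false, [0]), (rSx_5_0_4, false, [1, 8, 16]), (rSx_5_0_4, true, [9, 17, 24])]),
    (rSx_5_0_5, rSx_5_0_5, 6, [(rSx_5_0_5, false, [0]), (rSx_5_0_6, false, [2, 4]), (rSx_5_0_7, false, [6])])),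
  ([false, false, false, true, false],
    (rSx_5_0_1, rSx_5_0_1, 23, [(rSx_5_0_1, false, [0]), (rSx_5_0_1, true, [1, 2, 4, 16])]),
    (rSx_5_0_2, rSx_5_0_2, 8, [(rSx_5_0_2, false, [0]), (rSx_5_0_2, false, [8])])),
  ([false, true, false, true, false],
    (rSx_5_0_3, rSx_5_0_3, 21, [(rSx_5_0_3, false, [0]), (rSx_5_0_4, false, [1, 4, 16]), (rSx_5_0_4, true, [5, 17, 20])]),
    (rSx_5_0_5, rSx_5_0_5, 10, [(rSx_5_0_5, false, [0]), (rSx_5_0_6, false, [2, 8]), (rSx_5_0_7, false, [10])])),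
  ([false, false, true, true, false],
    (rSx_5_0_3, rSx_5_0_3, 19, [(rSx_5_0_3, false, [0]), (rSx_5_0_4, false, [1, 2, 16]), (rSx_5_0_4, true, [3, 17, 18])]),
    (rSx_5_0_5, rSx_5_0_5, 12, [(rSx_5_0_5, false, [0]), (rSx_5_0_6, false, [4, 8]), (rSx_5_0_7, false, [12])])),
  ([false, true, true, true, false],
    (rSx_5_0_5, rSx_5_0_5, 17, [(rSx_5_0_5, false, [0]), (rSx_5_0_6, false, [1, 16]), (rSx_5_0_7, false, [17])]),
    (rSx_5_0_3, rSx_5_0_3, 14, [(rSx_5_0_3, false, [0]), (rSx_5_0_4, false, [2, 4, 8]), (rSx_5_0_4, true, [6, 10, 12])])),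
  ([false, false, false, false, true],
    (rSx_5_0_1, rSx_5_0_1, 15, [(rSx_5_0_1, false, [0]), (rSx_5_0_1, true, [1, 2, 4, 8])]),
    (rSx_5_0_2, rSx_5_0_2, 16, [(rSx_5_0_2, false, [0]), (rSx_5_0_2, false, [16])])),
  ([false, true, false, false, true],
    (rSx_5_0_3, rSx_5_0_3, 13, [(rSx_5_0_3, false, [0]), (rSx_5_0_4, false, [1, 4, 8]), (rSx_5_0_4, true, [5, 9, 12])]),
    (rSx_5_0_5, rSx_5_0_5, 18, [(rSx_5_0_5, false, [0]), (rSx_5_0_6, false, [2, 16]), (rSx_5_0_7, false, [18])])),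
  ([false, false, true, false, true],
    (rSx_5_0_3, rSx_5_0_3, 11, [(rSx_5_0_3, false, [0]), (rSx_5_0_4, false, [1, 2, 8]), (rSx_5_0_4, true, [3, 9, 10])]),
    (rSx_5_0_5, rSx_5_0_5, 20, [(rSx_5_0_5, false, [0]), (rSx_5_0_6, false, [4, 16]), (rSx_5_0_7, false, [20])])),
  ([false, true, true, false, true],
    (rSx_5_0_5, rSx_5_0_5, 9, [(rSx_5_0_5, false, [0]), (rSx_5_0_6, false, [1, 8]), (rSx_5_0_7, false, [9])]),
    (rSx_5_0_3, rSx_5_0_3, 22, [(rSx_5_0_3, false, [0]), (rSx_5_0_4, false, [2, 4, 16]), (rSx_5_0_4, true, [6, 18, 20])])),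
  ([false, false, false, true, true],
    (rSx_5_0_3, rSx_5_0_3, 7, [(rSx_5_0_3, false, [0]), (rSx_5_0_4, false, [1, 2, 4]), (rSx_5_0_4, true, [3, 5, 6])]),
    (rSx_5_0_5, rSx_5_0_5, 24, [(rSx_5_0_5, false, [0]), (rSx_5_0_6, false, [8, 16]), (rSx_5_0_7, false, [24])])),
  ([false, true, false, true, true],
    (rSx_5_0_5, rSx_5_0_5, 5, [(rSx_5_0_5, false, [0]), (rSx_5_0_6, false, [1, 4]), (rSx_5_0_7, false, [5])]),
    (rSx_5_0_3, rSx_5_0_3, 26, [(rSx_5_0_3, false, [0]), (rSx_5_0_4, false, [2, 8, 16]), (rSx_5_0_4, true, [10, 18, 24])])),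
  ([false, false, true, true, true],
    (rSx_5_0_5, rSx_5_0_5, 3, [(rSx_5_0_5, false, [0]), (rSx_5_0_6, false, [1, 2]), (rSx_5_0_7, false, [3])]),
    (rSx_5_0_3, rSx_5_0_3, 28, [(rSx_5_0_3, false, [0]), (rSx_5_0_4, false, [4, 8, 16]), (rSx_5_0_4, true, [12, 20, 24])])),
  ([false, true, true, true, true],
    (rSx_5_0_2, rSx_5_0_2, 1, [(rSx_5_0_2, false, [0]), (rSx_5_0_2, false, [1])]),
    (rSx_5_0_1, rSx_5_0_1, 30, [(rSx_5_0_1, false, [0]), (rSx_5_0_1, true, [2, 4, 8, 16])]))]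

theorem TSx_5_0_ok : tabOC CSx 5 0 TSx_5_0 = true := by
  decide +kernel

/-- the check -/
noncomputable def FSx_5_0 : List ℕ → Bool := chkO GSx_5 33554432 49515552 TSx_5_0

end Pool.Agent.Work.MP_bf01b2_co.MR
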