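import Pool.Agent.Work.MP_bf01b2_co.MR.BSy

set_option autoImplicit false

namespace Pool.Agent.Work.MP_bf01b2_co.MR

def rSy_1_0_0 : List (ℕ × ℕ) := [(45, 999), (45, 45), (45, 42), (45, 42), (45, 38), (45, 31)]

def TSy_1_0 : List EntO :=
  [([false],
    (rSy_1_0_0, rSy_1_0_0, 1, [(rSy_1_0_0, false, [0])]),
    ([(0, 0)], [(0, 0)], 0, []))]

theorem TSy_1_0_ok : tabOC CSy 1 0 TSy_1_0 = true := by
  decide +kernel

/-- the check -/
noncomputable def FSy_1_0 : List ℕ → Bool := chkO GSy_1 2 2 TSy_1_0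

end Pool.Agent.Work.MP_bf01b2_co.MR
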