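import Pool.Agent.Work.MP_bf01b2_co.MR.BSy

set_option autoImplicit false

namespace Pool.Agent.Work.MP_bf01b2_co.MR

def rSy_1_1_0 : List (ℕ × ℕ) := [(43, 999), (43, 45), (43, 42), (43, 42), (43, 38), (43, 31)]
def rSy_1_1_1 : List (ℕ × ℕ) := [(45, 999), (43, 43), (43, 41), (43, 37), (43, 36)]
def rSy_1_1_2 : List (ℕ × ℕ) := [(45, 999), (45, 43), (45, 41), (45, 37), (45, 36)]

def TSy_1_1 : List EntO :=
  [([false],
    (rSy_1_1_0, rSy_1_1_0, 3, [(rSy_1_1_0, false, [0])]),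
    ([(0, 0)], [(0, 0)], 0, [])),
  ([false],
    (rSy_1_1_1, rSy_1_1_1, 1, [(rSy_1_1_1, false, [0]), (rSy_1_1_2, true, [1])]),
    ([(0, 0)], [(0, 0)], 2, []))]

theorem TSy_1_1_ok : tabOC CSy 1 1 TSy_1_1 = true := by
  decide +kernel

/-- the check -/
noncomputable def FSy_1_1 : List ℕ → Bool := chkO GSy_2 16 20 TSy_1_1

end Pool.Agent.Work.MP_bf01b2_co.MR
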