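import Pool.Agent.Work.MP_bf01b2_co.MR.BSy

set_option autoImplicit false

namespace Pool.Agent.Work.MP_bf01b2_co.MR

def rSy_1_2_0 : List (ℕ × ℕ) := [(42, 999), (42, 45), (42, 42), (42, 42), (42, 38), (42, 31)]
def rSy_1_2_1 : List (ℕ × ℕ) := [(43, 999), (42, 43), (42, 41), (42, 37), (42, 36)]
def rSy_1_2_2 : List (ℕ × ℕ) := [(43, 999), (41, 43), (41, 41), (41, 37), (41, 36)]
def rSy_1_2_3 : List (ℕ × ℕ) := [(43, 999), (43, 43), (43, 41), (43, 37), (43, 36)]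
def rSy_1_2_4 : List (ℕ × ℕ) := [(45, 999), (42, 42), (42, 39), (42, 35)]
def rSy_1_2_5 : List (ℕ × ℕ) := [(45, 999), (43, 42), (43, 39), (43, 35)]

def TSy_1_2 : List EntO :=
  [([false],
    (rSy_1_2_0, rSy_1_2_0, 7, [(rSy_1_2_0, false, [0])]),
    ([(0, 0)], [(0, 0)], 0, [])),
  ([false],
    (rSy_1_2_2, rSy_1_2_1, 5, [(rSy_1_2_1, false, [0]), (rSy_1_2_2, false, [4]), (rSy_1_2_3, true, [1])]),
    ([(0, 0)], [(0, 0)], 2, [])),
  ([false],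
    (rSy_1_2_2, rSy_1_2_1, 3, [(rSy_1_2_1, false, [0]), (rSy_1_2_2, false, [2]), (rSy_1_2_3, true, [1])]),
    ([(0, 0)], [(0, 0)], 4, [])),
  ([false],
    (rSy_1_2_4, rSy_1_2_4, 1, [(rSy_1_2_4, false, [0]), (rSy_1_2_5, false, [1])]),
    ([(0, 0)], [(0, 0)], 6, []))]

theorem TSy_1_2_ok : tabOC CSy 1 2 TSy_1_2 = true := by
  decide +kernel

/-- the check -/
noncomputable def FSy_1_2 : List ℕ → Bool := chkO GSy_3 512 712 TSy_1_2

end Pool.Agent.Work.MP_bf01b2_co.MR
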