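import Pool.Agent.Work.MP_bf01b2_co.MR.BSy

set_option autoImplicit false

namespace Pool.Agent.Work.MP_bf01b2_co.MR

def rSy_1_3_0 : List (ℕ × ℕ) := [(38, 999), (38, 45), (38, 42), (38, 42), (38, 38), (38, 31)]
def rSy_1_3_1 : List (ℕ × ℕ) := [(42, 999), (38, 43), (38, 41), (38, 37), (38, 36)]
def rSy_1_3_2 : List (ℕ × ℕ) := [(42, 999), (40, 43), (40, 41), (40, 37), (40, 36)]
def rSy_1_3_3 : List (ℕ × ℕ) := [(42, 999), (42, 43), (42, 41), (42, 37), (42, 36)]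
def rSy_1_3_4 : List (ℕ × ℕ) := [(43, 999), (38, 42), (38, 39), (38, 35)]
def rSy_1_3_5 : List (ℕ × ℕ) := [(43, 999), (40, 42), (40, 39), (40, 35)]
def rSy_1_3_6 : List (ℕ × ℕ) := [(43, 999), (42, 42), (42, 39), (42, 35)]
def rSy_1_3_7 : List (ℕ × ℕ) := [(43, 999), (41, 42), (41, 39), (41, 35)]
def rSy_1_3_8 : List (ℕ × ℕ) := [(45, 999), (38, 38), (38, 34)]
def rSy_1_3_9 : List (ℕ × ℕ) := [(45, 999), (42, 38), (42, 34)]

def TSy_1_3 : List EntO :=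
  [([false],
    (rSy_1_3_0, rSy_1_3_0, 15, [(rSy_1_3_0, false, [0])]),
    ([(0, 0)], [(0, 0)], 0, [])),
  ([false],
    (rSy_1_3_1, rSy_1_3_1, 13, [(rSy_1_3_1, false, [0]), (rSy_1_3_2, false, [4, 8]), (rSy_1_3_3, true, [1])]),
    ([(0, 0)], [(0, 0)], 2, [])),
  ([false],
    (rSy_1_3_1, rSy_1_3_1, 11, [(rSy_1_3_1, false, [0]), (rSy_1_3_2, false, [2, 8]), (rSy_1_3_3, true, [1])]),
    ([(0, 0)], [(0, 0)], 4, [])),
  ([false],
    (rSy_1_3_4, rSy_1_3_4, 9, [(rSy_1_3_4, false, [0]), (rSy_1_3_5, false, [8]), (rSy_1_3_6, false, [1]), (rSy_1_3_7, false, [9])]),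
    ([(0, 0)], [(0, 0)], 6, [])),
  ([false],
    (rSy_1_3_1, rSy_1_3_1, 7, [(rSy_1_3_1, false, [0]), (rSy_1_3_2, false, [2, 4]), (rSy_1_3_3, true, [1])]),
    ([(0, 0)], [(0, 0)], 8, [])),
  ([false],
    (rSy_1_3_4, rSy_1_3_4, 5, [(rSy_1_3_4, false, [0]), (rSy_1_3_5, false, [4]), (rSy_1_3_6, false, [1]), (rSy_1_3_7, false, [5])]),
    ([(0, 0)], [(0, 0)], 10, [])),
  ([false],
    (rSy_1_3_4, rSy_1_3_4, 3, [(rSy_1_3_4, false, [0]), (rSy_1_3_5, false, [2]), (rSy_1_3_6, false, [1]), (rSy_1_3_7, false, [3])]),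
    ([(0, 0)], [(0, 0)], 12, [])),
  ([false],
    (rSy_1_3_8, rSy_1_3_8, 1, [(rSy_1_3_8, false, [0]), (rSy_1_3_9, false, [1])]),
    ([(0, 0)], [(0, 0)], 14, []))]

theorem TSy_1_3_ok : tabOC CSy 1 3 TSy_1_3 = true := by
  decide +kernel

/-- the check -/
noncomputable def FSy_1_3 : List ℕ → Bool := chkO GSy_4 65536 94992 TSy_1_3

end Pool.Agent.Work.MP_bf01b2_co.MR
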