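import Pool.Agent.Work.MP_bf01b2_co.MR.BSy

set_option autoImplicit false

namespace Pool.Agent.Work.MP_bf01b2_co.MR

def rSy_1_4_0 : List (ℕ × ℕ) := [(33, 999), (33, 45), (33, 42), (33, 42), (33, 38), (33, 31)]
def rSy_1_4_1 : List (ℕ × ℕ) := [(38, 999), (33, 43), (33, 41), (33, 37), (33, 36)]
def rSy_1_4_2 : List (ℕ × ℕ) := [(38, 999), (38, 43), (38, 41), (38, 37), (38, 36)]
def rSy_1_4_3 : List (ℕ × ℕ) := [(42, 999), (33, 42), (33, 39), (33, 35)]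
def rSy_1_4_4 : List (ℕ × ℕ) := [(42, 999), (38, 42), (38, 39), (38, 35)]
def rSy_1_4_5 : List (ℕ × ℕ) := [(42, 999), (40, 42), (40, 39), (40, 35)]
def rSy_1_4_6 : List (ℕ × ℕ) := [(43, 999), (33, 38), (33, 34)]
def rSy_1_4_7 : List (ℕ × ℕ) := [(43, 999), (38, 38), (38, 34)]
def rSy_1_4_8 : List (ℕ × ℕ) := [(43, 999), (40, 38), (40, 34)]
def rSy_1_4_9 : List (ℕ × ℕ) := [(45, 999), (33, 33)]
def rSy_1_4_10 : List (ℕ × ℕ) := [(45, 999), (38, 33)]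

def TSy_1_4 : List EntO :=
  [([false],
    (rSy_1_4_0, rSy_1_4_0, 31, [(rSy_1_4_0, false, [0])]),
    ([(0, 0)], [(0, 0)], 0, [])),
  ([false],
    (rSy_1_4_1, rSy_1_4_1, 29, [(rSy_1_4_1, false, [0]), (rSy_1_4_2, false, [4, 8, 16]), (rSy_1_4_2, true, [1])]),
    ([(0, 0)], [(0, 0)], 2, [])),
  ([false],
    (rSy_1_4_1, rSy_1_4_1, 27, [(rSy_1_4_1, false, [0]), (rSy_1_4_2, false, [2, 8, 16]), (rSy_1_4_2, true, [1])]),
    ([(0, 0)], [(0, 0)], 4, [])),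
  ([false],
    (rSy_1_4_3, rSy_1_4_3, 25, [(rSy_1_4_3, false, [0]), (rSy_1_4_4, false, [8, 16]), (rSy_1_4_5, false, [24]), (rSy_1_4_4, false, [1]), (rSy_1_4_5, false, [9, 17])]),
    ([(0, 0)], [(0, 0)], 6, [])),
  ([false],
    (rSy_1_4_1, rSy_1_4_1, 23, [(rSy_1_4_1, false, [0]), (rSy_1_4_2, false, [2, 4, 16]), (rSy_1_4_2, true, [1])]),
    ([(0, 0)], [(0, 0)], 8, [])),
  ([false],
    (rSy_1_4_3, rSy_1_4_3, 21, [(rSy_1_4_3, false, [0]), (rSy_1_4_4, false, [4, 16]), (rSy_1_4_5, false, [20]), (rSy_1_4_4, false, [1]), (rSy_1_4_5, false, [5, 17])]),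
    ([(0, 0)], [(0, 0)], 10, [])),
  ([false],
    (rSy_1_4_3, rSy_1_4_3, 19, [(rSy_1_4_3, false, [0]), (rSy_1_4_4, false, [2, 16]), (rSy_1_4_5, false, [18]), (rSy_1_4_4, false, [1]), (rSy_1_4_5, false, [3, 17])]),
    ([(0, 0)], [(0, 0)], 12, [])),
  ([false],
    (rSy_1_4_6, rSy_1_4_6, 17, [(rSy_1_4_6, false, [0]), (rSy_1_4_7, false, [16]), (rSy_1_4_7, false, [1]), (rSy_1_4_8, false, [17])]),
    ([(0, 0)], [(0, 0)], 14, [])),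
  ([false],
    (rSy_1_4_1, rSy_1_4_1, 15, [(rSy_1_4_1, false, [0]), (rSy_1_4_2, false, [2, 4, 8]), (rSy_1_4_2, true, [1])]),
    ([(0, 0)], [(0, 0)], 16, [])),
  ([false],
    (rSy_1_4_3, rSy_1_4_3, 13, [(rSy_1_4_3, false, [0]), (rSy_1_4_4, false, [4, 8]), (rSy_1_4_5, false, [12]), (rSy_1_4_4, false, [1]), (rSy_1_4_5, false, [5, 9])]),
    ([(0, 0)], [(0, 0)], 18, [])),
  ([false],
    (rSy_1_4_3, rSy_1_4_3, 11, [(rSy_1_4_3, false, [0]), (rSy_1_4_4, false, [2, 8]), (rSy_1_4_5, false, [10]), (rSy_1_4_4, false, [1]), (rSy_1_4_5, false, [3, 9])]),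
    ([(0, 0)], [(0, 0)], 20, [])),
  ([false],
    (rSy_1_4_6, rSy_1_4_6, 9, [(rSy_1_4_6, false, [0]), (rSy_1_4_7, false, [8]), (rSy_1_4_7, false, [1]), (rSy_1_4_8, false, [9])]),
    ([(0, 0)], [(0, 0)], 22, [])),
  ([false],
    (rSy_1_4_3, rSy_1_4_3, 7, [(rSy_1_4_3, false, [0]), (rSy_1_4_4, false, [2, 4]), (rSy_1_4_5, false, [6]), (rSy_1_4_4, false, [1]), (rSy_1_4_5, false, [3, 5])]),
    ([(0, 0)], [(0, 0)], 24, [])),
  ([false],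
    (rSy_1_4_6, rSy_1_4_6, 5, [(rSy_1_4_6, false, [0]), (rSy_1_4_7, false, [4]), (rSy_1_4_7, false, [1]), (rSy_1_4_8, false, [5])]),
    ([(0, 0)], [(0, 0)], 26, [])),
  ([false],
    (rSy_1_4_6, rSy_1_4_6, 3, [(rSy_1_4_6, false, [0]), (rSy_1_4_7, false, [2]), (rSy_1_4_7, false, [1]), (rSy_1_4_8, false, [3])]),
    ([(0, 0)], [(0, 0)], 28, [])),
  ([false],
    (rSy_1_4_9, rSy_1_4_9, 1, [(rSy_1_4_9, false, [0]), (rSy_1_4_10, false, [1])]),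
    ([(0, 0)], [(0, 0)], 30, []))]

theorem TSy_1_4_ok : tabOC CSy 1 4 TSy_1_4 = true := by
  decide +kernel

/-- the check -/
noncomputable def FSy_1_4 : List ℕ → Bool := chkO GSy_5 33554432 49515552 TSy_1_4

end Pool.Agent.Work.MP_bf01b2_co.MR
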