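import Pool.Agent.Work.MP_bf01b2_co.MR.BSy

set_option autoImplicit false

namespace Pool.Agent.Work.MP_bf01b2_co.MR

def rSy_2_0_0 : List (ℕ × ℕ) := [(42, 999), (42, 45), (42, 42), (42, 42), (42, 38), (42, 31)]
def rSy_2_0_1 : List (ℕ × ℕ) := [(45, 45), (43, 42), (43, 42), (43, 38), (43, 31)]
def rSy_2_0_2 : List (ℕ × ℕ) := [(45, 45), (45, 42), (45, 42), (45, 38), (45, 31)]

def TSy_2_0 : List EntO :=
  [([false, false],
    (rSy_2_0_0, rSy_2_0_0, 3, [(rSy_2_0_0, false, [0])]),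
    ([(0, 0)], [(0, 0)], 0, [])),
  ([false, true],
    (rSy_2_0_1, rSy_2_0_1, 1, [(rSy_2_0_1, false, [0]), (rSy_2_0_2, true, [1])]),
    (rSy_2_0_1, rSy_2_0_1, 2, [(rSy_2_0_1, false, [0]), (rSy_2_0_2, true, [2])]))]

theorem TSy_2_0_ok : tabOC CSy 2 0 TSy_2_0 = true := by
  decide +kernel

/-- the check -/
noncomputable def FSy_2_0 : List ℕ → Bool := chkO GSy_2 16 20 TSy_2_0

end Pool.Agent.Work.MP_bf01b2_co.MR
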