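import Pool.Agent.Work.MP_bf01b2_co.MR.BSy

set_option autoImplicit false

namespace Pool.Agent.Work.MP_bf01b2_co.MR

def rSy_2_1_0 : List (ℕ × ℕ) := [(41, 999), (41, 45), (41, 42), (41, 42), (41, 38), (41, 31)]
def rSy_2_1_1 : List (ℕ × ℕ) := [(43, 45), (42, 42), (42, 42), (42, 38), (42, 31)]
def rSy_2_1_2 : List (ℕ × ℕ) := [(43, 45), (41, 42), (41, 42), (41, 38), (41, 31)]
def rSy_2_1_3 : List (ℕ × ℕ) := [(43, 45), (43, 42), (43, 42), (43, 38), (43, 31)]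
def rSy_2_1_4 : List (ℕ × ℕ) := [(45, 43), (42, 41), (42, 37), (42, 36)]
def rSy_2_1_5 : List (ℕ × ℕ) := [(45, 43), (43, 41), (43, 37), (43, 36)]
def rSy_2_1_6 : List (ℕ × ℕ) := [(42, 999), (41, 43), (41, 41), (41, 37), (41, 36)]
def rSy_2_1_7 : List (ℕ × ℕ) := [(42, 999), (42, 43), (42, 41), (42, 37), (42, 36)]

def TSy_2_1 : List EntO :=
  [([false, false],
    (rSy_2_1_0, rSy_2_1_0, 7, [(rSy_2_1_0, false, [0])]),
    ([(0, 0)], [(0, 0)], 0, [])),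
  ([false, true],
    (rSy_2_1_2, rSy_2_1_1, 5, [(rSy_2_1_1, false, [0]), (rSy_2_1_2, false, [4]), (rSy_2_1_3, true, [1])]),
    (rSy_2_1_4, rSy_2_1_4, 2, [(rSy_2_1_4, false, [0]), (rSy_2_1_5, false, [2])])),
  ([false, false],
    (rSy_2_1_6, rSy_2_1_6, 3, [(rSy_2_1_6, false, [0]), (rSy_2_1_7, true, [1, 2])]),
    ([(0, 0)], [(0, 0)], 4, [])),
  ([false, true],
    (rSy_2_1_4, rSy_2_1_4, 1, [(rSy_2_1_4, false, [0]), (rSy_2_1_5, false, [1])]),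
    (rSy_2_1_2, rSy_2_1_1, 6, [(rSy_2_1_1, false, [0]), (rSy_2_1_2, false, [4]), (rSy_2_1_3, true, [2])]))]

theorem TSy_2_1_ok : tabOC CSy 2 1 TSy_2_1 = true := by
  decide +kernel

/-- the check -/
noncomputable def FSy_2_1 : List ℕ → Bool := chkO GSy_3 512 712 TSy_2_1

end Pool.Agent.Work.MP_bf01b2_co.MR
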