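import Pool.Agent.Work.MP_bf01b2_co.MR.BSy

set_option autoImplicit false

namespace Pool.Agent.Work.MP_bf01b2_co.MR

def rSy_2_2_0 : List (ℕ × ℕ) := [(39, 999), (39, 45), (39, 42), (39, 42), (39, 38), (39, 31)]
def rSy_2_2_1 : List (ℕ × ℕ) := [(42, 45), (38, 42), (38, 42), (38, 38), (38, 31)]
def rSy_2_2_2 : List (ℕ × ℕ) := [(42, 45), (40, 42), (40, 42), (40, 38), (40, 31)]
def rSy_2_2_3 : List (ℕ × ℕ) := [(42, 45), (42, 42), (42, 42), (42, 38), (42, 31)]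
def rSy_2_2_4 : List (ℕ × ℕ) := [(45, 42), (38, 39), (38, 35)]
def rSy_2_2_5 : List (ℕ × ℕ) := [(45, 42), (42, 39), (42, 35)]
def rSy_2_2_6 : List (ℕ × ℕ) := [(41, 999), (39, 43), (39, 41), (39, 37), (39, 36)]
def rSy_2_2_7 : List (ℕ × ℕ) := [(41, 999), (41, 43), (41, 41), (41, 37), (41, 36)]
def rSy_2_2_8 : List (ℕ × ℕ) := [(43, 43), (38, 41), (38, 37), (38, 36)]
def rSy_2_2_9 : List (ℕ × ℕ) := [(43, 43), (40, 41), (40, 37), (40, 36)]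
def rSy_2_2_10 : List (ℕ × ℕ) := [(43, 43), (42, 41), (42, 37), (42, 36)]
def rSy_2_2_11 : List (ℕ × ℕ) := [(43, 43), (41, 41), (41, 37), (41, 36)]
def rSy_2_2_12 : List (ℕ × ℕ) := [(42, 999), (39, 42), (39, 39), (39, 35)]
def rSy_2_2_13 : List (ℕ × ℕ) := [(42, 999), (41, 42), (41, 39), (41, 35)]
def rSy_2_2_14 : List (ℕ × ℕ) := [(42, 999), (42, 42), (42, 39), (42, 35)]

def TSy_2_2 : List EntO :=
  [([false, false],
    (rSy_2_2_0, rSy_2_2_0, 15, [(rSy_2_2_0, false, [0])]),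
    ([(0, 0)], [(0, 0)], 0, [])),
  ([false, true],
    (rSy_2_2_1, rSy_2_2_1, 13, [(rSy_2_2_1, false, [0]), (rSy_2_2_2, false, [4, 8]), (rSy_2_2_3, true, [1])]),
    (rSy_2_2_4, rSy_2_2_4, 2, [(rSy_2_2_4, false, [0]), (rSy_2_2_5, false, [2])])),
  ([false, false],
    (rSy_2_2_6, rSy_2_2_6, 11, [(rSy_2_2_6, false, [0]), (rSy_2_2_7, false, [8]), (rSy_2_2_7, true, [1, 2])]),
    ([(0, 0)], [(0, 0)], 4, [])),
  ([false, true],
    (rSy_2_2_8, rSy_2_2_8, 9, [(rSy_2_2_8, false, [0]), (rSy_2_2_9, false, [8]), (rSy_2_2_10, false, [1]), (rSy_2_2_11, false, [9])]),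
    (rSy_2_2_8, rSy_2_2_8, 6, [(rSy_2_2_8, false, [0]), (rSy_2_2_9, false, [4]), (rSy_2_2_10, false, [2]), (rSy_2_2_11, false, [6])])),
  ([false, false],
    (rSy_2_2_6, rSy_2_2_6, 7, [(rSy_2_2_6, false, [0]), (rSy_2_2_7, false, [4]), (rSy_2_2_7, true, [1, 2])]),
    ([(0, 0)], [(0, 0)], 8, [])),
  ([false, true],
    (rSy_2_2_8, rSy_2_2_8, 5, [(rSy_2_2_8, false, [0]), (rSy_2_2_9, false, [4]), (rSy_2_2_10, false, [1]), (rSy_2_2_11, false, [5])]),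
    (rSy_2_2_8, rSy_2_2_8, 10, [(rSy_2_2_8, false, [0]), (rSy_2_2_9, false, [8]), (rSy_2_2_10, false, [2]), (rSy_2_2_11, false, [10])])),
  ([false, false],
    (rSy_2_2_12, rSy_2_2_12, 3, [(rSy_2_2_12, false, [0]), (rSy_2_2_13, false, [1, 2]), (rSy_2_2_14, true, [3])]),
    ([(0, 0)], [(0, 0)], 12, [])),
  ([false, true],
    (rSy_2_2_4, rSy_2_2_4, 1, [(rSy_2_2_4, false, [0]), (rSy_2_2_5, false, [1])]),
    (rSy_2_2_1, rSy_2_2_1, 14, [(rSy_2_2_1, false, [0]), (rSy_2_2_2, false, [4, 8]), (rSy_2_2_3, true, [2])]))]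

theorem TSy_2_2_ok : tabOC CSy 2 2 TSy_2_2 = true := by
  decide +kernel

/-- the check -/
noncomputable def FSy_2_2 : List ℕ → Bool := chkO GSy_4 65536 94992 TSy_2_2

end Pool.Agent.Work.MP_bf01b2_co.MR
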