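import Pool.Agent.Work.MP_bf01b2_co.MR.BSy

set_option autoImplicit false

namespace Pool.Agent.Work.MP_bf01b2_co.MR

def rSy_2_3_0 : List (ℕ × ℕ) := [(34, 999), (34, 45), (34, 42), (34, 42), (34, 38), (34, 31)]
def rSy_2_3_1 : List (ℕ × ℕ) := [(38, 45), (33, 42), (33, 42), (33, 38), (33, 31)]
def rSy_2_3_2 : List (ℕ × ℕ) := [(38, 45), (38, 42), (38, 42), (38, 38), (38, 31)]
def rSy_2_3_3 : List (ℕ × ℕ) := [(45, 38), (33, 34)]
def rSy_2_3_4 : List (ℕ × ℕ) := [(45, 38), (38, 34)]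
def rSy_2_3_5 : List (ℕ × ℕ) := [(39, 999), (34, 43), (34, 41), (34, 37), (34, 36)]
def rSy_2_3_6 : List (ℕ × ℕ) := [(39, 999), (36, 43), (36, 41), (36, 37), (36, 36)]
def rSy_2_3_7 : List (ℕ × ℕ) := [(39, 999), (39, 43), (39, 41), (39, 37), (39, 36)]
def rSy_2_3_8 : List (ℕ × ℕ) := [(42, 43), (33, 41), (33, 37), (33, 36)]
def rSy_2_3_9 : List (ℕ × ℕ) := [(42, 43), (38, 41), (38, 37), (38, 36)]
def rSy_2_3_10 : List (ℕ × ℕ) := [(42, 43), (40, 41), (40, 37), (40, 36)]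
def rSy_2_3_11 : List (ℕ × ℕ) := [(43, 42), (33, 39), (33, 35)]
def rSy_2_3_12 : List (ℕ × ℕ) := [(43, 42), (38, 39), (38, 35)]
def rSy_2_3_13 : List (ℕ × ℕ) := [(43, 42), (40, 39), (40, 35)]
def rSy_2_3_14 : List (ℕ × ℕ) := [(41, 999), (34, 42), (34, 39), (34, 35)]
def rSy_2_3_15 : List (ℕ × ℕ) := [(41, 999), (36, 42), (36, 39), (36, 35)]
def rSy_2_3_16 : List (ℕ × ℕ) := [(41, 999), (39, 42), (39, 39), (39, 35)]
def rSy_2_3_17 : List (ℕ × ℕ) := [(41, 999), (41, 42), (41, 39), (41, 35)]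
def rSy_2_3_18 : List (ℕ × ℕ) := [(42, 999), (34, 38), (34, 34)]
def rSy_2_3_19 : List (ℕ × ℕ) := [(42, 999), (39, 38), (39, 34)]
def rSy_2_3_20 : List (ℕ × ℕ) := [(42, 999), (41, 38), (41, 34)]

def TSy_2_3 : List EntO :=
  [([false, false],
    (rSy_2_3_0, rSy_2_3_0, 31, [(rSy_2_3_0, false, [0])]),
    ([(0, 0)], [(0, 0)], 0, [])),
  ([false, true],
    (rSy_2_3_1, rSy_2_3_1, 29, [(rSy_2_3_1, false, [0]), (rSy_2_3_2, false, [4, 8, 16]), (rSy_2_3_2, true, [1])]),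
    (rSy_2_3_3, rSy_2_3_3, 2, [(rSy_2_3_3, false, [0]), (rSy_2_3_4, false, [2])])),
  ([false, false],
    (rSy_2_3_5, rSy_2_3_5, 27, [(rSy_2_3_5, false, [0]), (rSy_2_3_6, false, [8, 16]), (rSy_2_3_7, true, [1, 2])]),
    ([(0, 0)], [(0, 0)], 4, [])),
  ([false, true],
    (rSy_2_3_8, rSy_2_3_8, 25, [(rSy_2_3_8, false, [0]), (rSy_2_3_9, false, [8, 16]), (rSy_2_3_10, false, [24]), (rSy_2_3_9, false, [1]), (rSy_2_3_10, false, [9, 17])]),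
    (rSy_2_3_11, rSy_2_3_11, 6, [(rSy_2_3_11, false, [0]), (rSy_2_3_12, false, [4]), (rSy_2_3_12, false, [2]), (rSy_2_3_13, false, [6])])),
  ([false, false],
    (rSy_2_3_5, rSy_2_3_5, 23, [(rSy_2_3_5, false, [0]), (rSy_2_3_6, false, [4, 16]), (rSy_2_3_7, true, [1, 2])]),
    ([(0, 0)], [(0, 0)], 8, [])),
  ([false, true],
    (rSy_2_3_8, rSy_2_3_8, 21, [(rSy_2_3_8, false, [0]), (rSy_2_3_9, false, [4, 16]), (rSy_2_3_10, false, [20]), (rSy_2_3_9, false, [1]), (rSy_2_3_10, false, [5, 17])]),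
    (rSy_2_3_11, rSy_2_3_11, 10, [(rSy_2_3_11, false, [0]), (rSy_2_3_12, false, [8]), (rSy_2_3_12, false, [2]), (rSy_2_3_13, false, [10])])),
  ([false, false],
    (rSy_2_3_14, rSy_2_3_14, 19, [(rSy_2_3_14, false, [0]), (rSy_2_3_15, false, [16]), (rSy_2_3_16, false, [1, 2]), (rSy_2_3_17, false, [17, 18]), (rSy_2_3_17, true, [3])]),
    ([(0, 0)], [(0, 0)], 12, [])),
  ([false, true],
    (rSy_2_3_11, rSy_2_3_11, 17, [(rSy_2_3_11, false, [0]), (rSy_2_3_12, false, [16]), (rSy_2_3_12, false, [1]), (rSy_2_3_13, false, [17])]),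
    (rSy_2_3_8, rSy_2_3_8, 14, [(rSy_2_3_8, false, [0]), (rSy_2_3_9, false, [4, 8]), (rSy_2_3_10, false, [12]), (rSy_2_3_9, false, [2]), (rSy_2_3_10, false, [6, 10])])),
  ([false, false],
    (rSy_2_3_5, rSy_2_3_5, 15, [(rSy_2_3_5, false, [0]), (rSy_2_3_6, false, [4, 8]), (rSy_2_3_7, true, [1, 2])]),
    ([(0, 0)], [(0, 0)], 16, [])),
  ([false, true],
    (rSy_2_3_8, rSy_2_3_8, 13, [(rSy_2_3_8, false, [0]), (rSy_2_3_9, false, [4, 8]), (rSy_2_3_10, false, [12]), (rSy_2_3_9, false, [1]), (rSy_2_3_10, false, [5, 9])]),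
    (rSy_2_3_11, rSy_2_3_11, 18, [(rSy_2_3_11, false, [0]), (rSy_2_3_12, false, [16]), (rSy_2_3_12, false, [2]), (rSy_2_3_13, false, [18])])),
  ([false, false],
    (rSy_2_3_14, rSy_2_3_14, 11, [(rSy_2_3_14, false, [0]), (rSy_2_3_15, false, [8]), (rSy_2_3_16, false, [1, 2]), (rSy_2_3_17, false, [9, 10]), (rSy_2_3_17, true, [3])]),
    ([(0, 0)], [(0, 0)], 20, [])),
  ([false, true],
    (rSy_2_3_11, rSy_2_3_11, 9, [(rSy_2_3_11, false, [0]), (rSy_2_3_12, false, [8]), (rSy_2_3_12, false, [1]), (rSy_2_3_13, false, [9])]),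
    (rSy_2_3_8, rSy_2_3_8, 22, [(rSy_2_3_8, false, [0]), (rSy_2_3_9, false, [4, 16]), (rSy_2_3_10, false, [20]), (rSy_2_3_9, false, [2]), (rSy_2_3_10, false, [6, 18])])),
  ([false, false],
    (rSy_2_3_14, rSy_2_3_14, 7, [(rSy_2_3_14, false, [0]), (rSy_2_3_15, false, [4]), (rSy_2_3_16, false, [1, 2]), (rSy_2_3_17, false, [5, 6]), (rSy_2_3_17, true, [3])]),
    ([(0, 0)], [(0, 0)], 24, [])),
  ([false, true],
    (rSy_2_3_11, rSy_2_3_11, 5, [(rSy_2_3_11, false, [0]), (rSy_2_3_12, false, [4]), (rSy_2_3_12, false, [1]), (rSy_2_3_13, false, [5])]),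
    (rSy_2_3_8, rSy_2_3_8, 26, [(rSy_2_3_8, false, [0]), (rSy_2_3_9, false, [8, 16]), (rSy_2_3_10, false, [24]), (rSy_2_3_9, false, [2]), (rSy_2_3_10, false, [10, 18])])),
  ([false, false],
    (rSy_2_3_18, rSy_2_3_18, 3, [(rSy_2_3_18, false, [0]), (rSy_2_3_19, false, [1, 2]), (rSy_2_3_20, false, [3])]),
    ([(0, 0)], [(0, 0)], 28, [])),
  ([false, true],
    (rSy_2_3_3, rSy_2_3_3, 1, [(rSy_2_3_3, false, [0]), (rSy_2_3_4, false, [1])]),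
    (rSy_2_3_1, rSy_2_3_1, 30, [(rSy_2_3_1, false, [0]), (rSy_2_3_2, false, [4, 8, 16]), (rSy_2_3_2, true, [2])]))]

theorem TSy_2_3_ok : tabOC CSy 2 3 TSy_2_3 = true := by
  decide +kernel

/-- the check -/
noncomputable def FSy_2_3 : List ℕ → Bool := chkO GSy_5 33554432 49515552 TSy_2_3

end Pool.Agent.Work.MP_bf01b2_co.MR
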