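import Pool.Agent.Work.MP_bf01b2_co.MR.BSy

set_option autoImplicit false

namespace Pool.Agent.Work.MP_bf01b2_co.MR

def rSy_3_0_0 : List (ℕ × ℕ) := [(42, 999), (42, 45), (42, 42), (42, 42), (42, 38), (42, 31)]
def rSy_3_0_1 : List (ℕ × ℕ) := [(42, 45), (41, 42), (41, 42), (41, 38), (41, 31)]
def rSy_3_0_2 : List (ℕ × ℕ) := [(42, 45), (42, 42), (42, 42), (42, 38), (42, 31)]
def rSy_3_0_3 : List (ℕ × ℕ) := [(45, 42), (42, 42), (42, 38), (42, 31)]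
def rSy_3_0_4 : List (ℕ × ℕ) := [(45, 42), (43, 42), (43, 38), (43, 31)]

def TSy_3_0 : List EntO :=
  [([false, false, false],
    (rSy_3_0_0, rSy_3_0_0, 7, [(rSy_3_0_0, false, [0])]),
    ([(0, 0)], [(0, 0)], 0, [])),
  ([false, true, false],
    (rSy_3_0_1, rSy_3_0_1, 5, [(rSy_3_0_1, false, [0]), (rSy_3_0_2, true, [1, 4])]),
    (rSy_3_0_3, rSy_3_0_3, 2, [(rSy_3_0_3, false, [0]), (rSy_3_0_4, false, [2])])),
  ([false, false, true],
    (rSy_3_0_1, rSy_3_0_1, 3, [(rSy_3_0_1, false, [0]), (rSy_3_0_2, true, [1, 2])]),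
    (rSy_3_0_3, rSy_3_0_3, 4, [(rSy_3_0_3, false, [0]), (rSy_3_0_4, false, [4])])),
  ([false, true, true],
    (rSy_3_0_3, rSy_3_0_3, 1, [(rSy_3_0_3, false, [0]), (rSy_3_0_4, false, [1])]),
    (rSy_3_0_1, rSy_3_0_1, 6, [(rSy_3_0_1, false, [0]), (rSy_3_0_2, true, [2, 4])]))]

theorem TSy_3_0_ok : tabOC CSy 3 0 TSy_3_0 = true := by
  decide +kernel

/-- the check -/
noncomputable def FSy_3_0 : List ℕ → Bool := chkO GSy_3 512 712 TSy_3_0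

end Pool.Agent.Work.MP_bf01b2_co.MR
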