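import Pool.Agent.Work.MP_bf01b2_co.MR.BSy

set_option autoImplicit false

namespace Pool.Agent.Work.MP_bf01b2_co.MR

def rSy_3_1_0 : List (ℕ × ℕ) := [(37, 999), (37, 45), (37, 42), (37, 42), (37, 38), (37, 31)]
def rSy_3_1_1 : List (ℕ × ℕ) := [(41, 45), (39, 42), (39, 42), (39, 38), (39, 31)]
def rSy_3_1_2 : List (ℕ × ℕ) := [(41, 45), (41, 42), (41, 42), (41, 38), (41, 31)]
def rSy_3_1_3 : List (ℕ × ℕ) := [(45, 41), (38, 37), (38, 36)]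
def rSy_3_1_4 : List (ℕ × ℕ) := [(45, 41), (42, 37), (42, 36)]
def rSy_3_1_5 : List (ℕ × ℕ) := [(43, 42), (38, 42), (38, 38), (38, 31)]
def rSy_3_1_6 : List (ℕ × ℕ) := [(43, 42), (40, 42), (40, 38), (40, 31)]
def rSy_3_1_7 : List (ℕ × ℕ) := [(43, 42), (42, 42), (42, 38), (42, 31)]
def rSy_3_1_8 : List (ℕ × ℕ) := [(43, 42), (41, 42), (41, 38), (41, 31)]
def rSy_3_1_9 : List (ℕ × ℕ) := [(42, 43), (39, 41), (39, 37), (39, 36)]
def rSy_3_1_10 : List (ℕ × ℕ) := [(42, 43), (41, 41), (41, 37), (41, 36)]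
def rSy_3_1_11 : List (ℕ × ℕ) := [(42, 43), (42, 41), (42, 37), (42, 36)]
def rSy_3_1_12 : List (ℕ × ℕ) := [(42, 999), (37, 43), (37, 41), (37, 37), (37, 36)]
def rSy_3_1_13 : List (ℕ × ℕ) := [(42, 999), (42, 43), (42, 41), (42, 37), (42, 36)]

def TSy_3_1 : List EntO :=
  [([false, false, false],
    (rSy_3_1_0, rSy_3_1_0, 15, [(rSy_3_1_0, false, [0])]),
    ([(0, 0)], [(0, 0)], 0, [])),
  ([false, true, false],
    (rSy_3_1_1, rSy_3_1_1, 13, [(rSy_3_1_1, false, [0]), (rSy_3_1_2, false, [8]), (rSy_3_1_2, true, [1, 4])]),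
    (rSy_3_1_3, rSy_3_1_3, 2, [(rSy_3_1_3, false, [0]), (rSy_3_1_4, false, [2])])),
  ([false, false, true],
    (rSy_3_1_1, rSy_3_1_1, 11, [(rSy_3_1_1, false, [0]), (rSy_3_1_2, false, [8]), (rSy_3_1_2, true, [1, 2])]),
    (rSy_3_1_3, rSy_3_1_3, 4, [(rSy_3_1_3, false, [0]), (rSy_3_1_4, false, [4])])),
  ([false, true, true],
    (rSy_3_1_5, rSy_3_1_5, 9, [(rSy_3_1_5, false, [0]), (rSy_3_1_6, false, [8]), (rSy_3_1_7, false, [1]), (rSy_3_1_8, false, [9])]),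
    (rSy_3_1_9, rSy_3_1_9, 6, [(rSy_3_1_9, false, [0]), (rSy_3_1_10, false, [2, 4]), (rSy_3_1_11, true, [6])])),
  ([false, false, false],
    (rSy_3_1_12, rSy_3_1_12, 7, [(rSy_3_1_12, false, [0]), (rSy_3_1_13, true, [1, 2, 4])]),
    ([(0, 0)], [(0, 0)], 8, [])),
  ([false, true, false],
    (rSy_3_1_9, rSy_3_1_9, 5, [(rSy_3_1_9, false, [0]), (rSy_3_1_10, false, [1, 4]), (rSy_3_1_11, true, [5])]),
    (rSy_3_1_5, rSy_3_1_5, 10, [(rSy_3_1_5, false, [0]), (rSy_3_1_6, false, [8]), (rSy_3_1_7, false, [2]), (rSy_3_1_8, false, [10])])),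
  ([false, false, true],
    (rSy_3_1_9, rSy_3_1_9, 3, [(rSy_3_1_9, false, [0]), (rSy_3_1_10, false, [1, 2]), (rSy_3_1_11, true, [3])]),
    (rSy_3_1_5, rSy_3_1_5, 12, [(rSy_3_1_5, false, [0]), (rSy_3_1_6, false, [8]), (rSy_3_1_7, false, [4]), (rSy_3_1_8, false, [12])])),
  ([false, true, true],
    (rSy_3_1_3, rSy_3_1_3, 1, [(rSy_3_1_3, false, [0]), (rSy_3_1_4, false, [1])]),
    (rSy_3_1_1, rSy_3_1_1, 14, [(rSy_3_1_1, false, [0]), (rSy_3_1_2, false, [8]), (rSy_3_1_2, true, [2, 4])]))]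

theorem TSy_3_1_ok : tabOC CSy 3 1 TSy_3_1 = true := by
  decide +kernel

/-- the check -/
noncomputable def FSy_3_1 : List ℕ → Bool := chkO GSy_4 65536 94992 TSy_3_1

end Pool.Agent.Work.MP_bf01b2_co.MR
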