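import Pool.Agent.Work.MP_bf01b2_co.MR.BSy

set_option autoImplicit false

namespace Pool.Agent.Work.MP_bf01b2_co.MR

def rSy_3_2_0 : List (ℕ × ℕ) := [(35, 999), (35, 45), (35, 42), (35, 42), (35, 38), (35, 31)]
def rSy_3_2_1 : List (ℕ × ℕ) := [(39, 45), (34, 42), (34, 42), (34, 38), (34, 31)]
def rSy_3_2_2 : List (ℕ × ℕ) := [(39, 45), (36, 42), (36, 42), (36, 38), (36, 31)]
def rSy_3_2_3 : List (ℕ × ℕ) := [(39, 45), (39, 42), (39, 42), (39, 38), (39, 31)]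
def rSy_3_2_4 : List (ℕ × ℕ) := [(45, 39), (33, 35)]
def rSy_3_2_5 : List (ℕ × ℕ) := [(45, 39), (38, 35)]
def rSy_3_2_6 : List (ℕ × ℕ) := [(42, 42), (33, 42), (33, 38), (33, 31)]
def rSy_3_2_7 : List (ℕ × ℕ) := [(42, 42), (38, 42), (38, 38), (38, 31)]
def rSy_3_2_8 : List (ℕ × ℕ) := [(42, 42), (40, 42), (40, 38), (40, 31)]
def rSy_3_2_9 : List (ℕ × ℕ) := [(42, 42), (34, 39), (34, 35)]
def rSy_3_2_10 : List (ℕ × ℕ) := [(42, 42), (39, 39), (39, 35)]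
def rSy_3_2_11 : List (ℕ × ℕ) := [(42, 42), (41, 39), (41, 35)]
def rSy_3_2_12 : List (ℕ × ℕ) := [(37, 999), (35, 43), (35, 41), (35, 37), (35, 36)]
def rSy_3_2_13 : List (ℕ × ℕ) := [(37, 999), (37, 43), (37, 41), (37, 37), (37, 36)]
def rSy_3_2_14 : List (ℕ × ℕ) := [(41, 43), (34, 41), (34, 37), (34, 36)]
def rSy_3_2_15 : List (ℕ × ℕ) := [(41, 43), (36, 41), (36, 37), (36, 36)]
def rSy_3_2_16 : List (ℕ × ℕ) := [(41, 43), (39, 41), (39, 37), (39, 36)]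
def rSy_3_2_17 : List (ℕ × ℕ) := [(41, 43), (41, 41), (41, 37), (41, 36)]
def rSy_3_2_18 : List (ℕ × ℕ) := [(43, 41), (33, 37), (33, 36)]
def rSy_3_2_19 : List (ℕ × ℕ) := [(43, 41), (38, 37), (38, 36)]
def rSy_3_2_20 : List (ℕ × ℕ) := [(43, 41), (40, 37), (40, 36)]
def rSy_3_2_21 : List (ℕ × ℕ) := [(42, 999), (35, 42), (35, 39), (35, 35)]
def rSy_3_2_22 : List (ℕ × ℕ) := [(42, 999), (37, 42), (37, 39), (37, 35)]
def rSy_3_2_23 : List (ℕ × ℕ) := [(42, 999), (42, 42), (42, 39), (42, 35)]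

def TSy_3_2 : List EntO :=
  [([false, false, false],
    (rSy_3_2_0, rSy_3_2_0, 31, [(rSy_3_2_0, false, [0])]),
    ([(0, 0)], [(0, 0)], 0, [])),
  ([false, true, false],
    (rSy_3_2_1, rSy_3_2_1, 29, [(rSy_3_2_1, false, [0]), (rSy_3_2_2, false, [8, 16]), (rSy_3_2_3, true, [1, 4])]),
    (rSy_3_2_4, rSy_3_2_4, 2, [(rSy_3_2_4, false, [0]), (rSy_3_2_5, false, [2])])),
  ([false, false, true],
    (rSy_3_2_1, rSy_3_2_1, 27, [(rSy_3_2_1, false, [0]), (rSy_3_2_2, false, [8, 16]), (rSy_3_2_3, true, [1, 2])]),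
    (rSy_3_2_4, rSy_3_2_4, 4, [(rSy_3_2_4, false, [0]), (rSy_3_2_5, false, [4])])),
  ([false, true, true],
    (rSy_3_2_6, rSy_3_2_6, 25, [(rSy_3_2_6, false, [0]), (rSy_3_2_7, false, [8, 16]), (rSy_3_2_8, false, [24]), (rSy_3_2_7, false, [1]), (rSy_3_2_8, false, [9, 17])]),
    (rSy_3_2_9, rSy_3_2_9, 6, [(rSy_3_2_9, false, [0]), (rSy_3_2_10, false, [2, 4]), (rSy_3_2_11, false, [6])])),
  ([false, false, false],
    (rSy_3_2_12, rSy_3_2_12, 23, [(rSy_3_2_12, false, [0]), (rSy_3_2_13, false, [16]), (rSy_3_2_13, true, [1, 2, 4])]),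
    ([(0, 0)], [(0, 0)], 8, [])),
  ([false, true, false],
    (rSy_3_2_14, rSy_3_2_14, 21, [(rSy_3_2_14, false, [0]), (rSy_3_2_15, false, [16]), (rSy_3_2_16, false, [1, 4]), (rSy_3_2_17, false, [17, 20]), (rSy_3_2_17, true, [5])]),
    (rSy_3_2_18, rSy_3_2_18, 10, [(rSy_3_2_18, false, [0]), (rSy_3_2_19, false, [8]), (rSy_3_2_19, false, [2]), (rSy_3_2_20, false, [10])])),
  ([false, false, true],
    (rSy_3_2_14, rSy_3_2_14, 19, [(rSy_3_2_14, false, [0]), (rSy_3_2_15, false, [16]), (rSy_3_2_16, false, [1, 2]), (rSy_3_2_17, false, [17, 18]), (rSy_3_2_17, true, [3])]),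
    (rSy_3_2_18, rSy_3_2_18, 12, [(rSy_3_2_18, false, [0]), (rSy_3_2_19, false, [8]), (rSy_3_2_19, false, [4]), (rSy_3_2_20, false, [12])])),
  ([false, true, true],
    (rSy_3_2_18, rSy_3_2_18, 17, [(rSy_3_2_18, false, [0]), (rSy_3_2_19, false, [16]), (rSy_3_2_19, false, [1]), (rSy_3_2_20, false, [17])]),
    (rSy_3_2_14, rSy_3_2_14, 14, [(rSy_3_2_14, false, [0]), (rSy_3_2_15, false, [8]), (rSy_3_2_16, false, [2, 4]), (rSy_3_2_17, false, [10, 12]), (rSy_3_2_17, true, [6])])),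
  ([false, false, false],
    (rSy_3_2_12, rSy_3_2_12, 15, [(rSy_3_2_12, false, [0]), (rSy_3_2_13, false, [8]), (rSy_3_2_13, true, [1, 2, 4])]),
    ([(0, 0)], [(0, 0)], 16, [])),
  ([false, true, false],
    (rSy_3_2_14, rSy_3_2_14, 13, [(rSy_3_2_14, false, [0]), (rSy_3_2_15, false, [8]), (rSy_3_2_16, false, [1, 4]), (rSy_3_2_17, false, [9, 12]), (rSy_3_2_17, true, [5])]),
    (rSy_3_2_18, rSy_3_2_18, 18, [(rSy_3_2_18, false, [0]), (rSy_3_2_19, false, [16]), (rSy_3_2_19, false, [2]), (rSy_3_2_20, false, [18])])),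
  ([false, false, true],
    (rSy_3_2_14, rSy_3_2_14, 11, [(rSy_3_2_14, false, [0]), (rSy_3_2_15, false, [8]), (rSy_3_2_16, false, [1, 2]), (rSy_3_2_17, false, [9, 10]), (rSy_3_2_17, true, [3])]),
    (rSy_3_2_18, rSy_3_2_18, 20, [(rSy_3_2_18, false, [0]), (rSy_3_2_19, false, [16]), (rSy_3_2_19, false, [4]), (rSy_3_2_20, false, [20])])),
  ([false, true, true],
    (rSy_3_2_18, rSy_3_2_18, 9, [(rSy_3_2_18, false, [0]), (rSy_3_2_19, false, [8]), (rSy_3_2_19, false, [1]), (rSy_3_2_20, false, [9])]),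
    (rSy_3_2_14, rSy_3_2_14, 22, [(rSy_3_2_14, false, [0]), (rSy_3_2_15, false, [16]), (rSy_3_2_16, false, [2, 4]), (rSy_3_2_17, false, [18, 20]), (rSy_3_2_17, true, [6])])),
  ([false, false, false],
    (rSy_3_2_21, rSy_3_2_21, 7, [(rSy_3_2_21, false, [0]), (rSy_3_2_22, false, [1, 2, 4]), (rSy_3_2_23, true, [3, 5, 6])]),
    ([(0, 0)], [(0, 0)], 24, [])),
  ([false, true, false],
    (rSy_3_2_9, rSy_3_2_9, 5, [(rSy_3_2_9, false, [0]), (rSy_3_2_10, false, [1, 4]), (rSy_3_2_11, false, [5])]),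
    (rSy_3_2_6, rSy_3_2_6, 26, [(rSy_3_2_6, false, [0]), (rSy_3_2_7, false, [8, 16]), (rSy_3_2_8, false, [24]), (rSy_3_2_7, false, [2]), (rSy_3_2_8, false, [10, 18])])),
  ([false, false, true],
    (rSy_3_2_9, rSy_3_2_9, 3, [(rSy_3_2_9, false, [0]), (rSy_3_2_10, false, [1, 2]), (rSy_3_2_11, false, [3])]),
    (rSy_3_2_6, rSy_3_2_6, 28, [(rSy_3_2_6, false, [0]), (rSy_3_2_7, false, [8, 16]), (rSy_3_2_8, false, [24]), (rSy_3_2_7, false, [4]), (rSy_3_2_8, false, [12, 20])])),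
  ([false, true, true],
    (rSy_3_2_4, rSy_3_2_4, 1, [(rSy_3_2_4, false, [0]), (rSy_3_2_5, false, [1])]),
    (rSy_3_2_1, rSy_3_2_1, 30, [(rSy_3_2_1, false, [0]), (rSy_3_2_2, false, [8, 16]), (rSy_3_2_3, true, [2, 4])]))]

theorem TSy_3_2_ok : tabOC CSy 3 2 TSy_3_2 = true := by
  decide +kernel

/-- the check -/
noncomputable def FSy_3_2 : List ℕ → Bool := chkO GSy_5 33554432 49515552 TSy_3_2

end Pool.Agent.Work.MP_bf01b2_co.MR
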