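import Pool.Agent.Work.MP_bf01b2_co.MR.BSy

set_option autoImplicit false

namespace Pool.Agent.Work.MP_bf01b2_co.MR

def rSy_4_0_0 : List (ℕ × ℕ) := [(38, 999), (38, 45), (38, 42), (38, 42), (38, 38), (38, 31)]
def rSy_4_0_1 : List (ℕ × ℕ) := [(42, 45), (37, 42), (37, 42), (37, 38), (37, 31)]
def rSy_4_0_2 : List (ℕ × ℕ) := [(42, 45), (42, 42), (42, 42), (42, 38), (42, 31)]
def rSy_4_0_3 : List (ℕ × ℕ) := [(45, 42), (38, 38), (38, 31)]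
def rSy_4_0_4 : List (ℕ × ℕ) := [(45, 42), (42, 38), (42, 31)]
def rSy_4_0_5 : List (ℕ × ℕ) := [(42, 42), (39, 42), (39, 38), (39, 31)]
def rSy_4_0_6 : List (ℕ × ℕ) := [(42, 42), (41, 42), (41, 38), (41, 31)]
def rSy_4_0_7 : List (ℕ × ℕ) := [(42, 42), (42, 42), (42, 38), (42, 31)]

def TSy_4_0 : List EntO :=
  [([false, false, false, false],
    (rSy_4_0_0, rSy_4_0_0, 15, [(rSy_4_0_0, false, [0])]),
    ([(0, 0)], [(0, 0)], 0, [])),
  ([false, true, false, false],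
    (rSy_4_0_1, rSy_4_0_1, 13, [(rSy_4_0_1, false, [0]), (rSy_4_0_2, true, [1, 4, 8])]),
    (rSy_4_0_3, rSy_4_0_3, 2, [(rSy_4_0_3, false, [0]), (rSy_4_0_4, false, [2])])),
  ([false, false, true, false],
    (rSy_4_0_1, rSy_4_0_1, 11, [(rSy_4_0_1, false, [0]), (rSy_4_0_2, true, [1, 2, 8])]),
    (rSy_4_0_3, rSy_4_0_3, 4, [(rSy_4_0_3, false, [0]), (rSy_4_0_4, false, [4])])),
  ([false, true, true, false],
    (rSy_4_0_5, rSy_4_0_5, 9, [(rSy_4_0_5, false, [0]), (rSy_4_0_6, false, [1, 8]), (rSy_4_0_7, true, [9])]),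
    (rSy_4_0_5, rSy_4_0_5, 6, [(rSy_4_0_5, false, [0]), (rSy_4_0_6, false, [2, 4]), (rSy_4_0_7, true, [6])])),
  ([false, false, false, true],
    (rSy_4_0_1, rSy_4_0_1, 7, [(rSy_4_0_1, false, [0]), (rSy_4_0_2, true, [1, 2, 4])]),
    (rSy_4_0_3, rSy_4_0_3, 8, [(rSy_4_0_3, false, [0]), (rSy_4_0_4, false, [8])])),
  ([false, true, false, true],
    (rSy_4_0_5, rSy_4_0_5, 5, [(rSy_4_0_5, false, [0]), (rSy_4_0_6, false, [1, 4]), (rSy_4_0_7, true, [5])]),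
    (rSy_4_0_5, rSy_4_0_5, 10, [(rSy_4_0_5, false, [0]), (rSy_4_0_6, false, [2, 8]), (rSy_4_0_7, true, [10])])),
  ([false, false, true, true],
    (rSy_4_0_5, rSy_4_0_5, 3, [(rSy_4_0_5, false, [0]), (rSy_4_0_6, false, [1, 2]), (rSy_4_0_7, true, [3])]),
    (rSy_4_0_5, rSy_4_0_5, 12, [(rSy_4_0_5, false, [0]), (rSy_4_0_6, false, [4, 8]), (rSy_4_0_7, true, [12])])),
  ([false, true, true, true],
    (rSy_4_0_3, rSy_4_0_3, 1, [(rSy_4_0_3, false, [0]), (rSy_4_0_4, false, [1])]),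
    (rSy_4_0_1, rSy_4_0_1, 14, [(rSy_4_0_1, false, [0]), (rSy_4_0_2, true, [2, 4, 8])]))]

theorem TSy_4_0_ok : tabOC CSy 4 0 TSy_4_0 = true := by
  decide +kernel

/-- the check -/
noncomputable def FSy_4_0 : List ℕ → Bool := chkO GSy_4 65536 94992 TSy_4_0

end Pool.Agent.Work.MP_bf01b2_co.MR
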