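import Pool.Agent.Work.MP_bf01b2_co.MR.BSy

set_option autoImplicit false

namespace Pool.Agent.Work.MP_bf01b2_co.MR

def rSy_4_1_0 : List (ℕ × ℕ) := [(36, 999), (36, 45), (36, 42), (36, 42), (36, 38), (36, 31)]
def rSy_4_1_1 : List (ℕ × ℕ) := [(37, 45), (35, 42), (35, 42), (35, 38), (35, 31)]
def rSy_4_1_2 : List (ℕ × ℕ) := [(37, 45), (37, 42), (37, 42), (37, 38), (37, 31)]
def rSy_4_1_3 : List (ℕ × ℕ) := [(45, 37), (33, 36)]
def rSy_4_1_4 : List (ℕ × ℕ) := [(45, 37), (38, 36)]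
def rSy_4_1_5 : List (ℕ × ℕ) := [(41, 42), (34, 42), (34, 38), (34, 31)]
def rSy_4_1_6 : List (ℕ × ℕ) := [(41, 42), (36, 42), (36, 38), (36, 31)]
def rSy_4_1_7 : List (ℕ × ℕ) := [(41, 42), (39, 42), (39, 38), (39, 31)]
def rSy_4_1_8 : List (ℕ × ℕ) := [(41, 42), (41, 42), (41, 38), (41, 31)]
def rSy_4_1_9 : List (ℕ × ℕ) := [(42, 41), (34, 37), (34, 36)]
def rSy_4_1_10 : List (ℕ × ℕ) := [(42, 41), (39, 37), (39, 36)]
def rSy_4_1_11 : List (ℕ × ℕ) := [(42, 41), (41, 37), (41, 36)]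
def rSy_4_1_12 : List (ℕ × ℕ) := [(43, 42), (33, 38), (33, 31)]
def rSy_4_1_13 : List (ℕ × ℕ) := [(43, 42), (38, 38), (38, 31)]
def rSy_4_1_14 : List (ℕ × ℕ) := [(43, 42), (40, 38), (40, 31)]
def rSy_4_1_15 : List (ℕ × ℕ) := [(42, 43), (35, 41), (35, 37), (35, 36)]
def rSy_4_1_16 : List (ℕ × ℕ) := [(42, 43), (37, 41), (37, 37), (37, 36)]
def rSy_4_1_17 : List (ℕ × ℕ) := [(42, 43), (42, 41), (42, 37), (42, 36)]
def rSy_4_1_18 : List (ℕ × ℕ) := [(38, 999), (36, 43), (36, 41), (36, 37), (36, 36)]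
def rSy_4_1_19 : List (ℕ × ℕ) := [(38, 999), (38, 43), (38, 41), (38, 37), (38, 36)]

def TSy_4_1 : List EntO :=
  [([false, false, false, false],
    (rSy_4_1_0, rSy_4_1_0, 31, [(rSy_4_1_0, false, [0])]),
    ([(0, 0)], [(0, 0)], 0, [])),
  ([false, true, false, false],
    (rSy_4_1_1, rSy_4_1_1, 29, [(rSy_4_1_1, false, [0]), (rSy_4_1_2, false, [16]), (rSy_4_1_2, true, [1, 4, 8])]),
    (rSy_4_1_3, rSy_4_1_3, 2, [(rSy_4_1_3, false, [0]), (rSy_4_1_4, false, [2])])),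
  ([false, false, true, false],
    (rSy_4_1_1, rSy_4_1_1, 27, [(rSy_4_1_1, false, [0]), (rSy_4_1_2, false, [16]), (rSy_4_1_2, true, [1, 2, 8])]),
    (rSy_4_1_3, rSy_4_1_3, 4, [(rSy_4_1_3, false, [0]), (rSy_4_1_4, false, [4])])),
  ([false, true, true, false],
    (rSy_4_1_5, rSy_4_1_5, 25, [(rSy_4_1_5, false, [0]), (rSy_4_1_6, false, [16]), (rSy_4_1_7, false, [1, 8]), (rSy_4_1_8, false, [17, 24]), (rSy_4_1_8, true, [9])]),
    (rSy_4_1_9, rSy_4_1_9, 6, [(rSy_4_1_9, false, [0]), (rSy_4_1_10, false, [2, 4]), (rSy_4_1_11, false, [6])])),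
  ([false, false, false, true],
    (rSy_4_1_1, rSy_4_1_1, 23, [(rSy_4_1_1, false, [0]), (rSy_4_1_2, false, [16]), (rSy_4_1_2, true, [1, 2, 4])]),
    (rSy_4_1_3, rSy_4_1_3, 8, [(rSy_4_1_3, false, [0]), (rSy_4_1_4, false, [8])])),
  ([false, true, false, true],
    (rSy_4_1_5, rSy_4_1_5, 21, [(rSy_4_1_5, false, [0]), (rSy_4_1_6, false, [16]), (rSy_4_1_7, false, [1, 4]), (rSy_4_1_8, false, [17, 20]), (rSy_4_1_8, true, [5])]),
    (rSy_4_1_9, rSy_4_1_9, 10, [(rSy_4_1_9, false, [0]), (rSy_4_1_10, false, [2, 8]), (rSy_4_1_11, false, [10])])),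
  ([false, false, true, true],
    (rSy_4_1_5, rSy_4_1_5, 19, [(rSy_4_1_5, false, [0]), (rSy_4_1_6, false, [16]), (rSy_4_1_7, false, [1, 2]), (rSy_4_1_8, false, [17, 18]), (rSy_4_1_8, true, [3])]),
    (rSy_4_1_9, rSy_4_1_9, 12, [(rSy_4_1_9, false, [0]), (rSy_4_1_10, false, [4, 8]), (rSy_4_1_11, false, [12])])),
  ([false, true, true, true],
    (rSy_4_1_12, rSy_4_1_12, 17, [(rSy_4_1_12, false, [0]), (rSy_4_1_13, false, [16]), (rSy_4_1_13, false, [1]), (rSy_4_1_14, false, [17])]),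
    (rSy_4_1_15, rSy_4_1_15, 14, [(rSy_4_1_15, false, [0]), (rSy_4_1_16, false, [2, 4, 8]), (rSy_4_1_17, true, [6, 10, 12])])),
  ([false, false, false, false],
    (rSy_4_1_18, rSy_4_1_18, 15, [(rSy_4_1_18, false, [0]), (rSy_4_1_19, true, [1, 2, 4, 8])]),
    ([(0, 0)], [(0, 0)], 16, [])),
  ([false, true, false, false],
    (rSy_4_1_15, rSy_4_1_15, 13, [(rSy_4_1_15, false, [0]), (rSy_4_1_16, false, [1, 4, 8]), (rSy_4_1_17, true, [5, 9, 12])]),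
    (rSy_4_1_12, rSy_4_1_12, 18, [(rSy_4_1_12, false, [0]), (rSy_4_1_13, false, [16]), (rSy_4_1_13, false, [2]), (rSy_4_1_14, false, [18])])),
  ([false, false, true, false],
    (rSy_4_1_15, rSy_4_1_15, 11, [(rSy_4_1_15, false, [0]), (rSy_4_1_16, false, [1, 2, 8]), (rSy_4_1_17, true, [3, 9, 10])]),
    (rSy_4_1_12, rSy_4_1_12, 20, [(rSy_4_1_12, false, [0]), (rSy_4_1_13, false, [16]), (rSy_4_1_13, false, [4]), (rSy_4_1_14, false, [20])])),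
  ([false, true, true, false],
    (rSy_4_1_9, rSy_4_1_9, 9, [(rSy_4_1_9, false, [0]), (rSy_4_1_10, false, [1, 8]), (rSy_4_1_11, false, [9])]),
    (rSy_4_1_5, rSy_4_1_5, 22, [(rSy_4_1_5, false, [0]), (rSy_4_1_6, false, [16]), (rSy_4_1_7, false, [2, 4]), (rSy_4_1_8, false, [18, 20]), (rSy_4_1_8, true, [6])])),
  ([false, false, false, true],
    (rSy_4_1_15, rSy_4_1_15, 7, [(rSy_4_1_15, false, [0]), (rSy_4_1_16, false, [1, 2, 4]), (rSy_4_1_17, true, [3, 5, 6])]),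
    (rSy_4_1_12, rSy_4_1_12, 24, [(rSy_4_1_12, false, [0]), (rSy_4_1_13, false, [16]), (rSy_4_1_13, false, [8]), (rSy_4_1_14, false, [24])])),
  ([false, true, false, true],
    (rSy_4_1_9, rSy_4_1_9, 5, [(rSy_4_1_9, false, [0]), (rSy_4_1_10, false, [1, 4]), (rSy_4_1_11, false, [5])]),
    (rSy_4_1_5, rSy_4_1_5, 26, [(rSy_4_1_5, false, [0]), (rSy_4_1_6, false, [16]), (rSy_4_1_7, false, [2, 8]), (rSy_4_1_8, false, [18, 24]), (rSy_4_1_8, true, [10])])),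
  ([false, false, true, true],
    (rSy_4_1_9, rSy_4_1_9, 3, [(rSy_4_1_9, false, [0]), (rSy_4_1_10, false, [1, 2]), (rSy_4_1_11, false, [3])]),
    (rSy_4_1_5, rSy_4_1_5, 28, [(rSy_4_1_5, false, [0]), (rSy_4_1_6, false, [16]), (rSy_4_1_7, false, [4, 8]), (rSy_4_1_8, false, [20, 24]), (rSy_4_1_8, true, [12])])),
  ([false, true, true, true],
    (rSy_4_1_3, rSy_4_1_3, 1, [(rSy_4_1_3, false, [0]), (rSy_4_1_4, false, [1])]),
    (rSy_4_1_1, rSy_4_1_1, 30, [(rSy_4_1_1, false, [0]), (rSy_4_1_2, false, [16]), (rSy_4_1_2, true, [2, 4, 8])]))]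

theorem TSy_4_1_ok : tabOC CSy 4 1 TSy_4_1 = true := by
  decide +kernel

/-- the check -/
noncomputable def FSy_4_1 : List ℕ → Bool := chkO GSy_5 33554432 49515552 TSy_4_1

end Pool.Agent.Work.MP_bf01b2_co.MR
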