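import Pool.Agent.Work.MP_bf01b2_co.MR.BSy

set_option autoImplicit false

namespace Pool.Agent.Work.MP_bf01b2_co.MR

def rSy_5_0_0 : List (ℕ × ℕ) := [(31, 999), (31, 45), (31, 42), (31, 42), (31, 38), (31, 31)]
def rSy_5_0_1 : List (ℕ × ℕ) := [(38, 45), (36, 42), (36, 42), (36, 38), (36, 31)]
def rSy_5_0_2 : List (ℕ × ℕ) := [(38, 45), (38, 42), (38, 42), (38, 38), (38, 31)]
def rSy_5_0_3 : List (ℕ × ℕ) := [(45, 38), (33, 31)]
def rSy_5_0_4 : List (ℕ × ℕ) := [(45, 38), (38, 31)]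
def rSy_5_0_5 : List (ℕ × ℕ) := [(42, 42), (35, 42), (35, 38), (35, 31)]
def rSy_5_0_6 : List (ℕ × ℕ) := [(42, 42), (37, 42), (37, 38), (37, 31)]
def rSy_5_0_7 : List (ℕ × ℕ) := [(42, 42), (42, 42), (42, 38), (42, 31)]
def rSy_5_0_8 : List (ℕ × ℕ) := [(42, 42), (34, 38), (34, 31)]
def rSy_5_0_9 : List (ℕ × ℕ) := [(42, 42), (39, 38), (39, 31)]
def rSy_5_0_10 : List (ℕ × ℕ) := [(42, 42), (41, 38), (41, 31)]

def TSy_5_0 : List EntO :=
  [([false, false, false, false, false],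
    (rSy_5_0_0, rSy_5_0_0, 31, [(rSy_5_0_0, false, [0])]),
    ([(0, 0)], [(0, 0)], 0, [])),
  ([false, true, false, false, false],
    (rSy_5_0_1, rSy_5_0_1, 29, [(rSy_5_0_1, false, [0]), (rSy_5_0_2, true, [1, 4, 8, 16])]),
    (rSy_5_0_3, rSy_5_0_3, 2, [(rSy_5_0_3, false, [0]), (rSy_5_0_4, false, [2])])),
  ([false, false, true, false, false],
    (rSy_5_0_1, rSy_5_0_1, 27, [(rSy_5_0_1, false, [0]), (rSy_5_0_2, true, [1, 2, 8, 16])]),
    (rSy_5_0_3, rSy_5_0_3, 4, [(rSy_5_0_3, false, [0]), (rSy_5_0_4, false, [4])])),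
  ([false, true, true, false, false],
    (rSy_5_0_5, rSy_5_0_5, 25, [(rSy_5_0_5, false, [0]), (rSy_5_0_6, false, [1, 8, 16]), (rSy_5_0_7, true, [9, 17, 24])]),
    (rSy_5_0_8, rSy_5_0_8, 6, [(rSy_5_0_8, false, [0]), (rSy_5_0_9, false, [2, 4]), (rSy_5_0_10, false, [6])])),
  ([false, false, false, true, false],
    (rSy_5_0_1, rSy_5_0_1, 23, [(rSy_5_0_1, false, [0]), (rSy_5_0_2, true, [1, 2, 4, 16])]),
    (rSy_5_0_3, rSy_5_0_3, 8, [(rSy_5_0_3, false, [0]), (rSy_5_0_4, false, [8])])),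
  ([false, true, false, true, false],
    (rSy_5_0_5, rSy_5_0_5, 21, [(rSy_5_0_5, false, [0]), (rSy_5_0_6, false, [1, 4, 16]), (rSy_5_0_7, true, [5, 17, 20])]),
    (rSy_5_0_8, rSy_5_0_8, 10, [(rSy_5_0_8, false, [0]), (rSy_5_0_9, false, [2, 8]), (rSy_5_0_10, false, [10])])),
  ([false, false, true, true, false],
    (rSy_5_0_5, rSy_5_0_5, 19, [(rSy_5_0_5, false, [0]), (rSy_5_0_6, false, [1, 2, 16]), (rSy_5_0_7, true, [3, 17, 18])]),
    (rSy_5_0_8, rSy_5_0_8, 12, [(rSy_5_0_8, false, [0]), (rSy_5_0_9, false, [4, 8]), (rSy_5_0_10, false, [12])])),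
  ([false, true, true, true, false],
    (rSy_5_0_8, rSy_5_0_8, 17, [(rSy_5_0_8, false, [0]), (rSy_5_0_9, false, [1, 16]), (rSy_5_0_10, false, [17])]),
    (rSy_5_0_5, rSy_5_0_5, 14, [(rSy_5_0_5, false, [0]), (rSy_5_0_6, false, [2, 4, 8]), (rSy_5_0_7, true, [6, 10, 12])])),
  ([false, false, false, false, true],
    (rSy_5_0_1, rSy_5_0_1, 15, [(rSy_5_0_1, false, [0]), (rSy_5_0_2, true, [1, 2, 4, 8])]),
    (rSy_5_0_3, rSy_5_0_3, 16, [(rSy_5_0_3, false, [0]), (rSy_5_0_4, false, [16])])),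
  ([false, true, false, false, true],
    (rSy_5_0_5, rSy_5_0_5, 13, [(rSy_5_0_5, false, [0]), (rSy_5_0_6, false, [1, 4, 8]), (rSy_5_0_7, true, [5, 9, 12])]),
    (rSy_5_0_8, rSy_5_0_8, 18, [(rSy_5_0_8, false, [0]), (rSy_5_0_9, false, [2, 16]), (rSy_5_0_10, false, [18])])),
  ([false, false, true, false, true],
    (rSy_5_0_5, rSy_5_0_5, 11, [(rSy_5_0_5, false, [0]), (rSy_5_0_6, false, [1, 2, 8]), (rSy_5_0_7, true, [3, 9, 10])]),
    (rSy_5_0_8, rSy_5_0_8, 20, [(rSy_5_0_8, false, [0]), (rSy_5_0_9, false, [4, 16]), (rSy_5_0_10, false, [20])])),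
  ([false, true, true, false, true],
    (rSy_5_0_8, rSy_5_0_8, 9, [(rSy_5_0_8, false, [0]), (rSy_5_0_9, false, [1, 8]), (rSy_5_0_10, false, [9])]),
    (rSy_5_0_5, rSy_5_0_5, 22, [(rSy_5_0_5, false, [0]), (rSy_5_0_6, false, [2, 4, 16]), (rSy_5_0_7, true, [6, 18, 20])])),
  ([false, false, false, true, true],
    (rSy_5_0_5, rSy_5_0_5, 7, [(rSy_5_0_5, false, [0]), (rSy_5_0_6, false, [1, 2, 4]), (rSy_5_0_7, true, [3, 5, 6])]),
    (rSy_5_0_8, rSy_5_0_8, 24, [(rSy_5_0_8, false, [0]), (rSy_5_0_9, false, [8, 16]), (rSy_5_0_10, false, [24])])),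
  ([false, true, false, true, true],
    (rSy_5_0_8, rSy_5_0_8, 5, [(rSy_5_0_8, false, [0]), (rSy_5_0_9, false, [1, 4]), (rSy_5_0_10, false, [5])]),
    (rSy_5_0_5, rSy_5_0_5, 26, [(rSy_5_0_5, false, [0]), (rSy_5_0_6, false, [2, 8, 16]), (rSy_5_0_7, true, [10, 18, 24])])),
  ([false, false, true, true, true],
    (rSy_5_0_8, rSy_5_0_8, 3, [(rSy_5_0_8, false, [0]), (rSy_5_0_9, false, [1, 2]), (rSy_5_0_10, false, [3])]),
    (rSy_5_0_5, rSy_5_0_5, 28, [(rSy_5_0_5, false, [0]), (rSy_5_0_6, false, [4, 8, 16]), (rSy_5_0_7, true, [12, 20, 24])])),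
  ([false, true, true, true, true],
    (rSy_5_0_3, rSy_5_0_3, 1, [(rSy_5_0_3, false, [0]), (rSy_5_0_4, false, [1])]),
    (rSy_5_0_1, rSy_5_0_1, 30, [(rSy_5_0_1, false, [0]), (rSy_5_0_2, true, [2, 4, 8, 16])]))]

theorem TSy_5_0_ok : tabOC CSy 5 0 TSy_5_0 = true := by
  decide +kernel

/-- the check -/
noncomputable def FSy_5_0 : List ℕ → Bool := chkO GSy_5 33554432 49515552 TSy_5_0

end Pool.Agent.Work.MP_bf01b2_co.MR
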