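import Pool.Agent.Work.MP_bf01b2_co.MR.Dir3
import Pool.Agent.Work.MP_bf01b2_co.MR.Lvl

/-!
# Checking the tables; all vectors
-/

set_option autoImplicit false

namespace Pool.Agent.Work.MP_bf01b2_co.MR

/-- a state with an empty tree is vacuous -/
theorem GdP.of_zero {m D s : ℕ} {v : List ℕ} (h : 0 ∈ v) : GdP m D s v := by
  intro Ts e1 e2 h3
  exfalso
  clear e1 e2
  induction h3 with
  | nil => simp at h
  | cons h1 _ ih =>
    rcases List.mem_cons.1 h with h | h
    · rw [← h] at h1
      have e : ∀ T : LRT (Fin m → Bool), 1 ≤ T.size := fun T => by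
        unfold LRT.size
        omega
      have := e ‹_›
      omega
    · exact ih h

theorem GdP.nil {m D s : ℕ} : GdP m D s [] := by
  intro Ts _ _ h3 _ _ _
  cases h3
  exact ⟨∅, emb_nil⟩

/-- a vector with a small sum has a zero entry -/
theorem zero_mem_of_sum {w : List ℕ} (h : w.sum < w.length) : 0 ∈ w := by
  by_contra hc
  have := len_le_sum (v := w) (fun x hx => by
    rcases Nat.eq_zero_or_pos x with h0 | h0
    · rw [h0] at hx; exact absurd hx hc
    · exact h0)
  omega

/-- the check of one row; `c k D n` = cap for `n` specials, `c' k D` = cap for any number -/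
def rowC (c : ℕ → ℕ → ℕ → ℕ) (c' : ℕ → ℕ → ℕ) (kX dX kY dY : ℕ) (row : List (ℕ × ℕ)) : Bool :=
  !row.isEmpty &&
  (List.range row.length).all (fun i =>
    decide ((row.getD (i + 1) (0, 0)).1 ≤ (row.getD i (0, 0)).1) &&
    decide ((row.getD (i + 1) (0, 0)).2 ≤ (row.getD i (0, 0)).2)) &&
  (List.range row.length).all (fun n =>
    (decide ((row.getD n (0, 0)).1 < kX) || 
      (if n = 0 then decide (kX = 0) || decide ((row.getD n (0, 0)).1 ≤ c' kX dX)
        else (decide (kY = 0) && decide (dY = 0) && decide ((row.getD n (0, 0)).1 ≤ c' kX dX)) ||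
          decide ((row.getD n (0, 0)).1 + dX ≤ c (kX + dX) (dY + kY) n))) &&
    (decide ((row.getD n (0, 0)).2 < n + kY) || decide (n + kY = 0) ||
      decide ((row.getD n (0, 0)).2 ≤ c' (n + kY) dY)))

theorem rowC_ok {m s kX dX kY dY : ℕ} {c : ℕ → ℕ → ℕ → ℕ} {c' : ℕ → ℕ → ℕ}
    (hc : ∀ k D n (w : List ℕ), w.length = k → w.sum ≤ c k D n → GdP m D n w)
    (hc' : ∀ k D (w : List ℕ), w.length = k → w.sum ≤ c' k D → GdP m D s w)
    {row : List (ℕ × ℕ)} (h : rowC c c' kX dX kY dY row = true) : RowOK m s kX dX kY dY row := by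
  unfold rowC at h
  simp only [Bool.and_eq_true, List.all_eq_true, List.mem_range, Bool.or_eq_true,
    decide_eq_true_eq, Bool.not_eq_true', List.isEmpty_eq_false_iff] at h
  obtain ⟨⟨h1, h2⟩, h3⟩ := h
  have hout : ∀ i, row.length ≤ i → row.getD i (0, 0) = (0, 0) := fun i hi =>
    List.getD_eq_default _ _ hi
  refine ⟨h1, fun i => ?_, fun i => ?_, fun n hn => ⟨fun w hw hs => ⟨fun hn0 => ?_, fun hn0 => ?_⟩,
    fun w hw hs => ?_⟩⟩
  · by_cases hi : i < row.length
    · exact (h2 i hi).1
    · rw [hout (i + 1) (by omega)]; exact Nat.zero_le _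
  · by_cases hi : i < row.length
    · exact (h2 i hi).2
    · rw [hout (i + 1) (by omega)]; exact Nat.zero_le _
  · rcases (h3 n hn).1 with h4 | h4
    · exact GdP.of_zero (zero_mem_of_sum (by omega))
    · rw [if_pos hn0] at h4
      rw [Bool.or_eq_true, decide_eq_true_eq, decide_eq_true_eq] at h4
      rcases h4 with h4 | h4
      · rw [h4] at hw
        rw [List.length_eq_zero_iff.1 hw]
        exact GdP.nil
      · exact hc' kX dX w hw (hs.trans h4)
  · rcases (h3 n hn).1 with h4 | h4
    · exact Or.inl (GdP.of_zero (List.mem_append_left _ (zero_mem_of_sum (by omega))))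
    · rw [if_neg hn0, Bool.or_eq_true, Bool.and_eq_true, Bool.and_eq_true, decide_eq_true_eq,
        decide_eq_true_eq, decide_eq_true_eq, decide_eq_true_eq] at h4
      rcases h4 with ⟨⟨h5, h6⟩, h7⟩ | h4
      · exact Or.inr ⟨h5, h6, hc' kX dX w hw (hs.trans h7)⟩
      · left
        refine hc (kX + dX) (dY + kY) n _ ?_ ?_
        · rw [List.length_append, List.length_replicate, hw]
        · rw [List.sum_append, List.sum_replicate, smul_eq_mul, mul_one]
          omega
  · rcases (h3 n hn).2 with (h4 | h4) | h4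
    · exact GdP.of_zero (zero_mem_of_sum (by omega))
    · rw [h4] at hw
      rw [List.length_eq_zero_iff.1 hw]
      exact GdP.nil
    · exact hc' _ dY w hw (hs.trans h4)

/-- the check of the table -/
def tabC (c : ℕ → ℕ → ℕ → ℕ) (c' : ℕ → ℕ → ℕ) (K D : ℕ) (tab : List Ent) : Bool :=
  decide (tab.length = 2 ^ (K + D - 1)) &&
  (List.range (2 ^ (K + D - 1))).all (fun g =>
    decide ((tab.getD g ([], [], [])).1 = bitsG K g) &&
    rowC c c' ((bitsG K g).count false) (sft K D g false) ((bitsG K g).count true)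
      (sft K D g true) (tab.getD g ([], [], [])).2.1 &&
    rowC c c' ((bitsG K g).count true) (sft K D g true) ((bitsG K g).count false)
      (sft K D g false) (tab.getD g ([], [], [])).2.2)

theorem tabC_ok {m s K D : ℕ} {c : ℕ → ℕ → ℕ → ℕ} {c' : ℕ → ℕ → ℕ}
    (hc : ∀ k D n (w : List ℕ), w.length = k → w.sum ≤ c k D n → GdP m D n w)
    (hc' : ∀ k D (w : List ℕ), w.length = k → w.sum ≤ c' k D → GdP m D s w)
    {tab : List Ent} (h : tabC c c' K D tab = true) :
    tab.length = 2 ^ (K + D - 1) ∧ TabOK m s K D tab := by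
  unfold tabC at h
  simp only [Bool.and_eq_true, List.all_eq_true, List.mem_range, decide_eq_true_eq] at h
  refine ⟨h.1, fun g hg e he => ?_⟩
  have h1 : tab.getD g ([], [], []) = e := by
    rw [List.getD_eq_getElem?_getD, he]
    rfl
  obtain ⟨⟨h2, h3⟩, h4⟩ := h.2 g hg
  rw [h1] at h2 h3 h4
  refine ⟨h2, fun x => ?_⟩
  cases x
  · exact rowC_ok hc hc' h3
  · exact rowC_ok hc hc' h4

/-- from the sorted vectors with sum `T` to all vectors with sum at most `T` -/
theorem GdP.of_sorted {m s D K T : ℕ} (hK : 1 ≤ K) (h : ∀ v : List ℕ, v.length = K → v.sum = T →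
      (∀ x ∈ v, 1 ≤ x) → v.Pairwise (fun a b => b ≤ a) → GdP m D s v) {w : List ℕ}
    (hw : w.length = K) (hs : w.sum ≤ T) : GdP m D s w := by
  by_cases h0 : 0 ∈ w
  · exact GdP.of_zero h0
  obtain ⟨u, hu⟩ : ∃ u, u = w.insertionSort (fun a b => b ≤ a) := ⟨_, rfl⟩
  have hp : u.Perm w := by rw [hu]; exact List.perm_insertionSort _ w
  have hsort : u.Pairwise (fun a b => b ≤ a) := by
    rw [hu]
    exact List.pairwise_insertionSort (r := fun a b : ℕ => b ≤ a) w
  have hul : u.length = K := by rw [hp.length_eq, hw]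
  have hus : u.sum ≤ T := by rw [hp.sum_eq]; exact hs
  have hu0 : 0 ∉ u := fun h => h0 (hp.mem_iff.1 h)
  refine GdP.perm hp ?_
  cases u with
  | nil => simp at hul; omega
  | cons a l =>
    rw [List.sum_cons] at hus
    rw [List.pairwise_cons] at hsort
    refine GdP.mono le_rfl le_rfl (w := (T - l.sum) :: l) (.cons (by omega) (forall₂_le_refl l))
      (h _ (by simpa using hul) (by rw [List.sum_cons]; omega) ?_ ?_)
    · intro x hx
      rcases List.mem_cons.1 hx with rfl | hx
      · have : a ≠ 0 := fun h => hu0 (by rw [h]; exact List.mem_cons_self)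
        omega
      · have : x ≠ 0 := fun h => hu0 (by rw [← h]; exact List.mem_cons_of_mem _ hx)
        omega
    · rw [List.pairwise_cons]
      exact ⟨fun b hb => (hsort.1 b hb).trans (by omega), hsort.2⟩

/-- **All vectors of one state.** -/
theorem state_all {m s K D T : ℕ} (hK : 1 ≤ K) (hN : K + D ≤ m + 1) {c : ℕ → ℕ → ℕ → ℕ}
    {c' : ℕ → ℕ → ℕ}
    (hc : ∀ k D n (w : List ℕ), w.length = k → w.sum ≤ c k D n → GdP m D n w)
    (hc' : ∀ k D (w : List ℕ), w.length = k → w.sum ≤ c' k D → GdP m D s w)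
    {tab : List Ent} (htab : tabC c c' K D tab = true) {G : List (ℕ × List (ℕ × ℕ))} {sn full : ℕ}
    (hG : Adv.groups (K + D) (K + D) = G) (hsn : Adv.sen (K + D) = sn)
    (hfull : Adv.fullN (K + D) = full) (h : av K T T (chkV G sn full tab) = true) {w : List ℕ}
    (hw : w.length = K) (hs : w.sum ≤ T) : GdP (m + 1) D s w := by
  obtain ⟨h1, h2⟩ := tabC_ok hc hc' htab
  refine GdP.of_sorted hK (fun v e1 e2 e3 e4 => ?_) hw hs
  refine state_emb (lvlP m) hK hN h1 h2 e1 ?_
  rw [hG, hsn, hfull]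
  refine av_sound K h v e1 e2 e3 e4 fun x hx => ?_
  rw [← e2]
  exact List.le_sum_of_mem hx

end Pool.Agent.Work.MP_bf01b2_co.MR
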