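import Pool.Agent.Work.MP_bf01b2_co.MR.StateM
import Pool.Agent.Work.MP_bf01b2_co.MR.TabsO

/-!
# Checking the tables with rows for cuttings of one tree
-/

set_option autoImplicit false

namespace Pool.Agent.Work.MP_bf01b2_co.MR

/-- facts `(k, D, σ, cap)`: all states with `k` trees of total size at most `cap` where only the first
tree carries soft positions, at most `D`, and at most `σ` special holes on one descending path -/
def BaseS (m : ℕ) (L : List (ℕ × ℕ × ℕ × ℕ)) : Prop :=
  ∀ e ∈ L, ∀ (s a : ℕ) (w : List ℕ), s ≤ e.2.2.1 → w.length + 1 = e.1 → a + w.sum ≤ e.2.2.2 →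
    GdT m true ((a, e.2.1, s) :: w.map (fun x => (x, 0, 0)))

theorem BaseS.nil {m : ℕ} : BaseS m [] := by
  intro e he
  simp at he

theorem BaseS.cons {m k D σ cap : ℕ} {L : List (ℕ × ℕ × ℕ × ℕ)} (h : BaseS m L)
    (h1 : ∀ (s a : ℕ) (w : List ℕ), s ≤ σ → w.length + 1 = k → a + w.sum ≤ cap →
      GdT m true ((a, D, s) :: w.map (fun x => (x, 0, 0)))) :
    BaseS m ((k, D, σ, cap) :: L) := by
  intro e he
  rcases List.mem_cons.1 he with rfl | he
  · exact h1
  · exact h e he

theorem BaseS.append {m : ℕ} {L L' : List (ℕ × ℕ × ℕ × ℕ)} (h : BaseS m L) (h' : BaseS m L') :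
    BaseS m (L ++ L') := by
  intro e he
  rcases List.mem_append.1 he with he | he
  · exact h e he
  · exact h' e he

/-- the best cap of the list for `k` trees, `D` softs and `n` specials -/
def capLS (L : List (ℕ × ℕ × ℕ × ℕ)) (k D n : ℕ) : ℕ :=
  L.foldr (fun e a => if e.1 = k ∧ D ≤ e.2.1 ∧ n ≤ e.2.2.1 then max e.2.2.2 a else a) 0

theorem capLS_spec {k D n : ℕ} : ∀ {L : List (ℕ × ℕ × ℕ × ℕ)}, capLS L k D n = 0 ∨
    ∃ e ∈ L, e.1 = k ∧ D ≤ e.2.1 ∧ n ≤ e.2.2.1 ∧ capLS L k D n = e.2.2.2
  | [] => Or.inl rfl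
  | e :: L => by
    have ih := capLS_spec (k := k) (D := D) (n := n) (L := L)
    have e0 : capLS (e :: L) k D n = if e.1 = k ∧ D ≤ e.2.1 ∧ n ≤ e.2.2.1 then
      max e.2.2.2 (capLS L k D n) else capLS L k D n := rfl
    rw [e0]
    split_ifs with h
    · rcases le_total (capLS L k D n) e.2.2.2 with h1 | h1
      · rw [max_eq_left h1]
        exact Or.inr ⟨e, List.mem_cons_self, h.1, h.2.1, h.2.2, rfl⟩
      · rw [max_eq_right h1]
        rcases ih with ih | ⟨x, hx, h2⟩
        · exact Or.inl ih
        · exact Or.inr ⟨x, List.mem_cons_of_mem _ hx, h2⟩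
    · rcases ih with ih | ⟨x, hx, h2⟩
      · exact Or.inl ih
      · exact Or.inr ⟨x, List.mem_cons_of_mem _ hx, h2⟩

section
variable {m : ℕ} {pm : Bool}

theorem pcT.cln {V : Type*} [DecidableEq V] {pm : Bool} {T : LRT V} (P : Finset V)
    (h : pcT pm T) : pcT pm (cln P T) := by
  have hg : ∀ (R R' : Finset V → Bool), R ∅ = false → (∀ F, R (F \ P) = true → R' F = true) →
      PT R' T → PT R (MR.cln P T) := by
    intro R R' hR hRR hW
    unfold MR.cln
    refine PT.z hR ?_
    unfold PT
    have h7 : (stripT P T).tree = T.tree.mapL (fun F => F \ P) := rfl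
    rw [h7, LT.core_mapL]
    exact (LT.core_le fun F _ hF => hRR F hF).pth hW
  unfold pcT at h ⊢
  split_ifs at h ⊢
  · refine hg _ _ (by simp [nonE]) (fun F hF => ?_) h
    unfold nonE at hF ⊢
    rw [decide_eq_true_iff] at hF ⊢
    rintro rfl
    simp at hF
  · intro x
    refine hg _ (hasL x) (by simp [hasL]) (fun F hF => ?_) (h _)
    rw [hasL_iff] at hF ⊢
    exact (Finset.mem_sdiff.1 hF).1

theorem sfs_cln_sub {V : Type*} [DecidableEq V] {T : LRT V} (P : Finset V) :
    sfs (cln P T) ⊆ sfs T \ P := by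
  rw [sfs_cln]
  intro x hx
  rw [Finset.mem_sdiff] at hx ⊢
  refine ⟨?_, hx.2⟩
  obtain ⟨F, hF, hxF⟩ := mem_sfs.1 hx.1
  rcases List.mem_append.1 hF with h5 | h5
  · rcases LT.mem_z_labs h5 with rfl | h6
    · exact absurd hxF (Finset.notMem_empty x)
    · exact mem_sfs.2 ⟨F, List.mem_append_left _ h6, hxF⟩
  · rcases LT.mem_z_labs h5 with rfl | h6
    · exact absurd hxF (Finset.notMem_empty x)
    · exact mem_sfs.2 ⟨F, List.mem_append_right _ h6, hxF⟩

theorem nsp_cln_nsp {V : Type*} [DecidableEq V] {T : LRT V} (P : Finset V) :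
    nsp (cln P T) ≤ nsp T := by
  rw [nsp_cln]
  unfold nsp
  have e1 : T.z.labs = T.l.z.labs ++ T.r.z.labs := rfl
  have e2 : T.labs = T.l.labs ++ T.r.labs := rfl
  have key : ∀ t : LT V, t.z.labs.countP (fun F => decide (¬ F ⊆ P)) ≤
      t.labs.countP (fun F => decide (F ≠ ∅)) := by
    intro t
    refine le_trans (LT.z_countP (c := fun F => decide (¬ F ⊆ P)) (by simp) t) ?_
    refine List.countP_mono_left fun F _ hF => ?_
    rw [decide_eq_true_iff] at hF ⊢
    rintro rfl
    exact hF (Finset.empty_subset _)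
  rw [e1, e2, List.countP_append, List.countP_append]
  exact Nat.add_le_add (key _) (key _)

/-- `x` soft positions of the carrier are replaced by trees with one vertex -/
theorem GdT.harden {a D s x : ℕ} {w : List ℕ}
    (h : GdT m pm (((a, D, s) :: w.map (fun x => (x, 0, 0))) ++ List.replicate x (1, 0, 0)))
    (hroom : w.length + 1 + x ≤ 2 ^ m) : GdT m pm ((a, D + x, s) :: w.map (fun x => (x, 0, 0))) := by
  classical
  intro Ts h1 h2 h3 h4 h5 h6
  have hlen : Ts.length = w.length + 1 := by
    rw [h4.length_eq, List.length_cons, List.length_map]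
  cases h4 with
  | @cons W _ TX _ hW hX =>
    obtain ⟨A, hA1, hA2⟩ := Finset.exists_subset_card_eq (s := sfs W)
      (n := min x (sfs W).card) (min_le_right _ _)
    obtain ⟨O, e1, e2, e3⟩ := harden_room (dX := x) (FX := W :: TX) (O := A)
      ((h3 W List.mem_cons_self).mono_left hA1) (by rw [hA2]; exact min_le_left _ _)
      (by rw [hlen]; exact hroom)
    have hX' : ∀ T ∈ TX, ∃ n ∈ w, LRT.size T ≤ n ∧ (sfs T).card ≤ 0 ∧ nsp T ≤ 0 := by
      intro T hT
      obtain ⟨p, hp, hTp⟩ : ∃ p ∈ w.map (fun x => (x, 0, 0)),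
          LRT.size T ≤ p.1 ∧ (sfs T).card ≤ p.2.1 ∧ nsp T ≤ p.2.2 := by
        clear * - hX hT
        generalize w.map (fun x => ((x, 0, 0) : ℕ × ℕ × ℕ)) = vv at hX ⊢
        induction hX with
        | nil => simp at hT
        | cons h7 _ ih =>
          rcases List.mem_cons.1 hT with rfl | hT
          · exact ⟨_, List.mem_cons_self, h7⟩
          · obtain ⟨p, h8, h9⟩ := ih hT
            exact ⟨p, List.mem_cons_of_mem _ h8, h9⟩
      obtain ⟨n, hn, rfl⟩ := List.mem_map.1 hp
      exact ⟨n, hn, hTp⟩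
    have hXe : ∀ T ∈ TX, sfs T = ∅ := fun T hT => by
      obtain ⟨n, _, _, h8, _⟩ := hX' T hT
      exact Finset.card_eq_zero.1 (Nat.le_zero.1 h8)
    have hXc : ∀ T ∈ TX, sfs (cln (poss (W :: TX) ∪ O) T) = ∅ := fun T hT => by
      have := sfs_cln_sub (T := T) (poss (W :: TX) ∪ O)
      rw [hXe T hT, Finset.empty_sdiff, Finset.subset_empty] at this
      exact this
    refine GdT.emb_harden O (v := (a, D, s) :: w.map (fun x => (x, 0, 0))) (by rw [e3]; exact h) e2
      rfl h1 (fun T hT => (h2 T hT).ok) ?_ ?_ ?_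
    · refine .cons ⟨hW.1, ?_, (nsp_cln_nsp _).trans hW.2.2⟩ ?_
      · have h7 : sfs (cln (poss (W :: TX) ∪ O) W) ⊆ sfs W \ A := by
          intro y hy
          have h8 := sfs_cln_sub _ hy
          rw [Finset.mem_sdiff, Finset.mem_union, not_or] at h8
          rw [Finset.mem_sdiff]
          exact ⟨h8.1, fun h => h8.2.2 (e1 h)⟩
        refine (Finset.card_le_card h7).trans ?_
        rw [Finset.card_sdiff_of_subset hA1, hA2]
        have h9 : (sfs W).card ≤ D + x := hW.2.1
        show (sfs W).card - min x (sfs W).card ≤ D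
        omega
      · refine ((List.forall₂_and_left (p := fun T => T ∈ TX) TX _).2
          ⟨fun T hT => hT, hX⟩).imp fun T p hp => ⟨hp.2.1, ?_, (nsp_cln_nsp _).trans hp.2.2.2⟩
        rw [hXc T hp.1]
        simp
    · rw [List.pairwise_cons]
      constructor
      · intro U hU
        rw [hXc U hU]
        exact Finset.disjoint_empty_right _
      · refine List.Pairwise.imp_of_mem (R := fun _ _ => True) (fun {a b} ha _ _ => ?_)
          (List.pairwise_of_forall fun _ _ => trivial)
        rw [hXc a ha]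
        exact Finset.disjoint_empty_left _
    · intro T hT
      exact (h6 T hT).cln _

theorem GdT.of_small {a D s : ℕ} {w : List ℕ} (h : a + w.sum < w.length + 1) :
    GdT m pm ((a, D, s) :: w.map (fun x => (x, 0, 0))) := by
  have h1 : 0 ∈ a :: w := zero_mem_of_sum (by simpa using h)
  rcases List.mem_cons.1 h1 with h1 | h1
  · exact GdT.of_zero ⟨_, List.mem_cons_self, h1.symm⟩
  · exact GdT.of_zero ⟨(0, 0, 0), List.mem_cons_of_mem _ (List.mem_map.2 ⟨0, h1, rfl⟩), rfl⟩

end

/-- the entry of a table of caps for states with one carrier -/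
def capTS (c : List (List (List ℕ))) (k D n : ℕ) : ℕ := ((c.getD k []).getD D []).getD n 0

/-- a table of caps for states with one carrier -/
def CapS (m : ℕ) (c : List (List (List ℕ))) : Prop :=
  ∀ (k D n a : ℕ) (w : List ℕ), w.length + 1 = k → a + w.sum ≤ capTS c k D n →
    GdT m true ((a, D, n) :: w.map (fun x => (x, 0, 0)))

/-- the table follows from the lists (monotonicity, hardening) -/
def capSChk (m : ℕ) (L : List (ℕ × ℕ × ℕ)) (LS : List (ℕ × ℕ × ℕ × ℕ))
    (c : List (List (List ℕ))) : Bool :=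
  (List.range c.length).all fun k => (List.range (c.getD k []).length).all fun D =>
    (List.range ((c.getD k []).getD D []).length).all fun n =>
    decide (capTS c k D n < k) ||
    (List.range (D + 1)).any fun x =>
      (decide (capTS c k D n + x ≤ capLS LS (k + x) (D - x) n) ||
        decide (capTS c k D n + x ≤ capL L (k + x) (D - x))) && decide (k + x ≤ 2 ^ m)

theorem BaseS.cap {m : ℕ} {L : List (ℕ × ℕ × ℕ × ℕ)} (h : BaseS m L) (k D n a : ℕ) (w : List ℕ)
    (hw : w.length + 1 = k) (hs : a + w.sum ≤ capLS L k D n) :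
    GdT m true ((a, D, n) :: w.map (fun x => (x, 0, 0))) := by
  rcases capLS_spec (k := k) (D := D) (n := n) (L := L) with h1 | ⟨e, he, h1, h2, h3, h4⟩
  · exact GdT.of_small (by omega)
  · refine GdT.mono ?_ (h e he n a w h3 (by rw [hw, h1]) (by rw [← h4]; exact hs))
    refine .cons ⟨le_rfl, h2, le_rfl⟩ ?_
    rw [List.forall₂_same]
    exact fun _ _ => ⟨le_rfl, le_rfl, le_rfl⟩

theorem BaseS.capS {m : ℕ} {L : List (ℕ × ℕ × ℕ)} {LS : List (ℕ × ℕ × ℕ × ℕ)} (hU : BaseO m L)
    (h : BaseS m LS) {c : List (List (List ℕ))} (hc : capSChk m L LS c = true) : CapS m c := by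
  intro k D n a w hw hs
  by_cases hz : capTS c k D n = 0
  · exact GdT.of_small (by omega)
  · have h1 : k < c.length := by
      by_contra hcon
      apply hz
      unfold capTS
      rw [List.getD_eq_default c [] (by omega)]
      simp
    have h2 : D < (c.getD k []).length := by
      by_contra hcon
      apply hz
      unfold capTS
      rw [List.getD_eq_default (c.getD k []) [] (by omega)]
      simp
    have h2' : n < ((c.getD k []).getD D []).length := by
      by_contra hcon
      apply hz
      unfold capTS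
      rw [List.getD_eq_default _ 0 (by omega)]
    unfold capSChk at hc
    rw [List.all_eq_true] at hc
    have h3 := hc k (List.mem_range.2 h1)
    rw [List.all_eq_true] at h3
    have h4 := h3 D (List.mem_range.2 h2)
    rw [List.all_eq_true] at h4
    have h5 := h4 n (List.mem_range.2 h2')
    rw [Bool.or_eq_true, decide_eq_true_eq, List.any_eq_true] at h5
    rcases h5 with h5 | ⟨x, hx, h5⟩
    · exact GdT.of_small (by omega)
    · rw [Bool.and_eq_true, Bool.or_eq_true, decide_eq_true_eq, decide_eq_true_eq,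
        decide_eq_true_eq] at h5
      have hx' := List.mem_range.1 hx
      have e1 : ((a, D - x, n) :: w.map (fun x => (x, 0, 0))) ++
          List.replicate x ((1, 0, 0) : ℕ × ℕ × ℕ) =
          (a, D - x, n) :: (w ++ List.replicate x 1).map (fun x => (x, 0, 0)) := by
        rw [List.cons_append, List.map_append, List.map_replicate]
      have h6 : GdT m true (((a, D - x, n) :: w.map (fun x => (x, 0, 0))) ++
          List.replicate x ((1, 0, 0) : ℕ × ℕ × ℕ)) := by
        rw [e1]
        rcases h5.1 with h6 | h6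
        · refine h.cap (k + x) (D - x) n a _ ?_ ?_
          · rw [List.length_append, List.length_replicate]
            omega
          · rw [List.sum_append, List.sum_replicate, smul_eq_mul, mul_one]
            omega
        · refine GdT.of_GdO (D := D - x) ?_ fun s => ?_
          · rw [List.map_cons, List.sum_cons, List.map_map]
            have e3 : ((fun p : ℕ × ℕ × ℕ => p.2.1) ∘ fun x : ℕ => ((x, 0, 0) : ℕ × ℕ × ℕ)) =
              fun _ => 0 := rfl
            rw [e3]
            simp
          · have e2 : ((a, D - x, n) :: (w ++ List.replicate x 1).map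
                (fun x => ((x, 0, 0) : ℕ × ℕ × ℕ))).map Prod.fst =
                a :: (w ++ List.replicate x 1) := by
              rw [List.map_cons, List.map_map]
              congr 1
              exact List.map_id _
            rw [e2]
            refine hU.cap s (k + x) (D - x) _ ?_ ?_
            · rw [List.length_cons, List.length_append, List.length_replicate]
              omega
            · rw [List.sum_cons, List.sum_append, List.sum_replicate, smul_eq_mul, mul_one]
              omega
      have h7 := GdT.harden h6 (by rw [hw]; exact h5.2)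
      rwa [Nat.sub_add_cancel (by omega)] at h7

/-- the check of one row for cuttings of one tree -/
def rowSC (c : List (List ℕ)) (cS : List (List (List ℕ))) (kX dX kY dY ν : ℕ)
    (row : List (ℕ × ℕ)) : Bool :=
  !row.isEmpty &&
  (List.range row.length).all (fun i =>
    decide ((row.getD (i + 1) (0, 0)).1 ≤ (row.getD i (0, 0)).1) &&
    decide ((row.getD (i + 1) (0, 0)).2 ≤ (row.getD i (0, 0)).2)) &&
  (decide ((row.getD 0 (0, 0)).1 < kX) || decide (kX = 0) ||
    decide ((row.getD 0 (0, 0)).1 ≤ capT c kX dX)) &&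
  (List.range row.length).all (fun n =>
    (decide (n = 0) || decide ((row.getD n (0, 0)).1 < kX) ||
      decide ((row.getD n (0, 0)).1 + dX ≤ capTS cS (kX + dX) ν n)) &&
    (decide ((row.getD n (0, 0)).2 < n + kY) || decide (n + kY = 0) ||
      decide ((row.getD n (0, 0)).2 ≤ capT c (n + kY) dY)))

theorem rowSC_ok {m s kX dX kY dY ν : ℕ} {c : List (List ℕ)} (hc : CapO m c)
    {cS : List (List (List ℕ))} (hcS : CapS m cS)
    {row : List (ℕ × ℕ)} (h : rowSC c cS kX dX kY dY ν row = true) :
    RowS m s kX dX kY dY ν row := by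
  unfold rowSC at h
  simp only [Bool.and_eq_true, List.all_eq_true, List.mem_range, Bool.or_eq_true,
    decide_eq_true_eq, Bool.not_eq_true', List.isEmpty_eq_false_iff] at h
  obtain ⟨⟨⟨h1, h2⟩, h0⟩, h3⟩ := h
  have hout : ∀ i, row.length ≤ i → row.getD i (0, 0) = (0, 0) := fun i hi =>
    List.getD_eq_default _ _ hi
  refine ⟨h1, fun i => ?_, fun i => ?_, fun w hw hs => ?_, fun n hn =>
    ⟨fun hn0 a w hw hs => ?_, fun w hw hs => ?_⟩⟩
  · by_cases hi : i < row.length
    · exact (h2 i hi).1
    · rw [hout (i + 1) (by omega)]; exact Nat.zero_le _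
  · by_cases hi : i < row.length
    · exact (h2 i hi).2
    · rw [hout (i + 1) (by omega)]; exact Nat.zero_le _
  · rcases h0 with (h4 | h4) | h4
    · exact GdO.of_small (by omega)
    · rw [h4] at hw
      rw [List.length_eq_zero_iff.1 hw]
      exact GdO.nil
    · exact hc kX dX s w hw (hs.trans h4)
  · have e1 : ((a, ν, n) :: w.map (fun x => (x, 0, 0))) ++
        List.replicate dX ((1, 0, 0) : ℕ × ℕ × ℕ) =
        (a, ν, n) :: (w ++ List.replicate dX 1).map (fun x => (x, 0, 0)) := by
      rw [List.cons_append, List.map_append, List.map_replicate]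
    rw [e1]
    rcases (h3 n hn).1 with (h4 | h4) | h4
    · exact absurd h4 hn0
    · refine GdT.of_small ?_
      rw [List.sum_append, List.sum_replicate, smul_eq_mul, mul_one, List.length_append,
        List.length_replicate]
      omega
    · refine hcS (kX + dX) ν n a _ ?_ ?_
      · rw [List.length_append, List.length_replicate]
        omega
      · rw [List.sum_append, List.sum_replicate, smul_eq_mul, mul_one]
        omega
  · rcases (h3 n hn).2 with (h4 | h4) | h4
    · exact GdO.of_small (by omega)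
    · rw [h4] at hw
      rw [List.length_eq_zero_iff.1 hw]
      exact GdO.nil
    · exact hc _ dY s w hw (hs.trans h4)

/-- the check of a possibly empty row -/
def rowSE (c : List (List ℕ)) (cS : List (List (List ℕ))) (kX dX kY dY ν : ℕ)
    (row : List (ℕ × ℕ)) : Bool := row.isEmpty || rowSC c cS kX dX kY dY ν row

theorem rowSE_ok {m s kX dX kY dY ν : ℕ} {c : List (List ℕ)} (hc : CapO m c)
    {cS : List (List (List ℕ))} (hcS : CapS m cS)
    {row : List (ℕ × ℕ)} (h : rowSE c cS kX dX kY dY ν row = true) (h0 : row ≠ []) :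
    RowS m s kX dX kY dY ν row := by
  unfold rowSE at h
  rw [Bool.or_eq_true] at h
  rcases h with h | h
  · exact absurd (List.isEmpty_iff.1 h) h0
  · exact rowSC_ok hc hcS h

/-- the check of one class -/
def clsMC (c : List (List ℕ)) (cS : List (List (List ℕ))) (K D kX dX kY dY : ℕ)
    (cl : RowP × Bool × List ℕ) : Bool :=
  match cl.2.2 with
  | [] => true
  | R :: Rs => (rowOC c kX dX kY dY (cnt R K D) (kY + dY - (cnt R 0 K + cnt R K D)) cl.1.1 &&
      (!cl.2.1 || (decide (cnt R K D = 0) && decide (kY + dY - (cnt R 0 K + cnt R K D) = 0) &&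
        fullC c kX dX cl.1.1)) &&
      rowSE c cS kX dX kY dY (kY + dY - (cnt R 0 K + cnt R K D)) cl.1.2) &&
      Rs.all fun R' => decide (cnt R' 0 K = cnt R 0 K) && decide (cnt R' K D = cnt R K D)

/-- the check of one side -/
def sideMC (c : List (List ℕ)) (cS : List (List (List ℕ))) (K D g : ℕ) (x : Bool)
    (sd : SideM) : Bool :=
  (decide (sd.2.2.1 < 2 ^ (K + D)) &&
  (List.range (K + D)).all fun i => sd.2.2.1.testBit i == ((2 * g).testBit i == x)) &&
  ((List.range (sft K D g x + 1)).all (fun h =>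
    decide ((bitsG K g).count (!x) + sft K D g (!x) < h) ||
    rowOC c ((bitsG K g).count x) (sft K D g x) ((bitsG K g).count (!x)) (sft K D g (!x)) h
      ((bitsG K g).count (!x) + sft K D g (!x) - h) sd.1.1) &&
  rowSE c cS ((bitsG K g).count x) (sft K D g x) ((bitsG K g).count (!x)) (sft K D g (!x))
      ((bitsG K g).count (!x) + sft K D g (!x)) sd.1.2) &&
  (rowOC c ((bitsG K g).count x) (sft K D g x) ((bitsG K g).count (!x)) (sft K D g (!x)) 0
      ((bitsG K g).count (!x) + sft K D g (!x)) sd.2.1.1 &&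
  rowSE c cS ((bitsG K g).count x) (sft K D g x) ((bitsG K g).count (!x)) (sft K D g (!x))
      ((bitsG K g).count (!x) + sft K D g (!x)) sd.2.1.2) &&
  sd.2.2.2.all (clsMC c cS K D ((bitsG K g).count x) (sft K D g x) ((bitsG K g).count (!x))
    (sft K D g (!x)))

theorem sideMC_ok {m s K D g : ℕ} {x : Bool} {c : List (List ℕ)} (hc : CapO m c)
    {cS : List (List (List ℕ))} (hcS : CapS m cS) {sd : SideM}
    (h : sideMC c cS K D g x sd = true) : SideOKM m s K D g x sd := by
  unfold sideMC at h
  simp only [Bool.and_eq_true, decide_eq_true_eq, List.all_eq_true] at h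
  obtain ⟨⟨⟨⟨h1, h2⟩, h3, h3'⟩, h4, h4'⟩, h5⟩ := h
  refine ⟨fun i => ?_, fun η h6 h7 => ?_, rowSE_ok hc hcS h3', rowOC_ok hc h4,
    rowSE_ok hc hcS h4', fun cl hcl R hR => ?_⟩
  · by_cases hi : i < K + D
    · have h6 := h2 i (List.mem_range.2 hi)
      rw [beq_iff_eq] at h6
      rw [h6, beq_iff_eq]
      exact ⟨fun h => ⟨hi, h⟩, fun h => h.2⟩
    · have h6 : sd.2.2.1.testBit i = false :=
        Nat.testBit_lt_two_pow (h1.trans_le (Nat.pow_le_pow_right (by omega) (by omega)))
      rw [h6]
      constructor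
      · intro h; cases h
      · rintro ⟨h, -⟩
        exact absurd h hi
  · have h8 := h3 η (List.mem_range.2 (by omega))
    rw [Bool.or_eq_true, decide_eq_true_eq] at h8
    rcases h8 with h8 | h8
    · omega
    · exact rowOC_ok hc h8
  · have h6 := h5 cl hcl
    unfold clsMC at h6
    cases hRs : cl.2.2 with
    | nil => rw [hRs] at hR; simp at hR
    | cons R0 Rs =>
      rw [hRs] at h6 hR
      simp only [Bool.and_eq_true, List.all_eq_true, decide_eq_true_eq, Bool.or_eq_true,
        Bool.not_eq_true'] at h6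
      obtain ⟨⟨⟨h7, h8⟩, h8'⟩, h9⟩ := h6
      have h10 : cnt R 0 K = cnt R0 0 K ∧ cnt R K D = cnt R0 K D := by
        rcases List.mem_cons.1 hR with rfl | hR
        · exact ⟨rfl, rfl⟩
        · exact h9 R hR
      rw [h10.1, h10.2]
      refine ⟨rowOC_ok hc h7, fun htw => ?_, rowSE_ok hc hcS h8'⟩
      rcases h8 with h8 | ⟨⟨h11, h12⟩, h13⟩
      · rw [htw] at h8; cases h8
      · exact ⟨h11, h12, fullC_ok hc h13⟩

/-- the check of the table -/
def tabMC (c : List (List ℕ)) (cS : List (List (List ℕ))) (K D : ℕ) (tab : List EntM) : Bool :=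
  decide (tab.length = 2 ^ (K + D - 1)) &&
  (List.range (2 ^ (K + D - 1))).all (fun g =>
    decide ((tab.getD g ([], (([], []), ([], []), 0, []), (([], []), ([], []), 0, []))).1 =
      bitsG K g) &&
    sideMC c cS K D g false
      (tab.getD g ([], (([], []), ([], []), 0, []), (([], []), ([], []), 0, []))).2.1 &&
    sideMC c cS K D g true
      (tab.getD g ([], (([], []), ([], []), 0, []), (([], []), ([], []), 0, []))).2.2)

theorem tabMC_ok {m s K D : ℕ} {c : List (List ℕ)} (hc : CapO m c)
    {cS : List (List (List ℕ))} (hcS : CapS m cS)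
    {tab : List EntM} (h : tabMC c cS K D tab = true) :
    tab.length = 2 ^ (K + D - 1) ∧ TabM m s K D tab := by
  unfold tabMC at h
  rw [Bool.and_eq_true, List.all_eq_true, decide_eq_true_eq] at h
  refine ⟨h.1, fun g hg e he => ?_⟩
  have h1 : tab.getD g ([], (([], []), ([], []), 0, []), (([], []), ([], []), 0, [])) = e := by
    rw [List.getD_eq_getElem?_getD, he]
    rfl
  have h2 := h.2 g (List.mem_range.2 hg)
  rw [Bool.and_eq_true, Bool.and_eq_true, decide_eq_true_eq, h1] at h2
  obtain ⟨⟨h3, h4⟩, h5⟩ := h2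
  refine ⟨h3, fun x => ?_⟩
  cases x
  · exact sideMC_ok hc hcS h4
  · exact sideMC_ok hc hcS h5

/-- **All vectors of one state.** -/
theorem stateM_all {m K D T lo hi : ℕ} (hN : K + 1 + D ≤ m + 1) {c : List (List ℕ)}
    (hc : CapO m c) {cS : List (List (List ℕ))} (hcS : CapS m cS)
    {tab : List EntM} (htab : tabMC c cS (K + 1) D tab = true)
    {G : List (ℕ × List (ℕ × ℕ))} {sn full : ℕ}
    (hG : Adv.groups (K + 1 + D) (K + 1 + D) = G) (hsn : Adv.sen (K + 1 + D) = sn)
    (hfull : Adv.fullN (K + 1 + D) = full) (h : Cov K T lo hi (chkM G sn full tab))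
    (hlo : lo * (K + 1) ≤ T + K) (hhi : T - K ≤ hi) (s : ℕ) (w : List ℕ)
    (hw : w.length = K + 1) (hs : w.sum ≤ T) : GdO (m + 1) D s w := by
  obtain ⟨h1, h2⟩ := tabMC_ok (s := s) hc hcS htab
  refine GdO.of_cov (fun u hu hf => ?_) h hlo hhi hw hs
  refine stateM_emb (by omega) hN h1 h2 hu ?_
  rw [hG, hsn, hfull]
  exact hf

end Pool.Agent.Work.MP_bf01b2_co.MR
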