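import Pool.Agent.Work.MP_bf01b2_co.MR.Level

/-!
# Marks recursion: states with one tree and no soft position are unrooted
-/

set_option autoImplicit false

namespace Pool.Agent.Work.MP_bf01b2_co.MR

/-! ### Contexts -/

/-- put the tree `t` in the context `c` (innermost frame first) -/
def plug : List (Bool × HT) → HT → HT
  | [], t => t
  | (b, w) :: c, t => plug c (if b then .node w t else .node t w)

/-- the context, seen from below -/
def up : List (Bool × HT) → HT
  | [] => .nil
  | (_, w) :: c => .node w (up c)

theorem plug_size : ∀ (c : List (Bool × HT)) (t : HT), (plug c t).size = t.size + (up c).size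
  | [], t => by simp [plug, up, HT.size]
  | (b, w) :: c, t => by
    rw [plug, plug_size c, up, HT.size]
    cases b <;> simp [HT.size] <;> omega

/-- embedding with a root -/
def RootE {V : Type*} [DecidableEq V] (adj : V → V → Prop) (t : HT) (x : V) (S : Finset V)
    (p : List V) : Prop :=
  match t with
  | .node l r => Root adj l r x S p
  | _ => False

/-- **Re-rooting.** A vertex at `y` with three subtrees: its children and the rest of the tree. -/
theorem reroot {V : Type*} [DecidableEq V] {adj : V → V → Prop} (hs : ∀ a b, adj a b → adj b a) :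
    ∀ (c : List (Bool × HT)) {l r : HT} {y : V} {A B C : Finset V} {pa pb pc : List V},
      Slot adj l y A pa → Slot adj r y B pb → Slot adj (up c) y C pc → y ∉ A → y ∉ B → y ∉ C →
      Disjoint A B → Disjoint A C → Disjoint B C →
      ∃ x p, RootE adj (plug c (.node l r)) x (insert y (A ∪ B ∪ C)) p
  | [], l, r, y, A, B, C, pa, pb, pc, hA, hB, hC, yA, yB, yC, hAB, hAC, hBC => by
    obtain ⟨rfl, rfl⟩ := hC
    exact ⟨y, pa ++ pb, A, B, pa, pb, hA, hB, yA, yB, hAB, by rw [Finset.union_empty], rfl⟩
  | (b, w) :: c, l, r, y, A, B, C, pa, pb, pc, hA, hB, hC, yA, yB, yC, hAB, hAC, hBC => by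
    obtain ⟨x1, hx1, W, U, pw, pu, hW, hU, xW, xU, hWU, rfl, rfl⟩ := hC
    have hyx : y ≠ x1 := by
      rintro rfl
      exact yC (Finset.mem_insert_self _ _)
    have yW : y ∉ W := fun h => yC (by simp [h])
    have yU : y ∉ U := fun h => yC (by simp [h])
    have xA : x1 ∉ A := fun h => (Finset.disjoint_left.1 hAC h) (Finset.mem_insert_self _ _)
    have xB : x1 ∉ B := fun h => (Finset.disjoint_left.1 hBC h) (Finset.mem_insert_self _ _)
    have hAW : Disjoint A W := Finset.disjoint_of_subset_right (by
      intro z hz; simp [hz]) hAC
    have hAU : Disjoint A U := Finset.disjoint_of_subset_right (by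
      intro z hz; simp [hz]) hAC
    have hBW : Disjoint B W := Finset.disjoint_of_subset_right (by
      intro z hz; simp [hz]) hBC
    have hBU : Disjoint B U := Finset.disjoint_of_subset_right (by
      intro z hz; simp [hz]) hBC
    have hT : Slot adj (.node l r) x1 (insert y (A ∪ B)) (pa ++ pb) :=
      ⟨y, hs _ _ hx1, A, B, pa, pb, hA, hB, yA, yB, hAB, rfl, rfl⟩
    have xT : x1 ∉ insert y (A ∪ B) := by
      simp only [Finset.mem_insert, Finset.mem_union, not_or]
      exact ⟨fun h => hyx h.symm, xA, xB⟩
    have hTW : Disjoint (insert y (A ∪ B)) W := by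
      rw [Finset.disjoint_insert_left, Finset.disjoint_union_left]
      exact ⟨yW, hAW, hBW⟩
    have hTU : Disjoint (insert y (A ∪ B)) U := by
      rw [Finset.disjoint_insert_left, Finset.disjoint_union_left]
      exact ⟨yU, hAU, hBU⟩
    have hset : insert x1 (insert y (A ∪ B) ∪ W ∪ U) =
        insert y (A ∪ B ∪ insert x1 (W ∪ U)) := by
      ext z
      simp only [Finset.mem_insert, Finset.mem_union]
      tauto
    have hset' : insert x1 (W ∪ insert y (A ∪ B) ∪ U) =
        insert y (A ∪ B ∪ insert x1 (W ∪ U)) := by
      ext z
      simp only [Finset.mem_insert, Finset.mem_union]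
      tauto
    cases b with
    | false =>
      obtain ⟨x, p, h⟩ := reroot hs c hT hW hU xT xW xU hTW hTU hWU
      rw [hset] at h
      exact ⟨x, p, h⟩
    | true =>
      obtain ⟨x, p, h⟩ := reroot hs c hW hT hU xW xT xU hTW.symm hWU hTU
      rw [hset'] at h
      exact ⟨x, p, h⟩

/-! ### The centroid -/

theorem centroid_aux (n : ℕ) : ∀ (k : ℕ) (c : List (Bool × HT)) (l r : HT),
    l.size + r.size ≤ k → (plug c (.node l r)).size = n → 2 * (up c).size ≤ n →
    ∃ c' l' r', plug c' (.node l' r') = plug c (.node l r) ∧ 2 * (up c').size ≤ n ∧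
      2 * l'.size ≤ n ∧ 2 * r'.size ≤ n := by
  intro k
  induction k with
  | zero =>
    intro c l r hk hn hc
    exact ⟨c, l, r, rfl, hc, by omega, by omega⟩
  | succ k ih =>
    intro c l r hk hn hc
    have hn' := hn
    rw [plug_size, HT.size] at hn'
    by_cases hl : 2 * l.size ≤ n
    · by_cases hr : 2 * r.size ≤ n
      · exact ⟨c, l, r, rfl, hc, hl, hr⟩
      · cases r with
        | nil => simp [HT.size] at hr
        | hole => simp [HT.size] at hr
        | node a b =>
          simp only [HT.size] at hr hk hn'
          obtain ⟨c', l', r', h1, h2, h3, h4⟩ := ih ((true, l) :: c) a b (by omega)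
            (by rw [← hn]; simp [plug]) (by simp only [up, HT.size]; omega)
          exact ⟨c', l', r', by rw [h1]; simp [plug], h2, h3, h4⟩
    · cases l with
      | nil => simp [HT.size] at hl
      | hole => simp [HT.size] at hl
      | node a b =>
        simp only [HT.size] at hl hk hn'
        obtain ⟨c', l', r', h1, h2, h3, h4⟩ := ih ((false, r) :: c) a b (by omega)
          (by rw [← hn]; simp [plug]) (by simp only [up, HT.size]; omega)
        exact ⟨c', l', r', by rw [h1]; simp [plug], h2, h3, h4⟩

/-- every tree has a vertex with three parts of at most half of the size -/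
theorem centroid (l r : HT) : ∃ c l' r', plug c (.node l' r') = .node l r ∧
    2 * (up c).size ≤ (HT.node l r).size ∧ 2 * l'.size ≤ (HT.node l r).size ∧
    2 * r'.size ≤ (HT.node l r).size :=
  centroid_aux _ _ [] l r le_rfl rfl (by simp [up, HT.size])

/-! ### Translations of the cube -/

/-- translation -/
def shift {m : ℕ} (c : Fin m → Bool) : (Fin m → Bool) ↪ (Fin m → Bool) where
  toFun x := fun i => xor (x i) (c i)
  inj' x y h := by
    ext i
    have := congrFun h i
    simpa using this

theorem shift_apply {m : ℕ} (c x : Fin m → Bool) (i : Fin m) :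
    shift c x i = xor (x i) (c i) := rfl

theorem cadj_shift {m : ℕ} (c : Fin m → Bool) {x y : Fin m → Bool} (h : cadj m x y) :
    cadj m (shift c x) (shift c y) := by
  unfold cadj hammingDist at *
  rw [← h]
  congr 1
  ext i
  simp [shift_apply]

/-- Every position of the root is possible. -/
theorem root_shift {m : ℕ} {l r : HT} {x z : Fin m → Bool} {S : Finset (Fin m → Bool)}
    {p : List (Fin m → Bool)} (h : Root (cadj m) l r x S p) :
    ∃ S' p', Root (cadj m) l r z S' p' := by
  have h1 := root_map (shift fun i => xor (x i) (z i)) (fun a b => cadj_shift _) h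
  have h2 : shift (fun i => xor (x i) (z i)) x = z := by
    funext i
    rw [shift_apply]
    cases x i <;> cases z i <;> rfl
  rw [h2] at h1
  exact ⟨_, _, h1⟩

/-! ### The step -/

/-- holes are deleted -/
def HT.strip : HT → HT
  | .nil => .nil
  | .hole => .nil
  | .node l r => .node l.strip r.strip

theorem HT.strip_size : ∀ t : HT, t.strip.size = t.size
  | .nil => rfl
  | .hole => rfl
  | .node l r => by simp only [HT.strip, HT.size, HT.strip_size l, HT.strip_size r]

theorem HT.strip_holes : ∀ t : HT, t.strip.holes = 0
  | .nil => rfl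
  | .hole => rfl
  | .node l r => by simp only [HT.strip, HT.holes, HT.strip_holes l, HT.strip_holes r]

theorem lab_core {V : Type*} {rel : Finset V → Bool} (h : rel ∅ = false) : ∀ t : HT,
    (t.lab : LT V).core rel = t.strip
  | .nil => rfl
  | .hole => by simp [HT.lab, LT.core, h, HT.strip]
  | .node l r => by simp only [HT.lab, LT.core, HT.strip, lab_core h l, lab_core h r]

/-- **Unrooted step** for a state with one tree and without soft positions. The root `v` of the
first side has the subtrees `l`, `r` and loses no child, the third part has `q` vertices; `l`, `r`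
are at most as large as the third part, which has at most half of the vertices. -/
theorem Gd.unroot {m N : ℕ} (h1 : 1 ≤ m)
    (H : ∀ (l r : HT) (q : ℕ), l.holes = 0 → r.holes = 0 → l.size ≤ q → r.size ≤ q → 1 ≤ q →
      l.size + r.size + 1 + q ≤ N → 2 * q ≤ l.size + r.size + 1 + q →
      ∃ sz us, FCutR [(true, l, r)] [sz] us ∧ Gd m 0 0 [sz] ∧ Gd m 0 0 (us.map HT.size ++ [q]))
    (s : ℕ) : Gd (m + 1) 0 s [N] := by
  -- the three parts, in the order (first side left, first side right, second side)
  have key : ∀ (l r a b : HT), l.size ≤ (HT.node a b).size → r.size ≤ (HT.node a b).size →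
      l.size + r.size + 1 + (HT.node a b).size ≤ N →
      2 * (HT.node a b).size ≤ l.size + r.size + 1 + (HT.node a b).size →
      ∃ (y : Fin (m + 1) → Bool) (A B C : Finset (Fin (m + 1) → Bool))
        (pa pb pc : List (Fin (m + 1) → Bool)), Slot (cadj (m + 1)) l y A pa ∧
        Slot (cadj (m + 1)) r y B pb ∧ Slot (cadj (m + 1)) (.node a b) y C pc ∧
        y ∉ A ∧ y ∉ B ∧ y ∉ C ∧ Disjoint A B ∧ Disjoint A C ∧ Disjoint B C := by
    intro l r a b hl hr hN hq
    obtain ⟨sz, us, hcut, gX, gY⟩ := H l.strip r.strip (HT.node a b).size (HT.strip_holes l)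
      (HT.strip_holes r) (by rw [HT.strip_size]; exact hl) (by rw [HT.strip_size]; exact hr)
      (by simp [HT.size]) (by rw [HT.strip_size, HT.strip_size]; exact hN)
      (by rw [HT.strip_size, HT.strip_size]; exact hq)
    let y : Fin (m + 1) → Bool := fun _ => false
    let j : Fin (m + 1) := 0
    have hyj : y j = false := rfl
    have hne : flip j y ≠ y := by
      intro h
      have := congrFun h j
      rw [flip_apply_self] at this
      simp [y] at this
    let TX : List (LRT (Fin (m + 1) → Bool)) := [⟨y, l.lab, r.lab⟩]
    let TY : List (LRT (Fin (m + 1) → Bool)) := [⟨flip j y, a.lab, b.lab⟩]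
    have hpX : poss TX = {y} := by simp [poss, TX]
    have hpY : poss TY = {flip j y} := by simp [poss, TY]
    have hsoft : softs (TX ++ ([] ++ TY)) = ∅ := by
      rw [Finset.eq_empty_iff_forall_notMem]
      intro x hx
      obtain ⟨T, hT, F, hF, hxF⟩ := mem_softs.1 hx
      have hF0 : F = ∅ := by
        simp only [List.nil_append, TX, TY, List.cons_append, List.mem_cons,
          List.not_mem_nil, or_false] at hT
        rcases hT with rfl | rfl
        · simp only [LRT.labs, List.mem_append] at hF
          rcases hF with hF | hF <;> exact HT.lab_labs _ F hF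
        · simp only [LRT.labs, List.mem_append] at hF
          rcases hF with hF | hF <;> exact HT.lab_labs _ F hF
      rw [hF0] at hxF
      exact absurd hxF (Finset.notMem_empty _)
    have hspec : nspec (TX ++ ([] ++ TY)) ≤ 0 := by
      unfold nspec
      rw [Nat.le_zero, List.countP_eq_zero]
      intro F hF
      obtain ⟨T, hT, hF⟩ := List.mem_flatMap.1 hF
      have hF0 : F = ∅ := by
        simp only [List.nil_append, TX, TY, List.cons_append, List.mem_cons,
          List.not_mem_nil, or_false] at hT
        rcases hT with rfl | rfl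
        · simp only [LRT.labs, List.mem_append] at hF
          rcases hF with hF | hF <;> exact HT.lab_labs _ F hF
        · simp only [LRT.labs, List.mem_append] at hF
          rcases hF with hF | hF <;> exact HT.lab_labs _ F hF
      simp [hF0]
    have hmeets : meets j (!false) (∅ : Finset (Fin (m + 1) → Bool)) = false := by
      simp [meets]
    have hm2 : 2 ≤ 2 ^ m := by
      calc 2 = 2 ^ 1 := rfl
        _ ≤ 2 ^ m := Nat.pow_le_pow_right (by norm_num) h1
    obtain ⟨S, hS⟩ := level j false (TX := TX) (TH := []) (TY := TY) (sz := [sz]) (us := us)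
      (dX := 0) (dY := 0) (s := 0) (DX := 0) (by
        simp only [TX, TY, List.nil_append, List.cons_append, List.map_cons, List.map_nil,
          List.nodup_cons, List.mem_cons, List.not_mem_nil, or_false, not_false_eq_true,
          List.nodup_nil, and_true]
        exact fun h => hne h.symm) (by
        intro T hT
        simp only [List.nil_append, TX, TY, List.cons_append, List.mem_cons,
          List.not_mem_nil, or_false] at hT
        rcases hT with rfl | rfl
        · constructor <;> simp [HT.lab_top]
        · constructor <;> simp [HT.lab_top]) (by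
        intro T hT
        simp only [TX, List.mem_cons, List.not_mem_nil, or_false] at hT
        rw [hT]) (by simp) (by simp) (by simp) (by simp) (by
        intro T hT
        simp only [TY, List.mem_cons, List.not_mem_nil, or_false] at hT
        rw [hT]
        show flip j y j = !false
        rw [flip_apply_self]) (by
        have e1 : cdat j false (poss ([] : List (LRT (Fin (m + 1) → Bool))) ∪ poss TY)
            (⟨y, l.lab, r.lab⟩ : LRT (Fin (m + 1) → Bool)) = (true, l.strip, r.strip) := by
          unfold cdat
          rw [hpY, lab_core hmeets, lab_core hmeets]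
          simp
        simp only [TX, List.map_nil, List.append_nil, List.map_cons]
        rw [e1]
        exact hcut) (by rw [hsoft]; simp) (by rw [hsoft]; simp) hspec (by
        rw [hpX, hpY]
        simp) (by
        intro a' c' hac
        obtain ⟨rfl, rfl⟩ : a' = 0 ∧ c' = 0 := by omega
        refine ⟨?_, ?_⟩
        · exact Gd.soft_of_hard (D := 0) (by simpa using gX) (by simp; omega)
        · simpa [TY, LRT.size, LT.size, HT.lab_shape, HT.size] using gY)
    obtain ⟨p, hS1, -⟩ := hS
    simp only [TX, TY, List.nil_append, List.cons_append, List.map_cons, List.map_nil, LRT.shape,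
      HT.lab_shape] at hS1
    obtain ⟨P, Q, pp, pq, hP, ⟨P', Q', pp', pq', hP', ⟨rfl, rfl⟩, -, rfl, rfl⟩, hPQ, rfl, rfl⟩ := hS1
    obtain ⟨A, B, pa, pb, hA, hB, yA, yB, hAB, rfl, rfl⟩ := hP
    rw [Finset.union_empty, Finset.disjoint_insert_left, Finset.disjoint_union_left] at hPQ
    exact ⟨y, A, B, P', pa, pb, pp', hA, hB, ⟨flip j y, cadj_flip j y, hP'⟩, yA, yB, hPQ.1, hAB,
      hPQ.2.1, hPQ.2.2⟩
  intro Ts t1 t2 t3 t4 _
  cases t3 with
  | @cons T _ _ _ hTN hnil =>
  cases hnil
  -- the tree without labels embeds somewhere
  have hroot : ∃ x S p, Root (cadj (m + 1)) T.l.shape T.r.shape x S p := by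
    by_cases hsize : T.size = 1
    · -- one vertex
      have e1 : T.l.shape.size = 0 := by
        have : T.size = T.l.shape.size + T.r.shape.size + 1 := rfl
        omega
      have e2 : T.r.shape.size = 0 := by
        have : T.size = T.l.shape.size + T.r.shape.size + 1 := rfl
        omega
      have hsl : ∀ (t : HT) (x : Fin (m + 1) → Bool), t.size = 0 →
          ∃ p, Slot (cadj (m + 1)) t x ∅ p := by
        intro t x ht
        cases t with
        | nil => exact ⟨[], rfl, rfl⟩
        | hole => exact ⟨[x], rfl, rfl⟩
        | node _ _ => simp [HT.size] at ht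
      obtain ⟨p1, hp1⟩ := hsl T.l.shape (fun _ => false) e1
      obtain ⟨p2, hp2⟩ := hsl T.r.shape (fun _ => false) e2
      exact ⟨fun _ => false, _, _, ∅, ∅, p1, p2, hp1, hp2, by simp, by simp, by simp, rfl, rfl⟩
    · obtain ⟨c, l, r, hc, hc1, hc2, hc3⟩ := centroid T.l.shape T.r.shape
      have hsz : (HT.node T.l.shape T.r.shape).size = T.size := rfl
      rw [hsz] at hc1 hc2 hc3
      have hsum : l.size + r.size + 1 + (up c).size = T.size := by
        rw [← hsz, ← hc, plug_size, HT.size]
      have hT1 : 1 ≤ T.size := by
        have : T.size = T.l.shape.size + T.r.shape.size + 1 := rfl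
        omega
      have fin : ∀ {x S p}, RootE (cadj (m + 1)) (plug c (.node l r)) x S p →
          ∃ x S p, Root (cadj (m + 1)) T.l.shape T.r.shape x S p := by
        intro x S p h
        rw [hc] at h
        exact ⟨x, S, p, h⟩
      have hs : ∀ a b : Fin (m + 1) → Bool, cadj (m + 1) a b → cadj (m + 1) b a :=
        fun a b => cadj_symm
      by_cases hcase : l.size ≤ (up c).size ∧ r.size ≤ (up c).size
      · -- the upper part is the largest
        obtain ⟨g1, g2⟩ := hcase
        cases hup : up c with
        | nil => rw [hup] at g1 g2; simp only [HT.size] at g1 g2; rw [hup, HT.size] at hsum; omega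
        | hole => rw [hup] at g1 g2; simp only [HT.size] at g1 g2; rw [hup, HT.size] at hsum; omega
        | node a b =>
          rw [hup] at g1 g2 hc1 hsum
          obtain ⟨y, A, B, C, pa, pb, pc, hA, hB, hC, yA, yB, yC, hAB, hAC, hBC⟩ :=
            key l r a b g1 g2 (by omega) (by omega)
          obtain ⟨x, p, h⟩ := reroot hs c hA hB (by rw [hup]; exact hC) yA yB yC hAB hAC hBC
          exact fin h
      · by_cases hcase2 : r.size ≤ l.size
        · have g1 : (up c).size ≤ l.size := by
            by_contra hcon
            exact hcase ⟨by omega, by omega⟩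
          cases l with
          | nil => simp only [HT.size] at g1 hcase2 hsum; omega
          | hole => simp only [HT.size] at g1 hcase2 hsum; omega
          | node a b =>
            obtain ⟨y, A, B, C, pa, pb, pc, hA, hB, hC, yA, yB, yC, hAB, hAC, hBC⟩ :=
              key r (up c) a b hcase2 g1 (by omega) (by omega)
            obtain ⟨x, p, h⟩ := reroot hs c hC hA hB yC yA yB hAC.symm hBC.symm hAB
            exact fin h
        · have g1 : (up c).size ≤ r.size := by
            by_contra hcon
            exact hcase ⟨by omega, by omega⟩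
          cases r with
          | nil => simp only [HT.size] at g1 hcase2 hsum; omega
          | hole => simp only [HT.size] at g1 hcase2 hsum; omega
          | node a b =>
            obtain ⟨y, A, B, C, pa, pb, pc, hA, hB, hC, yA, yB, yC, hAB, hAC, hBC⟩ :=
              key l (up c) a b (by omega) g1 (by omega) (by omega)
            obtain ⟨x, p, h⟩ := reroot hs c hA hC hB yA yC yB hAC hAB hBC.symm
            exact fin h
  obtain ⟨x, S, p, hS⟩ := hroot
  obtain ⟨S', p', hS'⟩ := root_shift (z := T.pos) hS
  refine ⟨S', p', ?_, ?_⟩
  · exact ⟨S', ∅, p', [], hS', ⟨rfl, rfl⟩, by simp, by simp, by simp⟩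
  · refine forest_avoid (adj := cadj (m + 1)) (O := softs [T]) (S := S') (p := p') ?_ ?_ t2 ?_
    · exact ⟨S', ∅, p', [], hS', ⟨rfl, rfl⟩, by simp, by simp, by simp⟩
    · intro w _ hw
      by_contra hcon
      have : w ∈ softs [T] \ poss [T] := Finset.mem_sdiff.2 ⟨hw, hcon⟩
      rw [Finset.card_eq_zero.1 (Nat.le_zero.1 t4)] at this
      exact absurd this (Finset.notMem_empty _)
    · intro U hU F hF w hw
      exact mem_softs.2 ⟨U, hU, F, hF, hw⟩

end Pool.Agent.Work.MP_bf01b2_co.MR
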